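import Pool.Agent.H8.Sel.Sound3
import Pool.Agent.H8.Sel.T31.C0
import Pool.Agent.H8.Sel.T31.C1
import Pool.Agent.H8.Sel.T31.C2
import Pool.Agent.H8.Sel.T31.C3
import Pool.Agent.H8.Sel.T31.C4
import Pool.Agent.H8.Sel.T31.C5
import Pool.Agent.H8.Sel.T31.C6
import Pool.Agent.H8.Sel.T31.C7
import Pool.Agent.H8.Sel.T31.C8
import Pool.Agent.H8.Sel.T31.C9
import Pool.Agent.H8.Sel.T31.C10
import Pool.Agent.H8.Sel.T31.C11
import Pool.Agent.H8.Sel.T31.C12
import Pool.Agent.H8.Sel.T31.C13
import Pool.Agent.H8.Sel.T31.C14
import Pool.Agent.H8.Sel.T31.C15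
import Pool.Agent.H8.Sel.T31.C16
import Pool.Agent.H8.Sel.T31.C17
import Pool.Agent.H8.Sel.T31.C18
import Pool.Agent.H8.Sel.T31.C19
import Pool.Agent.H8.Sel.T31.C20
import Pool.Agent.H8.Sel.T31.C21
import Pool.Agent.H8.Sel.T31.C22
import Pool.Agent.H8.Sel.T31.C23
import Pool.Agent.H8.Sel.T31.C24
import Pool.Agent.H8.Sel.T31.C25
import Pool.Agent.H8.Sel.T31.C26

namespace Pool.Agent.Sel.T31

open Pool.Agent.Sel

theorem d0 : Chk2 tab 31977 1 301 := by
  have h := chunkB2_sound (T := tab) (N := 31977) z0 1 c0
  rw [l0] at h
  exact h

theorem d1 : Chk2 tab 31977 301 601 := by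
  have h := chunkB2_sound (T := tab) (N := 31977) z1 301 c1
  rw [l1] at h
  exact h

theorem d2 : Chk2 tab 31977 601 901 := by
  have h := chunkB2_sound (T := tab) (N := 31977) z2 601 c2
  rw [l2] at h
  exact h

theorem d3 : Chk2 tab 31977 901 1201 := by
  have h := chunkB2_sound (T := tab) (N := 31977) z3 901 c3
  rw [l3] at h
  exact h

theorem d4 : Chk2 tab 31977 1201 1501 := by
  have h := chunkB2_sound (T := tab) (N := 31977) z4 1201 c4
  rw [l4] at h
  exact h

theorem d5 : Chk2 tab 31977 1501 1801 := by
  have h := chunkB2_sound (T := tab) (N := 31977) z5 1501 c5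
  rw [l5] at h
  exact h

theorem d6 : Chk2 tab 31977 1801 2101 := by
  have h := chunkB2_sound (T := tab) (N := 31977) z6 1801 c6
  rw [l6] at h
  exact h

theorem d7 : Chk2 tab 31977 2101 2401 := by
  have h := chunkB2_sound (T := tab) (N := 31977) z7 2101 c7
  rw [l7] at h
  exact h

theorem d8 : Chk2 tab 31977 2401 2701 := by
  have h := chunkB2_sound (T := tab) (N := 31977) z8 2401 c8
  rw [l8] at h
  exact h

theorem d9 : Chk2 tab 31977 2701 3001 := by
  have h := chunkB2_sound (T := tab) (N := 31977) z9 2701 c9
  rw [l9] at h
  exact h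

theorem d10 : Chk2 tab 31977 3001 3301 := by
  have h := chunkB2_sound (T := tab) (N := 31977) z10 3001 c10
  rw [l10] at h
  exact h

theorem d11 : Chk2 tab 31977 3301 3601 := by
  have h := chunkB2_sound (T := tab) (N := 31977) z11 3301 c11
  rw [l11] at h
  exact h

theorem d12 : Chk2 tab 31977 3601 3901 := by
  have h := chunkB2_sound (T := tab) (N := 31977) z12 3601 c12
  rw [l12] at h
  exact h

theorem d13 : Chk2 tab 31977 3901 4201 := by
  have h := chunkB2_sound (T := tab) (N := 31977) z13 3901 c13
  rw [l13] at h
  exact h

theorem d14 : Chk2 tab 31977 4201 4501 := by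
  have h := chunkB2_sound (T := tab) (N := 31977) z14 4201 c14
  rw [l14] at h
  exact h

theorem d15 : Chk2 tab 31977 4501 4801 := by
  have h := chunkB2_sound (T := tab) (N := 31977) z15 4501 c15
  rw [l15] at h
  exact h

theorem d16 : Chk2 tab 31977 4801 5101 := by
  have h := chunkB2_sound (T := tab) (N := 31977) z16 4801 c16
  rw [l16] at h
  exact h

theorem d17 : Chk2 tab 31977 5101 5401 := by
  have h := chunkB2_sound (T := tab) (N := 31977) z17 5101 c17
  rw [l17] at h
  exact h

theorem d18 : Chk2 tab 31977 5401 5701 := by
  have h := chunkB2_sound (T := tab) (N := 31977) z18 5401 c18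
  rw [l18] at h
  exact h

theorem d19 : Chk2 tab 31977 5701 6001 := by
  have h := chunkB2_sound (T := tab) (N := 31977) z19 5701 c19
  rw [l19] at h
  exact h

theorem d20 : Chk2 tab 31977 6001 6301 := by
  have h := chunkB2_sound (T := tab) (N := 31977) z20 6001 c20
  rw [l20] at h
  exact h

theorem d21 : Chk2 tab 31977 6301 6601 := by
  have h := chunkB2_sound (T := tab) (N := 31977) z21 6301 c21
  rw [l21] at h
  exact h

theorem d22 : Chk2 tab 31977 6601 6901 := by
  have h := chunkB2_sound (T := tab) (N := 31977) z22 6601 c22
  rw [l22] at h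
  exact h

theorem d23 : Chk2 tab 31977 6901 7201 := by
  have h := chunkB2_sound (T := tab) (N := 31977) z23 6901 c23
  rw [l23] at h
  exact h

theorem d24 : Chk2 tab 31977 7201 7501 := by
  have h := chunkB2_sound (T := tab) (N := 31977) z24 7201 c24
  rw [l24] at h
  exact h

theorem d25 : Chk2 tab 31977 7501 7801 := by
  have h := chunkB2_sound (T := tab) (N := 31977) z25 7501 c25
  rw [l25] at h
  exact h

theorem d26 : Chk2 tab 31977 7801 8101 := by
  have h := chunkB2_sound (T := tab) (N := 31977) z26 7801 c26
  rw [l26] at h
  exact h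

theorem d27 : Chk2 tab 31977 8101 8401 := by
  have h := chunkB2_sound (T := tab) (N := 31977) z27 8101 c27
  rw [l27] at h
  exact h

theorem d28 : Chk2 tab 31977 8401 8701 := by
  have h := chunkB2_sound (T := tab) (N := 31977) z28 8401 c28
  rw [l28] at h
  exact h

theorem d29 : Chk2 tab 31977 8701 9001 := by
  have h := chunkB2_sound (T := tab) (N := 31977) z29 8701 c29
  rw [l29] at h
  exact h

theorem d30 : Chk2 tab 31977 9001 9301 := by
  have h := chunkB2_sound (T := tab) (N := 31977) z30 9001 c30
  rw [l30] at h
  exact h

theorem d31 : Chk2 tab 31977 9301 9601 := by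
  have h := chunkB2_sound (T := tab) (N := 31977) z31 9301 c31
  rw [l31] at h
  exact h

theorem d32 : Chk2 tab 31977 9601 9901 := by
  have h := chunkB2_sound (T := tab) (N := 31977) z32 9601 c32
  rw [l32] at h
  exact h

theorem d33 : Chk2 tab 31977 9901 10201 := by
  have h := chunkB2_sound (T := tab) (N := 31977) z33 9901 c33
  rw [l33] at h
  exact h

theorem d34 : Chk2 tab 31977 10201 10501 := by
  have h := chunkB2_sound (T := tab) (N := 31977) z34 10201 c34
  rw [l34] at h
  exact h

theorem d35 : Chk2 tab 31977 10501 10801 := by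
  have h := chunkB2_sound (T := tab) (N := 31977) z35 10501 c35
  rw [l35] at h
  exact h

theorem d36 : Chk2 tab 31977 10801 11101 := by
  have h := chunkB2_sound (T := tab) (N := 31977) z36 10801 c36
  rw [l36] at h
  exact h

theorem d37 : Chk2 tab 31977 11101 11401 := by
  have h := chunkB2_sound (T := tab) (N := 31977) z37 11101 c37
  rw [l37] at h
  exact h

theorem d38 : Chk2 tab 31977 11401 11701 := by
  have h := chunkB2_sound (T := tab) (N := 31977) z38 11401 c38
  rw [l38] at h
  exact h

theorem d39 : Chk2 tab 31977 11701 12001 := by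
  have h := chunkB2_sound (T := tab) (N := 31977) z39 11701 c39
  rw [l39] at h
  exact h

theorem d40 : Chk2 tab 31977 12001 12301 := by
  have h := chunkB2_sound (T := tab) (N := 31977) z40 12001 c40
  rw [l40] at h
  exact h

theorem d41 : Chk2 tab 31977 12301 12601 := by
  have h := chunkB2_sound (T := tab) (N := 31977) z41 12301 c41
  rw [l41] at h
  exact h

theorem d42 : Chk2 tab 31977 12601 12901 := by
  have h := chunkB2_sound (T := tab) (N := 31977) z42 12601 c42
  rw [l42] at h
  exact h

theorem d43 : Chk2 tab 31977 12901 13201 := by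
  have h := chunkB2_sound (T := tab) (N := 31977) z43 12901 c43
  rw [l43] at h
  exact h

theorem d44 : Chk2 tab 31977 13201 13501 := by
  have h := chunkB2_sound (T := tab) (N := 31977) z44 13201 c44
  rw [l44] at h
  exact h

theorem d45 : Chk2 tab 31977 13501 13801 := by
  have h := chunkB2_sound (T := tab) (N := 31977) z45 13501 c45
  rw [l45] at h
  exact h

theorem d46 : Chk2 tab 31977 13801 14101 := by
  have h := chunkB2_sound (T := tab) (N := 31977) z46 13801 c46
  rw [l46] at h
  exact h

theorem d47 : Chk2 tab 31977 14101 14401 := by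
  have h := chunkB2_sound (T := tab) (N := 31977) z47 14101 c47
  rw [l47] at h
  exact h

theorem d48 : Chk2 tab 31977 14401 14701 := by
  have h := chunkB2_sound (T := tab) (N := 31977) z48 14401 c48
  rw [l48] at h
  exact h

theorem d49 : Chk2 tab 31977 14701 15001 := by
  have h := chunkB2_sound (T := tab) (N := 31977) z49 14701 c49
  rw [l49] at h
  exact h

theorem d50 : Chk2 tab 31977 15001 15301 := by
  have h := chunkB2_sound (T := tab) (N := 31977) z50 15001 c50
  rw [l50] at h
  exact h

theorem d51 : Chk2 tab 31977 15301 15601 := by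
  have h := chunkB2_sound (T := tab) (N := 31977) z51 15301 c51
  rw [l51] at h
  exact h

theorem d52 : Chk2 tab 31977 15601 15901 := by
  have h := chunkB2_sound (T := tab) (N := 31977) z52 15601 c52
  rw [l52] at h
  exact h

theorem d53 : Chk2 tab 31977 15901 16201 := by
  have h := chunkB2_sound (T := tab) (N := 31977) z53 15901 c53
  rw [l53] at h
  exact h

theorem d54 : Chk2 tab 31977 16201 16501 := by
  have h := chunkB2_sound (T := tab) (N := 31977) z54 16201 c54
  rw [l54] at h
  exact h

theorem d55 : Chk2 tab 31977 16501 16801 := by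
  have h := chunkB2_sound (T := tab) (N := 31977) z55 16501 c55
  rw [l55] at h
  exact h

theorem d56 : Chk2 tab 31977 16801 17101 := by
  have h := chunkB2_sound (T := tab) (N := 31977) z56 16801 c56
  rw [l56] at h
  exact h

theorem d57 : Chk2 tab 31977 17101 17401 := by
  have h := chunkB2_sound (T := tab) (N := 31977) z57 17101 c57
  rw [l57] at h
  exact h

theorem d58 : Chk2 tab 31977 17401 17701 := by
  have h := chunkB2_sound (T := tab) (N := 31977) z58 17401 c58
  rw [l58] at h
  exact h

theorem d59 : Chk2 tab 31977 17701 18001 := by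
  have h := chunkB2_sound (T := tab) (N := 31977) z59 17701 c59
  rw [l59] at h
  exact h

theorem d60 : Chk2 tab 31977 18001 18301 := by
  have h := chunkB2_sound (T := tab) (N := 31977) z60 18001 c60
  rw [l60] at h
  exact h

theorem d61 : Chk2 tab 31977 18301 18601 := by
  have h := chunkB2_sound (T := tab) (N := 31977) z61 18301 c61
  rw [l61] at h
  exact h

theorem d62 : Chk2 tab 31977 18601 18901 := by
  have h := chunkB2_sound (T := tab) (N := 31977) z62 18601 c62
  rw [l62] at h
  exact h

theorem d63 : Chk2 tab 31977 18901 19201 := by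
  have h := chunkB2_sound (T := tab) (N := 31977) z63 18901 c63
  rw [l63] at h
  exact h

theorem d64 : Chk2 tab 31977 19201 19501 := by
  have h := chunkB2_sound (T := tab) (N := 31977) z64 19201 c64
  rw [l64] at h
  exact h

theorem d65 : Chk2 tab 31977 19501 19801 := by
  have h := chunkB2_sound (T := tab) (N := 31977) z65 19501 c65
  rw [l65] at h
  exact h

theorem d66 : Chk2 tab 31977 19801 20101 := by
  have h := chunkB2_sound (T := tab) (N := 31977) z66 19801 c66
  rw [l66] at h
  exact h

theorem d67 : Chk2 tab 31977 20101 20401 := by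
  have h := chunkB2_sound (T := tab) (N := 31977) z67 20101 c67
  rw [l67] at h
  exact h

theorem d68 : Chk2 tab 31977 20401 20701 := by
  have h := chunkB2_sound (T := tab) (N := 31977) z68 20401 c68
  rw [l68] at h
  exact h

theorem d69 : Chk2 tab 31977 20701 21001 := by
  have h := chunkB2_sound (T := tab) (N := 31977) z69 20701 c69
  rw [l69] at h
  exact h

theorem d70 : Chk2 tab 31977 21001 21301 := by
  have h := chunkB2_sound (T := tab) (N := 31977) z70 21001 c70
  rw [l70] at h
  exact h

theorem d71 : Chk2 tab 31977 21301 21601 := by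
  have h := chunkB2_sound (T := tab) (N := 31977) z71 21301 c71
  rw [l71] at h
  exact h

theorem d72 : Chk2 tab 31977 21601 21901 := by
  have h := chunkB2_sound (T := tab) (N := 31977) z72 21601 c72
  rw [l72] at h
  exact h

theorem d73 : Chk2 tab 31977 21901 22201 := by
  have h := chunkB2_sound (T := tab) (N := 31977) z73 21901 c73
  rw [l73] at h
  exact h

theorem d74 : Chk2 tab 31977 22201 22501 := by
  have h := chunkB2_sound (T := tab) (N := 31977) z74 22201 c74
  rw [l74] at h
  exact h

theorem d75 : Chk2 tab 31977 22501 22801 := by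
  have h := chunkB2_sound (T := tab) (N := 31977) z75 22501 c75
  rw [l75] at h
  exact h

theorem d76 : Chk2 tab 31977 22801 23101 := by
  have h := chunkB2_sound (T := tab) (N := 31977) z76 22801 c76
  rw [l76] at h
  exact h

theorem d77 : Chk2 tab 31977 23101 23401 := by
  have h := chunkB2_sound (T := tab) (N := 31977) z77 23101 c77
  rw [l77] at h
  exact h

theorem d78 : Chk2 tab 31977 23401 23701 := by
  have h := chunkB2_sound (T := tab) (N := 31977) z78 23401 c78
  rw [l78] at h
  exact h

theorem d79 : Chk2 tab 31977 23701 24001 := by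
  have h := chunkB2_sound (T := tab) (N := 31977) z79 23701 c79
  rw [l79] at h
  exact h

theorem d80 : Chk2 tab 31977 24001 24301 := by
  have h := chunkB2_sound (T := tab) (N := 31977) z80 24001 c80
  rw [l80] at h
  exact h

theorem d81 : Chk2 tab 31977 24301 24601 := by
  have h := chunkB2_sound (T := tab) (N := 31977) z81 24301 c81
  rw [l81] at h
  exact h

theorem d82 : Chk2 tab 31977 24601 24901 := by
  have h := chunkB2_sound (T := tab) (N := 31977) z82 24601 c82
  rw [l82] at h
  exact h

theorem d83 : Chk2 tab 31977 24901 25201 := by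
  have h := chunkB2_sound (T := tab) (N := 31977) z83 24901 c83
  rw [l83] at h
  exact h

theorem d84 : Chk2 tab 31977 25201 25501 := by
  have h := chunkB2_sound (T := tab) (N := 31977) z84 25201 c84
  rw [l84] at h
  exact h

theorem d85 : Chk2 tab 31977 25501 25801 := by
  have h := chunkB2_sound (T := tab) (N := 31977) z85 25501 c85
  rw [l85] at h
  exact h

theorem d86 : Chk2 tab 31977 25801 26101 := by
  have h := chunkB2_sound (T := tab) (N := 31977) z86 25801 c86
  rw [l86] at h
  exact h

theorem d87 : Chk2 tab 31977 26101 26401 := by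
  have h := chunkB2_sound (T := tab) (N := 31977) z87 26101 c87
  rw [l87] at h
  exact h

theorem d88 : Chk2 tab 31977 26401 26701 := by
  have h := chunkB2_sound (T := tab) (N := 31977) z88 26401 c88
  rw [l88] at h
  exact h

theorem d89 : Chk2 tab 31977 26701 27001 := by
  have h := chunkB2_sound (T := tab) (N := 31977) z89 26701 c89
  rw [l89] at h
  exact h

theorem d90 : Chk2 tab 31977 27001 27301 := by
  have h := chunkB2_sound (T := tab) (N := 31977) z90 27001 c90
  rw [l90] at h
  exact h

theorem d91 : Chk2 tab 31977 27301 27601 := by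
  have h := chunkB2_sound (T := tab) (N := 31977) z91 27301 c91
  rw [l91] at h
  exact h

theorem d92 : Chk2 tab 31977 27601 27901 := by
  have h := chunkB2_sound (T := tab) (N := 31977) z92 27601 c92
  rw [l92] at h
  exact h

theorem d93 : Chk2 tab 31977 27901 28201 := by
  have h := chunkB2_sound (T := tab) (N := 31977) z93 27901 c93
  rw [l93] at h
  exact h

theorem d94 : Chk2 tab 31977 28201 28501 := by
  have h := chunkB2_sound (T := tab) (N := 31977) z94 28201 c94
  rw [l94] at h
  exact h

theorem d95 : Chk2 tab 31977 28501 28801 := by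
  have h := chunkB2_sound (T := tab) (N := 31977) z95 28501 c95
  rw [l95] at h
  exact h

theorem d96 : Chk2 tab 31977 28801 29101 := by
  have h := chunkB2_sound (T := tab) (N := 31977) z96 28801 c96
  rw [l96] at h
  exact h

theorem d97 : Chk2 tab 31977 29101 29401 := by
  have h := chunkB2_sound (T := tab) (N := 31977) z97 29101 c97
  rw [l97] at h
  exact h

theorem d98 : Chk2 tab 31977 29401 29701 := by
  have h := chunkB2_sound (T := tab) (N := 31977) z98 29401 c98
  rw [l98] at h
  exact h

theorem d99 : Chk2 tab 31977 29701 30001 := by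
  have h := chunkB2_sound (T := tab) (N := 31977) z99 29701 c99
  rw [l99] at h
  exact h

theorem d100 : Chk2 tab 31977 30001 30301 := by
  have h := chunkB2_sound (T := tab) (N := 31977) z100 30001 c100
  rw [l100] at h
  exact h

theorem d101 : Chk2 tab 31977 30301 30601 := by
  have h := chunkB2_sound (T := tab) (N := 31977) z101 30301 c101
  rw [l101] at h
  exact h

theorem d102 : Chk2 tab 31977 30601 30901 := by
  have h := chunkB2_sound (T := tab) (N := 31977) z102 30601 c102
  rw [l102] at h
  exact h

theorem d103 : Chk2 tab 31977 30901 31201 := by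
  have h := chunkB2_sound (T := tab) (N := 31977) z103 30901 c103
  rw [l103] at h
  exact h

theorem d104 : Chk2 tab 31977 31201 31501 := by
  have h := chunkB2_sound (T := tab) (N := 31977) z104 31201 c104
  rw [l104] at h
  exact h

theorem d105 : Chk2 tab 31977 31501 31801 := by
  have h := chunkB2_sound (T := tab) (N := 31977) z105 31501 c105
  rw [l105] at h
  exact h

theorem d106 : Chk2 tab 31977 31801 31978 := by
  have h := chunkB2_sound (T := tab) (N := 31977) z106 31801 c106
  rw [l106] at h
  exact h

/-- The table is checked. -/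
theorem chk : Chk2 tab 31977 1 (31977 + 1) := ((((((((((((((((((((((((((((((((((((((((((((((((((((((((((((((((((((((((((((((((((((((((((((((((((((((((((d0.trans d1).trans d2).trans d3).trans d4).trans d5).trans d6).trans d7).trans d8).trans d9).trans d10).trans d11).trans d12).trans d13).trans d14).trans d15).trans d16).trans d17).trans d18).trans d19).trans d20).trans d21).trans d22).trans d23).trans d24).trans d25).trans d26).trans d27).trans d28).trans d29).trans d30).trans d31).trans d32).trans d33).trans d34).trans d35).trans d36).trans d37).trans d38).trans d39).trans d40).trans d41).trans d42).trans d43).trans d44).trans d45).trans d46).trans d47).trans d48).trans d49).trans d50).trans d51).trans d52).trans d53).trans d54).trans d55).trans d56).trans d57).trans d58).trans d59).trans d60).trans d61).trans d62).trans d63).trans d64).trans d65).trans d66).trans d67).trans d68).trans d69).trans d70).trans d71).trans d72).trans d73).trans d74).trans d75).trans d76).trans d77).trans d78).trans d79).trans d80).trans d81).trans d82).trans d83).trans d84).trans d85).trans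 d86).trans d87).trans d88).trans d89).trans d90).trans d91).trans d92).trans d93).trans d94).trans d95).trans d96).trans d97).trans d98).trans d99).trans d100).trans d101).trans d102).trans d103).trans d104).trans d105).trans d106)

theorem root : tab.find 1 = some ⟨0, 0, 0, 31, 4, 7 + 64⟩ := rfl

end Pool.Agent.Sel.T31
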