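import Pool.Agent.H8.Sel.Prof

set_option linter.all false
set_option maxRecDepth 100000

namespace Pool.Agent.Sel.T31

open Pool.Agent.Sel

def t14_0 : Tr := .node ⟨nat_lit 9, nat_lit 0x1000100008000800040, nat_lit 0x10110210, nat_lit 2, nat_lit 4, nat_lit 0x4b⟩ (.nil) (.nil)
def t14_8192 : Tr := .node ⟨nat_lit 7, nat_lit 0x4000600064, nat_lit 0x21203, nat_lit 1, nat_lit 4, nat_lit 0x48⟩ (.nil) (.nil)
def t14_4096 : Tr := .node ⟨nat_lit 8, nat_lit 0x800080004000900090, nat_lit 0x1112021, nat_lit 0, nat_lit 4, nat_lit 0x49⟩ (.nil) (.nil)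
def t14_12288 : Tr := .node ⟨nat_lit 7, nat_lit 0x10006000500050, nat_lit 0x102130, nat_lit 1, nat_lit 4, nat_lit 0x47⟩ (.nil) (.nil)
def t14_2048 : Tr := .node ⟨nat_lit 7, nat_lit 0x4000500060, nat_lit 0x102301, nat_lit 1, nat_lit 4, nat_lit 0x49⟩ (.nil) (.nil)
def t14_10240 : Tr := .node ⟨nat_lit 8, nat_lit 0x800040002000a000c8, nat_lit 0x1020020, nat_lit 4, nat_lit 4, nat_lit 0x48⟩ (.nil) (.nil)
def t14_6144 : Tr := .node ⟨nat_lit 4, nat_lit 0xc000c, nat_lit 0x10, nat_lit 9, nat_lit 4, nat_lit 0x44⟩ (.nil) (.nil)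
def t14_14336 : Tr := .node ⟨nat_lit 7, nat_lit 0x40004800300068, nat_lit 0x1000010, nat_lit 1, nat_lit 4, nat_lit 0x45⟩ (.nil) (.nil)
def t14_1024 : Tr := .node ⟨nat_lit 5, nat_lit 0x100018, nat_lit 0x121, nat_lit 7, nat_lit 4, nat_lit 0x47⟩ (.nil) (.nil)
def t14_9216 : Tr := .node ⟨nat_lit 8, nat_lit 0x8000200020009000c0, nat_lit 0x12001, nat_lit 0, nat_lit 4, nat_lit 0x47⟩ (.nil) (.nil)
def t14_5120 : Tr := .node ⟨nat_lit 7, nat_lit 0x400020005000700070, nat_lit 0x13110, nat_lit 1, nat_lit 4, nat_lit 0x45⟩ (.nil) (.nil)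
def t14_13312 : Tr := .node ⟨nat_lit 7, nat_lit 0x40002000500064, nat_lit 0x1003, nat_lit 1, nat_lit 4, nat_lit 0x45⟩ (.nil) (.nil)
def t14_3072 : Tr := .node ⟨nat_lit 7, nat_lit 0x10001000600060, nat_lit 0x1011021, nat_lit 0, nat_lit 4, nat_lit 0x47⟩ (.nil) (.nil)
def t14_11264 : Tr := .node ⟨nat_lit 5, nat_lit 0x100018, nat_lit 0x1110, nat_lit 6, nat_lit 4, nat_lit 0x47⟩ (.nil) (.nil)
def t14_7168 : Tr := .node ⟨nat_lit 7, nat_lit 0x20004000500068, nat_lit 0x1210111, nat_lit 1, nat_lit 4, nat_lit 0x48⟩ (.nil) (.nil)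
def t14_15360 : Tr := .node ⟨nat_lit 7, nat_lit 0x10005000500060, nat_lit 0x201101, nat_lit 0, nat_lit 3, nat_lit 0x45⟩ (.nil) (.nil)
def t14_512 : Tr := .node ⟨nat_lit 7, nat_lit 0x2000400064, nat_lit 0x1211210, nat_lit 0, nat_lit 4, nat_lit 0x4a⟩ (.nil) (.nil)
def t14_8704 : Tr := .node ⟨nat_lit 7, nat_lit 0x4000440060, nat_lit 0x111110, nat_lit 1, nat_lit 4, nat_lit 0x48⟩ (.nil) (.nil)
def t14_4608 : Tr := .node ⟨nat_lit 6, nat_lit 0x2000200030, nat_lit 0x12002, nat_lit 4, nat_lit 4, nat_lit 0x48⟩ (.nil) (.nil)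
def t14_12800 : Tr := .node ⟨nat_lit 8, nat_lit 0x40001000a000c0, nat_lit 0x110120, nat_lit 0, nat_lit 4, nat_lit 0x48⟩ (.nil) (.nil)
def t14_2560 : Tr := .node ⟨nat_lit 8, nat_lit 0x8000200020009000c0, nat_lit 0x10012100, nat_lit 1, nat_lit 4, nat_lit 0x48⟩ (.nil) (.nil)
def t14_10752 : Tr := .node ⟨nat_lit 7, nat_lit 0x40004000600068, nat_lit 0x11020, nat_lit 3, nat_lit 4, nat_lit 0x47⟩ (.nil) (.nil)
def t14_6656 : Tr := .node ⟨nat_lit 8, nat_lit 0x80004000400020, nat_lit 0x110201, nat_lit 2, nat_lit 4, nat_lit 0x4a⟩ (.nil) (.nil)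
def t14_14848 : Tr := .node ⟨nat_lit 0xb, nat_lit 0x200040004000400010000800420, nat_lit 0x111001, nat_lit 2, nat_lit 4, nat_lit 0x4b⟩ (.nil) (.nil)
def t14_1536 : Tr := .node ⟨nat_lit 7, nat_lit 0x400020002000500068, nat_lit 0x22110, nat_lit 1, nat_lit 4, nat_lit 0x46⟩ (.nil) (.nil)
def t14_9728 : Tr := .node ⟨nat_lit 7, nat_lit 0x20004000500068, nat_lit 0x12010, nat_lit 0, nat_lit 4, nat_lit 0x46⟩ (.nil) (.nil)
def t14_5632 : Tr := .node ⟨nat_lit 5, nat_lit 0x100018001c, nat_lit 0x102, nat_lit 5, nat_lit 4, nat_lit 0x44⟩ (.nil) (.nil)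
def t14_13824 : Tr := .node ⟨nat_lit 4, nat_lit 0x80008000c, nat_lit 0x200, nat_lit 6, nat_lit 4, nat_lit 0x45⟩ (.nil) (.nil)
def t14_3584 : Tr := .node ⟨nat_lit 7, nat_lit 0x40002000500064, nat_lit 0x3101, nat_lit 0, nat_lit 4, nat_lit 0x46⟩ (.nil) (.nil)
def t14_11776 : Tr := .node ⟨nat_lit 4, nat_lit 0x8000c, nat_lit 3, nat_lit 0xb, nat_lit 4, nat_lit 0x46⟩ (.nil) (.nil)
def t14_7680 : Tr := .node ⟨nat_lit 7, nat_lit 0x40002000100010, nat_lit 0x10, nat_lit 0, nat_lit 4, nat_lit 0x46⟩ (.nil) (.nil)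
def t9_0 : Tr := .node ⟨nat_lit 6, nat_lit 0x2000080030, nat_lit 0x131211, nat_lit 0, nat_lit 4, nat_lit 0x49⟩ (.node ⟨nat_lit 4, nat_lit 0xc, nat_lit 0x1111, nat_lit 0, nat_lit 3, nat_lit 0x44⟩ (.node ⟨nat_lit 6, nat_lit 0x2000340034, nat_lit 0x301020, nat_lit 2, nat_lit 4, nat_lit 0x47⟩ (.node ⟨nat_lit 6, nat_lit 0x1000100020, nat_lit 0x102102, nat_lit 0, nat_lit 4, nat_lit 0x48⟩ (.node ⟨nat_lit 5, nat_lit 0x40018, nat_lit 0x22113, nat_lit 3, nat_lit 4, nat_lit 0x49⟩ (t14_0) (t14_8192)) (.node ⟨nat_lit 6, nat_lit 0x20, nat_lit 0x21000, nat_lit 0, nat_lit 3, nat_lit 0x48⟩ (t14_4096) (t14_12288))) (.node ⟨nat_lit 8, nat_lit 0x8000c0, nat_lit 0x2111111, nat_lit 0, nat_lit 4, nat_lit 0x4c⟩ (.node ⟨nat_lit 7, nat_lit 0x400040002000240050, nat_lit 0x1213200, nat_lit 0, nat_lit 4, nat_lit 0x49⟩ (t14_2048) (t14_10240)) (.node ⟨nat_lit 7, nat_lit 0x40004000100060,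 nat_lit 0x122020, nat_lit 0, nat_lit 4, nat_lit 0x49⟩ (t14_6144) (t14_14336)))) (.node ⟨nat_lit 6, nat_lit 0x80030, nat_lit 0x112201, nat_lit 1, nat_lit 4, nat_lit 0x49⟩ (.node ⟨nat_lit 6, nat_lit 0x200030, nat_lit 0x212211, nat_lit 0, nat_lit 4, nat_lit 0x4a⟩ (.node ⟨nat_lit 5, nat_lit 0x18, nat_lit 0x11114, nat_lit 1, nat_lit 4, nat_lit 0x48⟩ (t14_1024) (t14_9216)) (.node ⟨nat_lit 6, nat_lit 0x20, nat_lit 0x122211, nat_lit 3, nat_lit 4, nat_lit 0x4c⟩ (t14_5120) (t14_13312))) (.node ⟨nat_lit 6, nat_lit 0x2000100010, nat_lit 0x11020, nat_lit 2, nat_lit 4, nat_lit 0x48⟩ (.node ⟨nat_lit 7, nat_lit 0x20004000440044, nat_lit 0x2010211, nat_lit 3, nat_lit 4, nat_lit 0x4a⟩ (t14_3072) (t14_11264)) (.node ⟨nat_lit 7, nat_lit 0x10002000500060, nat_lit 0x12022, nat_lit 1, nat_lit 4, nat_lit 0x47⟩ (t14_7168) (t14_15360))))) (.node ⟨nat_lit 6, nat_lit 0x2000240034,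 nat_lit 0x301031, nat_lit 1, nat_lit 4, nat_lit 0x48⟩ (.node ⟨nat_lit 6, nat_lit 0x30, nat_lit 0x212211, nat_lit 0, nat_lit 4, nat_lit 0x4a⟩ (.node ⟨nat_lit 5, nat_lit 0x100010, nat_lit 0x2111, nat_lit 5, nat_lit 4, nat_lit 0x48⟩ (.node ⟨nat_lit 8, nat_lit 0x40002000100080, nat_lit 0x10120111, nat_lit 2, nat_lit 4, nat_lit 0x4b⟩ (t14_512) (t14_8704)) (.node ⟨nat_lit 6, nat_lit 0x2000080030, nat_lit 0x111012, nat_lit 7, nat_lit 4, nat_lit 0x49⟩ (t14_4608) (t14_12800))) (.node ⟨nat_lit 6, nat_lit 0x2000080030, nat_lit 0x1201, nat_lit 0, nat_lit 3, nat_lit 0x45⟩ (.node ⟨nat_lit 7, nat_lit 0x4000600060, nat_lit 0x121031, nat_lit 0, nat_lit 4, nat_lit 0x49⟩ (t14_2560) (t14_10752)) (.node ⟨nat_lit 7, nat_lit 0x4000440060, nat_lit 0x1021102, nat_lit 1, nat_lit 4, nat_lit 0x49⟩ (t14_6656) (t14_14848)))) (.node ⟨nat_lit 4, nat_lit 0x8000c, nat_lit 0x2221,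 nat_lit 2, nat_lit 3, nat_lit 0x46⟩ (.node ⟨nat_lit 8, nat_lit 0x4000200080, nat_lit 0x10221011, nat_lit 0, nat_lit 4, nat_lit 0x4c⟩ (.node ⟨nat_lit 7, nat_lit 0x40002000480060, nat_lit 0x1013111, nat_lit 1, nat_lit 4, nat_lit 0x49⟩ (t14_1536) (t14_9728)) (.node ⟨nat_lit 6, nat_lit 0x2000100030, nat_lit 0x112020, nat_lit 1, nat_lit 3, nat_lit 0x47⟩ (t14_5632) (t14_13824))) (.node ⟨nat_lit 4, nat_lit 0xc, nat_lit 0x2012, nat_lit 0xa, nat_lit 4, nat_lit 0x48⟩ (.node ⟨nat_lit 5, nat_lit 0x18001c, nat_lit 0x11203, nat_lit 3, nat_lit 4, nat_lit 0x47⟩ (t14_3584) (t14_11776)) (.node ⟨nat_lit 8, nat_lit 0x8000800040004800a000e0, nat_lit 0x11112011, nat_lit 0, nat_lit 4, nat_lit 0x48⟩ (t14_7680) (.nil)))))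
def t14_256 : Tr := .node ⟨nat_lit 7, nat_lit 0x2000400060, nat_lit 0x122121, nat_lit 1, nat_lit 4, nat_lit 0x4a⟩ (.nil) (.nil)
def t14_8448 : Tr := .node ⟨nat_lit 7, nat_lit 0x40001000600050, nat_lit 0x1201, nat_lit 0, nat_lit 4, nat_lit 0x46⟩ (.nil) (.nil)
def t14_4352 : Tr := .node ⟨nat_lit 8, nat_lit 0x800020009000a000d0, nat_lit 0x11100021, nat_lit 1, nat_lit 4, nat_lit 0x48⟩ (.nil) (.nil)
def t14_12544 : Tr := .node ⟨nat_lit 8, nat_lit 0x8000400090006000e0, nat_lit 0x10012003, nat_lit 1, nat_lit 4, nat_lit 0x47⟩ (.nil) (.nil)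
def t14_2304 : Tr := .node ⟨nat_lit 7, nat_lit 0x4000100060, nat_lit 0x111301, nat_lit 0, nat_lit 4, nat_lit 0x49⟩ (.nil) (.nil)
def t14_10496 : Tr := .node ⟨nat_lit 8, nat_lit 0x80004000a000c000c8, nat_lit 0x1011220, nat_lit 0, nat_lit 4, nat_lit 0x47⟩ (.nil) (.nil)
def t14_6400 : Tr := .node ⟨nat_lit 6, nat_lit 0x20001000380034, nat_lit 0x11120, nat_lit 3, nat_lit 4, nat_lit 0x45⟩ (.nil) (.nil)
def t14_14592 : Tr := .node ⟨nat_lit 0xb, nat_lit 0x200040004000100008004100420, nat_lit 0x110011, nat_lit 2, nat_lit 4, nat_lit 0x4a⟩ (.nil) (.nil)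
def t14_1280 : Tr := .node ⟨nat_lit 8, nat_lit 0x800080004000400020, nat_lit 0x110221, nat_lit 0, nat_lit 4, nat_lit 0x49⟩ (.nil) (.nil)
def t14_9472 : Tr := .node ⟨nat_lit 8, nat_lit 0x8000400040005000a000c0, nat_lit 0x10112003, nat_lit 1, nat_lit 4, nat_lit 0x48⟩ (.nil) (.nil)
def t14_5376 : Tr := .node ⟨nat_lit 8, nat_lit 0x80008400c0, nat_lit 0x11111200, nat_lit 0, nat_lit 4, nat_lit 0x4b⟩ (.nil) (.nil)
def t14_13568 : Tr := .node ⟨nat_lit 8, nat_lit 0x800080004000a800d0, nat_lit 0x1020, nat_lit 1, nat_lit 4, nat_lit 0x46⟩ (.nil) (.nil)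
def t14_3328 : Tr := .node ⟨nat_lit 7, nat_lit 0x200020004000440060, nat_lit 0x20201, nat_lit 3, nat_lit 4, nat_lit 0x47⟩ (.nil) (.nil)
def t14_11520 : Tr := .node ⟨nat_lit 8, nat_lit 0x2000400080008000c4, nat_lit 0x10001020, nat_lit 1, nat_lit 4, nat_lit 0x48⟩ (.nil) (.nil)
def t14_7424 : Tr := .node ⟨nat_lit 8, nat_lit 0x8000800040004000a000a0, nat_lit 0x1111111, nat_lit 1, nat_lit 4, nat_lit 0x48⟩ (.nil) (.nil)
def t14_768 : Tr := .node ⟨nat_lit 6, nat_lit 0x800280030, nat_lit 0x1003, nat_lit 1, nat_lit 4, nat_lit 0x45⟩ (.nil) (.nil)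
def t14_8960 : Tr := .node ⟨nat_lit 8, nat_lit 0x8000800040009000c0, nat_lit 0x200003, nat_lit 1, nat_lit 4, nat_lit 0x48⟩ (.nil) (.nil)
def t14_4864 : Tr := .node ⟨nat_lit 8, nat_lit 0x8000800040004000a000c8, nat_lit 0x1202100, nat_lit 1, nat_lit 4, nat_lit 0x48⟩ (.nil) (.nil)
def t14_13056 : Tr := .node ⟨nat_lit 7, nat_lit 0x10001800180060, nat_lit 0x1002002, nat_lit 1, nat_lit 4, nat_lit 0x47⟩ (.nil) (.nil)
def t14_2816 : Tr := .node ⟨nat_lit 7, nat_lit 0x2000500060, nat_lit 0x102003, nat_lit 0, nat_lit 4, nat_lit 0x48⟩ (.nil) (.nil)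
def t14_11008 : Tr := .node ⟨nat_lit 5, nat_lit 0x1000100018, nat_lit 0x210, nat_lit 0xd, nat_lit 4, nat_lit 0x48⟩ (.nil) (.nil)
def t14_6912 : Tr := .node ⟨nat_lit 4, nat_lit 0, nat_lit 0x2111, nat_lit 9, nat_lit 3, nat_lit 0x48⟩ (.nil) (.nil)
def t14_15104 : Tr := .node ⟨nat_lit 8, nat_lit 0x4000800060009000e000d0, nat_lit 0x11121001, nat_lit 0, nat_lit 4, nat_lit 0x47⟩ (.nil) (.nil)
def t14_1792 : Tr := .node ⟨nat_lit 7, nat_lit 0x1000500060, nat_lit 0x201022, nat_lit 0, nat_lit 4, nat_lit 0x48⟩ (.nil) (.nil)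
def t14_9984 : Tr := .node ⟨nat_lit 6, nat_lit 0x800200030, nat_lit 0x10030, nat_lit 2, nat_lit 4, nat_lit 0x47⟩ (.nil) (.nil)
def t14_5888 : Tr := .node ⟨nat_lit 8, nat_lit 0x80004000c0, nat_lit 0x111012, nat_lit 1, nat_lit 4, nat_lit 0x4a⟩ (.nil) (.nil)
def t14_14080 : Tr := .node ⟨nat_lit 6, nat_lit 0x10001000200020, nat_lit 0x31, nat_lit 7, nat_lit 4, nat_lit 0x48⟩ (.nil) (.nil)
def t14_3840 : Tr := .node ⟨nat_lit 6, nat_lit 0x10001000200030, nat_lit 0x102021, nat_lit 6, nat_lit 4, nat_lit 0x48⟩ (.nil) (.nil)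
def t14_12032 : Tr := .node ⟨nat_lit 5, nat_lit 0x1000140018, nat_lit 0x1201, nat_lit 5, nat_lit 4, nat_lit 0x46⟩ (.nil) (.nil)
def t14_7936 : Tr := .node ⟨nat_lit 7, nat_lit 0x200040004000300048, nat_lit 0x20120, nat_lit 1, nat_lit 4, nat_lit 0x46⟩ (.nil) (.nil)
def t9_256 : Tr := .node ⟨nat_lit 3, nat_lit 4, nat_lit 0x321, nat_lit 5, nat_lit 4, nat_lit 0x47⟩ (.node ⟨nat_lit 3, nat_lit 6, nat_lit 0x112, nat_lit 6, nat_lit 3, nat_lit 0x44⟩ (.node ⟨nat_lit 9, nat_lit 0x10000800040, nat_lit 0x1311001, nat_lit 0, nat_lit 4, nat_lit 0x4d⟩ (.node ⟨nat_lit 6, nat_lit 0x1000200032, nat_lit 0x112013, nat_lit 0, nat_lit 4, nat_lit 0x47⟩ (.node ⟨nat_lit 3, nat_lit 0x40004, nat_lit 0x222, nat_lit 0xb, nat_lit 4, nat_lit 0x48⟩ (t14_256) (t14_8448)) (.node ⟨nat_lit 6, nat_lit 0x800300038, nat_lit 0x1043, nat_lit 0, nat_lit 4, nat_lit 0x45⟩ (t14_4352) (t14_12544)))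 (.node ⟨nat_lit 6, nat_lit 0x300030, nat_lit 0x202021, nat_lit 0, nat_lit 4, nat_lit 0x48⟩ (.node ⟨nat_lit 7, nat_lit 0x40002000600064, nat_lit 0x112230, nat_lit 1, nat_lit 4, nat_lit 0x48⟩ (t14_2304) (t14_10496)) (.node ⟨nat_lit 7, nat_lit 0x1000500060, nat_lit 0x1112102, nat_lit 0, nat_lit 4, nat_lit 0x49⟩ (t14_6400) (t14_14592)))) (.node ⟨nat_lit 6, nat_lit 0x800080030, nat_lit 0x210101, nat_lit 1, nat_lit 4, nat_lit 0x47⟩ (.node ⟨nat_lit 4, nat_lit 0x40008, nat_lit 0x2211, nat_lit 0xb, nat_lit 4, nat_lit 0x49⟩ (.node ⟨nat_lit 5, nat_lit 0x800100010, nat_lit 0x11310, nat_lit 5, nat_lit 4, nat_lit 0x48⟩ (t14_1280) (t14_9472)) (.node ⟨nat_lit 6, nat_lit 0x2000100008, nat_lit 0x11022, nat_lit 2, nat_lit 4, nat_lit 0x48⟩ (t14_5376) (t14_13568))) (.node ⟨nat_lit 6, nat_lit 0x2000200010, nat_lit 0x211200, nat_lit 0, nat_lit 3, nat_lit 0x48⟩ (.node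 ⟨nat_lit 6, nat_lit 0x300038, nat_lit 0x110213, nat_lit 2, nat_lit 4, nat_lit 0x48⟩ (t14_3328) (t14_11520)) (.node ⟨nat_lit 8, nat_lit 0x800010008800e0, nat_lit 0x11100003, nat_lit 0, nat_lit 4, nat_lit 0x48⟩ (t14_7424) (.nil))))) (.node ⟨nat_lit 5, nat_lit 0x800100012, nat_lit 0x31211, nat_lit 2, nat_lit 4, nat_lit 0x48⟩ (.node ⟨nat_lit 6, nat_lit 0x2000080030, nat_lit 0x112022, nat_lit 0, nat_lit 4, nat_lit 0x48⟩ (.node ⟨nat_lit 3, nat_lit 4, nat_lit 0x111, nat_lit 0x11, nat_lit 4, nat_lit 0x48⟩ (.node ⟨nat_lit 6, nat_lit 0x1000200034, nat_lit 0x113110, nat_lit 1, nat_lit 4, nat_lit 0x48⟩ (t14_768) (t14_8960)) (.node ⟨nat_lit 8, nat_lit 0x800080004000a000d0, nat_lit 0x1021002, nat_lit 1, nat_lit 4, nat_lit 0x48⟩ (t14_4864) (t14_13056))) (.node ⟨nat_lit 6, nat_lit 0x2000080030, nat_lit 0x111302, nat_lit 0, nat_lit 4, nat_lit 0x48⟩ (.node ⟨nat_lit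 6, nat_lit 0x800080030, nat_lit 0x201003, nat_lit 1, nat_lit 4, nat_lit 0x47⟩ (t14_2816) (t14_11008)) (.node ⟨nat_lit 7, nat_lit 0x20006000300050, nat_lit 0x1001122, nat_lit 0, nat_lit 4, nat_lit 0x46⟩ (t14_6912) (t14_15104)))) (.node ⟨nat_lit 5, nat_lit 0x18, nat_lit 0x10112, nat_lit 1, nat_lit 4, nat_lit 0x46⟩ (.node ⟨nat_lit 7, nat_lit 0x400060, nat_lit 0x1011121, nat_lit 0, nat_lit 4, nat_lit 0x4a⟩ (.node ⟨nat_lit 6, nat_lit 0x280030, nat_lit 0x1110, nat_lit 1, nat_lit 4, nat_lit 0x46⟩ (t14_1792) (t14_9984)) (.node ⟨nat_lit 6, nat_lit 0x20001000100028, nat_lit 0x212210, nat_lit 3, nat_lit 4, nat_lit 0x49⟩ (t14_5888) (t14_14080))) (.node ⟨nat_lit 7, nat_lit 0x10001800500060, nat_lit 0x121122, nat_lit 1, nat_lit 4, nat_lit 0x48⟩ (.node ⟨nat_lit 7, nat_lit 0x6000500018, nat_lit 0x1010040, nat_lit 1, nat_lit 4, nat_lit 0x48⟩ (t14_3840) (t14_12032))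 (.node ⟨nat_lit 6, nat_lit 0x1000100020, nat_lit 0x101002, nat_lit 3, nat_lit 4, nat_lit 0x48⟩ (t14_7936) (.nil)))))
def t14_128 : Tr := .node ⟨nat_lit 7, nat_lit 0x2000400060, nat_lit 0x1031111, nat_lit 1, nat_lit 4, nat_lit 0x4a⟩ (.nil) (.nil)
def t14_8320 : Tr := .node ⟨nat_lit 6, nat_lit 0x800200032, nat_lit 0x10033, nat_lit 3, nat_lit 4, nat_lit 0x47⟩ (.nil) (.nil)
def t14_4224 : Tr := .node ⟨nat_lit 7, nat_lit 0x1000600060, nat_lit 0x22011, nat_lit 1, nat_lit 4, nat_lit 0x48⟩ (.nil) (.nil)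
def t14_12416 : Tr := .node ⟨nat_lit 8, nat_lit 0x80002000d000d000e0, nat_lit 0x10100103, nat_lit 1, nat_lit 4, nat_lit 0x46⟩ (.nil) (.nil)
def t14_2176 : Tr := .node ⟨nat_lit 8, nat_lit 0x800080004000200090, nat_lit 0x1121002, nat_lit 0, nat_lit 4, nat_lit 0x49⟩ (.nil) (.nil)
def t14_10368 : Tr := .node ⟨nat_lit 7, nat_lit 0x40001000100060, nat_lit 0x2100102, nat_lit 0, nat_lit 3, nat_lit 0x47⟩ (.nil) (.nil)
def t14_6272 : Tr := .node ⟨nat_lit 5, nat_lit 0x100008, nat_lit 0x1101, nat_lit 0xb, nat_lit 4, nat_lit 0x49⟩ (.nil) (.nil)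
def t14_14464 : Tr := .node ⟨nat_lit 6, nat_lit 0x2000300034, nat_lit 0x102020, nat_lit 4, nat_lit 4, nat_lit 0x47⟩ (.nil) (.nil)
def t14_1152 : Tr := .node ⟨nat_lit 7, nat_lit 0x40004800300030, nat_lit 0x1002011, nat_lit 0, nat_lit 4, nat_lit 0x46⟩ (.nil) (.nil)
def t14_9344 : Tr := .node ⟨nat_lit 0xa, nat_lit 0x20002000200020802100220, nat_lit 0x111110010, nat_lit 1, nat_lit 4, nat_lit 0x4b⟩ (.nil) (.nil)
def t14_5248 : Tr := .node ⟨nat_lit 7, nat_lit 0x4000600060, nat_lit 0x111310, nat_lit 0, nat_lit 4, nat_lit 0x49⟩ (.nil) (.nil)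
def t14_13440 : Tr := .node ⟨nat_lit 7, nat_lit 0x40001000100060, nat_lit 0x3100, nat_lit 4, nat_lit 4, nat_lit 0x48⟩ (.nil) (.nil)
def t14_3200 : Tr := .node ⟨nat_lit 6, nat_lit 0x2000100030, nat_lit 0x111021, nat_lit 2, nat_lit 3, nat_lit 0x47⟩ (.nil) (.nil)
def t14_11392 : Tr := .node ⟨nat_lit 9, nat_lit 0x8001000100010801900190, nat_lit 0x1101120, nat_lit 0, nat_lit 4, nat_lit 0x47⟩ (.nil) (.nil)
def t14_7296 : Tr := .node ⟨nat_lit 8, nat_lit 0xa000c000c00030, nat_lit 0x21201, nat_lit 0, nat_lit 4, nat_lit 0x47⟩ (.nil) (.nil)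
def t14_15488 : Tr := .node ⟨nat_lit 8, nat_lit 0x8000200090009000d0, nat_lit 0x11000101, nat_lit 0, nat_lit 4, nat_lit 0x47⟩ (.nil) (.nil)
def t14_640 : Tr := .node ⟨nat_lit 6, nat_lit 0x20002000200010, nat_lit 0x13201, nat_lit 5, nat_lit 4, nat_lit 0x49⟩ (.nil) (.nil)
def t14_8832 : Tr := .node ⟨nat_lit 7, nat_lit 0x40004000100068, nat_lit 0x112013, nat_lit 2, nat_lit 4, nat_lit 0x48⟩ (.nil) (.nil)
def t14_4736 : Tr := .node ⟨nat_lit 6, nat_lit 0x1000080020, nat_lit 0x111200, nat_lit 5, nat_lit 4, nat_lit 0x49⟩ (.nil) (.nil)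
def t14_12928 : Tr := .node ⟨nat_lit 7, nat_lit 0x40002000600064, nat_lit 0x11201, nat_lit 2, nat_lit 4, nat_lit 0x47⟩ (.nil) (.nil)
def t14_2688 : Tr := .node ⟨nat_lit 7, nat_lit 0x5000500060, nat_lit 0x101103, nat_lit 0, nat_lit 4, nat_lit 0x47⟩ (.nil) (.nil)
def t14_10880 : Tr := .node ⟨nat_lit 7, nat_lit 0x400020002000500068, nat_lit 0x12100, nat_lit 2, nat_lit 4, nat_lit 0x46⟩ (.nil) (.nil)
def t14_6784 : Tr := .node ⟨nat_lit 8, nat_lit 0x80002000c0, nat_lit 0x111010, nat_lit 1, nat_lit 4, nat_lit 0x4a⟩ (.nil) (.nil)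
def t14_14976 : Tr := .node ⟨nat_lit 9, nat_lit 0x100010001000080012001400160, nat_lit 0x10111101, nat_lit 1, nat_lit 4, nat_lit 0x48⟩ (.nil) (.nil)
def t14_1664 : Tr := .node ⟨nat_lit 6, nat_lit 0x800280030, nat_lit 0x110220, nat_lit 2, nat_lit 4, nat_lit 0x47⟩ (.nil) (.nil)
def t14_9856 : Tr := .node ⟨nat_lit 8, nat_lit 0x800080008000880090, nat_lit 0x1111010, nat_lit 6, nat_lit 4, nat_lit 0x4a⟩ (.nil) (.nil)
def t14_5760 : Tr := .node ⟨nat_lit 8, nat_lit 0x8000400040, nat_lit 0x1211020, nat_lit 0, nat_lit 3, nat_lit 0x4a⟩ (.nil) (.nil)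
def t14_13952 : Tr := .node ⟨nat_lit 7, nat_lit 0x4000600018, nat_lit 0x10012, nat_lit 2, nat_lit 4, nat_lit 0x47⟩ (.nil) (.nil)
def t14_3712 : Tr := .node ⟨nat_lit 8, nat_lit 0x800040009000d000c8, nat_lit 0x11112010, nat_lit 0, nat_lit 4, nat_lit 0x48⟩ (.nil) (.nil)
def t14_11904 : Tr := .node ⟨nat_lit 6, nat_lit 0x10001000200020, nat_lit 0x3131, nat_lit 0, nat_lit 4, nat_lit 0x47⟩ (.nil) (.nil)
def t14_7808 : Tr := .node ⟨nat_lit 3, nat_lit 0x40006, nat_lit 0x23, nat_lit 0xd, nat_lit 4, nat_lit 0x46⟩ (.nil) (.nil)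
def t9_128 : Tr := .node ⟨nat_lit 4, nat_lit 0xc, nat_lit 0x3111, nat_lit 3, nat_lit 4, nat_lit 0x47⟩ (.node ⟨nat_lit 7, nat_lit 0x40002000480064, nat_lit 0x1311102, nat_lit 0, nat_lit 4, nat_lit 0x49⟩ (.node ⟨nat_lit 6, nat_lit 0x2000100010, nat_lit 0x3022, nat_lit 2, nat_lit 4, nat_lit 0x49⟩ (.node ⟨nat_lit 6, nat_lit 0x1000200030, nat_lit 0x12011, nat_lit 1, nat_lit 4, nat_lit 0x47⟩ (.node ⟨nat_lit 7, nat_lit 0x40004000200062, nat_lit 0x212120, nat_lit 1, nat_lit 4, nat_lit 0x49⟩ (t14_128) (t14_8320)) (.node ⟨nat_lit 6, nat_lit 0x1000280034, nat_lit 0x110020, nat_lit 0, nat_lit 4, nat_lit 0x45⟩ (t14_4224) (t14_12416))) (.node ⟨nat_lit 6, nat_lit 0x2000080030, nat_lit 0x121112, nat_lit 4, nat_lit 4, nat_lit 0x49⟩ (.node ⟨nat_lit 5, nat_lit 0x40018, nat_lit 0x21, nat_lit 1, nat_lit 4, nat_lit 0x44⟩ (t14_2176) (t14_10368)) (.node ⟨nat_lit 8, nat_lit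 0x8000800084, nat_lit 0x12111110, nat_lit 1, nat_lit 4, nat_lit 0x4c⟩ (t14_6272) (t14_14464)))) (.node ⟨nat_lit 6, nat_lit 0x200022, nat_lit 0x22210, nat_lit 0, nat_lit 4, nat_lit 0x49⟩ (.node ⟨nat_lit 6, nat_lit 0x80030, nat_lit 0x220101, nat_lit 1, nat_lit 4, nat_lit 0x49⟩ (.node ⟨nat_lit 2, nat_lit 0, nat_lit 0x52, nat_lit 4, nat_lit 3, nat_lit 0x47⟩ (t14_1152) (t14_9344)) (.node ⟨nat_lit 3, nat_lit 6, nat_lit 0x212, nat_lit 0xb, nat_lit 4, nat_lit 0x47⟩ (t14_5248) (t14_13440))) (.node ⟨nat_lit 6, nat_lit 0x2000080034, nat_lit 0x210000, nat_lit 0, nat_lit 4, nat_lit 0x46⟩ (.node ⟨nat_lit 7, nat_lit 0x20005000500068, nat_lit 0x211301, nat_lit 0, nat_lit 4, nat_lit 0x47⟩ (t14_3200) (t14_11392)) (.node ⟨nat_lit 5, nat_lit 0x1000080014, nat_lit 0x1110, nat_lit 3, nat_lit 4, nat_lit 0x45⟩ (t14_7296) (t14_15488))))) (.node ⟨nat_lit 7, nat_lit 0x40001000100068,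 nat_lit 0x3002102, nat_lit 0, nat_lit 4, nat_lit 0x49⟩ (.node ⟨nat_lit 5, nat_lit 0x40018, nat_lit 0x11231, nat_lit 1, nat_lit 4, nat_lit 0x48⟩ (.node ⟨nat_lit 5, nat_lit 0x18, nat_lit 0x10214, nat_lit 0, nat_lit 4, nat_lit 0x47⟩ (.node ⟨nat_lit 6, nat_lit 0x2000080030, nat_lit 0x211021, nat_lit 0, nat_lit 4, nat_lit 0x48⟩ (t14_640) (t14_8832)) (.node ⟨nat_lit 4, nat_lit 0xc000c, nat_lit 0x2120, nat_lit 3, nat_lit 3, nat_lit 0x45⟩ (t14_4736) (t14_12928))) (.node ⟨nat_lit 7, nat_lit 0x40002000500068, nat_lit 0x1001021, nat_lit 0, nat_lit 4, nat_lit 0x46⟩ (.node ⟨nat_lit 6, nat_lit 0x2000080030, nat_lit 0x102131, nat_lit 3, nat_lit 4, nat_lit 0x49⟩ (t14_2688) (t14_10880)) (.node ⟨nat_lit 5, nat_lit 0x100010001c, nat_lit 0x1122, nat_lit 4, nat_lit 4, nat_lit 0x46⟩ (t14_6784) (t14_14976)))) (.node ⟨nat_lit 7, nat_lit 0x200040004000480030, nat_lit 0x1211110,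 nat_lit 0, nat_lit 4, nat_lit 0x48⟩ (.node ⟨nat_lit 5, nat_lit 0x140018, nat_lit 0x21112, nat_lit 2, nat_lit 4, nat_lit 0x47⟩ (.node ⟨nat_lit 6, nat_lit 0x20001000100028, nat_lit 0x100111, nat_lit 0, nat_lit 4, nat_lit 0x45⟩ (t14_1664) (t14_9856)) (.node ⟨nat_lit 8, nat_lit 0x8000400040002000c0, nat_lit 0x200022, nat_lit 1, nat_lit 4, nat_lit 0x49⟩ (t14_5760) (t14_13952))) (.node ⟨nat_lit 6, nat_lit 0x800280030, nat_lit 0x210022, nat_lit 0, nat_lit 4, nat_lit 0x47⟩ (.node ⟨nat_lit 7, nat_lit 0x1000500060, nat_lit 0x101001, nat_lit 0, nat_lit 4, nat_lit 0x47⟩ (t14_3712) (t14_11904)) (.node ⟨nat_lit 6, nat_lit 0x300030, nat_lit 0x201121, nat_lit 1, nat_lit 4, nat_lit 0x48⟩ (t14_7808) (.nil)))))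
def t14_384 : Tr := .node ⟨nat_lit 8, nat_lit 0x800080008000400040, nat_lit 0x1121011, nat_lit 1, nat_lit 4, nat_lit 0x4a⟩ (.nil) (.nil)
def t14_8576 : Tr := .node ⟨nat_lit 7, nat_lit 0x400040002000500070, nat_lit 0x10012, nat_lit 3, nat_lit 4, nat_lit 0x46⟩ (.nil) (.nil)
def t14_4480 : Tr := .node ⟨nat_lit 8, nat_lit 0x800040002000c0, nat_lit 0x10112001, nat_lit 2, nat_lit 4, nat_lit 0x4a⟩ (.nil) (.nil)
def t14_12672 : Tr := .node ⟨nat_lit 8, nat_lit 0x80002000200040, nat_lit 0x1010310, nat_lit 0, nat_lit 4, nat_lit 0x4a⟩ (.nil) (.nil)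
def t14_2432 : Tr := .node ⟨nat_lit 8, nat_lit 0x2000400080008000c0, nat_lit 0x1002210, nat_lit 1, nat_lit 4, nat_lit 0x49⟩ (.nil) (.nil)
def t14_10624 : Tr := .node ⟨nat_lit 6, nat_lit 0x2000080030, nat_lit 0x10, nat_lit 2, nat_lit 4, nat_lit 0x45⟩ (.nil) (.nil)
def t14_6528 : Tr := .node ⟨nat_lit 7, nat_lit 0x40004800580068, nat_lit 0x1110111, nat_lit 1, nat_lit 4, nat_lit 0x46⟩ (.nil) (.nil)
def t14_14720 : Tr := .node ⟨nat_lit 6, nat_lit 0x2000080030, nat_lit 0x1111, nat_lit 4, nat_lit 4, nat_lit 0x47⟩ (.nil) (.nil)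
def t14_1408 : Tr := .node ⟨nat_lit 7, nat_lit 0x10001000400060, nat_lit 0x111031, nat_lit 0, nat_lit 4, nat_lit 0x48⟩ (.nil) (.nil)
def t14_9600 : Tr := .node ⟨nat_lit 7, nat_lit 0x400020005000600070, nat_lit 0x12030, nat_lit 3, nat_lit 4, nat_lit 0x46⟩ (.nil) (.nil)
def t14_5504 : Tr := .node ⟨nat_lit 4, nat_lit 8, nat_lit 0x114, nat_lit 6, nat_lit 4, nat_lit 0x48⟩ (.nil) (.nil)
def t14_13696 : Tr := .node ⟨nat_lit 6, nat_lit 0x800200032, nat_lit 0x12120, nat_lit 0, nat_lit 4, nat_lit 0x47⟩ (.nil) (.nil)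
def t14_3456 : Tr := .node ⟨nat_lit 8, nat_lit 0x8000c0003000a0, nat_lit 0x2021, nat_lit 1, nat_lit 4, nat_lit 0x47⟩ (.nil) (.nil)
def t14_11648 : Tr := .node ⟨nat_lit 8, nat_lit 0x8000900060006000e0, nat_lit 0x11103, nat_lit 0, nat_lit 4, nat_lit 0x45⟩ (.nil) (.nil)
def t14_7552 : Tr := .node ⟨nat_lit 4, nat_lit 0x80008, nat_lit 0x243, nat_lit 2, nat_lit 3, nat_lit 0x46⟩ (.nil) (.nil)
def t14_896 : Tr := .node ⟨nat_lit 7, nat_lit 0x400040004000200020, nat_lit 0x21022, nat_lit 0, nat_lit 4, nat_lit 0x48⟩ (.nil) (.nil)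
def t14_9088 : Tr := .node ⟨nat_lit 9, nat_lit 0x100010000800080008001400190, nat_lit 0x1211011, nat_lit 0, nat_lit 4, nat_lit 0x48⟩ (.nil) (.nil)
def t14_4992 : Tr := .node ⟨nat_lit 7, nat_lit 0x40004800300068, nat_lit 0x1011010, nat_lit 0, nat_lit 4, nat_lit 0x46⟩ (.nil) (.nil)
def t14_13184 : Tr := .node ⟨nat_lit 7, nat_lit 0x4000600018, nat_lit 0x103, nat_lit 0, nat_lit 4, nat_lit 0x46⟩ (.nil) (.nil)
def t14_2944 : Tr := .node ⟨nat_lit 6, nat_lit 0x2000100024, nat_lit 0x121102, nat_lit 0, nat_lit 4, nat_lit 0x48⟩ (.nil) (.nil)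
def t14_11136 : Tr := .node ⟨nat_lit 6, nat_lit 0x800300030, nat_lit 0x100040, nat_lit 3, nat_lit 4, nat_lit 0x47⟩ (.nil) (.nil)
def t14_7040 : Tr := .node ⟨nat_lit 7, nat_lit 0x40006000500068, nat_lit 0x1101211, nat_lit 1, nat_lit 4, nat_lit 0x47⟩ (.nil) (.nil)
def t14_15232 : Tr := .node ⟨nat_lit 6, nat_lit 0x800280030, nat_lit 0x111112, nat_lit 4, nat_lit 4, nat_lit 0x48⟩ (.nil) (.nil)
def t14_1920 : Tr := .node ⟨nat_lit 8, nat_lit 0xc000a00090, nat_lit 0x21112, nat_lit 0, nat_lit 4, nat_lit 0x49⟩ (.nil) (.nil)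
def t14_10112 : Tr := .node ⟨nat_lit 8, nat_lit 0x400040008000c000e000e0, nat_lit 0x2220, nat_lit 2, nat_lit 4, nat_lit 0x46⟩ (.nil) (.nil)
def t14_6016 : Tr := .node ⟨nat_lit 6, nat_lit 0x200032, nat_lit 0x321110, nat_lit 0, nat_lit 4, nat_lit 0x4a⟩ (.nil) (.nil)
def t14_14208 : Tr := .node ⟨nat_lit 6, nat_lit 0x3000300028, nat_lit 0x1102, nat_lit 5, nat_lit 4, nat_lit 0x46⟩ (.nil) (.nil)
def t14_3968 : Tr := .node ⟨nat_lit 6, nat_lit 0x2000240018, nat_lit 0x110110, nat_lit 0, nat_lit 4, nat_lit 0x46⟩ (.nil) (.nil)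
def t14_12160 : Tr := .node ⟨nat_lit 8, nat_lit 0x80004000a000c800d0, nat_lit 0x1120011, nat_lit 1, nat_lit 4, nat_lit 0x47⟩ (.nil) (.nil)
def t14_8064 : Tr := .node ⟨nat_lit 6, nat_lit 0x1000200020, nat_lit 0x110, nat_lit 1, nat_lit 4, nat_lit 0x46⟩ (.nil) (.nil)
def t9_384 : Tr := .node ⟨nat_lit 5, nat_lit 0x800100010, nat_lit 0x13210, nat_lit 0, nat_lit 3, nat_lit 0x47⟩ (.node ⟨nat_lit 6, nat_lit 0x2000080030, nat_lit 0x131112, nat_lit 0, nat_lit 4, nat_lit 0x49⟩ (.node ⟨nat_lit 4, nat_lit 0x40008, nat_lit 0x2221, nat_lit 5, nat_lit 4, nat_lit 0x48⟩ (.node ⟨nat_lit 6, nat_lit 0x800200030, nat_lit 0x110022, nat_lit 0, nat_lit 4, nat_lit 0x47⟩ (.node ⟨nat_lit 6, nat_lit 0x2000280030, nat_lit 0x11102, nat_lit 1, nat_lit 3, nat_lit 0x45⟩ (t14_384) (t14_8576)) (.node ⟨nat_lit 9, nat_lit 0x10001000040004000800120, nat_lit 0x110201011, nat_lit 0, nat_lit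 4, nat_lit 0x4a⟩ (t14_4480) (t14_12672))) (.node ⟨nat_lit 3, nat_lit 4, nat_lit 0x232, nat_lit 6, nat_lit 4, nat_lit 0x48⟩ (.node ⟨nat_lit 6, nat_lit 0x800300028, nat_lit 0x101214, nat_lit 2, nat_lit 4, nat_lit 0x48⟩ (t14_2432) (t14_10624)) (.node ⟨nat_lit 6, nat_lit 0x80030, nat_lit 0x212, nat_lit 1, nat_lit 4, nat_lit 0x47⟩ (t14_6528) (t14_14720)))) (.node ⟨nat_lit 6, nat_lit 0x2000080030, nat_lit 0x21002, nat_lit 1, nat_lit 4, nat_lit 0x47⟩ (.node ⟨nat_lit 5, nat_lit 0x10, nat_lit 0x22211, nat_lit 6, nat_lit 4, nat_lit 0x4b⟩ (.node ⟨nat_lit 6, nat_lit 0x2000080030, nat_lit 0x11104, nat_lit 0, nat_lit 4, nat_lit 0x47⟩ (t14_1408) (t14_9600)) (.node ⟨nat_lit 7, nat_lit 0x40001000100060, nat_lit 0x1002311, nat_lit 0, nat_lit 4, nat_lit 0x48⟩ (t14_5504) (t14_13696))) (.node ⟨nat_lit 5, nat_lit 0x800100010, nat_lit 0x1121, nat_lit 6, nat_lit 4, nat_lit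 0x47⟩ (.node ⟨nat_lit 6, nat_lit 0x300030, nat_lit 0x2100, nat_lit 1, nat_lit 4, nat_lit 0x47⟩ (t14_3456) (t14_11648)) (.node ⟨nat_lit 7, nat_lit 0x40002000480068, nat_lit 0x1111112, nat_lit 2, nat_lit 4, nat_lit 0x48⟩ (t14_7552) (.nil))))) (.node ⟨nat_lit 6, nat_lit 0x30, nat_lit 0x213111, nat_lit 0, nat_lit 4, nat_lit 0x4b⟩ (.node ⟨nat_lit 7, nat_lit 0x1000100060, nat_lit 0x2002101, nat_lit 1, nat_lit 4, nat_lit 0x49⟩ (.node ⟨nat_lit 5, nat_lit 0x40018, nat_lit 0x11112, nat_lit 3, nat_lit 4, nat_lit 0x47⟩ (.node ⟨nat_lit 6, nat_lit 0x200030, nat_lit 0x113201, nat_lit 1, nat_lit 4, nat_lit 0x4a⟩ (t14_896) (t14_9088)) (.node ⟨nat_lit 8, nat_lit 0x800080, nat_lit 0x11111120, nat_lit 0, nat_lit 4, nat_lit 0x4d⟩ (t14_4992) (t14_13184))) (.node ⟨nat_lit 5, nat_lit 0x1000080018, nat_lit 0x1021, nat_lit 4, nat_lit 4, nat_lit 0x46⟩ (.node ⟨nat_lit 7,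 nat_lit 0x2000400040, nat_lit 0x1111211, nat_lit 0, nat_lit 4, nat_lit 0x4a⟩ (t14_2944) (t14_11136)) (.node ⟨nat_lit 5, nat_lit 0x100018001c, nat_lit 0x11122, nat_lit 8, nat_lit 4, nat_lit 0x47⟩ (t14_7040) (t14_15232)))) (.node ⟨nat_lit 5, nat_lit 0x800100010, nat_lit 0x1222, nat_lit 0, nat_lit 3, nat_lit 0x45⟩ (.node ⟨nat_lit 6, nat_lit 0x200030, nat_lit 0x32111, nat_lit 2, nat_lit 4, nat_lit 0x4a⟩ (.node ⟨nat_lit 6, nat_lit 0x800280030, nat_lit 0x11112, nat_lit 0, nat_lit 4, nat_lit 0x46⟩ (t14_1920) (t14_10112)) (.node ⟨nat_lit 7, nat_lit 0x400020002000500050, nat_lit 0x1102020, nat_lit 1, nat_lit 4, nat_lit 0x47⟩ (t14_6016) (t14_14208))) (.node ⟨nat_lit 5, nat_lit 0x1000100010, nat_lit 0x1221, nat_lit 4, nat_lit 4, nat_lit 0x48⟩ (.node ⟨nat_lit 6, nat_lit 0x2000080030, nat_lit 0x111020, nat_lit 0, nat_lit 4, nat_lit 0x47⟩ (t14_3968) (t14_12160))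 (.node ⟨nat_lit 7, nat_lit 0x40001000100060, nat_lit 0x1011211, nat_lit 3, nat_lit 4, nat_lit 0x49⟩ (t14_8064) (.nil)))))
def t14_64 : Tr := .node ⟨nat_lit 7, nat_lit 0x2000500060, nat_lit 0x1022012, nat_lit 0, nat_lit 4, nat_lit 0x49⟩ (.nil) (.nil)
def t14_8256 : Tr := .node ⟨nat_lit 7, nat_lit 0x20002000500060, nat_lit 0x10002, nat_lit 0, nat_lit 4, nat_lit 0x46⟩ (.nil) (.nil)
def t14_4160 : Tr := .node ⟨nat_lit 9, nat_lit 0x10001000100008001200120, nat_lit 0x11111011, nat_lit 0, nat_lit 4, nat_lit 0x4a⟩ (.nil) (.nil)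
def t14_12352 : Tr := .node ⟨nat_lit 8, nat_lit 0x800040002000c000e0, nat_lit 0x111003, nat_lit 1, nat_lit 4, nat_lit 0x47⟩ (.nil) (.nil)
def t14_2112 : Tr := .node ⟨nat_lit 4, nat_lit 0x8000c, nat_lit 0x132, nat_lit 6, nat_lit 4, nat_lit 0x46⟩ (.nil) (.nil)
def t14_10304 : Tr := .node ⟨nat_lit 8, nat_lit 0x800080002000d000b0, nat_lit 0x10001022, nat_lit 1, nat_lit 4, nat_lit 0x47⟩ (.nil) (.nil)
def t14_6208 : Tr := .node ⟨nat_lit 5, nat_lit 0x18, nat_lit 0x10111, nat_lit 6, nat_lit 4, nat_lit 0x48⟩ (.nil) (.nil)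
def t14_14400 : Tr := .node ⟨nat_lit 8, nat_lit 0x800020009000c000e0, nat_lit 0x12003, nat_lit 0, nat_lit 4, nat_lit 0x46⟩ (.nil) (.nil)
def t14_1088 : Tr := .node ⟨nat_lit 6, nat_lit 0x2000200030, nat_lit 0x1221, nat_lit 3, nat_lit 4, nat_lit 0x48⟩ (.nil) (.nil)
def t14_9280 : Tr := .node ⟨nat_lit 9, nat_lit 0x100008001200140018001a0, nat_lit 0x120021, nat_lit 0, nat_lit 4, nat_lit 0x47⟩ (.nil) (.nil)
def t14_5184 : Tr := .node ⟨nat_lit 8, nat_lit 0x8000800020002000c0, nat_lit 0x1031100, nat_lit 1, nat_lit 4, nat_lit 0x49⟩ (.nil) (.nil)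
def t14_13376 : Tr := .node ⟨nat_lit 8, nat_lit 0x2000800040008800c8, nat_lit 0x2200, nat_lit 0, nat_lit 4, nat_lit 0x47⟩ (.nil) (.nil)
def t14_3136 : Tr := .node ⟨nat_lit 6, nat_lit 0x2000280034, nat_lit 0x120010, nat_lit 1, nat_lit 4, nat_lit 0x46⟩ (.nil) (.nil)
def t14_11328 : Tr := .node ⟨nat_lit 8, nat_lit 0x200040008000c0, nat_lit 0x10110, nat_lit 1, nat_lit 4, nat_lit 0x48⟩ (.nil) (.nil)
def t14_7232 : Tr := .node ⟨nat_lit 4, nat_lit 0xc, nat_lit 0x2211, nat_lit 6, nat_lit 3, nat_lit 0x47⟩ (.nil) (.nil)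
def t14_15424 : Tr := .node ⟨nat_lit 8, nat_lit 0x20002000c000c0, nat_lit 0x10011011, nat_lit 0, nat_lit 3, nat_lit 0x47⟩ (.nil) (.nil)
def t14_576 : Tr := .node ⟨nat_lit 8, nat_lit 0x800040002000c000a0, nat_lit 0x21022, nat_lit 0, nat_lit 4, nat_lit 0x47⟩ (.nil) (.nil)
def t14_8768 : Tr := .node ⟨nat_lit 7, nat_lit 0x40001000480060, nat_lit 0x12030, nat_lit 3, nat_lit 4, nat_lit 0x48⟩ (.nil) (.nil)
def t14_4672 : Tr := .node ⟨nat_lit 5, nat_lit 0x1000180018, nat_lit 0x1022, nat_lit 6, nat_lit 4, nat_lit 0x46⟩ (.nil) (.nil)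
def t14_12864 : Tr := .node ⟨nat_lit 7, nat_lit 0x1000500060, nat_lit 0x2001, nat_lit 0, nat_lit 4, nat_lit 0x47⟩ (.nil) (.nil)
def t14_2624 : Tr := .node ⟨nat_lit 6, nat_lit 0x10002000300038, nat_lit 0x2310, nat_lit 3, nat_lit 4, nat_lit 0x46⟩ (.nil) (.nil)
def t14_10816 : Tr := .node ⟨nat_lit 5, nat_lit 0x10001c001c, nat_lit 0x11122, nat_lit 7, nat_lit 4, nat_lit 0x46⟩ (.nil) (.nil)
def t14_6720 : Tr := .node ⟨nat_lit 7, nat_lit 0x40001000480068, nat_lit 0x1110101, nat_lit 1, nat_lit 4, nat_lit 0x47⟩ (.nil) (.nil)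
def t14_14912 : Tr := .node ⟨nat_lit 6, nat_lit 0x20002800380038, nat_lit 0x101211, nat_lit 6, nat_lit 4, nat_lit 0x46⟩ (.nil) (.nil)
def t14_1600 : Tr := .node ⟨nat_lit 7, nat_lit 0x40002000600068, nat_lit 0x11120, nat_lit 0, nat_lit 4, nat_lit 0x46⟩ (.nil) (.nil)
def t14_9792 : Tr := .node ⟨nat_lit 7, nat_lit 0x10005000600070, nat_lit 0x2022, nat_lit 0, nat_lit 4, nat_lit 0x45⟩ (.nil) (.nil)
def t14_5696 : Tr := .node ⟨nat_lit 7, nat_lit 0x4000500060, nat_lit 0x211220, nat_lit 0, nat_lit 4, nat_lit 0x49⟩ (.nil) (.nil)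
def t14_13888 : Tr := .node ⟨nat_lit 8, nat_lit 0x80004000880060, nat_lit 0x11200, nat_lit 1, nat_lit 4, nat_lit 0x48⟩ (.nil) (.nil)
def t14_3648 : Tr := .node ⟨nat_lit 7, nat_lit 0x20004000600068, nat_lit 0x21021, nat_lit 2, nat_lit 4, nat_lit 0x47⟩ (.nil) (.nil)
def t14_11840 : Tr := .node ⟨nat_lit 4, nat_lit 0x8000e, nat_lit 0x130, nat_lit 7, nat_lit 4, nat_lit 0x46⟩ (.nil) (.nil)
def t14_7744 : Tr := .node ⟨nat_lit 6, nat_lit 0x800300030, nat_lit 0x211, nat_lit 2, nat_lit 4, nat_lit 0x45⟩ (.nil) (.nil)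
def t9_64 : Tr := .node ⟨nat_lit 6, nat_lit 0x100020, nat_lit 0x312111, nat_lit 1, nat_lit 4, nat_lit 0x4b⟩ (.node ⟨nat_lit 6, nat_lit 0x1000200020, nat_lit 0x113122, nat_lit 1, nat_lit 4, nat_lit 0x4a⟩ (.node ⟨nat_lit 6, nat_lit 0x800200030, nat_lit 0x30200, nat_lit 0, nat_lit 4, nat_lit 0x47⟩ (.node ⟨nat_lit 6, nat_lit 0x280030, nat_lit 0x11210, nat_lit 1, nat_lit 4, nat_lit 0x47⟩ (.node ⟨nat_lit 6, nat_lit 0x200022, nat_lit 0x22011, nat_lit 0, nat_lit 4, nat_lit 0x48⟩ (t14_64) (t14_8256)) (.node ⟨nat_lit 7, nat_lit 0x5000180060, nat_lit 0x101100, nat_lit 0, nat_lit 4, nat_lit 0x46⟩ (t14_4160) (t14_12352))) (.node ⟨nat_lit 7, nat_lit 0x4000100060, nat_lit 0x1211202, nat_lit 0, nat_lit 4, nat_lit 0x4a⟩ (.node ⟨nat_lit 7, nat_lit 0x400040002000500060, nat_lit 0x110103, nat_lit 5, nat_lit 4, nat_lit 0x48⟩ (t14_2112) (t14_10304)) (.node ⟨nat_lit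 6, nat_lit 0x2000200020, nat_lit 0x122111, nat_lit 0, nat_lit 3, nat_lit 0x48⟩ (t14_6208) (t14_14400)))) (.node ⟨nat_lit 6, nat_lit 0x1000200020, nat_lit 0x21220, nat_lit 3, nat_lit 4, nat_lit 0x49⟩ (.node ⟨nat_lit 7, nat_lit 0x1000600060, nat_lit 0x2012111, nat_lit 0, nat_lit 4, nat_lit 0x49⟩ (.node ⟨nat_lit 7, nat_lit 0x40001000600060, nat_lit 0x10311, nat_lit 1, nat_lit 4, nat_lit 0x47⟩ (t14_1088) (t14_9280)) (.node ⟨nat_lit 6, nat_lit 0x800300038, nat_lit 0x101141, nat_lit 0, nat_lit 4, nat_lit 0x46⟩ (t14_5184) (t14_13376))) (.node ⟨nat_lit 5, nat_lit 0x18, nat_lit 0x20210, nat_lit 2, nat_lit 4, nat_lit 0x48⟩ (.node ⟨nat_lit 4, nat_lit 0xc, nat_lit 0x2020, nat_lit 6, nat_lit 4, nat_lit 0x47⟩ (t14_3136) (t14_11328)) (.node ⟨nat_lit 7, nat_lit 0x20004000100044, nat_lit 0x1000102, nat_lit 1, nat_lit 4, nat_lit 0x47⟩ (t14_7232) (t14_15424)))))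 (.node ⟨nat_lit 4, nat_lit 0x80004, nat_lit 0x2304, nat_lit 1, nat_lit 3, nat_lit 0x48⟩ (.node ⟨nat_lit 5, nat_lit 0x100008, nat_lit 0x12203, nat_lit 0, nat_lit 4, nat_lit 0x49⟩ (.node ⟨nat_lit 6, nat_lit 0x2000200030, nat_lit 0x2210, nat_lit 1, nat_lit 3, nat_lit 0x46⟩ (.node ⟨nat_lit 7, nat_lit 0x40, nat_lit 0x2111111, nat_lit 4, nat_lit 4, nat_lit 0x4d⟩ (t14_576) (t14_8768)) (.node ⟨nat_lit 7, nat_lit 0x400020002000500068, nat_lit 0x1111100, nat_lit 1, nat_lit 4, nat_lit 0x47⟩ (t14_4672) (t14_12864))) (.node ⟨nat_lit 4, nat_lit 0, nat_lit 0x1000, nat_lit 0, nat_lit 4, nat_lit 0x43⟩ (.node ⟨nat_lit 7, nat_lit 0x400020, nat_lit 0x111103, nat_lit 0, nat_lit 3, nat_lit 0x49⟩ (t14_2624) (t14_10816)) (.node ⟨nat_lit 4, nat_lit 8, nat_lit 0x1110, nat_lit 0x11, nat_lit 4, nat_lit 0x4a⟩ (t14_6720) (t14_14912)))) (.node ⟨nat_lit 5, nat_lit 0x80010, nat_lit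 0x21111, nat_lit 6, nat_lit 4, nat_lit 0x49⟩ (.node ⟨nat_lit 6, nat_lit 0x280030, nat_lit 0x23112, nat_lit 0, nat_lit 4, nat_lit 0x49⟩ (.node ⟨nat_lit 6, nat_lit 0x800280030, nat_lit 0x10110, nat_lit 1, nat_lit 4, nat_lit 0x45⟩ (t14_1600) (t14_9792)) (.node ⟨nat_lit 8, nat_lit 0x80008000400040, nat_lit 0x1210021, nat_lit 1, nat_lit 4, nat_lit 0x4b⟩ (t14_5696) (t14_13888))) (.node ⟨nat_lit 7, nat_lit 0x1000400060, nat_lit 0x201022, nat_lit 1, nat_lit 4, nat_lit 0x49⟩ (.node ⟨nat_lit 6, nat_lit 0x2000300034, nat_lit 0x1000, nat_lit 3, nat_lit 4, nat_lit 0x45⟩ (t14_3648) (t14_11840)) (.node ⟨nat_lit 6, nat_lit 0x1000200008, nat_lit 0x110202, nat_lit 3, nat_lit 4, nat_lit 0x48⟩ (t14_7744) (.nil)))))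
def t14_320 : Tr := .node ⟨nat_lit 7, nat_lit 0x10002000500060, nat_lit 0x1102312, nat_lit 0, nat_lit 4, nat_lit 0x48⟩ (.nil) (.nil)
def t14_8512 : Tr := .node ⟨nat_lit 8, nat_lit 0x800080004000900090, nat_lit 0x111041, nat_lit 0, nat_lit 4, nat_lit 0x49⟩ (.nil) (.nil)
def t14_4416 : Tr := .node ⟨nat_lit 9, nat_lit 0x100008000200040, nat_lit 0x11110001, nat_lit 3, nat_lit 4, nat_lit 0x4c⟩ (.nil) (.nil)
def t14_12608 : Tr := .node ⟨nat_lit 8, nat_lit 0x400090006000e0, nat_lit 0x10001003, nat_lit 1, nat_lit 4, nat_lit 0x47⟩ (.nil) (.nil)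
def t14_2368 : Tr := .node ⟨nat_lit 8, nat_lit 0xc000c000c0, nat_lit 0x211210, nat_lit 0, nat_lit 4, nat_lit 0x49⟩ (.nil) (.nil)
def t14_10560 : Tr := .node ⟨nat_lit 6, nat_lit 0x8000c0030, nat_lit 0x100020, nat_lit 2, nat_lit 4, nat_lit 0x45⟩ (.nil) (.nil)
def t14_6464 : Tr := .node ⟨nat_lit 6, nat_lit 0x2000280034, nat_lit 0x111101, nat_lit 3, nat_lit 4, nat_lit 0x47⟩ (.nil) (.nil)
def t14_14656 : Tr := .node ⟨nat_lit 7, nat_lit 0x20005000600068, nat_lit 0x111211, nat_lit 2, nat_lit 4, nat_lit 0x47⟩ (.nil) (.nil)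
def t14_1344 : Tr := .node ⟨nat_lit 7, nat_lit 0x400040004000200050, nat_lit 0x121011, nat_lit 5, nat_lit 4, nat_lit 0x49⟩ (.nil) (.nil)
def t14_9536 : Tr := .node ⟨nat_lit 9, nat_lit 0x100010001000110012001200140, nat_lit 0x10111100, nat_lit 3, nat_lit 4, nat_lit 0x49⟩ (.nil) (.nil)
def t14_5440 : Tr := .node ⟨nat_lit 7, nat_lit 0x20004000100068, nat_lit 0x13001, nat_lit 1, nat_lit 4, nat_lit 0x47⟩ (.nil) (.nil)
def t14_13632 : Tr := .node ⟨nat_lit 6, nat_lit 0x30000c, nat_lit 0x12, nat_lit 1, nat_lit 4, nat_lit 0x45⟩ (.nil) (.nil)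
def t14_3392 : Tr := .node ⟨nat_lit 8, nat_lit 0x20008000c000a0, nat_lit 0x20011, nat_lit 0, nat_lit 4, nat_lit 0x48⟩ (.nil) (.nil)
def t14_11584 : Tr := .node ⟨nat_lit 4, nat_lit 0xc000c, nat_lit 0x30, nat_lit 9, nat_lit 4, nat_lit 0x45⟩ (.nil) (.nil)
def t14_7488 : Tr := .node ⟨nat_lit 7, nat_lit 0x4000440060, nat_lit 0x111111, nat_lit 1, nat_lit 4, nat_lit 0x48⟩ (.nil) (.nil)
def t14_832 : Tr := .node ⟨nat_lit 8, nat_lit 0x400040004000200080, nat_lit 0x10131011, nat_lit 0, nat_lit 4, nat_lit 0x4a⟩ (.nil) (.nil)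
def t14_9024 : Tr := .node ⟨nat_lit 8, nat_lit 0x800080008000a000a00090, nat_lit 0x1111101, nat_lit 4, nat_lit 4, nat_lit 0x49⟩ (.nil) (.nil)
def t14_4928 : Tr := .node ⟨nat_lit 6, nat_lit 0x800300030, nat_lit 0x100031, nat_lit 5, nat_lit 4, nat_lit 0x47⟩ (.nil) (.nil)
def t14_13120 : Tr := .node ⟨nat_lit 5, nat_lit 0x1000080018, nat_lit 0x20130, nat_lit 4, nat_lit 3, nat_lit 0x46⟩ (.nil) (.nil)
def t14_2880 : Tr := .node ⟨nat_lit 8, nat_lit 0x80004000c000a000d0, nat_lit 0x121012, nat_lit 0, nat_lit 4, nat_lit 0x47⟩ (.nil) (.nil)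
def t14_11072 : Tr := .node ⟨nat_lit 6, nat_lit 0x800300030, nat_lit 0x101120, nat_lit 3, nat_lit 4, nat_lit 0x47⟩ (.nil) (.nil)
def t14_6976 : Tr := .node ⟨nat_lit 7, nat_lit 0x1000100060, nat_lit 0x2100201, nat_lit 0, nat_lit 4, nat_lit 0x49⟩ (.nil) (.nil)
def t14_15168 : Tr := .node ⟨nat_lit 8, nat_lit 0x800040004000a000c800d0, nat_lit 0x1111101, nat_lit 0, nat_lit 4, nat_lit 0x46⟩ (.nil) (.nil)
def t14_1856 : Tr := .node ⟨nat_lit 7, nat_lit 0x40006000680068, nat_lit 0x2010211, nat_lit 2, nat_lit 4, nat_lit 0x47⟩ (.nil) (.nil)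
def t14_10048 : Tr := .node ⟨nat_lit 6, nat_lit 0x20003000380038, nat_lit 0x101220, nat_lit 6, nat_lit 4, nat_lit 0x46⟩ (.nil) (.nil)
def t14_5952 : Tr := .node ⟨nat_lit 7, nat_lit 0x2000400060, nat_lit 0x111121, nat_lit 0, nat_lit 4, nat_lit 0x49⟩ (.nil) (.nil)
def t14_14144 : Tr := .node ⟨nat_lit 9, nat_lit 0x10001000040004000800080, nat_lit 0x100021, nat_lit 1, nat_lit 4, nat_lit 0x49⟩ (.nil) (.nil)
def t14_3904 : Tr := .node ⟨nat_lit 8, nat_lit 0x800080009000e000e000d0, nat_lit 0x10011201, nat_lit 1, nat_lit 4, nat_lit 0x46⟩ (.nil) (.nil)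
def t14_12096 : Tr := .node ⟨nat_lit 8, nat_lit 0x8000c000c000c8, nat_lit 0x111210, nat_lit 1, nat_lit 4, nat_lit 0x48⟩ (.nil) (.nil)
def t14_8000 : Tr := .node ⟨nat_lit 7, nat_lit 0x40001000200048, nat_lit 0x102014, nat_lit 0, nat_lit 4, nat_lit 0x48⟩ (.nil) (.nil)
def t9_320 : Tr := .node ⟨nat_lit 4, nat_lit 8, nat_lit 0x1311, nat_lit 5, nat_lit 4, nat_lit 0x48⟩ (.node ⟨nat_lit 7, nat_lit 0x40002000500060, nat_lit 0x31220, nat_lit 0, nat_lit 4, nat_lit 0x48⟩ (.node ⟨nat_lit 2, nat_lit 0, nat_lit 0x21, nat_lit 0x13, nat_lit 4, nat_lit 0x48⟩ (.node ⟨nat_lit 7, nat_lit 0x1000400060, nat_lit 0x1101022, nat_lit 0, nat_lit 4, nat_lit 0x49⟩ (.node ⟨nat_lit 7, nat_lit 0x4000180060, nat_lit 0x221012, nat_lit 0, nat_lit 4, nat_lit 0x49⟩ (t14_320) (t14_8512)) (.node ⟨nat_lit 7, nat_lit 0x40002000100010, nat_lit 0x10040, nat_lit 3, nat_lit 3, nat_lit 0x48⟩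 (t14_4416) (t14_12608))) (.node ⟨nat_lit 2, nat_lit 2, nat_lit 0x12, nat_lit 0xa, nat_lit 3, nat_lit 0x44⟩ (.node ⟨nat_lit 7, nat_lit 0x10002000500064, nat_lit 0x1100223, nat_lit 0, nat_lit 4, nat_lit 0x47⟩ (t14_2368) (t14_10560)) (.node ⟨nat_lit 6, nat_lit 0x800300030, nat_lit 0x101020, nat_lit 1, nat_lit 3, nat_lit 0x45⟩ (t14_6464) (t14_14656)))) (.node ⟨nat_lit 5, nat_lit 0x40018, nat_lit 0x11212, nat_lit 1, nat_lit 4, nat_lit 0x47⟩ (.node ⟨nat_lit 7, nat_lit 0x1000400062, nat_lit 0x2201022, nat_lit 0, nat_lit 4, nat_lit 0x4a⟩ (.node ⟨nat_lit 6, nat_lit 0x2000080030, nat_lit 0x1003, nat_lit 1, nat_lit 3, nat_lit 0x45⟩ (t14_1344) (t14_9536)) (.node ⟨nat_lit 6, nat_lit 0x2000080030, nat_lit 0x112122, nat_lit 2, nat_lit 4, nat_lit 0x49⟩ (t14_5440) (t14_13632))) (.node ⟨nat_lit 6, nat_lit 0x80030, nat_lit 0x200211, nat_lit 0, nat_lit 4, nat_lit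 0x48⟩ (.node ⟨nat_lit 7, nat_lit 0x4000200060, nat_lit 0x120103, nat_lit 0, nat_lit 4, nat_lit 0x49⟩ (t14_3392) (t14_11584)) (.node ⟨nat_lit 6, nat_lit 0x2000300028, nat_lit 0x101212, nat_lit 3, nat_lit 3, nat_lit 0x46⟩ (t14_7488) (.nil))))) (.node ⟨nat_lit 4, nat_lit 0, nat_lit 0x3100, nat_lit 0, nat_lit 4, nat_lit 0x46⟩ (.node ⟨nat_lit 7, nat_lit 0x400060, nat_lit 0x211102, nat_lit 0, nat_lit 4, nat_lit 0x4a⟩ (.node ⟨nat_lit 6, nat_lit 0x20, nat_lit 0x111110, nat_lit 0, nat_lit 4, nat_lit 0x49⟩ (.node ⟨nat_lit 6, nat_lit 0x100020, nat_lit 0x122201, nat_lit 2, nat_lit 4, nat_lit 0x4b⟩ (t14_832) (t14_9024)) (.node ⟨nat_lit 7, nat_lit 0x40004000200020, nat_lit 0x1122020, nat_lit 1, nat_lit 4, nat_lit 0x4a⟩ (t14_4928) (t14_13120))) (.node ⟨nat_lit 7, nat_lit 0x40002000580068, nat_lit 0x1011002, nat_lit 0, nat_lit 4, nat_lit 0x46⟩ (.node ⟨nat_lit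 5, nat_lit 0x1000140014, nat_lit 0x11211, nat_lit 7, nat_lit 4, nat_lit 0x48⟩ (t14_2880) (t14_11072)) (.node ⟨nat_lit 7, nat_lit 0x40004000440048, nat_lit 0x1111100, nat_lit 8, nat_lit 4, nat_lit 0x4a⟩ (t14_6976) (t14_15168)))) (.node ⟨nat_lit 5, nat_lit 0x18, nat_lit 0x21110, nat_lit 5, nat_lit 4, nat_lit 0x49⟩ (.node ⟨nat_lit 7, nat_lit 0x4000400060, nat_lit 0x221111, nat_lit 0, nat_lit 4, nat_lit 0x4a⟩ (.node ⟨nat_lit 5, nat_lit 0x100008, nat_lit 0x1104, nat_lit 4, nat_lit 3, nat_lit 0x47⟩ (t14_1856) (t14_10048)) (.node ⟨nat_lit 6, nat_lit 0x2000200030, nat_lit 0x112200, nat_lit 0, nat_lit 3, nat_lit 0x47⟩ (t14_5952) (t14_14144))) (.node ⟨nat_lit 7, nat_lit 0x200040004000600068, nat_lit 0x21011, nat_lit 2, nat_lit 4, nat_lit 0x46⟩ (.node ⟨nat_lit 7, nat_lit 0x20005000680070, nat_lit 0x111013, nat_lit 1, nat_lit 4, nat_lit 0x46⟩ (t14_3904) (t14_12096))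 (.node ⟨nat_lit 7, nat_lit 0x5000500060, nat_lit 0x112210, nat_lit 0, nat_lit 4, nat_lit 0x48⟩ (t14_8000) (.nil)))))
def t14_192 : Tr := .node ⟨nat_lit 6, nat_lit 0x280030, nat_lit 0x21011, nat_lit 0, nat_lit 4, nat_lit 0x47⟩ (.nil) (.nil)
def t14_8384 : Tr := .node ⟨nat_lit 5, nat_lit 0x40018, nat_lit 0x11003, nat_lit 6, nat_lit 3, nat_lit 0x46⟩ (.nil) (.nil)
def t14_4288 : Tr := .node ⟨nat_lit 7, nat_lit 0x400040002000200050, nat_lit 0x1021111, nat_lit 0, nat_lit 4, nat_lit 0x48⟩ (.nil) (.nil)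
def t14_12480 : Tr := .node ⟨nat_lit 7, nat_lit 0x4000400070, nat_lit 0x1103, nat_lit 0, nat_lit 4, nat_lit 0x47⟩ (.nil) (.nil)
def t14_2240 : Tr := .node ⟨nat_lit 8, nat_lit 0x2000800080003000c0, nat_lit 0x202200, nat_lit 1, nat_lit 4, nat_lit 0x49⟩ (.nil) (.nil)
def t14_10432 : Tr := .node ⟨nat_lit 8, nat_lit 0x400080002000c000d0, nat_lit 0x1112020, nat_lit 0, nat_lit 4, nat_lit 0x48⟩ (.nil) (.nil)
def t14_6336 : Tr := .node ⟨nat_lit 7, nat_lit 0x40005800680070, nat_lit 0x1000002, nat_lit 1, nat_lit 4, nat_lit 0x44⟩ (.nil) (.nil)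
def t14_14528 : Tr := .node ⟨nat_lit 8, nat_lit 0x800020009000a000d0, nat_lit 0x21011, nat_lit 1, nat_lit 4, nat_lit 0x47⟩ (.nil) (.nil)
def t14_1216 : Tr := .node ⟨nat_lit 7, nat_lit 0x40002000500064, nat_lit 0x101212, nat_lit 2, nat_lit 4, nat_lit 0x47⟩ (.nil) (.nil)
def t14_9408 : Tr := .node ⟨nat_lit 7, nat_lit 0x20005000300060, nat_lit 0x12021, nat_lit 2, nat_lit 4, nat_lit 0x47⟩ (.nil) (.nil)
def t14_5312 : Tr := .node ⟨nat_lit 7, nat_lit 0x800500060, nat_lit 0x1111002, nat_lit 3, nat_lit 4, nat_lit 0x49⟩ (.nil) (.nil)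
def t14_13504 : Tr := .node ⟨nat_lit 4, nat_lit 0x40008, nat_lit 0x202, nat_lit 8, nat_lit 4, nat_lit 0x47⟩ (.nil) (.nil)
def t14_3264 : Tr := .node ⟨nat_lit 8, nat_lit 0x400040008000800080, nat_lit 0x1110210, nat_lit 1, nat_lit 4, nat_lit 0x4a⟩ (.nil) (.nil)
def t14_11456 : Tr := .node ⟨nat_lit 8, nat_lit 0x800080002000b000d0, nat_lit 0x11000101, nat_lit 0, nat_lit 4, nat_lit 0x47⟩ (.nil) (.nil)
def t14_7360 : Tr := .node ⟨nat_lit 7, nat_lit 0x40004000100060, nat_lit 0x1021121, nat_lit 0, nat_lit 4, nat_lit 0x49⟩ (.nil) (.nil)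
def t14_15552 : Tr := .node ⟨nat_lit 9, nat_lit 0x4000800100, nat_lit 0x101111101, nat_lit 2, nat_lit 4, nat_lit 0x4d⟩ (.nil) (.nil)
def t14_704 : Tr := .node ⟨nat_lit 7, nat_lit 0x40001000480060, nat_lit 0x113101, nat_lit 1, nat_lit 4, nat_lit 0x48⟩ (.nil) (.nil)
def t14_8896 : Tr := .node ⟨nat_lit 7, nat_lit 0x40001000680068, nat_lit 0x12121, nat_lit 0, nat_lit 4, nat_lit 0x46⟩ (.nil) (.nil)
def t14_4800 : Tr := .node ⟨nat_lit 6, nat_lit 0x10002000300038, nat_lit 0x12220, nat_lit 4, nat_lit 4, nat_lit 0x47⟩ (.nil) (.nil)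
def t14_12992 : Tr := .node ⟨nat_lit 7, nat_lit 0x40002000480048, nat_lit 0x22020, nat_lit 1, nat_lit 4, nat_lit 0x48⟩ (.nil) (.nil)
def t14_2752 : Tr := .node ⟨nat_lit 8, nat_lit 0x9000a000c0, nat_lit 0x1102012, nat_lit 0, nat_lit 4, nat_lit 0x49⟩ (.nil) (.nil)
def t14_10944 : Tr := .node ⟨nat_lit 6, nat_lit 0x2000200020, nat_lit 0x22320, nat_lit 0, nat_lit 3, nat_lit 0x48⟩ (.nil) (.nil)
def t14_6848 : Tr := .node ⟨nat_lit 7, nat_lit 0x4000440064, nat_lit 0x1011201, nat_lit 2, nat_lit 4, nat_lit 0x49⟩ (.nil) (.nil)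
def t14_15040 : Tr := .node ⟨nat_lit 9, nat_lit 0x1000110011001800180, nat_lit 0x1111110, nat_lit 2, nat_lit 4, nat_lit 0x49⟩ (.nil) (.nil)
def t14_1728 : Tr := .node ⟨nat_lit 8, nat_lit 0x800090006000c000d0, nat_lit 0x111121, nat_lit 0, nat_lit 4, nat_lit 0x46⟩ (.nil) (.nil)
def t14_9920 : Tr := .node ⟨nat_lit 3, nat_lit 6, nat_lit 4, nat_lit 8, nat_lit 4, nat_lit 0x44⟩ (.nil) (.nil)
def t14_5824 : Tr := .node ⟨nat_lit 6, nat_lit 0x100020, nat_lit 0x11102, nat_lit 4, nat_lit 4, nat_lit 0x49⟩ (.nil) (.nil)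
def t14_14016 : Tr := .node ⟨nat_lit 7, nat_lit 0x4000200010, nat_lit 0x1021, nat_lit 1, nat_lit 4, nat_lit 0x48⟩ (.nil) (.nil)
def t14_3776 : Tr := .node ⟨nat_lit 7, nat_lit 0x40004000600060, nat_lit 0x12210, nat_lit 1, nat_lit 3, nat_lit 0x46⟩ (.nil) (.nil)
def t14_11968 : Tr := .node ⟨nat_lit 7, nat_lit 0x10004000400060, nat_lit 0x100220, nat_lit 5, nat_lit 4, nat_lit 0x49⟩ (.nil) (.nil)
def t14_7872 : Tr := .node ⟨nat_lit 8, nat_lit 0x800040009000a000d0, nat_lit 0x10111, nat_lit 1, nat_lit 4, nat_lit 0x46⟩ (.nil) (.nil)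
def t9_192 : Tr := .node ⟨nat_lit 5, nat_lit 0x18, nat_lit 0x21311, nat_lit 1, nat_lit 4, nat_lit 0x49⟩ (.node ⟨nat_lit 7, nat_lit 0x4000200060, nat_lit 0x131012, nat_lit 1, nat_lit 4, nat_lit 0x4a⟩ (.node ⟨nat_lit 6, nat_lit 0x20002000280028, nat_lit 0x31120, nat_lit 4, nat_lit 4, nat_lit 0x48⟩ (.node ⟨nat_lit 5, nat_lit 0x40018, nat_lit 0x21203, nat_lit 2, nat_lit 4, nat_lit 0x48⟩ (.node ⟨nat_lit 7, nat_lit 0x4000200010, nat_lit 0x121012, nat_lit 5, nat_lit 4, nat_lit 0x4b⟩ (t14_192) (t14_8384)) (.node ⟨nat_lit 6, nat_lit 0x2000100024, nat_lit 0x10101, nat_lit 1, nat_lit 4, nat_lit 0x46⟩ (t14_4288) (t14_12480))) (.node ⟨nat_lit 6, nat_lit 0x2000080030, nat_lit 0x112231, nat_lit 0, nat_lit 4, nat_lit 0x49⟩ (.node ⟨nat_lit 6, nat_lit 0x800200032, nat_lit 0x110201, nat_lit 0, nat_lit 4, nat_lit 0x46⟩ (t14_2240) (t14_10432)) (.node ⟨nat_lit 8, nat_lit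 0x200080008000c0, nat_lit 0x1020202, nat_lit 2, nat_lit 4, nat_lit 0x4a⟩ (t14_6336) (t14_14528)))) (.node ⟨nat_lit 7, nat_lit 0x400040, nat_lit 0x1111121, nat_lit 0, nat_lit 4, nat_lit 0x4b⟩ (.node ⟨nat_lit 6, nat_lit 0x2000080030, nat_lit 0x122211, nat_lit 1, nat_lit 4, nat_lit 0x49⟩ (.node ⟨nat_lit 6, nat_lit 0x2000200010, nat_lit 0x12004, nat_lit 1, nat_lit 4, nat_lit 0x49⟩ (t14_1216) (t14_9408)) (.node ⟨nat_lit 7, nat_lit 0x4000500060, nat_lit 0x1102112, nat_lit 1, nat_lit 4, nat_lit 0x49⟩ (t14_5312) (t14_13504))) (.node ⟨nat_lit 6, nat_lit 0x800280030, nat_lit 0x11202, nat_lit 3, nat_lit 4, nat_lit 0x47⟩ (.node ⟨nat_lit 6, nat_lit 0x280030, nat_lit 0x11100, nat_lit 0, nat_lit 4, nat_lit 0x46⟩ (t14_3264) (t14_11456)) (.node ⟨nat_lit 6, nat_lit 0x200020, nat_lit 0x111110, nat_lit 1, nat_lit 4, nat_lit 0x49⟩ (t14_7360) (t14_15552))))) (.node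 ⟨nat_lit 3, nat_lit 4, nat_lit 0x131, nat_lit 0xb, nat_lit 4, nat_lit 0x48⟩ (.node ⟨nat_lit 2, nat_lit 0, nat_lit 0x21, nat_lit 7, nat_lit 4, nat_lit 0x44⟩ (.node ⟨nat_lit 5, nat_lit 0x80010, nat_lit 0x10121, nat_lit 0, nat_lit 4, nat_lit 0x46⟩ (.node ⟨nat_lit 7, nat_lit 0x4000100060, nat_lit 0x1021201, nat_lit 2, nat_lit 4, nat_lit 0x4a⟩ (t14_704) (t14_8896)) (.node ⟨nat_lit 4, nat_lit 0xc000c, nat_lit 0x2020, nat_lit 3, nat_lit 3, nat_lit 0x44⟩ (t14_4800) (t14_12992))) (.node ⟨nat_lit 6, nat_lit 0x800200030, nat_lit 0x100011, nat_lit 0, nat_lit 3, nat_lit 0x45⟩ (.node ⟨nat_lit 7, nat_lit 0x40004000100060, nat_lit 0x211113, nat_lit 0, nat_lit 4, nat_lit 0x49⟩ (t14_2752) (t14_10944)) (.node ⟨nat_lit 7, nat_lit 0x40006000580068, nat_lit 0x1110212, nat_lit 2, nat_lit 4, nat_lit 0x47⟩ (t14_6848) (t14_15040)))) (.node ⟨nat_lit 6, nat_lit 0x1000200020,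 nat_lit 0x111122, nat_lit 0, nat_lit 4, nat_lit 0x49⟩ (.node ⟨nat_lit 6, nat_lit 0x800300030, nat_lit 0x101210, nat_lit 1, nat_lit 4, nat_lit 0x46⟩ (.node ⟨nat_lit 6, nat_lit 0x1000200030, nat_lit 0x1001, nat_lit 3, nat_lit 4, nat_lit 0x46⟩ (t14_1728) (t14_9920)) (.node ⟨nat_lit 7, nat_lit 0x1000600060, nat_lit 0x22020, nat_lit 0, nat_lit 4, nat_lit 0x48⟩ (t14_5824) (t14_14016))) (.node ⟨nat_lit 6, nat_lit 0x2000200034, nat_lit 0x101212, nat_lit 2, nat_lit 4, nat_lit 0x48⟩ (.node ⟨nat_lit 7, nat_lit 0x2800480070, nat_lit 0x1010013, nat_lit 0, nat_lit 4, nat_lit 0x46⟩ (t14_3776) (t14_11968)) (.node ⟨nat_lit 8, nat_lit 0x2000c000c0, nat_lit 0x10111121, nat_lit 0, nat_lit 4, nat_lit 0x4a⟩ (t14_7872) (.nil)))))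
def t14_448 : Tr := .node ⟨nat_lit 8, nat_lit 0x800080004000400090, nat_lit 0x11111101, nat_lit 1, nat_lit 4, nat_lit 0x4a⟩ (.nil) (.nil)
def t14_8640 : Tr := .node ⟨nat_lit 7, nat_lit 0x40001000680070, nat_lit 2, nat_lit 1, nat_lit 4, nat_lit 0x44⟩ (.nil) (.nil)
def t14_4544 : Tr := .node ⟨nat_lit 7, nat_lit 0x1000400062, nat_lit 0x1201020, nat_lit 0, nat_lit 4, nat_lit 0x49⟩ (.nil) (.nil)
def t14_12736 : Tr := .node ⟨nat_lit 6, nat_lit 0x2000080030, nat_lit 0x21300, nat_lit 1, nat_lit 4, nat_lit 0x48⟩ (.nil) (.nil)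
def t14_2496 : Tr := .node ⟨nat_lit 6, nat_lit 0x300030, nat_lit 0x102120, nat_lit 2, nat_lit 4, nat_lit 0x48⟩ (.nil) (.nil)
def t14_10688 : Tr := .node ⟨nat_lit 6, nat_lit 0x800080030, nat_lit 0x100000, nat_lit 0, nat_lit 3, nat_lit 0x45⟩ (.nil) (.nil)
def t14_6592 : Tr := .node ⟨nat_lit 5, nat_lit 0x100018001c, nat_lit 0x10202, nat_lit 6, nat_lit 4, nat_lit 0x46⟩ (.nil) (.nil)
def t14_14784 : Tr := .node ⟨nat_lit 6, nat_lit 0x2000200010, nat_lit 0x1221, nat_lit 0, nat_lit 3, nat_lit 0x46⟩ (.nil) (.nil)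
def t14_1472 : Tr := .node ⟨nat_lit 6, nat_lit 0x10001000200020, nat_lit 0x102011, nat_lit 5, nat_lit 4, nat_lit 0x48⟩ (.nil) (.nil)
def t14_9664 : Tr := .node ⟨nat_lit 6, nat_lit 0x20001000300030, nat_lit 0x22, nat_lit 5, nat_lit 4, nat_lit 0x46⟩ (.nil) (.nil)
def t14_5568 : Tr := .node ⟨nat_lit 7, nat_lit 0x4000400060, nat_lit 0x111220, nat_lit 3, nat_lit 4, nat_lit 0x4a⟩ (.nil) (.nil)
def t14_13760 : Tr := .node ⟨nat_lit 8, nat_lit 0x800040004000a000d0, nat_lit 0x22000, nat_lit 0, nat_lit 4, nat_lit 0x47⟩ (.nil) (.nil)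
def t14_3520 : Tr := .node ⟨nat_lit 6, nat_lit 0x2800180030, nat_lit 0x100011, nat_lit 0, nat_lit 4, nat_lit 0x44⟩ (.nil) (.nil)
def t14_11712 : Tr := .node ⟨nat_lit 7, nat_lit 0x20005000500060, nat_lit 0x101101, nat_lit 1, nat_lit 4, nat_lit 0x46⟩ (.nil) (.nil)
def t14_7616 : Tr := .node ⟨nat_lit 6, nat_lit 0x2000100010, nat_lit 0x101033, nat_lit 1, nat_lit 3, nat_lit 0x47⟩ (.nil) (.nil)
def t14_960 : Tr := .node ⟨nat_lit 4, nat_lit 0x8000a, nat_lit 0x221, nat_lit 9, nat_lit 4, nat_lit 0x47⟩ (.nil) (.nil)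
def t14_9152 : Tr := .node ⟨nat_lit 7, nat_lit 0x20002000400010, nat_lit 0x1012011, nat_lit 0, nat_lit 3, nat_lit 0x47⟩ (.nil) (.nil)
def t14_5056 : Tr := .node ⟨nat_lit 8, nat_lit 0x80002000c000c0, nat_lit 0x1011031, nat_lit 1, nat_lit 4, nat_lit 0x49⟩ (.nil) (.nil)
def t14_13248 : Tr := .node ⟨nat_lit 8, nat_lit 0x400080002000200088, nat_lit 0x3001, nat_lit 0, nat_lit 4, nat_lit 0x48⟩ (.nil) (.nil)
def t14_3008 : Tr := .node ⟨nat_lit 6, nat_lit 0x10001000200038, nat_lit 0x11031, nat_lit 4, nat_lit 4, nat_lit 0x47⟩ (.nil) (.nil)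
def t14_11200 : Tr := .node ⟨nat_lit 6, nat_lit 0x3000300038, nat_lit 0x100102, nat_lit 3, nat_lit 4, nat_lit 0x45⟩ (.nil) (.nil)
def t14_7104 : Tr := .node ⟨nat_lit 6, nat_lit 0x300030, nat_lit 0x104111, nat_lit 1, nat_lit 4, nat_lit 0x49⟩ (.nil) (.nil)
def t14_15296 : Tr := .node ⟨nat_lit 8, nat_lit 0x400020002000c000a0, nat_lit 0x10012012, nat_lit 0, nat_lit 4, nat_lit 0x48⟩ (.nil) (.nil)
def t14_1984 : Tr := .node ⟨nat_lit 6, nat_lit 0x2000200030, nat_lit 0x21112, nat_lit 5, nat_lit 4, nat_lit 0x49⟩ (.nil) (.nil)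
def t14_10176 : Tr := .node ⟨nat_lit 7, nat_lit 0x40002000500064, nat_lit 0x100120, nat_lit 1, nat_lit 4, nat_lit 0x46⟩ (.nil) (.nil)
def t14_6080 : Tr := .node ⟨nat_lit 0xa, nat_lit 0x10001000080008000400200, nat_lit 0x1001101001, nat_lit 1, nat_lit 4, nat_lit 0x4b⟩ (.nil) (.nil)
def t14_14272 : Tr := .node ⟨nat_lit 8, nat_lit 0x200020008000c0, nat_lit 0x10021, nat_lit 3, nat_lit 4, nat_lit 0x49⟩ (.nil) (.nil)
def t14_4032 : Tr := .node ⟨nat_lit 8, nat_lit 0x400040008000a000c4, nat_lit 0x10020111, nat_lit 2, nat_lit 4, nat_lit 0x48⟩ (.nil) (.nil)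
def t14_12224 : Tr := .node ⟨nat_lit 6, nat_lit 0x1000200030, nat_lit 0x101100, nat_lit 3, nat_lit 4, nat_lit 0x47⟩ (.nil) (.nil)
def t14_8128 : Tr := .node ⟨nat_lit 6, nat_lit 0x20002800280030, nat_lit 0x11310, nat_lit 7, nat_lit 4, nat_lit 0x47⟩ (.nil) (.nil)
def t9_448 : Tr := .node ⟨nat_lit 5, nat_lit 0x80010, nat_lit 0x3132, nat_lit 1, nat_lit 4, nat_lit 0x49⟩ (.node ⟨nat_lit 4, nat_lit 0x40008, nat_lit 0x1021, nat_lit 2, nat_lit 3, nat_lit 0x44⟩ (.node ⟨nat_lit 6, nat_lit 0x1000280030, nat_lit 0x2220, nat_lit 0, nat_lit 4, nat_lit 0x46⟩ (.node ⟨nat_lit 5, nat_lit 0x100018, nat_lit 0x1212, nat_lit 3, nat_lit 4, nat_lit 0x47⟩ (.node ⟨nat_lit 7, nat_lit 0x6000500018, nat_lit 0x102201, nat_lit 0, nat_lit 4, nat_lit 0x47⟩ (t14_448) (t14_8640)) (.node ⟨nat_lit 7, nat_lit 0x4000400060, nat_lit 0x221102, nat_lit 1, nat_lit 4, nat_lit 0x4a⟩ (t14_4544)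 (t14_12736))) (.node ⟨nat_lit 3, nat_lit 0x40006, nat_lit 0x122, nat_lit 0xa, nat_lit 4, nat_lit 0x46⟩ (.node ⟨nat_lit 8, nat_lit 0x10008000c400e0, nat_lit 0x11100113, nat_lit 0, nat_lit 4, nat_lit 0x48⟩ (t14_2496) (t14_10688)) (.node ⟨nat_lit 7, nat_lit 0x40002000200060, nat_lit 0x1012221, nat_lit 0, nat_lit 4, nat_lit 0x49⟩ (t14_6592) (t14_14784)))) (.node ⟨nat_lit 4, nat_lit 0xc, nat_lit 0x1120, nat_lit 3, nat_lit 4, nat_lit 0x46⟩ (.node ⟨nat_lit 6, nat_lit 0x2000080030, nat_lit 0x112231, nat_lit 1, nat_lit 4, nat_lit 0x49⟩ (.node ⟨nat_lit 6, nat_lit 0x80030, nat_lit 0x111103, nat_lit 0, nat_lit 3, nat_lit 0x47⟩ (t14_1472) (t14_9664)) (.node ⟨nat_lit 7, nat_lit 0x10004000180060, nat_lit 0x1112011, nat_lit 0, nat_lit 4, nat_lit 0x48⟩ (t14_5568) (t14_13760))) (.node ⟨nat_lit 4, nat_lit 0x80008, nat_lit 0x121, nat_lit 5, nat_lit 4, nat_lit 0x46⟩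 (.node ⟨nat_lit 5, nat_lit 0x40018, nat_lit 0, nat_lit 2, nat_lit 3, nat_lit 0x44⟩ (t14_3520) (t14_11712)) (.node ⟨nat_lit 4, nat_lit 0x8000c, nat_lit 0x2130, nat_lit 3, nat_lit 3, nat_lit 0x46⟩ (t14_7616) (.nil))))) (.node ⟨nat_lit 6, nat_lit 0x200030, nat_lit 0x23011, nat_lit 0, nat_lit 4, nat_lit 0x49⟩ (.node ⟨nat_lit 4, nat_lit 0x80008, nat_lit 0x1220, nat_lit 5, nat_lit 3, nat_lit 0x46⟩ (.node ⟨nat_lit 8, nat_lit 0x80001000200040, nat_lit 0x11110111, nat_lit 0, nat_lit 4, nat_lit 0x4a⟩ (.node ⟨nat_lit 3, nat_lit 0x40004, nat_lit 0x130, nat_lit 0x11, nat_lit 4, nat_lit 0x48⟩ (t14_960) (t14_9152)) (.node ⟨nat_lit 7, nat_lit 0x4000400060, nat_lit 0x22220, nat_lit 1, nat_lit 4, nat_lit 0x4a⟩ (t14_5056) (t14_13248))) (.node ⟨nat_lit 4, nat_lit 8, nat_lit 0x1113, nat_lit 5, nat_lit 4, nat_lit 0x48⟩ (.node ⟨nat_lit 7, nat_lit 0x20004000600060, nat_lit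 0x11120, nat_lit 1, nat_lit 4, nat_lit 0x47⟩ (t14_3008) (t14_11200)) (.node ⟨nat_lit 7, nat_lit 0x20004000440060, nat_lit 0x1010202, nat_lit 6, nat_lit 4, nat_lit 0x49⟩ (t14_7104) (t14_15296)))) (.node ⟨nat_lit 6, nat_lit 0x200032, nat_lit 0x121100, nat_lit 1, nat_lit 4, nat_lit 0x48⟩ (.node ⟨nat_lit 8, nat_lit 0x800010002000c0, nat_lit 0x2110111, nat_lit 1, nat_lit 4, nat_lit 0x4a⟩ (.node ⟨nat_lit 5, nat_lit 0x100018, nat_lit 0x12241, nat_lit 0, nat_lit 3, nat_lit 0x47⟩ (t14_1984) (t14_10176)) (.node ⟨nat_lit 6, nat_lit 0x800280030, nat_lit 0x10202, nat_lit 1, nat_lit 4, nat_lit 0x46⟩ (t14_6080) (t14_14272))) (.node ⟨nat_lit 4, nat_lit 8, nat_lit 0x3210, nat_lit 5, nat_lit 3, nat_lit 0x48⟩ (.node ⟨nat_lit 7, nat_lit 0x40001000680068, nat_lit 0x1011030, nat_lit 0, nat_lit 4, nat_lit 0x46⟩ (t14_4032) (t14_12224)) (.node ⟨nat_lit 7, nat_lit 0x40004000200010,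 nat_lit 0x1012111, nat_lit 1, nat_lit 4, nat_lit 0x49⟩ (t14_8128) (.nil)))))
def t14_32 : Tr := .node ⟨nat_lit 5, nat_lit 0x10, nat_lit 0x11110, nat_lit 9, nat_lit 4, nat_lit 0x4a⟩ (.nil) (.nil)
def t14_8224 : Tr := .node ⟨nat_lit 7, nat_lit 0x200040003000480070, nat_lit 0x11113, nat_lit 2, nat_lit 4, nat_lit 0x45⟩ (.nil) (.nil)
def t14_4128 : Tr := .node ⟨nat_lit 8, nat_lit 0x8000800040002000c0, nat_lit 0x1111102, nat_lit 1, nat_lit 4, nat_lit 0x49⟩ (.nil) (.nil)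
def t14_12320 : Tr := .node ⟨nat_lit 7, nat_lit 0x40005800680070, nat_lit 0x1000101, nat_lit 1, nat_lit 4, nat_lit 0x44⟩ (.nil) (.nil)
def t14_2080 : Tr := .node ⟨nat_lit 7, nat_lit 0x400020002000500050, nat_lit 0x1013000, nat_lit 1, nat_lit 4, nat_lit 0x47⟩ (.nil) (.nil)
def t14_10272 : Tr := .node ⟨nat_lit 7, nat_lit 0x20003000500068, nat_lit 0x1000210, nat_lit 0, nat_lit 4, nat_lit 0x45⟩ (.nil) (.nil)
def t14_6176 : Tr := .node ⟨nat_lit 6, nat_lit 0x2000100008, nat_lit 0x1001, nat_lit 7, nat_lit 4, nat_lit 0x48⟩ (.nil) (.nil)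
def t14_14368 : Tr := .node ⟨nat_lit 8, nat_lit 0x20008000c00030, nat_lit 0x1110, nat_lit 0, nat_lit 4, nat_lit 0x47⟩ (.nil) (.nil)
def t14_1056 : Tr := .node ⟨nat_lit 5, nat_lit 0x800100012, nat_lit 0x1120, nat_lit 4, nat_lit 4, nat_lit 0x46⟩ (.nil) (.nil)
def t14_9248 : Tr := .node ⟨nat_lit 7, nat_lit 0x40002000480068, nat_lit 0x11021, nat_lit 0, nat_lit 4, nat_lit 0x46⟩ (.nil) (.nil)
def t14_5152 : Tr := .node ⟨nat_lit 8, nat_lit 0x400080008800c00060, nat_lit 0x101131, nat_lit 0, nat_lit 4, nat_lit 0x47⟩ (.nil) (.nil)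
def t14_13344 : Tr := .node ⟨nat_lit 7, nat_lit 0x40004800300060, nat_lit 0x13020, nat_lit 0, nat_lit 4, nat_lit 0x47⟩ (.nil) (.nil)
def t14_3104 : Tr := .node ⟨nat_lit 7, nat_lit 0x10002000500060, nat_lit 0x100012, nat_lit 0, nat_lit 4, nat_lit 0x46⟩ (.nil) (.nil)
def t14_11296 : Tr := .node ⟨nat_lit 7, nat_lit 0x10005000500060, nat_lit 0x101202, nat_lit 3, nat_lit 4, nat_lit 0x47⟩ (.nil) (.nil)
def t14_7200 : Tr := .node ⟨nat_lit 7, nat_lit 0x20005000600060, nat_lit 0x21121, nat_lit 0, nat_lit 4, nat_lit 0x47⟩ (.nil) (.nil)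
def t14_15392 : Tr := .node ⟨nat_lit 0xb, nat_lit 0x4000200020001000100, nat_lit 0x11101010, nat_lit 0, nat_lit 4, nat_lit 0x4d⟩ (.nil) (.nil)
def t14_544 : Tr := .node ⟨nat_lit 6, nat_lit 0x20001000280030, nat_lit 0x2012, nat_lit 3, nat_lit 4, nat_lit 0x46⟩ (.nil) (.nil)
def t14_8736 : Tr := .node ⟨nat_lit 7, nat_lit 0x10002000500060, nat_lit 0x101002, nat_lit 0, nat_lit 4, nat_lit 0x46⟩ (.nil) (.nil)
def t14_4640 : Tr := .node ⟨nat_lit 7, nat_lit 0x1000600060, nat_lit 0x1011021, nat_lit 0, nat_lit 4, nat_lit 0x48⟩ (.nil) (.nil)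
def t14_12832 : Tr := .node ⟨nat_lit 7, nat_lit 0x10006000600050, nat_lit 0x220, nat_lit 3, nat_lit 4, nat_lit 0x46⟩ (.nil) (.nil)
def t14_2592 : Tr := .node ⟨nat_lit 7, nat_lit 0x4000100060, nat_lit 0x12301, nat_lit 0, nat_lit 4, nat_lit 0x49⟩ (.nil) (.nil)
def t14_10784 : Tr := .node ⟨nat_lit 4, nat_lit 0x40008, nat_lit 0x2111, nat_lit 0xc, nat_lit 3, nat_lit 0x47⟩ (.nil) (.nil)
def t14_6688 : Tr := .node ⟨nat_lit 5, nat_lit 0x100010, nat_lit 0x1110, nat_lit 0xb, nat_lit 4, nat_lit 0x49⟩ (.nil) (.nil)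
def t14_14880 : Tr := .node ⟨nat_lit 8, nat_lit 0x8000400040, nat_lit 0x222010, nat_lit 0, nat_lit 3, nat_lit 0x4a⟩ (.nil) (.nil)
def t14_1568 : Tr := .node ⟨nat_lit 8, nat_lit 0x80009000c0006000d0, nat_lit 0x10110202, nat_lit 0, nat_lit 4, nat_lit 0x47⟩ (.nil) (.nil)
def t14_9760 : Tr := .node ⟨nat_lit 7, nat_lit 0x40001000600070, nat_lit 0x1002, nat_lit 0, nat_lit 4, nat_lit 0x45⟩ (.nil) (.nil)
def t14_5664 : Tr := .node ⟨nat_lit 7, nat_lit 0x20002000200040, nat_lit 0x11102, nat_lit 0, nat_lit 4, nat_lit 0x48⟩ (.nil) (.nil)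
def t14_13856 : Tr := .node ⟨nat_lit 8, nat_lit 0x400080008000880060, nat_lit 0x122000, nat_lit 0, nat_lit 4, nat_lit 0x48⟩ (.nil) (.nil)
def t14_3616 : Tr := .node ⟨nat_lit 7, nat_lit 0x6000480070, nat_lit 0x1110122, nat_lit 0, nat_lit 4, nat_lit 0x47⟩ (.nil) (.nil)
def t14_11808 : Tr := .node ⟨nat_lit 8, nat_lit 0x80008800c00030, nat_lit 0x100013, nat_lit 0, nat_lit 4, nat_lit 0x47⟩ (.nil) (.nil)
def t14_7712 : Tr := .node ⟨nat_lit 7, nat_lit 0x40002000480070, nat_lit 0x10102, nat_lit 0, nat_lit 4, nat_lit 0x45⟩ (.nil) (.nil)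
def t9_32 : Tr := .node ⟨nat_lit 3, nat_lit 4, nat_lit 0x331, nat_lit 0xb, nat_lit 4, nat_lit 0x49⟩ (.node ⟨nat_lit 6, nat_lit 0x1000100020, nat_lit 0x113201, nat_lit 3, nat_lit 4, nat_lit 0x4a⟩ (.node ⟨nat_lit 6, nat_lit 0x300030, nat_lit 0x113120, nat_lit 0, nat_lit 4, nat_lit 0x49⟩ (.node ⟨nat_lit 4, nat_lit 0xc, nat_lit 0x1121, nat_lit 6, nat_lit 4, nat_lit 0x47⟩ (.node ⟨nat_lit 5, nat_lit 0x1000080014, nat_lit 0x2232, nat_lit 2, nat_lit 4, nat_lit 0x47⟩ (t14_32) (t14_8224)) (.node ⟨nat_lit 7, nat_lit 0x20001000400060, nat_lit 0x10000, nat_lit 3, nat_lit 4, nat_lit 0x47⟩ (t14_4128) (t14_12320))) (.node ⟨nat_lit 4, nat_lit 0xc, nat_lit 0x2112, nat_lit 0xc, nat_lit 4, nat_lit 0x49⟩ (.node ⟨nat_lit 3, nat_lit 4, nat_lit 0x24, nat_lit 6, nat_lit 3, nat_lit 0x45⟩ (t14_2080) (t14_10272)) (.node ⟨nat_lit 7, nat_lit 0x40003000500060, nat_lit 0x201202,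 nat_lit 0, nat_lit 4, nat_lit 0x47⟩ (t14_6176) (t14_14368)))) (.node ⟨nat_lit 5, nat_lit 0x800100010, nat_lit 0x21300, nat_lit 0, nat_lit 3, nat_lit 0x46⟩ (.node ⟨nat_lit 6, nat_lit 0x1000200030, nat_lit 0x211211, nat_lit 1, nat_lit 4, nat_lit 0x49⟩ (.node ⟨nat_lit 6, nat_lit 0x2000080030, nat_lit 0x111011, nat_lit 1, nat_lit 4, nat_lit 0x47⟩ (t14_1056) (t14_9248)) (.node ⟨nat_lit 5, nat_lit 0x100018, nat_lit 0x10221, nat_lit 9, nat_lit 4, nat_lit 0x49⟩ (t14_5152) (t14_13344))) (.node ⟨nat_lit 7, nat_lit 0x400040, nat_lit 0x1111120, nat_lit 0, nat_lit 4, nat_lit 0x4b⟩ (.node ⟨nat_lit 6, nat_lit 0x2000080030, nat_lit 0x111101, nat_lit 0, nat_lit 4, nat_lit 0x47⟩ (t14_3104) (t14_11296)) (.node ⟨nat_lit 8, nat_lit 0x8000800040002000c0, nat_lit 0x1020202, nat_lit 0, nat_lit 4, nat_lit 0x49⟩ (t14_7200) (t14_15392))))) (.node ⟨nat_lit 6, nat_lit 0x80030,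 nat_lit 0x111310, nat_lit 1, nat_lit 4, nat_lit 0x49⟩ (.node ⟨nat_lit 5, nat_lit 0x100010, nat_lit 0x12121, nat_lit 1, nat_lit 3, nat_lit 0x47⟩ (.node ⟨nat_lit 6, nat_lit 0x2000280030, nat_lit 0x20102, nat_lit 3, nat_lit 4, nat_lit 0x47⟩ (.node ⟨nat_lit 9, nat_lit 0x10001000040012001200180, nat_lit 0x12001101, nat_lit 1, nat_lit 4, nat_lit 0x49⟩ (t14_544) (t14_8736)) (.node ⟨nat_lit 6, nat_lit 0x10001000200038, nat_lit 0x112102, nat_lit 5, nat_lit 4, nat_lit 0x48⟩ (t14_4640) (t14_12832))) (.node ⟨nat_lit 4, nat_lit 0x8000c, nat_lit 0x1012, nat_lit 4, nat_lit 3, nat_lit 0x44⟩ (.node ⟨nat_lit 6, nat_lit 0x1000200030, nat_lit 0x111230, nat_lit 1, nat_lit 4, nat_lit 0x49⟩ (t14_2592) (t14_10784)) (.node ⟨nat_lit 8, nat_lit 0x40008000c000c0, nat_lit 0x111220, nat_lit 1, nat_lit 4, nat_lit 0x49⟩ (t14_6688) (t14_14880)))) (.node ⟨nat_lit 7, nat_lit 0x40004000100020,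 nat_lit 0x121012, nat_lit 0, nat_lit 4, nat_lit 0x49⟩ (.node ⟨nat_lit 6, nat_lit 0x300028, nat_lit 0x200201, nat_lit 3, nat_lit 4, nat_lit 0x48⟩ (.node ⟨nat_lit 8, nat_lit 0x400080008000880060, nat_lit 0x1030001, nat_lit 5, nat_lit 4, nat_lit 0x49⟩ (t14_1568) (t14_9760)) (.node ⟨nat_lit 5, nat_lit 0x1000080018, nat_lit 0x11101, nat_lit 3, nat_lit 4, nat_lit 0x46⟩ (t14_5664) (t14_13856))) (.node ⟨nat_lit 5, nat_lit 0x40018, nat_lit 0x20102, nat_lit 4, nat_lit 4, nat_lit 0x47⟩ (.node ⟨nat_lit 7, nat_lit 0x10004000500064, nat_lit 0x100000, nat_lit 3, nat_lit 4, nat_lit 0x46⟩ (t14_3616) (t14_11808)) (.node ⟨nat_lit 6, nat_lit 0x20002000100028, nat_lit 0x111020, nat_lit 5, nat_lit 4, nat_lit 0x48⟩ (t14_7712) (.nil)))))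
def t14_288 : Tr := .node ⟨nat_lit 8, nat_lit 0x80002000c000a0, nat_lit 0x121121, nat_lit 0, nat_lit 4, nat_lit 0x49⟩ (.nil) (.nil)
def t14_8480 : Tr := .node ⟨nat_lit 7, nat_lit 0x4000600064, nat_lit 0x10210, nat_lit 0, nat_lit 4, nat_lit 0x47⟩ (.nil) (.nil)
def t14_4384 : Tr := .node ⟨nat_lit 7, nat_lit 0x40002000100060, nat_lit 0x1012002, nat_lit 0, nat_lit 4, nat_lit 0x48⟩ (.nil) (.nil)
def t14_12576 : Tr := .node ⟨nat_lit 7, nat_lit 0x5000600018, nat_lit 0x100100, nat_lit 1, nat_lit 4, nat_lit 0x46⟩ (.nil) (.nil)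
def t14_2336 : Tr := .node ⟨nat_lit 7, nat_lit 0x20004000680068, nat_lit 0x211310, nat_lit 1, nat_lit 4, nat_lit 0x48⟩ (.nil) (.nil)
def t14_10528 : Tr := .node ⟨nat_lit 7, nat_lit 0x20006000500050, nat_lit 0x22, nat_lit 0, nat_lit 4, nat_lit 0x45⟩ (.nil) (.nil)
def t14_6432 : Tr := .node ⟨nat_lit 6, nat_lit 0x20002000240028, nat_lit 0x111110, nat_lit 6, nat_lit 4, nat_lit 0x48⟩ (.nil) (.nil)
def t14_14624 : Tr := .node ⟨nat_lit 8, nat_lit 0x8000400050005000a000e0, nat_lit 0x10011101, nat_lit 2, nat_lit 4, nat_lit 0x46⟩ (.nil) (.nil)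
def t14_1312 : Tr := .node ⟨nat_lit 8, nat_lit 0x2000400040008000c8, nat_lit 0x1001112, nat_lit 1, nat_lit 4, nat_lit 0x48⟩ (.nil) (.nil)
def t14_9504 : Tr := .node ⟨nat_lit 0xa, nat_lit 0x10002000200020000800210, nat_lit 0x1012101, nat_lit 1, nat_lit 4, nat_lit 0x4b⟩ (.nil) (.nil)
def t14_5408 : Tr := .node ⟨nat_lit 7, nat_lit 0x40001000100060, nat_lit 0x103102, nat_lit 2, nat_lit 4, nat_lit 0x48⟩ (.nil) (.nil)
def t14_13600 : Tr := .node ⟨nat_lit 6, nat_lit 0x10002000240030, nat_lit 2, nat_lit 7, nat_lit 4, nat_lit 0x46⟩ (.nil) (.nil)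
def t14_3360 : Tr := .node ⟨nat_lit 7, nat_lit 0x40004800600050, nat_lit 0x12101, nat_lit 1, nat_lit 4, nat_lit 0x47⟩ (.nil) (.nil)
def t14_11552 : Tr := .node ⟨nat_lit 6, nat_lit 0x1000100020, nat_lit 0x121102, nat_lit 0, nat_lit 3, nat_lit 0x48⟩ (.nil) (.nil)
def t14_7456 : Tr := .node ⟨nat_lit 8, nat_lit 0x8000c000c0, nat_lit 0x10111111, nat_lit 1, nat_lit 4, nat_lit 0x4a⟩ (.nil) (.nil)
def t14_800 : Tr := .node ⟨nat_lit 6, nat_lit 0x2000200010, nat_lit 0x11311, nat_lit 4, nat_lit 4, nat_lit 0x49⟩ (.nil) (.nil)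
def t14_8992 : Tr := .node ⟨nat_lit 9, nat_lit 0x100010000800080012001400180, nat_lit 0x1110102, nat_lit 1, nat_lit 4, nat_lit 0x48⟩ (.nil) (.nil)
def t14_4896 : Tr := .node ⟨nat_lit 8, nat_lit 0x800080, nat_lit 0x12111110, nat_lit 0, nat_lit 4, nat_lit 0x4d⟩ (.nil) (.nil)
def t14_13088 : Tr := .node ⟨nat_lit 6, nat_lit 0x800200030, nat_lit 0x200002, nat_lit 1, nat_lit 3, nat_lit 0x46⟩ (.nil) (.nil)
def t14_2848 : Tr := .node ⟨nat_lit 6, nat_lit 0x2000100024, nat_lit 0x111002, nat_lit 2, nat_lit 4, nat_lit 0x47⟩ (.nil) (.nil)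
def t14_11040 : Tr := .node ⟨nat_lit 3, nat_lit 6, nat_lit 0x220, nat_lit 8, nat_lit 4, nat_lit 0x46⟩ (.nil) (.nil)
def t14_6944 : Tr := .node ⟨nat_lit 8, nat_lit 0x10002000a000c0, nat_lit 0x12000021, nat_lit 1, nat_lit 4, nat_lit 0x49⟩ (.nil) (.nil)
def t14_15136 : Tr := .node ⟨nat_lit 8, nat_lit 0x8000400090006000d0, nat_lit 0x10111101, nat_lit 0, nat_lit 4, nat_lit 0x47⟩ (.nil) (.nil)
def t14_1824 : Tr := .node ⟨nat_lit 6, nat_lit 0x1000280034, nat_lit 0x112220, nat_lit 2, nat_lit 4, nat_lit 0x48⟩ (.nil) (.nil)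
def t14_10016 : Tr := .node ⟨nat_lit 6, nat_lit 0x20001000100030, nat_lit 0x10202, nat_lit 4, nat_lit 3, nat_lit 0x46⟩ (.nil) (.nil)
def t14_5920 : Tr := .node ⟨nat_lit 8, nat_lit 0x800040008800c0, nat_lit 0x112120, nat_lit 1, nat_lit 4, nat_lit 0x49⟩ (.nil) (.nil)
def t14_14112 : Tr := .node ⟨nat_lit 7, nat_lit 0x4000100060, nat_lit 0x110, nat_lit 1, nat_lit 4, nat_lit 0x47⟩ (.nil) (.nil)
def t14_3872 : Tr := .node ⟨nat_lit 7, nat_lit 0x40002000480060, nat_lit 0x112022, nat_lit 0, nat_lit 4, nat_lit 0x48⟩ (.nil) (.nil)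
def t14_12064 : Tr := .node ⟨nat_lit 7, nat_lit 0x2000400060, nat_lit 0x1011210, nat_lit 0, nat_lit 4, nat_lit 0x49⟩ (.nil) (.nil)
def t14_7968 : Tr := .node ⟨nat_lit 7, nat_lit 0x40004000480048, nat_lit 0x111121, nat_lit 5, nat_lit 4, nat_lit 0x49⟩ (.nil) (.nil)
def t9_288 : Tr := .node ⟨nat_lit 5, nat_lit 0x80010, nat_lit 0x20320, nat_lit 1, nat_lit 4, nat_lit 0x48⟩ (.node ⟨nat_lit 7, nat_lit 0x4000100020, nat_lit 0x32020, nat_lit 1, nat_lit 4, nat_lit 0x4b⟩ (.node ⟨nat_lit 7, nat_lit 0x4000200010, nat_lit 0x3000, nat_lit 0xb, nat_lit 4, nat_lit 0x4b⟩ (.node ⟨nat_lit 4, nat_lit 0x8000a, nat_lit 0x1212, nat_lit 8, nat_lit 4, nat_lit 0x47⟩ (.node ⟨nat_lit 6, nat_lit 0x10002000200024, nat_lit 0x200121, nat_lit 1, nat_lit 4, nat_lit 0x48⟩ (t14_288) (t14_8480)) (.node ⟨nat_lit 6, nat_lit 0x2000200030, nat_lit 0x111103, nat_lit 2, nat_lit 3, nat_lit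 0x47⟩ (t14_4384) (t14_12576))) (.node ⟨nat_lit 6, nat_lit 0x800300038, nat_lit 0x201022, nat_lit 0, nat_lit 4, nat_lit 0x46⟩ (.node ⟨nat_lit 6, nat_lit 0x20002000100038, nat_lit 0x12133, nat_lit 2, nat_lit 4, nat_lit 0x47⟩ (t14_2336) (t14_10528)) (.node ⟨nat_lit 8, nat_lit 0xc000c000c0, nat_lit 0x211210, nat_lit 1, nat_lit 4, nat_lit 0x49⟩ (t14_6432) (t14_14624)))) (.node ⟨nat_lit 7, nat_lit 0x10002000400062, nat_lit 0x2100111, nat_lit 1, nat_lit 4, nat_lit 0x48⟩ (.node ⟨nat_lit 6, nat_lit 0x2000240018, nat_lit 0x221102, nat_lit 3, nat_lit 4, nat_lit 0x49⟩ (.node ⟨nat_lit 6, nat_lit 0x2000100024, nat_lit 0x112103, nat_lit 1, nat_lit 4, nat_lit 0x48⟩ (t14_1312) (t14_9504)) (.node ⟨nat_lit 7, nat_lit 0x40004000600068, nat_lit 0x112022, nat_lit 2, nat_lit 4, nat_lit 0x48⟩ (t14_5408) (t14_13600))) (.node ⟨nat_lit 7, nat_lit 0x4000200010, nat_lit 0x12020,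 nat_lit 1, nat_lit 4, nat_lit 0x49⟩ (.node ⟨nat_lit 6, nat_lit 0x2000100034, nat_lit 0x212230, nat_lit 0, nat_lit 4, nat_lit 0x49⟩ (t14_3360) (t14_11552)) (.node ⟨nat_lit 8, nat_lit 0x200040008000c0, nat_lit 0x11010112, nat_lit 1, nat_lit 4, nat_lit 0x4a⟩ (t14_7456) (.nil))))) (.node ⟨nat_lit 6, nat_lit 0x200020, nat_lit 0x32110, nat_lit 0, nat_lit 4, nat_lit 0x4a⟩ (.node ⟨nat_lit 7, nat_lit 0x40004000200048, nat_lit 0x211020, nat_lit 2, nat_lit 4, nat_lit 0x49⟩ (.node ⟨nat_lit 5, nat_lit 0x10, nat_lit 0x1100, nat_lit 1, nat_lit 4, nat_lit 0x46⟩ (.node ⟨nat_lit 6, nat_lit 0x2000080030, nat_lit 0x22202, nat_lit 0, nat_lit 4, nat_lit 0x48⟩ (t14_800) (t14_8992)) (.node ⟨nat_lit 8, nat_lit 0x40008000800088006000d0, nat_lit 0x11221000, nat_lit 0, nat_lit 4, nat_lit 0x48⟩ (t14_4896) (t14_13088))) (.node ⟨nat_lit 6, nat_lit 0x2000080030, nat_lit 0x1210,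 nat_lit 1, nat_lit 4, nat_lit 0x46⟩ (.node ⟨nat_lit 6, nat_lit 0x200010, nat_lit 0x11120, nat_lit 0, nat_lit 4, nat_lit 0x48⟩ (t14_2848) (t14_11040)) (.node ⟨nat_lit 7, nat_lit 0x10001000500060, nat_lit 0x1102022, nat_lit 0, nat_lit 4, nat_lit 0x48⟩ (t14_6944) (t14_15136)))) (.node ⟨nat_lit 8, nat_lit 0x80004000200020, nat_lit 0x110021, nat_lit 1, nat_lit 4, nat_lit 0x4a⟩ (.node ⟨nat_lit 6, nat_lit 0x200030, nat_lit 0x201121, nat_lit 1, nat_lit 3, nat_lit 0x48⟩ (.node ⟨nat_lit 6, nat_lit 0x20001000100028, nat_lit 0x1201, nat_lit 1, nat_lit 4, nat_lit 0x45⟩ (t14_1824) (t14_10016)) (.node ⟨nat_lit 7, nat_lit 0x1000600050, nat_lit 0x12012, nat_lit 1, nat_lit 4, nat_lit 0x48⟩ (t14_5920) (t14_14112))) (.node ⟨nat_lit 7, nat_lit 0x1000180060, nat_lit 0x2011222, nat_lit 0, nat_lit 4, nat_lit 0x49⟩ (.node ⟨nat_lit 6, nat_lit 0x800300038, nat_lit 0x111203,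 nat_lit 1, nat_lit 4, nat_lit 0x47⟩ (t14_3872) (t14_12064)) (.node ⟨nat_lit 7, nat_lit 0x3000500060, nat_lit 0x1011200, nat_lit 1, nat_lit 4, nat_lit 0x47⟩ (t14_7968) (.nil)))))
def t14_160 : Tr := .node ⟨nat_lit 7, nat_lit 0x1000500060, nat_lit 0x11211, nat_lit 1, nat_lit 4, nat_lit 0x48⟩ (.nil) (.nil)
def t14_8352 : Tr := .node ⟨nat_lit 7, nat_lit 0x40001000480060, nat_lit 0x12030, nat_lit 4, nat_lit 4, nat_lit 0x48⟩ (.nil) (.nil)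
def t14_4256 : Tr := .node ⟨nat_lit 7, nat_lit 0x40002000480068, nat_lit 0x2020200, nat_lit 1, nat_lit 4, nat_lit 0x48⟩ (.nil) (.nil)
def t14_12448 : Tr := .node ⟨nat_lit 8, nat_lit 0x80002000c000e0, nat_lit 0x10113, nat_lit 0, nat_lit 4, nat_lit 0x47⟩ (.nil) (.nil)
def t14_2208 : Tr := .node ⟨nat_lit 7, nat_lit 0x20002000400040, nat_lit 0x111022, nat_lit 0, nat_lit 4, nat_lit 0x49⟩ (.nil) (.nil)
def t14_10400 : Tr := .node ⟨nat_lit 7, nat_lit 0x40002000480048, nat_lit 0x1010200, nat_lit 1, nat_lit 4, nat_lit 0x47⟩ (.nil) (.nil)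
def t14_6304 : Tr := .node ⟨nat_lit 5, nat_lit 0x1000100018, nat_lit 0x1210, nat_lit 7, nat_lit 4, nat_lit 0x47⟩ (.nil) (.nil)
def t14_14496 : Tr := .node ⟨nat_lit 6, nat_lit 0x2000200024, nat_lit 0x11112, nat_lit 4, nat_lit 4, nat_lit 0x48⟩ (.nil) (.nil)
def t14_1184 : Tr := .node ⟨nat_lit 6, nat_lit 0x1000280034, nat_lit 0x11011, nat_lit 3, nat_lit 4, nat_lit 0x46⟩ (.nil) (.nil)
def t14_9376 : Tr := .node ⟨nat_lit 8, nat_lit 0x800020004000a000c4, nat_lit 0x1121021, nat_lit 0, nat_lit 4, nat_lit 0x48⟩ (.nil) (.nil)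
def t14_5280 : Tr := .node ⟨nat_lit 6, nat_lit 0x10002000240030, nat_lit 0x212110, nat_lit 2, nat_lit 4, nat_lit 0x48⟩ (.nil) (.nil)
def t14_13472 : Tr := .node ⟨nat_lit 7, nat_lit 0x1000500060, nat_lit 0x100032, nat_lit 0, nat_lit 4, nat_lit 0x47⟩ (.nil) (.nil)
def t14_3232 : Tr := .node ⟨nat_lit 7, nat_lit 0x5000180060, nat_lit 0x102202, nat_lit 0, nat_lit 4, nat_lit 0x47⟩ (.nil) (.nil)
def t14_11424 : Tr := .node ⟨nat_lit 7, nat_lit 0x400020005000700070, nat_lit 0x1011220, nat_lit 1, nat_lit 4, nat_lit 0x46⟩ (.nil) (.nil)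
def t14_7328 : Tr := .node ⟨nat_lit 7, nat_lit 0x20001000100040, nat_lit 0x1212110, nat_lit 0, nat_lit 4, nat_lit 0x4a⟩ (.nil) (.nil)
def t14_15520 : Tr := .node ⟨nat_lit 8, nat_lit 0x80002000c000a000d0, nat_lit 0x1020102, nat_lit 0, nat_lit 4, nat_lit 0x47⟩ (.nil) (.nil)
def t14_672 : Tr := .node ⟨nat_lit 4, nat_lit 0x40008, nat_lit 0x113, nat_lit 5, nat_lit 4, nat_lit 0x46⟩ (.nil) (.nil)
def t14_8864 : Tr := .node ⟨nat_lit 8, nat_lit 0x400080002000880088, nat_lit 0x101131, nat_lit 1, nat_lit 4, nat_lit 0x48⟩ (.nil) (.nil)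
def t14_4768 : Tr := .node ⟨nat_lit 7, nat_lit 0x40005000300060, nat_lit 0x10123, nat_lit 0, nat_lit 4, nat_lit 0x46⟩ (.nil) (.nil)
def t14_12960 : Tr := .node ⟨nat_lit 6, nat_lit 0x200030, nat_lit 0x11120, nat_lit 5, nat_lit 4, nat_lit 0x49⟩ (.nil) (.nil)
def t14_2720 : Tr := .node ⟨nat_lit 6, nat_lit 0x300028, nat_lit 0x11001, nat_lit 0, nat_lit 4, nat_lit 0x46⟩ (.nil) (.nil)
def t14_10912 : Tr := .node ⟨nat_lit 7, nat_lit 0x50005000300060, nat_lit 0x102023, nat_lit 0, nat_lit 4, nat_lit 0x46⟩ (.nil) (.nil)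
def t14_6816 : Tr := .node ⟨nat_lit 7, nat_lit 0x600060, nat_lit 0x1011110, nat_lit 1, nat_lit 4, nat_lit 0x49⟩ (.nil) (.nil)
def t14_15008 : Tr := .node ⟨nat_lit 9, nat_lit 0x4001000100011001100180, nat_lit 0x10010111, nat_lit 3, nat_lit 4, nat_lit 0x49⟩ (.nil) (.nil)
def t14_1696 : Tr := .node ⟨nat_lit 8, nat_lit 0x800040009000d000e0, nat_lit 0x111022, nat_lit 0, nat_lit 4, nat_lit 0x46⟩ (.nil) (.nil)
def t14_9888 : Tr := .node ⟨nat_lit 7, nat_lit 0x400020002000500060, nat_lit 0x1003102, nat_lit 3, nat_lit 4, nat_lit 0x48⟩ (.nil) (.nil)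
def t14_5792 : Tr := .node ⟨nat_lit 7, nat_lit 0x600050, nat_lit 0x11112, nat_lit 3, nat_lit 4, nat_lit 0x49⟩ (.nil) (.nil)
def t14_13984 : Tr := .node ⟨nat_lit 6, nat_lit 0x1000080020, nat_lit 0x100221, nat_lit 1, nat_lit 4, nat_lit 0x47⟩ (.nil) (.nil)
def t14_3744 : Tr := .node ⟨nat_lit 6, nat_lit 0x20001000100030, nat_lit 0x201102, nat_lit 1, nat_lit 3, nat_lit 0x46⟩ (.nil) (.nil)
def t14_11936 : Tr := .node ⟨nat_lit 5, nat_lit 0x40018, nat_lit 0x30030, nat_lit 1, nat_lit 3, nat_lit 0x46⟩ (.nil) (.nil)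
def t14_7840 : Tr := .node ⟨nat_lit 5, nat_lit 0x10001000140018, nat_lit 0x1110, nat_lit 9, nat_lit 4, nat_lit 0x46⟩ (.nil) (.nil)
def t9_160 : Tr := .node ⟨nat_lit 3, nat_lit 0, nat_lit 0x321, nat_lit 0xb, nat_lit 4, nat_lit 0x49⟩ (.node ⟨nat_lit 6, nat_lit 0x300030, nat_lit 0x103121, nat_lit 1, nat_lit 4, nat_lit 0x48⟩ (.node ⟨nat_lit 6, nat_lit 0x280030, nat_lit 0x13112, nat_lit 0, nat_lit 4, nat_lit 0x48⟩ (.node ⟨nat_lit 3, nat_lit 4, nat_lit 0x120, nat_lit 8, nat_lit 4, nat_lit 0x46⟩ (.node ⟨nat_lit 7, nat_lit 0x400040004000200050, nat_lit 0x211121, nat_lit 3, nat_lit 4, nat_lit 0x49⟩ (t14_160) (t14_8352)) (.node ⟨nat_lit 7, nat_lit 0x40004000200060, nat_lit 0x112003, nat_lit 3, nat_lit 4, nat_lit 0x49⟩ (t14_4256) (t14_12448))) (.node ⟨nat_lit 2, nat_lit 0, nat_lit 0x33, nat_lit 0xa, nat_lit 3, nat_lit 0x47⟩ (.node ⟨nat_lit 6, nat_lit 0x2000280030,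 nat_lit 0x22031, nat_lit 0, nat_lit 3, nat_lit 0x46⟩ (t14_2208) (t14_10400)) (.node ⟨nat_lit 6, nat_lit 0x2000200030, nat_lit 0x13102, nat_lit 5, nat_lit 4, nat_lit 0x49⟩ (t14_6304) (t14_14496)))) (.node ⟨nat_lit 6, nat_lit 0x20, nat_lit 0x211111, nat_lit 3, nat_lit 4, nat_lit 0x4b⟩ (.node ⟨nat_lit 7, nat_lit 0x1000400060, nat_lit 0x2101021, nat_lit 1, nat_lit 4, nat_lit 0x4a⟩ (.node ⟨nat_lit 5, nat_lit 0x1000100008, nat_lit 0x1104, nat_lit 3, nat_lit 3, nat_lit 0x46⟩ (t14_1184) (t14_9376)) (.node ⟨nat_lit 7, nat_lit 0x40002000480060, nat_lit 0x1112211, nat_lit 0, nat_lit 4, nat_lit 0x49⟩ (t14_5280) (t14_13472))) (.node ⟨nat_lit 7, nat_lit 0x20002000400068, nat_lit 0x1012020, nat_lit 1, nat_lit 4, nat_lit 0x48⟩ (.node ⟨nat_lit 6, nat_lit 0x2000080030, nat_lit 0x102320, nat_lit 2, nat_lit 4, nat_lit 0x49⟩ (t14_3232) (t14_11424)) (.node ⟨nat_lit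 6, nat_lit 0x200030, nat_lit 0x101110, nat_lit 2, nat_lit 4, nat_lit 0x48⟩ (t14_7328) (t14_15520))))) (.node ⟨nat_lit 6, nat_lit 0x2000080030, nat_lit 0x113121, nat_lit 0, nat_lit 4, nat_lit 0x49⟩ (.node ⟨nat_lit 6, nat_lit 0x2000080030, nat_lit 0x112121, nat_lit 0, nat_lit 4, nat_lit 0x48⟩ (.node ⟨nat_lit 6, nat_lit 0x2000100010, nat_lit 0x2211, nat_lit 0, nat_lit 4, nat_lit 0x47⟩ (.node ⟨nat_lit 6, nat_lit 0x1000200030, nat_lit 0x113201, nat_lit 1, nat_lit 4, nat_lit 0x49⟩ (t14_672) (t14_8864)) (.node ⟨nat_lit 6, nat_lit 0x2000200030, nat_lit 0x22201, nat_lit 0, nat_lit 3, nat_lit 0x47⟩ (t14_4768) (t14_12960))) (.node ⟨nat_lit 6, nat_lit 0x8000c0030, nat_lit 0x110001, nat_lit 0, nat_lit 4, nat_lit 0x45⟩ (.node ⟨nat_lit 5, nat_lit 0x1000080018, nat_lit 0x11140, nat_lit 1, nat_lit 3, nat_lit 0x46⟩ (t14_2720) (t14_10912)) (.node ⟨nat_lit 7, nat_lit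 0x20004000400068, nat_lit 0x112110, nat_lit 1, nat_lit 4, nat_lit 0x48⟩ (t14_6816) (t14_15008)))) (.node ⟨nat_lit 5, nat_lit 0x1000080008, nat_lit 0x1032, nat_lit 4, nat_lit 4, nat_lit 0x48⟩ (.node ⟨nat_lit 6, nat_lit 0x200030, nat_lit 0x21131, nat_lit 1, nat_lit 4, nat_lit 0x49⟩ (.node ⟨nat_lit 4, nat_lit 0x8000c, nat_lit 0x21, nat_lit 4, nat_lit 4, nat_lit 0x44⟩ (t14_1696) (t14_9888)) (.node ⟨nat_lit 7, nat_lit 0x6000600060, nat_lit 0x22200, nat_lit 3, nat_lit 4, nat_lit 0x48⟩ (t14_5792) (t14_13984))) (.node ⟨nat_lit 7, nat_lit 0x20002000400060, nat_lit 0x22100, nat_lit 0, nat_lit 4, nat_lit 0x48⟩ (.node ⟨nat_lit 5, nat_lit 0x140018, nat_lit 0x10103, nat_lit 4, nat_lit 4, nat_lit 0x46⟩ (t14_3744) (t14_11936)) (.node ⟨nat_lit 7, nat_lit 0x5000500060, nat_lit 0x1001212, nat_lit 0, nat_lit 4, nat_lit 0x47⟩ (t14_7840) (.nil)))))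
def t14_416 : Tr := .node ⟨nat_lit 7, nat_lit 0x4800600070, nat_lit 0x1020102, nat_lit 1, nat_lit 4, nat_lit 0x47⟩ (.nil) (.nil)
def t14_8608 : Tr := .node ⟨nat_lit 7, nat_lit 0x20003000500068, nat_lit 0x2020, nat_lit 0, nat_lit 4, nat_lit 0x45⟩ (.nil) (.nil)
def t14_4512 : Tr := .node ⟨nat_lit 6, nat_lit 0x10002000240030, nat_lit 0x112201, nat_lit 4, nat_lit 4, nat_lit 0x48⟩ (.nil) (.nil)
def t14_12704 : Tr := .node ⟨nat_lit 7, nat_lit 0x3000500060, nat_lit 0x12200, nat_lit 1, nat_lit 4, nat_lit 0x47⟩ (.nil) (.nil)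
def t14_2464 : Tr := .node ⟨nat_lit 6, nat_lit 0x2000300030, nat_lit 0x2121, nat_lit 3, nat_lit 4, nat_lit 0x47⟩ (.nil) (.nil)
def t14_10656 : Tr := .node ⟨nat_lit 7, nat_lit 0x40003000500060, nat_lit 0x21, nat_lit 0, nat_lit 4, nat_lit 0x45⟩ (.nil) (.nil)
def t14_6560 : Tr := .node ⟨nat_lit 7, nat_lit 0x2000400042, nat_lit 0x1011020, nat_lit 0, nat_lit 4, nat_lit 0x49⟩ (.nil) (.nil)
def t14_14752 : Tr := .node ⟨nat_lit 8, nat_lit 0x800040002000c000a0, nat_lit 0x110112, nat_lit 2, nat_lit 4, nat_lit 0x48⟩ (.nil) (.nil)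
def t14_1440 : Tr := .node ⟨nat_lit 7, nat_lit 0x40004000100060, nat_lit 0x13110, nat_lit 0, nat_lit 4, nat_lit 0x48⟩ (.nil) (.nil)
def t14_9632 : Tr := .node ⟨nat_lit 5, nat_lit 0x1000100008, nat_lit 0x201, nat_lit 5, nat_lit 4, nat_lit 0x46⟩ (.nil) (.nil)
def t14_5536 : Tr := .node ⟨nat_lit 6, nat_lit 0x2000300034, nat_lit 0x1131, nat_lit 3, nat_lit 4, nat_lit 0x46⟩ (.nil) (.nil)
def t14_13728 : Tr := .node ⟨nat_lit 7, nat_lit 0x40004800480030, nat_lit 0x110, nat_lit 0, nat_lit 4, nat_lit 0x45⟩ (.nil) (.nil)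
def t14_3488 : Tr := .node ⟨nat_lit 8, nat_lit 0x800040002000c000a0, nat_lit 0x20001, nat_lit 1, nat_lit 4, nat_lit 0x47⟩ (.nil) (.nil)
def t14_11680 : Tr := .node ⟨nat_lit 7, nat_lit 0x40001000600060, nat_lit 0x12110, nat_lit 5, nat_lit 4, nat_lit 0x48⟩ (.nil) (.nil)
def t14_7584 : Tr := .node ⟨nat_lit 6, nat_lit 0x800300030, nat_lit 0x210, nat_lit 3, nat_lit 4, nat_lit 0x45⟩ (.nil) (.nil)
def t14_928 : Tr := .node ⟨nat_lit 6, nat_lit 0x20002000200010, nat_lit 0x12221, nat_lit 4, nat_lit 4, nat_lit 0x49⟩ (.nil) (.nil)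
def t14_9120 : Tr := .node ⟨nat_lit 9, nat_lit 0x100010000800110012001c0, nat_lit 0x11010003, nat_lit 0, nat_lit 4, nat_lit 0x48⟩ (.nil) (.nil)
def t14_5024 : Tr := .node ⟨nat_lit 6, nat_lit 0x800300028, nat_lit 0x1111, nat_lit 2, nat_lit 4, nat_lit 0x46⟩ (.nil) (.nil)
def t14_13216 : Tr := .node ⟨nat_lit 7, nat_lit 0x200040004000400068, nat_lit 0x30100, nat_lit 3, nat_lit 4, nat_lit 0x47⟩ (.nil) (.nil)
def t14_2976 : Tr := .node ⟨nat_lit 8, nat_lit 0x40008000200010, nat_lit 0x12011100, nat_lit 0, nat_lit 3, nat_lit 0x49⟩ (.nil) (.nil)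
def t14_11168 : Tr := .node ⟨nat_lit 7, nat_lit 0x20006000500050, nat_lit 0x111120, nat_lit 1, nat_lit 4, nat_lit 0x47⟩ (.nil) (.nil)
def t14_7072 : Tr := .node ⟨nat_lit 6, nat_lit 0x20002800300030, nat_lit 0x12111, nat_lit 5, nat_lit 4, nat_lit 0x47⟩ (.nil) (.nil)
def t14_15264 : Tr := .node ⟨nat_lit 7, nat_lit 0x40001000600050, nat_lit 0x10112, nat_lit 5, nat_lit 4, nat_lit 0x48⟩ (.nil) (.nil)
def t14_1952 : Tr := .node ⟨nat_lit 7, nat_lit 0x4800600050, nat_lit 0x20212, nat_lit 1, nat_lit 4, nat_lit 0x47⟩ (.nil) (.nil)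
def t14_10144 : Tr := .node ⟨nat_lit 6, nat_lit 0x800300030, nat_lit 0x100210, nat_lit 2, nat_lit 4, nat_lit 0x46⟩ (.nil) (.nil)
def t14_6048 : Tr := .node ⟨nat_lit 7, nat_lit 0x400040, nat_lit 0x211120, nat_lit 1, nat_lit 4, nat_lit 0x4b⟩ (.nil) (.nil)
def t14_14240 : Tr := .node ⟨nat_lit 8, nat_lit 0x800040004000a000a000c0, nat_lit 0x20101, nat_lit 0, nat_lit 4, nat_lit 0x46⟩ (.nil) (.nil)
def t14_4000 : Tr := .node ⟨nat_lit 7, nat_lit 0x1800500060, nat_lit 0x10102, nat_lit 1, nat_lit 4, nat_lit 0x46⟩ (.nil) (.nil)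
def t14_12192 : Tr := .node ⟨nat_lit 7, nat_lit 0x40001000100060, nat_lit 0x2111, nat_lit 1, nat_lit 4, nat_lit 0x47⟩ (.nil) (.nil)
def t14_8096 : Tr := .node ⟨nat_lit 6, nat_lit 0x2000240030, nat_lit 0x1140, nat_lit 2, nat_lit 4, nat_lit 0x47⟩ (.nil) (.nil)
def t9_416 : Tr := .node ⟨nat_lit 6, nat_lit 0x1000200022, nat_lit 0x321211, nat_lit 0, nat_lit 4, nat_lit 0x4a⟩ (.node ⟨nat_lit 5, nat_lit 0x10, nat_lit 0x13210, nat_lit 5, nat_lit 3, nat_lit 0x49⟩ (.node ⟨nat_lit 4, nat_lit 0xc, nat_lit 0x2022, nat_lit 3, nat_lit 4, nat_lit 0x46⟩ (.node ⟨nat_lit 6, nat_lit 0x280030, nat_lit 0x110022, nat_lit 0, nat_lit 4, nat_lit 0x47⟩ (.node ⟨nat_lit 5, nat_lit 0x140018, nat_lit 0x3011, nat_lit 2, nat_lit 4, nat_lit 0x46⟩ (t14_416) (t14_8608)) (.node ⟨nat_lit 6, nat_lit 0x20002000100028, nat_lit 0x112011, nat_lit 8, nat_lit 4, nat_lit 0x49⟩ (t14_4512) (t14_12704)))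 (.node ⟨nat_lit 6, nat_lit 0x1000200020, nat_lit 0x121110, nat_lit 2, nat_lit 4, nat_lit 0x49⟩ (.node ⟨nat_lit 7, nat_lit 0x4000400020, nat_lit 0x111101, nat_lit 0, nat_lit 4, nat_lit 0x49⟩ (t14_2464) (t14_10656)) (.node ⟨nat_lit 7, nat_lit 0x40002000480064, nat_lit 0x121020, nat_lit 1, nat_lit 4, nat_lit 0x47⟩ (t14_6560) (t14_14752)))) (.node ⟨nat_lit 6, nat_lit 0x30000c, nat_lit 0x102012, nat_lit 1, nat_lit 4, nat_lit 0x47⟩ (.node ⟨nat_lit 7, nat_lit 0x20004000440030, nat_lit 0x2010102, nat_lit 1, nat_lit 4, nat_lit 0x48⟩ (.node ⟨nat_lit 5, nat_lit 0x180018, nat_lit 0x100, nat_lit 0, nat_lit 3, nat_lit 0x43⟩ (t14_1440) (t14_9632)) (.node ⟨nat_lit 7, nat_lit 0x10001000500060, nat_lit 0x1102012, nat_lit 0, nat_lit 3, nat_lit 0x46⟩ (t14_5536) (t14_13728))) (.node ⟨nat_lit 5, nat_lit 0x100010, nat_lit 0x11130, nat_lit 5, nat_lit 4, nat_lit 0x49⟩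 (.node ⟨nat_lit 5, nat_lit 0x1000080018, nat_lit 0x1030, nat_lit 1, nat_lit 3, nat_lit 0x45⟩ (t14_3488) (t14_11680)) (.node ⟨nat_lit 7, nat_lit 0x1000400060, nat_lit 0x1101021, nat_lit 5, nat_lit 4, nat_lit 0x4a⟩ (t14_7584) (.nil))))) (.node ⟨nat_lit 6, nat_lit 0x200032, nat_lit 0x23111, nat_lit 1, nat_lit 4, nat_lit 0x49⟩ (.node ⟨nat_lit 4, nat_lit 0xc, nat_lit 0x2211, nat_lit 3, nat_lit 4, nat_lit 0x47⟩ (.node ⟨nat_lit 7, nat_lit 0x400040, nat_lit 0x111110, nat_lit 1, nat_lit 4, nat_lit 0x4a⟩ (.node ⟨nat_lit 6, nat_lit 0x300030, nat_lit 0x112231, nat_lit 0, nat_lit 4, nat_lit 0x49⟩ (t14_928) (t14_9120)) (.node ⟨nat_lit 5, nat_lit 0x10, nat_lit 0x12220, nat_lit 7, nat_lit 4, nat_lit 0x4b⟩ (t14_5024) (t14_13216))) (.node ⟨nat_lit 5, nat_lit 0x100018, nat_lit 0x11120, nat_lit 6, nat_lit 4, nat_lit 0x48⟩ (.node ⟨nat_lit 6, nat_lit 0x200010, nat_lit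 0x111121, nat_lit 2, nat_lit 3, nat_lit 0x48⟩ (t14_2976) (t14_11168)) (.node ⟨nat_lit 8, nat_lit 0x80004000a000d000c8, nat_lit 0x1112120, nat_lit 0, nat_lit 4, nat_lit 0x47⟩ (t14_7072) (t14_15264)))) (.node ⟨nat_lit 8, nat_lit 0x80004000200010, nat_lit 0x20001, nat_lit 1, nat_lit 4, nat_lit 0x49⟩ (.node ⟨nat_lit 6, nat_lit 0x300038, nat_lit 0x201112, nat_lit 0, nat_lit 4, nat_lit 0x47⟩ (.node ⟨nat_lit 7, nat_lit 0x500060, nat_lit 0x1201113, nat_lit 0, nat_lit 4, nat_lit 0x4a⟩ (t14_1952) (t14_10144)) (.node ⟨nat_lit 8, nat_lit 0x80002000c000c0, nat_lit 0x122000, nat_lit 1, nat_lit 4, nat_lit 0x49⟩ (t14_6048) (t14_14240))) (.node ⟨nat_lit 7, nat_lit 0x200020004000440060, nat_lit 0x1021110, nat_lit 0, nat_lit 4, nat_lit 0x47⟩ (.node ⟨nat_lit 5, nat_lit 0x800100010, nat_lit 0x100, nat_lit 2, nat_lit 3, nat_lit 0x44⟩ (t14_4000) (t14_12192)) (.node ⟨nat_lit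 8, nat_lit 0x4000400080008800c000e0, nat_lit 0x10011021, nat_lit 1, nat_lit 4, nat_lit 0x47⟩ (t14_8096) (.nil)))))
def t14_96 : Tr := .node ⟨nat_lit 7, nat_lit 0x4000400060, nat_lit 0x1121111, nat_lit 0, nat_lit 4, nat_lit 0x4a⟩ (.nil) (.nil)
def t14_8288 : Tr := .node ⟨nat_lit 7, nat_lit 0x40001000100060, nat_lit 0x2100, nat_lit 2, nat_lit 4, nat_lit 0x47⟩ (.nil) (.nil)
def t14_4192 : Tr := .node ⟨nat_lit 8, nat_lit 0x8000200090009000c0, nat_lit 0x1111201, nat_lit 1, nat_lit 4, nat_lit 0x48⟩ (.nil) (.nil)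
def t14_12384 : Tr := .node ⟨nat_lit 7, nat_lit 0x40001000100060, nat_lit 0x1001310, nat_lit 1, nat_lit 4, nat_lit 0x48⟩ (.nil) (.nil)
def t14_2144 : Tr := .node ⟨nat_lit 6, nat_lit 0x2000080030, nat_lit 0x121202, nat_lit 2, nat_lit 4, nat_lit 0x49⟩ (.nil) (.nil)
def t14_10336 : Tr := .node ⟨nat_lit 8, nat_lit 0x2000c000a00030, nat_lit 0x10012102, nat_lit 0, nat_lit 4, nat_lit 0x48⟩ (.nil) (.nil)
def t14_6240 : Tr := .node ⟨nat_lit 8, nat_lit 0x8000400020, nat_lit 0x11000, nat_lit 3, nat_lit 4, nat_lit 0x4a⟩ (.nil) (.nil)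
def t14_14432 : Tr := .node ⟨nat_lit 8, nat_lit 0x8000800020002000c0, nat_lit 0x11210, nat_lit 1, nat_lit 4, nat_lit 0x48⟩ (.nil) (.nil)
def t14_1120 : Tr := .node ⟨nat_lit 7, nat_lit 0x1000400020, nat_lit 0x111021, nat_lit 0, nat_lit 4, nat_lit 0x49⟩ (.nil) (.nil)
def t14_9312 : Tr := .node ⟨nat_lit 8, nat_lit 0x1000c000c000a0, nat_lit 0x1100221, nat_lit 0, nat_lit 4, nat_lit 0x48⟩ (.nil) (.nil)
def t14_5216 : Tr := .node ⟨nat_lit 9, nat_lit 0x10001000100008000800120, nat_lit 0x1211101, nat_lit 0, nat_lit 4, nat_lit 0x4a⟩ (.nil) (.nil)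
def t14_13408 : Tr := .node ⟨nat_lit 7, nat_lit 0x200040004000300048, nat_lit 0x2030, nat_lit 1, nat_lit 4, nat_lit 0x46⟩ (.nil) (.nil)
def t14_3168 : Tr := .node ⟨nat_lit 7, nat_lit 0x20005000680068, nat_lit 0x10121, nat_lit 0, nat_lit 4, nat_lit 0x44⟩ (.nil) (.nil)
def t14_11360 : Tr := .node ⟨nat_lit 7, nat_lit 0x20004000100060, nat_lit 0x11, nat_lit 1, nat_lit 3, nat_lit 0x45⟩ (.nil) (.nil)
def t14_7264 : Tr := .node ⟨nat_lit 6, nat_lit 0x3000300028, nat_lit 0x12201, nat_lit 3, nat_lit 4, nat_lit 0x47⟩ (.nil) (.nil)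
def t14_15456 : Tr := .node ⟨nat_lit 8, nat_lit 0x4000400020008000c0, nat_lit 0x111100, nat_lit 0, nat_lit 4, nat_lit 0x48⟩ (.nil) (.nil)
def t14_608 : Tr := .node ⟨nat_lit 7, nat_lit 0x400060, nat_lit 0x21002, nat_lit 0, nat_lit 4, nat_lit 0x49⟩ (.nil) (.nil)
def t14_8800 : Tr := .node ⟨nat_lit 7, nat_lit 0x400020002000280050, nat_lit 0x1001040, nat_lit 0, nat_lit 4, nat_lit 0x47⟩ (.nil) (.nil)
def t14_4704 : Tr := .node ⟨nat_lit 6, nat_lit 0x300030, nat_lit 0x111010, nat_lit 0, nat_lit 4, nat_lit 0x47⟩ (.nil) (.nil)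
def t14_12896 : Tr := .node ⟨nat_lit 7, nat_lit 0x4000600060, nat_lit 0x11030, nat_lit 2, nat_lit 4, nat_lit 0x48⟩ (.nil) (.nil)
def t14_2656 : Tr := .node ⟨nat_lit 6, nat_lit 0x800300030, nat_lit 0x1032, nat_lit 3, nat_lit 4, nat_lit 0x46⟩ (.nil) (.nil)
def t14_10848 : Tr := .node ⟨nat_lit 8, nat_lit 0x8000800040009000d0, nat_lit 0x120002, nat_lit 1, nat_lit 4, nat_lit 0x48⟩ (.nil) (.nil)
def t14_6752 : Tr := .node ⟨nat_lit 7, nat_lit 0x40002000480030, nat_lit 0x1020120, nat_lit 0, nat_lit 4, nat_lit 0x47⟩ (.nil) (.nil)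
def t14_14944 : Tr := .node ⟨nat_lit 8, nat_lit 0x800080004000a000900090, nat_lit 0x1110111, nat_lit 3, nat_lit 4, nat_lit 0x48⟩ (.nil) (.nil)
def t14_1632 : Tr := .node ⟨nat_lit 8, nat_lit 0x40005000c000a000d0, nat_lit 0x1110220, nat_lit 0, nat_lit 4, nat_lit 0x47⟩ (.nil) (.nil)
def t14_9824 : Tr := .node ⟨nat_lit 8, nat_lit 0x200040004000a000c0, nat_lit 0x21100, nat_lit 0, nat_lit 4, nat_lit 0x47⟩ (.nil) (.nil)
def t14_5728 : Tr := .node ⟨nat_lit 7, nat_lit 0x40001000500060, nat_lit 0x101022, nat_lit 3, nat_lit 4, nat_lit 0x47⟩ (.nil) (.nil)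
def t14_13920 : Tr := .node ⟨nat_lit 7, nat_lit 0x200040003000480068, nat_lit 0x101200, nat_lit 0, nat_lit 4, nat_lit 0x45⟩ (.nil) (.nil)
def t14_3680 : Tr := .node ⟨nat_lit 6, nat_lit 0x1000280034, nat_lit 0x22012, nat_lit 2, nat_lit 4, nat_lit 0x47⟩ (.nil) (.nil)
def t14_11872 : Tr := .node ⟨nat_lit 6, nat_lit 0x800200030, nat_lit 0x200010, nat_lit 0, nat_lit 3, nat_lit 0x46⟩ (.nil) (.nil)
def t14_7776 : Tr := .node ⟨nat_lit 6, nat_lit 0x2000100030, nat_lit 0x1022, nat_lit 7, nat_lit 4, nat_lit 0x48⟩ (.nil) (.nil)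
def t9_96 : Tr := .node ⟨nat_lit 5, nat_lit 0x10, nat_lit 0x11110, nat_lit 1, nat_lit 3, nat_lit 0x47⟩ (.node ⟨nat_lit 6, nat_lit 0x200020, nat_lit 0x132211, nat_lit 0, nat_lit 4, nat_lit 0x4b⟩ (.node ⟨nat_lit 6, nat_lit 0x1000200030, nat_lit 0x1310, nat_lit 1, nat_lit 4, nat_lit 0x47⟩ (.node ⟨nat_lit 6, nat_lit 0x80030, nat_lit 0x101211, nat_lit 3, nat_lit 4, nat_lit 0x49⟩ (.node ⟨nat_lit 6, nat_lit 0x2000100008, nat_lit 0x122013, nat_lit 0, nat_lit 4, nat_lit 0x4a⟩ (t14_96) (t14_8288)) (.node ⟨nat_lit 6, nat_lit 0x1000200034, nat_lit 0x21020, nat_lit 1, nat_lit 4, nat_lit 0x47⟩ (t14_4192) (t14_12384))) (.node ⟨nat_lit 4, nat_lit 0x8000c, nat_lit 0x2122, nat_lit 6, nat_lit 3, nat_lit 0x46⟩ (.node ⟨nat_lit 7, nat_lit 0x4000100060, nat_lit 0x1111301, nat_lit 0, nat_lit 3, nat_lit 0x48⟩ (t14_2144) (t14_10336)) (.node ⟨nat_lit 6, nat_lit 0x800200032,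 nat_lit 0x12021, nat_lit 1, nat_lit 4, nat_lit 0x47⟩ (t14_6240) (t14_14432)))) (.node ⟨nat_lit 4, nat_lit 8, nat_lit 0x222, nat_lit 6, nat_lit 4, nat_lit 0x48⟩ (.node ⟨nat_lit 7, nat_lit 0x10001000200040, nat_lit 0x1121111, nat_lit 1, nat_lit 4, nat_lit 0x4a⟩ (.node ⟨nat_lit 6, nat_lit 0x800300030, nat_lit 0x112031, nat_lit 0, nat_lit 3, nat_lit 0x46⟩ (t14_1120) (t14_9312)) (.node ⟨nat_lit 7, nat_lit 0x10005000600060, nat_lit 0x112221, nat_lit 0, nat_lit 4, nat_lit 0x47⟩ (t14_5216) (t14_13408))) (.node ⟨nat_lit 7, nat_lit 0x40004000100020, nat_lit 0x121010, nat_lit 2, nat_lit 4, nat_lit 0x49⟩ (.node ⟨nat_lit 7, nat_lit 0x4800600070, nat_lit 0x1020103, nat_lit 1, nat_lit 4, nat_lit 0x47⟩ (t14_3168) (t14_11360)) (.node ⟨nat_lit 7, nat_lit 0x10002000500060, nat_lit 0x1001120, nat_lit 0, nat_lit 4, nat_lit 0x46⟩ (t14_7264) (t14_15456))))) (.node ⟨nat_lit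 4, nat_lit 0x80004, nat_lit 0x1302, nat_lit 5, nat_lit 4, nat_lit 0x48⟩ (.node ⟨nat_lit 5, nat_lit 0x800100012, nat_lit 0x20021, nat_lit 7, nat_lit 4, nat_lit 0x48⟩ (.node ⟨nat_lit 6, nat_lit 0x2000080030, nat_lit 0x2001, nat_lit 1, nat_lit 4, nat_lit 0x46⟩ (.node ⟨nat_lit 7, nat_lit 0x40001000480060, nat_lit 0x2012120, nat_lit 0, nat_lit 4, nat_lit 0x49⟩ (t14_608) (t14_8800)) (.node ⟨nat_lit 7, nat_lit 0x20002000500068, nat_lit 0x1111220, nat_lit 0, nat_lit 4, nat_lit 0x48⟩ (t14_4704) (t14_12896))) (.node ⟨nat_lit 6, nat_lit 0x2000080030, nat_lit 0x101212, nat_lit 0, nat_lit 4, nat_lit 0x47⟩ (.node ⟨nat_lit 7, nat_lit 0x4000100060, nat_lit 0x1201203, nat_lit 1, nat_lit 4, nat_lit 0x4a⟩ (t14_2656) (t14_10848)) (.node ⟨nat_lit 9, nat_lit 0x80008001000100011000a000c0, nat_lit 0x111111100, nat_lit 0, nat_lit 4, nat_lit 0x49⟩ (t14_6752) (t14_14944))))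 (.node ⟨nat_lit 7, nat_lit 0x200040004800300068, nat_lit 0x2101100, nat_lit 1, nat_lit 4, nat_lit 0x47⟩ (.node ⟨nat_lit 5, nat_lit 0x140018, nat_lit 0x12200, nat_lit 1, nat_lit 3, nat_lit 0x46⟩ (.node ⟨nat_lit 6, nat_lit 0x1000200030, nat_lit 0x1100, nat_lit 1, nat_lit 3, nat_lit 0x45⟩ (t14_1632) (t14_9824)) (.node ⟨nat_lit 7, nat_lit 0x400040004000200050, nat_lit 0x210021, nat_lit 5, nat_lit 4, nat_lit 0x49⟩ (t14_5728) (t14_13920))) (.node ⟨nat_lit 7, nat_lit 0x10004000500064, nat_lit 0x1200022, nat_lit 0, nat_lit 4, nat_lit 0x47⟩ (.node ⟨nat_lit 5, nat_lit 0x40018, nat_lit 0x10010, nat_lit 0, nat_lit 3, nat_lit 0x44⟩ (t14_3680) (t14_11872)) (.node ⟨nat_lit 7, nat_lit 0x5000600060, nat_lit 0x1011121, nat_lit 3, nat_lit 4, nat_lit 0x48⟩ (t14_7776) (.nil)))))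
def t14_352 : Tr := .node ⟨nat_lit 7, nat_lit 0x40002000500068, nat_lit 0x1022021, nat_lit 0, nat_lit 4, nat_lit 0x48⟩ (.nil) (.nil)
def t14_8544 : Tr := .node ⟨nat_lit 7, nat_lit 0x200040004000480048, nat_lit 0x1031, nat_lit 7, nat_lit 4, nat_lit 0x48⟩ (.nil) (.nil)
def t14_4448 : Tr := .node ⟨nat_lit 7, nat_lit 0x200020004000400044, nat_lit 0x1121100, nat_lit 4, nat_lit 4, nat_lit 0x49⟩ (.nil) (.nil)
def t14_12640 : Tr := .node ⟨nat_lit 6, nat_lit 0x2800180030, nat_lit 0x100101, nat_lit 3, nat_lit 4, nat_lit 0x45⟩ (.nil) (.nil)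
def t14_2400 : Tr := .node ⟨nat_lit 5, nat_lit 0x10001c, nat_lit 0x12002, nat_lit 3, nat_lit 4, nat_lit 0x46⟩ (.nil) (.nil)
def t14_10592 : Tr := .node ⟨nat_lit 6, nat_lit 0x30000c, nat_lit 0x200000, nat_lit 1, nat_lit 4, nat_lit 0x46⟩ (.nil) (.nil)
def t14_6496 : Tr := .node ⟨nat_lit 6, nat_lit 0x800300030, nat_lit 0x101111, nat_lit 5, nat_lit 4, nat_lit 0x47⟩ (.nil) (.nil)
def t14_14688 : Tr := .node ⟨nat_lit 9, nat_lit 0x80010000a0014001900190, nat_lit 0x111111, nat_lit 0, nat_lit 4, nat_lit 0x46⟩ (.nil) (.nil)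
def t14_1376 : Tr := .node ⟨nat_lit 7, nat_lit 0x40001000600060, nat_lit 0x23010, nat_lit 0, nat_lit 3, nat_lit 0x46⟩ (.nil) (.nil)
def t14_9568 : Tr := .node ⟨nat_lit 4, nat_lit 0xc000c, nat_lit 0x2120, nat_lit 2, nat_lit 3, nat_lit 0x45⟩ (.nil) (.nil)
def t14_5472 : Tr := .node ⟨nat_lit 7, nat_lit 0x40002000240048, nat_lit 0x1010320, nat_lit 0, nat_lit 4, nat_lit 0x48⟩ (.nil) (.nil)
def t14_13664 : Tr := .node ⟨nat_lit 6, nat_lit 0x2000200010, nat_lit 0x3102, nat_lit 1, nat_lit 4, nat_lit 0x48⟩ (.nil) (.nil)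
def t14_3424 : Tr := .node ⟨nat_lit 6, nat_lit 0x800280030, nat_lit 0x20011, nat_lit 2, nat_lit 4, nat_lit 0x46⟩ (.nil) (.nil)
def t14_11616 : Tr := .node ⟨nat_lit 6, nat_lit 0x10002000300030, nat_lit 0x3110, nat_lit 5, nat_lit 4, nat_lit 0x47⟩ (.nil) (.nil)
def t14_7520 : Tr := .node ⟨nat_lit 6, nat_lit 0x20002000100010, nat_lit 0x1010, nat_lit 0xf, nat_lit 4, nat_lit 0x49⟩ (.nil) (.nil)
def t14_864 : Tr := .node ⟨nat_lit 7, nat_lit 0x40004000100060, nat_lit 0x112210, nat_lit 3, nat_lit 4, nat_lit 0x49⟩ (.nil) (.nil)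
def t14_9056 : Tr := .node ⟨nat_lit 5, nat_lit 0x1000080018, nat_lit 0x201, nat_lit 7, nat_lit 4, nat_lit 0x46⟩ (.nil) (.nil)
def t14_4960 : Tr := .node ⟨nat_lit 6, nat_lit 0x300038, nat_lit 0x111113, nat_lit 2, nat_lit 4, nat_lit 0x48⟩ (.nil) (.nil)
def t14_13152 : Tr := .node ⟨nat_lit 6, nat_lit 0x1000280030, nat_lit 0x23, nat_lit 0, nat_lit 4, nat_lit 0x45⟩ (.nil) (.nil)
def t14_2912 : Tr := .node ⟨nat_lit 6, nat_lit 0x2800180030, nat_lit 0x210101, nat_lit 0, nat_lit 4, nat_lit 0x46⟩ (.nil) (.nil)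
def t14_11104 : Tr := .node ⟨nat_lit 8, nat_lit 0x2000c000c0, nat_lit 0x21020, nat_lit 0, nat_lit 4, nat_lit 0x49⟩ (.nil) (.nil)
def t14_7008 : Tr := .node ⟨nat_lit 6, nat_lit 0x2000300030, nat_lit 0x101211, nat_lit 5, nat_lit 4, nat_lit 0x48⟩ (.nil) (.nil)
def t14_15200 : Tr := .node ⟨nat_lit 7, nat_lit 0x400020005000280060, nat_lit 0x1011111, nat_lit 1, nat_lit 4, nat_lit 0x46⟩ (.nil) (.nil)
def t14_1888 : Tr := .node ⟨nat_lit 6, nat_lit 0x2000300028, nat_lit 0x12112, nat_lit 4, nat_lit 4, nat_lit 0x48⟩ (.nil) (.nil)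
def t14_10080 : Tr := .node ⟨nat_lit 7, nat_lit 0x20005000500060, nat_lit 0x101202, nat_lit 4, nat_lit 4, nat_lit 0x47⟩ (.nil) (.nil)
def t14_5984 : Tr := .node ⟨nat_lit 6, nat_lit 0x200030, nat_lit 0x121110, nat_lit 5, nat_lit 4, nat_lit 0x4a⟩ (.nil) (.nil)
def t14_14176 : Tr := .node ⟨nat_lit 6, nat_lit 0x10002000300038, nat_lit 0x12120, nat_lit 5, nat_lit 4, nat_lit 0x47⟩ (.nil) (.nil)
def t14_3936 : Tr := .node ⟨nat_lit 7, nat_lit 0x20003000500068, nat_lit 0x101031, nat_lit 1, nat_lit 4, nat_lit 0x46⟩ (.nil) (.nil)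
def t14_12128 : Tr := .node ⟨nat_lit 8, nat_lit 0x9000c000a0, nat_lit 0x111210, nat_lit 1, nat_lit 4, nat_lit 0x49⟩ (.nil) (.nil)
def t14_8032 : Tr := .node ⟨nat_lit 7, nat_lit 0x40001000200048, nat_lit 0x101013, nat_lit 0, nat_lit 4, nat_lit 0x47⟩ (.nil) (.nil)
def t9_352 : Tr := .node ⟨nat_lit 4, nat_lit 0, nat_lit 0x3332, nat_lit 0, nat_lit 4, nat_lit 0x4b⟩ (.node ⟨nat_lit 4, nat_lit 8, nat_lit 0x3222, nat_lit 4, nat_lit 4, nat_lit 0x4a⟩ (.node ⟨nat_lit 5, nat_lit 0x80010, nat_lit 0x12221, nat_lit 3, nat_lit 4, nat_lit 0x49⟩ (.node ⟨nat_lit 6, nat_lit 0x20001000280034, nat_lit 0x112210, nat_lit 2, nat_lit 4, nat_lit 0x47⟩ (.node ⟨nat_lit 6, nat_lit 0x800080030, nat_lit 0x211201, nat_lit 0, nat_lit 3, nat_lit 0x47⟩ (t14_352) (t14_8544)) (.node ⟨nat_lit 7, nat_lit 0x40004000200060, nat_lit 0x111003, nat_lit 4, nat_lit 4, nat_lit 0x49⟩ (t14_4448)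 (t14_12640))) (.node ⟨nat_lit 6, nat_lit 0x2000080030, nat_lit 0x212112, nat_lit 0, nat_lit 4, nat_lit 0x49⟩ (.node ⟨nat_lit 6, nat_lit 0x240038, nat_lit 0x100113, nat_lit 1, nat_lit 4, nat_lit 0x46⟩ (t14_2400) (t14_10592)) (.node ⟨nat_lit 7, nat_lit 0x4000600060, nat_lit 0x11220, nat_lit 1, nat_lit 4, nat_lit 0x48⟩ (t14_6496) (t14_14688)))) (.node ⟨nat_lit 5, nat_lit 0x40018, nat_lit 0x21001, nat_lit 2, nat_lit 4, nat_lit 0x46⟩ (.node ⟨nat_lit 7, nat_lit 0x100060, nat_lit 0x2102202, nat_lit 0, nat_lit 4, nat_lit 0x4b⟩ (.node ⟨nat_lit 6, nat_lit 0x280030, nat_lit 0x12103, nat_lit 2, nat_lit 4, nat_lit 0x48⟩ (t14_1376) (t14_9568)) (.node ⟨nat_lit 8, nat_lit 0x80002000400040, nat_lit 0x1120021, nat_lit 1, nat_lit 4, nat_lit 0x4b⟩ (t14_5472) (t14_13664))) (.node ⟨nat_lit 5, nat_lit 0x40018, nat_lit 0x30112, nat_lit 8, nat_lit 4, nat_lit 0x49⟩ (.node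 ⟨nat_lit 8, nat_lit 0x400080008000200088, nat_lit 0x10002001, nat_lit 7, nat_lit 4, nat_lit 0x4a⟩ (t14_3424) (t14_11616)) (.node ⟨nat_lit 7, nat_lit 0x200020002000400070, nat_lit 0x1011112, nat_lit 4, nat_lit 4, nat_lit 0x48⟩ (t14_7520) (.nil))))) (.node ⟨nat_lit 5, nat_lit 0x10, nat_lit 0x13110, nat_lit 5, nat_lit 4, nat_lit 0x4a⟩ (.node ⟨nat_lit 4, nat_lit 8, nat_lit 0x2222, nat_lit 4, nat_lit 4, nat_lit 0x49⟩ (.node ⟨nat_lit 6, nat_lit 0x1000280030, nat_lit 0x101121, nat_lit 1, nat_lit 4, nat_lit 0x46⟩ (.node ⟨nat_lit 7, nat_lit 0x800500060, nat_lit 0x102012, nat_lit 1, nat_lit 4, nat_lit 0x48⟩ (t14_864) (t14_9056)) (.node ⟨nat_lit 7, nat_lit 0x600060, nat_lit 0x1121120, nat_lit 1, nat_lit 4, nat_lit 0x4a⟩ (t14_4960) (t14_13152))) (.node ⟨nat_lit 7, nat_lit 0x1000400060, nat_lit 0x1101021, nat_lit 0, nat_lit 4, nat_lit 0x49⟩ (.node ⟨nat_lit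 7, nat_lit 0x40001000200048, nat_lit 0x1102011, nat_lit 4, nat_lit 4, nat_lit 0x49⟩ (t14_2912) (t14_11104)) (.node ⟨nat_lit 5, nat_lit 0x1000140018, nat_lit 0x11312, nat_lit 6, nat_lit 4, nat_lit 0x48⟩ (t14_7008) (t14_15200)))) (.node ⟨nat_lit 6, nat_lit 0x30, nat_lit 0x311110, nat_lit 0, nat_lit 4, nat_lit 0x4a⟩ (.node ⟨nat_lit 6, nat_lit 0x280030, nat_lit 0x211111, nat_lit 0, nat_lit 4, nat_lit 0x48⟩ (.node ⟨nat_lit 8, nat_lit 0x40008000800080008800d0, nat_lit 0x1301011, nat_lit 2, nat_lit 4, nat_lit 0x48⟩ (t14_1888) (t14_10080)) (.node ⟨nat_lit 7, nat_lit 0x20004000600070, nat_lit 0x21202, nat_lit 0, nat_lit 4, nat_lit 0x47⟩ (t14_5984) (t14_14176))) (.node ⟨nat_lit 6, nat_lit 0x10001000200022, nat_lit 0x1020, nat_lit 0, nat_lit 4, nat_lit 0x45⟩ (.node ⟨nat_lit 5, nat_lit 0x180014, nat_lit 0x11030, nat_lit 2, nat_lit 4, nat_lit 0x46⟩ (t14_3936)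 (t14_12128)) (.node ⟨nat_lit 7, nat_lit 0x60, nat_lit 0x1111102, nat_lit 0, nat_lit 4, nat_lit 0x4b⟩ (t14_8032) (.nil)))))
def t14_224 : Tr := .node ⟨nat_lit 7, nat_lit 0x10002000500064, nat_lit 0x1203111, nat_lit 0, nat_lit 4, nat_lit 0x48⟩ (.nil) (.nil)
def t14_8416 : Tr := .node ⟨nat_lit 6, nat_lit 0x2000200024, nat_lit 0x11223, nat_lit 3, nat_lit 4, nat_lit 0x49⟩ (.nil) (.nil)
def t14_4320 : Tr := .node ⟨nat_lit 9, nat_lit 0x8000800100010000c001100190, nat_lit 0x101111011, nat_lit 0, nat_lit 4, nat_lit 0x48⟩ (.nil) (.nil)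
def t14_12512 : Tr := .node ⟨nat_lit 7, nat_lit 0x5000600070, nat_lit 0x11003, nat_lit 0, nat_lit 4, nat_lit 0x46⟩ (.nil) (.nil)
def t14_2272 : Tr := .node ⟨nat_lit 7, nat_lit 0x400020002000500050, nat_lit 0x1012210, nat_lit 0, nat_lit 4, nat_lit 0x47⟩ (.nil) (.nil)
def t14_10464 : Tr := .node ⟨nat_lit 9, nat_lit 0x20018001200140, nat_lit 0x10220, nat_lit 2, nat_lit 4, nat_lit 0x49⟩ (.nil) (.nil)
def t14_6368 : Tr := .node ⟨nat_lit 2, nat_lit 2, nat_lit 2, nat_lit 0xa, nat_lit 4, nat_lit 0x44⟩ (.nil) (.nil)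
def t14_14560 : Tr := .node ⟨nat_lit 4, nat_lit 0x80008, nat_lit 0x221, nat_lit 0xb, nat_lit 4, nat_lit 0x48⟩ (.nil) (.nil)
def t14_1248 : Tr := .node ⟨nat_lit 6, nat_lit 0x1800280030, nat_lit 0x100211, nat_lit 2, nat_lit 4, nat_lit 0x45⟩ (.nil) (.nil)
def t14_9440 : Tr := .node ⟨nat_lit 7, nat_lit 0x400020002000500060, nat_lit 0x1012104, nat_lit 0, nat_lit 4, nat_lit 0x48⟩ (.nil) (.nil)
def t14_5344 : Tr := .node ⟨nat_lit 7, nat_lit 0x20002000500060, nat_lit 0x1011003, nat_lit 3, nat_lit 4, nat_lit 0x48⟩ (.nil) (.nil)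
def t14_13536 : Tr := .node ⟨nat_lit 7, nat_lit 0x20004000400010, nat_lit 0x11000, nat_lit 0, nat_lit 4, nat_lit 0x47⟩ (.nil) (.nil)
def t14_3296 : Tr := .node ⟨nat_lit 7, nat_lit 0x400040002000200060, nat_lit 0x20201, nat_lit 5, nat_lit 4, nat_lit 0x48⟩ (.nil) (.nil)
def t14_11488 : Tr := .node ⟨nat_lit 6, nat_lit 0x2000280034, nat_lit 0x100210, nat_lit 1, nat_lit 4, nat_lit 0x46⟩ (.nil) (.nil)
def t14_7392 : Tr := .node ⟨nat_lit 6, nat_lit 0x1800280030, nat_lit 0x211012, nat_lit 0, nat_lit 4, nat_lit 0x47⟩ (.nil) (.nil)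
def t14_15584 : Tr := .node ⟨nat_lit 3, nat_lit 0, nat_lit 0x221, nat_lit 0x12, nat_lit 4, nat_lit 0x4a⟩ (.nil) (.nil)
def t14_736 : Tr := .node ⟨nat_lit 7, nat_lit 0x20004000640070, nat_lit 0x1000031, nat_lit 1, nat_lit 4, nat_lit 0x45⟩ (.nil) (.nil)
def t14_8928 : Tr := .node ⟨nat_lit 7, nat_lit 0x6000500050, nat_lit 0x1130, nat_lit 2, nat_lit 4, nat_lit 0x47⟩ (.nil) (.nil)
def t14_4832 : Tr := .node ⟨nat_lit 7, nat_lit 0x40002000100060, nat_lit 0x110202, nat_lit 5, nat_lit 4, nat_lit 0x49⟩ (.nil) (.nil)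
def t14_13024 : Tr := .node ⟨nat_lit 6, nat_lit 0x10002000240034, nat_lit 0x203100, nat_lit 2, nat_lit 4, nat_lit 0x47⟩ (.nil) (.nil)
def t14_2784 : Tr := .node ⟨nat_lit 6, nat_lit 0x20002000100010, nat_lit 0x101021, nat_lit 3, nat_lit 3, nat_lit 0x46⟩ (.nil) (.nil)
def t14_10976 : Tr := .node ⟨nat_lit 8, nat_lit 0x40008000800090006000d0, nat_lit 0x210100, nat_lit 1, nat_lit 4, nat_lit 0x46⟩ (.nil) (.nil)
def t14_6880 : Tr := .node ⟨nat_lit 8, nat_lit 0x8000400040, nat_lit 0x111020, nat_lit 2, nat_lit 4, nat_lit 0x4b⟩ (.nil) (.nil)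
def t14_15072 : Tr := .node ⟨nat_lit 6, nat_lit 0x20002000280030, nat_lit 0x22011, nat_lit 4, nat_lit 4, nat_lit 0x48⟩ (.nil) (.nil)
def t14_1760 : Tr := .node ⟨nat_lit 6, nat_lit 0x800200030, nat_lit 0x20003, nat_lit 5, nat_lit 4, nat_lit 0x48⟩ (.nil) (.nil)
def t14_9952 : Tr := .node ⟨nat_lit 7, nat_lit 0x10001000600060, nat_lit 0x1030, nat_lit 0, nat_lit 4, nat_lit 0x46⟩ (.nil) (.nil)
def t14_5856 : Tr := .node ⟨nat_lit 6, nat_lit 0x1000280030, nat_lit 0x1122, nat_lit 2, nat_lit 4, nat_lit 0x46⟩ (.nil) (.nil)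
def t14_14048 : Tr := .node ⟨nat_lit 7, nat_lit 0x4000100060, nat_lit 0x12220, nat_lit 1, nat_lit 4, nat_lit 0x49⟩ (.nil) (.nil)
def t14_3808 : Tr := .node ⟨nat_lit 5, nat_lit 0x1000100018, nat_lit 0x11220, nat_lit 4, nat_lit 3, nat_lit 0x46⟩ (.nil) (.nil)
def t14_12000 : Tr := .node ⟨nat_lit 7, nat_lit 0x40002000500060, nat_lit 0x122101, nat_lit 0, nat_lit 4, nat_lit 0x48⟩ (.nil) (.nil)
def t14_7904 : Tr := .node ⟨nat_lit 4, nat_lit 0x40008, nat_lit 0x1010, nat_lit 6, nat_lit 4, nat_lit 0x45⟩ (.nil) (.nil)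
def t9_224 : Tr := .node ⟨nat_lit 6, nat_lit 0x200030, nat_lit 0x13201, nat_lit 1, nat_lit 4, nat_lit 0x49⟩ (.node ⟨nat_lit 6, nat_lit 0x2000240034, nat_lit 0x301131, nat_lit 1, nat_lit 4, nat_lit 0x49⟩ (.node ⟨nat_lit 5, nat_lit 0x100018, nat_lit 0x13112, nat_lit 3, nat_lit 4, nat_lit 0x49⟩ (.node ⟨nat_lit 4, nat_lit 0x80004, nat_lit 0x1123, nat_lit 4, nat_lit 4, nat_lit 0x47⟩ (.node ⟨nat_lit 9, nat_lit 0x400020002000500180, nat_lit 0x201001002, nat_lit 2, nat_lit 4, nat_lit 0x4a⟩ (t14_224) (t14_8416)) (.node ⟨nat_lit 7, nat_lit 0x20005000680070, nat_lit 0x1001232, nat_lit 0, nat_lit 4, nat_lit 0x45⟩ (t14_4320) (t14_12512))) (.node ⟨nat_lit 7, nat_lit 0x4000100060, nat_lit 0x212012, nat_lit 2, nat_lit 4, nat_lit 0x4a⟩ (.node ⟨nat_lit 7, nat_lit 0x4000100060, nat_lit 0x1102301, nat_lit 0, nat_lit 3, nat_lit 0x48⟩ (t14_2272) (t14_10464)) (.node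 ⟨nat_lit 7, nat_lit 0x40002000580068, nat_lit 0x2011000, nat_lit 1, nat_lit 4, nat_lit 0x47⟩ (t14_6368) (t14_14560)))) (.node ⟨nat_lit 5, nat_lit 0, nat_lit 0x21111, nat_lit 3, nat_lit 4, nat_lit 0x4a⟩ (.node ⟨nat_lit 6, nat_lit 0x1000080020, nat_lit 0x122110, nat_lit 1, nat_lit 3, nat_lit 0x48⟩ (.node ⟨nat_lit 6, nat_lit 0x800200030, nat_lit 0x110004, nat_lit 3, nat_lit 4, nat_lit 0x48⟩ (t14_1248) (t14_9440)) (.node ⟨nat_lit 6, nat_lit 0x2000100010, nat_lit 0x12022, nat_lit 6, nat_lit 4, nat_lit 0x4a⟩ (t14_5344) (t14_13536))) (.node ⟨nat_lit 6, nat_lit 0x300028, nat_lit 0x100203, nat_lit 1, nat_lit 4, nat_lit 0x47⟩ (.node ⟨nat_lit 6, nat_lit 0x800300028, nat_lit 0x101204, nat_lit 2, nat_lit 4, nat_lit 0x48⟩ (t14_3296) (t14_11488)) (.node ⟨nat_lit 7, nat_lit 0x4000180060, nat_lit 0x111220, nat_lit 0, nat_lit 4, nat_lit 0x48⟩ (t14_7392) (t14_15584)))))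 (.node ⟨nat_lit 4, nat_lit 0xc, nat_lit 0x1030, nat_lit 3, nat_lit 4, nat_lit 0x46⟩ (.node ⟨nat_lit 6, nat_lit 0x240038, nat_lit 0x21112, nat_lit 1, nat_lit 4, nat_lit 0x47⟩ (.node ⟨nat_lit 6, nat_lit 0x2000200010, nat_lit 0x102310, nat_lit 1, nat_lit 4, nat_lit 0x49⟩ (.node ⟨nat_lit 7, nat_lit 0x10004000640058, nat_lit 0x1220101, nat_lit 1, nat_lit 4, nat_lit 0x48⟩ (t14_736) (t14_8928)) (.node ⟨nat_lit 7, nat_lit 0x40001000100060, nat_lit 0x12200, nat_lit 1, nat_lit 4, nat_lit 0x48⟩ (t14_4832) (t14_13024))) (.node ⟨nat_lit 7, nat_lit 0x40001000100060, nat_lit 0x100112, nat_lit 0, nat_lit 4, nat_lit 0x47⟩ (.node ⟨nat_lit 6, nat_lit 0x2000200038, nat_lit 0x21113, nat_lit 4, nat_lit 4, nat_lit 0x48⟩ (t14_2784) (t14_10976)) (.node ⟨nat_lit 6, nat_lit 0x2000240018, nat_lit 0x11022, nat_lit 2, nat_lit 4, nat_lit 0x46⟩ (t14_6880) (t14_15072)))) (.node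 ⟨nat_lit 3, nat_lit 0, nat_lit 0x111, nat_lit 5, nat_lit 4, nat_lit 0x45⟩ (.node ⟨nat_lit 5, nat_lit 0x1000080018, nat_lit 0x11021, nat_lit 1, nat_lit 3, nat_lit 0x45⟩ (.node ⟨nat_lit 5, nat_lit 0x1000100018, nat_lit 0x1203, nat_lit 6, nat_lit 4, nat_lit 0x47⟩ (t14_1760) (t14_9952)) (.node ⟨nat_lit 5, nat_lit 0x40018, nat_lit 0x20221, nat_lit 3, nat_lit 3, nat_lit 0x47⟩ (t14_5856) (t14_14048))) (.node ⟨nat_lit 6, nat_lit 0x80030, nat_lit 0x210222, nat_lit 1, nat_lit 4, nat_lit 0x49⟩ (.node ⟨nat_lit 6, nat_lit 0x2000080030, nat_lit 0x101003, nat_lit 2, nat_lit 4, nat_lit 0x47⟩ (t14_3808) (t14_12000)) (.node ⟨nat_lit 6, nat_lit 0x2000200030, nat_lit 0x11003, nat_lit 5, nat_lit 4, nat_lit 0x48⟩ (t14_7904) (.nil)))))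
def t14_480 : Tr := .node ⟨nat_lit 6, nat_lit 0x800300030, nat_lit 0x112210, nat_lit 1, nat_lit 4, nat_lit 0x48⟩ (.nil) (.nil)
def t14_8672 : Tr := .node ⟨nat_lit 7, nat_lit 0x10001000600060, nat_lit 0x1120, nat_lit 0, nat_lit 4, nat_lit 0x46⟩ (.nil) (.nil)
def t14_4576 : Tr := .node ⟨nat_lit 6, nat_lit 0x2000080030, nat_lit 0x101301, nat_lit 6, nat_lit 4, nat_lit 0x49⟩ (.nil) (.nil)
def t14_12768 : Tr := .node ⟨nat_lit 7, nat_lit 0x40004800600030, nat_lit 0x11130, nat_lit 0, nat_lit 4, nat_lit 0x46⟩ (.nil) (.nil)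
def t14_2528 : Tr := .node ⟨nat_lit 6, nat_lit 0x2000240030, nat_lit 0x12220, nat_lit 4, nat_lit 4, nat_lit 0x48⟩ (.nil) (.nil)
def t14_10720 : Tr := .node ⟨nat_lit 7, nat_lit 0x2000500060, nat_lit 0x1010, nat_lit 0, nat_lit 4, nat_lit 0x46⟩ (.nil) (.nil)
def t14_6624 : Tr := .node ⟨nat_lit 7, nat_lit 0x40001000480060, nat_lit 0x13110, nat_lit 2, nat_lit 4, nat_lit 0x48⟩ (.nil) (.nil)
def t14_14816 : Tr := .node ⟨nat_lit 8, nat_lit 0x800040004000a000a000e0, nat_lit 0x10021101, nat_lit 2, nat_lit 4, nat_lit 0x47⟩ (.nil) (.nil)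
def t14_1504 : Tr := .node ⟨nat_lit 8, nat_lit 0x400080002000c000c8, nat_lit 0x10101121, nat_lit 1, nat_lit 4, nat_lit 0x48⟩ (.nil) (.nil)
def t14_9696 : Tr := .node ⟨nat_lit 8, nat_lit 0x800080008000400090, nat_lit 0x1212011, nat_lit 1, nat_lit 4, nat_lit 0x4a⟩ (.nil) (.nil)
def t14_5600 : Tr := .node ⟨nat_lit 8, nat_lit 0x80008000d000d000d0, nat_lit 0x10101220, nat_lit 1, nat_lit 4, nat_lit 0x47⟩ (.nil) (.nil)
def t14_13792 : Tr := .node ⟨nat_lit 8, nat_lit 0x80002000c00030, nat_lit 0x10001210, nat_lit 0, nat_lit 4, nat_lit 0x48⟩ (.nil) (.nil)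
def t14_3552 : Tr := .node ⟨nat_lit 6, nat_lit 0x2800300030, nat_lit 0x10021, nat_lit 3, nat_lit 4, nat_lit 0x46⟩ (.nil) (.nil)
def t14_11744 : Tr := .node ⟨nat_lit 6, nat_lit 0x20002000100028, nat_lit 0x40, nat_lit 5, nat_lit 4, nat_lit 0x47⟩ (.nil) (.nil)
def t14_7648 : Tr := .node ⟨nat_lit 6, nat_lit 0x1000200022, nat_lit 0x1013, nat_lit 0, nat_lit 4, nat_lit 0x46⟩ (.nil) (.nil)
def t14_992 : Tr := .node ⟨nat_lit 7, nat_lit 0x4000200060, nat_lit 0x11012, nat_lit 1, nat_lit 4, nat_lit 0x48⟩ (.nil) (.nil)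
def t14_9184 : Tr := .node ⟨nat_lit 6, nat_lit 0x20001000280038, nat_lit 0x1201, nat_lit 3, nat_lit 4, nat_lit 0x45⟩ (.nil) (.nil)
def t14_5088 : Tr := .node ⟨nat_lit 6, nat_lit 0x2000080010, nat_lit 0x13, nat_lit 0, nat_lit 4, nat_lit 0x46⟩ (.nil) (.nil)
def t14_13280 : Tr := .node ⟨nat_lit 7, nat_lit 0x40001000480068, nat_lit 0x12001, nat_lit 2, nat_lit 4, nat_lit 0x47⟩ (.nil) (.nil)
def t14_3040 : Tr := .node ⟨nat_lit 7, nat_lit 0x400020005000680068, nat_lit 0x221011, nat_lit 2, nat_lit 4, nat_lit 0x47⟩ (.nil) (.nil)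
def t14_11232 : Tr := .node ⟨nat_lit 7, nat_lit 0x1000600070, nat_lit 0x1010003, nat_lit 0, nat_lit 4, nat_lit 0x47⟩ (.nil) (.nil)
def t14_7136 : Tr := .node ⟨nat_lit 7, nat_lit 0x1000600060, nat_lit 0x1002111, nat_lit 1, nat_lit 4, nat_lit 0x48⟩ (.nil) (.nil)
def t14_15328 : Tr := .node ⟨nat_lit 7, nat_lit 0x20002000400040, nat_lit 0x112111, nat_lit 0, nat_lit 4, nat_lit 0x49⟩ (.nil) (.nil)
def t14_2016 : Tr := .node ⟨nat_lit 5, nat_lit 0x1000100008, nat_lit 0x1300, nat_lit 5, nat_lit 4, nat_lit 0x47⟩ (.nil) (.nil)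
def t14_10208 : Tr := .node ⟨nat_lit 5, nat_lit 0x100014001c, nat_lit 0x1212, nat_lit 6, nat_lit 4, nat_lit 0x46⟩ (.nil) (.nil)
def t14_6112 : Tr := .node ⟨nat_lit 5, nat_lit 0x100008, nat_lit 0x200, nat_lit 9, nat_lit 4, nat_lit 0x48⟩ (.nil) (.nil)
def t14_14304 : Tr := .node ⟨nat_lit 7, nat_lit 0x40001000680070, nat_lit 0x101003, nat_lit 3, nat_lit 4, nat_lit 0x46⟩ (.nil) (.nil)
def t14_4064 : Tr := .node ⟨nat_lit 5, nat_lit 0x180014, nat_lit 0x2201, nat_lit 2, nat_lit 3, nat_lit 0x46⟩ (.nil) (.nil)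
def t14_12256 : Tr := .node ⟨nat_lit 7, nat_lit 0x400040002000500060, nat_lit 0x21100, nat_lit 7, nat_lit 4, nat_lit 0x48⟩ (.nil) (.nil)
def t14_8160 : Tr := .node ⟨nat_lit 7, nat_lit 0x40002000200068, nat_lit 0x12003, nat_lit 2, nat_lit 4, nat_lit 0x47⟩ (.nil) (.nil)
def t9_480 : Tr := .node ⟨nat_lit 6, nat_lit 0x200020, nat_lit 0x33111, nat_lit 0, nat_lit 4, nat_lit 0x4b⟩ (.node ⟨nat_lit 6, nat_lit 0x2000240024, nat_lit 0x311022, nat_lit 1, nat_lit 4, nat_lit 0x49⟩ (.node ⟨nat_lit 4, nat_lit 8, nat_lit 0x2212, nat_lit 6, nat_lit 4, nat_lit 0x49⟩ (.node ⟨nat_lit 7, nat_lit 0x40002000500064, nat_lit 0x111220, nat_lit 0, nat_lit 4, nat_lit 0x47⟩ (.node ⟨nat_lit 6, nat_lit 0x800300030, nat_lit 0x2121, nat_lit 0, nat_lit 4, nat_lit 0x46⟩ (t14_480) (t14_8672)) (.node ⟨nat_lit 7, nat_lit 0x4000200010, nat_lit 0x1122002, nat_lit 1, nat_lit 4, nat_lit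 0x4b⟩ (t14_4576) (t14_12768))) (.node ⟨nat_lit 7, nat_lit 0x40001000100068, nat_lit 0x1002102, nat_lit 0, nat_lit 4, nat_lit 0x47⟩ (.node ⟨nat_lit 6, nat_lit 0x2000100030, nat_lit 0x112223, nat_lit 1, nat_lit 4, nat_lit 0x49⟩ (t14_2528) (t14_10720)) (.node ⟨nat_lit 7, nat_lit 0x40004000200020, nat_lit 0x21021, nat_lit 3, nat_lit 4, nat_lit 0x49⟩ (t14_6624) (t14_14816)))) (.node ⟨nat_lit 6, nat_lit 0x80030, nat_lit 0x100201, nat_lit 0, nat_lit 4, nat_lit 0x47⟩ (.node ⟨nat_lit 7, nat_lit 0x4000400020, nat_lit 0x221103, nat_lit 0, nat_lit 4, nat_lit 0x4b⟩ (.node ⟨nat_lit 5, nat_lit 0x1000140018, nat_lit 0x10311, nat_lit 9, nat_lit 4, nat_lit 0x48⟩ (t14_1504) (t14_9696)) (.node ⟨nat_lit 8, nat_lit 0x8000800040004000a000a0, nat_lit 0x11112200, nat_lit 0, nat_lit 4, nat_lit 0x49⟩ (t14_5600) (t14_13792))) (.node ⟨nat_lit 5, nat_lit 0x40018, nat_lit 0x21104,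 nat_lit 1, nat_lit 4, nat_lit 0x48⟩ (.node ⟨nat_lit 6, nat_lit 0x80030, nat_lit 0x100100, nat_lit 0, nat_lit 4, nat_lit 0x46⟩ (t14_3552) (t14_11744)) (.node ⟨nat_lit 4, nat_lit 0x80008000c, nat_lit 0x1112, nat_lit 6, nat_lit 4, nat_lit 0x46⟩ (t14_7648) (.nil))))) (.node ⟨nat_lit 6, nat_lit 0x20002000280028, nat_lit 0x31021, nat_lit 5, nat_lit 4, nat_lit 0x48⟩ (.node ⟨nat_lit 6, nat_lit 0x200020, nat_lit 0x22210, nat_lit 1, nat_lit 4, nat_lit 0x4a⟩ (.node ⟨nat_lit 8, nat_lit 0x8000800040, nat_lit 0x1111101, nat_lit 1, nat_lit 4, nat_lit 0x4b⟩ (.node ⟨nat_lit 8, nat_lit 0x40008000200084, nat_lit 0x10010302, nat_lit 0, nat_lit 4, nat_lit 0x4a⟩ (t14_992) (t14_9184)) (.node ⟨nat_lit 8, nat_lit 0x80008000800088, nat_lit 0x2211100, nat_lit 1, nat_lit 4, nat_lit 0x4b⟩ (t14_5088) (t14_13280))) (.node ⟨nat_lit 6, nat_lit 0x200032, nat_lit 0x111120, nat_lit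 0, nat_lit 4, nat_lit 0x48⟩ (.node ⟨nat_lit 5, nat_lit 0x180018, nat_lit 0x20111, nat_lit 5, nat_lit 3, nat_lit 0x46⟩ (t14_3040) (t14_11232)) (.node ⟨nat_lit 5, nat_lit 0x1000080018, nat_lit 0x11122, nat_lit 6, nat_lit 3, nat_lit 0x46⟩ (t14_7136) (t14_15328)))) (.node ⟨nat_lit 6, nat_lit 0x80030, nat_lit 0x110211, nat_lit 1, nat_lit 4, nat_lit 0x48⟩ (.node ⟨nat_lit 7, nat_lit 0x60, nat_lit 0x3011111, nat_lit 1, nat_lit 4, nat_lit 0x4c⟩ (.node ⟨nat_lit 5, nat_lit 0x140018, nat_lit 0x12114, nat_lit 2, nat_lit 4, nat_lit 0x48⟩ (t14_2016) (t14_10208)) (.node ⟨nat_lit 6, nat_lit 0x3000300030, nat_lit 0x1200, nat_lit 0, nat_lit 3, nat_lit 0x44⟩ (t14_6112) (t14_14304))) (.node ⟨nat_lit 4, nat_lit 0x8000a, nat_lit 0x2132, nat_lit 8, nat_lit 4, nat_lit 0x49⟩ (.node ⟨nat_lit 7, nat_lit 0x40004000580068, nat_lit 0x1001030, nat_lit 3, nat_lit 4, nat_lit 0x47⟩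 (t14_4064) (t14_12256)) (.node ⟨nat_lit 8, nat_lit 0x200040008000c0, nat_lit 0x10010012, nat_lit 5, nat_lit 4, nat_lit 0x4a⟩ (t14_8160) (.nil)))))
def t14_16 : Tr := .node ⟨nat_lit 4, nat_lit 8, nat_lit 0x1110, nat_lit 0xd, nat_lit 4, nat_lit 0x49⟩ (.nil) (.nil)
def t14_8208 : Tr := .node ⟨nat_lit 6, nat_lit 0x800300028, nat_lit 0x100120, nat_lit 0, nat_lit 4, nat_lit 0x45⟩ (.nil) (.nil)
def t14_4112 : Tr := .node ⟨nat_lit 8, nat_lit 0x800080008000400090, nat_lit 0x1111101, nat_lit 4, nat_lit 4, nat_lit 0x4a⟩ (.nil) (.nil)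
def t14_12304 : Tr := .node ⟨nat_lit 7, nat_lit 0x20001000600050, nat_lit 0x1210, nat_lit 0, nat_lit 4, nat_lit 0x46⟩ (.nil) (.nil)
def t14_2064 : Tr := .node ⟨nat_lit 7, nat_lit 0x200020004000440060, nat_lit 0x1031101, nat_lit 2, nat_lit 4, nat_lit 0x48⟩ (.nil) (.nil)
def t14_10256 : Tr := .node ⟨nat_lit 6, nat_lit 0x1000280030, nat_lit 0x10120, nat_lit 2, nat_lit 4, nat_lit 0x46⟩ (.nil) (.nil)
def t14_6160 : Tr := .node ⟨nat_lit 4, nat_lit 0x80008, nat_lit 0x100, nat_lit 7, nat_lit 3, nat_lit 0x45⟩ (.nil) (.nil)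
def t14_14352 : Tr := .node ⟨nat_lit 5, nat_lit 0x40018, nat_lit 0x101, nat_lit 3, nat_lit 3, nat_lit 0x45⟩ (.nil) (.nil)
def t14_1040 : Tr := .node ⟨nat_lit 7, nat_lit 0x20003000500068, nat_lit 0x2112, nat_lit 0, nat_lit 4, nat_lit 0x45⟩ (.nil) (.nil)
def t14_9232 : Tr := .node ⟨nat_lit 8, nat_lit 0x2000400080008000c0, nat_lit 0x1001221, nat_lit 0, nat_lit 4, nat_lit 0x49⟩ (.nil) (.nil)
def t14_5136 : Tr := .node ⟨nat_lit 7, nat_lit 0x400040005800680070, nat_lit 1, nat_lit 1, nat_lit 4, nat_lit 0x43⟩ (.nil) (.nil)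
def t14_13328 : Tr := .node ⟨nat_lit 6, nat_lit 0x2000080030, nat_lit 0x10320, nat_lit 1, nat_lit 4, nat_lit 0x47⟩ (.nil) (.nil)
def t14_3088 : Tr := .node ⟨nat_lit 7, nat_lit 0x40001000100060, nat_lit 0x1000311, nat_lit 1, nat_lit 4, nat_lit 0x48⟩ (.nil) (.nil)
def t14_11280 : Tr := .node ⟨nat_lit 8, nat_lit 0x80004000a000d000e0, nat_lit 0x110022, nat_lit 0, nat_lit 4, nat_lit 0x46⟩ (.nil) (.nil)
def t14_7184 : Tr := .node ⟨nat_lit 8, nat_lit 0x400040008000800084, nat_lit 0x10100111, nat_lit 1, nat_lit 4, nat_lit 0x49⟩ (.nil) (.nil)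
def t14_15376 : Tr := .node ⟨nat_lit 7, nat_lit 0x4000600050, nat_lit 0x1210, nat_lit 4, nat_lit 4, nat_lit 0x48⟩ (.nil) (.nil)
def t14_528 : Tr := .node ⟨nat_lit 4, nat_lit 0x8000a, nat_lit 0x222, nat_lit 9, nat_lit 4, nat_lit 0x47⟩ (.nil) (.nil)
def t14_8720 : Tr := .node ⟨nat_lit 8, nat_lit 0x8000200020009000c0, nat_lit 0x12010, nat_lit 0, nat_lit 4, nat_lit 0x47⟩ (.nil) (.nil)
def t14_4624 : Tr := .node ⟨nat_lit 8, nat_lit 0x10008000a000c4, nat_lit 0x12000211, nat_lit 0, nat_lit 4, nat_lit 0x49⟩ (.nil) (.nil)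
def t14_12816 : Tr := .node ⟨nat_lit 7, nat_lit 0x200020004000440060, nat_lit 0x20200, nat_lit 3, nat_lit 4, nat_lit 0x47⟩ (.nil) (.nil)
def t14_2576 : Tr := .node ⟨nat_lit 7, nat_lit 0x40001000100060, nat_lit 0x1002310, nat_lit 0, nat_lit 4, nat_lit 0x48⟩ (.nil) (.nil)
def t14_10768 : Tr := .node ⟨nat_lit 8, nat_lit 0x1000c000a0, nat_lit 0x1022, nat_lit 0, nat_lit 4, nat_lit 0x48⟩ (.nil) (.nil)
def t14_6672 : Tr := .node ⟨nat_lit 6, nat_lit 0x20002000100010, nat_lit 0x102220, nat_lit 2, nat_lit 4, nat_lit 0x48⟩ (.nil) (.nil)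
def t14_14864 : Tr := .node ⟨nat_lit 7, nat_lit 0x200020002000400040, nat_lit 0x1021111, nat_lit 3, nat_lit 4, nat_lit 0x49⟩ (.nil) (.nil)
def t14_1552 : Tr := .node ⟨nat_lit 9, nat_lit 0x1000080008000400180, nat_lit 0x1101012, nat_lit 1, nat_lit 4, nat_lit 0x4a⟩ (.nil) (.nil)
def t14_9744 : Tr := .node ⟨nat_lit 7, nat_lit 0x40004000100060, nat_lit 0x100021, nat_lit 0, nat_lit 4, nat_lit 0x47⟩ (.nil) (.nil)
def t14_5648 : Tr := .node ⟨nat_lit 6, nat_lit 0x3000300030, nat_lit 0x1220, nat_lit 4, nat_lit 4, nat_lit 0x46⟩ (.nil) (.nil)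
def t14_13840 : Tr := .node ⟨nat_lit 7, nat_lit 0x40001000500068, nat_lit 0x2100, nat_lit 0, nat_lit 4, nat_lit 0x46⟩ (.nil) (.nil)
def t14_3600 : Tr := .node ⟨nat_lit 7, nat_lit 0x20005000300060, nat_lit 0x12211, nat_lit 2, nat_lit 4, nat_lit 0x47⟩ (.nil) (.nil)
def t14_11792 : Tr := .node ⟨nat_lit 5, nat_lit 0x40018, nat_lit 0x10023, nat_lit 3, nat_lit 4, nat_lit 0x46⟩ (.nil) (.nil)
def t14_7696 : Tr := .node ⟨nat_lit 6, nat_lit 0x2000100008, nat_lit 0, nat_lit 2, nat_lit 4, nat_lit 0x45⟩ (.nil) (.nil)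
def t9_16 : Tr := .node ⟨nat_lit 4, nat_lit 0, nat_lit 0x3211, nat_lit 0, nat_lit 4, nat_lit 0x48⟩ (.node ⟨nat_lit 7, nat_lit 0x20004000400064, nat_lit 0x133000, nat_lit 1, nat_lit 4, nat_lit 0x49⟩ (.node ⟨nat_lit 4, nat_lit 0x8000c, nat_lit 0x110, nat_lit 2, nat_lit 3, nat_lit 0x43⟩ (.node ⟨nat_lit 6, nat_lit 0x200030, nat_lit 0x102221, nat_lit 0, nat_lit 4, nat_lit 0x49⟩ (.node ⟨nat_lit 7, nat_lit 0x4000100020, nat_lit 0x212003, nat_lit 1, nat_lit 4, nat_lit 0x4b⟩ (t14_16) (t14_8208)) (.node ⟨nat_lit 6, nat_lit 0x200020, nat_lit 0x111000, nat_lit 0, nat_lit 4, nat_lit 0x48⟩ (t14_4112) (t14_12304))) (.node ⟨nat_lit 5, nat_lit 0x40018, nat_lit 0x31214, nat_lit 0, nat_lit 4, nat_lit 0x49⟩ (.node ⟨nat_lit 6, nat_lit 0x2000200030, nat_lit 0x13211, nat_lit 0, nat_lit 3, nat_lit 0x47⟩ (t14_2064) (t14_10256)) (.node ⟨nat_lit 6, nat_lit 0x1000280034,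 nat_lit 0x102200, nat_lit 0, nat_lit 4, nat_lit 0x46⟩ (t14_6160) (t14_14352)))) (.node ⟨nat_lit 6, nat_lit 0x800200032, nat_lit 0x210022, nat_lit 2, nat_lit 4, nat_lit 0x48⟩ (.node ⟨nat_lit 6, nat_lit 0x2000080030, nat_lit 0x221112, nat_lit 0, nat_lit 4, nat_lit 0x49⟩ (.node ⟨nat_lit 6, nat_lit 0x800300038, nat_lit 0x111213, nat_lit 1, nat_lit 4, nat_lit 0x47⟩ (t14_1040) (t14_9232)) (.node ⟨nat_lit 4, nat_lit 0x40008, nat_lit 0x2201, nat_lit 9, nat_lit 3, nat_lit 0x47⟩ (t14_5136) (t14_13328))) (.node ⟨nat_lit 5, nat_lit 0x100018, nat_lit 0x12102, nat_lit 4, nat_lit 4, nat_lit 0x48⟩ (.node ⟨nat_lit 6, nat_lit 0x2000080010, nat_lit 0x11000, nat_lit 3, nat_lit 4, nat_lit 0x47⟩ (t14_3088) (t14_11280)) (.node ⟨nat_lit 7, nat_lit 0x10001800600050, nat_lit 0x1002022, nat_lit 1, nat_lit 4, nat_lit 0x47⟩ (t14_7184) (t14_15376))))) (.node ⟨nat_lit 6, nat_lit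 0x2000100024, nat_lit 0x311201, nat_lit 1, nat_lit 4, nat_lit 0x4a⟩ (.node ⟨nat_lit 4, nat_lit 0, nat_lit 0x2211, nat_lit 5, nat_lit 4, nat_lit 0x49⟩ (.node ⟨nat_lit 6, nat_lit 0x2000100010, nat_lit 0x12011, nat_lit 5, nat_lit 4, nat_lit 0x49⟩ (.node ⟨nat_lit 6, nat_lit 0x20001000280028, nat_lit 0x121121, nat_lit 4, nat_lit 4, nat_lit 0x48⟩ (t14_528) (t14_8720)) (.node ⟨nat_lit 6, nat_lit 0x2000200030, nat_lit 0x111212, nat_lit 3, nat_lit 4, nat_lit 0x49⟩ (t14_4624) (t14_12816))) (.node ⟨nat_lit 7, nat_lit 0x40001000680070, nat_lit 0x101012, nat_lit 0, nat_lit 4, nat_lit 0x45⟩ (.node ⟨nat_lit 6, nat_lit 0x200020, nat_lit 0x111131, nat_lit 5, nat_lit 4, nat_lit 0x4b⟩ (t14_2576) (t14_10768)) (.node ⟨nat_lit 9, nat_lit 0x10001000100008001200120, nat_lit 0x12020100, nat_lit 1, nat_lit 4, nat_lit 0x4a⟩ (t14_6672) (t14_14864)))) (.node ⟨nat_lit 6, nat_lit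 0x100020, nat_lit 0x121113, nat_lit 0, nat_lit 4, nat_lit 0x4a⟩ (.node ⟨nat_lit 6, nat_lit 0x1000200020, nat_lit 0x112110, nat_lit 3, nat_lit 4, nat_lit 0x49⟩ (.node ⟨nat_lit 5, nat_lit 0x1000080014, nat_lit 0x1230, nat_lit 2, nat_lit 4, nat_lit 0x46⟩ (t14_1552) (t14_9744)) (.node ⟨nat_lit 7, nat_lit 0x400020005000500050, nat_lit 0x1102200, nat_lit 1, nat_lit 4, nat_lit 0x47⟩ (t14_5648) (t14_13840))) (.node ⟨nat_lit 1, nat_lit 0, nat_lit 2, nat_lit 0xc, nat_lit 4, nat_lit 0x44⟩ (.node ⟨nat_lit 7, nat_lit 0x1000600070, nat_lit 0x11103, nat_lit 1, nat_lit 4, nat_lit 0x47⟩ (t14_3600) (t14_11792)) (.node ⟨nat_lit 7, nat_lit 0x20004000100044, nat_lit 0x1010200, nat_lit 5, nat_lit 4, nat_lit 0x49⟩ (t14_7696) (.nil)))))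
def t14_272 : Tr := .node ⟨nat_lit 7, nat_lit 0x40002000480060, nat_lit 0x112111, nat_lit 0, nat_lit 4, nat_lit 0x48⟩ (.nil) (.nil)
def t14_8464 : Tr := .node ⟨nat_lit 6, nat_lit 0x800280030, nat_lit 0x310, nat_lit 3, nat_lit 4, nat_lit 0x46⟩ (.nil) (.nil)
def t14_4368 : Tr := .node ⟨nat_lit 7, nat_lit 0x400040005800680070, nat_lit 0x1111102, nat_lit 1, nat_lit 4, nat_lit 0x46⟩ (.nil) (.nil)
def t14_12560 : Tr := .node ⟨nat_lit 6, nat_lit 0x20001000280038, nat_lit 0x100201, nat_lit 2, nat_lit 4, nat_lit 0x45⟩ (.nil) (.nil)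
def t14_2320 : Tr := .node ⟨nat_lit 6, nat_lit 0x10002000340034, nat_lit 0x202010, nat_lit 7, nat_lit 4, nat_lit 0x47⟩ (.nil) (.nil)
def t14_10512 : Tr := .node ⟨nat_lit 7, nat_lit 0x10004000400060, nat_lit 0x210, nat_lit 2, nat_lit 3, nat_lit 0x46⟩ (.nil) (.nil)
def t14_6416 : Tr := .node ⟨nat_lit 7, nat_lit 0x1000080060, nat_lit 0x1111110, nat_lit 0, nat_lit 4, nat_lit 0x49⟩ (.nil) (.nil)
def t14_14608 : Tr := .node ⟨nat_lit 6, nat_lit 0x20, nat_lit 0x111110, nat_lit 4, nat_lit 3, nat_lit 0x49⟩ (.nil) (.nil)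
def t14_1296 : Tr := .node ⟨nat_lit 6, nat_lit 0x2000200010, nat_lit 0x11221, nat_lit 5, nat_lit 4, nat_lit 0x49⟩ (.nil) (.nil)
def t14_9488 : Tr := .node ⟨nat_lit 0xa, nat_lit 0x1000200020002000180022002400240, nat_lit 0x101110110, nat_lit 0, nat_lit 4, nat_lit 0x49⟩ (.nil) (.nil)
def t14_5392 : Tr := .node ⟨nat_lit 8, nat_lit 0x4000800080009000900060, nat_lit 0x201101, nat_lit 0, nat_lit 4, nat_lit 0x46⟩ (.nil) (.nil)
def t14_13584 : Tr := .node ⟨nat_lit 6, nat_lit 0x2000080010, nat_lit 0x112, nat_lit 1, nat_lit 4, nat_lit 0x46⟩ (.nil) (.nil)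
def t14_3344 : Tr := .node ⟨nat_lit 6, nat_lit 0x2000080030, nat_lit 0x2200, nat_lit 1, nat_lit 4, nat_lit 0x47⟩ (.nil) (.nil)
def t14_11536 : Tr := .node ⟨nat_lit 4, nat_lit 0x8000a, nat_lit 0x132, nat_lit 7, nat_lit 4, nat_lit 0x47⟩ (.nil) (.nil)
def t14_7440 : Tr := .node ⟨nat_lit 4, nat_lit 0xc, nat_lit 0x1111, nat_lit 0xb, nat_lit 4, nat_lit 0x48⟩ (.nil) (.nil)
def t14_784 : Tr := .node ⟨nat_lit 6, nat_lit 0x800200030, nat_lit 0x20032, nat_lit 2, nat_lit 4, nat_lit 0x48⟩ (.nil) (.nil)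
def t14_8976 : Tr := .node ⟨nat_lit 6, nat_lit 0x200020003000300028, nat_lit 0x11201, nat_lit 9, nat_lit 4, nat_lit 0x47⟩ (.nil) (.nil)
def t14_4880 : Tr := .node ⟨nat_lit 9, nat_lit 0x10001000110012000c001a0, nat_lit 0x10010012, nat_lit 0, nat_lit 4, nat_lit 0x47⟩ (.nil) (.nil)
def t14_13072 : Tr := .node ⟨nat_lit 6, nat_lit 0x2000280030, nat_lit 0x131, nat_lit 3, nat_lit 4, nat_lit 0x46⟩ (.nil) (.nil)
def t14_2832 : Tr := .node ⟨nat_lit 7, nat_lit 0x1800180060, nat_lit 0x1100200, nat_lit 3, nat_lit 4, nat_lit 0x47⟩ (.nil) (.nil)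
def t14_11024 : Tr := .node ⟨nat_lit 7, nat_lit 0x40001000600060, nat_lit 0x1012120, nat_lit 1, nat_lit 4, nat_lit 0x48⟩ (.nil) (.nil)
def t14_6928 : Tr := .node ⟨nat_lit 5, nat_lit 0x1000140018, nat_lit 0x12101, nat_lit 9, nat_lit 4, nat_lit 0x48⟩ (.nil) (.nil)
def t14_15120 : Tr := .node ⟨nat_lit 7, nat_lit 0x40002000500064, nat_lit 0x1111, nat_lit 0, nat_lit 4, nat_lit 0x45⟩ (.nil) (.nil)
def t14_1808 : Tr := .node ⟨nat_lit 5, nat_lit 0x180014, nat_lit 0x10202, nat_lit 5, nat_lit 4, nat_lit 0x47⟩ (.nil) (.nil)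
def t14_10000 : Tr := .node ⟨nat_lit 7, nat_lit 0x200020004000400060, nat_lit 0x110203, nat_lit 0, nat_lit 3, nat_lit 0x46⟩ (.nil) (.nil)
def t14_5904 : Tr := .node ⟨nat_lit 8, nat_lit 0x40008000c000c4, nat_lit 0x10110121, nat_lit 1, nat_lit 4, nat_lit 0x49⟩ (.nil) (.nil)
def t14_14096 : Tr := .node ⟨nat_lit 6, nat_lit 0x10002000200020, nat_lit 0x1100, nat_lit 5, nat_lit 4, nat_lit 0x47⟩ (.nil) (.nil)
def t14_3856 : Tr := .node ⟨nat_lit 8, nat_lit 0x80008000200040, nat_lit 0x1111001, nat_lit 5, nat_lit 4, nat_lit 0x4b⟩ (.nil) (.nil)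
def t14_12048 : Tr := .node ⟨nat_lit 6, nat_lit 0x1000200030, nat_lit 0x101200, nat_lit 5, nat_lit 4, nat_lit 0x48⟩ (.nil) (.nil)
def t14_7952 : Tr := .node ⟨nat_lit 9, nat_lit 0x8001000100004001100110, nat_lit 0x1011021, nat_lit 1, nat_lit 4, nat_lit 0x49⟩ (.nil) (.nil)
def t9_272 : Tr := .node ⟨nat_lit 5, nat_lit 0x10, nat_lit 0x3212, nat_lit 0, nat_lit 4, nat_lit 0x49⟩ (.node ⟨nat_lit 8, nat_lit 0x400080002000880088, nat_lit 0x30001021, nat_lit 1, nat_lit 4, nat_lit 0x4a⟩ (.node ⟨nat_lit 7, nat_lit 0x1800500060, nat_lit 0x311120, nat_lit 0, nat_lit 4, nat_lit 0x48⟩ (.node ⟨nat_lit 5, nat_lit 0x80010, nat_lit 0x11231, nat_lit 1, nat_lit 3, nat_lit 0x47⟩ (.node ⟨nat_lit 4, nat_lit 0xc000c, nat_lit 0x2121, nat_lit 9, nat_lit 4, nat_lit 0x47⟩ (t14_272) (t14_8464)) (.node ⟨nat_lit 7, nat_lit 0x4000200060, nat_lit 0x1111003, nat_lit 1, nat_lit 3,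 nat_lit 0x48⟩ (t14_4368) (t14_12560))) (.node ⟨nat_lit 6, nat_lit 0x2000100008, nat_lit 0x20012, nat_lit 4, nat_lit 3, nat_lit 0x47⟩ (.node ⟨nat_lit 6, nat_lit 0x2000300028, nat_lit 0x21320, nat_lit 1, nat_lit 3, nat_lit 0x46⟩ (t14_2320) (t14_10512)) (.node ⟨nat_lit 7, nat_lit 0x1000600060, nat_lit 0x1102030, nat_lit 0, nat_lit 4, nat_lit 0x49⟩ (t14_6416) (t14_14608)))) (.node ⟨nat_lit 4, nat_lit 8, nat_lit 0x2111, nat_lit 9, nat_lit 4, nat_lit 0x49⟩ (.node ⟨nat_lit 7, nat_lit 0x4000100020, nat_lit 0x221011, nat_lit 3, nat_lit 4, nat_lit 0x4b⟩ (.node ⟨nat_lit 7, nat_lit 0x10004000200064, nat_lit 0x1100103, nat_lit 1, nat_lit 4, nat_lit 0x47⟩ (t14_1296) (t14_9488)) (.node ⟨nat_lit 7, nat_lit 0x40002000100060, nat_lit 0x1112102, nat_lit 1, nat_lit 4, nat_lit 0x49⟩ (t14_5392) (t14_13584))) (.node ⟨nat_lit 6, nat_lit 0x20001000100028, nat_lit 0x13210,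 nat_lit 0, nat_lit 4, nat_lit 0x47⟩ (.node ⟨nat_lit 8, nat_lit 0x8000800020004000c0, nat_lit 0x1110013, nat_lit 0, nat_lit 4, nat_lit 0x49⟩ (t14_3344) (t14_11536)) (.node ⟨nat_lit 6, nat_lit 0x20001000100030, nat_lit 0x111112, nat_lit 1, nat_lit 3, nat_lit 0x46⟩ (t14_7440) (.nil))))) (.node ⟨nat_lit 3, nat_lit 6, nat_lit 0x110, nat_lit 3, nat_lit 3, nat_lit 0x43⟩ (.node ⟨nat_lit 6, nat_lit 0x2000080034, nat_lit 0x211200, nat_lit 1, nat_lit 4, nat_lit 0x48⟩ (.node ⟨nat_lit 5, nat_lit 0x100018, nat_lit 0x1102, nat_lit 3, nat_lit 4, nat_lit 0x46⟩ (.node ⟨nat_lit 7, nat_lit 0x4000400044, nat_lit 0x2211020, nat_lit 0, nat_lit 4, nat_lit 0x4b⟩ (t14_784) (t14_8976)) (.node ⟨nat_lit 7, nat_lit 0x40001000100060, nat_lit 0x1112201, nat_lit 0, nat_lit 4, nat_lit 0x49⟩ (t14_4880) (t14_13072))) (.node ⟨nat_lit 6, nat_lit 0x800280030, nat_lit 0x11321, nat_lit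 0, nat_lit 4, nat_lit 0x47⟩ (.node ⟨nat_lit 8, nat_lit 0x800040009000d000e0, nat_lit 0x10202003, nat_lit 0, nat_lit 4, nat_lit 0x47⟩ (t14_2832) (t14_11024)) (.node ⟨nat_lit 7, nat_lit 0x40001000100060, nat_lit 0x1112112, nat_lit 0, nat_lit 4, nat_lit 0x49⟩ (t14_6928) (t14_15120)))) (.node ⟨nat_lit 5, nat_lit 0x18, nat_lit 0x11211, nat_lit 1, nat_lit 3, nat_lit 0x47⟩ (.node ⟨nat_lit 7, nat_lit 0x40001000680070, nat_lit 0x1012212, nat_lit 0, nat_lit 4, nat_lit 0x47⟩ (.node ⟨nat_lit 6, nat_lit 0x1000280030, nat_lit 0x1032, nat_lit 2, nat_lit 4, nat_lit 0x46⟩ (t14_1808) (t14_10000)) (.node ⟨nat_lit 9, nat_lit 0x10001000100008001200110, nat_lit 0x12100010, nat_lit 3, nat_lit 4, nat_lit 0x4a⟩ (t14_5904) (t14_14096))) (.node ⟨nat_lit 8, nat_lit 0x800020009000a000c0, nat_lit 0x2010122, nat_lit 1, nat_lit 4, nat_lit 0x48⟩ (.node ⟨nat_lit 7, nat_lit 0x40001000600068,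 nat_lit 0x1001010, nat_lit 0, nat_lit 4, nat_lit 0x46⟩ (t14_3856) (t14_12048)) (.node ⟨nat_lit 6, nat_lit 0x300030, nat_lit 0x111120, nat_lit 1, nat_lit 4, nat_lit 0x48⟩ (t14_7952) (.nil)))))
def t14_144 : Tr := .node ⟨nat_lit 7, nat_lit 0x40001000100060, nat_lit 0x1111201, nat_lit 1, nat_lit 4, nat_lit 0x49⟩ (.nil) (.nil)
def t14_8336 : Tr := .node ⟨nat_lit 7, nat_lit 0x5000180060, nat_lit 0x200, nat_lit 0, nat_lit 4, nat_lit 0x45⟩ (.nil) (.nil)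
def t14_4240 : Tr := .node ⟨nat_lit 6, nat_lit 0x2000080034, nat_lit 0x200210, nat_lit 1, nat_lit 4, nat_lit 0x47⟩ (.nil) (.nil)
def t14_12432 : Tr := .node ⟨nat_lit 7, nat_lit 0x40002000200060, nat_lit 0x1010310, nat_lit 0, nat_lit 3, nat_lit 0x47⟩ (.nil) (.nil)
def t14_2192 : Tr := .node ⟨nat_lit 8, nat_lit 0x800040002000a000c8, nat_lit 0x2020020, nat_lit 1, nat_lit 4, nat_lit 0x48⟩ (.nil) (.nil)
def t14_10384 : Tr := .node ⟨nat_lit 7, nat_lit 0x20002000500060, nat_lit 0x10023, nat_lit 2, nat_lit 4, nat_lit 0x47⟩ (.nil) (.nil)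
def t14_6288 : Tr := .node ⟨nat_lit 6, nat_lit 0x10001000200030, nat_lit 0x2210, nat_lit 3, nat_lit 4, nat_lit 0x47⟩ (.nil) (.nil)
def t14_14480 : Tr := .node ⟨nat_lit 8, nat_lit 0x80004000a000c0, nat_lit 0x10212, nat_lit 0, nat_lit 4, nat_lit 0x48⟩ (.nil) (.nil)
def t14_1168 : Tr := .node ⟨nat_lit 7, nat_lit 0x1000180060, nat_lit 0x1000221, nat_lit 0, nat_lit 4, nat_lit 0x47⟩ (.nil) (.nil)
def t14_9360 : Tr := .node ⟨nat_lit 7, nat_lit 0x10006000600050, nat_lit 0x12212, nat_lit 2, nat_lit 4, nat_lit 0x47⟩ (.nil) (.nil)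
def t14_5264 : Tr := .node ⟨nat_lit 5, nat_lit 0x180018, nat_lit 0x21130, nat_lit 3, nat_lit 4, nat_lit 0x48⟩ (.nil) (.nil)
def t14_13456 : Tr := .node ⟨nat_lit 4, nat_lit 0x80008, nat_lit 0x2200, nat_lit 6, nat_lit 3, nat_lit 0x47⟩ (.nil) (.nil)
def t14_3216 : Tr := .node ⟨nat_lit 8, nat_lit 0x8000400040009000c8, nat_lit 0x111100, nat_lit 0, nat_lit 4, nat_lit 0x47⟩ (.nil) (.nil)
def t14_11408 : Tr := .node ⟨nat_lit 5, nat_lit 0x40018, nat_lit 0x22020, nat_lit 1, nat_lit 4, nat_lit 0x47⟩ (.nil) (.nil)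
def t14_7312 : Tr := .node ⟨nat_lit 7, nat_lit 0x20004000400044, nat_lit 0x120020, nat_lit 0, nat_lit 4, nat_lit 0x48⟩ (.nil) (.nil)
def t14_15504 : Tr := .node ⟨nat_lit 8, nat_lit 0x4000400080008800e000c8, nat_lit 0x10112110, nat_lit 0, nat_lit 4, nat_lit 0x47⟩ (.nil) (.nil)
def t14_656 : Tr := .node ⟨nat_lit 5, nat_lit 0x1000100008, nat_lit 0x1311, nat_lit 7, nat_lit 4, nat_lit 0x48⟩ (.nil) (.nil)
def t14_8848 : Tr := .node ⟨nat_lit 5, nat_lit 0x80010001a, nat_lit 0x10300, nat_lit 5, nat_lit 4, nat_lit 0x46⟩ (.nil) (.nil)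
def t14_4752 : Tr := .node ⟨nat_lit 6, nat_lit 0x10002000240030, nat_lit 0x102103, nat_lit 4, nat_lit 4, nat_lit 0x47⟩ (.nil) (.nil)
def t14_12944 : Tr := .node ⟨nat_lit 7, nat_lit 0x10001000600050, nat_lit 0x1020, nat_lit 1, nat_lit 4, nat_lit 0x46⟩ (.nil) (.nil)
def t14_2704 : Tr := .node ⟨nat_lit 7, nat_lit 0x10001000600060, nat_lit 0x1010031, nat_lit 0, nat_lit 4, nat_lit 0x47⟩ (.nil) (.nil)
def t14_10896 : Tr := .node ⟨nat_lit 6, nat_lit 0x10002000200030, nat_lit 0x3220, nat_lit 0, nat_lit 3, nat_lit 0x45⟩ (.nil) (.nil)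
def t14_6800 : Tr := .node ⟨nat_lit 6, nat_lit 0x200030, nat_lit 0x21110, nat_lit 3, nat_lit 4, nat_lit 0x49⟩ (.nil) (.nil)
def t14_14992 : Tr := .node ⟨nat_lit 7, nat_lit 0x400040005000500070, nat_lit 0x1111111, nat_lit 3, nat_lit 4, nat_lit 0x48⟩ (.nil) (.nil)
def t14_1680 : Tr := .node ⟨nat_lit 7, nat_lit 0x1000500060, nat_lit 0x1221, nat_lit 0, nat_lit 4, nat_lit 0x47⟩ (.nil) (.nil)
def t14_9872 : Tr := .node ⟨nat_lit 9, nat_lit 0x1000080004000400040, nat_lit 0x200220, nat_lit 1, nat_lit 4, nat_lit 0x4b⟩ (.nil) (.nil)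
def t14_5776 : Tr := .node ⟨nat_lit 5, nat_lit 0x100010, nat_lit 0x1121, nat_lit 9, nat_lit 4, nat_lit 0x49⟩ (.nil) (.nil)
def t14_13968 : Tr := .node ⟨nat_lit 6, nat_lit 0x2000200034, nat_lit 0x1102, nat_lit 5, nat_lit 4, nat_lit 0x47⟩ (.nil) (.nil)
def t14_3728 : Tr := .node ⟨nat_lit 8, nat_lit 0x8000400040009000d0, nat_lit 0x20112001, nat_lit 0, nat_lit 4, nat_lit 0x49⟩ (.nil) (.nil)
def t14_11920 : Tr := .node ⟨nat_lit 6, nat_lit 0x10001000200020, nat_lit 0x3031, nat_lit 1, nat_lit 4, nat_lit 0x47⟩ (.nil) (.nil)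
def t14_7824 : Tr := .node ⟨nat_lit 7, nat_lit 0x40002000200048, nat_lit 0x12103, nat_lit 2, nat_lit 4, nat_lit 0x48⟩ (.nil) (.nil)
def t9_144 : Tr := .node ⟨nat_lit 5, nat_lit 0x180018, nat_lit 0x11211, nat_lit 0, nat_lit 3, nat_lit 0x45⟩ (.node ⟨nat_lit 4, nat_lit 0x8000c, nat_lit 0x1111, nat_lit 2, nat_lit 3, nat_lit 0x44⟩ (.node ⟨nat_lit 6, nat_lit 0x20001000280038, nat_lit 0x300202, nat_lit 2, nat_lit 4, nat_lit 0x47⟩ (.node ⟨nat_lit 4, nat_lit 0, nat_lit 0x2111, nat_lit 6, nat_lit 4, nat_lit 0x49⟩ (.node ⟨nat_lit 6, nat_lit 0x20001000280034, nat_lit 0x22211, nat_lit 2, nat_lit 4, nat_lit 0x47⟩ (t14_144) (t14_8336)) (.node ⟨nat_lit 6, nat_lit 0x200020, nat_lit 0x121130, nat_lit 2, nat_lit 3, nat_lit 0x49⟩ (t14_4240) (t14_12432))) (.node ⟨nat_lit 7, nat_lit 0x4000500060, nat_lit 0x112011, nat_lit 0, nat_lit 4, nat_lit 0x48⟩ (.node ⟨nat_lit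 7, nat_lit 0x20004000100060, nat_lit 0x12020, nat_lit 0, nat_lit 4, nat_lit 0x47⟩ (t14_2192) (t14_10384)) (.node ⟨nat_lit 6, nat_lit 0x20, nat_lit 0x221110, nat_lit 3, nat_lit 3, nat_lit 0x4a⟩ (t14_6288) (t14_14480)))) (.node ⟨nat_lit 4, nat_lit 8, nat_lit 0x1221, nat_lit 8, nat_lit 4, nat_lit 0x49⟩ (.node ⟨nat_lit 5, nat_lit 0x100018, nat_lit 0x21121, nat_lit 5, nat_lit 4, nat_lit 0x49⟩ (.node ⟨nat_lit 4, nat_lit 0x8000a, nat_lit 0x1230, nat_lit 7, nat_lit 4, nat_lit 0x48⟩ (t14_1168) (t14_9360)) (.node ⟨nat_lit 6, nat_lit 0x1000200030, nat_lit 0x111221, nat_lit 4, nat_lit 4, nat_lit 0x49⟩ (t14_5264) (t14_13456))) (.node ⟨nat_lit 6, nat_lit 0x200032, nat_lit 0x112100, nat_lit 1, nat_lit 4, nat_lit 0x48⟩ (.node ⟨nat_lit 7, nat_lit 0x40001000500068, nat_lit 0x1103102, nat_lit 0, nat_lit 4, nat_lit 0x48⟩ (t14_3216) (t14_11408)) (.node ⟨nat_lit 7,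 nat_lit 0x1000600050, nat_lit 0x1001010, nat_lit 1, nat_lit 4, nat_lit 0x47⟩ (t14_7312) (t14_15504))))) (.node ⟨nat_lit 6, nat_lit 0x2000100008, nat_lit 0x3002, nat_lit 7, nat_lit 4, nat_lit 0x4a⟩ (.node ⟨nat_lit 6, nat_lit 0x2000200010, nat_lit 0x21103, nat_lit 1, nat_lit 4, nat_lit 0x49⟩ (.node ⟨nat_lit 6, nat_lit 0x2000080030, nat_lit 0x211201, nat_lit 0, nat_lit 3, nat_lit 0x47⟩ (.node ⟨nat_lit 7, nat_lit 0x5000500060, nat_lit 0x211210, nat_lit 1, nat_lit 4, nat_lit 0x48⟩ (t14_656) (t14_8848)) (.node ⟨nat_lit 6, nat_lit 0x1000280030, nat_lit 0x112010, nat_lit 0, nat_lit 3, nat_lit 0x46⟩ (t14_4752) (t14_12944))) (.node ⟨nat_lit 6, nat_lit 0x800200032, nat_lit 0x110012, nat_lit 4, nat_lit 4, nat_lit 0x47⟩ (.node ⟨nat_lit 5, nat_lit 0x1000080008, nat_lit 0x1230, nat_lit 3, nat_lit 4, nat_lit 0x47⟩ (t14_2704) (t14_10896)) (.node ⟨nat_lit 7, nat_lit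 0x40004800300060, nat_lit 0x11130, nat_lit 0, nat_lit 4, nat_lit 0x46⟩ (t14_6800) (t14_14992)))) (.node ⟨nat_lit 5, nat_lit 0x10, nat_lit 0x21111, nat_lit 6, nat_lit 4, nat_lit 0x4a⟩ (.node ⟨nat_lit 7, nat_lit 0x100060, nat_lit 0x2011111, nat_lit 0, nat_lit 4, nat_lit 0x4a⟩ (.node ⟨nat_lit 5, nat_lit 0x180014, nat_lit 0x1113, nat_lit 3, nat_lit 4, nat_lit 0x46⟩ (t14_1680) (t14_9872)) (.node ⟨nat_lit 7, nat_lit 0x40004000100060, nat_lit 0x220012, nat_lit 1, nat_lit 4, nat_lit 0x49⟩ (t14_5776) (t14_13968))) (.node ⟨nat_lit 5, nat_lit 0x800100018, nat_lit 0x221, nat_lit 2, nat_lit 3, nat_lit 0x44⟩ (.node ⟨nat_lit 4, nat_lit 0x8000c, nat_lit 0x1130, nat_lit 4, nat_lit 3, nat_lit 0x45⟩ (t14_3728) (t14_11920)) (.node ⟨nat_lit 6, nat_lit 0x20001000100030, nat_lit 0x10221, nat_lit 2, nat_lit 3, nat_lit 0x46⟩ (t14_7824) (.nil)))))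
def t14_400 : Tr := .node ⟨nat_lit 8, nat_lit 0x40002000200080, nat_lit 0x10120111, nat_lit 2, nat_lit 4, nat_lit 0x4b⟩ (.nil) (.nil)
def t14_8592 : Tr := .node ⟨nat_lit 4, nat_lit 0xc000c, nat_lit 0x1010, nat_lit 6, nat_lit 3, nat_lit 0x44⟩ (.nil) (.nil)
def t14_4496 : Tr := .node ⟨nat_lit 7, nat_lit 0x40004000200048, nat_lit 0x1111101, nat_lit 6, nat_lit 4, nat_lit 0x4a⟩ (.nil) (.nil)
def t14_12688 : Tr := .node ⟨nat_lit 6, nat_lit 0x800200030, nat_lit 0x100020, nat_lit 3, nat_lit 4, nat_lit 0x47⟩ (.nil) (.nil)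
def t14_2448 : Tr := .node ⟨nat_lit 5, nat_lit 0x18001c, nat_lit 0x11202, nat_lit 5, nat_lit 4, nat_lit 0x47⟩ (.nil) (.nil)
def t14_10640 : Tr := .node ⟨nat_lit 7, nat_lit 0x6000500018, nat_lit 0x100120, nat_lit 1, nat_lit 4, nat_lit 0x46⟩ (.nil) (.nil)
def t14_6544 : Tr := .node ⟨nat_lit 5, nat_lit 0x1000080014, nat_lit 0x11012, nat_lit 4, nat_lit 4, nat_lit 0x46⟩ (.nil) (.nil)
def t14_14736 : Tr := .node ⟨nat_lit 7, nat_lit 0x10006000600050, nat_lit 0x13112, nat_lit 1, nat_lit 4, nat_lit 0x47⟩ (.nil) (.nil)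
def t14_1424 : Tr := .node ⟨nat_lit 7, nat_lit 0x40002000500060, nat_lit 0x113101, nat_lit 0, nat_lit 4, nat_lit 0x48⟩ (.nil) (.nil)
def t14_9616 : Tr := .node ⟨nat_lit 6, nat_lit 0x20001000300034, nat_lit 0x3120, nat_lit 4, nat_lit 4, nat_lit 0x46⟩ (.nil) (.nil)
def t14_5520 : Tr := .node ⟨nat_lit 7, nat_lit 0x2000400060, nat_lit 0x11013, nat_lit 0, nat_lit 4, nat_lit 0x48⟩ (.nil) (.nil)
def t14_13712 : Tr := .node ⟨nat_lit 8, nat_lit 0x800040002000c000a0, nat_lit 0x10210, nat_lit 1, nat_lit 4, nat_lit 0x47⟩ (.nil) (.nil)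
def t14_3472 : Tr := .node ⟨nat_lit 8, nat_lit 0x800080004000a000c000e0, nat_lit 0x2010, nat_lit 1, nat_lit 4, nat_lit 0x46⟩ (.nil) (.nil)
def t14_11664 : Tr := .node ⟨nat_lit 8, nat_lit 0x4000800060009000d000d0, nat_lit 0x10300110, nat_lit 0, nat_lit 4, nat_lit 0x46⟩ (.nil) (.nil)
def t14_7568 : Tr := .node ⟨nat_lit 4, nat_lit 0x8000c, nat_lit 0x232, nat_lit 6, nat_lit 3, nat_lit 0x45⟩ (.nil) (.nil)
def t14_912 : Tr := .node ⟨nat_lit 7, nat_lit 0x40004000100060, nat_lit 0x112102, nat_lit 0, nat_lit 4, nat_lit 0x48⟩ (.nil) (.nil)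
def t14_9104 : Tr := .node ⟨nat_lit 8, nat_lit 0x8000800040009000a000c0, nat_lit 0x1100002, nat_lit 5, nat_lit 4, nat_lit 0x48⟩ (.nil) (.nil)
def t14_5008 : Tr := .node ⟨nat_lit 5, nat_lit 0x1000100008, nat_lit 0x101, nat_lit 4, nat_lit 4, nat_lit 0x45⟩ (.nil) (.nil)
def t14_13200 : Tr := .node ⟨nat_lit 7, nat_lit 0x20002000500068, nat_lit 0x21030, nat_lit 0, nat_lit 4, nat_lit 0x47⟩ (.nil) (.nil)
def t14_2960 : Tr := .node ⟨nat_lit 7, nat_lit 0x1000400060, nat_lit 0x1001003, nat_lit 0, nat_lit 4, nat_lit 0x48⟩ (.nil) (.nil)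
def t14_11152 : Tr := .node ⟨nat_lit 4, nat_lit 0x8000c, nat_lit 0x1010, nat_lit 6, nat_lit 4, nat_lit 0x45⟩ (.nil) (.nil)
def t14_7056 : Tr := .node ⟨nat_lit 7, nat_lit 0x20004000440060, nat_lit 0x1011101, nat_lit 3, nat_lit 4, nat_lit 0x48⟩ (.nil) (.nil)
def t14_15248 : Tr := .node ⟨nat_lit 7, nat_lit 0x20002000400068, nat_lit 0x12011, nat_lit 0, nat_lit 4, nat_lit 0x47⟩ (.nil) (.nil)
def t14_1936 : Tr := .node ⟨nat_lit 5, nat_lit 0x1000080014, nat_lit 0x2011, nat_lit 2, nat_lit 4, nat_lit 0x45⟩ (.nil) (.nil)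
def t14_10128 : Tr := .node ⟨nat_lit 4, nat_lit 0xc, nat_lit 0x20, nat_lit 5, nat_lit 3, nat_lit 0x45⟩ (.nil) (.nil)
def t14_6032 : Tr := .node ⟨nat_lit 6, nat_lit 0x80030, nat_lit 0x111210, nat_lit 2, nat_lit 4, nat_lit 0x49⟩ (.nil) (.nil)
def t14_14224 : Tr := .node ⟨nat_lit 7, nat_lit 0x4000440030, nat_lit 0x100112, nat_lit 0, nat_lit 4, nat_lit 0x47⟩ (.nil) (.nil)
def t14_3984 : Tr := .node ⟨nat_lit 7, nat_lit 0x40002000500068, nat_lit 0x1011200, nat_lit 1, nat_lit 4, nat_lit 0x47⟩ (.nil) (.nil)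
def t14_12176 : Tr := .node ⟨nat_lit 7, nat_lit 0x40001000600060, nat_lit 0x1110, nat_lit 1, nat_lit 4, nat_lit 0x46⟩ (.nil) (.nil)
def t14_8080 : Tr := .node ⟨nat_lit 6, nat_lit 0x2000200024, nat_lit 0x11113, nat_lit 3, nat_lit 4, nat_lit 0x48⟩ (.nil) (.nil)
def t9_400 : Tr := .node ⟨nat_lit 4, nat_lit 0x80004, nat_lit 0x302, nat_lit 1, nat_lit 3, nat_lit 0x46⟩ (.node ⟨nat_lit 6, nat_lit 0x1000100020, nat_lit 0x113111, nat_lit 0, nat_lit 4, nat_lit 0x49⟩ (.node ⟨nat_lit 2, nat_lit 0, nat_lit 0x22, nat_lit 7, nat_lit 4, nat_lit 0x45⟩ (.node ⟨nat_lit 5, nat_lit 0x140018, nat_lit 0x1112, nat_lit 2, nat_lit 4, nat_lit 0x45⟩ (.node ⟨nat_lit 7, nat_lit 0x5000600060, nat_lit 0x21121, nat_lit 0, nat_lit 4, nat_lit 0x47⟩ (t14_400) (t14_8592)) (.node ⟨nat_lit 7, nat_lit 0x40004000200068, nat_lit 0x1012002, nat_lit 0, nat_lit 4, nat_lit 0x48⟩ (t14_4496)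 (t14_12688))) (.node ⟨nat_lit 6, nat_lit 0x2000080010, nat_lit 0x22011, nat_lit 2, nat_lit 4, nat_lit 0x49⟩ (.node ⟨nat_lit 6, nat_lit 0x80030, nat_lit 0x111101, nat_lit 0, nat_lit 3, nat_lit 0x47⟩ (t14_2448) (t14_10640)) (.node ⟨nat_lit 7, nat_lit 0x2000200040, nat_lit 0x20202, nat_lit 0, nat_lit 4, nat_lit 0x49⟩ (t14_6544) (t14_14736)))) (.node ⟨nat_lit 5, nat_lit 0x140018, nat_lit 0x12112, nat_lit 2, nat_lit 3, nat_lit 0x46⟩ (.node ⟨nat_lit 6, nat_lit 0x300030, nat_lit 0x112021, nat_lit 0, nat_lit 4, nat_lit 0x48⟩ (.node ⟨nat_lit 5, nat_lit 0x10001a, nat_lit 0x11100, nat_lit 3, nat_lit 4, nat_lit 0x46⟩ (t14_1424) (t14_9616)) (.node ⟨nat_lit 7, nat_lit 0x20002000400042, nat_lit 0x1122100, nat_lit 4, nat_lit 4, nat_lit 0x4a⟩ (t14_5520) (t14_13712))) (.node ⟨nat_lit 6, nat_lit 0x10001000100020, nat_lit 0x102111, nat_lit 4, nat_lit 4, nat_lit 0x48⟩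 (.node ⟨nat_lit 7, nat_lit 0x6000600050, nat_lit 0x21003, nat_lit 1, nat_lit 4, nat_lit 0x48⟩ (t14_3472) (t14_11664)) (.node ⟨nat_lit 8, nat_lit 0x200040008000c0, nat_lit 0x11010211, nat_lit 1, nat_lit 4, nat_lit 0x4a⟩ (t14_7568) (.nil))))) (.node ⟨nat_lit 5, nat_lit 0x180018, nat_lit 0x10121, nat_lit 4, nat_lit 3, nat_lit 0x45⟩ (.node ⟨nat_lit 6, nat_lit 0x200010, nat_lit 0x22101, nat_lit 0, nat_lit 4, nat_lit 0x49⟩ (.node ⟨nat_lit 5, nat_lit 0x10, nat_lit 0x11112, nat_lit 4, nat_lit 4, nat_lit 0x49⟩ (.node ⟨nat_lit 6, nat_lit 0x20, nat_lit 0x221110, nat_lit 5, nat_lit 4, nat_lit 0x4c⟩ (t14_912) (t14_9104)) (.node ⟨nat_lit 6, nat_lit 0x80030, nat_lit 0x211102, nat_lit 5, nat_lit 4, nat_lit 0x4a⟩ (t14_5008) (t14_13200))) (.node ⟨nat_lit 7, nat_lit 0x40002000600064, nat_lit 0x110120, nat_lit 0, nat_lit 4, nat_lit 0x47⟩ (.node ⟨nat_lit 8, nat_lit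 0x8000800040009000a00048, nat_lit 0x1112110, nat_lit 0, nat_lit 4, nat_lit 0x47⟩ (t14_2960) (t14_11152)) (.node ⟨nat_lit 7, nat_lit 0x500060, nat_lit 0x1111122, nat_lit 2, nat_lit 4, nat_lit 0x4a⟩ (t14_7056) (t14_15248)))) (.node ⟨nat_lit 4, nat_lit 0x8000c, nat_lit 0x110, nat_lit 5, nat_lit 3, nat_lit 0x44⟩ (.node ⟨nat_lit 8, nat_lit 0x800010002000c0, nat_lit 0x2111101, nat_lit 1, nat_lit 4, nat_lit 0x4a⟩ (.node ⟨nat_lit 6, nat_lit 0x10002000200030, nat_lit 0x111203, nat_lit 0, nat_lit 3, nat_lit 0x46⟩ (t14_1936) (t14_10128)) (.node ⟨nat_lit 8, nat_lit 0x80002000c000c0, nat_lit 0x121020, nat_lit 0, nat_lit 4, nat_lit 0x49⟩ (t14_6032) (t14_14224))) (.node ⟨nat_lit 6, nat_lit 0x2000080030, nat_lit 0x1210, nat_lit 0, nat_lit 4, nat_lit 0x46⟩ (.node ⟨nat_lit 7, nat_lit 0x40005000680070, nat_lit 0x1101103, nat_lit 1, nat_lit 4, nat_lit 0x46⟩ (t14_3984)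 (t14_12176)) (.node ⟨nat_lit 9, nat_lit 0x8001000100012000c001a001c0, nat_lit 0x11111011, nat_lit 0, nat_lit 4, nat_lit 0x47⟩ (t14_8080) (.nil)))))
def t14_80 : Tr := .node ⟨nat_lit 7, nat_lit 0x40001000500060, nat_lit 0x211112, nat_lit 1, nat_lit 4, nat_lit 0x48⟩ (.nil) (.nil)
def t14_8272 : Tr := .node ⟨nat_lit 5, nat_lit 0x180018, nat_lit 0x130, nat_lit 6, nat_lit 4, nat_lit 0x46⟩ (.nil) (.nil)
def t14_4176 : Tr := .node ⟨nat_lit 8, nat_lit 0x800080004000900090, nat_lit 0x1110120, nat_lit 3, nat_lit 4, nat_lit 0x49⟩ (.nil) (.nil)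
def t14_12368 : Tr := .node ⟨nat_lit 7, nat_lit 0x20002000400060, nat_lit 0x11130, nat_lit 0, nat_lit 4, nat_lit 0x48⟩ (.nil) (.nil)
def t14_2128 : Tr := .node ⟨nat_lit 7, nat_lit 0x40004000200060, nat_lit 0x112202, nat_lit 1, nat_lit 4, nat_lit 0x49⟩ (.nil) (.nil)
def t14_10320 : Tr := .node ⟨nat_lit 5, nat_lit 0x180018, nat_lit 0x10122, nat_lit 6, nat_lit 4, nat_lit 0x47⟩ (.nil) (.nil)
def t14_6224 : Tr := .node ⟨nat_lit 7, nat_lit 0x4000200020, nat_lit 0x11020, nat_lit 2, nat_lit 4, nat_lit 0x49⟩ (.nil) (.nil)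
def t14_14416 : Tr := .node ⟨nat_lit 8, nat_lit 0x40002000200080, nat_lit 0x10002100, nat_lit 0, nat_lit 4, nat_lit 0x49⟩ (.nil) (.nil)
def t14_1104 : Tr := .node ⟨nat_lit 7, nat_lit 0x2000400064, nat_lit 0x110021, nat_lit 1, nat_lit 4, nat_lit 0x48⟩ (.nil) (.nil)
def t14_9296 : Tr := .node ⟨nat_lit 9, nat_lit 0x4001000080011001800188, nat_lit 0x11121, nat_lit 0, nat_lit 4, nat_lit 0x47⟩ (.nil) (.nil)
def t14_5200 : Tr := .node ⟨nat_lit 8, nat_lit 0x800040009000a000c0, nat_lit 0x120111, nat_lit 3, nat_lit 4, nat_lit 0x48⟩ (.nil) (.nil)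
def t14_13392 : Tr := .node ⟨nat_lit 6, nat_lit 0x10001000200020, nat_lit 0x10000, nat_lit 0, nat_lit 3, nat_lit 0x45⟩ (.nil) (.nil)
def t14_3152 : Tr := .node ⟨nat_lit 7, nat_lit 0x20002000500068, nat_lit 0x110111, nat_lit 1, nat_lit 4, nat_lit 0x47⟩ (.nil) (.nil)
def t14_11344 : Tr := .node ⟨nat_lit 7, nat_lit 0x10004000400060, nat_lit 0x100110, nat_lit 1, nat_lit 3, nat_lit 0x46⟩ (.nil) (.nil)
def t14_7248 : Tr := .node ⟨nat_lit 7, nat_lit 0x3000500060, nat_lit 0x2101012, nat_lit 0, nat_lit 4, nat_lit 0x48⟩ (.nil) (.nil)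
def t14_15440 : Tr := .node ⟨nat_lit 8, nat_lit 0x8000200090009000c0, nat_lit 0x11101102, nat_lit 0, nat_lit 4, nat_lit 0x48⟩ (.nil) (.nil)
def t14_592 : Tr := .node ⟨nat_lit 3, nat_lit 0x40004, nat_lit 0x20, nat_lit 7, nat_lit 4, nat_lit 0x44⟩ (.nil) (.nil)
def t14_8784 : Tr := .node ⟨nat_lit 7, nat_lit 0x400040002000200050, nat_lit 0x10103, nat_lit 3, nat_lit 4, nat_lit 0x47⟩ (.nil) (.nil)
def t14_4688 : Tr := .node ⟨nat_lit 6, nat_lit 0x20001000100010, nat_lit 0x100210, nat_lit 2, nat_lit 3, nat_lit 0x46⟩ (.nil) (.nil)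
def t14_12880 : Tr := .node ⟨nat_lit 7, nat_lit 0x40004000200060, nat_lit 0x12030, nat_lit 0, nat_lit 4, nat_lit 0x48⟩ (.nil) (.nil)
def t14_2640 : Tr := .node ⟨nat_lit 5, nat_lit 0x80010, nat_lit 0x32, nat_lit 1, nat_lit 4, nat_lit 0x46⟩ (.nil) (.nil)
def t14_10832 : Tr := .node ⟨nat_lit 8, nat_lit 0x10008000a000c0, nat_lit 0x1100022, nat_lit 3, nat_lit 4, nat_lit 0x49⟩ (.nil) (.nil)
def t14_6736 : Tr := .node ⟨nat_lit 6, nat_lit 0x2000080030, nat_lit 0x21110, nat_lit 3, nat_lit 4, nat_lit 0x48⟩ (.nil) (.nil)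
def t14_14928 : Tr := .node ⟨nat_lit 8, nat_lit 0x800020009000b000d0, nat_lit 0x11010121, nat_lit 0, nat_lit 4, nat_lit 0x47⟩ (.nil) (.nil)
def t14_1616 : Tr := .node ⟨nat_lit 8, nat_lit 0x40008000c000a000c8, nat_lit 0x121200, nat_lit 1, nat_lit 4, nat_lit 0x47⟩ (.nil) (.nil)
def t14_9808 : Tr := .node ⟨nat_lit 7, nat_lit 0x200020004000400060, nat_lit 0x10102, nat_lit 0, nat_lit 3, nat_lit 0x45⟩ (.nil) (.nil)
def t14_5712 : Tr := .node ⟨nat_lit 7, nat_lit 0x40002000480030, nat_lit 0x1001210, nat_lit 1, nat_lit 4, nat_lit 0x47⟩ (.nil) (.nil)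
def t14_13904 : Tr := .node ⟨nat_lit 6, nat_lit 0x2000080030, nat_lit 0x1430, nat_lit 1, nat_lit 4, nat_lit 0x48⟩ (.nil) (.nil)
def t14_3664 : Tr := .node ⟨nat_lit 7, nat_lit 0x1000600050, nat_lit 0x102021, nat_lit 2, nat_lit 4, nat_lit 0x48⟩ (.nil) (.nil)
def t14_11856 : Tr := .node ⟨nat_lit 6, nat_lit 0x20002000100028, nat_lit 0x1030, nat_lit 6, nat_lit 4, nat_lit 0x47⟩ (.nil) (.nil)
def t14_7760 : Tr := .node ⟨nat_lit 9, nat_lit 0x400100002001080180, nat_lit 0x10002002, nat_lit 1, nat_lit 4, nat_lit 0x49⟩ (.nil) (.nil)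
def t9_80 : Tr := .node ⟨nat_lit 4, nat_lit 0x80004, nat_lit 0x102, nat_lit 1, nat_lit 3, nat_lit 0x44⟩ (.node ⟨nat_lit 6, nat_lit 0x200022, nat_lit 0x232210, nat_lit 0, nat_lit 4, nat_lit 0x4b⟩ (.node ⟨nat_lit 6, nat_lit 0x2000300030, nat_lit 0x13022, nat_lit 0, nat_lit 3, nat_lit 0x46⟩ (.node ⟨nat_lit 6, nat_lit 0x2000100024, nat_lit 0x112010, nat_lit 0, nat_lit 4, nat_lit 0x47⟩ (.node ⟨nat_lit 7, nat_lit 0x400020, nat_lit 0x1211113, nat_lit 0, nat_lit 4, nat_lit 0x4c⟩ (t14_80) (t14_8272)) (.node ⟨nat_lit 7, nat_lit 0x1000600050, nat_lit 0x1001004, nat_lit 0, nat_lit 4, nat_lit 0x48⟩ (t14_4176) (t14_12368))) (.node ⟨nat_lit 6, nat_lit 0x800280030, nat_lit 0x112221, nat_lit 0, nat_lit 4, nat_lit 0x48⟩ (.node ⟨nat_lit 6, nat_lit 0x800200030, nat_lit 0x100024, nat_lit 0, nat_lit 4, nat_lit 0x47⟩ (t14_2128) (t14_10320)) (.node ⟨nat_lit 7, nat_lit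 0x200040004000300048, nat_lit 0x122101, nat_lit 0, nat_lit 4, nat_lit 0x47⟩ (t14_6224) (t14_14416)))) (.node ⟨nat_lit 5, nat_lit 0x18, nat_lit 0x20213, nat_lit 1, nat_lit 4, nat_lit 0x48⟩ (.node ⟨nat_lit 5, nat_lit 0x18, nat_lit 0x22111, nat_lit 2, nat_lit 4, nat_lit 0x49⟩ (.node ⟨nat_lit 7, nat_lit 0x400020002000200050, nat_lit 0x1031110, nat_lit 0, nat_lit 4, nat_lit 0x48⟩ (t14_1104) (t14_9296)) (.node ⟨nat_lit 7, nat_lit 0x40001000600060, nat_lit 0x112031, nat_lit 1, nat_lit 4, nat_lit 0x48⟩ (t14_5200) (t14_13392))) (.node ⟨nat_lit 6, nat_lit 0x280030, nat_lit 0x12211, nat_lit 0, nat_lit 4, nat_lit 0x48⟩ (.node ⟨nat_lit 6, nat_lit 0x2000200034, nat_lit 0x12100, nat_lit 2, nat_lit 4, nat_lit 0x47⟩ (t14_3152) (t14_11344)) (.node ⟨nat_lit 6, nat_lit 0x10002000180024, nat_lit 0x111102, nat_lit 1, nat_lit 4, nat_lit 0x46⟩ (t14_7248) (t14_15440)))))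 (.node ⟨nat_lit 2, nat_lit 2, nat_lit 0x20, nat_lit 9, nat_lit 3, nat_lit 0x44⟩ (.node ⟨nat_lit 5, nat_lit 0x800100010, nat_lit 0x12200, nat_lit 0, nat_lit 3, nat_lit 0x46⟩ (.node ⟨nat_lit 5, nat_lit 0x800100010, nat_lit 0x1220, nat_lit 2, nat_lit 4, nat_lit 0x46⟩ (.node ⟨nat_lit 6, nat_lit 0x800200030, nat_lit 0x201120, nat_lit 5, nat_lit 4, nat_lit 0x49⟩ (t14_592) (t14_8784)) (.node ⟨nat_lit 7, nat_lit 0x4000100060, nat_lit 0x1111012, nat_lit 0, nat_lit 4, nat_lit 0x49⟩ (t14_4688) (t14_12880))) (.node ⟨nat_lit 3, nat_lit 4, nat_lit 0x110, nat_lit 5, nat_lit 4, nat_lit 0x44⟩ (.node ⟨nat_lit 6, nat_lit 0x1000200038, nat_lit 0x211203, nat_lit 1, nat_lit 4, nat_lit 0x48⟩ (t14_2640) (t14_10832)) (.node ⟨nat_lit 8, nat_lit 0x80008000880084, nat_lit 0x11112110, nat_lit 0, nat_lit 4, nat_lit 0x4b⟩ (t14_6736) (t14_14928)))) (.node ⟨nat_lit 6, nat_lit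 0x280030, nat_lit 0x121101, nat_lit 1, nat_lit 4, nat_lit 0x48⟩ (.node ⟨nat_lit 5, nat_lit 0x18, nat_lit 0x30311, nat_lit 3, nat_lit 4, nat_lit 0x4a⟩ (.node ⟨nat_lit 6, nat_lit 0x300028, nat_lit 0x101, nat_lit 1, nat_lit 4, nat_lit 0x45⟩ (t14_1616) (t14_9808)) (.node ⟨nat_lit 7, nat_lit 0x400060, nat_lit 0x1122111, nat_lit 0, nat_lit 4, nat_lit 0x4b⟩ (t14_5712) (t14_13904))) (.node ⟨nat_lit 6, nat_lit 0x800080030, nat_lit 0x200102, nat_lit 6, nat_lit 4, nat_lit 0x48⟩ (.node ⟨nat_lit 6, nat_lit 0x300038, nat_lit 0x201103, nat_lit 1, nat_lit 4, nat_lit 0x47⟩ (t14_3664) (t14_11856)) (.node ⟨nat_lit 6, nat_lit 0x2000080010, nat_lit 0x111022, nat_lit 1, nat_lit 3, nat_lit 0x47⟩ (t14_7760) (.nil)))))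
def t14_336 : Tr := .node ⟨nat_lit 6, nat_lit 0x3000300030, nat_lit 0x102211, nat_lit 3, nat_lit 4, nat_lit 0x47⟩ (.nil) (.nil)
def t14_8528 : Tr := .node ⟨nat_lit 5, nat_lit 0x800100012, nat_lit 0x10014, nat_lit 5, nat_lit 4, nat_lit 0x47⟩ (.nil) (.nil)
def t14_4432 : Tr := .node ⟨nat_lit 8, nat_lit 0x800080004000200090, nat_lit 0x11121001, nat_lit 0, nat_lit 4, nat_lit 0x4a⟩ (.nil) (.nil)
def t14_12624 : Tr := .node ⟨nat_lit 7, nat_lit 0x40004800600030, nat_lit 0x1002030, nat_lit 0, nat_lit 4, nat_lit 0x47⟩ (.nil) (.nil)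
def t14_2384 : Tr := .node ⟨nat_lit 6, nat_lit 0x2000300034, nat_lit 0x1202, nat_lit 3, nat_lit 4, nat_lit 0x46⟩ (.nil) (.nil)
def t14_10576 : Tr := .node ⟨nat_lit 7, nat_lit 0x200040004800600070, nat_lit 0x11000, nat_lit 2, nat_lit 4, nat_lit 0x45⟩ (.nil) (.nil)
def t14_6480 : Tr := .node ⟨nat_lit 6, nat_lit 0x800200030, nat_lit 0x110010, nat_lit 3, nat_lit 4, nat_lit 0x47⟩ (.nil) (.nil)
def t14_14672 : Tr := .node ⟨nat_lit 8, nat_lit 0x4000400080008000d000e0, nat_lit 0x112011, nat_lit 0, nat_lit 4, nat_lit 0x46⟩ (.nil) (.nil)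
def t14_1360 : Tr := .node ⟨nat_lit 8, nat_lit 0x40008000a000c800c8, nat_lit 0x10031110, nat_lit 0, nat_lit 4, nat_lit 0x47⟩ (.nil) (.nil)
def t14_9552 : Tr := .node ⟨nat_lit 7, nat_lit 0x40005000600068, nat_lit 0x102021, nat_lit 3, nat_lit 4, nat_lit 0x47⟩ (.nil) (.nil)
def t14_5456 : Tr := .node ⟨nat_lit 7, nat_lit 0x10004000400064, nat_lit 0x10203, nat_lit 0, nat_lit 4, nat_lit 0x47⟩ (.nil) (.nil)
def t14_13648 : Tr := .node ⟨nat_lit 7, nat_lit 0x40001000140060, nat_lit 0x1021, nat_lit 0, nat_lit 4, nat_lit 0x45⟩ (.nil) (.nil)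
def t14_3408 : Tr := .node ⟨nat_lit 7, nat_lit 0x20004000600068, nat_lit 0x1210, nat_lit 0, nat_lit 4, nat_lit 0x46⟩ (.nil) (.nil)
def t14_11600 : Tr := .node ⟨nat_lit 7, nat_lit 0x10006000600070, nat_lit 0x11301, nat_lit 1, nat_lit 4, nat_lit 0x46⟩ (.nil) (.nil)
def t14_7504 : Tr := .node ⟨nat_lit 8, nat_lit 0x80008000800040009000e0, nat_lit 0x1011111, nat_lit 3, nat_lit 4, nat_lit 0x48⟩ (.nil) (.nil)
def t14_848 : Tr := .node ⟨nat_lit 8, nat_lit 0x400020008000840050, nat_lit 0x10121002, nat_lit 0, nat_lit 4, nat_lit 0x48⟩ (.nil) (.nil)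
def t14_9040 : Tr := .node ⟨nat_lit 7, nat_lit 0x10004000400060, nat_lit 0x200210, nat_lit 3, nat_lit 3, nat_lit 0x47⟩ (.nil) (.nil)
def t14_4944 : Tr := .node ⟨nat_lit 7, nat_lit 0x4000600070, nat_lit 0x101013, nat_lit 1, nat_lit 4, nat_lit 0x47⟩ (.nil) (.nil)
def t14_13136 : Tr := .node ⟨nat_lit 7, nat_lit 0x400020002000500068, nat_lit 0x22100, nat_lit 1, nat_lit 4, nat_lit 0x46⟩ (.nil) (.nil)
def t14_2896 : Tr := .node ⟨nat_lit 7, nat_lit 0x20006000500068, nat_lit 0x121120, nat_lit 0, nat_lit 4, nat_lit 0x47⟩ (.nil) (.nil)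
def t14_11088 : Tr := .node ⟨nat_lit 4, nat_lit 0x8000c, nat_lit 0x20, nat_lit 7, nat_lit 4, nat_lit 0x45⟩ (.nil) (.nil)
def t14_6992 : Tr := .node ⟨nat_lit 5, nat_lit 0x1000100010, nat_lit 0x11211, nat_lit 5, nat_lit 3, nat_lit 0x47⟩ (.nil) (.nil)
def t14_15184 : Tr := .node ⟨nat_lit 7, nat_lit 0x2000500060, nat_lit 0x1111021, nat_lit 1, nat_lit 4, nat_lit 0x49⟩ (.nil) (.nil)
def t14_1872 : Tr := .node ⟨nat_lit 7, nat_lit 0x4000440060, nat_lit 0x21101, nat_lit 1, nat_lit 4, nat_lit 0x48⟩ (.nil) (.nil)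
def t14_10064 : Tr := .node ⟨nat_lit 8, nat_lit 0x200080001000c0, nat_lit 0x10000002, nat_lit 0, nat_lit 4, nat_lit 0x48⟩ (.nil) (.nil)
def t14_5968 : Tr := .node ⟨nat_lit 8, nat_lit 0x80008000c0, nat_lit 0x1111211, nat_lit 1, nat_lit 4, nat_lit 0x4b⟩ (.nil) (.nil)
def t14_14160 : Tr := .node ⟨nat_lit 7, nat_lit 0x1000400060, nat_lit 0x12021, nat_lit 2, nat_lit 4, nat_lit 0x49⟩ (.nil) (.nil)
def t14_3920 : Tr := .node ⟨nat_lit 5, nat_lit 0x100018, nat_lit 0x11100, nat_lit 2, nat_lit 3, nat_lit 0x46⟩ (.nil) (.nil)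
def t14_12112 : Tr := .node ⟨nat_lit 5, nat_lit 0x800100018, nat_lit 0x1130, nat_lit 5, nat_lit 4, nat_lit 0x47⟩ (.nil) (.nil)
def t14_8016 : Tr := .node ⟨nat_lit 6, nat_lit 0x200022, nat_lit 0x11114, nat_lit 0, nat_lit 4, nat_lit 0x48⟩ (.nil) (.nil)
def t9_336 : Tr := .node ⟨nat_lit 5, nat_lit 0x10, nat_lit 0x3111, nat_lit 1, nat_lit 4, nat_lit 0x48⟩ (.node ⟨nat_lit 6, nat_lit 0x200030, nat_lit 0x32103, nat_lit 0, nat_lit 4, nat_lit 0x4a⟩ (.node ⟨nat_lit 5, nat_lit 0x18, nat_lit 0x22112, nat_lit 3, nat_lit 4, nat_lit 0x49⟩ (.node ⟨nat_lit 5, nat_lit 0x100018, nat_lit 0x11212, nat_lit 4, nat_lit 4, nat_lit 0x48⟩ (.node ⟨nat_lit 6, nat_lit 0x1000080020, nat_lit 0x222012, nat_lit 0, nat_lit 4, nat_lit 0x4a⟩ (t14_336) (t14_8528)) (.node ⟨nat_lit 5, nat_lit 0x100018, nat_lit 0x21103, nat_lit 4, nat_lit 3, nat_lit 0x47⟩ (t14_4432) (t14_12624))) (.node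 ⟨nat_lit 5, nat_lit 0x1000100008, nat_lit 0x1102, nat_lit 2, nat_lit 3, nat_lit 0x45⟩ (.node ⟨nat_lit 9, nat_lit 0x4001000100008001100180, nat_lit 0x10010103, nat_lit 1, nat_lit 4, nat_lit 0x49⟩ (t14_2384) (t14_10576)) (.node ⟨nat_lit 6, nat_lit 0x1000200030, nat_lit 0x101320, nat_lit 1, nat_lit 4, nat_lit 0x48⟩ (t14_6480) (t14_14672)))) (.node ⟨nat_lit 5, nat_lit 0x140018, nat_lit 0x10232, nat_lit 2, nat_lit 4, nat_lit 0x47⟩ (.node ⟨nat_lit 6, nat_lit 0x800200032, nat_lit 0x220022, nat_lit 4, nat_lit 4, nat_lit 0x49⟩ (.node ⟨nat_lit 8, nat_lit 0x8000400090009000c0, nat_lit 0x10100003, nat_lit 2, nat_lit 4, nat_lit 0x48⟩ (t14_1360) (t14_9552)) (.node ⟨nat_lit 7, nat_lit 0x2000400060, nat_lit 0x2021012, nat_lit 0, nat_lit 4, nat_lit 0x4a⟩ (t14_5456) (t14_13648))) (.node ⟨nat_lit 6, nat_lit 0x1000200038, nat_lit 0x13202, nat_lit 0, nat_lit 4, nat_lit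 0x48⟩ (.node ⟨nat_lit 5, nat_lit 0x1000180018, nat_lit 0x11230, nat_lit 2, nat_lit 3, nat_lit 0x45⟩ (t14_3408) (t14_11600)) (.node ⟨nat_lit 7, nat_lit 0x40001000600060, nat_lit 0x21110, nat_lit 0, nat_lit 4, nat_lit 0x47⟩ (t14_7504) (.nil))))) (.node ⟨nat_lit 6, nat_lit 0x2000100030, nat_lit 0x3200, nat_lit 1, nat_lit 4, nat_lit 0x47⟩ (.node ⟨nat_lit 6, nat_lit 0x100020, nat_lit 0x221111, nat_lit 0, nat_lit 4, nat_lit 0x4a⟩ (.node ⟨nat_lit 6, nat_lit 0x2000080034, nat_lit 0x111211, nat_lit 0, nat_lit 4, nat_lit 0x47⟩ (.node ⟨nat_lit 7, nat_lit 0x20002000100040, nat_lit 0x1022100, nat_lit 1, nat_lit 4, nat_lit 0x49⟩ (t14_848) (t14_9040)) (.node ⟨nat_lit 5, nat_lit 0x18, nat_lit 0x21223, nat_lit 0, nat_lit 4, nat_lit 0x49⟩ (t14_4944) (t14_13136))) (.node ⟨nat_lit 6, nat_lit 0x200030, nat_lit 0x111112, nat_lit 2, nat_lit 4, nat_lit 0x49⟩ (.node ⟨nat_lit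 7, nat_lit 0x20004000100044, nat_lit 0x1000201, nat_lit 7, nat_lit 4, nat_lit 0x49⟩ (t14_2896) (t14_11088)) (.node ⟨nat_lit 6, nat_lit 0x80030, nat_lit 0x110102, nat_lit 2, nat_lit 4, nat_lit 0x48⟩ (t14_6992) (t14_15184)))) (.node ⟨nat_lit 5, nat_lit 0x18, nat_lit 0x22110, nat_lit 1, nat_lit 4, nat_lit 0x48⟩ (.node ⟨nat_lit 7, nat_lit 0x40001000600068, nat_lit 0x2012111, nat_lit 0, nat_lit 4, nat_lit 0x48⟩ (.node ⟨nat_lit 7, nat_lit 0x40001000600068, nat_lit 0x1111131, nat_lit 1, nat_lit 4, nat_lit 0x48⟩ (t14_1872) (t14_10064)) (.node ⟨nat_lit 6, nat_lit 0x800080030, nat_lit 0x211200, nat_lit 0, nat_lit 3, nat_lit 0x47⟩ (t14_5968) (t14_14160))) (.node ⟨nat_lit 6, nat_lit 0x1000200030, nat_lit 0x101202, nat_lit 0, nat_lit 4, nat_lit 0x47⟩ (.node ⟨nat_lit 7, nat_lit 0x5000600028, nat_lit 0x1001100, nat_lit 0, nat_lit 4, nat_lit 0x46⟩ (t14_3920) (t14_12112))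 (.node ⟨nat_lit 6, nat_lit 0x300028, nat_lit 0x110221, nat_lit 2, nat_lit 3, nat_lit 0x47⟩ (t14_8016) (.nil)))))
def t14_208 : Tr := .node ⟨nat_lit 8, nat_lit 0x800020009000b000d0, nat_lit 0x21101012, nat_lit 0, nat_lit 4, nat_lit 0x48⟩ (.nil) (.nil)
def t14_8400 : Tr := .node ⟨nat_lit 8, nat_lit 0x800080004000a0009000e0, nat_lit 0x110103, nat_lit 4, nat_lit 4, nat_lit 0x47⟩ (.nil) (.nil)
def t14_4304 : Tr := .node ⟨nat_lit 8, nat_lit 0x40004000800080008800c8, nat_lit 0x10201111, nat_lit 1, nat_lit 4, nat_lit 0x48⟩ (.nil) (.nil)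
def t14_12496 : Tr := .node ⟨nat_lit 8, nat_lit 0x80008000800040004000a0, nat_lit 0x100311, nat_lit 0, nat_lit 4, nat_lit 0x48⟩ (.nil) (.nil)
def t14_2256 : Tr := .node ⟨nat_lit 8, nat_lit 0x8000800040004000a000a0, nat_lit 0x11102200, nat_lit 0, nat_lit 4, nat_lit 0x49⟩ (.nil) (.nil)
def t14_10448 : Tr := .node ⟨nat_lit 8, nat_lit 0x80002000a000c0, nat_lit 0x22020, nat_lit 2, nat_lit 4, nat_lit 0x49⟩ (.nil) (.nil)
def t14_6352 : Tr := .node ⟨nat_lit 7, nat_lit 0x40001000680070, nat_lit 0x100102, nat_lit 1, nat_lit 4, nat_lit 0x45⟩ (.nil) (.nil)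
def t14_14544 : Tr := .node ⟨nat_lit 6, nat_lit 0x200030, nat_lit 0x1140, nat_lit 3, nat_lit 4, nat_lit 0x49⟩ (.nil) (.nil)
def t14_1232 : Tr := .node ⟨nat_lit 6, nat_lit 0x80030, nat_lit 0x1132, nat_lit 0, nat_lit 4, nat_lit 0x48⟩ (.nil) (.nil)
def t14_9424 : Tr := .node ⟨nat_lit 8, nat_lit 0x800040009000d000e0, nat_lit 0x10012012, nat_lit 1, nat_lit 4, nat_lit 0x47⟩ (.nil) (.nil)
def t14_5328 : Tr := .node ⟨nat_lit 6, nat_lit 0x800300038, nat_lit 0x111140, nat_lit 0, nat_lit 4, nat_lit 0x47⟩ (.nil) (.nil)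
def t14_13520 : Tr := .node ⟨nat_lit 6, nat_lit 0x100020, nat_lit 0x10011, nat_lit 0, nat_lit 4, nat_lit 0x47⟩ (.nil) (.nil)
def t14_3280 : Tr := .node ⟨nat_lit 8, nat_lit 0x4000800080008800c000d0, nat_lit 0x202110, nat_lit 1, nat_lit 4, nat_lit 0x47⟩ (.nil) (.nil)
def t14_11472 : Tr := .node ⟨nat_lit 7, nat_lit 0x400020002000500070, nat_lit 0x1011110, nat_lit 0, nat_lit 4, nat_lit 0x46⟩ (.nil) (.nil)
def t14_7376 : Tr := .node ⟨nat_lit 6, nat_lit 0x20001000100028, nat_lit 0x201000, nat_lit 3, nat_lit 4, nat_lit 0x47⟩ (.nil) (.nil)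
def t14_15568 : Tr := .node ⟨nat_lit 7, nat_lit 0x200040, nat_lit 0x1111111, nat_lit 6, nat_lit 4, nat_lit 0x4c⟩ (.nil) (.nil)
def t14_720 : Tr := .node ⟨nat_lit 7, nat_lit 0x20004000400010, nat_lit 0x13001, nat_lit 1, nat_lit 4, nat_lit 0x48⟩ (.nil) (.nil)
def t14_8912 : Tr := .node ⟨nat_lit 8, nat_lit 0x200040008000c800c8, nat_lit 0x1000130, nat_lit 0, nat_lit 4, nat_lit 0x46⟩ (.nil) (.nil)
def t14_4816 : Tr := .node ⟨nat_lit 8, nat_lit 0x800040009000c000c8, nat_lit 0x1211020, nat_lit 1, nat_lit 4, nat_lit 0x48⟩ (.nil) (.nil)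
def t14_13008 : Tr := .node ⟨nat_lit 6, nat_lit 0x1000100020, nat_lit 0x1104, nat_lit 0, nat_lit 4, nat_lit 0x48⟩ (.nil) (.nil)
def t14_2768 : Tr := .node ⟨nat_lit 7, nat_lit 0x20004000400064, nat_lit 0x110211, nat_lit 1, nat_lit 4, nat_lit 0x48⟩ (.nil) (.nil)
def t14_10960 : Tr := .node ⟨nat_lit 7, nat_lit 0x400040002000240050, nat_lit 0x120200, nat_lit 0, nat_lit 4, nat_lit 0x47⟩ (.nil) (.nil)
def t14_6864 : Tr := .node ⟨nat_lit 6, nat_lit 0x200010, nat_lit 0x1113, nat_lit 0, nat_lit 4, nat_lit 0x48⟩ (.nil) (.nil)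
def t14_15056 : Tr := .node ⟨nat_lit 7, nat_lit 0x40001000600068, nat_lit 0x1102011, nat_lit 3, nat_lit 4, nat_lit 0x48⟩ (.nil) (.nil)
def t14_1744 : Tr := .node ⟨nat_lit 7, nat_lit 0x20005000500068, nat_lit 0x111211, nat_lit 0, nat_lit 4, nat_lit 0x46⟩ (.nil) (.nil)
def t14_9936 : Tr := .node ⟨nat_lit 5, nat_lit 0x1c001c, nat_lit 0x10030, nat_lit 4, nat_lit 4, nat_lit 0x44⟩ (.nil) (.nil)
def t14_5840 : Tr := .node ⟨nat_lit 7, nat_lit 0x1000200040, nat_lit 0x1010220, nat_lit 0, nat_lit 4, nat_lit 0x49⟩ (.nil) (.nil)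
def t14_14032 : Tr := .node ⟨nat_lit 8, nat_lit 0x80001000c000a0, nat_lit 0x11120, nat_lit 1, nat_lit 4, nat_lit 0x48⟩ (.nil) (.nil)
def t14_3792 : Tr := .node ⟨nat_lit 8, nat_lit 0x80004000a000a000d0, nat_lit 0x1021101, nat_lit 0, nat_lit 4, nat_lit 0x47⟩ (.nil) (.nil)
def t14_11984 : Tr := .node ⟨nat_lit 7, nat_lit 0x400040002000200070, nat_lit 0x20220, nat_lit 1, nat_lit 4, nat_lit 0x47⟩ (.nil) (.nil)
def t14_7888 : Tr := .node ⟨nat_lit 7, nat_lit 0x400020002000500070, nat_lit 0x11011, nat_lit 0, nat_lit 4, nat_lit 0x45⟩ (.nil) (.nil)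
def t9_208 : Tr := .node ⟨nat_lit 4, nat_lit 0, nat_lit 0x3211, nat_lit 3, nat_lit 3, nat_lit 0x48⟩ (.node ⟨nat_lit 8, nat_lit 0x80004000200020, nat_lit 0x130021, nat_lit 1, nat_lit 4, nat_lit 0x4b⟩ (.node ⟨nat_lit 6, nat_lit 0x10001000200032, nat_lit 0x302011, nat_lit 3, nat_lit 4, nat_lit 0x48⟩ (.node ⟨nat_lit 4, nat_lit 8, nat_lit 0x1224, nat_lit 1, nat_lit 3, nat_lit 0x47⟩ (.node ⟨nat_lit 6, nat_lit 0x800080030, nat_lit 0x210212, nat_lit 1, nat_lit 4, nat_lit 0x48⟩ (t14_208) (t14_8400)) (.node ⟨nat_lit 6, nat_lit 0x20002000100038, nat_lit 0x12103, nat_lit 4, nat_lit 4, nat_lit 0x47⟩ (t14_4304) (t14_12496))) (.node ⟨nat_lit 5, nat_lit 0x10, nat_lit 0x22112, nat_lit 6, nat_lit 4, nat_lit 0x4b⟩ (.node ⟨nat_lit 5, nat_lit 0x1000080018, nat_lit 0x1224, nat_lit 3, nat_lit 4, nat_lit 0x47⟩ (t14_2256) (t14_10448)) (.node ⟨nat_lit 4, nat_lit 0x8000e,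 nat_lit 0x1221, nat_lit 7, nat_lit 4, nat_lit 0x47⟩ (t14_6352) (t14_14544)))) (.node ⟨nat_lit 6, nat_lit 0x100020, nat_lit 0x211110, nat_lit 1, nat_lit 4, nat_lit 0x49⟩ (.node ⟨nat_lit 6, nat_lit 0x2000240018, nat_lit 0x21221, nat_lit 0, nat_lit 4, nat_lit 0x47⟩ (.node ⟨nat_lit 5, nat_lit 0x1000080014, nat_lit 0x10100, nat_lit 3, nat_lit 4, nat_lit 0x45⟩ (t14_1232) (t14_9424)) (.node ⟨nat_lit 8, nat_lit 0x200040004000a000c0, nat_lit 0x122111, nat_lit 0, nat_lit 4, nat_lit 0x48⟩ (t14_5328) (t14_13520))) (.node ⟨nat_lit 7, nat_lit 0x400040002000200050, nat_lit 0x1021201, nat_lit 0, nat_lit 4, nat_lit 0x48⟩ (.node ⟨nat_lit 4, nat_lit 0x8000c, nat_lit 0x1103, nat_lit 6, nat_lit 3, nat_lit 0x45⟩ (t14_3280) (t14_11472)) (.node ⟨nat_lit 7, nat_lit 0x6000600018, nat_lit 0x11102, nat_lit 3, nat_lit 4, nat_lit 0x47⟩ (t14_7376) (t14_15568))))) (.node ⟨nat_lit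 6, nat_lit 0x300030, nat_lit 0x103111, nat_lit 1, nat_lit 4, nat_lit 0x48⟩ (.node ⟨nat_lit 4, nat_lit 0, nat_lit 0x2111, nat_lit 4, nat_lit 4, nat_lit 0x48⟩ (.node ⟨nat_lit 4, nat_lit 8, nat_lit 0x1211, nat_lit 0xa, nat_lit 4, nat_lit 0x49⟩ (.node ⟨nat_lit 7, nat_lit 0x1000100060, nat_lit 0x2111210, nat_lit 0, nat_lit 4, nat_lit 0x4a⟩ (t14_720) (t14_8912)) (.node ⟨nat_lit 7, nat_lit 0x400040004000200020, nat_lit 0x122020, nat_lit 2, nat_lit 4, nat_lit 0x49⟩ (t14_4816) (t14_13008))) (.node ⟨nat_lit 6, nat_lit 0x200030, nat_lit 0x11101, nat_lit 0, nat_lit 4, nat_lit 0x47⟩ (.node ⟨nat_lit 7, nat_lit 0x10002000200040, nat_lit 0x1111301, nat_lit 3, nat_lit 4, nat_lit 0x4a⟩ (t14_2768) (t14_10960)) (.node ⟨nat_lit 7, nat_lit 0x40005800680070, nat_lit 0x1111022, nat_lit 1, nat_lit 4, nat_lit 0x46⟩ (t14_6864) (t14_15056)))) (.node ⟨nat_lit 5, nat_lit 0x18,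 nat_lit 0x11113, nat_lit 0, nat_lit 4, nat_lit 0x47⟩ (.node ⟨nat_lit 7, nat_lit 0x6000180018, nat_lit 0x1010121, nat_lit 1, nat_lit 4, nat_lit 0x47⟩ (.node ⟨nat_lit 6, nat_lit 0x1000200022, nat_lit 0x1000, nat_lit 1, nat_lit 4, nat_lit 0x45⟩ (t14_1744) (t14_9936)) (.node ⟨nat_lit 9, nat_lit 0x1000100010801100180, nat_lit 0x2211010, nat_lit 0, nat_lit 4, nat_lit 0x4a⟩ (t14_5840) (t14_14032))) (.node ⟨nat_lit 6, nat_lit 0x2000280030, nat_lit 0x22220, nat_lit 0, nat_lit 3, nat_lit 0x46⟩ (.node ⟨nat_lit 7, nat_lit 0x2000480070, nat_lit 0x110103, nat_lit 1, nat_lit 4, nat_lit 0x47⟩ (t14_3792) (t14_11984)) (.node ⟨nat_lit 8, nat_lit 0x800080002000d000d0, nat_lit 0x11100121, nat_lit 1, nat_lit 4, nat_lit 0x48⟩ (t14_7888) (.nil)))))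
def t14_464 : Tr := .node ⟨nat_lit 7, nat_lit 0x40004000200020, nat_lit 0x1122110, nat_lit 0, nat_lit 4, nat_lit 0x4a⟩ (.nil) (.nil)
def t14_8656 : Tr := .node ⟨nat_lit 6, nat_lit 0x20001000100028, nat_lit 0x102, nat_lit 0, nat_lit 4, nat_lit 0x44⟩ (.nil) (.nil)
def t14_4560 : Tr := .node ⟨nat_lit 8, nat_lit 0x20008000c000c0, nat_lit 0x1010221, nat_lit 0, nat_lit 4, nat_lit 0x49⟩ (.nil) (.nil)
def t14_12752 : Tr := .node ⟨nat_lit 8, nat_lit 0x2000800088008800c0, nat_lit 0x1002100, nat_lit 1, nat_lit 4, nat_lit 0x48⟩ (.nil) (.nil)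
def t14_2512 : Tr := .node ⟨nat_lit 6, nat_lit 0x1000280034, nat_lit 0x31120, nat_lit 0, nat_lit 4, nat_lit 0x47⟩ (.nil) (.nil)
def t14_10704 : Tr := .node ⟨nat_lit 5, nat_lit 0x1000080018, nat_lit 0x1210, nat_lit 4, nat_lit 3, nat_lit 0x45⟩ (.nil) (.nil)
def t14_6608 : Tr := .node ⟨nat_lit 7, nat_lit 0x1000600060, nat_lit 0x1002030, nat_lit 0, nat_lit 4, nat_lit 0x48⟩ (.nil) (.nil)
def t14_14800 : Tr := .node ⟨nat_lit 9, nat_lit 0x100010001000080014001c001c0, nat_lit 0x101021, nat_lit 2, nat_lit 4, nat_lit 0x47⟩ (.nil) (.nil)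
def t14_1488 : Tr := .node ⟨nat_lit 7, nat_lit 0x40001000100060, nat_lit 0x100211, nat_lit 0, nat_lit 4, nat_lit 0x47⟩ (.nil) (.nil)
def t14_9680 : Tr := .node ⟨nat_lit 7, nat_lit 0x40004000200068, nat_lit 0x10220, nat_lit 0, nat_lit 4, nat_lit 0x47⟩ (.nil) (.nil)
def t14_5584 : Tr := .node ⟨nat_lit 6, nat_lit 0x280030, nat_lit 0x11102, nat_lit 1, nat_lit 4, nat_lit 0x47⟩ (.nil) (.nil)
def t14_13776 : Tr := .node ⟨nat_lit 7, nat_lit 0x40004000100060, nat_lit 0x21, nat_lit 3, nat_lit 4, nat_lit 0x47⟩ (.nil) (.nil)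
def t14_3536 : Tr := .node ⟨nat_lit 6, nat_lit 0x800300030, nat_lit 0x220, nat_lit 1, nat_lit 4, nat_lit 0x45⟩ (.nil) (.nil)
def t14_11728 : Tr := .node ⟨nat_lit 9, nat_lit 0x40010001800180, nat_lit 0x110210, nat_lit 1, nat_lit 4, nat_lit 0x4a⟩ (.nil) (.nil)
def t14_7632 : Tr := .node ⟨nat_lit 7, nat_lit 0x10004000200020, nat_lit 0x220, nat_lit 0, nat_lit 4, nat_lit 0x47⟩ (.nil) (.nil)
def t14_976 : Tr := .node ⟨nat_lit 7, nat_lit 0x20004000440044, nat_lit 0x20211, nat_lit 1, nat_lit 4, nat_lit 0x48⟩ (.nil) (.nil)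
def t14_9168 : Tr := .node ⟨nat_lit 7, nat_lit 0x40002000680070, nat_lit 0x1102, nat_lit 1, nat_lit 4, nat_lit 0x45⟩ (.nil) (.nil)
def t14_5072 : Tr := .node ⟨nat_lit 7, nat_lit 0x10004000600060, nat_lit 0x100321, nat_lit 2, nat_lit 4, nat_lit 0x48⟩ (.nil) (.nil)
def t14_13264 : Tr := .node ⟨nat_lit 6, nat_lit 0x2000080030, nat_lit 0x211110, nat_lit 1, nat_lit 3, nat_lit 0x47⟩ (.nil) (.nil)
def t14_3024 : Tr := .node ⟨nat_lit 6, nat_lit 0x20003800380038, nat_lit 0x201211, nat_lit 4, nat_lit 4, nat_lit 0x46⟩ (.nil) (.nil)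
def t14_11216 : Tr := .node ⟨nat_lit 7, nat_lit 0x20005000680070, nat_lit 0x12013, nat_lit 0, nat_lit 4, nat_lit 0x45⟩ (.nil) (.nil)
def t14_7120 : Tr := .node ⟨nat_lit 7, nat_lit 0x1000600060, nat_lit 0x1021111, nat_lit 1, nat_lit 4, nat_lit 0x49⟩ (.nil) (.nil)
def t14_15312 : Tr := .node ⟨nat_lit 0xa, nat_lit 0x100020002000200008000800220, nat_lit 0x120101, nat_lit 2, nat_lit 4, nat_lit 0x4a⟩ (.nil) (.nil)
def t14_2000 : Tr := .node ⟨nat_lit 7, nat_lit 0x40001000100060, nat_lit 0x1201102, nat_lit 2, nat_lit 4, nat_lit 0x49⟩ (.nil) (.nil)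
def t14_10192 : Tr := .node ⟨nat_lit 7, nat_lit 0x40002000480060, nat_lit 0x2210, nat_lit 0, nat_lit 4, nat_lit 0x47⟩ (.nil) (.nil)
def t14_6096 : Tr := .node ⟨nat_lit 1, nat_lit 0, nat_lit 1, nat_lit 0x13, nat_lit 4, nat_lit 0x46⟩ (.nil) (.nil)
def t14_14288 : Tr := .node ⟨nat_lit 8, nat_lit 0x200040003000a000c0, nat_lit 0x112101, nat_lit 0, nat_lit 4, nat_lit 0x47⟩ (.nil) (.nil)
def t14_4048 : Tr := .node ⟨nat_lit 7, nat_lit 0x200020004000400064, nat_lit 0x1020121, nat_lit 3, nat_lit 4, nat_lit 0x48⟩ (.nil) (.nil)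
def t14_12240 : Tr := .node ⟨nat_lit 6, nat_lit 0x20002000280030, nat_lit 0x2100, nat_lit 0xb, nat_lit 4, nat_lit 0x48⟩ (.nil) (.nil)
def t14_8144 : Tr := .node ⟨nat_lit 7, nat_lit 0x4000500064, nat_lit 0x111203, nat_lit 1, nat_lit 4, nat_lit 0x48⟩ (.nil) (.nil)
def t9_464 : Tr := .node ⟨nat_lit 3, nat_lit 4, nat_lit 0x432, nat_lit 2, nat_lit 3, nat_lit 0x48⟩ (.node ⟨nat_lit 7, nat_lit 0x40004800480068, nat_lit 0x3110202, nat_lit 1, nat_lit 4, nat_lit 0x49⟩ (.node ⟨nat_lit 5, nat_lit 0x100008, nat_lit 0x2222, nat_lit 1, nat_lit 4, nat_lit 0x48⟩ (.node ⟨nat_lit 7, nat_lit 0x4000400060, nat_lit 0x121102, nat_lit 0, nat_lit 4, nat_lit 0x49⟩ (.node ⟨nat_lit 6, nat_lit 0x2000080030, nat_lit 0x2310, nat_lit 2, nat_lit 4, nat_lit 0x48⟩ (t14_464) (t14_8656)) (.node ⟨nat_lit 7, nat_lit 0x200020004000300044, nat_lit 0x2120210, nat_lit 1, nat_lit 4, nat_lit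 0x49⟩ (t14_4560) (t14_12752))) (.node ⟨nat_lit 6, nat_lit 0x800300030, nat_lit 0x1210, nat_lit 0, nat_lit 4, nat_lit 0x45⟩ (.node ⟨nat_lit 6, nat_lit 0x2000300034, nat_lit 0x111231, nat_lit 3, nat_lit 4, nat_lit 0x48⟩ (t14_2512) (t14_10704)) (.node ⟨nat_lit 7, nat_lit 0x4000200020, nat_lit 0x21031, nat_lit 1, nat_lit 4, nat_lit 0x4a⟩ (t14_6608) (t14_14800)))) (.node ⟨nat_lit 5, nat_lit 0x40018, nat_lit 0x20011, nat_lit 3, nat_lit 4, nat_lit 0x46⟩ (.node ⟨nat_lit 6, nat_lit 0x2000100024, nat_lit 0x121222, nat_lit 1, nat_lit 4, nat_lit 0x49⟩ (.node ⟨nat_lit 6, nat_lit 0x2000200030, nat_lit 0x1100, nat_lit 0, nat_lit 3, nat_lit 0x45⟩ (t14_1488) (t14_9680)) (.node ⟨nat_lit 7, nat_lit 0x20002000100040, nat_lit 0x1112200, nat_lit 3, nat_lit 4, nat_lit 0x4a⟩ (t14_5584) (t14_13776))) (.node ⟨nat_lit 5, nat_lit 0x800080010, nat_lit 0x10213, nat_lit 3, nat_lit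 4, nat_lit 0x47⟩ (.node ⟨nat_lit 7, nat_lit 0x20004000440030, nat_lit 0x1000100, nat_lit 0, nat_lit 4, nat_lit 0x46⟩ (t14_3536) (t14_11728)) (.node ⟨nat_lit 6, nat_lit 0x20001000100010, nat_lit 0x10311, nat_lit 1, nat_lit 3, nat_lit 0x47⟩ (t14_7632) (.nil))))) (.node ⟨nat_lit 6, nat_lit 0x200020, nat_lit 0x131111, nat_lit 4, nat_lit 4, nat_lit 0x4b⟩ (.node ⟨nat_lit 7, nat_lit 0x40004000200048, nat_lit 0x1120210, nat_lit 0, nat_lit 4, nat_lit 0x49⟩ (.node ⟨nat_lit 7, nat_lit 0x4000400020, nat_lit 0x1111111, nat_lit 1, nat_lit 4, nat_lit 0x4a⟩ (.node ⟨nat_lit 3, nat_lit 0x40006, nat_lit 0x131, nat_lit 0xd, nat_lit 4, nat_lit 0x47⟩ (t14_976) (t14_9168)) (.node ⟨nat_lit 7, nat_lit 0x4000200060, nat_lit 0x22022, nat_lit 0, nat_lit 4, nat_lit 0x49⟩ (t14_5072) (t14_13264))) (.node ⟨nat_lit 5, nat_lit 0x100018, nat_lit 0x11102, nat_lit 4, nat_lit 4, nat_lit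 0x47⟩ (.node ⟨nat_lit 6, nat_lit 0x20, nat_lit 0x111112, nat_lit 2, nat_lit 3, nat_lit 0x49⟩ (t14_3024) (t14_11216)) (.node ⟨nat_lit 8, nat_lit 0x8000800040004800a000c0, nat_lit 0x1102003, nat_lit 0, nat_lit 4, nat_lit 0x48⟩ (t14_7120) (t14_15312)))) (.node ⟨nat_lit 5, nat_lit 0x100008, nat_lit 0x1212, nat_lit 1, nat_lit 4, nat_lit 0x47⟩ (.node ⟨nat_lit 7, nat_lit 0x400040, nat_lit 0x221100, nat_lit 1, nat_lit 4, nat_lit 0x4b⟩ (.node ⟨nat_lit 7, nat_lit 0x20004000600070, nat_lit 0x1001213, nat_lit 1, nat_lit 4, nat_lit 0x47⟩ (t14_2000) (t14_10192)) (.node ⟨nat_lit 7, nat_lit 0x10002000500060, nat_lit 0x113200, nat_lit 0, nat_lit 4, nat_lit 0x48⟩ (t14_6096) (t14_14288))) (.node ⟨nat_lit 5, nat_lit 0x800100012, nat_lit 0x20032, nat_lit 7, nat_lit 4, nat_lit 0x49⟩ (.node ⟨nat_lit 8, nat_lit 0x80006000b000d000e0, nat_lit 0x10010013, nat_lit 0, nat_lit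 4, nat_lit 0x45⟩ (t14_4048) (t14_12240)) (.node ⟨nat_lit 7, nat_lit 0x4000100060, nat_lit 0x1011112, nat_lit 1, nat_lit 4, nat_lit 0x49⟩ (t14_8144) (.nil)))))
def t14_48 : Tr := .node ⟨nat_lit 8, nat_lit 0x8000800040, nat_lit 0x1111100, nat_lit 1, nat_lit 4, nat_lit 0x4b⟩ (.nil) (.nil)
def t14_8240 : Tr := .node ⟨nat_lit 6, nat_lit 0x1800280030, nat_lit 0x10201, nat_lit 2, nat_lit 4, nat_lit 0x45⟩ (.nil) (.nil)
def t14_4144 : Tr := .node ⟨nat_lit 7, nat_lit 0x40002000100060, nat_lit 0x112012, nat_lit 0, nat_lit 4, nat_lit 0x48⟩ (.nil) (.nil)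
def t14_12336 : Tr := .node ⟨nat_lit 7, nat_lit 0x40002000600060, nat_lit 0x12130, nat_lit 3, nat_lit 4, nat_lit 0x48⟩ (.nil) (.nil)
def t14_2096 : Tr := .node ⟨nat_lit 8, nat_lit 0x400040004000200080, nat_lit 0x10131001, nat_lit 0, nat_lit 4, nat_lit 0x4a⟩ (.nil) (.nil)
def t14_10288 : Tr := .node ⟨nat_lit 6, nat_lit 0x800300030, nat_lit 0x101022, nat_lit 4, nat_lit 4, nat_lit 0x47⟩ (.nil) (.nil)
def t14_6192 : Tr := .node ⟨nat_lit 5, nat_lit 0x800100012, nat_lit 0x10120, nat_lit 4, nat_lit 4, nat_lit 0x46⟩ (.nil) (.nil)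
def t14_14384 : Tr := .node ⟨nat_lit 8, nat_lit 0x800020004000a000c0, nat_lit 0x10103, nat_lit 1, nat_lit 4, nat_lit 0x47⟩ (.nil) (.nil)
def t14_1072 : Tr := .node ⟨nat_lit 6, nat_lit 0x2000200010, nat_lit 0x1112, nat_lit 1, nat_lit 4, nat_lit 0x47⟩ (.nil) (.nil)
def t14_9264 : Tr := .node ⟨nat_lit 8, nat_lit 0x800040004000a000a000c0, nat_lit 0x120102, nat_lit 1, nat_lit 4, nat_lit 0x47⟩ (.nil) (.nil)
def t14_5168 : Tr := .node ⟨nat_lit 5, nat_lit 0x1000100018, nat_lit 0x1310, nat_lit 9, nat_lit 4, nat_lit 0x48⟩ (.nil) (.nil)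
def t14_13360 : Tr := .node ⟨nat_lit 5, nat_lit 0x180018, nat_lit 0x30120, nat_lit 0, nat_lit 3, nat_lit 0x46⟩ (.nil) (.nil)
def t14_3120 : Tr := .node ⟨nat_lit 7, nat_lit 0x40001000100060, nat_lit 0x112001, nat_lit 2, nat_lit 4, nat_lit 0x48⟩ (.nil) (.nil)
def t14_11312 : Tr := .node ⟨nat_lit 8, nat_lit 0x2000c000a000a0, nat_lit 0x12120, nat_lit 1, nat_lit 4, nat_lit 0x48⟩ (.nil) (.nil)
def t14_7216 : Tr := .node ⟨nat_lit 7, nat_lit 0x10002000500060, nat_lit 0x111211, nat_lit 2, nat_lit 4, nat_lit 0x48⟩ (.nil) (.nil)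
def t14_15408 : Tr := .node ⟨nat_lit 0xb, nat_lit 0x400040004000200044004400420, nat_lit 0x1110001100, nat_lit 0, nat_lit 4, nat_lit 0x4b⟩ (.nil) (.nil)
def t14_560 : Tr := .node ⟨nat_lit 5, nat_lit 0x1000180018, nat_lit 0x122, nat_lit 4, nat_lit 4, nat_lit 0x45⟩ (.nil) (.nil)
def t14_8752 : Tr := .node ⟨nat_lit 7, nat_lit 0x40002000200070, nat_lit 0x10002, nat_lit 1, nat_lit 4, nat_lit 0x46⟩ (.nil) (.nil)
def t14_4656 : Tr := .node ⟨nat_lit 6, nat_lit 0x20002800300038, nat_lit 0x101212, nat_lit 4, nat_lit 4, nat_lit 0x46⟩ (.nil) (.nil)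
def t14_12848 : Tr := .node ⟨nat_lit 8, nat_lit 0x8000c0003000a0, nat_lit 0x2020, nat_lit 1, nat_lit 4, nat_lit 0x47⟩ (.nil) (.nil)
def t14_2608 : Tr := .node ⟨nat_lit 7, nat_lit 0x6000500018, nat_lit 0x2112, nat_lit 1, nat_lit 4, nat_lit 0x47⟩ (.nil) (.nil)
def t14_10800 : Tr := .node ⟨nat_lit 7, nat_lit 0x200040004000300048, nat_lit 0x102002, nat_lit 1, nat_lit 4, nat_lit 0x47⟩ (.nil) (.nil)
def t14_6704 : Tr := .node ⟨nat_lit 5, nat_lit 0x18, nat_lit 0x11110, nat_lit 7, nat_lit 4, nat_lit 0x49⟩ (.nil) (.nil)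
def t14_14896 : Tr := .node ⟨nat_lit 5, nat_lit 0x100014001c, nat_lit 0x11211, nat_lit 6, nat_lit 4, nat_lit 0x47⟩ (.nil) (.nil)
def t14_1584 : Tr := .node ⟨nat_lit 7, nat_lit 0x20003000500060, nat_lit 0x1011212, nat_lit 0, nat_lit 4, nat_lit 0x47⟩ (.nil) (.nil)
def t14_9776 : Tr := .node ⟨nat_lit 7, nat_lit 0x200020004000440070, nat_lit 0x101002, nat_lit 0, nat_lit 4, nat_lit 0x45⟩ (.nil) (.nil)
def t14_5680 : Tr := .node ⟨nat_lit 7, nat_lit 0x200040004800600070, nat_lit 0x110022, nat_lit 3, nat_lit 4, nat_lit 0x46⟩ (.nil) (.nil)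
def t14_13872 : Tr := .node ⟨nat_lit 7, nat_lit 0x1000600018, nat_lit 0x220, nat_lit 2, nat_lit 4, nat_lit 0x47⟩ (.nil) (.nil)
def t14_3632 : Tr := .node ⟨nat_lit 5, nat_lit 0x140018, nat_lit 0x2201, nat_lit 4, nat_lit 4, nat_lit 0x47⟩ (.nil) (.nil)
def t14_11824 : Tr := .node ⟨nat_lit 5, nat_lit 0x40018, nat_lit 0x103, nat_lit 5, nat_lit 4, nat_lit 0x46⟩ (.nil) (.nil)
def t14_7728 : Tr := .node ⟨nat_lit 6, nat_lit 0x10001000200022, nat_lit 0x2130, nat_lit 0, nat_lit 4, nat_lit 0x46⟩ (.nil) (.nil)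
def t9_48 : Tr := .node ⟨nat_lit 6, nat_lit 0x2000200010, nat_lit 0x33101, nat_lit 1, nat_lit 4, nat_lit 0x4a⟩ (.node ⟨nat_lit 6, nat_lit 0x300030, nat_lit 0x113120, nat_lit 1, nat_lit 4, nat_lit 0x49⟩ (.node ⟨nat_lit 7, nat_lit 0x6000500050, nat_lit 0x103120, nat_lit 1, nat_lit 4, nat_lit 0x48⟩ (.node ⟨nat_lit 6, nat_lit 0x200030, nat_lit 0x12111, nat_lit 0, nat_lit 4, nat_lit 0x48⟩ (.node ⟨nat_lit 7, nat_lit 0x40001000600070, nat_lit 0x21213, nat_lit 0, nat_lit 4, nat_lit 0x47⟩ (t14_48) (t14_8240)) (.node ⟨nat_lit 5, nat_lit 0x40018, nat_lit 0x11100, nat_lit 4, nat_lit 4, nat_lit 0x47⟩ (t14_4144) (t14_12336))) (.node ⟨nat_lit 6, nat_lit 0x80030, nat_lit 0x220102, nat_lit 0, nat_lit 4, nat_lit 0x49⟩ (.node ⟨nat_lit 5, nat_lit 0x100008, nat_lit 0x1121, nat_lit 3, nat_lit 4, nat_lit 0x47⟩ (t14_2096) (t14_10288)) (.node ⟨nat_lit 7, nat_lit 0x10001000600060,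 nat_lit 0x1102020, nat_lit 0, nat_lit 3, nat_lit 0x46⟩ (t14_6192) (t14_14384)))) (.node ⟨nat_lit 6, nat_lit 0x800080030, nat_lit 0x200312, nat_lit 1, nat_lit 4, nat_lit 0x48⟩ (.node ⟨nat_lit 6, nat_lit 0x200020, nat_lit 0x221111, nat_lit 0, nat_lit 3, nat_lit 0x49⟩ (.node ⟨nat_lit 6, nat_lit 0x10002000200020, nat_lit 0x13110, nat_lit 3, nat_lit 4, nat_lit 0x48⟩ (t14_1072) (t14_9264)) (.node ⟨nat_lit 7, nat_lit 0x4000600064, nat_lit 0x111212, nat_lit 1, nat_lit 4, nat_lit 0x48⟩ (t14_5168) (t14_13360))) (.node ⟨nat_lit 5, nat_lit 0x80010, nat_lit 0x21220, nat_lit 3, nat_lit 4, nat_lit 0x49⟩ (.node ⟨nat_lit 6, nat_lit 0x2000080010, nat_lit 0x11200, nat_lit 1, nat_lit 4, nat_lit 0x47⟩ (t14_3120) (t14_11312)) (.node ⟨nat_lit 3, nat_lit 0x40004, nat_lit 0x122, nat_lit 0x10, nat_lit 4, nat_lit 0x48⟩ (t14_7216) (t14_15408))))) (.node ⟨nat_lit 1, nat_lit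 0, nat_lit 4, nat_lit 0xb, nat_lit 3, nat_lit 0x45⟩ (.node ⟨nat_lit 2, nat_lit 2, nat_lit 0x20, nat_lit 0xd, nat_lit 3, nat_lit 0x45⟩ (.node ⟨nat_lit 6, nat_lit 0x800300038, nat_lit 0x100221, nat_lit 0, nat_lit 4, nat_lit 0x45⟩ (.node ⟨nat_lit 6, nat_lit 0x2000100030, nat_lit 0x21212, nat_lit 0, nat_lit 4, nat_lit 0x48⟩ (t14_560) (t14_8752)) (.node ⟨nat_lit 6, nat_lit 0x20002000100030, nat_lit 0x112102, nat_lit 0, nat_lit 3, nat_lit 0x46⟩ (t14_4656) (t14_12848))) (.node ⟨nat_lit 5, nat_lit 0x1000080008, nat_lit 0x120, nat_lit 0, nat_lit 3, nat_lit 0x44⟩ (.node ⟨nat_lit 7, nat_lit 0x400060, nat_lit 0x1111130, nat_lit 1, nat_lit 4, nat_lit 0x4b⟩ (t14_2608) (t14_10800)) (.node ⟨nat_lit 7, nat_lit 0x10004000500060, nat_lit 0x112211, nat_lit 2, nat_lit 4, nat_lit 0x48⟩ (t14_6704) (t14_14896)))) (.node ⟨nat_lit 5, nat_lit 0x140018, nat_lit 0x12111, nat_lit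 3, nat_lit 3, nat_lit 0x46⟩ (.node ⟨nat_lit 6, nat_lit 0x20002000100010, nat_lit 0x122010, nat_lit 0, nat_lit 3, nat_lit 0x47⟩ (.node ⟨nat_lit 3, nat_lit 4, nat_lit 0x10, nat_lit 5, nat_lit 4, nat_lit 0x43⟩ (t14_1584) (t14_9776)) (.node ⟨nat_lit 6, nat_lit 0x1000280034, nat_lit 0x121131, nat_lit 0, nat_lit 4, nat_lit 0x47⟩ (t14_5680) (t14_13872))) (.node ⟨nat_lit 7, nat_lit 0x600050, nat_lit 0x21112, nat_lit 0, nat_lit 4, nat_lit 0x49⟩ (.node ⟨nat_lit 6, nat_lit 0x300030, nat_lit 0x1100, nat_lit 2, nat_lit 4, nat_lit 0x46⟩ (t14_3632) (t14_11824)) (.node ⟨nat_lit 6, nat_lit 0x1000200034, nat_lit 0x111201, nat_lit 3, nat_lit 4, nat_lit 0x48⟩ (t14_7728) (.nil)))))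
def t14_304 : Tr := .node ⟨nat_lit 4, nat_lit 0x80004, nat_lit 0x4221, nat_lit 1, nat_lit 3, nat_lit 0x48⟩ (.nil) (.nil)
def t14_8496 : Tr := .node ⟨nat_lit 7, nat_lit 0x40002000200060, nat_lit 0x11002, nat_lit 0, nat_lit 4, nat_lit 0x47⟩ (.nil) (.nil)
def t14_4400 : Tr := .node ⟨nat_lit 8, nat_lit 0x800080004000900088, nat_lit 0x11200120, nat_lit 1, nat_lit 4, nat_lit 0x49⟩ (.nil) (.nil)
def t14_12592 : Tr := .node ⟨nat_lit 5, nat_lit 0x1c, nat_lit 0x20000, nat_lit 0, nat_lit 4, nat_lit 0x45⟩ (.nil) (.nil)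
def t14_2352 : Tr := .node ⟨nat_lit 8, nat_lit 0x4000800090006000d000d0, nat_lit 0x20211010, nat_lit 0, nat_lit 4, nat_lit 0x47⟩ (.nil) (.nil)
def t14_10544 : Tr := .node ⟨nat_lit 8, nat_lit 0x8000200090009000c0, nat_lit 0x1100200, nat_lit 0, nat_lit 4, nat_lit 0x47⟩ (.nil) (.nil)
def t14_6448 : Tr := .node ⟨nat_lit 7, nat_lit 0x400020005000600070, nat_lit 0x1001020, nat_lit 3, nat_lit 4, nat_lit 0x46⟩ (.nil) (.nil)
def t14_14640 : Tr := .node ⟨nat_lit 6, nat_lit 0x2000280030, nat_lit 0x11211, nat_lit 6, nat_lit 4, nat_lit 0x48⟩ (.nil) (.nil)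
def t14_1328 : Tr := .node ⟨nat_lit 8, nat_lit 0x4000400080008000880060, nat_lit 0x10211110, nat_lit 0, nat_lit 4, nat_lit 0x48⟩ (.nil) (.nil)
def t14_9520 : Tr := .node ⟨nat_lit 7, nat_lit 0x200040004000440048, nat_lit 0x1002111, nat_lit 1, nat_lit 4, nat_lit 0x48⟩ (.nil) (.nil)
def t14_5424 : Tr := .node ⟨nat_lit 8, nat_lit 0x40004000800082, nat_lit 0x10112200, nat_lit 1, nat_lit 4, nat_lit 0x4a⟩ (.nil) (.nil)
def t14_13616 : Tr := .node ⟨nat_lit 8, nat_lit 0x200080001000c0, nat_lit 2, nat_lit 3, nat_lit 4, nat_lit 0x48⟩ (.nil) (.nil)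
def t14_3376 : Tr := .node ⟨nat_lit 6, nat_lit 0x300030, nat_lit 0x102110, nat_lit 2, nat_lit 4, nat_lit 0x48⟩ (.nil) (.nil)
def t14_11568 : Tr := .node ⟨nat_lit 7, nat_lit 0x40001000600060, nat_lit 0x112110, nat_lit 2, nat_lit 4, nat_lit 0x48⟩ (.nil) (.nil)
def t14_7472 : Tr := .node ⟨nat_lit 8, nat_lit 0x80002000c4, nat_lit 0x11011101, nat_lit 0, nat_lit 4, nat_lit 0x4a⟩ (.nil) (.nil)
def t14_816 : Tr := .node ⟨nat_lit 6, nat_lit 0x20001000100028, nat_lit 0x102310, nat_lit 1, nat_lit 4, nat_lit 0x47⟩ (.nil) (.nil)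
def t14_9008 : Tr := .node ⟨nat_lit 7, nat_lit 0x40001000100060, nat_lit 0x1010212, nat_lit 0, nat_lit 3, nat_lit 0x47⟩ (.nil) (.nil)
def t14_4912 : Tr := .node ⟨nat_lit 7, nat_lit 0x100060, nat_lit 0x1112201, nat_lit 1, nat_lit 4, nat_lit 0x4b⟩ (.nil) (.nil)
def t14_13104 : Tr := .node ⟨nat_lit 7, nat_lit 0x10004000200064, nat_lit 0x330, nat_lit 0, nat_lit 4, nat_lit 0x47⟩ (.nil) (.nil)
def t14_2864 : Tr := .node ⟨nat_lit 6, nat_lit 0x2000100038, nat_lit 0x1301, nat_lit 0, nat_lit 4, nat_lit 0x46⟩ (.nil) (.nil)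
def t14_11056 : Tr := .node ⟨nat_lit 6, nat_lit 0x800300030, nat_lit 0x110020, nat_lit 3, nat_lit 4, nat_lit 0x47⟩ (.nil) (.nil)
def t14_6960 : Tr := .node ⟨nat_lit 5, nat_lit 0x100018, nat_lit 0x12111, nat_lit 7, nat_lit 4, nat_lit 0x49⟩ (.nil) (.nil)
def t14_15152 : Tr := .node ⟨nat_lit 8, nat_lit 0x8000400040009000d0, nat_lit 0x10111011, nat_lit 0, nat_lit 4, nat_lit 0x48⟩ (.nil) (.nil)
def t14_1840 : Tr := .node ⟨nat_lit 5, nat_lit 0x1000140018, nat_lit 0x3102, nat_lit 4, nat_lit 4, nat_lit 0x47⟩ (.nil) (.nil)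
def t14_10032 : Tr := .node ⟨nat_lit 8, nat_lit 0x1000a000c000c0, nat_lit 0x1100220, nat_lit 0, nat_lit 4, nat_lit 0x48⟩ (.nil) (.nil)
def t14_5936 : Tr := .node ⟨nat_lit 8, nat_lit 0x8000200090009000c0, nat_lit 0x1111200, nat_lit 1, nat_lit 4, nat_lit 0x48⟩ (.nil) (.nil)
def t14_14128 : Tr := .node ⟨nat_lit 6, nat_lit 0x20001000100028, nat_lit 0x111002, nat_lit 3, nat_lit 4, nat_lit 0x47⟩ (.nil) (.nil)
def t14_3888 : Tr := .node ⟨nat_lit 7, nat_lit 0x20002000400068, nat_lit 0x1012010, nat_lit 2, nat_lit 4, nat_lit 0x48⟩ (.nil) (.nil)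
def t14_12080 : Tr := .node ⟨nat_lit 7, nat_lit 0x20006000500068, nat_lit 0x110301, nat_lit 3, nat_lit 4, nat_lit 0x47⟩ (.nil) (.nil)
def t14_7984 : Tr := .node ⟨nat_lit 8, nat_lit 0x800040005000a000a000c0, nat_lit 0x10010002, nat_lit 0, nat_lit 4, nat_lit 0x46⟩ (.nil) (.nil)
def t9_304 : Tr := .node ⟨nat_lit 5, nat_lit 0x100018, nat_lit 0x12311, nat_lit 0, nat_lit 3, nat_lit 0x47⟩ (.node ⟨nat_lit 6, nat_lit 0x2000100024, nat_lit 0x32121, nat_lit 0, nat_lit 4, nat_lit 0x49⟩ (.node ⟨nat_lit 8, nat_lit 0x40008000800084, nat_lit 0x10310111, nat_lit 1, nat_lit 4, nat_lit 0x4b⟩ (.node ⟨nat_lit 6, nat_lit 0x1000200022, nat_lit 0x102012, nat_lit 0, nat_lit 4, nat_lit 0x47⟩ (.node ⟨nat_lit 8, nat_lit 0x80004000200020, nat_lit 0x210021, nat_lit 1, nat_lit 4, nat_lit 0x4b⟩ (t14_304) (t14_8496)) (.node ⟨nat_lit 8, nat_lit 0x80002000d000d000e0, nat_lit 0x10100113,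 nat_lit 1, nat_lit 4, nat_lit 0x46⟩ (t14_4400) (t14_12592))) (.node ⟨nat_lit 5, nat_lit 0x1000080014, nat_lit 0x22120, nat_lit 2, nat_lit 4, nat_lit 0x48⟩ (.node ⟨nat_lit 8, nat_lit 0x8000800040009000c0, nat_lit 0x1111203, nat_lit 0, nat_lit 4, nat_lit 0x49⟩ (t14_2352) (t14_10544)) (.node ⟨nat_lit 5, nat_lit 0x100018, nat_lit 0x2120, nat_lit 7, nat_lit 4, nat_lit 0x48⟩ (t14_6448) (t14_14640)))) (.node ⟨nat_lit 6, nat_lit 0x1000280034, nat_lit 0x21120, nat_lit 0, nat_lit 4, nat_lit 0x46⟩ (.node ⟨nat_lit 6, nat_lit 0x800100020, nat_lit 0x222210, nat_lit 1, nat_lit 4, nat_lit 0x4a⟩ (.node ⟨nat_lit 6, nat_lit 0x2000080034, nat_lit 0x100200, nat_lit 1, nat_lit 4, nat_lit 0x46⟩ (t14_1328) (t14_9520)) (.node ⟨nat_lit 7, nat_lit 0x2000400060, nat_lit 0x1022022, nat_lit 1, nat_lit 4, nat_lit 0x4a⟩ (t14_5424) (t14_13616))) (.node ⟨nat_lit 5, nat_lit 0x800100012,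 nat_lit 0x20120, nat_lit 4, nat_lit 4, nat_lit 0x47⟩ (.node ⟨nat_lit 9, nat_lit 0x100010001000080008001400120, nat_lit 0x11003000, nat_lit 1, nat_lit 4, nat_lit 0x49⟩ (t14_3376) (t14_11568)) (.node ⟨nat_lit 8, nat_lit 0x200080001000c0, nat_lit 0x11000102, nat_lit 5, nat_lit 4, nat_lit 0x4a⟩ (t14_7472) (.nil))))) (.node ⟨nat_lit 6, nat_lit 0x80030, nat_lit 0x111300, nat_lit 1, nat_lit 4, nat_lit 0x49⟩ (.node ⟨nat_lit 4, nat_lit 0xc, nat_lit 0x2010, nat_lit 2, nat_lit 3, nat_lit 0x45⟩ (.node ⟨nat_lit 5, nat_lit 0x80010, nat_lit 0x11111, nat_lit 0, nat_lit 4, nat_lit 0x46⟩ (.node ⟨nat_lit 6, nat_lit 0x200010, nat_lit 0x22220, nat_lit 0, nat_lit 4, nat_lit 0x4a⟩ (t14_816) (t14_9008)) (.node ⟨nat_lit 8, nat_lit 0x800020002000c0, nat_lit 0x11020102, nat_lit 1, nat_lit 4, nat_lit 0x4a⟩ (t14_4912) (t14_13104))) (.node ⟨nat_lit 6, nat_lit 0x800300030, nat_lit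 0x111022, nat_lit 0, nat_lit 4, nat_lit 0x47⟩ (.node ⟨nat_lit 2, nat_lit 2, nat_lit 0x13, nat_lit 0x11, nat_lit 4, nat_lit 0x47⟩ (t14_2864) (t14_11056)) (.node ⟨nat_lit 7, nat_lit 0x40001000600060, nat_lit 0x1011122, nat_lit 0, nat_lit 3, nat_lit 0x46⟩ (t14_6960) (t14_15152)))) (.node ⟨nat_lit 3, nat_lit 6, nat_lit 0x310, nat_lit 0xc, nat_lit 4, nat_lit 0x47⟩ (.node ⟨nat_lit 7, nat_lit 0x40002000500060, nat_lit 0x121012, nat_lit 1, nat_lit 4, nat_lit 0x48⟩ (.node ⟨nat_lit 5, nat_lit 0x100008, nat_lit 0x102, nat_lit 3, nat_lit 4, nat_lit 0x46⟩ (t14_1840) (t14_10032)) (.node ⟨nat_lit 7, nat_lit 0x40002000500060, nat_lit 0x122021, nat_lit 0, nat_lit 4, nat_lit 0x48⟩ (t14_5936) (t14_14128))) (.node ⟨nat_lit 5, nat_lit 0x1000100010, nat_lit 0x1211, nat_lit 6, nat_lit 4, nat_lit 0x48⟩ (.node ⟨nat_lit 7, nat_lit 0x20005000600070, nat_lit 0x10303, nat_lit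 1, nat_lit 4, nat_lit 0x46⟩ (t14_3888) (t14_12080)) (.node ⟨nat_lit 6, nat_lit 0x200030, nat_lit 0x11122, nat_lit 1, nat_lit 4, nat_lit 0x48⟩ (t14_7984) (.nil)))))
def t14_176 : Tr := .node ⟨nat_lit 7, nat_lit 0x40004800300060, nat_lit 0x1112012, nat_lit 0, nat_lit 4, nat_lit 0x48⟩ (.nil) (.nil)
def t14_8368 : Tr := .node ⟨nat_lit 7, nat_lit 0x4000500064, nat_lit 0x101303, nat_lit 1, nat_lit 4, nat_lit 0x48⟩ (.nil) (.nil)
def t14_4272 : Tr := .node ⟨nat_lit 6, nat_lit 0x2000340034, nat_lit 0x202011, nat_lit 3, nat_lit 4, nat_lit 0x47⟩ (.nil) (.nil)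
def t14_12464 : Tr := .node ⟨nat_lit 8, nat_lit 0x8000c800c800c8, nat_lit 0x10110310, nat_lit 0, nat_lit 4, nat_lit 0x47⟩ (.nil) (.nil)
def t14_2224 : Tr := .node ⟨nat_lit 7, nat_lit 0x400040002000200060, nat_lit 0x30221, nat_lit 0, nat_lit 4, nat_lit 0x48⟩ (.nil) (.nil)
def t14_10416 : Tr := .node ⟨nat_lit 8, nat_lit 0x9000a000c0, nat_lit 0x111220, nat_lit 1, nat_lit 4, nat_lit 0x49⟩ (.nil) (.nil)
def t14_6320 : Tr := .node ⟨nat_lit 5, nat_lit 0x100018001c, nat_lit 0x1120, nat_lit 5, nat_lit 4, nat_lit 0x45⟩ (.nil) (.nil)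
def t14_14512 : Tr := .node ⟨nat_lit 7, nat_lit 0x4000400060, nat_lit 0x21210, nat_lit 4, nat_lit 4, nat_lit 0x4a⟩ (.nil) (.nil)
def t14_1200 : Tr := .node ⟨nat_lit 7, nat_lit 0x400060, nat_lit 0x11021, nat_lit 1, nat_lit 4, nat_lit 0x49⟩ (.nil) (.nil)
def t14_9392 : Tr := .node ⟨nat_lit 6, nat_lit 0x10002000200020, nat_lit 0x23210, nat_lit 2, nat_lit 3, nat_lit 0x47⟩ (.nil) (.nil)
def t14_5296 : Tr := .node ⟨nat_lit 7, nat_lit 0x600060, nat_lit 0x1111120, nat_lit 1, nat_lit 4, nat_lit 0x4a⟩ (.nil) (.nil)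
def t14_13488 : Tr := .node ⟨nat_lit 8, nat_lit 0x800020002000c0, nat_lit 0x10003, nat_lit 0, nat_lit 4, nat_lit 0x48⟩ (.nil) (.nil)
def t14_3248 : Tr := .node ⟨nat_lit 7, nat_lit 0x20002000500060, nat_lit 0x12021, nat_lit 0, nat_lit 4, nat_lit 0x47⟩ (.nil) (.nil)
def t14_11440 : Tr := .node ⟨nat_lit 7, nat_lit 0x40001000100060, nat_lit 0x1000110, nat_lit 1, nat_lit 4, nat_lit 0x47⟩ (.nil) (.nil)
def t14_7344 : Tr := .node ⟨nat_lit 6, nat_lit 0x10001000100020, nat_lit 0x200001, nat_lit 0, nat_lit 3, nat_lit 0x46⟩ (.nil) (.nil)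
def t14_15536 : Tr := .node ⟨nat_lit 7, nat_lit 0x400040, nat_lit 0x211110, nat_lit 7, nat_lit 4, nat_lit 0x4c⟩ (.nil) (.nil)
def t14_688 : Tr := .node ⟨nat_lit 5, nat_lit 0x800100018, nat_lit 0x331, nat_lit 3, nat_lit 4, nat_lit 0x46⟩ (.nil) (.nil)
def t14_8880 : Tr := .node ⟨nat_lit 7, nat_lit 0x40001000480060, nat_lit 0x112120, nat_lit 2, nat_lit 4, nat_lit 0x48⟩ (.nil) (.nil)
def t14_4784 : Tr := .node ⟨nat_lit 6, nat_lit 0x1000280030, nat_lit 0x12202, nat_lit 4, nat_lit 4, nat_lit 0x48⟩ (.nil) (.nil)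
def t14_12976 : Tr := .node ⟨nat_lit 7, nat_lit 0x40001000100068, nat_lit 0x3111, nat_lit 0, nat_lit 4, nat_lit 0x47⟩ (.nil) (.nil)
def t14_2736 : Tr := .node ⟨nat_lit 6, nat_lit 0x3000300030, nat_lit 0x2220, nat_lit 2, nat_lit 4, nat_lit 0x46⟩ (.nil) (.nil)
def t14_10928 : Tr := .node ⟨nat_lit 7, nat_lit 0x400020005000700068, nat_lit 0x12101, nat_lit 2, nat_lit 4, nat_lit 0x45⟩ (.nil) (.nil)
def t14_6832 : Tr := .node ⟨nat_lit 7, nat_lit 0x2000400042, nat_lit 0x11032, nat_lit 0, nat_lit 4, nat_lit 0x49⟩ (.nil) (.nil)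
def t14_15024 : Tr := .node ⟨nat_lit 9, nat_lit 0x1000100011001100180, nat_lit 0x11111110, nat_lit 0, nat_lit 4, nat_lit 0x4a⟩ (.nil) (.nil)
def t14_1712 : Tr := .node ⟨nat_lit 6, nat_lit 0x2000100010, nat_lit 0x100111, nat_lit 0, nat_lit 3, nat_lit 0x46⟩ (.nil) (.nil)
def t14_9904 : Tr := .node ⟨nat_lit 4, nat_lit 0xc000c, nat_lit 0x43, nat_lit 8, nat_lit 4, nat_lit 0x45⟩ (.nil) (.nil)
def t14_5808 : Tr := .node ⟨nat_lit 5, nat_lit 0x80010, nat_lit 0x1113, nat_lit 5, nat_lit 4, nat_lit 0x48⟩ (.nil) (.nil)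
def t14_14000 : Tr := .node ⟨nat_lit 7, nat_lit 0x400040002000200050, nat_lit 0x1000212, nat_lit 1, nat_lit 4, nat_lit 0x47⟩ (.nil) (.nil)
def t14_3760 : Tr := .node ⟨nat_lit 7, nat_lit 0x4000400060, nat_lit 0x211200, nat_lit 0, nat_lit 3, nat_lit 0x48⟩ (.nil) (.nil)
def t14_11952 : Tr := .node ⟨nat_lit 6, nat_lit 0x1000080020, nat_lit 0x100031, nat_lit 4, nat_lit 4, nat_lit 0x48⟩ (.nil) (.nil)
def t14_7856 : Tr := .node ⟨nat_lit 5, nat_lit 0x1000140018, nat_lit 0x1111, nat_lit 7, nat_lit 4, nat_lit 0x46⟩ (.nil) (.nil)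
def t9_176 : Tr := .node ⟨nat_lit 3, nat_lit 0, nat_lit 0x311, nat_lit 0xd, nat_lit 4, nat_lit 0x49⟩ (.node ⟨nat_lit 7, nat_lit 0x2000600050, nat_lit 0x1013012, nat_lit 1, nat_lit 4, nat_lit 0x49⟩ (.node ⟨nat_lit 6, nat_lit 0x280030, nat_lit 0x320, nat_lit 2, nat_lit 4, nat_lit 0x47⟩ (.node ⟨nat_lit 5, nat_lit 0x180018, nat_lit 0x210, nat_lit 4, nat_lit 4, nat_lit 0x45⟩ (.node ⟨nat_lit 8, nat_lit 0x8000800040009000c4, nat_lit 0x2111210, nat_lit 0, nat_lit 4, nat_lit 0x49⟩ (t14_176) (t14_8368)) (.node ⟨nat_lit 7, nat_lit 0x4000200010, nat_lit 0x10020, nat_lit 0, nat_lit 4, nat_lit 0x48⟩ (t14_4272) (t14_12464))) (.node ⟨nat_lit 6, nat_lit 0x200030, nat_lit 0x122203, nat_lit 0, nat_lit 4, nat_lit 0x4a⟩ (.node ⟨nat_lit 7, nat_lit 0x10001800500060, nat_lit 0x1002131, nat_lit 0, nat_lit 4, nat_lit 0x47⟩ (t14_2224) (t14_10416)) (.node ⟨nat_lit 7, nat_lit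 0x10002000400060, nat_lit 0x1000322, nat_lit 0, nat_lit 4, nat_lit 0x48⟩ (t14_6320) (t14_14512)))) (.node ⟨nat_lit 7, nat_lit 0x40, nat_lit 0x2111111, nat_lit 0, nat_lit 4, nat_lit 0x4c⟩ (.node ⟨nat_lit 6, nat_lit 0x1000280030, nat_lit 0x201112, nat_lit 1, nat_lit 4, nat_lit 0x47⟩ (.node ⟨nat_lit 8, nat_lit 0x800080004000200090, nat_lit 0x1001400, nat_lit 0, nat_lit 4, nat_lit 0x49⟩ (t14_1200) (t14_9392)) (.node ⟨nat_lit 7, nat_lit 0x40004800600030, nat_lit 0x1102121, nat_lit 1, nat_lit 4, nat_lit 0x48⟩ (t14_5296) (t14_13488))) (.node ⟨nat_lit 6, nat_lit 0x10002000200024, nat_lit 0x22200, nat_lit 3, nat_lit 4, nat_lit 0x48⟩ (.node ⟨nat_lit 5, nat_lit 0x40018, nat_lit 0x11101, nat_lit 4, nat_lit 4, nat_lit 0x47⟩ (t14_3248) (t14_11440)) (.node ⟨nat_lit 5, nat_lit 0x100018, nat_lit 0x10101, nat_lit 3, nat_lit 4, nat_lit 0x46⟩ (t14_7344) (t14_15536)))))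 (.node ⟨nat_lit 6, nat_lit 0x30, nat_lit 0x301112, nat_lit 0, nat_lit 4, nat_lit 0x4a⟩ (.node ⟨nat_lit 6, nat_lit 0xc0030, nat_lit 0x112021, nat_lit 0, nat_lit 4, nat_lit 0x47⟩ (.node ⟨nat_lit 6, nat_lit 0x2000200010, nat_lit 0x2101, nat_lit 1, nat_lit 4, nat_lit 0x47⟩ (.node ⟨nat_lit 4, nat_lit 0x80004, nat_lit 0x1220, nat_lit 5, nat_lit 3, nat_lit 0x46⟩ (t14_688) (t14_8880)) (.node ⟨nat_lit 7, nat_lit 0x400020002000640068, nat_lit 0x131201, nat_lit 1, nat_lit 4, nat_lit 0x47⟩ (t14_4784) (t14_12976))) (.node ⟨nat_lit 3, nat_lit 4, nat_lit 0x11, nat_lit 6, nat_lit 4, nat_lit 0x44⟩ (.node ⟨nat_lit 6, nat_lit 0x800200030, nat_lit 0x100230, nat_lit 0, nat_lit 4, nat_lit 0x47⟩ (t14_2736) (t14_10928)) (.node ⟨nat_lit 7, nat_lit 0x1800500060, nat_lit 0x111201, nat_lit 0, nat_lit 4, nat_lit 0x47⟩ (t14_6832) (t14_15024)))) (.node ⟨nat_lit 5, nat_lit 0x1000080014,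 nat_lit 0x11212, nat_lit 3, nat_lit 4, nat_lit 0x47⟩ (.node ⟨nat_lit 6, nat_lit 0x2000300034, nat_lit 0x101211, nat_lit 3, nat_lit 4, nat_lit 0x47⟩ (.node ⟨nat_lit 4, nat_lit 0x8000a, nat_lit 0x100, nat_lit 3, nat_lit 4, nat_lit 0x43⟩ (t14_1712) (t14_9904)) (.node ⟨nat_lit 6, nat_lit 0x30, nat_lit 0x202003, nat_lit 0, nat_lit 4, nat_lit 0x49⟩ (t14_5808) (t14_14000))) (.node ⟨nat_lit 6, nat_lit 0x2000240018, nat_lit 0x20222, nat_lit 1, nat_lit 4, nat_lit 0x47⟩ (.node ⟨nat_lit 7, nat_lit 0x20002000600050, nat_lit 0x21003, nat_lit 0, nat_lit 4, nat_lit 0x47⟩ (t14_3760) (t14_11952)) (.node ⟨nat_lit 6, nat_lit 0x20002000380038, nat_lit 0x110221, nat_lit 5, nat_lit 4, nat_lit 0x47⟩ (t14_7856) (.nil)))))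
def t14_432 : Tr := .node ⟨nat_lit 7, nat_lit 0x400040002000200050, nat_lit 0x1111101, nat_lit 5, nat_lit 4, nat_lit 0x49⟩ (.nil) (.nil)
def t14_8624 : Tr := .node ⟨nat_lit 7, nat_lit 0x20002000500068, nat_lit 0x11020, nat_lit 0, nat_lit 4, nat_lit 0x46⟩ (.nil) (.nil)
def t14_4528 : Tr := .node ⟨nat_lit 7, nat_lit 0x400040, nat_lit 0x1111121, nat_lit 3, nat_lit 4, nat_lit 0x4c⟩ (.nil) (.nil)
def t14_12720 : Tr := .node ⟨nat_lit 6, nat_lit 0x2000300034, nat_lit 0x111020, nat_lit 3, nat_lit 4, nat_lit 0x47⟩ (.nil) (.nil)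
def t14_2480 : Tr := .node ⟨nat_lit 7, nat_lit 0x40004800300060, nat_lit 0x1002110, nat_lit 0, nat_lit 4, nat_lit 0x47⟩ (.nil) (.nil)
def t14_10672 : Tr := .node ⟨nat_lit 7, nat_lit 0x10004000600064, nat_lit 0x100000, nat_lit 0, nat_lit 4, nat_lit 0x45⟩ (.nil) (.nil)
def t14_6576 : Tr := .node ⟨nat_lit 5, nat_lit 0x100018, nat_lit 0x2120, nat_lit 6, nat_lit 4, nat_lit 0x48⟩ (.nil) (.nil)
def t14_14768 : Tr := .node ⟨nat_lit 6, nat_lit 0x10002000240030, nat_lit 0x101202, nat_lit 3, nat_lit 4, nat_lit 0x47⟩ (.nil) (.nil)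
def t14_1456 : Tr := .node ⟨nat_lit 9, nat_lit 0x10001000080004001200180, nat_lit 0x1200111, nat_lit 1, nat_lit 4, nat_lit 0x49⟩ (.nil) (.nil)
def t14_9648 : Tr := .node ⟨nat_lit 7, nat_lit 0x40002000500060, nat_lit 0x122, nat_lit 1, nat_lit 4, nat_lit 0x46⟩ (.nil) (.nil)
def t14_5552 : Tr := .node ⟨nat_lit 8, nat_lit 0x80008000c0, nat_lit 0x111310, nat_lit 1, nat_lit 4, nat_lit 0x4b⟩ (.nil) (.nil)
def t14_13744 : Tr := .node ⟨nat_lit 6, nat_lit 0x10002000200038, nat_lit 0x2000, nat_lit 5, nat_lit 4, nat_lit 0x46⟩ (.nil) (.nil)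
def t14_3504 : Tr := .node ⟨nat_lit 6, nat_lit 0x800300028, nat_lit 1, nat_lit 3, nat_lit 4, nat_lit 0x45⟩ (.nil) (.nil)
def t14_11696 : Tr := .node ⟨nat_lit 8, nat_lit 0x80008000a000d000d000e0, nat_lit 0x10101102, nat_lit 1, nat_lit 4, nat_lit 0x46⟩ (.nil) (.nil)
def t14_7600 : Tr := .node ⟨nat_lit 7, nat_lit 0x40001000480060, nat_lit 0x1013, nat_lit 0, nat_lit 4, nat_lit 0x46⟩ (.nil) (.nil)
def t14_944 : Tr := .node ⟨nat_lit 5, nat_lit 0x800080010, nat_lit 0x21112, nat_lit 5, nat_lit 3, nat_lit 0x47⟩ (.nil) (.nil)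
def t14_9136 : Tr := .node ⟨nat_lit 9, nat_lit 0x4001000100010801800190, nat_lit 0x10011120, nat_lit 0, nat_lit 4, nat_lit 0x48⟩ (.nil) (.nil)
def t14_5040 : Tr := .node ⟨nat_lit 7, nat_lit 0x6000500050, nat_lit 0x11141, nat_lit 0, nat_lit 4, nat_lit 0x48⟩ (.nil) (.nil)
def t14_13232 : Tr := .node ⟨nat_lit 7, nat_lit 0x20002000400042, nat_lit 0x1010003, nat_lit 0, nat_lit 4, nat_lit 0x47⟩ (.nil) (.nil)
def t14_2992 : Tr := .node ⟨nat_lit 7, nat_lit 0x400020002000500068, nat_lit 0x100120, nat_lit 0, nat_lit 4, nat_lit 0x45⟩ (.nil) (.nil)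
def t14_11184 : Tr := .node ⟨nat_lit 6, nat_lit 0x800300030, nat_lit 0x201020, nat_lit 2, nat_lit 4, nat_lit 0x47⟩ (.nil) (.nil)
def t14_7088 : Tr := .node ⟨nat_lit 7, nat_lit 0x5000600060, nat_lit 0x101211, nat_lit 1, nat_lit 4, nat_lit 0x47⟩ (.nil) (.nil)
def t14_15280 : Tr := .node ⟨nat_lit 9, nat_lit 0x200100004001800140, nat_lit 0x1000112, nat_lit 1, nat_lit 4, nat_lit 0x49⟩ (.nil) (.nil)
def t14_1968 : Tr := .node ⟨nat_lit 6, nat_lit 0x1000200038, nat_lit 0x200122, nat_lit 1, nat_lit 4, nat_lit 0x47⟩ (.nil) (.nil)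
def t14_10160 : Tr := .node ⟨nat_lit 7, nat_lit 0x40004000100060, nat_lit 0x1030, nat_lit 1, nat_lit 4, nat_lit 0x47⟩ (.nil) (.nil)
def t14_6064 : Tr := .node ⟨nat_lit 8, nat_lit 0x80008000c000c8, nat_lit 0x1111120, nat_lit 0, nat_lit 4, nat_lit 0x49⟩ (.nil) (.nil)
def t14_14256 : Tr := .node ⟨nat_lit 8, nat_lit 0x80004000a000d000e000e0, nat_lit 0x10010210, nat_lit 1, nat_lit 4, nat_lit 0x45⟩ (.nil) (.nil)
def t14_4016 : Tr := .node ⟨nat_lit 7, nat_lit 0x40001000680058, nat_lit 0x1101011, nat_lit 1, nat_lit 4, nat_lit 0x46⟩ (.nil) (.nil)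
def t14_12208 : Tr := .node ⟨nat_lit 7, nat_lit 0x200040006000680070, nat_lit 0x1011021, nat_lit 3, nat_lit 4, nat_lit 0x46⟩ (.nil) (.nil)
def t14_8112 : Tr := .node ⟨nat_lit 7, nat_lit 0x20004000400044, nat_lit 0x111103, nat_lit 0, nat_lit 4, nat_lit 0x48⟩ (.nil) (.nil)
def t9_432 : Tr := .node ⟨nat_lit 5, nat_lit 0x100018, nat_lit 0x21312, nat_lit 4, nat_lit 4, nat_lit 0x49⟩ (.node ⟨nat_lit 6, nat_lit 0, nat_lit 0x321111, nat_lit 0, nat_lit 3, nat_lit 0x4b⟩ (.node ⟨nat_lit 5, nat_lit 0x40018, nat_lit 0x20020, nat_lit 0, nat_lit 3, nat_lit 0x45⟩ (.node ⟨nat_lit 5, nat_lit 0x1000100008, nat_lit 0x11222, nat_lit 3, nat_lit 4, nat_lit 0x48⟩ (.node ⟨nat_lit 7, nat_lit 0x40001000600060, nat_lit 0x21120, nat_lit 0, nat_lit 4, nat_lit 0x47⟩ (t14_432) (t14_8624)) (.node ⟨nat_lit 6, nat_lit 0x1000280034, nat_lit 0x112122, nat_lit 1, nat_lit 4, nat_lit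 0x47⟩ (t14_4528) (t14_12720))) (.node ⟨nat_lit 6, nat_lit 0x800080030, nat_lit 0x200101, nat_lit 2, nat_lit 3, nat_lit 0x46⟩ (.node ⟨nat_lit 8, nat_lit 0x800080004000c0, nat_lit 0x1111013, nat_lit 0, nat_lit 4, nat_lit 0x4a⟩ (t14_2480) (t14_10672)) (.node ⟨nat_lit 7, nat_lit 0x10002000500060, nat_lit 0x1003012, nat_lit 0, nat_lit 4, nat_lit 0x47⟩ (t14_6576) (t14_14768)))) (.node ⟨nat_lit 6, nat_lit 0x800200030, nat_lit 0x20011, nat_lit 3, nat_lit 4, nat_lit 0x47⟩ (.node ⟨nat_lit 6, nat_lit 0x2000200030, nat_lit 0x11211, nat_lit 1, nat_lit 3, nat_lit 0x46⟩ (.node ⟨nat_lit 6, nat_lit 0x200020, nat_lit 0x11100, nat_lit 2, nat_lit 4, nat_lit 0x48⟩ (t14_1456) (t14_9648)) (.node ⟨nat_lit 4, nat_lit 0x80008, nat_lit 0x2121, nat_lit 7, nat_lit 3, nat_lit 0x47⟩ (t14_5552) (t14_13744))) (.node ⟨nat_lit 7, nat_lit 0x4000400040, nat_lit 0x111211, nat_lit 0,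 nat_lit 4, nat_lit 0x4a⟩ (.node ⟨nat_lit 6, nat_lit 0x1000280034, nat_lit 0x10000, nat_lit 5, nat_lit 4, nat_lit 0x46⟩ (t14_3504) (t14_11696)) (.node ⟨nat_lit 6, nat_lit 0x2000080030, nat_lit 0x111121, nat_lit 2, nat_lit 4, nat_lit 0x48⟩ (t14_7600) (.nil))))) (.node ⟨nat_lit 6, nat_lit 0x30, nat_lit 0x203101, nat_lit 0, nat_lit 4, nat_lit 0x4a⟩ (.node ⟨nat_lit 5, nat_lit 0x18, nat_lit 0x22211, nat_lit 0, nat_lit 3, nat_lit 0x48⟩ (.node ⟨nat_lit 5, nat_lit 0x1000080008, nat_lit 0x11021, nat_lit 3, nat_lit 3, nat_lit 0x46⟩ (.node ⟨nat_lit 3, nat_lit 4, nat_lit 0x114, nat_lit 0xd, nat_lit 4, nat_lit 0x48⟩ (t14_944) (t14_9136)) (.node ⟨nat_lit 7, nat_lit 0x4000400044, nat_lit 0x1222110, nat_lit 0, nat_lit 4, nat_lit 0x4b⟩ (t14_5040) (t14_13232))) (.node ⟨nat_lit 4, nat_lit 0x80008, nat_lit 0x1220, nat_lit 8, nat_lit 4, nat_lit 0x48⟩ (.node ⟨nat_lit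 7, nat_lit 0x200040, nat_lit 0x1111102, nat_lit 1, nat_lit 4, nat_lit 0x4b⟩ (t14_2992) (t14_11184)) (.node ⟨nat_lit 8, nat_lit 0x800040009000a000c0, nat_lit 0x10110122, nat_lit 0, nat_lit 4, nat_lit 0x48⟩ (t14_7088) (t14_15280)))) (.node ⟨nat_lit 5, nat_lit 0x80010, nat_lit 0x21110, nat_lit 3, nat_lit 4, nat_lit 0x48⟩ (.node ⟨nat_lit 5, nat_lit 0x18, nat_lit 0x30211, nat_lit 2, nat_lit 3, nat_lit 0x48⟩ (.node ⟨nat_lit 6, nat_lit 0x200038, nat_lit 0x110113, nat_lit 3, nat_lit 4, nat_lit 0x48⟩ (t14_1968) (t14_10160)) (.node ⟨nat_lit 8, nat_lit 0x8000800020002000c0, nat_lit 0x120200, nat_lit 1, nat_lit 4, nat_lit 0x49⟩ (t14_6064) (t14_14256))) (.node ⟨nat_lit 9, nat_lit 0x40002000200180, nat_lit 0x200010102, nat_lit 2, nat_lit 4, nat_lit 0x4b⟩ (.node ⟨nat_lit 5, nat_lit 0x800100018, nat_lit 0x10, nat_lit 3, nat_lit 4, nat_lit 0x44⟩ (t14_4016) (t14_12208))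 (.node ⟨nat_lit 8, nat_lit 0x8000800040004000a000a0, nat_lit 0x1112111, nat_lit 0, nat_lit 4, nat_lit 0x48⟩ (t14_8112) (.nil)))))
def t14_112 : Tr := .node ⟨nat_lit 7, nat_lit 0x4000100060, nat_lit 0x221111, nat_lit 0, nat_lit 4, nat_lit 0x4a⟩ (.nil) (.nil)
def t14_8304 : Tr := .node ⟨nat_lit 7, nat_lit 0x4000600064, nat_lit 0x11203, nat_lit 3, nat_lit 4, nat_lit 0x48⟩ (.nil) (.nil)
def t14_4208 : Tr := .node ⟨nat_lit 9, nat_lit 0x1000100010000800110, nat_lit 0x11111110, nat_lit 1, nat_lit 4, nat_lit 0x4b⟩ (.nil) (.nil)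
def t14_12400 : Tr := .node ⟨nat_lit 8, nat_lit 0x400080009000e0, nat_lit 0x101013, nat_lit 0, nat_lit 4, nat_lit 0x47⟩ (.nil) (.nil)
def t14_2160 : Tr := .node ⟨nat_lit 7, nat_lit 0x400020002000500060, nat_lit 0x22120, nat_lit 1, nat_lit 4, nat_lit 0x47⟩ (.nil) (.nil)
def t14_10352 : Tr := .node ⟨nat_lit 7, nat_lit 0x400020002000500068, nat_lit 0x120000, nat_lit 0, nat_lit 4, nat_lit 0x46⟩ (.nil) (.nil)
def t14_6256 : Tr := .node ⟨nat_lit 6, nat_lit 0x1000200030, nat_lit 0x111111, nat_lit 3, nat_lit 4, nat_lit 0x48⟩ (.nil) (.nil)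
def t14_14448 : Tr := .node ⟨nat_lit 8, nat_lit 0x80004000a000c0, nat_lit 0x11002, nat_lit 5, nat_lit 4, nat_lit 0x49⟩ (.nil) (.nil)
def t14_1136 : Tr := .node ⟨nat_lit 7, nat_lit 0x4000500064, nat_lit 0x101211, nat_lit 3, nat_lit 4, nat_lit 0x48⟩ (.nil) (.nil)
def t14_9328 : Tr := .node ⟨nat_lit 9, nat_lit 0x200100004001400180, nat_lit 0x10002021, nat_lit 0, nat_lit 4, nat_lit 0x49⟩ (.nil) (.nil)
def t14_5232 : Tr := .node ⟨nat_lit 7, nat_lit 0x10004000400060, nat_lit 0x22101, nat_lit 0, nat_lit 3, nat_lit 0x47⟩ (.nil) (.nil)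
def t14_13424 : Tr := .node ⟨nat_lit 7, nat_lit 0x10001800500060, nat_lit 0x2004, nat_lit 0, nat_lit 4, nat_lit 0x46⟩ (.nil) (.nil)
def t14_3184 : Tr := .node ⟨nat_lit 8, nat_lit 0x80009000c0006000d0, nat_lit 0x10110121, nat_lit 0, nat_lit 4, nat_lit 0x47⟩ (.nil) (.nil)
def t14_11376 : Tr := .node ⟨nat_lit 6, nat_lit 0x200030, nat_lit 0x1110, nat_lit 4, nat_lit 3, nat_lit 0x47⟩ (.nil) (.nil)
def t14_7280 : Tr := .node ⟨nat_lit 7, nat_lit 0x10001000100060, nat_lit 0x2102101, nat_lit 0, nat_lit 4, nat_lit 0x49⟩ (.nil) (.nil)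
def t14_15472 : Tr := .node ⟨nat_lit 0xe, nat_lit 0x2000100008000400020001000080, nat_lit 0, nat_lit 3, nat_lit 4, nat_lit 0x4e⟩ (.nil) (.nil)
def t14_624 : Tr := .node ⟨nat_lit 7, nat_lit 0x400040002000200064, nat_lit 0x10222, nat_lit 1, nat_lit 4, nat_lit 0x47⟩ (.nil) (.nil)
def t14_8816 : Tr := .node ⟨nat_lit 6, nat_lit 0x1000200022, nat_lit 0x102024, nat_lit 1, nat_lit 4, nat_lit 0x49⟩ (.nil) (.nil)
def t14_4720 : Tr := .node ⟨nat_lit 7, nat_lit 0x40001000600068, nat_lit 0x1010220, nat_lit 0, nat_lit 4, nat_lit 0x47⟩ (.nil) (.nil)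
def t14_12912 : Tr := .node ⟨nat_lit 9, nat_lit 0x1000100008000900140012001c0, nat_lit 0x100120000, nat_lit 0, nat_lit 4, nat_lit 0x47⟩ (.nil) (.nil)
def t14_2672 : Tr := .node ⟨nat_lit 5, nat_lit 0x40018, nat_lit 0x104, nat_lit 1, nat_lit 4, nat_lit 0x45⟩ (.nil) (.nil)
def t14_10864 : Tr := .node ⟨nat_lit 8, nat_lit 0x80008000a000a000c000e0, nat_lit 0x1001022, nat_lit 3, nat_lit 4, nat_lit 0x47⟩ (.nil) (.nil)
def t14_6768 : Tr := .node ⟨nat_lit 6, nat_lit 0x1000200034, nat_lit 0x11100, nat_lit 4, nat_lit 4, nat_lit 0x47⟩ (.nil) (.nil)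
def t14_14960 : Tr := .node ⟨nat_lit 9, nat_lit 0x800080008001000100010800c0, nat_lit 0x1110001, nat_lit 1, nat_lit 4, nat_lit 0x48⟩ (.nil) (.nil)
def t14_1648 : Tr := .node ⟨nat_lit 8, nat_lit 0x800040009000c000c8, nat_lit 0x111120, nat_lit 1, nat_lit 4, nat_lit 0x47⟩ (.nil) (.nil)
def t14_9840 : Tr := .node ⟨nat_lit 8, nat_lit 0x80008000c000c8, nat_lit 0x101022, nat_lit 0, nat_lit 4, nat_lit 0x48⟩ (.nil) (.nil)
def t14_5744 : Tr := .node ⟨nat_lit 9, nat_lit 0x1000100004000400180, nat_lit 0x122100, nat_lit 1, nat_lit 4, nat_lit 0x4a⟩ (.nil) (.nil)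
def t14_13936 : Tr := .node ⟨nat_lit 8, nat_lit 0x80008000880060, nat_lit 0x11000, nat_lit 0, nat_lit 4, nat_lit 0x48⟩ (.nil) (.nil)
def t14_3696 : Tr := .node ⟨nat_lit 5, nat_lit 0x180018, nat_lit 0x10231, nat_lit 4, nat_lit 4, nat_lit 0x47⟩ (.nil) (.nil)
def t14_11888 : Tr := .node ⟨nat_lit 6, nat_lit 0x1000200022, nat_lit 0x330, nat_lit 0, nat_lit 4, nat_lit 0x47⟩ (.nil) (.nil)
def t14_7792 : Tr := .node ⟨nat_lit 7, nat_lit 0x40002000200010, nat_lit 0x102, nat_lit 1, nat_lit 3, nat_lit 0x46⟩ (.nil) (.nil)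
def t9_112 : Tr := .node ⟨nat_lit 6, nat_lit 0x20002000100010, nat_lit 0x111111, nat_lit 0, nat_lit 3, nat_lit 0x46⟩ (.node ⟨nat_lit 6, nat_lit 0x200010, nat_lit 0x13103, nat_lit 0, nat_lit 4, nat_lit 0x4a⟩ (.node ⟨nat_lit 7, nat_lit 0x4000600060, nat_lit 0x31210, nat_lit 1, nat_lit 4, nat_lit 0x49⟩ (.node ⟨nat_lit 7, nat_lit 0x4000100060, nat_lit 0x112011, nat_lit 1, nat_lit 4, nat_lit 0x49⟩ (.node ⟨nat_lit 6, nat_lit 0x2000200010, nat_lit 0x21222, nat_lit 1, nat_lit 4, nat_lit 0x49⟩ (t14_112) (t14_8304)) (.node ⟨nat_lit 6, nat_lit 0x280030, nat_lit 0x20020, nat_lit 0, nat_lit 4, nat_lit 0x46⟩ (t14_4208) (t14_12400))) (.node ⟨nat_lit 5, nat_lit 0x100018, nat_lit 0x12111, nat_lit 4, nat_lit 4, nat_lit 0x48⟩ (.node ⟨nat_lit 7, nat_lit 0x4000200060, nat_lit 0x121031, nat_lit 0, nat_lit 3, nat_lit 0x48⟩ (t14_2160) (t14_10352)) (.node ⟨nat_lit 7, nat_lit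 0x40004000200048, nat_lit 0x122012, nat_lit 2, nat_lit 4, nat_lit 0x49⟩ (t14_6256) (t14_14448)))) (.node ⟨nat_lit 5, nat_lit 0x40018, nat_lit 0x21122, nat_lit 0, nat_lit 3, nat_lit 0x46⟩ (.node ⟨nat_lit 5, nat_lit 0x18, nat_lit 0x22211, nat_lit 3, nat_lit 4, nat_lit 0x4a⟩ (.node ⟨nat_lit 6, nat_lit 0x2000240018, nat_lit 0x110113, nat_lit 0, nat_lit 4, nat_lit 0x46⟩ (t14_1136) (t14_9328)) (.node ⟨nat_lit 6, nat_lit 0x300038, nat_lit 0x111212, nat_lit 1, nat_lit 4, nat_lit 0x48⟩ (t14_5232) (t14_13424))) (.node ⟨nat_lit 6, nat_lit 0x30000c, nat_lit 0x202110, nat_lit 0, nat_lit 4, nat_lit 0x48⟩ (.node ⟨nat_lit 6, nat_lit 0x200030, nat_lit 0x102130, nat_lit 3, nat_lit 4, nat_lit 0x4a⟩ (t14_3184) (t14_11376)) (.node ⟨nat_lit 5, nat_lit 0x180014, nat_lit 0x10112, nat_lit 7, nat_lit 4, nat_lit 0x47⟩ (t14_7280) (t14_15472))))) (.node ⟨nat_lit 3, nat_lit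 6, nat_lit 0x201, nat_lit 2, nat_lit 3, nat_lit 0x43⟩ (.node ⟨nat_lit 7, nat_lit 0x40001000100068, nat_lit 0x2002102, nat_lit 0, nat_lit 4, nat_lit 0x48⟩ (.node ⟨nat_lit 6, nat_lit 0x2000080010, nat_lit 0x20021, nat_lit 0, nat_lit 4, nat_lit 0x47⟩ (.node ⟨nat_lit 6, nat_lit 0x800100020, nat_lit 0x112011, nat_lit 7, nat_lit 4, nat_lit 0x4a⟩ (t14_624) (t14_8816)) (.node ⟨nat_lit 7, nat_lit 0x40004000200020, nat_lit 0x1122120, nat_lit 0, nat_lit 4, nat_lit 0x4a⟩ (t14_4720) (t14_12912))) (.node ⟨nat_lit 5, nat_lit 0x40018, nat_lit 0x121, nat_lit 1, nat_lit 4, nat_lit 0x45⟩ (.node ⟨nat_lit 6, nat_lit 0x800080030, nat_lit 0x221003, nat_lit 1, nat_lit 4, nat_lit 0x49⟩ (t14_2672) (t14_10864)) (.node ⟨nat_lit 5, nat_lit 0x1000100018, nat_lit 0x1102, nat_lit 4, nat_lit 4, nat_lit 0x46⟩ (t14_6768) (t14_14960)))) (.node ⟨nat_lit 5, nat_lit 0x100008, nat_lit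 0x2231, nat_lit 0, nat_lit 4, nat_lit 0x48⟩ (.node ⟨nat_lit 7, nat_lit 0x4000500064, nat_lit 0x121111, nat_lit 0, nat_lit 4, nat_lit 0x48⟩ (.node ⟨nat_lit 6, nat_lit 0x2000080030, nat_lit 0x201, nat_lit 0, nat_lit 4, nat_lit 0x45⟩ (t14_1648) (t14_9840)) (.node ⟨nat_lit 7, nat_lit 0x40001000600060, nat_lit 0x22200, nat_lit 3, nat_lit 4, nat_lit 0x48⟩ (t14_5744) (t14_13936))) (.node ⟨nat_lit 9, nat_lit 0x10001000020011000c0, nat_lit 0x20100102, nat_lit 2, nat_lit 4, nat_lit 0x4a⟩ (.node ⟨nat_lit 6, nat_lit 0x1000200030, nat_lit 0x102010, nat_lit 0, nat_lit 4, nat_lit 0x47⟩ (t14_3696) (t14_11888)) (.node ⟨nat_lit 7, nat_lit 0x6000180018, nat_lit 0x1111121, nat_lit 0, nat_lit 4, nat_lit 0x48⟩ (t14_7792) (.nil)))))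
def t14_368 : Tr := .node ⟨nat_lit 8, nat_lit 0x80002000c0, nat_lit 0x10121111, nat_lit 0, nat_lit 4, nat_lit 0x4b⟩ (.nil) (.nil)
def t14_8560 : Tr := .node ⟨nat_lit 8, nat_lit 0x2000800088008800c0, nat_lit 0x1220, nat_lit 0, nat_lit 4, nat_lit 0x47⟩ (.nil) (.nil)
def t14_4464 : Tr := .node ⟨nat_lit 9, nat_lit 0x1000100008000400110, nat_lit 0x101111001, nat_lit 2, nat_lit 4, nat_lit 0x4b⟩ (.nil) (.nil)
def t14_12656 : Tr := .node ⟨nat_lit 9, nat_lit 0x40010001000180, nat_lit 0x110310, nat_lit 0, nat_lit 4, nat_lit 0x4b⟩ (.nil) (.nil)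
def t14_2416 : Tr := .node ⟨nat_lit 7, nat_lit 0x30003000500060, nat_lit 0x1001022, nat_lit 3, nat_lit 4, nat_lit 0x46⟩ (.nil) (.nil)
def t14_10608 : Tr := .node ⟨nat_lit 6, nat_lit 0x800300030, nat_lit 0x22, nat_lit 2, nat_lit 4, nat_lit 0x45⟩ (.nil) (.nil)
def t14_6512 : Tr := .node ⟨nat_lit 6, nat_lit 0x20001000280028, nat_lit 0x111120, nat_lit 2, nat_lit 4, nat_lit 0x47⟩ (.nil) (.nil)
def t14_14704 : Tr := .node ⟨nat_lit 9, nat_lit 0x800080010000c0011001a001c0, nat_lit 0x220111, nat_lit 0, nat_lit 4, nat_lit 0x46⟩ (.nil) (.nil)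
def t14_1392 : Tr := .node ⟨nat_lit 7, nat_lit 0x50006000300030, nat_lit 0x1003210, nat_lit 1, nat_lit 4, nat_lit 0x46⟩ (.nil) (.nil)
def t14_9584 : Tr := .node ⟨nat_lit 8, nat_lit 0x800040004000a000c000d0, nat_lit 0x210020, nat_lit 3, nat_lit 4, nat_lit 0x47⟩ (.nil) (.nil)
def t14_5488 : Tr := .node ⟨nat_lit 3, nat_lit 0, nat_lit 0x511, nat_lit 3, nat_lit 3, nat_lit 0x48⟩ (.nil) (.nil)
def t14_13680 : Tr := .node ⟨nat_lit 5, nat_lit 0x100018, nat_lit 0x202, nat_lit 6, nat_lit 4, nat_lit 0x47⟩ (.nil) (.nil)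
def t14_3440 : Tr := .node ⟨nat_lit 7, nat_lit 0x20004000100060, nat_lit 0x1020101, nat_lit 0, nat_lit 4, nat_lit 0x48⟩ (.nil) (.nil)
def t14_11632 : Tr := .node ⟨nat_lit 7, nat_lit 0x30005000500060, nat_lit 0x1103, nat_lit 1, nat_lit 4, nat_lit 0x45⟩ (.nil) (.nil)
def t14_7536 : Tr := .node ⟨nat_lit 6, nat_lit 0x20001000300038, nat_lit 0x2130, nat_lit 5, nat_lit 4, nat_lit 0x46⟩ (.nil) (.nil)
def t14_880 : Tr := .node ⟨nat_lit 6, nat_lit 0x2000080030, nat_lit 0x11310, nat_lit 0, nat_lit 4, nat_lit 0x47⟩ (.nil) (.nil)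
def t14_9072 : Tr := .node ⟨nat_lit 8, nat_lit 0xc000a000a00030, nat_lit 0x11212, nat_lit 0, nat_lit 4, nat_lit 0x47⟩ (.nil) (.nil)
def t14_4976 : Tr := .node ⟨nat_lit 6, nat_lit 0x1000200034, nat_lit 0x11130, nat_lit 1, nat_lit 4, nat_lit 0x47⟩ (.nil) (.nil)
def t14_13168 : Tr := .node ⟨nat_lit 7, nat_lit 0x40001000680070, nat_lit 0x1003, nat_lit 2, nat_lit 4, nat_lit 0x45⟩ (.nil) (.nil)
def t14_2928 : Tr := .node ⟨nat_lit 6, nat_lit 0x800280030, nat_lit 0x10301, nat_lit 0, nat_lit 4, nat_lit 0x46⟩ (.nil) (.nil)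
def t14_11120 : Tr := .node ⟨nat_lit 6, nat_lit 0x2000300030, nat_lit 0x1120, nat_lit 9, nat_lit 4, nat_lit 0x48⟩ (.nil) (.nil)
def t14_7024 : Tr := .node ⟨nat_lit 7, nat_lit 0x40001000500060, nat_lit 0x1102111, nat_lit 2, nat_lit 4, nat_lit 0x48⟩ (.nil) (.nil)
def t14_15216 : Tr := .node ⟨nat_lit 8, nat_lit 0x8000400050005000a000d0, nat_lit 0x10111002, nat_lit 0, nat_lit 4, nat_lit 0x46⟩ (.nil) (.nil)
def t14_1904 : Tr := .node ⟨nat_lit 4, nat_lit 0x8000c, nat_lit 0x2002, nat_lit 6, nat_lit 4, nat_lit 0x46⟩ (.nil) (.nil)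
def t14_10096 : Tr := .node ⟨nat_lit 5, nat_lit 0x800100018, nat_lit 0x230, nat_lit 4, nat_lit 4, nat_lit 0x46⟩ (.nil) (.nil)
def t14_6000 : Tr := .node ⟨nat_lit 7, nat_lit 0x1000400060, nat_lit 0x1202020, nat_lit 0, nat_lit 4, nat_lit 0x4a⟩ (.nil) (.nil)
def t14_14192 : Tr := .node ⟨nat_lit 7, nat_lit 0x4000500060, nat_lit 0x112120, nat_lit 3, nat_lit 4, nat_lit 0x49⟩ (.nil) (.nil)
def t14_3952 : Tr := .node ⟨nat_lit 7, nat_lit 0x200020004000400070, nat_lit 0x110301, nat_lit 4, nat_lit 4, nat_lit 0x48⟩ (.nil) (.nil)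
def t14_12144 : Tr := .node ⟨nat_lit 6, nat_lit 0x2000240030, nat_lit 0x11310, nat_lit 3, nat_lit 4, nat_lit 0x48⟩ (.nil) (.nil)
def t14_8048 : Tr := .node ⟨nat_lit 4, nat_lit 0x8000a, nat_lit 0x213, nat_lit 6, nat_lit 4, nat_lit 0x46⟩ (.nil) (.nil)
def t9_368 : Tr := .node ⟨nat_lit 5, nat_lit 0, nat_lit 0x33211, nat_lit 0, nat_lit 4, nat_lit 0x4c⟩ (.node ⟨nat_lit 6, nat_lit 0x2000100030, nat_lit 0x13113, nat_lit 0, nat_lit 4, nat_lit 0x48⟩ (.node ⟨nat_lit 4, nat_lit 0, nat_lit 0x2211, nat_lit 0, nat_lit 4, nat_lit 0x47⟩ (.node ⟨nat_lit 6, nat_lit 0x200032, nat_lit 0x111022, nat_lit 0, nat_lit 4, nat_lit 0x48⟩ (.node ⟨nat_lit 7, nat_lit 0x40002000100060, nat_lit 0x20312, nat_lit 0, nat_lit 4, nat_lit 0x48⟩ (t14_368) (t14_8560)) (.node ⟨nat_lit 8, nat_lit 0x8000400040004800a000d0, nat_lit 0x11102101, nat_lit 1, nat_lit 4, nat_lit 0x48⟩ (t14_4464)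 (t14_12656))) (.node ⟨nat_lit 6, nat_lit 0x80030, nat_lit 0x210101, nat_lit 4, nat_lit 4, nat_lit 0x49⟩ (.node ⟨nat_lit 6, nat_lit 0x30000c, nat_lit 0x1111, nat_lit 1, nat_lit 4, nat_lit 0x46⟩ (t14_2416) (t14_10608)) (.node ⟨nat_lit 8, nat_lit 0x20008000c0, nat_lit 0x21020, nat_lit 1, nat_lit 4, nat_lit 0x4a⟩ (t14_6512) (t14_14704)))) (.node ⟨nat_lit 7, nat_lit 0x20004000100044, nat_lit 0x2010130, nat_lit 1, nat_lit 4, nat_lit 0x49⟩ (.node ⟨nat_lit 7, nat_lit 0x4000400020, nat_lit 0x222101, nat_lit 1, nat_lit 4, nat_lit 0x4b⟩ (.node ⟨nat_lit 5, nat_lit 0x10001a, nat_lit 0x1103, nat_lit 3, nat_lit 4, nat_lit 0x45⟩ (t14_1392) (t14_9584)) (.node ⟨nat_lit 8, nat_lit 0x40004000800080008800e0, nat_lit 0x1212001, nat_lit 1, nat_lit 4, nat_lit 0x48⟩ (t14_5488) (t14_13680))) (.node ⟨nat_lit 6, nat_lit 0x2000080030, nat_lit 0x31112, nat_lit 4, nat_lit 4,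 nat_lit 0x49⟩ (.node ⟨nat_lit 4, nat_lit 0xc000c, nat_lit 0x1000, nat_lit 3, nat_lit 3, nat_lit 0x43⟩ (t14_3440) (t14_11632)) (.node ⟨nat_lit 8, nat_lit 0x8000200040004000c0, nat_lit 0x101101, nat_lit 1, nat_lit 4, nat_lit 0x48⟩ (t14_7536) (.nil))))) (.node ⟨nat_lit 6, nat_lit 0x2000080030, nat_lit 0x211311, nat_lit 0, nat_lit 4, nat_lit 0x49⟩ (.node ⟨nat_lit 5, nat_lit 0x40018, nat_lit 0x20211, nat_lit 5, nat_lit 4, nat_lit 0x48⟩ (.node ⟨nat_lit 6, nat_lit 0x100020, nat_lit 0x111121, nat_lit 0, nat_lit 4, nat_lit 0x49⟩ (.node ⟨nat_lit 6, nat_lit 0x200010, nat_lit 0x22020, nat_lit 0, nat_lit 4, nat_lit 0x49⟩ (t14_880) (t14_9072)) (.node ⟨nat_lit 6, nat_lit 0x800280030, nat_lit 0x121220, nat_lit 1, nat_lit 4, nat_lit 0x48⟩ (t14_4976) (t14_13168))) (.node ⟨nat_lit 4, nat_lit 0x8000c, nat_lit 0x1213, nat_lit 4, nat_lit 4, nat_lit 0x47⟩ (.node ⟨nat_lit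 7, nat_lit 0x4000200044, nat_lit 0x1111211, nat_lit 2, nat_lit 4, nat_lit 0x4a⟩ (t14_2928) (t14_11120)) (.node ⟨nat_lit 7, nat_lit 0x400020002000500070, nat_lit 0x1021101, nat_lit 1, nat_lit 4, nat_lit 0x47⟩ (t14_7024) (t14_15216)))) (.node ⟨nat_lit 5, nat_lit 0x10, nat_lit 0x2112, nat_lit 2, nat_lit 4, nat_lit 0x48⟩ (.node ⟨nat_lit 7, nat_lit 0x40005800580068, nat_lit 0x1210111, nat_lit 1, nat_lit 4, nat_lit 0x46⟩ (.node ⟨nat_lit 7, nat_lit 0x40003000500060, nat_lit 0x112311, nat_lit 0, nat_lit 4, nat_lit 0x47⟩ (t14_1904) (t14_10096)) (.node ⟨nat_lit 7, nat_lit 0x20005000500060, nat_lit 0x110202, nat_lit 1, nat_lit 4, nat_lit 0x47⟩ (t14_6000) (t14_14192))) (.node ⟨nat_lit 6, nat_lit 0x200038, nat_lit 0x102, nat_lit 0, nat_lit 4, nat_lit 0x45⟩ (.node ⟨nat_lit 6, nat_lit 0x2000100010, nat_lit 0x201030, nat_lit 0, nat_lit 3, nat_lit 0x47⟩ (t14_3952)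 (t14_12144)) (.node ⟨nat_lit 8, nat_lit 0x80008400c0, nat_lit 0x10111201, nat_lit 2, nat_lit 4, nat_lit 0x4b⟩ (t14_8048) (.nil)))))
def t14_240 : Tr := .node ⟨nat_lit 7, nat_lit 0x4000600064, nat_lit 0x122211, nat_lit 1, nat_lit 4, nat_lit 0x49⟩ (.nil) (.nil)
def t14_8432 : Tr := .node ⟨nat_lit 3, nat_lit 6, nat_lit 0, nat_lit 6, nat_lit 4, nat_lit 0x42⟩ (.nil) (.nil)
def t14_4336 : Tr := .node ⟨nat_lit 6, nat_lit 0x800280030, nat_lit 0x211220, nat_lit 0, nat_lit 4, nat_lit 0x48⟩ (.nil) (.nil)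
def t14_12528 : Tr := .node ⟨nat_lit 7, nat_lit 0x20005000680070, nat_lit 0x101013, nat_lit 3, nat_lit 4, nat_lit 0x46⟩ (.nil) (.nil)
def t14_2288 : Tr := .node ⟨nat_lit 7, nat_lit 0x20004000100044, nat_lit 0x20201, nat_lit 1, nat_lit 4, nat_lit 0x48⟩ (.nil) (.nil)
def t14_10480 : Tr := .node ⟨nat_lit 8, nat_lit 0x800040004000a000d000c8, nat_lit 0x1110220, nat_lit 1, nat_lit 4, nat_lit 0x46⟩ (.nil) (.nil)
def t14_6384 : Tr := .node ⟨nat_lit 4, nat_lit 0x800080008, nat_lit 0x311, nat_lit 9, nat_lit 4, nat_lit 0x47⟩ (.nil) (.nil)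
def t14_14576 : Tr := .node ⟨nat_lit 8, nat_lit 0x2000800040004000c0, nat_lit 0x1113, nat_lit 1, nat_lit 4, nat_lit 0x48⟩ (.nil) (.nil)
def t14_1264 : Tr := .node ⟨nat_lit 6, nat_lit 0x20001000280038, nat_lit 0x101312, nat_lit 2, nat_lit 4, nat_lit 0x46⟩ (.nil) (.nil)
def t14_9456 : Tr := .node ⟨nat_lit 8, nat_lit 0x8000400040009000c8, nat_lit 0x10111202, nat_lit 0, nat_lit 4, nat_lit 0x48⟩ (.nil) (.nil)
def t14_5360 : Tr := .node ⟨nat_lit 7, nat_lit 0x400020002000500068, nat_lit 0x1131110, nat_lit 0, nat_lit 4, nat_lit 0x48⟩ (.nil) (.nil)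
def t14_13552 : Tr := .node ⟨nat_lit 6, nat_lit 0x200010, nat_lit 0x110000, nat_lit 0, nat_lit 3, nat_lit 0x47⟩ (.nil) (.nil)
def t14_3312 : Tr := .node ⟨nat_lit 7, nat_lit 0x40001000600050, nat_lit 0x2201, nat_lit 3, nat_lit 4, nat_lit 0x47⟩ (.nil) (.nil)
def t14_11504 : Tr := .node ⟨nat_lit 7, nat_lit 0x800600050, nat_lit 0x1000101, nat_lit 2, nat_lit 4, nat_lit 0x47⟩ (.nil) (.nil)
def t14_7408 : Tr := .node ⟨nat_lit 6, nat_lit 0x2000100030, nat_lit 0x112031, nat_lit 0, nat_lit 4, nat_lit 0x49⟩ (.nil) (.nil)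
def t14_752 : Tr := .node ⟨nat_lit 6, nat_lit 0x280030, nat_lit 0x10032, nat_lit 0, nat_lit 4, nat_lit 0x46⟩ (.nil) (.nil)
def t14_8944 : Tr := .node ⟨nat_lit 8, nat_lit 0x800020002000c000c0, nat_lit 0x11030, nat_lit 0, nat_lit 4, nat_lit 0x47⟩ (.nil) (.nil)
def t14_4848 : Tr := .node ⟨nat_lit 8, nat_lit 0x4000800080008000c8, nat_lit 0x1211002, nat_lit 0, nat_lit 4, nat_lit 0x49⟩ (.nil) (.nil)
def t14_13040 : Tr := .node ⟨nat_lit 6, nat_lit 0x2000240018, nat_lit 0x10210, nat_lit 1, nat_lit 4, nat_lit 0x46⟩ (.nil) (.nil)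
def t14_2800 : Tr := .node ⟨nat_lit 5, nat_lit 0x1000080008, nat_lit 0x31100, nat_lit 1, nat_lit 3, nat_lit 0x47⟩ (.nil) (.nil)
def t14_10992 : Tr := .node ⟨nat_lit 8, nat_lit 0x4000400080008400c0, nat_lit 0x10120102, nat_lit 1, nat_lit 4, nat_lit 0x49⟩ (.nil) (.nil)
def t14_6896 : Tr := .node ⟨nat_lit 7, nat_lit 0x400040, nat_lit 0x111110, nat_lit 4, nat_lit 4, nat_lit 0x4b⟩ (.nil) (.nil)
def t14_15088 : Tr := .node ⟨nat_lit 9, nat_lit 0x100010000800080008001400190, nat_lit 0x1011011, nat_lit 3, nat_lit 4, nat_lit 0x48⟩ (.nil) (.nil)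
def t14_1776 : Tr := .node ⟨nat_lit 6, nat_lit 0x800300028, nat_lit 0x102112, nat_lit 3, nat_lit 4, nat_lit 0x48⟩ (.nil) (.nil)
def t14_9968 : Tr := .node ⟨nat_lit 7, nat_lit 0x6000600060, nat_lit 0x11320, nat_lit 2, nat_lit 4, nat_lit 0x48⟩ (.nil) (.nil)
def t14_5872 : Tr := .node ⟨nat_lit 6, nat_lit 0, nat_lit 0x211000, nat_lit 0, nat_lit 4, nat_lit 0x4a⟩ (.nil) (.nil)
def t14_14064 : Tr := .node ⟨nat_lit 7, nat_lit 0x4000200044, nat_lit 0x111010, nat_lit 0, nat_lit 4, nat_lit 0x48⟩ (.nil) (.nil)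
def t14_3824 : Tr := .node ⟨nat_lit 8, nat_lit 0x800040004000a000c000d0, nat_lit 0x10011022, nat_lit 1, nat_lit 4, nat_lit 0x47⟩ (.nil) (.nil)
def t14_12016 : Tr := .node ⟨nat_lit 6, nat_lit 0x2000080030, nat_lit 0x11300, nat_lit 0, nat_lit 4, nat_lit 0x47⟩ (.nil) (.nil)
def t14_7920 : Tr := .node ⟨nat_lit 6, nat_lit 0x20002000280024, nat_lit 0x11202, nat_lit 6, nat_lit 4, nat_lit 0x48⟩ (.nil) (.nil)
def t9_240 : Tr := .node ⟨nat_lit 5, nat_lit 0x100010, nat_lit 0x3220, nat_lit 0, nat_lit 3, nat_lit 0x47⟩ (.node ⟨nat_lit 5, nat_lit 0x100008, nat_lit 0x11120, nat_lit 0, nat_lit 3, nat_lit 0x46⟩ (.node ⟨nat_lit 8, nat_lit 0x80004000400020, nat_lit 0x130101, nat_lit 3, nat_lit 4, nat_lit 0x4b⟩ (.node ⟨nat_lit 5, nat_lit 0x100018, nat_lit 0x11203, nat_lit 4, nat_lit 4, nat_lit 0x48⟩ (.node ⟨nat_lit 7, nat_lit 0x400020, nat_lit 0x211102, nat_lit 5,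 nat_lit 4, nat_lit 0x4c⟩ (t14_240) (t14_8432)) (.node ⟨nat_lit 7, nat_lit 0x20003000500068, nat_lit 0x1011203, nat_lit 0, nat_lit 4, nat_lit 0x46⟩ (t14_4336) (t14_12528))) (.node ⟨nat_lit 7, nat_lit 0x400020, nat_lit 0x1221102, nat_lit 0, nat_lit 4, nat_lit 0x4c⟩ (.node ⟨nat_lit 6, nat_lit 0x2000100030, nat_lit 0x11323, nat_lit 0, nat_lit 4, nat_lit 0x48⟩ (t14_2288) (t14_10480)) (.node ⟨nat_lit 5, nat_lit 0x100018, nat_lit 0x11320, nat_lit 6, nat_lit 4, nat_lit 0x49⟩ (t14_6384) (t14_14576)))) (.node ⟨nat_lit 1, nat_lit 0, nat_lit 4, nat_lit 0x12, nat_lit 4, nat_lit 0x47⟩ (.node ⟨nat_lit 7, nat_lit 0x400060, nat_lit 0x1211111, nat_lit 1, nat_lit 4, nat_lit 0x4b⟩ (.node ⟨nat_lit 5, nat_lit 0x40018, nat_lit 0x10110, nat_lit 1, nat_lit 3, nat_lit 0x45⟩ (t14_1264) (t14_9456)) (.node ⟨nat_lit 5, nat_lit 0x1000080018, nat_lit 0x11212, nat_lit 7, nat_lit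 4, nat_lit 0x48⟩ (t14_5360) (t14_13552))) (.node ⟨nat_lit 6, nat_lit 0x2000100030, nat_lit 0x13013, nat_lit 1, nat_lit 4, nat_lit 0x48⟩ (.node ⟨nat_lit 6, nat_lit 0x1000200038, nat_lit 0x111103, nat_lit 5, nat_lit 4, nat_lit 0x48⟩ (t14_3312) (t14_11504)) (.node ⟨nat_lit 7, nat_lit 0x40002000480068, nat_lit 0x1011121, nat_lit 0, nat_lit 4, nat_lit 0x47⟩ (t14_7408) (.nil))))) (.node ⟨nat_lit 5, nat_lit 0x80010, nat_lit 0x10300, nat_lit 2, nat_lit 4, nat_lit 0x47⟩ (.node ⟨nat_lit 5, nat_lit 0x18, nat_lit 0x21112, nat_lit 4, nat_lit 4, nat_lit 0x49⟩ (.node ⟨nat_lit 7, nat_lit 0x4000200010, nat_lit 0x2000, nat_lit 9, nat_lit 4, nat_lit 0x4a⟩ (.node ⟨nat_lit 7, nat_lit 0x40002000500064, nat_lit 0x1202111, nat_lit 0, nat_lit 4, nat_lit 0x48⟩ (t14_752) (t14_8944)) (.node ⟨nat_lit 7, nat_lit 0x20003000500068, nat_lit 0x1002030, nat_lit 0, nat_lit 4, nat_lit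 0x46⟩ (t14_4848) (t14_13040))) (.node ⟨nat_lit 6, nat_lit 0x1000300028, nat_lit 0x1111, nat_lit 1, nat_lit 4, nat_lit 0x45⟩ (.node ⟨nat_lit 6, nat_lit 0x200030, nat_lit 0x21133, nat_lit 0, nat_lit 4, nat_lit 0x49⟩ (t14_2800) (t14_10992)) (.node ⟨nat_lit 7, nat_lit 0x2000600050, nat_lit 0x1010122, nat_lit 0, nat_lit 4, nat_lit 0x48⟩ (t14_6896) (t14_15088)))) (.node ⟨nat_lit 3, nat_lit 4, nat_lit 0x112, nat_lit 5, nat_lit 4, nat_lit 0x45⟩ (.node ⟨nat_lit 8, nat_lit 0x80008800c000c8, nat_lit 0x10112111, nat_lit 0, nat_lit 4, nat_lit 0x49⟩ (.node ⟨nat_lit 7, nat_lit 0x6000600050, nat_lit 0x11203, nat_lit 0, nat_lit 4, nat_lit 0x47⟩ (t14_1776) (t14_9968)) (.node ⟨nat_lit 6, nat_lit 0x800280030, nat_lit 0x120220, nat_lit 0, nat_lit 4, nat_lit 0x47⟩ (t14_5872) (t14_14064))) (.node ⟨nat_lit 6, nat_lit 0x280030, nat_lit 0x12201, nat_lit 0, nat_lit 4, nat_lit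 0x48⟩ (.node ⟨nat_lit 7, nat_lit 0x1000600050, nat_lit 0x1111003, nat_lit 0, nat_lit 4, nat_lit 0x49⟩ (t14_3824) (t14_12016)) (.node ⟨nat_lit 7, nat_lit 0x1000100060, nat_lit 0x1001101, nat_lit 1, nat_lit 4, nat_lit 0x48⟩ (t14_7920) (.nil)))))
def t14_496 : Tr := .node ⟨nat_lit 7, nat_lit 0x400040, nat_lit 0x1111110, nat_lit 1, nat_lit 4, nat_lit 0x4b⟩ (.nil) (.nil)
def t14_8688 : Tr := .node ⟨nat_lit 6, nat_lit 0x1000300028, nat_lit 0, nat_lit 1, nat_lit 4, nat_lit 0x44⟩ (.nil) (.nil)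
def t14_4592 : Tr := .node ⟨nat_lit 6, nat_lit 0x2800280030, nat_lit 0x21311, nat_lit 2, nat_lit 4, nat_lit 0x47⟩ (.nil) (.nil)
def t14_12784 : Tr := .node ⟨nat_lit 4, nat_lit 0xc000c, nat_lit 0x1020, nat_lit 7, nat_lit 4, nat_lit 0x45⟩ (.nil) (.nil)
def t14_2544 : Tr := .node ⟨nat_lit 8, nat_lit 0x800080002000c0, nat_lit 0x112100, nat_lit 3, nat_lit 4, nat_lit 0x4a⟩ (.nil) (.nil)
def t14_10736 : Tr := .node ⟨nat_lit 7, nat_lit 0x400020002000500060, nat_lit 0x12020, nat_lit 0, nat_lit 4, nat_lit 0x46⟩ (.nil) (.nil)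
def t14_6640 : Tr := .node ⟨nat_lit 8, nat_lit 0x80004000400020, nat_lit 0x110301, nat_lit 0, nat_lit 4, nat_lit 0x4a⟩ (.nil) (.nil)
def t14_14832 : Tr := .node ⟨nat_lit 7, nat_lit 0x200020004000400044, nat_lit 0x11210, nat_lit 0, nat_lit 4, nat_lit 0x47⟩ (.nil) (.nil)
def t14_1520 : Tr := .node ⟨nat_lit 8, nat_lit 0x8000400040004000a000d0, nat_lit 0x121011, nat_lit 1, nat_lit 4, nat_lit 0x47⟩ (.nil) (.nil)
def t14_9712 : Tr := .node ⟨nat_lit 0xa, nat_lit 0x20002000080021002200300, nat_lit 0x11111010, nat_lit 0, nat_lit 4, nat_lit 0x4a⟩ (.nil) (.nil)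
def t14_5616 : Tr := .node ⟨nat_lit 8, nat_lit 0x80002000c000c0, nat_lit 0x112120, nat_lit 2, nat_lit 4, nat_lit 0x49⟩ (.nil) (.nil)
def t14_13808 : Tr := .node ⟨nat_lit 8, nat_lit 0x800080004000900090, nat_lit 0x110200, nat_lit 1, nat_lit 4, nat_lit 0x48⟩ (.nil) (.nil)
def t14_3568 : Tr := .node ⟨nat_lit 7, nat_lit 0x40001000600050, nat_lit 0x2110, nat_lit 0, nat_lit 3, nat_lit 0x45⟩ (.nil) (.nil)
def t14_11760 : Tr := .node ⟨nat_lit 5, nat_lit 0x1000080014, nat_lit 0x240, nat_lit 3, nat_lit 4, nat_lit 0x46⟩ (.nil) (.nil)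
def t14_7664 : Tr := .node ⟨nat_lit 5, nat_lit 0x1000140018, nat_lit 0x1002, nat_lit 5, nat_lit 4, nat_lit 0x45⟩ (.nil) (.nil)
def t14_1008 : Tr := .node ⟨nat_lit 7, nat_lit 0x400040002000200050, nat_lit 0x1001102, nat_lit 1, nat_lit 4, nat_lit 0x47⟩ (.nil) (.nil)
def t14_9200 : Tr := .node ⟨nat_lit 6, nat_lit 0x10002000200030, nat_lit 0x3221, nat_lit 0, nat_lit 3, nat_lit 0x45⟩ (.nil) (.nil)
def t14_5104 : Tr := .node ⟨nat_lit 8, nat_lit 0x80004000a000d000d0, nat_lit 0x110131, nat_lit 0, nat_lit 4, nat_lit 0x46⟩ (.nil) (.nil)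
def t14_13296 : Tr := .node ⟨nat_lit 9, nat_lit 0x8001000100011000a000c0, nat_lit 0x200000, nat_lit 3, nat_lit 4, nat_lit 0x48⟩ (.nil) (.nil)
def t14_3056 : Tr := .node ⟨nat_lit 6, nat_lit 0x2000080030, nat_lit 0x10211, nat_lit 0, nat_lit 3, nat_lit 0x45⟩ (.nil) (.nil)
def t14_11248 : Tr := .node ⟨nat_lit 7, nat_lit 0x40001000100060, nat_lit 0x201000, nat_lit 1, nat_lit 4, nat_lit 0x47⟩ (.nil) (.nil)
def t14_7152 : Tr := .node ⟨nat_lit 6, nat_lit 0x80030, nat_lit 0x100101, nat_lit 5, nat_lit 4, nat_lit 0x48⟩ (.nil) (.nil)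
def t14_15344 : Tr := .node ⟨nat_lit 8, nat_lit 0x4000400080008000d0, nat_lit 0x1112101, nat_lit 0, nat_lit 4, nat_lit 0x49⟩ (.nil) (.nil)
def t14_2032 : Tr := .node ⟨nat_lit 6, nat_lit 0x3000300030, nat_lit 0x2310, nat_lit 5, nat_lit 4, nat_lit 0x47⟩ (.nil) (.nil)
def t14_10224 : Tr := .node ⟨nat_lit 9, nat_lit 0x800100004000200108, nat_lit 0x2002, nat_lit 2, nat_lit 4, nat_lit 0x49⟩ (.nil) (.nil)
def t14_6128 : Tr := .node ⟨nat_lit 1, nat_lit 0, nat_lit 2, nat_lit 0xe, nat_lit 4, nat_lit 0x45⟩ (.nil) (.nil)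
def t14_14320 : Tr := .node ⟨nat_lit 7, nat_lit 0x20002000500068, nat_lit 0x111031, nat_lit 0, nat_lit 4, nat_lit 0x47⟩ (.nil) (.nil)
def t14_4080 : Tr := .node ⟨nat_lit 9, nat_lit 0x400100010000200180, nat_lit 0x10102001, nat_lit 1, nat_lit 4, nat_lit 0x4a⟩ (.nil) (.nil)
def t14_12272 : Tr := .node ⟨nat_lit 7, nat_lit 0x20004000600068, nat_lit 0x11001, nat_lit 1, nat_lit 4, nat_lit 0x46⟩ (.nil) (.nil)
def t14_8176 : Tr := .node ⟨nat_lit 7, nat_lit 0x40002000200048, nat_lit 0x22003, nat_lit 1, nat_lit 4, nat_lit 0x48⟩ (.nil) (.nil)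
def t9_496 : Tr := .node ⟨nat_lit 4, nat_lit 8, nat_lit 0x1313, nat_lit 3, nat_lit 3, nat_lit 0x47⟩ (.node ⟨nat_lit 7, nat_lit 0x20004000440044, nat_lit 0x3010022, nat_lit 0, nat_lit 4, nat_lit 0x49⟩ (.node ⟨nat_lit 6, nat_lit 0x20, nat_lit 0x211112, nat_lit 1, nat_lit 4, nat_lit 0x4b⟩ (.node ⟨nat_lit 4, nat_lit 0x8000a, nat_lit 0x2101, nat_lit 9, nat_lit 4, nat_lit 0x47⟩ (.node ⟨nat_lit 7, nat_lit 0x20004000100044, nat_lit 0x20212, nat_lit 0, nat_lit 4, nat_lit 0x48⟩ (t14_496) (t14_8688)) (.node ⟨nat_lit 7, nat_lit 0x2000500064, nat_lit 0x1121121, nat_lit 0, nat_lit 4, nat_lit 0x49⟩ (t14_4592) (t14_12784))) (.node ⟨nat_lit 5, nat_lit 0x1000080018, nat_lit 0x1012, nat_lit 8, nat_lit 4, nat_lit 0x47⟩ (.node ⟨nat_lit 7, nat_lit 0x400040002000200064, nat_lit 0x110132, nat_lit 0, nat_lit 4, nat_lit 0x48⟩ (t14_2544) (t14_10736)) (.node ⟨nat_lit 7, nat_lit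 0x4000400060, nat_lit 0x111202, nat_lit 0, nat_lit 4, nat_lit 0x49⟩ (t14_6640) (t14_14832)))) (.node ⟨nat_lit 6, nat_lit 0x800280030, nat_lit 0x21111, nat_lit 3, nat_lit 4, nat_lit 0x47⟩ (.node ⟨nat_lit 7, nat_lit 0x20004000100068, nat_lit 0x222011, nat_lit 0, nat_lit 4, nat_lit 0x49⟩ (.node ⟨nat_lit 6, nat_lit 0x2000100038, nat_lit 0x101311, nat_lit 0, nat_lit 4, nat_lit 0x47⟩ (t14_1520) (t14_9712)) (.node ⟨nat_lit 8, nat_lit 0x800040004000a000a000d0, nat_lit 0x11122000, nat_lit 0, nat_lit 4, nat_lit 0x48⟩ (t14_5616) (t14_13808))) (.node ⟨nat_lit 6, nat_lit 0x200020, nat_lit 0x22100, nat_lit 4, nat_lit 4, nat_lit 0x4a⟩ (.node ⟨nat_lit 5, nat_lit 0x140018, nat_lit 0x10000, nat_lit 2, nat_lit 3, nat_lit 0x44⟩ (t14_3568) (t14_11760)) (.node ⟨nat_lit 7, nat_lit 0x400040005000500070, nat_lit 0x1111102, nat_lit 2, nat_lit 4, nat_lit 0x48⟩ (t14_7664)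 (.nil))))) (.node ⟨nat_lit 8, nat_lit 0x400080008000880088, nat_lit 0x301021, nat_lit 1, nat_lit 4, nat_lit 0x49⟩ (.node ⟨nat_lit 3, nat_lit 0, nat_lit 0x221, nat_lit 9, nat_lit 3, nat_lit 0x47⟩ (.node ⟨nat_lit 7, nat_lit 0, nat_lit 0x1111111, nat_lit 2, nat_lit 4, nat_lit 0x4d⟩ (.node ⟨nat_lit 5, nat_lit 0x100018, nat_lit 0x11131, nat_lit 7, nat_lit 4, nat_lit 0x49⟩ (t14_1008) (t14_9200)) (.node ⟨nat_lit 7, nat_lit 0x40, nat_lit 0x1221110, nat_lit 2, nat_lit 4, nat_lit 0x4d⟩ (t14_5104) (t14_13296))) (.node ⟨nat_lit 7, nat_lit 0x1000600060, nat_lit 0x1011120, nat_lit 0, nat_lit 4, nat_lit 0x48⟩ (.node ⟨nat_lit 7, nat_lit 0x40001000680068, nat_lit 0x2012121, nat_lit 0, nat_lit 4, nat_lit 0x48⟩ (t14_3056) (t14_11248)) (.node ⟨nat_lit 7, nat_lit 0x200040006000680070, nat_lit 0x1011212, nat_lit 3, nat_lit 4, nat_lit 0x46⟩ (t14_7152) (t14_15344))))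 (.node ⟨nat_lit 5, nat_lit 0x180018, nat_lit 0x20111, nat_lit 1, nat_lit 3, nat_lit 0x45⟩ (.node ⟨nat_lit 6, nat_lit 0x200030, nat_lit 0x211111, nat_lit 3, nat_lit 4, nat_lit 0x4a⟩ (.node ⟨nat_lit 6, nat_lit 0x1000100020, nat_lit 0x112321, nat_lit 1, nat_lit 4, nat_lit 0x4a⟩ (t14_2032) (t14_10224)) (.node ⟨nat_lit 7, nat_lit 0x3000500060, nat_lit 0x1012021, nat_lit 0, nat_lit 4, nat_lit 0x48⟩ (t14_6128) (t14_14320))) (.node ⟨nat_lit 6, nat_lit 0x40038, nat_lit 0x221113, nat_lit 0, nat_lit 4, nat_lit 0x49⟩ (.node ⟨nat_lit 6, nat_lit 0x2000100030, nat_lit 0x10011, nat_lit 0, nat_lit 4, nat_lit 0x46⟩ (t14_4080) (t14_12272)) (.node ⟨nat_lit 7, nat_lit 0x400020002000500068, nat_lit 0x111210, nat_lit 2, nat_lit 4, nat_lit 0x47⟩ (t14_8176) (.nil)))))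
def t4_0 : Tr := .node ⟨nat_lit 3, nat_lit 0, nat_lit 0x221, nat_lit 3, nat_lit 3, nat_lit 0x46⟩ (.node ⟨nat_lit 4, nat_lit 8, nat_lit 0x2111, nat_lit 1, nat_lit 3, nat_lit 0x46⟩ (.node ⟨nat_lit 2, nat_lit 0, nat_lit 0x22, nat_lit 6, nat_lit 3, nat_lit 0x45⟩ (.node ⟨nat_lit 3, nat_lit 0, nat_lit 0x331, nat_lit 0, nat_lit 3, nat_lit 0x47⟩ (.node ⟨nat_lit 4, nat_lit 0, nat_lit 0x4210, nat_lit 0, nat_lit 4, nat_lit 0x49⟩ (t9_0) (t9_256)) (.node ⟨nat_lit 4, nat_lit 8, nat_lit 0x3212, nat_lit 3, nat_lit 3, nat_lit 0x48⟩ (t9_128) (t9_384))) (.node ⟨nat_lit 3, nat_lit 0, nat_lit 0x411, nat_lit 0xd, nat_lit 4, nat_lit 0x4a⟩ (.node ⟨nat_lit 4, nat_lit 8, nat_lit 0x2111, nat_lit 6, nat_lit 3, nat_lit 0x47⟩ (t9_64) (t9_320)) (.node ⟨nat_lit 4, nat_lit 0xc, nat_lit 0x3221, nat_lit 0, nat_lit 3, nat_lit 0x47⟩ (t9_192) (t9_448)))) (.node ⟨nat_lit 5, nat_lit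 0x800080010, nat_lit 0x20101, nat_lit 0, nat_lit 3, nat_lit 0x45⟩ (.node ⟨nat_lit 2, nat_lit 0, nat_lit 0x41, nat_lit 2, nat_lit 3, nat_lit 0x45⟩ (.node ⟨nat_lit 4, nat_lit 8, nat_lit 0x3113, nat_lit 7, nat_lit 4, nat_lit 0x4a⟩ (t9_32) (t9_288)) (.node ⟨nat_lit 5, nat_lit 0x80010, nat_lit 0x13122, nat_lit 0, nat_lit 4, nat_lit 0x49⟩ (t9_160) (t9_416))) (.node ⟨nat_lit 4, nat_lit 0, nat_lit 0x4111, nat_lit 5, nat_lit 4, nat_lit 0x4a⟩ (.node ⟨nat_lit 7, nat_lit 0x4000200010, nat_lit 0x21002, nat_lit 0, nat_lit 3, nat_lit 0x48⟩ (t9_96) (t9_352)) (.node ⟨nat_lit 5, nat_lit 0x18, nat_lit 0x31311, nat_lit 3, nat_lit 4, nat_lit 0x4a⟩ (t9_224) (t9_480))))) (.node ⟨nat_lit 3, nat_lit 4, nat_lit 0x22, nat_lit 4, nat_lit 3, nat_lit 0x44⟩ (.node ⟨nat_lit 1, nat_lit 0, nat_lit 1, nat_lit 0xc, nat_lit 3, nat_lit 0x43⟩ (.node ⟨nat_lit 4, nat_lit 8, nat_lit 0x2411,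 nat_lit 7, nat_lit 4, nat_lit 0x4a⟩ (.node ⟨nat_lit 7, nat_lit 0x40, nat_lit 0x411110, nat_lit 1, nat_lit 4, nat_lit 0x4d⟩ (t9_16) (t9_272)) (.node ⟨nat_lit 4, nat_lit 8, nat_lit 0x3113, nat_lit 1, nat_lit 3, nat_lit 0x48⟩ (t9_144) (t9_400))) (.node ⟨nat_lit 3, nat_lit 0, nat_lit 0x411, nat_lit 5, nat_lit 4, nat_lit 0x48⟩ (.node ⟨nat_lit 4, nat_lit 0x8000c, nat_lit 0x2112, nat_lit 3, nat_lit 3, nat_lit 0x45⟩ (t9_80) (t9_336)) (.node ⟨nat_lit 6, nat_lit 0x200010, nat_lit 0x32101, nat_lit 0, nat_lit 3, nat_lit 0x49⟩ (t9_208) (t9_464)))) (.node ⟨nat_lit 2, nat_lit 0, nat_lit 0x42, nat_lit 4, nat_lit 3, nat_lit 0x46⟩ (.node ⟨nat_lit 4, nat_lit 0, nat_lit 0x4211, nat_lit 7, nat_lit 4, nat_lit 0x4b⟩ (.node ⟨nat_lit 4, nat_lit 8, nat_lit 0x2211, nat_lit 3, nat_lit 3, nat_lit 0x47⟩ (t9_48) (t9_304)) (.node ⟨nat_lit 2, nat_lit 0, nat_lit 0x32, nat_lit 0xb,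 nat_lit 4, nat_lit 0x47⟩ (t9_176) (t9_432))) (.node ⟨nat_lit 4, nat_lit 0, nat_lit 0x4211, nat_lit 2, nat_lit 3, nat_lit 0x49⟩ (.node ⟨nat_lit 5, nat_lit 0x18, nat_lit 0x32212, nat_lit 0, nat_lit 4, nat_lit 0x4a⟩ (t9_112) (t9_368)) (.node ⟨nat_lit 4, nat_lit 0xc, nat_lit 0x3121, nat_lit 7, nat_lit 4, nat_lit 0x49⟩ (t9_240) (t9_496)))))

end Pool.Agent.Sel.T31
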