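import Pool.Agent.H8.Sel.Prof
import Pool.Agent.H8.Sel.T31.P0

set_option linter.all false
set_option maxRecDepth 100000

namespace Pool.Agent.Sel.T31

open Pool.Agent.Sel

def t14_2 : Tr := .node ⟨nat_lit 9, nat_lit 0x100010001000080008001400140, nat_lit 0x10102110, nat_lit 2, nat_lit 4, nat_lit 0x49⟩ (.nil) (.nil)
def t14_8194 : Tr := .node ⟨nat_lit 8, nat_lit 0x8000400090009000c0, nat_lit 0x211310, nat_lit 0, nat_lit 4, nat_lit 0x48⟩ (.nil) (.nil)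
def t14_4098 : Tr := .node ⟨nat_lit 8, nat_lit 0x800020004000900090, nat_lit 0x11110121, nat_lit 0, nat_lit 4, nat_lit 0x49⟩ (.nil) (.nil)
def t14_12290 : Tr := .node ⟨nat_lit 7, nat_lit 0x20005000600068, nat_lit 0x12103, nat_lit 1, nat_lit 4, nat_lit 0x46⟩ (.nil) (.nil)
def t14_2050 : Tr := .node ⟨nat_lit 7, nat_lit 0x10003000500060, nat_lit 0x1003012, nat_lit 1, nat_lit 4, nat_lit 0x47⟩ (.nil) (.nil)
def t14_10242 : Tr := .node ⟨nat_lit 8, nat_lit 0x800080009000d000e000e0, nat_lit 0x10000220, nat_lit 4, nat_lit 4, nat_lit 0x46⟩ (.nil) (.nil)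
def t14_6146 : Tr := .node ⟨nat_lit 3, nat_lit 0x40004, nat_lit 0x11, nat_lit 0xa, nat_lit 4, nat_lit 0x45⟩ (.nil) (.nil)
def t14_14338 : Tr := .node ⟨nat_lit 7, nat_lit 0x20006000500068, nat_lit 0x100110, nat_lit 0, nat_lit 4, nat_lit 0x45⟩ (.nil) (.nil)
def t14_1026 : Tr := .node ⟨nat_lit 5, nat_lit 0x800100012, nat_lit 0x1020, nat_lit 5, nat_lit 4, nat_lit 0x46⟩ (.nil) (.nil)
def t14_9218 : Tr := .node ⟨nat_lit 8, nat_lit 0x800040009000a000d0, nat_lit 0x12010, nat_lit 0, nat_lit 4, nat_lit 0x46⟩ (.nil) (.nil)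
def t14_5122 : Tr := .node ⟨nat_lit 7, nat_lit 0x4000600060, nat_lit 0x111310, nat_lit 0, nat_lit 3, nat_lit 0x47⟩ (.nil) (.nil)
def t14_13314 : Tr := .node ⟨nat_lit 7, nat_lit 0x4000500064, nat_lit 0x103, nat_lit 1, nat_lit 4, nat_lit 0x46⟩ (.nil) (.nil)
def t14_3074 : Tr := .node ⟨nat_lit 8, nat_lit 0x40004000a000d000d0, nat_lit 0x1110121, nat_lit 0, nat_lit 4, nat_lit 0x47⟩ (.nil) (.nil)
def t14_11266 : Tr := .node ⟨nat_lit 7, nat_lit 0x40001000600060, nat_lit 0x111020, nat_lit 3, nat_lit 4, nat_lit 0x48⟩ (.nil) (.nil)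
def t14_7170 : Tr := .node ⟨nat_lit 7, nat_lit 0x20004000400068, nat_lit 0x1211111, nat_lit 0, nat_lit 4, nat_lit 0x49⟩ (.nil) (.nil)
def t14_15362 : Tr := .node ⟨nat_lit 9, nat_lit 0x10001000100008000800120, nat_lit 0x1110101, nat_lit 4, nat_lit 4, nat_lit 0x4a⟩ (.nil) (.nil)
def t14_514 : Tr := .node ⟨nat_lit 7, nat_lit 0x10002000200040, nat_lit 0x2121101, nat_lit 0, nat_lit 4, nat_lit 0x4a⟩ (.nil) (.nil)
def t14_8706 : Tr := .node ⟨nat_lit 7, nat_lit 0x40001000480060, nat_lit 0x11010, nat_lit 3, nat_lit 4, nat_lit 0x47⟩ (.nil) (.nil)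
def t14_4610 : Tr := .node ⟨nat_lit 8, nat_lit 0x400040008000200084, nat_lit 0x10100200, nat_lit 2, nat_lit 4, nat_lit 0x49⟩ (.nil) (.nil)
def t14_12802 : Tr := .node ⟨nat_lit 8, nat_lit 0x1000a000c0, nat_lit 0x1101002, nat_lit 0, nat_lit 4, nat_lit 0x49⟩ (.nil) (.nil)
def t14_2562 : Tr := .node ⟨nat_lit 7, nat_lit 0x40001000100060, nat_lit 0x1102210, nat_lit 0, nat_lit 4, nat_lit 0x48⟩ (.nil) (.nil)
def t14_10754 : Tr := .node ⟨nat_lit 7, nat_lit 0x10002000500060, nat_lit 0x100120, nat_lit 3, nat_lit 4, nat_lit 0x47⟩ (.nil) (.nil)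
def t14_6658 : Tr := .node ⟨nat_lit 8, nat_lit 0x80008000800040004000a0, nat_lit 0x110201, nat_lit 2, nat_lit 4, nat_lit 0x48⟩ (.nil) (.nil)
def t14_14850 : Tr := .node ⟨nat_lit 8, nat_lit 0x800080008800c0, nat_lit 0x1111111, nat_lit 3, nat_lit 4, nat_lit 0x4a⟩ (.nil) (.nil)
def t14_1538 : Tr := .node ⟨nat_lit 8, nat_lit 0x80008000400040004000c8, nat_lit 0x211200, nat_lit 1, nat_lit 4, nat_lit 0x48⟩ (.nil) (.nil)
def t14_9730 : Tr := .node ⟨nat_lit 8, nat_lit 0x8000800040008800d0, nat_lit 0x110202, nat_lit 0, nat_lit 4, nat_lit 0x47⟩ (.nil) (.nil)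
def t14_5634 : Tr := .node ⟨nat_lit 6, nat_lit 0x2000300038, nat_lit 0x102, nat_lit 3, nat_lit 4, nat_lit 0x45⟩ (.nil) (.nil)
def t14_13826 : Tr := .node ⟨nat_lit 6, nat_lit 0x800080030, nat_lit 0x300, nat_lit 3, nat_lit 4, nat_lit 0x47⟩ (.nil) (.nil)
def t14_3586 : Tr := .node ⟨nat_lit 7, nat_lit 0x40002000500060, nat_lit 0x211, nat_lit 0, nat_lit 4, nat_lit 0x46⟩ (.nil) (.nil)
def t14_11778 : Tr := .node ⟨nat_lit 5, nat_lit 0x800100018, nat_lit 0x13, nat_lit 7, nat_lit 4, nat_lit 0x46⟩ (.nil) (.nil)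
def t14_7682 : Tr := .node ⟨nat_lit 7, nat_lit 0x40002000100010, nat_lit 0, nat_lit 1, nat_lit 4, nat_lit 0x46⟩ (.nil) (.nil)
def t9_2 : Tr := .node ⟨nat_lit 4, nat_lit 0xc, nat_lit 0x3221, nat_lit 5, nat_lit 4, nat_lit 0x49⟩ (.node ⟨nat_lit 5, nat_lit 0x80010, nat_lit 0x31110, nat_lit 1, nat_lit 4, nat_lit 0x48⟩ (.node ⟨nat_lit 4, nat_lit 0xc000c, nat_lit 0x20, nat_lit 2, nat_lit 3, nat_lit 0x42⟩ (.node ⟨nat_lit 5, nat_lit 0x80010, nat_lit 0x1222, nat_lit 0, nat_lit 4, nat_lit 0x47⟩ (.node ⟨nat_lit 6, nat_lit 0x80030, nat_lit 0x221113, nat_lit 0, nat_lit 4, nat_lit 0x4a⟩ (t14_2) (t14_8194)) (.node ⟨nat_lit 4, nat_lit 0x8000c, nat_lit 0x1000, nat_lit 5, nat_lit 3, nat_lit 0x44⟩ (t14_4098) (t14_12290))) (.node ⟨nat_lit 8, nat_lit 0x2000c0, nat_lit 0x20111101, nat_lit 1, nat_lit 4, nat_lit 0x4c⟩ (.node ⟨nat_lit 5, nat_lit 0x1000080018, nat_lit 0x21031,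 nat_lit 1, nat_lit 3, nat_lit 0x46⟩ (t14_2050) (t14_10242)) (.node ⟨nat_lit 7, nat_lit 0x4000500060, nat_lit 0x212002, nat_lit 0, nat_lit 4, nat_lit 0x49⟩ (t14_6146) (t14_14338)))) (.node ⟨nat_lit 6, nat_lit 0x200030, nat_lit 0x112211, nat_lit 0, nat_lit 4, nat_lit 0x49⟩ (.node ⟨nat_lit 5, nat_lit 0x100010, nat_lit 0x21111, nat_lit 9, nat_lit 4, nat_lit 0x4a⟩ (.node ⟨nat_lit 6, nat_lit 0x800300030, nat_lit 0x111041, nat_lit 1, nat_lit 4, nat_lit 0x48⟩ (t14_1026) (t14_9218)) (.node ⟨nat_lit 7, nat_lit 0x40, nat_lit 0x222210, nat_lit 1, nat_lit 4, nat_lit 0x4d⟩ (t14_5122) (t14_13314))) (.node ⟨nat_lit 5, nat_lit 0x1000080008, nat_lit 0x1020, nat_lit 2, nat_lit 4, nat_lit 0x46⟩ (.node ⟨nat_lit 7, nat_lit 0x40002000480048, nat_lit 0x2112111, nat_lit 0, nat_lit 4, nat_lit 0x4a⟩ (t14_3074) (t14_11266)) (.node ⟨nat_lit 7, nat_lit 0x40001000600068, nat_lit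 0x1002022, nat_lit 1, nat_lit 4, nat_lit 0x47⟩ (t14_7170) (t14_15362))))) (.node ⟨nat_lit 3, nat_lit 4, nat_lit 0x23, nat_lit 2, nat_lit 3, nat_lit 0x44⟩ (.node ⟨nat_lit 4, nat_lit 0, nat_lit 0x2222, nat_lit 1, nat_lit 4, nat_lit 0x49⟩ (.node ⟨nat_lit 5, nat_lit 0x10, nat_lit 0x2111, nat_lit 5, nat_lit 4, nat_lit 0x49⟩ (.node ⟨nat_lit 6, nat_lit 0x2000200010, nat_lit 0x121111, nat_lit 2, nat_lit 3, nat_lit 0x48⟩ (t14_514) (t14_8706)) (.node ⟨nat_lit 4, nat_lit 0xc000c, nat_lit 0x2122, nat_lit 7, nat_lit 4, nat_lit 0x47⟩ (t14_4610) (t14_12802))) (.node ⟨nat_lit 7, nat_lit 0x1000600060, nat_lit 0x1001021, nat_lit 0, nat_lit 4, nat_lit 0x47⟩ (.node ⟨nat_lit 6, nat_lit 0x300038, nat_lit 0x112113, nat_lit 0, nat_lit 4, nat_lit 0x48⟩ (t14_2562) (t14_10754)) (.node ⟨nat_lit 8, nat_lit 0x8000800080, nat_lit 0x2111210, nat_lit 0, nat_lit 4, nat_lit 0x4c⟩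 (t14_6658) (t14_14850)))) (.node ⟨nat_lit 7, nat_lit 0x1000400062, nat_lit 0x1201021, nat_lit 0, nat_lit 4, nat_lit 0x49⟩ (.node ⟨nat_lit 6, nat_lit 0x100020, nat_lit 0x122111, nat_lit 4, nat_lit 4, nat_lit 0x4b⟩ (.node ⟨nat_lit 6, nat_lit 0x800200032, nat_lit 0x110031, nat_lit 3, nat_lit 4, nat_lit 0x48⟩ (t14_1538) (t14_9730)) (.node ⟨nat_lit 8, nat_lit 0x8000400040009000c8, nat_lit 0x11111200, nat_lit 0, nat_lit 4, nat_lit 0x49⟩ (t14_5634) (t14_13826))) (.node ⟨nat_lit 4, nat_lit 0x8000c, nat_lit 0x212, nat_lit 0xa, nat_lit 4, nat_lit 0x47⟩ (.node ⟨nat_lit 4, nat_lit 0xc000c, nat_lit 0x1030, nat_lit 6, nat_lit 3, nat_lit 0x44⟩ (t14_3586) (t14_11778)) (.node ⟨nat_lit 8, nat_lit 0x8000400040004800a000d0, nat_lit 0x11112011, nat_lit 0, nat_lit 4, nat_lit 0x48⟩ (t14_7682) (.nil)))))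
def t14_258 : Tr := .node ⟨nat_lit 7, nat_lit 0x20004000100060, nat_lit 0x122221, nat_lit 0, nat_lit 4, nat_lit 0x49⟩ (.nil) (.nil)
def t14_8450 : Tr := .node ⟨nat_lit 6, nat_lit 0x20001000280030, nat_lit 0x2021, nat_lit 2, nat_lit 4, nat_lit 0x46⟩ (.nil) (.nil)
def t14_4354 : Tr := .node ⟨nat_lit 8, nat_lit 0x800020009000d000e0, nat_lit 0x11100012, nat_lit 1, nat_lit 4, nat_lit 0x47⟩ (.nil) (.nil)
def t14_12546 : Tr := .node ⟨nat_lit 7, nat_lit 0x10001800600060, nat_lit 0x11030, nat_lit 0, nat_lit 4, nat_lit 0x46⟩ (.nil) (.nil)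
def t14_2306 : Tr := .node ⟨nat_lit 7, nat_lit 0x200040004800300060, nat_lit 0x113101, nat_lit 0, nat_lit 4, nat_lit 0x47⟩ (.nil) (.nil)
def t14_10498 : Tr := .node ⟨nat_lit 6, nat_lit 0x2800300030, nat_lit 0x10222, nat_lit 2, nat_lit 4, nat_lit 0x46⟩ (.nil) (.nil)
def t14_6402 : Tr := .node ⟨nat_lit 6, nat_lit 0x20001000280038, nat_lit 0x110202, nat_lit 2, nat_lit 4, nat_lit 0x46⟩ (.nil) (.nil)
def t14_14594 : Tr := .node ⟨nat_lit 9, nat_lit 0x10001000040008001100120, nat_lit 0x10110111, nat_lit 3, nat_lit 4, nat_lit 0x49⟩ (.nil) (.nil)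
def t14_1282 : Tr := .node ⟨nat_lit 6, nat_lit 0x10001000200020, nat_lit 0x1032, nat_lit 0, nat_lit 4, nat_lit 0x47⟩ (.nil) (.nil)
def t14_9474 : Tr := .node ⟨nat_lit 8, nat_lit 0x8000400040009000e0, nat_lit 0x10112102, nat_lit 0, nat_lit 4, nat_lit 0x48⟩ (.nil) (.nil)
def t14_5378 : Tr := .node ⟨nat_lit 6, nat_lit 0x2000080030, nat_lit 0x111210, nat_lit 6, nat_lit 4, nat_lit 0x49⟩ (.nil) (.nil)
def t14_13570 : Tr := .node ⟨nat_lit 6, nat_lit 0x20001000300038, nat_lit 0x10, nat_lit 3, nat_lit 4, nat_lit 0x44⟩ (.nil) (.nil)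
def t14_3330 : Tr := .node ⟨nat_lit 7, nat_lit 0x40001000500060, nat_lit 0x100212, nat_lit 1, nat_lit 4, nat_lit 0x47⟩ (.nil) (.nil)
def t14_11522 : Tr := .node ⟨nat_lit 6, nat_lit 0x2000300030, nat_lit 0x2100, nat_lit 1, nat_lit 3, nat_lit 0x45⟩ (.nil) (.nil)
def t14_7426 : Tr := .node ⟨nat_lit 7, nat_lit 0x40004000200020, nat_lit 0x102211, nat_lit 0, nat_lit 4, nat_lit 0x49⟩ (.nil) (.nil)
def t14_770 : Tr := .node ⟨nat_lit 6, nat_lit 0x240038, nat_lit 0x103, nat_lit 1, nat_lit 4, nat_lit 0x45⟩ (.nil) (.nil)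
def t14_8962 : Tr := .node ⟨nat_lit 3, nat_lit 4, nat_lit 0x220, nat_lit 0xe, nat_lit 3, nat_lit 0x47⟩ (.nil) (.nil)
def t14_4866 : Tr := .node ⟨nat_lit 7, nat_lit 0x400020002000500068, nat_lit 0x112200, nat_lit 0, nat_lit 4, nat_lit 0x47⟩ (.nil) (.nil)
def t14_13058 : Tr := .node ⟨nat_lit 3, nat_lit 6, nat_lit 0x413, nat_lit 2, nat_lit 3, nat_lit 0x46⟩ (.nil) (.nil)
def t14_2818 : Tr := .node ⟨nat_lit 7, nat_lit 0x800500060, nat_lit 0x201003, nat_lit 0, nat_lit 4, nat_lit 0x48⟩ (.nil) (.nil)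
def t14_11010 : Tr := .node ⟨nat_lit 5, nat_lit 0x1800180018, nat_lit 0x210, nat_lit 0xd, nat_lit 4, nat_lit 0x46⟩ (.nil) (.nil)
def t14_6914 : Tr := .node ⟨nat_lit 5, nat_lit 0, nat_lit 0x11111, nat_lit 7, nat_lit 3, nat_lit 0x49⟩ (.nil) (.nil)
def t14_15106 : Tr := .node ⟨nat_lit 6, nat_lit 0x20001000380034, nat_lit 0x101101, nat_lit 3, nat_lit 4, nat_lit 0x45⟩ (.nil) (.nil)
def t14_1794 : Tr := .node ⟨nat_lit 7, nat_lit 0x40001000100060, nat_lit 0x202102, nat_lit 0, nat_lit 4, nat_lit 0x48⟩ (.nil) (.nil)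
def t14_9986 : Tr := .node ⟨nat_lit 5, nat_lit 0x1000080008, nat_lit 0x30120, nat_lit 6, nat_lit 3, nat_lit 0x47⟩ (.nil) (.nil)
def t14_5890 : Tr := .node ⟨nat_lit 7, nat_lit 0x400040, nat_lit 0x111121, nat_lit 3, nat_lit 4, nat_lit 0x4b⟩ (.nil) (.nil)
def t14_14082 : Tr := .node ⟨nat_lit 8, nat_lit 0x2000400040008000c0, nat_lit 0x13, nat_lit 3, nat_lit 4, nat_lit 0x48⟩ (.nil) (.nil)
def t14_3842 : Tr := .node ⟨nat_lit 7, nat_lit 0x10002000400060, nat_lit 0x1100221, nat_lit 2, nat_lit 4, nat_lit 0x49⟩ (.nil) (.nil)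
def t14_12034 : Tr := .node ⟨nat_lit 7, nat_lit 0x1000600050, nat_lit 0x1001211, nat_lit 2, nat_lit 4, nat_lit 0x48⟩ (.nil) (.nil)
def t14_7938 : Tr := .node ⟨nat_lit 6, nat_lit 0x20001000100028, nat_lit 0x2212, nat_lit 0, nat_lit 4, nat_lit 0x46⟩ (.nil) (.nil)
def t9_258 : Tr := .node ⟨nat_lit 6, nat_lit 0x200030, nat_lit 0x13200, nat_lit 1, nat_lit 4, nat_lit 0x49⟩ (.node ⟨nat_lit 6, nat_lit 0x10002000240024, nat_lit 0x300121, nat_lit 5, nat_lit 4, nat_lit 0x49⟩ (.node ⟨nat_lit 8, nat_lit 0x80008000400020, nat_lit 0x10032100, nat_lit 0, nat_lit 4, nat_lit 0x4b⟩ (.node ⟨nat_lit 6, nat_lit 0x2000200010, nat_lit 0x112103, nat_lit 0, nat_lit 4, nat_lit 0x49⟩ (.node ⟨nat_lit 4, nat_lit 0x8000a, nat_lit 0x2122, nat_lit 7, nat_lit 4, nat_lit 0x48⟩ (t14_258) (t14_8450)) (.node ⟨nat_lit 7, nat_lit 0x10004000600070, nat_lit 0x200123, nat_lit 0, nat_lit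 4, nat_lit 0x47⟩ (t14_4354) (t14_12546))) (.node ⟨nat_lit 6, nat_lit 0x800300030, nat_lit 0x202221, nat_lit 0, nat_lit 4, nat_lit 0x48⟩ (.node ⟨nat_lit 6, nat_lit 0x1000280034, nat_lit 0x11220, nat_lit 1, nat_lit 4, nat_lit 0x46⟩ (t14_2306) (t14_10498)) (.node ⟨nat_lit 6, nat_lit 0x1800280030, nat_lit 0x121022, nat_lit 0, nat_lit 4, nat_lit 0x47⟩ (t14_6402) (t14_14594)))) (.node ⟨nat_lit 5, nat_lit 0x40018, nat_lit 0x21021, nat_lit 0, nat_lit 4, nat_lit 0x46⟩ (.node ⟨nat_lit 5, nat_lit 0x80010, nat_lit 0x22211, nat_lit 5, nat_lit 4, nat_lit 0x4a⟩ (.node ⟨nat_lit 6, nat_lit 0x2000080030, nat_lit 0x111031, nat_lit 1, nat_lit 4, nat_lit 0x48⟩ (t14_1282) (t14_9474)) (.node ⟨nat_lit 7, nat_lit 0x10004000200060, nat_lit 0x1100222, nat_lit 2, nat_lit 4, nat_lit 0x49⟩ (t14_5378) (t14_13570))) (.node ⟨nat_lit 6, nat_lit 0x2000080030, nat_lit 0x211200, nat_lit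 0, nat_lit 3, nat_lit 0x47⟩ (.node ⟨nat_lit 7, nat_lit 0x1000600070, nat_lit 0x1102013, nat_lit 0, nat_lit 4, nat_lit 0x48⟩ (t14_3330) (t14_11522)) (.node ⟨nat_lit 7, nat_lit 0x40002000480068, nat_lit 0x1010100, nat_lit 0, nat_lit 4, nat_lit 0x46⟩ (t14_7426) (.nil))))) (.node ⟨nat_lit 6, nat_lit 0x2000200010, nat_lit 0x113102, nat_lit 0, nat_lit 4, nat_lit 0x49⟩ (.node ⟨nat_lit 7, nat_lit 0x4000200010, nat_lit 0x21002, nat_lit 3, nat_lit 4, nat_lit 0x4a⟩ (.node ⟨nat_lit 2, nat_lit 2, nat_lit 0x11, nat_lit 0x11, nat_lit 4, nat_lit 0x46⟩ (.node ⟨nat_lit 8, nat_lit 0x80008000200040, nat_lit 0x1130012, nat_lit 0, nat_lit 4, nat_lit 0x4b⟩ (t14_770) (t14_8962)) (.node ⟨nat_lit 8, nat_lit 0x400080008000d000d000e0, nat_lit 0x10200102, nat_lit 1, nat_lit 4, nat_lit 0x46⟩ (t14_4866) (t14_13058))) (.node ⟨nat_lit 6, nat_lit 0x10002000240030, nat_lit 0x100212,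 nat_lit 3, nat_lit 4, nat_lit 0x47⟩ (.node ⟨nat_lit 5, nat_lit 0x100018, nat_lit 0x2114, nat_lit 3, nat_lit 4, nat_lit 0x48⟩ (t14_2818) (t14_11010)) (.node ⟨nat_lit 7, nat_lit 0x800600050, nat_lit 0x1010222, nat_lit 1, nat_lit 4, nat_lit 0x48⟩ (t14_6914) (t14_15106)))) (.node ⟨nat_lit 5, nat_lit 0x18, nat_lit 0x11111, nat_lit 0, nat_lit 4, nat_lit 0x46⟩ (.node ⟨nat_lit 7, nat_lit 0x20004000100060, nat_lit 0x1011211, nat_lit 0, nat_lit 4, nat_lit 0x48⟩ (.node ⟨nat_lit 5, nat_lit 0x100018, nat_lit 0x120, nat_lit 4, nat_lit 4, nat_lit 0x46⟩ (t14_1794) (t14_9986)) (.node ⟨nat_lit 5, nat_lit 0x1000100008, nat_lit 0x21002, nat_lit 1, nat_lit 3, nat_lit 0x46⟩ (t14_5890) (t14_14082))) (.node ⟨nat_lit 7, nat_lit 0x400020002000500068, nat_lit 0x2010212, nat_lit 1, nat_lit 4, nat_lit 0x47⟩ (.node ⟨nat_lit 7, nat_lit 0x800600050, nat_lit 0x1101030, nat_lit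 0, nat_lit 4, nat_lit 0x48⟩ (t14_3842) (t14_12034)) (.node ⟨nat_lit 7, nat_lit 0x1000100060, nat_lit 0x1101002, nat_lit 3, nat_lit 4, nat_lit 0x49⟩ (t14_7938) (.nil)))))
def t14_130 : Tr := .node ⟨nat_lit 6, nat_lit 0x1000280034, nat_lit 0x131111, nat_lit 1, nat_lit 4, nat_lit 0x48⟩ (.nil) (.nil)
def t14_8322 : Tr := .node ⟨nat_lit 7, nat_lit 0x2000500060, nat_lit 0x1002, nat_lit 2, nat_lit 4, nat_lit 0x47⟩ (.nil) (.nil)
def t14_4226 : Tr := .node ⟨nat_lit 7, nat_lit 0x6000600060, nat_lit 0x22110, nat_lit 3, nat_lit 4, nat_lit 0x48⟩ (.nil) (.nil)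
def t14_12418 : Tr := .node ⟨nat_lit 8, nat_lit 0x20008000a800c800e0, nat_lit 0x11010003, nat_lit 1, nat_lit 4, nat_lit 0x46⟩ (.nil) (.nil)
def t14_2178 : Tr := .node ⟨nat_lit 7, nat_lit 0x40004000200048, nat_lit 0x112102, nat_lit 3, nat_lit 4, nat_lit 0x49⟩ (.nil) (.nil)
def t14_10370 : Tr := .node ⟨nat_lit 6, nat_lit 0x2000240030, nat_lit 0x11302, nat_lit 2, nat_lit 4, nat_lit 0x48⟩ (.nil) (.nil)
def t14_6274 : Tr := .node ⟨nat_lit 4, nat_lit 0x800080008, nat_lit 0x210, nat_lit 0xb, nat_lit 4, nat_lit 0x47⟩ (.nil) (.nil)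
def t14_14466 : Tr := .node ⟨nat_lit 7, nat_lit 0x1000500060, nat_lit 0x1020, nat_lit 5, nat_lit 4, nat_lit 0x48⟩ (.nil) (.nil)
def t14_1154 : Tr := .node ⟨nat_lit 5, nat_lit 0x1000080014, nat_lit 0x1012, nat_lit 4, nat_lit 4, nat_lit 0x45⟩ (.nil) (.nil)
def t14_9346 : Tr := .node ⟨nat_lit 6, nat_lit 0x20002000280030, nat_lit 0x11211, nat_lit 8, nat_lit 4, nat_lit 0x48⟩ (.nil) (.nil)
def t14_5250 : Tr := .node ⟨nat_lit 7, nat_lit 0x6000600060, nat_lit 0x11310, nat_lit 3, nat_lit 4, nat_lit 0x48⟩ (.nil) (.nil)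
def t14_13442 : Tr := .node ⟨nat_lit 7, nat_lit 0x4000500064, nat_lit 0x101300, nat_lit 1, nat_lit 4, nat_lit 0x48⟩ (.nil) (.nil)
def t14_3202 : Tr := .node ⟨nat_lit 8, nat_lit 0x800040004000c000c8, nat_lit 0x201121, nat_lit 0, nat_lit 4, nat_lit 0x48⟩ (.nil) (.nil)
def t14_11394 : Tr := .node ⟨nat_lit 8, nat_lit 0x40008000c800c800e0, nat_lit 0x110202, nat_lit 0, nat_lit 4, nat_lit 0x45⟩ (.nil) (.nil)
def t14_7298 : Tr := .node ⟨nat_lit 7, nat_lit 0x10001000100060, nat_lit 0x2002101, nat_lit 2, nat_lit 4, nat_lit 0x49⟩ (.nil) (.nil)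
def t14_15490 : Tr := .node ⟨nat_lit 7, nat_lit 0x400020002800500068, nat_lit 0x1100001, nat_lit 0, nat_lit 4, nat_lit 0x45⟩ (.nil) (.nil)
def t14_642 : Tr := .node ⟨nat_lit 6, nat_lit 0x800300028, nat_lit 0x101312, nat_lit 3, nat_lit 4, nat_lit 0x48⟩ (.nil) (.nil)
def t14_8834 : Tr := .node ⟨nat_lit 7, nat_lit 0x40004000200048, nat_lit 0x112114, nat_lit 0, nat_lit 4, nat_lit 0x49⟩ (.nil) (.nil)
def t14_4738 : Tr := .node ⟨nat_lit 7, nat_lit 0x40002000200010, nat_lit 0x110210, nat_lit 6, nat_lit 4, nat_lit 0x4a⟩ (.nil) (.nil)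
def t14_12930 : Tr := .node ⟨nat_lit 7, nat_lit 0x40001000500068, nat_lit 0x102001, nat_lit 3, nat_lit 4, nat_lit 0x47⟩ (.nil) (.nil)
def t14_2690 : Tr := .node ⟨nat_lit 6, nat_lit 0x2800300030, nat_lit 0x2410, nat_lit 2, nat_lit 4, nat_lit 0x47⟩ (.nil) (.nil)
def t14_10882 : Tr := .node ⟨nat_lit 7, nat_lit 0x20002000500068, nat_lit 0x2020, nat_lit 1, nat_lit 4, nat_lit 0x46⟩ (.nil) (.nil)
def t14_6786 : Tr := .node ⟨nat_lit 8, nat_lit 0x400020008000c2, nat_lit 0x10110100, nat_lit 1, nat_lit 4, nat_lit 0x49⟩ (.nil) (.nil)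
def t14_14978 : Tr := .node ⟨nat_lit 0xa, nat_lit 0x2000200020001000100024002400280, nat_lit 0x1110210, nat_lit 0, nat_lit 4, nat_lit 0x49⟩ (.nil) (.nil)
def t14_1666 : Tr := .node ⟨nat_lit 7, nat_lit 0x40004800300060, nat_lit 0x112002, nat_lit 0, nat_lit 4, nat_lit 0x47⟩ (.nil) (.nil)
def t14_9858 : Tr := .node ⟨nat_lit 9, nat_lit 0x10001000040011001200180, nat_lit 0x1111100, nat_lit 4, nat_lit 4, nat_lit 0x49⟩ (.nil) (.nil)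
def t14_5762 : Tr := .node ⟨nat_lit 7, nat_lit 0x40004000400020, nat_lit 0x212102, nat_lit 0, nat_lit 3, nat_lit 0x48⟩ (.nil) (.nil)
def t14_13954 : Tr := .node ⟨nat_lit 6, nat_lit 0x800080030, nat_lit 0x100112, nat_lit 3, nat_lit 4, nat_lit 0x47⟩ (.nil) (.nil)
def t14_3714 : Tr := .node ⟨nat_lit 8, nat_lit 0x40004000800060008800e0, nat_lit 0x11102001, nat_lit 1, nat_lit 4, nat_lit 0x48⟩ (.nil) (.nil)
def t14_11906 : Tr := .node ⟨nat_lit 6, nat_lit 0x8000c0030, nat_lit 0x100303, nat_lit 1, nat_lit 4, nat_lit 0x47⟩ (.nil) (.nil)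
def t14_7810 : Tr := .node ⟨nat_lit 5, nat_lit 0x1000080014, nat_lit 0x1203, nat_lit 7, nat_lit 4, nat_lit 0x47⟩ (.nil) (.nil)
def t9_130 : Tr := .node ⟨nat_lit 4, nat_lit 0, nat_lit 0x3111, nat_lit 0, nat_lit 4, nat_lit 0x47⟩ (.node ⟨nat_lit 5, nat_lit 0x80010001c, nat_lit 0x13122, nat_lit 4, nat_lit 4, nat_lit 0x48⟩ (.node ⟨nat_lit 6, nat_lit 0x10001000200022, nat_lit 0x302210, nat_lit 0, nat_lit 4, nat_lit 0x48⟩ (.node ⟨nat_lit 5, nat_lit 0x10, nat_lit 0x13001, nat_lit 0, nat_lit 4, nat_lit 0x48⟩ (.node ⟨nat_lit 7, nat_lit 0x400040002000500050, nat_lit 0x210221, nat_lit 2, nat_lit 4, nat_lit 0x48⟩ (t14_130) (t14_8322)) (.node ⟨nat_lit 5, nat_lit 0x140018, nat_lit 0x11020, nat_lit 2, nat_lit 4, nat_lit 0x45⟩ (t14_4226) (t14_12418))) (.node ⟨nat_lit 9, nat_lit 0x40002000100180, nat_lit 0x210010012, nat_lit 0, nat_lit 4, nat_lit 0x4b⟩ (.node ⟨nat_lit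 6, nat_lit 0x300030, nat_lit 0x1020, nat_lit 1, nat_lit 4, nat_lit 0x46⟩ (t14_2178) (t14_10370)) (.node ⟨nat_lit 7, nat_lit 0x400040, nat_lit 0x1211122, nat_lit 0, nat_lit 4, nat_lit 0x4c⟩ (t14_6274) (t14_14466)))) (.node ⟨nat_lit 5, nat_lit 0x100010, nat_lit 0x12211, nat_lit 4, nat_lit 4, nat_lit 0x49⟩ (.node ⟨nat_lit 5, nat_lit 0x40018, nat_lit 0x22021, nat_lit 1, nat_lit 4, nat_lit 0x47⟩ (.node ⟨nat_lit 4, nat_lit 0, nat_lit 0x5111, nat_lit 0, nat_lit 3, nat_lit 0x49⟩ (t14_1154) (t14_9346)) (.node ⟨nat_lit 5, nat_lit 0x800100018, nat_lit 0x11221, nat_lit 7, nat_lit 4, nat_lit 0x48⟩ (t14_5250) (t14_13442))) (.node ⟨nat_lit 6, nat_lit 0x280030, nat_lit 0x11210, nat_lit 0, nat_lit 4, nat_lit 0x47⟩ (.node ⟨nat_lit 7, nat_lit 0x40006000680068, nat_lit 0x1020031, nat_lit 1, nat_lit 4, nat_lit 0x46⟩ (t14_3202) (t14_11394)) (.node ⟨nat_lit 6, nat_lit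 0x1000200030, nat_lit 0x11120, nat_lit 0, nat_lit 4, nat_lit 0x47⟩ (t14_7298) (t14_15490))))) (.node ⟨nat_lit 6, nat_lit 0x2000080034, nat_lit 0x300212, nat_lit 0, nat_lit 4, nat_lit 0x48⟩ (.node ⟨nat_lit 5, nat_lit 0x1000080014, nat_lit 0x12230, nat_lit 2, nat_lit 4, nat_lit 0x48⟩ (.node ⟨nat_lit 5, nat_lit 0x1c, nat_lit 0x20012, nat_lit 2, nat_lit 4, nat_lit 0x46⟩ (.node ⟨nat_lit 6, nat_lit 0x20002000380038, nat_lit 0x210021, nat_lit 5, nat_lit 4, nat_lit 0x47⟩ (t14_642) (t14_8834)) (.node ⟨nat_lit 8, nat_lit 0x4000800060009000e000d0, nat_lit 0x11121101, nat_lit 0, nat_lit 4, nat_lit 0x47⟩ (t14_4738) (t14_12930))) (.node ⟨nat_lit 6, nat_lit 0x2000080030, nat_lit 0x100122, nat_lit 0, nat_lit 4, nat_lit 0x46⟩ (.node ⟨nat_lit 7, nat_lit 0x40001000100020, nat_lit 0x210113, nat_lit 1, nat_lit 4, nat_lit 0x4a⟩ (t14_2690) (t14_10882)) (.node ⟨nat_lit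 6, nat_lit 0x800080030, nat_lit 0x100212, nat_lit 2, nat_lit 4, nat_lit 0x47⟩ (t14_6786) (t14_14978)))) (.node ⟨nat_lit 7, nat_lit 0x2000400042, nat_lit 0x2111110, nat_lit 0, nat_lit 4, nat_lit 0x4a⟩ (.node ⟨nat_lit 7, nat_lit 0x40002000480030, nat_lit 0x1020121, nat_lit 0, nat_lit 4, nat_lit 0x47⟩ (.node ⟨nat_lit 6, nat_lit 0x800280030, nat_lit 0x100111, nat_lit 0, nat_lit 4, nat_lit 0x45⟩ (t14_1666) (t14_9858)) (.node ⟨nat_lit 5, nat_lit 0x1000080008, nat_lit 0x20000, nat_lit 1, nat_lit 3, nat_lit 0x45⟩ (t14_5762) (t14_13954))) (.node ⟨nat_lit 5, nat_lit 0x1c, nat_lit 0x21002, nat_lit 0, nat_lit 4, nat_lit 0x46⟩ (.node ⟨nat_lit 6, nat_lit 0x800280030, nat_lit 0x11110, nat_lit 0, nat_lit 4, nat_lit 0x46⟩ (t14_3714) (t14_11906)) (.node ⟨nat_lit 6, nat_lit 0x300030, nat_lit 0x101121, nat_lit 7, nat_lit 4, nat_lit 0x49⟩ (t14_7810) (.nil)))))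
def t14_386 : Tr := .node ⟨nat_lit 6, nat_lit 0x2000100010, nat_lit 0x11211, nat_lit 1, nat_lit 4, nat_lit 0x48⟩ (.nil) (.nil)
def t14_8578 : Tr := .node ⟨nat_lit 7, nat_lit 0x400020002000500068, nat_lit 0x10010, nat_lit 5, nat_lit 4, nat_lit 0x46⟩ (.nil) (.nil)
def t14_4482 : Tr := .node ⟨nat_lit 8, nat_lit 0x8000800040009000c0, nat_lit 0x1111201, nat_lit 1, nat_lit 4, nat_lit 0x49⟩ (.nil) (.nil)
def t14_12674 : Tr := .node ⟨nat_lit 4, nat_lit 0x8000c, nat_lit 0x20, nat_lit 0xd, nat_lit 4, nat_lit 0x47⟩ (.nil) (.nil)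
def t14_2434 : Tr := .node ⟨nat_lit 8, nat_lit 0x800020004000a000c0, nat_lit 0x112002, nat_lit 1, nat_lit 4, nat_lit 0x48⟩ (.nil) (.nil)
def t14_10626 : Tr := .node ⟨nat_lit 5, nat_lit 0x40018, nat_lit 0x20, nat_lit 3, nat_lit 4, nat_lit 0x45⟩ (.nil) (.nil)
def t14_6530 : Tr := .node ⟨nat_lit 7, nat_lit 0x20004000600064, nat_lit 0x1011111, nat_lit 1, nat_lit 4, nat_lit 0x47⟩ (.nil) (.nil)
def t14_14722 : Tr := .node ⟨nat_lit 7, nat_lit 0x1000600018, nat_lit 0x1000111, nat_lit 2, nat_lit 4, nat_lit 0x47⟩ (.nil) (.nil)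
def t14_1410 : Tr := .node ⟨nat_lit 8, nat_lit 0x8000800040004000a000c0, nat_lit 0x113110, nat_lit 0, nat_lit 4, nat_lit 0x48⟩ (.nil) (.nil)
def t14_9602 : Tr := .node ⟨nat_lit 8, nat_lit 0x4000c0006000a000d0, nat_lit 0x22020, nat_lit 1, nat_lit 4, nat_lit 0x46⟩ (.nil) (.nil)
def t14_5506 : Tr := .node ⟨nat_lit 8, nat_lit 0x20008000c0, nat_lit 0x11031, nat_lit 1, nat_lit 4, nat_lit 0x4a⟩ (.nil) (.nil)
def t14_13698 : Tr := .node ⟨nat_lit 7, nat_lit 0x1000400062, nat_lit 0x102020, nat_lit 0, nat_lit 4, nat_lit 0x48⟩ (.nil) (.nil)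
def t14_3458 : Tr := .node ⟨nat_lit 6, nat_lit 0x20001000100030, nat_lit 0x301, nat_lit 4, nat_lit 4, nat_lit 0x47⟩ (.nil) (.nil)
def t14_11650 : Tr := .node ⟨nat_lit 7, nat_lit 0x30006000500050, nat_lit 0x3210, nat_lit 0, nat_lit 4, nat_lit 0x45⟩ (.nil) (.nil)
def t14_7554 : Tr := .node ⟨nat_lit 7, nat_lit 0x200040004000480060, nat_lit 0x21003, nat_lit 3, nat_lit 4, nat_lit 0x47⟩ (.nil) (.nil)
def t14_898 : Tr := .node ⟨nat_lit 6, nat_lit 0x10001000200022, nat_lit 0x3022, nat_lit 0, nat_lit 4, nat_lit 0x46⟩ (.nil) (.nil)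
def t14_9090 : Tr := .node ⟨nat_lit 7, nat_lit 0x400020002000500068, nat_lit 0x22021, nat_lit 0, nat_lit 4, nat_lit 0x46⟩ (.nil) (.nil)
def t14_4994 : Tr := .node ⟨nat_lit 7, nat_lit 0x800500060, nat_lit 0x101001, nat_lit 1, nat_lit 4, nat_lit 0x47⟩ (.nil) (.nil)
def t14_13186 : Tr := .node ⟨nat_lit 6, nat_lit 0x20001000100028, nat_lit 0x113, nat_lit 1, nat_lit 4, nat_lit 0x45⟩ (.nil) (.nil)
def t14_2946 : Tr := .node ⟨nat_lit 7, nat_lit 0x1000180060, nat_lit 0x2001121, nat_lit 0, nat_lit 4, nat_lit 0x48⟩ (.nil) (.nil)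
def t14_11138 : Tr := .node ⟨nat_lit 6, nat_lit 0x300038, nat_lit 0x101140, nat_lit 0, nat_lit 4, nat_lit 0x47⟩ (.nil) (.nil)
def t14_7042 : Tr := .node ⟨nat_lit 7, nat_lit 0x200040004000480030, nat_lit 0x1102110, nat_lit 1, nat_lit 4, nat_lit 0x48⟩ (.nil) (.nil)
def t14_15234 : Tr := .node ⟨nat_lit 9, nat_lit 0x20001001400180, nat_lit 0x111000012, nat_lit 0, nat_lit 4, nat_lit 0x4a⟩ (.nil) (.nil)
def t14_1922 : Tr := .node ⟨nat_lit 5, nat_lit 0x140018, nat_lit 0x21020, nat_lit 2, nat_lit 4, nat_lit 0x46⟩ (.nil) (.nil)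
def t14_10114 : Tr := .node ⟨nat_lit 8, nat_lit 0x40008000d000d000e0, nat_lit 0x2202, nat_lit 0, nat_lit 4, nat_lit 0x45⟩ (.nil) (.nil)
def t14_6018 : Tr := .node ⟨nat_lit 6, nat_lit 0x80030, nat_lit 0x213110, nat_lit 0, nat_lit 4, nat_lit 0x4a⟩ (.nil) (.nil)
def t14_14210 : Tr := .node ⟨nat_lit 7, nat_lit 0x6000480050, nat_lit 0x10102, nat_lit 3, nat_lit 4, nat_lit 0x47⟩ (.nil) (.nil)
def t14_3970 : Tr := .node ⟨nat_lit 7, nat_lit 0x40001000100060, nat_lit 0x112110, nat_lit 0, nat_lit 4, nat_lit 0x48⟩ (.nil) (.nil)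
def t14_12162 : Tr := .node ⟨nat_lit 7, nat_lit 0x20005000500068, nat_lit 0x111201, nat_lit 0, nat_lit 4, nat_lit 0x46⟩ (.nil) (.nil)
def t14_8066 : Tr := .node ⟨nat_lit 7, nat_lit 0x4000440060, nat_lit 0x11130, nat_lit 2, nat_lit 4, nat_lit 0x48⟩ (.nil) (.nil)
def t9_386 : Tr := .node ⟨nat_lit 4, nat_lit 0x40008, nat_lit 0x2322, nat_lit 4, nat_lit 4, nat_lit 0x49⟩ (.node ⟨nat_lit 6, nat_lit 0x800100020, nat_lit 0x113220, nat_lit 0, nat_lit 4, nat_lit 0x4a⟩ (.node ⟨nat_lit 6, nat_lit 0x2000100024, nat_lit 0x221120, nat_lit 0, nat_lit 4, nat_lit 0x49⟩ (.node ⟨nat_lit 7, nat_lit 0x10004000400064, nat_lit 0x1100122, nat_lit 0, nat_lit 4, nat_lit 0x48⟩ (.node ⟨nat_lit 5, nat_lit 0x40018, nat_lit 0x11210, nat_lit 1, nat_lit 4, nat_lit 0x47⟩ (t14_386) (t14_8578)) (.node ⟨nat_lit 8, nat_lit 0x400040008000800084, nat_lit 0x10110201, nat_lit 4, nat_lit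 4, nat_lit 0x4a⟩ (t14_4482) (t14_12674))) (.node ⟨nat_lit 5, nat_lit 0x100008, nat_lit 0x2301, nat_lit 4, nat_lit 4, nat_lit 0x49⟩ (.node ⟨nat_lit 5, nat_lit 0x1000080018, nat_lit 0x11214, nat_lit 4, nat_lit 4, nat_lit 0x48⟩ (t14_2434) (t14_10626)) (.node ⟨nat_lit 5, nat_lit 0x80010, nat_lit 0x20010, nat_lit 1, nat_lit 4, nat_lit 0x46⟩ (t14_6530) (t14_14722)))) (.node ⟨nat_lit 5, nat_lit 0x40018, nat_lit 0x20103, nat_lit 0, nat_lit 4, nat_lit 0x46⟩ (.node ⟨nat_lit 6, nat_lit 0x200010, nat_lit 0x22101, nat_lit 7, nat_lit 4, nat_lit 0x4b⟩ (.node ⟨nat_lit 6, nat_lit 0x80030, nat_lit 0x101203, nat_lit 0, nat_lit 4, nat_lit 0x48⟩ (t14_1410) (t14_9602)) (.node ⟨nat_lit 7, nat_lit 0x200020004000400044, nat_lit 0x121202, nat_lit 1, nat_lit 4, nat_lit 0x48⟩ (t14_5506) (t14_13698))) (.node ⟨nat_lit 6, nat_lit 0x1000100020, nat_lit 0x101211, nat_lit 2, nat_lit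 4, nat_lit 0x48⟩ (.node ⟨nat_lit 6, nat_lit 0x800300030, nat_lit 0x2200, nat_lit 0, nat_lit 4, nat_lit 0x46⟩ (t14_3458) (t14_11650)) (.node ⟨nat_lit 6, nat_lit 0x200030, nat_lit 0x111112, nat_lit 6, nat_lit 4, nat_lit 0x4a⟩ (t14_7554) (.nil))))) (.node ⟨nat_lit 6, nat_lit 0x200030, nat_lit 0x103111, nat_lit 5, nat_lit 4, nat_lit 0x4a⟩ (.node ⟨nat_lit 6, nat_lit 0x280030, nat_lit 0x12210, nat_lit 1, nat_lit 4, nat_lit 0x48⟩ (.node ⟨nat_lit 5, nat_lit 0x40018, nat_lit 0x11121, nat_lit 3, nat_lit 4, nat_lit 0x47⟩ (.node ⟨nat_lit 6, nat_lit 0x200020, nat_lit 0x132120, nat_lit 0, nat_lit 4, nat_lit 0x4b⟩ (t14_898) (t14_9090)) (.node ⟨nat_lit 3, nat_lit 4, nat_lit 0x220, nat_lit 0x11, nat_lit 4, nat_lit 0x49⟩ (t14_4994) (t14_13186))) (.node ⟨nat_lit 4, nat_lit 0x80004, nat_lit 0x102, nat_lit 4, nat_lit 4, nat_lit 0x45⟩ (.node ⟨nat_lit 5, nat_lit 0x40018,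 nat_lit 0x11112, nat_lit 7, nat_lit 4, nat_lit 0x48⟩ (t14_2946) (t14_11138)) (.node ⟨nat_lit 6, nat_lit 0x10002000300038, nat_lit 0x111122, nat_lit 4, nat_lit 4, nat_lit 0x47⟩ (t14_7042) (t14_15234)))) (.node ⟨nat_lit 6, nat_lit 0x2000200010, nat_lit 0x101213, nat_lit 0, nat_lit 4, nat_lit 0x48⟩ (.node ⟨nat_lit 6, nat_lit 0x200030, nat_lit 0x32211, nat_lit 0, nat_lit 4, nat_lit 0x4a⟩ (.node ⟨nat_lit 6, nat_lit 0x2000080030, nat_lit 0x101121, nat_lit 0, nat_lit 4, nat_lit 0x47⟩ (t14_1922) (t14_10114)) (.node ⟨nat_lit 7, nat_lit 0x20005000500060, nat_lit 0x112200, nat_lit 1, nat_lit 4, nat_lit 0x47⟩ (t14_6018) (t14_14210))) (.node ⟨nat_lit 7, nat_lit 0x20004000400044, nat_lit 0x10212, nat_lit 0, nat_lit 4, nat_lit 0x48⟩ (.node ⟨nat_lit 4, nat_lit 0x8000c, nat_lit 0x1010, nat_lit 4, nat_lit 3, nat_lit 0x44⟩ (t14_3970) (t14_12162)) (.node ⟨nat_lit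 7, nat_lit 0x20002000400040, nat_lit 0x1111121, nat_lit 2, nat_lit 4, nat_lit 0x4a⟩ (t14_8066) (.nil)))))
def t14_66 : Tr := .node ⟨nat_lit 8, nat_lit 0x20008000c0, nat_lit 0x11021011, nat_lit 1, nat_lit 4, nat_lit 0x4b⟩ (.nil) (.nil)
def t14_8258 : Tr := .node ⟨nat_lit 7, nat_lit 0x40002000480060, nat_lit 0x12140, nat_lit 0, nat_lit 4, nat_lit 0x48⟩ (.nil) (.nil)
def t14_4162 : Tr := .node ⟨nat_lit 8, nat_lit 0x8000400090009000c0, nat_lit 0x1110112, nat_lit 0, nat_lit 4, nat_lit 0x48⟩ (.nil) (.nil)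
def t14_12354 : Tr := .node ⟨nat_lit 8, nat_lit 0x8000400020002000c0, nat_lit 0x11100, nat_lit 0, nat_lit 4, nat_lit 0x47⟩ (.nil) (.nil)
def t14_2114 : Tr := .node ⟨nat_lit 6, nat_lit 0x1000280030, nat_lit 0x1022, nat_lit 3, nat_lit 4, nat_lit 0x46⟩ (.nil) (.nil)
def t14_10306 : Tr := .node ⟨nat_lit 7, nat_lit 0x5000300060, nat_lit 0x2220, nat_lit 2, nat_lit 4, nat_lit 0x47⟩ (.nil) (.nil)
def t14_6210 : Tr := .node ⟨nat_lit 3, nat_lit 4, nat_lit 0x110, nat_lit 0xd, nat_lit 4, nat_lit 0x47⟩ (.nil) (.nil)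
def t14_14402 : Tr := .node ⟨nat_lit 9, nat_lit 0x1000020002001800140, nat_lit 0x21010, nat_lit 3, nat_lit 4, nat_lit 0x49⟩ (.nil) (.nil)
def t14_1090 : Tr := .node ⟨nat_lit 6, nat_lit 0x10002000300030, nat_lit 0x1221, nat_lit 3, nat_lit 4, nat_lit 0x46⟩ (.nil) (.nil)
def t14_9282 : Tr := .node ⟨nat_lit 7, nat_lit 0x10004000500060, nat_lit 0x110212, nat_lit 1, nat_lit 3, nat_lit 0x46⟩ (.nil) (.nil)
def t14_5186 : Tr := .node ⟨nat_lit 7, nat_lit 0x400020002000500070, nat_lit 0x1013110, nat_lit 1, nat_lit 4, nat_lit 0x47⟩ (.nil) (.nil)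
def t14_13378 : Tr := .node ⟨nat_lit 7, nat_lit 0x40002000480068, nat_lit 0x12200, nat_lit 1, nat_lit 4, nat_lit 0x47⟩ (.nil) (.nil)
def t14_3138 : Tr := .node ⟨nat_lit 9, nat_lit 0x10000400120018001a001a0, nat_lit 0x101000121, nat_lit 0, nat_lit 4, nat_lit 0x47⟩ (.nil) (.nil)
def t14_11330 : Tr := .node ⟨nat_lit 9, nat_lit 0x400080010001800180, nat_lit 0x101120, nat_lit 1, nat_lit 4, nat_lit 0x49⟩ (.nil) (.nil)
def t14_7234 : Tr := .node ⟨nat_lit 7, nat_lit 0x400040002000200050, nat_lit 0x1120110, nat_lit 3, nat_lit 4, nat_lit 0x49⟩ (.nil) (.nil)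
def t14_15426 : Tr := .node ⟨nat_lit 0xa, nat_lit 0x1000200020001800220022002400240, nat_lit 0x110011000, nat_lit 0, nat_lit 4, nat_lit 0x47⟩ (.nil) (.nil)
def t14_578 : Tr := .node ⟨nat_lit 6, nat_lit 0x2000080030, nat_lit 0x2002, nat_lit 3, nat_lit 4, nat_lit 0x47⟩ (.nil) (.nil)
def t14_8770 : Tr := .node ⟨nat_lit 7, nat_lit 0x40002000480060, nat_lit 0x22030, nat_lit 1, nat_lit 4, nat_lit 0x48⟩ (.nil) (.nil)
def t14_4674 : Tr := .node ⟨nat_lit 6, nat_lit 0x800300038, nat_lit 0x110022, nat_lit 2, nat_lit 4, nat_lit 0x46⟩ (.nil) (.nil)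
def t14_12866 : Tr := .node ⟨nat_lit 7, nat_lit 0x10002000500064, nat_lit 0x200001, nat_lit 0, nat_lit 4, nat_lit 0x46⟩ (.nil) (.nil)
def t14_2626 : Tr := .node ⟨nat_lit 6, nat_lit 0x20001000280030, nat_lit 0x1302, nat_lit 3, nat_lit 4, nat_lit 0x46⟩ (.nil) (.nil)
def t14_10818 : Tr := .node ⟨nat_lit 6, nat_lit 0x2000340034, nat_lit 0x111122, nat_lit 4, nat_lit 4, nat_lit 0x47⟩ (.nil) (.nil)
def t14_6722 : Tr := .node ⟨nat_lit 7, nat_lit 0x4000440064, nat_lit 0x1111010, nat_lit 1, nat_lit 4, nat_lit 0x48⟩ (.nil) (.nil)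
def t14_14914 : Tr := .node ⟨nat_lit 7, nat_lit 0x40004800680068, nat_lit 0x1021211, nat_lit 1, nat_lit 4, nat_lit 0x47⟩ (.nil) (.nil)
def t14_1602 : Tr := .node ⟨nat_lit 7, nat_lit 0x4000200060, nat_lit 0x1111120, nat_lit 0, nat_lit 3, nat_lit 0x48⟩ (.nil) (.nil)
def t14_9794 : Tr := .node ⟨nat_lit 8, nat_lit 0x8000400020009000c0, nat_lit 0x12010, nat_lit 0, nat_lit 4, nat_lit 0x47⟩ (.nil) (.nil)
def t14_5698 : Tr := .node ⟨nat_lit 7, nat_lit 0x400020005000600068, nat_lit 0x121120, nat_lit 3, nat_lit 4, nat_lit 0x47⟩ (.nil) (.nil)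
def t14_13890 : Tr := .node ⟨nat_lit 7, nat_lit 0x200040004000480030, nat_lit 0x1010020, nat_lit 1, nat_lit 4, nat_lit 0x46⟩ (.nil) (.nil)
def t14_3650 : Tr := .node ⟨nat_lit 6, nat_lit 0x1000200034, nat_lit 0x2001, nat_lit 3, nat_lit 4, nat_lit 0x46⟩ (.nil) (.nil)
def t14_11842 : Tr := .node ⟨nat_lit 7, nat_lit 0x4000100064, nat_lit 0x101300, nat_lit 0, nat_lit 4, nat_lit 0x48⟩ (.nil) (.nil)
def t14_7746 : Tr := .node ⟨nat_lit 7, nat_lit 0x800600050, nat_lit 0x211, nat_lit 0, nat_lit 4, nat_lit 0x46⟩ (.nil) (.nil)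
def t9_66 : Tr := .node ⟨nat_lit 6, nat_lit 0x20, nat_lit 0x321111, nat_lit 1, nat_lit 4, nat_lit 0x4c⟩ (.node ⟨nat_lit 6, nat_lit 0x200030, nat_lit 0x113121, nat_lit 2, nat_lit 4, nat_lit 0x4a⟩ (.node ⟨nat_lit 7, nat_lit 0x40003000580068, nat_lit 0x3000200, nat_lit 0, nat_lit 4, nat_lit 0x46⟩ (.node ⟨nat_lit 6, nat_lit 0x1000200032, nat_lit 0x202100, nat_lit 1, nat_lit 4, nat_lit 0x47⟩ (.node ⟨nat_lit 5, nat_lit 0x10, nat_lit 0x23113, nat_lit 1, nat_lit 3, nat_lit 0x49⟩ (t14_66) (t14_8258)) (.node ⟨nat_lit 7, nat_lit 0x4000500064, nat_lit 0x110100, nat_lit 0, nat_lit 4, nat_lit 0x47⟩ (t14_4162) (t14_12354))) (.node ⟨nat_lit 7, nat_lit 0x100060, nat_lit 0x2102102, nat_lit 2, nat_lit 4, nat_lit 0x4b⟩ (.node ⟨nat_lit 4, nat_lit 0x8000c, nat_lit 0x1241, nat_lit 3, nat_lit 3, nat_lit 0x46⟩ (t14_2114) (t14_10306)) (.node ⟨nat_lit 8, nat_lit 0x200030003000a000c0,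 nat_lit 0x2011102, nat_lit 0, nat_lit 4, nat_lit 0x47⟩ (t14_6210) (t14_14402)))) (.node ⟨nat_lit 5, nat_lit 0x10, nat_lit 0x22210, nat_lit 2, nat_lit 3, nat_lit 0x49⟩ (.node ⟨nat_lit 4, nat_lit 0, nat_lit 0x2220, nat_lit 0, nat_lit 4, nat_lit 0x48⟩ (.node ⟨nat_lit 7, nat_lit 0x40001000600060, nat_lit 0x11310, nat_lit 1, nat_lit 4, nat_lit 0x47⟩ (t14_1090) (t14_9282)) (.node ⟨nat_lit 5, nat_lit 0x180018, nat_lit 0x10141, nat_lit 4, nat_lit 4, nat_lit 0x47⟩ (t14_5186) (t14_13378))) (.node ⟨nat_lit 6, nat_lit 0x1000200032, nat_lit 0x112001, nat_lit 4, nat_lit 4, nat_lit 0x48⟩ (.node ⟨nat_lit 6, nat_lit 0x200030, nat_lit 0x12100, nat_lit 1, nat_lit 4, nat_lit 0x48⟩ (t14_3138) (t14_11330)) (.node ⟨nat_lit 6, nat_lit 0x10002000240024, nat_lit 0x100121, nat_lit 5, nat_lit 4, nat_lit 0x47⟩ (t14_7234) (t14_15426))))) (.node ⟨nat_lit 4, nat_lit 0x80004,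 nat_lit 0x333, nat_lit 3, nat_lit 4, nat_lit 0x48⟩ (.node ⟨nat_lit 5, nat_lit 0x10, nat_lit 0x21113, nat_lit 2, nat_lit 4, nat_lit 0x4a⟩ (.node ⟨nat_lit 5, nat_lit 0x100018, nat_lit 0x220, nat_lit 1, nat_lit 3, nat_lit 0x45⟩ (.node ⟨nat_lit 4, nat_lit 8, nat_lit 0x2111, nat_lit 0xe, nat_lit 4, nat_lit 0x4a⟩ (t14_578) (t14_8770)) (.node ⟨nat_lit 7, nat_lit 0x400040002000200050, nat_lit 0x1110210, nat_lit 0, nat_lit 4, nat_lit 0x48⟩ (t14_4674) (t14_12866))) (.node ⟨nat_lit 5, nat_lit 0x40018, nat_lit 0x10002, nat_lit 0, nat_lit 4, nat_lit 0x44⟩ (.node ⟨nat_lit 5, nat_lit 0x10, nat_lit 0x11113, nat_lit 6, nat_lit 4, nat_lit 0x4a⟩ (t14_2626) (t14_10818)) (.node ⟨nat_lit 4, nat_lit 0x80008000c, nat_lit 0x1110, nat_lit 0x11, nat_lit 4, nat_lit 0x48⟩ (t14_6722) (t14_14914)))) (.node ⟨nat_lit 5, nat_lit 0x100012, nat_lit 0x21120, nat_lit 5, nat_lit 4,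 nat_lit 0x49⟩ (.node ⟨nat_lit 6, nat_lit 0x10001000200020, nat_lit 0x221021, nat_lit 0, nat_lit 3, nat_lit 0x48⟩ (.node ⟨nat_lit 6, nat_lit 0x280030, nat_lit 0x20110, nat_lit 0, nat_lit 4, nat_lit 0x46⟩ (t14_1602) (t14_9794)) (.node ⟨nat_lit 8, nat_lit 0x80002000c0, nat_lit 0x11111201, nat_lit 0, nat_lit 4, nat_lit 0x4b⟩ (t14_5698) (t14_13890))) (.node ⟨nat_lit 6, nat_lit 0x280030, nat_lit 0x12122, nat_lit 1, nat_lit 4, nat_lit 0x48⟩ (.node ⟨nat_lit 5, nat_lit 0x18001c, nat_lit 0x103, nat_lit 5, nat_lit 4, nat_lit 0x45⟩ (t14_3650) (t14_11842)) (.node ⟨nat_lit 7, nat_lit 0x1000400060, nat_lit 0x110002, nat_lit 1, nat_lit 4, nat_lit 0x48⟩ (t14_7746) (.nil)))))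
def t14_322 : Tr := .node ⟨nat_lit 7, nat_lit 0x20004000100060, nat_lit 0x122311, nat_lit 0, nat_lit 4, nat_lit 0x49⟩ (.nil) (.nil)
def t14_8514 : Tr := .node ⟨nat_lit 6, nat_lit 0x20002000280028, nat_lit 0x11131, nat_lit 7, nat_lit 4, nat_lit 0x48⟩ (.nil) (.nil)
def t14_4418 : Tr := .node ⟨nat_lit 8, nat_lit 0x80008000800040, nat_lit 0x1212001, nat_lit 1, nat_lit 4, nat_lit 0x4b⟩ (.nil) (.nil)
def t14_12610 : Tr := .node ⟨nat_lit 6, nat_lit 0x800300030, nat_lit 0x100100, nat_lit 1, nat_lit 4, nat_lit 0x45⟩ (.nil) (.nil)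
def t14_2370 : Tr := .node ⟨nat_lit 7, nat_lit 0x5000600060, nat_lit 0x21210, nat_lit 3, nat_lit 4, nat_lit 0x48⟩ (.nil) (.nil)
def t14_10562 : Tr := .node ⟨nat_lit 7, nat_lit 0x200040003000480068, nat_lit 0x1001200, nat_lit 1, nat_lit 4, nat_lit 0x45⟩ (.nil) (.nil)
def t14_6466 : Tr := .node ⟨nat_lit 5, nat_lit 0x180018, nat_lit 0x11110, nat_lit 3, nat_lit 4, nat_lit 0x46⟩ (.nil) (.nil)
def t14_14658 : Tr := .node ⟨nat_lit 0xa, nat_lit 0x8002000200004002100300, nat_lit 0x100011011, nat_lit 2, nat_lit 4, nat_lit 0x4a⟩ (.nil) (.nil)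
def t14_1346 : Tr := .node ⟨nat_lit 7, nat_lit 0x40001000600060, nat_lit 0x13110, nat_lit 3, nat_lit 4, nat_lit 0x48⟩ (.nil) (.nil)
def t14_9538 : Tr := .node ⟨nat_lit 8, nat_lit 0x80008000c000c000c000a000a0, nat_lit 0x121010, nat_lit 3, nat_lit 4, nat_lit 0x47⟩ (.nil) (.nil)
def t14_5442 : Tr := .node ⟨nat_lit 5, nat_lit 0x40018, nat_lit 0x10030, nat_lit 3, nat_lit 4, nat_lit 0x46⟩ (.nil) (.nil)
def t14_13634 : Tr := .node ⟨nat_lit 6, nat_lit 0x2000240018, nat_lit 0x10012, nat_lit 1, nat_lit 4, nat_lit 0x45⟩ (.nil) (.nil)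
def t14_3394 : Tr := .node ⟨nat_lit 7, nat_lit 0x40002000500064, nat_lit 0x200011, nat_lit 0, nat_lit 4, nat_lit 0x46⟩ (.nil) (.nil)
def t14_11586 : Tr := .node ⟨nat_lit 6, nat_lit 0x3000300038, nat_lit 0x1103, nat_lit 5, nat_lit 4, nat_lit 0x46⟩ (.nil) (.nil)
def t14_7490 : Tr := .node ⟨nat_lit 8, nat_lit 0x800080008800c0, nat_lit 0x10111111, nat_lit 1, nat_lit 4, nat_lit 0x4a⟩ (.nil) (.nil)
def t14_834 : Tr := .node ⟨nat_lit 8, nat_lit 0x8000800040004000a000e0, nat_lit 0x10113110, nat_lit 0, nat_lit 4, nat_lit 0x48⟩ (.nil) (.nil)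
def t14_9026 : Tr := .node ⟨nat_lit 7, nat_lit 0x4000400060006000500050, nat_lit 0x112110, nat_lit 4, nat_lit 4, nat_lit 0x47⟩ (.nil) (.nil)
def t14_4930 : Tr := .node ⟨nat_lit 7, nat_lit 0x1000080060, nat_lit 0x1000001, nat_lit 1, nat_lit 4, nat_lit 0x47⟩ (.nil) (.nil)
def t14_13122 : Tr := .node ⟨nat_lit 6, nat_lit 0x800300028, nat_lit 0x210310, nat_lit 0, nat_lit 3, nat_lit 0x46⟩ (.nil) (.nil)
def t14_2882 : Tr := .node ⟨nat_lit 7, nat_lit 0x40002000200060, nat_lit 0x1021210, nat_lit 0, nat_lit 4, nat_lit 0x49⟩ (.nil) (.nil)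
def t14_11074 : Tr := .node ⟨nat_lit 6, nat_lit 0x800300030, nat_lit 0x101220, nat_lit 2, nat_lit 4, nat_lit 0x47⟩ (.nil) (.nil)
def t14_6978 : Tr := .node ⟨nat_lit 7, nat_lit 0x600050, nat_lit 0x1021111, nat_lit 2, nat_lit 4, nat_lit 0x4a⟩ (.nil) (.nil)
def t14_15170 : Tr := .node ⟨nat_lit 8, nat_lit 0x40008000a000c800c8, nat_lit 0x10101111, nat_lit 0, nat_lit 4, nat_lit 0x47⟩ (.nil) (.nil)
def t14_1858 : Tr := .node ⟨nat_lit 7, nat_lit 0x6000600050, nat_lit 0x121112, nat_lit 0, nat_lit 4, nat_lit 0x48⟩ (.nil) (.nil)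
def t14_10050 : Tr := .node ⟨nat_lit 7, nat_lit 0x40006000680068, nat_lit 0x1011220, nat_lit 3, nat_lit 4, nat_lit 0x47⟩ (.nil) (.nil)
def t14_5954 : Tr := .node ⟨nat_lit 7, nat_lit 0x40001000600068, nat_lit 0x112111, nat_lit 0, nat_lit 4, nat_lit 0x47⟩ (.nil) (.nil)
def t14_14146 : Tr := .node ⟨nat_lit 8, nat_lit 0x80008000800040004000a0, nat_lit 0x111210, nat_lit 0, nat_lit 4, nat_lit 0x48⟩ (.nil) (.nil)
def t14_3906 : Tr := .node ⟨nat_lit 8, nat_lit 0x4000800080008800c800d0, nat_lit 0x10210001, nat_lit 3, nat_lit 4, nat_lit 0x47⟩ (.nil) (.nil)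
def t14_12098 : Tr := .node ⟨nat_lit 7, nat_lit 0x40001000600068, nat_lit 0x11110, nat_lit 1, nat_lit 4, nat_lit 0x46⟩ (.nil) (.nil)
def t14_8002 : Tr := .node ⟨nat_lit 5, nat_lit 0x1000080014, nat_lit 0x1214, nat_lit 4, nat_lit 4, nat_lit 0x47⟩ (.nil) (.nil)
def t9_322 : Tr := .node ⟨nat_lit 5, nat_lit 0x18, nat_lit 0x11311, nat_lit 1, nat_lit 4, nat_lit 0x48⟩ (.node ⟨nat_lit 6, nat_lit 0x1000280030, nat_lit 0x301220, nat_lit 0, nat_lit 4, nat_lit 0x48⟩ (.node ⟨nat_lit 2, nat_lit 2, nat_lit 0x22, nat_lit 0x11, nat_lit 4, nat_lit 0x47⟩ (.node ⟨nat_lit 7, nat_lit 0x2000500060, nat_lit 0x1011022, nat_lit 0, nat_lit 4, nat_lit 0x48⟩ (.node ⟨nat_lit 7, nat_lit 0x4000180060, nat_lit 0x221011, nat_lit 1, nat_lit 4, nat_lit 0x49⟩ (t14_322) (t14_8514)) (.node ⟨nat_lit 8, nat_lit 0x2000800080004000c0, nat_lit 0x1001003, nat_lit 3, nat_lit 4, nat_lit 0x49⟩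 (t14_4418) (t14_12610))) (.node ⟨nat_lit 5, nat_lit 0x40018, nat_lit 0x10002, nat_lit 4, nat_lit 3, nat_lit 0x45⟩ (.node ⟨nat_lit 7, nat_lit 0x20004000100060, nat_lit 0x10022, nat_lit 0, nat_lit 4, nat_lit 0x47⟩ (t14_2370) (t14_10562)) (.node ⟨nat_lit 7, nat_lit 0x40002000500064, nat_lit 0x201120, nat_lit 1, nat_lit 4, nat_lit 0x47⟩ (t14_6466) (t14_14658)))) (.node ⟨nat_lit 6, nat_lit 0x200022, nat_lit 0x211110, nat_lit 0, nat_lit 4, nat_lit 0x49⟩ (.node ⟨nat_lit 6, nat_lit 0x100020, nat_lit 0x221112, nat_lit 3, nat_lit 4, nat_lit 0x4b⟩ (.node ⟨nat_lit 5, nat_lit 0x100008, nat_lit 0x10103, nat_lit 2, nat_lit 3, nat_lit 0x46⟩ (t14_1346) (t14_9538)) (.node ⟨nat_lit 7, nat_lit 0x4000100060, nat_lit 0x1121112, nat_lit 0, nat_lit 4, nat_lit 0x4a⟩ (t14_5442) (t14_13634))) (.node ⟨nat_lit 5, nat_lit 0x100008, nat_lit 0x1210, nat_lit 6, nat_lit 4, nat_lit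 0x48⟩ (.node ⟨nat_lit 6, nat_lit 0x10001000200020, nat_lit 0x113020, nat_lit 0, nat_lit 3, nat_lit 0x47⟩ (t14_3394) (t14_11586)) (.node ⟨nat_lit 7, nat_lit 0x40002000500060, nat_lit 0x1011022, nat_lit 1, nat_lit 3, nat_lit 0x46⟩ (t14_7490) (.nil))))) (.node ⟨nat_lit 5, nat_lit 0x10, nat_lit 0x3112, nat_lit 2, nat_lit 4, nat_lit 0x49⟩ (.node ⟨nat_lit 5, nat_lit 0x10, nat_lit 0x21112, nat_lit 4, nat_lit 4, nat_lit 0x4a⟩ (.node ⟨nat_lit 3, nat_lit 4, nat_lit 0x111, nat_lit 0xd, nat_lit 4, nat_lit 0x47⟩ (.node ⟨nat_lit 6, nat_lit 0x30, nat_lit 0x212220, nat_lit 0, nat_lit 4, nat_lit 0x4b⟩ (t14_834) (t14_9026)) (.node ⟨nat_lit 7, nat_lit 0x600060, nat_lit 0x1022120, nat_lit 1, nat_lit 4, nat_lit 0x4a⟩ (t14_4930) (t14_13122))) (.node ⟨nat_lit 7, nat_lit 0x1000500060, nat_lit 0x111120, nat_lit 0, nat_lit 4, nat_lit 0x48⟩ (.node ⟨nat_lit 6, nat_lit 0x2000200010,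 nat_lit 0x211110, nat_lit 1, nat_lit 3, nat_lit 0x48⟩ (t14_2882) (t14_11074)) (.node ⟨nat_lit 7, nat_lit 0x4000400044, nat_lit 0x1111120, nat_lit 5, nat_lit 4, nat_lit 0x4b⟩ (t14_6978) (t14_15170)))) (.node ⟨nat_lit 4, nat_lit 0xc, nat_lit 0x2110, nat_lit 5, nat_lit 3, nat_lit 0x46⟩ (.node ⟨nat_lit 6, nat_lit 0x800280030, nat_lit 0x121211, nat_lit 0, nat_lit 4, nat_lit 0x48⟩ (.node ⟨nat_lit 7, nat_lit 0x4000400060, nat_lit 0x111103, nat_lit 0, nat_lit 4, nat_lit 0x49⟩ (t14_1858) (t14_10050)) (.node ⟨nat_lit 6, nat_lit 0x200030, nat_lit 0x112200, nat_lit 0, nat_lit 3, nat_lit 0x48⟩ (t14_5954) (t14_14146))) (.node ⟨nat_lit 7, nat_lit 0x20004000640070, nat_lit 0x2112, nat_lit 0, nat_lit 4, nat_lit 0x45⟩ (.node ⟨nat_lit 6, nat_lit 0x2000300028, nat_lit 0x1004, nat_lit 4, nat_lit 4, nat_lit 0x47⟩ (t14_3906) (t14_12098)) (.node ⟨nat_lit 7, nat_lit 0x1000600060,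 nat_lit 0x1002221, nat_lit 0, nat_lit 4, nat_lit 0x48⟩ (t14_8002) (.nil)))))
def t14_194 : Tr := .node ⟨nat_lit 7, nat_lit 0x20004000100060, nat_lit 0x1022121, nat_lit 1, nat_lit 4, nat_lit 0x49⟩ (.nil) (.nil)
def t14_8386 : Tr := .node ⟨nat_lit 4, nat_lit 0x40008, nat_lit 0x1130, nat_lit 8, nat_lit 3, nat_lit 0x46⟩ (.nil) (.nil)
def t14_4290 : Tr := .node ⟨nat_lit 8, nat_lit 0x400040004000800080, nat_lit 0x10211111, nat_lit 0, nat_lit 4, nat_lit 0x4a⟩ (.nil) (.nil)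
def t14_12482 : Tr := .node ⟨nat_lit 5, nat_lit 0x100018, nat_lit 0x104, nat_lit 3, nat_lit 4, nat_lit 0x46⟩ (.nil) (.nil)
def t14_2242 : Tr := .node ⟨nat_lit 8, nat_lit 0x400040008000840060, nat_lit 0x20022100, nat_lit 0, nat_lit 4, nat_lit 0x49⟩ (.nil) (.nil)
def t14_10434 : Tr := .node ⟨nat_lit 8, nat_lit 0x800040009000c000d0, nat_lit 0x10202020, nat_lit 1, nat_lit 4, nat_lit 0x48⟩ (.nil) (.nil)
def t14_6338 : Tr := .node ⟨nat_lit 6, nat_lit 0x1000280034, nat_lit 0x100002, nat_lit 1, nat_lit 4, nat_lit 0x44⟩ (.nil) (.nil)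
def t14_14530 : Tr := .node ⟨nat_lit 7, nat_lit 0x40004800600068, nat_lit 0x12011, nat_lit 3, nat_lit 4, nat_lit 0x47⟩ (.nil) (.nil)
def t14_1218 : Tr := .node ⟨nat_lit 7, nat_lit 0x4000100060, nat_lit 0x111221, nat_lit 1, nat_lit 4, nat_lit 0x49⟩ (.nil) (.nil)
def t14_9410 : Tr := .node ⟨nat_lit 7, nat_lit 0x10003000600050, nat_lit 0x1003102, nat_lit 0, nat_lit 4, nat_lit 0x47⟩ (.nil) (.nil)
def t14_5314 : Tr := .node ⟨nat_lit 6, nat_lit 0x280030, nat_lit 0x111202, nat_lit 4, nat_lit 4, nat_lit 0x49⟩ (.nil) (.nil)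
def t14_13506 : Tr := .node ⟨nat_lit 6, nat_lit 0x800080030, nat_lit 2, nat_lit 7, nat_lit 4, nat_lit 0x47⟩ (.nil) (.nil)
def t14_3266 : Tr := .node ⟨nat_lit 7, nat_lit 0x20002000200040, nat_lit 0x1012100, nat_lit 1, nat_lit 4, nat_lit 0x49⟩ (.nil) (.nil)
def t14_11458 : Tr := .node ⟨nat_lit 0xa, nat_lit 0x800200004003000300, nat_lit 0x101020, nat_lit 1, nat_lit 4, nat_lit 0x4a⟩ (.nil) (.nil)
def t14_7362 : Tr := .node ⟨nat_lit 8, nat_lit 0x4000200020008000c2, nat_lit 0x21010011, nat_lit 1, nat_lit 4, nat_lit 0x49⟩ (.nil) (.nil)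
def t14_15554 : Tr := .node ⟨nat_lit 8, nat_lit 0x80008000880088, nat_lit 0x11111111, nat_lit 2, nat_lit 4, nat_lit 0x4b⟩ (.nil) (.nil)
def t14_706 : Tr := .node ⟨nat_lit 7, nat_lit 0x40001000480060, nat_lit 0x113111, nat_lit 0, nat_lit 4, nat_lit 0x48⟩ (.nil) (.nil)
def t14_8898 : Tr := .node ⟨nat_lit 7, nat_lit 0x40004000480048, nat_lit 0x111021, nat_lit 6, nat_lit 4, nat_lit 0x49⟩ (.nil) (.nil)
def t14_4802 : Tr := .node ⟨nat_lit 6, nat_lit 0x20001000280034, nat_lit 0x12200, nat_lit 2, nat_lit 4, nat_lit 0x46⟩ (.nil) (.nil)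
def t14_12994 : Tr := .node ⟨nat_lit 5, nat_lit 0x100018001c, nat_lit 0x300, nat_lit 9, nat_lit 4, nat_lit 0x46⟩ (.nil) (.nil)
def t14_2754 : Tr := .node ⟨nat_lit 7, nat_lit 0x3000500060, nat_lit 0x1002021, nat_lit 0, nat_lit 4, nat_lit 0x47⟩ (.nil) (.nil)
def t14_10946 : Tr := .node ⟨nat_lit 0xa, nat_lit 0x1000100020002000180018002200300, nat_lit 0x1201002, nat_lit 0, nat_lit 4, nat_lit 0x48⟩ (.nil) (.nil)
def t14_6850 : Tr := .node ⟨nat_lit 6, nat_lit 0x2000240034, nat_lit 0x111202, nat_lit 3, nat_lit 4, nat_lit 0x48⟩ (.nil) (.nil)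
def t14_15042 : Tr := .node ⟨nat_lit 6, nat_lit 0x20002000280030, nat_lit 0x11011, nat_lit 0xb, nat_lit 4, nat_lit 0x48⟩ (.nil) (.nil)
def t14_1730 : Tr := .node ⟨nat_lit 7, nat_lit 0x200020004000400060, nat_lit 0x1021111, nat_lit 0, nat_lit 3, nat_lit 0x46⟩ (.nil) (.nil)
def t14_9922 : Tr := .node ⟨nat_lit 6, nat_lit 0x800300030, nat_lit 0x33, nat_lit 4, nat_lit 4, nat_lit 0x46⟩ (.nil) (.nil)
def t14_5826 : Tr := .node ⟨nat_lit 6, nat_lit 0x300030, nat_lit 0x1121, nat_lit 7, nat_lit 4, nat_lit 0x48⟩ (.nil) (.nil)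
def t14_14018 : Tr := .node ⟨nat_lit 6, nat_lit 0x280030, nat_lit 0x10102, nat_lit 6, nat_lit 4, nat_lit 0x48⟩ (.nil) (.nil)
def t14_3778 : Tr := .node ⟨nat_lit 5, nat_lit 0x18, nat_lit 0x210, nat_lit 1, nat_lit 3, nat_lit 0x46⟩ (.nil) (.nil)
def t14_11970 : Tr := .node ⟨nat_lit 8, nat_lit 0x2000400080008000c0, nat_lit 0x1001220, nat_lit 1, nat_lit 4, nat_lit 0x49⟩ (.nil) (.nil)
def t14_7874 : Tr := .node ⟨nat_lit 6, nat_lit 0x2000280034, nat_lit 0x210, nat_lit 1, nat_lit 4, nat_lit 0x45⟩ (.nil) (.nil)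
def t9_194 : Tr := .node ⟨nat_lit 6, nat_lit 0x2000200010, nat_lit 0x23101, nat_lit 1, nat_lit 4, nat_lit 0x49⟩ (.node ⟨nat_lit 7, nat_lit 0x400020005000500070, nat_lit 0x3101102, nat_lit 1, nat_lit 4, nat_lit 0x48⟩ (.node ⟨nat_lit 5, nat_lit 0x1000100014, nat_lit 0x3212, nat_lit 5, nat_lit 4, nat_lit 0x48⟩ (.node ⟨nat_lit 5, nat_lit 0x40018, nat_lit 0x21204, nat_lit 0, nat_lit 4, nat_lit 0x48⟩ (.node ⟨nat_lit 6, nat_lit 0x20002000200010, nat_lit 0x22102, nat_lit 5, nat_lit 4, nat_lit 0x49⟩ (t14_194) (t14_8386)) (.node ⟨nat_lit 6, nat_lit 0x20001000280028, nat_lit 0x11021, nat_lit 2, nat_lit 4, nat_lit 0x46⟩ (t14_4290) (t14_12482))) (.node ⟨nat_lit 6, nat_lit 0x2000240030, nat_lit 0x122103, nat_lit 2, nat_lit 4, nat_lit 0x49⟩ (.node ⟨nat_lit 7, nat_lit 0x1000600070, nat_lit 0x11123, nat_lit 0, nat_lit 4, nat_lit 0x47⟩ (t14_2242) (t14_10434)) (.node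 ⟨nat_lit 8, nat_lit 0x80008000c0, nat_lit 0x1211202, nat_lit 0, nat_lit 4, nat_lit 0x4b⟩ (t14_6338) (t14_14530)))) (.node ⟨nat_lit 4, nat_lit 8, nat_lit 0x1211, nat_lit 7, nat_lit 4, nat_lit 0x48⟩ (.node ⟨nat_lit 7, nat_lit 0x4000100060, nat_lit 0x1211211, nat_lit 0, nat_lit 4, nat_lit 0x4a⟩ (.node ⟨nat_lit 4, nat_lit 8, nat_lit 0x1114, nat_lit 7, nat_lit 4, nat_lit 0x49⟩ (t14_1218) (t14_9410)) (.node ⟨nat_lit 7, nat_lit 0x4000500060, nat_lit 0x1112121, nat_lit 0, nat_lit 4, nat_lit 0x49⟩ (t14_5314) (t14_13506))) (.node ⟨nat_lit 6, nat_lit 0x2000080030, nat_lit 0x101320, nat_lit 1, nat_lit 4, nat_lit 0x48⟩ (.node ⟨nat_lit 7, nat_lit 0x4000400020, nat_lit 0x110000, nat_lit 0, nat_lit 4, nat_lit 0x48⟩ (t14_3266) (t14_11458)) (.node ⟨nat_lit 6, nat_lit 0x800080030, nat_lit 0x111102, nat_lit 3, nat_lit 4, nat_lit 0x48⟩ (t14_7362) (t14_15554))))) (.node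 ⟨nat_lit 3, nat_lit 4, nat_lit 0x131, nat_lit 9, nat_lit 4, nat_lit 0x47⟩ (.node ⟨nat_lit 4, nat_lit 0xc, nat_lit 0x1021, nat_lit 3, nat_lit 4, nat_lit 0x45⟩ (.node ⟨nat_lit 6, nat_lit 0x2000080030, nat_lit 0x110221, nat_lit 0, nat_lit 4, nat_lit 0x47⟩ (.node ⟨nat_lit 6, nat_lit 0x2000080030, nat_lit 0x112002, nat_lit 2, nat_lit 4, nat_lit 0x48⟩ (t14_706) (t14_8898)) (.node ⟨nat_lit 7, nat_lit 0x20005000500068, nat_lit 0x102310, nat_lit 0, nat_lit 4, nat_lit 0x46⟩ (t14_4802) (t14_12994))) (.node ⟨nat_lit 6, nat_lit 0x2000080030, nat_lit 0x1010, nat_lit 0, nat_lit 4, nat_lit 0x45⟩ (.node ⟨nat_lit 6, nat_lit 0x2000080034, nat_lit 0x21213, nat_lit 0, nat_lit 4, nat_lit 0x47⟩ (t14_2754) (t14_10946)) (.node ⟨nat_lit 7, nat_lit 0x40005800680070, nat_lit 0x1111122, nat_lit 1, nat_lit 4, nat_lit 0x46⟩ (t14_6850) (t14_15042)))) (.node ⟨nat_lit 5, nat_lit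 0x100010, nat_lit 0x11122, nat_lit 4, nat_lit 4, nat_lit 0x49⟩ (.node ⟨nat_lit 5, nat_lit 0x800080010, nat_lit 0x11112, nat_lit 2, nat_lit 4, nat_lit 0x47⟩ (.node ⟨nat_lit 7, nat_lit 0x4000480070, nat_lit 0x110013, nat_lit 2, nat_lit 4, nat_lit 0x47⟩ (t14_1730) (t14_9922)) (.node ⟨nat_lit 7, nat_lit 0x40004000400048, nat_lit 0x221101, nat_lit 4, nat_lit 4, nat_lit 0x4a⟩ (t14_5826) (t14_14018))) (.node ⟨nat_lit 7, nat_lit 0x800600050, nat_lit 0x221102, nat_lit 0, nat_lit 4, nat_lit 0x49⟩ (.node ⟨nat_lit 7, nat_lit 0x20001000600050, nat_lit 0x110103, nat_lit 0, nat_lit 4, nat_lit 0x47⟩ (t14_3778) (t14_11970)) (.node ⟨nat_lit 7, nat_lit 0x6000600060, nat_lit 0x1011221, nat_lit 0, nat_lit 4, nat_lit 0x48⟩ (t14_7874) (.nil)))))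
def t14_450 : Tr := .node ⟨nat_lit 8, nat_lit 0x8000200020009000c0, nat_lit 0x11111011, nat_lit 1, nat_lit 4, nat_lit 0x49⟩ (.nil) (.nil)
def t14_8642 : Tr := .node ⟨nat_lit 4, nat_lit 0, nat_lit 0, nat_lit 1, nat_lit 4, nat_lit 0x43⟩ (.nil) (.nil)
def t14_4546 : Tr := .node ⟨nat_lit 5, nat_lit 0x1000180018, nat_lit 0x1221, nat_lit 8, nat_lit 4, nat_lit 0x47⟩ (.nil) (.nil)
def t14_12738 : Tr := .node ⟨nat_lit 6, nat_lit 0x2000080030, nat_lit 0x21200, nat_lit 3, nat_lit 4, nat_lit 0x48⟩ (.nil) (.nil)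
def t14_2498 : Tr := .node ⟨nat_lit 7, nat_lit 0x800500060, nat_lit 0x120020, nat_lit 1, nat_lit 4, nat_lit 0x48⟩ (.nil) (.nil)
def t14_10690 : Tr := .node ⟨nat_lit 6, nat_lit 0x1000300028, nat_lit 0x1020, nat_lit 1, nat_lit 4, nat_lit 0x45⟩ (.nil) (.nil)
def t14_6594 : Tr := .node ⟨nat_lit 6, nat_lit 0x2000300034, nat_lit 0x101202, nat_lit 3, nat_lit 4, nat_lit 0x47⟩ (.nil) (.nil)
def t14_14786 : Tr := .node ⟨nat_lit 7, nat_lit 0x200020004000440060, nat_lit 0x1011202, nat_lit 3, nat_lit 4, nat_lit 0x48⟩ (.nil) (.nil)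
def t14_1474 : Tr := .node ⟨nat_lit 6, nat_lit 0x10001000200038, nat_lit 0x102111, nat_lit 4, nat_lit 4, nat_lit 0x47⟩ (.nil) (.nil)
def t14_9666 : Tr := .node ⟨nat_lit 7, nat_lit 0x40001000600070, nat_lit 0x100022, nat_lit 1, nat_lit 4, nat_lit 0x46⟩ (.nil) (.nil)
def t14_5570 : Tr := .node ⟨nat_lit 8, nat_lit 0x80008400c0, nat_lit 0x1111220, nat_lit 0, nat_lit 4, nat_lit 0x4a⟩ (.nil) (.nil)
def t14_13762 : Tr := .node ⟨nat_lit 8, nat_lit 0x8000400020002000d0, nat_lit 0x20000, nat_lit 1, nat_lit 4, nat_lit 0x47⟩ (.nil) (.nil)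
def t14_3522 : Tr := .node ⟨nat_lit 7, nat_lit 0x1000600050, nat_lit 0x1001, nat_lit 0, nat_lit 4, nat_lit 0x46⟩ (.nil) (.nil)
def t14_11714 : Tr := .node ⟨nat_lit 7, nat_lit 0x40004800300030, nat_lit 0x1001110, nat_lit 1, nat_lit 4, nat_lit 0x46⟩ (.nil) (.nil)
def t14_7618 : Tr := .node ⟨nat_lit 8, nat_lit 0x2000800040004000c0, nat_lit 0x2113, nat_lit 0, nat_lit 4, nat_lit 0x48⟩ (.nil) (.nil)
def t14_962 : Tr := .node ⟨nat_lit 5, nat_lit 0x40018, nat_lit 0x20003, nat_lit 5, nat_lit 4, nat_lit 0x47⟩ (.nil) (.nil)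
def t14_9154 : Tr := .node ⟨nat_lit 8, nat_lit 0x800080004000a000c000e0, nat_lit 0x20021, nat_lit 3, nat_lit 4, nat_lit 0x47⟩ (.nil) (.nil)
def t14_5058 : Tr := .node ⟨nat_lit 7, nat_lit 0x20004000440060, nat_lit 0x1011001, nat_lit 1, nat_lit 4, nat_lit 0x47⟩ (.nil) (.nil)
def t14_13250 : Tr := .node ⟨nat_lit 6, nat_lit 0x20002800280030, nat_lit 0x2100, nat_lit 7, nat_lit 4, nat_lit 0x47⟩ (.nil) (.nil)
def t14_3010 : Tr := .node ⟨nat_lit 7, nat_lit 0x200040004800300070, nat_lit 0x213001, nat_lit 0, nat_lit 4, nat_lit 0x47⟩ (.nil) (.nil)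
def t14_11202 : Tr := .node ⟨nat_lit 7, nat_lit 0x10004000600060, nat_lit 0x1000120, nat_lit 1, nat_lit 4, nat_lit 0x47⟩ (.nil) (.nil)
def t14_7106 : Tr := .node ⟨nat_lit 6, nat_lit 0x2000300030, nat_lit 0x103111, nat_lit 3, nat_lit 4, nat_lit 0x48⟩ (.nil) (.nil)
def t14_15298 : Tr := .node ⟨nat_lit 8, nat_lit 0x4000a0006000c0, nat_lit 0x111120, nat_lit 1, nat_lit 4, nat_lit 0x48⟩ (.nil) (.nil)
def t14_1986 : Tr := .node ⟨nat_lit 4, nat_lit 0x8000c, nat_lit 0x210, nat_lit 9, nat_lit 4, nat_lit 0x46⟩ (.nil) (.nil)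
def t14_10178 : Tr := .node ⟨nat_lit 6, nat_lit 0x800300038, nat_lit 0x100102, nat_lit 2, nat_lit 4, nat_lit 0x45⟩ (.nil) (.nil)
def t14_6082 : Tr := .node ⟨nat_lit 9, nat_lit 0x10000800040, nat_lit 0x1111000, nat_lit 5, nat_lit 4, nat_lit 0x4d⟩ (.nil) (.nil)
def t14_14274 : Tr := .node ⟨nat_lit 7, nat_lit 0x10001000200040, nat_lit 0x1000021, nat_lit 2, nat_lit 4, nat_lit 0x48⟩ (.nil) (.nil)
def t14_4034 : Tr := .node ⟨nat_lit 7, nat_lit 0x10002000500060, nat_lit 0x110121, nat_lit 0, nat_lit 4, nat_lit 0x47⟩ (.nil) (.nil)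
def t14_12226 : Tr := .node ⟨nat_lit 7, nat_lit 0x400060, nat_lit 0x111010, nat_lit 0, nat_lit 4, nat_lit 0x49⟩ (.nil) (.nil)
def t14_8130 : Tr := .node ⟨nat_lit 3, nat_lit 0x40004, nat_lit 0x30, nat_lit 7, nat_lit 3, nat_lit 0x44⟩ (.nil) (.nil)
def t9_450 : Tr := .node ⟨nat_lit 6, nat_lit 0x1000200020, nat_lit 0x31320, nat_lit 0, nat_lit 4, nat_lit 0x4a⟩ (.node ⟨nat_lit 5, nat_lit 0x10001c001c, nat_lit 0x31122, nat_lit 4, nat_lit 4, nat_lit 0x47⟩ (.node ⟨nat_lit 6, nat_lit 0x200030, nat_lit 0x22112, nat_lit 1, nat_lit 4, nat_lit 0x49⟩ (.node ⟨nat_lit 5, nat_lit 0x800100018, nat_lit 0x1222, nat_lit 2, nat_lit 4, nat_lit 0x46⟩ (.node ⟨nat_lit 5, nat_lit 0x140018, nat_lit 0x3001, nat_lit 2, nat_lit 4, nat_lit 0x46⟩ (t14_450) (t14_8642)) (.node ⟨nat_lit 5, nat_lit 0x1000100008, nat_lit 0x12202, nat_lit 7, nat_lit 4, nat_lit 0x49⟩ (t14_4546) (t14_12738)))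 (.node ⟨nat_lit 4, nat_lit 0x8000e, nat_lit 0x1122, nat_lit 6, nat_lit 4, nat_lit 0x46⟩ (.node ⟨nat_lit 7, nat_lit 0x20001000400070, nat_lit 0x1111103, nat_lit 2, nat_lit 4, nat_lit 0x48⟩ (t14_2498) (t14_10690)) (.node ⟨nat_lit 5, nat_lit 0, nat_lit 0x22211, nat_lit 5, nat_lit 3, nat_lit 0x4a⟩ (t14_6594) (t14_14786)))) (.node ⟨nat_lit 6, nat_lit 0x1000100020, nat_lit 0x102000, nat_lit 1, nat_lit 4, nat_lit 0x47⟩ (.node ⟨nat_lit 6, nat_lit 0x2000100032, nat_lit 0x122221, nat_lit 1, nat_lit 4, nat_lit 0x49⟩ (.node ⟨nat_lit 7, nat_lit 0x20002000400060, nat_lit 0x11010, nat_lit 0, nat_lit 4, nat_lit 0x47⟩ (t14_1474) (t14_9666)) (.node ⟨nat_lit 8, nat_lit 0x800020008800c0, nat_lit 0x11112011, nat_lit 0, nat_lit 4, nat_lit 0x4a⟩ (t14_5570) (t14_13762))) (.node ⟨nat_lit 6, nat_lit 0x2000200010, nat_lit 0x11212, nat_lit 1, nat_lit 4, nat_lit 0x48⟩ (.node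 ⟨nat_lit 6, nat_lit 0x800300030, nat_lit 0x1000, nat_lit 3, nat_lit 4, nat_lit 0x45⟩ (t14_3522) (t14_11714)) (.node ⟨nat_lit 5, nat_lit 0x100018, nat_lit 0x20130, nat_lit 1, nat_lit 3, nat_lit 0x47⟩ (t14_7618) (.nil))))) (.node ⟨nat_lit 6, nat_lit 0x800200032, nat_lit 0x320101, nat_lit 0, nat_lit 4, nat_lit 0x48⟩ (.node ⟨nat_lit 5, nat_lit 0x10, nat_lit 0x12210, nat_lit 1, nat_lit 3, nat_lit 0x48⟩ (.node ⟨nat_lit 7, nat_lit 0x1000200040, nat_lit 0x1111110, nat_lit 3, nat_lit 4, nat_lit 0x4a⟩ (.node ⟨nat_lit 4, nat_lit 0x8000a, nat_lit 0x2130, nat_lit 0xb, nat_lit 4, nat_lit 0x49⟩ (t14_962) (t14_9154)) (.node ⟨nat_lit 5, nat_lit 0, nat_lit 0x22221, nat_lit 2, nat_lit 3, nat_lit 0x4a⟩ (t14_5058) (t14_13250))) (.node ⟨nat_lit 5, nat_lit 0x40018, nat_lit 0x10131, nat_lit 3, nat_lit 4, nat_lit 0x47⟩ (.node ⟨nat_lit 6, nat_lit 0x2000280030, nat_lit 0x11012,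 nat_lit 1, nat_lit 3, nat_lit 0x45⟩ (t14_3010) (t14_11202)) (.node ⟨nat_lit 9, nat_lit 0x10000800040004001200180, nat_lit 0x100201002, nat_lit 2, nat_lit 4, nat_lit 0x49⟩ (t14_7106) (t14_15298)))) (.node ⟨nat_lit 4, nat_lit 0xc, nat_lit 0x2021, nat_lit 9, nat_lit 4, nat_lit 0x48⟩ (.node ⟨nat_lit 8, nat_lit 0x10002000c0, nat_lit 0x20111111, nat_lit 0, nat_lit 4, nat_lit 0x4b⟩ (.node ⟨nat_lit 6, nat_lit 0x2000300030, nat_lit 0x12131, nat_lit 3, nat_lit 4, nat_lit 0x48⟩ (t14_1986) (t14_10178)) (.node ⟨nat_lit 8, nat_lit 0x200020004000a000c0, nat_lit 0x1020200, nat_lit 1, nat_lit 4, nat_lit 0x48⟩ (t14_6082) (t14_14274))) (.node ⟨nat_lit 6, nat_lit 0x2000200010, nat_lit 0x32100, nat_lit 1, nat_lit 3, nat_lit 0x48⟩ (.node ⟨nat_lit 7, nat_lit 0x10006000600050, nat_lit 0x111003, nat_lit 0, nat_lit 4, nat_lit 0x47⟩ (t14_4034) (t14_12226)) (.node ⟨nat_lit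 7, nat_lit 0x40001000500068, nat_lit 0x1111121, nat_lit 1, nat_lit 4, nat_lit 0x48⟩ (t14_8130) (.nil)))))
def t14_34 : Tr := .node ⟨nat_lit 6, nat_lit 0x200020, nat_lit 0x111110, nat_lit 5, nat_lit 4, nat_lit 0x4a⟩ (.nil) (.nil)
def t14_8226 : Tr := .node ⟨nat_lit 8, nat_lit 0x800088008800c0, nat_lit 0x111310, nat_lit 2, nat_lit 4, nat_lit 0x49⟩ (.nil) (.nil)
def t14_4130 : Tr := .node ⟨nat_lit 6, nat_lit 0x20001000100010, nat_lit 0x100211, nat_lit 1, nat_lit 3, nat_lit 0x46⟩ (.nil) (.nil)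
def t14_12322 : Tr := .node ⟨nat_lit 8, nat_lit 0x3000a000a000c0, nat_lit 0x1001301, nat_lit 1, nat_lit 4, nat_lit 0x47⟩ (.nil) (.nil)
def t14_2082 : Tr := .node ⟨nat_lit 8, nat_lit 0x800080004000400040, nat_lit 0x200310, nat_lit 1, nat_lit 4, nat_lit 0x4a⟩ (.nil) (.nil)
def t14_10274 : Tr := .node ⟨nat_lit 7, nat_lit 0x5000600028, nat_lit 0x100210, nat_lit 0, nat_lit 4, nat_lit 0x46⟩ (.nil) (.nil)
def t14_6178 : Tr := .node ⟨nat_lit 5, nat_lit 0x100010001c, nat_lit 0x1101, nat_lit 7, nat_lit 4, nat_lit 0x46⟩ (.nil) (.nil)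
def t14_14370 : Tr := .node ⟨nat_lit 8, nat_lit 0x20003000c000c0, nat_lit 0x1110, nat_lit 0, nat_lit 4, nat_lit 0x46⟩ (.nil) (.nil)
def t14_1058 : Tr := .node ⟨nat_lit 5, nat_lit 0x100012, nat_lit 0x1120, nat_lit 4, nat_lit 4, nat_lit 0x47⟩ (.nil) (.nil)
def t14_9250 : Tr := .node ⟨nat_lit 7, nat_lit 0x200020004000400060, nat_lit 0x1020111, nat_lit 0, nat_lit 3, nat_lit 0x46⟩ (.nil) (.nil)
def t14_5154 : Tr := .node ⟨nat_lit 7, nat_lit 0x40004000100060, nat_lit 0x103101, nat_lit 0, nat_lit 4, nat_lit 0x48⟩ (.nil) (.nil)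
def t14_13346 : Tr := .node ⟨nat_lit 5, nat_lit 0x1000080008, nat_lit 0x10240, nat_lit 1, nat_lit 3, nat_lit 0x46⟩ (.nil) (.nil)
def t14_3106 : Tr := .node ⟨nat_lit 7, nat_lit 0x40001000600068, nat_lit 0x12010, nat_lit 0, nat_lit 4, nat_lit 0x46⟩ (.nil) (.nil)
def t14_11298 : Tr := .node ⟨nat_lit 6, nat_lit 0x2800300030, nat_lit 0x1230, nat_lit 3, nat_lit 4, nat_lit 0x46⟩ (.nil) (.nil)
def t14_7202 : Tr := .node ⟨nat_lit 7, nat_lit 0x20006000500068, nat_lit 0x21112, nat_lit 0, nat_lit 4, nat_lit 0x46⟩ (.nil) (.nil)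
def t14_15394 : Tr := .node ⟨nat_lit 0xa, nat_lit 0x2000100010000800080, nat_lit 0x1101010, nat_lit 4, nat_lit 4, nat_lit 0x4c⟩ (.nil) (.nil)
def t14_546 : Tr := .node ⟨nat_lit 6, nat_lit 0x2000080034, nat_lit 0x201, nat_lit 1, nat_lit 4, nat_lit 0x45⟩ (.nil) (.nil)
def t14_8738 : Tr := .node ⟨nat_lit 7, nat_lit 0x20004000440060, nat_lit 0x1110, nat_lit 0, nat_lit 4, nat_lit 0x46⟩ (.nil) (.nil)
def t14_4642 : Tr := .node ⟨nat_lit 7, nat_lit 0x1000500060, nat_lit 0x111210, nat_lit 0, nat_lit 4, nat_lit 0x48⟩ (.nil) (.nil)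
def t14_12834 : Tr := .node ⟨nat_lit 8, nat_lit 0x2000c000c000a0, nat_lit 0x10220, nat_lit 0, nat_lit 4, nat_lit 0x47⟩ (.nil) (.nil)
def t14_2594 : Tr := .node ⟨nat_lit 5, nat_lit 0x140018, nat_lit 0x12030, nat_lit 2, nat_lit 4, nat_lit 0x46⟩ (.nil) (.nil)
def t14_10786 : Tr := .node ⟨nat_lit 8, nat_lit 0x80004000100020, nat_lit 0x210011, nat_lit 4, nat_lit 3, nat_lit 0x49⟩ (.nil) (.nil)
def t14_6690 : Tr := .node ⟨nat_lit 7, nat_lit 0x40004000200020, nat_lit 0x11010, nat_lit 7, nat_lit 4, nat_lit 0x49⟩ (.nil) (.nil)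
def t14_14882 : Tr := .node ⟨nat_lit 8, nat_lit 0x800040, nat_lit 0x1221100, nat_lit 0, nat_lit 3, nat_lit 0x4b⟩ (.nil) (.nil)
def t14_1570 : Tr := .node ⟨nat_lit 8, nat_lit 0x800040004000a000c0, nat_lit 0x122002, nat_lit 0, nat_lit 4, nat_lit 0x48⟩ (.nil) (.nil)
def t14_9762 : Tr := .node ⟨nat_lit 6, nat_lit 0x800300038, nat_lit 0x30, nat_lit 0, nat_lit 4, nat_lit 0x44⟩ (.nil) (.nil)
def t14_5666 : Tr := .node ⟨nat_lit 7, nat_lit 0x4000400060, nat_lit 0x11002, nat_lit 1, nat_lit 4, nat_lit 0x48⟩ (.nil) (.nil)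
def t14_13858 : Tr := .node ⟨nat_lit 7, nat_lit 0x40001000100060, nat_lit 0x102300, nat_lit 1, nat_lit 4, nat_lit 0x48⟩ (.nil) (.nil)
def t14_3618 : Tr := .node ⟨nat_lit 6, nat_lit 0x2000300030, nat_lit 0x2010, nat_lit 5, nat_lit 4, nat_lit 0x47⟩ (.nil) (.nil)
def t14_11810 : Tr := .node ⟨nat_lit 6, nat_lit 0x10001000200022, nat_lit 0x102103, nat_lit 1, nat_lit 4, nat_lit 0x46⟩ (.nil) (.nil)
def t14_7714 : Tr := .node ⟨nat_lit 6, nat_lit 0x80030, nat_lit 0x1102, nat_lit 2, nat_lit 4, nat_lit 0x47⟩ (.nil) (.nil)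
def t9_34 : Tr := .node ⟨nat_lit 5, nat_lit 0x10, nat_lit 0x33111, nat_lit 3, nat_lit 4, nat_lit 0x4b⟩ (.node ⟨nat_lit 4, nat_lit 0xc, nat_lit 0x2232, nat_lit 3, nat_lit 4, nat_lit 0x49⟩ (.node ⟨nat_lit 6, nat_lit 0x2000300030, nat_lit 0x4220, nat_lit 1, nat_lit 4, nat_lit 0x48⟩ (.node ⟨nat_lit 5, nat_lit 0x100018, nat_lit 0x10211, nat_lit 4, nat_lit 4, nat_lit 0x47⟩ (.node ⟨nat_lit 6, nat_lit 0x2000200030, nat_lit 0x22103, nat_lit 3, nat_lit 4, nat_lit 0x49⟩ (t14_34) (t14_8226)) (.node ⟨nat_lit 6, nat_lit 0x1000200030, nat_lit 0x12000, nat_lit 2, nat_lit 4, nat_lit 0x47⟩ (t14_4130) (t14_12322))) (.node ⟨nat_lit 5, nat_lit 0x100018, nat_lit 0x21112, nat_lit 8, nat_lit 4, nat_lit 0x49⟩ (.node ⟨nat_lit 5, nat_lit 0x10, nat_lit 0x1114, nat_lit 0, nat_lit 3, nat_lit 0x47⟩ (t14_2082) (t14_10274)) (.node ⟨nat_lit 8, nat_lit 0x200020004000a000c0, nat_lit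 0x1021200, nat_lit 0, nat_lit 4, nat_lit 0x48⟩ (t14_6178) (t14_14370)))) (.node ⟨nat_lit 6, nat_lit 0x2000080030, nat_lit 0x2320, nat_lit 2, nat_lit 4, nat_lit 0x48⟩ (.node ⟨nat_lit 6, nat_lit 0x800280030, nat_lit 0x211211, nat_lit 1, nat_lit 4, nat_lit 0x48⟩ (.node ⟨nat_lit 5, nat_lit 0x40018, nat_lit 0x11121, nat_lit 2, nat_lit 4, nat_lit 0x47⟩ (t14_1058) (t14_9250)) (.node ⟨nat_lit 5, nat_lit 0x80010, nat_lit 0x12102, nat_lit 5, nat_lit 4, nat_lit 0x49⟩ (t14_5154) (t14_13346))) (.node ⟨nat_lit 5, nat_lit 0x800080010, nat_lit 0x11201, nat_lit 7, nat_lit 4, nat_lit 0x48⟩ (.node ⟨nat_lit 8, nat_lit 0x4000800020002000c0, nat_lit 0x11000103, nat_lit 1, nat_lit 4, nat_lit 0x49⟩ (t14_3106) (t14_11298)) (.node ⟨nat_lit 8, nat_lit 0x20004000a000c000c8, nat_lit 0x1002220, nat_lit 0, nat_lit 4, nat_lit 0x47⟩ (t14_7202) (t14_15394))))) (.node ⟨nat_lit 6,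 nat_lit 0x20, nat_lit 0x32112, nat_lit 1, nat_lit 4, nat_lit 0x4b⟩ (.node ⟨nat_lit 5, nat_lit 0, nat_lit 0x22111, nat_lit 1, nat_lit 3, nat_lit 0x49⟩ (.node ⟨nat_lit 5, nat_lit 0x80010001a, nat_lit 0x20100, nat_lit 3, nat_lit 4, nat_lit 0x45⟩ (.node ⟨nat_lit 8, nat_lit 0x80008000900090009000e0, nat_lit 0x2002101, nat_lit 1, nat_lit 4, nat_lit 0x47⟩ (t14_546) (t14_8738)) (.node ⟨nat_lit 7, nat_lit 0x40002000500068, nat_lit 0x1112012, nat_lit 1, nat_lit 4, nat_lit 0x48⟩ (t14_4642) (t14_12834))) (.node ⟨nat_lit 3, nat_lit 6, nat_lit 0x111, nat_lit 6, nat_lit 4, nat_lit 0x44⟩ (.node ⟨nat_lit 5, nat_lit 0x180018, nat_lit 0x11230, nat_lit 5, nat_lit 4, nat_lit 0x48⟩ (t14_2594) (t14_10786)) (.node ⟨nat_lit 7, nat_lit 0x4000600060, nat_lit 0x121120, nat_lit 1, nat_lit 4, nat_lit 0x49⟩ (t14_6690) (t14_14882)))) (.node ⟨nat_lit 6, nat_lit 0x2000080010, nat_lit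 0x21021, nat_lit 0, nat_lit 4, nat_lit 0x48⟩ (.node ⟨nat_lit 5, nat_lit 0x180018, nat_lit 0x20211, nat_lit 4, nat_lit 4, nat_lit 0x47⟩ (.node ⟨nat_lit 5, nat_lit 0x1000100018, nat_lit 0x1103, nat_lit 7, nat_lit 4, nat_lit 0x47⟩ (t14_1570) (t14_9762)) (.node ⟨nat_lit 6, nat_lit 0x2000100038, nat_lit 0x110111, nat_lit 0, nat_lit 4, nat_lit 0x46⟩ (t14_5666) (t14_13858))) (.node ⟨nat_lit 7, nat_lit 0x1000080060, nat_lit 0x2000002, nat_lit 2, nat_lit 4, nat_lit 0x48⟩ (.node ⟨nat_lit 7, nat_lit 0x40001000500068, nat_lit 0x101000, nat_lit 2, nat_lit 4, nat_lit 0x46⟩ (t14_3618) (t14_11810)) (.node ⟨nat_lit 8, nat_lit 0x2000800040008800c4, nat_lit 0x11001200, nat_lit 1, nat_lit 4, nat_lit 0x48⟩ (t14_7714) (.nil)))))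
def t14_290 : Tr := .node ⟨nat_lit 8, nat_lit 0x2000a0006000c0, nat_lit 0x1021211, nat_lit 0, nat_lit 4, nat_lit 0x48⟩ (.nil) (.nil)
def t14_8482 : Tr := .node ⟨nat_lit 5, nat_lit 0x1000140018, nat_lit 0x1241, nat_lit 5, nat_lit 4, nat_lit 0x47⟩ (.nil) (.nil)
def t14_4386 : Tr := .node ⟨nat_lit 7, nat_lit 0x400020002000500068, nat_lit 0x1100002, nat_lit 1, nat_lit 4, nat_lit 0x46⟩ (.nil) (.nil)
def t14_12578 : Tr := .node ⟨nat_lit 7, nat_lit 0x40005000300060, nat_lit 0x11031, nat_lit 0, nat_lit 4, nat_lit 0x46⟩ (.nil) (.nil)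
def t14_2338 : Tr := .node ⟨nat_lit 6, nat_lit 0x800200030, nat_lit 0x20300, nat_lit 1, nat_lit 4, nat_lit 0x47⟩ (.nil) (.nil)
def t14_10530 : Tr := .node ⟨nat_lit 7, nat_lit 0x20002000500060, nat_lit 0x12002, nat_lit 0, nat_lit 4, nat_lit 0x47⟩ (.nil) (.nil)
def t14_6434 : Tr := .node ⟨nat_lit 7, nat_lit 0x20004000400044, nat_lit 0x1010111, nat_lit 4, nat_lit 4, nat_lit 0x49⟩ (.nil) (.nil)
def t14_14626 : Tr := .node ⟨nat_lit 8, nat_lit 0x800090009000a000c0, nat_lit 0x1111111, nat_lit 3, nat_lit 4, nat_lit 0x48⟩ (.nil) (.nil)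
def t14_1314 : Tr := .node ⟨nat_lit 5, nat_lit 0x100018, nat_lit 0x1112, nat_lit 5, nat_lit 4, nat_lit 0x47⟩ (.nil) (.nil)
def t14_9506 : Tr := .node ⟨nat_lit 6, nat_lit 0x200020003000300028, nat_lit 0x111110, nat_lit 9, nat_lit 4, nat_lit 0x48⟩ (.nil) (.nil)
def t14_5410 : Tr := .node ⟨nat_lit 6, nat_lit 0x200030, nat_lit 0x11132, nat_lit 3, nat_lit 4, nat_lit 0x49⟩ (.nil) (.nil)
def t14_13602 : Tr := .node ⟨nat_lit 7, nat_lit 0x10004000600064, nat_lit 0x120, nat_lit 3, nat_lit 4, nat_lit 0x46⟩ (.nil) (.nil)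
def t14_3362 : Tr := .node ⟨nat_lit 8, nat_lit 0x80004000c000a000c8, nat_lit 0x120210, nat_lit 1, nat_lit 4, nat_lit 0x47⟩ (.nil) (.nil)
def t14_11554 : Tr := .node ⟨nat_lit 6, nat_lit 0x800200030, nat_lit 0x211210, nat_lit 0, nat_lit 3, nat_lit 0x47⟩ (.nil) (.nil)
def t14_7458 : Tr := .node ⟨nat_lit 8, nat_lit 0x10002000c000c0, nat_lit 0x10111111, nat_lit 1, nat_lit 4, nat_lit 0x49⟩ (.nil) (.nil)
def t14_802 : Tr := .node ⟨nat_lit 7, nat_lit 0x40004000400020, nat_lit 0x113101, nat_lit 3, nat_lit 4, nat_lit 0x4a⟩ (.nil) (.nil)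
def t14_8994 : Tr := .node ⟨nat_lit 8, nat_lit 0x8000800040009000a000c0, nat_lit 0x110012, nat_lit 1, nat_lit 4, nat_lit 0x47⟩ (.nil) (.nil)
def t14_4898 : Tr := .node ⟨nat_lit 7, nat_lit 0, nat_lit 0x1111111, nat_lit 0, nat_lit 3, nat_lit 0x4b⟩ (.nil) (.nil)
def t14_13090 : Tr := .node ⟨nat_lit 8, nat_lit 0x40008000800090006000e0, nat_lit 0x200002, nat_lit 1, nat_lit 4, nat_lit 0x46⟩ (.nil) (.nil)
def t14_2850 : Tr := .node ⟨nat_lit 6, nat_lit 0x20002c0034, nat_lit 0x110102, nat_lit 3, nat_lit 4, nat_lit 0x46⟩ (.nil) (.nil)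
def t14_11042 : Tr := .node ⟨nat_lit 7, nat_lit 0x1000080060, nat_lit 0x2100000, nat_lit 1, nat_lit 4, nat_lit 0x48⟩ (.nil) (.nil)
def t14_6946 : Tr := .node ⟨nat_lit 6, nat_lit 0x1000280030, nat_lit 0x121221, nat_lit 0, nat_lit 4, nat_lit 0x48⟩ (.nil) (.nil)
def t14_15138 : Tr := .node ⟨nat_lit 8, nat_lit 0x200080003000c000c0, nat_lit 0x111120, nat_lit 0, nat_lit 4, nat_lit 0x47⟩ (.nil) (.nil)
def t14_1826 : Tr := .node ⟨nat_lit 7, nat_lit 0x2000500064, nat_lit 0x1121120, nat_lit 0, nat_lit 4, nat_lit 0x49⟩ (.nil) (.nil)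
def t14_10018 : Tr := .node ⟨nat_lit 7, nat_lit 0x40002000600050, nat_lit 0x1012002, nat_lit 0, nat_lit 3, nat_lit 0x46⟩ (.nil) (.nil)
def t14_5922 : Tr := .node ⟨nat_lit 7, nat_lit 0x4000600060, nat_lit 0x11130, nat_lit 1, nat_lit 4, nat_lit 0x48⟩ (.nil) (.nil)
def t14_14114 : Tr := .node ⟨nat_lit 7, nat_lit 0x800500060, nat_lit 0x101, nat_lit 1, nat_lit 4, nat_lit 0x46⟩ (.nil) (.nil)
def t14_3874 : Tr := .node ⟨nat_lit 7, nat_lit 0x4000400060, nat_lit 0x211112, nat_lit 1, nat_lit 4, nat_lit 0x4a⟩ (.nil) (.nil)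
def t14_12066 : Tr := .node ⟨nat_lit 7, nat_lit 0x40002000500064, nat_lit 0x112001, nat_lit 5, nat_lit 4, nat_lit 0x48⟩ (.nil) (.nil)
def t14_7970 : Tr := .node ⟨nat_lit 5, nat_lit 0x10001000180018, nat_lit 0x1221, nat_lit 0xb, nat_lit 4, nat_lit 0x47⟩ (.nil) (.nil)
def t9_290 : Tr := .node ⟨nat_lit 6, nat_lit 0x300030, nat_lit 0x3221, nat_lit 1, nat_lit 4, nat_lit 0x48⟩ (.node ⟨nat_lit 5, nat_lit 0x40018, nat_lit 0x21320, nat_lit 1, nat_lit 4, nat_lit 0x49⟩ (.node ⟨nat_lit 0xb, nat_lit 0x4000200010000800040, nat_lit 0x300000, nat_lit 3, nat_lit 4, nat_lit 0x4d⟩ (.node ⟨nat_lit 3, nat_lit 0x40006, nat_lit 0x113, nat_lit 8, nat_lit 4, nat_lit 0x45⟩ (.node ⟨nat_lit 8, nat_lit 0x400080002000200088, nat_lit 0x10200210, nat_lit 1, nat_lit 4, nat_lit 0x4a⟩ (t14_290) (t14_8482)) (.node ⟨nat_lit 7, nat_lit 0x4000400060, nat_lit 0x1111003, nat_lit 0, nat_lit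 3, nat_lit 0x48⟩ (t14_4386) (t14_12578))) (.node ⟨nat_lit 7, nat_lit 0x4000500064, nat_lit 0x2001222, nat_lit 1, nat_lit 4, nat_lit 0x49⟩ (.node ⟨nat_lit 6, nat_lit 0x2000100030, nat_lit 0x112023, nat_lit 1, nat_lit 3, nat_lit 0x47⟩ (t14_2338) (t14_10530)) (.node ⟨nat_lit 7, nat_lit 0x4000600060, nat_lit 0x121210, nat_lit 1, nat_lit 4, nat_lit 0x49⟩ (t14_6434) (t14_14626)))) (.node ⟨nat_lit 6, nat_lit 0x800200030, nat_lit 0x21101, nat_lit 1, nat_lit 4, nat_lit 0x47⟩ (.node ⟨nat_lit 7, nat_lit 0x4000440030, nat_lit 0x2211102, nat_lit 0, nat_lit 4, nat_lit 0x4a⟩ (.node ⟨nat_lit 7, nat_lit 0x40002000200010, nat_lit 0x10003, nat_lit 3, nat_lit 3, nat_lit 0x47⟩ (t14_1314) (t14_9506)) (.node ⟨nat_lit 8, nat_lit 0x80004000a000c800b0, nat_lit 0x1120202, nat_lit 0, nat_lit 4, nat_lit 0x47⟩ (t14_5410) (t14_13602))) (.node ⟨nat_lit 4, nat_lit 0x80008, nat_lit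 0x1210, nat_lit 3, nat_lit 4, nat_lit 0x46⟩ (.node ⟨nat_lit 7, nat_lit 0x40002000480068, nat_lit 0x2111300, nat_lit 0, nat_lit 4, nat_lit 0x49⟩ (t14_3362) (t14_11554)) (.node ⟨nat_lit 7, nat_lit 0x2000400060, nat_lit 0x1111112, nat_lit 2, nat_lit 4, nat_lit 0x4a⟩ (t14_7458) (.nil))))) (.node ⟨nat_lit 5, nat_lit 0x18, nat_lit 0x21310, nat_lit 0, nat_lit 4, nat_lit 0x49⟩ (.node ⟨nat_lit 5, nat_lit 0x140018, nat_lit 0x12122, nat_lit 2, nat_lit 4, nat_lit 0x47⟩ (.node ⟨nat_lit 2, nat_lit 2, nat_lit 0x11, nat_lit 5, nat_lit 4, nat_lit 0x42⟩ (.node ⟨nat_lit 7, nat_lit 0x20001000400062, nat_lit 0x2021021, nat_lit 0, nat_lit 4, nat_lit 0x49⟩ (t14_802) (t14_8994)) (.node ⟨nat_lit 5, nat_lit 0x100018, nat_lit 0x11102, nat_lit 0xb, nat_lit 4, nat_lit 0x49⟩ (t14_4898) (t14_13090))) (.node ⟨nat_lit 5, nat_lit 0x1000100008, nat_lit 0x1111, nat_lit 3, nat_lit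 4, nat_lit 0x46⟩ (.node ⟨nat_lit 7, nat_lit 0x4000500060, nat_lit 0x121131, nat_lit 0, nat_lit 4, nat_lit 0x49⟩ (t14_2850) (t14_11042)) (.node ⟨nat_lit 8, nat_lit 0x8000800040009000e0, nat_lit 0x1110212, nat_lit 0, nat_lit 4, nat_lit 0x48⟩ (t14_6946) (t14_15138)))) (.node ⟨nat_lit 6, nat_lit 0x1000100020, nat_lit 0x111211, nat_lit 2, nat_lit 4, nat_lit 0x49⟩ (.node ⟨nat_lit 5, nat_lit 0x100010, nat_lit 0x21122, nat_lit 2, nat_lit 3, nat_lit 0x48⟩ (.node ⟨nat_lit 5, nat_lit 0x1000080008, nat_lit 0x111, nat_lit 2, nat_lit 4, nat_lit 0x45⟩ (t14_1826) (t14_10018)) (.node ⟨nat_lit 6, nat_lit 0x800280030, nat_lit 0x21022, nat_lit 2, nat_lit 4, nat_lit 0x47⟩ (t14_5922) (t14_14114))) (.node ⟨nat_lit 7, nat_lit 0x20002000400040, nat_lit 0x1003021, nat_lit 0, nat_lit 4, nat_lit 0x49⟩ (.node ⟨nat_lit 7, nat_lit 0x40001000600070, nat_lit 0x10203, nat_lit 2,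 nat_lit 4, nat_lit 0x47⟩ (t14_3874) (t14_12066)) (.node ⟨nat_lit 7, nat_lit 0x1000500060, nat_lit 0x1101120, nat_lit 0, nat_lit 4, nat_lit 0x48⟩ (t14_7970) (.nil)))))
def t14_162 : Tr := .node ⟨nat_lit 7, nat_lit 0x4000200060, nat_lit 0x1010221, nat_lit 0, nat_lit 4, nat_lit 0x49⟩ (.nil) (.nil)
def t14_8354 : Tr := .node ⟨nat_lit 7, nat_lit 0x40002000480060, nat_lit 0x22040, nat_lit 0, nat_lit 4, nat_lit 0x48⟩ (.nil) (.nil)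
def t14_4258 : Tr := .node ⟨nat_lit 7, nat_lit 0x400020005000700070, nat_lit 0x2011210, nat_lit 1, nat_lit 4, nat_lit 0x47⟩ (.nil) (.nil)
def t14_12450 : Tr := .node ⟨nat_lit 7, nat_lit 0x20004000400060, nat_lit 0x11004, nat_lit 1, nat_lit 4, nat_lit 0x48⟩ (.nil) (.nil)
def t14_2210 : Tr := .node ⟨nat_lit 6, nat_lit 0x10001000200020, nat_lit 0x103200, nat_lit 1, nat_lit 4, nat_lit 0x48⟩ (.nil) (.nil)
def t14_10402 : Tr := .node ⟨nat_lit 8, nat_lit 0x200030003000a000c0, nat_lit 0x1100022, nat_lit 1, nat_lit 4, nat_lit 0x47⟩ (.nil) (.nil)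
def t14_6306 : Tr := .node ⟨nat_lit 6, nat_lit 0x2000280030, nat_lit 0x11201, nat_lit 3, nat_lit 4, nat_lit 0x47⟩ (.nil) (.nil)
def t14_14498 : Tr := .node ⟨nat_lit 9, nat_lit 0x400100008000200180, nat_lit 0x101012, nat_lit 0, nat_lit 4, nat_lit 0x49⟩ (.nil) (.nil)
def t14_1186 : Tr := .node ⟨nat_lit 7, nat_lit 0x40004800300068, nat_lit 0x1011011, nat_lit 0, nat_lit 4, nat_lit 0x46⟩ (.nil) (.nil)
def t14_9378 : Tr := .node ⟨nat_lit 7, nat_lit 0x10001000600050, nat_lit 0x1002112, nat_lit 3, nat_lit 4, nat_lit 0x48⟩ (.nil) (.nil)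
def t14_5282 : Tr := .node ⟨nat_lit 6, nat_lit 0x2000080030, nat_lit 0x131210, nat_lit 1, nat_lit 4, nat_lit 0x49⟩ (.nil) (.nil)
def t14_13474 : Tr := .node ⟨nat_lit 8, nat_lit 0x20008000c0, nat_lit 0x11030, nat_lit 1, nat_lit 4, nat_lit 0x4a⟩ (.nil) (.nil)
def t14_3234 : Tr := .node ⟨nat_lit 8, nat_lit 0x20002000a000c0, nat_lit 0x1021120, nat_lit 0, nat_lit 4, nat_lit 0x49⟩ (.nil) (.nil)
def t14_11426 : Tr := .node ⟨nat_lit 8, nat_lit 0x80004000a000d000d0, nat_lit 0x10111120, nat_lit 0, nat_lit 4, nat_lit 0x47⟩ (.nil) (.nil)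
def t14_7330 : Tr := .node ⟨nat_lit 8, nat_lit 0x400040008000800084, nat_lit 0x11120110, nat_lit 0, nat_lit 4, nat_lit 0x4a⟩ (.nil) (.nil)
def t14_15522 : Tr := .node ⟨nat_lit 9, nat_lit 0x10000800040012001800190, nat_lit 0x10120110, nat_lit 0, nat_lit 4, nat_lit 0x48⟩ (.nil) (.nil)
def t14_674 : Tr := .node ⟨nat_lit 6, nat_lit 0x1000100020, nat_lit 0x11103, nat_lit 1, nat_lit 4, nat_lit 0x48⟩ (.nil) (.nil)
def t14_8866 : Tr := .node ⟨nat_lit 8, nat_lit 0x8000400020009000d0, nat_lit 0x110113, nat_lit 1, nat_lit 4, nat_lit 0x47⟩ (.nil) (.nil)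
def t14_4770 : Tr := .node ⟨nat_lit 7, nat_lit 0x10004000200060, nat_lit 0x100312, nat_lit 1, nat_lit 4, nat_lit 0x48⟩ (.nil) (.nil)
def t14_12962 : Tr := .node ⟨nat_lit 5, nat_lit 0x1000140018, nat_lit 0x200, nat_lit 0xb, nat_lit 4, nat_lit 0x47⟩ (.nil) (.nil)
def t14_2722 : Tr := .node ⟨nat_lit 7, nat_lit 0x4000500060, nat_lit 0x102201, nat_lit 3, nat_lit 4, nat_lit 0x49⟩ (.nil) (.nil)
def t14_10914 : Tr := .node ⟨nat_lit 8, nat_lit 0x40004000c000a000d0, nat_lit 0x21202, nat_lit 0, nat_lit 4, nat_lit 0x47⟩ (.nil) (.nil)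
def t14_6818 : Tr := .node ⟨nat_lit 8, nat_lit 0x8000c000c0, nat_lit 0x111100, nat_lit 1, nat_lit 4, nat_lit 0x49⟩ (.nil) (.nil)
def t14_15010 : Tr := .node ⟨nat_lit 6, nat_lit 0x20002000280030, nat_lit 0x21011, nat_lit 3, nat_lit 4, nat_lit 0x47⟩ (.nil) (.nil)
def t14_1698 : Tr := .node ⟨nat_lit 7, nat_lit 0x20002800500068, nat_lit 0x11012, nat_lit 0, nat_lit 4, nat_lit 0x45⟩ (.nil) (.nil)
def t14_9890 : Tr := .node ⟨nat_lit 5, nat_lit 0x1000100018, nat_lit 0x220, nat_lit 0xc, nat_lit 4, nat_lit 0x48⟩ (.nil) (.nil)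
def t14_5794 : Tr := .node ⟨nat_lit 8, nat_lit 0x20008000c0, nat_lit 0x1011012, nat_lit 1, nat_lit 4, nat_lit 0x4a⟩ (.nil) (.nil)
def t14_13986 : Tr := .node ⟨nat_lit 7, nat_lit 0x1000100060, nat_lit 0x1102, nat_lit 3, nat_lit 4, nat_lit 0x48⟩ (.nil) (.nil)
def t14_3746 : Tr := .node ⟨nat_lit 9, nat_lit 0x100010000800080014001c00190, nat_lit 0x1021000, nat_lit 1, nat_lit 4, nat_lit 0x47⟩ (.nil) (.nil)
def t14_11938 : Tr := .node ⟨nat_lit 7, nat_lit 0x20004000100044, nat_lit 0x130, nat_lit 2, nat_lit 4, nat_lit 0x47⟩ (.nil) (.nil)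
def t14_7842 : Tr := .node ⟨nat_lit 6, nat_lit 0x10002000240024, nat_lit 0x121, nat_lit 5, nat_lit 4, nat_lit 0x46⟩ (.nil) (.nil)
def t9_162 : Tr := .node ⟨nat_lit 4, nat_lit 8, nat_lit 0x2311, nat_lit 7, nat_lit 4, nat_lit 0x49⟩ (.node ⟨nat_lit 5, nat_lit 0x10, nat_lit 0x3212, nat_lit 0, nat_lit 3, nat_lit 0x48⟩ (.node ⟨nat_lit 7, nat_lit 0x40002000500064, nat_lit 0x311102, nat_lit 0, nat_lit 4, nat_lit 0x48⟩ (.node ⟨nat_lit 2, nat_lit 0, nat_lit 0x31, nat_lit 7, nat_lit 4, nat_lit 0x45⟩ (.node ⟨nat_lit 5, nat_lit 0x1000080014, nat_lit 0x2222, nat_lit 3, nat_lit 4, nat_lit 0x47⟩ (t14_162) (t14_8354)) (.node ⟨nat_lit 6, nat_lit 0x20001000280030, nat_lit 0x11013, nat_lit 6, nat_lit 4, nat_lit 0x47⟩ (t14_4258) (t14_12450))) (.node ⟨nat_lit 3, nat_lit 4, nat_lit 0x223, nat_lit 0xc, nat_lit 4, nat_lit 0x49⟩ (.node ⟨nat_lit 6, nat_lit 0x1000300028,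 nat_lit 0x12004, nat_lit 0, nat_lit 4, nat_lit 0x47⟩ (t14_2210) (t14_10402)) (.node ⟨nat_lit 5, nat_lit 0x100018, nat_lit 0x1312, nat_lit 5, nat_lit 4, nat_lit 0x48⟩ (t14_6306) (t14_14498)))) (.node ⟨nat_lit 6, nat_lit 0x800100020, nat_lit 0x121111, nat_lit 3, nat_lit 4, nat_lit 0x49⟩ (.node ⟨nat_lit 6, nat_lit 0x2000080030, nat_lit 0x210201, nat_lit 1, nat_lit 4, nat_lit 0x48⟩ (.node ⟨nat_lit 7, nat_lit 0x4000200010, nat_lit 0x1001400, nat_lit 0, nat_lit 3, nat_lit 0x48⟩ (t14_1186) (t14_9378)) (.node ⟨nat_lit 6, nat_lit 0x2000240030, nat_lit 0x112211, nat_lit 4, nat_lit 4, nat_lit 0x49⟩ (t14_5282) (t14_13474))) (.node ⟨nat_lit 7, nat_lit 0x20004000400064, nat_lit 0x112210, nat_lit 0, nat_lit 4, nat_lit 0x48⟩ (.node ⟨nat_lit 7, nat_lit 0x400060, nat_lit 0x1021130, nat_lit 0, nat_lit 4, nat_lit 0x4b⟩ (t14_3234) (t14_11426)) (.node ⟨nat_lit 5, nat_lit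 0x100010001c, nat_lit 0x11112, nat_lit 6, nat_lit 4, nat_lit 0x47⟩ (t14_7330) (t14_15522))))) (.node ⟨nat_lit 5, nat_lit 0x140018, nat_lit 0x11321, nat_lit 4, nat_lit 4, nat_lit 0x48⟩ (.node ⟨nat_lit 5, nat_lit 0x140018, nat_lit 0x11221, nat_lit 4, nat_lit 4, nat_lit 0x47⟩ (.node ⟨nat_lit 7, nat_lit 0x40002000200064, nat_lit 0x20111, nat_lit 0, nat_lit 4, nat_lit 0x47⟩ (.node ⟨nat_lit 7, nat_lit 0x4000100060, nat_lit 0x1121201, nat_lit 0, nat_lit 4, nat_lit 0x4a⟩ (t14_674) (t14_8866)) (.node ⟨nat_lit 6, nat_lit 0x2000280030, nat_lit 0x22210, nat_lit 0, nat_lit 3, nat_lit 0x46⟩ (t14_4770) (t14_12962))) (.node ⟨nat_lit 7, nat_lit 0x40004000100020, nat_lit 0x101001, nat_lit 0, nat_lit 4, nat_lit 0x47⟩ (.node ⟨nat_lit 7, nat_lit 0x400040002000200050, nat_lit 0x112300, nat_lit 1, nat_lit 4, nat_lit 0x48⟩ (t14_2722) (t14_10914)) (.node ⟨nat_lit 6, nat_lit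 0x20001000100030, nat_lit 0x202110, nat_lit 0, nat_lit 3, nat_lit 0x46⟩ (t14_6818) (t14_15010)))) (.node ⟨nat_lit 6, nat_lit 0x20002000100010, nat_lit 0x11032, nat_lit 0, nat_lit 4, nat_lit 0x48⟩ (.node ⟨nat_lit 6, nat_lit 0x30, nat_lit 0x301111, nat_lit 2, nat_lit 4, nat_lit 0x4a⟩ (.node ⟨nat_lit 6, nat_lit 0x2000240038, nat_lit 0x10013, nat_lit 3, nat_lit 4, nat_lit 0x45⟩ (t14_1698) (t14_9890)) (.node ⟨nat_lit 7, nat_lit 0x20002000400060, nat_lit 0x1022020, nat_lit 1, nat_lit 4, nat_lit 0x49⟩ (t14_5794) (t14_13986))) (.node ⟨nat_lit 6, nat_lit 0x1000280030, nat_lit 0x2030, nat_lit 0, nat_lit 4, nat_lit 0x46⟩ (.node ⟨nat_lit 6, nat_lit 0x1000280034, nat_lit 0x100003, nat_lit 3, nat_lit 4, nat_lit 0x45⟩ (t14_3746) (t14_11938)) (.node ⟨nat_lit 5, nat_lit 0x18001c, nat_lit 0x10112, nat_lit 3, nat_lit 4, nat_lit 0x45⟩ (t14_7842) (.nil)))))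
def t14_418 : Tr := .node ⟨nat_lit 7, nat_lit 0x4000400060, nat_lit 0x1021210, nat_lit 0, nat_lit 4, nat_lit 0x4a⟩ (.nil) (.nil)
def t14_8610 : Tr := .node ⟨nat_lit 8, nat_lit 0x8000400040005000a000d0, nat_lit 0x211010, nat_lit 0, nat_lit 4, nat_lit 0x46⟩ (.nil) (.nil)
def t14_4514 : Tr := .node ⟨nat_lit 5, nat_lit 0x1000100008, nat_lit 0x21201, nat_lit 4, nat_lit 3, nat_lit 0x47⟩ (.nil) (.nil)
def t14_12706 : Tr := .node ⟨nat_lit 7, nat_lit 0x3000500060, nat_lit 0x12021, nat_lit 0, nat_lit 4, nat_lit 0x47⟩ (.nil) (.nil)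
def t14_2466 : Tr := .node ⟨nat_lit 6, nat_lit 0x300030, nat_lit 0x3021, nat_lit 0, nat_lit 4, nat_lit 0x47⟩ (.nil) (.nil)
def t14_10658 : Tr := .node ⟨nat_lit 7, nat_lit 0x4000500060, nat_lit 0x100021, nat_lit 0, nat_lit 4, nat_lit 0x47⟩ (.nil) (.nil)
def t14_6562 : Tr := .node ⟨nat_lit 8, nat_lit 0x20001000c0, nat_lit 0x10011011, nat_lit 1, nat_lit 4, nat_lit 0x4a⟩ (.nil) (.nil)
def t14_14754 : Tr := .node ⟨nat_lit 8, nat_lit 0x1000c000a00090, nat_lit 0x11112, nat_lit 2, nat_lit 4, nat_lit 0x48⟩ (.nil) (.nil)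
def t14_1442 : Tr := .node ⟨nat_lit 7, nat_lit 0x400040002000480050, nat_lit 0x112111, nat_lit 4, nat_lit 4, nat_lit 0x48⟩ (.nil) (.nil)
def t14_9634 : Tr := .node ⟨nat_lit 7, nat_lit 0x40001000600050, nat_lit 0x2102, nat_lit 3, nat_lit 4, nat_lit 0x47⟩ (.nil) (.nil)
def t14_5538 : Tr := .node ⟨nat_lit 6, nat_lit 0x2000100030, nat_lit 0x2113, nat_lit 2, nat_lit 4, nat_lit 0x47⟩ (.nil) (.nil)
def t14_13730 : Tr := .node ⟨nat_lit 7, nat_lit 0x40004800300068, nat_lit 0x101, nat_lit 0, nat_lit 4, nat_lit 0x44⟩ (.nil) (.nil)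
def t14_3490 : Tr := .node ⟨nat_lit 7, nat_lit 0x10005000300060, nat_lit 0x2010, nat_lit 3, nat_lit 4, nat_lit 0x46⟩ (.nil) (.nil)
def t14_11682 : Tr := .node ⟨nat_lit 7, nat_lit 0x400040007000700070, nat_lit 0x1001210, nat_lit 5, nat_lit 4, nat_lit 0x46⟩ (.nil) (.nil)
def t14_7586 : Tr := .node ⟨nat_lit 5, nat_lit 0x40018, nat_lit 0x21, nat_lit 3, nat_lit 4, nat_lit 0x45⟩ (.nil) (.nil)
def t14_930 : Tr := .node ⟨nat_lit 7, nat_lit 0x200020002000400040, nat_lit 0x1022211, nat_lit 0, nat_lit 4, nat_lit 0x49⟩ (.nil) (.nil)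
def t14_9122 : Tr := .node ⟨nat_lit 0xb, nat_lit 0x2000400040004000100041004200440, nat_lit 0x101100010, nat_lit 1, nat_lit 4, nat_lit 0x4a⟩ (.nil) (.nil)
def t14_5026 : Tr := .node ⟨nat_lit 6, nat_lit 0x3000280028, nat_lit 0x11131, nat_lit 4, nat_lit 4, nat_lit 0x47⟩ (.nil) (.nil)
def t14_13218 : Tr := .node ⟨nat_lit 7, nat_lit 0x400020002000500050, nat_lit 0x20010, nat_lit 3, nat_lit 4, nat_lit 0x47⟩ (.nil) (.nil)
def t14_2978 : Tr := .node ⟨nat_lit 8, nat_lit 0x400040008000800020, nat_lit 0x122100, nat_lit 0, nat_lit 4, nat_lit 0x49⟩ (.nil) (.nil)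
def t14_11170 : Tr := .node ⟨nat_lit 7, nat_lit 0x6000500050, nat_lit 0x11120, nat_lit 3, nat_lit 4, nat_lit 0x48⟩ (.nil) (.nil)
def t14_7074 : Tr := .node ⟨nat_lit 6, nat_lit 0x2000300030, nat_lit 0x12211, nat_lit 3, nat_lit 4, nat_lit 0x48⟩ (.nil) (.nil)
def t14_15266 : Tr := .node ⟨nat_lit 8, nat_lit 0x10006000c000a0, nat_lit 0x10100112, nat_lit 1, nat_lit 4, nat_lit 0x48⟩ (.nil) (.nil)
def t14_1954 : Tr := .node ⟨nat_lit 8, nat_lit 0x10008000c000a0, nat_lit 0x200112, nat_lit 2, nat_lit 4, nat_lit 0x49⟩ (.nil) (.nil)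
def t14_10146 : Tr := .node ⟨nat_lit 7, nat_lit 0x40001000600060, nat_lit 0x1200, nat_lit 2, nat_lit 4, nat_lit 0x46⟩ (.nil) (.nil)
def t14_6050 : Tr := .node ⟨nat_lit 8, nat_lit 0x40004000400080, nat_lit 0x20111111, nat_lit 0, nat_lit 4, nat_lit 0x4b⟩ (.nil) (.nil)
def t14_14242 : Tr := .node ⟨nat_lit 7, nat_lit 0x400020002000500050, nat_lit 0x1110, nat_lit 0, nat_lit 4, nat_lit 0x45⟩ (.nil) (.nil)
def t14_4002 : Tr := .node ⟨nat_lit 6, nat_lit 0x800280030, nat_lit 0x100110, nat_lit 0, nat_lit 4, nat_lit 0x45⟩ (.nil) (.nil)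
def t14_12194 : Tr := .node ⟨nat_lit 8, nat_lit 0x400080008800c00060, nat_lit 0x10111020, nat_lit 1, nat_lit 4, nat_lit 0x48⟩ (.nil) (.nil)
def t14_8098 : Tr := .node ⟨nat_lit 6, nat_lit 0x2000200024, nat_lit 0x11104, nat_lit 2, nat_lit 4, nat_lit 0x48⟩ (.nil) (.nil)
def t9_418 : Tr := .node ⟨nat_lit 5, nat_lit 0x800100010, nat_lit 0x12211, nat_lit 0, nat_lit 3, nat_lit 0x46⟩ (.node ⟨nat_lit 6, nat_lit 0x2000200020, nat_lit 0x31211, nat_lit 3, nat_lit 4, nat_lit 0x4a⟩ (.node ⟨nat_lit 5, nat_lit 0x10, nat_lit 0x2212, nat_lit 0, nat_lit 4, nat_lit 0x48⟩ (.node ⟨nat_lit 6, nat_lit 0x300038, nat_lit 0x101022, nat_lit 0, nat_lit 4, nat_lit 0x46⟩ (.node ⟨nat_lit 7, nat_lit 0x2000500060, nat_lit 0x21211, nat_lit 0, nat_lit 4, nat_lit 0x48⟩ (t14_418) (t14_8610)) (.node ⟨nat_lit 7, nat_lit 0x4000400044, nat_lit 0x1111201, nat_lit 5, nat_lit 4, nat_lit 0x4b⟩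 (t14_4514) (t14_12706))) (.node ⟨nat_lit 6, nat_lit 0x2000080030, nat_lit 0x201112, nat_lit 2, nat_lit 4, nat_lit 0x48⟩ (.node ⟨nat_lit 7, nat_lit 0x10004000400064, nat_lit 0x111101, nat_lit 0, nat_lit 4, nat_lit 0x47⟩ (t14_2466) (t14_10658)) (.node ⟨nat_lit 8, nat_lit 0x40008000c0, nat_lit 0x211002, nat_lit 0, nat_lit 4, nat_lit 0x4a⟩ (t14_6562) (t14_14754)))) (.node ⟨nat_lit 3, nat_lit 6, nat_lit 0x211, nat_lit 9, nat_lit 4, nat_lit 0x46⟩ (.node ⟨nat_lit 7, nat_lit 0x4000100060, nat_lit 0x1021211, nat_lit 2, nat_lit 4, nat_lit 0x4a⟩ (.node ⟨nat_lit 5, nat_lit 0x80010, nat_lit 0x1102, nat_lit 1, nat_lit 4, nat_lit 0x46⟩ (t14_1442) (t14_9634)) (.node ⟨nat_lit 7, nat_lit 0x40002000480068, nat_lit 0x1121112, nat_lit 0, nat_lit 4, nat_lit 0x48⟩ (t14_5538) (t14_13730))) (.node ⟨nat_lit 6, nat_lit 0x200020, nat_lit 0x111130, nat_lit 1, nat_lit 4, nat_lit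 0x4a⟩ (.node ⟨nat_lit 6, nat_lit 0x2000080030, nat_lit 0x10200, nat_lit 1, nat_lit 4, nat_lit 0x46⟩ (t14_3490) (t14_11682)) (.node ⟨nat_lit 6, nat_lit 0x10002000200020, nat_lit 0x12110, nat_lit 5, nat_lit 4, nat_lit 0x48⟩ (t14_7586) (.nil))))) (.node ⟨nat_lit 4, nat_lit 0xc, nat_lit 0x2130, nat_lit 3, nat_lit 4, nat_lit 0x48⟩ (.node ⟨nat_lit 6, nat_lit 0x200032, nat_lit 0x212111, nat_lit 0, nat_lit 4, nat_lit 0x49⟩ (.node ⟨nat_lit 6, nat_lit 0x20, nat_lit 0x11112, nat_lit 1, nat_lit 4, nat_lit 0x49⟩ (.node ⟨nat_lit 6, nat_lit 0x200030, nat_lit 0x112231, nat_lit 0, nat_lit 4, nat_lit 0x4a⟩ (t14_930) (t14_9122)) (.node ⟨nat_lit 4, nat_lit 8, nat_lit 0x1222, nat_lit 7, nat_lit 4, nat_lit 0x49⟩ (t14_5026) (t14_13218))) (.node ⟨nat_lit 4, nat_lit 0xc000c, nat_lit 0x1130, nat_lit 6, nat_lit 4, nat_lit 0x46⟩ (.node ⟨nat_lit 7, nat_lit 0x200040, nat_lit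 0x1111112, nat_lit 0, nat_lit 4, nat_lit 0x4b⟩ (t14_2978) (t14_11170)) (.node ⟨nat_lit 9, nat_lit 0x10001000080011001a00188, nat_lit 0x11102020, nat_lit 0, nat_lit 4, nat_lit 0x48⟩ (t14_7074) (t14_15266)))) (.node ⟨nat_lit 4, nat_lit 0x40008, nat_lit 0x1211, nat_lit 6, nat_lit 4, nat_lit 0x47⟩ (.node ⟨nat_lit 5, nat_lit 0x180014, nat_lit 0x21031, nat_lit 3, nat_lit 4, nat_lit 0x47⟩ (.node ⟨nat_lit 6, nat_lit 0x2000080030, nat_lit 0x101311, nat_lit 6, nat_lit 4, nat_lit 0x49⟩ (t14_1954) (t14_10146)) (.node ⟨nat_lit 6, nat_lit 0x1000200032, nat_lit 0x12020, nat_lit 1, nat_lit 4, nat_lit 0x47⟩ (t14_6050) (t14_14242))) (.node ⟨nat_lit 7, nat_lit 0x4000500060, nat_lit 0x111201, nat_lit 0, nat_lit 4, nat_lit 0x48⟩ (.node ⟨nat_lit 6, nat_lit 0x2000080030, nat_lit 0x100101, nat_lit 1, nat_lit 4, nat_lit 0x46⟩ (t14_4002) (t14_12194)) (.node ⟨nat_lit 8,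 nat_lit 0x8000800040009000a00048, nat_lit 0x1111100, nat_lit 1, nat_lit 4, nat_lit 0x47⟩ (t14_8098) (.nil)))))
def t14_98 : Tr := .node ⟨nat_lit 7, nat_lit 0x20004000600064, nat_lit 0x1121111, nat_lit 0, nat_lit 4, nat_lit 0x48⟩ (.nil) (.nil)
def t14_8290 : Tr := .node ⟨nat_lit 7, nat_lit 0x40002000500068, nat_lit 0x2001, nat_lit 2, nat_lit 4, nat_lit 0x46⟩ (.nil) (.nil)
def t14_4194 : Tr := .node ⟨nat_lit 9, nat_lit 0x10001000080011001200120, nat_lit 0x11101020, nat_lit 1, nat_lit 4, nat_lit 0x49⟩ (.nil) (.nil)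
def t14_12386 : Tr := .node ⟨nat_lit 8, nat_lit 0x400080008000c800e0, nat_lit 0x110003, nat_lit 3, nat_lit 4, nat_lit 0x47⟩ (.nil) (.nil)
def t14_2146 : Tr := .node ⟨nat_lit 7, nat_lit 0x40002000100060, nat_lit 0x1112012, nat_lit 0, nat_lit 4, nat_lit 0x49⟩ (.nil) (.nil)
def t14_10338 : Tr := .node ⟨nat_lit 7, nat_lit 0x20006000500068, nat_lit 0x111220, nat_lit 2, nat_lit 4, nat_lit 0x47⟩ (.nil) (.nil)
def t14_6242 : Tr := .node ⟨nat_lit 6, nat_lit 0x20, nat_lit 0x11110, nat_lit 4, nat_lit 4, nat_lit 0x4a⟩ (.nil) (.nil)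
def t14_14434 : Tr := .node ⟨nat_lit 8, nat_lit 0x4000400080008000d0, nat_lit 0x21201, nat_lit 0, nat_lit 4, nat_lit 0x48⟩ (.nil) (.nil)
def t14_1122 : Tr := .node ⟨nat_lit 7, nat_lit 0x40004800300060, nat_lit 0x12111, nat_lit 3, nat_lit 4, nat_lit 0x47⟩ (.nil) (.nil)
def t14_9314 : Tr := .node ⟨nat_lit 6, nat_lit 0x2000280030, nat_lit 0x10221, nat_lit 4, nat_lit 4, nat_lit 0x47⟩ (.nil) (.nil)
def t14_5218 : Tr := .node ⟨nat_lit 9, nat_lit 0x1000100008001100180, nat_lit 0x1121011, nat_lit 0, nat_lit 4, nat_lit 0x4a⟩ (.nil) (.nil)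
def t14_13410 : Tr := .node ⟨nat_lit 5, nat_lit 0x1000140018, nat_lit 0x200, nat_lit 4, nat_lit 4, nat_lit 0x45⟩ (.nil) (.nil)
def t14_3170 : Tr := .node ⟨nat_lit 9, nat_lit 0x400100010000200180, nat_lit 0x10102101, nat_lit 0, nat_lit 4, nat_lit 0x4a⟩ (.nil) (.nil)
def t14_11362 : Tr := .node ⟨nat_lit 6, nat_lit 0x800100020, nat_lit 0x101, nat_lit 1, nat_lit 3, nat_lit 0x45⟩ (.nil) (.nil)
def t14_7266 : Tr := .node ⟨nat_lit 7, nat_lit 0x4000100060, nat_lit 0x212001, nat_lit 0, nat_lit 3, nat_lit 0x48⟩ (.nil) (.nil)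
def t14_15458 : Tr := .node ⟨nat_lit 9, nat_lit 0x1000040004001100180, nat_lit 0x110111011, nat_lit 0, nat_lit 4, nat_lit 0x4a⟩ (.nil) (.nil)
def t14_610 : Tr := .node ⟨nat_lit 6, nat_lit 0x800280030, nat_lit 0x20120, nat_lit 2, nat_lit 4, nat_lit 0x46⟩ (.nil) (.nil)
def t14_8802 : Tr := .node ⟨nat_lit 8, nat_lit 0x800080004000900090, nat_lit 0x110031, nat_lit 4, nat_lit 4, nat_lit 0x49⟩ (.nil) (.nil)
def t14_4706 : Tr := .node ⟨nat_lit 7, nat_lit 0x20004000400068, nat_lit 0x111002, nat_lit 0, nat_lit 4, nat_lit 0x47⟩ (.nil) (.nil)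
def t14_12898 : Tr := .node ⟨nat_lit 7, nat_lit 0x40002000100060, nat_lit 0x13000, nat_lit 3, nat_lit 4, nat_lit 0x48⟩ (.nil) (.nil)
def t14_2658 : Tr := .node ⟨nat_lit 6, nat_lit 0x800300030, nat_lit 0x2010, nat_lit 1, nat_lit 4, nat_lit 0x46⟩ (.nil) (.nil)
def t14_10850 : Tr := .node ⟨nat_lit 7, nat_lit 0x40004000480060, nat_lit 0x112102, nat_lit 4, nat_lit 4, nat_lit 0x49⟩ (.nil) (.nil)
def t14_6754 : Tr := .node ⟨nat_lit 7, nat_lit 0x4000100060, nat_lit 0x211110, nat_lit 0, nat_lit 4, nat_lit 0x49⟩ (.nil) (.nil)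
def t14_14946 : Tr := .node ⟨nat_lit 0xa, nat_lit 0x100020002000080022002100210, nat_lit 0x110111, nat_lit 1, nat_lit 4, nat_lit 0x49⟩ (.nil) (.nil)
def t14_1634 : Tr := .node ⟨nat_lit 7, nat_lit 0x200020004000400060, nat_lit 0x1022100, nat_lit 0, nat_lit 3, nat_lit 0x46⟩ (.nil) (.nil)
def t14_9826 : Tr := .node ⟨nat_lit 7, nat_lit 0x1000600060, nat_lit 0x1010122, nat_lit 0, nat_lit 4, nat_lit 0x48⟩ (.nil) (.nil)
def t14_5730 : Tr := .node ⟨nat_lit 6, nat_lit 0x2000280030, nat_lit 0x10120, nat_lit 3, nat_lit 4, nat_lit 0x46⟩ (.nil) (.nil)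
def t14_13922 : Tr := .node ⟨nat_lit 8, nat_lit 0x40002000c000a0, nat_lit 0x10220, nat_lit 0, nat_lit 4, nat_lit 0x48⟩ (.nil) (.nil)
def t14_3682 : Tr := .node ⟨nat_lit 6, nat_lit 0x280030, nat_lit 0x10210, nat_lit 2, nat_lit 4, nat_lit 0x47⟩ (.nil) (.nil)
def t14_11874 : Tr := .node ⟨nat_lit 4, nat_lit 0x800080008, nat_lit 0x1110, nat_lit 5, nat_lit 3, nat_lit 0x45⟩ (.nil) (.nil)
def t14_7778 : Tr := .node ⟨nat_lit 6, nat_lit 0x2000300030, nat_lit 0x1032, nat_lit 5, nat_lit 4, nat_lit 0x47⟩ (.nil) (.nil)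
def t9_98 : Tr := .node ⟨nat_lit 5, nat_lit 0x100010, nat_lit 0x1110, nat_lit 3, nat_lit 3, nat_lit 0x46⟩ (.node ⟨nat_lit 6, nat_lit 0x200020, nat_lit 0x132210, nat_lit 1, nat_lit 4, nat_lit 0x4b⟩ (.node ⟨nat_lit 5, nat_lit 0x80010, nat_lit 0x113, nat_lit 1, nat_lit 4, nat_lit 0x46⟩ (.node ⟨nat_lit 4, nat_lit 0x8000a, nat_lit 0x1211, nat_lit 5, nat_lit 4, nat_lit 0x46⟩ (.node ⟨nat_lit 6, nat_lit 0x2000200010, nat_lit 0x121112, nat_lit 4, nat_lit 4, nat_lit 0x4a⟩ (t14_98) (t14_8290)) (.node ⟨nat_lit 6, nat_lit 0x3000300038, nat_lit 0x2203, nat_lit 4, nat_lit 4, nat_lit 0x46⟩ (t14_4194) (t14_12386))) (.node ⟨nat_lit 6, nat_lit 0x2000100010, nat_lit 0x12011, nat_lit 4, nat_lit 4, nat_lit 0x49⟩ (.node ⟨nat_lit 7, nat_lit 0x1000080060, nat_lit 0x1010001, nat_lit 1, nat_lit 3, nat_lit 0x47⟩ (t14_2146) (t14_10338)) (.node ⟨nat_lit 6, nat_lit 0x800200032,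 nat_lit 0x120210, nat_lit 1, nat_lit 4, nat_lit 0x47⟩ (t14_6242) (t14_14434)))) (.node ⟨nat_lit 5, nat_lit 0x18, nat_lit 0x222, nat_lit 4, nat_lit 4, nat_lit 0x48⟩ (.node ⟨nat_lit 6, nat_lit 0x800200030, nat_lit 0x211111, nat_lit 1, nat_lit 3, nat_lit 0x47⟩ (.node ⟨nat_lit 7, nat_lit 0x10002000500060, nat_lit 0x1111113, nat_lit 0, nat_lit 4, nat_lit 0x48⟩ (t14_1122) (t14_9314)) (.node ⟨nat_lit 6, nat_lit 0x2000080030, nat_lit 0x11212, nat_lit 1, nat_lit 4, nat_lit 0x47⟩ (t14_5218) (t14_13410))) (.node ⟨nat_lit 6, nat_lit 0x2000100032, nat_lit 0x22110, nat_lit 2, nat_lit 4, nat_lit 0x48⟩ (.node ⟨nat_lit 5, nat_lit 0x18001c, nat_lit 0x10203, nat_lit 3, nat_lit 4, nat_lit 0x46⟩ (t14_3170) (t14_11362)) (.node ⟨nat_lit 7, nat_lit 0x40002000680070, nat_lit 0x11012, nat_lit 0, nat_lit 4, nat_lit 0x45⟩ (t14_7266) (t14_15458))))) (.node ⟨nat_lit 2, nat_lit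 2, nat_lit 0x32, nat_lit 9, nat_lit 4, nat_lit 0x46⟩ (.node ⟨nat_lit 4, nat_lit 0x80008, nat_lit 0x2111, nat_lit 3, nat_lit 3, nat_lit 0x46⟩ (.node ⟨nat_lit 6, nat_lit 0x2000080030, nat_lit 0x2011, nat_lit 0, nat_lit 4, nat_lit 0x46⟩ (.node ⟨nat_lit 5, nat_lit 0x100010, nat_lit 0x21120, nat_lit 3, nat_lit 4, nat_lit 0x49⟩ (t14_610) (t14_8802)) (.node ⟨nat_lit 6, nat_lit 0x20002000100010, nat_lit 0x112120, nat_lit 5, nat_lit 4, nat_lit 0x49⟩ (t14_4706) (t14_12898))) (.node ⟨nat_lit 3, nat_lit 4, nat_lit 0x111, nat_lit 6, nat_lit 4, nat_lit 0x45⟩ (.node ⟨nat_lit 4, nat_lit 0x8000c, nat_lit 0x1214, nat_lit 7, nat_lit 4, nat_lit 0x48⟩ (t14_2658) (t14_10850)) (.node ⟨nat_lit 6, nat_lit 0x20001000100030, nat_lit 0x111201, nat_lit 0, nat_lit 3, nat_lit 0x46⟩ (t14_6754) (t14_14946)))) (.node ⟨nat_lit 5, nat_lit 0x180018, nat_lit 0x11200, nat_lit 0, nat_lit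 3, nat_lit 0x45⟩ (.node ⟨nat_lit 5, nat_lit 0x1000100008, nat_lit 0x21202, nat_lit 2, nat_lit 4, nat_lit 0x48⟩ (.node ⟨nat_lit 4, nat_lit 0xc, nat_lit 0x11, nat_lit 4, nat_lit 4, nat_lit 0x44⟩ (t14_1634) (t14_9826)) (.node ⟨nat_lit 5, nat_lit 0x100010001c, nat_lit 0x2212, nat_lit 5, nat_lit 4, nat_lit 0x47⟩ (t14_5730) (t14_13922))) (.node ⟨nat_lit 6, nat_lit 0x1000200030, nat_lit 0x100220, nat_lit 0, nat_lit 4, nat_lit 0x47⟩ (.node ⟨nat_lit 6, nat_lit 0x800080030, nat_lit 0x110001, nat_lit 0, nat_lit 4, nat_lit 0x46⟩ (t14_3682) (t14_11874)) (.node ⟨nat_lit 7, nat_lit 0x40001000600060, nat_lit 0x1011121, nat_lit 3, nat_lit 4, nat_lit 0x48⟩ (t14_7778) (.nil)))))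
def t14_354 : Tr := .node ⟨nat_lit 8, nat_lit 0x400080002000c0, nat_lit 0x1121021, nat_lit 0, nat_lit 4, nat_lit 0x4a⟩ (.nil) (.nil)
def t14_8546 : Tr := .node ⟨nat_lit 5, nat_lit 0x10001000180018, nat_lit 0x1021, nat_lit 7, nat_lit 4, nat_lit 0x46⟩ (.nil) (.nil)
def t14_4450 : Tr := .node ⟨nat_lit 8, nat_lit 0x2000400040008000c8, nat_lit 0x11002101, nat_lit 0, nat_lit 4, nat_lit 0x49⟩ (.nil) (.nil)
def t14_12642 : Tr := .node ⟨nat_lit 8, nat_lit 0x400080009000e0, nat_lit 0x1001203, nat_lit 0, nat_lit 4, nat_lit 0x48⟩ (.nil) (.nil)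
def t14_2402 : Tr := .node ⟨nat_lit 7, nat_lit 0x20004000680068, nat_lit 0x120010, nat_lit 1, nat_lit 4, nat_lit 0x46⟩ (.nil) (.nil)
def t14_10594 : Tr := .node ⟨nat_lit 5, nat_lit 0x140018, nat_lit 0x2001, nat_lit 2, nat_lit 4, nat_lit 0x45⟩ (.nil) (.nil)
def t14_6498 : Tr := .node ⟨nat_lit 8, nat_lit 0x200080001000c0, nat_lit 0x10010111, nat_lit 1, nat_lit 4, nat_lit 0x49⟩ (.nil) (.nil)
def t14_14690 : Tr := .node ⟨nat_lit 6, nat_lit 0x3000300030, nat_lit 0x101111, nat_lit 0, nat_lit 3, nat_lit 0x45⟩ (.nil) (.nil)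
def t14_1378 : Tr := .node ⟨nat_lit 6, nat_lit 0x2000300030, nat_lit 0x2410, nat_lit 1, nat_lit 3, nat_lit 0x46⟩ (.nil) (.nil)
def t14_9570 : Tr := .node ⟨nat_lit 7, nat_lit 0x40001000680068, nat_lit 0x11020, nat_lit 0, nat_lit 4, nat_lit 0x45⟩ (.nil) (.nil)
def t14_5474 : Tr := .node ⟨nat_lit 6, nat_lit 0x200022, nat_lit 0x11131, nat_lit 2, nat_lit 4, nat_lit 0x49⟩ (.nil) (.nil)
def t14_13666 : Tr := .node ⟨nat_lit 4, nat_lit 0x80008, nat_lit 0x310, nat_lit 3, nat_lit 4, nat_lit 0x46⟩ (.nil) (.nil)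
def t14_3426 : Tr := .node ⟨nat_lit 6, nat_lit 0x2000080030, nat_lit 0x112001, nat_lit 2, nat_lit 4, nat_lit 0x48⟩ (.nil) (.nil)
def t14_11618 : Tr := .node ⟨nat_lit 6, nat_lit 0x10002000300030, nat_lit 0x2310, nat_lit 4, nat_lit 4, nat_lit 0x47⟩ (.nil) (.nil)
def t14_7522 : Tr := .node ⟨nat_lit 3, nat_lit 0x40004, nat_lit 0x22, nat_lit 0xf, nat_lit 4, nat_lit 0x47⟩ (.nil) (.nil)
def t14_866 : Tr := .node ⟨nat_lit 6, nat_lit 0x10002000240030, nat_lit 0x12220, nat_lit 3, nat_lit 4, nat_lit 0x47⟩ (.nil) (.nil)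
def t14_9058 : Tr := .node ⟨nat_lit 8, nat_lit 0x200080004000c000c0, nat_lit 0x2021, nat_lit 3, nat_lit 4, nat_lit 0x48⟩ (.nil) (.nil)
def t14_4962 : Tr := .node ⟨nat_lit 5, nat_lit 0x18001c, nat_lit 0x11113, nat_lit 6, nat_lit 4, nat_lit 0x47⟩ (.nil) (.nil)
def t14_13154 : Tr := .node ⟨nat_lit 8, nat_lit 0x8000400040009000c8, nat_lit 0x122000, nat_lit 2, nat_lit 4, nat_lit 0x48⟩ (.nil) (.nil)
def t14_2914 : Tr := .node ⟨nat_lit 7, nat_lit 0x20005000680068, nat_lit 0x121120, nat_lit 0, nat_lit 4, nat_lit 0x46⟩ (.nil) (.nil)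
def t14_11106 : Tr := .node ⟨nat_lit 7, nat_lit 0x10001000600060, nat_lit 0x1020, nat_lit 5, nat_lit 4, nat_lit 0x47⟩ (.nil) (.nil)
def t14_7010 : Tr := .node ⟨nat_lit 7, nat_lit 0x6000600060, nat_lit 0x1011211, nat_lit 1, nat_lit 4, nat_lit 0x48⟩ (.nil) (.nil)
def t14_15202 : Tr := .node ⟨nat_lit 9, nat_lit 0x1000020004001100180, nat_lit 0x11010011, nat_lit 1, nat_lit 4, nat_lit 0x49⟩ (.nil) (.nil)
def t14_1890 : Tr := .node ⟨nat_lit 7, nat_lit 0x20004000600068, nat_lit 0x211121, nat_lit 0, nat_lit 4, nat_lit 0x48⟩ (.nil) (.nil)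
def t14_10082 : Tr := .node ⟨nat_lit 8, nat_lit 0x8000900060006000c0, nat_lit 0x10020202, nat_lit 0, nat_lit 4, nat_lit 0x47⟩ (.nil) (.nil)
def t14_5986 : Tr := .node ⟨nat_lit 5, nat_lit 0x800080010, nat_lit 0x11101, nat_lit 5, nat_lit 3, nat_lit 0x46⟩ (.nil) (.nil)
def t14_14178 : Tr := .node ⟨nat_lit 7, nat_lit 0x20004000600064, nat_lit 0x1011220, nat_lit 2, nat_lit 4, nat_lit 0x48⟩ (.nil) (.nil)
def t14_3938 : Tr := .node ⟨nat_lit 9, nat_lit 0x4000800100010001840188, nat_lit 0x100021001, nat_lit 1, nat_lit 4, nat_lit 0x48⟩ (.nil) (.nil)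
def t14_12130 : Tr := .node ⟨nat_lit 8, nat_lit 0x40004000c000a000d0, nat_lit 0x111102, nat_lit 1, nat_lit 4, nat_lit 0x47⟩ (.nil) (.nil)
def t14_8034 : Tr := .node ⟨nat_lit 6, nat_lit 0x2000100024, nat_lit 0x1103, nat_lit 4, nat_lit 4, nat_lit 0x47⟩ (.nil) (.nil)
def t9_354 : Tr := .node ⟨nat_lit 3, nat_lit 0, nat_lit 0x333, nat_lit 5, nat_lit 4, nat_lit 0x4a⟩ (.node ⟨nat_lit 6, nat_lit 0x200030, nat_lit 0x32202, nat_lit 0, nat_lit 4, nat_lit 0x4a⟩ (.node ⟨nat_lit 6, nat_lit 0x20, nat_lit 0x221112, nat_lit 0, nat_lit 4, nat_lit 0x4b⟩ (.node ⟨nat_lit 3, nat_lit 6, nat_lit 0x320, nat_lit 2, nat_lit 3, nat_lit 0x46⟩ (.node ⟨nat_lit 7, nat_lit 0x40004000100068, nat_lit 0x1211201, nat_lit 0, nat_lit 4, nat_lit 0x49⟩ (t14_354) (t14_8546)) (.node ⟨nat_lit 7, nat_lit 0x40004000200060, nat_lit 0x111004, nat_lit 2, nat_lit 4, nat_lit 0x49⟩ (t14_4450) (t14_12642)))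 (.node ⟨nat_lit 6, nat_lit 0x200030, nat_lit 0x212112, nat_lit 1, nat_lit 4, nat_lit 0x4a⟩ (.node ⟨nat_lit 6, nat_lit 0x280030, nat_lit 0x101113, nat_lit 0, nat_lit 4, nat_lit 0x47⟩ (t14_2402) (t14_10594)) (.node ⟨nat_lit 7, nat_lit 0x1000600060, nat_lit 0x12120, nat_lit 1, nat_lit 4, nat_lit 0x48⟩ (t14_6498) (t14_14690)))) (.node ⟨nat_lit 5, nat_lit 0x40018, nat_lit 0x20222, nat_lit 2, nat_lit 4, nat_lit 0x48⟩ (.node ⟨nat_lit 6, nat_lit 0x100020, nat_lit 0x222220, nat_lit 0, nat_lit 4, nat_lit 0x4b⟩ (.node ⟨nat_lit 5, nat_lit 0x40018, nat_lit 0x10204, nat_lit 3, nat_lit 4, nat_lit 0x47⟩ (t14_1378) (t14_9570)) (.node ⟨nat_lit 8, nat_lit 0x800040002000c0, nat_lit 0x1120102, nat_lit 1, nat_lit 4, nat_lit 0x4a⟩ (t14_5474) (t14_13666))) (.node ⟨nat_lit 3, nat_lit 6, nat_lit 0x312, nat_lit 8, nat_lit 4, nat_lit 0x47⟩ (.node ⟨nat_lit 7, nat_lit 0x400040002000500060,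 nat_lit 0x100003, nat_lit 7, nat_lit 4, nat_lit 0x48⟩ (t14_3426) (t14_11618)) (.node ⟨nat_lit 8, nat_lit 0x8000800040008800d0, nat_lit 0x1111112, nat_lit 0, nat_lit 4, nat_lit 0x48⟩ (t14_7522) (.nil))))) (.node ⟨nat_lit 7, nat_lit 0x4000400044, nat_lit 0x311000, nat_lit 3, nat_lit 4, nat_lit 0x4a⟩ (.node ⟨nat_lit 6, nat_lit 0x200030, nat_lit 0x22202, nat_lit 0, nat_lit 4, nat_lit 0x49⟩ (.node ⟨nat_lit 5, nat_lit 0x40018, nat_lit 0x10111, nat_lit 1, nat_lit 4, nat_lit 0x45⟩ (.node ⟨nat_lit 2, nat_lit 2, nat_lit 0x20, nat_lit 5, nat_lit 3, nat_lit 0x43⟩ (t14_866) (t14_9058)) (.node ⟨nat_lit 8, nat_lit 0x4000800080008800c8, nat_lit 0x11200102, nat_lit 1, nat_lit 4, nat_lit 0x49⟩ (t14_4962) (t14_13154))) (.node ⟨nat_lit 7, nat_lit 0x200040004800300060, nat_lit 0x1102101, nat_lit 0, nat_lit 4, nat_lit 0x47⟩ (.node ⟨nat_lit 7, nat_lit 0x200040004000480030,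 nat_lit 0x1121101, nat_lit 2, nat_lit 4, nat_lit 0x48⟩ (t14_2914) (t14_11106)) (.node ⟨nat_lit 7, nat_lit 0x40001000480060, nat_lit 0x1113012, nat_lit 0, nat_lit 4, nat_lit 0x49⟩ (t14_7010) (t14_15202)))) (.node ⟨nat_lit 2, nat_lit 0, nat_lit 0x22, nat_lit 0xd, nat_lit 3, nat_lit 0x46⟩ (.node ⟨nat_lit 6, nat_lit 0x2000080030, nat_lit 0x211111, nat_lit 0, nat_lit 4, nat_lit 0x48⟩ (.node ⟨nat_lit 7, nat_lit 0x40004000100060, nat_lit 0x12030, nat_lit 0, nat_lit 4, nat_lit 0x48⟩ (t14_1890) (t14_10082)) (.node ⟨nat_lit 6, nat_lit 0x800280030, nat_lit 0x20002, nat_lit 1, nat_lit 4, nat_lit 0x46⟩ (t14_5986) (t14_14178))) (.node ⟨nat_lit 6, nat_lit 0x800280030, nat_lit 0x12, nat_lit 0, nat_lit 4, nat_lit 0x44⟩ (.node ⟨nat_lit 8, nat_lit 0x800040002000a000c8, nat_lit 0x1002003, nat_lit 0, nat_lit 4, nat_lit 0x47⟩ (t14_3938) (t14_12130)) (.node ⟨nat_lit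 7, nat_lit 0x100060, nat_lit 0x1111012, nat_lit 0, nat_lit 4, nat_lit 0x4a⟩ (t14_8034) (.nil)))))
def t14_226 : Tr := .node ⟨nat_lit 7, nat_lit 0x40004800600030, nat_lit 0x113211, nat_lit 0, nat_lit 4, nat_lit 0x48⟩ (.nil) (.nil)
def t14_8418 : Tr := .node ⟨nat_lit 7, nat_lit 0x4000400044, nat_lit 0x111223, nat_lit 0, nat_lit 4, nat_lit 0x4a⟩ (.nil) (.nil)
def t14_4322 : Tr := .node ⟨nat_lit 9, nat_lit 0x100008000a0014001a001a001c0, nat_lit 0x11110111, nat_lit 0, nat_lit 4, nat_lit 0x46⟩ (.nil) (.nil)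
def t14_12514 : Tr := .node ⟨nat_lit 6, nat_lit 0x280030, nat_lit 0x101000, nat_lit 0, nat_lit 4, nat_lit 0x46⟩ (.nil) (.nil)
def t14_2274 : Tr := .node ⟨nat_lit 7, nat_lit 0x200040004000600060, nat_lit 0x22020, nat_lit 0, nat_lit 3, nat_lit 0x45⟩ (.nil) (.nil)
def t14_10466 : Tr := .node ⟨nat_lit 7, nat_lit 0x40002000480060, nat_lit 0x11022, nat_lit 2, nat_lit 4, nat_lit 0x47⟩ (.nil) (.nil)
def t14_6370 : Tr := .node ⟨nat_lit 5, nat_lit 0x800100012, nat_lit 0x20, nat_lit 4, nat_lit 4, nat_lit 0x45⟩ (.nil) (.nil)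
def t14_14562 : Tr := .node ⟨nat_lit 5, nat_lit 0x10001000100018, nat_lit 0x1111, nat_lit 0xe, nat_lit 4, nat_lit 0x48⟩ (.nil) (.nil)
def t14_1250 : Tr := .node ⟨nat_lit 7, nat_lit 0x20001000400060, nat_lit 0x101201, nat_lit 0, nat_lit 4, nat_lit 0x47⟩ (.nil) (.nil)
def t14_9442 : Tr := .node ⟨nat_lit 0xa, nat_lit 0x80010002000200012002100300, nat_lit 0x100011012, nat_lit 0, nat_lit 4, nat_lit 0x49⟩ (.nil) (.nil)
def t14_5346 : Tr := .node ⟨nat_lit 7, nat_lit 0x40003000500060, nat_lit 0x110032, nat_lit 1, nat_lit 4, nat_lit 0x47⟩ (.nil) (.nil)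
def t14_13538 : Tr := .node ⟨nat_lit 7, nat_lit 0x40001000600068, nat_lit 0x10001, nat_lit 0, nat_lit 4, nat_lit 0x45⟩ (.nil) (.nil)
def t14_3298 : Tr := .node ⟨nat_lit 7, nat_lit 0x40005000600068, nat_lit 0x102012, nat_lit 3, nat_lit 4, nat_lit 0x47⟩ (.nil) (.nil)
def t14_11490 : Tr := .node ⟨nat_lit 8, nat_lit 0x40004000800080008800e0, nat_lit 0x1110100, nat_lit 1, nat_lit 4, nat_lit 0x47⟩ (.nil) (.nil)
def t14_7394 : Tr := .node ⟨nat_lit 8, nat_lit 0x800020002000c0, nat_lit 0x10111201, nat_lit 0, nat_lit 4, nat_lit 0x4a⟩ (.nil) (.nil)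
def t14_15586 : Tr := .node ⟨nat_lit 4, nat_lit 0, nat_lit 0x1111, nat_lit 0x11, nat_lit 4, nat_lit 0x4b⟩ (.nil) (.nil)
def t14_738 : Tr := .node ⟨nat_lit 5, nat_lit 0x1000080014, nat_lit 0x1013, nat_lit 3, nat_lit 4, nat_lit 0x45⟩ (.nil) (.nil)
def t14_8930 : Tr := .node ⟨nat_lit 6, nat_lit 0x2000300030, nat_lit 0x1031, nat_lit 2, nat_lit 3, nat_lit 0x45⟩ (.nil) (.nil)
def t14_4834 : Tr := .node ⟨nat_lit 7, nat_lit 0x200040004800300060, nat_lit 0x1121002, nat_lit 3, nat_lit 4, nat_lit 0x48⟩ (.nil) (.nil)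
def t14_13026 : Tr := .node ⟨nat_lit 6, nat_lit 0x10002000200034, nat_lit 0x103200, nat_lit 3, nat_lit 4, nat_lit 0x47⟩ (.nil) (.nil)
def t14_2786 : Tr := .node ⟨nat_lit 7, nat_lit 0x20005000600068, nat_lit 0x12012, nat_lit 1, nat_lit 4, nat_lit 0x46⟩ (.nil) (.nil)
def t14_10978 : Tr := .node ⟨nat_lit 7, nat_lit 0x400040002000200050, nat_lit 0x21200, nat_lit 0, nat_lit 4, nat_lit 0x47⟩ (.nil) (.nil)
def t14_6882 : Tr := .node ⟨nat_lit 6, nat_lit 0x200020, nat_lit 0x21110, nat_lit 4, nat_lit 3, nat_lit 0x48⟩ (.nil) (.nil)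
def t14_15074 : Tr := .node ⟨nat_lit 5, nat_lit 0x100018001c, nat_lit 0x2031, nat_lit 4, nat_lit 4, nat_lit 0x46⟩ (.nil) (.nil)
def t14_1762 : Tr := .node ⟨nat_lit 7, nat_lit 0x4000100020, nat_lit 0x2000, nat_lit 1, nat_lit 4, nat_lit 0x48⟩ (.nil) (.nil)
def t14_9954 : Tr := .node ⟨nat_lit 7, nat_lit 0x10006000600070, nat_lit 0x11303, nat_lit 1, nat_lit 4, nat_lit 0x46⟩ (.nil) (.nil)
def t14_5858 : Tr := .node ⟨nat_lit 7, nat_lit 0x100060, nat_lit 0x11101, nat_lit 1, nat_lit 4, nat_lit 0x49⟩ (.nil) (.nil)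
def t14_14050 : Tr := .node ⟨nat_lit 8, nat_lit 0x80002000c0, nat_lit 0x111210, nat_lit 0, nat_lit 4, nat_lit 0x4a⟩ (.nil) (.nil)
def t14_3810 : Tr := .node ⟨nat_lit 7, nat_lit 0x40002000500060, nat_lit 0x1012002, nat_lit 0, nat_lit 3, nat_lit 0x46⟩ (.nil) (.nil)
def t14_12002 : Tr := .node ⟨nat_lit 7, nat_lit 0x40002000100060, nat_lit 0x112100, nat_lit 1, nat_lit 4, nat_lit 0x48⟩ (.nil) (.nil)
def t14_7906 : Tr := .node ⟨nat_lit 5, nat_lit 0x1000140014, nat_lit 0x1120, nat_lit 6, nat_lit 4, nat_lit 0x46⟩ (.nil) (.nil)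
def t9_226 : Tr := .node ⟨nat_lit 5, nat_lit 0x18, nat_lit 0x11321, nat_lit 2, nat_lit 4, nat_lit 0x49⟩ (.node ⟨nat_lit 5, nat_lit 0x800080010, nat_lit 0x11311, nat_lit 0, nat_lit 3, nat_lit 0x46⟩ (.node ⟨nat_lit 5, nat_lit 0x10001c, nat_lit 0x13112, nat_lit 3, nat_lit 4, nat_lit 0x48⟩ (.node ⟨nat_lit 6, nat_lit 0x10002000180024, nat_lit 0x112300, nat_lit 0, nat_lit 4, nat_lit 0x47⟩ (.node ⟨nat_lit 7, nat_lit 0x200040004000400068, nat_lit 0x220102, nat_lit 2, nat_lit 4, nat_lit 0x48⟩ (t14_226) (t14_8418)) (.node ⟨nat_lit 6, nat_lit 0x800300038, nat_lit 0x1112, nat_lit 1, nat_lit 4, nat_lit 0x45⟩ (t14_4322) (t14_12514))) (.node ⟨nat_lit 7, nat_lit 0x4000100060, nat_lit 0x212002, nat_lit 0, nat_lit 3, nat_lit 0x48⟩ (.node ⟨nat_lit 7, nat_lit 0x10001000500060, nat_lit 0x1102031, nat_lit 0, nat_lit 3, nat_lit 0x46⟩ (t14_2274) (t14_10466)) (.node ⟨nat_lit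 7, nat_lit 0x40002000580068, nat_lit 0x2011001, nat_lit 0, nat_lit 4, nat_lit 0x47⟩ (t14_6370) (t14_14562)))) (.node ⟨nat_lit 6, nat_lit 0, nat_lit 0x211111, nat_lit 0, nat_lit 4, nat_lit 0x4b⟩ (.node ⟨nat_lit 6, nat_lit 0x200030, nat_lit 0x122121, nat_lit 1, nat_lit 4, nat_lit 0x4a⟩ (.node ⟨nat_lit 6, nat_lit 0x2000080030, nat_lit 0x111014, nat_lit 0, nat_lit 4, nat_lit 0x48⟩ (t14_1250) (t14_9442)) (.node ⟨nat_lit 7, nat_lit 0x4000200020, nat_lit 0x1121022, nat_lit 0, nat_lit 4, nat_lit 0x4b⟩ (t14_5346) (t14_13538))) (.node ⟨nat_lit 6, nat_lit 0x300028, nat_lit 0x110203, nat_lit 0, nat_lit 4, nat_lit 0x47⟩ (.node ⟨nat_lit 7, nat_lit 0x1000600050, nat_lit 0x1011104, nat_lit 0, nat_lit 4, nat_lit 0x49⟩ (t14_3298) (t14_11490)) (.node ⟨nat_lit 5, nat_lit 0x1000140018, nat_lit 0x11012, nat_lit 5, nat_lit 4, nat_lit 0x46⟩ (t14_7394) (t14_15586)))))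 (.node ⟨nat_lit 7, nat_lit 0x2000500060, nat_lit 0x13011, nat_lit 1, nat_lit 4, nat_lit 0x48⟩ (.node ⟨nat_lit 5, nat_lit 0x18, nat_lit 0x21103, nat_lit 0, nat_lit 4, nat_lit 0x48⟩ (.node ⟨nat_lit 6, nat_lit 0x1000200020, nat_lit 0x102020, nat_lit 0, nat_lit 3, nat_lit 0x47⟩ (.node ⟨nat_lit 7, nat_lit 0x40005800580068, nat_lit 0x2210110, nat_lit 1, nat_lit 4, nat_lit 0x47⟩ (t14_738) (t14_8930)) (.node ⟨nat_lit 7, nat_lit 0x20005000500060, nat_lit 0x102200, nat_lit 1, nat_lit 4, nat_lit 0x46⟩ (t14_4834) (t14_13026))) (.node ⟨nat_lit 6, nat_lit 0x1000280034, nat_lit 0x1220, nat_lit 0, nat_lit 4, nat_lit 0x45⟩ (.node ⟨nat_lit 7, nat_lit 0x800400070, nat_lit 0x210023, nat_lit 0, nat_lit 4, nat_lit 0x48⟩ (t14_2786) (t14_10978)) (.node ⟨nat_lit 5, nat_lit 0x40018, nat_lit 0x11032, nat_lit 3, nat_lit 4, nat_lit 0x47⟩ (t14_6882) (t14_15074)))) (.node ⟨nat_lit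 5, nat_lit 0x18, nat_lit 0x11111, nat_lit 1, nat_lit 4, nat_lit 0x47⟩ (.node ⟨nat_lit 6, nat_lit 0x2000080034, nat_lit 0x1221, nat_lit 0, nat_lit 4, nat_lit 0x46⟩ (.node ⟨nat_lit 5, nat_lit 0x100010001c, nat_lit 0x1123, nat_lit 4, nat_lit 4, nat_lit 0x46⟩ (t14_1762) (t14_9954)) (.node ⟨nat_lit 8, nat_lit 0x8000800040004000c0, nat_lit 0x220002, nat_lit 1, nat_lit 4, nat_lit 0x49⟩ (t14_5858) (t14_14050))) (.node ⟨nat_lit 6, nat_lit 0x80030, nat_lit 0x200232, nat_lit 1, nat_lit 4, nat_lit 0x49⟩ (.node ⟨nat_lit 7, nat_lit 0x1000600050, nat_lit 0x11003, nat_lit 2, nat_lit 4, nat_lit 0x48⟩ (t14_3810) (t14_12002)) (.node ⟨nat_lit 6, nat_lit 0x300028, nat_lit 0x101103, nat_lit 3, nat_lit 4, nat_lit 0x48⟩ (t14_7906) (.nil)))))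
def t14_482 : Tr := .node ⟨nat_lit 6, nat_lit 0x300030, nat_lit 0x113210, nat_lit 0, nat_lit 4, nat_lit 0x49⟩ (.nil) (.nil)
def t14_8674 : Tr := .node ⟨nat_lit 6, nat_lit 0x1000280030, nat_lit 2, nat_lit 5, nat_lit 4, nat_lit 0x46⟩ (.nil) (.nil)
def t14_4578 : Tr := .node ⟨nat_lit 6, nat_lit 0x1000200022, nat_lit 0x102030, nat_lit 2, nat_lit 4, nat_lit 0x49⟩ (.nil) (.nil)
def t14_12770 : Tr := .node ⟨nat_lit 7, nat_lit 0x40001000100060, nat_lit 0x103100, nat_lit 2, nat_lit 4, nat_lit 0x48⟩ (.nil) (.nil)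
def t14_2530 : Tr := .node ⟨nat_lit 8, nat_lit 0x200080008000c0, nat_lit 0x1020220, nat_lit 0, nat_lit 4, nat_lit 0x4a⟩ (.nil) (.nil)
def t14_10722 : Tr := .node ⟨nat_lit 7, nat_lit 0x40001000500060, nat_lit 0x110102, nat_lit 0, nat_lit 4, nat_lit 0x47⟩ (.nil) (.nil)
def t14_6626 : Tr := .node ⟨nat_lit 6, nat_lit 0x2000100024, nat_lit 0x11210, nat_lit 4, nat_lit 4, nat_lit 0x48⟩ (.nil) (.nil)
def t14_14818 : Tr := .node ⟨nat_lit 8, nat_lit 0x8000400090009000d0, nat_lit 0x10002101, nat_lit 0, nat_lit 4, nat_lit 0x47⟩ (.nil) (.nil)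
def t14_1506 : Tr := .node ⟨nat_lit 6, nat_lit 0x1000300028, nat_lit 0x111111, nat_lit 1, nat_lit 4, nat_lit 0x47⟩ (.nil) (.nil)
def t14_9698 : Tr := .node ⟨nat_lit 0xa, nat_lit 0x20002000200010002100220, nat_lit 0x11110001, nat_lit 2, nat_lit 4, nat_lit 0x4b⟩ (.nil) (.nil)
def t14_5602 : Tr := .node ⟨nat_lit 7, nat_lit 0x400040007000700070, nat_lit 0x1011220, nat_lit 1, nat_lit 4, nat_lit 0x46⟩ (.nil) (.nil)
def t14_13794 : Tr := .node ⟨nat_lit 7, nat_lit 0x2000400060, nat_lit 0x10210, nat_lit 0, nat_lit 4, nat_lit 0x48⟩ (.nil) (.nil)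
def t14_3554 : Tr := .node ⟨nat_lit 7, nat_lit 0x6000480070, nat_lit 0x100102, nat_lit 1, nat_lit 4, nat_lit 0x46⟩ (.nil) (.nil)
def t14_11746 : Tr := .node ⟨nat_lit 3, nat_lit 6, nat_lit 0x410, nat_lit 5, nat_lit 3, nat_lit 0x46⟩ (.nil) (.nil)
def t14_7650 : Tr := .node ⟨nat_lit 4, nat_lit 0x8000a, nat_lit 0x113, nat_lit 4, nat_lit 4, nat_lit 0x45⟩ (.nil) (.nil)
def t14_994 : Tr := .node ⟨nat_lit 7, nat_lit 0x4000200060, nat_lit 0x11022, nat_lit 0, nat_lit 4, nat_lit 0x48⟩ (.nil) (.nil)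
def t14_9186 : Tr := .node ⟨nat_lit 7, nat_lit 0x400020002000500050, nat_lit 0x12100, nat_lit 1, nat_lit 4, nat_lit 0x46⟩ (.nil) (.nil)
def t14_5090 : Tr := .node ⟨nat_lit 7, nat_lit 0x10004000500060, nat_lit 0x103011, nat_lit 0, nat_lit 4, nat_lit 0x47⟩ (.nil) (.nil)
def t14_13282 : Tr := .node ⟨nat_lit 6, nat_lit 0x2000080030, nat_lit 0x2300, nat_lit 3, nat_lit 4, nat_lit 0x48⟩ (.nil) (.nil)
def t14_3042 : Tr := .node ⟨nat_lit 7, nat_lit 0x200040004000680068, nat_lit 0x1031011, nat_lit 3, nat_lit 4, nat_lit 0x47⟩ (.nil) (.nil)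
def t14_11234 : Tr := .node ⟨nat_lit 6, nat_lit 0x300030, nat_lit 0x101030, nat_lit 0, nat_lit 4, nat_lit 0x47⟩ (.nil) (.nil)
def t14_7138 : Tr := .node ⟨nat_lit 7, nat_lit 0x1000600060, nat_lit 0x1012111, nat_lit 2, nat_lit 4, nat_lit 0x49⟩ (.nil) (.nil)
def t14_15330 : Tr := .node ⟨nat_lit 8, nat_lit 0x4000400040008000800080, nat_lit 0x110220, nat_lit 1, nat_lit 4, nat_lit 0x49⟩ (.nil) (.nil)
def t14_2018 : Tr := .node ⟨nat_lit 6, nat_lit 0x20002000200010, nat_lit 0x13210, nat_lit 4, nat_lit 4, nat_lit 0x49⟩ (.nil) (.nil)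
def t14_10210 : Tr := .node ⟨nat_lit 6, nat_lit 0x2000240034, nat_lit 0x11212, nat_lit 3, nat_lit 4, nat_lit 0x47⟩ (.nil) (.nil)
def t14_6114 : Tr := .node ⟨nat_lit 8, nat_lit 0x8000400020, nat_lit 0x21000, nat_lit 1, nat_lit 4, nat_lit 0x4a⟩ (.nil) (.nil)
def t14_14306 : Tr := .node ⟨nat_lit 8, nat_lit 0x400080002000c000d0, nat_lit 0x1011030, nat_lit 2, nat_lit 4, nat_lit 0x48⟩ (.nil) (.nil)
def t14_4066 : Tr := .node ⟨nat_lit 6, nat_lit 0x800080030, nat_lit 0x200201, nat_lit 0, nat_lit 4, nat_lit 0x47⟩ (.nil) (.nil)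
def t14_12258 : Tr := .node ⟨nat_lit 6, nat_lit 0x20003000300038, nat_lit 0x1301, nat_lit 7, nat_lit 4, nat_lit 0x46⟩ (.nil) (.nil)
def t14_8162 : Tr := .node ⟨nat_lit 7, nat_lit 0x40002000200048, nat_lit 0x112003, nat_lit 0, nat_lit 4, nat_lit 0x48⟩ (.nil) (.nil)
def t9_482 : Tr := .node ⟨nat_lit 6, nat_lit 0x800200030, nat_lit 0x13311, nat_lit 0, nat_lit 4, nat_lit 0x49⟩ (.node ⟨nat_lit 6, nat_lit 0x2000240034, nat_lit 0x301121, nat_lit 3, nat_lit 4, nat_lit 0x49⟩ (.node ⟨nat_lit 5, nat_lit 0x80010, nat_lit 0x12121, nat_lit 5, nat_lit 4, nat_lit 0x49⟩ (.node ⟨nat_lit 7, nat_lit 0x200020004000440064, nat_lit 0x1021210, nat_lit 0, nat_lit 4, nat_lit 0x47⟩ (.node ⟨nat_lit 6, nat_lit 0x80030, nat_lit 0x210021, nat_lit 0, nat_lit 4, nat_lit 0x48⟩ (t14_482) (t14_8674)) (.node ⟨nat_lit 6, nat_lit 0x2000100032, nat_lit 0x122220, nat_lit 1, nat_lit 4,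 nat_lit 0x49⟩ (t14_4578) (t14_12770))) (.node ⟨nat_lit 5, nat_lit 0x1000080008, nat_lit 0x1022, nat_lit 6, nat_lit 4, nat_lit 0x48⟩ (.node ⟨nat_lit 7, nat_lit 0x40002000100060, nat_lit 0x1112113, nat_lit 0, nat_lit 4, nat_lit 0x49⟩ (t14_2530) (t14_10722)) (.node ⟨nat_lit 8, nat_lit 0x8000400040, nat_lit 0x211021, nat_lit 0, nat_lit 4, nat_lit 0x4b⟩ (t14_6626) (t14_14818)))) (.node ⟨nat_lit 6, nat_lit 0x280030, nat_lit 0x100210, nat_lit 0, nat_lit 4, nat_lit 0x46⟩ (.node ⟨nat_lit 7, nat_lit 0x4000400060, nat_lit 0x221103, nat_lit 0, nat_lit 4, nat_lit 0x4a⟩ (.node ⟨nat_lit 6, nat_lit 0x2000300034, nat_lit 0x101311, nat_lit 5, nat_lit 4, nat_lit 0x48⟩ (t14_1506) (t14_9698)) (.node ⟨nat_lit 6, nat_lit 0x20001000100028, nat_lit 0x111220, nat_lit 2, nat_lit 4, nat_lit 0x48⟩ (t14_5602) (t14_13794))) (.node ⟨nat_lit 6, nat_lit 0x800100020, nat_lit 0x211300,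 nat_lit 1, nat_lit 4, nat_lit 0x49⟩ (.node ⟨nat_lit 5, nat_lit 0x180014, nat_lit 0x1020, nat_lit 4, nat_lit 4, nat_lit 0x45⟩ (t14_3554) (t14_11746)) (.node ⟨nat_lit 7, nat_lit 0x200040004000480048, nat_lit 0x1001120, nat_lit 2, nat_lit 4, nat_lit 0x48⟩ (t14_7650) (.nil))))) (.node ⟨nat_lit 6, nat_lit 0x1000200022, nat_lit 0x3023, nat_lit 1, nat_lit 4, nat_lit 0x48⟩ (.node ⟨nat_lit 5, nat_lit 0x18, nat_lit 0x22220, nat_lit 0, nat_lit 4, nat_lit 0x49⟩ (.node ⟨nat_lit 6, nat_lit 0x100020, nat_lit 0x111111, nat_lit 3, nat_lit 3, nat_lit 0x48⟩ (.node ⟨nat_lit 4, nat_lit 0x8000a, nat_lit 0x1132, nat_lit 8, nat_lit 4, nat_lit 0x48⟩ (t14_994) (t14_9186)) (.node ⟨nat_lit 8, nat_lit 0x80008000840088, nat_lit 0x2211101, nat_lit 0, nat_lit 4, nat_lit 0x4a⟩ (t14_5090) (t14_13282))) (.node ⟨nat_lit 5, nat_lit 0x100018, nat_lit 0x10120, nat_lit 4, nat_lit 4,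 nat_lit 0x47⟩ (.node ⟨nat_lit 7, nat_lit 0x1000600060, nat_lit 0x2001011, nat_lit 1, nat_lit 3, nat_lit 0x47⟩ (t14_3042) (t14_11234)) (.node ⟨nat_lit 6, nat_lit 0x2000080010, nat_lit 0x111002, nat_lit 2, nat_lit 3, nat_lit 0x47⟩ (t14_7138) (t14_15330)))) (.node ⟨nat_lit 6, nat_lit 0x80030, nat_lit 0x111211, nat_lit 2, nat_lit 4, nat_lit 0x49⟩ (.node ⟨nat_lit 7, nat_lit 0x60, nat_lit 0x2011111, nat_lit 3, nat_lit 4, nat_lit 0x4c⟩ (.node ⟨nat_lit 6, nat_lit 0x200030, nat_lit 0x102231, nat_lit 2, nat_lit 4, nat_lit 0x4a⟩ (t14_2018) (t14_10210)) (.node ⟨nat_lit 8, nat_lit 0x80004000a000c800e0, nat_lit 0x1001022, nat_lit 0, nat_lit 4, nat_lit 0x46⟩ (t14_6114) (t14_14306))) (.node ⟨nat_lit 5, nat_lit 0x80010, nat_lit 0x22103, nat_lit 5, nat_lit 4, nat_lit 0x4a⟩ (.node ⟨nat_lit 7, nat_lit 0x20004000500064, nat_lit 0x1000100, nat_lit 1, nat_lit 4, nat_lit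 0x46⟩ (t14_4066) (t14_12258)) (.node ⟨nat_lit 9, nat_lit 0x800100010000400108, nat_lit 0x100101100, nat_lit 5, nat_lit 4, nat_lit 0x4b⟩ (t14_8162) (.nil)))))
def t14_18 : Tr := .node ⟨nat_lit 5, nat_lit 0x80010, nat_lit 0x11110, nat_lit 9, nat_lit 4, nat_lit 0x49⟩ (.nil) (.nil)
def t14_8210 : Tr := .node ⟨nat_lit 7, nat_lit 0x40003000580068, nat_lit 0x1031, nat_lit 1, nat_lit 4, nat_lit 0x44⟩ (.nil) (.nil)
def t14_4114 : Tr := .node ⟨nat_lit 6, nat_lit 0x2000200038, nat_lit 0x21112, nat_lit 4, nat_lit 4, nat_lit 0x48⟩ (.nil) (.nil)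
def t14_12306 : Tr := .node ⟨nat_lit 6, nat_lit 0x2000200030, nat_lit 0x3301, nat_lit 2, nat_lit 3, nat_lit 0x47⟩ (.nil) (.nil)
def t14_2066 : Tr := .node ⟨nat_lit 7, nat_lit 0x400020002000500050, nat_lit 0x1013100, nat_lit 0, nat_lit 4, nat_lit 0x47⟩ (.nil) (.nil)
def t14_10258 : Tr := .node ⟨nat_lit 8, nat_lit 0x8000900090006000d0, nat_lit 0x10001022, nat_lit 0, nat_lit 4, nat_lit 0x46⟩ (.nil) (.nil)
def t14_6162 : Tr := .node ⟨nat_lit 5, nat_lit 0x1000140014, nat_lit 0x1010, nat_lit 6, nat_lit 4, nat_lit 0x45⟩ (.nil) (.nil)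
def t14_14354 : Tr := .node ⟨nat_lit 5, nat_lit 0x40018, nat_lit 0x100, nat_lit 3, nat_lit 3, nat_lit 0x45⟩ (.nil) (.nil)
def t14_1042 : Tr := .node ⟨nat_lit 7, nat_lit 0x40002000480060, nat_lit 0x12111, nat_lit 0, nat_lit 4, nat_lit 0x47⟩ (.nil) (.nil)
def t14_9234 : Tr := .node ⟨nat_lit 7, nat_lit 0x10006000600050, nat_lit 0x111221, nat_lit 0, nat_lit 4, nat_lit 0x47⟩ (.nil) (.nil)
def t14_5138 : Tr := .node ⟨nat_lit 8, nat_lit 0x80001000a000c0, nat_lit 0x1103001, nat_lit 0, nat_lit 3, nat_lit 0x47⟩ (.nil) (.nil)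
def t14_13330 : Tr := .node ⟨nat_lit 9, nat_lit 0x100010000800088012000c0, nat_lit 0x102000, nat_lit 2, nat_lit 4, nat_lit 0x48⟩ (.nil) (.nil)
def t14_3090 : Tr := .node ⟨nat_lit 7, nat_lit 0x40002000500060, nat_lit 0x1000212, nat_lit 0, nat_lit 4, nat_lit 0x47⟩ (.nil) (.nil)
def t14_11282 : Tr := .node ⟨nat_lit 6, nat_lit 0x800300038, nat_lit 0x100030, nat_lit 0, nat_lit 4, nat_lit 0x45⟩ (.nil) (.nil)
def t14_7186 : Tr := .node ⟨nat_lit 8, nat_lit 0x40008000900090006000c0, nat_lit 0x11100011, nat_lit 1, nat_lit 4, nat_lit 0x47⟩ (.nil) (.nil)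
def t14_15378 : Tr := .node ⟨nat_lit 7, nat_lit 0x4000400060, nat_lit 0x11210, nat_lit 6, nat_lit 4, nat_lit 0x4a⟩ (.nil) (.nil)
def t14_530 : Tr := .node ⟨nat_lit 6, nat_lit 0x1000200022, nat_lit 0x2022, nat_lit 5, nat_lit 4, nat_lit 0x48⟩ (.nil) (.nil)
def t14_8722 : Tr := .node ⟨nat_lit 7, nat_lit 0x10002000500060, nat_lit 0x2200, nat_lit 0, nat_lit 4, nat_lit 0x46⟩ (.nil) (.nil)
def t14_4626 : Tr := .node ⟨nat_lit 7, nat_lit 0x4000500064, nat_lit 0x1201211, nat_lit 1, nat_lit 4, nat_lit 0x49⟩ (.nil) (.nil)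
def t14_12818 : Tr := .node ⟨nat_lit 8, nat_lit 0x2000800080004000c0, nat_lit 0x2020, nat_lit 1, nat_lit 4, nat_lit 0x48⟩ (.nil) (.nil)
def t14_2578 : Tr := .node ⟨nat_lit 6, nat_lit 0x20002000100010, nat_lit 0x103031, nat_lit 1, nat_lit 4, nat_lit 0x48⟩ (.nil) (.nil)
def t14_10770 : Tr := .node ⟨nat_lit 7, nat_lit 0x1000100060, nat_lit 0x1002, nat_lit 0, nat_lit 4, nat_lit 0x47⟩ (.nil) (.nil)
def t14_6674 : Tr := .node ⟨nat_lit 7, nat_lit 0x4000200010, nat_lit 0x11011, nat_lit 3, nat_lit 4, nat_lit 0x49⟩ (.nil) (.nil)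
def t14_14866 : Tr := .node ⟨nat_lit 7, nat_lit 0x400040004000200050, nat_lit 0x111111, nat_lit 7, nat_lit 4, nat_lit 0x49⟩ (.nil) (.nil)
def t14_1554 : Tr := .node ⟨nat_lit 8, nat_lit 0x800040004000a000a000c0, nat_lit 0x10110112, nat_lit 1, nat_lit 4, nat_lit 0x48⟩ (.nil) (.nil)
def t14_9746 : Tr := .node ⟨nat_lit 6, nat_lit 0x300030, nat_lit 0x1120, nat_lit 2, nat_lit 3, nat_lit 0x46⟩ (.nil) (.nil)
def t14_5650 : Tr := .node ⟨nat_lit 7, nat_lit 0x6000600060, nat_lit 0x11220, nat_lit 0, nat_lit 4, nat_lit 0x47⟩ (.nil) (.nil)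
def t14_13842 : Tr := .node ⟨nat_lit 6, nat_lit 0x2000080034, nat_lit 0x210, nat_lit 0, nat_lit 4, nat_lit 0x45⟩ (.nil) (.nil)
def t14_3602 : Tr := .node ⟨nat_lit 7, nat_lit 0x10003000600050, nat_lit 0x1003121, nat_lit 0, nat_lit 4, nat_lit 0x47⟩ (.nil) (.nil)
def t14_11794 : Tr := .node ⟨nat_lit 6, nat_lit 0x2000080030, nat_lit 0x1031, nat_lit 1, nat_lit 3, nat_lit 0x46⟩ (.nil) (.nil)
def t14_7698 : Tr := .node ⟨nat_lit 7, nat_lit 0x100060, nat_lit 0x1102, nat_lit 0, nat_lit 4, nat_lit 0x48⟩ (.nil) (.nil)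
def t9_18 : Tr := .node ⟨nat_lit 6, nat_lit 0x80030, nat_lit 0x312111, nat_lit 0, nat_lit 4, nat_lit 0x4a⟩ (.node ⟨nat_lit 5, nat_lit 0x100018, nat_lit 0x10330, nat_lit 3, nat_lit 3, nat_lit 0x47⟩ (.node ⟨nat_lit 5, nat_lit 0x180018, nat_lit 0x310, nat_lit 5, nat_lit 4, nat_lit 0x46⟩ (.node ⟨nat_lit 6, nat_lit 0x200030, nat_lit 0x102121, nat_lit 2, nat_lit 4, nat_lit 0x49⟩ (.node ⟨nat_lit 6, nat_lit 0x200010, nat_lit 0x22103, nat_lit 3, nat_lit 4, nat_lit 0x4b⟩ (t14_18) (t14_8210)) (.node ⟨nat_lit 6, nat_lit 0x20001000100028, nat_lit 0x111000, nat_lit 0, nat_lit 4, nat_lit 0x46⟩ (t14_4114) (t14_12306))) (.node ⟨nat_lit 6, nat_lit 0x800080030, nat_lit 0x310203, nat_lit 1, nat_lit 4, nat_lit 0x49⟩ (.node ⟨nat_lit 6, nat_lit 0x1000100020, nat_lit 0x112311, nat_lit 2, nat_lit 4, nat_lit 0x4a⟩ (t14_2066) (t14_10258)) (.node ⟨nat_lit 6, nat_lit 0x10002000200030,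 nat_lit 0x110210, nat_lit 0, nat_lit 3, nat_lit 0x46⟩ (t14_6162) (t14_14354)))) (.node ⟨nat_lit 6, nat_lit 0x800200032, nat_lit 0x210020, nat_lit 2, nat_lit 4, nat_lit 0x48⟩ (.node ⟨nat_lit 5, nat_lit 0x100018, nat_lit 0x21221, nat_lit 3, nat_lit 4, nat_lit 0x49⟩ (.node ⟨nat_lit 6, nat_lit 0x800300038, nat_lit 0x111313, nat_lit 0, nat_lit 4, nat_lit 0x47⟩ (t14_1042) (t14_9234)) (.node ⟨nat_lit 6, nat_lit 0x1000100020, nat_lit 0x112001, nat_lit 5, nat_lit 3, nat_lit 0x48⟩ (t14_5138) (t14_13330))) (.node ⟨nat_lit 5, nat_lit 0x800100012, nat_lit 0x21021, nat_lit 4, nat_lit 4, nat_lit 0x48⟩ (.node ⟨nat_lit 8, nat_lit 0x2000400080008000e0, nat_lit 0x1100103, nat_lit 1, nat_lit 4, nat_lit 0x48⟩ (t14_3090) (t14_11282)) (.node ⟨nat_lit 5, nat_lit 0x1000080014, nat_lit 0x1220, nat_lit 3, nat_lit 4, nat_lit 0x46⟩ (t14_7186) (t14_15378))))) (.node ⟨nat_lit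 5, nat_lit 0x18, nat_lit 0x22310, nat_lit 1, nat_lit 4, nat_lit 0x4a⟩ (.node ⟨nat_lit 5, nat_lit 0x10, nat_lit 0x22111, nat_lit 1, nat_lit 4, nat_lit 0x49⟩ (.node ⟨nat_lit 7, nat_lit 0x4000200020, nat_lit 0x121011, nat_lit 1, nat_lit 4, nat_lit 0x4a⟩ (.node ⟨nat_lit 6, nat_lit 0x2000100024, nat_lit 0x112010, nat_lit 6, nat_lit 4, nat_lit 0x49⟩ (t14_530) (t14_8722)) (.node ⟨nat_lit 7, nat_lit 0x40004000100060, nat_lit 0x1112112, nat_lit 0, nat_lit 4, nat_lit 0x49⟩ (t14_4626) (t14_12818))) (.node ⟨nat_lit 5, nat_lit 0x1000080018, nat_lit 0x1031, nat_lit 1, nat_lit 3, nat_lit 0x45⟩ (.node ⟨nat_lit 4, nat_lit 0x80008, nat_lit 0x1131, nat_lit 0xc, nat_lit 4, nat_lit 0x49⟩ (t14_2578) (t14_10770)) (.node ⟨nat_lit 8, nat_lit 0x80008000a000a000a000a0, nat_lit 0x2002200, nat_lit 1, nat_lit 4, nat_lit 0x48⟩ (t14_6674) (t14_14866)))) (.node ⟨nat_lit 6, nat_lit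 0x2000080010, nat_lit 0x21022, nat_lit 3, nat_lit 4, nat_lit 0x49⟩ (.node ⟨nat_lit 6, nat_lit 0x200030, nat_lit 0x202101, nat_lit 5, nat_lit 4, nat_lit 0x4a⟩ (.node ⟨nat_lit 4, nat_lit 0x40008, nat_lit 0x132, nat_lit 4, nat_lit 4, nat_lit 0x46⟩ (t14_1554) (t14_9746)) (.node ⟨nat_lit 7, nat_lit 0x20004000100060, nat_lit 0x1111102, nat_lit 3, nat_lit 4, nat_lit 0x49⟩ (t14_5650) (t14_13842))) (.node ⟨nat_lit 2, nat_lit 2, nat_lit 0, nat_lit 7, nat_lit 3, nat_lit 0x42⟩ (.node ⟨nat_lit 7, nat_lit 0x1000600018, nat_lit 0x1000000, nat_lit 3, nat_lit 4, nat_lit 0x47⟩ (t14_3602) (t14_11794)) (.node ⟨nat_lit 7, nat_lit 0x40002000480048, nat_lit 0x1112010, nat_lit 1, nat_lit 4, nat_lit 0x49⟩ (t14_7698) (.nil)))))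
def t14_274 : Tr := .node ⟨nat_lit 7, nat_lit 0x40002000480070, nat_lit 0x112111, nat_lit 0, nat_lit 4, nat_lit 0x47⟩ (.nil) (.nil)
def t14_8466 : Tr := .node ⟨nat_lit 6, nat_lit 0x800280030, nat_lit 0x311, nat_lit 2, nat_lit 4, nat_lit 0x46⟩ (.nil) (.nil)
def t14_4370 : Tr := .node ⟨nat_lit 6, nat_lit 0x2000080030, nat_lit 0x11130, nat_lit 0, nat_lit 3, nat_lit 0x46⟩ (.nil) (.nil)
def t14_12562 : Tr := .node ⟨nat_lit 8, nat_lit 0x8000900090006000d0, nat_lit 0x10000001, nat_lit 1, nat_lit 4, nat_lit 0x46⟩ (.nil) (.nil)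
def t14_2322 : Tr := .node ⟨nat_lit 6, nat_lit 0x800200032, nat_lit 0x20020, nat_lit 3, nat_lit 4, nat_lit 0x47⟩ (.nil) (.nil)
def t14_10514 : Tr := .node ⟨nat_lit 7, nat_lit 0x10002000500060, nat_lit 0x111002, nat_lit 0, nat_lit 4, nat_lit 0x47⟩ (.nil) (.nil)
def t14_6418 : Tr := .node ⟨nat_lit 7, nat_lit 0x40, nat_lit 0x1111101, nat_lit 0, nat_lit 3, nat_lit 0x4a⟩ (.nil) (.nil)
def t14_14610 : Tr := .node ⟨nat_lit 7, nat_lit 0x400040, nat_lit 0x111110, nat_lit 2, nat_lit 3, nat_lit 0x49⟩ (.nil) (.nil)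
def t14_1298 : Tr := .node ⟨nat_lit 6, nat_lit 0x10001000200020, nat_lit 0x102111, nat_lit 5, nat_lit 4, nat_lit 0x48⟩ (.nil) (.nil)
def t14_9490 : Tr := .node ⟨nat_lit 0xa, nat_lit 0x1000100020002000210014001800320, nat_lit 0x1011100011, nat_lit 0, nat_lit 4, nat_lit 0x48⟩ (.nil) (.nil)
def t14_5394 : Tr := .node ⟨nat_lit 8, nat_lit 0x40008000800090006000e0, nat_lit 0x201011, nat_lit 0, nat_lit 4, nat_lit 0x46⟩ (.nil) (.nil)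
def t14_13586 : Tr := .node ⟨nat_lit 6, nat_lit 0x2000080010, nat_lit 0x122, nat_lit 0, nat_lit 4, nat_lit 0x46⟩ (.nil) (.nil)
def t14_3346 : Tr := .node ⟨nat_lit 5, nat_lit 0x1000100008, nat_lit 0x10212, nat_lit 5, nat_lit 3, nat_lit 0x46⟩ (.nil) (.nil)
def t14_11538 : Tr := .node ⟨nat_lit 6, nat_lit 0x800200032, nat_lit 0x10032, nat_lit 3, nat_lit 4, nat_lit 0x47⟩ (.nil) (.nil)
def t14_7442 : Tr := .node ⟨nat_lit 7, nat_lit 0x400060, nat_lit 0x1111111, nat_lit 3, nat_lit 4, nat_lit 0x4b⟩ (.nil) (.nil)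
def t14_786 : Tr := .node ⟨nat_lit 7, nat_lit 0x40002000200010, nat_lit 0x10311, nat_lit 3, nat_lit 4, nat_lit 0x49⟩ (.nil) (.nil)
def t14_8978 : Tr := .node ⟨nat_lit 8, nat_lit 0x800080004000a000a00090, nat_lit 0x1110201, nat_lit 3, nat_lit 4, nat_lit 0x48⟩ (.nil) (.nil)
def t14_4882 : Tr := .node ⟨nat_lit 7, nat_lit 0x200040, nat_lit 0x1111110, nat_lit 7, nat_lit 4, nat_lit 0x4c⟩ (.nil) (.nil)
def t14_13074 : Tr := .node ⟨nat_lit 6, nat_lit 0x2000280030, nat_lit 0x213, nat_lit 2, nat_lit 4, nat_lit 0x46⟩ (.nil) (.nil)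
def t14_2834 : Tr := .node ⟨nat_lit 7, nat_lit 0x4000440030, nat_lit 0x1001000, nat_lit 1, nat_lit 4, nat_lit 0x47⟩ (.nil) (.nil)
def t14_11026 : Tr := .node ⟨nat_lit 6, nat_lit 0x2800280030, nat_lit 0x110201, nat_lit 7, nat_lit 4, nat_lit 0x47⟩ (.nil) (.nil)
def t14_6930 : Tr := .node ⟨nat_lit 6, nat_lit 0x1000280030, nat_lit 0x102012, nat_lit 5, nat_lit 4, nat_lit 0x48⟩ (.nil) (.nil)
def t14_15122 : Tr := .node ⟨nat_lit 7, nat_lit 0x40003000580068, nat_lit 0x1111, nat_lit 1, nat_lit 4, nat_lit 0x44⟩ (.nil) (.nil)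
def t14_1810 : Tr := .node ⟨nat_lit 7, nat_lit 0x40004800600068, nat_lit 0x2110020, nat_lit 1, nat_lit 4, nat_lit 0x48⟩ (.nil) (.nil)
def t14_10002 : Tr := .node ⟨nat_lit 7, nat_lit 0x200040003000480060, nat_lit 0x13100, nat_lit 0, nat_lit 4, nat_lit 0x46⟩ (.nil) (.nil)
def t14_5906 : Tr := .node ⟨nat_lit 7, nat_lit 0x20004000100064, nat_lit 0x1010111, nat_lit 1, nat_lit 4, nat_lit 0x47⟩ (.nil) (.nil)
def t14_14098 : Tr := .node ⟨nat_lit 7, nat_lit 0x20004000400060, nat_lit 0x11001, nat_lit 1, nat_lit 4, nat_lit 0x47⟩ (.nil) (.nil)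
def t14_3858 : Tr := .node ⟨nat_lit 7, nat_lit 0x40004000200060, nat_lit 0x111002, nat_lit 5, nat_lit 4, nat_lit 0x49⟩ (.nil) (.nil)
def t14_12050 : Tr := .node ⟨nat_lit 5, nat_lit 0x1000140018, nat_lit 0x1210, nat_lit 5, nat_lit 4, nat_lit 0x46⟩ (.nil) (.nil)
def t14_7954 : Tr := .node ⟨nat_lit 8, nat_lit 0x40008000800090006000c0, nat_lit 0x210021, nat_lit 1, nat_lit 4, nat_lit 0x47⟩ (.nil) (.nil)
def t9_274 : Tr := .node ⟨nat_lit 4, nat_lit 0, nat_lit 0x3311, nat_lit 2, nat_lit 3, nat_lit 0x49⟩ (.node ⟨nat_lit 6, nat_lit 0x2000240024, nat_lit 0x311121, nat_lit 2, nat_lit 4, nat_lit 0x4a⟩ (.node ⟨nat_lit 6, nat_lit 0x280030, nat_lit 0x131121, nat_lit 0, nat_lit 4, nat_lit 0x49⟩ (.node ⟨nat_lit 6, nat_lit 0x2000200030, nat_lit 0x12103, nat_lit 2, nat_lit 4, nat_lit 0x48⟩ (.node ⟨nat_lit 6, nat_lit 0x10001000200022, nat_lit 0x122100, nat_lit 5,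 nat_lit 4, nat_lit 0x49⟩ (t14_274) (t14_8466)) (.node ⟨nat_lit 7, nat_lit 0x20001000100040, nat_lit 0x1110301, nat_lit 1, nat_lit 3, nat_lit 0x48⟩ (t14_4370) (t14_12562))) (.node ⟨nat_lit 7, nat_lit 0x40004000200010, nat_lit 0x201012, nat_lit 0, nat_lit 3, nat_lit 0x47⟩ (.node ⟨nat_lit 8, nat_lit 0x800040002000c000a0, nat_lit 0x120203, nat_lit 0, nat_lit 4, nat_lit 0x48⟩ (t14_2322) (t14_10514)) (.node ⟨nat_lit 6, nat_lit 0x800300030, nat_lit 0x110330, nat_lit 0, nat_lit 4, nat_lit 0x47⟩ (t14_6418) (t14_14610)))) (.node ⟨nat_lit 4, nat_lit 0x8000e, nat_lit 0x2111, nat_lit 9, nat_lit 4, nat_lit 0x47⟩ (.node ⟨nat_lit 7, nat_lit 0x4000100020, nat_lit 0x1221111, nat_lit 0, nat_lit 4, nat_lit 0x4b⟩ (.node ⟨nat_lit 6, nat_lit 0x2000100024, nat_lit 0x121103, nat_lit 0, nat_lit 4, nat_lit 0x48⟩ (t14_1298) (t14_9490)) (.node ⟨nat_lit 7, nat_lit 0x40002000100060,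 nat_lit 0x1112112, nat_lit 0, nat_lit 4, nat_lit 0x49⟩ (t14_5394) (t14_13586))) (.node ⟨nat_lit 6, nat_lit 0x2000100010, nat_lit 0x11320, nat_lit 0, nat_lit 4, nat_lit 0x48⟩ (.node ⟨nat_lit 7, nat_lit 0x20005000600068, nat_lit 0x121130, nat_lit 0, nat_lit 4, nat_lit 0x47⟩ (t14_3346) (t14_11538)) (.node ⟨nat_lit 7, nat_lit 0x20004000600064, nat_lit 0x1111121, nat_lit 1, nat_lit 4, nat_lit 0x48⟩ (t14_7442) (.nil))))) (.node ⟨nat_lit 6, nat_lit 0x200030, nat_lit 0x113110, nat_lit 0, nat_lit 4, nat_lit 0x49⟩ (.node ⟨nat_lit 6, nat_lit 0x2000080034, nat_lit 0x211210, nat_lit 0, nat_lit 4, nat_lit 0x48⟩ (.node ⟨nat_lit 5, nat_lit 0x18, nat_lit 0x10102, nat_lit 1, nat_lit 4, nat_lit 0x46⟩ (.node ⟨nat_lit 7, nat_lit 0x4000200020, nat_lit 0x221020, nat_lit 1, nat_lit 4, nat_lit 0x4b⟩ (t14_786) (t14_8978)) (.node ⟨nat_lit 7, nat_lit 0x40002000500068, nat_lit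 0x1112210, nat_lit 0, nat_lit 4, nat_lit 0x48⟩ (t14_4882) (t14_13074))) (.node ⟨nat_lit 6, nat_lit 0x2000100030, nat_lit 0x11033, nat_lit 0, nat_lit 4, nat_lit 0x48⟩ (.node ⟨nat_lit 7, nat_lit 0x4000400060, nat_lit 0x211103, nat_lit 2, nat_lit 4, nat_lit 0x4a⟩ (t14_2834) (t14_11026)) (.node ⟨nat_lit 7, nat_lit 0x20004000440030, nat_lit 0x1112112, nat_lit 0, nat_lit 4, nat_lit 0x48⟩ (t14_6930) (t14_15122)))) (.node ⟨nat_lit 5, nat_lit 0x1000100014, nat_lit 0x11211, nat_lit 5, nat_lit 4, nat_lit 0x48⟩ (.node ⟨nat_lit 7, nat_lit 0x20005000680070, nat_lit 0x112212, nat_lit 0, nat_lit 4, nat_lit 0x46⟩ (.node ⟨nat_lit 6, nat_lit 0x1000200038, nat_lit 0x1203, nat_lit 2, nat_lit 4, nat_lit 0x46⟩ (t14_1810) (t14_10002)) (.node ⟨nat_lit 7, nat_lit 0x1000600050, nat_lit 0x1012012, nat_lit 1, nat_lit 4, nat_lit 0x49⟩ (t14_5906) (t14_14098))) (.node ⟨nat_lit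 7, nat_lit 0x10005000500060, nat_lit 0x201222, nat_lit 0, nat_lit 4, nat_lit 0x47⟩ (.node ⟨nat_lit 6, nat_lit 0x1000280034, nat_lit 0x100011, nat_lit 0, nat_lit 4, nat_lit 0x44⟩ (t14_3858) (t14_12050)) (.node ⟨nat_lit 4, nat_lit 0x8000c, nat_lit 0x1130, nat_lit 8, nat_lit 4, nat_lit 0x47⟩ (t14_7954) (.nil)))))
def t14_146 : Tr := .node ⟨nat_lit 6, nat_lit 0x1000280030, nat_lit 0x112210, nat_lit 1, nat_lit 4, nat_lit 0x48⟩ (.nil) (.nil)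
def t14_8338 : Tr := .node ⟨nat_lit 6, nat_lit 0x80030, nat_lit 0, nat_lit 0, nat_lit 4, nat_lit 0x45⟩ (.nil) (.nil)
def t14_4242 : Tr := .node ⟨nat_lit 4, nat_lit 0x8000e, nat_lit 0x2021, nat_lit 5, nat_lit 4, nat_lit 0x46⟩ (.nil) (.nil)
def t14_12434 : Tr := .node ⟨nat_lit 8, nat_lit 0x4000c000a000c8, nat_lit 0x11310, nat_lit 0, nat_lit 4, nat_lit 0x47⟩ (.nil) (.nil)
def t14_2194 : Tr := .node ⟨nat_lit 7, nat_lit 0x40001000200060, nat_lit 0x23002, nat_lit 0, nat_lit 4, nat_lit 0x48⟩ (.nil) (.nil)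
def t14_10386 : Tr := .node ⟨nat_lit 7, nat_lit 0x40001000100060, nat_lit 0x102002, nat_lit 4, nat_lit 4, nat_lit 0x48⟩ (.nil) (.nil)
def t14_6290 : Tr := .node ⟨nat_lit 7, nat_lit 0x4000440060, nat_lit 0x11220, nat_lit 0, nat_lit 4, nat_lit 0x48⟩ (.nil) (.nil)
def t14_14482 : Tr := .node ⟨nat_lit 6, nat_lit 0x1000200034, nat_lit 0x1110, nat_lit 3, nat_lit 4, nat_lit 0x46⟩ (.nil) (.nil)
def t14_1170 : Tr := .node ⟨nat_lit 6, nat_lit 0x280030, nat_lit 0x10121, nat_lit 3, nat_lit 4, nat_lit 0x47⟩ (.nil) (.nil)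
def t14_9362 : Tr := .node ⟨nat_lit 8, nat_lit 0x2000c000c000a0, nat_lit 0x111212, nat_lit 0, nat_lit 4, nat_lit 0x48⟩ (.nil) (.nil)
def t14_5266 : Tr := .node ⟨nat_lit 6, nat_lit 0x2000080030, nat_lit 0x121300, nat_lit 1, nat_lit 4, nat_lit 0x49⟩ (.nil) (.nil)
def t14_13458 : Tr := .node ⟨nat_lit 6, nat_lit 0x1000100020, nat_lit 0x122000, nat_lit 0, nat_lit 3, nat_lit 0x48⟩ (.nil) (.nil)
def t14_3218 : Tr := .node ⟨nat_lit 7, nat_lit 0x40004800300068, nat_lit 0x11011, nat_lit 0, nat_lit 4, nat_lit 0x45⟩ (.nil) (.nil)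
def t14_11410 : Tr := .node ⟨nat_lit 7, nat_lit 0x4000100060, nat_lit 0x1101010, nat_lit 0, nat_lit 4, nat_lit 0x48⟩ (.nil) (.nil)
def t14_7314 : Tr := .node ⟨nat_lit 7, nat_lit 0x400040004000200070, nat_lit 0x120021, nat_lit 4, nat_lit 4, nat_lit 0x48⟩ (.nil) (.nil)
def t14_15506 : Tr := .node ⟨nat_lit 8, nat_lit 0x800040008800c0, nat_lit 0x10111021, nat_lit 0, nat_lit 4, nat_lit 0x49⟩ (.nil) (.nil)
def t14_658 : Tr := .node ⟨nat_lit 6, nat_lit 0x800200030, nat_lit 0x20031, nat_lit 3, nat_lit 4, nat_lit 0x48⟩ (.nil) (.nil)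
def t14_8850 : Tr := .node ⟨nat_lit 7, nat_lit 0x10002000400062, nat_lit 0x1000310, nat_lit 0, nat_lit 4, nat_lit 0x47⟩ (.nil) (.nil)
def t14_4754 : Tr := .node ⟨nat_lit 8, nat_lit 0x200080008800c000c8, nat_lit 0x10001032, nat_lit 0, nat_lit 4, nat_lit 0x47⟩ (.nil) (.nil)
def t14_12946 : Tr := .node ⟨nat_lit 7, nat_lit 0x20004000100060, nat_lit 0x2000, nat_lit 3, nat_lit 4, nat_lit 0x47⟩ (.nil) (.nil)
def t14_2706 : Tr := .node ⟨nat_lit 6, nat_lit 0x800300038, nat_lit 0x101031, nat_lit 2, nat_lit 4, nat_lit 0x46⟩ (.nil) (.nil)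
def t14_10898 : Tr := .node ⟨nat_lit 3, nat_lit 4, nat_lit 0x24, nat_lit 5, nat_lit 3, nat_lit 0x45⟩ (.nil) (.nil)
def t14_6802 : Tr := .node ⟨nat_lit 6, nat_lit 0x200030, nat_lit 0x22110, nat_lit 1, nat_lit 4, nat_lit 0x49⟩ (.nil) (.nil)
def t14_14994 : Tr := .node ⟨nat_lit 7, nat_lit 0x4000400040, nat_lit 0x1111111, nat_lit 0, nat_lit 3, nat_lit 0x49⟩ (.nil) (.nil)
def t14_1682 : Tr := .node ⟨nat_lit 7, nat_lit 0x40002000600068, nat_lit 0x12021, nat_lit 2, nat_lit 4, nat_lit 0x47⟩ (.nil) (.nil)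
def t14_9874 : Tr := .node ⟨nat_lit 5, nat_lit 0x10001000100018, nat_lit 0x1201, nat_lit 0xe, nat_lit 4, nat_lit 0x48⟩ (.nil) (.nil)
def t14_5778 : Tr := .node ⟨nat_lit 4, nat_lit 0xc, nat_lit 0x1012, nat_lit 9, nat_lit 4, nat_lit 0x47⟩ (.nil) (.nil)
def t14_13970 : Tr := .node ⟨nat_lit 6, nat_lit 0x2000240034, nat_lit 0x1112, nat_lit 4, nat_lit 4, nat_lit 0x46⟩ (.nil) (.nil)
def t14_3730 : Tr := .node ⟨nat_lit 8, nat_lit 0x4000800090006000d000d0, nat_lit 0x20210110, nat_lit 0, nat_lit 4, nat_lit 0x47⟩ (.nil) (.nil)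
def t14_11922 : Tr := .node ⟨nat_lit 6, nat_lit 0x800300030, nat_lit 0x320, nat_lit 4, nat_lit 4, nat_lit 0x46⟩ (.nil) (.nil)
def t14_7826 : Tr := .node ⟨nat_lit 9, nat_lit 0x800100004000200108, nat_lit 0x2003, nat_lit 1, nat_lit 4, nat_lit 0x49⟩ (.nil) (.nil)
def t9_146 : Tr := .node ⟨nat_lit 5, nat_lit 0x18, nat_lit 0x31111, nat_lit 3, nat_lit 4, nat_lit 0x49⟩ (.node ⟨nat_lit 5, nat_lit 0x40018, nat_lit 0x11101, nat_lit 0, nat_lit 3, nat_lit 0x45⟩ (.node ⟨nat_lit 7, nat_lit 0x200040003000480070, nat_lit 0x302002, nat_lit 0, nat_lit 4, nat_lit 0x47⟩ (.node ⟨nat_lit 6, nat_lit 0x200020, nat_lit 0x21110, nat_lit 2, nat_lit 4, nat_lit 0x49⟩ (.node ⟨nat_lit 6, nat_lit 0x800280030, nat_lit 0x120202, nat_lit 0, nat_lit 4, nat_lit 0x47⟩ (t14_146) (t14_8338)) (.node ⟨nat_lit 8, nat_lit 0x4000400020008000e0, nat_lit 0x120003, nat_lit 2, nat_lit 4, nat_lit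 0x48⟩ (t14_4242) (t14_12434))) (.node ⟨nat_lit 7, nat_lit 0x4000400060, nat_lit 0x21110, nat_lit 2, nat_lit 4, nat_lit 0x49⟩ (.node ⟨nat_lit 6, nat_lit 0x2000080030, nat_lit 0x11320, nat_lit 0, nat_lit 4, nat_lit 0x47⟩ (t14_2194) (t14_10386)) (.node ⟨nat_lit 5, nat_lit 0x180018, nat_lit 0x11220, nat_lit 7, nat_lit 4, nat_lit 0x48⟩ (t14_6290) (t14_14482)))) (.node ⟨nat_lit 5, nat_lit 0x10, nat_lit 0x2210, nat_lit 4, nat_lit 3, nat_lit 0x48⟩ (.node ⟨nat_lit 6, nat_lit 0x1000200030, nat_lit 0x211121, nat_lit 1, nat_lit 4, nat_lit 0x49⟩ (.node ⟨nat_lit 6, nat_lit 0x200022, nat_lit 0x121130, nat_lit 0, nat_lit 4, nat_lit 0x4a⟩ (t14_1170) (t14_9362)) (.node ⟨nat_lit 7, nat_lit 0x1000400060, nat_lit 0x1102021, nat_lit 3, nat_lit 4, nat_lit 0x4a⟩ (t14_5266) (t14_13458))) (.node ⟨nat_lit 6, nat_lit 0x2000200010, nat_lit 0x12200, nat_lit 5, nat_lit 4, nat_lit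 0x49⟩ (.node ⟨nat_lit 5, nat_lit 0x100018, nat_lit 0x10230, nat_lit 3, nat_lit 4, nat_lit 0x48⟩ (t14_3218) (t14_11410)) (.node ⟨nat_lit 6, nat_lit 0x300028, nat_lit 0x100210, nat_lit 2, nat_lit 4, nat_lit 0x47⟩ (t14_7314) (t14_15506))))) (.node ⟨nat_lit 7, nat_lit 0x40002000200010, nat_lit 0x30102, nat_lit 3, nat_lit 4, nat_lit 0x4a⟩ (.node ⟨nat_lit 5, nat_lit 0x100008, nat_lit 0x2102, nat_lit 7, nat_lit 4, nat_lit 0x49⟩ (.node ⟨nat_lit 6, nat_lit 0x200030, nat_lit 0x112201, nat_lit 0, nat_lit 3, nat_lit 0x48⟩ (.node ⟨nat_lit 7, nat_lit 0x1000600060, nat_lit 0x1021121, nat_lit 0, nat_lit 4, nat_lit 0x49⟩ (t14_658) (t14_8850)) (.node ⟨nat_lit 7, nat_lit 0x400020002000500068, nat_lit 0x112011, nat_lit 3, nat_lit 4, nat_lit 0x47⟩ (t14_4754) (t14_12946))) (.node ⟨nat_lit 6, nat_lit 0x20001000280034, nat_lit 0x111102, nat_lit 2, nat_lit 4, nat_lit 0x46⟩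 (.node ⟨nat_lit 7, nat_lit 0x40004000200020, nat_lit 0x1112030, nat_lit 0, nat_lit 4, nat_lit 0x4a⟩ (t14_2706) (t14_10898)) (.node ⟨nat_lit 7, nat_lit 0x200020002000400070, nat_lit 0x1011122, nat_lit 3, nat_lit 4, nat_lit 0x48⟩ (t14_6802) (t14_14994)))) (.node ⟨nat_lit 1, nat_lit 0, nat_lit 3, nat_lit 0x12, nat_lit 4, nat_lit 0x46⟩ (.node ⟨nat_lit 7, nat_lit 0x4000180064, nat_lit 0x1120111, nat_lit 0, nat_lit 4, nat_lit 0x48⟩ (.node ⟨nat_lit 5, nat_lit 0x180014, nat_lit 0x2113, nat_lit 2, nat_lit 4, nat_lit 0x46⟩ (t14_1682) (t14_9874)) (.node ⟨nat_lit 6, nat_lit 0x200030, nat_lit 0x122202, nat_lit 0, nat_lit 4, nat_lit 0x4a⟩ (t14_5778) (t14_13970))) (.node ⟨nat_lit 7, nat_lit 0x6000180050, nat_lit 0x2221, nat_lit 0, nat_lit 4, nat_lit 0x47⟩ (.node ⟨nat_lit 5, nat_lit 0x18001c, nat_lit 0x10003, nat_lit 5, nat_lit 4, nat_lit 0x45⟩ (t14_3730) (t14_11922))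 (.node ⟨nat_lit 7, nat_lit 0x10004000400060, nat_lit 0x1100221, nat_lit 0, nat_lit 3, nat_lit 0x47⟩ (t14_7826) (.nil)))))
def t14_402 : Tr := .node ⟨nat_lit 6, nat_lit 0x1000100020, nat_lit 0x112111, nat_lit 6, nat_lit 4, nat_lit 0x4a⟩ (.nil) (.nil)
def t14_8594 : Tr := .node ⟨nat_lit 6, nat_lit 0x800300030, nat_lit 0x100010, nat_lit 2, nat_lit 3, nat_lit 0x45⟩ (.nil) (.nil)
def t14_4498 : Tr := .node ⟨nat_lit 5, nat_lit 0x1000140018, nat_lit 0x12211, nat_lit 6, nat_lit 4, nat_lit 0x48⟩ (.nil) (.nil)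
def t14_12690 : Tr := .node ⟨nat_lit 6, nat_lit 0x800300028, nat_lit 0x1200, nat_lit 1, nat_lit 4, nat_lit 0x46⟩ (.nil) (.nil)
def t14_2450 : Tr := .node ⟨nat_lit 6, nat_lit 0x300038, nat_lit 0x110202, nat_lit 3, nat_lit 4, nat_lit 0x48⟩ (.nil) (.nil)
def t14_10642 : Tr := .node ⟨nat_lit 6, nat_lit 0x800280030, nat_lit 0x320, nat_lit 2, nat_lit 4, nat_lit 0x46⟩ (.nil) (.nil)
def t14_6546 : Tr := .node ⟨nat_lit 7, nat_lit 0x10004000440064, nat_lit 0x1100021, nat_lit 0, nat_lit 4, nat_lit 0x46⟩ (.nil) (.nil)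
def t14_14738 : Tr := .node ⟨nat_lit 7, nat_lit 0x20006000600050, nat_lit 0x21112, nat_lit 0, nat_lit 4, nat_lit 0x47⟩ (.nil) (.nil)
def t14_1426 : Tr := .node ⟨nat_lit 6, nat_lit 0x20001000100028, nat_lit 0x101311, nat_lit 2, nat_lit 4, nat_lit 0x47⟩ (.nil) (.nil)
def t14_9618 : Tr := .node ⟨nat_lit 7, nat_lit 0x400020005000600068, nat_lit 0x22020, nat_lit 2, nat_lit 4, nat_lit 0x46⟩ (.nil) (.nil)
def t14_5522 : Tr := .node ⟨nat_lit 7, nat_lit 0x400060, nat_lit 0x11131, nat_lit 2, nat_lit 4, nat_lit 0x4a⟩ (.nil) (.nil)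
def t14_13714 : Tr := .node ⟨nat_lit 8, nat_lit 0x2000800088006000c0, nat_lit 0x2110, nat_lit 1, nat_lit 4, nat_lit 0x47⟩ (.nil) (.nil)
def t14_3474 : Tr := .node ⟨nat_lit 6, nat_lit 0x20001000300030, nat_lit 0x220, nat_lit 1, nat_lit 3, nat_lit 0x44⟩ (.nil) (.nil)
def t14_11666 : Tr := .node ⟨nat_lit 8, nat_lit 0x20008000c000c0, nat_lit 0x10410, nat_lit 1, nat_lit 4, nat_lit 0x49⟩ (.nil) (.nil)
def t14_7570 : Tr := .node ⟨nat_lit 7, nat_lit 0x400020002000500060, nat_lit 0x22003, nat_lit 2, nat_lit 4, nat_lit 0x47⟩ (.nil) (.nil)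
def t14_914 : Tr := .node ⟨nat_lit 7, nat_lit 0x10003000600050, nat_lit 0x1102112, nat_lit 0, nat_lit 4, nat_lit 0x47⟩ (.nil) (.nil)
def t14_9106 : Tr := .node ⟨nat_lit 6, nat_lit 0x20002000100028, nat_lit 0x11100, nat_lit 5, nat_lit 4, nat_lit 0x47⟩ (.nil) (.nil)
def t14_5010 : Tr := .node ⟨nat_lit 5, nat_lit 0x180014, nat_lit 0x111, nat_lit 6, nat_lit 4, nat_lit 0x46⟩ (.nil) (.nil)
def t14_13202 : Tr := .node ⟨nat_lit 7, nat_lit 0x40002000480068, nat_lit 0x22001, nat_lit 0, nat_lit 4, nat_lit 0x47⟩ (.nil) (.nil)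
def t14_2962 : Tr := .node ⟨nat_lit 6, nat_lit 0x2000080030, nat_lit 0x100003, nat_lit 0, nat_lit 4, nat_lit 0x46⟩ (.nil) (.nil)
def t14_11154 : Tr := .node ⟨nat_lit 6, nat_lit 0x80030, nat_lit 0x100100, nat_lit 2, nat_lit 4, nat_lit 0x47⟩ (.nil) (.nil)
def t14_7058 : Tr := .node ⟨nat_lit 8, nat_lit 0x4000800020002000c0, nat_lit 0x1011101, nat_lit 1, nat_lit 4, nat_lit 0x48⟩ (.nil) (.nil)
def t14_15250 : Tr := .node ⟨nat_lit 7, nat_lit 0x20004000400068, nat_lit 0x12110, nat_lit 0, nat_lit 4, nat_lit 0x47⟩ (.nil) (.nil)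
def t14_1938 : Tr := .node ⟨nat_lit 6, nat_lit 0x200030, nat_lit 0x200012, nat_lit 0, nat_lit 4, nat_lit 0x48⟩ (.nil) (.nil)
def t14_10130 : Tr := .node ⟨nat_lit 7, nat_lit 0x40002000200020, nat_lit 0x100, nat_lit 0, nat_lit 4, nat_lit 0x47⟩ (.nil) (.nil)
def t14_6034 : Tr := .node ⟨nat_lit 7, nat_lit 0x4000100060, nat_lit 0x1121110, nat_lit 1, nat_lit 4, nat_lit 0x4a⟩ (.nil) (.nil)
def t14_14226 : Tr := .node ⟨nat_lit 5, nat_lit 0x1000100018, nat_lit 0x1112, nat_lit 7, nat_lit 4, nat_lit 0x47⟩ (.nil) (.nil)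
def t14_3986 : Tr := .node ⟨nat_lit 6, nat_lit 0x2000080030, nat_lit 0x101130, nat_lit 2, nat_lit 4, nat_lit 0x48⟩ (.nil) (.nil)
def t14_12178 : Tr := .node ⟨nat_lit 6, nat_lit 0x10001000200038, nat_lit 0x2111, nat_lit 3, nat_lit 4, nat_lit 0x46⟩ (.nil) (.nil)
def t14_8082 : Tr := .node ⟨nat_lit 7, nat_lit 0x4000400044, nat_lit 0x111113, nat_lit 0, nat_lit 4, nat_lit 0x49⟩ (.nil) (.nil)
def t9_402 : Tr := .node ⟨nat_lit 5, nat_lit 0x100018, nat_lit 0x20321, nat_lit 3, nat_lit 4, nat_lit 0x49⟩ (.node ⟨nat_lit 7, nat_lit 0x1000200040, nat_lit 0x1113101, nat_lit 2, nat_lit 4, nat_lit 0x4b⟩ (.node ⟨nat_lit 5, nat_lit 0x18, nat_lit 0x20212, nat_lit 2, nat_lit 4, nat_lit 0x48⟩ (.node ⟨nat_lit 5, nat_lit 0x40018, nat_lit 0x21012, nat_lit 2, nat_lit 3, nat_lit 0x46⟩ (.node ⟨nat_lit 7, nat_lit 0x40005000680068, nat_lit 0x2000121, nat_lit 1, nat_lit 4, nat_lit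 0x46⟩ (t14_402) (t14_8594)) (.node ⟨nat_lit 8, nat_lit 0x8000800020009000d0, nat_lit 0x11020012, nat_lit 0, nat_lit 4, nat_lit 0x49⟩ (t14_4498) (t14_12690))) (.node ⟨nat_lit 6, nat_lit 0x200030, nat_lit 0x202212, nat_lit 2, nat_lit 4, nat_lit 0x4a⟩ (.node ⟨nat_lit 7, nat_lit 0x10004000400064, nat_lit 0x110101, nat_lit 1, nat_lit 4, nat_lit 0x47⟩ (t14_2450) (t14_10642)) (.node ⟨nat_lit 7, nat_lit 0x4000100060, nat_lit 0x12210, nat_lit 2, nat_lit 4, nat_lit 0x49⟩ (t14_6546) (t14_14738)))) (.node ⟨nat_lit 6, nat_lit 0x800200030, nat_lit 0x112201, nat_lit 0, nat_lit 3, nat_lit 0x47⟩ (.node ⟨nat_lit 7, nat_lit 0x5000500060, nat_lit 0x211211, nat_lit 1, nat_lit 4, nat_lit 0x48⟩ (.node ⟨nat_lit 4, nat_lit 0xc, nat_lit 0x1110, nat_lit 3, nat_lit 4, nat_lit 0x45⟩ (t14_1426) (t14_9618)) (.node ⟨nat_lit 6, nat_lit 0x20002000100038, nat_lit 0x112112, nat_lit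 4, nat_lit 4, nat_lit 0x48⟩ (t14_5522) (t14_13714))) (.node ⟨nat_lit 7, nat_lit 0x20002000200040, nat_lit 0x1022001, nat_lit 0, nat_lit 4, nat_lit 0x49⟩ (.node ⟨nat_lit 7, nat_lit 0x6000600050, nat_lit 0x22003, nat_lit 0, nat_lit 4, nat_lit 0x48⟩ (t14_3474) (t14_11666)) (.node ⟨nat_lit 6, nat_lit 0x200030, nat_lit 0x121121, nat_lit 2, nat_lit 4, nat_lit 0x4a⟩ (t14_7570) (.nil))))) (.node ⟨nat_lit 5, nat_lit 0x100008, nat_lit 0x1100, nat_lit 0, nat_lit 3, nat_lit 0x45⟩ (.node ⟨nat_lit 5, nat_lit 0x18, nat_lit 0x10221, nat_lit 2, nat_lit 4, nat_lit 0x48⟩ (.node ⟨nat_lit 7, nat_lit 0x400020, nat_lit 0x111101, nat_lit 1, nat_lit 4, nat_lit 0x4a⟩ (.node ⟨nat_lit 7, nat_lit 0x200040, nat_lit 0x2211101, nat_lit 1, nat_lit 4, nat_lit 0x4c⟩ (t14_914) (t14_9106)) (.node ⟨nat_lit 8, nat_lit 0x20001000c0, nat_lit 0x21011002, nat_lit 1, nat_lit 4, nat_lit 0x4b⟩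 (t14_5010) (t14_13202))) (.node ⟨nat_lit 7, nat_lit 0x20002000400042, nat_lit 0x1011021, nat_lit 0, nat_lit 4, nat_lit 0x48⟩ (.node ⟨nat_lit 7, nat_lit 0x40002000480048, nat_lit 0x1112110, nat_lit 1, nat_lit 4, nat_lit 0x49⟩ (t14_2962) (t14_11154)) (.node ⟨nat_lit 7, nat_lit 0x4000100060, nat_lit 0x1111202, nat_lit 2, nat_lit 4, nat_lit 0x4a⟩ (t14_7058) (t14_15250)))) (.node ⟨nat_lit 5, nat_lit 0x40018, nat_lit 0x10000, nat_lit 1, nat_lit 3, nat_lit 0x44⟩ (.node ⟨nat_lit 7, nat_lit 0x4000100060, nat_lit 0x212111, nat_lit 2, nat_lit 4, nat_lit 0x4a⟩ (.node ⟨nat_lit 7, nat_lit 0x2000500060, nat_lit 0x1102013, nat_lit 0, nat_lit 4, nat_lit 0x49⟩ (t14_1938) (t14_10130)) (.node ⟨nat_lit 7, nat_lit 0x40001000600060, nat_lit 0x12030, nat_lit 0, nat_lit 4, nat_lit 0x47⟩ (t14_6034) (t14_14226))) (.node ⟨nat_lit 5, nat_lit 0x40018, nat_lit 0x110, nat_lit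 0, nat_lit 4, nat_lit 0x44⟩ (.node ⟨nat_lit 7, nat_lit 0x40001000600070, nat_lit 0x101013, nat_lit 1, nat_lit 4, nat_lit 0x46⟩ (t14_3986) (t14_12178)) (.node ⟨nat_lit 8, nat_lit 0x4000800080008800c800d0, nat_lit 0x10211010, nat_lit 1, nat_lit 4, nat_lit 0x47⟩ (t14_8082) (.nil)))))
def t14_82 : Tr := .node ⟨nat_lit 5, nat_lit 0x180018, nat_lit 0x11311, nat_lit 3, nat_lit 4, nat_lit 0x48⟩ (.nil) (.nil)
def t14_8274 : Tr := .node ⟨nat_lit 4, nat_lit 0xc, nat_lit 0x14, nat_lit 4, nat_lit 4, nat_lit 0x45⟩ (.nil) (.nil)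
def t14_4178 : Tr := .node ⟨nat_lit 0xa, nat_lit 0x200020002000100021002200240, nat_lit 0x110111000, nat_lit 1, nat_lit 4, nat_lit 0x4a⟩ (.nil) (.nil)
def t14_12370 : Tr := .node ⟨nat_lit 7, nat_lit 0x40002000480060, nat_lit 0x13120, nat_lit 0, nat_lit 4, nat_lit 0x48⟩ (.nil) (.nil)
def t14_2130 : Tr := .node ⟨nat_lit 8, nat_lit 0x2000800080004000c0, nat_lit 0x1002102, nat_lit 2, nat_lit 4, nat_lit 0x49⟩ (.nil) (.nil)
def t14_10322 : Tr := .node ⟨nat_lit 7, nat_lit 0x10001000600060, nat_lit 0x1001022, nat_lit 2, nat_lit 4, nat_lit 0x47⟩ (.nil) (.nil)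
def t14_6226 : Tr := .node ⟨nat_lit 7, nat_lit 0x4000200060, nat_lit 0x11002, nat_lit 2, nat_lit 4, nat_lit 0x48⟩ (.nil) (.nil)
def t14_14418 : Tr := .node ⟨nat_lit 8, nat_lit 0x400040008000800080, nat_lit 0x21110, nat_lit 1, nat_lit 4, nat_lit 0x49⟩ (.nil) (.nil)
def t14_1106 : Tr := .node ⟨nat_lit 6, nat_lit 0x80030, nat_lit 0x100120, nat_lit 1, nat_lit 4, nat_lit 0x47⟩ (.nil) (.nil)
def t14_9298 : Tr := .node ⟨nat_lit 9, nat_lit 0x4001000080008001800188, nat_lit 0x21021, nat_lit 0, nat_lit 4, nat_lit 0x48⟩ (.nil) (.nil)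
def t14_5202 : Tr := .node ⟨nat_lit 6, nat_lit 0x20001000280034, nat_lit 0x12111, nat_lit 3, nat_lit 4, nat_lit 0x46⟩ (.nil) (.nil)
def t14_13394 : Tr := .node ⟨nat_lit 7, nat_lit 0x4000400060, nat_lit 0x1000002, nat_lit 0, nat_lit 3, nat_lit 0x47⟩ (.nil) (.nil)
def t14_3154 : Tr := .node ⟨nat_lit 7, nat_lit 0x6000600050, nat_lit 0x11211, nat_lit 2, nat_lit 4, nat_lit 0x47⟩ (.nil) (.nil)
def t14_11346 : Tr := .node ⟨nat_lit 4, nat_lit 0x8000c, nat_lit 0x10, nat_lit 7, nat_lit 3, nat_lit 0x44⟩ (.nil) (.nil)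
def t14_7250 : Tr := .node ⟨nat_lit 4, nat_lit 0xe, nat_lit 0x2202, nat_lit 3, nat_lit 4, nat_lit 0x46⟩ (.nil) (.nil)
def t14_15442 : Tr := .node ⟨nat_lit 7, nat_lit 0x40001000600060, nat_lit 0x1101022, nat_lit 0, nat_lit 4, nat_lit 0x48⟩ (.nil) (.nil)
def t14_594 : Tr := .node ⟨nat_lit 6, nat_lit 0x2000300028, nat_lit 0x202, nat_lit 3, nat_lit 4, nat_lit 0x46⟩ (.nil) (.nil)
def t14_8786 : Tr := .node ⟨nat_lit 8, nat_lit 0x80008000400040004000a0, nat_lit 0x201103, nat_lit 0, nat_lit 4, nat_lit 0x48⟩ (.nil) (.nil)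
def t14_4690 : Tr := .node ⟨nat_lit 8, nat_lit 0x4000400080008000d0, nat_lit 0x1010102, nat_lit 0, nat_lit 4, nat_lit 0x48⟩ (.nil) (.nil)
def t14_12882 : Tr := .node ⟨nat_lit 6, nat_lit 0x10002000200020, nat_lit 0x31200, nat_lit 0, nat_lit 3, nat_lit 0x47⟩ (.nil) (.nil)
def t14_2642 : Tr := .node ⟨nat_lit 5, nat_lit 0x40018, nat_lit 0x33, nat_lit 0, nat_lit 4, nat_lit 0x45⟩ (.nil) (.nil)
def t14_10834 : Tr := .node ⟨nat_lit 8, nat_lit 0x40008000c000c4, nat_lit 0x10110122, nat_lit 0, nat_lit 4, nat_lit 0x49⟩ (.nil) (.nil)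
def t14_6738 : Tr := .node ⟨nat_lit 7, nat_lit 0x40002000500068, nat_lit 0x121001, nat_lit 1, nat_lit 4, nat_lit 0x47⟩ (.nil) (.nil)
def t14_14930 : Tr := .node ⟨nat_lit 8, nat_lit 0x800040004000a000a000a0, nat_lit 0x10110211, nat_lit 0, nat_lit 4, nat_lit 0x48⟩ (.nil) (.nil)
def t14_1618 : Tr := .node ⟨nat_lit 6, nat_lit 0x2000080030, nat_lit 0x10120, nat_lit 1, nat_lit 4, nat_lit 0x46⟩ (.nil) (.nil)
def t14_9810 : Tr := .node ⟨nat_lit 7, nat_lit 0x6000600060, nat_lit 0x11210, nat_lit 0, nat_lit 4, nat_lit 0x47⟩ (.nil) (.nil)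
def t14_5714 : Tr := .node ⟨nat_lit 8, nat_lit 0x800040009000c00060, nat_lit 0x10013120, nat_lit 0, nat_lit 4, nat_lit 0x48⟩ (.nil) (.nil)
def t14_13906 : Tr := .node ⟨nat_lit 6, nat_lit 0x2000080030, nat_lit 0x1440, nat_lit 0, nat_lit 4, nat_lit 0x48⟩ (.nil) (.nil)
def t14_3666 : Tr := .node ⟨nat_lit 6, nat_lit 0x1000280034, nat_lit 0x122012, nat_lit 2, nat_lit 4, nat_lit 0x48⟩ (.nil) (.nil)
def t14_11858 : Tr := .node ⟨nat_lit 5, nat_lit 0x100008001a, nat_lit 0x31, nat_lit 6, nat_lit 4, nat_lit 0x46⟩ (.nil) (.nil)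
def t14_7762 : Tr := .node ⟨nat_lit 9, nat_lit 0x1000100010000800088012001c0, nat_lit 0x1002002, nat_lit 1, nat_lit 4, nat_lit 0x47⟩ (.nil) (.nil)
def t9_82 : Tr := .node ⟨nat_lit 4, nat_lit 8, nat_lit 0x110, nat_lit 3, nat_lit 3, nat_lit 0x45⟩ (.node ⟨nat_lit 5, nat_lit 0, nat_lit 0x32221, nat_lit 2, nat_lit 4, nat_lit 0x4c⟩ (.node ⟨nat_lit 7, nat_lit 0x20004000600064, nat_lit 0x13202, nat_lit 0, nat_lit 4, nat_lit 0x47⟩ (.node ⟨nat_lit 8, nat_lit 0x800088008800c0, nat_lit 0x10210001, nat_lit 1, nat_lit 4, nat_lit 0x49⟩ (.node ⟨nat_lit 7, nat_lit 0x40004000200048, nat_lit 0x1211131, nat_lit 0, nat_lit 4, nat_lit 0x4a⟩ (t14_82) (t14_8274)) (.node ⟨nat_lit 7, nat_lit 0x20003000600050, nat_lit 0x1000004, nat_lit 0, nat_lit 4, nat_lit 0x46⟩ (t14_4178) (t14_12370))) (.node ⟨nat_lit 7, nat_lit 0x40001000100060, nat_lit 0x2102102, nat_lit 0, nat_lit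 4, nat_lit 0x49⟩ (.node ⟨nat_lit 6, nat_lit 0x800200030, nat_lit 0x100014, nat_lit 1, nat_lit 4, nat_lit 0x47⟩ (t14_2130) (t14_10322)) (.node ⟨nat_lit 8, nat_lit 0x8000800040009000c0, nat_lit 0x1201002, nat_lit 2, nat_lit 4, nat_lit 0x49⟩ (t14_6226) (t14_14418)))) (.node ⟨nat_lit 6, nat_lit 0x200030, nat_lit 0x2203, nat_lit 1, nat_lit 4, nat_lit 0x48⟩ (.node ⟨nat_lit 5, nat_lit 0x18, nat_lit 0x22101, nat_lit 0, nat_lit 4, nat_lit 0x48⟩ (.node ⟨nat_lit 7, nat_lit 0x20002000200040, nat_lit 0x1011103, nat_lit 0, nat_lit 4, nat_lit 0x49⟩ (t14_1106) (t14_9298)) (.node ⟨nat_lit 7, nat_lit 0x40001000600060, nat_lit 0x112131, nat_lit 0, nat_lit 4, nat_lit 0x48⟩ (t14_5202) (t14_13394))) (.node ⟨nat_lit 7, nat_lit 0x4000200020, nat_lit 0x121010, nat_lit 2, nat_lit 4, nat_lit 0x4a⟩ (.node ⟨nat_lit 5, nat_lit 0x40018, nat_lit 0x10210, nat_lit 3, nat_lit 4,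 nat_lit 0x47⟩ (t14_3154) (t14_11346)) (.node ⟨nat_lit 7, nat_lit 0x40002000200048, nat_lit 0x1011202, nat_lit 0, nat_lit 4, nat_lit 0x48⟩ (t14_7250) (t14_15442))))) (.node ⟨nat_lit 4, nat_lit 0xc, nat_lit 0x2010, nat_lit 3, nat_lit 3, nat_lit 0x45⟩ (.node ⟨nat_lit 5, nat_lit 0x1000080014, nat_lit 0x2020, nat_lit 3, nat_lit 4, nat_lit 0x46⟩ (.node ⟨nat_lit 6, nat_lit 0x2000300030, nat_lit 0x12021, nat_lit 2, nat_lit 4, nat_lit 0x47⟩ (.node ⟨nat_lit 5, nat_lit 0x800100018, nat_lit 0x12220, nat_lit 3, nat_lit 4, nat_lit 0x48⟩ (t14_594) (t14_8786)) (.node ⟨nat_lit 7, nat_lit 0x400060, nat_lit 0x1111102, nat_lit 0, nat_lit 4, nat_lit 0x4a⟩ (t14_4690) (t14_12882))) (.node ⟨nat_lit 6, nat_lit 0x300028, nat_lit 0x100112, nat_lit 3, nat_lit 4, nat_lit 0x47⟩ (.node ⟨nat_lit 7, nat_lit 0x40002000480070, nat_lit 0x1121103, nat_lit 0, nat_lit 4, nat_lit 0x48⟩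 (t14_2642) (t14_10834)) (.node ⟨nat_lit 7, nat_lit 0x400040002000500048, nat_lit 0x1121110, nat_lit 4, nat_lit 4, nat_lit 0x49⟩ (t14_6738) (t14_14930)))) (.node ⟨nat_lit 6, nat_lit 0x80030, nat_lit 0x112210, nat_lit 0, nat_lit 4, nat_lit 0x49⟩ (.node ⟨nat_lit 6, nat_lit 0x200030, nat_lit 0x32201, nat_lit 1, nat_lit 4, nat_lit 0x4a⟩ (.node ⟨nat_lit 5, nat_lit 0x800100018, nat_lit 0x111, nat_lit 2, nat_lit 4, nat_lit 0x44⟩ (t14_1618) (t14_9810)) (.node ⟨nat_lit 7, nat_lit 0x600050, nat_lit 0x1002211, nat_lit 3, nat_lit 4, nat_lit 0x4a⟩ (t14_5714) (t14_13906))) (.node ⟨nat_lit 6, nat_lit 0x280030, nat_lit 0x12120, nat_lit 2, nat_lit 4, nat_lit 0x48⟩ (.node ⟨nat_lit 7, nat_lit 0x40004000100060, nat_lit 0x11000, nat_lit 1, nat_lit 4, nat_lit 0x47⟩ (t14_3666) (t14_11858)) (.node ⟨nat_lit 6, nat_lit 0x1000280030, nat_lit 0x110021, nat_lit 1, nat_lit 4,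 nat_lit 0x46⟩ (t14_7762) (.nil)))))
def t14_338 : Tr := .node ⟨nat_lit 6, nat_lit 0x2000300038, nat_lit 0x102112, nat_lit 3, nat_lit 4, nat_lit 0x47⟩ (.nil) (.nil)
def t14_8530 : Tr := .node ⟨nat_lit 6, nat_lit 0x20001000100028, nat_lit 0x101104, nat_lit 1, nat_lit 4, nat_lit 0x47⟩ (.nil) (.nil)
def t14_4434 : Tr := .node ⟨nat_lit 8, nat_lit 0x4000800020008800c0, nat_lit 0x11121001, nat_lit 0, nat_lit 4, nat_lit 0x49⟩ (.nil) (.nil)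
def t14_12626 : Tr := .node ⟨nat_lit 8, nat_lit 0x800040009000c00060, nat_lit 0x10002030, nat_lit 2, nat_lit 4, nat_lit 0x48⟩ (.nil) (.nil)
def t14_2386 : Tr := .node ⟨nat_lit 7, nat_lit 0x20004000100060, nat_lit 0x12210, nat_lit 0, nat_lit 4, nat_lit 0x47⟩ (.nil) (.nil)
def t14_10578 : Tr := .node ⟨nat_lit 6, nat_lit 0x20001000300038, nat_lit 0x1200, nat_lit 3, nat_lit 4, nat_lit 0x45⟩ (.nil) (.nil)
def t14_6482 : Tr := .node ⟨nat_lit 6, nat_lit 0x80030, nat_lit 0x110100, nat_lit 3, nat_lit 4, nat_lit 0x48⟩ (.nil) (.nil)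
def t14_14674 : Tr := .node ⟨nat_lit 9, nat_lit 0x80008001000100010801c00190, nat_lit 0x1111110, nat_lit 2, nat_lit 4, nat_lit 0x47⟩ (.nil) (.nil)
def t14_1362 : Tr := .node ⟨nat_lit 6, nat_lit 0x800300030, nat_lit 0x100311, nat_lit 0, nat_lit 4, nat_lit 0x46⟩ (.nil) (.nil)
def t14_9554 : Tr := .node ⟨nat_lit 8, nat_lit 0x8000c000a000c8, nat_lit 0x1012201, nat_lit 0, nat_lit 4, nat_lit 0x48⟩ (.nil) (.nil)
def t14_5458 : Tr := .node ⟨nat_lit 6, nat_lit 0x800100020, nat_lit 0x10103, nat_lit 1, nat_lit 4, nat_lit 0x47⟩ (.nil) (.nil)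
def t14_13650 : Tr := .node ⟨nat_lit 6, nat_lit 0x200030, nat_lit 0x1102, nat_lit 4, nat_lit 4, nat_lit 0x48⟩ (.nil) (.nil)
def t14_3410 : Tr := .node ⟨nat_lit 7, nat_lit 0x20005000680070, nat_lit 0x1201, nat_lit 0, nat_lit 4, nat_lit 0x44⟩ (.nil) (.nil)
def t14_11602 : Tr := .node ⟨nat_lit 6, nat_lit 0x800300038, nat_lit 0x1201, nat_lit 0, nat_lit 4, nat_lit 0x45⟩ (.nil) (.nil)
def t14_7506 : Tr := .node ⟨nat_lit 7, nat_lit 0x400040002000200050, nat_lit 0x120112, nat_lit 2, nat_lit 4, nat_lit 0x48⟩ (.nil) (.nil)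
def t14_850 : Tr := .node ⟨nat_lit 7, nat_lit 0x40001000480060, nat_lit 0x1010103, nat_lit 0, nat_lit 4, nat_lit 0x47⟩ (.nil) (.nil)
def t14_9042 : Tr := .node ⟨nat_lit 5, nat_lit 0x100018001c, nat_lit 0x1212, nat_lit 7, nat_lit 4, nat_lit 0x46⟩ (.nil) (.nil)
def t14_4946 : Tr := .node ⟨nat_lit 8, nat_lit 0x80002000c000e0, nat_lit 0x1011013, nat_lit 0, nat_lit 4, nat_lit 0x48⟩ (.nil) (.nil)
def t14_13138 : Tr := .node ⟨nat_lit 7, nat_lit 0x40003000580068, nat_lit 0x2300, nat_lit 1, nat_lit 4, nat_lit 0x45⟩ (.nil) (.nil)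
def t14_2898 : Tr := .node ⟨nat_lit 7, nat_lit 0x4000500060, nat_lit 0x211201, nat_lit 0, nat_lit 4, nat_lit 0x49⟩ (.nil) (.nil)
def t14_11090 : Tr := .node ⟨nat_lit 7, nat_lit 0x10004000600060, nat_lit 0x220, nat_lit 3, nat_lit 4, nat_lit 0x47⟩ (.nil) (.nil)
def t14_6994 : Tr := .node ⟨nat_lit 6, nat_lit 0x2000300028, nat_lit 0x101211, nat_lit 3, nat_lit 3, nat_lit 0x46⟩ (.nil) (.nil)
def t14_15186 : Tr := .node ⟨nat_lit 7, nat_lit 0x1000500060, nat_lit 0x1112012, nat_lit 0, nat_lit 4, nat_lit 0x49⟩ (.nil) (.nil)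
def t14_1874 : Tr := .node ⟨nat_lit 7, nat_lit 0x40002000480060, nat_lit 0x21201, nat_lit 0, nat_lit 4, nat_lit 0x47⟩ (.nil) (.nil)
def t14_10066 : Tr := .node ⟨nat_lit 7, nat_lit 0x20004000100070, nat_lit 0x1001002, nat_lit 0, nat_lit 4, nat_lit 0x46⟩ (.nil) (.nil)
def t14_5970 : Tr := .node ⟨nat_lit 7, nat_lit 0x4000400044, nat_lit 0x111121, nat_lit 4, nat_lit 4, nat_lit 0x4a⟩ (.nil) (.nil)
def t14_14162 : Tr := .node ⟨nat_lit 7, nat_lit 0x40004000200048, nat_lit 0x112100, nat_lit 4, nat_lit 4, nat_lit 0x49⟩ (.nil) (.nil)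
def t14_3922 : Tr := .node ⟨nat_lit 7, nat_lit 0x40002000500068, nat_lit 0x1001210, nat_lit 2, nat_lit 4, nat_lit 0x47⟩ (.nil) (.nil)
def t14_12114 : Tr := .node ⟨nat_lit 7, nat_lit 0x10002000400060, nat_lit 0x1000310, nat_lit 1, nat_lit 4, nat_lit 0x48⟩ (.nil) (.nil)
def t14_8018 : Tr := .node ⟨nat_lit 4, nat_lit 0x40008, nat_lit 0x10, nat_lit 7, nat_lit 4, nat_lit 0x45⟩ (.nil) (.nil)
def t9_338 : Tr := .node ⟨nat_lit 7, nat_lit 0x400020, nat_lit 0x131101, nat_lit 1, nat_lit 4, nat_lit 0x4b⟩ (.node ⟨nat_lit 6, nat_lit 0x200038, nat_lit 0x31203, nat_lit 0, nat_lit 4, nat_lit 0x49⟩ (.node ⟨nat_lit 3, nat_lit 0, nat_lit 0x222, nat_lit 3, nat_lit 4, nat_lit 0x47⟩ (.node ⟨nat_lit 6, nat_lit 0x80030, nat_lit 0x111202, nat_lit 2, nat_lit 4, nat_lit 0x49⟩ (.node ⟨nat_lit 7, nat_lit 0x40004000200010, nat_lit 0x1122011, nat_lit 1, nat_lit 4, nat_lit 0x4a⟩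 (t14_338) (t14_8530)) (.node ⟨nat_lit 7, nat_lit 0x40001000100060, nat_lit 0x2100103, nat_lit 0, nat_lit 3, nat_lit 0x47⟩ (t14_4434) (t14_12626))) (.node ⟨nat_lit 5, nat_lit 0x140018, nat_lit 0x21121, nat_lit 6, nat_lit 4, nat_lit 0x48⟩ (.node ⟨nat_lit 9, nat_lit 0x100010000400080012001c0, nat_lit 0x1101003, nat_lit 1, nat_lit 4, nat_lit 0x48⟩ (t14_2386) (t14_10578)) (.node ⟨nat_lit 7, nat_lit 0x400060, nat_lit 0x121120, nat_lit 0, nat_lit 4, nat_lit 0x4a⟩ (t14_6482) (t14_14674)))) (.node ⟨nat_lit 7, nat_lit 0x800500060, nat_lit 0x1020022, nat_lit 0, nat_lit 4, nat_lit 0x48⟩ (.node ⟨nat_lit 6, nat_lit 0x2000080010, nat_lit 0x22022, nat_lit 4, nat_lit 4, nat_lit 0x4a⟩ (.node ⟨nat_lit 4, nat_lit 0x8000c, nat_lit 0x240, nat_lit 2, nat_lit 3, nat_lit 0x45⟩ (t14_1362) (t14_9554)) (.node ⟨nat_lit 7, nat_lit 0x20004000440060, nat_lit 0x2010212, nat_lit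 0, nat_lit 4, nat_lit 0x49⟩ (t14_5458) (t14_13650))) (.node ⟨nat_lit 6, nat_lit 0x80030, nat_lit 0x310122, nat_lit 0, nat_lit 4, nat_lit 0x49⟩ (.node ⟨nat_lit 8, nat_lit 0x8000800040002000c0, nat_lit 0x1111003, nat_lit 0, nat_lit 4, nat_lit 0x49⟩ (t14_3410) (t14_11602)) (.node ⟨nat_lit 7, nat_lit 0x400040002000200060, nat_lit 0x20110, nat_lit 1, nat_lit 4, nat_lit 0x47⟩ (t14_7506) (.nil))))) (.node ⟨nat_lit 6, nat_lit 0x2000100030, nat_lit 0x3201, nat_lit 0, nat_lit 4, nat_lit 0x47⟩ (.node ⟨nat_lit 5, nat_lit 0x80010, nat_lit 0x22111, nat_lit 0, nat_lit 4, nat_lit 0x48⟩ (.node ⟨nat_lit 6, nat_lit 0x1000200020, nat_lit 0x11110, nat_lit 1, nat_lit 4, nat_lit 0x47⟩ (.node ⟨nat_lit 6, nat_lit 0x200010, nat_lit 0x221100, nat_lit 1, nat_lit 3, nat_lit 0x49⟩ (t14_850) (t14_9042)) (.node ⟨nat_lit 7, nat_lit 0x600060, nat_lit 0x1022121, nat_lit 0, nat_lit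 4, nat_lit 0x4a⟩ (t14_4946) (t14_13138))) (.node ⟨nat_lit 4, nat_lit 0x8000c, nat_lit 0x1121, nat_lit 8, nat_lit 4, nat_lit 0x47⟩ (.node ⟨nat_lit 8, nat_lit 0x400080002000200088, nat_lit 0x10002101, nat_lit 3, nat_lit 4, nat_lit 0x49⟩ (t14_2898) (t14_11090)) (.node ⟨nat_lit 7, nat_lit 0x10001000600060, nat_lit 0x1101032, nat_lit 2, nat_lit 4, nat_lit 0x48⟩ (t14_6994) (t14_15186)))) (.node ⟨nat_lit 5, nat_lit 0x140018, nat_lit 0x11202, nat_lit 4, nat_lit 4, nat_lit 0x47⟩ (.node ⟨nat_lit 7, nat_lit 0x1000500060, nat_lit 0x121211, nat_lit 0, nat_lit 4, nat_lit 0x49⟩ (.node ⟨nat_lit 7, nat_lit 0x40005800680070, nat_lit 0x1111113, nat_lit 1, nat_lit 4, nat_lit 0x46⟩ (t14_1874) (t14_10066)) (.node ⟨nat_lit 7, nat_lit 0x10004000400020, nat_lit 0x120210, nat_lit 0, nat_lit 4, nat_lit 0x49⟩ (t14_5970) (t14_14162))) (.node ⟨nat_lit 6, nat_lit 0x1000200038,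 nat_lit 0x11022, nat_lit 0, nat_lit 4, nat_lit 0x46⟩ (.node ⟨nat_lit 7, nat_lit 0x40005000300060, nat_lit 0x110032, nat_lit 1, nat_lit 4, nat_lit 0x47⟩ (t14_3922) (t14_12114)) (.node ⟨nat_lit 8, nat_lit 0x400080006000a000d0, nat_lit 0x1021120, nat_lit 0, nat_lit 4, nat_lit 0x47⟩ (t14_8018) (.nil)))))
def t14_210 : Tr := .node ⟨nat_lit 7, nat_lit 0x40001000580068, nat_lit 0x2111112, nat_lit 1, nat_lit 4, nat_lit 0x48⟩ (.nil) (.nil)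
def t14_8402 : Tr := .node ⟨nat_lit 7, nat_lit 0x400040004800500050, nat_lit 0x111031, nat_lit 5, nat_lit 4, nat_lit 0x48⟩ (.nil) (.nil)
def t14_4306 : Tr := .node ⟨nat_lit 8, nat_lit 0x8000800040009000d000e0, nat_lit 0x10111102, nat_lit 1, nat_lit 4, nat_lit 0x47⟩ (.nil) (.nil)
def t14_12498 : Tr := .node ⟨nat_lit 7, nat_lit 0x40004000200048, nat_lit 0x113101, nat_lit 0, nat_lit 4, nat_lit 0x49⟩ (.nil) (.nil)
def t14_2258 : Tr := .node ⟨nat_lit 7, nat_lit 0x400040004000200020, nat_lit 0x130022, nat_lit 0, nat_lit 4, nat_lit 0x49⟩ (.nil) (.nil)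
def t14_10450 : Tr := .node ⟨nat_lit 7, nat_lit 0x10003000500060, nat_lit 0x102202, nat_lit 2, nat_lit 4, nat_lit 0x47⟩ (.nil) (.nil)
def t14_6354 : Tr := .node ⟨nat_lit 7, nat_lit 0x40002000500064, nat_lit 0x101020, nat_lit 1, nat_lit 4, nat_lit 0x46⟩ (.nil) (.nil)
def t14_14546 : Tr := .node ⟨nat_lit 7, nat_lit 0x2000400060, nat_lit 0x11400, nat_lit 1, nat_lit 4, nat_lit 0x49⟩ (.nil) (.nil)
def t14_1234 : Tr := .node ⟨nat_lit 6, nat_lit 0x1000200022, nat_lit 0x101230, nat_lit 0, nat_lit 4, nat_lit 0x48⟩ (.nil) (.nil)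
def t14_9426 : Tr := .node ⟨nat_lit 8, nat_lit 0x40005000a000d000e0, nat_lit 0x1010212, nat_lit 1, nat_lit 4, nat_lit 0x46⟩ (.nil) (.nil)
def t14_5330 : Tr := .node ⟨nat_lit 5, nat_lit 0x180018, nat_lit 0x11140, nat_lit 4, nat_lit 4, nat_lit 0x48⟩ (.nil) (.nil)
def t14_13522 : Tr := .node ⟨nat_lit 7, nat_lit 0x2000200040, nat_lit 0x11000, nat_lit 0, nat_lit 4, nat_lit 0x48⟩ (.nil) (.nil)
def t14_3282 : Tr := .node ⟨nat_lit 7, nat_lit 0x400020002000500068, nat_lit 0x1010201, nat_lit 1, nat_lit 4, nat_lit 0x46⟩ (.nil) (.nil)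
def t14_11474 : Tr := .node ⟨nat_lit 8, nat_lit 0x800080004000a0009000e0, nat_lit 0x10011000, nat_lit 2, nat_lit 4, nat_lit 0x47⟩ (.nil) (.nil)
def t14_7378 : Tr := .node ⟨nat_lit 7, nat_lit 0x40001000200020, nat_lit 0x20100, nat_lit 1, nat_lit 4, nat_lit 0x48⟩ (.nil) (.nil)
def t14_15570 : Tr := .node ⟨nat_lit 7, nat_lit 0x1000200040, nat_lit 0x1111111, nat_lit 6, nat_lit 4, nat_lit 0x4b⟩ (.nil) (.nil)
def t14_722 : Tr := .node ⟨nat_lit 6, nat_lit 0x1000100020, nat_lit 0x1003, nat_lit 1, nat_lit 4, nat_lit 0x47⟩ (.nil) (.nil)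
def t14_8914 : Tr := .node ⟨nat_lit 7, nat_lit 0x20005000680068, nat_lit 0x100130, nat_lit 2, nat_lit 4, nat_lit 0x45⟩ (.nil) (.nil)
def t14_4818 : Tr := .node ⟨nat_lit 7, nat_lit 0x40001000480060, nat_lit 0x1121002, nat_lit 2, nat_lit 4, nat_lit 0x49⟩ (.nil) (.nil)
def t14_13010 : Tr := .node ⟨nat_lit 6, nat_lit 0x800200030, nat_lit 0x10410, nat_lit 0, nat_lit 4, nat_lit 0x47⟩ (.nil) (.nil)
def t14_2770 : Tr := .node ⟨nat_lit 8, nat_lit 0x400040008000d000d0, nat_lit 0x1110210, nat_lit 1, nat_lit 4, nat_lit 0x48⟩ (.nil) (.nil)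
def t14_10962 : Tr := .node ⟨nat_lit 8, nat_lit 0x800040004000a000a000c0, nat_lit 0x10030102, nat_lit 2, nat_lit 4, nat_lit 0x48⟩ (.nil) (.nil)
def t14_6866 : Tr := .node ⟨nat_lit 7, nat_lit 0x4000200062, nat_lit 0x11031, nat_lit 0, nat_lit 4, nat_lit 0x48⟩ (.nil) (.nil)
def t14_15058 : Tr := .node ⟨nat_lit 8, nat_lit 0x4000800020002000c0, nat_lit 0x11021001, nat_lit 1, nat_lit 4, nat_lit 0x49⟩ (.nil) (.nil)
def t14_1746 : Tr := .node ⟨nat_lit 7, nat_lit 0x4000400020, nat_lit 0x1111211, nat_lit 3, nat_lit 4, nat_lit 0x4b⟩ (.nil) (.nil)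
def t14_9938 : Tr := .node ⟨nat_lit 6, nat_lit 0x380034, nat_lit 0x130, nat_lit 2, nat_lit 4, nat_lit 0x45⟩ (.nil) (.nil)
def t14_5842 : Tr := .node ⟨nat_lit 7, nat_lit 0x400060, nat_lit 0x11111, nat_lit 1, nat_lit 4, nat_lit 0x49⟩ (.nil) (.nil)
def t14_14034 : Tr := .node ⟨nat_lit 7, nat_lit 0x40001000200048, nat_lit 0x110010, nat_lit 1, nat_lit 4, nat_lit 0x47⟩ (.nil) (.nil)
def t14_3794 : Tr := .node ⟨nat_lit 8, nat_lit 0x40008000800060008800d0, nat_lit 0x1021011, nat_lit 1, nat_lit 4, nat_lit 0x47⟩ (.nil) (.nil)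
def t14_11986 : Tr := .node ⟨nat_lit 8, nat_lit 0x80008000800040004000a0, nat_lit 0x11220, nat_lit 0, nat_lit 4, nat_lit 0x48⟩ (.nil) (.nil)
def t14_7890 : Tr := .node ⟨nat_lit 8, nat_lit 0x400080005000880060, nat_lit 0x11111, nat_lit 0, nat_lit 4, nat_lit 0x46⟩ (.nil) (.nil)
def t9_210 : Tr := .node ⟨nat_lit 4, nat_lit 0xc, nat_lit 0x2130, nat_lit 5, nat_lit 4, nat_lit 0x48⟩ (.node ⟨nat_lit 5, nat_lit 0x100010, nat_lit 0x13121, nat_lit 6, nat_lit 4, nat_lit 0x4a⟩ (.node ⟨nat_lit 7, nat_lit 0x4000400040, nat_lit 0x311210, nat_lit 0, nat_lit 4, nat_lit 0x4b⟩ (.node ⟨nat_lit 5, nat_lit 0x100008, nat_lit 0x1203, nat_lit 6, nat_lit 4, nat_lit 0x49⟩ (.node ⟨nat_lit 8, nat_lit 0x800040004000400020, nat_lit 0x202102, nat_lit 1, nat_lit 4, nat_lit 0x4a⟩ (t14_210) (t14_8402)) (.node ⟨nat_lit 8, nat_lit 0x800040002000a000d0, nat_lit 0x1020013, nat_lit 0,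 nat_lit 4, nat_lit 0x47⟩ (t14_4306) (t14_12498))) (.node ⟨nat_lit 5, nat_lit 0x1000100008, nat_lit 0x12212, nat_lit 6, nat_lit 4, nat_lit 0x49⟩ (.node ⟨nat_lit 7, nat_lit 0x10002000500060, nat_lit 0x1002041, nat_lit 0, nat_lit 4, nat_lit 0x47⟩ (t14_2258) (t14_10450)) (.node ⟨nat_lit 6, nat_lit 0x1000280034, nat_lit 0x120120, nat_lit 5, nat_lit 4, nat_lit 0x48⟩ (t14_6354) (t14_14546)))) (.node ⟨nat_lit 5, nat_lit 0x10, nat_lit 0x2111, nat_lit 1, nat_lit 3, nat_lit 0x47⟩ (.node ⟨nat_lit 7, nat_lit 0x800100060, nat_lit 0x2111111, nat_lit 2, nat_lit 4, nat_lit 0x4a⟩ (.node ⟨nat_lit 4, nat_lit 0xc, nat_lit 0x1010, nat_lit 5, nat_lit 4, nat_lit 0x45⟩ (t14_1234) (t14_9426)) (.node ⟨nat_lit 7, nat_lit 0x10006000600050, nat_lit 0x112211, nat_lit 0, nat_lit 4, nat_lit 0x47⟩ (t14_5330) (t14_13522))) (.node ⟨nat_lit 6, nat_lit 0x20001000100028, nat_lit 0x102203,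 nat_lit 0, nat_lit 4, nat_lit 0x47⟩ (.node ⟨nat_lit 7, nat_lit 0x10002000400060, nat_lit 0x1100203, nat_lit 3, nat_lit 4, nat_lit 0x49⟩ (t14_3282) (t14_11474)) (.node ⟨nat_lit 7, nat_lit 0x4000600018, nat_lit 0x111012, nat_lit 1, nat_lit 4, nat_lit 0x48⟩ (t14_7378) (t14_15570))))) (.node ⟨nat_lit 6, nat_lit 0x1000200020, nat_lit 0x13100, nat_lit 1, nat_lit 4, nat_lit 0x48⟩ (.node ⟨nat_lit 5, nat_lit 0x40018, nat_lit 0x21102, nat_lit 5, nat_lit 4, nat_lit 0x48⟩ (.node ⟨nat_lit 7, nat_lit 0x400020, nat_lit 0x121101, nat_lit 2, nat_lit 4, nat_lit 0x4b⟩ (.node ⟨nat_lit 7, nat_lit 0x4000400064, nat_lit 0x1211120, nat_lit 0, nat_lit 4, nat_lit 0x4a⟩ (t14_722) (t14_8914)) (.node ⟨nat_lit 6, nat_lit 0x20001000100028, nat_lit 0x12202, nat_lit 2, nat_lit 4, nat_lit 0x47⟩ (t14_4818) (t14_13010))) (.node ⟨nat_lit 7, nat_lit 0x800600050, nat_lit 0x1110012,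 nat_lit 1, nat_lit 4, nat_lit 0x48⟩ (.node ⟨nat_lit 7, nat_lit 0x4000200020, nat_lit 0x111030, nat_lit 5, nat_lit 4, nat_lit 0x4b⟩ (t14_2770) (t14_10962)) (.node ⟨nat_lit 7, nat_lit 0x40006800680058, nat_lit 0x1120220, nat_lit 1, nat_lit 4, nat_lit 0x46⟩ (t14_6866) (t14_15058)))) (.node ⟨nat_lit 6, nat_lit 0x800300030, nat_lit 0x110022, nat_lit 3, nat_lit 4, nat_lit 0x47⟩ (.node ⟨nat_lit 7, nat_lit 0x6000180018, nat_lit 0x1110121, nat_lit 0, nat_lit 4, nat_lit 0x47⟩ (.node ⟨nat_lit 6, nat_lit 0x2000080030, nat_lit 0x11004, nat_lit 0, nat_lit 4, nat_lit 0x47⟩ (t14_1746) (t14_9938)) (.node ⟨nat_lit 6, nat_lit 0x2000200030, nat_lit 0x22112, nat_lit 3, nat_lit 4, nat_lit 0x49⟩ (t14_5842) (t14_14034))) (.node ⟨nat_lit 6, nat_lit 0x1000200034, nat_lit 0x2203, nat_lit 0, nat_lit 4, nat_lit 0x46⟩ (.node ⟨nat_lit 7, nat_lit 0x40001000100060, nat_lit 0x1001003,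 nat_lit 0, nat_lit 4, nat_lit 0x47⟩ (t14_3794) (t14_11986)) (.node ⟨nat_lit 6, nat_lit 0x200030, nat_lit 0x111100, nat_lit 1, nat_lit 4, nat_lit 0x48⟩ (t14_7890) (.nil)))))
def t14_466 : Tr := .node ⟨nat_lit 8, nat_lit 0x8000800040004000a000a0, nat_lit 0x11111111, nat_lit 0, nat_lit 4, nat_lit 0x49⟩ (.nil) (.nil)
def t14_8658 : Tr := .node ⟨nat_lit 8, nat_lit 0x800040002000200090, nat_lit 0x10101, nat_lit 0, nat_lit 4, nat_lit 0x47⟩ (.nil) (.nil)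
def t14_4562 : Tr := .node ⟨nat_lit 5, nat_lit 0x180018, nat_lit 0x10321, nat_lit 7, nat_lit 4, nat_lit 0x48⟩ (.nil) (.nil)
def t14_12754 : Tr := .node ⟨nat_lit 7, nat_lit 0x200040004000400068, nat_lit 0x31000, nat_lit 3, nat_lit 4, nat_lit 0x47⟩ (.nil) (.nil)
def t14_2514 : Tr := .node ⟨nat_lit 6, nat_lit 0x2000080030, nat_lit 0x13210, nat_lit 0, nat_lit 4, nat_lit 0x48⟩ (.nil) (.nil)
def t14_10706 : Tr := .node ⟨nat_lit 7, nat_lit 0x10004000200060, nat_lit 0x100210, nat_lit 0, nat_lit 3, nat_lit 0x46⟩ (.nil) (.nil)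
def t14_6610 : Tr := .node ⟨nat_lit 5, nat_lit 0x1000100008, nat_lit 0x21200, nat_lit 4, nat_lit 3, nat_lit 0x47⟩ (.nil) (.nil)
def t14_14802 : Tr := .node ⟨nat_lit 9, nat_lit 0x10000800140014001a001a0, nat_lit 0x111021, nat_lit 0, nat_lit 4, nat_lit 0x46⟩ (.nil) (.nil)
def t14_1490 : Tr := .node ⟨nat_lit 7, nat_lit 0x40001000100060, nat_lit 0x1101201, nat_lit 1, nat_lit 4, nat_lit 0x48⟩ (.nil) (.nil)
def t14_9682 : Tr := .node ⟨nat_lit 9, nat_lit 0x10000800080012001800190, nat_lit 0x1110020, nat_lit 1, nat_lit 4, nat_lit 0x48⟩ (.nil) (.nil)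
def t14_5586 : Tr := .node ⟨nat_lit 8, nat_lit 0x20008000c000c0, nat_lit 0x1010220, nat_lit 1, nat_lit 4, nat_lit 0x49⟩ (.nil) (.nil)
def t14_13778 : Tr := .node ⟨nat_lit 6, nat_lit 0x800280030, nat_lit 0x12, nat_lit 5, nat_lit 4, nat_lit 0x46⟩ (.nil) (.nil)
def t14_3538 : Tr := .node ⟨nat_lit 7, nat_lit 0x10006000600050, nat_lit 0x101201, nat_lit 0, nat_lit 4, nat_lit 0x46⟩ (.nil) (.nil)
def t14_11730 : Tr := .node ⟨nat_lit 8, nat_lit 0x2000a000a000c0, nat_lit 0x1012101, nat_lit 1, nat_lit 4, nat_lit 0x48⟩ (.nil) (.nil)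
def t14_7634 : Tr := .node ⟨nat_lit 7, nat_lit 0x40002000200060, nat_lit 0x12103, nat_lit 2, nat_lit 4, nat_lit 0x48⟩ (.nil) (.nil)
def t14_978 : Tr := .node ⟨nat_lit 8, nat_lit 0x400080008000880050, nat_lit 0x220001, nat_lit 1, nat_lit 4, nat_lit 0x48⟩ (.nil) (.nil)
def t14_9170 : Tr := .node ⟨nat_lit 7, nat_lit 0x20002000500068, nat_lit 0x1001212, nat_lit 1, nat_lit 4, nat_lit 0x47⟩ (.nil) (.nil)
def t14_5074 : Tr := .node ⟨nat_lit 6, nat_lit 0x2000200030, nat_lit 0x11321, nat_lit 3, nat_lit 4, nat_lit 0x49⟩ (.nil) (.nil)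
def t14_13266 : Tr := .node ⟨nat_lit 6, nat_lit 0x2000080030, nat_lit 0x210001, nat_lit 3, nat_lit 3, nat_lit 0x47⟩ (.nil) (.nil)
def t14_3026 : Tr := .node ⟨nat_lit 9, nat_lit 0x4000800100018801900190, nat_lit 0x10012011, nat_lit 0, nat_lit 4, nat_lit 0x47⟩ (.nil) (.nil)
def t14_11218 : Tr := .node ⟨nat_lit 7, nat_lit 0x20006000500050, nat_lit 0x111130, nat_lit 0, nat_lit 4, nat_lit 0x47⟩ (.nil) (.nil)
def t14_7122 : Tr := .node ⟨nat_lit 7, nat_lit 0x600060, nat_lit 0x1022111, nat_lit 0, nat_lit 4, nat_lit 0x4a⟩ (.nil) (.nil)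
def t14_15314 : Tr := .node ⟨nat_lit 8, nat_lit 0x4000400040008000800080, nat_lit 0x210110, nat_lit 3, nat_lit 4, nat_lit 0x49⟩ (.nil) (.nil)
def t14_2002 : Tr := .node ⟨nat_lit 6, nat_lit 0x2000200030, nat_lit 0x21201, nat_lit 5, nat_lit 4, nat_lit 0x49⟩ (.nil) (.nil)
def t14_10194 : Tr := .node ⟨nat_lit 7, nat_lit 0x400020002800500060, nat_lit 0x21010, nat_lit 2, nat_lit 4, nat_lit 0x46⟩ (.nil) (.nil)
def t14_6098 : Tr := .node ⟨nat_lit 1, nat_lit 0, nat_lit 3, nat_lit 0xf, nat_lit 4, nat_lit 0x46⟩ (.nil) (.nil)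
def t14_14290 : Tr := .node ⟨nat_lit 8, nat_lit 0x4000400020008000c2, nat_lit 0x10021000, nat_lit 5, nat_lit 4, nat_lit 0x49⟩ (.nil) (.nil)
def t14_4050 : Tr := .node ⟨nat_lit 7, nat_lit 0x20006000500068, nat_lit 0x1101121, nat_lit 2, nat_lit 4, nat_lit 0x47⟩ (.nil) (.nil)
def t14_12242 : Tr := .node ⟨nat_lit 8, nat_lit 0x8000800088009000c0, nat_lit 0x121000, nat_lit 5, nat_lit 4, nat_lit 0x49⟩ (.nil) (.nil)
def t14_8146 : Tr := .node ⟨nat_lit 6, nat_lit 0x20001000280030, nat_lit 0x12230, nat_lit 2, nat_lit 4, nat_lit 0x47⟩ (.nil) (.nil)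
def t9_466 : Tr := .node ⟨nat_lit 3, nat_lit 0, nat_lit 0x532, nat_lit 0, nat_lit 3, nat_lit 0x49⟩ (.node ⟨nat_lit 5, nat_lit 0x100014001c, nat_lit 0x31012, nat_lit 5, nat_lit 4, nat_lit 0x47⟩ (.node ⟨nat_lit 6, nat_lit 0x2000100032, nat_lit 0x22120, nat_lit 1, nat_lit 4, nat_lit 0x48⟩ (.node ⟨nat_lit 7, nat_lit 0x4000200062, nat_lit 0x121021, nat_lit 0, nat_lit 4, nat_lit 0x49⟩ (.node ⟨nat_lit 5, nat_lit 0x1000100008, nat_lit 0x2301, nat_lit 2, nat_lit 3, nat_lit 0x46⟩ (t14_466) (t14_8658)) (.node ⟨nat_lit 6, nat_lit 0x10001000200022, nat_lit 0x212021, nat_lit 3, nat_lit 4, nat_lit 0x49⟩ (t14_4562) (t14_12754))) (.node ⟨nat_lit 6, nat_lit 0x10001000200022, nat_lit 0x101020, nat_lit 0, nat_lit 4, nat_lit 0x46⟩ (.node ⟨nat_lit 7, nat_lit 0x40001000100060, nat_lit 0x1101103, nat_lit 0, nat_lit 4, nat_lit 0x48⟩ (t14_2514) (t14_10706)) (.node ⟨nat_lit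 7, nat_lit 0x400040004000200020, nat_lit 0x21031, nat_lit 1, nat_lit 4, nat_lit 0x48⟩ (t14_6610) (t14_14802)))) (.node ⟨nat_lit 5, nat_lit 0x18, nat_lit 0x20001, nat_lit 1, nat_lit 4, nat_lit 0x46⟩ (.node ⟨nat_lit 5, nat_lit 0x80010, nat_lit 0x22231, nat_lit 0, nat_lit 3, nat_lit 0x48⟩ (.node ⟨nat_lit 7, nat_lit 0x20005000500068, nat_lit 0x101100, nat_lit 0, nat_lit 4, nat_lit 0x45⟩ (t14_1490) (t14_9682)) (.node ⟨nat_lit 8, nat_lit 0x400040008000800020, nat_lit 0x1122100, nat_lit 1, nat_lit 4, nat_lit 0x4a⟩ (t14_5586) (t14_13778))) (.node ⟨nat_lit 6, nat_lit 0x800200030, nat_lit 0x1321, nat_lit 1, nat_lit 4, nat_lit 0x47⟩ (.node ⟨nat_lit 5, nat_lit 0x40018, nat_lit 0x100, nat_lit 3, nat_lit 4, nat_lit 0x45⟩ (t14_3538) (t14_11730)) (.node ⟨nat_lit 6, nat_lit 0x20001000100010, nat_lit 0x10300, nat_lit 3, nat_lit 3, nat_lit 0x47⟩ (t14_7634) (.nil)))))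 (.node ⟨nat_lit 7, nat_lit 0x4000200010, nat_lit 0x13001, nat_lit 7, nat_lit 4, nat_lit 0x4b⟩ (.node ⟨nat_lit 6, nat_lit 0x2000100030, nat_lit 0x12012, nat_lit 0, nat_lit 3, nat_lit 0x46⟩ (.node ⟨nat_lit 7, nat_lit 0x40004000400020, nat_lit 0x112101, nat_lit 1, nat_lit 4, nat_lit 0x49⟩ (.node ⟨nat_lit 5, nat_lit 0x800100012, nat_lit 0x10032, nat_lit 7, nat_lit 4, nat_lit 0x48⟩ (t14_978) (t14_9170)) (.node ⟨nat_lit 5, nat_lit 0x800080010, nat_lit 0x20222, nat_lit 2, nat_lit 3, nat_lit 0x46⟩ (t14_5074) (t14_13266))) (.node ⟨nat_lit 5, nat_lit 0x18, nat_lit 0x11103, nat_lit 0, nat_lit 4, nat_lit 0x47⟩ (.node ⟨nat_lit 6, nat_lit 0x20, nat_lit 0x111112, nat_lit 4, nat_lit 4, nat_lit 0x4b⟩ (t14_3026) (t14_11218)) (.node ⟨nat_lit 7, nat_lit 0x400020005000280068, nat_lit 0x122003, nat_lit 0, nat_lit 4, nat_lit 0x46⟩ (t14_7122) (t14_15314)))) (.node ⟨nat_lit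 5, nat_lit 0x18, nat_lit 0x11211, nat_lit 5, nat_lit 4, nat_lit 0x49⟩ (.node ⟨nat_lit 6, nat_lit 0x80030, nat_lit 0x301111, nat_lit 5, nat_lit 4, nat_lit 0x4a⟩ (.node ⟨nat_lit 7, nat_lit 0x4000600060, nat_lit 0x121131, nat_lit 0, nat_lit 4, nat_lit 0x49⟩ (t14_2002) (t14_10194)) (.node ⟨nat_lit 6, nat_lit 0x800080030, nat_lit 0x101300, nat_lit 0, nat_lit 4, nat_lit 0x48⟩ (t14_6098) (t14_14290))) (.node ⟨nat_lit 3, nat_lit 6, nat_lit 0x412, nat_lit 5, nat_lit 3, nat_lit 0x46⟩ (.node ⟨nat_lit 7, nat_lit 0x800500060, nat_lit 0x101100, nat_lit 0, nat_lit 4, nat_lit 0x47⟩ (t14_4050) (t14_12242)) (.node ⟨nat_lit 6, nat_lit 0x1000200030, nat_lit 0x11102, nat_lit 9, nat_lit 4, nat_lit 0x49⟩ (t14_8146) (.nil)))))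
def t14_50 : Tr := .node ⟨nat_lit 7, nat_lit 0x400020, nat_lit 0x111110, nat_lit 1, nat_lit 4, nat_lit 0x4a⟩ (.nil) (.nil)
def t14_8242 : Tr := .node ⟨nat_lit 8, nat_lit 0x800040008800c0, nat_lit 0x112030, nat_lit 0, nat_lit 4, nat_lit 0x49⟩ (.nil) (.nil)
def t14_4146 : Tr := .node ⟨nat_lit 8, nat_lit 0x8000800040002000c0, nat_lit 0x1110112, nat_lit 0, nat_lit 4, nat_lit 0x49⟩ (.nil) (.nil)
def t14_12338 : Tr := .node ⟨nat_lit 6, nat_lit 0x20001000300030, nat_lit 0x1140, nat_lit 5, nat_lit 4, nat_lit 0x47⟩ (.nil) (.nil)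
def t14_2098 : Tr := .node ⟨nat_lit 8, nat_lit 0x8000800040004000a000e0, nat_lit 0x10113100, nat_lit 0, nat_lit 4, nat_lit 0x48⟩ (.nil) (.nil)
def t14_10290 : Tr := .node ⟨nat_lit 6, nat_lit 0x20002000100028, nat_lit 0x10002, nat_lit 4, nat_lit 4, nat_lit 0x46⟩ (.nil) (.nil)
def t14_6194 : Tr := .node ⟨nat_lit 5, nat_lit 0x1000100008, nat_lit 0x1102, nat_lit 6, nat_lit 4, nat_lit 0x47⟩ (.nil) (.nil)
def t14_14386 : Tr := .node ⟨nat_lit 8, nat_lit 0x800020009000c000e0, nat_lit 0x11003, nat_lit 1, nat_lit 4, nat_lit 0x46⟩ (.nil) (.nil)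
def t14_1074 : Tr := .node ⟨nat_lit 6, nat_lit 0x2000100024, nat_lit 0x1121, nat_lit 1, nat_lit 4, nat_lit 0x46⟩ (.nil) (.nil)
def t14_9266 : Tr := .node ⟨nat_lit 6, nat_lit 0x20002000100010, nat_lit 0x101022, nat_lit 1, nat_lit 3, nat_lit 0x46⟩ (.nil) (.nil)
def t14_5170 : Tr := .node ⟨nat_lit 5, nat_lit 0x1000180018, nat_lit 0x1320, nat_lit 7, nat_lit 4, nat_lit 0x47⟩ (.nil) (.nil)
def t14_13362 : Tr := .node ⟨nat_lit 5, nat_lit 0x140018, nat_lit 0x20000, nat_lit 2, nat_lit 3, nat_lit 0x45⟩ (.nil) (.nil)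
def t14_3122 : Tr := .node ⟨nat_lit 8, nat_lit 0x1000c000c000a0, nat_lit 0x110211, nat_lit 2, nat_lit 4, nat_lit 0x48⟩ (.nil) (.nil)
def t14_11314 : Tr := .node ⟨nat_lit 8, nat_lit 0x40006000c000a000a0, nat_lit 0x12120, nat_lit 1, nat_lit 4, nat_lit 0x46⟩ (.nil) (.nil)
def t14_7218 : Tr := .node ⟨nat_lit 6, nat_lit 0x1800280030, nat_lit 0x110112, nat_lit 2, nat_lit 4, nat_lit 0x46⟩ (.nil) (.nil)
def t14_15410 : Tr := .node ⟨nat_lit 0xb, nat_lit 0x20002000200040004000420030003000280, nat_lit 0x10000111100, nat_lit 0, nat_lit 4, nat_lit 0x49⟩ (.nil) (.nil)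
def t14_562 : Tr := .node ⟨nat_lit 6, nat_lit 0x800200030, nat_lit 0x12, nat_lit 0, nat_lit 4, nat_lit 0x45⟩ (.nil) (.nil)
def t14_8754 : Tr := .node ⟨nat_lit 7, nat_lit 0x40001000100060, nat_lit 0x102000, nat_lit 1, nat_lit 4, nat_lit 0x47⟩ (.nil) (.nil)
def t14_4658 : Tr := .node ⟨nat_lit 5, nat_lit 0x1000140018, nat_lit 0x10131, nat_lit 4, nat_lit 4, nat_lit 0x46⟩ (.nil) (.nil)
def t14_12850 : Tr := .node ⟨nat_lit 6, nat_lit 0x300028, nat_lit 0x101220, nat_lit 2, nat_lit 4, nat_lit 0x48⟩ (.nil) (.nil)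
def t14_2610 : Tr := .node ⟨nat_lit 6, nat_lit 0x20001000280030, nat_lit 0x12012, nat_lit 4, nat_lit 4, nat_lit 0x47⟩ (.nil) (.nil)
def t14_10802 : Tr := .node ⟨nat_lit 5, nat_lit 0x1000100010, nat_lit 0x1220, nat_lit 0xb, nat_lit 4, nat_lit 0x49⟩ (.nil) (.nil)
def t14_6706 : Tr := .node ⟨nat_lit 7, nat_lit 0x100060, nat_lit 0x1111100, nat_lit 1, nat_lit 4, nat_lit 0x4a⟩ (.nil) (.nil)
def t14_14898 : Tr := .node ⟨nat_lit 6, nat_lit 0x2000240034, nat_lit 0x111211, nat_lit 3, nat_lit 4, nat_lit 0x48⟩ (.nil) (.nil)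
def t14_1586 : Tr := .node ⟨nat_lit 8, nat_lit 0x200020003000a000c0, nat_lit 0x11010120, nat_lit 1, nat_lit 4, nat_lit 0x48⟩ (.nil) (.nil)
def t14_9778 : Tr := .node ⟨nat_lit 6, nat_lit 0x800280030, nat_lit 0x10201, nat_lit 2, nat_lit 3, nat_lit 0x45⟩ (.nil) (.nil)
def t14_5682 : Tr := .node ⟨nat_lit 5, nat_lit 0x140018, nat_lit 0x10012, nat_lit 3, nat_lit 4, nat_lit 0x45⟩ (.nil) (.nil)
def t14_13874 : Tr := .node ⟨nat_lit 6, nat_lit 0x80030, nat_lit 0x22, nat_lit 0, nat_lit 4, nat_lit 0x46⟩ (.nil) (.nil)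
def t14_3634 : Tr := .node ⟨nat_lit 6, nat_lit 0x280030, nat_lit 0x20110, nat_lit 1, nat_lit 4, nat_lit 0x47⟩ (.nil) (.nil)
def t14_11826 : Tr := .node ⟨nat_lit 3, nat_lit 4, nat_lit 0x23, nat_lit 7, nat_lit 3, nat_lit 0x45⟩ (.nil) (.nil)
def t14_7730 : Tr := .node ⟨nat_lit 4, nat_lit 0x80004, nat_lit 2, nat_lit 9, nat_lit 4, nat_lit 0x46⟩ (.nil) (.nil)
def t9_50 : Tr := .node ⟨nat_lit 5, nat_lit 0x100008, nat_lit 0x3301, nat_lit 1, nat_lit 4, nat_lit 0x49⟩ (.node ⟨nat_lit 6, nat_lit 0x300030, nat_lit 0x113220, nat_lit 0, nat_lit 4, nat_lit 0x49⟩ (.node ⟨nat_lit 7, nat_lit 0x20005000500068, nat_lit 0x301201, nat_lit 1, nat_lit 4, nat_lit 0x47⟩ (.node ⟨nat_lit 6, nat_lit 0x80030, nat_lit 0x101211, nat_lit 0, nat_lit 4, nat_lit 0x48⟩ (.node ⟨nat_lit 7, nat_lit 0x6000600050, nat_lit 0x22113, nat_lit 0, nat_lit 4, nat_lit 0x48⟩ (t14_50) (t14_8242))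 (.node ⟨nat_lit 6, nat_lit 0x2000080030, nat_lit 0x111000, nat_lit 2, nat_lit 4, nat_lit 0x47⟩ (t14_4146) (t14_12338))) (.node ⟨nat_lit 7, nat_lit 0x100060, nat_lit 0x2201102, nat_lit 0, nat_lit 4, nat_lit 0x4b⟩ (.node ⟨nat_lit 5, nat_lit 0x10001a, nat_lit 0x1121, nat_lit 3, nat_lit 4, nat_lit 0x46⟩ (t14_2098) (t14_10290)) (.node ⟨nat_lit 8, nat_lit 0x20006000a000c0, nat_lit 0x1021200, nat_lit 0, nat_lit 4, nat_lit 0x48⟩ (t14_6194) (t14_14386)))) (.node ⟨nat_lit 6, nat_lit 0x1000200020, nat_lit 0x21231, nat_lit 0, nat_lit 4, nat_lit 0x49⟩ (.node ⟨nat_lit 6, nat_lit 0x20002000100010, nat_lit 0x122111, nat_lit 0, nat_lit 3, nat_lit 0x47⟩ (.node ⟨nat_lit 3, nat_lit 6, nat_lit 0x310, nat_lit 3, nat_lit 3, nat_lit 0x45⟩ (t14_1074) (t14_9266)) (.node ⟨nat_lit 5, nat_lit 0x100018001c, nat_lit 0x1221, nat_lit 9, nat_lit 4, nat_lit 0x46⟩ (t14_5170) (t14_13362)))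 (.node ⟨nat_lit 6, nat_lit 0x100020, nat_lit 0x221100, nat_lit 2, nat_lit 4, nat_lit 0x4a⟩ (.node ⟨nat_lit 6, nat_lit 0x100020, nat_lit 0x111100, nat_lit 3, nat_lit 4, nat_lit 0x49⟩ (t14_3122) (t14_11314)) (.node ⟨nat_lit 4, nat_lit 0x8000c, nat_lit 0x1112, nat_lit 0xd, nat_lit 4, nat_lit 0x48⟩ (t14_7218) (t14_15410))))) (.node ⟨nat_lit 2, nat_lit 2, nat_lit 0x31, nat_lit 9, nat_lit 3, nat_lit 0x45⟩ (.node ⟨nat_lit 6, nat_lit 0x2000100008, nat_lit 0x2000, nat_lit 5, nat_lit 3, nat_lit 0x47⟩ (.node ⟨nat_lit 6, nat_lit 0x300030, nat_lit 0x102021, nat_lit 0, nat_lit 4, nat_lit 0x47⟩ (.node ⟨nat_lit 8, nat_lit 0x800040009000900090, nat_lit 0x2101210, nat_lit 0, nat_lit 4, nat_lit 0x48⟩ (t14_562) (t14_8754)) (.node ⟨nat_lit 6, nat_lit 0x800200030, nat_lit 0x111011, nat_lit 3, nat_lit 4, nat_lit 0x48⟩ (t14_4658) (t14_12850))) (.node ⟨nat_lit 6, nat_lit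 0x10002000200020, nat_lit 0x11000, nat_lit 0, nat_lit 3, nat_lit 0x45⟩ (.node ⟨nat_lit 4, nat_lit 8, nat_lit 0x1113, nat_lit 9, nat_lit 4, nat_lit 0x49⟩ (t14_2610) (t14_10802)) (.node ⟨nat_lit 7, nat_lit 0x20004000600064, nat_lit 0x1022111, nat_lit 2, nat_lit 4, nat_lit 0x48⟩ (t14_6706) (t14_14898)))) (.node ⟨nat_lit 6, nat_lit 0x800280030, nat_lit 0x121111, nat_lit 0, nat_lit 3, nat_lit 0x46⟩ (.node ⟨nat_lit 5, nat_lit 0x100018, nat_lit 0x2211, nat_lit 5, nat_lit 4, nat_lit 0x48⟩ (.node ⟨nat_lit 6, nat_lit 0x300030, nat_lit 0x1110, nat_lit 1, nat_lit 4, nat_lit 0x46⟩ (t14_1586) (t14_9778)) (.node ⟨nat_lit 7, nat_lit 0x40003000580068, nat_lit 0x2111201, nat_lit 0, nat_lit 4, nat_lit 0x47⟩ (t14_5682) (t14_13874))) (.node ⟨nat_lit 6, nat_lit 0xc0030, nat_lit 0x102021, nat_lit 0, nat_lit 4, nat_lit 0x47⟩ (.node ⟨nat_lit 6, nat_lit 0x2000300038, nat_lit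 0x1003, nat_lit 5, nat_lit 4, nat_lit 0x46⟩ (t14_3634) (t14_11826)) (.node ⟨nat_lit 7, nat_lit 0x1000400060, nat_lit 0x1011201, nat_lit 1, nat_lit 4, nat_lit 0x49⟩ (t14_7730) (.nil)))))
def t14_306 : Tr := .node ⟨nat_lit 6, nat_lit 0x1000200030, nat_lit 0x12241, nat_lit 0, nat_lit 4, nat_lit 0x49⟩ (.nil) (.nil)
def t14_8498 : Tr := .node ⟨nat_lit 7, nat_lit 0x40002000600068, nat_lit 0x11020, nat_lit 0, nat_lit 4, nat_lit 0x46⟩ (.nil) (.nil)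
def t14_4402 : Tr := .node ⟨nat_lit 8, nat_lit 0x800040004000200090, nat_lit 0x10102210, nat_lit 1, nat_lit 4, nat_lit 0x49⟩ (.nil) (.nil)
def t14_12594 : Tr := .node ⟨nat_lit 6, nat_lit 0x300038, nat_lit 0x110003, nat_lit 0, nat_lit 4, nat_lit 0x46⟩ (.nil) (.nil)
def t14_2354 : Tr := .node ⟨nat_lit 8, nat_lit 0x200040008000c800c8, nat_lit 0x2000210, nat_lit 3, nat_lit 4, nat_lit 0x48⟩ (.nil) (.nil)
def t14_10546 : Tr := .node ⟨nat_lit 8, nat_lit 0x800080002000c000d0, nat_lit 0x110020, nat_lit 0, nat_lit 4, nat_lit 0x47⟩ (.nil) (.nil)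
def t14_6450 : Tr := .node ⟨nat_lit 8, nat_lit 0x800040004000a000a000c0, nat_lit 0x10010002, nat_lit 1, nat_lit 4, nat_lit 0x47⟩ (.nil) (.nil)
def t14_14642 : Tr := .node ⟨nat_lit 5, nat_lit 0x100018001c, nat_lit 0x1211, nat_lit 6, nat_lit 4, nat_lit 0x46⟩ (.nil) (.nil)
def t14_1330 : Tr := .node ⟨nat_lit 8, nat_lit 0x8000400040004800a000d0, nat_lit 0x10112011, nat_lit 0, nat_lit 4, nat_lit 0x47⟩ (.nil) (.nil)
def t14_9522 : Tr := .node ⟨nat_lit 7, nat_lit 0x400020005000500060, nat_lit 0x1110112, nat_lit 3, nat_lit 4, nat_lit 0x48⟩ (.nil) (.nil)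
def t14_5426 : Tr := .node ⟨nat_lit 6, nat_lit 0x2000200020, nat_lit 0x11310, nat_lit 7, nat_lit 4, nat_lit 0x4a⟩ (.nil) (.nil)
def t14_13618 : Tr := .node ⟨nat_lit 8, nat_lit 0x20008000c00030, nat_lit 0x12, nat_lit 1, nat_lit 4, nat_lit 0x47⟩ (.nil) (.nil)
def t14_3378 : Tr := .node ⟨nat_lit 6, nat_lit 0x300030, nat_lit 0x102210, nat_lit 0, nat_lit 4, nat_lit 0x48⟩ (.nil) (.nil)
def t14_11570 : Tr := .node ⟨nat_lit 5, nat_lit 0x1800180018, nat_lit 0x310, nat_lit 9, nat_lit 4, nat_lit 0x46⟩ (.nil) (.nil)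
def t14_7474 : Tr := .node ⟨nat_lit 7, nat_lit 0x400040, nat_lit 0x111020, nat_lit 0, nat_lit 4, nat_lit 0x4a⟩ (.nil) (.nil)
def t14_818 : Tr := .node ⟨nat_lit 7, nat_lit 0x4000400060, nat_lit 0x11310, nat_lit 1, nat_lit 4, nat_lit 0x49⟩ (.nil) (.nil)
def t14_9010 : Tr := .node ⟨nat_lit 8, nat_lit 0x800080008800900090, nat_lit 0x1111021, nat_lit 2, nat_lit 4, nat_lit 0x49⟩ (.nil) (.nil)
def t14_4914 : Tr := .node ⟨nat_lit 8, nat_lit 0x2000400080, nat_lit 0x11111000, nat_lit 1, nat_lit 4, nat_lit 0x4b⟩ (.nil) (.nil)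
def t14_13106 : Tr := .node ⟨nat_lit 5, nat_lit 0x800080010, nat_lit 0x303, nat_lit 0, nat_lit 3, nat_lit 0x45⟩ (.nil) (.nil)
def t14_2866 : Tr := .node ⟨nat_lit 8, nat_lit 0x800040009000c000a0, nat_lit 0x31210, nat_lit 0, nat_lit 4, nat_lit 0x48⟩ (.nil) (.nil)
def t14_11058 : Tr := .node ⟨nat_lit 6, nat_lit 0x800300030, nat_lit 0x111020, nat_lit 2, nat_lit 4, nat_lit 0x47⟩ (.nil) (.nil)
def t14_6962 : Tr := .node ⟨nat_lit 6, nat_lit 0x300028, nat_lit 0x102111, nat_lit 5, nat_lit 4, nat_lit 0x49⟩ (.nil) (.nil)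
def t14_15154 : Tr := .node ⟨nat_lit 8, nat_lit 0x400080008000500088, nat_lit 0x1111011, nat_lit 0, nat_lit 4, nat_lit 0x48⟩ (.nil) (.nil)
def t14_1842 : Tr := .node ⟨nat_lit 6, nat_lit 0x1000200038, nat_lit 0x3202, nat_lit 0, nat_lit 4, nat_lit 0x47⟩ (.nil) (.nil)
def t14_10034 : Tr := .node ⟨nat_lit 8, nat_lit 0x800020002000c000c0, nat_lit 0x1021020, nat_lit 0, nat_lit 4, nat_lit 0x48⟩ (.nil) (.nil)
def t14_5938 : Tr := .node ⟨nat_lit 7, nat_lit 0x40001000600068, nat_lit 0x112103, nat_lit 0, nat_lit 4, nat_lit 0x47⟩ (.nil) (.nil)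
def t14_14130 : Tr := .node ⟨nat_lit 7, nat_lit 0x1000100060, nat_lit 0x1101002, nat_lit 2, nat_lit 4, nat_lit 0x49⟩ (.nil) (.nil)
def t14_3890 : Tr := .node ⟨nat_lit 7, nat_lit 0x200040006800680070, nat_lit 0x1021100, nat_lit 5, nat_lit 4, nat_lit 0x46⟩ (.nil) (.nil)
def t14_12082 : Tr := .node ⟨nat_lit 5, nat_lit 0x180014, nat_lit 0x2230, nat_lit 2, nat_lit 4, nat_lit 0x47⟩ (.nil) (.nil)
def t14_7986 : Tr := .node ⟨nat_lit 9, nat_lit 0x10000800040012001200180, nat_lit 0x1101211, nat_lit 0, nat_lit 4, nat_lit 0x48⟩ (.nil) (.nil)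
def t9_306 : Tr := .node ⟨nat_lit 6, nat_lit 0x200020, nat_lit 0x32120, nat_lit 0, nat_lit 4, nat_lit 0x4a⟩ (.node ⟨nat_lit 7, nat_lit 0x4000100060, nat_lit 0x302002, nat_lit 1, nat_lit 4, nat_lit 0x4a⟩ (.node ⟨nat_lit 8, nat_lit 0x800040, nat_lit 0x1311101, nat_lit 1, nat_lit 4, nat_lit 0x4d⟩ (.node ⟨nat_lit 6, nat_lit 0x200030, nat_lit 0x12102, nat_lit 0, nat_lit 4, nat_lit 0x48⟩ (.node ⟨nat_lit 6, nat_lit 0x200020, nat_lit 0x211121, nat_lit 2, nat_lit 4, nat_lit 0x4b⟩ (t14_306) (t14_8498)) (.node ⟨nat_lit 8, nat_lit 0x80002000b000d000e0, nat_lit 0x11001103, nat_lit 1, nat_lit 4, nat_lit 0x46⟩ (t14_4402) (t14_12594))) (.node ⟨nat_lit 7, nat_lit 0x4000100060, nat_lit 0x2011212, nat_lit 0, nat_lit 4, nat_lit 0x4a⟩ (.node ⟨nat_lit 7, nat_lit 0x40004000200048, nat_lit 0x111120, nat_lit 0, nat_lit 4, nat_lit 0x48⟩ (t14_2354) (t14_10546)) (.node ⟨nat_lit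 6, nat_lit 0x200030, nat_lit 0x21130, nat_lit 1, nat_lit 4, nat_lit 0x49⟩ (t14_6450) (t14_14642)))) (.node ⟨nat_lit 5, nat_lit 0x40018, nat_lit 0x10212, nat_lit 1, nat_lit 4, nat_lit 0x46⟩ (.node ⟨nat_lit 6, nat_lit 0x2000080030, nat_lit 0x202221, nat_lit 1, nat_lit 4, nat_lit 0x49⟩ (.node ⟨nat_lit 3, nat_lit 0x40006, nat_lit 0x110, nat_lit 7, nat_lit 4, nat_lit 0x44⟩ (t14_1330) (t14_9522)) (.node ⟨nat_lit 8, nat_lit 0x200040008000c0, nat_lit 0x10020012, nat_lit 3, nat_lit 4, nat_lit 0x4a⟩ (t14_5426) (t14_13618))) (.node ⟨nat_lit 5, nat_lit 0x140018, nat_lit 0x12102, nat_lit 2, nat_lit 4, nat_lit 0x47⟩ (.node ⟨nat_lit 5, nat_lit 0x1000080018, nat_lit 0x11040, nat_lit 1, nat_lit 3, nat_lit 0x46⟩ (t14_3378) (t14_11570)) (.node ⟨nat_lit 7, nat_lit 0x200040004000400068, nat_lit 0x111102, nat_lit 5, nat_lit 4, nat_lit 0x48⟩ (t14_7474) (.nil))))) (.node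 ⟨nat_lit 6, nat_lit 0x80030, nat_lit 0x111310, nat_lit 0, nat_lit 4, nat_lit 0x49⟩ (.node ⟨nat_lit 6, nat_lit 0x1000080020, nat_lit 0x102220, nat_lit 0, nat_lit 4, nat_lit 0x48⟩ (.node ⟨nat_lit 6, nat_lit 0x200022, nat_lit 0x111110, nat_lit 0, nat_lit 4, nat_lit 0x48⟩ (.node ⟨nat_lit 6, nat_lit 0x20, nat_lit 0x222110, nat_lit 2, nat_lit 4, nat_lit 0x4c⟩ (t14_818) (t14_9010)) (.node ⟨nat_lit 6, nat_lit 0x200030, nat_lit 0x111102, nat_lit 7, nat_lit 4, nat_lit 0x4a⟩ (t14_4914) (t14_13106))) (.node ⟨nat_lit 7, nat_lit 0x20002000500060, nat_lit 0x1010022, nat_lit 0, nat_lit 4, nat_lit 0x47⟩ (.node ⟨nat_lit 3, nat_lit 0x40006, nat_lit 0x121, nat_lit 0xf, nat_lit 4, nat_lit 0x47⟩ (t14_2866) (t14_11058)) (.node ⟨nat_lit 0xb, nat_lit 0x200040004000100008004100420, nat_lit 0x10000110000, nat_lit 3, nat_lit 4, nat_lit 0x4b⟩ (t14_6962) (t14_15154)))) (.node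 ⟨nat_lit 4, nat_lit 0xc, nat_lit 0x2110, nat_lit 9, nat_lit 4, nat_lit 0x48⟩ (.node ⟨nat_lit 6, nat_lit 0x2000200010, nat_lit 0x121211, nat_lit 1, nat_lit 3, nat_lit 0x48⟩ (.node ⟨nat_lit 7, nat_lit 0x20002000400070, nat_lit 0x11003, nat_lit 3, nat_lit 4, nat_lit 0x47⟩ (t14_1842) (t14_10034)) (.node ⟨nat_lit 7, nat_lit 0x4000600050, nat_lit 0x22102, nat_lit 1, nat_lit 4, nat_lit 0x49⟩ (t14_5938) (t14_14130))) (.node ⟨nat_lit 5, nat_lit 0x1000100018, nat_lit 0x1311, nat_lit 5, nat_lit 4, nat_lit 0x47⟩ (.node ⟨nat_lit 6, nat_lit 0x1000280034, nat_lit 0x10200, nat_lit 2, nat_lit 4, nat_lit 0x46⟩ (t14_3890) (t14_12082)) (.node ⟨nat_lit 8, nat_lit 0x8000800020002000c0, nat_lit 0x1011102, nat_lit 0, nat_lit 4, nat_lit 0x48⟩ (t14_7986) (.nil)))))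
def t14_178 : Tr := .node ⟨nat_lit 7, nat_lit 0x2000400060, nat_lit 0x122211, nat_lit 1, nat_lit 4, nat_lit 0x4a⟩ (.nil) (.nil)
def t14_8370 : Tr := .node ⟨nat_lit 7, nat_lit 0x40001000480060, nat_lit 0x12130, nat_lit 3, nat_lit 4, nat_lit 0x48⟩ (.nil) (.nil)
def t14_4274 : Tr := .node ⟨nat_lit 7, nat_lit 0x400040, nat_lit 0x221011, nat_lit 0, nat_lit 4, nat_lit 0x4b⟩ (.nil) (.nil)
def t14_12466 : Tr := .node ⟨nat_lit 7, nat_lit 0x200020004000400040, nat_lit 0x31200, nat_lit 1, nat_lit 4, nat_lit 0x48⟩ (.nil) (.nil)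
def t14_2226 : Tr := .node ⟨nat_lit 8, nat_lit 0x800040004000400020, nat_lit 0x10102210, nat_lit 0, nat_lit 4, nat_lit 0x4a⟩ (.nil) (.nil)
def t14_10418 : Tr := .node ⟨nat_lit 8, nat_lit 0x200080008000c0, nat_lit 0x10220, nat_lit 4, nat_lit 4, nat_lit 0x4a⟩ (.nil) (.nil)
def t14_6322 : Tr := .node ⟨nat_lit 5, nat_lit 0x1000080008, nat_lit 0x11020, nat_lit 3, nat_lit 3, nat_lit 0x46⟩ (.nil) (.nil)
def t14_14514 : Tr := .node ⟨nat_lit 7, nat_lit 0x4000100060, nat_lit 0x12200, nat_lit 2, nat_lit 4, nat_lit 0x49⟩ (.nil) (.nil)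
def t14_1202 : Tr := .node ⟨nat_lit 7, nat_lit 0x1000600060, nat_lit 0x11221, nat_lit 2, nat_lit 4, nat_lit 0x48⟩ (.nil) (.nil)
def t14_9394 : Tr := .node ⟨nat_lit 7, nat_lit 0x20002000500060, nat_lit 0x22130, nat_lit 0, nat_lit 3, nat_lit 0x46⟩ (.nil) (.nil)
def t14_5298 : Tr := .node ⟨nat_lit 5, nat_lit 0x140018, nat_lit 0x11102, nat_lit 9, nat_lit 4, nat_lit 0x48⟩ (.nil) (.nil)
def t14_13490 : Tr := .node ⟨nat_lit 5, nat_lit 0x1000140018, nat_lit 0x310, nat_lit 8, nat_lit 4, nat_lit 0x47⟩ (.nil) (.nil)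
def t14_3250 : Tr := .node ⟨nat_lit 8, nat_lit 0x800040004000c000c8, nat_lit 0x102112, nat_lit 0, nat_lit 4, nat_lit 0x48⟩ (.nil) (.nil)
def t14_11442 : Tr := .node ⟨nat_lit 7, nat_lit 0x40001000100060, nat_lit 0x1001110, nat_lit 0, nat_lit 4, nat_lit 0x47⟩ (.nil) (.nil)
def t14_7346 : Tr := .node ⟨nat_lit 7, nat_lit 0x20001000400062, nat_lit 0x2111001, nat_lit 3, nat_lit 4, nat_lit 0x49⟩ (.nil) (.nil)
def t14_15538 : Tr := .node ⟨nat_lit 6, nat_lit 0, nat_lit 0x221111, nat_lit 6, nat_lit 4, nat_lit 0x4d⟩ (.nil) (.nil)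
def t14_690 : Tr := .node ⟨nat_lit 4, nat_lit 0x40008, nat_lit 0x32, nat_lit 4, nat_lit 4, nat_lit 0x45⟩ (.nil) (.nil)
def t14_8882 : Tr := .node ⟨nat_lit 9, nat_lit 0x100004001080180, nat_lit 0x112020, nat_lit 0, nat_lit 4, nat_lit 0x4a⟩ (.nil) (.nil)
def t14_4786 : Tr := .node ⟨nat_lit 7, nat_lit 0x6000600050, nat_lit 0x121220, nat_lit 0, nat_lit 4, nat_lit 0x48⟩ (.nil) (.nil)
def t14_12978 : Tr := .node ⟨nat_lit 6, nat_lit 0x2000080034, nat_lit 0x321, nat_lit 0, nat_lit 4, nat_lit 0x46⟩ (.nil) (.nil)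
def t14_2738 : Tr := .node ⟨nat_lit 8, nat_lit 0x4000a000c000c0, nat_lit 0x112120, nat_lit 0, nat_lit 4, nat_lit 0x48⟩ (.nil) (.nil)
def t14_10930 : Tr := .node ⟨nat_lit 7, nat_lit 0x400020005000700068, nat_lit 0x112121, nat_lit 2, nat_lit 4, nat_lit 0x46⟩ (.nil) (.nil)
def t14_6834 : Tr := .node ⟨nat_lit 6, nat_lit 0x2000080030, nat_lit 0x11310, nat_lit 4, nat_lit 4, nat_lit 0x48⟩ (.nil) (.nil)
def t14_15026 : Tr := .node ⟨nat_lit 8, nat_lit 0x8000800080004000a000a0, nat_lit 0x1110111, nat_lit 4, nat_lit 4, nat_lit 0x49⟩ (.nil) (.nil)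
def t14_1714 : Tr := .node ⟨nat_lit 7, nat_lit 0x10006000600050, nat_lit 0x112112, nat_lit 0, nat_lit 4, nat_lit 0x47⟩ (.nil) (.nil)
def t14_9906 : Tr := .node ⟨nat_lit 4, nat_lit 0xc000c, nat_lit 0x43, nat_lit 6, nat_lit 4, nat_lit 0x45⟩ (.nil) (.nil)
def t14_5810 : Tr := .node ⟨nat_lit 5, nat_lit 0x10, nat_lit 0x1113, nat_lit 5, nat_lit 4, nat_lit 0x49⟩ (.nil) (.nil)
def t14_14002 : Tr := .node ⟨nat_lit 7, nat_lit 0x1000400060, nat_lit 0x1221, nat_lit 1, nat_lit 4, nat_lit 0x48⟩ (.nil) (.nil)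
def t14_3762 : Tr := .node ⟨nat_lit 6, nat_lit 0x2000280030, nat_lit 0x22002, nat_lit 0, nat_lit 3, nat_lit 0x46⟩ (.nil) (.nil)
def t14_11954 : Tr := .node ⟨nat_lit 4, nat_lit 8, nat_lit 0x113, nat_lit 8, nat_lit 4, nat_lit 0x48⟩ (.nil) (.nil)
def t14_7858 : Tr := .node ⟨nat_lit 5, nat_lit 0x18001c, nat_lit 0x10012, nat_lit 5, nat_lit 4, nat_lit 0x45⟩ (.nil) (.nil)
def t9_178 : Tr := .node ⟨nat_lit 2, nat_lit 0, nat_lit 0x33, nat_lit 0xb, nat_lit 4, nat_lit 0x48⟩ (.node ⟨nat_lit 5, nat_lit 0x18, nat_lit 0x11312, nat_lit 2, nat_lit 4, nat_lit 0x49⟩ (.node ⟨nat_lit 7, nat_lit 0x4000500060, nat_lit 0x13220, nat_lit 0, nat_lit 4, nat_lit 0x49⟩ (.node ⟨nat_lit 5, nat_lit 0x100010, nat_lit 0x2100, nat_lit 4, nat_lit 4, nat_lit 0x47⟩ (.node ⟨nat_lit 9, nat_lit 0x100008000400020, nat_lit 0x1210012, nat_lit 0, nat_lit 4, nat_lit 0x4c⟩ (t14_178) (t14_8370))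 (.node ⟨nat_lit 6, nat_lit 0x2000080030, nat_lit 0x100120, nat_lit 0, nat_lit 4, nat_lit 0x46⟩ (t14_4274) (t14_12466))) (.node ⟨nat_lit 5, nat_lit 0x18, nat_lit 0x22113, nat_lit 4, nat_lit 4, nat_lit 0x4a⟩ (.node ⟨nat_lit 7, nat_lit 0x20005000680070, nat_lit 0x12113, nat_lit 0, nat_lit 4, nat_lit 0x45⟩ (t14_2226) (t14_10418)) (.node ⟨nat_lit 5, nat_lit 0x800100018, nat_lit 0x10322, nat_lit 2, nat_lit 3, nat_lit 0x45⟩ (t14_6322) (t14_14514)))) (.node ⟨nat_lit 5, nat_lit 0x100010, nat_lit 0x11121, nat_lit 7, nat_lit 4, nat_lit 0x49⟩ (.node ⟨nat_lit 7, nat_lit 0x1000500060, nat_lit 0x2102021, nat_lit 0, nat_lit 4, nat_lit 0x49⟩ (.node ⟨nat_lit 5, nat_lit 0x1000080008, nat_lit 0x40111, nat_lit 0, nat_lit 3, nat_lit 0x47⟩ (t14_1202) (t14_9394)) (.node ⟨nat_lit 6, nat_lit 0x800300038, nat_lit 0x101212, nat_lit 1, nat_lit 4, nat_lit 0x46⟩ (t14_5298) (t14_13490)))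 (.node ⟨nat_lit 7, nat_lit 0x40002000480064, nat_lit 0x212200, nat_lit 0, nat_lit 4, nat_lit 0x48⟩ (.node ⟨nat_lit 6, nat_lit 0x2000080030, nat_lit 0x101101, nat_lit 2, nat_lit 4, nat_lit 0x47⟩ (t14_3250) (t14_11442)) (.node ⟨nat_lit 5, nat_lit 0x100018, nat_lit 0x10201, nat_lit 2, nat_lit 4, nat_lit 0x46⟩ (t14_7346) (t14_15538))))) (.node ⟨nat_lit 6, nat_lit 0x200020, nat_lit 0x31110, nat_lit 0, nat_lit 4, nat_lit 0x49⟩ (.node ⟨nat_lit 4, nat_lit 0xc, nat_lit 0x2112, nat_lit 7, nat_lit 4, nat_lit 0x48⟩ (.node ⟨nat_lit 5, nat_lit 0x100018, nat_lit 0x210, nat_lit 1, nat_lit 4, nat_lit 0x45⟩ (.node ⟨nat_lit 5, nat_lit 0x800100010, nat_lit 0x21210, nat_lit 3, nat_lit 4, nat_lit 0x48⟩ (t14_690) (t14_8882)) (.node ⟨nat_lit 7, nat_lit 0x40002000500068, nat_lit 0x1012200, nat_lit 0, nat_lit 4, nat_lit 0x47⟩ (t14_4786) (t14_12978))) (.node ⟨nat_lit 4,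 nat_lit 8, nat_lit 0x111, nat_lit 3, nat_lit 4, nat_lit 0x45⟩ (.node ⟨nat_lit 6, nat_lit 0x800280030, nat_lit 0x11302, nat_lit 0, nat_lit 4, nat_lit 0x47⟩ (t14_2738) (t14_10930)) (.node ⟨nat_lit 7, nat_lit 0x40002000500068, nat_lit 0x1010021, nat_lit 2, nat_lit 4, nat_lit 0x47⟩ (t14_6834) (t14_15026)))) (.node ⟨nat_lit 6, nat_lit 0x2000080034, nat_lit 0x111212, nat_lit 0, nat_lit 4, nat_lit 0x47⟩ (.node ⟨nat_lit 7, nat_lit 0x4000600064, nat_lit 0x1011211, nat_lit 0, nat_lit 4, nat_lit 0x48⟩ (.node ⟨nat_lit 7, nat_lit 0x800600050, nat_lit 0x11013, nat_lit 0, nat_lit 4, nat_lit 0x47⟩ (t14_1714) (t14_9906)) (.node ⟨nat_lit 6, nat_lit 0x200030, nat_lit 0x2203, nat_lit 0, nat_lit 4, nat_lit 0x48⟩ (t14_5810) (t14_14002))) (.node ⟨nat_lit 6, nat_lit 0x2000080030, nat_lit 0x22100, nat_lit 2, nat_lit 4, nat_lit 0x48⟩ (.node ⟨nat_lit 6, nat_lit 0x1000200030,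 nat_lit 0x2010, nat_lit 0, nat_lit 4, nat_lit 0x46⟩ (t14_3762) (t14_11954)) (.node ⟨nat_lit 8, nat_lit 0x4000400080008800e000e0, nat_lit 0x11020021, nat_lit 1, nat_lit 4, nat_lit 0x47⟩ (t14_7858) (.nil)))))
def t14_434 : Tr := .node ⟨nat_lit 7, nat_lit 0x40004000200068, nat_lit 0x1112101, nat_lit 1, nat_lit 4, nat_lit 0x49⟩ (.nil) (.nil)
def t14_8626 : Tr := .node ⟨nat_lit 7, nat_lit 0x10002000400060, nat_lit 0x2001, nat_lit 0, nat_lit 4, nat_lit 0x46⟩ (.nil) (.nil)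
def t14_4530 : Tr := .node ⟨nat_lit 8, nat_lit 0x10002000400080, nat_lit 0x11111011, nat_lit 3, nat_lit 4, nat_lit 0x4b⟩ (.nil) (.nil)
def t14_12722 : Tr := .node ⟨nat_lit 6, nat_lit 0x1000280030, nat_lit 0x101120, nat_lit 3, nat_lit 4, nat_lit 0x47⟩ (.nil) (.nil)
def t14_2482 : Tr := .node ⟨nat_lit 7, nat_lit 0x10001800600050, nat_lit 0x12020, nat_lit 1, nat_lit 4, nat_lit 0x47⟩ (.nil) (.nil)
def t14_10674 : Tr := .node ⟨nat_lit 6, nat_lit 0x2000300034, nat_lit 0x101002, nat_lit 3, nat_lit 4, nat_lit 0x46⟩ (.nil) (.nil)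
def t14_6578 : Tr := .node ⟨nat_lit 4, nat_lit 0xc000c, nat_lit 0x2030, nat_lit 6, nat_lit 4, nat_lit 0x46⟩ (.nil) (.nil)
def t14_14770 : Tr := .node ⟨nat_lit 6, nat_lit 0x800300028, nat_lit 0x101312, nat_lit 2, nat_lit 4, nat_lit 0x48⟩ (.nil) (.nil)
def t14_1458 : Tr := .node ⟨nat_lit 9, nat_lit 0x100008000800090014001a001c0, nat_lit 0x100021011, nat_lit 1, nat_lit 4, nat_lit 0x47⟩ (.nil) (.nil)
def t14_9650 : Tr := .node ⟨nat_lit 7, nat_lit 0x40004000200060, nat_lit 0x12012, nat_lit 2, nat_lit 4, nat_lit 0x48⟩ (.nil) (.nil)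
def t14_5554 : Tr := .node ⟨nat_lit 8, nat_lit 0x8000800080, nat_lit 0x1111310, nat_lit 0, nat_lit 4, nat_lit 0x4c⟩ (.nil) (.nil)
def t14_13746 : Tr := .node ⟨nat_lit 6, nat_lit 0x1000280034, nat_lit 0x100200, nat_lit 3, nat_lit 4, nat_lit 0x46⟩ (.nil) (.nil)
def t14_3506 : Tr := .node ⟨nat_lit 7, nat_lit 0x3000600050, nat_lit 0x1001, nat_lit 0, nat_lit 4, nat_lit 0x45⟩ (.nil) (.nil)
def t14_11698 : Tr := .node ⟨nat_lit 9, nat_lit 0x4000800080010001900190, nat_lit 0x10001210, nat_lit 1, nat_lit 4, nat_lit 0x48⟩ (.nil) (.nil)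
def t14_7602 : Tr := .node ⟨nat_lit 6, nat_lit 0x800300038, nat_lit 0x32, nat_lit 0, nat_lit 4, nat_lit 0x44⟩ (.nil) (.nil)
def t14_946 : Tr := .node ⟨nat_lit 7, nat_lit 0x4000200020, nat_lit 0x122011, nat_lit 1, nat_lit 3, nat_lit 0x49⟩ (.nil) (.nil)
def t14_9138 : Tr := .node ⟨nat_lit 6, nat_lit 0x2000100010, nat_lit 0x101122, nat_lit 3, nat_lit 3, nat_lit 0x47⟩ (.nil) (.nil)
def t14_5042 : Tr := .node ⟨nat_lit 7, nat_lit 0x20006000500070, nat_lit 0x10141, nat_lit 0, nat_lit 4, nat_lit 0x46⟩ (.nil) (.nil)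
def t14_13234 : Tr := .node ⟨nat_lit 7, nat_lit 0x20002000500060, nat_lit 0x10031, nat_lit 0, nat_lit 4, nat_lit 0x46⟩ (.nil) (.nil)
def t14_2994 : Tr := .node ⟨nat_lit 8, nat_lit 0x80004000400020, nat_lit 0x110220, nat_lit 1, nat_lit 4, nat_lit 0x4a⟩ (.nil) (.nil)
def t14_11186 : Tr := .node ⟨nat_lit 7, nat_lit 0x6000180018, nat_lit 0x1110020, nat_lit 0, nat_lit 4, nat_lit 0x47⟩ (.nil) (.nil)
def t14_7090 : Tr := .node ⟨nat_lit 6, nat_lit 0x2000080030, nat_lit 0x211121, nat_lit 0, nat_lit 3, nat_lit 0x47⟩ (.nil) (.nil)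
def t14_15282 : Tr := .node ⟨nat_lit 8, nat_lit 0x80002000c000a0, nat_lit 0x110112, nat_lit 2, nat_lit 4, nat_lit 0x49⟩ (.nil) (.nil)
def t14_1970 : Tr := .node ⟨nat_lit 6, nat_lit 0x800300038, nat_lit 0x200112, nat_lit 2, nat_lit 4, nat_lit 0x46⟩ (.nil) (.nil)
def t14_10162 : Tr := .node ⟨nat_lit 7, nat_lit 0x40004000100060, nat_lit 0x2030, nat_lit 0, nat_lit 4, nat_lit 0x47⟩ (.nil) (.nil)
def t14_6066 : Tr := .node ⟨nat_lit 8, nat_lit 0x800080004000c0, nat_lit 0x1111102, nat_lit 0, nat_lit 4, nat_lit 0x4a⟩ (.nil) (.nil)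
def t14_14258 : Tr := .node ⟨nat_lit 7, nat_lit 0x20006000300050, nat_lit 0x1001100, nat_lit 1, nat_lit 4, nat_lit 0x46⟩ (.nil) (.nil)
def t14_4018 : Tr := .node ⟨nat_lit 7, nat_lit 0x40002000480068, nat_lit 0x1011021, nat_lit 0, nat_lit 4, nat_lit 0x47⟩ (.nil) (.nil)
def t14_12210 : Tr := .node ⟨nat_lit 8, nat_lit 0x40008000c000c800d0, nat_lit 0x1111012, nat_lit 0, nat_lit 4, nat_lit 0x47⟩ (.nil) (.nil)
def t14_8114 : Tr := .node ⟨nat_lit 7, nat_lit 0x4000400044, nat_lit 0x111103, nat_lit 0, nat_lit 4, nat_lit 0x49⟩ (.nil) (.nil)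
def t9_434 : Tr := .node ⟨nat_lit 6, nat_lit 0x30, nat_lit 0x213112, nat_lit 0, nat_lit 4, nat_lit 0x4b⟩ (.node ⟨nat_lit 7, nat_lit 0x4000400060, nat_lit 0x131201, nat_lit 1, nat_lit 4, nat_lit 0x4a⟩ (.node ⟨nat_lit 4, nat_lit 0xc, nat_lit 0x2122, nat_lit 3, nat_lit 4, nat_lit 0x47⟩ (.node ⟨nat_lit 5, nat_lit 0x100018, nat_lit 0x10212, nat_lit 2, nat_lit 3, nat_lit 0x46⟩ (.node ⟨nat_lit 5, nat_lit 0x800100018, nat_lit 0x120, nat_lit 3, nat_lit 3, nat_lit 0x44⟩ (t14_434) (t14_8626)) (.node ⟨nat_lit 7, nat_lit 0x40004800300068, nat_lit 0x1120023, nat_lit 0, nat_lit 4, nat_lit 0x47⟩ (t14_4530) (t14_12722))) (.node ⟨nat_lit 6, nat_lit 0x2000100008, nat_lit 0x2001, nat_lit 4, nat_lit 3, nat_lit 0x47⟩ (.node ⟨nat_lit 7, nat_lit 0x1000500060, nat_lit 0x1111130, nat_lit 0, nat_lit 4, nat_lit 0x49⟩ (t14_2482) (t14_10674)) (.node ⟨nat_lit 8, nat_lit 0x200080008400c0,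 nat_lit 0x1020221, nat_lit 0, nat_lit 4, nat_lit 0x49⟩ (t14_6578) (t14_14770)))) (.node ⟨nat_lit 6, nat_lit 0x2000080030, nat_lit 0x21101, nat_lit 1, nat_lit 4, nat_lit 0x47⟩ (.node ⟨nat_lit 7, nat_lit 0x40004000200048, nat_lit 0x211211, nat_lit 1, nat_lit 4, nat_lit 0x49⟩ (.node ⟨nat_lit 7, nat_lit 0x40001000100060, nat_lit 0x1101003, nat_lit 1, nat_lit 4, nat_lit 0x48⟩ (t14_1458) (t14_9650)) (.node ⟨nat_lit 5, nat_lit 0x800100010, nat_lit 0x12120, nat_lit 5, nat_lit 3, nat_lit 0x47⟩ (t14_5554) (t14_13746))) (.node ⟨nat_lit 7, nat_lit 0x4000400060, nat_lit 0x111201, nat_lit 1, nat_lit 4, nat_lit 0x49⟩ (.node ⟨nat_lit 4, nat_lit 0x8000c, nat_lit 0, nat_lit 4, nat_lit 3, nat_lit 0x43⟩ (t14_3506) (t14_11698)) (.node ⟨nat_lit 7, nat_lit 0x20002000400042, nat_lit 0x1111120, nat_lit 0, nat_lit 4, nat_lit 0x49⟩ (t14_7602) (.nil))))) (.node ⟨nat_lit 7,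 nat_lit 0x1000100060, nat_lit 0x2003201, nat_lit 0, nat_lit 4, nat_lit 0x4a⟩ (.node ⟨nat_lit 5, nat_lit 0x10, nat_lit 0x22001, nat_lit 0, nat_lit 4, nat_lit 0x48⟩ (.node ⟨nat_lit 6, nat_lit 0x800280030, nat_lit 0x111121, nat_lit 1, nat_lit 4, nat_lit 0x47⟩ (.node ⟨nat_lit 5, nat_lit 0x10, nat_lit 0x11114, nat_lit 5, nat_lit 4, nat_lit 0x4a⟩ (t14_946) (t14_9138)) (.node ⟨nat_lit 7, nat_lit 0x200040, nat_lit 0x1122201, nat_lit 0, nat_lit 4, nat_lit 0x4c⟩ (t14_5042) (t14_13234))) (.node ⟨nat_lit 3, nat_lit 6, nat_lit 0x223, nat_lit 6, nat_lit 4, nat_lit 0x47⟩ (.node ⟨nat_lit 6, nat_lit 0x200022, nat_lit 0x111120, nat_lit 5, nat_lit 4, nat_lit 0x4a⟩ (t14_2994) (t14_11186)) (.node ⟨nat_lit 7, nat_lit 0x400020002000500050, nat_lit 0x1101120, nat_lit 0, nat_lit 4, nat_lit 0x47⟩ (t14_7090) (t14_15282)))) (.node ⟨nat_lit 6, nat_lit 0x2000080034, nat_lit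 0x121100, nat_lit 1, nat_lit 4, nat_lit 0x47⟩ (.node ⟨nat_lit 6, nat_lit 0x20001000100028, nat_lit 0x211211, nat_lit 1, nat_lit 4, nat_lit 0x48⟩ (.node ⟨nat_lit 6, nat_lit 0x2000340038, nat_lit 0x110113, nat_lit 3, nat_lit 4, nat_lit 0x46⟩ (t14_1970) (t14_10162)) (.node ⟨nat_lit 5, nat_lit 0x1000080018, nat_lit 0x1220, nat_lit 3, nat_lit 3, nat_lit 0x45⟩ (t14_6066) (t14_14258))) (.node ⟨nat_lit 7, nat_lit 0x400040004000200020, nat_lit 0x21010, nat_lit 4, nat_lit 4, nat_lit 0x48⟩ (.node ⟨nat_lit 6, nat_lit 0x20002800300038, nat_lit 0x100020, nat_lit 3, nat_lit 4, nat_lit 0x45⟩ (t14_4018) (t14_12210)) (.node ⟨nat_lit 9, nat_lit 0x8000800100010000c001100190, nat_lit 0x101111101, nat_lit 0, nat_lit 4, nat_lit 0x48⟩ (t14_8114) (.nil)))))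
def t14_114 : Tr := .node ⟨nat_lit 7, nat_lit 0x800500060, nat_lit 0x122111, nat_lit 0, nat_lit 4, nat_lit 0x49⟩ (.nil) (.nil)
def t14_8306 : Tr := .node ⟨nat_lit 5, nat_lit 0x1000140018, nat_lit 0x220, nat_lit 6, nat_lit 4, nat_lit 0x46⟩ (.nil) (.nil)
def t14_4210 : Tr := .node ⟨nat_lit 9, nat_lit 0x800080008001000100010800c0, nat_lit 0x101111110, nat_lit 1, nat_lit 4, nat_lit 0x49⟩ (.nil) (.nil)
def t14_12402 : Tr := .node ⟨nat_lit 7, nat_lit 0x2000200040, nat_lit 0x11001, nat_lit 0, nat_lit 4, nat_lit 0x48⟩ (.nil) (.nil)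
def t14_2162 : Tr := .node ⟨nat_lit 7, nat_lit 0x400020002000500060, nat_lit 0x22220, nat_lit 0, nat_lit 4, nat_lit 0x47⟩ (.nil) (.nil)
def t14_10354 : Tr := .node ⟨nat_lit 7, nat_lit 0x40004800600068, nat_lit 0x12002, nat_lit 3, nat_lit 4, nat_lit 0x47⟩ (.nil) (.nil)
def t14_6258 : Tr := .node ⟨nat_lit 5, nat_lit 0x800080010, nat_lit 0x11111, nat_lit 7, nat_lit 4, nat_lit 0x48⟩ (.nil) (.nil)
def t14_14450 : Tr := .node ⟨nat_lit 5, nat_lit 0x180018, nat_lit 0x110, nat_lit 7, nat_lit 4, nat_lit 0x46⟩ (.nil) (.nil)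
def t14_1138 : Tr := .node ⟨nat_lit 8, nat_lit 0x400080002000c0, nat_lit 0x112011, nat_lit 1, nat_lit 4, nat_lit 0x49⟩ (.nil) (.nil)
def t14_9330 : Tr := .node ⟨nat_lit 9, nat_lit 0x10001000120018000c001a0, nat_lit 0x1000212, nat_lit 0, nat_lit 4, nat_lit 0x47⟩ (.nil) (.nil)
def t14_5234 : Tr := .node ⟨nat_lit 7, nat_lit 0x20005000600060, nat_lit 0x20211, nat_lit 0, nat_lit 3, nat_lit 0x45⟩ (.nil) (.nil)
def t14_13426 : Tr := .node ⟨nat_lit 8, nat_lit 0x200080008400c0, nat_lit 0x2200, nat_lit 0, nat_lit 4, nat_lit 0x48⟩ (.nil) (.nil)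
def t14_3186 : Tr := .node ⟨nat_lit 7, nat_lit 0x40002000480030, nat_lit 0x1011102, nat_lit 0, nat_lit 4, nat_lit 0x47⟩ (.nil) (.nil)
def t14_11378 : Tr := .node ⟨nat_lit 9, nat_lit 0x1000040004001800180, nat_lit 0x111020, nat_lit 1, nat_lit 4, nat_lit 0x49⟩ (.nil) (.nil)
def t14_7282 : Tr := .node ⟨nat_lit 7, nat_lit 0x20004000500064, nat_lit 0x2102010, nat_lit 1, nat_lit 4, nat_lit 0x48⟩ (.nil) (.nil)
def t14_15474 : Tr := .node ⟨nat_lit 0xc, nat_lit 0x4000200010000800800, nat_lit 0x100001100001, nat_lit 0, nat_lit 4, nat_lit 0x4e⟩ (.nil) (.nil)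
def t14_626 : Tr := .node ⟨nat_lit 7, nat_lit 0x400020002000500068, nat_lit 0x12212, nat_lit 0, nat_lit 4, nat_lit 0x46⟩ (.nil) (.nil)
def t14_8818 : Tr := .node ⟨nat_lit 6, nat_lit 0x20001000100028, nat_lit 0x112204, nat_lit 0, nat_lit 4, nat_lit 0x48⟩ (.nil) (.nil)
def t14_4722 : Tr := .node ⟨nat_lit 8, nat_lit 0x8000400020009000c8, nat_lit 0x11012000, nat_lit 0, nat_lit 4, nat_lit 0x48⟩ (.nil) (.nil)
def t14_12914 : Tr := .node ⟨nat_lit 8, nat_lit 0x4000800060009000e000d0, nat_lit 0x1020002, nat_lit 1, nat_lit 4, nat_lit 0x46⟩ (.nil) (.nil)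
def t14_2674 : Tr := .node ⟨nat_lit 5, nat_lit 0x180018, nat_lit 0x130, nat_lit 3, nat_lit 4, nat_lit 0x45⟩ (.nil) (.nil)
def t14_10866 : Tr := .node ⟨nat_lit 7, nat_lit 0x40004000200060, nat_lit 0x111032, nat_lit 0, nat_lit 3, nat_lit 0x47⟩ (.nil) (.nil)
def t14_6770 : Tr := .node ⟨nat_lit 6, nat_lit 0x2000080030, nat_lit 0x1010, nat_lit 5, nat_lit 4, nat_lit 0x47⟩ (.nil) (.nil)
def t14_14962 : Tr := .node ⟨nat_lit 8, nat_lit 0x8000800040004000a000c0, nat_lit 0x11102, nat_lit 0, nat_lit 4, nat_lit 0x47⟩ (.nil) (.nil)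
def t14_1650 : Tr := .node ⟨nat_lit 8, nat_lit 0x800020009000a000c0, nat_lit 0x1011120, nat_lit 1, nat_lit 4, nat_lit 0x47⟩ (.nil) (.nil)
def t14_9842 : Tr := .node ⟨nat_lit 7, nat_lit 0x4000500060, nat_lit 0x100120, nat_lit 0, nat_lit 4, nat_lit 0x47⟩ (.nil) (.nil)
def t14_5746 : Tr := .node ⟨nat_lit 8, nat_lit 0x80008000c0, nat_lit 0x111220, nat_lit 2, nat_lit 4, nat_lit 0x4b⟩ (.nil) (.nil)
def t14_13938 : Tr := .node ⟨nat_lit 8, nat_lit 0x4000400080008000600088, nat_lit 0x100100, nat_lit 0, nat_lit 4, nat_lit 0x46⟩ (.nil) (.nil)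
def t14_3698 : Tr := .node ⟨nat_lit 7, nat_lit 0x1000600060, nat_lit 0x1002031, nat_lit 0, nat_lit 4, nat_lit 0x48⟩ (.nil) (.nil)
def t14_11890 : Tr := .node ⟨nat_lit 6, nat_lit 0x2000200010, nat_lit 0x101003, nat_lit 3, nat_lit 3, nat_lit 0x47⟩ (.nil) (.nil)
def t14_7794 : Tr := .node ⟨nat_lit 7, nat_lit 0x40001000600060, nat_lit 0x1210, nat_lit 1, nat_lit 4, nat_lit 0x46⟩ (.nil) (.nil)
def t9_114 : Tr := .node ⟨nat_lit 5, nat_lit 0x10, nat_lit 0x11112, nat_lit 0, nat_lit 3, nat_lit 0x47⟩ (.node ⟨nat_lit 5, nat_lit 0x40018, nat_lit 0x31113, nat_lit 0, nat_lit 4, nat_lit 0x48⟩ (.node ⟨nat_lit 7, nat_lit 0x40006000600068, nat_lit 0x31102, nat_lit 1, nat_lit 4, nat_lit 0x47⟩ (.node ⟨nat_lit 7, nat_lit 0x200020004000440060, nat_lit 0x1020111, nat_lit 1, nat_lit 4, nat_lit 0x47⟩ (.node ⟨nat_lit 6, nat_lit 0x80030, nat_lit 0x211112, nat_lit 2, nat_lit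 3, nat_lit 0x48⟩ (t14_114) (t14_8306)) (.node ⟨nat_lit 6, nat_lit 0x80030, nat_lit 0x200, nat_lit 0, nat_lit 4, nat_lit 0x46⟩ (t14_4210) (t14_12402))) (.node ⟨nat_lit 7, nat_lit 0x40001000100060, nat_lit 0x1201101, nat_lit 0, nat_lit 4, nat_lit 0x48⟩ (.node ⟨nat_lit 6, nat_lit 0x2000080030, nat_lit 0x1210, nat_lit 3, nat_lit 4, nat_lit 0x47⟩ (t14_2162) (t14_10354)) (.node ⟨nat_lit 6, nat_lit 0x2000100024, nat_lit 0x12212, nat_lit 2, nat_lit 4, nat_lit 0x48⟩ (t14_6258) (t14_14450)))) (.node ⟨nat_lit 6, nat_lit 0x1000200030, nat_lit 0x102022, nat_lit 2, nat_lit 4, nat_lit 0x48⟩ (.node ⟨nat_lit 5, nat_lit 0x18, nat_lit 0x22221, nat_lit 1, nat_lit 4, nat_lit 0x4a⟩ (.node ⟨nat_lit 7, nat_lit 0x40001000100060, nat_lit 0x1113111, nat_lit 0, nat_lit 4, nat_lit 0x49⟩ (t14_1138) (t14_9330)) (.node ⟨nat_lit 5, nat_lit 0x1c, nat_lit 0x21111, nat_lit 1, nat_lit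 4, nat_lit 0x47⟩ (t14_5234) (t14_13426))) (.node ⟨nat_lit 6, nat_lit 0x80030, nat_lit 0x101201, nat_lit 4, nat_lit 4, nat_lit 0x49⟩ (.node ⟨nat_lit 6, nat_lit 0x20002000100030, nat_lit 0x12130, nat_lit 3, nat_lit 4, nat_lit 0x48⟩ (t14_3186) (t14_11378)) (.node ⟨nat_lit 5, nat_lit 0x100018, nat_lit 0x11112, nat_lit 6, nat_lit 4, nat_lit 0x48⟩ (t14_7282) (t14_15474))))) (.node ⟨nat_lit 6, nat_lit 0x200010, nat_lit 0x31102, nat_lit 0, nat_lit 4, nat_lit 0x4a⟩ (.node ⟨nat_lit 6, nat_lit 0x2000080034, nat_lit 0x200212, nat_lit 0, nat_lit 4, nat_lit 0x47⟩ (.node ⟨nat_lit 7, nat_lit 0x200040004000300048, nat_lit 0x211100, nat_lit 0, nat_lit 4, nat_lit 0x47⟩ (.node ⟨nat_lit 4, nat_lit 0x80004, nat_lit 0x1230, nat_lit 7, nat_lit 4, nat_lit 0x48⟩ (t14_626) (t14_8818)) (.node ⟨nat_lit 7, nat_lit 0x40004000200048, nat_lit 0x1112010, nat_lit 5, nat_lit 4, nat_lit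 0x4a⟩ (t14_4722) (t14_12914))) (.node ⟨nat_lit 6, nat_lit 0x1000200038, nat_lit 0x10122, nat_lit 1, nat_lit 4, nat_lit 0x46⟩ (.node ⟨nat_lit 5, nat_lit 0x40018, nat_lit 0x22203, nat_lit 2, nat_lit 4, nat_lit 0x49⟩ (t14_2674) (t14_10866)) (.node ⟨nat_lit 6, nat_lit 0x200030, nat_lit 0x1010, nat_lit 0, nat_lit 4, nat_lit 0x46⟩ (t14_6770) (t14_14962)))) (.node ⟨nat_lit 5, nat_lit 0x40018, nat_lit 0x22031, nat_lit 0, nat_lit 4, nat_lit 0x47⟩ (.node ⟨nat_lit 6, nat_lit 0x800300030, nat_lit 0x112111, nat_lit 0, nat_lit 3, nat_lit 0x46⟩ (.node ⟨nat_lit 2, nat_lit 2, nat_lit 1, nat_lit 5, nat_lit 4, nat_lit 0x41⟩ (t14_1650) (t14_9842)) (.node ⟨nat_lit 5, nat_lit 0x100008001a, nat_lit 0x2220, nat_lit 5, nat_lit 4, nat_lit 0x47⟩ (t14_5746) (t14_13938))) (.node ⟨nat_lit 6, nat_lit 0x2000200010, nat_lit 0x12001, nat_lit 4, nat_lit 3, nat_lit 0x47⟩ (.node ⟨nat_lit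 6, nat_lit 0x1000280034, nat_lit 0x21100, nat_lit 0, nat_lit 4, nat_lit 0x46⟩ (t14_3698) (t14_11890)) (.node ⟨nat_lit 5, nat_lit 0x18001c, nat_lit 0x11112, nat_lit 3, nat_lit 4, nat_lit 0x46⟩ (t14_7794) (.nil)))))
def t14_370 : Tr := .node ⟨nat_lit 7, nat_lit 0x4000400060, nat_lit 0x211201, nat_lit 1, nat_lit 4, nat_lit 0x4a⟩ (.nil) (.nil)
def t14_8562 : Tr := .node ⟨nat_lit 8, nat_lit 0x800040009000a000d0, nat_lit 0x10202, nat_lit 0, nat_lit 4, nat_lit 0x46⟩ (.nil) (.nil)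
def t14_4466 : Tr := .node ⟨nat_lit 7, nat_lit 0x400040005000500050, nat_lit 0x1111211, nat_lit 2, nat_lit 4, nat_lit 0x49⟩ (.nil) (.nil)
def t14_12658 : Tr := .node ⟨nat_lit 5, nat_lit 0x1000100018, nat_lit 0x320, nat_lit 0xa, nat_lit 4, nat_lit 0x48⟩ (.nil) (.nil)
def t14_2418 : Tr := .node ⟨nat_lit 8, nat_lit 0x2000a000a000c0, nat_lit 0x1012102, nat_lit 0, nat_lit 4, nat_lit 0x48⟩ (.nil) (.nil)
def t14_10610 : Tr := .node ⟨nat_lit 6, nat_lit 0x800080030, nat_lit 0x100100, nat_lit 2, nat_lit 4, nat_lit 0x46⟩ (.nil) (.nil)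
def t14_6514 : Tr := .node ⟨nat_lit 6, nat_lit 0x2000080034, nat_lit 0x111211, nat_lit 3, nat_lit 4, nat_lit 0x48⟩ (.nil) (.nil)
def t14_14706 : Tr := .node ⟨nat_lit 8, nat_lit 0x8000800040004000a000c8, nat_lit 0x112111, nat_lit 1, nat_lit 4, nat_lit 0x47⟩ (.nil) (.nil)
def t14_1394 : Tr := .node ⟨nat_lit 8, nat_lit 0x8000900060006000d0, nat_lit 0x10010103, nat_lit 1, nat_lit 4, nat_lit 0x46⟩ (.nil) (.nil)
def t14_9586 : Tr := .node ⟨nat_lit 6, nat_lit 0x20001000100030, nat_lit 0x100330, nat_lit 1, nat_lit 3, nat_lit 0x46⟩ (.nil) (.nil)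
def t14_5490 : Tr := .node ⟨nat_lit 7, nat_lit 0x2000400042, nat_lit 0x11030, nat_lit 1, nat_lit 4, nat_lit 0x49⟩ (.nil) (.nil)
def t14_13682 : Tr := .node ⟨nat_lit 6, nat_lit 0x20001000280038, nat_lit 0x200002, nat_lit 4, nat_lit 4, nat_lit 0x46⟩ (.nil) (.nil)
def t14_3442 : Tr := .node ⟨nat_lit 7, nat_lit 0x5000300060, nat_lit 0x12210, nat_lit 3, nat_lit 4, nat_lit 0x48⟩ (.nil) (.nil)
def t14_11634 : Tr := .node ⟨nat_lit 7, nat_lit 0x20004000600060, nat_lit 0x13010, nat_lit 1, nat_lit 3, nat_lit 0x46⟩ (.nil) (.nil)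
def t14_7538 : Tr := .node ⟨nat_lit 7, nat_lit 0x10004000600064, nat_lit 0x230, nat_lit 1, nat_lit 4, nat_lit 0x46⟩ (.nil) (.nil)
def t14_882 : Tr := .node ⟨nat_lit 9, nat_lit 0x400100010000200180, nat_lit 0x102210, nat_lit 1, nat_lit 4, nat_lit 0x4a⟩ (.nil) (.nil)
def t14_9074 : Tr := .node ⟨nat_lit 6, nat_lit 0x1000280030, nat_lit 0x1021, nat_lit 3, nat_lit 4, nat_lit 0x46⟩ (.nil) (.nil)
def t14_4978 : Tr := .node ⟨nat_lit 7, nat_lit 0x4000600050, nat_lit 0x11301, nat_lit 3, nat_lit 4, nat_lit 0x49⟩ (.nil) (.nil)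
def t14_13170 : Tr := .node ⟨nat_lit 8, nat_lit 0x2000800040008800c4, nat_lit 0x2100, nat_lit 2, nat_lit 4, nat_lit 0x47⟩ (.nil) (.nil)
def t14_2930 : Tr := .node ⟨nat_lit 6, nat_lit 0x1000200032, nat_lit 0x1310, nat_lit 0, nat_lit 4, nat_lit 0x46⟩ (.nil) (.nil)
def t14_11122 : Tr := .node ⟨nat_lit 4, nat_lit 0x40008, nat_lit 0x1121, nat_lit 9, nat_lit 3, nat_lit 0x46⟩ (.nil) (.nil)
def t14_7026 : Tr := .node ⟨nat_lit 5, nat_lit 0x800100018, nat_lit 0x11201, nat_lit 5, nat_lit 4, nat_lit 0x47⟩ (.nil) (.nil)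
def t14_15218 : Tr := .node ⟨nat_lit 8, nat_lit 0x8000200090009000d0, nat_lit 0x1010202, nat_lit 0, nat_lit 4, nat_lit 0x47⟩ (.nil) (.nil)
def t14_1906 : Tr := .node ⟨nat_lit 6, nat_lit 0x800200030, nat_lit 0x200012, nat_lit 0, nat_lit 4, nat_lit 0x47⟩ (.nil) (.nil)
def t14_10098 : Tr := .node ⟨nat_lit 8, nat_lit 0x200040008000c000c0, nat_lit 0x2220, nat_lit 2, nat_lit 4, nat_lit 0x48⟩ (.nil) (.nil)
def t14_6002 : Tr := .node ⟨nat_lit 7, nat_lit 0x1000400060, nat_lit 0x1202010, nat_lit 1, nat_lit 4, nat_lit 0x4a⟩ (.nil) (.nil)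
def t14_14194 : Tr := .node ⟨nat_lit 3, nat_lit 0x40006, nat_lit 0x102, nat_lit 0xb, nat_lit 4, nat_lit 0x45⟩ (.nil) (.nil)
def t14_3954 : Tr := .node ⟨nat_lit 6, nat_lit 0x10001000200032, nat_lit 0x103011, nat_lit 4, nat_lit 4, nat_lit 0x47⟩ (.nil) (.nil)
def t14_12146 : Tr := .node ⟨nat_lit 8, nat_lit 0x80001000c000a0, nat_lit 0x113110, nat_lit 0, nat_lit 4, nat_lit 0x49⟩ (.nil) (.nil)
def t14_8050 : Tr := .node ⟨nat_lit 6, nat_lit 0x800200032, nat_lit 0x20013, nat_lit 2, nat_lit 4, nat_lit 0x46⟩ (.nil) (.nil)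
def t9_370 : Tr := .node ⟨nat_lit 5, nat_lit 0, nat_lit 0x33111, nat_lit 3, nat_lit 4, nat_lit 0x4c⟩ (.node ⟨nat_lit 3, nat_lit 4, nat_lit 0x234, nat_lit 2, nat_lit 3, nat_lit 0x47⟩ (.node ⟨nat_lit 6, nat_lit 0x80030, nat_lit 0x220102, nat_lit 1, nat_lit 4, nat_lit 0x49⟩ (.node ⟨nat_lit 6, nat_lit 0x2000080030, nat_lit 0x111221, nat_lit 1, nat_lit 4, nat_lit 0x48⟩ (.node ⟨nat_lit 5, nat_lit 0x100008, nat_lit 0x12211, nat_lit 5, nat_lit 3, nat_lit 0x48⟩ (t14_370) (t14_8562)) (.node ⟨nat_lit 7, nat_lit 0x400040005800700070, nat_lit 0x1102111, nat_lit 1, nat_lit 4, nat_lit 0x46⟩ (t14_4466) (t14_12658))) (.node ⟨nat_lit 5, nat_lit 0x140018, nat_lit 0x11210, nat_lit 4, nat_lit 4, nat_lit 0x47⟩ (.node ⟨nat_lit 7, nat_lit 0x800100060, nat_lit 0x1000011, nat_lit 1, nat_lit 4, nat_lit 0x47⟩ (t14_2418) (t14_10610)) (.node ⟨nat_lit 7, nat_lit 0x4000100060,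 nat_lit 0x21210, nat_lit 1, nat_lit 4, nat_lit 0x49⟩ (t14_6514) (t14_14706)))) (.node ⟨nat_lit 4, nat_lit 0x40008, nat_lit 0x1223, nat_lit 3, nat_lit 3, nat_lit 0x46⟩ (.node ⟨nat_lit 6, nat_lit 0x800200032, nat_lit 0x222110, nat_lit 1, nat_lit 4, nat_lit 0x49⟩ (.node ⟨nat_lit 5, nat_lit 0x40018, nat_lit 0x10104, nat_lit 2, nat_lit 4, nat_lit 0x46⟩ (t14_1394) (t14_9586)) (.node ⟨nat_lit 6, nat_lit 0x10001000200038, nat_lit 0x12121, nat_lit 3, nat_lit 4, nat_lit 0x47⟩ (t14_5490) (t14_13682))) (.node ⟨nat_lit 7, nat_lit 0x1000100060, nat_lit 0x3011112, nat_lit 0, nat_lit 4, nat_lit 0x4a⟩ (.node ⟨nat_lit 4, nat_lit 0xc000c, nat_lit 0, nat_lit 3, nat_lit 3, nat_lit 0x42⟩ (t14_3442) (t14_11634)) (.node ⟨nat_lit 8, nat_lit 0x4000400040008000d0, nat_lit 0x10111012, nat_lit 2, nat_lit 4, nat_lit 0x49⟩ (t14_7538) (.nil))))) (.node ⟨nat_lit 3, nat_lit 6,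 nat_lit 0x211, nat_lit 7, nat_lit 3, nat_lit 0x45⟩ (.node ⟨nat_lit 6, nat_lit 0x280030, nat_lit 0x22111, nat_lit 1, nat_lit 4, nat_lit 0x48⟩ (.node ⟨nat_lit 6, nat_lit 0x80030, nat_lit 0x111112, nat_lit 0, nat_lit 4, nat_lit 0x48⟩ (.node ⟨nat_lit 6, nat_lit 0x2000100024, nat_lit 0x22200, nat_lit 0, nat_lit 4, nat_lit 0x48⟩ (t14_882) (t14_9074)) (.node ⟨nat_lit 7, nat_lit 0x4000100060, nat_lit 0x1112210, nat_lit 1, nat_lit 4, nat_lit 0x4a⟩ (t14_4978) (t14_13170))) (.node ⟨nat_lit 6, nat_lit 0x1000280030, nat_lit 0x102031, nat_lit 0, nat_lit 4, nat_lit 0x47⟩ (.node ⟨nat_lit 7, nat_lit 0x400042, nat_lit 0x1111121, nat_lit 2, nat_lit 4, nat_lit 0x4b⟩ (t14_2930) (t14_11122)) (.node ⟨nat_lit 9, nat_lit 0x80010001000110011000c001a0, nat_lit 0x12101002, nat_lit 1, nat_lit 4, nat_lit 0x47⟩ (t14_7026) (t14_15218)))) (.node ⟨nat_lit 6, nat_lit 0x100020, nat_lit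 0x12112, nat_lit 1, nat_lit 4, nat_lit 0x49⟩ (.node ⟨nat_lit 6, nat_lit 0x1000280034, nat_lit 0x112210, nat_lit 0, nat_lit 4, nat_lit 0x47⟩ (.node ⟨nat_lit 6, nat_lit 0x800300038, nat_lit 0x111113, nat_lit 2, nat_lit 4, nat_lit 0x47⟩ (t14_1906) (t14_10098)) (.node ⟨nat_lit 7, nat_lit 0x10005000600060, nat_lit 0x111220, nat_lit 0, nat_lit 4, nat_lit 0x47⟩ (t14_6002) (t14_14194))) (.node ⟨nat_lit 5, nat_lit 0x80010, nat_lit 0x10000, nat_lit 0, nat_lit 4, nat_lit 0x44⟩ (.node ⟨nat_lit 7, nat_lit 0x1000600050, nat_lit 0x1011203, nat_lit 0, nat_lit 4, nat_lit 0x49⟩ (t14_3954) (t14_12146)) (.node ⟨nat_lit 6, nat_lit 0x200030, nat_lit 0x101121, nat_lit 8, nat_lit 4, nat_lit 0x4a⟩ (t14_8050) (.nil)))))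
def t14_242 : Tr := .node ⟨nat_lit 7, nat_lit 0x40001000600068, nat_lit 0x123111, nat_lit 0, nat_lit 4, nat_lit 0x48⟩ (.nil) (.nil)
def t14_8434 : Tr := .node ⟨nat_lit 7, nat_lit 0x4800600070, nat_lit 0x10012, nat_lit 0, nat_lit 4, nat_lit 0x45⟩ (.nil) (.nil)
def t14_4338 : Tr := .node ⟨nat_lit 6, nat_lit 0x1800280030, nat_lit 0x112102, nat_lit 1, nat_lit 4, nat_lit 0x47⟩ (.nil) (.nil)
def t14_12530 : Tr := .node ⟨nat_lit 8, nat_lit 0x800090006000d000e0, nat_lit 0x10010013, nat_lit 1, nat_lit 4, nat_lit 0x46⟩ (.nil) (.nil)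
def t14_2290 : Tr := .node ⟨nat_lit 6, nat_lit 0x2000100024, nat_lit 0x21201, nat_lit 2, nat_lit 4, nat_lit 0x48⟩ (.nil) (.nil)
def t14_10482 : Tr := .node ⟨nat_lit 8, nat_lit 0x800040004000a000d000c8, nat_lit 0x1101220, nat_lit 1, nat_lit 4, nat_lit 0x46⟩ (.nil) (.nil)
def t14_6386 : Tr := .node ⟨nat_lit 5, nat_lit 0x1000100018, nat_lit 0x1201, nat_lit 7, nat_lit 4, nat_lit 0x47⟩ (.nil) (.nil)
def t14_14578 : Tr := .node ⟨nat_lit 6, nat_lit 0x1000100020, nat_lit 0x101311, nat_lit 2, nat_lit 3, nat_lit 0x47⟩ (.nil) (.nil)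
def t14_1266 : Tr := .node ⟨nat_lit 7, nat_lit 0x200040004800300060, nat_lit 0x113012, nat_lit 0, nat_lit 4, nat_lit 0x47⟩ (.nil) (.nil)
def t14_9458 : Tr := .node ⟨nat_lit 8, nat_lit 0x800040005000a000a000c0, nat_lit 0x10110003, nat_lit 1, nat_lit 4, nat_lit 0x47⟩ (.nil) (.nil)
def t14_5362 : Tr := .node ⟨nat_lit 8, nat_lit 0x800010002000c0, nat_lit 0x11103010, nat_lit 0, nat_lit 4, nat_lit 0x4a⟩ (.nil) (.nil)
def t14_13554 : Tr := .node ⟨nat_lit 7, nat_lit 0x40001000100020, nat_lit 2, nat_lit 5, nat_lit 4, nat_lit 0x48⟩ (.nil) (.nil)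
def t14_3314 : Tr := .node ⟨nat_lit 6, nat_lit 0x20002000100030, nat_lit 0x2121, nat_lit 4, nat_lit 4, nat_lit 0x47⟩ (.nil) (.nil)
def t14_11506 : Tr := .node ⟨nat_lit 7, nat_lit 0x800600050, nat_lit 0x1100101, nat_lit 0, nat_lit 4, nat_lit 0x47⟩ (.nil) (.nil)
def t14_7410 : Tr := .node ⟨nat_lit 8, nat_lit 0x800080008000400040, nat_lit 0x1210011, nat_lit 1, nat_lit 4, nat_lit 0x4a⟩ (.nil) (.nil)
def t14_754 : Tr := .node ⟨nat_lit 7, nat_lit 0x1800500060, nat_lit 0x101311, nat_lit 1, nat_lit 4, nat_lit 0x47⟩ (.nil) (.nil)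
def t14_8946 : Tr := .node ⟨nat_lit 7, nat_lit 0x40004000200060, nat_lit 0x11003, nat_lit 0, nat_lit 3, nat_lit 0x46⟩ (.nil) (.nil)
def t14_4850 : Tr := .node ⟨nat_lit 7, nat_lit 0x40001000480060, nat_lit 0x210101, nat_lit 0, nat_lit 4, nat_lit 0x47⟩ (.nil) (.nil)
def t14_13042 : Tr := .node ⟨nat_lit 5, nat_lit 0x100014001c, nat_lit 0x1200, nat_lit 6, nat_lit 4, nat_lit 0x46⟩ (.nil) (.nil)
def t14_2802 : Tr := .node ⟨nat_lit 6, nat_lit 0x1000100020, nat_lit 0x11003, nat_lit 2, nat_lit 4, nat_lit 0x48⟩ (.nil) (.nil)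
def t14_10994 : Tr := .node ⟨nat_lit 8, nat_lit 0x8000400040009000c0, nat_lit 0x10112003, nat_lit 0, nat_lit 4, nat_lit 0x49⟩ (.nil) (.nil)
def t14_6898 : Tr := .node ⟨nat_lit 9, nat_lit 0x1000080, nat_lit 0x1111100, nat_lit 0, nat_lit 4, nat_lit 0x4d⟩ (.nil) (.nil)
def t14_15090 : Tr := .node ⟨nat_lit 9, nat_lit 0x8001000100014001900190, nat_lit 0x11011, nat_lit 1, nat_lit 4, nat_lit 0x47⟩ (.nil) (.nil)
def t14_1778 : Tr := .node ⟨nat_lit 7, nat_lit 0x800100060, nat_lit 0x2110002, nat_lit 0, nat_lit 4, nat_lit 0x49⟩ (.nil) (.nil)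
def t14_9970 : Tr := .node ⟨nat_lit 7, nat_lit 0x6000600070, nat_lit 0x11203, nat_lit 2, nat_lit 4, nat_lit 0x47⟩ (.nil) (.nil)
def t14_5874 : Tr := .node ⟨nat_lit 5, nat_lit 0x100010, nat_lit 0x1122, nat_lit 8, nat_lit 4, nat_lit 0x49⟩ (.nil) (.nil)
def t14_14066 : Tr := .node ⟨nat_lit 7, nat_lit 0x60, nat_lit 0x1011100, nat_lit 0, nat_lit 4, nat_lit 0x4a⟩ (.nil) (.nil)
def t14_3826 : Tr := .node ⟨nat_lit 7, nat_lit 0x200020004000440030, nat_lit 0x1021002, nat_lit 0, nat_lit 4, nat_lit 0x47⟩ (.nil) (.nil)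
def t14_12018 : Tr := .node ⟨nat_lit 7, nat_lit 0x40004000100060, nat_lit 0x212110, nat_lit 0, nat_lit 4, nat_lit 0x49⟩ (.nil) (.nil)
def t14_7922 : Tr := .node ⟨nat_lit 7, nat_lit 0x20004000400044, nat_lit 0x20222, nat_lit 1, nat_lit 4, nat_lit 0x49⟩ (.nil) (.nil)
def t9_242 : Tr := .node ⟨nat_lit 5, nat_lit 0x100008, nat_lit 0x1332, nat_lit 0, nat_lit 4, nat_lit 0x48⟩ (.node ⟨nat_lit 6, nat_lit 0x20001000100028, nat_lit 0x301102, nat_lit 1, nat_lit 4, nat_lit 0x48⟩ (.node ⟨nat_lit 7, nat_lit 0x4000400060, nat_lit 0x32110, nat_lit 1, nat_lit 4, nat_lit 0x4a⟩ (.node ⟨nat_lit 5, nat_lit 0x1c, nat_lit 0x11023, nat_lit 2, nat_lit 4, nat_lit 0x47⟩ (.node ⟨nat_lit 7, nat_lit 0x200040, nat_lit 0x1211121, nat_lit 2, nat_lit 4, nat_lit 0x4c⟩ (t14_242) (t14_8434)) (.node ⟨nat_lit 7, nat_lit 0x20002000500068, nat_lit 0x1011203, nat_lit 0, nat_lit 4, nat_lit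 0x47⟩ (t14_4338) (t14_12530))) (.node ⟨nat_lit 6, nat_lit 0x20, nat_lit 0x221112, nat_lit 3, nat_lit 4, nat_lit 0x4c⟩ (.node ⟨nat_lit 6, nat_lit 0x1800280030, nat_lit 0x11233, nat_lit 0, nat_lit 4, nat_lit 0x46⟩ (t14_2290) (t14_10482)) (.node ⟨nat_lit 6, nat_lit 0x1000200030, nat_lit 0x112210, nat_lit 3, nat_lit 4, nat_lit 0x49⟩ (t14_6386) (t14_14578)))) (.node ⟨nat_lit 2, nat_lit 2, nat_lit 0x21, nat_lit 0x11, nat_lit 4, nat_lit 0x47⟩ (.node ⟨nat_lit 7, nat_lit 0x4000440060, nat_lit 0x2111111, nat_lit 1, nat_lit 4, nat_lit 0x4a⟩ (.node ⟨nat_lit 7, nat_lit 0x40004000100020, nat_lit 0x11000, nat_lit 1, nat_lit 4, nat_lit 0x47⟩ (t14_1266) (t14_9458)) (.node ⟨nat_lit 6, nat_lit 0x2000300034, nat_lit 0x111221, nat_lit 3, nat_lit 4, nat_lit 0x48⟩ (t14_5362) (t14_13554))) (.node ⟨nat_lit 6, nat_lit 0x2000100030, nat_lit 0x12013, nat_lit 2, nat_lit 4,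 nat_lit 0x48⟩ (.node ⟨nat_lit 5, nat_lit 0x800080010, nat_lit 0x11320, nat_lit 6, nat_lit 4, nat_lit 0x49⟩ (t14_3314) (t14_11506)) (.node ⟨nat_lit 7, nat_lit 0x40001000100060, nat_lit 0x1101112, nat_lit 0, nat_lit 4, nat_lit 0x48⟩ (t14_7410) (.nil))))) (.node ⟨nat_lit 5, nat_lit 0x80010, nat_lit 0x10301, nat_lit 4, nat_lit 4, nat_lit 0x48⟩ (.node ⟨nat_lit 5, nat_lit 0x40018, nat_lit 0x21122, nat_lit 3, nat_lit 4, nat_lit 0x48⟩ (.node ⟨nat_lit 0xb, nat_lit 0x4000200010000800040, nat_lit 0x200000, nat_lit 1, nat_lit 4, nat_lit 0x4c⟩ (.node ⟨nat_lit 7, nat_lit 0x2000200040, nat_lit 0x2121110, nat_lit 0, nat_lit 4, nat_lit 0x4b⟩ (t14_754) (t14_8946)) (.node ⟨nat_lit 3, nat_lit 0x40004, nat_lit 0x120, nat_lit 6, nat_lit 4, nat_lit 0x45⟩ (t14_4850) (t14_13042))) (.node ⟨nat_lit 6, nat_lit 0x1000300028, nat_lit 0x101212, nat_lit 2, nat_lit 4, nat_lit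 0x47⟩ (.node ⟨nat_lit 7, nat_lit 0x1000400060, nat_lit 0x201023, nat_lit 0, nat_lit 4, nat_lit 0x49⟩ (t14_2802) (t14_10994)) (.node ⟨nat_lit 8, nat_lit 0x8000200020009000c0, nat_lit 0x10012022, nat_lit 1, nat_lit 4, nat_lit 0x48⟩ (t14_6898) (t14_15090)))) (.node ⟨nat_lit 6, nat_lit 0x800200030, nat_lit 0x110021, nat_lit 1, nat_lit 4, nat_lit 0x47⟩ (.node ⟨nat_lit 7, nat_lit 0x40001000600068, nat_lit 0x1112111, nat_lit 1, nat_lit 4, nat_lit 0x48⟩ (.node ⟨nat_lit 6, nat_lit 0x2000300028, nat_lit 0x1103, nat_lit 5, nat_lit 4, nat_lit 0x47⟩ (t14_1778) (t14_9970)) (.node ⟨nat_lit 6, nat_lit 0x1000280034, nat_lit 0x102202, nat_lit 0, nat_lit 4, nat_lit 0x46⟩ (t14_5874) (t14_14066))) (.node ⟨nat_lit 6, nat_lit 0x80030, nat_lit 0x101210, nat_lit 0, nat_lit 4, nat_lit 0x48⟩ (.node ⟨nat_lit 7, nat_lit 0x1800500060, nat_lit 0x1111030, nat_lit 0, nat_lit 4,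 nat_lit 0x48⟩ (t14_3826) (t14_12018)) (.node ⟨nat_lit 6, nat_lit 0x200020, nat_lit 0x11020, nat_lit 0, nat_lit 4, nat_lit 0x48⟩ (t14_7922) (.nil)))))
def t14_498 : Tr := .node ⟨nat_lit 7, nat_lit 0x400060, nat_lit 0x1111111, nat_lit 0, nat_lit 4, nat_lit 0x4a⟩ (.nil) (.nil)
def t14_8690 : Tr := .node ⟨nat_lit 6, nat_lit 0x2800180030, nat_lit 1, nat_lit 0, nat_lit 4, nat_lit 0x43⟩ (.nil) (.nil)
def t14_4594 : Tr := .node ⟨nat_lit 5, nat_lit 0x140018, nat_lit 0x10231, nat_lit 2, nat_lit 4, nat_lit 0x47⟩ (.nil) (.nil)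
def t14_12786 : Tr := .node ⟨nat_lit 5, nat_lit 0x18001c, nat_lit 0x10102, nat_lit 3, nat_lit 4, nat_lit 0x45⟩ (.nil) (.nil)
def t14_2546 : Tr := .node ⟨nat_lit 8, nat_lit 0x80008000400040009000e0, nat_lit 0x10012100, nat_lit 3, nat_lit 4, nat_lit 0x48⟩ (.nil) (.nil)
def t14_10738 : Tr := .node ⟨nat_lit 7, nat_lit 0x1000500060, nat_lit 0x100102, nat_lit 0, nat_lit 4, nat_lit 0x47⟩ (.nil) (.nil)
def t14_6642 : Tr := .node ⟨nat_lit 8, nat_lit 0x8000800040004000a00090, nat_lit 0x10103010, nat_lit 0, nat_lit 4, nat_lit 0x48⟩ (.nil) (.nil)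
def t14_14834 : Tr := .node ⟨nat_lit 8, nat_lit 0x800040004000a000c8, nat_lit 0x11201, nat_lit 0, nat_lit 4, nat_lit 0x47⟩ (.nil) (.nil)
def t14_1522 : Tr := .node ⟨nat_lit 7, nat_lit 0x400020002000500068, nat_lit 0x12211, nat_lit 0, nat_lit 4, nat_lit 0x46⟩ (.nil) (.nil)
def t14_9714 : Tr := .node ⟨nat_lit 8, nat_lit 0x8000200040009000c0, nat_lit 0x1110102, nat_lit 0, nat_lit 4, nat_lit 0x48⟩ (.nil) (.nil)
def t14_5618 : Tr := .node ⟨nat_lit 7, nat_lit 0x40006000680068, nat_lit 0x1010220, nat_lit 5, nat_lit 4, nat_lit 0x47⟩ (.nil) (.nil)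
def t14_13810 : Tr := .node ⟨nat_lit 7, nat_lit 0x10006000600050, nat_lit 0x2200, nat_lit 4, nat_lit 4, nat_lit 0x46⟩ (.nil) (.nil)
def t14_3570 : Tr := .node ⟨nat_lit 7, nat_lit 0x40003000600050, nat_lit 0x3101, nat_lit 1, nat_lit 4, nat_lit 0x46⟩ (.nil) (.nil)
def t14_11762 : Tr := .node ⟨nat_lit 5, nat_lit 0x40018, nat_lit 0x43, nat_lit 1, nat_lit 4, nat_lit 0x46⟩ (.nil) (.nil)
def t14_7666 : Tr := .node ⟨nat_lit 7, nat_lit 0x10004000440060, nat_lit 0x100002, nat_lit 1, nat_lit 4, nat_lit 0x46⟩ (.nil) (.nil)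
def t14_1010 : Tr := .node ⟨nat_lit 6, nat_lit 0x2800280030, nat_lit 0x10211, nat_lit 7, nat_lit 4, nat_lit 0x46⟩ (.nil) (.nil)
def t14_9202 : Tr := .node ⟨nat_lit 7, nat_lit 0x4000200020, nat_lit 0x1011030, nat_lit 0, nat_lit 3, nat_lit 0x48⟩ (.nil) (.nil)
def t14_5106 : Tr := .node ⟨nat_lit 8, nat_lit 0x80004000a000d000d0, nat_lit 0x111130, nat_lit 0, nat_lit 4, nat_lit 0x46⟩ (.nil) (.nil)
def t14_13298 : Tr := .node ⟨nat_lit 7, nat_lit 0x40005000300060, nat_lit 0x1300, nat_lit 3, nat_lit 4, nat_lit 0x46⟩ (.nil) (.nil)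
def t14_3058 : Tr := .node ⟨nat_lit 8, nat_lit 0x80008000400040009000e0, nat_lit 0x10102101, nat_lit 0, nat_lit 4, nat_lit 0x47⟩ (.nil) (.nil)
def t14_11250 : Tr := .node ⟨nat_lit 7, nat_lit 0x40001000100060, nat_lit 0x201100, nat_lit 0, nat_lit 4, nat_lit 0x47⟩ (.nil) (.nil)
def t14_7154 : Tr := .node ⟨nat_lit 7, nat_lit 0x4000100060, nat_lit 0x1011111, nat_lit 5, nat_lit 4, nat_lit 0x4a⟩ (.nil) (.nil)
def t14_15346 : Tr := .node ⟨nat_lit 0xa, nat_lit 0x200020002000080008001000240, nat_lit 0x101101011, nat_lit 0, nat_lit 4, nat_lit 0x4a⟩ (.nil) (.nil)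
def t14_2034 : Tr := .node ⟨nat_lit 8, nat_lit 0x800080002000c0, nat_lit 0x113100, nat_lit 1, nat_lit 4, nat_lit 0x4a⟩ (.nil) (.nil)
def t14_10226 : Tr := .node ⟨nat_lit 5, nat_lit 0x1000140018, nat_lit 0x1220, nat_lit 0xa, nat_lit 4, nat_lit 0x47⟩ (.nil) (.nil)
def t14_6130 : Tr := .node ⟨nat_lit 5, nat_lit 0x100008, nat_lit 0x200, nat_lit 6, nat_lit 4, nat_lit 0x47⟩ (.nil) (.nil)
def t14_14322 : Tr := .node ⟨nat_lit 7, nat_lit 0x20002000500068, nat_lit 0x111030, nat_lit 0, nat_lit 4, nat_lit 0x47⟩ (.nil) (.nil)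
def t14_4082 : Tr := .node ⟨nat_lit 8, nat_lit 0x80001000a000c0, nat_lit 0x1110012, nat_lit 1, nat_lit 4, nat_lit 0x49⟩ (.nil) (.nil)
def t14_12274 : Tr := .node ⟨nat_lit 7, nat_lit 0x40002000500068, nat_lit 0x1000, nat_lit 1, nat_lit 4, nat_lit 0x45⟩ (.nil) (.nil)
def t14_8178 : Tr := .node ⟨nat_lit 7, nat_lit 0x400020005000500060, nat_lit 0x10410, nat_lit 3, nat_lit 4, nat_lit 0x47⟩ (.nil) (.nil)
def t9_498 : Tr := .node ⟨nat_lit 4, nat_lit 8, nat_lit 0x1312, nat_lit 7, nat_lit 4, nat_lit 0x49⟩ (.node ⟨nat_lit 7, nat_lit 0x40002000480068, nat_lit 0x3010022, nat_lit 0, nat_lit 4, nat_lit 0x48⟩ (.node ⟨nat_lit 3, nat_lit 0, nat_lit 0x221, nat_lit 0xd, nat_lit 4, nat_lit 0x49⟩ (.node ⟨nat_lit 5, nat_lit 0x1000080014, nat_lit 0x21011, nat_lit 5, nat_lit 4, nat_lit 0x47⟩ (.node ⟨nat_lit 9, nat_lit 0x8001000100010000400110, nat_lit 0x2011111, nat_lit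 0, nat_lit 4, nat_lit 0x4a⟩ (t14_498) (t14_8690)) (.node ⟨nat_lit 5, nat_lit 0x800100010, nat_lit 0x12211, nat_lit 7, nat_lit 4, nat_lit 0x49⟩ (t14_4594) (t14_12786))) (.node ⟨nat_lit 4, nat_lit 0xc000c, nat_lit 0x1021, nat_lit 8, nat_lit 4, nat_lit 0x45⟩ (.node ⟨nat_lit 6, nat_lit 0x2000300030, nat_lit 0x13021, nat_lit 0, nat_lit 3, nat_lit 0x46⟩ (t14_2546) (t14_10738)) (.node ⟨nat_lit 6, nat_lit 0x800280030, nat_lit 0x11122, nat_lit 3, nat_lit 4, nat_lit 0x47⟩ (t14_6642) (t14_14834)))) (.node ⟨nat_lit 6, nat_lit 0x2000080030, nat_lit 0x102211, nat_lit 1, nat_lit 4, nat_lit 0x48⟩ (.node ⟨nat_lit 6, nat_lit 0x80030, nat_lit 0x212211, nat_lit 0, nat_lit 4, nat_lit 0x4a⟩ (.node ⟨nat_lit 6, nat_lit 0x2000280034, nat_lit 0x110312, nat_lit 3, nat_lit 4, nat_lit 0x48⟩ (t14_1522) (t14_9714)) (.node ⟨nat_lit 7, nat_lit 0x200040003000480068, nat_lit 0x2122000,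 nat_lit 0, nat_lit 4, nat_lit 0x48⟩ (t14_5618) (t14_13810))) (.node ⟨nat_lit 7, nat_lit 0x4000400040, nat_lit 0x211100, nat_lit 2, nat_lit 4, nat_lit 0x4a⟩ (.node ⟨nat_lit 7, nat_lit 0x40004800300068, nat_lit 0x1001100, nat_lit 1, nat_lit 4, nat_lit 0x46⟩ (t14_3570) (t14_11762)) (.node ⟨nat_lit 7, nat_lit 0x4000400050005000500060, nat_lit 0x1112001, nat_lit 3, nat_lit 4, nat_lit 0x48⟩ (t14_7666) (.nil))))) (.node ⟨nat_lit 8, nat_lit 0x400080008000800088, nat_lit 0x301201, nat_lit 1, nat_lit 4, nat_lit 0x4a⟩ (.node ⟨nat_lit 4, nat_lit 0xc, nat_lit 0x2120, nat_lit 7, nat_lit 4, nat_lit 0x48⟩ (.node ⟨nat_lit 2, nat_lit 2, nat_lit 0x21, nat_lit 0x15, nat_lit 4, nat_lit 0x48⟩ (.node ⟨nat_lit 6, nat_lit 0x800200030, nat_lit 0x120031, nat_lit 3, nat_lit 4, nat_lit 0x49⟩ (t14_1010) (t14_9202)) (.node ⟨nat_lit 7, nat_lit 0x200040, nat_lit 0x1211130, nat_lit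 0, nat_lit 4, nat_lit 0x4c⟩ (t14_5106) (t14_13298))) (.node ⟨nat_lit 7, nat_lit 0x1000500060, nat_lit 0x111201, nat_lit 0, nat_lit 4, nat_lit 0x48⟩ (.node ⟨nat_lit 7, nat_lit 0x4000640064, nat_lit 0x2011221, nat_lit 0, nat_lit 4, nat_lit 0x49⟩ (t14_3058) (t14_11250)) (.node ⟨nat_lit 9, nat_lit 0x1000080002000400180, nat_lit 0x11002012, nat_lit 1, nat_lit 4, nat_lit 0x4a⟩ (t14_7154) (t14_15346)))) (.node ⟨nat_lit 5, nat_lit 0x180018, nat_lit 0x10211, nat_lit 7, nat_lit 4, nat_lit 0x47⟩ (.node ⟨nat_lit 6, nat_lit 0x280030, nat_lit 0x211111, nat_lit 3, nat_lit 4, nat_lit 0x49⟩ (.node ⟨nat_lit 5, nat_lit 0x800080010, nat_lit 0x11321, nat_lit 6, nat_lit 4, nat_lit 0x49⟩ (t14_2034) (t14_10226)) (.node ⟨nat_lit 7, nat_lit 0x800500060, nat_lit 0x1201002, nat_lit 1, nat_lit 4, nat_lit 0x49⟩ (t14_6130) (t14_14322))) (.node ⟨nat_lit 4, nat_lit 0xe, nat_lit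 0x2223, nat_lit 5, nat_lit 4, nat_lit 0x48⟩ (.node ⟨nat_lit 5, nat_lit 0x800100012, nat_lit 0x10011, nat_lit 2, nat_lit 4, nat_lit 0x45⟩ (t14_4082) (t14_12274)) (.node ⟨nat_lit 8, nat_lit 0x800080004000a0009000e0, nat_lit 0x1101102, nat_lit 2, nat_lit 4, nat_lit 0x47⟩ (t14_8178) (.nil)))))
def t4_2 : Tr := .node ⟨nat_lit 4, nat_lit 0, nat_lit 0x2211, nat_lit 0, nat_lit 3, nat_lit 0x47⟩ (.node ⟨nat_lit 4, nat_lit 0xc, nat_lit 0x2111, nat_lit 1, nat_lit 3, nat_lit 0x45⟩ (.node ⟨nat_lit 3, nat_lit 0, nat_lit 0x111, nat_lit 9, nat_lit 3, nat_lit 0x46⟩ (.node ⟨nat_lit 3, nat_lit 0, nat_lit 0x431, nat_lit 1, nat_lit 3, nat_lit 0x48⟩ (.node ⟨nat_lit 6, nat_lit 0x1000100020, nat_lit 0x204201, nat_lit 0, nat_lit 4, nat_lit 0x4a⟩ (t9_2) (t9_258)) (.node ⟨nat_lit 4, nat_lit 0xc, nat_lit 0x3222, nat_lit 1, nat_lit 3, nat_lit 0x47⟩ (t9_130) (t9_386))) (.node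 ⟨nat_lit 2, nat_lit 0, nat_lit 0x41, nat_lit 0xd, nat_lit 4, nat_lit 0x48⟩ (.node ⟨nat_lit 3, nat_lit 4, nat_lit 0x322, nat_lit 0xb, nat_lit 4, nat_lit 0x49⟩ (t9_66) (t9_322)) (.node ⟨nat_lit 5, nat_lit 0x18, nat_lit 0x31211, nat_lit 1, nat_lit 3, nat_lit 0x48⟩ (t9_194) (t9_450)))) (.node ⟨nat_lit 4, nat_lit 0xc, nat_lit 0x2110, nat_lit 0, nat_lit 3, nat_lit 0x45⟩ (.node ⟨nat_lit 4, nat_lit 0, nat_lit 0x4221, nat_lit 0, nat_lit 4, nat_lit 0x4a⟩ (.node ⟨nat_lit 2, nat_lit 2, nat_lit 0x32, nat_lit 7, nat_lit 3, nat_lit 0x45⟩ (t9_34) (t9_290)) (.node ⟨nat_lit 5, nat_lit 0x40018, nat_lit 0x11322, nat_lit 0, nat_lit 4, nat_lit 0x48⟩ (t9_162) (t9_418))) (.node ⟨nat_lit 6, nat_lit 0x200020, nat_lit 0x41110, nat_lit 1, nat_lit 4, nat_lit 0x4a⟩ (.node ⟨nat_lit 5, nat_lit 0x10, nat_lit 0x21112, nat_lit 1, nat_lit 3, nat_lit 0x48⟩ (t9_98) (t9_354)) (.node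 ⟨nat_lit 6, nat_lit 0x30, nat_lit 0x313111, nat_lit 0, nat_lit 4, nat_lit 0x4b⟩ (t9_226) (t9_482))))) (.node ⟨nat_lit 2, nat_lit 0, nat_lit 0x21, nat_lit 2, nat_lit 3, nat_lit 0x43⟩ (.node ⟨nat_lit 2, nat_lit 2, nat_lit 0x11, nat_lit 8, nat_lit 3, nat_lit 0x43⟩ (.node ⟨nat_lit 2, nat_lit 0, nat_lit 0x41, nat_lit 7, nat_lit 3, nat_lit 0x46⟩ (.node ⟨nat_lit 6, nat_lit 0, nat_lit 0x411111, nat_lit 2, nat_lit 4, nat_lit 0x4d⟩ (t9_18) (t9_274)) (.node ⟨nat_lit 3, nat_lit 4, nat_lit 0x322, nat_lit 7, nat_lit 3, nat_lit 0x47⟩ (t9_146) (t9_402))) (.node ⟨nat_lit 5, nat_lit 0x100008, nat_lit 0x1401, nat_lit 1, nat_lit 4, nat_lit 0x48⟩ (.node ⟨nat_lit 4, nat_lit 0xc, nat_lit 0x2212, nat_lit 0, nat_lit 3, nat_lit 0x46⟩ (t9_82) (t9_338)) (.node ⟨nat_lit 6, nat_lit 0x20002000200010, nat_lit 0x32101, nat_lit 0, nat_lit 3, nat_lit 0x47⟩ (t9_210) (t9_466)))) (.node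 ⟨nat_lit 4, nat_lit 0, nat_lit 0x4111, nat_lit 0, nat_lit 3, nat_lit 0x48⟩ (.node ⟨nat_lit 3, nat_lit 4, nat_lit 0x242, nat_lit 7, nat_lit 4, nat_lit 0x49⟩ (.node ⟨nat_lit 4, nat_lit 0x40008, nat_lit 0x2212, nat_lit 1, nat_lit 3, nat_lit 0x46⟩ (t9_50) (t9_306)) (.node ⟨nat_lit 3, nat_lit 0, nat_lit 0x321, nat_lit 7, nat_lit 4, nat_lit 0x48⟩ (t9_178) (t9_434))) (.node ⟨nat_lit 6, nat_lit 0x100020, nat_lit 0x114111, nat_lit 2, nat_lit 4, nat_lit 0x4b⟩ (.node ⟨nat_lit 4, nat_lit 0xc, nat_lit 0x3213, nat_lit 3, nat_lit 4, nat_lit 0x49⟩ (t9_114) (t9_370)) (.node ⟨nat_lit 4, nat_lit 0x8000c, nat_lit 0x1322, nat_lit 5, nat_lit 4, nat_lit 0x48⟩ (t9_242) (t9_498)))))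

end Pool.Agent.Sel.T31
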