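import Pool.Agent.H8.Sel.Prof
import Pool.Agent.H8.Sel.T31.P2

set_option linter.all false
set_option maxRecDepth 100000

namespace Pool.Agent.Sel.T31

open Pool.Agent.Sel

def t14_1 : Tr := .node ⟨nat_lit 9, nat_lit 0x8000800040004001000100, nat_lit 0x1102110, nat_lit 2, nat_lit 4, nat_lit 0x4a⟩ (.nil) (.nil)
def t14_8193 : Tr := .node ⟨nat_lit 9, nat_lit 0x400100010801080180, nat_lit 0x201310, nat_lit 0, nat_lit 4, nat_lit 0x49⟩ (.nil) (.nil)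
def t14_4097 : Tr := .node ⟨nat_lit 9, nat_lit 0x1000100008001100110, nat_lit 0x11110021, nat_lit 0, nat_lit 4, nat_lit 0x4a⟩ (.nil) (.nil)
def t14_12289 : Tr := .node ⟨nat_lit 7, nat_lit 0x10006000500070, nat_lit 0x102103, nat_lit 1, nat_lit 4, nat_lit 0x46⟩ (.nil) (.nil)
def t14_2049 : Tr := .node ⟨nat_lit 7, nat_lit 0x40001000500060, nat_lit 0x13210, nat_lit 1, nat_lit 4, nat_lit 0x48⟩ (.nil) (.nil)
def t14_10241 : Tr := .node ⟨nat_lit 8, nat_lit 0x4000800080009000d000c8, nat_lit 0x10200020, nat_lit 4, nat_lit 4, nat_lit 0x47⟩ (.nil) (.nil)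
def t14_6145 : Tr := .node ⟨nat_lit 4, nat_lit 0x8000c, nat_lit 0x20, nat_lit 8, nat_lit 4, nat_lit 0x45⟩ (.nil) (.nil)
def t14_14337 : Tr := .node ⟨nat_lit 7, nat_lit 0x20002000500068, nat_lit 0x100110, nat_lit 0, nat_lit 4, nat_lit 0x46⟩ (.nil) (.nil)
def t14_1025 : Tr := .node ⟨nat_lit 4, nat_lit 0x40008, nat_lit 0x1020, nat_lit 7, nat_lit 4, nat_lit 0x46⟩ (.nil) (.nil)
def t14_9217 : Tr := .node ⟨nat_lit 7, nat_lit 0x10002000500060, nat_lit 0x2012, nat_lit 0, nat_lit 4, nat_lit 0x46⟩ (.nil) (.nil)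
def t14_5121 : Tr := .node ⟨nat_lit 6, nat_lit 0x2000300030, nat_lit 0x11310, nat_lit 3, nat_lit 3, nat_lit 0x46⟩ (.nil) (.nil)
def t14_13313 : Tr := .node ⟨nat_lit 6, nat_lit 0x2000300028, nat_lit 0x103, nat_lit 1, nat_lit 3, nat_lit 0x44⟩ (.nil) (.nil)
def t14_3073 : Tr := .node ⟨nat_lit 7, nat_lit 0x10002000500060, nat_lit 0x1102110, nat_lit 0, nat_lit 4, nat_lit 0x47⟩ (.nil) (.nil)
def t14_11265 : Tr := .node ⟨nat_lit 7, nat_lit 0x10004000600060, nat_lit 0x100120, nat_lit 5, nat_lit 4, nat_lit 0x48⟩ (.nil) (.nil)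
def t14_7169 : Tr := .node ⟨nat_lit 7, nat_lit 0x40002000500064, nat_lit 0x1211111, nat_lit 0, nat_lit 4, nat_lit 0x48⟩ (.nil) (.nil)
def t14_15361 : Tr := .node ⟨nat_lit 8, nat_lit 0x4000400080008800e000e0, nat_lit 0x21110, nat_lit 0, nat_lit 4, nat_lit 0x45⟩ (.nil) (.nil)
def t14_513 : Tr := .node ⟨nat_lit 7, nat_lit 0x2000200040, nat_lit 0x2121101, nat_lit 0, nat_lit 4, nat_lit 0x4b⟩ (.nil) (.nil)
def t14_8705 : Tr := .node ⟨nat_lit 7, nat_lit 0x40001000480060, nat_lit 0x111110, nat_lit 1, nat_lit 4, nat_lit 0x47⟩ (.nil) (.nil)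
def t14_4609 : Tr := .node ⟨nat_lit 6, nat_lit 0x800200030, nat_lit 0x111002, nat_lit 4, nat_lit 4, nat_lit 0x48⟩ (.nil) (.nil)
def t14_12801 : Tr := .node ⟨nat_lit 6, nat_lit 0x280030, nat_lit 0x11120, nat_lit 4, nat_lit 4, nat_lit 0x48⟩ (.nil) (.nil)
def t14_2561 : Tr := .node ⟨nat_lit 7, nat_lit 0x400020002000500050, nat_lit 0x1012110, nat_lit 1, nat_lit 4, nat_lit 0x47⟩ (.nil) (.nil)
def t14_10753 : Tr := .node ⟨nat_lit 7, nat_lit 0x40004000600068, nat_lit 0x11120, nat_lit 2, nat_lit 4, nat_lit 0x47⟩ (.nil) (.nil)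
def t14_6657 : Tr := .node ⟨nat_lit 8, nat_lit 0x800080004000400020, nat_lit 0x110201, nat_lit 2, nat_lit 4, nat_lit 0x49⟩ (.nil) (.nil)
def t14_14849 : Tr := .node ⟨nat_lit 9, nat_lit 0x1000100010000800110, nat_lit 0x1111101, nat_lit 3, nat_lit 4, nat_lit 0x4b⟩ (.nil) (.nil)
def t14_1537 : Tr := .node ⟨nat_lit 7, nat_lit 0x4000400060, nat_lit 0x211210, nat_lit 0, nat_lit 3, nat_lit 0x48⟩ (.nil) (.nil)
def t14_9729 : Tr := .node ⟨nat_lit 7, nat_lit 0x20004000500068, nat_lit 0x12100, nat_lit 0, nat_lit 4, nat_lit 0x46⟩ (.nil) (.nil)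
def t14_5633 : Tr := .node ⟨nat_lit 7, nat_lit 0x10004000600064, nat_lit 0x102, nat_lit 1, nat_lit 4, nat_lit 0x45⟩ (.nil) (.nil)
def t14_13825 : Tr := .node ⟨nat_lit 6, nat_lit 0x10002000200024, nat_lit 0x200, nat_lit 2, nat_lit 4, nat_lit 0x46⟩ (.nil) (.nil)
def t14_3585 : Tr := .node ⟨nat_lit 8, nat_lit 0x20003000a000c0, nat_lit 0x2011, nat_lit 0, nat_lit 4, nat_lit 0x47⟩ (.nil) (.nil)
def t14_11777 : Tr := .node ⟨nat_lit 6, nat_lit 0x800200030, nat_lit 3, nat_lit 7, nat_lit 4, nat_lit 0x47⟩ (.nil) (.nil)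
def t14_7681 : Tr := .node ⟨nat_lit 5, nat_lit 0x1000080008, nat_lit 0, nat_lit 5, nat_lit 4, nat_lit 0x45⟩ (.nil) (.nil)
def t9_1 : Tr := .node ⟨nat_lit 4, nat_lit 0xc, nat_lit 0x3211, nat_lit 0, nat_lit 3, nat_lit 0x47⟩ (.node ⟨nat_lit 5, nat_lit 0x18, nat_lit 0x11311, nat_lit 0, nat_lit 4, nat_lit 0x48⟩ (.node ⟨nat_lit 6, nat_lit 0x20002800380038, nat_lit 0x300120, nat_lit 2, nat_lit 4, nat_lit 0x46⟩ (.node ⟨nat_lit 6, nat_lit 0x800200030, nat_lit 0x21210, nat_lit 0, nat_lit 4, nat_lit 0x47⟩ (.node ⟨nat_lit 6, nat_lit 0x800080030, nat_lit 0x221103, nat_lit 1, nat_lit 4, nat_lit 0x49⟩ (t14_1) (t14_8193)) (.node ⟨nat_lit 5, nat_lit 0x180014, nat_lit 0x11000, nat_lit 5, nat_lit 4, nat_lit 0x46⟩ (t14_4097) (t14_12289))) (.node ⟨nat_lit 8, nat_lit 0x8000c0, nat_lit 0x2111101, nat_lit 1, nat_lit 4, nat_lit 0x4c⟩ (.node ⟨nat_lit 7, nat_lit 0x400020002000500050,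 nat_lit 0x2113100, nat_lit 1, nat_lit 4, nat_lit 0x49⟩ (t14_2049) (t14_10241)) (.node ⟨nat_lit 7, nat_lit 0x40002000500064, nat_lit 0x212200, nat_lit 0, nat_lit 4, nat_lit 0x48⟩ (t14_6145) (t14_14337)))) (.node ⟨nat_lit 6, nat_lit 0x30, nat_lit 0x112211, nat_lit 0, nat_lit 4, nat_lit 0x4a⟩ (.node ⟨nat_lit 6, nat_lit 0x1000200030, nat_lit 0x122121, nat_lit 0, nat_lit 4, nat_lit 0x49⟩ (.node ⟨nat_lit 6, nat_lit 0x800300030, nat_lit 0x110041, nat_lit 3, nat_lit 4, nat_lit 0x48⟩ (t14_1025) (t14_9217)) (.node ⟨nat_lit 5, nat_lit 0, nat_lit 0x22221, nat_lit 5, nat_lit 4, nat_lit 0x4c⟩ (t14_5121) (t14_13313))) (.node ⟨nat_lit 6, nat_lit 0x20002000100010, nat_lit 0x11020, nat_lit 2, nat_lit 4, nat_lit 0x47⟩ (.node ⟨nat_lit 6, nat_lit 0x20001000280028, nat_lit 0x212111, nat_lit 3, nat_lit 4, nat_lit 0x49⟩ (t14_3073) (t14_11265)) (.node ⟨nat_lit 7, nat_lit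 0x10002000500060, nat_lit 0x1002022, nat_lit 1, nat_lit 4, nat_lit 0x47⟩ (t14_7169) (t14_15361))))) (.node ⟨nat_lit 4, nat_lit 0x80004, nat_lit 0x130, nat_lit 1, nat_lit 3, nat_lit 0x44⟩ (.node ⟨nat_lit 4, nat_lit 0, nat_lit 0x2221, nat_lit 3, nat_lit 4, nat_lit 0x49⟩ (.node ⟨nat_lit 5, nat_lit 0x100018, nat_lit 0x1211, nat_lit 5, nat_lit 4, nat_lit 0x47⟩ (.node ⟨nat_lit 8, nat_lit 0x800080004000200090, nat_lit 0x10211011, nat_lit 2, nat_lit 4, nat_lit 0x4a⟩ (t14_513) (t14_8705)) (.node ⟨nat_lit 5, nat_lit 0x1000100018, nat_lit 0x11202, nat_lit 7, nat_lit 4, nat_lit 0x48⟩ (t14_4609) (t14_12801))) (.node ⟨nat_lit 5, nat_lit 0x1000100008, nat_lit 0x1220, nat_lit 1, nat_lit 3, nat_lit 0x45⟩ (.node ⟨nat_lit 7, nat_lit 0x40001000600060, nat_lit 0x120131, nat_lit 0, nat_lit 4, nat_lit 0x48⟩ (t14_2561) (t14_10753)) (.node ⟨nat_lit 6, nat_lit 0x300030,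 nat_lit 0x102122, nat_lit 1, nat_lit 4, nat_lit 0x48⟩ (t14_6657) (t14_14849)))) (.node ⟨nat_lit 5, nat_lit 0x40018, nat_lit 0x22201, nat_lit 0, nat_lit 3, nat_lit 0x47⟩ (.node ⟨nat_lit 6, nat_lit 0x20, nat_lit 0x221111, nat_lit 4, nat_lit 4, nat_lit 0x4c⟩ (.node ⟨nat_lit 4, nat_lit 0x8000e, nat_lit 0x1131, nat_lit 7, nat_lit 4, nat_lit 0x47⟩ (t14_1537) (t14_9729)) (.node ⟨nat_lit 7, nat_lit 0x200040004000440068, nat_lit 0x1121200, nat_lit 1, nat_lit 4, nat_lit 0x48⟩ (t14_5633) (t14_13825))) (.node ⟨nat_lit 3, nat_lit 4, nat_lit 0x12, nat_lit 0xa, nat_lit 3, nat_lit 0x45⟩ (.node ⟨nat_lit 6, nat_lit 0x300038, nat_lit 0x112103, nat_lit 0, nat_lit 4, nat_lit 0x48⟩ (t14_3585) (t14_11777)) (.node ⟨nat_lit 8, nat_lit 0x4000800060009000e000d0, nat_lit 0x11121011, nat_lit 0, nat_lit 4, nat_lit 0x47⟩ (t14_7681) (.nil)))))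
def t14_257 : Tr := .node ⟨nat_lit 7, nat_lit 0x2000400060, nat_lit 0x1022221, nat_lit 0, nat_lit 4, nat_lit 0x4a⟩ (.nil) (.nil)
def t14_8449 : Tr := .node ⟨nat_lit 7, nat_lit 0x10005000300060, nat_lit 0x1012, nat_lit 0, nat_lit 4, nat_lit 0x45⟩ (.nil) (.nil)
def t14_4353 : Tr := .node ⟨nat_lit 6, nat_lit 0x800280030, nat_lit 0x111120, nat_lit 1, nat_lit 4, nat_lit 0x47⟩ (.nil) (.nil)
def t14_12545 : Tr := .node ⟨nat_lit 7, nat_lit 0x40002000480030, nat_lit 0x1001300, nat_lit 0, nat_lit 4, nat_lit 0x47⟩ (.nil) (.nil)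
def t14_2305 : Tr := .node ⟨nat_lit 7, nat_lit 0x20004000440060, nat_lit 0x1013101, nat_lit 0, nat_lit 4, nat_lit 0x48⟩ (.nil) (.nil)
def t14_10497 : Tr := .node ⟨nat_lit 9, nat_lit 0x1000110018001200140, nat_lit 0x110220, nat_lit 0, nat_lit 4, nat_lit 0x48⟩ (.nil) (.nil)
def t14_6401 : Tr := .node ⟨nat_lit 7, nat_lit 0x40002000500068, nat_lit 0x101102, nat_lit 1, nat_lit 4, nat_lit 0x46⟩ (.nil) (.nil)
def t14_14593 : Tr := .node ⟨nat_lit 9, nat_lit 0x1000100008001080110, nat_lit 0x1111011, nat_lit 3, nat_lit 4, nat_lit 0x4a⟩ (.nil) (.nil)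
def t14_1281 : Tr := .node ⟨nat_lit 7, nat_lit 0x40004000200010, nat_lit 0x11031, nat_lit 0, nat_lit 4, nat_lit 0x48⟩ (.nil) (.nil)
def t14_9473 : Tr := .node ⟨nat_lit 8, nat_lit 0x4000400080008400c0, nat_lit 0x10121102, nat_lit 0, nat_lit 4, nat_lit 0x49⟩ (.nil) (.nil)
def t14_5377 : Tr := .node ⟨nat_lit 6, nat_lit 0x200030, nat_lit 0x111120, nat_lit 6, nat_lit 4, nat_lit 0x4a⟩ (.nil) (.nil)
def t14_13569 : Tr := .node ⟨nat_lit 6, nat_lit 0x2000200030, nat_lit 0x1000, nat_lit 1, nat_lit 3, nat_lit 0x45⟩ (.nil) (.nil)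
def t14_3329 : Tr := .node ⟨nat_lit 8, nat_lit 0x2000800080004000c0, nat_lit 0x2021, nat_lit 1, nat_lit 4, nat_lit 0x48⟩ (.nil) (.nil)
def t14_11521 : Tr := .node ⟨nat_lit 8, nat_lit 0x40004000800080008800e0, nat_lit 0x1020100, nat_lit 1, nat_lit 4, nat_lit 0x47⟩ (.nil) (.nil)
def t14_7425 : Tr := .node ⟨nat_lit 8, nat_lit 0x800020002000c000c0, nat_lit 0x121110, nat_lit 1, nat_lit 4, nat_lit 0x48⟩ (.nil) (.nil)
def t14_769 : Tr := .node ⟨nat_lit 5, nat_lit 0x140018, nat_lit 0x203, nat_lit 2, nat_lit 4, nat_lit 0x45⟩ (.nil) (.nil)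
def t14_8961 : Tr := .node ⟨nat_lit 7, nat_lit 0x40004000200060, nat_lit 0x21103, nat_lit 0, nat_lit 4, nat_lit 0x48⟩ (.nil) (.nil)
def t14_4865 : Tr := .node ⟨nat_lit 7, nat_lit 0x400020002000500068, nat_lit 0x112100, nat_lit 2, nat_lit 4, nat_lit 0x47⟩ (.nil) (.nil)
def t14_13057 : Tr := .node ⟨nat_lit 6, nat_lit 0x20001000280034, nat_lit 0x13300, nat_lit 2, nat_lit 4, nat_lit 0x47⟩ (.nil) (.nil)
def t14_2817 : Tr := .node ⟨nat_lit 6, nat_lit 0x80030, nat_lit 0x1200, nat_lit 0, nat_lit 4, nat_lit 0x47⟩ (.nil) (.nil)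
def t14_11009 : Tr := .node ⟨nat_lit 5, nat_lit 0x1000180018, nat_lit 0x120, nat_lit 0xd, nat_lit 4, nat_lit 0x47⟩ (.nil) (.nil)
def t14_6913 : Tr := .node ⟨nat_lit 4, nat_lit 0, nat_lit 0x1111, nat_lit 0xb, nat_lit 3, nat_lit 0x48⟩ (.nil) (.nil)
def t14_15105 : Tr := .node ⟨nat_lit 7, nat_lit 0x400020005000700068, nat_lit 0x1011101, nat_lit 3, nat_lit 4, nat_lit 0x46⟩ (.nil) (.nil)
def t14_1793 : Tr := .node ⟨nat_lit 7, nat_lit 0x1000400060, nat_lit 0x201022, nat_lit 0, nat_lit 4, nat_lit 0x49⟩ (.nil) (.nil)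
def t14_9985 : Tr := .node ⟨nat_lit 7, nat_lit 0x10004000600060, nat_lit 0x100320, nat_lit 2, nat_lit 4, nat_lit 0x48⟩ (.nil) (.nil)
def t14_5889 : Tr := .node ⟨nat_lit 6, nat_lit 0x200020, nat_lit 0x11121, nat_lit 6, nat_lit 4, nat_lit 0x4a⟩ (.nil) (.nil)
def t14_14081 : Tr := .node ⟨nat_lit 6, nat_lit 0x10002000200030, nat_lit 0x1003, nat_lit 7, nat_lit 4, nat_lit 0x47⟩ (.nil) (.nil)
def t14_3841 : Tr := .node ⟨nat_lit 6, nat_lit 0x20002000300038, nat_lit 0x12012, nat_lit 6, nat_lit 4, nat_lit 0x47⟩ (.nil) (.nil)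
def t14_12033 : Tr := .node ⟨nat_lit 8, nat_lit 0x10002000c000a0, nat_lit 0x10000211, nat_lit 1, nat_lit 4, nat_lit 0x48⟩ (.nil) (.nil)
def t14_7937 : Tr := .node ⟨nat_lit 7, nat_lit 0x400020002000200050, nat_lit 0x22002, nat_lit 0, nat_lit 4, nat_lit 0x47⟩ (.nil) (.nil)
def t9_257 : Tr := .node ⟨nat_lit 5, nat_lit 0x100008, nat_lit 0x3201, nat_lit 1, nat_lit 4, nat_lit 0x48⟩ (.node ⟨nat_lit 3, nat_lit 4, nat_lit 0x122, nat_lit 5, nat_lit 3, nat_lit 0x45⟩ (.node ⟨nat_lit 9, nat_lit 0x80004000200100, nat_lit 0x100130011, nat_lit 0, nat_lit 4, nat_lit 0x4c⟩ (.node ⟨nat_lit 6, nat_lit 0x200010, nat_lit 0x112103, nat_lit 0, nat_lit 4, nat_lit 0x4a⟩ (.node ⟨nat_lit 4, nat_lit 0x80008, nat_lit 0x2122, nat_lit 7, nat_lit 4, nat_lit 0x49⟩ (t14_257) (t14_8449)) (.node ⟨nat_lit 7, nat_lit 0x20004000100070, nat_lit 0x11003, nat_lit 0, nat_lit 4, nat_lit 0x46⟩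 (t14_4353) (t14_12545))) (.node ⟨nat_lit 6, nat_lit 0x300030, nat_lit 0x202221, nat_lit 0, nat_lit 4, nat_lit 0x49⟩ (.node ⟨nat_lit 6, nat_lit 0x2000100032, nat_lit 0x11220, nat_lit 1, nat_lit 4, nat_lit 0x47⟩ (t14_2305) (t14_10497)) (.node ⟨nat_lit 6, nat_lit 0x800280030, nat_lit 0x121220, nat_lit 0, nat_lit 4, nat_lit 0x48⟩ (t14_6401) (t14_14593)))) (.node ⟨nat_lit 6, nat_lit 0x800080030, nat_lit 0x210111, nat_lit 0, nat_lit 4, nat_lit 0x47⟩ (.node ⟨nat_lit 5, nat_lit 0x80010, nat_lit 0x22111, nat_lit 7, nat_lit 4, nat_lit 0x4a⟩ (.node ⟨nat_lit 6, nat_lit 0x2000080030, nat_lit 0x101031, nat_lit 3, nat_lit 4, nat_lit 0x48⟩ (t14_1281) (t14_9473)) (.node ⟨nat_lit 5, nat_lit 0x100008, nat_lit 0x11122, nat_lit 3, nat_lit 4, nat_lit 0x48⟩ (t14_5377) (t14_13569))) (.node ⟨nat_lit 5, nat_lit 0x1000100008, nat_lit 0x21300, nat_lit 0, nat_lit 3, nat_lit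 0x47⟩ (.node ⟨nat_lit 5, nat_lit 0x40018, nat_lit 0x11201, nat_lit 2, nat_lit 4, nat_lit 0x47⟩ (t14_3329) (t14_11521)) (.node ⟨nat_lit 7, nat_lit 0x40002000200048, nat_lit 0x1010100, nat_lit 0, nat_lit 4, nat_lit 0x47⟩ (t14_7425) (.nil))))) (.node ⟨nat_lit 6, nat_lit 0x10002000240018, nat_lit 0x131201, nat_lit 0, nat_lit 4, nat_lit 0x48⟩ (.node ⟨nat_lit 6, nat_lit 0x2000080030, nat_lit 0x121022, nat_lit 0, nat_lit 4, nat_lit 0x48⟩ (.node ⟨nat_lit 2, nat_lit 0, nat_lit 0x11, nat_lit 0x11, nat_lit 4, nat_lit 0x47⟩ (.node ⟨nat_lit 5, nat_lit 0x180018, nat_lit 0x11310, nat_lit 1, nat_lit 3, nat_lit 0x46⟩ (t14_769) (t14_8961)) (.node ⟨nat_lit 8, nat_lit 0x80004000a000a000d0, nat_lit 0x1020102, nat_lit 1, nat_lit 4, nat_lit 0x47⟩ (t14_4865) (t14_13057))) (.node ⟨nat_lit 6, nat_lit 0x2000100030, nat_lit 0x11022, nat_lit 3, nat_lit 4, nat_lit 0x48⟩ (.node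 ⟨nat_lit 5, nat_lit 0x40018, nat_lit 0x20104, nat_lit 1, nat_lit 4, nat_lit 0x47⟩ (t14_2817) (t14_11009)) (.node ⟨nat_lit 7, nat_lit 0x20003000500068, nat_lit 0x1002222, nat_lit 0, nat_lit 4, nat_lit 0x46⟩ (t14_6913) (t14_15105)))) (.node ⟨nat_lit 4, nat_lit 0xc, nat_lit 0x1111, nat_lit 3, nat_lit 4, nat_lit 0x45⟩ (.node ⟨nat_lit 7, nat_lit 0x2000400060, nat_lit 0x111211, nat_lit 0, nat_lit 4, nat_lit 0x49⟩ (.node ⟨nat_lit 5, nat_lit 0x100018, nat_lit 0x1110, nat_lit 3, nat_lit 4, nat_lit 0x46⟩ (t14_1793) (t14_9985)) (.node ⟨nat_lit 7, nat_lit 0x10004000180060, nat_lit 0x1022201, nat_lit 1, nat_lit 4, nat_lit 0x49⟩ (t14_5889) (t14_14081))) (.node ⟨nat_lit 7, nat_lit 0x40001000480060, nat_lit 0x2001212, nat_lit 1, nat_lit 4, nat_lit 0x48⟩ (.node ⟨nat_lit 8, nat_lit 0xc000a00030, nat_lit 0x10101030, nat_lit 0, nat_lit 4, nat_lit 0x49⟩ (t14_3841)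 (t14_12033)) (.node ⟨nat_lit 6, nat_lit 0x800080030, nat_lit 0x110002, nat_lit 3, nat_lit 4, nat_lit 0x47⟩ (t14_7937) (.nil)))))
def t14_129 : Tr := .node ⟨nat_lit 6, nat_lit 0x2000080030, nat_lit 0x113111, nat_lit 1, nat_lit 4, nat_lit 0x49⟩ (.nil) (.nil)
def t14_8321 : Tr := .node ⟨nat_lit 8, nat_lit 0x10008000a000c4, nat_lit 0x1000203, nat_lit 2, nat_lit 4, nat_lit 0x48⟩ (.nil) (.nil)
def t14_4225 : Tr := .node ⟨nat_lit 7, nat_lit 0x4000600060, nat_lit 0x22110, nat_lit 3, nat_lit 4, nat_lit 0x49⟩ (.nil) (.nil)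
def t14_12417 : Tr := .node ⟨nat_lit 8, nat_lit 0x8000b000b000d000e0, nat_lit 0x11001003, nat_lit 1, nat_lit 4, nat_lit 0x45⟩ (.nil) (.nil)
def t14_2177 : Tr := .node ⟨nat_lit 8, nat_lit 0x4000400080008000880060, nat_lit 0x10211002, nat_lit 0, nat_lit 4, nat_lit 0x48⟩ (.nil) (.nil)
def t14_10369 : Tr := .node ⟨nat_lit 5, nat_lit 0x1000140018, nat_lit 0x1302, nat_lit 6, nat_lit 4, nat_lit 0x47⟩ (.nil) (.nil)
def t14_6273 : Tr := .node ⟨nat_lit 5, nat_lit 0x1000100008, nat_lit 0x1101, nat_lit 0xb, nat_lit 4, nat_lit 0x48⟩ (.nil) (.nil)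
def t14_14465 : Tr := .node ⟨nat_lit 6, nat_lit 0x280030, nat_lit 0x1320, nat_lit 3, nat_lit 4, nat_lit 0x48⟩ (.nil) (.nil)
def t14_1153 : Tr := .node ⟨nat_lit 5, nat_lit 0x40018, nat_lit 0x112, nat_lit 4, nat_lit 4, nat_lit 0x46⟩ (.nil) (.nil)
def t14_9345 : Tr := .node ⟨nat_lit 8, nat_lit 0x80008000800088009000a0, nat_lit 0x1110010, nat_lit 8, nat_lit 4, nat_lit 0x49⟩ (.nil) (.nil)
def t14_5249 : Tr := .node ⟨nat_lit 7, nat_lit 0x40001000600060, nat_lit 0x113110, nat_lit 0, nat_lit 4, nat_lit 0x48⟩ (.nil) (.nil)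
def t14_13441 : Tr := .node ⟨nat_lit 6, nat_lit 0x2000280034, nat_lit 0x10300, nat_lit 4, nat_lit 4, nat_lit 0x47⟩ (.nil) (.nil)
def t14_3201 : Tr := .node ⟨nat_lit 8, nat_lit 0x8000800040004000c0, nat_lit 0x210112, nat_lit 0, nat_lit 4, nat_lit 0x49⟩ (.nil) (.nil)
def t14_11393 : Tr := .node ⟨nat_lit 8, nat_lit 0x40008000c000d000d0, nat_lit 0x101220, nat_lit 0, nat_lit 4, nat_lit 0x46⟩ (.nil) (.nil)
def t14_7297 : Tr := .node ⟨nat_lit 7, nat_lit 0x20002000600050, nat_lit 0x22011, nat_lit 0, nat_lit 3, nat_lit 0x46⟩ (.nil) (.nil)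
def t14_15489 : Tr := .node ⟨nat_lit 8, nat_lit 0x40008000900060006000e0, nat_lit 0x11000101, nat_lit 0, nat_lit 4, nat_lit 0x46⟩ (.nil) (.nil)
def t14_641 : Tr := .node ⟨nat_lit 5, nat_lit 0x1000080018, nat_lit 0x11312, nat_lit 5, nat_lit 4, nat_lit 0x48⟩ (.nil) (.nil)
def t14_8833 : Tr := .node ⟨nat_lit 7, nat_lit 0x40004000200048, nat_lit 0x112113, nat_lit 1, nat_lit 4, nat_lit 0x49⟩ (.nil) (.nil)
def t14_4737 : Tr := .node ⟨nat_lit 7, nat_lit 0x10004000200044, nat_lit 0x1110200, nat_lit 3, nat_lit 4, nat_lit 0x49⟩ (.nil) (.nil)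
def t14_12929 : Tr := .node ⟨nat_lit 8, nat_lit 0x4000800020002000c0, nat_lit 0x2100, nat_lit 3, nat_lit 4, nat_lit 0x48⟩ (.nil) (.nil)
def t14_2689 : Tr := .node ⟨nat_lit 7, nat_lit 0x1000600060, nat_lit 0x10010, nat_lit 1, nat_lit 4, nat_lit 0x47⟩ (.nil) (.nil)
def t14_10881 : Tr := .node ⟨nat_lit 7, nat_lit 0x400020002000500068, nat_lit 0x12000, nat_lit 3, nat_lit 4, nat_lit 0x46⟩ (.nil) (.nil)
def t14_6785 : Tr := .node ⟨nat_lit 8, nat_lit 0x800080002000c0, nat_lit 0x111010, nat_lit 1, nat_lit 4, nat_lit 0x49⟩ (.nil) (.nil)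
def t14_14977 : Tr := .node ⟨nat_lit 9, nat_lit 0x100010001000080014001100160, nat_lit 0x11101101, nat_lit 1, nat_lit 4, nat_lit 0x48⟩ (.nil) (.nil)
def t14_1665 : Tr := .node ⟨nat_lit 6, nat_lit 0x1800280030, nat_lit 0x11022, nat_lit 2, nat_lit 4, nat_lit 0x46⟩ (.nil) (.nil)
def t14_9857 : Tr := .node ⟨nat_lit 8, nat_lit 0x80008000800040009000a0, nat_lit 0x1110101, nat_lit 6, nat_lit 4, nat_lit 0x49⟩ (.nil) (.nil)
def t14_5761 : Tr := .node ⟨nat_lit 8, nat_lit 0x80008000400040, nat_lit 0x1211020, nat_lit 0, nat_lit 3, nat_lit 0x49⟩ (.nil) (.nil)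
def t14_13953 : Tr := .node ⟨nat_lit 7, nat_lit 0x20004000500064, nat_lit 0x10021, nat_lit 2, nat_lit 4, nat_lit 0x46⟩ (.nil) (.nil)
def t14_3713 : Tr := .node ⟨nat_lit 8, nat_lit 0x4000800060009000e000d0, nat_lit 0x11120110, nat_lit 0, nat_lit 4, nat_lit 0x47⟩ (.nil) (.nil)
def t14_11905 : Tr := .node ⟨nat_lit 5, nat_lit 0x800100012, nat_lit 0x1330, nat_lit 3, nat_lit 4, nat_lit 0x47⟩ (.nil) (.nil)
def t14_7809 : Tr := .node ⟨nat_lit 5, nat_lit 0x800100012, nat_lit 0x23, nat_lit 9, nat_lit 4, nat_lit 0x47⟩ (.nil) (.nil)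
def t9_129 : Tr := .node ⟨nat_lit 3, nat_lit 0, nat_lit 0x311, nat_lit 3, nat_lit 4, nat_lit 0x46⟩ (.node ⟨nat_lit 7, nat_lit 0x200040003000480068, nat_lit 0x3111012, nat_lit 0, nat_lit 4, nat_lit 0x48⟩ (.node ⟨nat_lit 7, nat_lit 0x40004000200020, nat_lit 0x30022, nat_lit 0, nat_lit 4, nat_lit 0x49⟩ (.node ⟨nat_lit 5, nat_lit 0, nat_lit 0x31100, nat_lit 0, nat_lit 4, nat_lit 0x49⟩ (.node ⟨nat_lit 8, nat_lit 0x80008000800040009000a0, nat_lit 0x2110210, nat_lit 2, nat_lit 4, nat_lit 0x49⟩ (t14_129) (t14_8321)) (.node ⟨nat_lit 6, nat_lit 0x200030, nat_lit 0x101002, nat_lit 0, nat_lit 4, nat_lit 0x47⟩ (t14_4225) (t14_12417))) (.node ⟨nat_lit 7, nat_lit 0x1000080060, nat_lit 0x2111012, nat_lit 2, nat_lit 4, nat_lit 0x4a⟩ (.node ⟨nat_lit 5, nat_lit 0x80010, nat_lit 0x12, nat_lit 1, nat_lit 4, nat_lit 0x45⟩ (t14_2177) (t14_10369)) (.node ⟨nat_lit 8, nat_lit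 0x80008000400088, nat_lit 0x11211110, nat_lit 1, nat_lit 4, nat_lit 0x4b⟩ (t14_6273) (t14_14465)))) (.node ⟨nat_lit 5, nat_lit 0x10, nat_lit 0x12211, nat_lit 4, nat_lit 4, nat_lit 0x4a⟩ (.node ⟨nat_lit 6, nat_lit 0x800080030, nat_lit 0x220101, nat_lit 1, nat_lit 4, nat_lit 0x48⟩ (.node ⟨nat_lit 3, nat_lit 0, nat_lit 0x521, nat_lit 0, nat_lit 3, nat_lit 0x48⟩ (t14_1153) (t14_9345)) (.node ⟨nat_lit 5, nat_lit 0x100018, nat_lit 0x11221, nat_lit 7, nat_lit 4, nat_lit 0x49⟩ (t14_5249) (t14_13441))) (.node ⟨nat_lit 7, nat_lit 0x1000600060, nat_lit 0x12010, nat_lit 0, nat_lit 4, nat_lit 0x47⟩ (.node ⟨nat_lit 7, nat_lit 0x6000500070, nat_lit 0x12103, nat_lit 1, nat_lit 4, nat_lit 0x47⟩ (t14_3201) (t14_11393)) (.node ⟨nat_lit 5, nat_lit 0x800100018, nat_lit 0x10210, nat_lit 4, nat_lit 4, nat_lit 0x46⟩ (t14_7297) (t14_15489))))) (.node ⟨nat_lit 7, nat_lit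 0x20001000500068, nat_lit 0x302012, nat_lit 0, nat_lit 4, nat_lit 0x48⟩ (.node ⟨nat_lit 5, nat_lit 0x1000100008, nat_lit 0x2203, nat_lit 4, nat_lit 4, nat_lit 0x48⟩ (.node ⟨nat_lit 4, nat_lit 0xc, nat_lit 0x2012, nat_lit 4, nat_lit 4, nat_lit 0x46⟩ (.node ⟨nat_lit 6, nat_lit 0x800300030, nat_lit 0x102021, nat_lit 5, nat_lit 4, nat_lit 0x48⟩ (t14_641) (t14_8833)) (.node ⟨nat_lit 8, nat_lit 0x800040009000d000c8, nat_lit 0x11112101, nat_lit 0, nat_lit 4, nat_lit 0x48⟩ (t14_4737) (t14_12929))) (.node ⟨nat_lit 7, nat_lit 0x40002000500068, nat_lit 0x1001120, nat_lit 0, nat_lit 4, nat_lit 0x46⟩ (.node ⟨nat_lit 6, nat_lit 0x2000080030, nat_lit 0x112131, nat_lit 1, nat_lit 4, nat_lit 0x49⟩ (t14_2689) (t14_10881)) (.node ⟨nat_lit 5, nat_lit 0x800100010, nat_lit 0x1231, nat_lit 3, nat_lit 4, nat_lit 0x47⟩ (t14_6785) (t14_14977)))) (.node ⟨nat_lit 7, nat_lit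 0x400020002800500068, nat_lit 0x1211011, nat_lit 0, nat_lit 4, nat_lit 0x47⟩ (.node ⟨nat_lit 7, nat_lit 0x1000600018, nat_lit 0x1002121, nat_lit 0, nat_lit 4, nat_lit 0x48⟩ (.node ⟨nat_lit 6, nat_lit 0x1000280030, nat_lit 0x100011, nat_lit 1, nat_lit 4, nat_lit 0x45⟩ (t14_1665) (t14_9857)) (.node ⟨nat_lit 7, nat_lit 0x40004000100060, nat_lit 0x20022, nat_lit 1, nat_lit 4, nat_lit 0x48⟩ (t14_5761) (t14_13953))) (.node ⟨nat_lit 6, nat_lit 0x300038, nat_lit 0x201022, nat_lit 0, nat_lit 4, nat_lit 0x47⟩ (.node ⟨nat_lit 7, nat_lit 0x40002000500060, nat_lit 0x11010, nat_lit 0, nat_lit 4, nat_lit 0x46⟩ (t14_3713) (t14_11905)) (.node ⟨nat_lit 7, nat_lit 0x600060, nat_lit 0x2011121, nat_lit 1, nat_lit 4, nat_lit 0x4a⟩ (t14_7809) (.nil)))))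
def t14_385 : Tr := .node ⟨nat_lit 7, nat_lit 0x40004000200020, nat_lit 0x112111, nat_lit 1, nat_lit 4, nat_lit 0x49⟩ (.nil) (.nil)
def t14_8577 : Tr := .node ⟨nat_lit 7, nat_lit 0x40001000480060, nat_lit 0x1010, nat_lit 5, nat_lit 4, nat_lit 0x47⟩ (.nil) (.nil)
def t14_4481 : Tr := .node ⟨nat_lit 8, nat_lit 0x4000800080008800c0, nat_lit 0x1121001, nat_lit 2, nat_lit 4, nat_lit 0x49⟩ (.nil) (.nil)
def t14_12673 : Tr := .node ⟨nat_lit 8, nat_lit 0x800080002000400040, nat_lit 0x110031, nat_lit 0, nat_lit 4, nat_lit 0x49⟩ (.nil) (.nil)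
def t14_2433 : Tr := .node ⟨nat_lit 7, nat_lit 0x10001000500060, nat_lit 0x1102102, nat_lit 1, nat_lit 4, nat_lit 0x48⟩ (.nil) (.nil)
def t14_10625 : Tr := .node ⟨nat_lit 6, nat_lit 0x30000c, nat_lit 0x10, nat_lit 2, nat_lit 4, nat_lit 0x45⟩ (.nil) (.nil)
def t14_6529 : Tr := .node ⟨nat_lit 7, nat_lit 0x4000500060, nat_lit 0x111111, nat_lit 1, nat_lit 4, nat_lit 0x48⟩ (.nil) (.nil)
def t14_14721 : Tr := .node ⟨nat_lit 7, nat_lit 0x800600050, nat_lit 0x1111, nat_lit 2, nat_lit 4, nat_lit 0x47⟩ (.nil) (.nil)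
def t14_1409 : Tr := .node ⟨nat_lit 8, nat_lit 0x4000400080002000c0, nat_lit 0x131110, nat_lit 0, nat_lit 4, nat_lit 0x49⟩ (.nil) (.nil)
def t14_9601 : Tr := .node ⟨nat_lit 8, nat_lit 0x80004000a000c000d0, nat_lit 0x22020, nat_lit 1, nat_lit 4, nat_lit 0x47⟩ (.nil) (.nil)
def t14_5505 : Tr := .node ⟨nat_lit 4, nat_lit 0x40008, nat_lit 0x1041, nat_lit 6, nat_lit 4, nat_lit 0x47⟩ (.nil) (.nil)
def t14_13697 : Tr := .node ⟨nat_lit 7, nat_lit 0x40001000480068, nat_lit 0x2010002, nat_lit 0, nat_lit 4, nat_lit 0x47⟩ (.nil) (.nil)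
def t14_3457 : Tr := .node ⟨nat_lit 7, nat_lit 0x10004000500060, nat_lit 0x2012, nat_lit 1, nat_lit 4, nat_lit 0x46⟩ (.nil) (.nil)
def t14_11649 : Tr := .node ⟨nat_lit 8, nat_lit 0x8000900060006000c0, nat_lit 0x11103, nat_lit 0, nat_lit 4, nat_lit 0x46⟩ (.nil) (.nil)
def t14_7553 : Tr := .node ⟨nat_lit 5, nat_lit 0x1000080018, nat_lit 0x313, nat_lit 4, nat_lit 4, nat_lit 0x46⟩ (.nil) (.nil)
def t14_897 : Tr := .node ⟨nat_lit 6, nat_lit 0x20002000100010, nat_lit 0x3022, nat_lit 0, nat_lit 4, nat_lit 0x47⟩ (.nil) (.nil)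
def t14_9089 : Tr := .node ⟨nat_lit 7, nat_lit 0x400040002000200064, nat_lit 0x22201, nat_lit 0, nat_lit 4, nat_lit 0x47⟩ (.nil) (.nil)
def t14_4993 : Tr := .node ⟨nat_lit 6, nat_lit 0x280030, nat_lit 0x20101, nat_lit 2, nat_lit 4, nat_lit 0x47⟩ (.nil) (.nil)
def t14_13185 : Tr := .node ⟨nat_lit 6, nat_lit 0x800080030, nat_lit 0x113, nat_lit 1, nat_lit 4, nat_lit 0x46⟩ (.nil) (.nil)
def t14_2945 : Tr := .node ⟨nat_lit 7, nat_lit 0x4000100060, nat_lit 0x120112, nat_lit 0, nat_lit 4, nat_lit 0x49⟩ (.nil) (.nil)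
def t14_11137 : Tr := .node ⟨nat_lit 6, nat_lit 0x300030, nat_lit 0x101140, nat_lit 0, nat_lit 4, nat_lit 0x48⟩ (.nil) (.nil)
def t14_7041 : Tr := .node ⟨nat_lit 7, nat_lit 0x40002000600050, nat_lit 0x1101221, nat_lit 0, nat_lit 4, nat_lit 0x48⟩ (.nil) (.nil)
def t14_15233 : Tr := .node ⟨nat_lit 6, nat_lit 0x1000280030, nat_lit 0x111112, nat_lit 4, nat_lit 4, nat_lit 0x48⟩ (.nil) (.nil)
def t14_1921 : Tr := .node ⟨nat_lit 6, nat_lit 0x2000300034, nat_lit 0x201021, nat_lit 2, nat_lit 4, nat_lit 0x47⟩ (.nil) (.nil)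
def t14_10113 : Tr := .node ⟨nat_lit 7, nat_lit 0x200040006000680068, nat_lit 0x20220, nat_lit 2, nat_lit 4, nat_lit 0x45⟩ (.nil) (.nil)
def t14_6017 : Tr := .node ⟨nat_lit 6, nat_lit 0x2000080034, nat_lit 0x321110, nat_lit 0, nat_lit 4, nat_lit 0x49⟩ (.nil) (.nil)
def t14_14209 : Tr := .node ⟨nat_lit 8, nat_lit 0x1000c000c000a0, nat_lit 0x100102, nat_lit 1, nat_lit 4, nat_lit 0x47⟩ (.nil) (.nil)
def t14_3969 : Tr := .node ⟨nat_lit 7, nat_lit 0x40002000500068, nat_lit 0x112100, nat_lit 1, nat_lit 4, nat_lit 0x47⟩ (.nil) (.nil)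
def t14_12161 : Tr := .node ⟨nat_lit 8, nat_lit 0x80004000a000d000c8, nat_lit 0x1121011, nat_lit 0, nat_lit 4, nat_lit 0x47⟩ (.nil) (.nil)
def t14_8065 : Tr := .node ⟨nat_lit 7, nat_lit 0x4000100064, nat_lit 0x1103, nat_lit 1, nat_lit 4, nat_lit 0x47⟩ (.nil) (.nil)
def t9_385 : Tr := .node ⟨nat_lit 6, nat_lit 0x10002000180024, nat_lit 0x321201, nat_lit 0, nat_lit 4, nat_lit 0x49⟩ (.node ⟨nat_lit 6, nat_lit 0x2000080034, nat_lit 0x311201, nat_lit 1, nat_lit 4, nat_lit 0x49⟩ (.node ⟨nat_lit 5, nat_lit 0x1000080014, nat_lit 0x22120, nat_lit 3, nat_lit 4, nat_lit 0x48⟩ (.node ⟨nat_lit 6, nat_lit 0x1000280030, nat_lit 0x101022, nat_lit 0, nat_lit 4, nat_lit 0x46⟩ (.node ⟨nat_lit 6, nat_lit 0x800300030, nat_lit 0x112120, nat_lit 1, nat_lit 4, nat_lit 0x48⟩ (t14_385) (t14_8577)) (.node ⟨nat_lit 9, nat_lit 0x800080010001000100011000c0, nat_lit 0x12011011,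 nat_lit 0, nat_lit 4, nat_lit 0x49⟩ (t14_4481) (t14_12673))) (.node ⟨nat_lit 5, nat_lit 0x100008, nat_lit 0x2302, nat_lit 2, nat_lit 4, nat_lit 0x49⟩ (.node ⟨nat_lit 7, nat_lit 0x20001000600050, nat_lit 0x1010214, nat_lit 0, nat_lit 4, nat_lit 0x48⟩ (t14_2433) (t14_10625)) (.node ⟨nat_lit 6, nat_lit 0x2000100024, nat_lit 0x2012, nat_lit 1, nat_lit 4, nat_lit 0x46⟩ (t14_6529) (t14_14721)))) (.node ⟨nat_lit 6, nat_lit 0x2000080030, nat_lit 0x21102, nat_lit 0, nat_lit 4, nat_lit 0x47⟩ (.node ⟨nat_lit 6, nat_lit 0x20, nat_lit 0x222111, nat_lit 3, nat_lit 4, nat_lit 0x4c⟩ (.node ⟨nat_lit 6, nat_lit 0x1000280030, nat_lit 0x11041, nat_lit 0, nat_lit 4, nat_lit 0x46⟩ (t14_1409) (t14_9601)) (.node ⟨nat_lit 7, nat_lit 0x200020002000400040, nat_lit 0x1022021, nat_lit 1, nat_lit 4, nat_lit 0x49⟩ (t14_5505) (t14_13697))) (.node ⟨nat_lit 5, nat_lit 0x800080010,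 nat_lit 0x10221, nat_lit 4, nat_lit 4, nat_lit 0x47⟩ (.node ⟨nat_lit 6, nat_lit 0x800300030, nat_lit 0x2100, nat_lit 1, nat_lit 4, nat_lit 0x46⟩ (t14_3457) (t14_11649)) (.node ⟨nat_lit 8, nat_lit 0x8000800040008800d0, nat_lit 0x11111102, nat_lit 0, nat_lit 4, nat_lit 0x49⟩ (t14_7553) (.nil))))) (.node ⟨nat_lit 6, nat_lit 0x80030, nat_lit 0x211311, nat_lit 0, nat_lit 4, nat_lit 0x4a⟩ (.node ⟨nat_lit 6, nat_lit 0x280030, nat_lit 0x12211, nat_lit 1, nat_lit 4, nat_lit 0x48⟩ (.node ⟨nat_lit 6, nat_lit 0x30000c, nat_lit 0x101112, nat_lit 1, nat_lit 4, nat_lit 0x47⟩ (.node ⟨nat_lit 6, nat_lit 0x200020, nat_lit 0x132210, nat_lit 0, nat_lit 4, nat_lit 0x4b⟩ (t14_897) (t14_9089)) (.node ⟨nat_lit 7, nat_lit 0x400040, nat_lit 0x1111120, nat_lit 4, nat_lit 4, nat_lit 0x4c⟩ (t14_4993) (t14_13185))) (.node ⟨nat_lit 4, nat_lit 0x8000c, nat_lit 0x1021, nat_lit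 4, nat_lit 4, nat_lit 0x45⟩ (.node ⟨nat_lit 7, nat_lit 0x10001000200040, nat_lit 0x1111121, nat_lit 0, nat_lit 4, nat_lit 0x49⟩ (t14_2945) (t14_11137)) (.node ⟨nat_lit 7, nat_lit 0x10004000600064, nat_lit 0x1100122, nat_lit 4, nat_lit 4, nat_lit 0x48⟩ (t14_7041) (t14_15233)))) (.node ⟨nat_lit 6, nat_lit 0x100020, nat_lit 0x102131, nat_lit 0, nat_lit 4, nat_lit 0x49⟩ (.node ⟨nat_lit 6, nat_lit 0x2000080030, nat_lit 0x32111, nat_lit 2, nat_lit 4, nat_lit 0x49⟩ (.node ⟨nat_lit 7, nat_lit 0x1000600070, nat_lit 0x1011213, nat_lit 0, nat_lit 4, nat_lit 0x48⟩ (t14_1921) (t14_10113)) (.node ⟨nat_lit 6, nat_lit 0x10001000200020, nat_lit 0x102020, nat_lit 1, nat_lit 3, nat_lit 0x46⟩ (t14_6017) (t14_14209))) (.node ⟨nat_lit 5, nat_lit 0x1000100014, nat_lit 0x1212, nat_lit 4, nat_lit 4, nat_lit 0x47⟩ (.node ⟨nat_lit 5, nat_lit 0x180014, nat_lit 0x11010, nat_lit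 4, nat_lit 4, nat_lit 0x46⟩ (t14_3969) (t14_12161)) (.node ⟨nat_lit 8, nat_lit 0x800020002000400040, nat_lit 0x1101121, nat_lit 1, nat_lit 4, nat_lit 0x4a⟩ (t14_8065) (.nil)))))
def t14_65 : Tr := .node ⟨nat_lit 7, nat_lit 0x1000400060, nat_lit 0x1202011, nat_lit 1, nat_lit 4, nat_lit 0x4a⟩ (.nil) (.nil)
def t14_8257 : Tr := .node ⟨nat_lit 6, nat_lit 0x20001000280030, nat_lit 0x2140, nat_lit 4, nat_lit 4, nat_lit 0x47⟩ (.nil) (.nil)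
def t14_4161 : Tr := .node ⟨nat_lit 9, nat_lit 0x10001000080011001100120, nat_lit 0x11110111, nat_lit 0, nat_lit 4, nat_lit 0x49⟩ (.nil) (.nil)
def t14_12353 : Tr := .node ⟨nat_lit 8, nat_lit 0x800040002000c0, nat_lit 0x11100, nat_lit 0, nat_lit 4, nat_lit 0x48⟩ (.nil) (.nil)
def t14_2113 : Tr := .node ⟨nat_lit 6, nat_lit 0x800200030, nat_lit 0x10022, nat_lit 3, nat_lit 4, nat_lit 0x47⟩ (.nil) (.nil)
def t14_10305 : Tr := .node ⟨nat_lit 7, nat_lit 0x40004000100060, nat_lit 0x10002, nat_lit 2, nat_lit 4, nat_lit 0x47⟩ (.nil) (.nil)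
def t14_6209 : Tr := .node ⟨nat_lit 3, nat_lit 4, nat_lit 0x111, nat_lit 0xc, nat_lit 4, nat_lit 0x47⟩ (.nil) (.nil)
def t14_14401 : Tr := .node ⟨nat_lit 7, nat_lit 0x40001000500060, nat_lit 0x1330, nat_lit 1, nat_lit 4, nat_lit 0x47⟩ (.nil) (.nil)
def t14_1089 : Tr := .node ⟨nat_lit 6, nat_lit 0x10001000200030, nat_lit 0x2211, nat_lit 3, nat_lit 4, nat_lit 0x47⟩ (.nil) (.nil)
def t14_9281 : Tr := .node ⟨nat_lit 7, nat_lit 0x40002000200060, nat_lit 0x1010221, nat_lit 1, nat_lit 3, nat_lit 0x47⟩ (.nil) (.nil)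
def t14_5185 : Tr := .node ⟨nat_lit 8, nat_lit 0x40004000800080008000c8, nat_lit 0x311100, nat_lit 1, nat_lit 4, nat_lit 0x48⟩ (.nil) (.nil)
def t14_13377 : Tr := .node ⟨nat_lit 6, nat_lit 0x10002000200030, nat_lit 0x202100, nat_lit 0, nat_lit 3, nat_lit 0x46⟩ (.nil) (.nil)
def t14_3137 : Tr := .node ⟨nat_lit 6, nat_lit 0x2000080030, nat_lit 0x102011, nat_lit 0, nat_lit 4, nat_lit 0x47⟩ (.nil) (.nil)
def t14_11329 : Tr := .node ⟨nat_lit 7, nat_lit 0x2000400060, nat_lit 0x11110, nat_lit 2, nat_lit 4, nat_lit 0x48⟩ (.nil) (.nil)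
def t14_7233 : Tr := .node ⟨nat_lit 8, nat_lit 0x2000800080008000c8, nat_lit 0x2002001, nat_lit 1, nat_lit 4, nat_lit 0x49⟩ (.nil) (.nil)
def t14_15425 : Tr := .node ⟨nat_lit 7, nat_lit 0x40001000600060, nat_lit 0x1011111, nat_lit 0, nat_lit 3, nat_lit 0x46⟩ (.nil) (.nil)
def t14_577 : Tr := .node ⟨nat_lit 7, nat_lit 0x40004000200060, nat_lit 0x12202, nat_lit 0, nat_lit 3, nat_lit 0x46⟩ (.nil) (.nil)
def t14_8769 : Tr := .node ⟨nat_lit 7, nat_lit 0x40001000600068, nat_lit 0x12003, nat_lit 3, nat_lit 4, nat_lit 0x47⟩ (.nil) (.nil)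
def t14_4673 : Tr := .node ⟨nat_lit 6, nat_lit 0x800300030, nat_lit 0x110022, nat_lit 2, nat_lit 4, nat_lit 0x47⟩ (.nil) (.nil)
def t14_12865 : Tr := .node ⟨nat_lit 7, nat_lit 0x5000600060, nat_lit 0x2100, nat_lit 0, nat_lit 4, nat_lit 0x46⟩ (.nil) (.nil)
def t14_2625 : Tr := .node ⟨nat_lit 5, nat_lit 0x80010001a, nat_lit 0x320, nat_lit 3, nat_lit 4, nat_lit 0x45⟩ (.nil) (.nil)
def t14_10817 : Tr := .node ⟨nat_lit 7, nat_lit 0x10004000640064, nat_lit 0x1100122, nat_lit 3, nat_lit 4, nat_lit 0x47⟩ (.nil) (.nil)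
def t14_6721 : Tr := .node ⟨nat_lit 7, nat_lit 0x40004800580068, nat_lit 0x1110011, nat_lit 1, nat_lit 4, nat_lit 0x46⟩ (.nil) (.nil)
def t14_14913 : Tr := .node ⟨nat_lit 7, nat_lit 0x40004800680068, nat_lit 0x1011211, nat_lit 2, nat_lit 4, nat_lit 0x47⟩ (.nil) (.nil)
def t14_1601 : Tr := .node ⟨nat_lit 6, nat_lit 0x2000100030, nat_lit 0x111120, nat_lit 3, nat_lit 3, nat_lit 0x47⟩ (.nil) (.nil)
def t14_9793 : Tr := .node ⟨nat_lit 8, nat_lit 0x20004000a000c000c8, nat_lit 0x2202, nat_lit 0, nat_lit 4, nat_lit 0x46⟩ (.nil) (.nil)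
def t14_5697 : Tr := .node ⟨nat_lit 7, nat_lit 0x40004800500060, nat_lit 0x112102, nat_lit 3, nat_lit 4, nat_lit 0x48⟩ (.nil) (.nil)
def t14_13889 : Tr := .node ⟨nat_lit 7, nat_lit 0x40001000200048, nat_lit 0x101200, nat_lit 1, nat_lit 4, nat_lit 0x47⟩ (.nil) (.nil)
def t14_3649 : Tr := .node ⟨nat_lit 6, nat_lit 0x1000200032, nat_lit 0x2011, nat_lit 2, nat_lit 4, nat_lit 0x46⟩ (.nil) (.nil)
def t14_11841 : Tr := .node ⟨nat_lit 6, nat_lit 0x800200032, nat_lit 0x10030, nat_lit 3, nat_lit 4, nat_lit 0x47⟩ (.nil) (.nil)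
def t14_7745 : Tr := .node ⟨nat_lit 6, nat_lit 0x1000280034, nat_lit 0x211, nat_lit 2, nat_lit 4, nat_lit 0x45⟩ (.nil) (.nil)
def t9_65 : Tr := .node ⟨nat_lit 6, nat_lit 0x800100020, nat_lit 0x213111, nat_lit 1, nat_lit 4, nat_lit 0x4a⟩ (.node ⟨nat_lit 6, nat_lit 0x2000100024, nat_lit 0x113212, nat_lit 1, nat_lit 4, nat_lit 0x49⟩ (.node ⟨nat_lit 7, nat_lit 0x20001000500068, nat_lit 0x300020, nat_lit 0, nat_lit 4, nat_lit 0x47⟩ (.node ⟨nat_lit 6, nat_lit 0x200030, nat_lit 0x2210, nat_lit 1, nat_lit 4, nat_lit 0x48⟩ (.node ⟨nat_lit 5, nat_lit 0x100018, nat_lit 0x2214, nat_lit 2, nat_lit 4, nat_lit 0x48⟩ (t14_65) (t14_8257)) (.node ⟨nat_lit 7, nat_lit 0x1000180060, nat_lit 0x1001100, nat_lit 0, nat_lit 4, nat_lit 0x47⟩ (t14_4161) (t14_12353))) (.node ⟨nat_lit 5, nat_lit 0x18, nat_lit 0x21212, nat_lit 6, nat_lit 4, nat_lit 0x4a⟩ (.node ⟨nat_lit 6,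 nat_lit 0x20002800300038, nat_lit 0x111031, nat_lit 5, nat_lit 4, nat_lit 0x47⟩ (t14_2113) (t14_10305)) (.node ⟨nat_lit 8, nat_lit 0x8000200090009000c0, nat_lit 0x212110, nat_lit 0, nat_lit 4, nat_lit 0x48⟩ (t14_6209) (t14_14401)))) (.node ⟨nat_lit 5, nat_lit 0x100018, nat_lit 0x2220, nat_lit 6, nat_lit 4, nat_lit 0x48⟩ (.node ⟨nat_lit 5, nat_lit 0x18, nat_lit 0x22201, nat_lit 0, nat_lit 4, nat_lit 0x49⟩ (.node ⟨nat_lit 6, nat_lit 0x800300030, nat_lit 0x1311, nat_lit 1, nat_lit 4, nat_lit 0x46⟩ (t14_1089) (t14_9281)) (.node ⟨nat_lit 6, nat_lit 0x300038, nat_lit 0x101141, nat_lit 0, nat_lit 4, nat_lit 0x47⟩ (t14_5185) (t14_13377))) (.node ⟨nat_lit 6, nat_lit 0x100020, nat_lit 0x121100, nat_lit 0, nat_lit 4, nat_lit 0x49⟩ (.node ⟨nat_lit 5, nat_lit 0x100018, nat_lit 0x1200, nat_lit 5, nat_lit 4, nat_lit 0x47⟩ (t14_3137) (t14_11329)) (.node ⟨nat_lit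 6, nat_lit 0x20001000100028, nat_lit 0x101102, nat_lit 1, nat_lit 4, nat_lit 0x46⟩ (t14_7233) (t14_15425))))) (.node ⟨nat_lit 5, nat_lit 0x1000100008, nat_lit 0x3303, nat_lit 3, nat_lit 4, nat_lit 0x49⟩ (.node ⟨nat_lit 4, nat_lit 8, nat_lit 0x2213, nat_lit 3, nat_lit 4, nat_lit 0x49⟩ (.node ⟨nat_lit 6, nat_lit 0x2000300030, nat_lit 0x2120, nat_lit 1, nat_lit 3, nat_lit 0x45⟩ (.node ⟨nat_lit 8, nat_lit 0x80, nat_lit 0x21111111, nat_lit 1, nat_lit 4, nat_lit 0x4e⟩ (t14_577) (t14_8769)) (.node ⟨nat_lit 7, nat_lit 0x400020002000500068, nat_lit 0x1111200, nat_lit 0, nat_lit 4, nat_lit 0x47⟩ (t14_4673) (t14_12865))) (.node ⟨nat_lit 5, nat_lit 0x18, nat_lit 0x10002, nat_lit 0, nat_lit 4, nat_lit 0x45⟩ (.node ⟨nat_lit 7, nat_lit 0x400020, nat_lit 0x111103, nat_lit 2, nat_lit 4, nat_lit 0x4b⟩ (t14_2625) (t14_10817)) (.node ⟨nat_lit 4, nat_lit 0x40008, nat_lit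 0x1101, nat_lit 0x11, nat_lit 4, nat_lit 0x49⟩ (t14_6721) (t14_14913)))) (.node ⟨nat_lit 5, nat_lit 0x100012, nat_lit 0x21110, nat_lit 7, nat_lit 4, nat_lit 0x49⟩ (.node ⟨nat_lit 7, nat_lit 0x40002000480060, nat_lit 0x222011, nat_lit 0, nat_lit 4, nat_lit 0x49⟩ (.node ⟨nat_lit 5, nat_lit 0x40018, nat_lit 0x10010, nat_lit 1, nat_lit 4, nat_lit 0x44⟩ (t14_1601) (t14_9793)) (.node ⟨nat_lit 8, nat_lit 0x8000800040, nat_lit 0x11111210, nat_lit 0, nat_lit 4, nat_lit 0x4c⟩ (t14_5697) (t14_13889))) (.node ⟨nat_lit 7, nat_lit 0x40001000100060, nat_lit 0x202102, nat_lit 1, nat_lit 4, nat_lit 0x48⟩ (.node ⟨nat_lit 6, nat_lit 0x300028, nat_lit 0x200, nat_lit 2, nat_lit 4, nat_lit 0x46⟩ (t14_3649) (t14_11841)) (.node ⟨nat_lit 7, nat_lit 0x2000400010, nat_lit 0x1100200, nat_lit 1, nat_lit 4, nat_lit 0x49⟩ (t14_7745) (.nil)))))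
def t14_321 : Tr := .node ⟨nat_lit 7, nat_lit 0x2000400060, nat_lit 0x1021321, nat_lit 0, nat_lit 4, nat_lit 0x4a⟩ (.nil) (.nil)
def t14_8513 : Tr := .node ⟨nat_lit 9, nat_lit 0x1000100008001100110, nat_lit 0x1111031, nat_lit 0, nat_lit 4, nat_lit 0x4a⟩ (.nil) (.nil)
def t14_4417 : Tr := .node ⟨nat_lit 9, nat_lit 0x100010000800040, nat_lit 0x11210001, nat_lit 1, nat_lit 4, nat_lit 0x4c⟩ (.nil) (.nil)
def t14_12609 : Tr := .node ⟨nat_lit 8, nat_lit 0x80004000a000d000d0, nat_lit 0x10001030, nat_lit 1, nat_lit 4, nat_lit 0x46⟩ (.nil) (.nil)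
def t14_2369 : Tr := .node ⟨nat_lit 6, nat_lit 0x2800280030, nat_lit 0x20102, nat_lit 7, nat_lit 4, nat_lit 0x47⟩ (.nil) (.nil)
def t14_10561 : Tr := .node ⟨nat_lit 6, nat_lit 0x20001000280034, nat_lit 0x10120, nat_lit 3, nat_lit 4, nat_lit 0x45⟩ (.nil) (.nil)
def t14_6465 : Tr := .node ⟨nat_lit 5, nat_lit 0x800100018, nat_lit 0x11110, nat_lit 3, nat_lit 4, nat_lit 0x46⟩ (.nil) (.nil)
def t14_14657 : Tr := .node ⟨nat_lit 9, nat_lit 0x1000020002001400180, nat_lit 0x11020011, nat_lit 0, nat_lit 4, nat_lit 0x49⟩ (.nil) (.nil)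
def t14_1345 : Tr := .node ⟨nat_lit 8, nat_lit 0x8000800020009000c0, nat_lit 0x121110, nat_lit 3, nat_lit 4, nat_lit 0x49⟩ (.nil) (.nil)
def t14_9537 : Tr := .node ⟨nat_lit 9, nat_lit 0x1000100010001800180012001200140, nat_lit 0x1110101, nat_lit 3, nat_lit 4, nat_lit 0x48⟩ (.nil) (.nil)
def t14_5441 : Tr := .node ⟨nat_lit 5, nat_lit 0x80010001a, nat_lit 0x10301, nat_lit 5, nat_lit 4, nat_lit 0x46⟩ (.nil) (.nil)
def t14_13633 : Tr := .node ⟨nat_lit 6, nat_lit 0x30000c, nat_lit 0x1012, nat_lit 1, nat_lit 4, nat_lit 0x46⟩ (.nil) (.nil)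
def t14_3393 : Tr := .node ⟨nat_lit 8, nat_lit 0x800020004000a000c4, nat_lit 0x2000011, nat_lit 0, nat_lit 4, nat_lit 0x47⟩ (.nil) (.nil)
def t14_11585 : Tr := .node ⟨nat_lit 7, nat_lit 0x10006000600060, nat_lit 0x310, nat_lit 5, nat_lit 4, nat_lit 0x47⟩ (.nil) (.nil)
def t14_7489 : Tr := .node ⟨nat_lit 9, nat_lit 0x100004000400180, nat_lit 0x100111101, nat_lit 1, nat_lit 4, nat_lit 0x4b⟩ (.nil) (.nil)
def t14_833 : Tr := .node ⟨nat_lit 8, nat_lit 0x80008000400040004000a0, nat_lit 0x10113101, nat_lit 0, nat_lit 4, nat_lit 0x49⟩ (.nil) (.nil)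
def t14_9025 : Tr := .node ⟨nat_lit 8, nat_lit 0x800080008000a000a0009000c0, nat_lit 0x1111011, nat_lit 4, nat_lit 4, nat_lit 0x48⟩ (.nil) (.nil)
def t14_4929 : Tr := .node ⟨nat_lit 6, nat_lit 0x800300038, nat_lit 0x100013, nat_lit 5, nat_lit 4, nat_lit 0x46⟩ (.nil) (.nil)
def t14_13121 : Tr := .node ⟨nat_lit 6, nat_lit 0x800300028, nat_lit 0x200310, nat_lit 2, nat_lit 3, nat_lit 0x46⟩ (.nil) (.nil)
def t14_2881 : Tr := .node ⟨nat_lit 8, nat_lit 0x800080004000c000d0, nat_lit 0x112201, nat_lit 0, nat_lit 4, nat_lit 0x48⟩ (.nil) (.nil)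
def t14_11073 : Tr := .node ⟨nat_lit 7, nat_lit 0x6000180018, nat_lit 0x1010120, nat_lit 1, nat_lit 4, nat_lit 0x47⟩ (.nil) (.nil)
def t14_6977 : Tr := .node ⟨nat_lit 7, nat_lit 0x1000100060, nat_lit 0x2101001, nat_lit 1, nat_lit 4, nat_lit 0x49⟩ (.nil) (.nil)
def t14_15169 : Tr := .node ⟨nat_lit 8, nat_lit 0x800040004000c800c8, nat_lit 0x1101111, nat_lit 0, nat_lit 4, nat_lit 0x48⟩ (.nil) (.nil)
def t14_1857 : Tr := .node ⟨nat_lit 6, nat_lit 0x3000300028, nat_lit 0x12112, nat_lit 4, nat_lit 4, nat_lit 0x47⟩ (.nil) (.nil)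
def t14_10049 : Tr := .node ⟨nat_lit 8, nat_lit 0x20008000c000c800c8, nat_lit 0x10001220, nat_lit 2, nat_lit 4, nat_lit 0x47⟩ (.nil) (.nil)
def t14_5953 : Tr := .node ⟨nat_lit 7, nat_lit 0x20004000100060, nat_lit 0x1012111, nat_lit 0, nat_lit 4, nat_lit 0x48⟩ (.nil) (.nil)
def t14_14145 : Tr := .node ⟨nat_lit 9, nat_lit 0x100010001000080008001400140, nat_lit 0x102100, nat_lit 1, nat_lit 4, nat_lit 0x48⟩ (.nil) (.nil)
def t14_3905 : Tr := .node ⟨nat_lit 8, nat_lit 0x80008000b000e000e000d0, nat_lit 0x10011201, nat_lit 1, nat_lit 4, nat_lit 0x45⟩ (.nil) (.nil)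
def t14_12097 : Tr := .node ⟨nat_lit 8, nat_lit 0x80002000c000c000d0, nat_lit 0x111210, nat_lit 1, nat_lit 4, nat_lit 0x47⟩ (.nil) (.nil)
def t14_8001 : Tr := .node ⟨nat_lit 5, nat_lit 0x100012, nat_lit 0x1124, nat_lit 4, nat_lit 4, nat_lit 0x48⟩ (.nil) (.nil)
def t9_321 : Tr := .node ⟨nat_lit 4, nat_lit 0xc, nat_lit 0x1131, nat_lit 5, nat_lit 4, nat_lit 0x47⟩ (.node ⟨nat_lit 6, nat_lit 0x800280030, nat_lit 0x310122, nat_lit 0, nat_lit 4, nat_lit 0x48⟩ (.node ⟨nat_lit 2, nat_lit 2, nat_lit 0x21, nat_lit 0x13, nat_lit 4, nat_lit 0x47⟩ (.node ⟨nat_lit 7, nat_lit 0x40001000100060, nat_lit 0x1102102, nat_lit 0, nat_lit 4, nat_lit 0x48⟩ (.node ⟨nat_lit 7, nat_lit 0x1000080060, nat_lit 0x2102011, nat_lit 1, nat_lit 4, nat_lit 0x4a⟩ (t14_321) (t14_8513)) (.node ⟨nat_lit 6, nat_lit 0x20002000100010, nat_lit 0x11040, nat_lit 3, nat_lit 3, nat_lit 0x47⟩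 (t14_4417) (t14_12609))) (.node ⟨nat_lit 3, nat_lit 6, nat_lit 0x102, nat_lit 8, nat_lit 3, nat_lit 0x44⟩ (.node ⟨nat_lit 7, nat_lit 0x20002000100040, nat_lit 0x12020, nat_lit 0, nat_lit 4, nat_lit 0x48⟩ (t14_2369) (t14_10561)) (.node ⟨nat_lit 7, nat_lit 0x2000500064, nat_lit 0x201120, nat_lit 1, nat_lit 4, nat_lit 0x48⟩ (t14_6465) (t14_14657)))) (.node ⟨nat_lit 6, nat_lit 0x100020, nat_lit 0x121110, nat_lit 0, nat_lit 4, nat_lit 0x49⟩ (.node ⟨nat_lit 5, nat_lit 0x80010, nat_lit 0x22121, nat_lit 6, nat_lit 4, nat_lit 0x4a⟩ (.node ⟨nat_lit 6, nat_lit 0x2000100008, nat_lit 0x110003, nat_lit 0, nat_lit 3, nat_lit 0x46⟩ (t14_1345) (t14_9537)) (.node ⟨nat_lit 7, nat_lit 0x20004000440030, nat_lit 0x2111202, nat_lit 0, nat_lit 4, nat_lit 0x49⟩ (t14_5441) (t14_13633))) (.node ⟨nat_lit 6, nat_lit 0x800200032, nat_lit 0x220101, nat_lit 0, nat_lit 4, nat_lit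 0x47⟩ (.node ⟨nat_lit 7, nat_lit 0x40002000480060, nat_lit 0x121003, nat_lit 0, nat_lit 4, nat_lit 0x48⟩ (t14_3393) (t14_11585)) (.node ⟨nat_lit 7, nat_lit 0x10004000400060, nat_lit 0x1100212, nat_lit 1, nat_lit 3, nat_lit 0x47⟩ (t14_7489) (.nil))))) (.node ⟨nat_lit 4, nat_lit 8, nat_lit 0x313, nat_lit 4, nat_lit 4, nat_lit 0x48⟩ (.node ⟨nat_lit 6, nat_lit 0x30, nat_lit 0x201112, nat_lit 0, nat_lit 4, nat_lit 0x49⟩ (.node ⟨nat_lit 4, nat_lit 0, nat_lit 0x1111, nat_lit 6, nat_lit 4, nat_lit 0x48⟩ (.node ⟨nat_lit 6, nat_lit 0x20, nat_lit 0x222210, nat_lit 0, nat_lit 4, nat_lit 0x4c⟩ (t14_833) (t14_9025)) (.node ⟨nat_lit 7, nat_lit 0x400060, nat_lit 0x1022120, nat_lit 1, nat_lit 4, nat_lit 0x4b⟩ (t14_4929) (t14_13121))) (.node ⟨nat_lit 6, nat_lit 0x2000080030, nat_lit 0x110122, nat_lit 0, nat_lit 4, nat_lit 0x47⟩ (.node ⟨nat_lit 5, nat_lit 0x1000100008,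 nat_lit 0x21110, nat_lit 5, nat_lit 3, nat_lit 0x47⟩ (t14_2881) (t14_11073)) (.node ⟨nat_lit 7, nat_lit 0x400040002000480050, nat_lit 0x1111100, nat_lit 8, nat_lit 4, nat_lit 0x49⟩ (t14_6977) (t14_15169)))) (.node ⟨nat_lit 5, nat_lit 0x40018, nat_lit 0x21110, nat_lit 5, nat_lit 4, nat_lit 0x48⟩ (.node ⟨nat_lit 7, nat_lit 0x4000500060, nat_lit 0x122111, nat_lit 0, nat_lit 4, nat_lit 0x49⟩ (.node ⟨nat_lit 7, nat_lit 0x10004000400060, nat_lit 0x100103, nat_lit 3, nat_lit 4, nat_lit 0x48⟩ (t14_1857) (t14_10049)) (.node ⟨nat_lit 7, nat_lit 0x20004000600068, nat_lit 0x1020020, nat_lit 1, nat_lit 4, nat_lit 0x47⟩ (t14_5953) (t14_14145))) (.node ⟨nat_lit 6, nat_lit 0x10002000300038, nat_lit 0x1221, nat_lit 2, nat_lit 4, nat_lit 0x45⟩ (.node ⟨nat_lit 6, nat_lit 0xc0030, nat_lit 0x111001, nat_lit 1, nat_lit 4, nat_lit 0x47⟩ (t14_3905) (t14_12097)) (.node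 ⟨nat_lit 7, nat_lit 0x1800180060, nat_lit 0x2110210, nat_lit 0, nat_lit 4, nat_lit 0x48⟩ (t14_8001) (.nil)))))
def t14_193 : Tr := .node ⟨nat_lit 7, nat_lit 0x1000600018, nat_lit 0x2010111, nat_lit 0, nat_lit 4, nat_lit 0x48⟩ (.nil) (.nil)
def t14_8385 : Tr := .node ⟨nat_lit 7, nat_lit 0x1000080060, nat_lit 0x1100003, nat_lit 2, nat_lit 3, nat_lit 0x47⟩ (.nil) (.nil)
def t14_4289 : Tr := .node ⟨nat_lit 8, nat_lit 0x4000400080008000d0, nat_lit 0x1121111, nat_lit 0, nat_lit 4, nat_lit 0x49⟩ (.nil) (.nil)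
def t14_12481 : Tr := .node ⟨nat_lit 7, nat_lit 0x4000440060, nat_lit 0x10003, nat_lit 1, nat_lit 4, nat_lit 0x47⟩ (.nil) (.nil)
def t14_2241 : Tr := .node ⟨nat_lit 7, nat_lit 0x400040002000240050, nat_lit 0x222001, nat_lit 1, nat_lit 4, nat_lit 0x48⟩ (.nil) (.nil)
def t14_10433 : Tr := .node ⟨nat_lit 8, nat_lit 0x80002000c000d000d0, nat_lit 0x10110220, nat_lit 0, nat_lit 4, nat_lit 0x47⟩ (.nil) (.nil)
def t14_6337 : Tr := .node ⟨nat_lit 6, nat_lit 0x240038, nat_lit 0x100002, nat_lit 1, nat_lit 4, nat_lit 0x45⟩ (.nil) (.nil)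
def t14_14529 : Tr := .node ⟨nat_lit 7, nat_lit 0x40004000200020, nat_lit 0x2011011, nat_lit 0, nat_lit 3, nat_lit 0x48⟩ (.nil) (.nil)
def t14_1217 : Tr := .node ⟨nat_lit 8, nat_lit 0x400080002000c0, nat_lit 0x112021, nat_lit 0, nat_lit 4, nat_lit 0x49⟩ (.nil) (.nil)
def t14_9409 : Tr := .node ⟨nat_lit 7, nat_lit 0x60006000500030, nat_lit 0x12102, nat_lit 2, nat_lit 4, nat_lit 0x46⟩ (.nil) (.nil)
def t14_5313 : Tr := .node ⟨nat_lit 6, nat_lit 0x800280030, nat_lit 0x111220, nat_lit 3, nat_lit 4, nat_lit 0x48⟩ (.nil) (.nil)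
def t14_13505 : Tr := .node ⟨nat_lit 6, nat_lit 0x2000080010, nat_lit 0x20020, nat_lit 4, nat_lit 4, nat_lit 0x48⟩ (.nil) (.nil)
def t14_3265 : Tr := .node ⟨nat_lit 8, nat_lit 0x8000800020002000c0, nat_lit 0x1120101, nat_lit 1, nat_lit 4, nat_lit 0x49⟩ (.nil) (.nil)
def t14_11457 : Tr := .node ⟨nat_lit 8, nat_lit 0x800080002000a800d0, nat_lit 0x11000101, nat_lit 0, nat_lit 4, nat_lit 0x47⟩ (.nil) (.nil)
def t14_7361 : Tr := .node ⟨nat_lit 8, nat_lit 0x800020002000c0, nat_lit 0x11021001, nat_lit 1, nat_lit 4, nat_lit 0x4a⟩ (.nil) (.nil)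
def t14_15553 : Tr := .node ⟨nat_lit 9, nat_lit 0x100010000800108, nat_lit 0x101111101, nat_lit 2, nat_lit 4, nat_lit 0x4c⟩ (.nil) (.nil)
def t14_705 : Tr := .node ⟨nat_lit 7, nat_lit 0x4000100060, nat_lit 0x111311, nat_lit 0, nat_lit 4, nat_lit 0x49⟩ (.nil) (.nil)
def t14_8897 : Tr := .node ⟨nat_lit 9, nat_lit 0x1000020004001100180, nat_lit 0x1020120, nat_lit 0, nat_lit 4, nat_lit 0x49⟩ (.nil) (.nil)
def t14_4801 : Tr := .node ⟨nat_lit 7, nat_lit 0x400020005000600068, nat_lit 0x122020, nat_lit 2, nat_lit 4, nat_lit 0x47⟩ (.nil) (.nil)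
def t14_12993 : Tr := .node ⟨nat_lit 5, nat_lit 0x1000140018, nat_lit 0x300, nat_lit 9, nat_lit 4, nat_lit 0x47⟩ (.nil) (.nil)
def t14_2753 : Tr := .node ⟨nat_lit 7, nat_lit 0x1000500060, nat_lit 0x12120, nat_lit 0, nat_lit 4, nat_lit 0x48⟩ (.nil) (.nil)
def t14_10945 : Tr := .node ⟨nat_lit 6, nat_lit 0x10001000100020, nat_lit 0x203202, nat_lit 0, nat_lit 3, nat_lit 0x47⟩ (.nil) (.nil)
def t14_6849 : Tr := .node ⟨nat_lit 6, nat_lit 0x2000240024, nat_lit 0x111220, nat_lit 3, nat_lit 4, nat_lit 0x49⟩ (.nil) (.nil)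
def t14_15041 : Tr := .node ⟨nat_lit 7, nat_lit 0x400040004000500050, nat_lit 0x111011, nat_lit 8, nat_lit 4, nat_lit 0x49⟩ (.nil) (.nil)
def t14_1729 : Tr := .node ⟨nat_lit 8, nat_lit 0x800040009000c000d0, nat_lit 0x111121, nat_lit 0, nat_lit 4, nat_lit 0x47⟩ (.nil) (.nil)
def t14_9921 : Tr := .node ⟨nat_lit 4, nat_lit 0xc000c, nat_lit 0x33, nat_lit 8, nat_lit 4, nat_lit 0x45⟩ (.nil) (.nil)
def t14_5825 : Tr := .node ⟨nat_lit 6, nat_lit 0x800100020, nat_lit 0x110201, nat_lit 4, nat_lit 4, nat_lit 0x48⟩ (.nil) (.nil)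
def t14_14017 : Tr := .node ⟨nat_lit 8, nat_lit 0x80004000200020, nat_lit 0x10210, nat_lit 1, nat_lit 4, nat_lit 0x49⟩ (.nil) (.nil)
def t14_3777 : Tr := .node ⟨nat_lit 7, nat_lit 0x20004000600060, nat_lit 0x22110, nat_lit 1, nat_lit 3, nat_lit 0x46⟩ (.nil) (.nil)
def t14_11969 : Tr := .node ⟨nat_lit 6, nat_lit 0x10001000200030, nat_lit 0x102210, nat_lit 5, nat_lit 4, nat_lit 0x48⟩ (.nil) (.nil)
def t14_7873 : Tr := .node ⟨nat_lit 7, nat_lit 0x40002000500068, nat_lit 0x2110, nat_lit 1, nat_lit 4, nat_lit 0x46⟩ (.nil) (.nil)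
def t9_193 : Tr := .node ⟨nat_lit 6, nat_lit 0x200010, nat_lit 0x23101, nat_lit 1, nat_lit 4, nat_lit 0x4a⟩ (.node ⟨nat_lit 7, nat_lit 0x20004000440064, nat_lit 0x3111002, nat_lit 1, nat_lit 4, nat_lit 0x49⟩ (.node ⟨nat_lit 5, nat_lit 0x1000100010, nat_lit 0x3221, nat_lit 5, nat_lit 4, nat_lit 0x49⟩ (.node ⟨nat_lit 5, nat_lit 0x40018, nat_lit 0x21104, nat_lit 2, nat_lit 4, nat_lit 0x48⟩ (.node ⟨nat_lit 6, nat_lit 0x2000200010, nat_lit 0x22102, nat_lit 5, nat_lit 4, nat_lit 0x4a⟩ (t14_193) (t14_8385)) (.node ⟨nat_lit 6, nat_lit 0x2000100024, nat_lit 0x10111, nat_lit 0, nat_lit 4, nat_lit 0x46⟩ (t14_4289) (t14_12481))) (.node ⟨nat_lit 5, nat_lit 0x100018, nat_lit 0x12213, nat_lit 4, nat_lit 4, nat_lit 0x49⟩ (.node ⟨nat_lit 7, nat_lit 0x4000200070, nat_lit 0x101213, nat_lit 0, nat_lit 4, nat_lit 0x48⟩ (t14_2241) (t14_10433)) (.node ⟨nat_lit 7, nat_lit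 0x4000400060, nat_lit 0x121202, nat_lit 3, nat_lit 4, nat_lit 0x4a⟩ (t14_6337) (t14_14529)))) (.node ⟨nat_lit 5, nat_lit 0x80010, nat_lit 0x11211, nat_lit 7, nat_lit 4, nat_lit 0x49⟩ (.node ⟨nat_lit 6, nat_lit 0x2000080030, nat_lit 0x121311, nat_lit 1, nat_lit 4, nat_lit 0x49⟩ (.node ⟨nat_lit 7, nat_lit 0x400020, nat_lit 0x111104, nat_lit 0, nat_lit 4, nat_lit 0x4b⟩ (t14_1217) (t14_9409)) (.node ⟨nat_lit 7, nat_lit 0x5000600060, nat_lit 0x1012211, nat_lit 1, nat_lit 4, nat_lit 0x48⟩ (t14_5313) (t14_13505))) (.node ⟨nat_lit 7, nat_lit 0x20004000100060, nat_lit 0x112020, nat_lit 1, nat_lit 4, nat_lit 0x48⟩ (.node ⟨nat_lit 7, nat_lit 0x40004000100068, nat_lit 0x110101, nat_lit 1, nat_lit 4, nat_lit 0x47⟩ (t14_3265) (t14_11457)) (.node ⟨nat_lit 7, nat_lit 0x1000080060, nat_lit 0x1101002, nat_lit 3, nat_lit 4, nat_lit 0x49⟩ (t14_7361) (t14_15553)))))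 (.node ⟨nat_lit 4, nat_lit 0xc, nat_lit 0x1031, nat_lit 9, nat_lit 4, nat_lit 0x48⟩ (.node ⟨nat_lit 6, nat_lit 0x80030, nat_lit 0x100201, nat_lit 1, nat_lit 4, nat_lit 0x47⟩ (.node ⟨nat_lit 5, nat_lit 0x40018, nat_lit 0x11021, nat_lit 0, nat_lit 4, nat_lit 0x45⟩ (.node ⟨nat_lit 6, nat_lit 0x1000080020, nat_lit 0x112200, nat_lit 2, nat_lit 4, nat_lit 0x49⟩ (t14_705) (t14_8897)) (.node ⟨nat_lit 7, nat_lit 0x40002000500064, nat_lit 0x103210, nat_lit 0, nat_lit 4, nat_lit 0x47⟩ (t14_4801) (t14_12993))) (.node ⟨nat_lit 6, nat_lit 0x200030, nat_lit 0x1100, nat_lit 0, nat_lit 4, nat_lit 0x46⟩ (.node ⟨nat_lit 7, nat_lit 0x40001000480060, nat_lit 0x211113, nat_lit 0, nat_lit 4, nat_lit 0x48⟩ (t14_2753) (t14_10945)) (.node ⟨nat_lit 7, nat_lit 0x40005800680070, nat_lit 0x1110212, nat_lit 2, nat_lit 4, nat_lit 0x46⟩ (t14_6849) (t14_15041)))) (.node ⟨nat_lit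 6, nat_lit 0x200020, nat_lit 0x111122, nat_lit 0, nat_lit 4, nat_lit 0x4a⟩ (.node ⟨nat_lit 6, nat_lit 0x800280030, nat_lit 0x11102, nat_lit 1, nat_lit 4, nat_lit 0x46⟩ (.node ⟨nat_lit 5, nat_lit 0x80010, nat_lit 0x100, nat_lit 3, nat_lit 4, nat_lit 0x45⟩ (t14_1729) (t14_9921)) (.node ⟨nat_lit 5, nat_lit 0, nat_lit 0x22000, nat_lit 0, nat_lit 4, nat_lit 0x48⟩ (t14_5825) (t14_14017))) (.node ⟨nat_lit 6, nat_lit 0x2000280034, nat_lit 0x101212, nat_lit 2, nat_lit 4, nat_lit 0x47⟩ (.node ⟨nat_lit 7, nat_lit 0x20001000600050, nat_lit 0x10103, nat_lit 2, nat_lit 4, nat_lit 0x47⟩ (t14_3777) (t14_11969)) (.node ⟨nat_lit 8, nat_lit 0x80008800c000c0, nat_lit 0x10111121, nat_lit 0, nat_lit 4, nat_lit 0x49⟩ (t14_7873) (.nil)))))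
def t14_449 : Tr := .node ⟨nat_lit 8, nat_lit 0x8000800040004000a000a0, nat_lit 0x11111011, nat_lit 1, nat_lit 4, nat_lit 0x49⟩ (.nil) (.nil)
def t14_8641 : Tr := .node ⟨nat_lit 5, nat_lit 0x18, nat_lit 0, nat_lit 1, nat_lit 4, nat_lit 0x44⟩ (.nil) (.nil)
def t14_4545 : Tr := .node ⟨nat_lit 5, nat_lit 0x180018, nat_lit 0x10221, nat_lit 8, nat_lit 4, nat_lit 0x48⟩ (.nil) (.nil)
def t14_12737 : Tr := .node ⟨nat_lit 6, nat_lit 0x800200030, nat_lit 0x20020, nat_lit 5, nat_lit 4, nat_lit 0x48⟩ (.nil) (.nil)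
def t14_2497 : Tr := .node ⟨nat_lit 5, nat_lit 0x140018, nat_lit 0x2102, nat_lit 5, nat_lit 4, nat_lit 0x47⟩ (.nil) (.nil)
def t14_10689 : Tr := .node ⟨nat_lit 7, nat_lit 0x20002000500068, nat_lit 0x11002, nat_lit 1, nat_lit 4, nat_lit 0x46⟩ (.nil) (.nil)
def t14_6593 : Tr := .node ⟨nat_lit 7, nat_lit 0x10004000600064, nat_lit 0x1000202, nat_lit 2, nat_lit 4, nat_lit 0x47⟩ (.nil) (.nil)
def t14_14785 : Tr := .node ⟨nat_lit 6, nat_lit 0x20002000100030, nat_lit 0x11122, nat_lit 5, nat_lit 4, nat_lit 0x48⟩ (.nil) (.nil)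
def t14_1473 : Tr := .node ⟨nat_lit 6, nat_lit 0x10002000200034, nat_lit 0x11201, nat_lit 5, nat_lit 4, nat_lit 0x47⟩ (.nil) (.nil)
def t14_9665 : Tr := .node ⟨nat_lit 7, nat_lit 0x10004000600060, nat_lit 0x100022, nat_lit 1, nat_lit 4, nat_lit 0x47⟩ (.nil) (.nil)
def t14_5569 : Tr := .node ⟨nat_lit 7, nat_lit 0x4000440060, nat_lit 0x111220, nat_lit 3, nat_lit 4, nat_lit 0x49⟩ (.nil) (.nil)
def t14_13761 : Tr := .node ⟨nat_lit 8, nat_lit 0x800040004000a000d0, nat_lit 0x21100, nat_lit 0, nat_lit 4, nat_lit 0x47⟩ (.nil) (.nil)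
def t14_3521 : Tr := .node ⟨nat_lit 7, nat_lit 0x40004800300060, nat_lit 0x1001, nat_lit 0, nat_lit 4, nat_lit 0x45⟩ (.nil) (.nil)
def t14_11713 : Tr := .node ⟨nat_lit 7, nat_lit 0x10005000600060, nat_lit 0x12110, nat_lit 0, nat_lit 4, nat_lit 0x46⟩ (.nil) (.nil)
def t14_7617 : Tr := .node ⟨nat_lit 5, nat_lit 0x100010, nat_lit 0x1143, nat_lit 1, nat_lit 3, nat_lit 0x47⟩ (.nil) (.nil)
def t14_961 : Tr := .node ⟨nat_lit 3, nat_lit 6, nat_lit 0x203, nat_lit 9, nat_lit 4, nat_lit 0x46⟩ (.nil) (.nil)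
def t14_9153 : Tr := .node ⟨nat_lit 9, nat_lit 0x100010000800080012001400180, nat_lit 0x110002, nat_lit 3, nat_lit 4, nat_lit 0x48⟩ (.nil) (.nil)
def t14_5057 : Tr := .node ⟨nat_lit 7, nat_lit 0x4000100060, nat_lit 0x101101, nat_lit 1, nat_lit 4, nat_lit 0x48⟩ (.nil) (.nil)
def t14_13249 : Tr := .node ⟨nat_lit 6, nat_lit 0x20001000100010, nat_lit 0x301100, nat_lit 0, nat_lit 3, nat_lit 0x47⟩ (.nil) (.nil)
def t14_3009 : Tr := .node ⟨nat_lit 6, nat_lit 0x10002000240034, nat_lit 0x203101, nat_lit 2, nat_lit 4, nat_lit 0x47⟩ (.nil) (.nil)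
def t14_11201 : Tr := .node ⟨nat_lit 7, nat_lit 0x40001000600070, nat_lit 0x1001002, nat_lit 1, nat_lit 4, nat_lit 0x46⟩ (.nil) (.nil)
def t14_7105 : Tr := .node ⟨nat_lit 6, nat_lit 0x300030, nat_lit 0x103111, nat_lit 3, nat_lit 4, nat_lit 0x49⟩ (.nil) (.nil)
def t14_15297 : Tr := .node ⟨nat_lit 8, nat_lit 0x4000a0006000c0, nat_lit 0x110121, nat_lit 1, nat_lit 4, nat_lit 0x48⟩ (.nil) (.nil)
def t14_1985 : Tr := .node ⟨nat_lit 4, nat_lit 0x80008, nat_lit 0x210, nat_lit 9, nat_lit 4, nat_lit 0x47⟩ (.nil) (.nil)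
def t14_10177 : Tr := .node ⟨nat_lit 6, nat_lit 0x800300028, nat_lit 0x100102, nat_lit 2, nat_lit 4, nat_lit 0x46⟩ (.nil) (.nil)
def t14_6081 : Tr := .node ⟨nat_lit 9, nat_lit 0x10001000080, nat_lit 0x11111100, nat_lit 2, nat_lit 4, nat_lit 0x4d⟩ (.nil) (.nil)
def t14_14273 : Tr := .node ⟨nat_lit 8, nat_lit 0x4000800080, nat_lit 0x110200, nat_lit 0, nat_lit 4, nat_lit 0x4a⟩ (.nil) (.nil)
def t14_4033 : Tr := .node ⟨nat_lit 7, nat_lit 0x10002000500060, nat_lit 0x11012, nat_lit 2, nat_lit 4, nat_lit 0x47⟩ (.nil) (.nil)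
def t14_12225 : Tr := .node ⟨nat_lit 7, nat_lit 0x2000400060, nat_lit 0x111010, nat_lit 0, nat_lit 4, nat_lit 0x48⟩ (.nil) (.nil)
def t14_8129 : Tr := .node ⟨nat_lit 5, nat_lit 0x100018001c, nat_lit 0x1203, nat_lit 7, nat_lit 4, nat_lit 0x46⟩ (.nil) (.nil)
def t9_449 : Tr := .node ⟨nat_lit 4, nat_lit 0xc, nat_lit 0x3110, nat_lit 1, nat_lit 3, nat_lit 0x46⟩ (.node ⟨nat_lit 6, nat_lit 0x20002800280038, nat_lit 0x310202, nat_lit 4, nat_lit 4, nat_lit 0x48⟩ (.node ⟨nat_lit 6, nat_lit 0x2000080030, nat_lit 0x20132, nat_lit 0, nat_lit 4, nat_lit 0x47⟩ (.node ⟨nat_lit 5, nat_lit 0x800100018, nat_lit 0x10122, nat_lit 3, nat_lit 4, nat_lit 0x46⟩ (.node ⟨nat_lit 5, nat_lit 0x140018, nat_lit 0x12001, nat_lit 2, nat_lit 4, nat_lit 0x46⟩ (t14_449) (t14_8641)) (.node ⟨nat_lit 5, nat_lit 0x100008, nat_lit 0x12202, nat_lit 7, nat_lit 4, nat_lit 0x4a⟩ (t14_4545)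 (t14_12737))) (.node ⟨nat_lit 4, nat_lit 0x8000e, nat_lit 0x1022, nat_lit 8, nat_lit 4, nat_lit 0x46⟩ (.node ⟨nat_lit 7, nat_lit 0x20004000680070, nat_lit 0x1111113, nat_lit 0, nat_lit 4, nat_lit 0x47⟩ (t14_2497) (t14_10689)) (.node ⟨nat_lit 7, nat_lit 0x20004000440060, nat_lit 0x112221, nat_lit 0, nat_lit 4, nat_lit 0x48⟩ (t14_6593) (t14_14785)))) (.node ⟨nat_lit 5, nat_lit 0x18, nat_lit 0x11210, nat_lit 0, nat_lit 4, nat_lit 0x47⟩ (.node ⟨nat_lit 6, nat_lit 0x2000100032, nat_lit 0x121221, nat_lit 2, nat_lit 4, nat_lit 0x49⟩ (.node ⟨nat_lit 7, nat_lit 0x4000400060, nat_lit 0x11100, nat_lit 0, nat_lit 4, nat_lit 0x48⟩ (t14_1473) (t14_9665)) (.node ⟨nat_lit 7, nat_lit 0x10004000180060, nat_lit 0x1112110, nat_lit 0, nat_lit 4, nat_lit 0x48⟩ (t14_5569) (t14_13761))) (.node ⟨nat_lit 6, nat_lit 0x2000100010, nat_lit 0x1021, nat_lit 1, nat_lit 4, nat_lit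 0x47⟩ (.node ⟨nat_lit 6, nat_lit 0x800200030, nat_lit 0x1000, nat_lit 3, nat_lit 4, nat_lit 0x46⟩ (t14_3521) (t14_11713)) (.node ⟨nat_lit 4, nat_lit 0x8000c, nat_lit 0x2130, nat_lit 2, nat_lit 3, nat_lit 0x46⟩ (t14_7617) (.nil))))) (.node ⟨nat_lit 7, nat_lit 0x2000500060, nat_lit 0x23111, nat_lit 0, nat_lit 4, nat_lit 0x49⟩ (.node ⟨nat_lit 5, nat_lit 0x100010, nat_lit 0x12120, nat_lit 1, nat_lit 3, nat_lit 0x47⟩ (.node ⟨nat_lit 7, nat_lit 0x1000200040, nat_lit 0x1111111, nat_lit 2, nat_lit 4, nat_lit 0x4a⟩ (.node ⟨nat_lit 3, nat_lit 0x40006, nat_lit 0x230, nat_lit 0xf, nat_lit 4, nat_lit 0x48⟩ (t14_961) (t14_9153)) (.node ⟨nat_lit 6, nat_lit 0x20, nat_lit 0x122220, nat_lit 0, nat_lit 3, nat_lit 0x4a⟩ (t14_5057) (t14_13249))) (.node ⟨nat_lit 4, nat_lit 0x40008, nat_lit 0x1131, nat_lit 5, nat_lit 4, nat_lit 0x47⟩ (.node ⟨nat_lit 6, nat_lit 0x2000200030,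 nat_lit 0x11201, nat_lit 1, nat_lit 3, nat_lit 0x46⟩ (t14_3009) (t14_11201)) (.node ⟨nat_lit 9, nat_lit 0x400100008001080180, nat_lit 0x100102002, nat_lit 2, nat_lit 4, nat_lit 0x4a⟩ (t14_7105) (t14_15297)))) (.node ⟨nat_lit 6, nat_lit 0x20, nat_lit 0x211110, nat_lit 0, nat_lit 4, nat_lit 0x4a⟩ (.node ⟨nat_lit 7, nat_lit 0x40004000100068, nat_lit 0x1211111, nat_lit 1, nat_lit 4, nat_lit 0x49⟩ (.node ⟨nat_lit 7, nat_lit 0x40004000200060, nat_lit 0x112131, nat_lit 0, nat_lit 4, nat_lit 0x49⟩ (t14_1985) (t14_10177)) (.node ⟨nat_lit 6, nat_lit 0x1800280030, nat_lit 0x10202, nat_lit 1, nat_lit 4, nat_lit 0x45⟩ (t14_6081) (t14_14273))) (.node ⟨nat_lit 6, nat_lit 0x200010, nat_lit 0x32100, nat_lit 1, nat_lit 3, nat_lit 0x49⟩ (.node ⟨nat_lit 8, nat_lit 0x2000c000c000a0, nat_lit 0x111003, nat_lit 0, nat_lit 4, nat_lit 0x48⟩ (t14_4033) (t14_12225)) (.node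 ⟨nat_lit 8, nat_lit 0x8000800020008800d0, nat_lit 0x11111101, nat_lit 1, nat_lit 4, nat_lit 0x49⟩ (t14_8129) (.nil)))))
def t14_33 : Tr := .node ⟨nat_lit 7, nat_lit 0x400020, nat_lit 0x111100, nat_lit 5, nat_lit 4, nat_lit 0x4b⟩ (.nil) (.nil)
def t14_8225 : Tr := .node ⟨nat_lit 8, nat_lit 0x800040005000a000a000d0, nat_lit 0x111103, nat_lit 0, nat_lit 4, nat_lit 0x45⟩ (.nil) (.nil)
def t14_4129 : Tr := .node ⟨nat_lit 7, nat_lit 0x40004000100060, nat_lit 0x111102, nat_lit 1, nat_lit 4, nat_lit 0x48⟩ (.nil) (.nil)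
def t14_12321 : Tr := .node ⟨nat_lit 7, nat_lit 0x1000600050, nat_lit 0x2110, nat_lit 0, nat_lit 4, nat_lit 0x47⟩ (.nil) (.nil)
def t14_2081 : Tr := .node ⟨nat_lit 6, nat_lit 0x20001000100028, nat_lit 0x101300, nat_lit 3, nat_lit 4, nat_lit 0x47⟩ (.nil) (.nil)
def t14_10273 : Tr := .node ⟨nat_lit 6, nat_lit 0x1000280034, nat_lit 0x100010, nat_lit 0, nat_lit 4, nat_lit 0x44⟩ (.nil) (.nil)
def t14_6177 : Tr := .node ⟨nat_lit 5, nat_lit 0x1000100008, nat_lit 0x1101, nat_lit 7, nat_lit 4, nat_lit 0x47⟩ (.nil) (.nil)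
def t14_14369 : Tr := .node ⟨nat_lit 8, nat_lit 0x2000c000c00030, nat_lit 0x1110, nat_lit 0, nat_lit 4, nat_lit 0x46⟩ (.nil) (.nil)
def t14_1057 : Tr := .node ⟨nat_lit 5, nat_lit 0x40018, nat_lit 0x10021, nat_lit 4, nat_lit 4, nat_lit 0x46⟩ (.nil) (.nil)
def t14_9249 : Tr := .node ⟨nat_lit 9, nat_lit 0x4001000080011001800190, nat_lit 0x10121, nat_lit 0, nat_lit 4, nat_lit 0x47⟩ (.nil) (.nil)
def t14_5153 : Tr := .node ⟨nat_lit 7, nat_lit 0x10004000400060, nat_lit 0x100301, nat_lit 1, nat_lit 4, nat_lit 0x48⟩ (.nil) (.nil)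
def t14_13345 : Tr := .node ⟨nat_lit 6, nat_lit 0x800300028, nat_lit 0x10420, nat_lit 1, nat_lit 4, nat_lit 0x47⟩ (.nil) (.nil)
def t14_3105 : Tr := .node ⟨nat_lit 6, nat_lit 0x800280030, nat_lit 0x20210, nat_lit 0, nat_lit 4, nat_lit 0x46⟩ (.nil) (.nil)
def t14_11297 : Tr := .node ⟨nat_lit 7, nat_lit 0x20005000600070, nat_lit 0x11202, nat_lit 3, nat_lit 4, nat_lit 0x46⟩ (.nil) (.nil)
def t14_7201 : Tr := .node ⟨nat_lit 7, nat_lit 0x30003000500060, nat_lit 0x2002111, nat_lit 0, nat_lit 4, nat_lit 0x46⟩ (.nil) (.nil)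
def t14_15393 : Tr := .node ⟨nat_lit 0xb, nat_lit 0x20001000100008000800400, nat_lit 0x10001010101, nat_lit 0, nat_lit 4, nat_lit 0x4c⟩ (.nil) (.nil)
def t14_545 : Tr := .node ⟨nat_lit 7, nat_lit 0x40001000500068, nat_lit 0x2021, nat_lit 1, nat_lit 4, nat_lit 0x46⟩ (.nil) (.nil)
def t14_8737 : Tr := .node ⟨nat_lit 8, nat_lit 0x20002800c000a0, nat_lit 0x11110, nat_lit 0, nat_lit 4, nat_lit 0x47⟩ (.nil) (.nil)
def t14_4641 : Tr := .node ⟨nat_lit 7, nat_lit 0x1800180060, nat_lit 0x1110210, nat_lit 0, nat_lit 4, nat_lit 0x47⟩ (.nil) (.nil)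
def t14_12833 : Tr := .node ⟨nat_lit 7, nat_lit 0x10006000600050, nat_lit 0x10220, nat_lit 1, nat_lit 4, nat_lit 0x46⟩ (.nil) (.nil)
def t14_2593 : Tr := .node ⟨nat_lit 7, nat_lit 0x2000500060, nat_lit 0x102013, nat_lit 0, nat_lit 4, nat_lit 0x48⟩ (.nil) (.nil)
def t14_10785 : Tr := .node ⟨nat_lit 6, nat_lit 0x2000080010, nat_lit 0x12011, nat_lit 8, nat_lit 3, nat_lit 0x48⟩ (.nil) (.nil)
def t14_6689 : Tr := .node ⟨nat_lit 7, nat_lit 0x4000200020, nat_lit 0x11010, nat_lit 7, nat_lit 4, nat_lit 0x4a⟩ (.nil) (.nil)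
def t14_14881 : Tr := .node ⟨nat_lit 7, nat_lit 0x4000400040, nat_lit 0x222110, nat_lit 0, nat_lit 3, nat_lit 0x49⟩ (.nil) (.nil)
def t14_1569 : Tr := .node ⟨nat_lit 7, nat_lit 0x40004800300068, nat_lit 0x1011002, nat_lit 0, nat_lit 4, nat_lit 0x46⟩ (.nil) (.nil)
def t14_9761 : Tr := .node ⟨nat_lit 6, nat_lit 0x800300030, nat_lit 0x30, nat_lit 0, nat_lit 4, nat_lit 0x45⟩ (.nil) (.nil)
def t14_5665 : Tr := .node ⟨nat_lit 9, nat_lit 0x80014001400180, nat_lit 0x110202, nat_lit 1, nat_lit 4, nat_lit 0x49⟩ (.nil) (.nil)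
def t14_13857 : Tr := .node ⟨nat_lit 7, nat_lit 0x20004000600050, nat_lit 0x10230, nat_lit 0, nat_lit 4, nat_lit 0x47⟩ (.nil) (.nil)
def t14_3617 : Tr := .node ⟨nat_lit 8, nat_lit 0x400020002000c000a0, nat_lit 0x10012021, nat_lit 0, nat_lit 4, nat_lit 0x48⟩ (.nil) (.nil)
def t14_11809 : Tr := .node ⟨nat_lit 7, nat_lit 0x40004000480030, nat_lit 0x100203, nat_lit 1, nat_lit 4, nat_lit 0x47⟩ (.nil) (.nil)
def t14_7713 : Tr := .node ⟨nat_lit 7, nat_lit 0x40001000100060, nat_lit 0x1102, nat_lit 0, nat_lit 4, nat_lit 0x46⟩ (.nil) (.nil)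
def t9_33 : Tr := .node ⟨nat_lit 4, nat_lit 8, nat_lit 0x3311, nat_lit 7, nat_lit 4, nat_lit 0x4a⟩ (.node ⟨nat_lit 5, nat_lit 0x800100012, nat_lit 0x32211, nat_lit 3, nat_lit 4, nat_lit 0x49⟩ (.node ⟨nat_lit 6, nat_lit 0x2000300030, nat_lit 0x4120, nat_lit 3, nat_lit 4, nat_lit 0x48⟩ (.node ⟨nat_lit 5, nat_lit 0x18, nat_lit 0x10211, nat_lit 4, nat_lit 4, nat_lit 0x48⟩ (.node ⟨nat_lit 6, nat_lit 0x10001000200022, nat_lit 0x202230, nat_lit 0, nat_lit 4, nat_lit 0x48⟩ (t14_33) (t14_8225)) (.node ⟨nat_lit 6, nat_lit 0x20002000280028, nat_lit 0x20000, nat_lit 3, nat_lit 4, nat_lit 0x46⟩ (t14_4129) (t14_12321))) (.node ⟨nat_lit 4, nat_lit 0x8000c, nat_lit 0x2112, nat_lit 0xc, nat_lit 4, nat_lit 0x48⟩ (.node ⟨nat_lit 4, nat_lit 8, nat_lit 0x114, nat_lit 3, nat_lit 3, nat_lit 0x46⟩ (t14_2081) (t14_10273)) (.node ⟨nat_lit 7, nat_lit 0x40003000500060, nat_lit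 0x202201, nat_lit 0, nat_lit 4, nat_lit 0x47⟩ (t14_6177) (t14_14369)))) (.node ⟨nat_lit 4, nat_lit 0x80004, nat_lit 0x3103, nat_lit 1, nat_lit 3, nat_lit 0x46⟩ (.node ⟨nat_lit 5, nat_lit 0x1000080008, nat_lit 0x22111, nat_lit 1, nat_lit 3, nat_lit 0x47⟩ (.node ⟨nat_lit 6, nat_lit 0x30000c, nat_lit 0x101111, nat_lit 1, nat_lit 4, nat_lit 0x47⟩ (t14_1057) (t14_9249)) (.node ⟨nat_lit 4, nat_lit 0x40008, nat_lit 0x2120, nat_lit 9, nat_lit 4, nat_lit 0x48⟩ (t14_5153) (t14_13345))) (.node ⟨nat_lit 5, nat_lit 0x100010, nat_lit 0x11120, nat_lit 7, nat_lit 4, nat_lit 0x49⟩ (.node ⟨nat_lit 9, nat_lit 0x400080010000200180, nat_lit 0x110000003, nat_lit 1, nat_lit 4, nat_lit 0x4a⟩ (t14_3105) (t14_11297)) (.node ⟨nat_lit 8, nat_lit 0x800020004000a000c0, nat_lit 0x102022, nat_lit 0, nat_lit 4, nat_lit 0x48⟩ (t14_7201) (t14_15393))))) (.node ⟨nat_lit 7, nat_lit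 0x400060, nat_lit 0x132110, nat_lit 1, nat_lit 4, nat_lit 0x4b⟩ (.node ⟨nat_lit 5, nat_lit 0x10, nat_lit 0x12211, nat_lit 1, nat_lit 3, nat_lit 0x48⟩ (.node ⟨nat_lit 5, nat_lit 0x100018, nat_lit 0x210, nat_lit 3, nat_lit 4, nat_lit 0x46⟩ (.node ⟨nat_lit 9, nat_lit 0x100010001100110014001a0, nat_lit 0x21001011, nat_lit 1, nat_lit 4, nat_lit 0x48⟩ (t14_545) (t14_8737)) (.node ⟨nat_lit 7, nat_lit 0x20004000400064, nat_lit 0x1110212, nat_lit 1, nat_lit 4, nat_lit 0x49⟩ (t14_4641) (t14_12833))) (.node ⟨nat_lit 6, nat_lit 0x800200030, nat_lit 0x100012, nat_lit 0, nat_lit 3, nat_lit 0x45⟩ (.node ⟨nat_lit 6, nat_lit 0x800280030, nat_lit 0x111302, nat_lit 1, nat_lit 4, nat_lit 0x48⟩ (t14_2593) (t14_10785)) (.node ⟨nat_lit 7, nat_lit 0x4000600060, nat_lit 0x121220, nat_lit 0, nat_lit 4, nat_lit 0x49⟩ (t14_6689) (t14_14881)))) (.node ⟨nat_lit 6, nat_lit 0x2000080010,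 nat_lit 0x21221, nat_lit 0, nat_lit 4, nat_lit 0x48⟩ (.node ⟨nat_lit 5, nat_lit 0x100018, nat_lit 0x20211, nat_lit 4, nat_lit 4, nat_lit 0x48⟩ (.node ⟨nat_lit 4, nat_lit 8, nat_lit 0x321, nat_lit 5, nat_lit 3, nat_lit 0x47⟩ (t14_1569) (t14_9761)) (.node ⟨nat_lit 5, nat_lit 0x1000080018, nat_lit 0x11111, nat_lit 2, nat_lit 4, nat_lit 0x46⟩ (t14_5665) (t14_13857))) (.node ⟨nat_lit 6, nat_lit 0x80030, nat_lit 0x201102, nat_lit 0, nat_lit 4, nat_lit 0x48⟩ (.node ⟨nat_lit 6, nat_lit 0x1000200030, nat_lit 0x2000, nat_lit 2, nat_lit 4, nat_lit 0x46⟩ (t14_3617) (t14_11809)) (.node ⟨nat_lit 6, nat_lit 0x20001000280034, nat_lit 0x111200, nat_lit 5, nat_lit 4, nat_lit 0x47⟩ (t14_7713) (.nil)))))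
def t14_289 : Tr := .node ⟨nat_lit 7, nat_lit 0x40002000100060, nat_lit 0x121101, nat_lit 0, nat_lit 4, nat_lit 0x48⟩ (.nil) (.nil)
def t14_8481 : Tr := .node ⟨nat_lit 7, nat_lit 0x4000200060, nat_lit 0x10201, nat_lit 1, nat_lit 4, nat_lit 0x48⟩ (.nil) (.nil)
def t14_4385 : Tr := .node ⟨nat_lit 7, nat_lit 0x40001000480060, nat_lit 0x1010002, nat_lit 1, nat_lit 4, nat_lit 0x47⟩ (.nil) (.nil)
def t14_12577 : Tr := .node ⟨nat_lit 7, nat_lit 0x3000600050, nat_lit 0x1001103, nat_lit 0, nat_lit 4, nat_lit 0x47⟩ (.nil) (.nil)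
def t14_2337 : Tr := .node ⟨nat_lit 9, nat_lit 0x4001000080011001880188, nat_lit 0x20020010, nat_lit 1, nat_lit 4, nat_lit 0x48⟩ (.nil) (.nil)
def t14_10529 : Tr := .node ⟨nat_lit 7, nat_lit 0x40003000500060, nat_lit 0x2020, nat_lit 2, nat_lit 4, nat_lit 0x46⟩ (.nil) (.nil)
def t14_6433 : Tr := .node ⟨nat_lit 8, nat_lit 0x400080008000840088, nat_lit 0x10101101, nat_lit 2, nat_lit 4, nat_lit 0x49⟩ (.nil) (.nil)
def t14_14625 : Tr := .node ⟨nat_lit 8, nat_lit 0x8000800090009000c0, nat_lit 0x1111111, nat_lit 3, nat_lit 4, nat_lit 0x49⟩ (.nil) (.nil)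
def t14_1313 : Tr := .node ⟨nat_lit 8, nat_lit 0x8000800040004000a000c8, nat_lit 0x1011102, nat_lit 1, nat_lit 4, nat_lit 0x47⟩ (.nil) (.nil)
def t14_9505 : Tr := .node ⟨nat_lit 8, nat_lit 0x4000800080008000880090, nat_lit 0x11001, nat_lit 9, nat_lit 4, nat_lit 0x49⟩ (.nil) (.nil)
def t14_5409 : Tr := .node ⟨nat_lit 7, nat_lit 0x40001000100060, nat_lit 0x104102, nat_lit 1, nat_lit 4, nat_lit 0x48⟩ (.nil) (.nil)
def t14_13601 : Tr := .node ⟨nat_lit 5, nat_lit 0x100018001c, nat_lit 0x120, nat_lit 7, nat_lit 4, nat_lit 0x45⟩ (.nil) (.nil)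
def t14_3361 : Tr := .node ⟨nat_lit 8, nat_lit 0x8000c000a00090, nat_lit 0x12021, nat_lit 1, nat_lit 4, nat_lit 0x48⟩ (.nil) (.nil)
def t14_11553 : Tr := .node ⟨nat_lit 6, nat_lit 0x800200030, nat_lit 0x211201, nat_lit 0, nat_lit 3, nat_lit 0x47⟩ (.nil) (.nil)
def t14_7457 : Tr := .node ⟨nat_lit 8, nat_lit 0x2000c000c0, nat_lit 0x10111111, nat_lit 1, nat_lit 4, nat_lit 0x4a⟩ (.nil) (.nil)
def t14_801 : Tr := .node ⟨nat_lit 7, nat_lit 0x4000400020, nat_lit 0x111311, nat_lit 1, nat_lit 4, nat_lit 0x4a⟩ (.nil) (.nil)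
def t14_8993 : Tr := .node ⟨nat_lit 6, nat_lit 0x2000100010, nat_lit 0x102122, nat_lit 1, nat_lit 3, nat_lit 0x47⟩ (.nil) (.nil)
def t14_4897 : Tr := .node ⟨nat_lit 8, nat_lit 0x800080, nat_lit 0x11111111, nat_lit 0, nat_lit 4, nat_lit 0x4d⟩ (.nil) (.nil)
def t14_13089 : Tr := .node ⟨nat_lit 8, nat_lit 0x2000800040008800c8, nat_lit 0x2002, nat_lit 1, nat_lit 4, nat_lit 0x47⟩ (.nil) (.nil)
def t14_2849 : Tr := .node ⟨nat_lit 7, nat_lit 0x40004000580068, nat_lit 0x1010020, nat_lit 3, nat_lit 4, nat_lit 0x47⟩ (.nil) (.nil)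
def t14_11041 : Tr := .node ⟨nat_lit 5, nat_lit 0x40018, nat_lit 0x21000, nat_lit 5, nat_lit 4, nat_lit 0x47⟩ (.nil) (.nil)
def t14_6945 : Tr := .node ⟨nat_lit 6, nat_lit 0x800280030, nat_lit 0x112112, nat_lit 1, nat_lit 4, nat_lit 0x48⟩ (.nil) (.nil)
def t14_15137 : Tr := .node ⟨nat_lit 8, nat_lit 0x400040008000840060, nat_lit 0x10021110, nat_lit 0, nat_lit 4, nat_lit 0x48⟩ (.nil) (.nil)
def t14_1825 : Tr := .node ⟨nat_lit 6, nat_lit 0x1000280034, nat_lit 0x112320, nat_lit 1, nat_lit 4, nat_lit 0x48⟩ (.nil) (.nil)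
def t14_10017 : Tr := .node ⟨nat_lit 6, nat_lit 0x2000300028, nat_lit 0x101202, nat_lit 2, nat_lit 3, nat_lit 0x46⟩ (.nil) (.nil)
def t14_5921 : Tr := .node ⟨nat_lit 7, nat_lit 0x40002000480060, nat_lit 0x112120, nat_lit 1, nat_lit 4, nat_lit 0x48⟩ (.nil) (.nil)
def t14_14113 : Tr := .node ⟨nat_lit 7, nat_lit 0x20004000100060, nat_lit 0x1010, nat_lit 1, nat_lit 4, nat_lit 0x46⟩ (.nil) (.nil)
def t14_3873 : Tr := .node ⟨nat_lit 7, nat_lit 0x4000400060, nat_lit 0x211102, nat_lit 2, nat_lit 4, nat_lit 0x4a⟩ (.nil) (.nil)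
def t14_12065 : Tr := .node ⟨nat_lit 7, nat_lit 0x2000400060, nat_lit 0x1011300, nat_lit 0, nat_lit 4, nat_lit 0x49⟩ (.nil) (.nil)
def t14_7969 : Tr := .node ⟨nat_lit 5, nat_lit 0x10001000180018, nat_lit 0x1121, nat_lit 0xc, nat_lit 4, nat_lit 0x47⟩ (.nil) (.nil)
def t9_289 : Tr := .node ⟨nat_lit 4, nat_lit 0xc, nat_lit 0x2230, nat_lit 1, nat_lit 3, nat_lit 0x47⟩ (.node ⟨nat_lit 6, nat_lit 0x2000200010, nat_lit 0x32102, nat_lit 1, nat_lit 4, nat_lit 0x4a⟩ (.node ⟨nat_lit 9, nat_lit 0x100008000400020, nat_lit 0x30000, nat_lit 7, nat_lit 4, nat_lit 0x4c⟩ (.node ⟨nat_lit 4, nat_lit 0x8000c000c, nat_lit 0x1122, nat_lit 8, nat_lit 4, nat_lit 0x46⟩ (.node ⟨nat_lit 6, nat_lit 0x2000100010, nat_lit 0x21021, nat_lit 1, nat_lit 4, nat_lit 0x49⟩ (t14_289) (t14_8481)) (.node ⟨nat_lit 6, nat_lit 0x2000200030, nat_lit 0x112103, nat_lit 1, nat_lit 3, nat_lit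 0x47⟩ (t14_4385) (t14_12577))) (.node ⟨nat_lit 7, nat_lit 0x40001000500068, nat_lit 0x2002122, nat_lit 0, nat_lit 4, nat_lit 0x48⟩ (.node ⟨nat_lit 8, nat_lit 0x8000800040009000a000c0, nat_lit 0x1112003, nat_lit 1, nat_lit 4, nat_lit 0x48⟩ (t14_2337) (t14_10529)) (.node ⟨nat_lit 8, nat_lit 0x8000c000c0, nat_lit 0x211210, nat_lit 1, nat_lit 4, nat_lit 0x4a⟩ (t14_6433) (t14_14625)))) (.node ⟨nat_lit 6, nat_lit 0x1000280034, nat_lit 0x121111, nat_lit 1, nat_lit 4, nat_lit 0x47⟩ (.node ⟨nat_lit 7, nat_lit 0x40004800480030, nat_lit 0x2211002, nat_lit 1, nat_lit 4, nat_lit 0x49⟩ (.node ⟨nat_lit 5, nat_lit 0x1000100008, nat_lit 0x1003, nat_lit 7, nat_lit 3, nat_lit 0x46⟩ (t14_1313) (t14_9505)) (.node ⟨nat_lit 8, nat_lit 0x8000a000c000c8, nat_lit 0x1012022, nat_lit 0, nat_lit 4, nat_lit 0x48⟩ (t14_5409) (t14_13601))) (.node ⟨nat_lit 6, nat_lit 0x1000200020,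 nat_lit 0x102210, nat_lit 1, nat_lit 4, nat_lit 0x48⟩ (.node ⟨nat_lit 7, nat_lit 0x40002000200048, nat_lit 0x2111300, nat_lit 0, nat_lit 4, nat_lit 0x4a⟩ (t14_3361) (t14_11553)) (.node ⟨nat_lit 8, nat_lit 0x4000800020002000c0, nat_lit 0x11011102, nat_lit 1, nat_lit 4, nat_lit 0x49⟩ (t14_7457) (.nil))))) (.node ⟨nat_lit 6, nat_lit 0x1000100020, nat_lit 0x203101, nat_lit 0, nat_lit 4, nat_lit 0x49⟩ (.node ⟨nat_lit 5, nat_lit 0x40018, nat_lit 0x11222, nat_lit 2, nat_lit 4, nat_lit 0x48⟩ (.node ⟨nat_lit 4, nat_lit 0x40008, nat_lit 0x1001, nat_lit 3, nat_lit 4, nat_lit 0x44⟩ (.node ⟨nat_lit 7, nat_lit 0x10004000400020, nat_lit 0x222110, nat_lit 0, nat_lit 4, nat_lit 0x4a⟩ (t14_801) (t14_8993)) (.node ⟨nat_lit 7, nat_lit 0x400040002000480050, nat_lit 0x1111201, nat_lit 2, nat_lit 4, nat_lit 0x48⟩ (t14_4897) (t14_13089))) (.node ⟨nat_lit 6, nat_lit 0x2000080030,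 nat_lit 0x1110, nat_lit 2, nat_lit 4, nat_lit 0x46⟩ (.node ⟨nat_lit 7, nat_lit 0x4000400060, nat_lit 0x211113, nat_lit 0, nat_lit 4, nat_lit 0x4a⟩ (t14_2849) (t14_11041)) (.node ⟨nat_lit 7, nat_lit 0x40003000500060, nat_lit 0x110222, nat_lit 0, nat_lit 4, nat_lit 0x47⟩ (t14_6945) (t14_15137)))) (.node ⟨nat_lit 6, nat_lit 0x200020, nat_lit 0x111121, nat_lit 2, nat_lit 4, nat_lit 0x4a⟩ (.node ⟨nat_lit 6, nat_lit 0x2000080030, nat_lit 0x201211, nat_lit 1, nat_lit 3, nat_lit 0x47⟩ (.node ⟨nat_lit 6, nat_lit 0x20002000100010, nat_lit 0x2011, nat_lit 1, nat_lit 4, nat_lit 0x46⟩ (t14_1825) (t14_10017)) (.node ⟨nat_lit 6, nat_lit 0x2000100030, nat_lit 0x12202, nat_lit 2, nat_lit 4, nat_lit 0x48⟩ (t14_5921) (t14_14113))) (.node ⟨nat_lit 7, nat_lit 0x4000400020, nat_lit 0x120301, nat_lit 0, nat_lit 4, nat_lit 0x4a⟩ (.node ⟨nat_lit 6, nat_lit 0x800300038,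 nat_lit 0x111303, nat_lit 0, nat_lit 4, nat_lit 0x47⟩ (t14_3873) (t14_12065)) (.node ⟨nat_lit 7, nat_lit 0x5000180060, nat_lit 0x111200, nat_lit 1, nat_lit 4, nat_lit 0x47⟩ (t14_7969) (.nil)))))
def t14_161 : Tr := .node ⟨nat_lit 7, nat_lit 0x5000600060, nat_lit 0x101121, nat_lit 1, nat_lit 4, nat_lit 0x47⟩ (.nil) (.nil)
def t14_8353 : Tr := .node ⟨nat_lit 6, nat_lit 0x2000240030, nat_lit 0x2240, nat_lit 2, nat_lit 4, nat_lit 0x48⟩ (.nil) (.nil)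
def t14_4257 : Tr := .node ⟨nat_lit 8, nat_lit 0x800040009000d000d0, nat_lit 0x20201010, nat_lit 1, nat_lit 4, nat_lit 0x48⟩ (.nil) (.nil)
def t14_12449 : Tr := .node ⟨nat_lit 8, nat_lit 0x400040008000c000d0, nat_lit 0x102130, nat_lit 1, nat_lit 4, nat_lit 0x48⟩ (.nil) (.nil)
def t14_2209 : Tr := .node ⟨nat_lit 8, nat_lit 0x8000800020009000c0, nat_lit 0x122010, nat_lit 1, nat_lit 4, nat_lit 0x49⟩ (.nil) (.nil)
def t14_10401 : Tr := .node ⟨nat_lit 8, nat_lit 0x8000400090009000c0, nat_lit 0x10102002, nat_lit 1, nat_lit 4, nat_lit 0x48⟩ (.nil) (.nil)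
def t14_6305 : Tr := .node ⟨nat_lit 6, nat_lit 0x2000200030, nat_lit 0x11210, nat_lit 3, nat_lit 4, nat_lit 0x48⟩ (.nil) (.nil)
def t14_14497 : Tr := .node ⟨nat_lit 7, nat_lit 0x40002000100060, nat_lit 0x11012, nat_lit 4, nat_lit 4, nat_lit 0x48⟩ (.nil) (.nil)
def t14_1185 : Tr := .node ⟨nat_lit 6, nat_lit 0x1000280034, nat_lit 0x11111, nat_lit 2, nat_lit 4, nat_lit 0x46⟩ (.nil) (.nil)
def t14_9377 : Tr := .node ⟨nat_lit 8, nat_lit 0x80002000c000d000a8, nat_lit 0x1120211, nat_lit 0, nat_lit 4, nat_lit 0x47⟩ (.nil) (.nil)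
def t14_5281 : Tr := .node ⟨nat_lit 6, nat_lit 0x1000280030, nat_lit 0x112102, nat_lit 2, nat_lit 4, nat_lit 0x48⟩ (.nil) (.nil)
def t14_13473 : Tr := .node ⟨nat_lit 7, nat_lit 0x20004000440030, nat_lit 0x1000203, nat_lit 0, nat_lit 4, nat_lit 0x47⟩ (.nil) (.nil)
def t14_3233 : Tr := .node ⟨nat_lit 8, nat_lit 0x80004000a000c0, nat_lit 0x1111021, nat_lit 0, nat_lit 4, nat_lit 0x49⟩ (.nil) (.nil)
def t14_11425 : Tr := .node ⟨nat_lit 8, nat_lit 0x400080008000c800c8, nat_lit 0x10111120, nat_lit 0, nat_lit 4, nat_lit 0x48⟩ (.nil) (.nil)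
def t14_7329 : Tr := .node ⟨nat_lit 7, nat_lit 0x10004000200064, nat_lit 0x2110211, nat_lit 0, nat_lit 4, nat_lit 0x49⟩ (.nil) (.nil)
def t14_15521 : Tr := .node ⟨nat_lit 7, nat_lit 0x20005000600060, nat_lit 0x10120, nat_lit 0, nat_lit 4, nat_lit 0x46⟩ (.nil) (.nil)
def t14_673 : Tr := .node ⟨nat_lit 5, nat_lit 0x40018, nat_lit 0x10031, nat_lit 3, nat_lit 4, nat_lit 0x46⟩ (.nil) (.nil)
def t14_8865 : Tr := .node ⟨nat_lit 7, nat_lit 0x400020002000500050, nat_lit 0x111131, nat_lit 1, nat_lit 4, nat_lit 0x47⟩ (.nil) (.nil)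
def t14_4769 : Tr := .node ⟨nat_lit 5, nat_lit 0x1000080018, nat_lit 0x1312, nat_lit 5, nat_lit 4, nat_lit 0x47⟩ (.nil) (.nil)
def t14_12961 : Tr := .node ⟨nat_lit 6, nat_lit 0x2000080030, nat_lit 0x11210, nat_lit 5, nat_lit 4, nat_lit 0x48⟩ (.nil) (.nil)
def t14_2721 : Tr := .node ⟨nat_lit 6, nat_lit 0x800200030, nat_lit 0x101001, nat_lit 0, nat_lit 4, nat_lit 0x46⟩ (.nil) (.nil)
def t14_10913 : Tr := .node ⟨nat_lit 8, nat_lit 0x40004000a000c000d0, nat_lit 0x20022, nat_lit 1, nat_lit 4, nat_lit 0x47⟩ (.nil) (.nil)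
def t14_6817 : Tr := .node ⟨nat_lit 7, nat_lit 0x1000600060, nat_lit 0x1011110, nat_lit 1, nat_lit 4, nat_lit 0x48⟩ (.nil) (.nil)
def t14_15009 : Tr := .node ⟨nat_lit 7, nat_lit 0x400040005000500060, nat_lit 0x210111, nat_lit 3, nat_lit 4, nat_lit 0x48⟩ (.nil) (.nil)
def t14_1697 : Tr := .node ⟨nat_lit 8, nat_lit 0x800040009000d000c8, nat_lit 0x111022, nat_lit 0, nat_lit 4, nat_lit 0x46⟩ (.nil) (.nil)
def t14_9889 : Tr := .node ⟨nat_lit 5, nat_lit 0x1000100010, nat_lit 0x1320, nat_lit 9, nat_lit 4, nat_lit 0x49⟩ (.nil) (.nil)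
def t14_5793 : Tr := .node ⟨nat_lit 5, nat_lit 0x100012, nat_lit 0x11102, nat_lit 5, nat_lit 4, nat_lit 0x47⟩ (.nil) (.nil)
def t14_13985 : Tr := .node ⟨nat_lit 6, nat_lit 0x800200010, nat_lit 0x1222, nat_lit 0, nat_lit 4, nat_lit 0x47⟩ (.nil) (.nil)
def t14_3745 : Tr := .node ⟨nat_lit 9, nat_lit 0x100010000800080008001400190, nat_lit 0x1021000, nat_lit 1, nat_lit 4, nat_lit 0x48⟩ (.nil) (.nil)
def t14_11937 : Tr := .node ⟨nat_lit 7, nat_lit 0x20004000100044, nat_lit 0x230, nat_lit 1, nat_lit 4, nat_lit 0x47⟩ (.nil) (.nil)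
def t14_7841 : Tr := .node ⟨nat_lit 4, nat_lit 0x8000c000c, nat_lit 0x121, nat_lit 9, nat_lit 4, nat_lit 0x45⟩ (.nil) (.nil)
def t9_161 : Tr := .node ⟨nat_lit 3, nat_lit 4, nat_lit 0x231, nat_lit 0xb, nat_lit 4, nat_lit 0x48⟩ (.node ⟨nat_lit 4, nat_lit 8, nat_lit 0x322, nat_lit 3, nat_lit 3, nat_lit 0x47⟩ (.node ⟨nat_lit 7, nat_lit 0x4000500060, nat_lit 0x113120, nat_lit 0, nat_lit 4, nat_lit 0x49⟩ (.node ⟨nat_lit 2, nat_lit 0, nat_lit 0x21, nat_lit 8, nat_lit 4, nat_lit 0x45⟩ (.node ⟨nat_lit 7, nat_lit 0x400040002000480050, nat_lit 0x211211, nat_lit 3, nat_lit 4, nat_lit 0x48⟩ (t14_161) (t14_8353)) (.node ⟨nat_lit 7, nat_lit 0x400040002000500060, nat_lit 0x101003, nat_lit 6, nat_lit 4, nat_lit 0x48⟩ (t14_4257) (t14_12449))) (.node ⟨nat_lit 4, nat_lit 8, nat_lit 0x2312, nat_lit 8, nat_lit 4, nat_lit 0x4a⟩ (.node ⟨nat_lit 6, nat_lit 0x1000300028,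 nat_lit 0x2004, nat_lit 1, nat_lit 4, nat_lit 0x47⟩ (t14_2209) (t14_10401)) (.node ⟨nat_lit 5, nat_lit 0x100018, nat_lit 0x1322, nat_lit 5, nat_lit 4, nat_lit 0x48⟩ (t14_6305) (t14_14497)))) (.node ⟨nat_lit 6, nat_lit 0x100020, nat_lit 0x121111, nat_lit 3, nat_lit 4, nat_lit 0x4a⟩ (.node ⟨nat_lit 7, nat_lit 0x40001000100060, nat_lit 0x2102101, nat_lit 1, nat_lit 4, nat_lit 0x49⟩ (.node ⟨nat_lit 6, nat_lit 0x2000200010, nat_lit 0x11104, nat_lit 0, nat_lit 3, nat_lit 0x47⟩ (t14_1185) (t14_9377)) (.node ⟨nat_lit 6, nat_lit 0x200030, nat_lit 0x112121, nat_lit 4, nat_lit 4, nat_lit 0x4a⟩ (t14_5281) (t14_13473))) (.node ⟨nat_lit 7, nat_lit 0x20004000500064, nat_lit 0x112200, nat_lit 1, nat_lit 4, nat_lit 0x47⟩ (.node ⟨nat_lit 6, nat_lit 0x2000080030, nat_lit 0x102330, nat_lit 1, nat_lit 4, nat_lit 0x49⟩ (t14_3233) (t14_11425)) (.node ⟨nat_lit 6, nat_lit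 0x2000080030, nat_lit 0x101110, nat_lit 2, nat_lit 4, nat_lit 0x47⟩ (t14_7329) (t14_15521))))) (.node ⟨nat_lit 5, nat_lit 0x100018, nat_lit 0x13112, nat_lit 4, nat_lit 4, nat_lit 0x49⟩ (.node ⟨nat_lit 5, nat_lit 0x100018, nat_lit 0x12112, nat_lit 4, nat_lit 4, nat_lit 0x48⟩ (.node ⟨nat_lit 5, nat_lit 0x100008, nat_lit 0x222, nat_lit 0, nat_lit 4, nat_lit 0x46⟩ (.node ⟨nat_lit 6, nat_lit 0x2000100008, nat_lit 0x212010, nat_lit 1, nat_lit 3, nat_lit 0x48⟩ (t14_673) (t14_8865)) (.node ⟨nat_lit 6, nat_lit 0x2000280030, nat_lit 0x22012, nat_lit 0, nat_lit 3, nat_lit 0x46⟩ (t14_4769) (t14_12961))) (.node ⟨nat_lit 5, nat_lit 0x180018, nat_lit 0x10100, nat_lit 0, nat_lit 3, nat_lit 0x44⟩ (.node ⟨nat_lit 6, nat_lit 0x2000100030, nat_lit 0x112130, nat_lit 0, nat_lit 3, nat_lit 0x47⟩ (t14_2721) (t14_10913)) (.node ⟨nat_lit 6, nat_lit 0x20001000100030, nat_lit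 0x201110, nat_lit 1, nat_lit 3, nat_lit 0x46⟩ (t14_6817) (t14_15009)))) (.node ⟨nat_lit 6, nat_lit 0x2000100010, nat_lit 0x11032, nat_lit 0, nat_lit 4, nat_lit 0x49⟩ (.node ⟨nat_lit 7, nat_lit 0x400060, nat_lit 0x211111, nat_lit 0, nat_lit 4, nat_lit 0x4a⟩ (.node ⟨nat_lit 2, nat_lit 2, nat_lit 1, nat_lit 7, nat_lit 4, nat_lit 0x42⟩ (t14_1697) (t14_9889)) (.node ⟨nat_lit 7, nat_lit 0x4000400060, nat_lit 0x122200, nat_lit 1, nat_lit 4, nat_lit 0x4a⟩ (t14_5793) (t14_13985))) (.node ⟨nat_lit 7, nat_lit 0x10004000500060, nat_lit 0x200102, nat_lit 0, nat_lit 4, nat_lit 0x47⟩ (.node ⟨nat_lit 6, nat_lit 0x240038, nat_lit 0x100003, nat_lit 3, nat_lit 4, nat_lit 0x46⟩ (t14_3745) (t14_11937)) (.node ⟨nat_lit 6, nat_lit 0x800300030, nat_lit 0x100021, nat_lit 3, nat_lit 4, nat_lit 0x46⟩ (t14_7841) (.nil)))))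
def t14_417 : Tr := .node ⟨nat_lit 7, nat_lit 0x4000500060, nat_lit 0x1021120, nat_lit 0, nat_lit 4, nat_lit 0x49⟩ (.nil) (.nil)
def t14_8609 : Tr := .node ⟨nat_lit 8, nat_lit 0x40004000800088006000e0, nat_lit 0x111100, nat_lit 1, nat_lit 4, nat_lit 0x46⟩ (.nil) (.nil)
def t14_4513 : Tr := .node ⟨nat_lit 6, nat_lit 0x2000240030, nat_lit 0x112201, nat_lit 4, nat_lit 4, nat_lit 0x49⟩ (.nil) (.nil)
def t14_12705 : Tr := .node ⟨nat_lit 7, nat_lit 0x1000500060, nat_lit 0x1002120, nat_lit 0, nat_lit 4, nat_lit 0x48⟩ (.nil) (.nil)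
def t14_2465 : Tr := .node ⟨nat_lit 7, nat_lit 0x6000500050, nat_lit 0x2121, nat_lit 1, nat_lit 4, nat_lit 0x47⟩ (.nil) (.nil)
def t14_10657 : Tr := .node ⟨nat_lit 8, nat_lit 0x80006000a000c0, nat_lit 0x10021, nat_lit 0, nat_lit 4, nat_lit 0x47⟩ (.nil) (.nil)
def t14_6561 : Tr := .node ⟨nat_lit 6, nat_lit 0x20, nat_lit 0x111102, nat_lit 1, nat_lit 4, nat_lit 0x4a⟩ (.nil) (.nil)
def t14_14753 : Tr := .node ⟨nat_lit 8, nat_lit 0x800040002000c000a0, nat_lit 0x110212, nat_lit 1, nat_lit 4, nat_lit 0x48⟩ (.nil) (.nil)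
def t14_1441 : Tr := .node ⟨nat_lit 7, nat_lit 0x400040004000200050, nat_lit 0x121111, nat_lit 4, nat_lit 4, nat_lit 0x49⟩ (.nil) (.nil)
def t14_9633 : Tr := .node ⟨nat_lit 7, nat_lit 0x40002000200010, nat_lit 0x201, nat_lit 1, nat_lit 4, nat_lit 0x47⟩ (.nil) (.nil)
def t14_5537 : Tr := .node ⟨nat_lit 6, nat_lit 0x200032, nat_lit 0x1011, nat_lit 1, nat_lit 4, nat_lit 0x46⟩ (.nil) (.nil)
def t14_13729 : Tr := .node ⟨nat_lit 7, nat_lit 0x400020002800500050, nat_lit 0x11, nat_lit 0, nat_lit 4, nat_lit 0x44⟩ (.nil) (.nil)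
def t14_3489 : Tr := .node ⟨nat_lit 7, nat_lit 0x20006000600050, nat_lit 0x10201, nat_lit 1, nat_lit 4, nat_lit 0x46⟩ (.nil) (.nil)
def t14_11681 : Tr := .node ⟨nat_lit 7, nat_lit 0x200040004000680068, nat_lit 0x1020110, nat_lit 5, nat_lit 4, nat_lit 0x47⟩ (.nil) (.nil)
def t14_7585 : Tr := .node ⟨nat_lit 4, nat_lit 0x8000e, nat_lit 0x21, nat_lit 5, nat_lit 4, nat_lit 0x44⟩ (.nil) (.nil)
def t14_929 : Tr := .node ⟨nat_lit 8, nat_lit 0x800040004000400020, nat_lit 0x102221, nat_lit 0, nat_lit 4, nat_lit 0x4a⟩ (.nil) (.nil)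
def t14_9121 : Tr := .node ⟨nat_lit 8, nat_lit 0x800040009000c000e0, nat_lit 0x1100023, nat_lit 0, nat_lit 4, nat_lit 0x47⟩ (.nil) (.nil)
def t14_5025 : Tr := .node ⟨nat_lit 6, nat_lit 0x2800180030, nat_lit 0x10111, nat_lit 2, nat_lit 4, nat_lit 0x45⟩ (.nil) (.nil)
def t14_13217 : Tr := .node ⟨nat_lit 7, nat_lit 0x200020002000400070, nat_lit 0x2030, nat_lit 2, nat_lit 4, nat_lit 0x47⟩ (.nil) (.nil)
def t14_2977 : Tr := .node ⟨nat_lit 9, nat_lit 0x800100010000400108, nat_lit 0x1101201, nat_lit 0, nat_lit 4, nat_lit 0x4a⟩ (.nil) (.nil)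
def t14_11169 : Tr := .node ⟨nat_lit 7, nat_lit 0x6000500050, nat_lit 0x111120, nat_lit 2, nat_lit 4, nat_lit 0x48⟩ (.nil) (.nil)
def t14_7073 : Tr := .node ⟨nat_lit 7, nat_lit 0x40001000200020, nat_lit 0x2101011, nat_lit 1, nat_lit 3, nat_lit 0x48⟩ (.nil) (.nil)
def t14_15265 : Tr := .node ⟨nat_lit 6, nat_lit 0x2800180030, nat_lit 0x11121, nat_lit 5, nat_lit 4, nat_lit 0x47⟩ (.nil) (.nil)
def t14_1953 : Tr := .node ⟨nat_lit 7, nat_lit 0x4000600050, nat_lit 0x21212, nat_lit 2, nat_lit 4, nat_lit 0x49⟩ (.nil) (.nil)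
def t14_10145 : Tr := .node ⟨nat_lit 7, nat_lit 0x6000180018, nat_lit 0x10210, nat_lit 0, nat_lit 4, nat_lit 0x46⟩ (.nil) (.nil)
def t14_6049 : Tr := .node ⟨nat_lit 9, nat_lit 0x100010001000108, nat_lit 0x21110110, nat_lit 0, nat_lit 4, nat_lit 0x4c⟩ (.nil) (.nil)
def t14_14241 : Tr := .node ⟨nat_lit 7, nat_lit 0x400020002000500050, nat_lit 0x1010, nat_lit 1, nat_lit 4, nat_lit 0x45⟩ (.nil) (.nil)
def t14_4001 : Tr := .node ⟨nat_lit 6, nat_lit 0x1000280030, nat_lit 0x100001, nat_lit 1, nat_lit 4, nat_lit 0x45⟩ (.nil) (.nil)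
def t14_12193 : Tr := .node ⟨nat_lit 7, nat_lit 0x40002000500060, nat_lit 0x111102, nat_lit 3, nat_lit 4, nat_lit 0x48⟩ (.nil) (.nil)
def t14_8097 : Tr := .node ⟨nat_lit 7, nat_lit 0x20004000400044, nat_lit 0x10104, nat_lit 1, nat_lit 4, nat_lit 0x48⟩ (.nil) (.nil)
def t9_417 : Tr := .node ⟨nat_lit 6, nat_lit 0x10002000240018, nat_lit 0x231211, nat_lit 0, nat_lit 4, nat_lit 0x49⟩ (.node ⟨nat_lit 5, nat_lit 0x100010, nat_lit 0x13120, nat_lit 5, nat_lit 3, nat_lit 0x48⟩ (.node ⟨nat_lit 2, nat_lit 0, nat_lit 0x22, nat_lit 5, nat_lit 4, nat_lit 0x44⟩ (.node ⟨nat_lit 4, nat_lit 0x8000c, nat_lit 0x1022, nat_lit 2, nat_lit 3, nat_lit 0x44⟩ (.node ⟨nat_lit 5, nat_lit 0x18, nat_lit 0x301, nat_lit 0, nat_lit 4, nat_lit 0x46⟩ (t14_417) (t14_8609)) (.node ⟨nat_lit 7, nat_lit 0x40004000200048, nat_lit 0x1112011, nat_lit 5, nat_lit 4, nat_lit 0x4a⟩ (t14_4513)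 (t14_12705))) (.node ⟨nat_lit 7, nat_lit 0x20004000100060, nat_lit 0x211112, nat_lit 2, nat_lit 4, nat_lit 0x49⟩ (.node ⟨nat_lit 7, nat_lit 0x20002000100040, nat_lit 0x1011011, nat_lit 0, nat_lit 4, nat_lit 0x48⟩ (t14_2465) (t14_10657)) (.node ⟨nat_lit 8, nat_lit 0x80008000880088, nat_lit 0x2100120, nat_lit 0, nat_lit 4, nat_lit 0x49⟩ (t14_6561) (t14_14753)))) (.node ⟨nat_lit 5, nat_lit 0x40018, nat_lit 0x10211, nat_lit 7, nat_lit 4, nat_lit 0x48⟩ (.node ⟨nat_lit 6, nat_lit 0x800300028, nat_lit 0x120022, nat_lit 1, nat_lit 4, nat_lit 0x47⟩ (.node ⟨nat_lit 5, nat_lit 0x18, nat_lit 0x11000, nat_lit 0, nat_lit 4, nat_lit 0x45⟩ (t14_1441) (t14_9633)) (.node ⟨nat_lit 7, nat_lit 0x40003000500060, nat_lit 0x110212, nat_lit 0, nat_lit 3, nat_lit 0x45⟩ (t14_5537) (t14_13729))) (.node ⟨nat_lit 5, nat_lit 0x800080010, nat_lit 0x11301, nat_lit 5, nat_lit 4,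 nat_lit 0x48⟩ (.node ⟨nat_lit 7, nat_lit 0x800500060, nat_lit 0x110000, nat_lit 1, nat_lit 4, nat_lit 0x47⟩ (t14_3489) (t14_11681)) (.node ⟨nat_lit 7, nat_lit 0x40001000100060, nat_lit 0x1102101, nat_lit 5, nat_lit 4, nat_lit 0x49⟩ (t14_7585) (.nil))))) (.node ⟨nat_lit 7, nat_lit 0x1000100060, nat_lit 0x2003101, nat_lit 1, nat_lit 4, nat_lit 0x4a⟩ (.node ⟨nat_lit 5, nat_lit 0x100018, nat_lit 0x11201, nat_lit 1, nat_lit 3, nat_lit 0x46⟩ (.node ⟨nat_lit 7, nat_lit 0x400060, nat_lit 0x111110, nat_lit 1, nat_lit 4, nat_lit 0x49⟩ (.node ⟨nat_lit 6, nat_lit 0x300030, nat_lit 0x112141, nat_lit 0, nat_lit 4, nat_lit 0x49⟩ (t14_929) (t14_9121)) (.node ⟨nat_lit 5, nat_lit 0x100010, nat_lit 0x12220, nat_lit 7, nat_lit 4, nat_lit 0x4a⟩ (t14_5025) (t14_13217))) (.node ⟨nat_lit 5, nat_lit 0x180018, nat_lit 0x11120, nat_lit 6, nat_lit 4, nat_lit 0x47⟩ (.node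 ⟨nat_lit 6, nat_lit 0x1000080020, nat_lit 0x111211, nat_lit 2, nat_lit 3, nat_lit 0x47⟩ (t14_2977) (t14_11169)) (.node ⟨nat_lit 7, nat_lit 0x20003000500068, nat_lit 0x1011122, nat_lit 0, nat_lit 4, nat_lit 0x46⟩ (t14_7073) (t14_15265)))) (.node ⟨nat_lit 4, nat_lit 8, nat_lit 0x2111, nat_lit 6, nat_lit 4, nat_lit 0x48⟩ (.node ⟨nat_lit 7, nat_lit 0x1000600070, nat_lit 0x2011112, nat_lit 0, nat_lit 4, nat_lit 0x48⟩ (.node ⟨nat_lit 6, nat_lit 0x200030, nat_lit 0x101131, nat_lit 6, nat_lit 4, nat_lit 0x4a⟩ (t14_1953) (t14_10145)) (.node ⟨nat_lit 7, nat_lit 0x20004000400064, nat_lit 0x1022000, nat_lit 1, nat_lit 4, nat_lit 0x48⟩ (t14_6049) (t14_14241))) (.node ⟨nat_lit 7, nat_lit 0x400020002000500068, nat_lit 0x1011210, nat_lit 0, nat_lit 4, nat_lit 0x46⟩ (.node ⟨nat_lit 7, nat_lit 0x800600050, nat_lit 0x1000001, nat_lit 0, nat_lit 4, nat_lit 0x46⟩ (t14_4001)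 (t14_12193)) (.node ⟨nat_lit 6, nat_lit 0x20001000100010, nat_lit 0x100220, nat_lit 0, nat_lit 3, nat_lit 0x46⟩ (t14_8097) (.nil)))))
def t14_97 : Tr := .node ⟨nat_lit 7, nat_lit 0x4000500060, nat_lit 0x1112111, nat_lit 0, nat_lit 4, nat_lit 0x49⟩ (.nil) (.nil)
def t14_8289 : Tr := .node ⟨nat_lit 6, nat_lit 0x800280030, nat_lit 0x10201, nat_lit 2, nat_lit 4, nat_lit 0x46⟩ (.nil) (.nil)
def t14_4193 : Tr := .node ⟨nat_lit 7, nat_lit 0x40001000480060, nat_lit 0x111101, nat_lit 1, nat_lit 4, nat_lit 0x47⟩ (.nil) (.nil)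
def t14_12385 : Tr := .node ⟨nat_lit 8, nat_lit 0x400040008000c000d0, nat_lit 0x100130, nat_lit 3, nat_lit 4, nat_lit 0x48⟩ (.nil) (.nil)
def t14_2145 : Tr := .node ⟨nat_lit 7, nat_lit 0x4000200060, nat_lit 0x1111202, nat_lit 0, nat_lit 4, nat_lit 0x4a⟩ (.nil) (.nil)
def t14_10337 : Tr := .node ⟨nat_lit 7, nat_lit 0x4800500060, nat_lit 0x111202, nat_lit 2, nat_lit 4, nat_lit 0x48⟩ (.nil) (.nil)
def t14_6241 : Tr := .node ⟨nat_lit 8, nat_lit 0x800040, nat_lit 0x111100, nat_lit 0, nat_lit 4, nat_lit 0x4b⟩ (.nil) (.nil)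
def t14_14433 : Tr := .node ⟨nat_lit 8, nat_lit 0x4000400080008000c4, nat_lit 0x10211, nat_lit 1, nat_lit 4, nat_lit 0x48⟩ (.nil) (.nil)
def t14_1121 : Tr := .node ⟨nat_lit 7, nat_lit 0x1000500060, nat_lit 0x101211, nat_lit 3, nat_lit 4, nat_lit 0x48⟩ (.nil) (.nil)
def t14_9313 : Tr := .node ⟨nat_lit 7, nat_lit 0x6000600050, nat_lit 0x111221, nat_lit 1, nat_lit 4, nat_lit 0x48⟩ (.nil) (.nil)
def t14_5217 : Tr := .node ⟨nat_lit 8, nat_lit 0x8000800040009000c0, nat_lit 0x121011, nat_lit 3, nat_lit 4, nat_lit 0x49⟩ (.nil) (.nil)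
def t14_13409 : Tr := .node ⟨nat_lit 6, nat_lit 0x10001000200022, nat_lit 0x3103, nat_lit 0, nat_lit 4, nat_lit 0x46⟩ (.nil) (.nil)
def t14_3169 : Tr := .node ⟨nat_lit 8, nat_lit 0x80001000c000a0, nat_lit 0x113011, nat_lit 0, nat_lit 4, nat_lit 0x49⟩ (.nil) (.nil)
def t14_11361 : Tr := .node ⟨nat_lit 7, nat_lit 0x10001000200040, nat_lit 0x2001, nat_lit 0, nat_lit 3, nat_lit 0x46⟩ (.nil) (.nil)
def t14_7265 : Tr := .node ⟨nat_lit 6, nat_lit 0x200030, nat_lit 0x22101, nat_lit 2, nat_lit 3, nat_lit 0x48⟩ (.nil) (.nil)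
def t14_15457 : Tr := .node ⟨nat_lit 8, nat_lit 0x8000200020002000c0, nat_lit 0x11011102, nat_lit 0, nat_lit 4, nat_lit 0x49⟩ (.nil) (.nil)
def t14_609 : Tr := .node ⟨nat_lit 7, nat_lit 0x2000400060, nat_lit 0x20012, nat_lit 0, nat_lit 4, nat_lit 0x48⟩ (.nil) (.nil)
def t14_8801 : Tr := .node ⟨nat_lit 7, nat_lit 0x40004000200048, nat_lit 0x11004, nat_lit 0, nat_lit 4, nat_lit 0x48⟩ (.nil) (.nil)
def t14_4705 : Tr := .node ⟨nat_lit 8, nat_lit 0x80004000a000c8, nat_lit 0x10011002, nat_lit 0, nat_lit 4, nat_lit 0x48⟩ (.nil) (.nil)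
def t14_12897 : Tr := .node ⟨nat_lit 7, nat_lit 0x40001000600060, nat_lit 0x10130, nat_lit 2, nat_lit 4, nat_lit 0x47⟩ (.nil) (.nil)
def t14_2657 : Tr := .node ⟨nat_lit 7, nat_lit 0x10006000600060, nat_lit 0x20310, nat_lit 1, nat_lit 4, nat_lit 0x47⟩ (.nil) (.nil)
def t14_10849 : Tr := .node ⟨nat_lit 8, nat_lit 0x8000800040009000d0, nat_lit 0x121002, nat_lit 0, nat_lit 4, nat_lit 0x48⟩ (.nil) (.nil)
def t14_6753 : Tr := .node ⟨nat_lit 7, nat_lit 0x5000600028, nat_lit 0x12210, nat_lit 0, nat_lit 4, nat_lit 0x47⟩ (.nil) (.nil)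
def t14_14945 : Tr := .node ⟨nat_lit 7, nat_lit 0x400020005000500060, nat_lit 0x110112, nat_lit 3, nat_lit 4, nat_lit 0x47⟩ (.nil) (.nil)
def t14_1633 : Tr := .node ⟨nat_lit 6, nat_lit 0x10002000200030, nat_lit 0x102100, nat_lit 0, nat_lit 3, nat_lit 0x45⟩ (.nil) (.nil)
def t14_9825 : Tr := .node ⟨nat_lit 8, nat_lit 0x400080008000880060, nat_lit 0x21010, nat_lit 0, nat_lit 4, nat_lit 0x47⟩ (.nil) (.nil)
def t14_5729 : Tr := .node ⟨nat_lit 7, nat_lit 0x40004000600068, nat_lit 0x11022, nat_lit 3, nat_lit 4, nat_lit 0x47⟩ (.nil) (.nil)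
def t14_13921 : Tr := .node ⟨nat_lit 6, nat_lit 0x10001000200022, nat_lit 0x10010, nat_lit 0, nat_lit 4, nat_lit 0x45⟩ (.nil) (.nil)
def t14_3681 : Tr := .node ⟨nat_lit 7, nat_lit 0x400060, nat_lit 0x21001, nat_lit 0, nat_lit 4, nat_lit 0x49⟩ (.nil) (.nil)
def t14_11873 : Tr := .node ⟨nat_lit 5, nat_lit 0x100018, nat_lit 0x20110, nat_lit 1, nat_lit 3, nat_lit 0x46⟩ (.nil) (.nil)
def t14_7777 : Tr := .node ⟨nat_lit 7, nat_lit 0x20004000440060, nat_lit 0x10202, nat_lit 5, nat_lit 4, nat_lit 0x48⟩ (.nil) (.nil)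
def t9_97 : Tr := .node ⟨nat_lit 5, nat_lit 0x10, nat_lit 0x1110, nat_lit 3, nat_lit 3, nat_lit 0x47⟩ (.node ⟨nat_lit 6, nat_lit 0x20, nat_lit 0x132210, nat_lit 1, nat_lit 4, nat_lit 0x4c⟩ (.node ⟨nat_lit 6, nat_lit 0x800280030, nat_lit 0x10301, nat_lit 1, nat_lit 4, nat_lit 0x46⟩ (.node ⟨nat_lit 4, nat_lit 0x80008, nat_lit 0x1211, nat_lit 5, nat_lit 4, nat_lit 0x47⟩ (.node ⟨nat_lit 6, nat_lit 0x2000080030, nat_lit 0x122013, nat_lit 0, nat_lit 4, nat_lit 0x49⟩ (t14_97) (t14_8289)) (.node ⟨nat_lit 5, nat_lit 0x40018, nat_lit 0x21020, nat_lit 1, nat_lit 4, nat_lit 0x46⟩ (t14_4193) (t14_12385))) (.node ⟨nat_lit 4, nat_lit 0xc000c, nat_lit 0x2122, nat_lit 6, nat_lit 3, nat_lit 0x45⟩ (.node ⟨nat_lit 9, nat_lit 0x4001000100010801800190, nat_lit 0x10001031, nat_lit 1, nat_lit 4, nat_lit 0x48⟩ (t14_2145) (t14_10337)) (.node ⟨nat_lit 6, nat_lit 0x2000080034,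 nat_lit 0x21210, nat_lit 1, nat_lit 4, nat_lit 0x47⟩ (t14_6241) (t14_14433)))) (.node ⟨nat_lit 4, nat_lit 0xc, nat_lit 0x2022, nat_lit 6, nat_lit 4, nat_lit 0x47⟩ (.node ⟨nat_lit 6, nat_lit 0x2000100010, nat_lit 0x121111, nat_lit 1, nat_lit 3, nat_lit 0x48⟩ (.node ⟨nat_lit 7, nat_lit 0x1000500060, nat_lit 0x1111131, nat_lit 0, nat_lit 4, nat_lit 0x49⟩ (t14_1121) (t14_9313)) (.node ⟨nat_lit 7, nat_lit 0x40001000600070, nat_lit 0x112112, nat_lit 1, nat_lit 4, nat_lit 0x47⟩ (t14_5217) (t14_13409))) (.node ⟨nat_lit 6, nat_lit 0x800200032, nat_lit 0x211011, nat_lit 2, nat_lit 4, nat_lit 0x48⟩ (.node ⟨nat_lit 6, nat_lit 0x2000300038, nat_lit 0x12103, nat_lit 3, nat_lit 4, nat_lit 0x47⟩ (t14_3169) (t14_11361)) (.node ⟨nat_lit 7, nat_lit 0x40002000500068, nat_lit 0x11021, nat_lit 0, nat_lit 4, nat_lit 0x46⟩ (t14_7265) (t14_15457))))) (.node ⟨nat_lit 6,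 nat_lit 0x2000100008, nat_lit 0x13002, nat_lit 1, nat_lit 4, nat_lit 0x49⟩ (.node ⟨nat_lit 3, nat_lit 0x40004, nat_lit 0x211, nat_lit 7, nat_lit 3, nat_lit 0x45⟩ (.node ⟨nat_lit 5, nat_lit 0x40018, nat_lit 0x201, nat_lit 1, nat_lit 4, nat_lit 0x45⟩ (.node ⟨nat_lit 7, nat_lit 0x40001000600068, nat_lit 0x2012102, nat_lit 0, nat_lit 4, nat_lit 0x48⟩ (t14_609) (t14_8801)) (.node ⟨nat_lit 7, nat_lit 0x10001000200040, nat_lit 0x1112010, nat_lit 5, nat_lit 4, nat_lit 0x4a⟩ (t14_4705) (t14_12897))) (.node ⟨nat_lit 2, nat_lit 2, nat_lit 0x11, nat_lit 0xa, nat_lit 4, nat_lit 0x44⟩ (.node ⟨nat_lit 5, nat_lit 0x100018, nat_lit 0x12123, nat_lit 5, nat_lit 4, nat_lit 0x49⟩ (t14_2657) (t14_10849)) (.node ⟨nat_lit 8, nat_lit 0x4000400080008800880060, nat_lit 0x11111201, nat_lit 0, nat_lit 4, nat_lit 0x48⟩ (t14_6753) (t14_14945)))) (.node ⟨nat_lit 5, nat_lit 0x180018,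 nat_lit 0x11100, nat_lit 1, nat_lit 3, nat_lit 0x45⟩ (.node ⟨nat_lit 6, nat_lit 0x200010, nat_lit 0x212002, nat_lit 0, nat_lit 4, nat_lit 0x4a⟩ (.node ⟨nat_lit 6, nat_lit 0x80030, nat_lit 0x101, nat_lit 2, nat_lit 4, nat_lit 0x46⟩ (t14_1633) (t14_9825)) (.node ⟨nat_lit 6, nat_lit 0x20002000200038, nat_lit 0x22002, nat_lit 5, nat_lit 4, nat_lit 0x48⟩ (t14_5729) (t14_13921))) (.node ⟨nat_lit 6, nat_lit 0x200030, nat_lit 0x12020, nat_lit 0, nat_lit 4, nat_lit 0x48⟩ (.node ⟨nat_lit 7, nat_lit 0x20002000400010, nat_lit 0x10001, nat_lit 0, nat_lit 4, nat_lit 0x47⟩ (t14_3681) (t14_11873)) (.node ⟨nat_lit 7, nat_lit 0x4000600060, nat_lit 0x1011121, nat_lit 3, nat_lit 4, nat_lit 0x49⟩ (t14_7777) (.nil)))))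
def t14_353 : Tr := .node ⟨nat_lit 7, nat_lit 0x20002000400068, nat_lit 0x122201, nat_lit 0, nat_lit 4, nat_lit 0x49⟩ (.nil) (.nil)
def t14_8545 : Tr := .node ⟨nat_lit 7, nat_lit 0x400040002000500070, nat_lit 0x10013, nat_lit 7, nat_lit 4, nat_lit 0x47⟩ (.nil) (.nil)
def t14_4449 : Tr := .node ⟨nat_lit 6, nat_lit 0x10002000200034, nat_lit 0x110211, nat_lit 4, nat_lit 4, nat_lit 0x48⟩ (.nil) (.nil)
def t14_12641 : Tr := .node ⟨nat_lit 8, nat_lit 0x80004000880060, nat_lit 0x10001100, nat_lit 0, nat_lit 4, nat_lit 0x48⟩ (.nil) (.nil)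
def t14_2401 : Tr := .node ⟨nat_lit 6, nat_lit 0x2000340034, nat_lit 0x102010, nat_lit 3, nat_lit 4, nat_lit 0x46⟩ (.nil) (.nil)
def t14_10593 : Tr := .node ⟨nat_lit 5, nat_lit 0x40018, nat_lit 0x210, nat_lit 2, nat_lit 4, nat_lit 0x46⟩ (.nil) (.nil)
def t14_6497 : Tr := .node ⟨nat_lit 7, nat_lit 0x1000600060, nat_lit 0x1011111, nat_lit 1, nat_lit 4, nat_lit 0x48⟩ (.nil) (.nil)
def t14_14689 : Tr := .node ⟨nat_lit 8, nat_lit 0x40006000a000d000d0, nat_lit 0x11211, nat_lit 0, nat_lit 4, nat_lit 0x45⟩ (.nil) (.nil)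
def t14_1377 : Tr := .node ⟨nat_lit 6, nat_lit 0x2000300030, nat_lit 0x3310, nat_lit 1, nat_lit 3, nat_lit 0x46⟩ (.nil) (.nil)
def t14_9569 : Tr := .node ⟨nat_lit 7, nat_lit 0x4000640064, nat_lit 0x10120, nat_lit 0, nat_lit 4, nat_lit 0x46⟩ (.nil) (.nil)
def t14_5473 : Tr := .node ⟨nat_lit 7, nat_lit 0x10004000180064, nat_lit 0x110302, nat_lit 0, nat_lit 4, nat_lit 0x47⟩ (.nil) (.nil)
def t14_13665 : Tr := .node ⟨nat_lit 5, nat_lit 0x100008, nat_lit 0x322, nat_lit 1, nat_lit 4, nat_lit 0x47⟩ (.nil) (.nil)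
def t14_3425 : Tr := .node ⟨nat_lit 7, nat_lit 0x20004000440030, nat_lit 0x2000101, nat_lit 0, nat_lit 4, nat_lit 0x47⟩ (.nil) (.nil)
def t14_11617 : Tr := .node ⟨nat_lit 5, nat_lit 0x800100018, nat_lit 0x130, nat_lit 5, nat_lit 4, nat_lit 0x46⟩ (.nil) (.nil)
def t14_7521 : Tr := .node ⟨nat_lit 5, nat_lit 0x10001000100018, nat_lit 0x1101, nat_lit 0xf, nat_lit 4, nat_lit 0x48⟩ (.nil) (.nil)
def t14_865 : Tr := .node ⟨nat_lit 6, nat_lit 0x10001000200030, nat_lit 0x102220, nat_lit 3, nat_lit 4, nat_lit 0x48⟩ (.nil) (.nil)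
def t14_9057 : Tr := .node ⟨nat_lit 7, nat_lit 0x10004000200060, nat_lit 0x201, nat_lit 3, nat_lit 4, nat_lit 0x47⟩ (.nil) (.nil)
def t14_4961 : Tr := .node ⟨nat_lit 5, nat_lit 0x180018, nat_lit 0x11131, nat_lit 6, nat_lit 4, nat_lit 0x48⟩ (.nil) (.nil)
def t14_13153 : Tr := .node ⟨nat_lit 7, nat_lit 0x10002000400060, nat_lit 0x3002, nat_lit 1, nat_lit 4, nat_lit 0x47⟩ (.nil) (.nil)
def t14_2913 : Tr := .node ⟨nat_lit 7, nat_lit 0x20005000600068, nat_lit 0x121120, nat_lit 0, nat_lit 4, nat_lit 0x47⟩ (.nil) (.nil)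
def t14_11105 : Tr := .node ⟨nat_lit 7, nat_lit 0x1000600060, nat_lit 0x1020, nat_lit 5, nat_lit 4, nat_lit 0x48⟩ (.nil) (.nil)
def t14_7009 : Tr := .node ⟨nat_lit 7, nat_lit 0x4000600060, nat_lit 0x1011211, nat_lit 1, nat_lit 4, nat_lit 0x49⟩ (.nil) (.nil)
def t14_15201 : Tr := .node ⟨nat_lit 6, nat_lit 0x20001000280014, nat_lit 0x101111, nat_lit 1, nat_lit 4, nat_lit 0x45⟩ (.nil) (.nil)
def t14_1889 : Tr := .node ⟨nat_lit 6, nat_lit 0x10002000300034, nat_lit 0x201121, nat_lit 4, nat_lit 4, nat_lit 0x47⟩ (.nil) (.nil)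
def t14_10081 : Tr := .node ⟨nat_lit 7, nat_lit 0x10005000600060, nat_lit 0x12220, nat_lit 2, nat_lit 4, nat_lit 0x47⟩ (.nil) (.nil)
def t14_5985 : Tr := .node ⟨nat_lit 5, nat_lit 0x100010, nat_lit 0x11110, nat_lit 5, nat_lit 3, nat_lit 0x47⟩ (.nil) (.nil)
def t14_14177 : Tr := .node ⟨nat_lit 8, nat_lit 0x200040008000c000c4, nat_lit 0x10001220, nat_lit 1, nat_lit 4, nat_lit 0x48⟩ (.nil) (.nil)
def t14_3937 : Tr := .node ⟨nat_lit 6, nat_lit 0x3000180028, nat_lit 0x100230, nat_lit 1, nat_lit 4, nat_lit 0x45⟩ (.nil) (.nil)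
def t14_12129 : Tr := .node ⟨nat_lit 8, nat_lit 0x2000a0009000c0, nat_lit 0x1011102, nat_lit 1, nat_lit 4, nat_lit 0x48⟩ (.nil) (.nil)
def t14_8033 : Tr := .node ⟨nat_lit 6, nat_lit 0x20001000100028, nat_lit 0x11113, nat_lit 0, nat_lit 4, nat_lit 0x46⟩ (.nil) (.nil)
def t9_353 : Tr := .node ⟨nat_lit 4, nat_lit 0, nat_lit 0x3321, nat_lit 5, nat_lit 4, nat_lit 0x4b⟩ (.node ⟨nat_lit 6, nat_lit 0x200010, nat_lit 0x32202, nat_lit 0, nat_lit 4, nat_lit 0x4b⟩ (.node ⟨nat_lit 6, nat_lit 0x100020, nat_lit 0x212112, nat_lit 0, nat_lit 4, nat_lit 0x4a⟩ (.node ⟨nat_lit 7, nat_lit 0x200040003000480068, nat_lit 0x1122100, nat_lit 0, nat_lit 4, nat_lit 0x47⟩ (.node ⟨nat_lit 6, nat_lit 0x1000280030, nat_lit 0x112012, nat_lit 0, nat_lit 3, nat_lit 0x46⟩ (t14_353) (t14_8545)) (.node ⟨nat_lit 7, nat_lit 0x40004000200070, nat_lit 0x111003, nat_lit 4, nat_lit 4, nat_lit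 0x48⟩ (t14_4449) (t14_12641))) (.node ⟨nat_lit 7, nat_lit 0x2000500060, nat_lit 0x2012021, nat_lit 0, nat_lit 4, nat_lit 0x49⟩ (.node ⟨nat_lit 6, nat_lit 0x1000280034, nat_lit 0x101013, nat_lit 1, nat_lit 4, nat_lit 0x45⟩ (t14_2401) (t14_10593)) (.node ⟨nat_lit 7, nat_lit 0x40001000600060, nat_lit 0x12120, nat_lit 1, nat_lit 4, nat_lit 0x47⟩ (t14_6497) (t14_14689)))) (.node ⟨nat_lit 5, nat_lit 0x100008, nat_lit 0x2101, nat_lit 2, nat_lit 4, nat_lit 0x47⟩ (.node ⟨nat_lit 5, nat_lit 0x10, nat_lit 0x22222, nat_lit 2, nat_lit 4, nat_lit 0x4b⟩ (.node ⟨nat_lit 5, nat_lit 0x40018, nat_lit 0x10104, nat_lit 5, nat_lit 4, nat_lit 0x47⟩ (t14_1377) (t14_9569)) (.node ⟨nat_lit 7, nat_lit 0x20002000400040, nat_lit 0x1122110, nat_lit 1, nat_lit 4, nat_lit 0x4a⟩ (t14_5473) (t14_13665))) (.node ⟨nat_lit 4, nat_lit 0xc, nat_lit 0x3012, nat_lit 8, nat_lit 4, nat_lit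 0x48⟩ (.node ⟨nat_lit 8, nat_lit 0x4000400080008000880060, nat_lit 0x1200001, nat_lit 7, nat_lit 4, nat_lit 0x49⟩ (t14_3425) (t14_11617)) (.node ⟨nat_lit 7, nat_lit 0x200040004000440068, nat_lit 0x111112, nat_lit 4, nat_lit 4, nat_lit 0x47⟩ (t14_7521) (.nil))))) (.node ⟨nat_lit 7, nat_lit 0x400020, nat_lit 0x31100, nat_lit 3, nat_lit 4, nat_lit 0x4b⟩ (.node ⟨nat_lit 6, nat_lit 0x200010, nat_lit 0x22202, nat_lit 0, nat_lit 4, nat_lit 0x4a⟩ (.node ⟨nat_lit 5, nat_lit 0x18, nat_lit 0x10111, nat_lit 1, nat_lit 4, nat_lit 0x46⟩ (.node ⟨nat_lit 4, nat_lit 0x80004, nat_lit 0x220, nat_lit 3, nat_lit 3, nat_lit 0x45⟩ (t14_865) (t14_9057)) (.node ⟨nat_lit 8, nat_lit 0x800040002000c0, nat_lit 0x1120012, nat_lit 1, nat_lit 4, nat_lit 0x4a⟩ (t14_4961) (t14_13153))) (.node ⟨nat_lit 7, nat_lit 0x20004000440060, nat_lit 0x1112001, nat_lit 0, nat_lit 4, nat_lit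 0x48⟩ (.node ⟨nat_lit 7, nat_lit 0x40001000200048, nat_lit 0x1112101, nat_lit 2, nat_lit 4, nat_lit 0x49⟩ (t14_2913) (t14_11105)) (.node ⟨nat_lit 6, nat_lit 0x2000240030, nat_lit 0x111312, nat_lit 2, nat_lit 4, nat_lit 0x49⟩ (t14_7009) (t14_15201)))) (.node ⟨nat_lit 3, nat_lit 4, nat_lit 0x22, nat_lit 0xd, nat_lit 4, nat_lit 0x47⟩ (.node ⟨nat_lit 6, nat_lit 0x200030, nat_lit 0x211111, nat_lit 0, nat_lit 4, nat_lit 0x49⟩ (.node ⟨nat_lit 6, nat_lit 0x10001000200022, nat_lit 0x112030, nat_lit 0, nat_lit 4, nat_lit 0x48⟩ (t14_1889) (t14_10081)) (.node ⟨nat_lit 8, nat_lit 0x800040009000c000c8, nat_lit 0x210002, nat_lit 1, nat_lit 4, nat_lit 0x47⟩ (t14_5985) (t14_14177))) (.node ⟨nat_lit 6, nat_lit 0x2000080030, nat_lit 0x21, nat_lit 0, nat_lit 4, nat_lit 0x45⟩ (.node ⟨nat_lit 6, nat_lit 0x800300028, nat_lit 0x110030, nat_lit 0, nat_lit 4, nat_lit 0x46⟩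 (t14_3937) (t14_12129)) (.node ⟨nat_lit 7, nat_lit 0x400042, nat_lit 0x1111012, nat_lit 0, nat_lit 4, nat_lit 0x4a⟩ (t14_8033) (.nil)))))
def t14_225 : Tr := .node ⟨nat_lit 7, nat_lit 0x3000500060, nat_lit 0x1012113, nat_lit 0, nat_lit 4, nat_lit 0x48⟩ (.nil) (.nil)
def t14_8417 : Tr := .node ⟨nat_lit 6, nat_lit 0x20002000100028, nat_lit 0x12213, nat_lit 3, nat_lit 4, nat_lit 0x48⟩ (.nil) (.nil)
def t14_4321 : Tr := .node ⟨nat_lit 9, nat_lit 0x8001000100012000c001a001c0, nat_lit 0x11110111, nat_lit 0, nat_lit 4, nat_lit 0x47⟩ (.nil) (.nil)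
def t14_12513 : Tr := .node ⟨nat_lit 6, nat_lit 0x2800180030, nat_lit 0x110300, nat_lit 2, nat_lit 4, nat_lit 0x46⟩ (.nil) (.nil)
def t14_2273 : Tr := .node ⟨nat_lit 8, nat_lit 0x800040002000c000c0, nat_lit 0x120020, nat_lit 0, nat_lit 3, nat_lit 0x46⟩ (.nil) (.nil)
def t14_10465 : Tr := .node ⟨nat_lit 8, nat_lit 0x80008800c000a0, nat_lit 0x11220, nat_lit 2, nat_lit 4, nat_lit 0x48⟩ (.nil) (.nil)
def t14_6369 : Tr := .node ⟨nat_lit 3, nat_lit 0x40006, nat_lit 0x20, nat_lit 8, nat_lit 4, nat_lit 0x44⟩ (.nil) (.nil)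
def t14_14561 : Tr := .node ⟨nat_lit 4, nat_lit 0x80008, nat_lit 0x231, nat_lit 9, nat_lit 4, nat_lit 0x48⟩ (.nil) (.nil)
def t14_1249 : Tr := .node ⟨nat_lit 7, nat_lit 0x40005000680068, nat_lit 0x1001122, nat_lit 2, nat_lit 4, nat_lit 0x46⟩ (.nil) (.nil)
def t14_9441 : Tr := .node ⟨nat_lit 7, nat_lit 0x200040004000480060, nat_lit 0x111212, nat_lit 3, nat_lit 4, nat_lit 0x48⟩ (.nil) (.nil)
def t14_5345 : Tr := .node ⟨nat_lit 7, nat_lit 0x10001000500060, nat_lit 0x1102030, nat_lit 1, nat_lit 4, nat_lit 0x48⟩ (.nil) (.nil)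
def t14_13537 : Tr := .node ⟨nat_lit 7, nat_lit 0x40004000100068, nat_lit 0x10001, nat_lit 0, nat_lit 4, nat_lit 0x46⟩ (.nil) (.nil)
def t14_3297 : Tr := .node ⟨nat_lit 7, nat_lit 0x400040002000600070, nat_lit 0x20012, nat_lit 5, nat_lit 4, nat_lit 0x47⟩ (.nil) (.nil)
def t14_11489 : Tr := .node ⟨nat_lit 8, nat_lit 0x2000400080008000c4, nat_lit 0x10001110, nat_lit 1, nat_lit 4, nat_lit 0x48⟩ (.nil) (.nil)
def t14_7393 : Tr := .node ⟨nat_lit 7, nat_lit 0x40001000100060, nat_lit 0x111201, nat_lit 0, nat_lit 4, nat_lit 0x48⟩ (.nil) (.nil)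
def t14_15585 : Tr := .node ⟨nat_lit 3, nat_lit 0, nat_lit 0x222, nat_lit 0x11, nat_lit 4, nat_lit 0x4a⟩ (.nil) (.nil)
def t14_737 : Tr := .node ⟨nat_lit 6, nat_lit 0x80030, nat_lit 0x1013, nat_lit 1, nat_lit 4, nat_lit 0x47⟩ (.nil) (.nil)
def t14_8929 : Tr := .node ⟨nat_lit 7, nat_lit 0x6000500070, nat_lit 0x1103, nat_lit 2, nat_lit 4, nat_lit 0x46⟩ (.nil) (.nil)
def t14_4833 : Tr := .node ⟨nat_lit 7, nat_lit 0x40001000480060, nat_lit 0x1112002, nat_lit 3, nat_lit 4, nat_lit 0x49⟩ (.nil) (.nil)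
def t14_13025 : Tr := .node ⟨nat_lit 7, nat_lit 0x200040004800300070, nat_lit 0x213000, nat_lit 0, nat_lit 4, nat_lit 0x47⟩ (.nil) (.nil)
def t14_2785 : Tr := .node ⟨nat_lit 7, nat_lit 0x40001000500060, nat_lit 0x102210, nat_lit 1, nat_lit 4, nat_lit 0x47⟩ (.nil) (.nil)
def t14_10977 : Tr := .node ⟨nat_lit 8, nat_lit 0x8000800040004800a000e0, nat_lit 0x112010, nat_lit 0, nat_lit 4, nat_lit 0x46⟩ (.nil) (.nil)
def t14_6881 : Tr := .node ⟨nat_lit 8, nat_lit 0x80008000400040, nat_lit 0x111020, nat_lit 2, nat_lit 4, nat_lit 0x4a⟩ (.nil) (.nil)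
def t14_15073 : Tr := .node ⟨nat_lit 5, nat_lit 0x1000180018, nat_lit 0x2031, nat_lit 4, nat_lit 4, nat_lit 0x47⟩ (.nil) (.nil)
def t14_1761 : Tr := .node ⟨nat_lit 6, nat_lit 0x1000200038, nat_lit 0x2003, nat_lit 5, nat_lit 4, nat_lit 0x47⟩ (.nil) (.nil)
def t14_9953 : Tr := .node ⟨nat_lit 7, nat_lit 0x6000600070, nat_lit 0x11303, nat_lit 1, nat_lit 4, nat_lit 0x47⟩ (.nil) (.nil)
def t14_5857 : Tr := .node ⟨nat_lit 7, nat_lit 0x400060, nat_lit 0x11102, nat_lit 1, nat_lit 4, nat_lit 0x49⟩ (.nil) (.nil)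
def t14_14049 : Tr := .node ⟨nat_lit 7, nat_lit 0x4000100060, nat_lit 0x11320, nat_lit 1, nat_lit 4, nat_lit 0x49⟩ (.nil) (.nil)
def t14_3809 : Tr := .node ⟨nat_lit 7, nat_lit 0x10004000400060, nat_lit 0x1100220, nat_lit 0, nat_lit 3, nat_lit 0x47⟩ (.nil) (.nil)
def t14_12001 : Tr := .node ⟨nat_lit 8, nat_lit 0x80002000c000a0, nat_lit 0x112110, nat_lit 1, nat_lit 4, nat_lit 0x49⟩ (.nil) (.nil)
def t14_7905 : Tr := .node ⟨nat_lit 5, nat_lit 0x1000100014, nat_lit 0x1120, nat_lit 6, nat_lit 4, nat_lit 0x47⟩ (.nil) (.nil)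
def t9_225 : Tr := .node ⟨nat_lit 4, nat_lit 0, nat_lit 0x3311, nat_lit 0, nat_lit 4, nat_lit 0x49⟩ (.node ⟨nat_lit 5, nat_lit 0x100010, nat_lit 0x11131, nat_lit 0, nat_lit 3, nat_lit 0x47⟩ (.node ⟨nat_lit 5, nat_lit 0x140018, nat_lit 0x11321, nat_lit 3, nat_lit 4, nat_lit 0x48⟩ (.node ⟨nat_lit 5, nat_lit 0x1000080014, nat_lit 0x11230, nat_lit 2, nat_lit 4, nat_lit 0x47⟩ (.node ⟨nat_lit 8, nat_lit 0x8000200020009000c0, nat_lit 0x20011012, nat_lit 2, nat_lit 4, nat_lit 0x49⟩ (t14_225) (t14_8417)) (.node ⟨nat_lit 7, nat_lit 0x40002000680070, nat_lit 0x101132, nat_lit 1, nat_lit 4, nat_lit 0x46⟩ (t14_4321) (t14_12513))) (.node ⟨nat_lit 6, nat_lit 0x200030, nat_lit 0x22102, nat_lit 2, nat_lit 3, nat_lit 0x48⟩ (.node ⟨nat_lit 7, nat_lit 0x2000500060, nat_lit 0x1012013, nat_lit 0, nat_lit 3, nat_lit 0x47⟩ (t14_2273) (t14_10465)) (.node ⟨nat_lit 7, nat_lit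 0x40001000100068, nat_lit 0x2101100, nat_lit 0, nat_lit 4, nat_lit 0x48⟩ (t14_6369) (t14_14561)))) (.node ⟨nat_lit 6, nat_lit 0x20, nat_lit 0x211110, nat_lit 1, nat_lit 4, nat_lit 0x4a⟩ (.node ⟨nat_lit 6, nat_lit 0x200010, nat_lit 0x221111, nat_lit 0, nat_lit 3, nat_lit 0x49⟩ (.node ⟨nat_lit 6, nat_lit 0x200030, nat_lit 0x111104, nat_lit 0, nat_lit 4, nat_lit 0x49⟩ (t14_1249) (t14_9441)) (.node ⟨nat_lit 6, nat_lit 0x2000100010, nat_lit 0x112022, nat_lit 4, nat_lit 4, nat_lit 0x4a⟩ (t14_5345) (t14_13537))) (.node ⟨nat_lit 6, nat_lit 0x1000280034, nat_lit 0x120030, nat_lit 1, nat_lit 4, nat_lit 0x46⟩ (.node ⟨nat_lit 7, nat_lit 0x20001000600050, nat_lit 0x1010204, nat_lit 0, nat_lit 4, nat_lit 0x48⟩ (t14_3297) (t14_11489)) (.node ⟨nat_lit 5, nat_lit 0x40018, nat_lit 0x11012, nat_lit 5, nat_lit 4, nat_lit 0x47⟩ (t14_7393) (t14_15585))))) (.node ⟨nat_lit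 2, nat_lit 0, nat_lit 0x31, nat_lit 5, nat_lit 4, nat_lit 0x44⟩ (.node ⟨nat_lit 6, nat_lit 0x30000c, nat_lit 0x112112, nat_lit 0, nat_lit 4, nat_lit 0x48⟩ (.node ⟨nat_lit 7, nat_lit 0x40004000200048, nat_lit 0x1021200, nat_lit 0, nat_lit 4, nat_lit 0x49⟩ (.node ⟨nat_lit 7, nat_lit 0x40001000680068, nat_lit 0x2120011, nat_lit 1, nat_lit 4, nat_lit 0x48⟩ (t14_737) (t14_8929)) (.node ⟨nat_lit 7, nat_lit 0x10001000600060, nat_lit 0x12020, nat_lit 1, nat_lit 4, nat_lit 0x47⟩ (t14_4833) (t14_13025))) (.node ⟨nat_lit 6, nat_lit 0x2000080030, nat_lit 0x10022, nat_lit 0, nat_lit 4, nat_lit 0x46⟩ (.node ⟨nat_lit 5, nat_lit 0x10001c, nat_lit 0x2123, nat_lit 4, nat_lit 4, nat_lit 0x47⟩ (t14_2785) (t14_10977)) (.node ⟨nat_lit 5, nat_lit 0x18, nat_lit 0x112, nat_lit 2, nat_lit 4, nat_lit 0x46⟩ (t14_6881) (t14_15073)))) (.node ⟨nat_lit 4, nat_lit 0, nat_lit 0x1111,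 nat_lit 2, nat_lit 4, nat_lit 0x46⟩ (.node ⟨nat_lit 6, nat_lit 0x2000080034, nat_lit 0x1121, nat_lit 1, nat_lit 4, nat_lit 0x46⟩ (.node ⟨nat_lit 6, nat_lit 0x20002000280030, nat_lit 0x10203, nat_lit 4, nat_lit 4, nat_lit 0x47⟩ (t14_1761) (t14_9953)) (.node ⟨nat_lit 8, nat_lit 0x800040004000c0, nat_lit 0x220002, nat_lit 1, nat_lit 4, nat_lit 0x4a⟩ (t14_5857) (t14_14049))) (.node ⟨nat_lit 7, nat_lit 0x600018, nat_lit 0x20222, nat_lit 0, nat_lit 4, nat_lit 0x49⟩ (.node ⟨nat_lit 6, nat_lit 0x2000100038, nat_lit 0x110003, nat_lit 2, nat_lit 4, nat_lit 0x46⟩ (t14_3809) (t14_12001)) (.node ⟨nat_lit 5, nat_lit 0x100018, nat_lit 0x1113, nat_lit 5, nat_lit 4, nat_lit 0x47⟩ (t14_7905) (.nil)))))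
def t14_481 : Tr := .node ⟨nat_lit 6, nat_lit 0x800300030, nat_lit 0x112310, nat_lit 0, nat_lit 4, nat_lit 0x48⟩ (.nil) (.nil)
def t14_8673 : Tr := .node ⟨nat_lit 7, nat_lit 0x1000600060, nat_lit 0x1020, nat_lit 2, nat_lit 4, nat_lit 0x47⟩ (.nil) (.nil)
def t14_4577 : Tr := .node ⟨nat_lit 4, nat_lit 0x8000a, nat_lit 0x1230, nat_lit 6, nat_lit 4, nat_lit 0x48⟩ (.nil) (.nil)
def t14_12769 : Tr := .node ⟨nat_lit 7, nat_lit 0x4000100060, nat_lit 0x101300, nat_lit 2, nat_lit 4, nat_lit 0x49⟩ (.nil) (.nil)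
def t14_2529 : Tr := .node ⟨nat_lit 8, nat_lit 0x200080008400c0, nat_lit 0x1020220, nat_lit 0, nat_lit 4, nat_lit 0x49⟩ (.nil) (.nil)
def t14_10721 : Tr := .node ⟨nat_lit 7, nat_lit 0x4000500060, nat_lit 0x111020, nat_lit 0, nat_lit 4, nat_lit 0x48⟩ (.nil) (.nil)
def t14_6625 : Tr := .node ⟨nat_lit 6, nat_lit 0x200030, nat_lit 0x1130, nat_lit 2, nat_lit 4, nat_lit 0x48⟩ (.nil) (.nil)
def t14_14817 : Tr := .node ⟨nat_lit 8, nat_lit 0x40008000800060009000e0, nat_lit 0x1121101, nat_lit 0, nat_lit 4, nat_lit 0x47⟩ (.nil) (.nil)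
def t14_1505 : Tr := .node ⟨nat_lit 7, nat_lit 0x20002000500068, nat_lit 0x1111112, nat_lit 1, nat_lit 4, nat_lit 0x48⟩ (.nil) (.nil)
def t14_9697 : Tr := .node ⟨nat_lit 0xc, nat_lit 0x4000800080008000200010008200840, nat_lit 0x1100001, nat_lit 1, nat_lit 4, nat_lit 0x4b⟩ (.nil) (.nil)
def t14_5601 : Tr := .node ⟨nat_lit 7, nat_lit 0x400040007000700070, nat_lit 0x1101220, nat_lit 1, nat_lit 4, nat_lit 0x46⟩ (.nil) (.nil)
def t14_13793 : Tr := .node ⟨nat_lit 8, nat_lit 0xa000c00050, nat_lit 0x10001120, nat_lit 0, nat_lit 4, nat_lit 0x48⟩ (.nil) (.nil)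
def t14_3553 : Tr := .node ⟨nat_lit 6, nat_lit 0x2800280030, nat_lit 0x11210, nat_lit 2, nat_lit 4, nat_lit 0x46⟩ (.nil) (.nil)
def t14_11745 : Tr := .node ⟨nat_lit 4, nat_lit 0x80004, nat_lit 0x24, nat_lit 5, nat_lit 4, nat_lit 0x46⟩ (.nil) (.nil)
def t14_7649 : Tr := .node ⟨nat_lit 6, nat_lit 0x20001000100028, nat_lit 0x1103, nat_lit 0, nat_lit 4, nat_lit 0x45⟩ (.nil) (.nil)
def t14_993 : Tr := .node ⟨nat_lit 6, nat_lit 0x200030, nat_lit 0x1112, nat_lit 1, nat_lit 4, nat_lit 0x47⟩ (.nil) (.nil)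
def t14_9185 : Tr := .node ⟨nat_lit 8, nat_lit 0x800040004000a000a000c0, nat_lit 0x121002, nat_lit 1, nat_lit 4, nat_lit 0x47⟩ (.nil) (.nil)
def t14_5089 : Tr := .node ⟨nat_lit 7, nat_lit 0x20002000400060, nat_lit 0x11031, nat_lit 0, nat_lit 4, nat_lit 0x48⟩ (.nil) (.nil)
def t14_13281 : Tr := .node ⟨nat_lit 7, nat_lit 0x40001000480060, nat_lit 0x12000, nat_lit 5, nat_lit 4, nat_lit 0x48⟩ (.nil) (.nil)
def t14_3041 : Tr := .node ⟨nat_lit 8, nat_lit 0x4000800060009000d000d0, nat_lit 0x20210011, nat_lit 0, nat_lit 4, nat_lit 0x47⟩ (.nil) (.nil)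
def t14_11233 : Tr := .node ⟨nat_lit 6, nat_lit 0x800300038, nat_lit 0x101030, nat_lit 2, nat_lit 4, nat_lit 0x46⟩ (.nil) (.nil)
def t14_7137 : Tr := .node ⟨nat_lit 7, nat_lit 0x600060, nat_lit 0x1021111, nat_lit 2, nat_lit 4, nat_lit 0x4a⟩ (.nil) (.nil)
def t14_15329 : Tr := .node ⟨nat_lit 7, nat_lit 0x200020004000400040, nat_lit 0x111310, nat_lit 2, nat_lit 4, nat_lit 0x49⟩ (.nil) (.nil)
def t14_2017 : Tr := .node ⟨nat_lit 5, nat_lit 0x1000100008, nat_lit 0x1310, nat_lit 4, nat_lit 4, nat_lit 0x47⟩ (.nil) (.nil)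
def t14_10209 : Tr := .node ⟨nat_lit 7, nat_lit 0x10004000440064, nat_lit 0x100212, nat_lit 2, nat_lit 4, nat_lit 0x47⟩ (.nil) (.nil)
def t14_6113 : Tr := .node ⟨nat_lit 7, nat_lit 0x4000200010, nat_lit 0x2000, nat_lit 5, nat_lit 4, nat_lit 0x49⟩ (.nil) (.nil)
def t14_14305 : Tr := .node ⟨nat_lit 7, nat_lit 0x40001000600068, nat_lit 0x101040, nat_lit 1, nat_lit 4, nat_lit 0x47⟩ (.nil) (.nil)
def t14_4065 : Tr := .node ⟨nat_lit 6, nat_lit 0x2000300028, nat_lit 0x22001, nat_lit 0, nat_lit 3, nat_lit 0x46⟩ (.nil) (.nil)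
def t14_12257 : Tr := .node ⟨nat_lit 6, nat_lit 0x20001000300030, nat_lit 0x1130, nat_lit 7, nat_lit 4, nat_lit 0x47⟩ (.nil) (.nil)
def t14_8161 : Tr := .node ⟨nat_lit 6, nat_lit 0x20001000100028, nat_lit 0x12003, nat_lit 3, nat_lit 4, nat_lit 0x47⟩ (.nil) (.nil)
def t9_481 : Tr := .node ⟨nat_lit 6, nat_lit 0x1000100020, nat_lit 0x301113, nat_lit 0, nat_lit 4, nat_lit 0x4a⟩ (.node ⟨nat_lit 6, nat_lit 0x20001000280028, nat_lit 0x310122, nat_lit 1, nat_lit 4, nat_lit 0x48⟩ (.node ⟨nat_lit 5, nat_lit 0x10, nat_lit 0x21112, nat_lit 5, nat_lit 4, nat_lit 0x4a⟩ (.node ⟨nat_lit 7, nat_lit 0x40002000500064, nat_lit 0x112210, nat_lit 0, nat_lit 4, nat_lit 0x47⟩ (.node ⟨nat_lit 7, nat_lit 0x800500060, nat_lit 0x102112, nat_lit 0, nat_lit 4, nat_lit 0x48⟩ (t14_481) (t14_8673)) (.node ⟨nat_lit 7, nat_lit 0x40004000200048, nat_lit 0x1221020, nat_lit 1, nat_lit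 4, nat_lit 0x4a⟩ (t14_4577) (t14_12769))) (.node ⟨nat_lit 7, nat_lit 0x20001000500068, nat_lit 0x102012, nat_lit 0, nat_lit 4, nat_lit 0x46⟩ (.node ⟨nat_lit 7, nat_lit 0x4000200060, nat_lit 0x1111213, nat_lit 0, nat_lit 4, nat_lit 0x4a⟩ (t14_2529) (t14_10721)) (.node ⟨nat_lit 7, nat_lit 0x4000200060, nat_lit 0x21012, nat_lit 3, nat_lit 4, nat_lit 0x49⟩ (t14_6625) (t14_14817)))) (.node ⟨nat_lit 6, nat_lit 0x2000080030, nat_lit 0x100201, nat_lit 0, nat_lit 4, nat_lit 0x46⟩ (.node ⟨nat_lit 7, nat_lit 0x40004000400020, nat_lit 0x212103, nat_lit 0, nat_lit 4, nat_lit 0x4a⟩ (.node ⟨nat_lit 5, nat_lit 0x100018001c, nat_lit 0x10311, nat_lit 9, nat_lit 4, nat_lit 0x47⟩ (t14_1505) (t14_9697)) (.node ⟨nat_lit 8, nat_lit 0x800040004000a000a000d0, nat_lit 0x11122001, nat_lit 0, nat_lit 4, nat_lit 0x48⟩ (t14_5601) (t14_13793))) (.node ⟨nat_lit 6, nat_lit 0x1000200020,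 nat_lit 0x112300, nat_lit 1, nat_lit 4, nat_lit 0x49⟩ (.node ⟨nat_lit 6, nat_lit 0x1000280034, nat_lit 0x10100, nat_lit 4, nat_lit 4, nat_lit 0x46⟩ (t14_3553) (t14_11745)) (.node ⟨nat_lit 6, nat_lit 0x10002000200024, nat_lit 0x100112, nat_lit 2, nat_lit 4, nat_lit 0x47⟩ (t14_7649) (.nil))))) (.node ⟨nat_lit 4, nat_lit 0x8000a, nat_lit 0x323, nat_lit 5, nat_lit 4, nat_lit 0x47⟩ (.node ⟨nat_lit 5, nat_lit 0x18, nat_lit 0x21220, nat_lit 1, nat_lit 4, nat_lit 0x49⟩ (.node ⟨nat_lit 6, nat_lit 0x20, nat_lit 0x111111, nat_lit 3, nat_lit 3, nat_lit 0x49⟩ (.node ⟨nat_lit 6, nat_lit 0x2000100024, nat_lit 0x101302, nat_lit 4, nat_lit 4, nat_lit 0x49⟩ (t14_993) (t14_9185)) (.node ⟨nat_lit 8, nat_lit 0x80008000800088, nat_lit 0x2211110, nat_lit 0, nat_lit 4, nat_lit 0x4b⟩ (t14_5089) (t14_13281))) (.node ⟨nat_lit 6, nat_lit 0x2000080030, nat_lit 0x101210, nat_lit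 4, nat_lit 4, nat_lit 0x48⟩ (.node ⟨nat_lit 5, nat_lit 0x180018, nat_lit 0x20211, nat_lit 3, nat_lit 3, nat_lit 0x46⟩ (t14_3041) (t14_11233)) (.node ⟨nat_lit 6, nat_lit 0x2000280030, nat_lit 0x11120, nat_lit 4, nat_lit 4, nat_lit 0x47⟩ (t14_7137) (t14_15329)))) (.node ⟨nat_lit 6, nat_lit 0x30, nat_lit 0x112111, nat_lit 2, nat_lit 4, nat_lit 0x4a⟩ (.node ⟨nat_lit 7, nat_lit 0x400060, nat_lit 0x311111, nat_lit 1, nat_lit 4, nat_lit 0x4b⟩ (.node ⟨nat_lit 6, nat_lit 0x1000280030, nat_lit 0x112041, nat_lit 0, nat_lit 4, nat_lit 0x48⟩ (t14_2017) (t14_10209)) (.node ⟨nat_lit 7, nat_lit 0x20005000500068, nat_lit 0x101002, nat_lit 0, nat_lit 4, nat_lit 0x45⟩ (t14_6113) (t14_14305))) (.node ⟨nat_lit 4, nat_lit 0x40008, nat_lit 0x2230, nat_lit 9, nat_lit 4, nat_lit 0x49⟩ (.node ⟨nat_lit 6, nat_lit 0x10001000200038, nat_lit 0x11000, nat_lit 3, nat_lit 4, nat_lit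 0x46⟩ (t14_4065) (t14_12257)) (.node ⟨nat_lit 0xa, nat_lit 0x800100020000400300, nat_lit 0x100101002, nat_lit 1, nat_lit 4, nat_lit 0x4b⟩ (t14_8161) (.nil)))))
def t14_17 : Tr := .node ⟨nat_lit 4, nat_lit 0x40008, nat_lit 0x1101, nat_lit 0xd, nat_lit 4, nat_lit 0x48⟩ (.nil) (.nil)
def t14_8209 : Tr := .node ⟨nat_lit 7, nat_lit 0x40004800300068, nat_lit 0x1103, nat_lit 1, nat_lit 4, nat_lit 0x45⟩ (.nil) (.nil)
def t14_4113 : Tr := .node ⟨nat_lit 7, nat_lit 0x40004000200060, nat_lit 0x111102, nat_lit 4, nat_lit 4, nat_lit 0x49⟩ (.nil) (.nil)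
def t14_12305 : Tr := .node ⟨nat_lit 7, nat_lit 0x20005000600068, nat_lit 0x2103, nat_lit 3, nat_lit 4, nat_lit 0x46⟩ (.nil) (.nil)
def t14_2065 : Tr := .node ⟨nat_lit 8, nat_lit 0x800040004000a000a000c0, nat_lit 0x10131001, nat_lit 0, nat_lit 4, nat_lit 0x48⟩ (.nil) (.nil)
def t14_10257 : Tr := .node ⟨nat_lit 9, nat_lit 0x10001000120011000c001a0, nat_lit 0x100000022, nat_lit 0, nat_lit 4, nat_lit 0x47⟩ (.nil) (.nil)
def t14_6161 : Tr := .node ⟨nat_lit 5, nat_lit 0x1000100014, nat_lit 0x1010, nat_lit 6, nat_lit 4, nat_lit 0x46⟩ (.nil) (.nil)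
def t14_14353 : Tr := .node ⟨nat_lit 7, nat_lit 0x1000100060, nat_lit 0x100, nat_lit 1, nat_lit 4, nat_lit 0x47⟩ (.nil) (.nil)
def t14_1041 : Tr := .node ⟨nat_lit 6, nat_lit 0x2000080034, nat_lit 0x212, nat_lit 0, nat_lit 4, nat_lit 0x45⟩ (.nil) (.nil)
def t14_9233 : Tr := .node ⟨nat_lit 8, nat_lit 0x800020004000a000c0, nat_lit 0x121012, nat_lit 0, nat_lit 4, nat_lit 0x48⟩ (.nil) (.nil)
def t14_5137 : Tr := .node ⟨nat_lit 7, nat_lit 0x400040005000680070, nat_lit 0x103, nat_lit 1, nat_lit 4, nat_lit 0x44⟩ (.nil) (.nil)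
def t14_13329 : Tr := .node ⟨nat_lit 7, nat_lit 0x1000600018, nat_lit 0x320, nat_lit 1, nat_lit 4, nat_lit 0x47⟩ (.nil) (.nil)
def t14_3089 : Tr := .node ⟨nat_lit 7, nat_lit 0x40001000100060, nat_lit 0x1000221, nat_lit 0, nat_lit 4, nat_lit 0x48⟩ (.nil) (.nil)
def t14_11281 : Tr := .node ⟨nat_lit 6, nat_lit 0x800300030, nat_lit 0x100030, nat_lit 0, nat_lit 4, nat_lit 0x46⟩ (.nil) (.nil)
def t14_7185 : Tr := .node ⟨nat_lit 8, nat_lit 0x8000200020009000c0, nat_lit 0x11010011, nat_lit 1, nat_lit 4, nat_lit 0x48⟩ (.nil) (.nil)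
def t14_15377 : Tr := .node ⟨nat_lit 9, nat_lit 0x1000020011001800140, nat_lit 0x121010, nat_lit 2, nat_lit 4, nat_lit 0x49⟩ (.nil) (.nil)
def t14_529 : Tr := .node ⟨nat_lit 3, nat_lit 0x40004, nat_lit 0x222, nat_lit 9, nat_lit 3, nat_lit 0x46⟩ (.nil) (.nil)
def t14_8721 : Tr := .node ⟨nat_lit 8, nat_lit 0x200040003000a000c0, nat_lit 0x10102, nat_lit 0, nat_lit 4, nat_lit 0x46⟩ (.nil) (.nil)
def t14_4625 : Tr := .node ⟨nat_lit 8, nat_lit 0x800020002800a000d0, nat_lit 0x12020011, nat_lit 0, nat_lit 4, nat_lit 0x48⟩ (.nil) (.nil)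
def t14_12817 : Tr := .node ⟨nat_lit 6, nat_lit 0x20001000280030, nat_lit 0x2200, nat_lit 3, nat_lit 4, nat_lit 0x46⟩ (.nil) (.nil)
def t14_2577 : Tr := .node ⟨nat_lit 7, nat_lit 0x400040002000200070, nat_lit 0x1012310, nat_lit 1, nat_lit 4, nat_lit 0x48⟩ (.nil) (.nil)
def t14_10769 : Tr := .node ⟨nat_lit 8, nat_lit 0x80008800c000a0, nat_lit 0x10022, nat_lit 0, nat_lit 4, nat_lit 0x47⟩ (.nil) (.nil)
def t14_6673 : Tr := .node ⟨nat_lit 5, nat_lit 0x100008, nat_lit 0x1111, nat_lit 7, nat_lit 4, nat_lit 0x48⟩ (.nil) (.nil)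
def t14_14865 : Tr := .node ⟨nat_lit 7, nat_lit 0x40004000400048, nat_lit 0x111111, nat_lit 7, nat_lit 4, nat_lit 0x4a⟩ (.nil) (.nil)
def t14_1553 : Tr := .node ⟨nat_lit 9, nat_lit 0x10001000080008001200180, nat_lit 0x1101012, nat_lit 1, nat_lit 4, nat_lit 0x49⟩ (.nil) (.nil)
def t14_9745 : Tr := .node ⟨nat_lit 7, nat_lit 0x40001000480060, nat_lit 0x100201, nat_lit 0, nat_lit 4, nat_lit 0x46⟩ (.nil) (.nil)
def t14_5649 : Tr := .node ⟨nat_lit 5, nat_lit 0x180018, nat_lit 0x120, nat_lit 4, nat_lit 4, nat_lit 0x45⟩ (.nil) (.nil)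
def t14_13841 : Tr := .node ⟨nat_lit 7, nat_lit 0x20003000500068, nat_lit 0x2010, nat_lit 0, nat_lit 4, nat_lit 0x45⟩ (.nil) (.nil)
def t14_3601 : Tr := .node ⟨nat_lit 7, nat_lit 0x60006000500030, nat_lit 0x12121, nat_lit 2, nat_lit 4, nat_lit 0x46⟩ (.nil) (.nil)
def t14_11793 : Tr := .node ⟨nat_lit 7, nat_lit 0x4000600018, nat_lit 0x10013, nat_lit 1, nat_lit 4, nat_lit 0x47⟩ (.nil) (.nil)
def t14_7697 : Tr := .node ⟨nat_lit 8, nat_lit 0x80004000200010, nat_lit 0, nat_lit 0, nat_lit 4, nat_lit 0x47⟩ (.nil) (.nil)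
def t9_17 : Tr := .node ⟨nat_lit 5, nat_lit 0x18, nat_lit 0x31211, nat_lit 0, nat_lit 4, nat_lit 0x49⟩ (.node ⟨nat_lit 4, nat_lit 0x80004, nat_lit 0x1103, nat_lit 1, nat_lit 3, nat_lit 0x45⟩ (.node ⟨nat_lit 6, nat_lit 0x3000300030, nat_lit 0x3210, nat_lit 5, nat_lit 4, nat_lit 0x47⟩ (.node ⟨nat_lit 5, nat_lit 0x80010, nat_lit 0x21220, nat_lit 0, nat_lit 4, nat_lit 0x48⟩ (.node ⟨nat_lit 6, nat_lit 0x1000200020, nat_lit 0x122310, nat_lit 1, nat_lit 4, nat_lit 0x4a⟩ (t14_17) (t14_8209)) (.node ⟨nat_lit 6, nat_lit 0x1000100020, nat_lit 0x110001, nat_lit 0, nat_lit 4, nat_lit 0x47⟩ (t14_4113) (t14_12305))) (.node ⟨nat_lit 6, nat_lit 0x80030, nat_lit 0x310203, nat_lit 1, nat_lit 4, nat_lit 0x4a⟩ (.node ⟨nat_lit 6, nat_lit 0x200020, nat_lit 0x121131, nat_lit 2, nat_lit 4, nat_lit 0x4b⟩ (t14_2065) (t14_10257)) (.node ⟨nat_lit 7, nat_lit 0x40002000480068,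 nat_lit 0x121010, nat_lit 0, nat_lit 4, nat_lit 0x47⟩ (t14_6161) (t14_14353)))) (.node ⟨nat_lit 4, nat_lit 0x8000e, nat_lit 0x2120, nat_lit 6, nat_lit 4, nat_lit 0x47⟩ (.node ⟨nat_lit 6, nat_lit 0x2000100010, nat_lit 0x22021, nat_lit 3, nat_lit 4, nat_lit 0x4a⟩ (.node ⟨nat_lit 6, nat_lit 0x2000240018, nat_lit 0x111201, nat_lit 0, nat_lit 4, nat_lit 0x47⟩ (t14_1041) (t14_9233)) (.node ⟨nat_lit 6, nat_lit 0x200020, nat_lit 0x121100, nat_lit 5, nat_lit 3, nat_lit 0x49⟩ (t14_5137) (t14_13329))) (.node ⟨nat_lit 5, nat_lit 0x100018, nat_lit 0x12103, nat_lit 2, nat_lit 4, nat_lit 0x48⟩ (.node ⟨nat_lit 8, nat_lit 0x200040008000e0, nat_lit 0x11010003, nat_lit 1, nat_lit 4, nat_lit 0x49⟩ (t14_3089) (t14_11281)) (.node ⟨nat_lit 6, nat_lit 0x2000240018, nat_lit 0x10202, nat_lit 1, nat_lit 4, nat_lit 0x46⟩ (t14_7185) (t14_15377))))) (.node ⟨nat_lit 6, nat_lit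 0x30, nat_lit 0x213110, nat_lit 1, nat_lit 4, nat_lit 0x4b⟩ (.node ⟨nat_lit 4, nat_lit 8, nat_lit 0x2211, nat_lit 5, nat_lit 4, nat_lit 0x48⟩ (.node ⟨nat_lit 5, nat_lit 0x800080010, nat_lit 0x21111, nat_lit 5, nat_lit 4, nat_lit 0x48⟩ (.node ⟨nat_lit 6, nat_lit 0x20002000240028, nat_lit 0x121101, nat_lit 4, nat_lit 4, nat_lit 0x48⟩ (t14_529) (t14_8721)) (.node ⟨nat_lit 7, nat_lit 0x4000400060, nat_lit 0x1111212, nat_lit 0, nat_lit 4, nat_lit 0x4a⟩ (t14_4625) (t14_12817))) (.node ⟨nat_lit 6, nat_lit 0x2000100030, nat_lit 0x11021, nat_lit 1, nat_lit 3, nat_lit 0x46⟩ (.node ⟨nat_lit 7, nat_lit 0x400040, nat_lit 0x1111131, nat_lit 2, nat_lit 4, nat_lit 0x4c⟩ (t14_2577) (t14_10769)) (.node ⟨nat_lit 9, nat_lit 0x10001000080012001200120, nat_lit 0x12001200, nat_lit 1, nat_lit 4, nat_lit 0x49⟩ (t14_6673) (t14_14865)))) (.node ⟨nat_lit 4, nat_lit 0x40008,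 nat_lit 0x1222, nat_lit 7, nat_lit 4, nat_lit 0x48⟩ (.node ⟨nat_lit 7, nat_lit 0x4000400020, nat_lit 0x122001, nat_lit 1, nat_lit 4, nat_lit 0x4a⟩ (.node ⟨nat_lit 5, nat_lit 0x800100018, nat_lit 0x1331, nat_lit 3, nat_lit 4, nat_lit 0x47⟩ (t14_1553) (t14_9745)) (.node ⟨nat_lit 8, nat_lit 0x800080004000400090, nat_lit 0x11111210, nat_lit 0, nat_lit 4, nat_lit 0x4a⟩ (t14_5649) (t14_13841))) (.node ⟨nat_lit 0, nat_lit 0, nat_lit 0, nat_lit 0xb, nat_lit 3, nat_lit 0x41⟩ (.node ⟨nat_lit 7, nat_lit 0x1000600070, nat_lit 0x11003, nat_lit 2, nat_lit 4, nat_lit 0x47⟩ (t14_3601) (t14_11793)) (.node ⟨nat_lit 6, nat_lit 0x20001000280028, nat_lit 0x112010, nat_lit 5, nat_lit 4, nat_lit 0x48⟩ (t14_7697) (.nil)))))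
def t14_273 : Tr := .node ⟨nat_lit 7, nat_lit 0x10001800500060, nat_lit 0x1102111, nat_lit 0, nat_lit 4, nat_lit 0x47⟩ (.nil) (.nil)
def t14_8465 : Tr := .node ⟨nat_lit 6, nat_lit 0x2000100030, nat_lit 0x311, nat_lit 2, nat_lit 4, nat_lit 0x47⟩ (.nil) (.nil)
def t14_4369 : Tr := .node ⟨nat_lit 7, nat_lit 0x400040002000480070, nat_lit 0x1011120, nat_lit 1, nat_lit 4, nat_lit 0x47⟩ (.nil) (.nil)
def t14_12561 : Tr := .node ⟨nat_lit 8, nat_lit 0x8000200090006000d0, nat_lit 0x10000001, nat_lit 1, nat_lit 4, nat_lit 0x46⟩ (.nil) (.nil)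
def t14_2321 : Tr := .node ⟨nat_lit 4, nat_lit 0x8000e, nat_lit 0x220, nat_lit 7, nat_lit 4, nat_lit 0x46⟩ (.nil) (.nil)
def t14_10513 : Tr := .node ⟨nat_lit 7, nat_lit 0x1000500060, nat_lit 0x111020, nat_lit 0, nat_lit 4, nat_lit 0x48⟩ (.nil) (.nil)
def t14_6417 : Tr := .node ⟨nat_lit 8, nat_lit 0x8000800040, nat_lit 0x1111101, nat_lit 0, nat_lit 4, nat_lit 0x4b⟩ (.nil) (.nil)
def t14_14609 : Tr := .node ⟨nat_lit 7, nat_lit 0x40, nat_lit 0x111110, nat_lit 2, nat_lit 3, nat_lit 0x4a⟩ (.nil) (.nil)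
def t14_1297 : Tr := .node ⟨nat_lit 7, nat_lit 0x40002000200010, nat_lit 0x10211, nat_lit 5, nat_lit 4, nat_lit 0x49⟩ (.nil) (.nil)
def t14_9489 : Tr := .node ⟨nat_lit 0xa, nat_lit 0x800200020000c0021002200300, nat_lit 0x110110101, nat_lit 0, nat_lit 4, nat_lit 0x49⟩ (.nil) (.nil)
def t14_5393 : Tr := .node ⟨nat_lit 8, nat_lit 0x4000800080008800900060, nat_lit 0x210011, nat_lit 0, nat_lit 4, nat_lit 0x46⟩ (.nil) (.nil)
def t14_13585 : Tr := .node ⟨nat_lit 7, nat_lit 0x40001000100020, nat_lit 0x1102, nat_lit 0, nat_lit 4, nat_lit 0x47⟩ (.nil) (.nil)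
def t14_3345 : Tr := .node ⟨nat_lit 6, nat_lit 0x20002000280028, nat_lit 0x21011, nat_lit 3, nat_lit 4, nat_lit 0x47⟩ (.nil) (.nil)
def t14_11537 : Tr := .node ⟨nat_lit 4, nat_lit 0x8000e, nat_lit 0x132, nat_lit 7, nat_lit 4, nat_lit 0x46⟩ (.nil) (.nil)
def t14_7441 : Tr := .node ⟨nat_lit 6, nat_lit 0x200030, nat_lit 0x111111, nat_lit 7, nat_lit 4, nat_lit 0x4a⟩ (.nil) (.nil)
def t14_785 : Tr := .node ⟨nat_lit 6, nat_lit 0x2000200010, nat_lit 0x11321, nat_lit 2, nat_lit 4, nat_lit 0x49⟩ (.nil) (.nil)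
def t14_8977 : Tr := .node ⟨nat_lit 8, nat_lit 0x4000800080009000900088, nat_lit 0x11201, nat_lit 5, nat_lit 4, nat_lit 0x48⟩ (.nil) (.nil)
def t14_4881 : Tr := .node ⟨nat_lit 7, nat_lit 0x40004800480030, nat_lit 0x101101, nat_lit 0, nat_lit 4, nat_lit 0x46⟩ (.nil) (.nil)
def t14_13073 : Tr := .node ⟨nat_lit 6, nat_lit 0x3000300028, nat_lit 0x113, nat_lit 3, nat_lit 4, nat_lit 0x45⟩ (.nil) (.nil)
def t14_2833 : Tr := .node ⟨nat_lit 7, nat_lit 0x1000100060, nat_lit 0x11000, nat_lit 1, nat_lit 4, nat_lit 0x48⟩ (.nil) (.nil)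
def t14_11025 : Tr := .node ⟨nat_lit 6, nat_lit 0x2000300030, nat_lit 0x101120, nat_lit 7, nat_lit 4, nat_lit 0x48⟩ (.nil) (.nil)
def t14_6929 : Tr := .node ⟨nat_lit 7, nat_lit 0x10004000440060, nat_lit 0x1200101, nat_lit 5, nat_lit 4, nat_lit 0x49⟩ (.nil) (.nil)
def t14_15121 : Tr := .node ⟨nat_lit 7, nat_lit 0x40004800300068, nat_lit 0x1111, nat_lit 1, nat_lit 4, nat_lit 0x45⟩ (.nil) (.nil)
def t14_1809 : Tr := .node ⟨nat_lit 7, nat_lit 0x2000600050, nat_lit 0x1021002, nat_lit 1, nat_lit 4, nat_lit 0x49⟩ (.nil) (.nil)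
def t14_10001 : Tr := .node ⟨nat_lit 7, nat_lit 0x400020005000500060, nat_lit 0x3100, nat_lit 2, nat_lit 4, nat_lit 0x46⟩ (.nil) (.nil)
def t14_5905 : Tr := .node ⟨nat_lit 7, nat_lit 0x2000400064, nat_lit 0x111101, nat_lit 1, nat_lit 4, nat_lit 0x48⟩ (.nil) (.nil)
def t14_14097 : Tr := .node ⟨nat_lit 6, nat_lit 0x10001000200030, nat_lit 0x11, nat_lit 5, nat_lit 4, nat_lit 0x46⟩ (.nil) (.nil)
def t14_3857 : Tr := .node ⟨nat_lit 8, nat_lit 0x800080008000400090, nat_lit 0x1111001, nat_lit 5, nat_lit 4, nat_lit 0x4a⟩ (.nil) (.nil)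
def t14_12049 : Tr := .node ⟨nat_lit 6, nat_lit 0x10002000240030, nat_lit 0x10210, nat_lit 5, nat_lit 4, nat_lit 0x47⟩ (.nil) (.nil)
def t14_7953 : Tr := .node ⟨nat_lit 8, nat_lit 0x8000400020009000c0, nat_lit 0x120021, nat_lit 1, nat_lit 4, nat_lit 0x48⟩ (.nil) (.nil)
def t9_273 : Tr := .node ⟨nat_lit 5, nat_lit 0x80010, nat_lit 0x20321, nat_lit 0, nat_lit 4, nat_lit 0x48⟩ (.node ⟨nat_lit 7, nat_lit 0x400020002000500050, nat_lit 0x3011021, nat_lit 1, nat_lit 4, nat_lit 0x49⟩ (.node ⟨nat_lit 7, nat_lit 0x1000500060, nat_lit 0x113120, nat_lit 0, nat_lit 4, nat_lit 0x49⟩ (.node ⟨nat_lit 5, nat_lit 0x1000100008, nat_lit 0x11213, nat_lit 1, nat_lit 3, nat_lit 0x46⟩ (.node ⟨nat_lit 6, nat_lit 0x2000100010, nat_lit 0x21021, nat_lit 5, nat_lit 4, nat_lit 0x4a⟩ (t14_273) (t14_8465)) (.node ⟨nat_lit 7, nat_lit 0x40002000100060, nat_lit 0x1110013, nat_lit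 1, nat_lit 3, nat_lit 0x47⟩ (t14_4369) (t14_12561))) (.node ⟨nat_lit 8, nat_lit 0x80004000200010, nat_lit 0x200012, nat_lit 0, nat_lit 3, nat_lit 0x48⟩ (.node ⟨nat_lit 6, nat_lit 0x2800300030, nat_lit 0x12230, nat_lit 1, nat_lit 3, nat_lit 0x45⟩ (t14_2321) (t14_10513)) (.node ⟨nat_lit 7, nat_lit 0x10001000600060, nat_lit 0x1102030, nat_lit 0, nat_lit 4, nat_lit 0x48⟩ (t14_6417) (t14_14609)))) (.node ⟨nat_lit 4, nat_lit 0x40008, nat_lit 0x1211, nat_lit 9, nat_lit 4, nat_lit 0x48⟩ (.node ⟨nat_lit 7, nat_lit 0x40004000100020, nat_lit 0x221011, nat_lit 3, nat_lit 4, nat_lit 0x4a⟩ (.node ⟨nat_lit 5, nat_lit 0x1000080014, nat_lit 0x12103, nat_lit 3, nat_lit 4, nat_lit 0x47⟩ (t14_1297) (t14_9489)) (.node ⟨nat_lit 7, nat_lit 0x4000200060, nat_lit 0x1111212, nat_lit 0, nat_lit 4, nat_lit 0x4a⟩ (t14_5393) (t14_13585))) (.node ⟨nat_lit 6, nat_lit 0x20001000100028,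 nat_lit 0x12220, nat_lit 0, nat_lit 4, nat_lit 0x47⟩ (.node ⟨nat_lit 7, nat_lit 0x40001000500060, nat_lit 0x210131, nat_lit 0, nat_lit 4, nat_lit 0x48⟩ (t14_3345) (t14_11537)) (.node ⟨nat_lit 7, nat_lit 0x4000500060, nat_lit 0x1111121, nat_lit 1, nat_lit 4, nat_lit 0x49⟩ (t14_7441) (.nil))))) (.node ⟨nat_lit 5, nat_lit 0x18, nat_lit 0x11310, nat_lit 0, nat_lit 4, nat_lit 0x48⟩ (.node ⟨nat_lit 6, nat_lit 0x200032, nat_lit 0x211120, nat_lit 0, nat_lit 4, nat_lit 0x49⟩ (.node ⟨nat_lit 4, nat_lit 0xc, nat_lit 0x1013, nat_lit 3, nat_lit 4, nat_lit 0x45⟩ (.node ⟨nat_lit 7, nat_lit 0x40004000200048, nat_lit 0x2120210, nat_lit 0, nat_lit 4, nat_lit 0x4a⟩ (t14_785) (t14_8977)) (.node ⟨nat_lit 7, nat_lit 0x10002000500060, nat_lit 0x1112210, nat_lit 0, nat_lit 4, nat_lit 0x48⟩ (t14_4881) (t14_13073))) (.node ⟨nat_lit 6, nat_lit 0x2000100038, nat_lit 0x11132,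 nat_lit 0, nat_lit 4, nat_lit 0x47⟩ (.node ⟨nat_lit 7, nat_lit 0x20005000600060, nat_lit 0x20320, nat_lit 0, nat_lit 3, nat_lit 0x45⟩ (t14_2833) (t14_11025)) (.node ⟨nat_lit 7, nat_lit 0x40002000500068, nat_lit 0x1112121, nat_lit 0, nat_lit 4, nat_lit 0x48⟩ (t14_6929) (t14_15121)))) (.node ⟨nat_lit 6, nat_lit 0x2000100010, nat_lit 0x11021, nat_lit 1, nat_lit 4, nat_lit 0x48⟩ (.node ⟨nat_lit 6, nat_lit 0x800300038, nat_lit 0x101232, nat_lit 0, nat_lit 4, nat_lit 0x46⟩ (.node ⟨nat_lit 5, nat_lit 0x800080010, nat_lit 0x10204, nat_lit 1, nat_lit 3, nat_lit 0x46⟩ (t14_1809) (t14_10001)) (.node ⟨nat_lit 7, nat_lit 0x40004000200060, nat_lit 0x121002, nat_lit 3, nat_lit 4, nat_lit 0x49⟩ (t14_5905) (t14_14097))) (.node ⟨nat_lit 7, nat_lit 0x20005000600060, nat_lit 0x20222, nat_lit 1, nat_lit 4, nat_lit 0x47⟩ (.node ⟨nat_lit 6, nat_lit 0x1000280030, nat_lit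 0x100011, nat_lit 0, nat_lit 4, nat_lit 0x45⟩ (t14_3857) (t14_12049)) (.node ⟨nat_lit 6, nat_lit 0x800300030, nat_lit 0x111120, nat_lit 1, nat_lit 4, nat_lit 0x47⟩ (t14_7953) (.nil)))))
def t14_145 : Tr := .node ⟨nat_lit 7, nat_lit 0x10002000500060, nat_lit 0x1111012, nat_lit 1, nat_lit 4, nat_lit 0x48⟩ (.nil) (.nil)
def t14_8337 : Tr := .node ⟨nat_lit 7, nat_lit 0x20003000500068, nat_lit 0x20, nat_lit 0, nat_lit 4, nat_lit 0x44⟩ (.nil) (.nil)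
def t14_4241 : Tr := .node ⟨nat_lit 5, nat_lit 0x100008001a, nat_lit 0x2121, nat_lit 5, nat_lit 4, nat_lit 0x47⟩ (.nil) (.nil)
def t14_12433 : Tr := .node ⟨nat_lit 6, nat_lit 0x20001000100030, nat_lit 0x100410, nat_lit 0, nat_lit 3, nat_lit 0x46⟩ (.nil) (.nil)
def t14_2193 : Tr := .node ⟨nat_lit 7, nat_lit 0x40001000500068, nat_lit 0x202020, nat_lit 1, nat_lit 4, nat_lit 0x47⟩ (.nil) (.nil)
def t14_10385 : Tr := .node ⟨nat_lit 8, nat_lit 0x10008000a000c0, nat_lit 0x100220, nat_lit 4, nat_lit 4, nat_lit 0x49⟩ (.nil) (.nil)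
def t14_6289 : Tr := .node ⟨nat_lit 6, nat_lit 0x2000240030, nat_lit 0x1220, nat_lit 3, nat_lit 4, nat_lit 0x47⟩ (.nil) (.nil)
def t14_14481 : Tr := .node ⟨nat_lit 7, nat_lit 0x20004000600064, nat_lit 0x11120, nat_lit 3, nat_lit 4, nat_lit 0x47⟩ (.nil) (.nil)
def t14_1169 : Tr := .node ⟨nat_lit 5, nat_lit 0x40018, nat_lit 0x21021, nat_lit 2, nat_lit 3, nat_lit 0x46⟩ (.nil) (.nil)
def t14_9361 : Tr := .node ⟨nat_lit 8, nat_lit 0x8000900060006000c0, nat_lit 0x10020212, nat_lit 0, nat_lit 4, nat_lit 0x47⟩ (.nil) (.nil)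
def t14_5265 : Tr := .node ⟨nat_lit 6, nat_lit 0x800200030, nat_lit 0x120030, nat_lit 3, nat_lit 4, nat_lit 0x49⟩ (.nil) (.nil)
def t14_13457 : Tr := .node ⟨nat_lit 5, nat_lit 0x100010, nat_lit 0x22100, nat_lit 2, nat_lit 3, nat_lit 0x48⟩ (.nil) (.nil)
def t14_3217 : Tr := .node ⟨nat_lit 7, nat_lit 0x10004000180060, nat_lit 0x101101, nat_lit 0, nat_lit 4, nat_lit 0x46⟩ (.nil) (.nil)
def t14_11409 : Tr := .node ⟨nat_lit 5, nat_lit 0x40018, nat_lit 0x22030, nat_lit 0, nat_lit 4, nat_lit 0x47⟩ (.nil) (.nil)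
def t14_7313 : Tr := .node ⟨nat_lit 7, nat_lit 0x400040004000200020, nat_lit 0x120021, nat_lit 4, nat_lit 4, nat_lit 0x49⟩ (.nil) (.nil)
def t14_15505 : Tr := .node ⟨nat_lit 9, nat_lit 0x40008001400180, nat_lit 0x100110012, nat_lit 0, nat_lit 4, nat_lit 0x4a⟩ (.nil) (.nil)
def t14_657 : Tr := .node ⟨nat_lit 4, nat_lit 0x8000c, nat_lit 0x231, nat_lit 7, nat_lit 4, nat_lit 0x47⟩ (.nil) (.nil)
def t14_8849 : Tr := .node ⟨nat_lit 5, nat_lit 0x80010001c, nat_lit 0x1130, nat_lit 4, nat_lit 4, nat_lit 0x46⟩ (.nil) (.nil)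
def t14_4753 : Tr := .node ⟨nat_lit 6, nat_lit 0x20002800300038, nat_lit 0x101032, nat_lit 4, nat_lit 4, nat_lit 0x46⟩ (.nil) (.nil)
def t14_12945 : Tr := .node ⟨nat_lit 7, nat_lit 0x20005000300060, nat_lit 0x201, nat_lit 1, nat_lit 4, nat_lit 0x45⟩ (.nil) (.nil)
def t14_2705 : Tr := .node ⟨nat_lit 7, nat_lit 0x1000600070, nat_lit 0x1010013, nat_lit 0, nat_lit 4, nat_lit 0x47⟩ (.nil) (.nil)
def t14_10897 : Tr := .node ⟨nat_lit 7, nat_lit 0x400020002000500060, nat_lit 0x12003, nat_lit 3, nat_lit 4, nat_lit 0x47⟩ (.nil) (.nil)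
def t14_6801 : Tr := .node ⟨nat_lit 6, nat_lit 0x200030, nat_lit 0x31110, nat_lit 2, nat_lit 4, nat_lit 0x49⟩ (.nil) (.nil)
def t14_14993 : Tr := .node ⟨nat_lit 7, nat_lit 0x400040005000500058, nat_lit 0x1111111, nat_lit 3, nat_lit 4, nat_lit 0x48⟩ (.nil) (.nil)
def t14_1681 : Tr := .node ⟨nat_lit 6, nat_lit 0x2000080030, nat_lit 0x1202, nat_lit 0, nat_lit 4, nat_lit 0x46⟩ (.nil) (.nil)
def t14_9873 : Tr := .node ⟨nat_lit 9, nat_lit 0x10001000080008000800120, nat_lit 0x2002200, nat_lit 1, nat_lit 4, nat_lit 0x4a⟩ (.nil) (.nil)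
def t14_5777 : Tr := .node ⟨nat_lit 5, nat_lit 0x100018, nat_lit 0x1112, nat_lit 9, nat_lit 4, nat_lit 0x48⟩ (.nil) (.nil)
def t14_13969 : Tr := .node ⟨nat_lit 6, nat_lit 0x2000200034, nat_lit 0x1112, nat_lit 4, nat_lit 4, nat_lit 0x47⟩ (.nil) (.nil)
def t14_3729 : Tr := .node ⟨nat_lit 8, nat_lit 0x40008000800060009000e0, nat_lit 0x2120011, nat_lit 0, nat_lit 4, nat_lit 0x48⟩ (.nil) (.nil)
def t14_11921 : Tr := .node ⟨nat_lit 6, nat_lit 0x2000080030, nat_lit 0x230, nat_lit 4, nat_lit 4, nat_lit 0x47⟩ (.nil) (.nil)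
def t14_7825 : Tr := .node ⟨nat_lit 6, nat_lit 0x2000100024, nat_lit 0x12213, nat_lit 1, nat_lit 4, nat_lit 0x48⟩ (.nil) (.nil)
def t9_145 : Tr := .node ⟨nat_lit 5, nat_lit 0x10, nat_lit 0x31111, nat_lit 3, nat_lit 4, nat_lit 0x4a⟩ (.node ⟨nat_lit 3, nat_lit 6, nat_lit 0x111, nat_lit 2, nat_lit 3, nat_lit 0x43⟩ (.node ⟨nat_lit 6, nat_lit 0x10002000200030, nat_lit 0x2002, nat_lit 0, nat_lit 3, nat_lit 0x44⟩ (.node ⟨nat_lit 6, nat_lit 0x20, nat_lit 0x21110, nat_lit 2, nat_lit 4, nat_lit 0x4a⟩ (.node ⟨nat_lit 7, nat_lit 0x40002000500064, nat_lit 0x212201, nat_lit 0, nat_lit 4, nat_lit 0x48⟩ (t14_145) (t14_8337)) (.node ⟨nat_lit 8, nat_lit 0x2000800080004000c0, nat_lit 0x1002003, nat_lit 2, nat_lit 4, nat_lit 0x49⟩ (t14_4241) (t14_12433))) (.node ⟨nat_lit 6, nat_lit 0x2000200030, nat_lit 0x12110, nat_lit 4, nat_lit 4, nat_lit 0x48⟩ (.node ⟨nat_lit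 6, nat_lit 0x2000080030, nat_lit 0x11220, nat_lit 1, nat_lit 4, nat_lit 0x47⟩ (t14_2193) (t14_10385)) (.node ⟨nat_lit 6, nat_lit 0x2000200030, nat_lit 0x12102, nat_lit 7, nat_lit 4, nat_lit 0x49⟩ (t14_6289) (t14_14481)))) (.node ⟨nat_lit 3, nat_lit 0, nat_lit 0x221, nat_lit 8, nat_lit 3, nat_lit 0x47⟩ (.node ⟨nat_lit 5, nat_lit 0x800100018, nat_lit 0x12211, nat_lit 5, nat_lit 4, nat_lit 0x48⟩ (.node ⟨nat_lit 5, nat_lit 0x100012, nat_lit 0x12130, nat_lit 3, nat_lit 4, nat_lit 0x49⟩ (t14_1169) (t14_9361)) (.node ⟨nat_lit 7, nat_lit 0x2000400060, nat_lit 0x1111221, nat_lit 1, nat_lit 4, nat_lit 0x4a⟩ (t14_5265) (t14_13457))) (.node ⟨nat_lit 6, nat_lit 0x1000200034, nat_lit 0x112010, nat_lit 1, nat_lit 4, nat_lit 0x47⟩ (.node ⟨nat_lit 7, nat_lit 0x20004000100060, nat_lit 0x1021300, nat_lit 1, nat_lit 4, nat_lit 0x49⟩ (t14_3217) (t14_11409)) (.node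 ⟨nat_lit 7, nat_lit 0x800600050, nat_lit 0x1001010, nat_lit 1, nat_lit 4, nat_lit 0x47⟩ (t14_7313) (t14_15505))))) (.node ⟨nat_lit 5, nat_lit 0x1000100008, nat_lit 0x3102, nat_lit 7, nat_lit 4, nat_lit 0x49⟩ (.node ⟨nat_lit 7, nat_lit 0x4000200010, nat_lit 0x21003, nat_lit 1, nat_lit 4, nat_lit 0x4a⟩ (.node ⟨nat_lit 5, nat_lit 0x100018, nat_lit 0x21221, nat_lit 1, nat_lit 3, nat_lit 0x47⟩ (.node ⟨nat_lit 7, nat_lit 0x1800180060, nat_lit 0x2110210, nat_lit 1, nat_lit 4, nat_lit 0x48⟩ (t14_657) (t14_8849)) (.node ⟨nat_lit 7, nat_lit 0x40002000200064, nat_lit 0x112201, nat_lit 0, nat_lit 4, nat_lit 0x48⟩ (t14_4753) (t14_12945))) (.node ⟨nat_lit 5, nat_lit 0x80010001c, nat_lit 0x11112, nat_lit 4, nat_lit 4, nat_lit 0x46⟩ (.node ⟨nat_lit 6, nat_lit 0x800200030, nat_lit 0x100230, nat_lit 1, nat_lit 4, nat_lit 0x47⟩ (t14_2705) (t14_10897)) (.node ⟨nat_lit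 7, nat_lit 0x40001000480060, nat_lit 0x11310, nat_lit 0, nat_lit 4, nat_lit 0x47⟩ (t14_6801) (t14_14993)))) (.node ⟨nat_lit 1, nat_lit 0, nat_lit 2, nat_lit 0x13, nat_lit 4, nat_lit 0x46⟩ (.node ⟨nat_lit 7, nat_lit 0x800100060, nat_lit 0x2011111, nat_lit 0, nat_lit 4, nat_lit 0x49⟩ (.node ⟨nat_lit 6, nat_lit 0x1000300028, nat_lit 0x11013, nat_lit 1, nat_lit 4, nat_lit 0x46⟩ (t14_1681) (t14_9873)) (.node ⟨nat_lit 6, nat_lit 0x280030, nat_lit 0x112220, nat_lit 1, nat_lit 4, nat_lit 0x49⟩ (t14_5777) (t14_13969))) (.node ⟨nat_lit 4, nat_lit 0x8000c, nat_lit 0x21, nat_lit 2, nat_lit 3, nat_lit 0x43⟩ (.node ⟨nat_lit 5, nat_lit 0x100018, nat_lit 0x10130, nat_lit 1, nat_lit 3, nat_lit 0x46⟩ (t14_3729) (t14_11921)) (.node ⟨nat_lit 7, nat_lit 0x40002000200020, nat_lit 0x110221, nat_lit 0, nat_lit 3, nat_lit 0x48⟩ (t14_7825) (.nil)))))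
def t14_401 : Tr := .node ⟨nat_lit 6, nat_lit 0x200020, nat_lit 0x121111, nat_lit 6, nat_lit 4, nat_lit 0x4b⟩ (.nil) (.nil)
def t14_8593 : Tr := .node ⟨nat_lit 4, nat_lit 0xc000c, nat_lit 0x2010, nat_lit 4, nat_lit 3, nat_lit 0x44⟩ (.nil) (.nil)
def t14_4497 : Tr := .node ⟨nat_lit 5, nat_lit 0x100018, nat_lit 0x12121, nat_lit 6, nat_lit 4, nat_lit 0x49⟩ (.nil) (.nil)
def t14_12689 : Tr := .node ⟨nat_lit 6, nat_lit 0x10002000240030, nat_lit 0x12000, nat_lit 3, nat_lit 4, nat_lit 0x46⟩ (.nil) (.nil)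
def t14_2449 : Tr := .node ⟨nat_lit 6, nat_lit 0x300038, nat_lit 0x112102, nat_lit 1, nat_lit 4, nat_lit 0x48⟩ (.nil) (.nil)
def t14_10641 : Tr := .node ⟨nat_lit 6, nat_lit 0x1000280030, nat_lit 0x202, nat_lit 3, nat_lit 4, nat_lit 0x46⟩ (.nil) (.nil)
def t14_6545 : Tr := .node ⟨nat_lit 5, nat_lit 0x100014001c, nat_lit 0x11021, nat_lit 4, nat_lit 4, nat_lit 0x45⟩ (.nil) (.nil)
def t14_14737 : Tr := .node ⟨nat_lit 8, nat_lit 0x2000c000c000a0, nat_lit 0x111112, nat_lit 0, nat_lit 4, nat_lit 0x48⟩ (.nil) (.nil)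
def t14_1425 : Tr := .node ⟨nat_lit 7, nat_lit 0x20002000400040, nat_lit 0x1003111, nat_lit 0, nat_lit 4, nat_lit 0x49⟩ (.nil) (.nil)
def t14_9617 : Tr := .node ⟨nat_lit 6, nat_lit 0x20001000300034, nat_lit 0x2220, nat_lit 4, nat_lit 4, nat_lit 0x46⟩ (.nil) (.nil)
def t14_5521 : Tr := .node ⟨nat_lit 7, nat_lit 0x500060, nat_lit 0x101130, nat_lit 0, nat_lit 4, nat_lit 0x48⟩ (.nil) (.nil)
def t14_13713 : Tr := .node ⟨nat_lit 7, nat_lit 0x20005000600068, nat_lit 0x12101, nat_lit 1, nat_lit 4, nat_lit 0x46⟩ (.nil) (.nil)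
def t14_3473 : Tr := .node ⟨nat_lit 6, nat_lit 0x20001000100030, nat_lit 0x220, nat_lit 1, nat_lit 3, nat_lit 0x45⟩ (.nil) (.nil)
def t14_11665 : Tr := .node ⟨nat_lit 6, nat_lit 0x2000300030, nat_lit 0x1410, nat_lit 5, nat_lit 4, nat_lit 0x48⟩ (.nil) (.nil)
def t14_7569 : Tr := .node ⟨nat_lit 6, nat_lit 0x20001000300038, nat_lit 0x2230, nat_lit 4, nat_lit 4, nat_lit 0x46⟩ (.nil) (.nil)
def t14_913 : Tr := .node ⟨nat_lit 8, nat_lit 0x4000a0006000c0, nat_lit 0x112121, nat_lit 0, nat_lit 4, nat_lit 0x48⟩ (.nil) (.nil)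
def t14_9105 : Tr := .node ⟨nat_lit 6, nat_lit 0x20002000100038, nat_lit 0x11202, nat_lit 5, nat_lit 4, nat_lit 0x47⟩ (.nil) (.nil)
def t14_5009 : Tr := .node ⟨nat_lit 6, nat_lit 0x3000280028, nat_lit 0x1131, nat_lit 6, nat_lit 4, nat_lit 0x47⟩ (.nil) (.nil)
def t14_13201 : Tr := .node ⟨nat_lit 6, nat_lit 0x800200030, nat_lit 0x20310, nat_lit 0, nat_lit 4, nat_lit 0x47⟩ (.nil) (.nil)
def t14_2961 : Tr := .node ⟨nat_lit 7, nat_lit 0x40001000100060, nat_lit 0x1000103, nat_lit 0, nat_lit 4, nat_lit 0x47⟩ (.nil) (.nil)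
def t14_11153 : Tr := .node ⟨nat_lit 5, nat_lit 0x100018, nat_lit 0x10100, nat_lit 4, nat_lit 4, nat_lit 0x46⟩ (.nil) (.nil)
def t14_7057 : Tr := .node ⟨nat_lit 8, nat_lit 0x200040008000c0, nat_lit 0x10010111, nat_lit 1, nat_lit 4, nat_lit 0x49⟩ (.nil) (.nil)
def t14_15249 : Tr := .node ⟨nat_lit 8, nat_lit 0x4000400080008000c4, nat_lit 0x111200, nat_lit 0, nat_lit 4, nat_lit 0x48⟩ (.nil) (.nil)
def t14_1937 : Tr := .node ⟨nat_lit 5, nat_lit 0x140018, nat_lit 0x2011, nat_lit 2, nat_lit 4, nat_lit 0x45⟩ (.nil) (.nil)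
def t14_10129 : Tr := .node ⟨nat_lit 7, nat_lit 0x40004000500068, nat_lit 0x100, nat_lit 2, nat_lit 4, nat_lit 0x46⟩ (.nil) (.nil)
def t14_6033 : Tr := .node ⟨nat_lit 8, nat_lit 0x20008000c0, nat_lit 0x11021010, nat_lit 1, nat_lit 4, nat_lit 0x4b⟩ (.nil) (.nil)
def t14_14225 : Tr := .node ⟨nat_lit 8, nat_lit 0x10008000a000c0, nat_lit 0x100120, nat_lit 5, nat_lit 4, nat_lit 0x49⟩ (.nil) (.nil)
def t14_3985 : Tr := .node ⟨nat_lit 7, nat_lit 0x40001000100060, nat_lit 0x1102200, nat_lit 0, nat_lit 4, nat_lit 0x48⟩ (.nil) (.nil)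
def t14_12177 : Tr := .node ⟨nat_lit 8, nat_lit 0x4000400080008000c800e0, nat_lit 0x102110, nat_lit 3, nat_lit 4, nat_lit 0x47⟩ (.nil) (.nil)
def t14_8081 : Tr := .node ⟨nat_lit 6, nat_lit 0x20002000100028, nat_lit 0x11113, nat_lit 3, nat_lit 4, nat_lit 0x47⟩ (.nil) (.nil)
def t9_401 : Tr := .node ⟨nat_lit 6, nat_lit 0x1000200034, nat_lit 0x32201, nat_lit 1, nat_lit 4, nat_lit 0x49⟩ (.node ⟨nat_lit 7, nat_lit 0x200040, nat_lit 0x1131101, nat_lit 2, nat_lit 4, nat_lit 0x4c⟩ (.node ⟨nat_lit 6, nat_lit 0x300028, nat_lit 0x12202, nat_lit 1, nat_lit 4, nat_lit 0x48⟩ (.node ⟨nat_lit 6, nat_lit 0x1000280030, nat_lit 0x11321, nat_lit 0, nat_lit 4, nat_lit 0x47⟩ (.node ⟨nat_lit 7, nat_lit 0x6000180018, nat_lit 0x2000121, nat_lit 1, nat_lit 4, nat_lit 0x47⟩ (t14_401) (t14_8593)) (.node ⟨nat_lit 7, nat_lit 0x40002000500068, nat_lit 0x1012002, nat_lit 0, nat_lit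 4, nat_lit 0x47⟩ (t14_4497) (t14_12689))) (.node ⟨nat_lit 6, nat_lit 0x2000080010, nat_lit 0x122011, nat_lit 0, nat_lit 4, nat_lit 0x49⟩ (.node ⟨nat_lit 7, nat_lit 0x40002000200010, nat_lit 0x1010101, nat_lit 1, nat_lit 4, nat_lit 0x48⟩ (t14_2449) (t14_10641)) (.node ⟨nat_lit 7, nat_lit 0x400060, nat_lit 0x21120, nat_lit 2, nat_lit 4, nat_lit 0x4a⟩ (t14_6545) (t14_14737)))) (.node ⟨nat_lit 6, nat_lit 0x1000280030, nat_lit 0x112021, nat_lit 0, nat_lit 3, nat_lit 0x46⟩ (.node ⟨nat_lit 6, nat_lit 0x800300030, nat_lit 0x112221, nat_lit 0, nat_lit 4, nat_lit 0x48⟩ (.node ⟨nat_lit 5, nat_lit 0x80010001c, nat_lit 0x11010, nat_lit 3, nat_lit 4, nat_lit 0x45⟩ (t14_1425) (t14_9617)) (.node ⟨nat_lit 6, nat_lit 0x20002000100010, nat_lit 0x112121, nat_lit 4, nat_lit 4, nat_lit 0x49⟩ (t14_5521) (t14_13713))) (.node ⟨nat_lit 7, nat_lit 0x20004000400040, nat_lit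 0x111200, nat_lit 2, nat_lit 4, nat_lit 0x49⟩ (.node ⟨nat_lit 7, nat_lit 0x20006000600050, nat_lit 0x21003, nat_lit 1, nat_lit 4, nat_lit 0x47⟩ (t14_3473) (t14_11665)) (.node ⟨nat_lit 8, nat_lit 0x4000800020002000c0, nat_lit 0x11012101, nat_lit 1, nat_lit 4, nat_lit 0x49⟩ (t14_7569) (.nil))))) (.node ⟨nat_lit 3, nat_lit 4, nat_lit 0x110, nat_lit 4, nat_lit 3, nat_lit 0x44⟩ (.node ⟨nat_lit 4, nat_lit 8, nat_lit 0x1221, nat_lit 4, nat_lit 4, nat_lit 0x48⟩ (.node ⟨nat_lit 5, nat_lit 0x10, nat_lit 0x11113, nat_lit 3, nat_lit 4, nat_lit 0x49⟩ (.node ⟨nat_lit 8, nat_lit 0x800040, nat_lit 0x2211100, nat_lit 1, nat_lit 4, nat_lit 0x4d⟩ (t14_913) (t14_9105)) (.node ⟨nat_lit 7, nat_lit 0x800100060, nat_lit 0x2111002, nat_lit 3, nat_lit 4, nat_lit 0x4a⟩ (t14_5009) (t14_13201))) (.node ⟨nat_lit 6, nat_lit 0x2000300030, nat_lit 0x11200, nat_lit 0, nat_lit 3,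 nat_lit 0x45⟩ (.node ⟨nat_lit 7, nat_lit 0x400020005000500028, nat_lit 0x112210, nat_lit 0, nat_lit 4, nat_lit 0x46⟩ (t14_2961) (t14_11153)) (.node ⟨nat_lit 6, nat_lit 0x2000080030, nat_lit 0x111202, nat_lit 6, nat_lit 4, nat_lit 0x49⟩ (t14_7057) (t14_15249)))) (.node ⟨nat_lit 3, nat_lit 6, nat_lit 0x100, nat_lit 5, nat_lit 3, nat_lit 0x43⟩ (.node ⟨nat_lit 7, nat_lit 0x40001000100060, nat_lit 0x211211, nat_lit 1, nat_lit 4, nat_lit 0x49⟩ (.node ⟨nat_lit 7, nat_lit 0x10002000500060, nat_lit 0x113210, nat_lit 0, nat_lit 4, nat_lit 0x48⟩ (t14_1937) (t14_10129)) (.node ⟨nat_lit 8, nat_lit 0x400080002000c000c0, nat_lit 0x112020, nat_lit 0, nat_lit 4, nat_lit 0x48⟩ (t14_6033) (t14_14225))) (.node ⟨nat_lit 6, nat_lit 0x800300030, nat_lit 0x1120, nat_lit 0, nat_lit 4, nat_lit 0x45⟩ (.node ⟨nat_lit 7, nat_lit 0x40001000600070, nat_lit 0x100013, nat_lit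 2, nat_lit 4, nat_lit 0x46⟩ (t14_3985) (t14_12177)) (.node ⟨nat_lit 9, nat_lit 0x100008000a0014001a001a001c0, nat_lit 0x11101111, nat_lit 0, nat_lit 4, nat_lit 0x46⟩ (t14_8081) (.nil)))))
def t14_81 : Tr := .node ⟨nat_lit 6, nat_lit 0x300030, nat_lit 0x112111, nat_lit 3, nat_lit 4, nat_lit 0x49⟩ (.nil) (.nil)
def t14_8273 : Tr := .node ⟨nat_lit 5, nat_lit 0x180018, nat_lit 0x140, nat_lit 4, nat_lit 4, nat_lit 0x46⟩ (.nil) (.nil)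
def t14_4177 : Tr := .node ⟨nat_lit 9, nat_lit 0x1000100008001100110, nat_lit 0x11110120, nat_lit 0, nat_lit 4, nat_lit 0x4a⟩ (.nil) (.nil)
def t14_12369 : Tr := .node ⟨nat_lit 6, nat_lit 0x20001000280030, nat_lit 0x3120, nat_lit 3, nat_lit 4, nat_lit 0x47⟩ (.nil) (.nil)
def t14_2129 : Tr := .node ⟨nat_lit 5, nat_lit 0x1000100008, nat_lit 0x1210, nat_lit 6, nat_lit 4, nat_lit 0x47⟩ (.nil) (.nil)
def t14_10321 : Tr := .node ⟨nat_lit 7, nat_lit 0x1000600060, nat_lit 0x1001022, nat_lit 2, nat_lit 4, nat_lit 0x48⟩ (.nil) (.nil)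
def t14_6225 : Tr := .node ⟨nat_lit 7, nat_lit 0x40004000200020, nat_lit 0x11020, nat_lit 2, nat_lit 4, nat_lit 0x48⟩ (.nil) (.nil)
def t14_14417 : Tr := .node ⟨nat_lit 0xa, nat_lit 0x8002000200004000400300, nat_lit 0x21100, nat_lit 1, nat_lit 4, nat_lit 0x4a⟩ (.nil) (.nil)
def t14_1105 : Tr := .node ⟨nat_lit 5, nat_lit 0x40018, nat_lit 0x11020, nat_lit 3, nat_lit 4, nat_lit 0x46⟩ (.nil) (.nil)
def t14_9297 : Tr := .node ⟨nat_lit 8, nat_lit 0x200040003000a000c0, nat_lit 0x10121, nat_lit 0, nat_lit 4, nat_lit 0x46⟩ (.nil) (.nil)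
def t14_5201 : Tr := .node ⟨nat_lit 8, nat_lit 0x800040004000a000c000d0, nat_lit 0x210111, nat_lit 3, nat_lit 4, nat_lit 0x47⟩ (.nil) (.nil)
def t14_13393 : Tr := .node ⟨nat_lit 8, nat_lit 0x2000200030003000c0, nat_lit 0x10003, nat_lit 0, nat_lit 4, nat_lit 0x47⟩ (.nil) (.nil)
def t14_3153 : Tr := .node ⟨nat_lit 7, nat_lit 0x20006000500068, nat_lit 0x110111, nat_lit 1, nat_lit 4, nat_lit 0x46⟩ (.nil) (.nil)
def t14_11345 : Tr := .node ⟨nat_lit 6, nat_lit 0x10001000200030, nat_lit 0x101110, nat_lit 1, nat_lit 3, nat_lit 0x45⟩ (.nil) (.nil)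
def t14_7249 : Tr := .node ⟨nat_lit 5, nat_lit 0x18001c, nat_lit 0x20212, nat_lit 3, nat_lit 4, nat_lit 0x47⟩ (.nil) (.nil)
def t14_15441 : Tr := .node ⟨nat_lit 9, nat_lit 0x10001000040012001200180, nat_lit 0x110010102, nat_lit 0, nat_lit 4, nat_lit 0x49⟩ (.nil) (.nil)
def t14_593 : Tr := .node ⟨nat_lit 4, nat_lit 0x80008, nat_lit 0x120, nat_lit 3, nat_lit 4, nat_lit 0x45⟩ (.nil) (.nil)
def t14_8785 : Tr := .node ⟨nat_lit 8, nat_lit 0x800080004000400090, nat_lit 0x120103, nat_lit 0, nat_lit 4, nat_lit 0x49⟩ (.nil) (.nil)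
def t14_4689 : Tr := .node ⟨nat_lit 8, nat_lit 0x400080008000c4, nat_lit 0x10100102, nat_lit 0, nat_lit 4, nat_lit 0x49⟩ (.nil) (.nil)
def t14_12881 : Tr := .node ⟨nat_lit 6, nat_lit 0x2000100010, nat_lit 0x302100, nat_lit 0, nat_lit 3, nat_lit 0x48⟩ (.nil) (.nil)
def t14_2641 : Tr := .node ⟨nat_lit 5, nat_lit 0x80010, nat_lit 0x33, nat_lit 0, nat_lit 4, nat_lit 0x46⟩ (.nil) (.nil)
def t14_10833 : Tr := .node ⟨nat_lit 8, nat_lit 0x8000a000c0, nat_lit 0x1111022, nat_lit 0, nat_lit 4, nat_lit 0x4a⟩ (.nil) (.nil)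
def t14_6737 : Tr := .node ⟨nat_lit 6, nat_lit 0x2000280034, nat_lit 0x12101, nat_lit 3, nat_lit 4, nat_lit 0x47⟩ (.nil) (.nil)
def t14_14929 : Tr := .node ⟨nat_lit 9, nat_lit 0x8001000040011001100110, nat_lit 0x100010211, nat_lit 0, nat_lit 4, nat_lit 0x49⟩ (.nil) (.nil)
def t14_1617 : Tr := .node ⟨nat_lit 7, nat_lit 0x10005000600060, nat_lit 0x102210, nat_lit 1, nat_lit 4, nat_lit 0x46⟩ (.nil) (.nil)
def t14_9809 : Tr := .node ⟨nat_lit 7, nat_lit 0x40001000500060, nat_lit 0x101020, nat_lit 0, nat_lit 3, nat_lit 0x45⟩ (.nil) (.nil)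
def t14_5713 : Tr := .node ⟨nat_lit 8, nat_lit 0x80009000c0006000d0, nat_lit 0x10011202, nat_lit 1, nat_lit 4, nat_lit 0x47⟩ (.nil) (.nil)
def t14_13905 : Tr := .node ⟨nat_lit 6, nat_lit 0x2000080030, nat_lit 0x11430, nat_lit 0, nat_lit 4, nat_lit 0x48⟩ (.nil) (.nil)
def t14_3665 : Tr := .node ⟨nat_lit 6, nat_lit 0x300028, nat_lit 0x102221, nat_lit 2, nat_lit 4, nat_lit 0x49⟩ (.nil) (.nil)
def t14_11857 : Tr := .node ⟨nat_lit 4, nat_lit 0x80004, nat_lit 0x33, nat_lit 6, nat_lit 4, nat_lit 0x46⟩ (.nil) (.nil)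
def t14_7761 : Tr := .node ⟨nat_lit 9, nat_lit 0x8001000100011000a000c0, nat_lit 0x1200002, nat_lit 1, nat_lit 4, nat_lit 0x48⟩ (.nil) (.nil)
def t9_81 : Tr := .node ⟨nat_lit 4, nat_lit 0x80004, nat_lit 0x101, nat_lit 3, nat_lit 3, nat_lit 0x44⟩ (.node ⟨nat_lit 6, nat_lit 0x20, nat_lit 0x132220, nat_lit 0, nat_lit 4, nat_lit 0x4c⟩ (.node ⟨nat_lit 6, nat_lit 0x2000200030, nat_lit 0x13220, nat_lit 0, nat_lit 3, nat_lit 0x47⟩ (.node ⟨nat_lit 6, nat_lit 0x200022, nat_lit 0x121100, nat_lit 0, nat_lit 4, nat_lit 0x48⟩ (.node ⟨nat_lit 7, nat_lit 0x2000100040, nat_lit 0x1121131, nat_lit 0, nat_lit 4, nat_lit 0x4b⟩ (t14_81) (t14_8273)) (.node ⟨nat_lit 6, nat_lit 0x2800180030, nat_lit 0x1040, nat_lit 2, nat_lit 4, nat_lit 0x46⟩ (t14_4177) (t14_12369))) (.node ⟨nat_lit 6, nat_lit 0x1000200038, nat_lit 0x211122, nat_lit 0, nat_lit 4, nat_lit 0x48⟩ (.node ⟨nat_lit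 6, nat_lit 0x1000280030, nat_lit 0x100042, nat_lit 0, nat_lit 4, nat_lit 0x46⟩ (t14_2129) (t14_10321)) (.node ⟨nat_lit 7, nat_lit 0x400040004000200050, nat_lit 0x102120, nat_lit 2, nat_lit 4, nat_lit 0x48⟩ (t14_6225) (t14_14417)))) (.node ⟨nat_lit 6, nat_lit 0x200010, nat_lit 0x2203, nat_lit 1, nat_lit 4, nat_lit 0x49⟩ (.node ⟨nat_lit 5, nat_lit 0x40018, nat_lit 0x22111, nat_lit 2, nat_lit 4, nat_lit 0x48⟩ (.node ⟨nat_lit 5, nat_lit 0x10, nat_lit 0x11114, nat_lit 1, nat_lit 3, nat_lit 0x48⟩ (t14_1105) (t14_9297)) (.node ⟨nat_lit 8, nat_lit 0x20008000c000c0, nat_lit 0x1010231, nat_lit 0, nat_lit 4, nat_lit 0x49⟩ (t14_5201) (t14_13393))) (.node ⟨nat_lit 6, nat_lit 0x800280030, nat_lit 0x21211, nat_lit 0, nat_lit 4, nat_lit 0x47⟩ (.node ⟨nat_lit 6, nat_lit 0x2000200034, nat_lit 0x12010, nat_lit 2, nat_lit 4, nat_lit 0x47⟩ (t14_3153) (t14_11345)) (.node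 ⟨nat_lit 6, nat_lit 0x2000100030, nat_lit 0x101210, nat_lit 1, nat_lit 3, nat_lit 0x46⟩ (t14_7249) (t14_15441))))) (.node ⟨nat_lit 3, nat_lit 6, nat_lit 0x200, nat_lit 7, nat_lit 3, nat_lit 0x44⟩ (.node ⟨nat_lit 6, nat_lit 0x10002000180024, nat_lit 0x211200, nat_lit 0, nat_lit 4, nat_lit 0x47⟩ (.node ⟨nat_lit 6, nat_lit 0x2000080030, nat_lit 0x1220, nat_lit 0, nat_lit 4, nat_lit 0x46⟩ (.node ⟨nat_lit 5, nat_lit 0x100018, nat_lit 0x21220, nat_lit 3, nat_lit 4, nat_lit 0x49⟩ (t14_593) (t14_8785)) (.node ⟨nat_lit 7, nat_lit 0x4000100060, nat_lit 0x1111002, nat_lit 1, nat_lit 4, nat_lit 0x49⟩ (t14_4689) (t14_12881))) (.node ⟨nat_lit 6, nat_lit 0x80030, nat_lit 0x101102, nat_lit 0, nat_lit 4, nat_lit 0x47⟩ (.node ⟨nat_lit 7, nat_lit 0x40002000480070, nat_lit 0x1121003, nat_lit 1, nat_lit 4, nat_lit 0x48⟩ (t14_2641) (t14_10833)) (.node ⟨nat_lit 7, nat_lit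 0x40004000480044, nat_lit 0x1112110, nat_lit 4, nat_lit 4, nat_lit 0x4a⟩ (t14_6737) (t14_14929)))) (.node ⟨nat_lit 6, nat_lit 0xc0030, nat_lit 0x211101, nat_lit 1, nat_lit 4, nat_lit 0x48⟩ (.node ⟨nat_lit 5, nat_lit 0x18, nat_lit 0x30221, nat_lit 3, nat_lit 4, nat_lit 0x4a⟩ (.node ⟨nat_lit 5, nat_lit 0x100018, nat_lit 0x111, nat_lit 2, nat_lit 4, nat_lit 0x45⟩ (t14_1617) (t14_9809)) (.node ⟨nat_lit 6, nat_lit 0x200030, nat_lit 0x122211, nat_lit 0, nat_lit 4, nat_lit 0x4a⟩ (t14_5713) (t14_13905))) (.node ⟨nat_lit 7, nat_lit 0x1000100060, nat_lit 0x2001102, nat_lit 2, nat_lit 4, nat_lit 0x49⟩ (.node ⟨nat_lit 8, nat_lit 0x200080001000c0, nat_lit 0x10000, nat_lit 1, nat_lit 4, nat_lit 0x48⟩ (t14_3665) (t14_11857)) (.node ⟨nat_lit 7, nat_lit 0x40001000600068, nat_lit 0x1011022, nat_lit 1, nat_lit 4, nat_lit 0x47⟩ (t14_7761) (.nil)))))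
def t14_337 : Tr := .node ⟨nat_lit 6, nat_lit 0x2000280030, nat_lit 0x120112, nat_lit 3, nat_lit 4, nat_lit 0x48⟩ (.nil) (.nil)
def t14_8529 : Tr := .node ⟨nat_lit 7, nat_lit 0x20004000100044, nat_lit 0x1000104, nat_lit 1, nat_lit 4, nat_lit 0x48⟩ (.nil) (.nil)
def t14_4433 : Tr := .node ⟨nat_lit 8, nat_lit 0x800020001000c0, nat_lit 0x11112001, nat_lit 0, nat_lit 4, nat_lit 0x4a⟩ (.nil) (.nil)
def t14_12625 : Tr := .node ⟨nat_lit 8, nat_lit 0x2000c000a00090, nat_lit 0x101140, nat_lit 0, nat_lit 4, nat_lit 0x48⟩ (.nil) (.nil)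
def t14_2385 : Tr := .node ⟨nat_lit 7, nat_lit 0x2000400060, nat_lit 0x11220, nat_lit 0, nat_lit 4, nat_lit 0x48⟩ (.nil) (.nil)
def t14_10577 : Tr := .node ⟨nat_lit 6, nat_lit 0x20001000280034, nat_lit 0x1100, nat_lit 2, nat_lit 4, nat_lit 0x44⟩ (.nil) (.nil)
def t14_6481 : Tr := .node ⟨nat_lit 5, nat_lit 0x100018, nat_lit 0x11100, nat_lit 5, nat_lit 4, nat_lit 0x47⟩ (.nil) (.nil)
def t14_14673 : Tr := .node ⟨nat_lit 7, nat_lit 0x4000500060, nat_lit 0x111211, nat_lit 1, nat_lit 3, nat_lit 0x47⟩ (.nil) (.nil)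
def t14_1361 : Tr := .node ⟨nat_lit 8, nat_lit 0x40006000a000d000d0, nat_lit 0x1011310, nat_lit 0, nat_lit 4, nat_lit 0x46⟩ (.nil) (.nil)
def t14_9553 : Tr := .node ⟨nat_lit 7, nat_lit 0x40001000100060, nat_lit 0x1202001, nat_lit 1, nat_lit 3, nat_lit 0x47⟩ (.nil) (.nil)
def t14_5457 : Tr := .node ⟨nat_lit 6, nat_lit 0x1000200034, nat_lit 0x2320, nat_lit 0, nat_lit 4, nat_lit 0x47⟩ (.nil) (.nil)
def t14_13649 : Tr := .node ⟨nat_lit 8, nat_lit 0x20008000c0, nat_lit 0x11002, nat_lit 0, nat_lit 4, nat_lit 0x49⟩ (.nil) (.nil)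
def t14_3409 : Tr := .node ⟨nat_lit 7, nat_lit 0x20004000640070, nat_lit 0x2101, nat_lit 0, nat_lit 4, nat_lit 0x45⟩ (.nil) (.nil)
def t14_11601 : Tr := .node ⟨nat_lit 6, nat_lit 0x800300038, nat_lit 0x1101, nat_lit 1, nat_lit 4, nat_lit 0x45⟩ (.nil) (.nil)
def t14_7505 : Tr := .node ⟨nat_lit 7, nat_lit 0x400040004000200020, nat_lit 0x122011, nat_lit 2, nat_lit 4, nat_lit 0x49⟩ (.nil) (.nil)
def t14_849 : Tr := .node ⟨nat_lit 8, nat_lit 0x800080004000a000480090, nat_lit 0x10102120, nat_lit 0, nat_lit 4, nat_lit 0x47⟩ (.nil) (.nil)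
def t14_9041 : Tr := .node ⟨nat_lit 6, nat_lit 0x2000200030, nat_lit 0x21210, nat_lit 4, nat_lit 3, nat_lit 0x47⟩ (.nil) (.nil)
def t14_4945 : Tr := .node ⟨nat_lit 7, nat_lit 0x4000600070, nat_lit 0x101113, nat_lit 0, nat_lit 4, nat_lit 0x47⟩ (.nil) (.nil)
def t14_13137 : Tr := .node ⟨nat_lit 7, nat_lit 0x20001000500068, nat_lit 0x2030, nat_lit 1, nat_lit 4, nat_lit 0x46⟩ (.nil) (.nil)
def t14_2897 : Tr := .node ⟨nat_lit 7, nat_lit 0x20005000600068, nat_lit 0x211021, nat_lit 0, nat_lit 4, nat_lit 0x47⟩ (.nil) (.nil)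
def t14_11089 : Tr := .node ⟨nat_lit 6, nat_lit 0x800200030, nat_lit 0x20, nat_lit 3, nat_lit 4, nat_lit 0x46⟩ (.nil) (.nil)
def t14_6993 : Tr := .node ⟨nat_lit 5, nat_lit 0x1000100018, nat_lit 0x11211, nat_lit 5, nat_lit 3, nat_lit 0x46⟩ (.nil) (.nil)
def t14_15185 : Tr := .node ⟨nat_lit 7, nat_lit 0x5000180060, nat_lit 0x1111120, nat_lit 1, nat_lit 4, nat_lit 0x48⟩ (.nil) (.nil)
def t14_1873 : Tr := .node ⟨nat_lit 7, nat_lit 0x40002000480060, nat_lit 0x21101, nat_lit 1, nat_lit 4, nat_lit 0x47⟩ (.nil) (.nil)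
def t14_10065 : Tr := .node ⟨nat_lit 8, nat_lit 0x4000800020008800c0, nat_lit 0x1000002, nat_lit 0, nat_lit 4, nat_lit 0x47⟩ (.nil) (.nil)
def t14_5969 : Tr := .node ⟨nat_lit 6, nat_lit 0, nat_lit 0x111111, nat_lit 4, nat_lit 3, nat_lit 0x4a⟩ (.nil) (.nil)
def t14_14161 : Tr := .node ⟨nat_lit 8, nat_lit 0x80002000400040, nat_lit 0x120021, nat_lit 0, nat_lit 4, nat_lit 0x4a⟩ (.nil) (.nil)
def t14_3921 : Tr := .node ⟨nat_lit 6, nat_lit 0x10001000200038, nat_lit 0x12120, nat_lit 3, nat_lit 4, nat_lit 0x47⟩ (.nil) (.nil)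
def t14_12113 : Tr := .node ⟨nat_lit 6, nat_lit 0x800300028, nat_lit 0x100310, nat_lit 3, nat_lit 4, nat_lit 0x47⟩ (.nil) (.nil)
def t14_8017 : Tr := .node ⟨nat_lit 5, nat_lit 0x800100012, nat_lit 0x13, nat_lit 7, nat_lit 4, nat_lit 0x46⟩ (.nil) (.nil)
def t9_337 : Tr := .node ⟨nat_lit 5, nat_lit 0, nat_lit 0x31111, nat_lit 2, nat_lit 4, nat_lit 0x4a⟩ (.node ⟨nat_lit 6, nat_lit 0x2000080030, nat_lit 0x32013, nat_lit 0, nat_lit 4, nat_lit 0x49⟩ (.node ⟨nat_lit 4, nat_lit 0xc, nat_lit 0x2222, nat_lit 3, nat_lit 4, nat_lit 0x48⟩ (.node ⟨nat_lit 7, nat_lit 0x1000400060, nat_lit 0x1102012, nat_lit 0, nat_lit 4, nat_lit 0x49⟩ (.node ⟨nat_lit 7, nat_lit 0x2000100040, nat_lit 0x1122110, nat_lit 1, nat_lit 4, nat_lit 0x4b⟩ (t14_337) (t14_8529)) (.node ⟨nat_lit 7, nat_lit 0x1000400060, nat_lit 0x2101003, nat_lit 0, nat_lit 3, nat_lit 0x48⟩ (t14_4433) (t14_12625)))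 (.node ⟨nat_lit 5, nat_lit 0x100018, nat_lit 0x21112, nat_lit 6, nat_lit 4, nat_lit 0x49⟩ (.node ⟨nat_lit 5, nat_lit 0x1000100008, nat_lit 0x12103, nat_lit 3, nat_lit 3, nat_lit 0x47⟩ (t14_2385) (t14_10577)) (.node ⟨nat_lit 6, nat_lit 0x800280030, nat_lit 0x110302, nat_lit 1, nat_lit 4, nat_lit 0x47⟩ (t14_6481) (t14_14673)))) (.node ⟨nat_lit 6, nat_lit 0x800280030, nat_lit 0x120023, nat_lit 0, nat_lit 4, nat_lit 0x47⟩ (.node ⟨nat_lit 5, nat_lit 0x10001a, nat_lit 0x22122, nat_lit 5, nat_lit 4, nat_lit 0x49⟩ (.node ⟨nat_lit 7, nat_lit 0x400020005000500060, nat_lit 0x1000004, nat_lit 2, nat_lit 4, nat_lit 0x47⟩ (t14_1361) (t14_9553)) (.node ⟨nat_lit 7, nat_lit 0x4000100060, nat_lit 0x221012, nat_lit 0, nat_lit 4, nat_lit 0x4a⟩ (t14_5457) (t14_13649))) (.node ⟨nat_lit 5, nat_lit 0x40018, nat_lit 0x31022, nat_lit 4, nat_lit 4, nat_lit 0x48⟩ (.node ⟨nat_lit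 4, nat_lit 0xc000c, nat_lit 0x1130, nat_lit 2, nat_lit 3, nat_lit 0x44⟩ (t14_3409) (t14_11601)) (.node ⟨nat_lit 7, nat_lit 0x20002000400060, nat_lit 0x21100, nat_lit 1, nat_lit 4, nat_lit 0x48⟩ (t14_7505) (.nil))))) (.node ⟨nat_lit 6, nat_lit 0x2000200010, nat_lit 0x3210, nat_lit 0, nat_lit 4, nat_lit 0x48⟩ (.node ⟨nat_lit 6, nat_lit 0x800100020, nat_lit 0x122111, nat_lit 0, nat_lit 4, nat_lit 0x49⟩ (.node ⟨nat_lit 7, nat_lit 0x1000400062, nat_lit 0x1101011, nat_lit 1, nat_lit 4, nat_lit 0x48⟩ (.node ⟨nat_lit 7, nat_lit 0x20004000100060, nat_lit 0x120102, nat_lit 1, nat_lit 4, nat_lit 0x48⟩ (t14_849) (t14_9041)) (.node ⟨nat_lit 7, nat_lit 0x400060, nat_lit 0x1022121, nat_lit 0, nat_lit 4, nat_lit 0x4b⟩ (t14_4945) (t14_13137))) (.node ⟨nat_lit 6, nat_lit 0x2000080030, nat_lit 0x111112, nat_lit 2, nat_lit 4, nat_lit 0x48⟩ (.node ⟨nat_lit 6, nat_lit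 0x20001000100028, nat_lit 0x102101, nat_lit 7, nat_lit 4, nat_lit 0x48⟩ (t14_2897) (t14_11089)) (.node ⟨nat_lit 7, nat_lit 0x1000600060, nat_lit 0x1101032, nat_lit 2, nat_lit 4, nat_lit 0x49⟩ (t14_6993) (t14_15185)))) (.node ⟨nat_lit 5, nat_lit 0x40018, nat_lit 0x21120, nat_lit 4, nat_lit 4, nat_lit 0x48⟩ (.node ⟨nat_lit 7, nat_lit 0x20004000440060, nat_lit 0x2011211, nat_lit 0, nat_lit 4, nat_lit 0x49⟩ (.node ⟨nat_lit 7, nat_lit 0x40001000680070, nat_lit 0x1111113, nat_lit 1, nat_lit 4, nat_lit 0x47⟩ (t14_1873) (t14_10065)) (.node ⟨nat_lit 7, nat_lit 0x40004000100068, nat_lit 0x211200, nat_lit 0, nat_lit 4, nat_lit 0x48⟩ (t14_5969) (t14_14161))) (.node ⟨nat_lit 6, nat_lit 0x800280030, nat_lit 0x110220, nat_lit 0, nat_lit 4, nat_lit 0x46⟩ (.node ⟨nat_lit 7, nat_lit 0x20001000600050, nat_lit 0x1010203, nat_lit 1, nat_lit 4, nat_lit 0x48⟩ (t14_3921)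 (t14_12113)) (.node ⟨nat_lit 8, nat_lit 0x800040004000a000d0, nat_lit 0x10022110, nat_lit 0, nat_lit 4, nat_lit 0x48⟩ (t14_8017) (.nil)))))
def t14_209 : Tr := .node ⟨nat_lit 7, nat_lit 0x40003000580068, nat_lit 0x2111121, nat_lit 0, nat_lit 4, nat_lit 0x47⟩ (.nil) (.nil)
def t14_8401 : Tr := .node ⟨nat_lit 6, nat_lit 0x200020002800300030, nat_lit 0x11110, nat_lit 4, nat_lit 4, nat_lit 0x46⟩ (.nil) (.nil)
def t14_4305 : Tr := .node ⟨nat_lit 8, nat_lit 0x40004000800080008800c8, nat_lit 0x10211110, nat_lit 1, nat_lit 4, nat_lit 0x48⟩ (.nil) (.nil)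
def t14_12497 : Tr := .node ⟨nat_lit 8, nat_lit 0x80008000400040009000a0, nat_lit 0x13110, nat_lit 0, nat_lit 4, nat_lit 0x47⟩ (.nil) (.nil)
def t14_2257 : Tr := .node ⟨nat_lit 7, nat_lit 0x200020004000300044, nat_lit 0x1120202, nat_lit 0, nat_lit 4, nat_lit 0x48⟩ (.nil) (.nil)
def t14_10449 : Tr := .node ⟨nat_lit 7, nat_lit 0x40002000500060, nat_lit 0x102202, nat_lit 2, nat_lit 4, nat_lit 0x48⟩ (.nil) (.nil)
def t14_6353 : Tr := .node ⟨nat_lit 8, nat_lit 0x800040002000a000c8, nat_lit 0x1011020, nat_lit 0, nat_lit 4, nat_lit 0x47⟩ (.nil) (.nil)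
def t14_14545 : Tr := .node ⟨nat_lit 5, nat_lit 0x80010, nat_lit 0x10140, nat_lit 3, nat_lit 4, nat_lit 0x48⟩ (.nil) (.nil)
def t14_1233 : Tr := .node ⟨nat_lit 6, nat_lit 0x2000100024, nat_lit 0x11032, nat_lit 0, nat_lit 4, nat_lit 0x47⟩ (.nil) (.nil)
def t14_9425 : Tr := .node ⟨nat_lit 7, nat_lit 0x400020005000500070, nat_lit 0x1012001, nat_lit 1, nat_lit 4, nat_lit 0x46⟩ (.nil) (.nil)
def t14_5329 : Tr := .node ⟨nat_lit 6, nat_lit 0x300038, nat_lit 0x111140, nat_lit 0, nat_lit 4, nat_lit 0x48⟩ (.nil) (.nil)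
def t14_13521 : Tr := .node ⟨nat_lit 7, nat_lit 0x2000400064, nat_lit 0x100100, nat_lit 0, nat_lit 4, nat_lit 0x47⟩ (.nil) (.nil)
def t14_3281 : Tr := .node ⟨nat_lit 8, nat_lit 0x8000400040004800a000d0, nat_lit 0x10102101, nat_lit 1, nat_lit 4, nat_lit 0x47⟩ (.nil) (.nil)
def t14_11473 : Tr := .node ⟨nat_lit 7, nat_lit 0x40002000480068, nat_lit 0x1011110, nat_lit 1, nat_lit 4, nat_lit 0x47⟩ (.nil) (.nil)
def t14_7377 : Tr := .node ⟨nat_lit 5, nat_lit 0x800100010, nat_lit 0x2200, nat_lit 4, nat_lit 4, nat_lit 0x47⟩ (.nil) (.nil)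
def t14_15569 : Tr := .node ⟨nat_lit 7, nat_lit 0x4000400044, nat_lit 0x1111111, nat_lit 6, nat_lit 4, nat_lit 0x4b⟩ (.nil) (.nil)
def t14_721 : Tr := .node ⟨nat_lit 6, nat_lit 0x10001000200020, nat_lit 0x32, nat_lit 1, nat_lit 4, nat_lit 0x47⟩ (.nil) (.nil)
def t14_8913 : Tr := .node ⟨nat_lit 7, nat_lit 0x4800600070, nat_lit 0x10103, nat_lit 2, nat_lit 4, nat_lit 0x46⟩ (.nil) (.nil)
def t14_4817 : Tr := .node ⟨nat_lit 6, nat_lit 0x2000080030, nat_lit 0x112102, nat_lit 4, nat_lit 4, nat_lit 0x49⟩ (.nil) (.nil)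
def t14_13009 : Tr := .node ⟨nat_lit 6, nat_lit 0x800200030, nat_lit 0x10401, nat_lit 0, nat_lit 4, nat_lit 0x47⟩ (.nil) (.nil)
def t14_2769 : Tr := .node ⟨nat_lit 7, nat_lit 0x20004000400064, nat_lit 0x111210, nat_lit 1, nat_lit 4, nat_lit 0x48⟩ (.nil) (.nil)
def t14_10961 : Tr := .node ⟨nat_lit 7, nat_lit 0x40002000200020, nat_lit 0x2010220, nat_lit 0, nat_lit 3, nat_lit 0x48⟩ (.nil) (.nil)
def t14_6865 : Tr := .node ⟨nat_lit 6, nat_lit 0x1000080020, nat_lit 0x100131, nat_lit 0, nat_lit 4, nat_lit 0x47⟩ (.nil) (.nil)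
def t14_15057 : Tr := .node ⟨nat_lit 7, nat_lit 0x40001000600068, nat_lit 0x1112011, nat_lit 1, nat_lit 4, nat_lit 0x48⟩ (.nil) (.nil)
def t14_1745 : Tr := .node ⟨nat_lit 7, nat_lit 0x40004000400020, nat_lit 0x112101, nat_lit 6, nat_lit 4, nat_lit 0x4a⟩ (.nil) (.nil)
def t14_9937 : Tr := .node ⟨nat_lit 6, nat_lit 0x800300038, nat_lit 0x1030, nat_lit 2, nat_lit 4, nat_lit 0x45⟩ (.nil) (.nil)
def t14_5841 : Tr := .node ⟨nat_lit 8, nat_lit 0xc000a0, nat_lit 0x11121, nat_lit 1, nat_lit 4, nat_lit 0x4a⟩ (.nil) (.nil)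
def t14_14033 : Tr := .node ⟨nat_lit 7, nat_lit 0x800100060, nat_lit 0x11100, nat_lit 1, nat_lit 4, nat_lit 0x48⟩ (.nil) (.nil)
def t14_3793 : Tr := .node ⟨nat_lit 8, nat_lit 0x8000400040004000a000d0, nat_lit 0x10021101, nat_lit 1, nat_lit 4, nat_lit 0x48⟩ (.nil) (.nil)
def t14_11985 : Tr := .node ⟨nat_lit 7, nat_lit 0x400040002000200070, nat_lit 0x12220, nat_lit 1, nat_lit 4, nat_lit 0x47⟩ (.nil) (.nil)
def t14_7889 : Tr := .node ⟨nat_lit 8, nat_lit 0x80002000c000b000d0, nat_lit 0x11111, nat_lit 0, nat_lit 4, nat_lit 0x45⟩ (.nil) (.nil)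
def t9_209 : Tr := .node ⟨nat_lit 5, nat_lit 0, nat_lit 0x32111, nat_lit 0, nat_lit 3, nat_lit 0x49⟩ (.node ⟨nat_lit 7, nat_lit 0x40004000200020, nat_lit 0x131021, nat_lit 1, nat_lit 4, nat_lit 0x4a⟩ (.node ⟨nat_lit 7, nat_lit 0x4000400060, nat_lit 0x131201, nat_lit 0, nat_lit 4, nat_lit 0x4a⟩ (.node ⟨nat_lit 4, nat_lit 8, nat_lit 0x1214, nat_lit 5, nat_lit 4, nat_lit 0x49⟩ (.node ⟨nat_lit 6, nat_lit 0x2000200010, nat_lit 0x21212, nat_lit 2, nat_lit 4, nat_lit 0x49⟩ (t14_209) (t14_8401)) (.node ⟨nat_lit 8, nat_lit 0x2000800080004000c8, nat_lit 0x1002103, nat_lit 0, nat_lit 4, nat_lit 0x48⟩ (t14_4305) (t14_12497))) (.node ⟨nat_lit 5, nat_lit 0x80010, nat_lit 0x12221, nat_lit 6, nat_lit 4, nat_lit 0x4a⟩ (.node ⟨nat_lit 7, nat_lit 0x10004000200060, nat_lit 0x100214, nat_lit 0, nat_lit 4, nat_lit 0x48⟩ (t14_2257) (t14_10449)) (.node ⟨nat_lit 6, nat_lit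 0x800200032, nat_lit 0x120021, nat_lit 3, nat_lit 4, nat_lit 0x48⟩ (t14_6353) (t14_14545)))) (.node ⟨nat_lit 6, nat_lit 0x30, nat_lit 0x102111, nat_lit 1, nat_lit 4, nat_lit 0x49⟩ (.node ⟨nat_lit 7, nat_lit 0x100060, nat_lit 0x2111111, nat_lit 2, nat_lit 4, nat_lit 0x4b⟩ (.node ⟨nat_lit 6, nat_lit 0x2000080010, nat_lit 0x1010, nat_lit 1, nat_lit 4, nat_lit 0x46⟩ (t14_1233) (t14_9425)) (.node ⟨nat_lit 8, nat_lit 0x20002000a000c000c0, nat_lit 0x1021121, nat_lit 0, nat_lit 4, nat_lit 0x47⟩ (t14_5329) (t14_13521))) (.node ⟨nat_lit 7, nat_lit 0x400040002000200050, nat_lit 0x1020202, nat_lit 0, nat_lit 4, nat_lit 0x48⟩ (.node ⟨nat_lit 5, nat_lit 0x800100018, nat_lit 0x11023, nat_lit 7, nat_lit 4, nat_lit 0x48⟩ (t14_3281) (t14_11473)) (.node ⟨nat_lit 7, nat_lit 0x4000600018, nat_lit 0x1011012, nat_lit 1, nat_lit 4, nat_lit 0x48⟩ (t14_7377) (t14_15569)))))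 (.node ⟨nat_lit 7, nat_lit 0x1000400060, nat_lit 0x1003011, nat_lit 1, nat_lit 4, nat_lit 0x49⟩ (.node ⟨nat_lit 5, nat_lit 0, nat_lit 0x21111, nat_lit 1, nat_lit 4, nat_lit 0x49⟩ (.node ⟨nat_lit 6, nat_lit 0x200010, nat_lit 0x12101, nat_lit 6, nat_lit 4, nat_lit 0x4a⟩ (.node ⟨nat_lit 6, nat_lit 0x30, nat_lit 0x221110, nat_lit 0, nat_lit 3, nat_lit 0x49⟩ (t14_721) (t14_8913)) (.node ⟨nat_lit 7, nat_lit 0x400040002000200050, nat_lit 0x120202, nat_lit 2, nat_lit 4, nat_lit 0x48⟩ (t14_4817) (t14_13009))) (.node ⟨nat_lit 5, nat_lit 0x180014, nat_lit 0x11112, nat_lit 5, nat_lit 4, nat_lit 0x47⟩ (.node ⟨nat_lit 6, nat_lit 0x20002000100010, nat_lit 0x112130, nat_lit 3, nat_lit 4, nat_lit 0x49⟩ (t14_2769) (t14_10961)) (.node ⟨nat_lit 7, nat_lit 0x40006800680058, nat_lit 0x1110220, nat_lit 2, nat_lit 4, nat_lit 0x46⟩ (t14_6865) (t14_15057)))) (.node ⟨nat_lit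 5, nat_lit 0x40018, nat_lit 0x11113, nat_lit 0, nat_lit 4, nat_lit 0x46⟩ (.node ⟨nat_lit 6, nat_lit 0x30000c, nat_lit 0x101011, nat_lit 1, nat_lit 4, nat_lit 0x46⟩ (.node ⟨nat_lit 6, nat_lit 0x800080030, nat_lit 0x111003, nat_lit 0, nat_lit 4, nat_lit 0x47⟩ (t14_1745) (t14_9937)) (.node ⟨nat_lit 7, nat_lit 0x40004000400048, nat_lit 0x221111, nat_lit 3, nat_lit 4, nat_lit 0x4a⟩ (t14_5841) (t14_14033))) (.node ⟨nat_lit 6, nat_lit 0x1000200030, nat_lit 0x2023, nat_lit 0, nat_lit 4, nat_lit 0x47⟩ (.node ⟨nat_lit 8, nat_lit 0x10002000c000a0, nat_lit 0x100103, nat_lit 0, nat_lit 4, nat_lit 0x48⟩ (t14_3793) (t14_11985)) (.node ⟨nat_lit 7, nat_lit 0x40001000680068, nat_lit 0x1111121, nat_lit 1, nat_lit 4, nat_lit 0x47⟩ (t14_7889) (.nil)))))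
def t14_465 : Tr := .node ⟨nat_lit 8, nat_lit 0x800080004000400090, nat_lit 0x11111111, nat_lit 0, nat_lit 4, nat_lit 0x4a⟩ (.nil) (.nil)
def t14_8657 : Tr := .node ⟨nat_lit 7, nat_lit 0x40001000100060, nat_lit 0x102, nat_lit 0, nat_lit 4, nat_lit 0x46⟩ (.nil) (.nil)
def t14_4561 : Tr := .node ⟨nat_lit 8, nat_lit 0x4000a000a000c0, nat_lit 0x110212, nat_lit 0, nat_lit 4, nat_lit 0x48⟩ (.nil) (.nil)
def t14_12753 : Tr := .node ⟨nat_lit 7, nat_lit 0x40001000100060, nat_lit 0x103000, nat_lit 3, nat_lit 4, nat_lit 0x48⟩ (.nil) (.nil)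
def t14_2513 : Tr := .node ⟨nat_lit 7, nat_lit 0x1000400060, nat_lit 0x103020, nat_lit 0, nat_lit 4, nat_lit 0x49⟩ (.nil) (.nil)
def t14_10705 : Tr := .node ⟨nat_lit 6, nat_lit 0x800300028, nat_lit 0x100210, nat_lit 2, nat_lit 3, nat_lit 0x45⟩ (.nil) (.nil)
def t14_6609 : Tr := .node ⟨nat_lit 7, nat_lit 0x10001000600060, nat_lit 0x1002030, nat_lit 0, nat_lit 4, nat_lit 0x47⟩ (.nil) (.nil)
def t14_14801 : Tr := .node ⟨nat_lit 9, nat_lit 0x10001000080014001a001a0, nat_lit 0x111021, nat_lit 0, nat_lit 4, nat_lit 0x47⟩ (.nil) (.nil)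
def t14_1489 : Tr := .node ⟨nat_lit 6, nat_lit 0x800080030, nat_lit 0x100211, nat_lit 2, nat_lit 4, nat_lit 0x47⟩ (.nil) (.nil)
def t14_9681 : Tr := .node ⟨nat_lit 9, nat_lit 0x10001000080008001200180, nat_lit 0x1101002, nat_lit 1, nat_lit 4, nat_lit 0x49⟩ (.nil) (.nil)
def t14_5585 : Tr := .node ⟨nat_lit 6, nat_lit 0x200030, nat_lit 0x11120, nat_lit 2, nat_lit 4, nat_lit 0x48⟩ (.nil) (.nil)
def t14_13777 : Tr := .node ⟨nat_lit 7, nat_lit 0x4000100060, nat_lit 0x1001021, nat_lit 0, nat_lit 4, nat_lit 0x48⟩ (.nil) (.nil)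
def t14_3537 : Tr := .node ⟨nat_lit 6, nat_lit 0x800300030, nat_lit 0x320, nat_lit 0, nat_lit 4, nat_lit 0x45⟩ (.nil) (.nil)
def t14_11729 : Tr := .node ⟨nat_lit 8, nat_lit 0x40008000c000c0, nat_lit 0x112110, nat_lit 1, nat_lit 4, nat_lit 0x49⟩ (.nil) (.nil)
def t14_7633 : Tr := .node ⟨nat_lit 5, nat_lit 0x800080010, nat_lit 0x200, nat_lit 2, nat_lit 4, nat_lit 0x45⟩ (.nil) (.nil)
def t14_977 : Tr := .node ⟨nat_lit 8, nat_lit 0x40008000200084, nat_lit 0x20201, nat_lit 1, nat_lit 4, nat_lit 0x49⟩ (.nil) (.nil)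
def t14_9169 : Tr := .node ⟨nat_lit 8, nat_lit 0x80008000400040009000e0, nat_lit 0x111002, nat_lit 3, nat_lit 4, nat_lit 0x47⟩ (.nil) (.nil)
def t14_5073 : Tr := .node ⟨nat_lit 7, nat_lit 0x10004000400060, nat_lit 0x100321, nat_lit 2, nat_lit 4, nat_lit 0x49⟩ (.nil) (.nil)
def t14_13265 : Tr := .node ⟨nat_lit 7, nat_lit 0x40004800500068, nat_lit 0x2001, nat_lit 5, nat_lit 4, nat_lit 0x47⟩ (.nil) (.nil)
def t14_3025 : Tr := .node ⟨nat_lit 7, nat_lit 0x200040006800680070, nat_lit 0x1021110, nat_lit 4, nat_lit 4, nat_lit 0x46⟩ (.nil) (.nil)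
def t14_11217 : Tr := .node ⟨nat_lit 6, nat_lit 0x3000280028, nat_lit 0x1130, nat_lit 2, nat_lit 4, nat_lit 0x46⟩ (.nil) (.nil)
def t14_7121 : Tr := .node ⟨nat_lit 6, nat_lit 0x300030, nat_lit 0x102211, nat_lit 3, nat_lit 4, nat_lit 0x49⟩ (.nil) (.nil)
def t14_15313 : Tr := .node ⟨nat_lit 0xa, nat_lit 0x100020002000200008000800220, nat_lit 0x110101, nat_lit 3, nat_lit 4, nat_lit 0x4a⟩ (.nil) (.nil)
def t14_2001 : Tr := .node ⟨nat_lit 5, nat_lit 0x1000100018, nat_lit 0x2201, nat_lit 9, nat_lit 4, nat_lit 0x48⟩ (.nil) (.nil)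
def t14_10193 : Tr := .node ⟨nat_lit 7, nat_lit 0x10001800500060, nat_lit 0x2102, nat_lit 0, nat_lit 4, nat_lit 0x46⟩ (.nil) (.nil)
def t14_6097 : Tr := .node ⟨nat_lit 1, nat_lit 0, nat_lit 2, nat_lit 0x11, nat_lit 4, nat_lit 0x46⟩ (.nil) (.nil)
def t14_14289 : Tr := .node ⟨nat_lit 8, nat_lit 0x800040009000a000d0, nat_lit 0x10011102, nat_lit 0, nat_lit 4, nat_lit 0x47⟩ (.nil) (.nil)
def t14_4049 : Tr := .node ⟨nat_lit 8, nat_lit 0x800040004000a000c8, nat_lit 0x1001121, nat_lit 2, nat_lit 4, nat_lit 0x48⟩ (.nil) (.nil)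
def t14_12241 : Tr := .node ⟨nat_lit 7, nat_lit 0x400040004800500060, nat_lit 0x12000, nat_lit 9, nat_lit 4, nat_lit 0x48⟩ (.nil) (.nil)
def t14_8145 : Tr := .node ⟨nat_lit 6, nat_lit 0x2000240030, nat_lit 0x12230, nat_lit 2, nat_lit 4, nat_lit 0x48⟩ (.nil) (.nil)
def t9_465 : Tr := .node ⟨nat_lit 2, nat_lit 0, nat_lit 0x44, nat_lit 2, nat_lit 3, nat_lit 0x48⟩ (.node ⟨nat_lit 7, nat_lit 0x40004800580068, nat_lit 0x3110022, nat_lit 1, nat_lit 4, nat_lit 0x48⟩ (.node ⟨nat_lit 6, nat_lit 0x2000100032, nat_lit 0x22021, nat_lit 1, nat_lit 4, nat_lit 0x48⟩ (.node ⟨nat_lit 7, nat_lit 0x4000100060, nat_lit 0x112120, nat_lit 0, nat_lit 4, nat_lit 0x49⟩ (.node ⟨nat_lit 7, nat_lit 0x20004000100060, nat_lit 0x23010, nat_lit 0, nat_lit 4, nat_lit 0x48⟩ (t14_465) (t14_8657)) (.node ⟨nat_lit 6, nat_lit 0x2000080030, nat_lit 0x112220, nat_lit 3, nat_lit 4, nat_lit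 0x49⟩ (t14_4561) (t14_12753))) (.node ⟨nat_lit 6, nat_lit 0x800280030, nat_lit 0x10102, nat_lit 0, nat_lit 4, nat_lit 0x45⟩ (.node ⟨nat_lit 8, nat_lit 0x20008000c000c4, nat_lit 0x11010131, nat_lit 0, nat_lit 4, nat_lit 0x49⟩ (t14_2513) (t14_10705)) (.node ⟨nat_lit 7, nat_lit 0x40004000200020, nat_lit 0x21031, nat_lit 1, nat_lit 4, nat_lit 0x49⟩ (t14_6609) (t14_14801)))) (.node ⟨nat_lit 3, nat_lit 4, nat_lit 0x21, nat_lit 5, nat_lit 4, nat_lit 0x44⟩ (.node ⟨nat_lit 6, nat_lit 0x2000200010, nat_lit 0x121223, nat_lit 0, nat_lit 4, nat_lit 0x4a⟩ (.node ⟨nat_lit 7, nat_lit 0x40002000500064, nat_lit 0x101100, nat_lit 0, nat_lit 4, nat_lit 0x46⟩ (t14_1489) (t14_9681)) (.node ⟨nat_lit 9, nat_lit 0x800100010000400108, nat_lit 0x101101200, nat_lit 1, nat_lit 4, nat_lit 0x4b⟩ (t14_5585) (t14_13777))) (.node ⟨nat_lit 4, nat_lit 0x40008, nat_lit 0x133, nat_lit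 3, nat_lit 4, nat_lit 0x46⟩ (.node ⟨nat_lit 6, nat_lit 0x2000080030, nat_lit 0x1020, nat_lit 1, nat_lit 4, nat_lit 0x46⟩ (t14_3537) (t14_11729)) (.node ⟨nat_lit 6, nat_lit 0x20001000100010, nat_lit 0x10310, nat_lit 2, nat_lit 3, nat_lit 0x47⟩ (t14_7633) (.nil))))) (.node ⟨nat_lit 6, nat_lit 0x1000100020, nat_lit 0x113111, nat_lit 4, nat_lit 4, nat_lit 0x4a⟩ (.node ⟨nat_lit 6, nat_lit 0x2000100010, nat_lit 0x12021, nat_lit 0, nat_lit 3, nat_lit 0x47⟩ (.node ⟨nat_lit 8, nat_lit 0x80008000200040, nat_lit 0x1111011, nat_lit 1, nat_lit 4, nat_lit 0x4a⟩ (.node ⟨nat_lit 3, nat_lit 0x40006, nat_lit 0x132, nat_lit 0xb, nat_lit 4, nat_lit 0x47⟩ (t14_977) (t14_9169)) (.node ⟨nat_lit 5, nat_lit 0x100010, nat_lit 0x2222, nat_lit 2, nat_lit 3, nat_lit 0x47⟩ (t14_5073) (t14_13265))) (.node ⟨nat_lit 5, nat_lit 0x100018, nat_lit 0x11103, nat_lit 2, nat_lit 4, nat_lit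 0x47⟩ (.node ⟨nat_lit 7, nat_lit 0x40, nat_lit 0x1111112, nat_lit 0, nat_lit 4, nat_lit 0x4c⟩ (t14_3025) (t14_11217)) (.node ⟨nat_lit 8, nat_lit 0x80004000a000a0005000c0, nat_lit 0x1120003, nat_lit 0, nat_lit 4, nat_lit 0x47⟩ (t14_7121) (t14_15313)))) (.node ⟨nat_lit 6, nat_lit 0x200030, nat_lit 0x12102, nat_lit 1, nat_lit 4, nat_lit 0x48⟩ (.node ⟨nat_lit 6, nat_lit 0x30, nat_lit 0x301111, nat_lit 5, nat_lit 4, nat_lit 0x4b⟩ (.node ⟨nat_lit 5, nat_lit 0x100010, nat_lit 0x12141, nat_lit 2, nat_lit 3, nat_lit 0x48⟩ (t14_2001) (t14_10193)) (.node ⟨nat_lit 7, nat_lit 0x40001000100060, nat_lit 0x1012300, nat_lit 0, nat_lit 4, nat_lit 0x49⟩ (t14_6097) (t14_14289))) (.node ⟨nat_lit 4, nat_lit 0x8000e, nat_lit 0x2132, nat_lit 7, nat_lit 4, nat_lit 0x48⟩ (.node ⟨nat_lit 8, nat_lit 0x80002000a000d000e0, nat_lit 0x1010013, nat_lit 0, nat_lit 4, nat_lit 0x46⟩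 (t14_4049) (t14_12241)) (.node ⟨nat_lit 9, nat_lit 0x1000100008000800110, nat_lit 0x101111100, nat_lit 2, nat_lit 4, nat_lit 0x4b⟩ (t14_8145) (.nil)))))
def t14_49 : Tr := .node ⟨nat_lit 7, nat_lit 0x400060, nat_lit 0x121110, nat_lit 1, nat_lit 4, nat_lit 0x4a⟩ (.nil) (.nil)
def t14_8241 : Tr := .node ⟨nat_lit 8, nat_lit 0x8000200090009000c0, nat_lit 0x111310, nat_lit 2, nat_lit 4, nat_lit 0x48⟩ (.nil) (.nil)
def t14_4145 : Tr := .node ⟨nat_lit 7, nat_lit 0x40001000600068, nat_lit 0x112120, nat_lit 0, nat_lit 4, nat_lit 0x47⟩ (.nil) (.nil)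
def t14_12337 : Tr := .node ⟨nat_lit 7, nat_lit 0x40002000600070, nat_lit 0x12103, nat_lit 3, nat_lit 4, nat_lit 0x47⟩ (.nil) (.nil)
def t14_2097 : Tr := .node ⟨nat_lit 8, nat_lit 0x80008000400040004000a0, nat_lit 0x10113100, nat_lit 0, nat_lit 4, nat_lit 0x49⟩ (.nil) (.nil)
def t14_10289 : Tr := .node ⟨nat_lit 8, nat_lit 0x10002000c000a0, nat_lit 0x10022, nat_lit 2, nat_lit 4, nat_lit 0x48⟩ (.nil) (.nil)
def t14_6193 : Tr := .node ⟨nat_lit 6, nat_lit 0x800080030, nat_lit 0x100101, nat_lit 5, nat_lit 4, nat_lit 0x47⟩ (.nil) (.nil)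
def t14_14385 : Tr := .node ⟨nat_lit 8, nat_lit 0x800040009000a000c0, nat_lit 0x11003, nat_lit 1, nat_lit 4, nat_lit 0x47⟩ (.nil) (.nil)
def t14_1073 : Tr := .node ⟨nat_lit 6, nat_lit 0x2000080030, nat_lit 0x10121, nat_lit 1, nat_lit 4, nat_lit 0x46⟩ (.nil) (.nil)
def t14_9265 : Tr := .node ⟨nat_lit 8, nat_lit 0x800040004000a000a000c0, nat_lit 0x130102, nat_lit 0, nat_lit 4, nat_lit 0x47⟩ (.nil) (.nil)
def t14_5169 : Tr := .node ⟨nat_lit 5, nat_lit 0x1000100018, nat_lit 0x1320, nat_lit 7, nat_lit 4, nat_lit 0x48⟩ (.nil) (.nil)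
def t14_13361 : Tr := .node ⟨nat_lit 7, nat_lit 0x20002800500068, nat_lit 0x2020, nat_lit 2, nat_lit 4, nat_lit 0x46⟩ (.nil) (.nil)
def t14_3121 : Tr := .node ⟨nat_lit 7, nat_lit 0x40001000100060, nat_lit 0x113001, nat_lit 0, nat_lit 4, nat_lit 0x48⟩ (.nil) (.nil)
def t14_11313 : Tr := .node ⟨nat_lit 8, nat_lit 0xa00060006000c0, nat_lit 0x11202, nat_lit 1, nat_lit 4, nat_lit 0x47⟩ (.nil) (.nil)
def t14_7217 : Tr := .node ⟨nat_lit 6, nat_lit 0x800280030, nat_lit 0x11211, nat_lit 2, nat_lit 4, nat_lit 0x47⟩ (.nil) (.nil)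
def t14_15409 : Tr := .node ⟨nat_lit 0xb, nat_lit 0x4000400040001000200048004800440, nat_lit 0x1100011100, nat_lit 0, nat_lit 4, nat_lit 0x4a⟩ (.nil) (.nil)
def t14_561 : Tr := .node ⟨nat_lit 5, nat_lit 0x100018001c, nat_lit 0x122, nat_lit 4, nat_lit 4, nat_lit 0x44⟩ (.nil) (.nil)
def t14_8753 : Tr := .node ⟨nat_lit 7, nat_lit 0x20004000440060, nat_lit 0x10002, nat_lit 1, nat_lit 4, nat_lit 0x46⟩ (.nil) (.nil)
def t14_4657 : Tr := .node ⟨nat_lit 8, nat_lit 0x200080008800c000c8, nat_lit 0x10001212, nat_lit 0, nat_lit 4, nat_lit 0x47⟩ (.nil) (.nil)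
def t14_12849 : Tr := .node ⟨nat_lit 8, nat_lit 0x80002000c000a0, nat_lit 0x20020, nat_lit 1, nat_lit 4, nat_lit 0x48⟩ (.nil) (.nil)
def t14_2609 : Tr := .node ⟨nat_lit 6, nat_lit 0x2000100030, nat_lit 0x11202, nat_lit 4, nat_lit 4, nat_lit 0x48⟩ (.nil) (.nil)
def t14_10801 : Tr := .node ⟨nat_lit 0xb, nat_lit 0x200040004000400010000800420, nat_lit 0x120001, nat_lit 2, nat_lit 4, nat_lit 0x4b⟩ (.nil) (.nil)
def t14_6705 : Tr := .node ⟨nat_lit 6, nat_lit 0x30, nat_lit 0x111110, nat_lit 3, nat_lit 4, nat_lit 0x4a⟩ (.nil) (.nil)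
def t14_14897 : Tr := .node ⟨nat_lit 7, nat_lit 0x10004000440064, nat_lit 0x1100211, nat_lit 2, nat_lit 4, nat_lit 0x48⟩ (.nil) (.nil)
def t14_1585 : Tr := .node ⟨nat_lit 7, nat_lit 0x20002000500068, nat_lit 0x1011212, nat_lit 0, nat_lit 4, nat_lit 0x47⟩ (.nil) (.nil)
def t14_9777 : Tr := .node ⟨nat_lit 8, nat_lit 0x800020009000c000d0, nat_lit 0x101020, nat_lit 0, nat_lit 4, nat_lit 0x46⟩ (.nil) (.nil)
def t14_5681 : Tr := .node ⟨nat_lit 6, nat_lit 0x1000280030, nat_lit 0x100021, nat_lit 3, nat_lit 4, nat_lit 0x46⟩ (.nil) (.nil)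
def t14_13873 : Tr := .node ⟨nat_lit 6, nat_lit 0x2000240018, nat_lit 0x212, nat_lit 2, nat_lit 4, nat_lit 0x46⟩ (.nil) (.nil)
def t14_3633 : Tr := .node ⟨nat_lit 5, nat_lit 0x140018, nat_lit 0x201, nat_lit 5, nat_lit 4, nat_lit 0x46⟩ (.nil) (.nil)
def t14_11825 : Tr := .node ⟨nat_lit 6, nat_lit 0x2000200010, nat_lit 0x2003, nat_lit 3, nat_lit 4, nat_lit 0x48⟩ (.nil) (.nil)
def t14_7729 : Tr := .node ⟨nat_lit 7, nat_lit 0x4000200010, nat_lit 0x1003, nat_lit 0, nat_lit 4, nat_lit 0x48⟩ (.nil) (.nil)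
def t9_49 : Tr := .node ⟨nat_lit 5, nat_lit 0x100008, nat_lit 0x3321, nat_lit 1, nat_lit 4, nat_lit 0x49⟩ (.node ⟨nat_lit 5, nat_lit 0x18, nat_lit 0x11310, nat_lit 1, nat_lit 4, nat_lit 0x48⟩ (.node ⟨nat_lit 6, nat_lit 0x2000300030, nat_lit 0x3120, nat_lit 1, nat_lit 4, nat_lit 0x47⟩ (.node ⟨nat_lit 6, nat_lit 0x280030, nat_lit 0x11211, nat_lit 0, nat_lit 4, nat_lit 0x47⟩ (.node ⟨nat_lit 7, nat_lit 0x4000600050, nat_lit 0x22113, nat_lit 0, nat_lit 4, nat_lit 0x49⟩ (t14_49) (t14_8241)) (.node ⟨nat_lit 5, nat_lit 0x1000080014, nat_lit 0x11100, nat_lit 4, nat_lit 4, nat_lit 0x46⟩ (t14_4145) (t14_12337))) (.node ⟨nat_lit 7, nat_lit 0x1000100060, nat_lit 0x2201102, nat_lit 0, nat_lit 4, nat_lit 0x4a⟩ (.node ⟨nat_lit 5, nat_lit 0x40018, nat_lit 0x11021, nat_lit 3, nat_lit 4, nat_lit 0x46⟩ (t14_2097) (t14_10289)) (.node ⟨nat_lit 8, nat_lit 0x80004000a000c0,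 nat_lit 0x1021002, nat_lit 0, nat_lit 4, nat_lit 0x49⟩ (t14_6193) (t14_14385)))) (.node ⟨nat_lit 5, nat_lit 0x800100010, nat_lit 0x2331, nat_lit 2, nat_lit 4, nat_lit 0x48⟩ (.node ⟨nat_lit 6, nat_lit 0x1000100020, nat_lit 0x122111, nat_lit 0, nat_lit 3, nat_lit 0x48⟩ (.node ⟨nat_lit 6, nat_lit 0x20002000100028, nat_lit 0x11031, nat_lit 3, nat_lit 4, nat_lit 0x47⟩ (t14_1073) (t14_9265)) (.node ⟨nat_lit 7, nat_lit 0x40001000600068, nat_lit 0x112112, nat_lit 1, nat_lit 4, nat_lit 0x47⟩ (t14_5169) (t14_13361))) (.node ⟨nat_lit 7, nat_lit 0x4000100020, nat_lit 0x212010, nat_lit 0, nat_lit 4, nat_lit 0x4a⟩ (.node ⟨nat_lit 7, nat_lit 0x40004000100020, nat_lit 0x112100, nat_lit 0, nat_lit 4, nat_lit 0x48⟩ (t14_3121) (t14_11313)) (.node ⟨nat_lit 5, nat_lit 0x1000100014, nat_lit 0x11110, nat_lit 0xd, nat_lit 4, nat_lit 0x49⟩ (t14_7217) (t14_15409))))) (.node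 ⟨nat_lit 3, nat_lit 4, nat_lit 0x313, nat_lit 9, nat_lit 4, nat_lit 0x49⟩ (.node ⟨nat_lit 4, nat_lit 0x80004, nat_lit 0x200, nat_lit 9, nat_lit 3, nat_lit 0x46⟩ (.node ⟨nat_lit 6, nat_lit 0x800300038, nat_lit 0x1221, nat_lit 0, nat_lit 4, nat_lit 0x45⟩ (.node ⟨nat_lit 6, nat_lit 0x2000100038, nat_lit 0x21212, nat_lit 0, nat_lit 4, nat_lit 0x47⟩ (t14_561) (t14_8753)) (.node ⟨nat_lit 6, nat_lit 0x10002000200030, nat_lit 0x111202, nat_lit 0, nat_lit 3, nat_lit 0x46⟩ (t14_4657) (t14_12849))) (.node ⟨nat_lit 8, nat_lit 0x800090009000c00060, nat_lit 0x1000012, nat_lit 0, nat_lit 4, nat_lit 0x46⟩ (.node ⟨nat_lit 3, nat_lit 4, nat_lit 0x113, nat_lit 0xd, nat_lit 4, nat_lit 0x48⟩ (t14_2609) (t14_10801)) (.node ⟨nat_lit 7, nat_lit 0x4000500060, nat_lit 0x112211, nat_lit 2, nat_lit 4, nat_lit 0x49⟩ (t14_6705) (t14_14897)))) (.node ⟨nat_lit 6, nat_lit 0x280030,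 nat_lit 0x112111, nat_lit 0, nat_lit 3, nat_lit 0x47⟩ (.node ⟨nat_lit 4, nat_lit 0xc, nat_lit 0x3131, nat_lit 4, nat_lit 4, nat_lit 0x49⟩ (.node ⟨nat_lit 5, nat_lit 0x100008, nat_lit 0x100, nat_lit 1, nat_lit 4, nat_lit 0x44⟩ (t14_1585) (t14_9777)) (.node ⟨nat_lit 7, nat_lit 0x40001000580068, nat_lit 0x2111210, nat_lit 0, nat_lit 4, nat_lit 0x48⟩ (t14_5681) (t14_13873))) (.node ⟨nat_lit 6, nat_lit 0x80030, nat_lit 0x201012, nat_lit 0, nat_lit 4, nat_lit 0x48⟩ (.node ⟨nat_lit 7, nat_lit 0x500060, nat_lit 0x1100, nat_lit 0, nat_lit 4, nat_lit 0x47⟩ (t14_3633) (t14_11825)) (.node ⟨nat_lit 6, nat_lit 0x1000200034, nat_lit 0x111210, nat_lit 3, nat_lit 4, nat_lit 0x48⟩ (t14_7729) (.nil)))))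
def t14_305 : Tr := .node ⟨nat_lit 6, nat_lit 0x800280030, nat_lit 0x120411, nat_lit 1, nat_lit 4, nat_lit 0x48⟩ (.nil) (.nil)
def t14_8497 : Tr := .node ⟨nat_lit 7, nat_lit 0x40002000200070, nat_lit 0x11002, nat_lit 0, nat_lit 4, nat_lit 0x46⟩ (.nil) (.nil)
def t14_4401 : Tr := .node ⟨nat_lit 8, nat_lit 0x400080008000880050, nat_lit 0x11200120, nat_lit 1, nat_lit 4, nat_lit 0x49⟩ (.nil) (.nil)
def t14_12593 : Tr := .node ⟨nat_lit 6, nat_lit 0x800300038, nat_lit 0x110103, nat_lit 2, nat_lit 4, nat_lit 0x46⟩ (.nil) (.nil)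
def t14_2353 : Tr := .node ⟨nat_lit 6, nat_lit 0x10002000380038, nat_lit 0x21210, nat_lit 6, nat_lit 4, nat_lit 0x47⟩ (.nil) (.nil)
def t14_10545 : Tr := .node ⟨nat_lit 7, nat_lit 0x40001000200020, nat_lit 0x1010020, nat_lit 0, nat_lit 3, nat_lit 0x47⟩ (.nil) (.nil)
def t14_6449 : Tr := .node ⟨nat_lit 5, nat_lit 0x1000080008, nat_lit 0x30, nat_lit 3, nat_lit 3, nat_lit 0x45⟩ (.nil) (.nil)
def t14_14641 : Tr := .node ⟨nat_lit 6, nat_lit 0x10002000300034, nat_lit 0x102111, nat_lit 6, nat_lit 4, nat_lit 0x47⟩ (.nil) (.nil)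
def t14_1329 : Tr := .node ⟨nat_lit 8, nat_lit 0x8000800040004800a000e0, nat_lit 0x10112011, nat_lit 0, nat_lit 4, nat_lit 0x47⟩ (.nil) (.nil)
def t14_9521 : Tr := .node ⟨nat_lit 8, nat_lit 0x800080004000a000a00090, nat_lit 0x11110110, nat_lit 3, nat_lit 4, nat_lit 0x49⟩ (.nil) (.nil)
def t14_5425 : Tr := .node ⟨nat_lit 7, nat_lit 0x400040, nat_lit 0x111122, nat_lit 2, nat_lit 4, nat_lit 0x4b⟩ (.nil) (.nil)
def t14_13617 : Tr := .node ⟨nat_lit 7, nat_lit 0x40001000100060, nat_lit 0x102, nat_lit 3, nat_lit 4, nat_lit 0x47⟩ (.nil) (.nil)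
def t14_3377 : Tr := .node ⟨nat_lit 6, nat_lit 0x800300030, nat_lit 0x102110, nat_lit 2, nat_lit 4, nat_lit 0x47⟩ (.nil) (.nil)
def t14_11569 : Tr := .node ⟨nat_lit 6, nat_lit 0x20002800300030, nat_lit 0x2110, nat_lit 9, nat_lit 4, nat_lit 0x47⟩ (.nil) (.nil)
def t14_7473 : Tr := .node ⟨nat_lit 8, nat_lit 0x20002000c0, nat_lit 0x10011101, nat_lit 1, nat_lit 4, nat_lit 0x4a⟩ (.nil) (.nil)
def t14_817 : Tr := .node ⟨nat_lit 6, nat_lit 0x2000200020, nat_lit 0x11310, nat_lit 3, nat_lit 4, nat_lit 0x49⟩ (.nil) (.nil)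
def t14_9009 : Tr := .node ⟨nat_lit 7, nat_lit 0x10002000500060, nat_lit 0x110221, nat_lit 0, nat_lit 3, nat_lit 0x46⟩ (.nil) (.nil)
def t14_4913 : Tr := .node ⟨nat_lit 7, nat_lit 0x1000100060, nat_lit 0x1112201, nat_lit 1, nat_lit 4, nat_lit 0x4a⟩ (.nil) (.nil)
def t14_13105 : Tr := .node ⟨nat_lit 6, nat_lit 0x800200030, nat_lit 0x303, nat_lit 0, nat_lit 4, nat_lit 0x46⟩ (.nil) (.nil)
def t14_2865 : Tr := .node ⟨nat_lit 7, nat_lit 0x40002000640064, nat_lit 0x13010, nat_lit 0, nat_lit 4, nat_lit 0x46⟩ (.nil) (.nil)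
def t14_11057 : Tr := .node ⟨nat_lit 7, nat_lit 0x10001000600060, nat_lit 0x1100020, nat_lit 1, nat_lit 4, nat_lit 0x47⟩ (.nil) (.nil)
def t14_6961 : Tr := .node ⟨nat_lit 5, nat_lit 0x140018, nat_lit 0x11211, nat_lit 7, nat_lit 4, nat_lit 0x48⟩ (.nil) (.nil)
def t14_15153 : Tr := .node ⟨nat_lit 8, nat_lit 0x800040004000a000a000e0, nat_lit 0x10110111, nat_lit 0, nat_lit 4, nat_lit 0x47⟩ (.nil) (.nil)
def t14_1841 : Tr := .node ⟨nat_lit 7, nat_lit 0x10004000440060, nat_lit 0x300102, nat_lit 0, nat_lit 4, nat_lit 0x48⟩ (.nil) (.nil)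
def t14_10033 : Tr := .node ⟨nat_lit 8, nat_lit 0x20008000c000c0, nat_lit 0x1010220, nat_lit 0, nat_lit 4, nat_lit 0x49⟩ (.nil) (.nil)
def t14_5937 : Tr := .node ⟨nat_lit 8, nat_lit 0x8000200090009000c0, nat_lit 0x1111300, nat_lit 0, nat_lit 4, nat_lit 0x48⟩ (.nil) (.nil)
def t14_14129 : Tr := .node ⟨nat_lit 9, nat_lit 0x400100002000200180, nat_lit 0x10001002, nat_lit 1, nat_lit 4, nat_lit 0x49⟩ (.nil) (.nil)
def t14_3889 : Tr := .node ⟨nat_lit 7, nat_lit 0x200020004000700070, nat_lit 0x110210, nat_lit 5, nat_lit 4, nat_lit 0x47⟩ (.nil) (.nil)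
def t14_12081 : Tr := .node ⟨nat_lit 6, nat_lit 0x2800180030, nat_lit 0x110300, nat_lit 3, nat_lit 4, nat_lit 0x46⟩ (.nil) (.nil)
def t14_7985 : Tr := .node ⟨nat_lit 9, nat_lit 0x8000400100010001080108, nat_lit 0x1011121, nat_lit 0, nat_lit 4, nat_lit 0x49⟩ (.nil) (.nil)
def t9_305 : Tr := .node ⟨nat_lit 6, nat_lit 0x200020, nat_lit 0x32110, nat_lit 1, nat_lit 4, nat_lit 0x4a⟩ (.node ⟨nat_lit 6, nat_lit 0x2000100032, nat_lit 0x32121, nat_lit 0, nat_lit 4, nat_lit 0x49⟩ (.node ⟨nat_lit 8, nat_lit 0x8000200040, nat_lit 0x1131011, nat_lit 1, nat_lit 4, nat_lit 0x4c⟩ (.node ⟨nat_lit 7, nat_lit 0x2000400042, nat_lit 0x1021012, nat_lit 0, nat_lit 4, nat_lit 0x49⟩ (.node ⟨nat_lit 7, nat_lit 0x40004000200020, nat_lit 0x211021, nat_lit 1, nat_lit 4, nat_lit 0x4a⟩ (t14_305) (t14_8497)) (.node ⟨nat_lit 8, nat_lit 0x8000b000b000d000e0, nat_lit 0x11001103,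 nat_lit 1, nat_lit 4, nat_lit 0x45⟩ (t14_4401) (t14_12593))) (.node ⟨nat_lit 6, nat_lit 0x10002000180024, nat_lit 0x221200, nat_lit 0, nat_lit 4, nat_lit 0x48⟩ (.node ⟨nat_lit 8, nat_lit 0x800020009000a000c0, nat_lit 0x1112031, nat_lit 0, nat_lit 4, nat_lit 0x48⟩ (t14_2353) (t14_10545)) (.node ⟨nat_lit 5, nat_lit 0x100018, nat_lit 0x2130, nat_lit 5, nat_lit 4, nat_lit 0x48⟩ (t14_6449) (t14_14641)))) (.node ⟨nat_lit 5, nat_lit 0x100008, nat_lit 0x20112, nat_lit 1, nat_lit 4, nat_lit 0x47⟩ (.node ⟨nat_lit 6, nat_lit 0x80030, nat_lit 0x202221, nat_lit 1, nat_lit 4, nat_lit 0x4a⟩ (.node ⟨nat_lit 6, nat_lit 0x20001000280038, nat_lit 0x101003, nat_lit 5, nat_lit 4, nat_lit 0x46⟩ (t14_1329) (t14_9521)) (.node ⟨nat_lit 7, nat_lit 0x20004000100060, nat_lit 0x122022, nat_lit 1, nat_lit 4, nat_lit 0x49⟩ (t14_5425) (t14_13617))) (.node ⟨nat_lit 5, nat_lit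 0x40018, nat_lit 0x11220, nat_lit 2, nat_lit 4, nat_lit 0x48⟩ (.node ⟨nat_lit 6, nat_lit 0x2000100030, nat_lit 0x111030, nat_lit 1, nat_lit 3, nat_lit 0x47⟩ (t14_3377) (t14_11569)) (.node ⟨nat_lit 7, nat_lit 0x40001000100060, nat_lit 0x1101102, nat_lit 5, nat_lit 4, nat_lit 0x49⟩ (t14_7473) (.nil))))) (.node ⟨nat_lit 6, nat_lit 0x30, nat_lit 0x113110, nat_lit 0, nat_lit 4, nat_lit 0x4a⟩ (.node ⟨nat_lit 6, nat_lit 0x200010, nat_lit 0x21022, nat_lit 0, nat_lit 4, nat_lit 0x49⟩ (.node ⟨nat_lit 6, nat_lit 0x100020, nat_lit 0x111110, nat_lit 0, nat_lit 4, nat_lit 0x48⟩ (.node ⟨nat_lit 6, nat_lit 0x2000200010, nat_lit 0x22220, nat_lit 0, nat_lit 4, nat_lit 0x49⟩ (t14_817) (t14_9009)) (.node ⟨nat_lit 7, nat_lit 0x400060, nat_lit 0x1121102, nat_lit 2, nat_lit 4, nat_lit 0x4b⟩ (t14_4913) (t14_13105))) (.node ⟨nat_lit 5, nat_lit 0x40018, nat_lit 0x11103,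 nat_lit 0, nat_lit 4, nat_lit 0x46⟩ (.node ⟨nat_lit 3, nat_lit 4, nat_lit 0x112, nat_lit 0xf, nat_lit 4, nat_lit 0x48⟩ (t14_2865) (t14_11057)) (.node ⟨nat_lit 8, nat_lit 0x80008000400040, nat_lit 0x10112210, nat_lit 1, nat_lit 4, nat_lit 0x4b⟩ (t14_6961) (t14_15153)))) (.node ⟨nat_lit 3, nat_lit 6, nat_lit 0x220, nat_lit 0xc, nat_lit 4, nat_lit 0x47⟩ (.node ⟨nat_lit 8, nat_lit 0x8000800088009000c0, nat_lit 0x2111101, nat_lit 1, nat_lit 4, nat_lit 0x49⟩ (.node ⟨nat_lit 5, nat_lit 0x800080010, nat_lit 0x10100, nat_lit 5, nat_lit 4, nat_lit 0x46⟩ (t14_1841) (t14_10033)) (.node ⟨nat_lit 7, nat_lit 0x40004000100060, nat_lit 0x212003, nat_lit 0, nat_lit 4, nat_lit 0x49⟩ (t14_5937) (t14_14129))) (.node ⟨nat_lit 5, nat_lit 0x1000100018, nat_lit 0x1211, nat_lit 6, nat_lit 4, nat_lit 0x47⟩ (.node ⟨nat_lit 7, nat_lit 0x10005000600070, nat_lit 0x100043, nat_lit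 0, nat_lit 4, nat_lit 0x46⟩ (t14_3889) (t14_12081)) (.node ⟨nat_lit 8, nat_lit 0x200080008000c0, nat_lit 0x1010112, nat_lit 0, nat_lit 4, nat_lit 0x49⟩ (t14_7985) (.nil)))))
def t14_177 : Tr := .node ⟨nat_lit 8, nat_lit 0x400080002000c0, nat_lit 0x1122101, nat_lit 0, nat_lit 4, nat_lit 0x4a⟩ (.nil) (.nil)
def t14_8369 : Tr := .node ⟨nat_lit 7, nat_lit 0x4000440060, nat_lit 0x11230, nat_lit 3, nat_lit 4, nat_lit 0x49⟩ (.nil) (.nil)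
def t14_4273 : Tr := .node ⟨nat_lit 7, nat_lit 0x20004000680068, nat_lit 0x220011, nat_lit 1, nat_lit 4, nat_lit 0x47⟩ (.nil) (.nil)
def t14_12465 : Tr := .node ⟨nat_lit 8, nat_lit 0x200020004000400080, nat_lit 0x10000310, nat_lit 1, nat_lit 4, nat_lit 0x49⟩ (.nil) (.nil)
def t14_2225 : Tr := .node ⟨nat_lit 6, nat_lit 0x20001000100030, nat_lit 0x2221, nat_lit 2, nat_lit 4, nat_lit 0x47⟩ (.nil) (.nil)
def t14_10417 : Tr := .node ⟨nat_lit 6, nat_lit 0x2000240030, nat_lit 0x1220, nat_lit 8, nat_lit 4, nat_lit 0x48⟩ (.nil) (.nil)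
def t14_6321 : Tr := .node ⟨nat_lit 6, nat_lit 0x800300028, nat_lit 0x100102, nat_lit 3, nat_lit 4, nat_lit 0x46⟩ (.nil) (.nil)
def t14_14513 : Tr := .node ⟨nat_lit 8, nat_lit 0x8000c000a0, nat_lit 0x21210, nat_lit 2, nat_lit 4, nat_lit 0x4a⟩ (.nil) (.nil)
def t14_1201 : Tr := .node ⟨nat_lit 7, nat_lit 0x4000100060, nat_lit 0x11221, nat_lit 2, nat_lit 4, nat_lit 0x49⟩ (.nil) (.nil)
def t14_9393 : Tr := .node ⟨nat_lit 7, nat_lit 0x10001000100060, nat_lit 0x2002103, nat_lit 0, nat_lit 3, nat_lit 0x47⟩ (.nil) (.nil)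
def t14_5297 : Tr := .node ⟨nat_lit 7, nat_lit 0x1000600060, nat_lit 0x1111120, nat_lit 1, nat_lit 4, nat_lit 0x49⟩ (.nil) (.nil)
def t14_13489 : Tr := .node ⟨nat_lit 6, nat_lit 0x1000100020, nat_lit 0x1003, nat_lit 5, nat_lit 4, nat_lit 0x48⟩ (.nil) (.nil)
def t14_3249 : Tr := .node ⟨nat_lit 7, nat_lit 0x20003000500060, nat_lit 0x1000122, nat_lit 0, nat_lit 4, nat_lit 0x46⟩ (.nil) (.nil)
def t14_11441 : Tr := .node ⟨nat_lit 7, nat_lit 0x4000100060, nat_lit 0x1001110, nat_lit 0, nat_lit 4, nat_lit 0x48⟩ (.nil) (.nil)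
def t14_7345 : Tr := .node ⟨nat_lit 6, nat_lit 0x2000200030, nat_lit 0x12000, nat_lit 0, nat_lit 3, nat_lit 0x46⟩ (.nil) (.nil)
def t14_15537 : Tr := .node ⟨nat_lit 7, nat_lit 0x200040, nat_lit 0x1021101, nat_lit 7, nat_lit 4, nat_lit 0x4c⟩ (.nil) (.nil)
def t14_689 : Tr := .node ⟨nat_lit 4, nat_lit 0x40008, nat_lit 0x33, nat_lit 3, nat_lit 4, nat_lit 0x45⟩ (.nil) (.nil)
def t14_8881 : Tr := .node ⟨nat_lit 8, nat_lit 0x80008000880088, nat_lit 0x2111021, nat_lit 1, nat_lit 4, nat_lit 0x4a⟩ (.nil) (.nil)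
def t14_4785 : Tr := .node ⟨nat_lit 6, nat_lit 0x3000300028, nat_lit 0x12220, nat_lit 4, nat_lit 4, nat_lit 0x47⟩ (.nil) (.nil)
def t14_12977 : Tr := .node ⟨nat_lit 7, nat_lit 0x20001000500068, nat_lit 0x3111, nat_lit 0, nat_lit 4, nat_lit 0x46⟩ (.nil) (.nil)
def t14_2737 : Tr := .node ⟨nat_lit 7, nat_lit 0x10005000500060, nat_lit 0x102201, nat_lit 3, nat_lit 4, nat_lit 0x47⟩ (.nil) (.nil)
def t14_10929 : Tr := .node ⟨nat_lit 8, nat_lit 0x4000800060009000e000d0, nat_lit 0x121001, nat_lit 0, nat_lit 4, nat_lit 0x45⟩ (.nil) (.nil)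
def t14_6833 : Tr := .node ⟨nat_lit 7, nat_lit 0x2000400064, nat_lit 0x11302, nat_lit 0, nat_lit 4, nat_lit 0x48⟩ (.nil) (.nil)
def t14_15025 : Tr := .node ⟨nat_lit 8, nat_lit 0x800080008000900090, nat_lit 0x1111011, nat_lit 4, nat_lit 4, nat_lit 0x4a⟩ (.nil) (.nil)
def t14_1713 : Tr := .node ⟨nat_lit 8, nat_lit 0x200080003000a000c0, nat_lit 0x1111121, nat_lit 0, nat_lit 4, nat_lit 0x48⟩ (.nil) (.nil)
def t14_9905 : Tr := .node ⟨nat_lit 5, nat_lit 0x1800180018, nat_lit 0x430, nat_lit 6, nat_lit 4, nat_lit 0x46⟩ (.nil) (.nil)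
def t14_5809 : Tr := .node ⟨nat_lit 7, nat_lit 0x4000100020, nat_lit 0x101031, nat_lit 1, nat_lit 4, nat_lit 0x49⟩ (.nil) (.nil)
def t14_14001 : Tr := .node ⟨nat_lit 6, nat_lit 0x20001000100028, nat_lit 0x100212, nat_lit 1, nat_lit 4, nat_lit 0x46⟩ (.nil) (.nil)
def t14_3761 : Tr := .node ⟨nat_lit 6, nat_lit 0x2000200030, nat_lit 0x22200, nat_lit 0, nat_lit 3, nat_lit 0x47⟩ (.nil) (.nil)
def t14_11953 : Tr := .node ⟨nat_lit 6, nat_lit 0x1000200022, nat_lit 0x1031, nat_lit 4, nat_lit 4, nat_lit 0x48⟩ (.nil) (.nil)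
def t14_7857 : Tr := .node ⟨nat_lit 4, nat_lit 0xc000c, nat_lit 0x1021, nat_lit 7, nat_lit 4, nat_lit 0x45⟩ (.nil) (.nil)
def t9_177 : Tr := .node ⟨nat_lit 2, nat_lit 0, nat_lit 0x32, nat_lit 0xd, nat_lit 4, nat_lit 0x48⟩ (.node ⟨nat_lit 6, nat_lit 0x300028, nat_lit 0x111312, nat_lit 2, nat_lit 4, nat_lit 0x49⟩ (.node ⟨nat_lit 4, nat_lit 0xc, nat_lit 0x42, nat_lit 3, nat_lit 4, nat_lit 0x46⟩ (.node ⟨nat_lit 4, nat_lit 0x80008, nat_lit 0x211, nat_lit 5, nat_lit 4, nat_lit 0x46⟩ (.node ⟨nat_lit 8, nat_lit 0x80008000400020, nat_lit 0x1211012, nat_lit 0, nat_lit 4, nat_lit 0x4b⟩ (t14_177) (t14_8369)) (.node ⟨nat_lit 6, nat_lit 0x10002000200024, nat_lit 0x102000, nat_lit 2, nat_lit 4, nat_lit 0x46⟩ (t14_4273) (t14_12465))) (.node ⟨nat_lit 5, nat_lit 0x10, nat_lit 0x22113, nat_lit 4, nat_lit 4, nat_lit 0x4b⟩ (.node ⟨nat_lit 7, nat_lit 0x40004800300070,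 nat_lit 0x102113, nat_lit 0, nat_lit 4, nat_lit 0x46⟩ (t14_2225) (t14_10417)) (.node ⟨nat_lit 7, nat_lit 0x10002000500060, nat_lit 0x12023, nat_lit 0, nat_lit 4, nat_lit 0x47⟩ (t14_6321) (t14_14513)))) (.node ⟨nat_lit 5, nat_lit 0x10, nat_lit 0x12111, nat_lit 7, nat_lit 4, nat_lit 0x4a⟩ (.node ⟨nat_lit 6, nat_lit 0x800280030, nat_lit 0x210221, nat_lit 0, nat_lit 4, nat_lit 0x47⟩ (.node ⟨nat_lit 7, nat_lit 0x40001000200060, nat_lit 0x11401, nat_lit 0, nat_lit 4, nat_lit 0x48⟩ (t14_1201) (t14_9393)) (.node ⟨nat_lit 6, nat_lit 0x1000300028, nat_lit 0x110221, nat_lit 1, nat_lit 4, nat_lit 0x47⟩ (t14_5297) (t14_13489))) (.node ⟨nat_lit 6, nat_lit 0x20001000280034, nat_lit 0x22200, nat_lit 3, nat_lit 4, nat_lit 0x47⟩ (.node ⟨nat_lit 7, nat_lit 0x1000080060, nat_lit 0x1001001, nat_lit 2, nat_lit 4, nat_lit 0x48⟩ (t14_3249) (t14_11441)) (.node ⟨nat_lit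 5, nat_lit 0x800100018, nat_lit 0x1011, nat_lit 3, nat_lit 4, nat_lit 0x45⟩ (t14_7345) (t14_15537))))) (.node ⟨nat_lit 6, nat_lit 0x20, nat_lit 0x31110, nat_lit 0, nat_lit 4, nat_lit 0x4a⟩ (.node ⟨nat_lit 6, nat_lit 0x200010, nat_lit 0x12101, nat_lit 0, nat_lit 4, nat_lit 0x48⟩ (.node ⟨nat_lit 4, nat_lit 0x80008, nat_lit 0x210, nat_lit 3, nat_lit 4, nat_lit 0x45⟩ (.node ⟨nat_lit 6, nat_lit 0x2000100008, nat_lit 0x12020, nat_lit 1, nat_lit 3, nat_lit 0x47⟩ (t14_689) (t14_8881)) (.node ⟨nat_lit 7, nat_lit 0x20004000500064, nat_lit 0x1002200, nat_lit 1, nat_lit 4, nat_lit 0x47⟩ (t14_4785) (t14_12977))) (.node ⟨nat_lit 5, nat_lit 0x100008, nat_lit 0x101, nat_lit 2, nat_lit 4, nat_lit 0x45⟩ (.node ⟨nat_lit 7, nat_lit 0x10001000400060, nat_lit 0x1002130, nat_lit 0, nat_lit 4, nat_lit 0x48⟩ (t14_2737) (t14_10929)) (.node ⟨nat_lit 7, nat_lit 0x40001000100060,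 nat_lit 0x1100102, nat_lit 2, nat_lit 4, nat_lit 0x48⟩ (t14_6833) (t14_15025)))) (.node ⟨nat_lit 6, nat_lit 0x2000100024, nat_lit 0x111212, nat_lit 0, nat_lit 4, nat_lit 0x48⟩ (.node ⟨nat_lit 7, nat_lit 0x40001000600068, nat_lit 0x1012011, nat_lit 1, nat_lit 4, nat_lit 0x47⟩ (.node ⟨nat_lit 5, nat_lit 0x100018, nat_lit 0x100, nat_lit 1, nat_lit 4, nat_lit 0x44⟩ (t14_1713) (t14_9905)) (.node ⟨nat_lit 6, nat_lit 0x100020, nat_lit 0x2230, nat_lit 0, nat_lit 4, nat_lit 0x49⟩ (t14_5809) (t14_14001))) (.node ⟨nat_lit 7, nat_lit 0x2000600050, nat_lit 0x2002102, nat_lit 2, nat_lit 4, nat_lit 0x49⟩ (.node ⟨nat_lit 6, nat_lit 0x200030, nat_lit 0x2100, nat_lit 0, nat_lit 4, nat_lit 0x47⟩ (t14_3761) (t14_11953)) (.node ⟨nat_lit 8, nat_lit 0x200080008000c800c8, nat_lit 0x11000221, nat_lit 1, nat_lit 4, nat_lit 0x48⟩ (t14_7857) (.nil)))))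
def t14_433 : Tr := .node ⟨nat_lit 6, nat_lit 0x20002000100038, nat_lit 0x112101, nat_lit 5, nat_lit 4, nat_lit 0x48⟩ (.nil) (.nil)
def t14_8625 : Tr := .node ⟨nat_lit 6, nat_lit 0x10001000200022, nat_lit 0x101002, nat_lit 0, nat_lit 4, nat_lit 0x45⟩ (.nil) (.nil)
def t14_4529 : Tr := .node ⟨nat_lit 8, nat_lit 0x2000400080, nat_lit 0x11111101, nat_lit 3, nat_lit 4, nat_lit 0x4c⟩ (.nil) (.nil)
def t14_12721 : Tr := .node ⟨nat_lit 6, nat_lit 0x800280030, nat_lit 0x101120, nat_lit 3, nat_lit 4, nat_lit 0x47⟩ (.nil) (.nil)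
def t14_2481 : Tr := .node ⟨nat_lit 6, nat_lit 0x10002000240030, nat_lit 0x102200, nat_lit 3, nat_lit 4, nat_lit 0x47⟩ (.nil) (.nil)
def t14_10673 : Tr := .node ⟨nat_lit 7, nat_lit 0x800600050, nat_lit 0x1000000, nat_lit 0, nat_lit 4, nat_lit 0x46⟩ (.nil) (.nil)
def t14_6577 : Tr := .node ⟨nat_lit 5, nat_lit 0x1000140018, nat_lit 0x2210, nat_lit 6, nat_lit 4, nat_lit 0x47⟩ (.nil) (.nil)
def t14_14769 : Tr := .node ⟨nat_lit 5, nat_lit 0x1000080014, nat_lit 0x10210, nat_lit 3, nat_lit 4, nat_lit 0x46⟩ (.nil) (.nil)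
def t14_1457 : Tr := .node ⟨nat_lit 9, nat_lit 0x80008001000100011000c00190, nat_lit 0x102001011, nat_lit 1, nat_lit 4, nat_lit 0x48⟩ (.nil) (.nil)
def t14_9649 : Tr := .node ⟨nat_lit 7, nat_lit 0x40002000100060, nat_lit 0x12, nat_lit 1, nat_lit 4, nat_lit 0x46⟩ (.nil) (.nil)
def t14_5553 : Tr := .node ⟨nat_lit 7, nat_lit 0x4000400040, nat_lit 0x111311, nat_lit 2, nat_lit 4, nat_lit 0x4b⟩ (.nil) (.nil)
def t14_13745 : Tr := .node ⟨nat_lit 4, nat_lit 0xc000c, nat_lit 0x2100, nat_lit 5, nat_lit 3, nat_lit 0x45⟩ (.nil) (.nil)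
def t14_3505 : Tr := .node ⟨nat_lit 6, nat_lit 0x2800180030, nat_lit 0x10, nat_lit 3, nat_lit 4, nat_lit 0x44⟩ (.nil) (.nil)
def t14_11697 : Tr := .node ⟨nat_lit 8, nat_lit 0x80008000b000d000e000e0, nat_lit 0x10011210, nat_lit 1, nat_lit 4, nat_lit 0x45⟩ (.nil) (.nil)
def t14_7601 : Tr := .node ⟨nat_lit 6, nat_lit 0x800300030, nat_lit 0x32, nat_lit 0, nat_lit 4, nat_lit 0x45⟩ (.nil) (.nil)
def t14_945 : Tr := .node ⟨nat_lit 7, nat_lit 0x40001000200020, nat_lit 0x120211, nat_lit 1, nat_lit 3, nat_lit 0x48⟩ (.nil) (.nil)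
def t14_9137 : Tr := .node ⟨nat_lit 8, nat_lit 0x400080002000c0, nat_lit 0x1112010, nat_lit 0, nat_lit 3, nat_lit 0x48⟩ (.nil) (.nil)
def t14_5041 : Tr := .node ⟨nat_lit 6, nat_lit 0x3000280038, nat_lit 0x1141, nat_lit 2, nat_lit 4, nat_lit 0x46⟩ (.nil) (.nil)
def t14_13233 : Tr := .node ⟨nat_lit 7, nat_lit 0x40001000100060, nat_lit 0x101003, nat_lit 0, nat_lit 4, nat_lit 0x47⟩ (.nil) (.nil)
def t14_2993 : Tr := .node ⟨nat_lit 6, nat_lit 0x2000200010, nat_lit 0x11220, nat_lit 5, nat_lit 4, nat_lit 0x49⟩ (.nil) (.nil)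
def t14_11185 : Tr := .node ⟨nat_lit 7, nat_lit 0x6000180018, nat_lit 0x1010020, nat_lit 1, nat_lit 4, nat_lit 0x47⟩ (.nil) (.nil)
def t14_7089 : Tr := .node ⟨nat_lit 6, nat_lit 0x1000200020, nat_lit 0x211211, nat_lit 0, nat_lit 3, nat_lit 0x48⟩ (.nil) (.nil)
def t14_15281 : Tr := .node ⟨nat_lit 8, nat_lit 0x8000400020002000c0, nat_lit 0x1001002, nat_lit 1, nat_lit 4, nat_lit 0x48⟩ (.nil) (.nil)
def t14_1969 : Tr := .node ⟨nat_lit 6, nat_lit 0x1000200038, nat_lit 0x20112, nat_lit 2, nat_lit 4, nat_lit 0x47⟩ (.nil) (.nil)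
def t14_10161 : Tr := .node ⟨nat_lit 7, nat_lit 0x40001000600060, nat_lit 0x1300, nat_lit 1, nat_lit 4, nat_lit 0x46⟩ (.nil) (.nil)
def t14_6065 : Tr := .node ⟨nat_lit 8, nat_lit 0x80008000c000c8, nat_lit 0x1110120, nat_lit 1, nat_lit 4, nat_lit 0x49⟩ (.nil) (.nil)
def t14_14257 : Tr := .node ⟨nat_lit 6, nat_lit 0x2000100030, nat_lit 0x101200, nat_lit 1, nat_lit 3, nat_lit 0x46⟩ (.nil) (.nil)
def t14_4017 : Tr := .node ⟨nat_lit 6, nat_lit 0x20001000280038, nat_lit 0x101021, nat_lit 3, nat_lit 4, nat_lit 0x46⟩ (.nil) (.nil)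
def t14_12209 : Tr := .node ⟨nat_lit 6, nat_lit 0x10002000340038, nat_lit 0x11112, nat_lit 3, nat_lit 4, nat_lit 0x45⟩ (.nil) (.nil)
def t14_8113 : Tr := .node ⟨nat_lit 7, nat_lit 0x40004000200048, nat_lit 0x111003, nat_lit 1, nat_lit 4, nat_lit 0x48⟩ (.nil) (.nil)
def t9_433 : Tr := .node ⟨nat_lit 6, nat_lit 0x200030, nat_lit 0x213112, nat_lit 0, nat_lit 4, nat_lit 0x4a⟩ (.node ⟨nat_lit 7, nat_lit 0x4000400040, nat_lit 0x311210, nat_lit 1, nat_lit 4, nat_lit 0x4b⟩ (.node ⟨nat_lit 3, nat_lit 6, nat_lit 0x200, nat_lit 2, nat_lit 3, nat_lit 0x43⟩ (.node ⟨nat_lit 6, nat_lit 0x800080030, nat_lit 0x101212, nat_lit 2, nat_lit 4, nat_lit 0x48⟩ (.node ⟨nat_lit 6, nat_lit 0x800280030, nat_lit 0x20201, nat_lit 3, nat_lit 4, nat_lit 0x47⟩ (t14_433) (t14_8625)) (.node ⟨nat_lit 7, nat_lit 0x40004800600030, nat_lit 0x1120032, nat_lit 0, nat_lit 4, nat_lit 0x48⟩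 (t14_4529) (t14_12721))) (.node ⟨nat_lit 4, nat_lit 0x80004, nat_lit 0x201, nat_lit 8, nat_lit 3, nat_lit 0x46⟩ (.node ⟨nat_lit 8, nat_lit 0x8000800040002000c0, nat_lit 0x1110113, nat_lit 0, nat_lit 4, nat_lit 0x49⟩ (t14_2481) (t14_10673)) (.node ⟨nat_lit 6, nat_lit 0x2000240030, nat_lit 0x12221, nat_lit 4, nat_lit 4, nat_lit 0x48⟩ (t14_6577) (t14_14769)))) (.node ⟨nat_lit 5, nat_lit 0x140018, nat_lit 0x1211, nat_lit 3, nat_lit 4, nat_lit 0x46⟩ (.node ⟨nat_lit 6, nat_lit 0x2000280030, nat_lit 0x11112, nat_lit 1, nat_lit 3, nat_lit 0x45⟩ (.node ⟨nat_lit 9, nat_lit 0x400100002000200180, nat_lit 0x10000003, nat_lit 1, nat_lit 4, nat_lit 0x49⟩ (t14_1457) (t14_9649)) (.node ⟨nat_lit 6, nat_lit 0x20002000100028, nat_lit 0x112201, nat_lit 5, nat_lit 4, nat_lit 0x49⟩ (t14_5553) (t14_13745))) (.node ⟨nat_lit 7, nat_lit 0x4000400040, nat_lit 0x111210, nat_lit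 1, nat_lit 4, nat_lit 0x4a⟩ (.node ⟨nat_lit 5, nat_lit 0x140018, nat_lit 0x1000, nat_lit 5, nat_lit 4, nat_lit 0x45⟩ (t14_3505) (t14_11697)) (.node ⟨nat_lit 7, nat_lit 0x20004000440030, nat_lit 0x1111201, nat_lit 0, nat_lit 4, nat_lit 0x48⟩ (t14_7601) (.nil))))) (.node ⟨nat_lit 4, nat_lit 0xc, nat_lit 0x2011, nat_lit 2, nat_lit 3, nat_lit 0x45⟩ (.node ⟨nat_lit 5, nat_lit 0x100008, nat_lit 0x2221, nat_lit 2, nat_lit 4, nat_lit 0x48⟩ (.node ⟨nat_lit 7, nat_lit 0x10004000200060, nat_lit 0x1100112, nat_lit 1, nat_lit 4, nat_lit 0x48⟩ (.node ⟨nat_lit 4, nat_lit 8, nat_lit 0x1114, nat_lit 9, nat_lit 4, nat_lit 0x49⟩ (t14_945) (t14_9137)) (.node ⟨nat_lit 7, nat_lit 0x40, nat_lit 0x1222110, nat_lit 0, nat_lit 4, nat_lit 0x4d⟩ (t14_5041) (t14_13233))) (.node ⟨nat_lit 3, nat_lit 6, nat_lit 0x222, nat_lit 8, nat_lit 4, nat_lit 0x47⟩ (.node ⟨nat_lit 7, nat_lit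 0x1000200040, nat_lit 0x1111201, nat_lit 1, nat_lit 4, nat_lit 0x4a⟩ (t14_2993) (t14_11185)) (.node ⟨nat_lit 7, nat_lit 0x40001000100060, nat_lit 0x110112, nat_lit 0, nat_lit 4, nat_lit 0x48⟩ (t14_7089) (t14_15281)))) (.node ⟨nat_lit 5, nat_lit 0x10001a, nat_lit 0x12110, nat_lit 3, nat_lit 4, nat_lit 0x47⟩ (.node ⟨nat_lit 7, nat_lit 0x10001000400060, nat_lit 0x212101, nat_lit 1, nat_lit 4, nat_lit 0x49⟩ (.node ⟨nat_lit 6, nat_lit 0x1000200038, nat_lit 0x110113, nat_lit 3, nat_lit 4, nat_lit 0x47⟩ (t14_1969) (t14_10161)) (.node ⟨nat_lit 8, nat_lit 0x200020004000a000c0, nat_lit 0x1020002, nat_lit 1, nat_lit 4, nat_lit 0x48⟩ (t14_6065) (t14_14257))) (.node ⟨nat_lit 9, nat_lit 0x400040002000200180, nat_lit 0x200010102, nat_lit 2, nat_lit 4, nat_lit 0x4a⟩ (.node ⟨nat_lit 7, nat_lit 0x1000500060, nat_lit 0x100002, nat_lit 1, nat_lit 4, nat_lit 0x47⟩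 (t14_4017) (t14_12209)) (.node ⟨nat_lit 8, nat_lit 0x80008000400040009000a0, nat_lit 0x1112111, nat_lit 0, nat_lit 4, nat_lit 0x48⟩ (t14_8113) (.nil)))))
def t14_113 : Tr := .node ⟨nat_lit 7, nat_lit 0x40001000100060, nat_lit 0x221111, nat_lit 0, nat_lit 4, nat_lit 0x49⟩ (.nil) (.nil)
def t14_8305 : Tr := .node ⟨nat_lit 6, nat_lit 0x2000280034, nat_lit 0x10203, nat_lit 6, nat_lit 4, nat_lit 0x47⟩ (.nil) (.nil)
def t14_4209 : Tr := .node ⟨nat_lit 9, nat_lit 0x10001000100004000800120, nat_lit 0x11111110, nat_lit 1, nat_lit 4, nat_lit 0x4a⟩ (.nil) (.nil)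
def t14_12401 : Tr := .node ⟨nat_lit 7, nat_lit 0x2000480070, nat_lit 0x10113, nat_lit 0, nat_lit 4, nat_lit 0x46⟩ (.nil) (.nil)
def t14_2161 : Tr := .node ⟨nat_lit 6, nat_lit 0x20001000280030, nat_lit 0x2220, nat_lit 2, nat_lit 4, nat_lit 0x46⟩ (.nil) (.nil)
def t14_10353 : Tr := .node ⟨nat_lit 7, nat_lit 0x200040003000480068, nat_lit 0x1020000, nat_lit 0, nat_lit 4, nat_lit 0x45⟩ (.nil) (.nil)
def t14_6257 : Tr := .node ⟨nat_lit 5, nat_lit 0x100010, nat_lit 0x11111, nat_lit 7, nat_lit 4, nat_lit 0x49⟩ (.nil) (.nil)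
def t14_14449 : Tr := .node ⟨nat_lit 7, nat_lit 0x4000500060, nat_lit 0x1120, nat_lit 5, nat_lit 4, nat_lit 0x48⟩ (.nil) (.nil)
def t14_1137 : Tr := .node ⟨nat_lit 6, nat_lit 0x1000200034, nat_lit 0x101201, nat_lit 3, nat_lit 4, nat_lit 0x47⟩ (.nil) (.nil)
def t14_9329 : Tr := .node ⟨nat_lit 9, nat_lit 0x400080012001400180, nat_lit 0x100122, nat_lit 0, nat_lit 4, nat_lit 0x48⟩ (.nil) (.nil)
def t14_5233 : Tr := .node ⟨nat_lit 7, nat_lit 0x10001000500060, nat_lit 0x201012, nat_lit 0, nat_lit 3, nat_lit 0x46⟩ (.nil) (.nil)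
def t14_13425 : Tr := .node ⟨nat_lit 6, nat_lit 0x10001000200022, nat_lit 0x3040, nat_lit 0, nat_lit 4, nat_lit 0x47⟩ (.nil) (.nil)
def t14_3185 : Tr := .node ⟨nat_lit 6, nat_lit 0x10002000200030, nat_lit 0x101101, nat_lit 0, nat_lit 3, nat_lit 0x45⟩ (.nil) (.nil)
def t14_11377 : Tr := .node ⟨nat_lit 6, nat_lit 0x2000080030, nat_lit 0x1110, nat_lit 4, nat_lit 3, nat_lit 0x46⟩ (.nil) (.nil)
def t14_7281 : Tr := .node ⟨nat_lit 8, nat_lit 0x80008000c00030, nat_lit 0x202001, nat_lit 1, nat_lit 4, nat_lit 0x49⟩ (.nil) (.nil)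
def t14_15473 : Tr := .node ⟨nat_lit 0xc, nat_lit 0x800040002000100, nat_lit 0x11110000, nat_lit 0, nat_lit 4, nat_lit 0x4f⟩ (.nil) (.nil)
def t14_625 : Tr := .node ⟨nat_lit 7, nat_lit 0x400040002000200064, nat_lit 0x11222, nat_lit 0, nat_lit 4, nat_lit 0x47⟩ (.nil) (.nil)
def t14_8817 : Tr := .node ⟨nat_lit 6, nat_lit 0x2000100024, nat_lit 0x112204, nat_lit 0, nat_lit 4, nat_lit 0x49⟩ (.nil) (.nil)
def t14_4721 : Tr := .node ⟨nat_lit 7, nat_lit 0x10002000500064, nat_lit 0x110220, nat_lit 0, nat_lit 4, nat_lit 0x47⟩ (.nil) (.nil)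
def t14_12913 : Tr := .node ⟨nat_lit 8, nat_lit 0x8000800040004800a000e0, nat_lit 0x10022000, nat_lit 1, nat_lit 4, nat_lit 0x47⟩ (.nil) (.nil)
def t14_2673 : Tr := .node ⟨nat_lit 6, nat_lit 0x800300030, nat_lit 0x1030, nat_lit 3, nat_lit 4, nat_lit 0x46⟩ (.nil) (.nil)
def t14_10865 : Tr := .node ⟨nat_lit 7, nat_lit 0x400050005000600070, nat_lit 0x101032, nat_lit 3, nat_lit 4, nat_lit 0x46⟩ (.nil) (.nil)
def t14_6769 : Tr := .node ⟨nat_lit 6, nat_lit 0x300030, nat_lit 0x1100, nat_lit 5, nat_lit 4, nat_lit 0x47⟩ (.nil) (.nil)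
def t14_14961 : Tr := .node ⟨nat_lit 8, nat_lit 0x8000800040004000a000c0, nat_lit 0x1102, nat_lit 1, nat_lit 4, nat_lit 0x47⟩ (.nil) (.nil)
def t14_1649 : Tr := .node ⟨nat_lit 9, nat_lit 0x100010000800110018001a0, nat_lit 0x1011120, nat_lit 1, nat_lit 4, nat_lit 0x48⟩ (.nil) (.nil)
def t14_9841 : Tr := .node ⟨nat_lit 7, nat_lit 0x4000400060, nat_lit 0x100212, nat_lit 0, nat_lit 3, nat_lit 0x47⟩ (.nil) (.nil)
def t14_5745 : Tr := .node ⟨nat_lit 9, nat_lit 0x100008001400180, nat_lit 0x112002, nat_lit 1, nat_lit 4, nat_lit 0x4a⟩ (.nil) (.nil)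
def t14_13937 : Tr := .node ⟨nat_lit 8, nat_lit 0x800080004000440090, nat_lit 0x110000, nat_lit 0, nat_lit 4, nat_lit 0x47⟩ (.nil) (.nil)
def t14_3697 : Tr := .node ⟨nat_lit 6, nat_lit 0x300038, nat_lit 0x100213, nat_lit 2, nat_lit 4, nat_lit 0x47⟩ (.nil) (.nil)
def t14_11889 : Tr := .node ⟨nat_lit 6, nat_lit 0x8000c0030, nat_lit 0x303, nat_lit 0, nat_lit 4, nat_lit 0x46⟩ (.nil) (.nil)
def t14_7793 : Tr := .node ⟨nat_lit 7, nat_lit 0x40004000100060, nat_lit 0x1120, nat_lit 1, nat_lit 4, nat_lit 0x47⟩ (.nil) (.nil)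
def t9_113 : Tr := .node ⟨nat_lit 5, nat_lit 0x80010, nat_lit 0x11112, nat_lit 0, nat_lit 3, nat_lit 0x46⟩ (.node ⟨nat_lit 6, nat_lit 0x2000200010, nat_lit 0x13103, nat_lit 0, nat_lit 4, nat_lit 0x49⟩ (.node ⟨nat_lit 7, nat_lit 0x5000500060, nat_lit 0x103102, nat_lit 1, nat_lit 4, nat_lit 0x48⟩ (.node ⟨nat_lit 7, nat_lit 0x40004000100060, nat_lit 0x112011, nat_lit 1, nat_lit 4, nat_lit 0x48⟩ (.node ⟨nat_lit 5, nat_lit 0x40018, nat_lit 0x21112, nat_lit 6, nat_lit 3, nat_lit 0x47⟩ (t14_113) (t14_8305)) (.node ⟨nat_lit 5, nat_lit 0x18, nat_lit 0x20000, nat_lit 0, nat_lit 4, nat_lit 0x45⟩ (t14_4209) (t14_12401))) (.node ⟨nat_lit 7, nat_lit 0x1000400060, nat_lit 0x1201011, nat_lit 0, nat_lit 4, nat_lit 0x49⟩ (.node ⟨nat_lit 7, nat_lit 0x1000500060, nat_lit 0x1102013, nat_lit 0, nat_lit 3, nat_lit 0x47⟩ (t14_2161) (t14_10353)) (.node ⟨nat_lit 6, nat_lit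 0x2000200010, nat_lit 0x12221, nat_lit 2, nat_lit 4, nat_lit 0x49⟩ (t14_6257) (t14_14449)))) (.node ⟨nat_lit 6, nat_lit 0x200010, nat_lit 0x12202, nat_lit 0, nat_lit 3, nat_lit 0x48⟩ (.node ⟨nat_lit 4, nat_lit 0xc, nat_lit 0x2231, nat_lit 3, nat_lit 4, nat_lit 0x49⟩ (.node ⟨nat_lit 7, nat_lit 0x40001000200060, nat_lit 0x1011301, nat_lit 0, nat_lit 4, nat_lit 0x48⟩ (t14_1137) (t14_9329)) (.node ⟨nat_lit 6, nat_lit 0x380038, nat_lit 0x111221, nat_lit 1, nat_lit 4, nat_lit 0x47⟩ (t14_5233) (t14_13425))) (.node ⟨nat_lit 6, nat_lit 0x80030, nat_lit 0x211200, nat_lit 0, nat_lit 4, nat_lit 0x49⟩ (.node ⟨nat_lit 6, nat_lit 0x1000200030, nat_lit 0x12310, nat_lit 3, nat_lit 4, nat_lit 0x49⟩ (t14_3185) (t14_11377)) (.node ⟨nat_lit 6, nat_lit 0x800200030, nat_lit 0x110012, nat_lit 5, nat_lit 4, nat_lit 0x48⟩ (t14_7281) (t14_15473))))) (.node ⟨nat_lit 5, nat_lit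 0x100008, nat_lit 0x3112, nat_lit 0, nat_lit 4, nat_lit 0x48⟩ (.node ⟨nat_lit 7, nat_lit 0x20001000500068, nat_lit 0x202012, nat_lit 0, nat_lit 4, nat_lit 0x47⟩ (.node ⟨nat_lit 6, nat_lit 0x20001000100028, nat_lit 0x201110, nat_lit 2, nat_lit 4, nat_lit 0x47⟩ (.node ⟨nat_lit 5, nat_lit 0x1000100008, nat_lit 0x12210, nat_lit 7, nat_lit 4, nat_lit 0x49⟩ (t14_625) (t14_8817)) (.node ⟨nat_lit 8, nat_lit 0x20004000800080, nat_lit 0x11110120, nat_lit 1, nat_lit 4, nat_lit 0x4b⟩ (t14_4721) (t14_12913))) (.node ⟨nat_lit 5, nat_lit 0x800100018, nat_lit 0x10212, nat_lit 3, nat_lit 4, nat_lit 0x46⟩ (.node ⟨nat_lit 5, nat_lit 0x40018, nat_lit 0x22204, nat_lit 0, nat_lit 4, nat_lit 0x49⟩ (t14_2673) (t14_10865)) (.node ⟨nat_lit 6, nat_lit 0x2000300028, nat_lit 0x1102, nat_lit 2, nat_lit 4, nat_lit 0x46⟩ (t14_6769) (t14_14961)))) (.node ⟨nat_lit 5, nat_lit 0x40018,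 nat_lit 0x20213, nat_lit 0, nat_lit 4, nat_lit 0x47⟩ (.node ⟨nat_lit 7, nat_lit 0x40002000500068, nat_lit 0x121111, nat_lit 0, nat_lit 4, nat_lit 0x47⟩ (.node ⟨nat_lit 4, nat_lit 0x80004, nat_lit 0x10, nat_lit 3, nat_lit 4, nat_lit 0x43⟩ (t14_1649) (t14_9841)) (.node ⟨nat_lit 6, nat_lit 0x10001000200022, nat_lit 0x202020, nat_lit 3, nat_lit 4, nat_lit 0x48⟩ (t14_5745) (t14_13937))) (.node ⟨nat_lit 7, nat_lit 0x400040004000200050, nat_lit 0x102010, nat_lit 4, nat_lit 4, nat_lit 0x48⟩ (.node ⟨nat_lit 6, nat_lit 0x2000080030, nat_lit 0x12010, nat_lit 0, nat_lit 4, nat_lit 0x47⟩ (t14_3697) (t14_11889)) (.node ⟨nat_lit 6, nat_lit 0x800300030, nat_lit 0x110021, nat_lit 3, nat_lit 4, nat_lit 0x47⟩ (t14_7793) (.nil)))))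
def t14_369 : Tr := .node ⟨nat_lit 8, nat_lit 0x40008000c0, nat_lit 0x1211101, nat_lit 1, nat_lit 4, nat_lit 0x4b⟩ (.nil) (.nil)
def t14_8561 : Tr := .node ⟨nat_lit 8, nat_lit 0x40008000900060006000c0, nat_lit 0x100220, nat_lit 0, nat_lit 4, nat_lit 0x46⟩ (.nil) (.nil)
def t14_4465 : Tr := .node ⟨nat_lit 8, nat_lit 0x800080004000900090, nat_lit 0x11111011, nat_lit 2, nat_lit 4, nat_lit 0x4a⟩ (.nil) (.nil)
def t14_12657 : Tr := .node ⟨nat_lit 5, nat_lit 0x1000100018, nat_lit 0x310, nat_lit 0xc, nat_lit 4, nat_lit 0x48⟩ (.nil) (.nil)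
def t14_2417 : Tr := .node ⟨nat_lit 8, nat_lit 0x6000a000c000c0, nat_lit 0x112210, nat_lit 0, nat_lit 4, nat_lit 0x47⟩ (.nil) (.nil)
def t14_10609 : Tr := .node ⟨nat_lit 7, nat_lit 0x10001000500060, nat_lit 0x101020, nat_lit 2, nat_lit 4, nat_lit 0x47⟩ (.nil) (.nil)
def t14_6513 : Tr := .node ⟨nat_lit 7, nat_lit 0x40001000480068, nat_lit 0x1112101, nat_lit 0, nat_lit 4, nat_lit 0x48⟩ (.nil) (.nil)
def t14_14705 : Tr := .node ⟨nat_lit 9, nat_lit 0x100010000800090012001a001c0, nat_lit 0x2011011, nat_lit 1, nat_lit 4, nat_lit 0x46⟩ (.nil) (.nil)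
def t14_1393 : Tr := .node ⟨nat_lit 8, nat_lit 0x8000900060006000e0, nat_lit 0x10010103, nat_lit 1, nat_lit 4, nat_lit 0x46⟩ (.nil) (.nil)
def t14_9585 : Tr := .node ⟨nat_lit 8, nat_lit 0x4000800080009000c000d0, nat_lit 0x310020, nat_lit 1, nat_lit 4, nat_lit 0x47⟩ (.nil) (.nil)
def t14_5489 : Tr := .node ⟨nat_lit 2, nat_lit 0, nat_lit 0x52, nat_lit 3, nat_lit 3, nat_lit 0x47⟩ (.nil) (.nil)
def t14_13681 : Tr := .node ⟨nat_lit 5, nat_lit 0x80010001a, nat_lit 0x20002, nat_lit 6, nat_lit 4, nat_lit 0x46⟩ (.nil) (.nil)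
def t14_3441 : Tr := .node ⟨nat_lit 7, nat_lit 0x800500060, nat_lit 0x112010, nat_lit 0, nat_lit 4, nat_lit 0x48⟩ (.nil) (.nil)
def t14_11633 : Tr := .node ⟨nat_lit 7, nat_lit 0x30005000500060, nat_lit 0x4101, nat_lit 0, nat_lit 4, nat_lit 0x45⟩ (.nil) (.nil)
def t14_7537 : Tr := .node ⟨nat_lit 5, nat_lit 0x100018001c, nat_lit 0x230, nat_lit 5, nat_lit 4, nat_lit 0x45⟩ (.nil) (.nil)
def t14_881 : Tr := .node ⟨nat_lit 8, nat_lit 0x800080002000c0, nat_lit 0x1112210, nat_lit 0, nat_lit 4, nat_lit 0x4a⟩ (.nil) (.nil)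
def t14_9073 : Tr := .node ⟨nat_lit 7, nat_lit 0x10005000500060, nat_lit 0x102212, nat_lit 1, nat_lit 4, nat_lit 0x47⟩ (.nil) (.nil)
def t14_4977 : Tr := .node ⟨nat_lit 7, nat_lit 0x40002000600050, nat_lit 0x113101, nat_lit 1, nat_lit 4, nat_lit 0x48⟩ (.nil) (.nil)
def t14_13169 : Tr := .node ⟨nat_lit 7, nat_lit 0x10004000600064, nat_lit 0x130, nat_lit 2, nat_lit 4, nat_lit 0x46⟩ (.nil) (.nil)
def t14_2929 : Tr := .node ⟨nat_lit 6, nat_lit 0x1000200038, nat_lit 0x1310, nat_lit 0, nat_lit 4, nat_lit 0x46⟩ (.nil) (.nil)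
def t14_11121 : Tr := .node ⟨nat_lit 5, nat_lit 0x100010, nat_lit 0x1120, nat_lit 9, nat_lit 3, nat_lit 0x47⟩ (.nil) (.nil)
def t14_7025 : Tr := .node ⟨nat_lit 6, nat_lit 0x2000280030, nat_lit 0x110211, nat_lit 5, nat_lit 4, nat_lit 0x48⟩ (.nil) (.nil)
def t14_15217 : Tr := .node ⟨nat_lit 8, nat_lit 0x800040009000b000d0, nat_lit 0x110021, nat_lit 1, nat_lit 4, nat_lit 0x46⟩ (.nil) (.nil)
def t14_1905 : Tr := .node ⟨nat_lit 5, nat_lit 0x1000140018, nat_lit 0x20002, nat_lit 4, nat_lit 4, nat_lit 0x46⟩ (.nil) (.nil)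
def t14_10097 : Tr := .node ⟨nat_lit 7, nat_lit 0x10002000400060, nat_lit 0x220, nat_lit 2, nat_lit 4, nat_lit 0x47⟩ (.nil) (.nil)
def t14_6001 : Tr := .node ⟨nat_lit 7, nat_lit 0x2000500060, nat_lit 0x1022002, nat_lit 0, nat_lit 4, nat_lit 0x49⟩ (.nil) (.nil)
def t14_14193 : Tr := .node ⟨nat_lit 5, nat_lit 0x140018, nat_lit 0x120, nat_lit 9, nat_lit 4, nat_lit 0x47⟩ (.nil) (.nil)
def t14_3953 : Tr := .node ⟨nat_lit 7, nat_lit 0x200020004000400064, nat_lit 0x1030201, nat_lit 3, nat_lit 4, nat_lit 0x48⟩ (.nil) (.nil)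
def t14_12145 : Tr := .node ⟨nat_lit 8, nat_lit 0x8000c000a0, nat_lit 0x111310, nat_lit 0, nat_lit 4, nat_lit 0x4a⟩ (.nil) (.nil)
def t14_8049 : Tr := .node ⟨nat_lit 4, nat_lit 0x8000e, nat_lit 0x213, nat_lit 6, nat_lit 4, nat_lit 0x45⟩ (.nil) (.nil)
def t9_369 : Tr := .node ⟨nat_lit 5, nat_lit 0x10, nat_lit 0x13321, nat_lit 0, nat_lit 4, nat_lit 0x4b⟩ (.node ⟨nat_lit 4, nat_lit 8, nat_lit 0x313, nat_lit 0, nat_lit 3, nat_lit 0x46⟩ (.node ⟨nat_lit 4, nat_lit 0, nat_lit 0x2211, nat_lit 2, nat_lit 4, nat_lit 0x48⟩ (.node ⟨nat_lit 6, nat_lit 0x2000200010, nat_lit 0x111212, nat_lit 1, nat_lit 4, nat_lit 0x49⟩ (.node ⟨nat_lit 5, nat_lit 0x1000100008, nat_lit 0x2321, nat_lit 2, nat_lit 3, nat_lit 0x46⟩ (t14_369) (t14_8561)) (.node ⟨nat_lit 7, nat_lit 0x400040004800700070, nat_lit 0x1102111, nat_lit 1, nat_lit 4, nat_lit 0x47⟩ (t14_4465) (t14_12657)))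 (.node ⟨nat_lit 6, nat_lit 0x800080030, nat_lit 0x210101, nat_lit 4, nat_lit 4, nat_lit 0x48⟩ (.node ⟨nat_lit 6, nat_lit 0x1000080020, nat_lit 0x1110, nat_lit 3, nat_lit 4, nat_lit 0x47⟩ (t14_2417) (t14_10609)) (.node ⟨nat_lit 7, nat_lit 0x2000400040, nat_lit 0x21200, nat_lit 1, nat_lit 4, nat_lit 0x49⟩ (t14_6513) (t14_14705)))) (.node ⟨nat_lit 6, nat_lit 0x2000080030, nat_lit 0x21032, nat_lit 1, nat_lit 4, nat_lit 0x48⟩ (.node ⟨nat_lit 6, nat_lit 0x80030, nat_lit 0x212210, nat_lit 1, nat_lit 4, nat_lit 0x4a⟩ (.node ⟨nat_lit 4, nat_lit 0xc, nat_lit 0x1014, nat_lit 4, nat_lit 4, nat_lit 0x46⟩ (t14_1393) (t14_9585)) (.node ⟨nat_lit 6, nat_lit 0x2000200030, nat_lit 0x21301, nat_lit 2, nat_lit 3, nat_lit 0x47⟩ (t14_5489) (t14_13681))) (.node ⟨nat_lit 6, nat_lit 0x800080030, nat_lit 0x301112, nat_lit 4, nat_lit 4, nat_lit 0x49⟩ (.node ⟨nat_lit 7, nat_lit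 0x10004000640064, nat_lit 0x2000000, nat_lit 1, nat_lit 4, nat_lit 0x46⟩ (t14_3441) (t14_11633)) (.node ⟨nat_lit 8, nat_lit 0x400020008000800084, nat_lit 0x101101, nat_lit 1, nat_lit 4, nat_lit 0x48⟩ (t14_7537) (.nil))))) (.node ⟨nat_lit 5, nat_lit 0x1000100008, nat_lit 0x21311, nat_lit 0, nat_lit 3, nat_lit 0x47⟩ (.node ⟨nat_lit 5, nat_lit 0x140018, nat_lit 0x2211, nat_lit 5, nat_lit 4, nat_lit 0x47⟩ (.node ⟨nat_lit 6, nat_lit 0x800100020, nat_lit 0x111121, nat_lit 0, nat_lit 4, nat_lit 0x48⟩ (.node ⟨nat_lit 6, nat_lit 0x1000080020, nat_lit 0x202200, nat_lit 0, nat_lit 4, nat_lit 0x48⟩ (t14_881) (t14_9073)) (.node ⟨nat_lit 6, nat_lit 0x200030, nat_lit 0x122220, nat_lit 0, nat_lit 4, nat_lit 0x4a⟩ (t14_4977) (t14_13169))) (.node ⟨nat_lit 6, nat_lit 0x800200030, nat_lit 0x120013, nat_lit 0, nat_lit 4, nat_lit 0x48⟩ (.node ⟨nat_lit 6, nat_lit 0x200022,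 nat_lit 0x111121, nat_lit 5, nat_lit 4, nat_lit 0x4a⟩ (t14_2929) (t14_11121)) (.node ⟨nat_lit 7, nat_lit 0x200040003000480070, nat_lit 0x121011, nat_lit 1, nat_lit 4, nat_lit 0x46⟩ (t14_7025) (t14_15217)))) (.node ⟨nat_lit 5, nat_lit 0x80010, nat_lit 0x10221, nat_lit 2, nat_lit 4, nat_lit 0x47⟩ (.node ⟨nat_lit 6, nat_lit 0x2000080030, nat_lit 0x121021, nat_lit 0, nat_lit 4, nat_lit 0x48⟩ (.node ⟨nat_lit 7, nat_lit 0x1000600070, nat_lit 0x1011113, nat_lit 2, nat_lit 4, nat_lit 0x48⟩ (t14_1905) (t14_10097)) (.node ⟨nat_lit 6, nat_lit 0x800280030, nat_lit 0x11020, nat_lit 1, nat_lit 4, nat_lit 0x46⟩ (t14_6001) (t14_14193))) (.node ⟨nat_lit 6, nat_lit 0x1000200032, nat_lit 0x1002, nat_lit 0, nat_lit 4, nat_lit 0x44⟩ (.node ⟨nat_lit 6, nat_lit 0x800300028, nat_lit 0x101303, nat_lit 2, nat_lit 4, nat_lit 0x48⟩ (t14_3953) (t14_12145)) (.node ⟨nat_lit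 8, nat_lit 0x8000c0, nat_lit 0x10111121, nat_lit 1, nat_lit 4, nat_lit 0x4c⟩ (t14_8049) (.nil)))))
def t14_241 : Tr := .node ⟨nat_lit 7, nat_lit 0x4000600064, nat_lit 0x121311, nat_lit 0, nat_lit 4, nat_lit 0x49⟩ (.nil) (.nil)
def t14_8433 : Tr := .node ⟨nat_lit 7, nat_lit 0x6000500050, nat_lit 0x1021, nat_lit 0, nat_lit 4, nat_lit 0x46⟩ (.nil) (.nil)
def t14_4337 : Tr := .node ⟨nat_lit 6, nat_lit 0x1000280030, nat_lit 0x211201, nat_lit 1, nat_lit 4, nat_lit 0x48⟩ (.nil) (.nil)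
def t14_12529 : Tr := .node ⟨nat_lit 7, nat_lit 0x40002000500064, nat_lit 0x100101, nat_lit 1, nat_lit 4, nat_lit 0x46⟩ (.nil) (.nil)
def t14_2289 : Tr := .node ⟨nat_lit 5, nat_lit 0x1000100008, nat_lit 0x22110, nat_lit 1, nat_lit 3, nat_lit 0x47⟩ (.nil) (.nil)
def t14_10481 : Tr := .node ⟨nat_lit 8, nat_lit 0x800040004000a000d000c8, nat_lit 0x1111220, nat_lit 0, nat_lit 4, nat_lit 0x46⟩ (.nil) (.nil)
def t14_6385 : Tr := .node ⟨nat_lit 6, nat_lit 0x20001000100010, nat_lit 0x210, nat_lit 7, nat_lit 4, nat_lit 0x48⟩ (.nil) (.nil)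
def t14_14577 : Tr := .node ⟨nat_lit 6, nat_lit 0x200020, nat_lit 0x11131, nat_lit 2, nat_lit 3, nat_lit 0x48⟩ (.nil) (.nil)
def t14_1265 : Tr := .node ⟨nat_lit 7, nat_lit 0x200040003000480070, nat_lit 0x113102, nat_lit 0, nat_lit 4, nat_lit 0x46⟩ (.nil) (.nil)
def t14_9457 : Tr := .node ⟨nat_lit 9, nat_lit 0x80008001000110011000c00180, nat_lit 0x101110002, nat_lit 1, nat_lit 4, nat_lit 0x48⟩ (.nil) (.nil)
def t14_5361 : Tr := .node ⟨nat_lit 8, nat_lit 0x20008000c0, nat_lit 0x11011030, nat_lit 0, nat_lit 4, nat_lit 0x4b⟩ (.nil) (.nil)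
def t14_13553 : Tr := .node ⟨nat_lit 7, nat_lit 0x4000100060, nat_lit 0x10100, nat_lit 0, nat_lit 4, nat_lit 0x47⟩ (.nil) (.nil)
def t14_3313 : Tr := .node ⟨nat_lit 6, nat_lit 0x10002000240030, nat_lit 0x2201, nat_lit 3, nat_lit 4, nat_lit 0x46⟩ (.nil) (.nil)
def t14_11505 : Tr := .node ⟨nat_lit 7, nat_lit 0x40001000600068, nat_lit 0x100110, nat_lit 2, nat_lit 4, nat_lit 0x46⟩ (.nil) (.nil)
def t14_7409 : Tr := .node ⟨nat_lit 9, nat_lit 0x1000080008000400040, nat_lit 0x1200011, nat_lit 1, nat_lit 4, nat_lit 0x4b⟩ (.nil) (.nil)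
def t14_753 : Tr := .node ⟨nat_lit 6, nat_lit 0x2000240018, nat_lit 0x100203, nat_lit 0, nat_lit 4, nat_lit 0x46⟩ (.nil) (.nil)
def t14_8945 : Tr := .node ⟨nat_lit 8, nat_lit 0x80002000c000e0, nat_lit 0x11003, nat_lit 0, nat_lit 4, nat_lit 0x47⟩ (.nil) (.nil)
def t14_4849 : Tr := .node ⟨nat_lit 7, nat_lit 0x40004000100060, nat_lit 0x210011, nat_lit 0, nat_lit 4, nat_lit 0x48⟩ (.nil) (.nil)
def t14_13041 : Tr := .node ⟨nat_lit 7, nat_lit 0x400020002000500068, nat_lit 0x21000, nat_lit 6, nat_lit 4, nat_lit 0x47⟩ (.nil) (.nil)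
def t14_2801 : Tr := .node ⟨nat_lit 7, nat_lit 0x40002000200048, nat_lit 0x112100, nat_lit 0, nat_lit 4, nat_lit 0x48⟩ (.nil) (.nil)
def t14_10993 : Tr := .node ⟨nat_lit 8, nat_lit 0x8000400040009000e0, nat_lit 0x10112002, nat_lit 1, nat_lit 4, nat_lit 0x48⟩ (.nil) (.nil)
def t14_6897 : Tr := .node ⟨nat_lit 9, nat_lit 0x10000800040, nat_lit 0x111000, nat_lit 3, nat_lit 4, nat_lit 0x4c⟩ (.nil) (.nil)
def t14_15089 : Tr := .node ⟨nat_lit 8, nat_lit 0x8000400040004000d000d0, nat_lit 0x11011, nat_lit 3, nat_lit 4, nat_lit 0x47⟩ (.nil) (.nil)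
def t14_1777 : Tr := .node ⟨nat_lit 8, nat_lit 0x1000c000a0, nat_lit 0x10201012, nat_lit 0, nat_lit 4, nat_lit 0x4a⟩ (.nil) (.nil)
def t14_9969 : Tr := .node ⟨nat_lit 7, nat_lit 0x10006000600060, nat_lit 0x11320, nat_lit 2, nat_lit 4, nat_lit 0x47⟩ (.nil) (.nil)
def t14_5873 : Tr := .node ⟨nat_lit 8, nat_lit 0x8000c0, nat_lit 0x111121, nat_lit 0, nat_lit 4, nat_lit 0x4b⟩ (.nil) (.nil)
def t14_14065 : Tr := .node ⟨nat_lit 7, nat_lit 0x100060, nat_lit 0x11110, nat_lit 0, nat_lit 4, nat_lit 0x49⟩ (.nil) (.nil)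
def t14_3825 : Tr := .node ⟨nat_lit 7, nat_lit 0x200040004000300048, nat_lit 0x102101, nat_lit 1, nat_lit 4, nat_lit 0x47⟩ (.nil) (.nil)
def t14_12017 : Tr := .node ⟨nat_lit 7, nat_lit 0x4000400060, nat_lit 0x211210, nat_lit 0, nat_lit 4, nat_lit 0x4a⟩ (.nil) (.nil)
def t14_7921 : Tr := .node ⟨nat_lit 5, nat_lit 0x1000100014, nat_lit 0x2222, nat_lit 5, nat_lit 4, nat_lit 0x48⟩ (.nil) (.nil)
def t9_241 : Tr := .node ⟨nat_lit 6, nat_lit 0x2000080030, nat_lit 0x31220, nat_lit 0, nat_lit 4, nat_lit 0x48⟩ (.node ⟨nat_lit 7, nat_lit 0x20004000100044, nat_lit 0x3000102, nat_lit 1, nat_lit 4, nat_lit 0x49⟩ (.node ⟨nat_lit 7, nat_lit 0x40004000400020, nat_lit 0x131101, nat_lit 3, nat_lit 4, nat_lit 0x4a⟩ (.node ⟨nat_lit 4, nat_lit 0xc, nat_lit 0x1123, nat_lit 4, nat_lit 4, nat_lit 0x47⟩ (.node ⟨nat_lit 7, nat_lit 0x40, nat_lit 0x2111112, nat_lit 2, nat_lit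 4, nat_lit 0x4d⟩ (t14_241) (t14_8433)) (.node ⟨nat_lit 7, nat_lit 0x40003000580068, nat_lit 0x111032, nat_lit 0, nat_lit 4, nat_lit 0x45⟩ (t14_4337) (t14_12529))) (.node ⟨nat_lit 7, nat_lit 0x4000400020, nat_lit 0x1211202, nat_lit 0, nat_lit 4, nat_lit 0x4b⟩ (.node ⟨nat_lit 6, nat_lit 0x800280030, nat_lit 0x110332, nat_lit 0, nat_lit 4, nat_lit 0x47⟩ (t14_2289) (t14_10481)) (.node ⟨nat_lit 7, nat_lit 0x1000400060, nat_lit 0x1102020, nat_lit 3, nat_lit 4, nat_lit 0x4a⟩ (t14_6385) (t14_14577)))) (.node ⟨nat_lit 3, nat_lit 4, nat_lit 0x20, nat_lit 0x11, nat_lit 4, nat_lit 0x48⟩ (.node ⟨nat_lit 8, nat_lit 0x20002000c0, nat_lit 0x21011101, nat_lit 1, nat_lit 4, nat_lit 0x4b⟩ (.node ⟨nat_lit 6, nat_lit 0x2000080030, nat_lit 0x11100, nat_lit 1, nat_lit 4, nat_lit 0x46⟩ (t14_1265) (t14_9457)) (.node ⟨nat_lit 5, nat_lit 0x100018001c, nat_lit 0x11221, nat_lit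 7, nat_lit 4, nat_lit 0x47⟩ (t14_5361) (t14_13553))) (.node ⟨nat_lit 7, nat_lit 0x1000600050, nat_lit 0x1002003, nat_lit 1, nat_lit 4, nat_lit 0x48⟩ (.node ⟨nat_lit 7, nat_lit 0x2000400060, nat_lit 0x1111103, nat_lit 2, nat_lit 4, nat_lit 0x4a⟩ (t14_3313) (t14_11505)) (.node ⟨nat_lit 7, nat_lit 0x20004000280044, nat_lit 0x111121, nat_lit 0, nat_lit 4, nat_lit 0x47⟩ (t14_7409) (.nil))))) (.node ⟨nat_lit 5, nat_lit 0x100010, nat_lit 0x3111, nat_lit 3, nat_lit 4, nat_lit 0x48⟩ (.node ⟨nat_lit 5, nat_lit 0x40018, nat_lit 0x21112, nat_lit 4, nat_lit 4, nat_lit 0x48⟩ (.node ⟨nat_lit 9, nat_lit 0x100008000400020, nat_lit 0x20000, nat_lit 5, nat_lit 4, nat_lit 0x4b⟩ (.node ⟨nat_lit 7, nat_lit 0x20005000500068, nat_lit 0x1201211, nat_lit 0, nat_lit 4, nat_lit 0x47⟩ (t14_753) (t14_8945)) (.node ⟨nat_lit 7, nat_lit 0x40001000100060, nat_lit 0x112200, nat_lit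 0, nat_lit 4, nat_lit 0x48⟩ (t14_4849) (t14_13041))) (.node ⟨nat_lit 5, nat_lit 0x180014, nat_lit 0x11112, nat_lit 2, nat_lit 4, nat_lit 0x46⟩ (.node ⟨nat_lit 6, nat_lit 0x2000080030, nat_lit 0x21313, nat_lit 0, nat_lit 4, nat_lit 0x48⟩ (t14_2801) (t14_10993)) (.node ⟨nat_lit 8, nat_lit 0x10001000c000a0, nat_lit 0x10102022, nat_lit 1, nat_lit 4, nat_lit 0x49⟩ (t14_6897) (t14_15089)))) (.node ⟨nat_lit 5, nat_lit 0x100008, nat_lit 0x1102, nat_lit 1, nat_lit 4, nat_lit 0x46⟩ (.node ⟨nat_lit 7, nat_lit 0x4000600064, nat_lit 0x1111211, nat_lit 1, nat_lit 4, nat_lit 0x49⟩ (.node ⟨nat_lit 6, nat_lit 0x2000300030, nat_lit 0x1320, nat_lit 0, nat_lit 3, nat_lit 0x45⟩ (t14_1777) (t14_9969)) (.node ⟨nat_lit 6, nat_lit 0x1800280030, nat_lit 0x21022, nat_lit 0, nat_lit 4, nat_lit 0x46⟩ (t14_5873) (t14_14065))) (.node ⟨nat_lit 6, nat_lit 0x800280030, nat_lit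 0x21210, nat_lit 0, nat_lit 4, nat_lit 0x47⟩ (.node ⟨nat_lit 7, nat_lit 0x20001000600050, nat_lit 0x1111003, nat_lit 0, nat_lit 4, nat_lit 0x48⟩ (t14_3825) (t14_12017)) (.node ⟨nat_lit 7, nat_lit 0x10001000400062, nat_lit 0x1101001, nat_lit 1, nat_lit 4, nat_lit 0x47⟩ (t14_7921) (.nil)))))
def t14_497 : Tr := .node ⟨nat_lit 7, nat_lit 0x400040, nat_lit 0x1111111, nat_lit 0, nat_lit 4, nat_lit 0x4b⟩ (.nil) (.nil)
def t14_8689 : Tr := .node ⟨nat_lit 6, nat_lit 0x1000300028, nat_lit 0x100, nat_lit 0, nat_lit 4, nat_lit 0x44⟩ (.nil) (.nil)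
def t14_4593 : Tr := .node ⟨nat_lit 7, nat_lit 0x10002000500060, nat_lit 0x1101013, nat_lit 2, nat_lit 4, nat_lit 0x48⟩ (.nil) (.nil)
def t14_12785 : Tr := .node ⟨nat_lit 5, nat_lit 0x18001c, nat_lit 0x10002, nat_lit 5, nat_lit 4, nat_lit 0x45⟩ (.nil) (.nil)
def t14_2545 : Tr := .node ⟨nat_lit 8, nat_lit 0x4000400020008000c2, nat_lit 0x10121000, nat_lit 3, nat_lit 4, nat_lit 0x49⟩ (.nil) (.nil)
def t14_10737 : Tr := .node ⟨nat_lit 6, nat_lit 0x20001000100028, nat_lit 0x1202, nat_lit 0, nat_lit 4, nat_lit 0x45⟩ (.nil) (.nil)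
def t14_6641 : Tr := .node ⟨nat_lit 8, nat_lit 0x400040002000800082, nat_lit 0x10130100, nat_lit 0, nat_lit 4, nat_lit 0x49⟩ (.nil) (.nil)
def t14_14833 : Tr := .node ⟨nat_lit 8, nat_lit 0x800040004000a000c8, nat_lit 0x12101, nat_lit 0, nat_lit 4, nat_lit 0x47⟩ (.nil) (.nil)
def t14_1521 : Tr := .node ⟨nat_lit 8, nat_lit 0x8000400040004000a000d0, nat_lit 0x121111, nat_lit 0, nat_lit 4, nat_lit 0x47⟩ (.nil) (.nil)
def t14_9713 : Tr := .node ⟨nat_lit 9, nat_lit 0x10001000040008001100120, nat_lit 0x11111010, nat_lit 0, nat_lit 4, nat_lit 0x49⟩ (.nil) (.nil)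
def t14_5617 : Tr := .node ⟨nat_lit 7, nat_lit 0x5000500060, nat_lit 0x101202, nat_lit 5, nat_lit 4, nat_lit 0x48⟩ (.nil) (.nil)
def t14_13809 : Tr := .node ⟨nat_lit 7, nat_lit 0x20001000600050, nat_lit 0x2200, nat_lit 4, nat_lit 4, nat_lit 0x47⟩ (.nil) (.nil)
def t14_3569 : Tr := .node ⟨nat_lit 7, nat_lit 0x10006000600050, nat_lit 0x1210, nat_lit 0, nat_lit 3, nat_lit 0x44⟩ (.nil) (.nil)
def t14_11761 : Tr := .node ⟨nat_lit 3, nat_lit 6, nat_lit 0x402, nat_lit 3, nat_lit 3, nat_lit 0x45⟩ (.nil) (.nil)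
def t14_7665 : Tr := .node ⟨nat_lit 6, nat_lit 0x2000240038, nat_lit 0x10002, nat_lit 3, nat_lit 4, nat_lit 0x45⟩ (.nil) (.nil)
def t14_1009 : Tr := .node ⟨nat_lit 6, nat_lit 0x800300030, nat_lit 0x1121, nat_lit 7, nat_lit 4, nat_lit 0x47⟩ (.nil) (.nil)
def t14_9201 : Tr := .node ⟨nat_lit 6, nat_lit 0x2000100010, nat_lit 0x101030, nat_lit 3, nat_lit 3, nat_lit 0x47⟩ (.nil) (.nil)
def t14_5105 : Tr := .node ⟨nat_lit 8, nat_lit 0x80004000c000a000d0, nat_lit 0x111310, nat_lit 0, nat_lit 4, nat_lit 0x47⟩ (.nil) (.nil)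
def t14_13297 : Tr := .node ⟨nat_lit 7, nat_lit 0x20002000600050, nat_lit 0x1030, nat_lit 3, nat_lit 4, nat_lit 0x47⟩ (.nil) (.nil)
def t14_3057 : Tr := .node ⟨nat_lit 8, nat_lit 0x2000400040008000c2, nat_lit 0x10002111, nat_lit 0, nat_lit 4, nat_lit 0x48⟩ (.nil) (.nil)
def t14_11249 : Tr := .node ⟨nat_lit 7, nat_lit 0x1000400060, nat_lit 0x201010, nat_lit 0, nat_lit 4, nat_lit 0x48⟩ (.nil) (.nil)
def t14_7153 : Tr := .node ⟨nat_lit 8, nat_lit 0x20001000c0, nat_lit 0x10001001, nat_lit 1, nat_lit 4, nat_lit 0x49⟩ (.nil) (.nil)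
def t14_15345 : Tr := .node ⟨nat_lit 0xa, nat_lit 0x20002000200010001000220, nat_lit 0x11110101, nat_lit 0, nat_lit 4, nat_lit 0x4b⟩ (.nil) (.nil)
def t14_2033 : Tr := .node ⟨nat_lit 6, nat_lit 0x3000300030, nat_lit 0x3310, nat_lit 3, nat_lit 4, nat_lit 0x47⟩ (.nil) (.nil)
def t14_10225 : Tr := .node ⟨nat_lit 5, nat_lit 0x1000100018, nat_lit 0x1220, nat_lit 0xa, nat_lit 4, nat_lit 0x48⟩ (.nil) (.nil)
def t14_6129 : Tr := .node ⟨nat_lit 3, nat_lit 4, nat_lit 0x20, nat_lit 0xa, nat_lit 4, nat_lit 0x46⟩ (.nil) (.nil)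
def t14_14321 : Tr := .node ⟨nat_lit 6, nat_lit 0x10001000200022, nat_lit 0x111003, nat_lit 0, nat_lit 4, nat_lit 0x46⟩ (.nil) (.nil)
def t14_4081 : Tr := .node ⟨nat_lit 8, nat_lit 0x4000400080002000c0, nat_lit 0x10120101, nat_lit 1, nat_lit 4, nat_lit 0x49⟩ (.nil) (.nil)
def t14_12273 : Tr := .node ⟨nat_lit 7, nat_lit 0x40001000100060, nat_lit 0x1000, nat_lit 1, nat_lit 4, nat_lit 0x46⟩ (.nil) (.nil)
def t14_8177 : Tr := .node ⟨nat_lit 6, nat_lit 0x20002800280030, nat_lit 0x1410, nat_lit 5, nat_lit 4, nat_lit 0x47⟩ (.nil) (.nil)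
def t9_497 : Tr := .node ⟨nat_lit 5, nat_lit 0x10, nat_lit 0x13113, nat_lit 0, nat_lit 3, nat_lit 0x48⟩ (.node ⟨nat_lit 7, nat_lit 0x200040004800300030, nat_lit 0x1300022, nat_lit 0, nat_lit 4, nat_lit 0x48⟩ (.node ⟨nat_lit 2, nat_lit 0, nat_lit 0x22, nat_lit 0x11, nat_lit 4, nat_lit 0x48⟩ (.node ⟨nat_lit 5, nat_lit 0x100012, nat_lit 0x21101, nat_lit 5, nat_lit 4, nat_lit 0x48⟩ (.node ⟨nat_lit 9, nat_lit 0x8001000100004001080110, nat_lit 0x2011111, nat_lit 0, nat_lit 4, nat_lit 0x49⟩ (t14_497) (t14_8689)) (.node ⟨nat_lit 6, nat_lit 0x1000200020, nat_lit 0x111120, nat_lit 7, nat_lit 4, nat_lit 0x4a⟩ (t14_4593) (t14_12785))) (.node ⟨nat_lit 4, nat_lit 0x8000c, nat_lit 0x1012, nat_lit 8, nat_lit 4, nat_lit 0x46⟩ (.node ⟨nat_lit 6, nat_lit 0x20001000100028, nat_lit 0x11310, nat_lit 0, nat_lit 4, nat_lit 0x47⟩ (t14_2545) (t14_10737)) (.node ⟨nat_lit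 6, nat_lit 0x2000100030, nat_lit 0x11212, nat_lit 3, nat_lit 4, nat_lit 0x48⟩ (t14_6641) (t14_14833)))) (.node ⟨nat_lit 7, nat_lit 0x2000500060, nat_lit 0x121111, nat_lit 0, nat_lit 4, nat_lit 0x48⟩ (.node ⟨nat_lit 7, nat_lit 0x20004000100068, nat_lit 0x222110, nat_lit 0, nat_lit 4, nat_lit 0x49⟩ (.node ⟨nat_lit 6, nat_lit 0x2000100032, nat_lit 0x101311, nat_lit 0, nat_lit 4, nat_lit 0x47⟩ (t14_1521) (t14_9713)) (.node ⟨nat_lit 6, nat_lit 0x20001000280034, nat_lit 0x122200, nat_lit 2, nat_lit 4, nat_lit 0x48⟩ (t14_5617) (t14_13809))) (.node ⟨nat_lit 8, nat_lit 0x8000400040, nat_lit 0x211000, nat_lit 2, nat_lit 4, nat_lit 0x4b⟩ (.node ⟨nat_lit 7, nat_lit 0x2000500064, nat_lit 0x101100, nat_lit 1, nat_lit 4, nat_lit 0x47⟩ (t14_3569) (t14_11761)) (.node ⟨nat_lit 7, nat_lit 0x400040005000500050, nat_lit 0x1111200, nat_lit 3, nat_lit 4, nat_lit 0x49⟩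 (t14_7665) (.nil))))) (.node ⟨nat_lit 7, nat_lit 0x40004000480060, nat_lit 0x31210, nat_lit 3, nat_lit 4, nat_lit 0x49⟩ (.node ⟨nat_lit 3, nat_lit 0, nat_lit 0x222, nat_lit 8, nat_lit 3, nat_lit 0x47⟩ (.node ⟨nat_lit 3, nat_lit 4, nat_lit 0x110, nat_lit 0x15, nat_lit 4, nat_lit 0x49⟩ (.node ⟨nat_lit 4, nat_lit 0x8000c, nat_lit 0x1231, nat_lit 7, nat_lit 4, nat_lit 0x48⟩ (t14_1009) (t14_9201)) (.node ⟨nat_lit 7, nat_lit 0x200040, nat_lit 0x2111102, nat_lit 2, nat_lit 4, nat_lit 0x4c⟩ (t14_5105) (t14_13297))) (.node ⟨nat_lit 7, nat_lit 0x1800180060, nat_lit 0x1110201, nat_lit 0, nat_lit 4, nat_lit 0x47⟩ (.node ⟨nat_lit 7, nat_lit 0x4000440064, nat_lit 0x2011221, nat_lit 0, nat_lit 4, nat_lit 0x4a⟩ (t14_3057) (t14_11249)) (.node ⟨nat_lit 9, nat_lit 0x100008000400180, nat_lit 0x10110202, nat_lit 1, nat_lit 4, nat_lit 0x4b⟩ (t14_7153) (t14_15345))))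 (.node ⟨nat_lit 5, nat_lit 0x100018, nat_lit 0x10211, nat_lit 7, nat_lit 4, nat_lit 0x48⟩ (.node ⟨nat_lit 6, nat_lit 0x1000200030, nat_lit 0x121111, nat_lit 3, nat_lit 4, nat_lit 0x49⟩ (.node ⟨nat_lit 5, nat_lit 0x100010, nat_lit 0x11132, nat_lit 6, nat_lit 4, nat_lit 0x4a⟩ (t14_2033) (t14_10225)) (.node ⟨nat_lit 7, nat_lit 0x20003000500060, nat_lit 0x1012120, nat_lit 0, nat_lit 4, nat_lit 0x47⟩ (t14_6129) (t14_14321))) (.node ⟨nat_lit 4, nat_lit 0xc, nat_lit 0x2223, nat_lit 5, nat_lit 4, nat_lit 0x49⟩ (.node ⟨nat_lit 6, nat_lit 0x2000100038, nat_lit 0x10011, nat_lit 0, nat_lit 4, nat_lit 0x45⟩ (t14_4081) (t14_12273)) (.node ⟨nat_lit 8, nat_lit 0x8000800040004000a00090, nat_lit 0x1102110, nat_lit 2, nat_lit 4, nat_lit 0x48⟩ (t14_8177) (.nil)))))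
def t4_1 : Tr := .node ⟨nat_lit 3, nat_lit 4, nat_lit 0x212, nat_lit 3, nat_lit 3, nat_lit 0x45⟩ (.node ⟨nat_lit 4, nat_lit 0x40008, nat_lit 0x1211, nat_lit 1, nat_lit 3, nat_lit 0x45⟩ (.node ⟨nat_lit 2, nat_lit 2, nat_lit 0x22, nat_lit 6, nat_lit 3, nat_lit 0x44⟩ (.node ⟨nat_lit 4, nat_lit 0, nat_lit 0x4321, nat_lit 1, nat_lit 4, nat_lit 0x4b⟩ (.node ⟨nat_lit 6, nat_lit 0x200020, nat_lit 0x42120, nat_lit 0, nat_lit 4, nat_lit 0x4b⟩ (t9_1) (t9_257)) (.node ⟨nat_lit 4, nat_lit 0xc, nat_lit 0x3212, nat_lit 3, nat_lit 3, nat_lit 0x47⟩ (t9_129) (t9_385))) (.node ⟨nat_lit 3, nat_lit 4, nat_lit 0x141, nat_lit 0xd, nat_lit 4, nat_lit 0x49⟩ (.node ⟨nat_lit 3, nat_lit 4, nat_lit 0x221, nat_lit 6, nat_lit 3, nat_lit 0x46⟩ (t9_65) (t9_321)) (.node ⟨nat_lit 4, nat_lit 0xc, nat_lit 0x3121, nat_lit 5, nat_lit 3, nat_lit 0x47⟩ (t9_193) (t9_449)))) (.node ⟨nat_lit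 4, nat_lit 0xc, nat_lit 0x2111, nat_lit 0, nat_lit 3, nat_lit 0x45⟩ (.node ⟨nat_lit 4, nat_lit 0, nat_lit 0x4211, nat_lit 0, nat_lit 4, nat_lit 0x49⟩ (.node ⟨nat_lit 3, nat_lit 4, nat_lit 0x323, nat_lit 7, nat_lit 4, nat_lit 0x49⟩ (t9_33) (t9_289)) (.node ⟨nat_lit 5, nat_lit 0x40018, nat_lit 0x31122, nat_lit 0, nat_lit 4, nat_lit 0x48⟩ (t9_161) (t9_417))) (.node ⟨nat_lit 6, nat_lit 0x20, nat_lit 0x41110, nat_lit 1, nat_lit 4, nat_lit 0x4b⟩ (.node ⟨nat_lit 5, nat_lit 0x100008, nat_lit 0x2102, nat_lit 4, nat_lit 3, nat_lit 0x47⟩ (t9_97) (t9_353)) (.node ⟨nat_lit 5, nat_lit 0x18, nat_lit 0x31321, nat_lit 1, nat_lit 4, nat_lit 0x4a⟩ (t9_225) (t9_481))))) (.node ⟨nat_lit 1, nat_lit 0, nat_lit 2, nat_lit 6, nat_lit 3, nat_lit 0x42⟩ (.node ⟨nat_lit 2, nat_lit 0, nat_lit 0x11, nat_lit 8, nat_lit 3, nat_lit 0x44⟩ (.node ⟨nat_lit 3, nat_lit 0, nat_lit 0x421,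 nat_lit 7, nat_lit 4, nat_lit 0x49⟩ (.node ⟨nat_lit 7, nat_lit 0x400040, nat_lit 0x411110, nat_lit 1, nat_lit 4, nat_lit 0x4c⟩ (t9_17) (t9_273)) (.node ⟨nat_lit 4, nat_lit 0x40008, nat_lit 0x1331, nat_lit 1, nat_lit 3, nat_lit 0x47⟩ (t9_145) (t9_401))) (.node ⟨nat_lit 3, nat_lit 4, nat_lit 0x141, nat_lit 5, nat_lit 4, nat_lit 0x47⟩ (.node ⟨nat_lit 3, nat_lit 6, nat_lit 0x222, nat_lit 3, nat_lit 3, nat_lit 0x45⟩ (t9_81) (t9_337)) (.node ⟨nat_lit 6, nat_lit 0x2000200010, nat_lit 0x32101, nat_lit 0, nat_lit 3, nat_lit 0x48⟩ (t9_209) (t9_465)))) (.node ⟨nat_lit 3, nat_lit 0, nat_lit 0x421, nat_lit 0, nat_lit 3, nat_lit 0x47⟩ (.node ⟨nat_lit 3, nat_lit 0, nat_lit 0x422, nat_lit 7, nat_lit 4, nat_lit 0x4a⟩ (.node ⟨nat_lit 4, nat_lit 8, nat_lit 0x2221, nat_lit 1, nat_lit 3, nat_lit 0x47⟩ (t9_49) (t9_305)) (.node ⟨nat_lit 2, nat_lit 0, nat_lit 0x33, nat_lit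 0xa, nat_lit 4, nat_lit 0x47⟩ (t9_177) (t9_433))) (.node ⟨nat_lit 7, nat_lit 0x4000100020, nat_lit 0x114011, nat_lit 1, nat_lit 4, nat_lit 0x4b⟩ (.node ⟨nat_lit 5, nat_lit 0x40018, nat_lit 0x32212, nat_lit 0, nat_lit 4, nat_lit 0x49⟩ (t9_113) (t9_369)) (.node ⟨nat_lit 4, nat_lit 0x8000c, nat_lit 0x1321, nat_lit 7, nat_lit 4, nat_lit 0x48⟩ (t9_241) (t9_497)))))

end Pool.Agent.Sel.T31
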