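import Pool.Agent.H8.Sel.Prof

set_option linter.all false
set_option maxRecDepth 100000

namespace Pool.Agent.Sel.T31

open Pool.Agent.Sel

def t14_8 : Tr := .node ⟨nat_lit 9, nat_lit 0x100010000800080014001400190, nat_lit 0x10221101, nat_lit 0, nat_lit 4, nat_lit 0x48⟩ (.nil) (.nil)
def t14_8200 : Tr := .node ⟨nat_lit 8, nat_lit 0x8000400040009000d0, nat_lit 0x11013, nat_lit 1, nat_lit 4, nat_lit 0x47⟩ (.nil) (.nil)
def t14_4104 : Tr := .node ⟨nat_lit 8, nat_lit 0x800020004000900090, nat_lit 0x1110021, nat_lit 1, nat_lit 4, nat_lit 0x48⟩ (.nil) (.nil)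
def t14_12296 : Tr := .node ⟨nat_lit 7, nat_lit 0x10006000500070, nat_lit 0x2103, nat_lit 3, nat_lit 4, nat_lit 0x46⟩ (.nil) (.nil)
def t14_2056 : Tr := .node ⟨nat_lit 6, nat_lit 0x300028, nat_lit 0x10230, nat_lit 1, nat_lit 4, nat_lit 0x47⟩ (.nil) (.nil)
def t14_10248 : Tr := .node ⟨nat_lit 7, nat_lit 0x20005000500060, nat_lit 0x1200, nat_lit 0, nat_lit 3, nat_lit 0x44⟩ (.nil) (.nil)
def t14_6152 : Tr := .node ⟨nat_lit 5, nat_lit 0x1000080008, nat_lit 0x11, nat_lit 6, nat_lit 4, nat_lit 0x46⟩ (.nil) (.nil)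
def t14_14344 : Tr := .node ⟨nat_lit 8, nat_lit 0x8000800020002000c0, nat_lit 0x21100, nat_lit 5, nat_lit 4, nat_lit 0x49⟩ (.nil) (.nil)
def t14_1032 : Tr := .node ⟨nat_lit 6, nat_lit 0x10002000240030, nat_lit 0x2001, nat_lit 3, nat_lit 4, nat_lit 0x45⟩ (.nil) (.nil)
def t14_9224 : Tr := .node ⟨nat_lit 0xa, nat_lit 0x20002000080004002200300, nat_lit 0x100120011, nat_lit 0, nat_lit 4, nat_lit 0x4a⟩ (.nil) (.nil)
def t14_5128 : Tr := .node ⟨nat_lit 9, nat_lit 0x100010001000080011001a001c0, nat_lit 0x103010, nat_lit 1, nat_lit 4, nat_lit 0x47⟩ (.nil) (.nil)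
def t14_13320 : Tr := .node ⟨nat_lit 6, nat_lit 0x800300028, nat_lit 0x300, nat_lit 3, nat_lit 4, nat_lit 0x46⟩ (.nil) (.nil)
def t14_3080 : Tr := .node ⟨nat_lit 6, nat_lit 0x1000280030, nat_lit 0x200112, nat_lit 2, nat_lit 4, nat_lit 0x47⟩ (.nil) (.nil)
def t14_11272 : Tr := .node ⟨nat_lit 7, nat_lit 0x40001000600060, nat_lit 0x101120, nat_lit 1, nat_lit 4, nat_lit 0x47⟩ (.nil) (.nil)
def t14_7176 : Tr := .node ⟨nat_lit 7, nat_lit 0x20004000600064, nat_lit 0x1121011, nat_lit 1, nat_lit 4, nat_lit 0x48⟩ (.nil) (.nil)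
def t14_15368 : Tr := .node ⟨nat_lit 9, nat_lit 0x1000100010000800110, nat_lit 0x1111001, nat_lit 4, nat_lit 4, nat_lit 0x4b⟩ (.nil) (.nil)
def t14_520 : Tr := .node ⟨nat_lit 7, nat_lit 0x100060, nat_lit 0x1111111, nat_lit 0, nat_lit 4, nat_lit 0x4a⟩ (.nil) (.nil)
def t14_8712 : Tr := .node ⟨nat_lit 6, nat_lit 0x2000240030, nat_lit 0x1120, nat_lit 2, nat_lit 4, nat_lit 0x46⟩ (.nil) (.nil)
def t14_4616 : Tr := .node ⟨nat_lit 8, nat_lit 0x200020001000c0, nat_lit 0x11010002, nat_lit 0, nat_lit 4, nat_lit 0x49⟩ (.nil) (.nil)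
def t14_12808 : Tr := .node ⟨nat_lit 7, nat_lit 0x40001000600050, nat_lit 0x102200, nat_lit 1, nat_lit 4, nat_lit 0x47⟩ (.nil) (.nil)
def t14_2568 : Tr := .node ⟨nat_lit 8, nat_lit 0x8000800040009000e000e0, nat_lit 0x10112020, nat_lit 1, nat_lit 4, nat_lit 0x47⟩ (.nil) (.nil)
def t14_10760 : Tr := .node ⟨nat_lit 8, nat_lit 0x10008000c000a0, nat_lit 0x122, nat_lit 0, nat_lit 4, nat_lit 0x47⟩ (.nil) (.nil)
def t14_6664 : Tr := .node ⟨nat_lit 6, nat_lit 0x200030, nat_lit 0x2130, nat_lit 1, nat_lit 3, nat_lit 0x47⟩ (.nil) (.nil)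
def t14_14856 : Tr := .node ⟨nat_lit 8, nat_lit 0x8000800040004000a000c8, nat_lit 0x1121211, nat_lit 1, nat_lit 4, nat_lit 0x48⟩ (.nil) (.nil)
def t14_1544 : Tr := .node ⟨nat_lit 7, nat_lit 0x40004000500060, nat_lit 0x112120, nat_lit 0, nat_lit 3, nat_lit 0x46⟩ (.nil) (.nil)
def t14_9736 : Tr := .node ⟨nat_lit 9, nat_lit 0x800080004001000182, nat_lit 0x100122000, nat_lit 0, nat_lit 4, nat_lit 0x4a⟩ (.nil) (.nil)
def t14_5640 : Tr := .node ⟨nat_lit 7, nat_lit 0x10004000600060, nat_lit 0x120, nat_lit 1, nat_lit 4, nat_lit 0x46⟩ (.nil) (.nil)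
def t14_13832 : Tr := .node ⟨nat_lit 6, nat_lit 0x20002000280038, nat_lit 0x1002, nat_lit 6, nat_lit 4, nat_lit 0x46⟩ (.nil) (.nil)
def t14_3592 : Tr := .node ⟨nat_lit 7, nat_lit 0x20004000600050, nat_lit 0x1210, nat_lit 0, nat_lit 3, nat_lit 0x45⟩ (.nil) (.nil)
def t14_11784 : Tr := .node ⟨nat_lit 7, nat_lit 0x1000080060, nat_lit 0x1000003, nat_lit 3, nat_lit 4, nat_lit 0x48⟩ (.nil) (.nil)
def t14_7688 : Tr := .node ⟨nat_lit 6, nat_lit 0x20001000100028, nat_lit 0x102, nat_lit 3, nat_lit 4, nat_lit 0x45⟩ (.nil) (.nil)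
def t9_8 : Tr := .node ⟨nat_lit 6, nat_lit 0x280030, nat_lit 0x113211, nat_lit 0, nat_lit 4, nat_lit 0x49⟩ (.node ⟨nat_lit 6, nat_lit 0x200010, nat_lit 0x113112, nat_lit 0, nat_lit 4, nat_lit 0x4a⟩ (.node ⟨nat_lit 5, nat_lit 0x40018, nat_lit 0x30010, nat_lit 1, nat_lit 4, nat_lit 0x46⟩ (.node ⟨nat_lit 4, nat_lit 0xc, nat_lit 0x2010, nat_lit 3, nat_lit 4, nat_lit 0x45⟩ (.node ⟨nat_lit 5, nat_lit 0x1000100008, nat_lit 0x12203, nat_lit 5, nat_lit 4, nat_lit 0x49⟩ (t14_8) (t14_8200)) (.node ⟨nat_lit 6, nat_lit 0x800080030, nat_lit 0x101000, nat_lit 3, nat_lit 4, nat_lit 0x47⟩ (t14_4104) (t14_12296))) (.node ⟨nat_lit 4, nat_lit 0xc, nat_lit 0x3112, nat_lit 0xa, nat_lit 4, nat_lit 0x49⟩ (.node ⟨nat_lit 7, nat_lit 0x400040004000200020, nat_lit 0x121031, nat_lit 1, nat_lit 4, nat_lit 0x49⟩ (t14_2056) (t14_10248)) (.node ⟨nat_lit 8, nat_lit 0x80001000c000a0,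 nat_lit 0x22200, nat_lit 0, nat_lit 4, nat_lit 0x49⟩ (t14_6152) (t14_14344)))) (.node ⟨nat_lit 6, nat_lit 0x2000200020, nat_lit 0x21211, nat_lit 0, nat_lit 3, nat_lit 0x47⟩ (.node ⟨nat_lit 4, nat_lit 0x80008, nat_lit 0x2221, nat_lit 7, nat_lit 4, nat_lit 0x49⟩ (.node ⟨nat_lit 5, nat_lit 0x180018, nat_lit 0x11141, nat_lit 4, nat_lit 4, nat_lit 0x48⟩ (t14_1032) (t14_9224)) (.node ⟨nat_lit 7, nat_lit 0, nat_lit 0x2221111, nat_lit 0, nat_lit 4, nat_lit 0x4e⟩ (t14_5128) (t14_13320))) (.node ⟨nat_lit 7, nat_lit 0x40004000200020, nat_lit 0x111020, nat_lit 2, nat_lit 4, nat_lit 0x49⟩ (.node ⟨nat_lit 7, nat_lit 0x10002000400060, nat_lit 0x1100004, nat_lit 3, nat_lit 4, nat_lit 0x49⟩ (t14_3080) (t14_11272)) (.node ⟨nat_lit 6, nat_lit 0x20002000300038, nat_lit 0x12122, nat_lit 4, nat_lit 4, nat_lit 0x47⟩ (t14_7176) (t14_15368))))) (.node ⟨nat_lit 7, nat_lit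 0x40004800480048, nat_lit 0x3210110, nat_lit 1, nat_lit 4, nat_lit 0x4a⟩ (.node ⟨nat_lit 4, nat_lit 8, nat_lit 0x1221, nat_lit 9, nat_lit 4, nat_lit 0x49⟩ (.node ⟨nat_lit 7, nat_lit 0x400020, nat_lit 0x21101, nat_lit 1, nat_lit 4, nat_lit 0x4a⟩ (.node ⟨nat_lit 7, nat_lit 0x40002000100048, nat_lit 0x1022012, nat_lit 0, nat_lit 4, nat_lit 0x49⟩ (t14_520) (t14_8712)) (.node ⟨nat_lit 6, nat_lit 0x2000300028, nat_lit 0x111202, nat_lit 3, nat_lit 4, nat_lit 0x48⟩ (t14_4616) (t14_12808))) (.node ⟨nat_lit 5, nat_lit 0x100010, nat_lit 0x1130, nat_lit 0, nat_lit 3, nat_lit 0x46⟩ (.node ⟨nat_lit 7, nat_lit 0x1000500060, nat_lit 0x1201013, nat_lit 0, nat_lit 4, nat_lit 0x49⟩ (t14_2568) (t14_10760)) (.node ⟨nat_lit 7, nat_lit 0x4000400060, nat_lit 0x121201, nat_lit 3, nat_lit 4, nat_lit 0x4a⟩ (t14_6664) (t14_14856)))) (.node ⟨nat_lit 5, nat_lit 0x100008, nat_lit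 0x1203, nat_lit 2, nat_lit 4, nat_lit 0x48⟩ (.node ⟨nat_lit 4, nat_lit 0xc, nat_lit 0x2011, nat_lit 0xf, nat_lit 4, nat_lit 0x49⟩ (.node ⟨nat_lit 6, nat_lit 0x2000240030, nat_lit 0x102311, nat_lit 3, nat_lit 4, nat_lit 0x49⟩ (t14_1544) (t14_9736)) (.node ⟨nat_lit 8, nat_lit 0x80008000400040009000a0, nat_lit 0x11113100, nat_lit 0, nat_lit 4, nat_lit 0x49⟩ (t14_5640) (t14_13832))) (.node ⟨nat_lit 6, nat_lit 0x80030, nat_lit 0x200104, nat_lit 0, nat_lit 4, nat_lit 0x48⟩ (.node ⟨nat_lit 6, nat_lit 0x800300038, nat_lit 0x1103, nat_lit 4, nat_lit 4, nat_lit 0x46⟩ (t14_3592) (t14_11784)) (.node ⟨nat_lit 7, nat_lit 0x4000400044, nat_lit 0x1111310, nat_lit 1, nat_lit 4, nat_lit 0x4b⟩ (t14_7688) (.nil)))))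
def t14_264 : Tr := .node ⟨nat_lit 8, nat_lit 0x800040002000c000a0, nat_lit 0x121121, nat_lit 0, nat_lit 4, nat_lit 0x48⟩ (.nil) (.nil)
def t14_8456 : Tr := .node ⟨nat_lit 7, nat_lit 0x40001000500068, nat_lit 0x102013, nat_lit 3, nat_lit 4, nat_lit 0x47⟩ (.nil) (.nil)
def t14_4360 : Tr := .node ⟨nat_lit 7, nat_lit 0x20004000500060, nat_lit 0x112011, nat_lit 0, nat_lit 3, nat_lit 0x46⟩ (.nil) (.nil)
def t14_12552 : Tr := .node ⟨nat_lit 7, nat_lit 0x20004000400060, nat_lit 0x13001, nat_lit 0, nat_lit 3, nat_lit 0x46⟩ (.nil) (.nil)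
def t14_2312 : Tr := .node ⟨nat_lit 8, nat_lit 0x800080004000880090, nat_lit 0x1112010, nat_lit 1, nat_lit 4, nat_lit 0x49⟩ (.nil) (.nil)
def t14_10504 : Tr := .node ⟨nat_lit 7, nat_lit 0x4000200060, nat_lit 0x11022, nat_lit 1, nat_lit 3, nat_lit 0x47⟩ (.nil) (.nil)
def t14_6408 : Tr := .node ⟨nat_lit 7, nat_lit 0x400020002000500070, nat_lit 0x1011102, nat_lit 0, nat_lit 4, nat_lit 0x46⟩ (.nil) (.nil)
def t14_14600 : Tr := .node ⟨nat_lit 4, nat_lit 8, nat_lit 0x1111, nat_lit 0xa, nat_lit 3, nat_lit 0x47⟩ (.nil) (.nil)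
def t14_1288 : Tr := .node ⟨nat_lit 8, nat_lit 0x8000800040009000c0, nat_lit 0x110212, nat_lit 0, nat_lit 4, nat_lit 0x48⟩ (.nil) (.nil)
def t14_9480 : Tr := .node ⟨nat_lit 8, nat_lit 0x80008000400048009000a0, nat_lit 0x1110000, nat_lit 2, nat_lit 4, nat_lit 0x47⟩ (.nil) (.nil)
def t14_5384 : Tr := .node ⟨nat_lit 9, nat_lit 0x8001000100011000a000c0, nat_lit 0x1200012, nat_lit 1, nat_lit 4, nat_lit 0x48⟩ (.nil) (.nil)
def t14_13576 : Tr := .node ⟨nat_lit 7, nat_lit 0x10002000500060, nat_lit 0x11, nat_lit 0, nat_lit 4, nat_lit 0x45⟩ (.nil) (.nil)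
def t14_3336 : Tr := .node ⟨nat_lit 6, nat_lit 0x2000280030, nat_lit 0x21210, nat_lit 5, nat_lit 4, nat_lit 0x48⟩ (.nil) (.nil)
def t14_11528 : Tr := .node ⟨nat_lit 5, nat_lit 0x1000180018, nat_lit 0x210, nat_lit 0xd, nat_lit 4, nat_lit 0x47⟩ (.nil) (.nil)
def t14_7432 : Tr := .node ⟨nat_lit 7, nat_lit 0x400040002000480070, nat_lit 0x1111111, nat_lit 4, nat_lit 4, nat_lit 0x48⟩ (.nil) (.nil)
def t14_776 : Tr := .node ⟨nat_lit 6, nat_lit 0x280030, nat_lit 0x231, nat_lit 0, nat_lit 4, nat_lit 0x46⟩ (.nil) (.nil)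
def t14_8968 : Tr := .node ⟨nat_lit 6, nat_lit 0x20002000280024, nat_lit 0x12110, nat_lit 7, nat_lit 4, nat_lit 0x48⟩ (.nil) (.nil)
def t14_4872 : Tr := .node ⟨nat_lit 8, nat_lit 0x800040004000a000a000d0, nat_lit 0x1121001, nat_lit 0, nat_lit 4, nat_lit 0x47⟩ (.nil) (.nil)
def t14_13064 : Tr := .node ⟨nat_lit 7, nat_lit 0x40002000480048, nat_lit 0x112100, nat_lit 1, nat_lit 4, nat_lit 0x48⟩ (.nil) (.nil)
def t14_2824 : Tr := .node ⟨nat_lit 8, nat_lit 0x2000c000c0, nat_lit 0x111021, nat_lit 0, nat_lit 4, nat_lit 0x49⟩ (.nil) (.nil)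
def t14_11016 : Tr := .node ⟨nat_lit 7, nat_lit 0x6000600060, nat_lit 0x31210, nat_lit 0, nat_lit 4, nat_lit 0x48⟩ (.nil) (.nil)
def t14_6920 : Tr := .node ⟨nat_lit 5, nat_lit 0x100018, nat_lit 0x13111, nat_lit 5, nat_lit 4, nat_lit 0x49⟩ (.nil) (.nil)
def t14_15112 : Tr := .node ⟨nat_lit 8, nat_lit 0x8000400040004000c800d0, nat_lit 0x201110, nat_lit 3, nat_lit 4, nat_lit 0x47⟩ (.nil) (.nil)
def t14_1800 : Tr := .node ⟨nat_lit 6, nat_lit 0x1000280030, nat_lit 0x200021, nat_lit 0, nat_lit 4, nat_lit 0x46⟩ (.nil) (.nil)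
def t14_9992 : Tr := .node ⟨nat_lit 6, nat_lit 0x10002000200020, nat_lit 0x30220, nat_lit 0, nat_lit 3, nat_lit 0x47⟩ (.nil) (.nil)
def t14_5896 : Tr := .node ⟨nat_lit 9, nat_lit 0x100010000800080014000900120, nat_lit 0x101012000, nat_lit 1, nat_lit 4, nat_lit 0x48⟩ (.nil) (.nil)
def t14_14088 : Tr := .node ⟨nat_lit 7, nat_lit 0x20002000400040, nat_lit 0x13100, nat_lit 4, nat_lit 4, nat_lit 0x49⟩ (.nil) (.nil)
def t14_3848 : Tr := .node ⟨nat_lit 7, nat_lit 0x20004000440060, nat_lit 0x1112201, nat_lit 0, nat_lit 4, nat_lit 0x49⟩ (.nil) (.nil)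
def t14_12040 : Tr := .node ⟨nat_lit 6, nat_lit 0x2000280030, nat_lit 0x21201, nat_lit 3, nat_lit 4, nat_lit 0x48⟩ (.nil) (.nil)
def t14_7944 : Tr := .node ⟨nat_lit 8, nat_lit 0x80004000a00050005000e0, nat_lit 0x10111211, nat_lit 0, nat_lit 4, nat_lit 0x46⟩ (.nil) (.nil)
def t9_264 : Tr := .node ⟨nat_lit 4, nat_lit 0x80004, nat_lit 0x2102, nat_lit 1, nat_lit 3, nat_lit 0x45⟩ (.node ⟨nat_lit 6, nat_lit 0x2000100034, nat_lit 0x302202, nat_lit 0, nat_lit 4, nat_lit 0x49⟩ (.node ⟨nat_lit 6, nat_lit 0x1000300028, nat_lit 0x2032, nat_lit 0, nat_lit 4, nat_lit 0x46⟩ (.node ⟨nat_lit 3, nat_lit 6, nat_lit 0x321, nat_lit 2, nat_lit 3, nat_lit 0x46⟩ (.node ⟨nat_lit 5, nat_lit 0x1000080008, nat_lit 0x12022, nat_lit 1, nat_lit 3, nat_lit 0x47⟩ (t14_264) (t14_8456)) (.node ⟨nat_lit 7, nat_lit 0x40001000100060, nat_lit 0x1203100, nat_lit 0, nat_lit 3, nat_lit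 0x47⟩ (t14_4360) (t14_12552))) (.node ⟨nat_lit 4, nat_lit 0x80008, nat_lit 0x321, nat_lit 7, nat_lit 3, nat_lit 0x46⟩ (.node ⟨nat_lit 6, nat_lit 0x10002000240030, nat_lit 0x102203, nat_lit 2, nat_lit 4, nat_lit 0x47⟩ (t14_2312) (t14_10504)) (.node ⟨nat_lit 6, nat_lit 0x200030, nat_lit 0x112120, nat_lit 4, nat_lit 4, nat_lit 0x4a⟩ (t14_6408) (t14_14600)))) (.node ⟨nat_lit 6, nat_lit 0xc0030, nat_lit 0x112111, nat_lit 1, nat_lit 4, nat_lit 0x48⟩ (.node ⟨nat_lit 5, nat_lit 0x140018, nat_lit 0x12211, nat_lit 1, nat_lit 3, nat_lit 0x46⟩ (.node ⟨nat_lit 5, nat_lit 0x100008001c, nat_lit 0x11103, nat_lit 5, nat_lit 4, nat_lit 0x46⟩ (t14_1288) (t14_9480)) (.node ⟨nat_lit 7, nat_lit 0x4000200060, nat_lit 0x1111222, nat_lit 0, nat_lit 4, nat_lit 0x4a⟩ (t14_5384) (t14_13576))) (.node ⟨nat_lit 6, nat_lit 0x2000100024, nat_lit 0x12200, nat_lit 3, nat_lit 4, nat_lit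 0x48⟩ (.node ⟨nat_lit 6, nat_lit 0x800300038, nat_lit 0x110031, nat_lit 0, nat_lit 4, nat_lit 0x46⟩ (t14_3336) (t14_11528)) (.node ⟨nat_lit 7, nat_lit 0x100060, nat_lit 0x1101102, nat_lit 2, nat_lit 4, nat_lit 0x4a⟩ (t14_7432) (.nil))))) (.node ⟨nat_lit 5, nat_lit 0x100008, nat_lit 0x11301, nat_lit 5, nat_lit 4, nat_lit 0x49⟩ (.node ⟨nat_lit 6, nat_lit 0x80030, nat_lit 0x112120, nat_lit 0, nat_lit 4, nat_lit 0x49⟩ (.node ⟨nat_lit 4, nat_lit 0x40008, nat_lit 0x1120, nat_lit 5, nat_lit 4, nat_lit 0x46⟩ (.node ⟨nat_lit 7, nat_lit 0x100060, nat_lit 0x2112110, nat_lit 0, nat_lit 4, nat_lit 0x4b⟩ (t14_776) (t14_8968)) (.node ⟨nat_lit 7, nat_lit 0x40001000600060, nat_lit 0x13210, nat_lit 0, nat_lit 4, nat_lit 0x47⟩ (t14_4872) (t14_13064))) (.node ⟨nat_lit 7, nat_lit 0x40002000480060, nat_lit 0x1012012, nat_lit 0, nat_lit 4, nat_lit 0x48⟩ (.node ⟨nat_lit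 7, nat_lit 0x2000400070, nat_lit 0x21103, nat_lit 1, nat_lit 4, nat_lit 0x48⟩ (t14_2824) (t14_11016)) (.node ⟨nat_lit 5, nat_lit 0x1000080018, nat_lit 0x10230, nat_lit 2, nat_lit 3, nat_lit 0x45⟩ (t14_6920) (t14_15112)))) (.node ⟨nat_lit 4, nat_lit 0x80008, nat_lit 0x1121, nat_lit 7, nat_lit 3, nat_lit 0x46⟩ (.node ⟨nat_lit 7, nat_lit 0x40004000100068, nat_lit 0x1012111, nat_lit 3, nat_lit 4, nat_lit 0x49⟩ (.node ⟨nat_lit 7, nat_lit 0x4000600050, nat_lit 0x11103, nat_lit 2, nat_lit 4, nat_lit 0x48⟩ (t14_1800) (t14_9992)) (.node ⟨nat_lit 8, nat_lit 0x200020001000c0, nat_lit 0x21010012, nat_lit 1, nat_lit 4, nat_lit 0x4a⟩ (t14_5896) (t14_14088))) (.node ⟨nat_lit 7, nat_lit 0x40002000500068, nat_lit 0x2002320, nat_lit 0, nat_lit 4, nat_lit 0x48⟩ (.node ⟨nat_lit 6, nat_lit 0x2800180030, nat_lit 0x11031, nat_lit 4, nat_lit 4, nat_lit 0x47⟩ (t14_3848)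 (t14_12040)) (.node ⟨nat_lit 6, nat_lit 0x10002000300030, nat_lit 0x101221, nat_lit 3, nat_lit 4, nat_lit 0x47⟩ (t14_7944) (.nil)))))
def t14_136 : Tr := .node ⟨nat_lit 7, nat_lit 0x1000500060, nat_lit 0x1301211, nat_lit 0, nat_lit 4, nat_lit 0x49⟩ (.nil) (.nil)
def t14_8328 : Tr := .node ⟨nat_lit 6, nat_lit 0x1800280030, nat_lit 0x200, nat_lit 2, nat_lit 4, nat_lit 0x44⟩ (.nil) (.nil)
def t14_4232 : Tr := .node ⟨nat_lit 6, nat_lit 0x300030, nat_lit 0x2210, nat_lit 3, nat_lit 4, nat_lit 0x48⟩ (.nil) (.nil)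
def t14_12424 : Tr := .node ⟨nat_lit 6, nat_lit 0x20001000100030, nat_lit 0x101310, nat_lit 4, nat_lit 3, nat_lit 0x46⟩ (.nil) (.nil)
def t14_2184 : Tr := .node ⟨nat_lit 9, nat_lit 0x800100010000400108, nat_lit 0x1102002, nat_lit 0, nat_lit 4, nat_lit 0x4a⟩ (.nil) (.nil)
def t14_10376 : Tr := .node ⟨nat_lit 9, nat_lit 0x100008000a00140014001400180, nat_lit 0x100200002, nat_lit 0, nat_lit 4, nat_lit 0x47⟩ (.nil) (.nil)
def t14_6280 : Tr := .node ⟨nat_lit 6, nat_lit 0x2000080030, nat_lit 0x111301, nat_lit 0, nat_lit 4, nat_lit 0x48⟩ (.nil) (.nil)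
def t14_14472 : Tr := .node ⟨nat_lit 7, nat_lit 0x20002000400042, nat_lit 0x1010002, nat_lit 1, nat_lit 4, nat_lit 0x47⟩ (.nil) (.nil)
def t14_1160 : Tr := .node ⟨nat_lit 6, nat_lit 0x1000200020, nat_lit 0x100210, nat_lit 0, nat_lit 4, nat_lit 0x47⟩ (.nil) (.nil)
def t14_9352 : Tr := .node ⟨nat_lit 8, nat_lit 0x80008000800040009000a0, nat_lit 0x1111110, nat_lit 5, nat_lit 4, nat_lit 0x49⟩ (.nil) (.nil)
def t14_5256 : Tr := .node ⟨nat_lit 9, nat_lit 0x800100010001000108, nat_lit 0x1102101, nat_lit 1, nat_lit 4, nat_lit 0x4b⟩ (.nil) (.nil)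
def t14_13448 : Tr := .node ⟨nat_lit 6, nat_lit 0x2000080030, nat_lit 0x300, nat_lit 4, nat_lit 4, nat_lit 0x47⟩ (.nil) (.nil)
def t14_3208 : Tr := .node ⟨nat_lit 7, nat_lit 0x400040002000200060, nat_lit 0x121101, nat_lit 0, nat_lit 3, nat_lit 0x46⟩ (.nil) (.nil)
def t14_11400 : Tr := .node ⟨nat_lit 8, nat_lit 0x200020002000c000c0, nat_lit 0x10011120, nat_lit 0, nat_lit 4, nat_lit 0x48⟩ (.nil) (.nil)
def t14_7304 : Tr := .node ⟨nat_lit 7, nat_lit 0x40004000480030, nat_lit 0x202021, nat_lit 0, nat_lit 4, nat_lit 0x48⟩ (.nil) (.nil)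
def t14_15496 : Tr := .node ⟨nat_lit 9, nat_lit 0x8001000100010001100190, nat_lit 0x11201001, nat_lit 0, nat_lit 4, nat_lit 0x49⟩ (.nil) (.nil)
def t14_648 : Tr := .node ⟨nat_lit 7, nat_lit 0x20002000400060, nat_lit 0x23200, nat_lit 1, nat_lit 4, nat_lit 0x49⟩ (.nil) (.nil)
def t14_8840 : Tr := .node ⟨nat_lit 7, nat_lit 0x4000400044, nat_lit 0x111214, nat_lit 0, nat_lit 4, nat_lit 0x4a⟩ (.nil) (.nil)
def t14_4744 : Tr := .node ⟨nat_lit 5, nat_lit 0x100018001c, nat_lit 0x11221, nat_lit 6, nat_lit 4, nat_lit 0x47⟩ (.nil) (.nil)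
def t14_12936 : Tr := .node ⟨nat_lit 5, nat_lit 0x1000080014, nat_lit 0x10021, nat_lit 3, nat_lit 4, nat_lit 0x45⟩ (.nil) (.nil)
def t14_2696 : Tr := .node ⟨nat_lit 8, nat_lit 0x800020008800c0, nat_lit 0x1102011, nat_lit 0, nat_lit 4, nat_lit 0x49⟩ (.nil) (.nil)
def t14_10888 : Tr := .node ⟨nat_lit 9, nat_lit 0x80008000900140018001a0, nat_lit 0x11220, nat_lit 1, nat_lit 4, nat_lit 0x47⟩ (.nil) (.nil)
def t14_6792 : Tr := .node ⟨nat_lit 7, nat_lit 0x10004000540064, nat_lit 0x1100101, nat_lit 0, nat_lit 4, nat_lit 0x46⟩ (.nil) (.nil)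
def t14_14984 : Tr := .node ⟨nat_lit 7, nat_lit 0x400020002000500060, nat_lit 0x1003, nat_lit 0, nat_lit 4, nat_lit 0x46⟩ (.nil) (.nil)
def t14_1672 : Tr := .node ⟨nat_lit 7, nat_lit 0x40002000480070, nat_lit 0x112102, nat_lit 0, nat_lit 4, nat_lit 0x47⟩ (.nil) (.nil)
def t14_9864 : Tr := .node ⟨nat_lit 9, nat_lit 0x8001000100011001100108, nat_lit 0x1011110, nat_lit 2, nat_lit 4, nat_lit 0x49⟩ (.nil) (.nil)
def t14_5768 : Tr := .node ⟨nat_lit 8, nat_lit 0x400040008000800084, nat_lit 0x110202, nat_lit 3, nat_lit 4, nat_lit 0x49⟩ (.nil) (.nil)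
def t14_13960 : Tr := .node ⟨nat_lit 7, nat_lit 0x20001000400062, nat_lit 0x1002000, nat_lit 6, nat_lit 4, nat_lit 0x48⟩ (.nil) (.nil)
def t14_3720 : Tr := .node ⟨nat_lit 5, nat_lit 0x1000080018, nat_lit 0x10021, nat_lit 5, nat_lit 3, nat_lit 0x45⟩ (.nil) (.nil)
def t14_11912 : Tr := .node ⟨nat_lit 4, nat_lit 0x80004, nat_lit 0x3105, nat_lit 1, nat_lit 3, nat_lit 0x47⟩ (.nil) (.nil)
def t14_7816 : Tr := .node ⟨nat_lit 6, nat_lit 0x2000100024, nat_lit 0x11204, nat_lit 1, nat_lit 4, nat_lit 0x48⟩ (.nil) (.nil)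
def t9_136 : Tr := .node ⟨nat_lit 6, nat_lit 0x2000200010, nat_lit 0x132111, nat_lit 0, nat_lit 4, nat_lit 0x4a⟩ (.node ⟨nat_lit 6, nat_lit 0x800200030, nat_lit 0x31101, nat_lit 1, nat_lit 4, nat_lit 0x48⟩ (.node ⟨nat_lit 7, nat_lit 0x20002000400060, nat_lit 0x30012, nat_lit 1, nat_lit 4, nat_lit 0x48⟩ (.node ⟨nat_lit 7, nat_lit 0x2000500060, nat_lit 0x1012021, nat_lit 0, nat_lit 4, nat_lit 0x48⟩ (.node ⟨nat_lit 7, nat_lit 0x4000100020, nat_lit 0x2111310, nat_lit 0, nat_lit 3, nat_lit 0x49⟩ (t14_136) (t14_8328)) (.node ⟨nat_lit 7, nat_lit 0x40001000600068, nat_lit 0x12001, nat_lit 0, nat_lit 4, nat_lit 0x46⟩ (t14_4232) (t14_12424))) (.node ⟨nat_lit 6, nat_lit 0x200020, nat_lit 0x111021, nat_lit 0, nat_lit 3, nat_lit 0x48⟩ (.node ⟨nat_lit 4, nat_lit 0x8000c, nat_lit 0x10, nat_lit 3, nat_lit 4, nat_lit 0x43⟩ (t14_2184) (t14_10376)) (.node ⟨nat_lit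 7, nat_lit 0x40002000480064, nat_lit 0x1121111, nat_lit 1, nat_lit 4, nat_lit 0x48⟩ (t14_6280) (t14_14472)))) (.node ⟨nat_lit 6, nat_lit 0x200030, nat_lit 0x12220, nat_lit 2, nat_lit 4, nat_lit 0x49⟩ (.node ⟨nat_lit 5, nat_lit 0x40018, nat_lit 0x22211, nat_lit 2, nat_lit 4, nat_lit 0x49⟩ (.node ⟨nat_lit 3, nat_lit 4, nat_lit 0x411, nat_lit 5, nat_lit 3, nat_lit 0x47⟩ (t14_1160) (t14_9352)) (.node ⟨nat_lit 6, nat_lit 0x800280030, nat_lit 0x111212, nat_lit 3, nat_lit 4, nat_lit 0x48⟩ (t14_5256) (t14_13448))) (.node ⟨nat_lit 7, nat_lit 0x4000100060, nat_lit 0x12100, nat_lit 0, nat_lit 4, nat_lit 0x48⟩ (.node ⟨nat_lit 6, nat_lit 0x300030, nat_lit 0x102040, nat_lit 0, nat_lit 4, nat_lit 0x48⟩ (t14_3208) (t14_11400)) (.node ⟨nat_lit 6, nat_lit 0x200030, nat_lit 0x111110, nat_lit 0, nat_lit 4, nat_lit 0x48⟩ (t14_7304) (t14_15496))))) (.node ⟨nat_lit 5,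 nat_lit 0x1000080014, nat_lit 0x31211, nat_lit 4, nat_lit 4, nat_lit 0x49⟩ (.node ⟨nat_lit 4, nat_lit 0x80004, nat_lit 0x233, nat_lit 3, nat_lit 4, nat_lit 0x47⟩ (.node ⟨nat_lit 7, nat_lit 0x1000400060, nat_lit 0x12011, nat_lit 0, nat_lit 4, nat_lit 0x48⟩ (.node ⟨nat_lit 4, nat_lit 0xc, nat_lit 0x1043, nat_lit 4, nat_lit 4, nat_lit 0x47⟩ (t14_648) (t14_8840)) (.node ⟨nat_lit 7, nat_lit 0x400020002000640068, nat_lit 0x132001, nat_lit 2, nat_lit 4, nat_lit 0x47⟩ (t14_4744) (t14_12936))) (.node ⟨nat_lit 3, nat_lit 6, nat_lit 0x112, nat_lit 8, nat_lit 4, nat_lit 0x45⟩ (.node ⟨nat_lit 6, nat_lit 0x2000100010, nat_lit 0x110330, nat_lit 0, nat_lit 4, nat_lit 0x49⟩ (t14_2696) (t14_10888)) (.node ⟨nat_lit 7, nat_lit 0x40004000100060, nat_lit 0x111120, nat_lit 0, nat_lit 4, nat_lit 0x48⟩ (t14_6792) (t14_14984)))) (.node ⟨nat_lit 6, nat_lit 0x200010, nat_lit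 0x221101, nat_lit 1, nat_lit 4, nat_lit 0x4a⟩ (.node ⟨nat_lit 6, nat_lit 0xc0030, nat_lit 0x112011, nat_lit 3, nat_lit 4, nat_lit 0x48⟩ (.node ⟨nat_lit 6, nat_lit 0x800300038, nat_lit 0x101113, nat_lit 2, nat_lit 4, nat_lit 0x46⟩ (t14_1672) (t14_9864)) (.node ⟨nat_lit 8, nat_lit 0x800040004000400020, nat_lit 0x202102, nat_lit 0, nat_lit 4, nat_lit 0x4a⟩ (t14_5768) (t14_13960))) (.node ⟨nat_lit 7, nat_lit 0x200040004800300070, nat_lit 0x1202021, nat_lit 0, nat_lit 4, nat_lit 0x47⟩ (.node ⟨nat_lit 7, nat_lit 0x1000600070, nat_lit 0x1011003, nat_lit 2, nat_lit 4, nat_lit 0x48⟩ (t14_3720) (t14_11912)) (.node ⟨nat_lit 5, nat_lit 0x1000100010, nat_lit 0x11222, nat_lit 2, nat_lit 3, nat_lit 0x47⟩ (t14_7816) (.nil)))))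
def t14_392 : Tr := .node ⟨nat_lit 6, nat_lit 0x2000100010, nat_lit 0x11311, nat_lit 0, nat_lit 4, nat_lit 0x48⟩ (.nil) (.nil)
def t14_8584 : Tr := .node ⟨nat_lit 7, nat_lit 0x20004000100044, nat_lit 0x111, nat_lit 1, nat_lit 4, nat_lit 0x46⟩ (.nil) (.nil)
def t14_4488 : Tr := .node ⟨nat_lit 7, nat_lit 0x40001000100060, nat_lit 0x1112101, nat_lit 2, nat_lit 4, nat_lit 0x49⟩ (.nil) (.nil)
def t14_12680 : Tr := .node ⟨nat_lit 6, nat_lit 0x2000080030, nat_lit 0x101310, nat_lit 2, nat_lit 4, nat_lit 0x48⟩ (.nil) (.nil)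
def t14_2440 : Tr := .node ⟨nat_lit 7, nat_lit 0x40004800300060, nat_lit 0x1112020, nat_lit 0, nat_lit 4, nat_lit 0x48⟩ (.nil) (.nil)
def t14_10632 : Tr := .node ⟨nat_lit 7, nat_lit 0x10002000500060, nat_lit 0x102, nat_lit 2, nat_lit 4, nat_lit 0x46⟩ (.nil) (.nil)
def t14_6536 : Tr := .node ⟨nat_lit 7, nat_lit 0x600018, nat_lit 0x1010111, nat_lit 3, nat_lit 4, nat_lit 0x49⟩ (.nil) (.nil)
def t14_14728 : Tr := .node ⟨nat_lit 7, nat_lit 0x40002000200010, nat_lit 0x10112, nat_lit 1, nat_lit 4, nat_lit 0x48⟩ (.nil) (.nil)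
def t14_1416 : Tr := .node ⟨nat_lit 8, nat_lit 0x400080002000c000c0, nat_lit 0x111130, nat_lit 0, nat_lit 4, nat_lit 0x48⟩ (.nil) (.nil)
def t14_9608 : Tr := .node ⟨nat_lit 7, nat_lit 0x400050005000600070, nat_lit 0x10020, nat_lit 1, nat_lit 4, nat_lit 0x45⟩ (.nil) (.nil)
def t14_5512 : Tr := .node ⟨nat_lit 8, nat_lit 0x4000a000c0, nat_lit 0x11013, nat_lit 1, nat_lit 4, nat_lit 0x49⟩ (.nil) (.nil)
def t14_13704 : Tr := .node ⟨nat_lit 6, nat_lit 0x20001000100028, nat_lit 0x201000, nat_lit 0, nat_lit 4, nat_lit 0x46⟩ (.nil) (.nil)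
def t14_3464 : Tr := .node ⟨nat_lit 7, nat_lit 0x40002000200060, nat_lit 0x10311, nat_lit 0, nat_lit 4, nat_lit 0x48⟩ (.nil) (.nil)
def t14_11656 : Tr := .node ⟨nat_lit 5, nat_lit 0x1000180018, nat_lit 0x310, nat_lit 6, nat_lit 4, nat_lit 0x46⟩ (.nil) (.nil)
def t14_7560 : Tr := .node ⟨nat_lit 6, nat_lit 0x800300028, nat_lit 0x204, nat_lit 1, nat_lit 4, nat_lit 0x46⟩ (.nil) (.nil)
def t14_904 : Tr := .node ⟨nat_lit 6, nat_lit 0x20002000100030, nat_lit 0x12112, nat_lit 6, nat_lit 4, nat_lit 0x48⟩ (.nil) (.nil)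
def t14_9096 : Tr := .node ⟨nat_lit 9, nat_lit 0x10001000080011001200180, nat_lit 0x1110101, nat_lit 4, nat_lit 4, nat_lit 0x49⟩ (.nil) (.nil)
def t14_5000 : Tr := .node ⟨nat_lit 6, nat_lit 0x280030, nat_lit 0x11103, nat_lit 1, nat_lit 4, nat_lit 0x47⟩ (.nil) (.nil)
def t14_13192 : Tr := .node ⟨nat_lit 6, nat_lit 0x200030, nat_lit 3, nat_lit 0, nat_lit 4, nat_lit 0x46⟩ (.nil) (.nil)
def t14_2952 : Tr := .node ⟨nat_lit 6, nat_lit 0x2000200030, nat_lit 0x21211, nat_lit 4, nat_lit 4, nat_lit 0x49⟩ (.nil) (.nil)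
def t14_11144 : Tr := .node ⟨nat_lit 7, nat_lit 0x10001000600060, nat_lit 0x1010030, nat_lit 1, nat_lit 4, nat_lit 0x47⟩ (.nil) (.nil)
def t14_7048 : Tr := .node ⟨nat_lit 7, nat_lit 0x40004000100060, nat_lit 0x1012111, nat_lit 2, nat_lit 4, nat_lit 0x49⟩ (.nil) (.nil)
def t14_15240 : Tr := .node ⟨nat_lit 7, nat_lit 0x800500060, nat_lit 0x1110212, nat_lit 0, nat_lit 4, nat_lit 0x48⟩ (.nil) (.nil)
def t14_1928 : Tr := .node ⟨nat_lit 7, nat_lit 0x6000480070, nat_lit 0x20112, nat_lit 0, nat_lit 4, nat_lit 0x46⟩ (.nil) (.nil)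
def t14_10120 : Tr := .node ⟨nat_lit 7, nat_lit 0x20004000600060, nat_lit 0x12120, nat_lit 4, nat_lit 4, nat_lit 0x48⟩ (.nil) (.nil)
def t14_6024 : Tr := .node ⟨nat_lit 6, nat_lit 0x30, nat_lit 0x112210, nat_lit 0, nat_lit 4, nat_lit 0x4a⟩ (.nil) (.nil)
def t14_14216 : Tr := .node ⟨nat_lit 7, nat_lit 0x40001000100060, nat_lit 0x1000102, nat_lit 1, nat_lit 4, nat_lit 0x47⟩ (.nil) (.nil)
def t14_3976 : Tr := .node ⟨nat_lit 7, nat_lit 0x20001000500068, nat_lit 0x1102020, nat_lit 0, nat_lit 4, nat_lit 0x47⟩ (.nil) (.nil)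
def t14_12168 : Tr := .node ⟨nat_lit 8, nat_lit 0x8000c000a0, nat_lit 0x111210, nat_lit 2, nat_lit 4, nat_lit 0x4a⟩ (.nil) (.nil)
def t14_8072 : Tr := .node ⟨nat_lit 7, nat_lit 0x40001000480060, nat_lit 0x111031, nat_lit 0, nat_lit 4, nat_lit 0x47⟩ (.nil) (.nil)
def t9_392 : Tr := .node ⟨nat_lit 5, nat_lit 0x40018, nat_lit 0x30212, nat_lit 1, nat_lit 4, nat_lit 0x48⟩ (.node ⟨nat_lit 6, nat_lit 0x300030, nat_lit 0x113210, nat_lit 1, nat_lit 4, nat_lit 0x49⟩ (.node ⟨nat_lit 5, nat_lit 0x40018, nat_lit 0x21221, nat_lit 1, nat_lit 4, nat_lit 0x48⟩ (.node ⟨nat_lit 6, nat_lit 0x800300030, nat_lit 0x101221, nat_lit 2, nat_lit 4, nat_lit 0x47⟩ (.node ⟨nat_lit 6, nat_lit 0x2000300030, nat_lit 0x2021, nat_lit 1, nat_lit 4, nat_lit 0x46⟩ (t14_392) (t14_8584)) (.node ⟨nat_lit 8, nat_lit 0x800080004000900090, nat_lit 0x10120021, nat_lit 0, nat_lit 4, nat_lit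 0x4a⟩ (t14_4488) (t14_12680))) (.node ⟨nat_lit 6, nat_lit 0x800200032, nat_lit 0x220011, nat_lit 2, nat_lit 4, nat_lit 0x48⟩ (.node ⟨nat_lit 6, nat_lit 0x2000080030, nat_lit 0x121104, nat_lit 0, nat_lit 4, nat_lit 0x49⟩ (t14_2440) (t14_10632)) (.node ⟨nat_lit 6, nat_lit 0x100020, nat_lit 0x2121, nat_lit 0, nat_lit 4, nat_lit 0x48⟩ (t14_6536) (t14_14728)))) (.node ⟨nat_lit 6, nat_lit 0x1000300028, nat_lit 0x2103, nat_lit 0, nat_lit 4, nat_lit 0x46⟩ (.node ⟨nat_lit 6, nat_lit 0x2000080030, nat_lit 0x112311, nat_lit 1, nat_lit 4, nat_lit 0x49⟩ (.node ⟨nat_lit 7, nat_lit 0x40001000200020, nat_lit 0x10100, nat_lit 1, nat_lit 4, nat_lit 0x47⟩ (t14_1416) (t14_9608)) (.node ⟨nat_lit 8, nat_lit 0x400040004000800080, nat_lit 0x10121021, nat_lit 0, nat_lit 4, nat_lit 0x4a⟩ (t14_5512) (t14_13704))) (.node ⟨nat_lit 5, nat_lit 0x1000100010, nat_lit 0x2310, nat_lit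 3, nat_lit 4, nat_lit 0x48⟩ (.node ⟨nat_lit 6, nat_lit 0x800300030, nat_lit 0x2110, nat_lit 0, nat_lit 4, nat_lit 0x46⟩ (t14_3464) (t14_11656)) (.node ⟨nat_lit 7, nat_lit 0x400040002000480070, nat_lit 0x1111102, nat_lit 4, nat_lit 4, nat_lit 0x48⟩ (t14_7560) (.nil))))) (.node ⟨nat_lit 5, nat_lit 0x180018, nat_lit 0x11111, nat_lit 1, nat_lit 3, nat_lit 0x45⟩ (.node ⟨nat_lit 6, nat_lit 0x300030, nat_lit 0x2220, nat_lit 0, nat_lit 4, nat_lit 0x47⟩ (.node ⟨nat_lit 5, nat_lit 0x800100010, nat_lit 0x11010, nat_lit 0, nat_lit 3, nat_lit 0x45⟩ (.node ⟨nat_lit 6, nat_lit 0x200032, nat_lit 0x311122, nat_lit 0, nat_lit 4, nat_lit 0x4a⟩ (t14_904) (t14_9096)) (.node ⟨nat_lit 5, nat_lit 0x80010, nat_lit 0x12201, nat_lit 9, nat_lit 4, nat_lit 0x4a⟩ (t14_5000) (t14_13192))) (.node ⟨nat_lit 7, nat_lit 0x10002000500060, nat_lit 0x1011120, nat_lit 0, nat_lit 4, nat_lit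 0x47⟩ (.node ⟨nat_lit 5, nat_lit 0x80010, nat_lit 0x11221, nat_lit 5, nat_lit 4, nat_lit 0x49⟩ (t14_2952) (t14_11144)) (.node ⟨nat_lit 7, nat_lit 0x4000500060, nat_lit 0x1111122, nat_lit 0, nat_lit 4, nat_lit 0x49⟩ (t14_7048) (t14_15240)))) (.node ⟨nat_lit 6, nat_lit 0x20, nat_lit 0x21113, nat_lit 0, nat_lit 4, nat_lit 0x4a⟩ (.node ⟨nat_lit 7, nat_lit 0x1000100060, nat_lit 0x2111101, nat_lit 1, nat_lit 4, nat_lit 0x4a⟩ (.node ⟨nat_lit 7, nat_lit 0x40004800300060, nat_lit 0x1102113, nat_lit 0, nat_lit 4, nat_lit 0x48⟩ (t14_1928) (t14_10120)) (.node ⟨nat_lit 7, nat_lit 0x40004800300030, nat_lit 0x1102120, nat_lit 0, nat_lit 4, nat_lit 0x47⟩ (t14_6024) (t14_14216))) (.node ⟨nat_lit 7, nat_lit 0x400040002000200020, nat_lit 0x10311, nat_lit 1, nat_lit 4, nat_lit 0x48⟩ (.node ⟨nat_lit 6, nat_lit 0x800300028, nat_lit 0x110110, nat_lit 1, nat_lit 4, nat_lit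 0x46⟩ (t14_3976) (t14_12168)) (.node ⟨nat_lit 7, nat_lit 0x4000200060, nat_lit 0x1111111, nat_lit 0, nat_lit 3, nat_lit 0x48⟩ (t14_8072) (.nil)))))
def t14_72 : Tr := .node ⟨nat_lit 7, nat_lit 0x400060, nat_lit 0x1021111, nat_lit 3, nat_lit 4, nat_lit 0x4b⟩ (.nil) (.nil)
def t14_8264 : Tr := .node ⟨nat_lit 7, nat_lit 0x40001000500068, nat_lit 0x2102, nat_lit 0, nat_lit 4, nat_lit 0x46⟩ (.nil) (.nil)
def t14_4168 : Tr := .node ⟨nat_lit 8, nat_lit 0x800090006000c000d0, nat_lit 0x10110112, nat_lit 0, nat_lit 4, nat_lit 0x47⟩ (.nil) (.nil)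
def t14_12360 : Tr := .node ⟨nat_lit 8, nat_lit 0x80004000c000e0, nat_lit 0x111103, nat_lit 1, nat_lit 4, nat_lit 0x48⟩ (.nil) (.nil)
def t14_2120 : Tr := .node ⟨nat_lit 8, nat_lit 0x4000a0009000c0, nat_lit 0x20022, nat_lit 1, nat_lit 4, nat_lit 0x48⟩ (.nil) (.nil)
def t14_10312 : Tr := .node ⟨nat_lit 7, nat_lit 0x3000600050, nat_lit 0x3022, nat_lit 1, nat_lit 4, nat_lit 0x47⟩ (.nil) (.nil)
def t14_6216 : Tr := .node ⟨nat_lit 6, nat_lit 0x200030, nat_lit 0x11110, nat_lit 3, nat_lit 4, nat_lit 0x48⟩ (.nil) (.nil)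
def t14_14408 : Tr := .node ⟨nat_lit 7, nat_lit 0x20006000500068, nat_lit 0x2102, nat_lit 2, nat_lit 4, nat_lit 0x46⟩ (.nil) (.nil)
def t14_1096 : Tr := .node ⟨nat_lit 7, nat_lit 0x20001000400062, nat_lit 0x1012101, nat_lit 3, nat_lit 4, nat_lit 0x48⟩ (.nil) (.nil)
def t14_9288 : Tr := .node ⟨nat_lit 6, nat_lit 0x20001000100030, nat_lit 0x200221, nat_lit 1, nat_lit 3, nat_lit 0x46⟩ (.nil) (.nil)
def t14_5192 : Tr := .node ⟨nat_lit 7, nat_lit 0x200020004000400064, nat_lit 0x1031110, nat_lit 2, nat_lit 4, nat_lit 0x48⟩ (.nil) (.nil)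
def t14_13384 : Tr := .node ⟨nat_lit 7, nat_lit 0x20004000440060, nat_lit 0x203, nat_lit 0, nat_lit 4, nat_lit 0x47⟩ (.nil) (.nil)
def t14_3144 : Tr := .node ⟨nat_lit 7, nat_lit 0x40001000100060, nat_lit 0x110001, nat_lit 0, nat_lit 4, nat_lit 0x47⟩ (.nil) (.nil)
def t14_11336 : Tr := .node ⟨nat_lit 6, nat_lit 0x800300038, nat_lit 0x111302, nat_lit 0, nat_lit 4, nat_lit 0x47⟩ (.nil) (.nil)
def t14_7240 : Tr := .node ⟨nat_lit 6, nat_lit 0x800200030, nat_lit 0x102311, nat_lit 2, nat_lit 4, nat_lit 0x49⟩ (.nil) (.nil)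
def t14_15432 : Tr := .node ⟨nat_lit 0xb, nat_lit 0x2000200040004000100010004200280, nat_lit 0x10000111010, nat_lit 0, nat_lit 4, nat_lit 0x4a⟩ (.nil) (.nil)
def t14_584 : Tr := .node ⟨nat_lit 6, nat_lit 0x2000080030, nat_lit 0x2012, nat_lit 2, nat_lit 4, nat_lit 0x47⟩ (.nil) (.nil)
def t14_8776 : Tr := .node ⟨nat_lit 8, nat_lit 0x4000400080008000880060, nat_lit 0x10100001, nat_lit 1, nat_lit 4, nat_lit 0x47⟩ (.nil) (.nil)
def t14_4680 : Tr := .node ⟨nat_lit 7, nat_lit 0x40004000100060, nat_lit 0x102102, nat_lit 1, nat_lit 4, nat_lit 0x48⟩ (.nil) (.nil)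
def t14_12872 : Tr := .node ⟨nat_lit 7, nat_lit 0x20005000680070, nat_lit 0x1200, nat_lit 0, nat_lit 4, nat_lit 0x44⟩ (.nil) (.nil)
def t14_2632 : Tr := .node ⟨nat_lit 6, nat_lit 0x20001000100010, nat_lit 0x2320, nat_lit 0, nat_lit 3, nat_lit 0x46⟩ (.nil) (.nil)
def t14_10824 : Tr := .node ⟨nat_lit 5, nat_lit 0x80010001c, nat_lit 0x1102, nat_lit 7, nat_lit 4, nat_lit 0x46⟩ (.nil) (.nil)
def t14_6728 : Tr := .node ⟨nat_lit 7, nat_lit 0x4000600064, nat_lit 0x1011110, nat_lit 1, nat_lit 4, nat_lit 0x48⟩ (.nil) (.nil)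
def t14_14920 : Tr := .node ⟨nat_lit 7, nat_lit 0x4000640064, nat_lit 0x1010121, nat_lit 0, nat_lit 4, nat_lit 0x47⟩ (.nil) (.nil)
def t14_1608 : Tr := .node ⟨nat_lit 8, nat_lit 0x80009000c0006000d0, nat_lit 0x111220, nat_lit 0, nat_lit 4, nat_lit 0x46⟩ (.nil) (.nil)
def t14_9800 : Tr := .node ⟨nat_lit 6, nat_lit 0x20002000200010, nat_lit 0x3200, nat_lit 0, nat_lit 3, nat_lit 0x46⟩ (.nil) (.nil)
def t14_5704 : Tr := .node ⟨nat_lit 8, nat_lit 0x80001000a000c0, nat_lit 0x1112120, nat_lit 0, nat_lit 4, nat_lit 0x49⟩ (.nil) (.nil)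
def t14_13896 : Tr := .node ⟨nat_lit 7, nat_lit 0x10001000400060, nat_lit 0x2030, nat_lit 3, nat_lit 4, nat_lit 0x48⟩ (.nil) (.nil)
def t14_3656 : Tr := .node ⟨nat_lit 9, nat_lit 0x1000080004001800140, nat_lit 0x200021, nat_lit 1, nat_lit 4, nat_lit 0x49⟩ (.nil) (.nil)
def t14_11848 : Tr := .node ⟨nat_lit 6, nat_lit 0x2000080030, nat_lit 0x10031, nat_lit 3, nat_lit 4, nat_lit 0x47⟩ (.nil) (.nil)
def t14_7752 : Tr := .node ⟨nat_lit 5, nat_lit 0x1000140018, nat_lit 0x1202, nat_lit 9, nat_lit 4, nat_lit 0x47⟩ (.nil) (.nil)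
def t9_72 : Tr := .node ⟨nat_lit 1, nat_lit 0, nat_lit 1, nat_lit 0xb, nat_lit 3, nat_lit 0x43⟩ (.node ⟨nat_lit 5, nat_lit 0x100018, nat_lit 0x12310, nat_lit 0, nat_lit 3, nat_lit 0x47⟩ (.node ⟨nat_lit 5, nat_lit 0x180018, nat_lit 0x320, nat_lit 4, nat_lit 4, nat_lit 0x46⟩ (.node ⟨nat_lit 5, nat_lit 0x40018, nat_lit 0x20102, nat_lit 2, nat_lit 4, nat_lit 0x46⟩ (.node ⟨nat_lit 5, nat_lit 0x100018, nat_lit 0x12214, nat_lit 2, nat_lit 4, nat_lit 0x49⟩ (t14_72) (t14_8264)) (.node ⟨nat_lit 8, nat_lit 0x8000400020002000c0, nat_lit 0x1000003, nat_lit 1, nat_lit 4, nat_lit 0x48⟩ (t14_4168) (t14_12360))) (.node ⟨nat_lit 5, nat_lit 0x180018, nat_lit 0x21122, nat_lit 4, nat_lit 4, nat_lit 0x48⟩ (.node ⟨nat_lit 4, nat_lit 0x8000c, nat_lit 0x140, nat_lit 5, nat_lit 3, nat_lit 0x45⟩ (t14_2120) (t14_10312)) (.node ⟨nat_lit 5, nat_lit 0x18, nat_lit 0x22110, nat_lit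 2, nat_lit 3, nat_lit 0x48⟩ (t14_6216) (t14_14408)))) (.node ⟨nat_lit 4, nat_lit 8, nat_lit 0x2220, nat_lit 6, nat_lit 3, nat_lit 0x48⟩ (.node ⟨nat_lit 6, nat_lit 0x280030, nat_lit 0x221111, nat_lit 0, nat_lit 4, nat_lit 0x49⟩ (.node ⟨nat_lit 7, nat_lit 0x40004000100060, nat_lit 0x11131, nat_lit 0, nat_lit 4, nat_lit 0x48⟩ (t14_1096) (t14_9288)) (.node ⟨nat_lit 7, nat_lit 0x40001000600070, nat_lit 0x102013, nat_lit 3, nat_lit 4, nat_lit 0x47⟩ (t14_5192) (t14_13384))) (.node ⟨nat_lit 7, nat_lit 0x20004000680068, nat_lit 0x1120110, nat_lit 0, nat_lit 4, nat_lit 0x47⟩ (.node ⟨nat_lit 4, nat_lit 0xc, nat_lit 0x1120, nat_lit 6, nat_lit 4, nat_lit 0x47⟩ (t14_3144) (t14_11336)) (.node ⟨nat_lit 4, nat_lit 0x8000c, nat_lit 0x1102, nat_lit 7, nat_lit 4, nat_lit 0x46⟩ (t14_7240) (t14_15432))))) (.node ⟨nat_lit 5, nat_lit 0x80010, nat_lit 0x13131, nat_lit 2,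 nat_lit 4, nat_lit 0x4a⟩ (.node ⟨nat_lit 4, nat_lit 0x80004, nat_lit 0x1202, nat_lit 5, nat_lit 4, nat_lit 0x47⟩ (.node ⟨nat_lit 7, nat_lit 0x20004000400070, nat_lit 0x20112, nat_lit 0, nat_lit 4, nat_lit 0x47⟩ (.node ⟨nat_lit 4, nat_lit 0, nat_lit 0x3211, nat_lit 0xa, nat_lit 4, nat_lit 0x4b⟩ (t14_584) (t14_8776)) (.node ⟨nat_lit 7, nat_lit 0x20004000600064, nat_lit 0x1111122, nat_lit 0, nat_lit 4, nat_lit 0x48⟩ (t14_4680) (t14_12872))) (.node ⟨nat_lit 6, nat_lit 0x800080030, nat_lit 0x200002, nat_lit 1, nat_lit 4, nat_lit 0x46⟩ (.node ⟨nat_lit 6, nat_lit 0x800200032, nat_lit 0x120023, nat_lit 3, nat_lit 4, nat_lit 0x48⟩ (t14_2632) (t14_10824)) (.node ⟨nat_lit 4, nat_lit 0x40008, nat_lit 0x2211, nat_lit 7, nat_lit 3, nat_lit 0x47⟩ (t14_6728) (t14_14920)))) (.node ⟨nat_lit 6, nat_lit 0x200030, nat_lit 0x21102, nat_lit 3, nat_lit 4, nat_lit 0x49⟩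 (.node ⟨nat_lit 6, nat_lit 0x2000100024, nat_lit 0x22201, nat_lit 0, nat_lit 4, nat_lit 0x48⟩ (.node ⟨nat_lit 5, nat_lit 0x18001c, nat_lit 0x10113, nat_lit 3, nat_lit 4, nat_lit 0x45⟩ (t14_1608) (t14_9800)) (.node ⟨nat_lit 5, nat_lit 0x100010, nat_lit 0x12211, nat_lit 7, nat_lit 4, nat_lit 0x4a⟩ (t14_5704) (t14_13896))) (.node ⟨nat_lit 6, nat_lit 0x200010, nat_lit 0x22100, nat_lit 0, nat_lit 4, nat_lit 0x49⟩ (.node ⟨nat_lit 7, nat_lit 0x20004000400064, nat_lit 0x10000, nat_lit 1, nat_lit 4, nat_lit 0x46⟩ (t14_3656) (t14_11848)) (.node ⟨nat_lit 6, nat_lit 0x2000080010, nat_lit 0x111101, nat_lit 2, nat_lit 4, nat_lit 0x48⟩ (t14_7752) (.nil)))))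
def t14_328 : Tr := .node ⟨nat_lit 7, nat_lit 0x40004000200060, nat_lit 0x122111, nat_lit 0, nat_lit 4, nat_lit 0x49⟩ (.nil) (.nil)
def t14_8520 : Tr := .node ⟨nat_lit 7, nat_lit 0x20004000400044, nat_lit 0x20214, nat_lit 0, nat_lit 4, nat_lit 0x49⟩ (.nil) (.nil)
def t14_4424 : Tr := .node ⟨nat_lit 7, nat_lit 0x40002000480064, nat_lit 0x1121101, nat_lit 1, nat_lit 4, nat_lit 0x48⟩ (.nil) (.nil)
def t14_12616 : Tr := .node ⟨nat_lit 8, nat_lit 0x2000c000a00030, nat_lit 0x10011030, nat_lit 0, nat_lit 4, nat_lit 0x48⟩ (.nil) (.nil)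
def t14_2376 : Tr := .node ⟨nat_lit 7, nat_lit 0x200040004800600060, nat_lit 0x22110, nat_lit 3, nat_lit 4, nat_lit 0x47⟩ (.nil) (.nil)
def t14_10568 : Tr := .node ⟨nat_lit 6, nat_lit 0x800080030, nat_lit 0x100001, nat_lit 0, nat_lit 4, nat_lit 0x45⟩ (.nil) (.nil)
def t14_6472 : Tr := .node ⟨nat_lit 7, nat_lit 0x20004000440030, nat_lit 0x1111200, nat_lit 0, nat_lit 4, nat_lit 0x48⟩ (.nil) (.nil)
def t14_14664 : Tr := .node ⟨nat_lit 9, nat_lit 0x10001000080014001a001a0, nat_lit 0x112011, nat_lit 0, nat_lit 4, nat_lit 0x47⟩ (.nil) (.nil)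
def t14_1352 : Tr := .node ⟨nat_lit 6, nat_lit 0x10002000240018, nat_lit 0x103100, nat_lit 1, nat_lit 4, nat_lit 0x46⟩ (.nil) (.nil)
def t14_9544 : Tr := .node ⟨nat_lit 9, nat_lit 0x100010000800080014001400180, nat_lit 0x1010102, nat_lit 1, nat_lit 4, nat_lit 0x48⟩ (.nil) (.nil)
def t14_5448 : Tr := .node ⟨nat_lit 6, nat_lit 0x200010, nat_lit 0x2104, nat_lit 0, nat_lit 4, nat_lit 0x49⟩ (.nil) (.nil)
def t14_13640 : Tr := .node ⟨nat_lit 7, nat_lit 0x40001000100060, nat_lit 0x112, nat_lit 2, nat_lit 4, nat_lit 0x47⟩ (.nil) (.nil)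
def t14_3400 : Tr := .node ⟨nat_lit 7, nat_lit 0x10002000500064, nat_lit 0x200011, nat_lit 0, nat_lit 4, nat_lit 0x46⟩ (.nil) (.nil)
def t14_11592 : Tr := .node ⟨nat_lit 8, nat_lit 0x8000900060006000e0, nat_lit 0x10010103, nat_lit 0, nat_lit 4, nat_lit 0x46⟩ (.nil) (.nil)
def t14_7496 : Tr := .node ⟨nat_lit 7, nat_lit 0x6000600050, nat_lit 0x1101211, nat_lit 1, nat_lit 4, nat_lit 0x48⟩ (.nil) (.nil)
def t14_840 : Tr := .node ⟨nat_lit 6, nat_lit 0x20002000100028, nat_lit 0x12012, nat_lit 7, nat_lit 4, nat_lit 0x48⟩ (.nil) (.nil)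
def t14_9032 : Tr := .node ⟨nat_lit 7, nat_lit 0x20004000400040, nat_lit 0x211200, nat_lit 1, nat_lit 3, nat_lit 0x48⟩ (.nil) (.nil)
def t14_4936 : Tr := .node ⟨nat_lit 5, nat_lit 0x180018, nat_lit 0x10131, nat_lit 6, nat_lit 4, nat_lit 0x47⟩ (.nil) (.nil)
def t14_13128 : Tr := .node ⟨nat_lit 7, nat_lit 0x10004000200060, nat_lit 0x2000030, nat_lit 1, nat_lit 3, nat_lit 0x47⟩ (.nil) (.nil)
def t14_2888 : Tr := .node ⟨nat_lit 7, nat_lit 0x5000500060, nat_lit 0x112201, nat_lit 0, nat_lit 4, nat_lit 0x48⟩ (.nil) (.nil)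
def t14_11080 : Tr := .node ⟨nat_lit 4, nat_lit 0x8000a, nat_lit 0x112, nat_lit 9, nat_lit 4, nat_lit 0x46⟩ (.nil) (.nil)
def t14_6984 : Tr := .node ⟨nat_lit 7, nat_lit 0x4000100060, nat_lit 0x1211101, nat_lit 1, nat_lit 4, nat_lit 0x4a⟩ (.nil) (.nil)
def t14_15176 : Tr := .node ⟨nat_lit 7, nat_lit 0x10004000600050, nat_lit 0x11021, nat_lit 3, nat_lit 3, nat_lit 0x46⟩ (.nil) (.nil)
def t14_1864 : Tr := .node ⟨nat_lit 5, nat_lit 0x100018, nat_lit 0x211, nat_lit 6, nat_lit 4, nat_lit 0x47⟩ (.nil) (.nil)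
def t14_10056 : Tr := .node ⟨nat_lit 7, nat_lit 0x200020004000600060, nat_lit 0x21120, nat_lit 0, nat_lit 3, nat_lit 0x45⟩ (.nil) (.nil)
def t14_5960 : Tr := .node ⟨nat_lit 9, nat_lit 0x8000800100010400c0, nat_lit 0x101121001, nat_lit 0, nat_lit 4, nat_lit 0x4a⟩ (.nil) (.nil)
def t14_14152 : Tr := .node ⟨nat_lit 6, nat_lit 0x2000080030, nat_lit 0x11102, nat_lit 6, nat_lit 4, nat_lit 0x48⟩ (.nil) (.nil)
def t14_3912 : Tr := .node ⟨nat_lit 7, nat_lit 0x200020004000680070, nat_lit 0x111310, nat_lit 2, nat_lit 4, nat_lit 0x47⟩ (.nil) (.nil)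
def t14_12104 : Tr := .node ⟨nat_lit 7, nat_lit 0x20006000500068, nat_lit 0x110101, nat_lit 1, nat_lit 4, nat_lit 0x46⟩ (.nil) (.nil)
def t14_8008 : Tr := .node ⟨nat_lit 5, nat_lit 0x1000080014, nat_lit 0x1104, nat_lit 3, nat_lit 4, nat_lit 0x46⟩ (.nil) (.nil)
def t9_328 : Tr := .node ⟨nat_lit 7, nat_lit 0x4000100020, nat_lit 0x113011, nat_lit 1, nat_lit 4, nat_lit 0x4a⟩ (.node ⟨nat_lit 6, nat_lit 0x280030, nat_lit 0x13221, nat_lit 0, nat_lit 4, nat_lit 0x49⟩ (.node ⟨nat_lit 5, nat_lit 0x80010, nat_lit 0x12231, nat_lit 1, nat_lit 4, nat_lit 0x49⟩ (.node ⟨nat_lit 6, nat_lit 0x1000280030, nat_lit 0x101122, nat_lit 0, nat_lit 4, nat_lit 0x46⟩ (.node ⟨nat_lit 7, nat_lit 0x20002000100040, nat_lit 0x1121111, nat_lit 1, nat_lit 4, nat_lit 0x4a⟩ (t14_328) (t14_8520)) (.node ⟨nat_lit 6, nat_lit 0x2000300038, nat_lit 0x21103, nat_lit 3, nat_lit 4, nat_lit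 0x47⟩ (t14_4424) (t14_12616))) (.node ⟨nat_lit 4, nat_lit 0x80004, nat_lit 2, nat_lit 1, nat_lit 3, nat_lit 0x43⟩ (.node ⟨nat_lit 8, nat_lit 0x8000800040009000c0, nat_lit 0x1110203, nat_lit 1, nat_lit 4, nat_lit 0x49⟩ (t14_2376) (t14_10568)) (.node ⟨nat_lit 6, nat_lit 0x1000200030, nat_lit 0x12130, nat_lit 1, nat_lit 4, nat_lit 0x48⟩ (t14_6472) (t14_14664)))) (.node ⟨nat_lit 5, nat_lit 0x1000080014, nat_lit 0x21220, nat_lit 4, nat_lit 4, nat_lit 0x48⟩ (.node ⟨nat_lit 6, nat_lit 0x200030, nat_lit 0x202211, nat_lit 3, nat_lit 4, nat_lit 0x4a⟩ (.node ⟨nat_lit 8, nat_lit 0x2000800040008800c0, nat_lit 0x10001003, nat_lit 1, nat_lit 4, nat_lit 0x48⟩ (t14_1352) (t14_9544)) (.node ⟨nat_lit 7, nat_lit 0x20004000400068, nat_lit 0x122001, nat_lit 0, nat_lit 4, nat_lit 0x48⟩ (t14_5448) (t14_13640))) (.node ⟨nat_lit 9, nat_lit 0x100008000400020, nat_lit 0x120000,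 nat_lit 2, nat_lit 4, nat_lit 0x4b⟩ (.node ⟨nat_lit 7, nat_lit 0x1000500060, nat_lit 0x1002130, nat_lit 0, nat_lit 4, nat_lit 0x48⟩ (t14_3400) (t14_11592)) (.node ⟨nat_lit 7, nat_lit 0x40001000600060, nat_lit 0x11110, nat_lit 3, nat_lit 4, nat_lit 0x47⟩ (t14_7496) (.nil))))) (.node ⟨nat_lit 4, nat_lit 8, nat_lit 0x321, nat_lit 6, nat_lit 4, nat_lit 0x48⟩ (.node ⟨nat_lit 4, nat_lit 0x40008, nat_lit 0x2211, nat_lit 7, nat_lit 4, nat_lit 0x48⟩ (.node ⟨nat_lit 5, nat_lit 0x10001a, nat_lit 0x11111, nat_lit 5, nat_lit 4, nat_lit 0x47⟩ (.node ⟨nat_lit 4, nat_lit 0x80008, nat_lit 0x121, nat_lit 5, nat_lit 3, nat_lit 0x45⟩ (t14_840) (t14_9032)) (.node ⟨nat_lit 6, nat_lit 0x200030, nat_lit 0x112221, nat_lit 2, nat_lit 4, nat_lit 0x4a⟩ (t14_4936) (t14_13128))) (.node ⟨nat_lit 7, nat_lit 0x1000500060, nat_lit 0x1101021, nat_lit 0, nat_lit 4, nat_lit 0x48⟩ (.node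 ⟨nat_lit 7, nat_lit 0x40001000480068, nat_lit 0x1012121, nat_lit 0, nat_lit 4, nat_lit 0x48⟩ (t14_2888) (t14_11080)) (.node ⟨nat_lit 4, nat_lit 0xc000c, nat_lit 0x1132, nat_lit 0xa, nat_lit 4, nat_lit 0x47⟩ (t14_6984) (t14_15176)))) (.node ⟨nat_lit 5, nat_lit 0x40018, nat_lit 0x21110, nat_lit 3, nat_lit 4, nat_lit 0x47⟩ (.node ⟨nat_lit 6, nat_lit 0x1000280030, nat_lit 0x202131, nat_lit 0, nat_lit 4, nat_lit 0x48⟩ (.node ⟨nat_lit 8, nat_lit 0x200020008000c0, nat_lit 0x10011031, nat_lit 2, nat_lit 4, nat_lit 0x4a⟩ (t14_1864) (t14_10056)) (.node ⟨nat_lit 6, nat_lit 0x1000200032, nat_lit 0x12120, nat_lit 0, nat_lit 4, nat_lit 0x47⟩ (t14_5960) (t14_14152))) (.node ⟨nat_lit 7, nat_lit 0x20005000680070, nat_lit 0x1211, nat_lit 0, nat_lit 4, nat_lit 0x44⟩ (.node ⟨nat_lit 6, nat_lit 0x3000300028, nat_lit 0x1004, nat_lit 2, nat_lit 4, nat_lit 0x46⟩ (t14_3912)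 (t14_12104)) (.node ⟨nat_lit 7, nat_lit 0x4000100060, nat_lit 0x1002211, nat_lit 0, nat_lit 4, nat_lit 0x49⟩ (t14_8008) (.nil)))))
def t14_200 : Tr := .node ⟨nat_lit 7, nat_lit 0x40002000480060, nat_lit 0x121121, nat_lit 2, nat_lit 4, nat_lit 0x48⟩ (.nil) (.nil)
def t14_8392 : Tr := .node ⟨nat_lit 7, nat_lit 0x4000200010, nat_lit 0x11003, nat_lit 2, nat_lit 3, nat_lit 0x48⟩ (.nil) (.nil)
def t14_4296 : Tr := .node ⟨nat_lit 7, nat_lit 0x40004000400040, nat_lit 0x212110, nat_lit 0, nat_lit 3, nat_lit 0x48⟩ (.nil) (.nil)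
def t14_12488 : Tr := .node ⟨nat_lit 7, nat_lit 0x40001000100060, nat_lit 0x3001, nat_lit 1, nat_lit 4, nat_lit 0x47⟩ (.nil) (.nil)
def t14_2248 : Tr := .node ⟨nat_lit 7, nat_lit 0x400040004000200050, nat_lit 0x122001, nat_lit 3, nat_lit 4, nat_lit 0x49⟩ (.nil) (.nil)
def t14_10440 : Tr := .node ⟨nat_lit 7, nat_lit 0x10001000500060, nat_lit 0x201002, nat_lit 0, nat_lit 4, nat_lit 0x47⟩ (.nil) (.nil)
def t14_6344 : Tr := .node ⟨nat_lit 7, nat_lit 0x40002000500064, nat_lit 0x103110, nat_lit 1, nat_lit 4, nat_lit 0x47⟩ (.nil) (.nil)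
def t14_14536 : Tr := .node ⟨nat_lit 8, nat_lit 0x80008800c000c8, nat_lit 0x102012, nat_lit 0, nat_lit 4, nat_lit 0x48⟩ (.nil) (.nil)
def t14_1224 : Tr := .node ⟨nat_lit 5, nat_lit 0x100008, nat_lit 0x1142, nat_lit 2, nat_lit 4, nat_lit 0x48⟩ (.nil) (.nil)
def t14_9416 : Tr := .node ⟨nat_lit 7, nat_lit 0x20006000600050, nat_lit 0x1002220, nat_lit 0, nat_lit 4, nat_lit 0x47⟩ (.nil) (.nil)
def t14_5320 : Tr := .node ⟨nat_lit 5, nat_lit 0x100018, nat_lit 0x12120, nat_lit 7, nat_lit 4, nat_lit 0x49⟩ (.nil) (.nil)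
def t14_13512 : Tr := .node ⟨nat_lit 7, nat_lit 0x40004000200020, nat_lit 0x10000, nat_lit 1, nat_lit 4, nat_lit 0x47⟩ (.nil) (.nil)
def t14_3272 : Tr := .node ⟨nat_lit 7, nat_lit 0x400040004000200050, nat_lit 0x121001, nat_lit 5, nat_lit 4, nat_lit 0x49⟩ (.nil) (.nil)
def t14_11464 : Tr := .node ⟨nat_lit 6, nat_lit 0x10002000200034, nat_lit 0x101010, nat_lit 6, nat_lit 4, nat_lit 0x47⟩ (.nil) (.nil)
def t14_7368 : Tr := .node ⟨nat_lit 7, nat_lit 0x4000100060, nat_lit 0x1013101, nat_lit 2, nat_lit 4, nat_lit 0x4a⟩ (.nil) (.nil)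
def t14_15560 : Tr := .node ⟨nat_lit 5, nat_lit 0x10, nat_lit 0x12111, nat_lit 0xb, nat_lit 4, nat_lit 0x4b⟩ (.nil) (.nil)
def t14_712 : Tr := .node ⟨nat_lit 5, nat_lit 0x100018, nat_lit 0x241, nat_lit 4, nat_lit 4, nat_lit 0x48⟩ (.nil) (.nil)
def t14_8904 : Tr := .node ⟨nat_lit 7, nat_lit 0x40002000480060, nat_lit 0x112120, nat_lit 0, nat_lit 4, nat_lit 0x48⟩ (.nil) (.nil)
def t14_4808 : Tr := .node ⟨nat_lit 8, nat_lit 0x8000400020009000c0, nat_lit 0x10012002, nat_lit 0, nat_lit 4, nat_lit 0x48⟩ (.nil) (.nil)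
def t14_13000 : Tr := .node ⟨nat_lit 6, nat_lit 0x2000240030, nat_lit 0x2300, nat_lit 3, nat_lit 4, nat_lit 0x48⟩ (.nil) (.nil)
def t14_2760 : Tr := .node ⟨nat_lit 7, nat_lit 0x40002000500068, nat_lit 0x112110, nat_lit 1, nat_lit 4, nat_lit 0x47⟩ (.nil) (.nil)
def t14_10952 : Tr := .node ⟨nat_lit 8, nat_lit 0x8000800040004000a000a0, nat_lit 0x12010, nat_lit 2, nat_lit 4, nat_lit 0x47⟩ (.nil) (.nil)
def t14_6856 : Tr := .node ⟨nat_lit 7, nat_lit 0x4000440060, nat_lit 0x11310, nat_lit 2, nat_lit 4, nat_lit 0x49⟩ (.nil) (.nil)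
def t14_15048 : Tr := .node ⟨nat_lit 6, nat_lit 0x1800280030, nat_lit 0x111112, nat_lit 3, nat_lit 4, nat_lit 0x47⟩ (.nil) (.nil)
def t14_1736 : Tr := .node ⟨nat_lit 8, nat_lit 0x400040008000d000d0, nat_lit 0x1111021, nat_lit 1, nat_lit 4, nat_lit 0x48⟩ (.nil) (.nil)
def t14_9928 : Tr := .node ⟨nat_lit 7, nat_lit 0x10001000600060, nat_lit 0x1033, nat_lit 0, nat_lit 4, nat_lit 0x46⟩ (.nil) (.nil)
def t14_5832 : Tr := .node ⟨nat_lit 7, nat_lit 0x100060, nat_lit 0x11102, nat_lit 1, nat_lit 4, nat_lit 0x49⟩ (.nil) (.nil)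
def t14_14024 : Tr := .node ⟨nat_lit 7, nat_lit 0x20004000100068, nat_lit 0x110210, nat_lit 3, nat_lit 4, nat_lit 0x48⟩ (.nil) (.nil)
def t14_3784 : Tr := .node ⟨nat_lit 9, nat_lit 0x10001000080008001200180, nat_lit 0x2001002, nat_lit 1, nat_lit 4, nat_lit 0x49⟩ (.nil) (.nil)
def t14_11976 : Tr := .node ⟨nat_lit 8, nat_lit 0x800020004000a000c0, nat_lit 0x1020220, nat_lit 0, nat_lit 4, nat_lit 0x48⟩ (.nil) (.nil)
def t14_7880 : Tr := .node ⟨nat_lit 7, nat_lit 0x20002000500068, nat_lit 0x2011, nat_lit 0, nat_lit 4, nat_lit 0x46⟩ (.nil) (.nil)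
def t9_200 : Tr := .node ⟨nat_lit 4, nat_lit 0, nat_lit 0x3221, nat_lit 3, nat_lit 4, nat_lit 0x4a⟩ (.node ⟨nat_lit 6, nat_lit 0x2000080030, nat_lit 0x113122, nat_lit 0, nat_lit 4, nat_lit 0x49⟩ (.node ⟨nat_lit 7, nat_lit 0x40002000200060, nat_lit 0x30211, nat_lit 2, nat_lit 4, nat_lit 0x49⟩ (.node ⟨nat_lit 7, nat_lit 0x1000080060, nat_lit 0x2100003, nat_lit 2, nat_lit 4, nat_lit 0x49⟩ (.node ⟨nat_lit 4, nat_lit 0x8000e, nat_lit 0x2022, nat_lit 5, nat_lit 4, nat_lit 0x46⟩ (t14_200) (t14_8392)) (.node ⟨nat_lit 6, nat_lit 0x2000100030, nat_lit 0x11203, nat_lit 3, nat_lit 4, nat_lit 0x48⟩ (t14_4296) (t14_12488))) (.node ⟨nat_lit 6, nat_lit 0x200030, nat_lit 0x122113, nat_lit 1, nat_lit 4, nat_lit 0x4a⟩ (.node ⟨nat_lit 6, nat_lit 0x20002000100038, nat_lit 0x12113, nat_lit 4, nat_lit 4, nat_lit 0x47⟩ (t14_2248) (t14_10440)) (.node ⟨nat_lit 7, nat_lit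 0x4000400060, nat_lit 0x122102, nat_lit 2, nat_lit 4, nat_lit 0x4a⟩ (t14_6344) (t14_14536)))) (.node ⟨nat_lit 6, nat_lit 0x800100020, nat_lit 0x211110, nat_lit 1, nat_lit 4, nat_lit 0x48⟩ (.node ⟨nat_lit 8, nat_lit 0x20001000c0, nat_lit 0x21011011, nat_lit 1, nat_lit 4, nat_lit 0x4b⟩ (.node ⟨nat_lit 4, nat_lit 0x8000c, nat_lit 0x1103, nat_lit 9, nat_lit 4, nat_lit 0x47⟩ (t14_1224) (t14_9416)) (.node ⟨nat_lit 7, nat_lit 0x1800500060, nat_lit 0x211211, nat_lit 1, nat_lit 4, nat_lit 0x48⟩ (t14_5320) (t14_13512))) (.node ⟨nat_lit 6, nat_lit 0x2000080030, nat_lit 0x101230, nat_lit 1, nat_lit 4, nat_lit 0x48⟩ (.node ⟨nat_lit 6, nat_lit 0x2000080034, nat_lit 0x121001, nat_lit 2, nat_lit 4, nat_lit 0x47⟩ (t14_3272) (t14_11464)) (.node ⟨nat_lit 6, nat_lit 0x800080030, nat_lit 0x110102, nat_lit 5, nat_lit 4, nat_lit 0x48⟩ (t14_7368) (t14_15560))))) (.node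 ⟨nat_lit 5, nat_lit 0x100018, nat_lit 0x11311, nat_lit 3, nat_lit 4, nat_lit 0x48⟩ (.node ⟨nat_lit 5, nat_lit 0x80010, nat_lit 0x11211, nat_lit 1, nat_lit 4, nat_lit 0x47⟩ (.node ⟨nat_lit 6, nat_lit 0x800280030, nat_lit 0x21220, nat_lit 0, nat_lit 4, nat_lit 0x47⟩ (.node ⟨nat_lit 7, nat_lit 0x40002000100060, nat_lit 0x1120102, nat_lit 1, nat_lit 4, nat_lit 0x49⟩ (t14_712) (t14_8904)) (.node ⟨nat_lit 7, nat_lit 0x400020002000500050, nat_lit 0x112021, nat_lit 1, nat_lit 4, nat_lit 0x47⟩ (t14_4808) (t14_13000))) (.node ⟨nat_lit 5, nat_lit 0x18, nat_lit 0x10111, nat_lit 3, nat_lit 4, nat_lit 0x47⟩ (.node ⟨nat_lit 8, nat_lit 0x400080001000e0, nat_lit 0x11100103, nat_lit 1, nat_lit 4, nat_lit 0x49⟩ (t14_2760) (t14_10952)) (.node ⟨nat_lit 7, nat_lit 0x40004c0070, nat_lit 0x1101012, nat_lit 0, nat_lit 4, nat_lit 0x47⟩ (t14_6856) (t14_15048)))) (.node ⟨nat_lit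 3, nat_lit 0x40004, nat_lit 0x131, nat_lit 7, nat_lit 3, nat_lit 0x45⟩ (.node ⟨nat_lit 5, nat_lit 0x1000180018, nat_lit 0x10121, nat_lit 3, nat_lit 3, nat_lit 0x44⟩ (.node ⟨nat_lit 6, nat_lit 0x2000300028, nat_lit 0x1014, nat_lit 4, nat_lit 4, nat_lit 0x47⟩ (t14_1736) (t14_9928)) (.node ⟨nat_lit 8, nat_lit 0x800080008000a000a00090, nat_lit 0x2110201, nat_lit 2, nat_lit 4, nat_lit 0x49⟩ (t14_5832) (t14_14024))) (.node ⟨nat_lit 7, nat_lit 0x1000500060, nat_lit 0x1102101, nat_lit 0, nat_lit 4, nat_lit 0x48⟩ (.node ⟨nat_lit 6, nat_lit 0x800300028, nat_lit 0x1203, nat_lit 3, nat_lit 4, nat_lit 0x47⟩ (t14_3784) (t14_11976)) (.node ⟨nat_lit 8, nat_lit 0x10002000c000c0, nat_lit 0x10111121, nat_lit 0, nat_lit 4, nat_lit 0x49⟩ (t14_7880) (.nil)))))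
def t14_456 : Tr := .node ⟨nat_lit 7, nat_lit 0x40002000600068, nat_lit 0x1111021, nat_lit 1, nat_lit 4, nat_lit 0x48⟩ (.nil) (.nil)
def t14_8648 : Tr := .node ⟨nat_lit 8, nat_lit 0x400080002000200088, nat_lit 0x1001, nat_lit 1, nat_lit 4, nat_lit 0x47⟩ (.nil) (.nil)
def t14_4552 : Tr := .node ⟨nat_lit 7, nat_lit 0x10004000600060, nat_lit 0x100221, nat_lit 4, nat_lit 4, nat_lit 0x48⟩ (.nil) (.nil)
def t14_12744 : Tr := .node ⟨nat_lit 6, nat_lit 0x2000080030, nat_lit 0x20220, nat_lit 0, nat_lit 4, nat_lit 0x47⟩ (.nil) (.nil)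
def t14_2504 : Tr := .node ⟨nat_lit 7, nat_lit 0x20002000400060, nat_lit 0x21121, nat_lit 0, nat_lit 4, nat_lit 0x48⟩ (.nil) (.nil)
def t14_10696 : Tr := .node ⟨nat_lit 6, nat_lit 0x280030, nat_lit 0x1102, nat_lit 3, nat_lit 4, nat_lit 0x47⟩ (.nil) (.nil)
def t14_6600 : Tr := .node ⟨nat_lit 7, nat_lit 0x10002000400060, nat_lit 0x100220, nat_lit 2, nat_lit 4, nat_lit 0x48⟩ (.nil) (.nil)
def t14_14792 : Tr := .node ⟨nat_lit 7, nat_lit 0x40004000200060, nat_lit 0x111122, nat_lit 2, nat_lit 4, nat_lit 0x49⟩ (.nil) (.nil)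
def t14_1480 : Tr := .node ⟨nat_lit 7, nat_lit 0x400040002000480070, nat_lit 0x1011300, nat_lit 1, nat_lit 4, nat_lit 0x47⟩ (.nil) (.nil)
def t14_9672 : Tr := .node ⟨nat_lit 8, nat_lit 0x8000800040009000c0, nat_lit 0x110002, nat_lit 2, nat_lit 4, nat_lit 0x48⟩ (.nil) (.nil)
def t14_5576 : Tr := .node ⟨nat_lit 9, nat_lit 0x100010000800108, nat_lit 0x1112002, nat_lit 0, nat_lit 4, nat_lit 0x4b⟩ (.nil) (.nil)
def t14_13768 : Tr := .node ⟨nat_lit 6, nat_lit 0x2000080034, nat_lit 0x1200, nat_lit 2, nat_lit 4, nat_lit 0x46⟩ (.nil) (.nil)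
def t14_3528 : Tr := .node ⟨nat_lit 7, nat_lit 0x5000600060, nat_lit 0x1120, nat_lit 0, nat_lit 4, nat_lit 0x46⟩ (.nil) (.nil)
def t14_11720 : Tr := .node ⟨nat_lit 8, nat_lit 0x80002000c000c0, nat_lit 0x112110, nat_lit 2, nat_lit 4, nat_lit 0x49⟩ (.nil) (.nil)
def t14_7624 : Tr := .node ⟨nat_lit 7, nat_lit 0x20001000400060, nat_lit 0x211, nat_lit 0, nat_lit 4, nat_lit 0x46⟩ (.nil) (.nil)
def t14_968 : Tr := .node ⟨nat_lit 6, nat_lit 0x800080030, nat_lit 0x200103, nat_lit 1, nat_lit 4, nat_lit 0x47⟩ (.nil) (.nil)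
def t14_9160 : Tr := .node ⟨nat_lit 8, nat_lit 0x4000c000a000d000e0, nat_lit 0x12202, nat_lit 0, nat_lit 4, nat_lit 0x45⟩ (.nil) (.nil)
def t14_5064 : Tr := .node ⟨nat_lit 5, nat_lit 0x1000180018, nat_lit 0x1311, nat_lit 8, nat_lit 4, nat_lit 0x47⟩ (.nil) (.nil)
def t14_13256 : Tr := .node ⟨nat_lit 6, nat_lit 0x2000300034, nat_lit 0x1301, nat_lit 4, nat_lit 4, nat_lit 0x47⟩ (.nil) (.nil)
def t14_3016 : Tr := .node ⟨nat_lit 7, nat_lit 0x20004000400064, nat_lit 0x1013101, nat_lit 0, nat_lit 4, nat_lit 0x48⟩ (.nil) (.nil)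
def t14_11208 : Tr := .node ⟨nat_lit 8, nat_lit 0x1000c000a000a0, nat_lit 0x110120, nat_lit 1, nat_lit 4, nat_lit 0x48⟩ (.nil) (.nil)
def t14_7112 : Tr := .node ⟨nat_lit 7, nat_lit 0x4000600060, nat_lit 0x1021111, nat_lit 1, nat_lit 4, nat_lit 0x49⟩ (.nil) (.nil)
def t14_15304 : Tr := .node ⟨nat_lit 7, nat_lit 0x40002000480070, nat_lit 0x1112102, nat_lit 0, nat_lit 4, nat_lit 0x48⟩ (.nil) (.nil)
def t14_1992 : Tr := .node ⟨nat_lit 7, nat_lit 0x4000500060, nat_lit 0x121021, nat_lit 1, nat_lit 4, nat_lit 0x49⟩ (.nil) (.nil)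
def t14_10184 : Tr := .node ⟨nat_lit 6, nat_lit 0x10002000300034, nat_lit 0x100012, nat_lit 3, nat_lit 4, nat_lit 0x45⟩ (.nil) (.nil)
def t14_6088 : Tr := .node ⟨nat_lit 6, nat_lit 0x20, nat_lit 0x111110, nat_lit 0xa, nat_lit 4, nat_lit 0x4c⟩ (.nil) (.nil)
def t14_14280 : Tr := .node ⟨nat_lit 7, nat_lit 0x400040002000200050, nat_lit 0x1002003, nat_lit 0, nat_lit 4, nat_lit 0x47⟩ (.nil) (.nil)
def t14_4040 : Tr := .node ⟨nat_lit 8, nat_lit 0x80004000a000d000d0, nat_lit 0x10010121, nat_lit 2, nat_lit 4, nat_lit 0x47⟩ (.nil) (.nil)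
def t14_12232 : Tr := .node ⟨nat_lit 8, nat_lit 0x8000400090006000d0, nat_lit 0x10111102, nat_lit 0, nat_lit 4, nat_lit 0x47⟩ (.nil) (.nil)
def t14_8136 : Tr := .node ⟨nat_lit 6, nat_lit 0x2000240030, nat_lit 0x11230, nat_lit 4, nat_lit 4, nat_lit 0x48⟩ (.nil) (.nil)
def t9_456 : Tr := .node ⟨nat_lit 6, nat_lit 0x200030, nat_lit 0x13310, nat_lit 1, nat_lit 4, nat_lit 0x4a⟩ (.node ⟨nat_lit 7, nat_lit 0x10004000440064, nat_lit 0x3100022, nat_lit 0, nat_lit 4, nat_lit 0x48⟩ (.node ⟨nat_lit 5, nat_lit 0x18, nat_lit 0x21202, nat_lit 0, nat_lit 4, nat_lit 0x48⟩ (.node ⟨nat_lit 5, nat_lit 0x100018, nat_lit 0x221, nat_lit 1, nat_lit 3, nat_lit 0x45⟩ (.node ⟨nat_lit 7, nat_lit 0x4000500064, nat_lit 0x201211, nat_lit 0, nat_lit 4, nat_lit 0x48⟩ (t14_456) (t14_8648)) (.node ⟨nat_lit 7, nat_lit 0x40001000500068, nat_lit 0x1202102, nat_lit 1, nat_lit 4, nat_lit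 0x48⟩ (t14_4552) (t14_12744))) (.node ⟨nat_lit 6, nat_lit 0x1000100020, nat_lit 0x101002, nat_lit 0, nat_lit 4, nat_lit 0x47⟩ (.node ⟨nat_lit 7, nat_lit 0x4000200070, nat_lit 0x1111113, nat_lit 1, nat_lit 4, nat_lit 0x49⟩ (t14_2504) (t14_10696)) (.node ⟨nat_lit 5, nat_lit 0x800080010, nat_lit 0x20311, nat_lit 5, nat_lit 4, nat_lit 0x48⟩ (t14_6600) (t14_14792)))) (.node ⟨nat_lit 6, nat_lit 0x280030, nat_lit 0x10201, nat_lit 0, nat_lit 4, nat_lit 0x46⟩ (.node ⟨nat_lit 7, nat_lit 0x20002000100040, nat_lit 0x1122120, nat_lit 0, nat_lit 4, nat_lit 0x4a⟩ (.node ⟨nat_lit 6, nat_lit 0x800280030, nat_lit 0x10011, nat_lit 0, nat_lit 3, nat_lit 0x44⟩ (t14_1480) (t14_9672)) (.node ⟨nat_lit 7, nat_lit 0x20002000400040, nat_lit 0x1111022, nat_lit 1, nat_lit 4, nat_lit 0x4a⟩ (t14_5576) (t14_13768))) (.node ⟨nat_lit 7, nat_lit 0x40004000400020, nat_lit 0x112002,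 nat_lit 1, nat_lit 4, nat_lit 0x49⟩ (.node ⟨nat_lit 6, nat_lit 0x800280030, nat_lit 0x10001, nat_lit 2, nat_lit 4, nat_lit 0x45⟩ (t14_3528) (t14_11720)) (.node ⟨nat_lit 5, nat_lit 0x1000100018, nat_lit 0x10311, nat_lit 3, nat_lit 3, nat_lit 0x46⟩ (t14_7624) (.nil))))) (.node ⟨nat_lit 7, nat_lit 0x4000200020, nat_lit 0x131011, nat_lit 3, nat_lit 4, nat_lit 0x4b⟩ (.node ⟨nat_lit 5, nat_lit 0x80010, nat_lit 0x11122, nat_lit 0, nat_lit 4, nat_lit 0x47⟩ (.node ⟨nat_lit 6, nat_lit 0x2000080030, nat_lit 0x112021, nat_lit 0, nat_lit 4, nat_lit 0x48⟩ (.node ⟨nat_lit 6, nat_lit 0x20001000140028, nat_lit 0x222300, nat_lit 0, nat_lit 4, nat_lit 0x49⟩ (t14_968) (t14_9160)) (.node ⟨nat_lit 6, nat_lit 0x2000200020, nat_lit 0x22211, nat_lit 4, nat_lit 4, nat_lit 0x4a⟩ (t14_5064) (t14_13256))) (.node ⟨nat_lit 5, nat_lit 0x40018, nat_lit 0x11130, nat_lit 1, nat_lit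 4, nat_lit 0x47⟩ (.node ⟨nat_lit 6, nat_lit 0x2000280030, nat_lit 0x1210, nat_lit 1, nat_lit 4, nat_lit 0x46⟩ (t14_3016) (t14_11208)) (.node ⟨nat_lit 7, nat_lit 0x200040004800300068, nat_lit 0x122002, nat_lit 0, nat_lit 4, nat_lit 0x46⟩ (t14_7112) (t14_15304)))) (.node ⟨nat_lit 6, nat_lit 0x80030, nat_lit 0x110202, nat_lit 1, nat_lit 4, nat_lit 0x48⟩ (.node ⟨nat_lit 7, nat_lit 0x1000100060, nat_lit 0x2011211, nat_lit 1, nat_lit 4, nat_lit 0x4a⟩ (.node ⟨nat_lit 7, nat_lit 0x20005000500068, nat_lit 0x210311, nat_lit 1, nat_lit 4, nat_lit 0x47⟩ (t14_1992) (t14_10184)) (.node ⟨nat_lit 7, nat_lit 0x10006000600050, nat_lit 0x100210, nat_lit 0, nat_lit 4, nat_lit 0x46⟩ (t14_6088) (t14_14280))) (.node ⟨nat_lit 7, nat_lit 0x4000400020, nat_lit 0x311100, nat_lit 1, nat_lit 3, nat_lit 0x49⟩ (.node ⟨nat_lit 8, nat_lit 0x30003000a000c0, nat_lit 0x11000031, nat_lit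 0, nat_lit 4, nat_lit 0x47⟩ (t14_4040) (t14_12232)) (.node ⟨nat_lit 7, nat_lit 0x4000200060, nat_lit 0x111012, nat_lit 3, nat_lit 3, nat_lit 0x48⟩ (t14_8136) (.nil)))))
def t14_40 : Tr := .node ⟨nat_lit 6, nat_lit 0x30, nat_lit 0x101111, nat_lit 3, nat_lit 4, nat_lit 0x49⟩ (.nil) (.nil)
def t14_8232 : Tr := .node ⟨nat_lit 8, nat_lit 0x80008800c000c8, nat_lit 0x111103, nat_lit 2, nat_lit 4, nat_lit 0x48⟩ (.nil) (.nil)
def t14_4136 : Tr := .node ⟨nat_lit 8, nat_lit 0x8000800040002000c0, nat_lit 0x1111102, nat_lit 0, nat_lit 4, nat_lit 0x49⟩ (.nil) (.nil)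
def t14_12328 : Tr := .node ⟨nat_lit 6, nat_lit 0x2000200020, nat_lit 0x21420, nat_lit 0, nat_lit 3, nat_lit 0x48⟩ (.nil) (.nil)
def t14_2088 : Tr := .node ⟨nat_lit 7, nat_lit 0x200020002000400042, nat_lit 0x2031010, nat_lit 2, nat_lit 4, nat_lit 0x49⟩ (.nil) (.nil)
def t14_10280 : Tr := .node ⟨nat_lit 8, nat_lit 0x800090006000b000d0, nat_lit 0x10000220, nat_lit 0, nat_lit 4, nat_lit 0x45⟩ (.nil) (.nil)
def t14_6184 : Tr := .node ⟨nat_lit 5, nat_lit 0x100008, nat_lit 0x1111, nat_lit 4, nat_lit 4, nat_lit 0x47⟩ (.nil) (.nil)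
def t14_14376 : Tr := .node ⟨nat_lit 8, nat_lit 0x800020002000c0, nat_lit 0x11100, nat_lit 0, nat_lit 4, nat_lit 0x48⟩ (.nil) (.nil)
def t14_1064 : Tr := .node ⟨nat_lit 6, nat_lit 0x200010, nat_lit 0x1102, nat_lit 2, nat_lit 4, nat_lit 0x48⟩ (.nil) (.nil)
def t14_9256 : Tr := .node ⟨nat_lit 7, nat_lit 0x400020006000700068, nat_lit 0x22201, nat_lit 3, nat_lit 4, nat_lit 0x46⟩ (.nil) (.nil)
def t14_5160 : Tr := .node ⟨nat_lit 7, nat_lit 0x40001000600060, nat_lit 0x1310, nat_lit 0, nat_lit 4, nat_lit 0x46⟩ (.nil) (.nil)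
def t14_13352 : Tr := .node ⟨nat_lit 7, nat_lit 0x400020002800500060, nat_lit 0x31000, nat_lit 0, nat_lit 4, nat_lit 0x46⟩ (.nil) (.nil)
def t14_3112 : Tr := .node ⟨nat_lit 7, nat_lit 0x400040002000200064, nat_lit 0x1011120, nat_lit 0, nat_lit 4, nat_lit 0x47⟩ (.nil) (.nil)
def t14_11304 : Tr := .node ⟨nat_lit 7, nat_lit 0x6000500050, nat_lit 0x2120, nat_lit 5, nat_lit 4, nat_lit 0x48⟩ (.nil) (.nil)
def t14_7208 : Tr := .node ⟨nat_lit 7, nat_lit 0x10001000500060, nat_lit 0x202201, nat_lit 0, nat_lit 4, nat_lit 0x48⟩ (.nil) (.nil)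
def t14_15400 : Tr := .node ⟨nat_lit 7, nat_lit 0x4000400020, nat_lit 0x121101, nat_lit 7, nat_lit 4, nat_lit 0x4b⟩ (.nil) (.nil)
def t14_552 : Tr := .node ⟨nat_lit 5, nat_lit 0x100018, nat_lit 0x122, nat_lit 3, nat_lit 4, nat_lit 0x46⟩ (.nil) (.nil)
def t14_8744 : Tr := .node ⟨nat_lit 6, nat_lit 0x20001000100028, nat_lit 0x1001, nat_lit 2, nat_lit 4, nat_lit 0x45⟩ (.nil) (.nil)
def t14_4648 : Tr := .node ⟨nat_lit 7, nat_lit 0x40002000200048, nat_lit 0x1101102, nat_lit 0, nat_lit 4, nat_lit 0x48⟩ (.nil) (.nil)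
def t14_12840 : Tr := .node ⟨nat_lit 6, nat_lit 0x2000080030, nat_lit 0x2000, nat_lit 3, nat_lit 4, nat_lit 0x47⟩ (.nil) (.nil)
def t14_2600 : Tr := .node ⟨nat_lit 8, nat_lit 0x4000400080008000880060, nat_lit 0x10211001, nat_lit 0, nat_lit 4, nat_lit 0x48⟩ (.nil) (.nil)
def t14_10792 : Tr := .node ⟨nat_lit 9, nat_lit 0x4001000100011000600180, nat_lit 0x1012100, nat_lit 4, nat_lit 4, nat_lit 0x49⟩ (.nil) (.nil)
def t14_6696 : Tr := .node ⟨nat_lit 8, nat_lit 0x800080008000900088, nat_lit 0x1110010, nat_lit 3, nat_lit 4, nat_lit 0x49⟩ (.nil) (.nil)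
def t14_14888 : Tr := .node ⟨nat_lit 5, nat_lit 0x10001800180018, nat_lit 0x11111, nat_lit 9, nat_lit 4, nat_lit 0x47⟩ (.nil) (.nil)
def t14_1576 : Tr := .node ⟨nat_lit 7, nat_lit 0x40002000500068, nat_lit 0x12101, nat_lit 0, nat_lit 4, nat_lit 0x46⟩ (.nil) (.nil)
def t14_9768 : Tr := .node ⟨nat_lit 9, nat_lit 0x80014001400180, nat_lit 0x110202, nat_lit 0, nat_lit 4, nat_lit 0x49⟩ (.nil) (.nil)
def t14_5672 : Tr := .node ⟨nat_lit 6, nat_lit 0x2000080030, nat_lit 0x11202, nat_lit 5, nat_lit 4, nat_lit 0x48⟩ (.nil) (.nil)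
def t14_13864 : Tr := .node ⟨nat_lit 6, nat_lit 0x20002000100028, nat_lit 0x2120, nat_lit 4, nat_lit 4, nat_lit 0x47⟩ (.nil) (.nil)
def t14_3624 : Tr := .node ⟨nat_lit 6, nat_lit 0x280030, nat_lit 0x12101, nat_lit 2, nat_lit 4, nat_lit 0x48⟩ (.nil) (.nil)
def t14_11816 : Tr := .node ⟨nat_lit 6, nat_lit 0x30000c, nat_lit 0x201013, nat_lit 1, nat_lit 4, nat_lit 0x47⟩ (.nil) (.nil)
def t14_7720 : Tr := .node ⟨nat_lit 2, nat_lit 2, nat_lit 3, nat_lit 0xc, nat_lit 4, nat_lit 0x45⟩ (.nil) (.nil)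
def t9_40 : Tr := .node ⟨nat_lit 4, nat_lit 8, nat_lit 0x3311, nat_lit 5, nat_lit 4, nat_lit 0x4a⟩ (.node ⟨nat_lit 5, nat_lit 0x40018, nat_lit 0x21312, nat_lit 3, nat_lit 4, nat_lit 0x49⟩ (.node ⟨nat_lit 7, nat_lit 0x5000500060, nat_lit 0x104201, nat_lit 0, nat_lit 4, nat_lit 0x48⟩ (.node ⟨nat_lit 5, nat_lit 0x10001a, nat_lit 0x11201, nat_lit 4, nat_lit 4, nat_lit 0x47⟩ (.node ⟨nat_lit 7, nat_lit 0x6000600050, nat_lit 0x22103, nat_lit 1, nat_lit 4, nat_lit 0x48⟩ (t14_40) (t14_8232)) (.node ⟨nat_lit 6, nat_lit 0x2000080030, nat_lit 0x101000, nat_lit 4, nat_lit 4, nat_lit 0x47⟩ (t14_4136) (t14_12328))) (.node ⟨nat_lit 6, nat_lit 0x800080030, nat_lit 0x220102, nat_lit 4, nat_lit 4, nat_lit 0x49⟩ (.node ⟨nat_lit 5, nat_lit 0x100018, nat_lit 0x2124, nat_lit 2, nat_lit 4, nat_lit 0x48⟩ (t14_2088) (t14_10280)) (.node ⟨nat_lit 7, nat_lit 0x10006000600070,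 nat_lit 0x10102, nat_lit 0, nat_lit 4, nat_lit 0x45⟩ (t14_6184) (t14_14376)))) (.node ⟨nat_lit 6, nat_lit 0x800200030, nat_lit 0x2231, nat_lit 1, nat_lit 4, nat_lit 0x48⟩ (.node ⟨nat_lit 7, nat_lit 0x1000400060, nat_lit 0x2102011, nat_lit 1, nat_lit 4, nat_lit 0x4a⟩ (.node ⟨nat_lit 5, nat_lit 0x100018, nat_lit 0x11231, nat_lit 5, nat_lit 4, nat_lit 0x49⟩ (t14_1064) (t14_9256)) (.node ⟨nat_lit 5, nat_lit 0x1000180018, nat_lit 0x10221, nat_lit 9, nat_lit 4, nat_lit 0x47⟩ (t14_5160) (t14_13352))) (.node ⟨nat_lit 6, nat_lit 0x2000200010, nat_lit 0x23100, nat_lit 2, nat_lit 4, nat_lit 0x49⟩ (.node ⟨nat_lit 5, nat_lit 0x80010, nat_lit 0x11100, nat_lit 6, nat_lit 4, nat_lit 0x48⟩ (t14_3112) (t14_11304)) (.node ⟨nat_lit 8, nat_lit 0x800040002000c000c8, nat_lit 0x1022020, nat_lit 0, nat_lit 4, nat_lit 0x48⟩ (t14_7208) (t14_15400))))) (.node ⟨nat_lit 7, nat_lit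 0x40, nat_lit 0x321110, nat_lit 2, nat_lit 4, nat_lit 0x4d⟩ (.node ⟨nat_lit 5, nat_lit 0, nat_lit 0x22111, nat_lit 5, nat_lit 4, nat_lit 0x4b⟩ (.node ⟨nat_lit 7, nat_lit 0x4000500060, nat_lit 0x21120, nat_lit 0, nat_lit 4, nat_lit 0x48⟩ (.node ⟨nat_lit 7, nat_lit 0x400040005000500058, nat_lit 0x200201, nat_lit 1, nat_lit 4, nat_lit 0x46⟩ (t14_552) (t14_8744)) (.node ⟨nat_lit 6, nat_lit 0x2000200030, nat_lit 0x112102, nat_lit 1, nat_lit 3, nat_lit 0x47⟩ (t14_4648) (t14_12840))) (.node ⟨nat_lit 7, nat_lit 0x800600050, nat_lit 0x1000012, nat_lit 2, nat_lit 4, nat_lit 0x47⟩ (.node ⟨nat_lit 6, nat_lit 0x300030, nat_lit 0x112130, nat_lit 1, nat_lit 4, nat_lit 0x49⟩ (t14_2600) (t14_10792)) (.node ⟨nat_lit 7, nat_lit 0x4000540064, nat_lit 0x2101002, nat_lit 1, nat_lit 4, nat_lit 0x48⟩ (t14_6696) (t14_14888)))) (.node ⟨nat_lit 6, nat_lit 0x2000200010, nat_lit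 0x122001, nat_lit 1, nat_lit 4, nat_lit 0x49⟩ (.node ⟨nat_lit 6, nat_lit 0x20002000100030, nat_lit 0x22020, nat_lit 0, nat_lit 3, nat_lit 0x46⟩ (.node ⟨nat_lit 6, nat_lit 0x200038, nat_lit 0x10123, nat_lit 1, nat_lit 4, nat_lit 0x47⟩ (t14_1576) (t14_9768)) (.node ⟨nat_lit 7, nat_lit 0x1000600060, nat_lit 0x1011021, nat_lit 1, nat_lit 4, nat_lit 0x48⟩ (t14_5672) (t14_13864))) (.node ⟨nat_lit 5, nat_lit 0x80010, nat_lit 0x210, nat_lit 0, nat_lit 4, nat_lit 0x45⟩ (.node ⟨nat_lit 5, nat_lit 0x800100018, nat_lit 0x10010, nat_lit 3, nat_lit 4, nat_lit 0x45⟩ (t14_3624) (t14_11816)) (.node ⟨nat_lit 7, nat_lit 0x400020005000500028, nat_lit 0x1112200, nat_lit 0, nat_lit 4, nat_lit 0x47⟩ (t14_7720) (.nil)))))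
def t14_296 : Tr := .node ⟨nat_lit 7, nat_lit 0x4000100060, nat_lit 0x1021101, nat_lit 0, nat_lit 4, nat_lit 0x49⟩ (.nil) (.nil)
def t14_8488 : Tr := .node ⟨nat_lit 8, nat_lit 0x40008000800090006000c0, nat_lit 0x210031, nat_lit 0, nat_lit 4, nat_lit 0x47⟩ (.nil) (.nil)
def t14_4392 : Tr := .node ⟨nat_lit 9, nat_lit 0x10001000100008000400120, nat_lit 0x11111110, nat_lit 0, nat_lit 4, nat_lit 0x4a⟩ (.nil) (.nil)
def t14_12584 : Tr := .node ⟨nat_lit 8, nat_lit 0x80004000a000d000e0, nat_lit 0x101003, nat_lit 1, nat_lit 4, nat_lit 0x46⟩ (.nil) (.nil)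
def t14_2344 : Tr := .node ⟨nat_lit 9, nat_lit 0x4001000080011001900190, nat_lit 0x200002010, nat_lit 1, nat_lit 4, nat_lit 0x48⟩ (.nil) (.nil)
def t14_10536 : Tr := .node ⟨nat_lit 7, nat_lit 0x20003000500060, nat_lit 0x2201, nat_lit 1, nat_lit 4, nat_lit 0x46⟩ (.nil) (.nil)
def t14_6440 : Tr := .node ⟨nat_lit 7, nat_lit 0x4000200010, nat_lit 0x11001, nat_lit 7, nat_lit 4, nat_lit 0x4a⟩ (.nil) (.nil)
def t14_14632 : Tr := .node ⟨nat_lit 8, nat_lit 0x800080008000900090, nat_lit 0x1111111, nat_lit 3, nat_lit 4, nat_lit 0x4a⟩ (.nil) (.nil)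
def t14_1320 : Tr := .node ⟨nat_lit 8, nat_lit 0x800080004000400020, nat_lit 0x110211, nat_lit 1, nat_lit 4, nat_lit 0x49⟩ (.nil) (.nil)
def t14_9512 : Tr := .node ⟨nat_lit 9, nat_lit 0x8001000100004001100108, nat_lit 0x100011010, nat_lit 1, nat_lit 4, nat_lit 0x49⟩ (.nil) (.nil)
def t14_5416 : Tr := .node ⟨nat_lit 5, nat_lit 0x100012, nat_lit 0x1122, nat_lit 9, nat_lit 4, nat_lit 0x48⟩ (.nil) (.nil)
def t14_13608 : Tr := .node ⟨nat_lit 7, nat_lit 0x400020002800500060, nat_lit 3, nat_lit 1, nat_lit 4, nat_lit 0x45⟩ (.nil) (.nil)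
def t14_3368 : Tr := .node ⟨nat_lit 8, nat_lit 0x800080004000c000a0, nat_lit 0x120121, nat_lit 0, nat_lit 4, nat_lit 0x48⟩ (.nil) (.nil)
def t14_11560 : Tr := .node ⟨nat_lit 6, nat_lit 0x2000300030, nat_lit 0x12210, nat_lit 4, nat_lit 4, nat_lit 0x48⟩ (.nil) (.nil)
def t14_7464 : Tr := .node ⟨nat_lit 8, nat_lit 0x2000c0, nat_lit 0x10011101, nat_lit 1, nat_lit 4, nat_lit 0x4b⟩ (.nil) (.nil)
def t14_808 : Tr := .node ⟨nat_lit 6, nat_lit 0x1000100020, nat_lit 0x101302, nat_lit 0, nat_lit 4, nat_lit 0x48⟩ (.nil) (.nil)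
def t14_9000 : Tr := .node ⟨nat_lit 8, nat_lit 0x8000800040009000a000c0, nat_lit 0x1111102, nat_lit 2, nat_lit 4, nat_lit 0x48⟩ (.nil) (.nil)
def t14_4904 : Tr := .node ⟨nat_lit 8, nat_lit 0x2000400080, nat_lit 0x11111000, nat_lit 5, nat_lit 4, nat_lit 0x4c⟩ (.nil) (.nil)
def t14_13096 : Tr := .node ⟨nat_lit 5, nat_lit 0x180018, nat_lit 0x30120, nat_lit 1, nat_lit 3, nat_lit 0x46⟩ (.nil) (.nil)
def t14_2856 : Tr := .node ⟨nat_lit 6, nat_lit 0x1000280034, nat_lit 0x11120, nat_lit 2, nat_lit 4, nat_lit 0x46⟩ (.nil) (.nil)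
def t14_11048 : Tr := .node ⟨nat_lit 7, nat_lit 0x1000600060, nat_lit 0x1101220, nat_lit 0, nat_lit 4, nat_lit 0x48⟩ (.nil) (.nil)
def t14_6952 : Tr := .node ⟨nat_lit 8, nat_lit 0x8000200020009000c0, nat_lit 0x12011001, nat_lit 1, nat_lit 4, nat_lit 0x49⟩ (.nil) (.nil)
def t14_15144 : Tr := .node ⟨nat_lit 8, nat_lit 0x40004000800088005000e0, nat_lit 0x10112111, nat_lit 1, nat_lit 4, nat_lit 0x47⟩ (.nil) (.nil)
def t14_1832 : Tr := .node ⟨nat_lit 5, nat_lit 0x1000100014, nat_lit 0x2110, nat_lit 6, nat_lit 4, nat_lit 0x47⟩ (.nil) (.nil)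
def t14_10024 : Tr := .node ⟨nat_lit 4, nat_lit 0x8000c, nat_lit 0x120, nat_lit 8, nat_lit 4, nat_lit 0x46⟩ (.nil) (.nil)
def t14_5928 : Tr := .node ⟨nat_lit 5, nat_lit 0x18, nat_lit 0x114, nat_lit 1, nat_lit 4, nat_lit 0x46⟩ (.nil) (.nil)
def t14_14120 : Tr := .node ⟨nat_lit 6, nat_lit 0x1000200020, nat_lit 0x1011, nat_lit 2, nat_lit 3, nat_lit 0x46⟩ (.nil) (.nil)
def t14_3880 : Tr := .node ⟨nat_lit 6, nat_lit 0x2000280034, nat_lit 0x20201, nat_lit 3, nat_lit 4, nat_lit 0x47⟩ (.nil) (.nil)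
def t14_12072 : Tr := .node ⟨nat_lit 7, nat_lit 0x400020002800500070, nat_lit 0x1011000, nat_lit 0, nat_lit 4, nat_lit 0x45⟩ (.nil) (.nil)
def t14_7976 : Tr := .node ⟨nat_lit 8, nat_lit 0x4000400080008800600060, nat_lit 0x10110021, nat_lit 4, nat_lit 4, nat_lit 0x48⟩ (.nil) (.nil)
def t9_296 : Tr := .node ⟨nat_lit 4, nat_lit 0xc, nat_lit 0x2032, nat_lit 3, nat_lit 4, nat_lit 0x47⟩ (.node ⟨nat_lit 6, nat_lit 0x800080030, nat_lit 0x320202, nat_lit 0, nat_lit 4, nat_lit 0x49⟩ (.node ⟨nat_lit 6, nat_lit 0x20, nat_lit 0x31110, nat_lit 8, nat_lit 4, nat_lit 0x4c⟩ (.node ⟨nat_lit 4, nat_lit 0xc000c, nat_lit 0x1122, nat_lit 4, nat_lit 3, nat_lit 0x44⟩ (.node ⟨nat_lit 7, nat_lit 0x10004000200060, nat_lit 0x211021, nat_lit 1, nat_lit 4, nat_lit 0x49⟩ (t14_296) (t14_8488)) (.node ⟨nat_lit 7, nat_lit 0x4000100060, nat_lit 0x1101400, nat_lit 0, nat_lit 3, nat_lit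 0x48⟩ (t14_4392) (t14_12584))) (.node ⟨nat_lit 6, nat_lit 0x200030, nat_lit 0x202122, nat_lit 2, nat_lit 4, nat_lit 0x4a⟩ (.node ⟨nat_lit 7, nat_lit 0x40001000600050, nat_lit 0x12313, nat_lit 0, nat_lit 4, nat_lit 0x48⟩ (t14_2344) (t14_10536)) (.node ⟨nat_lit 7, nat_lit 0x10005000500060, nat_lit 0x103102, nat_lit 1, nat_lit 4, nat_lit 0x47⟩ (t14_6440) (t14_14632)))) (.node ⟨nat_lit 7, nat_lit 0x200040004800300068, nat_lit 0x2101101, nat_lit 1, nat_lit 4, nat_lit 0x47⟩ (.node ⟨nat_lit 7, nat_lit 0x1000080060, nat_lit 0x2102022, nat_lit 0, nat_lit 4, nat_lit 0x4a⟩ (.node ⟨nat_lit 7, nat_lit 0x4000200010, nat_lit 0x111003, nat_lit 0, nat_lit 3, nat_lit 0x48⟩ (t14_1320) (t14_9512)) (.node ⟨nat_lit 7, nat_lit 0x40004000600068, nat_lit 0x121022, nat_lit 2, nat_lit 4, nat_lit 0x48⟩ (t14_5416) (t14_13608))) (.node ⟨nat_lit 8, nat_lit 0x800040002000c0, nat_lit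 0x120002, nat_lit 1, nat_lit 4, nat_lit 0x49⟩ (.node ⟨nat_lit 6, nat_lit 0x1000200020, nat_lit 0x121330, nat_lit 0, nat_lit 4, nat_lit 0x4a⟩ (t14_3368) (t14_11560)) (.node ⟨nat_lit 7, nat_lit 0x40001000100060, nat_lit 0x1111102, nat_lit 3, nat_lit 4, nat_lit 0x49⟩ (t14_7464) (.nil))))) (.node ⟨nat_lit 6, nat_lit 0x2000100030, nat_lit 0x103201, nat_lit 0, nat_lit 4, nat_lit 0x48⟩ (.node ⟨nat_lit 7, nat_lit 0x200020004000300044, nat_lit 0x2010201, nat_lit 2, nat_lit 4, nat_lit 0x48⟩ (.node ⟨nat_lit 3, nat_lit 6, nat_lit 0x111, nat_lit 9, nat_lit 4, nat_lit 0x45⟩ (.node ⟨nat_lit 6, nat_lit 0x200010, nat_lit 0x22220, nat_lit 1, nat_lit 4, nat_lit 0x4a⟩ (t14_808) (t14_9000)) (.node ⟨nat_lit 6, nat_lit 0x2000080030, nat_lit 0x112022, nat_lit 3, nat_lit 4, nat_lit 0x49⟩ (t14_4904) (t14_13096))) (.node ⟨nat_lit 6, nat_lit 0x200038, nat_lit 0x110112, nat_lit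 0, nat_lit 4, nat_lit 0x47⟩ (.node ⟨nat_lit 7, nat_lit 0x4000600070, nat_lit 0x211113, nat_lit 0, nat_lit 4, nat_lit 0x48⟩ (t14_2856) (t14_11048)) (.node ⟨nat_lit 9, nat_lit 0x10000800120012001800190, nat_lit 0x11021020, nat_lit 0, nat_lit 4, nat_lit 0x48⟩ (t14_6952) (t14_15144)))) (.node ⟨nat_lit 4, nat_lit 0x8000c, nat_lit 0x1121, nat_lit 6, nat_lit 3, nat_lit 0x45⟩ (.node ⟨nat_lit 7, nat_lit 0x20004000600068, nat_lit 0x211211, nat_lit 0, nat_lit 4, nat_lit 0x48⟩ (.node ⟨nat_lit 6, nat_lit 0x2000200030, nat_lit 0x11113, nat_lit 3, nat_lit 4, nat_lit 0x48⟩ (t14_1832) (t14_10024)) (.node ⟨nat_lit 7, nat_lit 0x40004000100068, nat_lit 0x210202, nat_lit 1, nat_lit 4, nat_lit 0x48⟩ (t14_5928) (t14_14120))) (.node ⟨nat_lit 5, nat_lit 0x100018, nat_lit 0x2130, nat_lit 2, nat_lit 3, nat_lit 0x46⟩ (.node ⟨nat_lit 6, nat_lit 0x20003000300030, nat_lit 0x2300,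 nat_lit 2, nat_lit 3, nat_lit 0x44⟩ (t14_3880) (t14_12072)) (.node ⟨nat_lit 5, nat_lit 0x800100018, nat_lit 0x1211, nat_lit 7, nat_lit 4, nat_lit 0x47⟩ (t14_7976) (.nil)))))
def t14_168 : Tr := .node ⟨nat_lit 7, nat_lit 0x600050, nat_lit 0x1002111, nat_lit 1, nat_lit 4, nat_lit 0x49⟩ (.nil) (.nil)
def t14_8360 : Tr := .node ⟨nat_lit 6, nat_lit 0x20001000100028, nat_lit 0x2104, nat_lit 2, nat_lit 4, nat_lit 0x47⟩ (.nil) (.nil)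
def t14_4264 : Tr := .node ⟨nat_lit 7, nat_lit 0x20002000400060, nat_lit 0x1021120, nat_lit 2, nat_lit 4, nat_lit 0x49⟩ (.nil) (.nil)
def t14_12456 : Tr := .node ⟨nat_lit 8, nat_lit 0x40008000c000c4, nat_lit 0x10111030, nat_lit 0, nat_lit 4, nat_lit 0x49⟩ (.nil) (.nil)
def t14_2216 : Tr := .node ⟨nat_lit 6, nat_lit 0x20002000200010, nat_lit 0x12210, nat_lit 6, nat_lit 4, nat_lit 0x49⟩ (.nil) (.nil)
def t14_10408 : Tr := .node ⟨nat_lit 8, nat_lit 0x10006000c000a0, nat_lit 0x1000120, nat_lit 0, nat_lit 4, nat_lit 0x47⟩ (.nil) (.nil)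
def t14_6312 : Tr := .node ⟨nat_lit 5, nat_lit 0x1000080008, nat_lit 0x31, nat_lit 6, nat_lit 4, nat_lit 0x47⟩ (.nil) (.nil)
def t14_14504 : Tr := .node ⟨nat_lit 8, nat_lit 0x2000a000c000c0, nat_lit 0x111120, nat_lit 1, nat_lit 4, nat_lit 0x48⟩ (.nil) (.nil)
def t14_1192 : Tr := .node ⟨nat_lit 5, nat_lit 0, nat_lit 0x11000, nat_lit 1, nat_lit 4, nat_lit 0x47⟩ (.nil) (.nil)
def t14_9384 : Tr := .node ⟨nat_lit 6, nat_lit 0x200020002000280030, nat_lit 0x11101, nat_lit 0xc, nat_lit 4, nat_lit 0x48⟩ (.nil) (.nil)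
def t14_5288 : Tr := .node ⟨nat_lit 6, nat_lit 0x200020, nat_lit 0x221100, nat_lit 0, nat_lit 3, nat_lit 0x49⟩ (.nil) (.nil)
def t14_13480 : Tr := .node ⟨nat_lit 4, nat_lit 0x8000a, nat_lit 0x230, nat_lit 6, nat_lit 4, nat_lit 0x47⟩ (.nil) (.nil)
def t14_3240 : Tr := .node ⟨nat_lit 7, nat_lit 0x3000600050, nat_lit 0x1002220, nat_lit 0, nat_lit 4, nat_lit 0x47⟩ (.nil) (.nil)
def t14_11432 : Tr := .node ⟨nat_lit 7, nat_lit 0x40001000600068, nat_lit 0x1001101, nat_lit 0, nat_lit 4, nat_lit 0x46⟩ (.nil) (.nil)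
def t14_7336 : Tr := .node ⟨nat_lit 8, nat_lit 0x4000800060009000e000d0, nat_lit 0x11120101, nat_lit 0, nat_lit 4, nat_lit 0x47⟩ (.nil) (.nil)
def t14_15528 : Tr := .node ⟨nat_lit 9, nat_lit 0x1000080, nat_lit 0x2111100, nat_lit 3, nat_lit 4, nat_lit 0x4e⟩ (.nil) (.nil)
def t14_680 : Tr := .node ⟨nat_lit 5, nat_lit 0x100018, nat_lit 0x131, nat_lit 5, nat_lit 4, nat_lit 0x47⟩ (.nil) (.nil)
def t14_8872 : Tr := .node ⟨nat_lit 7, nat_lit 0x400020002000280050, nat_lit 0x1001010, nat_lit 5, nat_lit 4, nat_lit 0x47⟩ (.nil) (.nil)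
def t14_4776 : Tr := .node ⟨nat_lit 8, nat_lit 0x200040004000a000c8, nat_lit 0x10020021, nat_lit 0, nat_lit 4, nat_lit 0x47⟩ (.nil) (.nil)
def t14_12968 : Tr := .node ⟨nat_lit 2, nat_lit 2, nat_lit 0x31, nat_lit 7, nat_lit 3, nat_lit 0x45⟩ (.nil) (.nil)
def t14_2728 : Tr := .node ⟨nat_lit 7, nat_lit 0x20005000600068, nat_lit 0x102012, nat_lit 3, nat_lit 4, nat_lit 0x47⟩ (.nil) (.nil)
def t14_10920 : Tr := .node ⟨nat_lit 8, nat_lit 0x800020002000c000a0, nat_lit 0x22102, nat_lit 0, nat_lit 4, nat_lit 0x48⟩ (.nil) (.nil)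
def t14_6824 : Tr := .node ⟨nat_lit 7, nat_lit 0x60, nat_lit 0x11110, nat_lit 1, nat_lit 4, nat_lit 0x4a⟩ (.nil) (.nil)
def t14_15016 : Tr := .node ⟨nat_lit 6, nat_lit 0x3000300030, nat_lit 0x101110, nat_lit 0, nat_lit 3, nat_lit 0x45⟩ (.nil) (.nil)
def t14_1704 : Tr := .node ⟨nat_lit 7, nat_lit 0x40002000200060, nat_lit 0x12203, nat_lit 0, nat_lit 4, nat_lit 0x48⟩ (.nil) (.nil)
def t14_9896 : Tr := .node ⟨nat_lit 4, nat_lit 0x80008, nat_lit 0x220, nat_lit 0xb, nat_lit 3, nat_lit 0x46⟩ (.nil) (.nil)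
def t14_5800 : Tr := .node ⟨nat_lit 7, nat_lit 0x400060, nat_lit 0x111131, nat_lit 0, nat_lit 4, nat_lit 0x4a⟩ (.nil) (.nil)
def t14_13992 : Tr := .node ⟨nat_lit 6, nat_lit 0x800200010, nat_lit 0x1022, nat_lit 2, nat_lit 4, nat_lit 0x47⟩ (.nil) (.nil)
def t14_3752 : Tr := .node ⟨nat_lit 6, nat_lit 0x280030, nat_lit 0x121100, nat_lit 0, nat_lit 3, nat_lit 0x47⟩ (.nil) (.nil)
def t14_11944 : Tr := .node ⟨nat_lit 4, nat_lit 0x80004, nat_lit 0x13, nat_lit 7, nat_lit 4, nat_lit 0x46⟩ (.nil) (.nil)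
def t14_7848 : Tr := .node ⟨nat_lit 7, nat_lit 0x200040004000440048, nat_lit 0x1101, nat_lit 5, nat_lit 4, nat_lit 0x47⟩ (.nil) (.nil)
def t9_168 : Tr := .node ⟨nat_lit 4, nat_lit 0, nat_lit 0x3221, nat_lit 5, nat_lit 4, nat_lit 0x4a⟩ (.node ⟨nat_lit 6, nat_lit 0x300028, nat_lit 0x101312, nat_lit 3, nat_lit 4, nat_lit 0x49⟩ (.node ⟨nat_lit 5, nat_lit 0x40018, nat_lit 0, nat_lit 0, nat_lit 3, nat_lit 0x43⟩ (.node ⟨nat_lit 7, nat_lit 0x800400070, nat_lit 0x210003, nat_lit 2, nat_lit 4, nat_lit 0x48⟩ (.node ⟨nat_lit 7, nat_lit 0x10005000500060, nat_lit 0x201213, nat_lit 0, nat_lit 4, nat_lit 0x47⟩ (t14_168) (t14_8360)) (.node ⟨nat_lit 6, nat_lit 0x2000100024, nat_lit 0x11201, nat_lit 1, nat_lit 4, nat_lit 0x47⟩ (t14_4264) (t14_12456))) (.node ⟨nat_lit 5, nat_lit 0x80010, nat_lit 0x22123, nat_lit 2, nat_lit 4, nat_lit 0x4a⟩ (.node ⟨nat_lit 6, nat_lit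 0x3000300038, nat_lit 0x1203, nat_lit 3, nat_lit 4, nat_lit 0x45⟩ (t14_2216) (t14_10408)) (.node ⟨nat_lit 5, nat_lit 0x100018, nat_lit 0x1222, nat_lit 6, nat_lit 4, nat_lit 0x48⟩ (t14_6312) (t14_14504)))) (.node ⟨nat_lit 5, nat_lit 0x18, nat_lit 0x21111, nat_lit 0, nat_lit 4, nat_lit 0x47⟩ (.node ⟨nat_lit 6, nat_lit 0x800280030, nat_lit 0x211122, nat_lit 0, nat_lit 4, nat_lit 0x48⟩ (.node ⟨nat_lit 6, nat_lit 0x2000200010, nat_lit 0x11204, nat_lit 0, nat_lit 4, nat_lit 0x49⟩ (t14_1192) (t14_9384)) (.node ⟨nat_lit 6, nat_lit 0x800280030, nat_lit 0x111321, nat_lit 1, nat_lit 4, nat_lit 0x48⟩ (t14_5288) (t14_13480))) (.node ⟨nat_lit 5, nat_lit 0x800080010, nat_lit 0x1202, nat_lit 5, nat_lit 4, nat_lit 0x47⟩ (.node ⟨nat_lit 5, nat_lit 0x800100018, nat_lit 0x11103, nat_lit 8, nat_lit 4, nat_lit 0x48⟩ (t14_3240) (t14_11432)) (.node ⟨nat_lit 7, nat_lit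 0x400020005000680070, nat_lit 0x1101020, nat_lit 3, nat_lit 4, nat_lit 0x46⟩ (t14_7336) (t14_15528))))) (.node ⟨nat_lit 6, nat_lit 0x800080030, nat_lit 0x311112, nat_lit 0, nat_lit 4, nat_lit 0x49⟩ (.node ⟨nat_lit 5, nat_lit 0x40018, nat_lit 0x21113, nat_lit 0, nat_lit 4, nat_lit 0x47⟩ (.node ⟨nat_lit 6, nat_lit 0x2000200010, nat_lit 0x2102, nat_lit 0, nat_lit 4, nat_lit 0x47⟩ (.node ⟨nat_lit 5, nat_lit 0x180014, nat_lit 0x20103, nat_lit 3, nat_lit 4, nat_lit 0x47⟩ (t14_680) (t14_8872)) (.node ⟨nat_lit 7, nat_lit 0x400020002000640068, nat_lit 0x120201, nat_lit 3, nat_lit 4, nat_lit 0x47⟩ (t14_4776) (t14_12968))) (.node ⟨nat_lit 5, nat_lit 0x100018, nat_lit 0x10111, nat_lit 2, nat_lit 4, nat_lit 0x46⟩ (.node ⟨nat_lit 5, nat_lit 0x100010, nat_lit 0x12230, nat_lit 2, nat_lit 3, nat_lit 0x48⟩ (t14_2728) (t14_10920)) (.node ⟨nat_lit 7, nat_lit 0x40001000480060,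 nat_lit 0x1011122, nat_lit 2, nat_lit 4, nat_lit 0x48⟩ (t14_6824) (t14_15016)))) (.node ⟨nat_lit 6, nat_lit 0x2000080030, nat_lit 0x111311, nat_lit 0, nat_lit 4, nat_lit 0x48⟩ (.node ⟨nat_lit 7, nat_lit 0x20004000600068, nat_lit 0x112111, nat_lit 3, nat_lit 4, nat_lit 0x48⟩ (.node ⟨nat_lit 5, nat_lit 0x180014, nat_lit 0x1041, nat_lit 2, nat_lit 3, nat_lit 0x44⟩ (t14_1704) (t14_9896)) (.node ⟨nat_lit 7, nat_lit 0x4000600060, nat_lit 0x122210, nat_lit 0, nat_lit 4, nat_lit 0x49⟩ (t14_5800) (t14_13992))) (.node ⟨nat_lit 7, nat_lit 0x6000600060, nat_lit 0x20210, nat_lit 0, nat_lit 4, nat_lit 0x47⟩ (.node ⟨nat_lit 7, nat_lit 0x800500060, nat_lit 0x1000003, nat_lit 1, nat_lit 4, nat_lit 0x47⟩ (t14_3752) (t14_11944)) (.node ⟨nat_lit 8, nat_lit 0x20008000c000c0, nat_lit 0x10010221, nat_lit 0, nat_lit 4, nat_lit 0x49⟩ (t14_7848) (.nil)))))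
def t14_424 : Tr := .node ⟨nat_lit 7, nat_lit 0x20002000200040, nat_lit 0x1112111, nat_lit 0, nat_lit 4, nat_lit 0x4a⟩ (.nil) (.nil)
def t14_8616 : Tr := .node ⟨nat_lit 6, nat_lit 0x20001000280034, nat_lit 0x1110, nat_lit 4, nat_lit 4, nat_lit 0x45⟩ (.nil) (.nil)
def t14_4520 : Tr := .node ⟨nat_lit 6, nat_lit 0x20001000280028, nat_lit 0x121221, nat_lit 3, nat_lit 4, nat_lit 0x48⟩ (.nil) (.nil)
def t14_12712 : Tr := .node ⟨nat_lit 6, nat_lit 0x10002000240030, nat_lit 0x13200, nat_lit 2, nat_lit 4, nat_lit 0x47⟩ (.nil) (.nil)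
def t14_2472 : Tr := .node ⟨nat_lit 6, nat_lit 0x2000200030, nat_lit 0x12310, nat_lit 2, nat_lit 3, nat_lit 0x47⟩ (.nil) (.nil)
def t14_10664 : Tr := .node ⟨nat_lit 5, nat_lit 0x180014, nat_lit 0x110, nat_lit 4, nat_lit 4, nat_lit 0x45⟩ (.nil) (.nil)
def t14_6568 : Tr := .node ⟨nat_lit 7, nat_lit 0x4000200062, nat_lit 0x111010, nat_lit 1, nat_lit 4, nat_lit 0x48⟩ (.nil) (.nil)
def t14_14760 : Tr := .node ⟨nat_lit 8, nat_lit 0x200080006000a000c8, nat_lit 0x1010211, nat_lit 2, nat_lit 4, nat_lit 0x47⟩ (.nil) (.nil)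
def t14_1448 : Tr := .node ⟨nat_lit 9, nat_lit 0x100010000800090014001c001c0, nat_lit 0x100121011, nat_lit 0, nat_lit 4, nat_lit 0x47⟩ (.nil) (.nil)
def t14_9640 : Tr := .node ⟨nat_lit 8, nat_lit 0x800020004000a000c0, nat_lit 0x1022, nat_lit 1, nat_lit 4, nat_lit 0x47⟩ (.nil) (.nil)
def t14_5544 : Tr := .node ⟨nat_lit 8, nat_lit 0x80008000400040, nat_lit 0x111031, nat_lit 0, nat_lit 4, nat_lit 0x4a⟩ (.nil) (.nil)
def t14_13736 : Tr := .node ⟨nat_lit 7, nat_lit 0x40002000480030, nat_lit 0x1210, nat_lit 1, nat_lit 4, nat_lit 0x46⟩ (.nil) (.nil)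
def t14_3496 : Tr := .node ⟨nat_lit 6, nat_lit 0x10002000200030, nat_lit 0x102, nat_lit 0, nat_lit 3, nat_lit 0x44⟩ (.nil) (.nil)
def t14_11688 : Tr := .node ⟨nat_lit 8, nat_lit 0x800080009000e000e000e0, nat_lit 0x10011210, nat_lit 1, nat_lit 4, nat_lit 0x46⟩ (.nil) (.nil)
def t14_7592 : Tr := .node ⟨nat_lit 6, nat_lit 0x2000100010, nat_lit 0x11, nat_lit 0, nat_lit 4, nat_lit 0x46⟩ (.nil) (.nil)
def t14_936 : Tr := .node ⟨nat_lit 7, nat_lit 0x400040002000200060, nat_lit 0x121102, nat_lit 0, nat_lit 3, nat_lit 0x46⟩ (.nil) (.nil)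
def t14_9128 : Tr := .node ⟨nat_lit 0xa, nat_lit 0x2000200020001000100022002400280, nat_lit 0x11010010, nat_lit 3, nat_lit 4, nat_lit 0x49⟩ (.nil) (.nil)
def t14_5032 : Tr := .node ⟨nat_lit 7, nat_lit 0x20006000500070, nat_lit 0x11113, nat_lit 2, nat_lit 4, nat_lit 0x46⟩ (.nil) (.nil)
def t14_13224 : Tr := .node ⟨nat_lit 8, nat_lit 0x8000400020002000c8, nat_lit 0x1030000, nat_lit 1, nat_lit 4, nat_lit 0x48⟩ (.nil) (.nil)
def t14_2984 : Tr := .node ⟨nat_lit 7, nat_lit 0x40002000500068, nat_lit 0x112120, nat_lit 0, nat_lit 4, nat_lit 0x47⟩ (.nil) (.nil)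
def t14_11176 : Tr := .node ⟨nat_lit 6, nat_lit 0x1000280034, nat_lit 0x11001, nat_lit 3, nat_lit 4, nat_lit 0x46⟩ (.nil) (.nil)
def t14_7080 : Tr := .node ⟨nat_lit 6, nat_lit 0x800080030, nat_lit 0x211110, nat_lit 1, nat_lit 3, nat_lit 0x47⟩ (.nil) (.nil)
def t14_15272 : Tr := .node ⟨nat_lit 6, nat_lit 0x800300038, nat_lit 0x101212, nat_lit 3, nat_lit 4, nat_lit 0x47⟩ (.nil) (.nil)
def t14_1960 : Tr := .node ⟨nat_lit 6, nat_lit 0x800300028, nat_lit 0x2112, nat_lit 2, nat_lit 4, nat_lit 0x47⟩ (.nil) (.nil)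
def t14_10152 : Tr := .node ⟨nat_lit 6, nat_lit 0x800300030, nat_lit 0x210, nat_lit 2, nat_lit 4, nat_lit 0x45⟩ (.nil) (.nil)
def t14_6056 : Tr := .node ⟨nat_lit 9, nat_lit 0x1000100011001100110, nat_lit 0x21101110, nat_lit 0, nat_lit 4, nat_lit 0x4a⟩ (.nil) (.nil)
def t14_14248 : Tr := .node ⟨nat_lit 8, nat_lit 0x800040004000a000a000c0, nat_lit 0x11101, nat_lit 0, nat_lit 4, nat_lit 0x46⟩ (.nil) (.nil)
def t14_4008 : Tr := .node ⟨nat_lit 7, nat_lit 0x200040004000680068, nat_lit 0x1001121, nat_lit 4, nat_lit 4, nat_lit 0x47⟩ (.nil) (.nil)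
def t14_12200 : Tr := .node ⟨nat_lit 9, nat_lit 0x1000100004000400180, nat_lit 0x10121100, nat_lit 0, nat_lit 4, nat_lit 0x4a⟩ (.nil) (.nil)
def t14_8104 : Tr := .node ⟨nat_lit 7, nat_lit 0x20004000440030, nat_lit 0x1001000, nat_lit 1, nat_lit 4, nat_lit 0x46⟩ (.nil) (.nil)
def t9_424 : Tr := .node ⟨nat_lit 6, nat_lit 0x1000200020, nat_lit 0x123111, nat_lit 1, nat_lit 4, nat_lit 0x4a⟩ (.node ⟨nat_lit 5, nat_lit 0x100012, nat_lit 0x3122, nat_lit 3, nat_lit 4, nat_lit 0x48⟩ (.node ⟨nat_lit 6, nat_lit 0x1000080020, nat_lit 0x122200, nat_lit 0, nat_lit 3, nat_lit 0x48⟩ (.node ⟨nat_lit 6, nat_lit 0x2000080030, nat_lit 0x10212, nat_lit 0, nat_lit 3, nat_lit 0x45⟩ (.node ⟨nat_lit 5, nat_lit 0x40018, nat_lit 0x10210, nat_lit 1, nat_lit 4, nat_lit 0x46⟩ (t14_424) (t14_8616)) (.node ⟨nat_lit 5, nat_lit 0x100008, nat_lit 0x2202, nat_lit 9, nat_lit 4, nat_lit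 0x4a⟩ (t14_4520) (t14_12712))) (.node ⟨nat_lit 3, nat_lit 4, nat_lit 0x120, nat_lit 0xe, nat_lit 4, nat_lit 0x48⟩ (.node ⟨nat_lit 7, nat_lit 0x4000200062, nat_lit 0x111110, nat_lit 0, nat_lit 4, nat_lit 0x48⟩ (t14_2472) (t14_10664)) (.node ⟨nat_lit 6, nat_lit 0x2000200030, nat_lit 0x21212, nat_lit 4, nat_lit 4, nat_lit 0x49⟩ (t14_6568) (t14_14760)))) (.node ⟨nat_lit 6, nat_lit 0x800200030, nat_lit 0x20021, nat_lit 1, nat_lit 4, nat_lit 0x47⟩ (.node ⟨nat_lit 7, nat_lit 0x20004000100060, nat_lit 0x1121112, nat_lit 0, nat_lit 4, nat_lit 0x49⟩ (.node ⟨nat_lit 7, nat_lit 0x40004000200020, nat_lit 0x11010, nat_lit 0, nat_lit 4, nat_lit 0x47⟩ (t14_1448) (t14_9640)) (.node ⟨nat_lit 6, nat_lit 0x200030, nat_lit 0x113112, nat_lit 2, nat_lit 4, nat_lit 0x4a⟩ (t14_5544) (t14_13736))) (.node ⟨nat_lit 6, nat_lit 0x2000280030, nat_lit 0x11211, nat_lit 3, nat_lit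 4, nat_lit 0x47⟩ (.node ⟨nat_lit 6, nat_lit 0x280030, nat_lit 0x12100, nat_lit 0, nat_lit 4, nat_lit 0x47⟩ (t14_3496) (t14_11688)) (.node ⟨nat_lit 8, nat_lit 0x800020002000c0, nat_lit 0x11012101, nat_lit 1, nat_lit 4, nat_lit 0x4a⟩ (t14_7592) (.nil))))) (.node ⟨nat_lit 6, nat_lit 0x800200032, nat_lit 0x320001, nat_lit 1, nat_lit 4, nat_lit 0x48⟩ (.node ⟨nat_lit 5, nat_lit 0x180018, nat_lit 0x11210, nat_lit 0, nat_lit 3, nat_lit 0x45⟩ (.node ⟨nat_lit 6, nat_lit 0x100020, nat_lit 0x111111, nat_lit 5, nat_lit 4, nat_lit 0x4a⟩ (.node ⟨nat_lit 7, nat_lit 0x2000200040, nat_lit 0x1131101, nat_lit 1, nat_lit 4, nat_lit 0x4b⟩ (t14_936) (t14_9128)) (.node ⟨nat_lit 7, nat_lit 0x20004000440044, nat_lit 0x1020220, nat_lit 1, nat_lit 4, nat_lit 0x49⟩ (t14_5032) (t14_13224))) (.node ⟨nat_lit 6, nat_lit 0x300030, nat_lit 0x111120, nat_lit 2, nat_lit 4, nat_lit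 0x48⟩ (.node ⟨nat_lit 6, nat_lit 0x800100020, nat_lit 0x111121, nat_lit 4, nat_lit 4, nat_lit 0x49⟩ (t14_2984) (t14_11176)) (.node ⟨nat_lit 8, nat_lit 0x800088008800c0, nat_lit 0x11110202, nat_lit 0, nat_lit 4, nat_lit 0x49⟩ (t14_7080) (t14_15272)))) (.node ⟨nat_lit 4, nat_lit 0x40008, nat_lit 0x2120, nat_lit 5, nat_lit 4, nat_lit 0x47⟩ (.node ⟨nat_lit 5, nat_lit 0x1000140018, nat_lit 0x12111, nat_lit 5, nat_lit 4, nat_lit 0x47⟩ (.node ⟨nat_lit 6, nat_lit 0x800200030, nat_lit 0x110023, nat_lit 3, nat_lit 4, nat_lit 0x48⟩ (t14_1960) (t14_10152)) (.node ⟨nat_lit 8, nat_lit 0x80002000d000d000d0, nat_lit 0x20100200, nat_lit 1, nat_lit 4, nat_lit 0x47⟩ (t14_6056) (t14_14248))) (.node ⟨nat_lit 6, nat_lit 0x2000100010, nat_lit 0x2021, nat_lit 2, nat_lit 4, nat_lit 0x48⟩ (.node ⟨nat_lit 7, nat_lit 0x4000100060, nat_lit 0x10020, nat_lit 1, nat_lit 4, nat_lit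 0x48⟩ (t14_4008) (t14_12200)) (.node ⟨nat_lit 7, nat_lit 0x400020002000500050, nat_lit 0x112111, nat_lit 1, nat_lit 4, nat_lit 0x47⟩ (t14_8104) (.nil)))))
def t14_104 : Tr := .node ⟨nat_lit 7, nat_lit 0x4000100060, nat_lit 0x121111, nat_lit 0, nat_lit 4, nat_lit 0x49⟩ (.nil) (.nil)
def t14_8296 : Tr := .node ⟨nat_lit 7, nat_lit 0x40001000100060, nat_lit 0x2200, nat_lit 1, nat_lit 4, nat_lit 0x47⟩ (.nil) (.nil)
def t14_4200 : Tr := .node ⟨nat_lit 9, nat_lit 0x1000100008000800090014001c0, nat_lit 0x101112010, nat_lit 0, nat_lit 4, nat_lit 0x48⟩ (.nil) (.nil)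
def t14_12392 : Tr := .node ⟨nat_lit 7, nat_lit 0x1000400060, nat_lit 0x1110, nat_lit 0, nat_lit 4, nat_lit 0x47⟩ (.nil) (.nil)
def t14_2152 : Tr := .node ⟨nat_lit 7, nat_lit 0x40001000480060, nat_lit 0x12020, nat_lit 5, nat_lit 4, nat_lit 0x48⟩ (.nil) (.nil)
def t14_10344 : Tr := .node ⟨nat_lit 7, nat_lit 0x20005000680068, nat_lit 0x111022, nat_lit 2, nat_lit 4, nat_lit 0x46⟩ (.nil) (.nil)
def t14_6248 : Tr := .node ⟨nat_lit 4, nat_lit 0x80008, nat_lit 0x1111, nat_lit 0xb, nat_lit 4, nat_lit 0x48⟩ (.nil) (.nil)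
def t14_14440 : Tr := .node ⟨nat_lit 7, nat_lit 0x200020004000400064, nat_lit 0x11120, nat_lit 3, nat_lit 4, nat_lit 0x47⟩ (.nil) (.nil)
def t14_1128 : Tr := .node ⟨nat_lit 5, nat_lit 0x40018, nat_lit 0x11021, nat_lit 5, nat_lit 4, nat_lit 0x47⟩ (.nil) (.nil)
def t14_9320 : Tr := .node ⟨nat_lit 8, nat_lit 0x800040004000a000c8, nat_lit 0x120012, nat_lit 0, nat_lit 4, nat_lit 0x47⟩ (.nil) (.nil)
def t14_5224 : Tr := .node ⟨nat_lit 9, nat_lit 0x400100010001080180, nat_lit 0x10102011, nat_lit 1, nat_lit 4, nat_lit 0x4a⟩ (.nil) (.nil)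
def t14_13416 : Tr := .node ⟨nat_lit 7, nat_lit 0x10001000400060, nat_lit 0x103030, nat_lit 0, nat_lit 4, nat_lit 0x48⟩ (.nil) (.nil)
def t14_3176 : Tr := .node ⟨nat_lit 8, nat_lit 0x400080002000d000d0, nat_lit 0x1111021, nat_lit 0, nat_lit 4, nat_lit 0x47⟩ (.nil) (.nil)
def t14_11368 : Tr := .node ⟨nat_lit 4, nat_lit 0xc, nat_lit 0x1020, nat_lit 6, nat_lit 3, nat_lit 0x46⟩ (.nil) (.nil)
def t14_7272 : Tr := .node ⟨nat_lit 4, nat_lit 0xc, nat_lit 0x3021, nat_lit 6, nat_lit 3, nat_lit 0x47⟩ (.nil) (.nil)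
def t14_15464 : Tr := .node ⟨nat_lit 7, nat_lit 0x20001000100040, nat_lit 0x1000101, nat_lit 0xc, nat_lit 4, nat_lit 0x4a⟩ (.nil) (.nil)
def t14_616 : Tr := .node ⟨nat_lit 6, nat_lit 0x2000100030, nat_lit 0x2032, nat_lit 4, nat_lit 4, nat_lit 0x48⟩ (.nil) (.nil)
def t14_8808 : Tr := .node ⟨nat_lit 4, nat_lit 0x80008000c, nat_lit 0x104, nat_lit 8, nat_lit 4, nat_lit 0x46⟩ (.nil) (.nil)
def t14_4712 : Tr := .node ⟨nat_lit 8, nat_lit 0x800010002000c0, nat_lit 0x1110002, nat_lit 0, nat_lit 4, nat_lit 0x49⟩ (.nil) (.nil)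
def t14_12904 : Tr := .node ⟨nat_lit 9, nat_lit 0x80010001000100012000c001a0, nat_lit 0x2010000, nat_lit 1, nat_lit 4, nat_lit 0x47⟩ (.nil) (.nil)
def t14_2664 : Tr := .node ⟨nat_lit 6, nat_lit 0x300030, nat_lit 0x2040, nat_lit 0, nat_lit 4, nat_lit 0x47⟩ (.nil) (.nil)
def t14_10856 : Tr := .node ⟨nat_lit 9, nat_lit 0x1000080008000800140019001a0, nat_lit 0x2110020, nat_lit 1, nat_lit 4, nat_lit 0x47⟩ (.nil) (.nil)
def t14_6760 : Tr := .node ⟨nat_lit 7, nat_lit 0x4000600018, nat_lit 0x120110, nat_lit 1, nat_lit 4, nat_lit 0x48⟩ (.nil) (.nil)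
def t14_14952 : Tr := .node ⟨nat_lit 6, nat_lit 0x20001000300030, nat_lit 0x1021, nat_lit 5, nat_lit 4, nat_lit 0x46⟩ (.nil) (.nil)
def t14_1640 : Tr := .node ⟨nat_lit 6, nat_lit 0x2000100032, nat_lit 0x1210, nat_lit 2, nat_lit 4, nat_lit 0x46⟩ (.nil) (.nil)
def t14_9832 : Tr := .node ⟨nat_lit 9, nat_lit 0x8001000100011000c00180, nat_lit 0x210102, nat_lit 0, nat_lit 4, nat_lit 0x48⟩ (.nil) (.nil)
def t14_5736 : Tr := .node ⟨nat_lit 7, nat_lit 0x40004000600068, nat_lit 0x11122, nat_lit 2, nat_lit 4, nat_lit 0x47⟩ (.nil) (.nil)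
def t14_13928 : Tr := .node ⟨nat_lit 7, nat_lit 0x4000100060, nat_lit 0x100220, nat_lit 0, nat_lit 4, nat_lit 0x48⟩ (.nil) (.nil)
def t14_3688 : Tr := .node ⟨nat_lit 7, nat_lit 0x5000480060, nat_lit 0x211210, nat_lit 0, nat_lit 4, nat_lit 0x48⟩ (.nil) (.nil)
def t14_11880 : Tr := .node ⟨nat_lit 6, nat_lit 0x2000080030, nat_lit 0x330, nat_lit 2, nat_lit 4, nat_lit 0x47⟩ (.nil) (.nil)
def t14_7784 : Tr := .node ⟨nat_lit 9, nat_lit 0x400100008001080180, nat_lit 0x102002, nat_lit 1, nat_lit 4, nat_lit 0x49⟩ (.nil) (.nil)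
def t9_104 : Tr := .node ⟨nat_lit 4, nat_lit 0xc, nat_lit 0x2211, nat_lit 0, nat_lit 3, nat_lit 0x46⟩ (.node ⟨nat_lit 4, nat_lit 0x80008, nat_lit 0x1321, nat_lit 9, nat_lit 4, nat_lit 0x49⟩ (.node ⟨nat_lit 5, nat_lit 0x40018, nat_lit 0x10310, nat_lit 1, nat_lit 4, nat_lit 0x47⟩ (.node ⟨nat_lit 6, nat_lit 0x20002c0034, nat_lit 0x211011, nat_lit 3, nat_lit 4, nat_lit 0x47⟩ (.node ⟨nat_lit 7, nat_lit 0x4000200062, nat_lit 0x1211121, nat_lit 0, nat_lit 4, nat_lit 0x4a⟩ (t14_104) (t14_8296)) (.node ⟨nat_lit 6, nat_lit 0x40038, nat_lit 0x200002, nat_lit 0, nat_lit 4, nat_lit 0x46⟩ (t14_4200) (t14_12392))) (.node ⟨nat_lit 6, nat_lit 0x20001000100028, nat_lit 0x211210, nat_lit 1, nat_lit 4, nat_lit 0x48⟩ (.node ⟨nat_lit 6, nat_lit 0x800080030, nat_lit 0x101101, nat_lit 1, nat_lit 3, nat_lit 0x46⟩ (t14_2152) (t14_10344)) (.node ⟨nat_lit 7, nat_lit 0x4000100060,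 nat_lit 0x12221, nat_lit 0, nat_lit 4, nat_lit 0x49⟩ (t14_6248) (t14_14440)))) (.node ⟨nat_lit 6, nat_lit 0x200010, nat_lit 0x2202, nat_lit 2, nat_lit 4, nat_lit 0x49⟩ (.node ⟨nat_lit 7, nat_lit 0x400040, nat_lit 0x2111121, nat_lit 0, nat_lit 4, nat_lit 0x4c⟩ (.node ⟨nat_lit 8, nat_lit 0x20008000c0, nat_lit 0x11011031, nat_lit 0, nat_lit 4, nat_lit 0x4b⟩ (t14_1128) (t14_9320)) (.node ⟨nat_lit 6, nat_lit 0x300030, nat_lit 0x102121, nat_lit 5, nat_lit 4, nat_lit 0x49⟩ (t14_5224) (t14_13416))) (.node ⟨nat_lit 6, nat_lit 0x200020, nat_lit 0x22200, nat_lit 2, nat_lit 4, nat_lit 0x4a⟩ (.node ⟨nat_lit 6, nat_lit 0x30, nat_lit 0x102110, nat_lit 0, nat_lit 4, nat_lit 0x49⟩ (t14_3176) (t14_11368)) (.node ⟨nat_lit 5, nat_lit 0x1000080014, nat_lit 0x11112, nat_lit 6, nat_lit 4, nat_lit 0x47⟩ (t14_7272) (t14_15464))))) (.node ⟨nat_lit 5, nat_lit 0x100018, nat_lit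 0x1200, nat_lit 0, nat_lit 3, nat_lit 0x45⟩ (.node ⟨nat_lit 7, nat_lit 0x20004000100044, nat_lit 0x2000201, nat_lit 3, nat_lit 4, nat_lit 0x49⟩ (.node ⟨nat_lit 5, nat_lit 0x18, nat_lit 0x211, nat_lit 3, nat_lit 4, nat_lit 0x47⟩ (.node ⟨nat_lit 7, nat_lit 0x400060, nat_lit 0x2111120, nat_lit 0, nat_lit 4, nat_lit 0x4b⟩ (t14_616) (t14_8808)) (.node ⟨nat_lit 7, nat_lit 0x40004000200020, nat_lit 0x1112120, nat_lit 1, nat_lit 4, nat_lit 0x4a⟩ (t14_4712) (t14_12904))) (.node ⟨nat_lit 7, nat_lit 0x10004000600064, nat_lit 0x1000121, nat_lit 0, nat_lit 4, nat_lit 0x46⟩ (.node ⟨nat_lit 7, nat_lit 0x2000480070, nat_lit 0x1021013, nat_lit 1, nat_lit 4, nat_lit 0x48⟩ (t14_2664) (t14_10856)) (.node ⟨nat_lit 7, nat_lit 0x40001000100060, nat_lit 0x1102102, nat_lit 4, nat_lit 4, nat_lit 0x49⟩ (t14_6760) (t14_14952)))) (.node ⟨nat_lit 5, nat_lit 0x40018, nat_lit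 0x21021, nat_lit 4, nat_lit 4, nat_lit 0x47⟩ (.node ⟨nat_lit 6, nat_lit 0x1000200022, nat_lit 0x122020, nat_lit 0, nat_lit 4, nat_lit 0x49⟩ (.node ⟨nat_lit 6, nat_lit 0x80030, nat_lit 0x201, nat_lit 0, nat_lit 4, nat_lit 0x46⟩ (t14_1640) (t14_9832)) (.node ⟨nat_lit 7, nat_lit 0x40001000500068, nat_lit 0x202102, nat_lit 0, nat_lit 4, nat_lit 0x47⟩ (t14_5736) (t14_13928))) (.node ⟨nat_lit 5, nat_lit 0x140018, nat_lit 0x2102, nat_lit 2, nat_lit 4, nat_lit 0x46⟩ (.node ⟨nat_lit 6, nat_lit 0x800280030, nat_lit 0x1010, nat_lit 1, nat_lit 4, nat_lit 0x45⟩ (t14_3688) (t14_11880)) (.node ⟨nat_lit 3, nat_lit 6, nat_lit 0x111, nat_lit 0xb, nat_lit 4, nat_lit 0x46⟩ (t14_7784) (.nil)))))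
def t14_360 : Tr := .node ⟨nat_lit 7, nat_lit 0x40004000100060, nat_lit 0x1012131, nat_lit 0, nat_lit 4, nat_lit 0x49⟩ (.nil) (.nil)
def t14_8552 : Tr := .node ⟨nat_lit 7, nat_lit 0x40004800500068, nat_lit 0x1201, nat_lit 3, nat_lit 4, nat_lit 0x46⟩ (.nil) (.nil)
def t14_4456 : Tr := .node ⟨nat_lit 8, nat_lit 0x8000800040004000a000a0, nat_lit 0x11102100, nat_lit 2, nat_lit 4, nat_lit 0x49⟩ (.nil) (.nil)
def t14_12648 : Tr := .node ⟨nat_lit 9, nat_lit 0x100010000800090012001c001c0, nat_lit 0x101120010, nat_lit 0, nat_lit 4, nat_lit 0x47⟩ (.nil) (.nil)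
def t14_2408 : Tr := .node ⟨nat_lit 6, nat_lit 0x800280030, nat_lit 0x1220, nat_lit 3, nat_lit 4, nat_lit 0x47⟩ (.nil) (.nil)
def t14_10600 : Tr := .node ⟨nat_lit 8, nat_lit 0x10006000a000c0, nat_lit 0x11020, nat_lit 0, nat_lit 4, nat_lit 0x47⟩ (.nil) (.nil)
def t14_6504 : Tr := .node ⟨nat_lit 6, nat_lit 0x800200032, nat_lit 0x111101, nat_lit 5, nat_lit 4, nat_lit 0x48⟩ (.nil) (.nil)
def t14_14696 : Tr := .node ⟨nat_lit 6, nat_lit 0x3000300028, nat_lit 0x11111, nat_lit 2, nat_lit 3, nat_lit 0x45⟩ (.nil) (.nil)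
def t14_1384 : Tr := .node ⟨nat_lit 6, nat_lit 0x800300030, nat_lit 0x1210, nat_lit 2, nat_lit 4, nat_lit 0x46⟩ (.nil) (.nil)
def t14_9576 : Tr := .node ⟨nat_lit 9, nat_lit 0x4001000100018001900190, nat_lit 0x10220, nat_lit 1, nat_lit 4, nat_lit 0x47⟩ (.nil) (.nil)
def t14_5480 : Tr := .node ⟨nat_lit 7, nat_lit 0x40002000480030, nat_lit 0x1000301, nat_lit 1, nat_lit 4, nat_lit 0x47⟩ (.nil) (.nil)
def t14_13672 : Tr := .node ⟨nat_lit 7, nat_lit 0x1000100060, nat_lit 0x2002, nat_lit 2, nat_lit 4, nat_lit 0x48⟩ (.nil) (.nil)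
def t14_3432 : Tr := .node ⟨nat_lit 8, nat_lit 0x10002000c00030, nat_lit 0x20000001, nat_lit 1, nat_lit 4, nat_lit 0x48⟩ (.nil) (.nil)
def t14_11624 : Tr := .node ⟨nat_lit 8, nat_lit 0x800040005000a000c000e0, nat_lit 0x121101, nat_lit 1, nat_lit 4, nat_lit 0x46⟩ (.nil) (.nil)
def t14_7528 : Tr := .node ⟨nat_lit 8, nat_lit 0x400080008000200088, nat_lit 0x2200, nat_lit 5, nat_lit 4, nat_lit 0x49⟩ (.nil) (.nil)
def t14_872 : Tr := .node ⟨nat_lit 7, nat_lit 0x10005000600070, nat_lit 0x1002022, nat_lit 1, nat_lit 4, nat_lit 0x46⟩ (.nil) (.nil)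
def t14_9064 : Tr := .node ⟨nat_lit 8, nat_lit 0xc0003000a000a0, nat_lit 0x10221, nat_lit 1, nat_lit 4, nat_lit 0x47⟩ (.nil) (.nil)
def t14_4968 : Tr := .node ⟨nat_lit 6, nat_lit 0x2000300028, nat_lit 0x1301, nat_lit 7, nat_lit 4, nat_lit 0x48⟩ (.nil) (.nil)
def t14_13160 : Tr := .node ⟨nat_lit 5, nat_lit 0x1000080018, nat_lit 0x10030, nat_lit 4, nat_lit 3, nat_lit 0x45⟩ (.nil) (.nil)
def t14_2920 : Tr := .node ⟨nat_lit 8, nat_lit 0x800020004000a000c0, nat_lit 0x122110, nat_lit 0, nat_lit 4, nat_lit 0x48⟩ (.nil) (.nil)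
def t14_11112 : Tr := .node ⟨nat_lit 7, nat_lit 0x1800180060, nat_lit 0x1100201, nat_lit 2, nat_lit 4, nat_lit 0x47⟩ (.nil) (.nil)
def t14_7016 : Tr := .node ⟨nat_lit 6, nat_lit 0x10001000200030, nat_lit 0x12111, nat_lit 5, nat_lit 4, nat_lit 0x48⟩ (.nil) (.nil)
def t14_15208 : Tr := .node ⟨nat_lit 8, nat_lit 0x800040009000900090, nat_lit 0x110210, nat_lit 1, nat_lit 4, nat_lit 0x48⟩ (.nil) (.nil)
def t14_1896 : Tr := .node ⟨nat_lit 7, nat_lit 0x10004000600064, nat_lit 0x2000121, nat_lit 0, nat_lit 4, nat_lit 0x47⟩ (.nil) (.nil)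
def t14_10088 : Tr := .node ⟨nat_lit 6, nat_lit 0x20003000300038, nat_lit 0x2202, nat_lit 6, nat_lit 4, nat_lit 0x46⟩ (.nil) (.nil)
def t14_5992 : Tr := .node ⟨nat_lit 5, nat_lit 0x140018, nat_lit 0x12201, nat_lit 5, nat_lit 4, nat_lit 0x48⟩ (.nil) (.nil)
def t14_14184 : Tr := .node ⟨nat_lit 6, nat_lit 0x2000280030, nat_lit 0x12102, nat_lit 5, nat_lit 4, nat_lit 0x48⟩ (.nil) (.nil)
def t14_3944 : Tr := .node ⟨nat_lit 6, nat_lit 0x20001000100028, nat_lit 0x12000, nat_lit 1, nat_lit 4, nat_lit 0x46⟩ (.nil) (.nil)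
def t14_12136 : Tr := .node ⟨nat_lit 8, nat_lit 0x3000a0006000c0, nat_lit 0x1012101, nat_lit 1, nat_lit 4, nat_lit 0x47⟩ (.nil) (.nil)
def t14_8040 : Tr := .node ⟨nat_lit 5, nat_lit 0x100012, nat_lit 0x1113, nat_lit 5, nat_lit 4, nat_lit 0x47⟩ (.nil) (.nil)
def t9_360 : Tr := .node ⟨nat_lit 4, nat_lit 0, nat_lit 0x3311, nat_lit 7, nat_lit 4, nat_lit 0x4b⟩ (.node ⟨nat_lit 9, nat_lit 0x100008000200040, nat_lit 0x1130001, nat_lit 1, nat_lit 4, nat_lit 0x4c⟩ (.node ⟨nat_lit 3, nat_lit 0, nat_lit 0x221, nat_lit 5, nat_lit 4, nat_lit 0x47⟩ (.node ⟨nat_lit 6, nat_lit 0x2000200010, nat_lit 0x112202, nat_lit 1, nat_lit 4, nat_lit 0x49⟩ (.node ⟨nat_lit 7, nat_lit 0x40002000480048, nat_lit 0x1211211, nat_lit 0, nat_lit 4, nat_lit 0x49⟩ (t14_360) (t14_8552)) (.node ⟨nat_lit 7, nat_lit 0x20004000440030, nat_lit 0x1111211, nat_lit 0, nat_lit 4, nat_lit 0x48⟩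 (t14_4456) (t14_12648))) (.node ⟨nat_lit 6, nat_lit 0x200038, nat_lit 0x210112, nat_lit 0, nat_lit 4, nat_lit 0x48⟩ (.node ⟨nat_lit 6, nat_lit 0x1000200038, nat_lit 0x101123, nat_lit 2, nat_lit 4, nat_lit 0x47⟩ (t14_2408) (t14_10600)) (.node ⟨nat_lit 3, nat_lit 4, nat_lit 0x34, nat_lit 2, nat_lit 3, nat_lit 0x45⟩ (t14_6504) (t14_14696)))) (.node ⟨nat_lit 6, nat_lit 0x1000200022, nat_lit 0x201020, nat_lit 0, nat_lit 4, nat_lit 0x48⟩ (.node ⟨nat_lit 6, nat_lit 0x20, nat_lit 0x222112, nat_lit 2, nat_lit 4, nat_lit 0x4c⟩ (.node ⟨nat_lit 6, nat_lit 0x80030, nat_lit 0x101204, nat_lit 0, nat_lit 4, nat_lit 0x48⟩ (t14_1384) (t14_9576)) (.node ⟨nat_lit 6, nat_lit 0x1000280030, nat_lit 0x112220, nat_lit 1, nat_lit 4, nat_lit 0x48⟩ (t14_5480) (t14_13672))) (.node ⟨nat_lit 4, nat_lit 0xc, nat_lit 0x3012, nat_lit 4, nat_lit 4, nat_lit 0x47⟩ (.node ⟨nat_lit 6,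 nat_lit 0x1000200038, nat_lit 0x201203, nat_lit 1, nat_lit 4, nat_lit 0x47⟩ (t14_3432) (t14_11624)) (.node ⟨nat_lit 7, nat_lit 0x40001000500060, nat_lit 0x101011, nat_lit 0, nat_lit 3, nat_lit 0x45⟩ (t14_7528) (.nil))))) (.node ⟨nat_lit 5, nat_lit 0x100008, nat_lit 0x1301, nat_lit 0xb, nat_lit 4, nat_lit 0x4a⟩ (.node ⟨nat_lit 6, nat_lit 0x200010, nat_lit 0x22100, nat_lit 1, nat_lit 4, nat_lit 0x49⟩ (.node ⟨nat_lit 6, nat_lit 0x1000280034, nat_lit 0x11211, nat_lit 1, nat_lit 4, nat_lit 0x46⟩ (.node ⟨nat_lit 5, nat_lit 0x18, nat_lit 0x31000, nat_lit 0, nat_lit 4, nat_lit 0x47⟩ (t14_872) (t14_9064)) (.node ⟨nat_lit 6, nat_lit 0x1000200030, nat_lit 0x111120, nat_lit 1, nat_lit 4, nat_lit 0x48⟩ (t14_4968) (t14_13160))) (.node ⟨nat_lit 6, nat_lit 0x1800280030, nat_lit 0x111012, nat_lit 0, nat_lit 4, nat_lit 0x46⟩ (.node ⟨nat_lit 8, nat_lit 0x80004000400088,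 nat_lit 0x10112001, nat_lit 2, nat_lit 4, nat_lit 0x4a⟩ (t14_2920) (t14_11112)) (.node ⟨nat_lit 9, nat_lit 0x8001000100011000a000c0, nat_lit 0x11200002, nat_lit 2, nat_lit 4, nat_lit 0x49⟩ (t14_7016) (t14_15208)))) (.node ⟨nat_lit 4, nat_lit 8, nat_lit 0x212, nat_lit 9, nat_lit 4, nat_lit 0x48⟩ (.node ⟨nat_lit 5, nat_lit 0x140018, nat_lit 0x12211, nat_lit 3, nat_lit 4, nat_lit 0x48⟩ (.node ⟨nat_lit 8, nat_lit 0x80008000800040009000e0, nat_lit 0x1011311, nat_lit 1, nat_lit 4, nat_lit 0x48⟩ (t14_1896) (t14_10088)) (.node ⟨nat_lit 7, nat_lit 0x20004000600068, nat_lit 0x22002, nat_lit 1, nat_lit 4, nat_lit 0x47⟩ (t14_5992) (t14_14184))) (.node ⟨nat_lit 6, nat_lit 0x2000200010, nat_lit 0x1002, nat_lit 0, nat_lit 4, nat_lit 0x46⟩ (.node ⟨nat_lit 8, nat_lit 0x80009000c0006000d0, nat_lit 0x10110300, nat_lit 0, nat_lit 4, nat_lit 0x47⟩ (t14_3944) (t14_12136))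 (.node ⟨nat_lit 7, nat_lit 0x4000100060, nat_lit 0x1011211, nat_lit 4, nat_lit 4, nat_lit 0x4a⟩ (t14_8040) (.nil)))))
def t14_232 : Tr := .node ⟨nat_lit 7, nat_lit 0x20004000600064, nat_lit 0x122211, nat_lit 1, nat_lit 4, nat_lit 0x48⟩ (.nil) (.nil)
def t14_8424 : Tr := .node ⟨nat_lit 6, nat_lit 0x10002000200030, nat_lit 0x2001, nat_lit 4, nat_lit 4, nat_lit 0x46⟩ (.nil) (.nil)
def t14_4328 : Tr := .node ⟨nat_lit 7, nat_lit 0x40002000100060, nat_lit 0x1101012, nat_lit 1, nat_lit 4, nat_lit 0x48⟩ (.nil) (.nil)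
def t14_12520 : Tr := .node ⟨nat_lit 8, nat_lit 0x4000a000c00060, nat_lit 0x10011030, nat_lit 0, nat_lit 4, nat_lit 0x48⟩ (.nil) (.nil)
def t14_2280 : Tr := .node ⟨nat_lit 7, nat_lit 0x40004000100060, nat_lit 0x112002, nat_lit 0, nat_lit 4, nat_lit 0x48⟩ (.nil) (.nil)
def t14_10472 : Tr := .node ⟨nat_lit 5, nat_lit 0x1000080014, nat_lit 0x113, nat_lit 2, nat_lit 4, nat_lit 0x45⟩ (.nil) (.nil)
def t14_6376 : Tr := .node ⟨nat_lit 5, nat_lit 0x180014, nat_lit 2, nat_lit 4, nat_lit 4, nat_lit 0x44⟩ (.nil) (.nil)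
def t14_14568 : Tr := .node ⟨nat_lit 8, nat_lit 0x400080008000200088, nat_lit 0x2101, nat_lit 6, nat_lit 4, nat_lit 0x49⟩ (.nil) (.nil)
def t14_1256 : Tr := .node ⟨nat_lit 7, nat_lit 0x20003000500068, nat_lit 0x101132, nat_lit 1, nat_lit 4, nat_lit 0x46⟩ (.nil) (.nil)
def t14_9448 : Tr := .node ⟨nat_lit 7, nat_lit 0x20004000100060, nat_lit 0x1112100, nat_lit 0, nat_lit 3, nat_lit 0x47⟩ (.nil) (.nil)
def t14_5352 : Tr := .node ⟨nat_lit 6, nat_lit 0x800080030, nat_lit 0x110100, nat_lit 3, nat_lit 4, nat_lit 0x47⟩ (.nil) (.nil)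
def t14_13544 : Tr := .node ⟨nat_lit 7, nat_lit 0x40002000100048, nat_lit 0x10100, nat_lit 0, nat_lit 4, nat_lit 0x46⟩ (.nil) (.nil)
def t14_3304 : Tr := .node ⟨nat_lit 8, nat_lit 0x800080004000c000d0, nat_lit 0x120012, nat_lit 2, nat_lit 4, nat_lit 0x48⟩ (.nil) (.nil)
def t14_11496 : Tr := .node ⟨nat_lit 5, nat_lit 0x100010001c, nat_lit 0x1010, nat_lit 4, nat_lit 4, nat_lit 0x45⟩ (.nil) (.nil)
def t14_7400 : Tr := .node ⟨nat_lit 8, nat_lit 0x200020008000c0, nat_lit 0x10020021, nat_lit 2, nat_lit 4, nat_lit 0x4a⟩ (.nil) (.nil)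
def t14_15592 : Tr := .node ⟨nat_lit 1, nat_lit 0, nat_lit 1, nat_lit 0x1c, nat_lit 4, nat_lit 0x48⟩ (.nil) (.nil)
def t14_744 : Tr := .node ⟨nat_lit 5, nat_lit 0x140018, nat_lit 0x1031, nat_lit 3, nat_lit 4, nat_lit 0x45⟩ (.nil) (.nil)
def t14_8936 : Tr := .node ⟨nat_lit 6, nat_lit 0x800300030, nat_lit 0x1040, nat_lit 0, nat_lit 4, nat_lit 0x46⟩ (.nil) (.nil)
def t14_4840 : Tr := .node ⟨nat_lit 8, nat_lit 0x40001000a000c0, nat_lit 0x10110022, nat_lit 1, nat_lit 4, nat_lit 0x49⟩ (.nil) (.nil)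
def t14_13032 : Tr := .node ⟨nat_lit 8, nat_lit 0x10008000840060, nat_lit 0x1000200, nat_lit 1, nat_lit 4, nat_lit 0x48⟩ (.nil) (.nil)
def t14_2792 : Tr := .node ⟨nat_lit 8, nat_lit 0x800020009000a000c0, nat_lit 0x1012011, nat_lit 0, nat_lit 4, nat_lit 0x47⟩ (.nil) (.nil)
def t14_10984 : Tr := .node ⟨nat_lit 6, nat_lit 0x20001000100030, nat_lit 0x101302, nat_lit 4, nat_lit 3, nat_lit 0x46⟩ (.nil) (.nil)
def t14_6888 : Tr := .node ⟨nat_lit 7, nat_lit 0x4000440060, nat_lit 0x111121, nat_lit 1, nat_lit 4, nat_lit 0x48⟩ (.nil) (.nil)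
def t14_15080 : Tr := .node ⟨nat_lit 7, nat_lit 0x40004800600050, nat_lit 0x22101, nat_lit 2, nat_lit 4, nat_lit 0x48⟩ (.nil) (.nil)
def t14_1768 : Tr := .node ⟨nat_lit 5, nat_lit 0x100018, nat_lit 0x2103, nat_lit 6, nat_lit 4, nat_lit 0x48⟩ (.nil) (.nil)
def t14_9960 : Tr := .node ⟨nat_lit 8, nat_lit 0x2000c000c000e0, nat_lit 0x10303, nat_lit 0, nat_lit 4, nat_lit 0x47⟩ (.nil) (.nil)
def t14_5864 : Tr := .node ⟨nat_lit 7, nat_lit 0x10004000180064, nat_lit 0x1100111, nat_lit 0, nat_lit 4, nat_lit 0x46⟩ (.nil) (.nil)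
def t14_14056 : Tr := .node ⟨nat_lit 7, nat_lit 0x20004000680068, nat_lit 0x110110, nat_lit 1, nat_lit 4, nat_lit 0x46⟩ (.nil) (.nil)
def t14_3816 : Tr := .node ⟨nat_lit 7, nat_lit 0x10001000500060, nat_lit 0x1201122, nat_lit 0, nat_lit 4, nat_lit 0x48⟩ (.nil) (.nil)
def t14_12008 : Tr := .node ⟨nat_lit 6, nat_lit 0x800280030, nat_lit 0x110201, nat_lit 3, nat_lit 4, nat_lit 0x47⟩ (.nil) (.nil)
def t14_7912 : Tr := .node ⟨nat_lit 9, nat_lit 0x100010000800080014001200120, nat_lit 0x1110021, nat_lit 1, nat_lit 4, nat_lit 0x48⟩ (.nil) (.nil)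
def t9_232 : Tr := .node ⟨nat_lit 4, nat_lit 8, nat_lit 0x1322, nat_lit 4, nat_lit 4, nat_lit 0x49⟩ (.node ⟨nat_lit 4, nat_lit 0x8000a, nat_lit 0x3113, nat_lit 4, nat_lit 4, nat_lit 0x48⟩ (.node ⟨nat_lit 5, nat_lit 0x40018, nat_lit 0x10111, nat_lit 1, nat_lit 3, nat_lit 0x45⟩ (.node ⟨nat_lit 5, nat_lit 0x100008, nat_lit 0x1102, nat_lit 0, nat_lit 4, nat_lit 0x46⟩ (.node ⟨nat_lit 7, nat_lit 0x400020002000500070, nat_lit 0x2011012, nat_lit 0, nat_lit 4, nat_lit 0x47⟩ (t14_232) (t14_8424)) (.node ⟨nat_lit 6, nat_lit 0x2800180030, nat_lit 0x11201, nat_lit 0, nat_lit 4, nat_lit 0x45⟩ (t14_4328) (t14_12520))) (.node ⟨nat_lit 6, nat_lit 0x100020, nat_lit 0x212112, nat_lit 3, nat_lit 4, nat_lit 0x4b⟩ (.node ⟨nat_lit 6, nat_lit 0x800300028, nat_lit 0x111213, nat_lit 1, nat_lit 3, nat_lit 0x46⟩ (t14_2280) (t14_10472)) (.node ⟨nat_lit 6, nat_lit 0x20001000280038,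 nat_lit 0x211200, nat_lit 5, nat_lit 4, nat_lit 0x48⟩ (t14_6376) (t14_14568)))) (.node ⟨nat_lit 8, nat_lit 0x800080, nat_lit 0x2111110, nat_lit 0, nat_lit 4, nat_lit 0x4c⟩ (.node ⟨nat_lit 6, nat_lit 0x80030, nat_lit 0x212121, nat_lit 1, nat_lit 4, nat_lit 0x4a⟩ (.node ⟨nat_lit 3, nat_lit 4, nat_lit 0x110, nat_lit 7, nat_lit 4, nat_lit 0x45⟩ (t14_1256) (t14_9448)) (.node ⟨nat_lit 6, nat_lit 0x2000200030, nat_lit 0x22220, nat_lit 0, nat_lit 3, nat_lit 0x47⟩ (t14_5352) (t14_13544))) (.node ⟨nat_lit 6, nat_lit 0x200038, nat_lit 0x100203, nat_lit 1, nat_lit 4, nat_lit 0x47⟩ (.node ⟨nat_lit 6, nat_lit 0x2000080030, nat_lit 0x111004, nat_lit 0, nat_lit 4, nat_lit 0x48⟩ (t14_3304) (t14_11496)) (.node ⟨nat_lit 7, nat_lit 0x1000100060, nat_lit 0x1101102, nat_lit 1, nat_lit 4, nat_lit 0x49⟩ (t14_7400) (t14_15592))))) (.node ⟨nat_lit 6, nat_lit 0x300030, nat_lit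 0x3110, nat_lit 1, nat_lit 4, nat_lit 0x47⟩ (.node ⟨nat_lit 5, nat_lit 0x40018, nat_lit 0x21102, nat_lit 2, nat_lit 4, nat_lit 0x47⟩ (.node ⟨nat_lit 8, nat_lit 0x20008000800040, nat_lit 0x1121001, nat_lit 0, nat_lit 4, nat_lit 0x4a⟩ (.node ⟨nat_lit 6, nat_lit 0x1000200034, nat_lit 0x212100, nat_lit 1, nat_lit 4, nat_lit 0x48⟩ (t14_744) (t14_8936)) (.node ⟨nat_lit 7, nat_lit 0x10002000500060, nat_lit 0x12300, nat_lit 0, nat_lit 4, nat_lit 0x47⟩ (t14_4840) (t14_13032))) (.node ⟨nat_lit 6, nat_lit 0x2800180030, nat_lit 0x11121, nat_lit 3, nat_lit 4, nat_lit 0x46⟩ (.node ⟨nat_lit 7, nat_lit 0x4000100020, nat_lit 0x212003, nat_lit 0, nat_lit 3, nat_lit 0x49⟩ (t14_2792) (t14_10984)) (.node ⟨nat_lit 6, nat_lit 0x2000240018, nat_lit 0x11312, nat_lit 0, nat_lit 4, nat_lit 0x47⟩ (t14_6888) (t14_15080)))) (.node ⟨nat_lit 4, nat_lit 0x8000c, nat_lit 0x1131,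 nat_lit 8, nat_lit 4, nat_lit 0x47⟩ (.node ⟨nat_lit 6, nat_lit 0x2000080030, nat_lit 0x111012, nat_lit 0, nat_lit 4, nat_lit 0x47⟩ (.node ⟨nat_lit 4, nat_lit 8, nat_lit 0x1213, nat_lit 5, nat_lit 3, nat_lit 0x47⟩ (t14_1768) (t14_9960)) (.node ⟨nat_lit 7, nat_lit 0x4000400060, nat_lit 0x22002, nat_lit 1, nat_lit 4, nat_lit 0x49⟩ (t14_5864) (t14_14056))) (.node ⟨nat_lit 6, nat_lit 0x1800280030, nat_lit 0x20232, nat_lit 1, nat_lit 4, nat_lit 0x46⟩ (.node ⟨nat_lit 7, nat_lit 0x20002000600050, nat_lit 0x1021003, nat_lit 0, nat_lit 4, nat_lit 0x48⟩ (t14_3816) (t14_12008)) (.node ⟨nat_lit 6, nat_lit 0x200038, nat_lit 0x11113, nat_lit 1, nat_lit 4, nat_lit 0x47⟩ (t14_7912) (.nil)))))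
def t14_488 : Tr := .node ⟨nat_lit 7, nat_lit 0x20004000100068, nat_lit 0x1212110, nat_lit 0, nat_lit 4, nat_lit 0x49⟩ (.nil) (.nil)
def t14_8680 : Tr := .node ⟨nat_lit 6, nat_lit 0x800280030, nat_lit 2, nat_lit 3, nat_lit 4, nat_lit 0x45⟩ (.nil) (.nil)
def t14_4584 : Tr := .node ⟨nat_lit 6, nat_lit 0x20002000100038, nat_lit 0x11231, nat_lit 2, nat_lit 4, nat_lit 0x47⟩ (.nil) (.nil)
def t14_12776 : Tr := .node ⟨nat_lit 5, nat_lit 0x100018, nat_lit 0x1140, nat_lit 5, nat_lit 4, nat_lit 0x48⟩ (.nil) (.nil)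
def t14_2536 : Tr := .node ⟨nat_lit 7, nat_lit 0x40001000500060, nat_lit 0x200121, nat_lit 1, nat_lit 4, nat_lit 0x47⟩ (.nil) (.nil)
def t14_10728 : Tr := .node ⟨nat_lit 6, nat_lit 0x2000280030, nat_lit 0x1201, nat_lit 2, nat_lit 3, nat_lit 0x45⟩ (.nil) (.nil)
def t14_6632 : Tr := .node ⟨nat_lit 7, nat_lit 0x4000200010, nat_lit 0x11031, nat_lit 0, nat_lit 4, nat_lit 0x49⟩ (.nil) (.nil)
def t14_14824 : Tr := .node ⟨nat_lit 7, nat_lit 0x40001000200060, nat_lit 0x11002, nat_lit 2, nat_lit 3, nat_lit 0x46⟩ (.nil) (.nil)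
def t14_1512 : Tr := .node ⟨nat_lit 9, nat_lit 0x100010001000080008000800140, nat_lit 0x1102101, nat_lit 1, nat_lit 4, nat_lit 0x49⟩ (.nil) (.nil)
def t14_9704 : Tr := .node ⟨nat_lit 8, nat_lit 0x8000400090009000c0, nat_lit 0x1011112, nat_lit 0, nat_lit 4, nat_lit 0x48⟩ (.nil) (.nil)
def t14_5608 : Tr := .node ⟨nat_lit 6, nat_lit 0x2000300030, nat_lit 0x1220, nat_lit 5, nat_lit 4, nat_lit 0x47⟩ (.nil) (.nil)
def t14_13800 : Tr := .node ⟨nat_lit 8, nat_lit 0x8000200090009000c0, nat_lit 0x12000, nat_lit 2, nat_lit 4, nat_lit 0x47⟩ (.nil) (.nil)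
def t14_3560 : Tr := .node ⟨nat_lit 7, nat_lit 0x40001000600050, nat_lit 0x102001, nat_lit 2, nat_lit 4, nat_lit 0x47⟩ (.nil) (.nil)
def t14_11752 : Tr := .node ⟨nat_lit 3, nat_lit 6, nat_lit 0x410, nat_lit 4, nat_lit 3, nat_lit 0x46⟩ (.nil) (.nil)
def t14_7656 : Tr := .node ⟨nat_lit 4, nat_lit 0x8000c, nat_lit 1, nat_lit 7, nat_lit 4, nat_lit 0x44⟩ (.nil) (.nil)
def t14_1000 : Tr := .node ⟨nat_lit 6, nat_lit 0x10002000200024, nat_lit 0x100012, nat_lit 5, nat_lit 4, nat_lit 0x47⟩ (.nil) (.nil)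
def t14_9192 : Tr := .node ⟨nat_lit 8, nat_lit 0x800040005000a000d000e0, nat_lit 0x210022, nat_lit 0, nat_lit 4, nat_lit 0x45⟩ (.nil) (.nil)
def t14_5096 : Tr := .node ⟨nat_lit 8, nat_lit 0x40004000800080008000c8, nat_lit 0x311101, nat_lit 0, nat_lit 4, nat_lit 0x48⟩ (.nil) (.nil)
def t14_13288 : Tr := .node ⟨nat_lit 7, nat_lit 0x20001000400062, nat_lit 0x1013000, nat_lit 2, nat_lit 4, nat_lit 0x48⟩ (.nil) (.nil)
def t14_3048 : Tr := .node ⟨nat_lit 6, nat_lit 0x10002000200034, nat_lit 0x102101, nat_lit 2, nat_lit 4, nat_lit 0x46⟩ (.nil) (.nil)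
def t14_11240 : Tr := .node ⟨nat_lit 7, nat_lit 0x20006000500070, nat_lit 0x10140, nat_lit 0, nat_lit 4, nat_lit 0x46⟩ (.nil) (.nil)
def t14_7144 : Tr := .node ⟨nat_lit 7, nat_lit 0x20004000100060, nat_lit 0x1111111, nat_lit 3, nat_lit 4, nat_lit 0x49⟩ (.nil) (.nil)
def t14_15336 : Tr := .node ⟨nat_lit 8, nat_lit 0x40004000800080008000c8, nat_lit 0x102102, nat_lit 2, nat_lit 4, nat_lit 0x48⟩ (.nil) (.nil)
def t14_2024 : Tr := .node ⟨nat_lit 7, nat_lit 0x40001000200020, nat_lit 0x20031, nat_lit 1, nat_lit 4, nat_lit 0x49⟩ (.nil) (.nil)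
def t14_10216 : Tr := .node ⟨nat_lit 7, nat_lit 0x20004000100044, nat_lit 0x202, nat_lit 6, nat_lit 4, nat_lit 0x48⟩ (.nil) (.nil)
def t14_6120 : Tr := .node ⟨nat_lit 1, nat_lit 0, nat_lit 1, nat_lit 0xd, nat_lit 4, nat_lit 0x44⟩ (.nil) (.nil)
def t14_14312 : Tr := .node ⟨nat_lit 9, nat_lit 0x800040012001400190, nat_lit 0x10000130, nat_lit 1, nat_lit 4, nat_lit 0x48⟩ (.nil) (.nil)
def t14_4072 : Tr := .node ⟨nat_lit 7, nat_lit 0x400040002000200050, nat_lit 0x110102, nat_lit 1, nat_lit 4, nat_lit 0x47⟩ (.nil) (.nil)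
def t14_12264 : Tr := .node ⟨nat_lit 6, nat_lit 0x1000200020, nat_lit 0x2040, nat_lit 0, nat_lit 3, nat_lit 0x47⟩ (.nil) (.nil)
def t14_8168 : Tr := .node ⟨nat_lit 7, nat_lit 0x40001000680068, nat_lit 0x12030, nat_lit 1, nat_lit 4, nat_lit 0x46⟩ (.nil) (.nil)
def t9_488 : Tr := .node ⟨nat_lit 4, nat_lit 0x80008, nat_lit 0x1320, nat_lit 0xb, nat_lit 4, nat_lit 0x49⟩ (.node ⟨nat_lit 6, nat_lit 0x2000080034, nat_lit 0x301111, nat_lit 0, nat_lit 4, nat_lit 0x48⟩ (.node ⟨nat_lit 5, nat_lit 0x40018, nat_lit 0x11222, nat_lit 0, nat_lit 4, nat_lit 0x47⟩ (.node ⟨nat_lit 6, nat_lit 0x200010, nat_lit 0x12102, nat_lit 5, nat_lit 4, nat_lit 0x4a⟩ (.node ⟨nat_lit 7, nat_lit 0x10001000400062, nat_lit 0x1202101, nat_lit 0, nat_lit 4, nat_lit 0x48⟩ (t14_488) (t14_8680)) (.node ⟨nat_lit 5, nat_lit 0x100018, nat_lit 0x12112, nat_lit 7, nat_lit 4, nat_lit 0x49⟩ (t14_4584)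 (t14_12776))) (.node ⟨nat_lit 6, nat_lit 0x2000100038, nat_lit 0x111022, nat_lit 0, nat_lit 4, nat_lit 0x47⟩ (.node ⟨nat_lit 9, nat_lit 0x8001000100004000400110, nat_lit 0x1000310, nat_lit 3, nat_lit 4, nat_lit 0x4a⟩ (t14_2536) (t14_10728)) (.node ⟨nat_lit 8, nat_lit 0x800040004000c0, nat_lit 0x210102, nat_lit 3, nat_lit 4, nat_lit 0x4a⟩ (t14_6632) (t14_14824)))) (.node ⟨nat_lit 6, nat_lit 0x30, nat_lit 0x201111, nat_lit 1, nat_lit 4, nat_lit 0x49⟩ (.node ⟨nat_lit 5, nat_lit 0x40018, nat_lit 0x11220, nat_lit 0, nat_lit 4, nat_lit 0x47⟩ (.node ⟨nat_lit 8, nat_lit 0x20008000c000c4, nat_lit 0x10010312, nat_lit 0, nat_lit 4, nat_lit 0x49⟩ (t14_1512) (t14_9704)) (.node ⟨nat_lit 8, nat_lit 0x8000800040004000a00090, nat_lit 0x11102100, nat_lit 3, nat_lit 4, nat_lit 0x49⟩ (t14_5608) (t14_13800))) (.node ⟨nat_lit 8, nat_lit 0x80002000400040, nat_lit 0x120100,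 nat_lit 2, nat_lit 4, nat_lit 0x4a⟩ (.node ⟨nat_lit 6, nat_lit 0x1000300028, nat_lit 0x11000, nat_lit 1, nat_lit 3, nat_lit 0x45⟩ (t14_3560) (t14_11752)) (.node ⟨nat_lit 8, nat_lit 0x4000800080009000900090, nat_lit 0x10011210, nat_lit 2, nat_lit 4, nat_lit 0x49⟩ (t14_7656) (.nil))))) (.node ⟨nat_lit 5, nat_lit 0x1000100014, nat_lit 0x3102, nat_lit 5, nat_lit 4, nat_lit 0x47⟩ (.node ⟨nat_lit 6, nat_lit 0x200030, nat_lit 0x22211, nat_lit 0, nat_lit 4, nat_lit 0x49⟩ (.node ⟨nat_lit 4, nat_lit 0, nat_lit 0x1111, nat_lit 0xd, nat_lit 4, nat_lit 0x4a⟩ (.node ⟨nat_lit 6, nat_lit 0x2000100024, nat_lit 0x111311, nat_lit 2, nat_lit 4, nat_lit 0x49⟩ (t14_1000) (t14_9192)) (.node ⟨nat_lit 8, nat_lit 0x8000400040009000d0, nat_lit 0x20112101, nat_lit 0, nat_lit 4, nat_lit 0x49⟩ (t14_5096) (t14_13288))) (.node ⟨nat_lit 5, nat_lit 0x100018, nat_lit 0x10120, nat_lit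 4, nat_lit 3, nat_lit 0x46⟩ (.node ⟨nat_lit 7, nat_lit 0x40001000480068, nat_lit 0x2112111, nat_lit 0, nat_lit 4, nat_lit 0x49⟩ (t14_3048) (t14_11240)) (.node ⟨nat_lit 8, nat_lit 0x80008800c000a0, nat_lit 0x111002, nat_lit 0, nat_lit 4, nat_lit 0x48⟩ (t14_7144) (t14_15336)))) (.node ⟨nat_lit 6, nat_lit 0x2000240018, nat_lit 0x210101, nat_lit 1, nat_lit 4, nat_lit 0x47⟩ (.node ⟨nat_lit 6, nat_lit 0x200020, nat_lit 0x211111, nat_lit 3, nat_lit 3, nat_lit 0x49⟩ (.node ⟨nat_lit 3, nat_lit 0x40004, nat_lit 0x132, nat_lit 0xe, nat_lit 4, nat_lit 0x48⟩ (t14_2024) (t14_10216)) (.node ⟨nat_lit 7, nat_lit 0x40003000580068, nat_lit 0x2110200, nat_lit 1, nat_lit 4, nat_lit 0x47⟩ (t14_6120) (t14_14312))) (.node ⟨nat_lit 5, nat_lit 0x1c, nat_lit 0x22113, nat_lit 3, nat_lit 4, nat_lit 0x49⟩ (.node ⟨nat_lit 4, nat_lit 0xe, nat_lit 0x1001, nat_lit 3, nat_lit 4,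 nat_lit 0x43⟩ (t14_4072) (t14_12264)) (.node ⟨nat_lit 8, nat_lit 0x80008000800040009000e0, nat_lit 0x1110211, nat_lit 2, nat_lit 4, nat_lit 0x48⟩ (t14_8168) (.nil)))))
def t14_24 : Tr := .node ⟨nat_lit 6, nat_lit 0x200010, nat_lit 0x111110, nat_lit 3, nat_lit 3, nat_lit 0x48⟩ (.nil) (.nil)
def t14_8216 : Tr := .node ⟨nat_lit 8, nat_lit 0x40008000800060009000e0, nat_lit 0x120103, nat_lit 0, nat_lit 4, nat_lit 0x46⟩ (.nil) (.nil)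
def t14_4120 : Tr := .node ⟨nat_lit 6, nat_lit 0x2000200034, nat_lit 0x21112, nat_lit 4, nat_lit 4, nat_lit 0x48⟩ (.nil) (.nil)
def t14_12312 : Tr := .node ⟨nat_lit 8, nat_lit 0x80006000b000d000e0, nat_lit 0x10000113, nat_lit 1, nat_lit 4, nat_lit 0x45⟩ (.nil) (.nil)
def t14_2072 : Tr := .node ⟨nat_lit 6, nat_lit 0x10001000100020, nat_lit 0x203101, nat_lit 3, nat_lit 4, nat_lit 0x49⟩ (.nil) (.nil)
def t14_10264 : Tr := .node ⟨nat_lit 8, nat_lit 0x800080004000a000a000e0, nat_lit 0x10002002, nat_lit 2, nat_lit 4, nat_lit 0x47⟩ (.nil) (.nil)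
def t14_6168 : Tr := .node ⟨nat_lit 7, nat_lit 0x4000400044, nat_lit 0x111000, nat_lit 0, nat_lit 4, nat_lit 0x48⟩ (.nil) (.nil)
def t14_14360 : Tr := .node ⟨nat_lit 7, nat_lit 0x10004000500064, nat_lit 0x11, nat_lit 1, nat_lit 4, nat_lit 0x45⟩ (.nil) (.nil)
def t14_1048 : Tr := .node ⟨nat_lit 6, nat_lit 0x1000200020, nat_lit 0x1200, nat_lit 3, nat_lit 4, nat_lit 0x47⟩ (.nil) (.nil)
def t14_9240 : Tr := .node ⟨nat_lit 6, nat_lit 0x20001000300038, nat_lit 0x1021, nat_lit 4, nat_lit 4, nat_lit 0x45⟩ (.nil) (.nil)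
def t14_5144 : Tr := .node ⟨nat_lit 7, nat_lit 0x40003000500068, nat_lit 0x111113, nat_lit 0, nat_lit 4, nat_lit 0x46⟩ (.nil) (.nil)
def t14_13336 : Tr := .node ⟨nat_lit 6, nat_lit 0x300038, nat_lit 3, nat_lit 0, nat_lit 4, nat_lit 0x44⟩ (.nil) (.nil)
def t14_3096 : Tr := .node ⟨nat_lit 7, nat_lit 0x40003000580068, nat_lit 0x111012, nat_lit 0, nat_lit 4, nat_lit 0x45⟩ (.nil) (.nil)
def t14_11288 : Tr := .node ⟨nat_lit 6, nat_lit 0x10002000300030, nat_lit 0x1220, nat_lit 7, nat_lit 4, nat_lit 0x47⟩ (.nil) (.nil)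
def t14_7192 : Tr := .node ⟨nat_lit 8, nat_lit 0x8000800020009000c0, nat_lit 0x10111111, nat_lit 1, nat_lit 4, nat_lit 0x49⟩ (.nil) (.nil)
def t14_15384 : Tr := .node ⟨nat_lit 0xa, nat_lit 0x20001000080008000400040, nat_lit 0x1010, nat_lit 7, nat_lit 4, nat_lit 0x4b⟩ (.nil) (.nil)
def t14_536 : Tr := .node ⟨nat_lit 6, nat_lit 0x2000100030, nat_lit 0x2022, nat_lit 5, nat_lit 4, nat_lit 0x48⟩ (.nil) (.nil)
def t14_8728 : Tr := .node ⟨nat_lit 8, nat_lit 0x200040003000a000c0, nat_lit 0x11101, nat_lit 0, nat_lit 4, nat_lit 0x46⟩ (.nil) (.nil)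
def t14_4632 : Tr := .node ⟨nat_lit 7, nat_lit 0x4000100060, nat_lit 0x1011201, nat_lit 0, nat_lit 4, nat_lit 0x49⟩ (.nil) (.nil)
def t14_12824 : Tr := .node ⟨nat_lit 6, nat_lit 0x2000100030, nat_lit 0x3100, nat_lit 2, nat_lit 4, nat_lit 0x47⟩ (.nil) (.nil)
def t14_2584 : Tr := .node ⟨nat_lit 8, nat_lit 0x100080002000c0, nat_lit 0x110201, nat_lit 1, nat_lit 4, nat_lit 0x49⟩ (.nil) (.nil)
def t14_10776 : Tr := .node ⟨nat_lit 7, nat_lit 0x200040004000400048, nat_lit 0x1201, nat_lit 0xa, nat_lit 4, nat_lit 0x49⟩ (.nil) (.nil)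
def t14_6680 : Tr := .node ⟨nat_lit 7, nat_lit 0x400020, nat_lit 0x111101, nat_lit 4, nat_lit 4, nat_lit 0x4b⟩ (.nil) (.nil)
def t14_14872 : Tr := .node ⟨nat_lit 5, nat_lit 0x80010, nat_lit 0x21102, nat_lit 8, nat_lit 3, nat_lit 0x48⟩ (.nil) (.nil)
def t14_1560 : Tr := .node ⟨nat_lit 7, nat_lit 0x400020002000500070, nat_lit 0x1011012, nat_lit 0, nat_lit 4, nat_lit 0x46⟩ (.nil) (.nil)
def t14_9752 : Tr := .node ⟨nat_lit 8, nat_lit 0xa00030003000c0, nat_lit 0x11002201, nat_lit 0, nat_lit 4, nat_lit 0x47⟩ (.nil) (.nil)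
def t14_5656 : Tr := .node ⟨nat_lit 9, nat_lit 0x20014001800180, nat_lit 0x1010220, nat_lit 1, nat_lit 4, nat_lit 0x49⟩ (.nil) (.nil)
def t14_13848 : Tr := .node ⟨nat_lit 7, nat_lit 0x400020002000500070, nat_lit 0x22010, nat_lit 0, nat_lit 4, nat_lit 0x46⟩ (.nil) (.nil)
def t14_3608 : Tr := .node ⟨nat_lit 7, nat_lit 0x20006000600050, nat_lit 0x1002212, nat_lit 0, nat_lit 4, nat_lit 0x47⟩ (.nil) (.nil)
def t14_11800 : Tr := .node ⟨nat_lit 7, nat_lit 0x4000600018, nat_lit 0x10103, nat_lit 1, nat_lit 4, nat_lit 0x47⟩ (.nil) (.nil)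
def t14_7704 : Tr := .node ⟨nat_lit 5, nat_lit 0x100018001c, nat_lit 0x121, nat_lit 4, nat_lit 4, nat_lit 0x44⟩ (.nil) (.nil)
def t9_24 : Tr := .node ⟨nat_lit 6, nat_lit 0x30, nat_lit 0x311111, nat_lit 3, nat_lit 4, nat_lit 0x4b⟩ (.node ⟨nat_lit 3, nat_lit 0, nat_lit 0x331, nat_lit 6, nat_lit 3, nat_lit 0x48⟩ (.node ⟨nat_lit 4, nat_lit 0xc, nat_lit 0x31, nat_lit 5, nat_lit 4, nat_lit 0x46⟩ (.node ⟨nat_lit 6, nat_lit 0x80030, nat_lit 0x111210, nat_lit 0, nat_lit 4, nat_lit 0x48⟩ (.node ⟨nat_lit 7, nat_lit 0x40001000600060, nat_lit 0x20321, nat_lit 1, nat_lit 4, nat_lit 0x48⟩ (t14_24) (t14_8216)) (.node ⟨nat_lit 6, nat_lit 0x2000080030, nat_lit 0x100000, nat_lit 3, nat_lit 4, nat_lit 0x46⟩ (t14_4120) (t14_12312))) (.node ⟨nat_lit 5, nat_lit 0x1c, nat_lit 0x31123, nat_lit 2, nat_lit 4, nat_lit 0x49⟩ (.node ⟨nat_lit 6, nat_lit 0x20001000100028, nat_lit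 0x112312, nat_lit 1, nat_lit 4, nat_lit 0x48⟩ (t14_2072) (t14_10264)) (.node ⟨nat_lit 8, nat_lit 0x800020002000c000c0, nat_lit 0x122010, nat_lit 0, nat_lit 4, nat_lit 0x48⟩ (t14_6168) (t14_14360)))) (.node ⟨nat_lit 5, nat_lit 0x80010001a, nat_lit 0x20320, nat_lit 4, nat_lit 4, nat_lit 0x47⟩ (.node ⟨nat_lit 7, nat_lit 0x4000200020, nat_lit 0x221021, nat_lit 0, nat_lit 4, nat_lit 0x4b⟩ (.node ⟨nat_lit 5, nat_lit 0x100012, nat_lit 0x11111, nat_lit 3, nat_lit 4, nat_lit 0x47⟩ (t14_1048) (t14_9240)) (.node ⟨nat_lit 7, nat_lit 0x20004000100060, nat_lit 0x121002, nat_lit 1, nat_lit 3, nat_lit 0x47⟩ (t14_5144) (t14_13336))) (.node ⟨nat_lit 7, nat_lit 0x4000100060, nat_lit 0x211002, nat_lit 0, nat_lit 4, nat_lit 0x49⟩ (.node ⟨nat_lit 6, nat_lit 0x100020, nat_lit 0x111100, nat_lit 0, nat_lit 4, nat_lit 0x48⟩ (t14_3096) (t14_11288)) (.node ⟨nat_lit 7, nat_lit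 0x400020002000500060, nat_lit 0x1022003, nat_lit 2, nat_lit 4, nat_lit 0x48⟩ (t14_7192) (t14_15384))))) (.node ⟨nat_lit 6, nat_lit 0x2000080034, nat_lit 0x231110, nat_lit 1, nat_lit 4, nat_lit 0x49⟩ (.node ⟨nat_lit 5, nat_lit 0x18, nat_lit 0x11221, nat_lit 1, nat_lit 4, nat_lit 0x48⟩ (.node ⟨nat_lit 6, nat_lit 0x2000200030, nat_lit 0x2210, nat_lit 3, nat_lit 4, nat_lit 0x48⟩ (.node ⟨nat_lit 6, nat_lit 0x200010, nat_lit 0x121111, nat_lit 7, nat_lit 4, nat_lit 0x4b⟩ (t14_536) (t14_8728)) (.node ⟨nat_lit 6, nat_lit 0x2000080030, nat_lit 0x211203, nat_lit 0, nat_lit 4, nat_lit 0x49⟩ (t14_4632) (t14_12824))) (.node ⟨nat_lit 7, nat_lit 0x10004000600064, nat_lit 0x100021, nat_lit 2, nat_lit 4, nat_lit 0x46⟩ (.node ⟨nat_lit 6, nat_lit 0x200030, nat_lit 0x121130, nat_lit 1, nat_lit 4, nat_lit 0x4a⟩ (t14_2584) (t14_10776)) (.node ⟨nat_lit 8, nat_lit 0x80008000800088,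 nat_lit 0x2111210, nat_lit 0, nat_lit 4, nat_lit 0x4b⟩ (t14_6680) (t14_14872)))) (.node ⟨nat_lit 6, nat_lit 0x2000080010, nat_lit 0x21021, nat_lit 0, nat_lit 3, nat_lit 0x47⟩ (.node ⟨nat_lit 7, nat_lit 0x1000400062, nat_lit 0x2301001, nat_lit 1, nat_lit 4, nat_lit 0x4a⟩ (.node ⟨nat_lit 6, nat_lit 0x2000080030, nat_lit 0x100321, nat_lit 0, nat_lit 4, nat_lit 0x47⟩ (t14_1560) (t14_9752)) (.node ⟨nat_lit 7, nat_lit 0x20004000400010, nat_lit 0x1112100, nat_lit 1, nat_lit 4, nat_lit 0x49⟩ (t14_5656) (t14_13848))) (.node ⟨nat_lit 5, nat_lit 0x1000140018, nat_lit 0x2102, nat_lit 4, nat_lit 4, nat_lit 0x46⟩ (.node ⟨nat_lit 6, nat_lit 0x1000200030, nat_lit 0x11000, nat_lit 1, nat_lit 4, nat_lit 0x46⟩ (t14_3608) (t14_11800)) (.node ⟨nat_lit 8, nat_lit 0x80008000800040004400a0, nat_lit 0x1111200, nat_lit 0, nat_lit 4, nat_lit 0x48⟩ (t14_7704) (.nil)))))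
def t14_280 : Tr := .node ⟨nat_lit 6, nat_lit 0x20001000100010, nat_lit 0x211110, nat_lit 0, nat_lit 3, nat_lit 0x47⟩ (.nil) (.nil)
def t14_8472 : Tr := .node ⟨nat_lit 6, nat_lit 0x800280030, nat_lit 0x10210, nat_lit 2, nat_lit 4, nat_lit 0x46⟩ (.nil) (.nil)
def t14_4376 : Tr := .node ⟨nat_lit 8, nat_lit 0x800080004000200090, nat_lit 0x10102000, nat_lit 1, nat_lit 4, nat_lit 0x49⟩ (.nil) (.nil)
def t14_12568 : Tr := .node ⟨nat_lit 8, nat_lit 0x800040009000c00060, nat_lit 0x10101030, nat_lit 2, nat_lit 4, nat_lit 0x48⟩ (.nil) (.nil)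
def t14_2328 : Tr := .node ⟨nat_lit 7, nat_lit 0x400020005000700070, nat_lit 0x2013010, nat_lit 1, nat_lit 4, nat_lit 0x47⟩ (.nil) (.nil)
def t14_10520 : Tr := .node ⟨nat_lit 8, nat_lit 0x800020009000c000d0, nat_lit 0x10000000, nat_lit 0, nat_lit 4, nat_lit 0x46⟩ (.nil) (.nil)
def t14_6424 : Tr := .node ⟨nat_lit 5, nat_lit 0x80010, nat_lit 0x11111, nat_lit 6, nat_lit 3, nat_lit 0x47⟩ (.nil) (.nil)
def t14_14616 : Tr := .node ⟨nat_lit 9, nat_lit 0x4001000100011001100180, nat_lit 0x10011111, nat_lit 2, nat_lit 4, nat_lit 0x49⟩ (.nil) (.nil)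
def t14_1304 : Tr := .node ⟨nat_lit 6, nat_lit 0x10001000200032, nat_lit 0x101112, nat_lit 2, nat_lit 4, nat_lit 0x46⟩ (.nil) (.nil)
def t14_9496 : Tr := .node ⟨nat_lit 6, nat_lit 0x20002000200028, nat_lit 0x11211, nat_lit 9, nat_lit 4, nat_lit 0x49⟩ (.nil) (.nil)
def t14_5400 : Tr := .node ⟨nat_lit 6, nat_lit 0x2000080030, nat_lit 0x11302, nat_lit 4, nat_lit 4, nat_lit 0x48⟩ (.nil) (.nil)
def t14_13592 : Tr := .node ⟨nat_lit 6, nat_lit 0x20002000100010, nat_lit 0x2000, nat_lit 2, nat_lit 4, nat_lit 0x46⟩ (.nil) (.nil)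
def t14_3352 : Tr := .node ⟨nat_lit 7, nat_lit 0x4000400060, nat_lit 0x21202, nat_lit 0, nat_lit 4, nat_lit 0x49⟩ (.nil) (.nil)
def t14_11544 : Tr := .node ⟨nat_lit 6, nat_lit 0x2000300030, nat_lit 0x1210, nat_lit 9, nat_lit 4, nat_lit 0x48⟩ (.nil) (.nil)
def t14_7448 : Tr := .node ⟨nat_lit 6, nat_lit 0x300030, nat_lit 0x111111, nat_lit 5, nat_lit 4, nat_lit 0x49⟩ (.nil) (.nil)
def t14_792 : Tr := .node ⟨nat_lit 7, nat_lit 0x200020004000400044, nat_lit 0x1031110, nat_lit 1, nat_lit 4, nat_lit 0x48⟩ (.nil) (.nil)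
def t14_8984 : Tr := .node ⟨nat_lit 9, nat_lit 0x80010001000100012001080110, nat_lit 0x111001, nat_lit 5, nat_lit 4, nat_lit 0x49⟩ (.nil) (.nil)
def t14_4888 : Tr := .node ⟨nat_lit 7, nat_lit 0x400040, nat_lit 0x1111110, nat_lit 5, nat_lit 4, nat_lit 0x4c⟩ (.nil) (.nil)
def t14_13080 : Tr := .node ⟨nat_lit 8, nat_lit 0x40002000800082, nat_lit 0x20, nat_lit 0, nat_lit 4, nat_lit 0x48⟩ (.nil) (.nil)
def t14_2840 : Tr := .node ⟨nat_lit 7, nat_lit 0x600060, nat_lit 0x11120, nat_lit 0, nat_lit 4, nat_lit 0x48⟩ (.nil) (.nil)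
def t14_11032 : Tr := .node ⟨nat_lit 7, nat_lit 0x5000500060, nat_lit 0x1102201, nat_lit 0, nat_lit 4, nat_lit 0x48⟩ (.nil) (.nil)
def t14_6936 : Tr := .node ⟨nat_lit 7, nat_lit 0x40001000680070, nat_lit 0x2101022, nat_lit 0, nat_lit 4, nat_lit 0x47⟩ (.nil) (.nil)
def t14_15128 : Tr := .node ⟨nat_lit 8, nat_lit 0x400040008000840060, nat_lit 0x11111, nat_lit 0, nat_lit 4, nat_lit 0x47⟩ (.nil) (.nil)
def t14_1816 : Tr := .node ⟨nat_lit 6, nat_lit 0x1000300028, nat_lit 0x112102, nat_lit 2, nat_lit 4, nat_lit 0x48⟩ (.nil) (.nil)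
def t14_10008 : Tr := .node ⟨nat_lit 7, nat_lit 0x20005000500060, nat_lit 0x103203, nat_lit 0, nat_lit 4, nat_lit 0x47⟩ (.nil) (.nil)
def t14_5912 : Tr := .node ⟨nat_lit 9, nat_lit 0x100008000800180, nat_lit 0x1110201, nat_lit 1, nat_lit 4, nat_lit 0x4b⟩ (.nil) (.nil)
def t14_14104 : Tr := .node ⟨nat_lit 7, nat_lit 0x40001000600068, nat_lit 0x111, nat_lit 1, nat_lit 4, nat_lit 0x45⟩ (.nil) (.nil)
def t14_3864 : Tr := .node ⟨nat_lit 7, nat_lit 0x3000500060, nat_lit 0x1111121, nat_lit 0, nat_lit 4, nat_lit 0x48⟩ (.nil) (.nil)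
def t14_12056 : Tr := .node ⟨nat_lit 6, nat_lit 0x2000240030, nat_lit 0x21200, nat_lit 3, nat_lit 4, nat_lit 0x48⟩ (.nil) (.nil)
def t14_7960 : Tr := .node ⟨nat_lit 9, nat_lit 0x10000400040012001200180, nat_lit 0x10110210, nat_lit 0, nat_lit 4, nat_lit 0x48⟩ (.nil) (.nil)
def t9_280 : Tr := .node ⟨nat_lit 4, nat_lit 0xc, nat_lit 0x2031, nat_lit 4, nat_lit 4, nat_lit 0x47⟩ (.node ⟨nat_lit 6, nat_lit 0x1000200022, nat_lit 0x302022, nat_lit 1, nat_lit 4, nat_lit 0x4a⟩ (.node ⟨nat_lit 7, nat_lit 0x20004000440064, nat_lit 0x3112001, nat_lit 0, nat_lit 4, nat_lit 0x49⟩ (.node ⟨nat_lit 6, nat_lit 0x20, nat_lit 0x121113, nat_lit 0, nat_lit 4, nat_lit 0x4b⟩ (.node ⟨nat_lit 7, nat_lit 0x10002000400060, nat_lit 0x1200112, nat_lit 1, nat_lit 4, nat_lit 0x49⟩ (t14_280) (t14_8472)) (.node ⟨nat_lit 6, nat_lit 0x200020, nat_lit 0x111140, nat_lit 1, nat_lit 3, nat_lit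 0x49⟩ (t14_4376) (t14_12568))) (.node ⟨nat_lit 6, nat_lit 0x2000280034, nat_lit 0x200222, nat_lit 4, nat_lit 4, nat_lit 0x48⟩ (.node ⟨nat_lit 6, nat_lit 0x20002000100038, nat_lit 0x12123, nat_lit 3, nat_lit 4, nat_lit 0x47⟩ (t14_2328) (t14_10520)) (.node ⟨nat_lit 6, nat_lit 0x200020, nat_lit 0x21122, nat_lit 3, nat_lit 4, nat_lit 0x4a⟩ (t14_6424) (t14_14616)))) (.node ⟨nat_lit 6, nat_lit 0x20001000280034, nat_lit 0x121101, nat_lit 3, nat_lit 4, nat_lit 0x47⟩ (.node ⟨nat_lit 4, nat_lit 0x40008, nat_lit 0x2231, nat_lit 7, nat_lit 4, nat_lit 0x49⟩ (.node ⟨nat_lit 7, nat_lit 0x20004000100068, nat_lit 0x111003, nat_lit 1, nat_lit 4, nat_lit 0x47⟩ (t14_1304) (t14_9496)) (.node ⟨nat_lit 7, nat_lit 0x40004000200060, nat_lit 0x112022, nat_lit 2, nat_lit 4, nat_lit 0x49⟩ (t14_5400) (t14_13592))) (.node ⟨nat_lit 5, nat_lit 0x100010, nat_lit 0x22200, nat_lit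 1, nat_lit 3, nat_lit 0x48⟩ (.node ⟨nat_lit 5, nat_lit 0x100010001c, nat_lit 0x12030, nat_lit 5, nat_lit 4, nat_lit 0x48⟩ (t14_3352) (t14_11544)) (.node ⟨nat_lit 7, nat_lit 0x2000500060, nat_lit 0x1111112, nat_lit 1, nat_lit 4, nat_lit 0x49⟩ (t14_7448) (.nil))))) (.node ⟨nat_lit 5, nat_lit 0x100008, nat_lit 0x1311, nat_lit 3, nat_lit 4, nat_lit 0x48⟩ (.node ⟨nat_lit 6, nat_lit 0x1000280030, nat_lit 0x12220, nat_lit 0, nat_lit 4, nat_lit 0x47⟩ (.node ⟨nat_lit 5, nat_lit 0x40018, nat_lit 0x10103, nat_lit 0, nat_lit 4, nat_lit 0x45⟩ (.node ⟨nat_lit 6, nat_lit 0x800200010, nat_lit 0x22220, nat_lit 1, nat_lit 4, nat_lit 0x49⟩ (t14_792) (t14_8984)) (.node ⟨nat_lit 7, nat_lit 0x20004000500064, nat_lit 0x1102201, nat_lit 2, nat_lit 4, nat_lit 0x48⟩ (t14_4888) (t14_13080))) (.node ⟨nat_lit 4, nat_lit 0x80004, nat_lit 0x1101, nat_lit 6, nat_lit 4, nat_lit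 0x46⟩ (.node ⟨nat_lit 8, nat_lit 0x8000400040, nat_lit 0x1111030, nat_lit 1, nat_lit 4, nat_lit 0x4c⟩ (t14_2840) (t14_11032)) (.node ⟨nat_lit 6, nat_lit 0x2000280030, nat_lit 0x22011, nat_lit 0, nat_lit 3, nat_lit 0x46⟩ (t14_6936) (t14_15128)))) (.node ⟨nat_lit 7, nat_lit 0x40002000500068, nat_lit 0x1012012, nat_lit 0, nat_lit 4, nat_lit 0x47⟩ (.node ⟨nat_lit 6, nat_lit 0x2000100024, nat_lit 0x211111, nat_lit 3, nat_lit 4, nat_lit 0x49⟩ (.node ⟨nat_lit 6, nat_lit 0x800200030, nat_lit 0x10014, nat_lit 2, nat_lit 4, nat_lit 0x47⟩ (t14_1816) (t14_10008)) (.node ⟨nat_lit 5, nat_lit 0x140018, nat_lit 0x12120, nat_lit 3, nat_lit 4, nat_lit 0x47⟩ (t14_5912) (t14_14104))) (.node ⟨nat_lit 6, nat_lit 0x800280030, nat_lit 0x12122, nat_lit 0, nat_lit 4, nat_lit 0x47⟩ (.node ⟨nat_lit 7, nat_lit 0x40001000600070, nat_lit 0x10103, nat_lit 4, nat_lit 4, nat_lit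 0x47⟩ (t14_3864) (t14_12056)) (.node ⟨nat_lit 5, nat_lit 0x1000140018, nat_lit 0x11210, nat_lit 5, nat_lit 4, nat_lit 0x47⟩ (t14_7960) (.nil)))))
def t14_152 : Tr := .node ⟨nat_lit 7, nat_lit 0x40003000580068, nat_lit 0x1111112, nat_lit 0, nat_lit 4, nat_lit 0x46⟩ (.nil) (.nil)
def t14_8344 : Tr := .node ⟨nat_lit 6, nat_lit 0x80030, nat_lit 0x100, nat_lit 2, nat_lit 4, nat_lit 0x46⟩ (.nil) (.nil)
def t14_4248 : Tr := .node ⟨nat_lit 7, nat_lit 0x20004000100060, nat_lit 0x21020, nat_lit 1, nat_lit 4, nat_lit 0x48⟩ (.nil) (.nil)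
def t14_12440 : Tr := .node ⟨nat_lit 7, nat_lit 0x20004000600064, nat_lit 0x11140, nat_lit 1, nat_lit 4, nat_lit 0x47⟩ (.nil) (.nil)
def t14_2200 : Tr := .node ⟨nat_lit 7, nat_lit 0x40004000100060, nat_lit 0x112200, nat_lit 3, nat_lit 4, nat_lit 0x49⟩ (.nil) (.nil)
def t14_10392 : Tr := .node ⟨nat_lit 7, nat_lit 0x400020005000500060, nat_lit 0x1003002, nat_lit 3, nat_lit 4, nat_lit 0x47⟩ (.nil) (.nil)
def t14_6296 : Tr := .node ⟨nat_lit 5, nat_lit 0x1000100018, nat_lit 0x210, nat_lit 9, nat_lit 4, nat_lit 0x47⟩ (.nil) (.nil)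
def t14_14488 : Tr := .node ⟨nat_lit 8, nat_lit 0x400080002000c000c8, nat_lit 0x111120, nat_lit 0, nat_lit 4, nat_lit 0x47⟩ (.nil) (.nil)
def t14_1176 : Tr := .node ⟨nat_lit 7, nat_lit 0x800100060, nat_lit 0x11101, nat_lit 1, nat_lit 4, nat_lit 0x48⟩ (.nil) (.nil)
def t14_9368 : Tr := .node ⟨nat_lit 8, nat_lit 0x2000c0003000a0, nat_lit 0x10002112, nat_lit 1, nat_lit 4, nat_lit 0x48⟩ (.nil) (.nil)
def t14_5272 : Tr := .node ⟨nat_lit 6, nat_lit 0x20001000280030, nat_lit 0x112110, nat_lit 5, nat_lit 4, nat_lit 0x48⟩ (.nil) (.nil)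
def t14_13464 : Tr := .node ⟨nat_lit 6, nat_lit 0x2000080030, nat_lit 0x1310, nat_lit 5, nat_lit 4, nat_lit 0x48⟩ (.nil) (.nil)
def t14_3224 : Tr := .node ⟨nat_lit 8, nat_lit 0x800040009000d000e0, nat_lit 0x111012, nat_lit 0, nat_lit 4, nat_lit 0x46⟩ (.nil) (.nil)
def t14_11416 : Tr := .node ⟨nat_lit 6, nat_lit 0x80030, nat_lit 0x200210, nat_lit 0, nat_lit 4, nat_lit 0x48⟩ (.nil) (.nil)
def t14_7320 : Tr := .node ⟨nat_lit 9, nat_lit 0x10000800080008000400040, nat_lit 0x1020011, nat_lit 1, nat_lit 4, nat_lit 0x4a⟩ (.nil) (.nil)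
def t14_15512 : Tr := .node ⟨nat_lit 8, nat_lit 0x200020004000a000c0, nat_lit 0x10020012, nat_lit 0, nat_lit 4, nat_lit 0x48⟩ (.nil) (.nil)
def t14_664 : Tr := .node ⟨nat_lit 4, nat_lit 0x8000c, nat_lit 0x131, nat_lit 7, nat_lit 4, nat_lit 0x46⟩ (.nil) (.nil)
def t14_8856 : Tr := .node ⟨nat_lit 7, nat_lit 0x20004000400044, nat_lit 0x10101, nat_lit 5, nat_lit 4, nat_lit 0x48⟩ (.nil) (.nil)
def t14_4760 : Tr := .node ⟨nat_lit 7, nat_lit 0x40002000480070, nat_lit 0x1011203, nat_lit 1, nat_lit 4, nat_lit 0x47⟩ (.nil) (.nil)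
def t14_12952 : Tr := .node ⟨nat_lit 6, nat_lit 0x1000200030, nat_lit 0x1200, nat_lit 4, nat_lit 4, nat_lit 0x47⟩ (.nil) (.nil)
def t14_2712 : Tr := .node ⟨nat_lit 6, nat_lit 0x1800280030, nat_lit 0x110310, nat_lit 2, nat_lit 4, nat_lit 0x46⟩ (.nil) (.nil)
def t14_10904 : Tr := .node ⟨nat_lit 7, nat_lit 0x200040003000480060, nat_lit 0x12023, nat_lit 0, nat_lit 4, nat_lit 0x46⟩ (.nil) (.nil)
def t14_6808 : Tr := .node ⟨nat_lit 7, nat_lit 0x2000500064, nat_lit 0x121001, nat_lit 1, nat_lit 4, nat_lit 0x48⟩ (.nil) (.nil)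
def t14_15000 : Tr := .node ⟨nat_lit 7, nat_lit 0x40002000480060, nat_lit 0x112011, nat_lit 1, nat_lit 4, nat_lit 0x48⟩ (.nil) (.nil)
def t14_1688 : Tr := .node ⟨nat_lit 8, nat_lit 0x4000800088006000c0, nat_lit 0x121012, nat_lit 0, nat_lit 4, nat_lit 0x47⟩ (.nil) (.nil)
def t14_9880 : Tr := .node ⟨nat_lit 7, nat_lit 0x20004000400044, nat_lit 0x10232, nat_lit 1, nat_lit 4, nat_lit 0x49⟩ (.nil) (.nil)
def t14_5784 : Tr := .node ⟨nat_lit 8, nat_lit 0x20001000c0, nat_lit 0x10001002, nat_lit 1, nat_lit 4, nat_lit 0x49⟩ (.nil) (.nil)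
def t14_13976 : Tr := .node ⟨nat_lit 6, nat_lit 0x2000080034, nat_lit 0x1210, nat_lit 1, nat_lit 4, nat_lit 0x46⟩ (.nil) (.nil)
def t14_3736 : Tr := .node ⟨nat_lit 8, nat_lit 0x40008000800060009000e0, nat_lit 0x1112000, nat_lit 1, nat_lit 4, nat_lit 0x47⟩ (.nil) (.nil)
def t14_11928 : Tr := .node ⟨nat_lit 6, nat_lit 0x80030, nat_lit 0x132, nat_lit 0, nat_lit 4, nat_lit 0x47⟩ (.nil) (.nil)
def t14_7832 : Tr := .node ⟨nat_lit 5, nat_lit 0x1000080014, nat_lit 0x1213, nat_lit 6, nat_lit 4, nat_lit 0x47⟩ (.nil) (.nil)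
def t9_152 : Tr := .node ⟨nat_lit 5, nat_lit 0x10, nat_lit 0x31111, nat_lit 7, nat_lit 4, nat_lit 0x4b⟩ (.node ⟨nat_lit 6, nat_lit 0x800280030, nat_lit 0x31120, nat_lit 5, nat_lit 4, nat_lit 0x48⟩ (.node ⟨nat_lit 6, nat_lit 0x1000280034, nat_lit 0x31021, nat_lit 1, nat_lit 4, nat_lit 0x47⟩ (.node ⟨nat_lit 3, nat_lit 4, nat_lit 0x122, nat_lit 0xc, nat_lit 4, nat_lit 0x48⟩ (.node ⟨nat_lit 7, nat_lit 0x10002000500064, nat_lit 0x200202, nat_lit 0, nat_lit 4, nat_lit 0x47⟩ (t14_152) (t14_8344)) (.node ⟨nat_lit 7, nat_lit 0x40001000600070, nat_lit 0x110033, nat_lit 1, nat_lit 4, nat_lit 0x47⟩ (t14_4248) (t14_12440))) (.node ⟨nat_lit 7, nat_lit 0x4000400040, nat_lit 0x211110, nat_lit 0, nat_lit 4, nat_lit 0x4a⟩ (.node ⟨nat_lit 6, nat_lit 0x800200032, nat_lit 0x11021, nat_lit 0, nat_lit 4, nat_lit 0x46⟩ (t14_2200) (t14_10392)) (.node ⟨nat_lit 6, nat_lit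 0x280030, nat_lit 0x122102, nat_lit 0, nat_lit 4, nat_lit 0x49⟩ (t14_6296) (t14_14488)))) (.node ⟨nat_lit 3, nat_lit 0, nat_lit 0x221, nat_lit 8, nat_lit 4, nat_lit 0x48⟩ (.node ⟨nat_lit 6, nat_lit 0x300038, nat_lit 0x211121, nat_lit 1, nat_lit 4, nat_lit 0x48⟩ (.node ⟨nat_lit 3, nat_lit 4, nat_lit 0x311, nat_lit 4, nat_lit 3, nat_lit 0x46⟩ (t14_1176) (t14_9368)) (.node ⟨nat_lit 6, nat_lit 0x2000200030, nat_lit 0x2201, nat_lit 1, nat_lit 3, nat_lit 0x46⟩ (t14_5272) (t14_13464))) (.node ⟨nat_lit 5, nat_lit 0x1000080018, nat_lit 0x21130, nat_lit 1, nat_lit 3, nat_lit 0x46⟩ (.node ⟨nat_lit 7, nat_lit 0x40001000100060, nat_lit 0x1013200, nat_lit 1, nat_lit 4, nat_lit 0x49⟩ (t14_3224) (t14_11416)) (.node ⟨nat_lit 5, nat_lit 0x1000180018, nat_lit 0x10110, nat_lit 3, nat_lit 3, nat_lit 0x44⟩ (t14_7320) (t14_15512))))) (.node ⟨nat_lit 5, nat_lit 0x40018,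 nat_lit 0x32002, nat_lit 0, nat_lit 4, nat_lit 0x48⟩ (.node ⟨nat_lit 6, nat_lit 0x2000080030, nat_lit 0x22120, nat_lit 0, nat_lit 4, nat_lit 0x48⟩ (.node ⟨nat_lit 7, nat_lit 0x20004000440028, nat_lit 0x210110, nat_lit 0, nat_lit 4, nat_lit 0x47⟩ (.node ⟨nat_lit 4, nat_lit 0x8000c, nat_lit 0x2112, nat_lit 6, nat_lit 4, nat_lit 0x47⟩ (t14_664) (t14_8856)) (.node ⟨nat_lit 8, nat_lit 0x400040008000a000c4, nat_lit 0x10020201, nat_lit 1, nat_lit 4, nat_lit 0x48⟩ (t14_4760) (t14_12952))) (.node ⟨nat_lit 4, nat_lit 0xc, nat_lit 0x1111, nat_lit 4, nat_lit 4, nat_lit 0x46⟩ (.node ⟨nat_lit 7, nat_lit 0x4000400060, nat_lit 0x221003, nat_lit 0, nat_lit 4, nat_lit 0x4a⟩ (t14_2712) (t14_10904)) (.node ⟨nat_lit 8, nat_lit 0x200080004000a000c4, nat_lit 0x1001210, nat_lit 0, nat_lit 4, nat_lit 0x47⟩ (t14_6808) (t14_15000)))) (.node ⟨nat_lit 2, nat_lit 0, nat_lit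 0x21, nat_lit 0xb, nat_lit 4, nat_lit 0x46⟩ (.node ⟨nat_lit 5, nat_lit 0x40018, nat_lit 0x31121, nat_lit 1, nat_lit 4, nat_lit 0x48⟩ (.node ⟨nat_lit 7, nat_lit 0x4000480070, nat_lit 0x101013, nat_lit 1, nat_lit 4, nat_lit 0x47⟩ (t14_1688) (t14_9880)) (.node ⟨nat_lit 7, nat_lit 0x4000200020, nat_lit 0x22021, nat_lit 1, nat_lit 4, nat_lit 0x4a⟩ (t14_5784) (t14_13976))) (.node ⟨nat_lit 6, nat_lit 0x2000240018, nat_lit 0x20222, nat_lit 2, nat_lit 4, nat_lit 0x47⟩ (.node ⟨nat_lit 6, nat_lit 0x1000280034, nat_lit 0x1100, nat_lit 0, nat_lit 4, nat_lit 0x44⟩ (t14_3736) (t14_11928)) (.node ⟨nat_lit 6, nat_lit 0x10002000240030, nat_lit 0x12001, nat_lit 3, nat_lit 4, nat_lit 0x46⟩ (t14_7832) (.nil)))))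
def t14_408 : Tr := .node ⟨nat_lit 6, nat_lit 0x2000200020, nat_lit 0x111210, nat_lit 5, nat_lit 4, nat_lit 0x4a⟩ (.nil) (.nil)
def t14_8600 : Tr := .node ⟨nat_lit 7, nat_lit 0x40002000480068, nat_lit 0x11110, nat_lit 1, nat_lit 4, nat_lit 0x46⟩ (.nil) (.nil)
def t14_4504 : Tr := .node ⟨nat_lit 7, nat_lit 0x40004800600030, nat_lit 0x120031, nat_lit 0, nat_lit 4, nat_lit 0x47⟩ (.nil) (.nil)
def t14_12696 : Tr := .node ⟨nat_lit 7, nat_lit 0x20004000500064, nat_lit 0x102010, nat_lit 0, nat_lit 4, nat_lit 0x46⟩ (.nil) (.nil)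
def t14_2456 : Tr := .node ⟨nat_lit 5, nat_lit 0x800100018, nat_lit 0x10320, nat_lit 5, nat_lit 4, nat_lit 0x47⟩ (.nil) (.nil)
def t14_10648 : Tr := .node ⟨nat_lit 7, nat_lit 0x10002000500060, nat_lit 0x1120, nat_lit 1, nat_lit 4, nat_lit 0x46⟩ (.nil) (.nil)
def t14_6552 : Tr := .node ⟨nat_lit 6, nat_lit 0x800280030, nat_lit 0x11121, nat_lit 4, nat_lit 4, nat_lit 0x47⟩ (.nil) (.nil)
def t14_14744 : Tr := .node ⟨nat_lit 7, nat_lit 0x30006000600050, nat_lit 0x111112, nat_lit 0, nat_lit 4, nat_lit 0x46⟩ (.nil) (.nil)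
def t14_1432 : Tr := .node ⟨nat_lit 7, nat_lit 0x40001000100060, nat_lit 0x13110, nat_lit 0, nat_lit 4, nat_lit 0x48⟩ (.nil) (.nil)
def t14_9624 : Tr := .node ⟨nat_lit 7, nat_lit 0x10004000200062, nat_lit 0x210, nat_lit 1, nat_lit 4, nat_lit 0x46⟩ (.nil) (.nil)
def t14_5528 : Tr := .node ⟨nat_lit 5, nat_lit 0x100018, nat_lit 0x1131, nat_lit 5, nat_lit 3, nat_lit 0x46⟩ (.nil) (.nil)
def t14_13720 : Tr := .node ⟨nat_lit 6, nat_lit 0x800200030, nat_lit 0x120, nat_lit 5, nat_lit 4, nat_lit 0x47⟩ (.nil) (.nil)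
def t14_3480 : Tr := .node ⟨nat_lit 6, nat_lit 0x800300038, nat_lit 0x100201, nat_lit 1, nat_lit 4, nat_lit 0x45⟩ (.nil) (.nil)
def t14_11672 : Tr := .node ⟨nat_lit 8, nat_lit 0x20008000c000c0, nat_lit 0x10310, nat_lit 2, nat_lit 4, nat_lit 0x49⟩ (.nil) (.nil)
def t14_7576 : Tr := .node ⟨nat_lit 6, nat_lit 0x20001000100030, nat_lit 0x2213, nat_lit 3, nat_lit 4, nat_lit 0x47⟩ (.nil) (.nil)
def t14_920 : Tr := .node ⟨nat_lit 6, nat_lit 0x10001000200020, nat_lit 0x103211, nat_lit 0, nat_lit 4, nat_lit 0x48⟩ (.nil) (.nil)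
def t14_9112 : Tr := .node ⟨nat_lit 8, nat_lit 0x800040009000a000c0, nat_lit 0x1111012, nat_lit 0, nat_lit 4, nat_lit 0x48⟩ (.nil) (.nil)
def t14_5016 : Tr := .node ⟨nat_lit 4, nat_lit 0xc, nat_lit 0x11, nat_lit 6, nat_lit 4, nat_lit 0x45⟩ (.nil) (.nil)
def t14_13208 : Tr := .node ⟨nat_lit 8, nat_lit 0x8000400040009000c8, nat_lit 0x121000, nat_lit 3, nat_lit 4, nat_lit 0x48⟩ (.nil) (.nil)
def t14_2968 : Tr := .node ⟨nat_lit 6, nat_lit 0x2000100024, nat_lit 0x11202, nat_lit 5, nat_lit 4, nat_lit 0x48⟩ (.nil) (.nil)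
def t14_11160 : Tr := .node ⟨nat_lit 7, nat_lit 0x800600050, nat_lit 0x10010, nat_lit 3, nat_lit 4, nat_lit 0x47⟩ (.nil) (.nil)
def t14_7064 : Tr := .node ⟨nat_lit 7, nat_lit 0x400060, nat_lit 0x1011111, nat_lit 2, nat_lit 4, nat_lit 0x4a⟩ (.nil) (.nil)
def t14_15256 : Tr := .node ⟨nat_lit 6, nat_lit 0x20002000100030, nat_lit 0x11012, nat_lit 7, nat_lit 4, nat_lit 0x48⟩ (.nil) (.nil)
def t14_1944 : Tr := .node ⟨nat_lit 6, nat_lit 0x1000280034, nat_lit 0x200012, nat_lit 0, nat_lit 4, nat_lit 0x45⟩ (.nil) (.nil)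
def t14_10136 : Tr := .node ⟨nat_lit 9, nat_lit 0x8001000100014001900190, nat_lit 0x211020, nat_lit 0, nat_lit 4, nat_lit 0x47⟩ (.nil) (.nil)
def t14_6040 : Tr := .node ⟨nat_lit 8, nat_lit 0x8000400040, nat_lit 0x211011, nat_lit 1, nat_lit 4, nat_lit 0x4b⟩ (.nil) (.nil)
def t14_14232 : Tr := .node ⟨nat_lit 8, nat_lit 0x200040004000a000c8, nat_lit 0x10010021, nat_lit 1, nat_lit 4, nat_lit 0x47⟩ (.nil) (.nil)
def t14_3992 : Tr := .node ⟨nat_lit 6, nat_lit 0x800280030, nat_lit 0x1102, nat_lit 3, nat_lit 4, nat_lit 0x46⟩ (.nil) (.nil)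
def t14_12184 : Tr := .node ⟨nat_lit 7, nat_lit 0x200020002000400040, nat_lit 0x11022, nat_lit 2, nat_lit 4, nat_lit 0x48⟩ (.nil) (.nil)
def t14_8088 : Tr := .node ⟨nat_lit 5, nat_lit 0x100010, nat_lit 0x20, nat_lit 0, nat_lit 3, nat_lit 0x45⟩ (.nil) (.nil)
def t9_408 : Tr := .node ⟨nat_lit 5, nat_lit 0, nat_lit 0x32210, nat_lit 0, nat_lit 4, nat_lit 0x4b⟩ (.node ⟨nat_lit 7, nat_lit 0x400020, nat_lit 0x132101, nat_lit 2, nat_lit 4, nat_lit 0x4c⟩ (.node ⟨nat_lit 6, nat_lit 0x280030, nat_lit 0x22112, nat_lit 0, nat_lit 4, nat_lit 0x48⟩ (.node ⟨nat_lit 6, nat_lit 0x2000080030, nat_lit 0x101331, nat_lit 0, nat_lit 4, nat_lit 0x48⟩ (.node ⟨nat_lit 5, nat_lit 0x800100018, nat_lit 0x121, nat_lit 3, nat_lit 3, nat_lit 0x44⟩ (t14_408) (t14_8600)) (.node ⟨nat_lit 7, nat_lit 0x40001000480060, nat_lit 0x1102020, nat_lit 0, nat_lit 4, nat_lit 0x48⟩ (t14_4504)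 (t14_12696))) (.node ⟨nat_lit 4, nat_lit 0x80008, nat_lit 0x131, nat_lit 4, nat_lit 3, nat_lit 0x45⟩ (.node ⟨nat_lit 6, nat_lit 0x1000080020, nat_lit 0x1210, nat_lit 2, nat_lit 4, nat_lit 0x47⟩ (t14_2456) (t14_10648)) (.node ⟨nat_lit 7, nat_lit 0x10001000400062, nat_lit 0x1202001, nat_lit 1, nat_lit 4, nat_lit 0x48⟩ (t14_6552) (t14_14744)))) (.node ⟨nat_lit 5, nat_lit 0x18, nat_lit 0x20101, nat_lit 0, nat_lit 4, nat_lit 0x46⟩ (.node ⟨nat_lit 6, nat_lit 0x2000080030, nat_lit 0x102311, nat_lit 3, nat_lit 4, nat_lit 0x49⟩ (.node ⟨nat_lit 5, nat_lit 0x100010, nat_lit 0x1120, nat_lit 3, nat_lit 4, nat_lit 0x47⟩ (t14_1432) (t14_9624)) (.node ⟨nat_lit 6, nat_lit 0x2000240030, nat_lit 0x112003, nat_lit 3, nat_lit 4, nat_lit 0x48⟩ (t14_5528) (t14_13720))) (.node ⟨nat_lit 6, nat_lit 0x200030, nat_lit 0x11131, nat_lit 1, nat_lit 4, nat_lit 0x48⟩ (.node ⟨nat_lit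 6, nat_lit 0x1800300028, nat_lit 0x111003, nat_lit 3, nat_lit 4, nat_lit 0x47⟩ (t14_3480) (t14_11672)) (.node ⟨nat_lit 5, nat_lit 0x140018, nat_lit 0x11112, nat_lit 9, nat_lit 4, nat_lit 0x48⟩ (t14_7576) (.nil))))) (.node ⟨nat_lit 7, nat_lit 0x600060, nat_lit 0x1031121, nat_lit 0, nat_lit 4, nat_lit 0x4a⟩ (.node ⟨nat_lit 6, nat_lit 0x200022, nat_lit 0x221100, nat_lit 0, nat_lit 4, nat_lit 0x49⟩ (.node ⟨nat_lit 6, nat_lit 0x280030, nat_lit 0x11111, nat_lit 0, nat_lit 4, nat_lit 0x46⟩ (.node ⟨nat_lit 7, nat_lit 0x400040002000200020, nat_lit 0x1022310, nat_lit 0, nat_lit 4, nat_lit 0x49⟩ (t14_920) (t14_9112)) (.node ⟨nat_lit 7, nat_lit 0x4000400020, nat_lit 0x221002, nat_lit 3, nat_lit 4, nat_lit 0x4b⟩ (t14_5016) (t14_13208))) (.node ⟨nat_lit 8, nat_lit 0x800020009000c000d0, nat_lit 0x11000021, nat_lit 0, nat_lit 4, nat_lit 0x47⟩ (.node ⟨nat_lit 7,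 nat_lit 0x4000100020, nat_lit 0x111021, nat_lit 3, nat_lit 4, nat_lit 0x4a⟩ (t14_2968) (t14_11160)) (.node ⟨nat_lit 8, nat_lit 0x800010002000c0, nat_lit 0x11112002, nat_lit 0, nat_lit 4, nat_lit 0x4a⟩ (t14_7064) (t14_15256)))) (.node ⟨nat_lit 6, nat_lit 0x800300030, nat_lit 0x2120, nat_lit 1, nat_lit 4, nat_lit 0x46⟩ (.node ⟨nat_lit 7, nat_lit 0x800100060, nat_lit 0x2011111, nat_lit 3, nat_lit 4, nat_lit 0x4a⟩ (.node ⟨nat_lit 6, nat_lit 0x200038, nat_lit 0x121003, nat_lit 0, nat_lit 4, nat_lit 0x48⟩ (t14_1944) (t14_10136)) (.node ⟨nat_lit 7, nat_lit 0x20002000500068, nat_lit 0x102001, nat_lit 0, nat_lit 4, nat_lit 0x47⟩ (t14_6040) (t14_14232))) (.node ⟨nat_lit 6, nat_lit 0x2000080030, nat_lit 0x11201, nat_lit 2, nat_lit 4, nat_lit 0x47⟩ (.node ⟨nat_lit 6, nat_lit 0x2000080030, nat_lit 0x11010, nat_lit 3, nat_lit 4, nat_lit 0x47⟩ (t14_3992) (t14_12184))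 (.node ⟨nat_lit 8, nat_lit 0x40008000800060009000d0, nat_lit 0x10111100, nat_lit 1, nat_lit 4, nat_lit 0x47⟩ (t14_8088) (.nil)))))
def t14_88 : Tr := .node ⟨nat_lit 6, nat_lit 0x2000280030, nat_lit 0x111211, nat_lit 3, nat_lit 4, nat_lit 0x48⟩ (.nil) (.nil)
def t14_8280 : Tr := .node ⟨nat_lit 6, nat_lit 0x20002800300038, nat_lit 0x2103, nat_lit 6, nat_lit 4, nat_lit 0x46⟩ (.nil) (.nil)
def t14_4184 : Tr := .node ⟨nat_lit 8, nat_lit 0x800040009000c000e0, nat_lit 0x1101023, nat_lit 0, nat_lit 4, nat_lit 0x47⟩ (.nil) (.nil)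
def t14_12376 : Tr := .node ⟨nat_lit 7, nat_lit 0x20004000400060, nat_lit 0x111310, nat_lit 0, nat_lit 4, nat_lit 0x49⟩ (.nil) (.nil)
def t14_2136 : Tr := .node ⟨nat_lit 6, nat_lit 0x20002000100028, nat_lit 0x12001, nat_lit 3, nat_lit 4, nat_lit 0x47⟩ (.nil) (.nil)
def t14_10328 : Tr := .node ⟨nat_lit 6, nat_lit 0x2000080030, nat_lit 0x102202, nat_lit 2, nat_lit 3, nat_lit 0x47⟩ (.nil) (.nil)
def t14_6232 : Tr := .node ⟨nat_lit 6, nat_lit 0x2000100024, nat_lit 0x1111, nat_lit 2, nat_lit 4, nat_lit 0x46⟩ (.nil) (.nil)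
def t14_14424 : Tr := .node ⟨nat_lit 8, nat_lit 0x800040004000a000c8, nat_lit 0x2111, nat_lit 1, nat_lit 4, nat_lit 0x47⟩ (.nil) (.nil)
def t14_1112 : Tr := .node ⟨nat_lit 6, nat_lit 0x10002000200030, nat_lit 0x102101, nat_lit 0, nat_lit 3, nat_lit 0x45⟩ (.nil) (.nil)
def t14_9304 : Tr := .node ⟨nat_lit 8, nat_lit 0x200080004000a000c0, nat_lit 0x21020, nat_lit 0, nat_lit 4, nat_lit 0x47⟩ (.nil) (.nil)
def t14_5208 : Tr := .node ⟨nat_lit 6, nat_lit 0x20002000240028, nat_lit 0x11211, nat_lit 7, nat_lit 4, nat_lit 0x48⟩ (.nil) (.nil)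
def t14_13400 : Tr := .node ⟨nat_lit 7, nat_lit 0x400020005000280068, nat_lit 0x23000, nat_lit 1, nat_lit 4, nat_lit 0x46⟩ (.nil) (.nil)
def t14_3160 : Tr := .node ⟨nat_lit 7, nat_lit 0x20004000600064, nat_lit 0x20211, nat_lit 0, nat_lit 4, nat_lit 0x47⟩ (.nil) (.nil)
def t14_11352 : Tr := .node ⟨nat_lit 6, nat_lit 0x1000200030, nat_lit 0x1100, nat_lit 5, nat_lit 3, nat_lit 0x46⟩ (.nil) (.nil)
def t14_7256 : Tr := .node ⟨nat_lit 5, nat_lit 0x180014, nat_lit 0x21031, nat_lit 2, nat_lit 4, nat_lit 0x47⟩ (.nil) (.nil)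
def t14_15448 : Tr := .node ⟨nat_lit 8, nat_lit 0x200080004000a000c8, nat_lit 0x10111120, nat_lit 0, nat_lit 4, nat_lit 0x48⟩ (.nil) (.nil)
def t14_600 : Tr := .node ⟨nat_lit 4, nat_lit 0x8000c, nat_lit 0x20, nat_lit 5, nat_lit 4, nat_lit 0x44⟩ (.nil) (.nil)
def t14_8792 : Tr := .node ⟨nat_lit 8, nat_lit 0x8000800020002000d0, nat_lit 0x1020103, nat_lit 0, nat_lit 4, nat_lit 0x48⟩ (.nil) (.nil)
def t14_4696 : Tr := .node ⟨nat_lit 7, nat_lit 0x10004000400064, nat_lit 0x1100010, nat_lit 0, nat_lit 4, nat_lit 0x47⟩ (.nil) (.nil)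
def t14_12888 : Tr := .node ⟨nat_lit 6, nat_lit 0x2800280030, nat_lit 0x10300, nat_lit 5, nat_lit 4, nat_lit 0x46⟩ (.nil) (.nil)
def t14_2648 : Tr := .node ⟨nat_lit 4, nat_lit 0xe, nat_lit 0x2003, nat_lit 3, nat_lit 4, nat_lit 0x44⟩ (.nil) (.nil)
def t14_10840 : Tr := .node ⟨nat_lit 6, nat_lit 0x20002000280028, nat_lit 0x12020, nat_lit 5, nat_lit 4, nat_lit 0x48⟩ (.nil) (.nil)
def t14_6744 : Tr := .node ⟨nat_lit 7, nat_lit 0x800600050, nat_lit 0x21110, nat_lit 1, nat_lit 4, nat_lit 0x48⟩ (.nil) (.nil)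
def t14_14936 : Tr := .node ⟨nat_lit 8, nat_lit 0x800040004000a000a000a0, nat_lit 0x10110111, nat_lit 1, nat_lit 4, nat_lit 0x48⟩ (.nil) (.nil)
def t14_1624 : Tr := .node ⟨nat_lit 8, nat_lit 0x800040009000c000d0, nat_lit 0x110121, nat_lit 1, nat_lit 4, nat_lit 0x47⟩ (.nil) (.nil)
def t14_9816 : Tr := .node ⟨nat_lit 9, nat_lit 0x1000020002001400180, nat_lit 0x10021002, nat_lit 0, nat_lit 4, nat_lit 0x49⟩ (.nil) (.nil)
def t14_5720 : Tr := .node ⟨nat_lit 7, nat_lit 0x4000440060, nat_lit 0x11020, nat_lit 1, nat_lit 4, nat_lit 0x47⟩ (.nil) (.nil)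
def t14_13912 : Tr := .node ⟨nat_lit 7, nat_lit 0x20004000100060, nat_lit 0x14020, nat_lit 0, nat_lit 4, nat_lit 0x48⟩ (.nil) (.nil)
def t14_3672 : Tr := .node ⟨nat_lit 7, nat_lit 0x4000100060, nat_lit 0x3001, nat_lit 0, nat_lit 4, nat_lit 0x48⟩ (.nil) (.nil)
def t14_11864 : Tr := .node ⟨nat_lit 5, nat_lit 0x100008001a, nat_lit 0x230, nat_lit 6, nat_lit 4, nat_lit 0x46⟩ (.nil) (.nil)
def t14_7768 : Tr := .node ⟨nat_lit 8, nat_lit 0x4000800060009000e000d0, nat_lit 0x210102, nat_lit 0, nat_lit 4, nat_lit 0x45⟩ (.nil) (.nil)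
def t9_88 : Tr := .node ⟨nat_lit 3, nat_lit 4, nat_lit 0x111, nat_lit 7, nat_lit 3, nat_lit 0x45⟩ (.node ⟨nat_lit 5, nat_lit 0x100012, nat_lit 0x32211, nat_lit 3, nat_lit 4, nat_lit 0x4a⟩ (.node ⟨nat_lit 7, nat_lit 0x5000500060, nat_lit 0x103202, nat_lit 0, nat_lit 4, nat_lit 0x48⟩ (.node ⟨nat_lit 6, nat_lit 0x10002000200030, nat_lit 0x10212, nat_lit 0, nat_lit 3, nat_lit 0x45⟩ (.node ⟨nat_lit 6, nat_lit 0x20, nat_lit 0x211113, nat_lit 4, nat_lit 4, nat_lit 0x4c⟩ (t14_88) (t14_8280)) (.node ⟨nat_lit 5, nat_lit 0x80010001a, nat_lit 0x20200, nat_lit 4, nat_lit 4, nat_lit 0x46⟩ (t14_4184) (t14_12376))) (.node ⟨nat_lit 4, nat_lit 0x8000c, nat_lit 0x2112, nat_lit 8, nat_lit 3, nat_lit 0x46⟩ (.node ⟨nat_lit 6, nat_lit 0x1000280030, nat_lit 0x101041, nat_lit 1, nat_lit 4, nat_lit 0x47⟩ (t14_2136) (t14_10328)) (.node ⟨nat_lit 8, nat_lit 0x800080004000900090,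 nat_lit 0x1211020, nat_lit 0, nat_lit 4, nat_lit 0x49⟩ (t14_6232) (t14_14424)))) (.node ⟨nat_lit 4, nat_lit 8, nat_lit 0x223, nat_lit 1, nat_lit 3, nat_lit 0x46⟩ (.node ⟨nat_lit 6, nat_lit 0x1000100020, nat_lit 0x121111, nat_lit 5, nat_lit 4, nat_lit 0x4a⟩ (.node ⟨nat_lit 7, nat_lit 0x6000500018, nat_lit 0x1011131, nat_lit 1, nat_lit 4, nat_lit 0x48⟩ (t14_1112) (t14_9304)) (.node ⟨nat_lit 4, nat_lit 0x8000c, nat_lit 0x132, nat_lit 8, nat_lit 4, nat_lit 0x46⟩ (t14_5208) (t14_13400))) (.node ⟨nat_lit 4, nat_lit 0x40008, nat_lit 0x2101, nat_lit 0xa, nat_lit 4, nat_lit 0x48⟩ (.node ⟨nat_lit 6, nat_lit 0x1000200034, nat_lit 0x112000, nat_lit 2, nat_lit 4, nat_lit 0x47⟩ (t14_3160) (t14_11352)) (.node ⟨nat_lit 7, nat_lit 0x40002000480070, nat_lit 0x1010002, nat_lit 1, nat_lit 4, nat_lit 0x46⟩ (t14_7256) (t14_15448))))) (.node ⟨nat_lit 5, nat_lit 0x1000100008,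 nat_lit 0x2100, nat_lit 1, nat_lit 3, nat_lit 0x45⟩ (.node ⟨nat_lit 5, nat_lit 0x18, nat_lit 0x10210, nat_lit 0, nat_lit 4, nat_lit 0x46⟩ (.node ⟨nat_lit 5, nat_lit 0x100018, nat_lit 0x2110, nat_lit 5, nat_lit 4, nat_lit 0x47⟩ (.node ⟨nat_lit 6, nat_lit 0x200030, nat_lit 0x212120, nat_lit 0, nat_lit 4, nat_lit 0x4a⟩ (t14_600) (t14_8792)) (.node ⟨nat_lit 7, nat_lit 0x20004000100060, nat_lit 0x1110212, nat_lit 1, nat_lit 4, nat_lit 0x49⟩ (t14_4696) (t14_12888))) (.node ⟨nat_lit 2, nat_lit 2, nat_lit 0x12, nat_lit 9, nat_lit 4, nat_lit 0x44⟩ (.node ⟨nat_lit 7, nat_lit 0x40001000100060, nat_lit 0x1202103, nat_lit 0, nat_lit 4, nat_lit 0x49⟩ (t14_2648) (t14_10840)) (.node ⟨nat_lit 9, nat_lit 0x8001000100004001080110, nat_lit 0x100011000, nat_lit 7, nat_lit 4, nat_lit 0x4a⟩ (t14_6744) (t14_14936)))) (.node ⟨nat_lit 6, nat_lit 0x20001000280034, nat_lit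 0x121100, nat_lit 3, nat_lit 4, nat_lit 0x47⟩ (.node ⟨nat_lit 7, nat_lit 0x4000640064, nat_lit 0x2211010, nat_lit 1, nat_lit 4, nat_lit 0x49⟩ (.node ⟨nat_lit 5, nat_lit 0x100008, nat_lit 0x1000, nat_lit 2, nat_lit 4, nat_lit 0x45⟩ (t14_1624) (t14_9816)) (.node ⟨nat_lit 7, nat_lit 0x4000440044, nat_lit 0x1221110, nat_lit 1, nat_lit 4, nat_lit 0x4a⟩ (t14_5720) (t14_13912))) (.node ⟨nat_lit 5, nat_lit 0x40018, nat_lit 0x21220, nat_lit 1, nat_lit 3, nat_lit 0x47⟩ (.node ⟨nat_lit 7, nat_lit 0x400020002000500068, nat_lit 0x1000100, nat_lit 0, nat_lit 4, nat_lit 0x45⟩ (t14_3672) (t14_11864)) (.node ⟨nat_lit 8, nat_lit 0x8000400020009000c8, nat_lit 0x11120101, nat_lit 2, nat_lit 4, nat_lit 0x49⟩ (t14_7768) (.nil)))))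
def t14_344 : Tr := .node ⟨nat_lit 7, nat_lit 0x20004000400064, nat_lit 0x1121111, nat_lit 1, nat_lit 4, nat_lit 0x49⟩ (.nil) (.nil)
def t14_8536 : Tr := .node ⟨nat_lit 6, nat_lit 0x20001000280028, nat_lit 0x111041, nat_lit 3, nat_lit 4, nat_lit 0x48⟩ (.nil) (.nil)
def t14_4440 : Tr := .node ⟨nat_lit 8, nat_lit 0x400080002000c8, nat_lit 0x11121101, nat_lit 0, nat_lit 4, nat_lit 0x4a⟩ (.nil) (.nil)
def t14_12632 : Tr := .node ⟨nat_lit 8, nat_lit 0x80009000c0006000d0, nat_lit 0x10010302, nat_lit 1, nat_lit 4, nat_lit 0x47⟩ (.nil) (.nil)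
def t14_2392 : Tr := .node ⟨nat_lit 7, nat_lit 0x4000600060, nat_lit 0x121210, nat_lit 0, nat_lit 4, nat_lit 0x49⟩ (.nil) (.nil)
def t14_10584 : Tr := .node ⟨nat_lit 7, nat_lit 0x3000500060, nat_lit 0x101020, nat_lit 2, nat_lit 4, nat_lit 0x47⟩ (.nil) (.nil)
def t14_6488 : Tr := .node ⟨nat_lit 7, nat_lit 0x4000500064, nat_lit 0x1011101, nat_lit 1, nat_lit 4, nat_lit 0x48⟩ (.nil) (.nil)
def t14_14680 : Tr := .node ⟨nat_lit 9, nat_lit 0x100010000800080014000900190, nat_lit 0x1111010, nat_lit 0, nat_lit 4, nat_lit 0x47⟩ (.nil) (.nil)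
def t14_1368 : Tr := .node ⟨nat_lit 7, nat_lit 0x400040006000580058, nat_lit 0x1000110, nat_lit 1, nat_lit 4, nat_lit 0x45⟩ (.nil) (.nil)
def t14_9560 : Tr := .node ⟨nat_lit 7, nat_lit 0x40004000600068, nat_lit 0x112021, nat_lit 2, nat_lit 4, nat_lit 0x48⟩ (.nil) (.nil)
def t14_5464 : Tr := .node ⟨nat_lit 6, nat_lit 0x200030, nat_lit 0x1113, nat_lit 0, nat_lit 4, nat_lit 0x47⟩ (.nil) (.nil)
def t14_13656 : Tr := .node ⟨nat_lit 5, nat_lit 0x100018, nat_lit 0x102, nat_lit 8, nat_lit 4, nat_lit 0x47⟩ (.nil) (.nil)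
def t14_3416 : Tr := .node ⟨nat_lit 6, nat_lit 0x2000080030, nat_lit 0x2001, nat_lit 3, nat_lit 4, nat_lit 0x47⟩ (.nil) (.nil)
def t14_11608 : Tr := .node ⟨nat_lit 6, nat_lit 0x800300038, nat_lit 0x1110, nat_lit 1, nat_lit 4, nat_lit 0x45⟩ (.nil) (.nil)
def t14_7512 : Tr := .node ⟨nat_lit 8, nat_lit 0x20008000400040, nat_lit 0x11111011, nat_lit 1, nat_lit 4, nat_lit 0x4b⟩ (.nil) (.nil)
def t14_856 : Tr := .node ⟨nat_lit 8, nat_lit 0x800080004000200090, nat_lit 0x1120012, nat_lit 1, nat_lit 4, nat_lit 0x49⟩ (.nil) (.nil)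
def t14_9048 : Tr := .node ⟨nat_lit 5, nat_lit 0x1000100010, nat_lit 0x1222, nat_lit 2, nat_lit 3, nat_lit 0x46⟩ (.nil) (.nil)
def t14_4952 : Tr := .node ⟨nat_lit 6, nat_lit 0x800300030, nat_lit 0x111031, nat_lit 3, nat_lit 4, nat_lit 0x48⟩ (.nil) (.nil)
def t14_13144 : Tr := .node ⟨nat_lit 6, nat_lit 0x800280030, nat_lit 0x23, nat_lit 1, nat_lit 4, nat_lit 0x45⟩ (.nil) (.nil)
def t14_2904 : Tr := .node ⟨nat_lit 7, nat_lit 0x40001000600070, nat_lit 0x111202, nat_lit 0, nat_lit 4, nat_lit 0x47⟩ (.nil) (.nil)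
def t14_11096 : Tr := .node ⟨nat_lit 7, nat_lit 0x10001000600060, nat_lit 0x1020, nat_lit 1, nat_lit 3, nat_lit 0x45⟩ (.nil) (.nil)
def t14_7000 : Tr := .node ⟨nat_lit 6, nat_lit 0x2000200030, nat_lit 0x101221, nat_lit 2, nat_lit 3, nat_lit 0x47⟩ (.nil) (.nil)
def t14_15192 : Tr := .node ⟨nat_lit 8, nat_lit 0x400080002000c000d0, nat_lit 0x1110121, nat_lit 0, nat_lit 4, nat_lit 0x48⟩ (.nil) (.nil)
def t14_1880 : Tr := .node ⟨nat_lit 6, nat_lit 0x2000080030, nat_lit 0x2111, nat_lit 2, nat_lit 4, nat_lit 0x47⟩ (.nil) (.nil)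
def t14_10072 : Tr := .node ⟨nat_lit 6, nat_lit 0x20001000280034, nat_lit 0x10000, nat_lit 2, nat_lit 4, nat_lit 0x44⟩ (.nil) (.nil)
def t14_5976 : Tr := .node ⟨nat_lit 8, nat_lit 0x400040008000800080, nat_lit 0x121110, nat_lit 0, nat_lit 4, nat_lit 0x49⟩ (.nil) (.nil)
def t14_14168 : Tr := .node ⟨nat_lit 8, nat_lit 0x800080002000400040, nat_lit 0x110021, nat_lit 2, nat_lit 4, nat_lit 0x49⟩ (.nil) (.nil)
def t14_3928 : Tr := .node ⟨nat_lit 6, nat_lit 0x200032, nat_lit 0x100010, nat_lit 0, nat_lit 4, nat_lit 0x46⟩ (.nil) (.nil)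
def t14_12120 : Tr := .node ⟨nat_lit 7, nat_lit 0x5000180060, nat_lit 0x1200, nat_lit 1, nat_lit 4, nat_lit 0x46⟩ (.nil) (.nil)
def t14_8024 : Tr := .node ⟨nat_lit 6, nat_lit 0x20001000100028, nat_lit 0x11103, nat_lit 1, nat_lit 4, nat_lit 0x46⟩ (.nil) (.nil)
def t9_344 : Tr := .node ⟨nat_lit 2, nat_lit 0, nat_lit 0x33, nat_lit 0xf, nat_lit 4, nat_lit 0x49⟩ (.node ⟨nat_lit 5, nat_lit 0x40018, nat_lit 0x32112, nat_lit 2, nat_lit 4, nat_lit 0x49⟩ (.node ⟨nat_lit 6, nat_lit 0x30, nat_lit 0x221112, nat_lit 0, nat_lit 4, nat_lit 0x4a⟩ (.node ⟨nat_lit 7, nat_lit 0x1000100060, nat_lit 0x1102102, nat_lit 0, nat_lit 4, nat_lit 0x49⟩ (.node ⟨nat_lit 6, nat_lit 0x80030, nat_lit 0x221103, nat_lit 0, nat_lit 4, nat_lit 0x4a⟩ (t14_344) (t14_8536)) (.node ⟨nat_lit 7, nat_lit 0x40002000500060, nat_lit 0x11040, nat_lit 0, nat_lit 4, nat_lit 0x47⟩ (t14_4440) (t14_12632)))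 (.node ⟨nat_lit 5, nat_lit 0x100018, nat_lit 0x21212, nat_lit 4, nat_lit 4, nat_lit 0x49⟩ (.node ⟨nat_lit 6, nat_lit 0x20002000100030, nat_lit 0x12113, nat_lit 5, nat_lit 4, nat_lit 0x48⟩ (t14_2392) (t14_10584)) (.node ⟨nat_lit 4, nat_lit 8, nat_lit 0x213, nat_lit 3, nat_lit 4, nat_lit 0x47⟩ (t14_6488) (t14_14680)))) (.node ⟨nat_lit 4, nat_lit 0x80008, nat_lit 0x1100, nat_lit 4, nat_lit 3, nat_lit 0x45⟩ (.node ⟨nat_lit 6, nat_lit 0x20, nat_lit 0x222113, nat_lit 0, nat_lit 4, nat_lit 0x4c⟩ (.node ⟨nat_lit 6, nat_lit 0x300030, nat_lit 0x102230, nat_lit 0, nat_lit 4, nat_lit 0x48⟩ (t14_1368) (t14_9560)) (.node ⟨nat_lit 8, nat_lit 0x800020002000c0, nat_lit 0x2020102, nat_lit 0, nat_lit 4, nat_lit 0x4a⟩ (t14_5464) (t14_13656))) (.node ⟨nat_lit 7, nat_lit 0x100060, nat_lit 0x3101102, nat_lit 0, nat_lit 4, nat_lit 0x4b⟩ (.node ⟨nat_lit 7, nat_lit 0x40004000200070,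 nat_lit 0x121003, nat_lit 2, nat_lit 4, nat_lit 0x48⟩ (t14_3416) (t14_11608)) (.node ⟨nat_lit 7, nat_lit 0x20004000400060, nat_lit 0x30110, nat_lit 0, nat_lit 4, nat_lit 0x48⟩ (t14_7512) (.nil))))) (.node ⟨nat_lit 3, nat_lit 4, nat_lit 0x30, nat_lit 3, nat_lit 4, nat_lit 0x44⟩ (.node ⟨nat_lit 4, nat_lit 0xc, nat_lit 0x2121, nat_lit 7, nat_lit 4, nat_lit 0x48⟩ (.node ⟨nat_lit 6, nat_lit 0x800100020, nat_lit 0x111010, nat_lit 1, nat_lit 4, nat_lit 0x47⟩ (.node ⟨nat_lit 7, nat_lit 0x10004000500064, nat_lit 0x201210, nat_lit 1, nat_lit 4, nat_lit 0x47⟩ (t14_856) (t14_9048)) (.node ⟨nat_lit 6, nat_lit 0x200022, nat_lit 0x122122, nat_lit 1, nat_lit 4, nat_lit 0x4a⟩ (t14_4952) (t14_13144))) (.node ⟨nat_lit 5, nat_lit 0x800100018, nat_lit 0x11211, nat_lit 4, nat_lit 4, nat_lit 0x47⟩ (.node ⟨nat_lit 8, nat_lit 0x800020002000400090, nat_lit 0x11021011, nat_lit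 0, nat_lit 4, nat_lit 0x49⟩ (t14_2904) (t14_11096)) (.node ⟨nat_lit 5, nat_lit 0x1000140018, nat_lit 0x11202, nat_lit 0xa, nat_lit 4, nat_lit 0x48⟩ (t14_7000) (t14_15192)))) (.node ⟨nat_lit 6, nat_lit 0xc0030, nat_lit 0x112102, nat_lit 0, nat_lit 4, nat_lit 0x48⟩ (.node ⟨nat_lit 7, nat_lit 0x200020004000440070, nat_lit 0x2111101, nat_lit 1, nat_lit 4, nat_lit 0x48⟩ (.node ⟨nat_lit 6, nat_lit 0x200032, nat_lit 0x101113, nat_lit 0, nat_lit 4, nat_lit 0x47⟩ (t14_1880) (t14_10072)) (.node ⟨nat_lit 8, nat_lit 0x400080008800c000c0, nat_lit 0x201020, nat_lit 1, nat_lit 4, nat_lit 0x48⟩ (t14_5976) (t14_14168))) (.node ⟨nat_lit 6, nat_lit 0x20002000100010, nat_lit 0x1022, nat_lit 2, nat_lit 4, nat_lit 0x47⟩ (.node ⟨nat_lit 7, nat_lit 0x10005000300060, nat_lit 0x1100032, nat_lit 1, nat_lit 4, nat_lit 0x47⟩ (t14_3928) (t14_12120)) (.node ⟨nat_lit 7, nat_lit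 0x2000600050, nat_lit 0x1002031, nat_lit 0, nat_lit 4, nat_lit 0x48⟩ (t14_8024) (.nil)))))
def t14_216 : Tr := .node ⟨nat_lit 6, nat_lit 0x10002000200030, nat_lit 0x101102, nat_lit 0, nat_lit 3, nat_lit 0x45⟩ (.nil) (.nil)
def t14_8408 : Tr := .node ⟨nat_lit 5, nat_lit 0x100010001c, nat_lit 0x1223, nat_lit 6, nat_lit 4, nat_lit 0x47⟩ (.nil) (.nil)
def t14_4312 : Tr := .node ⟨nat_lit 7, nat_lit 0x400020005000600070, nat_lit 0x1102021, nat_lit 1, nat_lit 4, nat_lit 0x47⟩ (.nil) (.nil)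
def t14_12504 : Tr := .node ⟨nat_lit 8, nat_lit 0x2000c000a000e0, nat_lit 0x1011003, nat_lit 0, nat_lit 4, nat_lit 0x47⟩ (.nil) (.nil)
def t14_2264 : Tr := .node ⟨nat_lit 7, nat_lit 0x40002000200020, nat_lit 0x1020220, nat_lit 2, nat_lit 4, nat_lit 0x4a⟩ (.nil) (.nil)
def t14_10456 : Tr := .node ⟨nat_lit 8, nat_lit 0x4000c000c000a0, nat_lit 0x20320, nat_lit 0, nat_lit 4, nat_lit 0x48⟩ (.nil) (.nil)
def t14_6360 : Tr := .node ⟨nat_lit 6, nat_lit 0x2000200030, nat_lit 0x1310, nat_lit 4, nat_lit 4, nat_lit 0x48⟩ (.nil) (.nil)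
def t14_14552 : Tr := .node ⟨nat_lit 8, nat_lit 0x1000a000c0, nat_lit 0x1010102, nat_lit 0, nat_lit 4, nat_lit 0x49⟩ (.nil) (.nil)
def t14_1240 : Tr := .node ⟨nat_lit 7, nat_lit 0x40002000200010, nat_lit 0x10221, nat_lit 4, nat_lit 4, nat_lit 0x49⟩ (.nil) (.nil)
def t14_9432 : Tr := .node ⟨nat_lit 9, nat_lit 0x1000080008000a0014001400180, nat_lit 0x101121002, nat_lit 0, nat_lit 4, nat_lit 0x48⟩ (.nil) (.nil)
def t14_5336 : Tr := .node ⟨nat_lit 6, nat_lit 0x30, nat_lit 0x111110, nat_lit 0, nat_lit 4, nat_lit 0x49⟩ (.nil) (.nil)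
def t14_13528 : Tr := .node ⟨nat_lit 6, nat_lit 0x2000100024, nat_lit 0x11001, nat_lit 2, nat_lit 4, nat_lit 0x46⟩ (.nil) (.nil)
def t14_3288 : Tr := .node ⟨nat_lit 7, nat_lit 0x200020004000400044, nat_lit 0x20201, nat_lit 1, nat_lit 4, nat_lit 0x47⟩ (.nil) (.nil)
def t14_11480 : Tr := .node ⟨nat_lit 6, nat_lit 0x10001000200038, nat_lit 0x11110, nat_lit 5, nat_lit 4, nat_lit 0x47⟩ (.nil) (.nil)
def t14_7384 : Tr := .node ⟨nat_lit 7, nat_lit 0x1000100060, nat_lit 0x1003001, nat_lit 2, nat_lit 4, nat_lit 0x49⟩ (.nil) (.nil)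
def t14_15576 : Tr := .node ⟨nat_lit 4, nat_lit 0, nat_lit 0x2211, nat_lit 0xe, nat_lit 4, nat_lit 0x4b⟩ (.nil) (.nil)
def t14_728 : Tr := .node ⟨nat_lit 7, nat_lit 0x40001000100060, nat_lit 0x13111, nat_lit 1, nat_lit 4, nat_lit 0x48⟩ (.nil) (.nil)
def t14_8920 : Tr := .node ⟨nat_lit 8, nat_lit 0x400080008800c000e0, nat_lit 0x110003, nat_lit 0, nat_lit 4, nat_lit 0x46⟩ (.nil) (.nil)
def t14_4824 : Tr := .node ⟨nat_lit 5, nat_lit 0x1000100008, nat_lit 0x13220, nat_lit 1, nat_lit 3, nat_lit 0x47⟩ (.nil) (.nil)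
def t14_13016 : Tr := .node ⟨nat_lit 7, nat_lit 0x40001000480060, nat_lit 0x13100, nat_lit 2, nat_lit 4, nat_lit 0x48⟩ (.nil) (.nil)
def t14_2776 : Tr := .node ⟨nat_lit 7, nat_lit 0x40002000500064, nat_lit 0x112110, nat_lit 1, nat_lit 4, nat_lit 0x47⟩ (.nil) (.nil)
def t14_10968 : Tr := .node ⟨nat_lit 7, nat_lit 0x400020005000500060, nat_lit 0x1003102, nat_lit 2, nat_lit 4, nat_lit 0x47⟩ (.nil) (.nil)
def t14_6872 : Tr := .node ⟨nat_lit 7, nat_lit 0x4000600064, nat_lit 0x1011130, nat_lit 0, nat_lit 4, nat_lit 0x48⟩ (.nil) (.nil)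
def t14_15064 : Tr := .node ⟨nat_lit 7, nat_lit 0x40001000480060, nat_lit 0x1102001, nat_lit 1, nat_lit 4, nat_lit 0x48⟩ (.nil) (.nil)
def t14_1752 : Tr := .node ⟨nat_lit 5, nat_lit 0x1000100018, nat_lit 0x2102, nat_lit 9, nat_lit 4, nat_lit 0x48⟩ (.nil) (.nil)
def t14_9944 : Tr := .node ⟨nat_lit 6, nat_lit 0x2000280030, nat_lit 0x1033, nat_lit 2, nat_lit 3, nat_lit 0x45⟩ (.nil) (.nil)
def t14_5848 : Tr := .node ⟨nat_lit 8, nat_lit 0x80004000c000a0, nat_lit 0x11121, nat_lit 1, nat_lit 4, nat_lit 0x48⟩ (.nil) (.nil)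
def t14_14040 : Tr := .node ⟨nat_lit 7, nat_lit 0x4000100060, nat_lit 0x11220, nat_lit 2, nat_lit 4, nat_lit 0x49⟩ (.nil) (.nil)
def t14_3800 : Tr := .node ⟨nat_lit 8, nat_lit 0x8000400040004000a000d0, nat_lit 0x10212000, nat_lit 0, nat_lit 4, nat_lit 0x48⟩ (.nil) (.nil)
def t14_11992 : Tr := .node ⟨nat_lit 6, nat_lit 0x2000280030, nat_lit 0x12201, nat_lit 3, nat_lit 4, nat_lit 0x48⟩ (.nil) (.nil)
def t14_7896 : Tr := .node ⟨nat_lit 7, nat_lit 0x20004000100060, nat_lit 0x11002, nat_lit 2, nat_lit 4, nat_lit 0x47⟩ (.nil) (.nil)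
def t9_216 : Tr := .node ⟨nat_lit 3, nat_lit 0, nat_lit 0x332, nat_lit 3, nat_lit 3, nat_lit 0x48⟩ (.node ⟨nat_lit 4, nat_lit 0x8000c000c, nat_lit 0x3131, nat_lit 7, nat_lit 4, nat_lit 0x48⟩ (.node ⟨nat_lit 7, nat_lit 0x40004000480048, nat_lit 0x311020, nat_lit 2, nat_lit 4, nat_lit 0x49⟩ (.node ⟨nat_lit 6, nat_lit 0x200022, nat_lit 0x121131, nat_lit 0, nat_lit 4, nat_lit 0x4a⟩ (.node ⟨nat_lit 8, nat_lit 0x80004000400020, nat_lit 0x220102, nat_lit 1, nat_lit 4, nat_lit 0x4b⟩ (t14_216) (t14_8408)) (.node ⟨nat_lit 7, nat_lit 0x40001000600050, nat_lit 0x1102030, nat_lit 0, nat_lit 3, nat_lit 0x46⟩ (t14_4312) (t14_12504))) (.node ⟨nat_lit 4, nat_lit 0x80004, nat_lit 0x1223, nat_lit 5, nat_lit 4, nat_lit 0x48⟩ (.node ⟨nat_lit 8, nat_lit 0x40004000800080008800c8, nat_lit 0x10210103, nat_lit 0, nat_lit 4, nat_lit 0x47⟩ (t14_2264) (t14_10456)) (.node ⟨nat_lit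 6, nat_lit 0x1000280034, nat_lit 0x120220, nat_lit 3, nat_lit 4, nat_lit 0x48⟩ (t14_6360) (t14_14552)))) (.node ⟨nat_lit 5, nat_lit 0x18, nat_lit 0x11210, nat_lit 1, nat_lit 4, nat_lit 0x47⟩ (.node ⟨nat_lit 6, nat_lit 0x2000240018, nat_lit 0x121221, nat_lit 0, nat_lit 4, nat_lit 0x48⟩ (.node ⟨nat_lit 7, nat_lit 0x1000080060, nat_lit 0x1100003, nat_lit 1, nat_lit 4, nat_lit 0x48⟩ (t14_1240) (t14_9432)) (.node ⟨nat_lit 8, nat_lit 0x800040009000c800d0, nat_lit 0x11202011, nat_lit 0, nat_lit 4, nat_lit 0x48⟩ (t14_5336) (t14_13528))) (.node ⟨nat_lit 5, nat_lit 0x100018, nat_lit 0x2220, nat_lit 5, nat_lit 4, nat_lit 0x48⟩ (.node ⟨nat_lit 5, nat_lit 0x800100018, nat_lit 0x11014, nat_lit 6, nat_lit 4, nat_lit 0x48⟩ (t14_3288) (t14_11480)) (.node ⟨nat_lit 7, nat_lit 0x40004000480030, nat_lit 0x112002, nat_lit 2, nat_lit 4, nat_lit 0x48⟩ (t14_7384) (t14_15576)))))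 (.node ⟨nat_lit 6, nat_lit 0x200010, nat_lit 0x13100, nat_lit 1, nat_lit 4, nat_lit 0x49⟩ (.node ⟨nat_lit 7, nat_lit 0x1000080060, nat_lit 0x2101002, nat_lit 1, nat_lit 4, nat_lit 0x49⟩ (.node ⟨nat_lit 6, nat_lit 0x2000100038, nat_lit 0x102102, nat_lit 2, nat_lit 4, nat_lit 0x47⟩ (.node ⟨nat_lit 7, nat_lit 0x200040, nat_lit 0x2111110, nat_lit 0, nat_lit 4, nat_lit 0x4b⟩ (t14_728) (t14_8920)) (.node ⟨nat_lit 7, nat_lit 0x20004000440030, nat_lit 0x100222, nat_lit 0, nat_lit 4, nat_lit 0x47⟩ (t14_4824) (t14_13016))) (.node ⟨nat_lit 6, nat_lit 0x2000100010, nat_lit 0x1000, nat_lit 2, nat_lit 4, nat_lit 0x46⟩ (.node ⟨nat_lit 5, nat_lit 0x140018, nat_lit 0x12104, nat_lit 3, nat_lit 4, nat_lit 0x48⟩ (t14_2776) (t14_10968)) (.node ⟨nat_lit 8, nat_lit 0x10005000c000a0, nat_lit 0x10110022, nat_lit 0, nat_lit 4, nat_lit 0x48⟩ (t14_6872) (t14_15064)))) (.node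 ⟨nat_lit 5, nat_lit 0x10, nat_lit 0x1110, nat_lit 0, nat_lit 4, nat_lit 0x46⟩ (.node ⟨nat_lit 6, nat_lit 0x2000100008, nat_lit 0x201011, nat_lit 1, nat_lit 3, nat_lit 0x47⟩ (.node ⟨nat_lit 7, nat_lit 0x4000600050, nat_lit 0x11013, nat_lit 2, nat_lit 4, nat_lit 0x48⟩ (t14_1752) (t14_9944)) (.node ⟨nat_lit 7, nat_lit 0x6000600050, nat_lit 0x22212, nat_lit 0, nat_lit 4, nat_lit 0x48⟩ (t14_5848) (t14_14040))) (.node ⟨nat_lit 6, nat_lit 0x2000080034, nat_lit 0x220002, nat_lit 0, nat_lit 4, nat_lit 0x47⟩ (.node ⟨nat_lit 7, nat_lit 0x2000480070, nat_lit 0x110003, nat_lit 2, nat_lit 4, nat_lit 0x47⟩ (t14_3800) (t14_11992)) (.node ⟨nat_lit 6, nat_lit 0x2000240024, nat_lit 0x111200, nat_lit 5, nat_lit 4, nat_lit 0x49⟩ (t14_7896) (.nil)))))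
def t14_472 : Tr := .node ⟨nat_lit 6, nat_lit 0x1000280034, nat_lit 0x122101, nat_lit 1, nat_lit 4, nat_lit 0x48⟩ (.nil) (.nil)
def t14_8664 : Tr := .node ⟨nat_lit 3, nat_lit 6, nat_lit 0, nat_lit 7, nat_lit 4, nat_lit 0x43⟩ (.nil) (.nil)
def t14_4568 : Tr := .node ⟨nat_lit 6, nat_lit 0x2800280030, nat_lit 0x120212, nat_lit 2, nat_lit 4, nat_lit 0x47⟩ (.nil) (.nil)
def t14_12760 : Tr := .node ⟨nat_lit 9, nat_lit 0x1000100010000800088012001c0, nat_lit 0x1002000, nat_lit 1, nat_lit 4, nat_lit 0x47⟩ (.nil) (.nil)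
def t14_2520 : Tr := .node ⟨nat_lit 7, nat_lit 0x40002000500064, nat_lit 0x213101, nat_lit 0, nat_lit 4, nat_lit 0x48⟩ (.nil) (.nil)
def t14_10712 : Tr := .node ⟨nat_lit 6, nat_lit 0x2000300028, nat_lit 0x10021, nat_lit 2, nat_lit 3, nat_lit 0x45⟩ (.nil) (.nil)
def t14_6616 : Tr := .node ⟨nat_lit 7, nat_lit 0x40004000200048, nat_lit 0x112010, nat_lit 4, nat_lit 4, nat_lit 0x49⟩ (.nil) (.nil)
def t14_14808 : Tr := .node ⟨nat_lit 8, nat_lit 0x800040004000a000e000d0, nat_lit 0x21011, nat_lit 2, nat_lit 4, nat_lit 0x46⟩ (.nil) (.nil)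
def t14_1496 : Tr := .node ⟨nat_lit 7, nat_lit 0x5000180060, nat_lit 0x10112, nat_lit 1, nat_lit 4, nat_lit 0x46⟩ (.nil) (.nil)
def t14_9688 : Tr := .node ⟨nat_lit 9, nat_lit 0x100010000800110018001a0, nat_lit 0x1011020, nat_lit 1, nat_lit 4, nat_lit 0x48⟩ (.nil) (.nil)
def t14_5592 : Tr := .node ⟨nat_lit 7, nat_lit 0x6000600060, nat_lit 0x21220, nat_lit 1, nat_lit 4, nat_lit 0x48⟩ (.nil) (.nil)
def t14_13784 : Tr := .node ⟨nat_lit 7, nat_lit 0x20004000440030, nat_lit 1, nat_lit 1, nat_lit 4, nat_lit 0x45⟩ (.nil) (.nil)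
def t14_3544 : Tr := .node ⟨nat_lit 6, nat_lit 0x1000280034, nat_lit 0x11, nat_lit 0, nat_lit 4, nat_lit 0x43⟩ (.nil) (.nil)
def t14_11736 : Tr := .node ⟨nat_lit 2, nat_lit 2, nat_lit 4, nat_lit 0xd, nat_lit 4, nat_lit 0x46⟩ (.nil) (.nil)
def t14_7640 : Tr := .node ⟨nat_lit 5, nat_lit 0x1000080018, nat_lit 0x22, nat_lit 0xb, nat_lit 4, nat_lit 0x47⟩ (.nil) (.nil)
def t14_984 : Tr := .node ⟨nat_lit 5, nat_lit 0x100010, nat_lit 0x1121, nat_lit 5, nat_lit 4, nat_lit 0x48⟩ (.nil) (.nil)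
def t14_9176 : Tr := .node ⟨nat_lit 7, nat_lit 0x20005000500060, nat_lit 0x110202, nat_lit 0, nat_lit 3, nat_lit 0x45⟩ (.nil) (.nil)
def t14_5080 : Tr := .node ⟨nat_lit 7, nat_lit 0x400020005000600070, nat_lit 0x1013011, nat_lit 2, nat_lit 4, nat_lit 0x47⟩ (.nil) (.nil)
def t14_13272 : Tr := .node ⟨nat_lit 6, nat_lit 0x20001000280030, nat_lit 0x2100, nat_lit 4, nat_lit 4, nat_lit 0x46⟩ (.nil) (.nil)
def t14_3032 : Tr := .node ⟨nat_lit 7, nat_lit 0x200040004800700070, nat_lit 0x112011, nat_lit 2, nat_lit 4, nat_lit 0x46⟩ (.nil) (.nil)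
def t14_11224 : Tr := .node ⟨nat_lit 7, nat_lit 0x20005000680070, nat_lit 0x110013, nat_lit 2, nat_lit 4, nat_lit 0x46⟩ (.nil) (.nil)
def t14_7128 : Tr := .node ⟨nat_lit 7, nat_lit 0x5000500060, nat_lit 0x112110, nat_lit 1, nat_lit 4, nat_lit 0x48⟩ (.nil) (.nil)
def t14_15320 : Tr := .node ⟨nat_lit 5, nat_lit 0x1000100018, nat_lit 0x11210, nat_lit 5, nat_lit 3, nat_lit 0x46⟩ (.nil) (.nil)
def t14_2008 : Tr := .node ⟨nat_lit 6, nat_lit 0x2000300028, nat_lit 0x1302, nat_lit 3, nat_lit 4, nat_lit 0x47⟩ (.nil) (.nil)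
def t14_10200 : Tr := .node ⟨nat_lit 7, nat_lit 0x4000600064, nat_lit 0x10202, nat_lit 0, nat_lit 4, nat_lit 0x47⟩ (.nil) (.nil)
def t14_6104 : Tr := .node ⟨nat_lit 3, nat_lit 4, nat_lit 0x130, nat_lit 9, nat_lit 4, nat_lit 0x47⟩ (.nil) (.nil)
def t14_14296 : Tr := .node ⟨nat_lit 8, nat_lit 0x400080002000d000e0, nat_lit 0x1001003, nat_lit 3, nat_lit 4, nat_lit 0x47⟩ (.nil) (.nil)
def t14_4056 : Tr := .node ⟨nat_lit 7, nat_lit 0x40001000100060, nat_lit 0x200201, nat_lit 0, nat_lit 4, nat_lit 0x48⟩ (.nil) (.nil)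
def t14_12248 : Tr := .node ⟨nat_lit 8, nat_lit 0x4000800080009000900088, nat_lit 0x12200, nat_lit 1, nat_lit 4, nat_lit 0x48⟩ (.nil) (.nil)
def t14_8152 : Tr := .node ⟨nat_lit 7, nat_lit 0x4000440060, nat_lit 0x111230, nat_lit 1, nat_lit 4, nat_lit 0x49⟩ (.nil) (.nil)
def t9_472 : Tr := .node ⟨nat_lit 4, nat_lit 8, nat_lit 0x3320, nat_lit 2, nat_lit 3, nat_lit 0x49⟩ (.node ⟨nat_lit 5, nat_lit 0x10001c001c, nat_lit 0x31120, nat_lit 5, nat_lit 4, nat_lit 0x47⟩ (.node ⟨nat_lit 6, nat_lit 0x2000100032, nat_lit 0x22220, nat_lit 0, nat_lit 4, nat_lit 0x48⟩ (.node ⟨nat_lit 7, nat_lit 0x200020004000440064, nat_lit 0x1020211, nat_lit 0, nat_lit 4, nat_lit 0x47⟩ (.node ⟨nat_lit 7, nat_lit 0x10004000400064, nat_lit 0x210121, nat_lit 0, nat_lit 4, nat_lit 0x48⟩ (t14_472) (t14_8664)) (.node ⟨nat_lit 7, nat_lit 0x40002000200048, nat_lit 0x2112201, nat_lit 0,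 nat_lit 4, nat_lit 0x4a⟩ (t14_4568) (t14_12760))) (.node ⟨nat_lit 6, nat_lit 0x2000080034, nat_lit 0x110002, nat_lit 0, nat_lit 4, nat_lit 0x45⟩ (.node ⟨nat_lit 6, nat_lit 0x2000100030, nat_lit 0x111213, nat_lit 3, nat_lit 4, nat_lit 0x49⟩ (t14_2520) (t14_10712)) (.node ⟨nat_lit 7, nat_lit 0x40004000200060, nat_lit 0x21113, nat_lit 0, nat_lit 4, nat_lit 0x48⟩ (t14_6616) (t14_14808)))) (.node ⟨nat_lit 5, nat_lit 0x18, nat_lit 0x11201, nat_lit 0, nat_lit 4, nat_lit 0x47⟩ (.node ⟨nat_lit 5, nat_lit 0x100008, nat_lit 0x22113, nat_lit 1, nat_lit 3, nat_lit 0x48⟩ (.node ⟨nat_lit 6, nat_lit 0x30, nat_lit 0x111113, nat_lit 0, nat_lit 3, nat_lit 0x48⟩ (t14_1496) (t14_9688)) (.node ⟨nat_lit 6, nat_lit 0x2000280030, nat_lit 0x22103, nat_lit 0, nat_lit 3, nat_lit 0x46⟩ (t14_5592) (t14_13784))) (.node ⟨nat_lit 4, nat_lit 0x80004, nat_lit 0x2103, nat_lit 5, nat_lit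 3, nat_lit 0x46⟩ (.node ⟨nat_lit 5, nat_lit 0x40018, nat_lit 0x10100, nat_lit 4, nat_lit 4, nat_lit 0x46⟩ (t14_3544) (t14_11736)) (.node ⟨nat_lit 5, nat_lit 0x100018, nat_lit 0x20120, nat_lit 5, nat_lit 3, nat_lit 0x47⟩ (t14_7640) (.nil))))) (.node ⟨nat_lit 6, nat_lit 0x200020, nat_lit 0x131111, nat_lit 1, nat_lit 3, nat_lit 0x49⟩ (.node ⟨nat_lit 5, nat_lit 0x100010, nat_lit 0x12210, nat_lit 5, nat_lit 4, nat_lit 0x49⟩ (.node ⟨nat_lit 6, nat_lit 0x20, nat_lit 0x111111, nat_lit 5, nat_lit 4, nat_lit 0x4b⟩ (.node ⟨nat_lit 6, nat_lit 0x800200030, nat_lit 0x11310, nat_lit 0, nat_lit 4, nat_lit 0x47⟩ (t14_984) (t14_9176)) (.node ⟨nat_lit 6, nat_lit 0x20, nat_lit 0x221112, nat_lit 1, nat_lit 3, nat_lit 0x4a⟩ (t14_5080) (t14_13272))) (.node ⟨nat_lit 6, nat_lit 0x100020, nat_lit 0x111102, nat_lit 0, nat_lit 4, nat_lit 0x49⟩ (.node ⟨nat_lit 4, nat_lit 0x8000c,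 nat_lit 0x2111, nat_lit 7, nat_lit 3, nat_lit 0x46⟩ (t14_3032) (t14_11224)) (.node ⟨nat_lit 7, nat_lit 0x200040004800300060, nat_lit 0x1121102, nat_lit 3, nat_lit 4, nat_lit 0x48⟩ (t14_7128) (t14_15320)))) (.node ⟨nat_lit 6, nat_lit 0x280030, nat_lit 0x111211, nat_lit 1, nat_lit 4, nat_lit 0x48⟩ (.node ⟨nat_lit 6, nat_lit 0x30, nat_lit 0x301111, nat_lit 1, nat_lit 4, nat_lit 0x4a⟩ (.node ⟨nat_lit 6, nat_lit 0x300038, nat_lit 0x103113, nat_lit 2, nat_lit 4, nat_lit 0x48⟩ (t14_2008) (t14_10200)) (.node ⟨nat_lit 7, nat_lit 0x200020004000400044, nat_lit 0x1020210, nat_lit 0, nat_lit 4, nat_lit 0x48⟩ (t14_6104) (t14_14296))) (.node ⟨nat_lit 5, nat_lit 0x10001a, nat_lit 0x21132, nat_lit 4, nat_lit 4, nat_lit 0x49⟩ (.node ⟨nat_lit 8, nat_lit 0x800040009000e0, nat_lit 0x1100103, nat_lit 0, nat_lit 4, nat_lit 0x48⟩ (t14_4056) (t14_12248)) (.node ⟨nat_lit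 7, nat_lit 0x10002000200040, nat_lit 0x1011201, nat_lit 1, nat_lit 3, nat_lit 0x47⟩ (t14_8152) (.nil)))))
def t14_56 : Tr := .node ⟨nat_lit 5, nat_lit 0x100010, nat_lit 0x12111, nat_lit 9, nat_lit 4, nat_lit 0x4a⟩ (.nil) (.nil)
def t14_8248 : Tr := .node ⟨nat_lit 8, nat_lit 0x800020008800c8, nat_lit 0x1101013, nat_lit 0, nat_lit 4, nat_lit 0x48⟩ (.nil) (.nil)
def t14_4152 : Tr := .node ⟨nat_lit 9, nat_lit 0x10001000100008000400120, nat_lit 0x11111101, nat_lit 0, nat_lit 4, nat_lit 0x4a⟩ (.nil) (.nil)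
def t14_12344 : Tr := .node ⟨nat_lit 6, nat_lit 0x2000200020, nat_lit 0x21410, nat_lit 1, nat_lit 3, nat_lit 0x48⟩ (.nil) (.nil)
def t14_2104 : Tr := .node ⟨nat_lit 6, nat_lit 0x20002000100030, nat_lit 0x12002, nat_lit 7, nat_lit 4, nat_lit 0x48⟩ (.nil) (.nil)
def t14_10296 : Tr := .node ⟨nat_lit 8, nat_lit 0x4000400080002000d0, nat_lit 0x1000002, nat_lit 0, nat_lit 4, nat_lit 0x47⟩ (.nil) (.nil)
def t14_6200 : Tr := .node ⟨nat_lit 6, nat_lit 0x200010, nat_lit 0x11101, nat_lit 4, nat_lit 4, nat_lit 0x49⟩ (.nil) (.nil)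
def t14_14392 : Tr := .node ⟨nat_lit 7, nat_lit 0x40002000500060, nat_lit 0x1203, nat_lit 2, nat_lit 4, nat_lit 0x47⟩ (.nil) (.nil)
def t14_1080 : Tr := .node ⟨nat_lit 8, nat_lit 0x200080001000c0, nat_lit 0x1010211, nat_lit 1, nat_lit 4, nat_lit 0x49⟩ (.nil) (.nil)
def t14_9272 : Tr := .node ⟨nat_lit 8, nat_lit 0x8000800040009000d000e0, nat_lit 0x12012, nat_lit 2, nat_lit 4, nat_lit 0x46⟩ (.nil) (.nil)
def t14_5176 : Tr := .node ⟨nat_lit 6, nat_lit 0x2000080030, nat_lit 0x11300, nat_lit 1, nat_lit 4, nat_lit 0x47⟩ (.nil) (.nil)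
def t14_13368 : Tr := .node ⟨nat_lit 7, nat_lit 0x20002800500068, nat_lit 0x2030, nat_lit 1, nat_lit 4, nat_lit 0x46⟩ (.nil) (.nil)
def t14_3128 : Tr := .node ⟨nat_lit 6, nat_lit 0x800280030, nat_lit 0x101101, nat_lit 1, nat_lit 4, nat_lit 0x46⟩ (.nil) (.nil)
def t14_11320 : Tr := .node ⟨nat_lit 5, nat_lit 0x18001c, nat_lit 0x10202, nat_lit 3, nat_lit 4, nat_lit 0x46⟩ (.nil) (.nil)
def t14_7224 : Tr := .node ⟨nat_lit 6, nat_lit 0x10001000200020, nat_lit 0x111111, nat_lit 7, nat_lit 4, nat_lit 0x49⟩ (.nil) (.nil)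
def t14_15416 : Tr := .node ⟨nat_lit 9, nat_lit 0x800080010000a0011001a001c0, nat_lit 0x11111000, nat_lit 0, nat_lit 4, nat_lit 0x47⟩ (.nil) (.nil)
def t14_568 : Tr := .node ⟨nat_lit 6, nat_lit 0x2000300030, nat_lit 0x1022, nat_lit 2, nat_lit 4, nat_lit 0x46⟩ (.nil) (.nil)
def t14_8760 : Tr := .node ⟨nat_lit 5, nat_lit 0x1000100008, nat_lit 0x11110, nat_lit 4, nat_lit 3, nat_lit 0x46⟩ (.nil) (.nil)
def t14_4664 : Tr := .node ⟨nat_lit 8, nat_lit 0x4000800088005000c0, nat_lit 0x1210021, nat_lit 0, nat_lit 4, nat_lit 0x48⟩ (.nil) (.nil)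
def t14_12856 : Tr := .node ⟨nat_lit 4, nat_lit 0xc, nat_lit 0x1040, nat_lit 3, nat_lit 4, nat_lit 0x47⟩ (.nil) (.nil)
def t14_2616 : Tr := .node ⟨nat_lit 7, nat_lit 0x40001000600068, nat_lit 0x101020, nat_lit 1, nat_lit 4, nat_lit 0x46⟩ (.nil) (.nil)
def t14_10808 : Tr := .node ⟨nat_lit 5, nat_lit 0x1000100010, nat_lit 0x1221, nat_lit 0xa, nat_lit 4, nat_lit 0x49⟩ (.nil) (.nil)
def t14_6712 : Tr := .node ⟨nat_lit 7, nat_lit 0x40, nat_lit 0x111112, nat_lit 0, nat_lit 4, nat_lit 0x4b⟩ (.nil) (.nil)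
def t14_14904 : Tr := .node ⟨nat_lit 8, nat_lit 0x2000800088008800c8, nat_lit 0x10001111, nat_lit 3, nat_lit 4, nat_lit 0x48⟩ (.nil) (.nil)
def t14_1592 : Tr := .node ⟨nat_lit 7, nat_lit 0x40004000200020, nat_lit 0x12110, nat_lit 0, nat_lit 4, nat_lit 0x48⟩ (.nil) (.nil)
def t14_9784 : Tr := .node ⟨nat_lit 9, nat_lit 0x400020014001800180, nat_lit 0x101220, nat_lit 0, nat_lit 4, nat_lit 0x48⟩ (.nil) (.nil)
def t14_5688 : Tr := .node ⟨nat_lit 7, nat_lit 0x2000500060, nat_lit 0x1001120, nat_lit 0, nat_lit 4, nat_lit 0x47⟩ (.nil) (.nil)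
def t14_13880 : Tr := .node ⟨nat_lit 7, nat_lit 0x20001000500068, nat_lit 0x3002, nat_lit 1, nat_lit 4, nat_lit 0x46⟩ (.nil) (.nil)
def t14_3640 : Tr := .node ⟨nat_lit 7, nat_lit 0x4000600050, nat_lit 0x2021, nat_lit 3, nat_lit 4, nat_lit 0x48⟩ (.nil) (.nil)
def t14_11832 : Tr := .node ⟨nat_lit 8, nat_lit 0x2000800080008800c0, nat_lit 0x130, nat_lit 1, nat_lit 4, nat_lit 0x47⟩ (.nil) (.nil)
def t14_7736 : Tr := .node ⟨nat_lit 4, nat_lit 0x8000e, nat_lit 0x20, nat_lit 5, nat_lit 4, nat_lit 0x44⟩ (.nil) (.nil)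
def t9_56 : Tr := .node ⟨nat_lit 4, nat_lit 0xc, nat_lit 0x2211, nat_lit 1, nat_lit 3, nat_lit 0x46⟩ (.node ⟨nat_lit 3, nat_lit 6, nat_lit 0x112, nat_lit 2, nat_lit 3, nat_lit 0x43⟩ (.node ⟨nat_lit 5, nat_lit 0x18, nat_lit 0x310, nat_lit 2, nat_lit 4, nat_lit 0x47⟩ (.node ⟨nat_lit 6, nat_lit 0x2000100024, nat_lit 0x12111, nat_lit 1, nat_lit 4, nat_lit 0x47⟩ (.node ⟨nat_lit 5, nat_lit 0x18, nat_lit 0x21204, nat_lit 0, nat_lit 4, nat_lit 0x49⟩ (t14_56) (t14_8248)) (.node ⟨nat_lit 7, nat_lit 0x4000100060, nat_lit 0x110100, nat_lit 0, nat_lit 4, nat_lit 0x48⟩ (t14_4152) (t14_12344))) (.node ⟨nat_lit 4, nat_lit 0xc, nat_lit 0x2122, nat_lit 0xa, nat_lit 4, nat_lit 0x49⟩ (.node ⟨nat_lit 5, nat_lit 0x100008, nat_lit 0x1122, nat_lit 2, nat_lit 4, nat_lit 0x47⟩ (t14_2104) (t14_10296)) (.node ⟨nat_lit 7, nat_lit 0x4000500060, nat_lit 0x202201, nat_lit 0, nat_lit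 4, nat_lit 0x49⟩ (t14_6200) (t14_14392)))) (.node ⟨nat_lit 6, nat_lit 0x2000080010, nat_lit 0x20022, nat_lit 2, nat_lit 4, nat_lit 0x48⟩ (.node ⟨nat_lit 6, nat_lit 0x1000100020, nat_lit 0x122110, nat_lit 0, nat_lit 3, nat_lit 0x48⟩ (.node ⟨nat_lit 6, nat_lit 0x20002000100028, nat_lit 0x11131, nat_lit 2, nat_lit 4, nat_lit 0x47⟩ (t14_1080) (t14_9272)) (.node ⟨nat_lit 4, nat_lit 0x80008, nat_lit 0x1322, nat_lit 7, nat_lit 3, nat_lit 0x47⟩ (t14_5176) (t14_13368))) (.node ⟨nat_lit 4, nat_lit 0x80008, nat_lit 0x1210, nat_lit 0xa, nat_lit 4, nat_lit 0x48⟩ (.node ⟨nat_lit 3, nat_lit 0x40006, nat_lit 0x210, nat_lit 7, nat_lit 4, nat_lit 0x45⟩ (t14_3128) (t14_11320)) (.node ⟨nat_lit 3, nat_lit 6, nat_lit 0x112, nat_lit 0xd, nat_lit 4, nat_lit 0x47⟩ (t14_7224) (t14_15416))))) (.node ⟨nat_lit 5, nat_lit 0x1000100008, nat_lit 0x3203, nat_lit 4, nat_lit 4, nat_lit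 0x49⟩ (.node ⟨nat_lit 4, nat_lit 8, nat_lit 0x2110, nat_lit 6, nat_lit 3, nat_lit 0x47⟩ (.node ⟨nat_lit 7, nat_lit 0x20004000400044, nat_lit 0x20121, nat_lit 0, nat_lit 4, nat_lit 0x48⟩ (.node ⟨nat_lit 9, nat_lit 0x100008000400020, nat_lit 0x210001, nat_lit 5, nat_lit 4, nat_lit 0x4c⟩ (t14_568) (t14_8760)) (.node ⟨nat_lit 6, nat_lit 0x2000100010, nat_lit 0x111100, nat_lit 1, nat_lit 3, nat_lit 0x47⟩ (t14_4664) (t14_12856))) (.node ⟨nat_lit 6, nat_lit 0x30000c, nat_lit 0x1011, nat_lit 0, nat_lit 4, nat_lit 0x45⟩ (.node ⟨nat_lit 6, nat_lit 0x200010, nat_lit 0x11103, nat_lit 5, nat_lit 4, nat_lit 0x4a⟩ (t14_2616) (t14_10808)) (.node ⟨nat_lit 0xa, nat_lit 0x200010000800040, nat_lit 0x1210000, nat_lit 3, nat_lit 4, nat_lit 0x4d⟩ (t14_6712) (t14_14904)))) (.node ⟨nat_lit 6, nat_lit 0xc0030, nat_lit 0x211111, nat_lit 0, nat_lit 3, nat_lit 0x47⟩ (.node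 ⟨nat_lit 6, nat_lit 0x2000080030, nat_lit 0x212021, nat_lit 0, nat_lit 4, nat_lit 0x49⟩ (.node ⟨nat_lit 4, nat_lit 0x8000e, nat_lit 0x113, nat_lit 5, nat_lit 4, nat_lit 0x44⟩ (t14_1592) (t14_9784)) (.node ⟨nat_lit 7, nat_lit 0x40004000200060, nat_lit 0x112021, nat_lit 3, nat_lit 4, nat_lit 0x49⟩ (t14_5688) (t14_13880))) (.node ⟨nat_lit 4, nat_lit 0x80008, nat_lit 0x122, nat_lit 5, nat_lit 3, nat_lit 0x45⟩ (.node ⟨nat_lit 5, nat_lit 0x180018, nat_lit 0x200, nat_lit 4, nat_lit 4, nat_lit 0x45⟩ (t14_3640) (t14_11832)) (.node ⟨nat_lit 8, nat_lit 0x4000800020002000d0, nat_lit 0x11002101, nat_lit 3, nat_lit 4, nat_lit 0x49⟩ (t14_7736) (.nil)))))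
def t14_312 : Tr := .node ⟨nat_lit 7, nat_lit 0x2000400060, nat_lit 0x121221, nat_lit 1, nat_lit 4, nat_lit 0x4a⟩ (.nil) (.nil)
def t14_8504 : Tr := .node ⟨nat_lit 9, nat_lit 0x8001000100004001100110, nat_lit 0x1011031, nat_lit 0, nat_lit 4, nat_lit 0x49⟩ (.nil) (.nil)
def t14_4408 : Tr := .node ⟨nat_lit 8, nat_lit 0x80004000200088, nat_lit 0x11120010, nat_lit 0, nat_lit 4, nat_lit 0x4a⟩ (.nil) (.nil)
def t14_12600 : Tr := .node ⟨nat_lit 6, nat_lit 0x800300030, nat_lit 0x100200, nat_lit 0, nat_lit 4, nat_lit 0x45⟩ (.nil) (.nil)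
def t14_2360 : Tr := .node ⟨nat_lit 6, nat_lit 0x1000200034, nat_lit 0x21020, nat_lit 4, nat_lit 4, nat_lit 0x48⟩ (.nil) (.nil)
def t14_10552 : Tr := .node ⟨nat_lit 8, nat_lit 0x1000a0006000c0, nat_lit 0x11220, nat_lit 0, nat_lit 4, nat_lit 0x47⟩ (.nil) (.nil)
def t14_6456 : Tr := .node ⟨nat_lit 6, nat_lit 0x2000300030, nat_lit 0x11021, nat_lit 3, nat_lit 4, nat_lit 0x47⟩ (.nil) (.nil)
def t14_14648 : Tr := .node ⟨nat_lit 7, nat_lit 0x400020005000600070, nat_lit 0x1012011, nat_lit 4, nat_lit 4, nat_lit 0x47⟩ (.nil) (.nil)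
def t14_1336 : Tr := .node ⟨nat_lit 8, nat_lit 0x800080004000a000a000e0, nat_lit 0x10011102, nat_lit 1, nat_lit 4, nat_lit 0x47⟩ (.nil) (.nil)
def t14_9528 : Tr := .node ⟨nat_lit 0xa, nat_lit 0x100020002000080022002200210, nat_lit 0x1000110110, nat_lit 1, nat_lit 4, nat_lit 0x4a⟩ (.nil) (.nil)
def t14_5432 : Tr := .node ⟨nat_lit 5, nat_lit 0x100010, nat_lit 0x1131, nat_lit 7, nat_lit 4, nat_lit 0x49⟩ (.nil) (.nil)
def t14_13624 : Tr := .node ⟨nat_lit 7, nat_lit 0x4000500064, nat_lit 0x20, nat_lit 1, nat_lit 4, nat_lit 0x46⟩ (.nil) (.nil)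
def t14_3384 : Tr := .node ⟨nat_lit 7, nat_lit 0x20004000400060, nat_lit 0x30101, nat_lit 0, nat_lit 4, nat_lit 0x48⟩ (.nil) (.nil)
def t14_11576 : Tr := .node ⟨nat_lit 6, nat_lit 0x800300030, nat_lit 0x42, nat_lit 3, nat_lit 4, nat_lit 0x46⟩ (.nil) (.nil)
def t14_7480 : Tr := .node ⟨nat_lit 8, nat_lit 0xc000a0, nat_lit 0x10011111, nat_lit 3, nat_lit 4, nat_lit 0x4b⟩ (.nil) (.nil)
def t14_824 : Tr := .node ⟨nat_lit 8, nat_lit 0x8000800040004000a000e0, nat_lit 0x10113101, nat_lit 0, nat_lit 4, nat_lit 0x48⟩ (.nil) (.nil)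
def t14_9016 : Tr := .node ⟨nat_lit 9, nat_lit 0x80010001000100012001200110, nat_lit 0x111101, nat_lit 3, nat_lit 4, nat_lit 0x49⟩ (.nil) (.nil)
def t14_4920 : Tr := .node ⟨nat_lit 7, nat_lit 0x400020, nat_lit 0x111100, nat_lit 9, nat_lit 4, nat_lit 0x4c⟩ (.nil) (.nil)
def t14_13112 : Tr := .node ⟨nat_lit 6, nat_lit 0x2000100024, nat_lit 0x11320, nat_lit 1, nat_lit 4, nat_lit 0x48⟩ (.nil) (.nil)
def t14_2872 : Tr := .node ⟨nat_lit 8, nat_lit 0x8000a000c000c8, nat_lit 0x13102, nat_lit 0, nat_lit 4, nat_lit 0x48⟩ (.nil) (.nil)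
def t14_11064 : Tr := .node ⟨nat_lit 7, nat_lit 0x600060, nat_lit 0x1111120, nat_lit 0, nat_lit 4, nat_lit 0x4a⟩ (.nil) (.nil)
def t14_6968 : Tr := .node ⟨nat_lit 6, nat_lit 0x2000080030, nat_lit 0x120101, nat_lit 3, nat_lit 4, nat_lit 0x48⟩ (.nil) (.nil)
def t14_15160 : Tr := .node ⟨nat_lit 8, nat_lit 0x8000400040004000a000a0, nat_lit 0x111010, nat_lit 1, nat_lit 4, nat_lit 0x47⟩ (.nil) (.nil)
def t14_1848 : Tr := .node ⟨nat_lit 6, nat_lit 0x800200030, nat_lit 0x30012, nat_lit 2, nat_lit 4, nat_lit 0x48⟩ (.nil) (.nil)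
def t14_10040 : Tr := .node ⟨nat_lit 5, nat_lit 0x1000180018, nat_lit 0x220, nat_lit 8, nat_lit 4, nat_lit 0x46⟩ (.nil) (.nil)
def t14_5944 : Tr := .node ⟨nat_lit 8, nat_lit 0x80008000800088, nat_lit 0x1111110, nat_lit 4, nat_lit 4, nat_lit 0x4b⟩ (.nil) (.nil)
def t14_14136 : Tr := .node ⟨nat_lit 4, nat_lit 0x800080008, nat_lit 0x200, nat_lit 5, nat_lit 4, nat_lit 0x45⟩ (.nil) (.nil)
def t14_3896 : Tr := .node ⟨nat_lit 8, nat_lit 0x80004000a000d000d0, nat_lit 0x10013010, nat_lit 1, nat_lit 4, nat_lit 0x47⟩ (.nil) (.nil)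
def t14_12088 : Tr := .node ⟨nat_lit 7, nat_lit 0x40001000480060, nat_lit 0x113010, nat_lit 0, nat_lit 4, nat_lit 0x48⟩ (.nil) (.nil)
def t14_7992 : Tr := .node ⟨nat_lit 4, nat_lit 0x8000a, nat_lit 0x124, nat_lit 7, nat_lit 4, nat_lit 0x47⟩ (.nil) (.nil)
def t9_312 : Tr := .node ⟨nat_lit 3, nat_lit 0, nat_lit 0x321, nat_lit 6, nat_lit 3, nat_lit 0x47⟩ (.node ⟨nat_lit 6, nat_lit 0x80030, nat_lit 0x311202, nat_lit 0, nat_lit 4, nat_lit 0x4a⟩ (.node ⟨nat_lit 5, nat_lit 0, nat_lit 0x31111, nat_lit 9, nat_lit 4, nat_lit 0x4c⟩ (.node ⟨nat_lit 4, nat_lit 8, nat_lit 0x1112, nat_lit 4, nat_lit 4, nat_lit 0x47⟩ (.node ⟨nat_lit 5, nat_lit 0x40018, nat_lit 0x21211, nat_lit 5, nat_lit 4, nat_lit 0x49⟩ (t14_312) (t14_8504)) (.node ⟨nat_lit 7, nat_lit 0x40001000500068, nat_lit 0x101110, nat_lit 1, nat_lit 4, nat_lit 0x46⟩ (t14_4408) (t14_12600))) (.node ⟨nat_lit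 6, nat_lit 0x200030, nat_lit 0x201122, nat_lit 0, nat_lit 4, nat_lit 0x49⟩ (.node ⟨nat_lit 6, nat_lit 0x2000200020, nat_lit 0x31320, nat_lit 0, nat_lit 3, nat_lit 0x48⟩ (t14_2360) (t14_10552)) (.node ⟨nat_lit 4, nat_lit 0x40008, nat_lit 0x2021, nat_lit 7, nat_lit 4, nat_lit 0x47⟩ (t14_6456) (t14_14648)))) (.node ⟨nat_lit 5, nat_lit 0x10, nat_lit 0x21111, nat_lit 2, nat_lit 4, nat_lit 0x49⟩ (.node ⟨nat_lit 6, nat_lit 0x2000100024, nat_lit 0x222210, nat_lit 1, nat_lit 4, nat_lit 0x4a⟩ (.node ⟨nat_lit 3, nat_lit 0x40004, nat_lit 0x32, nat_lit 5, nat_lit 3, nat_lit 0x44⟩ (t14_1336) (t14_9528)) (.node ⟨nat_lit 7, nat_lit 0x4000400060, nat_lit 0x221102, nat_lit 0, nat_lit 4, nat_lit 0x4a⟩ (t14_5432) (t14_13624))) (.node ⟨nat_lit 7, nat_lit 0x40004000100060, nat_lit 0x21120, nat_lit 0, nat_lit 4, nat_lit 0x48⟩ (.node ⟨nat_lit 7, nat_lit 0x4000100060, nat_lit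 0x1111300, nat_lit 0, nat_lit 3, nat_lit 0x48⟩ (t14_3384) (t14_11576)) (.node ⟨nat_lit 7, nat_lit 0x20004000400064, nat_lit 0x111202, nat_lit 2, nat_lit 4, nat_lit 0x48⟩ (t14_7480) (.nil))))) (.node ⟨nat_lit 5, nat_lit 0x100010, nat_lit 0x3120, nat_lit 6, nat_lit 4, nat_lit 0x49⟩ (.node ⟨nat_lit 6, nat_lit 0x10002000180024, nat_lit 0x202201, nat_lit 1, nat_lit 4, nat_lit 0x47⟩ (.node ⟨nat_lit 4, nat_lit 0, nat_lit 0x1111, nat_lit 3, nat_lit 4, nat_lit 0x47⟩ (.node ⟨nat_lit 6, nat_lit 0x800100020, nat_lit 0x122201, nat_lit 2, nat_lit 4, nat_lit 0x4a⟩ (t14_824) (t14_9016)) (.node ⟨nat_lit 7, nat_lit 0x2000400060, nat_lit 0x1111022, nat_lit 1, nat_lit 4, nat_lit 0x4a⟩ (t14_4920) (t14_13112))) (.node ⟨nat_lit 6, nat_lit 0x800300028, nat_lit 0x110210, nat_lit 0, nat_lit 3, nat_lit 0x45⟩ (.node ⟨nat_lit 6, nat_lit 0x20001000100028, nat_lit 0x102101, nat_lit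 3, nat_lit 4, nat_lit 0x47⟩ (t14_2872) (t14_11064)) (.node ⟨nat_lit 6, nat_lit 0x20001000100030, nat_lit 0x10302, nat_lit 0, nat_lit 3, nat_lit 0x46⟩ (t14_6968) (t14_15160)))) (.node ⟨nat_lit 6, nat_lit 0x2000080030, nat_lit 0x121110, nat_lit 1, nat_lit 4, nat_lit 0x48⟩ (.node ⟨nat_lit 7, nat_lit 0x200020004000440060, nat_lit 0x2021111, nat_lit 0, nat_lit 4, nat_lit 0x48⟩ (.node ⟨nat_lit 4, nat_lit 0x80008, nat_lit 0x120, nat_lit 6, nat_lit 4, nat_lit 0x46⟩ (t14_1848) (t14_10040)) (.node ⟨nat_lit 6, nat_lit 0x800080030, nat_lit 0x201002, nat_lit 1, nat_lit 4, nat_lit 0x47⟩ (t14_5944) (t14_14136))) (.node ⟨nat_lit 6, nat_lit 0x800200030, nat_lit 0x10022, nat_lit 0, nat_lit 4, nat_lit 0x46⟩ (.node ⟨nat_lit 6, nat_lit 0x800300038, nat_lit 0x1203, nat_lit 2, nat_lit 4, nat_lit 0x46⟩ (t14_3896) (t14_12088)) (.node ⟨nat_lit 8, nat_lit 0x800020002000c0,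 nat_lit 0x10022101, nat_lit 0, nat_lit 4, nat_lit 0x4a⟩ (t14_7992) (.nil)))))
def t14_184 : Tr := .node ⟨nat_lit 7, nat_lit 0x40004000200060, nat_lit 0x1021121, nat_lit 2, nat_lit 4, nat_lit 0x49⟩ (.nil) (.nil)
def t14_8376 : Tr := .node ⟨nat_lit 7, nat_lit 0x2000500064, nat_lit 0x11213, nat_lit 0, nat_lit 4, nat_lit 0x47⟩ (.nil) (.nil)
def t14_4280 : Tr := .node ⟨nat_lit 0xa, nat_lit 0x2000100010000400080, nat_lit 0x11101010, nat_lit 1, nat_lit 4, nat_lit 0x4c⟩ (.nil) (.nil)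
def t14_12472 : Tr := .node ⟨nat_lit 7, nat_lit 0x20004000400040, nat_lit 0x13000, nat_lit 1, nat_lit 4, nat_lit 0x48⟩ (.nil) (.nil)
def t14_2232 : Tr := .node ⟨nat_lit 7, nat_lit 0x200040004000480030, nat_lit 0x202020, nat_lit 3, nat_lit 4, nat_lit 0x48⟩ (.nil) (.nil)
def t14_10424 : Tr := .node ⟨nat_lit 7, nat_lit 0x4000500060, nat_lit 0x1220, nat_lit 4, nat_lit 4, nat_lit 0x48⟩ (.nil) (.nil)
def t14_6328 : Tr := .node ⟨nat_lit 6, nat_lit 0x2000080030, nat_lit 0x100020, nat_lit 1, nat_lit 4, nat_lit 0x46⟩ (.nil) (.nil)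
def t14_14520 : Tr := .node ⟨nat_lit 8, nat_lit 0x8000200020009000c0, nat_lit 0x30010, nat_lit 1, nat_lit 4, nat_lit 0x48⟩ (.nil) (.nil)
def t14_1208 : Tr := .node ⟨nat_lit 7, nat_lit 0x4000440060, nat_lit 0x11201, nat_lit 0, nat_lit 4, nat_lit 0x48⟩ (.nil) (.nil)
def t14_9400 : Tr := .node ⟨nat_lit 0xa, nat_lit 0x100020002000200008002100220, nat_lit 0x111001, nat_lit 4, nat_lit 4, nat_lit 0x4a⟩ (.nil) (.nil)
def t14_5304 : Tr := .node ⟨nat_lit 6, nat_lit 0x800280030, nat_lit 0x111102, nat_lit 5, nat_lit 4, nat_lit 0x48⟩ (.nil) (.nil)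
def t14_13496 : Tr := .node ⟨nat_lit 0xa, nat_lit 0x800200004000200300, nat_lit 0x3000, nat_lit 0, nat_lit 4, nat_lit 0x4a⟩ (.nil) (.nil)
def t14_3256 : Tr := .node ⟨nat_lit 8, nat_lit 0x800040004000400020, nat_lit 0x102100, nat_lit 5, nat_lit 4, nat_lit 0x4a⟩ (.nil) (.nil)
def t14_11448 : Tr := .node ⟨nat_lit 7, nat_lit 0x20004000500064, nat_lit 0x1011010, nat_lit 2, nat_lit 4, nat_lit 0x47⟩ (.nil) (.nil)
def t14_7352 : Tr := .node ⟨nat_lit 7, nat_lit 0x4000640064, nat_lit 0x2121011, nat_lit 0, nat_lit 4, nat_lit 0x49⟩ (.nil) (.nil)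
def t14_15544 : Tr := .node ⟨nat_lit 0xa, nat_lit 0x20001000100, nat_lit 0x11111010, nat_lit 1, nat_lit 4, nat_lit 0x4e⟩ (.nil) (.nil)
def t14_696 : Tr := .node ⟨nat_lit 6, nat_lit 0x2000080030, nat_lit 0x321, nat_lit 0, nat_lit 4, nat_lit 0x46⟩ (.nil) (.nil)
def t14_8888 : Tr := .node ⟨nat_lit 7, nat_lit 0x4000400060, nat_lit 0x10103, nat_lit 0, nat_lit 4, nat_lit 0x48⟩ (.nil) (.nil)
def t14_4792 : Tr := .node ⟨nat_lit 6, nat_lit 0x2000300034, nat_lit 0x102120, nat_lit 6, nat_lit 4, nat_lit 0x48⟩ (.nil) (.nil)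
def t14_12984 : Tr := .node ⟨nat_lit 7, nat_lit 0x400020002000500050, nat_lit 0x21010, nat_lit 3, nat_lit 4, nat_lit 0x47⟩ (.nil) (.nil)
def t14_2744 : Tr := .node ⟨nat_lit 7, nat_lit 0x20004000600068, nat_lit 0x22101, nat_lit 0, nat_lit 4, nat_lit 0x47⟩ (.nil) (.nil)
def t14_10936 : Tr := .node ⟨nat_lit 8, nat_lit 0x80004000a000a000c000d0, nat_lit 0x21021, nat_lit 2, nat_lit 4, nat_lit 0x46⟩ (.nil) (.nil)
def t14_6840 : Tr := .node ⟨nat_lit 7, nat_lit 0x2000400040, nat_lit 0x111030, nat_lit 2, nat_lit 4, nat_lit 0x4a⟩ (.nil) (.nil)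
def t14_15032 : Tr := .node ⟨nat_lit 7, nat_lit 0x400020002000500050, nat_lit 0x113011, nat_lit 0, nat_lit 4, nat_lit 0x47⟩ (.nil) (.nil)
def t14_1720 : Tr := .node ⟨nat_lit 8, nat_lit 0x800080004000400090, nat_lit 0x110111, nat_lit 0, nat_lit 4, nat_lit 0x48⟩ (.nil) (.nil)
def t14_9912 : Tr := .node ⟨nat_lit 6, nat_lit 0x10001000100020, nat_lit 0x104301, nat_lit 0, nat_lit 3, nat_lit 0x47⟩ (.nil) (.nil)
def t14_5816 : Tr := .node ⟨nat_lit 6, nat_lit 0x1000200022, nat_lit 0x11020, nat_lit 5, nat_lit 4, nat_lit 0x48⟩ (.nil) (.nil)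
def t14_14008 : Tr := .node ⟨nat_lit 7, nat_lit 0x20001000100040, nat_lit 0x1002201, nat_lit 0, nat_lit 4, nat_lit 0x48⟩ (.nil) (.nil)
def t14_3768 : Tr := .node ⟨nat_lit 6, nat_lit 0x2000200030, nat_lit 0x12301, nat_lit 2, nat_lit 3, nat_lit 0x47⟩ (.nil) (.nil)
def t14_11960 : Tr := .node ⟨nat_lit 3, nat_lit 0x40006, nat_lit 0x31, nat_lit 0xc, nat_lit 4, nat_lit 0x46⟩ (.nil) (.nil)
def t14_7864 : Tr := .node ⟨nat_lit 8, nat_lit 0x400080008000200088, nat_lit 0x1101, nat_lit 3, nat_lit 4, nat_lit 0x48⟩ (.nil) (.nil)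
def t9_184 : Tr := .node ⟨nat_lit 3, nat_lit 4, nat_lit 0x231, nat_lit 9, nat_lit 4, nat_lit 0x48⟩ (.node ⟨nat_lit 5, nat_lit 0x140018, nat_lit 0x13122, nat_lit 4, nat_lit 4, nat_lit 0x48⟩ (.node ⟨nat_lit 5, nat_lit 0x80010001a, nat_lit 0x30211, nat_lit 3, nat_lit 4, nat_lit 0x47⟩ (.node ⟨nat_lit 4, nat_lit 0xc, nat_lit 0x2124, nat_lit 3, nat_lit 4, nat_lit 0x48⟩ (.node ⟨nat_lit 7, nat_lit 0x4000500060, nat_lit 0x121220, nat_lit 0, nat_lit 4, nat_lit 0x49⟩ (t14_184) (t14_8376)) (.node ⟨nat_lit 5, nat_lit 0x10, nat_lit 0x10000, nat_lit 0, nat_lit 4, nat_lit 0x45⟩ (t14_4280) (t14_12472))) (.node ⟨nat_lit 5, nat_lit 0x1000100008, nat_lit 0x12313, nat_lit 3, nat_lit 4, nat_lit 0x49⟩ (.node ⟨nat_lit 7, nat_lit 0x4000200070, nat_lit 0x110213, nat_lit 0, nat_lit 4, nat_lit 0x48⟩ (t14_2232) (t14_10424)) (.node ⟨nat_lit 6, nat_lit 0x300038, nat_lit 0x100223,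 nat_lit 2, nat_lit 4, nat_lit 0x47⟩ (t14_6328) (t14_14520)))) (.node ⟨nat_lit 5, nat_lit 0x800080010, nat_lit 0x11211, nat_lit 3, nat_lit 3, nat_lit 0x46⟩ (.node ⟨nat_lit 7, nat_lit 0x40004000100068, nat_lit 0x1211211, nat_lit 0, nat_lit 4, nat_lit 0x49⟩ (.node ⟨nat_lit 5, nat_lit 0x1000100008, nat_lit 0x1104, nat_lit 6, nat_lit 4, nat_lit 0x48⟩ (t14_1208) (t14_9400)) (.node ⟨nat_lit 7, nat_lit 0x4000600050, nat_lit 0x12101, nat_lit 1, nat_lit 4, nat_lit 0x48⟩ (t14_5304) (t14_13496))) (.node ⟨nat_lit 5, nat_lit 0x1000100008, nat_lit 0x2302, nat_lit 1, nat_lit 3, nat_lit 0x46⟩ (.node ⟨nat_lit 5, nat_lit 0x40018, nat_lit 0x11100, nat_lit 2, nat_lit 4, nat_lit 0x46⟩ (t14_3256) (t14_11448)) (.node ⟨nat_lit 5, nat_lit 0x800080010, nat_lit 0x11101, nat_lit 4, nat_lit 4, nat_lit 0x47⟩ (t14_7352) (t14_15544))))) (.node ⟨nat_lit 5, nat_lit 0x40018, nat_lit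 0x32002, nat_lit 4, nat_lit 4, nat_lit 0x49⟩ (.node ⟨nat_lit 4, nat_lit 0xc, nat_lit 0x2113, nat_lit 3, nat_lit 4, nat_lit 0x47⟩ (.node ⟨nat_lit 8, nat_lit 0x800040002000c0, nat_lit 0x120012, nat_lit 0, nat_lit 4, nat_lit 0x49⟩ (.node ⟨nat_lit 5, nat_lit 0x800080010, nat_lit 0x12112, nat_lit 2, nat_lit 4, nat_lit 0x48⟩ (t14_696) (t14_8888)) (.node ⟨nat_lit 7, nat_lit 0x40003000500068, nat_lit 0x1002100, nat_lit 1, nat_lit 4, nat_lit 0x46⟩ (t14_4792) (t14_12984))) (.node ⟨nat_lit 5, nat_lit 0x100018, nat_lit 0x10101, nat_lit 4, nat_lit 4, nat_lit 0x46⟩ (.node ⟨nat_lit 7, nat_lit 0x400020002000500050, nat_lit 0x113021, nat_lit 0, nat_lit 4, nat_lit 0x47⟩ (t14_2744) (t14_10936)) (.node ⟨nat_lit 6, nat_lit 0x20001000100028, nat_lit 0x101112, nat_lit 1, nat_lit 4, nat_lit 0x46⟩ (t14_6840) (t14_15032)))) (.node ⟨nat_lit 6, nat_lit 0x10001000200022, nat_lit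 0x112200, nat_lit 3, nat_lit 4, nat_lit 0x48⟩ (.node ⟨nat_lit 6, nat_lit 0x2000080030, nat_lit 0x101211, nat_lit 3, nat_lit 4, nat_lit 0x48⟩ (.node ⟨nat_lit 4, nat_lit 0x8000e, nat_lit 0x111, nat_lit 5, nat_lit 4, nat_lit 0x44⟩ (t14_1720) (t14_9912)) (.node ⟨nat_lit 7, nat_lit 0x4000600060, nat_lit 0x22310, nat_lit 1, nat_lit 4, nat_lit 0x49⟩ (t14_5816) (t14_14008))) (.node ⟨nat_lit 6, nat_lit 0x300028, nat_lit 0x200202, nat_lit 2, nat_lit 4, nat_lit 0x48⟩ (.node ⟨nat_lit 7, nat_lit 0x20001000600050, nat_lit 0x111003, nat_lit 0, nat_lit 4, nat_lit 0x47⟩ (t14_3768) (t14_11960)) (.node ⟨nat_lit 7, nat_lit 0x40001000600060, nat_lit 0x1011021, nat_lit 1, nat_lit 3, nat_lit 0x46⟩ (t14_7864) (.nil)))))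
def t14_440 : Tr := .node ⟨nat_lit 8, nat_lit 0x2000800080004000c8, nat_lit 0x11001201, nat_lit 1, nat_lit 4, nat_lit 0x49⟩ (.nil) (.nil)
def t14_8632 : Tr := .node ⟨nat_lit 7, nat_lit 0x10004000640064, nat_lit 0x20, nat_lit 1, nat_lit 4, nat_lit 0x44⟩ (.nil) (.nil)
def t14_4536 : Tr := .node ⟨nat_lit 4, nat_lit 0x8000c, nat_lit 0x1221, nat_lit 0xa, nat_lit 4, nat_lit 0x48⟩ (.nil) (.nil)
def t14_12728 : Tr := .node ⟨nat_lit 5, nat_lit 0x800100018, nat_lit 0x200, nat_lit 0xb, nat_lit 4, nat_lit 0x47⟩ (.nil) (.nil)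
def t14_2488 : Tr := .node ⟨nat_lit 7, nat_lit 0x10005000300060, nat_lit 0x103102, nat_lit 1, nat_lit 4, nat_lit 0x47⟩ (.nil) (.nil)
def t14_10680 : Tr := .node ⟨nat_lit 6, nat_lit 0x20001000100028, nat_lit 0x100100, nat_lit 1, nat_lit 4, nat_lit 0x45⟩ (.nil) (.nil)
def t14_6584 : Tr := .node ⟨nat_lit 7, nat_lit 0x1000400060, nat_lit 0x201030, nat_lit 0, nat_lit 4, nat_lit 0x49⟩ (.nil) (.nil)
def t14_14776 : Tr := .node ⟨nat_lit 8, nat_lit 0x800020004000a000c4, nat_lit 0x1111021, nat_lit 1, nat_lit 4, nat_lit 0x48⟩ (.nil) (.nil)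
def t14_1464 : Tr := .node ⟨nat_lit 8, nat_lit 0x4000800090006000d000d0, nat_lit 0x10210110, nat_lit 0, nat_lit 4, nat_lit 0x46⟩ (.nil) (.nil)
def t14_9656 : Tr := .node ⟨nat_lit 8, nat_lit 0x4000400020008000e0, nat_lit 0x20003, nat_lit 1, nat_lit 4, nat_lit 0x47⟩ (.nil) (.nil)
def t14_5560 : Tr := .node ⟨nat_lit 5, nat_lit 0x100012, nat_lit 0x1122, nat_lit 7, nat_lit 4, nat_lit 0x48⟩ (.nil) (.nil)
def t14_13752 : Tr := .node ⟨nat_lit 8, nat_lit 0x2000400040008000c2, nat_lit 0x20, nat_lit 1, nat_lit 4, nat_lit 0x47⟩ (.nil) (.nil)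
def t14_3512 : Tr := .node ⟨nat_lit 6, nat_lit 0x800300028, nat_lit 0x10001, nat_lit 2, nat_lit 4, nat_lit 0x45⟩ (.nil) (.nil)
def t14_11704 : Tr := .node ⟨nat_lit 9, nat_lit 0x400100002001800180, nat_lit 0x102110, nat_lit 1, nat_lit 4, nat_lit 0x49⟩ (.nil) (.nil)
def t14_7608 : Tr := .node ⟨nat_lit 7, nat_lit 0x40001000200048, nat_lit 0x1201, nat_lit 0, nat_lit 4, nat_lit 0x46⟩ (.nil) (.nil)
def t14_952 : Tr := .node ⟨nat_lit 4, nat_lit 0x8000c, nat_lit 0x221, nat_lit 9, nat_lit 4, nat_lit 0x47⟩ (.nil) (.nil)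
def t14_9144 : Tr := .node ⟨nat_lit 7, nat_lit 0x10006000500070, nat_lit 0x1022, nat_lit 1, nat_lit 4, nat_lit 0x45⟩ (.nil) (.nil)
def t14_5048 : Tr := .node ⟨nat_lit 6, nat_lit 0x800300038, nat_lit 0x111041, nat_lit 0, nat_lit 4, nat_lit 0x47⟩ (.nil) (.nil)
def t14_13240 : Tr := .node ⟨nat_lit 7, nat_lit 0x40002000200064, nat_lit 0x13000, nat_lit 4, nat_lit 4, nat_lit 0x48⟩ (.nil) (.nil)
def t14_3000 : Tr := .node ⟨nat_lit 9, nat_lit 0x8001000100010000400110, nat_lit 0x1021101, nat_lit 0, nat_lit 4, nat_lit 0x4a⟩ (.nil) (.nil)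
def t14_11192 : Tr := .node ⟨nat_lit 7, nat_lit 0x20005000500068, nat_lit 0x112201, nat_lit 1, nat_lit 4, nat_lit 0x47⟩ (.nil) (.nil)
def t14_7096 : Tr := .node ⟨nat_lit 6, nat_lit 0x300030, nat_lit 0x202111, nat_lit 3, nat_lit 4, nat_lit 0x49⟩ (.nil) (.nil)
def t14_15288 : Tr := .node ⟨nat_lit 8, nat_lit 0x8000c0003000a0, nat_lit 0x102012, nat_lit 1, nat_lit 4, nat_lit 0x48⟩ (.nil) (.nil)
def t14_1976 : Tr := .node ⟨nat_lit 7, nat_lit 0x400060, nat_lit 0x211012, nat_lit 0, nat_lit 4, nat_lit 0x4a⟩ (.nil) (.nil)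
def t14_10168 : Tr := .node ⟨nat_lit 5, nat_lit 0x1000100018, nat_lit 2, nat_lit 4, nat_lit 3, nat_lit 0x44⟩ (.nil) (.nil)
def t14_6072 : Tr := .node ⟨nat_lit 8, nat_lit 0x80008000c000c8, nat_lit 0x1111021, nat_lit 0, nat_lit 4, nat_lit 0x49⟩ (.nil) (.nil)
def t14_14264 : Tr := .node ⟨nat_lit 8, nat_lit 0x800040004000a000c8, nat_lit 0x11202, nat_lit 0, nat_lit 4, nat_lit 0x47⟩ (.nil) (.nil)
def t14_4024 : Tr := .node ⟨nat_lit 8, nat_lit 0x800040004000a000c800d0, nat_lit 0x1111021, nat_lit 0, nat_lit 4, nat_lit 0x46⟩ (.nil) (.nil)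
def t14_12216 : Tr := .node ⟨nat_lit 7, nat_lit 0x40003000500068, nat_lit 0x1111021, nat_lit 0, nat_lit 4, nat_lit 0x47⟩ (.nil) (.nil)
def t14_8120 : Tr := .node ⟨nat_lit 6, nat_lit 0x20001000280028, nat_lit 0x11041, nat_lit 3, nat_lit 4, nat_lit 0x47⟩ (.nil) (.nil)
def t9_440 : Tr := .node ⟨nat_lit 6, nat_lit 0x20, nat_lit 0x231112, nat_lit 0, nat_lit 4, nat_lit 0x4c⟩ (.node ⟨nat_lit 4, nat_lit 0xc, nat_lit 0x12, nat_lit 3, nat_lit 3, nat_lit 0x44⟩ (.node ⟨nat_lit 5, nat_lit 0x140018, nat_lit 0x2222, nat_lit 3, nat_lit 4, nat_lit 0x47⟩ (.node ⟨nat_lit 7, nat_lit 0x40002000200010, nat_lit 0x110212, nat_lit 0, nat_lit 4, nat_lit 0x49⟩ (.node ⟨nat_lit 7, nat_lit 0x40005000680058, nat_lit 0x2000120, nat_lit 1, nat_lit 4, nat_lit 0x46⟩ (t14_440) (t14_8632)) (.node ⟨nat_lit 7, nat_lit 0x20002000500060, nat_lit 0x1021022, nat_lit 1, nat_lit 4, nat_lit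 0x48⟩ (t14_4536) (t14_12728))) (.node ⟨nat_lit 4, nat_lit 0x8000c, nat_lit 0x1131, nat_lit 7, nat_lit 4, nat_lit 0x47⟩ (.node ⟨nat_lit 7, nat_lit 0x1800500060, nat_lit 0x1111031, nat_lit 0, nat_lit 4, nat_lit 0x48⟩ (t14_2488) (t14_10680)) (.node ⟨nat_lit 8, nat_lit 0x800080004000880090, nat_lit 0x1220102, nat_lit 0, nat_lit 4, nat_lit 0x49⟩ (t14_6584) (t14_14776)))) (.node ⟨nat_lit 5, nat_lit 0x40018, nat_lit 0x20101, nat_lit 5, nat_lit 4, nat_lit 0x47⟩ (.node ⟨nat_lit 7, nat_lit 0x4000400020, nat_lit 0x1221111, nat_lit 0, nat_lit 4, nat_lit 0x4b⟩ (.node ⟨nat_lit 7, nat_lit 0x1000100060, nat_lit 0x1101003, nat_lit 2, nat_lit 4, nat_lit 0x49⟩ (t14_1464) (t14_9656)) (.node ⟨nat_lit 7, nat_lit 0x40001000480060, nat_lit 0x1112011, nat_lit 3, nat_lit 4, nat_lit 0x49⟩ (t14_5560) (t14_13752))) (.node ⟨nat_lit 6, nat_lit 0x20002000280028, nat_lit 0x120100,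 nat_lit 6, nat_lit 4, nat_lit 0x48⟩ (.node ⟨nat_lit 6, nat_lit 0x1000280034, nat_lit 0x210000, nat_lit 2, nat_lit 4, nat_lit 0x46⟩ (t14_3512) (t14_11704)) (.node ⟨nat_lit 6, nat_lit 0x2000080030, nat_lit 0x111211, nat_lit 6, nat_lit 4, nat_lit 0x49⟩ (t14_7608) (.nil))))) (.node ⟨nat_lit 5, nat_lit 0x40018, nat_lit 0x20021, nat_lit 0, nat_lit 3, nat_lit 0x45⟩ (.node ⟨nat_lit 6, nat_lit 0x20, nat_lit 0x221111, nat_lit 0, nat_lit 4, nat_lit 0x4b⟩ (.node ⟨nat_lit 7, nat_lit 0x400020002000500068, nat_lit 0x1111211, nat_lit 0, nat_lit 4, nat_lit 0x47⟩ (.node ⟨nat_lit 4, nat_lit 8, nat_lit 0x1113, nat_lit 0xb, nat_lit 4, nat_lit 0x49⟩ (t14_952) (t14_9144)) (.node ⟨nat_lit 7, nat_lit 0x4000400020, nat_lit 0x122100, nat_lit 5, nat_lit 4, nat_lit 0x4b⟩ (t14_5048) (t14_13240))) (.node ⟨nat_lit 6, nat_lit 0x2000100030, nat_lit 0x112002, nat_lit 2, nat_lit 4,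 nat_lit 0x48⟩ (.node ⟨nat_lit 7, nat_lit 0x4000400020, nat_lit 0x111102, nat_lit 3, nat_lit 4, nat_lit 0x4a⟩ (t14_3000) (t14_11192)) (.node ⟨nat_lit 7, nat_lit 0x4000100060, nat_lit 0x1101202, nat_lit 5, nat_lit 4, nat_lit 0x4a⟩ (t14_7096) (t14_15288)))) (.node ⟨nat_lit 6, nat_lit 0x280030, nat_lit 0x21110, nat_lit 1, nat_lit 4, nat_lit 0x47⟩ (.node ⟨nat_lit 6, nat_lit 0x2000240018, nat_lit 0x120121, nat_lit 1, nat_lit 4, nat_lit 0x47⟩ (.node ⟨nat_lit 6, nat_lit 0x20002000100030, nat_lit 0x12131, nat_lit 3, nat_lit 4, nat_lit 0x48⟩ (t14_1976) (t14_10168)) (.node ⟨nat_lit 6, nat_lit 0x10002000200020, nat_lit 0x12210, nat_lit 0, nat_lit 3, nat_lit 0x46⟩ (t14_6072) (t14_14264))) (.node ⟨nat_lit 3, nat_lit 6, nat_lit 0x310, nat_lit 0xd, nat_lit 3, nat_lit 0x46⟩ (.node ⟨nat_lit 6, nat_lit 0x800200030, nat_lit 0x11002, nat_lit 0, nat_lit 4, nat_lit 0x46⟩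 (t14_4024) (t14_12216)) (.node ⟨nat_lit 8, nat_lit 0x800080002000c000d0, nat_lit 0x1111121, nat_lit 0, nat_lit 4, nat_lit 0x48⟩ (t14_8120) (.nil)))))
def t14_120 : Tr := .node ⟨nat_lit 7, nat_lit 0x1000500060, nat_lit 0x1102111, nat_lit 3, nat_lit 4, nat_lit 0x49⟩ (.nil) (.nil)
def t14_8312 : Tr := .node ⟨nat_lit 5, nat_lit 0x800100018, nat_lit 0x200, nat_lit 4, nat_lit 4, nat_lit 0x45⟩ (.nil) (.nil)
def t14_4216 : Tr := .node ⟨nat_lit 8, nat_lit 0x8000800040004000a000e0, nat_lit 0x10111011, nat_lit 2, nat_lit 4, nat_lit 0x48⟩ (.nil) (.nil)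
def t14_12408 : Tr := .node ⟨nat_lit 7, nat_lit 0x40002000600050, nat_lit 0x103, nat_lit 1, nat_lit 4, nat_lit 0x46⟩ (.nil) (.nil)
def t14_2168 : Tr := .node ⟨nat_lit 6, nat_lit 0x20002000100028, nat_lit 0x12202, nat_lit 4, nat_lit 4, nat_lit 0x48⟩ (.nil) (.nil)
def t14_10360 : Tr := .node ⟨nat_lit 7, nat_lit 0x400020002000500060, nat_lit 0x21000, nat_lit 0, nat_lit 4, nat_lit 0x46⟩ (.nil) (.nil)
def t14_6264 : Tr := .node ⟨nat_lit 7, nat_lit 0x40004000440048, nat_lit 0x1111100, nat_lit 3, nat_lit 4, nat_lit 0x49⟩ (.nil) (.nil)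
def t14_14456 : Tr := .node ⟨nat_lit 5, nat_lit 0x140018, nat_lit 0x1121, nat_lit 7, nat_lit 4, nat_lit 0x47⟩ (.nil) (.nil)
def t14_1144 : Tr := .node ⟨nat_lit 7, nat_lit 0x20004000600064, nat_lit 0x11021, nat_lit 1, nat_lit 4, nat_lit 0x46⟩ (.nil) (.nil)
def t14_9336 : Tr := .node ⟨nat_lit 9, nat_lit 0x1000040011001400180, nat_lit 0x10110121, nat_lit 1, nat_lit 4, nat_lit 0x49⟩ (.nil) (.nil)
def t14_5240 : Tr := .node ⟨nat_lit 7, nat_lit 0x400020002000200050, nat_lit 0x22101, nat_lit 0, nat_lit 4, nat_lit 0x47⟩ (.nil) (.nil)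
def t14_13432 : Tr := .node ⟨nat_lit 9, nat_lit 0x400040010001040180, nat_lit 0x110200, nat_lit 0, nat_lit 4, nat_lit 0x49⟩ (.nil) (.nil)
def t14_3192 : Tr := .node ⟨nat_lit 9, nat_lit 0x10001000080008000800040, nat_lit 0x1102110, nat_lit 0, nat_lit 4, nat_lit 0x4a⟩ (.nil) (.nil)
def t14_11384 : Tr := .node ⟨nat_lit 7, nat_lit 0x40001000480060, nat_lit 0x100101, nat_lit 1, nat_lit 4, nat_lit 0x46⟩ (.nil) (.nil)
def t14_7288 : Tr := .node ⟨nat_lit 6, nat_lit 0x2000200030, nat_lit 0x12200, nat_lit 2, nat_lit 4, nat_lit 0x48⟩ (.nil) (.nil)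
def t14_15480 : Tr := .node ⟨nat_lit 9, nat_lit 0x800100004001080180, nat_lit 0x110110002, nat_lit 0, nat_lit 4, nat_lit 0x4a⟩ (.nil) (.nil)
def t14_632 : Tr := .node ⟨nat_lit 4, nat_lit 0x80008, nat_lit 0x232, nat_lit 7, nat_lit 4, nat_lit 0x48⟩ (.nil) (.nil)
def t14_8824 : Tr := .node ⟨nat_lit 7, nat_lit 0x40004000200048, nat_lit 0x122003, nat_lit 1, nat_lit 4, nat_lit 0x49⟩ (.nil) (.nil)
def t14_4728 : Tr := .node ⟨nat_lit 8, nat_lit 0x800040004000a000c8, nat_lit 0x11011012, nat_lit 0, nat_lit 4, nat_lit 0x48⟩ (.nil) (.nil)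
def t14_12920 : Tr := .node ⟨nat_lit 7, nat_lit 0x40001000600068, nat_lit 0x112100, nat_lit 0, nat_lit 4, nat_lit 0x47⟩ (.nil) (.nil)
def t14_2680 : Tr := .node ⟨nat_lit 6, nat_lit 0x2800300030, nat_lit 0x1310, nat_lit 3, nat_lit 4, nat_lit 0x46⟩ (.nil) (.nil)
def t14_10872 : Tr := .node ⟨nat_lit 7, nat_lit 0x40005000600068, nat_lit 0x2030, nat_lit 1, nat_lit 4, nat_lit 0x46⟩ (.nil) (.nil)
def t14_6776 : Tr := .node ⟨nat_lit 6, nat_lit 0x200030, nat_lit 0x11100, nat_lit 3, nat_lit 4, nat_lit 0x48⟩ (.nil) (.nil)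
def t14_14968 : Tr := .node ⟨nat_lit 9, nat_lit 0x8000800100011000c000c00180, nat_lit 0x101100111, nat_lit 1, nat_lit 4, nat_lit 0x48⟩ (.nil) (.nil)
def t14_1656 : Tr := .node ⟨nat_lit 7, nat_lit 0x40004800300070, nat_lit 0x102112, nat_lit 0, nat_lit 4, nat_lit 0x46⟩ (.nil) (.nil)
def t14_9848 : Tr := .node ⟨nat_lit 9, nat_lit 0x1000100002000400180, nat_lit 0x1022010, nat_lit 0, nat_lit 4, nat_lit 0x4a⟩ (.nil) (.nil)
def t14_5752 : Tr := .node ⟨nat_lit 6, nat_lit 0x2000200024, nat_lit 0x11212, nat_lit 6, nat_lit 4, nat_lit 0x49⟩ (.nil) (.nil)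
def t14_13944 : Tr := .node ⟨nat_lit 8, nat_lit 0x800040004000a000c8, nat_lit 0x12002, nat_lit 0, nat_lit 4, nat_lit 0x47⟩ (.nil) (.nil)
def t14_3704 : Tr := .node ⟨nat_lit 8, nat_lit 0x800040004000c0, nat_lit 0x210201, nat_lit 2, nat_lit 4, nat_lit 0x4a⟩ (.nil) (.nil)
def t14_11896 : Tr := .node ⟨nat_lit 5, nat_lit 0x100008001a, nat_lit 0x330, nat_lit 5, nat_lit 4, nat_lit 0x46⟩ (.nil) (.nil)
def t14_7800 : Tr := .node ⟨nat_lit 4, nat_lit 0x80008, nat_lit 0x122, nat_lit 0xc, nat_lit 4, nat_lit 0x48⟩ (.nil) (.nil)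
def t9_120 : Tr := .node ⟨nat_lit 6, nat_lit 0x10002000180024, nat_lit 0x131202, nat_lit 0, nat_lit 4, nat_lit 0x48⟩ (.node ⟨nat_lit 5, nat_lit 0x100010, nat_lit 0x13122, nat_lit 4, nat_lit 4, nat_lit 0x4a⟩ (.node ⟨nat_lit 6, nat_lit 0x2000200030, nat_lit 0x13210, nat_lit 3, nat_lit 4, nat_lit 0x49⟩ (.node ⟨nat_lit 7, nat_lit 0x40004000100060, nat_lit 0x112111, nat_lit 0, nat_lit 4, nat_lit 0x48⟩ (.node ⟨nat_lit 6, nat_lit 0x20001000280034, nat_lit 0x22220, nat_lit 2, nat_lit 4, nat_lit 0x47⟩ (t14_120) (t14_8312)) (.node ⟨nat_lit 7, nat_lit 0x4000100060, nat_lit 0x11200, nat_lit 0, nat_lit 4, nat_lit 0x48⟩ (t14_4216) (t14_12408))) (.node ⟨nat_lit 6, nat_lit 0x800300030, nat_lit 0x102211, nat_lit 0, nat_lit 4, nat_lit 0x47⟩ (.node ⟨nat_lit 7, nat_lit 0x20004000100060, nat_lit 0x12010, nat_lit 1, nat_lit 4, nat_lit 0x47⟩ (t14_2168) (t14_10360)) (.node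 ⟨nat_lit 7, nat_lit 0x40004000200060, nat_lit 0x121112, nat_lit 2, nat_lit 4, nat_lit 0x49⟩ (t14_6264) (t14_14456)))) (.node ⟨nat_lit 4, nat_lit 8, nat_lit 0x221, nat_lit 7, nat_lit 4, nat_lit 0x48⟩ (.node ⟨nat_lit 5, nat_lit 0x100018, nat_lit 0x22111, nat_lit 5, nat_lit 4, nat_lit 0x49⟩ (.node ⟨nat_lit 6, nat_lit 0x1000100020, nat_lit 0x111113, nat_lit 1, nat_lit 4, nat_lit 0x49⟩ (t14_1144) (t14_9336)) (.node ⟨nat_lit 7, nat_lit 0x40004800300030, nat_lit 0x2102021, nat_lit 1, nat_lit 4, nat_lit 0x48⟩ (t14_5240) (t14_13432))) (.node ⟨nat_lit 5, nat_lit 0x100010, nat_lit 0x12100, nat_lit 4, nat_lit 4, nat_lit 0x48⟩ (.node ⟨nat_lit 5, nat_lit 0x800080010, nat_lit 0x30300, nat_lit 0, nat_lit 3, nat_lit 0x46⟩ (t14_3192) (t14_11384)) (.node ⟨nat_lit 6, nat_lit 0x10002000240030, nat_lit 0x101100, nat_lit 3, nat_lit 4, nat_lit 0x46⟩ (t14_7288) (t14_15480)))))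 (.node ⟨nat_lit 4, nat_lit 0x8000c000c, nat_lit 0x3211, nat_lit 7, nat_lit 4, nat_lit 0x48⟩ (.node ⟨nat_lit 5, nat_lit 0x1000080014, nat_lit 0x21211, nat_lit 4, nat_lit 4, nat_lit 0x48⟩ (.node ⟨nat_lit 5, nat_lit 0x800100018, nat_lit 0x10121, nat_lit 4, nat_lit 4, nat_lit 0x46⟩ (.node ⟨nat_lit 7, nat_lit 0x40002000100060, nat_lit 0x120301, nat_lit 1, nat_lit 4, nat_lit 0x49⟩ (t14_632) (t14_8824)) (.node ⟨nat_lit 7, nat_lit 0x400040002000200050, nat_lit 0x1112301, nat_lit 1, nat_lit 4, nat_lit 0x49⟩ (t14_4728) (t14_12920))) (.node ⟨nat_lit 7, nat_lit 0x10002000400060, nat_lit 0x1000112, nat_lit 0, nat_lit 4, nat_lit 0x47⟩ (.node ⟨nat_lit 7, nat_lit 0x40002000480070, nat_lit 0x1120103, nat_lit 2, nat_lit 4, nat_lit 0x48⟩ (t14_2680) (t14_10872)) (.node ⟨nat_lit 6, nat_lit 0x800080030, nat_lit 0x110102, nat_lit 2, nat_lit 3, nat_lit 0x46⟩ (t14_6776)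 (t14_14968)))) (.node ⟨nat_lit 6, nat_lit 0x1000080020, nat_lit 0x112211, nat_lit 1, nat_lit 4, nat_lit 0x49⟩ (.node ⟨nat_lit 6, nat_lit 0x2000080030, nat_lit 0x21211, nat_lit 2, nat_lit 4, nat_lit 0x48⟩ (.node ⟨nat_lit 6, nat_lit 0x2000080030, nat_lit 0x10000, nat_lit 1, nat_lit 4, nat_lit 0x45⟩ (t14_1656) (t14_9848)) (.node ⟨nat_lit 7, nat_lit 0x200040004000300048, nat_lit 0x1222001, nat_lit 0, nat_lit 4, nat_lit 0x49⟩ (t14_5752) (t14_13944))) (.node ⟨nat_lit 7, nat_lit 0x40001000600068, nat_lit 0x1012110, nat_lit 0, nat_lit 4, nat_lit 0x47⟩ (.node ⟨nat_lit 6, nat_lit 0x2000080030, nat_lit 0x2100, nat_lit 0, nat_lit 4, nat_lit 0x46⟩ (t14_3704) (t14_11896)) (.node ⟨nat_lit 7, nat_lit 0x600060, nat_lit 0x1111121, nat_lit 0, nat_lit 4, nat_lit 0x4a⟩ (t14_7800) (.nil)))))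
def t14_376 : Tr := .node ⟨nat_lit 7, nat_lit 0x400062, nat_lit 0x1121011, nat_lit 0, nat_lit 4, nat_lit 0x4a⟩ (.nil) (.nil)
def t14_8568 : Tr := .node ⟨nat_lit 6, nat_lit 0x20002000280038, nat_lit 0x1021, nat_lit 5, nat_lit 4, nat_lit 0x46⟩ (.nil) (.nil)
def t14_4472 : Tr := .node ⟨nat_lit 7, nat_lit 0x200040003000480048, nat_lit 0x1121011, nat_lit 1, nat_lit 4, nat_lit 0x47⟩ (.nil) (.nil)
def t14_12664 : Tr := .node ⟨nat_lit 5, nat_lit 0x800100018, nat_lit 0x1013, nat_lit 8, nat_lit 4, nat_lit 0x47⟩ (.nil) (.nil)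
def t14_2424 : Tr := .node ⟨nat_lit 6, nat_lit 0x20002000300038, nat_lit 0x12102, nat_lit 5, nat_lit 4, nat_lit 0x47⟩ (.nil) (.nil)
def t14_10616 : Tr := .node ⟨nat_lit 7, nat_lit 0x20002000500060, nat_lit 0x11102, nat_lit 1, nat_lit 4, nat_lit 0x47⟩ (.nil) (.nil)
def t14_6520 : Tr := .node ⟨nat_lit 7, nat_lit 0x20004000100068, nat_lit 0x1111111, nat_lit 1, nat_lit 4, nat_lit 0x48⟩ (.nil) (.nil)
def t14_14712 : Tr := .node ⟨nat_lit 6, nat_lit 0x20002000300038, nat_lit 0x11121, nat_lit 6, nat_lit 4, nat_lit 0x47⟩ (.nil) (.nil)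
def t14_1400 : Tr := .node ⟨nat_lit 7, nat_lit 0x4000600060, nat_lit 0x21310, nat_lit 0, nat_lit 4, nat_lit 0x49⟩ (.nil) (.nil)
def t14_9592 : Tr := .node ⟨nat_lit 7, nat_lit 0x40004000200060, nat_lit 0x113200, nat_lit 0, nat_lit 3, nat_lit 0x47⟩ (.nil) (.nil)
def t14_5496 : Tr := .node ⟨nat_lit 6, nat_lit 0x800200030, nat_lit 0x10402, nat_lit 0, nat_lit 4, nat_lit 0x47⟩ (.nil) (.nil)
def t14_13688 : Tr := .node ⟨nat_lit 7, nat_lit 0x1000400060, nat_lit 0x2002, nat_lit 2, nat_lit 4, nat_lit 0x48⟩ (.nil) (.nil)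
def t14_3448 : Tr := .node ⟨nat_lit 7, nat_lit 0x3000600050, nat_lit 0x1012021, nat_lit 1, nat_lit 4, nat_lit 0x48⟩ (.nil) (.nil)
def t14_11640 : Tr := .node ⟨nat_lit 7, nat_lit 0x30005000500060, nat_lit 0x3103, nat_lit 0, nat_lit 4, nat_lit 0x45⟩ (.nil) (.nil)
def t14_7544 : Tr := .node ⟨nat_lit 7, nat_lit 0x10004000200060, nat_lit 0x223, nat_lit 1, nat_lit 4, nat_lit 0x47⟩ (.nil) (.nil)
def t14_888 : Tr := .node ⟨nat_lit 7, nat_lit 0x400020002000500068, nat_lit 0x12202, nat_lit 0, nat_lit 4, nat_lit 0x46⟩ (.nil) (.nil)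
def t14_9080 : Tr := .node ⟨nat_lit 9, nat_lit 0x10001000080011001200180, nat_lit 0x11111101, nat_lit 0, nat_lit 4, nat_lit 0x49⟩ (.nil) (.nil)
def t14_4984 : Tr := .node ⟨nat_lit 7, nat_lit 0x40001000480060, nat_lit 0x113001, nat_lit 1, nat_lit 4, nat_lit 0x48⟩ (.nil) (.nil)
def t14_13176 : Tr := .node ⟨nat_lit 6, nat_lit 0x8000c0030, nat_lit 0x101031, nat_lit 0, nat_lit 4, nat_lit 0x46⟩ (.nil) (.nil)
def t14_2936 : Tr := .node ⟨nat_lit 7, nat_lit 0x1800180060, nat_lit 0x2110201, nat_lit 0, nat_lit 4, nat_lit 0x48⟩ (.nil) (.nil)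
def t14_11128 : Tr := .node ⟨nat_lit 7, nat_lit 0x40002000100010, nat_lit 0x20, nat_lit 1, nat_lit 3, nat_lit 0x46⟩ (.nil) (.nil)
def t14_7032 : Tr := .node ⟨nat_lit 8, nat_lit 0x200080008000c0, nat_lit 0x10010211, nat_lit 1, nat_lit 4, nat_lit 0x4a⟩ (.nil) (.nil)
def t14_15224 : Tr := .node ⟨nat_lit 5, nat_lit 0x140018, nat_lit 0x11112, nat_lit 8, nat_lit 4, nat_lit 0x48⟩ (.nil) (.nil)
def t14_1912 : Tr := .node ⟨nat_lit 6, nat_lit 0x1000200022, nat_lit 0x2001, nat_lit 2, nat_lit 4, nat_lit 0x46⟩ (.nil) (.nil)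
def t14_10104 : Tr := .node ⟨nat_lit 8, nat_lit 0x80004000a000a000d0, nat_lit 0x30202, nat_lit 0, nat_lit 4, nat_lit 0x47⟩ (.nil) (.nil)
def t14_6008 : Tr := .node ⟨nat_lit 6, nat_lit 0x2000080030, nat_lit 0x112110, nat_lit 5, nat_lit 4, nat_lit 0x49⟩ (.nil) (.nil)
def t14_14200 : Tr := .node ⟨nat_lit 7, nat_lit 0x200020004000440030, nat_lit 0x1011020, nat_lit 0, nat_lit 4, nat_lit 0x46⟩ (.nil) (.nil)
def t14_3960 : Tr := .node ⟨nat_lit 7, nat_lit 0x10001000400060, nat_lit 0x11020, nat_lit 3, nat_lit 4, nat_lit 0x48⟩ (.nil) (.nil)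
def t14_12152 : Tr := .node ⟨nat_lit 8, nat_lit 0x2000a0003000c0, nat_lit 0x1012100, nat_lit 1, nat_lit 4, nat_lit 0x48⟩ (.nil) (.nil)
def t14_8056 : Tr := .node ⟨nat_lit 6, nat_lit 0x2000200024, nat_lit 0x21103, nat_lit 2, nat_lit 4, nat_lit 0x48⟩ (.nil) (.nil)
def t9_376 : Tr := .node ⟨nat_lit 5, nat_lit 0x10, nat_lit 0x23111, nat_lit 5, nat_lit 4, nat_lit 0x4b⟩ (.node ⟨nat_lit 5, nat_lit 0x100008, nat_lit 0x1311, nat_lit 0, nat_lit 4, nat_lit 0x47⟩ (.node ⟨nat_lit 5, nat_lit 0x10, nat_lit 0x22110, nat_lit 0, nat_lit 3, nat_lit 0x48⟩ (.node ⟨nat_lit 6, nat_lit 0x100020, nat_lit 0x112220, nat_lit 0, nat_lit 4, nat_lit 0x4a⟩ (.node ⟨nat_lit 7, nat_lit 0x40001000600060, nat_lit 0x22110, nat_lit 3, nat_lit 4, nat_lit 0x48⟩ (t14_376) (t14_8568)) (.node ⟨nat_lit 8, nat_lit 0x80008000400040004800a0, nat_lit 0x11112110, nat_lit 0, nat_lit 4, nat_lit 0x49⟩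 (t14_4472) (t14_12664))) (.node ⟨nat_lit 5, nat_lit 0x40018, nat_lit 0x21011, nat_lit 4, nat_lit 4, nat_lit 0x47⟩ (.node ⟨nat_lit 7, nat_lit 0x40002000100060, nat_lit 0x111113, nat_lit 1, nat_lit 4, nat_lit 0x48⟩ (t14_2424) (t14_10616)) (.node ⟨nat_lit 6, nat_lit 0x80030, nat_lit 0x222, nat_lit 0, nat_lit 4, nat_lit 0x47⟩ (t14_6520) (t14_14712)))) (.node ⟨nat_lit 6, nat_lit 0x2000080030, nat_lit 0x21022, nat_lit 2, nat_lit 4, nat_lit 0x48⟩ (.node ⟨nat_lit 7, nat_lit 0x20004000100068, nat_lit 0x222012, nat_lit 0, nat_lit 4, nat_lit 0x49⟩ (.node ⟨nat_lit 7, nat_lit 0x1000100060, nat_lit 0x1001003, nat_lit 1, nat_lit 4, nat_lit 0x48⟩ (t14_1400) (t14_9592)) (.node ⟨nat_lit 7, nat_lit 0x200020004000400044, nat_lit 0x121210, nat_lit 1, nat_lit 4, nat_lit 0x48⟩ (t14_5496) (t14_13688))) (.node ⟨nat_lit 6, nat_lit 0x30, nat_lit 0x301112, nat_lit 4, nat_lit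 4, nat_lit 0x4b⟩ (.node ⟨nat_lit 6, nat_lit 0x300030, nat_lit 0x102100, nat_lit 0, nat_lit 4, nat_lit 0x47⟩ (t14_3448) (t14_11640)) (.node ⟨nat_lit 7, nat_lit 0x40004800300068, nat_lit 0x1111121, nat_lit 1, nat_lit 4, nat_lit 0x47⟩ (t14_7544) (.nil))))) (.node ⟨nat_lit 5, nat_lit 0x100018, nat_lit 0x21311, nat_lit 3, nat_lit 4, nat_lit 0x49⟩ (.node ⟨nat_lit 6, nat_lit 0x2000080030, nat_lit 0x22211, nat_lit 0, nat_lit 4, nat_lit 0x48⟩ (.node ⟨nat_lit 6, nat_lit 0x800200032, nat_lit 0x110111, nat_lit 1, nat_lit 4, nat_lit 0x46⟩ (.node ⟨nat_lit 8, nat_lit 0x8000800040, nat_lit 0x1311001, nat_lit 1, nat_lit 4, nat_lit 0x4c⟩ (t14_888) (t14_9080)) (.node ⟨nat_lit 7, nat_lit 0x2000200040, nat_lit 0x1111200, nat_lit 5, nat_lit 4, nat_lit 0x4b⟩ (t14_4984) (t14_13176))) (.node ⟨nat_lit 7, nat_lit 0x10004000400064, nat_lit 0x1100120, nat_lit 0, nat_lit 4,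 nat_lit 0x48⟩ (.node ⟨nat_lit 5, nat_lit 0x800100010, nat_lit 0x11211, nat_lit 7, nat_lit 4, nat_lit 0x48⟩ (t14_2936) (t14_11128)) (.node ⟨nat_lit 7, nat_lit 0x20002000600050, nat_lit 0x1011032, nat_lit 2, nat_lit 4, nat_lit 0x48⟩ (t14_7032) (t14_15224)))) (.node ⟨nat_lit 5, nat_lit 0x18, nat_lit 0x10213, nat_lit 1, nat_lit 4, nat_lit 0x47⟩ (.node ⟨nat_lit 7, nat_lit 0x4000600018, nat_lit 0x1121111, nat_lit 0, nat_lit 4, nat_lit 0x49⟩ (.node ⟨nat_lit 6, nat_lit 0x280030, nat_lit 0x11111, nat_lit 2, nat_lit 4, nat_lit 0x47⟩ (t14_1912) (t14_10104)) (.node ⟨nat_lit 6, nat_lit 0x800300030, nat_lit 0x101040, nat_lit 0, nat_lit 4, nat_lit 0x47⟩ (t14_6008) (t14_14200))) (.node ⟨nat_lit 6, nat_lit 0x1000200022, nat_lit 0x1020, nat_lit 0, nat_lit 4, nat_lit 0x46⟩ (.node ⟨nat_lit 7, nat_lit 0x40004800300060, nat_lit 0x1102103, nat_lit 0, nat_lit 4, nat_lit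 0x48⟩ (t14_3960) (t14_12152)) (.node ⟨nat_lit 6, nat_lit 0x10002000200034, nat_lit 0x111211, nat_lit 5, nat_lit 4, nat_lit 0x48⟩ (t14_8056) (.nil)))))
def t14_248 : Tr := .node ⟨nat_lit 7, nat_lit 0x20004000100060, nat_lit 0x2012201, nat_lit 0, nat_lit 4, nat_lit 0x49⟩ (.nil) (.nil)
def t14_8440 : Tr := .node ⟨nat_lit 6, nat_lit 0x2000300038, nat_lit 0x31, nat_lit 2, nat_lit 4, nat_lit 0x45⟩ (.nil) (.nil)
def t14_4344 : Tr := .node ⟨nat_lit 7, nat_lit 0x4000200060, nat_lit 0x1021110, nat_lit 1, nat_lit 3, nat_lit 0x48⟩ (.nil) (.nil)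
def t14_12536 : Tr := .node ⟨nat_lit 7, nat_lit 0x20004000600064, nat_lit 0x2103, nat_lit 0, nat_lit 4, nat_lit 0x46⟩ (.nil) (.nil)
def t14_2296 : Tr := .node ⟨nat_lit 6, nat_lit 0x2000080030, nat_lit 0x2301, nat_lit 3, nat_lit 4, nat_lit 0x48⟩ (.nil) (.nil)
def t14_10488 : Tr := .node ⟨nat_lit 7, nat_lit 0x40002000200048, nat_lit 0x101002, nat_lit 0, nat_lit 4, nat_lit 0x47⟩ (.nil) (.nil)
def t14_6392 : Tr := .node ⟨nat_lit 7, nat_lit 0x400040002000200060, nat_lit 0x10102, nat_lit 3, nat_lit 4, nat_lit 0x47⟩ (.nil) (.nil)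
def t14_14584 : Tr := .node ⟨nat_lit 0xa, nat_lit 0x10002000200008000400210, nat_lit 0x21001, nat_lit 2, nat_lit 4, nat_lit 0x4a⟩ (.nil) (.nil)
def t14_1272 : Tr := .node ⟨nat_lit 6, nat_lit 0x800300030, nat_lit 0x101132, nat_lit 2, nat_lit 4, nat_lit 0x47⟩ (.nil) (.nil)
def t14_9464 : Tr := .node ⟨nat_lit 6, nat_lit 0x20002000100010, nat_lit 0x112022, nat_lit 1, nat_lit 3, nat_lit 0x47⟩ (.nil) (.nil)
def t14_5368 : Tr := .node ⟨nat_lit 8, nat_lit 0x800020002000c0, nat_lit 0x11012100, nat_lit 1, nat_lit 4, nat_lit 0x4a⟩ (.nil) (.nil)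
def t14_13560 : Tr := .node ⟨nat_lit 7, nat_lit 0x20002000100040, nat_lit 0x2000021, nat_lit 0, nat_lit 4, nat_lit 0x48⟩ (.nil) (.nil)
def t14_3320 : Tr := .node ⟨nat_lit 7, nat_lit 0x40001000500060, nat_lit 0x1021, nat_lit 0, nat_lit 4, nat_lit 0x46⟩ (.nil) (.nil)
def t14_11512 : Tr := .node ⟨nat_lit 7, nat_lit 0x40001000680070, nat_lit 0x101101, nat_lit 0, nat_lit 4, nat_lit 0x45⟩ (.nil) (.nil)
def t14_7416 : Tr := .node ⟨nat_lit 9, nat_lit 0x100010001000080008001400120, nat_lit 0x11001110, nat_lit 3, nat_lit 4, nat_lit 0x49⟩ (.nil) (.nil)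
def t14_760 : Tr := .node ⟨nat_lit 7, nat_lit 0x40003000500068, nat_lit 0x1131, nat_lit 0, nat_lit 4, nat_lit 0x45⟩ (.nil) (.nil)
def t14_8952 : Tr := .node ⟨nat_lit 9, nat_lit 0x10000800040004001200180, nat_lit 0x211020, nat_lit 0, nat_lit 4, nat_lit 0x48⟩ (.nil) (.nil)
def t14_4856 : Tr := .node ⟨nat_lit 9, nat_lit 0x100010001000080008001400120, nat_lit 0x11002100, nat_lit 2, nat_lit 4, nat_lit 0x49⟩ (.nil) (.nil)
def t14_13048 : Tr := .node ⟨nat_lit 6, nat_lit 0x2000240034, nat_lit 0x11200, nat_lit 3, nat_lit 4, nat_lit 0x47⟩ (.nil) (.nil)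
def t14_2808 : Tr := .node ⟨nat_lit 7, nat_lit 0x1000400060, nat_lit 0x1001210, nat_lit 0, nat_lit 4, nat_lit 0x48⟩ (.nil) (.nil)
def t14_11000 : Tr := .node ⟨nat_lit 9, nat_lit 0x40010001000180, nat_lit 0x10110202, nat_lit 0, nat_lit 4, nat_lit 0x4b⟩ (.nil) (.nil)
def t14_6904 : Tr := .node ⟨nat_lit 5, nat_lit 0x1000080008, nat_lit 0x10, nat_lit 0x13, nat_lit 4, nat_lit 0x49⟩ (.nil) (.nil)
def t14_15096 : Tr := .node ⟨nat_lit 9, nat_lit 0x80010000c0012001c001a001a0, nat_lit 0x101111110, nat_lit 0, nat_lit 4, nat_lit 0x46⟩ (.nil) (.nil)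
def t14_1784 : Tr := .node ⟨nat_lit 6, nat_lit 0x1000280034, nat_lit 0x112321, nat_lit 1, nat_lit 4, nat_lit 0x48⟩ (.nil) (.nil)
def t14_9976 : Tr := .node ⟨nat_lit 8, nat_lit 0x80002000c000c0, nat_lit 0x14020, nat_lit 1, nat_lit 4, nat_lit 0x49⟩ (.nil) (.nil)
def t14_5880 : Tr := .node ⟨nat_lit 8, nat_lit 0x80004000c0, nat_lit 0x111022, nat_lit 0, nat_lit 4, nat_lit 0x4a⟩ (.nil) (.nil)
def t14_14072 : Tr := .node ⟨nat_lit 5, nat_lit 0x40018, nat_lit 0x10002, nat_lit 8, nat_lit 4, nat_lit 0x47⟩ (.nil) (.nil)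
def t14_3832 : Tr := .node ⟨nat_lit 8, nat_lit 0x80008000400040004000a0, nat_lit 0x10122110, nat_lit 0, nat_lit 4, nat_lit 0x49⟩ (.nil) (.nil)
def t14_12024 : Tr := .node ⟨nat_lit 8, nat_lit 0x800040004000a000c000d0, nat_lit 0x210110, nat_lit 3, nat_lit 4, nat_lit 0x47⟩ (.nil) (.nil)
def t14_7928 : Tr := .node ⟨nat_lit 7, nat_lit 0x400040002000500048, nat_lit 0x112102, nat_lit 3, nat_lit 4, nat_lit 0x48⟩ (.nil) (.nil)
def t9_248 : Tr := .node ⟨nat_lit 4, nat_lit 8, nat_lit 0x1323, nat_lit 0, nat_lit 3, nat_lit 0x47⟩ (.node ⟨nat_lit 4, nat_lit 8, nat_lit 0x1212, nat_lit 1, nat_lit 3, nat_lit 0x46⟩ (.node ⟨nat_lit 8, nat_lit 0x8000800040, nat_lit 0x1311101, nat_lit 0, nat_lit 4, nat_lit 0x4c⟩ (.node ⟨nat_lit 6, nat_lit 0x80030, nat_lit 0x110203, nat_lit 0, nat_lit 4, nat_lit 0x48⟩ (.node ⟨nat_lit 4, nat_lit 0x80004, nat_lit 0x1211, nat_lit 0xd, nat_lit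 4, nat_lit 0x49⟩ (t14_248) (t14_8440)) (.node ⟨nat_lit 8, nat_lit 0x800040004000a000d000e0, nat_lit 0x10012003, nat_lit 0, nat_lit 4, nat_lit 0x46⟩ (t14_4344) (t14_12536))) (.node ⟨nat_lit 5, nat_lit 0x180018, nat_lit 0x20221, nat_lit 8, nat_lit 4, nat_lit 0x48⟩ (.node ⟨nat_lit 6, nat_lit 0x20001000300034, nat_lit 0x13230, nat_lit 3, nat_lit 4, nat_lit 0x47⟩ (t14_2296) (t14_10488)) (.node ⟨nat_lit 6, nat_lit 0x2000080030, nat_lit 0x112210, nat_lit 3, nat_lit 4, nat_lit 0x49⟩ (t14_6392) (t14_14584)))) (.node ⟨nat_lit 5, nat_lit 0x100018, nat_lit 0x12111, nat_lit 5, nat_lit 4, nat_lit 0x48⟩ (.node ⟨nat_lit 7, nat_lit 0x100060, nat_lit 0x2111111, nat_lit 0, nat_lit 3, nat_lit 0x49⟩ (.node ⟨nat_lit 5, nat_lit 0x100018, nat_lit 0x11103, nat_lit 6, nat_lit 4, nat_lit 0x48⟩ (t14_1272) (t14_9464)) (.node ⟨nat_lit 8, nat_lit 0x800020002000c000d0, nat_lit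 0x11020022, nat_lit 0, nat_lit 4, nat_lit 0x48⟩ (t14_5368) (t14_13560))) (.node ⟨nat_lit 5, nat_lit 0x100010, nat_lit 0x2140, nat_lit 1, nat_lit 3, nat_lit 0x47⟩ (.node ⟨nat_lit 6, nat_lit 0x20001000100028, nat_lit 0x210310, nat_lit 4, nat_lit 4, nat_lit 0x49⟩ (t14_3320) (t14_11512)) (.node ⟨nat_lit 8, nat_lit 0x20001000c0, nat_lit 0x11001002, nat_lit 1, nat_lit 4, nat_lit 0x4a⟩ (t14_7416) (.nil))))) (.node ⟨nat_lit 3, nat_lit 4, nat_lit 0x133, nat_lit 8, nat_lit 4, nat_lit 0x48⟩ (.node ⟨nat_lit 5, nat_lit 0x100008, nat_lit 0x12102, nat_lit 5, nat_lit 4, nat_lit 0x49⟩ (.node ⟨nat_lit 6, nat_lit 0x200030, nat_lit 0x111110, nat_lit 0, nat_lit 3, nat_lit 0x47⟩ (.node ⟨nat_lit 5, nat_lit 0x180018, nat_lit 0x11320, nat_lit 1, nat_lit 3, nat_lit 0x46⟩ (t14_760) (t14_8952)) (.node ⟨nat_lit 7, nat_lit 0x20003000500068, nat_lit 0x102102, nat_lit 0, nat_lit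 4, nat_lit 0x46⟩ (t14_4856) (t14_13048))) (.node ⟨nat_lit 5, nat_lit 0x40018, nat_lit 0x11022, nat_lit 2, nat_lit 4, nat_lit 0x46⟩ (.node ⟨nat_lit 5, nat_lit 0x140018, nat_lit 0x1231, nat_lit 5, nat_lit 4, nat_lit 0x47⟩ (t14_2808) (t14_11000)) (.node ⟨nat_lit 8, nat_lit 0x80002000a000c000d0, nat_lit 0x1010222, nat_lit 1, nat_lit 4, nat_lit 0x47⟩ (t14_6904) (t14_15096)))) (.node ⟨nat_lit 7, nat_lit 0x2000500060, nat_lit 0x1011012, nat_lit 1, nat_lit 4, nat_lit 0x48⟩ (.node ⟨nat_lit 5, nat_lit 0x800080010, nat_lit 0x31311, nat_lit 0, nat_lit 3, nat_lit 0x47⟩ (.node ⟨nat_lit 6, nat_lit 0x800300030, nat_lit 0x1010, nat_lit 0, nat_lit 3, nat_lit 0x44⟩ (t14_1784) (t14_9976)) (.node ⟨nat_lit 7, nat_lit 0x4000500060, nat_lit 0x212120, nat_lit 0, nat_lit 4, nat_lit 0x49⟩ (t14_5880) (t14_14072))) (.node ⟨nat_lit 6, nat_lit 0x30000c, nat_lit 0x102002, nat_lit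 0, nat_lit 4, nat_lit 0x47⟩ (.node ⟨nat_lit 7, nat_lit 0x6000180050, nat_lit 0x1010003, nat_lit 3, nat_lit 4, nat_lit 0x48⟩ (t14_3832) (t14_12024)) (.node ⟨nat_lit 8, nat_lit 0x20002000a000c0, nat_lit 0x10011131, nat_lit 0, nat_lit 4, nat_lit 0x49⟩ (t14_7928) (.nil)))))
def t14_504 : Tr := .node ⟨nat_lit 7, nat_lit 0x400040, nat_lit 0x1221110, nat_lit 0, nat_lit 4, nat_lit 0x4c⟩ (.nil) (.nil)
def t14_8696 : Tr := .node ⟨nat_lit 8, nat_lit 0x10002000a000c0, nat_lit 0x20, nat_lit 1, nat_lit 4, nat_lit 0x47⟩ (.nil) (.nil)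
def t14_4600 : Tr := .node ⟨nat_lit 6, nat_lit 0x2000080030, nat_lit 0x101301, nat_lit 2, nat_lit 4, nat_lit 0x48⟩ (.nil) (.nil)
def t14_12792 : Tr := .node ⟨nat_lit 6, nat_lit 0x2000300034, nat_lit 0x101220, nat_lit 2, nat_lit 4, nat_lit 0x47⟩ (.nil) (.nil)
def t14_2552 : Tr := .node ⟨nat_lit 6, nat_lit 0x2000300030, nat_lit 0x13010, nat_lit 0, nat_lit 3, nat_lit 0x46⟩ (.nil) (.nil)
def t14_10744 : Tr := .node ⟨nat_lit 7, nat_lit 0x40002000480060, nat_lit 0x111020, nat_lit 0, nat_lit 4, nat_lit 0x47⟩ (.nil) (.nil)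
def t14_6648 : Tr := .node ⟨nat_lit 8, nat_lit 0x4000400080008000880060, nat_lit 0x10201110, nat_lit 1, nat_lit 4, nat_lit 0x48⟩ (.nil) (.nil)
def t14_14840 : Tr := .node ⟨nat_lit 9, nat_lit 0x100010000800080008001400190, nat_lit 0x1211001, nat_lit 0, nat_lit 4, nat_lit 0x48⟩ (.nil) (.nil)
def t14_1528 : Tr := .node ⟨nat_lit 7, nat_lit 0x4000500060, nat_lit 0x112012, nat_lit 0, nat_lit 3, nat_lit 0x47⟩ (.nil) (.nil)
def t14_9720 : Tr := .node ⟨nat_lit 8, nat_lit 0x200020004000400080, nat_lit 0x10000221, nat_lit 0, nat_lit 4, nat_lit 0x49⟩ (.nil) (.nil)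
def t14_5624 : Tr := .node ⟨nat_lit 6, nat_lit 0x10002000300030, nat_lit 0x1120, nat_lit 5, nat_lit 4, nat_lit 0x46⟩ (.nil) (.nil)
def t14_13816 : Tr := .node ⟨nat_lit 7, nat_lit 0x10005000300060, nat_lit 0x1002, nat_lit 0, nat_lit 4, nat_lit 0x45⟩ (.nil) (.nil)
def t14_3576 : Tr := .node ⟨nat_lit 7, nat_lit 0x4000400060, nat_lit 0x10210, nat_lit 0, nat_lit 3, nat_lit 0x47⟩ (.nil) (.nil)
def t14_11768 : Tr := .node ⟨nat_lit 5, nat_lit 0x1000080014, nat_lit 0x140, nat_lit 4, nat_lit 4, nat_lit 0x46⟩ (.nil) (.nil)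
def t14_7672 : Tr := .node ⟨nat_lit 3, nat_lit 0x40006, nat_lit 0x10, nat_lit 7, nat_lit 4, nat_lit 0x43⟩ (.nil) (.nil)
def t14_1016 : Tr := .node ⟨nat_lit 6, nat_lit 0x300030, nat_lit 0x1121, nat_lit 3, nat_lit 4, nat_lit 0x47⟩ (.nil) (.nil)
def t14_9208 : Tr := .node ⟨nat_lit 7, nat_lit 0x20002000400010, nat_lit 0x1012010, nat_lit 0, nat_lit 3, nat_lit 0x47⟩ (.nil) (.nil)
def t14_5112 : Tr := .node ⟨nat_lit 6, nat_lit 0x10001000200030, nat_lit 0x103011, nat_lit 5, nat_lit 4, nat_lit 0x48⟩ (.nil) (.nil)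
def t14_13304 : Tr := .node ⟨nat_lit 6, nat_lit 0x300030, nat_lit 0x10, nat_lit 1, nat_lit 4, nat_lit 0x45⟩ (.nil) (.nil)
def t14_3064 : Tr := .node ⟨nat_lit 7, nat_lit 0x10005000600060, nat_lit 0x10121, nat_lit 2, nat_lit 4, nat_lit 0x46⟩ (.nil) (.nil)
def t14_11256 : Tr := .node ⟨nat_lit 7, nat_lit 0x10002000500060, nat_lit 0x1001100, nat_lit 1, nat_lit 4, nat_lit 0x46⟩ (.nil) (.nil)
def t14_7160 : Tr := .node ⟨nat_lit 7, nat_lit 0x400020005000600070, nat_lit 0x1101021, nat_lit 3, nat_lit 4, nat_lit 0x47⟩ (.nil) (.nil)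
def t14_15352 : Tr := .node ⟨nat_lit 0xa, nat_lit 0x2000200010001000100011002800320, nat_lit 0x11110110, nat_lit 0, nat_lit 4, nat_lit 0x48⟩ (.nil) (.nil)
def t14_2040 : Tr := .node ⟨nat_lit 8, nat_lit 0x4000400080002000c0, nat_lit 0x131100, nat_lit 1, nat_lit 4, nat_lit 0x49⟩ (.nil) (.nil)
def t14_10232 : Tr := .node ⟨nat_lit 8, nat_lit 0x800040004000a000a000c0, nat_lit 0x10122100, nat_lit 0, nat_lit 4, nat_lit 0x48⟩ (.nil) (.nil)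
def t14_6136 : Tr := .node ⟨nat_lit 4, nat_lit 0x80004, nat_lit 0x1100, nat_lit 5, nat_lit 3, nat_lit 0x45⟩ (.nil) (.nil)
def t14_14328 : Tr := .node ⟨nat_lit 6, nat_lit 0x20001000100028, nat_lit 0x10103, nat_lit 0, nat_lit 4, nat_lit 0x45⟩ (.nil) (.nil)
def t14_4088 : Tr := .node ⟨nat_lit 6, nat_lit 0x800300038, nat_lit 0x111212, nat_lit 1, nat_lit 4, nat_lit 0x47⟩ (.nil) (.nil)
def t14_12280 : Tr := .node ⟨nat_lit 7, nat_lit 0x5000300060, nat_lit 0x1101, nat_lit 1, nat_lit 4, nat_lit 0x46⟩ (.nil) (.nil)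
def t14_8184 : Tr := .node ⟨nat_lit 8, nat_lit 0x8000200090009000c0, nat_lit 0x110410, nat_lit 0, nat_lit 4, nat_lit 0x48⟩ (.nil) (.nil)
def t9_504 : Tr := .node ⟨nat_lit 6, nat_lit 0x280030, nat_lit 0x111321, nat_lit 0, nat_lit 4, nat_lit 0x48⟩ (.node ⟨nat_lit 5, nat_lit 0x1000100008, nat_lit 0x1301, nat_lit 0, nat_lit 3, nat_lit 0x45⟩ (.node ⟨nat_lit 5, nat_lit 0, nat_lit 0x22222, nat_lit 0, nat_lit 4, nat_lit 0x4b⟩ (.node ⟨nat_lit 5, nat_lit 0x1000100008, nat_lit 0x111, nat_lit 1, nat_lit 3, nat_lit 0x44⟩ (.node ⟨nat_lit 7, nat_lit 0x40004000100060, nat_lit 0x122011, nat_lit 2, nat_lit 4, nat_lit 0x49⟩ (t14_504) (t14_8696)) (.node ⟨nat_lit 7, nat_lit 0x1000600060, nat_lit 0x1021211, nat_lit 1, nat_lit 4, nat_lit 0x49⟩ (t14_4600) (t14_12792))) (.node ⟨nat_lit 4, nat_lit 0xc, nat_lit 0x1012, nat_lit 4, nat_lit 4, nat_lit 0x45⟩ (.node ⟨nat_lit 9,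 nat_lit 0x1000080004000200020, nat_lit 0x100031, nat_lit 3, nat_lit 4, nat_lit 0x4b⟩ (t14_2552) (t14_10744)) (.node ⟨nat_lit 7, nat_lit 0x40002000480060, nat_lit 0x112102, nat_lit 1, nat_lit 4, nat_lit 0x48⟩ (t14_6648) (t14_14840)))) (.node ⟨nat_lit 6, nat_lit 0x280030, nat_lit 0x21111, nat_lit 3, nat_lit 4, nat_lit 0x48⟩ (.node ⟨nat_lit 6, nat_lit 0x200010, nat_lit 0x122101, nat_lit 5, nat_lit 4, nat_lit 0x4b⟩ (.node ⟨nat_lit 6, nat_lit 0x800280030, nat_lit 0x11320, nat_lit 0, nat_lit 4, nat_lit 0x47⟩ (t14_1528) (t14_9720)) (.node ⟨nat_lit 6, nat_lit 0x300030, nat_lit 0x112110, nat_lit 0, nat_lit 3, nat_lit 0x47⟩ (t14_5624) (t14_13816))) (.node ⟨nat_lit 6, nat_lit 0x2000080030, nat_lit 0x111100, nat_lit 0, nat_lit 3, nat_lit 0x46⟩ (.node ⟨nat_lit 6, nat_lit 0x1000080020, nat_lit 0x11000, nat_lit 0, nat_lit 4, nat_lit 0x46⟩ (t14_3576) (t14_11768))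 (.node ⟨nat_lit 8, nat_lit 0x800080004000900090, nat_lit 0x11111100, nat_lit 3, nat_lit 4, nat_lit 0x4a⟩ (t14_7672) (.nil))))) (.node ⟨nat_lit 5, nat_lit 0x10001c001c, nat_lit 0x31020, nat_lit 4, nat_lit 4, nat_lit 0x46⟩ (.node ⟨nat_lit 4, nat_lit 0xc, nat_lit 0x2022, nat_lit 7, nat_lit 4, nat_lit 0x47⟩ (.node ⟨nat_lit 6, nat_lit 0x200020, nat_lit 0x221111, nat_lit 3, nat_lit 4, nat_lit 0x4b⟩ (.node ⟨nat_lit 5, nat_lit 0x180018, nat_lit 0x11131, nat_lit 7, nat_lit 4, nat_lit 0x48⟩ (t14_1016) (t14_9208)) (.node ⟨nat_lit 5, nat_lit 0x100010, nat_lit 0x12231, nat_lit 5, nat_lit 4, nat_lit 0x4a⟩ (t14_5112) (t14_13304))) (.node ⟨nat_lit 7, nat_lit 0x40002000480060, nat_lit 0x1012110, nat_lit 0, nat_lit 4, nat_lit 0x48⟩ (.node ⟨nat_lit 6, nat_lit 0x2000340034, nat_lit 0x201221, nat_lit 4, nat_lit 4, nat_lit 0x48⟩ (t14_3064) (t14_11256)) (.node ⟨nat_lit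 8, nat_lit 0x800080002000c000d0, nat_lit 0x1020022, nat_lit 1, nat_lit 4, nat_lit 0x48⟩ (t14_7160) (t14_15352)))) (.node ⟨nat_lit 7, nat_lit 0x1000600060, nat_lit 0x1002021, nat_lit 1, nat_lit 4, nat_lit 0x48⟩ (.node ⟨nat_lit 7, nat_lit 0x4000100060, nat_lit 0x2111101, nat_lit 1, nat_lit 4, nat_lit 0x4a⟩ (.node ⟨nat_lit 5, nat_lit 0x1000080008, nat_lit 0x11031, nat_lit 9, nat_lit 4, nat_lit 0x49⟩ (t14_2040) (t14_10232)) (.node ⟨nat_lit 5, nat_lit 0x800100018, nat_lit 0x20220, nat_lit 3, nat_lit 4, nat_lit 0x47⟩ (t14_6136) (t14_14328))) (.node ⟨nat_lit 5, nat_lit 0x40018, nat_lit 0x22033, nat_lit 1, nat_lit 4, nat_lit 0x48⟩ (.node ⟨nat_lit 6, nat_lit 0x200020, nat_lit 0x20010, nat_lit 0, nat_lit 3, nat_lit 0x47⟩ (t14_4088) (t14_12280)) (.node ⟨nat_lit 8, nat_lit 0x2000200080003000c0, nat_lit 0x10011211, nat_lit 0, nat_lit 4, nat_lit 0x48⟩ (t14_8184)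 (.nil)))))
def t4_8 : Tr := .node ⟨nat_lit 1, nat_lit 0, nat_lit 3, nat_lit 0xc, nat_lit 3, nat_lit 0x44⟩ (.node ⟨nat_lit 4, nat_lit 0xc, nat_lit 0x1021, nat_lit 3, nat_lit 3, nat_lit 0x45⟩ (.node ⟨nat_lit 3, nat_lit 0, nat_lit 0x111, nat_lit 5, nat_lit 3, nat_lit 0x45⟩ (.node ⟨nat_lit 4, nat_lit 8, nat_lit 0x2412, nat_lit 5, nat_lit 4, nat_lit 0x4a⟩ (.node ⟨nat_lit 5, nat_lit 0x10, nat_lit 0x4212, nat_lit 0, nat_lit 4, nat_lit 0x4a⟩ (t9_8) (t9_264)) (.node ⟨nat_lit 5, nat_lit 0x1000100008, nat_lit 0x13212, nat_lit 0, nat_lit 3, nat_lit 0x47⟩ (t9_136) (t9_392))) (.node ⟨nat_lit 3, nat_lit 0, nat_lit 0x411, nat_lit 9, nat_lit 4, nat_lit 0x49⟩ (.node ⟨nat_lit 4, nat_lit 8, nat_lit 0x2113, nat_lit 1, nat_lit 3, nat_lit 0x47⟩ (t9_72) (t9_328)) (.node ⟨nat_lit 4, nat_lit 8, nat_lit 0x3211, nat_lit 5, nat_lit 3, nat_lit 0x48⟩ (t9_200) (t9_456)))) (.node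 ⟨nat_lit 6, nat_lit 0x200020, nat_lit 0x11110, nat_lit 0, nat_lit 3, nat_lit 0x47⟩ (.node ⟨nat_lit 5, nat_lit 0, nat_lit 0x43111, nat_lit 0, nat_lit 4, nat_lit 0x4c⟩ (.node ⟨nat_lit 5, nat_lit 0x10, nat_lit 0x32113, nat_lit 0, nat_lit 4, nat_lit 0x4b⟩ (t9_40) (t9_296)) (.node ⟨nat_lit 5, nat_lit 0x10, nat_lit 0x31112, nat_lit 5, nat_lit 4, nat_lit 0x4b⟩ (t9_168) (t9_424))) (.node ⟨nat_lit 6, nat_lit 0x1000100020, nat_lit 0x114111, nat_lit 1, nat_lit 4, nat_lit 0x4a⟩ (.node ⟨nat_lit 5, nat_lit 0x80010, nat_lit 0x13321, nat_lit 1, nat_lit 4, nat_lit 0x4a⟩ (t9_104) (t9_360)) (.node ⟨nat_lit 5, nat_lit 0x18, nat_lit 0x31311, nat_lit 1, nat_lit 4, nat_lit 0x4a⟩ (t9_232) (t9_488))))) (.node ⟨nat_lit 5, nat_lit 0x100010, nat_lit 0x2110, nat_lit 1, nat_lit 3, nat_lit 0x46⟩ (.node ⟨nat_lit 5, nat_lit 0x10, nat_lit 0x1110, nat_lit 0, nat_lit 3, nat_lit 0x46⟩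 (.node ⟨nat_lit 2, nat_lit 0, nat_lit 0x32, nat_lit 2, nat_lit 3, nat_lit 0x45⟩ (.node ⟨nat_lit 3, nat_lit 4, nat_lit 0x323, nat_lit 9, nat_lit 4, nat_lit 0x49⟩ (t9_24) (t9_280)) (.node ⟨nat_lit 5, nat_lit 0x80010, nat_lit 0x31112, nat_lit 1, nat_lit 3, nat_lit 0x48⟩ (t9_152) (t9_408))) (.node ⟨nat_lit 5, nat_lit 0x10, nat_lit 0x4110, nat_lit 1, nat_lit 4, nat_lit 0x49⟩ (.node ⟨nat_lit 5, nat_lit 0x18, nat_lit 0x21112, nat_lit 1, nat_lit 3, nat_lit 0x47⟩ (t9_88) (t9_344)) (.node ⟨nat_lit 6, nat_lit 0x200010, nat_lit 0x31101, nat_lit 3, nat_lit 3, nat_lit 0x49⟩ (t9_216) (t9_472)))) (.node ⟨nat_lit 3, nat_lit 0, nat_lit 0x432, nat_lit 0, nat_lit 3, nat_lit 0x48⟩ (.node ⟨nat_lit 5, nat_lit 0x80010, nat_lit 0x12421, nat_lit 0, nat_lit 4, nat_lit 0x4a⟩ (.node ⟨nat_lit 6, nat_lit 0x2000200010, nat_lit 0x21101, nat_lit 1, nat_lit 3, nat_lit 0x47⟩ (t9_56)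 (t9_312)) (.node ⟨nat_lit 4, nat_lit 0xc, nat_lit 0x3111, nat_lit 0xb, nat_lit 4, nat_lit 0x49⟩ (t9_184) (t9_440))) (.node ⟨nat_lit 5, nat_lit 0x18, nat_lit 0x21411, nat_lit 1, nat_lit 4, nat_lit 0x4a⟩ (.node ⟨nat_lit 4, nat_lit 0x40008, nat_lit 0x2322, nat_lit 5, nat_lit 4, nat_lit 0x49⟩ (t9_120) (t9_376)) (.node ⟨nat_lit 5, nat_lit 0x100008, nat_lit 0x31210, nat_lit 1, nat_lit 3, nat_lit 0x48⟩ (t9_248) (t9_504)))))

end Pool.Agent.Sel.T31
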