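import Pool.Agent.H8.Sel.Prof
import Pool.Agent.H8.Sel.T31.P8

set_option linter.all false
set_option maxRecDepth 100000

namespace Pool.Agent.Sel.T31

open Pool.Agent.Sel

def t14_10 : Tr := .node ⟨nat_lit 7, nat_lit 0x2000200040, nat_lit 0x111210, nat_lit 6, nat_lit 4, nat_lit 0x4b⟩ (.nil) (.nil)
def t14_8202 : Tr := .node ⟨nat_lit 7, nat_lit 0x40002000500064, nat_lit 0x113, nat_lit 1, nat_lit 4, nat_lit 0x45⟩ (.nil) (.nil)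
def t14_4106 : Tr := .node ⟨nat_lit 9, nat_lit 0x10001000040011001200180, nat_lit 0x11110101, nat_lit 2, nat_lit 4, nat_lit 0x49⟩ (.nil) (.nil)
def t14_12298 : Tr := .node ⟨nat_lit 6, nat_lit 0x3000280038, nat_lit 0x103, nat_lit 3, nat_lit 4, nat_lit 0x44⟩ (.nil) (.nil)
def t14_2058 : Tr := .node ⟨nat_lit 5, nat_lit 0x1000100014, nat_lit 0x2131, nat_lit 6, nat_lit 4, nat_lit 0x48⟩ (.nil) (.nil)
def t14_10250 : Tr := .node ⟨nat_lit 9, nat_lit 0x100010001200190019001a0, nat_lit 0x101000202, nat_lit 1, nat_lit 4, nat_lit 0x47⟩ (.nil) (.nil)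
def t14_6154 : Tr := .node ⟨nat_lit 5, nat_lit 0x1000080008, nat_lit 0x10, nat_lit 7, nat_lit 4, nat_lit 0x46⟩ (.nil) (.nil)
def t14_14346 : Tr := .node ⟨nat_lit 8, nat_lit 0x800040004000a000c0, nat_lit 0x11003, nat_lit 3, nat_lit 4, nat_lit 0x48⟩ (.nil) (.nil)
def t14_1034 : Tr := .node ⟨nat_lit 5, nat_lit 0x1000080014, nat_lit 0x20, nat_lit 3, nat_lit 4, nat_lit 0x44⟩ (.nil) (.nil)
def t14_9226 : Tr := .node ⟨nat_lit 7, nat_lit 0x400020002000500060, nat_lit 0x1003201, nat_lit 0, nat_lit 4, nat_lit 0x48⟩ (.nil) (.nil)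
def t14_5130 : Tr := .node ⟨nat_lit 8, nat_lit 0x800080004000a000d000e0, nat_lit 0x103101, nat_lit 1, nat_lit 4, nat_lit 0x46⟩ (.nil) (.nil)
def t14_13322 : Tr := .node ⟨nat_lit 7, nat_lit 0x40001000100060, nat_lit 0x3100, nat_lit 0, nat_lit 4, nat_lit 0x47⟩ (.nil) (.nil)
def t14_3082 : Tr := .node ⟨nat_lit 6, nat_lit 0x2000080030, nat_lit 0x20011, nat_lit 0, nat_lit 4, nat_lit 0x46⟩ (.nil) (.nil)
def t14_11274 : Tr := .node ⟨nat_lit 7, nat_lit 0x40001000600070, nat_lit 0x101202, nat_lit 0, nat_lit 4, nat_lit 0x46⟩ (.nil) (.nil)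
def t14_7178 : Tr := .node ⟨nat_lit 7, nat_lit 0x10006000600050, nat_lit 0x1012111, nat_lit 1, nat_lit 4, nat_lit 0x47⟩ (.nil) (.nil)
def t14_15370 : Tr := .node ⟨nat_lit 8, nat_lit 0x8000800020009000c0, nat_lit 0x1110111, nat_lit 4, nat_lit 4, nat_lit 0x49⟩ (.nil) (.nil)
def t14_522 : Tr := .node ⟨nat_lit 7, nat_lit 0x40004000100020, nat_lit 0x111010, nat_lit 9, nat_lit 4, nat_lit 0x4a⟩ (.nil) (.nil)
def t14_8714 : Tr := .node ⟨nat_lit 8, nat_lit 0x8000200020009000c0, nat_lit 0x11010, nat_lit 1, nat_lit 4, nat_lit 0x47⟩ (.nil) (.nil)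
def t14_4618 : Tr := .node ⟨nat_lit 7, nat_lit 0x40001000100060, nat_lit 0x1012101, nat_lit 4, nat_lit 4, nat_lit 0x49⟩ (.nil) (.nil)
def t14_12810 : Tr := .node ⟨nat_lit 6, nat_lit 0x20002000100030, nat_lit 0x2120, nat_lit 4, nat_lit 4, nat_lit 0x47⟩ (.nil) (.nil)
def t14_2570 : Tr := .node ⟨nat_lit 8, nat_lit 0x8000800040009000e000e0, nat_lit 0x10021020, nat_lit 1, nat_lit 4, nat_lit 0x47⟩ (.nil) (.nil)
def t14_10762 : Tr := .node ⟨nat_lit 7, nat_lit 0x2000400060, nat_lit 0x12, nat_lit 0, nat_lit 4, nat_lit 0x47⟩ (.nil) (.nil)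
def t14_6666 : Tr := .node ⟨nat_lit 7, nat_lit 0x4000100060, nat_lit 0x111012, nat_lit 2, nat_lit 4, nat_lit 0x49⟩ (.nil) (.nil)
def t14_14858 : Tr := .node ⟨nat_lit 8, nat_lit 0x2000800088006000c0, nat_lit 0x111111, nat_lit 1, nat_lit 4, nat_lit 0x47⟩ (.nil) (.nil)
def t14_1546 : Tr := .node ⟨nat_lit 7, nat_lit 0x400020002000200050, nat_lit 0x1022102, nat_lit 0, nat_lit 4, nat_lit 0x48⟩ (.nil) (.nil)
def t14_9738 : Tr := .node ⟨nat_lit 9, nat_lit 0x100004001800180, nat_lit 0x112020, nat_lit 0, nat_lit 4, nat_lit 0x4a⟩ (.nil) (.nil)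
def t14_5642 : Tr := .node ⟨nat_lit 7, nat_lit 0x600060, nat_lit 0x11020, nat_lit 0, nat_lit 4, nat_lit 0x48⟩ (.nil) (.nil)
def t14_13834 : Tr := .node ⟨nat_lit 7, nat_lit 0x1000400060, nat_lit 0x1001002, nat_lit 1, nat_lit 3, nat_lit 0x47⟩ (.nil) (.nil)
def t14_3594 : Tr := .node ⟨nat_lit 6, nat_lit 0x1000080020, nat_lit 0x201, nat_lit 0, nat_lit 3, nat_lit 0x45⟩ (.nil) (.nil)
def t14_11786 : Tr := .node ⟨nat_lit 7, nat_lit 0x40002000480070, nat_lit 0x10003, nat_lit 3, nat_lit 4, nat_lit 0x46⟩ (.nil) (.nil)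
def t14_7690 : Tr := .node ⟨nat_lit 3, nat_lit 0x40004, nat_lit 0x20, nat_lit 6, nat_lit 4, nat_lit 0x44⟩ (.nil) (.nil)
def t9_10 : Tr := .node ⟨nat_lit 4, nat_lit 0xc, nat_lit 0x3121, nat_lit 3, nat_lit 4, nat_lit 0x48⟩ (.node ⟨nat_lit 6, nat_lit 0x20, nat_lit 0x131112, nat_lit 0, nat_lit 4, nat_lit 0x4b⟩ (.node ⟨nat_lit 6, nat_lit 0x3000300030, nat_lit 0x2210, nat_lit 0, nat_lit 3, nat_lit 0x44⟩ (.node ⟨nat_lit 6, nat_lit 0x280030, nat_lit 0x100221, nat_lit 2, nat_lit 4, nat_lit 0x47⟩ (.node ⟨nat_lit 4, nat_lit 0x80004, nat_lit 0x2233, nat_lit 4, nat_lit 4, nat_lit 0x49⟩ (t14_10) (t14_8202)) (.node ⟨nat_lit 3, nat_lit 6, nat_lit 0x200, nat_lit 6, nat_lit 3, nat_lit 0x44⟩ (t14_4106) (t14_12298))) (.node ⟨nat_lit 4, nat_lit 0xc, nat_lit 0x3122, nat_lit 6, nat_lit 4, nat_lit 0x49⟩ (.node ⟨nat_lit 7, nat_lit 0x400040002000200064, nat_lit 0x111132,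 nat_lit 0, nat_lit 4, nat_lit 0x48⟩ (t14_2058) (t14_10250)) (.node ⟨nat_lit 5, nat_lit 0x18, nat_lit 0x220, nat_lit 2, nat_lit 4, nat_lit 0x47⟩ (t14_6154) (t14_14346)))) (.node ⟨nat_lit 6, nat_lit 0x10001000200022, nat_lit 0x201120, nat_lit 0, nat_lit 4, nat_lit 0x47⟩ (.node ⟨nat_lit 5, nat_lit 0x100018, nat_lit 0x22112, nat_lit 3, nat_lit 4, nat_lit 0x49⟩ (.node ⟨nat_lit 4, nat_lit 0xc, nat_lit 0x1113, nat_lit 7, nat_lit 4, nat_lit 0x47⟩ (t14_1034) (t14_9226)) (.node ⟨nat_lit 5, nat_lit 0x100008, nat_lit 0x11210, nat_lit 0xb, nat_lit 4, nat_lit 0x4a⟩ (t14_5130) (t14_13322))) (.node ⟨nat_lit 5, nat_lit 0x800080010, nat_lit 0x11201, nat_lit 4, nat_lit 3, nat_lit 0x46⟩ (.node ⟨nat_lit 6, nat_lit 0x2000080030, nat_lit 0x121014, nat_lit 0, nat_lit 4, nat_lit 0x49⟩ (t14_3082) (t14_11274)) (.node ⟨nat_lit 6, nat_lit 0x20001000300034, nat_lit 0x13220,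 nat_lit 3, nat_lit 4, nat_lit 0x47⟩ (t14_7178) (t14_15370))))) (.node ⟨nat_lit 6, nat_lit 0x100020, nat_lit 0x311102, nat_lit 1, nat_lit 4, nat_lit 0x4b⟩ (.node ⟨nat_lit 5, nat_lit 0x18, nat_lit 0x21211, nat_lit 5, nat_lit 4, nat_lit 0x49⟩ (.node ⟨nat_lit 6, nat_lit 0x200030, nat_lit 0x12110, nat_lit 1, nat_lit 4, nat_lit 0x48⟩ (.node ⟨nat_lit 6, nat_lit 0x800200030, nat_lit 0x210013, nat_lit 0, nat_lit 4, nat_lit 0x48⟩ (t14_522) (t14_8714)) (.node ⟨nat_lit 7, nat_lit 0x4000600050, nat_lit 0x1111202, nat_lit 0, nat_lit 4, nat_lit 0x49⟩ (t14_4618) (t14_12810))) (.node ⟨nat_lit 5, nat_lit 0x800080010, nat_lit 0x10201, nat_lit 2, nat_lit 3, nat_lit 0x45⟩ (.node ⟨nat_lit 8, nat_lit 0x40002000200080, nat_lit 0x10110311, nat_lit 0, nat_lit 4, nat_lit 0x4b⟩ (t14_2570) (t14_10762)) (.node ⟨nat_lit 9, nat_lit 0x1000100010801100180, nat_lit 0x2102100, nat_lit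 1, nat_lit 4, nat_lit 0x4a⟩ (t14_6666) (t14_14858)))) (.node ⟨nat_lit 4, nat_lit 8, nat_lit 0x1213, nat_lit 3, nat_lit 4, nat_lit 0x48⟩ (.node ⟨nat_lit 5, nat_lit 0x40018, nat_lit 0x20111, nat_lit 0xb, nat_lit 4, nat_lit 0x49⟩ (.node ⟨nat_lit 5, nat_lit 0x800100018, nat_lit 0x1311, nat_lit 5, nat_lit 4, nat_lit 0x47⟩ (t14_1546) (t14_9738)) (.node ⟨nat_lit 5, nat_lit 0x1000100008, nat_lit 0x11202, nat_lit 2, nat_lit 3, nat_lit 0x46⟩ (t14_5642) (t14_13834))) (.node ⟨nat_lit 5, nat_lit 0x18, nat_lit 0x20114, nat_lit 1, nat_lit 4, nat_lit 0x48⟩ (.node ⟨nat_lit 6, nat_lit 0x10002000240038, nat_lit 0x101103, nat_lit 2, nat_lit 4, nat_lit 0x45⟩ (t14_3594) (t14_11786)) (.node ⟨nat_lit 7, nat_lit 0x40001000480060, nat_lit 0x1113101, nat_lit 1, nat_lit 4, nat_lit 0x49⟩ (t14_7690) (.nil)))))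
def t14_266 : Tr := .node ⟨nat_lit 7, nat_lit 0x20006000600050, nat_lit 0x21221, nat_lit 0, nat_lit 4, nat_lit 0x47⟩ (.nil) (.nil)
def t14_8458 : Tr := .node ⟨nat_lit 6, nat_lit 0x2000280034, nat_lit 0x1210, nat_lit 2, nat_lit 4, nat_lit 0x46⟩ (.nil) (.nil)
def t14_4362 : Tr := .node ⟨nat_lit 9, nat_lit 0x100010000800110012001a0, nat_lit 0x102011100, nat_lit 1, nat_lit 4, nat_lit 0x49⟩ (.nil) (.nil)
def t14_12554 : Tr := .node ⟨nat_lit 8, nat_lit 0x40002000a000d000d0, nat_lit 0x1010031, nat_lit 1, nat_lit 4, nat_lit 0x46⟩ (.nil) (.nil)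
def t14_2314 : Tr := .node ⟨nat_lit 8, nat_lit 0x80008000400088, nat_lit 0x1112101, nat_lit 0, nat_lit 4, nat_lit 0x4a⟩ (.nil) (.nil)
def t14_10506 : Tr := .node ⟨nat_lit 8, nat_lit 0x40004000a000c0, nat_lit 0x10002, nat_lit 2, nat_lit 4, nat_lit 0x48⟩ (.nil) (.nil)
def t14_6410 : Tr := .node ⟨nat_lit 8, nat_lit 0x800040005000a000a000c0, nat_lit 0x1010102, nat_lit 0, nat_lit 4, nat_lit 0x46⟩ (.nil) (.nil)
def t14_14602 : Tr := .node ⟨nat_lit 3, nat_lit 0, nat_lit 0x211, nat_lit 0xc, nat_lit 3, nat_lit 0x47⟩ (.nil) (.nil)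
def t14_1290 : Tr := .node ⟨nat_lit 8, nat_lit 0x800020009000a000c0, nat_lit 0x1012120, nat_lit 0, nat_lit 4, nat_lit 0x47⟩ (.nil) (.nil)
def t14_9482 : Tr := .node ⟨nat_lit 0xa, nat_lit 0x80010002000200012002100300, nat_lit 0x100011002, nat_lit 0, nat_lit 4, nat_lit 0x49⟩ (.nil) (.nil)
def t14_5386 : Tr := .node ⟨nat_lit 8, nat_lit 0x800080004000a000a00048, nat_lit 0x2101, nat_lit 1, nat_lit 4, nat_lit 0x46⟩ (.nil) (.nil)
def t14_13578 : Tr := .node ⟨nat_lit 8, nat_lit 0x800080004000b000d0, nat_lit 0x10021, nat_lit 0, nat_lit 4, nat_lit 0x46⟩ (.nil) (.nil)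
def t14_3338 : Tr := .node ⟨nat_lit 8, nat_lit 0x20008000c000a0, nat_lit 0x20021, nat_lit 3, nat_lit 4, nat_lit 0x49⟩ (.nil) (.nil)
def t14_11530 : Tr := .node ⟨nat_lit 6, nat_lit 0x2000300030, nat_lit 0x11210, nat_lit 7, nat_lit 4, nat_lit 0x48⟩ (.nil) (.nil)
def t14_7434 : Tr := .node ⟨nat_lit 7, nat_lit 0x400020002000500050, nat_lit 0x1111121, nat_lit 2, nat_lit 4, nat_lit 0x48⟩ (.nil) (.nil)
def t14_778 : Tr := .node ⟨nat_lit 6, nat_lit 0x1000080020, nat_lit 0x101310, nat_lit 2, nat_lit 4, nat_lit 0x48⟩ (.nil) (.nil)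
def t14_8970 : Tr := .node ⟨nat_lit 8, nat_lit 0x8000800040004000a00090, nat_lit 0x211010, nat_lit 3, nat_lit 4, nat_lit 0x48⟩ (.nil) (.nil)
def t14_4874 : Tr := .node ⟨nat_lit 8, nat_lit 0x8000800040004000a00090, nat_lit 0x1102100, nat_lit 2, nat_lit 4, nat_lit 0x48⟩ (.nil) (.nil)
def t14_13066 : Tr := .node ⟨nat_lit 6, nat_lit 0x2000280030, nat_lit 0x13, nat_lit 4, nat_lit 4, nat_lit 0x46⟩ (.nil) (.nil)
def t14_2826 : Tr := .node ⟨nat_lit 7, nat_lit 0x40002000480048, nat_lit 0x120121, nat_lit 0, nat_lit 4, nat_lit 0x47⟩ (.nil) (.nil)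
def t14_11018 : Tr := .node ⟨nat_lit 7, nat_lit 0x10006000600060, nat_lit 0x21210, nat_lit 1, nat_lit 4, nat_lit 0x47⟩ (.nil) (.nil)
def t14_6922 : Tr := .node ⟨nat_lit 6, nat_lit 0x280030, nat_lit 0x131111, nat_lit 1, nat_lit 4, nat_lit 0x49⟩ (.nil) (.nil)
def t14_15114 : Tr := .node ⟨nat_lit 7, nat_lit 0x200040004000300048, nat_lit 0x11011, nat_lit 3, nat_lit 4, nat_lit 0x46⟩ (.nil) (.nil)
def t14_1802 : Tr := .node ⟨nat_lit 7, nat_lit 0x10004000400060, nat_lit 0x200202, nat_lit 4, nat_lit 4, nat_lit 0x49⟩ (.nil) (.nil)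
def t14_9994 : Tr := .node ⟨nat_lit 8, nat_lit 0x800020002000c000c0, nat_lit 0x31020, nat_lit 2, nat_lit 4, nat_lit 0x48⟩ (.nil) (.nil)
def t14_5898 : Tr := .node ⟨nat_lit 8, nat_lit 0x800040004000400090, nat_lit 0x10102110, nat_lit 4, nat_lit 4, nat_lit 0x4a⟩ (.nil) (.nil)
def t14_14090 : Tr := .node ⟨nat_lit 6, nat_lit 0x10001000200020, nat_lit 0x102110, nat_lit 5, nat_lit 4, nat_lit 0x48⟩ (.nil) (.nil)
def t14_3850 : Tr := .node ⟨nat_lit 7, nat_lit 0x2000500060, nat_lit 0x1012012, nat_lit 2, nat_lit 4, nat_lit 0x49⟩ (.nil) (.nil)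
def t14_12042 : Tr := .node ⟨nat_lit 7, nat_lit 0x40002000500060, nat_lit 0x122010, nat_lit 1, nat_lit 4, nat_lit 0x48⟩ (.nil) (.nil)
def t14_7946 : Tr := .node ⟨nat_lit 7, nat_lit 0x10004000440060, nat_lit 0x111131, nat_lit 0, nat_lit 4, nat_lit 0x47⟩ (.nil) (.nil)
def t9_266 : Tr := .node ⟨nat_lit 6, nat_lit 0x2000080010, nat_lit 0x13021, nat_lit 0, nat_lit 4, nat_lit 0x49⟩ (.node ⟨nat_lit 5, nat_lit 0x180018, nat_lit 0x11122, nat_lit 0, nat_lit 3, nat_lit 0x45⟩ (.node ⟨nat_lit 6, nat_lit 0x2000100030, nat_lit 0x2300, nat_lit 0, nat_lit 4, nat_lit 0x47⟩ (.node ⟨nat_lit 7, nat_lit 0x40001000600060, nat_lit 0x11320, nat_lit 0, nat_lit 4, nat_lit 0x47⟩ (.node ⟨nat_lit 6, nat_lit 0x1000200020, nat_lit 0x211122, nat_lit 0, nat_lit 4, nat_lit 0x4a⟩ (t14_266) (t14_8458)) (.node ⟨nat_lit 7, nat_lit 0x2000500060, nat_lit 0x1012003, nat_lit 0, nat_lit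 3, nat_lit 0x47⟩ (t14_4362) (t14_12554))) (.node ⟨nat_lit 6, nat_lit 0x20, nat_lit 0x31112, nat_lit 0, nat_lit 3, nat_lit 0x49⟩ (.node ⟨nat_lit 7, nat_lit 0x40004800300070, nat_lit 0x1002023, nat_lit 0, nat_lit 4, nat_lit 0x46⟩ (t14_2314) (t14_10506)) (.node ⟨nat_lit 6, nat_lit 0x20001000280030, nat_lit 0x112210, nat_lit 4, nat_lit 4, nat_lit 0x48⟩ (t14_6410) (t14_14602)))) (.node ⟨nat_lit 6, nat_lit 0x2000080030, nat_lit 0x121121, nat_lit 0, nat_lit 4, nat_lit 0x48⟩ (.node ⟨nat_lit 6, nat_lit 0x100020, nat_lit 0x222121, nat_lit 0, nat_lit 4, nat_lit 0x4b⟩ (.node ⟨nat_lit 5, nat_lit 0x140018, nat_lit 0x1101, nat_lit 3, nat_lit 4, nat_lit 0x45⟩ (t14_1290) (t14_9482)) (.node ⟨nat_lit 7, nat_lit 0x10004000200060, nat_lit 0x1100212, nat_lit 3, nat_lit 4, nat_lit 0x49⟩ (t14_5386) (t14_13578))) (.node ⟨nat_lit 5, nat_lit 0x1000100008, nat_lit 0x22002,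 nat_lit 1, nat_lit 3, nat_lit 0x47⟩ (.node ⟨nat_lit 3, nat_lit 6, nat_lit 0x213, nat_lit 6, nat_lit 4, nat_lit 0x46⟩ (t14_3338) (t14_11530)) (.node ⟨nat_lit 6, nat_lit 0x800200030, nat_lit 0x110012, nat_lit 9, nat_lit 4, nat_lit 0x49⟩ (t14_7434) (.nil))))) (.node ⟨nat_lit 7, nat_lit 0x40004000200048, nat_lit 0x130010, nat_lit 3, nat_lit 4, nat_lit 0x49⟩ (.node ⟨nat_lit 6, nat_lit 0x2000240018, nat_lit 0x211210, nat_lit 0, nat_lit 4, nat_lit 0x48⟩ (.node ⟨nat_lit 5, nat_lit 0x100008, nat_lit 0x1102, nat_lit 3, nat_lit 4, nat_lit 0x47⟩ (.node ⟨nat_lit 5, nat_lit 0x10, nat_lit 0x21110, nat_lit 7, nat_lit 4, nat_lit 0x4a⟩ (t14_778) (t14_8970)) (.node ⟨nat_lit 8, nat_lit 0x80008000800040004000a0, nat_lit 0x1111201, nat_lit 2, nat_lit 4, nat_lit 0x49⟩ (t14_4874) (t14_13066))) (.node ⟨nat_lit 6, nat_lit 0x1000280030, nat_lit 0x111022, nat_lit 1, nat_lit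 4, nat_lit 0x47⟩ (.node ⟨nat_lit 6, nat_lit 0x2000080030, nat_lit 0x21113, nat_lit 2, nat_lit 4, nat_lit 0x48⟩ (t14_2826) (t14_11018)) (.node ⟨nat_lit 6, nat_lit 0x10002000180024, nat_lit 0x11320, nat_lit 0, nat_lit 4, nat_lit 0x46⟩ (t14_6922) (t14_15114)))) (.node ⟨nat_lit 4, nat_lit 0x80008, nat_lit 0x1122, nat_lit 5, nat_lit 3, nat_lit 0x46⟩ (.node ⟨nat_lit 7, nat_lit 0x200020004000400044, nat_lit 0x1121010, nat_lit 1, nat_lit 4, nat_lit 0x48⟩ (.node ⟨nat_lit 5, nat_lit 0x1000100018, nat_lit 0x1113, nat_lit 6, nat_lit 4, nat_lit 0x47⟩ (t14_1802) (t14_9994)) (.node ⟨nat_lit 6, nat_lit 0x200020, nat_lit 0x120011, nat_lit 1, nat_lit 3, nat_lit 0x48⟩ (t14_5898) (t14_14090))) (.node ⟨nat_lit 7, nat_lit 0x2000500060, nat_lit 0x2002220, nat_lit 1, nat_lit 4, nat_lit 0x49⟩ (.node ⟨nat_lit 7, nat_lit 0x5000600070, nat_lit 0x111013, nat_lit 0, nat_lit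 4, nat_lit 0x47⟩ (t14_3850) (t14_12042)) (.node ⟨nat_lit 6, nat_lit 0x2000240030, nat_lit 0x101221, nat_lit 3, nat_lit 4, nat_lit 0x48⟩ (t14_7946) (.nil)))))
def t14_138 : Tr := .node ⟨nat_lit 7, nat_lit 0x1000500060, nat_lit 0x113112, nat_lit 0, nat_lit 4, nat_lit 0x49⟩ (.nil) (.nil)
def t14_8330 : Tr := .node ⟨nat_lit 3, nat_lit 6, nat_lit 0, nat_lit 4, nat_lit 4, nat_lit 0x41⟩ (.nil) (.nil)
def t14_4234 : Tr := .node ⟨nat_lit 7, nat_lit 0x1000600060, nat_lit 0x22010, nat_lit 1, nat_lit 4, nat_lit 0x48⟩ (.nil) (.nil)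
def t14_12426 : Tr := .node ⟨nat_lit 8, nat_lit 0x40008000c000c8, nat_lit 0x101130, nat_lit 0, nat_lit 4, nat_lit 0x48⟩ (.nil) (.nil)
def t14_2186 : Tr := .node ⟨nat_lit 7, nat_lit 0x10001000400060, nat_lit 0x1101003, nat_lit 0, nat_lit 4, nat_lit 0x48⟩ (.nil) (.nil)
def t14_10378 : Tr := .node ⟨nat_lit 8, nat_lit 0x800040005000a000a000c0, nat_lit 0x10120002, nat_lit 1, nat_lit 4, nat_lit 0x47⟩ (.nil) (.nil)
def t14_6282 : Tr := .node ⟨nat_lit 6, nat_lit 0x2000100010, nat_lit 0x11031, nat_lit 2, nat_lit 4, nat_lit 0x49⟩ (.nil) (.nil)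
def t14_14474 : Tr := .node ⟨nat_lit 8, nat_lit 0x400080008000c0, nat_lit 0x101102, nat_lit 1, nat_lit 4, nat_lit 0x49⟩ (.nil) (.nil)
def t14_1162 : Tr := .node ⟨nat_lit 6, nat_lit 0x800280030, nat_lit 0x1012, nat_lit 0, nat_lit 4, nat_lit 0x45⟩ (.nil) (.nil)
def t14_9354 : Tr := .node ⟨nat_lit 7, nat_lit 0x40001000600050, nat_lit 0x12112, nat_lit 3, nat_lit 4, nat_lit 0x48⟩ (.nil) (.nil)
def t14_5258 : Tr := .node ⟨nat_lit 9, nat_lit 0x1000100008001100180, nat_lit 0x1120011, nat_lit 1, nat_lit 4, nat_lit 0x4a⟩ (.nil) (.nil)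
def t14_13450 : Tr := .node ⟨nat_lit 6, nat_lit 0x2000080030, nat_lit 0x1300, nat_lit 2, nat_lit 4, nat_lit 0x47⟩ (.nil) (.nil)
def t14_3210 : Tr := .node ⟨nat_lit 7, nat_lit 0x20002000500060, nat_lit 0x21112, nat_lit 0, nat_lit 3, nat_lit 0x46⟩ (.nil) (.nil)
def t14_11402 : Tr := .node ⟨nat_lit 7, nat_lit 0x40001000600060, nat_lit 0x1011120, nat_lit 0, nat_lit 3, nat_lit 0x46⟩ (.nil) (.nil)
def t14_7306 : Tr := .node ⟨nat_lit 7, nat_lit 0x40004000480030, nat_lit 0x201211, nat_lit 1, nat_lit 4, nat_lit 0x48⟩ (.nil) (.nil)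
def t14_15498 : Tr := .node ⟨nat_lit 8, nat_lit 0x80004000a000d000c8, nat_lit 0x1112110, nat_lit 0, nat_lit 4, nat_lit 0x47⟩ (.nil) (.nil)
def t14_650 : Tr := .node ⟨nat_lit 7, nat_lit 0x20002000400060, nat_lit 0x23210, nat_lit 0, nat_lit 4, nat_lit 0x49⟩ (.nil) (.nil)
def t14_8842 : Tr := .node ⟨nat_lit 7, nat_lit 0x200040004000480048, nat_lit 0x1021, nat_lit 9, nat_lit 4, nat_lit 0x48⟩ (.nil) (.nil)
def t14_4746 : Tr := .node ⟨nat_lit 6, nat_lit 0x800200032, nat_lit 0x110021, nat_lit 2, nat_lit 4, nat_lit 0x47⟩ (.nil) (.nil)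
def t14_12938 : Tr := .node ⟨nat_lit 8, nat_lit 0x1000a000c00050, nat_lit 0x100120, nat_lit 1, nat_lit 4, nat_lit 0x47⟩ (.nil) (.nil)
def t14_2698 : Tr := .node ⟨nat_lit 6, nat_lit 0x20002000100010, nat_lit 0x211010, nat_lit 0, nat_lit 3, nat_lit 0x47⟩ (.nil) (.nil)
def t14_10890 : Tr := .node ⟨nat_lit 7, nat_lit 0x20006000500070, nat_lit 0x222, nat_lit 1, nat_lit 4, nat_lit 0x45⟩ (.nil) (.nil)
def t14_6794 : Tr := .node ⟨nat_lit 7, nat_lit 0x800100060, nat_lit 0x11110, nat_lit 1, nat_lit 4, nat_lit 0x48⟩ (.nil) (.nil)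
def t14_14986 : Tr := .node ⟨nat_lit 9, nat_lit 0x100010000800080012001400140, nat_lit 0x110210, nat_lit 0, nat_lit 4, nat_lit 0x47⟩ (.nil) (.nil)
def t14_1674 : Tr := .node ⟨nat_lit 8, nat_lit 0x800020009000a000c0, nat_lit 0x1012020, nat_lit 0, nat_lit 4, nat_lit 0x47⟩ (.nil) (.nil)
def t14_9866 : Tr := .node ⟨nat_lit 8, nat_lit 0x800080009000900088, nat_lit 0x1111110, nat_lit 3, nat_lit 4, nat_lit 0x49⟩ (.nil) (.nil)
def t14_5770 : Tr := .node ⟨nat_lit 9, nat_lit 0x100010001000108, nat_lit 0x11111200, nat_lit 0, nat_lit 4, nat_lit 0x4c⟩ (.nil) (.nil)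
def t14_13962 : Tr := .node ⟨nat_lit 6, nat_lit 0x2000080030, nat_lit 0x200, nat_lit 6, nat_lit 4, nat_lit 0x47⟩ (.nil) (.nil)
def t14_3722 : Tr := .node ⟨nat_lit 8, nat_lit 0x80008000400040004000a0, nat_lit 0x10202100, nat_lit 1, nat_lit 4, nat_lit 0x49⟩ (.nil) (.nil)
def t14_11914 : Tr := .node ⟨nat_lit 4, nat_lit 0x80004, nat_lit 0x1034, nat_lit 4, nat_lit 4, nat_lit 0x47⟩ (.nil) (.nil)
def t14_7818 : Tr := .node ⟨nat_lit 7, nat_lit 0x4000200044, nat_lit 0x111203, nat_lit 0, nat_lit 4, nat_lit 0x49⟩ (.nil) (.nil)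
def t9_138 : Tr := .node ⟨nat_lit 5, nat_lit 0x80010, nat_lit 0x32111, nat_lit 0, nat_lit 4, nat_lit 0x49⟩ (.node ⟨nat_lit 5, nat_lit 0x80010, nat_lit 0x10301, nat_lit 1, nat_lit 4, nat_lit 0x47⟩ (.node ⟨nat_lit 6, nat_lit 0x1000200030, nat_lit 0x103211, nat_lit 0, nat_lit 4, nat_lit 0x48⟩ (.node ⟨nat_lit 7, nat_lit 0x40004000100060, nat_lit 0x112021, nat_lit 0, nat_lit 4, nat_lit 0x48⟩ (.node ⟨nat_lit 7, nat_lit 0x40004000100060, nat_lit 0x22220, nat_lit 1, nat_lit 4, nat_lit 0x49⟩ (t14_138) (t14_8330)) (.node ⟨nat_lit 5, nat_lit 0x100010001c, nat_lit 0x2213, nat_lit 5, nat_lit 4, nat_lit 0x47⟩ (t14_4234) (t14_12426))) (.node ⟨nat_lit 7, nat_lit 0x100060, nat_lit 0x2101102, nat_lit 4, nat_lit 4, nat_lit 0x4b⟩ (.node ⟨nat_lit 6, nat_lit 0x2000080030, nat_lit 0x1220, nat_lit 2, nat_lit 4, nat_lit 0x47⟩ (t14_2186) (t14_10378)) (.node ⟨nat_lit 7,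 nat_lit 0x400020, nat_lit 0x1121110, nat_lit 5, nat_lit 4, nat_lit 0x4c⟩ (t14_6282) (t14_14474)))) (.node ⟨nat_lit 6, nat_lit 0x200022, nat_lit 0x22110, nat_lit 2, nat_lit 4, nat_lit 0x49⟩ (.node ⟨nat_lit 7, nat_lit 0x100060, nat_lit 0x2201101, nat_lit 1, nat_lit 4, nat_lit 0x4b⟩ (.node ⟨nat_lit 4, nat_lit 0x80004, nat_lit 0x402, nat_lit 1, nat_lit 3, nat_lit 0x47⟩ (t14_1162) (t14_9354)) (.node ⟨nat_lit 7, nat_lit 0x3000500060, nat_lit 0x1111212, nat_lit 0, nat_lit 4, nat_lit 0x48⟩ (t14_5258) (t14_13450))) (.node ⟨nat_lit 6, nat_lit 0x100020, nat_lit 0x102200, nat_lit 0, nat_lit 4, nat_lit 0x49⟩ (.node ⟨nat_lit 7, nat_lit 0x20004000600070, nat_lit 0x1001203, nat_lit 1, nat_lit 4, nat_lit 0x47⟩ (t14_3210) (t14_11402)) (.node ⟨nat_lit 6, nat_lit 0x300028, nat_lit 0x100110, nat_lit 3, nat_lit 4, nat_lit 0x47⟩ (t14_7306) (t14_15498))))) (.node ⟨nat_lit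 4, nat_lit 0x80004, nat_lit 0x1302, nat_lit 9, nat_lit 4, nat_lit 0x49⟩ (.node ⟨nat_lit 4, nat_lit 0x80004, nat_lit 0x223, nat_lit 4, nat_lit 4, nat_lit 0x47⟩ (.node ⟨nat_lit 5, nat_lit 0x80010, nat_lit 0x12000, nat_lit 0, nat_lit 4, nat_lit 0x46⟩ (.node ⟨nat_lit 5, nat_lit 0x18, nat_lit 0x10411, nat_lit 0, nat_lit 4, nat_lit 0x48⟩ (t14_650) (t14_8842)) (.node ⟨nat_lit 7, nat_lit 0x20003000500068, nat_lit 0x102031, nat_lit 0, nat_lit 4, nat_lit 0x46⟩ (t14_4746) (t14_12938))) (.node ⟨nat_lit 5, nat_lit 0x40018, nat_lit 0x11003, nat_lit 2, nat_lit 4, nat_lit 0x46⟩ (.node ⟨nat_lit 6, nat_lit 0x20002000100038, nat_lit 0x12030, nat_lit 3, nat_lit 4, nat_lit 0x47⟩ (t14_2698) (t14_10890)) (.node ⟨nat_lit 8, nat_lit 0x8000800020009000c0, nat_lit 0x111200, nat_lit 0, nat_lit 4, nat_lit 0x48⟩ (t14_6794) (t14_14986)))) (.node ⟨nat_lit 7, nat_lit 0x400020,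 nat_lit 0x211101, nat_lit 1, nat_lit 4, nat_lit 0x4b⟩ (.node ⟨nat_lit 7, nat_lit 0x800100060, nat_lit 0x2011101, nat_lit 1, nat_lit 4, nat_lit 0x49⟩ (.node ⟨nat_lit 6, nat_lit 0x800300038, nat_lit 0x101213, nat_lit 1, nat_lit 4, nat_lit 0x46⟩ (t14_1674) (t14_9866)) (.node ⟨nat_lit 8, nat_lit 0x800040002000a000c8, nat_lit 0x2002021, nat_lit 0, nat_lit 4, nat_lit 0x48⟩ (t14_5770) (t14_13962))) (.node ⟨nat_lit 6, nat_lit 0x3000300028, nat_lit 0x2212, nat_lit 2, nat_lit 4, nat_lit 0x46⟩ (.node ⟨nat_lit 7, nat_lit 0x40001000600070, nat_lit 0x112003, nat_lit 0, nat_lit 4, nat_lit 0x47⟩ (t14_3722) (t14_11914)) (.node ⟨nat_lit 6, nat_lit 0x20001000100030, nat_lit 0x10212, nat_lit 3, nat_lit 3, nat_lit 0x46⟩ (t14_7818) (.nil)))))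
def t14_394 : Tr := .node ⟨nat_lit 7, nat_lit 0x40004000200068, nat_lit 0x112111, nat_lit 1, nat_lit 4, nat_lit 0x48⟩ (.nil) (.nil)
def t14_8586 : Tr := .node ⟨nat_lit 6, nat_lit 0x20001000100028, nat_lit 0x2002, nat_lit 2, nat_lit 4, nat_lit 0x46⟩ (.nil) (.nil)
def t14_4490 : Tr := .node ⟨nat_lit 0xa, nat_lit 0x20002000100008002100220, nat_lit 0x1011110010, nat_lit 0, nat_lit 4, nat_lit 0x4b⟩ (.nil) (.nil)
def t14_12682 : Tr := .node ⟨nat_lit 5, nat_lit 0x80010001a, nat_lit 0x11200, nat_lit 7, nat_lit 4, nat_lit 0x47⟩ (.nil) (.nil)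
def t14_2442 : Tr := .node ⟨nat_lit 6, nat_lit 0x2000100038, nat_lit 0x11130, nat_lit 0, nat_lit 4, nat_lit 0x47⟩ (.nil) (.nil)
def t14_10634 : Tr := .node ⟨nat_lit 6, nat_lit 0x1000280030, nat_lit 0x1102, nat_lit 3, nat_lit 4, nat_lit 0x46⟩ (.nil) (.nil)
def t14_6538 : Tr := .node ⟨nat_lit 6, nat_lit 0x80030, nat_lit 0x101121, nat_lit 4, nat_lit 4, nat_lit 0x49⟩ (.nil) (.nil)
def t14_14730 : Tr := .node ⟨nat_lit 7, nat_lit 0x40002000200010, nat_lit 0x10111, nat_lit 2, nat_lit 4, nat_lit 0x48⟩ (.nil) (.nil)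
def t14_1418 : Tr := .node ⟨nat_lit 6, nat_lit 0x800300030, nat_lit 0x1140, nat_lit 0, nat_lit 4, nat_lit 0x46⟩ (.nil) (.nil)
def t14_9610 : Tr := .node ⟨nat_lit 7, nat_lit 0x40004800300068, nat_lit 0x1020, nat_lit 1, nat_lit 4, nat_lit 0x45⟩ (.nil) (.nil)
def t14_5514 : Tr := .node ⟨nat_lit 7, nat_lit 0x500060, nat_lit 0x1131, nat_lit 1, nat_lit 4, nat_lit 0x48⟩ (.nil) (.nil)
def t14_13706 : Tr := .node ⟨nat_lit 8, nat_lit 0x200080001000c0, nat_lit 0x200, nat_lit 5, nat_lit 4, nat_lit 0x49⟩ (.nil) (.nil)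
def t14_3466 : Tr := .node ⟨nat_lit 7, nat_lit 0x10004000500060, nat_lit 0x100310, nat_lit 0, nat_lit 4, nat_lit 0x47⟩ (.nil) (.nil)
def t14_11658 : Tr := .node ⟨nat_lit 7, nat_lit 0x40001000600060, nat_lit 0x13010, nat_lit 0, nat_lit 4, nat_lit 0x47⟩ (.nil) (.nil)
def t14_7562 : Tr := .node ⟨nat_lit 6, nat_lit 0x2000100030, nat_lit 0x224, nat_lit 0, nat_lit 4, nat_lit 0x47⟩ (.nil) (.nil)
def t14_906 : Tr := .node ⟨nat_lit 6, nat_lit 0x20001000280030, nat_lit 0x12122, nat_lit 4, nat_lit 4, nat_lit 0x47⟩ (.nil) (.nil)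
def t14_9098 : Tr := .node ⟨nat_lit 9, nat_lit 0x1000100010801100180, nat_lit 0x11111011, nat_lit 1, nat_lit 4, nat_lit 0x4a⟩ (.nil) (.nil)
def t14_5002 : Tr := .node ⟨nat_lit 8, nat_lit 0x8000c000a0, nat_lit 0x111301, nat_lit 0, nat_lit 4, nat_lit 0x4a⟩ (.nil) (.nil)
def t14_13194 : Tr := .node ⟨nat_lit 5, nat_lit 0x1000080008, nat_lit 0x130, nat_lit 2, nat_lit 3, nat_lit 0x45⟩ (.nil) (.nil)
def t14_2954 : Tr := .node ⟨nat_lit 5, nat_lit 0x1000080014, nat_lit 0x1202, nat_lit 8, nat_lit 4, nat_lit 0x47⟩ (.nil) (.nil)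
def t14_11146 : Tr := .node ⟨nat_lit 8, nat_lit 0x20001000c000c0, nat_lit 0x10000030, nat_lit 1, nat_lit 4, nat_lit 0x48⟩ (.nil) (.nil)
def t14_7050 : Tr := .node ⟨nat_lit 5, nat_lit 0x180018, nat_lit 0x10111, nat_lit 9, nat_lit 4, nat_lit 0x47⟩ (.nil) (.nil)
def t14_15242 : Tr := .node ⟨nat_lit 8, nat_lit 0x8000800020002000c0, nat_lit 0x1020101, nat_lit 4, nat_lit 4, nat_lit 0x49⟩ (.nil) (.nil)
def t14_1930 : Tr := .node ⟨nat_lit 8, nat_lit 0xa00060003000c0, nat_lit 0x21121, nat_lit 0, nat_lit 4, nat_lit 0x47⟩ (.nil) (.nil)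
def t14_10122 : Tr := .node ⟨nat_lit 8, nat_lit 0x4000800080008000d000d0, nat_lit 0x201020, nat_lit 4, nat_lit 4, nat_lit 0x47⟩ (.nil) (.nil)
def t14_6026 : Tr := .node ⟨nat_lit 5, nat_lit 0x100018, nat_lit 0x11210, nat_lit 5, nat_lit 4, nat_lit 0x48⟩ (.nil) (.nil)
def t14_14218 : Tr := .node ⟨nat_lit 8, nat_lit 0x40003000a000c0, nat_lit 0x10201, nat_lit 1, nat_lit 4, nat_lit 0x47⟩ (.nil) (.nil)
def t14_3978 : Tr := .node ⟨nat_lit 6, nat_lit 0x800080030, nat_lit 0x100200, nat_lit 3, nat_lit 4, nat_lit 0x47⟩ (.nil) (.nil)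
def t14_12170 : Tr := .node ⟨nat_lit 7, nat_lit 0x4000600050, nat_lit 0x11210, nat_lit 2, nat_lit 4, nat_lit 0x48⟩ (.nil) (.nil)
def t14_8074 : Tr := .node ⟨nat_lit 5, nat_lit 0x1000100014, nat_lit 0x1114, nat_lit 4, nat_lit 4, nat_lit 0x47⟩ (.nil) (.nil)
def t9_394 : Tr := .node ⟨nat_lit 4, nat_lit 0xc, nat_lit 0x2231, nat_lit 5, nat_lit 4, nat_lit 0x49⟩ (.node ⟨nat_lit 6, nat_lit 0x200030, nat_lit 0x32210, nat_lit 1, nat_lit 4, nat_lit 0x4a⟩ (.node ⟨nat_lit 5, nat_lit 0x40018, nat_lit 0x20212, nat_lit 1, nat_lit 4, nat_lit 0x47⟩ (.node ⟨nat_lit 6, nat_lit 0x30000c, nat_lit 0x101021, nat_lit 0, nat_lit 4, nat_lit 0x46⟩ (.node ⟨nat_lit 5, nat_lit 0x1000100008, nat_lit 0x2311, nat_lit 2, nat_lit 3, nat_lit 0x46⟩ (t14_394) (t14_8586)) (.node ⟨nat_lit 8, nat_lit 0x4000800080009000600098, nat_lit 0x11020201, nat_lit 0, nat_lit 4, nat_lit 0x48⟩ (t14_4490)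 (t14_12682))) (.node ⟨nat_lit 5, nat_lit 0x40018, nat_lit 0x20211, nat_lit 4, nat_lit 4, nat_lit 0x48⟩ (.node ⟨nat_lit 6, nat_lit 0x2000100030, nat_lit 0x112114, nat_lit 1, nat_lit 4, nat_lit 0x49⟩ (t14_2442) (t14_10634)) (.node ⟨nat_lit 5, nat_lit 0x1000100014, nat_lit 0x2101, nat_lit 3, nat_lit 4, nat_lit 0x46⟩ (t14_6538) (t14_14730)))) (.node ⟨nat_lit 4, nat_lit 0xe, nat_lit 0x2102, nat_lit 3, nat_lit 4, nat_lit 0x45⟩ (.node ⟨nat_lit 6, nat_lit 0x800300030, nat_lit 0x112231, nat_lit 0, nat_lit 4, nat_lit 0x48⟩ (.node ⟨nat_lit 5, nat_lit 0x18, nat_lit 0x11110, nat_lit 1, nat_lit 4, nat_lit 0x47⟩ (t14_1418) (t14_9610)) (.node ⟨nat_lit 7, nat_lit 0x20002000400040, nat_lit 0x1122111, nat_lit 0, nat_lit 4, nat_lit 0x4a⟩ (t14_5514) (t14_13706))) (.node ⟨nat_lit 6, nat_lit 0x2000300030, nat_lit 0x2310, nat_lit 1, nat_lit 4, nat_lit 0x47⟩ (.node ⟨nat_lit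 6, nat_lit 0x300038, nat_lit 0x2101, nat_lit 0, nat_lit 4, nat_lit 0x46⟩ (t14_3466) (t14_11658)) (.node ⟨nat_lit 4, nat_lit 0x8000c, nat_lit 0x1121, nat_lit 0xd, nat_lit 4, nat_lit 0x48⟩ (t14_7562) (.nil))))) (.node ⟨nat_lit 7, nat_lit 0x1000600060, nat_lit 0x1013111, nat_lit 1, nat_lit 4, nat_lit 0x49⟩ (.node ⟨nat_lit 5, nat_lit 0x18, nat_lit 0x20202, nat_lit 0, nat_lit 4, nat_lit 0x47⟩ (.node ⟨nat_lit 5, nat_lit 0x18, nat_lit 0x11112, nat_lit 3, nat_lit 4, nat_lit 0x48⟩ (.node ⟨nat_lit 7, nat_lit 0x100060, nat_lit 0x1113102, nat_lit 0, nat_lit 4, nat_lit 0x4b⟩ (t14_906) (t14_9098)) (.node ⟨nat_lit 4, nat_lit 8, nat_lit 0x1220, nat_lit 0xd, nat_lit 4, nat_lit 0x4a⟩ (t14_5002) (t14_13194))) (.node ⟨nat_lit 7, nat_lit 0x40002000680070, nat_lit 0x1011002, nat_lit 0, nat_lit 4, nat_lit 0x46⟩ (.node ⟨nat_lit 6, nat_lit 0x2000100024, nat_lit 0x111210,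 nat_lit 5, nat_lit 4, nat_lit 0x49⟩ (t14_2954) (t14_11146)) (.node ⟨nat_lit 7, nat_lit 0x800500060, nat_lit 0x1111022, nat_lit 2, nat_lit 4, nat_lit 0x49⟩ (t14_7050) (t14_15242)))) (.node ⟨nat_lit 4, nat_lit 0xc, nat_lit 0x1021, nat_lit 0xb, nat_lit 4, nat_lit 0x48⟩ (.node ⟨nat_lit 6, nat_lit 0x1000280034, nat_lit 0x122111, nat_lit 1, nat_lit 4, nat_lit 0x48⟩ (.node ⟨nat_lit 7, nat_lit 0x1000500060, nat_lit 0x1011141, nat_lit 0, nat_lit 4, nat_lit 0x49⟩ (t14_1930) (t14_10122)) (.node ⟨nat_lit 6, nat_lit 0x2000300030, nat_lit 0x2020, nat_lit 1, nat_lit 3, nat_lit 0x45⟩ (t14_6026) (t14_14218))) (.node ⟨nat_lit 7, nat_lit 0x40002000200020, nat_lit 0x10210, nat_lit 4, nat_lit 4, nat_lit 0x49⟩ (.node ⟨nat_lit 7, nat_lit 0x20001000400060, nat_lit 0x10100, nat_lit 2, nat_lit 4, nat_lit 0x47⟩ (t14_3978) (t14_12170)) (.node ⟨nat_lit 9, nat_lit 0x800080010000c0011001c00190,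 nat_lit 0x101011011, nat_lit 1, nat_lit 4, nat_lit 0x47⟩ (t14_8074) (.nil)))))
def t14_74 : Tr := .node ⟨nat_lit 7, nat_lit 0x2000400060, nat_lit 0x121111, nat_lit 3, nat_lit 4, nat_lit 0x4a⟩ (.nil) (.nil)
def t14_8266 : Tr := .node ⟨nat_lit 7, nat_lit 0x40002000500068, nat_lit 0x2003, nat_lit 2, nat_lit 4, nat_lit 0x46⟩ (.nil) (.nil)
def t14_4170 : Tr := .node ⟨nat_lit 9, nat_lit 0x1000100004001100180, nat_lit 0x11111011, nat_lit 0, nat_lit 4, nat_lit 0x4a⟩ (.nil) (.nil)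
def t14_12362 : Tr := .node ⟨nat_lit 9, nat_lit 0x4001000100008001100180, nat_lit 0x21100, nat_lit 3, nat_lit 4, nat_lit 0x49⟩ (.nil) (.nil)
def t14_2122 : Tr := .node ⟨nat_lit 7, nat_lit 0x4000600050, nat_lit 0x21202, nat_lit 2, nat_lit 4, nat_lit 0x49⟩ (.nil) (.nil)
def t14_10314 : Tr := .node ⟨nat_lit 6, nat_lit 0x800080030, nat_lit 0x101002, nat_lit 2, nat_lit 4, nat_lit 0x47⟩ (.nil) (.nil)
def t14_6218 : Tr := .node ⟨nat_lit 6, nat_lit 0x1000200032, nat_lit 0x101001, nat_lit 5, nat_lit 4, nat_lit 0x47⟩ (.nil) (.nil)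
def t14_14410 : Tr := .node ⟨nat_lit 7, nat_lit 0x20005000300060, nat_lit 0x102, nat_lit 0, nat_lit 4, nat_lit 0x45⟩ (.nil) (.nil)
def t14_1098 : Tr := .node ⟨nat_lit 6, nat_lit 0x800200032, nat_lit 0x11021, nat_lit 3, nat_lit 4, nat_lit 0x47⟩ (.nil) (.nil)
def t14_9290 : Tr := .node ⟨nat_lit 8, nat_lit 0x4000800060009000c000d0, nat_lit 0x111021, nat_lit 2, nat_lit 4, nat_lit 0x46⟩ (.nil) (.nil)
def t14_5194 : Tr := .node ⟨nat_lit 6, nat_lit 0x100020, nat_lit 0x211101, nat_lit 5, nat_lit 3, nat_lit 0x49⟩ (.nil) (.nil)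
def t14_13386 : Tr := .node ⟨nat_lit 7, nat_lit 0x40004800300070, nat_lit 0x2003, nat_lit 0, nat_lit 4, nat_lit 0x45⟩ (.nil) (.nil)
def t14_3146 : Tr := .node ⟨nat_lit 7, nat_lit 0x4000600018, nat_lit 0x1010001, nat_lit 0, nat_lit 4, nat_lit 0x47⟩ (.nil) (.nil)
def t14_11338 : Tr := .node ⟨nat_lit 6, nat_lit 0x2000300030, nat_lit 0x11120, nat_lit 2, nat_lit 4, nat_lit 0x47⟩ (.nil) (.nil)
def t14_7242 : Tr := .node ⟨nat_lit 7, nat_lit 0x40001000500060, nat_lit 0x210113, nat_lit 0, nat_lit 4, nat_lit 0x48⟩ (.nil) (.nil)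
def t14_15434 : Tr := .node ⟨nat_lit 0xb, nat_lit 0x4002000100008000800400, nat_lit 0x10001100101, nat_lit 0, nat_lit 4, nat_lit 0x4c⟩ (.nil) (.nil)
def t14_586 : Tr := .node ⟨nat_lit 6, nat_lit 0x300028, nat_lit 0x222, nat_lit 3, nat_lit 4, nat_lit 0x47⟩ (.nil) (.nil)
def t14_8778 : Tr := .node ⟨nat_lit 8, nat_lit 0x800080004000900090, nat_lit 0x1110031, nat_lit 2, nat_lit 4, nat_lit 0x49⟩ (.nil) (.nil)
def t14_4682 : Tr := .node ⟨nat_lit 8, nat_lit 0x80002000c0, nat_lit 0x1110002, nat_lit 0, nat_lit 4, nat_lit 0x4a⟩ (.nil) (.nil)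
def t14_12874 : Tr := .node ⟨nat_lit 6, nat_lit 0x280030, nat_lit 0x20100, nat_lit 2, nat_lit 4, nat_lit 0x47⟩ (.nil) (.nil)
def t14_2634 : Tr := .node ⟨nat_lit 4, nat_lit 0x80004, nat_lit 0x23, nat_lit 1, nat_lit 3, nat_lit 0x44⟩ (.nil) (.nil)
def t14_10826 : Tr := .node ⟨nat_lit 8, nat_lit 0x200040008000c000c8, nat_lit 0x1001022, nat_lit 3, nat_lit 4, nat_lit 0x48⟩ (.nil) (.nil)
def t14_6730 : Tr := .node ⟨nat_lit 7, nat_lit 0x40005000580068, nat_lit 0x1101101, nat_lit 1, nat_lit 4, nat_lit 0x46⟩ (.nil) (.nil)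
def t14_14922 : Tr := .node ⟨nat_lit 6, nat_lit 0x20002800280038, nat_lit 0x101221, nat_lit 5, nat_lit 4, nat_lit 0x47⟩ (.nil) (.nil)
def t14_1610 : Tr := .node ⟨nat_lit 6, nat_lit 0x800300038, nat_lit 0x110212, nat_lit 1, nat_lit 4, nat_lit 0x46⟩ (.nil) (.nil)
def t14_9802 : Tr := .node ⟨nat_lit 8, nat_lit 0x80002000c000c0, nat_lit 0x11020, nat_lit 0, nat_lit 4, nat_lit 0x48⟩ (.nil) (.nil)
def t14_5706 : Tr := .node ⟨nat_lit 8, nat_lit 0x800020002000c0, nat_lit 0x1012002, nat_lit 1, nat_lit 4, nat_lit 0x49⟩ (.nil) (.nil)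
def t14_13898 : Tr := .node ⟨nat_lit 7, nat_lit 0x40002000500068, nat_lit 0x3002, nat_lit 3, nat_lit 4, nat_lit 0x47⟩ (.nil) (.nil)
def t14_3658 : Tr := .node ⟨nat_lit 7, nat_lit 0x40001000500060, nat_lit 0x200021, nat_lit 1, nat_lit 4, nat_lit 0x47⟩ (.nil) (.nil)
def t14_11850 : Tr := .node ⟨nat_lit 7, nat_lit 0x4000500060, nat_lit 0x1013, nat_lit 1, nat_lit 4, nat_lit 0x47⟩ (.nil) (.nil)
def t14_7754 : Tr := .node ⟨nat_lit 6, nat_lit 0x2000240030, nat_lit 0x11302, nat_lit 3, nat_lit 4, nat_lit 0x48⟩ (.nil) (.nil)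
def t9_74 : Tr := .node ⟨nat_lit 3, nat_lit 4, nat_lit 0x110, nat_lit 5, nat_lit 3, nat_lit 0x44⟩ (.node ⟨nat_lit 6, nat_lit 0x200022, nat_lit 0x131122, nat_lit 1, nat_lit 4, nat_lit 0x4a⟩ (.node ⟨nat_lit 7, nat_lit 0x6000600060, nat_lit 0x31220, nat_lit 0, nat_lit 4, nat_lit 0x48⟩ (.node ⟨nat_lit 7, nat_lit 0x4000440060, nat_lit 0x1021001, nat_lit 3, nat_lit 4, nat_lit 0x49⟩ (.node ⟨nat_lit 7, nat_lit 0x40004000400020, nat_lit 0x212003, nat_lit 1, nat_lit 4, nat_lit 0x4a⟩ (t14_74) (t14_8266)) (.node ⟨nat_lit 7, nat_lit 0x1000600070, nat_lit 0x1012003, nat_lit 0, nat_lit 4, nat_lit 0x48⟩ (t14_4170) (t14_12362))) (.node ⟨nat_lit 5, nat_lit 0x100018, nat_lit 0x21122, nat_lit 4, nat_lit 4, nat_lit 0x49⟩ (.node ⟨nat_lit 5, nat_lit 0x800100018, nat_lit 0x10410, nat_lit 1, nat_lit 3, nat_lit 0x45⟩ (t14_2122) (t14_10314)) (.node ⟨nat_lit 8, nat_lit 0x8000400040004000a000d0,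 nat_lit 0x10221100, nat_lit 0, nat_lit 4, nat_lit 0x48⟩ (t14_6218) (t14_14410)))) (.node ⟨nat_lit 3, nat_lit 0, nat_lit 0x222, nat_lit 6, nat_lit 3, nat_lit 0x47⟩ (.node ⟨nat_lit 7, nat_lit 0x10002000500060, nat_lit 0x2012111, nat_lit 0, nat_lit 4, nat_lit 0x48⟩ (.node ⟨nat_lit 7, nat_lit 0x10005000500060, nat_lit 0x101113, nat_lit 0, nat_lit 4, nat_lit 0x46⟩ (t14_1098) (t14_9290)) (.node ⟨nat_lit 7, nat_lit 0x6000600070, nat_lit 0x1011213, nat_lit 0, nat_lit 4, nat_lit 0x47⟩ (t14_5194) (t14_13386))) (.node ⟨nat_lit 7, nat_lit 0x400060, nat_lit 0x1021101, nat_lit 0, nat_lit 4, nat_lit 0x4a⟩ (.node ⟨nat_lit 4, nat_lit 0xc, nat_lit 0x1030, nat_lit 6, nat_lit 4, nat_lit 0x47⟩ (t14_3146) (t14_11338)) (.node ⟨nat_lit 7, nat_lit 0x20004000100044, nat_lit 0x1000102, nat_lit 5, nat_lit 4, nat_lit 0x48⟩ (t14_7242) (t14_15434))))) (.node ⟨nat_lit 3, nat_lit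 4, nat_lit 0x323, nat_lit 6, nat_lit 4, nat_lit 0x49⟩ (.node ⟨nat_lit 2, nat_lit 2, nat_lit 0x22, nat_lit 9, nat_lit 4, nat_lit 0x45⟩ (.node ⟨nat_lit 7, nat_lit 0x40002000200020, nat_lit 0x20211, nat_lit 0, nat_lit 4, nat_lit 0x49⟩ (.node ⟨nat_lit 4, nat_lit 8, nat_lit 0x2110, nat_lit 0xf, nat_lit 4, nat_lit 0x4a⟩ (t14_586) (t14_8778)) (.node ⟨nat_lit 7, nat_lit 0x2000400040, nat_lit 0x1111011, nat_lit 0, nat_lit 4, nat_lit 0x4a⟩ (t14_4682) (t14_12874))) (.node ⟨nat_lit 5, nat_lit 0x18, nat_lit 0x10100, nat_lit 0, nat_lit 4, nat_lit 0x45⟩ (.node ⟨nat_lit 6, nat_lit 0x800200030, nat_lit 0x120024, nat_lit 1, nat_lit 4, nat_lit 0x49⟩ (t14_2634) (t14_10826)) (.node ⟨nat_lit 8, nat_lit 0x400080008000880084, nat_lit 0x10102110, nat_lit 3, nat_lit 4, nat_lit 0x4a⟩ (t14_6730) (t14_14922)))) (.node ⟨nat_lit 7, nat_lit 0x4000100060, nat_lit 0x211002, nat_lit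 1, nat_lit 4, nat_lit 0x49⟩ (.node ⟨nat_lit 5, nat_lit 0x140018, nat_lit 0x2311, nat_lit 5, nat_lit 4, nat_lit 0x48⟩ (.node ⟨nat_lit 6, nat_lit 0x80030, nat_lit 0x101101, nat_lit 0, nat_lit 4, nat_lit 0x47⟩ (t14_1610) (t14_9802)) (.node ⟨nat_lit 6, nat_lit 0x300030, nat_lit 0x102211, nat_lit 5, nat_lit 4, nat_lit 0x49⟩ (t14_5706) (t14_13898))) (.node ⟨nat_lit 6, nat_lit 0x80030, nat_lit 0x202102, nat_lit 2, nat_lit 4, nat_lit 0x49⟩ (.node ⟨nat_lit 6, nat_lit 0x800280030, nat_lit 0x10001, nat_lit 1, nat_lit 4, nat_lit 0x45⟩ (t14_3658) (t14_11850)) (.node ⟨nat_lit 6, nat_lit 0x2000200034, nat_lit 0x111001, nat_lit 2, nat_lit 4, nat_lit 0x47⟩ (t14_7754) (.nil)))))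
def t14_330 : Tr := .node ⟨nat_lit 7, nat_lit 0x600060, nat_lit 0x1021111, nat_lit 3, nat_lit 4, nat_lit 0x4a⟩ (.nil) (.nil)
def t14_8522 : Tr := .node ⟨nat_lit 7, nat_lit 0x40004000200048, nat_lit 0x122103, nat_lit 0, nat_lit 4, nat_lit 0x49⟩ (.nil) (.nil)
def t14_4426 : Tr := .node ⟨nat_lit 9, nat_lit 0x80002000400100, nat_lit 0x111110011, nat_lit 0, nat_lit 4, nat_lit 0x4c⟩ (.nil) (.nil)
def t14_12618 : Tr := .node ⟨nat_lit 7, nat_lit 0x40004800300060, nat_lit 0x102103, nat_lit 0, nat_lit 4, nat_lit 0x47⟩ (.nil) (.nil)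
def t14_2378 : Tr := .node ⟨nat_lit 7, nat_lit 0x400050006000600070, nat_lit 0x21102, nat_lit 1, nat_lit 4, nat_lit 0x46⟩ (.nil) (.nil)
def t14_10570 : Tr := .node ⟨nat_lit 7, nat_lit 0x10003000500060, nat_lit 0x1020, nat_lit 4, nat_lit 4, nat_lit 0x46⟩ (.nil) (.nil)
def t14_6474 : Tr := .node ⟨nat_lit 5, nat_lit 0x40018, nat_lit 0x11111, nat_lit 7, nat_lit 4, nat_lit 0x48⟩ (.nil) (.nil)
def t14_14666 : Tr := .node ⟨nat_lit 7, nat_lit 0x40001000600060, nat_lit 0x112111, nat_lit 1, nat_lit 3, nat_lit 0x46⟩ (.nil) (.nil)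
def t14_1354 : Tr := .node ⟨nat_lit 7, nat_lit 0x200040003000480068, nat_lit 0x1031010, nat_lit 0, nat_lit 4, nat_lit 0x46⟩ (.nil) (.nil)
def t14_9546 : Tr := .node ⟨nat_lit 9, nat_lit 0x100010001000080012001200140, nat_lit 0x11101101, nat_lit 2, nat_lit 4, nat_lit 0x49⟩ (.nil) (.nil)
def t14_5450 : Tr := .node ⟨nat_lit 8, nat_lit 0x200040008000c4, nat_lit 0x1010031, nat_lit 1, nat_lit 4, nat_lit 0x49⟩ (.nil) (.nil)
def t14_13642 : Tr := .node ⟨nat_lit 8, nat_lit 0x20008000c00030, nat_lit 0x112, nat_lit 0, nat_lit 4, nat_lit 0x47⟩ (.nil) (.nil)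
def t14_3402 : Tr := .node ⟨nat_lit 7, nat_lit 0x5000300060, nat_lit 0x2110, nat_lit 0, nat_lit 4, nat_lit 0x46⟩ (.nil) (.nil)
def t14_11594 : Tr := .node ⟨nat_lit 7, nat_lit 0x6000600070, nat_lit 0x11103, nat_lit 2, nat_lit 4, nat_lit 0x47⟩ (.nil) (.nil)
def t14_7498 : Tr := .node ⟨nat_lit 7, nat_lit 0x4000200020, nat_lit 0x111011, nat_lit 7, nat_lit 4, nat_lit 0x4b⟩ (.nil) (.nil)
def t14_842 : Tr := .node ⟨nat_lit 5, nat_lit 0x100008001c, nat_lit 0x1212, nat_lit 7, nat_lit 4, nat_lit 0x46⟩ (.nil) (.nil)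
def t14_9034 : Tr := .node ⟨nat_lit 9, nat_lit 0x100010001000080008001200140, nat_lit 0x1211010, nat_lit 0, nat_lit 4, nat_lit 0x49⟩ (.nil) (.nil)
def t14_4938 : Tr := .node ⟨nat_lit 7, nat_lit 0x40001000600070, nat_lit 0x100013, nat_lit 5, nat_lit 4, nat_lit 0x47⟩ (.nil) (.nil)
def t14_13130 : Tr := .node ⟨nat_lit 6, nat_lit 0x2000100030, nat_lit 0x201030, nat_lit 2, nat_lit 3, nat_lit 0x47⟩ (.nil) (.nil)
def t14_2890 : Tr := .node ⟨nat_lit 8, nat_lit 0x40004000800080008800c8, nat_lit 0x20210110, nat_lit 0, nat_lit 4, nat_lit 0x48⟩ (.nil) (.nil)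
def t14_11082 : Tr := .node ⟨nat_lit 8, nat_lit 0x40008000200084, nat_lit 0x10102, nat_lit 1, nat_lit 4, nat_lit 0x48⟩ (.nil) (.nil)
def t14_6986 : Tr := .node ⟨nat_lit 6, nat_lit 0x2000080030, nat_lit 0x121111, nat_lit 4, nat_lit 4, nat_lit 0x49⟩ (.nil) (.nil)
def t14_15178 : Tr := .node ⟨nat_lit 7, nat_lit 0x40001000600050, nat_lit 0x110121, nat_lit 1, nat_lit 3, nat_lit 0x46⟩ (.nil) (.nil)
def t14_1866 : Tr := .node ⟨nat_lit 5, nat_lit 0x40018, nat_lit 0x20010, nat_lit 4, nat_lit 4, nat_lit 0x46⟩ (.nil) (.nil)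
def t14_10058 : Tr := .node ⟨nat_lit 7, nat_lit 0x40006000600060, nat_lit 0x12210, nat_lit 0, nat_lit 3, nat_lit 0x45⟩ (.nil) (.nil)
def t14_5962 : Tr := .node ⟨nat_lit 8, nat_lit 0x800040004000d000c8, nat_lit 0x10112110, nat_lit 0, nat_lit 4, nat_lit 0x48⟩ (.nil) (.nil)
def t14_14154 : Tr := .node ⟨nat_lit 5, nat_lit 0x1000080008, nat_lit 0x20021, nat_lit 4, nat_lit 3, nat_lit 0x46⟩ (.nil) (.nil)
def t14_3914 : Tr := .node ⟨nat_lit 7, nat_lit 0x10005000600060, nat_lit 0x110130, nat_lit 0, nat_lit 3, nat_lit 0x45⟩ (.nil) (.nil)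
def t14_12106 : Tr := .node ⟨nat_lit 6, nat_lit 0x1000280030, nat_lit 0x110100, nat_lit 1, nat_lit 4, nat_lit 0x46⟩ (.nil) (.nil)
def t14_8010 : Tr := .node ⟨nat_lit 6, nat_lit 0x20001000100028, nat_lit 0x11104, nat_lit 0, nat_lit 4, nat_lit 0x46⟩ (.nil) (.nil)
def t9_330 : Tr := .node ⟨nat_lit 4, nat_lit 0, nat_lit 0x3111, nat_lit 5, nat_lit 4, nat_lit 0x49⟩ (.node ⟨nat_lit 6, nat_lit 0x200038, nat_lit 0x31212, nat_lit 0, nat_lit 4, nat_lit 0x49⟩ (.node ⟨nat_lit 5, nat_lit 0x10, nat_lit 0x21113, nat_lit 3, nat_lit 4, nat_lit 0x4a⟩ (.node ⟨nat_lit 5, nat_lit 0x40018, nat_lit 0x10112, nat_lit 0, nat_lit 4, nat_lit 0x45⟩ (.node ⟨nat_lit 6, nat_lit 0x2000100008, nat_lit 0x112011, nat_lit 7, nat_lit 4, nat_lit 0x4a⟩ (t14_330) (t14_8522)) (.node ⟨nat_lit 7, nat_lit 0x20002000400040, nat_lit 0x1011000, nat_lit 1, nat_lit 4, nat_lit 0x48⟩ (t14_4426) (t14_12618)))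 (.node ⟨nat_lit 5, nat_lit 0x1000080008, nat_lit 0x10, nat_lit 2, nat_lit 3, nat_lit 0x44⟩ (.node ⟨nat_lit 8, nat_lit 0x40004000800060008800c0, nat_lit 0x10102013, nat_lit 1, nat_lit 4, nat_lit 0x48⟩ (t14_2378) (t14_10570)) (.node ⟨nat_lit 6, nat_lit 0x280030, nat_lit 0x11202, nat_lit 3, nat_lit 4, nat_lit 0x48⟩ (t14_6474) (t14_14666)))) (.node ⟨nat_lit 5, nat_lit 0x800100010, nat_lit 0x21210, nat_lit 0, nat_lit 3, nat_lit 0x46⟩ (.node ⟨nat_lit 6, nat_lit 0x2000240018, nat_lit 0x220211, nat_lit 3, nat_lit 4, nat_lit 0x49⟩ (.node ⟨nat_lit 8, nat_lit 0x8000200040009000e0, nat_lit 0x10010003, nat_lit 1, nat_lit 4, nat_lit 0x47⟩ (t14_1354) (t14_9546)) (.node ⟨nat_lit 7, nat_lit 0x400020002000200050, nat_lit 0x2012002, nat_lit 1, nat_lit 4, nat_lit 0x48⟩ (t14_5450) (t14_13642))) (.node ⟨nat_lit 3, nat_lit 6, nat_lit 0x312, nat_lit 0xc, nat_lit 4, nat_lit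 0x48⟩ (.node ⟨nat_lit 6, nat_lit 0x1000280034, nat_lit 0x120030, nat_lit 0, nat_lit 4, nat_lit 0x46⟩ (t14_3402) (t14_11594)) (.node ⟨nat_lit 8, nat_lit 0x800040004000a000d000d0, nat_lit 0x1101010, nat_lit 1, nat_lit 4, nat_lit 0x46⟩ (t14_7498) (.nil))))) (.node ⟨nat_lit 5, nat_lit 0x10, nat_lit 0x3111, nat_lit 3, nat_lit 4, nat_lit 0x49⟩ (.node ⟨nat_lit 5, nat_lit 0x10001a, nat_lit 0x22111, nat_lit 3, nat_lit 4, nat_lit 0x48⟩ (.node ⟨nat_lit 6, nat_lit 0x1000200032, nat_lit 0x111111, nat_lit 1, nat_lit 4, nat_lit 0x47⟩ (.node ⟨nat_lit 5, nat_lit 0x100018, nat_lit 0x131, nat_lit 1, nat_lit 3, nat_lit 0x45⟩ (t14_842) (t14_9034)) (.node ⟨nat_lit 7, nat_lit 0x2000200040, nat_lit 0x1122210, nat_lit 0, nat_lit 4, nat_lit 0x4b⟩ (t14_4938) (t14_13130))) (.node ⟨nat_lit 8, nat_lit 0x80002000c000c8, nat_lit 0x10011020, nat_lit 0, nat_lit 4, nat_lit 0x48⟩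 (.node ⟨nat_lit 6, nat_lit 0x20001000280028, nat_lit 0x112121, nat_lit 2, nat_lit 4, nat_lit 0x48⟩ (t14_2890) (t14_11082)) (.node ⟨nat_lit 4, nat_lit 0xc, nat_lit 0x1112, nat_lit 6, nat_lit 4, nat_lit 0x47⟩ (t14_6986) (t14_15178)))) (.node ⟨nat_lit 4, nat_lit 0xc, nat_lit 0x2120, nat_lit 3, nat_lit 4, nat_lit 0x47⟩ (.node ⟨nat_lit 6, nat_lit 0x1000200030, nat_lit 0x202131, nat_lit 0, nat_lit 4, nat_lit 0x49⟩ (.node ⟨nat_lit 8, nat_lit 0x80002000c0, nat_lit 0x10011301, nat_lit 2, nat_lit 4, nat_lit 0x4b⟩ (t14_1866) (t14_10058)) (.node ⟨nat_lit 7, nat_lit 0x10004000200060, nat_lit 0x120002, nat_lit 1, nat_lit 4, nat_lit 0x48⟩ (t14_5962) (t14_14154))) (.node ⟨nat_lit 6, nat_lit 0x10001000200038, nat_lit 0x1021, nat_lit 2, nat_lit 4, nat_lit 0x45⟩ (.node ⟨nat_lit 7, nat_lit 0x20001000600050, nat_lit 0x1010103, nat_lit 2, nat_lit 4, nat_lit 0x48⟩ (t14_3914)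 (t14_12106)) (.node ⟨nat_lit 7, nat_lit 0x40004800300030, nat_lit 0x2100121, nat_lit 0, nat_lit 4, nat_lit 0x47⟩ (t14_8010) (.nil)))))
def t14_202 : Tr := .node ⟨nat_lit 7, nat_lit 0x20004000540064, nat_lit 0x2111021, nat_lit 2, nat_lit 4, nat_lit 0x48⟩ (.nil) (.nil)
def t14_8394 : Tr := .node ⟨nat_lit 4, nat_lit 0x40008, nat_lit 0x1131, nat_lit 7, nat_lit 3, nat_lit 0x46⟩ (.nil) (.nil)
def t14_4298 : Tr := .node ⟨nat_lit 8, nat_lit 0x800020008800c0, nat_lit 0x1120102, nat_lit 0, nat_lit 4, nat_lit 0x49⟩ (.nil) (.nil)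
def t14_12490 : Tr := .node ⟨nat_lit 7, nat_lit 0x4000100060, nat_lit 0x11401, nat_lit 0, nat_lit 4, nat_lit 0x49⟩ (.nil) (.nil)
def t14_2250 : Tr := .node ⟨nat_lit 8, nat_lit 0x80008000800040004000a0, nat_lit 0x1100220, nat_lit 1, nat_lit 4, nat_lit 0x49⟩ (.nil) (.nil)
def t14_10442 : Tr := .node ⟨nat_lit 7, nat_lit 0x20004000600064, nat_lit 0x20201, nat_lit 0, nat_lit 4, nat_lit 0x47⟩ (.nil) (.nil)
def t14_6346 : Tr := .node ⟨nat_lit 8, nat_lit 0x2000400080008000c8, nat_lit 0x1000210, nat_lit 1, nat_lit 4, nat_lit 0x48⟩ (.nil) (.nil)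
def t14_14538 : Tr := .node ⟨nat_lit 5, nat_lit 0x100018, nat_lit 0x21120, nat_lit 2, nat_lit 3, nat_lit 0x47⟩ (.nil) (.nil)
def t14_1226 : Tr := .node ⟨nat_lit 4, nat_lit 0x80004, nat_lit 0x3013, nat_lit 2, nat_lit 3, nat_lit 0x46⟩ (.nil) (.nil)
def t14_9418 : Tr := .node ⟨nat_lit 7, nat_lit 0x50003000600070, nat_lit 0x12022, nat_lit 0, nat_lit 4, nat_lit 0x45⟩ (.nil) (.nil)
def t14_5322 : Tr := .node ⟨nat_lit 5, nat_lit 0x180018, nat_lit 0x11130, nat_lit 7, nat_lit 4, nat_lit 0x48⟩ (.nil) (.nil)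
def t14_13514 : Tr := .node ⟨nat_lit 7, nat_lit 0x1000100060, nat_lit 0x1001002, nat_lit 2, nat_lit 4, nat_lit 0x48⟩ (.nil) (.nil)
def t14_3274 : Tr := .node ⟨nat_lit 9, nat_lit 0x10001000080004001200180, nat_lit 0x1200011, nat_lit 1, nat_lit 4, nat_lit 0x49⟩ (.nil) (.nil)
def t14_11466 : Tr := .node ⟨nat_lit 7, nat_lit 0x10002000400060, nat_lit 0x1000101, nat_lit 2, nat_lit 4, nat_lit 0x47⟩ (.nil) (.nil)
def t14_7370 : Tr := .node ⟨nat_lit 6, nat_lit 0x100020, nat_lit 0x13100, nat_lit 0, nat_lit 4, nat_lit 0x49⟩ (.nil) (.nil)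
def t14_15562 : Tr := .node ⟨nat_lit 6, nat_lit 0, nat_lit 0x211111, nat_lit 8, nat_lit 4, nat_lit 0x4d⟩ (.nil) (.nil)
def t14_714 : Tr := .node ⟨nat_lit 7, nat_lit 0x20004000400064, nat_lit 0x24001, nat_lit 0, nat_lit 4, nat_lit 0x48⟩ (.nil) (.nil)
def t14_8906 : Tr := .node ⟨nat_lit 6, nat_lit 0x2800280030, nat_lit 0x10301, nat_lit 4, nat_lit 4, nat_lit 0x46⟩ (.nil) (.nil)
def t14_4810 : Tr := .node ⟨nat_lit 7, nat_lit 0x40002000480048, nat_lit 0x1021010, nat_lit 0, nat_lit 4, nat_lit 0x48⟩ (.nil) (.nil)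
def t14_13002 : Tr := .node ⟨nat_lit 6, nat_lit 0x10002000200020, nat_lit 0x30200, nat_lit 1, nat_lit 3, nat_lit 0x47⟩ (.nil) (.nil)
def t14_2762 : Tr := .node ⟨nat_lit 6, nat_lit 0x800080030, nat_lit 0x101111, nat_lit 0, nat_lit 4, nat_lit 0x47⟩ (.nil) (.nil)
def t14_10954 : Tr := .node ⟨nat_lit 8, nat_lit 0x2000200030003000c0, nat_lit 0x10001102, nat_lit 0, nat_lit 4, nat_lit 0x47⟩ (.nil) (.nil)
def t14_6858 : Tr := .node ⟨nat_lit 6, nat_lit 0x2000240024, nat_lit 0x11210, nat_lit 4, nat_lit 4, nat_lit 0x48⟩ (.nil) (.nil)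
def t14_15050 : Tr := .node ⟨nat_lit 7, nat_lit 0x2000500060, nat_lit 0x1111211, nat_lit 0, nat_lit 4, nat_lit 0x49⟩ (.nil) (.nil)
def t14_1738 : Tr := .node ⟨nat_lit 8, nat_lit 0x400080008000c800d0, nat_lit 0x1112011, nat_lit 1, nat_lit 4, nat_lit 0x48⟩ (.nil) (.nil)
def t14_9930 : Tr := .node ⟨nat_lit 6, nat_lit 0x3000300038, nat_lit 0x1303, nat_lit 4, nat_lit 4, nat_lit 0x46⟩ (.nil) (.nil)
def t14_5834 : Tr := .node ⟨nat_lit 6, nat_lit 0x200022, nat_lit 0x11102, nat_lit 1, nat_lit 4, nat_lit 0x47⟩ (.nil) (.nil)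
def t14_14026 : Tr := .node ⟨nat_lit 7, nat_lit 0x20004000100068, nat_lit 0x110320, nat_lit 1, nat_lit 4, nat_lit 0x48⟩ (.nil) (.nil)
def t14_3786 : Tr := .node ⟨nat_lit 8, nat_lit 0x800080004000c000d0, nat_lit 0x201120, nat_lit 1, nat_lit 4, nat_lit 0x48⟩ (.nil) (.nil)
def t14_11978 : Tr := .node ⟨nat_lit 6, nat_lit 0x20002000280030, nat_lit 0x12210, nat_lit 5, nat_lit 4, nat_lit 0x48⟩ (.nil) (.nil)
def t14_7882 : Tr := .node ⟨nat_lit 8, nat_lit 0x800040009000a000d0, nat_lit 0x12110, nat_lit 0, nat_lit 4, nat_lit 0x46⟩ (.nil) (.nil)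
def t9_202 : Tr := .node ⟨nat_lit 4, nat_lit 0, nat_lit 0x3222, nat_lit 2, nat_lit 4, nat_lit 0x4a⟩ (.node ⟨nat_lit 6, nat_lit 0x200030, nat_lit 0x113212, nat_lit 0, nat_lit 4, nat_lit 0x4a⟩ (.node ⟨nat_lit 6, nat_lit 0x200030, nat_lit 0x13011, nat_lit 0, nat_lit 4, nat_lit 0x48⟩ (.node ⟨nat_lit 3, nat_lit 4, nat_lit 0x124, nat_lit 8, nat_lit 4, nat_lit 0x48⟩ (.node ⟨nat_lit 7, nat_lit 0x10004000200062, nat_lit 0x200122, nat_lit 1, nat_lit 4, nat_lit 0x48⟩ (t14_202) (t14_8394)) (.node ⟨nat_lit 6, nat_lit 0x2000100038, nat_lit 0x11203, nat_lit 3, nat_lit 4, nat_lit 0x47⟩ (t14_4298) (t14_12490))) (.node ⟨nat_lit 6, nat_lit 0x2000100024, nat_lit 0x212311, nat_lit 0, nat_lit 4, nat_lit 0x4a⟩ (.node ⟨nat_lit 7, nat_lit 0x20001000400060, nat_lit 0x12101, nat_lit 0, nat_lit 4, nat_lit 0x47⟩ (t14_2250) (t14_10442)) (.node ⟨nat_lit 8, nat_lit 0x800080002000c0,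 nat_lit 0x1121012, nat_lit 0, nat_lit 4, nat_lit 0x4a⟩ (t14_6346) (t14_14538)))) (.node ⟨nat_lit 6, nat_lit 0x280030, nat_lit 0x11211, nat_lit 1, nat_lit 4, nat_lit 0x47⟩ (.node ⟨nat_lit 7, nat_lit 0x1000100060, nat_lit 0x2111111, nat_lit 1, nat_lit 4, nat_lit 0x4a⟩ (.node ⟨nat_lit 5, nat_lit 0x40018, nat_lit 0x11003, nat_lit 5, nat_lit 4, nat_lit 0x47⟩ (t14_1226) (t14_9418)) (.node ⟨nat_lit 9, nat_lit 0x40010000200180, nat_lit 0x100020201, nat_lit 1, nat_lit 4, nat_lit 0x4b⟩ (t14_5322) (t14_13514))) (.node ⟨nat_lit 5, nat_lit 0x800080010, nat_lit 0x11203, nat_lit 1, nat_lit 3, nat_lit 0x46⟩ (.node ⟨nat_lit 6, nat_lit 0x800300028, nat_lit 0x111013, nat_lit 4, nat_lit 4, nat_lit 0x48⟩ (t14_3274) (t14_11466)) (.node ⟨nat_lit 7, nat_lit 0x40004800500068, nat_lit 0x1010021, nat_lit 3, nat_lit 4, nat_lit 0x47⟩ (t14_7370) (t14_15562))))) (.node ⟨nat_lit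 6, nat_lit 0x30, nat_lit 0x113111, nat_lit 0, nat_lit 4, nat_lit 0x4a⟩ (.node ⟨nat_lit 5, nat_lit 0x100010, nat_lit 0x2110, nat_lit 3, nat_lit 4, nat_lit 0x47⟩ (.node ⟨nat_lit 9, nat_lit 0x100008000400020, nat_lit 0x120001, nat_lit 1, nat_lit 4, nat_lit 0x4b⟩ (.node ⟨nat_lit 7, nat_lit 0x20002000100040, nat_lit 0x1122101, nat_lit 0, nat_lit 4, nat_lit 0x4a⟩ (t14_714) (t14_8906)) (.node ⟨nat_lit 7, nat_lit 0x400020002000500050, nat_lit 0x112121, nat_lit 0, nat_lit 4, nat_lit 0x47⟩ (t14_4810) (t14_13002))) (.node ⟨nat_lit 6, nat_lit 0x1000300028, nat_lit 0x101012, nat_lit 4, nat_lit 4, nat_lit 0x47⟩ (.node ⟨nat_lit 7, nat_lit 0x20004000100060, nat_lit 0x1112013, nat_lit 0, nat_lit 4, nat_lit 0x49⟩ (t14_2762) (t14_10954)) (.node ⟨nat_lit 6, nat_lit 0x300038, nat_lit 0x101102, nat_lit 0, nat_lit 4, nat_lit 0x46⟩ (t14_6858) (t14_15050)))) (.node ⟨nat_lit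 4, nat_lit 0x80008, nat_lit 0x1131, nat_lit 3, nat_lit 3, nat_lit 0x46⟩ (.node ⟨nat_lit 6, nat_lit 0x800300030, nat_lit 0x101021, nat_lit 1, nat_lit 3, nat_lit 0x45⟩ (.node ⟨nat_lit 5, nat_lit 0x1000100008, nat_lit 0x1114, nat_lit 2, nat_lit 3, nat_lit 0x46⟩ (t14_1738) (t14_9930)) (.node ⟨nat_lit 7, nat_lit 0x10001000200040, nat_lit 0x212120, nat_lit 0, nat_lit 3, nat_lit 0x48⟩ (t14_5834) (t14_14026))) (.node ⟨nat_lit 6, nat_lit 0x2000200034, nat_lit 0x2222, nat_lit 2, nat_lit 4, nat_lit 0x48⟩ (.node ⟨nat_lit 6, nat_lit 0xc0030, nat_lit 0x100001, nat_lit 2, nat_lit 4, nat_lit 0x46⟩ (t14_3786) (t14_11978)) (.node ⟨nat_lit 8, nat_lit 0x2000c000c0, nat_lit 0x10011021, nat_lit 3, nat_lit 4, nat_lit 0x4a⟩ (t14_7882) (.nil)))))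
def t14_458 : Tr := .node ⟨nat_lit 7, nat_lit 0x40002000680070, nat_lit 0x1111112, nat_lit 0, nat_lit 4, nat_lit 0x47⟩ (.nil) (.nil)
def t14_8650 : Tr := .node ⟨nat_lit 7, nat_lit 0x40002000500068, nat_lit 0x20, nat_lit 1, nat_lit 4, nat_lit 0x45⟩ (.nil) (.nil)
def t14_4554 : Tr := .node ⟨nat_lit 6, nat_lit 0x20003000300038, nat_lit 0x101212, nat_lit 4, nat_lit 4, nat_lit 0x46⟩ (.nil) (.nil)
def t14_12746 : Tr := .node ⟨nat_lit 5, nat_lit 0x1000140018, nat_lit 0x1300, nat_lit 7, nat_lit 4, nat_lit 0x47⟩ (.nil) (.nil)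
def t14_2506 : Tr := .node ⟨nat_lit 7, nat_lit 0x20006000500068, nat_lit 0x112102, nat_lit 1, nat_lit 4, nat_lit 0x47⟩ (.nil) (.nil)
def t14_10698 : Tr := .node ⟨nat_lit 8, nat_lit 0xc0009000a0, nat_lit 0x10101202, nat_lit 0, nat_lit 4, nat_lit 0x49⟩ (.nil) (.nil)
def t14_6602 : Tr := .node ⟨nat_lit 6, nat_lit 0x1000200030, nat_lit 0x11220, nat_lit 3, nat_lit 4, nat_lit 0x48⟩ (.nil) (.nil)
def t14_14794 : Tr := .node ⟨nat_lit 7, nat_lit 0x40004000200060, nat_lit 0x111112, nat_lit 3, nat_lit 4, nat_lit 0x49⟩ (.nil) (.nil)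
def t14_1482 : Tr := .node ⟨nat_lit 6, nat_lit 0x2000100010, nat_lit 0x211011, nat_lit 2, nat_lit 3, nat_lit 0x48⟩ (.nil) (.nil)
def t14_9674 : Tr := .node ⟨nat_lit 8, nat_lit 0x800080004000400090, nat_lit 0x110100, nat_lit 1, nat_lit 4, nat_lit 0x48⟩ (.nil) (.nil)
def t14_5578 : Tr := .node ⟨nat_lit 8, nat_lit 0x8000800084, nat_lit 0x1111202, nat_lit 1, nat_lit 4, nat_lit 0x4b⟩ (.nil) (.nil)
def t14_13770 : Tr := .node ⟨nat_lit 5, nat_lit 0x140018, nat_lit 0x21101, nat_lit 2, nat_lit 3, nat_lit 0x46⟩ (.nil) (.nil)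
def t14_3530 : Tr := .node ⟨nat_lit 7, nat_lit 0x6000480070, nat_lit 0x10012, nat_lit 0, nat_lit 4, nat_lit 0x45⟩ (.nil) (.nil)
def t14_11722 : Tr := .node ⟨nat_lit 7, nat_lit 0x40006000680068, nat_lit 0x1010210, nat_lit 5, nat_lit 4, nat_lit 0x47⟩ (.nil) (.nil)
def t14_7626 : Tr := .node ⟨nat_lit 6, nat_lit 0x20001000100030, nat_lit 0x2104, nat_lit 3, nat_lit 4, nat_lit 0x47⟩ (.nil) (.nil)
def t14_970 : Tr := .node ⟨nat_lit 4, nat_lit 0x8000a, nat_lit 0x231, nat_lit 7, nat_lit 4, nat_lit 0x47⟩ (.nil) (.nil)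
def t14_9162 : Tr := .node ⟨nat_lit 8, nat_lit 0x800080009000c000e000e0, nat_lit 0x110230, nat_lit 1, nat_lit 4, nat_lit 0x46⟩ (.nil) (.nil)
def t14_5066 : Tr := .node ⟨nat_lit 7, nat_lit 0x4000600060, nat_lit 0x111311, nat_lit 0, nat_lit 4, nat_lit 0x49⟩ (.nil) (.nil)
def t14_13258 : Tr := .node ⟨nat_lit 4, nat_lit 0x8000c, nat_lit 0x2110, nat_lit 7, nat_lit 3, nat_lit 0x46⟩ (.nil) (.nil)
def t14_3018 : Tr := .node ⟨nat_lit 6, nat_lit 0x10002000200034, nat_lit 0x10211, nat_lit 4, nat_lit 4, nat_lit 0x47⟩ (.nil) (.nil)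
def t14_11210 : Tr := .node ⟨nat_lit 7, nat_lit 0x600050, nat_lit 0x11010, nat_lit 1, nat_lit 4, nat_lit 0x48⟩ (.nil) (.nil)
def t14_7114 : Tr := .node ⟨nat_lit 6, nat_lit 0x2000300030, nat_lit 0x12111, nat_lit 5, nat_lit 4, nat_lit 0x48⟩ (.nil) (.nil)
def t14_15306 : Tr := .node ⟨nat_lit 8, nat_lit 0x2000800080004000c0, nat_lit 0x1001022, nat_lit 2, nat_lit 4, nat_lit 0x49⟩ (.nil) (.nil)
def t14_1994 : Tr := .node ⟨nat_lit 7, nat_lit 0x4800500060, nat_lit 0x121120, nat_lit 1, nat_lit 4, nat_lit 0x48⟩ (.nil) (.nil)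
def t14_10186 : Tr := .node ⟨nat_lit 8, nat_lit 0x80002000c000c0, nat_lit 0x112020, nat_lit 2, nat_lit 4, nat_lit 0x49⟩ (.nil) (.nil)
def t14_6090 : Tr := .node ⟨nat_lit 0, nat_lit 0, nat_lit 0, nat_lit 0x1d, nat_lit 4, nat_lit 0x46⟩ (.nil) (.nil)
def t14_14282 : Tr := .node ⟨nat_lit 8, nat_lit 0x200020004000400080, nat_lit 0x10021001, nat_lit 2, nat_lit 4, nat_lit 0x49⟩ (.nil) (.nil)
def t14_4042 : Tr := .node ⟨nat_lit 7, nat_lit 0x20004000400044, nat_lit 0x101200, nat_lit 0, nat_lit 4, nat_lit 0x48⟩ (.nil) (.nil)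
def t14_12234 : Tr := .node ⟨nat_lit 9, nat_lit 0x1000100002000400180, nat_lit 0x11021010, nat_lit 0, nat_lit 4, nat_lit 0x4a⟩ (.nil) (.nil)
def t14_8138 : Tr := .node ⟨nat_lit 7, nat_lit 0x1000400060, nat_lit 0x101020, nat_lit 0, nat_lit 4, nat_lit 0x48⟩ (.nil) (.nil)
def t9_458 : Tr := .node ⟨nat_lit 5, nat_lit 0, nat_lit 0x33110, nat_lit 0, nat_lit 4, nat_lit 0x4b⟩ (.node ⟨nat_lit 5, nat_lit 0x40018, nat_lit 0x31000, nat_lit 0, nat_lit 4, nat_lit 0x46⟩ (.node ⟨nat_lit 5, nat_lit 0x18, nat_lit 0x21222, nat_lit 1, nat_lit 4, nat_lit 0x49⟩ (.node ⟨nat_lit 5, nat_lit 0x180018, nat_lit 0x10222, nat_lit 2, nat_lit 4, nat_lit 0x46⟩ (.node ⟨nat_lit 6, nat_lit 0x2000080030, nat_lit 0x12211, nat_lit 2, nat_lit 4, nat_lit 0x48⟩ (t14_458) (t14_8650)) (.node ⟨nat_lit 6, nat_lit 0x20002000100028, nat_lit 0x122021, nat_lit 3, nat_lit 4, nat_lit 0x49⟩ (t14_4554)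 (t14_12746))) (.node ⟨nat_lit 7, nat_lit 0x40004000200048, nat_lit 0x100020, nat_lit 0, nat_lit 4, nat_lit 0x47⟩ (.node ⟨nat_lit 6, nat_lit 0x2000300034, nat_lit 0x111131, nat_lit 4, nat_lit 4, nat_lit 0x48⟩ (t14_2506) (t14_10698)) (.node ⟨nat_lit 6, nat_lit 0x1000100020, nat_lit 0x102310, nat_lit 3, nat_lit 4, nat_lit 0x49⟩ (t14_6602) (t14_14794)))) (.node ⟨nat_lit 6, nat_lit 0x2000280034, nat_lit 0x21011, nat_lit 2, nat_lit 4, nat_lit 0x46⟩ (.node ⟨nat_lit 6, nat_lit 0x2000200010, nat_lit 0x122222, nat_lit 0, nat_lit 4, nat_lit 0x4a⟩ (.node ⟨nat_lit 7, nat_lit 0x40001000600060, nat_lit 0x10110, nat_lit 0, nat_lit 4, nat_lit 0x46⟩ (t14_1482) (t14_9674)) (.node ⟨nat_lit 6, nat_lit 0x10001000200020, nat_lit 0x111132, nat_lit 0, nat_lit 4, nat_lit 0x49⟩ (t14_5578) (t14_13770))) (.node ⟨nat_lit 5, nat_lit 0x18, nat_lit 0x10212, nat_lit 3, nat_lit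 3, nat_lit 0x47⟩ (.node ⟨nat_lit 6, nat_lit 0x800300028, nat_lit 0x10000, nat_lit 0, nat_lit 3, nat_lit 0x44⟩ (t14_3530) (t14_11722)) (.node ⟨nat_lit 6, nat_lit 0x2000300028, nat_lit 0x100311, nat_lit 1, nat_lit 3, nat_lit 0x46⟩ (t14_7626) (.nil))))) (.node ⟨nat_lit 5, nat_lit 0x800080010, nat_lit 0x31112, nat_lit 3, nat_lit 4, nat_lit 0x49⟩ (.node ⟨nat_lit 6, nat_lit 0x1000200030, nat_lit 0x111221, nat_lit 0, nat_lit 4, nat_lit 0x48⟩ (.node ⟨nat_lit 5, nat_lit 0x80010, nat_lit 0x22202, nat_lit 0, nat_lit 4, nat_lit 0x49⟩ (.node ⟨nat_lit 6, nat_lit 0x2000100024, nat_lit 0x212310, nat_lit 0, nat_lit 4, nat_lit 0x4a⟩ (t14_970) (t14_9162)) (.node ⟨nat_lit 8, nat_lit 0x800020004000400040, nat_lit 0x202211, nat_lit 0, nat_lit 4, nat_lit 0x4a⟩ (t14_5066) (t14_13258))) (.node ⟨nat_lit 6, nat_lit 0x2000200010, nat_lit 0x11203, nat_lit 0, nat_lit 4, nat_lit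 0x48⟩ (.node ⟨nat_lit 7, nat_lit 0x40002000500060, nat_lit 0x13110, nat_lit 0, nat_lit 4, nat_lit 0x47⟩ (t14_3018) (t14_11210)) (.node ⟨nat_lit 8, nat_lit 0x40008000600060009000c0, nat_lit 0x10121002, nat_lit 1, nat_lit 4, nat_lit 0x47⟩ (t14_7114) (t14_15306)))) (.node ⟨nat_lit 6, nat_lit 0x200010, nat_lit 0x12102, nat_lit 1, nat_lit 4, nat_lit 0x49⟩ (.node ⟨nat_lit 6, nat_lit 0x30, nat_lit 0x201111, nat_lit 7, nat_lit 4, nat_lit 0x4b⟩ (.node ⟨nat_lit 7, nat_lit 0x20005000500068, nat_lit 0x211311, nat_lit 0, nat_lit 4, nat_lit 0x47⟩ (t14_1994) (t14_10186)) (.node ⟨nat_lit 8, nat_lit 0x800080004000a000d0, nat_lit 0x1020200, nat_lit 1, nat_lit 4, nat_lit 0x48⟩ (t14_6090) (t14_14282))) (.node ⟨nat_lit 2, nat_lit 0, nat_lit 0x41, nat_lit 0xe, nat_lit 3, nat_lit 0x47⟩ (.node ⟨nat_lit 8, nat_lit 0x400080006000c000a0, nat_lit 0x110103, nat_lit 0, nat_lit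 4, nat_lit 0x47⟩ (t14_4042) (t14_12234)) (.node ⟨nat_lit 7, nat_lit 0x40002000100060, nat_lit 0x110112, nat_lit 3, nat_lit 3, nat_lit 0x47⟩ (t14_8138) (.nil)))))
def t14_42 : Tr := .node ⟨nat_lit 6, nat_lit 0x200010, nat_lit 0x11100, nat_lit 5, nat_lit 4, nat_lit 0x49⟩ (.nil) (.nil)
def t14_8234 : Tr := .node ⟨nat_lit 7, nat_lit 0x4000600064, nat_lit 0x10203, nat_lit 0, nat_lit 4, nat_lit 0x47⟩ (.nil) (.nil)
def t14_4138 : Tr := .node ⟨nat_lit 8, nat_lit 0x8000800040002000c0, nat_lit 0x1110202, nat_lit 0, nat_lit 4, nat_lit 0x49⟩ (.nil) (.nil)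
def t14_12330 : Tr := .node ⟨nat_lit 8, nat_lit 0x800040002000c000e0, nat_lit 0x22003, nat_lit 1, nat_lit 4, nat_lit 0x47⟩ (.nil) (.nil)
def t14_2090 : Tr := .node ⟨nat_lit 7, nat_lit 0x400020002000200050, nat_lit 0x2013110, nat_lit 1, nat_lit 4, nat_lit 0x49⟩ (.nil) (.nil)
def t14_10282 : Tr := .node ⟨nat_lit 9, nat_lit 0x100010000800140014001c001a0, nat_lit 0x100021020, nat_lit 1, nat_lit 4, nat_lit 0x47⟩ (.nil) (.nil)
def t14_6186 : Tr := .node ⟨nat_lit 5, nat_lit 0x40018, nat_lit 0x10121, nat_lit 4, nat_lit 4, nat_lit 0x47⟩ (.nil) (.nil)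
def t14_14378 : Tr := .node ⟨nat_lit 8, nat_lit 0x800020002000a000c0, nat_lit 0x12030, nat_lit 2, nat_lit 4, nat_lit 0x48⟩ (.nil) (.nil)
def t14_1066 : Tr := .node ⟨nat_lit 6, nat_lit 0x2000080030, nat_lit 0x10120, nat_lit 2, nat_lit 4, nat_lit 0x46⟩ (.nil) (.nil)
def t14_9258 : Tr := .node ⟨nat_lit 9, nat_lit 0x4001000080018001900188, nat_lit 0x21201, nat_lit 0, nat_lit 4, nat_lit 0x47⟩ (.nil) (.nil)
def t14_5162 : Tr := .node ⟨nat_lit 6, nat_lit 0x800280030, nat_lit 0x203, nat_lit 0, nat_lit 4, nat_lit 0x45⟩ (.nil) (.nil)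
def t14_13354 : Tr := .node ⟨nat_lit 8, nat_lit 0x4000400080006000880088, nat_lit 0x102010, nat_lit 2, nat_lit 4, nat_lit 0x47⟩ (.nil) (.nil)
def t14_3114 : Tr := .node ⟨nat_lit 7, nat_lit 0x40002000500068, nat_lit 0x101120, nat_lit 0, nat_lit 4, nat_lit 0x46⟩ (.nil) (.nil)
def t14_11306 : Tr := .node ⟨nat_lit 7, nat_lit 0x1000600060, nat_lit 0x21020, nat_lit 1, nat_lit 4, nat_lit 0x48⟩ (.nil) (.nil)
def t14_7210 : Tr := .node ⟨nat_lit 6, nat_lit 0x200030, nat_lit 0x102211, nat_lit 2, nat_lit 3, nat_lit 0x48⟩ (.nil) (.nil)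
def t14_15402 : Tr := .node ⟨nat_lit 9, nat_lit 0x1000080004000200020, nat_lit 0x10, nat_lit 0xb, nat_lit 4, nat_lit 0x4b⟩ (.nil) (.nil)
def t14_554 : Tr := .node ⟨nat_lit 4, nat_lit 0xc, nat_lit 0x13, nat_lit 3, nat_lit 4, nat_lit 0x44⟩ (.nil) (.nil)
def t14_8746 : Tr := .node ⟨nat_lit 8, nat_lit 0x8000800040004000a000e0, nat_lit 0x101013, nat_lit 3, nat_lit 4, nat_lit 0x47⟩ (.nil) (.nil)
def t14_4650 : Tr := .node ⟨nat_lit 7, nat_lit 0x6000600018, nat_lit 0x1011102, nat_lit 0, nat_lit 4, nat_lit 0x47⟩ (.nil) (.nil)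
def t14_12842 : Tr := .node ⟨nat_lit 7, nat_lit 0x20004000100060, nat_lit 0x20000, nat_lit 1, nat_lit 4, nat_lit 0x47⟩ (.nil) (.nil)
def t14_2602 : Tr := .node ⟨nat_lit 8, nat_lit 0x4000800060009000e000d0, nat_lit 0x1120110, nat_lit 0, nat_lit 4, nat_lit 0x46⟩ (.nil) (.nil)
def t14_10794 : Tr := .node ⟨nat_lit 9, nat_lit 0x8001000100010000c001200120, nat_lit 0x10120011, nat_lit 2, nat_lit 4, nat_lit 0x49⟩ (.nil) (.nil)
def t14_6698 : Tr := .node ⟨nat_lit 8, nat_lit 0x80008800c000c0, nat_lit 0x111110, nat_lit 1, nat_lit 4, nat_lit 0x48⟩ (.nil) (.nil)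
def t14_14890 : Tr := .node ⟨nat_lit 6, nat_lit 0x20002800380038, nat_lit 0x101111, nat_lit 7, nat_lit 4, nat_lit 0x46⟩ (.nil) (.nil)
def t14_1578 : Tr := .node ⟨nat_lit 8, nat_lit 0x400080008800c00060, nat_lit 0x121120, nat_lit 0, nat_lit 4, nat_lit 0x47⟩ (.nil) (.nil)
def t14_9770 : Tr := .node ⟨nat_lit 8, nat_lit 0x8000a000c000c0, nat_lit 0x111220, nat_lit 0, nat_lit 4, nat_lit 0x48⟩ (.nil) (.nil)
def t14_5674 : Tr := .node ⟨nat_lit 7, nat_lit 0x4000100060, nat_lit 0x111202, nat_lit 2, nat_lit 4, nat_lit 0x49⟩ (.nil) (.nil)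
def t14_13866 : Tr := .node ⟨nat_lit 7, nat_lit 0x400040002000200050, nat_lit 0x20210, nat_lit 1, nat_lit 4, nat_lit 0x47⟩ (.nil) (.nil)
def t14_3626 : Tr := .node ⟨nat_lit 6, nat_lit 0x280030, nat_lit 0x22110, nat_lit 0, nat_lit 4, nat_lit 0x48⟩ (.nil) (.nil)
def t14_11818 : Tr := .node ⟨nat_lit 6, nat_lit 0x2000240018, nat_lit 0x110203, nat_lit 1, nat_lit 4, nat_lit 0x47⟩ (.nil) (.nil)
def t14_7722 : Tr := .node ⟨nat_lit 3, nat_lit 4, nat_lit 0x13, nat_lit 8, nat_lit 4, nat_lit 0x46⟩ (.nil) (.nil)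
def t9_42 : Tr := .node ⟨nat_lit 4, nat_lit 8, nat_lit 0x3111, nat_lit 1, nat_lit 3, nat_lit 0x47⟩ (.node ⟨nat_lit 6, nat_lit 0x200030, nat_lit 0x113120, nat_lit 3, nat_lit 4, nat_lit 0x4a⟩ (.node ⟨nat_lit 5, nat_lit 0x180018, nat_lit 0x10320, nat_lit 3, nat_lit 4, nat_lit 0x47⟩ (.node ⟨nat_lit 5, nat_lit 0x18, nat_lit 0x10210, nat_lit 2, nat_lit 4, nat_lit 0x47⟩ (.node ⟨nat_lit 7, nat_lit 0x4000600070, nat_lit 0x22013, nat_lit 1, nat_lit 4, nat_lit 0x48⟩ (t14_42) (t14_8234)) (.node ⟨nat_lit 6, nat_lit 0x2000080030, nat_lit 0x102000, nat_lit 2, nat_lit 4, nat_lit 0x47⟩ (t14_4138) (t14_12330))) (.node ⟨nat_lit 6, nat_lit 0x80030, nat_lit 0x220122, nat_lit 0, nat_lit 4, nat_lit 0x49⟩ (.node ⟨nat_lit 6, nat_lit 0x20001000280030, nat_lit 0x12113, nat_lit 3, nat_lit 4, nat_lit 0x47⟩ (t14_2090) (t14_10282)) (.node ⟨nat_lit 6, nat_lit 0x800300030, nat_lit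 0x1022, nat_lit 0, nat_lit 4, nat_lit 0x45⟩ (t14_6186) (t14_14378)))) (.node ⟨nat_lit 5, nat_lit 0x800100010, nat_lit 0x2231, nat_lit 1, nat_lit 3, nat_lit 0x46⟩ (.node ⟨nat_lit 7, nat_lit 0x2000500060, nat_lit 0x2012011, nat_lit 1, nat_lit 4, nat_lit 0x49⟩ (.node ⟨nat_lit 5, nat_lit 0x800100018, nat_lit 0x11331, nat_lit 3, nat_lit 4, nat_lit 0x48⟩ (t14_1066) (t14_9258)) (.node ⟨nat_lit 7, nat_lit 0x4000600060, nat_lit 0x1011221, nat_lit 1, nat_lit 4, nat_lit 0x49⟩ (t14_5162) (t14_13354))) (.node ⟨nat_lit 4, nat_lit 8, nat_lit 0x2220, nat_lit 6, nat_lit 4, nat_lit 0x49⟩ (.node ⟨nat_lit 7, nat_lit 0x4000100020, nat_lit 0x111000, nat_lit 2, nat_lit 4, nat_lit 0x49⟩ (t14_3114) (t14_11306)) (.node ⟨nat_lit 7, nat_lit 0x40003000500068, nat_lit 0x12220, nat_lit 0, nat_lit 4, nat_lit 0x46⟩ (t14_7210) (t14_15402))))) (.node ⟨nat_lit 6, nat_lit 0, nat_lit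 0x321111, nat_lit 3, nat_lit 4, nat_lit 0x4d⟩ (.node ⟨nat_lit 6, nat_lit 0x20, nat_lit 0x221111, nat_lit 1, nat_lit 4, nat_lit 0x4b⟩ (.node ⟨nat_lit 5, nat_lit 0x18, nat_lit 0x10201, nat_lit 0, nat_lit 4, nat_lit 0x46⟩ (.node ⟨nat_lit 7, nat_lit 0x10001000100060, nat_lit 0x2002201, nat_lit 0, nat_lit 3, nat_lit 0x47⟩ (t14_554) (t14_8746)) (.node ⟨nat_lit 6, nat_lit 0x800280030, nat_lit 0x120012, nat_lit 1, nat_lit 4, nat_lit 0x47⟩ (t14_4650) (t14_12842))) (.node ⟨nat_lit 6, nat_lit 0x2800300018, nat_lit 0x1112, nat_lit 2, nat_lit 4, nat_lit 0x45⟩ (.node ⟨nat_lit 6, nat_lit 0x300030, nat_lit 0x112230, nat_lit 0, nat_lit 4, nat_lit 0x49⟩ (t14_2602) (t14_10794)) (.node ⟨nat_lit 7, nat_lit 0x4000400040, nat_lit 0x211211, nat_lit 2, nat_lit 4, nat_lit 0x4b⟩ (t14_6698) (t14_14890)))) (.node ⟨nat_lit 7, nat_lit 0x4000100020, nat_lit 0x121011, nat_lit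 1, nat_lit 4, nat_lit 0x4a⟩ (.node ⟨nat_lit 6, nat_lit 0x1000200034, nat_lit 0x202101, nat_lit 1, nat_lit 4, nat_lit 0x47⟩ (.node ⟨nat_lit 6, nat_lit 0x200030, nat_lit 0x11123, nat_lit 0, nat_lit 4, nat_lit 0x48⟩ (t14_1578) (t14_9770)) (.node ⟨nat_lit 8, nat_lit 0x8000800040008800d0, nat_lit 0x11210201, nat_lit 0, nat_lit 4, nat_lit 0x49⟩ (t14_5674) (t14_13866))) (.node ⟨nat_lit 5, nat_lit 0x40018, nat_lit 0x20022, nat_lit 1, nat_lit 4, nat_lit 0x46⟩ (.node ⟨nat_lit 4, nat_lit 0xc, nat_lit 0x1110, nat_lit 4, nat_lit 4, nat_lit 0x46⟩ (t14_3626) (t14_11818)) (.node ⟨nat_lit 8, nat_lit 0x400080008000200088, nat_lit 0x10101020, nat_lit 1, nat_lit 4, nat_lit 0x49⟩ (t14_7722) (.nil)))))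
def t14_298 : Tr := .node ⟨nat_lit 6, nat_lit 0x280030, nat_lit 0x110211, nat_lit 2, nat_lit 4, nat_lit 0x48⟩ (.nil) (.nil)
def t14_8490 : Tr := .node ⟨nat_lit 7, nat_lit 0x400040002000500070, nat_lit 0x11013, nat_lit 6, nat_lit 4, nat_lit 0x47⟩ (.nil) (.nil)
def t14_4394 : Tr := .node ⟨nat_lit 8, nat_lit 0x100080002000c0, nat_lit 0x2111110, nat_lit 1, nat_lit 4, nat_lit 0x4a⟩ (.nil) (.nil)
def t14_12586 : Tr := .node ⟨nat_lit 7, nat_lit 0x20005000680070, nat_lit 0x12003, nat_lit 0, nat_lit 4, nat_lit 0x45⟩ (.nil) (.nil)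
def t14_2346 : Tr := .node ⟨nat_lit 7, nat_lit 0x400020005000700070, nat_lit 0x2002010, nat_lit 1, nat_lit 4, nat_lit 0x46⟩ (.nil) (.nil)
def t14_10538 : Tr := .node ⟨nat_lit 7, nat_lit 0x800500060, nat_lit 0x1020, nat_lit 2, nat_lit 4, nat_lit 0x47⟩ (.nil) (.nil)
def t14_6442 : Tr := .node ⟨nat_lit 6, nat_lit 0x20002000200028, nat_lit 0x11101, nat_lit 7, nat_lit 4, nat_lit 0x48⟩ (.nil) (.nil)
def t14_14634 : Tr := .node ⟨nat_lit 9, nat_lit 0x1000100010001100110, nat_lit 0x11111111, nat_lit 0, nat_lit 4, nat_lit 0x4b⟩ (.nil) (.nil)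
def t14_1322 : Tr := .node ⟨nat_lit 7, nat_lit 0x400040002000200050, nat_lit 0x12211, nat_lit 1, nat_lit 4, nat_lit 0x47⟩ (.nil) (.nil)
def t14_9514 : Tr := .node ⟨nat_lit 8, nat_lit 0x4000800080009000900088, nat_lit 0x10011110, nat_lit 5, nat_lit 4, nat_lit 0x49⟩ (.nil) (.nil)
def t14_5418 : Tr := .node ⟨nat_lit 7, nat_lit 0x400042, nat_lit 0x111122, nat_lit 1, nat_lit 4, nat_lit 0x4a⟩ (.nil) (.nil)
def t14_13610 : Tr := .node ⟨nat_lit 5, nat_lit 0x1000100008, nat_lit 0x11002, nat_lit 4, nat_lit 3, nat_lit 0x46⟩ (.nil) (.nil)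
def t14_3370 : Tr := .node ⟨nat_lit 5, nat_lit 0x180018, nat_lit 0x11210, nat_lit 3, nat_lit 4, nat_lit 0x47⟩ (.nil) (.nil)
def t14_11562 : Tr := .node ⟨nat_lit 8, nat_lit 0x800020002000c000c0, nat_lit 0x1021010, nat_lit 1, nat_lit 4, nat_lit 0x48⟩ (.nil) (.nil)
def t14_7466 : Tr := .node ⟨nat_lit 8, nat_lit 0x800040008800c0, nat_lit 0x10110101, nat_lit 1, nat_lit 4, nat_lit 0x49⟩ (.nil) (.nil)
def t14_810 : Tr := .node ⟨nat_lit 7, nat_lit 0x20002000400060, nat_lit 0x1013021, nat_lit 0, nat_lit 4, nat_lit 0x49⟩ (.nil) (.nil)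
def t14_9002 : Tr := .node ⟨nat_lit 7, nat_lit 0x400020005000500060, nat_lit 0x111202, nat_lit 2, nat_lit 4, nat_lit 0x47⟩ (.nil) (.nil)
def t14_4906 : Tr := .node ⟨nat_lit 7, nat_lit 0x1000200040, nat_lit 0x2111002, nat_lit 3, nat_lit 4, nat_lit 0x4b⟩ (.nil) (.nil)
def t14_13098 : Tr := .node ⟨nat_lit 5, nat_lit 0x100008001c, nat_lit 0x330, nat_lit 4, nat_lit 4, nat_lit 0x46⟩ (.nil) (.nil)
def t14_2858 : Tr := .node ⟨nat_lit 8, nat_lit 0x8000c000a0, nat_lit 0x21310, nat_lit 0, nat_lit 4, nat_lit 0x4a⟩ (.nil) (.nil)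
def t14_11050 : Tr := .node ⟨nat_lit 5, nat_lit 0x18001c, nat_lit 0x11102, nat_lit 3, nat_lit 4, nat_lit 0x46⟩ (.nil) (.nil)
def t14_6954 : Tr := .node ⟨nat_lit 8, nat_lit 0x800040005000a000a000c0, nat_lit 0x21010102, nat_lit 0, nat_lit 4, nat_lit 0x48⟩ (.nil) (.nil)
def t14_15146 : Tr := .node ⟨nat_lit 8, nat_lit 0x800040004000a000a000e0, nat_lit 0x10111101, nat_lit 0, nat_lit 4, nat_lit 0x47⟩ (.nil) (.nil)
def t14_1834 : Tr := .node ⟨nat_lit 5, nat_lit 0x1000140014, nat_lit 0x2120, nat_lit 4, nat_lit 4, nat_lit 0x46⟩ (.nil) (.nil)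
def t14_10026 : Tr := .node ⟨nat_lit 6, nat_lit 0x800200030, nat_lit 0x10020, nat_lit 4, nat_lit 4, nat_lit 0x47⟩ (.nil) (.nil)
def t14_5930 : Tr := .node ⟨nat_lit 0xa, nat_lit 0x2000200020802100300, nat_lit 0x11111000, nat_lit 1, nat_lit 4, nat_lit 0x4b⟩ (.nil) (.nil)
def t14_14122 : Tr := .node ⟨nat_lit 4, nat_lit 0x80008, nat_lit 0x111, nat_lit 6, nat_lit 3, nat_lit 0x45⟩ (.nil) (.nil)
def t14_3882 : Tr := .node ⟨nat_lit 7, nat_lit 0x4000500064, nat_lit 0x201201, nat_lit 0, nat_lit 4, nat_lit 0x48⟩ (.nil) (.nil)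
def t14_12074 : Tr := .node ⟨nat_lit 7, nat_lit 0x200020004000700068, nat_lit 0x110301, nat_lit 3, nat_lit 4, nat_lit 0x47⟩ (.nil) (.nil)
def t14_7978 : Tr := .node ⟨nat_lit 6, nat_lit 0x10002000200024, nat_lit 0x11112, nat_lit 4, nat_lit 4, nat_lit 0x47⟩ (.nil) (.nil)
def t9_298 : Tr := .node ⟨nat_lit 4, nat_lit 0xc, nat_lit 0x2132, nat_lit 3, nat_lit 4, nat_lit 0x48⟩ (.node ⟨nat_lit 6, nat_lit 0x2000100032, nat_lit 0x32220, nat_lit 0, nat_lit 4, nat_lit 0x49⟩ (.node ⟨nat_lit 6, nat_lit 0, nat_lit 0x311111, nat_lit 5, nat_lit 4, nat_lit 0x4d⟩ (.node ⟨nat_lit 7, nat_lit 0x40001000580068, nat_lit 0x1101022, nat_lit 0, nat_lit 4, nat_lit 0x46⟩ (.node ⟨nat_lit 6, nat_lit 0x1000200020, nat_lit 0x211121, nat_lit 2, nat_lit 4, nat_lit 0x4a⟩ (t14_298) (t14_8490)) (.node ⟨nat_lit 7, nat_lit 0x40001000500060, nat_lit 0x111031, nat_lit 3, nat_lit 4, nat_lit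 0x48⟩ (t14_4394) (t14_12586))) (.node ⟨nat_lit 6, nat_lit 0x200030, nat_lit 0x202222, nat_lit 0, nat_lit 4, nat_lit 0x4a⟩ (.node ⟨nat_lit 7, nat_lit 0x50005000300060, nat_lit 0x102133, nat_lit 0, nat_lit 4, nat_lit 0x46⟩ (t14_2346) (t14_10538)) (.node ⟨nat_lit 7, nat_lit 0x6000600060, nat_lit 0x21310, nat_lit 1, nat_lit 4, nat_lit 0x48⟩ (t14_6442) (t14_14634)))) (.node ⟨nat_lit 7, nat_lit 0x40001000100068, nat_lit 0x2101101, nat_lit 1, nat_lit 4, nat_lit 0x48⟩ (.node ⟨nat_lit 7, nat_lit 0x1000080060, nat_lit 0x2102012, nat_lit 1, nat_lit 4, nat_lit 0x4a⟩ (.node ⟨nat_lit 5, nat_lit 0x100008, nat_lit 0x11103, nat_lit 4, nat_lit 3, nat_lit 0x47⟩ (t14_1322) (t14_9514)) (.node ⟨nat_lit 7, nat_lit 0x10004000400060, nat_lit 0x1100222, nat_lit 0, nat_lit 3, nat_lit 0x47⟩ (t14_5418) (t14_13610))) (.node ⟨nat_lit 5, nat_lit 0x1000100010, nat_lit 0x2220,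 nat_lit 3, nat_lit 3, nat_lit 0x46⟩ (.node ⟨nat_lit 5, nat_lit 0x1000100016, nat_lit 0x12301, nat_lit 5, nat_lit 4, nat_lit 0x48⟩ (t14_3370) (t14_11562)) (.node ⟨nat_lit 8, nat_lit 0x800010002000c0, nat_lit 0x11111002, nat_lit 1, nat_lit 4, nat_lit 0x4a⟩ (t14_7466) (.nil))))) (.node ⟨nat_lit 6, nat_lit 0x2000200010, nat_lit 0x13101, nat_lit 4, nat_lit 4, nat_lit 0x49⟩ (.node ⟨nat_lit 4, nat_lit 0x8000c, nat_lit 0x2111, nat_lit 2, nat_lit 3, nat_lit 0x45⟩ (.node ⟨nat_lit 5, nat_lit 0x100008, nat_lit 0x1101, nat_lit 5, nat_lit 4, nat_lit 0x47⟩ (.node ⟨nat_lit 6, nat_lit 0x200030, nat_lit 0x32220, nat_lit 0, nat_lit 4, nat_lit 0x4a⟩ (t14_810) (t14_9002)) (.node ⟨nat_lit 7, nat_lit 0x20004000440030, nat_lit 0x2110212, nat_lit 0, nat_lit 4, nat_lit 0x49⟩ (t14_4906) (t14_13098))) (.node ⟨nat_lit 6, nat_lit 0x1000200038, nat_lit 0x110112, nat_lit 0, nat_lit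 4, nat_lit 0x46⟩ (.node ⟨nat_lit 7, nat_lit 0x4000440060, nat_lit 0x211113, nat_lit 0, nat_lit 4, nat_lit 0x49⟩ (t14_2858) (t14_11050)) (.node ⟨nat_lit 7, nat_lit 0x200020002000400060, nat_lit 0x1011023, nat_lit 0, nat_lit 3, nat_lit 0x46⟩ (t14_6954) (t14_15146)))) (.node ⟨nat_lit 5, nat_lit 0x100018, nat_lit 0x10121, nat_lit 4, nat_lit 3, nat_lit 0x46⟩ (.node ⟨nat_lit 7, nat_lit 0x6000600050, nat_lit 0x121211, nat_lit 0, nat_lit 4, nat_lit 0x48⟩ (.node ⟨nat_lit 6, nat_lit 0x2000200038, nat_lit 0x10103, nat_lit 5, nat_lit 4, nat_lit 0x47⟩ (t14_1834) (t14_10026)) (.node ⟨nat_lit 7, nat_lit 0x40001000500068, nat_lit 0x210022, nat_lit 1, nat_lit 4, nat_lit 0x47⟩ (t14_5930) (t14_14122))) (.node ⟨nat_lit 7, nat_lit 0x4000100060, nat_lit 0x210013, nat_lit 0, nat_lit 4, nat_lit 0x49⟩ (.node ⟨nat_lit 6, nat_lit 0x3000300030, nat_lit 0x102300, nat_lit 0,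 nat_lit 3, nat_lit 0x45⟩ (t14_3882) (t14_12074)) (.node ⟨nat_lit 6, nat_lit 0x1000200030, nat_lit 0x101121, nat_lit 4, nat_lit 4, nat_lit 0x48⟩ (t14_7978) (.nil)))))
def t14_170 : Tr := .node ⟨nat_lit 6, nat_lit 0x1000200030, nat_lit 0x103111, nat_lit 2, nat_lit 4, nat_lit 0x48⟩ (.nil) (.nil)
def t14_8362 : Tr := .node ⟨nat_lit 7, nat_lit 0x40001000480060, nat_lit 0x12140, nat_lit 1, nat_lit 4, nat_lit 0x48⟩ (.nil) (.nil)
def t14_4266 : Tr := .node ⟨nat_lit 7, nat_lit 0x2000400060, nat_lit 0x22101, nat_lit 1, nat_lit 4, nat_lit 0x49⟩ (.nil) (.nil)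
def t14_12458 : Tr := .node ⟨nat_lit 8, nat_lit 0x80002000c000d000d0, nat_lit 0x10101310, nat_lit 0, nat_lit 4, nat_lit 0x47⟩ (.nil) (.nil)
def t14_2218 : Tr := .node ⟨nat_lit 8, nat_lit 0x800040004000400020, nat_lit 0x102220, nat_lit 0, nat_lit 4, nat_lit 0x4a⟩ (.nil) (.nil)
def t14_10410 : Tr := .node ⟨nat_lit 7, nat_lit 0x20005000300060, nat_lit 0x1001201, nat_lit 0, nat_lit 4, nat_lit 0x46⟩ (.nil) (.nil)
def t14_6314 : Tr := .node ⟨nat_lit 6, nat_lit 0x20002000100010, nat_lit 0x1031, nat_lit 2, nat_lit 4, nat_lit 0x47⟩ (.nil) (.nil)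
def t14_14506 : Tr := .node ⟨nat_lit 8, nat_lit 0x4000a000c000c0, nat_lit 0x111120, nat_lit 1, nat_lit 4, nat_lit 0x48⟩ (.nil) (.nil)
def t14_1194 : Tr := .node ⟨nat_lit 6, nat_lit 0x20, nat_lit 0x120001, nat_lit 0, nat_lit 4, nat_lit 0x49⟩ (.nil) (.nil)
def t14_9386 : Tr := .node ⟨nat_lit 6, nat_lit 0x20002000200028, nat_lit 0x11221, nat_lit 7, nat_lit 4, nat_lit 0x49⟩ (.nil) (.nil)
def t14_5290 : Tr := .node ⟨nat_lit 6, nat_lit 0x20002000100010, nat_lit 0x122100, nat_lit 0, nat_lit 3, nat_lit 0x47⟩ (.nil) (.nil)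
def t14_13482 : Tr := .node ⟨nat_lit 7, nat_lit 0x40001000100020, nat_lit 3, nat_lit 4, nat_lit 4, nat_lit 0x48⟩ (.nil) (.nil)
def t14_3242 : Tr := .node ⟨nat_lit 8, nat_lit 0x800080002000c0, nat_lit 0x111102, nat_lit 0, nat_lit 4, nat_lit 0x49⟩ (.nil) (.nil)
def t14_11434 : Tr := .node ⟨nat_lit 6, nat_lit 0x10001000200020, nat_lit 0x110010, nat_lit 0, nat_lit 3, nat_lit 0x46⟩ (.nil) (.nil)
def t14_7338 : Tr := .node ⟨nat_lit 7, nat_lit 0x4000200020, nat_lit 0x1131011, nat_lit 0, nat_lit 4, nat_lit 0x4b⟩ (.nil) (.nil)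
def t14_15530 : Tr := .node ⟨nat_lit 9, nat_lit 0x1000100, nat_lit 0x21111110, nat_lit 0, nat_lit 4, nat_lit 0x4e⟩ (.nil) (.nil)
def t14_682 : Tr := .node ⟨nat_lit 4, nat_lit 0x8000c, nat_lit 0x32, nat_lit 5, nat_lit 4, nat_lit 0x45⟩ (.nil) (.nil)
def t14_8874 : Tr := .node ⟨nat_lit 9, nat_lit 0x8000400100010001080108, nat_lit 0x1011021, nat_lit 1, nat_lit 4, nat_lit 0x49⟩ (.nil) (.nil)
def t14_4778 : Tr := .node ⟨nat_lit 8, nat_lit 0x8000400020002000c0, nat_lit 0x1021002, nat_lit 0, nat_lit 4, nat_lit 0x48⟩ (.nil) (.nil)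
def t14_12970 : Tr := .node ⟨nat_lit 8, nat_lit 0x200080001000c4, nat_lit 0x301, nat_lit 1, nat_lit 4, nat_lit 0x48⟩ (.nil) (.nil)
def t14_2730 : Tr := .node ⟨nat_lit 6, nat_lit 0x2000300030, nat_lit 0x2120, nat_lit 3, nat_lit 4, nat_lit 0x47⟩ (.nil) (.nil)
def t14_10922 : Tr := .node ⟨nat_lit 8, nat_lit 0x40004000a000c000d0, nat_lit 0x12022, nat_lit 0, nat_lit 4, nat_lit 0x47⟩ (.nil) (.nil)
def t14_6826 : Tr := .node ⟨nat_lit 6, nat_lit 0x200030, nat_lit 0x11120, nat_lit 6, nat_lit 4, nat_lit 0x49⟩ (.nil) (.nil)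
def t14_15018 : Tr := .node ⟨nat_lit 0xa, nat_lit 0x100020002000200008002200220, nat_lit 0x110011, nat_lit 3, nat_lit 4, nat_lit 0x4a⟩ (.nil) (.nil)
def t14_1706 : Tr := .node ⟨nat_lit 7, nat_lit 0x40002000600068, nat_lit 0x12230, nat_lit 0, nat_lit 4, nat_lit 0x47⟩ (.nil) (.nil)
def t14_9898 : Tr := .node ⟨nat_lit 5, nat_lit 0x1000180018, nat_lit 0x1220, nat_lit 0xa, nat_lit 4, nat_lit 0x47⟩ (.nil) (.nil)
def t14_5802 : Tr := .node ⟨nat_lit 7, nat_lit 0x2000400060, nat_lit 0x1011211, nat_lit 1, nat_lit 4, nat_lit 0x49⟩ (.nil) (.nil)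
def t14_13994 : Tr := .node ⟨nat_lit 5, nat_lit 0x100008, nat_lit 0x1123, nat_lit 3, nat_lit 4, nat_lit 0x48⟩ (.nil) (.nil)
def t14_3754 : Tr := .node ⟨nat_lit 7, nat_lit 0x4000500060, nat_lit 0x21200, nat_lit 1, nat_lit 3, nat_lit 0x47⟩ (.nil) (.nil)
def t14_11946 : Tr := .node ⟨nat_lit 4, nat_lit 0x80004, nat_lit 0x3011, nat_lit 3, nat_lit 3, nat_lit 0x46⟩ (.nil) (.nil)
def t14_7850 : Tr := .node ⟨nat_lit 7, nat_lit 0x2000400010, nat_lit 0x1111010, nat_lit 0, nat_lit 3, nat_lit 0x48⟩ (.nil) (.nil)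
def t9_170 : Tr := .node ⟨nat_lit 5, nat_lit 0, nat_lit 0x32221, nat_lit 0, nat_lit 4, nat_lit 0x4b⟩ (.node ⟨nat_lit 6, nat_lit 0x200034002c, nat_lit 0x301112, nat_lit 3, nat_lit 4, nat_lit 0x48⟩ (.node ⟨nat_lit 6, nat_lit 0x800200030, nat_lit 2, nat_lit 0, nat_lit 3, nat_lit 0x44⟩ (.node ⟨nat_lit 6, nat_lit 0x1000200030, nat_lit 0x2001, nat_lit 2, nat_lit 4, nat_lit 0x46⟩ (.node ⟨nat_lit 6, nat_lit 0x10001000200022, nat_lit 0x202130, nat_lit 0, nat_lit 4, nat_lit 0x48⟩ (t14_170) (t14_8362)) (.node ⟨nat_lit 5, nat_lit 0x40018, nat_lit 0x20020, nat_lit 2, nat_lit 4, nat_lit 0x46⟩ (t14_4266) (t14_12458))) (.node ⟨nat_lit 6, nat_lit 0x2000080030, nat_lit 0x122023, nat_lit 0, nat_lit 4, nat_lit 0x49⟩ (.node ⟨nat_lit 6, nat_lit 0x2000300038, nat_lit 0x1203, nat_lit 3, nat_lit 4, nat_lit 0x46⟩ (t14_2218) (t14_10410)) (.node ⟨nat_lit 5, nat_lit 0x100018001c,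 nat_lit 0x10222, nat_lit 6, nat_lit 4, nat_lit 0x46⟩ (t14_6314) (t14_14506)))) (.node ⟨nat_lit 6, nat_lit 0x100020, nat_lit 0x211111, nat_lit 0, nat_lit 4, nat_lit 0x49⟩ (.node ⟨nat_lit 6, nat_lit 0x1000200030, nat_lit 0x101210, nat_lit 1, nat_lit 3, nat_lit 0x46⟩ (.node ⟨nat_lit 4, nat_lit 0x40008, nat_lit 0x1124, nat_lit 2, nat_lit 3, nat_lit 0x46⟩ (t14_1194) (t14_9386)) (.node ⟨nat_lit 7, nat_lit 0x40004800300060, nat_lit 0x1112112, nat_lit 0, nat_lit 4, nat_lit 0x48⟩ (t14_5290) (t14_13482))) (.node ⟨nat_lit 3, nat_lit 0x40004, nat_lit 0x121, nat_lit 5, nat_lit 4, nat_lit 0x45⟩ (.node ⟨nat_lit 5, nat_lit 0x40018, nat_lit 0x10101, nat_lit 6, nat_lit 4, nat_lit 0x47⟩ (t14_3242) (t14_11434)) (.node ⟨nat_lit 8, nat_lit 0x4000800060009000e000d0, nat_lit 0x11010102, nat_lit 0, nat_lit 4, nat_lit 0x46⟩ (t14_7338) (t14_15530))))) (.node ⟨nat_lit 6,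 nat_lit 0x80030, nat_lit 0x301112, nat_lit 0, nat_lit 4, nat_lit 0x49⟩ (.node ⟨nat_lit 5, nat_lit 0x18, nat_lit 0x21113, nat_lit 0, nat_lit 4, nat_lit 0x48⟩ (.node ⟨nat_lit 7, nat_lit 0x4000200020, nat_lit 0x21010, nat_lit 1, nat_lit 4, nat_lit 0x49⟩ (.node ⟨nat_lit 5, nat_lit 0x100018, nat_lit 0x21103, nat_lit 2, nat_lit 4, nat_lit 0x48⟩ (t14_682) (t14_8874)) (.node ⟨nat_lit 7, nat_lit 0x400040007000700068, nat_lit 0x1012210, nat_lit 1, nat_lit 4, nat_lit 0x46⟩ (t14_4778) (t14_12970))) (.node ⟨nat_lit 5, nat_lit 0x180018, nat_lit 0x10111, nat_lit 2, nat_lit 4, nat_lit 0x45⟩ (.node ⟨nat_lit 7, nat_lit 0x40004000200020, nat_lit 0x102130, nat_lit 0, nat_lit 4, nat_lit 0x49⟩ (t14_2730) (t14_10922)) (.node ⟨nat_lit 7, nat_lit 0x200040004000300048, nat_lit 0x1111020, nat_lit 0, nat_lit 4, nat_lit 0x47⟩ (t14_6826) (t14_15018)))) (.node ⟨nat_lit 6, nat_lit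 0x200030, nat_lit 0x111131, nat_lit 0, nat_lit 4, nat_lit 0x49⟩ (.node ⟨nat_lit 5, nat_lit 0x800100018, nat_lit 0x21121, nat_lit 1, nat_lit 3, nat_lit 0x46⟩ (.node ⟨nat_lit 7, nat_lit 0x800600050, nat_lit 0x10013, nat_lit 1, nat_lit 4, nat_lit 0x47⟩ (t14_1706) (t14_9898)) (.node ⟨nat_lit 7, nat_lit 0x2000400060, nat_lit 0x22200, nat_lit 1, nat_lit 4, nat_lit 0x49⟩ (t14_5802) (t14_13994))) (.node ⟨nat_lit 6, nat_lit 0x800300030, nat_lit 0x2010, nat_lit 0, nat_lit 4, nat_lit 0x45⟩ (.node ⟨nat_lit 6, nat_lit 0x1000280030, nat_lit 0x100130, nat_lit 2, nat_lit 4, nat_lit 0x46⟩ (t14_3754) (t14_11946)) (.node ⟨nat_lit 6, nat_lit 0x2000300030, nat_lit 0x101221, nat_lit 4, nat_lit 4, nat_lit 0x48⟩ (t14_7850) (.nil)))))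
def t14_426 : Tr := .node ⟨nat_lit 7, nat_lit 0x4000600060, nat_lit 0x1011210, nat_lit 3, nat_lit 4, nat_lit 0x49⟩ (.nil) (.nil)
def t14_8618 : Tr := .node ⟨nat_lit 8, nat_lit 0x2000800040008800c4, nat_lit 0x1110, nat_lit 0, nat_lit 4, nat_lit 0x46⟩ (.nil) (.nil)
def t14_4522 : Tr := .node ⟨nat_lit 8, nat_lit 0x80004000880088, nat_lit 0x11111021, nat_lit 1, nat_lit 4, nat_lit 0x4a⟩ (.nil) (.nil)
def t14_12714 : Tr := .node ⟨nat_lit 7, nat_lit 0x40001000100060, nat_lit 0x1003100, nat_lit 1, nat_lit 4, nat_lit 0x48⟩ (.nil) (.nil)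
def t14_2474 : Tr := .node ⟨nat_lit 8, nat_lit 0x4000c000c000a0, nat_lit 0x112210, nat_lit 0, nat_lit 4, nat_lit 0x48⟩ (.nil) (.nil)
def t14_10666 : Tr := .node ⟨nat_lit 6, nat_lit 0x800200030, nat_lit 0x10010, nat_lit 2, nat_lit 4, nat_lit 0x46⟩ (.nil) (.nil)
def t14_6570 : Tr := .node ⟨nat_lit 7, nat_lit 0x4000100060, nat_lit 0x11110, nat_lit 1, nat_lit 4, nat_lit 0x48⟩ (.nil) (.nil)
def t14_14762 : Tr := .node ⟨nat_lit 8, nat_lit 0x2000c000a00030, nat_lit 0x11001121, nat_lit 0, nat_lit 4, nat_lit 0x48⟩ (.nil) (.nil)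
def t14_1450 : Tr := .node ⟨nat_lit 9, nat_lit 0x80010000c0012001c001c001a0, nat_lit 0x10201111, nat_lit 0, nat_lit 4, nat_lit 0x46⟩ (.nil) (.nil)
def t14_9642 : Tr := .node ⟨nat_lit 7, nat_lit 0x40001000600070, nat_lit 0x101122, nat_lit 0, nat_lit 4, nat_lit 0x46⟩ (.nil) (.nil)
def t14_5546 : Tr := .node ⟨nat_lit 7, nat_lit 0x4000400044, nat_lit 0x111311, nat_lit 0, nat_lit 4, nat_lit 0x4a⟩ (.nil) (.nil)
def t14_13738 : Tr := .node ⟨nat_lit 7, nat_lit 0x4000100060, nat_lit 0x1210, nat_lit 2, nat_lit 4, nat_lit 0x48⟩ (.nil) (.nil)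
def t14_3498 : Tr := .node ⟨nat_lit 6, nat_lit 0x10002000200030, nat_lit 0x301, nat_lit 0, nat_lit 3, nat_lit 0x45⟩ (.nil) (.nil)
def t14_11690 : Tr := .node ⟨nat_lit 9, nat_lit 0x4001000100018801900190, nat_lit 0x100001210, nat_lit 1, nat_lit 4, nat_lit 0x47⟩ (.nil) (.nil)
def t14_7594 : Tr := .node ⟨nat_lit 6, nat_lit 0x800280030, nat_lit 0x110, nat_lit 0, nat_lit 4, nat_lit 0x44⟩ (.nil) (.nil)
def t14_938 : Tr := .node ⟨nat_lit 6, nat_lit 0x20001000100028, nat_lit 0x102221, nat_lit 1, nat_lit 4, nat_lit 0x47⟩ (.nil) (.nil)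
def t14_9130 : Tr := .node ⟨nat_lit 8, nat_lit 0x80008000a0009000c000e0, nat_lit 0x1010121, nat_lit 3, nat_lit 4, nat_lit 0x47⟩ (.nil) (.nil)
def t14_5034 : Tr := .node ⟨nat_lit 7, nat_lit 0x20006000500050, nat_lit 0x11141, nat_lit 0, nat_lit 4, nat_lit 0x47⟩ (.nil) (.nil)
def t14_13226 : Tr := .node ⟨nat_lit 6, nat_lit 0x800080030, nat_lit 0x200003, nat_lit 2, nat_lit 4, nat_lit 0x47⟩ (.nil) (.nil)
def t14_2986 : Tr := .node ⟨nat_lit 8, nat_lit 0x20001000a000c0, nat_lit 0x1010022, nat_lit 0, nat_lit 4, nat_lit 0x48⟩ (.nil) (.nil)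
def t14_11178 : Tr := .node ⟨nat_lit 6, nat_lit 0x1000280034, nat_lit 0x12101, nat_lit 1, nat_lit 4, nat_lit 0x46⟩ (.nil) (.nil)
def t14_7082 : Tr := .node ⟨nat_lit 7, nat_lit 0x40002000480030, nat_lit 0x1011201, nat_lit 0, nat_lit 4, nat_lit 0x47⟩ (.nil) (.nil)
def t14_15274 : Tr := .node ⟨nat_lit 7, nat_lit 0x1000600070, nat_lit 0x1011212, nat_lit 0, nat_lit 4, nat_lit 0x48⟩ (.nil) (.nil)
def t14_1962 : Tr := .node ⟨nat_lit 5, nat_lit 0x800100018, nat_lit 0x2122, nat_lit 3, nat_lit 4, nat_lit 0x47⟩ (.nil) (.nil)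
def t14_10154 : Tr := .node ⟨nat_lit 7, nat_lit 0x800500060, nat_lit 0x201, nat_lit 0, nat_lit 4, nat_lit 0x46⟩ (.nil) (.nil)
def t14_6058 : Tr := .node ⟨nat_lit 8, nat_lit 0x8000800084, nat_lit 0x2111020, nat_lit 0, nat_lit 4, nat_lit 0x4b⟩ (.nil) (.nil)
def t14_14250 : Tr := .node ⟨nat_lit 7, nat_lit 0x20005000600060, nat_lit 0x11011, nat_lit 0, nat_lit 4, nat_lit 0x46⟩ (.nil) (.nil)
def t14_4010 : Tr := .node ⟨nat_lit 8, nat_lit 0x40008000a000c800c8, nat_lit 0x10101121, nat_lit 0, nat_lit 4, nat_lit 0x47⟩ (.nil) (.nil)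
def t14_12202 : Tr := .node ⟨nat_lit 8, nat_lit 0x400080008000c000c8, nat_lit 0x111020, nat_lit 3, nat_lit 4, nat_lit 0x48⟩ (.nil) (.nil)
def t14_8106 : Tr := .node ⟨nat_lit 7, nat_lit 0x400020002000280050, nat_lit 0x1001130, nat_lit 2, nat_lit 4, nat_lit 0x47⟩ (.nil) (.nil)
def t9_426 : Tr := .node ⟨nat_lit 5, nat_lit 0x18, nat_lit 0x21311, nat_lit 5, nat_lit 4, nat_lit 0x4a⟩ (.node ⟨nat_lit 5, nat_lit 0x10, nat_lit 0x3113, nat_lit 0, nat_lit 4, nat_lit 0x49⟩ (.node ⟨nat_lit 5, nat_lit 0x100008, nat_lit 0x22220, nat_lit 1, nat_lit 3, nat_lit 0x48⟩ (.node ⟨nat_lit 5, nat_lit 0x40018, nat_lit 0x10012, nat_lit 0, nat_lit 3, nat_lit 0x44⟩ (.node ⟨nat_lit 7, nat_lit 0x40005000680068, nat_lit 0x2000120, nat_lit 1, nat_lit 4, nat_lit 0x46⟩ (t14_426) (t14_8618)) (.node ⟨nat_lit 4, nat_lit 0x8000c, nat_lit 0x1222, nat_lit 9, nat_lit 4, nat_lit 0x48⟩ (t14_4522)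 (t14_12714))) (.node ⟨nat_lit 2, nat_lit 2, nat_lit 0x23, nat_lit 0xd, nat_lit 4, nat_lit 0x47⟩ (.node ⟨nat_lit 5, nat_lit 0x180018, nat_lit 0x11110, nat_lit 0, nat_lit 3, nat_lit 0x45⟩ (t14_2474) (t14_10666)) (.node ⟨nat_lit 6, nat_lit 0x10001000200030, nat_lit 0x102221, nat_lit 4, nat_lit 4, nat_lit 0x48⟩ (t14_6570) (t14_14762)))) (.node ⟨nat_lit 5, nat_lit 0x40018, nat_lit 0x20001, nat_lit 1, nat_lit 4, nat_lit 0x45⟩ (.node ⟨nat_lit 7, nat_lit 0x4000400020, nat_lit 0x221101, nat_lit 3, nat_lit 4, nat_lit 0x4b⟩ (.node ⟨nat_lit 7, nat_lit 0x4000200020, nat_lit 0x11000, nat_lit 1, nat_lit 4, nat_lit 0x48⟩ (t14_1450) (t14_9642)) (.node ⟨nat_lit 5, nat_lit 0x100018, nat_lit 0x11212, nat_lit 8, nat_lit 4, nat_lit 0x49⟩ (t14_5546) (t14_13738))) (.node ⟨nat_lit 7, nat_lit 0x20004000600068, nat_lit 0x111211, nat_lit 0, nat_lit 4, nat_lit 0x47⟩ (.node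 ⟨nat_lit 5, nat_lit 0x140018, nat_lit 0x1100, nat_lit 3, nat_lit 4, nat_lit 0x45⟩ (t14_3498) (t14_11690)) (.node ⟨nat_lit 7, nat_lit 0x20004000440060, nat_lit 0x1112101, nat_lit 3, nat_lit 4, nat_lit 0x49⟩ (t14_7594) (.nil))))) (.node ⟨nat_lit 6, nat_lit 0x280030, nat_lit 0x200310, nat_lit 1, nat_lit 4, nat_lit 0x48⟩ (.node ⟨nat_lit 5, nat_lit 0x80010, nat_lit 0x22110, nat_lit 1, nat_lit 4, nat_lit 0x48⟩ (.node ⟨nat_lit 6, nat_lit 0x20002000100028, nat_lit 0x111111, nat_lit 5, nat_lit 4, nat_lit 0x48⟩ (.node ⟨nat_lit 8, nat_lit 0xc0, nat_lit 0x21111110, nat_lit 0, nat_lit 4, nat_lit 0x4d⟩ (t14_938) (t14_9130)) (.node ⟨nat_lit 6, nat_lit 0x10002000240018, nat_lit 0x212000, nat_lit 1, nat_lit 4, nat_lit 0x47⟩ (t14_5034) (t14_13226))) (.node ⟨nat_lit 6, nat_lit 0x300030, nat_lit 0x112120, nat_lit 0, nat_lit 4, nat_lit 0x48⟩ (.node ⟨nat_lit 5, nat_lit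 0x18, nat_lit 0x11112, nat_lit 7, nat_lit 4, nat_lit 0x49⟩ (t14_2986) (t14_11178)) (.node ⟨nat_lit 8, nat_lit 0x80008000c000c8, nat_lit 0x1111022, nat_lit 0, nat_lit 4, nat_lit 0x49⟩ (t14_7082) (t14_15274)))) (.node ⟨nat_lit 4, nat_lit 0x40008, nat_lit 0x1212, nat_lit 4, nat_lit 4, nat_lit 0x47⟩ (.node ⟨nat_lit 7, nat_lit 0x40004800600030, nat_lit 0x1021111, nat_lit 3, nat_lit 4, nat_lit 0x48⟩ (.node ⟨nat_lit 5, nat_lit 0x10001c, nat_lit 0x11013, nat_lit 6, nat_lit 4, nat_lit 0x47⟩ (t14_1962) (t14_10154)) (.node ⟨nat_lit 6, nat_lit 0x3000300030, nat_lit 0x2200, nat_lit 0, nat_lit 3, nat_lit 0x44⟩ (t14_6058) (t14_14250))) (.node ⟨nat_lit 5, nat_lit 0x1000100010, nat_lit 0x3111, nat_lit 5, nat_lit 4, nat_lit 0x48⟩ (.node ⟨nat_lit 6, nat_lit 0x2000300038, nat_lit 0x1002, nat_lit 3, nat_lit 4, nat_lit 0x45⟩ (t14_4010) (t14_12202)) (.node ⟨nat_lit 8,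 nat_lit 0x80008000400040009000a0, nat_lit 0x1112110, nat_lit 1, nat_lit 4, nat_lit 0x48⟩ (t14_8106) (.nil)))))
def t14_106 : Tr := .node ⟨nat_lit 7, nat_lit 0x20004000100060, nat_lit 0x1021101, nat_lit 1, nat_lit 4, nat_lit 0x48⟩ (.nil) (.nil)
def t14_8298 : Tr := .node ⟨nat_lit 6, nat_lit 0x1000280030, nat_lit 0x200, nat_lit 1, nat_lit 4, nat_lit 0x45⟩ (.nil) (.nil)
def t14_4202 : Tr := .node ⟨nat_lit 8, nat_lit 0x80004000400040005000a0, nat_lit 0x10112001, nat_lit 0, nat_lit 4, nat_lit 0x48⟩ (.nil) (.nil)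
def t14_12394 : Tr := .node ⟨nat_lit 7, nat_lit 0x10004000640058, nat_lit 0x10110, nat_lit 0, nat_lit 4, nat_lit 0x45⟩ (.nil) (.nil)
def t14_2154 : Tr := .node ⟨nat_lit 7, nat_lit 0x20004000100044, nat_lit 0x20202, nat_lit 1, nat_lit 4, nat_lit 0x48⟩ (.nil) (.nil)
def t14_10346 : Tr := .node ⟨nat_lit 6, nat_lit 0x1000280034, nat_lit 0x12102, nat_lit 1, nat_lit 4, nat_lit 0x46⟩ (.nil) (.nil)
def t14_6250 : Tr := .node ⟨nat_lit 5, nat_lit 0x100018, nat_lit 0x11111, nat_lit 7, nat_lit 4, nat_lit 0x48⟩ (.nil) (.nil)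
def t14_14442 : Tr := .node ⟨nat_lit 8, nat_lit 0x400040004000800080, nat_lit 0x11121, nat_lit 0, nat_lit 4, nat_lit 0x49⟩ (.nil) (.nil)
def t14_1130 : Tr := .node ⟨nat_lit 7, nat_lit 0x4000440030, nat_lit 0x111201, nat_lit 0, nat_lit 4, nat_lit 0x48⟩ (.nil) (.nil)
def t14_9322 : Tr := .node ⟨nat_lit 8, nat_lit 0x40009000a000c0, nat_lit 0x100212, nat_lit 0, nat_lit 4, nat_lit 0x47⟩ (.nil) (.nil)
def t14_5226 : Tr := .node ⟨nat_lit 8, nat_lit 0x80008000400040004000a0, nat_lit 0x201101, nat_lit 1, nat_lit 4, nat_lit 0x48⟩ (.nil) (.nil)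
def t14_13418 : Tr := .node ⟨nat_lit 8, nat_lit 0x800020009000c00060, nat_lit 0x23010, nat_lit 0, nat_lit 4, nat_lit 0x47⟩ (.nil) (.nil)
def t14_3178 : Tr := .node ⟨nat_lit 8, nat_lit 0x80009000c0006000d0, nat_lit 0x10110211, nat_lit 0, nat_lit 4, nat_lit 0x47⟩ (.nil) (.nil)
def t14_11370 : Tr := .node ⟨nat_lit 6, nat_lit 0x80030, nat_lit 0x100200, nat_lit 2, nat_lit 3, nat_lit 0x47⟩ (.nil) (.nil)
def t14_7274 : Tr := .node ⟨nat_lit 7, nat_lit 0x400020002000200050, nat_lit 0x2012001, nat_lit 1, nat_lit 4, nat_lit 0x48⟩ (.nil) (.nil)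
def t14_15466 : Tr := .node ⟨nat_lit 5, nat_lit 0x800080010, nat_lit 0x10101, nat_lit 0x10, nat_lit 4, nat_lit 0x49⟩ (.nil) (.nil)
def t14_618 : Tr := .node ⟨nat_lit 8, nat_lit 0x200080004000c0, nat_lit 0x20022, nat_lit 1, nat_lit 4, nat_lit 0x49⟩ (.nil) (.nil)
def t14_8810 : Tr := .node ⟨nat_lit 7, nat_lit 0x40004000480048, nat_lit 0x111041, nat_lit 2, nat_lit 4, nat_lit 0x49⟩ (.nil) (.nil)
def t14_4714 : Tr := .node ⟨nat_lit 7, nat_lit 0x400060, nat_lit 0x111002, nat_lit 0, nat_lit 4, nat_lit 0x49⟩ (.nil) (.nil)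
def t14_12906 : Tr := .node ⟨nat_lit 7, nat_lit 0x40001000100060, nat_lit 0x2100001, nat_lit 1, nat_lit 3, nat_lit 0x47⟩ (.nil) (.nil)
def t14_2666 : Tr := .node ⟨nat_lit 5, nat_lit 0x40018, nat_lit 0x204, nat_lit 0, nat_lit 4, nat_lit 0x45⟩ (.nil) (.nil)
def t14_10858 : Tr := .node ⟨nat_lit 9, nat_lit 0x1000080008000800140019001a0, nat_lit 0x2011020, nat_lit 1, nat_lit 4, nat_lit 0x47⟩ (.nil) (.nil)
def t14_6762 : Tr := .node ⟨nat_lit 6, nat_lit 0xc0030, nat_lit 0x112002, nat_lit 2, nat_lit 4, nat_lit 0x48⟩ (.nil) (.nil)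
def t14_14954 : Tr := .node ⟨nat_lit 7, nat_lit 0x40001000600060, nat_lit 0x101021, nat_lit 1, nat_lit 4, nat_lit 0x47⟩ (.nil) (.nil)
def t14_1642 : Tr := .node ⟨nat_lit 6, nat_lit 0x2000300034, nat_lit 0x1221, nat_lit 2, nat_lit 4, nat_lit 0x46⟩ (.nil) (.nil)
def t14_9834 : Tr := .node ⟨nat_lit 8, nat_lit 0x2000c000c0006000a0, nat_lit 0x22002, nat_lit 0, nat_lit 4, nat_lit 0x46⟩ (.nil) (.nil)
def t14_5738 : Tr := .node ⟨nat_lit 6, nat_lit 0x200030, nat_lit 0x11122, nat_lit 4, nat_lit 4, nat_lit 0x49⟩ (.nil) (.nil)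
def t14_13930 : Tr := .node ⟨nat_lit 6, nat_lit 0x800200030, nat_lit 0x10120, nat_lit 0, nat_lit 4, nat_lit 0x46⟩ (.nil) (.nil)
def t14_3690 : Tr := .node ⟨nat_lit 6, nat_lit 0x2800180030, nat_lit 0x210011, nat_lit 0, nat_lit 4, nat_lit 0x46⟩ (.nil) (.nil)
def t14_11882 : Tr := .node ⟨nat_lit 5, nat_lit 0x100008, nat_lit 0x30103, nat_lit 0, nat_lit 3, nat_lit 0x47⟩ (.nil) (.nil)
def t14_7786 : Tr := .node ⟨nat_lit 9, nat_lit 0x80010001000100012000c001a0, nat_lit 0x2010002, nat_lit 1, nat_lit 4, nat_lit 0x47⟩ (.nil) (.nil)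
def t9_106 : Tr := .node ⟨nat_lit 5, nat_lit 0x18, nat_lit 0x11111, nat_lit 0, nat_lit 3, nat_lit 0x46⟩ (.node ⟨nat_lit 4, nat_lit 0x8000a, nat_lit 0x1322, nat_lit 7, nat_lit 4, nat_lit 0x48⟩ (.node ⟨nat_lit 6, nat_lit 0x800300030, nat_lit 0x103220, nat_lit 0, nat_lit 4, nat_lit 0x48⟩ (.node ⟨nat_lit 5, nat_lit 0x1000080018, nat_lit 0x1011, nat_lit 1, nat_lit 3, nat_lit 0x44⟩ (.node ⟨nat_lit 8, nat_lit 0x800080004000200090, nat_lit 0x1200120, nat_lit 4, nat_lit 4, nat_lit 0x4a⟩ (t14_106) (t14_8298)) (.node ⟨nat_lit 7, nat_lit 0x1000400060, nat_lit 0x2020, nat_lit 0, nat_lit 4, nat_lit 0x48⟩ (t14_4202) (t14_12394))) (.node ⟨nat_lit 7, nat_lit 0x40001000200020, nat_lit 0x120111, nat_lit 0, nat_lit 4, nat_lit 0x49⟩ (.node ⟨nat_lit 7, nat_lit 0x40001000600050, nat_lit 0x12103, nat_lit 3, nat_lit 4, nat_lit 0x48⟩ (t14_2154) (t14_10346)) (.node ⟨nat_lit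 6, nat_lit 0x2000100024, nat_lit 0x12022, nat_lit 0, nat_lit 4, nat_lit 0x47⟩ (t14_6250) (t14_14442)))) (.node ⟨nat_lit 7, nat_lit 0x4000200020, nat_lit 0x22020, nat_lit 2, nat_lit 4, nat_lit 0x4a⟩ (.node ⟨nat_lit 7, nat_lit 0x400060, nat_lit 0x2111111, nat_lit 1, nat_lit 4, nat_lit 0x4b⟩ (.node ⟨nat_lit 7, nat_lit 0x20004000400010, nat_lit 0x1103110, nat_lit 0, nat_lit 4, nat_lit 0x49⟩ (t14_1130) (t14_9322)) (.node ⟨nat_lit 7, nat_lit 0x4000600060, nat_lit 0x1021121, nat_lit 1, nat_lit 4, nat_lit 0x49⟩ (t14_5226) (t14_13418))) (.node ⟨nat_lit 7, nat_lit 0x400020, nat_lit 0x122100, nat_lit 0, nat_lit 4, nat_lit 0x4b⟩ (.node ⟨nat_lit 6, nat_lit 0x240038, nat_lit 0x121003, nat_lit 3, nat_lit 4, nat_lit 0x48⟩ (t14_3178) (t14_11370)) (.node ⟨nat_lit 6, nat_lit 0x2000100024, nat_lit 0x112112, nat_lit 1, nat_lit 4, nat_lit 0x48⟩ (t14_7274) (t14_15466)))))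 (.node ⟨nat_lit 5, nat_lit 0x1000080014, nat_lit 0x13120, nat_lit 2, nat_lit 4, nat_lit 0x48⟩ (.node ⟨nat_lit 7, nat_lit 0x40001000100068, nat_lit 0x2002101, nat_lit 1, nat_lit 4, nat_lit 0x48⟩ (.node ⟨nat_lit 5, nat_lit 0x100018, nat_lit 0x2102, nat_lit 4, nat_lit 4, nat_lit 0x47⟩ (.node ⟨nat_lit 7, nat_lit 0x400060, nat_lit 0x2011120, nat_lit 1, nat_lit 4, nat_lit 0x4b⟩ (t14_618) (t14_8810)) (.node ⟨nat_lit 7, nat_lit 0x40001000100060, nat_lit 0x1112201, nat_lit 1, nat_lit 4, nat_lit 0x49⟩ (t14_4714) (t14_12906))) (.node ⟨nat_lit 4, nat_lit 0x8000c, nat_lit 0x113, nat_lit 4, nat_lit 4, nat_lit 0x45⟩ (.node ⟨nat_lit 8, nat_lit 0x100040008000e0, nat_lit 0x10200013, nat_lit 1, nat_lit 4, nat_lit 0x49⟩ (t14_2666) (t14_10858)) (.node ⟨nat_lit 5, nat_lit 0x180018, nat_lit 0x11122, nat_lit 6, nat_lit 3, nat_lit 0x46⟩ (t14_6762) (t14_14954)))) (.node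 ⟨nat_lit 6, nat_lit 0x200010, nat_lit 0x21121, nat_lit 0, nat_lit 4, nat_lit 0x49⟩ (.node ⟨nat_lit 5, nat_lit 0x18, nat_lit 0x20111, nat_lit 7, nat_lit 4, nat_lit 0x49⟩ (.node ⟨nat_lit 6, nat_lit 0x2000100024, nat_lit 0x1001, nat_lit 1, nat_lit 4, nat_lit 0x45⟩ (t14_1642) (t14_9834)) (.node ⟨nat_lit 6, nat_lit 0x20001000280034, nat_lit 0x121210, nat_lit 5, nat_lit 4, nat_lit 0x48⟩ (t14_5738) (t14_13930))) (.node ⟨nat_lit 6, nat_lit 0x80030, nat_lit 0x201102, nat_lit 4, nat_lit 4, nat_lit 0x49⟩ (.node ⟨nat_lit 7, nat_lit 0x4000100060, nat_lit 0x1011000, nat_lit 0, nat_lit 4, nat_lit 0x48⟩ (t14_3690) (t14_11882)) (.node ⟨nat_lit 4, nat_lit 0xc, nat_lit 0x1111, nat_lit 7, nat_lit 4, nat_lit 0x47⟩ (t14_7786) (.nil)))))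
def t14_362 : Tr := .node ⟨nat_lit 6, nat_lit 0x10001000100020, nat_lit 0x112113, nat_lit 0, nat_lit 3, nat_lit 0x47⟩ (.nil) (.nil)
def t14_8554 : Tr := .node ⟨nat_lit 6, nat_lit 0x20002800300038, nat_lit 0x1202, nat_lit 4, nat_lit 4, nat_lit 0x45⟩ (.nil) (.nil)
def t14_4458 : Tr := .node ⟨nat_lit 7, nat_lit 0x40002000100048, nat_lit 0x1112002, nat_lit 2, nat_lit 4, nat_lit 0x49⟩ (.nil) (.nil)
def t14_12650 : Tr := .node ⟨nat_lit 9, nat_lit 0x100010001080180, nat_lit 0x1112100, nat_lit 0, nat_lit 4, nat_lit 0x4b⟩ (.nil) (.nil)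
def t14_2410 : Tr := .node ⟨nat_lit 7, nat_lit 0x10002000500060, nat_lit 0x100202, nat_lit 1, nat_lit 4, nat_lit 0x47⟩ (.nil) (.nil)
def t14_10602 : Tr := .node ⟨nat_lit 5, nat_lit 0x1000140018, nat_lit 0x102, nat_lit 6, nat_lit 4, nat_lit 0x45⟩ (.nil) (.nil)
def t14_6506 : Tr := .node ⟨nat_lit 6, nat_lit 0x2000080034, nat_lit 0x111111, nat_lit 4, nat_lit 4, nat_lit 0x48⟩ (.nil) (.nil)
def t14_14698 : Tr := .node ⟨nat_lit 9, nat_lit 0x8000800100010000a0011001c0, nat_lit 0x1011011, nat_lit 2, nat_lit 4, nat_lit 0x47⟩ (.nil) (.nil)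
def t14_1386 : Tr := .node ⟨nat_lit 6, nat_lit 0x800300030, nat_lit 0x1310, nat_lit 1, nat_lit 4, nat_lit 0x46⟩ (.nil) (.nil)
def t14_9578 : Tr := .node ⟨nat_lit 6, nat_lit 0x20001000300038, nat_lit 0x2120, nat_lit 5, nat_lit 4, nat_lit 0x46⟩ (.nil) (.nil)
def t14_5482 : Tr := .node ⟨nat_lit 7, nat_lit 0x10001800600060, nat_lit 0x11031, nat_lit 0, nat_lit 4, nat_lit 0x46⟩ (.nil) (.nil)
def t14_13674 : Tr := .node ⟨nat_lit 6, nat_lit 0x2000080030, nat_lit 0x2210, nat_lit 4, nat_lit 4, nat_lit 0x48⟩ (.nil) (.nil)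
def t14_3434 : Tr := .node ⟨nat_lit 8, nat_lit 0x200040008000840060, nat_lit 0x20000101, nat_lit 0, nat_lit 4, nat_lit 0x48⟩ (.nil) (.nil)
def t14_11626 : Tr := .node ⟨nat_lit 9, nat_lit 0x100008000a00140014001800180, nat_lit 0x1211010, nat_lit 0, nat_lit 4, nat_lit 0x47⟩ (.nil) (.nil)
def t14_7530 : Tr := .node ⟨nat_lit 6, nat_lit 0x20001000100030, nat_lit 0x2103, nat_lit 5, nat_lit 4, nat_lit 0x47⟩ (.nil) (.nil)
def t14_874 : Tr := .node ⟨nat_lit 7, nat_lit 0x20004000400060, nat_lit 0x112220, nat_lit 0, nat_lit 4, nat_lit 0x49⟩ (.nil) (.nil)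
def t14_9066 : Tr := .node ⟨nat_lit 7, nat_lit 0x20005000600060, nat_lit 0x11221, nat_lit 2, nat_lit 4, nat_lit 0x47⟩ (.nil) (.nil)
def t14_4970 : Tr := .node ⟨nat_lit 6, nat_lit 0x2000300028, nat_lit 0x11301, nat_lit 5, nat_lit 4, nat_lit 0x48⟩ (.nil) (.nil)
def t14_13162 : Tr := .node ⟨nat_lit 6, nat_lit 0x2000340038, nat_lit 0x103, nat_lit 4, nat_lit 4, nat_lit 0x45⟩ (.nil) (.nil)
def t14_2922 : Tr := .node ⟨nat_lit 6, nat_lit 0x20002000100030, nat_lit 0x3110, nat_lit 0, nat_lit 3, nat_lit 0x45⟩ (.nil) (.nil)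
def t14_11114 : Tr := .node ⟨nat_lit 7, nat_lit 0x40002000480048, nat_lit 0x110220, nat_lit 1, nat_lit 4, nat_lit 0x47⟩ (.nil) (.nil)
def t14_7018 : Tr := .node ⟨nat_lit 7, nat_lit 0x20002000400060, nat_lit 0x113111, nat_lit 0, nat_lit 4, nat_lit 0x49⟩ (.nil) (.nil)
def t14_15210 : Tr := .node ⟨nat_lit 8, nat_lit 0x8000400090009000d0, nat_lit 0x110102, nat_lit 1, nat_lit 4, nat_lit 0x47⟩ (.nil) (.nil)
def t14_1898 : Tr := .node ⟨nat_lit 7, nat_lit 0x20006000500068, nat_lit 0x121121, nat_lit 0, nat_lit 4, nat_lit 0x47⟩ (.nil) (.nil)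
def t14_10090 : Tr := .node ⟨nat_lit 6, nat_lit 0x10002000300030, nat_lit 0x2320, nat_lit 4, nat_lit 4, nat_lit 0x47⟩ (.nil) (.nil)
def t14_5994 : Tr := .node ⟨nat_lit 5, nat_lit 0x100018, nat_lit 0x13210, nat_lit 3, nat_lit 4, nat_lit 0x49⟩ (.nil) (.nil)
def t14_14186 : Tr := .node ⟨nat_lit 6, nat_lit 0x280030, nat_lit 0x113102, nat_lit 0, nat_lit 4, nat_lit 0x49⟩ (.nil) (.nil)
def t14_3946 : Tr := .node ⟨nat_lit 7, nat_lit 0x40001000100060, nat_lit 0x13100, nat_lit 1, nat_lit 4, nat_lit 0x48⟩ (.nil) (.nil)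
def t14_12138 : Tr := .node ⟨nat_lit 8, nat_lit 0x4000a000c000c8, nat_lit 0x1011120, nat_lit 1, nat_lit 4, nat_lit 0x48⟩ (.nil) (.nil)
def t14_8042 : Tr := .node ⟨nat_lit 5, nat_lit 0x1000100014, nat_lit 0x1103, nat_lit 7, nat_lit 4, nat_lit 0x47⟩ (.nil) (.nil)
def t9_362 : Tr := .node ⟨nat_lit 3, nat_lit 4, nat_lit 0x332, nat_lit 7, nat_lit 4, nat_lit 0x49⟩ (.node ⟨nat_lit 7, nat_lit 0x40004000400020, nat_lit 0x132101, nat_lit 1, nat_lit 4, nat_lit 0x4a⟩ (.node ⟨nat_lit 5, nat_lit 0x100008, nat_lit 0x2102, nat_lit 1, nat_lit 4, nat_lit 0x47⟩ (.node ⟨nat_lit 6, nat_lit 0x200010, nat_lit 0x111022, nat_lit 0, nat_lit 4, nat_lit 0x49⟩ (.node ⟨nat_lit 5, nat_lit 0x1000100008, nat_lit 0x2221, nat_lit 5, nat_lit 4, nat_lit 0x48⟩ (t14_362) (t14_8554)) (.node ⟨nat_lit 7, nat_lit 0x40002000200048, nat_lit 0x1102211, nat_lit 0, nat_lit 4, nat_lit 0x49⟩ (t14_4458)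 (t14_12650))) (.node ⟨nat_lit 7, nat_lit 0x4000100060, nat_lit 0x2111102, nat_lit 0, nat_lit 4, nat_lit 0x4a⟩ (.node ⟨nat_lit 6, nat_lit 0x2000080034, nat_lit 0x100211, nat_lit 0, nat_lit 4, nat_lit 0x46⟩ (t14_2410) (t14_10602)) (.node ⟨nat_lit 6, nat_lit 0x280030, nat_lit 0x20103, nat_lit 3, nat_lit 4, nat_lit 0x48⟩ (t14_6506) (t14_14698)))) (.node ⟨nat_lit 6, nat_lit 0xc0030, nat_lit 0x211022, nat_lit 0, nat_lit 4, nat_lit 0x48⟩ (.node ⟨nat_lit 5, nat_lit 0x10, nat_lit 0x22221, nat_lit 3, nat_lit 4, nat_lit 0x4b⟩ (.node ⟨nat_lit 6, nat_lit 0x800080030, nat_lit 0x111003, nat_lit 3, nat_lit 4, nat_lit 0x48⟩ (t14_1386) (t14_9578)) (.node ⟨nat_lit 7, nat_lit 0x40005000680068, nat_lit 0x1111220, nat_lit 1, nat_lit 4, nat_lit 0x47⟩ (t14_5482) (t14_13674))) (.node ⟨nat_lit 5, nat_lit 0x40018, nat_lit 0x30102, nat_lit 2, nat_lit 4, nat_lit 0x47⟩ (.node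 ⟨nat_lit 7, nat_lit 0x4000440070, nat_lit 0x211103, nat_lit 0, nat_lit 4, nat_lit 0x48⟩ (t14_3434) (t14_11626)) (.node ⟨nat_lit 8, nat_lit 0x400080008000200088, nat_lit 0x101111, nat_lit 0, nat_lit 4, nat_lit 0x48⟩ (t14_7530) (.nil))))) (.node ⟨nat_lit 5, nat_lit 0x100010, nat_lit 0x13111, nat_lit 7, nat_lit 4, nat_lit 0x4a⟩ (.node ⟨nat_lit 4, nat_lit 8, nat_lit 0x1220, nat_lit 5, nat_lit 4, nat_lit 0x48⟩ (.node ⟨nat_lit 6, nat_lit 0x80030, nat_lit 0x111121, nat_lit 0, nat_lit 4, nat_lit 0x48⟩ (.node ⟨nat_lit 4, nat_lit 0xc, nat_lit 0x2130, nat_lit 2, nat_lit 3, nat_lit 0x47⟩ (t14_874) (t14_9066)) (.node ⟨nat_lit 6, nat_lit 0x300030, nat_lit 0x112110, nat_lit 1, nat_lit 4, nat_lit 0x48⟩ (t14_4970) (t14_13162))) (.node ⟨nat_lit 7, nat_lit 0x40002000500068, nat_lit 0x1012110, nat_lit 0, nat_lit 4, nat_lit 0x47⟩ (.node ⟨nat_lit 7, nat_lit 0x40004000100060,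 nat_lit 0x110013, nat_lit 2, nat_lit 4, nat_lit 0x48⟩ (t14_2922) (t14_11114)) (.node ⟨nat_lit 6, nat_lit 0x20002000100038, nat_lit 0x11232, nat_lit 2, nat_lit 4, nat_lit 0x47⟩ (t14_7018) (t14_15210)))) (.node ⟨nat_lit 5, nat_lit 0x10, nat_lit 0x2112, nat_lit 5, nat_lit 4, nat_lit 0x49⟩ (.node ⟨nat_lit 6, nat_lit 0x2000240018, nat_lit 0x121111, nat_lit 3, nat_lit 4, nat_lit 0x48⟩ (.node ⟨nat_lit 7, nat_lit 0x2000500060, nat_lit 0x1101113, nat_lit 2, nat_lit 4, nat_lit 0x49⟩ (t14_1898) (t14_10090)) (.node ⟨nat_lit 6, nat_lit 0x10001000200030, nat_lit 0x201022, nat_lit 0, nat_lit 3, nat_lit 0x46⟩ (t14_5994) (t14_14186))) (.node ⟨nat_lit 6, nat_lit 0x2000080030, nat_lit 0x1002, nat_lit 0, nat_lit 4, nat_lit 0x45⟩ (.node ⟨nat_lit 6, nat_lit 0x800200030, nat_lit 0x102030, nat_lit 1, nat_lit 3, nat_lit 0x47⟩ (t14_3946) (t14_12138)) (.node ⟨nat_lit 8,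 nat_lit 0x80002000c0, nat_lit 0x10111211, nat_lit 1, nat_lit 4, nat_lit 0x4b⟩ (t14_8042) (.nil)))))
def t14_234 : Tr := .node ⟨nat_lit 4, nat_lit 0x8000c, nat_lit 0x3221, nat_lit 2, nat_lit 3, nat_lit 0x47⟩ (.nil) (.nil)
def t14_8426 : Tr := .node ⟨nat_lit 4, nat_lit 0xc000c, nat_lit 0x31, nat_lit 6, nat_lit 4, nat_lit 0x44⟩ (.nil) (.nil)
def t14_4330 : Tr := .node ⟨nat_lit 8, nat_lit 0x800020004000a000d0, nat_lit 0x10110022, nat_lit 0, nat_lit 4, nat_lit 0x48⟩ (.nil) (.nil)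
def t14_12522 : Tr := .node ⟨nat_lit 7, nat_lit 0x20005000300068, nat_lit 0x1011003, nat_lit 0, nat_lit 4, nat_lit 0x46⟩ (.nil) (.nil)
def t14_2282 : Tr := .node ⟨nat_lit 7, nat_lit 0x40004000400020, nat_lit 0x112200, nat_lit 4, nat_lit 4, nat_lit 0x4a⟩ (.nil) (.nil)
def t14_10474 : Tr := .node ⟨nat_lit 6, nat_lit 0x20001000100028, nat_lit 0x1112, nat_lit 0, nat_lit 4, nat_lit 0x45⟩ (.nil) (.nil)
def t14_6378 : Tr := .node ⟨nat_lit 5, nat_lit 0x1000100008, nat_lit 2, nat_lit 4, nat_lit 4, nat_lit 0x45⟩ (.nil) (.nil)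
def t14_14570 : Tr := .node ⟨nat_lit 6, nat_lit 0x20001000100030, nat_lit 0x1103, nat_lit 6, nat_lit 4, nat_lit 0x47⟩ (.nil) (.nil)
def t14_1258 : Tr := .node ⟨nat_lit 7, nat_lit 0x40001000100020, nat_lit 0x10112, nat_lit 0, nat_lit 4, nat_lit 0x48⟩ (.nil) (.nil)
def t14_9450 : Tr := .node ⟨nat_lit 8, nat_lit 0x40008000800060009000c0, nat_lit 0x1111002, nat_lit 3, nat_lit 4, nat_lit 0x48⟩ (.nil) (.nil)
def t14_5354 : Tr := .node ⟨nat_lit 5, nat_lit 0x100018, nat_lit 0x11130, nat_lit 3, nat_lit 4, nat_lit 0x48⟩ (.nil) (.nil)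
def t14_13546 : Tr := .node ⟨nat_lit 7, nat_lit 0x4000100060, nat_lit 0x11002, nat_lit 2, nat_lit 4, nat_lit 0x48⟩ (.nil) (.nil)
def t14_3306 : Tr := .node ⟨nat_lit 7, nat_lit 0x40002000600068, nat_lit 0x1012210, nat_lit 1, nat_lit 4, nat_lit 0x48⟩ (.nil) (.nil)
def t14_11498 : Tr := .node ⟨nat_lit 6, nat_lit 0x10001000200032, nat_lit 0x101100, nat_lit 3, nat_lit 4, nat_lit 0x46⟩ (.nil) (.nil)
def t14_7402 : Tr := .node ⟨nat_lit 6, nat_lit 0x800080030, nat_lit 0x211002, nat_lit 2, nat_lit 4, nat_lit 0x48⟩ (.nil) (.nil)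
def t14_746 : Tr := .node ⟨nat_lit 6, nat_lit 0x280030, nat_lit 0x1113, nat_lit 0, nat_lit 4, nat_lit 0x46⟩ (.nil) (.nil)
def t14_8938 : Tr := .node ⟨nat_lit 7, nat_lit 0x6000500050, nat_lit 0x1140, nat_lit 0, nat_lit 4, nat_lit 0x47⟩ (.nil) (.nil)
def t14_4842 : Tr := .node ⟨nat_lit 8, nat_lit 0x800080002000c000d0, nat_lit 0x1111022, nat_lit 0, nat_lit 4, nat_lit 0x48⟩ (.nil) (.nil)
def t14_13034 : Tr := .node ⟨nat_lit 7, nat_lit 0x40002000200048, nat_lit 0x2200, nat_lit 0, nat_lit 4, nat_lit 0x47⟩ (.nil) (.nil)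
def t14_2794 : Tr := .node ⟨nat_lit 6, nat_lit 0x1000200020, nat_lit 0x101200, nat_lit 3, nat_lit 4, nat_lit 0x48⟩ (.nil) (.nil)
def t14_10986 : Tr := .node ⟨nat_lit 8, nat_lit 0x80002000c000a0, nat_lit 0x11002, nat_lit 1, nat_lit 4, nat_lit 0x48⟩ (.nil) (.nil)
def t14_6890 : Tr := .node ⟨nat_lit 5, nat_lit 0x10, nat_lit 0x1111, nat_lit 7, nat_lit 4, nat_lit 0x49⟩ (.nil) (.nil)
def t14_15082 : Tr := .node ⟨nat_lit 9, nat_lit 0x400100010001080180, nat_lit 0x10101011, nat_lit 3, nat_lit 4, nat_lit 0x4a⟩ (.nil) (.nil)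
def t14_1770 : Tr := .node ⟨nat_lit 6, nat_lit 0x1000300028, nat_lit 0x102012, nat_lit 5, nat_lit 4, nat_lit 0x48⟩ (.nil) (.nil)
def t14_9962 : Tr := .node ⟨nat_lit 6, nat_lit 0x3000300030, nat_lit 0x2330, nat_lit 4, nat_lit 4, nat_lit 0x47⟩ (.nil) (.nil)
def t14_5866 : Tr := .node ⟨nat_lit 7, nat_lit 0x800100060, nat_lit 0x11111, nat_lit 0, nat_lit 4, nat_lit 0x48⟩ (.nil) (.nil)
def t14_14058 : Tr := .node ⟨nat_lit 8, nat_lit 0x8000c000a0, nat_lit 0x11120, nat_lit 1, nat_lit 4, nat_lit 0x49⟩ (.nil) (.nil)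
def t14_3818 : Tr := .node ⟨nat_lit 7, nat_lit 0x10004000400060, nat_lit 0x211102, nat_lit 2, nat_lit 4, nat_lit 0x49⟩ (.nil) (.nil)
def t14_12010 : Tr := .node ⟨nat_lit 7, nat_lit 0x2000500060, nat_lit 0x1011210, nat_lit 0, nat_lit 4, nat_lit 0x48⟩ (.nil) (.nil)
def t14_7914 : Tr := .node ⟨nat_lit 8, nat_lit 0x8000800020009000d0, nat_lit 0x1012012, nat_lit 1, nat_lit 4, nat_lit 0x48⟩ (.nil) (.nil)
def t9_234 : Tr := .node ⟨nat_lit 4, nat_lit 0xc, nat_lit 0x2132, nat_lit 4, nat_lit 4, nat_lit 0x48⟩ (.node ⟨nat_lit 5, nat_lit 0x80010001c, nat_lit 0x3102, nat_lit 5, nat_lit 4, nat_lit 0x47⟩ (.node ⟨nat_lit 5, nat_lit 0x100012, nat_lit 0x31111, nat_lit 3, nat_lit 4, nat_lit 0x49⟩ (.node ⟨nat_lit 5, nat_lit 0x40018, nat_lit 0x11132, nat_lit 1, nat_lit 4, nat_lit 0x47⟩ (.node ⟨nat_lit 8, nat_lit 0x8000800040, nat_lit 0x2111102, nat_lit 1, nat_lit 4,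 nat_lit 0x4c⟩ (t14_234) (t14_8426)) (.node ⟨nat_lit 8, nat_lit 0x8000800040008800d0, nat_lit 0x1111003, nat_lit 0, nat_lit 4, nat_lit 0x48⟩ (t14_4330) (t14_12522))) (.node ⟨nat_lit 6, nat_lit 0x100020, nat_lit 0x122120, nat_lit 4, nat_lit 4, nat_lit 0x4b⟩ (.node ⟨nat_lit 7, nat_lit 0x10001000600050, nat_lit 0x1002013, nat_lit 3, nat_lit 4, nat_lit 0x48⟩ (t14_2282) (t14_10474)) (.node ⟨nat_lit 7, nat_lit 0x400020005000500070, nat_lit 0x2112100, nat_lit 1, nat_lit 4, nat_lit 0x48⟩ (t14_6378) (t14_14570)))) (.node ⟨nat_lit 6, nat_lit 0, nat_lit 0x211111, nat_lit 4, nat_lit 4, nat_lit 0x4c⟩ (.node ⟨nat_lit 6, nat_lit 0x80030, nat_lit 0x212221, nat_lit 0, nat_lit 4, nat_lit 0x4a⟩ (.node ⟨nat_lit 4, nat_lit 0x40008, nat_lit 0x1100, nat_lit 5, nat_lit 4, nat_lit 0x45⟩ (t14_1258) (t14_9450)) (.node ⟨nat_lit 7, nat_lit 0x40004000200060, nat_lit 0x121022,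 nat_lit 2, nat_lit 4, nat_lit 0x49⟩ (t14_5354) (t14_13546))) (.node ⟨nat_lit 5, nat_lit 0x18, nat_lit 0x10204, nat_lit 0, nat_lit 4, nat_lit 0x47⟩ (.node ⟨nat_lit 7, nat_lit 0x10002000400060, nat_lit 0x1100013, nat_lit 4, nat_lit 4, nat_lit 0x49⟩ (t14_3306) (t14_11498)) (.node ⟨nat_lit 7, nat_lit 0x4000180060, nat_lit 0x111120, nat_lit 1, nat_lit 4, nat_lit 0x48⟩ (t14_7402) (.nil))))) (.node ⟨nat_lit 5, nat_lit 0, nat_lit 0x31000, nat_lit 0, nat_lit 4, nat_lit 0x48⟩ (.node ⟨nat_lit 6, nat_lit 0x80030, nat_lit 0x210102, nat_lit 0, nat_lit 4, nat_lit 0x48⟩ (.node ⟨nat_lit 6, nat_lit 0x2000200020, nat_lit 0x21200, nat_lit 0, nat_lit 3, nat_lit 0x47⟩ (.node ⟨nat_lit 6, nat_lit 0x1000200032, nat_lit 0x122110, nat_lit 0, nat_lit 4, nat_lit 0x48⟩ (t14_746) (t14_8938)) (.node ⟨nat_lit 7, nat_lit 0x40002000500068, nat_lit 0x102200, nat_lit 1, nat_lit 4,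 nat_lit 0x47⟩ (t14_4842) (t14_13034))) (.node ⟨nat_lit 4, nat_lit 0xe, nat_lit 0x1111, nat_lit 3, nat_lit 4, nat_lit 0x45⟩ (.node ⟨nat_lit 5, nat_lit 0x100018, nat_lit 0x2123, nat_lit 4, nat_lit 4, nat_lit 0x48⟩ (t14_2794) (t14_10986)) (.node ⟨nat_lit 6, nat_lit 0x80030, nat_lit 0x110122, nat_lit 1, nat_lit 4, nat_lit 0x48⟩ (t14_6890) (t14_15082)))) (.node ⟨nat_lit 5, nat_lit 0x800100018, nat_lit 0x11211, nat_lit 5, nat_lit 4, nat_lit 0x47⟩ (.node ⟨nat_lit 6, nat_lit 0x2000080034, nat_lit 0x111210, nat_lit 0, nat_lit 4, nat_lit 0x47⟩ (.node ⟨nat_lit 6, nat_lit 0x2000200038, nat_lit 0x11203, nat_lit 2, nat_lit 4, nat_lit 0x47⟩ (t14_1770) (t14_9962)) (.node ⟨nat_lit 7, nat_lit 0x20004000680068, nat_lit 0x220020, nat_lit 1, nat_lit 4, nat_lit 0x47⟩ (t14_5866) (t14_14058))) (.node ⟨nat_lit 5, nat_lit 0x1000100008, nat_lit 0x2332, nat_lit 0, nat_lit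 3, nat_lit 0x46⟩ (.node ⟨nat_lit 5, nat_lit 0x180014, nat_lit 0x12203, nat_lit 3, nat_lit 4, nat_lit 0x48⟩ (t14_3818) (t14_12010)) (.node ⟨nat_lit 9, nat_lit 0x800100004000400108, nat_lit 0x100102000, nat_lit 1, nat_lit 4, nat_lit 0x4a⟩ (t14_7914) (.nil)))))
def t14_490 : Tr := .node ⟨nat_lit 8, nat_lit 0x800080002000200040, nat_lit 0x11111111, nat_lit 0, nat_lit 4, nat_lit 0x4a⟩ (.nil) (.nil)
def t14_8682 : Tr := .node ⟨nat_lit 5, nat_lit 0x180014, nat_lit 2, nat_lit 5, nat_lit 4, nat_lit 0x45⟩ (.nil) (.nil)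
def t14_4586 : Tr := .node ⟨nat_lit 7, nat_lit 0x200020004000440060, nat_lit 0x1021301, nat_lit 0, nat_lit 4, nat_lit 0x48⟩ (.nil) (.nil)
def t14_12778 : Tr := .node ⟨nat_lit 6, nat_lit 0x2000080030, nat_lit 0x11310, nat_lit 3, nat_lit 4, nat_lit 0x48⟩ (.nil) (.nil)
def t14_2538 : Tr := .node ⟨nat_lit 7, nat_lit 0x10004000500060, nat_lit 0x201121, nat_lit 0, nat_lit 4, nat_lit 0x47⟩ (.nil) (.nil)
def t14_10730 : Tr := .node ⟨nat_lit 8, nat_lit 0x80002000c000a000d0, nat_lit 0x11200, nat_lit 0, nat_lit 4, nat_lit 0x46⟩ (.nil) (.nil)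
def t14_6634 : Tr := .node ⟨nat_lit 7, nat_lit 0x20004000100044, nat_lit 0x10311, nat_lit 0, nat_lit 4, nat_lit 0x48⟩ (.nil) (.nil)
def t14_14826 : Tr := .node ⟨nat_lit 7, nat_lit 0x40004000100060, nat_lit 0x11102, nat_lit 0, nat_lit 3, nat_lit 0x46⟩ (.nil) (.nil)
def t14_1514 : Tr := .node ⟨nat_lit 9, nat_lit 0x100010000800080014001c00190, nat_lit 0x1021101, nat_lit 1, nat_lit 4, nat_lit 0x47⟩ (.nil) (.nil)
def t14_9706 : Tr := .node ⟨nat_lit 7, nat_lit 0x10001000600060, nat_lit 0x1011121, nat_lit 0, nat_lit 3, nat_lit 0x46⟩ (.nil) (.nil)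
def t14_5610 : Tr := .node ⟨nat_lit 8, nat_lit 0x800020002000c000c0, nat_lit 0x121120, nat_lit 1, nat_lit 4, nat_lit 0x48⟩ (.nil) (.nil)
def t14_13802 : Tr := .node ⟨nat_lit 6, nat_lit 0x20001000100028, nat_lit 0x2300, nat_lit 1, nat_lit 4, nat_lit 0x46⟩ (.nil) (.nil)
def t14_3562 : Tr := .node ⟨nat_lit 8, nat_lit 0x80002000c000a0, nat_lit 0x2101, nat_lit 0, nat_lit 4, nat_lit 0x48⟩ (.nil) (.nil)
def t14_11754 : Tr := .node ⟨nat_lit 2, nat_lit 0, nat_lit 0x51, nat_lit 3, nat_lit 3, nat_lit 0x46⟩ (.nil) (.nil)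
def t14_7658 : Tr := .node ⟨nat_lit 6, nat_lit 0x2000080010, nat_lit 0x10, nat_lit 3, nat_lit 4, nat_lit 0x46⟩ (.nil) (.nil)
def t14_1002 : Tr := .node ⟨nat_lit 6, nat_lit 0x10002000240030, nat_lit 0x100101, nat_lit 3, nat_lit 4, nat_lit 0x46⟩ (.nil) (.nil)
def t14_9194 : Tr := .node ⟨nat_lit 7, nat_lit 0x400040002000200060, nat_lit 0x122002, nat_lit 0, nat_lit 3, nat_lit 0x46⟩ (.nil) (.nil)
def t14_5098 : Tr := .node ⟨nat_lit 6, nat_lit 0x10001000200022, nat_lit 0x3110, nat_lit 0, nat_lit 4, nat_lit 0x46⟩ (.nil) (.nil)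
def t14_13290 : Tr := .node ⟨nat_lit 7, nat_lit 0x40001000480060, nat_lit 0x1001300, nat_lit 0, nat_lit 4, nat_lit 0x47⟩ (.nil) (.nil)
def t14_3050 : Tr := .node ⟨nat_lit 7, nat_lit 0x6000180018, nat_lit 0x1000121, nat_lit 0, nat_lit 4, nat_lit 0x46⟩ (.nil) (.nil)
def t14_11242 : Tr := .node ⟨nat_lit 8, nat_lit 0xc000a000a0, nat_lit 0x111120, nat_lit 0, nat_lit 4, nat_lit 0x49⟩ (.nil) (.nil)
def t14_7146 : Tr := .node ⟨nat_lit 5, nat_lit 0x40018, nat_lit 0x10111, nat_lit 9, nat_lit 4, nat_lit 0x48⟩ (.nil) (.nil)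
def t14_15338 : Tr := .node ⟨nat_lit 8, nat_lit 0x200080008000c0, nat_lit 0x1020201, nat_lit 0, nat_lit 3, nat_lit 0x48⟩ (.nil) (.nil)
def t14_2026 : Tr := .node ⟨nat_lit 6, nat_lit 0x2000300030, nat_lit 0x2310, nat_lit 5, nat_lit 4, nat_lit 0x48⟩ (.nil) (.nil)
def t14_10218 : Tr := .node ⟨nat_lit 5, nat_lit 0x1000100018, nat_lit 0x103, nat_lit 6, nat_lit 4, nat_lit 0x46⟩ (.nil) (.nil)
def t14_6122 : Tr := .node ⟨nat_lit 3, nat_lit 4, nat_lit 0x10, nat_lit 9, nat_lit 4, nat_lit 0x45⟩ (.nil) (.nil)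
def t14_14314 : Tr := .node ⟨nat_lit 8, nat_lit 0x800020009000c000e0, nat_lit 0x10113, nat_lit 1, nat_lit 4, nat_lit 0x46⟩ (.nil) (.nil)
def t14_4074 : Tr := .node ⟨nat_lit 7, nat_lit 0x10002000500060, nat_lit 0x1100021, nat_lit 1, nat_lit 4, nat_lit 0x47⟩ (.nil) (.nil)
def t14_12266 : Tr := .node ⟨nat_lit 6, nat_lit 0x800200030, nat_lit 0x14, nat_lit 1, nat_lit 4, nat_lit 0x46⟩ (.nil) (.nil)
def t14_8170 : Tr := .node ⟨nat_lit 6, nat_lit 0x800200030, nat_lit 0x10300, nat_lit 0, nat_lit 4, nat_lit 0x46⟩ (.nil) (.nil)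
def t9_490 : Tr := .node ⟨nat_lit 3, nat_lit 0, nat_lit 0x331, nat_lit 7, nat_lit 3, nat_lit 0x48⟩ (.node ⟨nat_lit 7, nat_lit 0x40002000480068, nat_lit 0x3011021, nat_lit 1, nat_lit 4, nat_lit 0x49⟩ (.node ⟨nat_lit 4, nat_lit 8, nat_lit 0x2112, nat_lit 5, nat_lit 4, nat_lit 0x48⟩ (.node ⟨nat_lit 4, nat_lit 8, nat_lit 0x1212, nat_lit 9, nat_lit 4, nat_lit 0x49⟩ (.node ⟨nat_lit 7, nat_lit 0x40001000500068, nat_lit 0x1200121, nat_lit 0, nat_lit 4, nat_lit 0x47⟩ (t14_490) (t14_8682)) (.node ⟨nat_lit 6, nat_lit 0x2000080030, nat_lit 0x121112, nat_lit 3, nat_lit 4, nat_lit 0x49⟩ (t14_4586) (t14_12778))) (.node ⟨nat_lit 7, nat_lit 0x40002000100010, nat_lit 0x10022, nat_lit 2, nat_lit 4, nat_lit 0x49⟩ (.node ⟨nat_lit 7, nat_lit 0x40001000100060, nat_lit 0x1011311, nat_lit 1, nat_lit 4, nat_lit 0x49⟩ (t14_2538) (t14_10730)) (.node ⟨nat_lit 6, nat_lit 0x2000280030,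 nat_lit 0x12220, nat_lit 3, nat_lit 4, nat_lit 0x48⟩ (t14_6634) (t14_14826)))) (.node ⟨nat_lit 4, nat_lit 0x80004, nat_lit 0x1221, nat_lit 5, nat_lit 4, nat_lit 0x47⟩ (.node ⟨nat_lit 6, nat_lit 0x1000200020, nat_lit 0x21310, nat_lit 0, nat_lit 4, nat_lit 0x49⟩ (.node ⟨nat_lit 6, nat_lit 0x2000300034, nat_lit 0x101312, nat_lit 4, nat_lit 4, nat_lit 0x48⟩ (t14_1514) (t14_9706)) (.node ⟨nat_lit 6, nat_lit 0x2000100030, nat_lit 0x112021, nat_lit 1, nat_lit 3, nat_lit 0x47⟩ (t14_5610) (t14_13802))) (.node ⟨nat_lit 7, nat_lit 0x10001000200040, nat_lit 0x2100011, nat_lit 2, nat_lit 4, nat_lit 0x49⟩ (.node ⟨nat_lit 7, nat_lit 0x1000400062, nat_lit 0x1000010, nat_lit 0, nat_lit 4, nat_lit 0x47⟩ (t14_3562) (t14_11754)) (.node ⟨nat_lit 6, nat_lit 0x10002000200020, nat_lit 0x110220, nat_lit 0, nat_lit 3, nat_lit 0x47⟩ (t14_7658) (.nil))))) (.node ⟨nat_lit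 5, nat_lit 0x1000100014, nat_lit 0x3112, nat_lit 4, nat_lit 4, nat_lit 0x47⟩ (.node ⟨nat_lit 5, nat_lit 0, nat_lit 0x22211, nat_lit 2, nat_lit 4, nat_lit 0x4b⟩ (.node ⟨nat_lit 6, nat_lit 0, nat_lit 0x111111, nat_lit 5, nat_lit 4, nat_lit 0x4c⟩ (.node ⟨nat_lit 7, nat_lit 0x40002000200048, nat_lit 0x1013101, nat_lit 1, nat_lit 4, nat_lit 0x49⟩ (t14_1002) (t14_9194)) (.node ⟨nat_lit 8, nat_lit 0x4000800090006000d000d0, nat_lit 0x20210111, nat_lit 0, nat_lit 4, nat_lit 0x47⟩ (t14_5098) (t14_13290))) (.node ⟨nat_lit 6, nat_lit 0x300030, nat_lit 0x101120, nat_lit 0, nat_lit 3, nat_lit 0x46⟩ (.node ⟨nat_lit 7, nat_lit 0x1000400062, nat_lit 0x2001021, nat_lit 1, nat_lit 4, nat_lit 0x49⟩ (t14_3050) (t14_11242)) (.node ⟨nat_lit 8, nat_lit 0x800040004000a000c000d0, nat_lit 0x111002, nat_lit 0, nat_lit 4, nat_lit 0x46⟩ (t14_7146) (t14_15338)))) (.node ⟨nat_lit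 5, nat_lit 0x1000080014, nat_lit 0x21110, nat_lit 3, nat_lit 4, nat_lit 0x47⟩ (.node ⟨nat_lit 7, nat_lit 0x400060, nat_lit 0x1211111, nat_lit 0, nat_lit 4, nat_lit 0x4b⟩ (.node ⟨nat_lit 4, nat_lit 0x80008, nat_lit 0x1232, nat_lit 8, nat_lit 4, nat_lit 0x49⟩ (t14_2026) (t14_10218)) (.node ⟨nat_lit 7, nat_lit 0x20001000500068, nat_lit 0x1211020, nat_lit 0, nat_lit 4, nat_lit 0x48⟩ (t14_6122) (t14_14314))) (.node ⟨nat_lit 4, nat_lit 0xe, nat_lit 0x2213, nat_lit 3, nat_lit 4, nat_lit 0x47⟩ (.node ⟨nat_lit 5, nat_lit 0x100010, nat_lit 0x10020, nat_lit 0, nat_lit 3, nat_lit 0x46⟩ (t14_4074) (t14_12266)) (.node ⟨nat_lit 8, nat_lit 0x8000800040004000a000c8, nat_lit 0x1111210, nat_lit 2, nat_lit 4, nat_lit 0x48⟩ (t14_8170) (.nil)))))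
def t14_26 : Tr := .node ⟨nat_lit 7, nat_lit 0x1000400020, nat_lit 0x1111110, nat_lit 0, nat_lit 3, nat_lit 0x48⟩ (.nil) (.nil)
def t14_8218 : Tr := .node ⟨nat_lit 8, nat_lit 0x400080005000a000d0, nat_lit 0x12103, nat_lit 0, nat_lit 4, nat_lit 0x46⟩ (.nil) (.nil)
def t14_4122 : Tr := .node ⟨nat_lit 8, nat_lit 0x800080004000880090, nat_lit 0x1111011, nat_lit 4, nat_lit 4, nat_lit 0x49⟩ (.nil) (.nil)
def t14_12314 : Tr := .node ⟨nat_lit 8, nat_lit 0x40002000c000a000e0, nat_lit 0x11103, nat_lit 1, nat_lit 4, nat_lit 0x46⟩ (.nil) (.nil)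
def t14_2074 : Tr := .node ⟨nat_lit 7, nat_lit 0x200020004000440060, nat_lit 0x1030101, nat_lit 3, nat_lit 4, nat_lit 0x48⟩ (.nil) (.nil)
def t14_10266 : Tr := .node ⟨nat_lit 8, nat_lit 0x800080004000a000a000e0, nat_lit 0x10012002, nat_lit 1, nat_lit 4, nat_lit 0x47⟩ (.nil) (.nil)
def t14_6170 : Tr := .node ⟨nat_lit 4, nat_lit 8, nat_lit 0x110, nat_lit 8, nat_lit 4, nat_lit 0x47⟩ (.nil) (.nil)
def t14_14362 : Tr := .node ⟨nat_lit 7, nat_lit 0x20004000100060, nat_lit 0x111, nat_lit 0, nat_lit 4, nat_lit 0x46⟩ (.nil) (.nil)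
def t14_1050 : Tr := .node ⟨nat_lit 4, nat_lit 0xc, nat_lit 0x12, nat_lit 5, nat_lit 4, nat_lit 0x45⟩ (.nil) (.nil)
def t14_9242 : Tr := .node ⟨nat_lit 5, nat_lit 0x1000080018, nat_lit 0x10121, nat_lit 4, nat_lit 3, nat_lit 0x45⟩ (.nil) (.nil)
def t14_5146 : Tr := .node ⟨nat_lit 7, nat_lit 0x20002000600050, nat_lit 0x11031, nat_lit 1, nat_lit 4, nat_lit 0x47⟩ (.nil) (.nil)
def t14_13338 : Tr := .node ⟨nat_lit 7, nat_lit 0x4800280070, nat_lit 0x203, nat_lit 0, nat_lit 4, nat_lit 0x45⟩ (.nil) (.nil)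
def t14_3098 : Tr := .node ⟨nat_lit 8, nat_lit 0x8000400020002000c0, nat_lit 0x102101, nat_lit 0, nat_lit 4, nat_lit 0x48⟩ (.nil) (.nil)
def t14_11290 : Tr := .node ⟨nat_lit 6, nat_lit 0x2000300034, nat_lit 0x11202, nat_lit 3, nat_lit 4, nat_lit 0x47⟩ (.nil) (.nil)
def t14_7194 : Tr := .node ⟨nat_lit 8, nat_lit 0x200040004000a000c0, nat_lit 0x112011, nat_lit 1, nat_lit 4, nat_lit 0x48⟩ (.nil) (.nil)
def t14_15386 : Tr := .node ⟨nat_lit 0xb, nat_lit 0x400020002000100010000800080, nat_lit 0x101010, nat_lit 3, nat_lit 4, nat_lit 0x4b⟩ (.nil) (.nil)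
def t14_538 : Tr := .node ⟨nat_lit 7, nat_lit 0x1000600050, nat_lit 0x2022, nat_lit 3, nat_lit 4, nat_lit 0x48⟩ (.nil) (.nil)
def t14_8730 : Tr := .node ⟨nat_lit 8, nat_lit 0x80002000c000b000d0, nat_lit 0x11011, nat_lit 0, nat_lit 4, nat_lit 0x45⟩ (.nil) (.nil)
def t14_4634 : Tr := .node ⟨nat_lit 6, nat_lit 0x800080030, nat_lit 0x111002, nat_lit 0, nat_lit 4, nat_lit 0x47⟩ (.nil) (.nil)
def t14_12826 : Tr := .node ⟨nat_lit 7, nat_lit 0x40001000600050, nat_lit 0x2020, nat_lit 3, nat_lit 4, nat_lit 0x47⟩ (.nil) (.nil)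
def t14_2586 : Tr := .node ⟨nat_lit 5, nat_lit 0x1000100008, nat_lit 0x11000, nat_lit 3, nat_lit 4, nat_lit 0x46⟩ (.nil) (.nil)
def t14_10778 : Tr := .node ⟨nat_lit 6, nat_lit 0x2000100010, nat_lit 0x12011, nat_lit 8, nat_lit 3, nat_lit 0x48⟩ (.nil) (.nil)
def t14_6682 : Tr := .node ⟨nat_lit 8, nat_lit 0x4000200080, nat_lit 0x11111010, nat_lit 0, nat_lit 4, nat_lit 0x4b⟩ (.nil) (.nil)
def t14_14874 : Tr := .node ⟨nat_lit 6, nat_lit 0x2000200010, nat_lit 0x22102, nat_lit 4, nat_lit 3, nat_lit 0x48⟩ (.nil) (.nil)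
def t14_1562 : Tr := .node ⟨nat_lit 8, nat_lit 0x800020002000a000c0, nat_lit 0x1021020, nat_lit 1, nat_lit 4, nat_lit 0x48⟩ (.nil) (.nil)
def t14_9754 : Tr := .node ⟨nat_lit 7, nat_lit 0x40002000200048, nat_lit 0x11102, nat_lit 0, nat_lit 4, nat_lit 0x47⟩ (.nil) (.nil)
def t14_5658 : Tr := .node ⟨nat_lit 9, nat_lit 0x40010001800180, nat_lit 0x110220, nat_lit 1, nat_lit 4, nat_lit 0x4a⟩ (.nil) (.nil)
def t14_13850 : Tr := .node ⟨nat_lit 8, nat_lit 0x80004000a000c8, nat_lit 0x12200, nat_lit 1, nat_lit 4, nat_lit 0x48⟩ (.nil) (.nil)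
def t14_3610 : Tr := .node ⟨nat_lit 7, nat_lit 0x50003000600070, nat_lit 0x11222, nat_lit 0, nat_lit 4, nat_lit 0x45⟩ (.nil) (.nil)
def t14_11802 : Tr := .node ⟨nat_lit 6, nat_lit 0x10001000200022, nat_lit 0x101103, nat_lit 2, nat_lit 4, nat_lit 0x46⟩ (.nil) (.nil)
def t14_7706 : Tr := .node ⟨nat_lit 7, nat_lit 0x10002000400060, nat_lit 0x112, nat_lit 0, nat_lit 4, nat_lit 0x46⟩ (.nil) (.nil)
def t9_26 : Tr := .node ⟨nat_lit 4, nat_lit 0xc, nat_lit 0x3221, nat_lit 3, nat_lit 4, nat_lit 0x49⟩ (.node ⟨nat_lit 4, nat_lit 8, nat_lit 0x2322, nat_lit 5, nat_lit 4, nat_lit 0x4a⟩ (.node ⟨nat_lit 2, nat_lit 0, nat_lit 0x41, nat_lit 5, nat_lit 4, nat_lit 0x45⟩ (.node ⟨nat_lit 6, nat_lit 0x1000200034, nat_lit 0x112110, nat_lit 0, nat_lit 4, nat_lit 0x47⟩ (.node ⟨nat_lit 6, nat_lit 0x2000080030, nat_lit 0x2230, nat_lit 1, nat_lit 4, nat_lit 0x48⟩ (t14_26)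 (t14_8218)) (.node ⟨nat_lit 5, nat_lit 0x800080010, nat_lit 0x1100, nat_lit 4, nat_lit 4, nat_lit 0x46⟩ (t14_4122) (t14_12314))) (.node ⟨nat_lit 5, nat_lit 0x40018, nat_lit 0x31223, nat_lit 1, nat_lit 4, nat_lit 0x49⟩ (.node ⟨nat_lit 6, nat_lit 0x200020, nat_lit 0x122131, nat_lit 1, nat_lit 4, nat_lit 0x4b⟩ (t14_2074) (t14_10266)) (.node ⟨nat_lit 8, nat_lit 0x80004000a000a000d0, nat_lit 0x1022100, nat_lit 0, nat_lit 4, nat_lit 0x47⟩ (t14_6170) (t14_14362)))) (.node ⟨nat_lit 6, nat_lit 0x800200030, nat_lit 0x20302, nat_lit 0, nat_lit 4, nat_lit 0x47⟩ (.node ⟨nat_lit 6, nat_lit 0x2000100010, nat_lit 0x22011, nat_lit 5, nat_lit 4, nat_lit 0x4a⟩ (.node ⟨nat_lit 5, nat_lit 0x100018, nat_lit 0x11111, nat_lit 3, nat_lit 4, nat_lit 0x47⟩ (t14_1050) (t14_9242)) (.node ⟨nat_lit 7, nat_lit 0x40002000200010, nat_lit 0x120210, nat_lit 1, nat_lit 3, nat_lit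 0x48⟩ (t14_5146) (t14_13338))) (.node ⟨nat_lit 6, nat_lit 0x280030, nat_lit 0x12220, nat_lit 0, nat_lit 4, nat_lit 0x48⟩ (.node ⟨nat_lit 8, nat_lit 0x80002000c800e0, nat_lit 0x11010003, nat_lit 1, nat_lit 4, nat_lit 0x48⟩ (t14_3098) (t14_11290)) (.node ⟨nat_lit 6, nat_lit 0x10001000200022, nat_lit 0x102020, nat_lit 3, nat_lit 4, nat_lit 0x47⟩ (t14_7194) (t14_15386))))) (.node ⟨nat_lit 5, nat_lit 0x18, nat_lit 0x31210, nat_lit 1, nat_lit 4, nat_lit 0x49⟩ (.node ⟨nat_lit 5, nat_lit 0x18, nat_lit 0x11222, nat_lit 0, nat_lit 4, nat_lit 0x48⟩ (.node ⟨nat_lit 6, nat_lit 0x10002000300030, nat_lit 0x2210, nat_lit 3, nat_lit 4, nat_lit 0x46⟩ (.node ⟨nat_lit 6, nat_lit 0x2000200010, nat_lit 0x21101, nat_lit 9, nat_lit 4, nat_lit 0x4a⟩ (t14_538) (t14_8730)) (.node ⟨nat_lit 6, nat_lit 0x2000100038, nat_lit 0x211203, nat_lit 0, nat_lit 4, nat_lit 0x48⟩ (t14_4634)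 (t14_12826))) (.node ⟨nat_lit 4, nat_lit 0x8000e, nat_lit 0x101, nat_lit 4, nat_lit 4, nat_lit 0x43⟩ (.node ⟨nat_lit 6, nat_lit 0x200030, nat_lit 0x111130, nat_lit 5, nat_lit 4, nat_lit 0x4a⟩ (t14_2586) (t14_10778)) (.node ⟨nat_lit 7, nat_lit 0x4000400040, nat_lit 0x211220, nat_lit 2, nat_lit 4, nat_lit 0x4b⟩ (t14_6682) (t14_14874)))) (.node ⟨nat_lit 5, nat_lit 0x40018, nat_lit 0x11212, nat_lit 4, nat_lit 4, nat_lit 0x48⟩ (.node ⟨nat_lit 6, nat_lit 0x2000080034, nat_lit 0x230011, nat_lit 1, nat_lit 4, nat_lit 0x48⟩ (.node ⟨nat_lit 6, nat_lit 0x200030, nat_lit 0x101131, nat_lit 2, nat_lit 4, nat_lit 0x49⟩ (t14_1562) (t14_9754)) (.node ⟨nat_lit 6, nat_lit 0x1000100020, nat_lit 0x111002, nat_lit 1, nat_lit 4, nat_lit 0x48⟩ (t14_5658) (t14_13850))) (.node ⟨nat_lit 4, nat_lit 0x8000c, nat_lit 0x213, nat_lit 4, nat_lit 4, nat_lit 0x46⟩ (.node ⟨nat_lit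 6, nat_lit 0x300028, nat_lit 0x100100, nat_lit 1, nat_lit 4, nat_lit 0x46⟩ (t14_3610) (t14_11802)) (.node ⟨nat_lit 6, nat_lit 0x800200030, nat_lit 0x21310, nat_lit 1, nat_lit 4, nat_lit 0x48⟩ (t14_7706) (.nil)))))
def t14_282 : Tr := .node ⟨nat_lit 6, nat_lit 0x800280030, nat_lit 0x110211, nat_lit 2, nat_lit 4, nat_lit 0x47⟩ (.nil) (.nil)
def t14_8474 : Tr := .node ⟨nat_lit 7, nat_lit 0x1000500060, nat_lit 0x1210, nat_lit 0, nat_lit 4, nat_lit 0x47⟩ (.nil) (.nil)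
def t14_4378 : Tr := .node ⟨nat_lit 7, nat_lit 0x400040002000200050, nat_lit 0x1102110, nat_lit 0, nat_lit 4, nat_lit 0x48⟩ (.nil) (.nil)
def t14_12570 : Tr := .node ⟨nat_lit 8, nat_lit 0x2000c000a00030, nat_lit 0x10001030, nat_lit 1, nat_lit 4, nat_lit 0x48⟩ (.nil) (.nil)
def t14_2330 : Tr := .node ⟨nat_lit 7, nat_lit 0x200040004000600060, nat_lit 0x31010, nat_lit 0, nat_lit 3, nat_lit 0x45⟩ (.nil) (.nil)
def t14_10522 : Tr := .node ⟨nat_lit 8, nat_lit 0x800080004000b000d0, nat_lit 0x10001002, nat_lit 1, nat_lit 4, nat_lit 0x47⟩ (.nil) (.nil)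
def t14_6426 : Tr := .node ⟨nat_lit 7, nat_lit 0x4000400020, nat_lit 0x111101, nat_lit 2, nat_lit 3, nat_lit 0x48⟩ (.nil) (.nil)
def t14_14618 : Tr := .node ⟨nat_lit 9, nat_lit 0x800100012000c000c0018001a0, nat_lit 0x101001111, nat_lit 2, nat_lit 4, nat_lit 0x47⟩ (.nil) (.nil)
def t14_1306 : Tr := .node ⟨nat_lit 7, nat_lit 0x20002000400062, nat_lit 0x1011012, nat_lit 0, nat_lit 4, nat_lit 0x47⟩ (.nil) (.nil)
def t14_9498 : Tr := .node ⟨nat_lit 8, nat_lit 0x4000400040008000840060, nat_lit 0x10121001, nat_lit 5, nat_lit 4, nat_lit 0x49⟩ (.nil) (.nil)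
def t14_5402 : Tr := .node ⟨nat_lit 7, nat_lit 0x4000440060, nat_lit 0x111302, nat_lit 0, nat_lit 4, nat_lit 0x49⟩ (.nil) (.nil)
def t14_13594 : Tr := .node ⟨nat_lit 6, nat_lit 0x1000100020, nat_lit 0x1002, nat_lit 6, nat_lit 4, nat_lit 0x48⟩ (.nil) (.nil)
def t14_3354 : Tr := .node ⟨nat_lit 7, nat_lit 0x4000500060, nat_lit 0x201022, nat_lit 0, nat_lit 4, nat_lit 0x48⟩ (.nil) (.nil)
def t14_11546 : Tr := .node ⟨nat_lit 6, nat_lit 0x2000300030, nat_lit 0x11210, nat_lit 5, nat_lit 4, nat_lit 0x48⟩ (.nil) (.nil)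
def t14_7450 : Tr := .node ⟨nat_lit 5, nat_lit 0x180018, nat_lit 0x11111, nat_lit 5, nat_lit 4, nat_lit 0x47⟩ (.nil) (.nil)
def t14_794 : Tr := .node ⟨nat_lit 8, nat_lit 0x80004000400020, nat_lit 0x110311, nat_lit 0, nat_lit 4, nat_lit 0x4a⟩ (.nil) (.nil)
def t14_8986 : Tr := .node ⟨nat_lit 8, nat_lit 0x8000800040009000a000c0, nat_lit 0x1110012, nat_lit 3, nat_lit 4, nat_lit 0x48⟩ (.nil) (.nil)
def t14_4890 : Tr := .node ⟨nat_lit 7, nat_lit 0x200040, nat_lit 0x1221110, nat_lit 1, nat_lit 4, nat_lit 0x4c⟩ (.nil) (.nil)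
def t14_13082 : Tr := .node ⟨nat_lit 7, nat_lit 0x10004000180060, nat_lit 0x2001, nat_lit 0, nat_lit 4, nat_lit 0x46⟩ (.nil) (.nil)
def t14_2842 : Tr := .node ⟨nat_lit 7, nat_lit 0x1000600060, nat_lit 0x12120, nat_lit 0, nat_lit 4, nat_lit 0x48⟩ (.nil) (.nil)
def t14_11034 : Tr := .node ⟨nat_lit 4, nat_lit 0xc000c, nat_lit 0x1120, nat_lit 0xb, nat_lit 4, nat_lit 0x47⟩ (.nil) (.nil)
def t14_6938 : Tr := .node ⟨nat_lit 5, nat_lit 0x140018, nat_lit 0x13121, nat_lit 3, nat_lit 4, nat_lit 0x48⟩ (.nil) (.nil)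
def t14_15130 : Tr := .node ⟨nat_lit 7, nat_lit 0x400020002000200050, nat_lit 0x11111, nat_lit 2, nat_lit 4, nat_lit 0x47⟩ (.nil) (.nil)
def t14_1818 : Tr := .node ⟨nat_lit 7, nat_lit 0x20002000500068, nat_lit 0x1020020, nat_lit 3, nat_lit 4, nat_lit 0x48⟩ (.nil) (.nil)
def t14_10010 : Tr := .node ⟨nat_lit 6, nat_lit 0x2000300030, nat_lit 0x1220, nat_lit 8, nat_lit 4, nat_lit 0x48⟩ (.nil) (.nil)
def t14_5914 : Tr := .node ⟨nat_lit 8, nat_lit 0x8000800040, nat_lit 0x1111100, nat_lit 5, nat_lit 4, nat_lit 0x4c⟩ (.nil) (.nil)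
def t14_14106 : Tr := .node ⟨nat_lit 7, nat_lit 0x40001000200020, nat_lit 0x111, nat_lit 1, nat_lit 4, nat_lit 0x47⟩ (.nil) (.nil)
def t14_3866 : Tr := .node ⟨nat_lit 7, nat_lit 0x20003000500068, nat_lit 0x1111121, nat_lit 0, nat_lit 4, nat_lit 0x47⟩ (.nil) (.nil)
def t14_12058 : Tr := .node ⟨nat_lit 7, nat_lit 0x20004000100060, nat_lit 0x1012010, nat_lit 1, nat_lit 4, nat_lit 0x48⟩ (.nil) (.nil)
def t14_7962 : Tr := .node ⟨nat_lit 9, nat_lit 0x10001000080011001100120, nat_lit 0x1010210, nat_lit 4, nat_lit 4, nat_lit 0x49⟩ (.nil) (.nil)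
def t9_282 : Tr := .node ⟨nat_lit 6, nat_lit 0x1000200030, nat_lit 0x103121, nat_lit 0, nat_lit 4, nat_lit 0x48⟩ (.node ⟨nat_lit 5, nat_lit 0x1000140014, nat_lit 0x32111, nat_lit 5, nat_lit 4, nat_lit 0x49⟩ (.node ⟨nat_lit 7, nat_lit 0x1000500060, nat_lit 0x1103012, nat_lit 0, nat_lit 4, nat_lit 0x49⟩ (.node ⟨nat_lit 6, nat_lit 0x38, nat_lit 0x211113, nat_lit 0, nat_lit 4, nat_lit 0x49⟩ (.node ⟨nat_lit 4, nat_lit 0xc, nat_lit 0x1120, nat_lit 5, nat_lit 3, nat_lit 0x46⟩ (t14_282) (t14_8474)) (.node ⟨nat_lit 8, nat_lit 0x800020004000a000c0, nat_lit 0x110031, nat_lit 2, nat_lit 4, nat_lit 0x48⟩ (t14_4378) (t14_12570))) (.node ⟨nat_lit 4, nat_lit 0xc000c, nat_lit 0x2021, nat_lit 4, nat_lit 3, nat_lit 0x44⟩ (.node ⟨nat_lit 6, nat_lit 0x800300030, nat_lit 0x1221, nat_lit 1, nat_lit 4, nat_lit 0x46⟩ (t14_2330) (t14_10522)) (.node ⟨nat_lit 7, nat_lit 0x4000400060,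 nat_lit 0x21201, nat_lit 5, nat_lit 4, nat_lit 0x4a⟩ (t14_6426) (t14_14618)))) (.node ⟨nat_lit 7, nat_lit 0x200040003000480068, nat_lit 0x2111011, nat_lit 0, nat_lit 4, nat_lit 0x47⟩ (.node ⟨nat_lit 6, nat_lit 0x800100020, nat_lit 0x122310, nat_lit 1, nat_lit 4, nat_lit 0x4a⟩ (.node ⟨nat_lit 6, nat_lit 0x2000080034, nat_lit 0x101110, nat_lit 0, nat_lit 4, nat_lit 0x46⟩ (t14_1306) (t14_9498)) (.node ⟨nat_lit 6, nat_lit 0x2000300034, nat_lit 0x101222, nat_lit 2, nat_lit 4, nat_lit 0x47⟩ (t14_5402) (t14_13594))) (.node ⟨nat_lit 6, nat_lit 0x2000100024, nat_lit 0x12301, nat_lit 0, nat_lit 4, nat_lit 0x48⟩ (.node ⟨nat_lit 6, nat_lit 0x800080030, nat_lit 0x201300, nat_lit 3, nat_lit 4, nat_lit 0x49⟩ (t14_3354) (t14_11546)) (.node ⟨nat_lit 7, nat_lit 0x3000500060, nat_lit 0x1111211, nat_lit 1, nat_lit 4, nat_lit 0x48⟩ (t14_7450) (.nil))))) (.node ⟨nat_lit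 7, nat_lit 0x1000500060, nat_lit 0x103001, nat_lit 1, nat_lit 4, nat_lit 0x48⟩ (.node ⟨nat_lit 6, nat_lit 0x2000080030, nat_lit 0x102220, nat_lit 0, nat_lit 4, nat_lit 0x48⟩ (.node ⟨nat_lit 5, nat_lit 0x10, nat_lit 0x1101, nat_lit 0, nat_lit 4, nat_lit 0x46⟩ (.node ⟨nat_lit 7, nat_lit 0x20004000100068, nat_lit 0x222100, nat_lit 1, nat_lit 4, nat_lit 0x49⟩ (t14_794) (t14_8986)) (.node ⟨nat_lit 7, nat_lit 0x200040004800300068, nat_lit 0x1122001, nat_lit 0, nat_lit 4, nat_lit 0x47⟩ (t14_4890) (t14_13082))) (.node ⟨nat_lit 6, nat_lit 0x2000100008, nat_lit 0x1001, nat_lit 4, nat_lit 4, nat_lit 0x47⟩ (.node ⟨nat_lit 8, nat_lit 0x800080004000c0, nat_lit 0x1111003, nat_lit 1, nat_lit 4, nat_lit 0x4a⟩ (t14_2842) (t14_11034)) (.node ⟨nat_lit 6, nat_lit 0x20001000100030, nat_lit 0x202101, nat_lit 0, nat_lit 3, nat_lit 0x46⟩ (t14_6938) (t14_15130)))) (.node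 ⟨nat_lit 7, nat_lit 0x20002000400068, nat_lit 0x112102, nat_lit 0, nat_lit 4, nat_lit 0x48⟩ (.node ⟨nat_lit 6, nat_lit 0x2000080030, nat_lit 0x101111, nat_lit 1, nat_lit 3, nat_lit 0x46⟩ (.node ⟨nat_lit 6, nat_lit 0x200030, nat_lit 0x11114, nat_lit 0, nat_lit 4, nat_lit 0x48⟩ (t14_1818) (t14_10010)) (.node ⟨nat_lit 7, nat_lit 0x1000600050, nat_lit 0x1012112, nat_lit 0, nat_lit 4, nat_lit 0x49⟩ (t14_5914) (t14_14106))) (.node ⟨nat_lit 7, nat_lit 0x40004800480030, nat_lit 0x1200102, nat_lit 1, nat_lit 4, nat_lit 0x47⟩ (.node ⟨nat_lit 5, nat_lit 0x18001c, nat_lit 0x20103, nat_lit 3, nat_lit 4, nat_lit 0x46⟩ (t14_3866) (t14_12058)) (.node ⟨nat_lit 7, nat_lit 0x10004000440060, nat_lit 0x1100210, nat_lit 1, nat_lit 4, nat_lit 0x48⟩ (t14_7962) (.nil)))))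
def t14_154 : Tr := .node ⟨nat_lit 7, nat_lit 0x40001000100060, nat_lit 0x1111211, nat_lit 0, nat_lit 4, nat_lit 0x49⟩ (.nil) (.nil)
def t14_8346 : Tr := .node ⟨nat_lit 3, nat_lit 6, nat_lit 0x100, nat_lit 6, nat_lit 4, nat_lit 0x43⟩ (.nil) (.nil)
def t14_4250 : Tr := .node ⟨nat_lit 6, nat_lit 0x2000080030, nat_lit 0x12030, nat_lit 0, nat_lit 4, nat_lit 0x48⟩ (.nil) (.nil)
def t14_12442 : Tr := .node ⟨nat_lit 7, nat_lit 0x40001000500060, nat_lit 0x101130, nat_lit 2, nat_lit 4, nat_lit 0x47⟩ (.nil) (.nil)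
def t14_2202 : Tr := .node ⟨nat_lit 9, nat_lit 0x400100010000200180, nat_lit 0x102200, nat_lit 1, nat_lit 4, nat_lit 0x4a⟩ (.nil) (.nil)
def t14_10394 : Tr := .node ⟨nat_lit 7, nat_lit 0x400020005000500050, nat_lit 0x1003000, nat_lit 1, nat_lit 4, nat_lit 0x46⟩ (.nil) (.nil)
def t14_6298 : Tr := .node ⟨nat_lit 5, nat_lit 0x1800180018, nat_lit 0x210, nat_lit 9, nat_lit 4, nat_lit 0x45⟩ (.nil) (.nil)
def t14_14490 : Tr := .node ⟨nat_lit 8, nat_lit 0x4000800080002000c0, nat_lit 0x111012, nat_lit 0, nat_lit 4, nat_lit 0x48⟩ (.nil) (.nil)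
def t14_1178 : Tr := .node ⟨nat_lit 6, nat_lit 0x2000100024, nat_lit 0x11011, nat_lit 1, nat_lit 4, nat_lit 0x46⟩ (.nil) (.nil)
def t14_9370 : Tr := .node ⟨nat_lit 7, nat_lit 0x20005000600068, nat_lit 0x102122, nat_lit 2, nat_lit 4, nat_lit 0x47⟩ (.nil) (.nil)
def t14_5274 : Tr := .node ⟨nat_lit 8, nat_lit 0x200040008000c0, nat_lit 0x11010210, nat_lit 1, nat_lit 4, nat_lit 0x4a⟩ (.nil) (.nil)
def t14_13466 : Tr := .node ⟨nat_lit 6, nat_lit 0x2000200030, nat_lit 0x1320, nat_lit 1, nat_lit 4, nat_lit 0x48⟩ (.nil) (.nil)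
def t14_3226 : Tr := .node ⟨nat_lit 8, nat_lit 0x20002000a000c0, nat_lit 0x2011120, nat_lit 0, nat_lit 4, nat_lit 0x49⟩ (.nil) (.nil)
def t14_11418 : Tr := .node ⟨nat_lit 6, nat_lit 0x800200032, nat_lit 0x220100, nat_lit 0, nat_lit 4, nat_lit 0x47⟩ (.nil) (.nil)
def t14_7322 : Tr := .node ⟨nat_lit 6, nat_lit 0x800200030, nat_lit 0x102111, nat_lit 3, nat_lit 3, nat_lit 0x47⟩ (.nil) (.nil)
def t14_15514 : Tr := .node ⟨nat_lit 8, nat_lit 0x800020004000a000c0, nat_lit 0x102012, nat_lit 0, nat_lit 4, nat_lit 0x48⟩ (.nil) (.nil)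
def t14_666 : Tr := .node ⟨nat_lit 6, nat_lit 0x10001000200022, nat_lit 0x103100, nat_lit 3, nat_lit 4, nat_lit 0x47⟩ (.nil) (.nil)
def t14_8858 : Tr := .node ⟨nat_lit 8, nat_lit 0x40008000800084, nat_lit 0x110101, nat_lit 1, nat_lit 4, nat_lit 0x49⟩ (.nil) (.nil)
def t14_4762 : Tr := .node ⟨nat_lit 5, nat_lit 0x100018001c, nat_lit 0x1221, nat_lit 6, nat_lit 4, nat_lit 0x46⟩ (.nil) (.nil)
def t14_12954 : Tr := .node ⟨nat_lit 5, nat_lit 0x100018, nat_lit 0x1120, nat_lit 8, nat_lit 4, nat_lit 0x48⟩ (.nil) (.nil)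
def t14_2714 : Tr := .node ⟨nat_lit 7, nat_lit 0x5000180060, nat_lit 0x1001310, nat_lit 0, nat_lit 4, nat_lit 0x47⟩ (.nil) (.nil)
def t14_10906 : Tr := .node ⟨nat_lit 7, nat_lit 0x400020002000500060, nat_lit 0x12004, nat_lit 1, nat_lit 4, nat_lit 0x47⟩ (.nil) (.nil)
def t14_6810 : Tr := .node ⟨nat_lit 7, nat_lit 0x400060, nat_lit 0x211110, nat_lit 0, nat_lit 4, nat_lit 0x4a⟩ (.nil) (.nil)
def t14_15002 : Tr := .node ⟨nat_lit 8, nat_lit 0x800040004000a000a000c0, nat_lit 0x111110, nat_lit 1, nat_lit 4, nat_lit 0x47⟩ (.nil) (.nil)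
def t14_1690 : Tr := .node ⟨nat_lit 8, nat_lit 0x200020008000a000c0, nat_lit 0x1021120, nat_lit 0, nat_lit 4, nat_lit 0x48⟩ (.nil) (.nil)
def t14_9882 : Tr := .node ⟨nat_lit 5, nat_lit 0x1000100010, nat_lit 0x1322, nat_lit 5, nat_lit 4, nat_lit 0x49⟩ (.nil) (.nil)
def t14_5786 : Tr := .node ⟨nat_lit 5, nat_lit 0x18, nat_lit 0x10112, nat_lit 6, nat_lit 4, nat_lit 0x48⟩ (.nil) (.nil)
def t14_13978 : Tr := .node ⟨nat_lit 7, nat_lit 0x40002000100068, nat_lit 0x12120, nat_lit 0, nat_lit 4, nat_lit 0x47⟩ (.nil) (.nil)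
def t14_3738 : Tr := .node ⟨nat_lit 8, nat_lit 0x4000800090006000e000e0, nat_lit 0x1120020, nat_lit 0, nat_lit 4, nat_lit 0x46⟩ (.nil) (.nil)
def t14_11930 : Tr := .node ⟨nat_lit 5, nat_lit 0x40018, nat_lit 0x32, nat_lit 4, nat_lit 4, nat_lit 0x46⟩ (.nil) (.nil)
def t14_7834 : Tr := .node ⟨nat_lit 6, nat_lit 0x200022, nat_lit 0x11123, nat_lit 3, nat_lit 4, nat_lit 0x49⟩ (.nil) (.nil)
def t9_154 : Tr := .node ⟨nat_lit 7, nat_lit 0x40, nat_lit 0x3111111, nat_lit 0, nat_lit 4, nat_lit 0x4d⟩ (.node ⟨nat_lit 5, nat_lit 0x18, nat_lit 0x31210, nat_lit 0, nat_lit 3, nat_lit 0x48⟩ (.node ⟨nat_lit 6, nat_lit 0x2000080030, nat_lit 0x13202, nat_lit 0, nat_lit 4, nat_lit 0x48⟩ (.node ⟨nat_lit 3, nat_lit 4, nat_lit 0x123, nat_lit 0xa, nat_lit 4, nat_lit 0x48⟩ (.node ⟨nat_lit 7, nat_lit 0x40004800300030, nat_lit 0x2002021, nat_lit 0, nat_lit 4, nat_lit 0x47⟩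 (t14_154) (t14_8346)) (.node ⟨nat_lit 7, nat_lit 0x40001000600070, nat_lit 0x111033, nat_lit 0, nat_lit 4, nat_lit 0x47⟩ (t14_4250) (t14_12442))) (.node ⟨nat_lit 8, nat_lit 0x20002000c0, nat_lit 0x21011102, nat_lit 0, nat_lit 4, nat_lit 0x4b⟩ (.node ⟨nat_lit 7, nat_lit 0x1000400060, nat_lit 0x1201031, nat_lit 0, nat_lit 3, nat_lit 0x48⟩ (t14_2202) (t14_10394)) (.node ⟨nat_lit 7, nat_lit 0x800500060, nat_lit 0x1121102, nat_lit 0, nat_lit 4, nat_lit 0x49⟩ (t14_6298) (t14_14490)))) (.node ⟨nat_lit 4, nat_lit 0, nat_lit 0x2111, nat_lit 0xb, nat_lit 4, nat_lit 0x4a⟩ (.node ⟨nat_lit 6, nat_lit 0x300038, nat_lit 0x211122, nat_lit 0, nat_lit 4, nat_lit 0x48⟩ (.node ⟨nat_lit 5, nat_lit 0x100008, nat_lit 0x3100, nat_lit 1, nat_lit 3, nat_lit 0x47⟩ (t14_1178) (t14_9370)) (.node ⟨nat_lit 5, nat_lit 0x100018, nat_lit 0x11221, nat_lit 5, nat_lit 3, nat_lit 0x47⟩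 (t14_5274) (t14_13466))) (.node ⟨nat_lit 5, nat_lit 0x80010001c, nat_lit 0x10220, nat_lit 5, nat_lit 4, nat_lit 0x46⟩ (.node ⟨nat_lit 7, nat_lit 0x2000500060, nat_lit 0x1102003, nat_lit 1, nat_lit 4, nat_lit 0x49⟩ (t14_3226) (t14_11418)) (.node ⟨nat_lit 7, nat_lit 0x20004000640068, nat_lit 0x1010100, nat_lit 1, nat_lit 4, nat_lit 0x46⟩ (t14_7322) (t14_15514))))) (.node ⟨nat_lit 6, nat_lit 0x2000100024, nat_lit 0x32120, nat_lit 0, nat_lit 4, nat_lit 0x49⟩ (.node ⟨nat_lit 6, nat_lit 0x2000100024, nat_lit 0x22120, nat_lit 0, nat_lit 4, nat_lit 0x48⟩ (.node ⟨nat_lit 6, nat_lit 0x10002000180024, nat_lit 0x201010, nat_lit 0, nat_lit 4, nat_lit 0x45⟩ (.node ⟨nat_lit 6, nat_lit 0x800080030, nat_lit 0x310002, nat_lit 1, nat_lit 4, nat_lit 0x48⟩ (t14_666) (t14_8858)) (.node ⟨nat_lit 7, nat_lit 0x20004000400068, nat_lit 0x102301, nat_lit 0, nat_lit 4, nat_lit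 0x48⟩ (t14_4762) (t14_12954))) (.node ⟨nat_lit 5, nat_lit 0x18, nat_lit 0x11101, nat_lit 0, nat_lit 4, nat_lit 0x46⟩ (.node ⟨nat_lit 7, nat_lit 0x4000200020, nat_lit 0x1121030, nat_lit 0, nat_lit 4, nat_lit 0x4b⟩ (t14_2714) (t14_10906)) (.node ⟨nat_lit 7, nat_lit 0x400020002000200050, nat_lit 0x1011102, nat_lit 0, nat_lit 4, nat_lit 0x47⟩ (t14_6810) (t14_15002)))) (.node ⟨nat_lit 4, nat_lit 0x80008, nat_lit 0x210, nat_lit 0xd, nat_lit 4, nat_lit 0x48⟩ (.node ⟨nat_lit 6, nat_lit 0x200010, nat_lit 0x21111, nat_lit 1, nat_lit 3, nat_lit 0x48⟩ (.node ⟨nat_lit 7, nat_lit 0x4000600050, nat_lit 0x111013, nat_lit 0, nat_lit 4, nat_lit 0x48⟩ (t14_1690) (t14_9882)) (.node ⟨nat_lit 7, nat_lit 0x4000200060, nat_lit 0x22021, nat_lit 1, nat_lit 4, nat_lit 0x49⟩ (t14_5786) (t14_13978))) (.node ⟨nat_lit 7, nat_lit 0x20002000500060, nat_lit 0x22220, nat_lit 0,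 nat_lit 4, nat_lit 0x48⟩ (.node ⟨nat_lit 6, nat_lit 0xc0030, nat_lit 0x1001, nat_lit 0, nat_lit 4, nat_lit 0x45⟩ (t14_3738) (t14_11930)) (.node ⟨nat_lit 7, nat_lit 0x10004000600060, nat_lit 0x1000221, nat_lit 3, nat_lit 4, nat_lit 0x48⟩ (t14_7834) (.nil)))))
def t14_410 : Tr := .node ⟨nat_lit 6, nat_lit 0x2000200030, nat_lit 0x102210, nat_lit 3, nat_lit 4, nat_lit 0x49⟩ (.nil) (.nil)
def t14_8602 : Tr := .node ⟨nat_lit 7, nat_lit 0x400020002000500050, nat_lit 0x11020, nat_lit 1, nat_lit 4, nat_lit 0x46⟩ (.nil) (.nil)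
def t14_4506 : Tr := .node ⟨nat_lit 7, nat_lit 0x400040002000500050, nat_lit 0x1111011, nat_lit 6, nat_lit 4, nat_lit 0x49⟩ (.nil) (.nil)
def t14_12698 : Tr := .node ⟨nat_lit 7, nat_lit 0x40001000100068, nat_lit 0x1002002, nat_lit 0, nat_lit 4, nat_lit 0x47⟩ (.nil) (.nil)
def t14_2458 : Tr := .node ⟨nat_lit 6, nat_lit 0x1000200030, nat_lit 0x102200, nat_lit 3, nat_lit 4, nat_lit 0x48⟩ (.nil) (.nil)
def t14_10650 : Tr := .node ⟨nat_lit 6, nat_lit 0x3000180028, nat_lit 0x220, nat_lit 1, nat_lit 4, nat_lit 0x44⟩ (.nil) (.nil)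
def t14_6554 : Tr := .node ⟨nat_lit 6, nat_lit 0x80030, nat_lit 0x101131, nat_lit 2, nat_lit 4, nat_lit 0x49⟩ (.nil) (.nil)
def t14_14746 : Tr := .node ⟨nat_lit 8, nat_lit 0xa0009000c00030, nat_lit 0x1011211, nat_lit 0, nat_lit 4, nat_lit 0x47⟩ (.nil) (.nil)
def t14_1434 : Tr := .node ⟨nat_lit 7, nat_lit 0x40004800300030, nat_lit 0x1001130, nat_lit 0, nat_lit 4, nat_lit 0x46⟩ (.nil) (.nil)
def t14_9626 : Tr := .node ⟨nat_lit 7, nat_lit 0x10002000500060, nat_lit 0x1022, nat_lit 1, nat_lit 4, nat_lit 0x46⟩ (.nil) (.nil)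
def t14_5530 : Tr := .node ⟨nat_lit 7, nat_lit 0x4000200020, nat_lit 0x1011031, nat_lit 0, nat_lit 3, nat_lit 0x48⟩ (.nil) (.nil)
def t14_13722 : Tr := .node ⟨nat_lit 8, nat_lit 0x400080008000880060, nat_lit 0x20100, nat_lit 1, nat_lit 4, nat_lit 0x47⟩ (.nil) (.nil)
def t14_3482 : Tr := .node ⟨nat_lit 5, nat_lit 0x40018, nat_lit 0x20, nat_lit 1, nat_lit 4, nat_lit 0x44⟩ (.nil) (.nil)
def t14_11674 : Tr := .node ⟨nat_lit 8, nat_lit 0x4000800090009000c000c0, nat_lit 0x301010, nat_lit 2, nat_lit 4, nat_lit 0x47⟩ (.nil) (.nil)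
def t14_7578 : Tr := .node ⟨nat_lit 6, nat_lit 0x800200030, nat_lit 0x221, nat_lit 1, nat_lit 4, nat_lit 0x46⟩ (.nil) (.nil)
def t14_922 : Tr := .node ⟨nat_lit 7, nat_lit 0x40004000200048, nat_lit 0x112112, nat_lit 2, nat_lit 4, nat_lit 0x49⟩ (.nil) (.nil)
def t14_9114 : Tr := .node ⟨nat_lit 9, nat_lit 0x100010000800110012001c0, nat_lit 0x11100002, nat_lit 1, nat_lit 4, nat_lit 0x48⟩ (.nil) (.nil)
def t14_5018 : Tr := .node ⟨nat_lit 7, nat_lit 0x800600050, nat_lit 0x10011, nat_lit 2, nat_lit 4, nat_lit 0x47⟩ (.nil) (.nil)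
def t14_13210 : Tr := .node ⟨nat_lit 8, nat_lit 0x2000800040008800c4, nat_lit 0x2000, nat_lit 3, nat_lit 4, nat_lit 0x47⟩ (.nil) (.nil)
def t14_2970 : Tr := .node ⟨nat_lit 6, nat_lit 0x10001000200020, nat_lit 0x102210, nat_lit 4, nat_lit 4, nat_lit 0x48⟩ (.nil) (.nil)
def t14_11162 : Tr := .node ⟨nat_lit 6, nat_lit 0x10002000300034, nat_lit 0x101001, nat_lit 3, nat_lit 4, nat_lit 0x45⟩ (.nil) (.nil)
def t14_7066 : Tr := .node ⟨nat_lit 5, nat_lit 0x1000180018, nat_lit 0x1211, nat_lit 9, nat_lit 4, nat_lit 0x47⟩ (.nil) (.nil)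
def t14_15258 : Tr := .node ⟨nat_lit 8, nat_lit 0x200080008000c000c8, nat_lit 0x1001021, nat_lit 3, nat_lit 4, nat_lit 0x48⟩ (.nil) (.nil)
def t14_1946 : Tr := .node ⟨nat_lit 6, nat_lit 0x1000200032, nat_lit 0x20102, nat_lit 0, nat_lit 4, nat_lit 0x46⟩ (.nil) (.nil)
def t14_10138 : Tr := .node ⟨nat_lit 8, nat_lit 0x4000400040008000e000e0, nat_lit 0x20220, nat_lit 2, nat_lit 4, nat_lit 0x47⟩ (.nil) (.nil)
def t14_6042 : Tr := .node ⟨nat_lit 9, nat_lit 0x100008000800080, nat_lit 0x2110110, nat_lit 1, nat_lit 4, nat_lit 0x4c⟩ (.nil) (.nil)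
def t14_14234 : Tr := .node ⟨nat_lit 8, nat_lit 0x4000800020002000c0, nat_lit 0x10011002, nat_lit 1, nat_lit 4, nat_lit 0x48⟩ (.nil) (.nil)
def t14_3994 : Tr := .node ⟨nat_lit 7, nat_lit 0x20001000500068, nat_lit 0x1002001, nat_lit 1, nat_lit 4, nat_lit 0x46⟩ (.nil) (.nil)
def t14_12186 : Tr := .node ⟨nat_lit 8, nat_lit 0x40004000800080008800c8, nat_lit 0x211100, nat_lit 1, nat_lit 4, nat_lit 0x47⟩ (.nil) (.nil)
def t14_8090 : Tr := .node ⟨nat_lit 7, nat_lit 0x10004000440060, nat_lit 0x100140, nat_lit 0, nat_lit 4, nat_lit 0x47⟩ (.nil) (.nil)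
def t9_410 : Tr := .node ⟨nat_lit 4, nat_lit 0, nat_lit 0x3220, nat_lit 0, nat_lit 4, nat_lit 0x49⟩ (.node ⟨nat_lit 5, nat_lit 0x10, nat_lit 0x13211, nat_lit 4, nat_lit 3, nat_lit 0x49⟩ (.node ⟨nat_lit 4, nat_lit 0x40008, nat_lit 0x2012, nat_lit 4, nat_lit 4, nat_lit 0x46⟩ (.node ⟨nat_lit 7, nat_lit 0x1000600018, nat_lit 0x1010221, nat_lit 0, nat_lit 4, nat_lit 0x48⟩ (.node ⟨nat_lit 7, nat_lit 0x6000180050, nat_lit 0x2211, nat_lit 1, nat_lit 4, nat_lit 0x47⟩ (t14_410) (t14_8602)) (.node ⟨nat_lit 8, nat_lit 0x80008000400088, nat_lit 0x10112001, nat_lit 4, nat_lit 4, nat_lit 0x4b⟩ (t14_4506) (t14_12698))) (.node ⟨nat_lit 3, nat_lit 0x40004, nat_lit 0x111, nat_lit 6, nat_lit 3, nat_lit 0x44⟩ (.node ⟨nat_lit 7, nat_lit 0x10004000200044, nat_lit 0x100210, nat_lit 0, nat_lit 4, nat_lit 0x47⟩ (t14_2458) (t14_10650)) (.node ⟨nat_lit 7, nat_lit 0x40004000480030,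 nat_lit 0x202011, nat_lit 1, nat_lit 4, nat_lit 0x48⟩ (t14_6554) (t14_14746)))) (.node ⟨nat_lit 6, nat_lit 0x300038, nat_lit 0x2112, nat_lit 0, nat_lit 4, nat_lit 0x46⟩ (.node ⟨nat_lit 5, nat_lit 0x10, nat_lit 0x12103, nat_lit 0, nat_lit 4, nat_lit 0x49⟩ (.node ⟨nat_lit 6, nat_lit 0x200030, nat_lit 0x1110, nat_lit 2, nat_lit 4, nat_lit 0x47⟩ (t14_1434) (t14_9626)) (.node ⟨nat_lit 9, nat_lit 0x400100008000500180, nat_lit 0x11200102, nat_lit 0, nat_lit 4, nat_lit 0x4a⟩ (t14_5530) (t14_13722))) (.node ⟨nat_lit 5, nat_lit 0x100012, nat_lit 0x1122, nat_lit 4, nat_lit 4, nat_lit 0x47⟩ (.node ⟨nat_lit 6, nat_lit 0x280030, nat_lit 0x111100, nat_lit 0, nat_lit 4, nat_lit 0x47⟩ (t14_3482) (t14_11674)) (.node ⟨nat_lit 6, nat_lit 0x800280030, nat_lit 0x111112, nat_lit 5, nat_lit 4, nat_lit 0x48⟩ (t14_7578) (.nil))))) (.node ⟨nat_lit 8, nat_lit 0x20008000c0,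 nat_lit 0x10031011, nat_lit 1, nat_lit 4, nat_lit 0x4b⟩ (.node ⟨nat_lit 6, nat_lit 0x200020, nat_lit 0x22110, nat_lit 0, nat_lit 4, nat_lit 0x49⟩ (.node ⟨nat_lit 6, nat_lit 0x200010, nat_lit 0x11111, nat_lit 1, nat_lit 4, nat_lit 0x48⟩ (.node ⟨nat_lit 6, nat_lit 0x1000200030, nat_lit 0x111321, nat_lit 1, nat_lit 4, nat_lit 0x49⟩ (t14_922) (t14_9114)) (.node ⟨nat_lit 4, nat_lit 0xc, nat_lit 0x2122, nat_lit 7, nat_lit 3, nat_lit 0x47⟩ (t14_5018) (t14_13210))) (.node ⟨nat_lit 4, nat_lit 0x80008, nat_lit 0x1120, nat_lit 0xa, nat_lit 4, nat_lit 0x48⟩ (.node ⟨nat_lit 5, nat_lit 0x100008, nat_lit 0x11121, nat_lit 5, nat_lit 3, nat_lit 0x47⟩ (t14_2970) (t14_11162)) (.node ⟨nat_lit 8, nat_lit 0x800020008800c0, nat_lit 0x11112002, nat_lit 0, nat_lit 4, nat_lit 0x4a⟩ (t14_7066) (t14_15258)))) (.node ⟨nat_lit 2, nat_lit 2, nat_lit 0x21, nat_lit 7, nat_lit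 4, nat_lit 0x44⟩ (.node ⟨nat_lit 6, nat_lit 0x1000300028, nat_lit 0x210121, nat_lit 3, nat_lit 4, nat_lit 0x48⟩ (.node ⟨nat_lit 7, nat_lit 0x800500060, nat_lit 0x1201013, nat_lit 0, nat_lit 4, nat_lit 0x49⟩ (t14_1946) (t14_10138)) (.node ⟨nat_lit 7, nat_lit 0x10001000600060, nat_lit 0x12020, nat_lit 0, nat_lit 4, nat_lit 0x47⟩ (t14_6042) (t14_14234))) (.node ⟨nat_lit 5, nat_lit 0x100018, nat_lit 0x1131, nat_lit 3, nat_lit 4, nat_lit 0x47⟩ (.node ⟨nat_lit 5, nat_lit 0x140018, nat_lit 0x11102, nat_lit 2, nat_lit 4, nat_lit 0x46⟩ (t14_3994) (t14_12186)) (.node ⟨nat_lit 8, nat_lit 0x800040005000a000d000e0, nat_lit 0x1210101, nat_lit 0, nat_lit 4, nat_lit 0x46⟩ (t14_8090) (.nil)))))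
def t14_90 : Tr := .node ⟨nat_lit 7, nat_lit 0x20004000600068, nat_lit 0x1111211, nat_lit 0, nat_lit 4, nat_lit 0x48⟩ (.nil) (.nil)
def t14_8282 : Tr := .node ⟨nat_lit 7, nat_lit 0x10004000600064, nat_lit 0x203, nat_lit 2, nat_lit 4, nat_lit 0x46⟩ (.nil) (.nil)
def t14_4186 : Tr := .node ⟨nat_lit 9, nat_lit 0x100010000800080012001400190, nat_lit 0x11111001, nat_lit 1, nat_lit 4, nat_lit 0x48⟩ (.nil) (.nil)
def t14_12378 : Tr := .node ⟨nat_lit 7, nat_lit 0x40004000200060, nat_lit 0x13210, nat_lit 2, nat_lit 4, nat_lit 0x49⟩ (.nil) (.nil)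
def t14_2138 : Tr := .node ⟨nat_lit 6, nat_lit 0x2000200010, nat_lit 0x11210, nat_lit 2, nat_lit 4, nat_lit 0x48⟩ (.nil) (.nil)
def t14_10330 : Tr := .node ⟨nat_lit 6, nat_lit 0x1000100020, nat_lit 0x211220, nat_lit 1, nat_lit 3, nat_lit 0x48⟩ (.nil) (.nil)
def t14_6234 : Tr := .node ⟨nat_lit 7, nat_lit 0x4000200020, nat_lit 0x11010, nat_lit 3, nat_lit 4, nat_lit 0x49⟩ (.nil) (.nil)
def t14_14426 : Tr := .node ⟨nat_lit 7, nat_lit 0x20006000500068, nat_lit 0x1001211, nat_lit 1, nat_lit 4, nat_lit 0x46⟩ (.nil) (.nil)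
def t14_1114 : Tr := .node ⟨nat_lit 7, nat_lit 0x20004000100068, nat_lit 0x110221, nat_lit 2, nat_lit 4, nat_lit 0x48⟩ (.nil) (.nil)
def t14_9306 : Tr := .node ⟨nat_lit 7, nat_lit 0x40003000500060, nat_lit 0x202, nat_lit 0, nat_lit 4, nat_lit 0x45⟩ (.nil) (.nil)
def t14_5210 : Tr := .node ⟨nat_lit 8, nat_lit 0x80008000400040009000a0, nat_lit 0x121011, nat_lit 3, nat_lit 4, nat_lit 0x48⟩ (.nil) (.nil)
def t14_13402 : Tr := .node ⟨nat_lit 8, nat_lit 0x800080004000900060, nat_lit 0x20300, nat_lit 1, nat_lit 4, nat_lit 0x48⟩ (.nil) (.nil)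
def t14_3162 : Tr := .node ⟨nat_lit 8, nat_lit 0x800040004000c000a0, nat_lit 0x122011, nat_lit 0, nat_lit 4, nat_lit 0x48⟩ (.nil) (.nil)
def t14_11354 : Tr := .node ⟨nat_lit 7, nat_lit 0x10004000200060, nat_lit 0x1000110, nat_lit 1, nat_lit 3, nat_lit 0x46⟩ (.nil) (.nil)
def t14_7258 : Tr := .node ⟨nat_lit 6, nat_lit 0x1800280030, nat_lit 0x102121, nat_lit 2, nat_lit 4, nat_lit 0x47⟩ (.nil) (.nil)
def t14_15450 : Tr := .node ⟨nat_lit 6, nat_lit 0x2000200030, nat_lit 0x111112, nat_lit 2, nat_lit 3, nat_lit 0x47⟩ (.nil) (.nil)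
def t14_602 : Tr := .node ⟨nat_lit 7, nat_lit 0x200020004000440060, nat_lit 0x20002, nat_lit 1, nat_lit 4, nat_lit 0x46⟩ (.nil) (.nil)
def t14_8794 : Tr := .node ⟨nat_lit 9, nat_lit 0x800100010001080108, nat_lit 0x1101031, nat_lit 0, nat_lit 4, nat_lit 0x4a⟩ (.nil) (.nil)
def t14_4698 : Tr := .node ⟨nat_lit 7, nat_lit 0x4000100060, nat_lit 0x1100001, nat_lit 0, nat_lit 4, nat_lit 0x48⟩ (.nil) (.nil)
def t14_12890 : Tr := .node ⟨nat_lit 6, nat_lit 0x2000300030, nat_lit 0x1040, nat_lit 3, nat_lit 4, nat_lit 0x47⟩ (.nil) (.nil)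
def t14_2650 : Tr := .node ⟨nat_lit 6, nat_lit 0x3000300038, nat_lit 0x2301, nat_lit 3, nat_lit 4, nat_lit 0x46⟩ (.nil) (.nil)
def t14_10842 : Tr := .node ⟨nat_lit 5, nat_lit 0x100018, nat_lit 0x21102, nat_lit 4, nat_lit 3, nat_lit 0x47⟩ (.nil) (.nil)
def t14_6746 : Tr := .node ⟨nat_lit 7, nat_lit 0x1000600018, nat_lit 0x1102110, nat_lit 0, nat_lit 4, nat_lit 0x48⟩ (.nil) (.nil)
def t14_14938 : Tr := .node ⟨nat_lit 6, nat_lit 0x20002800280028, nat_lit 0x111111, nat_lit 6, nat_lit 4, nat_lit 0x48⟩ (.nil) (.nil)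
def t14_1626 : Tr := .node ⟨nat_lit 8, nat_lit 0x80004000c000d000c8, nat_lit 0x121200, nat_lit 1, nat_lit 4, nat_lit 0x47⟩ (.nil) (.nil)
def t14_9818 : Tr := .node ⟨nat_lit 8, nat_lit 0x200040004000a000c0, nat_lit 0x21001, nat_lit 0, nat_lit 4, nat_lit 0x47⟩ (.nil) (.nil)
def t14_5722 : Tr := .node ⟨nat_lit 6, nat_lit 0x2000200024, nat_lit 0x11012, nat_lit 2, nat_lit 4, nat_lit 0x47⟩ (.nil) (.nil)
def t14_13914 : Tr := .node ⟨nat_lit 8, nat_lit 0x800020002000c0, nat_lit 0x13200, nat_lit 0, nat_lit 4, nat_lit 0x49⟩ (.nil) (.nil)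
def t14_3674 : Tr := .node ⟨nat_lit 4, nat_lit 0xc, nat_lit 0x40, nat_lit 3, nat_lit 4, nat_lit 0x46⟩ (.nil) (.nil)
def t14_11866 : Tr := .node ⟨nat_lit 4, nat_lit 0xc, nat_lit 0x3010, nat_lit 2, nat_lit 3, nat_lit 0x46⟩ (.nil) (.nil)
def t14_7770 : Tr := .node ⟨nat_lit 8, nat_lit 0x4000800080009000900060, nat_lit 0x201100, nat_lit 0, nat_lit 4, nat_lit 0x46⟩ (.nil) (.nil)
def t9_90 : Tr := .node ⟨nat_lit 5, nat_lit 0x80010, nat_lit 0x11101, nat_lit 1, nat_lit 3, nat_lit 0x46⟩ (.node ⟨nat_lit 6, nat_lit 0x200022, nat_lit 0x322111, nat_lit 0, nat_lit 4, nat_lit 0x4b⟩ (.node ⟨nat_lit 7, nat_lit 0x4000600060, nat_lit 0x31120, nat_lit 1, nat_lit 4, nat_lit 0x49⟩ (.node ⟨nat_lit 7, nat_lit 0x40004800480060, nat_lit 0x1021101, nat_lit 1, nat_lit 4, nat_lit 0x48⟩ (.node ⟨nat_lit 4, nat_lit 0x80004, nat_lit 0x1212, nat_lit 0xc, nat_lit 4, nat_lit 0x49⟩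 (t14_90) (t14_8282)) (.node ⟨nat_lit 6, nat_lit 0x10002000200030, nat_lit 0x2000, nat_lit 0, nat_lit 3, nat_lit 0x44⟩ (t14_4186) (t14_12378))) (.node ⟨nat_lit 7, nat_lit 0x1000400060, nat_lit 0x2101012, nat_lit 0, nat_lit 3, nat_lit 0x48⟩ (.node ⟨nat_lit 5, nat_lit 0x800080010, nat_lit 0x10401, nat_lit 2, nat_lit 3, nat_lit 0x46⟩ (t14_2138) (t14_10330)) (.node ⟨nat_lit 7, nat_lit 0x40004000200048, nat_lit 0x122102, nat_lit 1, nat_lit 4, nat_lit 0x49⟩ (t14_6234) (t14_14426)))) (.node ⟨nat_lit 5, nat_lit 0x18, nat_lit 0x223, nat_lit 1, nat_lit 4, nat_lit 0x47⟩ (.node ⟨nat_lit 5, nat_lit 0x800080010, nat_lit 0x11111, nat_lit 5, nat_lit 3, nat_lit 0x46⟩ (.node ⟨nat_lit 6, nat_lit 0x800300028, nat_lit 0x111041, nat_lit 0, nat_lit 4, nat_lit 0x47⟩ (t14_1114) (t14_9306)) (.node ⟨nat_lit 6, nat_lit 0x2000300030, nat_lit 0x11221, nat_lit 5, nat_lit 4, nat_lit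 0x48⟩ (t14_5210) (t14_13402))) (.node ⟨nat_lit 5, nat_lit 0x80010, nat_lit 0x12110, nat_lit 6, nat_lit 4, nat_lit 0x49⟩ (.node ⟨nat_lit 6, nat_lit 0x280030, nat_lit 0x102130, nat_lit 3, nat_lit 4, nat_lit 0x49⟩ (t14_3162) (t14_11354)) (.node ⟨nat_lit 6, nat_lit 0x300030, nat_lit 0x101120, nat_lit 1, nat_lit 4, nat_lit 0x47⟩ (t14_7258) (t14_15450))))) (.node ⟨nat_lit 1, nat_lit 0, nat_lit 3, nat_lit 0xa, nat_lit 3, nat_lit 0x44⟩ (.node ⟨nat_lit 5, nat_lit 0x80010, nat_lit 0x10201, nat_lit 0, nat_lit 4, nat_lit 0x46⟩ (.node ⟨nat_lit 5, nat_lit 0x80010, nat_lit 0x20100, nat_lit 3, nat_lit 4, nat_lit 0x47⟩ (.node ⟨nat_lit 7, nat_lit 0x40001000480060, nat_lit 0x2012110, nat_lit 1, nat_lit 4, nat_lit 0x49⟩ (t14_602) (t14_8794)) (.node ⟨nat_lit 7, nat_lit 0x40001000100060, nat_lit 0x1110212, nat_lit 1, nat_lit 4, nat_lit 0x49⟩ (t14_4698) (t14_12890)))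 (.node ⟨nat_lit 5, nat_lit 0x180018, nat_lit 0x10122, nat_lit 3, nat_lit 4, nat_lit 0x46⟩ (.node ⟨nat_lit 7, nat_lit 0x4000440060, nat_lit 0x1211103, nat_lit 1, nat_lit 4, nat_lit 0x4a⟩ (t14_2650) (t14_10842)) (.node ⟨nat_lit 0xa, nat_lit 0x100020002000080008002100220, nat_lit 0x1000111000, nat_lit 3, nat_lit 4, nat_lit 0x4a⟩ (t14_6746) (t14_14938)))) (.node ⟨nat_lit 7, nat_lit 0x200040003000480068, nat_lit 0x2111010, nat_lit 0, nat_lit 4, nat_lit 0x47⟩ (.node ⟨nat_lit 6, nat_lit 0x300030, nat_lit 0x202210, nat_lit 1, nat_lit 4, nat_lit 0x49⟩ (.node ⟨nat_lit 6, nat_lit 0x1000080020, nat_lit 0x1000, nat_lit 0, nat_lit 4, nat_lit 0x45⟩ (t14_1626) (t14_9818)) (.node ⟨nat_lit 7, nat_lit 0x400040, nat_lit 0x1221111, nat_lit 0, nat_lit 4, nat_lit 0x4c⟩ (t14_5722) (t14_13914))) (.node ⟨nat_lit 7, nat_lit 0x40004c0070, nat_lit 0x201102, nat_lit 0, nat_lit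 4, nat_lit 0x47⟩ (.node ⟨nat_lit 6, nat_lit 0x2000100030, nat_lit 0x1000, nat_lit 1, nat_lit 4, nat_lit 0x45⟩ (t14_3674) (t14_11866)) (.node ⟨nat_lit 5, nat_lit 0x80010, nat_lit 0x11102, nat_lit 8, nat_lit 4, nat_lit 0x49⟩ (t14_7770) (.nil)))))
def t14_346 : Tr := .node ⟨nat_lit 7, nat_lit 0x40004000100060, nat_lit 0x212011, nat_lit 1, nat_lit 4, nat_lit 0x49⟩ (.nil) (.nil)
def t14_8538 : Tr := .node ⟨nat_lit 8, nat_lit 0x400080002000880088, nat_lit 0x10001041, nat_lit 1, nat_lit 4, nat_lit 0x49⟩ (.nil) (.nil)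
def t14_4442 : Tr := .node ⟨nat_lit 7, nat_lit 0x60, nat_lit 0x1122111, nat_lit 0, nat_lit 4, nat_lit 0x4c⟩ (.nil) (.nil)
def t14_12634 : Tr := .node ⟨nat_lit 7, nat_lit 0x20004000600050, nat_lit 0x101330, nat_lit 1, nat_lit 4, nat_lit 0x48⟩ (.nil) (.nil)
def t14_2394 : Tr := .node ⟨nat_lit 7, nat_lit 0x5000500060, nat_lit 0x112102, nat_lit 0, nat_lit 4, nat_lit 0x48⟩ (.nil) (.nil)
def t14_10586 : Tr := .node ⟨nat_lit 6, nat_lit 0x280030, nat_lit 0x220, nat_lit 3, nat_lit 4, nat_lit 0x47⟩ (.nil) (.nil)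
def t14_6490 : Tr := .node ⟨nat_lit 6, nat_lit 0x80030, nat_lit 0x111120, nat_lit 2, nat_lit 4, nat_lit 0x49⟩ (.nil) (.nil)
def t14_14682 : Tr := .node ⟨nat_lit 9, nat_lit 0x1000080014000a001c001a001a0, nat_lit 0x1101110, nat_lit 0, nat_lit 4, nat_lit 0x45⟩ (.nil) (.nil)
def t14_1370 : Tr := .node ⟨nat_lit 7, nat_lit 0x20005000680068, nat_lit 0x100310, nat_lit 1, nat_lit 4, nat_lit 0x45⟩ (.nil) (.nil)
def t14_9562 : Tr := .node ⟨nat_lit 7, nat_lit 0x400040006000700070, nat_lit 0x10220, nat_lit 5, nat_lit 4, nat_lit 0x46⟩ (.nil) (.nil)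
def t14_5466 : Tr := .node ⟨nat_lit 6, nat_lit 0x2000100024, nat_lit 0x11003, nat_lit 1, nat_lit 4, nat_lit 0x46⟩ (.nil) (.nil)
def t14_13658 : Tr := .node ⟨nat_lit 3, nat_lit 4, nat_lit 0x32, nat_lit 9, nat_lit 4, nat_lit 0x47⟩ (.nil) (.nil)
def t14_3418 : Tr := .node ⟨nat_lit 5, nat_lit 0x40018, nat_lit 0x201, nat_lit 3, nat_lit 4, nat_lit 0x46⟩ (.nil) (.nil)
def t14_11610 : Tr := .node ⟨nat_lit 7, nat_lit 0x10006000600070, nat_lit 0x12310, nat_lit 0, nat_lit 4, nat_lit 0x46⟩ (.nil) (.nil)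
def t14_7514 : Tr := .node ⟨nat_lit 8, nat_lit 0x8000400040, nat_lit 0x11111011, nat_lit 1, nat_lit 4, nat_lit 0x4c⟩ (.nil) (.nil)
def t14_858 : Tr := .node ⟨nat_lit 9, nat_lit 0x1000100008000400110, nat_lit 0x1120012, nat_lit 0, nat_lit 4, nat_lit 0x4a⟩ (.nil) (.nil)
def t14_9050 : Tr := .node ⟨nat_lit 6, nat_lit 0x20001000100030, nat_lit 0x212, nat_lit 3, nat_lit 3, nat_lit 0x45⟩ (.nil) (.nil)
def t14_4954 : Tr := .node ⟨nat_lit 7, nat_lit 0x1000600060, nat_lit 0x1111031, nat_lit 0, nat_lit 4, nat_lit 0x49⟩ (.nil) (.nil)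
def t14_13146 : Tr := .node ⟨nat_lit 6, nat_lit 0x800080030, nat_lit 0x203, nat_lit 1, nat_lit 4, nat_lit 0x46⟩ (.nil) (.nil)
def t14_2906 : Tr := .node ⟨nat_lit 8, nat_lit 0x20004000a000c000c8, nat_lit 0x1012021, nat_lit 0, nat_lit 4, nat_lit 0x47⟩ (.nil) (.nil)
def t14_11098 : Tr := .node ⟨nat_lit 6, nat_lit 0x800300030, nat_lit 0x120, nat_lit 1, nat_lit 3, nat_lit 0x44⟩ (.nil) (.nil)
def t14_7002 : Tr := .node ⟨nat_lit 7, nat_lit 0x40002000200060, nat_lit 0x110112, nat_lit 1, nat_lit 3, nat_lit 0x47⟩ (.nil) (.nil)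
def t14_15194 : Tr := .node ⟨nat_lit 8, nat_lit 0x800040004000a000c8, nat_lit 0x1101112, nat_lit 0, nat_lit 4, nat_lit 0x48⟩ (.nil) (.nil)
def t14_1882 : Tr := .node ⟨nat_lit 6, nat_lit 0x8000c0030, nat_lit 0x2101, nat_lit 0, nat_lit 4, nat_lit 0x46⟩ (.nil) (.nil)
def t14_10074 : Tr := .node ⟨nat_lit 6, nat_lit 0x2800300030, nat_lit 0x101220, nat_lit 6, nat_lit 4, nat_lit 0x47⟩ (.nil) (.nil)
def t14_5978 : Tr := .node ⟨nat_lit 8, nat_lit 0x80008000c0, nat_lit 0x111112, nat_lit 0, nat_lit 4, nat_lit 0x4a⟩ (.nil) (.nil)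
def t14_14170 : Tr := .node ⟨nat_lit 6, nat_lit 0x2000280030, nat_lit 0x10102, nat_lit 9, nat_lit 4, nat_lit 0x48⟩ (.nil) (.nil)
def t14_3930 : Tr := .node ⟨nat_lit 7, nat_lit 0x40002000500068, nat_lit 0x1001310, nat_lit 1, nat_lit 4, nat_lit 0x47⟩ (.nil) (.nil)
def t14_12122 : Tr := .node ⟨nat_lit 7, nat_lit 0x10002000400060, nat_lit 0x100120, nat_lit 3, nat_lit 4, nat_lit 0x48⟩ (.nil) (.nil)
def t14_8026 : Tr := .node ⟨nat_lit 6, nat_lit 0x2000100024, nat_lit 0x11103, nat_lit 2, nat_lit 4, nat_lit 0x47⟩ (.nil) (.nil)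
def t9_346 : Tr := .node ⟨nat_lit 3, nat_lit 0, nat_lit 0x332, nat_lit 9, nat_lit 4, nat_lit 0x4a⟩ (.node ⟨nat_lit 4, nat_lit 8, nat_lit 0x3212, nat_lit 6, nat_lit 4, nat_lit 0x4a⟩ (.node ⟨nat_lit 4, nat_lit 0x40008, nat_lit 0x2222, nat_lit 5, nat_lit 4, nat_lit 0x48⟩ (.node ⟨nat_lit 5, nat_lit 0x100008, nat_lit 0x11202, nat_lit 6, nat_lit 4, nat_lit 0x49⟩ (.node ⟨nat_lit 5, nat_lit 0x1c, nat_lit 0x22213, nat_lit 0, nat_lit 4, nat_lit 0x49⟩ (t14_346) (t14_8538)) (.node ⟨nat_lit 7, nat_lit 0x10002000500060, nat_lit 0x11041, nat_lit 0, nat_lit 4, nat_lit 0x47⟩ (t14_4442) (t14_12634))) (.node ⟨nat_lit 6, nat_lit 0x1000200030, nat_lit 0x211212, nat_lit 0, nat_lit 4, nat_lit 0x49⟩ (.node ⟨nat_lit 4, nat_lit 0x8000c, nat_lit 0x1013, nat_lit 7, nat_lit 4, nat_lit 0x46⟩ (t14_2394) (t14_10586)) (.node ⟨nat_lit 5, nat_lit 0x10, nat_lit 0x2114, nat_lit 1,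 nat_lit 4, nat_lit 0x49⟩ (t14_6490) (t14_14682)))) (.node ⟨nat_lit 6, nat_lit 0x20002000100010, nat_lit 0x11000, nat_lit 0, nat_lit 3, nat_lit 0x45⟩ (.node ⟨nat_lit 6, nat_lit 0x200030, nat_lit 0x122213, nat_lit 0, nat_lit 4, nat_lit 0x4a⟩ (.node ⟨nat_lit 5, nat_lit 0x140018, nat_lit 0x2130, nat_lit 5, nat_lit 4, nat_lit 0x47⟩ (t14_1370) (t14_9562)) (.node ⟨nat_lit 7, nat_lit 0x4000180060, nat_lit 0x221120, nat_lit 0, nat_lit 4, nat_lit 0x49⟩ (t14_5466) (t14_13658))) (.node ⟨nat_lit 5, nat_lit 0x18, nat_lit 0x31112, nat_lit 5, nat_lit 4, nat_lit 0x4a⟩ (.node ⟨nat_lit 7, nat_lit 0x40004000200068, nat_lit 0x121103, nat_lit 1, nat_lit 4, nat_lit 0x48⟩ (t14_3418) (t14_11610)) (.node ⟨nat_lit 8, nat_lit 0x8000800020009000c0, nat_lit 0x111100, nat_lit 1, nat_lit 4, nat_lit 0x48⟩ (t14_7514) (.nil))))) (.node ⟨nat_lit 1, nat_lit 0, nat_lit 4, nat_lit 6,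 nat_lit 3, nat_lit 0x44⟩ (.node ⟨nat_lit 6, nat_lit 0x30, nat_lit 0x212111, nat_lit 0, nat_lit 4, nat_lit 0x4a⟩ (.node ⟨nat_lit 6, nat_lit 0x280030, nat_lit 0x11111, nat_lit 3, nat_lit 4, nat_lit 0x47⟩ (.node ⟨nat_lit 7, nat_lit 0x20004000100060, nat_lit 0x21301, nat_lit 0, nat_lit 4, nat_lit 0x48⟩ (t14_858) (t14_9050)) (.node ⟨nat_lit 7, nat_lit 0x2000200040, nat_lit 0x1122201, nat_lit 0, nat_lit 4, nat_lit 0x4b⟩ (t14_4954) (t14_13146))) (.node ⟨nat_lit 6, nat_lit 0x1000280030, nat_lit 0x101012, nat_lit 4, nat_lit 4, nat_lit 0x47⟩ (.node ⟨nat_lit 7, nat_lit 0x400040002000240050, nat_lit 0x120211, nat_lit 0, nat_lit 4, nat_lit 0x47⟩ (t14_2906) (t14_11098)) (.node ⟨nat_lit 6, nat_lit 0x2000240030, nat_lit 0x111302, nat_lit 4, nat_lit 4, nat_lit 0x49⟩ (t14_7002) (t14_15194)))) (.node ⟨nat_lit 6, nat_lit 0x80030, nat_lit 0x211110, nat_lit 1, nat_lit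 4, nat_lit 0x49⟩ (.node ⟨nat_lit 7, nat_lit 0x400040002000480070, nat_lit 0x1211101, nat_lit 1, nat_lit 4, nat_lit 0x48⟩ (.node ⟨nat_lit 7, nat_lit 0x40004800600068, nat_lit 0x1111131, nat_lit 1, nat_lit 4, nat_lit 0x48⟩ (t14_1882) (t14_10074)) (.node ⟨nat_lit 6, nat_lit 0x2000200030, nat_lit 0x22300, nat_lit 0, nat_lit 3, nat_lit 0x47⟩ (t14_5978) (t14_14170))) (.node ⟨nat_lit 7, nat_lit 0x40001000600050, nat_lit 0x1202, nat_lit 0, nat_lit 4, nat_lit 0x46⟩ (.node ⟨nat_lit 7, nat_lit 0x40001000600050, nat_lit 0x110104, nat_lit 1, nat_lit 4, nat_lit 0x48⟩ (t14_3930) (t14_12122)) (.node ⟨nat_lit 6, nat_lit 0x280030, nat_lit 0x110112, nat_lit 7, nat_lit 4, nat_lit 0x49⟩ (t14_8026) (.nil)))))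
def t14_218 : Tr := .node ⟨nat_lit 7, nat_lit 0x20005000500068, nat_lit 0x211212, nat_lit 0, nat_lit 4, nat_lit 0x47⟩ (.nil) (.nil)
def t14_8410 : Tr := .node ⟨nat_lit 7, nat_lit 0x20004000400044, nat_lit 0x10224, nat_lit 0, nat_lit 4, nat_lit 0x49⟩ (.nil) (.nil)
def t14_4314 : Tr := .node ⟨nat_lit 9, nat_lit 0x100010000800140012001c001c0, nat_lit 0x100100121, nat_lit 1, nat_lit 4, nat_lit 0x47⟩ (.nil) (.nil)
def t14_12506 : Tr := .node ⟨nat_lit 7, nat_lit 0x20005000300060, nat_lit 0x1000300, nat_lit 1, nat_lit 4, nat_lit 0x46⟩ (.nil) (.nil)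
def t14_2266 : Tr := .node ⟨nat_lit 9, nat_lit 0x1000080008000800040, nat_lit 0x1102200, nat_lit 0, nat_lit 4, nat_lit 0x4b⟩ (.nil) (.nil)
def t14_10458 : Tr := .node ⟨nat_lit 8, nat_lit 0x800060006000b000d0, nat_lit 0x20003200, nat_lit 0, nat_lit 4, nat_lit 0x46⟩ (.nil) (.nil)
def t14_6362 : Tr := .node ⟨nat_lit 8, nat_lit 0x8000800020002000c0, nat_lit 0x21100, nat_lit 1, nat_lit 4, nat_lit 0x48⟩ (.nil) (.nil)
def t14_14554 : Tr := .node ⟨nat_lit 0xa, nat_lit 0x800200020000400300, nat_lit 0x102100, nat_lit 1, nat_lit 4, nat_lit 0x4b⟩ (.nil) (.nil)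
def t14_1242 : Tr := .node ⟨nat_lit 6, nat_lit 0x10002000200034, nat_lit 0x102112, nat_lit 4, nat_lit 4, nat_lit 0x47⟩ (.nil) (.nil)
def t14_9434 : Tr := .node ⟨nat_lit 7, nat_lit 0x400040002000500060, nat_lit 0x111312, nat_lit 2, nat_lit 4, nat_lit 0x48⟩ (.nil) (.nil)
def t14_5338 : Tr := .node ⟨nat_lit 4, nat_lit 0x80004, nat_lit 0x3110, nat_lit 7, nat_lit 3, nat_lit 0x47⟩ (.nil) (.nil)
def t14_13530 : Tr := .node ⟨nat_lit 4, nat_lit 0x80008, nat_lit 0x1200, nat_lit 5, nat_lit 4, nat_lit 0x46⟩ (.nil) (.nil)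
def t14_3290 : Tr := .node ⟨nat_lit 8, nat_lit 0x8000800020009000c0, nat_lit 0x1120011, nat_lit 2, nat_lit 4, nat_lit 0x49⟩ (.nil) (.nil)
def t14_11482 : Tr := .node ⟨nat_lit 6, nat_lit 0x10002000200038, nat_lit 0x11100, nat_lit 3, nat_lit 4, nat_lit 0x46⟩ (.nil) (.nil)
def t14_7386 : Tr := .node ⟨nat_lit 7, nat_lit 0x2000200040, nat_lit 0x1020001, nat_lit 0, nat_lit 4, nat_lit 0x49⟩ (.nil) (.nil)
def t14_15578 : Tr := .node ⟨nat_lit 4, nat_lit 0, nat_lit 0x2222, nat_lit 0xc, nat_lit 4, nat_lit 0x4b⟩ (.nil) (.nil)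
def t14_730 : Tr := .node ⟨nat_lit 8, nat_lit 0x40001000a000c0, nat_lit 0x10113, nat_lit 1, nat_lit 4, nat_lit 0x48⟩ (.nil) (.nil)
def t14_8922 : Tr := .node ⟨nat_lit 6, nat_lit 0x10002000200030, nat_lit 0x101, nat_lit 0, nat_lit 3, nat_lit 0x44⟩ (.nil) (.nil)
def t14_4826 : Tr := .node ⟨nat_lit 6, nat_lit 0x2000100008, nat_lit 0x212020, nat_lit 0, nat_lit 3, nat_lit 0x48⟩ (.nil) (.nil)
def t14_13018 : Tr := .node ⟨nat_lit 7, nat_lit 0x400020002000500068, nat_lit 0x20000, nat_lit 7, nat_lit 4, nat_lit 0x47⟩ (.nil) (.nil)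
def t14_2778 : Tr := .node ⟨nat_lit 7, nat_lit 0x20004000100060, nat_lit 0x1012101, nat_lit 1, nat_lit 4, nat_lit 0x48⟩ (.nil) (.nil)
def t14_10970 : Tr := .node ⟨nat_lit 7, nat_lit 0x40002000200048, nat_lit 0x1001301, nat_lit 0, nat_lit 4, nat_lit 0x48⟩ (.nil) (.nil)
def t14_6874 : Tr := .node ⟨nat_lit 8, nat_lit 0x8000800084, nat_lit 0x1111200, nat_lit 1, nat_lit 4, nat_lit 0x4b⟩ (.nil) (.nil)
def t14_15066 : Tr := .node ⟨nat_lit 6, nat_lit 0x800280030, nat_lit 0x101211, nat_lit 3, nat_lit 3, nat_lit 0x46⟩ (.nil) (.nil)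
def t14_1754 : Tr := .node ⟨nat_lit 4, nat_lit 0x8000c, nat_lit 0x204, nat_lit 7, nat_lit 4, nat_lit 0x47⟩ (.nil) (.nil)
def t14_9946 : Tr := .node ⟨nat_lit 7, nat_lit 0x40002000480068, nat_lit 0x10003, nat_lit 0, nat_lit 4, nat_lit 0x45⟩ (.nil) (.nil)
def t14_5850 : Tr := .node ⟨nat_lit 7, nat_lit 0x40001000600068, nat_lit 0x11021, nat_lit 1, nat_lit 4, nat_lit 0x46⟩ (.nil) (.nil)
def t14_14042 : Tr := .node ⟨nat_lit 7, nat_lit 0x1800500060, nat_lit 0x101202, nat_lit 2, nat_lit 4, nat_lit 0x47⟩ (.nil) (.nil)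
def t14_3802 : Tr := .node ⟨nat_lit 8, nat_lit 0x8000800040009000a000e0, nat_lit 0x10011002, nat_lit 2, nat_lit 4, nat_lit 0x47⟩ (.nil) (.nil)
def t14_11994 : Tr := .node ⟨nat_lit 7, nat_lit 0x20004000600068, nat_lit 0x211201, nat_lit 0, nat_lit 4, nat_lit 0x48⟩ (.nil) (.nil)
def t14_7898 : Tr := .node ⟨nat_lit 6, nat_lit 0x1000200030, nat_lit 0x1021, nat_lit 4, nat_lit 4, nat_lit 0x47⟩ (.nil) (.nil)
def t9_218 : Tr := .node ⟨nat_lit 4, nat_lit 0, nat_lit 0x3321, nat_lit 0, nat_lit 3, nat_lit 0x49⟩ (.node ⟨nat_lit 6, nat_lit 0x10002000240024, nat_lit 0x300132, nat_lit 1, nat_lit 4, nat_lit 0x49⟩ (.node ⟨nat_lit 5, nat_lit 0x100010, nat_lit 0x3130, nat_lit 3, nat_lit 4, nat_lit 0x49⟩ (.node ⟨nat_lit 5, nat_lit 0x1000100008, nat_lit 0x11203, nat_lit 4, nat_lit 4, nat_lit 0x48⟩ (.node ⟨nat_lit 8, nat_lit 0x800020002000c0, nat_lit 0x2020102, nat_lit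 1, nat_lit 4, nat_lit 0x4a⟩ (t14_218) (t14_8410)) (.node ⟨nat_lit 6, nat_lit 0x2000300028, nat_lit 0x111230, nat_lit 1, nat_lit 3, nat_lit 0x46⟩ (t14_4314) (t14_12506))) (.node ⟨nat_lit 6, nat_lit 0x2000100008, nat_lit 0x12033, nat_lit 0, nat_lit 4, nat_lit 0x49⟩ (.node ⟨nat_lit 8, nat_lit 0x400080002000c000e0, nat_lit 0x101123, nat_lit 0, nat_lit 4, nat_lit 0x47⟩ (t14_2266) (t14_10458)) (.node ⟨nat_lit 8, nat_lit 0x10004000a000c4, nat_lit 0x12000120, nat_lit 1, nat_lit 4, nat_lit 0x49⟩ (t14_6362) (t14_14554)))) (.node ⟨nat_lit 5, nat_lit 0x10, nat_lit 0x12113, nat_lit 1, nat_lit 4, nat_lit 0x49⟩ (.node ⟨nat_lit 6, nat_lit 0x30, nat_lit 0x212111, nat_lit 3, nat_lit 4, nat_lit 0x4b⟩ (.node ⟨nat_lit 5, nat_lit 0x40018, nat_lit 0x11003, nat_lit 1, nat_lit 4, nat_lit 0x46⟩ (t14_1242) (t14_9434)) (.node ⟨nat_lit 7, nat_lit 0x40004000200060, nat_lit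 0x122021, nat_lit 0, nat_lit 4, nat_lit 0x49⟩ (t14_5338) (t14_13530))) (.node ⟨nat_lit 6, nat_lit 0x2000100030, nat_lit 0x12003, nat_lit 3, nat_lit 4, nat_lit 0x48⟩ (.node ⟨nat_lit 6, nat_lit 0x2000300034, nat_lit 0x111140, nat_lit 2, nat_lit 4, nat_lit 0x48⟩ (t14_3290) (t14_11482)) (.node ⟨nat_lit 7, nat_lit 0x400040002000240050, nat_lit 0x121120, nat_lit 1, nat_lit 4, nat_lit 0x47⟩ (t14_7386) (t14_15578))))) (.node ⟨nat_lit 6, nat_lit 0x2000200010, nat_lit 0x13110, nat_lit 0, nat_lit 4, nat_lit 0x48⟩ (.node ⟨nat_lit 6, nat_lit 0x80030, nat_lit 0x210102, nat_lit 3, nat_lit 4, nat_lit 0x49⟩ (.node ⟨nat_lit 6, nat_lit 0x2000080030, nat_lit 0x121102, nat_lit 0, nat_lit 4, nat_lit 0x48⟩ (.node ⟨nat_lit 6, nat_lit 0x1000200020, nat_lit 0x122011, nat_lit 3, nat_lit 4, nat_lit 0x4a⟩ (t14_730) (t14_8922)) (.node ⟨nat_lit 5, nat_lit 0x1000100008, nat_lit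 0x1222, nat_lit 2, nat_lit 4, nat_lit 0x47⟩ (t14_4826) (t14_13018))) (.node ⟨nat_lit 7, nat_lit 0x40001000100060, nat_lit 0x100102, nat_lit 1, nat_lit 4, nat_lit 0x47⟩ (.node ⟨nat_lit 6, nat_lit 0x800280030, nat_lit 0x121004, nat_lit 0, nat_lit 4, nat_lit 0x48⟩ (t14_2778) (t14_10970)) (.node ⟨nat_lit 7, nat_lit 0x1000600050, nat_lit 0x1011022, nat_lit 0, nat_lit 4, nat_lit 0x48⟩ (t14_6874) (t14_15066)))) (.node ⟨nat_lit 6, nat_lit 0x300038, nat_lit 0x111122, nat_lit 0, nat_lit 4, nat_lit 0x47⟩ (.node ⟨nat_lit 7, nat_lit 0x1000600018, nat_lit 0x1010211, nat_lit 1, nat_lit 4, nat_lit 0x48⟩ (.node ⟨nat_lit 5, nat_lit 0x180014, nat_lit 0x10113, nat_lit 2, nat_lit 4, nat_lit 0x46⟩ (t14_1754) (t14_9946)) (.node ⟨nat_lit 6, nat_lit 0x280030, nat_lit 0x22022, nat_lit 0, nat_lit 4, nat_lit 0x48⟩ (t14_5850) (t14_14042))) (.node ⟨nat_lit 5, nat_lit 0x18,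 nat_lit 0x20200, nat_lit 0, nat_lit 4, nat_lit 0x47⟩ (.node ⟨nat_lit 6, nat_lit 0x100020, nat_lit 0x11000, nat_lit 0, nat_lit 4, nat_lit 0x47⟩ (t14_3802) (t14_11994)) (.node ⟨nat_lit 7, nat_lit 0x40002000480048, nat_lit 0x1112100, nat_lit 1, nat_lit 4, nat_lit 0x49⟩ (t14_7898) (.nil)))))
def t14_474 : Tr := .node ⟨nat_lit 6, nat_lit 0x2000080030, nat_lit 0x122120, nat_lit 0, nat_lit 4, nat_lit 0x49⟩ (.nil) (.nil)
def t14_8666 : Tr := .node ⟨nat_lit 7, nat_lit 0x1000080060, nat_lit 0, nat_lit 1, nat_lit 4, nat_lit 0x46⟩ (.nil) (.nil)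
def t14_4570 : Tr := .node ⟨nat_lit 7, nat_lit 0x6000180018, nat_lit 0x2010121, nat_lit 2, nat_lit 4, nat_lit 0x48⟩ (.nil) (.nil)
def t14_12762 : Tr := .node ⟨nat_lit 8, nat_lit 0x800040004000a000d000e0, nat_lit 0x211000, nat_lit 0, nat_lit 4, nat_lit 0x46⟩ (.nil) (.nil)
def t14_2522 : Tr := .node ⟨nat_lit 7, nat_lit 0x4000100060, nat_lit 0x112200, nat_lit 0, nat_lit 4, nat_lit 0x49⟩ (.nil) (.nil)
def t14_10714 : Tr := .node ⟨nat_lit 7, nat_lit 0x10005000600060, nat_lit 0x1010, nat_lit 0, nat_lit 4, nat_lit 0x45⟩ (.nil) (.nil)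
def t14_6618 : Tr := .node ⟨nat_lit 7, nat_lit 0x1000600050, nat_lit 0x1001013, nat_lit 2, nat_lit 4, nat_lit 0x48⟩ (.nil) (.nil)
def t14_14810 : Tr := .node ⟨nat_lit 8, nat_lit 0x4000400080008000c800e0, nat_lit 0x112101, nat_lit 2, nat_lit 4, nat_lit 0x47⟩ (.nil) (.nil)
def t14_1498 : Tr := .node ⟨nat_lit 6, nat_lit 0x2000080030, nat_lit 0x100221, nat_lit 2, nat_lit 4, nat_lit 0x47⟩ (.nil) (.nil)
def t14_9690 : Tr := .node ⟨nat_lit 8, nat_lit 0x8000800040004000a000a0, nat_lit 0x101021, nat_lit 5, nat_lit 4, nat_lit 0x48⟩ (.nil) (.nil)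
def t14_5594 : Tr := .node ⟨nat_lit 8, nat_lit 0xc000c000c0, nat_lit 0x111220, nat_lit 1, nat_lit 4, nat_lit 0x49⟩ (.nil) (.nil)
def t14_13786 : Tr := .node ⟨nat_lit 7, nat_lit 0x40001000100060, nat_lit 0x1001, nat_lit 0, nat_lit 4, nat_lit 0x46⟩ (.nil) (.nil)
def t14_3546 : Tr := .node ⟨nat_lit 7, nat_lit 0x10006000600050, nat_lit 0x2201, nat_lit 1, nat_lit 4, nat_lit 0x46⟩ (.nil) (.nil)
def t14_11738 : Tr := .node ⟨nat_lit 2, nat_lit 0, nat_lit 0x51, nat_lit 7, nat_lit 3, nat_lit 0x47⟩ (.nil) (.nil)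
def t14_7642 : Tr := .node ⟨nat_lit 2, nat_lit 2, nat_lit 2, nat_lit 0xd, nat_lit 4, nat_lit 0x45⟩ (.nil) (.nil)
def t14_986 : Tr := .node ⟨nat_lit 5, nat_lit 0x10001000140018, nat_lit 0x1211, nat_lit 5, nat_lit 4, nat_lit 0x46⟩ (.nil) (.nil)
def t14_9178 : Tr := .node ⟨nat_lit 7, nat_lit 0x400020005000600070, nat_lit 0x12021, nat_lit 3, nat_lit 4, nat_lit 0x46⟩ (.nil) (.nil)
def t14_5082 : Tr := .node ⟨nat_lit 6, nat_lit 0x20001000280038, nat_lit 0x101301, nat_lit 2, nat_lit 4, nat_lit 0x46⟩ (.nil) (.nil)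
def t14_13274 : Tr := .node ⟨nat_lit 7, nat_lit 0x10004000440060, nat_lit 0x210, nat_lit 3, nat_lit 4, nat_lit 0x47⟩ (.nil) (.nil)
def t14_3034 : Tr := .node ⟨nat_lit 4, nat_lit 0xc000c, nat_lit 0x2111, nat_lit 2, nat_lit 3, nat_lit 0x45⟩ (.nil) (.nil)
def t14_11226 : Tr := .node ⟨nat_lit 7, nat_lit 0x3000500060, nat_lit 0x1001100, nat_lit 0, nat_lit 4, nat_lit 0x46⟩ (.nil) (.nil)
def t14_7130 : Tr := .node ⟨nat_lit 8, nat_lit 0x20002000c000c0, nat_lit 0x10022011, nat_lit 0, nat_lit 4, nat_lit 0x49⟩ (.nil) (.nil)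
def t14_15322 : Tr := .node ⟨nat_lit 7, nat_lit 0x10004000400060, nat_lit 0x1100210, nat_lit 1, nat_lit 3, nat_lit 0x47⟩ (.nil) (.nil)
def t14_2010 : Tr := .node ⟨nat_lit 7, nat_lit 0x10004000400060, nat_lit 0x100312, nat_lit 0, nat_lit 4, nat_lit 0x48⟩ (.nil) (.nil)
def t14_10202 : Tr := .node ⟨nat_lit 3, nat_lit 0x40006, nat_lit 0x22, nat_lit 0xe, nat_lit 4, nat_lit 0x46⟩ (.nil) (.nil)
def t14_6106 : Tr := .node ⟨nat_lit 5, nat_lit 0x100008, nat_lit 0x300, nat_lit 7, nat_lit 4, nat_lit 0x48⟩ (.nil) (.nil)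
def t14_14298 : Tr := .node ⟨nat_lit 8, nat_lit 0x400080002000d000d0, nat_lit 0x1000010, nat_lit 1, nat_lit 4, nat_lit 0x46⟩ (.nil) (.nil)
def t14_4058 : Tr := .node ⟨nat_lit 7, nat_lit 0x40002000500060, nat_lit 0x20012, nat_lit 0, nat_lit 4, nat_lit 0x47⟩ (.nil) (.nil)
def t14_12250 : Tr := .node ⟨nat_lit 9, nat_lit 0x1000100010801100180, nat_lit 0x1112000, nat_lit 1, nat_lit 4, nat_lit 0x4a⟩ (.nil) (.nil)
def t14_8154 : Tr := .node ⟨nat_lit 7, nat_lit 0x400020002000500068, nat_lit 0x121130, nat_lit 1, nat_lit 4, nat_lit 0x47⟩ (.nil) (.nil)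
def t9_474 : Tr := .node ⟨nat_lit 5, nat_lit 0x1000100008, nat_lit 0x23300, nat_lit 0, nat_lit 3, nat_lit 0x48⟩ (.node ⟨nat_lit 5, nat_lit 0x180018, nat_lit 0x11220, nat_lit 0, nat_lit 3, nat_lit 0x45⟩ (.node ⟨nat_lit 6, nat_lit 0x2000080030, nat_lit 0x22121, nat_lit 0, nat_lit 4, nat_lit 0x48⟩ (.node ⟨nat_lit 5, nat_lit 0x40018, nat_lit 0x11032, nat_lit 0, nat_lit 4, nat_lit 0x46⟩ (.node ⟨nat_lit 7, nat_lit 0x40004000200048, nat_lit 0x202111, nat_lit 0, nat_lit 4, nat_lit 0x49⟩ (t14_474) (t14_8666)) (.node ⟨nat_lit 6, nat_lit 0x2000100032, nat_lit 0x121220, nat_lit 3, nat_lit 4, nat_lit 0x49⟩ (t14_4570) (t14_12762))) (.node ⟨nat_lit 6, nat_lit 0x1000200022, nat_lit 0x101020, nat_lit 0, nat_lit 4, nat_lit 0x47⟩ (.node ⟨nat_lit 7, nat_lit 0x40002000100060, nat_lit 0x1112103, nat_lit 1, nat_lit 4, nat_lit 0x49⟩ (t14_2522) (t14_10714)) (.node ⟨nat_lit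 6, nat_lit 0x1000100020, nat_lit 0x102311, nat_lit 2, nat_lit 4, nat_lit 0x49⟩ (t14_6618) (t14_14810)))) (.node ⟨nat_lit 6, nat_lit 0x100020, nat_lit 0x102001, nat_lit 0, nat_lit 4, nat_lit 0x48⟩ (.node ⟨nat_lit 6, nat_lit 0x2000200010, nat_lit 0x122113, nat_lit 0, nat_lit 4, nat_lit 0x4a⟩ (.node ⟨nat_lit 9, nat_lit 0x10001000040004000800120, nat_lit 0x10000030, nat_lit 1, nat_lit 4, nat_lit 0x49⟩ (t14_1498) (t14_9690)) (.node ⟨nat_lit 8, nat_lit 0x80008000400040009000a0, nat_lit 0x1112201, nat_lit 0, nat_lit 4, nat_lit 0x48⟩ (t14_5594) (t14_13786))) (.node ⟨nat_lit 7, nat_lit 0x4000600050, nat_lit 0x12003, nat_lit 1, nat_lit 4, nat_lit 0x48⟩ (.node ⟨nat_lit 4, nat_lit 0x8000c, nat_lit 0x100, nat_lit 5, nat_lit 4, nat_lit 0x44⟩ (t14_3546) (t14_11738)) (.node ⟨nat_lit 6, nat_lit 0x200020003000300030, nat_lit 0x111210, nat_lit 6, nat_lit 4, nat_lit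 0x48⟩ (t14_7642) (.nil))))) (.node ⟨nat_lit 3, nat_lit 4, nat_lit 0x33, nat_lit 7, nat_lit 4, nat_lit 0x47⟩ (.node ⟨nat_lit 5, nat_lit 0x10, nat_lit 0x12220, nat_lit 3, nat_lit 4, nat_lit 0x4a⟩ (.node ⟨nat_lit 7, nat_lit 0x200040, nat_lit 0x1111110, nat_lit 3, nat_lit 4, nat_lit 0x4b⟩ (.node ⟨nat_lit 5, nat_lit 0x10001a, nat_lit 0x11132, nat_lit 4, nat_lit 4, nat_lit 0x48⟩ (t14_986) (t14_9178)) (.node ⟨nat_lit 6, nat_lit 0x200020, nat_lit 0x122121, nat_lit 1, nat_lit 3, nat_lit 0x49⟩ (t14_5082) (t14_13274))) (.node ⟨nat_lit 6, nat_lit 0x80030, nat_lit 0x111120, nat_lit 0, nat_lit 4, nat_lit 0x48⟩ (.node ⟨nat_lit 7, nat_lit 0x1000400060, nat_lit 0x2101011, nat_lit 0, nat_lit 3, nat_lit 0x48⟩ (t14_3034) (t14_11226)) (.node ⟨nat_lit 7, nat_lit 0x400050005000600070, nat_lit 0x1111022, nat_lit 1, nat_lit 4, nat_lit 0x47⟩ (t14_7130) (t14_15322)))) (.node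 ⟨nat_lit 7, nat_lit 0x1000100060, nat_lit 0x1102101, nat_lit 1, nat_lit 4, nat_lit 0x49⟩ (.node ⟨nat_lit 7, nat_lit 0x100060, nat_lit 0x3011111, nat_lit 1, nat_lit 4, nat_lit 0x4b⟩ (.node ⟨nat_lit 7, nat_lit 0x2000500060, nat_lit 0x1021031, nat_lit 1, nat_lit 4, nat_lit 0x49⟩ (t14_2010) (t14_10202)) (.node ⟨nat_lit 8, nat_lit 0x800040004000a000c8, nat_lit 0x1001202, nat_lit 0, nat_lit 4, nat_lit 0x48⟩ (t14_6106) (t14_14298))) (.node ⟨nat_lit 6, nat_lit 0x2000080034, nat_lit 0x211312, nat_lit 1, nat_lit 4, nat_lit 0x49⟩ (.node ⟨nat_lit 6, nat_lit 0x300038, nat_lit 0x110013, nat_lit 0, nat_lit 4, nat_lit 0x46⟩ (t14_4058) (t14_12250)) (.node ⟨nat_lit 6, nat_lit 0x200030, nat_lit 0x101112, nat_lit 5, nat_lit 4, nat_lit 0x49⟩ (t14_8154) (.nil)))))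
def t14_58 : Tr := .node ⟨nat_lit 6, nat_lit 0x200030, nat_lit 0x112111, nat_lit 5, nat_lit 4, nat_lit 0x4a⟩ (.nil) (.nil)
def t14_8250 : Tr := .node ⟨nat_lit 6, nat_lit 0x20001000280030, nat_lit 0x2130, nat_lit 6, nat_lit 4, nat_lit 0x47⟩ (.nil) (.nil)
def t14_4154 : Tr := .node ⟨nat_lit 8, nat_lit 0x800040002000900090, nat_lit 0x1111021, nat_lit 0, nat_lit 4, nat_lit 0x48⟩ (.nil) (.nil)
def t14_12346 : Tr := .node ⟨nat_lit 8, nat_lit 0x800040002000c000e0, nat_lit 0x11003, nat_lit 3, nat_lit 4, nat_lit 0x47⟩ (.nil) (.nil)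
def t14_2106 : Tr := .node ⟨nat_lit 6, nat_lit 0x2000300034, nat_lit 0x111220, nat_lit 3, nat_lit 4, nat_lit 0x48⟩ (.nil) (.nil)
def t14_10298 : Tr := .node ⟨nat_lit 7, nat_lit 0x40002000100060, nat_lit 2, nat_lit 0, nat_lit 3, nat_lit 0x45⟩ (.nil) (.nil)
def t14_6202 : Tr := .node ⟨nat_lit 6, nat_lit 0x800200032, nat_lit 0x110011, nat_lit 4, nat_lit 4, nat_lit 0x47⟩ (.nil) (.nil)
def t14_14394 : Tr := .node ⟨nat_lit 7, nat_lit 0x40001000600070, nat_lit 0x1203, nat_lit 2, nat_lit 4, nat_lit 0x46⟩ (.nil) (.nil)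
def t14_1082 : Tr := .node ⟨nat_lit 7, nat_lit 0x40001000600068, nat_lit 0x112111, nat_lit 1, nat_lit 4, nat_lit 0x47⟩ (.nil) (.nil)
def t14_9274 : Tr := .node ⟨nat_lit 9, nat_lit 0x8000800100011000c0018001c0, nat_lit 0x1020021, nat_lit 0, nat_lit 4, nat_lit 0x47⟩ (.nil) (.nil)
def t14_5178 : Tr := .node ⟨nat_lit 6, nat_lit 0x2000200030, nat_lit 0x11310, nat_lit 5, nat_lit 4, nat_lit 0x49⟩ (.nil) (.nil)
def t14_13370 : Tr := .node ⟨nat_lit 6, nat_lit 0x20001000280038, nat_lit 0x2400, nat_lit 2, nat_lit 4, nat_lit 0x46⟩ (.nil) (.nil)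
def t14_3130 : Tr := .node ⟨nat_lit 7, nat_lit 0x40006000680068, nat_lit 0x1010121, nat_lit 2, nat_lit 4, nat_lit 0x46⟩ (.nil) (.nil)
def t14_11322 : Tr := .node ⟨nat_lit 6, nat_lit 0x1000200030, nat_lit 0x2110, nat_lit 3, nat_lit 4, nat_lit 0x47⟩ (.nil) (.nil)
def t14_7226 : Tr := .node ⟨nat_lit 7, nat_lit 0x40004000200020, nat_lit 0x120011, nat_lit 5, nat_lit 4, nat_lit 0x4a⟩ (.nil) (.nil)
def t14_15418 : Tr := .node ⟨nat_lit 8, nat_lit 0x8000800040004000b000e0, nat_lit 0x10112010, nat_lit 0, nat_lit 4, nat_lit 0x47⟩ (.nil) (.nil)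
def t14_570 : Tr := .node ⟨nat_lit 7, nat_lit 0x40002000600050, nat_lit 0x12022, nat_lit 1, nat_lit 4, nat_lit 0x47⟩ (.nil) (.nil)
def t14_8762 : Tr := .node ⟨nat_lit 9, nat_lit 0x100010000800040012001a0, nat_lit 0x1100113, nat_lit 0, nat_lit 4, nat_lit 0x48⟩ (.nil) (.nil)
def t14_4666 : Tr := .node ⟨nat_lit 6, nat_lit 0x2000280030, nat_lit 0x101221, nat_lit 4, nat_lit 4, nat_lit 0x48⟩ (.nil) (.nil)
def t14_12858 : Tr := .node ⟨nat_lit 7, nat_lit 0x400060, nat_lit 0x21000, nat_lit 0, nat_lit 4, nat_lit 0x49⟩ (.nil) (.nil)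
def t14_2618 : Tr := .node ⟨nat_lit 7, nat_lit 0x40002000100060, nat_lit 0x111012, nat_lit 2, nat_lit 4, nat_lit 0x48⟩ (.nil) (.nil)
def t14_10810 : Tr := .node ⟨nat_lit 4, nat_lit 8, nat_lit 0x2212, nat_lit 9, nat_lit 3, nat_lit 0x48⟩ (.nil) (.nil)
def t14_6714 : Tr := .node ⟨nat_lit 7, nat_lit 0x4000100060, nat_lit 0x11010, nat_lit 5, nat_lit 4, nat_lit 0x49⟩ (.nil) (.nil)
def t14_14906 : Tr := .node ⟨nat_lit 8, nat_lit 0x8000200090009000d0, nat_lit 0x10111111, nat_lit 0, nat_lit 4, nat_lit 0x48⟩ (.nil) (.nil)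
def t14_1594 : Tr := .node ⟨nat_lit 7, nat_lit 0x40004000200068, nat_lit 0x12101, nat_lit 0, nat_lit 4, nat_lit 0x47⟩ (.nil) (.nil)
def t14_9786 : Tr := .node ⟨nat_lit 9, nat_lit 0x1000020004001800180, nat_lit 0x1020120, nat_lit 0, nat_lit 4, nat_lit 0x49⟩ (.nil) (.nil)
def t14_5690 : Tr := .node ⟨nat_lit 6, nat_lit 0x280030, nat_lit 0x11122, nat_lit 4, nat_lit 4, nat_lit 0x48⟩ (.nil) (.nil)
def t14_13882 : Tr := .node ⟨nat_lit 6, nat_lit 0x2000080030, nat_lit 0x240, nat_lit 2, nat_lit 4, nat_lit 0x47⟩ (.nil) (.nil)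
def t14_3642 : Tr := .node ⟨nat_lit 6, nat_lit 0x2000300034, nat_lit 0x2020, nat_lit 3, nat_lit 4, nat_lit 0x46⟩ (.nil) (.nil)
def t14_11834 : Tr := .node ⟨nat_lit 7, nat_lit 0x200040004000400048, nat_lit 0x103, nat_lit 3, nat_lit 4, nat_lit 0x47⟩ (.nil) (.nil)
def t14_7738 : Tr := .node ⟨nat_lit 7, nat_lit 0x20004000440030, nat_lit 0x201, nat_lit 1, nat_lit 4, nat_lit 0x46⟩ (.nil) (.nil)
def t9_58 : Tr := .node ⟨nat_lit 5, nat_lit 0x18, nat_lit 0x21111, nat_lit 1, nat_lit 3, nat_lit 0x47⟩ (.node ⟨nat_lit 4, nat_lit 0, nat_lit 0x3110, nat_lit 0, nat_lit 4, nat_lit 0x47⟩ (.node ⟨nat_lit 6, nat_lit 0x300030, nat_lit 0x3220, nat_lit 1, nat_lit 4, nat_lit 0x48⟩ (.node ⟨nat_lit 6, nat_lit 0x200010, nat_lit 0x12100, nat_lit 3, nat_lit 4, nat_lit 0x49⟩ (.node ⟨nat_lit 7, nat_lit 0x4000600050, nat_lit 0x22203, nat_lit 0, nat_lit 4, nat_lit 0x49⟩ (t14_58)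 (t14_8250)) (.node ⟨nat_lit 7, nat_lit 0x10001800500060, nat_lit 0x11001, nat_lit 0, nat_lit 4, nat_lit 0x46⟩ (t14_4154) (t14_12346))) (.node ⟨nat_lit 3, nat_lit 0x40004, nat_lit 0x122, nat_lit 0xa, nat_lit 3, nat_lit 0x45⟩ (.node ⟨nat_lit 6, nat_lit 0x200010, nat_lit 0x11121, nat_lit 0, nat_lit 4, nat_lit 0x48⟩ (t14_2106) (t14_10298)) (.node ⟨nat_lit 6, nat_lit 0x1000200038, nat_lit 0x20221, nat_lit 0, nat_lit 4, nat_lit 0x47⟩ (t14_6202) (t14_14394)))) (.node ⟨nat_lit 6, nat_lit 0x800080030, nat_lit 0x210202, nat_lit 2, nat_lit 4, nat_lit 0x48⟩ (.node ⟨nat_lit 7, nat_lit 0x1000400060, nat_lit 0x2012111, nat_lit 0, nat_lit 4, nat_lit 0x4a⟩ (.node ⟨nat_lit 7, nat_lit 0x40001000480060, nat_lit 0x11311, nat_lit 0, nat_lit 4, nat_lit 0x47⟩ (t14_1082) (t14_9274)) (.node ⟨nat_lit 5, nat_lit 0x1000180018, nat_lit 0x1231, nat_lit 7, nat_lit 4, nat_lit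 0x47⟩ (t14_5178) (t14_13370))) (.node ⟨nat_lit 5, nat_lit 0x100010, nat_lit 0x12210, nat_lit 4, nat_lit 4, nat_lit 0x49⟩ (.node ⟨nat_lit 4, nat_lit 0x80004, nat_lit 0x201, nat_lit 5, nat_lit 4, nat_lit 0x46⟩ (t14_3130) (t14_11322)) (.node ⟨nat_lit 5, nat_lit 0x800100012, nat_lit 0x10012, nat_lit 9, nat_lit 4, nat_lit 0x47⟩ (t14_7226) (t14_15418))))) (.node ⟨nat_lit 3, nat_lit 6, nat_lit 0x310, nat_lit 4, nat_lit 3, nat_lit 0x45⟩ (.node ⟨nat_lit 3, nat_lit 4, nat_lit 0x210, nat_lit 0xa, nat_lit 3, nat_lit 0x46⟩ (.node ⟨nat_lit 6, nat_lit 0x2000100038, nat_lit 0x2202, nat_lit 0, nat_lit 4, nat_lit 0x46⟩ (.node ⟨nat_lit 7, nat_lit 0x400020, nat_lit 0x211101, nat_lit 6, nat_lit 4, nat_lit 0x4c⟩ (t14_570) (t14_8762)) (.node ⟨nat_lit 7, nat_lit 0x40001000600068, nat_lit 0x1110011, nat_lit 1, nat_lit 4, nat_lit 0x47⟩ (t14_4666) (t14_12858))) (.node ⟨nat_lit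 4, nat_lit 0x80004, nat_lit 0x13, nat_lit 2, nat_lit 3, nat_lit 0x44⟩ (.node ⟨nat_lit 8, nat_lit 0x80004000400020, nat_lit 0x110103, nat_lit 1, nat_lit 4, nat_lit 0x4a⟩ (t14_2618) (t14_10810)) (.node ⟨nat_lit 8, nat_lit 0x800040, nat_lit 0x1211100, nat_lit 4, nat_lit 4, nat_lit 0x4d⟩ (t14_6714) (t14_14906)))) (.node ⟨nat_lit 6, nat_lit 0x2000080010, nat_lit 0x12111, nat_lit 1, nat_lit 4, nat_lit 0x48⟩ (.node ⟨nat_lit 6, nat_lit 0x280030, nat_lit 0x13211, nat_lit 1, nat_lit 4, nat_lit 0x49⟩ (.node ⟨nat_lit 7, nat_lit 0x10004000600064, nat_lit 0x100113, nat_lit 1, nat_lit 4, nat_lit 0x46⟩ (t14_1594) (t14_9786)) (.node ⟨nat_lit 6, nat_lit 0x2000100030, nat_lit 0x11321, nat_lit 1, nat_lit 4, nat_lit 0x48⟩ (t14_5690) (t14_13882))) (.node ⟨nat_lit 4, nat_lit 0x8000a, nat_lit 0x221, nat_lit 5, nat_lit 4, nat_lit 0x46⟩ (.node ⟨nat_lit 6, nat_lit 0x300030,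 nat_lit 0x1100, nat_lit 1, nat_lit 4, nat_lit 0x46⟩ (t14_3642) (t14_11834)) (.node ⟨nat_lit 7, nat_lit 0x40001000540068, nat_lit 0x1112011, nat_lit 3, nat_lit 4, nat_lit 0x48⟩ (t14_7738) (.nil)))))
def t14_314 : Tr := .node ⟨nat_lit 7, nat_lit 0x40001000500068, nat_lit 0x1202211, nat_lit 1, nat_lit 4, nat_lit 0x48⟩ (.nil) (.nil)
def t14_8506 : Tr := .node ⟨nat_lit 9, nat_lit 0x8001000100004001100110, nat_lit 0x11031, nat_lit 2, nat_lit 4, nat_lit 0x49⟩ (.nil) (.nil)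
def t14_4410 : Tr := .node ⟨nat_lit 9, nat_lit 0x800080002000400100, nat_lit 0x101110011, nat_lit 2, nat_lit 4, nat_lit 0x4b⟩ (.nil) (.nil)
def t14_12602 : Tr := .node ⟨nat_lit 7, nat_lit 0x40004800300068, nat_lit 0x11001, nat_lit 0, nat_lit 4, nat_lit 0x45⟩ (.nil) (.nil)
def t14_2362 : Tr := .node ⟨nat_lit 6, nat_lit 0x80030, nat_lit 0x200120, nat_lit 2, nat_lit 4, nat_lit 0x48⟩ (.nil) (.nil)
def t14_10554 : Tr := .node ⟨nat_lit 6, nat_lit 0x1000280030, nat_lit 0x10100, nat_lit 0, nat_lit 4, nat_lit 0x45⟩ (.nil) (.nil)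
def t14_6458 : Tr := .node ⟨nat_lit 7, nat_lit 0x40004000480060, nat_lit 0x111111, nat_lit 2, nat_lit 4, nat_lit 0x48⟩ (.nil) (.nil)
def t14_14650 : Tr := .node ⟨nat_lit 8, nat_lit 0x4000800020002000c0, nat_lit 0x10021001, nat_lit 0, nat_lit 4, nat_lit 0x48⟩ (.nil) (.nil)
def t14_1338 : Tr := .node ⟨nat_lit 7, nat_lit 0x4000200044, nat_lit 0x111211, nat_lit 1, nat_lit 4, nat_lit 0x49⟩ (.nil) (.nil)
def t14_9530 : Tr := .node ⟨nat_lit 9, nat_lit 0x100010000800080014001400120, nat_lit 0x101110210, nat_lit 0, nat_lit 4, nat_lit 0x49⟩ (.nil) (.nil)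
def t14_5434 : Tr := .node ⟨nat_lit 6, nat_lit 0x200030, nat_lit 0x11131, nat_lit 4, nat_lit 4, nat_lit 0x49⟩ (.nil) (.nil)
def t14_13626 : Tr := .node ⟨nat_lit 5, nat_lit 0x18, nat_lit 3, nat_lit 1, nat_lit 4, nat_lit 0x45⟩ (.nil) (.nil)
def t14_3386 : Tr := .node ⟨nat_lit 7, nat_lit 0x40002000500064, nat_lit 0x210010, nat_lit 1, nat_lit 4, nat_lit 0x47⟩ (.nil) (.nil)
def t14_11578 : Tr := .node ⟨nat_lit 6, nat_lit 0x800300030, nat_lit 0x40, nat_lit 3, nat_lit 4, nat_lit 0x46⟩ (.nil) (.nil)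
def t14_7482 : Tr := .node ⟨nat_lit 9, nat_lit 0x4001000180, nat_lit 0x100111011, nat_lit 1, nat_lit 4, nat_lit 0x4c⟩ (.nil) (.nil)
def t14_826 : Tr := .node ⟨nat_lit 7, nat_lit 0x40001000100060, nat_lit 0x1001311, nat_lit 0, nat_lit 4, nat_lit 0x48⟩ (.nil) (.nil)
def t14_9018 : Tr := .node ⟨nat_lit 8, nat_lit 0x80004000a000a000c000c0, nat_lit 0x101021, nat_lit 3, nat_lit 4, nat_lit 0x47⟩ (.nil) (.nil)
def t14_4922 : Tr := .node ⟨nat_lit 6, nat_lit 0x2000200020, nat_lit 0x11210, nat_lit 9, nat_lit 4, nat_lit 0x4a⟩ (.nil) (.nil)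
def t14_13114 : Tr := .node ⟨nat_lit 4, nat_lit 0x8000c, nat_lit 0x2000, nat_lit 5, nat_lit 3, nat_lit 0x45⟩ (.nil) (.nil)
def t14_2874 : Tr := .node ⟨nat_lit 8, nat_lit 0x80008000c0, nat_lit 0x211210, nat_lit 0, nat_lit 4, nat_lit 0x4b⟩ (.nil) (.nil)
def t14_11066 : Tr := .node ⟨nat_lit 6, nat_lit 0x800300030, nat_lit 0x111120, nat_lit 4, nat_lit 4, nat_lit 0x48⟩ (.nil) (.nil)
def t14_6970 : Tr := .node ⟨nat_lit 5, nat_lit 0x140018, nat_lit 0x11210, nat_lit 3, nat_lit 4, nat_lit 0x47⟩ (.nil) (.nil)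
def t14_15162 : Tr := .node ⟨nat_lit 8, nat_lit 0x800040004000a000a000e0, nat_lit 0x111101, nat_lit 0, nat_lit 4, nat_lit 0x46⟩ (.nil) (.nil)
def t14_1850 : Tr := .node ⟨nat_lit 6, nat_lit 0x1000200038, nat_lit 0x3102, nat_lit 2, nat_lit 4, nat_lit 0x47⟩ (.nil) (.nil)
def t14_10042 : Tr := .node ⟨nat_lit 6, nat_lit 0x20001000100010, nat_lit 0x220, nat_lit 4, nat_lit 3, nat_lit 0x46⟩ (.nil) (.nil)
def t14_5946 : Tr := .node ⟨nat_lit 7, nat_lit 0x4000600060, nat_lit 0x111211, nat_lit 4, nat_lit 4, nat_lit 0x49⟩ (.nil) (.nil)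
def t14_14138 : Tr := .node ⟨nat_lit 8, nat_lit 0x8000800020002000c0, nat_lit 0x20210, nat_lit 1, nat_lit 4, nat_lit 0x48⟩ (.nil) (.nil)
def t14_3898 : Tr := .node ⟨nat_lit 7, nat_lit 0x400040007000700068, nat_lit 0x1001201, nat_lit 5, nat_lit 4, nat_lit 0x46⟩ (.nil) (.nil)
def t14_12090 : Tr := .node ⟨nat_lit 7, nat_lit 0x4000100060, nat_lit 0x111200, nat_lit 2, nat_lit 4, nat_lit 0x49⟩ (.nil) (.nil)
def t14_7994 : Tr := .node ⟨nat_lit 6, nat_lit 0x1000200022, nat_lit 0x2024, nat_lit 1, nat_lit 4, nat_lit 0x48⟩ (.nil) (.nil)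
def t9_314 : Tr := .node ⟨nat_lit 5, nat_lit 0, nat_lit 0x31111, nat_lit 5, nat_lit 4, nat_lit 0x4b⟩ (.node ⟨nat_lit 7, nat_lit 0x4000100060, nat_lit 0x302102, nat_lit 0, nat_lit 4, nat_lit 0x4a⟩ (.node ⟨nat_lit 3, nat_lit 0, nat_lit 0x321, nat_lit 0xf, nat_lit 4, nat_lit 0x4a⟩ (.node ⟨nat_lit 6, nat_lit 0x2000080010, nat_lit 0x11012, nat_lit 0, nat_lit 4, nat_lit 0x47⟩ (.node ⟨nat_lit 7, nat_lit 0x40004800480030, nat_lit 0x2211001, nat_lit 1, nat_lit 4, nat_lit 0x49⟩ (t14_314) (t14_8506)) (.node ⟨nat_lit 5, nat_lit 0x1000080008, nat_lit 0x1040, nat_lit 7, nat_lit 3, nat_lit 0x47⟩ (t14_4410) (t14_12602))) (.node ⟨nat_lit 7, nat_lit 0x4000440060, nat_lit 0x2011212, nat_lit 0, nat_lit 4, nat_lit 0x4a⟩ (.node ⟨nat_lit 6, nat_lit 0x20001000280030, nat_lit 0x111204, nat_lit 2, nat_lit 4, nat_lit 0x48⟩ (t14_2362) (t14_10554)) (.node ⟨nat_lit 7, nat_lit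 0x20004000100044, nat_lit 0x2000120, nat_lit 1, nat_lit 4, nat_lit 0x48⟩ (t14_6458) (t14_14650)))) (.node ⟨nat_lit 6, nat_lit 0x800100020, nat_lit 0x121110, nat_lit 0, nat_lit 4, nat_lit 0x48⟩ (.node ⟨nat_lit 7, nat_lit 0x40004000100020, nat_lit 0x221021, nat_lit 1, nat_lit 4, nat_lit 0x4a⟩ (.node ⟨nat_lit 6, nat_lit 0x800200030, nat_lit 0x100003, nat_lit 1, nat_lit 3, nat_lit 0x45⟩ (t14_1338) (t14_9530)) (.node ⟨nat_lit 7, nat_lit 0x4000500060, nat_lit 0x122120, nat_lit 0, nat_lit 4, nat_lit 0x49⟩ (t14_5434) (t14_13626))) (.node ⟨nat_lit 6, nat_lit 0x2000080034, nat_lit 0x200211, nat_lit 0, nat_lit 4, nat_lit 0x47⟩ (.node ⟨nat_lit 8, nat_lit 0x80008000800090008800e0, nat_lit 0x1010000, nat_lit 1, nat_lit 4, nat_lit 0x47⟩ (t14_3386) (t14_11578)) (.node ⟨nat_lit 5, nat_lit 0x800100010, nat_lit 0x1131, nat_lit 4, nat_lit 4, nat_lit 0x47⟩ (t14_7482)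 (.nil))))) (.node ⟨nat_lit 4, nat_lit 8, nat_lit 0x312, nat_lit 6, nat_lit 4, nat_lit 0x48⟩ (.node ⟨nat_lit 5, nat_lit 0x1000100008, nat_lit 0x2112, nat_lit 3, nat_lit 4, nat_lit 0x47⟩ (.node ⟨nat_lit 4, nat_lit 0x40008, nat_lit 0x1111, nat_lit 3, nat_lit 4, nat_lit 0x45⟩ (.node ⟨nat_lit 5, nat_lit 0x100018, nat_lit 0x22103, nat_lit 2, nat_lit 4, nat_lit 0x49⟩ (t14_826) (t14_9018)) (.node ⟨nat_lit 8, nat_lit 0x8000c0, nat_lit 0x11111102, nat_lit 0, nat_lit 4, nat_lit 0x4c⟩ (t14_4922) (t14_13114))) (.node ⟨nat_lit 5, nat_lit 0x40018, nat_lit 0x11031, nat_lit 0, nat_lit 3, nat_lit 0x45⟩ (.node ⟨nat_lit 4, nat_lit 0x40008, nat_lit 0x1121, nat_lit 7, nat_lit 4, nat_lit 0x47⟩ (t14_2874) (t14_11066)) (.node ⟨nat_lit 5, nat_lit 0x1000180018, nat_lit 0x11220, nat_lit 2, nat_lit 3, nat_lit 0x45⟩ (t14_6970) (t14_15162)))) (.node ⟨nat_lit 6, nat_lit 0x1000280034,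 nat_lit 0x112201, nat_lit 0, nat_lit 4, nat_lit 0x47⟩ (.node ⟨nat_lit 7, nat_lit 0x40002000500060, nat_lit 0x121112, nat_lit 0, nat_lit 4, nat_lit 0x48⟩ (.node ⟨nat_lit 6, nat_lit 0x20002000100010, nat_lit 0x1020, nat_lit 2, nat_lit 4, nat_lit 0x46⟩ (t14_1850) (t14_10042)) (.node ⟨nat_lit 6, nat_lit 0x2000080030, nat_lit 0x21302, nat_lit 1, nat_lit 4, nat_lit 0x48⟩ (t14_5946) (t14_14138))) (.node ⟨nat_lit 5, nat_lit 0x1000140018, nat_lit 0x1221, nat_lit 4, nat_lit 4, nat_lit 0x46⟩ (.node ⟨nat_lit 7, nat_lit 0x40004800300070, nat_lit 0x1002003, nat_lit 0, nat_lit 4, nat_lit 0x46⟩ (t14_3898) (t14_12090)) (.node ⟨nat_lit 7, nat_lit 0x10004000200064, nat_lit 0x1020201, nat_lit 0, nat_lit 4, nat_lit 0x48⟩ (t14_7994) (.nil)))))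
def t14_186 : Tr := .node ⟨nat_lit 7, nat_lit 0x40001000500068, nat_lit 0x212111, nat_lit 2, nat_lit 4, nat_lit 0x48⟩ (.nil) (.nil)
def t14_8378 : Tr := .node ⟨nat_lit 7, nat_lit 0x400062, nat_lit 0x11123, nat_lit 0, nat_lit 4, nat_lit 0x49⟩ (.nil) (.nil)
def t14_4282 : Tr := .node ⟨nat_lit 8, nat_lit 0x800080002000c0, nat_lit 0x1121011, nat_lit 1, nat_lit 4, nat_lit 0x4a⟩ (.nil) (.nil)
def t14_12474 : Tr := .node ⟨nat_lit 7, nat_lit 0x10004000200020, nat_lit 0x10400, nat_lit 0, nat_lit 4, nat_lit 0x48⟩ (.nil) (.nil)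
def t14_2234 : Tr := .node ⟨nat_lit 6, nat_lit 0x10001000200022, nat_lit 0x202000, nat_lit 3, nat_lit 4, nat_lit 0x47⟩ (.nil) (.nil)
def t14_10426 : Tr := .node ⟨nat_lit 8, nat_lit 0x80004000a000c0, nat_lit 0x112020, nat_lit 2, nat_lit 4, nat_lit 0x49⟩ (.nil) (.nil)
def t14_6330 : Tr := .node ⟨nat_lit 6, nat_lit 0x10001000200038, nat_lit 0x10120, nat_lit 2, nat_lit 4, nat_lit 0x46⟩ (.nil) (.nil)
def t14_14522 : Tr := .node ⟨nat_lit 7, nat_lit 0x4000100060, nat_lit 0x11400, nat_lit 0, nat_lit 4, nat_lit 0x49⟩ (.nil) (.nil)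
def t14_1210 : Tr := .node ⟨nat_lit 6, nat_lit 0x800280030, nat_lit 0x10311, nat_lit 0, nat_lit 4, nat_lit 0x46⟩ (.nil) (.nil)
def t14_9402 : Tr := .node ⟨nat_lit 8, nat_lit 0x8000400040005000a000c0, nat_lit 0x10011102, nat_lit 4, nat_lit 4, nat_lit 0x48⟩ (.nil) (.nil)
def t14_5306 : Tr := .node ⟨nat_lit 6, nat_lit 0x1800280030, nat_lit 0x111022, nat_lit 3, nat_lit 4, nat_lit 0x47⟩ (.nil) (.nil)
def t14_13498 : Tr := .node ⟨nat_lit 6, nat_lit 0x800200030, nat_lit 0x20, nat_lit 9, nat_lit 4, nat_lit 0x48⟩ (.nil) (.nil)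
def t14_3258 : Tr := .node ⟨nat_lit 6, nat_lit 0x20002000200038, nat_lit 0x20211, nat_lit 5, nat_lit 4, nat_lit 0x48⟩ (.nil) (.nil)
def t14_11450 : Tr := .node ⟨nat_lit 6, nat_lit 0x1000200022, nat_lit 0x101110, nat_lit 2, nat_lit 4, nat_lit 0x47⟩ (.nil) (.nil)
def t14_7354 : Tr := .node ⟨nat_lit 5, nat_lit 0x18, nat_lit 0x22110, nat_lit 0, nat_lit 4, nat_lit 0x48⟩ (.nil) (.nil)
def t14_15546 : Tr := .node ⟨nat_lit 0xa, nat_lit 0x2000200020002100210, nat_lit 0x111101010, nat_lit 1, nat_lit 4, nat_lit 0x4c⟩ (.nil) (.nil)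
def t14_698 : Tr := .node ⟨nat_lit 6, nat_lit 0x200030, nat_lit 0x1131, nat_lit 2, nat_lit 4, nat_lit 0x48⟩ (.nil) (.nil)
def t14_8890 : Tr := .node ⟨nat_lit 7, nat_lit 0x4800500060, nat_lit 0x1130, nat_lit 0, nat_lit 4, nat_lit 0x46⟩ (.nil) (.nil)
def t14_4794 : Tr := .node ⟨nat_lit 5, nat_lit 0x40018, nat_lit 0x21001, nat_lit 4, nat_lit 4, nat_lit 0x47⟩ (.nil) (.nil)
def t14_12986 : Tr := .node ⟨nat_lit 5, nat_lit 0x100018, nat_lit 0x30111, nat_lit 1, nat_lit 3, nat_lit 0x47⟩ (.nil) (.nil)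
def t14_2746 : Tr := .node ⟨nat_lit 7, nat_lit 0x20004000600068, nat_lit 0x22200, nat_lit 0, nat_lit 4, nat_lit 0x47⟩ (.nil) (.nil)
def t14_10938 : Tr := .node ⟨nat_lit 8, nat_lit 0x80004000a000a000c000d0, nat_lit 0x31021, nat_lit 1, nat_lit 4, nat_lit 0x46⟩ (.nil) (.nil)
def t14_6842 : Tr := .node ⟨nat_lit 7, nat_lit 0x4000400044, nat_lit 0x111200, nat_lit 4, nat_lit 4, nat_lit 0x4a⟩ (.nil) (.nil)
def t14_15034 : Tr := .node ⟨nat_lit 8, nat_lit 0x800080004000900090, nat_lit 0x1111011, nat_lit 2, nat_lit 4, nat_lit 0x49⟩ (.nil) (.nil)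
def t14_1722 : Tr := .node ⟨nat_lit 8, nat_lit 0x8000400040009000c8, nat_lit 0x111110, nat_lit 0, nat_lit 4, nat_lit 0x47⟩ (.nil) (.nil)
def t14_9914 : Tr := .node ⟨nat_lit 4, nat_lit 0xc000c, nat_lit 0x42, nat_lit 8, nat_lit 4, nat_lit 0x45⟩ (.nil) (.nil)
def t14_5818 : Tr := .node ⟨nat_lit 7, nat_lit 0x40002000480048, nat_lit 0x112010, nat_lit 1, nat_lit 4, nat_lit 0x48⟩ (.nil) (.nil)
def t14_14010 : Tr := .node ⟨nat_lit 7, nat_lit 0x10004000400064, nat_lit 0x102021, nat_lit 0, nat_lit 4, nat_lit 0x47⟩ (.nil) (.nil)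
def t14_3770 : Tr := .node ⟨nat_lit 6, nat_lit 0x2000100030, nat_lit 0x2021, nat_lit 3, nat_lit 3, nat_lit 0x46⟩ (.nil) (.nil)
def t14_11962 : Tr := .node ⟨nat_lit 5, nat_lit 0x1000100018, nat_lit 0x1210, nat_lit 0xb, nat_lit 4, nat_lit 0x48⟩ (.nil) (.nil)
def t14_7866 : Tr := .node ⟨nat_lit 8, nat_lit 0x8000200020009000c0, nat_lit 0x11011, nat_lit 1, nat_lit 4, nat_lit 0x47⟩ (.nil) (.nil)
def t9_186 : Tr := .node ⟨nat_lit 4, nat_lit 8, nat_lit 0x2312, nat_lit 3, nat_lit 4, nat_lit 0x49⟩ (.node ⟨nat_lit 7, nat_lit 0x4000200060, nat_lit 0x131022, nat_lit 0, nat_lit 4, nat_lit 0x4a⟩ (.node ⟨nat_lit 5, nat_lit 0x40018, nat_lit 0x31021, nat_lit 0, nat_lit 4, nat_lit 0x47⟩ (.node ⟨nat_lit 5, nat_lit 0x40018, nat_lit 0x21214, nat_lit 0, nat_lit 4, nat_lit 0x48⟩ (.node ⟨nat_lit 7, nat_lit 0x6000600050, nat_lit 0x121202, nat_lit 0, nat_lit 4, nat_lit 0x48⟩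 (t14_186) (t14_8378)) (.node ⟨nat_lit 7, nat_lit 0x20004000100044, nat_lit 0x10200, nat_lit 0, nat_lit 4, nat_lit 0x47⟩ (t14_4282) (t14_12474))) (.node ⟨nat_lit 5, nat_lit 0x80010, nat_lit 0x22230, nat_lit 0, nat_lit 3, nat_lit 0x48⟩ (.node ⟨nat_lit 7, nat_lit 0x2000480070, nat_lit 0x1010213, nat_lit 0, nat_lit 4, nat_lit 0x47⟩ (t14_2234) (t14_10426)) (.node ⟨nat_lit 7, nat_lit 0x10001000600060, nat_lit 0x1002032, nat_lit 0, nat_lit 4, nat_lit 0x47⟩ (t14_6330) (t14_14522)))) (.node ⟨nat_lit 6, nat_lit 0x200030, nat_lit 0x111121, nat_lit 3, nat_lit 4, nat_lit 0x49⟩ (.node ⟨nat_lit 6, nat_lit 0x800080030, nat_lit 0x211211, nat_lit 0, nat_lit 3, nat_lit 0x47⟩ (.node ⟨nat_lit 5, nat_lit 0x100008, nat_lit 0x11104, nat_lit 4, nat_lit 4, nat_lit 0x49⟩ (t14_1210) (t14_9402)) (.node ⟨nat_lit 6, nat_lit 0x2000300030, nat_lit 0x2110, nat_lit 1, nat_lit 3,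 nat_lit 0x45⟩ (t14_5306) (t14_13498))) (.node ⟨nat_lit 6, nat_lit 0x800280030, nat_lit 0x20302, nat_lit 1, nat_lit 4, nat_lit 0x47⟩ (.node ⟨nat_lit 6, nat_lit 0x2000080034, nat_lit 0x11101, nat_lit 2, nat_lit 4, nat_lit 0x46⟩ (t14_3258) (t14_11450)) (.node ⟨nat_lit 7, nat_lit 0x10004000400064, nat_lit 0x1100011, nat_lit 0, nat_lit 4, nat_lit 0x47⟩ (t14_7354) (t14_15546))))) (.node ⟨nat_lit 5, nat_lit 0x40018, nat_lit 0x32102, nat_lit 2, nat_lit 4, nat_lit 0x49⟩ (.node ⟨nat_lit 3, nat_lit 4, nat_lit 0x121, nat_lit 7, nat_lit 4, nat_lit 0x46⟩ (.node ⟨nat_lit 6, nat_lit 0x10001000200022, nat_lit 0x211100, nat_lit 0, nat_lit 4, nat_lit 0x47⟩ (.node ⟨nat_lit 6, nat_lit 0x800080030, nat_lit 0x112002, nat_lit 1, nat_lit 4, nat_lit 0x48⟩ (t14_698) (t14_8890)) (.node ⟨nat_lit 8, nat_lit 0x400080006000a000c8, nat_lit 0x10022110, nat_lit 0, nat_lit 4, nat_lit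 0x47⟩ (t14_4794) (t14_12986))) (.node ⟨nat_lit 5, nat_lit 0x40018, nat_lit 0x10101, nat_lit 4, nat_lit 4, nat_lit 0x46⟩ (.node ⟨nat_lit 7, nat_lit 0x40002000480060, nat_lit 0x121003, nat_lit 1, nat_lit 4, nat_lit 0x48⟩ (t14_2746) (t14_10938)) (.node ⟨nat_lit 7, nat_lit 0x40001000100060, nat_lit 0x1100202, nat_lit 1, nat_lit 4, nat_lit 0x48⟩ (t14_6842) (t14_15034)))) (.node ⟨nat_lit 5, nat_lit 0x1000080008, nat_lit 0x11022, nat_lit 1, nat_lit 3, nat_lit 0x46⟩ (.node ⟨nat_lit 6, nat_lit 0x10001000200022, nat_lit 0x111020, nat_lit 1, nat_lit 4, nat_lit 0x47⟩ (.node ⟨nat_lit 6, nat_lit 0x20001000280030, nat_lit 0x1001, nat_lit 3, nat_lit 4, nat_lit 0x45⟩ (t14_1722) (t14_9914)) (.node ⟨nat_lit 8, nat_lit 0x8000c000a0, nat_lit 0x22210, nat_lit 0, nat_lit 4, nat_lit 0x4a⟩ (t14_5818) (t14_14010))) (.node ⟨nat_lit 5, nat_lit 0x100018, nat_lit 0x21220, nat_lit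 1, nat_lit 3, nat_lit 0x47⟩ (.node ⟨nat_lit 6, nat_lit 0x2800180030, nat_lit 0x10031, nat_lit 4, nat_lit 4, nat_lit 0x46⟩ (t14_3770) (t14_11962)) (.node ⟨nat_lit 7, nat_lit 0x40001000600060, nat_lit 0x1011121, nat_lit 0, nat_lit 3, nat_lit 0x46⟩ (t14_7866) (.nil)))))
def t14_442 : Tr := .node ⟨nat_lit 8, nat_lit 0x80008000400040009000a0, nat_lit 0x11111010, nat_lit 3, nat_lit 4, nat_lit 0x49⟩ (.nil) (.nil)
def t14_8634 : Tr := .node ⟨nat_lit 6, nat_lit 0x10002000340038, nat_lit 0x20, nat_lit 3, nat_lit 4, nat_lit 0x43⟩ (.nil) (.nil)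
def t14_4538 : Tr := .node ⟨nat_lit 4, nat_lit 0x40008, nat_lit 0x2120, nat_lit 8, nat_lit 4, nat_lit 0x48⟩ (.nil) (.nil)
def t14_12730 : Tr := .node ⟨nat_lit 4, nat_lit 0x8000c, nat_lit 0x320, nat_lit 8, nat_lit 4, nat_lit 0x47⟩ (.nil) (.nil)
def t14_2490 : Tr := .node ⟨nat_lit 7, nat_lit 0x40002000100060, nat_lit 0x112200, nat_lit 0, nat_lit 4, nat_lit 0x48⟩ (.nil) (.nil)
def t14_10682 : Tr := .node ⟨nat_lit 6, nat_lit 0x1000300028, nat_lit 0x1000, nat_lit 2, nat_lit 4, nat_lit 0x45⟩ (.nil) (.nil)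
def t14_6586 : Tr := .node ⟨nat_lit 6, nat_lit 0x200030, nat_lit 0x21120, nat_lit 2, nat_lit 4, nat_lit 0x49⟩ (.nil) (.nil)
def t14_14778 : Tr := .node ⟨nat_lit 7, nat_lit 0x10001000600050, nat_lit 0x1101112, nat_lit 2, nat_lit 4, nat_lit 0x48⟩ (.nil) (.nil)
def t14_1466 : Tr := .node ⟨nat_lit 9, nat_lit 0x800080010000a0011001a001c0, nat_lit 0x12020110, nat_lit 0, nat_lit 4, nat_lit 0x47⟩ (.nil) (.nil)
def t14_9658 : Tr := .node ⟨nat_lit 8, nat_lit 0x8000800040004000a000c0, nat_lit 0x111002, nat_lit 4, nat_lit 4, nat_lit 0x48⟩ (.nil) (.nil)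
def t14_5562 : Tr := .node ⟨nat_lit 7, nat_lit 0x40002000200048, nat_lit 0x12102, nat_lit 3, nat_lit 4, nat_lit 0x48⟩ (.nil) (.nil)
def t14_13754 : Tr := .node ⟨nat_lit 6, nat_lit 0x2000280034, nat_lit 0x20200, nat_lit 4, nat_lit 4, nat_lit 0x47⟩ (.nil) (.nil)
def t14_3514 : Tr := .node ⟨nat_lit 6, nat_lit 0x1000300028, nat_lit 1, nat_lit 1, nat_lit 4, nat_lit 0x44⟩ (.nil) (.nil)
def t14_11706 : Tr := .node ⟨nat_lit 8, nat_lit 0x80002000c000c000d0, nat_lit 0x121101, nat_lit 1, nat_lit 4, nat_lit 0x47⟩ (.nil) (.nil)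
def t14_7610 : Tr := .node ⟨nat_lit 5, nat_lit 0x1000080018, nat_lit 0x214, nat_lit 4, nat_lit 4, nat_lit 0x46⟩ (.nil) (.nil)
def t14_954 : Tr := .node ⟨nat_lit 3, nat_lit 0x40004, nat_lit 0x31, nat_lit 7, nat_lit 3, nat_lit 0x44⟩ (.nil) (.nil)
def t14_9146 : Tr := .node ⟨nat_lit 7, nat_lit 0x10006000500050, nat_lit 0x2022, nat_lit 0, nat_lit 4, nat_lit 0x46⟩ (.nil) (.nil)
def t14_5050 : Tr := .node ⟨nat_lit 7, nat_lit 0x10004000600060, nat_lit 0x100131, nat_lit 4, nat_lit 4, nat_lit 0x48⟩ (.nil) (.nil)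
def t14_13242 : Tr := .node ⟨nat_lit 6, nat_lit 0x1000200030, nat_lit 0x1300, nat_lit 4, nat_lit 3, nat_lit 0x46⟩ (.nil) (.nil)
def t14_3002 : Tr := .node ⟨nat_lit 9, nat_lit 0x80008001000100011000c00180, nat_lit 0x2110011, nat_lit 0, nat_lit 4, nat_lit 0x48⟩ (.nil) (.nil)
def t14_11194 : Tr := .node ⟨nat_lit 7, nat_lit 0x1000600060, nat_lit 0x1011020, nat_lit 0, nat_lit 4, nat_lit 0x48⟩ (.nil) (.nil)
def t14_7098 : Tr := .node ⟨nat_lit 6, nat_lit 0x300030, nat_lit 0x203111, nat_lit 1, nat_lit 4, nat_lit 0x49⟩ (.nil) (.nil)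
def t14_15290 : Tr := .node ⟨nat_lit 8, nat_lit 0x20002000c000a0, nat_lit 0x10012012, nat_lit 0, nat_lit 4, nat_lit 0x49⟩ (.nil) (.nil)
def t14_1978 : Tr := .node ⟨nat_lit 5, nat_lit 0x1000100018, nat_lit 0x2212, nat_lit 7, nat_lit 4, nat_lit 0x48⟩ (.nil) (.nil)
def t14_10170 : Tr := .node ⟨nat_lit 6, nat_lit 0x20002000100010, nat_lit 0, nat_lit 0, nat_lit 3, nat_lit 0x44⟩ (.nil) (.nil)
def t14_6074 : Tr := .node ⟨nat_lit 8, nat_lit 0x8000c000c800c8, nat_lit 0x10111210, nat_lit 0, nat_lit 4, nat_lit 0x48⟩ (.nil) (.nil)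
def t14_14266 : Tr := .node ⟨nat_lit 9, nat_lit 0x100002001400180, nat_lit 0x10011002, nat_lit 2, nat_lit 4, nat_lit 0x4a⟩ (.nil) (.nil)
def t14_4026 : Tr := .node ⟨nat_lit 7, nat_lit 0x10002000500060, nat_lit 0x1000011, nat_lit 0, nat_lit 4, nat_lit 0x46⟩ (.nil) (.nil)
def t14_12218 : Tr := .node ⟨nat_lit 7, nat_lit 0x3000500060, nat_lit 0x1111201, nat_lit 0, nat_lit 4, nat_lit 0x48⟩ (.nil) (.nil)
def t14_8122 : Tr := .node ⟨nat_lit 8, nat_lit 0x400080002000880088, nat_lit 0x1041, nat_lit 1, nat_lit 4, nat_lit 0x48⟩ (.nil) (.nil)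
def t9_442 : Tr := .node ⟨nat_lit 6, nat_lit 0x200020, nat_lit 0x231111, nat_lit 1, nat_lit 4, nat_lit 0x4b⟩ (.node ⟨nat_lit 3, nat_lit 4, nat_lit 0x13, nat_lit 4, nat_lit 3, nat_lit 0x44⟩ (.node ⟨nat_lit 6, nat_lit 0x2000080030, nat_lit 0x22212, nat_lit 0, nat_lit 4, nat_lit 0x48⟩ (.node ⟨nat_lit 6, nat_lit 0x2000080030, nat_lit 0x101122, nat_lit 0, nat_lit 4, nat_lit 0x47⟩ (.node ⟨nat_lit 4, nat_lit 0x8000c, nat_lit 0x20, nat_lit 2, nat_lit 3, nat_lit 0x43⟩ (t14_442) (t14_8634)) (.node ⟨nat_lit 6, nat_lit 0x200030, nat_lit 0x22102, nat_lit 5, nat_lit 4, nat_lit 0x4a⟩ (t14_4538) (t14_12730))) (.node ⟨nat_lit 6, nat_lit 0x2000080030, nat_lit 0x111301, nat_lit 1, nat_lit 4, nat_lit 0x48⟩ (.node ⟨nat_lit 6, nat_lit 0x80030, nat_lit 0x111110, nat_lit 0, nat_lit 4, nat_lit 0x48⟩ (t14_2490) (t14_10682)) (.node ⟨nat_lit 7, nat_lit 0x40002000480064, nat_lit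 0x212120, nat_lit 0, nat_lit 4, nat_lit 0x48⟩ (t14_6586) (t14_14778)))) (.node ⟨nat_lit 4, nat_lit 0xc, nat_lit 0x2011, nat_lit 5, nat_lit 4, nat_lit 0x46⟩ (.node ⟨nat_lit 7, nat_lit 0x2000200040, nat_lit 0x2010102, nat_lit 1, nat_lit 4, nat_lit 0x4a⟩ (.node ⟨nat_lit 6, nat_lit 0x2000200030, nat_lit 0x11002, nat_lit 2, nat_lit 4, nat_lit 0x47⟩ (t14_1466) (t14_9658)) (.node ⟨nat_lit 8, nat_lit 0x40008000800060009000d0, nat_lit 0x11210101, nat_lit 1, nat_lit 4, nat_lit 0x48⟩ (t14_5562) (t14_13754))) (.node ⟨nat_lit 7, nat_lit 0x400040, nat_lit 0x211100, nat_lit 0, nat_lit 3, nat_lit 0x49⟩ (.node ⟨nat_lit 6, nat_lit 0x2000080030, nat_lit 0x11010, nat_lit 0, nat_lit 4, nat_lit 0x46⟩ (t14_3514) (t14_11706)) (.node ⟨nat_lit 6, nat_lit 0x20002000280028, nat_lit 0x111100, nat_lit 0xb, nat_lit 4, nat_lit 0x49⟩ (t14_7610) (.nil))))) (.node ⟨nat_lit 5, nat_lit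 0x18, nat_lit 0x20301, nat_lit 0, nat_lit 4, nat_lit 0x48⟩ (.node ⟨nat_lit 5, nat_lit 0x10, nat_lit 0x22111, nat_lit 4, nat_lit 4, nat_lit 0x4a⟩ (.node ⟨nat_lit 8, nat_lit 0x40008000800084, nat_lit 0x10110111, nat_lit 1, nat_lit 4, nat_lit 0x4a⟩ (.node ⟨nat_lit 6, nat_lit 0x20, nat_lit 0x111113, nat_lit 3, nat_lit 4, nat_lit 0x4b⟩ (t14_954) (t14_9146)) (.node ⟨nat_lit 5, nat_lit 0x100010, nat_lit 0x2222, nat_lit 5, nat_lit 4, nat_lit 0x49⟩ (t14_5050) (t14_13242))) (.node ⟨nat_lit 5, nat_lit 0x100018, nat_lit 0x10120, nat_lit 8, nat_lit 4, nat_lit 0x48⟩ (.node ⟨nat_lit 6, nat_lit 0x100020, nat_lit 0x111120, nat_lit 3, nat_lit 3, nat_lit 0x48⟩ (t14_3002) (t14_11194)) (.node ⟨nat_lit 8, nat_lit 0x80008400c0, nat_lit 0x11111202, nat_lit 0, nat_lit 4, nat_lit 0x4b⟩ (t14_7098) (t14_15290)))) (.node ⟨nat_lit 6, nat_lit 0x800200032, nat_lit 0x121100, nat_lit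 1, nat_lit 4, nat_lit 0x47⟩ (.node ⟨nat_lit 6, nat_lit 0x2000240018, nat_lit 0x120221, nat_lit 2, nat_lit 4, nat_lit 0x48⟩ (.node ⟨nat_lit 7, nat_lit 0x10006000600050, nat_lit 0x13211, nat_lit 1, nat_lit 4, nat_lit 0x47⟩ (t14_1978) (t14_10170)) (.node ⟨nat_lit 7, nat_lit 0x6000500018, nat_lit 0x2202, nat_lit 0, nat_lit 4, nat_lit 0x47⟩ (t14_6074) (t14_14266))) (.node ⟨nat_lit 5, nat_lit 0x18, nat_lit 0x31110, nat_lit 5, nat_lit 3, nat_lit 0x48⟩ (.node ⟨nat_lit 8, nat_lit 0x80002000c000a0, nat_lit 0x110103, nat_lit 0, nat_lit 4, nat_lit 0x49⟩ (t14_4026) (t14_12218)) (.node ⟨nat_lit 8, nat_lit 0x8000400040009000c0, nat_lit 0x10211001, nat_lit 1, nat_lit 4, nat_lit 0x49⟩ (t14_8122) (.nil)))))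
def t14_122 : Tr := .node ⟨nat_lit 6, nat_lit 0x280030, nat_lit 0x111411, nat_lit 0, nat_lit 4, nat_lit 0x49⟩ (.nil) (.nil)
def t14_8314 : Tr := .node ⟨nat_lit 7, nat_lit 0x40001000100060, nat_lit 0x2000, nat_lit 0, nat_lit 4, nat_lit 0x46⟩ (.nil) (.nil)
def t14_4218 : Tr := .node ⟨nat_lit 6, nat_lit 0x2000200030, nat_lit 0x22110, nat_lit 5, nat_lit 4, nat_lit 0x49⟩ (.nil) (.nil)
def t14_12410 : Tr := .node ⟨nat_lit 7, nat_lit 0x40004000600068, nat_lit 0x11030, nat_lit 2, nat_lit 4, nat_lit 0x47⟩ (.nil) (.nil)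
def t14_2170 : Tr := .node ⟨nat_lit 6, nat_lit 0x10001000200020, nat_lit 0x103210, nat_lit 0, nat_lit 4, nat_lit 0x48⟩ (.nil) (.nil)
def t14_10362 : Tr := .node ⟨nat_lit 7, nat_lit 0x200040004800300060, nat_lit 0x1020000, nat_lit 1, nat_lit 4, nat_lit 0x46⟩ (.nil) (.nil)
def t14_6266 : Tr := .node ⟨nat_lit 8, nat_lit 0x40008000800084, nat_lit 0x10110110, nat_lit 1, nat_lit 4, nat_lit 0x4a⟩ (.nil) (.nil)
def t14_14458 : Tr := .node ⟨nat_lit 7, nat_lit 0x40004800500060, nat_lit 0x110021, nat_lit 3, nat_lit 4, nat_lit 0x47⟩ (.nil) (.nil)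
def t14_1146 : Tr := .node ⟨nat_lit 7, nat_lit 0x20004000600068, nat_lit 0x11121, nat_lit 0, nat_lit 4, nat_lit 0x46⟩ (.nil) (.nil)
def t14_9338 : Tr := .node ⟨nat_lit 8, nat_lit 0x800040004000a000a000c0, nat_lit 0x110112, nat_lit 1, nat_lit 4, nat_lit 0x47⟩ (.nil) (.nil)
def t14_5242 : Tr := .node ⟨nat_lit 6, nat_lit 0x20001000100028, nat_lit 0x2221, nat_lit 0, nat_lit 4, nat_lit 0x46⟩ (.nil) (.nil)
def t14_13434 : Tr := .node ⟨nat_lit 9, nat_lit 0x40010001040180, nat_lit 0x110200, nat_lit 0, nat_lit 4, nat_lit 0x4a⟩ (.nil) (.nil)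
def t14_3194 : Tr := .node ⟨nat_lit 8, nat_lit 0x8000400040004000a000a0, nat_lit 0x10121110, nat_lit 0, nat_lit 4, nat_lit 0x48⟩ (.nil) (.nil)
def t14_11386 : Tr := .node ⟨nat_lit 8, nat_lit 0x400040008000d000d0, nat_lit 0x110120, nat_lit 1, nat_lit 4, nat_lit 0x47⟩ (.nil) (.nil)
def t14_7290 : Tr := .node ⟨nat_lit 6, nat_lit 0x2000300030, nat_lit 0x12020, nat_lit 2, nat_lit 4, nat_lit 0x47⟩ (.nil) (.nil)
def t14_15482 : Tr := .node ⟨nat_lit 7, nat_lit 0x4000200070, nat_lit 0x1011102, nat_lit 0, nat_lit 4, nat_lit 0x48⟩ (.nil) (.nil)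
def t14_634 : Tr := .node ⟨nat_lit 3, nat_lit 4, nat_lit 0x23, nat_lit 7, nat_lit 4, nat_lit 0x46⟩ (.nil) (.nil)
def t14_8826 : Tr := .node ⟨nat_lit 7, nat_lit 0x40004000200048, nat_lit 0x122013, nat_lit 0, nat_lit 4, nat_lit 0x49⟩ (.nil) (.nil)
def t14_4730 : Tr := .node ⟨nat_lit 7, nat_lit 0x20002000400040, nat_lit 0x111000, nat_lit 0, nat_lit 4, nat_lit 0x48⟩ (.nil) (.nil)
def t14_12922 : Tr := .node ⟨nat_lit 8, nat_lit 0x8000800040009000c0, nat_lit 0x111200, nat_lit 0, nat_lit 4, nat_lit 0x48⟩ (.nil) (.nil)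
def t14_2682 : Tr := .node ⟨nat_lit 6, nat_lit 0x300030, nat_lit 0x1110, nat_lit 0, nat_lit 4, nat_lit 0x46⟩ (.nil) (.nil)
def t14_10874 : Tr := .node ⟨nat_lit 7, nat_lit 0x400020005000600068, nat_lit 0x12030, nat_lit 3, nat_lit 4, nat_lit 0x46⟩ (.nil) (.nil)
def t14_6778 : Tr := .node ⟨nat_lit 6, nat_lit 0x800200032, nat_lit 0x111000, nat_lit 3, nat_lit 4, nat_lit 0x47⟩ (.nil) (.nil)
def t14_14970 : Tr := .node ⟨nat_lit 9, nat_lit 0x10000800120012001400180, nat_lit 0x1101111, nat_lit 1, nat_lit 4, nat_lit 0x48⟩ (.nil) (.nil)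
def t14_1658 : Tr := .node ⟨nat_lit 7, nat_lit 0x40002000480060, nat_lit 0x2112, nat_lit 0, nat_lit 4, nat_lit 0x47⟩ (.nil) (.nil)
def t14_9850 : Tr := .node ⟨nat_lit 9, nat_lit 0x10012001400180, nat_lit 0x10100202, nat_lit 0, nat_lit 4, nat_lit 0x49⟩ (.nil) (.nil)
def t14_5754 : Tr := .node ⟨nat_lit 8, nat_lit 0x80008000840088, nat_lit 0x1112102, nat_lit 0, nat_lit 4, nat_lit 0x4a⟩ (.nil) (.nil)
def t14_13946 : Tr := .node ⟨nat_lit 9, nat_lit 0x10001000080011000c0, nat_lit 0x100200, nat_lit 2, nat_lit 4, nat_lit 0x49⟩ (.nil) (.nil)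
def t14_3706 : Tr := .node ⟨nat_lit 8, nat_lit 0x80008000400040004000a0, nat_lit 0x10102100, nat_lit 3, nat_lit 4, nat_lit 0x49⟩ (.nil) (.nil)
def t14_11898 : Tr := .node ⟨nat_lit 5, nat_lit 0x180018, nat_lit 0x30130, nat_lit 1, nat_lit 3, nat_lit 0x46⟩ (.nil) (.nil)
def t14_7802 : Tr := .node ⟨nat_lit 5, nat_lit 0x10001000100018, nat_lit 0x2101, nat_lit 0xd, nat_lit 4, nat_lit 0x48⟩ (.nil) (.nil)
def t9_122 : Tr := .node ⟨nat_lit 6, nat_lit 0x2000080030, nat_lit 0x113211, nat_lit 0, nat_lit 4, nat_lit 0x49⟩ (.node ⟨nat_lit 6, nat_lit 0x2000100030, nat_lit 0x13012, nat_lit 5, nat_lit 4, nat_lit 0x49⟩ (.node ⟨nat_lit 7, nat_lit 0x40004800480060, nat_lit 0x31200, nat_lit 3, nat_lit 4, nat_lit 0x48⟩ (.node ⟨nat_lit 6, nat_lit 0x80030, nat_lit 0x101311, nat_lit 2, nat_lit 4, nat_lit 0x49⟩ (.node ⟨nat_lit 7, nat_lit 0x200020004000440064, nat_lit 0x2022200,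 nat_lit 0, nat_lit 4, nat_lit 0x48⟩ (t14_122) (t14_8314)) (.node ⟨nat_lit 6, nat_lit 0x800080030, nat_lit 0x101002, nat_lit 0, nat_lit 4, nat_lit 0x46⟩ (t14_4218) (t14_12410))) (.node ⟨nat_lit 8, nat_lit 0x80004000200020, nat_lit 0x120011, nat_lit 0, nat_lit 4, nat_lit 0x4a⟩ (.node ⟨nat_lit 6, nat_lit 0x2000080030, nat_lit 0x11310, nat_lit 1, nat_lit 4, nat_lit 0x47⟩ (t14_2170) (t14_10362)) (.node ⟨nat_lit 8, nat_lit 0x80008000800040, nat_lit 0x1212101, nat_lit 0, nat_lit 4, nat_lit 0x4b⟩ (t14_6266) (t14_14458)))) (.node ⟨nat_lit 5, nat_lit 0x100010, nat_lit 0x2211, nat_lit 3, nat_lit 4, nat_lit 0x48⟩ (.node ⟨nat_lit 6, nat_lit 0x2000080030, nat_lit 0x221111, nat_lit 1, nat_lit 4, nat_lit 0x49⟩ (.node ⟨nat_lit 3, nat_lit 0x40006, nat_lit 0x130, nat_lit 0xd, nat_lit 4, nat_lit 0x47⟩ (t14_1146) (t14_9338)) (.node ⟨nat_lit 8, nat_lit 0x2000c000c0,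 nat_lit 0x10021021, nat_lit 1, nat_lit 4, nat_lit 0x4a⟩ (t14_5242) (t14_13434))) (.node ⟨nat_lit 6, nat_lit 0x800080030, nat_lit 0x111201, nat_lit 2, nat_lit 4, nat_lit 0x48⟩ (.node ⟨nat_lit 6, nat_lit 0x2000300030, nat_lit 0x12130, nat_lit 3, nat_lit 4, nat_lit 0x48⟩ (t14_3194) (t14_11386)) (.node ⟨nat_lit 6, nat_lit 0x20001000280030, nat_lit 0x11100, nat_lit 3, nat_lit 4, nat_lit 0x46⟩ (t14_7290) (t14_15482))))) (.node ⟨nat_lit 5, nat_lit 0x1000080014, nat_lit 0x31201, nat_lit 5, nat_lit 4, nat_lit 0x49⟩ (.node ⟨nat_lit 3, nat_lit 4, nat_lit 0x213, nat_lit 9, nat_lit 4, nat_lit 0x48⟩ (.node ⟨nat_lit 6, nat_lit 0x300028, nat_lit 0x1211, nat_lit 2, nat_lit 4, nat_lit 0x47⟩ (.node ⟨nat_lit 5, nat_lit 0x800100010, nat_lit 0x21200, nat_lit 5, nat_lit 4, nat_lit 0x48⟩ (t14_634) (t14_8826)) (.node ⟨nat_lit 8, nat_lit 0x800080002000400040, nat_lit 0x1110120,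 nat_lit 3, nat_lit 4, nat_lit 0x4a⟩ (t14_4730) (t14_12922))) (.node ⟨nat_lit 6, nat_lit 0x2000080030, nat_lit 0x101102, nat_lit 2, nat_lit 4, nat_lit 0x47⟩ (.node ⟨nat_lit 7, nat_lit 0x40002000480030, nat_lit 0x1120203, nat_lit 1, nat_lit 4, nat_lit 0x49⟩ (t14_2682) (t14_10874)) (.node ⟨nat_lit 5, nat_lit 0x40018, nat_lit 0x11112, nat_lit 3, nat_lit 3, nat_lit 0x46⟩ (t14_6778) (t14_14970)))) (.node ⟨nat_lit 5, nat_lit 0x1000100008, nat_lit 0x2111, nat_lit 5, nat_lit 4, nat_lit 0x47⟩ (.node ⟨nat_lit 6, nat_lit 0x1000280030, nat_lit 0x12112, nat_lit 2, nat_lit 4, nat_lit 0x47⟩ (.node ⟨nat_lit 6, nat_lit 0x1000200032, nat_lit 0x1111, nat_lit 0, nat_lit 4, nat_lit 0x45⟩ (t14_1658) (t14_9850)) (.node ⟨nat_lit 6, nat_lit 0x20002000200010, nat_lit 0x23003, nat_lit 3, nat_lit 4, nat_lit 0x49⟩ (t14_5754) (t14_13946))) (.node ⟨nat_lit 6, nat_lit 0x1000280030,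 nat_lit 0x210122, nat_lit 2, nat_lit 4, nat_lit 0x48⟩ (.node ⟨nat_lit 6, nat_lit 0x80030, nat_lit 0x2100, nat_lit 0, nat_lit 4, nat_lit 0x47⟩ (t14_3706) (t14_11898)) (.node ⟨nat_lit 6, nat_lit 0x800300030, nat_lit 0x111121, nat_lit 4, nat_lit 4, nat_lit 0x48⟩ (t14_7802) (.nil)))))
def t14_378 : Tr := .node ⟨nat_lit 7, nat_lit 0x4000200020, nat_lit 0x121011, nat_lit 5, nat_lit 4, nat_lit 0x4b⟩ (.nil) (.nil)
def t14_8570 : Tr := .node ⟨nat_lit 5, nat_lit 0x10001000180018, nat_lit 0x1022, nat_lit 6, nat_lit 4, nat_lit 0x46⟩ (.nil) (.nil)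
def t14_4474 : Tr := .node ⟨nat_lit 7, nat_lit 0x10001800180060, nat_lit 0x1011112, nat_lit 0, nat_lit 4, nat_lit 0x47⟩ (.nil) (.nil)
def t14_12666 : Tr := .node ⟨nat_lit 6, nat_lit 0x1000200038, nat_lit 0x11013, nat_lit 4, nat_lit 4, nat_lit 0x47⟩ (.nil) (.nil)
def t14_2426 : Tr := .node ⟨nat_lit 8, nat_lit 0x80002000c000a000d0, nat_lit 0x1020012, nat_lit 1, nat_lit 4, nat_lit 0x47⟩ (.nil) (.nil)
def t14_10618 : Tr := .node ⟨nat_lit 7, nat_lit 0x10001000500060, nat_lit 0x201120, nat_lit 0, nat_lit 4, nat_lit 0x47⟩ (.nil) (.nil)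
def t14_6522 : Tr := .node ⟨nat_lit 8, nat_lit 0x200080001000c4, nat_lit 0x11010011, nat_lit 1, nat_lit 4, nat_lit 0x49⟩ (.nil) (.nil)
def t14_14714 : Tr := .node ⟨nat_lit 8, nat_lit 0x80002000c000a000d0, nat_lit 0x1010211, nat_lit 2, nat_lit 4, nat_lit 0x47⟩ (.nil) (.nil)
def t14_1402 : Tr := .node ⟨nat_lit 7, nat_lit 0x10005000500060, nat_lit 0x103102, nat_lit 0, nat_lit 4, nat_lit 0x47⟩ (.nil) (.nil)
def t14_9594 : Tr := .node ⟨nat_lit 6, nat_lit 0x20001000300034, nat_lit 0x13120, nat_lit 4, nat_lit 4, nat_lit 0x47⟩ (.nil) (.nil)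
def t14_5498 : Tr := .node ⟨nat_lit 5, nat_lit 0x80010, nat_lit 0x143, nat_lit 0, nat_lit 4, nat_lit 0x47⟩ (.nil) (.nil)
def t14_13690 : Tr := .node ⟨nat_lit 7, nat_lit 0x20002000400068, nat_lit 0x20102, nat_lit 1, nat_lit 4, nat_lit 0x47⟩ (.nil) (.nil)
def t14_3450 : Tr := .node ⟨nat_lit 7, nat_lit 0x3000600050, nat_lit 0x1003021, nat_lit 2, nat_lit 4, nat_lit 0x48⟩ (.nil) (.nil)
def t14_11642 : Tr := .node ⟨nat_lit 8, nat_lit 0x20002000a000c000c0, nat_lit 0x20310, nat_lit 0, nat_lit 4, nat_lit 0x47⟩ (.nil) (.nil)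
def t14_7546 : Tr := .node ⟨nat_lit 6, nat_lit 0x20001000100010, nat_lit 0x200310, nat_lit 3, nat_lit 3, nat_lit 0x47⟩ (.nil) (.nil)
def t14_890 : Tr := .node ⟨nat_lit 6, nat_lit 0x10001000200022, nat_lit 0x2122, nat_lit 1, nat_lit 4, nat_lit 0x46⟩ (.nil) (.nil)
def t14_9082 : Tr := .node ⟨nat_lit 9, nat_lit 0x100010000800080008001400190, nat_lit 0x1210011, nat_lit 1, nat_lit 4, nat_lit 0x48⟩ (.nil) (.nil)
def t14_4986 : Tr := .node ⟨nat_lit 6, nat_lit 0x2000240030, nat_lit 0x11311, nat_lit 3, nat_lit 4, nat_lit 0x48⟩ (.nil) (.nil)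
def t14_13178 : Tr := .node ⟨nat_lit 7, nat_lit 0x10002000500060, nat_lit 0x31, nat_lit 2, nat_lit 4, nat_lit 0x46⟩ (.nil) (.nil)
def t14_2938 : Tr := .node ⟨nat_lit 8, nat_lit 0x800080002000c0, nat_lit 0x122110, nat_lit 0, nat_lit 4, nat_lit 0x4a⟩ (.nil) (.nil)
def t14_11130 : Tr := .node ⟨nat_lit 6, nat_lit 0x20001000100030, nat_lit 0x102, nat_lit 5, nat_lit 3, nat_lit 0x45⟩ (.nil) (.nil)
def t14_7034 : Tr := .node ⟨nat_lit 8, nat_lit 0x400040008000840060, nat_lit 0x11021001, nat_lit 1, nat_lit 4, nat_lit 0x49⟩ (.nil) (.nil)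
def t14_15226 : Tr := .node ⟨nat_lit 7, nat_lit 0x10004000600064, nat_lit 0x1100121, nat_lit 4, nat_lit 4, nat_lit 0x48⟩ (.nil) (.nil)
def t14_1914 : Tr := .node ⟨nat_lit 3, nat_lit 6, nat_lit 0x302, nat_lit 7, nat_lit 4, nat_lit 0x46⟩ (.nil) (.nil)
def t14_10106 : Tr := .node ⟨nat_lit 7, nat_lit 0x20004000600060, nat_lit 0x22120, nat_lit 2, nat_lit 4, nat_lit 0x48⟩ (.nil) (.nil)
def t14_6010 : Tr := .node ⟨nat_lit 5, nat_lit 0x100018, nat_lit 0x21310, nat_lit 4, nat_lit 4, nat_lit 0x49⟩ (.nil) (.nil)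
def t14_14202 : Tr := .node ⟨nat_lit 6, nat_lit 0x20001000100028, nat_lit 0x100112, nat_lit 2, nat_lit 4, nat_lit 0x46⟩ (.nil) (.nil)
def t14_3962 : Tr := .node ⟨nat_lit 7, nat_lit 0x10002000500060, nat_lit 0x1102100, nat_lit 1, nat_lit 4, nat_lit 0x47⟩ (.nil) (.nil)
def t14_12154 : Tr := .node ⟨nat_lit 6, nat_lit 0x1800280030, nat_lit 0x11002, nat_lit 3, nat_lit 4, nat_lit 0x46⟩ (.nil) (.nil)
def t14_8058 : Tr := .node ⟨nat_lit 7, nat_lit 0x40002000480060, nat_lit 0x21130, nat_lit 0, nat_lit 4, nat_lit 0x47⟩ (.nil) (.nil)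
def t9_378 : Tr := .node ⟨nat_lit 4, nat_lit 0x80008, nat_lit 0x2321, nat_lit 5, nat_lit 4, nat_lit 0x49⟩ (.node ⟨nat_lit 6, nat_lit 0x2000200010, nat_lit 0x13220, nat_lit 1, nat_lit 4, nat_lit 0x49⟩ (.node ⟨nat_lit 5, nat_lit 0x1000100008, nat_lit 0x12210, nat_lit 0, nat_lit 3, nat_lit 0x46⟩ (.node ⟨nat_lit 6, nat_lit 0x200030, nat_lit 0x112202, nat_lit 0, nat_lit 4, nat_lit 0x49⟩ (.node ⟨nat_lit 8, nat_lit 0x2000c000c000c0, nat_lit 0x211210, nat_lit 0, nat_lit 4, nat_lit 0x48⟩ (t14_378) (t14_8570)) (.node ⟨nat_lit 8, nat_lit 0x4000800090006000d000e0, nat_lit 0x11210111, nat_lit 0, nat_lit 4, nat_lit 0x47⟩ (t14_4474) (t14_12666))) (.node ⟨nat_lit 7, nat_lit 0x100060, nat_lit 0x2101101, nat_lit 0, nat_lit 4, nat_lit 0x4a⟩ (.node ⟨nat_lit 5, nat_lit 0x100018001c, nat_lit 0x11141, nat_lit 5, nat_lit 4, nat_lit 0x47⟩ (t14_2426) (t14_10618)) (.node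 ⟨nat_lit 7, nat_lit 0x10004000440064, nat_lit 0x2002001, nat_lit 1, nat_lit 4, nat_lit 0x47⟩ (t14_6522) (t14_14714)))) (.node ⟨nat_lit 6, nat_lit 0x2000100024, nat_lit 0x211120, nat_lit 3, nat_lit 4, nat_lit 0x49⟩ (.node ⟨nat_lit 6, nat_lit 0x800200010, nat_lit 0x22221, nat_lit 0, nat_lit 4, nat_lit 0x49⟩ (.node ⟨nat_lit 6, nat_lit 0x2000080030, nat_lit 0x101103, nat_lit 1, nat_lit 4, nat_lit 0x47⟩ (t14_1402) (t14_9594)) (.node ⟨nat_lit 6, nat_lit 0x800200030, nat_lit 0x112021, nat_lit 1, nat_lit 3, nat_lit 0x47⟩ (t14_5498) (t14_13690))) (.node ⟨nat_lit 7, nat_lit 0x60, nat_lit 0x3011112, nat_lit 0, nat_lit 4, nat_lit 0x4c⟩ (.node ⟨nat_lit 7, nat_lit 0x6000180018, nat_lit 0x2000000, nat_lit 1, nat_lit 4, nat_lit 0x46⟩ (t14_3450) (t14_11642)) (.node ⟨nat_lit 8, nat_lit 0x800020002000c0, nat_lit 0x11011102, nat_lit 2, nat_lit 4, nat_lit 0x4a⟩ (t14_7546)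 (.nil))))) (.node ⟨nat_lit 5, nat_lit 0x10001a, nat_lit 0x32111, nat_lit 3, nat_lit 4, nat_lit 0x49⟩ (.node ⟨nat_lit 4, nat_lit 0xc, nat_lit 0x2121, nat_lit 3, nat_lit 4, nat_lit 0x47⟩ (.node ⟨nat_lit 6, nat_lit 0x800100020, nat_lit 0x111111, nat_lit 2, nat_lit 4, nat_lit 0x48⟩ (.node ⟨nat_lit 7, nat_lit 0x4000400060, nat_lit 0x131200, nat_lit 1, nat_lit 4, nat_lit 0x4a⟩ (t14_890) (t14_9082)) (.node ⟨nat_lit 7, nat_lit 0x2000200040, nat_lit 0x1121201, nat_lit 2, nat_lit 4, nat_lit 0x4b⟩ (t14_4986) (t14_13178))) (.node ⟨nat_lit 6, nat_lit 0x200030, nat_lit 0x2100, nat_lit 2, nat_lit 3, nat_lit 0x47⟩ (.node ⟨nat_lit 6, nat_lit 0x800200030, nat_lit 0x111211, nat_lit 3, nat_lit 4, nat_lit 0x48⟩ (t14_2938) (t14_11130)) (.node ⟨nat_lit 6, nat_lit 0x1000300028, nat_lit 0x101232, nat_lit 1, nat_lit 4, nat_lit 0x47⟩ (t14_7034) (t14_15226)))) (.node ⟨nat_lit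 6, nat_lit 0x100020, nat_lit 0x102122, nat_lit 0, nat_lit 4, nat_lit 0x49⟩ (.node ⟨nat_lit 6, nat_lit 0x80030, nat_lit 0x210101, nat_lit 0, nat_lit 4, nat_lit 0x48⟩ (.node ⟨nat_lit 7, nat_lit 0x1000500060, nat_lit 0x1012131, nat_lit 1, nat_lit 4, nat_lit 0x49⟩ (t14_1914) (t14_10106)) (.node ⟨nat_lit 6, nat_lit 0x2000080030, nat_lit 0x11202, nat_lit 1, nat_lit 4, nat_lit 0x47⟩ (t14_6010) (t14_14202))) (.node ⟨nat_lit 6, nat_lit 0x2000100010, nat_lit 0x2022, nat_lit 1, nat_lit 4, nat_lit 0x48⟩ (.node ⟨nat_lit 6, nat_lit 0x2000080030, nat_lit 0x101120, nat_lit 0, nat_lit 4, nat_lit 0x47⟩ (t14_3962) (t14_12154)) (.node ⟨nat_lit 7, nat_lit 0x20004000500064, nat_lit 0x1111211, nat_lit 1, nat_lit 4, nat_lit 0x48⟩ (t14_8058) (.nil)))))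
def t14_250 : Tr := .node ⟨nat_lit 7, nat_lit 0x40001000100060, nat_lit 0x212201, nat_lit 0, nat_lit 4, nat_lit 0x49⟩ (.nil) (.nil)
def t14_8442 : Tr := .node ⟨nat_lit 6, nat_lit 0x800300038, nat_lit 0x100031, nat_lit 0, nat_lit 4, nat_lit 0x45⟩ (.nil) (.nil)
def t14_4346 : Tr := .node ⟨nat_lit 5, nat_lit 0x1000080018, nat_lit 0x20310, nat_lit 1, nat_lit 3, nat_lit 0x46⟩ (.nil) (.nil)
def t14_12538 : Tr := .node ⟨nat_lit 6, nat_lit 0x800300038, nat_lit 0x210, nat_lit 0, nat_lit 4, nat_lit 0x44⟩ (.nil) (.nil)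
def t14_2298 : Tr := .node ⟨nat_lit 7, nat_lit 0x40004000200048, nat_lit 0x112101, nat_lit 3, nat_lit 4, nat_lit 0x49⟩ (.nil) (.nil)
def t14_10490 : Tr := .node ⟨nat_lit 8, nat_lit 0x8000c0009000a0, nat_lit 0x101202, nat_lit 2, nat_lit 4, nat_lit 0x48⟩ (.nil) (.nil)
def t14_6394 : Tr := .node ⟨nat_lit 9, nat_lit 0x1000080004000400020, nat_lit 0x100101, nat_lit 3, nat_lit 4, nat_lit 0x4a⟩ (.nil) (.nil)
def t14_14586 : Tr := .node ⟨nat_lit 7, nat_lit 0x200040004000440048, nat_lit 0x1111, nat_lit 0xa, nat_lit 4, nat_lit 0x48⟩ (.nil) (.nil)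
def t14_1274 : Tr := .node ⟨nat_lit 6, nat_lit 0x2000200010, nat_lit 0x212002, nat_lit 0, nat_lit 3, nat_lit 0x48⟩ (.nil) (.nil)
def t14_9466 : Tr := .node ⟨nat_lit 9, nat_lit 0x8000800100010800a001c0, nat_lit 0x100111002, nat_lit 1, nat_lit 4, nat_lit 0x48⟩ (.nil) (.nil)
def t14_5370 : Tr := .node ⟨nat_lit 7, nat_lit 0x4000100060, nat_lit 0x1121200, nat_lit 1, nat_lit 4, nat_lit 0x4a⟩ (.nil) (.nil)
def t14_13562 : Tr := .node ⟨nat_lit 7, nat_lit 0x40004000200062, nat_lit 0x12020, nat_lit 0, nat_lit 4, nat_lit 0x47⟩ (.nil) (.nil)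
def t14_3322 : Tr := .node ⟨nat_lit 6, nat_lit 0x800200030, nat_lit 0x10120, nat_lit 0, nat_lit 3, nat_lit 0x45⟩ (.nil) (.nil)
def t14_11514 : Tr := .node ⟨nat_lit 7, nat_lit 0x20004000100064, nat_lit 0x1001011, nat_lit 0, nat_lit 4, nat_lit 0x46⟩ (.nil) (.nil)
def t14_7418 : Tr := .node ⟨nat_lit 8, nat_lit 0x8000800040004000a000a0, nat_lit 0x1101121, nat_lit 1, nat_lit 4, nat_lit 0x48⟩ (.nil) (.nil)
def t14_762 : Tr := .node ⟨nat_lit 7, nat_lit 0x20003000500068, nat_lit 0x2130, nat_lit 0, nat_lit 4, nat_lit 0x45⟩ (.nil) (.nil)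
def t14_8954 : Tr := .node ⟨nat_lit 7, nat_lit 0x40001000480060, nat_lit 0x12120, nat_lit 4, nat_lit 4, nat_lit 0x48⟩ (.nil) (.nil)
def t14_4858 : Tr := .node ⟨nat_lit 6, nat_lit 0x20001000100028, nat_lit 0x112311, nat_lit 1, nat_lit 4, nat_lit 0x48⟩ (.nil) (.nil)
def t14_13050 : Tr := .node ⟨nat_lit 7, nat_lit 0x40001000480068, nat_lit 0x112100, nat_lit 0, nat_lit 4, nat_lit 0x47⟩ (.nil) (.nil)
def t14_2810 : Tr := .node ⟨nat_lit 7, nat_lit 0x2000200040, nat_lit 0x111002, nat_lit 0, nat_lit 4, nat_lit 0x49⟩ (.nil) (.nil)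
def t14_11002 : Tr := .node ⟨nat_lit 9, nat_lit 0x100010000800080011001a0, nat_lit 0x101102002, nat_lit 0, nat_lit 4, nat_lit 0x49⟩ (.nil) (.nil)
def t14_6906 : Tr := .node ⟨nat_lit 4, nat_lit 0x80008, nat_lit 0x1111, nat_lit 0xf, nat_lit 4, nat_lit 0x49⟩ (.nil) (.nil)
def t14_15098 : Tr := .node ⟨nat_lit 8, nat_lit 0x400050006000a000d0, nat_lit 0x10011011, nat_lit 1, nat_lit 4, nat_lit 0x46⟩ (.nil) (.nil)
def t14_1786 : Tr := .node ⟨nat_lit 4, nat_lit 0x8000c, nat_lit 0x222, nat_lit 8, nat_lit 4, nat_lit 0x47⟩ (.nil) (.nil)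
def t14_9978 : Tr := .node ⟨nat_lit 8, nat_lit 0x4000800090009000c000c0, nat_lit 0x401020, nat_lit 1, nat_lit 4, nat_lit 0x47⟩ (.nil) (.nil)
def t14_5882 : Tr := .node ⟨nat_lit 7, nat_lit 0x40004000200020, nat_lit 0x11021, nat_lit 5, nat_lit 4, nat_lit 0x49⟩ (.nil) (.nil)
def t14_14074 : Tr := .node ⟨nat_lit 8, nat_lit 0x20001000c0, nat_lit 0x10001002, nat_lit 0, nat_lit 4, nat_lit 0x49⟩ (.nil) (.nil)
def t14_3834 : Tr := .node ⟨nat_lit 8, nat_lit 0x800080002000c0, nat_lit 0x1112001, nat_lit 2, nat_lit 4, nat_lit 0x4a⟩ (.nil) (.nil)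
def t14_12026 : Tr := .node ⟨nat_lit 7, nat_lit 0x40004800500060, nat_lit 0x112101, nat_lit 4, nat_lit 4, nat_lit 0x48⟩ (.nil) (.nil)
def t14_7930 : Tr := .node ⟨nat_lit 8, nat_lit 0x4000800080008800900090, nat_lit 0x10021, nat_lit 7, nat_lit 4, nat_lit 0x48⟩ (.nil) (.nil)
def t9_250 : Tr := .node ⟨nat_lit 5, nat_lit 0x10, nat_lit 0x13212, nat_lit 1, nat_lit 4, nat_lit 0x4a⟩ (.node ⟨nat_lit 5, nat_lit 0x80010, nat_lit 0x13110, nat_lit 0, nat_lit 4, nat_lit 0x48⟩ (.node ⟨nat_lit 7, nat_lit 0x40004000200020, nat_lit 0x1032110, nat_lit 0, nat_lit 4, nat_lit 0x4a⟩ (.node ⟨nat_lit 5, nat_lit 0x18, nat_lit 0x11213, nat_lit 1, nat_lit 4, nat_lit 0x48⟩ (.node ⟨nat_lit 3, nat_lit 0x40004, nat_lit 0x231, nat_lit 0xc, nat_lit 4, nat_lit 0x48⟩ (t14_250) (t14_8442)) (.node ⟨nat_lit 7, nat_lit 0x40001000600070, nat_lit 0x11023, nat_lit 0, nat_lit 4, nat_lit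 0x46⟩ (t14_4346) (t14_12538))) (.node ⟨nat_lit 6, nat_lit 0x300030, nat_lit 0x201121, nat_lit 6, nat_lit 4, nat_lit 0x49⟩ (.node ⟨nat_lit 8, nat_lit 0x200080004000c000c4, nat_lit 0x1002230, nat_lit 0, nat_lit 4, nat_lit 0x48⟩ (t14_2298) (t14_10490)) (.node ⟨nat_lit 7, nat_lit 0x2000500060, nat_lit 0x1012002, nat_lit 3, nat_lit 4, nat_lit 0x49⟩ (t14_6394) (t14_14586)))) (.node ⟨nat_lit 6, nat_lit 0x280030, nat_lit 0x121111, nat_lit 1, nat_lit 4, nat_lit 0x48⟩ (.node ⟨nat_lit 7, nat_lit 0x60, nat_lit 0x2111111, nat_lit 0, nat_lit 3, nat_lit 0x4a⟩ (.node ⟨nat_lit 5, nat_lit 0x80010, nat_lit 0x11100, nat_lit 4, nat_lit 4, nat_lit 0x47⟩ (t14_1274) (t14_9466)) (.node ⟨nat_lit 7, nat_lit 0x10004000200060, nat_lit 0x1100322, nat_lit 0, nat_lit 4, nat_lit 0x49⟩ (t14_5370) (t14_13562))) (.node ⟨nat_lit 7, nat_lit 0x4000200070, nat_lit 0x102003, nat_lit 1,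 nat_lit 4, nat_lit 0x48⟩ (.node ⟨nat_lit 6, nat_lit 0x2000100030, nat_lit 0x12031, nat_lit 4, nat_lit 4, nat_lit 0x49⟩ (t14_3322) (t14_11514)) (.node ⟨nat_lit 8, nat_lit 0x4000800088005000c0, nat_lit 0x11100002, nat_lit 1, nat_lit 4, nat_lit 0x48⟩ (t14_7418) (.nil))))) (.node ⟨nat_lit 5, nat_lit 0x100008, nat_lit 0x1302, nat_lit 6, nat_lit 4, nat_lit 0x49⟩ (.node ⟨nat_lit 6, nat_lit 0x2000200010, nat_lit 0x121102, nat_lit 1, nat_lit 4, nat_lit 0x49⟩ (.node ⟨nat_lit 6, nat_lit 0x20, nat_lit 0x21110, nat_lit 6, nat_lit 4, nat_lit 0x4b⟩ (.node ⟨nat_lit 6, nat_lit 0x2000300030, nat_lit 0x13030, nat_lit 0, nat_lit 3, nat_lit 0x46⟩ (t14_762) (t14_8954)) (.node ⟨nat_lit 7, nat_lit 0x400020002000500070, nat_lit 0x2002120, nat_lit 1, nat_lit 4, nat_lit 0x47⟩ (t14_4858) (t14_13050))) (.node ⟨nat_lit 6, nat_lit 0x800080030, nat_lit 0x111002, nat_lit 1, nat_lit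 4, nat_lit 0x47⟩ (.node ⟨nat_lit 6, nat_lit 0x280030, nat_lit 0x12141, nat_lit 0, nat_lit 4, nat_lit 0x48⟩ (t14_2810) (t14_11002)) (.node ⟨nat_lit 7, nat_lit 0x400050006000700070, nat_lit 0x1000221, nat_lit 1, nat_lit 4, nat_lit 0x45⟩ (t14_6906) (t14_15098)))) (.node ⟨nat_lit 6, nat_lit 0x800280030, nat_lit 0x111212, nat_lit 0, nat_lit 4, nat_lit 0x47⟩ (.node ⟨nat_lit 6, nat_lit 0x300030, nat_lit 0x102131, nat_lit 1, nat_lit 4, nat_lit 0x48⟩ (.node ⟨nat_lit 5, nat_lit 0x40018, nat_lit 0x10010, nat_lit 3, nat_lit 4, nat_lit 0x45⟩ (t14_1786) (t14_9978)) (.node ⟨nat_lit 7, nat_lit 0x4000400040, nat_lit 0x221300, nat_lit 0, nat_lit 4, nat_lit 0x4b⟩ (t14_5882) (t14_14074))) (.node ⟨nat_lit 8, nat_lit 0x200020001000c0, nat_lit 0x20012012, nat_lit 1, nat_lit 4, nat_lit 0x4a⟩ (.node ⟨nat_lit 5, nat_lit 0x180014, nat_lit 0x10103, nat_lit 3, nat_lit 4, nat_lit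 0x46⟩ (t14_3834) (t14_12026)) (.node ⟨nat_lit 6, nat_lit 0x3000300028, nat_lit 0x11113, nat_lit 2, nat_lit 4, nat_lit 0x46⟩ (t14_7930) (.nil)))))
def t14_506 : Tr := .node ⟨nat_lit 7, nat_lit 0x1000400060, nat_lit 0x1121201, nat_lit 0, nat_lit 4, nat_lit 0x4a⟩ (.nil) (.nil)
def t14_8698 : Tr := .node ⟨nat_lit 7, nat_lit 0x40002000480060, nat_lit 0x11010, nat_lit 3, nat_lit 4, nat_lit 0x47⟩ (.nil) (.nil)
def t14_4602 : Tr := .node ⟨nat_lit 7, nat_lit 0x40001000480060, nat_lit 0x1013011, nat_lit 2, nat_lit 4, nat_lit 0x49⟩ (.nil) (.nil)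
def t14_12794 : Tr := .node ⟨nat_lit 6, nat_lit 0x2000300034, nat_lit 0x101120, nat_lit 4, nat_lit 4, nat_lit 0x47⟩ (.nil) (.nil)
def t14_2554 : Tr := .node ⟨nat_lit 8, nat_lit 0x800080004000d000d0, nat_lit 0x10102210, nat_lit 0, nat_lit 4, nat_lit 0x48⟩ (.nil) (.nil)
def t14_10746 : Tr := .node ⟨nat_lit 7, nat_lit 0x10002000500060, nat_lit 0x110102, nat_lit 0, nat_lit 4, nat_lit 0x47⟩ (.nil) (.nil)
def t14_6650 : Tr := .node ⟨nat_lit 7, nat_lit 0x4000400020, nat_lit 0x111301, nat_lit 2, nat_lit 4, nat_lit 0x4a⟩ (.nil) (.nil)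
def t14_14842 : Tr := .node ⟨nat_lit 9, nat_lit 0x8000800100011000c001a001c0, nat_lit 0x1110012, nat_lit 0, nat_lit 4, nat_lit 0x46⟩ (.nil) (.nil)
def t14_1530 : Tr := .node ⟨nat_lit 7, nat_lit 0x4000500060, nat_lit 0x112210, nat_lit 0, nat_lit 3, nat_lit 0x47⟩ (.nil) (.nil)
def t14_9722 : Tr := .node ⟨nat_lit 8, nat_lit 0x80008000400040009000a0, nat_lit 0x12210, nat_lit 0, nat_lit 4, nat_lit 0x47⟩ (.nil) (.nil)
def t14_5626 : Tr := .node ⟨nat_lit 6, nat_lit 0x3000300030, nat_lit 0x1210, nat_lit 5, nat_lit 4, nat_lit 0x46⟩ (.nil) (.nil)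
def t14_13818 : Tr := .node ⟨nat_lit 7, nat_lit 0x6000500070, nat_lit 0x1002, nat_lit 0, nat_lit 4, nat_lit 0x45⟩ (.nil) (.nil)
def t14_3578 : Tr := .node ⟨nat_lit 7, nat_lit 0x40002000500060, nat_lit 0x11020, nat_lit 0, nat_lit 3, nat_lit 0x45⟩ (.nil) (.nil)
def t14_11770 : Tr := .node ⟨nat_lit 5, nat_lit 0x1000080014, nat_lit 0x40, nat_lit 5, nat_lit 4, nat_lit 0x46⟩ (.nil) (.nil)
def t14_7674 : Tr := .node ⟨nat_lit 5, nat_lit 0x180014, nat_lit 0, nat_lit 5, nat_lit 4, nat_lit 0x44⟩ (.nil) (.nil)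
def t14_1018 : Tr := .node ⟨nat_lit 7, nat_lit 0x1000600060, nat_lit 0x11121, nat_lit 3, nat_lit 4, nat_lit 0x48⟩ (.nil) (.nil)
def t14_9210 : Tr := .node ⟨nat_lit 8, nat_lit 0x8000200020009000c0, nat_lit 0x11001, nat_lit 1, nat_lit 4, nat_lit 0x47⟩ (.nil) (.nil)
def t14_5114 : Tr := .node ⟨nat_lit 7, nat_lit 0x20004000400060, nat_lit 0x111301, nat_lit 1, nat_lit 4, nat_lit 0x49⟩ (.nil) (.nil)
def t14_13306 : Tr := .node ⟨nat_lit 7, nat_lit 0x20002000500068, nat_lit 0x1003, nat_lit 3, nat_lit 4, nat_lit 0x46⟩ (.nil) (.nil)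
def t14_3066 : Tr := .node ⟨nat_lit 7, nat_lit 0x10001000600060, nat_lit 0x11021, nat_lit 2, nat_lit 4, nat_lit 0x47⟩ (.nil) (.nil)
def t14_11258 : Tr := .node ⟨nat_lit 7, nat_lit 0x20002000500068, nat_lit 0x10101, nat_lit 1, nat_lit 4, nat_lit 0x46⟩ (.nil) (.nil)
def t14_7162 : Tr := .node ⟨nat_lit 8, nat_lit 0x200040008000c000c8, nat_lit 0x11000121, nat_lit 1, nat_lit 4, nat_lit 0x48⟩ (.nil) (.nil)
def t14_15354 : Tr := .node ⟨nat_lit 0xa, nat_lit 0x2000200010001000100011002800320, nat_lit 0x11011110, nat_lit 0, nat_lit 4, nat_lit 0x48⟩ (.nil) (.nil)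
def t14_2042 : Tr := .node ⟨nat_lit 7, nat_lit 0x400040002000200070, nat_lit 0x12310, nat_lit 1, nat_lit 4, nat_lit 0x47⟩ (.nil) (.nil)
def t14_10234 : Tr := .node ⟨nat_lit 7, nat_lit 0x40002000500060, nat_lit 0x112102, nat_lit 2, nat_lit 4, nat_lit 0x48⟩ (.nil) (.nil)
def t14_6138 : Tr := .node ⟨nat_lit 3, nat_lit 4, nat_lit 0x110, nat_lit 8, nat_lit 3, nat_lit 0x45⟩ (.nil) (.nil)
def t14_14330 : Tr := .node ⟨nat_lit 5, nat_lit 0x800100012, nat_lit 0x12003, nat_lit 2, nat_lit 4, nat_lit 0x46⟩ (.nil) (.nil)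
def t14_4090 : Tr := .node ⟨nat_lit 7, nat_lit 0x20006000500068, nat_lit 0x112210, nat_lit 1, nat_lit 4, nat_lit 0x47⟩ (.nil) (.nil)
def t14_12282 : Tr := .node ⟨nat_lit 8, nat_lit 0x8000a00060006000c0, nat_lit 0x11301, nat_lit 1, nat_lit 4, nat_lit 0x46⟩ (.nil) (.nil)
def t14_8186 : Tr := .node ⟨nat_lit 7, nat_lit 0x40004800480060, nat_lit 0x21310, nat_lit 4, nat_lit 4, nat_lit 0x48⟩ (.nil) (.nil)
def t9_506 : Tr := .node ⟨nat_lit 5, nat_lit 0x100008, nat_lit 0x11312, nat_lit 3, nat_lit 4, nat_lit 0x49⟩ (.node ⟨nat_lit 6, nat_lit 0x20001000280028, nat_lit 0x311122, nat_lit 1, nat_lit 4, nat_lit 0x49⟩ (.node ⟨nat_lit 5, nat_lit 0x10, nat_lit 0x12221, nat_lit 3, nat_lit 4, nat_lit 0x4a⟩ (.node ⟨nat_lit 3, nat_lit 4, nat_lit 0x22, nat_lit 9, nat_lit 4, nat_lit 0x46⟩ (.node ⟨nat_lit 7, nat_lit 0x400040002000480050, nat_lit 0x2111110, nat_lit 3, nat_lit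 4, nat_lit 0x49⟩ (t14_506) (t14_8698)) (.node ⟨nat_lit 6, nat_lit 0x800300030, nat_lit 0x112311, nat_lit 0, nat_lit 4, nat_lit 0x48⟩ (t14_4602) (t14_12794))) (.node ⟨nat_lit 5, nat_lit 0x180018, nat_lit 0x10121, nat_lit 4, nat_lit 4, nat_lit 0x46⟩ (.node ⟨nat_lit 7, nat_lit 0x4000400044, nat_lit 0x1111311, nat_lit 0, nat_lit 4, nat_lit 0x4b⟩ (t14_2554) (t14_10746)) (.node ⟨nat_lit 5, nat_lit 0x100018, nat_lit 0x1132, nat_lit 2, nat_lit 4, nat_lit 0x47⟩ (t14_6650) (t14_14842)))) (.node ⟨nat_lit 7, nat_lit 0x800500060, nat_lit 0x211111, nat_lit 0, nat_lit 4, nat_lit 0x48⟩ (.node ⟨nat_lit 6, nat_lit 0x200010, nat_lit 0x221121, nat_lit 2, nat_lit 4, nat_lit 0x4b⟩ (.node ⟨nat_lit 7, nat_lit 0x4000500064, nat_lit 0x1101312, nat_lit 0, nat_lit 4, nat_lit 0x49⟩ (t14_1530) (t14_9722)) (.node ⟨nat_lit 7, nat_lit 0x20002000500068, nat_lit 0x1101220, nat_lit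 1, nat_lit 4, nat_lit 0x48⟩ (t14_5626) (t14_13818))) (.node ⟨nat_lit 7, nat_lit 0x4000200020, nat_lit 0x21100, nat_lit 2, nat_lit 4, nat_lit 0x49⟩ (.node ⟨nat_lit 6, nat_lit 0x200032, nat_lit 0x110000, nat_lit 0, nat_lit 4, nat_lit 0x46⟩ (t14_3578) (t14_11770)) (.node ⟨nat_lit 7, nat_lit 0x400020002000500068, nat_lit 0x1121101, nat_lit 3, nat_lit 4, nat_lit 0x48⟩ (t14_7674) (.nil))))) (.node ⟨nat_lit 5, nat_lit 0x180018, nat_lit 0x10120, nat_lit 0, nat_lit 3, nat_lit 0x44⟩ (.node ⟨nat_lit 5, nat_lit 0x10, nat_lit 0x2212, nat_lit 3, nat_lit 4, nat_lit 0x49⟩ (.node ⟨nat_lit 5, nat_lit 0x800080010, nat_lit 0x22112, nat_lit 3, nat_lit 4, nat_lit 0x49⟩ (.node ⟨nat_lit 3, nat_lit 6, nat_lit 0x114, nat_lit 7, nat_lit 4, nat_lit 0x46⟩ (t14_1018) (t14_9210)) (.node ⟨nat_lit 6, nat_lit 0x300030, nat_lit 0x102221, nat_lit 4, nat_lit 4, nat_lit 0x49⟩ (t14_5114)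 (t14_13306))) (.node ⟨nat_lit 7, nat_lit 0x400060, nat_lit 0x1011120, nat_lit 0, nat_lit 4, nat_lit 0x4a⟩ (.node ⟨nat_lit 6, nat_lit 0x2000100010, nat_lit 0x21022, nat_lit 1, nat_lit 3, nat_lit 0x48⟩ (t14_3066) (t14_11258)) (.node ⟨nat_lit 8, nat_lit 0x800080002000c000d0, nat_lit 0x1021022, nat_lit 0, nat_lit 4, nat_lit 0x48⟩ (t14_7162) (t14_15354)))) (.node ⟨nat_lit 5, nat_lit 0x180018, nat_lit 0x10221, nat_lit 3, nat_lit 4, nat_lit 0x46⟩ (.node ⟨nat_lit 7, nat_lit 0x400060, nat_lit 0x2111111, nat_lit 0, nat_lit 4, nat_lit 0x4b⟩ (.node ⟨nat_lit 6, nat_lit 0x2000100010, nat_lit 0x12032, nat_lit 3, nat_lit 4, nat_lit 0x4a⟩ (t14_2042) (t14_10234)) (.node ⟨nat_lit 5, nat_lit 0x140018, nat_lit 0x2202, nat_lit 3, nat_lit 4, nat_lit 0x47⟩ (t14_6138) (t14_14330))) (.node ⟨nat_lit 6, nat_lit 0x800080030, nat_lit 0x220204, nat_lit 0, nat_lit 4, nat_lit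 0x49⟩ (.node ⟨nat_lit 6, nat_lit 0x1000200030, nat_lit 0x2000, nat_lit 1, nat_lit 4, nat_lit 0x46⟩ (t14_4090) (t14_12282)) (.node ⟨nat_lit 7, nat_lit 0x20004000440044, nat_lit 0x102111, nat_lit 0, nat_lit 4, nat_lit 0x47⟩ (t14_8186) (.nil)))))
def t4_10 : Tr := .node ⟨nat_lit 3, nat_lit 0, nat_lit 0x311, nat_lit 4, nat_lit 3, nat_lit 0x46⟩ (.node ⟨nat_lit 3, nat_lit 0, nat_lit 0x211, nat_lit 2, nat_lit 3, nat_lit 0x45⟩ (.node ⟨nat_lit 5, nat_lit 0x10, nat_lit 0x11111, nat_lit 1, nat_lit 3, nat_lit 0x47⟩ (.node ⟨nat_lit 3, nat_lit 0, nat_lit 0x422, nat_lit 3, nat_lit 3, nat_lit 0x48⟩ (.node ⟨nat_lit 6, nat_lit 0x1000100020, nat_lit 0x204111, nat_lit 0, nat_lit 4, nat_lit 0x4a⟩ (t9_10) (t9_266)) (.node ⟨nat_lit 6, nat_lit 0x20, nat_lit 0x321112, nat_lit 0, nat_lit 4, nat_lit 0x4c⟩ (t9_138) (t9_394))) (.node ⟨nat_lit 3, nat_lit 4, nat_lit 0x142, nat_lit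 7, nat_lit 4, nat_lit 0x48⟩ (.node ⟨nat_lit 4, nat_lit 0x80004, nat_lit 0x202, nat_lit 7, nat_lit 3, nat_lit 0x46⟩ (t9_74) (t9_330)) (.node ⟨nat_lit 5, nat_lit 0x80010, nat_lit 0x13211, nat_lit 1, nat_lit 3, nat_lit 0x48⟩ (t9_202) (t9_458)))) (.node ⟨nat_lit 2, nat_lit 0, nat_lit 0x42, nat_lit 0xf, nat_lit 4, nat_lit 0x49⟩ (.node ⟨nat_lit 3, nat_lit 0, nat_lit 0x422, nat_lit 9, nat_lit 4, nat_lit 0x4a⟩ (.node ⟨nat_lit 5, nat_lit 0x10, nat_lit 0x31113, nat_lit 3, nat_lit 4, nat_lit 0x4b⟩ (t9_42) (t9_298)) (.node ⟨nat_lit 6, nat_lit 0x200022, nat_lit 0x311121, nat_lit 1, nat_lit 4, nat_lit 0x4b⟩ (t9_170) (t9_426))) (.node ⟨nat_lit 6, nat_lit 0x280030, nat_lit 0x111411, nat_lit 1, nat_lit 4, nat_lit 0x49⟩ (.node ⟨nat_lit 4, nat_lit 0xc, nat_lit 0x3212, nat_lit 7, nat_lit 4, nat_lit 0x49⟩ (t9_106) (t9_362)) (.node ⟨nat_lit 6, nat_lit 0x30, nat_lit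 0x312211, nat_lit 0, nat_lit 4, nat_lit 0x4b⟩ (t9_234) (t9_490))))) (.node ⟨nat_lit 4, nat_lit 0, nat_lit 0x2111, nat_lit 2, nat_lit 3, nat_lit 0x47⟩ (.node ⟨nat_lit 3, nat_lit 4, nat_lit 0x111, nat_lit 8, nat_lit 3, nat_lit 0x45⟩ (.node ⟨nat_lit 4, nat_lit 0, nat_lit 0x4221, nat_lit 1, nat_lit 4, nat_lit 0x4a⟩ (.node ⟨nat_lit 3, nat_lit 0, nat_lit 0x322, nat_lit 3, nat_lit 3, nat_lit 0x47⟩ (t9_26) (t9_282)) (.node ⟨nat_lit 5, nat_lit 0x80010, nat_lit 0x31112, nat_lit 5, nat_lit 4, nat_lit 0x4a⟩ (t9_154) (t9_410))) (.node ⟨nat_lit 4, nat_lit 0, nat_lit 0x4111, nat_lit 0, nat_lit 4, nat_lit 0x48⟩ (.node ⟨nat_lit 4, nat_lit 0x80004, nat_lit 0x1202, nat_lit 5, nat_lit 3, nat_lit 0x46⟩ (t9_90) (t9_346)) (.node ⟨nat_lit 7, nat_lit 0x4000400020, nat_lit 0x311101, nat_lit 0, nat_lit 3, nat_lit 0x49⟩ (t9_218) (t9_474)))) (.node ⟨nat_lit 4, nat_lit 0, nat_lit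 0x4322, nat_lit 1, nat_lit 4, nat_lit 0x4b⟩ (.node ⟨nat_lit 5, nat_lit 0x10, nat_lit 0x14220, nat_lit 1, nat_lit 4, nat_lit 0x4b⟩ (.node ⟨nat_lit 7, nat_lit 0x4000200010, nat_lit 0x21001, nat_lit 1, nat_lit 3, nat_lit 0x48⟩ (t9_58) (t9_314)) (.node ⟨nat_lit 3, nat_lit 6, nat_lit 0x311, nat_lit 0xb, nat_lit 3, nat_lit 0x46⟩ (t9_186) (t9_442))) (.node ⟨nat_lit 6, nat_lit 0x200030, nat_lit 0x14201, nat_lit 1, nat_lit 4, nat_lit 0x4a⟩ (.node ⟨nat_lit 4, nat_lit 0x80004, nat_lit 0x2312, nat_lit 1, nat_lit 3, nat_lit 0x47⟩ (t9_122) (t9_378)) (.node ⟨nat_lit 4, nat_lit 0x40008, nat_lit 0x3101, nat_lit 1, nat_lit 3, nat_lit 0x46⟩ (t9_250) (t9_506)))))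

end Pool.Agent.Sel.T31
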