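import Pool.Agent.H8.Sel.Prof
import Pool.Agent.H8.Sel.T31.P10

set_option linter.all false
set_option maxRecDepth 100000

namespace Pool.Agent.Sel.T31

open Pool.Agent.Sel

def t14_9 : Tr := .node ⟨nat_lit 9, nat_lit 0x400080008000200100, nat_lit 0x110002101, nat_lit 2, nat_lit 4, nat_lit 0x4b⟩ (.nil) (.nil)
def t14_8201 : Tr := .node ⟨nat_lit 8, nat_lit 0x400080005000a000d0, nat_lit 0x10113, nat_lit 1, nat_lit 4, nat_lit 0x46⟩ (.nil) (.nil)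
def t14_4105 : Tr := .node ⟨nat_lit 9, nat_lit 0x10001000100008001100120, nat_lit 0x11111001, nat_lit 2, nat_lit 4, nat_lit 0x4a⟩ (.nil) (.nil)
def t14_12297 : Tr := .node ⟨nat_lit 7, nat_lit 0x50003000600070, nat_lit 0x1023, nat_lit 3, nat_lit 4, nat_lit 0x45⟩ (.nil) (.nil)
def t14_2057 : Tr := .node ⟨nat_lit 6, nat_lit 0x20002000200010, nat_lit 0x13110, nat_lit 6, nat_lit 4, nat_lit 0x49⟩ (.nil) (.nil)
def t14_10249 : Tr := .node ⟨nat_lit 8, nat_lit 0x80004000b000b000d0, nat_lit 0x10000201, nat_lit 0, nat_lit 4, nat_lit 0x45⟩ (.nil) (.nil)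
def t14_6153 : Tr := .node ⟨nat_lit 7, nat_lit 0x40002000100010, nat_lit 0x11, nat_lit 2, nat_lit 4, nat_lit 0x47⟩ (.nil) (.nil)
def t14_14345 : Tr := .node ⟨nat_lit 9, nat_lit 0x10001000040004001200180, nat_lit 0x211000, nat_lit 3, nat_lit 4, nat_lit 0x49⟩ (.nil) (.nil)
def t14_1033 : Tr := .node ⟨nat_lit 5, nat_lit 0x80010001c, nat_lit 0x121, nat_lit 3, nat_lit 4, nat_lit 0x44⟩ (.nil) (.nil)
def t14_9225 : Tr := .node ⟨nat_lit 8, nat_lit 0x4000400080008400c0, nat_lit 0x10122001, nat_lit 0, nat_lit 4, nat_lit 0x49⟩ (.nil) (.nil)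
def t14_5129 : Tr := .node ⟨nat_lit 6, nat_lit 0x800200030, nat_lit 0x11031, nat_lit 1, nat_lit 3, nat_lit 0x46⟩ (.nil) (.nil)
def t14_13321 : Tr := .node ⟨nat_lit 7, nat_lit 0x1000400060, nat_lit 0x1030, nat_lit 0, nat_lit 4, nat_lit 0x48⟩ (.nil) (.nil)
def t14_3081 : Tr := .node ⟨nat_lit 6, nat_lit 0x80030, nat_lit 0x200011, nat_lit 0, nat_lit 4, nat_lit 0x47⟩ (.nil) (.nil)
def t14_11273 : Tr := .node ⟨nat_lit 7, nat_lit 0x40001000600070, nat_lit 0x101102, nat_lit 1, nat_lit 4, nat_lit 0x46⟩ (.nil) (.nil)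
def t14_7177 : Tr := .node ⟨nat_lit 7, nat_lit 0x40001000500060, nat_lit 0x1011211, nat_lit 1, nat_lit 4, nat_lit 0x48⟩ (.nil) (.nil)
def t14_15369 : Tr := .node ⟨nat_lit 8, nat_lit 0x800080008800c0, nat_lit 0x1111011, nat_lit 4, nat_lit 4, nat_lit 0x4a⟩ (.nil) (.nil)
def t14_521 : Tr := .node ⟨nat_lit 7, nat_lit 0x800100060, nat_lit 0x1111111, nat_lit 0, nat_lit 4, nat_lit 0x49⟩ (.nil) (.nil)
def t14_8713 : Tr := .node ⟨nat_lit 9, nat_lit 0x400100002001080180, nat_lit 0x1010, nat_lit 1, nat_lit 4, nat_lit 0x48⟩ (.nil) (.nil)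
def t14_4617 : Tr := .node ⟨nat_lit 7, nat_lit 0x40002000100048, nat_lit 0x1111002, nat_lit 0, nat_lit 4, nat_lit 0x48⟩ (.nil) (.nil)
def t14_12809 : Tr := .node ⟨nat_lit 7, nat_lit 0x20005000600068, nat_lit 0x12002, nat_lit 1, nat_lit 4, nat_lit 0x46⟩ (.nil) (.nil)
def t14_2569 : Tr := .node ⟨nat_lit 8, nat_lit 0x80008000400040009000e0, nat_lit 0x10022100, nat_lit 1, nat_lit 4, nat_lit 0x48⟩ (.nil) (.nil)
def t14_10761 : Tr := .node ⟨nat_lit 7, nat_lit 0x400060, nat_lit 0x10002, nat_lit 0, nat_lit 4, nat_lit 0x48⟩ (.nil) (.nil)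
def t14_6665 : Tr := .node ⟨nat_lit 7, nat_lit 0x400040004000200020, nat_lit 0x21130, nat_lit 0, nat_lit 4, nat_lit 0x48⟩ (.nil) (.nil)
def t14_14857 : Tr := .node ⟨nat_lit 8, nat_lit 0x2000200080003000c0, nat_lit 0x10011111, nat_lit 1, nat_lit 4, nat_lit 0x48⟩ (.nil) (.nil)
def t14_1545 : Tr := .node ⟨nat_lit 8, nat_lit 0x8000800080004000400040, nat_lit 0x220210, nat_lit 0, nat_lit 4, nat_lit 0x49⟩ (.nil) (.nil)
def t14_9737 : Tr := .node ⟨nat_lit 9, nat_lit 0x800100002001400190, nat_lit 0x11002020, nat_lit 0, nat_lit 4, nat_lit 0x49⟩ (.nil) (.nil)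
def t14_5641 : Tr := .node ⟨nat_lit 5, nat_lit 0x180018, nat_lit 0x10120, nat_lit 4, nat_lit 4, nat_lit 0x46⟩ (.nil) (.nil)
def t14_13833 : Tr := .node ⟨nat_lit 5, nat_lit 0x100018, nat_lit 0x10102, nat_lit 5, nat_lit 3, nat_lit 0x46⟩ (.nil) (.nil)
def t14_3593 : Tr := .node ⟨nat_lit 7, nat_lit 0x10005000600060, nat_lit 0x1120, nat_lit 0, nat_lit 3, nat_lit 0x44⟩ (.nil) (.nil)
def t14_11785 : Tr := .node ⟨nat_lit 7, nat_lit 0x40001000480060, nat_lit 0x100003, nat_lit 3, nat_lit 4, nat_lit 0x47⟩ (.nil) (.nil)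
def t14_7689 : Tr := .node ⟨nat_lit 5, nat_lit 0x40018, nat_lit 0x102, nat_lit 3, nat_lit 3, nat_lit 0x45⟩ (.nil) (.nil)
def t9_9 : Tr := .node ⟨nat_lit 5, nat_lit 0x40018, nat_lit 0x31211, nat_lit 3, nat_lit 4, nat_lit 0x49⟩ (.node ⟨nat_lit 6, nat_lit 0x2000200010, nat_lit 0x113112, nat_lit 0, nat_lit 4, nat_lit 0x49⟩ (.node ⟨nat_lit 7, nat_lit 0x20004000640064, nat_lit 0x3021020, nat_lit 0, nat_lit 4, nat_lit 0x48⟩ (.node ⟨nat_lit 6, nat_lit 0x280030, nat_lit 0x12102, nat_lit 0, nat_lit 4, nat_lit 0x47⟩ (.node ⟨nat_lit 5, nat_lit 0x1000080014, nat_lit 0x22230, nat_lit 3, nat_lit 4, nat_lit 0x49⟩ (t14_9) (t14_8201)) (.node ⟨nat_lit 6, nat_lit 0x1000280030, nat_lit 0x11000, nat_lit 3, nat_lit 4, nat_lit 0x46⟩ (t14_4105) (t14_12297))) (.node ⟨nat_lit 5, nat_lit 0x18, nat_lit 0x31112, nat_lit 6, nat_lit 4, nat_lit 0x4a⟩ (.node ⟨nat_lit 7, nat_lit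 0x400040002000200064, nat_lit 0x110132, nat_lit 1, nat_lit 4, nat_lit 0x48⟩ (t14_2057) (t14_10249)) (.node ⟨nat_lit 6, nat_lit 0x280030, nat_lit 0x20202, nat_lit 2, nat_lit 4, nat_lit 0x48⟩ (t14_6153) (t14_14345)))) (.node ⟨nat_lit 7, nat_lit 0x40004000100060, nat_lit 0x21121, nat_lit 0, nat_lit 4, nat_lit 0x48⟩ (.node ⟨nat_lit 4, nat_lit 0x8000c, nat_lit 0x2212, nat_lit 7, nat_lit 4, nat_lit 0x48⟩ (.node ⟨nat_lit 5, nat_lit 0x180018, nat_lit 0x11241, nat_lit 3, nat_lit 4, nat_lit 0x48⟩ (t14_1033) (t14_9225)) (.node ⟨nat_lit 6, nat_lit 0x200010, nat_lit 0x12100, nat_lit 0xb, nat_lit 4, nat_lit 0x4b⟩ (t14_5129) (t14_13321))) (.node ⟨nat_lit 5, nat_lit 0x100010, nat_lit 0x11120, nat_lit 4, nat_lit 3, nat_lit 0x47⟩ (.node ⟨nat_lit 6, nat_lit 0x200030, nat_lit 0x121104, nat_lit 0, nat_lit 4, nat_lit 0x4a⟩ (t14_3081) (t14_11273)) (.node ⟨nat_lit 6,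 nat_lit 0x20001000300034, nat_lit 0x12220, nat_lit 5, nat_lit 4, nat_lit 0x47⟩ (t14_7177) (t14_15369))))) (.node ⟨nat_lit 8, nat_lit 0x8000800040, nat_lit 0x1311100, nat_lit 1, nat_lit 4, nat_lit 0x4c⟩ (.node ⟨nat_lit 4, nat_lit 0xc, nat_lit 0x2121, nat_lit 9, nat_lit 4, nat_lit 0x48⟩ (.node ⟨nat_lit 7, nat_lit 0x4000400020, nat_lit 0x21101, nat_lit 1, nat_lit 4, nat_lit 0x49⟩ (.node ⟨nat_lit 6, nat_lit 0x20001000100028, nat_lit 0x122112, nat_lit 0, nat_lit 4, nat_lit 0x48⟩ (t14_521) (t14_8713)) (.node ⟨nat_lit 6, nat_lit 0x10002000300034, nat_lit 0x112120, nat_lit 3, nat_lit 4, nat_lit 0x47⟩ (t14_4617) (t14_12809))) (.node ⟨nat_lit 5, nat_lit 0x100010, nat_lit 0x1120, nat_lit 2, nat_lit 3, nat_lit 0x46⟩ (.node ⟨nat_lit 7, nat_lit 0x20002000500060, nat_lit 0x1021031, nat_lit 0, nat_lit 4, nat_lit 0x48⟩ (t14_2569) (t14_10761)) (.node ⟨nat_lit 8,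 nat_lit 0x800080008000880090, nat_lit 0x2120001, nat_lit 3, nat_lit 4, nat_lit 0x4a⟩ (t14_6665) (t14_14857)))) (.node ⟨nat_lit 5, nat_lit 0x100008, nat_lit 0x11203, nat_lit 0, nat_lit 4, nat_lit 0x48⟩ (.node ⟨nat_lit 5, nat_lit 0x18, nat_lit 0x20111, nat_lit 0xb, nat_lit 4, nat_lit 0x4a⟩ (.node ⟨nat_lit 5, nat_lit 0x100018, nat_lit 0x10131, nat_lit 5, nat_lit 4, nat_lit 0x48⟩ (t14_1545) (t14_9737)) (.node ⟨nat_lit 7, nat_lit 0x400040002000480050, nat_lit 0x1111200, nat_lit 2, nat_lit 4, nat_lit 0x48⟩ (t14_5641) (t14_13833))) (.node ⟨nat_lit 6, nat_lit 0x800080030, nat_lit 0x200104, nat_lit 0, nat_lit 4, nat_lit 0x47⟩ (.node ⟨nat_lit 5, nat_lit 0x100008001c, nat_lit 0x1113, nat_lit 4, nat_lit 4, nat_lit 0x45⟩ (t14_3593) (t14_11785)) (.node ⟨nat_lit 7, nat_lit 0x40004000200048, nat_lit 0x1113110, nat_lit 1, nat_lit 4, nat_lit 0x4a⟩ (t14_7689) (.nil)))))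
def t14_265 : Tr := .node ⟨nat_lit 7, nat_lit 0x40004000200060, nat_lit 0x12112, nat_lit 0, nat_lit 3, nat_lit 0x46⟩ (.nil) (.nil)
def t14_8457 : Tr := .node ⟨nat_lit 7, nat_lit 0x40004800500068, nat_lit 0x12013, nat_lit 2, nat_lit 4, nat_lit 0x47⟩ (.nil) (.nil)
def t14_4361 : Tr := .node ⟨nat_lit 8, nat_lit 0x800040009000b000d0, nat_lit 0x11101012, nat_lit 0, nat_lit 4, nat_lit 0x47⟩ (.nil) (.nil)
def t14_12553 : Tr := .node ⟨nat_lit 7, nat_lit 0x20005000680068, nat_lit 0x101031, nat_lit 3, nat_lit 4, nat_lit 0x46⟩ (.nil) (.nil)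
def t14_2313 : Tr := .node ⟨nat_lit 7, nat_lit 0x40002000480060, nat_lit 0x112012, nat_lit 1, nat_lit 4, nat_lit 0x48⟩ (.nil) (.nil)
def t14_10505 : Tr := .node ⟨nat_lit 7, nat_lit 0x40002000100060, nat_lit 0x10212, nat_lit 1, nat_lit 3, nat_lit 0x46⟩ (.nil) (.nil)
def t14_6409 : Tr := .node ⟨nat_lit 8, nat_lit 0x40008000800090006000c0, nat_lit 0x1101002, nat_lit 0, nat_lit 4, nat_lit 0x47⟩ (.nil) (.nil)
def t14_14601 : Tr := .node ⟨nat_lit 4, nat_lit 0x40008, nat_lit 0x1111, nat_lit 0xa, nat_lit 3, nat_lit 0x46⟩ (.nil) (.nil)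
def t14_1289 : Tr := .node ⟨nat_lit 6, nat_lit 0x1000100020, nat_lit 0x200221, nat_lit 0, nat_lit 3, nat_lit 0x47⟩ (.nil) (.nil)
def t14_9481 : Tr := .node ⟨nat_lit 8, nat_lit 0x400080008000200088, nat_lit 0x101110, nat_lit 0, nat_lit 4, nat_lit 0x48⟩ (.nil) (.nil)
def t14_5385 : Tr := .node ⟨nat_lit 8, nat_lit 0x80008000800040004400a0, nat_lit 0x10210, nat_lit 1, nat_lit 4, nat_lit 0x47⟩ (.nil) (.nil)
def t14_13577 : Tr := .node ⟨nat_lit 7, nat_lit 0x20002000500068, nat_lit 0x110, nat_lit 0, nat_lit 4, nat_lit 0x45⟩ (.nil) (.nil)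
def t14_3337 : Tr := .node ⟨nat_lit 7, nat_lit 0x4000500060, nat_lit 0x121201, nat_lit 1, nat_lit 4, nat_lit 0x49⟩ (.nil) (.nil)
def t14_11529 : Tr := .node ⟨nat_lit 5, nat_lit 0x1000180018, nat_lit 0x1210, nat_lit 0xb, nat_lit 4, nat_lit 0x47⟩ (.nil) (.nil)
def t14_7433 : Tr := .node ⟨nat_lit 8, nat_lit 0x80008000400040009000a0, nat_lit 0x11111110, nat_lit 2, nat_lit 4, nat_lit 0x49⟩ (.nil) (.nil)
def t14_777 : Tr := .node ⟨nat_lit 7, nat_lit 0x4000100060, nat_lit 0x11311, nat_lit 2, nat_lit 4, nat_lit 0x49⟩ (.nil) (.nil)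
def t14_8969 : Tr := .node ⟨nat_lit 8, nat_lit 0x400080008000880084, nat_lit 0x102110, nat_lit 3, nat_lit 4, nat_lit 0x49⟩ (.nil) (.nil)
def t14_4873 : Tr := .node ⟨nat_lit 7, nat_lit 0x400020002000500068, nat_lit 0x111200, nat_lit 2, nat_lit 4, nat_lit 0x47⟩ (.nil) (.nil)
def t14_13065 : Tr := .node ⟨nat_lit 7, nat_lit 0x10004000180060, nat_lit 0x2001, nat_lit 4, nat_lit 4, nat_lit 0x47⟩ (.nil) (.nil)
def t14_2825 : Tr := .node ⟨nat_lit 7, nat_lit 0x1000600060, nat_lit 0x12121, nat_lit 0, nat_lit 4, nat_lit 0x48⟩ (.nil) (.nil)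
def t14_11017 : Tr := .node ⟨nat_lit 7, nat_lit 0x6000600060, nat_lit 0x21210, nat_lit 1, nat_lit 4, nat_lit 0x48⟩ (.nil) (.nil)
def t14_6921 : Tr := .node ⟨nat_lit 5, nat_lit 0x140018, nat_lit 0x11311, nat_lit 5, nat_lit 4, nat_lit 0x48⟩ (.nil) (.nil)
def t14_15113 : Tr := .node ⟨nat_lit 7, nat_lit 0x400020002000200050, nat_lit 0x11101, nat_lit 3, nat_lit 4, nat_lit 0x47⟩ (.nil) (.nil)
def t14_1801 : Tr := .node ⟨nat_lit 7, nat_lit 0x4000080070, nat_lit 0x210202, nat_lit 0, nat_lit 4, nat_lit 0x48⟩ (.nil) (.nil)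
def t14_9993 : Tr := .node ⟨nat_lit 8, nat_lit 0x20008000c000c0, nat_lit 0x10320, nat_lit 2, nat_lit 4, nat_lit 0x49⟩ (.nil) (.nil)
def t14_5897 : Tr := .node ⟨nat_lit 8, nat_lit 0x800040004000a0004800d0, nat_lit 0x10121000, nat_lit 1, nat_lit 4, nat_lit 0x47⟩ (.nil) (.nil)
def t14_14089 : Tr := .node ⟨nat_lit 8, nat_lit 0x800020002000400040, nat_lit 0x21, nat_lit 5, nat_lit 4, nat_lit 0x49⟩ (.nil) (.nil)
def t14_3849 : Tr := .node ⟨nat_lit 8, nat_lit 0x200080008000c0, nat_lit 0x1020201, nat_lit 2, nat_lit 4, nat_lit 0x4a⟩ (.nil) (.nil)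
def t14_12041 : Tr := .node ⟨nat_lit 6, nat_lit 0x10002000300034, nat_lit 0x202110, nat_lit 3, nat_lit 4, nat_lit 0x47⟩ (.nil) (.nil)
def t14_7945 : Tr := .node ⟨nat_lit 8, nat_lit 0x40004000800050008800e0, nat_lit 0x1101011, nat_lit 0, nat_lit 4, nat_lit 0x46⟩ (.nil) (.nil)
def t9_265 : Tr := .node ⟨nat_lit 4, nat_lit 0x80004, nat_lit 0x2302, nat_lit 1, nat_lit 3, nat_lit 0x47⟩ (.node ⟨nat_lit 7, nat_lit 0x40002000480068, nat_lit 0x3011022, nat_lit 0, nat_lit 4, nat_lit 0x49⟩ (.node ⟨nat_lit 6, nat_lit 0x2000200010, nat_lit 0x2300, nat_lit 0, nat_lit 4, nat_lit 0x48⟩ (.node ⟨nat_lit 7, nat_lit 0x40004000100060, nat_lit 0x12130, nat_lit 0, nat_lit 4, nat_lit 0x48⟩ (.node ⟨nat_lit 5, nat_lit 0x1000080018, nat_lit 0x12022, nat_lit 1, nat_lit 3, nat_lit 0x46⟩ (t14_265) (t14_8457)) (.node ⟨nat_lit 7, nat_lit 0x4000100060, nat_lit 0x1102300, nat_lit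 0, nat_lit 3, nat_lit 0x48⟩ (t14_4361) (t14_12553))) (.node ⟨nat_lit 5, nat_lit 0x10, nat_lit 0x3112, nat_lit 3, nat_lit 3, nat_lit 0x48⟩ (.node ⟨nat_lit 7, nat_lit 0x10001800600050, nat_lit 0x12023, nat_lit 0, nat_lit 4, nat_lit 0x47⟩ (t14_2313) (t14_10505)) (.node ⟨nat_lit 6, nat_lit 0x2000240030, nat_lit 0x112210, nat_lit 4, nat_lit 4, nat_lit 0x49⟩ (t14_6409) (t14_14601)))) (.node ⟨nat_lit 6, nat_lit 0x80030, nat_lit 0x211121, nat_lit 0, nat_lit 4, nat_lit 0x49⟩ (.node ⟨nat_lit 5, nat_lit 0x80010, nat_lit 0x22212, nat_lit 4, nat_lit 4, nat_lit 0x4a⟩ (.node ⟨nat_lit 5, nat_lit 0x40018, nat_lit 0x10110, nat_lit 3, nat_lit 4, nat_lit 0x46⟩ (t14_1289) (t14_9481)) (.node ⟨nat_lit 7, nat_lit 0x40002000100060, nat_lit 0x1112212, nat_lit 0, nat_lit 4, nat_lit 0x49⟩ (t14_5385) (t14_13577))) (.node ⟨nat_lit 6, nat_lit 0x20001000100028, nat_lit 0x12200,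 nat_lit 3, nat_lit 4, nat_lit 0x47⟩ (.node ⟨nat_lit 6, nat_lit 0x800280030, nat_lit 0x120013, nat_lit 4, nat_lit 4, nat_lit 0x48⟩ (t14_3337) (t14_11529)) (.node ⟨nat_lit 4, nat_lit 0xc, nat_lit 0x1112, nat_lit 0xa, nat_lit 4, nat_lit 0x48⟩ (t14_7433) (.nil))))) (.node ⟨nat_lit 7, nat_lit 0x4000200010, nat_lit 0x13001, nat_lit 3, nat_lit 4, nat_lit 0x4a⟩ (.node ⟨nat_lit 6, nat_lit 0x2000080030, nat_lit 0x112120, nat_lit 0, nat_lit 4, nat_lit 0x48⟩ (.node ⟨nat_lit 6, nat_lit 0x2000080010, nat_lit 0x11002, nat_lit 1, nat_lit 4, nat_lit 0x47⟩ (.node ⟨nat_lit 7, nat_lit 0x1000200040, nat_lit 0x2111110, nat_lit 4, nat_lit 4, nat_lit 0x4b⟩ (t14_777) (t14_8969)) (.node ⟨nat_lit 7, nat_lit 0x40004000100060, nat_lit 0x13120, nat_lit 0, nat_lit 4, nat_lit 0x48⟩ (t14_4873) (t14_13065))) (.node ⟨nat_lit 6, nat_lit 0x2000080030, nat_lit 0x111202, nat_lit 1,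 nat_lit 4, nat_lit 0x48⟩ (.node ⟨nat_lit 6, nat_lit 0x200030, nat_lit 0x21113, nat_lit 2, nat_lit 4, nat_lit 0x49⟩ (t14_2825) (t14_11017)) (.node ⟨nat_lit 5, nat_lit 0x1000080014, nat_lit 0x10132, nat_lit 2, nat_lit 4, nat_lit 0x46⟩ (t14_6921) (t14_15113)))) (.node ⟨nat_lit 6, nat_lit 0x20002000100010, nat_lit 0x11022, nat_lit 3, nat_lit 4, nat_lit 0x48⟩ (.node ⟨nat_lit 8, nat_lit 0x4000400080002000d0, nat_lit 0x1121011, nat_lit 1, nat_lit 4, nat_lit 0x49⟩ (.node ⟨nat_lit 6, nat_lit 0x2000080030, nat_lit 0x11103, nat_lit 2, nat_lit 4, nat_lit 0x47⟩ (t14_1801) (t14_9993)) (.node ⟨nat_lit 7, nat_lit 0x20002000400040, nat_lit 0x1020011, nat_lit 1, nat_lit 4, nat_lit 0x49⟩ (t14_5897) (t14_14089))) (.node ⟨nat_lit 6, nat_lit 0x800300030, nat_lit 0x200322, nat_lit 0, nat_lit 4, nat_lit 0x47⟩ (.node ⟨nat_lit 6, nat_lit 0x2800300038, nat_lit 0x11103, nat_lit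 4, nat_lit 4, nat_lit 0x46⟩ (t14_3849) (t14_12041)) (.node ⟨nat_lit 6, nat_lit 0x10002000300030, nat_lit 0x12221, nat_lit 2, nat_lit 4, nat_lit 0x47⟩ (t14_7945) (.nil)))))
def t14_137 : Tr := .node ⟨nat_lit 7, nat_lit 0x1000500060, nat_lit 0x1103211, nat_lit 0, nat_lit 4, nat_lit 0x49⟩ (.nil) (.nil)
def t14_8329 : Tr := .node ⟨nat_lit 5, nat_lit 0x140018, nat_lit 0, nat_lit 2, nat_lit 4, nat_lit 0x43⟩ (.nil) (.nil)
def t14_4233 : Tr := .node ⟨nat_lit 5, nat_lit 0x40018, nat_lit 0x220, nat_lit 3, nat_lit 4, nat_lit 0x47⟩ (.nil) (.nil)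
def t14_12425 : Tr := .node ⟨nat_lit 6, nat_lit 0x2000200030, nat_lit 0x21310, nat_lit 3, nat_lit 3, nat_lit 0x47⟩ (.nil) (.nil)
def t14_2185 : Tr := .node ⟨nat_lit 8, nat_lit 0x800040004000200090, nat_lit 0x10121002, nat_lit 0, nat_lit 4, nat_lit 0x49⟩ (.nil) (.nil)
def t14_10377 : Tr := .node ⟨nat_lit 7, nat_lit 0x200040004000400060, nat_lit 0x20002, nat_lit 0, nat_lit 3, nat_lit 0x45⟩ (.nil) (.nil)
def t14_6281 : Tr := .node ⟨nat_lit 5, nat_lit 0x1000080008, nat_lit 0x11031, nat_lit 4, nat_lit 4, nat_lit 0x48⟩ (.nil) (.nil)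
def t14_14473 : Tr := .node ⟨nat_lit 0xa, nat_lit 0x400200008002800300, nat_lit 0x101020, nat_lit 1, nat_lit 4, nat_lit 0x4a⟩ (.nil) (.nil)
def t14_1161 : Tr := .node ⟨nat_lit 6, nat_lit 0x2000080030, nat_lit 0x100021, nat_lit 0, nat_lit 4, nat_lit 0x46⟩ (.nil) (.nil)
def t14_9353 : Tr := .node ⟨nat_lit 6, nat_lit 0x20002000100030, nat_lit 0x12112, nat_lit 5, nat_lit 4, nat_lit 0x48⟩ (.nil) (.nil)
def t14_5257 : Tr := .node ⟨nat_lit 9, nat_lit 0x10001000100008000800120, nat_lit 0x1210101, nat_lit 1, nat_lit 4, nat_lit 0x4a⟩ (.nil) (.nil)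
def t14_13449 : Tr := .node ⟨nat_lit 6, nat_lit 0x10002000240030, nat_lit 0x3000, nat_lit 4, nat_lit 4, nat_lit 0x46⟩ (.nil) (.nil)
def t14_3209 : Tr := .node ⟨nat_lit 7, nat_lit 0x10001000100060, nat_lit 0x2002111, nat_lit 0, nat_lit 3, nat_lit 0x47⟩ (.nil) (.nil)
def t14_11401 : Tr := .node ⟨nat_lit 7, nat_lit 0x4000600060, nat_lit 0x1011120, nat_lit 0, nat_lit 3, nat_lit 0x47⟩ (.nil) (.nil)
def t14_7305 : Tr := .node ⟨nat_lit 7, nat_lit 0x10001000100060, nat_lit 0x2002111, nat_lit 1, nat_lit 4, nat_lit 0x49⟩ (.nil) (.nil)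
def t14_15497 : Tr := .node ⟨nat_lit 8, nat_lit 0x800080004000a000d0, nat_lit 0x1110211, nat_lit 0, nat_lit 4, nat_lit 0x48⟩ (.nil) (.nil)
def t14_649 : Tr := .node ⟨nat_lit 7, nat_lit 0x4000400060, nat_lit 0x21320, nat_lit 0, nat_lit 4, nat_lit 0x4a⟩ (.nil) (.nil)
def t14_8841 : Tr := .node ⟨nat_lit 6, nat_lit 0x200022, nat_lit 0x111124, nat_lit 1, nat_lit 4, nat_lit 0x4a⟩ (.nil) (.nil)
def t14_4745 : Tr := .node ⟨nat_lit 4, nat_lit 0x8000e, nat_lit 0x1121, nat_lit 6, nat_lit 4, nat_lit 0x46⟩ (.nil) (.nil)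
def t14_12937 : Tr := .node ⟨nat_lit 8, nat_lit 0x10002000c00030, nat_lit 0x10002010, nat_lit 1, nat_lit 4, nat_lit 0x48⟩ (.nil) (.nil)
def t14_2697 : Tr := .node ⟨nat_lit 7, nat_lit 0x40002000200048, nat_lit 0x102101, nat_lit 0, nat_lit 4, nat_lit 0x48⟩ (.nil) (.nil)
def t14_10889 : Tr := .node ⟨nat_lit 8, nat_lit 0x4000c000c000a000d0, nat_lit 0x2220, nat_lit 1, nat_lit 4, nat_lit 0x46⟩ (.nil) (.nil)
def t14_6793 : Tr := .node ⟨nat_lit 7, nat_lit 0x100060, nat_lit 0x11110, nat_lit 1, nat_lit 4, nat_lit 0x49⟩ (.nil) (.nil)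
def t14_14985 : Tr := .node ⟨nat_lit 9, nat_lit 0x100010001000080008001200140, nat_lit 0x1011002, nat_lit 0, nat_lit 4, nat_lit 0x48⟩ (.nil) (.nil)
def t14_1673 : Tr := .node ⟨nat_lit 8, nat_lit 0x4000800080008800c0, nat_lit 0x121002, nat_lit 0, nat_lit 4, nat_lit 0x48⟩ (.nil) (.nil)
def t14_9865 : Tr := .node ⟨nat_lit 9, nat_lit 0x100010000800080014001400120, nat_lit 0x1110110, nat_lit 2, nat_lit 4, nat_lit 0x48⟩ (.nil) (.nil)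
def t14_5769 : Tr := .node ⟨nat_lit 9, nat_lit 0x800080010001000100, nat_lit 0x1110220, nat_lit 0, nat_lit 4, nat_lit 0x4b⟩ (.nil) (.nil)
def t14_13961 : Tr := .node ⟨nat_lit 7, nat_lit 0x40001000100060, nat_lit 0x2100, nat_lit 6, nat_lit 4, nat_lit 0x48⟩ (.nil) (.nil)
def t14_3721 : Tr := .node ⟨nat_lit 7, nat_lit 0x10004000200060, nat_lit 0x1000021, nat_lit 1, nat_lit 3, nat_lit 0x46⟩ (.nil) (.nil)
def t14_11913 : Tr := .node ⟨nat_lit 5, nat_lit 0x1000100008, nat_lit 0x31003, nat_lit 1, nat_lit 3, nat_lit 0x47⟩ (.nil) (.nil)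
def t14_7817 : Tr := .node ⟨nat_lit 6, nat_lit 0x2000100024, nat_lit 0x12204, nat_lit 0, nat_lit 4, nat_lit 0x48⟩ (.nil) (.nil)
def t9_137 : Tr := .node ⟨nat_lit 6, nat_lit 0x800100020, nat_lit 0x231111, nat_lit 0, nat_lit 4, nat_lit 0x4a⟩ (.node ⟨nat_lit 5, nat_lit 0x40018, nat_lit 0x30111, nat_lit 1, nat_lit 4, nat_lit 0x47⟩ (.node ⟨nat_lit 6, nat_lit 0x1000200030, nat_lit 0x13021, nat_lit 1, nat_lit 4, nat_lit 0x48⟩ (.node ⟨nat_lit 7, nat_lit 0x4000100060, nat_lit 0x112021, nat_lit 0, nat_lit 4, nat_lit 0x49⟩ (.node ⟨nat_lit 6, nat_lit 0x20002000200010, nat_lit 0x22202, nat_lit 3, nat_lit 4, nat_lit 0x49⟩ (t14_137) (t14_8329)) (.node ⟨nat_lit 6, nat_lit 0x20002000100030, nat_lit 0x12103, nat_lit 5, nat_lit 4, nat_lit 0x48⟩ (t14_4233) (t14_12425))) (.node ⟨nat_lit 7, nat_lit 0x10001000100060, nat_lit 0x2102102, nat_lit 0, nat_lit 4, nat_lit 0x49⟩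 (.node ⟨nat_lit 6, nat_lit 0x2000080030, nat_lit 0x1200, nat_lit 1, nat_lit 4, nat_lit 0x46⟩ (t14_2185) (t14_10377)) (.node ⟨nat_lit 6, nat_lit 0x200010, nat_lit 0x112110, nat_lit 8, nat_lit 4, nat_lit 0x4b⟩ (t14_6281) (t14_14473)))) (.node ⟨nat_lit 6, nat_lit 0x20, nat_lit 0x22102, nat_lit 0, nat_lit 4, nat_lit 0x4a⟩ (.node ⟨nat_lit 6, nat_lit 0x80030, nat_lit 0x221201, nat_lit 0, nat_lit 4, nat_lit 0x4a⟩ (.node ⟨nat_lit 2, nat_lit 2, nat_lit 0x42, nat_lit 5, nat_lit 3, nat_lit 0x46⟩ (t14_1161) (t14_9353)) (.node ⟨nat_lit 6, nat_lit 0x1800280030, nat_lit 0x111212, nat_lit 3, nat_lit 4, nat_lit 0x47⟩ (t14_5257) (t14_13449))) (.node ⟨nat_lit 6, nat_lit 0x200020, nat_lit 0x22100, nat_lit 0, nat_lit 4, nat_lit 0x49⟩ (.node ⟨nat_lit 7, nat_lit 0x4000600070, nat_lit 0x102103, nat_lit 1, nat_lit 4, nat_lit 0x48⟩ (t14_3209) (t14_11401)) (.node ⟨nat_lit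 6, nat_lit 0x2000080030, nat_lit 0x101100, nat_lit 3, nat_lit 4, nat_lit 0x47⟩ (t14_7305) (t14_15497))))) (.node ⟨nat_lit 4, nat_lit 0x8000a, nat_lit 0x3121, nat_lit 8, nat_lit 4, nat_lit 0x49⟩ (.node ⟨nat_lit 6, nat_lit 0x2000200010, nat_lit 0x21303, nat_lit 0, nat_lit 4, nat_lit 0x49⟩ (.node ⟨nat_lit 6, nat_lit 0x800100020, nat_lit 0x210100, nat_lit 0, nat_lit 4, nat_lit 0x47⟩ (.node ⟨nat_lit 4, nat_lit 0xc, nat_lit 0x1041, nat_lit 4, nat_lit 4, nat_lit 0x47⟩ (t14_649) (t14_8841)) (.node ⟨nat_lit 7, nat_lit 0x20004000500064, nat_lit 0x1003201, nat_lit 0, nat_lit 4, nat_lit 0x47⟩ (t14_4745) (t14_12937))) (.node ⟨nat_lit 3, nat_lit 6, nat_lit 0x113, nat_lit 6, nat_lit 4, nat_lit 0x45⟩ (.node ⟨nat_lit 6, nat_lit 0x20002000100010, nat_lit 0x12030, nat_lit 3, nat_lit 4, nat_lit 0x48⟩ (t14_2697) (t14_10889)) (.node ⟨nat_lit 7, nat_lit 0x40001000480060,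 nat_lit 0x111210, nat_lit 0, nat_lit 4, nat_lit 0x47⟩ (t14_6793) (t14_14985)))) (.node ⟨nat_lit 6, nat_lit 0x1000080020, nat_lit 0x122011, nat_lit 1, nat_lit 4, nat_lit 0x49⟩ (.node ⟨nat_lit 6, nat_lit 0x80030, nat_lit 0x301111, nat_lit 2, nat_lit 4, nat_lit 0x49⟩ (.node ⟨nat_lit 7, nat_lit 0x4800300070, nat_lit 0x1100113, nat_lit 0, nat_lit 4, nat_lit 0x46⟩ (t14_1673) (t14_9865)) (.node ⟨nat_lit 8, nat_lit 0x2000800080004000c2, nat_lit 0x2002021, nat_lit 0, nat_lit 4, nat_lit 0x49⟩ (t14_5769) (t14_13961))) (.node ⟨nat_lit 7, nat_lit 0x20006000600050, nat_lit 0x20212, nat_lit 2, nat_lit 4, nat_lit 0x47⟩ (.node ⟨nat_lit 7, nat_lit 0x40001000600070, nat_lit 0x111003, nat_lit 2, nat_lit 4, nat_lit 0x47⟩ (t14_3721) (t14_11913)) (.node ⟨nat_lit 6, nat_lit 0x20001000100010, nat_lit 0x10221, nat_lit 3, nat_lit 3, nat_lit 0x47⟩ (t14_7817) (.nil)))))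
def t14_393 : Tr := .node ⟨nat_lit 7, nat_lit 0x10001000400060, nat_lit 0x1102111, nat_lit 1, nat_lit 4, nat_lit 0x48⟩ (.nil) (.nil)
def t14_8585 : Tr := .node ⟨nat_lit 6, nat_lit 0x20001000100028, nat_lit 0x2001, nat_lit 3, nat_lit 4, nat_lit 0x46⟩ (.nil) (.nil)
def t14_4489 : Tr := .node ⟨nat_lit 8, nat_lit 0x800020008800c0, nat_lit 0x11112001, nat_lit 0, nat_lit 4, nat_lit 0x4a⟩ (.nil) (.nil)
def t14_12681 : Tr := .node ⟨nat_lit 5, nat_lit 0x100018, nat_lit 0x10120, nat_lit 7, nat_lit 4, nat_lit 0x48⟩ (.nil) (.nil)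
def t14_2441 : Tr := .node ⟨nat_lit 6, nat_lit 0x2000100030, nat_lit 0x11130, nat_lit 0, nat_lit 4, nat_lit 0x48⟩ (.nil) (.nil)
def t14_10633 : Tr := .node ⟨nat_lit 7, nat_lit 0x10002000500060, nat_lit 0x2020, nat_lit 1, nat_lit 4, nat_lit 0x46⟩ (.nil) (.nil)
def t14_6537 : Tr := .node ⟨nat_lit 6, nat_lit 0x200030, nat_lit 0x101101, nat_lit 3, nat_lit 4, nat_lit 0x48⟩ (.nil) (.nil)
def t14_14729 : Tr := .node ⟨nat_lit 6, nat_lit 0x2000200010, nat_lit 0x11112, nat_lit 2, nat_lit 4, nat_lit 0x48⟩ (.nil) (.nil)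
def t14_1417 : Tr := .node ⟨nat_lit 8, nat_lit 0x80002000c000c000d0, nat_lit 0x111301, nat_lit 0, nat_lit 4, nat_lit 0x47⟩ (.nil) (.nil)
def t14_9609 : Tr := .node ⟨nat_lit 7, nat_lit 0x20006000500068, nat_lit 0x1220, nat_lit 1, nat_lit 4, nat_lit 0x45⟩ (.nil) (.nil)
def t14_5513 : Tr := .node ⟨nat_lit 8, nat_lit 0x80002000a000c0, nat_lit 0x11031, nat_lit 1, nat_lit 4, nat_lit 0x48⟩ (.nil) (.nil)
def t14_13705 : Tr := .node ⟨nat_lit 7, nat_lit 0x4000440064, nat_lit 0x21000, nat_lit 0, nat_lit 4, nat_lit 0x47⟩ (.nil) (.nil)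
def t14_3465 : Tr := .node ⟨nat_lit 7, nat_lit 0x40002000200060, nat_lit 0x10301, nat_lit 0, nat_lit 4, nat_lit 0x48⟩ (.nil) (.nil)
def t14_11657 : Tr := .node ⟨nat_lit 6, nat_lit 0x2000300030, nat_lit 0x1310, nat_lit 2, nat_lit 4, nat_lit 0x47⟩ (.nil) (.nil)
def t14_7561 : Tr := .node ⟨nat_lit 7, nat_lit 0x40001000600050, nat_lit 0x2303, nat_lit 0, nat_lit 4, nat_lit 0x47⟩ (.nil) (.nil)
def t14_905 : Tr := .node ⟨nat_lit 6, nat_lit 0x20002000100030, nat_lit 0x12212, nat_lit 4, nat_lit 4, nat_lit 0x48⟩ (.nil) (.nil)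
def t14_9097 : Tr := .node ⟨nat_lit 7, nat_lit 0x40004000480060, nat_lit 0x121211, nat_lit 3, nat_lit 4, nat_lit 0x49⟩ (.nil) (.nil)
def t14_5001 : Tr := .node ⟨nat_lit 7, nat_lit 0x600060, nat_lit 0x1011031, nat_lit 0, nat_lit 4, nat_lit 0x49⟩ (.nil) (.nil)
def t14_13193 : Tr := .node ⟨nat_lit 7, nat_lit 0x4000100060, nat_lit 0x13, nat_lit 0, nat_lit 4, nat_lit 0x47⟩ (.nil) (.nil)
def t14_2953 : Tr := .node ⟨nat_lit 6, nat_lit 0x20002000100028, nat_lit 0x11201, nat_lit 8, nat_lit 4, nat_lit 0x48⟩ (.nil) (.nil)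
def t14_11145 : Tr := .node ⟨nat_lit 7, nat_lit 0x1000600060, nat_lit 0x1011030, nat_lit 0, nat_lit 4, nat_lit 0x48⟩ (.nil) (.nil)
def t14_7049 : Tr := .node ⟨nat_lit 5, nat_lit 0x100018, nat_lit 0x10111, nat_lit 9, nat_lit 4, nat_lit 0x48⟩ (.nil) (.nil)
def t14_15241 : Tr := .node ⟨nat_lit 8, nat_lit 0x200080008000c0, nat_lit 0x1010201, nat_lit 4, nat_lit 4, nat_lit 0x4a⟩ (.nil) (.nil)
def t14_1929 : Tr := .node ⟨nat_lit 7, nat_lit 0x20001000600050, nat_lit 0x21012, nat_lit 0, nat_lit 4, nat_lit 0x47⟩ (.nil) (.nil)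
def t14_10121 : Tr := .node ⟨nat_lit 8, nat_lit 0x800020002000c000c0, nat_lit 0x21020, nat_lit 4, nat_lit 4, nat_lit 0x48⟩ (.nil) (.nil)
def t14_6025 : Tr := .node ⟨nat_lit 5, nat_lit 0x18, nat_lit 0x11210, nat_lit 5, nat_lit 4, nat_lit 0x49⟩ (.nil) (.nil)
def t14_14217 : Tr := .node ⟨nat_lit 6, nat_lit 0x1000280030, nat_lit 0x100120, nat_lit 3, nat_lit 4, nat_lit 0x46⟩ (.nil) (.nil)
def t14_3977 : Tr := .node ⟨nat_lit 7, nat_lit 0x40001000100060, nat_lit 0x1001200, nat_lit 3, nat_lit 4, nat_lit 0x48⟩ (.nil) (.nil)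
def t14_12169 : Tr := .node ⟨nat_lit 8, nat_lit 0x80001000c000a0, nat_lit 0x112110, nat_lit 2, nat_lit 4, nat_lit 0x49⟩ (.nil) (.nil)
def t14_8073 : Tr := .node ⟨nat_lit 7, nat_lit 0x200040004800300060, nat_lit 0x1011031, nat_lit 0, nat_lit 4, nat_lit 0x46⟩ (.nil) (.nil)
def t9_393 : Tr := .node ⟨nat_lit 5, nat_lit 0x40018, nat_lit 0x21321, nat_lit 1, nat_lit 4, nat_lit 0x49⟩ (.node ⟨nat_lit 6, nat_lit 0x200030, nat_lit 0x113220, nat_lit 0, nat_lit 4, nat_lit 0x4a⟩ (.node ⟨nat_lit 6, nat_lit 0x2000080030, nat_lit 0x22012, nat_lit 1, nat_lit 4, nat_lit 0x48⟩ (.node ⟨nat_lit 7, nat_lit 0x6000180018, nat_lit 0x1010221, nat_lit 0, nat_lit 4, nat_lit 0x47⟩ (.node ⟨nat_lit 7, nat_lit 0x20004000100060, nat_lit 0x20311, nat_lit 0, nat_lit 4, nat_lit 0x48⟩ (t14_393) (t14_8585)) (.node ⟨nat_lit 8, nat_lit 0x4000400080008800600060, nat_lit 0x11200021, nat_lit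 0, nat_lit 4, nat_lit 0x49⟩ (t14_4489) (t14_12681))) (.node ⟨nat_lit 6, nat_lit 0x2000080034, nat_lit 0x221101, nat_lit 0, nat_lit 4, nat_lit 0x48⟩ (.node ⟨nat_lit 6, nat_lit 0x2000100030, nat_lit 0x111114, nat_lit 2, nat_lit 4, nat_lit 0x49⟩ (t14_2441) (t14_10633)) (.node ⟨nat_lit 6, nat_lit 0x2000200034, nat_lit 0x2102, nat_lit 3, nat_lit 4, nat_lit 0x47⟩ (t14_6537) (t14_14729)))) (.node ⟨nat_lit 6, nat_lit 0x300038, nat_lit 0x2102, nat_lit 1, nat_lit 4, nat_lit 0x46⟩ (.node ⟨nat_lit 6, nat_lit 0x2000080030, nat_lit 0x112321, nat_lit 0, nat_lit 4, nat_lit 0x49⟩ (.node ⟨nat_lit 4, nat_lit 0xc, nat_lit 0x1110, nat_lit 5, nat_lit 4, nat_lit 0x46⟩ (t14_1417) (t14_9609)) (.node ⟨nat_lit 8, nat_lit 0x80008000400040, nat_lit 0x10212110, nat_lit 0, nat_lit 4, nat_lit 0x4b⟩ (t14_5513) (t14_13705))) (.node ⟨nat_lit 6, nat_lit 0x2000200030, nat_lit 0x2310,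 nat_lit 1, nat_lit 4, nat_lit 0x48⟩ (.node ⟨nat_lit 5, nat_lit 0x40018, nat_lit 0x210, nat_lit 0, nat_lit 4, nat_lit 0x45⟩ (t14_3465) (t14_11657)) (.node ⟨nat_lit 5, nat_lit 0x100018, nat_lit 0x11112, nat_lit 0xa, nat_lit 4, nat_lit 0x49⟩ (t14_7561) (.nil))))) (.node ⟨nat_lit 6, nat_lit 0x300030, nat_lit 0x113211, nat_lit 0, nat_lit 4, nat_lit 0x49⟩ (.node ⟨nat_lit 4, nat_lit 0, nat_lit 0x2200, nat_lit 0, nat_lit 4, nat_lit 0x46⟩ (.node ⟨nat_lit 6, nat_lit 0x2000100024, nat_lit 0x112120, nat_lit 1, nat_lit 4, nat_lit 0x48⟩ (.node ⟨nat_lit 7, nat_lit 0x4000400020, nat_lit 0x1131102, nat_lit 0, nat_lit 4, nat_lit 0x4b⟩ (t14_905) (t14_9097)) (.node ⟨nat_lit 4, nat_lit 8, nat_lit 0x1210, nat_lit 0xf, nat_lit 4, nat_lit 0x4a⟩ (t14_5001) (t14_13193))) (.node ⟨nat_lit 7, nat_lit 0x40002000500068, nat_lit 0x1011020, nat_lit 0, nat_lit 4, nat_lit 0x47⟩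 (.node ⟨nat_lit 7, nat_lit 0x4000100020, nat_lit 0x112012, nat_lit 1, nat_lit 4, nat_lit 0x4a⟩ (t14_2953) (t14_11145)) (.node ⟨nat_lit 7, nat_lit 0x4800500060, nat_lit 0x1111221, nat_lit 0, nat_lit 4, nat_lit 0x48⟩ (t14_7049) (t14_15241)))) (.node ⟨nat_lit 6, nat_lit 0x200022, nat_lit 0x21131, nat_lit 0, nat_lit 4, nat_lit 0x49⟩ (.node ⟨nat_lit 6, nat_lit 0x2000080030, nat_lit 0x122111, nat_lit 1, nat_lit 4, nat_lit 0x49⟩ (.node ⟨nat_lit 7, nat_lit 0x2000480070, nat_lit 0x1110213, nat_lit 0, nat_lit 4, nat_lit 0x48⟩ (t14_1929) (t14_10121)) (.node ⟨nat_lit 7, nat_lit 0x5000500060, nat_lit 0x202200, nat_lit 1, nat_lit 4, nat_lit 0x48⟩ (t14_6025) (t14_14217))) (.node ⟨nat_lit 7, nat_lit 0x40002000200060, nat_lit 0x10211, nat_lit 2, nat_lit 4, nat_lit 0x48⟩ (.node ⟨nat_lit 6, nat_lit 0x800300028, nat_lit 0x110210, nat_lit 0, nat_lit 4, nat_lit 0x46⟩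 (t14_3977) (t14_12169)) (.node ⟨nat_lit 9, nat_lit 0x100010000800080009001400190, nat_lit 0x11011011, nat_lit 1, nat_lit 4, nat_lit 0x48⟩ (t14_8073) (.nil)))))
def t14_73 : Tr := .node ⟨nat_lit 7, nat_lit 0x4000400060, nat_lit 0x1021111, nat_lit 3, nat_lit 4, nat_lit 0x4a⟩ (.nil) (.nil)
def t14_8265 : Tr := .node ⟨nat_lit 7, nat_lit 0x4000500064, nat_lit 0x100203, nat_lit 0, nat_lit 4, nat_lit 0x47⟩ (.nil) (.nil)
def t14_4169 : Tr := .node ⟨nat_lit 8, nat_lit 0x800040009000c000d0, nat_lit 0x10112011, nat_lit 0, nat_lit 4, nat_lit 0x48⟩ (.nil) (.nil)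
def t14_12361 : Tr := .node ⟨nat_lit 8, nat_lit 0x80004000c000c0, nat_lit 0x111130, nat_lit 1, nat_lit 4, nat_lit 0x49⟩ (.nil) (.nil)
def t14_2121 : Tr := .node ⟨nat_lit 7, nat_lit 0x4800600050, nat_lit 0x20202, nat_lit 1, nat_lit 4, nat_lit 0x47⟩ (.nil) (.nil)
def t14_10313 : Tr := .node ⟨nat_lit 7, nat_lit 0x5000300060, nat_lit 0x4220, nat_lit 0, nat_lit 4, nat_lit 0x47⟩ (.nil) (.nil)
def t14_6217 : Tr := .node ⟨nat_lit 6, nat_lit 0x200030, nat_lit 0x1101, nat_lit 5, nat_lit 4, nat_lit 0x48⟩ (.nil) (.nil)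
def t14_14409 : Tr := .node ⟨nat_lit 8, nat_lit 0x40002000c000a000d0, nat_lit 0x20102, nat_lit 0, nat_lit 4, nat_lit 0x46⟩ (.nil) (.nil)
def t14_1097 : Tr := .node ⟨nat_lit 6, nat_lit 0x10002000200024, nat_lit 0x110012, nat_lit 3, nat_lit 4, nat_lit 0x47⟩ (.nil) (.nil)
def t14_9289 : Tr := .node ⟨nat_lit 7, nat_lit 0x400020005000600068, nat_lit 0x11121, nat_lit 4, nat_lit 4, nat_lit 0x46⟩ (.nil) (.nil)
def t14_5193 : Tr := .node ⟨nat_lit 5, nat_lit 0x80010, nat_lit 0x12110, nat_lit 9, nat_lit 3, nat_lit 0x48⟩ (.nil) (.nil)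
def t14_13385 : Tr := .node ⟨nat_lit 7, nat_lit 0x10001800500060, nat_lit 0x2030, nat_lit 0, nat_lit 4, nat_lit 0x46⟩ (.nil) (.nil)
def t14_3145 : Tr := .node ⟨nat_lit 6, nat_lit 0x800080030, nat_lit 0x201001, nat_lit 1, nat_lit 4, nat_lit 0x47⟩ (.nil) (.nil)
def t14_11337 : Tr := .node ⟨nat_lit 7, nat_lit 0x40001000600068, nat_lit 0x111102, nat_lit 2, nat_lit 4, nat_lit 0x47⟩ (.nil) (.nil)
def t14_7241 : Tr := .node ⟨nat_lit 7, nat_lit 0x20004000100060, nat_lit 0x121031, nat_lit 0, nat_lit 4, nat_lit 0x49⟩ (.nil) (.nil)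
def t14_15433 : Tr := .node ⟨nat_lit 0xb, nat_lit 0x2000100008000800400, nat_lit 0x10001100101, nat_lit 0, nat_lit 4, nat_lit 0x4d⟩ (.nil) (.nil)
def t14_585 : Tr := .node ⟨nat_lit 7, nat_lit 0x20004000440030, nat_lit 0x2000102, nat_lit 0, nat_lit 4, nat_lit 0x47⟩ (.nil) (.nil)
def t14_8777 : Tr := .node ⟨nat_lit 6, nat_lit 0x800200030, nat_lit 0x101110, nat_lit 1, nat_lit 3, nat_lit 0x46⟩ (.nil) (.nil)
def t14_4681 : Tr := .node ⟨nat_lit 7, nat_lit 0x40002000500060, nat_lit 0x12021, nat_lit 1, nat_lit 4, nat_lit 0x47⟩ (.nil) (.nil)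
def t14_12873 : Tr := .node ⟨nat_lit 6, nat_lit 0x1000200030, nat_lit 0x102000, nat_lit 0, nat_lit 3, nat_lit 0x46⟩ (.nil) (.nil)
def t14_2633 : Tr := .node ⟨nat_lit 5, nat_lit 0x1000080008, nat_lit 0x231, nat_lit 1, nat_lit 3, nat_lit 0x45⟩ (.nil) (.nil)
def t14_10825 : Tr := .node ⟨nat_lit 7, nat_lit 0x10002000400062, nat_lit 0x1000012, nat_lit 3, nat_lit 4, nat_lit 0x47⟩ (.nil) (.nil)
def t14_6729 : Tr := .node ⟨nat_lit 7, nat_lit 0x40001000600068, nat_lit 0x1011110, nat_lit 1, nat_lit 4, nat_lit 0x47⟩ (.nil) (.nil)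
def t14_14921 : Tr := .node ⟨nat_lit 7, nat_lit 0x4000540064, nat_lit 0x1100112, nat_lit 0, nat_lit 4, nat_lit 0x47⟩ (.nil) (.nil)
def t14_1609 : Tr := .node ⟨nat_lit 8, nat_lit 0x200080003000a000c0, nat_lit 0x1010121, nat_lit 1, nat_lit 4, nat_lit 0x47⟩ (.nil) (.nil)
def t14_9801 : Tr := .node ⟨nat_lit 9, nat_lit 0x20014001400180, nat_lit 0x10010202, nat_lit 0, nat_lit 4, nat_lit 0x49⟩ (.nil) (.nil)
def t14_5705 : Tr := .node ⟨nat_lit 9, nat_lit 0x20010001400180, nat_lit 0x1010220, nat_lit 1, nat_lit 4, nat_lit 0x4a⟩ (.nil) (.nil)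
def t14_13897 : Tr := .node ⟨nat_lit 6, nat_lit 0x20001000100028, nat_lit 0x3201, nat_lit 3, nat_lit 4, nat_lit 0x47⟩ (.nil) (.nil)
def t14_3657 : Tr := .node ⟨nat_lit 9, nat_lit 0x8001000100011001800190, nat_lit 0x2000021, nat_lit 1, nat_lit 4, nat_lit 0x48⟩ (.nil) (.nil)
def t14_11849 : Tr := .node ⟨nat_lit 7, nat_lit 0x4000100060, nat_lit 0x1031, nat_lit 1, nat_lit 4, nat_lit 0x48⟩ (.nil) (.nil)
def t14_7753 : Tr := .node ⟨nat_lit 5, nat_lit 0x1000140018, nat_lit 0x1302, nat_lit 7, nat_lit 4, nat_lit 0x47⟩ (.nil) (.nil)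
def t9_73 : Tr := .node ⟨nat_lit 2, nat_lit 2, nat_lit 0x10, nat_lit 9, nat_lit 3, nat_lit 0x43⟩ (.node ⟨nat_lit 6, nat_lit 0x200020, nat_lit 0x131122, nat_lit 1, nat_lit 4, nat_lit 0x4b⟩ (.node ⟨nat_lit 6, nat_lit 0x300030, nat_lit 0x3120, nat_lit 0, nat_lit 4, nat_lit 0x47⟩ (.node ⟨nat_lit 7, nat_lit 0x100060, nat_lit 0x1002101, nat_lit 3, nat_lit 4, nat_lit 0x4a⟩ (.node ⟨nat_lit 7, nat_lit 0x4000400020, nat_lit 0x221003, nat_lit 1, nat_lit 4, nat_lit 0x4b⟩ (t14_73) (t14_8265)) (.node ⟨nat_lit 7, nat_lit 0x1000600050, nat_lit 0x1012003, nat_lit 0, nat_lit 4, nat_lit 0x49⟩ (t14_4169) (t14_12361))) (.node ⟨nat_lit 5, nat_lit 0x18001c, nat_lit 0x21122, nat_lit 4, nat_lit 4, nat_lit 0x47⟩ (.node ⟨nat_lit 6, nat_lit 0x800200030, nat_lit 0x10040, nat_lit 1, nat_lit 3, nat_lit 0x46⟩ (t14_2121) (t14_10313)) (.node ⟨nat_lit 8, nat_lit 0x4000400040008000800084,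 nat_lit 0x10211200, nat_lit 0, nat_lit 4, nat_lit 0x49⟩ (t14_6217) (t14_14409)))) (.node ⟨nat_lit 4, nat_lit 0x40008, nat_lit 0x2202, nat_lit 6, nat_lit 3, nat_lit 0x47⟩ (.node ⟨nat_lit 7, nat_lit 0x1000500060, nat_lit 0x2102111, nat_lit 0, nat_lit 4, nat_lit 0x49⟩ (.node ⟨nat_lit 7, nat_lit 0x40001000600060, nat_lit 0x11311, nat_lit 0, nat_lit 4, nat_lit 0x47⟩ (t14_1097) (t14_9289)) (.node ⟨nat_lit 6, nat_lit 0x3000300038, nat_lit 0x101213, nat_lit 3, nat_lit 4, nat_lit 0x46⟩ (t14_5193) (t14_13385))) (.node ⟨nat_lit 6, nat_lit 0x3000300030, nat_lit 0x102110, nat_lit 0, nat_lit 3, nat_lit 0x45⟩ (.node ⟨nat_lit 5, nat_lit 0x18, nat_lit 0x11210, nat_lit 2, nat_lit 4, nat_lit 0x48⟩ (t14_3145) (t14_11337)) (.node ⟨nat_lit 7, nat_lit 0x20004000100044, nat_lit 0x1010102, nat_lit 3, nat_lit 4, nat_lit 0x48⟩ (t14_7241) (t14_15433))))) (.node ⟨nat_lit 4,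 nat_lit 8, nat_lit 0x3113, nat_lit 6, nat_lit 4, nat_lit 0x4a⟩ (.node ⟨nat_lit 6, nat_lit 0x2000100008, nat_lit 0x12002, nat_lit 1, nat_lit 4, nat_lit 0x48⟩ (.node ⟨nat_lit 7, nat_lit 0x40004000100060, nat_lit 0x201102, nat_lit 0, nat_lit 4, nat_lit 0x48⟩ (.node ⟨nat_lit 4, nat_lit 8, nat_lit 0x1321, nat_lit 0xa, nat_lit 4, nat_lit 0x4a⟩ (t14_585) (t14_8777)) (.node ⟨nat_lit 7, nat_lit 0x20006000500068, nat_lit 0x1111212, nat_lit 0, nat_lit 4, nat_lit 0x47⟩ (t14_4681) (t14_12873))) (.node ⟨nat_lit 6, nat_lit 0x30000c, nat_lit 0x101002, nat_lit 0, nat_lit 4, nat_lit 0x46⟩ (.node ⟨nat_lit 4, nat_lit 0x8000c, nat_lit 0x1224, nat_lit 5, nat_lit 4, nat_lit 0x48⟩ (t14_2633) (t14_10825)) (.node ⟨nat_lit 3, nat_lit 0x40004, nat_lit 0x231, nat_lit 7, nat_lit 3, nat_lit 0x46⟩ (t14_6729) (t14_14921)))) (.node ⟨nat_lit 5, nat_lit 0x18, nat_lit 0x20112, nat_lit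 3, nat_lit 4, nat_lit 0x48⟩ (.node ⟨nat_lit 5, nat_lit 0x40018, nat_lit 0x30211, nat_lit 5, nat_lit 4, nat_lit 0x49⟩ (.node ⟨nat_lit 4, nat_lit 0xe, nat_lit 0x1103, nat_lit 3, nat_lit 4, nat_lit 0x44⟩ (t14_1609) (t14_9801)) (.node ⟨nat_lit 6, nat_lit 0x200030, nat_lit 0x102211, nat_lit 5, nat_lit 4, nat_lit 0x4a⟩ (t14_5705) (t14_13897))) (.node ⟨nat_lit 5, nat_lit 0x40018, nat_lit 0x20202, nat_lit 6, nat_lit 4, nat_lit 0x48⟩ (.node ⟨nat_lit 7, nat_lit 0x40001000100060, nat_lit 0x100, nat_lit 1, nat_lit 4, nat_lit 0x46⟩ (t14_3657) (t14_11849)) (.node ⟨nat_lit 6, nat_lit 0x2000200010, nat_lit 0x111001, nat_lit 2, nat_lit 4, nat_lit 0x48⟩ (t14_7753) (.nil)))))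
def t14_329 : Tr := .node ⟨nat_lit 7, nat_lit 0x40001000500060, nat_lit 0x211112, nat_lit 0, nat_lit 4, nat_lit 0x48⟩ (.nil) (.nil)
def t14_8521 : Tr := .node ⟨nat_lit 7, nat_lit 0x20004000400044, nat_lit 0x20213, nat_lit 2, nat_lit 4, nat_lit 0x49⟩ (.nil) (.nil)
def t14_4425 : Tr := .node ⟨nat_lit 9, nat_lit 0x10000400080, nat_lit 0x111111010, nat_lit 0, nat_lit 4, nat_lit 0x4d⟩ (.nil) (.nil)
def t14_12617 : Tr := .node ⟨nat_lit 8, nat_lit 0x2000c000a00030, nat_lit 0x10002030, nat_lit 0, nat_lit 4, nat_lit 0x48⟩ (.nil) (.nil)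
def t14_2377 : Tr := .node ⟨nat_lit 8, nat_lit 0x4000800090006000c000c0, nat_lit 0x220110, nat_lit 1, nat_lit 4, nat_lit 0x47⟩ (.nil) (.nil)
def t14_10569 : Tr := .node ⟨nat_lit 6, nat_lit 0x2000100024, nat_lit 0x1012, nat_lit 0, nat_lit 4, nat_lit 0x45⟩ (.nil) (.nil)
def t14_6473 : Tr := .node ⟨nat_lit 7, nat_lit 0x4000440060, nat_lit 0x1111100, nat_lit 1, nat_lit 4, nat_lit 0x49⟩ (.nil) (.nil)
def t14_14665 : Tr := .node ⟨nat_lit 7, nat_lit 0x4000600060, nat_lit 0x111211, nat_lit 1, nat_lit 3, nat_lit 0x47⟩ (.nil) (.nil)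
def t14_1353 : Tr := .node ⟨nat_lit 7, nat_lit 0x400020002000500068, nat_lit 0x131100, nat_lit 0, nat_lit 4, nat_lit 0x47⟩ (.nil) (.nil)
def t14_9545 : Tr := .node ⟨nat_lit 9, nat_lit 0x10001000100011001200120, nat_lit 0x11110110, nat_lit 2, nat_lit 4, nat_lit 0x4a⟩ (.nil) (.nil)
def t14_5449 : Tr := .node ⟨nat_lit 6, nat_lit 0x2000200010, nat_lit 0x2104, nat_lit 0, nat_lit 4, nat_lit 0x48⟩ (.nil) (.nil)
def t14_13641 : Tr := .node ⟨nat_lit 7, nat_lit 0x20004000440030, nat_lit 0x112, nat_lit 2, nat_lit 4, nat_lit 0x46⟩ (.nil) (.nil)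
def t14_3401 : Tr := .node ⟨nat_lit 7, nat_lit 0x40003000580068, nat_lit 0x2000110, nat_lit 0, nat_lit 4, nat_lit 0x45⟩ (.nil) (.nil)
def t14_11593 : Tr := .node ⟨nat_lit 7, nat_lit 0x10006000600070, nat_lit 0x12103, nat_lit 0, nat_lit 4, nat_lit 0x46⟩ (.nil) (.nil)
def t14_7497 : Tr := .node ⟨nat_lit 8, nat_lit 0x8000c0, nat_lit 0x10111111, nat_lit 2, nat_lit 4, nat_lit 0x4c⟩ (.nil) (.nil)
def t14_841 : Tr := .node ⟨nat_lit 5, nat_lit 0x1000080014, nat_lit 0x1212, nat_lit 7, nat_lit 4, nat_lit 0x47⟩ (.nil) (.nil)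
def t14_9033 : Tr := .node ⟨nat_lit 9, nat_lit 0x8001000100010001080110, nat_lit 0x1021101, nat_lit 0, nat_lit 4, nat_lit 0x4a⟩ (.nil) (.nil)
def t14_4937 : Tr := .node ⟨nat_lit 7, nat_lit 0x10004000600060, nat_lit 0x100031, nat_lit 5, nat_lit 4, nat_lit 0x48⟩ (.nil) (.nil)
def t14_13129 : Tr := .node ⟨nat_lit 6, nat_lit 0x2000100030, nat_lit 0x202030, nat_lit 0, nat_lit 3, nat_lit 0x47⟩ (.nil) (.nil)
def t14_2889 : Tr := .node ⟨nat_lit 8, nat_lit 0x4000800080002000c0, nat_lit 0x212110, nat_lit 0, nat_lit 4, nat_lit 0x49⟩ (.nil) (.nil)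
def t14_11081 : Tr := .node ⟨nat_lit 6, nat_lit 0x1000200022, nat_lit 0x1012, nat_lit 5, nat_lit 4, nat_lit 0x47⟩ (.nil) (.nil)
def t14_6985 : Tr := .node ⟨nat_lit 6, nat_lit 0x200030, nat_lit 0x121111, nat_lit 4, nat_lit 4, nat_lit 0x4a⟩ (.nil) (.nil)
def t14_15177 : Tr := .node ⟨nat_lit 6, nat_lit 0x2800180030, nat_lit 0x11211, nat_lit 3, nat_lit 3, nat_lit 0x45⟩ (.nil) (.nil)
def t14_1865 : Tr := .node ⟨nat_lit 4, nat_lit 0x40008, nat_lit 0x2010, nat_lit 6, nat_lit 4, nat_lit 0x46⟩ (.nil) (.nil)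
def t14_10057 : Tr := .node ⟨nat_lit 8, nat_lit 0x40008000d000d000e0, nat_lit 0x1101202, nat_lit 0, nat_lit 4, nat_lit 0x46⟩ (.nil) (.nil)
def t14_5961 : Tr := .node ⟨nat_lit 9, nat_lit 0x100010000800080011001a0, nat_lit 0x101102101, nat_lit 0, nat_lit 4, nat_lit 0x49⟩ (.nil) (.nil)
def t14_14153 : Tr := .node ⟨nat_lit 5, nat_lit 0x800100018, nat_lit 0x10122, nat_lit 6, nat_lit 4, nat_lit 0x47⟩ (.nil) (.nil)
def t14_3913 : Tr := .node ⟨nat_lit 7, nat_lit 0x40002000500060, nat_lit 0x113001, nat_lit 0, nat_lit 3, nat_lit 0x46⟩ (.nil) (.nil)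
def t14_12105 : Tr := .node ⟨nat_lit 6, nat_lit 0x2800180030, nat_lit 0x110100, nat_lit 1, nat_lit 4, nat_lit 0x45⟩ (.nil) (.nil)
def t14_8009 : Tr := .node ⟨nat_lit 6, nat_lit 0x2000100024, nat_lit 0x11104, nat_lit 0, nat_lit 4, nat_lit 0x47⟩ (.nil) (.nil)
def t9_329 : Tr := .node ⟨nat_lit 6, nat_lit 0x2000200010, nat_lit 0x113111, nat_lit 1, nat_lit 4, nat_lit 0x49⟩ (.node ⟨nat_lit 6, nat_lit 0x800280030, nat_lit 0x31212, nat_lit 0, nat_lit 4, nat_lit 0x48⟩ (.node ⟨nat_lit 4, nat_lit 8, nat_lit 0x2113, nat_lit 7, nat_lit 4, nat_lit 0x49⟩ (.node ⟨nat_lit 5, nat_lit 0x18, nat_lit 0x10112, nat_lit 0, nat_lit 4, nat_lit 0x46⟩ (.node ⟨nat_lit 7, nat_lit 0x4000100060, nat_lit 0x1121111, nat_lit 1, nat_lit 4, nat_lit 0x4a⟩ (t14_329) (t14_8521)) (.node ⟨nat_lit 7, nat_lit 0x4000600070, nat_lit 0x211103, nat_lit 0, nat_lit 4, nat_lit 0x48⟩ (t14_4425)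 (t14_12617))) (.node ⟨nat_lit 4, nat_lit 0x80004, nat_lit 1, nat_lit 2, nat_lit 3, nat_lit 0x43⟩ (.node ⟨nat_lit 5, nat_lit 0x1000080008, nat_lit 0x21132, nat_lit 3, nat_lit 3, nat_lit 0x47⟩ (t14_2377) (t14_10569)) (.node ⟨nat_lit 6, nat_lit 0x300030, nat_lit 0x102120, nat_lit 3, nat_lit 4, nat_lit 0x48⟩ (t14_6473) (t14_14665)))) (.node ⟨nat_lit 6, nat_lit 0x2000100024, nat_lit 0x211220, nat_lit 0, nat_lit 4, nat_lit 0x49⟩ (.node ⟨nat_lit 6, nat_lit 0x80030, nat_lit 0x202121, nat_lit 3, nat_lit 4, nat_lit 0x4a⟩ (.node ⟨nat_lit 6, nat_lit 0x20002000100010, nat_lit 0x101030, nat_lit 1, nat_lit 3, nat_lit 0x46⟩ (t14_1353) (t14_9545)) (.node ⟨nat_lit 7, nat_lit 0x10001000100060, nat_lit 0x2102002, nat_lit 1, nat_lit 4, nat_lit 0x49⟩ (t14_5449) (t14_13641))) (.node ⟨nat_lit 4, nat_lit 0xc, nat_lit 0x3012, nat_lit 0xc, nat_lit 4, nat_lit 0x49⟩ (.node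 ⟨nat_lit 6, nat_lit 0x280030, nat_lit 0x100203, nat_lit 0, nat_lit 4, nat_lit 0x47⟩ (t14_3401) (t14_11593)) (.node ⟨nat_lit 8, nat_lit 0x800020009000c000c0, nat_lit 0x111010, nat_lit 1, nat_lit 4, nat_lit 0x47⟩ (t14_7497) (.nil))))) (.node ⟨nat_lit 5, nat_lit 0x10, nat_lit 0x3211, nat_lit 2, nat_lit 4, nat_lit 0x49⟩ (.node ⟨nat_lit 5, nat_lit 0x80010, nat_lit 0x22111, nat_lit 3, nat_lit 4, nat_lit 0x49⟩ (.node ⟨nat_lit 5, nat_lit 0x80010001c, nat_lit 0x11111, nat_lit 5, nat_lit 4, nat_lit 0x46⟩ (.node ⟨nat_lit 4, nat_lit 0x80008, nat_lit 0x131, nat_lit 3, nat_lit 3, nat_lit 0x45⟩ (t14_841) (t14_9033)) (.node ⟨nat_lit 6, nat_lit 0x1000200030, nat_lit 0x112221, nat_lit 2, nat_lit 4, nat_lit 0x49⟩ (t14_4937) (t14_13129))) (.node ⟨nat_lit 7, nat_lit 0x10002000500060, nat_lit 0x1011012, nat_lit 0, nat_lit 4, nat_lit 0x47⟩ (.node ⟨nat_lit 7, nat_lit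 0x40001000680068, nat_lit 0x1012121, nat_lit 0, nat_lit 4, nat_lit 0x47⟩ (t14_2889) (t14_11081)) (.node ⟨nat_lit 5, nat_lit 0x180018, nat_lit 0x11132, nat_lit 6, nat_lit 4, nat_lit 0x48⟩ (t14_6985) (t14_15177)))) (.node ⟨nat_lit 5, nat_lit 0x40018, nat_lit 0x21120, nat_lit 1, nat_lit 4, nat_lit 0x47⟩ (.node ⟨nat_lit 7, nat_lit 0x40001000600068, nat_lit 0x2012011, nat_lit 1, nat_lit 4, nat_lit 0x48⟩ (.node ⟨nat_lit 0xa, nat_lit 0x800200004000200300, nat_lit 0x1000003001, nat_lit 1, nat_lit 4, nat_lit 0x4b⟩ (t14_1865) (t14_10057)) (.node ⟨nat_lit 7, nat_lit 0x20002000100040, nat_lit 0x2012000, nat_lit 1, nat_lit 4, nat_lit 0x49⟩ (t14_5961) (t14_14153))) (.node ⟨nat_lit 6, nat_lit 0x800300038, nat_lit 0x211, nat_lit 0, nat_lit 4, nat_lit 0x44⟩ (.node ⟨nat_lit 7, nat_lit 0x20006000600050, nat_lit 0x10004, nat_lit 0, nat_lit 4, nat_lit 0x46⟩ (t14_3913)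 (t14_12105)) (.node ⟨nat_lit 7, nat_lit 0x1000600060, nat_lit 0x1002121, nat_lit 0, nat_lit 4, nat_lit 0x48⟩ (t14_8009) (.nil)))))
def t14_201 : Tr := .node ⟨nat_lit 7, nat_lit 0x40002000480060, nat_lit 0x121221, nat_lit 1, nat_lit 4, nat_lit 0x48⟩ (.nil) (.nil)
def t14_8393 : Tr := .node ⟨nat_lit 4, nat_lit 8, nat_lit 0x1113, nat_lit 7, nat_lit 3, nat_lit 0x47⟩ (.nil) (.nil)
def t14_4297 : Tr := .node ⟨nat_lit 8, nat_lit 0x80008000400088, nat_lit 0x1210210, nat_lit 0, nat_lit 4, nat_lit 0x4a⟩ (.nil) (.nil)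
def t14_12489 : Tr := .node ⟨nat_lit 7, nat_lit 0x40001000100060, nat_lit 0x3101, nat_lit 0, nat_lit 4, nat_lit 0x47⟩ (.nil) (.nil)
def t14_2249 : Tr := .node ⟨nat_lit 8, nat_lit 0x800080004000400020, nat_lit 0x1100220, nat_lit 1, nat_lit 4, nat_lit 0x4a⟩ (.nil) (.nil)
def t14_10441 : Tr := .node ⟨nat_lit 7, nat_lit 0x40001000500060, nat_lit 0x201200, nat_lit 0, nat_lit 4, nat_lit 0x47⟩ (.nil) (.nil)
def t14_6345 : Tr := .node ⟨nat_lit 6, nat_lit 0x2000080030, nat_lit 0x1301, nat_lit 2, nat_lit 4, nat_lit 0x47⟩ (.nil) (.nil)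
def t14_14537 : Tr := .node ⟨nat_lit 6, nat_lit 0x2000080030, nat_lit 0x210012, nat_lit 2, nat_lit 3, nat_lit 0x47⟩ (.nil) (.nil)
def t14_1225 : Tr := .node ⟨nat_lit 5, nat_lit 0x100008, nat_lit 0x1133, nat_lit 2, nat_lit 4, nat_lit 0x48⟩ (.nil) (.nil)
def t14_9417 : Tr := .node ⟨nat_lit 7, nat_lit 0x20006000500070, nat_lit 0x1002202, nat_lit 0, nat_lit 4, nat_lit 0x46⟩ (.nil) (.nil)
def t14_5321 : Tr := .node ⟨nat_lit 5, nat_lit 0x100018, nat_lit 0x11130, nat_lit 7, nat_lit 4, nat_lit 0x49⟩ (.nil) (.nil)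
def t14_13513 : Tr := .node ⟨nat_lit 7, nat_lit 0x40004000200020, nat_lit 0x11000, nat_lit 0, nat_lit 4, nat_lit 0x47⟩ (.nil) (.nil)
def t14_3273 : Tr := .node ⟨nat_lit 9, nat_lit 0x8001000100010000400110, nat_lit 0x1021001, nat_lit 1, nat_lit 4, nat_lit 0x4a⟩ (.nil) (.nil)
def t14_11465 : Tr := .node ⟨nat_lit 5, nat_lit 0x800100018, nat_lit 0x1011, nat_lit 6, nat_lit 4, nat_lit 0x46⟩ (.nil) (.nil)
def t14_7369 : Tr := .node ⟨nat_lit 6, nat_lit 0x20, nat_lit 0x131000, nat_lit 0, nat_lit 4, nat_lit 0x4a⟩ (.nil) (.nil)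
def t14_15561 : Tr := .node ⟨nat_lit 5, nat_lit 0, nat_lit 0x22111, nat_lit 0xa, nat_lit 4, nat_lit 0x4c⟩ (.nil) (.nil)
def t14_713 : Tr := .node ⟨nat_lit 7, nat_lit 0x1000400060, nat_lit 0x2041, nat_lit 0, nat_lit 4, nat_lit 0x49⟩ (.nil) (.nil)
def t14_8905 : Tr := .node ⟨nat_lit 6, nat_lit 0x2000300030, nat_lit 0x1130, nat_lit 4, nat_lit 4, nat_lit 0x47⟩ (.nil) (.nil)
def t14_4809 : Tr := .node ⟨nat_lit 8, nat_lit 0x800020009000c000d0, nat_lit 0x10010022, nat_lit 0, nat_lit 4, nat_lit 0x47⟩ (.nil) (.nil)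
def t14_13001 : Tr := .node ⟨nat_lit 6, nat_lit 0x2000100010, nat_lit 0x302000, nat_lit 1, nat_lit 3, nat_lit 0x48⟩ (.nil) (.nil)
def t14_2761 : Tr := .node ⟨nat_lit 7, nat_lit 0x40001000100060, nat_lit 0x112111, nat_lit 0, nat_lit 4, nat_lit 0x48⟩ (.nil) (.nil)
def t14_10953 : Tr := .node ⟨nat_lit 7, nat_lit 0x400040002000200050, nat_lit 0x12201, nat_lit 1, nat_lit 4, nat_lit 0x47⟩ (.nil) (.nil)
def t14_6857 : Tr := .node ⟨nat_lit 6, nat_lit 0x200022, nat_lit 0x11120, nat_lit 4, nat_lit 4, nat_lit 0x49⟩ (.nil) (.nil)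
def t14_15049 : Tr := .node ⟨nat_lit 6, nat_lit 0x1000280030, nat_lit 0x111311, nat_lit 1, nat_lit 4, nat_lit 0x48⟩ (.nil) (.nil)
def t14_1737 : Tr := .node ⟨nat_lit 8, nat_lit 0x40008000a000c800c8, nat_lit 0x10101121, nat_lit 1, nat_lit 4, nat_lit 0x47⟩ (.nil) (.nil)
def t14_9929 : Tr := .node ⟨nat_lit 7, nat_lit 0x10006000600060, nat_lit 0x330, nat_lit 4, nat_lit 4, nat_lit 0x47⟩ (.nil) (.nil)
def t14_5833 : Tr := .node ⟨nat_lit 7, nat_lit 0x4000200044, nat_lit 0x111002, nat_lit 1, nat_lit 4, nat_lit 0x48⟩ (.nil) (.nil)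
def t14_14025 : Tr := .node ⟨nat_lit 7, nat_lit 0x20004000100064, nat_lit 0x1012020, nat_lit 2, nat_lit 4, nat_lit 0x48⟩ (.nil) (.nil)
def t14_3785 : Tr := .node ⟨nat_lit 7, nat_lit 0x10004000500060, nat_lit 0x211120, nat_lit 1, nat_lit 4, nat_lit 0x48⟩ (.nil) (.nil)
def t14_11977 : Tr := .node ⟨nat_lit 8, nat_lit 0x80002000c000a000d0, nat_lit 0x1020022, nat_lit 0, nat_lit 4, nat_lit 0x47⟩ (.nil) (.nil)
def t14_7881 : Tr := .node ⟨nat_lit 7, nat_lit 0x40003000500068, nat_lit 0x2101, nat_lit 0, nat_lit 4, nat_lit 0x45⟩ (.nil) (.nil)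
def t9_201 : Tr := .node ⟨nat_lit 5, nat_lit 0x10, nat_lit 0x13220, nat_lit 1, nat_lit 4, nat_lit 0x4a⟩ (.node ⟨nat_lit 7, nat_lit 0x1000500060, nat_lit 0x1103021, nat_lit 1, nat_lit 4, nat_lit 0x49⟩ (.node ⟨nat_lit 7, nat_lit 0x40002000600060, nat_lit 0x30121, nat_lit 2, nat_lit 4, nat_lit 0x48⟩ (.node ⟨nat_lit 6, nat_lit 0x800080030, nat_lit 0x210103, nat_lit 2, nat_lit 4, nat_lit 0x48⟩ (.node ⟨nat_lit 6, nat_lit 0x800200032, nat_lit 0x200022, nat_lit 1, nat_lit 4, nat_lit 0x47⟩ (t14_201) (t14_8393)) (.node ⟨nat_lit 6, nat_lit 0x800280030, nat_lit 0x11032, nat_lit 3, nat_lit 4, nat_lit 0x47⟩ (t14_4297) (t14_12489))) (.node ⟨nat_lit 7, nat_lit 0x4000100020, nat_lit 0x212013, nat_lit 0, nat_lit 4, nat_lit 0x4b⟩ (.node ⟨nat_lit 8, nat_lit 0x2000800080004000c8, nat_lit 0x1002113, nat_lit 0, nat_lit 4, nat_lit 0x48⟩ (t14_2249) (t14_10441)) (.node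 ⟨nat_lit 8, nat_lit 0x80008000c0, nat_lit 0x1211102, nat_lit 0, nat_lit 4, nat_lit 0x4b⟩ (t14_6345) (t14_14537)))) (.node ⟨nat_lit 6, nat_lit 0x80030, nat_lit 0x101211, nat_lit 1, nat_lit 4, nat_lit 0x48⟩ (.node ⟨nat_lit 7, nat_lit 0x4000100060, nat_lit 0x1211111, nat_lit 1, nat_lit 4, nat_lit 0x4a⟩ (.node ⟨nat_lit 3, nat_lit 6, nat_lit 0x113, nat_lit 9, nat_lit 4, nat_lit 0x46⟩ (t14_1225) (t14_9417)) (.node ⟨nat_lit 7, nat_lit 0x500060, nat_lit 0x1012121, nat_lit 2, nat_lit 4, nat_lit 0x4a⟩ (t14_5321) (t14_13513))) (.node ⟨nat_lit 6, nat_lit 0x800300030, nat_lit 0x101320, nat_lit 1, nat_lit 4, nat_lit 0x47⟩ (.node ⟨nat_lit 6, nat_lit 0x2000080034, nat_lit 0x111101, nat_lit 2, nat_lit 4, nat_lit 0x47⟩ (t14_3273) (t14_11465)) (.node ⟨nat_lit 7, nat_lit 0x4000600018, nat_lit 0x11012, nat_lit 3, nat_lit 4, nat_lit 0x48⟩ (t14_7369) (t14_15561)))))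 (.node ⟨nat_lit 6, nat_lit 0x80030, nat_lit 0x111301, nat_lit 1, nat_lit 4, nat_lit 0x49⟩ (.node ⟨nat_lit 5, nat_lit 0x10, nat_lit 0x2110, nat_lit 3, nat_lit 4, nat_lit 0x48⟩ (.node ⟨nat_lit 7, nat_lit 0x4000400020, nat_lit 0x121101, nat_lit 2, nat_lit 4, nat_lit 0x4a⟩ (.node ⟨nat_lit 7, nat_lit 0x4000400020, nat_lit 0x1211210, nat_lit 0, nat_lit 4, nat_lit 0x4b⟩ (t14_713) (t14_8905)) (.node ⟨nat_lit 6, nat_lit 0x20001000100028, nat_lit 0x11201, nat_lit 1, nat_lit 4, nat_lit 0x46⟩ (t14_4809) (t14_13001))) (.node ⟨nat_lit 5, nat_lit 0x180014, nat_lit 0x20112, nat_lit 5, nat_lit 4, nat_lit 0x47⟩ (.node ⟨nat_lit 7, nat_lit 0x2000400060, nat_lit 0x1111023, nat_lit 0, nat_lit 4, nat_lit 0x4a⟩ (t14_2761) (t14_10953)) (.node ⟨nat_lit 6, nat_lit 0x1000200038, nat_lit 0x110012, nat_lit 0, nat_lit 4, nat_lit 0x46⟩ (t14_6857) (t14_15049)))) (.node ⟨nat_lit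 3, nat_lit 0x40004, nat_lit 0x132, nat_lit 5, nat_lit 3, nat_lit 0x45⟩ (.node ⟨nat_lit 4, nat_lit 0xc000c, nat_lit 0x1121, nat_lit 3, nat_lit 3, nat_lit 0x44⟩ (.node ⟨nat_lit 7, nat_lit 0x4000600050, nat_lit 0x11014, nat_lit 0, nat_lit 4, nat_lit 0x48⟩ (t14_1737) (t14_9929)) (.node ⟨nat_lit 8, nat_lit 0x800080008000a000a000c000c0, nat_lit 0x1102021, nat_lit 2, nat_lit 4, nat_lit 0x48⟩ (t14_5833) (t14_14025))) (.node ⟨nat_lit 6, nat_lit 0x80030, nat_lit 0x200222, nat_lit 2, nat_lit 4, nat_lit 0x49⟩ (.node ⟨nat_lit 7, nat_lit 0x2000480070, nat_lit 0x100103, nat_lit 2, nat_lit 4, nat_lit 0x47⟩ (t14_3785) (t14_11977)) (.node ⟨nat_lit 7, nat_lit 0x1000600060, nat_lit 0x1011121, nat_lit 4, nat_lit 4, nat_lit 0x49⟩ (t14_7881) (.nil)))))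
def t14_457 : Tr := .node ⟨nat_lit 7, nat_lit 0x40002000680070, nat_lit 0x1111012, nat_lit 1, nat_lit 4, nat_lit 0x47⟩ (.nil) (.nil)
def t14_8649 : Tr := .node ⟨nat_lit 7, nat_lit 0x40001000100060, nat_lit 2, nat_lit 1, nat_lit 4, nat_lit 0x46⟩ (.nil) (.nil)
def t14_4553 : Tr := .node ⟨nat_lit 6, nat_lit 0x2800280030, nat_lit 0x11212, nat_lit 4, nat_lit 4, nat_lit 0x47⟩ (.nil) (.nil)
def t14_12745 : Tr := .node ⟨nat_lit 5, nat_lit 0x1000140018, nat_lit 0x1200, nat_lit 9, nat_lit 4, nat_lit 0x47⟩ (.nil) (.nil)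
def t14_2505 : Tr := .node ⟨nat_lit 7, nat_lit 0x40002000600050, nat_lit 0x112210, nat_lit 1, nat_lit 4, nat_lit 0x48⟩ (.nil) (.nil)
def t14_10697 : Tr := .node ⟨nat_lit 7, nat_lit 0x500060, nat_lit 0x101120, nat_lit 0, nat_lit 4, nat_lit 0x48⟩ (.nil) (.nil)
def t14_6601 : Tr := .node ⟨nat_lit 6, nat_lit 0x800280030, nat_lit 0x110202, nat_lit 2, nat_lit 4, nat_lit 0x47⟩ (.nil) (.nil)
def t14_14793 : Tr := .node ⟨nat_lit 8, nat_lit 0x2000800080004000c0, nat_lit 0x1001112, nat_lit 2, nat_lit 4, nat_lit 0x49⟩ (.nil) (.nil)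
def t14_1481 : Tr := .node ⟨nat_lit 6, nat_lit 0x20002000100028, nat_lit 0x12010, nat_lit 3, nat_lit 4, nat_lit 0x47⟩ (.nil) (.nil)
def t14_9673 : Tr := .node ⟨nat_lit 7, nat_lit 0x400040002000200050, nat_lit 0x10100, nat_lit 5, nat_lit 4, nat_lit 0x47⟩ (.nil) (.nil)
def t14_5577 : Tr := .node ⟨nat_lit 7, nat_lit 0x4000400044, nat_lit 0x111202, nat_lit 4, nat_lit 4, nat_lit 0x4a⟩ (.nil) (.nil)
def t14_13769 : Tr := .node ⟨nat_lit 8, nat_lit 0x800040009000a000d0, nat_lit 0x20100, nat_lit 2, nat_lit 4, nat_lit 0x47⟩ (.nil) (.nil)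
def t14_3529 : Tr := .node ⟨nat_lit 7, nat_lit 0x5000600070, nat_lit 0x1012, nat_lit 0, nat_lit 4, nat_lit 0x45⟩ (.nil) (.nil)
def t14_11721 : Tr := .node ⟨nat_lit 7, nat_lit 0x5000500060, nat_lit 0x101102, nat_lit 5, nat_lit 4, nat_lit 0x48⟩ (.nil) (.nil)
def t14_7625 : Tr := .node ⟨nat_lit 7, nat_lit 0x40002000200060, nat_lit 0x12113, nat_lit 1, nat_lit 4, nat_lit 0x48⟩ (.nil) (.nil)
def t14_969 : Tr := .node ⟨nat_lit 5, nat_lit 0x40018, nat_lit 0x20013, nat_lit 1, nat_lit 4, nat_lit 0x46⟩ (.nil) (.nil)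
def t14_9161 : Tr := .node ⟨nat_lit 8, nat_lit 0x8000800040009000c000e0, nat_lit 0x113020, nat_lit 1, nat_lit 4, nat_lit 0x47⟩ (.nil) (.nil)
def t14_5065 : Tr := .node ⟨nat_lit 6, nat_lit 0x2000300030, nat_lit 0x11311, nat_lit 4, nat_lit 4, nat_lit 0x48⟩ (.nil) (.nil)
def t14_13257 : Tr := .node ⟨nat_lit 7, nat_lit 0x4000600064, nat_lit 0x11301, nat_lit 1, nat_lit 4, nat_lit 0x48⟩ (.nil) (.nil)
def t14_3017 : Tr := .node ⟨nat_lit 7, nat_lit 0x200020004000440070, nat_lit 0x110311, nat_lit 0, nat_lit 4, nat_lit 0x47⟩ (.nil) (.nil)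
def t14_11209 : Tr := .node ⟨nat_lit 7, nat_lit 0x6000500050, nat_lit 0x12120, nat_lit 2, nat_lit 4, nat_lit 0x48⟩ (.nil) (.nil)
def t14_7113 : Tr := .node ⟨nat_lit 7, nat_lit 0x5000500060, nat_lit 0x1102111, nat_lit 1, nat_lit 4, nat_lit 0x48⟩ (.nil) (.nil)
def t14_15305 : Tr := .node ⟨nat_lit 7, nat_lit 0x40002000480064, nat_lit 0x1112102, nat_lit 0, nat_lit 4, nat_lit 0x48⟩ (.nil) (.nil)
def t14_1993 : Tr := .node ⟨nat_lit 7, nat_lit 0x40001000500060, nat_lit 0x210112, nat_lit 1, nat_lit 4, nat_lit 0x48⟩ (.nil) (.nil)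
def t14_10185 : Tr := .node ⟨nat_lit 7, nat_lit 0x20004000680070, nat_lit 0x100021, nat_lit 1, nat_lit 4, nat_lit 0x45⟩ (.nil) (.nil)
def t14_6089 : Tr := .node ⟨nat_lit 7, nat_lit 0x40, nat_lit 0x1111110, nat_lit 7, nat_lit 4, nat_lit 0x4d⟩ (.nil) (.nil)
def t14_14281 : Tr := .node ⟨nat_lit 8, nat_lit 0x40004000800080, nat_lit 0x110021, nat_lit 2, nat_lit 4, nat_lit 0x4a⟩ (.nil) (.nil)
def t14_4041 : Tr := .node ⟨nat_lit 8, nat_lit 0x800040004000a000d0, nat_lit 0x10112011, nat_lit 0, nat_lit 4, nat_lit 0x48⟩ (.nil) (.nil)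
def t14_12233 : Tr := .node ⟨nat_lit 9, nat_lit 0x40010001000180, nat_lit 0x10110210, nat_lit 0, nat_lit 4, nat_lit 0x4b⟩ (.nil) (.nil)
def t14_8137 : Tr := .node ⟨nat_lit 6, nat_lit 0x2000280034, nat_lit 0x11203, nat_lit 4, nat_lit 4, nat_lit 0x47⟩ (.nil) (.nil)
def t9_457 : Tr := .node ⟨nat_lit 5, nat_lit 0x10, nat_lit 0x3312, nat_lit 1, nat_lit 4, nat_lit 0x4a⟩ (.node ⟨nat_lit 6, nat_lit 0x1000200034, nat_lit 0x31002, nat_lit 0, nat_lit 4, nat_lit 0x47⟩ (.node ⟨nat_lit 4, nat_lit 0, nat_lit 0x2210, nat_lit 0, nat_lit 4, nat_lit 0x47⟩ (.node ⟨nat_lit 5, nat_lit 0x100018, nat_lit 0x1222, nat_lit 2, nat_lit 4, nat_lit 0x47⟩ (.node ⟨nat_lit 7, nat_lit 0x40001000500068, nat_lit 0x202111, nat_lit 0, nat_lit 4, nat_lit 0x47⟩ (t14_457) (t14_8649)) (.node ⟨nat_lit 6, nat_lit 0x2000200010, nat_lit 0x121202, nat_lit 3, nat_lit 4, nat_lit 0x4a⟩ (t14_4553)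 (t14_12745))) (.node ⟨nat_lit 7, nat_lit 0x4000100020, nat_lit 0x10020, nat_lit 0, nat_lit 4, nat_lit 0x48⟩ (.node ⟨nat_lit 7, nat_lit 0x20001000400070, nat_lit 0x1111113, nat_lit 1, nat_lit 4, nat_lit 0x48⟩ (t14_2505) (t14_10697)) (.node ⟨nat_lit 5, nat_lit 0x100018, nat_lit 0x1231, nat_lit 5, nat_lit 4, nat_lit 0x48⟩ (t14_6601) (t14_14793)))) (.node ⟨nat_lit 6, nat_lit 0x2000200034, nat_lit 0x21011, nat_lit 2, nat_lit 4, nat_lit 0x47⟩ (.node ⟨nat_lit 6, nat_lit 0x2000200010, nat_lit 0x122212, nat_lit 1, nat_lit 4, nat_lit 0x4a⟩ (.node ⟨nat_lit 7, nat_lit 0x4000600060, nat_lit 0x11010, nat_lit 0, nat_lit 4, nat_lit 0x47⟩ (t14_1481) (t14_9673)) (.node ⟨nat_lit 6, nat_lit 0x10001000200020, nat_lit 0x113210, nat_lit 1, nat_lit 4, nat_lit 0x49⟩ (t14_5577) (t14_13769))) (.node ⟨nat_lit 7, nat_lit 0x40004000100060, nat_lit 0x112020, nat_lit 1, nat_lit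 4, nat_lit 0x48⟩ (.node ⟨nat_lit 5, nat_lit 0x180014, nat_lit 0x1000, nat_lit 2, nat_lit 3, nat_lit 0x44⟩ (t14_3529) (t14_11721)) (.node ⟨nat_lit 5, nat_lit 0x800100018, nat_lit 0x2301, nat_lit 1, nat_lit 3, nat_lit 0x46⟩ (t14_7625) (.nil))))) (.node ⟨nat_lit 7, nat_lit 0x40004000200020, nat_lit 0x131011, nat_lit 3, nat_lit 4, nat_lit 0x4a⟩ (.node ⟨nat_lit 5, nat_lit 0x40018, nat_lit 0x11122, nat_lit 0, nat_lit 4, nat_lit 0x46⟩ (.node ⟨nat_lit 5, nat_lit 0x10, nat_lit 0x22220, nat_lit 0, nat_lit 4, nat_lit 0x4a⟩ (.node ⟨nat_lit 6, nat_lit 0x200022, nat_lit 0x221130, nat_lit 0, nat_lit 4, nat_lit 0x4b⟩ (t14_969) (t14_9161)) (.node ⟨nat_lit 6, nat_lit 0x10001000100020, nat_lit 0x202112, nat_lit 4, nat_lit 4, nat_lit 0x49⟩ (t14_5065) (t14_13257))) (.node ⟨nat_lit 5, nat_lit 0x100008, nat_lit 0x1123, nat_lit 1, nat_lit 4, nat_lit 0x47⟩ (.node ⟨nat_lit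 5, nat_lit 0x100018, nat_lit 0x120, nat_lit 1, nat_lit 4, nat_lit 0x45⟩ (t14_3017) (t14_11209)) (.node ⟨nat_lit 9, nat_lit 0x100008001400140014000a00180, nat_lit 0x10210002, nat_lit 0, nat_lit 4, nat_lit 0x47⟩ (t14_7113) (t14_15305)))) (.node ⟨nat_lit 5, nat_lit 0x18, nat_lit 0x11212, nat_lit 2, nat_lit 4, nat_lit 0x48⟩ (.node ⟨nat_lit 8, nat_lit 0x2000c0, nat_lit 0x20111111, nat_lit 0, nat_lit 4, nat_lit 0x4c⟩ (.node ⟨nat_lit 6, nat_lit 0x1000280034, nat_lit 0x21011, nat_lit 1, nat_lit 4, nat_lit 0x46⟩ (t14_1993) (t14_10185)) (.node ⟨nat_lit 7, nat_lit 0x10006000500070, nat_lit 0x100102, nat_lit 0, nat_lit 4, nat_lit 0x45⟩ (t14_6089) (t14_14281))) (.node ⟨nat_lit 5, nat_lit 0, nat_lit 0x41111, nat_lit 2, nat_lit 3, nat_lit 0x4a⟩ (.node ⟨nat_lit 8, nat_lit 0x2000a0006000c0, nat_lit 0x1010031, nat_lit 0, nat_lit 4, nat_lit 0x48⟩ (t14_4041) (t14_12233))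 (.node ⟨nat_lit 6, nat_lit 0x2000200030, nat_lit 0x111112, nat_lit 3, nat_lit 3, nat_lit 0x47⟩ (t14_8137) (.nil)))))
def t14_41 : Tr := .node ⟨nat_lit 7, nat_lit 0x400060, nat_lit 0x121101, nat_lit 1, nat_lit 4, nat_lit 0x4a⟩ (.nil) (.nil)
def t14_8233 : Tr := .node ⟨nat_lit 7, nat_lit 0x20004000600068, nat_lit 0x12103, nat_lit 2, nat_lit 4, nat_lit 0x47⟩ (.nil) (.nil)
def t14_4137 : Tr := .node ⟨nat_lit 8, nat_lit 0x8000400020009000c0, nat_lit 0x1111012, nat_lit 0, nat_lit 4, nat_lit 0x48⟩ (.nil) (.nil)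
def t14_12329 : Tr := .node ⟨nat_lit 8, nat_lit 0x200080004000c000c0, nat_lit 0x2230, nat_lit 1, nat_lit 4, nat_lit 0x48⟩ (.nil) (.nil)
def t14_2089 : Tr := .node ⟨nat_lit 7, nat_lit 0x10004000400060, nat_lit 0x22310, nat_lit 0, nat_lit 4, nat_lit 0x49⟩ (.nil) (.nil)
def t14_10281 : Tr := .node ⟨nat_lit 9, nat_lit 0x10001000080012001a00190, nat_lit 0x101002020, nat_lit 1, nat_lit 4, nat_lit 0x48⟩ (.nil) (.nil)
def t14_6185 : Tr := .node ⟨nat_lit 6, nat_lit 0x2000080030, nat_lit 0x1011, nat_lit 5, nat_lit 4, nat_lit 0x47⟩ (.nil) (.nil)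
def t14_14377 : Tr := .node ⟨nat_lit 8, nat_lit 0x800020002000a000c0, nat_lit 0x1011030, nat_lit 2, nat_lit 4, nat_lit 0x48⟩ (.nil) (.nil)
def t14_1065 : Tr := .node ⟨nat_lit 6, nat_lit 0x2000200010, nat_lit 0x1102, nat_lit 2, nat_lit 4, nat_lit 0x47⟩ (.nil) (.nil)
def t14_9257 : Tr := .node ⟨nat_lit 6, nat_lit 0x20001000380034, nat_lit 0x2101, nat_lit 4, nat_lit 4, nat_lit 0x45⟩ (.nil) (.nil)
def t14_5161 : Tr := .node ⟨nat_lit 6, nat_lit 0x2000080030, nat_lit 0x230, nat_lit 0, nat_lit 4, nat_lit 0x46⟩ (.nil) (.nil)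
def t14_13353 : Tr := .node ⟨nat_lit 7, nat_lit 0x20001000600050, nat_lit 0x2400, nat_lit 1, nat_lit 4, nat_lit 0x47⟩ (.nil) (.nil)
def t14_3113 : Tr := .node ⟨nat_lit 8, nat_lit 0x400080002000a000c8, nat_lit 0x1011020, nat_lit 0, nat_lit 4, nat_lit 0x47⟩ (.nil) (.nil)
def t14_11305 : Tr := .node ⟨nat_lit 6, nat_lit 0x800300030, nat_lit 0x2020, nat_lit 5, nat_lit 4, nat_lit 0x47⟩ (.nil) (.nil)
def t14_7209 : Tr := .node ⟨nat_lit 7, nat_lit 0x40004800300060, nat_lit 0x22210, nat_lit 0, nat_lit 4, nat_lit 0x47⟩ (.nil) (.nil)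
def t14_15401 : Tr := .node ⟨nat_lit 7, nat_lit 0x40004000200020, nat_lit 0x11010, nat_lit 0xc, nat_lit 4, nat_lit 0x4a⟩ (.nil) (.nil)
def t14_553 : Tr := .node ⟨nat_lit 5, nat_lit 0x180018, nat_lit 0x122, nat_lit 3, nat_lit 4, nat_lit 0x45⟩ (.nil) (.nil)
def t14_8745 : Tr := .node ⟨nat_lit 9, nat_lit 0x4001000100008001100190, nat_lit 0x10013, nat_lit 3, nat_lit 4, nat_lit 0x48⟩ (.nil) (.nil)
def t14_4649 : Tr := .node ⟨nat_lit 7, nat_lit 0x4000180060, nat_lit 0x1011021, nat_lit 0, nat_lit 4, nat_lit 0x48⟩ (.nil) (.nil)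
def t14_12841 : Tr := .node ⟨nat_lit 5, nat_lit 0x140018, nat_lit 0x2100, nat_lit 3, nat_lit 4, nat_lit 0x46⟩ (.nil) (.nil)
def t14_2601 : Tr := .node ⟨nat_lit 8, nat_lit 0x8000800040004800a000e0, nat_lit 0x10102101, nat_lit 0, nat_lit 4, nat_lit 0x47⟩ (.nil) (.nil)
def t14_10793 : Tr := .node ⟨nat_lit 0xa, nat_lit 0x80020001000100010001100220, nat_lit 0x1000012010, nat_lit 2, nat_lit 4, nat_lit 0x4a⟩ (.nil) (.nil)
def t14_6697 : Tr := .node ⟨nat_lit 8, nat_lit 0x800080008800c0, nat_lit 0x111110, nat_lit 1, nat_lit 4, nat_lit 0x49⟩ (.nil) (.nil)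
def t14_14889 : Tr := .node ⟨nat_lit 6, nat_lit 0x20002800280038, nat_lit 0x101111, nat_lit 7, nat_lit 4, nat_lit 0x47⟩ (.nil) (.nil)
def t14_1577 : Tr := .node ⟨nat_lit 6, nat_lit 0x2000080030, nat_lit 0x10220, nat_lit 0, nat_lit 4, nat_lit 0x46⟩ (.nil) (.nil)
def t14_9769 : Tr := .node ⟨nat_lit 8, nat_lit 0x80008800c000c0, nat_lit 0x111220, nat_lit 0, nat_lit 4, nat_lit 0x48⟩ (.nil) (.nil)
def t14_5673 : Tr := .node ⟨nat_lit 8, nat_lit 0x200080001000c0, nat_lit 0x1010202, nat_lit 1, nat_lit 4, nat_lit 0x49⟩ (.nil) (.nil)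
def t14_13865 : Tr := .node ⟨nat_lit 8, nat_lit 0x400080008000200088, nat_lit 0x2020, nat_lit 1, nat_lit 4, nat_lit 0x48⟩ (.nil) (.nil)
def t14_3625 : Tr := .node ⟨nat_lit 6, nat_lit 0x800280030, nat_lit 0x21110, nat_lit 2, nat_lit 4, nat_lit 0x47⟩ (.nil) (.nil)
def t14_11817 : Tr := .node ⟨nat_lit 5, nat_lit 0x40018, nat_lit 0x10123, nat_lit 3, nat_lit 4, nat_lit 0x47⟩ (.nil) (.nil)
def t14_7721 : Tr := .node ⟨nat_lit 1, nat_lit 0, nat_lit 4, nat_lit 0xa, nat_lit 3, nat_lit 0x45⟩ (.nil) (.nil)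
def t9_41 : Tr := .node ⟨nat_lit 3, nat_lit 4, nat_lit 0x311, nat_lit 5, nat_lit 3, nat_lit 0x46⟩ (.node ⟨nat_lit 6, nat_lit 0x80030, nat_lit 0x211302, nat_lit 1, nat_lit 4, nat_lit 0x4a⟩ (.node ⟨nat_lit 7, nat_lit 0x6000500050, nat_lit 0x3120, nat_lit 3, nat_lit 4, nat_lit 0x48⟩ (.node ⟨nat_lit 6, nat_lit 0x1000200034, nat_lit 0x112001, nat_lit 2, nat_lit 4, nat_lit 0x47⟩ (.node ⟨nat_lit 7, nat_lit 0x20005000680068, nat_lit 0x220310, nat_lit 1, nat_lit 4, nat_lit 0x47⟩ (t14_41) (t14_8233)) (.node ⟨nat_lit 5, nat_lit 0x40018, nat_lit 0x10200, nat_lit 4, nat_lit 4, nat_lit 0x47⟩ (t14_4137) (t14_12329))) (.node ⟨nat_lit 5, nat_lit 0x40018, nat_lit 0x22022, nat_lit 4, nat_lit 4, nat_lit 0x48⟩ (.node ⟨nat_lit 6, nat_lit 0x2000100030, nat_lit 0x11213, nat_lit 3, nat_lit 4, nat_lit 0x48⟩ (t14_2089) (t14_10281)) (.node ⟨nat_lit 6, nat_lit 0x20002000100030,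 nat_lit 0x12100, nat_lit 0, nat_lit 3, nat_lit 0x45⟩ (t14_6185) (t14_14377)))) (.node ⟨nat_lit 6, nat_lit 0x800280030, nat_lit 0x20312, nat_lit 1, nat_lit 4, nat_lit 0x47⟩ (.node ⟨nat_lit 6, nat_lit 0x1000200030, nat_lit 0x122111, nat_lit 1, nat_lit 4, nat_lit 0x49⟩ (.node ⟨nat_lit 5, nat_lit 0x800100018, nat_lit 0x11321, nat_lit 5, nat_lit 4, nat_lit 0x48⟩ (t14_1065) (t14_9257)) (.node ⟨nat_lit 6, nat_lit 0x2000300030, nat_lit 0x101221, nat_lit 5, nat_lit 4, nat_lit 0x48⟩ (t14_5161) (t14_13353))) (.node ⟨nat_lit 4, nat_lit 8, nat_lit 0x2210, nat_lit 8, nat_lit 4, nat_lit 0x49⟩ (.node ⟨nat_lit 6, nat_lit 0x800100020, nat_lit 0x111000, nat_lit 4, nat_lit 4, nat_lit 0x48⟩ (t14_3113) (t14_11305)) (.node ⟨nat_lit 7, nat_lit 0x10002000500060, nat_lit 0x1002022, nat_lit 0, nat_lit 4, nat_lit 0x47⟩ (t14_7209) (t14_15401))))) (.node ⟨nat_lit 7, nat_lit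 0x400040, nat_lit 0x321110, nat_lit 2, nat_lit 4, nat_lit 0x4c⟩ (.node ⟨nat_lit 5, nat_lit 0x10, nat_lit 0x22111, nat_lit 5, nat_lit 4, nat_lit 0x4a⟩ (.node ⟨nat_lit 5, nat_lit 0x140018, nat_lit 0x1221, nat_lit 2, nat_lit 4, nat_lit 0x46⟩ (.node ⟨nat_lit 7, nat_lit 0x400040005000580058, nat_lit 0x200021, nat_lit 1, nat_lit 4, nat_lit 0x45⟩ (t14_553) (t14_8745)) (.node ⟨nat_lit 7, nat_lit 0x20001000400060, nat_lit 0x112001, nat_lit 1, nat_lit 4, nat_lit 0x48⟩ (t14_4649) (t14_12841))) (.node ⟨nat_lit 7, nat_lit 0x40004800600030, nat_lit 0x100012, nat_lit 2, nat_lit 4, nat_lit 0x46⟩ (.node ⟨nat_lit 6, nat_lit 0x300038, nat_lit 0x111203, nat_lit 1, nat_lit 4, nat_lit 0x48⟩ (t14_2601) (t14_10793)) (.node ⟨nat_lit 7, nat_lit 0x2000500060, nat_lit 0x102102, nat_lit 1, nat_lit 4, nat_lit 0x48⟩ (t14_6697) (t14_14889)))) (.node ⟨nat_lit 5, nat_lit 0x100010,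 nat_lit 0x12200, nat_lit 0, nat_lit 3, nat_lit 0x47⟩ (.node ⟨nat_lit 6, nat_lit 0x2000100030, nat_lit 0x22020, nat_lit 0, nat_lit 3, nat_lit 0x47⟩ (.node ⟨nat_lit 6, nat_lit 0x300038, nat_lit 0x1123, nat_lit 1, nat_lit 4, nat_lit 0x46⟩ (t14_1577) (t14_9769)) (.node ⟨nat_lit 8, nat_lit 0x40008000840060, nat_lit 0x11122001, nat_lit 0, nat_lit 4, nat_lit 0x4a⟩ (t14_5673) (t14_13865))) (.node ⟨nat_lit 6, nat_lit 0x800080030, nat_lit 0x200112, nat_lit 1, nat_lit 4, nat_lit 0x47⟩ (.node ⟨nat_lit 4, nat_lit 0x8000c, nat_lit 0x1010, nat_lit 3, nat_lit 4, nat_lit 0x44⟩ (t14_3625) (t14_11817)) (.node ⟨nat_lit 7, nat_lit 0x400040002000240050, nat_lit 0x1112200, nat_lit 1, nat_lit 4, nat_lit 0x48⟩ (t14_7721) (.nil)))))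
def t14_297 : Tr := .node ⟨nat_lit 8, nat_lit 0xa0006000c0, nat_lit 0x1021211, nat_lit 0, nat_lit 4, nat_lit 0x49⟩ (.nil) (.nil)
def t14_8489 : Tr := .node ⟨nat_lit 7, nat_lit 0x40002000480060, nat_lit 0x12031, nat_lit 3, nat_lit 4, nat_lit 0x48⟩ (.nil) (.nil)
def t14_4393 : Tr := .node ⟨nat_lit 9, nat_lit 0x10001000080004001100120, nat_lit 0x11111101, nat_lit 0, nat_lit 4, nat_lit 0x49⟩ (.nil) (.nil)
def t14_12585 : Tr := .node ⟨nat_lit 7, nat_lit 0x20005000680070, nat_lit 0x11003, nat_lit 1, nat_lit 4, nat_lit 0x45⟩ (.nil) (.nil)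
def t14_2345 : Tr := .node ⟨nat_lit 8, nat_lit 0x80004000a000a000e000e0, nat_lit 0x20021010, nat_lit 1, nat_lit 4, nat_lit 0x47⟩ (.nil) (.nil)
def t14_10537 : Tr := .node ⟨nat_lit 7, nat_lit 0x20003000500060, nat_lit 0x3102, nat_lit 0, nat_lit 4, nat_lit 0x46⟩ (.nil) (.nil)
def t14_6441 : Tr := .node ⟨nat_lit 7, nat_lit 0x40004000200048, nat_lit 0x110010, nat_lit 7, nat_lit 4, nat_lit 0x49⟩ (.nil) (.nil)
def t14_14633 : Tr := .node ⟨nat_lit 8, nat_lit 0x8000800080004000a000a0, nat_lit 0x1111111, nat_lit 3, nat_lit 4, nat_lit 0x49⟩ (.nil) (.nil)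
def t14_1321 : Tr := .node ⟨nat_lit 8, nat_lit 0x80008000800040004000a0, nat_lit 0x110211, nat_lit 1, nat_lit 4, nat_lit 0x48⟩ (.nil) (.nil)
def t14_9513 : Tr := .node ⟨nat_lit 9, nat_lit 0x80008001000100011000c000a0, nat_lit 0x11100010, nat_lit 1, nat_lit 4, nat_lit 0x48⟩ (.nil) (.nil)
def t14_5417 : Tr := .node ⟨nat_lit 6, nat_lit 0x200022, nat_lit 0x11122, nat_lit 5, nat_lit 4, nat_lit 0x49⟩ (.nil) (.nil)
def t14_13609 : Tr := .node ⟨nat_lit 6, nat_lit 0x20001000280030, nat_lit 0x1002, nat_lit 6, nat_lit 4, nat_lit 0x46⟩ (.nil) (.nil)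
def t14_3369 : Tr := .node ⟨nat_lit 7, nat_lit 0x5000600060, nat_lit 0x1002210, nat_lit 3, nat_lit 4, nat_lit 0x48⟩ (.nil) (.nil)
def t14_11561 : Tr := .node ⟨nat_lit 8, nat_lit 0x20008000c000c0, nat_lit 0x1010210, nat_lit 1, nat_lit 4, nat_lit 0x49⟩ (.nil) (.nil)
def t14_7465 : Tr := .node ⟨nat_lit 8, nat_lit 0x80008400c0, nat_lit 0x10111001, nat_lit 1, nat_lit 4, nat_lit 0x4a⟩ (.nil) (.nil)
def t14_809 : Tr := .node ⟨nat_lit 7, nat_lit 0x4000400060, nat_lit 0x121301, nat_lit 0, nat_lit 4, nat_lit 0x4a⟩ (.nil) (.nil)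
def t14_9001 : Tr := .node ⟨nat_lit 8, nat_lit 0x800080004000a0009000c0, nat_lit 0x1111002, nat_lit 2, nat_lit 4, nat_lit 0x48⟩ (.nil) (.nil)
def t14_4905 : Tr := .node ⟨nat_lit 7, nat_lit 0x200040, nat_lit 0x1122100, nat_lit 3, nat_lit 4, nat_lit 0x4c⟩ (.nil) (.nil)
def t14_13097 : Tr := .node ⟨nat_lit 6, nat_lit 0x1000280034, nat_lit 0x320, nat_lit 3, nat_lit 4, nat_lit 0x46⟩ (.nil) (.nil)
def t14_2857 : Tr := .node ⟨nat_lit 6, nat_lit 0x30, nat_lit 0x101102, nat_lit 0, nat_lit 4, nat_lit 0x48⟩ (.nil) (.nil)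
def t14_11049 : Tr := .node ⟨nat_lit 7, nat_lit 0x6000180018, nat_lit 0x1011120, nat_lit 1, nat_lit 4, nat_lit 0x48⟩ (.nil) (.nil)
def t14_6953 : Tr := .node ⟨nat_lit 8, nat_lit 0x40008000900090006000c0, nat_lit 0x21101001, nat_lit 1, nat_lit 4, nat_lit 0x48⟩ (.nil) (.nil)
def t14_15145 : Tr := .node ⟨nat_lit 8, nat_lit 0x8000400040004000a000a0, nat_lit 0x10111110, nat_lit 0, nat_lit 4, nat_lit 0x48⟩ (.nil) (.nil)
def t14_1833 : Tr := .node ⟨nat_lit 6, nat_lit 0x20002000240028, nat_lit 0x21100, nat_lit 4, nat_lit 4, nat_lit 0x47⟩ (.nil) (.nil)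
def t14_10025 : Tr := .node ⟨nat_lit 4, nat_lit 0xc000c, nat_lit 0x1020, nat_lit 8, nat_lit 4, nat_lit 0x45⟩ (.nil) (.nil)
def t14_5929 : Tr := .node ⟨nat_lit 7, nat_lit 0x4000600060, nat_lit 0x11230, nat_lit 0, nat_lit 4, nat_lit 0x48⟩ (.nil) (.nil)
def t14_14121 : Tr := .node ⟨nat_lit 6, nat_lit 0x10001000100020, nat_lit 0x1101, nat_lit 4, nat_lit 4, nat_lit 0x47⟩ (.nil) (.nil)
def t14_3881 : Tr := .node ⟨nat_lit 7, nat_lit 0x40001000500068, nat_lit 0x202001, nat_lit 1, nat_lit 4, nat_lit 0x47⟩ (.nil) (.nil)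
def t14_12073 : Tr := .node ⟨nat_lit 9, nat_lit 0x1000080008001400190019001a0, nat_lit 0x11100210, nat_lit 0, nat_lit 4, nat_lit 0x46⟩ (.nil) (.nil)
def t14_7977 : Tr := .node ⟨nat_lit 7, nat_lit 0x20004000400048004c, nat_lit 0x111112, nat_lit 4, nat_lit 4, nat_lit 0x47⟩ (.nil) (.nil)
def t9_297 : Tr := .node ⟨nat_lit 5, nat_lit 0x100010, nat_lit 0x3221, nat_lit 3, nat_lit 4, nat_lit 0x49⟩ (.node ⟨nat_lit 5, nat_lit 0x100008, nat_lit 0x3232, nat_lit 0, nat_lit 4, nat_lit 0x49⟩ (.node ⟨nat_lit 6, nat_lit 0x200020, nat_lit 0x31110, nat_lit 8, nat_lit 4, nat_lit 0x4b⟩ (.node ⟨nat_lit 7, nat_lit 0x40002000480068, nat_lit 0x1011022, nat_lit 0, nat_lit 4, nat_lit 0x47⟩ (.node ⟨nat_lit 7, nat_lit 0x40002000200048, nat_lit 0x1220210, nat_lit 0, nat_lit 4, nat_lit 0x4a⟩ (t14_297) (t14_8489)) (.node ⟨nat_lit 7, nat_lit 0x40004000200060, nat_lit 0x111103,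 nat_lit 3, nat_lit 4, nat_lit 0x49⟩ (t14_4393) (t14_12585))) (.node ⟨nat_lit 6, nat_lit 0x280030, nat_lit 0x220122, nat_lit 2, nat_lit 4, nat_lit 0x49⟩ (.node ⟨nat_lit 7, nat_lit 0x10006000600050, nat_lit 0x13213, nat_lit 0, nat_lit 4, nat_lit 0x47⟩ (t14_2345) (t14_10537)) (.node ⟨nat_lit 7, nat_lit 0x20004000600060, nat_lit 0x13310, nat_lit 0, nat_lit 4, nat_lit 0x48⟩ (t14_6441) (t14_14633)))) (.node ⟨nat_lit 5, nat_lit 0x180018, nat_lit 0x11110, nat_lit 1, nat_lit 3, nat_lit 0x45⟩ (.node ⟨nat_lit 7, nat_lit 0x4000180060, nat_lit 0x221022, nat_lit 0, nat_lit 4, nat_lit 0x49⟩ (.node ⟨nat_lit 7, nat_lit 0x40004000200010, nat_lit 0x111003, nat_lit 0, nat_lit 3, nat_lit 0x47⟩ (t14_1321) (t14_9513)) (.node ⟨nat_lit 5, nat_lit 0x1000100018, nat_lit 0x11222, nat_lit 4, nat_lit 3, nat_lit 0x46⟩ (t14_5417) (t14_13609))) (.node ⟨nat_lit 5, nat_lit 0x100010,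 nat_lit 0x2220, nat_lit 3, nat_lit 3, nat_lit 0x47⟩ (.node ⟨nat_lit 5, nat_lit 0x1000100014, nat_lit 0x12301, nat_lit 5, nat_lit 4, nat_lit 0x49⟩ (t14_3369) (t14_11561)) (.node ⟨nat_lit 7, nat_lit 0x800500060, nat_lit 0x1111021, nat_lit 3, nat_lit 4, nat_lit 0x49⟩ (t14_7465) (.nil))))) (.node ⟨nat_lit 6, nat_lit 0x200010, nat_lit 0x13101, nat_lit 4, nat_lit 4, nat_lit 0x4a⟩ (.node ⟨nat_lit 4, nat_lit 0x80004, nat_lit 0x2013, nat_lit 2, nat_lit 3, nat_lit 0x45⟩ (.node ⟨nat_lit 2, nat_lit 0, nat_lit 0x11, nat_lit 9, nat_lit 4, nat_lit 0x44⟩ (.node ⟨nat_lit 7, nat_lit 0x4000400020, nat_lit 0x222200, nat_lit 0, nat_lit 4, nat_lit 0x4b⟩ (t14_809) (t14_9001)) (.node ⟨nat_lit 7, nat_lit 0x4000100060, nat_lit 0x1121022, nat_lit 0, nat_lit 4, nat_lit 0x4a⟩ (t14_4905) (t14_13097))) (.node ⟨nat_lit 5, nat_lit 0x80010, nat_lit 0x11110, nat_lit 0, nat_lit 4,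 nat_lit 0x46⟩ (.node ⟨nat_lit 7, nat_lit 0x4000440070, nat_lit 0x211113, nat_lit 0, nat_lit 4, nat_lit 0x48⟩ (t14_2857) (t14_11049)) (.node ⟨nat_lit 7, nat_lit 0x200020004000400040, nat_lit 0x132110, nat_lit 0, nat_lit 3, nat_lit 0x47⟩ (t14_6953) (t14_15145)))) (.node ⟨nat_lit 5, nat_lit 0x800080010, nat_lit 0x11210, nat_lit 4, nat_lit 3, nat_lit 0x46⟩ (.node ⟨nat_lit 6, nat_lit 0x3000300028, nat_lit 0x12211, nat_lit 3, nat_lit 4, nat_lit 0x47⟩ (.node ⟨nat_lit 7, nat_lit 0x4000400060, nat_lit 0x111113, nat_lit 0, nat_lit 4, nat_lit 0x49⟩ (t14_1833) (t14_10025)) (.node ⟨nat_lit 7, nat_lit 0x200020004000440070, nat_lit 0x2002102, nat_lit 1, nat_lit 4, nat_lit 0x47⟩ (t14_5929) (t14_14121))) (.node ⟨nat_lit 5, nat_lit 0x100018, nat_lit 0x1230, nat_lit 2, nat_lit 3, nat_lit 0x46⟩ (.node ⟨nat_lit 5, nat_lit 0x1800180018, nat_lit 0x300, nat_lit 2, nat_lit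 3, nat_lit 0x43⟩ (t14_3881) (t14_12073)) (.node ⟨nat_lit 7, nat_lit 0x10002000400060, nat_lit 0x1000121, nat_lit 3, nat_lit 4, nat_lit 0x48⟩ (t14_7977) (.nil)))))
def t14_169 : Tr := .node ⟨nat_lit 6, nat_lit 0x200030, nat_lit 0x13111, nat_lit 2, nat_lit 4, nat_lit 0x49⟩ (.nil) (.nil)
def t14_8361 : Tr := .node ⟨nat_lit 7, nat_lit 0x4000440060, nat_lit 0x11240, nat_lit 1, nat_lit 4, nat_lit 0x49⟩ (.nil) (.nil)
def t14_4265 : Tr := .node ⟨nat_lit 8, nat_lit 0x8000c000a0, nat_lit 0x22110, nat_lit 1, nat_lit 4, nat_lit 0x4a⟩ (.nil) (.nil)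
def t14_12457 : Tr := .node ⟨nat_lit 8, nat_lit 0x400080002000c000d0, nat_lit 0x1101130, nat_lit 0, nat_lit 4, nat_lit 0x48⟩ (.nil) (.nil)
def t14_2217 : Tr := .node ⟨nat_lit 6, nat_lit 0x20002000200010, nat_lit 0x12220, nat_lit 4, nat_lit 4, nat_lit 0x49⟩ (.nil) (.nil)
def t14_10409 : Tr := .node ⟨nat_lit 7, nat_lit 0x10005000300060, nat_lit 0x1001201, nat_lit 0, nat_lit 4, nat_lit 0x46⟩ (.nil) (.nil)
def t14_6313 : Tr := .node ⟨nat_lit 6, nat_lit 0x2000100010, nat_lit 0x1031, nat_lit 2, nat_lit 4, nat_lit 0x48⟩ (.nil) (.nil)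
def t14_14505 : Tr := .node ⟨nat_lit 9, nat_lit 0x20014001400180, nat_lit 0x10010201, nat_lit 1, nat_lit 4, nat_lit 0x49⟩ (.nil) (.nil)
def t14_1193 : Tr := .node ⟨nat_lit 5, nat_lit 0, nat_lit 0x21000, nat_lit 0, nat_lit 4, nat_lit 0x47⟩ (.nil) (.nil)
def t14_9385 : Tr := .node ⟨nat_lit 5, nat_lit 0x10001000100018, nat_lit 0x1221, nat_lit 0xb, nat_lit 4, nat_lit 0x48⟩ (.nil) (.nil)
def t14_5289 : Tr := .node ⟨nat_lit 6, nat_lit 0x1000100020, nat_lit 0x122001, nat_lit 0, nat_lit 3, nat_lit 0x48⟩ (.nil) (.nil)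
def t14_13481 : Tr := .node ⟨nat_lit 6, nat_lit 0x1000200022, nat_lit 0x2030, nat_lit 2, nat_lit 4, nat_lit 0x48⟩ (.nil) (.nil)
def t14_3241 : Tr := .node ⟨nat_lit 8, nat_lit 0x800040004000c0, nat_lit 0x110112, nat_lit 0, nat_lit 4, nat_lit 0x49⟩ (.nil) (.nil)
def t14_11433 : Tr := .node ⟨nat_lit 7, nat_lit 0x40002000480060, nat_lit 0x111000, nat_lit 0, nat_lit 4, nat_lit 0x47⟩ (.nil) (.nil)
def t14_7337 : Tr := .node ⟨nat_lit 6, nat_lit 0x2000100010, nat_lit 0x113011, nat_lit 4, nat_lit 4, nat_lit 0x4a⟩ (.nil) (.nil)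
def t14_15529 : Tr := .node ⟨nat_lit 8, nat_lit 0x800080, nat_lit 0x2111110, nat_lit 3, nat_lit 4, nat_lit 0x4d⟩ (.nil) (.nil)
def t14_681 : Tr := .node ⟨nat_lit 5, nat_lit 0x800100018, nat_lit 0x311, nat_lit 5, nat_lit 4, nat_lit 0x46⟩ (.nil) (.nil)
def t14_8873 : Tr := .node ⟨nat_lit 7, nat_lit 0x20004000400044, nat_lit 0x111101, nat_lit 2, nat_lit 4, nat_lit 0x48⟩ (.nil) (.nil)
def t14_4777 : Tr := .node ⟨nat_lit 7, nat_lit 0x10004000200060, nat_lit 0x100212, nat_lit 2, nat_lit 4, nat_lit 0x48⟩ (.nil) (.nil)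
def t14_12969 : Tr := .node ⟨nat_lit 4, nat_lit 0x80004, nat_lit 0x301, nat_lit 3, nat_lit 3, nat_lit 0x46⟩ (.nil) (.nil)
def t14_2729 : Tr := .node ⟨nat_lit 7, nat_lit 0x5000600060, nat_lit 0x12120, nat_lit 3, nat_lit 4, nat_lit 0x48⟩ (.nil) (.nil)
def t14_10921 : Tr := .node ⟨nat_lit 8, nat_lit 0x20002000c000c000a0, nat_lit 0x21202, nat_lit 0, nat_lit 4, nat_lit 0x47⟩ (.nil) (.nil)
def t14_6825 : Tr := .node ⟨nat_lit 6, nat_lit 0x200020, nat_lit 0x11120, nat_lit 6, nat_lit 4, nat_lit 0x4a⟩ (.nil) (.nil)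
def t14_15017 : Tr := .node ⟨nat_lit 8, nat_lit 0x8000800090009000c0, nat_lit 0x1110111, nat_lit 4, nat_lit 4, nat_lit 0x49⟩ (.nil) (.nil)
def t14_1705 : Tr := .node ⟨nat_lit 7, nat_lit 0x40002000200070, nat_lit 0x12203, nat_lit 0, nat_lit 4, nat_lit 0x47⟩ (.nil) (.nil)
def t14_9897 : Tr := .node ⟨nat_lit 5, nat_lit 0x100010, nat_lit 0x2120, nat_lit 7, nat_lit 3, nat_lit 0x47⟩ (.nil) (.nil)
def t14_5801 : Tr := .node ⟨nat_lit 8, nat_lit 0x20008000c0, nat_lit 0x1011021, nat_lit 1, nat_lit 4, nat_lit 0x4a⟩ (.nil) (.nil)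
def t14_13993 : Tr := .node ⟨nat_lit 6, nat_lit 0x2000100010, nat_lit 0x2220, nat_lit 3, nat_lit 4, nat_lit 0x48⟩ (.nil) (.nil)
def t14_3753 : Tr := .node ⟨nat_lit 6, nat_lit 0x1000280030, nat_lit 0x112100, nat_lit 0, nat_lit 3, nat_lit 0x46⟩ (.nil) (.nil)
def t14_11945 : Tr := .node ⟨nat_lit 6, nat_lit 0x2000100008, nat_lit 0x13, nat_lit 3, nat_lit 4, nat_lit 0x47⟩ (.nil) (.nil)
def t14_7849 : Tr := .node ⟨nat_lit 6, nat_lit 0x1000200008, nat_lit 0x111100, nat_lit 3, nat_lit 3, nat_lit 0x47⟩ (.nil) (.nil)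
def t9_169 : Tr := .node ⟨nat_lit 4, nat_lit 0, nat_lit 0x3222, nat_lit 3, nat_lit 4, nat_lit 0x4a⟩ (.node ⟨nat_lit 5, nat_lit 0x100018, nat_lit 0x10321, nat_lit 3, nat_lit 4, nat_lit 0x48⟩ (.node ⟨nat_lit 4, nat_lit 0xc, nat_lit 0x10, nat_lit 1, nat_lit 3, nat_lit 0x43⟩ (.node ⟨nat_lit 6, nat_lit 0x1000200020, nat_lit 0x2010, nat_lit 2, nat_lit 4, nat_lit 0x47⟩ (.node ⟨nat_lit 7, nat_lit 0x40001000600060, nat_lit 0x22311, nat_lit 0, nat_lit 4, nat_lit 0x48⟩ (t14_169) (t14_8361)) (.node ⟨nat_lit 5, nat_lit 0x800100010, nat_lit 0x10200, nat_lit 4, nat_lit 4, nat_lit 0x46⟩ (t14_4265) (t14_12457))) (.node ⟨nat_lit 6, nat_lit 0x800100020, nat_lit 0x122320, nat_lit 0, nat_lit 4, nat_lit 0x4a⟩ (.node ⟨nat_lit 5, nat_lit 0x180014, nat_lit 0x103, nat_lit 3, nat_lit 4, nat_lit 0x45⟩ (t14_2217) (t14_10409)) (.node ⟨nat_lit 5, nat_lit 0x800100018, nat_lit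 0x10222, nat_lit 6, nat_lit 4, nat_lit 0x47⟩ (t14_6313) (t14_14505)))) (.node ⟨nat_lit 5, nat_lit 0x10, nat_lit 0x21111, nat_lit 0, nat_lit 4, nat_lit 0x48⟩ (.node ⟨nat_lit 6, nat_lit 0x1000280034, nat_lit 0x211122, nat_lit 0, nat_lit 4, nat_lit 0x47⟩ (.node ⟨nat_lit 6, nat_lit 0x2000080030, nat_lit 0x11042, nat_lit 0, nat_lit 4, nat_lit 0x48⟩ (t14_1193) (t14_9385)) (.node ⟨nat_lit 7, nat_lit 0x1000500060, nat_lit 0x1111221, nat_lit 0, nat_lit 4, nat_lit 0x49⟩ (t14_5289) (t14_13481))) (.node ⟨nat_lit 6, nat_lit 0x10002000200024, nat_lit 0x102020, nat_lit 3, nat_lit 4, nat_lit 0x47⟩ (.node ⟨nat_lit 6, nat_lit 0x800300028, nat_lit 0x101013, nat_lit 6, nat_lit 4, nat_lit 0x48⟩ (t14_3241) (t14_11433)) (.node ⟨nat_lit 8, nat_lit 0x800040009000d000c8, nat_lit 0x11101002, nat_lit 0, nat_lit 4, nat_lit 0x47⟩ (t14_7337) (t14_15529))))) (.node ⟨nat_lit 7,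 nat_lit 0x2000500060, nat_lit 0x131120, nat_lit 0, nat_lit 4, nat_lit 0x49⟩ (.node ⟨nat_lit 6, nat_lit 0x200038, nat_lit 0x121112, nat_lit 0, nat_lit 4, nat_lit 0x48⟩ (.node ⟨nat_lit 7, nat_lit 0x2000400042, nat_lit 0x21011, nat_lit 0, nat_lit 4, nat_lit 0x48⟩ (.node ⟨nat_lit 4, nat_lit 0x8000c, nat_lit 0x2113, nat_lit 4, nat_lit 4, nat_lit 0x47⟩ (t14_681) (t14_8873)) (.node ⟨nat_lit 7, nat_lit 0x400040007000700068, nat_lit 0x1002210, nat_lit 3, nat_lit 4, nat_lit 0x46⟩ (t14_4777) (t14_12969))) (.node ⟨nat_lit 5, nat_lit 0x800100018, nat_lit 0x1111, nat_lit 2, nat_lit 4, nat_lit 0x45⟩ (.node ⟨nat_lit 5, nat_lit 0x800080010, nat_lit 0x21302, nat_lit 2, nat_lit 3, nat_lit 0x47⟩ (t14_2729) (t14_10921)) (.node ⟨nat_lit 7, nat_lit 0x400020002000500068, nat_lit 0x1110122, nat_lit 2, nat_lit 4, nat_lit 0x47⟩ (t14_6825) (t14_15017)))) (.node ⟨nat_lit 5,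 nat_lit 0x100018, nat_lit 0x11131, nat_lit 4, nat_lit 4, nat_lit 0x48⟩ (.node ⟨nat_lit 6, nat_lit 0x2000200030, nat_lit 0x22111, nat_lit 1, nat_lit 3, nat_lit 0x47⟩ (.node ⟨nat_lit 6, nat_lit 0x300028, nat_lit 0x1114, nat_lit 1, nat_lit 4, nat_lit 0x47⟩ (t14_1705) (t14_9897)) (.node ⟨nat_lit 8, nat_lit 0x8000c000a0, nat_lit 0x22200, nat_lit 1, nat_lit 4, nat_lit 0x4a⟩ (t14_5801) (t14_13993))) (.node ⟨nat_lit 6, nat_lit 0x300030, nat_lit 0x2010, nat_lit 0, nat_lit 4, nat_lit 0x46⟩ (.node ⟨nat_lit 6, nat_lit 0x280030, nat_lit 0x100103, nat_lit 2, nat_lit 4, nat_lit 0x47⟩ (t14_3753) (t14_11945)) (.node ⟨nat_lit 7, nat_lit 0x40001000600060, nat_lit 0x1012121, nat_lit 0, nat_lit 4, nat_lit 0x48⟩ (t14_7849) (.nil)))))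
def t14_425 : Tr := .node ⟨nat_lit 7, nat_lit 0x4000400060, nat_lit 0x1011210, nat_lit 3, nat_lit 4, nat_lit 0x4a⟩ (.nil) (.nil)
def t14_8617 : Tr := .node ⟨nat_lit 5, nat_lit 0x100018001c, nat_lit 0x120, nat_lit 4, nat_lit 4, nat_lit 0x44⟩ (.nil) (.nil)
def t14_4521 : Tr := .node ⟨nat_lit 7, nat_lit 0x4000440044, nat_lit 0x1221121, nat_lit 0, nat_lit 4, nat_lit 0x4a⟩ (.nil) (.nil)
def t14_12713 : Tr := .node ⟨nat_lit 7, nat_lit 0x1000400060, nat_lit 0x1001030, nat_lit 1, nat_lit 4, nat_lit 0x49⟩ (.nil) (.nil)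
def t14_2473 : Tr := .node ⟨nat_lit 6, nat_lit 0x2000200030, nat_lit 0x12410, nat_lit 0, nat_lit 3, nat_lit 0x47⟩ (.nil) (.nil)
def t14_10665 : Tr := .node ⟨nat_lit 7, nat_lit 0x800600050, nat_lit 0x10010, nat_lit 0, nat_lit 4, nat_lit 0x46⟩ (.nil) (.nil)
def t14_6569 : Tr := .node ⟨nat_lit 8, nat_lit 0x200020001000c0, nat_lit 0x10011011, nat_lit 1, nat_lit 4, nat_lit 0x49⟩ (.nil) (.nil)
def t14_14761 : Tr := .node ⟨nat_lit 8, nat_lit 0x3000a000c000c0, nat_lit 0x101211, nat_lit 2, nat_lit 4, nat_lit 0x47⟩ (.nil) (.nil)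
def t14_1449 : Tr := .node ⟨nat_lit 6, nat_lit 0x3000300030, nat_lit 0x101211, nat_lit 0, nat_lit 3, nat_lit 0x45⟩ (.nil) (.nil)
def t14_9641 : Tr := .node ⟨nat_lit 7, nat_lit 0x40001000600070, nat_lit 0x100122, nat_lit 1, nat_lit 4, nat_lit 0x46⟩ (.nil) (.nil)
def t14_5545 : Tr := .node ⟨nat_lit 6, nat_lit 0x2000200024, nat_lit 0x11311, nat_lit 3, nat_lit 4, nat_lit 0x49⟩ (.nil) (.nil)
def t14_13737 : Tr := .node ⟨nat_lit 7, nat_lit 0x40004800300068, nat_lit 0x1102, nat_lit 1, nat_lit 4, nat_lit 0x45⟩ (.nil) (.nil)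
def t14_3497 : Tr := .node ⟨nat_lit 7, nat_lit 0x20002000400060, nat_lit 0x12001, nat_lit 0, nat_lit 3, nat_lit 0x46⟩ (.nil) (.nil)
def t14_11689 : Tr := .node ⟨nat_lit 7, nat_lit 0x400040006800680070, nat_lit 0x1010102, nat_lit 5, nat_lit 4, nat_lit 0x46⟩ (.nil) (.nil)
def t14_7593 : Tr := .node ⟨nat_lit 6, nat_lit 0x2000100030, nat_lit 0x11, nat_lit 0, nat_lit 4, nat_lit 0x45⟩ (.nil) (.nil)
def t14_937 : Tr := .node ⟨nat_lit 7, nat_lit 0x400020002000500060, nat_lit 0x1022211, nat_lit 1, nat_lit 4, nat_lit 0x48⟩ (.nil) (.nil)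
def t14_9129 : Tr := .node ⟨nat_lit 9, nat_lit 0x100010000800080012001400180, nat_lit 0x110102, nat_lit 3, nat_lit 4, nat_lit 0x48⟩ (.nil) (.nil)
def t14_5033 : Tr := .node ⟨nat_lit 7, nat_lit 0x20006000500070, nat_lit 0x12113, nat_lit 0, nat_lit 4, nat_lit 0x46⟩ (.nil) (.nil)
def t14_13225 : Tr := .node ⟨nat_lit 7, nat_lit 0x40002000200064, nat_lit 0x23000, nat_lit 2, nat_lit 4, nat_lit 0x48⟩ (.nil) (.nil)
def t14_2985 : Tr := .node ⟨nat_lit 6, nat_lit 0x2000080030, nat_lit 0x11222, nat_lit 0, nat_lit 4, nat_lit 0x47⟩ (.nil) (.nil)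
def t14_11177 : Tr := .node ⟨nat_lit 6, nat_lit 0x1000280034, nat_lit 0x12001, nat_lit 2, nat_lit 4, nat_lit 0x46⟩ (.nil) (.nil)
def t14_7081 : Tr := .node ⟨nat_lit 7, nat_lit 0x40002000480030, nat_lit 0x1010201, nat_lit 1, nat_lit 4, nat_lit 0x47⟩ (.nil) (.nil)
def t14_15273 : Tr := .node ⟨nat_lit 7, nat_lit 0x40004800300070, nat_lit 0x1102012, nat_lit 1, nat_lit 4, nat_lit 0x47⟩ (.nil) (.nil)
def t14_1961 : Tr := .node ⟨nat_lit 6, nat_lit 0x2800180030, nat_lit 0x20121, nat_lit 2, nat_lit 4, nat_lit 0x46⟩ (.nil) (.nil)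
def t14_10153 : Tr := .node ⟨nat_lit 6, nat_lit 0x800300030, nat_lit 0x310, nat_lit 1, nat_lit 4, nat_lit 0x45⟩ (.nil) (.nil)
def t14_6057 : Tr := .node ⟨nat_lit 9, nat_lit 0x1000110011001100180, nat_lit 0x12101101, nat_lit 0, nat_lit 4, nat_lit 0x49⟩ (.nil) (.nil)
def t14_14249 : Tr := .node ⟨nat_lit 7, nat_lit 0x400040002000200060, nat_lit 0x11101, nat_lit 0, nat_lit 3, nat_lit 0x45⟩ (.nil) (.nil)
def t14_4009 : Tr := .node ⟨nat_lit 8, nat_lit 0x400040008000d000d0, nat_lit 0x1111021, nat_lit 0, nat_lit 4, nat_lit 0x48⟩ (.nil) (.nil)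
def t14_12201 : Tr := .node ⟨nat_lit 8, nat_lit 0x80004000a000c0, nat_lit 0x111002, nat_lit 3, nat_lit 4, nat_lit 0x49⟩ (.nil) (.nil)
def t14_8105 : Tr := .node ⟨nat_lit 7, nat_lit 0x40004800300068, nat_lit 0x1000001, nat_lit 1, nat_lit 4, nat_lit 0x45⟩ (.nil) (.nil)
def t9_425 : Tr := .node ⟨nat_lit 6, nat_lit 0x100020, nat_lit 0x213111, nat_lit 2, nat_lit 4, nat_lit 0x4b⟩ (.node ⟨nat_lit 4, nat_lit 8, nat_lit 0x312, nat_lit 3, nat_lit 4, nat_lit 0x47⟩ (.node ⟨nat_lit 5, nat_lit 0x800100010, nat_lit 0x22220, nat_lit 0, nat_lit 3, nat_lit 0x47⟩ (.node ⟨nat_lit 5, nat_lit 0x800100010, nat_lit 0x211, nat_lit 0, nat_lit 3, nat_lit 0x44⟩ (.node ⟨nat_lit 7, nat_lit 0x6000180018, nat_lit 0x2000120, nat_lit 1, nat_lit 4, nat_lit 0x47⟩ (t14_425) (t14_8617)) (.node ⟨nat_lit 5, nat_lit 0x100018, nat_lit 0x2202, nat_lit 9, nat_lit 4, nat_lit 0x49⟩ (t14_4521)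 (t14_12713))) (.node ⟨nat_lit 3, nat_lit 0x40004, nat_lit 0x120, nat_lit 0xe, nat_lit 4, nat_lit 0x47⟩ (.node ⟨nat_lit 6, nat_lit 0x300030, nat_lit 0x101110, nat_lit 0, nat_lit 3, nat_lit 0x46⟩ (t14_2473) (t14_10665)) (.node ⟨nat_lit 6, nat_lit 0x2000200030, nat_lit 0x12221, nat_lit 4, nat_lit 4, nat_lit 0x49⟩ (t14_6569) (t14_14761)))) (.node ⟨nat_lit 6, nat_lit 0x1000280030, nat_lit 0x2012, nat_lit 1, nat_lit 4, nat_lit 0x46⟩ (.node ⟨nat_lit 6, nat_lit 0x2000200010, nat_lit 0x121211, nat_lit 4, nat_lit 4, nat_lit 0x4a⟩ (.node ⟨nat_lit 6, nat_lit 0x200030, nat_lit 0x1110, nat_lit 0, nat_lit 3, nat_lit 0x46⟩ (t14_1449) (t14_9641)) (.node ⟨nat_lit 5, nat_lit 0x100010, nat_lit 0x12121, nat_lit 8, nat_lit 4, nat_lit 0x4a⟩ (t14_5545) (t14_13737))) (.node ⟨nat_lit 6, nat_lit 0x10002000300034, nat_lit 0x102111, nat_lit 3, nat_lit 4, nat_lit 0x46⟩ (.node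 ⟨nat_lit 5, nat_lit 0x140018, nat_lit 0x1100, nat_lit 4, nat_lit 4, nat_lit 0x45⟩ (t14_3497) (t14_11689)) (.node ⟨nat_lit 7, nat_lit 0x4000100060, nat_lit 0x1111201, nat_lit 3, nat_lit 4, nat_lit 0x4a⟩ (t14_7593) (.nil))))) (.node ⟨nat_lit 7, nat_lit 0x6000600050, nat_lit 0x23101, nat_lit 1, nat_lit 4, nat_lit 0x48⟩ (.node ⟨nat_lit 6, nat_lit 0x80030, nat_lit 0x102211, nat_lit 1, nat_lit 4, nat_lit 0x49⟩ (.node ⟨nat_lit 6, nat_lit 0x2000200024, nat_lit 0x111111, nat_lit 5, nat_lit 4, nat_lit 0x49⟩ (.node ⟨nat_lit 8, nat_lit 0x80, nat_lit 0x21111110, nat_lit 0, nat_lit 4, nat_lit 0x4e⟩ (t14_937) (t14_9129)) (.node ⟨nat_lit 7, nat_lit 0x40002000480068, nat_lit 0x1022002, nat_lit 1, nat_lit 4, nat_lit 0x48⟩ (t14_5033) (t14_13225))) (.node ⟨nat_lit 6, nat_lit 0x800300030, nat_lit 0x111120, nat_lit 2, nat_lit 4, nat_lit 0x47⟩ (.node ⟨nat_lit 4, nat_lit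 0xc, nat_lit 0x1112, nat_lit 0xb, nat_lit 4, nat_lit 0x48⟩ (t14_2985) (t14_11177)) (.node ⟨nat_lit 8, nat_lit 0x8000200090009000c0, nat_lit 0x11101202, nat_lit 0, nat_lit 4, nat_lit 0x48⟩ (t14_7081) (t14_15273)))) (.node ⟨nat_lit 5, nat_lit 0x40018, nat_lit 0x20120, nat_lit 3, nat_lit 4, nat_lit 0x47⟩ (.node ⟨nat_lit 7, nat_lit 0x10004000440060, nat_lit 0x1200111, nat_lit 1, nat_lit 4, nat_lit 0x48⟩ (.node ⟨nat_lit 6, nat_lit 0x1000280030, nat_lit 0x101032, nat_lit 3, nat_lit 4, nat_lit 0x47⟩ (t14_1961) (t14_10153)) (.node ⟨nat_lit 7, nat_lit 0x40006800680068, nat_lit 0x2010200, nat_lit 1, nat_lit 4, nat_lit 0x46⟩ (t14_6057) (t14_14249))) (.node ⟨nat_lit 7, nat_lit 0x20004000400044, nat_lit 0x20120, nat_lit 0, nat_lit 4, nat_lit 0x48⟩ (.node ⟨nat_lit 6, nat_lit 0x2000280030, nat_lit 0x10002, nat_lit 3, nat_lit 4, nat_lit 0x46⟩ (t14_4009) (t14_12201))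 (.node ⟨nat_lit 6, nat_lit 0x20002000100030, nat_lit 0x111121, nat_lit 1, nat_lit 3, nat_lit 0x46⟩ (t14_8105) (.nil)))))
def t14_105 : Tr := .node ⟨nat_lit 7, nat_lit 0x2000400060, nat_lit 0x120111, nat_lit 1, nat_lit 4, nat_lit 0x49⟩ (.nil) (.nil)
def t14_8297 : Tr := .node ⟨nat_lit 7, nat_lit 0x10002000500060, nat_lit 0x2200, nat_lit 1, nat_lit 4, nat_lit 0x46⟩ (.nil) (.nil)
def t14_4201 : Tr := .node ⟨nat_lit 9, nat_lit 0x800100010000c0011001c001a0, nat_lit 0x11211001, nat_lit 0, nat_lit 4, nat_lit 0x47⟩ (.nil) (.nil)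
def t14_12393 : Tr := .node ⟨nat_lit 7, nat_lit 0x20001000400062, nat_lit 0x1001100, nat_lit 0, nat_lit 4, nat_lit 0x46⟩ (.nil) (.nil)
def t14_2153 : Tr := .node ⟨nat_lit 5, nat_lit 0x1000080014, nat_lit 0x2202, nat_lit 5, nat_lit 4, nat_lit 0x47⟩ (.nil) (.nil)
def t14_10345 : Tr := .node ⟨nat_lit 6, nat_lit 0x1000280034, nat_lit 0x11102, nat_lit 2, nat_lit 4, nat_lit 0x46⟩ (.nil) (.nil)
def t14_6249 : Tr := .node ⟨nat_lit 4, nat_lit 0x8000c, nat_lit 0x1111, nat_lit 0xb, nat_lit 4, nat_lit 0x47⟩ (.nil) (.nil)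
def t14_14441 : Tr := .node ⟨nat_lit 7, nat_lit 0x400040002000200050, nat_lit 0x10211, nat_lit 3, nat_lit 4, nat_lit 0x47⟩ (.nil) (.nil)
def t14_1129 : Tr := .node ⟨nat_lit 6, nat_lit 0x2000240018, nat_lit 0x11201, nat_lit 3, nat_lit 4, nat_lit 0x47⟩ (.nil) (.nil)
def t14_9321 : Tr := .node ⟨nat_lit 6, nat_lit 0x2000080030, nat_lit 0x10211, nat_lit 0, nat_lit 4, nat_lit 0x46⟩ (.nil) (.nil)
def t14_5225 : Tr := .node ⟨nat_lit 9, nat_lit 0x10001000040004001200180, nat_lit 0x10201011, nat_lit 1, nat_lit 4, nat_lit 0x49⟩ (.nil) (.nil)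
def t14_13417 : Tr := .node ⟨nat_lit 8, nat_lit 0x800080004000900060, nat_lit 0x21300, nat_lit 0, nat_lit 4, nat_lit 0x48⟩ (.nil) (.nil)
def t14_3177 : Tr := .node ⟨nat_lit 8, nat_lit 0x400080008800c00060, nat_lit 0x10111021, nat_lit 0, nat_lit 4, nat_lit 0x48⟩ (.nil) (.nil)
def t14_11369 : Tr := .node ⟨nat_lit 5, nat_lit 0x100018, nat_lit 0x1200, nat_lit 4, nat_lit 3, nat_lit 0x46⟩ (.nil) (.nil)
def t14_7273 : Tr := .node ⟨nat_lit 7, nat_lit 0x10001000100060, nat_lit 0x2102001, nat_lit 1, nat_lit 4, nat_lit 0x49⟩ (.nil) (.nil)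
def t14_15465 : Tr := .node ⟨nat_lit 5, nat_lit 0x100010, nat_lit 0x1110, nat_lit 0x10, nat_lit 4, nat_lit 0x4a⟩ (.nil) (.nil)
def t14_617 : Tr := .node ⟨nat_lit 7, nat_lit 0x4000200060, nat_lit 0x21032, nat_lit 0, nat_lit 4, nat_lit 0x49⟩ (.nil) (.nil)
def t14_8809 : Tr := .node ⟨nat_lit 6, nat_lit 0x20002000280028, nat_lit 0x11041, nat_lit 5, nat_lit 4, nat_lit 0x48⟩ (.nil) (.nil)
def t14_4713 : Tr := .node ⟨nat_lit 6, nat_lit 0xc0030, nat_lit 0x111120, nat_lit 2, nat_lit 4, nat_lit 0x48⟩ (.nil) (.nil)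
def t14_12905 : Tr := .node ⟨nat_lit 7, nat_lit 0x40004000200020, nat_lit 0x2011000, nat_lit 1, nat_lit 3, nat_lit 0x48⟩ (.nil) (.nil)
def t14_2665 : Tr := .node ⟨nat_lit 5, nat_lit 0x18, nat_lit 0x204, nat_lit 0, nat_lit 4, nat_lit 0x46⟩ (.nil) (.nil)
def t14_10857 : Tr := .node ⟨nat_lit 9, nat_lit 0x1000080008000800140019001a0, nat_lit 0x2111002, nat_lit 0, nat_lit 4, nat_lit 0x47⟩ (.nil) (.nil)
def t14_6761 : Tr := .node ⟨nat_lit 6, nat_lit 0x80030, nat_lit 0x201120, nat_lit 2, nat_lit 4, nat_lit 0x49⟩ (.nil) (.nil)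
def t14_14953 : Tr := .node ⟨nat_lit 8, nat_lit 0x2000800080008800c0, nat_lit 0x1001111, nat_lit 1, nat_lit 4, nat_lit 0x48⟩ (.nil) (.nil)
def t14_1641 : Tr := .node ⟨nat_lit 6, nat_lit 0x2000100032, nat_lit 0x1220, nat_lit 1, nat_lit 4, nat_lit 0x46⟩ (.nil) (.nil)
def t14_9833 : Tr := .node ⟨nat_lit 8, nat_lit 0x400020006000c000a0, nat_lit 0x22200, nat_lit 0, nat_lit 4, nat_lit 0x47⟩ (.nil) (.nil)
def t14_5737 : Tr := .node ⟨nat_lit 8, nat_lit 0x2000a000c0, nat_lit 0x1011022, nat_lit 0, nat_lit 4, nat_lit 0x49⟩ (.nil) (.nil)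
def t14_13929 : Tr := .node ⟨nat_lit 7, nat_lit 0x1000180060, nat_lit 0x1202, nat_lit 0, nat_lit 4, nat_lit 0x47⟩ (.nil) (.nil)
def t14_3689 : Tr := .node ⟨nat_lit 7, nat_lit 0x20006000500068, nat_lit 0x211012, nat_lit 0, nat_lit 4, nat_lit 0x47⟩ (.nil) (.nil)
def t14_11881 : Tr := .node ⟨nat_lit 6, nat_lit 0x2000080030, nat_lit 0x10330, nat_lit 0, nat_lit 4, nat_lit 0x47⟩ (.nil) (.nil)
def t14_7785 : Tr := .node ⟨nat_lit 9, nat_lit 0x10000800040004001200180, nat_lit 0x201002, nat_lit 1, nat_lit 4, nat_lit 0x48⟩ (.nil) (.nil)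
def t9_105 : Tr := .node ⟨nat_lit 4, nat_lit 0xc, nat_lit 0x1111, nat_lit 3, nat_lit 3, nat_lit 0x45⟩ (.node ⟨nat_lit 4, nat_lit 0x80008, nat_lit 0x1322, nat_lit 7, nat_lit 4, nat_lit 0x49⟩ (.node ⟨nat_lit 7, nat_lit 0x40004800300030, nat_lit 0x3101020, nat_lit 0, nat_lit 4, nat_lit 0x48⟩ (.node ⟨nat_lit 5, nat_lit 0x80010001c, nat_lit 0x12011, nat_lit 3, nat_lit 4, nat_lit 0x46⟩ (.node ⟨nat_lit 8, nat_lit 0x80004000200010, nat_lit 0x120012, nat_lit 4, nat_lit 4, nat_lit 0x4b⟩ (t14_105) (t14_8297)) (.node ⟨nat_lit 6, nat_lit 0x2000080034, nat_lit 0x20002, nat_lit 0, nat_lit 4, nat_lit 0x45⟩ (t14_4201) (t14_12393))) (.node ⟨nat_lit 6, nat_lit 0x20001000100028, nat_lit 0x211220, nat_lit 0, nat_lit 4, nat_lit 0x48⟩ (.node ⟨nat_lit 6, nat_lit 0x1000280030, nat_lit 0x11011, nat_lit 1, nat_lit 3, nat_lit 0x45⟩ (t14_2153) (t14_10345)) (.node ⟨nat_lit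 6, nat_lit 0x80030, nat_lit 0x1222, nat_lit 0, nat_lit 4, nat_lit 0x48⟩ (t14_6249) (t14_14441)))) (.node ⟨nat_lit 6, nat_lit 0x200010, nat_lit 0x102202, nat_lit 0, nat_lit 4, nat_lit 0x49⟩ (.node ⟨nat_lit 7, nat_lit 0x400040, nat_lit 0x2111111, nat_lit 1, nat_lit 4, nat_lit 0x4c⟩ (.node ⟨nat_lit 8, nat_lit 0x800010002000c0, nat_lit 0x11103011, nat_lit 0, nat_lit 4, nat_lit 0x4a⟩ (t14_1129) (t14_9321)) (.node ⟨nat_lit 6, nat_lit 0x2000300030, nat_lit 0x102121, nat_lit 5, nat_lit 4, nat_lit 0x48⟩ (t14_5225) (t14_13417))) (.node ⟨nat_lit 6, nat_lit 0x1000100020, nat_lit 0x202002, nat_lit 2, nat_lit 4, nat_lit 0x49⟩ (.node ⟨nat_lit 6, nat_lit 0x200032, nat_lit 0x201110, nat_lit 0, nat_lit 4, nat_lit 0x48⟩ (t14_3177) (t14_11369)) (.node ⟨nat_lit 6, nat_lit 0x2000100024, nat_lit 0x111112, nat_lit 2, nat_lit 4, nat_lit 0x48⟩ (t14_7273) (t14_15465)))))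 (.node ⟨nat_lit 5, nat_lit 0x40018, nat_lit 0x320, nat_lit 1, nat_lit 4, nat_lit 0x47⟩ (.node ⟨nat_lit 6, nat_lit 0x20001000100028, nat_lit 0x202101, nat_lit 3, nat_lit 4, nat_lit 0x48⟩ (.node ⟨nat_lit 5, nat_lit 0x100010, nat_lit 0x2120, nat_lit 4, nat_lit 4, nat_lit 0x48⟩ (.node ⟨nat_lit 6, nat_lit 0x200030, nat_lit 0x201120, nat_lit 5, nat_lit 4, nat_lit 0x4a⟩ (t14_617) (t14_8809)) (.node ⟨nat_lit 7, nat_lit 0x400040002000200050, nat_lit 0x1121201, nat_lit 1, nat_lit 4, nat_lit 0x49⟩ (t14_4713) (t14_12905))) (.node ⟨nat_lit 6, nat_lit 0x1000280030, nat_lit 0x1012, nat_lit 0, nat_lit 3, nat_lit 0x44⟩ (.node ⟨nat_lit 6, nat_lit 0x1000200038, nat_lit 0x12103, nat_lit 5, nat_lit 4, nat_lit 0x48⟩ (t14_2665) (t14_10857)) (.node ⟨nat_lit 7, nat_lit 0x200040004000400068, nat_lit 0x121102, nat_lit 4, nat_lit 4, nat_lit 0x48⟩ (t14_6761) (t14_14953))))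 (.node ⟨nat_lit 6, nat_lit 0x80030, nat_lit 0x210121, nat_lit 0, nat_lit 4, nat_lit 0x48⟩ (.node ⟨nat_lit 5, nat_lit 0x800100010, nat_lit 0x22020, nat_lit 0, nat_lit 3, nat_lit 0x47⟩ (.node ⟨nat_lit 6, nat_lit 0x80030, nat_lit 0x101, nat_lit 1, nat_lit 4, nat_lit 0x46⟩ (t14_1641) (t14_9833)) (.node ⟨nat_lit 8, nat_lit 0x2000800080008000c8, nat_lit 0x2002002, nat_lit 1, nat_lit 4, nat_lit 0x49⟩ (t14_5737) (t14_13929))) (.node ⟨nat_lit 6, nat_lit 0x80030, nat_lit 0x200112, nat_lit 2, nat_lit 4, nat_lit 0x48⟩ (.node ⟨nat_lit 6, nat_lit 0x1000280030, nat_lit 0x10101, nat_lit 0, nat_lit 4, nat_lit 0x45⟩ (t14_3689) (t14_11881)) (.node ⟨nat_lit 2, nat_lit 0, nat_lit 0x11, nat_lit 0xb, nat_lit 4, nat_lit 0x45⟩ (t14_7785) (.nil)))))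
def t14_361 : Tr := .node ⟨nat_lit 7, nat_lit 0x40001000600060, nat_lit 0x1011321, nat_lit 0, nat_lit 4, nat_lit 0x48⟩ (.nil) (.nil)
def t14_8553 : Tr := .node ⟨nat_lit 6, nat_lit 0x20002800280030, nat_lit 0x1220, nat_lit 4, nat_lit 4, nat_lit 0x46⟩ (.nil) (.nil)
def t14_4457 : Tr := .node ⟨nat_lit 8, nat_lit 0x800080004000200090, nat_lit 0x11112000, nat_lit 2, nat_lit 4, nat_lit 0x4a⟩ (.nil) (.nil)
def t14_12649 : Tr := .node ⟨nat_lit 7, nat_lit 0x20005000500060, nat_lit 0x110102, nat_lit 0, nat_lit 3, nat_lit 0x45⟩ (.nil) (.nil)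
def t14_2409 : Tr := .node ⟨nat_lit 6, nat_lit 0x2800300030, nat_lit 0x10022, nat_lit 3, nat_lit 4, nat_lit 0x46⟩ (.nil) (.nil)
def t14_10601 : Tr := .node ⟨nat_lit 7, nat_lit 0x20002000500060, nat_lit 0x1002, nat_lit 4, nat_lit 4, nat_lit 0x47⟩ (.nil) (.nil)
def t14_6505 : Tr := .node ⟨nat_lit 6, nat_lit 0x80030, nat_lit 0x101110, nat_lit 3, nat_lit 4, nat_lit 0x48⟩ (.nil) (.nil)
def t14_14697 : Tr := .node ⟨nat_lit 6, nat_lit 0x3000300028, nat_lit 0x12111, nat_lit 1, nat_lit 3, nat_lit 0x45⟩ (.nil) (.nil)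
def t14_1385 : Tr := .node ⟨nat_lit 7, nat_lit 0x40004800300030, nat_lit 0x1002010, nat_lit 0, nat_lit 4, nat_lit 0x46⟩ (.nil) (.nil)
def t14_9577 : Tr := .node ⟨nat_lit 8, nat_lit 0x80008000c000d000d0, nat_lit 0x110220, nat_lit 2, nat_lit 4, nat_lit 0x47⟩ (.nil) (.nil)
def t14_5481 : Tr := .node ⟨nat_lit 7, nat_lit 0x40002000480030, nat_lit 0x1001301, nat_lit 0, nat_lit 4, nat_lit 0x47⟩ (.nil) (.nil)
def t14_13673 : Tr := .node ⟨nat_lit 5, nat_lit 0x800080010, nat_lit 0x20000, nat_lit 4, nat_lit 4, nat_lit 0x46⟩ (.nil) (.nil)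
def t14_3433 : Tr := .node ⟨nat_lit 7, nat_lit 0x20004000100060, nat_lit 0x20011, nat_lit 2, nat_lit 4, nat_lit 0x48⟩ (.nil) (.nil)
def t14_11625 : Tr := .node ⟨nat_lit 8, nat_lit 0x800040005000a000a000c0, nat_lit 0x21102, nat_lit 1, nat_lit 4, nat_lit 0x46⟩ (.nil) (.nil)
def t14_7529 : Tr := .node ⟨nat_lit 7, nat_lit 0x400040002000200050, nat_lit 0x22100, nat_lit 5, nat_lit 4, nat_lit 0x48⟩ (.nil) (.nil)
def t14_873 : Tr := .node ⟨nat_lit 6, nat_lit 0x800200030, nat_lit 0x102202, nat_lit 1, nat_lit 3, nat_lit 0x47⟩ (.nil) (.nil)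
def t14_9065 : Tr := .node ⟨nat_lit 8, nat_lit 0xc000a000a00030, nat_lit 0x1010212, nat_lit 0, nat_lit 4, nat_lit 0x47⟩ (.nil) (.nil)
def t14_4969 : Tr := .node ⟨nat_lit 3, nat_lit 4, nat_lit 0x13, nat_lit 9, nat_lit 4, nat_lit 0x46⟩ (.nil) (.nil)
def t14_13161 : Tr := .node ⟨nat_lit 7, nat_lit 0x10004000200060, nat_lit 0x1000030, nat_lit 0, nat_lit 3, nat_lit 0x46⟩ (.nil) (.nil)
def t14_2921 : Tr := .node ⟨nat_lit 8, nat_lit 0x80002000a000c000d0, nat_lit 0x1021012, nat_lit 0, nat_lit 4, nat_lit 0x47⟩ (.nil) (.nil)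
def t14_11113 : Tr := .node ⟨nat_lit 7, nat_lit 0x1000600060, nat_lit 0x11220, nat_lit 1, nat_lit 4, nat_lit 0x48⟩ (.nil) (.nil)
def t14_7017 : Tr := .node ⟨nat_lit 6, nat_lit 0x10002000200030, nat_lit 0x101311, nat_lit 4, nat_lit 4, nat_lit 0x48⟩ (.nil) (.nil)
def t14_15209 : Tr := .node ⟨nat_lit 8, nat_lit 0x800040004000a000a000a0, nat_lit 0x110210, nat_lit 1, nat_lit 4, nat_lit 0x47⟩ (.nil) (.nil)
def t14_1897 : Tr := .node ⟨nat_lit 7, nat_lit 0x6000500048, nat_lit 0x112112, nat_lit 0, nat_lit 4, nat_lit 0x48⟩ (.nil) (.nil)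
def t14_10089 : Tr := .node ⟨nat_lit 8, nat_lit 0x20008000c000c000c8, nat_lit 0x2202, nat_lit 2, nat_lit 4, nat_lit 0x47⟩ (.nil) (.nil)
def t14_5993 : Tr := .node ⟨nat_lit 6, nat_lit 0x280030, nat_lit 0x122110, nat_lit 1, nat_lit 4, nat_lit 0x49⟩ (.nil) (.nil)
def t14_14185 : Tr := .node ⟨nat_lit 5, nat_lit 0x140018, nat_lit 0x13120, nat_lit 4, nat_lit 4, nat_lit 0x48⟩ (.nil) (.nil)
def t14_3945 : Tr := .node ⟨nat_lit 6, nat_lit 0x10002000180024, nat_lit 0x102000, nat_lit 1, nat_lit 4, nat_lit 0x45⟩ (.nil) (.nil)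
def t14_12137 : Tr := .node ⟨nat_lit 7, nat_lit 0x4800600050, nat_lit 0x11210, nat_lit 1, nat_lit 4, nat_lit 0x47⟩ (.nil) (.nil)
def t14_8041 : Tr := .node ⟨nat_lit 6, nat_lit 0x200022, nat_lit 0x11113, nat_lit 2, nat_lit 4, nat_lit 0x48⟩ (.nil) (.nil)
def t9_361 : Tr := .node ⟨nat_lit 3, nat_lit 0, nat_lit 0x332, nat_lit 7, nat_lit 4, nat_lit 0x4a⟩ (.node ⟨nat_lit 8, nat_lit 0x80008000200040, nat_lit 0x1131010, nat_lit 1, nat_lit 4, nat_lit 0x4b⟩ (.node ⟨nat_lit 3, nat_lit 4, nat_lit 0x212, nat_lit 5, nat_lit 4, nat_lit 0x46⟩ (.node ⟨nat_lit 6, nat_lit 0x2000200010, nat_lit 0x111302, nat_lit 1, nat_lit 4, nat_lit 0x49⟩ (.node ⟨nat_lit 6, nat_lit 0x10002000200020, nat_lit 0x122111, nat_lit 0, nat_lit 3, nat_lit 0x47⟩ (t14_361) (t14_8553)) (.node ⟨nat_lit 7, nat_lit 0x40002000200048, nat_lit 0x1112111, nat_lit 0, nat_lit 4, nat_lit 0x49⟩ (t14_4457)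 (t14_12649))) (.node ⟨nat_lit 6, nat_lit 0x1000200038, nat_lit 0x120112, nat_lit 0, nat_lit 4, nat_lit 0x47⟩ (.node ⟨nat_lit 5, nat_lit 0x1000080014, nat_lit 0x10211, nat_lit 2, nat_lit 4, nat_lit 0x46⟩ (t14_2409) (t14_10601)) (.node ⟨nat_lit 6, nat_lit 0x1000200022, nat_lit 0x12030, nat_lit 1, nat_lit 4, nat_lit 0x48⟩ (t14_6505) (t14_14697)))) (.node ⟨nat_lit 6, nat_lit 0x20001000100028, nat_lit 0x202100, nat_lit 0, nat_lit 4, nat_lit 0x47⟩ (.node ⟨nat_lit 6, nat_lit 0x200010, nat_lit 0x22201, nat_lit 5, nat_lit 4, nat_lit 0x4b⟩ (.node ⟨nat_lit 6, nat_lit 0x80030, nat_lit 0x101104, nat_lit 2, nat_lit 4, nat_lit 0x48⟩ (t14_1385) (t14_9577)) (.node ⟨nat_lit 7, nat_lit 0x40002000500068, nat_lit 0x1111220, nat_lit 1, nat_lit 4, nat_lit 0x48⟩ (t14_5481) (t14_13673))) (.node ⟨nat_lit 4, nat_lit 0xe, nat_lit 0x3102, nat_lit 4, nat_lit 4, nat_lit 0x46⟩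 (.node ⟨nat_lit 6, nat_lit 0x800080030, nat_lit 0x211003, nat_lit 1, nat_lit 3, nat_lit 0x47⟩ (t14_3433) (t14_11625)) (.node ⟨nat_lit 7, nat_lit 0x400020002000500070, nat_lit 0x1011111, nat_lit 0, nat_lit 4, nat_lit 0x46⟩ (t14_7529) (.nil))))) (.node ⟨nat_lit 4, nat_lit 0x80008, nat_lit 0x1311, nat_lit 0xb, nat_lit 4, nat_lit 0x49⟩ (.node ⟨nat_lit 5, nat_lit 0x10, nat_lit 0x22110, nat_lit 2, nat_lit 4, nat_lit 0x49⟩ (.node ⟨nat_lit 6, nat_lit 0x2000240018, nat_lit 0x111211, nat_lit 0, nat_lit 4, nat_lit 0x47⟩ (.node ⟨nat_lit 5, nat_lit 0x18, nat_lit 0x22000, nat_lit 0, nat_lit 4, nat_lit 0x47⟩ (t14_873) (t14_9065)) (.node ⟨nat_lit 6, nat_lit 0x1000200030, nat_lit 0x112110, nat_lit 1, nat_lit 4, nat_lit 0x48⟩ (t14_4969) (t14_13161))) (.node ⟨nat_lit 7, nat_lit 0x40002000500068, nat_lit 0x1012011, nat_lit 0, nat_lit 4, nat_lit 0x47⟩ (.node ⟨nat_lit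 7, nat_lit 0x4000400060, nat_lit 0x111003, nat_lit 2, nat_lit 4, nat_lit 0x49⟩ (t14_2921) (t14_11113)) (.node ⟨nat_lit 9, nat_lit 0x1000100010000800088012001c0, nat_lit 0x11002002, nat_lit 2, nat_lit 4, nat_lit 0x48⟩ (t14_7017) (t14_15209)))) (.node ⟨nat_lit 4, nat_lit 0x40008, nat_lit 0x2021, nat_lit 9, nat_lit 4, nat_lit 0x47⟩ (.node ⟨nat_lit 6, nat_lit 0x280030, nat_lit 0x122111, nat_lit 0, nat_lit 4, nat_lit 0x49⟩ (.node ⟨nat_lit 8, nat_lit 0x800010002000c0, nat_lit 0x10103011, nat_lit 2, nat_lit 4, nat_lit 0x4a⟩ (t14_1897) (t14_10089)) (.node ⟨nat_lit 7, nat_lit 0x20004000600064, nat_lit 0x21202, nat_lit 0, nat_lit 4, nat_lit 0x47⟩ (t14_5993) (t14_14185))) (.node ⟨nat_lit 6, nat_lit 0x200030, nat_lit 0x1002, nat_lit 0, nat_lit 4, nat_lit 0x46⟩ (.node ⟨nat_lit 8, nat_lit 0x8000400090006000d0, nat_lit 0x10110003, nat_lit 0, nat_lit 4, nat_lit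 0x47⟩ (t14_3945) (t14_12137)) (.node ⟨nat_lit 8, nat_lit 0x800020008800c0, nat_lit 0x10112101, nat_lit 2, nat_lit 4, nat_lit 0x4a⟩ (t14_8041) (.nil)))))
def t14_233 : Tr := .node ⟨nat_lit 5, nat_lit 0x100018, nat_lit 0x22211, nat_lit 2, nat_lit 3, nat_lit 0x48⟩ (.nil) (.nil)
def t14_8425 : Tr := .node ⟨nat_lit 5, nat_lit 0x1000180018, nat_lit 0x21, nat_lit 6, nat_lit 4, nat_lit 0x45⟩ (.nil) (.nil)
def t14_4329 : Tr := .node ⟨nat_lit 8, nat_lit 0x8000400020002000c0, nat_lit 0x11010202, nat_lit 0, nat_lit 4, nat_lit 0x49⟩ (.nil) (.nil)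
def t14_12521 : Tr := .node ⟨nat_lit 7, nat_lit 0x10005000600030, nat_lit 0x1101300, nat_lit 0, nat_lit 4, nat_lit 0x47⟩ (.nil) (.nil)
def t14_2281 : Tr := .node ⟨nat_lit 9, nat_lit 0x80010001000040011000a0, nat_lit 0x11020020, nat_lit 0, nat_lit 4, nat_lit 0x49⟩ (.nil) (.nil)
def t14_10473 : Tr := .node ⟨nat_lit 7, nat_lit 0x20004000100044, nat_lit 0x112, nat_lit 0, nat_lit 4, nat_lit 0x46⟩ (.nil) (.nil)
def t14_6377 : Tr := .node ⟨nat_lit 6, nat_lit 0x800200030, nat_lit 2, nat_lit 2, nat_lit 4, nat_lit 0x45⟩ (.nil) (.nil)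
def t14_14569 : Tr := .node ⟨nat_lit 7, nat_lit 0x400040002000200050, nat_lit 0x21101, nat_lit 6, nat_lit 4, nat_lit 0x48⟩ (.nil) (.nil)
def t14_1257 : Tr := .node ⟨nat_lit 6, nat_lit 0x3000180028, nat_lit 0x100231, nat_lit 1, nat_lit 4, nat_lit 0x45⟩ (.nil) (.nil)
def t14_9449 : Tr := .node ⟨nat_lit 7, nat_lit 0x200040004000440068, nat_lit 0x111102, nat_lit 4, nat_lit 4, nat_lit 0x47⟩ (.nil) (.nil)
def t14_5353 : Tr := .node ⟨nat_lit 7, nat_lit 0x4000600018, nat_lit 0x11010, nat_lit 1, nat_lit 4, nat_lit 0x47⟩ (.nil) (.nil)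
def t14_13545 : Tr := .node ⟨nat_lit 7, nat_lit 0x40004000100068, nat_lit 0x100010, nat_lit 0, nat_lit 4, nat_lit 0x46⟩ (.nil) (.nil)
def t14_3305 : Tr := .node ⟨nat_lit 6, nat_lit 0x20001000300038, nat_lit 0x102210, nat_lit 5, nat_lit 4, nat_lit 0x47⟩ (.nil) (.nil)
def t14_11497 : Tr := .node ⟨nat_lit 7, nat_lit 0x40002000500064, nat_lit 0x101000, nat_lit 2, nat_lit 4, nat_lit 0x46⟩ (.nil) (.nil)
def t14_7401 : Tr := .node ⟨nat_lit 6, nat_lit 0x1000200020, nat_lit 0x112200, nat_lit 2, nat_lit 4, nat_lit 0x49⟩ (.nil) (.nil)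
def t14_15593 : Tr := .node ⟨nat_lit 1, nat_lit 0, nat_lit 2, nat_lit 0x1b, nat_lit 4, nat_lit 0x48⟩ (.nil) (.nil)
def t14_745 : Tr := .node ⟨nat_lit 5, nat_lit 0x18, nat_lit 0x10001, nat_lit 1, nat_lit 4, nat_lit 0x45⟩ (.nil) (.nil)
def t14_8937 : Tr := .node ⟨nat_lit 6, nat_lit 0x800300038, nat_lit 0x1040, nat_lit 0, nat_lit 4, nat_lit 0x45⟩ (.nil) (.nil)
def t14_4841 : Tr := .node ⟨nat_lit 8, nat_lit 0x800080002000c000d0, nat_lit 0x1110022, nat_lit 1, nat_lit 4, nat_lit 0x48⟩ (.nil) (.nil)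
def t14_13033 : Tr := .node ⟨nat_lit 7, nat_lit 0x40002000200048, nat_lit 0x2100, nat_lit 1, nat_lit 4, nat_lit 0x47⟩ (.nil) (.nil)
def t14_2793 : Tr := .node ⟨nat_lit 8, nat_lit 0x20001000a000c0, nat_lit 0x1010012, nat_lit 1, nat_lit 4, nat_lit 0x48⟩ (.nil) (.nil)
def t14_10985 : Tr := .node ⟨nat_lit 8, nat_lit 0x2000800040004000c0, nat_lit 0x10001202, nat_lit 1, nat_lit 3, nat_lit 0x47⟩ (.nil) (.nil)
def t14_6889 : Tr := .node ⟨nat_lit 7, nat_lit 0x400040, nat_lit 0x111120, nat_lit 3, nat_lit 4, nat_lit 0x4b⟩ (.nil) (.nil)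
def t14_15081 : Tr := .node ⟨nat_lit 8, nat_lit 0x2000800080008800c0, nat_lit 0x2002011, nat_lit 0, nat_lit 4, nat_lit 0x49⟩ (.nil) (.nil)
def t14_1769 : Tr := .node ⟨nat_lit 5, nat_lit 0x180014, nat_lit 0x10212, nat_lit 7, nat_lit 4, nat_lit 0x48⟩ (.nil) (.nil)
def t14_9961 : Tr := .node ⟨nat_lit 6, nat_lit 0x3000300030, nat_lit 0x1330, nat_lit 5, nat_lit 4, nat_lit 0x47⟩ (.nil) (.nil)
def t14_5865 : Tr := .node ⟨nat_lit 6, nat_lit 0x200032, nat_lit 0x101110, nat_lit 0, nat_lit 4, nat_lit 0x47⟩ (.nil) (.nil)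
def t14_14057 : Tr := .node ⟨nat_lit 7, nat_lit 0x20004000640064, nat_lit 0x1021010, nat_lit 0, nat_lit 4, nat_lit 0x46⟩ (.nil) (.nil)
def t14_3817 : Tr := .node ⟨nat_lit 7, nat_lit 0x20004000400060, nat_lit 0x121201, nat_lit 2, nat_lit 4, nat_lit 0x49⟩ (.nil) (.nil)
def t14_12009 : Tr := .node ⟨nat_lit 6, nat_lit 0x1000280030, nat_lit 0x101310, nat_lit 1, nat_lit 4, nat_lit 0x47⟩ (.nil) (.nil)
def t14_7913 : Tr := .node ⟨nat_lit 8, nat_lit 0x800040004000a000a000c0, nat_lit 0x110212, nat_lit 1, nat_lit 4, nat_lit 0x47⟩ (.nil) (.nil)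
def t9_233 : Tr := .node ⟨nat_lit 4, nat_lit 0x40008, nat_lit 0x3122, nat_lit 4, nat_lit 4, nat_lit 0x48⟩ (.node ⟨nat_lit 5, nat_lit 0x800100012, nat_lit 0x30012, nat_lit 5, nat_lit 4, nat_lit 0x48⟩ (.node ⟨nat_lit 6, nat_lit 0x2000100024, nat_lit 0x311111, nat_lit 0, nat_lit 4, nat_lit 0x49⟩ (.node ⟨nat_lit 5, nat_lit 0x100008, nat_lit 0x11123, nat_lit 1, nat_lit 4, nat_lit 0x48⟩ (.node ⟨nat_lit 6, nat_lit 0x20001000100028, nat_lit 0x201103, nat_lit 0, nat_lit 4, nat_lit 0x47⟩ (t14_233) (t14_8425)) (.node ⟨nat_lit 7, nat_lit 0x40002000680070, nat_lit 0x111032, nat_lit 0, nat_lit 4, nat_lit 0x46⟩ (t14_4329) (t14_12521))) (.node ⟨nat_lit 7, nat_lit 0x200040, nat_lit 0x1221121, nat_lit 0, nat_lit 4, nat_lit 0x4c⟩ (.node ⟨nat_lit 6, nat_lit 0x2800180030, nat_lit 0x111132, nat_lit 1, nat_lit 3, nat_lit 0x45⟩ (t14_2281) (t14_10473)) (.node ⟨nat_lit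 8, nat_lit 0x2000800040008800c8, nat_lit 0x21001200, nat_lit 1, nat_lit 4, nat_lit 0x49⟩ (t14_6377) (t14_14569)))) (.node ⟨nat_lit 8, nat_lit 0x80, nat_lit 0x2111110, nat_lit 0, nat_lit 4, nat_lit 0x4d⟩ (.node ⟨nat_lit 6, nat_lit 0x2000240018, nat_lit 0x221211, nat_lit 1, nat_lit 4, nat_lit 0x49⟩ (.node ⟨nat_lit 3, nat_lit 6, nat_lit 0x110, nat_lit 7, nat_lit 4, nat_lit 0x44⟩ (t14_1257) (t14_9449)) (.node ⟨nat_lit 6, nat_lit 0x20002000100010, nat_lit 0x12122, nat_lit 2, nat_lit 4, nat_lit 0x48⟩ (t14_5353) (t14_13545))) (.node ⟨nat_lit 5, nat_lit 0x100018, nat_lit 0x10204, nat_lit 2, nat_lit 4, nat_lit 0x47⟩ (.node ⟨nat_lit 7, nat_lit 0x10002000400060, nat_lit 0x1100104, nat_lit 2, nat_lit 4, nat_lit 0x49⟩ (t14_3305) (t14_11497)) (.node ⟨nat_lit 7, nat_lit 0x40001000100060, nat_lit 0x1101102, nat_lit 1, nat_lit 4, nat_lit 0x48⟩ (t14_7401) (t14_15593)))))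 (.node ⟨nat_lit 6, nat_lit 0x300030, nat_lit 0x3210, nat_lit 0, nat_lit 4, nat_lit 0x47⟩ (.node ⟨nat_lit 5, nat_lit 0x40018, nat_lit 0x21003, nat_lit 1, nat_lit 4, nat_lit 0x47⟩ (.node ⟨nat_lit 8, nat_lit 0x800080004000900090, nat_lit 0x11201100, nat_lit 0, nat_lit 4, nat_lit 0x49⟩ (.node ⟨nat_lit 5, nat_lit 0x180018, nat_lit 0x21200, nat_lit 1, nat_lit 3, nat_lit 0x46⟩ (t14_745) (t14_8937)) (.node ⟨nat_lit 7, nat_lit 0x20002000500068, nat_lit 0x102002, nat_lit 1, nat_lit 4, nat_lit 0x47⟩ (t14_4841) (t14_13033))) (.node ⟨nat_lit 5, nat_lit 0x18001c, nat_lit 0x11121, nat_lit 3, nat_lit 4, nat_lit 0x46⟩ (.node ⟨nat_lit 4, nat_lit 8, nat_lit 0x2313, nat_lit 5, nat_lit 3, nat_lit 0x48⟩ (t14_2793) (t14_10985)) (.node ⟨nat_lit 7, nat_lit 0x1000080060, nat_lit 0x1100022, nat_lit 0, nat_lit 4, nat_lit 0x48⟩ (t14_6889) (t14_15081)))) (.node ⟨nat_lit 5,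 nat_lit 0x100018, nat_lit 0x11121, nat_lit 5, nat_lit 4, nat_lit 0x48⟩ (.node ⟨nat_lit 6, nat_lit 0x800200032, nat_lit 0x111021, nat_lit 0, nat_lit 4, nat_lit 0x47⟩ (.node ⟨nat_lit 6, nat_lit 0x2000200030, nat_lit 0x11203, nat_lit 2, nat_lit 4, nat_lit 0x48⟩ (t14_1769) (t14_9961)) (.node ⟨nat_lit 7, nat_lit 0x20002000400062, nat_lit 0x2020002, nat_lit 1, nat_lit 4, nat_lit 0x48⟩ (t14_5865) (t14_14057))) (.node ⟨nat_lit 6, nat_lit 0x1000280030, nat_lit 0x2323, nat_lit 0, nat_lit 4, nat_lit 0x47⟩ (.node ⟨nat_lit 6, nat_lit 0x800300028, nat_lit 0x111003, nat_lit 4, nat_lit 4, nat_lit 0x48⟩ (t14_3817) (t14_12009)) (.node ⟨nat_lit 6, nat_lit 0x200030, nat_lit 0x11113, nat_lit 1, nat_lit 4, nat_lit 0x48⟩ (t14_7913) (.nil)))))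
def t14_489 : Tr := .node ⟨nat_lit 8, nat_lit 0x20004000400080, nat_lit 0x11111111, nat_lit 0, nat_lit 4, nat_lit 0x4b⟩ (.nil) (.nil)
def t14_8681 : Tr := .node ⟨nat_lit 5, nat_lit 0x140018, nat_lit 0x20, nat_lit 3, nat_lit 4, nat_lit 0x44⟩ (.nil) (.nil)
def t14_4585 : Tr := .node ⟨nat_lit 7, nat_lit 0x20002000100040, nat_lit 0x1113100, nat_lit 0, nat_lit 3, nat_lit 0x48⟩ (.nil) (.nil)
def t14_12777 : Tr := .node ⟨nat_lit 6, nat_lit 0x200030, nat_lit 0x11130, nat_lit 3, nat_lit 4, nat_lit 0x49⟩ (.nil) (.nil)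
def t14_2537 : Tr := .node ⟨nat_lit 8, nat_lit 0x400040008000c000d0, nat_lit 0x211120, nat_lit 0, nat_lit 4, nat_lit 0x48⟩ (.nil) (.nil)
def t14_10729 : Tr := .node ⟨nat_lit 8, nat_lit 0x8000c000a000c8, nat_lit 0x11200, nat_lit 0, nat_lit 4, nat_lit 0x47⟩ (.nil) (.nil)
def t14_6633 : Tr := .node ⟨nat_lit 7, nat_lit 0x4000100060, nat_lit 0x101031, nat_lit 0, nat_lit 4, nat_lit 0x48⟩ (.nil) (.nil)
def t14_14825 : Tr := .node ⟨nat_lit 8, nat_lit 0x800010002000c0, nat_lit 0x11002, nat_lit 0, nat_lit 3, nat_lit 0x47⟩ (.nil) (.nil)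
def t14_1513 : Tr := .node ⟨nat_lit 9, nat_lit 0x100010000800080008001400190, nat_lit 0x1021011, nat_lit 1, nat_lit 4, nat_lit 0x48⟩ (.nil) (.nil)
def t14_9705 : Tr := .node ⟨nat_lit 7, nat_lit 0x10001000400060, nat_lit 0x1011121, nat_lit 0, nat_lit 3, nat_lit 0x47⟩ (.nil) (.nil)
def t14_5609 : Tr := .node ⟨nat_lit 9, nat_lit 0x400100002001800180, nat_lit 0x102120, nat_lit 1, nat_lit 4, nat_lit 0x49⟩ (.nil) (.nil)
def t14_13801 : Tr := .node ⟨nat_lit 7, nat_lit 0x400020002000500050, nat_lit 0x12000, nat_lit 2, nat_lit 4, nat_lit 0x46⟩ (.nil) (.nil)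
def t14_3561 : Tr := .node ⟨nat_lit 8, nat_lit 0x80002000c000a0, nat_lit 0x12001, nat_lit 0, nat_lit 4, nat_lit 0x48⟩ (.nil) (.nil)
def t14_11753 : Tr := .node ⟨nat_lit 5, nat_lit 0x40018, nat_lit 0x10042, nat_lit 2, nat_lit 4, nat_lit 0x47⟩ (.nil) (.nil)
def t14_7657 : Tr := .node ⟨nat_lit 5, nat_lit 0x800100010, nat_lit 0x100, nat_lit 5, nat_lit 4, nat_lit 0x45⟩ (.nil) (.nil)
def t14_1001 : Tr := .node ⟨nat_lit 5, nat_lit 0x800100018, nat_lit 0x1101, nat_lit 5, nat_lit 4, nat_lit 0x46⟩ (.nil) (.nil)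
def t14_9193 : Tr := .node ⟨nat_lit 8, nat_lit 0x800040004000a000a000c0, nat_lit 0x122002, nat_lit 0, nat_lit 4, nat_lit 0x47⟩ (.nil) (.nil)
def t14_5097 : Tr := .node ⟨nat_lit 7, nat_lit 0x200020004000400064, nat_lit 0x10131, nat_lit 0, nat_lit 4, nat_lit 0x47⟩ (.nil) (.nil)
def t14_13289 : Tr := .node ⟨nat_lit 7, nat_lit 0x400040002000480070, nat_lit 0x1001300, nat_lit 2, nat_lit 4, nat_lit 0x47⟩ (.nil) (.nil)
def t14_3049 : Tr := .node ⟨nat_lit 6, nat_lit 0x800300030, nat_lit 0x1121, nat_lit 2, nat_lit 4, nat_lit 0x46⟩ (.nil) (.nil)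
def t14_11241 : Tr := .node ⟨nat_lit 6, nat_lit 0x300038, nat_lit 0x101040, nat_lit 0, nat_lit 4, nat_lit 0x47⟩ (.nil) (.nil)
def t14_7145 : Tr := .node ⟨nat_lit 8, nat_lit 0x800010002000c0, nat_lit 0x11111101, nat_lit 1, nat_lit 4, nat_lit 0x4a⟩ (.nil) (.nil)
def t14_15337 : Tr := .node ⟨nat_lit 6, nat_lit 0x2000200030, nat_lit 0x12201, nat_lit 4, nat_lit 3, nat_lit 0x47⟩ (.nil) (.nil)
def t14_2025 : Tr := .node ⟨nat_lit 7, nat_lit 0x40002000100060, nat_lit 0x20301, nat_lit 1, nat_lit 4, nat_lit 0x48⟩ (.nil) (.nil)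
def t14_10217 : Tr := .node ⟨nat_lit 6, nat_lit 0x20001000100028, nat_lit 0x2102, nat_lit 6, nat_lit 4, nat_lit 0x47⟩ (.nil) (.nil)
def t14_6121 : Tr := .node ⟨nat_lit 2, nat_lit 2, nat_lit 0x10, nat_lit 0xb, nat_lit 4, nat_lit 0x44⟩ (.nil) (.nil)
def t14_14313 : Tr := .node ⟨nat_lit 8, nat_lit 0x800020009000a000c0, nat_lit 0x10131, nat_lit 1, nat_lit 4, nat_lit 0x47⟩ (.nil) (.nil)
def t14_4073 : Tr := .node ⟨nat_lit 7, nat_lit 0x40002000500060, nat_lit 0x110021, nat_lit 1, nat_lit 4, nat_lit 0x47⟩ (.nil) (.nil)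
def t14_12265 : Tr := .node ⟨nat_lit 4, nat_lit 0x8000c, nat_lit 0x14, nat_lit 5, nat_lit 4, nat_lit 0x45⟩ (.nil) (.nil)
def t14_8169 : Tr := .node ⟨nat_lit 6, nat_lit 0x2000100010, nat_lit 0x1300, nat_lit 0, nat_lit 4, nat_lit 0x47⟩ (.nil) (.nil)
def t9_489 : Tr := .node ⟨nat_lit 2, nat_lit 0, nat_lit 0x33, nat_lit 0xb, nat_lit 3, nat_lit 0x47⟩ (.node ⟨nat_lit 6, nat_lit 0x1000280034, nat_lit 0x31111, nat_lit 0, nat_lit 4, nat_lit 0x47⟩ (.node ⟨nat_lit 6, nat_lit 0x2000100024, nat_lit 0x211211, nat_lit 1, nat_lit 4, nat_lit 0x49⟩ (.node ⟨nat_lit 6, nat_lit 0x20, nat_lit 0x121112, nat_lit 2, nat_lit 4, nat_lit 0x4b⟩ (.node ⟨nat_lit 7, nat_lit 0x400040002000200058, nat_lit 0x1020211, nat_lit 0, nat_lit 4, nat_lit 0x47⟩ (t14_489) (t14_8681)) (.node ⟨nat_lit 6, nat_lit 0x200030, nat_lit 0x121112, nat_lit 3, nat_lit 4, nat_lit 0x4a⟩ (t14_4585) (t14_12777)))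 (.node ⟨nat_lit 6, nat_lit 0x800300038, nat_lit 0x111022, nat_lit 0, nat_lit 4, nat_lit 0x46⟩ (.node ⟨nat_lit 6, nat_lit 0x20002000100010, nat_lit 0x111131, nat_lit 3, nat_lit 4, nat_lit 0x49⟩ (t14_2537) (t14_10729)) (.node ⟨nat_lit 7, nat_lit 0x40004000200060, nat_lit 0x112012, nat_lit 3, nat_lit 4, nat_lit 0x49⟩ (t14_6633) (t14_14825)))) (.node ⟨nat_lit 5, nat_lit 0x40018, nat_lit 0x11211, nat_lit 5, nat_lit 4, nat_lit 0x48⟩ (.node ⟨nat_lit 7, nat_lit 0x20002000400042, nat_lit 0x2011032, nat_lit 0, nat_lit 4, nat_lit 0x4a⟩ (.node ⟨nat_lit 8, nat_lit 0x800020002000c000d0, nat_lit 0x10031012, nat_lit 0, nat_lit 4, nat_lit 0x48⟩ (t14_1513) (t14_9705)) (.node ⟨nat_lit 6, nat_lit 0x2000100030, nat_lit 0x111021, nat_lit 3, nat_lit 3, nat_lit 0x47⟩ (t14_5609) (t14_13801))) (.node ⟨nat_lit 7, nat_lit 0x40004000400020, nat_lit 0x121001, nat_lit 2, nat_lit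 4, nat_lit 0x49⟩ (.node ⟨nat_lit 4, nat_lit 0x8000e, nat_lit 0x1020, nat_lit 5, nat_lit 4, nat_lit 0x45⟩ (t14_3561) (t14_11753)) (.node ⟨nat_lit 7, nat_lit 0x4000400050005000500060, nat_lit 0x1112100, nat_lit 2, nat_lit 4, nat_lit 0x48⟩ (t14_7657) (.nil))))) (.node ⟨nat_lit 5, nat_lit 0x100018, nat_lit 0x320, nat_lit 3, nat_lit 4, nat_lit 0x47⟩ (.node ⟨nat_lit 6, nat_lit 0x200022, nat_lit 0x22211, nat_lit 0, nat_lit 4, nat_lit 0x49⟩ (.node ⟨nat_lit 5, nat_lit 0, nat_lit 0x11111, nat_lit 9, nat_lit 4, nat_lit 0x4b⟩ (.node ⟨nat_lit 7, nat_lit 0x2000400042, nat_lit 0x1011031, nat_lit 1, nat_lit 4, nat_lit 0x4a⟩ (t14_1001) (t14_9193)) (.node ⟨nat_lit 8, nat_lit 0x40008000800060009000e0, nat_lit 0x2121011, nat_lit 0, nat_lit 4, nat_lit 0x48⟩ (t14_5097) (t14_13289))) (.node ⟨nat_lit 5, nat_lit 0x180018, nat_lit 0x10120, nat_lit 4, nat_lit 3, nat_lit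 0x45⟩ (.node ⟨nat_lit 5, nat_lit 0x10001a, nat_lit 0x20121, nat_lit 5, nat_lit 4, nat_lit 0x48⟩ (t14_3049) (t14_11241)) (.node ⟨nat_lit 8, nat_lit 0x800040009000c000a0, nat_lit 0x111002, nat_lit 0, nat_lit 4, nat_lit 0x47⟩ (t14_7145) (t14_15337)))) (.node ⟨nat_lit 6, nat_lit 0x20002c0034, nat_lit 0x210111, nat_lit 3, nat_lit 4, nat_lit 0x47⟩ (.node ⟨nat_lit 7, nat_lit 0x400040, nat_lit 0x2111111, nat_lit 0, nat_lit 3, nat_lit 0x4a⟩ (.node ⟨nat_lit 4, nat_lit 0x80008, nat_lit 0x1132, nat_lit 0xa, nat_lit 4, nat_lit 0x49⟩ (t14_2025) (t14_10217)) (.node ⟨nat_lit 7, nat_lit 0x40003000580068, nat_lit 0x2111200, nat_lit 0, nat_lit 4, nat_lit 0x47⟩ (t14_6121) (t14_14313))) (.node ⟨nat_lit 5, nat_lit 0x10001c, nat_lit 0x12213, nat_lit 3, nat_lit 4, nat_lit 0x48⟩ (.node ⟨nat_lit 5, nat_lit 0x18001c, nat_lit 0x10010, nat_lit 3, nat_lit 4, nat_lit 0x44⟩ (t14_4073)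 (t14_12265)) (.node ⟨nat_lit 7, nat_lit 0x400040002000200064, nat_lit 0x121210, nat_lit 2, nat_lit 4, nat_lit 0x48⟩ (t14_8169) (.nil)))))
def t14_25 : Tr := .node ⟨nat_lit 6, nat_lit 0x1000080020, nat_lit 0x111101, nat_lit 3, nat_lit 3, nat_lit 0x47⟩ (.nil) (.nil)
def t14_8217 : Tr := .node ⟨nat_lit 8, nat_lit 0x4000800090006000d000d0, nat_lit 0x211030, nat_lit 0, nat_lit 4, nat_lit 0x45⟩ (.nil) (.nil)
def t14_4121 : Tr := .node ⟨nat_lit 6, nat_lit 0x2000200010, nat_lit 0x11110, nat_lit 4, nat_lit 4, nat_lit 0x48⟩ (.nil) (.nil)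
def t14_12313 : Tr := .node ⟨nat_lit 8, nat_lit 0x2000c000a000e0, nat_lit 0x11103, nat_lit 1, nat_lit 4, nat_lit 0x47⟩ (.nil) (.nil)
def t14_2073 : Tr := .node ⟨nat_lit 7, nat_lit 0x40004000100060, nat_lit 0x113001, nat_lit 3, nat_lit 4, nat_lit 0x49⟩ (.nil) (.nil)
def t14_10265 : Tr := .node ⟨nat_lit 8, nat_lit 0x800040009000a000d0, nat_lit 0x10012002, nat_lit 0, nat_lit 4, nat_lit 0x47⟩ (.nil) (.nil)
def t14_6169 : Tr := .node ⟨nat_lit 6, nat_lit 0x200010, nat_lit 0x1100, nat_lit 4, nat_lit 4, nat_lit 0x48⟩ (.nil) (.nil)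
def t14_14361 : Tr := .node ⟨nat_lit 7, nat_lit 0x40001000680070, nat_lit 0x11, nat_lit 1, nat_lit 4, nat_lit 0x44⟩ (.nil) (.nil)
def t14_1049 : Tr := .node ⟨nat_lit 5, nat_lit 0x100018, nat_lit 0x102, nat_lit 5, nat_lit 4, nat_lit 0x46⟩ (.nil) (.nil)
def t14_9241 : Tr := .node ⟨nat_lit 5, nat_lit 0x1000080018, nat_lit 0x10131, nat_lit 4, nat_lit 3, nat_lit 0x45⟩ (.nil) (.nil)
def t14_5145 : Tr := .node ⟨nat_lit 7, nat_lit 0x40002000600050, nat_lit 0x10231, nat_lit 1, nat_lit 4, nat_lit 0x47⟩ (.nil) (.nil)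
def t14_13337 : Tr := .node ⟨nat_lit 5, nat_lit 0x1c, nat_lit 0, nat_lit 0, nat_lit 4, nat_lit 0x43⟩ (.nil) (.nil)
def t14_3097 : Tr := .node ⟨nat_lit 8, nat_lit 0x8000400020002000c0, nat_lit 0x101102, nat_lit 0, nat_lit 4, nat_lit 0x48⟩ (.nil) (.nil)
def t14_11289 : Tr := .node ⟨nat_lit 5, nat_lit 0x100018001c, nat_lit 0x1202, nat_lit 7, nat_lit 4, nat_lit 0x46⟩ (.nil) (.nil)
def t14_7193 : Tr := .node ⟨nat_lit 8, nat_lit 0x8000200020002000c0, nat_lit 0x10012101, nat_lit 1, nat_lit 4, nat_lit 0x49⟩ (.nil) (.nil)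
def t14_15385 : Tr := .node ⟨nat_lit 9, nat_lit 0x10001000080008000400040, nat_lit 0x101010, nat_lit 7, nat_lit 4, nat_lit 0x4a⟩ (.nil) (.nil)
def t14_537 : Tr := .node ⟨nat_lit 5, nat_lit 0x100018, nat_lit 0x222, nat_lit 5, nat_lit 4, nat_lit 0x47⟩ (.nil) (.nil)
def t14_8729 : Tr := .node ⟨nat_lit 8, nat_lit 0x800040009000a000d0, nat_lit 0x11101, nat_lit 0, nat_lit 4, nat_lit 0x46⟩ (.nil) (.nil)
def t14_4633 : Tr := .node ⟨nat_lit 6, nat_lit 0x1000200020, nat_lit 0x111200, nat_lit 0, nat_lit 4, nat_lit 0x48⟩ (.nil) (.nil)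
def t14_12825 : Tr := .node ⟨nat_lit 7, nat_lit 0x1000600050, nat_lit 0x2010, nat_lit 1, nat_lit 4, nat_lit 0x47⟩ (.nil) (.nil)
def t14_2585 : Tr := .node ⟨nat_lit 8, nat_lit 0x10002000c000c0, nat_lit 0x110021, nat_lit 1, nat_lit 4, nat_lit 0x48⟩ (.nil) (.nil)
def t14_10777 : Tr := .node ⟨nat_lit 4, nat_lit 0x80008, nat_lit 0x1211, nat_lit 0xc, nat_lit 3, nat_lit 0x47⟩ (.nil) (.nil)
def t14_6681 : Tr := .node ⟨nat_lit 7, nat_lit 0x400020, nat_lit 0x1111101, nat_lit 2, nat_lit 4, nat_lit 0x4b⟩ (.nil) (.nil)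
def t14_14873 : Tr := .node ⟨nat_lit 7, nat_lit 0x4000100020, nat_lit 0x121020, nat_lit 4, nat_lit 3, nat_lit 0x49⟩ (.nil) (.nil)
def t14_1561 : Tr := .node ⟨nat_lit 8, nat_lit 0x800040004000a000a000c0, nat_lit 0x10110212, nat_lit 0, nat_lit 4, nat_lit 0x48⟩ (.nil) (.nil)
def t14_9753 : Tr := .node ⟨nat_lit 8, nat_lit 0x20002000c000c0, nat_lit 0x11020, nat_lit 0, nat_lit 4, nat_lit 0x48⟩ (.nil) (.nil)
def t14_5657 : Tr := .node ⟨nat_lit 8, nat_lit 0xa000c000c0, nat_lit 0x111220, nat_lit 2, nat_lit 4, nat_lit 0x49⟩ (.nil) (.nil)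
def t14_13849 : Tr := .node ⟨nat_lit 8, nat_lit 0x80002000c000b000d0, nat_lit 0x22001, nat_lit 0, nat_lit 4, nat_lit 0x46⟩ (.nil) (.nil)
def t14_3609 : Tr := .node ⟨nat_lit 7, nat_lit 0x20006000500070, nat_lit 0x1002122, nat_lit 0, nat_lit 4, nat_lit 0x46⟩ (.nil) (.nil)
def t14_11801 : Tr := .node ⟨nat_lit 7, nat_lit 0x40004000480030, nat_lit 0x100103, nat_lit 2, nat_lit 4, nat_lit 0x47⟩ (.nil) (.nil)
def t14_7705 : Tr := .node ⟨nat_lit 6, nat_lit 0x1000200038, nat_lit 0x112, nat_lit 2, nat_lit 4, nat_lit 0x45⟩ (.nil) (.nil)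
def t9_25 : Tr := .node ⟨nat_lit 5, nat_lit 0x18, nat_lit 0x32111, nat_lit 3, nat_lit 4, nat_lit 0x4a⟩ (.node ⟨nat_lit 6, nat_lit 0x2000100010, nat_lit 0x13030, nat_lit 3, nat_lit 4, nat_lit 0x4a⟩ (.node ⟨nat_lit 1, nat_lit 0, nat_lit 4, nat_lit 8, nat_lit 4, nat_lit 0x44⟩ (.node ⟨nat_lit 6, nat_lit 0x200032, nat_lit 0x112110, nat_lit 0, nat_lit 4, nat_lit 0x48⟩ (.node ⟨nat_lit 6, nat_lit 0x800300030, nat_lit 0x2321, nat_lit 1, nat_lit 4, nat_lit 0x47⟩ (t14_25) (t14_8217)) (.node ⟨nat_lit 6, nat_lit 0x2000080030, nat_lit 0x100100, nat_lit 2, nat_lit 4, nat_lit 0x46⟩ (t14_4121) (t14_12313))) (.node ⟨nat_lit 5, nat_lit 0x18, nat_lit 0x31223, nat_lit 1, nat_lit 4, nat_lit 0x4a⟩ (.node ⟨nat_lit 5, nat_lit 0x100018, nat_lit 0x12231, nat_lit 1, nat_lit 3, nat_lit 0x47⟩ (t14_2073) (t14_10265)) (.node ⟨nat_lit 8, nat_lit 0x20004000a000a000c0, nat_lit 0x1022100,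 nat_lit 0, nat_lit 4, nat_lit 0x47⟩ (t14_6169) (t14_14361)))) (.node ⟨nat_lit 7, nat_lit 0x10002000400064, nat_lit 0x200230, nat_lit 0, nat_lit 4, nat_lit 0x48⟩ (.node ⟨nat_lit 5, nat_lit 0x100010, nat_lit 0x22121, nat_lit 4, nat_lit 4, nat_lit 0x4a⟩ (.node ⟨nat_lit 5, nat_lit 0x1000080014, nat_lit 0x11111, nat_lit 3, nat_lit 4, nat_lit 0x46⟩ (t14_1049) (t14_9241)) (.node ⟨nat_lit 5, nat_lit 0x1000100008, nat_lit 0x12310, nat_lit 4, nat_lit 3, nat_lit 0x47⟩ (t14_5145) (t14_13337))) (.node ⟨nat_lit 6, nat_lit 0x800080030, nat_lit 0x211102, nat_lit 0, nat_lit 4, nat_lit 0x48⟩ (.node ⟨nat_lit 6, nat_lit 0x100020, nat_lit 0x111001, nat_lit 0, nat_lit 4, nat_lit 0x48⟩ (t14_3097) (t14_11289)) (.node ⟨nat_lit 5, nat_lit 0x1000100008, nat_lit 0x1202, nat_lit 5, nat_lit 4, nat_lit 0x47⟩ (t14_7193) (t14_15385))))) (.node ⟨nat_lit 6, nat_lit 0x200030, nat_lit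 0x132110, nat_lit 1, nat_lit 4, nat_lit 0x4a⟩ (.node ⟨nat_lit 5, nat_lit 0x10, nat_lit 0x12212, nat_lit 0, nat_lit 4, nat_lit 0x49⟩ (.node ⟨nat_lit 6, nat_lit 0x2000300030, nat_lit 0x2210, nat_lit 3, nat_lit 4, nat_lit 0x47⟩ (.node ⟨nat_lit 7, nat_lit 0x4000200010, nat_lit 0x21001, nat_lit 9, nat_lit 4, nat_lit 0x4b⟩ (t14_537) (t14_8729)) (.node ⟨nat_lit 6, nat_lit 0x1000280030, nat_lit 0x211032, nat_lit 0, nat_lit 4, nat_lit 0x48⟩ (t14_4633) (t14_12825))) (.node ⟨nat_lit 7, nat_lit 0x40001000680070, nat_lit 0x100012, nat_lit 2, nat_lit 4, nat_lit 0x45⟩ (.node ⟨nat_lit 6, nat_lit 0x2000080030, nat_lit 0x121310, nat_lit 1, nat_lit 4, nat_lit 0x49⟩ (t14_2585) (t14_10777)) (.node ⟨nat_lit 8, nat_lit 0x800080008800c0, nat_lit 0x1211201, nat_lit 0, nat_lit 4, nat_lit 0x4a⟩ (t14_6681) (t14_14873)))) (.node ⟨nat_lit 5, nat_lit 0x80010, nat_lit 0x21121,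 nat_lit 1, nat_lit 3, nat_lit 0x47⟩ (.node ⟨nat_lit 7, nat_lit 0x40001000100068, nat_lit 0x2300101, nat_lit 1, nat_lit 4, nat_lit 0x49⟩ (.node ⟨nat_lit 6, nat_lit 0x2000080030, nat_lit 0x100311, nat_lit 1, nat_lit 4, nat_lit 0x47⟩ (t14_1561) (t14_9753)) (.node ⟨nat_lit 7, nat_lit 0x10002000400040, nat_lit 0x1112100, nat_lit 1, nat_lit 4, nat_lit 0x49⟩ (t14_5657) (t14_13849))) (.node ⟨nat_lit 7, nat_lit 0x10004000440060, nat_lit 0x200102, nat_lit 0, nat_lit 4, nat_lit 0x47⟩ (.node ⟨nat_lit 6, nat_lit 0x1000200030, nat_lit 0x101100, nat_lit 0, nat_lit 4, nat_lit 0x46⟩ (t14_3609) (t14_11801)) (.node ⟨nat_lit 8, nat_lit 0x8000800040009000a00048, nat_lit 0x1112010, nat_lit 0, nat_lit 4, nat_lit 0x47⟩ (t14_7705) (.nil)))))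
def t14_281 : Tr := .node ⟨nat_lit 6, nat_lit 0x2000200030, nat_lit 0x1312, nat_lit 0, nat_lit 3, nat_lit 0x46⟩ (.nil) (.nil)
def t14_8473 : Tr := .node ⟨nat_lit 6, nat_lit 0x1800280030, nat_lit 0x10012, nat_lit 2, nat_lit 4, nat_lit 0x45⟩ (.nil) (.nil)
def t14_4377 : Tr := .node ⟨nat_lit 7, nat_lit 0x400040002000200050, nat_lit 0x1102100, nat_lit 1, nat_lit 4, nat_lit 0x48⟩ (.nil) (.nil)
def t14_12569 : Tr := .node ⟨nat_lit 8, nat_lit 0x800040009000c00060, nat_lit 0x10102030, nat_lit 1, nat_lit 4, nat_lit 0x48⟩ (.nil) (.nil)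
def t14_2329 : Tr := .node ⟨nat_lit 8, nat_lit 0x800040009000d000d0, nat_lit 0x20103010, nat_lit 0, nat_lit 4, nat_lit 0x48⟩ (.nil) (.nil)
def t14_10521 : Tr := .node ⟨nat_lit 7, nat_lit 0x40004800580068, nat_lit 0x1100002, nat_lit 2, nat_lit 4, nat_lit 0x46⟩ (.nil) (.nil)
def t14_6425 : Tr := .node ⟨nat_lit 7, nat_lit 0x400020, nat_lit 0x111101, nat_lit 2, nat_lit 3, nat_lit 0x49⟩ (.nil) (.nil)
def t14_14617 : Tr := .node ⟨nat_lit 9, nat_lit 0x10000800120012001400180, nat_lit 0x1101111, nat_lit 2, nat_lit 4, nat_lit 0x48⟩ (.nil) (.nil)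
def t14_1305 : Tr := .node ⟨nat_lit 6, nat_lit 0x10002000240038, nat_lit 0x11112, nat_lit 2, nat_lit 4, nat_lit 0x45⟩ (.nil) (.nil)
def t14_9497 : Tr := .node ⟨nat_lit 8, nat_lit 0x400080008000800088, nat_lit 0x101211, nat_lit 5, nat_lit 4, nat_lit 0x4a⟩ (.nil) (.nil)
def t14_5401 : Tr := .node ⟨nat_lit 6, nat_lit 0x2000240030, nat_lit 0x11302, nat_lit 4, nat_lit 4, nat_lit 0x48⟩ (.nil) (.nil)
def t14_13593 : Tr := .node ⟨nat_lit 8, nat_lit 0x80002000400040, nat_lit 0x10200, nat_lit 2, nat_lit 4, nat_lit 0x49⟩ (.nil) (.nil)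
def t14_3353 : Tr := .node ⟨nat_lit 7, nat_lit 0x20002000400060, nat_lit 0x22012, nat_lit 0, nat_lit 4, nat_lit 0x48⟩ (.nil) (.nil)
def t14_11545 : Tr := .node ⟨nat_lit 5, nat_lit 0x1000180018, nat_lit 0x1210, nat_lit 9, nat_lit 4, nat_lit 0x47⟩ (.nil) (.nil)
def t14_7449 : Tr := .node ⟨nat_lit 6, nat_lit 0x800300030, nat_lit 0x111111, nat_lit 5, nat_lit 4, nat_lit 0x48⟩ (.nil) (.nil)
def t14_793 : Tr := .node ⟨nat_lit 6, nat_lit 0x2000100010, nat_lit 0x101031, nat_lit 1, nat_lit 4, nat_lit 0x48⟩ (.nil) (.nil)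
def t14_8985 : Tr := .node ⟨nat_lit 9, nat_lit 0x100010001000080014001100120, nat_lit 0x11110010, nat_lit 3, nat_lit 4, nat_lit 0x49⟩ (.nil) (.nil)
def t14_4889 : Tr := .node ⟨nat_lit 7, nat_lit 0x200040, nat_lit 0x1211110, nat_lit 3, nat_lit 4, nat_lit 0x4c⟩ (.nil) (.nil)
def t14_13081 : Tr := .node ⟨nat_lit 7, nat_lit 0x40002000200048, nat_lit 0x2100, nat_lit 0, nat_lit 4, nat_lit 0x47⟩ (.nil) (.nil)
def t14_2841 : Tr := .node ⟨nat_lit 8, nat_lit 0x2000c000c0, nat_lit 0x111020, nat_lit 0, nat_lit 4, nat_lit 0x49⟩ (.nil) (.nil)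
def t14_11033 : Tr := .node ⟨nat_lit 8, nat_lit 0x8000c000c0, nat_lit 0x10111120, nat_lit 0, nat_lit 4, nat_lit 0x4a⟩ (.nil) (.nil)
def t14_6937 : Tr := .node ⟨nat_lit 8, nat_lit 0x200080008800c000c8, nat_lit 0x21000012, nat_lit 1, nat_lit 4, nat_lit 0x48⟩ (.nil) (.nil)
def t14_15129 : Tr := .node ⟨nat_lit 8, nat_lit 0x8000400090006000d0, nat_lit 0x11111, nat_lit 0, nat_lit 4, nat_lit 0x46⟩ (.nil) (.nil)
def t14_1817 : Tr := .node ⟨nat_lit 7, nat_lit 0x800600050, nat_lit 0x1020002, nat_lit 3, nat_lit 4, nat_lit 0x49⟩ (.nil) (.nil)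
def t14_10009 : Tr := .node ⟨nat_lit 7, nat_lit 0x30005000500060, nat_lit 0x103203, nat_lit 0, nat_lit 4, nat_lit 0x46⟩ (.nil) (.nil)
def t14_5913 : Tr := .node ⟨nat_lit 7, nat_lit 0x4000400040, nat_lit 0x111210, nat_lit 6, nat_lit 4, nat_lit 0x4b⟩ (.nil) (.nil)
def t14_14105 : Tr := .node ⟨nat_lit 7, nat_lit 0x40001000600068, nat_lit 0x1111, nat_lit 0, nat_lit 4, nat_lit 0x45⟩ (.nil) (.nil)
def t14_3865 : Tr := .node ⟨nat_lit 7, nat_lit 0x1800500060, nat_lit 0x1111121, nat_lit 0, nat_lit 4, nat_lit 0x48⟩ (.nil) (.nil)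
def t14_12057 : Tr := .node ⟨nat_lit 7, nat_lit 0x2000400060, nat_lit 0x111020, nat_lit 1, nat_lit 4, nat_lit 0x49⟩ (.nil) (.nil)
def t14_7961 : Tr := .node ⟨nat_lit 0xb, nat_lit 0x200040004000100041004200420, nat_lit 0x10100021, nat_lit 0, nat_lit 4, nat_lit 0x4a⟩ (.nil) (.nil)
def t9_281 : Tr := .node ⟨nat_lit 6, nat_lit 0x200030, nat_lit 0x13211, nat_lit 0, nat_lit 4, nat_lit 0x49⟩ (.node ⟨nat_lit 6, nat_lit 0x1000200022, nat_lit 0x302011, nat_lit 5, nat_lit 4, nat_lit 0x4a⟩ (.node ⟨nat_lit 7, nat_lit 0x200040004800300070, nat_lit 0x1302101, nat_lit 0, nat_lit 4, nat_lit 0x48⟩ (.node ⟨nat_lit 6, nat_lit 0x30, nat_lit 0x211113, nat_lit 0, nat_lit 4, nat_lit 0x4a⟩ (.node ⟨nat_lit 7, nat_lit 0x10002000400070, nat_lit 0x211102, nat_lit 1, nat_lit 4, nat_lit 0x48⟩ (t14_281) (t14_8473)) (.node ⟨nat_lit 8, nat_lit 0x2000800080004000c0, nat_lit 0x1001103,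 nat_lit 2, nat_lit 4, nat_lit 0x49⟩ (t14_4377) (t14_12569))) (.node ⟨nat_lit 4, nat_lit 0x8000c, nat_lit 0x2012, nat_lit 4, nat_lit 3, nat_lit 0x45⟩ (.node ⟨nat_lit 7, nat_lit 0x40002000500068, nat_lit 0x102213, nat_lit 1, nat_lit 4, nat_lit 0x47⟩ (t14_2329) (t14_10521)) (.node ⟨nat_lit 7, nat_lit 0x400040, nat_lit 0x211122, nat_lit 0, nat_lit 4, nat_lit 0x4b⟩ (t14_6425) (t14_14617)))) (.node ⟨nat_lit 7, nat_lit 0x40002000480064, nat_lit 0x1211101, nat_lit 0, nat_lit 4, nat_lit 0x48⟩ (.node ⟨nat_lit 5, nat_lit 0x80010, nat_lit 0x22113, nat_lit 3, nat_lit 4, nat_lit 0x4a⟩ (.node ⟨nat_lit 6, nat_lit 0x2000080034, nat_lit 0x101100, nat_lit 1, nat_lit 4, nat_lit 0x46⟩ (t14_1305) (t14_9497)) (.node ⟨nat_lit 6, nat_lit 0x2000100030, nat_lit 0x11222, nat_lit 2, nat_lit 4, nat_lit 0x48⟩ (t14_5401) (t14_13593))) (.node ⟨nat_lit 6, nat_lit 0x200010, nat_lit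 0x12130, nat_lit 0, nat_lit 4, nat_lit 0x49⟩ (.node ⟨nat_lit 5, nat_lit 0x18, nat_lit 0x20310, nat_lit 2, nat_lit 3, nat_lit 0x48⟩ (t14_3353) (t14_11545)) (.node ⟨nat_lit 7, nat_lit 0x10002000500060, nat_lit 0x1111121, nat_lit 1, nat_lit 4, nat_lit 0x48⟩ (t14_7449) (.nil))))) (.node ⟨nat_lit 7, nat_lit 0x4000100060, nat_lit 0x13010, nat_lit 1, nat_lit 4, nat_lit 0x49⟩ (.node ⟨nat_lit 5, nat_lit 0x40018, nat_lit 0x20112, nat_lit 1, nat_lit 4, nat_lit 0x46⟩ (.node ⟨nat_lit 5, nat_lit 0x100018, nat_lit 0x1112, nat_lit 2, nat_lit 4, nat_lit 0x46⟩ (.node ⟨nat_lit 7, nat_lit 0x20004000100068, nat_lit 0x222001, nat_lit 1, nat_lit 4, nat_lit 0x49⟩ (t14_793) (t14_8985)) (.node ⟨nat_lit 6, nat_lit 0x10002000240038, nat_lit 0x112201, nat_lit 2, nat_lit 4, nat_lit 0x47⟩ (t14_4889) (t14_13081))) (.node ⟨nat_lit 6, nat_lit 0x2000100008, nat_lit 0x11001, nat_lit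 2, nat_lit 4, nat_lit 0x47⟩ (.node ⟨nat_lit 8, nat_lit 0x80008000400040, nat_lit 0x1111030, nat_lit 1, nat_lit 4, nat_lit 0x4b⟩ (t14_2841) (t14_11033)) (.node ⟨nat_lit 6, nat_lit 0x2000280030, nat_lit 0x22110, nat_lit 0, nat_lit 3, nat_lit 0x46⟩ (t14_6937) (t14_15129)))) (.node ⟨nat_lit 7, nat_lit 0x20004000400044, nat_lit 0x1010212, nat_lit 0, nat_lit 4, nat_lit 0x49⟩ (.node ⟨nat_lit 5, nat_lit 0x1000100008, nat_lit 0x11111, nat_lit 3, nat_lit 3, nat_lit 0x46⟩ (.node ⟨nat_lit 5, nat_lit 0x100018, nat_lit 0x1114, nat_lit 3, nat_lit 4, nat_lit 0x47⟩ (t14_1817) (t14_10009)) (.node ⟨nat_lit 7, nat_lit 0x1000600050, nat_lit 0x1112012, nat_lit 0, nat_lit 4, nat_lit 0x49⟩ (t14_5913) (t14_14105))) (.node ⟨nat_lit 7, nat_lit 0x40004000480030, nat_lit 0x1200102, nat_lit 1, nat_lit 4, nat_lit 0x48⟩ (.node ⟨nat_lit 6, nat_lit 0x800300038, nat_lit 0x201103,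 nat_lit 3, nat_lit 4, nat_lit 0x47⟩ (t14_3865) (t14_12057)) (.node ⟨nat_lit 4, nat_lit 0x8000c, nat_lit 0x1120, nat_lit 5, nat_lit 4, nat_lit 0x46⟩ (t14_7961) (.nil)))))
def t14_153 : Tr := .node ⟨nat_lit 7, nat_lit 0x20002000500068, nat_lit 0x1111211, nat_lit 0, nat_lit 4, nat_lit 0x48⟩ (.nil) (.nil)
def t14_8345 : Tr := .node ⟨nat_lit 5, nat_lit 0x140018, nat_lit 0x1020, nat_lit 4, nat_lit 4, nat_lit 0x45⟩ (.nil) (.nil)
def t14_4249 : Tr := .node ⟨nat_lit 5, nat_lit 0x40018, nat_lit 0x10230, nat_lit 2, nat_lit 4, nat_lit 0x48⟩ (.nil) (.nil)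
def t14_12441 : Tr := .node ⟨nat_lit 8, nat_lit 0x400080008000c000c8, nat_lit 0x110130, nat_lit 2, nat_lit 4, nat_lit 0x48⟩ (.nil) (.nil)
def t14_2201 : Tr := .node ⟨nat_lit 8, nat_lit 0x800080002000c0, nat_lit 0x1112200, nat_lit 0, nat_lit 4, nat_lit 0x4a⟩ (.nil) (.nil)
def t14_10393 : Tr := .node ⟨nat_lit 8, nat_lit 0x80004000a000a000a000c0, nat_lit 0x10030002, nat_lit 1, nat_lit 4, nat_lit 0x47⟩ (.nil) (.nil)
def t14_6297 : Tr := .node ⟨nat_lit 5, nat_lit 0x1000180018, nat_lit 0x210, nat_lit 9, nat_lit 4, nat_lit 0x46⟩ (.nil) (.nil)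
def t14_14489 : Tr := .node ⟨nat_lit 8, nat_lit 0x400040008000c0, nat_lit 0x111012, nat_lit 0, nat_lit 4, nat_lit 0x49⟩ (.nil) (.nil)
def t14_1177 : Tr := .node ⟨nat_lit 7, nat_lit 0x40001000200048, nat_lit 0x110011, nat_lit 1, nat_lit 4, nat_lit 0x47⟩ (.nil) (.nil)
def t14_9369 : Tr := .node ⟨nat_lit 7, nat_lit 0x40001000600050, nat_lit 0x12212, nat_lit 2, nat_lit 4, nat_lit 0x48⟩ (.nil) (.nil)
def t14_5273 : Tr := .node ⟨nat_lit 7, nat_lit 0x40002000480060, nat_lit 0x1112110, nat_lit 1, nat_lit 4, nat_lit 0x49⟩ (.nil) (.nil)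
def t14_13465 : Tr := .node ⟨nat_lit 5, nat_lit 0x1000100018, nat_lit 0x320, nat_lit 5, nat_lit 4, nat_lit 0x47⟩ (.nil) (.nil)
def t14_3225 : Tr := .node ⟨nat_lit 9, nat_lit 0x10000800080004000400180, nat_lit 0x1011102, nat_lit 0, nat_lit 4, nat_lit 0x49⟩ (.nil) (.nil)
def t14_11417 : Tr := .node ⟨nat_lit 6, nat_lit 0x2000080030, nat_lit 0x200210, nat_lit 0, nat_lit 4, nat_lit 0x47⟩ (.nil) (.nil)
def t14_7321 : Tr := .node ⟨nat_lit 7, nat_lit 0x4000200020, nat_lit 0x2100111, nat_lit 1, nat_lit 3, nat_lit 0x49⟩ (.nil) (.nil)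
def t14_15513 : Tr := .node ⟨nat_lit 8, nat_lit 0x400080006000a000c0, nat_lit 0x100212, nat_lit 0, nat_lit 4, nat_lit 0x47⟩ (.nil) (.nil)
def t14_665 : Tr := .node ⟨nat_lit 6, nat_lit 0x2000100010, nat_lit 0x1031, nat_lit 3, nat_lit 4, nat_lit 0x48⟩ (.nil) (.nil)
def t14_8857 : Tr := .node ⟨nat_lit 7, nat_lit 0x400040002000200050, nat_lit 0x10101, nat_lit 5, nat_lit 4, nat_lit 0x47⟩ (.nil) (.nil)
def t14_4761 : Tr := .node ⟨nat_lit 5, nat_lit 0x1000080018, nat_lit 0x1212, nat_lit 6, nat_lit 4, nat_lit 0x47⟩ (.nil) (.nil)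
def t14_12953 : Tr := .node ⟨nat_lit 4, nat_lit 0x8000c, nat_lit 0x120, nat_lit 0xc, nat_lit 4, nat_lit 0x47⟩ (.nil) (.nil)
def t14_2713 : Tr := .node ⟨nat_lit 6, nat_lit 0x280030, nat_lit 0x101001, nat_lit 0, nat_lit 4, nat_lit 0x46⟩ (.nil) (.nil)
def t14_10905 : Tr := .node ⟨nat_lit 7, nat_lit 0x400020002000500060, nat_lit 0x12104, nat_lit 0, nat_lit 4, nat_lit 0x47⟩ (.nil) (.nil)
def t14_6809 : Tr := .node ⟨nat_lit 7, nat_lit 0x2000500064, nat_lit 0x121101, nat_lit 0, nat_lit 4, nat_lit 0x48⟩ (.nil) (.nil)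
def t14_15001 : Tr := .node ⟨nat_lit 9, nat_lit 0x10000800120012001800140, nat_lit 0x1111101, nat_lit 1, nat_lit 4, nat_lit 0x48⟩ (.nil) (.nil)
def t14_1689 : Tr := .node ⟨nat_lit 8, nat_lit 0x80009000c0006000d0, nat_lit 0x110212, nat_lit 0, nat_lit 4, nat_lit 0x46⟩ (.nil) (.nil)
def t14_9881 : Tr := .node ⟨nat_lit 7, nat_lit 0x200020004000440030, nat_lit 0x1023002, nat_lit 1, nat_lit 4, nat_lit 0x48⟩ (.nil) (.nil)
def t14_5785 : Tr := .node ⟨nat_lit 6, nat_lit 0x30, nat_lit 0x101112, nat_lit 2, nat_lit 4, nat_lit 0x49⟩ (.nil) (.nil)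
def t14_13977 : Tr := .node ⟨nat_lit 6, nat_lit 0x2000080034, nat_lit 0x1220, nat_lit 0, nat_lit 4, nat_lit 0x46⟩ (.nil) (.nil)
def t14_3737 : Tr := .node ⟨nat_lit 8, nat_lit 0x4000800090006000d000d0, nat_lit 0x10110020, nat_lit 1, nat_lit 4, nat_lit 0x46⟩ (.nil) (.nil)
def t14_11929 : Tr := .node ⟨nat_lit 5, nat_lit 0x1000080014, nat_lit 0x130, nat_lit 6, nat_lit 4, nat_lit 0x46⟩ (.nil) (.nil)
def t14_7833 : Tr := .node ⟨nat_lit 5, nat_lit 0x100012, nat_lit 0x2123, nat_lit 5, nat_lit 4, nat_lit 0x48⟩ (.nil) (.nil)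
def t9_153 : Tr := .node ⟨nat_lit 6, nat_lit 0x20, nat_lit 0x311111, nat_lit 3, nat_lit 4, nat_lit 0x4c⟩ (.node ⟨nat_lit 4, nat_lit 0xc, nat_lit 0x3120, nat_lit 3, nat_lit 3, nat_lit 0x47⟩ (.node ⟨nat_lit 5, nat_lit 0x40018, nat_lit 0x10302, nat_lit 2, nat_lit 4, nat_lit 0x47⟩ (.node ⟨nat_lit 3, nat_lit 6, nat_lit 0x212, nat_lit 0xc, nat_lit 4, nat_lit 0x47⟩ (.node ⟨nat_lit 6, nat_lit 0x800300030, nat_lit 0x2221, nat_lit 2, nat_lit 4, nat_lit 0x47⟩ (t14_153) (t14_8345)) (.node ⟨nat_lit 6, nat_lit 0x800300038, nat_lit 0x101033, nat_lit 2, nat_lit 4, nat_lit 0x46⟩ (t14_4249) (t14_12441))) (.node ⟨nat_lit 7, nat_lit 0x4000400060, nat_lit 0x121110, nat_lit 0, nat_lit 4, nat_lit 0x49⟩ (.node ⟨nat_lit 6, nat_lit 0x800200030, nat_lit 0x120031, nat_lit 3, nat_lit 3, nat_lit 0x47⟩ (t14_2201) (t14_10393)) (.node ⟨nat_lit 7, nat_lit 0x500060, nat_lit 0x1211120,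 nat_lit 0, nat_lit 4, nat_lit 0x4a⟩ (t14_6297) (t14_14489)))) (.node ⟨nat_lit 3, nat_lit 4, nat_lit 0x221, nat_lit 8, nat_lit 4, nat_lit 0x47⟩ (.node ⟨nat_lit 6, nat_lit 0x300030, nat_lit 0x211122, nat_lit 0, nat_lit 4, nat_lit 0x49⟩ (.node ⟨nat_lit 5, nat_lit 0x100008, nat_lit 0x3101, nat_lit 0, nat_lit 3, nat_lit 0x47⟩ (t14_1177) (t14_9369)) (.node ⟨nat_lit 6, nat_lit 0x2000300030, nat_lit 0x2021, nat_lit 1, nat_lit 3, nat_lit 0x45⟩ (t14_5273) (t14_13465))) (.node ⟨nat_lit 6, nat_lit 0x10002000240038, nat_lit 0x112200, nat_lit 3, nat_lit 4, nat_lit 0x47⟩ (.node ⟨nat_lit 7, nat_lit 0x10002000500060, nat_lit 0x113002, nat_lit 1, nat_lit 4, nat_lit 0x48⟩ (t14_3225) (t14_11417)) (.node ⟨nat_lit 6, nat_lit 0x800300030, nat_lit 0x101010, nat_lit 1, nat_lit 3, nat_lit 0x45⟩ (t14_7321) (t14_15513))))) (.node ⟨nat_lit 3, nat_lit 6, nat_lit 0x322, nat_lit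 2, nat_lit 3, nat_lit 0x46⟩ (.node ⟨nat_lit 6, nat_lit 0x800080030, nat_lit 0x220102, nat_lit 0, nat_lit 4, nat_lit 0x48⟩ (.node ⟨nat_lit 7, nat_lit 0x400020002800500050, nat_lit 0x210011, nat_lit 0, nat_lit 4, nat_lit 0x46⟩ (.node ⟨nat_lit 5, nat_lit 0x40018, nat_lit 0x31002, nat_lit 3, nat_lit 4, nat_lit 0x48⟩ (t14_665) (t14_8857)) (.node ⟨nat_lit 8, nat_lit 0x400080006000a000d0, nat_lit 0x1020021, nat_lit 1, nat_lit 4, nat_lit 0x47⟩ (t14_4761) (t14_12953))) (.node ⟨nat_lit 5, nat_lit 0x40018, nat_lit 0x11101, nat_lit 2, nat_lit 4, nat_lit 0x46⟩ (.node ⟨nat_lit 6, nat_lit 0x200030, nat_lit 0x22113, nat_lit 0, nat_lit 4, nat_lit 0x49⟩ (t14_2713) (t14_10905)) (.node ⟨nat_lit 7, nat_lit 0x10001000100060, nat_lit 0x1101102, nat_lit 0, nat_lit 4, nat_lit 0x48⟩ (t14_6809) (t14_15001)))) (.node ⟨nat_lit 5, nat_lit 0x100008, nat_lit 0x200, nat_lit 0xd,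 nat_lit 4, nat_lit 0x49⟩ (.node ⟨nat_lit 7, nat_lit 0x600050, nat_lit 0x21111, nat_lit 1, nat_lit 4, nat_lit 0x49⟩ (.node ⟨nat_lit 5, nat_lit 0x180014, nat_lit 0x11114, nat_lit 2, nat_lit 4, nat_lit 0x47⟩ (t14_1689) (t14_9881)) (.node ⟨nat_lit 7, nat_lit 0x4000200060, nat_lit 0x22012, nat_lit 1, nat_lit 4, nat_lit 0x49⟩ (t14_5785) (t14_13977))) (.node ⟨nat_lit 7, nat_lit 0x10001000100060, nat_lit 0x2002202, nat_lit 0, nat_lit 4, nat_lit 0x49⟩ (.node ⟨nat_lit 6, nat_lit 0x280030, nat_lit 0x1001, nat_lit 0, nat_lit 4, nat_lit 0x45⟩ (t14_3737) (t14_11929)) (.node ⟨nat_lit 6, nat_lit 0x800300028, nat_lit 0x1201, nat_lit 1, nat_lit 4, nat_lit 0x46⟩ (t14_7833) (.nil)))))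
def t14_409 : Tr := .node ⟨nat_lit 6, nat_lit 0x10001000100020, nat_lit 0x112101, nat_lit 5, nat_lit 4, nat_lit 0x49⟩ (.nil) (.nil)
def t14_8601 : Tr := .node ⟨nat_lit 7, nat_lit 0x400020002000500050, nat_lit 0x11010, nat_lit 2, nat_lit 4, nat_lit 0x46⟩ (.nil) (.nil)
def t14_4505 : Tr := .node ⟨nat_lit 7, nat_lit 0x40004800300068, nat_lit 0x120013, nat_lit 0, nat_lit 4, nat_lit 0x46⟩ (.nil) (.nil)
def t14_12697 : Tr := .node ⟨nat_lit 6, nat_lit 0x20001000100028, nat_lit 0x102002, nat_lit 2, nat_lit 4, nat_lit 0x47⟩ (.nil) (.nil)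
def t14_2457 : Tr := .node ⟨nat_lit 7, nat_lit 0x4000600050, nat_lit 0x12210, nat_lit 3, nat_lit 4, nat_lit 0x49⟩ (.nil) (.nil)
def t14_10649 : Tr := .node ⟨nat_lit 7, nat_lit 0x40003000500068, nat_lit 0x1021, nat_lit 1, nat_lit 4, nat_lit 0x45⟩ (.nil) (.nil)
def t14_6553 : Tr := .node ⟨nat_lit 8, nat_lit 0x1000a000c0, nat_lit 0x1101021, nat_lit 0, nat_lit 4, nat_lit 0x49⟩ (.nil) (.nil)
def t14_14745 : Tr := .node ⟨nat_lit 7, nat_lit 0x40003000500068, nat_lit 0x111112, nat_lit 0, nat_lit 4, nat_lit 0x46⟩ (.nil) (.nil)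
def t14_1433 : Tr := .node ⟨nat_lit 7, nat_lit 0x10001000600060, nat_lit 0x11130, nat_lit 0, nat_lit 4, nat_lit 0x47⟩ (.nil) (.nil)
def t14_9625 : Tr := .node ⟨nat_lit 8, nat_lit 0x200080004000c000c4, nat_lit 0x2120, nat_lit 1, nat_lit 4, nat_lit 0x47⟩ (.nil) (.nil)
def t14_5529 : Tr := .node ⟨nat_lit 6, nat_lit 0x2000100010, nat_lit 0x101031, nat_lit 3, nat_lit 3, nat_lit 0x47⟩ (.nil) (.nil)
def t14_13721 : Tr := .node ⟨nat_lit 8, nat_lit 0x200080001000c0, nat_lit 0x210, nat_lit 1, nat_lit 4, nat_lit 0x48⟩ (.nil) (.nil)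
def t14_3481 : Tr := .node ⟨nat_lit 6, nat_lit 0x800300028, nat_lit 0x201, nat_lit 1, nat_lit 4, nat_lit 0x45⟩ (.nil) (.nil)
def t14_11673 : Tr := .node ⟨nat_lit 8, nat_lit 0x800020002000c000c0, nat_lit 0x31010, nat_lit 2, nat_lit 4, nat_lit 0x48⟩ (.nil) (.nil)
def t14_7577 : Tr := .node ⟨nat_lit 5, nat_lit 0x1000080008, nat_lit 0x221, nat_lit 3, nat_lit 4, nat_lit 0x46⟩ (.nil) (.nil)
def t14_921 : Tr := .node ⟨nat_lit 6, nat_lit 0x20001000100028, nat_lit 0x101321, nat_lit 0, nat_lit 4, nat_lit 0x47⟩ (.nil) (.nil)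
def t14_9113 : Tr := .node ⟨nat_lit 8, nat_lit 0x800040009000a000c8, nat_lit 0x1111012, nat_lit 0, nat_lit 4, nat_lit 0x47⟩ (.nil) (.nil)
def t14_5017 : Tr := .node ⟨nat_lit 6, nat_lit 0x800300028, nat_lit 0x1011, nat_lit 4, nat_lit 4, nat_lit 0x46⟩ (.nil) (.nil)
def t14_13209 : Tr := .node ⟨nat_lit 6, nat_lit 0x20001000280034, nat_lit 0x2000, nat_lit 7, nat_lit 4, nat_lit 0x46⟩ (.nil) (.nil)
def t14_2969 : Tr := .node ⟨nat_lit 8, nat_lit 0x400080008000200088, nat_lit 0x101201, nat_lit 4, nat_lit 4, nat_lit 0x49⟩ (.nil) (.nil)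
def t14_11161 : Tr := .node ⟨nat_lit 6, nat_lit 0x2000300028, nat_lit 0x1110, nat_lit 3, nat_lit 4, nat_lit 0x46⟩ (.nil) (.nil)
def t14_7065 : Tr := .node ⟨nat_lit 5, nat_lit 0x180018, nat_lit 0x10211, nat_lit 9, nat_lit 4, nat_lit 0x48⟩ (.nil) (.nil)
def t14_15257 : Tr := .node ⟨nat_lit 6, nat_lit 0x20002000300038, nat_lit 0x11021, nat_lit 7, nat_lit 4, nat_lit 0x47⟩ (.nil) (.nil)
def t14_1945 : Tr := .node ⟨nat_lit 6, nat_lit 0x200038, nat_lit 0x200012, nat_lit 0, nat_lit 4, nat_lit 0x47⟩ (.nil) (.nil)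
def t14_10137 : Tr := .node ⟨nat_lit 7, nat_lit 0x40001000600060, nat_lit 0x1210, nat_lit 0, nat_lit 4, nat_lit 0x46⟩ (.nil) (.nil)
def t14_6041 : Tr := .node ⟨nat_lit 8, nat_lit 0x80008000400040, nat_lit 0x211011, nat_lit 1, nat_lit 4, nat_lit 0x4a⟩ (.nil) (.nil)
def t14_14233 : Tr := .node ⟨nat_lit 7, nat_lit 0x10002000400060, nat_lit 0x100112, nat_lit 3, nat_lit 4, nat_lit 0x48⟩ (.nil) (.nil)
def t14_3993 : Tr := .node ⟨nat_lit 6, nat_lit 0x1000280034, nat_lit 0x100201, nat_lit 3, nat_lit 4, nat_lit 0x46⟩ (.nil) (.nil)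
def t14_12185 : Tr := .node ⟨nat_lit 7, nat_lit 0x200020004000400070, nat_lit 0x11210, nat_lit 3, nat_lit 4, nat_lit 0x47⟩ (.nil) (.nil)
def t14_8089 : Tr := .node ⟨nat_lit 5, nat_lit 0x1000140018, nat_lit 0x1140, nat_lit 4, nat_lit 4, nat_lit 0x46⟩ (.nil) (.nil)
def t9_409 : Tr := .node ⟨nat_lit 5, nat_lit 0x10, nat_lit 0x23201, nat_lit 0, nat_lit 4, nat_lit 0x4a⟩ (.node ⟨nat_lit 7, nat_lit 0x4000400020, nat_lit 0x132101, nat_lit 2, nat_lit 4, nat_lit 0x4b⟩ (.node ⟨nat_lit 4, nat_lit 8, nat_lit 0x221, nat_lit 4, nat_lit 4, nat_lit 0x47⟩ (.node ⟨nat_lit 6, nat_lit 0x800300030, nat_lit 0x101331, nat_lit 0, nat_lit 4, nat_lit 0x47⟩ (.node ⟨nat_lit 5, nat_lit 0x800100018, nat_lit 0x311, nat_lit 1, nat_lit 3, nat_lit 0x44⟩ (t14_409) (t14_8601)) (.node ⟨nat_lit 8, nat_lit 0x800080004000980098, nat_lit 0x10120021, nat_lit 0, nat_lit 4, nat_lit 0x48⟩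 (t14_4505) (t14_12697))) (.node ⟨nat_lit 4, nat_lit 0x40008, nat_lit 0x1021, nat_lit 6, nat_lit 3, nat_lit 0x45⟩ (.node ⟨nat_lit 6, nat_lit 0x800200032, nat_lit 0x10021, nat_lit 2, nat_lit 4, nat_lit 0x46⟩ (t14_2457) (t14_10649)) (.node ⟨nat_lit 7, nat_lit 0x40001000500068, nat_lit 0x1200021, nat_lit 1, nat_lit 4, nat_lit 0x47⟩ (t14_6553) (t14_14745)))) (.node ⟨nat_lit 6, nat_lit 0x1000200034, nat_lit 0x102101, nat_lit 0, nat_lit 4, nat_lit 0x46⟩ (.node ⟨nat_lit 5, nat_lit 0x100018, nat_lit 0x10231, nat_lit 3, nat_lit 4, nat_lit 0x48⟩ (.node ⟨nat_lit 6, nat_lit 0x200030, nat_lit 0x1120, nat_lit 1, nat_lit 4, nat_lit 0x47⟩ (t14_1433) (t14_9625)) (.node ⟨nat_lit 9, nat_lit 0x800100004000400108, nat_lit 0x101200210, nat_lit 0, nat_lit 4, nat_lit 0x4b⟩ (t14_5529) (t14_13721))) (.node ⟨nat_lit 5, nat_lit 0x100010, nat_lit 0x1122, nat_lit 4, nat_lit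 4, nat_lit 0x48⟩ (.node ⟨nat_lit 7, nat_lit 0x5000300060, nat_lit 0x1111030, nat_lit 0, nat_lit 4, nat_lit 0x48⟩ (t14_3481) (t14_11673)) (.node ⟨nat_lit 6, nat_lit 0x280030, nat_lit 0x111121, nat_lit 5, nat_lit 4, nat_lit 0x49⟩ (t14_7577) (.nil))))) (.node ⟨nat_lit 7, nat_lit 0x1000600060, nat_lit 0x1013121, nat_lit 0, nat_lit 4, nat_lit 0x49⟩ (.node ⟨nat_lit 5, nat_lit 0x18, nat_lit 0x22111, nat_lit 0, nat_lit 4, nat_lit 0x48⟩ (.node ⟨nat_lit 6, nat_lit 0x200022, nat_lit 0x11111, nat_lit 0, nat_lit 4, nat_lit 0x47⟩ (.node ⟨nat_lit 6, nat_lit 0x200030, nat_lit 0x112131, nat_lit 1, nat_lit 4, nat_lit 0x4a⟩ (t14_921) (t14_9113)) (.node ⟨nat_lit 7, nat_lit 0x1000100060, nat_lit 0x2102002, nat_lit 3, nat_lit 4, nat_lit 0x4a⟩ (t14_5017) (t14_13209))) (.node ⟨nat_lit 7, nat_lit 0x2000400042, nat_lit 0x1011021, nat_lit 0, nat_lit 4, nat_lit 0x49⟩ (.node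 ⟨nat_lit 7, nat_lit 0x40004000100020, nat_lit 0x111012, nat_lit 3, nat_lit 4, nat_lit 0x49⟩ (t14_2969) (t14_11161)) (.node ⟨nat_lit 7, nat_lit 0x4000100060, nat_lit 0x1112202, nat_lit 1, nat_lit 4, nat_lit 0x4a⟩ (t14_7065) (t14_15257)))) (.node ⟨nat_lit 4, nat_lit 0x80004, nat_lit 0x211, nat_lit 5, nat_lit 4, nat_lit 0x46⟩ (.node ⟨nat_lit 7, nat_lit 0x40004000480030, nat_lit 0x1201111, nat_lit 3, nat_lit 4, nat_lit 0x49⟩ (.node ⟨nat_lit 6, nat_lit 0x240038, nat_lit 0x121003, nat_lit 0, nat_lit 4, nat_lit 0x47⟩ (t14_1945) (t14_10137)) (.node ⟨nat_lit 7, nat_lit 0x40003000500068, nat_lit 0x1002001, nat_lit 0, nat_lit 4, nat_lit 0x46⟩ (t14_6041) (t14_14233))) (.node ⟨nat_lit 6, nat_lit 0x2000080030, nat_lit 0x11301, nat_lit 1, nat_lit 4, nat_lit 0x47⟩ (.node ⟨nat_lit 5, nat_lit 0x40018, nat_lit 0x11120, nat_lit 2, nat_lit 4, nat_lit 0x47⟩ (t14_3993)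 (t14_12185)) (.node ⟨nat_lit 8, nat_lit 0x40004000800088006000e0, nat_lit 0x1112100, nat_lit 0, nat_lit 4, nat_lit 0x47⟩ (t14_8089) (.nil)))))
def t14_89 : Tr := .node ⟨nat_lit 6, nat_lit 0x10002000300034, nat_lit 0x112111, nat_lit 3, nat_lit 4, nat_lit 0x47⟩ (.nil) (.nil)
def t14_8281 : Tr := .node ⟨nat_lit 5, nat_lit 0x100018001c, nat_lit 0x203, nat_lit 6, nat_lit 4, nat_lit 0x45⟩ (.nil) (.nil)
def t14_4185 : Tr := .node ⟨nat_lit 9, nat_lit 0x10001000040011001200180, nat_lit 0x11111001, nat_lit 1, nat_lit 4, nat_lit 0x49⟩ (.nil) (.nil)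
def t14_12377 : Tr := .node ⟨nat_lit 7, nat_lit 0x40001000500060, nat_lit 0x113101, nat_lit 0, nat_lit 4, nat_lit 0x48⟩ (.nil) (.nil)
def t14_2137 : Tr := .node ⟨nat_lit 5, nat_lit 0x1000100008, nat_lit 0x1200, nat_lit 3, nat_lit 4, nat_lit 0x46⟩ (.nil) (.nil)
def t14_10329 : Tr := .node ⟨nat_lit 7, nat_lit 0x40001000100020, nat_lit 0x210220, nat_lit 0, nat_lit 3, nat_lit 0x48⟩ (.nil) (.nil)
def t14_6233 : Tr := .node ⟨nat_lit 5, nat_lit 0x10, nat_lit 0x1111, nat_lit 4, nat_lit 4, nat_lit 0x48⟩ (.nil) (.nil)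
def t14_14425 : Tr := .node ⟨nat_lit 7, nat_lit 0x20002000500068, nat_lit 0x1001211, nat_lit 1, nat_lit 4, nat_lit 0x47⟩ (.nil) (.nil)
def t14_1113 : Tr := .node ⟨nat_lit 7, nat_lit 0x20002800500068, nat_lit 0x111021, nat_lit 0, nat_lit 4, nat_lit 0x46⟩ (.nil) (.nil)
def t14_9305 : Tr := .node ⟨nat_lit 8, nat_lit 0x20004000a000c000c8, nat_lit 0x2021, nat_lit 0, nat_lit 4, nat_lit 0x46⟩ (.nil) (.nil)
def t14_5209 : Tr := .node ⟨nat_lit 8, nat_lit 0x400080008000840088, nat_lit 0x102111, nat_lit 3, nat_lit 4, nat_lit 0x49⟩ (.nil) (.nil)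
def t14_13401 : Tr := .node ⟨nat_lit 7, nat_lit 0x400020005000280068, nat_lit 0x33000, nat_lit 0, nat_lit 4, nat_lit 0x46⟩ (.nil) (.nil)
def t14_3161 : Tr := .node ⟨nat_lit 7, nat_lit 0x20004000600064, nat_lit 0x21210, nat_lit 0, nat_lit 4, nat_lit 0x47⟩ (.nil) (.nil)
def t14_11353 : Tr := .node ⟨nat_lit 5, nat_lit 0x1000080018, nat_lit 0x10110, nat_lit 5, nat_lit 3, nat_lit 0x45⟩ (.nil) (.nil)
def t14_7257 : Tr := .node ⟨nat_lit 7, nat_lit 0x10001000500060, nat_lit 0x2001021, nat_lit 2, nat_lit 4, nat_lit 0x48⟩ (.nil) (.nil)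
def t14_15449 : Tr := .node ⟨nat_lit 9, nat_lit 0x8000400100010001000188, nat_lit 0x10101102, nat_lit 0, nat_lit 4, nat_lit 0x49⟩ (.nil) (.nil)
def t14_601 : Tr := .node ⟨nat_lit 7, nat_lit 0x10004000400060, nat_lit 0x202, nat_lit 1, nat_lit 4, nat_lit 0x47⟩ (.nil) (.nil)
def t14_8793 : Tr := .node ⟨nat_lit 7, nat_lit 0x40001000100060, nat_lit 0x100103, nat_lit 0, nat_lit 4, nat_lit 0x47⟩ (.nil) (.nil)
def t14_4697 : Tr := .node ⟨nat_lit 7, nat_lit 0x200020004000440070, nat_lit 0x1101000, nat_lit 0, nat_lit 4, nat_lit 0x46⟩ (.nil) (.nil)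
def t14_12889 : Tr := .node ⟨nat_lit 7, nat_lit 0x6000500050, nat_lit 0x1030, nat_lit 3, nat_lit 4, nat_lit 0x47⟩ (.nil) (.nil)
def t14_2649 : Tr := .node ⟨nat_lit 5, nat_lit 0x18001c, nat_lit 0x203, nat_lit 3, nat_lit 4, nat_lit 0x45⟩ (.nil) (.nil)
def t14_10841 : Tr := .node ⟨nat_lit 4, nat_lit 0x8000c, nat_lit 0x2102, nat_lit 7, nat_lit 3, nat_lit 0x46⟩ (.nil) (.nil)
def t14_6745 : Tr := .node ⟨nat_lit 7, nat_lit 0x1000600018, nat_lit 0x1002110, nat_lit 1, nat_lit 4, nat_lit 0x48⟩ (.nil) (.nil)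
def t14_14937 : Tr := .node ⟨nat_lit 8, nat_lit 0x800040009000900090, nat_lit 0x10110111, nat_lit 2, nat_lit 4, nat_lit 0x49⟩ (.nil) (.nil)
def t14_1625 : Tr := .node ⟨nat_lit 7, nat_lit 0x40002000480068, nat_lit 0x11011, nat_lit 1, nat_lit 4, nat_lit 0x46⟩ (.nil) (.nil)
def t14_9817 : Tr := .node ⟨nat_lit 8, nat_lit 0x8000200020002000c0, nat_lit 0x21100, nat_lit 0, nat_lit 4, nat_lit 0x48⟩ (.nil) (.nil)
def t14_5721 : Tr := .node ⟨nat_lit 7, nat_lit 0x40002000480064, nat_lit 0x110020, nat_lit 1, nat_lit 4, nat_lit 0x46⟩ (.nil) (.nil)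
def t14_13913 : Tr := .node ⟨nat_lit 6, nat_lit 0x2000080030, nat_lit 0x11420, nat_lit 1, nat_lit 4, nat_lit 0x48⟩ (.nil) (.nil)
def t14_3673 : Tr := .node ⟨nat_lit 6, nat_lit 0x280030, nat_lit 0x310, nat_lit 2, nat_lit 4, nat_lit 0x47⟩ (.nil) (.nil)
def t14_11865 : Tr := .node ⟨nat_lit 3, nat_lit 6, nat_lit 0x300, nat_lit 6, nat_lit 3, nat_lit 0x45⟩ (.nil) (.nil)
def t14_7769 : Tr := .node ⟨nat_lit 8, nat_lit 0x4000400040008000600084, nat_lit 0x11200, nat_lit 0, nat_lit 4, nat_lit 0x47⟩ (.nil) (.nil)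
def t9_89 : Tr := .node ⟨nat_lit 4, nat_lit 0x40008, nat_lit 0x1110, nat_lit 5, nat_lit 3, nat_lit 0x45⟩ (.node ⟨nat_lit 4, nat_lit 8, nat_lit 0x2220, nat_lit 1, nat_lit 3, nat_lit 0x47⟩ (.node ⟨nat_lit 7, nat_lit 0x20005000500068, nat_lit 0x301202, nat_lit 0, nat_lit 4, nat_lit 0x47⟩ (.node ⟨nat_lit 7, nat_lit 0x40004800480048, nat_lit 0x1210100, nat_lit 1, nat_lit 4, nat_lit 0x48⟩ (.node ⟨nat_lit 5, nat_lit 0x100008, nat_lit 0x2102, nat_lit 0xc, nat_lit 4, nat_lit 0x4a⟩ (t14_89) (t14_8281)) (.node ⟨nat_lit 6, nat_lit 0x20001000280038, nat_lit 0x200200, nat_lit 2, nat_lit 4, nat_lit 0x46⟩ (t14_4185) (t14_12377))) (.node ⟨nat_lit 5, nat_lit 0x100018, nat_lit 0x21112, nat_lit 4, nat_lit 3, nat_lit 0x47⟩ (.node ⟨nat_lit 5, nat_lit 0x100010, nat_lit 0x1140, nat_lit 2, nat_lit 3, nat_lit 0x47⟩ (t14_2137) (t14_10329)) (.node ⟨nat_lit 7, nat_lit 0x40004000400020,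 nat_lit 0x122210, nat_lit 1, nat_lit 4, nat_lit 0x4a⟩ (t14_6233) (t14_14425)))) (.node ⟨nat_lit 4, nat_lit 0xc, nat_lit 0x2020, nat_lit 3, nat_lit 4, nat_lit 0x46⟩ (.node ⟨nat_lit 5, nat_lit 0x100010, nat_lit 0x11111, nat_lit 5, nat_lit 3, nat_lit 0x47⟩ (.node ⟨nat_lit 6, nat_lit 0x800300028, nat_lit 0x111031, nat_lit 1, nat_lit 4, nat_lit 0x47⟩ (t14_1113) (t14_9305)) (.node ⟨nat_lit 5, nat_lit 0x100018, nat_lit 0x1122, nat_lit 5, nat_lit 4, nat_lit 0x47⟩ (t14_5209) (t14_13401))) (.node ⟨nat_lit 4, nat_lit 0x40008, nat_lit 0x1220, nat_lit 8, nat_lit 4, nat_lit 0x48⟩ (.node ⟨nat_lit 6, nat_lit 0x30, nat_lit 0x102110, nat_lit 1, nat_lit 4, nat_lit 0x49⟩ (t14_3161) (t14_11353)) (.node ⟨nat_lit 7, nat_lit 0x20004000100060, nat_lit 0x1000102, nat_lit 1, nat_lit 4, nat_lit 0x47⟩ (t14_7257) (t14_15449))))) (.node ⟨nat_lit 4, nat_lit 0x80004, nat_lit 0x200,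 nat_lit 1, nat_lit 3, nat_lit 0x44⟩ (.node ⟨nat_lit 5, nat_lit 0x10, nat_lit 0x2110, nat_lit 0, nat_lit 4, nat_lit 0x47⟩ (.node ⟨nat_lit 6, nat_lit 0x200030, nat_lit 0x2101, nat_lit 3, nat_lit 4, nat_lit 0x48⟩ (.node ⟨nat_lit 7, nat_lit 0x4000100060, nat_lit 0x2011210, nat_lit 1, nat_lit 4, nat_lit 0x4a⟩ (t14_601) (t14_8793)) (.node ⟨nat_lit 7, nat_lit 0x10002000500060, nat_lit 0x1110122, nat_lit 1, nat_lit 4, nat_lit 0x48⟩ (t14_4697) (t14_12889))) (.node ⟨nat_lit 5, nat_lit 0x100018, nat_lit 0x10122, nat_lit 3, nat_lit 4, nat_lit 0x47⟩ (.node ⟨nat_lit 6, nat_lit 0x2000240030, nat_lit 0x121103, nat_lit 4, nat_lit 4, nat_lit 0x49⟩ (t14_2649) (t14_10841)) (.node ⟨nat_lit 8, nat_lit 0x80008000400040009000a0, nat_lit 0x10111000, nat_lit 7, nat_lit 4, nat_lit 0x49⟩ (t14_6745) (t14_14937)))) (.node ⟨nat_lit 7, nat_lit 0x40002000480064, nat_lit 0x1211100,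 nat_lit 0, nat_lit 4, nat_lit 0x48⟩ (.node ⟨nat_lit 7, nat_lit 0x600060, nat_lit 0x2021110, nat_lit 1, nat_lit 4, nat_lit 0x4a⟩ (.node ⟨nat_lit 5, nat_lit 0x40018, nat_lit 0x10000, nat_lit 2, nat_lit 4, nat_lit 0x44⟩ (t14_1625) (t14_9817)) (.node ⟨nat_lit 7, nat_lit 0x2000200040, nat_lit 0x1122110, nat_lit 1, nat_lit 4, nat_lit 0x4b⟩ (t14_5721) (t14_13913))) (.node ⟨nat_lit 6, nat_lit 0x800200030, nat_lit 0x112200, nat_lit 0, nat_lit 3, nat_lit 0x47⟩ (.node ⟨nat_lit 6, nat_lit 0x10002000180024, nat_lit 0x10100, nat_lit 0, nat_lit 4, nat_lit 0x44⟩ (t14_3673) (t14_11865)) (.node ⟨nat_lit 7, nat_lit 0x200040, nat_lit 0x1111102, nat_lit 0, nat_lit 4, nat_lit 0x4b⟩ (t14_7769) (.nil)))))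
def t14_345 : Tr := .node ⟨nat_lit 6, nat_lit 0x1000200034, nat_lit 0x112211, nat_lit 1, nat_lit 4, nat_lit 0x48⟩ (.nil) (.nil)
def t14_8537 : Tr := .node ⟨nat_lit 7, nat_lit 0x40002000480048, nat_lit 0x1111041, nat_lit 0, nat_lit 4, nat_lit 0x49⟩ (.nil) (.nil)
def t14_4441 : Tr := .node ⟨nat_lit 7, nat_lit 0x40004000200062, nat_lit 0x1122111, nat_lit 0, nat_lit 4, nat_lit 0x49⟩ (.nil) (.nil)
def t14_12633 : Tr := .node ⟨nat_lit 7, nat_lit 0x20004000600050, nat_lit 0x102330, nat_lit 0, nat_lit 4, nat_lit 0x48⟩ (.nil) (.nil)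
def t14_2393 : Tr := .node ⟨nat_lit 7, nat_lit 0x40001000600060, nat_lit 0x122110, nat_lit 0, nat_lit 4, nat_lit 0x48⟩ (.nil) (.nil)
def t14_10585 : Tr := .node ⟨nat_lit 7, nat_lit 0x3000500060, nat_lit 0x102020, nat_lit 1, nat_lit 4, nat_lit 0x47⟩ (.nil) (.nil)
def t14_6489 : Tr := .node ⟨nat_lit 7, nat_lit 0x4000600018, nat_lit 0x1011110, nat_lit 1, nat_lit 4, nat_lit 0x48⟩ (.nil) (.nil)
def t14_14681 : Tr := .node ⟨nat_lit 9, nat_lit 0x100010000800140009001c00190, nat_lit 0x1110110, nat_lit 0, nat_lit 4, nat_lit 0x46⟩ (.nil) (.nil)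
def t14_1369 : Tr := .node ⟨nat_lit 8, nat_lit 0x4000a000d000d000e0, nat_lit 0x1003101, nat_lit 1, nat_lit 4, nat_lit 0x45⟩ (.nil) (.nil)
def t14_9561 : Tr := .node ⟨nat_lit 7, nat_lit 0x400020002000600068, nat_lit 0x21020, nat_lit 5, nat_lit 4, nat_lit 0x47⟩ (.nil) (.nil)
def t14_5465 : Tr := .node ⟨nat_lit 6, nat_lit 0x80030, nat_lit 0x1103, nat_lit 1, nat_lit 4, nat_lit 0x47⟩ (.nil) (.nil)
def t14_13657 : Tr := .node ⟨nat_lit 5, nat_lit 0x100018, nat_lit 0x220, nat_lit 8, nat_lit 4, nat_lit 0x48⟩ (.nil) (.nil)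
def t14_3417 : Tr := .node ⟨nat_lit 5, nat_lit 0x140018, nat_lit 0x2110, nat_lit 3, nat_lit 4, nat_lit 0x46⟩ (.nil) (.nil)
def t14_11609 : Tr := .node ⟨nat_lit 6, nat_lit 0x800300038, nat_lit 0x1210, nat_lit 0, nat_lit 4, nat_lit 0x45⟩ (.nil) (.nil)
def t14_7513 : Tr := .node ⟨nat_lit 8, nat_lit 0x400040008000800084, nat_lit 0x11111110, nat_lit 1, nat_lit 4, nat_lit 0x4a⟩ (.nil) (.nil)
def t14_857 : Tr := .node ⟨nat_lit 7, nat_lit 0x40002000100048, nat_lit 0x112012, nat_lit 1, nat_lit 4, nat_lit 0x48⟩ (.nil) (.nil)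
def t14_9049 : Tr := .node ⟨nat_lit 6, nat_lit 0x20001000100010, nat_lit 0x221, nat_lit 3, nat_lit 3, nat_lit 0x46⟩ (.nil) (.nil)
def t14_4953 : Tr := .node ⟨nat_lit 7, nat_lit 0x10001000600060, nat_lit 0x1110031, nat_lit 1, nat_lit 4, nat_lit 0x48⟩ (.nil) (.nil)
def t14_13145 : Tr := .node ⟨nat_lit 6, nat_lit 0x1000280030, nat_lit 0x1024, nat_lit 0, nat_lit 4, nat_lit 0x46⟩ (.nil) (.nil)
def t14_2905 : Tr := .node ⟨nat_lit 7, nat_lit 0x20005000680070, nat_lit 0x112012, nat_lit 0, nat_lit 4, nat_lit 0x46⟩ (.nil) (.nil)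
def t14_11097 : Tr := .node ⟨nat_lit 7, nat_lit 0x20005000500060, nat_lit 0x201, nat_lit 1, nat_lit 3, nat_lit 0x44⟩ (.nil) (.nil)
def t14_7001 : Tr := .node ⟨nat_lit 7, nat_lit 0x40002000200020, nat_lit 0x110211, nat_lit 1, nat_lit 3, nat_lit 0x48⟩ (.nil) (.nil)
def t14_15193 : Tr := .node ⟨nat_lit 8, nat_lit 0x80001000a000c0, nat_lit 0x1110112, nat_lit 0, nat_lit 4, nat_lit 0x49⟩ (.nil) (.nil)
def t14_1881 : Tr := .node ⟨nat_lit 6, nat_lit 0x1000200022, nat_lit 0x200110, nat_lit 0, nat_lit 4, nat_lit 0x47⟩ (.nil) (.nil)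
def t14_10073 : Tr := .node ⟨nat_lit 7, nat_lit 0x200040003000480068, nat_lit 0x1000000, nat_lit 0, nat_lit 4, nat_lit 0x44⟩ (.nil) (.nil)
def t14_5977 : Tr := .node ⟨nat_lit 9, nat_lit 0x100008000800180, nat_lit 0x1110112, nat_lit 0, nat_lit 4, nat_lit 0x4b⟩ (.nil) (.nil)
def t14_14169 : Tr := .node ⟨nat_lit 8, nat_lit 0x800020004000c0, nat_lit 0x110012, nat_lit 2, nat_lit 4, nat_lit 0x49⟩ (.nil) (.nil)
def t14_3929 : Tr := .node ⟨nat_lit 6, nat_lit 0x2000080034, nat_lit 0x100100, nat_lit 0, nat_lit 4, nat_lit 0x45⟩ (.nil) (.nil)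
def t14_12121 : Tr := .node ⟨nat_lit 7, nat_lit 0x1000600050, nat_lit 0x1001210, nat_lit 2, nat_lit 4, nat_lit 0x48⟩ (.nil) (.nil)
def t14_8025 : Tr := .node ⟨nat_lit 7, nat_lit 0x40002000100048, nat_lit 0x111003, nat_lit 0, nat_lit 4, nat_lit 0x47⟩ (.nil) (.nil)
def t9_345 : Tr := .node ⟨nat_lit 3, nat_lit 0, nat_lit 0x331, nat_lit 0xb, nat_lit 4, nat_lit 0x4a⟩ (.node ⟨nat_lit 5, nat_lit 0x80010, nat_lit 0x13221, nat_lit 2, nat_lit 4, nat_lit 0x4a⟩ (.node ⟨nat_lit 4, nat_lit 8, nat_lit 0x2222, nat_lit 5, nat_lit 4, nat_lit 0x49⟩ (.node ⟨nat_lit 7, nat_lit 0x2000500060, nat_lit 0x1012120, nat_lit 0, nat_lit 4, nat_lit 0x48⟩ (.node ⟨nat_lit 6, nat_lit 0x800080030, nat_lit 0x221103, nat_lit 0, nat_lit 4, nat_lit 0x49⟩ (t14_345) (t14_8537)) (.node ⟨nat_lit 8, nat_lit 0x800040002000c000c8, nat_lit 0x1011040, nat_lit 0, nat_lit 4, nat_lit 0x48⟩ (t14_4441)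 (t14_12633))) (.node ⟨nat_lit 5, nat_lit 0x800100018, nat_lit 0x12122, nat_lit 4, nat_lit 4, nat_lit 0x48⟩ (.node ⟨nat_lit 5, nat_lit 0x1000080018, nat_lit 0x1113, nat_lit 7, nat_lit 4, nat_lit 0x47⟩ (t14_2393) (t14_10585)) (.node ⟨nat_lit 5, nat_lit 0x100012, nat_lit 0x2131, nat_lit 3, nat_lit 4, nat_lit 0x48⟩ (t14_6489) (t14_14681)))) (.node ⟨nat_lit 6, nat_lit 0x2000100010, nat_lit 0x11000, nat_lit 0, nat_lit 3, nat_lit 0x46⟩ (.node ⟨nat_lit 6, nat_lit 0x100020, nat_lit 0x122231, nat_lit 0, nat_lit 4, nat_lit 0x4b⟩ (.node ⟨nat_lit 6, nat_lit 0x300030, nat_lit 0x102140, nat_lit 0, nat_lit 4, nat_lit 0x48⟩ (t14_1369) (t14_9561)) (.node ⟨nat_lit 7, nat_lit 0x2000500060, nat_lit 0x1022120, nat_lit 0, nat_lit 4, nat_lit 0x49⟩ (t14_5465) (t14_13657))) (.node ⟨nat_lit 7, nat_lit 0x800100060, nat_lit 0x3110012, nat_lit 0, nat_lit 4, nat_lit 0x4a⟩ (.node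 ⟨nat_lit 7, nat_lit 0x40004000200060, nat_lit 0x121103, nat_lit 1, nat_lit 4, nat_lit 0x49⟩ (t14_3417) (t14_11609)) (.node ⟨nat_lit 7, nat_lit 0x40004000100060, nat_lit 0x111110, nat_lit 2, nat_lit 4, nat_lit 0x48⟩ (t14_7513) (.nil))))) (.node ⟨nat_lit 4, nat_lit 0xc, nat_lit 0x30, nat_lit 3, nat_lit 4, nat_lit 0x45⟩ (.node ⟨nat_lit 5, nat_lit 0x18, nat_lit 0x21211, nat_lit 3, nat_lit 4, nat_lit 0x49⟩ (.node ⟨nat_lit 6, nat_lit 0x1000200022, nat_lit 0x111010, nat_lit 1, nat_lit 4, nat_lit 0x47⟩ (.node ⟨nat_lit 6, nat_lit 0x1000200030, nat_lit 0x4121, nat_lit 0, nat_lit 4, nat_lit 0x48⟩ (t14_857) (t14_9049)) (.node ⟨nat_lit 7, nat_lit 0x400040, nat_lit 0x1221120, nat_lit 0, nat_lit 4, nat_lit 0x4c⟩ (t14_4953) (t14_13145))) (.node ⟨nat_lit 7, nat_lit 0x10002000400060, nat_lit 0x1100121, nat_lit 0, nat_lit 4, nat_lit 0x48⟩ (.node ⟨nat_lit 8, nat_lit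 0x4000800080008000900060, nat_lit 0x1211011, nat_lit 0, nat_lit 4, nat_lit 0x48⟩ (t14_2905) (t14_11097)) (.node ⟨nat_lit 5, nat_lit 0x1000140018, nat_lit 0x11302, nat_lit 8, nat_lit 4, nat_lit 0x48⟩ (t14_7001) (t14_15193)))) (.node ⟨nat_lit 5, nat_lit 0x40018, nat_lit 0x21120, nat_lit 0, nat_lit 3, nat_lit 0x46⟩ (.node ⟨nat_lit 7, nat_lit 0x400020002000500068, nat_lit 0x2111201, nat_lit 0, nat_lit 4, nat_lit 0x48⟩ (.node ⟨nat_lit 7, nat_lit 0x4000600064, nat_lit 0x1111131, nat_lit 1, nat_lit 4, nat_lit 0x49⟩ (t14_1881) (t14_10073)) (.node ⟨nat_lit 6, nat_lit 0x2000200030, nat_lit 0x22200, nat_lit 1, nat_lit 3, nat_lit 0x47⟩ (t14_5977) (t14_14169))) (.node ⟨nat_lit 6, nat_lit 0x20002000100030, nat_lit 0x1022, nat_lit 2, nat_lit 4, nat_lit 0x46⟩ (.node ⟨nat_lit 7, nat_lit 0x40002000500064, nat_lit 0x110203, nat_lit 1, nat_lit 4, nat_lit 0x47⟩ (t14_3929)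 (t14_12121)) (.node ⟨nat_lit 7, nat_lit 0x800500060, nat_lit 0x1200012, nat_lit 0, nat_lit 4, nat_lit 0x48⟩ (t14_8025) (.nil)))))
def t14_217 : Tr := .node ⟨nat_lit 7, nat_lit 0x10002000500064, nat_lit 0x212112, nat_lit 0, nat_lit 4, nat_lit 0x48⟩ (.nil) (.nil)
def t14_8409 : Tr := .node ⟨nat_lit 5, nat_lit 0x1000100014, nat_lit 0x1224, nat_lit 4, nat_lit 4, nat_lit 0x48⟩ (.nil) (.nil)
def t14_4313 : Tr := .node ⟨nat_lit 7, nat_lit 0x400050006000700070, nat_lit 0x1100221, nat_lit 1, nat_lit 4, nat_lit 0x46⟩ (.nil) (.nil)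
def t14_12505 : Tr := .node ⟨nat_lit 8, nat_lit 0xc0003000a00090, nat_lit 0x101030, nat_lit 1, nat_lit 4, nat_lit 0x47⟩ (.nil) (.nil)
def t14_2265 : Tr := .node ⟨nat_lit 7, nat_lit 0x20004000400044, nat_lit 0x120202, nat_lit 2, nat_lit 4, nat_lit 0x49⟩ (.nil) (.nil)
def t14_10457 : Tr := .node ⟨nat_lit 8, nat_lit 0xa000a0006000c0, nat_lit 0x23200, nat_lit 0, nat_lit 4, nat_lit 0x47⟩ (.nil) (.nil)
def t14_6361 : Tr := .node ⟨nat_lit 8, nat_lit 0x200080008000c0, nat_lit 0x10210, nat_lit 1, nat_lit 4, nat_lit 0x49⟩ (.nil) (.nil)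
def t14_14553 : Tr := .node ⟨nat_lit 8, nat_lit 0xa000c0, nat_lit 0x1011002, nat_lit 0, nat_lit 4, nat_lit 0x4a⟩ (.nil) (.nil)
def t14_1241 : Tr := .node ⟨nat_lit 6, nat_lit 0x2000080030, nat_lit 0x11212, nat_lit 4, nat_lit 4, nat_lit 0x48⟩ (.nil) (.nil)
def t14_9433 : Tr := .node ⟨nat_lit 7, nat_lit 0x400040002000200060, nat_lit 0x122001, nat_lit 0, nat_lit 3, nat_lit 0x46⟩ (.nil) (.nil)
def t14_5337 : Tr := .node ⟨nat_lit 7, nat_lit 0x600060, nat_lit 0x1111130, nat_lit 0, nat_lit 4, nat_lit 0x4a⟩ (.nil) (.nil)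
def t14_13529 : Tr := .node ⟨nat_lit 4, nat_lit 0x80008, nat_lit 0x1100, nat_lit 6, nat_lit 4, nat_lit 0x46⟩ (.nil) (.nil)
def t14_3289 : Tr := .node ⟨nat_lit 8, nat_lit 0x800080008000400090, nat_lit 0x1121001, nat_lit 2, nat_lit 4, nat_lit 0x4a⟩ (.nil) (.nil)
def t14_11481 : Tr := .node ⟨nat_lit 7, nat_lit 0x20004000500064, nat_lit 0x1001110, nat_lit 3, nat_lit 4, nat_lit 0x47⟩ (.nil) (.nil)
def t14_7385 : Tr := .node ⟨nat_lit 7, nat_lit 0x400040, nat_lit 0x211000, nat_lit 0, nat_lit 4, nat_lit 0x4a⟩ (.nil) (.nil)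
def t14_15577 : Tr := .node ⟨nat_lit 4, nat_lit 0, nat_lit 0x2221, nat_lit 0xd, nat_lit 4, nat_lit 0x4b⟩ (.nil) (.nil)
def t14_729 : Tr := .node ⟨nat_lit 7, nat_lit 0x10002000500060, nat_lit 0x103111, nat_lit 1, nat_lit 4, nat_lit 0x47⟩ (.nil) (.nil)
def t14_8921 : Tr := .node ⟨nat_lit 7, nat_lit 0x40002000500060, nat_lit 0x10031, nat_lit 0, nat_lit 3, nat_lit 0x45⟩ (.nil) (.nil)
def t14_4825 : Tr := .node ⟨nat_lit 5, nat_lit 0x1000100008, nat_lit 0x13320, nat_lit 0, nat_lit 3, nat_lit 0x47⟩ (.nil) (.nil)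
def t14_13017 : Tr := .node ⟨nat_lit 7, nat_lit 0x10004000440060, nat_lit 0x200, nat_lit 7, nat_lit 4, nat_lit 0x48⟩ (.nil) (.nil)
def t14_2777 : Tr := .node ⟨nat_lit 8, nat_lit 0x80001000a000c0, nat_lit 0x1112001, nat_lit 1, nat_lit 4, nat_lit 0x49⟩ (.nil) (.nil)
def t14_10969 : Tr := .node ⟨nat_lit 7, nat_lit 0x400020005000500060, nat_lit 0x1004102, nat_lit 1, nat_lit 4, nat_lit 0x47⟩ (.nil) (.nil)
def t14_6873 : Tr := .node ⟨nat_lit 7, nat_lit 0x4000400044, nat_lit 0x111301, nat_lit 0, nat_lit 4, nat_lit 0x4a⟩ (.nil) (.nil)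
def t14_15065 : Tr := .node ⟨nat_lit 8, nat_lit 0x40003000a000c0, nat_lit 0x10100112, nat_lit 1, nat_lit 4, nat_lit 0x48⟩ (.nil) (.nil)
def t14_1753 : Tr := .node ⟨nat_lit 4, nat_lit 0x8000c, nat_lit 0x203, nat_lit 9, nat_lit 4, nat_lit 0x47⟩ (.nil) (.nil)
def t14_9945 : Tr := .node ⟨nat_lit 7, nat_lit 0x1000600070, nat_lit 0x1003, nat_lit 0, nat_lit 4, nat_lit 0x46⟩ (.nil) (.nil)
def t14_5849 : Tr := .node ⟨nat_lit 7, nat_lit 0x40002000100060, nat_lit 0x11102, nat_lit 1, nat_lit 4, nat_lit 0x47⟩ (.nil) (.nil)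
def t14_14041 : Tr := .node ⟨nat_lit 7, nat_lit 0x1000500060, nat_lit 0x101202, nat_lit 2, nat_lit 4, nat_lit 0x48⟩ (.nil) (.nil)
def t14_3801 : Tr := .node ⟨nat_lit 8, nat_lit 0x8000800040004000a00090, nat_lit 0x10102100, nat_lit 2, nat_lit 4, nat_lit 0x48⟩ (.nil) (.nil)
def t14_11993 : Tr := .node ⟨nat_lit 6, nat_lit 0x10002000300034, nat_lit 0x202101, nat_lit 3, nat_lit 4, nat_lit 0x47⟩ (.nil) (.nil)
def t14_7897 : Tr := .node ⟨nat_lit 7, nat_lit 0x1000600050, nat_lit 0x1012, nat_lit 2, nat_lit 4, nat_lit 0x47⟩ (.nil) (.nil)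
def t9_217 : Tr := .node ⟨nat_lit 3, nat_lit 0, nat_lit 0x333, nat_lit 1, nat_lit 3, nat_lit 0x48⟩ (.node ⟨nat_lit 4, nat_lit 0x8000c000c, nat_lit 0x3132, nat_lit 5, nat_lit 4, nat_lit 0x48⟩ (.node ⟨nat_lit 6, nat_lit 0x2000200020, nat_lit 0x31220, nat_lit 3, nat_lit 4, nat_lit 0x4a⟩ (.node ⟨nat_lit 5, nat_lit 0x100008, nat_lit 0x11203, nat_lit 4, nat_lit 4, nat_lit 0x49⟩ (.node ⟨nat_lit 7, nat_lit 0x40004000400020, nat_lit 0x221102, nat_lit 1, nat_lit 4, nat_lit 0x4a⟩ (t14_217) (t14_8409)) (.node ⟨nat_lit 6, nat_lit 0x10002000200030, nat_lit 0x12100, nat_lit 0, nat_lit 3, nat_lit 0x45⟩ (t14_4313) (t14_12505))) (.node ⟨nat_lit 4, nat_lit 0x80004, nat_lit 0x1233, nat_lit 4, nat_lit 4, nat_lit 0x48⟩ (.node ⟨nat_lit 8, nat_lit 0x800040004000a000d000e0, nat_lit 0x10012013, nat_lit 0, nat_lit 4, nat_lit 0x46⟩ (t14_2265) (t14_10457)) (.node ⟨nat_lit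 6, nat_lit 0x200032, nat_lit 0x211020, nat_lit 0, nat_lit 4, nat_lit 0x49⟩ (t14_6361) (t14_14553)))) (.node ⟨nat_lit 5, nat_lit 0x10, nat_lit 0x12112, nat_lit 2, nat_lit 4, nat_lit 0x49⟩ (.node ⟨nat_lit 5, nat_lit 0x18, nat_lit 0x21211, nat_lit 7, nat_lit 4, nat_lit 0x4a⟩ (.node ⟨nat_lit 6, nat_lit 0x800080030, nat_lit 0x110103, nat_lit 1, nat_lit 4, nat_lit 0x47⟩ (t14_1241) (t14_9433)) (.node ⟨nat_lit 7, nat_lit 0x20002800500068, nat_lit 0x1120021, nat_lit 0, nat_lit 4, nat_lit 0x47⟩ (t14_5337) (t14_13529))) (.node ⟨nat_lit 7, nat_lit 0x40004000200048, nat_lit 0x122000, nat_lit 3, nat_lit 4, nat_lit 0x49⟩ (.node ⟨nat_lit 5, nat_lit 0x100018001c, nat_lit 0x11140, nat_lit 6, nat_lit 4, nat_lit 0x47⟩ (t14_3289) (t14_11481)) (.node ⟨nat_lit 7, nat_lit 0x40004000480030, nat_lit 0x112102, nat_lit 1, nat_lit 4, nat_lit 0x48⟩ (t14_7385) (t14_15577)))))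 (.node ⟨nat_lit 6, nat_lit 0x2000200010, nat_lit 0x13100, nat_lit 1, nat_lit 4, nat_lit 0x48⟩ (.node ⟨nat_lit 4, nat_lit 0xc, nat_lit 0x2122, nat_lit 6, nat_lit 4, nat_lit 0x48⟩ (.node ⟨nat_lit 6, nat_lit 0x2000100038, nat_lit 0x102202, nat_lit 1, nat_lit 4, nat_lit 0x47⟩ (.node ⟨nat_lit 8, nat_lit 0x80001000200040, nat_lit 0x2110110, nat_lit 3, nat_lit 4, nat_lit 0x4b⟩ (t14_729) (t14_8921)) (.node ⟨nat_lit 6, nat_lit 0x800200030, nat_lit 0x100202, nat_lit 0, nat_lit 4, nat_lit 0x46⟩ (t14_4825) (t14_13017))) (.node ⟨nat_lit 6, nat_lit 0x2000100010, nat_lit 0x2000, nat_lit 1, nat_lit 4, nat_lit 0x46⟩ (.node ⟨nat_lit 5, nat_lit 0x140018, nat_lit 0x11240, nat_lit 2, nat_lit 4, nat_lit 0x48⟩ (t14_2777) (t14_10969)) (.node ⟨nat_lit 7, nat_lit 0x2800600050, nat_lit 0x1012022, nat_lit 1, nat_lit 4, nat_lit 0x48⟩ (t14_6873) (t14_15065)))) (.node ⟨nat_lit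 5, nat_lit 0x1c, nat_lit 0x11112, nat_lit 0, nat_lit 4, nat_lit 0x46⟩ (.node ⟨nat_lit 6, nat_lit 0x2000080030, nat_lit 0x101311, nat_lit 2, nat_lit 4, nat_lit 0x48⟩ (.node ⟨nat_lit 6, nat_lit 0x1000300028, nat_lit 0x101113, nat_lit 2, nat_lit 4, nat_lit 0x47⟩ (t14_1753) (t14_9945)) (.node ⟨nat_lit 7, nat_lit 0x10006000600050, nat_lit 0x22212, nat_lit 0, nat_lit 4, nat_lit 0x47⟩ (t14_5849) (t14_14041))) (.node ⟨nat_lit 6, nat_lit 0x80030, nat_lit 0x200220, nat_lit 0, nat_lit 4, nat_lit 0x48⟩ (.node ⟨nat_lit 6, nat_lit 0x20, nat_lit 0x110000, nat_lit 0, nat_lit 4, nat_lit 0x48⟩ (t14_3801) (t14_11993)) (.node ⟨nat_lit 7, nat_lit 0x4000440044, nat_lit 0x1111200, nat_lit 1, nat_lit 4, nat_lit 0x4a⟩ (t14_7897) (.nil)))))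
def t14_473 : Tr := .node ⟨nat_lit 6, nat_lit 0x1000280034, nat_lit 0x122201, nat_lit 0, nat_lit 4, nat_lit 0x48⟩ (.nil) (.nil)
def t14_8665 : Tr := .node ⟨nat_lit 5, nat_lit 0x40018, nat_lit 0, nat_lit 5, nat_lit 4, nat_lit 0x45⟩ (.nil) (.nil)
def t14_4569 : Tr := .node ⟨nat_lit 6, nat_lit 0x800300030, nat_lit 0x102121, nat_lit 4, nat_lit 4, nat_lit 0x48⟩ (.nil) (.nil)
def t14_12761 : Tr := .node ⟨nat_lit 8, nat_lit 0x4000400080008800e000c8, nat_lit 0x102000, nat_lit 1, nat_lit 4, nat_lit 0x46⟩ (.nil) (.nil)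
def t14_2521 : Tr := .node ⟨nat_lit 8, nat_lit 0x8000c000a0, nat_lit 0x121210, nat_lit 0, nat_lit 4, nat_lit 0x4a⟩ (.nil) (.nil)
def t14_10713 : Tr := .node ⟨nat_lit 8, nat_lit 0x80004000c000a000d0, nat_lit 0x11002, nat_lit 0, nat_lit 4, nat_lit 0x46⟩ (.nil) (.nil)
def t14_6617 : Tr := .node ⟨nat_lit 6, nat_lit 0x2000100030, nat_lit 0x11013, nat_lit 4, nat_lit 4, nat_lit 0x48⟩ (.nil) (.nil)
def t14_14809 : Tr := .node ⟨nat_lit 8, nat_lit 0x800040004000a000e000d0, nat_lit 0x22011, nat_lit 0, nat_lit 4, nat_lit 0x46⟩ (.nil) (.nil)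
def t14_1497 : Tr := .node ⟨nat_lit 5, nat_lit 0x40018, nat_lit 0x10031, nat_lit 2, nat_lit 4, nat_lit 0x46⟩ (.nil) (.nil)
def t14_9689 : Tr := .node ⟨nat_lit 9, nat_lit 0x10001000080008001200180, nat_lit 0x1102002, nat_lit 0, nat_lit 4, nat_lit 0x49⟩ (.nil) (.nil)
def t14_5593 : Tr := .node ⟨nat_lit 7, nat_lit 0x10006000600060, nat_lit 0x21220, nat_lit 1, nat_lit 4, nat_lit 0x47⟩ (.nil) (.nil)
def t14_13785 : Tr := .node ⟨nat_lit 7, nat_lit 0x40002000480030, nat_lit 0x101, nat_lit 0, nat_lit 4, nat_lit 0x45⟩ (.nil) (.nil)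
def t14_3545 : Tr := .node ⟨nat_lit 6, nat_lit 0x30000c, nat_lit 0x10, nat_lit 0, nat_lit 4, nat_lit 0x44⟩ (.nil) (.nil)
def t14_11737 : Tr := .node ⟨nat_lit 1, nat_lit 0, nat_lit 5, nat_lit 0xb, nat_lit 3, nat_lit 0x46⟩ (.nil) (.nil)
def t14_7641 : Tr := .node ⟨nat_lit 4, nat_lit 0xc000c, nat_lit 0x1022, nat_lit 0xb, nat_lit 4, nat_lit 0x46⟩ (.nil) (.nil)
def t14_985 : Tr := .node ⟨nat_lit 5, nat_lit 0x1000100014, nat_lit 0x1211, nat_lit 5, nat_lit 4, nat_lit 0x47⟩ (.nil) (.nil)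
def t14_9177 : Tr := .node ⟨nat_lit 8, nat_lit 0x40004000800060008800c0, nat_lit 0x111002, nat_lit 3, nat_lit 4, nat_lit 0x47⟩ (.nil) (.nil)
def t14_5081 : Tr := .node ⟨nat_lit 5, nat_lit 0x1000080008, nat_lit 0x31031, nat_lit 0, nat_lit 3, nat_lit 0x47⟩ (.nil) (.nil)
def t14_13273 : Tr := .node ⟨nat_lit 5, nat_lit 0x1000140018, nat_lit 0x210, nat_lit 7, nat_lit 4, nat_lit 0x46⟩ (.nil) (.nil)
def t14_3033 : Tr := .node ⟨nat_lit 8, nat_lit 0x4000800090006000d000d0, nat_lit 0x10210011, nat_lit 0, nat_lit 4, nat_lit 0x46⟩ (.nil) (.nil)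
def t14_11225 : Tr := .node ⟨nat_lit 7, nat_lit 0x2000500060, nat_lit 0x11001, nat_lit 0, nat_lit 4, nat_lit 0x47⟩ (.nil) (.nil)
def t14_7129 : Tr := .node ⟨nat_lit 7, nat_lit 0x1000600060, nat_lit 0x1002211, nat_lit 1, nat_lit 4, nat_lit 0x48⟩ (.nil) (.nil)
def t14_15321 : Tr := .node ⟨nat_lit 6, nat_lit 0x2000300028, nat_lit 0x101210, nat_lit 3, nat_lit 3, nat_lit 0x46⟩ (.nil) (.nil)
def t14_2009 : Tr := .node ⟨nat_lit 5, nat_lit 0x1000100018, nat_lit 0x1312, nat_lit 4, nat_lit 4, nat_lit 0x47⟩ (.nil) (.nil)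
def t14_10201 : Tr := .node ⟨nat_lit 7, nat_lit 0x40002000480060, nat_lit 0x11200, nat_lit 2, nat_lit 4, nat_lit 0x47⟩ (.nil) (.nil)
def t14_6105 : Tr := .node ⟨nat_lit 1, nat_lit 0, nat_lit 3, nat_lit 0xd, nat_lit 4, nat_lit 0x45⟩ (.nil) (.nil)
def t14_14297 : Tr := .node ⟨nat_lit 7, nat_lit 0x40001000680068, nat_lit 0x1000010, nat_lit 3, nat_lit 4, nat_lit 0x46⟩ (.nil) (.nil)
def t14_4057 : Tr := .node ⟨nat_lit 7, nat_lit 0x400020002000500050, nat_lit 0x2002010, nat_lit 0, nat_lit 4, nat_lit 0x47⟩ (.nil) (.nil)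
def t14_12249 : Tr := .node ⟨nat_lit 9, nat_lit 0x4001000100010801100180, nat_lit 0x10021000, nat_lit 1, nat_lit 4, nat_lit 0x49⟩ (.nil) (.nil)
def t14_8153 : Tr := .node ⟨nat_lit 7, nat_lit 0x40001000480060, nat_lit 0x112130, nat_lit 1, nat_lit 4, nat_lit 0x48⟩ (.nil) (.nil)
def t9_473 : Tr := .node ⟨nat_lit 5, nat_lit 0x80010, nat_lit 0x23300, nat_lit 0, nat_lit 3, nat_lit 0x49⟩ (.node ⟨nat_lit 6, nat_lit 0x2000340034, nat_lit 0x311120, nat_lit 1, nat_lit 4, nat_lit 0x48⟩ (.node ⟨nat_lit 6, nat_lit 0x2000200010, nat_lit 0x22112, nat_lit 0, nat_lit 4, nat_lit 0x49⟩ (.node ⟨nat_lit 6, nat_lit 0x2000100032, nat_lit 0x11321, nat_lit 0, nat_lit 4, nat_lit 0x47⟩ (.node ⟨nat_lit 7, nat_lit 0x200020004000440070, nat_lit 0x2012101, nat_lit 0, nat_lit 4, nat_lit 0x47⟩ (t14_473) (t14_8665)) (.node ⟨nat_lit 7, nat_lit 0x200040004000300048, nat_lit 0x1222011,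 nat_lit 0, nat_lit 4, nat_lit 0x49⟩ (t14_4569) (t14_12761))) (.node ⟨nat_lit 5, nat_lit 0x10, nat_lit 0x11002, nat_lit 0, nat_lit 4, nat_lit 0x47⟩ (.node ⟨nat_lit 5, nat_lit 0x100018, nat_lit 0x11114, nat_lit 3, nat_lit 4, nat_lit 0x48⟩ (t14_2521) (t14_10713)) (.node ⟨nat_lit 6, nat_lit 0x200020, nat_lit 0x21131, nat_lit 2, nat_lit 4, nat_lit 0x4a⟩ (t14_6617) (t14_14809)))) (.node ⟨nat_lit 7, nat_lit 0x100060, nat_lit 0x2001101, nat_lit 0, nat_lit 4, nat_lit 0x49⟩ (.node ⟨nat_lit 6, nat_lit 0x2000200010, nat_lit 0x122112, nat_lit 2, nat_lit 4, nat_lit 0x4a⟩ (.node ⟨nat_lit 9, nat_lit 0x1000080002000400040, nat_lit 0x100300, nat_lit 1, nat_lit 4, nat_lit 0x4a⟩ (t14_1497) (t14_9689)) (.node ⟨nat_lit 8, nat_lit 0x80008000800040004000a0, nat_lit 0x1111220, nat_lit 0, nat_lit 4, nat_lit 0x49⟩ (t14_5593) (t14_13785))) (.node ⟨nat_lit 6, nat_lit 0x2000200030,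 nat_lit 0x12003, nat_lit 3, nat_lit 4, nat_lit 0x48⟩ (.node ⟨nat_lit 6, nat_lit 0x30000c, nat_lit 0x100000, nat_lit 3, nat_lit 4, nat_lit 0x46⟩ (t14_3545) (t14_11737)) (.node ⟨nat_lit 6, nat_lit 0x200030, nat_lit 0x201120, nat_lit 1, nat_lit 3, nat_lit 0x48⟩ (t14_7641) (.nil))))) (.node ⟨nat_lit 4, nat_lit 0x80008, nat_lit 0x322, nat_lit 7, nat_lit 4, nat_lit 0x48⟩ (.node ⟨nat_lit 6, nat_lit 0x200020, nat_lit 0x122110, nat_lit 1, nat_lit 4, nat_lit 0x4a⟩ (.node ⟨nat_lit 6, nat_lit 0x200020, nat_lit 0x111111, nat_lit 5, nat_lit 4, nat_lit 0x4a⟩ (.node ⟨nat_lit 7, nat_lit 0x1000400062, nat_lit 0x1101032, nat_lit 0, nat_lit 4, nat_lit 0x49⟩ (t14_985) (t14_9177)) (.node ⟨nat_lit 6, nat_lit 0x20, nat_lit 0x122211, nat_lit 1, nat_lit 3, nat_lit 0x4a⟩ (t14_5081) (t14_13273))) (.node ⟨nat_lit 6, nat_lit 0x200030, nat_lit 0x111102, nat_lit 0, nat_lit 4,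 nat_lit 0x48⟩ (.node ⟨nat_lit 6, nat_lit 0x800200030, nat_lit 0x210011, nat_lit 3, nat_lit 3, nat_lit 0x47⟩ (t14_3033) (t14_11225)) (.node ⟨nat_lit 8, nat_lit 0x800040005000a000a000c0, nat_lit 0x11120102, nat_lit 1, nat_lit 4, nat_lit 0x48⟩ (t14_7129) (t14_15321)))) (.node ⟨nat_lit 7, nat_lit 0x100060, nat_lit 0x1102101, nat_lit 1, nat_lit 4, nat_lit 0x4a⟩ (.node ⟨nat_lit 6, nat_lit 0x200030, nat_lit 0x31111, nat_lit 1, nat_lit 4, nat_lit 0x49⟩ (.node ⟨nat_lit 6, nat_lit 0x240038, nat_lit 0x121013, nat_lit 3, nat_lit 4, nat_lit 0x48⟩ (t14_2009) (t14_10201)) (.node ⟨nat_lit 8, nat_lit 0x200020004000a000c0, nat_lit 0x1020201, nat_lit 0, nat_lit 4, nat_lit 0x48⟩ (t14_6105) (t14_14297))) (.node ⟨nat_lit 6, nat_lit 0x200032, nat_lit 0x211132, nat_lit 1, nat_lit 4, nat_lit 0x4a⟩ (.node ⟨nat_lit 8, nat_lit 0x40009000c800e0, nat_lit 0x1101003, nat_lit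 0, nat_lit 4, nat_lit 0x47⟩ (t14_4057) (t14_12249)) (.node ⟨nat_lit 5, nat_lit 0x100018, nat_lit 0x10112, nat_lit 9, nat_lit 4, nat_lit 0x48⟩ (t14_8153) (.nil)))))
def t14_57 : Tr := .node ⟨nat_lit 5, nat_lit 0x100018, nat_lit 0x11211, nat_lit 9, nat_lit 4, nat_lit 0x49⟩ (.nil) (.nil)
def t14_8249 : Tr := .node ⟨nat_lit 6, nat_lit 0x2000240030, nat_lit 0x1230, nat_lit 6, nat_lit 4, nat_lit 0x48⟩ (.nil) (.nil)
def t14_4153 : Tr := .node ⟨nat_lit 9, nat_lit 0x10001000080004001100120, nat_lit 0x11111011, nat_lit 0, nat_lit 4, nat_lit 0x49⟩ (.nil) (.nil)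
def t14_12345 : Tr := .node ⟨nat_lit 8, nat_lit 0x200080004000c000c0, nat_lit 0x1130, nat_lit 3, nat_lit 4, nat_lit 0x48⟩ (.nil) (.nil)
def t14_2105 : Tr := .node ⟨nat_lit 5, nat_lit 0x100018001c, nat_lit 0x11220, nat_lit 7, nat_lit 4, nat_lit 0x47⟩ (.nil) (.nil)
def t14_10297 : Tr := .node ⟨nat_lit 7, nat_lit 0x4000200060, nat_lit 2, nat_lit 0, nat_lit 3, nat_lit 0x46⟩ (.nil) (.nil)
def t14_6201 : Tr := .node ⟨nat_lit 6, nat_lit 0x1000080020, nat_lit 0x101011, nat_lit 4, nat_lit 4, nat_lit 0x48⟩ (.nil) (.nil)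
def t14_14393 : Tr := .node ⟨nat_lit 7, nat_lit 0x10003000500060, nat_lit 0x1302, nat_lit 2, nat_lit 4, nat_lit 0x46⟩ (.nil) (.nil)
def t14_1081 : Tr := .node ⟨nat_lit 7, nat_lit 0x20004000100060, nat_lit 0x1012111, nat_lit 1, nat_lit 4, nat_lit 0x48⟩ (.nil) (.nil)
def t14_9273 : Tr := .node ⟨nat_lit 8, nat_lit 0x800080004000a000d000e0, nat_lit 0x112021, nat_lit 1, nat_lit 4, nat_lit 0x46⟩ (.nil) (.nil)
def t14_5177 : Tr := .node ⟨nat_lit 6, nat_lit 0x2000200030, nat_lit 0x11320, nat_lit 3, nat_lit 4, nat_lit 0x49⟩ (.nil) (.nil)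
def t14_13369 : Tr := .node ⟨nat_lit 6, nat_lit 0x1000280034, nat_lit 0x1330, nat_lit 0, nat_lit 4, nat_lit 0x46⟩ (.nil) (.nil)
def t14_3129 : Tr := .node ⟨nat_lit 6, nat_lit 0x1800280030, nat_lit 0x101101, nat_lit 1, nat_lit 4, nat_lit 0x45⟩ (.nil) (.nil)
def t14_11321 : Tr := .node ⟨nat_lit 6, nat_lit 0x300038, nat_lit 0x102102, nat_lit 0, nat_lit 4, nat_lit 0x47⟩ (.nil) (.nil)
def t14_7225 : Tr := .node ⟨nat_lit 7, nat_lit 0x20002000400040, nat_lit 0x1111111, nat_lit 3, nat_lit 4, nat_lit 0x4a⟩ (.nil) (.nil)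
def t14_15417 : Tr := .node ⟨nat_lit 8, nat_lit 0x800040004000a000c800d0, nat_lit 0x1111000, nat_lit 0, nat_lit 4, nat_lit 0x46⟩ (.nil) (.nil)
def t14_569 : Tr := .node ⟨nat_lit 6, nat_lit 0x2000300038, nat_lit 0x1022, nat_lit 2, nat_lit 4, nat_lit 0x45⟩ (.nil) (.nil)
def t14_8761 : Tr := .node ⟨nat_lit 9, nat_lit 0x1000100008001100190, nat_lit 0x1110013, nat_lit 0, nat_lit 4, nat_lit 0x49⟩ (.nil) (.nil)
def t14_4665 : Tr := .node ⟨nat_lit 7, nat_lit 0x4000440060, nat_lit 0x1021121, nat_lit 1, nat_lit 4, nat_lit 0x49⟩ (.nil) (.nil)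
def t14_12857 : Tr := .node ⟨nat_lit 5, nat_lit 0x18, nat_lit 0x10410, nat_lit 0, nat_lit 4, nat_lit 0x48⟩ (.nil) (.nil)
def t14_2617 : Tr := .node ⟨nat_lit 7, nat_lit 0x4000200060, nat_lit 0x111102, nat_lit 2, nat_lit 4, nat_lit 0x49⟩ (.nil) (.nil)
def t14_10809 : Tr := .node ⟨nat_lit 5, nat_lit 0x1000100014, nat_lit 0x1212, nat_lit 0xa, nat_lit 4, nat_lit 0x48⟩ (.nil) (.nil)
def t14_6713 : Tr := .node ⟨nat_lit 7, nat_lit 0x400060, nat_lit 0x11100, nat_lit 5, nat_lit 4, nat_lit 0x4a⟩ (.nil) (.nil)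
def t14_14905 : Tr := .node ⟨nat_lit 8, nat_lit 0x800088008800c8, nat_lit 0x10111111, nat_lit 0, nat_lit 4, nat_lit 0x49⟩ (.nil) (.nil)
def t14_1593 : Tr := .node ⟨nat_lit 7, nat_lit 0x10001000400060, nat_lit 0x102110, nat_lit 0, nat_lit 4, nat_lit 0x47⟩ (.nil) (.nil)
def t14_9785 : Tr := .node ⟨nat_lit 9, nat_lit 0x1000100012000c000c00180, nat_lit 0x101202, nat_lit 0, nat_lit 4, nat_lit 0x47⟩ (.nil) (.nil)
def t14_5689 : Tr := .node ⟨nat_lit 6, nat_lit 0x80030, nat_lit 0x100122, nat_lit 0, nat_lit 4, nat_lit 0x47⟩ (.nil) (.nil)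
def t14_13881 : Tr := .node ⟨nat_lit 7, nat_lit 0x20004000100060, nat_lit 0x2030, nat_lit 1, nat_lit 4, nat_lit 0x47⟩ (.nil) (.nil)
def t14_3641 : Tr := .node ⟨nat_lit 7, nat_lit 0x20004000600064, nat_lit 0x20021, nat_lit 3, nat_lit 4, nat_lit 0x47⟩ (.nil) (.nil)
def t14_11833 : Tr := .node ⟨nat_lit 8, nat_lit 0x8000800040004000a000c8, nat_lit 0x10030, nat_lit 1, nat_lit 4, nat_lit 0x46⟩ (.nil) (.nil)
def t14_7737 : Tr := .node ⟨nat_lit 6, nat_lit 0x2000080030, nat_lit 0x21, nat_lit 3, nat_lit 4, nat_lit 0x46⟩ (.nil) (.nil)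
def t9_57 : Tr := .node ⟨nat_lit 4, nat_lit 0xc, nat_lit 0x2221, nat_lit 0, nat_lit 3, nat_lit 0x46⟩ (.node ⟨nat_lit 2, nat_lit 0, nat_lit 0x11, nat_lit 2, nat_lit 3, nat_lit 0x42⟩ (.node ⟨nat_lit 7, nat_lit 0x1000600060, nat_lit 0x13020, nat_lit 0, nat_lit 4, nat_lit 0x48⟩ (.node ⟨nat_lit 4, nat_lit 8, nat_lit 0x1210, nat_lit 7, nat_lit 4, nat_lit 0x48⟩ (.node ⟨nat_lit 6, nat_lit 0x2000200030, nat_lit 0x22203, nat_lit 2, nat_lit 4, nat_lit 0x49⟩ (t14_57) (t14_8249)) (.node ⟨nat_lit 7, nat_lit 0x20004000440060, nat_lit 0x1001100, nat_lit 0, nat_lit 4, nat_lit 0x47⟩ (t14_4153) (t14_12345))) (.node ⟨nat_lit 4, nat_lit 0x8000c, nat_lit 0x2122, nat_lit 0xa, nat_lit 4, nat_lit 0x48⟩ (.node ⟨nat_lit 5, nat_lit 0x100008, nat_lit 0x1132, nat_lit 1, nat_lit 4, nat_lit 0x47⟩ (t14_2105) (t14_10297)) (.node ⟨nat_lit 6, nat_lit 0x1000200030, nat_lit 0x200221,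 nat_lit 0, nat_lit 4, nat_lit 0x48⟩ (t14_6201) (t14_14393)))) (.node ⟨nat_lit 7, nat_lit 0x40001000200020, nat_lit 0x20220, nat_lit 2, nat_lit 4, nat_lit 0x49⟩ (.node ⟨nat_lit 6, nat_lit 0x20002000100010, nat_lit 0x122011, nat_lit 0, nat_lit 3, nat_lit 0x47⟩ (.node ⟨nat_lit 5, nat_lit 0x1000080014, nat_lit 0x1231, nat_lit 2, nat_lit 4, nat_lit 0x46⟩ (t14_1081) (t14_9273)) (.node ⟨nat_lit 5, nat_lit 0x100018, nat_lit 0x10322, nat_lit 5, nat_lit 3, nat_lit 0x47⟩ (t14_5177) (t14_13369))) (.node ⟨nat_lit 5, nat_lit 0x100010, nat_lit 0x12110, nat_lit 6, nat_lit 4, nat_lit 0x49⟩ (.node ⟨nat_lit 5, nat_lit 0x800100012, nat_lit 0x20010, nat_lit 3, nat_lit 4, nat_lit 0x46⟩ (t14_3129) (t14_11321)) (.node ⟨nat_lit 3, nat_lit 0x40006, nat_lit 0x112, nat_lit 0xd, nat_lit 4, nat_lit 0x46⟩ (t14_7225) (t14_15417))))) (.node ⟨nat_lit 3, nat_lit 4, nat_lit 0x33,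 nat_lit 4, nat_lit 3, nat_lit 0x45⟩ (.node ⟨nat_lit 3, nat_lit 4, nat_lit 0x220, nat_lit 6, nat_lit 3, nat_lit 0x46⟩ (.node ⟨nat_lit 7, nat_lit 0x40001000480060, nat_lit 0x201012, nat_lit 0, nat_lit 4, nat_lit 0x47⟩ (.node ⟨nat_lit 0xa, nat_lit 0x200010000800040, nat_lit 0x2110001, nat_lit 1, nat_lit 4, nat_lit 0x4d⟩ (t14_569) (t14_8761)) (.node ⟨nat_lit 7, nat_lit 0x800600050, nat_lit 0x1011011, nat_lit 1, nat_lit 4, nat_lit 0x48⟩ (t14_4665) (t14_12857))) (.node ⟨nat_lit 6, nat_lit 0x800300038, nat_lit 0x100212, nat_lit 1, nat_lit 4, nat_lit 0x45⟩ (.node ⟨nat_lit 6, nat_lit 0x2000200010, nat_lit 0x11103, nat_lit 5, nat_lit 4, nat_lit 0x49⟩ (t14_2617) (t14_10809)) (.node ⟨nat_lit 9, nat_lit 0x1000080, nat_lit 0x2211100, nat_lit 0, nat_lit 4, nat_lit 0x4e⟩ (t14_6713) (t14_14905)))) (.node ⟨nat_lit 7, nat_lit 0x40002000100064, nat_lit 0x210111, nat_lit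 1, nat_lit 4, nat_lit 0x48⟩ (.node ⟨nat_lit 6, nat_lit 0x280030, nat_lit 0x23111, nat_lit 1, nat_lit 4, nat_lit 0x49⟩ (.node ⟨nat_lit 6, nat_lit 0x800200032, nat_lit 0x10013, nat_lit 1, nat_lit 4, nat_lit 0x45⟩ (t14_1593) (t14_9785)) (.node ⟨nat_lit 6, nat_lit 0x2000100030, nat_lit 0x11221, nat_lit 3, nat_lit 4, nat_lit 0x48⟩ (t14_5689) (t14_13881))) (.node ⟨nat_lit 5, nat_lit 0x1000140018, nat_lit 0x2212, nat_lit 5, nat_lit 4, nat_lit 0x47⟩ (.node ⟨nat_lit 6, nat_lit 0x300030, nat_lit 0x2100, nat_lit 0, nat_lit 4, nat_lit 0x46⟩ (t14_3641) (t14_11833)) (.node ⟨nat_lit 6, nat_lit 0x800200030, nat_lit 0x21210, nat_lit 3, nat_lit 4, nat_lit 0x48⟩ (t14_7737) (.nil)))))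
def t14_313 : Tr := .node ⟨nat_lit 7, nat_lit 0x20004000100060, nat_lit 0x1022211, nat_lit 1, nat_lit 4, nat_lit 0x49⟩ (.nil) (.nil)
def t14_8505 : Tr := .node ⟨nat_lit 8, nat_lit 0x800040002000c0, nat_lit 0x10111003, nat_lit 0, nat_lit 3, nat_lit 0x48⟩ (.nil) (.nil)
def t14_4409 : Tr := .node ⟨nat_lit 9, nat_lit 0x100010000400080, nat_lit 0x11111010, nat_lit 2, nat_lit 4, nat_lit 0x4c⟩ (.nil) (.nil)
def t14_12601 : Tr := .node ⟨nat_lit 7, nat_lit 0x40004800480030, nat_lit 0x101100, nat_lit 0, nat_lit 4, nat_lit 0x46⟩ (.nil) (.nil)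
def t14_2361 : Tr := .node ⟨nat_lit 6, nat_lit 0x800100020, nat_lit 0x120200, nat_lit 2, nat_lit 4, nat_lit 0x48⟩ (.nil) (.nil)
def t14_10553 : Tr := .node ⟨nat_lit 7, nat_lit 0x20002000500068, nat_lit 0x100102, nat_lit 0, nat_lit 4, nat_lit 0x46⟩ (.nil) (.nil)
def t14_6457 : Tr := .node ⟨nat_lit 6, nat_lit 0x2000300030, nat_lit 0x11121, nat_lit 2, nat_lit 4, nat_lit 0x47⟩ (.nil) (.nil)
def t14_14649 : Tr := .node ⟨nat_lit 8, nat_lit 0x200040008000c000c8, nat_lit 0x1001211, nat_lit 2, nat_lit 4, nat_lit 0x48⟩ (.nil) (.nil)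
def t14_1337 : Tr := .node ⟨nat_lit 7, nat_lit 0x40002000500068, nat_lit 0x1011112, nat_lit 1, nat_lit 4, nat_lit 0x47⟩ (.nil) (.nil)
def t14_9529 : Tr := .node ⟨nat_lit 9, nat_lit 0x100010000800080014001400120, nat_lit 0x101110110, nat_lit 1, nat_lit 4, nat_lit 0x49⟩ (.nil) (.nil)
def t14_5433 : Tr := .node ⟨nat_lit 5, nat_lit 0x100018, nat_lit 0x1131, nat_lit 7, nat_lit 4, nat_lit 0x48⟩ (.nil) (.nil)
def t14_13625 : Tr := .node ⟨nat_lit 7, nat_lit 0x40004c0070, nat_lit 2, nat_lit 1, nat_lit 4, nat_lit 0x45⟩ (.nil) (.nil)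
def t14_3385 : Tr := .node ⟨nat_lit 8, nat_lit 0x80002000c000a0, nat_lit 0x20001, nat_lit 1, nat_lit 4, nat_lit 0x48⟩ (.nil) (.nil)
def t14_11577 : Tr := .node ⟨nat_lit 4, nat_lit 0xc000c, nat_lit 0x40, nat_lit 7, nat_lit 4, nat_lit 0x45⟩ (.nil) (.nil)
def t14_7481 : Tr := .node ⟨nat_lit 7, nat_lit 0x60, nat_lit 0x1011111, nat_lit 2, nat_lit 4, nat_lit 0x4b⟩ (.nil) (.nil)
def t14_825 : Tr := .node ⟨nat_lit 7, nat_lit 0x40001000500060, nat_lit 0x113011, nat_lit 0, nat_lit 3, nat_lit 0x46⟩ (.nil) (.nil)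
def t14_9017 : Tr := .node ⟨nat_lit 9, nat_lit 0x100010000800140014001200180, nat_lit 0x1101011, nat_lit 3, nat_lit 4, nat_lit 0x48⟩ (.nil) (.nil)
def t14_4921 : Tr := .node ⟨nat_lit 7, nat_lit 0x4000400020, nat_lit 0x111100, nat_lit 9, nat_lit 4, nat_lit 0x4b⟩ (.nil) (.nil)
def t14_13113 : Tr := .node ⟨nat_lit 5, nat_lit 0x1000080018, nat_lit 0x20030, nat_lit 5, nat_lit 3, nat_lit 0x46⟩ (.nil) (.nil)
def t14_2873 : Tr := .node ⟨nat_lit 8, nat_lit 0x8000a0009000c8, nat_lit 0x1003102, nat_lit 0, nat_lit 4, nat_lit 0x48⟩ (.nil) (.nil)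
def t14_11065 : Tr := .node ⟨nat_lit 6, nat_lit 0x300030, nat_lit 0x111120, nat_lit 4, nat_lit 4, nat_lit 0x49⟩ (.nil) (.nil)
def t14_6969 : Tr := .node ⟨nat_lit 7, nat_lit 0x1000100060, nat_lit 0x2100101, nat_lit 1, nat_lit 4, nat_lit 0x49⟩ (.nil) (.nil)
def t14_15161 : Tr := .node ⟨nat_lit 8, nat_lit 0x8000400040004000a000a0, nat_lit 0x111110, nat_lit 0, nat_lit 4, nat_lit 0x47⟩ (.nil) (.nil)
def t14_1849 : Tr := .node ⟨nat_lit 5, nat_lit 0x140018, nat_lit 0x1321, nat_lit 2, nat_lit 4, nat_lit 0x47⟩ (.nil) (.nil)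
def t14_10041 : Tr := .node ⟨nat_lit 4, nat_lit 0x800080008, nat_lit 0x220, nat_lit 8, nat_lit 3, nat_lit 0x45⟩ (.nil) (.nil)
def t14_5945 : Tr := .node ⟨nat_lit 7, nat_lit 0x4000400060, nat_lit 0x111211, nat_lit 4, nat_lit 4, nat_lit 0x4a⟩ (.nil) (.nil)
def t14_14137 : Tr := .node ⟨nat_lit 6, nat_lit 0x20001000100010, nat_lit 0x200, nat_lit 1, nat_lit 4, nat_lit 0x46⟩ (.nil) (.nil)
def t14_3897 : Tr := .node ⟨nat_lit 7, nat_lit 0x200020004000680070, nat_lit 0x101210, nat_lit 5, nat_lit 4, nat_lit 0x47⟩ (.nil) (.nil)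
def t14_12089 : Tr := .node ⟨nat_lit 9, nat_lit 0x200100008001400184, nat_lit 0x11002001, nat_lit 1, nat_lit 4, nat_lit 0x49⟩ (.nil) (.nil)
def t14_7993 : Tr := .node ⟨nat_lit 4, nat_lit 0x8000a, nat_lit 0x224, nat_lit 5, nat_lit 4, nat_lit 0x47⟩ (.nil) (.nil)
def t9_313 : Tr := .node ⟨nat_lit 4, nat_lit 0, nat_lit 0x3111, nat_lit 9, nat_lit 4, nat_lit 0x4a⟩ (.node ⟨nat_lit 5, nat_lit 0x18, nat_lit 0x30212, nat_lit 2, nat_lit 4, nat_lit 0x49⟩ (.node ⟨nat_lit 3, nat_lit 0, nat_lit 0x311, nat_lit 0x10, nat_lit 4, nat_lit 0x4a⟩ (.node ⟨nat_lit 4, nat_lit 0x40008, nat_lit 0x1121, nat_lit 4, nat_lit 4, nat_lit 0x46⟩ (.node ⟨nat_lit 6, nat_lit 0x2000240018, nat_lit 0x221101, nat_lit 3, nat_lit 4, nat_lit 0x49⟩ (t14_313) (t14_8505)) (.node ⟨nat_lit 6, nat_lit 0x1000280030, nat_lit 0x101101, nat_lit 1, nat_lit 3, nat_lit 0x45⟩ (t14_4409) (t14_12601)))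 (.node ⟨nat_lit 6, nat_lit 0x2000240030, nat_lit 0x201212, nat_lit 4, nat_lit 4, nat_lit 0x49⟩ (.node ⟨nat_lit 5, nat_lit 0x100010, nat_lit 0x3133, nat_lit 0, nat_lit 3, nat_lit 0x47⟩ (t14_2361) (t14_10553)) (.node ⟨nat_lit 5, nat_lit 0x1000080014, nat_lit 0x20120, nat_lit 5, nat_lit 4, nat_lit 0x47⟩ (t14_6457) (t14_14649)))) (.node ⟨nat_lit 5, nat_lit 0x80010, nat_lit 0x12111, nat_lit 2, nat_lit 4, nat_lit 0x48⟩ (.node ⟨nat_lit 7, nat_lit 0x4000100020, nat_lit 0x221012, nat_lit 1, nat_lit 4, nat_lit 0x4b⟩ (.node ⟨nat_lit 4, nat_lit 0x8000c, nat_lit 0x1003, nat_lit 5, nat_lit 3, nat_lit 0x44⟩ (t14_1337) (t14_9529)) (.node ⟨nat_lit 7, nat_lit 0x4000500060, nat_lit 0x122021, nat_lit 0, nat_lit 4, nat_lit 0x49⟩ (t14_5433) (t14_13625))) (.node ⟨nat_lit 5, nat_lit 0x800100012, nat_lit 0x20121, nat_lit 2, nat_lit 4, nat_lit 0x47⟩ (.node ⟨nat_lit 9, nat_lit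 0x1000100010000800120011001c0, nat_lit 0x10103000, nat_lit 1, nat_lit 4, nat_lit 0x48⟩ (t14_3385) (t14_11577)) (.node ⟨nat_lit 5, nat_lit 0x800080010, nat_lit 0x10211, nat_lit 5, nat_lit 4, nat_lit 0x47⟩ (t14_7481) (.nil))))) (.node ⟨nat_lit 3, nat_lit 0, nat_lit 0x421, nat_lit 6, nat_lit 3, nat_lit 0x48⟩ (.node ⟨nat_lit 5, nat_lit 0x100008, nat_lit 0x2112, nat_lit 3, nat_lit 4, nat_lit 0x48⟩ (.node ⟨nat_lit 4, nat_lit 8, nat_lit 0x1111, nat_lit 3, nat_lit 4, nat_lit 0x46⟩ (.node ⟨nat_lit 6, nat_lit 0x2000100024, nat_lit 0x221201, nat_lit 2, nat_lit 4, nat_lit 0x4a⟩ (t14_825) (t14_9017)) (.node ⟨nat_lit 7, nat_lit 0x40002000480060, nat_lit 0x1112012, nat_lit 1, nat_lit 4, nat_lit 0x49⟩ (t14_4921) (t14_13113))) (.node ⟨nat_lit 7, nat_lit 0x40001000680070, nat_lit 0x1101012, nat_lit 0, nat_lit 4, nat_lit 0x46⟩ (.node ⟨nat_lit 4, nat_lit 8, nat_lit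 0x1112, nat_lit 7, nat_lit 4, nat_lit 0x48⟩ (t14_2873) (t14_11065)) (.node ⟨nat_lit 7, nat_lit 0x400020005000500070, nat_lit 0x1010220, nat_lit 2, nat_lit 4, nat_lit 0x47⟩ (t14_6969) (t14_15161)))) (.node ⟨nat_lit 6, nat_lit 0x2000080030, nat_lit 0x121120, nat_lit 0, nat_lit 4, nat_lit 0x48⟩ (.node ⟨nat_lit 7, nat_lit 0x400020002000500068, nat_lit 0x2011211, nat_lit 0, nat_lit 4, nat_lit 0x47⟩ (.node ⟨nat_lit 6, nat_lit 0x2000100010, nat_lit 0x1020, nat_lit 2, nat_lit 4, nat_lit 0x47⟩ (t14_1849) (t14_10041)) (.node ⟨nat_lit 6, nat_lit 0x2000080030, nat_lit 0x21202, nat_lit 2, nat_lit 4, nat_lit 0x48⟩ (t14_5945) (t14_14137))) (.node ⟨nat_lit 6, nat_lit 0x1000280030, nat_lit 0x1022, nat_lit 0, nat_lit 4, nat_lit 0x45⟩ (.node ⟨nat_lit 6, nat_lit 0x20001000280038, nat_lit 0x10203, nat_lit 2, nat_lit 4, nat_lit 0x45⟩ (t14_3897) (t14_12089)) (.node ⟨nat_lit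 7, nat_lit 0x20001000100040, nat_lit 0x2102100, nat_lit 0, nat_lit 4, nat_lit 0x49⟩ (t14_7993) (.nil)))))
def t14_185 : Tr := .node ⟨nat_lit 7, nat_lit 0x20004000100060, nat_lit 0x121211, nat_lit 2, nat_lit 4, nat_lit 0x49⟩ (.nil) (.nil)
def t14_8377 : Tr := .node ⟨nat_lit 7, nat_lit 0x400062, nat_lit 0x111023, nat_lit 0, nat_lit 4, nat_lit 0x49⟩ (.nil) (.nil)
def t14_4281 : Tr := .node ⟨nat_lit 9, nat_lit 0x1000100010000800110, nat_lit 0x12101010, nat_lit 1, nat_lit 4, nat_lit 0x4b⟩ (.nil) (.nil)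
def t14_12473 : Tr := .node ⟨nat_lit 8, nat_lit 0x4000200020008000c2, nat_lit 0x10030001, nat_lit 1, nat_lit 4, nat_lit 0x48⟩ (.nil) (.nil)
def t14_2233 : Tr := .node ⟨nat_lit 5, nat_lit 0x40018, nat_lit 0x20220, nat_lit 3, nat_lit 3, nat_lit 0x47⟩ (.nil) (.nil)
def t14_10425 : Tr := .node ⟨nat_lit 7, nat_lit 0x4000500060, nat_lit 0x11202, nat_lit 2, nat_lit 4, nat_lit 0x48⟩ (.nil) (.nil)
def t14_6329 : Tr := .node ⟨nat_lit 6, nat_lit 0x800280030, nat_lit 0x1002, nat_lit 1, nat_lit 4, nat_lit 0x45⟩ (.nil) (.nil)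
def t14_14521 : Tr := .node ⟨nat_lit 7, nat_lit 0x40001000100060, nat_lit 0x3000, nat_lit 1, nat_lit 4, nat_lit 0x47⟩ (.nil) (.nil)
def t14_1209 : Tr := .node ⟨nat_lit 6, nat_lit 0x1000200030, nat_lit 0x1311, nat_lit 0, nat_lit 4, nat_lit 0x47⟩ (.nil) (.nil)
def t14_9401 : Tr := .node ⟨nat_lit 9, nat_lit 0x80008000800100010800a000c0, nat_lit 0x101110010, nat_lit 4, nat_lit 4, nat_lit 0x49⟩ (.nil) (.nil)
def t14_5305 : Tr := .node ⟨nat_lit 6, nat_lit 0x1000280030, nat_lit 0x111220, nat_lit 3, nat_lit 4, nat_lit 0x48⟩ (.nil) (.nil)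
def t14_13497 : Tr := .node ⟨nat_lit 5, nat_lit 0x100018, nat_lit 0x130, nat_lit 9, nat_lit 4, nat_lit 0x48⟩ (.nil) (.nil)
def t14_3257 : Tr := .node ⟨nat_lit 7, nat_lit 0x200020002000400040, nat_lit 0x1021010, nat_lit 5, nat_lit 4, nat_lit 0x49⟩ (.nil) (.nil)
def t14_11449 : Tr := .node ⟨nat_lit 7, nat_lit 0x40002000500068, nat_lit 0x1011110, nat_lit 1, nat_lit 4, nat_lit 0x47⟩ (.nil) (.nil)
def t14_7353 : Tr := .node ⟨nat_lit 7, nat_lit 0x20004000680068, nat_lit 0x1220111, nat_lit 0, nat_lit 4, nat_lit 0x48⟩ (.nil) (.nil)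
def t14_15545 : Tr := .node ⟨nat_lit 0xa, nat_lit 0x200020001000100, nat_lit 0x11111010, nat_lit 1, nat_lit 4, nat_lit 0x4d⟩ (.nil) (.nil)
def t14_697 : Tr := .node ⟨nat_lit 6, nat_lit 0x2000080030, nat_lit 0x311, nat_lit 1, nat_lit 4, nat_lit 0x46⟩ (.nil) (.nil)
def t14_8889 : Tr := .node ⟨nat_lit 7, nat_lit 0x4000500060, nat_lit 0x100031, nat_lit 0, nat_lit 4, nat_lit 0x47⟩ (.nil) (.nil)
def t14_4793 : Tr := .node ⟨nat_lit 3, nat_lit 6, nat_lit 0x211, nat_lit 8, nat_lit 4, nat_lit 0x46⟩ (.nil) (.nil)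
def t14_12985 : Tr := .node ⟨nat_lit 8, nat_lit 0x800020008800c8, nat_lit 0x12001, nat_lit 1, nat_lit 4, nat_lit 0x48⟩ (.nil) (.nil)
def t14_2745 : Tr := .node ⟨nat_lit 7, nat_lit 0x20004000600064, nat_lit 0x21200, nat_lit 1, nat_lit 4, nat_lit 0x47⟩ (.nil) (.nil)
def t14_10937 : Tr := .node ⟨nat_lit 4, nat_lit 0xc000c, nat_lit 0x2110, nat_lit 2, nat_lit 3, nat_lit 0x45⟩ (.nil) (.nil)
def t14_6841 : Tr := .node ⟨nat_lit 7, nat_lit 0x2000400060, nat_lit 0x1011003, nat_lit 2, nat_lit 4, nat_lit 0x49⟩ (.nil) (.nil)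
def t14_15033 : Tr := .node ⟨nat_lit 9, nat_lit 0x1000100011001100180, nat_lit 0x1111110, nat_lit 2, nat_lit 4, nat_lit 0x4a⟩ (.nil) (.nil)
def t14_1721 : Tr := .node ⟨nat_lit 7, nat_lit 0x10001000400060, nat_lit 0x102011, nat_lit 0, nat_lit 4, nat_lit 0x47⟩ (.nil) (.nil)
def t14_9913 : Tr := .node ⟨nat_lit 5, nat_lit 0x1000100018, nat_lit 0x1430, nat_lit 2, nat_lit 3, nat_lit 0x46⟩ (.nil) (.nil)
def t14_5817 : Tr := .node ⟨nat_lit 6, nat_lit 0x20001000280028, nat_lit 0x12010, nat_lit 5, nat_lit 4, nat_lit 0x47⟩ (.nil) (.nil)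
def t14_14009 : Tr := .node ⟨nat_lit 7, nat_lit 0x400040002000200050, nat_lit 0x1001202, nat_lit 0, nat_lit 4, nat_lit 0x47⟩ (.nil) (.nil)
def t14_3769 : Tr := .node ⟨nat_lit 6, nat_lit 0x2000200030, nat_lit 0x12401, nat_lit 0, nat_lit 3, nat_lit 0x47⟩ (.nil) (.nil)
def t14_11961 : Tr := .node ⟨nat_lit 3, nat_lit 4, nat_lit 0x23, nat_lit 0xb, nat_lit 4, nat_lit 0x47⟩ (.nil) (.nil)
def t14_7865 : Tr := .node ⟨nat_lit 7, nat_lit 0x400040002000200050, nat_lit 0x11101, nat_lit 3, nat_lit 4, nat_lit 0x47⟩ (.nil) (.nil)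
def t9_185 : Tr := .node ⟨nat_lit 3, nat_lit 4, nat_lit 0x232, nat_lit 7, nat_lit 4, nat_lit 0x48⟩ (.node ⟨nat_lit 6, nat_lit 0x280030, nat_lit 0x113122, nat_lit 0, nat_lit 4, nat_lit 0x49⟩ (.node ⟨nat_lit 6, nat_lit 0x1000200034, nat_lit 0x31121, nat_lit 0, nat_lit 4, nat_lit 0x48⟩ (.node ⟨nat_lit 5, nat_lit 0x18, nat_lit 0x21214, nat_lit 0, nat_lit 4, nat_lit 0x49⟩ (.node ⟨nat_lit 7, nat_lit 0x20004000600064, nat_lit 0x2012120, nat_lit 0, nat_lit 4, nat_lit 0x48⟩ (t14_185) (t14_8377)) (.node ⟨nat_lit 6, nat_lit 0x200010, nat_lit 0x10020, nat_lit 0, nat_lit 4, nat_lit 0x47⟩ (t14_4281) (t14_12473))) (.node ⟨nat_lit 5, nat_lit 0x1000100008, nat_lit 0x12223, nat_lit 2, nat_lit 4, nat_lit 0x49⟩ (.node ⟨nat_lit 7, nat_lit 0x40002000480070, nat_lit 0x112103, nat_lit 0, nat_lit 4, nat_lit 0x47⟩ (t14_2233) (t14_10425)) (.node ⟨nat_lit 7, nat_lit 0x1000600060,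 nat_lit 0x1002032, nat_lit 0, nat_lit 4, nat_lit 0x48⟩ (t14_6329) (t14_14521)))) (.node ⟨nat_lit 4, nat_lit 8, nat_lit 0x1112, nat_lit 3, nat_lit 3, nat_lit 0x46⟩ (.node ⟨nat_lit 7, nat_lit 0x200020004000440070, nat_lit 0x2112111, nat_lit 0, nat_lit 4, nat_lit 0x48⟩ (.node ⟨nat_lit 6, nat_lit 0x2000200010, nat_lit 0x11104, nat_lit 2, nat_lit 4, nat_lit 0x49⟩ (t14_1209) (t14_9401)) (.node ⟨nat_lit 7, nat_lit 0x40001000600050, nat_lit 0x11201, nat_lit 1, nat_lit 4, nat_lit 0x47⟩ (t14_5305) (t14_13497))) (.node ⟨nat_lit 6, nat_lit 0x800300030, nat_lit 0x2330, nat_lit 0, nat_lit 4, nat_lit 0x47⟩ (.node ⟨nat_lit 6, nat_lit 0x30000c, nat_lit 0x101100, nat_lit 0, nat_lit 4, nat_lit 0x46⟩ (t14_3257) (t14_11449)) (.node ⟨nat_lit 5, nat_lit 0x100010001c, nat_lit 0x11011, nat_lit 4, nat_lit 4, nat_lit 0x46⟩ (t14_7353) (t14_15545))))) (.node ⟨nat_lit 4, nat_lit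 0xe, nat_lit 0x3212, nat_lit 4, nat_lit 4, nat_lit 0x48⟩ (.node ⟨nat_lit 3, nat_lit 0, nat_lit 0x211, nat_lit 7, nat_lit 4, nat_lit 0x47⟩ (.node ⟨nat_lit 7, nat_lit 0x20004000400064, nat_lit 0x1020112, nat_lit 0, nat_lit 4, nat_lit 0x48⟩ (.node ⟨nat_lit 8, nat_lit 0x40001000a000c0, nat_lit 0x10020012, nat_lit 1, nat_lit 4, nat_lit 0x49⟩ (t14_697) (t14_8889)) (.node ⟨nat_lit 8, nat_lit 0x800040004000a000c8, nat_lit 0x1022110, nat_lit 0, nat_lit 4, nat_lit 0x48⟩ (t14_4793) (t14_12985))) (.node ⟨nat_lit 6, nat_lit 0x200030, nat_lit 0x101101, nat_lit 0, nat_lit 4, nat_lit 0x47⟩ (.node ⟨nat_lit 8, nat_lit 0x8000800040002000c0, nat_lit 0x1110013, nat_lit 1, nat_lit 4, nat_lit 0x49⟩ (t14_2745) (t14_10937)) (.node ⟨nat_lit 7, nat_lit 0x1000600018, nat_lit 0x1011012, nat_lit 0, nat_lit 4, nat_lit 0x48⟩ (t14_6841) (t14_15033)))) (.node ⟨nat_lit 6, nat_lit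 0x20001000280030, nat_lit 0x110202, nat_lit 3, nat_lit 4, nat_lit 0x47⟩ (.node ⟨nat_lit 5, nat_lit 0x800100010, nat_lit 0x11210, nat_lit 3, nat_lit 4, nat_lit 0x47⟩ (.node ⟨nat_lit 6, nat_lit 0x800200032, nat_lit 0x10011, nat_lit 1, nat_lit 4, nat_lit 0x45⟩ (t14_1721) (t14_9913)) (.node ⟨nat_lit 7, nat_lit 0x4000400060, nat_lit 0x22310, nat_lit 1, nat_lit 4, nat_lit 0x4a⟩ (t14_5817) (t14_14009))) (.node ⟨nat_lit 5, nat_lit 0x100018, nat_lit 0x20220, nat_lit 2, nat_lit 3, nat_lit 0x47⟩ (.node ⟨nat_lit 6, nat_lit 0x800300028, nat_lit 0x1103, nat_lit 4, nat_lit 4, nat_lit 0x47⟩ (t14_3769) (t14_11961)) (.node ⟨nat_lit 7, nat_lit 0x4000600060, nat_lit 0x1011121, nat_lit 0, nat_lit 3, nat_lit 0x47⟩ (t14_7865) (.nil)))))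
def t14_441 : Tr := .node ⟨nat_lit 6, nat_lit 0x2000200030, nat_lit 0x112101, nat_lit 1, nat_lit 3, nat_lit 0x47⟩ (.nil) (.nil)
def t14_8633 : Tr := .node ⟨nat_lit 6, nat_lit 0x2000340038, nat_lit 2, nat_lit 3, nat_lit 4, nat_lit 0x44⟩ (.nil) (.nil)
def t14_4537 : Tr := .node ⟨nat_lit 6, nat_lit 0x2000080030, nat_lit 0x101201, nat_lit 8, nat_lit 4, nat_lit 0x49⟩ (.nil) (.nil)
def t14_12729 : Tr := .node ⟨nat_lit 4, nat_lit 0x8000c, nat_lit 0x220, nat_lit 9, nat_lit 4, nat_lit 0x47⟩ (.nil) (.nil)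
def t14_2489 : Tr := .node ⟨nat_lit 7, nat_lit 0x4000200060, nat_lit 0x110220, nat_lit 0, nat_lit 4, nat_lit 0x49⟩ (.nil) (.nil)
def t14_10681 : Tr := .node ⟨nat_lit 6, nat_lit 0x20001000100028, nat_lit 0x100110, nat_lit 0, nat_lit 4, nat_lit 0x45⟩ (.nil) (.nil)
def t14_6585 : Tr := .node ⟨nat_lit 7, nat_lit 0x40001000100060, nat_lit 0x203100, nat_lit 0, nat_lit 4, nat_lit 0x48⟩ (.nil) (.nil)
def t14_14777 : Tr := .node ⟨nat_lit 7, nat_lit 0x10001000600050, nat_lit 0x1001112, nat_lit 4, nat_lit 4, nat_lit 0x48⟩ (.nil) (.nil)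
def t14_1465 : Tr := .node ⟨nat_lit 9, nat_lit 0x1000100008000800090014001c0, nat_lit 0x100220101, nat_lit 0, nat_lit 4, nat_lit 0x48⟩ (.nil) (.nil)
def t14_9657 : Tr := .node ⟨nat_lit 8, nat_lit 0x8000800040004000a000e0, nat_lit 0x2003, nat_lit 1, nat_lit 4, nat_lit 0x46⟩ (.nil) (.nil)
def t14_5561 : Tr := .node ⟨nat_lit 7, nat_lit 0x2000400042, nat_lit 0x11022, nat_lit 3, nat_lit 4, nat_lit 0x49⟩ (.nil) (.nil)
def t14_13753 : Tr := .node ⟨nat_lit 7, nat_lit 0x20002000400062, nat_lit 0x10020, nat_lit 2, nat_lit 4, nat_lit 0x47⟩ (.nil) (.nil)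
def t14_3513 : Tr := .node ⟨nat_lit 7, nat_lit 0x6000180050, nat_lit 1, nat_lit 1, nat_lit 4, nat_lit 0x45⟩ (.nil) (.nil)
def t14_11705 : Tr := .node ⟨nat_lit 8, nat_lit 0x400080002000c000c0, nat_lit 0x121110, nat_lit 1, nat_lit 4, nat_lit 0x48⟩ (.nil) (.nil)
def t14_7609 : Tr := .node ⟨nat_lit 7, nat_lit 0x40002000480060, nat_lit 0x11213, nat_lit 1, nat_lit 4, nat_lit 0x47⟩ (.nil) (.nil)
def t14_953 : Tr := .node ⟨nat_lit 3, nat_lit 0x40004, nat_lit 0x21, nat_lit 9, nat_lit 3, nat_lit 0x44⟩ (.nil) (.nil)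
def t14_9145 : Tr := .node ⟨nat_lit 7, nat_lit 0x10006000500070, nat_lit 0x2022, nat_lit 0, nat_lit 4, nat_lit 0x45⟩ (.nil) (.nil)
def t14_5049 : Tr := .node ⟨nat_lit 6, nat_lit 0x2000300030, nat_lit 0x11141, nat_lit 3, nat_lit 4, nat_lit 0x48⟩ (.nil) (.nil)
def t14_13241 : Tr := .node ⟨nat_lit 5, nat_lit 0x100018, nat_lit 0x130, nat_lit 6, nat_lit 3, nat_lit 0x46⟩ (.nil) (.nil)
def t14_3001 : Tr := .node ⟨nat_lit 9, nat_lit 0x10001000080004001200180, nat_lit 0x1210011, nat_lit 0, nat_lit 4, nat_lit 0x49⟩ (.nil) (.nil)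
def t14_11193 : Tr := .node ⟨nat_lit 7, nat_lit 0x20005000500068, nat_lit 0x113201, nat_lit 0, nat_lit 4, nat_lit 0x47⟩ (.nil) (.nil)
def t14_7097 : Tr := .node ⟨nat_lit 6, nat_lit 0x800300030, nat_lit 0x202111, nat_lit 3, nat_lit 4, nat_lit 0x48⟩ (.nil) (.nil)
def t14_15289 : Tr := .node ⟨nat_lit 7, nat_lit 0x40002000600050, nat_lit 0x12002, nat_lit 1, nat_lit 4, nat_lit 0x47⟩ (.nil) (.nil)
def t14_1977 : Tr := .node ⟨nat_lit 7, nat_lit 0x4000100060, nat_lit 0x210112, nat_lit 0, nat_lit 4, nat_lit 0x49⟩ (.nil) (.nil)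
def t14_10169 : Tr := .node ⟨nat_lit 6, nat_lit 0x2000100010, nat_lit 0, nat_lit 0, nat_lit 3, nat_lit 0x45⟩ (.nil) (.nil)
def t14_6073 : Tr := .node ⟨nat_lit 8, nat_lit 0x80004000c000c4, nat_lit 0x1111120, nat_lit 0, nat_lit 4, nat_lit 0x49⟩ (.nil) (.nil)
def t14_14265 : Tr := .node ⟨nat_lit 8, nat_lit 0x80004000c000a000c8, nat_lit 0x11202, nat_lit 0, nat_lit 4, nat_lit 0x46⟩ (.nil) (.nil)
def t14_4025 : Tr := .node ⟨nat_lit 7, nat_lit 0x10002000400060, nat_lit 0x100101, nat_lit 0, nat_lit 4, nat_lit 0x47⟩ (.nil) (.nil)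
def t14_12217 : Tr := .node ⟨nat_lit 7, nat_lit 0x40003000580068, nat_lit 0x1111012, nat_lit 0, nat_lit 4, nat_lit 0x46⟩ (.nil) (.nil)
def t14_8121 : Tr := .node ⟨nat_lit 7, nat_lit 0x40002000480048, nat_lit 0x111041, nat_lit 0, nat_lit 4, nat_lit 0x48⟩ (.nil) (.nil)
def t9_441 : Tr := .node ⟨nat_lit 7, nat_lit 0x400020, nat_lit 0x231101, nat_lit 1, nat_lit 4, nat_lit 0x4c⟩ (.node ⟨nat_lit 2, nat_lit 2, nat_lit 0x10, nat_lit 5, nat_lit 3, nat_lit 0x42⟩ (.node ⟨nat_lit 6, nat_lit 0x200030, nat_lit 0x22122, nat_lit 0, nat_lit 4, nat_lit 0x49⟩ (.node ⟨nat_lit 7, nat_lit 0x40002000100060, nat_lit 0x110122, nat_lit 0, nat_lit 4, nat_lit 0x48⟩ (.node ⟨nat_lit 7, nat_lit 0x40006800580070, nat_lit 0x2000201, nat_lit 1, nat_lit 4, nat_lit 0x45⟩ (t14_441) (t14_8633)) (.node ⟨nat_lit 7, nat_lit 0x2000500060, nat_lit 0x1021022, nat_lit 1, nat_lit 4, nat_lit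 0x49⟩ (t14_4537) (t14_12729))) (.node ⟨nat_lit 5, nat_lit 0x100018, nat_lit 0x11131, nat_lit 3, nat_lit 4, nat_lit 0x48⟩ (.node ⟨nat_lit 7, nat_lit 0x20003000500068, nat_lit 0x1111130, nat_lit 0, nat_lit 4, nat_lit 0x47⟩ (t14_2489) (t14_10681)) (.node ⟨nat_lit 8, nat_lit 0x800040008800c0, nat_lit 0x212020, nat_lit 0, nat_lit 4, nat_lit 0x49⟩ (t14_6585) (t14_14777)))) (.node ⟨nat_lit 5, nat_lit 0x140018, nat_lit 0x1210, nat_lit 5, nat_lit 4, nat_lit 0x46⟩ (.node ⟨nat_lit 7, nat_lit 0x400040, nat_lit 0x221010, nat_lit 1, nat_lit 4, nat_lit 0x4b⟩ (.node ⟨nat_lit 7, nat_lit 0x40004000400068, nat_lit 0x111003, nat_lit 2, nat_lit 4, nat_lit 0x48⟩ (t14_1465) (t14_9657)) (.node ⟨nat_lit 7, nat_lit 0x400020002000500068, nat_lit 0x1121011, nat_lit 3, nat_lit 4, nat_lit 0x48⟩ (t14_5561) (t14_13753))) (.node ⟨nat_lit 7, nat_lit 0x40004000480048, nat_lit 0x1210100,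 nat_lit 3, nat_lit 4, nat_lit 0x49⟩ (.node ⟨nat_lit 6, nat_lit 0x800200030, nat_lit 0x11000, nat_lit 1, nat_lit 4, nat_lit 0x46⟩ (t14_3513) (t14_11705)) (.node ⟨nat_lit 5, nat_lit 0x800100010, nat_lit 0x11211, nat_lit 6, nat_lit 4, nat_lit 0x48⟩ (t14_7609) (.nil))))) (.node ⟨nat_lit 6, nat_lit 0x280030, nat_lit 0x200312, nat_lit 0, nat_lit 4, nat_lit 0x48⟩ (.node ⟨nat_lit 6, nat_lit 0x100020, nat_lit 0x122111, nat_lit 0, nat_lit 4, nat_lit 0x4a⟩ (.node ⟨nat_lit 7, nat_lit 0x40004000440048, nat_lit 0x1111110, nat_lit 3, nat_lit 4, nat_lit 0x49⟩ (.node ⟨nat_lit 5, nat_lit 0x10, nat_lit 0x11113, nat_lit 7, nat_lit 4, nat_lit 0x4a⟩ (t14_953) (t14_9145)) (.node ⟨nat_lit 6, nat_lit 0x2000200020, nat_lit 0x22210, nat_lit 5, nat_lit 4, nat_lit 0x4a⟩ (t14_5049) (t14_13241))) (.node ⟨nat_lit 7, nat_lit 0x4000200020, nat_lit 0x121020, nat_lit 0, nat_lit 4,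 nat_lit 0x4a⟩ (.node ⟨nat_lit 7, nat_lit 0x40004000400048, nat_lit 0x111102, nat_lit 3, nat_lit 4, nat_lit 0x49⟩ (t14_3001) (t14_11193)) (.node ⟨nat_lit 7, nat_lit 0x400060, nat_lit 0x1111122, nat_lit 2, nat_lit 4, nat_lit 0x4b⟩ (t14_7097) (t14_15289)))) (.node ⟨nat_lit 6, nat_lit 0x80030, nat_lit 0x201110, nat_lit 1, nat_lit 4, nat_lit 0x48⟩ (.node ⟨nat_lit 6, nat_lit 0x800080030, nat_lit 0x201221, nat_lit 2, nat_lit 4, nat_lit 0x49⟩ (.node ⟨nat_lit 7, nat_lit 0x40001000600050, nat_lit 0x12311, nat_lit 1, nat_lit 4, nat_lit 0x48⟩ (t14_1977) (t14_10169)) (.node ⟨nat_lit 6, nat_lit 0x1000280030, nat_lit 0x2220, nat_lit 2, nat_lit 4, nat_lit 0x47⟩ (t14_6073) (t14_14265))) (.node ⟨nat_lit 4, nat_lit 0xc, nat_lit 0x3110, nat_lit 9, nat_lit 3, nat_lit 0x47⟩ (.node ⟨nat_lit 5, nat_lit 0x40018, nat_lit 0x10130, nat_lit 2, nat_lit 4, nat_lit 0x47⟩ (t14_4025)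 (t14_12217)) (.node ⟨nat_lit 7, nat_lit 0x40002000100060, nat_lit 0x1011112, nat_lit 1, nat_lit 4, nat_lit 0x48⟩ (t14_8121) (.nil)))))
def t14_121 : Tr := .node ⟨nat_lit 7, nat_lit 0x2000500060, nat_lit 0x1013111, nat_lit 1, nat_lit 4, nat_lit 0x49⟩ (.nil) (.nil)
def t14_8313 : Tr := .node ⟨nat_lit 8, nat_lit 0x10008000a000c4, nat_lit 0x202, nat_lit 0, nat_lit 4, nat_lit 0x47⟩ (.nil) (.nil)
def t14_4217 : Tr := .node ⟨nat_lit 7, nat_lit 0x40004000400020, nat_lit 0x121101, nat_lit 5, nat_lit 4, nat_lit 0x4a⟩ (.nil) (.nil)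
def t14_12409 : Tr := .node ⟨nat_lit 7, nat_lit 0x6000600050, nat_lit 0x1003, nat_lit 1, nat_lit 4, nat_lit 0x46⟩ (.nil) (.nil)
def t14_2169 : Tr := .node ⟨nat_lit 8, nat_lit 0x400080008000200088, nat_lit 0x102202, nat_lit 0, nat_lit 4, nat_lit 0x49⟩ (.nil) (.nil)
def t14_10361 : Tr := .node ⟨nat_lit 8, nat_lit 0x800040009000a000d0, nat_lit 0x120002, nat_lit 1, nat_lit 4, nat_lit 0x47⟩ (.nil) (.nil)
def t14_6265 : Tr := .node ⟨nat_lit 7, nat_lit 0x400040002000480050, nat_lit 0x1111100, nat_lit 3, nat_lit 4, nat_lit 0x48⟩ (.nil) (.nil)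
def t14_14457 : Tr := .node ⟨nat_lit 7, nat_lit 0x800500060, nat_lit 0x110012, nat_lit 3, nat_lit 4, nat_lit 0x48⟩ (.nil) (.nil)
def t14_1145 : Tr := .node ⟨nat_lit 7, nat_lit 0x20004000680070, nat_lit 0x10112, nat_lit 1, nat_lit 4, nat_lit 0x45⟩ (.nil) (.nil)
def t14_9337 : Tr := .node ⟨nat_lit 9, nat_lit 0x10000800120012001400180, nat_lit 0x1101112, nat_lit 1, nat_lit 4, nat_lit 0x48⟩ (.nil) (.nil)
def t14_5241 : Tr := .node ⟨nat_lit 7, nat_lit 0x400020002000500070, nat_lit 0x22110, nat_lit 0, nat_lit 4, nat_lit 0x46⟩ (.nil) (.nil)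
def t14_13433 : Tr := .node ⟨nat_lit 8, nat_lit 0x800020002000400090, nat_lit 0x1021000, nat_lit 0, nat_lit 4, nat_lit 0x48⟩ (.nil) (.nil)
def t14_3193 : Tr := .node ⟨nat_lit 9, nat_lit 0x100010001000080008000800140, nat_lit 0x1102110, nat_lit 0, nat_lit 4, nat_lit 0x49⟩ (.nil) (.nil)
def t14_11385 : Tr := .node ⟨nat_lit 7, nat_lit 0x40004000100060, nat_lit 0x101011, nat_lit 0, nat_lit 4, nat_lit 0x47⟩ (.nil) (.nil)
def t14_7289 : Tr := .node ⟨nat_lit 6, nat_lit 0x10001000200030, nat_lit 0x102020, nat_lit 2, nat_lit 4, nat_lit 0x47⟩ (.nil) (.nil)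
def t14_15481 : Tr := .node ⟨nat_lit 8, nat_lit 0x400080002000e0, nat_lit 0x11011102, nat_lit 0, nat_lit 4, nat_lit 0x49⟩ (.nil) (.nil)
def t14_633 : Tr := .node ⟨nat_lit 4, nat_lit 0x8000c, nat_lit 0x232, nat_lit 7, nat_lit 4, nat_lit 0x47⟩ (.nil) (.nil)
def t14_8825 : Tr := .node ⟨nat_lit 7, nat_lit 0x4000400044, nat_lit 0x211203, nat_lit 0, nat_lit 4, nat_lit 0x4a⟩ (.nil) (.nil)
def t14_4729 : Tr := .node ⟨nat_lit 7, nat_lit 0x10002000500060, nat_lit 0x111110, nat_lit 0, nat_lit 4, nat_lit 0x47⟩ (.nil) (.nil)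
def t14_12921 : Tr := .node ⟨nat_lit 8, nat_lit 0x8000800040009000c0, nat_lit 0x110200, nat_lit 1, nat_lit 4, nat_lit 0x48⟩ (.nil) (.nil)
def t14_2681 : Tr := .node ⟨nat_lit 6, nat_lit 0x3000300038, nat_lit 0x1103, nat_lit 3, nat_lit 4, nat_lit 0x45⟩ (.nil) (.nil)
def t14_10873 : Tr := .node ⟨nat_lit 7, nat_lit 0x40005000680070, nat_lit 0x2003, nat_lit 1, nat_lit 4, nat_lit 0x45⟩ (.nil) (.nil)
def t14_6777 : Tr := .node ⟨nat_lit 6, nat_lit 0x80030, nat_lit 0x101100, nat_lit 3, nat_lit 4, nat_lit 0x48⟩ (.nil) (.nil)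
def t14_14969 : Tr := .node ⟨nat_lit 7, nat_lit 0x400020005000600060, nat_lit 0x1001031, nat_lit 1, nat_lit 4, nat_lit 0x47⟩ (.nil) (.nil)
def t14_1657 : Tr := .node ⟨nat_lit 7, nat_lit 0x20005000680070, nat_lit 0x12112, nat_lit 0, nat_lit 4, nat_lit 0x45⟩ (.nil) (.nil)
def t14_9849 : Tr := .node ⟨nat_lit 9, nat_lit 0x100002001400180, nat_lit 0x10012002, nat_lit 0, nat_lit 4, nat_lit 0x4a⟩ (.nil) (.nil)
def t14_5753 : Tr := .node ⟨nat_lit 7, nat_lit 0x40004000440048, nat_lit 0x111220, nat_lit 4, nat_lit 4, nat_lit 0x49⟩ (.nil) (.nil)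
def t14_13945 : Tr := .node ⟨nat_lit 7, nat_lit 0x40004000100068, nat_lit 0x12002, nat_lit 0, nat_lit 4, nat_lit 0x47⟩ (.nil) (.nil)
def t14_3705 : Tr := .node ⟨nat_lit 8, nat_lit 0x800040004000400020, nat_lit 0x10102100, nat_lit 3, nat_lit 4, nat_lit 0x4a⟩ (.nil) (.nil)
def t14_11897 : Tr := .node ⟨nat_lit 4, nat_lit 0xc000c, nat_lit 0x3030, nat_lit 5, nat_lit 3, nat_lit 0x45⟩ (.nil) (.nil)
def t14_7801 : Tr := .node ⟨nat_lit 4, nat_lit 0x8000c, nat_lit 0x122, nat_lit 0xc, nat_lit 4, nat_lit 0x47⟩ (.nil) (.nil)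
def t9_121 : Tr := .node ⟨nat_lit 6, nat_lit 0x2000200010, nat_lit 0x131211, nat_lit 0, nat_lit 4, nat_lit 0x4a⟩ (.node ⟨nat_lit 6, nat_lit 0x2000100010, nat_lit 0x13021, nat_lit 5, nat_lit 4, nat_lit 0x4a⟩ (.node ⟨nat_lit 7, nat_lit 0x40004000480060, nat_lit 0x31200, nat_lit 3, nat_lit 4, nat_lit 0x49⟩ (.node ⟨nat_lit 6, nat_lit 0x200030, nat_lit 0x12101, nat_lit 1, nat_lit 4, nat_lit 0x48⟩ (.node ⟨nat_lit 7, nat_lit 0x200040003000480068, nat_lit 0x2022200, nat_lit 0, nat_lit 4, nat_lit 0x47⟩ (t14_121) (t14_8313)) (.node ⟨nat_lit 6, nat_lit 0x1000200020, nat_lit 0x101200, nat_lit 0, nat_lit 4, nat_lit 0x47⟩ (t14_4217) (t14_12409))) (.node ⟨nat_lit 5, nat_lit 0x100018, nat_lit 0x10211, nat_lit 2, nat_lit 3, nat_lit 0x46⟩ (.node ⟨nat_lit 6, nat_lit 0x2000080030, nat_lit 0x11210, nat_lit 2, nat_lit 4, nat_lit 0x47⟩ (t14_2169) (t14_10361)) (.node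 ⟨nat_lit 7, nat_lit 0x40004000200060, nat_lit 0x121122, nat_lit 1, nat_lit 4, nat_lit 0x49⟩ (t14_6265) (t14_14457)))) (.node ⟨nat_lit 5, nat_lit 0x10, nat_lit 0x2211, nat_lit 3, nat_lit 4, nat_lit 0x49⟩ (.node ⟨nat_lit 6, nat_lit 0x200030, nat_lit 0x221111, nat_lit 1, nat_lit 4, nat_lit 0x4a⟩ (.node ⟨nat_lit 7, nat_lit 0x400060, nat_lit 0x1111131, nat_lit 1, nat_lit 4, nat_lit 0x4b⟩ (t14_1145) (t14_9337)) (.node ⟨nat_lit 5, nat_lit 0x180018, nat_lit 0x10321, nat_lit 2, nat_lit 3, nat_lit 0x46⟩ (t14_5241) (t14_13433))) (.node ⟨nat_lit 6, nat_lit 0x80030, nat_lit 0x111201, nat_lit 2, nat_lit 4, nat_lit 0x49⟩ (.node ⟨nat_lit 7, nat_lit 0x40004000200060, nat_lit 0x112130, nat_lit 0, nat_lit 4, nat_lit 0x49⟩ (t14_3193) (t14_11385)) (.node ⟨nat_lit 5, nat_lit 0x1000140018, nat_lit 0x10100, nat_lit 3, nat_lit 4, nat_lit 0x45⟩ (t14_7289) (t14_15481)))))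 (.node ⟨nat_lit 5, nat_lit 0x1000140014, nat_lit 0x31211, nat_lit 3, nat_lit 4, nat_lit 0x49⟩ (.node ⟨nat_lit 4, nat_lit 0x8000a, nat_lit 0x2121, nat_lit 8, nat_lit 4, nat_lit 0x48⟩ (.node ⟨nat_lit 5, nat_lit 0x800100018, nat_lit 0x1221, nat_lit 3, nat_lit 4, nat_lit 0x46⟩ (.node ⟨nat_lit 6, nat_lit 0x2000080030, nat_lit 0x102201, nat_lit 5, nat_lit 4, nat_lit 0x49⟩ (t14_633) (t14_8825)) (.node ⟨nat_lit 8, nat_lit 0x80002000200040, nat_lit 0x1110201, nat_lit 3, nat_lit 4, nat_lit 0x4b⟩ (t14_4729) (t14_12921))) (.node ⟨nat_lit 6, nat_lit 0x1000200030, nat_lit 0x101112, nat_lit 1, nat_lit 4, nat_lit 0x47⟩ (.node ⟨nat_lit 7, nat_lit 0x40002000480070, nat_lit 0x1120203, nat_lit 1, nat_lit 4, nat_lit 0x48⟩ (t14_2681) (t14_10873)) (.node ⟨nat_lit 5, nat_lit 0x18, nat_lit 0x11112, nat_lit 3, nat_lit 3, nat_lit 0x47⟩ (t14_6777) (t14_14969)))) (.node ⟨nat_lit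 5, nat_lit 0x100008, nat_lit 0x2111, nat_lit 5, nat_lit 4, nat_lit 0x48⟩ (.node ⟨nat_lit 5, nat_lit 0x1000080008, nat_lit 0x10121, nat_lit 2, nat_lit 3, nat_lit 0x45⟩ (.node ⟨nat_lit 6, nat_lit 0x1000200034, nat_lit 0x1101, nat_lit 1, nat_lit 4, nat_lit 0x45⟩ (t14_1657) (t14_9849)) (.node ⟨nat_lit 6, nat_lit 0x20002000200010, nat_lit 0x22003, nat_lit 4, nat_lit 4, nat_lit 0x49⟩ (t14_5753) (t14_13945))) (.node ⟨nat_lit 7, nat_lit 0x10001000100060, nat_lit 0x2002102, nat_lit 2, nat_lit 4, nat_lit 0x49⟩ (.node ⟨nat_lit 6, nat_lit 0x2000200010, nat_lit 0x21000, nat_lit 0, nat_lit 4, nat_lit 0x47⟩ (t14_3705) (t14_11897)) (.node ⟨nat_lit 6, nat_lit 0x300030, nat_lit 0x111121, nat_lit 4, nat_lit 4, nat_lit 0x49⟩ (t14_7801) (.nil)))))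
def t14_377 : Tr := .node ⟨nat_lit 8, nat_lit 0x8000c0, nat_lit 0x10211111, nat_lit 0, nat_lit 4, nat_lit 0x4c⟩ (.nil) (.nil)
def t14_8569 : Tr := .node ⟨nat_lit 8, nat_lit 0x2000800080008800c8, nat_lit 0x1021, nat_lit 1, nat_lit 4, nat_lit 0x47⟩ (.nil) (.nil)
def t14_4473 : Tr := .node ⟨nat_lit 7, nat_lit 0x20004000440044, nat_lit 0x1102111, nat_lit 0, nat_lit 4, nat_lit 0x48⟩ (.nil) (.nil)
def t14_12665 : Tr := .node ⟨nat_lit 7, nat_lit 0x10002000400060, nat_lit 0x1000103, nat_lit 4, nat_lit 4, nat_lit 0x48⟩ (.nil) (.nil)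
def t14_2425 : Tr := .node ⟨nat_lit 8, nat_lit 0x200080008000c000c8, nat_lit 0x1002102, nat_lit 1, nat_lit 4, nat_lit 0x48⟩ (.nil) (.nil)
def t14_10617 : Tr := .node ⟨nat_lit 7, nat_lit 0x40004800600030, nat_lit 0x11120, nat_lit 1, nat_lit 4, nat_lit 0x46⟩ (.nil) (.nil)
def t14_6521 : Tr := .node ⟨nat_lit 7, nat_lit 0x40001000680068, nat_lit 0x1111111, nat_lit 1, nat_lit 4, nat_lit 0x47⟩ (.nil) (.nil)
def t14_14713 : Tr := .node ⟨nat_lit 8, nat_lit 0x200080008000c000c8, nat_lit 0x1001121, nat_lit 2, nat_lit 4, nat_lit 0x48⟩ (.nil) (.nil)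
def t14_1401 : Tr := .node ⟨nat_lit 7, nat_lit 0x20004000600060, nat_lit 0x13210, nat_lit 0, nat_lit 4, nat_lit 0x48⟩ (.nil) (.nil)
def t14_9593 : Tr := .node ⟨nat_lit 7, nat_lit 0x400020002000500068, nat_lit 0x21000, nat_lit 3, nat_lit 4, nat_lit 0x46⟩ (.nil) (.nil)
def t14_5497 : Tr := .node ⟨nat_lit 6, nat_lit 0x800200030, nat_lit 0x10420, nat_lit 0, nat_lit 4, nat_lit 0x47⟩ (.nil) (.nil)
def t14_13689 : Tr := .node ⟨nat_lit 7, nat_lit 0x20004000400064, nat_lit 0x20002, nat_lit 2, nat_lit 4, nat_lit 0x47⟩ (.nil) (.nil)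
def t14_3449 : Tr := .node ⟨nat_lit 7, nat_lit 0x4000600050, nat_lit 0x1002021, nat_lit 1, nat_lit 4, nat_lit 0x48⟩ (.nil) (.nil)
def t14_11641 : Tr := .node ⟨nat_lit 6, nat_lit 0x10001000200020, nat_lit 0x4010, nat_lit 1, nat_lit 3, nat_lit 0x46⟩ (.nil) (.nil)
def t14_7545 : Tr := .node ⟨nat_lit 6, nat_lit 0x1000080020, nat_lit 0x220, nat_lit 1, nat_lit 4, nat_lit 0x46⟩ (.nil) (.nil)
def t14_889 : Tr := .node ⟨nat_lit 7, nat_lit 0x400040002000200050, nat_lit 0x2220, nat_lit 1, nat_lit 4, nat_lit 0x47⟩ (.nil) (.nil)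
def t14_9081 : Tr := .node ⟨nat_lit 9, nat_lit 0x10001000040004001200180, nat_lit 0x10120011, nat_lit 1, nat_lit 4, nat_lit 0x49⟩ (.nil) (.nil)
def t14_4985 : Tr := .node ⟨nat_lit 7, nat_lit 0x200040004800300060, nat_lit 0x1031001, nat_lit 1, nat_lit 4, nat_lit 0x47⟩ (.nil) (.nil)
def t14_13177 : Tr := .node ⟨nat_lit 5, nat_lit 0x1000080014, nat_lit 0x10003, nat_lit 2, nat_lit 4, nat_lit 0x45⟩ (.nil) (.nil)
def t14_2937 : Tr := .node ⟨nat_lit 8, nat_lit 0xa000a000c0, nat_lit 0x2011201, nat_lit 0, nat_lit 4, nat_lit 0x49⟩ (.nil) (.nil)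
def t14_11129 : Tr := .node ⟨nat_lit 6, nat_lit 0x20001000100010, nat_lit 0x210, nat_lit 5, nat_lit 3, nat_lit 0x46⟩ (.nil) (.nil)
def t14_7033 : Tr := .node ⟨nat_lit 8, nat_lit 0x4000400080008400c0, nat_lit 0x1121001, nat_lit 1, nat_lit 4, nat_lit 0x49⟩ (.nil) (.nil)
def t14_15225 : Tr := .node ⟨nat_lit 5, nat_lit 0x100018001c, nat_lit 0x11121, nat_lit 8, nat_lit 4, nat_lit 0x47⟩ (.nil) (.nil)
def t14_1913 : Tr := .node ⟨nat_lit 6, nat_lit 0x80030, nat_lit 0x201, nat_lit 2, nat_lit 4, nat_lit 0x47⟩ (.nil) (.nil)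
def t14_10105 : Tr := .node ⟨nat_lit 8, nat_lit 0x20008000c000c0, nat_lit 0x20220, nat_lit 2, nat_lit 4, nat_lit 0x49⟩ (.nil) (.nil)
def t14_6009 : Tr := .node ⟨nat_lit 5, nat_lit 0x18, nat_lit 0x21310, nat_lit 4, nat_lit 4, nat_lit 0x4a⟩ (.nil) (.nil)
def t14_14201 : Tr := .node ⟨nat_lit 6, nat_lit 0x20001000100028, nat_lit 0x100202, nat_lit 2, nat_lit 4, nat_lit 0x46⟩ (.nil) (.nil)
def t14_3961 : Tr := .node ⟨nat_lit 7, nat_lit 0x40001000100060, nat_lit 0x112100, nat_lit 1, nat_lit 4, nat_lit 0x48⟩ (.nil) (.nil)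
def t14_12153 : Tr := .node ⟨nat_lit 6, nat_lit 0x800280030, nat_lit 0x110200, nat_lit 3, nat_lit 4, nat_lit 0x47⟩ (.nil) (.nil)
def t14_8057 : Tr := .node ⟨nat_lit 7, nat_lit 0x4000440060, nat_lit 0x21130, nat_lit 0, nat_lit 4, nat_lit 0x48⟩ (.nil) (.nil)
def t9_377 : Tr := .node ⟨nat_lit 5, nat_lit 0x80010, nat_lit 0x12311, nat_lit 5, nat_lit 4, nat_lit 0x4a⟩ (.node ⟨nat_lit 5, nat_lit 0x100010, nat_lit 0x13130, nat_lit 2, nat_lit 3, nat_lit 0x48⟩ (.node ⟨nat_lit 5, nat_lit 0x80010, nat_lit 0x12201, nat_lit 0, nat_lit 3, nat_lit 0x47⟩ (.node ⟨nat_lit 6, nat_lit 0x2000200010, nat_lit 0x112202, nat_lit 0, nat_lit 4, nat_lit 0x49⟩ (.node ⟨nat_lit 7, nat_lit 0x10006000600060, nat_lit 0x21210, nat_lit 3, nat_lit 4, nat_lit 0x47⟩ (t14_377) (t14_8569)) (.node ⟨nat_lit 8, nat_lit 0x40004000800060008800e0, nat_lit 0x11112011, nat_lit 0, nat_lit 4, nat_lit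 0x48⟩ (t14_4473) (t14_12665))) (.node ⟨nat_lit 7, nat_lit 0x1000100060, nat_lit 0x2101101, nat_lit 0, nat_lit 4, nat_lit 0x49⟩ (.node ⟨nat_lit 5, nat_lit 0x1000080018, nat_lit 0x11114, nat_lit 5, nat_lit 4, nat_lit 0x48⟩ (t14_2425) (t14_10617)) (.node ⟨nat_lit 7, nat_lit 0x4000100060, nat_lit 0x2021, nat_lit 1, nat_lit 4, nat_lit 0x48⟩ (t14_6521) (t14_14713)))) (.node ⟨nat_lit 5, nat_lit 0x40018, nat_lit 0x20122, nat_lit 2, nat_lit 4, nat_lit 0x47⟩ (.node ⟨nat_lit 6, nat_lit 0x2000080030, nat_lit 0x22013, nat_lit 0, nat_lit 4, nat_lit 0x48⟩ (.node ⟨nat_lit 7, nat_lit 0x40002000200048, nat_lit 0x1010003, nat_lit 1, nat_lit 4, nat_lit 0x47⟩ (t14_1401) (t14_9593)) (.node ⟨nat_lit 7, nat_lit 0x400020002000500068, nat_lit 0x122101, nat_lit 1, nat_lit 4, nat_lit 0x47⟩ (t14_5497) (t14_13689))) (.node ⟨nat_lit 6, nat_lit 0x200030, nat_lit 0x31112, nat_lit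 4, nat_lit 4, nat_lit 0x4a⟩ (.node ⟨nat_lit 6, nat_lit 0x800300030, nat_lit 0x2000, nat_lit 3, nat_lit 4, nat_lit 0x46⟩ (t14_3449) (t14_11641)) (.node ⟨nat_lit 7, nat_lit 0x20004000440030, nat_lit 0x1111112, nat_lit 1, nat_lit 4, nat_lit 0x48⟩ (t14_7545) (.nil))))) (.node ⟨nat_lit 4, nat_lit 0xc, nat_lit 0x2131, nat_lit 3, nat_lit 4, nat_lit 0x48⟩ (.node ⟨nat_lit 5, nat_lit 0x40018, nat_lit 0x22211, nat_lit 0, nat_lit 3, nat_lit 0x47⟩ (.node ⟨nat_lit 6, nat_lit 0x100020, nat_lit 0x111111, nat_lit 2, nat_lit 4, nat_lit 0x49⟩ (.node ⟨nat_lit 8, nat_lit 0x80008000800088, nat_lit 0x3111001, nat_lit 1, nat_lit 4, nat_lit 0x4b⟩ (t14_889) (t14_9081)) (.node ⟨nat_lit 7, nat_lit 0x400040, nat_lit 0x1211120, nat_lit 2, nat_lit 4, nat_lit 0x4c⟩ (t14_4985) (t14_13177))) (.node ⟨nat_lit 5, nat_lit 0x18, nat_lit 0x11210, nat_lit 1, nat_lit 3, nat_lit 0x47⟩ (.node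 ⟨nat_lit 6, nat_lit 0x1000100020, nat_lit 0x111112, nat_lit 3, nat_lit 4, nat_lit 0x49⟩ (t14_2937) (t14_11129)) (.node ⟨nat_lit 6, nat_lit 0x1000300028, nat_lit 0x101132, nat_lit 2, nat_lit 4, nat_lit 0x47⟩ (t14_7033) (t14_15225)))) (.node ⟨nat_lit 5, nat_lit 0x18, nat_lit 0x10212, nat_lit 1, nat_lit 4, nat_lit 0x47⟩ (.node ⟨nat_lit 6, nat_lit 0x30, nat_lit 0x211001, nat_lit 0, nat_lit 4, nat_lit 0x49⟩ (.node ⟨nat_lit 7, nat_lit 0x4000440070, nat_lit 0x1110103, nat_lit 0, nat_lit 4, nat_lit 0x48⟩ (t14_1913) (t14_10105)) (.node ⟨nat_lit 6, nat_lit 0x800300038, nat_lit 0x101040, nat_lit 0, nat_lit 4, nat_lit 0x46⟩ (t14_6009) (t14_14201))) (.node ⟨nat_lit 5, nat_lit 0x10, nat_lit 0x1002, nat_lit 0, nat_lit 4, nat_lit 0x46⟩ (.node ⟨nat_lit 7, nat_lit 0x2000480070, nat_lit 0x1110203, nat_lit 0, nat_lit 4, nat_lit 0x48⟩ (t14_3961) (t14_12153)) (.node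 ⟨nat_lit 7, nat_lit 0x20002000400068, nat_lit 0x1112111, nat_lit 1, nat_lit 4, nat_lit 0x49⟩ (t14_8057) (.nil)))))
def t14_249 : Tr := .node ⟨nat_lit 7, nat_lit 0x40001000600068, nat_lit 0x2012012, nat_lit 0, nat_lit 4, nat_lit 0x48⟩ (.nil) (.nil)
def t14_8441 : Tr := .node ⟨nat_lit 6, nat_lit 0x800300030, nat_lit 0x100031, nat_lit 0, nat_lit 4, nat_lit 0x46⟩ (.nil) (.nil)
def t14_4345 : Tr := .node ⟨nat_lit 6, nat_lit 0x2000100030, nat_lit 0x201210, nat_lit 1, nat_lit 3, nat_lit 0x47⟩ (.nil) (.nil)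
def t14_12537 : Tr := .node ⟨nat_lit 7, nat_lit 0x20004000680070, nat_lit 0x1230, nat_lit 0, nat_lit 4, nat_lit 0x45⟩ (.nil) (.nil)
def t14_2297 : Tr := .node ⟨nat_lit 6, nat_lit 0x20002000100028, nat_lit 0x12101, nat_lit 7, nat_lit 4, nat_lit 0x48⟩ (.nil) (.nil)
def t14_10489 : Tr := .node ⟨nat_lit 7, nat_lit 0x2000500060, nat_lit 0x100022, nat_lit 0, nat_lit 4, nat_lit 0x47⟩ (.nil) (.nil)
def t14_6393 : Tr := .node ⟨nat_lit 7, nat_lit 0x40002000200010, nat_lit 0x10101, nat_lit 7, nat_lit 4, nat_lit 0x49⟩ (.nil) (.nil)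
def t14_14585 : Tr := .node ⟨nat_lit 5, nat_lit 0x10001000140018, nat_lit 0x1111, nat_lit 0xe, nat_lit 4, nat_lit 0x47⟩ (.nil) (.nil)
def t14_1273 : Tr := .node ⟨nat_lit 6, nat_lit 0x1000280030, nat_lit 0x11123, nat_lit 2, nat_lit 4, nat_lit 0x47⟩ (.nil) (.nil)
def t14_9465 : Tr := .node ⟨nat_lit 8, nat_lit 0x40004000800088006000c0, nat_lit 0x10121002, nat_lit 2, nat_lit 4, nat_lit 0x48⟩ (.nil) (.nil)
def t14_5369 : Tr := .node ⟨nat_lit 7, nat_lit 0x4000100060, nat_lit 0x1111200, nat_lit 3, nat_lit 4, nat_lit 0x4a⟩ (.nil) (.nil)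
def t14_13561 : Tr := .node ⟨nat_lit 7, nat_lit 0x4000200062, nat_lit 0x21020, nat_lit 0, nat_lit 4, nat_lit 0x48⟩ (.nil) (.nil)
def t14_3321 : Tr := .node ⟨nat_lit 7, nat_lit 0x40001000600070, nat_lit 0x1012, nat_lit 0, nat_lit 4, nat_lit 0x45⟩ (.nil) (.nil)
def t14_11513 : Tr := .node ⟨nat_lit 6, nat_lit 0x1000200030, nat_lit 0x100101, nat_lit 0, nat_lit 4, nat_lit 0x46⟩ (.nil) (.nil)
def t14_7417 : Tr := .node ⟨nat_lit 9, nat_lit 0x100010001000080008001200140, nat_lit 0x11101110, nat_lit 1, nat_lit 4, nat_lit 0x49⟩ (.nil) (.nil)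
def t14_761 : Tr := .node ⟨nat_lit 7, nat_lit 0x10002000500060, nat_lit 0x231, nat_lit 0, nat_lit 4, nat_lit 0x46⟩ (.nil) (.nil)
def t14_8953 : Tr := .node ⟨nat_lit 8, nat_lit 0x200040004000a000c0, nat_lit 0x11003, nat_lit 0, nat_lit 4, nat_lit 0x47⟩ (.nil) (.nil)
def t14_4857 : Tr := .node ⟨nat_lit 7, nat_lit 0x400020002000500050, nat_lit 0x1112110, nat_lit 2, nat_lit 4, nat_lit 0x48⟩ (.nil) (.nil)
def t14_13049 : Tr := .node ⟨nat_lit 7, nat_lit 0x4000440064, nat_lit 0x111200, nat_lit 0, nat_lit 4, nat_lit 0x48⟩ (.nil) (.nil)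
def t14_2809 : Tr := .node ⟨nat_lit 7, nat_lit 0x1000600060, nat_lit 0x1001210, nat_lit 0, nat_lit 4, nat_lit 0x47⟩ (.nil) (.nil)
def t14_11001 : Tr := .node ⟨nat_lit 9, nat_lit 0x8000800100010400c0, nat_lit 0x101120002, nat_lit 0, nat_lit 4, nat_lit 0x4a⟩ (.nil) (.nil)
def t14_6905 : Tr := .node ⟨nat_lit 3, nat_lit 0x40004, nat_lit 0x111, nat_lit 0x13, nat_lit 4, nat_lit 0x48⟩ (.nil) (.nil)
def t14_15097 : Tr := .node ⟨nat_lit 9, nat_lit 0x10000800120014001a00190, nat_lit 0x10111011, nat_lit 1, nat_lit 4, nat_lit 0x47⟩ (.nil) (.nil)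
def t14_1785 : Tr := .node ⟨nat_lit 5, nat_lit 0x1000100018, nat_lit 0x2202, nat_lit 8, nat_lit 4, nat_lit 0x48⟩ (.nil) (.nil)
def t14_9977 : Tr := .node ⟨nat_lit 8, nat_lit 0x800020002000c000c0, nat_lit 0x41020, nat_lit 1, nat_lit 4, nat_lit 0x48⟩ (.nil) (.nil)
def t14_5881 : Tr := .node ⟨nat_lit 7, nat_lit 0x4000200020, nat_lit 0x11021, nat_lit 5, nat_lit 4, nat_lit 0x4a⟩ (.nil) (.nil)
def t14_14073 : Tr := .node ⟨nat_lit 7, nat_lit 0x1000080060, nat_lit 0x1000002, nat_lit 4, nat_lit 4, nat_lit 0x48⟩ (.nil) (.nil)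
def t14_3833 : Tr := .node ⟨nat_lit 9, nat_lit 0x8001000100004000a00110, nat_lit 0x11012001, nat_lit 1, nat_lit 4, nat_lit 0x49⟩ (.nil) (.nil)
def t14_12025 : Tr := .node ⟨nat_lit 7, nat_lit 0x40004000480060, nat_lit 0x112110, nat_lit 4, nat_lit 4, nat_lit 0x49⟩ (.nil) (.nil)
def t14_7929 : Tr := .node ⟨nat_lit 6, nat_lit 0x20001000280030, nat_lit 0x12122, nat_lit 3, nat_lit 4, nat_lit 0x47⟩ (.nil) (.nil)
def t9_249 : Tr := .node ⟨nat_lit 6, nat_lit 0x200030, nat_lit 0x13202, nat_lit 0, nat_lit 4, nat_lit 0x49⟩ (.node ⟨nat_lit 6, nat_lit 0x200032, nat_lit 0x301112, nat_lit 0, nat_lit 4, nat_lit 0x49⟩ (.node ⟨nat_lit 8, nat_lit 0x40004000200080, nat_lit 0x10131011, nat_lit 0, nat_lit 4, nat_lit 0x4b⟩ (.node ⟨nat_lit 6, nat_lit 0x2000240018, nat_lit 0x211003, nat_lit 0, nat_lit 4, nat_lit 0x47⟩ (.node ⟨nat_lit 3, nat_lit 0x40004, nat_lit 0x221, nat_lit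 0xd, nat_lit 4, nat_lit 0x48⟩ (t14_249) (t14_8441)) (.node ⟨nat_lit 8, nat_lit 0x400080002000c000e0, nat_lit 0x101023, nat_lit 0, nat_lit 4, nat_lit 0x47⟩ (t14_4345) (t14_12537))) (.node ⟨nat_lit 6, nat_lit 0x300030, nat_lit 0x202121, nat_lit 4, nat_lit 4, nat_lit 0x49⟩ (.node ⟨nat_lit 4, nat_lit 0x8000c, nat_lit 0x1240, nat_lit 2, nat_lit 3, nat_lit 0x46⟩ (t14_2297) (t14_10489)) (.node ⟨nat_lit 7, nat_lit 0x4000100060, nat_lit 0x1121210, nat_lit 0, nat_lit 4, nat_lit 0x4a⟩ (t14_6393) (t14_14585)))) (.node ⟨nat_lit 5, nat_lit 0x140018, nat_lit 0x11211, nat_lit 5, nat_lit 4, nat_lit 0x47⟩ (.node ⟨nat_lit 7, nat_lit 0x800100060, nat_lit 0x2111111, nat_lit 0, nat_lit 3, nat_lit 0x48⟩ (.node ⟨nat_lit 4, nat_lit 8, nat_lit 0x1110, nat_lit 6, nat_lit 4, nat_lit 0x47⟩ (t14_1273) (t14_9465)) (.node ⟨nat_lit 5, nat_lit 0x1000080018, nat_lit 0x11322, nat_lit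 4, nat_lit 4, nat_lit 0x48⟩ (t14_5369) (t14_13561))) (.node ⟨nat_lit 5, nat_lit 0x100010, nat_lit 0x2240, nat_lit 0, nat_lit 3, nat_lit 0x47⟩ (.node ⟨nat_lit 7, nat_lit 0x40002000100010, nat_lit 0x210131, nat_lit 0, nat_lit 4, nat_lit 0x4a⟩ (t14_3321) (t14_11513)) (.node ⟨nat_lit 8, nat_lit 0x800020008800c0, nat_lit 0x11010002, nat_lit 1, nat_lit 4, nat_lit 0x49⟩ (t14_7417) (.nil))))) (.node ⟨nat_lit 5, nat_lit 0x100008, nat_lit 0x1303, nat_lit 4, nat_lit 4, nat_lit 0x49⟩ (.node ⟨nat_lit 6, nat_lit 0x200010, nat_lit 0x121102, nat_lit 1, nat_lit 4, nat_lit 0x4a⟩ (.node ⟨nat_lit 8, nat_lit 0x800080, nat_lit 0x2111100, nat_lit 0, nat_lit 4, nat_lit 0x4c⟩ (.node ⟨nat_lit 6, nat_lit 0x2000200030, nat_lit 0x13300, nat_lit 0, nat_lit 3, nat_lit 0x47⟩ (t14_761) (t14_8953)) (.node ⟨nat_lit 7, nat_lit 0x10001000500060, nat_lit 0x202102, nat_lit 1, nat_lit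 4, nat_lit 0x48⟩ (t14_4857) (t14_13049))) (.node ⟨nat_lit 7, nat_lit 0x800600050, nat_lit 0x1011012, nat_lit 1, nat_lit 4, nat_lit 0x48⟩ (.node ⟨nat_lit 6, nat_lit 0x280030, nat_lit 0x21113, nat_lit 1, nat_lit 4, nat_lit 0x48⟩ (t14_2809) (t14_11001)) (.node ⟨nat_lit 8, nat_lit 0x400080009000c000d000e0, nat_lit 0x10100222, nat_lit 1, nat_lit 4, nat_lit 0x46⟩ (t14_6905) (t14_15097)))) (.node ⟨nat_lit 6, nat_lit 0x1000280030, nat_lit 0x111121, nat_lit 1, nat_lit 4, nat_lit 0x47⟩ (.node ⟨nat_lit 6, nat_lit 0x10001000200030, nat_lit 0x203111, nat_lit 0, nat_lit 3, nat_lit 0x46⟩ (.node ⟨nat_lit 5, nat_lit 0x80010001c, nat_lit 0x1020, nat_lit 4, nat_lit 4, nat_lit 0x45⟩ (t14_1785) (t14_9977)) (.node ⟨nat_lit 7, nat_lit 0x4000400040, nat_lit 0x222200, nat_lit 0, nat_lit 4, nat_lit 0x4b⟩ (t14_5881) (t14_14073))) (.node ⟨nat_lit 6, nat_lit 0x80030, nat_lit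 0x100210, nat_lit 0, nat_lit 4, nat_lit 0x47⟩ (.node ⟨nat_lit 6, nat_lit 0x1000300028, nat_lit 0x101003, nat_lit 3, nat_lit 4, nat_lit 0x47⟩ (t14_3833) (t14_12025)) (.node ⟨nat_lit 8, nat_lit 0x80003000a000c0, nat_lit 0x1101131, nat_lit 0, nat_lit 4, nat_lit 0x48⟩ (t14_7929) (.nil)))))
def t14_505 : Tr := .node ⟨nat_lit 7, nat_lit 0x2000200040, nat_lit 0x2111102, nat_lit 0, nat_lit 4, nat_lit 0x4b⟩ (.nil) (.nil)
def t14_8697 : Tr := .node ⟨nat_lit 7, nat_lit 0x40002000500060, nat_lit 0x1002, nat_lit 1, nat_lit 4, nat_lit 0x46⟩ (.nil) (.nil)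
def t14_4601 : Tr := .node ⟨nat_lit 7, nat_lit 0x40001000100060, nat_lit 0x1013101, nat_lit 2, nat_lit 4, nat_lit 0x49⟩ (.nil) (.nil)
def t14_12793 : Tr := .node ⟨nat_lit 7, nat_lit 0x10004000600064, nat_lit 0x1000120, nat_lit 3, nat_lit 4, nat_lit 0x47⟩ (.nil) (.nil)
def t14_2553 : Tr := .node ⟨nat_lit 8, nat_lit 0x40004000a000d000d0, nat_lit 0x1002210, nat_lit 1, nat_lit 4, nat_lit 0x47⟩ (.nil) (.nil)
def t14_10745 : Tr := .node ⟨nat_lit 7, nat_lit 0x40001000500060, nat_lit 0x111002, nat_lit 0, nat_lit 4, nat_lit 0x47⟩ (.nil) (.nil)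
def t14_6649 : Tr := .node ⟨nat_lit 6, nat_lit 0x2000200010, nat_lit 0x11301, nat_lit 5, nat_lit 4, nat_lit 0x49⟩ (.nil) (.nil)
def t14_14841 : Tr := .node ⟨nat_lit 9, nat_lit 0x8000800100010000c001080190, nat_lit 0x1211001, nat_lit 0, nat_lit 4, nat_lit 0x47⟩ (.nil) (.nil)
def t14_1529 : Tr := .node ⟨nat_lit 7, nat_lit 0x40004000500060, nat_lit 0x112021, nat_lit 0, nat_lit 3, nat_lit 0x46⟩ (.nil) (.nil)
def t14_9721 : Tr := .node ⟨nat_lit 8, nat_lit 0x4000400080008000800088, nat_lit 0x221001, nat_lit 0, nat_lit 4, nat_lit 0x48⟩ (.nil) (.nil)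
def t14_5625 : Tr := .node ⟨nat_lit 5, nat_lit 0x1000100018, nat_lit 0x1201, nat_lit 5, nat_lit 3, nat_lit 0x45⟩ (.nil) (.nil)
def t14_13817 : Tr := .node ⟨nat_lit 7, nat_lit 0x6000600050, nat_lit 0x1200, nat_lit 0, nat_lit 4, nat_lit 0x46⟩ (.nil) (.nil)
def t14_3577 : Tr := .node ⟨nat_lit 6, nat_lit 0x2000280030, nat_lit 0x10102, nat_lit 2, nat_lit 3, nat_lit 0x45⟩ (.nil) (.nil)
def t14_11769 : Tr := .node ⟨nat_lit 6, nat_lit 0x2000100024, nat_lit 0x1140, nat_lit 0, nat_lit 4, nat_lit 0x47⟩ (.nil) (.nil)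
def t14_7673 : Tr := .node ⟨nat_lit 4, nat_lit 0x8000c, nat_lit 0, nat_lit 7, nat_lit 4, nat_lit 0x44⟩ (.nil) (.nil)
def t14_1017 : Tr := .node ⟨nat_lit 7, nat_lit 0x600060, nat_lit 0x11121, nat_lit 0, nat_lit 4, nat_lit 0x48⟩ (.nil) (.nil)
def t14_9209 : Tr := .node ⟨nat_lit 8, nat_lit 0x80008000400040009000a0, nat_lit 0x101000, nat_lit 3, nat_lit 4, nat_lit 0x47⟩ (.nil) (.nil)
def t14_5113 : Tr := .node ⟨nat_lit 6, nat_lit 0x10002000200030, nat_lit 0x12301, nat_lit 4, nat_lit 4, nat_lit 0x48⟩ (.nil) (.nil)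
def t14_13305 : Tr := .node ⟨nat_lit 6, nat_lit 0x800300030, nat_lit 0x10, nat_lit 1, nat_lit 4, nat_lit 0x44⟩ (.nil) (.nil)
def t14_3065 : Tr := .node ⟨nat_lit 7, nat_lit 0x10002000500060, nat_lit 0x10311, nat_lit 0, nat_lit 4, nat_lit 0x47⟩ (.nil) (.nil)
def t14_11257 : Tr := .node ⟨nat_lit 7, nat_lit 0x20002000500068, nat_lit 0x11001, nat_lit 1, nat_lit 4, nat_lit 0x46⟩ (.nil) (.nil)
def t14_7161 : Tr := .node ⟨nat_lit 6, nat_lit 0x10002000300038, nat_lit 0x111121, nat_lit 4, nat_lit 4, nat_lit 0x47⟩ (.nil) (.nil)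
def t14_15353 : Tr := .node ⟨nat_lit 8, nat_lit 0x8000400040004000a000d0, nat_lit 0x112010, nat_lit 0, nat_lit 4, nat_lit 0x47⟩ (.nil) (.nil)
def t14_2041 : Tr := .node ⟨nat_lit 8, nat_lit 0x8000800040004000a000c0, nat_lit 0x113100, nat_lit 1, nat_lit 4, nat_lit 0x48⟩ (.nil) (.nil)
def t14_10233 : Tr := .node ⟨nat_lit 7, nat_lit 0x400020002000500060, nat_lit 0x1022210, nat_lit 1, nat_lit 4, nat_lit 0x48⟩ (.nil) (.nil)
def t14_6137 : Tr := .node ⟨nat_lit 7, nat_lit 0x200040004000440048, nat_lit 0x1000, nat_lit 3, nat_lit 4, nat_lit 0x46⟩ (.nil) (.nil)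
def t14_14329 : Tr := .node ⟨nat_lit 7, nat_lit 0x2000500064, nat_lit 0x210030, nat_lit 0, nat_lit 4, nat_lit 0x48⟩ (.nil) (.nil)
def t14_4089 : Tr := .node ⟨nat_lit 6, nat_lit 0x800300038, nat_lit 0x111312, nat_lit 0, nat_lit 4, nat_lit 0x47⟩ (.nil) (.nil)
def t14_12281 : Tr := .node ⟨nat_lit 8, nat_lit 0x6000c000a000a0, nat_lit 0x11130, nat_lit 1, nat_lit 4, nat_lit 0x47⟩ (.nil) (.nil)
def t14_8185 : Tr := .node ⟨nat_lit 7, nat_lit 0x40004800480060, nat_lit 0x11410, nat_lit 2, nat_lit 4, nat_lit 0x48⟩ (.nil) (.nil)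
def t9_505 : Tr := .node ⟨nat_lit 6, nat_lit 0x200010, nat_lit 0x13102, nat_lit 3, nat_lit 4, nat_lit 0x4a⟩ (.node ⟨nat_lit 7, nat_lit 0x40004800480048, nat_lit 0x3110220, nat_lit 1, nat_lit 4, nat_lit 0x4a⟩ (.node ⟨nat_lit 5, nat_lit 0, nat_lit 0x22211, nat_lit 3, nat_lit 4, nat_lit 0x4b⟩ (.node ⟨nat_lit 4, nat_lit 0x80008, nat_lit 0x211, nat_lit 9, nat_lit 4, nat_lit 0x47⟩ (.node ⟨nat_lit 6, nat_lit 0x10002000200024, nat_lit 0x211111, nat_lit 5, nat_lit 4, nat_lit 0x49⟩ (t14_505) (t14_8697)) (.node ⟨nat_lit 6, nat_lit 0x800300030, nat_lit 0x112211, nat_lit 1, nat_lit 4, nat_lit 0x48⟩ (t14_4601) (t14_12793))) (.node ⟨nat_lit 2, nat_lit 0, nat_lit 0x11, nat_lit 6, nat_lit 4, nat_lit 0x43⟩ (.node ⟨nat_lit 8, nat_lit 0x8000400040, nat_lit 0x1111031, nat_lit 0, nat_lit 4, nat_lit 0x4c⟩ (t14_2553) (t14_10745)) (.node ⟨nat_lit 6, nat_lit 0x2000100030,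 nat_lit 0x11312, nat_lit 2, nat_lit 4, nat_lit 0x48⟩ (t14_6649) (t14_14841)))) (.node ⟨nat_lit 7, nat_lit 0x500060, nat_lit 0x121111, nat_lit 0, nat_lit 4, nat_lit 0x49⟩ (.node ⟨nat_lit 6, nat_lit 0x2000200010, nat_lit 0x121201, nat_lit 5, nat_lit 4, nat_lit 0x4a⟩ (.node ⟨nat_lit 6, nat_lit 0x1000200038, nat_lit 0x11302, nat_lit 0, nat_lit 4, nat_lit 0x47⟩ (t14_1529) (t14_9721)) (.node ⟨nat_lit 6, nat_lit 0x800300030, nat_lit 0x112110, nat_lit 0, nat_lit 3, nat_lit 0x46⟩ (t14_5625) (t14_13817))) (.node ⟨nat_lit 8, nat_lit 0x80008000400040, nat_lit 0x211000, nat_lit 2, nat_lit 4, nat_lit 0x4a⟩ (.node ⟨nat_lit 6, nat_lit 0x800200032, nat_lit 0x110000, nat_lit 0, nat_lit 4, nat_lit 0x45⟩ (t14_3577) (t14_11769)) (.node ⟨nat_lit 7, nat_lit 0x40001000480060, nat_lit 0x1112101, nat_lit 3, nat_lit 4, nat_lit 0x49⟩ (t14_7673) (.nil))))) (.node ⟨nat_lit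 5, nat_lit 0x10001c001c, nat_lit 0x30120, nat_lit 3, nat_lit 4, nat_lit 0x46⟩ (.node ⟨nat_lit 2, nat_lit 0, nat_lit 0x22, nat_lit 9, nat_lit 4, nat_lit 0x46⟩ (.node ⟨nat_lit 5, nat_lit 0x100010, nat_lit 0x22211, nat_lit 3, nat_lit 4, nat_lit 0x4a⟩ (.node ⟨nat_lit 4, nat_lit 0xc000c, nat_lit 0x1141, nat_lit 7, nat_lit 4, nat_lit 0x47⟩ (t14_1017) (t14_9209)) (.node ⟨nat_lit 6, nat_lit 0x200030, nat_lit 0x102221, nat_lit 4, nat_lit 4, nat_lit 0x4a⟩ (t14_5113) (t14_13305))) (.node ⟨nat_lit 7, nat_lit 0x4000600064, nat_lit 0x1011201, nat_lit 0, nat_lit 4, nat_lit 0x48⟩ (.node ⟨nat_lit 4, nat_lit 0x80008, nat_lit 0x2122, nat_lit 5, nat_lit 3, nat_lit 0x47⟩ (t14_3065) (t14_11257)) (.node ⟨nat_lit 7, nat_lit 0x40001000100060, nat_lit 0x1202002, nat_lit 1, nat_lit 3, nat_lit 0x47⟩ (t14_7161) (t14_15353)))) (.node ⟨nat_lit 6, nat_lit 0x300030, nat_lit 0x102221,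 nat_lit 0, nat_lit 4, nat_lit 0x48⟩ (.node ⟨nat_lit 7, nat_lit 0x4000440060, nat_lit 0x2111101, nat_lit 1, nat_lit 4, nat_lit 0x4a⟩ (.node ⟨nat_lit 4, nat_lit 0x80008, nat_lit 0x1232, nat_lit 7, nat_lit 4, nat_lit 0x49⟩ (t14_2041) (t14_10233)) (.node ⟨nat_lit 5, nat_lit 0x180018, nat_lit 0x20220, nat_lit 3, nat_lit 4, nat_lit 0x47⟩ (t14_6137) (t14_14329))) (.node ⟨nat_lit 5, nat_lit 0x40018, nat_lit 0x22003, nat_lit 1, nat_lit 4, nat_lit 0x48⟩ (.node ⟨nat_lit 7, nat_lit 0x4000600050, nat_lit 0x2000, nat_lit 1, nat_lit 4, nat_lit 0x47⟩ (t14_4089) (t14_12281)) (.node ⟨nat_lit 7, nat_lit 0x10001000600060, nat_lit 0x1002121, nat_lit 0, nat_lit 4, nat_lit 0x47⟩ (t14_8185) (.nil)))))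
def t4_9 : Tr := .node ⟨nat_lit 2, nat_lit 0, nat_lit 0x31, nat_lit 8, nat_lit 3, nat_lit 0x45⟩ (.node ⟨nat_lit 4, nat_lit 0xc, nat_lit 0x1121, nat_lit 1, nat_lit 3, nat_lit 0x45⟩ (.node ⟨nat_lit 4, nat_lit 0, nat_lit 0x1111, nat_lit 1, nat_lit 3, nat_lit 0x46⟩ (.node ⟨nat_lit 2, nat_lit 0, nat_lit 0x43, nat_lit 5, nat_lit 3, nat_lit 0x47⟩ (.node ⟨nat_lit 6, nat_lit 0x200020, nat_lit 0x42111, nat_lit 0, nat_lit 4, nat_lit 0x4b⟩ (t9_9) (t9_265)) (.node ⟨nat_lit 6, nat_lit 0x100020, nat_lit 0x312112, nat_lit 0, nat_lit 4, nat_lit 0x4b⟩ (t9_137) (t9_393))) (.node ⟨nat_lit 3, nat_lit 4, nat_lit 0x141, nat_lit 9, nat_lit 4, nat_lit 0x48⟩ (.node ⟨nat_lit 4, nat_lit 0x40008, nat_lit 0x1231, nat_lit 1, nat_lit 3, nat_lit 0x46⟩ (t9_73) (t9_329)) (.node ⟨nat_lit 5, nat_lit 0x10, nat_lit 0x32111, nat_lit 1, nat_lit 3, nat_lit 0x49⟩ (t9_201) (t9_457)))) (.node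 ⟨nat_lit 2, nat_lit 0, nat_lit 0x41, nat_lit 0x11, nat_lit 4, nat_lit 0x49⟩ (.node ⟨nat_lit 4, nat_lit 0, nat_lit 0x4321, nat_lit 0, nat_lit 4, nat_lit 0x4b⟩ (.node ⟨nat_lit 5, nat_lit 0x80010, nat_lit 0x13231, nat_lit 0, nat_lit 4, nat_lit 0x4a⟩ (t9_41) (t9_297)) (.node ⟨nat_lit 5, nat_lit 0x100012, nat_lit 0x31121, nat_lit 5, nat_lit 4, nat_lit 0x4a⟩ (t9_169) (t9_425))) (.node ⟨nat_lit 6, nat_lit 0x200030, nat_lit 0x114111, nat_lit 1, nat_lit 4, nat_lit 0x4a⟩ (.node ⟨nat_lit 4, nat_lit 8, nat_lit 0x3212, nat_lit 7, nat_lit 4, nat_lit 0x4a⟩ (t9_105) (t9_361)) (.node ⟨nat_lit 5, nat_lit 0x18, nat_lit 0x31221, nat_lit 3, nat_lit 4, nat_lit 0x4a⟩ (t9_233) (t9_489))))) (.node ⟨nat_lit 6, nat_lit 0x200010, nat_lit 0x2100, nat_lit 1, nat_lit 3, nat_lit 0x47⟩ (.node ⟨nat_lit 5, nat_lit 0x100010, nat_lit 0x1110, nat_lit 0, nat_lit 3, nat_lit 0x45⟩ (.node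 ⟨nat_lit 3, nat_lit 0, nat_lit 0x422, nat_lit 5, nat_lit 4, nat_lit 0x49⟩ (.node ⟨nat_lit 4, nat_lit 8, nat_lit 0x3213, nat_lit 5, nat_lit 4, nat_lit 0x4a⟩ (t9_25) (t9_281)) (.node ⟨nat_lit 5, nat_lit 0x10, nat_lit 0x31112, nat_lit 1, nat_lit 3, nat_lit 0x49⟩ (t9_153) (t9_409))) (.node ⟨nat_lit 3, nat_lit 0, nat_lit 0x411, nat_lit 3, nat_lit 4, nat_lit 0x47⟩ (.node ⟨nat_lit 5, nat_lit 0x40018, nat_lit 0x21112, nat_lit 1, nat_lit 3, nat_lit 0x46⟩ (t9_89) (t9_345)) (.node ⟨nat_lit 6, nat_lit 0x2000200010, nat_lit 0x31101, nat_lit 3, nat_lit 3, nat_lit 0x48⟩ (t9_217) (t9_473)))) (.node ⟨nat_lit 3, nat_lit 0, nat_lit 0x331, nat_lit 2, nat_lit 3, nat_lit 0x47⟩ (.node ⟨nat_lit 4, nat_lit 0, nat_lit 0x4221, nat_lit 3, nat_lit 4, nat_lit 0x4b⟩ (.node ⟨nat_lit 5, nat_lit 0x1000100008, nat_lit 0x12111, nat_lit 1, nat_lit 3, nat_lit 0x46⟩ (t9_57) (t9_313))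 (.node ⟨nat_lit 3, nat_lit 4, nat_lit 0x311, nat_lit 0xb, nat_lit 3, nat_lit 0x47⟩ (t9_185) (t9_441))) (.node ⟨nat_lit 5, nat_lit 0x18, nat_lit 0x21410, nat_lit 1, nat_lit 4, nat_lit 0x4a⟩ (.node ⟨nat_lit 5, nat_lit 0x80010, nat_lit 0x32122, nat_lit 1, nat_lit 4, nat_lit 0x4a⟩ (t9_121) (t9_377)) (.node ⟨nat_lit 5, nat_lit 0x800100010, nat_lit 0x13120, nat_lit 1, nat_lit 3, nat_lit 0x47⟩ (t9_249) (t9_505)))))

end Pool.Agent.Sel.T31
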