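import Pool.Agent.H8.Sel.Prof
import Pool.Agent.H8.Sel.T31.P9

set_option linter.all false
set_option maxRecDepth 100000

namespace Pool.Agent.Sel.T31

open Pool.Agent.Sel

def t14_11 : Tr := .node ⟨nat_lit 7, nat_lit 0x40004000200020, nat_lit 0x111021, nat_lit 6, nat_lit 4, nat_lit 0x4a⟩ (.nil) (.nil)
def t14_8203 : Tr := .node ⟨nat_lit 7, nat_lit 0x40002000500064, nat_lit 0x1113, nat_lit 0, nat_lit 4, nat_lit 0x45⟩ (.nil) (.nil)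
def t14_4107 : Tr := .node ⟨nat_lit 8, nat_lit 0x8000800040009000a000c0, nat_lit 0x1112011, nat_lit 2, nat_lit 4, nat_lit 0x48⟩ (.nil) (.nil)
def t14_12299 : Tr := .node ⟨nat_lit 7, nat_lit 0x10006000500070, nat_lit 0x1002103, nat_lit 1, nat_lit 4, nat_lit 0x46⟩ (.nil) (.nil)
def t14_2059 : Tr := .node ⟨nat_lit 6, nat_lit 0x2000100010, nat_lit 0x2032, nat_lit 2, nat_lit 4, nat_lit 0x49⟩ (.nil) (.nil)
def t14_10251 : Tr := .node ⟨nat_lit 9, nat_lit 0x10001000080012001a001c001c0, nat_lit 0x100010220, nat_lit 1, nat_lit 4, nat_lit 0x46⟩ (.nil) (.nil)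
def t14_6155 : Tr := .node ⟨nat_lit 7, nat_lit 0x40002000100010, nat_lit 0x10, nat_lit 3, nat_lit 4, nat_lit 0x47⟩ (.nil) (.nil)
def t14_14347 : Tr := .node ⟨nat_lit 7, nat_lit 0x40001000100060, nat_lit 0x1100, nat_lit 3, nat_lit 4, nat_lit 0x47⟩ (.nil) (.nil)
def t14_1035 : Tr := .node ⟨nat_lit 5, nat_lit 0x1000080014, nat_lit 0x120, nat_lit 2, nat_lit 4, nat_lit 0x44⟩ (.nil) (.nil)
def t14_9227 : Tr := .node ⟨nat_lit 7, nat_lit 0x400020002000500070, nat_lit 0x1003201, nat_lit 0, nat_lit 4, nat_lit 0x47⟩ (.nil) (.nil)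
def t14_5131 : Tr := .node ⟨nat_lit 9, nat_lit 0x100010001000140019001a001c0, nat_lit 0x100013, nat_lit 1, nat_lit 4, nat_lit 0x46⟩ (.nil) (.nil)
def t14_13323 : Tr := .node ⟨nat_lit 6, nat_lit 0x2000080030, nat_lit 0x210000, nat_lit 3, nat_lit 3, nat_lit 0x47⟩ (.nil) (.nil)
def t14_3083 : Tr := .node ⟨nat_lit 6, nat_lit 0xc0030, nat_lit 0x2011, nat_lit 0, nat_lit 4, nat_lit 0x46⟩ (.nil) (.nil)
def t14_11275 : Tr := .node ⟨nat_lit 7, nat_lit 0x20005000680070, nat_lit 0x12012, nat_lit 0, nat_lit 4, nat_lit 0x45⟩ (.nil) (.nil)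
def t14_7179 : Tr := .node ⟨nat_lit 7, nat_lit 0x4000400060, nat_lit 0x1031111, nat_lit 0, nat_lit 4, nat_lit 0x4a⟩ (.nil) (.nil)
def t14_15371 : Tr := .node ⟨nat_lit 9, nat_lit 0x10001000100004000800120, nat_lit 0x10110011, nat_lit 4, nat_lit 4, nat_lit 0x4a⟩ (.nil) (.nil)
def t14_523 : Tr := .node ⟨nat_lit 6, nat_lit 0x20002000200010, nat_lit 0x12101, nat_lit 9, nat_lit 4, nat_lit 0x49⟩ (.nil) (.nil)
def t14_8715 : Tr := .node ⟨nat_lit 8, nat_lit 0x200040003000a000c0, nat_lit 0x10101, nat_lit 1, nat_lit 4, nat_lit 0x46⟩ (.nil) (.nil)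
def t14_4619 : Tr := .node ⟨nat_lit 6, nat_lit 0x800280030, nat_lit 0x21211, nat_lit 4, nat_lit 4, nat_lit 0x48⟩ (.nil) (.nil)
def t14_12811 : Tr := .node ⟨nat_lit 6, nat_lit 0x20002000100030, nat_lit 0x2220, nat_lit 2, nat_lit 4, nat_lit 0x47⟩ (.nil) (.nil)
def t14_2571 : Tr := .node ⟨nat_lit 8, nat_lit 0x80008000400040009000e0, nat_lit 0x10023100, nat_lit 0, nat_lit 4, nat_lit 0x48⟩ (.nil) (.nil)
def t14_10763 : Tr := .node ⟨nat_lit 6, nat_lit 0x20, nat_lit 0x10000, nat_lit 0, nat_lit 4, nat_lit 0x47⟩ (.nil) (.nil)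
def t14_6667 : Tr := .node ⟨nat_lit 7, nat_lit 0x4000100060, nat_lit 0x111022, nat_lit 1, nat_lit 4, nat_lit 0x49⟩ (.nil) (.nil)
def t14_14859 : Tr := .node ⟨nat_lit 8, nat_lit 0x80009000a0006000d0, nat_lit 0x1011111, nat_lit 1, nat_lit 4, nat_lit 0x46⟩ (.nil) (.nil)
def t14_1547 : Tr := .node ⟨nat_lit 6, nat_lit 0x20001000100028, nat_lit 0x102222, nat_lit 0, nat_lit 4, nat_lit 0x47⟩ (.nil) (.nil)
def t14_9739 : Tr := .node ⟨nat_lit 8, nat_lit 0xc000c000c0, nat_lit 0x111220, nat_lit 0, nat_lit 4, nat_lit 0x49⟩ (.nil) (.nil)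
def t14_5643 : Tr := .node ⟨nat_lit 6, nat_lit 0x800300030, nat_lit 0x1120, nat_lit 2, nat_lit 4, nat_lit 0x46⟩ (.nil) (.nil)
def t14_13835 : Tr := .node ⟨nat_lit 8, nat_lit 0x2000800080008800c8, nat_lit 0x1002, nat_lit 2, nat_lit 4, nat_lit 0x47⟩ (.nil) (.nil)
def t14_3595 : Tr := .node ⟨nat_lit 8, nat_lit 0x8000a000c000c8, nat_lit 0x2011, nat_lit 0, nat_lit 4, nat_lit 0x47⟩ (.nil) (.nil)
def t14_11787 : Tr := .node ⟨nat_lit 7, nat_lit 0x4000200044, nat_lit 0x10000, nat_lit 1, nat_lit 4, nat_lit 0x47⟩ (.nil) (.nil)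
def t14_7691 : Tr := .node ⟨nat_lit 7, nat_lit 0x4000600018, nat_lit 0x102, nat_lit 1, nat_lit 4, nat_lit 0x46⟩ (.nil) (.nil)
def t9_11 : Tr := .node ⟨nat_lit 3, nat_lit 6, nat_lit 0x211, nat_lit 3, nat_lit 3, nat_lit 0x44⟩ (.node ⟨nat_lit 5, nat_lit 0x10, nat_lit 0x13112, nat_lit 4, nat_lit 4, nat_lit 0x4a⟩ (.node ⟨nat_lit 7, nat_lit 0x20004000680068, nat_lit 0x310120, nat_lit 2, nat_lit 4, nat_lit 0x48⟩ (.node ⟨nat_lit 5, nat_lit 0x100018, nat_lit 0x1202, nat_lit 2, nat_lit 4, nat_lit 0x46⟩ (.node ⟨nat_lit 6, nat_lit 0x2000100008, nat_lit 0x22033, nat_lit 0, nat_lit 4, nat_lit 0x4a⟩ (t14_11) (t14_8203)) (.node ⟨nat_lit 6, nat_lit 0x800080030, nat_lit 0x111000, nat_lit 1, nat_lit 4, nat_lit 0x47⟩ (t14_4107) (t14_12299))) (.node ⟨nat_lit 5, nat_lit 0x1c, nat_lit 0x31022, nat_lit 4, nat_lit 4, nat_lit 0x49⟩ (.node ⟨nat_lit 6, nat_lit 0x20001000100028,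 nat_lit 0x11311, nat_lit 0, nat_lit 4, nat_lit 0x47⟩ (t14_2059) (t14_10251)) (.node ⟨nat_lit 9, nat_lit 0x1000100004001100180, nat_lit 0x1211010, nat_lit 0, nat_lit 4, nat_lit 0x4a⟩ (t14_6155) (t14_14347)))) (.node ⟨nat_lit 5, nat_lit 0x100010, nat_lit 0x2220, nat_lit 6, nat_lit 4, nat_lit 0x49⟩ (.node ⟨nat_lit 5, nat_lit 0x140018, nat_lit 0x21221, nat_lit 3, nat_lit 4, nat_lit 0x48⟩ (.node ⟨nat_lit 5, nat_lit 0x180018, nat_lit 0x11231, nat_lit 5, nat_lit 4, nat_lit 0x48⟩ (t14_1035) (t14_9227)) (.node ⟨nat_lit 5, nat_lit 0x1000100014, nat_lit 0x12110, nat_lit 0xb, nat_lit 4, nat_lit 0x49⟩ (t14_5131) (t14_13323))) (.node ⟨nat_lit 5, nat_lit 0x1000100014, nat_lit 0x11201, nat_lit 6, nat_lit 4, nat_lit 0x48⟩ (.node ⟨nat_lit 5, nat_lit 0x100018, nat_lit 0x12104, nat_lit 4, nat_lit 4, nat_lit 0x49⟩ (t14_3083) (t14_11275)) (.node ⟨nat_lit 5, nat_lit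 0x1000080018, nat_lit 0x1223, nat_lit 5, nat_lit 4, nat_lit 0x47⟩ (t14_7179) (t14_15371))))) (.node ⟨nat_lit 6, nat_lit 0x1000200020, nat_lit 0x131210, nat_lit 1, nat_lit 4, nat_lit 0x4a⟩ (.node ⟨nat_lit 6, nat_lit 0x30, nat_lit 0x212111, nat_lit 1, nat_lit 4, nat_lit 0x4a⟩ (.node ⟨nat_lit 6, nat_lit 0x200030, nat_lit 0x21110, nat_lit 1, nat_lit 4, nat_lit 0x48⟩ (.node ⟨nat_lit 6, nat_lit 0x1000280030, nat_lit 0x201031, nat_lit 0, nat_lit 4, nat_lit 0x47⟩ (t14_523) (t14_8715)) (.node ⟨nat_lit 7, nat_lit 0x4000600050, nat_lit 0x1011202, nat_lit 1, nat_lit 4, nat_lit 0x49⟩ (t14_4619) (t14_12811))) (.node ⟨nat_lit 5, nat_lit 0x180014, nat_lit 0x10012, nat_lit 6, nat_lit 4, nat_lit 0x46⟩ (.node ⟨nat_lit 7, nat_lit 0x4000200020, nat_lit 0x111031, nat_lit 4, nat_lit 4, nat_lit 0x4b⟩ (t14_2571) (t14_10763)) (.node ⟨nat_lit 6, nat_lit 0x20, nat_lit 0x221111,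 nat_lit 2, nat_lit 3, nat_lit 0x4a⟩ (t14_6667) (t14_14859)))) (.node ⟨nat_lit 5, nat_lit 0x10, nat_lit 0x12113, nat_lit 0, nat_lit 4, nat_lit 0x49⟩ (.node ⟨nat_lit 6, nat_lit 0x80030, nat_lit 0x201111, nat_lit 7, nat_lit 4, nat_lit 0x4a⟩ (.node ⟨nat_lit 4, nat_lit 0x8000c, nat_lit 0x1032, nat_lit 5, nat_lit 4, nat_lit 0x46⟩ (t14_1547) (t14_9739)) (.node ⟨nat_lit 8, nat_lit 0x80008000400040009000a0, nat_lit 0x11112200, nat_lit 0, nat_lit 4, nat_lit 0x49⟩ (t14_5643) (t14_13835))) (.node ⟨nat_lit 5, nat_lit 0x40018, nat_lit 0x20114, nat_lit 1, nat_lit 4, nat_lit 0x47⟩ (.node ⟨nat_lit 6, nat_lit 0x2000100034, nat_lit 0x11113, nat_lit 1, nat_lit 4, nat_lit 0x46⟩ (t14_3595) (t14_11787)) (.node ⟨nat_lit 7, nat_lit 0x4000440060, nat_lit 0x1111301, nat_lit 1, nat_lit 4, nat_lit 0x4a⟩ (t14_7691) (.nil)))))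
def t14_267 : Tr := .node ⟨nat_lit 7, nat_lit 0x50005000300060, nat_lit 0x202211, nat_lit 0, nat_lit 4, nat_lit 0x46⟩ (.nil) (.nil)
def t14_8459 : Tr := .node ⟨nat_lit 7, nat_lit 0x40002000500068, nat_lit 0x12010, nat_lit 0, nat_lit 4, nat_lit 0x46⟩ (.nil) (.nil)
def t14_4363 : Tr := .node ⟨nat_lit 8, nat_lit 0x80008000400090009000e0, nat_lit 0x10111210, nat_lit 1, nat_lit 4, nat_lit 0x48⟩ (.nil) (.nil)
def t14_12555 : Tr := .node ⟨nat_lit 7, nat_lit 0x20001000600050, nat_lit 0x101030, nat_lit 1, nat_lit 4, nat_lit 0x47⟩ (.nil) (.nil)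
def t14_2315 : Tr := .node ⟨nat_lit 8, nat_lit 0x800080002000400090, nat_lit 0x1121011, nat_lit 0, nat_lit 4, nat_lit 0x49⟩ (.nil) (.nil)
def t14_10507 : Tr := .node ⟨nat_lit 5, nat_lit 0x1000100018, nat_lit 0x210, nat_lit 6, nat_lit 3, nat_lit 0x45⟩ (.nil) (.nil)
def t14_6411 : Tr := .node ⟨nat_lit 7, nat_lit 0x4000200010, nat_lit 0x1011101, nat_lit 2, nat_lit 3, nat_lit 0x48⟩ (.nil) (.nil)
def t14_14603 : Tr := .node ⟨nat_lit 4, nat_lit 0, nat_lit 0x2111, nat_lit 8, nat_lit 3, nat_lit 0x48⟩ (.nil) (.nil)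
def t14_1291 : Tr := .node ⟨nat_lit 7, nat_lit 0x10001000500060, nat_lit 0x102022, nat_lit 0, nat_lit 4, nat_lit 0x47⟩ (.nil) (.nil)
def t14_9483 : Tr := .node ⟨nat_lit 9, nat_lit 0x100010000800090014001400180, nat_lit 0x11100102, nat_lit 0, nat_lit 4, nat_lit 0x48⟩ (.nil) (.nil)
def t14_5387 : Tr := .node ⟨nat_lit 7, nat_lit 0x400020005000500028, nat_lit 0x2101, nat_lit 1, nat_lit 4, nat_lit 0x45⟩ (.nil) (.nil)
def t14_13579 : Tr := .node ⟨nat_lit 7, nat_lit 0x40004000200068, nat_lit 0x1010, nat_lit 0, nat_lit 4, nat_lit 0x46⟩ (.nil) (.nil)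
def t14_3339 : Tr := .node ⟨nat_lit 7, nat_lit 0x40004000200060, nat_lit 0x21001, nat_lit 3, nat_lit 4, nat_lit 0x48⟩ (.nil) (.nil)
def t14_11531 : Tr := .node ⟨nat_lit 7, nat_lit 0x4000600060, nat_lit 0x111210, nat_lit 3, nat_lit 4, nat_lit 0x49⟩ (.nil) (.nil)
def t14_7435 : Tr := .node ⟨nat_lit 7, nat_lit 0x400040002000200050, nat_lit 0x1112111, nat_lit 3, nat_lit 4, nat_lit 0x49⟩ (.nil) (.nil)
def t14_779 : Tr := .node ⟨nat_lit 5, nat_lit 0x80010, nat_lit 0x1103, nat_lit 2, nat_lit 4, nat_lit 0x47⟩ (.nil) (.nil)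
def t14_8971 : Tr := .node ⟨nat_lit 8, nat_lit 0x800080004000900088, nat_lit 0x1121110, nat_lit 0, nat_lit 4, nat_lit 0x49⟩ (.nil) (.nil)
def t14_4875 : Tr := .node ⟨nat_lit 8, nat_lit 0x800080004000a0009000e0, nat_lit 0x1101002, nat_lit 2, nat_lit 4, nat_lit 0x47⟩ (.nil) (.nil)
def t14_13067 : Tr := .node ⟨nat_lit 4, nat_lit 0x8000c, nat_lit 1, nat_lit 6, nat_lit 4, nat_lit 0x44⟩ (.nil) (.nil)
def t14_2827 : Tr := .node ⟨nat_lit 7, nat_lit 0x40001000600060, nat_lit 0x12121, nat_lit 0, nat_lit 4, nat_lit 0x47⟩ (.nil) (.nil)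
def t14_11019 : Tr := .node ⟨nat_lit 8, nat_lit 0xc000c000c0, nat_lit 0x111210, nat_lit 1, nat_lit 4, nat_lit 0x49⟩ (.nil) (.nil)
def t14_6923 : Tr := .node ⟨nat_lit 6, nat_lit 0x200030, nat_lit 0x131111, nat_lit 1, nat_lit 4, nat_lit 0x4a⟩ (.nil) (.nil)
def t14_15115 : Tr := .node ⟨nat_lit 7, nat_lit 0x200020004000440030, nat_lit 0x11111, nat_lit 2, nat_lit 4, nat_lit 0x46⟩ (.nil) (.nil)
def t14_1803 : Tr := .node ⟨nat_lit 5, nat_lit 0x180014, nat_lit 0x10202, nat_lit 7, nat_lit 4, nat_lit 0x48⟩ (.nil) (.nil)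
def t14_9995 : Tr := .node ⟨nat_lit 8, nat_lit 0x4000800090009000c000c0, nat_lit 0x301020, nat_lit 2, nat_lit 4, nat_lit 0x47⟩ (.nil) (.nil)
def t14_5899 : Tr := .node ⟨nat_lit 9, nat_lit 0x1000080008000800110, nat_lit 0x101102110, nat_lit 1, nat_lit 4, nat_lit 0x4b⟩ (.nil) (.nil)
def t14_14091 : Tr := .node ⟨nat_lit 6, nat_lit 0x10002000200034, nat_lit 0x10121, nat_lit 5, nat_lit 4, nat_lit 0x47⟩ (.nil) (.nil)
def t14_3851 : Tr := .node ⟨nat_lit 7, nat_lit 0x40004000480068, nat_lit 0x121021, nat_lit 2, nat_lit 4, nat_lit 0x48⟩ (.nil) (.nil)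
def t14_12043 : Tr := .node ⟨nat_lit 7, nat_lit 0x4800500060, nat_lit 0x111012, nat_lit 3, nat_lit 4, nat_lit 0x48⟩ (.nil) (.nil)
def t14_7947 : Tr := .node ⟨nat_lit 7, nat_lit 0x200040004800300060, nat_lit 0x1011131, nat_lit 0, nat_lit 4, nat_lit 0x46⟩ (.nil) (.nil)
def t9_267 : Tr := .node ⟨nat_lit 6, nat_lit 0x2000080030, nat_lit 0x31012, nat_lit 0, nat_lit 4, nat_lit 0x48⟩ (.node ⟨nat_lit 7, nat_lit 0x40001000580068, nat_lit 0x3101022, nat_lit 0, nat_lit 4, nat_lit 0x48⟩ (.node ⟨nat_lit 7, nat_lit 0x40002000100060, nat_lit 0x1031012, nat_lit 0, nat_lit 4, nat_lit 0x49⟩ (.node ⟨nat_lit 6, nat_lit 0x10001000100020, nat_lit 0x102103, nat_lit 0, nat_lit 3, nat_lit 0x46⟩ (.node ⟨nat_lit 6, nat_lit 0x200020, nat_lit 0x211122, nat_lit 0, nat_lit 4, nat_lit 0x4b⟩ (t14_267) (t14_8459)) (.node ⟨nat_lit 7, nat_lit 0x10001000500060, nat_lit 0x1102030,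 nat_lit 0, nat_lit 3, nat_lit 0x46⟩ (t14_4363) (t14_12555))) (.node ⟨nat_lit 5, nat_lit 0x100018, nat_lit 0x20122, nat_lit 8, nat_lit 4, nat_lit 0x49⟩ (.node ⟨nat_lit 5, nat_lit 0x1000080008, nat_lit 0x20033, nat_lit 1, nat_lit 3, nat_lit 0x46⟩ (t14_2315) (t14_10507)) (.node ⟨nat_lit 6, nat_lit 0x20001000280030, nat_lit 0x112310, nat_lit 2, nat_lit 4, nat_lit 0x48⟩ (t14_6411) (t14_14603)))) (.node ⟨nat_lit 6, nat_lit 0x1000280034, nat_lit 0x112211, nat_lit 0, nat_lit 4, nat_lit 0x47⟩ (.node ⟨nat_lit 6, nat_lit 0x800100020, nat_lit 0x222121, nat_lit 0, nat_lit 4, nat_lit 0x4a⟩ (.node ⟨nat_lit 5, nat_lit 0x40018, nat_lit 0x11110, nat_lit 1, nat_lit 4, nat_lit 0x46⟩ (t14_1291) (t14_9483)) (.node ⟨nat_lit 6, nat_lit 0x800280030, nat_lit 0x111122, nat_lit 3, nat_lit 4, nat_lit 0x48⟩ (t14_5387) (t14_13579))) (.node ⟨nat_lit 6, nat_lit 0x800200030, nat_lit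 0x100320, nat_lit 1, nat_lit 4, nat_lit 0x47⟩ (.node ⟨nat_lit 7, nat_lit 0x40004000200020, nat_lit 0x120031, nat_lit 2, nat_lit 4, nat_lit 0x4a⟩ (t14_3339) (t14_11531)) (.node ⟨nat_lit 5, nat_lit 0x1000100018, nat_lit 0x11112, nat_lit 9, nat_lit 4, nat_lit 0x48⟩ (t14_7435) (.nil))))) (.node ⟨nat_lit 5, nat_lit 0x1000100010, nat_lit 0x3210, nat_lit 3, nat_lit 4, nat_lit 0x48⟩ (.node ⟨nat_lit 5, nat_lit 0x100008, nat_lit 0x2122, nat_lit 3, nat_lit 4, nat_lit 0x48⟩ (.node ⟨nat_lit 5, nat_lit 0x1000100008, nat_lit 0x1102, nat_lit 3, nat_lit 4, nat_lit 0x46⟩ (.node ⟨nat_lit 6, nat_lit 0x20, nat_lit 0x211110, nat_lit 3, nat_lit 4, nat_lit 0x4b⟩ (t14_779) (t14_8971)) (.node ⟨nat_lit 7, nat_lit 0x400040002000200050, nat_lit 0x112201, nat_lit 2, nat_lit 4, nat_lit 0x48⟩ (t14_4875) (t14_13067))) (.node ⟨nat_lit 6, nat_lit 0x2000080030, nat_lit 0x111203,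 nat_lit 0, nat_lit 4, nat_lit 0x48⟩ (.node ⟨nat_lit 8, nat_lit 0x200080008000c0, nat_lit 0x2010103, nat_lit 1, nat_lit 4, nat_lit 0x4a⟩ (t14_2827) (t14_11019)) (.node ⟨nat_lit 6, nat_lit 0x80030, nat_lit 0x110032, nat_lit 0, nat_lit 4, nat_lit 0x48⟩ (t14_6923) (t14_15115)))) (.node ⟨nat_lit 6, nat_lit 0x2000100010, nat_lit 0x11022, nat_lit 1, nat_lit 3, nat_lit 0x47⟩ (.node ⟨nat_lit 8, nat_lit 0x400040008000c8, nat_lit 0x1112101, nat_lit 1, nat_lit 4, nat_lit 0x4a⟩ (.node ⟨nat_lit 5, nat_lit 0x1000140018, nat_lit 0x1113, nat_lit 6, nat_lit 4, nat_lit 0x46⟩ (t14_1803) (t14_9995)) (.node ⟨nat_lit 6, nat_lit 0x1000100020, nat_lit 0x113110, nat_lit 0, nat_lit 4, nat_lit 0x49⟩ (t14_5899) (t14_14091))) (.node ⟨nat_lit 7, nat_lit 0x3000500060, nat_lit 0x22022, nat_lit 1, nat_lit 4, nat_lit 0x48⟩ (.node ⟨nat_lit 6, nat_lit 0x1800300028, nat_lit 0x111103,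 nat_lit 2, nat_lit 4, nat_lit 0x47⟩ (t14_3851) (t14_12043)) (.node ⟨nat_lit 7, nat_lit 0x4000400060, nat_lit 0x1011221, nat_lit 0, nat_lit 4, nat_lit 0x4a⟩ (t14_7947) (.nil)))))
def t14_139 : Tr := .node ⟨nat_lit 7, nat_lit 0x4000600064, nat_lit 0x131211, nat_lit 0, nat_lit 4, nat_lit 0x49⟩ (.nil) (.nil)
def t14_8331 : Tr := .node ⟨nat_lit 2, nat_lit 0, nat_lit 0, nat_lit 4, nat_lit 4, nat_lit 0x40⟩ (.nil) (.nil)
def t14_4235 : Tr := .node ⟨nat_lit 6, nat_lit 0x300030, nat_lit 0x3210, nat_lit 2, nat_lit 4, nat_lit 0x48⟩ (.nil) (.nil)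
def t14_12427 : Tr := .node ⟨nat_lit 7, nat_lit 0x20004000100060, nat_lit 0x11103, nat_lit 0, nat_lit 4, nat_lit 0x47⟩ (.nil) (.nil)
def t14_2187 : Tr := .node ⟨nat_lit 7, nat_lit 0x40004000200048, nat_lit 0x112002, nat_lit 4, nat_lit 4, nat_lit 0x49⟩ (.nil) (.nil)
def t14_10379 : Tr := .node ⟨nat_lit 7, nat_lit 0x400020002800500050, nat_lit 0x1002000, nat_lit 2, nat_lit 4, nat_lit 0x46⟩ (.nil) (.nil)
def t14_6283 : Tr := .node ⟨nat_lit 6, nat_lit 0x20002000100010, nat_lit 0x11031, nat_lit 2, nat_lit 4, nat_lit 0x48⟩ (.nil) (.nil)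
def t14_14475 : Tr := .node ⟨nat_lit 6, nat_lit 0x800280030, nat_lit 0x110121, nat_lit 3, nat_lit 4, nat_lit 0x47⟩ (.nil) (.nil)
def t14_1163 : Tr := .node ⟨nat_lit 6, nat_lit 0x1000280034, nat_lit 0x10021, nat_lit 0, nat_lit 4, nat_lit 0x44⟩ (.nil) (.nil)
def t14_9355 : Tr := .node ⟨nat_lit 7, nat_lit 0x10006000600050, nat_lit 0x11212, nat_lit 3, nat_lit 4, nat_lit 0x47⟩ (.nil) (.nil)
def t14_5259 : Tr := .node ⟨nat_lit 8, nat_lit 0x80008000800088, nat_lit 0x1112101, nat_lit 2, nat_lit 4, nat_lit 0x4b⟩ (.nil) (.nil)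
def t14_13451 : Tr := .node ⟨nat_lit 9, nat_lit 0x400100002000200180, nat_lit 0x3100, nat_lit 0, nat_lit 4, nat_lit 0x49⟩ (.nil) (.nil)
def t14_3211 : Tr := .node ⟨nat_lit 7, nat_lit 0x20002000500060, nat_lit 0x22111, nat_lit 0, nat_lit 3, nat_lit 0x46⟩ (.nil) (.nil)
def t14_11403 : Tr := .node ⟨nat_lit 8, nat_lit 0x40004000a000a000c0, nat_lit 0x111201, nat_lit 0, nat_lit 4, nat_lit 0x47⟩ (.nil) (.nil)
def t14_7307 : Tr := .node ⟨nat_lit 7, nat_lit 0x40004800480030, nat_lit 0x201211, nat_lit 1, nat_lit 4, nat_lit 0x47⟩ (.nil) (.nil)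
def t14_15499 : Tr := .node ⟨nat_lit 7, nat_lit 0x20003000500068, nat_lit 0x1011121, nat_lit 0, nat_lit 4, nat_lit 0x46⟩ (.nil) (.nil)
def t14_651 : Tr := .node ⟨nat_lit 7, nat_lit 0x40004000400020, nat_lit 0x113201, nat_lit 1, nat_lit 4, nat_lit 0x4a⟩ (.nil) (.nil)
def t14_8843 : Tr := .node ⟨nat_lit 5, nat_lit 0x1000100014, nat_lit 0x1101, nat_lit 9, nat_lit 4, nat_lit 0x47⟩ (.nil) (.nil)
def t14_4747 : Tr := .node ⟨nat_lit 7, nat_lit 0x10004000600064, nat_lit 0x1100221, nat_lit 2, nat_lit 4, nat_lit 0x48⟩ (.nil) (.nil)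
def t14_12939 : Tr := .node ⟨nat_lit 7, nat_lit 0x40002000480060, nat_lit 0x10020, nat_lit 1, nat_lit 4, nat_lit 0x46⟩ (.nil) (.nil)
def t14_2699 : Tr := .node ⟨nat_lit 7, nat_lit 0x10004000180060, nat_lit 0x1002011, nat_lit 0, nat_lit 4, nat_lit 0x47⟩ (.nil) (.nil)
def t14_10891 : Tr := .node ⟨nat_lit 7, nat_lit 0x20006000500070, nat_lit 0x1222, nat_lit 0, nat_lit 4, nat_lit 0x45⟩ (.nil) (.nil)
def t14_6795 : Tr := .node ⟨nat_lit 7, nat_lit 0x4000180064, nat_lit 0x1100101, nat_lit 1, nat_lit 4, nat_lit 0x47⟩ (.nil) (.nil)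
def t14_14987 : Tr := .node ⟨nat_lit 8, nat_lit 0x4000800080008000900090, nat_lit 0x11011, nat_lit 7, nat_lit 4, nat_lit 0x49⟩ (.nil) (.nil)
def t14_1675 : Tr := .node ⟨nat_lit 7, nat_lit 0x40004000200048, nat_lit 0x11020, nat_lit 0, nat_lit 4, nat_lit 0x47⟩ (.nil) (.nil)
def t14_9867 : Tr := .node ⟨nat_lit 8, nat_lit 0x800080004000a000a00090, nat_lit 0x1111110, nat_lit 3, nat_lit 4, nat_lit 0x48⟩ (.nil) (.nil)
def t14_5771 : Tr := .node ⟨nat_lit 9, nat_lit 0x100010001080108, nat_lit 0x11111020, nat_lit 0, nat_lit 4, nat_lit 0x4b⟩ (.nil) (.nil)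
def t14_13963 : Tr := .node ⟨nat_lit 5, nat_lit 0x800100010, nat_lit 0x200, nat_lit 6, nat_lit 4, nat_lit 0x46⟩ (.nil) (.nil)
def t14_3723 : Tr := .node ⟨nat_lit 8, nat_lit 0x8000400040004000a000d0, nat_lit 0x10221000, nat_lit 1, nat_lit 4, nat_lit 0x48⟩ (.nil) (.nil)
def t14_11915 : Tr := .node ⟨nat_lit 4, nat_lit 0x80004, nat_lit 0x1044, nat_lit 3, nat_lit 4, nat_lit 0x47⟩ (.nil) (.nil)
def t14_7819 : Tr := .node ⟨nat_lit 7, nat_lit 0x40001000200048, nat_lit 0x112013, nat_lit 0, nat_lit 4, nat_lit 0x48⟩ (.nil) (.nil)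
def t9_139 : Tr := .node ⟨nat_lit 6, nat_lit 0x2000080034, nat_lit 0x321111, nat_lit 0, nat_lit 4, nat_lit 0x49⟩ (.node ⟨nat_lit 6, nat_lit 0x1000280034, nat_lit 0x131112, nat_lit 1, nat_lit 4, nat_lit 0x48⟩ (.node ⟨nat_lit 8, nat_lit 0x80004000a000c0, nat_lit 0x31002, nat_lit 1, nat_lit 4, nat_lit 0x49⟩ (.node ⟨nat_lit 7, nat_lit 0x4000500060, nat_lit 0x112012, nat_lit 0, nat_lit 4, nat_lit 0x48⟩ (.node ⟨nat_lit 7, nat_lit 0x40004000100060, nat_lit 0x22120, nat_lit 2, nat_lit 4, nat_lit 0x49⟩ (t14_139) (t14_8331)) (.node ⟨nat_lit 7, nat_lit 0x10004000400064, nat_lit 0x200213, nat_lit 1, nat_lit 4, nat_lit 0x48⟩ (t14_4235) (t14_12427))) (.node ⟨nat_lit 6, nat_lit 0x200030, nat_lit 0x121112, nat_lit 4, nat_lit 4, nat_lit 0x4a⟩ (.node ⟨nat_lit 6, nat_lit 0x800280030, nat_lit 0x10202, nat_lit 2, nat_lit 4, nat_lit 0x46⟩ (t14_2187) (t14_10379)) (.node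 ⟨nat_lit 7, nat_lit 0x2000100040, nat_lit 0x1112101, nat_lit 5, nat_lit 4, nat_lit 0x4b⟩ (t14_6283) (t14_14475)))) (.node ⟨nat_lit 6, nat_lit 0x200022, nat_lit 0x22120, nat_lit 1, nat_lit 4, nat_lit 0x49⟩ (.node ⟨nat_lit 7, nat_lit 0x1000100060, nat_lit 0x2201101, nat_lit 1, nat_lit 4, nat_lit 0x4a⟩ (.node ⟨nat_lit 3, nat_lit 4, nat_lit 0x412, nat_lit 2, nat_lit 3, nat_lit 0x47⟩ (t14_1163) (t14_9355)) (.node ⟨nat_lit 7, nat_lit 0x2000500060, nat_lit 0x1111221, nat_lit 0, nat_lit 4, nat_lit 0x49⟩ (t14_5259) (t14_13451))) (.node ⟨nat_lit 6, nat_lit 0x1000200022, nat_lit 0x212000, nat_lit 0, nat_lit 4, nat_lit 0x48⟩ (.node ⟨nat_lit 6, nat_lit 0x2000080030, nat_lit 0x12100, nat_lit 1, nat_lit 4, nat_lit 0x47⟩ (t14_3211) (t14_11403)) (.node ⟨nat_lit 6, nat_lit 0x2000300034, nat_lit 0x11010, nat_lit 3, nat_lit 4, nat_lit 0x46⟩ (t14_7307) (t14_15499)))))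 (.node ⟨nat_lit 3, nat_lit 6, nat_lit 0x322, nat_lit 9, nat_lit 4, nat_lit 0x48⟩ (.node ⟨nat_lit 5, nat_lit 0x100008, nat_lit 0x2123, nat_lit 0, nat_lit 4, nat_lit 0x48⟩ (.node ⟨nat_lit 6, nat_lit 0x300030, nat_lit 0x2211, nat_lit 0, nat_lit 4, nat_lit 0x47⟩ (.node ⟨nat_lit 6, nat_lit 0x300030, nat_lit 0x104121, nat_lit 0, nat_lit 4, nat_lit 0x49⟩ (t14_651) (t14_8843)) (.node ⟨nat_lit 6, nat_lit 0x800300030, nat_lit 0x100320, nat_lit 0, nat_lit 4, nat_lit 0x46⟩ (t14_4747) (t14_12939))) (.node ⟨nat_lit 4, nat_lit 0xc, nat_lit 0x1112, nat_lit 4, nat_lit 4, nat_lit 0x46⟩ (.node ⟨nat_lit 5, nat_lit 0x100008001c, nat_lit 0x1230, nat_lit 3, nat_lit 4, nat_lit 0x46⟩ (t14_2699) (t14_10891)) (.node ⟨nat_lit 7, nat_lit 0x40004000100060, nat_lit 0x11130, nat_lit 0, nat_lit 4, nat_lit 0x48⟩ (t14_6795) (t14_14987)))) (.node ⟨nat_lit 7, nat_lit 0x4000400020,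 nat_lit 0x211101, nat_lit 1, nat_lit 4, nat_lit 0x4a⟩ (.node ⟨nat_lit 7, nat_lit 0x600018, nat_lit 0x1020111, nat_lit 1, nat_lit 4, nat_lit 0x49⟩ (.node ⟨nat_lit 3, nat_lit 6, nat_lit 0x104, nat_lit 7, nat_lit 4, nat_lit 0x45⟩ (t14_1675) (t14_9867)) (.node ⟨nat_lit 7, nat_lit 0x10004000500060, nat_lit 0x200022, nat_lit 0, nat_lit 4, nat_lit 0x47⟩ (t14_5771) (t14_13963))) (.node ⟨nat_lit 6, nat_lit 0x300030, nat_lit 0x2021, nat_lit 0, nat_lit 4, nat_lit 0x46⟩ (.node ⟨nat_lit 6, nat_lit 0x800280030, nat_lit 0x121030, nat_lit 0, nat_lit 3, nat_lit 0x46⟩ (t14_3723) (t14_11915)) (.node ⟨nat_lit 6, nat_lit 0x20001000100030, nat_lit 0x10222, nat_lit 1, nat_lit 3, nat_lit 0x46⟩ (t14_7819) (.nil)))))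
def t14_395 : Tr := .node ⟨nat_lit 7, nat_lit 0x40002000500068, nat_lit 0x112111, nat_lit 1, nat_lit 4, nat_lit 0x47⟩ (.nil) (.nil)
def t14_8587 : Tr := .node ⟨nat_lit 7, nat_lit 0x40001000100068, nat_lit 0x2002, nat_lit 0, nat_lit 4, nat_lit 0x46⟩ (.nil) (.nil)
def t14_4491 : Tr := .node ⟨nat_lit 9, nat_lit 0x10001000080012001200110, nat_lit 0x111110101, nat_lit 0, nat_lit 4, nat_lit 0x4a⟩ (.nil) (.nil)
def t14_12683 : Tr := .node ⟨nat_lit 5, nat_lit 0x800100012, nat_lit 0x11020, nat_lit 5, nat_lit 4, nat_lit 0x47⟩ (.nil) (.nil)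
def t14_2443 : Tr := .node ⟨nat_lit 6, nat_lit 0x2000100034, nat_lit 0x11130, nat_lit 0, nat_lit 4, nat_lit 0x47⟩ (.nil) (.nil)
def t14_10635 : Tr := .node ⟨nat_lit 7, nat_lit 0x6000180050, nat_lit 0x102, nat_lit 2, nat_lit 4, nat_lit 0x46⟩ (.nil) (.nil)
def t14_6539 : Tr := .node ⟨nat_lit 6, nat_lit 0x2000080030, nat_lit 0x101121, nat_lit 4, nat_lit 4, nat_lit 0x48⟩ (.nil) (.nil)
def t14_14731 : Tr := .node ⟨nat_lit 7, nat_lit 0x40001000600050, nat_lit 0x11112, nat_lit 4, nat_lit 4, nat_lit 0x48⟩ (.nil) (.nil)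
def t14_1419 : Tr := .node ⟨nat_lit 6, nat_lit 0x800300038, nat_lit 0x1140, nat_lit 0, nat_lit 4, nat_lit 0x45⟩ (.nil) (.nil)
def t14_9611 : Tr := .node ⟨nat_lit 6, nat_lit 0x20001000280038, nat_lit 0x1200, nat_lit 3, nat_lit 4, nat_lit 0x45⟩ (.nil) (.nil)
def t14_5515 : Tr := .node ⟨nat_lit 6, nat_lit 0x200010, nat_lit 0x1131, nat_lit 1, nat_lit 3, nat_lit 0x47⟩ (.nil) (.nil)
def t14_13707 : Tr := .node ⟨nat_lit 8, nat_lit 0x400080008000880060, nat_lit 0x20000, nat_lit 5, nat_lit 4, nat_lit 0x48⟩ (.nil) (.nil)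
def t14_3467 : Tr := .node ⟨nat_lit 8, nat_lit 0x20008000c000a0, nat_lit 0x201, nat_lit 1, nat_lit 4, nat_lit 0x48⟩ (.nil) (.nil)
def t14_11659 : Tr := .node ⟨nat_lit 7, nat_lit 0x40004800600060, nat_lit 0x13110, nat_lit 2, nat_lit 4, nat_lit 0x48⟩ (.nil) (.nil)
def t14_7563 : Tr := .node ⟨nat_lit 7, nat_lit 0x400040002000500060, nat_lit 0x11203, nat_lit 2, nat_lit 4, nat_lit 0x47⟩ (.nil) (.nil)
def t14_907 : Tr := .node ⟨nat_lit 7, nat_lit 0x40004000200060, nat_lit 0x112112, nat_lit 2, nat_lit 4, nat_lit 0x49⟩ (.nil) (.nil)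
def t14_9099 : Tr := .node ⟨nat_lit 8, nat_lit 0x80008800c000c0, nat_lit 0x1111021, nat_lit 1, nat_lit 4, nat_lit 0x49⟩ (.nil) (.nil)
def t14_5003 : Tr := .node ⟨nat_lit 5, nat_lit 0x1000100018, nat_lit 0x1311, nat_lit 8, nat_lit 4, nat_lit 0x48⟩ (.nil) (.nil)
def t14_13195 : Tr := .node ⟨nat_lit 7, nat_lit 0x800500060, nat_lit 0x130, nat_lit 0, nat_lit 4, nat_lit 0x46⟩ (.nil) (.nil)
def t14_2955 : Tr := .node ⟨nat_lit 4, nat_lit 0x8000c, nat_lit 0x1003, nat_lit 8, nat_lit 4, nat_lit 0x46⟩ (.nil) (.nil)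
def t14_11147 : Tr := .node ⟨nat_lit 7, nat_lit 0x10001000600060, nat_lit 0x1001030, nat_lit 1, nat_lit 4, nat_lit 0x47⟩ (.nil) (.nil)
def t14_7051 : Tr := .node ⟨nat_lit 6, nat_lit 0x300030, nat_lit 0x101111, nat_lit 5, nat_lit 4, nat_lit 0x48⟩ (.nil) (.nil)
def t14_15243 : Tr := .node ⟨nat_lit 9, nat_lit 0x1000100004000400180, nat_lit 0x10120101, nat_lit 0, nat_lit 4, nat_lit 0x4a⟩ (.nil) (.nil)
def t14_1931 : Tr := .node ⟨nat_lit 7, nat_lit 0x20006000500068, nat_lit 0x21121, nat_lit 0, nat_lit 4, nat_lit 0x46⟩ (.nil) (.nil)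
def t14_10123 : Tr := .node ⟨nat_lit 6, nat_lit 0x20002000200038, nat_lit 0x100, nat_lit 4, nat_lit 4, nat_lit 0x46⟩ (.nil) (.nil)
def t14_6027 : Tr := .node ⟨nat_lit 7, nat_lit 0x100060, nat_lit 0x1102100, nat_lit 1, nat_lit 4, nat_lit 0x4a⟩ (.nil) (.nil)
def t14_14219 : Tr := .node ⟨nat_lit 8, nat_lit 0x10001000a000c0, nat_lit 0x102020, nat_lit 0, nat_lit 4, nat_lit 0x48⟩ (.nil) (.nil)
def t14_3979 : Tr := .node ⟨nat_lit 6, nat_lit 0x1000280030, nat_lit 0x1200, nat_lit 3, nat_lit 4, nat_lit 0x46⟩ (.nil) (.nil)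
def t14_12171 : Tr := .node ⟨nat_lit 8, nat_lit 0x200080008000c0, nat_lit 0x1010210, nat_lit 3, nat_lit 4, nat_lit 0x4a⟩ (.nil) (.nil)
def t14_8075 : Tr := .node ⟨nat_lit 5, nat_lit 0x1000140018, nat_lit 0x1141, nat_lit 4, nat_lit 4, nat_lit 0x46⟩ (.nil) (.nil)
def t9_395 : Tr := .node ⟨nat_lit 5, nat_lit 0x18, nat_lit 0x22311, nat_lit 1, nat_lit 4, nat_lit 0x4a⟩ (.node ⟨nat_lit 6, nat_lit 0x2000080030, nat_lit 0x32120, nat_lit 1, nat_lit 4, nat_lit 0x49⟩ (.node ⟨nat_lit 5, nat_lit 0x100018, nat_lit 0x2202, nat_lit 5, nat_lit 4, nat_lit 0x48⟩ (.node ⟨nat_lit 5, nat_lit 0x18, nat_lit 0x10101, nat_lit 0, nat_lit 4, nat_lit 0x45⟩ (.node ⟨nat_lit 6, nat_lit 0x800300030, nat_lit 0x2121, nat_lit 3, nat_lit 4, nat_lit 0x47⟩ (t14_395) (t14_8587)) (.node ⟨nat_lit 8, nat_lit 0x8000800040004800b000b0, nat_lit 0x11200021, nat_lit 0, nat_lit 4, nat_lit 0x47⟩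 (t14_4491) (t14_12683))) (.node ⟨nat_lit 5, nat_lit 0x140018, nat_lit 0x2211, nat_lit 4, nat_lit 4, nat_lit 0x47⟩ (.node ⟨nat_lit 8, nat_lit 0x2000800080004000c0, nat_lit 0x1001013, nat_lit 3, nat_lit 4, nat_lit 0x49⟩ (t14_2443) (t14_10635)) (.node ⟨nat_lit 6, nat_lit 0x2000200034, nat_lit 0x2112, nat_lit 2, nat_lit 4, nat_lit 0x47⟩ (t14_6539) (t14_14731)))) (.node ⟨nat_lit 5, nat_lit 0x18, nat_lit 0x20103, nat_lit 0, nat_lit 4, nat_lit 0x47⟩ (.node ⟨nat_lit 6, nat_lit 0x2000200010, nat_lit 0x121312, nat_lit 0, nat_lit 4, nat_lit 0x4a⟩ (.node ⟨nat_lit 4, nat_lit 8, nat_lit 0x111, nat_lit 5, nat_lit 4, nat_lit 0x46⟩ (t14_1419) (t14_9611)) (.node ⟨nat_lit 8, nat_lit 0x800020002000c0, nat_lit 0x11021102, nat_lit 0, nat_lit 4, nat_lit 0x4a⟩ (t14_5515) (t14_13707))) (.node ⟨nat_lit 6, nat_lit 0x2000100010, nat_lit 0x12030, nat_lit 1, nat_lit 4, nat_lit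 0x49⟩ (.node ⟨nat_lit 6, nat_lit 0x300038, nat_lit 0x2110, nat_lit 0, nat_lit 4, nat_lit 0x46⟩ (t14_3467) (t14_11659)) (.node ⟨nat_lit 5, nat_lit 0x100018, nat_lit 0x11121, nat_lit 9, nat_lit 4, nat_lit 0x49⟩ (t14_7563) (.nil))))) (.node ⟨nat_lit 7, nat_lit 0x600050, nat_lit 0x1003111, nat_lit 3, nat_lit 4, nat_lit 0x4a⟩ (.node ⟨nat_lit 6, nat_lit 0x80030, nat_lit 0x200211, nat_lit 1, nat_lit 4, nat_lit 0x48⟩ (.node ⟨nat_lit 6, nat_lit 0x80030, nat_lit 0x111102, nat_lit 1, nat_lit 4, nat_lit 0x48⟩ (.node ⟨nat_lit 8, nat_lit 0x400080, nat_lit 0x21111110, nat_lit 0, nat_lit 4, nat_lit 0x4d⟩ (t14_907) (t14_9099)) (.node ⟨nat_lit 4, nat_lit 8, nat_lit 0x2220, nat_lit 0xb, nat_lit 4, nat_lit 0x4a⟩ (t14_5003) (t14_13195))) (.node ⟨nat_lit 6, nat_lit 0x800300038, nat_lit 0x110012, nat_lit 0, nat_lit 4, nat_lit 0x45⟩ (.node ⟨nat_lit 8, nat_lit 0x40008000200084,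 nat_lit 0x10110210, nat_lit 1, nat_lit 4, nat_lit 0x4a⟩ (t14_2955) (t14_11147)) (.node ⟨nat_lit 7, nat_lit 0x40001000600068, nat_lit 0x1111022, nat_lit 2, nat_lit 4, nat_lit 0x48⟩ (t14_7051) (t14_15243)))) (.node ⟨nat_lit 2, nat_lit 2, nat_lit 0x21, nat_lit 0xd, nat_lit 4, nat_lit 0x46⟩ (.node ⟨nat_lit 6, nat_lit 0x1000280034, nat_lit 0x122211, nat_lit 0, nat_lit 4, nat_lit 0x48⟩ (.node ⟨nat_lit 7, nat_lit 0x4000100060, nat_lit 0x1012301, nat_lit 0, nat_lit 4, nat_lit 0x4a⟩ (t14_1931) (t14_10123)) (.node ⟨nat_lit 7, nat_lit 0x5000600060, nat_lit 0x32020, nat_lit 0, nat_lit 4, nat_lit 0x48⟩ (t14_6027) (t14_14219))) (.node ⟨nat_lit 7, nat_lit 0x200020002000400042, nat_lit 0x1021000, nat_lit 4, nat_lit 4, nat_lit 0x48⟩ (.node ⟨nat_lit 6, nat_lit 0x2000080030, nat_lit 0x111010, nat_lit 1, nat_lit 4, nat_lit 0x47⟩ (t14_3979) (t14_12171)) (.node ⟨nat_lit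 7, nat_lit 0x400020005000680070, nat_lit 0x1012011, nat_lit 2, nat_lit 4, nat_lit 0x46⟩ (t14_8075) (.nil)))))
def t14_75 : Tr := .node ⟨nat_lit 7, nat_lit 0x40004000200060, nat_lit 0x112111, nat_lit 3, nat_lit 4, nat_lit 0x49⟩ (.nil) (.nil)
def t14_8267 : Tr := .node ⟨nat_lit 8, nat_lit 0x8000400020009000c0, nat_lit 0x121030, nat_lit 0, nat_lit 4, nat_lit 0x48⟩ (.nil) (.nil)
def t14_4171 : Tr := .node ⟨nat_lit 9, nat_lit 0x1000020011001400180, nat_lit 0x11110111, nat_lit 0, nat_lit 4, nat_lit 0x49⟩ (.nil) (.nil)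
def t14_12363 : Tr := .node ⟨nat_lit 7, nat_lit 0x40001000500060, nat_lit 0x103101, nat_lit 3, nat_lit 4, nat_lit 0x48⟩ (.nil) (.nil)
def t14_2123 : Tr := .node ⟨nat_lit 6, nat_lit 0x20002000100030, nat_lit 0x12102, nat_lit 6, nat_lit 4, nat_lit 0x48⟩ (.nil) (.nil)
def t14_10315 : Tr := .node ⟨nat_lit 6, nat_lit 0x2000240018, nat_lit 0x110002, nat_lit 2, nat_lit 4, nat_lit 0x46⟩ (.nil) (.nil)
def t14_6219 : Tr := .node ⟨nat_lit 6, nat_lit 0x1000200034, nat_lit 0x11101, nat_lit 4, nat_lit 4, nat_lit 0x47⟩ (.nil) (.nil)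
def t14_14411 : Tr := .node ⟨nat_lit 7, nat_lit 0x20005000300068, nat_lit 0x102, nat_lit 0, nat_lit 4, nat_lit 0x44⟩ (.nil) (.nil)
def t14_1099 : Tr := .node ⟨nat_lit 7, nat_lit 0x40001000480068, nat_lit 0x112001, nat_lit 1, nat_lit 4, nat_lit 0x47⟩ (.nil) (.nil)
def t14_9291 : Tr := .node ⟨nat_lit 8, nat_lit 0x800040005000a000c000e0, nat_lit 0x211021, nat_lit 0, nat_lit 4, nat_lit 0x46⟩ (.nil) (.nil)
def t14_5195 : Tr := .node ⟨nat_lit 4, nat_lit 8, nat_lit 0x2211, nat_lit 0xa, nat_lit 3, nat_lit 0x48⟩ (.nil) (.nil)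
def t14_13387 : Tr := .node ⟨nat_lit 6, nat_lit 0x20002000200010, nat_lit 0x100003, nat_lit 2, nat_lit 3, nat_lit 0x46⟩ (.nil) (.nil)
def t14_3147 : Tr := .node ⟨nat_lit 7, nat_lit 0x20004000500064, nat_lit 0x110010, nat_lit 0, nat_lit 4, nat_lit 0x46⟩ (.nil) (.nil)
def t14_11339 : Tr := .node ⟨nat_lit 7, nat_lit 0x40001000600060, nat_lit 0x111130, nat_lit 1, nat_lit 4, nat_lit 0x48⟩ (.nil) (.nil)
def t14_7243 : Tr := .node ⟨nat_lit 7, nat_lit 0x40004000200020, nat_lit 0x1113011, nat_lit 0, nat_lit 4, nat_lit 0x4a⟩ (.nil) (.nil)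
def t14_15435 : Tr := .node ⟨nat_lit 0xb, nat_lit 0x400040002000100008000800440, nat_lit 0x10001100101, nat_lit 0, nat_lit 4, nat_lit 0x4b⟩ (.nil) (.nil)
def t14_587 : Tr := .node ⟨nat_lit 6, nat_lit 0x2000300034, nat_lit 0x2022, nat_lit 3, nat_lit 4, nat_lit 0x46⟩ (.nil) (.nil)
def t14_8779 : Tr := .node ⟨nat_lit 7, nat_lit 0x400040002000500050, nat_lit 0x110041, nat_lit 2, nat_lit 4, nat_lit 0x48⟩ (.nil) (.nil)
def t14_4683 : Tr := .node ⟨nat_lit 8, nat_lit 0x80008000400088, nat_lit 0x1101002, nat_lit 0, nat_lit 4, nat_lit 0x49⟩ (.nil) (.nil)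
def t14_12875 : Tr := .node ⟨nat_lit 7, nat_lit 0x4000100060, nat_lit 0x12000, nat_lit 0, nat_lit 4, nat_lit 0x48⟩ (.nil) (.nil)
def t14_2635 : Tr := .node ⟨nat_lit 6, nat_lit 0x800300028, nat_lit 0x320, nat_lit 1, nat_lit 4, nat_lit 0x46⟩ (.nil) (.nil)
def t14_10827 : Tr := .node ⟨nat_lit 7, nat_lit 0x10002000500060, nat_lit 0x1000021, nat_lit 3, nat_lit 4, nat_lit 0x47⟩ (.nil) (.nil)
def t14_6731 : Tr := .node ⟨nat_lit 7, nat_lit 0x4000600064, nat_lit 0x1011210, nat_lit 0, nat_lit 4, nat_lit 0x48⟩ (.nil) (.nil)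
def t14_14923 : Tr := .node ⟨nat_lit 8, nat_lit 0x2000800088008800c8, nat_lit 0x10001221, nat_lit 1, nat_lit 4, nat_lit 0x48⟩ (.nil) (.nil)
def t14_1611 : Tr := .node ⟨nat_lit 6, nat_lit 0x800300038, nat_lit 0x110312, nat_lit 0, nat_lit 4, nat_lit 0x46⟩ (.nil) (.nil)
def t14_9803 : Tr := .node ⟨nat_lit 8, nat_lit 0x400080008800c000c0, nat_lit 0x110020, nat_lit 0, nat_lit 4, nat_lit 0x47⟩ (.nil) (.nil)
def t14_5707 : Tr := .node ⟨nat_lit 8, nat_lit 0x80001000a000c0, nat_lit 0x1012102, nat_lit 1, nat_lit 4, nat_lit 0x49⟩ (.nil) (.nil)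
def t14_13899 : Tr := .node ⟨nat_lit 7, nat_lit 0x40001000100060, nat_lit 0x3300, nat_lit 2, nat_lit 4, nat_lit 0x48⟩ (.nil) (.nil)
def t14_3659 : Tr := .node ⟨nat_lit 8, nat_lit 0x800040004000c000a0, nat_lit 0x102021, nat_lit 1, nat_lit 4, nat_lit 0x48⟩ (.nil) (.nil)
def t14_11851 : Tr := .node ⟨nat_lit 7, nat_lit 0x40002000500060, nat_lit 0x131, nat_lit 1, nat_lit 4, nat_lit 0x46⟩ (.nil) (.nil)
def t14_7755 : Tr := .node ⟨nat_lit 7, nat_lit 0x10004000440060, nat_lit 0x100202, nat_lit 5, nat_lit 4, nat_lit 0x48⟩ (.nil) (.nil)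
def t9_75 : Tr := .node ⟨nat_lit 4, nat_lit 8, nat_lit 0x1110, nat_lit 1, nat_lit 3, nat_lit 0x45⟩ (.node ⟨nat_lit 5, nat_lit 0x10, nat_lit 0x13210, nat_lit 7, nat_lit 4, nat_lit 0x4b⟩ (.node ⟨nat_lit 6, nat_lit 0x2800280030, nat_lit 0x30202, nat_lit 4, nat_lit 4, nat_lit 0x47⟩ (.node ⟨nat_lit 6, nat_lit 0x2000100024, nat_lit 0x112000, nat_lit 3, nat_lit 4, nat_lit 0x48⟩ (.node ⟨nat_lit 7, nat_lit 0x4000400060, nat_lit 0x221003, nat_lit 1, nat_lit 4, nat_lit 0x4a⟩ (t14_75) (t14_8267)) (.node ⟨nat_lit 8, nat_lit 0x80002000c000a0, nat_lit 0x110003, nat_lit 2, nat_lit 4, nat_lit 0x49⟩ (t14_4171) (t14_12363))) (.node ⟨nat_lit 5, nat_lit 0x800100018, nat_lit 0x12212, nat_lit 4, nat_lit 4, nat_lit 0x48⟩ (.node ⟨nat_lit 4, nat_lit 8, nat_lit 0x114, nat_lit 2, nat_lit 3, nat_lit 0x46⟩ (t14_2123) (t14_10315)) (.node ⟨nat_lit 8, nat_lit 0x40008000800060008800d0,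 nat_lit 0x1221010, nat_lit 0, nat_lit 4, nat_lit 0x47⟩ (t14_6219) (t14_14411)))) (.node ⟨nat_lit 5, nat_lit 0x100010, nat_lit 0x2230, nat_lit 5, nat_lit 4, nat_lit 0x49⟩ (.node ⟨nat_lit 7, nat_lit 0x600060, nat_lit 0x2021111, nat_lit 0, nat_lit 4, nat_lit 0x4a⟩ (.node ⟨nat_lit 7, nat_lit 0x10001000500060, nat_lit 0x101113, nat_lit 0, nat_lit 4, nat_lit 0x47⟩ (t14_1099) (t14_9291)) (.node ⟨nat_lit 7, nat_lit 0x4000100060, nat_lit 0x101201, nat_lit 0, nat_lit 4, nat_lit 0x48⟩ (t14_5195) (t14_13387))) (.node ⟨nat_lit 6, nat_lit 0x100020, nat_lit 0x211001, nat_lit 0, nat_lit 4, nat_lit 0x49⟩ (.node ⟨nat_lit 6, nat_lit 0x80030, nat_lit 0x100300, nat_lit 2, nat_lit 4, nat_lit 0x48⟩ (t14_3147) (t14_11339)) (.node ⟨nat_lit 6, nat_lit 0x20001000100028, nat_lit 0x101102, nat_lit 5, nat_lit 4, nat_lit 0x47⟩ (t14_7243) (t14_15435))))) (.node ⟨nat_lit 5, nat_lit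 0x100008, nat_lit 0x3203, nat_lit 2, nat_lit 4, nat_lit 0x4a⟩ (.node ⟨nat_lit 6, nat_lit 0x2000100008, nat_lit 0x2002, nat_lit 3, nat_lit 4, nat_lit 0x48⟩ (.node ⟨nat_lit 6, nat_lit 0x2000200020, nat_lit 0x21210, nat_lit 2, nat_lit 4, nat_lit 0x49⟩ (.node ⟨nat_lit 5, nat_lit 0x10, nat_lit 0x21110, nat_lit 0xb, nat_lit 4, nat_lit 0x4b⟩ (t14_587) (t14_8779)) (.node ⟨nat_lit 7, nat_lit 0x10001000200040, nat_lit 0x1111101, nat_lit 0, nat_lit 4, nat_lit 0x49⟩ (t14_4683) (t14_12875))) (.node ⟨nat_lit 6, nat_lit 0x800080030, nat_lit 0x100102, nat_lit 1, nat_lit 4, nat_lit 0x46⟩ (.node ⟨nat_lit 5, nat_lit 0x100018, nat_lit 0x12124, nat_lit 2, nat_lit 4, nat_lit 0x49⟩ (t14_2635) (t14_10827)) (.node ⟨nat_lit 8, nat_lit 0x8000800040004000a00090, nat_lit 0x10211010, nat_lit 3, nat_lit 4, nat_lit 0x49⟩ (t14_6731) (t14_14923)))) (.node ⟨nat_lit 6, nat_lit 0x200010,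 nat_lit 0x21101, nat_lit 5, nat_lit 4, nat_lit 0x4a⟩ (.node ⟨nat_lit 5, nat_lit 0x40018, nat_lit 0x30221, nat_lit 3, nat_lit 4, nat_lit 0x49⟩ (.node ⟨nat_lit 5, nat_lit 0x100018, nat_lit 0x201, nat_lit 4, nat_lit 4, nat_lit 0x46⟩ (t14_1611) (t14_9803)) (.node ⟨nat_lit 7, nat_lit 0x600060, nat_lit 0x1022111, nat_lit 1, nat_lit 4, nat_lit 0x4a⟩ (t14_5707) (t14_13899))) (.node ⟨nat_lit 6, nat_lit 0x80030, nat_lit 0x200202, nat_lit 4, nat_lit 4, nat_lit 0x49⟩ (.node ⟨nat_lit 6, nat_lit 0x1000280030, nat_lit 0x1100, nat_lit 1, nat_lit 4, nat_lit 0x45⟩ (t14_3659) (t14_11851)) (.node ⟨nat_lit 7, nat_lit 0x800500060, nat_lit 0x111021, nat_lit 2, nat_lit 4, nat_lit 0x48⟩ (t14_7755) (.nil)))))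
def t14_331 : Tr := .node ⟨nat_lit 7, nat_lit 0x4000100060, nat_lit 0x1021111, nat_lit 3, nat_lit 4, nat_lit 0x4a⟩ (.nil) (.nil)
def t14_8523 : Tr := .node ⟨nat_lit 6, nat_lit 0x2000200024, nat_lit 0x21213, nat_lit 3, nat_lit 4, nat_lit 0x49⟩ (.nil) (.nil)
def t14_4427 : Tr := .node ⟨nat_lit 8, nat_lit 0x80008000400020, nat_lit 0x11112100, nat_lit 0, nat_lit 4, nat_lit 0x4b⟩ (.nil) (.nil)
def t14_12619 : Tr := .node ⟨nat_lit 8, nat_lit 0x2000c000a00030, nat_lit 0x10001040, nat_lit 0, nat_lit 4, nat_lit 0x48⟩ (.nil) (.nil)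
def t14_2379 : Tr := .node ⟨nat_lit 7, nat_lit 0x400020002800500060, nat_lit 0x22102, nat_lit 1, nat_lit 4, nat_lit 0x46⟩ (.nil) (.nil)
def t14_10571 : Tr := .node ⟨nat_lit 7, nat_lit 0x30005000600060, nat_lit 0x210, nat_lit 4, nat_lit 4, nat_lit 0x45⟩ (.nil) (.nil)
def t14_6475 : Tr := .node ⟨nat_lit 6, nat_lit 0x80030, nat_lit 0x111111, nat_lit 3, nat_lit 4, nat_lit 0x49⟩ (.nil) (.nil)
def t14_14667 : Tr := .node ⟨nat_lit 8, nat_lit 0x4000800080009000e000d0, nat_lit 0x1111110, nat_lit 2, nat_lit 4, nat_lit 0x47⟩ (.nil) (.nil)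
def t14_1355 : Tr := .node ⟨nat_lit 8, nat_lit 0x800080004000a000e000e0, nat_lit 0x10013010, nat_lit 1, nat_lit 4, nat_lit 0x47⟩ (.nil) (.nil)
def t14_9547 : Tr := .node ⟨nat_lit 8, nat_lit 0x800080008000c000c000a000a0, nat_lit 0x1102110, nat_lit 2, nat_lit 4, nat_lit 0x48⟩ (.nil) (.nil)
def t14_5451 : Tr := .node ⟨nat_lit 7, nat_lit 0x10002000400040, nat_lit 0x103010, nat_lit 1, nat_lit 4, nat_lit 0x48⟩ (.nil) (.nil)
def t14_13643 : Tr := .node ⟨nat_lit 4, nat_lit 0x40008, nat_lit 0x12, nat_lit 4, nat_lit 3, nat_lit 0x44⟩ (.nil) (.nil)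
def t14_3403 : Tr := .node ⟨nat_lit 6, nat_lit 0x280030, nat_lit 0x20010, nat_lit 0, nat_lit 4, nat_lit 0x46⟩ (.nil) (.nil)
def t14_11595 : Tr := .node ⟨nat_lit 8, nat_lit 0x2000c000c000c0, nat_lit 0x10310, nat_lit 1, nat_lit 4, nat_lit 0x48⟩ (.nil) (.nil)
def t14_7499 : Tr := .node ⟨nat_lit 7, nat_lit 0x40004000200020, nat_lit 0x111011, nat_lit 7, nat_lit 4, nat_lit 0x4a⟩ (.nil) (.nil)
def t14_843 : Tr := .node ⟨nat_lit 4, nat_lit 0x8000a, nat_lit 0x122, nat_lit 7, nat_lit 4, nat_lit 0x46⟩ (.nil) (.nil)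
def t14_9035 : Tr := .node ⟨nat_lit 8, nat_lit 0x80008000800090009000a0, nat_lit 0x1111110, nat_lit 4, nat_lit 4, nat_lit 0x49⟩ (.nil) (.nil)
def t14_4939 : Tr := .node ⟨nat_lit 8, nat_lit 0x80002000c000e0, nat_lit 0x1010013, nat_lit 1, nat_lit 4, nat_lit 0x48⟩ (.nil) (.nil)
def t14_13131 : Tr := .node ⟨nat_lit 6, nat_lit 0x20001000100034, nat_lit 0x3300, nat_lit 4, nat_lit 4, nat_lit 0x47⟩ (.nil) (.nil)
def t14_2891 : Tr := .node ⟨nat_lit 7, nat_lit 0x4000500060, nat_lit 0x211102, nat_lit 0, nat_lit 4, nat_lit 0x49⟩ (.nil) (.nil)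
def t14_11083 : Tr := .node ⟨nat_lit 5, nat_lit 0x1000180018, nat_lit 0x120, nat_lit 9, nat_lit 4, nat_lit 0x46⟩ (.nil) (.nil)
def t14_6987 : Tr := .node ⟨nat_lit 6, nat_lit 0x800200030, nat_lit 0x101111, nat_lit 9, nat_lit 4, nat_lit 0x49⟩ (.nil) (.nil)
def t14_15179 : Tr := .node ⟨nat_lit 6, nat_lit 0x2000300028, nat_lit 0x1021, nat_lit 3, nat_lit 3, nat_lit 0x45⟩ (.nil) (.nil)
def t14_1867 : Tr := .node ⟨nat_lit 6, nat_lit 0x2000080010, nat_lit 0x2001, nat_lit 2, nat_lit 4, nat_lit 0x47⟩ (.nil) (.nil)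
def t14_10059 : Tr := .node ⟨nat_lit 8, nat_lit 0x40008000d000d000d0, nat_lit 0x1101220, nat_lit 0, nat_lit 4, nat_lit 0x46⟩ (.nil) (.nil)
def t14_5963 : Tr := .node ⟨nat_lit 8, nat_lit 0x8000a000c0, nat_lit 0x1111112, nat_lit 0, nat_lit 4, nat_lit 0x4a⟩ (.nil) (.nil)
def t14_14155 : Tr := .node ⟨nat_lit 7, nat_lit 0x40002000100010, nat_lit 0x200021, nat_lit 0, nat_lit 3, nat_lit 0x47⟩ (.nil) (.nil)
def t14_3915 : Tr := .node ⟨nat_lit 8, nat_lit 0x8000800040009000d0, nat_lit 0x10101200, nat_lit 0, nat_lit 4, nat_lit 0x48⟩ (.nil) (.nil)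
def t14_12107 : Tr := .node ⟨nat_lit 7, nat_lit 0x6000600050, nat_lit 0x11210, nat_lit 1, nat_lit 4, nat_lit 0x47⟩ (.nil) (.nil)
def t14_8011 : Tr := .node ⟨nat_lit 7, nat_lit 0x20004000100044, nat_lit 0x104, nat_lit 1, nat_lit 4, nat_lit 0x47⟩ (.nil) (.nil)
def t9_331 : Tr := .node ⟨nat_lit 6, nat_lit 0x20, nat_lit 0x31110, nat_lit 1, nat_lit 4, nat_lit 0x4a⟩ (.node ⟨nat_lit 5, nat_lit 0x80010, nat_lit 0x20311, nat_lit 0, nat_lit 4, nat_lit 0x48⟩ (.node ⟨nat_lit 6, nat_lit 0x20, nat_lit 0x211113, nat_lit 0, nat_lit 4, nat_lit 0x4b⟩ (.node ⟨nat_lit 4, nat_lit 0, nat_lit 0x1110, nat_lit 0, nat_lit 4, nat_lit 0x45⟩ (.node ⟨nat_lit 7, nat_lit 0x4000200010, nat_lit 0x1121011, nat_lit 3, nat_lit 4, nat_lit 0x4b⟩ (t14_331) (t14_8523)) (.node ⟨nat_lit 6, nat_lit 0x1000100020, nat_lit 0x11001, nat_lit 1, nat_lit 4, nat_lit 0x47⟩ (t14_4427) (t14_12619)))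 (.node ⟨nat_lit 7, nat_lit 0x1000080060, nat_lit 0x1000002, nat_lit 0, nat_lit 3, nat_lit 0x46⟩ (.node ⟨nat_lit 8, nat_lit 0x40008000800090006000c0, nat_lit 0x1211013, nat_lit 0, nat_lit 4, nat_lit 0x48⟩ (t14_2379) (t14_10571)) (.node ⟨nat_lit 6, nat_lit 0x20002c0034, nat_lit 0x211020, nat_lit 3, nat_lit 4, nat_lit 0x47⟩ (t14_6475) (t14_14667)))) (.node ⟨nat_lit 6, nat_lit 0x8000c0030, nat_lit 0x102102, nat_lit 4, nat_lit 4, nat_lit 0x48⟩ (.node ⟨nat_lit 4, nat_lit 0, nat_lit 0x2222, nat_lit 4, nat_lit 4, nat_lit 0x4a⟩ (.node ⟨nat_lit 8, nat_lit 0x40008000800090006000d0, nat_lit 0x1100003, nat_lit 1, nat_lit 4, nat_lit 0x46⟩ (t14_1355) (t14_9547)) (.node ⟨nat_lit 7, nat_lit 0x20002000500060, nat_lit 0x1020022, nat_lit 1, nat_lit 4, nat_lit 0x48⟩ (t14_5451) (t14_13643))) (.node ⟨nat_lit 4, nat_lit 0xc, nat_lit 0x3112, nat_lit 8, nat_lit 4, nat_lit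 0x49⟩ (.node ⟨nat_lit 7, nat_lit 0x4000200070, nat_lit 0x102103, nat_lit 0, nat_lit 4, nat_lit 0x48⟩ (t14_3403) (t14_11595)) (.node ⟨nat_lit 7, nat_lit 0x400040007000700070, nat_lit 0x1001110, nat_lit 1, nat_lit 4, nat_lit 0x45⟩ (t14_7499) (.nil))))) (.node ⟨nat_lit 7, nat_lit 0x4000200020, nat_lit 0x31010, nat_lit 3, nat_lit 4, nat_lit 0x4a⟩ (.node ⟨nat_lit 6, nat_lit 0x2000080034, nat_lit 0x221101, nat_lit 1, nat_lit 4, nat_lit 0x48⟩ (.node ⟨nat_lit 6, nat_lit 0x1000200034, nat_lit 0x111121, nat_lit 0, nat_lit 4, nat_lit 0x47⟩ (.node ⟨nat_lit 6, nat_lit 0x2000100010, nat_lit 0x1021, nat_lit 1, nat_lit 3, nat_lit 0x46⟩ (t14_843) (t14_9035)) (.node ⟨nat_lit 6, nat_lit 0x200020, nat_lit 0x122221, nat_lit 1, nat_lit 4, nat_lit 0x4b⟩ (t14_4939) (t14_13131))) (.node ⟨nat_lit 7, nat_lit 0x20004000600068, nat_lit 0x111120, nat_lit 0, nat_lit 4, nat_lit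 0x47⟩ (.node ⟨nat_lit 7, nat_lit 0x40002000480048, nat_lit 0x1112111, nat_lit 0, nat_lit 4, nat_lit 0x49⟩ (t14_2891) (t14_11083)) (.node ⟨nat_lit 4, nat_lit 0x8000a, nat_lit 0x1112, nat_lit 6, nat_lit 4, nat_lit 0x46⟩ (t14_6987) (t14_15179)))) (.node ⟨nat_lit 5, nat_lit 0x18, nat_lit 0x21210, nat_lit 0, nat_lit 4, nat_lit 0x48⟩ (.node ⟨nat_lit 6, nat_lit 0x2000080030, nat_lit 0x201201, nat_lit 1, nat_lit 4, nat_lit 0x48⟩ (.node ⟨nat_lit 8, nat_lit 0x400080008000c4, nat_lit 0x1113001, nat_lit 2, nat_lit 4, nat_lit 0x4a⟩ (t14_1867) (t14_10059)) (.node ⟨nat_lit 7, nat_lit 0x40002000100060, nat_lit 0x120012, nat_lit 0, nat_lit 4, nat_lit 0x48⟩ (t14_5963) (t14_14155))) (.node ⟨nat_lit 7, nat_lit 0x20004000500064, nat_lit 0x2101, nat_lit 0, nat_lit 4, nat_lit 0x45⟩ (.node ⟨nat_lit 7, nat_lit 0x20001000600050, nat_lit 0x1110103, nat_lit 0, nat_lit 4,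 nat_lit 0x48⟩ (t14_3915) (t14_12107)) (.node ⟨nat_lit 7, nat_lit 0x20004000440030, nat_lit 0x2102011, nat_lit 0, nat_lit 4, nat_lit 0x48⟩ (t14_8011) (.nil)))))
def t14_203 : Tr := .node ⟨nat_lit 7, nat_lit 0x40006800680058, nat_lit 0x2110112, nat_lit 2, nat_lit 4, nat_lit 0x47⟩ (.nil) (.nil)
def t14_8395 : Tr := .node ⟨nat_lit 5, nat_lit 0x10, nat_lit 0x11113, nat_lit 4, nat_lit 3, nat_lit 0x48⟩ (.nil) (.nil)
def t14_4299 : Tr := .node ⟨nat_lit 0xa, nat_lit 0x10001000040008002000202, nat_lit 0x1011100100, nat_lit 1, nat_lit 4, nat_lit 0x4b⟩ (.nil) (.nil)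
def t14_12491 : Tr := .node ⟨nat_lit 7, nat_lit 0x20004000100060, nat_lit 0x14101, nat_lit 0, nat_lit 4, nat_lit 0x48⟩ (.nil) (.nil)
def t14_2251 : Tr := .node ⟨nat_lit 7, nat_lit 0x400040002000200064, nat_lit 0x100221, nat_lit 1, nat_lit 4, nat_lit 0x48⟩ (.nil) (.nil)
def t14_10443 : Tr := .node ⟨nat_lit 6, nat_lit 0x10001000200030, nat_lit 0x200021, nat_lit 0, nat_lit 3, nat_lit 0x46⟩ (.nil) (.nil)
def t14_6347 : Tr := .node ⟨nat_lit 8, nat_lit 0x40004000800080008400c8, nat_lit 0x10210000, nat_lit 1, nat_lit 4, nat_lit 0x47⟩ (.nil) (.nil)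
def t14_14539 : Tr := .node ⟨nat_lit 8, nat_lit 0x80008800a000c8, nat_lit 0x12210, nat_lit 0, nat_lit 4, nat_lit 0x48⟩ (.nil) (.nil)
def t14_1227 : Tr := .node ⟨nat_lit 5, nat_lit 0x40018, nat_lit 0x30031, nat_lit 0, nat_lit 3, nat_lit 0x46⟩ (.nil) (.nil)
def t14_9419 : Tr := .node ⟨nat_lit 6, nat_lit 0x200030, nat_lit 0x102220, nat_lit 1, nat_lit 3, nat_lit 0x48⟩ (.nil) (.nil)
def t14_5323 : Tr := .node ⟨nat_lit 4, nat_lit 0xc000c, nat_lit 0x1140, nat_lit 7, nat_lit 4, nat_lit 0x47⟩ (.nil) (.nil)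
def t14_13515 : Tr := .node ⟨nat_lit 8, nat_lit 0x200010001000c0, nat_lit 2, nat_lit 3, nat_lit 4, nat_lit 0x48⟩ (.nil) (.nil)
def t14_3275 : Tr := .node ⟨nat_lit 9, nat_lit 0x80008001000100011000c00180, nat_lit 0x2010011, nat_lit 1, nat_lit 4, nat_lit 0x48⟩ (.nil) (.nil)
def t14_11467 : Tr := .node ⟨nat_lit 3, nat_lit 0x40004, nat_lit 0x110, nat_lit 8, nat_lit 4, nat_lit 0x45⟩ (.nil) (.nil)
def t14_7371 : Tr := .node ⟨nat_lit 6, nat_lit 0x2000200010, nat_lit 0x13100, nat_lit 0, nat_lit 4, nat_lit 0x48⟩ (.nil) (.nil)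
def t14_15563 : Tr := .node ⟨nat_lit 7, nat_lit 0, nat_lit 0x2111111, nat_lit 5, nat_lit 4, nat_lit 0x4e⟩ (.nil) (.nil)
def t14_715 : Tr := .node ⟨nat_lit 5, nat_lit 0x100018, nat_lit 0x241, nat_lit 2, nat_lit 3, nat_lit 0x46⟩ (.nil) (.nil)
def t14_8907 : Tr := .node ⟨nat_lit 8, nat_lit 0x1000a000c000c0, nat_lit 0x100130, nat_lit 0, nat_lit 4, nat_lit 0x47⟩ (.nil) (.nil)
def t14_4811 : Tr := .node ⟨nat_lit 7, nat_lit 0x200040004800300030, nat_lit 0x2110010, nat_lit 0, nat_lit 4, nat_lit 0x47⟩ (.nil) (.nil)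
def t14_13003 : Tr := .node ⟨nat_lit 5, nat_lit 0x800080010, nat_lit 0x30000, nat_lit 1, nat_lit 3, nat_lit 0x46⟩ (.nil) (.nil)
def t14_2763 : Tr := .node ⟨nat_lit 6, nat_lit 0x1000280030, nat_lit 0x110111, nat_lit 0, nat_lit 4, nat_lit 0x46⟩ (.nil) (.nil)
def t14_10955 : Tr := .node ⟨nat_lit 8, nat_lit 0x8000800040004000a000a0, nat_lit 0x13010, nat_lit 1, nat_lit 4, nat_lit 0x47⟩ (.nil) (.nil)
def t14_6859 : Tr := .node ⟨nat_lit 7, nat_lit 0x4000440044, nat_lit 0x111210, nat_lit 0, nat_lit 4, nat_lit 0x49⟩ (.nil) (.nil)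
def t14_15051 : Tr := .node ⟨nat_lit 7, nat_lit 0x10002000500060, nat_lit 0x1011012, nat_lit 3, nat_lit 4, nat_lit 0x48⟩ (.nil) (.nil)
def t14_1739 : Tr := .node ⟨nat_lit 7, nat_lit 0x40002000500068, nat_lit 0x112101, nat_lit 1, nat_lit 4, nat_lit 0x47⟩ (.nil) (.nil)
def t14_9931 : Tr := .node ⟨nat_lit 6, nat_lit 0x3000380038, nat_lit 0x1033, nat_lit 4, nat_lit 4, nat_lit 0x45⟩ (.nil) (.nil)
def t14_5835 : Tr := .node ⟨nat_lit 6, nat_lit 0x30, nat_lit 0x1112, nat_lit 1, nat_lit 4, nat_lit 0x48⟩ (.nil) (.nil)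
def t14_14027 : Tr := .node ⟨nat_lit 7, nat_lit 0x40001000540068, nat_lit 0x113002, nat_lit 1, nat_lit 4, nat_lit 0x47⟩ (.nil) (.nil)
def t14_3787 : Tr := .node ⟨nat_lit 9, nat_lit 0x1000080008000800040, nat_lit 0x1102100, nat_lit 2, nat_lit 4, nat_lit 0x4b⟩ (.nil) (.nil)
def t14_11979 : Tr := .node ⟨nat_lit 8, nat_lit 0x2000800080008800c0, nat_lit 0x1002210, nat_lit 1, nat_lit 4, nat_lit 0x49⟩ (.nil) (.nil)
def t14_7883 : Tr := .node ⟨nat_lit 8, nat_lit 0x8000200020009000c0, nat_lit 0x11111, nat_lit 0, nat_lit 4, nat_lit 0x47⟩ (.nil) (.nil)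
def t9_203 : Tr := .node ⟨nat_lit 5, nat_lit 0, nat_lit 0x32211, nat_lit 0, nat_lit 4, nat_lit 0x4b⟩ (.node ⟨nat_lit 5, nat_lit 0x100018, nat_lit 0x11321, nat_lit 5, nat_lit 4, nat_lit 0x49⟩ (.node ⟨nat_lit 5, nat_lit 0x18, nat_lit 0x10301, nat_lit 0, nat_lit 4, nat_lit 0x47⟩ (.node ⟨nat_lit 5, nat_lit 0x100008, nat_lit 0x1204, nat_lit 4, nat_lit 4, nat_lit 0x49⟩ (.node ⟨nat_lit 5, nat_lit 0x100008001a, nat_lit 0x2221, nat_lit 5, nat_lit 4, nat_lit 0x47⟩ (t14_203) (t14_8395)) (.node ⟨nat_lit 7, nat_lit 0x4000200070, nat_lit 0x101203, nat_lit 1, nat_lit 4, nat_lit 0x48⟩ (t14_4299) (t14_12491))) (.node ⟨nat_lit 6, nat_lit 0x100020, nat_lit 0x212113, nat_lit 1, nat_lit 4, nat_lit 0x4b⟩ (.node ⟨nat_lit 7, nat_lit 0x40004000200068, nat_lit 0x112113, nat_lit 1, nat_lit 4, nat_lit 0x48⟩ (t14_2251) (t14_10443)) (.node ⟨nat_lit 8, nat_lit 0x8000a000c0,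 nat_lit 0x1121021, nat_lit 0, nat_lit 4, nat_lit 0x4a⟩ (t14_6347) (t14_14539)))) (.node ⟨nat_lit 5, nat_lit 0x80010, nat_lit 0x11212, nat_lit 2, nat_lit 4, nat_lit 0x48⟩ (.node ⟨nat_lit 8, nat_lit 0x200020001000c0, nat_lit 0x21011011, nat_lit 1, nat_lit 4, nat_lit 0x4a⟩ (.node ⟨nat_lit 5, nat_lit 0x10001c, nat_lit 0x1103, nat_lit 5, nat_lit 4, nat_lit 0x46⟩ (t14_1227) (t14_9419)) (.node ⟨nat_lit 8, nat_lit 0x800020002000c0, nat_lit 0x10022101, nat_lit 1, nat_lit 4, nat_lit 0x4a⟩ (t14_5323) (t14_13515))) (.node ⟨nat_lit 6, nat_lit 0x800280030, nat_lit 0x11203, nat_lit 1, nat_lit 4, nat_lit 0x47⟩ (.node ⟨nat_lit 5, nat_lit 0x180014, nat_lit 0x12213, nat_lit 2, nat_lit 4, nat_lit 0x48⟩ (t14_3275) (t14_11467)) (.node ⟨nat_lit 6, nat_lit 0x2000340038, nat_lit 0x101112, nat_lit 3, nat_lit 4, nat_lit 0x46⟩ (t14_7371) (t14_15563))))) (.node ⟨nat_lit 6,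 nat_lit 0x80030, nat_lit 0x111311, nat_lit 0, nat_lit 4, nat_lit 0x49⟩ (.node ⟨nat_lit 6, nat_lit 0x200030, nat_lit 0x2110, nat_lit 1, nat_lit 4, nat_lit 0x47⟩ (.node ⟨nat_lit 7, nat_lit 0x400040, nat_lit 0x211110, nat_lit 2, nat_lit 4, nat_lit 0x4b⟩ (.node ⟨nat_lit 7, nat_lit 0x20004000100060, nat_lit 0x1121102, nat_lit 0, nat_lit 4, nat_lit 0x49⟩ (t14_715) (t14_8907)) (.node ⟨nat_lit 6, nat_lit 0x20001000100030, nat_lit 0x112211, nat_lit 0, nat_lit 3, nat_lit 0x46⟩ (t14_4811) (t14_13003))) (.node ⟨nat_lit 7, nat_lit 0x2000600050, nat_lit 0x1011012, nat_lit 0, nat_lit 4, nat_lit 0x48⟩ (.node ⟨nat_lit 6, nat_lit 0x10001000200020, nat_lit 0x113021, nat_lit 0, nat_lit 3, nat_lit 0x47⟩ (t14_2763) (t14_10955)) (.node ⟨nat_lit 8, nat_lit 0x10005000c000a0, nat_lit 0x10110122, nat_lit 0, nat_lit 4, nat_lit 0x48⟩ (t14_6859) (t14_15051)))) (.node ⟨nat_lit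 4, nat_lit 0x8000c, nat_lit 0x1131, nat_lit 3, nat_lit 3, nat_lit 0x45⟩ (.node ⟨nat_lit 5, nat_lit 0x40018, nat_lit 0x10111, nat_lit 3, nat_lit 4, nat_lit 0x46⟩ (.node ⟨nat_lit 5, nat_lit 0x140018, nat_lit 0x1140, nat_lit 2, nat_lit 4, nat_lit 0x46⟩ (t14_1739) (t14_9931)) (.node ⟨nat_lit 7, nat_lit 0x2000200040, nat_lit 0x122200, nat_lit 0, nat_lit 3, nat_lit 0x49⟩ (t14_5835) (t14_14027))) (.node ⟨nat_lit 6, nat_lit 0x2000280034, nat_lit 0x2222, nat_lit 2, nat_lit 4, nat_lit 0x47⟩ (.node ⟨nat_lit 5, nat_lit 0x40018, nat_lit 0x110, nat_lit 2, nat_lit 3, nat_lit 0x45⟩ (t14_3787) (t14_11979)) (.node ⟨nat_lit 7, nat_lit 0x4000600060, nat_lit 0x111121, nat_lit 3, nat_lit 4, nat_lit 0x49⟩ (t14_7883) (.nil)))))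
def t14_459 : Tr := .node ⟨nat_lit 7, nat_lit 0x40002000600068, nat_lit 0x1111121, nat_lit 0, nat_lit 4, nat_lit 0x48⟩ (.nil) (.nil)
def t14_8651 : Tr := .node ⟨nat_lit 6, nat_lit 0x2000080030, nat_lit 0x12, nat_lit 1, nat_lit 4, nat_lit 0x45⟩ (.nil) (.nil)
def t14_4555 : Tr := .node ⟨nat_lit 5, nat_lit 0x800100010, nat_lit 0x21221, nat_lit 2, nat_lit 3, nat_lit 0x47⟩ (.nil) (.nil)
def t14_12747 : Tr := .node ⟨nat_lit 6, nat_lit 0x2000240030, nat_lit 0x11300, nat_lit 3, nat_lit 4, nat_lit 0x48⟩ (.nil) (.nil)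
def t14_2507 : Tr := .node ⟨nat_lit 7, nat_lit 0x4000600050, nat_lit 0x112210, nat_lit 2, nat_lit 4, nat_lit 0x49⟩ (.nil) (.nil)
def t14_10699 : Tr := .node ⟨nat_lit 7, nat_lit 0x1000500060, nat_lit 0x1011020, nat_lit 0, nat_lit 4, nat_lit 0x48⟩ (.nil) (.nil)
def t14_6603 : Tr := .node ⟨nat_lit 6, nat_lit 0x2000240030, nat_lit 0x12200, nat_lit 4, nat_lit 4, nat_lit 0x48⟩ (.nil) (.nil)
def t14_14795 : Tr := .node ⟨nat_lit 8, nat_lit 0x80008000800040004000a0, nat_lit 0x121101, nat_lit 5, nat_lit 4, nat_lit 0x49⟩ (.nil) (.nil)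
def t14_1483 : Tr := .node ⟨nat_lit 7, nat_lit 0x40001000100060, nat_lit 0x1001201, nat_lit 3, nat_lit 4, nat_lit 0x48⟩ (.nil) (.nil)
def t14_9675 : Tr := .node ⟨nat_lit 8, nat_lit 0x8000400040009000c8, nat_lit 0x111000, nat_lit 1, nat_lit 4, nat_lit 0x47⟩ (.nil) (.nil)
def t14_5579 : Tr := .node ⟨nat_lit 7, nat_lit 0x4000400060, nat_lit 0x11220, nat_lit 5, nat_lit 4, nat_lit 0x4a⟩ (.nil) (.nil)
def t14_13771 : Tr := .node ⟨nat_lit 7, nat_lit 0x40001000100060, nat_lit 0x2101000, nat_lit 0, nat_lit 3, nat_lit 0x47⟩ (.nil) (.nil)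
def t14_3531 : Tr := .node ⟨nat_lit 7, nat_lit 0x10006000600050, nat_lit 0x1201, nat_lit 2, nat_lit 4, nat_lit 0x46⟩ (.nil) (.nil)
def t14_11723 : Tr := .node ⟨nat_lit 9, nat_lit 0x400100018001880188, nat_lit 0x100100210, nat_lit 1, nat_lit 4, nat_lit 0x48⟩ (.nil) (.nil)
def t14_7627 : Tr := .node ⟨nat_lit 6, nat_lit 0x2000100030, nat_lit 0x214, nat_lit 1, nat_lit 4, nat_lit 0x47⟩ (.nil) (.nil)
def t14_971 : Tr := .node ⟨nat_lit 6, nat_lit 0x1000200022, nat_lit 0x2021, nat_lit 5, nat_lit 4, nat_lit 0x48⟩ (.nil) (.nil)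
def t14_9163 : Tr := .node ⟨nat_lit 7, nat_lit 0x400050006000700070, nat_lit 0x12230, nat_lit 1, nat_lit 4, nat_lit 0x45⟩ (.nil) (.nil)
def t14_5067 : Tr := .node ⟨nat_lit 7, nat_lit 0x40001000600060, nat_lit 0x113111, nat_lit 0, nat_lit 4, nat_lit 0x48⟩ (.nil) (.nil)
def t14_13259 : Tr := .node ⟨nat_lit 6, nat_lit 0x800200030, nat_lit 0x210010, nat_lit 3, nat_lit 3, nat_lit 0x47⟩ (.nil) (.nil)
def t14_3019 : Tr := .node ⟨nat_lit 8, nat_lit 0x2000400040008000c8, nat_lit 0x10002101, nat_lit 0, nat_lit 4, nat_lit 0x48⟩ (.nil) (.nil)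
def t14_11211 : Tr := .node ⟨nat_lit 7, nat_lit 0x4000600050, nat_lit 0x11010, nat_lit 1, nat_lit 4, nat_lit 0x47⟩ (.nil) (.nil)
def t14_7115 : Tr := .node ⟨nat_lit 7, nat_lit 0x4000600060, nat_lit 0x121111, nat_lit 1, nat_lit 4, nat_lit 0x49⟩ (.nil) (.nil)
def t14_15307 : Tr := .node ⟨nat_lit 8, nat_lit 0x200020004000a000c0, nat_lit 0x10010022, nat_lit 2, nat_lit 4, nat_lit 0x48⟩ (.nil) (.nil)
def t14_1995 : Tr := .node ⟨nat_lit 7, nat_lit 0x4000500060, nat_lit 0x121120, nat_lit 1, nat_lit 4, nat_lit 0x49⟩ (.nil) (.nil)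
def t14_10187 : Tr := .node ⟨nat_lit 8, nat_lit 0x400080008800c000c0, nat_lit 0x121020, nat_lit 2, nat_lit 4, nat_lit 0x48⟩ (.nil) (.nil)
def t14_6091 : Tr := .node ⟨nat_lit 4, nat_lit 0x80004, nat_lit 0, nat_lit 0x17, nat_lit 4, nat_lit 0x49⟩ (.nil) (.nil)
def t14_14283 : Tr := .node ⟨nat_lit 8, nat_lit 0x80008000800040004000a0, nat_lit 0x100211, nat_lit 2, nat_lit 4, nat_lit 0x48⟩ (.nil) (.nil)
def t14_4043 : Tr := .node ⟨nat_lit 5, nat_lit 0x100010, nat_lit 0x20020, nat_lit 0, nat_lit 3, nat_lit 0x47⟩ (.nil) (.nil)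
def t14_12235 : Tr := .node ⟨nat_lit 7, nat_lit 0x4000400060, nat_lit 0x111210, nat_lit 4, nat_lit 4, nat_lit 0x4a⟩ (.nil) (.nil)
def t14_8139 : Tr := .node ⟨nat_lit 7, nat_lit 0x40001000100060, nat_lit 0x102100, nat_lit 0, nat_lit 4, nat_lit 0x47⟩ (.nil) (.nil)
def t9_459 : Tr := .node ⟨nat_lit 5, nat_lit 0x10, nat_lit 0x13301, nat_lit 0, nat_lit 4, nat_lit 0x4a⟩ (.node ⟨nat_lit 5, nat_lit 0x180018, nat_lit 0x120, nat_lit 0, nat_lit 3, nat_lit 0x43⟩ (.node ⟨nat_lit 5, nat_lit 0x100008, nat_lit 0x12202, nat_lit 3, nat_lit 4, nat_lit 0x49⟩ (.node ⟨nat_lit 7, nat_lit 0x4000200010, nat_lit 0x12002, nat_lit 0, nat_lit 4, nat_lit 0x49⟩ (.node ⟨nat_lit 6, nat_lit 0x2000080030, nat_lit 0x12221, nat_lit 1, nat_lit 4, nat_lit 0x48⟩ (t14_459) (t14_8651)) (.node ⟨nat_lit 6, nat_lit 0x20001000280034, nat_lit 0x122210, nat_lit 3, nat_lit 4, nat_lit 0x48⟩ (t14_4555)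 (t14_12747))) (.node ⟨nat_lit 5, nat_lit 0x800100010, nat_lit 0x1200, nat_lit 2, nat_lit 3, nat_lit 0x45⟩ (.node ⟨nat_lit 5, nat_lit 0x140018, nat_lit 0x11131, nat_lit 4, nat_lit 4, nat_lit 0x47⟩ (t14_2507) (t14_10699)) (.node ⟨nat_lit 5, nat_lit 0x100010, nat_lit 0x2231, nat_lit 4, nat_lit 4, nat_lit 0x49⟩ (t14_6603) (t14_14795)))) (.node ⟨nat_lit 6, nat_lit 0x200020, nat_lit 0x21100, nat_lit 0, nat_lit 4, nat_lit 0x48⟩ (.node ⟨nat_lit 7, nat_lit 0x4000100060, nat_lit 0x1021221, nat_lit 0, nat_lit 4, nat_lit 0x4a⟩ (.node ⟨nat_lit 6, nat_lit 0x800080030, nat_lit 0x100101, nat_lit 0, nat_lit 3, nat_lit 0x45⟩ (t14_1483) (t14_9675)) (.node ⟨nat_lit 6, nat_lit 0x10001000200022, nat_lit 0x113211, nat_lit 0, nat_lit 4, nat_lit 0x48⟩ (t14_5579) (t14_13771))) (.node ⟨nat_lit 5, nat_lit 0x100018, nat_lit 0x11202, nat_lit 5, nat_lit 4, nat_lit 0x48⟩ (.node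 ⟨nat_lit 5, nat_lit 0x40018, nat_lit 0x110, nat_lit 2, nat_lit 4, nat_lit 0x45⟩ (t14_3531) (t14_11723)) (.node ⟨nat_lit 5, nat_lit 0x1000100018, nat_lit 0x10321, nat_lit 2, nat_lit 3, nat_lit 0x46⟩ (t14_7627) (.nil))))) (.node ⟨nat_lit 7, nat_lit 0x4000200020, nat_lit 0x1131111, nat_lit 0, nat_lit 4, nat_lit 0x4b⟩ (.node ⟨nat_lit 5, nat_lit 0x180018, nat_lit 0x11221, nat_lit 3, nat_lit 4, nat_lit 0x47⟩ (.node ⟨nat_lit 6, nat_lit 0x200020, nat_lit 0x122110, nat_lit 0, nat_lit 4, nat_lit 0x4a⟩ (.node ⟨nat_lit 6, nat_lit 0x200022, nat_lit 0x211130, nat_lit 3, nat_lit 4, nat_lit 0x4b⟩ (t14_971) (t14_9163)) (.node ⟨nat_lit 6, nat_lit 0x2000200030, nat_lit 0x22112, nat_lit 4, nat_lit 4, nat_lit 0x49⟩ (t14_5067) (t14_13259))) (.node ⟨nat_lit 5, nat_lit 0x100008, nat_lit 0x1123, nat_lit 0, nat_lit 4, nat_lit 0x47⟩ (.node ⟨nat_lit 7, nat_lit 0x20004000400060,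 nat_lit 0x11310, nat_lit 0, nat_lit 4, nat_lit 0x48⟩ (t14_3019) (t14_11211)) (.node ⟨nat_lit 7, nat_lit 0x400050005000600070, nat_lit 0x111022, nat_lit 1, nat_lit 4, nat_lit 0x46⟩ (t14_7115) (t14_15307)))) (.node ⟨nat_lit 6, nat_lit 0x2000200010, nat_lit 0x12102, nat_lit 1, nat_lit 4, nat_lit 0x48⟩ (.node ⟨nat_lit 5, nat_lit 0x10, nat_lit 0x12110, nat_lit 7, nat_lit 4, nat_lit 0x4a⟩ (.node ⟨nat_lit 7, nat_lit 0x6000500070, nat_lit 0x12113, nat_lit 1, nat_lit 4, nat_lit 0x47⟩ (t14_1995) (t14_10187)) (.node ⟨nat_lit 7, nat_lit 0x40001000100060, nat_lit 0x1112200, nat_lit 0, nat_lit 4, nat_lit 0x49⟩ (t14_6091) (t14_14283))) (.node ⟨nat_lit 3, nat_lit 0, nat_lit 0x411, nat_lit 0xa, nat_lit 3, nat_lit 0x48⟩ (.node ⟨nat_lit 8, nat_lit 0x80002000c000e0, nat_lit 0x110103, nat_lit 0, nat_lit 4, nat_lit 0x48⟩ (t14_4043) (t14_12235)) (.node ⟨nat_lit 8, nat_lit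 0x800040002000c0, nat_lit 0x1110112, nat_lit 0, nat_lit 3, nat_lit 0x48⟩ (t14_8139) (.nil)))))
def t14_43 : Tr := .node ⟨nat_lit 6, nat_lit 0x2000200010, nat_lit 0x11100, nat_lit 5, nat_lit 4, nat_lit 0x48⟩ (.nil) (.nil)
def t14_8235 : Tr := .node ⟨nat_lit 7, nat_lit 0x20004000600064, nat_lit 0x12203, nat_lit 1, nat_lit 4, nat_lit 0x47⟩ (.nil) (.nil)
def t14_4139 : Tr := .node ⟨nat_lit 8, nat_lit 0x8000800020004000c0, nat_lit 0x1110102, nat_lit 1, nat_lit 4, nat_lit 0x49⟩ (.nil) (.nil)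
def t14_12331 : Tr := .node ⟨nat_lit 7, nat_lit 0x40002000600060, nat_lit 0x12230, nat_lit 2, nat_lit 4, nat_lit 0x48⟩ (.nil) (.nil)
def t14_2091 : Tr := .node ⟨nat_lit 7, nat_lit 0x200040004000300048, nat_lit 0x211301, nat_lit 1, nat_lit 4, nat_lit 0x48⟩ (.nil) (.nil)
def t14_10283 : Tr := .node ⟨nat_lit 8, nat_lit 0x80008000a000a000e000d0, nat_lit 0x10001020, nat_lit 1, nat_lit 4, nat_lit 0x46⟩ (.nil) (.nil)
def t14_6187 : Tr := .node ⟨nat_lit 7, nat_lit 0x1000080060, nat_lit 0x1001021, nat_lit 0, nat_lit 4, nat_lit 0x48⟩ (.nil) (.nil)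
def t14_14379 : Tr := .node ⟨nat_lit 8, nat_lit 0x800040004000a000c0, nat_lit 0x12103, nat_lit 1, nat_lit 4, nat_lit 0x48⟩ (.nil) (.nil)
def t14_1067 : Tr := .node ⟨nat_lit 5, nat_lit 0x100008, nat_lit 0x122, nat_lit 2, nat_lit 4, nat_lit 0x46⟩ (.nil) (.nil)
def t14_9259 : Tr := .node ⟨nat_lit 8, nat_lit 0x40002000c000a000d0, nat_lit 0x10221, nat_lit 0, nat_lit 4, nat_lit 0x46⟩ (.nil) (.nil)
def t14_5163 : Tr := .node ⟨nat_lit 6, nat_lit 0x200030, nat_lit 0x11131, nat_lit 1, nat_lit 3, nat_lit 0x47⟩ (.nil) (.nil)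
def t14_13355 : Tr := .node ⟨nat_lit 7, nat_lit 0x400020002000500050, nat_lit 0x22020, nat_lit 1, nat_lit 4, nat_lit 0x47⟩ (.nil) (.nil)
def t14_3115 : Tr := .node ⟨nat_lit 6, nat_lit 0x2000300030, nat_lit 0x12121, nat_lit 4, nat_lit 4, nat_lit 0x48⟩ (.nil) (.nil)
def t14_11307 : Tr := .node ⟨nat_lit 8, nat_lit 0xc000a000a0, nat_lit 0x21120, nat_lit 1, nat_lit 4, nat_lit 0x49⟩ (.nil) (.nil)
def t14_7211 : Tr := .node ⟨nat_lit 6, nat_lit 0x2000080030, nat_lit 0x102121, nat_lit 2, nat_lit 3, nat_lit 0x47⟩ (.nil) (.nil)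
def t14_15403 : Tr := .node ⟨nat_lit 0xb, nat_lit 0x40002000100008000400040, nat_lit 0x10, nat_lit 7, nat_lit 4, nat_lit 0x4c⟩ (.nil) (.nil)
def t14_555 : Tr := .node ⟨nat_lit 5, nat_lit 0x180018, nat_lit 0x222, nat_lit 2, nat_lit 4, nat_lit 0x45⟩ (.nil) (.nil)
def t14_8747 : Tr := .node ⟨nat_lit 8, nat_lit 0x8000800040009000d0, nat_lit 0x1110113, nat_lit 0, nat_lit 4, nat_lit 0x48⟩ (.nil) (.nil)
def t14_4651 : Tr := .node ⟨nat_lit 7, nat_lit 0x20004000440030, nat_lit 0x1100121, nat_lit 0, nat_lit 4, nat_lit 0x47⟩ (.nil) (.nil)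
def t14_12843 : Tr := .node ⟨nat_lit 7, nat_lit 0x1000600018, nat_lit 0x2000000, nat_lit 1, nat_lit 4, nat_lit 0x47⟩ (.nil) (.nil)
def t14_2603 : Tr := .node ⟨nat_lit 8, nat_lit 0x8000400040004800a000d0, nat_lit 0x10112100, nat_lit 0, nat_lit 4, nat_lit 0x47⟩ (.nil) (.nil)
def t14_10795 : Tr := .node ⟨nat_lit 9, nat_lit 0x10001000040012001200180, nat_lit 0x1121110, nat_lit 0, nat_lit 4, nat_lit 0x49⟩ (.nil) (.nil)
def t14_6699 : Tr := .node ⟨nat_lit 7, nat_lit 0x400020, nat_lit 0x11100, nat_lit 7, nat_lit 4, nat_lit 0x4b⟩ (.nil) (.nil)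
def t14_14891 : Tr := .node ⟨nat_lit 7, nat_lit 0x40004800680068, nat_lit 0x1011111, nat_lit 3, nat_lit 4, nat_lit 0x47⟩ (.nil) (.nil)
def t14_1579 : Tr := .node ⟨nat_lit 8, nat_lit 0x80009000c0006000d0, nat_lit 0x111202, nat_lit 0, nat_lit 4, nat_lit 0x46⟩ (.nil) (.nil)
def t14_9771 : Tr := .node ⟨nat_lit 8, nat_lit 0x40008000c000c000c8, nat_lit 0x111202, nat_lit 0, nat_lit 4, nat_lit 0x47⟩ (.nil) (.nil)
def t14_5675 : Tr := .node ⟨nat_lit 5, nat_lit 0x140018, nat_lit 0x1122, nat_lit 7, nat_lit 4, nat_lit 0x47⟩ (.nil) (.nil)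
def t14_13867 : Tr := .node ⟨nat_lit 6, nat_lit 0x20002000100010, nat_lit 0x3031, nat_lit 0, nat_lit 4, nat_lit 0x47⟩ (.nil) (.nil)
def t14_3627 : Tr := .node ⟨nat_lit 6, nat_lit 0x800280030, nat_lit 0x20010, nat_lit 5, nat_lit 4, nat_lit 0x47⟩ (.nil) (.nil)
def t14_11819 : Tr := .node ⟨nat_lit 6, nat_lit 0x80030, nat_lit 0x101123, nat_lit 0, nat_lit 4, nat_lit 0x48⟩ (.nil) (.nil)
def t14_7723 : Tr := .node ⟨nat_lit 2, nat_lit 2, nat_lit 0x31, nat_lit 8, nat_lit 3, nat_lit 0x45⟩ (.nil) (.nil)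
def t9_43 : Tr := .node ⟨nat_lit 4, nat_lit 8, nat_lit 0x3312, nat_lit 3, nat_lit 4, nat_lit 0x4a⟩ (.node ⟨nat_lit 6, nat_lit 0x200020, nat_lit 0x132120, nat_lit 1, nat_lit 4, nat_lit 0x4b⟩ (.node ⟨nat_lit 6, nat_lit 0x300030, nat_lit 0x103120, nat_lit 0, nat_lit 4, nat_lit 0x48⟩ (.node ⟨nat_lit 6, nat_lit 0x30, nat_lit 0x102111, nat_lit 0, nat_lit 4, nat_lit 0x49⟩ (.node ⟨nat_lit 7, nat_lit 0x20004000640064, nat_lit 0x2020031, nat_lit 1, nat_lit 4, nat_lit 0x47⟩ (t14_43) (t14_8235)) (.node ⟨nat_lit 5, nat_lit 0x40018, nat_lit 0x20200, nat_lit 3, nat_lit 4, nat_lit 0x47⟩ (t14_4139) (t14_12331))) (.node ⟨nat_lit 5, nat_lit 0x40018, nat_lit 0x22002, nat_lit 4, nat_lit 4, nat_lit 0x48⟩ (.node ⟨nat_lit 6, nat_lit 0x800200030, nat_lit 0x102131, nat_lit 1, nat_lit 3, nat_lit 0x47⟩ (t14_2091) (t14_10283)) (.node ⟨nat_lit 8, nat_lit 0x800080004000a000d0,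 nat_lit 0x1021200, nat_lit 0, nat_lit 4, nat_lit 0x48⟩ (t14_6187) (t14_14379)))) (.node ⟨nat_lit 6, nat_lit 0x800300030, nat_lit 0x2231, nat_lit 1, nat_lit 4, nat_lit 0x47⟩ (.node ⟨nat_lit 6, nat_lit 0x200030, nat_lit 0x212111, nat_lit 2, nat_lit 4, nat_lit 0x4a⟩ (.node ⟨nat_lit 7, nat_lit 0x1000400060, nat_lit 0x1101031, nat_lit 3, nat_lit 4, nat_lit 0x4a⟩ (t14_1067) (t14_9259)) (.node ⟨nat_lit 6, nat_lit 0x2000200020, nat_lit 0x111221, nat_lit 1, nat_lit 3, nat_lit 0x48⟩ (t14_5163) (t14_13355))) (.node ⟨nat_lit 5, nat_lit 0x10, nat_lit 0x22210, nat_lit 2, nat_lit 4, nat_lit 0x4a⟩ (.node ⟨nat_lit 7, nat_lit 0x40004000100020, nat_lit 0x111000, nat_lit 2, nat_lit 4, nat_lit 0x48⟩ (t14_3115) (t14_11307)) (.node ⟨nat_lit 6, nat_lit 0x3000180028, nat_lit 0x1322, nat_lit 0, nat_lit 4, nat_lit 0x45⟩ (t14_7211) (t14_15403))))) (.node ⟨nat_lit 7, nat_lit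 0, nat_lit 0x3211111, nat_lit 0, nat_lit 4, nat_lit 0x4e⟩ (.node ⟨nat_lit 6, nat_lit 0x100020, nat_lit 0x221111, nat_lit 1, nat_lit 4, nat_lit 0x4a⟩ (.node ⟨nat_lit 7, nat_lit 0x4000400060, nat_lit 0x21210, nat_lit 0, nat_lit 4, nat_lit 0x49⟩ (.node ⟨nat_lit 6, nat_lit 0x800080030, nat_lit 0x200221, nat_lit 0, nat_lit 3, nat_lit 0x46⟩ (t14_555) (t14_8747)) (.node ⟨nat_lit 7, nat_lit 0x20002000400068, nat_lit 0x1111102, nat_lit 3, nat_lit 4, nat_lit 0x49⟩ (t14_4651) (t14_12843))) (.node ⟨nat_lit 4, nat_lit 0x40008, nat_lit 0x1011, nat_lit 2, nat_lit 3, nat_lit 0x44⟩ (.node ⟨nat_lit 6, nat_lit 0x200030, nat_lit 0x112130, nat_lit 1, nat_lit 4, nat_lit 0x4a⟩ (t14_2603) (t14_10795)) (.node ⟨nat_lit 7, nat_lit 0x4000400060, nat_lit 0x211112, nat_lit 2, nat_lit 4, nat_lit 0x4a⟩ (t14_6699) (t14_14891)))) (.node ⟨nat_lit 6, nat_lit 0x2000200010, nat_lit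 0x121111, nat_lit 1, nat_lit 4, nat_lit 0x49⟩ (.node ⟨nat_lit 6, nat_lit 0x1000200030, nat_lit 0x202201, nat_lit 0, nat_lit 4, nat_lit 0x48⟩ (.node ⟨nat_lit 6, nat_lit 0x2000300028, nat_lit 0x1013, nat_lit 5, nat_lit 4, nat_lit 0x47⟩ (t14_1579) (t14_9771)) (.node ⟨nat_lit 7, nat_lit 0x2000500060, nat_lit 0x1012012, nat_lit 0, nat_lit 3, nat_lit 0x47⟩ (t14_5675) (t14_13867))) (.node ⟨nat_lit 3, nat_lit 4, nat_lit 0x21, nat_lit 0xa, nat_lit 4, nat_lit 0x46⟩ (.node ⟨nat_lit 6, nat_lit 0x80030, nat_lit 0x110100, nat_lit 0, nat_lit 4, nat_lit 0x47⟩ (t14_3627) (t14_11819)) (.node ⟨nat_lit 7, nat_lit 0x20004000100060, nat_lit 0x110022, nat_lit 1, nat_lit 4, nat_lit 0x48⟩ (t14_7723) (.nil)))))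
def t14_299 : Tr := .node ⟨nat_lit 7, nat_lit 0x2000400060, nat_lit 0x121131, nat_lit 1, nat_lit 4, nat_lit 0x4a⟩ (.nil) (.nil)
def t14_8491 : Tr := .node ⟨nat_lit 6, nat_lit 0x20002000280038, nat_lit 0x11213, nat_lit 5, nat_lit 4, nat_lit 0x47⟩ (.nil) (.nil)
def t14_4395 : Tr := .node ⟨nat_lit 7, nat_lit 0x40004000100068, nat_lit 0x1211110, nat_lit 1, nat_lit 4, nat_lit 0x49⟩ (.nil) (.nil)
def t14_12587 : Tr := .node ⟨nat_lit 8, nat_lit 0x80004000a000d000e0, nat_lit 0x111003, nat_lit 0, nat_lit 4, nat_lit 0x46⟩ (.nil) (.nil)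
def t14_2347 : Tr := .node ⟨nat_lit 8, nat_lit 0x40002000a000d000d0, nat_lit 0x2010210, nat_lit 1, nat_lit 4, nat_lit 0x47⟩ (.nil) (.nil)
def t14_10539 : Tr := .node ⟨nat_lit 7, nat_lit 0x40001000600068, nat_lit 0x10020, nat_lit 2, nat_lit 4, nat_lit 0x46⟩ (.nil) (.nil)
def t14_6443 : Tr := .node ⟨nat_lit 5, nat_lit 0x80010, nat_lit 0x11110, nat_lit 7, nat_lit 3, nat_lit 0x47⟩ (.nil) (.nil)
def t14_14635 : Tr := .node ⟨nat_lit 6, nat_lit 0x20002000280030, nat_lit 0x11111, nat_lit 0xa, nat_lit 4, nat_lit 0x48⟩ (.nil) (.nil)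
def t14_1323 : Tr := .node ⟨nat_lit 7, nat_lit 0x400040004000200020, nat_lit 0x22021, nat_lit 0, nat_lit 4, nat_lit 0x48⟩ (.nil) (.nil)
def t14_9515 : Tr := .node ⟨nat_lit 6, nat_lit 0x200020002800280030, nat_lit 0x121111, nat_lit 5, nat_lit 4, nat_lit 0x48⟩ (.nil) (.nil)
def t14_5419 : Tr := .node ⟨nat_lit 4, nat_lit 0, nat_lit 0x3211, nat_lit 8, nat_lit 3, nat_lit 0x49⟩ (.nil) (.nil)
def t14_13611 : Tr := .node ⟨nat_lit 7, nat_lit 0x40002000200010, nat_lit 0x110002, nat_lit 0, nat_lit 3, nat_lit 0x47⟩ (.nil) (.nil)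
def t14_3371 : Tr := .node ⟨nat_lit 6, nat_lit 0x300030, nat_lit 0x112110, nat_lit 0, nat_lit 4, nat_lit 0x48⟩ (.nil) (.nil)
def t14_11563 : Tr := .node ⟨nat_lit 8, nat_lit 0x4000a000a000c0, nat_lit 0x110102, nat_lit 1, nat_lit 4, nat_lit 0x48⟩ (.nil) (.nil)
def t14_7467 : Tr := .node ⟨nat_lit 7, nat_lit 0x1000500060, nat_lit 0x1101111, nat_lit 1, nat_lit 4, nat_lit 0x48⟩ (.nil) (.nil)
def t14_811 : Tr := .node ⟨nat_lit 7, nat_lit 0x20004000600068, nat_lit 0x112310, nat_lit 0, nat_lit 4, nat_lit 0x48⟩ (.nil) (.nil)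
def t14_9003 : Tr := .node ⟨nat_lit 6, nat_lit 0x20001000280028, nat_lit 0x11120, nat_lit 2, nat_lit 4, nat_lit 0x46⟩ (.nil) (.nil)
def t14_4907 : Tr := .node ⟨nat_lit 7, nat_lit 0x1000200040, nat_lit 0x1121300, nat_lit 1, nat_lit 4, nat_lit 0x4b⟩ (.nil) (.nil)
def t14_13099 : Tr := .node ⟨nat_lit 4, nat_lit 0xc000c, nat_lit 0x3030, nat_lit 4, nat_lit 3, nat_lit 0x45⟩ (.nil) (.nil)
def t14_2859 : Tr := .node ⟨nat_lit 8, nat_lit 0x80008800c000a0, nat_lit 0x13210, nat_lit 0, nat_lit 4, nat_lit 0x49⟩ (.nil) (.nil)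
def t14_11051 : Tr := .node ⟨nat_lit 6, nat_lit 0x300038, nat_lit 0x111102, nat_lit 0, nat_lit 4, nat_lit 0x47⟩ (.nil) (.nil)
def t14_6955 : Tr := .node ⟨nat_lit 7, nat_lit 0x200040003000480068, nat_lit 0x1211102, nat_lit 0, nat_lit 4, nat_lit 0x47⟩ (.nil) (.nil)
def t14_15147 : Tr := .node ⟨nat_lit 8, nat_lit 0x4000800080006000600090, nat_lit 0x1111101, nat_lit 0, nat_lit 4, nat_lit 0x47⟩ (.nil) (.nil)
def t14_1835 : Tr := .node ⟨nat_lit 6, nat_lit 0x2000100010, nat_lit 0x2011, nat_lit 4, nat_lit 4, nat_lit 0x48⟩ (.nil) (.nil)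
def t14_10027 : Tr := .node ⟨nat_lit 7, nat_lit 0x10004000600060, nat_lit 0x100220, nat_lit 4, nat_lit 4, nat_lit 0x48⟩ (.nil) (.nil)
def t14_5931 : Tr := .node ⟨nat_lit 0xa, nat_lit 0x20002000100021002200300, nat_lit 0x11111000, nat_lit 1, nat_lit 4, nat_lit 0x4a⟩ (.nil) (.nil)
def t14_14123 : Tr := .node ⟨nat_lit 6, nat_lit 0x10002000200024, nat_lit 0x1101, nat_lit 4, nat_lit 4, nat_lit 0x46⟩ (.nil) (.nil)
def t14_3883 : Tr := .node ⟨nat_lit 7, nat_lit 0x40001000500068, nat_lit 0x202101, nat_lit 0, nat_lit 4, nat_lit 0x47⟩ (.nil) (.nil)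
def t14_12075 : Tr := .node ⟨nat_lit 8, nat_lit 0x4000800080009000d000c8, nat_lit 0x10310001, nat_lit 1, nat_lit 4, nat_lit 0x47⟩ (.nil) (.nil)
def t14_7979 : Tr := .node ⟨nat_lit 8, nat_lit 0x4000800080008800880090, nat_lit 0x1111210, nat_lit 2, nat_lit 4, nat_lit 0x48⟩ (.nil) (.nil)
def t9_299 : Tr := .node ⟨nat_lit 4, nat_lit 0, nat_lit 0x3222, nat_lit 2, nat_lit 3, nat_lit 0x49⟩ (.node ⟨nat_lit 6, nat_lit 0x2000200010, nat_lit 0x32112, nat_lit 0, nat_lit 4, nat_lit 0x4a⟩ (.node ⟨nat_lit 6, nat_lit 0x20, nat_lit 0x131111, nat_lit 5, nat_lit 4, nat_lit 0x4c⟩ (.node ⟨nat_lit 8, nat_lit 0x400080002000880088, nat_lit 0x10001022, nat_lit 0, nat_lit 4, nat_lit 0x48⟩ (.node ⟨nat_lit 7, nat_lit 0x10001000200040, nat_lit 0x1122110, nat_lit 0, nat_lit 4, nat_lit 0x4a⟩ (t14_299) (t14_8491)) (.node ⟨nat_lit 7, nat_lit 0x40004000200070, nat_lit 0x111103,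 nat_lit 3, nat_lit 4, nat_lit 0x48⟩ (t14_4395) (t14_12587))) (.node ⟨nat_lit 6, nat_lit 0x2000080030, nat_lit 0x202222, nat_lit 0, nat_lit 4, nat_lit 0x49⟩ (.node ⟨nat_lit 7, nat_lit 0x40001000600070, nat_lit 0x12313, nat_lit 0, nat_lit 4, nat_lit 0x47⟩ (t14_2347) (t14_10539)) (.node ⟨nat_lit 7, nat_lit 0x10006000600060, nat_lit 0x21310, nat_lit 1, nat_lit 4, nat_lit 0x47⟩ (t14_6443) (t14_14635)))) (.node ⟨nat_lit 6, nat_lit 0x1000280034, nat_lit 0x121101, nat_lit 1, nat_lit 4, nat_lit 0x47⟩ (.node ⟨nat_lit 6, nat_lit 0x2000080030, nat_lit 0x122112, nat_lit 1, nat_lit 4, nat_lit 0x49⟩ (.node ⟨nat_lit 7, nat_lit 0x200040004800480060, nat_lit 0x1000003, nat_lit 5, nat_lit 4, nat_lit 0x47⟩ (t14_1323) (t14_9515)) (.node ⟨nat_lit 7, nat_lit 0x40002000500060, nat_lit 0x1012022, nat_lit 0, nat_lit 3, nat_lit 0x46⟩ (t14_5419) (t14_13611))) (.node ⟨nat_lit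 6, nat_lit 0x200030, nat_lit 0x2210, nat_lit 4, nat_lit 4, nat_lit 0x49⟩ (.node ⟨nat_lit 6, nat_lit 0x2000200034, nat_lit 0x102301, nat_lit 3, nat_lit 4, nat_lit 0x49⟩ (t14_3371) (t14_11563)) (.node ⟨nat_lit 7, nat_lit 0x4000100060, nat_lit 0x1112102, nat_lit 2, nat_lit 4, nat_lit 0x4a⟩ (t14_7467) (.nil))))) (.node ⟨nat_lit 4, nat_lit 8, nat_lit 0x1311, nat_lit 8, nat_lit 4, nat_lit 0x49⟩ (.node ⟨nat_lit 7, nat_lit 0x200040004000480030, nat_lit 0x222001, nat_lit 0, nat_lit 4, nat_lit 0x48⟩ (.node ⟨nat_lit 7, nat_lit 0x4000200010, nat_lit 0x11001, nat_lit 1, nat_lit 4, nat_lit 0x48⟩ (.node ⟨nat_lit 6, nat_lit 0x80030, nat_lit 0x212202, nat_lit 0, nat_lit 4, nat_lit 0x4a⟩ (t14_811) (t14_9003)) (.node ⟨nat_lit 7, nat_lit 0x400060, nat_lit 0x1122102, nat_lit 0, nat_lit 4, nat_lit 0x4b⟩ (t14_4907) (t14_13099))) (.node ⟨nat_lit 6, nat_lit 0x300038, nat_lit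 0x101112, nat_lit 0, nat_lit 4, nat_lit 0x46⟩ (.node ⟨nat_lit 6, nat_lit 0x200032, nat_lit 0x21123, nat_lit 0, nat_lit 4, nat_lit 0x48⟩ (t14_2859) (t14_11051)) (.node ⟨nat_lit 8, nat_lit 0x4000800060009000c000d0, nat_lit 0x10120120, nat_lit 0, nat_lit 4, nat_lit 0x47⟩ (t14_6955) (t14_15147)))) (.node ⟨nat_lit 6, nat_lit 0x200030, nat_lit 0x101121, nat_lit 0, nat_lit 3, nat_lit 0x47⟩ (.node ⟨nat_lit 7, nat_lit 0x40001000500060, nat_lit 0x212011, nat_lit 1, nat_lit 4, nat_lit 0x48⟩ (.node ⟨nat_lit 4, nat_lit 0x8000c, nat_lit 0x101, nat_lit 7, nat_lit 4, nat_lit 0x45⟩ (t14_1835) (t14_10027)) (.node ⟨nat_lit 7, nat_lit 0x4000600050, nat_lit 0x22202, nat_lit 0, nat_lit 4, nat_lit 0x49⟩ (t14_5931) (t14_14123))) (.node ⟨nat_lit 7, nat_lit 0x4000100060, nat_lit 0x12310, nat_lit 0, nat_lit 4, nat_lit 0x49⟩ (.node ⟨nat_lit 7, nat_lit 0x10006000600060, nat_lit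 0x20300, nat_lit 0, nat_lit 3, nat_lit 0x45⟩ (t14_3883) (t14_12075)) (.node ⟨nat_lit 7, nat_lit 0x1000400060, nat_lit 0x1001021, nat_lit 3, nat_lit 4, nat_lit 0x49⟩ (t14_7979) (.nil)))))
def t14_171 : Tr := .node ⟨nat_lit 7, nat_lit 0x2000400060, nat_lit 0x1021121, nat_lit 2, nat_lit 4, nat_lit 0x4a⟩ (.nil) (.nil)
def t14_8363 : Tr := .node ⟨nat_lit 8, nat_lit 0x200080008400c0, nat_lit 0x10230, nat_lit 2, nat_lit 4, nat_lit 0x49⟩ (.nil) (.nil)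
def t14_4267 : Tr := .node ⟨nat_lit 7, nat_lit 0x2000400062, nat_lit 0x2020101, nat_lit 1, nat_lit 4, nat_lit 0x49⟩ (.nil) (.nil)
def t14_12459 : Tr := .node ⟨nat_lit 8, nat_lit 0x80002000d000d000d0, nat_lit 0x10101310, nat_lit 0, nat_lit 4, nat_lit 0x46⟩ (.nil) (.nil)
def t14_2219 : Tr := .node ⟨nat_lit 7, nat_lit 0x200020002000400040, nat_lit 0x1022210, nat_lit 0, nat_lit 4, nat_lit 0x49⟩ (.nil) (.nil)
def t14_10411 : Tr := .node ⟨nat_lit 7, nat_lit 0x3000600050, nat_lit 0x101120, nat_lit 1, nat_lit 4, nat_lit 0x47⟩ (.nil) (.nil)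
def t14_6315 : Tr := .node ⟨nat_lit 6, nat_lit 0x2000100030, nat_lit 0x1031, nat_lit 2, nat_lit 4, nat_lit 0x47⟩ (.nil) (.nil)
def t14_14507 : Tr := .node ⟨nat_lit 9, nat_lit 0x20010001400180, nat_lit 0x1010210, nat_lit 1, nat_lit 4, nat_lit 0x4a⟩ (.nil) (.nil)
def t14_1195 : Tr := .node ⟨nat_lit 6, nat_lit 0x30, nat_lit 0x102001, nat_lit 0, nat_lit 4, nat_lit 0x48⟩ (.nil) (.nil)
def t14_9387 : Tr := .node ⟨nat_lit 8, nat_lit 0x400080008000800088, nat_lit 0x101221, nat_lit 3, nat_lit 4, nat_lit 0x4a⟩ (.nil) (.nil)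
def t14_5291 : Tr := .node ⟨nat_lit 6, nat_lit 0x200030, nat_lit 0x131120, nat_lit 1, nat_lit 4, nat_lit 0x4a⟩ (.nil) (.nil)
def t14_13483 : Tr := .node ⟨nat_lit 6, nat_lit 0x10002000200020, nat_lit 0x3100, nat_lit 4, nat_lit 4, nat_lit 0x47⟩ (.nil) (.nil)
def t14_3243 : Tr := .node ⟨nat_lit 8, nat_lit 0x4000400080002000c0, nat_lit 0x111102, nat_lit 0, nat_lit 4, nat_lit 0x48⟩ (.nil) (.nil)
def t14_11435 : Tr := .node ⟨nat_lit 6, nat_lit 0x2000100024, nat_lit 0x11100, nat_lit 0, nat_lit 4, nat_lit 0x46⟩ (.nil) (.nil)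
def t14_7339 : Tr := .node ⟨nat_lit 8, nat_lit 0x200020008000c0, nat_lit 0x10020011, nat_lit 3, nat_lit 4, nat_lit 0x4a⟩ (.nil) (.nil)
def t14_15531 : Tr := .node ⟨nat_lit 9, nat_lit 0x8000400100, nat_lit 0x100211001, nat_lit 3, nat_lit 4, nat_lit 0x4d⟩ (.nil) (.nil)
def t14_683 : Tr := .node ⟨nat_lit 6, nat_lit 0x800200030, nat_lit 0x32, nat_lit 1, nat_lit 4, nat_lit 0x46⟩ (.nil) (.nil)
def t14_8875 : Tr := .node ⟨nat_lit 8, nat_lit 0x400080008000880088, nat_lit 0x1111021, nat_lit 2, nat_lit 4, nat_lit 0x49⟩ (.nil) (.nil)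
def t14_4779 : Tr := .node ⟨nat_lit 7, nat_lit 0x10001000600050, nat_lit 0x1002012, nat_lit 4, nat_lit 4, nat_lit 0x48⟩ (.nil) (.nil)
def t14_12971 : Tr := .node ⟨nat_lit 7, nat_lit 0x40001000100068, nat_lit 0x3101, nat_lit 1, nat_lit 4, nat_lit 0x47⟩ (.nil) (.nil)
def t14_2731 : Tr := .node ⟨nat_lit 6, nat_lit 0x10002000300030, nat_lit 0x1220, nat_lit 3, nat_lit 4, nat_lit 0x46⟩ (.nil) (.nil)
def t14_10923 : Tr := .node ⟨nat_lit 8, nat_lit 0x4000c000c000a000d0, nat_lit 0x12202, nat_lit 0, nat_lit 4, nat_lit 0x46⟩ (.nil) (.nil)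
def t14_6827 : Tr := .node ⟨nat_lit 6, nat_lit 0x200030, nat_lit 0x11130, nat_lit 4, nat_lit 4, nat_lit 0x49⟩ (.nil) (.nil)
def t14_15019 : Tr := .node ⟨nat_lit 9, nat_lit 0x100010001000080008001400140, nat_lit 0x1101011, nat_lit 3, nat_lit 4, nat_lit 0x49⟩ (.nil) (.nil)
def t14_1707 : Tr := .node ⟨nat_lit 7, nat_lit 0x20006000500068, nat_lit 0x12320, nat_lit 0, nat_lit 4, nat_lit 0x46⟩ (.nil) (.nil)
def t14_9899 : Tr := .node ⟨nat_lit 5, nat_lit 0x1000180018, nat_lit 0x320, nat_lit 0xa, nat_lit 4, nat_lit 0x47⟩ (.nil) (.nil)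
def t14_5803 : Tr := .node ⟨nat_lit 7, nat_lit 0x4000600064, nat_lit 0x111211, nat_lit 1, nat_lit 4, nat_lit 0x48⟩ (.nil) (.nil)
def t14_13995 : Tr := .node ⟨nat_lit 6, nat_lit 0x2000100010, nat_lit 0x1221, nat_lit 3, nat_lit 4, nat_lit 0x48⟩ (.nil) (.nil)
def t14_3755 : Tr := .node ⟨nat_lit 8, nat_lit 0x8000400040004000a000d0, nat_lit 0x10221000, nat_lit 0, nat_lit 4, nat_lit 0x48⟩ (.nil) (.nil)
def t14_11947 : Tr := .node ⟨nat_lit 8, nat_lit 0x400080008000200088, nat_lit 0x30, nat_lit 3, nat_lit 4, nat_lit 0x48⟩ (.nil) (.nil)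
def t14_7851 : Tr := .node ⟨nat_lit 9, nat_lit 0x8001000100004001080110, nat_lit 0x11010, nat_lit 1, nat_lit 4, nat_lit 0x48⟩ (.nil) (.nil)
def t9_171 : Tr := .node ⟨nat_lit 5, nat_lit 0, nat_lit 0x32211, nat_lit 1, nat_lit 4, nat_lit 0x4b⟩ (.node ⟨nat_lit 7, nat_lit 0x40002000680058, nat_lit 0x3011012, nat_lit 1, nat_lit 4, nat_lit 0x48⟩ (.node ⟨nat_lit 7, nat_lit 0x4000100060, nat_lit 0x3002, nat_lit 0, nat_lit 4, nat_lit 0x48⟩ (.node ⟨nat_lit 5, nat_lit 0x80010, nat_lit 0x200, nat_lit 2, nat_lit 4, nat_lit 0x45⟩ (.node ⟨nat_lit 6, nat_lit 0x10001000200022, nat_lit 0x212130, nat_lit 0, nat_lit 4, nat_lit 0x49⟩ (t14_171) (t14_8363)) (.node ⟨nat_lit 4, nat_lit 0x80004, nat_lit 0x220, nat_lit 5, nat_lit 4, nat_lit 0x46⟩ (t14_4267) (t14_12459))) (.node ⟨nat_lit 6, nat_lit 0x1000200022, nat_lit 0x221320, nat_lit 0, nat_lit 4, nat_lit 0x4a⟩ (.node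 ⟨nat_lit 6, nat_lit 0x10002000300034, nat_lit 0x2103, nat_lit 3, nat_lit 4, nat_lit 0x45⟩ (t14_2219) (t14_10411)) (.node ⟨nat_lit 5, nat_lit 0x800100018, nat_lit 0x1232, nat_lit 4, nat_lit 4, nat_lit 0x47⟩ (t14_6315) (t14_14507)))) (.node ⟨nat_lit 6, nat_lit 0x800100020, nat_lit 0x112111, nat_lit 0, nat_lit 4, nat_lit 0x48⟩ (.node ⟨nat_lit 5, nat_lit 0x100018, nat_lit 0x1120, nat_lit 1, nat_lit 3, nat_lit 0x45⟩ (.node ⟨nat_lit 6, nat_lit 0x2000080030, nat_lit 0x11240, nat_lit 0, nat_lit 4, nat_lit 0x48⟩ (t14_1195) (t14_9387)) (.node ⟨nat_lit 7, nat_lit 0x2000500060, nat_lit 0x1101212, nat_lit 1, nat_lit 4, nat_lit 0x49⟩ (t14_5291) (t14_13483))) (.node ⟨nat_lit 3, nat_lit 0x40004, nat_lit 0x120, nat_lit 7, nat_lit 4, nat_lit 0x45⟩ (.node ⟨nat_lit 3, nat_lit 6, nat_lit 0x101, nat_lit 8, nat_lit 3, nat_lit 0x44⟩ (t14_3243) (t14_11435)) (.node ⟨nat_lit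 7, nat_lit 0x20004000500064, nat_lit 0x1101102, nat_lit 1, nat_lit 4, nat_lit 0x47⟩ (t14_7339) (t14_15531))))) (.node ⟨nat_lit 6, nat_lit 0x200010, nat_lit 0x13101, nat_lit 0, nat_lit 4, nat_lit 0x49⟩ (.node ⟨nat_lit 7, nat_lit 0x4000200010, nat_lit 0x121012, nat_lit 0, nat_lit 4, nat_lit 0x4a⟩ (.node ⟨nat_lit 7, nat_lit 0x20002000400042, nat_lit 0x2011000, nat_lit 1, nat_lit 4, nat_lit 0x48⟩ (.node ⟨nat_lit 6, nat_lit 0x200010, nat_lit 0x121030, nat_lit 0, nat_lit 4, nat_lit 0x4a⟩ (t14_683) (t14_8875)) (.node ⟨nat_lit 7, nat_lit 0x20002000500068, nat_lit 0x102020, nat_lit 1, nat_lit 4, nat_lit 0x47⟩ (t14_4779) (t14_12971))) (.node ⟨nat_lit 4, nat_lit 0x8000c, nat_lit 0x111, nat_lit 6, nat_lit 4, nat_lit 0x45⟩ (.node ⟨nat_lit 6, nat_lit 0x2000100010, nat_lit 0x211030, nat_lit 0, nat_lit 3, nat_lit 0x48⟩ (t14_2731) (t14_10923)) (.node ⟨nat_lit 5,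 nat_lit 0x100008, nat_lit 0x10122, nat_lit 2, nat_lit 3, nat_lit 0x46⟩ (t14_6827) (t14_15019)))) (.node ⟨nat_lit 6, nat_lit 0x200020, nat_lit 0x111131, nat_lit 0, nat_lit 4, nat_lit 0x4a⟩ (.node ⟨nat_lit 5, nat_lit 0x100018, nat_lit 0x2221, nat_lit 1, nat_lit 3, nat_lit 0x46⟩ (.node ⟨nat_lit 6, nat_lit 0x800080030, nat_lit 0x100003, nat_lit 1, nat_lit 4, nat_lit 0x46⟩ (t14_1707) (t14_9899)) (.node ⟨nat_lit 6, nat_lit 0x200030, nat_lit 0x12230, nat_lit 0, nat_lit 4, nat_lit 0x49⟩ (t14_5803) (t14_13995))) (.node ⟨nat_lit 5, nat_lit 0x18, nat_lit 0x200, nat_lit 0, nat_lit 4, nat_lit 0x45⟩ (.node ⟨nat_lit 5, nat_lit 0x140018, nat_lit 0x10003, nat_lit 2, nat_lit 4, nat_lit 0x45⟩ (t14_3755) (t14_11947)) (.node ⟨nat_lit 6, nat_lit 0x20002000380038, nat_lit 0x110121, nat_lit 7, nat_lit 4, nat_lit 0x47⟩ (t14_7851) (.nil)))))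
def t14_427 : Tr := .node ⟨nat_lit 6, nat_lit 0x2000200020, nat_lit 0x111211, nat_lit 4, nat_lit 4, nat_lit 0x4a⟩ (.nil) (.nil)
def t14_8619 : Tr := .node ⟨nat_lit 8, nat_lit 0x40008000800088006000d0, nat_lit 0x110010, nat_lit 0, nat_lit 4, nat_lit 0x45⟩ (.nil) (.nil)
def t14_4523 : Tr := .node ⟨nat_lit 7, nat_lit 0x40004000200048, nat_lit 0x1121201, nat_lit 3, nat_lit 4, nat_lit 0x4a⟩ (.nil) (.nil)
def t14_12715 : Tr := .node ⟨nat_lit 7, nat_lit 0x40001000100060, nat_lit 0x1003200, nat_lit 0, nat_lit 4, nat_lit 0x48⟩ (.nil) (.nil)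
def t14_2475 : Tr := .node ⟨nat_lit 8, nat_lit 0xc000c000a0, nat_lit 0x121210, nat_lit 0, nat_lit 4, nat_lit 0x49⟩ (.nil) (.nil)
def t14_10667 : Tr := .node ⟨nat_lit 5, nat_lit 0x100018001c, nat_lit 0x10002, nat_lit 6, nat_lit 4, nat_lit 0x45⟩ (.nil) (.nil)
def t14_6571 : Tr := .node ⟨nat_lit 7, nat_lit 0x20001000400062, nat_lit 0x1011100, nat_lit 1, nat_lit 4, nat_lit 0x47⟩ (.nil) (.nil)
def t14_14763 : Tr := .node ⟨nat_lit 8, nat_lit 0x2000c000a00030, nat_lit 0x10011121, nat_lit 1, nat_lit 4, nat_lit 0x48⟩ (.nil) (.nil)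
def t14_1451 : Tr := .node ⟨nat_lit 9, nat_lit 0x100008000800090014001a001c0, nat_lit 0x100121011, nat_lit 0, nat_lit 4, nat_lit 0x47⟩ (.nil) (.nil)
def t14_9643 : Tr := .node ⟨nat_lit 7, nat_lit 0x40003000500068, nat_lit 0x11220, nat_lit 1, nat_lit 4, nat_lit 0x46⟩ (.nil) (.nil)
def t14_5547 : Tr := .node ⟨nat_lit 7, nat_lit 0x4000200020, nat_lit 0x1011031, nat_lit 1, nat_lit 4, nat_lit 0x4a⟩ (.nil) (.nil)
def t14_13739 : Tr := .node ⟨nat_lit 7, nat_lit 0x20004000100060, nat_lit 0x2110, nat_lit 2, nat_lit 4, nat_lit 0x47⟩ (.nil) (.nil)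
def t14_3499 : Tr := .node ⟨nat_lit 6, nat_lit 0x3000280038, nat_lit 0x1012, nat_lit 3, nat_lit 4, nat_lit 0x45⟩ (.nil) (.nil)
def t14_11691 : Tr := .node ⟨nat_lit 9, nat_lit 0x8000800100011001a001a001c0, nat_lit 0x11000102, nat_lit 1, nat_lit 4, nat_lit 0x46⟩ (.nil) (.nil)
def t14_7595 : Tr := .node ⟨nat_lit 6, nat_lit 0x2000100038, nat_lit 0x11, nat_lit 0, nat_lit 4, nat_lit 0x44⟩ (.nil) (.nil)
def t14_939 : Tr := .node ⟨nat_lit 8, nat_lit 0x400040004000200080, nat_lit 0x10122110, nat_lit 0, nat_lit 4, nat_lit 0x4a⟩ (.nil) (.nil)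
def t14_9131 : Tr := .node ⟨nat_lit 9, nat_lit 0x4001000100010801800190, nat_lit 0x10011121, nat_lit 0, nat_lit 4, nat_lit 0x48⟩ (.nil) (.nil)
def t14_5035 : Tr := .node ⟨nat_lit 7, nat_lit 0x20006000500070, nat_lit 0x11141, nat_lit 0, nat_lit 4, nat_lit 0x46⟩ (.nil) (.nil)
def t14_13227 : Tr := .node ⟨nat_lit 8, nat_lit 0x800040004000c4, nat_lit 0x113000, nat_lit 0, nat_lit 4, nat_lit 0x49⟩ (.nil) (.nil)
def t14_2987 : Tr := .node ⟨nat_lit 7, nat_lit 0x20004000400010, nat_lit 0x112200, nat_lit 0, nat_lit 3, nat_lit 0x47⟩ (.nil) (.nil)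
def t14_11179 : Tr := .node ⟨nat_lit 6, nat_lit 0x1000280034, nat_lit 0x11101, nat_lit 2, nat_lit 4, nat_lit 0x46⟩ (.nil) (.nil)
def t14_7083 : Tr := .node ⟨nat_lit 8, nat_lit 0x800040009000600060, nat_lit 0x10112011, nat_lit 0, nat_lit 4, nat_lit 0x48⟩ (.nil) (.nil)
def t14_15275 : Tr := .node ⟨nat_lit 7, nat_lit 0x40004800300070, nat_lit 0x1102112, nat_lit 0, nat_lit 4, nat_lit 0x47⟩ (.nil) (.nil)
def t14_1963 : Tr := .node ⟨nat_lit 5, nat_lit 0x800100018, nat_lit 0x20222, nat_lit 2, nat_lit 4, nat_lit 0x47⟩ (.nil) (.nil)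
def t14_10155 : Tr := .node ⟨nat_lit 7, nat_lit 0x1800500060, nat_lit 0x102, nat_lit 0, nat_lit 4, nat_lit 0x45⟩ (.nil) (.nil)
def t14_6059 : Tr := .node ⟨nat_lit 8, nat_lit 0x80008400c0, nat_lit 0x1211002, nat_lit 0, nat_lit 4, nat_lit 0x4a⟩ (.nil) (.nil)
def t14_14251 : Tr := .node ⟨nat_lit 7, nat_lit 0x30003000500060, nat_lit 0x1001101, nat_lit 0, nat_lit 4, nat_lit 0x45⟩ (.nil) (.nil)
def t14_4011 : Tr := .node ⟨nat_lit 6, nat_lit 0x800300030, nat_lit 0x110011, nat_lit 0, nat_lit 4, nat_lit 0x46⟩ (.nil) (.nil)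
def t14_12203 : Tr := .node ⟨nat_lit 8, nat_lit 0x800080004000a000c000e0, nat_lit 0x101120, nat_lit 3, nat_lit 4, nat_lit 0x47⟩ (.nil) (.nil)
def t14_8107 : Tr := .node ⟨nat_lit 5, nat_lit 0x800100012, nat_lit 0x1114, nat_lit 2, nat_lit 4, nat_lit 0x46⟩ (.nil) (.nil)
def t9_427 : Tr := .node ⟨nat_lit 6, nat_lit 0x30, nat_lit 0x213111, nat_lit 1, nat_lit 4, nat_lit 0x4b⟩ (.node ⟨nat_lit 5, nat_lit 0x80010, nat_lit 0x10331, nat_lit 0, nat_lit 4, nat_lit 0x48⟩ (.node ⟨nat_lit 4, nat_lit 8, nat_lit 0x2210, nat_lit 2, nat_lit 3, nat_lit 0x47⟩ (.node ⟨nat_lit 6, nat_lit 0x300028, nat_lit 0x100121, nat_lit 0, nat_lit 4, nat_lit 0x46⟩ (.node ⟨nat_lit 6, nat_lit 0x2000300030, nat_lit 0x2020, nat_lit 1, nat_lit 4, nat_lit 0x46⟩ (t14_427) (t14_8619)) (.node ⟨nat_lit 5, nat_lit 0x100018, nat_lit 0x12122, nat_lit 5, nat_lit 4, nat_lit 0x49⟩ (t14_4523) (t14_12715)))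 (.node ⟨nat_lit 3, nat_lit 0x40004, nat_lit 0x121, nat_lit 0xc, nat_lit 4, nat_lit 0x47⟩ (.node ⟨nat_lit 6, nat_lit 0x800300030, nat_lit 0x101110, nat_lit 0, nat_lit 3, nat_lit 0x45⟩ (t14_2475) (t14_10667)) (.node ⟨nat_lit 5, nat_lit 0x800100018, nat_lit 0x1231, nat_lit 4, nat_lit 4, nat_lit 0x47⟩ (t14_6571) (t14_14763)))) (.node ⟨nat_lit 6, nat_lit 0x800280030, nat_lit 0x20121, nat_lit 0, nat_lit 4, nat_lit 0x46⟩ (.node ⟨nat_lit 7, nat_lit 0x40004000480048, nat_lit 0x2210110, nat_lit 3, nat_lit 4, nat_lit 0x4a⟩ (.node ⟨nat_lit 7, nat_lit 0x40004000200020, nat_lit 0x11000, nat_lit 1, nat_lit 4, nat_lit 0x47⟩ (t14_1451) (t14_9643)) (.node ⟨nat_lit 5, nat_lit 0x100018, nat_lit 0x11312, nat_lit 6, nat_lit 4, nat_lit 0x49⟩ (t14_5547) (t14_13739))) (.node ⟨nat_lit 7, nat_lit 0x4000500060, nat_lit 0x111211, nat_lit 0, nat_lit 4, nat_lit 0x48⟩ (.node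 ⟨nat_lit 7, nat_lit 0x5000300060, nat_lit 0x112030, nat_lit 0, nat_lit 4, nat_lit 0x48⟩ (t14_3499) (t14_11691)) (.node ⟨nat_lit 8, nat_lit 0x800010002000c0, nat_lit 0x11112001, nat_lit 1, nat_lit 4, nat_lit 0x4a⟩ (t14_7595) (.nil))))) (.node ⟨nat_lit 4, nat_lit 0xc, nat_lit 0x3020, nat_lit 3, nat_lit 4, nat_lit 0x47⟩ (.node ⟨nat_lit 6, nat_lit 0x80030, nat_lit 0x112211, nat_lit 0, nat_lit 4, nat_lit 0x49⟩ (.node ⟨nat_lit 5, nat_lit 0x1000080018, nat_lit 0x11112, nat_lit 5, nat_lit 4, nat_lit 0x47⟩ (.node ⟨nat_lit 7, nat_lit 0x40, nat_lit 0x2111110, nat_lit 4, nat_lit 4, nat_lit 0x4d⟩ (t14_939) (t14_9131)) (.node ⟨nat_lit 7, nat_lit 0x2000400042, nat_lit 0x1022020, nat_lit 1, nat_lit 4, nat_lit 0x4a⟩ (t14_5035) (t14_13227))) (.node ⟨nat_lit 5, nat_lit 0x100018, nat_lit 0x11220, nat_lit 4, nat_lit 4, nat_lit 0x48⟩ (.node ⟨nat_lit 6, nat_lit 0x30,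 nat_lit 0x111112, nat_lit 3, nat_lit 4, nat_lit 0x4a⟩ (t14_2987) (t14_11179)) (.node ⟨nat_lit 8, nat_lit 0x800080002000c000d0, nat_lit 0x1110122, nat_lit 0, nat_lit 4, nat_lit 0x48⟩ (t14_7083) (t14_15275)))) (.node ⟨nat_lit 6, nat_lit 0x2000080010, nat_lit 0x12002, nat_lit 1, nat_lit 4, nat_lit 0x48⟩ (.node ⟨nat_lit 8, nat_lit 0x80008800c00060, nat_lit 0x10211111, nat_lit 0, nat_lit 4, nat_lit 0x49⟩ (.node ⟨nat_lit 6, nat_lit 0x1000200038, nat_lit 0x11103, nat_lit 4, nat_lit 4, nat_lit 0x47⟩ (t14_1963) (t14_10155)) (.node ⟨nat_lit 7, nat_lit 0x5000500060, nat_lit 0x202002, nat_lit 1, nat_lit 4, nat_lit 0x48⟩ (t14_6059) (t14_14251))) (.node ⟨nat_lit 7, nat_lit 0x40002000200020, nat_lit 0x30111, nat_lit 1, nat_lit 4, nat_lit 0x49⟩ (.node ⟨nat_lit 5, nat_lit 0x180014, nat_lit 0x102, nat_lit 3, nat_lit 4, nat_lit 0x45⟩ (t14_4011) (t14_12203)) (.node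 ⟨nat_lit 9, nat_lit 0x100010001000080008000880140, nat_lit 0x11201101, nat_lit 0, nat_lit 4, nat_lit 0x49⟩ (t14_8107) (.nil)))))
def t14_107 : Tr := .node ⟨nat_lit 7, nat_lit 0x1000500060, nat_lit 0x12111, nat_lit 1, nat_lit 4, nat_lit 0x48⟩ (.nil) (.nil)
def t14_8299 : Tr := .node ⟨nat_lit 7, nat_lit 0x20002000500068, nat_lit 0x2002, nat_lit 1, nat_lit 4, nat_lit 0x46⟩ (.nil) (.nil)
def t14_4203 : Tr := .node ⟨nat_lit 8, nat_lit 0x800080008000400090, nat_lit 0x1111110, nat_lit 4, nat_lit 4, nat_lit 0x4a⟩ (.nil) (.nil)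
def t14_12395 : Tr := .node ⟨nat_lit 6, nat_lit 0x1000280034, nat_lit 0x10020, nat_lit 0, nat_lit 4, nat_lit 0x44⟩ (.nil) (.nil)
def t14_2155 : Tr := .node ⟨nat_lit 7, nat_lit 0x40001000480060, nat_lit 0x112020, nat_lit 3, nat_lit 4, nat_lit 0x48⟩ (.nil) (.nil)
def t14_10347 : Tr := .node ⟨nat_lit 7, nat_lit 0x40004800500060, nat_lit 0x12020, nat_lit 6, nat_lit 4, nat_lit 0x48⟩ (.nil) (.nil)
def t14_6251 : Tr := .node ⟨nat_lit 4, nat_lit 0x80008, nat_lit 0x1111, nat_lit 7, nat_lit 3, nat_lit 0x46⟩ (.nil) (.nil)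
def t14_14443 : Tr := .node ⟨nat_lit 8, nat_lit 0x80008000400040004000a0, nat_lit 0x211110, nat_lit 0, nat_lit 4, nat_lit 0x48⟩ (.nil) (.nil)
def t14_1131 : Tr := .node ⟨nat_lit 5, nat_lit 0x40018, nat_lit 0x11031, nat_lit 4, nat_lit 4, nat_lit 0x47⟩ (.nil) (.nil)
def t14_9323 : Tr := .node ⟨nat_lit 6, nat_lit 0x1800280030, nat_lit 0x100210, nat_lit 2, nat_lit 4, nat_lit 0x45⟩ (.nil) (.nil)
def t14_5227 : Tr := .node ⟨nat_lit 8, nat_lit 0x80008000400040009000e0, nat_lit 0x21011, nat_lit 1, nat_lit 4, nat_lit 0x47⟩ (.nil) (.nil)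
def t14_13419 : Tr := .node ⟨nat_lit 7, nat_lit 0x10006000600050, nat_lit 0x3310, nat_lit 0, nat_lit 4, nat_lit 0x46⟩ (.nil) (.nil)
def t14_3179 : Tr := .node ⟨nat_lit 8, nat_lit 0x8000400090006000c8, nat_lit 0x10111012, nat_lit 0, nat_lit 4, nat_lit 0x47⟩ (.nil) (.nil)
def t14_11371 : Tr := .node ⟨nat_lit 7, nat_lit 0x1000400060, nat_lit 0x1010, nat_lit 3, nat_lit 3, nat_lit 0x47⟩ (.nil) (.nil)
def t14_7275 : Tr := .node ⟨nat_lit 7, nat_lit 0x20002000500060, nat_lit 0x1020012, nat_lit 1, nat_lit 4, nat_lit 0x48⟩ (.nil) (.nil)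
def t14_15467 : Tr := .node ⟨nat_lit 4, nat_lit 0x80008, nat_lit 0x110, nat_lit 0x14, nat_lit 4, nat_lit 0x49⟩ (.nil) (.nil)
def t14_619 : Tr := .node ⟨nat_lit 7, nat_lit 0x4000200060, nat_lit 0x21022, nat_lit 2, nat_lit 4, nat_lit 0x49⟩ (.nil) (.nil)
def t14_8811 : Tr := .node ⟨nat_lit 5, nat_lit 0x1000100014, nat_lit 0x2203, nat_lit 7, nat_lit 4, nat_lit 0x48⟩ (.nil) (.nil)
def t14_4715 : Tr := .node ⟨nat_lit 7, nat_lit 0x4000100060, nat_lit 0x110012, nat_lit 0, nat_lit 4, nat_lit 0x48⟩ (.nil) (.nil)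
def t14_12907 : Tr := .node ⟨nat_lit 8, nat_lit 0x800040008800c0, nat_lit 0x112000, nat_lit 2, nat_lit 4, nat_lit 0x49⟩ (.nil) (.nil)
def t14_2667 : Tr := .node ⟨nat_lit 7, nat_lit 0x10006000600060, nat_lit 0x10420, nat_lit 0, nat_lit 4, nat_lit 0x47⟩ (.nil) (.nil)
def t14_10859 : Tr := .node ⟨nat_lit 9, nat_lit 0x100010000800080008001400190, nat_lit 0x2011102, nat_lit 0, nat_lit 4, nat_lit 0x48⟩ (.nil) (.nil)
def t14_6763 : Tr := .node ⟨nat_lit 7, nat_lit 0x100060, nat_lit 0x2011110, nat_lit 0, nat_lit 4, nat_lit 0x4a⟩ (.nil) (.nil)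
def t14_14955 : Tr := .node ⟨nat_lit 7, nat_lit 0x40001000600070, nat_lit 0x101012, nat_lit 1, nat_lit 4, nat_lit 0x46⟩ (.nil) (.nil)
def t14_1643 : Tr := .node ⟨nat_lit 7, nat_lit 0x40002000600064, nat_lit 0x22120, nat_lit 1, nat_lit 4, nat_lit 0x47⟩ (.nil) (.nil)
def t14_9835 : Tr := .node ⟨nat_lit 8, nat_lit 0x8000a0006000c000d0, nat_lit 0x20022, nat_lit 0, nat_lit 4, nat_lit 0x46⟩ (.nil) (.nil)
def t14_5739 : Tr := .node ⟨nat_lit 7, nat_lit 0x4000440060, nat_lit 0x111202, nat_lit 2, nat_lit 4, nat_lit 0x49⟩ (.nil) (.nil)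
def t14_13931 : Tr := .node ⟨nat_lit 7, nat_lit 0x4000500064, nat_lit 0x10202, nat_lit 0, nat_lit 4, nat_lit 0x47⟩ (.nil) (.nil)
def t14_3691 : Tr := .node ⟨nat_lit 7, nat_lit 0x20006000500068, nat_lit 0x211021, nat_lit 0, nat_lit 4, nat_lit 0x47⟩ (.nil) (.nil)
def t14_11883 : Tr := .node ⟨nat_lit 5, nat_lit 0x100008, nat_lit 0x43, nat_lit 1, nat_lit 4, nat_lit 0x47⟩ (.nil) (.nil)
def t14_7787 : Tr := .node ⟨nat_lit 8, nat_lit 0x200080004000c0, nat_lit 0x10022, nat_lit 3, nat_lit 4, nat_lit 0x49⟩ (.nil) (.nil)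
def t9_107 : Tr := .node ⟨nat_lit 5, nat_lit 0x40018, nat_lit 0x11111, nat_lit 0, nat_lit 3, nat_lit 0x45⟩ (.node ⟨nat_lit 3, nat_lit 0x40004, nat_lit 0x232, nat_lit 7, nat_lit 3, nat_lit 0x46⟩ (.node ⟨nat_lit 6, nat_lit 0x300030, nat_lit 0x103220, nat_lit 0, nat_lit 4, nat_lit 0x49⟩ (.node ⟨nat_lit 7, nat_lit 0x40004800580068, nat_lit 0x2110011, nat_lit 1, nat_lit 4, nat_lit 0x47⟩ (.node ⟨nat_lit 7, nat_lit 0x400040004000200050, nat_lit 0x211021, nat_lit 4, nat_lit 4, nat_lit 0x49⟩ (t14_107) (t14_8299)) (.node ⟨nat_lit 6, nat_lit 0x1000200020, nat_lit 0x2200, nat_lit 0, nat_lit 4, nat_lit 0x47⟩ (t14_4203) (t14_12395))) (.node ⟨nat_lit 7, nat_lit 0x40001000100060, nat_lit 0x210111, nat_lit 0, nat_lit 4, nat_lit 0x48⟩ (.node ⟨nat_lit 6, nat_lit 0x2000100030, nat_lit 0x12031, nat_lit 3, nat_lit 3, nat_lit 0x47⟩ (t14_2155) (t14_10347)) (.node ⟨nat_lit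 7, nat_lit 0x1000500060, nat_lit 0x102212, nat_lit 0, nat_lit 4, nat_lit 0x48⟩ (t14_6251) (t14_14443)))) (.node ⟨nat_lit 6, nat_lit 0x200030, nat_lit 0x12202, nat_lit 2, nat_lit 4, nat_lit 0x49⟩ (.node ⟨nat_lit 3, nat_lit 6, nat_lit 0x211, nat_lit 0x11, nat_lit 4, nat_lit 0x48⟩ (.node ⟨nat_lit 7, nat_lit 0x10001000400060, nat_lit 0x111103, nat_lit 0, nat_lit 4, nat_lit 0x48⟩ (t14_1131) (t14_9323)) (.node ⟨nat_lit 7, nat_lit 0x5000500060, nat_lit 0x1102211, nat_lit 1, nat_lit 4, nat_lit 0x48⟩ (t14_5227) (t14_13419))) (.node ⟨nat_lit 7, nat_lit 0x4000200010, nat_lit 0x12000, nat_lit 6, nat_lit 4, nat_lit 0x4a⟩ (.node ⟨nat_lit 7, nat_lit 0x1000500060, nat_lit 0x1201003, nat_lit 1, nat_lit 4, nat_lit 0x49⟩ (t14_3179) (t14_11371)) (.node ⟨nat_lit 7, nat_lit 0x2000400042, nat_lit 0x1011012, nat_lit 2, nat_lit 4, nat_lit 0x49⟩ (t14_7275) (t14_15467)))))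 (.node ⟨nat_lit 3, nat_lit 6, nat_lit 0x211, nat_lit 2, nat_lit 3, nat_lit 0x44⟩ (.node ⟨nat_lit 6, nat_lit 0x2000100010, nat_lit 0x200220, nat_lit 0, nat_lit 4, nat_lit 0x48⟩ (.node ⟨nat_lit 6, nat_lit 0x200030, nat_lit 0x2120, nat_lit 2, nat_lit 4, nat_lit 0x48⟩ (.node ⟨nat_lit 7, nat_lit 0x4000440060, nat_lit 0x2011210, nat_lit 1, nat_lit 4, nat_lit 0x4a⟩ (t14_619) (t14_8811)) (.node ⟨nat_lit 7, nat_lit 0x40002000200064, nat_lit 0x1112201, nat_lit 1, nat_lit 4, nat_lit 0x49⟩ (t14_4715) (t14_12907))) (.node ⟨nat_lit 6, nat_lit 0x800300028, nat_lit 0x1112, nat_lit 2, nat_lit 4, nat_lit 0x46⟩ (.node ⟨nat_lit 8, nat_lit 0x4000800080008800e0, nat_lit 0x1210003, nat_lit 1, nat_lit 4, nat_lit 0x48⟩ (t14_2667) (t14_10859)) (.node ⟨nat_lit 6, nat_lit 0x300030, nat_lit 0x111122, nat_lit 2, nat_lit 3, nat_lit 0x47⟩ (t14_6763) (t14_14955)))) (.node ⟨nat_lit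 6, nat_lit 0x200032, nat_lit 0x201112, nat_lit 0, nat_lit 4, nat_lit 0x48⟩ (.node ⟨nat_lit 5, nat_lit 0x40018, nat_lit 0x20111, nat_lit 7, nat_lit 4, nat_lit 0x48⟩ (.node ⟨nat_lit 6, nat_lit 0x2000080030, nat_lit 0x101, nat_lit 1, nat_lit 4, nat_lit 0x45⟩ (t14_1643) (t14_9835)) (.node ⟨nat_lit 8, nat_lit 0x2000800040008800c4, nat_lit 0x12001210, nat_lit 1, nat_lit 4, nat_lit 0x49⟩ (t14_5739) (t14_13931))) (.node ⟨nat_lit 8, nat_lit 0x20001000c0, nat_lit 0x20001002, nat_lit 2, nat_lit 4, nat_lit 0x4a⟩ (.node ⟨nat_lit 7, nat_lit 0x20001000400062, nat_lit 0x1110000, nat_lit 0, nat_lit 4, nat_lit 0x47⟩ (t14_3691) (t14_11883)) (.node ⟨nat_lit 5, nat_lit 0x180018, nat_lit 0x11121, nat_lit 7, nat_lit 4, nat_lit 0x48⟩ (t14_7787) (.nil)))))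
def t14_363 : Tr := .node ⟨nat_lit 5, nat_lit 0x800100010, nat_lit 0x11322, nat_lit 0, nat_lit 3, nat_lit 0x46⟩ (.nil) (.nil)
def t14_8555 : Tr := .node ⟨nat_lit 8, nat_lit 0x200080008800c000c8, nat_lit 0x1202, nat_lit 0, nat_lit 4, nat_lit 0x46⟩ (.nil) (.nil)
def t14_4459 : Tr := .node ⟨nat_lit 7, nat_lit 0x200040004000480030, nat_lit 0x1121002, nat_lit 2, nat_lit 4, nat_lit 0x48⟩ (.nil) (.nil)
def t14_12651 : Tr := .node ⟨nat_lit 7, nat_lit 0x4000400060, nat_lit 0x11310, nat_lit 4, nat_lit 4, nat_lit 0x4a⟩ (.nil) (.nil)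
def t14_2411 : Tr := .node ⟨nat_lit 7, nat_lit 0x40003000500060, nat_lit 0x100202, nat_lit 1, nat_lit 4, nat_lit 0x46⟩ (.nil) (.nil)
def t14_10603 : Tr := .node ⟨nat_lit 4, nat_lit 0xc000c, nat_lit 0x22, nat_lit 6, nat_lit 4, nat_lit 0x44⟩ (.nil) (.nil)
def t14_6507 : Tr := .node ⟨nat_lit 6, nat_lit 0x20002c0034, nat_lit 0x111111, nat_lit 4, nat_lit 4, nat_lit 0x47⟩ (.nil) (.nil)
def t14_14699 : Tr := .node ⟨nat_lit 9, nat_lit 0x8001000100011000c001a001a0, nat_lit 0x1100111, nat_lit 2, nat_lit 4, nat_lit 0x46⟩ (.nil) (.nil)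
def t14_1387 : Tr := .node ⟨nat_lit 7, nat_lit 0x6000600060, nat_lit 0x21310, nat_lit 0, nat_lit 4, nat_lit 0x48⟩ (.nil) (.nil)
def t14_9579 : Tr := .node ⟨nat_lit 5, nat_lit 0x100018001c, nat_lit 0x220, nat_lit 5, nat_lit 4, nat_lit 0x45⟩ (.nil) (.nil)
def t14_5483 : Tr := .node ⟨nat_lit 7, nat_lit 0x4000440060, nat_lit 0x11311, nat_lit 2, nat_lit 4, nat_lit 0x49⟩ (.nil) (.nil)
def t14_13675 : Tr := .node ⟨nat_lit 7, nat_lit 0x20004000440030, nat_lit 0x2002100, nat_lit 2, nat_lit 4, nat_lit 0x48⟩ (.nil) (.nil)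
def t14_3435 : Tr := .node ⟨nat_lit 7, nat_lit 0x400020002000280050, nat_lit 0x2011010, nat_lit 0, nat_lit 4, nat_lit 0x47⟩ (.nil) (.nil)
def t14_11627 : Tr := .node ⟨nat_lit 7, nat_lit 0x200020004000400060, nat_lit 0x1010102, nat_lit 0, nat_lit 3, nat_lit 0x46⟩ (.nil) (.nil)
def t14_7531 : Tr := .node ⟨nat_lit 6, nat_lit 0x20001000300038, nat_lit 0x2031, nat_lit 5, nat_lit 4, nat_lit 0x46⟩ (.nil) (.nil)
def t14_875 : Tr := .node ⟨nat_lit 7, nat_lit 0x40001000480060, nat_lit 0x112120, nat_lit 3, nat_lit 4, nat_lit 0x48⟩ (.nil) (.nil)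
def t14_9067 : Tr := .node ⟨nat_lit 7, nat_lit 0x10005000600070, nat_lit 0x101122, nat_lit 2, nat_lit 4, nat_lit 0x46⟩ (.nil) (.nil)
def t14_4971 : Tr := .node ⟨nat_lit 5, nat_lit 0x800100018, nat_lit 0x10311, nat_lit 5, nat_lit 4, nat_lit 0x47⟩ (.nil) (.nil)
def t14_13163 : Tr := .node ⟨nat_lit 6, nat_lit 0x10002000340038, nat_lit 0x1030, nat_lit 4, nat_lit 4, nat_lit 0x44⟩ (.nil) (.nil)
def t14_2923 : Tr := .node ⟨nat_lit 7, nat_lit 0x20005000600060, nat_lit 0x11120, nat_lit 0, nat_lit 4, nat_lit 0x46⟩ (.nil) (.nil)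
def t14_11115 : Tr := .node ⟨nat_lit 7, nat_lit 0x40001000600060, nat_lit 0x11220, nat_lit 1, nat_lit 4, nat_lit 0x47⟩ (.nil) (.nil)
def t14_7019 : Tr := .node ⟨nat_lit 8, nat_lit 0x2000400080008000c0, nat_lit 0x10001211, nat_lit 1, nat_lit 4, nat_lit 0x49⟩ (.nil) (.nil)
def t14_15211 : Tr := .node ⟨nat_lit 8, nat_lit 0x800020009000b000d0, nat_lit 0x1010021, nat_lit 1, nat_lit 4, nat_lit 0x46⟩ (.nil) (.nil)
def t14_1899 : Tr := .node ⟨nat_lit 7, nat_lit 0x4000600050, nat_lit 0x121112, nat_lit 0, nat_lit 4, nat_lit 0x49⟩ (.nil) (.nil)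
def t14_10091 : Tr := .node ⟨nat_lit 6, nat_lit 0x10002000300030, nat_lit 0x3230, nat_lit 3, nat_lit 4, nat_lit 0x47⟩ (.nil) (.nil)
def t14_5995 : Tr := .node ⟨nat_lit 4, nat_lit 0xc, nat_lit 0x3120, nat_lit 3, nat_lit 4, nat_lit 0x48⟩ (.nil) (.nil)
def t14_14187 : Tr := .node ⟨nat_lit 5, nat_lit 0x18, nat_lit 0x31110, nat_lit 0, nat_lit 4, nat_lit 0x48⟩ (.nil) (.nil)
def t14_3947 : Tr := .node ⟨nat_lit 7, nat_lit 0x10002000500060, nat_lit 0x103001, nat_lit 1, nat_lit 4, nat_lit 0x47⟩ (.nil) (.nil)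
def t14_12139 : Tr := .node ⟨nat_lit 8, nat_lit 0x80009000c0006000d0, nat_lit 0x10011210, nat_lit 1, nat_lit 4, nat_lit 0x47⟩ (.nil) (.nil)
def t14_8043 : Tr := .node ⟨nat_lit 5, nat_lit 0x1000140018, nat_lit 0x1130, nat_lit 7, nat_lit 4, nat_lit 0x46⟩ (.nil) (.nil)
def t9_363 : Tr := .node ⟨nat_lit 4, nat_lit 0, nat_lit 0x3321, nat_lit 3, nat_lit 4, nat_lit 0x4b⟩ (.node ⟨nat_lit 7, nat_lit 0x40004000400020, nat_lit 0x132100, nat_lit 1, nat_lit 4, nat_lit 0x4a⟩ (.node ⟨nat_lit 3, nat_lit 4, nat_lit 0x221, nat_lit 5, nat_lit 4, nat_lit 0x46⟩ (.node ⟨nat_lit 6, nat_lit 0x1000080020, nat_lit 0x111220, nat_lit 0, nat_lit 4, nat_lit 0x48⟩ (.node ⟨nat_lit 5, nat_lit 0x1000080014, nat_lit 0x2212, nat_lit 5, nat_lit 4, nat_lit 0x47⟩ (t14_363) (t14_8555)) (.node ⟨nat_lit 7, nat_lit 0x200040004000300048, nat_lit 0x1122110, nat_lit 0, nat_lit 4, nat_lit 0x48⟩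 (t14_4459) (t14_12651))) (.node ⟨nat_lit 3, nat_lit 6, nat_lit 0x211, nat_lit 0xc, nat_lit 4, nat_lit 0x47⟩ (.node ⟨nat_lit 6, nat_lit 0x1000200032, nat_lit 0x101123, nat_lit 2, nat_lit 4, nat_lit 0x47⟩ (t14_2411) (t14_10603)) (.node ⟨nat_lit 5, nat_lit 0x18, nat_lit 0x210, nat_lit 3, nat_lit 4, nat_lit 0x47⟩ (t14_6507) (t14_14699)))) (.node ⟨nat_lit 6, nat_lit 0x2000240018, nat_lit 0x121022, nat_lit 0, nat_lit 4, nat_lit 0x47⟩ (.node ⟨nat_lit 6, nat_lit 0x100020, nat_lit 0x222210, nat_lit 1, nat_lit 4, nat_lit 0x4b⟩ (.node ⟨nat_lit 6, nat_lit 0x80030, nat_lit 0x112103, nat_lit 0, nat_lit 4, nat_lit 0x49⟩ (t14_1387) (t14_9579)) (.node ⟨nat_lit 9, nat_lit 0x800100010000400108, nat_lit 0x100201100, nat_lit 3, nat_lit 4, nat_lit 0x4b⟩ (t14_5483) (t14_13675))) (.node ⟨nat_lit 5, nat_lit 0x1c, nat_lit 0x30012, nat_lit 2, nat_lit 4, nat_lit 0x47⟩ (.node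 ⟨nat_lit 7, nat_lit 0x40001000600050, nat_lit 0x10003, nat_lit 5, nat_lit 4, nat_lit 0x48⟩ (t14_3435) (t14_11627)) (.node ⟨nat_lit 8, nat_lit 0x4000800080008000c8, nat_lit 0x1111112, nat_lit 1, nat_lit 4, nat_lit 0x49⟩ (t14_7531) (.nil))))) (.node ⟨nat_lit 4, nat_lit 0xc, nat_lit 0x2131, nat_lit 7, nat_lit 4, nat_lit 0x49⟩ (.node ⟨nat_lit 6, nat_lit 0x200010, nat_lit 0x12200, nat_lit 1, nat_lit 4, nat_lit 0x49⟩ (.node ⟨nat_lit 5, nat_lit 0x80010, nat_lit 0x11112, nat_lit 4, nat_lit 4, nat_lit 0x48⟩ (.node ⟨nat_lit 5, nat_lit 0x100018, nat_lit 0x12300, nat_lit 0, nat_lit 3, nat_lit 0x47⟩ (t14_875) (t14_9067)) (.node ⟨nat_lit 7, nat_lit 0x400060, nat_lit 0x121102, nat_lit 1, nat_lit 4, nat_lit 0x4a⟩ (t14_4971) (t14_13163))) (.node ⟨nat_lit 7, nat_lit 0x40001000480060, nat_lit 0x1102011, nat_lit 0, nat_lit 4, nat_lit 0x48⟩ (.node ⟨nat_lit 6, nat_lit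 0x200030, nat_lit 0x11113, nat_lit 2, nat_lit 4, nat_lit 0x48⟩ (t14_2923) (t14_11115)) (.node ⟨nat_lit 8, nat_lit 0x40004000400080008400e0, nat_lit 0x10120202, nat_lit 0, nat_lit 4, nat_lit 0x48⟩ (t14_7019) (t14_15211)))) (.node ⟨nat_lit 5, nat_lit 0x80010, nat_lit 0x10221, nat_lit 5, nat_lit 4, nat_lit 0x48⟩ (.node ⟨nat_lit 6, nat_lit 0x2000240018, nat_lit 0x121211, nat_lit 1, nat_lit 4, nat_lit 0x48⟩ (.node ⟨nat_lit 6, nat_lit 0x2000080030, nat_lit 0x111103, nat_lit 2, nat_lit 4, nat_lit 0x48⟩ (t14_1899) (t14_10091)) (.node ⟨nat_lit 8, nat_lit 0x800040009000c000c0, nat_lit 0x211020, nat_lit 0, nat_lit 4, nat_lit 0x48⟩ (t14_5995) (t14_14187))) (.node ⟨nat_lit 5, nat_lit 0x40018, nat_lit 0x103, nat_lit 0, nat_lit 4, nat_lit 0x44⟩ (.node ⟨nat_lit 7, nat_lit 0x10004000500060, nat_lit 0x12040, nat_lit 0, nat_lit 4, nat_lit 0x48⟩ (t14_3947) (t14_12139))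 (.node ⟨nat_lit 8, nat_lit 0x800010002000c0, nat_lit 0x10112111, nat_lit 1, nat_lit 4, nat_lit 0x4a⟩ (t14_8043) (.nil)))))
def t14_235 : Tr := .node ⟨nat_lit 3, nat_lit 6, nat_lit 0x331, nat_lit 2, nat_lit 3, nat_lit 0x47⟩ (.nil) (.nil)
def t14_8427 : Tr := .node ⟨nat_lit 3, nat_lit 6, nat_lit 3, nat_lit 6, nat_lit 4, nat_lit 0x43⟩ (.nil) (.nil)
def t14_4331 : Tr := .node ⟨nat_lit 7, nat_lit 0x40001000200070, nat_lit 0x1101002, nat_lit 0, nat_lit 4, nat_lit 0x47⟩ (.nil) (.nil)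
def t14_12523 : Tr := .node ⟨nat_lit 6, nat_lit 0x3000280018, nat_lit 0x101200, nat_lit 0, nat_lit 4, nat_lit 0x45⟩ (.nil) (.nil)
def t14_2283 : Tr := .node ⟨nat_lit 8, nat_lit 0x80008000800040, nat_lit 0x1112200, nat_lit 1, nat_lit 4, nat_lit 0x4b⟩ (.nil) (.nil)
def t14_10475 : Tr := .node ⟨nat_lit 8, nat_lit 0x2000800040008800c0, nat_lit 0x1122, nat_lit 0, nat_lit 4, nat_lit 0x47⟩ (.nil) (.nil)
def t14_6379 : Tr := .node ⟨nat_lit 2, nat_lit 2, nat_lit 2, nat_lit 8, nat_lit 4, nat_lit 0x43⟩ (.nil) (.nil)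
def t14_14571 : Tr := .node ⟨nat_lit 5, nat_lit 0x1000080008, nat_lit 0x10031, nat_lit 6, nat_lit 3, nat_lit 0x46⟩ (.nil) (.nil)
def t14_1259 : Tr := .node ⟨nat_lit 7, nat_lit 0x400040002000200050, nat_lit 0x102110, nat_lit 0, nat_lit 4, nat_lit 0x47⟩ (.nil) (.nil)
def t14_9451 : Tr := .node ⟨nat_lit 8, nat_lit 0x4000800090006000c000d0, nat_lit 0x10110021, nat_lit 3, nat_lit 4, nat_lit 0x47⟩ (.nil) (.nil)
def t14_5355 : Tr := .node ⟨nat_lit 6, nat_lit 0x2000080030, nat_lit 0x111300, nat_lit 1, nat_lit 4, nat_lit 0x48⟩ (.nil) (.nil)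
def t14_13547 : Tr := .node ⟨nat_lit 7, nat_lit 0x800100060, nat_lit 0x11002, nat_lit 2, nat_lit 4, nat_lit 0x48⟩ (.nil) (.nil)
def t14_3307 : Tr := .node ⟨nat_lit 7, nat_lit 0x20006000500068, nat_lit 0x112120, nat_lit 1, nat_lit 4, nat_lit 0x47⟩ (.nil) (.nil)
def t14_11499 : Tr := .node ⟨nat_lit 6, nat_lit 0x10002000240038, nat_lit 0x10110, nat_lit 3, nat_lit 4, nat_lit 0x45⟩ (.nil) (.nil)
def t14_7403 : Tr := .node ⟨nat_lit 8, nat_lit 0x800020002000c0, nat_lit 0x11022001, nat_lit 0, nat_lit 4, nat_lit 0x4a⟩ (.nil) (.nil)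
def t14_747 : Tr := .node ⟨nat_lit 6, nat_lit 0xc0030, nat_lit 0x100031, nat_lit 1, nat_lit 4, nat_lit 0x46⟩ (.nil) (.nil)
def t14_8939 : Tr := .node ⟨nat_lit 6, nat_lit 0x3000280038, nat_lit 0x140, nat_lit 2, nat_lit 4, nat_lit 0x45⟩ (.nil) (.nil)
def t14_4843 : Tr := .node ⟨nat_lit 9, nat_lit 0x400100008000200180, nat_lit 0x10100102, nat_lit 2, nat_lit 4, nat_lit 0x4a⟩ (.nil) (.nil)
def t14_13035 : Tr := .node ⟨nat_lit 6, nat_lit 0x20002000100010, nat_lit 0x200020, nat_lit 0, nat_lit 3, nat_lit 0x46⟩ (.nil) (.nil)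
def t14_2795 : Tr := .node ⟨nat_lit 6, nat_lit 0x1000200032, nat_lit 0x11020, nat_lit 3, nat_lit 4, nat_lit 0x47⟩ (.nil) (.nil)
def t14_10987 : Tr := .node ⟨nat_lit 8, nat_lit 0x2000c000c000a0, nat_lit 0x10102, nat_lit 1, nat_lit 4, nat_lit 0x47⟩ (.nil) (.nil)
def t14_6891 : Tr := .node ⟨nat_lit 7, nat_lit 0x400020, nat_lit 0x11101, nat_lit 3, nat_lit 4, nat_lit 0x4a⟩ (.nil) (.nil)
def t14_15083 : Tr := .node ⟨nat_lit 8, nat_lit 0x8000800040009000c0, nat_lit 0x1110111, nat_lit 3, nat_lit 4, nat_lit 0x49⟩ (.nil) (.nil)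
def t14_1771 : Tr := .node ⟨nat_lit 7, nat_lit 0x2000600050, nat_lit 0x1021012, nat_lit 1, nat_lit 4, nat_lit 0x49⟩ (.nil) (.nil)
def t14_9963 : Tr := .node ⟨nat_lit 7, nat_lit 0x6000600060, nat_lit 0x11330, nat_lit 2, nat_lit 4, nat_lit 0x48⟩ (.nil) (.nil)
def t14_5867 : Tr := .node ⟨nat_lit 7, nat_lit 0x4000180064, nat_lit 0x1100111, nat_lit 0, nat_lit 4, nat_lit 0x47⟩ (.nil) (.nil)
def t14_14059 : Tr := .node ⟨nat_lit 7, nat_lit 0x100060, nat_lit 0x11100, nat_lit 1, nat_lit 4, nat_lit 0x49⟩ (.nil) (.nil)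
def t14_3819 : Tr := .node ⟨nat_lit 7, nat_lit 0x40004000100060, nat_lit 0x211112, nat_lit 1, nat_lit 4, nat_lit 0x49⟩ (.nil) (.nil)
def t14_12011 : Tr := .node ⟨nat_lit 6, nat_lit 0x2000300034, nat_lit 0x11201, nat_lit 3, nat_lit 4, nat_lit 0x47⟩ (.nil) (.nil)
def t14_7915 : Tr := .node ⟨nat_lit 9, nat_lit 0x10001000080012001100110, nat_lit 0x1110031, nat_lit 0, nat_lit 4, nat_lit 0x49⟩ (.nil) (.nil)
def t9_235 : Tr := .node ⟨nat_lit 5, nat_lit 0x18, nat_lit 0x21312, nat_lit 0, nat_lit 4, nat_lit 0x49⟩ (.node ⟨nat_lit 3, nat_lit 6, nat_lit 0x102, nat_lit 5, nat_lit 3, nat_lit 0x43⟩ (.node ⟨nat_lit 6, nat_lit 0x200022, nat_lit 0x311111, nat_lit 0, nat_lit 4, nat_lit 0x4a⟩ (.node ⟨nat_lit 6, nat_lit 0x2000200010, nat_lit 0x111203, nat_lit 0, nat_lit 4, nat_lit 0x49⟩ (.node ⟨nat_lit 7, nat_lit 0x4000400020, nat_lit 0x211102, nat_lit 5, nat_lit 4,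 nat_lit 0x4b⟩ (t14_235) (t14_8427)) (.node ⟨nat_lit 7, nat_lit 0x20004000100060, nat_lit 0x1110103, nat_lit 0, nat_lit 3, nat_lit 0x47⟩ (t14_4331) (t14_12523))) (.node ⟨nat_lit 6, nat_lit 0x2000200010, nat_lit 0x121202, nat_lit 4, nat_lit 4, nat_lit 0x4a⟩ (.node ⟨nat_lit 6, nat_lit 0x200030, nat_lit 0x102131, nat_lit 2, nat_lit 3, nat_lit 0x48⟩ (t14_2283) (t14_10475)) (.node ⟨nat_lit 5, nat_lit 0x80010001c, nat_lit 0x12220, nat_lit 6, nat_lit 4, nat_lit 0x48⟩ (t14_6379) (t14_14571)))) (.node ⟨nat_lit 7, nat_lit 0, nat_lit 0x2111111, nat_lit 1, nat_lit 4, nat_lit 0x4d⟩ (.node ⟨nat_lit 6, nat_lit 0x80030, nat_lit 0x212211, nat_lit 1, nat_lit 4, nat_lit 0x4a⟩ (.node ⟨nat_lit 6, nat_lit 0x2000080010, nat_lit 0x11000, nat_lit 1, nat_lit 4, nat_lit 0x46⟩ (t14_1259) (t14_9451)) (.node ⟨nat_lit 7, nat_lit 0x2000400042, nat_lit 0x1021022, nat_lit 2, nat_lit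 4, nat_lit 0x4a⟩ (t14_5355) (t14_13547))) (.node ⟨nat_lit 5, nat_lit 0x40018, nat_lit 0x10204, nat_lit 0, nat_lit 4, nat_lit 0x46⟩ (.node ⟨nat_lit 7, nat_lit 0x10002000400070, nat_lit 0x111003, nat_lit 4, nat_lit 4, nat_lit 0x48⟩ (t14_3307) (t14_11499)) (.node ⟨nat_lit 7, nat_lit 0x1000100060, nat_lit 0x1101112, nat_lit 0, nat_lit 4, nat_lit 0x49⟩ (t14_7403) (.nil))))) (.node ⟨nat_lit 5, nat_lit 0x10, nat_lit 0x3102, nat_lit 0, nat_lit 4, nat_lit 0x48⟩ (.node ⟨nat_lit 6, nat_lit 0x800080030, nat_lit 0x210102, nat_lit 0, nat_lit 4, nat_lit 0x47⟩ (.node ⟨nat_lit 6, nat_lit 0x2000200030, nat_lit 0x12002, nat_lit 0, nat_lit 3, nat_lit 0x46⟩ (.node ⟨nat_lit 6, nat_lit 0x200030, nat_lit 0x113211, nat_lit 0, nat_lit 4, nat_lit 0x4a⟩ (t14_747) (t14_8939)) (.node ⟨nat_lit 6, nat_lit 0x800300030, nat_lit 0x1220, nat_lit 1, nat_lit 4, nat_lit 0x46⟩ (t14_4843)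 (t14_13035))) (.node ⟨nat_lit 5, nat_lit 0x1c, nat_lit 0x11111, nat_lit 0, nat_lit 4, nat_lit 0x46⟩ (.node ⟨nat_lit 5, nat_lit 0x140018, nat_lit 0x1232, nat_lit 4, nat_lit 4, nat_lit 0x47⟩ (t14_2795) (t14_10987)) (.node ⟨nat_lit 8, nat_lit 0x10001000c000a0, nat_lit 0x11101022, nat_lit 0, nat_lit 4, nat_lit 0x49⟩ (t14_6891) (t14_15083)))) (.node ⟨nat_lit 4, nat_lit 0x40008, nat_lit 0x1112, nat_lit 5, nat_lit 4, nat_lit 0x46⟩ (.node ⟨nat_lit 6, nat_lit 0x800200032, nat_lit 0x111210, nat_lit 0, nat_lit 4, nat_lit 0x47⟩ (.node ⟨nat_lit 6, nat_lit 0x10001000200032, nat_lit 0x102013, nat_lit 2, nat_lit 4, nat_lit 0x46⟩ (t14_1771) (t14_9963)) (.node ⟨nat_lit 7, nat_lit 0x4000400060, nat_lit 0x22102, nat_lit 0, nat_lit 4, nat_lit 0x49⟩ (t14_5867) (t14_14059))) (.node ⟨nat_lit 6, nat_lit 0xc0030, nat_lit 0x202023, nat_lit 1, nat_lit 4, nat_lit 0x48⟩ (.node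 ⟨nat_lit 5, nat_lit 0x180014, nat_lit 0x11103, nat_lit 4, nat_lit 4, nat_lit 0x47⟩ (t14_3819) (t14_12011)) (.node ⟨nat_lit 8, nat_lit 0x80004000400088, nat_lit 0x10112000, nat_lit 2, nat_lit 4, nat_lit 0x4a⟩ (t14_7915) (.nil)))))
def t14_491 : Tr := .node ⟨nat_lit 8, nat_lit 0x100080002000c0, nat_lit 0x11111111, nat_lit 0, nat_lit 4, nat_lit 0x4a⟩ (.nil) (.nil)
def t14_8683 : Tr := .node ⟨nat_lit 7, nat_lit 0x800600050, nat_lit 2, nat_lit 1, nat_lit 4, nat_lit 0x46⟩ (.nil) (.nil)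
def t14_4587 : Tr := .node ⟨nat_lit 7, nat_lit 0x40004000200048, nat_lit 0x101130, nat_lit 0, nat_lit 4, nat_lit 0x48⟩ (.nil) (.nil)
def t14_12779 : Tr := .node ⟨nat_lit 4, nat_lit 0x8000c, nat_lit 0x130, nat_lit 0xa, nat_lit 4, nat_lit 0x47⟩ (.nil) (.nil)
def t14_2539 : Tr := .node ⟨nat_lit 8, nat_lit 0x800020002000a000c0, nat_lit 0x1012020, nat_lit 1, nat_lit 4, nat_lit 0x48⟩ (.nil) (.nil)
def t14_10731 : Tr := .node ⟨nat_lit 6, nat_lit 0x2000200034, nat_lit 0x1100, nat_lit 2, nat_lit 4, nat_lit 0x46⟩ (.nil) (.nil)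
def t14_6635 : Tr := .node ⟨nat_lit 7, nat_lit 0x200040004000480030, nat_lit 0x1030101, nat_lit 0, nat_lit 4, nat_lit 0x47⟩ (.nil) (.nil)
def t14_14827 : Tr := .node ⟨nat_lit 8, nat_lit 0x8000800020002000c0, nat_lit 0x11210, nat_lit 0, nat_lit 4, nat_lit 0x48⟩ (.nil) (.nil)
def t14_1515 : Tr := .node ⟨nat_lit 8, nat_lit 0x800040004000e000c800d0, nat_lit 0x212010, nat_lit 1, nat_lit 4, nat_lit 0x46⟩ (.nil) (.nil)
def t14_9707 : Tr := .node ⟨nat_lit 7, nat_lit 0x40002000480048, nat_lit 0x101111, nat_lit 0, nat_lit 4, nat_lit 0x47⟩ (.nil) (.nil)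
def t14_5611 : Tr := .node ⟨nat_lit 8, nat_lit 0x1000a000a000c0, nat_lit 0x1011202, nat_lit 1, nat_lit 4, nat_lit 0x48⟩ (.nil) (.nil)
def t14_13803 : Tr := .node ⟨nat_lit 7, nat_lit 0x400040002000500050, nat_lit 0x11200, nat_lit 3, nat_lit 4, nat_lit 0x47⟩ (.nil) (.nil)
def t14_3563 : Tr := .node ⟨nat_lit 8, nat_lit 0x800040002000c000a0, nat_lit 0x20101, nat_lit 0, nat_lit 4, nat_lit 0x47⟩ (.nil) (.nil)
def t14_11755 : Tr := .node ⟨nat_lit 6, nat_lit 0x20002000100028, nat_lit 0x2040, nat_lit 3, nat_lit 4, nat_lit 0x47⟩ (.nil) (.nil)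
def t14_7659 : Tr := .node ⟨nat_lit 6, nat_lit 0x20002000100028, nat_lit 0x10, nat_lit 3, nat_lit 4, nat_lit 0x45⟩ (.nil) (.nil)
def t14_1003 : Tr := .node ⟨nat_lit 4, nat_lit 0x8000c, nat_lit 0x1011, nat_lit 5, nat_lit 4, nat_lit 0x45⟩ (.nil) (.nil)
def t14_9195 : Tr := .node ⟨nat_lit 7, nat_lit 0x200040003000480060, nat_lit 0x22022, nat_lit 0, nat_lit 4, nat_lit 0x46⟩ (.nil) (.nil)
def t14_5099 : Tr := .node ⟨nat_lit 7, nat_lit 0x200020004000400070, nat_lit 0x20311, nat_lit 0, nat_lit 4, nat_lit 0x47⟩ (.nil) (.nil)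
def t14_13291 : Tr := .node ⟨nat_lit 6, nat_lit 0x800200010, nat_lit 0x11040, nat_lit 1, nat_lit 4, nat_lit 0x48⟩ (.nil) (.nil)
def t14_3051 : Tr := .node ⟨nat_lit 6, nat_lit 0x800280030, nat_lit 0x10211, nat_lit 2, nat_lit 4, nat_lit 0x46⟩ (.nil) (.nil)
def t14_11243 : Tr := .node ⟨nat_lit 8, nat_lit 0x1000c000a000a0, nat_lit 0x111120, nat_lit 0, nat_lit 4, nat_lit 0x48⟩ (.nil) (.nil)
def t14_7147 : Tr := .node ⟨nat_lit 4, nat_lit 0xc, nat_lit 0x1011, nat_lit 9, nat_lit 4, nat_lit 0x47⟩ (.nil) (.nil)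
def t14_15339 : Tr := .node ⟨nat_lit 8, nat_lit 0x400040004000800080, nat_lit 0x10111021, nat_lit 0, nat_lit 4, nat_lit 0x4a⟩ (.nil) (.nil)
def t14_2027 : Tr := .node ⟨nat_lit 6, nat_lit 0x10002000300030, nat_lit 0x3210, nat_lit 5, nat_lit 4, nat_lit 0x47⟩ (.nil) (.nil)
def t14_10219 : Tr := .node ⟨nat_lit 6, nat_lit 0x2000300028, nat_lit 0x103, nat_lit 4, nat_lit 4, nat_lit 0x46⟩ (.nil) (.nil)
def t14_6123 : Tr := .node ⟨nat_lit 5, nat_lit 0x100008, nat_lit 0x100, nat_lit 5, nat_lit 4, nat_lit 0x46⟩ (.nil) (.nil)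
def t14_14315 : Tr := .node ⟨nat_lit 8, nat_lit 0x4000800090006000c000d0, nat_lit 0x100113, nat_lit 1, nat_lit 4, nat_lit 0x45⟩ (.nil) (.nil)
def t14_4075 : Tr := .node ⟨nat_lit 7, nat_lit 0x20004000440030, nat_lit 0x1010102, nat_lit 1, nat_lit 4, nat_lit 0x47⟩ (.nil) (.nil)
def t14_12267 : Tr := .node ⟨nat_lit 7, nat_lit 0x10004000600060, nat_lit 0x140, nat_lit 1, nat_lit 4, nat_lit 0x47⟩ (.nil) (.nil)
def t14_8171 : Tr := .node ⟨nat_lit 6, nat_lit 0x1000200022, nat_lit 0x1300, nat_lit 0, nat_lit 4, nat_lit 0x46⟩ (.nil) (.nil)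
def t9_491 : Tr := .node ⟨nat_lit 3, nat_lit 4, nat_lit 0x132, nat_lit 0xb, nat_lit 4, nat_lit 0x48⟩ (.node ⟨nat_lit 6, nat_lit 0x20002800280028, nat_lit 0x310220, nat_lit 4, nat_lit 4, nat_lit 0x49⟩ (.node ⟨nat_lit 5, nat_lit 0x10, nat_lit 0x21112, nat_lit 1, nat_lit 4, nat_lit 0x49⟩ (.node ⟨nat_lit 5, nat_lit 0x10, nat_lit 0x12112, nat_lit 6, nat_lit 4, nat_lit 0x4a⟩ (.node ⟨nat_lit 6, nat_lit 0x2000200034, nat_lit 0x21121, nat_lit 2, nat_lit 4, nat_lit 0x48⟩ (t14_491) (t14_8683)) (.node ⟨nat_lit 7, nat_lit 0x800600050, nat_lit 0x1021112, nat_lit 1, nat_lit 4, nat_lit 0x49⟩ (t14_4587) (t14_12779))) (.node ⟨nat_lit 7, nat_lit 0x400040002000200050, nat_lit 0x100220, nat_lit 2, nat_lit 4, nat_lit 0x48⟩ (.node ⟨nat_lit 7, nat_lit 0x10002000500060, nat_lit 0x111311, nat_lit 1, nat_lit 4, nat_lit 0x48⟩ (t14_2539) (t14_10731)) (.node ⟨nat_lit 6, nat_lit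 0x10002000300034, nat_lit 0x202120, nat_lit 3, nat_lit 4, nat_lit 0x47⟩ (t14_6635) (t14_14827)))) (.node ⟨nat_lit 6, nat_lit 0x80030, nat_lit 0x112111, nat_lit 1, nat_lit 4, nat_lit 0x49⟩ (.node ⟨nat_lit 6, nat_lit 0x2000080030, nat_lit 0x12031, nat_lit 0, nat_lit 4, nat_lit 0x48⟩ (.node ⟨nat_lit 7, nat_lit 0x10004000440060, nat_lit 0x1000321, nat_lit 3, nat_lit 4, nat_lit 0x49⟩ (t14_1515) (t14_9707)) (.node ⟨nat_lit 7, nat_lit 0x4000200060, nat_lit 0x1111021, nat_lit 0, nat_lit 3, nat_lit 0x48⟩ (t14_5611) (t14_13803))) (.node ⟨nat_lit 7, nat_lit 0x40001000200048, nat_lit 0x2111100, nat_lit 0, nat_lit 4, nat_lit 0x49⟩ (.node ⟨nat_lit 7, nat_lit 0x20004000100068, nat_lit 0x101000, nat_lit 0, nat_lit 4, nat_lit 0x46⟩ (t14_3563) (t14_11755)) (.node ⟨nat_lit 6, nat_lit 0x10001000200030, nat_lit 0x112002, nat_lit 0, nat_lit 3, nat_lit 0x46⟩ (t14_7659)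 (.nil))))) (.node ⟨nat_lit 7, nat_lit 0x40004800480060, nat_lit 0x31210, nat_lit 3, nat_lit 4, nat_lit 0x48⟩ (.node ⟨nat_lit 5, nat_lit 0x10, nat_lit 0x12221, nat_lit 2, nat_lit 4, nat_lit 0x4a⟩ (.node ⟨nat_lit 7, nat_lit 0x40, nat_lit 0x1111110, nat_lit 3, nat_lit 4, nat_lit 0x4c⟩ (.node ⟨nat_lit 6, nat_lit 0x200022, nat_lit 0x111131, nat_lit 2, nat_lit 4, nat_lit 0x4a⟩ (t14_1003) (t14_9195)) (.node ⟨nat_lit 7, nat_lit 0x4000400020, nat_lit 0x121220, nat_lit 0, nat_lit 4, nat_lit 0x4a⟩ (t14_5099) (t14_13291))) (.node ⟨nat_lit 6, nat_lit 0x800300030, nat_lit 0x101120, nat_lit 0, nat_lit 3, nat_lit 0x45⟩ (.node ⟨nat_lit 7, nat_lit 0x4000440064, nat_lit 0x2011211, nat_lit 1, nat_lit 4, nat_lit 0x4a⟩ (t14_3051) (t14_11243)) (.node ⟨nat_lit 8, nat_lit 0x800040004000a000c800d0, nat_lit 0x111020, nat_lit 0, nat_lit 4, nat_lit 0x45⟩ (t14_7147) (t14_15339))))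 (.node ⟨nat_lit 5, nat_lit 0x1000080014, nat_lit 0x21120, nat_lit 2, nat_lit 4, nat_lit 0x47⟩ (.node ⟨nat_lit 7, nat_lit 0x4000100060, nat_lit 0x1211111, nat_lit 0, nat_lit 4, nat_lit 0x4a⟩ (.node ⟨nat_lit 5, nat_lit 0x100010, nat_lit 0x12132, nat_lit 4, nat_lit 4, nat_lit 0x4a⟩ (t14_2027) (t14_10219)) (.node ⟨nat_lit 7, nat_lit 0x3000500060, nat_lit 0x112200, nat_lit 1, nat_lit 4, nat_lit 0x48⟩ (t14_6123) (t14_14315))) (.node ⟨nat_lit 6, nat_lit 0x200038, nat_lit 0x122113, nat_lit 0, nat_lit 4, nat_lit 0x49⟩ (.node ⟨nat_lit 6, nat_lit 0x300030, nat_lit 0x100011, nat_lit 0, nat_lit 4, nat_lit 0x46⟩ (t14_4075) (t14_12267)) (.node ⟨nat_lit 5, nat_lit 0x180018, nat_lit 0x11210, nat_lit 2, nat_lit 3, nat_lit 0x46⟩ (t14_8171) (.nil)))))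
def t14_27 : Tr := .node ⟨nat_lit 7, nat_lit 0x400020, nat_lit 0x1111110, nat_lit 0, nat_lit 3, nat_lit 0x49⟩ (.nil) (.nil)
def t14_8219 : Tr := .node ⟨nat_lit 4, nat_lit 0xc000c, nat_lit 0x2130, nat_lit 2, nat_lit 3, nat_lit 0x45⟩ (.nil) (.nil)
def t14_4123 : Tr := .node ⟨nat_lit 7, nat_lit 0x40002000480048, nat_lit 0x111021, nat_lit 4, nat_lit 4, nat_lit 0x48⟩ (.nil) (.nil)
def t14_12315 : Tr := .node ⟨nat_lit 7, nat_lit 0x20006000500070, nat_lit 0x1103, nat_lit 1, nat_lit 4, nat_lit 0x45⟩ (.nil) (.nil)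
def t14_2075 : Tr := .node ⟨nat_lit 6, nat_lit 0x10002000300038, nat_lit 0x12310, nat_lit 3, nat_lit 4, nat_lit 0x47⟩ (.nil) (.nil)
def t14_10267 : Tr := .node ⟨nat_lit 7, nat_lit 0x40002000500068, nat_lit 0x1001202, nat_lit 2, nat_lit 4, nat_lit 0x47⟩ (.nil) (.nil)
def t14_6171 : Tr := .node ⟨nat_lit 2, nat_lit 0, nat_lit 0x11, nat_lit 0xc, nat_lit 4, nat_lit 0x46⟩ (.nil) (.nil)
def t14_14363 : Tr := .node ⟨nat_lit 7, nat_lit 0x40001000100060, nat_lit 0x1200, nat_lit 2, nat_lit 4, nat_lit 0x47⟩ (.nil) (.nil)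
def t14_1051 : Tr := .node ⟨nat_lit 6, nat_lit 0x200030, nat_lit 0x1102, nat_lit 2, nat_lit 4, nat_lit 0x47⟩ (.nil) (.nil)
def t14_9243 : Tr := .node ⟨nat_lit 6, nat_lit 0x800300028, nat_lit 0x100211, nat_lit 2, nat_lit 3, nat_lit 0x45⟩ (.nil) (.nil)
def t14_5147 : Tr := .node ⟨nat_lit 7, nat_lit 0x40005000300060, nat_lit 0x100311, nat_lit 1, nat_lit 4, nat_lit 0x46⟩ (.nil) (.nil)
def t14_13339 : Tr := .node ⟨nat_lit 6, nat_lit 0x300038, nat_lit 2, nat_lit 0, nat_lit 4, nat_lit 0x44⟩ (.nil) (.nil)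
def t14_3099 : Tr := .node ⟨nat_lit 8, nat_lit 0x2000400040008000c8, nat_lit 0x10001201, nat_lit 0, nat_lit 4, nat_lit 0x48⟩ (.nil) (.nil)
def t14_11291 : Tr := .node ⟨nat_lit 7, nat_lit 0x4000600064, nat_lit 0x111202, nat_lit 0, nat_lit 4, nat_lit 0x48⟩ (.nil) (.nil)
def t14_7195 : Tr := .node ⟨nat_lit 7, nat_lit 0x10006000600050, nat_lit 0x111211, nat_lit 1, nat_lit 4, nat_lit 0x47⟩ (.nil) (.nil)
def t14_15387 : Tr := .node ⟨nat_lit 0xb, nat_lit 0x40004000200020001000100, nat_lit 0x11101010, nat_lit 0, nat_lit 4, nat_lit 0x4c⟩ (.nil) (.nil)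
def t14_539 : Tr := .node ⟨nat_lit 7, nat_lit 0x40001000600050, nat_lit 0x2022, nat_lit 3, nat_lit 4, nat_lit 0x47⟩ (.nil) (.nil)
def t14_8731 : Tr := .node ⟨nat_lit 8, nat_lit 0x400080005000880060, nat_lit 0x11110, nat_lit 0, nat_lit 4, nat_lit 0x46⟩ (.nil) (.nil)
def t14_4635 : Tr := .node ⟨nat_lit 6, nat_lit 0x2000240018, nat_lit 0x111002, nat_lit 0, nat_lit 4, nat_lit 0x46⟩ (.nil) (.nil)
def t14_12827 : Tr := .node ⟨nat_lit 7, nat_lit 0x200040004000600068, nat_lit 0x20002, nat_lit 3, nat_lit 4, nat_lit 0x46⟩ (.nil) (.nil)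
def t14_2587 : Tr := .node ⟨nat_lit 5, nat_lit 0x1000080014, nat_lit 0x11000, nat_lit 3, nat_lit 4, nat_lit 0x45⟩ (.nil) (.nil)
def t14_10779 : Tr := .node ⟨nat_lit 8, nat_lit 0x80004000200020, nat_lit 0x120011, nat_lit 4, nat_lit 3, nat_lit 0x49⟩ (.nil) (.nil)
def t14_6683 : Tr := .node ⟨nat_lit 5, nat_lit 0x10, nat_lit 0x11111, nat_lit 8, nat_lit 4, nat_lit 0x4a⟩ (.nil) (.nil)
def t14_14875 : Tr := .node ⟨nat_lit 8, nat_lit 0x80004000400020, nat_lit 0x220102, nat_lit 0, nat_lit 3, nat_lit 0x49⟩ (.nil) (.nil)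
def t14_1563 : Tr := .node ⟨nat_lit 7, nat_lit 0x40002000500068, nat_lit 0x112102, nat_lit 1, nat_lit 4, nat_lit 0x47⟩ (.nil) (.nil)
def t14_9755 : Tr := .node ⟨nat_lit 7, nat_lit 0x40002000480068, nat_lit 0x11120, nat_lit 0, nat_lit 4, nat_lit 0x46⟩ (.nil) (.nil)
def t14_5659 : Tr := .node ⟨nat_lit 9, nat_lit 0x1000040004001800180, nat_lit 0x121020, nat_lit 1, nat_lit 4, nat_lit 0x49⟩ (.nil) (.nil)
def t14_13851 : Tr := .node ⟨nat_lit 7, nat_lit 0x40002000100068, nat_lit 0x12200, nat_lit 1, nat_lit 4, nat_lit 0x47⟩ (.nil) (.nil)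
def t14_3611 : Tr := .node ⟨nat_lit 7, nat_lit 0x20006000500070, nat_lit 0x1002221, nat_lit 0, nat_lit 4, nat_lit 0x46⟩ (.nil) (.nil)
def t14_11803 : Tr := .node ⟨nat_lit 8, nat_lit 0x800080009000900060, nat_lit 0x1001003, nat_lit 0, nat_lit 4, nat_lit 0x47⟩ (.nil) (.nil)
def t14_7707 : Tr := .node ⟨nat_lit 6, nat_lit 0x2000080030, nat_lit 0x1102, nat_lit 2, nat_lit 4, nat_lit 0x46⟩ (.nil) (.nil)
def t9_27 : Tr := .node ⟨nat_lit 5, nat_lit 0x40018, nat_lit 0x32201, nat_lit 1, nat_lit 4, nat_lit 0x49⟩ (.node ⟨nat_lit 6, nat_lit 0x200010, nat_lit 0x23202, nat_lit 1, nat_lit 4, nat_lit 0x4b⟩ (.node ⟨nat_lit 5, nat_lit 0x18, nat_lit 0x311, nat_lit 2, nat_lit 4, nat_lit 0x47⟩ (.node ⟨nat_lit 6, nat_lit 0x280030, nat_lit 0x110211, nat_lit 3, nat_lit 4, nat_lit 0x48⟩ (.node ⟨nat_lit 6, nat_lit 0x800300030, nat_lit 0x2320, nat_lit 1, nat_lit 4, nat_lit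 0x47⟩ (t14_27) (t14_8219)) (.node ⟨nat_lit 7, nat_lit 0x40001000200020, nat_lit 0x100010, nat_lit 0, nat_lit 4, nat_lit 0x47⟩ (t14_4123) (t14_12315))) (.node ⟨nat_lit 6, nat_lit 0x80030, nat_lit 0x310202, nat_lit 2, nat_lit 4, nat_lit 0x4a⟩ (.node ⟨nat_lit 7, nat_lit 0x40002000100010, nat_lit 0x10031, nat_lit 7, nat_lit 4, nat_lit 0x4a⟩ (t14_2075) (t14_10267)) (.node ⟨nat_lit 8, nat_lit 0x4000a000a000c0, nat_lit 0x1020102, nat_lit 0, nat_lit 4, nat_lit 0x48⟩ (t14_6171) (t14_14363)))) (.node ⟨nat_lit 7, nat_lit 0x20001000500068, nat_lit 0x202030, nat_lit 0, nat_lit 4, nat_lit 0x47⟩ (.node ⟨nat_lit 5, nat_lit 0x800080010, nat_lit 0x22111, nat_lit 5, nat_lit 4, nat_lit 0x49⟩ (.node ⟨nat_lit 5, nat_lit 0x140018, nat_lit 0x11111, nat_lit 3, nat_lit 4, nat_lit 0x46⟩ (t14_1051) (t14_9243)) (.node ⟨nat_lit 7, nat_lit 0x2000400040, nat_lit 0x1121100, nat_lit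 1, nat_lit 3, nat_lit 0x49⟩ (t14_5147) (t14_13339))) (.node ⟨nat_lit 8, nat_lit 0x80004000200020, nat_lit 0x110020, nat_lit 2, nat_lit 4, nat_lit 0x4a⟩ (.node ⟨nat_lit 7, nat_lit 0x20004000100070, nat_lit 0x1100103, nat_lit 1, nat_lit 4, nat_lit 0x47⟩ (t14_3099) (t14_11291)) (.node ⟨nat_lit 8, nat_lit 0x80004000200020, nat_lit 0x110022, nat_lit 4, nat_lit 4, nat_lit 0x4b⟩ (t14_7195) (t14_15387))))) (.node ⟨nat_lit 6, nat_lit 0x80030, nat_lit 0x311210, nat_lit 1, nat_lit 4, nat_lit 0x4a⟩ (.node ⟨nat_lit 5, nat_lit 0, nat_lit 0x22111, nat_lit 1, nat_lit 4, nat_lit 0x4a⟩ (.node ⟨nat_lit 5, nat_lit 0x800100018, nat_lit 0x220, nat_lit 3, nat_lit 4, nat_lit 0x45⟩ (.node ⟨nat_lit 8, nat_lit 0x80004000400020, nat_lit 0x210101, nat_lit 5, nat_lit 4, nat_lit 0x4b⟩ (t14_539) (t14_8731)) (.node ⟨nat_lit 6, nat_lit 0x800300038, nat_lit 0x211023, nat_lit 0,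 nat_lit 4, nat_lit 0x47⟩ (t14_4635) (t14_12827))) (.node ⟨nat_lit 6, nat_lit 0x800200032, nat_lit 0x10001, nat_lit 0, nat_lit 4, nat_lit 0x44⟩ (.node ⟨nat_lit 5, nat_lit 0x100018, nat_lit 0x11230, nat_lit 5, nat_lit 4, nat_lit 0x49⟩ (t14_2587) (t14_10779)) (.node ⟨nat_lit 7, nat_lit 0x4000400044, nat_lit 0x211202, nat_lit 2, nat_lit 4, nat_lit 0x4a⟩ (t14_6683) (t14_14875)))) (.node ⟨nat_lit 6, nat_lit 0x80030, nat_lit 0x112112, nat_lit 0, nat_lit 4, nat_lit 0x49⟩ (.node ⟨nat_lit 6, nat_lit 0x200032, nat_lit 0x231101, nat_lit 2, nat_lit 4, nat_lit 0x4a⟩ (.node ⟨nat_lit 8, nat_lit 0x200080008400c0, nat_lit 0x10010311, nat_lit 1, nat_lit 4, nat_lit 0x4a⟩ (t14_1563) (t14_9755)) (.node ⟨nat_lit 7, nat_lit 0x4000100060, nat_lit 0x1011201, nat_lit 1, nat_lit 4, nat_lit 0x49⟩ (t14_5659) (t14_13851))) (.node ⟨nat_lit 6, nat_lit 0x800200030, nat_lit 0x20013,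 nat_lit 0, nat_lit 4, nat_lit 0x47⟩ (.node ⟨nat_lit 6, nat_lit 0x2000300034, nat_lit 0x11000, nat_lit 1, nat_lit 4, nat_lit 0x45⟩ (t14_3611) (t14_11803)) (.node ⟨nat_lit 7, nat_lit 0x40002000480068, nat_lit 0x1022100, nat_lit 1, nat_lit 4, nat_lit 0x48⟩ (t14_7707) (.nil)))))
def t14_283 : Tr := .node ⟨nat_lit 6, nat_lit 0x1800280030, nat_lit 0x11112, nat_lit 2, nat_lit 4, nat_lit 0x46⟩ (.nil) (.nil)
def t14_8475 : Tr := .node ⟨nat_lit 7, nat_lit 0x10002000500060, nat_lit 0x1201, nat_lit 0, nat_lit 4, nat_lit 0x46⟩ (.nil) (.nil)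
def t14_4379 : Tr := .node ⟨nat_lit 7, nat_lit 0x200020004000300044, nat_lit 0x1102101, nat_lit 0, nat_lit 4, nat_lit 0x47⟩ (.nil) (.nil)
def t14_12571 : Tr := .node ⟨nat_lit 8, nat_lit 0x20004000a0006000c8, nat_lit 0x10010300, nat_lit 1, nat_lit 4, nat_lit 0x47⟩ (.nil) (.nil)
def t14_2331 : Tr := .node ⟨nat_lit 8, nat_lit 0x4000800060009000e000e0, nat_lit 0x2030110, nat_lit 0, nat_lit 4, nat_lit 0x47⟩ (.nil) (.nil)
def t14_10523 : Tr := .node ⟨nat_lit 7, nat_lit 0x10001000500060, nat_lit 0x2020, nat_lit 2, nat_lit 4, nat_lit 0x47⟩ (.nil) (.nil)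
def t14_6427 : Tr := .node ⟨nat_lit 7, nat_lit 0x20002000100040, nat_lit 0x1011011, nat_lit 4, nat_lit 4, nat_lit 0x49⟩ (.nil) (.nil)
def t14_14619 : Tr := .node ⟨nat_lit 8, nat_lit 0x200030003000c000a0, nat_lit 0x10011101, nat_lit 0, nat_lit 4, nat_lit 0x47⟩ (.nil) (.nil)
def t14_1307 : Tr := .node ⟨nat_lit 6, nat_lit 0x800300030, nat_lit 0x100111, nat_lit 3, nat_lit 4, nat_lit 0x46⟩ (.nil) (.nil)
def t14_9499 : Tr := .node ⟨nat_lit 0xa, nat_lit 0x80020001000100010001100220, nat_lit 0x1000012110, nat_lit 1, nat_lit 4, nat_lit 0x4a⟩ (.nil) (.nil)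
def t14_5403 : Tr := .node ⟨nat_lit 7, nat_lit 0x40001000480060, nat_lit 0x113102, nat_lit 0, nat_lit 4, nat_lit 0x48⟩ (.nil) (.nil)
def t14_13595 : Tr := .node ⟨nat_lit 7, nat_lit 0x2000400040, nat_lit 0x11200, nat_lit 3, nat_lit 4, nat_lit 0x49⟩ (.nil) (.nil)
def t14_3355 : Tr := .node ⟨nat_lit 7, nat_lit 0x40004000600050, nat_lit 0x12021, nat_lit 3, nat_lit 4, nat_lit 0x48⟩ (.nil) (.nil)
def t14_11547 : Tr := .node ⟨nat_lit 6, nat_lit 0x10002000300030, nat_lit 0x102110, nat_lit 5, nat_lit 4, nat_lit 0x47⟩ (.nil) (.nil)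
def t14_7451 : Tr := .node ⟨nat_lit 6, nat_lit 0x300030, nat_lit 0x111111, nat_lit 1, nat_lit 4, nat_lit 0x48⟩ (.nil) (.nil)
def t14_795 : Tr := .node ⟨nat_lit 8, nat_lit 0x400040002000800082, nat_lit 0x10131100, nat_lit 0, nat_lit 4, nat_lit 0x49⟩ (.nil) (.nil)
def t14_8987 : Tr := .node ⟨nat_lit 8, nat_lit 0x800080004000a0009000c0, nat_lit 0x1110002, nat_lit 3, nat_lit 4, nat_lit 0x48⟩ (.nil) (.nil)
def t14_4891 : Tr := .node ⟨nat_lit 8, nat_lit 0x800080, nat_lit 0x11111110, nat_lit 1, nat_lit 4, nat_lit 0x4d⟩ (.nil) (.nil)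
def t14_13083 : Tr := .node ⟨nat_lit 6, nat_lit 0x2000100024, nat_lit 0x220, nat_lit 0, nat_lit 4, nat_lit 0x46⟩ (.nil) (.nil)
def t14_2843 : Tr := .node ⟨nat_lit 7, nat_lit 0x40002000480048, nat_lit 0x120120, nat_lit 0, nat_lit 4, nat_lit 0x47⟩ (.nil) (.nil)
def t14_11035 : Tr := .node ⟨nat_lit 3, nat_lit 0x40004, nat_lit 0x120, nat_lit 0xa, nat_lit 3, nat_lit 0x45⟩ (.nil) (.nil)
def t14_6939 : Tr := .node ⟨nat_lit 5, nat_lit 0x140018, nat_lit 0x12021, nat_lit 5, nat_lit 4, nat_lit 0x47⟩ (.nil) (.nil)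
def t14_15131 : Tr := .node ⟨nat_lit 0xa, nat_lit 0x1000100020002000200018002100320, nat_lit 0x10110101, nat_lit 1, nat_lit 4, nat_lit 0x48⟩ (.nil) (.nil)
def t14_1819 : Tr := .node ⟨nat_lit 6, nat_lit 0x800300028, nat_lit 0x102102, nat_lit 3, nat_lit 4, nat_lit 0x48⟩ (.nil) (.nil)
def t14_10011 : Tr := .node ⟨nat_lit 5, nat_lit 0x1000180018, nat_lit 0x1220, nat_lit 8, nat_lit 4, nat_lit 0x47⟩ (.nil) (.nil)
def t14_5915 : Tr := .node ⟨nat_lit 8, nat_lit 0x80008000800088, nat_lit 0x1111100, nat_lit 5, nat_lit 4, nat_lit 0x4b⟩ (.nil) (.nil)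
def t14_14107 : Tr := .node ⟨nat_lit 7, nat_lit 0x200020004000400044, nat_lit 0x11010, nat_lit 1, nat_lit 4, nat_lit 0x46⟩ (.nil) (.nil)
def t14_3867 : Tr := .node ⟨nat_lit 8, nat_lit 0x8000800040009000c0, nat_lit 0x1110002, nat_lit 3, nat_lit 4, nat_lit 0x49⟩ (.nil) (.nil)
def t14_12059 : Tr := .node ⟨nat_lit 7, nat_lit 0x40001000600068, nat_lit 0x112100, nat_lit 1, nat_lit 4, nat_lit 0x47⟩ (.nil) (.nil)
def t14_7963 : Tr := .node ⟨nat_lit 7, nat_lit 0x40004000480048, nat_lit 0x211121, nat_lit 3, nat_lit 4, nat_lit 0x49⟩ (.nil) (.nil)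
def t9_283 : Tr := .node ⟨nat_lit 3, nat_lit 0, nat_lit 0x331, nat_lit 3, nat_lit 4, nat_lit 0x48⟩ (.node ⟨nat_lit 5, nat_lit 0x1000140014, nat_lit 0x32121, nat_lit 4, nat_lit 4, nat_lit 0x49⟩ (.node ⟨nat_lit 7, nat_lit 0x40002000500060, nat_lit 0x1013021, nat_lit 0, nat_lit 4, nat_lit 0x48⟩ (.node ⟨nat_lit 4, nat_lit 8, nat_lit 0x1213, nat_lit 7, nat_lit 4, nat_lit 0x49⟩ (.node ⟨nat_lit 5, nat_lit 0x18, nat_lit 0x10210, nat_lit 3, nat_lit 3, nat_lit 0x47⟩ (t14_283) (t14_8475)) (.node ⟨nat_lit 6, nat_lit 0x3000300028, nat_lit 0x12113, nat_lit 2, nat_lit 4, nat_lit 0x47⟩ (t14_4379) (t14_12571))) (.node ⟨nat_lit 4, nat_lit 0x8000c, nat_lit 0x2022, nat_lit 2, nat_lit 3, nat_lit 0x45⟩ (.node ⟨nat_lit 6, nat_lit 0x800280030, nat_lit 0x10212, nat_lit 1, nat_lit 4, nat_lit 0x46⟩ (t14_2331) (t14_10523)) (.node ⟨nat_lit 7, nat_lit 0x4000600060, nat_lit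 0x21210, nat_lit 5, nat_lit 4, nat_lit 0x49⟩ (t14_6427) (t14_14619)))) (.node ⟨nat_lit 5, nat_lit 0x80010001a, nat_lit 0x21211, nat_lit 4, nat_lit 4, nat_lit 0x47⟩ (.node ⟨nat_lit 6, nat_lit 0x100020, nat_lit 0x221131, nat_lit 0, nat_lit 4, nat_lit 0x4b⟩ (.node ⟨nat_lit 7, nat_lit 0x20004000100064, nat_lit 0x1010113, nat_lit 0, nat_lit 4, nat_lit 0x47⟩ (t14_1307) (t14_9499)) (.node ⟨nat_lit 7, nat_lit 0x40002000100060, nat_lit 0x112202, nat_lit 0, nat_lit 4, nat_lit 0x48⟩ (t14_5403) (t14_13595))) (.node ⟨nat_lit 6, nat_lit 0x20001000100028, nat_lit 0x13201, nat_lit 0, nat_lit 4, nat_lit 0x47⟩ (.node ⟨nat_lit 6, nat_lit 0x20001000100028, nat_lit 0x211300, nat_lit 4, nat_lit 4, nat_lit 0x49⟩ (t14_3355) (t14_11547)) (.node ⟨nat_lit 7, nat_lit 0x5000180060, nat_lit 0x1111211, nat_lit 1, nat_lit 4, nat_lit 0x48⟩ (t14_7451) (.nil))))) (.node ⟨nat_lit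 6, nat_lit 0x2000200010, nat_lit 0x13201, nat_lit 2, nat_lit 4, nat_lit 0x49⟩ (.node ⟨nat_lit 6, nat_lit 0x800300030, nat_lit 0x102220, nat_lit 0, nat_lit 4, nat_lit 0x47⟩ (.node ⟨nat_lit 5, nat_lit 0x80010, nat_lit 0x10011, nat_lit 0, nat_lit 4, nat_lit 0x45⟩ (.node ⟨nat_lit 7, nat_lit 0x10004000400020, nat_lit 0x222200, nat_lit 0, nat_lit 4, nat_lit 0x4a⟩ (t14_795) (t14_8987)) (.node ⟨nat_lit 7, nat_lit 0x400020002000500068, nat_lit 0x1112111, nat_lit 3, nat_lit 4, nat_lit 0x48⟩ (t14_4891) (t14_13083))) (.node ⟨nat_lit 5, nat_lit 0x1000100008, nat_lit 0x1101, nat_lit 4, nat_lit 4, nat_lit 0x46⟩ (.node ⟨nat_lit 7, nat_lit 0x1000500060, nat_lit 0x1111031, nat_lit 1, nat_lit 4, nat_lit 0x49⟩ (t14_2843) (t14_11035)) (.node ⟨nat_lit 9, nat_lit 0x1000080004000400180, nat_lit 0x10102102, nat_lit 0, nat_lit 4, nat_lit 0x4a⟩ (t14_6939) (t14_15131))))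 (.node ⟨nat_lit 7, nat_lit 0x20004000400044, nat_lit 0x1010211, nat_lit 1, nat_lit 4, nat_lit 0x49⟩ (.node ⟨nat_lit 5, nat_lit 0x100012, nat_lit 0x21111, nat_lit 3, nat_lit 4, nat_lit 0x48⟩ (.node ⟨nat_lit 6, nat_lit 0x2000200038, nat_lit 0x10113, nat_lit 4, nat_lit 4, nat_lit 0x47⟩ (t14_1819) (t14_10011)) (.node ⟨nat_lit 7, nat_lit 0x5000300060, nat_lit 0x112121, nat_lit 0, nat_lit 4, nat_lit 0x48⟩ (t14_5915) (t14_14107))) (.node ⟨nat_lit 7, nat_lit 0x1000080060, nat_lit 0x2001212, nat_lit 1, nat_lit 4, nat_lit 0x49⟩ (.node ⟨nat_lit 4, nat_lit 0xc000c, nat_lit 0x2030, nat_lit 3, nat_lit 3, nat_lit 0x44⟩ (t14_3867) (t14_12059)) (.node ⟨nat_lit 7, nat_lit 0x1000400060, nat_lit 0x1101020, nat_lit 1, nat_lit 4, nat_lit 0x49⟩ (t14_7963) (.nil)))))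
def t14_155 : Tr := .node ⟨nat_lit 7, nat_lit 0x10002000500060, nat_lit 0x1111112, nat_lit 0, nat_lit 4, nat_lit 0x48⟩ (.nil) (.nil)
def t14_8347 : Tr := .node ⟨nat_lit 7, nat_lit 0x800500060, nat_lit 0x10002, nat_lit 0, nat_lit 4, nat_lit 0x46⟩ (.nil) (.nil)
def t14_4251 : Tr := .node ⟨nat_lit 5, nat_lit 0x1000100008, nat_lit 0x2113, nat_lit 4, nat_lit 4, nat_lit 0x48⟩ (.nil) (.nil)
def t14_12443 : Tr := .node ⟨nat_lit 7, nat_lit 0x40001000500060, nat_lit 0x100131, nat_lit 2, nat_lit 4, nat_lit 0x47⟩ (.nil) (.nil)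
def t14_2203 : Tr := .node ⟨nat_lit 8, nat_lit 0x400040008000800020, nat_lit 0x122000, nat_lit 1, nat_lit 4, nat_lit 0x49⟩ (.nil) (.nil)
def t14_10395 : Tr := .node ⟨nat_lit 6, nat_lit 0x20001000280028, nat_lit 0x100300, nat_lit 3, nat_lit 4, nat_lit 0x46⟩ (.nil) (.nil)
def t14_6299 : Tr := .node ⟨nat_lit 5, nat_lit 0x1000180018, nat_lit 0x310, nat_lit 8, nat_lit 4, nat_lit 0x46⟩ (.nil) (.nil)
def t14_14491 : Tr := .node ⟨nat_lit 8, nat_lit 0x400040008000c0, nat_lit 0x101112, nat_lit 0, nat_lit 4, nat_lit 0x49⟩ (.nil) (.nil)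
def t14_1179 : Tr := .node ⟨nat_lit 6, nat_lit 0x2000240034, nat_lit 0x11011, nat_lit 1, nat_lit 4, nat_lit 0x45⟩ (.nil) (.nil)
def t14_9371 : Tr := .node ⟨nat_lit 8, nat_lit 0x40002000c000a000d0, nat_lit 0x1020212, nat_lit 0, nat_lit 4, nat_lit 0x47⟩ (.nil) (.nil)
def t14_5275 : Tr := .node ⟨nat_lit 8, nat_lit 0x4000800020002000c0, nat_lit 0x11012100, nat_lit 1, nat_lit 4, nat_lit 0x49⟩ (.nil) (.nil)
def t14_13467 : Tr := .node ⟨nat_lit 6, nat_lit 0x10001000200030, nat_lit 0x3210, nat_lit 1, nat_lit 4, nat_lit 0x47⟩ (.nil) (.nil)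
def t14_3227 : Tr := .node ⟨nat_lit 7, nat_lit 0x10002000500060, nat_lit 0x121102, nat_lit 0, nat_lit 4, nat_lit 0x48⟩ (.nil) (.nil)
def t14_11419 : Tr := .node ⟨nat_lit 7, nat_lit 0x20004000400064, nat_lit 0x1021100, nat_lit 1, nat_lit 4, nat_lit 0x48⟩ (.nil) (.nil)
def t14_7323 : Tr := .node ⟨nat_lit 7, nat_lit 0x4000200020, nat_lit 0x2100121, nat_lit 0, nat_lit 3, nat_lit 0x49⟩ (.nil) (.nil)
def t14_15515 : Tr := .node ⟨nat_lit 7, nat_lit 0x10004000500064, nat_lit 0x1000210, nat_lit 0, nat_lit 4, nat_lit 0x47⟩ (.nil) (.nil)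
def t14_667 : Tr := .node ⟨nat_lit 6, nat_lit 0x1000200020, nat_lit 0x11131, nat_lit 0, nat_lit 4, nat_lit 0x48⟩ (.nil) (.nil)
def t14_8859 : Tr := .node ⟨nat_lit 9, nat_lit 0x8001000100004001100110, nat_lit 0x10021, nat_lit 5, nat_lit 4, nat_lit 0x49⟩ (.nil) (.nil)
def t14_4763 : Tr := .node ⟨nat_lit 7, nat_lit 0x10004000600064, nat_lit 0x100221, nat_lit 2, nat_lit 4, nat_lit 0x47⟩ (.nil) (.nil)
def t14_12955 : Tr := .node ⟨nat_lit 5, nat_lit 0x140018, nat_lit 0x1102, nat_lit 8, nat_lit 4, nat_lit 0x47⟩ (.nil) (.nil)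
def t14_2715 : Tr := .node ⟨nat_lit 7, nat_lit 0x20005000300068, nat_lit 0x1100310, nat_lit 0, nat_lit 4, nat_lit 0x46⟩ (.nil) (.nil)
def t14_10907 : Tr := .node ⟨nat_lit 8, nat_lit 0x800080004000a000a000c8, nat_lit 0x1002102, nat_lit 3, nat_lit 4, nat_lit 0x47⟩ (.nil) (.nil)
def t14_6811 : Tr := .node ⟨nat_lit 6, nat_lit 0x30, nat_lit 0x301110, nat_lit 2, nat_lit 4, nat_lit 0x4a⟩ (.nil) (.nil)
def t14_15003 : Tr := .node ⟨nat_lit 7, nat_lit 0x400020002000500060, nat_lit 0x11110, nat_lit 1, nat_lit 4, nat_lit 0x46⟩ (.nil) (.nil)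
def t14_1691 : Tr := .node ⟨nat_lit 7, nat_lit 0x10003000500060, nat_lit 0x1101022, nat_lit 0, nat_lit 4, nat_lit 0x47⟩ (.nil) (.nil)
def t14_9883 : Tr := .node ⟨nat_lit 7, nat_lit 0x40002000200020, nat_lit 0x10322, nat_lit 1, nat_lit 4, nat_lit 0x4a⟩ (.nil) (.nil)
def t14_5787 : Tr := .node ⟨nat_lit 6, nat_lit 0x200030, nat_lit 0x11112, nat_lit 5, nat_lit 4, nat_lit 0x49⟩ (.nil) (.nil)
def t14_13979 : Tr := .node ⟨nat_lit 6, nat_lit 0x80030, nat_lit 0x100112, nat_lit 1, nat_lit 4, nat_lit 0x47⟩ (.nil) (.nil)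
def t14_3739 : Tr := .node ⟨nat_lit 8, nat_lit 0x80004000400040, nat_lit 0x10210210, nat_lit 0, nat_lit 4, nat_lit 0x4b⟩ (.nil) (.nil)
def t14_11931 : Tr := .node ⟨nat_lit 5, nat_lit 0x1000080014, nat_lit 0x230, nat_lit 5, nat_lit 4, nat_lit 0x46⟩ (.nil) (.nil)
def t14_7835 : Tr := .node ⟨nat_lit 7, nat_lit 0x400042, nat_lit 0x111123, nat_lit 0, nat_lit 4, nat_lit 0x4a⟩ (.nil) (.nil)
def t9_155 : Tr := .node ⟨nat_lit 1, nat_lit 0, nat_lit 3, nat_lit 0x15, nat_lit 4, nat_lit 0x47⟩ (.node ⟨nat_lit 7, nat_lit 0x2000500060, nat_lit 0x131102, nat_lit 1, nat_lit 4, nat_lit 0x49⟩ (.node ⟨nat_lit 6, nat_lit 0x2000080030, nat_lit 0x13112, nat_lit 0, nat_lit 4, nat_lit 0x48⟩ (.node ⟨nat_lit 3, nat_lit 6, nat_lit 0x213, nat_lit 0xa, nat_lit 4, nat_lit 0x47⟩ (.node ⟨nat_lit 6, nat_lit 0x800300030, nat_lit 0x2220, nat_lit 2, nat_lit 4, nat_lit 0x47⟩ (t14_155)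 (t14_8347)) (.node ⟨nat_lit 6, nat_lit 0x800300038, nat_lit 0x101043, nat_lit 0, nat_lit 4, nat_lit 0x46⟩ (t14_4251) (t14_12443))) (.node ⟨nat_lit 8, nat_lit 0x800088008800c0, nat_lit 0x21110102, nat_lit 0, nat_lit 4, nat_lit 0x4a⟩ (.node ⟨nat_lit 7, nat_lit 0x40001000100060, nat_lit 0x1203101, nat_lit 0, nat_lit 3, nat_lit 0x47⟩ (t14_2203) (t14_10395)) (.node ⟨nat_lit 5, nat_lit 0x100018, nat_lit 0x1222, nat_lit 7, nat_lit 4, nat_lit 0x48⟩ (t14_6299) (t14_14491)))) (.node ⟨nat_lit 5, nat_lit 0, nat_lit 0x21111, nat_lit 7, nat_lit 4, nat_lit 0x4b⟩ (.node ⟨nat_lit 5, nat_lit 0x1000140018, nat_lit 0x21211, nat_lit 5, nat_lit 4, nat_lit 0x48⟩ (.node ⟨nat_lit 7, nat_lit 0x20004000100044, nat_lit 0x1010310, nat_lit 1, nat_lit 4, nat_lit 0x49⟩ (t14_1179) (t14_9371)) (.node ⟨nat_lit 8, nat_lit 0x2000a000c0, nat_lit 0x11021021, nat_lit 0, nat_lit 4, nat_lit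 0x4a⟩ (t14_5275) (t14_13467))) (.node ⟨nat_lit 4, nat_lit 0xc000c, nat_lit 0x2120, nat_lit 5, nat_lit 3, nat_lit 0x45⟩ (.node ⟨nat_lit 7, nat_lit 0x3000500060, nat_lit 0x112300, nat_lit 1, nat_lit 4, nat_lit 0x48⟩ (t14_3227) (t14_11419)) (.node ⟨nat_lit 7, nat_lit 0x20004000640068, nat_lit 0x111100, nat_lit 0, nat_lit 4, nat_lit 0x46⟩ (t14_7323) (t14_15515))))) (.node ⟨nat_lit 6, nat_lit 0x2000100032, nat_lit 0x32021, nat_lit 0, nat_lit 4, nat_lit 0x49⟩ (.node ⟨nat_lit 6, nat_lit 0x2000100032, nat_lit 0x22021, nat_lit 0, nat_lit 4, nat_lit 0x48⟩ (.node ⟨nat_lit 7, nat_lit 0x40002000480068, nat_lit 0x2010101, nat_lit 0, nat_lit 4, nat_lit 0x47⟩ (.node ⟨nat_lit 5, nat_lit 0x40018, nat_lit 0x31102, nat_lit 2, nat_lit 4, nat_lit 0x48⟩ (t14_667) (t14_8859)) (.node ⟨nat_lit 7, nat_lit 0x40002000500064, nat_lit 0x103201, nat_lit 0, nat_lit 4, nat_lit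 0x47⟩ (t14_4763) (t14_12955))) (.node ⟨nat_lit 6, nat_lit 0x80030, nat_lit 0x110101, nat_lit 0, nat_lit 4, nat_lit 0x47⟩ (.node ⟨nat_lit 8, nat_lit 0x80002000200040, nat_lit 0x1110301, nat_lit 1, nat_lit 4, nat_lit 0x4b⟩ (t14_2715) (t14_10907)) (.node ⟨nat_lit 8, nat_lit 0x2000400080008000c8, nat_lit 0x1002110, nat_lit 0, nat_lit 4, nat_lit 0x48⟩ (t14_6811) (t14_15003)))) (.node ⟨nat_lit 3, nat_lit 0x40004, nat_lit 0x121, nat_lit 0xd, nat_lit 4, nat_lit 0x47⟩ (.node ⟨nat_lit 6, nat_lit 0x1000080020, nat_lit 0x102111, nat_lit 1, nat_lit 3, nat_lit 0x47⟩ (.node ⟨nat_lit 5, nat_lit 0x180014, nat_lit 0x113, nat_lit 5, nat_lit 4, nat_lit 0x46⟩ (t14_1691) (t14_9883)) (.node ⟨nat_lit 5, nat_lit 0x100010, nat_lit 0x13220, nat_lit 4, nat_lit 4, nat_lit 0x4a⟩ (t14_5787) (t14_13979))) (.node ⟨nat_lit 7, nat_lit 0x200020004000440064, nat_lit 0x2022020, nat_lit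 0, nat_lit 4, nat_lit 0x47⟩ (.node ⟨nat_lit 6, nat_lit 0x800280030, nat_lit 0x100003, nat_lit 3, nat_lit 4, nat_lit 0x46⟩ (t14_3739) (t14_11931)) (.node ⟨nat_lit 7, nat_lit 0x20005000500060, nat_lit 0x1000212, nat_lit 3, nat_lit 4, nat_lit 0x47⟩ (t14_7835) (.nil)))))
def t14_411 : Tr := .node ⟨nat_lit 6, nat_lit 0x2000300030, nat_lit 0x102210, nat_lit 3, nat_lit 4, nat_lit 0x48⟩ (.nil) (.nil)
def t14_8603 : Tr := .node ⟨nat_lit 7, nat_lit 0x400020002000500070, nat_lit 0x11002, nat_lit 1, nat_lit 4, nat_lit 0x45⟩ (.nil) (.nil)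
def t14_4507 : Tr := .node ⟨nat_lit 7, nat_lit 0x400040002000500050, nat_lit 0x1112011, nat_lit 4, nat_lit 4, nat_lit 0x49⟩ (.nil) (.nil)
def t14_12699 : Tr := .node ⟨nat_lit 8, nat_lit 0x8000400040009000c8, nat_lit 0x10120010, nat_lit 0, nat_lit 4, nat_lit 0x48⟩ (.nil) (.nil)
def t14_2459 : Tr := .node ⟨nat_lit 6, nat_lit 0x1000200030, nat_lit 0x12030, nat_lit 1, nat_lit 4, nat_lit 0x48⟩ (.nil) (.nil)
def t14_10651 : Tr := .node ⟨nat_lit 7, nat_lit 0x40003000580068, nat_lit 0x1012, nat_lit 1, nat_lit 4, nat_lit 0x44⟩ (.nil) (.nil)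
def t14_6555 : Tr := .node ⟨nat_lit 7, nat_lit 0x4000100060, nat_lit 0x111031, nat_lit 0, nat_lit 4, nat_lit 0x49⟩ (.nil) (.nil)
def t14_14747 : Tr := .node ⟨nat_lit 7, nat_lit 0x20005000600068, nat_lit 0x101121, nat_lit 4, nat_lit 4, nat_lit 0x47⟩ (.nil) (.nil)
def t14_1435 : Tr := .node ⟨nat_lit 7, nat_lit 0x10002000500060, nat_lit 0x103101, nat_lit 0, nat_lit 4, nat_lit 0x47⟩ (.nil) (.nil)
def t14_9627 : Tr := .node ⟨nat_lit 6, nat_lit 0x1000280030, nat_lit 0x122, nat_lit 1, nat_lit 4, nat_lit 0x45⟩ (.nil) (.nil)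
def t14_5531 : Tr := .node ⟨nat_lit 7, nat_lit 0x20001000100040, nat_lit 0x1100311, nat_lit 0, nat_lit 3, nat_lit 0x47⟩ (.nil) (.nil)
def t14_13723 : Tr := .node ⟨nat_lit 8, nat_lit 0x8000800090006000d0, nat_lit 0x1002, nat_lit 1, nat_lit 4, nat_lit 0x46⟩ (.nil) (.nil)
def t14_3483 : Tr := .node ⟨nat_lit 6, nat_lit 0x2000080030, nat_lit 0x20, nat_lit 1, nat_lit 4, nat_lit 0x45⟩ (.nil) (.nil)
def t14_11675 : Tr := .node ⟨nat_lit 8, nat_lit 0x4000800090006000c000c0, nat_lit 0x130010, nat_lit 0, nat_lit 4, nat_lit 0x47⟩ (.nil) (.nil)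
def t14_7579 : Tr := .node ⟨nat_lit 6, nat_lit 0x2000280034, nat_lit 0x212, nat_lit 1, nat_lit 4, nat_lit 0x45⟩ (.nil) (.nil)
def t14_923 : Tr := .node ⟨nat_lit 7, nat_lit 0x40001000480060, nat_lit 0x112121, nat_lit 2, nat_lit 4, nat_lit 0x48⟩ (.nil) (.nil)
def t14_9115 : Tr := .node ⟨nat_lit 8, nat_lit 0x800040009000c000e0, nat_lit 0x1100022, nat_lit 1, nat_lit 4, nat_lit 0x47⟩ (.nil) (.nil)
def t14_5019 : Tr := .node ⟨nat_lit 6, nat_lit 0x2000300028, nat_lit 0x1111, nat_lit 2, nat_lit 4, nat_lit 0x46⟩ (.nil) (.nil)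
def t14_13211 : Tr := .node ⟨nat_lit 7, nat_lit 0x400020002000500068, nat_lit 0x20100, nat_lit 3, nat_lit 4, nat_lit 0x46⟩ (.nil) (.nil)
def t14_2971 : Tr := .node ⟨nat_lit 7, nat_lit 0x400040002000500050, nat_lit 0x112011, nat_lit 4, nat_lit 4, nat_lit 0x48⟩ (.nil) (.nil)
def t14_11163 : Tr := .node ⟨nat_lit 5, nat_lit 0x1000100008, nat_lit 0x1110, nat_lit 3, nat_lit 3, nat_lit 0x45⟩ (.nil) (.nil)
def t14_7067 : Tr := .node ⟨nat_lit 5, nat_lit 0x1000180018, nat_lit 0x1311, nat_lit 7, nat_lit 4, nat_lit 0x47⟩ (.nil) (.nil)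
def t14_15259 : Tr := .node ⟨nat_lit 7, nat_lit 0x40002000500060, nat_lit 0x10021, nat_lit 3, nat_lit 4, nat_lit 0x47⟩ (.nil) (.nil)
def t14_1947 : Tr := .node ⟨nat_lit 6, nat_lit 0x200032, nat_lit 0x200012, nat_lit 0, nat_lit 4, nat_lit 0x47⟩ (.nil) (.nil)
def t14_10139 : Tr := .node ⟨nat_lit 5, nat_lit 0x180018, nat_lit 0x220, nat_lit 4, nat_lit 3, nat_lit 0x45⟩ (.nil) (.nil)
def t14_6043 : Tr := .node ⟨nat_lit 8, nat_lit 0x8000800080, nat_lit 0x2111110, nat_lit 2, nat_lit 4, nat_lit 0x4c⟩ (.nil) (.nil)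
def t14_14235 : Tr := .node ⟨nat_lit 0xa, nat_lit 0x400200002002800300, nat_lit 0x100001002, nat_lit 1, nat_lit 4, nat_lit 0x4a⟩ (.nil) (.nil)
def t14_3995 : Tr := .node ⟨nat_lit 7, nat_lit 0x20004000100060, nat_lit 0x101020, nat_lit 1, nat_lit 4, nat_lit 0x47⟩ (.nil) (.nil)
def t14_12187 : Tr := .node ⟨nat_lit 8, nat_lit 0x8000800040009000d000e0, nat_lit 0x112001, nat_lit 1, nat_lit 4, nat_lit 0x46⟩ (.nil) (.nil)
def t14_8091 : Tr := .node ⟨nat_lit 7, nat_lit 0x200040004800300060, nat_lit 0x1010040, nat_lit 0, nat_lit 4, nat_lit 0x46⟩ (.nil) (.nil)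
def t9_411 : Tr := .node ⟨nat_lit 5, nat_lit 0x10, nat_lit 0x13220, nat_lit 0, nat_lit 4, nat_lit 0x4a⟩ (.node ⟨nat_lit 5, nat_lit 0x100010, nat_lit 0x13121, nat_lit 4, nat_lit 3, nat_lit 0x48⟩ (.node ⟨nat_lit 5, nat_lit 0x80010, nat_lit 0x2121, nat_lit 0, nat_lit 4, nat_lit 0x47⟩ (.node ⟨nat_lit 7, nat_lit 0x40002000480030, nat_lit 0x1100221, nat_lit 0, nat_lit 4, nat_lit 0x47⟩ (.node ⟨nat_lit 7, nat_lit 0x40005000680058, nat_lit 0x2000121, nat_lit 1, nat_lit 4, nat_lit 0x46⟩ (t14_411) (t14_8603)) (.node ⟨nat_lit 8, nat_lit 0x800080002000400090, nat_lit 0x11020011, nat_lit 4, nat_lit 4, nat_lit 0x4a⟩ (t14_4507) (t14_12699))) (.node ⟨nat_lit 5, nat_lit 0x1000080008, nat_lit 0x1011, nat_lit 2, nat_lit 3, nat_lit 0x45⟩ (.node ⟨nat_lit 6, nat_lit 0x800200010, nat_lit 0x10031, nat_lit 1, nat_lit 4, nat_lit 0x47⟩ (t14_2459) (t14_10651)) (.node ⟨nat_lit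 7, nat_lit 0x40004800600030, nat_lit 0x22101, nat_lit 1, nat_lit 4, nat_lit 0x47⟩ (t14_6555) (t14_14747)))) (.node ⟨nat_lit 7, nat_lit 0x40004c0070, nat_lit 0x201012, nat_lit 1, nat_lit 4, nat_lit 0x47⟩ (.node ⟨nat_lit 6, nat_lit 0x200010, nat_lit 0x121031, nat_lit 0, nat_lit 4, nat_lit 0x4a⟩ (.node ⟨nat_lit 6, nat_lit 0x1000200032, nat_lit 0x101100, nat_lit 2, nat_lit 4, nat_lit 0x46⟩ (t14_1435) (t14_9627)) (.node ⟨nat_lit 8, nat_lit 0x4000800080008400c8, nat_lit 0x11211002, nat_lit 0, nat_lit 4, nat_lit 0x49⟩ (t14_5531) (t14_13723))) (.node ⟨nat_lit 6, nat_lit 0x200022, nat_lit 0x11122, nat_lit 0, nat_lit 4, nat_lit 0x48⟩ (.node ⟨nat_lit 6, nat_lit 0x1800300028, nat_lit 0x101004, nat_lit 3, nat_lit 4, nat_lit 0x47⟩ (t14_3483) (t14_11675)) (.node ⟨nat_lit 7, nat_lit 0x2000500060, nat_lit 0x1111121, nat_lit 1, nat_lit 4, nat_lit 0x49⟩ (t14_7579)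 (.nil))))) (.node ⟨nat_lit 6, nat_lit 0x20, nat_lit 0x31111, nat_lit 1, nat_lit 3, nat_lit 0x49⟩ (.node ⟨nat_lit 6, nat_lit 0x200010, nat_lit 0x22101, nat_lit 3, nat_lit 4, nat_lit 0x4a⟩ (.node ⟨nat_lit 6, nat_lit 0x20, nat_lit 0x111111, nat_lit 2, nat_lit 4, nat_lit 0x4a⟩ (.node ⟨nat_lit 6, nat_lit 0x800280030, nat_lit 0x111312, nat_lit 1, nat_lit 4, nat_lit 0x48⟩ (t14_923) (t14_9115)) (.node ⟨nat_lit 6, nat_lit 0x80030, nat_lit 0x210202, nat_lit 3, nat_lit 3, nat_lit 0x48⟩ (t14_5019) (t14_13211))) (.node ⟨nat_lit 4, nat_lit 0x8000c, nat_lit 0x1120, nat_lit 0xa, nat_lit 4, nat_lit 0x47⟩ (.node ⟨nat_lit 6, nat_lit 0x1000080020, nat_lit 0x111210, nat_lit 3, nat_lit 3, nat_lit 0x47⟩ (t14_2971) (t14_11163)) (.node ⟨nat_lit 8, nat_lit 0x200080001000c0, nat_lit 0x11000202, nat_lit 4, nat_lit 4, nat_lit 0x4a⟩ (t14_7067) (t14_15259)))) (.node ⟨nat_lit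 4, nat_lit 0x80004, nat_lit 0x201, nat_lit 3, nat_lit 4, nat_lit 0x45⟩ (.node ⟨nat_lit 6, nat_lit 0x2800180030, nat_lit 0x102211, nat_lit 3, nat_lit 4, nat_lit 0x47⟩ (.node ⟨nat_lit 6, nat_lit 0x800080030, nat_lit 0x211003, nat_lit 0, nat_lit 4, nat_lit 0x48⟩ (t14_1947) (t14_10139)) (.node ⟨nat_lit 7, nat_lit 0x400020002000500050, nat_lit 0x102020, nat_lit 0, nat_lit 4, nat_lit 0x46⟩ (t14_6043) (t14_14235))) (.node ⟨nat_lit 6, nat_lit 0x200030, nat_lit 0x11131, nat_lit 0, nat_lit 4, nat_lit 0x48⟩ (.node ⟨nat_lit 6, nat_lit 0x2000240018, nat_lit 0x111200, nat_lit 0, nat_lit 4, nat_lit 0x47⟩ (t14_3995) (t14_12187)) (.node ⟨nat_lit 9, nat_lit 0x1000100010000800088012001c0, nat_lit 0x11101011, nat_lit 1, nat_lit 4, nat_lit 0x48⟩ (t14_8091) (.nil)))))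
def t14_91 : Tr := .node ⟨nat_lit 7, nat_lit 0x4000500060, nat_lit 0x1111211, nat_lit 0, nat_lit 4, nat_lit 0x49⟩ (.nil) (.nil)
def t14_8283 : Tr := .node ⟨nat_lit 7, nat_lit 0x40004800600068, nat_lit 0x12103, nat_lit 2, nat_lit 4, nat_lit 0x47⟩ (.nil) (.nil)
def t14_4187 : Tr := .node ⟨nat_lit 8, nat_lit 0x800040004000a000a000d0, nat_lit 0x1111201, nat_lit 1, nat_lit 4, nat_lit 0x47⟩ (.nil) (.nil)
def t14_12379 : Tr := .node ⟨nat_lit 9, nat_lit 0x400100010000800180, nat_lit 0x103110, nat_lit 0, nat_lit 4, nat_lit 0x4a⟩ (.nil) (.nil)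
def t14_2139 : Tr := .node ⟨nat_lit 8, nat_lit 0x2000800080004000c0, nat_lit 0x1002002, nat_lit 3, nat_lit 4, nat_lit 0x49⟩ (.nil) (.nil)
def t14_10331 : Tr := .node ⟨nat_lit 8, nat_lit 0x80004000100020, nat_lit 0x2110020, nat_lit 0, nat_lit 3, nat_lit 0x49⟩ (.nil) (.nil)
def t14_6235 : Tr := .node ⟨nat_lit 7, nat_lit 0x40004000200020, nat_lit 0x11010, nat_lit 3, nat_lit 4, nat_lit 0x48⟩ (.nil) (.nil)
def t14_14427 : Tr := .node ⟨nat_lit 7, nat_lit 0x20005000680070, nat_lit 0x1001112, nat_lit 1, nat_lit 4, nat_lit 0x45⟩ (.nil) (.nil)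
def t14_1115 : Tr := .node ⟨nat_lit 7, nat_lit 0x20004000100064, nat_lit 0x1013021, nat_lit 1, nat_lit 4, nat_lit 0x48⟩ (.nil) (.nil)
def t14_9307 : Tr := .node ⟨nat_lit 9, nat_lit 0x10001000040018001a001a0, nat_lit 0x100221, nat_lit 0, nat_lit 4, nat_lit 0x47⟩ (.nil) (.nil)
def t14_5211 : Tr := .node ⟨nat_lit 7, nat_lit 0x400020002000500060, nat_lit 0x21012, nat_lit 3, nat_lit 4, nat_lit 0x47⟩ (.nil) (.nil)
def t14_13403 : Tr := .node ⟨nat_lit 7, nat_lit 0x20004000600050, nat_lit 0x330, nat_lit 1, nat_lit 4, nat_lit 0x47⟩ (.nil) (.nil)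
def t14_3163 : Tr := .node ⟨nat_lit 8, nat_lit 0x800040002000c000a0, nat_lit 0x120211, nat_lit 0, nat_lit 4, nat_lit 0x48⟩ (.nil) (.nil)
def t14_11355 : Tr := .node ⟨nat_lit 5, nat_lit 0x100018, nat_lit 0x1210, nat_lit 4, nat_lit 3, nat_lit 0x46⟩ (.nil) (.nil)
def t14_7259 : Tr := .node ⟨nat_lit 7, nat_lit 0x10001000600070, nat_lit 0x2001012, nat_lit 2, nat_lit 4, nat_lit 0x47⟩ (.nil) (.nil)
def t14_15451 : Tr := .node ⟨nat_lit 8, nat_lit 0x4000400020008000c0, nat_lit 0x110101, nat_lit 0, nat_lit 4, nat_lit 0x48⟩ (.nil) (.nil)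
def t14_603 : Tr := .node ⟨nat_lit 8, nat_lit 0x40002000c000a0, nat_lit 0x20022, nat_lit 1, nat_lit 4, nat_lit 0x48⟩ (.nil) (.nil)
def t14_8795 : Tr := .node ⟨nat_lit 9, nat_lit 0x10001000040008001200120, nat_lit 0x10100131, nat_lit 0, nat_lit 4, nat_lit 0x49⟩ (.nil) (.nil)
def t14_4699 : Tr := .node ⟨nat_lit 7, nat_lit 0x40001000100060, nat_lit 0x1100001, nat_lit 0, nat_lit 4, nat_lit 0x47⟩ (.nil) (.nil)
def t14_12891 : Tr := .node ⟨nat_lit 6, nat_lit 0x2000300030, nat_lit 0x2040, nat_lit 2, nat_lit 4, nat_lit 0x47⟩ (.nil) (.nil)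
def t14_2651 : Tr := .node ⟨nat_lit 5, nat_lit 0x18001c, nat_lit 0x201, nat_lit 3, nat_lit 4, nat_lit 0x45⟩ (.nil) (.nil)
def t14_10843 : Tr := .node ⟨nat_lit 5, nat_lit 0x100010, nat_lit 0x21120, nat_lit 4, nat_lit 3, nat_lit 0x48⟩ (.nil) (.nil)
def t14_6747 : Tr := .node ⟨nat_lit 6, nat_lit 0x2000080030, nat_lit 0x21120, nat_lit 2, nat_lit 4, nat_lit 0x48⟩ (.nil) (.nil)
def t14_14939 : Tr := .node ⟨nat_lit 7, nat_lit 0x40004800480048, nat_lit 0x1111111, nat_lit 3, nat_lit 4, nat_lit 0x49⟩ (.nil) (.nil)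
def t14_1627 : Tr := .node ⟨nat_lit 7, nat_lit 0x20006000500068, nat_lit 0x12210, nat_lit 1, nat_lit 4, nat_lit 0x46⟩ (.nil) (.nil)
def t14_9819 : Tr := .node ⟨nat_lit 7, nat_lit 0x10006000600050, nat_lit 0x102110, nat_lit 0, nat_lit 4, nat_lit 0x46⟩ (.nil) (.nil)
def t14_5723 : Tr := .node ⟨nat_lit 6, nat_lit 0x2000240030, nat_lit 0x11021, nat_lit 2, nat_lit 4, nat_lit 0x46⟩ (.nil) (.nil)
def t14_13915 : Tr := .node ⟨nat_lit 9, nat_lit 0x10001000080011000c0, nat_lit 0x110200, nat_lit 0, nat_lit 4, nat_lit 0x49⟩ (.nil) (.nil)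
def t14_3675 : Tr := .node ⟨nat_lit 7, nat_lit 0x1000600050, nat_lit 0x3021, nat_lit 2, nat_lit 4, nat_lit 0x48⟩ (.nil) (.nil)
def t14_11867 : Tr := .node ⟨nat_lit 6, nat_lit 0x2000100032, nat_lit 0x1230, nat_lit 2, nat_lit 4, nat_lit 0x47⟩ (.nil) (.nil)
def t14_7771 : Tr := .node ⟨nat_lit 8, nat_lit 0x4000800080008800900060, nat_lit 0x210010, nat_lit 0, nat_lit 4, nat_lit 0x46⟩ (.nil) (.nil)
def t9_91 : Tr := .node ⟨nat_lit 5, nat_lit 0x100008, nat_lit 0x1101, nat_lit 3, nat_lit 3, nat_lit 0x46⟩ (.node ⟨nat_lit 5, nat_lit 0x100010, nat_lit 0x12211, nat_lit 0, nat_lit 3, nat_lit 0x47⟩ (.node ⟨nat_lit 7, nat_lit 0x20004000600060, nat_lit 0x11320, nat_lit 1, nat_lit 4, nat_lit 0x48⟩ (.node ⟨nat_lit 6, nat_lit 0x1000200020, nat_lit 0x102120, nat_lit 0, nat_lit 3, nat_lit 0x47⟩ (.node ⟨nat_lit 2, nat_lit 0, nat_lit 0x22, nat_lit 0xc, nat_lit 3, nat_lit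 0x46⟩ (t14_91) (t14_8283)) (.node ⟨nat_lit 7, nat_lit 0x200040003000480070, nat_lit 0x202000, nat_lit 0, nat_lit 4, nat_lit 0x46⟩ (t14_4187) (t14_12379))) (.node ⟨nat_lit 7, nat_lit 0x40001000100060, nat_lit 0x2101102, nat_lit 0, nat_lit 3, nat_lit 0x47⟩ (.node ⟨nat_lit 7, nat_lit 0x400040004800600070, nat_lit 0x101031, nat_lit 5, nat_lit 4, nat_lit 0x47⟩ (t14_2139) (t14_10331)) (.node ⟨nat_lit 7, nat_lit 0x40004000400020, nat_lit 0x122101, nat_lit 3, nat_lit 4, nat_lit 0x4a⟩ (t14_6235) (t14_14427)))) (.node ⟨nat_lit 6, nat_lit 0x200020, nat_lit 0x22130, nat_lit 1, nat_lit 4, nat_lit 0x4a⟩ (.node ⟨nat_lit 6, nat_lit 0x1000200020, nat_lit 0x211121, nat_lit 3, nat_lit 4, nat_lit 0x4a⟩ (.node ⟨nat_lit 7, nat_lit 0x6000500018, nat_lit 0x1111131, nat_lit 0, nat_lit 4, nat_lit 0x48⟩ (t14_1115) (t14_9307)) (.node ⟨nat_lit 5, nat_lit 0x100018, nat_lit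 0x1121, nat_lit 5, nat_lit 4, nat_lit 0x47⟩ (t14_5211) (t14_13403))) (.node ⟨nat_lit 5, nat_lit 0x80010, nat_lit 0x12210, nat_lit 4, nat_lit 4, nat_lit 0x49⟩ (.node ⟨nat_lit 6, nat_lit 0x300038, nat_lit 0x102103, nat_lit 3, nat_lit 4, nat_lit 0x48⟩ (t14_3163) (t14_11355)) (.node ⟨nat_lit 7, nat_lit 0x4000100060, nat_lit 0x101102, nat_lit 0, nat_lit 4, nat_lit 0x48⟩ (t14_7259) (t14_15451))))) (.node ⟨nat_lit 4, nat_lit 0x80004, nat_lit 0x302, nat_lit 7, nat_lit 4, nat_lit 0x48⟩ (.node ⟨nat_lit 6, nat_lit 0x1000080020, nat_lit 0x102021, nat_lit 0, nat_lit 4, nat_lit 0x48⟩ (.node ⟨nat_lit 4, nat_lit 0xc, nat_lit 0x2110, nat_lit 3, nat_lit 4, nat_lit 0x46⟩ (.node ⟨nat_lit 6, nat_lit 0x2000080030, nat_lit 0x201210, nat_lit 1, nat_lit 4, nat_lit 0x48⟩ (t14_603) (t14_8795)) (.node ⟨nat_lit 7, nat_lit 0x4000100060, nat_lit 0x1112012, nat_lit 2, nat_lit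 4, nat_lit 0x4a⟩ (t14_4699) (t14_12891))) (.node ⟨nat_lit 5, nat_lit 0x18001c, nat_lit 0x10122, nat_lit 3, nat_lit 4, nat_lit 0x45⟩ (.node ⟨nat_lit 4, nat_lit 0x8000c, nat_lit 0x1223, nat_lit 8, nat_lit 4, nat_lit 0x48⟩ (t14_2651) (t14_10843)) (.node ⟨nat_lit 8, nat_lit 0x80008000400040009000a0, nat_lit 0x11111100, nat_lit 3, nat_lit 4, nat_lit 0x49⟩ (t14_6747) (t14_14939)))) (.node ⟨nat_lit 5, nat_lit 0x80010001a, nat_lit 0x21210, nat_lit 4, nat_lit 4, nat_lit 0x47⟩ (.node ⟨nat_lit 6, nat_lit 0x800300030, nat_lit 0x202210, nat_lit 1, nat_lit 4, nat_lit 0x48⟩ (.node ⟨nat_lit 5, nat_lit 0x100008, nat_lit 0x1010, nat_lit 1, nat_lit 4, nat_lit 0x45⟩ (t14_1627) (t14_9819)) (.node ⟨nat_lit 7, nat_lit 0x2000200040, nat_lit 0x1122111, nat_lit 0, nat_lit 4, nat_lit 0x4b⟩ (t14_5723) (t14_13915))) (.node ⟨nat_lit 6, nat_lit 0x1000200034, nat_lit 0x102100,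 nat_lit 0, nat_lit 4, nat_lit 0x46⟩ (.node ⟨nat_lit 7, nat_lit 0x40004000100068, nat_lit 0x100100, nat_lit 0, nat_lit 4, nat_lit 0x46⟩ (t14_3675) (t14_11867)) (.node ⟨nat_lit 7, nat_lit 0x4000100020, nat_lit 0x111020, nat_lit 4, nat_lit 4, nat_lit 0x4a⟩ (t14_7771) (.nil)))))
def t14_347 : Tr := .node ⟨nat_lit 7, nat_lit 0x200020004000440060, nat_lit 0x2020111, nat_lit 1, nat_lit 4, nat_lit 0x48⟩ (.nil) (.nil)
def t14_8539 : Tr := .node ⟨nat_lit 7, nat_lit 0x400020002000500050, nat_lit 0x1011041, nat_lit 1, nat_lit 4, nat_lit 0x48⟩ (.nil) (.nil)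
def t14_4443 : Tr := .node ⟨nat_lit 7, nat_lit 0x100060, nat_lit 0x1121121, nat_lit 0, nat_lit 4, nat_lit 0x4b⟩ (.nil) (.nil)
def t14_12635 : Tr := .node ⟨nat_lit 7, nat_lit 0x20004000600050, nat_lit 0x101240, nat_lit 0, nat_lit 4, nat_lit 0x48⟩ (.nil) (.nil)
def t14_2395 : Tr := .node ⟨nat_lit 7, nat_lit 0x10005000600060, nat_lit 0x112210, nat_lit 0, nat_lit 4, nat_lit 0x47⟩ (.nil) (.nil)
def t14_10587 : Tr := .node ⟨nat_lit 5, nat_lit 0x40018, nat_lit 0x200, nat_lit 3, nat_lit 4, nat_lit 0x46⟩ (.nil) (.nil)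
def t14_6491 : Tr := .node ⟨nat_lit 6, nat_lit 0x80030, nat_lit 0x111220, nat_lit 1, nat_lit 4, nat_lit 0x49⟩ (.nil) (.nil)
def t14_14683 : Tr := .node ⟨nat_lit 9, nat_lit 0x1000080008001400090019001a0, nat_lit 0x1110101, nat_lit 0, nat_lit 4, nat_lit 0x46⟩ (.nil) (.nil)
def t14_1371 : Tr := .node ⟨nat_lit 8, nat_lit 0x80006000a000d000d0, nat_lit 0x11003110, nat_lit 0, nat_lit 4, nat_lit 0x46⟩ (.nil) (.nil)
def t14_9563 : Tr := .node ⟨nat_lit 8, nat_lit 0x8000a000c000d000d0, nat_lit 0x10220, nat_lit 3, nat_lit 4, nat_lit 0x46⟩ (.nil) (.nil)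
def t14_5467 : Tr := .node ⟨nat_lit 6, nat_lit 0x100020, nat_lit 0x11103, nat_lit 2, nat_lit 4, nat_lit 0x49⟩ (.nil) (.nil)
def t14_13659 : Tr := .node ⟨nat_lit 5, nat_lit 0x100008, nat_lit 0x302, nat_lit 5, nat_lit 4, nat_lit 0x48⟩ (.nil) (.nil)
def t14_3419 : Tr := .node ⟨nat_lit 5, nat_lit 0x1000080014, nat_lit 0x2001, nat_lit 3, nat_lit 4, nat_lit 0x45⟩ (.nil) (.nil)
def t14_11611 : Tr := .node ⟨nat_lit 7, nat_lit 0x6000700070, nat_lit 0x11130, nat_lit 1, nat_lit 4, nat_lit 0x46⟩ (.nil) (.nil)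
def t14_7515 : Tr := .node ⟨nat_lit 9, nat_lit 0x100008000400040, nat_lit 0x1110011, nat_lit 3, nat_lit 4, nat_lit 0x4c⟩ (.nil) (.nil)
def t14_859 : Tr := .node ⟨nat_lit 7, nat_lit 0x40004000200048, nat_lit 0x112012, nat_lit 4, nat_lit 4, nat_lit 0x49⟩ (.nil) (.nil)
def t14_9051 : Tr := .node ⟨nat_lit 7, nat_lit 0x40002000200020, nat_lit 0x10221, nat_lit 0, nat_lit 3, nat_lit 0x47⟩ (.nil) (.nil)
def t14_4955 : Tr := .node ⟨nat_lit 7, nat_lit 0x10001000600060, nat_lit 0x1111031, nat_lit 0, nat_lit 4, nat_lit 0x48⟩ (.nil) (.nil)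
def t14_13147 : Tr := .node ⟨nat_lit 6, nat_lit 0x20001000100028, nat_lit 0x203, nat_lit 1, nat_lit 4, nat_lit 0x45⟩ (.nil) (.nil)
def t14_2907 : Tr := .node ⟨nat_lit 7, nat_lit 0x40003000500060, nat_lit 0x101202, nat_lit 0, nat_lit 4, nat_lit 0x46⟩ (.nil) (.nil)
def t14_11099 : Tr := .node ⟨nat_lit 5, nat_lit 0x180018, nat_lit 0x120, nat_lit 6, nat_lit 3, nat_lit 0x45⟩ (.nil) (.nil)
def t14_7003 : Tr := .node ⟨nat_lit 6, nat_lit 0x2000200020, nat_lit 0x111211, nat_lit 2, nat_lit 3, nat_lit 0x48⟩ (.nil) (.nil)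
def t14_15195 : Tr := .node ⟨nat_lit 7, nat_lit 0x10002000500060, nat_lit 0x1100111, nat_lit 0, nat_lit 4, nat_lit 0x47⟩ (.nil) (.nil)
def t14_1883 : Tr := .node ⟨nat_lit 4, nat_lit 0xc000c, nat_lit 0x2021, nat_lit 8, nat_lit 4, nat_lit 0x46⟩ (.nil) (.nil)
def t14_10075 : Tr := .node ⟨nat_lit 7, nat_lit 0x5000500060, nat_lit 0x1101202, nat_lit 2, nat_lit 4, nat_lit 0x48⟩ (.nil) (.nil)
def t14_5979 : Tr := .node ⟨nat_lit 7, nat_lit 0x400040, nat_lit 0x111111, nat_lit 0, nat_lit 4, nat_lit 0x4a⟩ (.nil) (.nil)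
def t14_14171 : Tr := .node ⟨nat_lit 6, nat_lit 0x2800300030, nat_lit 0x1210, nat_lit 9, nat_lit 4, nat_lit 0x47⟩ (.nil) (.nil)
def t14_3931 : Tr := .node ⟨nat_lit 7, nat_lit 0x20003000500068, nat_lit 0x101130, nat_lit 1, nat_lit 4, nat_lit 0x46⟩ (.nil) (.nil)
def t14_12123 : Tr := .node ⟨nat_lit 6, nat_lit 0x1000200030, nat_lit 0x11120, nat_lit 4, nat_lit 4, nat_lit 0x48⟩ (.nil) (.nil)
def t14_8027 : Tr := .node ⟨nat_lit 6, nat_lit 0x2000100024, nat_lit 0x12103, nat_lit 1, nat_lit 4, nat_lit 0x47⟩ (.nil) (.nil)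
def t9_347 : Tr := .node ⟨nat_lit 3, nat_lit 0, nat_lit 0x333, nat_lit 7, nat_lit 4, nat_lit 0x4a⟩ (.node ⟨nat_lit 4, nat_lit 0xc, nat_lit 0x3212, nat_lit 6, nat_lit 4, nat_lit 0x49⟩ (.node ⟨nat_lit 5, nat_lit 0x80010, nat_lit 0x22122, nat_lit 1, nat_lit 4, nat_lit 0x49⟩ (.node ⟨nat_lit 6, nat_lit 0x200010, nat_lit 0x112102, nat_lit 2, nat_lit 4, nat_lit 0x4a⟩ (.node ⟨nat_lit 6, nat_lit 0x40038, nat_lit 0x221103, nat_lit 0, nat_lit 4, nat_lit 0x49⟩ (t14_347) (t14_8539)) (.node ⟨nat_lit 6, nat_lit 0x10001000200030, nat_lit 0x104110, nat_lit 0, nat_lit 3, nat_lit 0x46⟩ (t14_4443) (t14_12635))) (.node ⟨nat_lit 6, nat_lit 0x1000200038, nat_lit 0x121122, nat_lit 0, nat_lit 4, nat_lit 0x48⟩ (.node ⟨nat_lit 4, nat_lit 0x8000c, nat_lit 0x1023, nat_lit 6, nat_lit 4, nat_lit 0x46⟩ (t14_2395) (t14_10587)) (.node ⟨nat_lit 6, nat_lit 0x200030, nat_lit 0x2120,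 nat_lit 5, nat_lit 4, nat_lit 0x49⟩ (t14_6491) (t14_14683)))) (.node ⟨nat_lit 5, nat_lit 0x100010, nat_lit 0x11100, nat_lit 1, nat_lit 3, nat_lit 0x46⟩ (.node ⟨nat_lit 6, nat_lit 0x200010, nat_lit 0x22202, nat_lit 4, nat_lit 4, nat_lit 0x4b⟩ (.node ⟨nat_lit 6, nat_lit 0x800280030, nat_lit 0x12003, nat_lit 3, nat_lit 4, nat_lit 0x47⟩ (t14_1371) (t14_9563)) (.node ⟨nat_lit 7, nat_lit 0x2000400060, nat_lit 0x1021012, nat_lit 4, nat_lit 4, nat_lit 0x4a⟩ (t14_5467) (t14_13659))) (.node ⟨nat_lit 5, nat_lit 0x40018, nat_lit 0x31112, nat_lit 5, nat_lit 4, nat_lit 0x49⟩ (.node ⟨nat_lit 7, nat_lit 0x200020004000400070, nat_lit 0x1011203, nat_lit 1, nat_lit 4, nat_lit 0x47⟩ (t14_3419) (t14_11611)) (.node ⟨nat_lit 7, nat_lit 0x40002000500060, nat_lit 0x101102, nat_lit 1, nat_lit 4, nat_lit 0x47⟩ (t14_7515) (.nil))))) (.node ⟨nat_lit 4, nat_lit 0, nat_lit 0x3000,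 nat_lit 1, nat_lit 4, nat_lit 0x46⟩ (.node ⟨nat_lit 6, nat_lit 0x80030, nat_lit 0x211211, nat_lit 0, nat_lit 4, nat_lit 0x49⟩ (.node ⟨nat_lit 7, nat_lit 0x500060, nat_lit 0x111111, nat_lit 0, nat_lit 4, nat_lit 0x48⟩ (.node ⟨nat_lit 6, nat_lit 0x2000200010, nat_lit 0x21310, nat_lit 0, nat_lit 3, nat_lit 0x47⟩ (t14_859) (t14_9051)) (.node ⟨nat_lit 8, nat_lit 0x8000400040, nat_lit 0x1211020, nat_lit 1, nat_lit 4, nat_lit 0x4c⟩ (t14_4955) (t14_13147))) (.node ⟨nat_lit 6, nat_lit 0x1000280030, nat_lit 0x111021, nat_lit 2, nat_lit 4, nat_lit 0x47⟩ (.node ⟨nat_lit 7, nat_lit 0x40002000200048, nat_lit 0x1012101, nat_lit 4, nat_lit 4, nat_lit 0x49⟩ (t14_2907) (t14_11099)) (.node ⟨nat_lit 7, nat_lit 0x4000440060, nat_lit 0x1111302, nat_lit 0, nat_lit 4, nat_lit 0x4a⟩ (t14_7003) (t14_15195)))) (.node ⟨nat_lit 4, nat_lit 8, nat_lit 0x1110, nat_lit 4, nat_lit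 3, nat_lit 0x46⟩ (.node ⟨nat_lit 7, nat_lit 0x20002000400068, nat_lit 0x2111111, nat_lit 0, nat_lit 4, nat_lit 0x49⟩ (.node ⟨nat_lit 5, nat_lit 0x1000080018, nat_lit 0x11141, nat_lit 1, nat_lit 3, nat_lit 0x46⟩ (t14_1883) (t14_10075)) (.node ⟨nat_lit 6, nat_lit 0x2000280030, nat_lit 0x22003, nat_lit 0, nat_lit 3, nat_lit 0x46⟩ (t14_5979) (t14_14171))) (.node ⟨nat_lit 6, nat_lit 0x2000080030, nat_lit 0x120, nat_lit 0, nat_lit 4, nat_lit 0x45⟩ (.node ⟨nat_lit 6, nat_lit 0x2000300028, nat_lit 0x11400, nat_lit 1, nat_lit 3, nat_lit 0x46⟩ (t14_3931) (t14_12123)) (.node ⟨nat_lit 8, nat_lit 0x1000a000c0, nat_lit 0x10101021, nat_lit 3, nat_lit 4, nat_lit 0x4a⟩ (t14_8027) (.nil)))))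
def t14_219 : Tr := .node ⟨nat_lit 7, nat_lit 0x2000500060, nat_lit 0x112221, nat_lit 1, nat_lit 4, nat_lit 0x49⟩ (.nil) (.nil)
def t14_8411 : Tr := .node ⟨nat_lit 7, nat_lit 0x400040002000200050, nat_lit 0x22104, nat_lit 0, nat_lit 4, nat_lit 0x48⟩ (.nil) (.nil)
def t14_4315 : Tr := .node ⟨nat_lit 8, nat_lit 0x80008000400040009000e0, nat_lit 0x10113011, nat_lit 0, nat_lit 4, nat_lit 0x48⟩ (.nil) (.nil)
def t14_12507 : Tr := .node ⟨nat_lit 8, nat_lit 0xc00090003000e0, nat_lit 0x101003, nat_lit 1, nat_lit 4, nat_lit 0x46⟩ (.nil) (.nil)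
def t14_2267 : Tr := .node ⟨nat_lit 9, nat_lit 0x8000800080004001000102, nat_lit 0x101220000, nat_lit 0, nat_lit 4, nat_lit 0x4a⟩ (.nil) (.nil)
def t14_10459 : Tr := .node ⟨nat_lit 7, nat_lit 0x40003000580068, nat_lit 0x2000200, nat_lit 0, nat_lit 4, nat_lit 0x45⟩ (.nil) (.nil)
def t14_6363 : Tr := .node ⟨nat_lit 7, nat_lit 0x40004000480060, nat_lit 0x12110, nat_lit 1, nat_lit 4, nat_lit 0x48⟩ (.nil) (.nil)
def t14_14555 : Tr := .node ⟨nat_lit 0xa, nat_lit 0x10001000200020002080180, nat_lit 0x1210000, nat_lit 1, nat_lit 4, nat_lit 0x4a⟩ (.nil) (.nil)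
def t14_1243 : Tr := .node ⟨nat_lit 5, nat_lit 0x80010001c, nat_lit 0x1222, nat_lit 4, nat_lit 4, nat_lit 0x46⟩ (.nil) (.nil)
def t14_9435 : Tr := .node ⟨nat_lit 6, nat_lit 0x2000100010, nat_lit 0x112132, nat_lit 1, nat_lit 3, nat_lit 0x48⟩ (.nil) (.nil)
def t14_5339 : Tr := .node ⟨nat_lit 6, nat_lit 0x2000100008, nat_lit 0x31010, nat_lit 3, nat_lit 3, nat_lit 0x48⟩ (.nil) (.nil)
def t14_13531 : Tr := .node ⟨nat_lit 6, nat_lit 0x2000080030, nat_lit 0x1102, nat_lit 4, nat_lit 4, nat_lit 0x47⟩ (.nil) (.nil)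
def t14_3291 : Tr := .node ⟨nat_lit 8, nat_lit 0x40004000800088006000c0, nat_lit 0x10201011, nat_lit 2, nat_lit 4, nat_lit 0x48⟩ (.nil) (.nil)
def t14_11483 : Tr := .node ⟨nat_lit 4, nat_lit 0xc000c, nat_lit 0x1100, nat_lit 3, nat_lit 3, nat_lit 0x44⟩ (.nil) (.nil)
def t14_7387 : Tr := .node ⟨nat_lit 7, nat_lit 0x1000100060, nat_lit 0x1002001, nat_lit 0, nat_lit 4, nat_lit 0x48⟩ (.nil) (.nil)
def t14_15579 : Tr := .node ⟨nat_lit 5, nat_lit 0, nat_lit 0x11111, nat_lit 0xd, nat_lit 4, nat_lit 0x4c⟩ (.nil) (.nil)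
def t14_731 : Tr := .node ⟨nat_lit 8, nat_lit 0x200080008000a800c8, nat_lit 0x10000131, nat_lit 1, nat_lit 4, nat_lit 0x47⟩ (.nil) (.nil)
def t14_8923 : Tr := .node ⟨nat_lit 7, nat_lit 0x40001000100060, nat_lit 0x1100, nat_lit 0, nat_lit 4, nat_lit 0x46⟩ (.nil) (.nil)
def t14_4827 : Tr := .node ⟨nat_lit 6, nat_lit 0x2000240030, nat_lit 0x112102, nat_lit 2, nat_lit 4, nat_lit 0x48⟩ (.nil) (.nil)
def t14_13019 : Tr := .node ⟨nat_lit 5, nat_lit 0x1000100018, nat_lit 3, nat_lit 7, nat_lit 4, nat_lit 0x46⟩ (.nil) (.nil)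
def t14_2779 : Tr := .node ⟨nat_lit 7, nat_lit 0x40001000600068, nat_lit 0x112011, nat_lit 1, nat_lit 4, nat_lit 0x47⟩ (.nil) (.nil)
def t14_10971 : Tr := .node ⟨nat_lit 7, nat_lit 0x400020002000500050, nat_lit 0x1003010, nat_lit 2, nat_lit 4, nat_lit 0x47⟩ (.nil) (.nil)
def t14_6875 : Tr := .node ⟨nat_lit 6, nat_lit 0x200020, nat_lit 0x11130, nat_lit 5, nat_lit 4, nat_lit 0x4a⟩ (.nil) (.nil)
def t14_15067 : Tr := .node ⟨nat_lit 7, nat_lit 0x1800500060, nat_lit 0x1010211, nat_lit 1, nat_lit 4, nat_lit 0x47⟩ (.nil) (.nil)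
def t14_1755 : Tr := .node ⟨nat_lit 6, nat_lit 0x800200030, nat_lit 0x20004, nat_lit 3, nat_lit 4, nat_lit 0x48⟩ (.nil) (.nil)
def t14_9947 : Tr := .node ⟨nat_lit 7, nat_lit 0x5000600070, nat_lit 0x1003, nat_lit 0, nat_lit 4, nat_lit 0x45⟩ (.nil) (.nil)
def t14_5851 : Tr := .node ⟨nat_lit 8, nat_lit 0x2000a000c000c0, nat_lit 0x11211, nat_lit 1, nat_lit 4, nat_lit 0x47⟩ (.nil) (.nil)
def t14_14043 : Tr := .node ⟨nat_lit 7, nat_lit 0x2000500060, nat_lit 0x12220, nat_lit 1, nat_lit 4, nat_lit 0x48⟩ (.nil) (.nil)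
def t14_3803 : Tr := .node ⟨nat_lit 7, nat_lit 0x400040002000500070, nat_lit 0x1002201, nat_lit 2, nat_lit 4, nat_lit 0x47⟩ (.nil) (.nil)
def t14_11995 : Tr := .node ⟨nat_lit 6, nat_lit 0x3000300028, nat_lit 0x12210, nat_lit 3, nat_lit 4, nat_lit 0x47⟩ (.nil) (.nil)
def t14_7899 : Tr := .node ⟨nat_lit 6, nat_lit 0x800200030, nat_lit 0x10012, nat_lit 4, nat_lit 4, nat_lit 0x47⟩ (.nil) (.nil)
def t9_219 : Tr := .node ⟨nat_lit 4, nat_lit 8, nat_lit 0x2331, nat_lit 0, nat_lit 3, nat_lit 0x48⟩ (.node ⟨nat_lit 5, nat_lit 0x1000140014, nat_lit 0x31132, nat_lit 2, nat_lit 4, nat_lit 0x49⟩ (.node ⟨nat_lit 6, nat_lit 0x200030, nat_lit 0x3130, nat_lit 1, nat_lit 4, nat_lit 0x49⟩ (.node ⟨nat_lit 4, nat_lit 0x80004, nat_lit 0x1133, nat_lit 4, nat_lit 4, nat_lit 0x47⟩ (.node ⟨nat_lit 5, nat_lit 0x100008, nat_lit 0x12112, nat_lit 9, nat_lit 4, nat_lit 0x4a⟩ (t14_219)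 (t14_8411)) (.node ⟨nat_lit 6, nat_lit 0x20001000300038, nat_lit 0x11123, nat_lit 3, nat_lit 4, nat_lit 0x46⟩ (t14_4315) (t14_12507))) (.node ⟨nat_lit 6, nat_lit 0x2000080030, nat_lit 0x21033, nat_lit 0, nat_lit 4, nat_lit 0x48⟩ (.node ⟨nat_lit 7, nat_lit 0x40001000500068, nat_lit 0x101021, nat_lit 0, nat_lit 4, nat_lit 0x46⟩ (t14_2267) (t14_10459)) (.node ⟨nat_lit 7, nat_lit 0x40002000500064, nat_lit 0x1201120, nat_lit 1, nat_lit 4, nat_lit 0x48⟩ (t14_6363) (t14_14555)))) (.node ⟨nat_lit 6, nat_lit 0x20, nat_lit 0x121111, nat_lit 0, nat_lit 4, nat_lit 0x4a⟩ (.node ⟨nat_lit 6, nat_lit 0x200030, nat_lit 0x121121, nat_lit 3, nat_lit 4, nat_lit 0x4a⟩ (.node ⟨nat_lit 6, nat_lit 0x80030, nat_lit 0x110103, nat_lit 2, nat_lit 4, nat_lit 0x48⟩ (t14_1243) (t14_9435)) (.node ⟨nat_lit 7, nat_lit 0x40002000600064, nat_lit 0x122210, nat_lit 0, nat_lit 4, nat_lit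 0x48⟩ (t14_5339) (t14_13531))) (.node ⟨nat_lit 5, nat_lit 0x140018, nat_lit 0x2230, nat_lit 3, nat_lit 4, nat_lit 0x47⟩ (.node ⟨nat_lit 5, nat_lit 0x100018, nat_lit 0x11240, nat_lit 1, nat_lit 3, nat_lit 0x47⟩ (t14_3291) (t14_11483)) (.node ⟨nat_lit 6, nat_lit 0x800080030, nat_lit 0x110302, nat_lit 3, nat_lit 4, nat_lit 0x48⟩ (t14_7387) (t14_15579))))) (.node ⟨nat_lit 5, nat_lit 0x100008, nat_lit 0x1320, nat_lit 0, nat_lit 4, nat_lit 0x47⟩ (.node ⟨nat_lit 6, nat_lit 0x800080030, nat_lit 0x210102, nat_lit 3, nat_lit 4, nat_lit 0x48⟩ (.node ⟨nat_lit 7, nat_lit 0x40001000480060, nat_lit 0x1201002, nat_lit 0, nat_lit 4, nat_lit 0x48⟩ (.node ⟨nat_lit 6, nat_lit 0x200020, nat_lit 0x221100, nat_lit 1, nat_lit 3, nat_lit 0x49⟩ (t14_731) (t14_8923)) (.node ⟨nat_lit 7, nat_lit 0x400040004000200020, nat_lit 0x122120, nat_lit 1, nat_lit 4, nat_lit 0x49⟩ (t14_4827)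 (t14_13019))) (.node ⟨nat_lit 6, nat_lit 0x800280030, nat_lit 0x110021, nat_lit 1, nat_lit 4, nat_lit 0x46⟩ (.node ⟨nat_lit 7, nat_lit 0x800500060, nat_lit 0x1210003, nat_lit 1, nat_lit 4, nat_lit 0x49⟩ (t14_2779) (t14_10971)) (.node ⟨nat_lit 5, nat_lit 0x40018, nat_lit 0x11022, nat_lit 4, nat_lit 4, nat_lit 0x47⟩ (t14_6875) (t14_15067)))) (.node ⟨nat_lit 6, nat_lit 0x300030, nat_lit 0x111122, nat_lit 0, nat_lit 4, nat_lit 0x48⟩ (.node ⟨nat_lit 7, nat_lit 0x10004000500064, nat_lit 0x12111, nat_lit 1, nat_lit 4, nat_lit 0x47⟩ (.node ⟨nat_lit 6, nat_lit 0x1000300028, nat_lit 0x101013, nat_lit 0, nat_lit 4, nat_lit 0x46⟩ (t14_1755) (t14_9947)) (.node ⟨nat_lit 8, nat_lit 0x80008000800088, nat_lit 0x2211101, nat_lit 0, nat_lit 4, nat_lit 0x4b⟩ (t14_5851) (t14_14043))) (.node ⟨nat_lit 6, nat_lit 0x2000080034, nat_lit 0x220122, nat_lit 1, nat_lit 4, nat_lit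 0x48⟩ (.node ⟨nat_lit 4, nat_lit 0x8000c, nat_lit 0x1004, nat_lit 6, nat_lit 4, nat_lit 0x46⟩ (t14_3803) (t14_11995)) (.node ⟨nat_lit 5, nat_lit 0x100010, nat_lit 0x21100, nat_lit 1, nat_lit 3, nat_lit 0x47⟩ (t14_7899) (.nil)))))
def t14_475 : Tr := .node ⟨nat_lit 6, nat_lit 0x200030, nat_lit 0x122210, nat_lit 0, nat_lit 4, nat_lit 0x4a⟩ (.nil) (.nil)
def t14_8667 : Tr := .node ⟨nat_lit 7, nat_lit 0x10001000600060, nat_lit 0x20, nat_lit 3, nat_lit 4, nat_lit 0x46⟩ (.nil) (.nil)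
def t14_4571 : Tr := .node ⟨nat_lit 8, nat_lit 0x20002000c000c0, nat_lit 0x10020021, nat_lit 2, nat_lit 4, nat_lit 0x49⟩ (.nil) (.nil)
def t14_12763 : Tr := .node ⟨nat_lit 8, nat_lit 0x4000800060009000e000d0, nat_lit 0x210100, nat_lit 0, nat_lit 4, nat_lit 0x45⟩ (.nil) (.nil)
def t14_2523 : Tr := .node ⟨nat_lit 7, nat_lit 0x2000400060, nat_lit 0x1020210, nat_lit 0, nat_lit 4, nat_lit 0x49⟩ (.nil) (.nil)
def t14_10715 : Tr := .node ⟨nat_lit 7, nat_lit 0x200020004000640070, nat_lit 0x10102, nat_lit 2, nat_lit 4, nat_lit 0x45⟩ (.nil) (.nil)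
def t14_6619 : Tr := .node ⟨nat_lit 7, nat_lit 0x4000200060, nat_lit 0x111013, nat_lit 1, nat_lit 4, nat_lit 0x49⟩ (.nil) (.nil)
def t14_14811 : Tr := .node ⟨nat_lit 8, nat_lit 0x400040008000a000d0, nat_lit 0x21110, nat_lit 0, nat_lit 4, nat_lit 0x47⟩ (.nil) (.nil)
def t14_1499 : Tr := .node ⟨nat_lit 7, nat_lit 0x4000200020, nat_lit 0x1010120, nat_lit 0, nat_lit 4, nat_lit 0x49⟩ (.nil) (.nil)
def t14_9691 : Tr := .node ⟨nat_lit 8, nat_lit 0x8000800040004000a000a0, nat_lit 0x111021, nat_lit 4, nat_lit 4, nat_lit 0x48⟩ (.nil) (.nil)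
def t14_5595 : Tr := .node ⟨nat_lit 7, nat_lit 0x40001000600060, nat_lit 0x12120, nat_lit 5, nat_lit 4, nat_lit 0x48⟩ (.nil) (.nil)
def t14_13787 : Tr := .node ⟨nat_lit 7, nat_lit 0x10001000600060, nat_lit 0x11, nat_lit 0, nat_lit 4, nat_lit 0x45⟩ (.nil) (.nil)
def t14_3547 : Tr := .node ⟨nat_lit 7, nat_lit 0x50005000300060, nat_lit 0x2012, nat_lit 1, nat_lit 4, nat_lit 0x45⟩ (.nil) (.nil)
def t14_11739 : Tr := .node ⟨nat_lit 4, nat_lit 0x80004, nat_lit 4, nat_lit 9, nat_lit 4, nat_lit 0x47⟩ (.nil) (.nil)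
def t14_7643 : Tr := .node ⟨nat_lit 3, nat_lit 6, nat_lit 2, nat_lit 0xb, nat_lit 4, nat_lit 0x45⟩ (.nil) (.nil)
def t14_987 : Tr := .node ⟨nat_lit 4, nat_lit 0x80008000c, nat_lit 0x121, nat_lit 5, nat_lit 4, nat_lit 0x45⟩ (.nil) (.nil)
def t14_9179 : Tr := .node ⟨nat_lit 7, nat_lit 0x400050005000600070, nat_lit 0x110021, nat_lit 1, nat_lit 4, nat_lit 0x46⟩ (.nil) (.nil)
def t14_5083 : Tr := .node ⟨nat_lit 7, nat_lit 0x200040003000480070, nat_lit 0x113001, nat_lit 0, nat_lit 4, nat_lit 0x46⟩ (.nil) (.nil)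
def t14_13275 : Tr := .node ⟨nat_lit 8, nat_lit 0x2000800088008800c0, nat_lit 0x2100, nat_lit 3, nat_lit 4, nat_lit 0x48⟩ (.nil) (.nil)
def t14_3035 : Tr := .node ⟨nat_lit 8, nat_lit 0x80004000a000d000d0, nat_lit 0x10112011, nat_lit 0, nat_lit 4, nat_lit 0x47⟩ (.nil) (.nil)
def t14_11227 : Tr := .node ⟨nat_lit 7, nat_lit 0x6000480070, nat_lit 0x111013, nat_lit 1, nat_lit 4, nat_lit 0x47⟩ (.nil) (.nil)
def t14_7131 : Tr := .node ⟨nat_lit 8, nat_lit 0x200020008000c400c4, nat_lit 0x20020111, nat_lit 0, nat_lit 4, nat_lit 0x48⟩ (.nil) (.nil)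
def t14_15323 : Tr := .node ⟨nat_lit 7, nat_lit 0x40002000500060, nat_lit 0x1011002, nat_lit 1, nat_lit 3, nat_lit 0x46⟩ (.nil) (.nil)
def t14_2011 : Tr := .node ⟨nat_lit 7, nat_lit 0x40002000500060, nat_lit 0x13021, nat_lit 0, nat_lit 4, nat_lit 0x47⟩ (.nil) (.nil)
def t14_10203 : Tr := .node ⟨nat_lit 3, nat_lit 0x40006, nat_lit 0x32, nat_lit 0xc, nat_lit 4, nat_lit 0x46⟩ (.nil) (.nil)
def t14_6107 : Tr := .node ⟨nat_lit 4, nat_lit 0x80008, nat_lit 0x310, nat_lit 7, nat_lit 4, nat_lit 0x47⟩ (.nil) (.nil)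
def t14_14299 : Tr := .node ⟨nat_lit 8, nat_lit 0x400080002000c800e0, nat_lit 0x10011003, nat_lit 2, nat_lit 4, nat_lit 0x47⟩ (.nil) (.nil)
def t14_4059 : Tr := .node ⟨nat_lit 7, nat_lit 0x40001000500068, nat_lit 0x200021, nat_lit 0, nat_lit 4, nat_lit 0x46⟩ (.nil) (.nil)
def t14_12251 : Tr := .node ⟨nat_lit 8, nat_lit 0x800080004000880090, nat_lit 0x1121000, nat_lit 1, nat_lit 4, nat_lit 0x49⟩ (.nil) (.nil)
def t14_8155 : Tr := .node ⟨nat_lit 8, nat_lit 0x2000800088008800c0, nat_lit 0x1310, nat_lit 5, nat_lit 4, nat_lit 0x48⟩ (.nil) (.nil)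
def t9_475 : Tr := .node ⟨nat_lit 4, nat_lit 8, nat_lit 0x3330, nat_lit 1, nat_lit 3, nat_lit 0x49⟩ (.node ⟨nat_lit 5, nat_lit 0x100014001c, nat_lit 0x31130, nat_lit 3, nat_lit 4, nat_lit 0x48⟩ (.node ⟨nat_lit 6, nat_lit 0x800080030, nat_lit 0x220112, nat_lit 0, nat_lit 4, nat_lit 0x48⟩ (.node ⟨nat_lit 5, nat_lit 0x180018, nat_lit 0x21121, nat_lit 0, nat_lit 3, nat_lit 0x46⟩ (.node ⟨nat_lit 6, nat_lit 0x2000100030, nat_lit 0x20113, nat_lit 0, nat_lit 4, nat_lit 0x48⟩ (t14_475) (t14_8667)) (.node ⟨nat_lit 7, nat_lit 0x20002000100040, nat_lit 0x1122020, nat_lit 1, nat_lit 4, nat_lit 0x4a⟩ (t14_4571) (t14_12763))) (.node ⟨nat_lit 5, nat_lit 0x800100012, nat_lit 0x10022, nat_lit 6, nat_lit 4, nat_lit 0x47⟩ (.node ⟨nat_lit 6, nat_lit 0x2000100030, nat_lit 0x111223, nat_lit 2, nat_lit 4, nat_lit 0x49⟩ (t14_2523) (t14_10715)) (.node ⟨nat_lit 5, nat_lit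 0x100010, nat_lit 0x2122, nat_lit 6, nat_lit 4, nat_lit 0x49⟩ (t14_6619) (t14_14811)))) (.node ⟨nat_lit 5, nat_lit 0x800100012, nat_lit 0x21100, nat_lit 2, nat_lit 4, nat_lit 0x46⟩ (.node ⟨nat_lit 7, nat_lit 0x1000100060, nat_lit 0x2102102, nat_lit 2, nat_lit 4, nat_lit 0x4a⟩ (.node ⟨nat_lit 7, nat_lit 0x4000100020, nat_lit 0x111030, nat_lit 2, nat_lit 4, nat_lit 0x4a⟩ (t14_1499) (t14_9691)) (.node ⟨nat_lit 7, nat_lit 0x400020002000500068, nat_lit 0x112201, nat_lit 0, nat_lit 4, nat_lit 0x47⟩ (t14_5595) (t14_13787))) (.node ⟨nat_lit 7, nat_lit 0x6000600050, nat_lit 0x12003, nat_lit 1, nat_lit 4, nat_lit 0x47⟩ (.node ⟨nat_lit 3, nat_lit 6, nat_lit 0x110, nat_lit 6, nat_lit 4, nat_lit 0x44⟩ (t14_3547) (t14_11739)) (.node ⟨nat_lit 5, nat_lit 0x10001000180018, nat_lit 0x11120, nat_lit 6, nat_lit 4, nat_lit 0x47⟩ (t14_7643) (.nil))))) (.node ⟨nat_lit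 2, nat_lit 2, nat_lit 3, nat_lit 7, nat_lit 3, nat_lit 0x43⟩ (.node ⟨nat_lit 5, nat_lit 0x100010, nat_lit 0x12220, nat_lit 3, nat_lit 4, nat_lit 0x49⟩ (.node ⟨nat_lit 6, nat_lit 0x20, nat_lit 0x221110, nat_lit 1, nat_lit 4, nat_lit 0x4b⟩ (.node ⟨nat_lit 6, nat_lit 0x200032, nat_lit 0x111132, nat_lit 1, nat_lit 4, nat_lit 0x49⟩ (t14_987) (t14_9179)) (.node ⟨nat_lit 8, nat_lit 0x80004000400040, nat_lit 0x220210, nat_lit 1, nat_lit 4, nat_lit 0x4b⟩ (t14_5083) (t14_13275))) (.node ⟨nat_lit 6, nat_lit 0x2000240018, nat_lit 0x111210, nat_lit 0, nat_lit 4, nat_lit 0x47⟩ (.node ⟨nat_lit 7, nat_lit 0x40001000100060, nat_lit 0x2101101, nat_lit 0, nat_lit 3, nat_lit 0x47⟩ (t14_3035) (t14_11227)) (.node ⟨nat_lit 7, nat_lit 0x20004000440070, nat_lit 0x1102202, nat_lit 1, nat_lit 4, nat_lit 0x48⟩ (t14_7131) (t14_15323)))) (.node ⟨nat_lit 6, nat_lit 0x280030,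 nat_lit 0x111210, nat_lit 1, nat_lit 4, nat_lit 0x48⟩ (.node ⟨nat_lit 7, nat_lit 0x4000100060, nat_lit 0x311111, nat_lit 1, nat_lit 4, nat_lit 0x4a⟩ (.node ⟨nat_lit 6, nat_lit 0x800280030, nat_lit 0x121113, nat_lit 1, nat_lit 4, nat_lit 0x48⟩ (t14_2011) (t14_10203)) (.node ⟨nat_lit 7, nat_lit 0x40002000600050, nat_lit 0x100220, nat_lit 0, nat_lit 4, nat_lit 0x47⟩ (t14_6107) (t14_14299))) (.node ⟨nat_lit 4, nat_lit 0x80004, nat_lit 0x3120, nat_lit 5, nat_lit 3, nat_lit 0x47⟩ (.node ⟨nat_lit 8, nat_lit 0x4000a000c000c8, nat_lit 0x1011030, nat_lit 0, nat_lit 4, nat_lit 0x48⟩ (t14_4059) (t14_12251)) (.node ⟨nat_lit 6, nat_lit 0x2000080030, nat_lit 0x101112, nat_lit 5, nat_lit 4, nat_lit 0x48⟩ (t14_8155) (.nil)))))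
def t14_59 : Tr := .node ⟨nat_lit 5, nat_lit 0x100018, nat_lit 0x12211, nat_lit 5, nat_lit 4, nat_lit 0x49⟩ (.nil) (.nil)
def t14_8251 : Tr := .node ⟨nat_lit 5, nat_lit 0x100018001c, nat_lit 0x1203, nat_lit 6, nat_lit 4, nat_lit 0x46⟩ (.nil) (.nil)
def t14_4155 : Tr := .node ⟨nat_lit 9, nat_lit 0x10001000100008001200120, nat_lit 0x11110011, nat_lit 1, nat_lit 4, nat_lit 0x4a⟩ (.nil) (.nil)
def t14_12347 : Tr := .node ⟨nat_lit 5, nat_lit 0x1000080018, nat_lit 0x110, nat_lit 5, nat_lit 4, nat_lit 0x45⟩ (.nil) (.nil)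
def t14_2107 : Tr := .node ⟨nat_lit 7, nat_lit 0x4000600064, nat_lit 0x1111220, nat_lit 0, nat_lit 4, nat_lit 0x49⟩ (.nil) (.nil)
def t14_10299 : Tr := .node ⟨nat_lit 8, nat_lit 0x8000800040008800d0, nat_lit 0x10000002, nat_lit 0, nat_lit 4, nat_lit 0x47⟩ (.nil) (.nil)
def t14_6203 : Tr := .node ⟨nat_lit 6, nat_lit 0x200010, nat_lit 0x111101, nat_lit 2, nat_lit 4, nat_lit 0x49⟩ (.nil) (.nil)
def t14_14395 : Tr := .node ⟨nat_lit 6, nat_lit 0x1000280034, nat_lit 0x201, nat_lit 2, nat_lit 4, nat_lit 0x45⟩ (.nil) (.nil)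
def t14_1083 : Tr := .node ⟨nat_lit 7, nat_lit 0x800500060, nat_lit 0x111112, nat_lit 1, nat_lit 4, nat_lit 0x48⟩ (.nil) (.nil)
def t14_9275 : Tr := .node ⟨nat_lit 8, nat_lit 0x8000400040005000a000d0, nat_lit 0x210001, nat_lit 0, nat_lit 4, nat_lit 0x46⟩ (.nil) (.nil)
def t14_5179 : Tr := .node ⟨nat_lit 5, nat_lit 0x1000100018, nat_lit 0x2310, nat_lit 5, nat_lit 4, nat_lit 0x48⟩ (.nil) (.nil)
def t14_13371 : Tr := .node ⟨nat_lit 3, nat_lit 6, nat_lit 0x402, nat_lit 2, nat_lit 3, nat_lit 0x45⟩ (.nil) (.nil)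
def t14_3131 : Tr := .node ⟨nat_lit 8, nat_lit 0x40008000c000d000d0, nat_lit 0x1200121, nat_lit 0, nat_lit 4, nat_lit 0x47⟩ (.nil) (.nil)
def t14_11323 : Tr := .node ⟨nat_lit 7, nat_lit 0x40001000600060, nat_lit 0x21120, nat_lit 3, nat_lit 4, nat_lit 0x48⟩ (.nil) (.nil)
def t14_7227 : Tr := .node ⟨nat_lit 7, nat_lit 0x400040004000200020, nat_lit 0x120011, nat_lit 5, nat_lit 4, nat_lit 0x49⟩ (.nil) (.nil)
def t14_15419 : Tr := .node ⟨nat_lit 8, nat_lit 0x40004000800080008800e0, nat_lit 0x1111000, nat_lit 0, nat_lit 4, nat_lit 0x47⟩ (.nil) (.nil)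
def t14_571 : Tr := .node ⟨nat_lit 7, nat_lit 0x200040004800600068, nat_lit 0x1020022, nat_lit 1, nat_lit 4, nat_lit 0x46⟩ (.nil) (.nil)
def t14_8763 : Tr := .node ⟨nat_lit 8, nat_lit 0x4000400080008000880060, nat_lit 0x10100101, nat_lit 0, nat_lit 4, nat_lit 0x47⟩ (.nil) (.nil)
def t14_4667 : Tr := .node ⟨nat_lit 8, nat_lit 0x10008000a000c0, nat_lit 0x11000212, nat_lit 0, nat_lit 4, nat_lit 0x49⟩ (.nil) (.nil)
def t14_12859 : Tr := .node ⟨nat_lit 7, nat_lit 0x2000400060, nat_lit 0x20010, nat_lit 0, nat_lit 4, nat_lit 0x48⟩ (.nil) (.nil)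
def t14_2619 : Tr := .node ⟨nat_lit 8, nat_lit 0x8000800020009000c0, nat_lit 0x121010, nat_lit 3, nat_lit 4, nat_lit 0x49⟩ (.nil) (.nil)
def t14_10811 : Tr := .node ⟨nat_lit 4, nat_lit 0, nat_lit 0x2221, nat_lit 9, nat_lit 3, nat_lit 0x49⟩ (.nil) (.nil)
def t14_6715 : Tr := .node ⟨nat_lit 6, nat_lit 0x280030, nat_lit 0x11101, nat_lit 5, nat_lit 4, nat_lit 0x48⟩ (.nil) (.nil)
def t14_14907 : Tr := .node ⟨nat_lit 7, nat_lit 0x40004800480068, nat_lit 0x1011111, nat_lit 4, nat_lit 4, nat_lit 0x48⟩ (.nil) (.nil)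
def t14_1595 : Tr := .node ⟨nat_lit 7, nat_lit 0x40004000200068, nat_lit 0x12110, nat_lit 0, nat_lit 4, nat_lit 0x47⟩ (.nil) (.nil)
def t14_9787 : Tr := .node ⟨nat_lit 9, nat_lit 0x8001000040011001800180, nat_lit 0x210120, nat_lit 0, nat_lit 4, nat_lit 0x48⟩ (.nil) (.nil)
def t14_5691 : Tr := .node ⟨nat_lit 7, nat_lit 0x4000500060, nat_lit 0x111220, nat_lit 3, nat_lit 4, nat_lit 0x49⟩ (.nil) (.nil)
def t14_13883 : Tr := .node ⟨nat_lit 7, nat_lit 0x800600050, nat_lit 0x320, nat_lit 1, nat_lit 4, nat_lit 0x47⟩ (.nil) (.nil)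
def t14_3643 : Tr := .node ⟨nat_lit 5, nat_lit 0x10001a, nat_lit 0x200, nat_lit 3, nat_lit 4, nat_lit 0x45⟩ (.nil) (.nil)
def t14_11835 : Tr := .node ⟨nat_lit 4, nat_lit 0x80004, nat_lit 0x23, nat_lit 7, nat_lit 4, nat_lit 0x46⟩ (.nil) (.nil)
def t14_7739 : Tr := .node ⟨nat_lit 5, nat_lit 0x1000100008, nat_lit 0x202, nat_lit 4, nat_lit 4, nat_lit 0x46⟩ (.nil) (.nil)
def t9_59 : Tr := .node ⟨nat_lit 5, nat_lit 0x40018, nat_lit 0x21111, nat_lit 1, nat_lit 3, nat_lit 0x46⟩ (.node ⟨nat_lit 6, nat_lit 0x200010, nat_lit 0x113201, nat_lit 0, nat_lit 3, nat_lit 0x49⟩ (.node ⟨nat_lit 6, nat_lit 0x300030, nat_lit 0x3320, nat_lit 0, nat_lit 4, nat_lit 0x48⟩ (.node ⟨nat_lit 6, nat_lit 0x2000200010, nat_lit 0x12100, nat_lit 3, nat_lit 4, nat_lit 0x48⟩ (.node ⟨nat_lit 5, nat_lit 0x10, nat_lit 0x22213, nat_lit 1, nat_lit 3, nat_lit 0x49⟩ (t14_59) (t14_8251))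 (.node ⟨nat_lit 7, nat_lit 0x20004000100060, nat_lit 0x1011000, nat_lit 0, nat_lit 4, nat_lit 0x47⟩ (t14_4155) (t14_12347))) (.node ⟨nat_lit 4, nat_lit 0x8000c, nat_lit 0x1222, nat_lit 0xa, nat_lit 4, nat_lit 0x48⟩ (.node ⟨nat_lit 6, nat_lit 0x1000080020, nat_lit 0x101211, nat_lit 0, nat_lit 4, nat_lit 0x47⟩ (t14_2107) (t14_10299)) (.node ⟨nat_lit 6, nat_lit 0x800300038, nat_lit 0x200221, nat_lit 0, nat_lit 4, nat_lit 0x46⟩ (t14_6203) (t14_14395)))) (.node ⟨nat_lit 4, nat_lit 0x40008, nat_lit 0x1122, nat_lit 2, nat_lit 3, nat_lit 0x45⟩ (.node ⟨nat_lit 6, nat_lit 0x800100020, nat_lit 0x212110, nat_lit 0, nat_lit 4, nat_lit 0x49⟩ (.node ⟨nat_lit 6, nat_lit 0x800300030, nat_lit 0x1321, nat_lit 0, nat_lit 4, nat_lit 0x46⟩ (t14_1083) (t14_9275)) (.node ⟨nat_lit 4, nat_lit 0xc000c, nat_lit 0x1041, nat_lit 7, nat_lit 4, nat_lit 0x46⟩ (t14_5179) (t14_13371)))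 (.node ⟨nat_lit 6, nat_lit 0x200030, nat_lit 0x102201, nat_lit 2, nat_lit 4, nat_lit 0x49⟩ (.node ⟨nat_lit 6, nat_lit 0x2000100008, nat_lit 0x2001, nat_lit 1, nat_lit 4, nat_lit 0x47⟩ (t14_3131) (t14_11323)) (.node ⟨nat_lit 4, nat_lit 0x8000c000c, nat_lit 0x1121, nat_lit 9, nat_lit 4, nat_lit 0x46⟩ (t14_7227) (t14_15419))))) (.node ⟨nat_lit 4, nat_lit 0xc, nat_lit 0x3110, nat_lit 0, nat_lit 3, nat_lit 0x46⟩ (.node ⟨nat_lit 2, nat_lit 2, nat_lit 0x23, nat_lit 0xe, nat_lit 4, nat_lit 0x47⟩ (.node ⟨nat_lit 7, nat_lit 0x400020, nat_lit 0x1021110, nat_lit 0, nat_lit 3, nat_lit 0x49⟩ (.node ⟨nat_lit 8, nat_lit 0x800040, nat_lit 0x2111101, nat_lit 2, nat_lit 4, nat_lit 0x4d⟩ (t14_571) (t14_8763)) (.node ⟨nat_lit 7, nat_lit 0x4000100060, nat_lit 0x1111101, nat_lit 0, nat_lit 4, nat_lit 0x49⟩ (t14_4667) (t14_12859))) (.node ⟨nat_lit 6, nat_lit 0x300028,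 nat_lit 0x100012, nat_lit 0, nat_lit 4, nat_lit 0x46⟩ (.node ⟨nat_lit 8, nat_lit 0x800080004000400020, nat_lit 0x110103, nat_lit 1, nat_lit 4, nat_lit 0x49⟩ (t14_2619) (t14_10811)) (.node ⟨nat_lit 8, nat_lit 0x8000800040, nat_lit 0x1211100, nat_lit 4, nat_lit 4, nat_lit 0x4c⟩ (t14_6715) (t14_14907)))) (.node ⟨nat_lit 7, nat_lit 0x40004000100020, nat_lit 0x122011, nat_lit 0, nat_lit 4, nat_lit 0x49⟩ (.node ⟨nat_lit 6, nat_lit 0x800280030, nat_lit 0x31211, nat_lit 1, nat_lit 4, nat_lit 0x48⟩ (.node ⟨nat_lit 6, nat_lit 0x1000280030, nat_lit 0x1011, nat_lit 1, nat_lit 4, nat_lit 0x45⟩ (t14_1595) (t14_9787)) (.node ⟨nat_lit 7, nat_lit 0x40004000600068, nat_lit 0x112012, nat_lit 3, nat_lit 4, nat_lit 0x48⟩ (t14_5691) (t14_13883))) (.node ⟨nat_lit 6, nat_lit 0x1000200022, nat_lit 0x2021, nat_lit 1, nat_lit 4, nat_lit 0x47⟩ (.node ⟨nat_lit 6, nat_lit 0x800300030,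 nat_lit 0x1100, nat_lit 1, nat_lit 4, nat_lit 0x45⟩ (t14_3643) (t14_11835)) (.node ⟨nat_lit 7, nat_lit 0x40001000540068, nat_lit 0x1112010, nat_lit 3, nat_lit 4, nat_lit 0x48⟩ (t14_7739) (.nil)))))
def t14_315 : Tr := .node ⟨nat_lit 7, nat_lit 0x1000500060, nat_lit 0x1201212, nat_lit 1, nat_lit 4, nat_lit 0x49⟩ (.nil) (.nil)
def t14_8507 : Tr := .node ⟨nat_lit 8, nat_lit 0x8000800040004000a000a0, nat_lit 0x111031, nat_lit 2, nat_lit 4, nat_lit 0x48⟩ (.nil) (.nil)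
def t14_4411 : Tr := .node ⟨nat_lit 9, nat_lit 0x10001000080008000400120, nat_lit 0x101111001, nat_lit 2, nat_lit 4, nat_lit 0x4a⟩ (.nil) (.nil)
def t14_12603 : Tr := .node ⟨nat_lit 8, nat_lit 0x2000c0003000e0, nat_lit 0x10002003, nat_lit 0, nat_lit 4, nat_lit 0x47⟩ (.nil) (.nil)
def t14_2363 : Tr := .node ⟨nat_lit 6, nat_lit 0x2000100024, nat_lit 0x21200, nat_lit 2, nat_lit 4, nat_lit 0x48⟩ (.nil) (.nil)
def t14_10555 : Tr := .node ⟨nat_lit 7, nat_lit 0x3000500060, nat_lit 0x1020, nat_lit 4, nat_lit 4, nat_lit 0x47⟩ (.nil) (.nil)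
def t14_6459 : Tr := .node ⟨nat_lit 5, nat_lit 0x100018, nat_lit 0x11110, nat_lit 7, nat_lit 4, nat_lit 0x48⟩ (.nil) (.nil)
def t14_14651 : Tr := .node ⟨nat_lit 7, nat_lit 0x40004800500060, nat_lit 0x112011, nat_lit 4, nat_lit 4, nat_lit 0x48⟩ (.nil) (.nil)
def t14_1339 : Tr := .node ⟨nat_lit 7, nat_lit 0x40001000200048, nat_lit 0x112111, nat_lit 1, nat_lit 4, nat_lit 0x48⟩ (.nil) (.nil)
def t14_9531 : Tr := .node ⟨nat_lit 9, nat_lit 0x10001000080012001200110, nat_lit 0x101110110, nat_lit 2, nat_lit 4, nat_lit 0x4a⟩ (.nil) (.nil)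
def t14_5435 : Tr := .node ⟨nat_lit 7, nat_lit 0x400060, nat_lit 0x111131, nat_lit 1, nat_lit 4, nat_lit 0x4a⟩ (.nil) (.nil)
def t14_13627 : Tr := .node ⟨nat_lit 5, nat_lit 0x40018, nat_lit 3, nat_lit 1, nat_lit 4, nat_lit 0x44⟩ (.nil) (.nil)
def t14_3387 : Tr := .node ⟨nat_lit 5, nat_lit 0x18, nat_lit 0x11301, nat_lit 0, nat_lit 4, nat_lit 0x48⟩ (.nil) (.nil)
def t14_11579 : Tr := .node ⟨nat_lit 7, nat_lit 0x10006000600060, nat_lit 0x410, nat_lit 3, nat_lit 4, nat_lit 0x47⟩ (.nil) (.nil)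
def t14_7483 : Tr := .node ⟨nat_lit 8, nat_lit 0x80008000c0, nat_lit 0x10111111, nat_lit 1, nat_lit 4, nat_lit 0x4b⟩ (.nil) (.nil)
def t14_827 : Tr := .node ⟨nat_lit 7, nat_lit 0x10002000500060, nat_lit 0x11311, nat_lit 0, nat_lit 4, nat_lit 0x47⟩ (.nil) (.nil)
def t14_9019 : Tr := .node ⟨nat_lit 7, nat_lit 0x40002000600060, nat_lit 0x13021, nat_lit 0, nat_lit 4, nat_lit 0x48⟩ (.nil) (.nil)
def t14_4923 : Tr := .node ⟨nat_lit 6, nat_lit 0x20002000200028, nat_lit 0x12101, nat_lit 9, nat_lit 4, nat_lit 0x49⟩ (.nil) (.nil)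
def t14_13115 : Tr := .node ⟨nat_lit 4, nat_lit 0xc000c, nat_lit 0x2000, nat_lit 5, nat_lit 3, nat_lit 0x44⟩ (.nil) (.nil)
def t14_2875 : Tr := .node ⟨nat_lit 8, nat_lit 0x400040008000c0, nat_lit 0x212110, nat_lit 0, nat_lit 4, nat_lit 0x4a⟩ (.nil) (.nil)
def t14_11067 : Tr := .node ⟨nat_lit 5, nat_lit 0x180018, nat_lit 0x11120, nat_lit 4, nat_lit 4, nat_lit 0x47⟩ (.nil) (.nil)
def t14_6971 : Tr := .node ⟨nat_lit 6, nat_lit 0x280030, nat_lit 0x121101, nat_lit 0, nat_lit 4, nat_lit 0x48⟩ (.nil) (.nil)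
def t14_15163 : Tr := .node ⟨nat_lit 9, nat_lit 0x1000100004001100180, nat_lit 0x11110111, nat_lit 0, nat_lit 4, nat_lit 0x4a⟩ (.nil) (.nil)
def t14_1851 : Tr := .node ⟨nat_lit 6, nat_lit 0x2000080030, nat_lit 0x31102, nat_lit 0, nat_lit 4, nat_lit 0x48⟩ (.nil) (.nil)
def t14_10043 : Tr := .node ⟨nat_lit 6, nat_lit 0x20001000100030, nat_lit 0x202, nat_lit 4, nat_lit 3, nat_lit 0x45⟩ (.nil) (.nil)
def t14_5947 : Tr := .node ⟨nat_lit 8, nat_lit 0x8000c000c0, nat_lit 0x1111211, nat_lit 0, nat_lit 4, nat_lit 0x4a⟩ (.nil) (.nil)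
def t14_14139 : Tr := .node ⟨nat_lit 7, nat_lit 0x400040004000200020, nat_lit 0x21021, nat_lit 2, nat_lit 4, nat_lit 0x48⟩ (.nil) (.nil)
def t14_3899 : Tr := .node ⟨nat_lit 9, nat_lit 0x4001000100019001900188, nat_lit 0x100001201, nat_lit 1, nat_lit 4, nat_lit 0x47⟩ (.nil) (.nil)
def t14_12091 : Tr := .node ⟨nat_lit 7, nat_lit 0x6000600050, nat_lit 0x11210, nat_lit 5, nat_lit 4, nat_lit 0x48⟩ (.nil) (.nil)
def t14_7995 : Tr := .node ⟨nat_lit 6, nat_lit 0x1000200022, nat_lit 0x1024, nat_lit 3, nat_lit 4, nat_lit 0x48⟩ (.nil) (.nil)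
def t9_315 : Tr := .node ⟨nat_lit 5, nat_lit 0x10, nat_lit 0x13111, nat_lit 5, nat_lit 4, nat_lit 0x4a⟩ (.node ⟨nat_lit 7, nat_lit 0x40001000100060, nat_lit 0x301202, nat_lit 0, nat_lit 4, nat_lit 0x49⟩ (.node ⟨nat_lit 3, nat_lit 0, nat_lit 0x322, nat_lit 0xe, nat_lit 4, nat_lit 0x4a⟩ (.node ⟨nat_lit 6, nat_lit 0x2000080030, nat_lit 0x11012, nat_lit 0, nat_lit 4, nat_lit 0x46⟩ (.node ⟨nat_lit 7, nat_lit 0x4000440030, nat_lit 0x2211101, nat_lit 0, nat_lit 4, nat_lit 0x4a⟩ (t14_315) (t14_8507)) (.node ⟨nat_lit 4, nat_lit 0x8000c, nat_lit 0x1140, nat_lit 7, nat_lit 3, nat_lit 0x46⟩ (t14_4411) (t14_12603))) (.node ⟨nat_lit 7, nat_lit 0x400060, nat_lit 0x2011122, nat_lit 0, nat_lit 4, nat_lit 0x4b⟩ (.node ⟨nat_lit 5, nat_lit 0x1000080008, nat_lit 0x11043, nat_lit 1, nat_lit 3, nat_lit 0x47⟩ (t14_2363) (t14_10555)) (.node ⟨nat_lit 6, nat_lit 0x2000080030,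 nat_lit 0x20022, nat_lit 1, nat_lit 4, nat_lit 0x47⟩ (t14_6459) (t14_14651)))) (.node ⟨nat_lit 6, nat_lit 0x1000200022, nat_lit 0x211110, nat_lit 0, nat_lit 4, nat_lit 0x48⟩ (.node ⟨nat_lit 7, nat_lit 0x4000100060, nat_lit 0x221012, nat_lit 1, nat_lit 4, nat_lit 0x4a⟩ (.node ⟨nat_lit 5, nat_lit 0x800100010, nat_lit 0x1000, nat_lit 1, nat_lit 3, nat_lit 0x44⟩ (t14_1339) (t14_9531)) (.node ⟨nat_lit 7, nat_lit 0x40002000500064, nat_lit 0x221120, nat_lit 0, nat_lit 4, nat_lit 0x48⟩ (t14_5435) (t14_13627))) (.node ⟨nat_lit 6, nat_lit 0x200030, nat_lit 0x12210, nat_lit 2, nat_lit 4, nat_lit 0x49⟩ (.node ⟨nat_lit 7, nat_lit 0x400040004800480070, nat_lit 0x101100, nat_lit 1, nat_lit 4, nat_lit 0x46⟩ (t14_3387) (t14_11579)) (.node ⟨nat_lit 7, nat_lit 0x40001000200020, nat_lit 0x10121, nat_lit 1, nat_lit 4, nat_lit 0x48⟩ (t14_7483) (.nil))))) (.node ⟨nat_lit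 4, nat_lit 0xc, nat_lit 0x1032, nat_lit 6, nat_lit 4, nat_lit 0x47⟩ (.node ⟨nat_lit 5, nat_lit 0x100018, nat_lit 0x2112, nat_lit 3, nat_lit 4, nat_lit 0x47⟩ (.node ⟨nat_lit 5, nat_lit 0x10, nat_lit 0x11111, nat_lit 0, nat_lit 4, nat_lit 0x47⟩ (.node ⟨nat_lit 5, nat_lit 0x18, nat_lit 0x22103, nat_lit 0, nat_lit 4, nat_lit 0x49⟩ (t14_827) (t14_9019)) (.node ⟨nat_lit 5, nat_lit 0x100010, nat_lit 0x12120, nat_lit 9, nat_lit 4, nat_lit 0x4a⟩ (t14_4923) (t14_13115))) (.node ⟨nat_lit 7, nat_lit 0x40002000580068, nat_lit 0x1011012, nat_lit 0, nat_lit 4, nat_lit 0x46⟩ (.node ⟨nat_lit 6, nat_lit 0x2000080010, nat_lit 0x11012, nat_lit 3, nat_lit 4, nat_lit 0x48⟩ (t14_2875) (t14_11067)) (.node ⟨nat_lit 4, nat_lit 0xc000c, nat_lit 0x1120, nat_lit 2, nat_lit 3, nat_lit 0x44⟩ (t14_6971) (t14_15163)))) (.node ⟨nat_lit 4, nat_lit 0xc, nat_lit 0x2210, nat_lit 7,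 nat_lit 4, nat_lit 0x48⟩ (.node ⟨nat_lit 7, nat_lit 0x20006000500068, nat_lit 0x121211, nat_lit 0, nat_lit 4, nat_lit 0x47⟩ (.node ⟨nat_lit 7, nat_lit 0x4000200020, nat_lit 0x10010, nat_lit 1, nat_lit 4, nat_lit 0x48⟩ (t14_1851) (t14_10043)) (.node ⟨nat_lit 9, nat_lit 0x1000100004001100180, nat_lit 0x1210010, nat_lit 1, nat_lit 4, nat_lit 0x4a⟩ (t14_5947) (t14_14139))) (.node ⟨nat_lit 7, nat_lit 0x10004000440060, nat_lit 0x100221, nat_lit 0, nat_lit 4, nat_lit 0x47⟩ (.node ⟨nat_lit 6, nat_lit 0x800300038, nat_lit 0x1303, nat_lit 1, nat_lit 4, nat_lit 0x46⟩ (t14_3899) (t14_12091)) (.node ⟨nat_lit 6, nat_lit 0x800200010, nat_lit 0x102021, nat_lit 0, nat_lit 4, nat_lit 0x48⟩ (t14_7995) (.nil)))))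
def t14_187 : Tr := .node ⟨nat_lit 6, nat_lit 0x2000080030, nat_lit 0x102111, nat_lit 2, nat_lit 4, nat_lit 0x48⟩ (.nil) (.nil)
def t14_8379 : Tr := .node ⟨nat_lit 6, nat_lit 0x30, nat_lit 0x1113, nat_lit 0, nat_lit 4, nat_lit 0x48⟩ (.nil) (.nil)
def t14_4283 : Tr := .node ⟨nat_lit 8, nat_lit 0x800080002000c0, nat_lit 0x1121110, nat_lit 1, nat_lit 4, nat_lit 0x4a⟩ (.nil) (.nil)
def t14_12475 : Tr := .node ⟨nat_lit 7, nat_lit 0x40002000200048, nat_lit 0x13001, nat_lit 1, nat_lit 4, nat_lit 0x48⟩ (.nil) (.nil)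
def t14_2235 : Tr := .node ⟨nat_lit 7, nat_lit 0x400040002000240050, nat_lit 0x220102, nat_lit 2, nat_lit 4, nat_lit 0x48⟩ (.nil) (.nil)
def t14_10427 : Tr := .node ⟨nat_lit 8, nat_lit 0x400080008800c000c8, nat_lit 0x10120020, nat_lit 2, nat_lit 4, nat_lit 0x48⟩ (.nil) (.nil)
def t14_6331 : Tr := .node ⟨nat_lit 5, nat_lit 0x100018001c, nat_lit 0x10020, nat_lit 5, nat_lit 4, nat_lit 0x45⟩ (.nil) (.nil)
def t14_14523 : Tr := .node ⟨nat_lit 7, nat_lit 0x20004000100060, nat_lit 0x14100, nat_lit 0, nat_lit 4, nat_lit 0x48⟩ (.nil) (.nil)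
def t14_1211 : Tr := .node ⟨nat_lit 6, nat_lit 0x1000200038, nat_lit 0x1131, nat_lit 0, nat_lit 4, nat_lit 0x46⟩ (.nil) (.nil)
def t14_9403 : Tr := .node ⟨nat_lit 7, nat_lit 0x400040004800600070, nat_lit 0x111120, nat_lit 4, nat_lit 4, nat_lit 0x47⟩ (.nil) (.nil)
def t14_5307 : Tr := .node ⟨nat_lit 7, nat_lit 0x1000500060, nat_lit 0x1111202, nat_lit 0, nat_lit 4, nat_lit 0x49⟩ (.nil) (.nil)
def t14_13499 : Tr := .node ⟨nat_lit 5, nat_lit 0x800100010, nat_lit 0x200, nat_lit 9, nat_lit 4, nat_lit 0x47⟩ (.nil) (.nil)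
def t14_3259 : Tr := .node ⟨nat_lit 5, nat_lit 0x18, nat_lit 0x21211, nat_lit 4, nat_lit 3, nat_lit 0x48⟩ (.nil) (.nil)
def t14_11451 : Tr := .node ⟨nat_lit 9, nat_lit 0x8001000100010801900190, nat_lit 0x101101020, nat_lit 0, nat_lit 4, nat_lit 0x48⟩ (.nil) (.nil)
def t14_7355 : Tr := .node ⟨nat_lit 7, nat_lit 0x4000400060, nat_lit 0x1022101, nat_lit 1, nat_lit 4, nat_lit 0x4a⟩ (.nil) (.nil)
def t14_15547 : Tr := .node ⟨nat_lit 0xa, nat_lit 0x2000200020002100210, nat_lit 0x111101110, nat_lit 0, nat_lit 4, nat_lit 0x4c⟩ (.nil) (.nil)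
def t14_699 : Tr := .node ⟨nat_lit 6, nat_lit 0x2000080030, nat_lit 0x11311, nat_lit 3, nat_lit 4, nat_lit 0x48⟩ (.nil) (.nil)
def t14_8891 : Tr := .node ⟨nat_lit 7, nat_lit 0x4000500060, nat_lit 0x1130, nat_lit 0, nat_lit 4, nat_lit 0x47⟩ (.nil) (.nil)
def t14_4795 : Tr := .node ⟨nat_lit 5, nat_lit 0x100018, nat_lit 0x10312, nat_lit 4, nat_lit 4, nat_lit 0x48⟩ (.nil) (.nil)
def t14_12987 : Tr := .node ⟨nat_lit 5, nat_lit 0x180018, nat_lit 0x30111, nat_lit 1, nat_lit 3, nat_lit 0x46⟩ (.nil) (.nil)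
def t14_2747 : Tr := .node ⟨nat_lit 7, nat_lit 0x40002000480060, nat_lit 0x21200, nat_lit 1, nat_lit 4, nat_lit 0x47⟩ (.nil) (.nil)
def t14_10939 : Tr := .node ⟨nat_lit 8, nat_lit 0x8000400040009000c8, nat_lit 0x12011, nat_lit 0, nat_lit 4, nat_lit 0x47⟩ (.nil) (.nil)
def t14_6843 : Tr := .node ⟨nat_lit 6, nat_lit 0x2000240024, nat_lit 0x111210, nat_lit 4, nat_lit 4, nat_lit 0x49⟩ (.nil) (.nil)
def t14_15035 : Tr := .node ⟨nat_lit 8, nat_lit 0x8000200090009000c0, nat_lit 0x1110111, nat_lit 2, nat_lit 4, nat_lit 0x48⟩ (.nil) (.nil)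
def t14_1723 : Tr := .node ⟨nat_lit 7, nat_lit 0x10004000180060, nat_lit 0x101111, nat_lit 0, nat_lit 4, nat_lit 0x46⟩ (.nil) (.nil)
def t14_9915 : Tr := .node ⟨nat_lit 6, nat_lit 0x3000300030, nat_lit 0x1420, nat_lit 4, nat_lit 4, nat_lit 0x47⟩ (.nil) (.nil)
def t14_5819 : Tr := .node ⟨nat_lit 8, nat_lit 0x40008000200084, nat_lit 0x110200, nat_lit 1, nat_lit 4, nat_lit 0x49⟩ (.nil) (.nil)
def t14_14011 : Tr := .node ⟨nat_lit 7, nat_lit 0x1000400060, nat_lit 0x101202, nat_lit 0, nat_lit 4, nat_lit 0x48⟩ (.nil) (.nil)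
def t14_3771 : Tr := .node ⟨nat_lit 9, nat_lit 0x1000100010000800080012001c0, nat_lit 0x22100, nat_lit 1, nat_lit 4, nat_lit 0x48⟩ (.nil) (.nil)
def t14_11963 : Tr := .node ⟨nat_lit 5, nat_lit 0x1000100018, nat_lit 0x1220, nat_lit 9, nat_lit 4, nat_lit 0x48⟩ (.nil) (.nil)
def t14_7867 : Tr := .node ⟨nat_lit 7, nat_lit 0x400020002000500050, nat_lit 0x11011, nat_lit 1, nat_lit 4, nat_lit 0x46⟩ (.nil) (.nil)
def t9_187 : Tr := .node ⟨nat_lit 5, nat_lit 0x80010, nat_lit 0x12320, nat_lit 1, nat_lit 4, nat_lit 0x49⟩ (.node ⟨nat_lit 7, nat_lit 0x20004000440064, nat_lit 0x3112002, nat_lit 0, nat_lit 4, nat_lit 0x49⟩ (.node ⟨nat_lit 7, nat_lit 0x4000400060, nat_lit 0x31210, nat_lit 2, nat_lit 4, nat_lit 0x4a⟩ (.node ⟨nat_lit 5, nat_lit 0x18, nat_lit 0x21114, nat_lit 1, nat_lit 4, nat_lit 0x49⟩ (.node ⟨nat_lit 7, nat_lit 0x2000400060, nat_lit 0x2011022,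 nat_lit 0, nat_lit 4, nat_lit 0x4a⟩ (t14_187) (t14_8379)) (.node ⟨nat_lit 6, nat_lit 0x20001000100028, nat_lit 0x12100, nat_lit 0, nat_lit 4, nat_lit 0x46⟩ (t14_4283) (t14_12475))) (.node ⟨nat_lit 6, nat_lit 0x10001000200022, nat_lit 0x212230, nat_lit 0, nat_lit 4, nat_lit 0x49⟩ (.node ⟨nat_lit 6, nat_lit 0x200032, nat_lit 0x11021, nat_lit 0, nat_lit 4, nat_lit 0x47⟩ (t14_2235) (t14_10427)) (.node ⟨nat_lit 8, nat_lit 0x200080008400c0, nat_lit 0x1020202, nat_lit 0, nat_lit 4, nat_lit 0x49⟩ (t14_6331) (t14_14523)))) (.node ⟨nat_lit 7, nat_lit 0x400060, nat_lit 0x1111121, nat_lit 0, nat_lit 4, nat_lit 0x4a⟩ (.node ⟨nat_lit 6, nat_lit 0x800080030, nat_lit 0x211111, nat_lit 5, nat_lit 4, nat_lit 0x49⟩ (.node ⟨nat_lit 6, nat_lit 0x200010, nat_lit 0x111104, nat_lit 1, nat_lit 4, nat_lit 0x4a⟩ (t14_1211) (t14_9403)) (.node ⟨nat_lit 8, nat_lit 0x2000a000c0,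 nat_lit 0x11021012, nat_lit 0, nat_lit 4, nat_lit 0x4a⟩ (t14_5307) (t14_13499))) (.node ⟨nat_lit 6, nat_lit 0x2000080030, nat_lit 0x12320, nat_lit 0, nat_lit 4, nat_lit 0x48⟩ (.node ⟨nat_lit 5, nat_lit 0x100018, nat_lit 0x10201, nat_lit 2, nat_lit 3, nat_lit 0x46⟩ (t14_3259) (t14_11451)) (.node ⟨nat_lit 7, nat_lit 0x200020004000440070, nat_lit 0x1101001, nat_lit 0, nat_lit 4, nat_lit 0x46⟩ (t14_7355) (t14_15547))))) (.node ⟨nat_lit 6, nat_lit 0x80030, nat_lit 0x320102, nat_lit 0, nat_lit 4, nat_lit 0x4a⟩ (.node ⟨nat_lit 4, nat_lit 0xc, nat_lit 0x1021, nat_lit 5, nat_lit 4, nat_lit 0x46⟩ (.node ⟨nat_lit 7, nat_lit 0x40004000100060, nat_lit 0x112012, nat_lit 0, nat_lit 4, nat_lit 0x48⟩ (.node ⟨nat_lit 7, nat_lit 0x800500060, nat_lit 0x1002021, nat_lit 1, nat_lit 4, nat_lit 0x48⟩ (t14_699) (t14_8891)) (.node ⟨nat_lit 6, nat_lit 0x20002000100032, nat_lit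 0x12120, nat_lit 3, nat_lit 4, nat_lit 0x47⟩ (t14_4795) (t14_12987))) (.node ⟨nat_lit 6, nat_lit 0x80030, nat_lit 0x101101, nat_lit 1, nat_lit 4, nat_lit 0x47⟩ (.node ⟨nat_lit 6, nat_lit 0x800280030, nat_lit 0x21032, nat_lit 1, nat_lit 4, nat_lit 0x47⟩ (t14_2747) (t14_10939)) (.node ⟨nat_lit 6, nat_lit 0x2000080030, nat_lit 0x110022, nat_lit 1, nat_lit 4, nat_lit 0x47⟩ (t14_6843) (t14_15035)))) (.node ⟨nat_lit 5, nat_lit 0x1000080018, nat_lit 0x11022, nat_lit 1, nat_lit 3, nat_lit 0x45⟩ (.node ⟨nat_lit 6, nat_lit 0x20001000100028, nat_lit 0x112110, nat_lit 0, nat_lit 4, nat_lit 0x47⟩ (.node ⟨nat_lit 5, nat_lit 0x1000080014, nat_lit 0x100, nat_lit 3, nat_lit 4, nat_lit 0x44⟩ (t14_1723) (t14_9915)) (.node ⟨nat_lit 7, nat_lit 0x2000400060, nat_lit 0x22201, nat_lit 0, nat_lit 4, nat_lit 0x49⟩ (t14_5819) (t14_14011))) (.node ⟨nat_lit 6, nat_lit 0x300028,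 nat_lit 0x210202, nat_lit 0, nat_lit 4, nat_lit 0x48⟩ (.node ⟨nat_lit 6, nat_lit 0x1800300028, nat_lit 0x11103, nat_lit 2, nat_lit 4, nat_lit 0x46⟩ (t14_3771) (t14_11963)) (.node ⟨nat_lit 5, nat_lit 0x180018, nat_lit 0x10121, nat_lit 7, nat_lit 4, nat_lit 0x47⟩ (t14_7867) (.nil)))))
def t14_443 : Tr := .node ⟨nat_lit 6, nat_lit 0x20001000100028, nat_lit 0x112102, nat_lit 3, nat_lit 4, nat_lit 0x48⟩ (.nil) (.nil)
def t14_8635 : Tr := .node ⟨nat_lit 6, nat_lit 0x1000200034, nat_lit 0, nat_lit 1, nat_lit 4, nat_lit 0x44⟩ (.nil) (.nil)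
def t14_4539 : Tr := .node ⟨nat_lit 4, nat_lit 0x40008, nat_lit 0x1203, nat_lit 6, nat_lit 4, nat_lit 0x48⟩ (.nil) (.nil)
def t14_12731 : Tr := .node ⟨nat_lit 5, nat_lit 0x100018, nat_lit 0x3120, nat_lit 4, nat_lit 4, nat_lit 0x48⟩ (.nil) (.nil)
def t14_2491 : Tr := .node ⟨nat_lit 7, nat_lit 0x20004000440060, nat_lit 0x1002210, nat_lit 0, nat_lit 4, nat_lit 0x48⟩ (.nil) (.nil)
def t14_10683 : Tr := .node ⟨nat_lit 7, nat_lit 0x6000500018, nat_lit 0x1000, nat_lit 0, nat_lit 4, nat_lit 0x45⟩ (.nil) (.nil)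
def t14_6587 : Tr := .node ⟨nat_lit 6, nat_lit 0x2000080030, nat_lit 0x21210, nat_lit 2, nat_lit 4, nat_lit 0x48⟩ (.nil) (.nil)
def t14_14779 : Tr := .node ⟨nat_lit 8, nat_lit 0x20002000c000a0, nat_lit 0x10011112, nat_lit 0, nat_lit 4, nat_lit 0x49⟩ (.nil) (.nil)
def t14_1467 : Tr := .node ⟨nat_lit 7, nat_lit 0x20005000600060, nat_lit 0x20021, nat_lit 0, nat_lit 3, nat_lit 0x45⟩ (.nil) (.nil)
def t14_9659 : Tr := .node ⟨nat_lit 7, nat_lit 0x400040002000500060, nat_lit 0x11002, nat_lit 4, nat_lit 4, nat_lit 0x47⟩ (.nil) (.nil)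
def t14_5563 : Tr := .node ⟨nat_lit 8, nat_lit 0x80004000400088, nat_lit 0x112102, nat_lit 0, nat_lit 4, nat_lit 0x49⟩ (.nil) (.nil)
def t14_13755 : Tr := .node ⟨nat_lit 7, nat_lit 0x4000500064, nat_lit 0x201200, nat_lit 1, nat_lit 4, nat_lit 0x48⟩ (.nil) (.nil)
def t14_3515 : Tr := .node ⟨nat_lit 6, nat_lit 0x1000300028, nat_lit 0x101, nat_lit 0, nat_lit 4, nat_lit 0x44⟩ (.nil) (.nil)
def t14_11707 : Tr := .node ⟨nat_lit 8, nat_lit 0x1000a000a000c0, nat_lit 0x1011102, nat_lit 1, nat_lit 4, nat_lit 0x48⟩ (.nil) (.nil)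
def t14_7611 : Tr := .node ⟨nat_lit 6, nat_lit 0x2000100030, nat_lit 0x1214, nat_lit 0, nat_lit 4, nat_lit 0x47⟩ (.nil) (.nil)
def t14_955 : Tr := .node ⟨nat_lit 5, nat_lit 0x100018, nat_lit 0x2121, nat_lit 5, nat_lit 4, nat_lit 0x48⟩ (.nil) (.nil)
def t14_9147 : Tr := .node ⟨nat_lit 7, nat_lit 0x400020005000600060, nat_lit 0x1022, nat_lit 2, nat_lit 4, nat_lit 0x46⟩ (.nil) (.nil)
def t14_5051 : Tr := .node ⟨nat_lit 7, nat_lit 0x40001000600070, nat_lit 0x101013, nat_lit 4, nat_lit 4, nat_lit 0x47⟩ (.nil) (.nil)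
def t14_13243 : Tr := .node ⟨nat_lit 5, nat_lit 0x100018, nat_lit 0x1130, nat_lit 5, nat_lit 3, nat_lit 0x46⟩ (.nil) (.nil)
def t14_3003 : Tr := .node ⟨nat_lit 9, nat_lit 0x1000100008000900140018001c0, nat_lit 0x1021011, nat_lit 0, nat_lit 4, nat_lit 0x47⟩ (.nil) (.nil)
def t14_11195 : Tr := .node ⟨nat_lit 7, nat_lit 0x6000500070, nat_lit 0x11102, nat_lit 3, nat_lit 4, nat_lit 0x47⟩ (.nil) (.nil)
def t14_7099 : Tr := .node ⟨nat_lit 5, nat_lit 0x180018, nat_lit 0x11211, nat_lit 7, nat_lit 4, nat_lit 0x48⟩ (.nil) (.nil)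
def t14_15291 : Tr := .node ⟨nat_lit 8, nat_lit 0x20002000c000a0, nat_lit 0x10011012, nat_lit 1, nat_lit 4, nat_lit 0x49⟩ (.nil) (.nil)
def t14_1979 : Tr := .node ⟨nat_lit 7, nat_lit 0x10004000400060, nat_lit 0x200212, nat_lit 3, nat_lit 4, nat_lit 0x49⟩ (.nil) (.nil)
def t14_10171 : Tr := .node ⟨nat_lit 7, nat_lit 0x4000600050, nat_lit 0x1002, nat_lit 2, nat_lit 4, nat_lit 0x47⟩ (.nil) (.nil)
def t14_6075 : Tr := .node ⟨nat_lit 9, nat_lit 0x1000100008001080110, nat_lit 0x11111010, nat_lit 1, nat_lit 4, nat_lit 0x4a⟩ (.nil) (.nil)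
def t14_14267 : Tr := .node ⟨nat_lit 7, nat_lit 0x4000500060, nat_lit 0x11120, nat_lit 6, nat_lit 4, nat_lit 0x49⟩ (.nil) (.nil)
def t14_4027 : Tr := .node ⟨nat_lit 7, nat_lit 0x10002000400070, nat_lit 0x100101, nat_lit 0, nat_lit 4, nat_lit 0x46⟩ (.nil) (.nil)
def t14_12219 : Tr := .node ⟨nat_lit 7, nat_lit 0x1800500060, nat_lit 0x1111201, nat_lit 0, nat_lit 4, nat_lit 0x48⟩ (.nil) (.nil)
def t14_8123 : Tr := .node ⟨nat_lit 7, nat_lit 0x400020002000500050, nat_lit 0x11041, nat_lit 1, nat_lit 4, nat_lit 0x47⟩ (.nil) (.nil)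
def t9_443 : Tr := .node ⟨nat_lit 6, nat_lit 0x200020, nat_lit 0x33110, nat_lit 1, nat_lit 4, nat_lit 0x4b⟩ (.node ⟨nat_lit 5, nat_lit 0x100008, nat_lit 0x103, nat_lit 0, nat_lit 3, nat_lit 0x45⟩ (.node ⟨nat_lit 5, nat_lit 0x40018, nat_lit 0x22221, nat_lit 0, nat_lit 3, nat_lit 0x47⟩ (.node ⟨nat_lit 6, nat_lit 0x800280030, nat_lit 0x11122, nat_lit 0, nat_lit 4, nat_lit 0x46⟩ (.node ⟨nat_lit 6, nat_lit 0x1000280030, nat_lit 0x20001, nat_lit 1, nat_lit 4, nat_lit 0x46⟩ (t14_443) (t14_8635)) (.node ⟨nat_lit 5, nat_lit 0x100012, nat_lit 0x22112, nat_lit 5, nat_lit 4, nat_lit 0x49⟩ (t14_4539) (t14_12731))) (.node ⟨nat_lit 6, nat_lit 0x2000100010, nat_lit 0x11031, nat_lit 3, nat_lit 4, nat_lit 0x49⟩ (.node ⟨nat_lit 6, nat_lit 0x2000080030, nat_lit 0x111110, nat_lit 0, nat_lit 4, nat_lit 0x47⟩ (t14_2491) (t14_10683)) (.node ⟨nat_lit 6, nat_lit 0x1000200030,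 nat_lit 0x102310, nat_lit 0, nat_lit 4, nat_lit 0x48⟩ (t14_6587) (t14_14779)))) (.node ⟨nat_lit 6, nat_lit 0x80030, nat_lit 0x201101, nat_lit 1, nat_lit 4, nat_lit 0x48⟩ (.node ⟨nat_lit 7, nat_lit 0x2000400040, nat_lit 0x210220, nat_lit 0, nat_lit 4, nat_lit 0x4a⟩ (.node ⟨nat_lit 7, nat_lit 0x4000600050, nat_lit 0x11002, nat_lit 0, nat_lit 4, nat_lit 0x47⟩ (t14_1467) (t14_9659)) (.node ⟨nat_lit 6, nat_lit 0x20001000280034, nat_lit 0x112111, nat_lit 3, nat_lit 4, nat_lit 0x47⟩ (t14_5563) (t14_13755))) (.node ⟨nat_lit 7, nat_lit 0x2000200040, nat_lit 0x1021001, nat_lit 0, nat_lit 3, nat_lit 0x48⟩ (.node ⟨nat_lit 6, nat_lit 0x30000c, nat_lit 0x101000, nat_lit 1, nat_lit 4, nat_lit 0x46⟩ (t14_3515) (t14_11707)) (.node ⟨nat_lit 7, nat_lit 0x40004000480048, nat_lit 0x1111100, nat_lit 7, nat_lit 4, nat_lit 0x4a⟩ (t14_7611) (.nil))))) (.node ⟨nat_lit 4,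 nat_lit 0, nat_lit 0x3200, nat_lit 0, nat_lit 4, nat_lit 0x47⟩ (.node ⟨nat_lit 5, nat_lit 0x80010, nat_lit 0x12211, nat_lit 4, nat_lit 4, nat_lit 0x49⟩ (.node ⟨nat_lit 7, nat_lit 0x4000440060, nat_lit 0x1111111, nat_lit 1, nat_lit 4, nat_lit 0x49⟩ (.node ⟨nat_lit 6, nat_lit 0x100020, nat_lit 0x111131, nat_lit 3, nat_lit 4, nat_lit 0x4a⟩ (t14_955) (t14_9147)) (.node ⟨nat_lit 6, nat_lit 0x200020, nat_lit 0x22122, nat_lit 1, nat_lit 4, nat_lit 0x4a⟩ (t14_5051) (t14_13243))) (.node ⟨nat_lit 3, nat_lit 4, nat_lit 0x122, nat_lit 8, nat_lit 4, nat_lit 0x47⟩ (.node ⟨nat_lit 7, nat_lit 0x200040, nat_lit 0x1111102, nat_lit 0, nat_lit 3, nat_lit 0x49⟩ (t14_3003) (t14_11195)) (.node ⟨nat_lit 5, nat_lit 0x100018, nat_lit 0x11122, nat_lit 9, nat_lit 4, nat_lit 0x49⟩ (t14_7099) (t14_15291)))) (.node ⟨nat_lit 6, nat_lit 0x100020, nat_lit 0x121101, nat_lit 0, nat_lit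 4, nat_lit 0x49⟩ (.node ⟨nat_lit 8, nat_lit 0x80008000880060, nat_lit 0x12011111, nat_lit 0, nat_lit 4, nat_lit 0x4a⟩ (.node ⟨nat_lit 7, nat_lit 0x40001000600050, nat_lit 0x13311, nat_lit 0, nat_lit 4, nat_lit 0x48⟩ (t14_1979) (t14_10171)) (.node ⟨nat_lit 7, nat_lit 0x40004800600030, nat_lit 0x20202, nat_lit 0, nat_lit 4, nat_lit 0x46⟩ (t14_6075) (t14_14267))) (.node ⟨nat_lit 6, nat_lit 0x30, nat_lit 0x311110, nat_lit 1, nat_lit 3, nat_lit 0x49⟩ (.node ⟨nat_lit 7, nat_lit 0x40002000100060, nat_lit 0x110103, nat_lit 0, nat_lit 4, nat_lit 0x48⟩ (t14_4027) (t14_12219)) (.node ⟨nat_lit 7, nat_lit 0x10001000500060, nat_lit 0x1201012, nat_lit 1, nat_lit 4, nat_lit 0x48⟩ (t14_8123) (.nil)))))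
def t14_123 : Tr := .node ⟨nat_lit 8, nat_lit 0x4000a000c0, nat_lit 0x10121111, nat_lit 0, nat_lit 4, nat_lit 0x4a⟩ (.nil) (.nil)
def t14_8315 : Tr := .node ⟨nat_lit 7, nat_lit 0x10004000440060, nat_lit 0x220, nat_lit 2, nat_lit 4, nat_lit 0x47⟩ (.nil) (.nil)
def t14_4219 : Tr := .node ⟨nat_lit 7, nat_lit 0x4000400060, nat_lit 0x221110, nat_lit 1, nat_lit 4, nat_lit 0x4a⟩ (.nil) (.nil)
def t14_12411 : Tr := .node ⟨nat_lit 6, nat_lit 0x200030, nat_lit 0x11130, nat_lit 1, nat_lit 3, nat_lit 0x47⟩ (.nil) (.nil)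
def t14_2171 : Tr := .node ⟨nat_lit 7, nat_lit 0x40004000200048, nat_lit 0x112202, nat_lit 1, nat_lit 4, nat_lit 0x49⟩ (.nil) (.nil)
def t14_10363 : Tr := .node ⟨nat_lit 7, nat_lit 0x40004800480060, nat_lit 0x12200, nat_lit 3, nat_lit 4, nat_lit 0x48⟩ (.nil) (.nil)
def t14_6267 : Tr := .node ⟨nat_lit 7, nat_lit 0x4000440060, nat_lit 0x1111101, nat_lit 1, nat_lit 4, nat_lit 0x49⟩ (.nil) (.nil)
def t14_14459 : Tr := .node ⟨nat_lit 7, nat_lit 0x4000500060, nat_lit 0x12120, nat_lit 4, nat_lit 4, nat_lit 0x49⟩ (.nil) (.nil)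
def t14_1147 : Tr := .node ⟨nat_lit 6, nat_lit 0x2000100010, nat_lit 0x1211, nat_lit 1, nat_lit 3, nat_lit 0x46⟩ (.nil) (.nil)
def t14_9339 : Tr := .node ⟨nat_lit 8, nat_lit 0x800040004000a000a000c0, nat_lit 0x110212, nat_lit 0, nat_lit 4, nat_lit 0x47⟩ (.nil) (.nil)
def t14_5243 : Tr := .node ⟨nat_lit 8, nat_lit 0x800080008800c0, nat_lit 0x1112011, nat_lit 2, nat_lit 4, nat_lit 0x4a⟩ (.nil) (.nil)
def t14_13435 : Tr := .node ⟨nat_lit 8, nat_lit 0x80002000400088, nat_lit 0x1012000, nat_lit 0, nat_lit 4, nat_lit 0x49⟩ (.nil) (.nil)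
def t14_3195 : Tr := .node ⟨nat_lit 8, nat_lit 0x800040004000a000a000e0, nat_lit 0x10111102, nat_lit 0, nat_lit 4, nat_lit 0x47⟩ (.nil) (.nil)
def t14_11387 : Tr := .node ⟨nat_lit 8, nat_lit 0x40008000a000c800c8, nat_lit 0x111020, nat_lit 1, nat_lit 4, nat_lit 0x46⟩ (.nil) (.nil)
def t14_7291 : Tr := .node ⟨nat_lit 7, nat_lit 0x4000600050, nat_lit 0x2200, nat_lit 2, nat_lit 4, nat_lit 0x48⟩ (.nil) (.nil)
def t14_15483 : Tr := .node ⟨nat_lit 8, nat_lit 0x400080001000e0, nat_lit 0x11101102, nat_lit 0, nat_lit 4, nat_lit 0x49⟩ (.nil) (.nil)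
def t14_635 : Tr := .node ⟨nat_lit 5, nat_lit 0x100018, nat_lit 0x2132, nat_lit 3, nat_lit 4, nat_lit 0x48⟩ (.nil) (.nil)
def t14_8827 : Tr := .node ⟨nat_lit 7, nat_lit 0x400040002000200050, nat_lit 0x120213, nat_lit 0, nat_lit 4, nat_lit 0x48⟩ (.nil) (.nil)
def t14_4731 : Tr := .node ⟨nat_lit 7, nat_lit 0x2000500060, nat_lit 0x111110, nat_lit 0, nat_lit 4, nat_lit 0x48⟩ (.nil) (.nil)
def t14_12923 : Tr := .node ⟨nat_lit 7, nat_lit 0x4000200060, nat_lit 0x10120, nat_lit 1, nat_lit 4, nat_lit 0x48⟩ (.nil) (.nil)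
def t14_2683 : Tr := .node ⟨nat_lit 6, nat_lit 0x800300030, nat_lit 0x1110, nat_lit 0, nat_lit 4, nat_lit 0x45⟩ (.nil) (.nil)
def t14_10875 : Tr := .node ⟨nat_lit 9, nat_lit 0x1000080008001400140018001a0, nat_lit 0x1200020, nat_lit 1, nat_lit 4, nat_lit 0x47⟩ (.nil) (.nil)
def t14_6779 : Tr := .node ⟨nat_lit 6, nat_lit 0x2000080034, nat_lit 0x121000, nat_lit 2, nat_lit 4, nat_lit 0x47⟩ (.nil) (.nil)
def t14_14971 : Tr := .node ⟨nat_lit 9, nat_lit 0x1000080008001400140018001a0, nat_lit 0x1101111, nat_lit 1, nat_lit 4, nat_lit 0x47⟩ (.nil) (.nil)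
def t14_1659 : Tr := .node ⟨nat_lit 7, nat_lit 0x40001000500068, nat_lit 0x2121, nat_lit 0, nat_lit 4, nat_lit 0x46⟩ (.nil) (.nil)
def t14_9851 : Tr := .node ⟨nat_lit 8, nat_lit 0x80009000a000c0, nat_lit 0x1011202, nat_lit 0, nat_lit 4, nat_lit 0x48⟩ (.nil) (.nil)
def t14_5755 : Tr := .node ⟨nat_lit 7, nat_lit 0x4000400044, nat_lit 0x111212, nat_lit 2, nat_lit 4, nat_lit 0x4a⟩ (.nil) (.nil)
def t14_13947 : Tr := .node ⟨nat_lit 9, nat_lit 0x4000400080010000600184, nat_lit 0x100002000, nat_lit 2, nat_lit 4, nat_lit 0x48⟩ (.nil) (.nil)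
def t14_3707 : Tr := .node ⟨nat_lit 7, nat_lit 0x400020002000200068, nat_lit 0x1002101, nat_lit 3, nat_lit 4, nat_lit 0x48⟩ (.nil) (.nil)
def t14_11899 : Tr := .node ⟨nat_lit 6, nat_lit 0x2000100032, nat_lit 0x1330, nat_lit 1, nat_lit 4, nat_lit 0x47⟩ (.nil) (.nil)
def t14_7803 : Tr := .node ⟨nat_lit 3, nat_lit 4, nat_lit 0x221, nat_lit 0xe, nat_lit 3, nat_lit 0x47⟩ (.nil) (.nil)
def t9_123 : Tr := .node ⟨nat_lit 6, nat_lit 0x800300030, nat_lit 0x113121, nat_lit 0, nat_lit 4, nat_lit 0x48⟩ (.node ⟨nat_lit 5, nat_lit 0x80010001a, nat_lit 0x31112, nat_lit 5, nat_lit 4, nat_lit 0x48⟩ (.node ⟨nat_lit 4, nat_lit 0x80008, nat_lit 0x322, nat_lit 6, nat_lit 4, nat_lit 0x48⟩ (.node ⟨nat_lit 7, nat_lit 0x600018, nat_lit 0x1010211, nat_lit 1, nat_lit 4, nat_lit 0x49⟩ (.node ⟨nat_lit 8, nat_lit 0x2000800080004000c2, nat_lit 0x2002120, nat_lit 0, nat_lit 4,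 nat_lit 0x49⟩ (t14_123) (t14_8315)) (.node ⟨nat_lit 6, nat_lit 0x2000080030, nat_lit 0x110020, nat_lit 0, nat_lit 4, nat_lit 0x46⟩ (t14_4219) (t14_12411))) (.node ⟨nat_lit 7, nat_lit 0x40004000200020, nat_lit 0x121011, nat_lit 0, nat_lit 4, nat_lit 0x49⟩ (.node ⟨nat_lit 7, nat_lit 0x40001000480060, nat_lit 0x12100, nat_lit 1, nat_lit 4, nat_lit 0x47⟩ (t14_2171) (t14_10363)) (.node ⟨nat_lit 8, nat_lit 0x8000800040, nat_lit 0x1221101, nat_lit 0, nat_lit 4, nat_lit 0x4c⟩ (t14_6267) (t14_14459)))) (.node ⟨nat_lit 7, nat_lit 0x4000200020, nat_lit 0x22010, nat_lit 3, nat_lit 4, nat_lit 0x4a⟩ (.node ⟨nat_lit 5, nat_lit 0x40018, nat_lit 0x22111, nat_lit 5, nat_lit 4, nat_lit 0x49⟩ (.node ⟨nat_lit 1, nat_lit 0, nat_lit 5, nat_lit 0xc, nat_lit 3, nat_lit 0x46⟩ (t14_1147) (t14_9339)) (.node ⟨nat_lit 7, nat_lit 0x4000600060, nat_lit 0x121121, nat_lit 1, nat_lit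 4, nat_lit 0x49⟩ (t14_5243) (t14_13435))) (.node ⟨nat_lit 7, nat_lit 0x400020, nat_lit 0x121000, nat_lit 0, nat_lit 4, nat_lit 0x4a⟩ (.node ⟨nat_lit 6, nat_lit 0x2800280030, nat_lit 0x21301, nat_lit 3, nat_lit 4, nat_lit 0x47⟩ (t14_3195) (t14_11387)) (.node ⟨nat_lit 7, nat_lit 0x10001800600050, nat_lit 0x1001010, nat_lit 1, nat_lit 4, nat_lit 0x46⟩ (t14_7291) (t14_15483))))) (.node ⟨nat_lit 7, nat_lit 0x20004000100044, nat_lit 0x3000201, nat_lit 3, nat_lit 4, nat_lit 0x4a⟩ (.node ⟨nat_lit 5, nat_lit 0x100008, nat_lit 0x2103, nat_lit 5, nat_lit 4, nat_lit 0x49⟩ (.node ⟨nat_lit 5, nat_lit 0x40018, nat_lit 0x10201, nat_lit 2, nat_lit 4, nat_lit 0x46⟩ (.node ⟨nat_lit 6, nat_lit 0x1000100020, nat_lit 0x121002, nat_lit 1, nat_lit 4, nat_lit 0x49⟩ (t14_635) (t14_8827)) (.node ⟨nat_lit 8, nat_lit 0x80008000800040004000a0, nat_lit 0x1110201, nat_lit 3,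 nat_lit 4, nat_lit 0x49⟩ (t14_4731) (t14_12923))) (.node ⟨nat_lit 6, nat_lit 0x2000080030, nat_lit 0x101202, nat_lit 0, nat_lit 4, nat_lit 0x47⟩ (.node ⟨nat_lit 6, nat_lit 0x800200030, nat_lit 0x121133, nat_lit 0, nat_lit 4, nat_lit 0x49⟩ (t14_2683) (t14_10875)) (.node ⟨nat_lit 6, nat_lit 0x30, nat_lit 0x111112, nat_lit 0, nat_lit 3, nat_lit 0x48⟩ (t14_6779) (t14_14971)))) (.node ⟨nat_lit 6, nat_lit 0x2000200010, nat_lit 0x21111, nat_lit 1, nat_lit 4, nat_lit 0x48⟩ (.node ⟨nat_lit 6, nat_lit 0x2000100008, nat_lit 0x221011, nat_lit 0, nat_lit 3, nat_lit 0x48⟩ (.node ⟨nat_lit 7, nat_lit 0x20004000100060, nat_lit 0x101, nat_lit 1, nat_lit 4, nat_lit 0x46⟩ (t14_1659) (t14_9851)) (.node ⟨nat_lit 7, nat_lit 0x40004000400020, nat_lit 0x212003, nat_lit 0, nat_lit 4, nat_lit 0x4a⟩ (t14_5755) (t14_13947))) (.node ⟨nat_lit 6, nat_lit 0x1800280030, nat_lit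 0x12221, nat_lit 2, nat_lit 4, nat_lit 0x47⟩ (.node ⟨nat_lit 6, nat_lit 0x80030, nat_lit 0x200100, nat_lit 0, nat_lit 4, nat_lit 0x47⟩ (t14_3707) (t14_11899)) (.node ⟨nat_lit 5, nat_lit 0x180018, nat_lit 0x20121, nat_lit 9, nat_lit 4, nat_lit 0x48⟩ (t14_7803) (.nil)))))
def t14_379 : Tr := .node ⟨nat_lit 5, nat_lit 0, nat_lit 0x21111, nat_lit 5, nat_lit 3, nat_lit 0x49⟩ (.nil) (.nil)
def t14_8571 : Tr := .node ⟨nat_lit 4, nat_lit 0x80008000c, nat_lit 0x103, nat_lit 6, nat_lit 4, nat_lit 0x45⟩ (.nil) (.nil)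
def t14_4475 : Tr := .node ⟨nat_lit 7, nat_lit 0x400020002800280050, nat_lit 0x1111110, nat_lit 2, nat_lit 4, nat_lit 0x47⟩ (.nil) (.nil)
def t14_12667 : Tr := .node ⟨nat_lit 5, nat_lit 0x10001c, nat_lit 0x1113, nat_lit 4, nat_lit 4, nat_lit 0x46⟩ (.nil) (.nil)
def t14_2427 : Tr := .node ⟨nat_lit 6, nat_lit 0x10002000300038, nat_lit 0x12201, nat_lit 5, nat_lit 4, nat_lit 0x47⟩ (.nil) (.nil)
def t14_10619 : Tr := .node ⟨nat_lit 6, nat_lit 0x800280030, nat_lit 0x120, nat_lit 4, nat_lit 4, nat_lit 0x46⟩ (.nil) (.nil)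
def t14_6523 : Tr := .node ⟨nat_lit 6, nat_lit 0x280030, nat_lit 0x11111, nat_lit 5, nat_lit 4, nat_lit 0x48⟩ (.nil) (.nil)
def t14_14715 : Tr := .node ⟨nat_lit 8, nat_lit 0x800080002000c000d0, nat_lit 0x1111021, nat_lit 0, nat_lit 4, nat_lit 0x48⟩ (.nil) (.nil)
def t14_1403 : Tr := .node ⟨nat_lit 7, nat_lit 0x40001000600060, nat_lit 0x23110, nat_lit 0, nat_lit 4, nat_lit 0x48⟩ (.nil) (.nil)
def t14_9595 : Tr := .node ⟨nat_lit 8, nat_lit 0x200080004000c000c4, nat_lit 0x1003120, nat_lit 0, nat_lit 4, nat_lit 0x48⟩ (.nil) (.nil)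
def t14_5499 : Tr := .node ⟨nat_lit 6, nat_lit 0x1000100020, nat_lit 0x1114, nat_lit 0, nat_lit 4, nat_lit 0x48⟩ (.nil) (.nil)
def t14_13691 : Tr := .node ⟨nat_lit 8, nat_lit 0x20008000c0, nat_lit 0x21020, nat_lit 0, nat_lit 4, nat_lit 0x4a⟩ (.nil) (.nil)
def t14_3451 : Tr := .node ⟨nat_lit 8, nat_lit 0x6000c000a0, nat_lit 0x10021021, nat_lit 0, nat_lit 4, nat_lit 0x49⟩ (.nil) (.nil)
def t14_11643 : Tr := .node ⟨nat_lit 8, nat_lit 0x800060006000a000c0, nat_lit 0x1032, nat_lit 0, nat_lit 4, nat_lit 0x46⟩ (.nil) (.nil)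
def t14_7547 : Tr := .node ⟨nat_lit 6, nat_lit 0x20001000100030, nat_lit 0x3103, nat_lit 4, nat_lit 4, nat_lit 0x47⟩ (.nil) (.nil)
def t14_891 : Tr := .node ⟨nat_lit 7, nat_lit 0x400040002000200050, nat_lit 0x12220, nat_lit 0, nat_lit 4, nat_lit 0x47⟩ (.nil) (.nil)
def t14_9083 : Tr := .node ⟨nat_lit 7, nat_lit 0x400040002000200070, nat_lit 0x22001, nat_lit 1, nat_lit 4, nat_lit 0x47⟩ (.nil) (.nil)
def t14_4987 : Tr := .node ⟨nat_lit 7, nat_lit 0x4000440060, nat_lit 0x111311, nat_lit 0, nat_lit 4, nat_lit 0x49⟩ (.nil) (.nil)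
def t14_13179 : Tr := .node ⟨nat_lit 6, nat_lit 0x800080030, nat_lit 0x103, nat_lit 2, nat_lit 4, nat_lit 0x46⟩ (.nil) (.nil)
def t14_2939 : Tr := .node ⟨nat_lit 8, nat_lit 0x8000a000c0, nat_lit 0x1021102, nat_lit 0, nat_lit 4, nat_lit 0x4a⟩ (.nil) (.nil)
def t14_11131 : Tr := .node ⟨nat_lit 7, nat_lit 0x40002000200020, nat_lit 0x10210, nat_lit 1, nat_lit 3, nat_lit 0x47⟩ (.nil) (.nil)
def t14_7035 : Tr := .node ⟨nat_lit 8, nat_lit 0x80008000400040009000e0, nat_lit 0x11002101, nat_lit 1, nat_lit 4, nat_lit 0x48⟩ (.nil) (.nil)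
def t14_15227 : Tr := .node ⟨nat_lit 7, nat_lit 0x800500060, nat_lit 0x1110021, nat_lit 4, nat_lit 4, nat_lit 0x49⟩ (.nil) (.nil)
def t14_1915 : Tr := .node ⟨nat_lit 4, nat_lit 0xe, nat_lit 0x3002, nat_lit 5, nat_lit 4, nat_lit 0x46⟩ (.nil) (.nil)
def t14_10107 : Tr := .node ⟨nat_lit 7, nat_lit 0x40001000600060, nat_lit 0x22120, nat_lit 2, nat_lit 4, nat_lit 0x48⟩ (.nil) (.nil)
def t14_6011 : Tr := .node ⟨nat_lit 5, nat_lit 0x18, nat_lit 0x21320, nat_lit 2, nat_lit 4, nat_lit 0x4a⟩ (.nil) (.nil)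
def t14_14203 : Tr := .node ⟨nat_lit 5, nat_lit 0x1000080014, nat_lit 0x10022, nat_lit 2, nat_lit 4, nat_lit 0x45⟩ (.nil) (.nil)
def t14_3963 : Tr := .node ⟨nat_lit 7, nat_lit 0x20002000500068, nat_lit 0x111002, nat_lit 1, nat_lit 4, nat_lit 0x47⟩ (.nil) (.nil)
def t14_12155 : Tr := .node ⟨nat_lit 6, nat_lit 0x1000280030, nat_lit 0x102200, nat_lit 1, nat_lit 4, nat_lit 0x47⟩ (.nil) (.nil)
def t14_8059 : Tr := .node ⟨nat_lit 6, nat_lit 0x2000240030, nat_lit 0x1130, nat_lit 5, nat_lit 4, nat_lit 0x47⟩ (.nil) (.nil)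
def t9_379 : Tr := .node ⟨nat_lit 6, nat_lit 0x2000100010, nat_lit 0x23021, nat_lit 1, nat_lit 4, nat_lit 0x4a⟩ (.node ⟨nat_lit 6, nat_lit 0x2000100024, nat_lit 0x13202, nat_lit 1, nat_lit 4, nat_lit 0x48⟩ (.node ⟨nat_lit 3, nat_lit 4, nat_lit 0x223, nat_lit 8, nat_lit 4, nat_lit 0x48⟩ (.node ⟨nat_lit 7, nat_lit 0x4000200010, nat_lit 0x12002, nat_lit 4, nat_lit 4, nat_lit 0x4a⟩ (.node ⟨nat_lit 7, nat_lit 0x40001000600060, nat_lit 0x122110, nat_lit 1, nat_lit 4, nat_lit 0x48⟩ (t14_379) (t14_8571)) (.node ⟨nat_lit 8, nat_lit 0x80008000400040004800a0, nat_lit 0x11122010, nat_lit 0, nat_lit 4, nat_lit 0x49⟩ (t14_4475) (t14_12667))) (.node ⟨nat_lit 7, nat_lit 0x4000440060, nat_lit 0x1211001, nat_lit 0, nat_lit 4, nat_lit 0x49⟩ (.node ⟨nat_lit 7, nat_lit 0x10004000600064, nat_lit 0x1100141, nat_lit 1, nat_lit 4, nat_lit 0x48⟩ (t14_2427) (t14_10619))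 (.node ⟨nat_lit 6, nat_lit 0x10002000240018, nat_lit 0x20200, nat_lit 1, nat_lit 4, nat_lit 0x46⟩ (t14_6523) (t14_14715)))) (.node ⟨nat_lit 5, nat_lit 0x1000080014, nat_lit 0x21210, nat_lit 5, nat_lit 4, nat_lit 0x48⟩ (.node ⟨nat_lit 6, nat_lit 0x200030, nat_lit 0x23220, nat_lit 0, nat_lit 4, nat_lit 0x4a⟩ (.node ⟨nat_lit 6, nat_lit 0x2000100038, nat_lit 0x110103, nat_lit 1, nat_lit 4, nat_lit 0x46⟩ (t14_1403) (t14_9595)) (.node ⟨nat_lit 6, nat_lit 0x10001000200020, nat_lit 0x12131, nat_lit 2, nat_lit 4, nat_lit 0x48⟩ (t14_5499) (t14_13691))) (.node ⟨nat_lit 6, nat_lit 0x80030, nat_lit 0x200102, nat_lit 0xa, nat_lit 4, nat_lit 0x4a⟩ (.node ⟨nat_lit 5, nat_lit 0x180018, nat_lit 0x300, nat_lit 4, nat_lit 4, nat_lit 0x46⟩ (t14_3451) (t14_11643)) (.node ⟨nat_lit 0xa, nat_lit 0x800200004000200300, nat_lit 0x1100001002, nat_lit 1, nat_lit 4, nat_lit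 0x4b⟩ (t14_7547) (.nil))))) (.node ⟨nat_lit 6, nat_lit 0x2000080034, nat_lit 0x321101, nat_lit 1, nat_lit 4, nat_lit 0x49⟩ (.node ⟨nat_lit 5, nat_lit 0x18, nat_lit 0x21211, nat_lit 0, nat_lit 4, nat_lit 0x48⟩ (.node ⟨nat_lit 5, nat_lit 0x10, nat_lit 0x11111, nat_lit 5, nat_lit 4, nat_lit 0x49⟩ (.node ⟨nat_lit 7, nat_lit 0x4000400044, nat_lit 0x311111, nat_lit 1, nat_lit 4, nat_lit 0x4a⟩ (t14_891) (t14_9083)) (.node ⟨nat_lit 7, nat_lit 0x4000400044, nat_lit 0x1111200, nat_lit 5, nat_lit 4, nat_lit 0x4b⟩ (t14_4987) (t14_13179))) (.node ⟨nat_lit 5, nat_lit 0x100018, nat_lit 0x10210, nat_lit 2, nat_lit 3, nat_lit 0x46⟩ (.node ⟨nat_lit 5, nat_lit 0x100010, nat_lit 0x11111, nat_lit 3, nat_lit 4, nat_lit 0x48⟩ (t14_2939) (t14_11131)) (.node ⟨nat_lit 6, nat_lit 0x800300038, nat_lit 0x110223, nat_lit 1, nat_lit 4, nat_lit 0x46⟩ (t14_7035) (t14_15227))))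 (.node ⟨nat_lit 6, nat_lit 0x1000200020, nat_lit 0x11222, nat_lit 0, nat_lit 4, nat_lit 0x48⟩ (.node ⟨nat_lit 7, nat_lit 0x4000600018, nat_lit 0x1021211, nat_lit 0, nat_lit 4, nat_lit 0x49⟩ (.node ⟨nat_lit 7, nat_lit 0x1000500060, nat_lit 0x1011231, nat_lit 0, nat_lit 4, nat_lit 0x49⟩ (t14_1915) (t14_10107)) (.node ⟨nat_lit 6, nat_lit 0x2000080030, nat_lit 0x11302, nat_lit 0, nat_lit 4, nat_lit 0x47⟩ (t14_6011) (t14_14203))) (.node ⟨nat_lit 6, nat_lit 0x10001000100020, nat_lit 0x102110, nat_lit 4, nat_lit 4, nat_lit 0x48⟩ (.node ⟨nat_lit 8, nat_lit 0x800040009000e0, nat_lit 0x1000103, nat_lit 2, nat_lit 4, nat_lit 0x48⟩ (t14_3963) (t14_12155)) (.node ⟨nat_lit 6, nat_lit 0x10002000200034, nat_lit 0x111121, nat_lit 5, nat_lit 4, nat_lit 0x48⟩ (t14_8059) (.nil)))))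
def t14_251 : Tr := .node ⟨nat_lit 6, nat_lit 0x800080030, nat_lit 0x201201, nat_lit 0, nat_lit 4, nat_lit 0x48⟩ (.nil) (.nil)
def t14_8443 : Tr := .node ⟨nat_lit 7, nat_lit 0x10004000600060, nat_lit 0x21, nat_lit 2, nat_lit 4, nat_lit 0x46⟩ (.nil) (.nil)
def t14_4347 : Tr := .node ⟨nat_lit 7, nat_lit 0x20004000400060, nat_lit 0x111210, nat_lit 1, nat_lit 3, nat_lit 0x47⟩ (.nil) (.nil)
def t14_12539 : Tr := .node ⟨nat_lit 7, nat_lit 0x20005000680070, nat_lit 0x1230, nat_lit 0, nat_lit 4, nat_lit 0x44⟩ (.nil) (.nil)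
def t14_2299 : Tr := .node ⟨nat_lit 7, nat_lit 0x40001000480060, nat_lit 0x112011, nat_lit 3, nat_lit 4, nat_lit 0x48⟩ (.nil) (.nil)
def t14_10491 : Tr := .node ⟨nat_lit 8, nat_lit 0x80004000c000a000c8, nat_lit 0x110220, nat_lit 2, nat_lit 4, nat_lit 0x47⟩ (.nil) (.nil)
def t14_6395 : Tr := .node ⟨nat_lit 9, nat_lit 0x10001000080008000400120, nat_lit 0x1001010, nat_lit 3, nat_lit 4, nat_lit 0x49⟩ (.nil) (.nil)
def t14_14587 : Tr := .node ⟨nat_lit 6, nat_lit 0x200020003000300028, nat_lit 0x11111, nat_lit 0xa, nat_lit 4, nat_lit 0x47⟩ (.nil) (.nil)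
def t14_1275 : Tr := .node ⟨nat_lit 6, nat_lit 0x10001000200020, nat_lit 0x120022, nat_lit 0, nat_lit 3, nat_lit 0x47⟩ (.nil) (.nil)
def t14_9467 : Tr := .node ⟨nat_lit 8, nat_lit 0x200080003000c000e0, nat_lit 0x112012, nat_lit 1, nat_lit 4, nat_lit 0x47⟩ (.nil) (.nil)
def t14_5371 : Tr := .node ⟨nat_lit 8, nat_lit 0x800010002000c0, nat_lit 0x11112000, nat_lit 1, nat_lit 4, nat_lit 0x4a⟩ (.nil) (.nil)
def t14_13563 : Tr := .node ⟨nat_lit 9, nat_lit 0x1000080002000400040, nat_lit 0x200, nat_lit 1, nat_lit 4, nat_lit 0x49⟩ (.nil) (.nil)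
def t14_3323 : Tr := .node ⟨nat_lit 7, nat_lit 0x40002000500068, nat_lit 0x1012, nat_lit 0, nat_lit 4, nat_lit 0x45⟩ (.nil) (.nil)
def t14_11515 : Tr := .node ⟨nat_lit 7, nat_lit 0x40001000680068, nat_lit 0x1000111, nat_lit 0, nat_lit 4, nat_lit 0x45⟩ (.nil) (.nil)
def t14_7419 : Tr := .node ⟨nat_lit 8, nat_lit 0x8000800040004000a000a0, nat_lit 0x1111121, nat_lit 0, nat_lit 4, nat_lit 0x48⟩ (.nil) (.nil)
def t14_763 : Tr := .node ⟨nat_lit 6, nat_lit 0x1000280030, nat_lit 0x131, nat_lit 2, nat_lit 4, nat_lit 0x45⟩ (.nil) (.nil)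
def t14_8955 : Tr := .node ⟨nat_lit 6, nat_lit 0x20002000280028, nat_lit 0x11021, nat_lit 0xa, nat_lit 4, nat_lit 0x48⟩ (.nil) (.nil)
def t14_4859 : Tr := .node ⟨nat_lit 7, nat_lit 0x400020002000500050, nat_lit 0x1112210, nat_lit 1, nat_lit 4, nat_lit 0x48⟩ (.nil) (.nil)
def t14_13051 : Tr := .node ⟨nat_lit 7, nat_lit 0x400020005000500068, nat_lit 0x121000, nat_lit 4, nat_lit 4, nat_lit 0x47⟩ (.nil) (.nil)
def t14_2811 : Tr := .node ⟨nat_lit 7, nat_lit 0x10002000200040, nat_lit 0x1102001, nat_lit 0, nat_lit 4, nat_lit 0x48⟩ (.nil) (.nil)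
def t14_11003 : Tr := .node ⟨nat_lit 9, nat_lit 0x1000100008000800140012001c0, nat_lit 0x101020102, nat_lit 0, nat_lit 4, nat_lit 0x48⟩ (.nil) (.nil)
def t14_6907 : Tr := .node ⟨nat_lit 3, nat_lit 0, nat_lit 0x111, nat_lit 0xf, nat_lit 3, nat_lit 0x47⟩ (.nil) (.nil)
def t14_15099 : Tr := .node ⟨nat_lit 7, nat_lit 0x400020005000700068, nat_lit 0x112111, nat_lit 2, nat_lit 4, nat_lit 0x46⟩ (.nil) (.nil)
def t14_1787 : Tr := .node ⟨nat_lit 3, nat_lit 0x40004, nat_lit 0x22, nat_lit 8, nat_lit 3, nat_lit 0x44⟩ (.nil) (.nil)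
def t14_9979 : Tr := .node ⟨nat_lit 7, nat_lit 0x400020005000500060, nat_lit 0x4102, nat_lit 1, nat_lit 4, nat_lit 0x46⟩ (.nil) (.nil)
def t14_5883 : Tr := .node ⟨nat_lit 7, nat_lit 0x40004000200020, nat_lit 0x11022, nat_lit 4, nat_lit 4, nat_lit 0x49⟩ (.nil) (.nil)
def t14_14075 : Tr := .node ⟨nat_lit 8, nat_lit 0x800020008800c0, nat_lit 0x10010002, nat_lit 0, nat_lit 4, nat_lit 0x48⟩ (.nil) (.nil)
def t14_3835 : Tr := .node ⟨nat_lit 8, nat_lit 0x4000400080008400c0, nat_lit 0x10120101, nat_lit 2, nat_lit 4, nat_lit 0x49⟩ (.nil) (.nil)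
def t14_12027 : Tr := .node ⟨nat_lit 7, nat_lit 0x400020005000600068, nat_lit 0x121110, nat_lit 4, nat_lit 4, nat_lit 0x47⟩ (.nil) (.nil)
def t14_7931 : Tr := .node ⟨nat_lit 6, nat_lit 0x20002800280030, nat_lit 0x11211, nat_lit 7, nat_lit 4, nat_lit 0x47⟩ (.nil) (.nil)
def t9_251 : Tr := .node ⟨nat_lit 5, nat_lit 0x80010, nat_lit 0x21321, nat_lit 1, nat_lit 4, nat_lit 0x49⟩ (.node ⟨nat_lit 5, nat_lit 0x40018, nat_lit 0x31101, nat_lit 0, nat_lit 4, nat_lit 0x47⟩ (.node ⟨nat_lit 7, nat_lit 0x200020004000440044, nat_lit 0x3121010, nat_lit 0, nat_lit 4, nat_lit 0x49⟩ (.node ⟨nat_lit 6, nat_lit 0x200038, nat_lit 0x110203, nat_lit 2, nat_lit 4, nat_lit 0x48⟩ (.node ⟨nat_lit 4, nat_lit 0x80008, nat_lit 0x2131, nat_lit 8, nat_lit 4, nat_lit 0x49⟩ (t14_251) (t14_8443)) (.node ⟨nat_lit 6, nat_lit 0x2000100038, nat_lit 0x10103, nat_lit 0, nat_lit 4, nat_lit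 0x45⟩ (t14_4347) (t14_12539))) (.node ⟨nat_lit 5, nat_lit 0x180018, nat_lit 0x20221, nat_lit 6, nat_lit 4, nat_lit 0x48⟩ (.node ⟨nat_lit 8, nat_lit 0x40002000c000a000d0, nat_lit 0x1020320, nat_lit 0, nat_lit 4, nat_lit 0x47⟩ (t14_2299) (t14_10491)) (.node ⟨nat_lit 5, nat_lit 0x100018, nat_lit 0x11220, nat_lit 5, nat_lit 3, nat_lit 0x47⟩ (t14_6395) (t14_14587)))) (.node ⟨nat_lit 6, nat_lit 0x200030, nat_lit 0x121111, nat_lit 1, nat_lit 4, nat_lit 0x49⟩ (.node ⟨nat_lit 7, nat_lit 0x60, nat_lit 0x2111111, nat_lit 2, nat_lit 4, nat_lit 0x4c⟩ (.node ⟨nat_lit 6, nat_lit 0x800100020, nat_lit 0x111000, nat_lit 2, nat_lit 4, nat_lit 0x47⟩ (t14_1275) (t14_9467)) (.node ⟨nat_lit 7, nat_lit 0x10002000500060, nat_lit 0x1012023, nat_lit 0, nat_lit 4, nat_lit 0x48⟩ (t14_5371) (t14_13563))) (.node ⟨nat_lit 5, nat_lit 0x800100012, nat_lit 0x21000, nat_lit 3, nat_lit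 4, nat_lit 0x46⟩ (.node ⟨nat_lit 6, nat_lit 0x20002000100030, nat_lit 0x12031, nat_lit 4, nat_lit 4, nat_lit 0x48⟩ (t14_3323) (t14_11515)) (.node ⟨nat_lit 7, nat_lit 0x400020002800500060, nat_lit 0x1100003, nat_lit 1, nat_lit 4, nat_lit 0x47⟩ (t14_7419) (.nil))))) (.node ⟨nat_lit 4, nat_lit 0x40008, nat_lit 0x3121, nat_lit 6, nat_lit 4, nat_lit 0x48⟩ (.node ⟨nat_lit 6, nat_lit 0x200030, nat_lit 0x121102, nat_lit 1, nat_lit 4, nat_lit 0x49⟩ (.node ⟨nat_lit 4, nat_lit 0, nat_lit 0x2111, nat_lit 0xa, nat_lit 4, nat_lit 0x4a⟩ (.node ⟨nat_lit 6, nat_lit 0x2000200010, nat_lit 0x13211, nat_lit 1, nat_lit 4, nat_lit 0x49⟩ (t14_763) (t14_8955)) (.node ⟨nat_lit 7, nat_lit 0x20005000600060, nat_lit 0x21220, nat_lit 1, nat_lit 4, nat_lit 0x47⟩ (t14_4859) (t14_13051))) (.node ⟨nat_lit 7, nat_lit 0x600050, nat_lit 0x1011112, nat_lit 0, nat_lit 4, nat_lit 0x49⟩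 (.node ⟨nat_lit 5, nat_lit 0x10001c, nat_lit 0x2113, nat_lit 5, nat_lit 4, nat_lit 0x47⟩ (t14_2811) (t14_11003)) (.node ⟨nat_lit 8, nat_lit 0x80004000a000d000e000e0, nat_lit 0x10010222, nat_lit 1, nat_lit 4, nat_lit 0x45⟩ (t14_6907) (t14_15099)))) (.node ⟨nat_lit 7, nat_lit 0x3000500060, nat_lit 0x1011210, nat_lit 1, nat_lit 4, nat_lit 0x47⟩ (.node ⟨nat_lit 6, nat_lit 0x300038, nat_lit 0x101213, nat_lit 1, nat_lit 4, nat_lit 0x47⟩ (.node ⟨nat_lit 6, nat_lit 0x2000080010, nat_lit 0x1001, nat_lit 1, nat_lit 4, nat_lit 0x46⟩ (t14_1787) (t14_9979)) (.node ⟨nat_lit 8, nat_lit 0x80004000400040, nat_lit 0x220210, nat_lit 0, nat_lit 4, nat_lit 0x4b⟩ (t14_5883) (t14_14075))) (.node ⟨nat_lit 8, nat_lit 0x8000200020009000c0, nat_lit 0x20012012, nat_lit 1, nat_lit 4, nat_lit 0x49⟩ (.node ⟨nat_lit 6, nat_lit 0x1000300028, nat_lit 0x111003, nat_lit 1, nat_lit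 4, nat_lit 0x47⟩ (t14_3835) (t14_12027)) (.node ⟨nat_lit 0xa, nat_lit 0x800200004002080300, nat_lit 0x1000102001, nat_lit 1, nat_lit 4, nat_lit 0x4b⟩ (t14_7931) (.nil)))))
def t14_507 : Tr := .node ⟨nat_lit 7, nat_lit 0x20004000440030, nat_lit 0x2110211, nat_lit 0, nat_lit 4, nat_lit 0x49⟩ (.nil) (.nil)
def t14_8699 : Tr := .node ⟨nat_lit 6, nat_lit 0x20002000100010, nat_lit 0x101100, nat_lit 3, nat_lit 3, nat_lit 0x46⟩ (.nil) (.nil)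
def t14_4603 : Tr := .node ⟨nat_lit 8, nat_lit 0x200080001000c0, nat_lit 0x10010201, nat_lit 4, nat_lit 4, nat_lit 0x4a⟩ (.nil) (.nil)
def t14_12795 : Tr := .node ⟨nat_lit 5, nat_lit 0x140018, nat_lit 0x11120, nat_lit 5, nat_lit 4, nat_lit 0x47⟩ (.nil) (.nil)
def t14_2555 : Tr := .node ⟨nat_lit 8, nat_lit 0x4000400080008000e000e0, nat_lit 0x1022110, nat_lit 0, nat_lit 4, nat_lit 0x47⟩ (.nil) (.nil)
def t14_10747 : Tr := .node ⟨nat_lit 7, nat_lit 0x5000180060, nat_lit 0x1101020, nat_lit 0, nat_lit 4, nat_lit 0x47⟩ (.nil) (.nil)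
def t14_6651 : Tr := .node ⟨nat_lit 5, nat_lit 0x100008, nat_lit 0x1121, nat_lit 6, nat_lit 4, nat_lit 0x48⟩ (.nil) (.nil)
def t14_14843 : Tr := .node ⟨nat_lit 9, nat_lit 0x10000400040012001200180, nat_lit 0x10110201, nat_lit 0, nat_lit 4, nat_lit 0x48⟩ (.nil) (.nil)
def t14_1531 : Tr := .node ⟨nat_lit 8, nat_lit 0x80008000400040004000c8, nat_lit 0x212100, nat_lit 1, nat_lit 4, nat_lit 0x48⟩ (.nil) (.nil)
def t14_9723 : Tr := .node ⟨nat_lit 8, nat_lit 0x200020008000c0, nat_lit 0x1010022, nat_lit 0, nat_lit 4, nat_lit 0x49⟩ (.nil) (.nil)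
def t14_5627 : Tr := .node ⟨nat_lit 6, nat_lit 0x2800280030, nat_lit 0x10201, nat_lit 5, nat_lit 4, nat_lit 0x46⟩ (.nil) (.nil)
def t14_13819 : Tr := .node ⟨nat_lit 7, nat_lit 0x20001000600050, nat_lit 0x2100, nat_lit 0, nat_lit 4, nat_lit 0x46⟩ (.nil) (.nil)
def t14_3579 : Tr := .node ⟨nat_lit 6, nat_lit 0x2000280030, nat_lit 0x10201, nat_lit 2, nat_lit 3, nat_lit 0x45⟩ (.nil) (.nil)
def t14_11771 : Tr := .node ⟨nat_lit 7, nat_lit 0x20004000100044, nat_lit 0x40, nat_lit 1, nat_lit 4, nat_lit 0x47⟩ (.nil) (.nil)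
def t14_7675 : Tr := .node ⟨nat_lit 4, nat_lit 0x8000c, nat_lit 0x10, nat_lit 6, nat_lit 4, nat_lit 0x44⟩ (.nil) (.nil)
def t14_1019 : Tr := .node ⟨nat_lit 8, nat_lit 0x2000c000c0, nat_lit 0x111121, nat_lit 0, nat_lit 4, nat_lit 0x49⟩ (.nil) (.nil)
def t14_9211 : Tr := .node ⟨nat_lit 8, nat_lit 0x800040009000a000d0, nat_lit 0x10011, nat_lit 1, nat_lit 4, nat_lit 0x46⟩ (.nil) (.nil)
def t14_5115 : Tr := .node ⟨nat_lit 9, nat_lit 0x400100010000200180, nat_lit 0x10003001, nat_lit 1, nat_lit 4, nat_lit 0x4a⟩ (.nil) (.nil)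
def t14_13307 : Tr := .node ⟨nat_lit 6, nat_lit 0x1000280030, nat_lit 0x100, nat_lit 3, nat_lit 4, nat_lit 0x45⟩ (.nil) (.nil)
def t14_3067 : Tr := .node ⟨nat_lit 6, nat_lit 0x20001000100028, nat_lit 0x11102, nat_lit 2, nat_lit 4, nat_lit 0x46⟩ (.nil) (.nil)
def t14_11259 : Tr := .node ⟨nat_lit 7, nat_lit 0x20006000500068, nat_lit 0x10101, nat_lit 1, nat_lit 4, nat_lit 0x45⟩ (.nil) (.nil)
def t14_7163 : Tr := .node ⟨nat_lit 9, nat_lit 0x4001000100008001100184, nat_lit 0x110011011, nat_lit 1, nat_lit 4, nat_lit 0x49⟩ (.nil) (.nil)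
def t14_15355 : Tr := .node ⟨nat_lit 9, nat_lit 0x8000800100010000c0011001c0, nat_lit 0x1110111, nat_lit 0, nat_lit 4, nat_lit 0x47⟩ (.nil) (.nil)
def t14_2043 : Tr := .node ⟨nat_lit 7, nat_lit 0x400040002000200060, nat_lit 0x22310, nat_lit 0, nat_lit 4, nat_lit 0x48⟩ (.nil) (.nil)
def t14_10235 : Tr := .node ⟨nat_lit 5, nat_lit 0x1000100018, nat_lit 0x320, nat_lit 0xb, nat_lit 4, nat_lit 0x48⟩ (.nil) (.nil)
def t14_6139 : Tr := .node ⟨nat_lit 6, nat_lit 0x10002000200024, nat_lit 0x100, nat_lit 5, nat_lit 4, nat_lit 0x46⟩ (.nil) (.nil)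
def t14_14331 : Tr := .node ⟨nat_lit 6, nat_lit 0xc0030, nat_lit 0x201030, nat_lit 0, nat_lit 4, nat_lit 0x47⟩ (.nil) (.nil)
def t14_4091 : Tr := .node ⟨nat_lit 9, nat_lit 0x10001000100008001100120, nat_lit 0x11110010, nat_lit 3, nat_lit 4, nat_lit 0x4a⟩ (.nil) (.nil)
def t14_12283 : Tr := .node ⟨nat_lit 8, nat_lit 0xa00060006000c0, nat_lit 0x21301, nat_lit 0, nat_lit 4, nat_lit 0x47⟩ (.nil) (.nil)
def t14_8187 : Tr := .node ⟨nat_lit 6, nat_lit 0x2000300034, nat_lit 0x2203, nat_lit 4, nat_lit 4, nat_lit 0x47⟩ (.nil) (.nil)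
def t9_507 : Tr := .node ⟨nat_lit 6, nat_lit 0x80030, nat_lit 0x101312, nat_lit 1, nat_lit 4, nat_lit 0x49⟩ (.node ⟨nat_lit 6, nat_lit 0x20001000280038, nat_lit 0x311122, nat_lit 1, nat_lit 4, nat_lit 0x48⟩ (.node ⟨nat_lit 4, nat_lit 0, nat_lit 0x2221, nat_lit 3, nat_lit 3, nat_lit 0x48⟩ (.node ⟨nat_lit 2, nat_lit 2, nat_lit 2, nat_lit 9, nat_lit 3, nat_lit 0x43⟩ (.node ⟨nat_lit 8, nat_lit 0x400080008000200088, nat_lit 0x20101111, nat_lit 1, nat_lit 4, nat_lit 0x4a⟩ (t14_507) (t14_8699)) (.node ⟨nat_lit 7, nat_lit 0x5000500060, nat_lit 0x211112, nat_lit 1, nat_lit 4, nat_lit 0x48⟩ (t14_4603) (t14_12795))) (.node ⟨nat_lit 4, nat_lit 0xc, nat_lit 0x1011, nat_lit 4, nat_lit 4, nat_lit 0x45⟩ (.node ⟨nat_lit 7, nat_lit 0x40004000200048, nat_lit 0x1113111, nat_lit 0, nat_lit 4, nat_lit 0x4a⟩ (t14_2555) (t14_10747)) (.node ⟨nat_lit 7, nat_lit 0x1000600050,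 nat_lit 0x1001212, nat_lit 1, nat_lit 4, nat_lit 0x48⟩ (t14_6651) (t14_14843)))) (.node ⟨nat_lit 7, nat_lit 0x4000440030, nat_lit 0x2101101, nat_lit 1, nat_lit 4, nat_lit 0x49⟩ (.node ⟨nat_lit 6, nat_lit 0x1000080020, nat_lit 0x122211, nat_lit 2, nat_lit 4, nat_lit 0x4a⟩ (.node ⟨nat_lit 8, nat_lit 0x200080008400c0, nat_lit 0x10010321, nat_lit 0, nat_lit 4, nat_lit 0x4a⟩ (t14_1531) (t14_9723)) (.node ⟨nat_lit 7, nat_lit 0x20006000500068, nat_lit 0x1101220, nat_lit 1, nat_lit 4, nat_lit 0x47⟩ (t14_5627) (t14_13819))) (.node ⟨nat_lit 6, nat_lit 0x1000100020, nat_lit 0x201001, nat_lit 2, nat_lit 4, nat_lit 0x48⟩ (.node ⟨nat_lit 7, nat_lit 0x1000080060, nat_lit 0x1010, nat_lit 0, nat_lit 4, nat_lit 0x47⟩ (t14_3579) (t14_11771)) (.node ⟨nat_lit 8, nat_lit 0x400080005000a000c8, nat_lit 0x11021011, nat_lit 1, nat_lit 4, nat_lit 0x48⟩ (t14_7675) (.nil)))))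 (.node ⟨nat_lit 7, nat_lit 0x10004000640064, nat_lit 0x3000020, nat_lit 1, nat_lit 4, nat_lit 0x47⟩ (.node ⟨nat_lit 6, nat_lit 0x200030, nat_lit 0x2201, nat_lit 5, nat_lit 4, nat_lit 0x49⟩ (.node ⟨nat_lit 6, nat_lit 0x1000200020, nat_lit 0x221211, nat_lit 0, nat_lit 4, nat_lit 0x4a⟩ (.node ⟨nat_lit 5, nat_lit 0x40018, nat_lit 0x11004, nat_lit 3, nat_lit 4, nat_lit 0x47⟩ (t14_1019) (t14_9211)) (.node ⟨nat_lit 6, nat_lit 0x2000340034, nat_lit 0x212021, nat_lit 4, nat_lit 4, nat_lit 0x48⟩ (t14_5115) (t14_13307))) (.node ⟨nat_lit 7, nat_lit 0x600060, nat_lit 0x1011120, nat_lit 0, nat_lit 4, nat_lit 0x49⟩ (.node ⟨nat_lit 6, nat_lit 0x2000100030, nat_lit 0x21022, nat_lit 1, nat_lit 3, nat_lit 0x47⟩ (t14_3067) (t14_11259)) (.node ⟨nat_lit 8, nat_lit 0x80002000c000a000d0, nat_lit 0x1020212, nat_lit 0, nat_lit 4, nat_lit 0x47⟩ (t14_7163) (t14_15355))))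 (.node ⟨nat_lit 6, nat_lit 0x300030, nat_lit 0x102121, nat_lit 2, nat_lit 4, nat_lit 0x48⟩ (.node ⟨nat_lit 8, nat_lit 0x80002000c0, nat_lit 0x2111101, nat_lit 1, nat_lit 4, nat_lit 0x4b⟩ (.node ⟨nat_lit 6, nat_lit 0x2000100010, nat_lit 0x112032, nat_lit 1, nat_lit 4, nat_lit 0x4a⟩ (t14_2043) (t14_10235)) (.node ⟨nat_lit 7, nat_lit 0x4000400060, nat_lit 0x122200, nat_lit 0, nat_lit 4, nat_lit 0x4a⟩ (t14_6139) (t14_14331))) (.node ⟨nat_lit 6, nat_lit 0x200038, nat_lit 0x22203, nat_lit 1, nat_lit 4, nat_lit 0x49⟩ (.node ⟨nat_lit 6, nat_lit 0x2000300034, nat_lit 0x2000, nat_lit 1, nat_lit 4, nat_lit 0x45⟩ (t14_4091) (t14_12283)) (.node ⟨nat_lit 8, nat_lit 0x4000800088006000d0, nat_lit 0x1021111, nat_lit 0, nat_lit 4, nat_lit 0x47⟩ (t14_8187) (.nil)))))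
def t4_11 : Tr := .node ⟨nat_lit 4, nat_lit 0, nat_lit 0x3111, nat_lit 0, nat_lit 3, nat_lit 0x47⟩ (.node ⟨nat_lit 2, nat_lit 0, nat_lit 0x22, nat_lit 2, nat_lit 3, nat_lit 0x44⟩ (.node ⟨nat_lit 5, nat_lit 0, nat_lit 0x11111, nat_lit 1, nat_lit 3, nat_lit 0x48⟩ (.node ⟨nat_lit 2, nat_lit 0, nat_lit 0x43, nat_lit 3, nat_lit 3, nat_lit 0x47⟩ (.node ⟨nat_lit 5, nat_lit 0x18, nat_lit 0x21411, nat_lit 0, nat_lit 4, nat_lit 0x4a⟩ (t9_11) (t9_267)) (.node ⟨nat_lit 4, nat_lit 8, nat_lit 0x3112, nat_lit 9, nat_lit 4, nat_lit 0x4a⟩ (t9_139) (t9_395))) (.node ⟨nat_lit 4, nat_lit 8, nat_lit 0x1412, nat_lit 3, nat_lit 4, nat_lit 0x49⟩ (.node ⟨nat_lit 3, nat_lit 6, nat_lit 0x212, nat_lit 7, nat_lit 3, nat_lit 0x45⟩ (t9_75) (t9_331)) (.node ⟨nat_lit 5, nat_lit 0x1000100008, nat_lit 0x13211, nat_lit 1, nat_lit 3, nat_lit 0x47⟩ (t9_203) (t9_459)))) (.node ⟨nat_lit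 2, nat_lit 0, nat_lit 0x43, nat_lit 0xd, nat_lit 4, nat_lit 0x49⟩ (.node ⟨nat_lit 4, nat_lit 0, nat_lit 0x4221, nat_lit 5, nat_lit 4, nat_lit 0x4b⟩ (.node ⟨nat_lit 6, nat_lit 0x20, nat_lit 0x311113, nat_lit 0, nat_lit 4, nat_lit 0x4c⟩ (t9_43) (t9_299)) (.node ⟨nat_lit 6, nat_lit 0x20, nat_lit 0x311112, nat_lit 1, nat_lit 4, nat_lit 0x4c⟩ (t9_171) (t9_427))) (.node ⟨nat_lit 5, nat_lit 0x10, nat_lit 0x14111, nat_lit 5, nat_lit 4, nat_lit 0x4b⟩ (.node ⟨nat_lit 5, nat_lit 0x18, nat_lit 0x32112, nat_lit 3, nat_lit 4, nat_lit 0x4a⟩ (t9_107) (t9_363)) (.node ⟨nat_lit 6, nat_lit 0x30, nat_lit 0x312111, nat_lit 1, nat_lit 4, nat_lit 0x4b⟩ (t9_235) (t9_491))))) (.node ⟨nat_lit 3, nat_lit 0, nat_lit 0x221, nat_lit 2, nat_lit 3, nat_lit 0x46⟩ (.node ⟨nat_lit 4, nat_lit 8, nat_lit 0x1111, nat_lit 4, nat_lit 3, nat_lit 0x46⟩ (.node ⟨nat_lit 4, nat_lit 0, nat_lit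 0x4222, nat_lit 0, nat_lit 4, nat_lit 0x4a⟩ (.node ⟨nat_lit 4, nat_lit 0, nat_lit 0x3221, nat_lit 0, nat_lit 3, nat_lit 0x48⟩ (t9_27) (t9_283)) (.node ⟨nat_lit 4, nat_lit 8, nat_lit 0x3112, nat_lit 5, nat_lit 4, nat_lit 0x49⟩ (t9_155) (t9_411))) (.node ⟨nat_lit 4, nat_lit 0, nat_lit 0x4111, nat_lit 2, nat_lit 4, nat_lit 0x49⟩ (.node ⟨nat_lit 5, nat_lit 0x100008, nat_lit 0x12102, nat_lit 1, nat_lit 3, nat_lit 0x47⟩ (t9_91) (t9_347)) (.node ⟨nat_lit 7, nat_lit 0x400020, nat_lit 0x311101, nat_lit 0, nat_lit 3, nat_lit 0x4a⟩ (t9_219) (t9_475)))) (.node ⟨nat_lit 5, nat_lit 0, nat_lit 0x43211, nat_lit 0, nat_lit 4, nat_lit 0x4c⟩ (.node ⟨nat_lit 4, nat_lit 0, nat_lit 0x4222, nat_lit 2, nat_lit 4, nat_lit 0x4b⟩ (.node ⟨nat_lit 5, nat_lit 0x10, nat_lit 0x21111, nat_lit 2, nat_lit 3, nat_lit 0x48⟩ (t9_59) (t9_315)) (.node ⟨nat_lit 4, nat_lit 0xc, nat_lit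 0x3111, nat_lit 7, nat_lit 3, nat_lit 0x47⟩ (t9_187) (t9_443))) (.node ⟨nat_lit 4, nat_lit 0, nat_lit 0x4311, nat_lit 0, nat_lit 4, nat_lit 0x4a⟩ (.node ⟨nat_lit 5, nat_lit 0x80010, nat_lit 0x23222, nat_lit 0, nat_lit 4, nat_lit 0x4a⟩ (t9_123) (t9_379)) (.node ⟨nat_lit 4, nat_lit 8, nat_lit 0x1312, nat_lit 3, nat_lit 4, nat_lit 0x48⟩ (t9_251) (t9_507)))))

end Pool.Agent.Sel.T31
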