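import Pool.Agent.H8.Sel.Prof

set_option linter.all false
set_option maxRecDepth 100000

namespace Pool.Agent.Sel.T31

open Pool.Agent.Sel

def t14_12 : Tr := .node ⟨nat_lit 7, nat_lit 0x10002000200040, nat_lit 0x1100211, nat_lit 6, nat_lit 4, nat_lit 0x4a⟩ (.nil) (.nil)
def t14_8204 : Tr := .node ⟨nat_lit 7, nat_lit 0x40004800300068, nat_lit 0x1113, nat_lit 1, nat_lit 4, nat_lit 0x45⟩ (.nil) (.nil)
def t14_4108 : Tr := .node ⟨nat_lit 8, nat_lit 0x800080008000400090, nat_lit 0x1112201, nat_lit 0, nat_lit 4, nat_lit 0x4a⟩ (.nil) (.nil)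
def t14_12300 : Tr := .node ⟨nat_lit 7, nat_lit 0x50003000600070, nat_lit 0x11023, nat_lit 1, nat_lit 4, nat_lit 0x45⟩ (.nil) (.nil)
def t14_2060 : Tr := .node ⟨nat_lit 7, nat_lit 0x40004000200020, nat_lit 0x20032, nat_lit 0, nat_lit 4, nat_lit 0x49⟩ (.nil) (.nil)
def t14_10252 : Tr := .node ⟨nat_lit 7, nat_lit 0x400020005000500070, nat_lit 0x1001002, nat_lit 1, nat_lit 4, nat_lit 0x45⟩ (.nil) (.nil)
def t14_6156 : Tr := .node ⟨nat_lit 4, nat_lit 0x80008, nat_lit 0x110, nat_lit 8, nat_lit 4, nat_lit 0x46⟩ (.nil) (.nil)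
def t14_14348 : Tr := .node ⟨nat_lit 7, nat_lit 0x10002000500060, nat_lit 0x1100, nat_lit 3, nat_lit 4, nat_lit 0x46⟩ (.nil) (.nil)
def t14_1036 : Tr := .node ⟨nat_lit 7, nat_lit 0x10004000440060, nat_lit 0x211, nat_lit 3, nat_lit 4, nat_lit 0x47⟩ (.nil) (.nil)
def t14_9228 : Tr := .node ⟨nat_lit 9, nat_lit 0x10001000040012001200180, nat_lit 0x10120111, nat_lit 0, nat_lit 4, nat_lit 0x49⟩ (.nil) (.nil)
def t14_5132 : Tr := .node ⟨nat_lit 8, nat_lit 0x8000800090009000d000e0, nat_lit 0x1030, nat_lit 1, nat_lit 4, nat_lit 0x45⟩ (.nil) (.nil)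
def t14_13324 : Tr := .node ⟨nat_lit 7, nat_lit 0x40001000100060, nat_lit 0x2100000, nat_lit 1, nat_lit 3, nat_lit 0x47⟩ (.nil) (.nil)
def t14_3084 : Tr := .node ⟨nat_lit 6, nat_lit 0x1000280030, nat_lit 0x200211, nat_lit 2, nat_lit 4, nat_lit 0x47⟩ (.nil) (.nil)
def t14_11276 : Tr := .node ⟨nat_lit 6, nat_lit 0x2000080030, nat_lit 0x10112, nat_lit 1, nat_lit 4, nat_lit 0x46⟩ (.nil) (.nil)
def t14_7180 : Tr := .node ⟨nat_lit 8, nat_lit 0x40008000800020, nat_lit 0x1111001, nat_lit 1, nat_lit 4, nat_lit 0x4a⟩ (.nil) (.nil)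
def t14_15372 : Tr := .node ⟨nat_lit 7, nat_lit 0x40004000400048, nat_lit 0x111101, nat_lit 8, nat_lit 4, nat_lit 0x4a⟩ (.nil) (.nil)
def t14_524 : Tr := .node ⟨nat_lit 4, nat_lit 0x80008, nat_lit 0x222, nat_lit 9, nat_lit 4, nat_lit 0x48⟩ (.nil) (.nil)
def t14_8716 : Tr := .node ⟨nat_lit 7, nat_lit 0x10002000500060, nat_lit 0x2100, nat_lit 1, nat_lit 4, nat_lit 0x46⟩ (.nil) (.nil)
def t14_4620 : Tr := .node ⟨nat_lit 8, nat_lit 0x10004000a000c0, nat_lit 0x1200211, nat_lit 0, nat_lit 4, nat_lit 0x49⟩ (.nil) (.nil)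
def t14_12812 : Tr := .node ⟨nat_lit 6, nat_lit 0x20002000100030, nat_lit 0x2130, nat_lit 3, nat_lit 4, nat_lit 0x47⟩ (.nil) (.nil)
def t14_2572 : Tr := .node ⟨nat_lit 8, nat_lit 0x4000400080008000600088, nat_lit 0x1102100, nat_lit 1, nat_lit 4, nat_lit 0x48⟩ (.nil) (.nil)
def t14_10764 : Tr := .node ⟨nat_lit 7, nat_lit 0x4000100060, nat_lit 0x1002, nat_lit 0, nat_lit 4, nat_lit 0x47⟩ (.nil) (.nil)
def t14_6668 : Tr := .node ⟨nat_lit 7, nat_lit 0x4000400020, nat_lit 0x111201, nat_lit 3, nat_lit 4, nat_lit 0x4a⟩ (.nil) (.nil)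
def t14_14860 : Tr := .node ⟨nat_lit 8, nat_lit 0x800080004000400090, nat_lit 0x1111111, nat_lit 0, nat_lit 4, nat_lit 0x49⟩ (.nil) (.nil)
def t14_1548 : Tr := .node ⟨nat_lit 9, nat_lit 0x100010001000080008000800140, nat_lit 0x1112101, nat_lit 0, nat_lit 4, nat_lit 0x49⟩ (.nil) (.nil)
def t14_9740 : Tr := .node ⟨nat_lit 7, nat_lit 0x6000600060, nat_lit 0x21220, nat_lit 0, nat_lit 4, nat_lit 0x48⟩ (.nil) (.nil)
def t14_5644 : Tr := .node ⟨nat_lit 7, nat_lit 0x6000180018, nat_lit 0x1000120, nat_lit 0, nat_lit 4, nat_lit 0x46⟩ (.nil) (.nil)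
def t14_13836 : Tr := .node ⟨nat_lit 7, nat_lit 0x20004000500064, nat_lit 0x2200, nat_lit 4, nat_lit 4, nat_lit 0x47⟩ (.nil) (.nil)
def t14_3596 : Tr := .node ⟨nat_lit 7, nat_lit 0x10001000600050, nat_lit 0x1002121, nat_lit 2, nat_lit 4, nat_lit 0x48⟩ (.nil) (.nil)
def t14_11788 : Tr := .node ⟨nat_lit 6, nat_lit 0x200032, nat_lit 0x1010, nat_lit 1, nat_lit 4, nat_lit 0x46⟩ (.nil) (.nil)
def t14_7692 : Tr := .node ⟨nat_lit 6, nat_lit 0x800080030, nat_lit 0x112, nat_lit 2, nat_lit 4, nat_lit 0x46⟩ (.nil) (.nil)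
def t9_12 : Tr := .node ⟨nat_lit 3, nat_lit 6, nat_lit 0x311, nat_lit 3, nat_lit 3, nat_lit 0x45⟩ (.node ⟨nat_lit 5, nat_lit 0x100010, nat_lit 0x13120, nat_lit 7, nat_lit 4, nat_lit 0x4a⟩ (.node ⟨nat_lit 6, nat_lit 0x20002800380038, nat_lit 0x310120, nat_lit 2, nat_lit 4, nat_lit 0x47⟩ (.node ⟨nat_lit 5, nat_lit 0x100018, nat_lit 0x10221, nat_lit 2, nat_lit 3, nat_lit 0x46⟩ (.node ⟨nat_lit 6, nat_lit 0x2000080030, nat_lit 0x22033, nat_lit 0, nat_lit 4, nat_lit 0x49⟩ (t14_12) (t14_8204)) (.node ⟨nat_lit 6, nat_lit 0x200030, nat_lit 0x101000, nat_lit 1, nat_lit 4, nat_lit 0x47⟩ (t14_4108) (t14_12300))) (.node ⟨nat_lit 4, nat_lit 0xc, nat_lit 0x3123, nat_lit 5, nat_lit 4, nat_lit 0x49⟩ (.node ⟨nat_lit 6, nat_lit 0x2000300030, nat_lit 0x13121, nat_lit 0, nat_lit 3, nat_lit 0x46⟩ (t14_2060) (t14_10252)) (.node ⟨nat_lit 9, nat_lit 0x1000040011001800180,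 nat_lit 0x1210110, nat_lit 0, nat_lit 4, nat_lit 0x49⟩ (t14_6156) (t14_14348)))) (.node ⟨nat_lit 5, nat_lit 0x800080010, nat_lit 0x20202, nat_lit 6, nat_lit 4, nat_lit 0x48⟩ (.node ⟨nat_lit 6, nat_lit 0x280030, nat_lit 0x221112, nat_lit 0, nat_lit 4, nat_lit 0x49⟩ (.node ⟨nat_lit 5, nat_lit 0x18001c, nat_lit 0x11213, nat_lit 5, nat_lit 4, nat_lit 0x47⟩ (t14_1036) (t14_9228)) (.node ⟨nat_lit 4, nat_lit 0x8000c, nat_lit 0x1221, nat_lit 0xb, nat_lit 4, nat_lit 0x48⟩ (t14_5132) (t14_13324))) (.node ⟨nat_lit 7, nat_lit 0x20004000400044, nat_lit 0x1010201, nat_lit 2, nat_lit 4, nat_lit 0x49⟩ (.node ⟨nat_lit 6, nat_lit 0x300028, nat_lit 0x102104, nat_lit 2, nat_lit 4, nat_lit 0x49⟩ (t14_3084) (t14_11276)) (.node ⟨nat_lit 6, nat_lit 0x20002000100032, nat_lit 0x12022, nat_lit 5, nat_lit 4, nat_lit 0x47⟩ (t14_7180) (t14_15372))))) (.node ⟨nat_lit 5, nat_lit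 0x1000080008, nat_lit 0x21110, nat_lit 1, nat_lit 3, nat_lit 0x46⟩ (.node ⟨nat_lit 5, nat_lit 0x18, nat_lit 0x21221, nat_lit 1, nat_lit 4, nat_lit 0x49⟩ (.node ⟨nat_lit 6, nat_lit 0x2000080030, nat_lit 0x21110, nat_lit 1, nat_lit 4, nat_lit 0x47⟩ (.node ⟨nat_lit 7, nat_lit 0x4000200010, nat_lit 0x121011, nat_lit 6, nat_lit 4, nat_lit 0x4b⟩ (t14_524) (t14_8716)) (.node ⟨nat_lit 5, nat_lit 0x1000100018, nat_lit 0x11212, nat_lit 6, nat_lit 4, nat_lit 0x48⟩ (t14_4620) (t14_12812))) (.node ⟨nat_lit 5, nat_lit 0x100018001c, nat_lit 0x1021, nat_lit 6, nat_lit 4, nat_lit 0x45⟩ (.node ⟨nat_lit 7, nat_lit 0x20001000100040, nat_lit 0x1010311, nat_lit 4, nat_lit 4, nat_lit 0x4a⟩ (t14_2572) (t14_10764)) (.node ⟨nat_lit 7, nat_lit 0x4000400060, nat_lit 0x121210, nat_lit 3, nat_lit 4, nat_lit 0x4a⟩ (t14_6668) (t14_14860)))) (.node ⟨nat_lit 6, nat_lit 0x2000080010,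 nat_lit 0x21031, nat_lit 2, nat_lit 4, nat_lit 0x49⟩ (.node ⟨nat_lit 5, nat_lit 0x80010, nat_lit 0x11210, nat_lit 7, nat_lit 4, nat_lit 0x49⟩ (.node ⟨nat_lit 6, nat_lit 0x800200030, nat_lit 0x100032, nat_lit 1, nat_lit 4, nat_lit 0x47⟩ (t14_1548) (t14_9740)) (.node ⟨nat_lit 7, nat_lit 0x40002000100060, nat_lit 0x1112002, nat_lit 0, nat_lit 3, nat_lit 0x47⟩ (t14_5644) (t14_13836))) (.node ⟨nat_lit 4, nat_lit 0xc, nat_lit 0x2013, nat_lit 6, nat_lit 4, nat_lit 0x47⟩ (.node ⟨nat_lit 7, nat_lit 0x40004800300070, nat_lit 0x1001003, nat_lit 2, nat_lit 4, nat_lit 0x46⟩ (t14_3596) (t14_11788)) (.node ⟨nat_lit 8, nat_lit 0x8000800084, nat_lit 0x11111210, nat_lit 0, nat_lit 4, nat_lit 0x4c⟩ (t14_7692) (.nil)))))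
def t14_268 : Tr := .node ⟨nat_lit 7, nat_lit 0x40001000600050, nat_lit 0x12121, nat_lit 0, nat_lit 4, nat_lit 0x47⟩ (.nil) (.nil)
def t14_8460 : Tr := .node ⟨nat_lit 7, nat_lit 0x40001000480060, nat_lit 0x102001, nat_lit 0, nat_lit 4, nat_lit 0x47⟩ (.nil) (.nil)
def t14_4364 : Tr := .node ⟨nat_lit 8, nat_lit 0x800080004000a000d000e0, nat_lit 0x10111102, nat_lit 1, nat_lit 4, nat_lit 0x47⟩ (.nil) (.nil)
def t14_12556 : Tr := .node ⟨nat_lit 6, nat_lit 0x800300028, nat_lit 0x10040, nat_lit 1, nat_lit 4, nat_lit 0x46⟩ (.nil) (.nil)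
def t14_2316 : Tr := .node ⟨nat_lit 8, nat_lit 0x4000400080008000880060, nat_lit 0x10211101, nat_lit 0, nat_lit 4, nat_lit 0x48⟩ (.nil) (.nil)
def t14_10508 : Tr := .node ⟨nat_lit 6, nat_lit 0x10001000200030, nat_lit 0x2100, nat_lit 4, nat_lit 3, nat_lit 0x45⟩ (.nil) (.nil)
def t14_6412 : Tr := .node ⟨nat_lit 6, nat_lit 0x1000200008, nat_lit 0x111111, nat_lit 2, nat_lit 3, nat_lit 0x47⟩ (.nil) (.nil)
def t14_14604 : Tr := .node ⟨nat_lit 6, nat_lit 0x20, nat_lit 0x21110, nat_lit 4, nat_lit 3, nat_lit 0x49⟩ (.nil) (.nil)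
def t14_1292 : Tr := .node ⟨nat_lit 7, nat_lit 0x40004000200048, nat_lit 0x11021, nat_lit 0, nat_lit 4, nat_lit 0x47⟩ (.nil) (.nil)
def t14_9484 : Tr := .node ⟨nat_lit 9, nat_lit 0x800100010000a001100180, nat_lit 0x11011002, nat_lit 1, nat_lit 4, nat_lit 0x49⟩ (.nil) (.nil)
def t14_5388 : Tr := .node ⟨nat_lit 6, nat_lit 0x10001000200022, nat_lit 0x2121, nat_lit 1, nat_lit 4, nat_lit 0x46⟩ (.nil) (.nil)
def t14_13580 : Tr := .node ⟨nat_lit 8, nat_lit 0x800080004000a800d0, nat_lit 0x1120, nat_lit 0, nat_lit 4, nat_lit 0x46⟩ (.nil) (.nil)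
def t14_3340 : Tr := .node ⟨nat_lit 5, nat_lit 0x1000100010, nat_lit 0x2110, nat_lit 5, nat_lit 3, nat_lit 0x46⟩ (.nil) (.nil)
def t14_11532 : Tr := .node ⟨nat_lit 7, nat_lit 0x40001000600060, nat_lit 0x112110, nat_lit 3, nat_lit 4, nat_lit 0x48⟩ (.nil) (.nil)
def t14_7436 : Tr := .node ⟨nat_lit 8, nat_lit 0x20004000400080, nat_lit 0x11111110, nat_lit 2, nat_lit 4, nat_lit 0x4b⟩ (.nil) (.nil)
def t14_780 : Tr := .node ⟨nat_lit 7, nat_lit 0x40001000480060, nat_lit 0x13111, nat_lit 2, nat_lit 4, nat_lit 0x48⟩ (.nil) (.nil)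
def t14_8972 : Tr := .node ⟨nat_lit 8, nat_lit 0x80008000880084, nat_lit 0x1112110, nat_lit 0, nat_lit 4, nat_lit 0x4a⟩ (.nil) (.nil)
def t14_4876 : Tr := .node ⟨nat_lit 8, nat_lit 0x8000800040004000a00090, nat_lit 0x1202100, nat_lit 0, nat_lit 4, nat_lit 0x48⟩ (.nil) (.nil)
def t14_13068 : Tr := .node ⟨nat_lit 7, nat_lit 0x6000480050, nat_lit 0x31, nat_lit 2, nat_lit 4, nat_lit 0x46⟩ (.nil) (.nil)
def t14_2828 : Tr := .node ⟨nat_lit 7, nat_lit 0x1000600060, nat_lit 0x11020, nat_lit 3, nat_lit 4, nat_lit 0x48⟩ (.nil) (.nil)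
def t14_11020 : Tr := .node ⟨nat_lit 5, nat_lit 0x1000180018, nat_lit 0x10120, nat_lit 0xb, nat_lit 4, nat_lit 0x47⟩ (.nil) (.nil)
def t14_6924 : Tr := .node ⟨nat_lit 6, nat_lit 0x2000080030, nat_lit 0x131111, nat_lit 1, nat_lit 4, nat_lit 0x49⟩ (.nil) (.nil)
def t14_15116 : Tr := .node ⟨nat_lit 8, nat_lit 0x2000800080003000c0, nat_lit 0x11011, nat_lit 1, nat_lit 4, nat_lit 0x47⟩ (.nil) (.nil)
def t14_1804 : Tr := .node ⟨nat_lit 6, nat_lit 0x1000300028, nat_lit 0x102002, nat_lit 5, nat_lit 4, nat_lit 0x48⟩ (.nil) (.nil)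
def t14_9996 : Tr := .node ⟨nat_lit 7, nat_lit 0x400020005000600070, nat_lit 0x13102, nat_lit 2, nat_lit 4, nat_lit 0x46⟩ (.nil) (.nil)
def t14_5900 : Tr := .node ⟨nat_lit 9, nat_lit 0x1000080008000800110, nat_lit 0x101102100, nat_lit 2, nat_lit 4, nat_lit 0x4b⟩ (.nil) (.nil)
def t14_14092 : Tr := .node ⟨nat_lit 6, nat_lit 0x10001000200020, nat_lit 0x12021, nat_lit 4, nat_lit 4, nat_lit 0x48⟩ (.nil) (.nil)
def t14_3852 : Tr := .node ⟨nat_lit 8, nat_lit 0x80008800a000c8, nat_lit 0x1021201, nat_lit 0, nat_lit 4, nat_lit 0x48⟩ (.nil) (.nil)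
def t14_12044 : Tr := .node ⟨nat_lit 8, nat_lit 0x9000a000c0, nat_lit 0x1111210, nat_lit 0, nat_lit 4, nat_lit 0x49⟩ (.nil) (.nil)
def t14_7948 : Tr := .node ⟨nat_lit 7, nat_lit 0x40004800480060, nat_lit 0x111211, nat_lit 4, nat_lit 4, nat_lit 0x48⟩ (.nil) (.nil)
def t9_268 : Tr := .node ⟨nat_lit 4, nat_lit 0xc, nat_lit 0x2131, nat_lit 4, nat_lit 4, nat_lit 0x48⟩ (.node ⟨nat_lit 5, nat_lit 0x1000080014, nat_lit 0x31202, nat_lit 3, nat_lit 4, nat_lit 0x49⟩ (.node ⟨nat_lit 5, nat_lit 0x100008, nat_lit 0x3121, nat_lit 0, nat_lit 3, nat_lit 0x47⟩ (.node ⟨nat_lit 7, nat_lit 0x40001000600060, nat_lit 0x12310, nat_lit 0, nat_lit 4, nat_lit 0x47⟩ (.node ⟨nat_lit 5, nat_lit 0x100010, nat_lit 0x21122, nat_lit 4, nat_lit 4, nat_lit 0x4a⟩ (t14_268) (t14_8460)) (.node ⟨nat_lit 7, nat_lit 0x40003000500060, nat_lit 0x110032, nat_lit 0, nat_lit 3, nat_lit 0x45⟩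 (t14_4364) (t14_12556))) (.node ⟨nat_lit 4, nat_lit 0x80004, nat_lit 0x2012, nat_lit 8, nat_lit 3, nat_lit 0x46⟩ (.node ⟨nat_lit 5, nat_lit 0x1000080018, nat_lit 0x20033, nat_lit 1, nat_lit 3, nat_lit 0x45⟩ (t14_2316) (t14_10508)) (.node ⟨nat_lit 5, nat_lit 0x180018, nat_lit 0x11230, nat_lit 4, nat_lit 4, nat_lit 0x48⟩ (t14_6412) (t14_14604)))) (.node ⟨nat_lit 6, nat_lit 0x280030, nat_lit 0x112112, nat_lit 0, nat_lit 4, nat_lit 0x48⟩ (.node ⟨nat_lit 6, nat_lit 0x1000200022, nat_lit 0x222121, nat_lit 0, nat_lit 4, nat_lit 0x4a⟩ (.node ⟨nat_lit 5, nat_lit 0x40018, nat_lit 0x11120, nat_lit 0, nat_lit 4, nat_lit 0x46⟩ (t14_1292) (t14_9484)) (.node ⟨nat_lit 7, nat_lit 0x6000180050, nat_lit 0x1011122, nat_lit 1, nat_lit 4, nat_lit 0x48⟩ (t14_5388) (t14_13580))) (.node ⟨nat_lit 6, nat_lit 0x800280030, nat_lit 0x1203, nat_lit 1, nat_lit 4, nat_lit 0x46⟩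 (.node ⟨nat_lit 7, nat_lit 0x400040004000200020, nat_lit 0x120031, nat_lit 2, nat_lit 4, nat_lit 0x49⟩ (t14_3340) (t14_11532)) (.node ⟨nat_lit 6, nat_lit 0x2000200030, nat_lit 0x111112, nat_lit 5, nat_lit 4, nat_lit 0x49⟩ (t14_7436) (.nil))))) (.node ⟨nat_lit 6, nat_lit 0x2000200030, nat_lit 0x3210, nat_lit 1, nat_lit 4, nat_lit 0x48⟩ (.node ⟨nat_lit 5, nat_lit 0x10001a, nat_lit 0x21120, nat_lit 3, nat_lit 4, nat_lit 0x48⟩ (.node ⟨nat_lit 6, nat_lit 0x2000080030, nat_lit 0x1120, nat_lit 1, nat_lit 4, nat_lit 0x46⟩ (.node ⟨nat_lit 7, nat_lit 0x40, nat_lit 0x2111110, nat_lit 0, nat_lit 4, nat_lit 0x4c⟩ (t14_780) (t14_8972)) (.node ⟨nat_lit 8, nat_lit 0x4000800080, nat_lit 0x11111120, nat_lit 0, nat_lit 4, nat_lit 0x4c⟩ (t14_4876) (t14_13068))) (.node ⟨nat_lit 6, nat_lit 0x2000100030, nat_lit 0x11032, nat_lit 1, nat_lit 4, nat_lit 0x48⟩ (.node ⟨nat_lit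 8, nat_lit 0x400040008000840060, nat_lit 0x10210003, nat_lit 1, nat_lit 4, nat_lit 0x49⟩ (t14_2828) (t14_11020)) (.node ⟨nat_lit 6, nat_lit 0x2000080030, nat_lit 0x110032, nat_lit 0, nat_lit 4, nat_lit 0x47⟩ (t14_6924) (t14_15116)))) (.node ⟨nat_lit 6, nat_lit 0x2000100030, nat_lit 0x11022, nat_lit 1, nat_lit 3, nat_lit 0x46⟩ (.node ⟨nat_lit 8, nat_lit 0x800080008400c8, nat_lit 0x10112101, nat_lit 1, nat_lit 4, nat_lit 0x4a⟩ (.node ⟨nat_lit 6, nat_lit 0x2000240038, nat_lit 0x10113, nat_lit 4, nat_lit 4, nat_lit 0x46⟩ (t14_1804) (t14_9996)) (.node ⟨nat_lit 9, nat_lit 0x100008000800040, nat_lit 0x1220001, nat_lit 1, nat_lit 4, nat_lit 0x4c⟩ (t14_5900) (t14_14092))) (.node ⟨nat_lit 6, nat_lit 0x1000280034, nat_lit 0x220020, nat_lit 1, nat_lit 4, nat_lit 0x47⟩ (.node ⟨nat_lit 6, nat_lit 0x280030, nat_lit 0x111001, nat_lit 0, nat_lit 4, nat_lit 0x47⟩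 (t14_3852) (t14_12044)) (.node ⟨nat_lit 7, nat_lit 0x40004000100060, nat_lit 0x1012211, nat_lit 0, nat_lit 4, nat_lit 0x49⟩ (t14_7948) (.nil)))))
def t14_140 : Tr := .node ⟨nat_lit 6, nat_lit 0x2000080030, nat_lit 0x13211, nat_lit 0, nat_lit 4, nat_lit 0x48⟩ (.nil) (.nil)
def t14_8332 : Tr := .node ⟨nat_lit 6, nat_lit 0x800300038, nat_lit 2, nat_lit 2, nat_lit 4, nat_lit 0x44⟩ (.nil) (.nil)
def t14_4236 : Tr := .node ⟨nat_lit 2, nat_lit 0, nat_lit 0x33, nat_lit 5, nat_lit 4, nat_lit 0x46⟩ (.nil) (.nil)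
def t14_12428 : Tr := .node ⟨nat_lit 7, nat_lit 0x40001000600068, nat_lit 0x11031, nat_lit 0, nat_lit 4, nat_lit 0x46⟩ (.nil) (.nil)
def t14_2188 : Tr := .node ⟨nat_lit 8, nat_lit 0x80008000400088, nat_lit 0x1112002, nat_lit 1, nat_lit 4, nat_lit 0x4a⟩ (.nil) (.nil)
def t14_10380 : Tr := .node ⟨nat_lit 8, nat_lit 0x80004000a000a000a00050, nat_lit 0x10020000, nat_lit 0, nat_lit 4, nat_lit 0x46⟩ (.nil) (.nil)
def t14_6284 : Tr := .node ⟨nat_lit 6, nat_lit 0x2000100010, nat_lit 0x111031, nat_lit 0, nat_lit 4, nat_lit 0x49⟩ (.nil) (.nil)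
def t14_14476 : Tr := .node ⟨nat_lit 7, nat_lit 0x6000180050, nat_lit 0x11112, nat_lit 1, nat_lit 4, nat_lit 0x47⟩ (.nil) (.nil)
def t14_1164 : Tr := .node ⟨nat_lit 6, nat_lit 0x800300030, nat_lit 0x1122, nat_lit 2, nat_lit 4, nat_lit 0x46⟩ (.nil) (.nil)
def t14_9356 : Tr := .node ⟨nat_lit 8, nat_lit 0xc00030003000a0, nat_lit 0x10001212, nat_lit 1, nat_lit 4, nat_lit 0x47⟩ (.nil) (.nil)
def t14_5260 : Tr := .node ⟨nat_lit 5, nat_lit 0x100018, nat_lit 0x11120, nat_lit 9, nat_lit 4, nat_lit 0x49⟩ (.nil) (.nil)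
def t14_13452 : Tr := .node ⟨nat_lit 8, nat_lit 0x800020002000c0, nat_lit 0x13100, nat_lit 1, nat_lit 4, nat_lit 0x49⟩ (.nil) (.nil)
def t14_3212 : Tr := .node ⟨nat_lit 8, nat_lit 0x8000800040004000a000a0, nat_lit 0x101110, nat_lit 0, nat_lit 4, nat_lit 0x47⟩ (.nil) (.nil)
def t14_11404 : Tr := .node ⟨nat_lit 8, nat_lit 0x80002000c000c0, nat_lit 0x111020, nat_lit 3, nat_lit 4, nat_lit 0x49⟩ (.nil) (.nil)
def t14_7308 : Tr := .node ⟨nat_lit 7, nat_lit 0x40004800300068, nat_lit 0x21112, nat_lit 1, nat_lit 4, nat_lit 0x46⟩ (.nil) (.nil)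
def t14_15500 : Tr := .node ⟨nat_lit 9, nat_lit 0x100010000800120018801a0, nat_lit 0x11012001, nat_lit 0, nat_lit 4, nat_lit 0x48⟩ (.nil) (.nil)
def t14_652 : Tr := .node ⟨nat_lit 7, nat_lit 0x40004000200060, nat_lit 0x113012, nat_lit 1, nat_lit 4, nat_lit 0x49⟩ (.nil) (.nil)
def t14_8844 : Tr := .node ⟨nat_lit 5, nat_lit 0x100018, nat_lit 0x120, nat_lit 7, nat_lit 4, nat_lit 0x47⟩ (.nil) (.nil)
def t14_4748 : Tr := .node ⟨nat_lit 8, nat_lit 0x800020002000c000d0, nat_lit 0x11020021, nat_lit 0, nat_lit 4, nat_lit 0x48⟩ (.nil) (.nil)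
def t14_12940 : Tr := .node ⟨nat_lit 8, nat_lit 0x80002000c000d000b0, nat_lit 0x10000120, nat_lit 1, nat_lit 4, nat_lit 0x46⟩ (.nil) (.nil)
def t14_2700 : Tr := .node ⟨nat_lit 7, nat_lit 0x10001800600060, nat_lit 0x1002110, nat_lit 0, nat_lit 4, nat_lit 0x46⟩ (.nil) (.nil)
def t14_10892 : Tr := .node ⟨nat_lit 8, nat_lit 0x8000800040009000c000e0, nat_lit 0x13120, nat_lit 2, nat_lit 4, nat_lit 0x47⟩ (.nil) (.nil)
def t14_6796 : Tr := .node ⟨nat_lit 8, nat_lit 0x800010002000c0, nat_lit 0x110110, nat_lit 1, nat_lit 4, nat_lit 0x49⟩ (.nil) (.nil)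
def t14_14988 : Tr := .node ⟨nat_lit 6, nat_lit 0x200020003000300030, nat_lit 0x111111, nat_lit 7, nat_lit 4, nat_lit 0x48⟩ (.nil) (.nil)
def t14_1676 : Tr := .node ⟨nat_lit 8, nat_lit 0x800040009000c000c8, nat_lit 0x112020, nat_lit 0, nat_lit 4, nat_lit 0x47⟩ (.nil) (.nil)
def t14_9868 : Tr := .node ⟨nat_lit 7, nat_lit 0x400020005000500060, nat_lit 0x111112, nat_lit 3, nat_lit 4, nat_lit 0x47⟩ (.nil) (.nil)
def t14_5772 : Tr := .node ⟨nat_lit 7, nat_lit 0x4000400040, nat_lit 0x111220, nat_lit 4, nat_lit 4, nat_lit 0x4b⟩ (.nil) (.nil)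
def t14_13964 : Tr := .node ⟨nat_lit 6, nat_lit 0x10001000200022, nat_lit 0x20, nat_lit 4, nat_lit 4, nat_lit 0x46⟩ (.nil) (.nil)
def t14_3724 : Tr := .node ⟨nat_lit 8, nat_lit 0x8000400040004000a000d0, nat_lit 0x10212000, nat_lit 1, nat_lit 4, nat_lit 0x48⟩ (.nil) (.nil)
def t14_11916 : Tr := .node ⟨nat_lit 6, nat_lit 0x2000100008, nat_lit 0x10034, nat_lit 0, nat_lit 4, nat_lit 0x48⟩ (.nil) (.nil)
def t14_7820 : Tr := .node ⟨nat_lit 6, nat_lit 0x20001000100028, nat_lit 0x12213, nat_lit 0, nat_lit 4, nat_lit 0x47⟩ (.nil) (.nil)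
def t9_140 : Tr := .node ⟨nat_lit 6, nat_lit 0x80030, nat_lit 0x113211, nat_lit 0, nat_lit 4, nat_lit 0x4a⟩ (.node ⟨nat_lit 5, nat_lit 0x100018, nat_lit 0x11112, nat_lit 2, nat_lit 3, nat_lit 0x46⟩ (.node ⟨nat_lit 6, nat_lit 0x10002000240034, nat_lit 0x301002, nat_lit 3, nat_lit 4, nat_lit 0x47⟩ (.node ⟨nat_lit 6, nat_lit 0x80030, nat_lit 0x111221, nat_lit 1, nat_lit 4, nat_lit 0x49⟩ (.node ⟨nat_lit 7, nat_lit 0x40001000600060, nat_lit 0x22210, nat_lit 2, nat_lit 4, nat_lit 0x48⟩ (t14_140) (t14_8332)) (.node ⟨nat_lit 8, nat_lit 0x2000800080004000c0, nat_lit 0x1002103, nat_lit 1, nat_lit 4, nat_lit 0x49⟩ (t14_4236) (t14_12428))) (.node ⟨nat_lit 7, nat_lit 0x1000100060, nat_lit 0x2101102, nat_lit 4, nat_lit 4, nat_lit 0x4a⟩ (.node ⟨nat_lit 5, nat_lit 0x800100018, nat_lit 0x220, nat_lit 2, nat_lit 3, nat_lit 0x44⟩ (t14_2188) (t14_10380)) (.node ⟨nat_lit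 8, nat_lit 0x8000400020, nat_lit 0x121000, nat_lit 7, nat_lit 4, nat_lit 0x4c⟩ (t14_6284) (t14_14476)))) (.node ⟨nat_lit 5, nat_lit 0x100010, nat_lit 0x22210, nat_lit 1, nat_lit 3, nat_lit 0x48⟩ (.node ⟨nat_lit 6, nat_lit 0x30, nat_lit 0x221111, nat_lit 2, nat_lit 4, nat_lit 0x4b⟩ (.node ⟨nat_lit 3, nat_lit 4, nat_lit 0x421, nat_lit 3, nat_lit 3, nat_lit 0x47⟩ (t14_1164) (t14_9356)) (.node ⟨nat_lit 7, nat_lit 0x40004800600030, nat_lit 0x1112112, nat_lit 0, nat_lit 4, nat_lit 0x48⟩ (t14_5260) (t14_13452))) (.node ⟨nat_lit 6, nat_lit 0x800100020, nat_lit 0x201002, nat_lit 0, nat_lit 4, nat_lit 0x48⟩ (.node ⟨nat_lit 6, nat_lit 0x200030, nat_lit 0x13010, nat_lit 0, nat_lit 4, nat_lit 0x48⟩ (t14_3212) (t14_11404)) (.node ⟨nat_lit 6, nat_lit 0x2000340034, nat_lit 0x11010, nat_lit 3, nat_lit 4, nat_lit 0x45⟩ (t14_7308) (t14_15500))))) (.node ⟨nat_lit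 4, nat_lit 0xc, nat_lit 0x3212, nat_lit 5, nat_lit 4, nat_lit 0x49⟩ (.node ⟨nat_lit 6, nat_lit 0x2000200010, nat_lit 0x21203, nat_lit 0, nat_lit 4, nat_lit 0x49⟩ (.node ⟨nat_lit 6, nat_lit 0x800300030, nat_lit 0x2211, nat_lit 0, nat_lit 4, nat_lit 0x46⟩ (.node ⟨nat_lit 7, nat_lit 0x1000600060, nat_lit 0x1021021, nat_lit 1, nat_lit 4, nat_lit 0x49⟩ (t14_652) (t14_8844)) (.node ⟨nat_lit 7, nat_lit 0x400020002000640068, nat_lit 0x131210, nat_lit 1, nat_lit 4, nat_lit 0x47⟩ (t14_4748) (t14_12940))) (.node ⟨nat_lit 5, nat_lit 0x40018, nat_lit 0x11102, nat_lit 2, nat_lit 4, nat_lit 0x46⟩ (.node ⟨nat_lit 5, nat_lit 0x1000080018, nat_lit 0x21030, nat_lit 1, nat_lit 3, nat_lit 0x46⟩ (t14_2700) (t14_10892)) (.node ⟨nat_lit 7, nat_lit 0x40001000600060, nat_lit 0x11310, nat_lit 0, nat_lit 4, nat_lit 0x47⟩ (t14_6796) (t14_14988)))) (.node ⟨nat_lit 7, nat_lit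 0x4000200062, nat_lit 0x211011, nat_lit 1, nat_lit 4, nat_lit 0x49⟩ (.node ⟨nat_lit 7, nat_lit 0x4000600018, nat_lit 0x1020111, nat_lit 1, nat_lit 4, nat_lit 0x48⟩ (.node ⟨nat_lit 5, nat_lit 0x40018, nat_lit 0x10004, nat_lit 3, nat_lit 4, nat_lit 0x46⟩ (t14_1676) (t14_9868)) (.node ⟨nat_lit 7, nat_lit 0x200020004000440064, nat_lit 0x2020211, nat_lit 0, nat_lit 4, nat_lit 0x48⟩ (t14_5772) (t14_13964))) (.node ⟨nat_lit 5, nat_lit 0x18, nat_lit 0x201, nat_lit 0, nat_lit 4, nat_lit 0x45⟩ (.node ⟨nat_lit 6, nat_lit 0x300038, nat_lit 0x202103, nat_lit 1, nat_lit 4, nat_lit 0x48⟩ (t14_3724) (t14_11916)) (.node ⟨nat_lit 6, nat_lit 0x20001000300030, nat_lit 0x10222, nat_lit 1, nat_lit 3, nat_lit 0x45⟩ (t14_7820) (.nil)))))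
def t14_396 : Tr := .node ⟨nat_lit 7, nat_lit 0x40004000200020, nat_lit 0x113111, nat_lit 0, nat_lit 4, nat_lit 0x49⟩ (.nil) (.nil)
def t14_8588 : Tr := .node ⟨nat_lit 7, nat_lit 0x20001000500068, nat_lit 0x2002, nat_lit 0, nat_lit 4, nat_lit 0x45⟩ (.nil) (.nil)
def t14_4492 : Tr := .node ⟨nat_lit 8, nat_lit 0x8000400090009000c0, nat_lit 0x11110102, nat_lit 0, nat_lit 4, nat_lit 0x49⟩ (.nil) (.nil)
def t14_12684 : Tr := .node ⟨nat_lit 7, nat_lit 0x10002000400064, nat_lit 0x1100020, nat_lit 3, nat_lit 4, nat_lit 0x48⟩ (.nil) (.nil)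
def t14_2444 : Tr := .node ⟨nat_lit 7, nat_lit 0x40001000500060, nat_lit 0x112201, nat_lit 1, nat_lit 4, nat_lit 0x48⟩ (.nil) (.nil)
def t14_10636 : Tr := .node ⟨nat_lit 7, nat_lit 0x40005000300068, nat_lit 0x120, nat_lit 2, nat_lit 4, nat_lit 0x45⟩ (.nil) (.nil)
def t14_6540 : Tr := .node ⟨nat_lit 7, nat_lit 0x4000100060, nat_lit 0x1011121, nat_lit 0, nat_lit 4, nat_lit 0x49⟩ (.nil) (.nil)
def t14_14732 : Tr := .node ⟨nat_lit 7, nat_lit 0x10006000600050, nat_lit 0x11112, nat_lit 4, nat_lit 4, nat_lit 0x47⟩ (.nil) (.nil)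
def t14_1420 : Tr := .node ⟨nat_lit 8, nat_lit 0x200080004000a000c0, nat_lit 0x1011103, nat_lit 0, nat_lit 4, nat_lit 0x48⟩ (.nil) (.nil)
def t14_9612 : Tr := .node ⟨nat_lit 6, nat_lit 0x20001000100030, nat_lit 0x100320, nat_lit 3, nat_lit 3, nat_lit 0x46⟩ (.nil) (.nil)
def t14_5516 : Tr := .node ⟨nat_lit 6, nat_lit 0x20, nat_lit 0x11000, nat_lit 1, nat_lit 4, nat_lit 0x48⟩ (.nil) (.nil)
def t14_13708 : Tr := .node ⟨nat_lit 7, nat_lit 0x20001000600050, nat_lit 0x210, nat_lit 5, nat_lit 4, nat_lit 0x47⟩ (.nil) (.nil)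
def t14_3468 : Tr := .node ⟨nat_lit 7, nat_lit 0x200040004000600068, nat_lit 0x20010, nat_lit 3, nat_lit 4, nat_lit 0x46⟩ (.nil) (.nil)
def t14_11660 : Tr := .node ⟨nat_lit 7, nat_lit 0x40004800600060, nat_lit 0x13010, nat_lit 4, nat_lit 4, nat_lit 0x48⟩ (.nil) (.nil)
def t14_7564 : Tr := .node ⟨nat_lit 6, nat_lit 0x20001000280030, nat_lit 0x1204, nat_lit 2, nat_lit 4, nat_lit 0x46⟩ (.nil) (.nil)
def t14_908 : Tr := .node ⟨nat_lit 7, nat_lit 0x40001000500060, nat_lit 0x112121, nat_lit 2, nat_lit 4, nat_lit 0x48⟩ (.nil) (.nil)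
def t14_9100 : Tr := .node ⟨nat_lit 7, nat_lit 0x4000600070, nat_lit 0x111212, nat_lit 1, nat_lit 4, nat_lit 0x48⟩ (.nil) (.nil)
def t14_5004 : Tr := .node ⟨nat_lit 5, nat_lit 0x1000180018, nat_lit 0x1131, nat_lit 8, nat_lit 4, nat_lit 0x47⟩ (.nil) (.nil)
def t14_13196 : Tr := .node ⟨nat_lit 7, nat_lit 0x40001000100060, nat_lit 0x113, nat_lit 1, nat_lit 4, nat_lit 0x47⟩ (.nil) (.nil)
def t14_2956 : Tr := .node ⟨nat_lit 3, nat_lit 0x40004, nat_lit 0x30, nat_lit 8, nat_lit 3, nat_lit 0x44⟩ (.nil) (.nil)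
def t14_11148 : Tr := .node ⟨nat_lit 6, nat_lit 0x800300030, nat_lit 0x100030, nat_lit 1, nat_lit 4, nat_lit 0x46⟩ (.nil) (.nil)
def t14_7052 : Tr := .node ⟨nat_lit 6, nat_lit 0x200030, nat_lit 0x101111, nat_lit 5, nat_lit 4, nat_lit 0x49⟩ (.nil) (.nil)
def t14_15244 : Tr := .node ⟨nat_lit 8, nat_lit 0x400040008000800080, nat_lit 0x120110, nat_lit 0, nat_lit 4, nat_lit 0x49⟩ (.nil) (.nil)
def t14_1932 : Tr := .node ⟨nat_lit 7, nat_lit 0x2000600050, nat_lit 0x2111, nat_lit 0, nat_lit 4, nat_lit 0x47⟩ (.nil) (.nil)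
def t14_10124 : Tr := .node ⟨nat_lit 5, nat_lit 0x1000100018, nat_lit 0x101, nat_lit 4, nat_lit 4, nat_lit 0x45⟩ (.nil) (.nil)
def t14_6028 : Tr := .node ⟨nat_lit 7, nat_lit 0x1000100060, nat_lit 0x1102100, nat_lit 1, nat_lit 4, nat_lit 0x49⟩ (.nil) (.nil)
def t14_14220 : Tr := .node ⟨nat_lit 8, nat_lit 0x40009000a000c0, nat_lit 0x100022, nat_lit 0, nat_lit 4, nat_lit 0x47⟩ (.nil) (.nil)
def t14_3980 : Tr := .node ⟨nat_lit 7, nat_lit 0x40001000100060, nat_lit 0x100200, nat_lit 1, nat_lit 4, nat_lit 0x47⟩ (.nil) (.nil)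
def t14_12172 : Tr := .node ⟨nat_lit 8, nat_lit 0x8000800020002000c0, nat_lit 0x1021100, nat_lit 3, nat_lit 4, nat_lit 0x49⟩ (.nil) (.nil)
def t14_8076 : Tr := .node ⟨nat_lit 7, nat_lit 0x10004000440060, nat_lit 0x100141, nat_lit 0, nat_lit 4, nat_lit 0x47⟩ (.nil) (.nil)
def t9_396 : Tr := .node ⟨nat_lit 5, nat_lit 0x18, nat_lit 0x22321, nat_lit 0, nat_lit 4, nat_lit 0x4a⟩ (.node ⟨nat_lit 6, nat_lit 0x200010, nat_lit 0x13221, nat_lit 1, nat_lit 4, nat_lit 0x4a⟩ (.node ⟨nat_lit 5, nat_lit 0x140018, nat_lit 0x2220, nat_lit 5, nat_lit 4, nat_lit 0x47⟩ (.node ⟨nat_lit 4, nat_lit 0, nat_lit 0x1100, nat_lit 0, nat_lit 4, nat_lit 0x44⟩ (.node ⟨nat_lit 5, nat_lit 0x1000080014, nat_lit 0x2112, nat_lit 3, nat_lit 4, nat_lit 0x46⟩ (t14_396) (t14_8588)) (.node ⟨nat_lit 8, nat_lit 0x8000800040009000d0, nat_lit 0x10120012, nat_lit 0, nat_lit 4, nat_lit 0x49⟩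 (t14_4492) (t14_12684))) (.node ⟨nat_lit 6, nat_lit 0x280030, nat_lit 0x22111, nat_lit 0, nat_lit 4, nat_lit 0x48⟩ (.node ⟨nat_lit 7, nat_lit 0x20002000100040, nat_lit 0x11010, nat_lit 3, nat_lit 4, nat_lit 0x48⟩ (t14_2444) (t14_10636)) (.node ⟨nat_lit 7, nat_lit 0x2000200040, nat_lit 0x21102, nat_lit 0, nat_lit 4, nat_lit 0x49⟩ (t14_6540) (t14_14732)))) (.node ⟨nat_lit 6, nat_lit 0x2000280034, nat_lit 0x12121, nat_lit 2, nat_lit 4, nat_lit 0x47⟩ (.node ⟨nat_lit 6, nat_lit 0x2000080030, nat_lit 0x102211, nat_lit 5, nat_lit 4, nat_lit 0x49⟩ (.node ⟨nat_lit 4, nat_lit 8, nat_lit 0x112, nat_lit 4, nat_lit 4, nat_lit 0x46⟩ (t14_1420) (t14_9612)) (.node ⟨nat_lit 9, nat_lit 0x100004000400080, nat_lit 0x1210210, nat_lit 0, nat_lit 4, nat_lit 0x4c⟩ (t14_5516) (t14_13708))) (.node ⟨nat_lit 6, nat_lit 0x2000100030, nat_lit 0x12030, nat_lit 1, nat_lit 4,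 nat_lit 0x48⟩ (.node ⟨nat_lit 6, nat_lit 0x300038, nat_lit 0x1201, nat_lit 0, nat_lit 4, nat_lit 0x46⟩ (t14_3468) (t14_11660)) (.node ⟨nat_lit 5, nat_lit 0x800100018, nat_lit 0x11211, nat_lit 9, nat_lit 4, nat_lit 0x48⟩ (t14_7564) (.nil))))) (.node ⟨nat_lit 6, nat_lit 0, nat_lit 0x311100, nat_lit 0, nat_lit 4, nat_lit 0x4b⟩ (.node ⟨nat_lit 6, nat_lit 0x800200032, nat_lit 0x220101, nat_lit 1, nat_lit 4, nat_lit 0x47⟩ (.node ⟨nat_lit 6, nat_lit 0x30, nat_lit 0x111112, nat_lit 0, nat_lit 4, nat_lit 0x49⟩ (.node ⟨nat_lit 7, nat_lit 0x60, nat_lit 0x2211110, nat_lit 0, nat_lit 4, nat_lit 0x4c⟩ (t14_908) (t14_9100)) (.node ⟨nat_lit 5, nat_lit 0x10, nat_lit 0x22210, nat_lit 7, nat_lit 4, nat_lit 0x4b⟩ (t14_5004) (t14_13196))) (.node ⟨nat_lit 7, nat_lit 0x40001000580068, nat_lit 0x1101002, nat_lit 0, nat_lit 4, nat_lit 0x46⟩ (.node ⟨nat_lit 8, nat_lit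 0x800040004000200090, nat_lit 0x10121010, nat_lit 1, nat_lit 4, nat_lit 0x49⟩ (t14_2956) (t14_11148)) (.node ⟨nat_lit 7, nat_lit 0x800500060, nat_lit 0x1112022, nat_lit 0, nat_lit 4, nat_lit 0x49⟩ (t14_7052) (t14_15244)))) (.node ⟨nat_lit 4, nat_lit 0x80004, nat_lit 0x201, nat_lit 9, nat_lit 4, nat_lit 0x47⟩ (.node ⟨nat_lit 6, nat_lit 0x2000080030, nat_lit 0x122121, nat_lit 0, nat_lit 4, nat_lit 0x49⟩ (.node ⟨nat_lit 6, nat_lit 0x1000200020, nat_lit 0x112300, nat_lit 0, nat_lit 4, nat_lit 0x49⟩ (t14_1932) (t14_10124)) (.node ⟨nat_lit 7, nat_lit 0x5000600060, nat_lit 0x23020, nat_lit 0, nat_lit 4, nat_lit 0x48⟩ (t14_6028) (t14_14220))) (.node ⟨nat_lit 7, nat_lit 0x400020002000200050, nat_lit 0x1002200, nat_lit 2, nat_lit 4, nat_lit 0x48⟩ (.node ⟨nat_lit 7, nat_lit 0x20004000100060, nat_lit 0x10020, nat_lit 1, nat_lit 4, nat_lit 0x47⟩ (t14_3980)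 (t14_12172)) (.node ⟨nat_lit 4, nat_lit 0xc000c, nat_lit 0x2021, nat_lit 2, nat_lit 3, nat_lit 0x44⟩ (t14_8076) (.nil)))))
def t14_76 : Tr := .node ⟨nat_lit 7, nat_lit 0x40004000200060, nat_lit 0x112211, nat_lit 1, nat_lit 4, nat_lit 0x49⟩ (.nil) (.nil)
def t14_8268 : Tr := .node ⟨nat_lit 7, nat_lit 0x400020002000500060, nat_lit 0x22130, nat_lit 0, nat_lit 4, nat_lit 0x47⟩ (.nil) (.nil)
def t14_4172 : Tr := .node ⟨nat_lit 8, nat_lit 0x8000400020009000c0, nat_lit 0x1111011, nat_lit 0, nat_lit 4, nat_lit 0x48⟩ (.nil) (.nil)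
def t14_12364 : Tr := .node ⟨nat_lit 7, nat_lit 0x200040004000600068, nat_lit 0x31101, nat_lit 3, nat_lit 4, nat_lit 0x47⟩ (.nil) (.nil)
def t14_2124 : Tr := .node ⟨nat_lit 5, nat_lit 0x100010001c, nat_lit 0x2122, nat_lit 6, nat_lit 4, nat_lit 0x47⟩ (.nil) (.nil)
def t14_10316 : Tr := .node ⟨nat_lit 7, nat_lit 0x800600050, nat_lit 0x1022, nat_lit 2, nat_lit 4, nat_lit 0x47⟩ (.nil) (.nil)
def t14_6220 : Tr := .node ⟨nat_lit 4, nat_lit 0xc, nat_lit 0x1010, nat_lit 7, nat_lit 4, nat_lit 0x46⟩ (.nil) (.nil)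
def t14_14412 : Tr := .node ⟨nat_lit 7, nat_lit 0x4000100060, nat_lit 0x10201, nat_lit 1, nat_lit 4, nat_lit 0x48⟩ (.nil) (.nil)
def t14_1100 : Tr := .node ⟨nat_lit 7, nat_lit 0x800100060, nat_lit 0x11012, nat_lit 1, nat_lit 4, nat_lit 0x48⟩ (.nil) (.nil)
def t14_9292 : Tr := .node ⟨nat_lit 7, nat_lit 0x200040004800300070, nat_lit 0x11101, nat_lit 2, nat_lit 4, nat_lit 0x45⟩ (.nil) (.nil)
def t14_5196 : Tr := .node ⟨nat_lit 5, nat_lit 0x10, nat_lit 0x22111, nat_lit 6, nat_lit 3, nat_lit 0x49⟩ (.nil) (.nil)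
def t14_13388 : Tr := .node ⟨nat_lit 9, nat_lit 0x10000400120012000500180, nat_lit 0x120000, nat_lit 0, nat_lit 4, nat_lit 0x47⟩ (.nil) (.nil)
def t14_3148 : Tr := .node ⟨nat_lit 6, nat_lit 0x800300030, nat_lit 0x101100, nat_lit 0, nat_lit 3, nat_lit 0x45⟩ (.nil) (.nil)
def t14_11340 : Tr := .node ⟨nat_lit 8, nat_lit 0x800020002000c000c0, nat_lit 0x11020, nat_lit 5, nat_lit 4, nat_lit 0x48⟩ (.nil) (.nil)
def t14_7244 : Tr := .node ⟨nat_lit 6, nat_lit 0x2000200010, nat_lit 0x111301, nat_lit 0, nat_lit 4, nat_lit 0x49⟩ (.nil) (.nil)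
def t14_15436 : Tr := .node ⟨nat_lit 9, nat_lit 0x1000040002000200180, nat_lit 0x110010102, nat_lit 0, nat_lit 4, nat_lit 0x4a⟩ (.nil) (.nil)
def t14_588 : Tr := .node ⟨nat_lit 5, nat_lit 0x10001a, nat_lit 0x202, nat_lit 3, nat_lit 4, nat_lit 0x45⟩ (.nil) (.nil)
def t14_8780 : Tr := .node ⟨nat_lit 6, nat_lit 0x20002000100028, nat_lit 0x11004, nat_lit 2, nat_lit 4, nat_lit 0x47⟩ (.nil) (.nil)
def t14_4684 : Tr := .node ⟨nat_lit 7, nat_lit 0x4000200060, nat_lit 0x110002, nat_lit 0, nat_lit 4, nat_lit 0x48⟩ (.nil) (.nil)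
def t14_12876 : Tr := .node ⟨nat_lit 6, nat_lit 0x280030, nat_lit 0x10200, nat_lit 2, nat_lit 4, nat_lit 0x47⟩ (.nil) (.nil)
def t14_2636 : Tr := .node ⟨nat_lit 5, nat_lit 0x1000080008, nat_lit 0x230, nat_lit 1, nat_lit 3, nat_lit 0x45⟩ (.nil) (.nil)
def t14_10828 : Tr := .node ⟨nat_lit 7, nat_lit 0x20004000600068, nat_lit 0x111022, nat_lit 4, nat_lit 4, nat_lit 0x48⟩ (.nil) (.nil)
def t14_6732 : Tr := .node ⟨nat_lit 7, nat_lit 0x2000500060, nat_lit 0x111101, nat_lit 1, nat_lit 4, nat_lit 0x48⟩ (.nil) (.nil)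
def t14_14924 : Tr := .node ⟨nat_lit 8, nat_lit 0x2000800088008800c8, nat_lit 0x10001211, nat_lit 2, nat_lit 4, nat_lit 0x48⟩ (.nil) (.nil)
def t14_1612 : Tr := .node ⟨nat_lit 7, nat_lit 0x40004800300068, nat_lit 0x111112, nat_lit 1, nat_lit 4, nat_lit 0x46⟩ (.nil) (.nil)
def t14_9804 : Tr := .node ⟨nat_lit 8, nat_lit 0x800040009000c000e0, nat_lit 0x101002, nat_lit 0, nat_lit 4, nat_lit 0x46⟩ (.nil) (.nil)
def t14_5708 : Tr := .node ⟨nat_lit 8, nat_lit 0x400080008800c00060, nat_lit 0x10021120, nat_lit 1, nat_lit 4, nat_lit 0x48⟩ (.nil) (.nil)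
def t14_13900 : Tr := .node ⟨nat_lit 6, nat_lit 0x20001000100028, nat_lit 0x3301, nat_lit 2, nat_lit 4, nat_lit 0x47⟩ (.nil) (.nil)
def t14_3660 : Tr := .node ⟨nat_lit 7, nat_lit 0x20002000600050, nat_lit 0x12021, nat_lit 1, nat_lit 4, nat_lit 0x47⟩ (.nil) (.nil)
def t14_11852 : Tr := .node ⟨nat_lit 7, nat_lit 0x20001000400062, nat_lit 0x1000301, nat_lit 1, nat_lit 4, nat_lit 0x47⟩ (.nil) (.nil)
def t14_7756 : Tr := .node ⟨nat_lit 5, nat_lit 0x1000100008, nat_lit 0x21102, nat_lit 5, nat_lit 3, nat_lit 0x47⟩ (.nil) (.nil)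
def t9_76 : Tr := .node ⟨nat_lit 4, nat_lit 0x40008, nat_lit 0x1101, nat_lit 1, nat_lit 3, nat_lit 0x44⟩ (.node ⟨nat_lit 4, nat_lit 0, nat_lit 0x3222, nat_lit 5, nat_lit 4, nat_lit 0x4b⟩ (.node ⟨nat_lit 7, nat_lit 0x5000600060, nat_lit 0x31220, nat_lit 0, nat_lit 4, nat_lit 0x48⟩ (.node ⟨nat_lit 5, nat_lit 0x10001a, nat_lit 0x11210, nat_lit 3, nat_lit 4, nat_lit 0x47⟩ (.node ⟨nat_lit 6, nat_lit 0x2000080030, nat_lit 0x122013, nat_lit 1, nat_lit 4, nat_lit 0x49⟩ (t14_76) (t14_8268)) (.node ⟨nat_lit 7, nat_lit 0x40002000100060, nat_lit 0x110003, nat_lit 2, nat_lit 4, nat_lit 0x48⟩ (t14_4172) (t14_12364))) (.node ⟨nat_lit 6, nat_lit 0x2000080030, nat_lit 0x211202, nat_lit 2, nat_lit 4, nat_lit 0x49⟩ (.node ⟨nat_lit 4, nat_lit 0x40008, nat_lit 0x1041, nat_lit 2, nat_lit 3, nat_lit 0x45⟩ (t14_2124) (t14_10316)) (.node ⟨nat_lit 8, nat_lit 0x4000400080008000880060,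 nat_lit 0x1201210, nat_lit 0, nat_lit 4, nat_lit 0x48⟩ (t14_6220) (t14_14412)))) (.node ⟨nat_lit 4, nat_lit 8, nat_lit 0x223, nat_lit 5, nat_lit 4, nat_lit 0x48⟩ (.node ⟨nat_lit 7, nat_lit 0x1000600060, nat_lit 0x2021111, nat_lit 0, nat_lit 4, nat_lit 0x49⟩ (.node ⟨nat_lit 7, nat_lit 0x400020002000500060, nat_lit 0x11131, nat_lit 0, nat_lit 4, nat_lit 0x46⟩ (t14_1100) (t14_9292)) (.node ⟨nat_lit 7, nat_lit 0x40001000100060, nat_lit 0x102101, nat_lit 0, nat_lit 4, nat_lit 0x47⟩ (t14_5196) (t14_13388))) (.node ⟨nat_lit 6, nat_lit 0x80030, nat_lit 0x102110, nat_lit 0, nat_lit 4, nat_lit 0x48⟩ (.node ⟨nat_lit 6, nat_lit 0x80030, nat_lit 0x100200, nat_lit 3, nat_lit 4, nat_lit 0x48⟩ (t14_3148) (t14_11340)) (.node ⟨nat_lit 7, nat_lit 0x40002000200048, nat_lit 0x1011102, nat_lit 1, nat_lit 4, nat_lit 0x48⟩ (t14_7244) (t14_15436))))) (.node ⟨nat_lit 5,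 nat_lit 0x100008, nat_lit 0x13203, nat_lit 0, nat_lit 4, nat_lit 0x4a⟩ (.node ⟨nat_lit 6, nat_lit 0x20002000100028, nat_lit 0x20020, nat_lit 3, nat_lit 4, nat_lit 0x47⟩ (.node ⟨nat_lit 6, nat_lit 0x2000200030, nat_lit 0x21102, nat_lit 2, nat_lit 4, nat_lit 0x48⟩ (.node ⟨nat_lit 5, nat_lit 0x80010, nat_lit 0x12101, nat_lit 0xb, nat_lit 4, nat_lit 0x4a⟩ (t14_588) (t14_8780)) (.node ⟨nat_lit 7, nat_lit 0x4000100060, nat_lit 0x1111012, nat_lit 3, nat_lit 4, nat_lit 0x4a⟩ (t14_4684) (t14_12876))) (.node ⟨nat_lit 6, nat_lit 0x1000280030, nat_lit 0x1021, nat_lit 1, nat_lit 4, nat_lit 0x45⟩ (.node ⟨nat_lit 7, nat_lit 0x10004000440060, nat_lit 0x1200103, nat_lit 3, nat_lit 4, nat_lit 0x49⟩ (t14_2636) (t14_10828)) (.node ⟨nat_lit 7, nat_lit 0x400020002000500060, nat_lit 0x1021012, nat_lit 3, nat_lit 4, nat_lit 0x48⟩ (t14_6732) (t14_14924)))) (.node ⟨nat_lit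 6, nat_lit 0x2000200010, nat_lit 0x21101, nat_lit 5, nat_lit 4, nat_lit 0x49⟩ (.node ⟨nat_lit 6, nat_lit 0x2000080030, nat_lit 0x32021, nat_lit 1, nat_lit 4, nat_lit 0x49⟩ (.node ⟨nat_lit 3, nat_lit 4, nat_lit 0x20, nat_lit 6, nat_lit 4, nat_lit 0x44⟩ (t14_1612) (t14_9804)) (.node ⟨nat_lit 7, nat_lit 0x4000640064, nat_lit 0x2121011, nat_lit 1, nat_lit 4, nat_lit 0x49⟩ (t14_5708) (t14_13900))) (.node ⟨nat_lit 7, nat_lit 0x100060, nat_lit 0x2002102, nat_lit 0, nat_lit 4, nat_lit 0x4a⟩ (.node ⟨nat_lit 6, nat_lit 0x300038, nat_lit 0x101103, nat_lit 2, nat_lit 4, nat_lit 0x47⟩ (t14_3660) (t14_11852)) (.node ⟨nat_lit 6, nat_lit 0x80030, nat_lit 0x101112, nat_lit 2, nat_lit 4, nat_lit 0x48⟩ (t14_7756) (.nil)))))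
def t14_332 : Tr := .node ⟨nat_lit 7, nat_lit 0x4000100060, nat_lit 0x1012111, nat_lit 3, nat_lit 4, nat_lit 0x4a⟩ (.nil) (.nil)
def t14_8524 : Tr := .node ⟨nat_lit 7, nat_lit 0x4000400044, nat_lit 0x211213, nat_lit 0, nat_lit 4, nat_lit 0x4a⟩ (.nil) (.nil)
def t14_4428 : Tr := .node ⟨nat_lit 8, nat_lit 0x400040008000800084, nat_lit 0x11121100, nat_lit 0, nat_lit 4, nat_lit 0x4a⟩ (.nil) (.nil)
def t14_12620 : Tr := .node ⟨nat_lit 8, nat_lit 0x2000c000a00090, nat_lit 0x101130, nat_lit 1, nat_lit 4, nat_lit 0x48⟩ (.nil) (.nil)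
def t14_2380 : Tr := .node ⟨nat_lit 7, nat_lit 0x400020002800500060, nat_lit 0x22100, nat_lit 1, nat_lit 4, nat_lit 0x46⟩ (.nil) (.nil)
def t14_10572 : Tr := .node ⟨nat_lit 8, nat_lit 0x80006000a000c0, nat_lit 0x11020, nat_lit 0, nat_lit 4, nat_lit 0x47⟩ (.nil) (.nil)
def t14_6476 : Tr := .node ⟨nat_lit 7, nat_lit 0x800100060, nat_lit 0x1111101, nat_lit 1, nat_lit 4, nat_lit 0x49⟩ (.nil) (.nil)
def t14_14668 : Tr := .node ⟨nat_lit 8, nat_lit 0x8000800080004000d000e0, nat_lit 0x110211, nat_lit 2, nat_lit 4, nat_lit 0x47⟩ (.nil) (.nil)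
def t14_1356 : Tr := .node ⟨nat_lit 8, nat_lit 0x80004000a000e000e000d0, nat_lit 0x10030101, nat_lit 1, nat_lit 4, nat_lit 0x46⟩ (.nil) (.nil)
def t14_9548 : Tr := .node ⟨nat_lit 0xa, nat_lit 0x100020002000200008002100220, nat_lit 0x110010, nat_lit 5, nat_lit 4, nat_lit 0x4a⟩ (.nil) (.nil)
def t14_5452 : Tr := .node ⟨nat_lit 6, nat_lit 0x1000200032, nat_lit 0x2130, nat_lit 1, nat_lit 4, nat_lit 0x47⟩ (.nil) (.nil)
def t14_13644 : Tr := .node ⟨nat_lit 7, nat_lit 0x10002000400060, nat_lit 0x1002, nat_lit 0, nat_lit 4, nat_lit 0x46⟩ (.nil) (.nil)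
def t14_3404 : Tr := .node ⟨nat_lit 7, nat_lit 0x2000400060, nat_lit 0x20011, nat_lit 0, nat_lit 4, nat_lit 0x48⟩ (.nil) (.nil)
def t14_11596 : Tr := .node ⟨nat_lit 8, nat_lit 0x20002000c000c000c0, nat_lit 0x10310, nat_lit 1, nat_lit 4, nat_lit 0x47⟩ (.nil) (.nil)
def t14_7500 : Tr := .node ⟨nat_lit 9, nat_lit 0x1000080008000400040, nat_lit 0x1101011, nat_lit 3, nat_lit 4, nat_lit 0x4b⟩ (.nil) (.nil)
def t14_844 : Tr := .node ⟨nat_lit 4, nat_lit 0x80004, nat_lit 0x121, nat_lit 7, nat_lit 4, nat_lit 0x46⟩ (.nil) (.nil)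
def t14_9036 : Tr := .node ⟨nat_lit 8, nat_lit 0x8000800080009000a000a000c0, nat_lit 0x1110111, nat_lit 4, nat_lit 4, nat_lit 0x48⟩ (.nil) (.nil)
def t14_4940 : Tr := .node ⟨nat_lit 8, nat_lit 0x400080008800c000c8, nat_lit 0x10100013, nat_lit 1, nat_lit 4, nat_lit 0x47⟩ (.nil) (.nil)
def t14_13132 : Tr := .node ⟨nat_lit 7, nat_lit 0x40002000200064, nat_lit 0x13300, nat_lit 0, nat_lit 4, nat_lit 0x48⟩ (.nil) (.nil)
def t14_2892 : Tr := .node ⟨nat_lit 7, nat_lit 0x20004000600064, nat_lit 0x2011120, nat_lit 0, nat_lit 4, nat_lit 0x48⟩ (.nil) (.nil)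
def t14_11084 : Tr := .node ⟨nat_lit 5, nat_lit 0x1000180018, nat_lit 0x220, nat_lit 7, nat_lit 4, nat_lit 0x46⟩ (.nil) (.nil)
def t14_6988 : Tr := .node ⟨nat_lit 5, nat_lit 0x1000100018, nat_lit 0x10211, nat_lit 9, nat_lit 4, nat_lit 0x48⟩ (.nil) (.nil)
def t14_15180 : Tr := .node ⟨nat_lit 6, nat_lit 0x20001000100030, nat_lit 0x101301, nat_lit 4, nat_lit 3, nat_lit 0x46⟩ (.nil) (.nil)
def t14_1868 : Tr := .node ⟨nat_lit 3, nat_lit 6, nat_lit 0x201, nat_lit 8, nat_lit 4, nat_lit 0x45⟩ (.nil) (.nil)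
def t14_10060 : Tr := .node ⟨nat_lit 6, nat_lit 0x1000280030, nat_lit 0x100020, nat_lit 4, nat_lit 4, nat_lit 0x46⟩ (.nil) (.nil)
def t14_5964 : Tr := .node ⟨nat_lit 8, nat_lit 0x40008000c000c4, nat_lit 0x10111121, nat_lit 0, nat_lit 4, nat_lit 0x49⟩ (.nil) (.nil)
def t14_14156 : Tr := .node ⟨nat_lit 7, nat_lit 0x10002000400060, nat_lit 0x100212, nat_lit 2, nat_lit 4, nat_lit 0x48⟩ (.nil) (.nil)
def t14_3916 : Tr := .node ⟨nat_lit 7, nat_lit 0x20004000400060, nat_lit 0x12100, nat_lit 0, nat_lit 3, nat_lit 0x46⟩ (.nil) (.nil)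
def t14_12108 : Tr := .node ⟨nat_lit 7, nat_lit 0x10006000600050, nat_lit 0x11210, nat_lit 1, nat_lit 4, nat_lit 0x46⟩ (.nil) (.nil)
def t14_8012 : Tr := .node ⟨nat_lit 6, nat_lit 0x20001000100028, nat_lit 0x1104, nat_lit 1, nat_lit 4, nat_lit 0x46⟩ (.nil) (.nil)
def t9_332 : Tr := .node ⟨nat_lit 6, nat_lit 0x200020, nat_lit 0x31110, nat_lit 1, nat_lit 4, nat_lit 0x49⟩ (.node ⟨nat_lit 6, nat_lit 0x280030, nat_lit 0x23121, nat_lit 0, nat_lit 4, nat_lit 0x49⟩ (.node ⟨nat_lit 3, nat_lit 4, nat_lit 0x212, nat_lit 0xd, nat_lit 4, nat_lit 0x48⟩ (.node ⟨nat_lit 6, nat_lit 0x80030, nat_lit 0x110102, nat_lit 0, nat_lit 4, nat_lit 0x47⟩ (.node ⟨nat_lit 7, nat_lit 0x40004000200010, nat_lit 0x1121011, nat_lit 3, nat_lit 4, nat_lit 0x4a⟩ (t14_332) (t14_8524)) (.node ⟨nat_lit 6, nat_lit 0x1000200022, nat_lit 0x101100, nat_lit 1, nat_lit 4, nat_lit 0x46⟩ (t14_4428)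 (t14_12620))) (.node ⟨nat_lit 6, nat_lit 0x800080030, nat_lit 0x100102, nat_lit 0, nat_lit 3, nat_lit 0x45⟩ (.node ⟨nat_lit 8, nat_lit 0x800040005000a000a000c0, nat_lit 0x1121103, nat_lit 0, nat_lit 4, nat_lit 0x47⟩ (t14_2380) (t14_10572)) (.node ⟨nat_lit 7, nat_lit 0x40004800580068, nat_lit 0x2110002, nat_lit 1, nat_lit 4, nat_lit 0x47⟩ (t14_6476) (t14_14668)))) (.node ⟨nat_lit 5, nat_lit 0x140018, nat_lit 0x12022, nat_lit 4, nat_lit 4, nat_lit 0x47⟩ (.node ⟨nat_lit 6, nat_lit 0x20, nat_lit 0x22220, nat_lit 0, nat_lit 4, nat_lit 0x4b⟩ (.node ⟨nat_lit 8, nat_lit 0x8000800040004800a000e0, nat_lit 0x1011003, nat_lit 0, nat_lit 4, nat_lit 0x46⟩ (t14_1356) (t14_9548)) (.node ⟨nat_lit 7, nat_lit 0x2000400060, nat_lit 0x122102, nat_lit 2, nat_lit 4, nat_lit 0x4a⟩ (t14_5452) (t14_13644))) (.node ⟨nat_lit 6, nat_lit 0x80030, nat_lit 0x310102, nat_lit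 4, nat_lit 4, nat_lit 0x4a⟩ (.node ⟨nat_lit 7, nat_lit 0x4000640070, nat_lit 0x102103, nat_lit 0, nat_lit 4, nat_lit 0x47⟩ (t14_3404) (t14_11596)) (.node ⟨nat_lit 6, nat_lit 0x3000300030, nat_lit 0x2110, nat_lit 0, nat_lit 3, nat_lit 0x44⟩ (t14_7500) (.nil))))) (.node ⟨nat_lit 6, nat_lit 0x2000200020, nat_lit 0x31110, nat_lit 3, nat_lit 4, nat_lit 0x49⟩ (.node ⟨nat_lit 6, nat_lit 0x200032, nat_lit 0x221111, nat_lit 0, nat_lit 4, nat_lit 0x49⟩ (.node ⟨nat_lit 6, nat_lit 0x1000280034, nat_lit 0x111121, nat_lit 0, nat_lit 4, nat_lit 0x46⟩ (.node ⟨nat_lit 6, nat_lit 0x20002000100010, nat_lit 0x1021, nat_lit 1, nat_lit 3, nat_lit 0x45⟩ (t14_844) (t14_9036)) (.node ⟨nat_lit 6, nat_lit 0x200020, nat_lit 0x122222, nat_lit 0, nat_lit 4, nat_lit 0x4b⟩ (t14_4940) (t14_13132))) (.node ⟨nat_lit 7, nat_lit 0x20004000640070, nat_lit 0x1011102, nat_lit 0, nat_lit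 4, nat_lit 0x46⟩ (.node ⟨nat_lit 6, nat_lit 0x20002000100010, nat_lit 0x211111, nat_lit 0, nat_lit 3, nat_lit 0x47⟩ (t14_2892) (t14_11084)) (.node ⟨nat_lit 5, nat_lit 0x100012, nat_lit 0x11112, nat_lit 2, nat_lit 4, nat_lit 0x47⟩ (t14_6988) (t14_15180)))) (.node ⟨nat_lit 6, nat_lit 0x30000c, nat_lit 0x112110, nat_lit 1, nat_lit 4, nat_lit 0x48⟩ (.node ⟨nat_lit 6, nat_lit 0x1000200030, nat_lit 0x22211, nat_lit 2, nat_lit 4, nat_lit 0x49⟩ (.node ⟨nat_lit 7, nat_lit 0x4000600064, nat_lit 0x1111031, nat_lit 2, nat_lit 4, nat_lit 0x49⟩ (t14_1868) (t14_10060)) (.node ⟨nat_lit 7, nat_lit 0x40004000100068, nat_lit 0x210200, nat_lit 1, nat_lit 4, nat_lit 0x48⟩ (t14_5964) (t14_14156))) (.node ⟨nat_lit 5, nat_lit 0x1000100014, nat_lit 0x1121, nat_lit 6, nat_lit 4, nat_lit 0x47⟩ (.node ⟨nat_lit 8, nat_lit 0x1000c0003000a0, nat_lit 0x10100103, nat_lit 0, nat_lit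 4, nat_lit 0x48⟩ (t14_3916) (t14_12108)) (.node ⟨nat_lit 6, nat_lit 0x80030, nat_lit 0x210012, nat_lit 0, nat_lit 4, nat_lit 0x48⟩ (t14_8012) (.nil)))))
def t14_204 : Tr := .node ⟨nat_lit 7, nat_lit 0x4000180064, nat_lit 0x2110012, nat_lit 0, nat_lit 4, nat_lit 0x48⟩ (.nil) (.nil)
def t14_8396 : Tr := .node ⟨nat_lit 6, nat_lit 0x20, nat_lit 0x111113, nat_lit 1, nat_lit 3, nat_lit 0x49⟩ (.nil) (.nil)
def t14_4300 : Tr := .node ⟨nat_lit 0xa, nat_lit 0x200020001000100008002400220, nat_lit 0x1011010010, nat_lit 1, nat_lit 4, nat_lit 0x4a⟩ (.nil) (.nil)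
def t14_12492 : Tr := .node ⟨nat_lit 8, nat_lit 0x40004000800080, nat_lit 0x110031, nat_lit 0, nat_lit 4, nat_lit 0x4a⟩ (.nil) (.nil)
def t14_2252 : Tr := .node ⟨nat_lit 8, nat_lit 0x80008000400040009000a0, nat_lit 0x1012200, nat_lit 1, nat_lit 4, nat_lit 0x48⟩ (.nil) (.nil)
def t14_10444 : Tr := .node ⟨nat_lit 7, nat_lit 0x20004000600064, nat_lit 0x21200, nat_lit 0, nat_lit 4, nat_lit 0x47⟩ (.nil) (.nil)
def t14_6348 : Tr := .node ⟨nat_lit 8, nat_lit 0x80008000400040009000e0, nat_lit 0x10102100, nat_lit 0, nat_lit 4, nat_lit 0x47⟩ (.nil) (.nil)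
def t14_14540 : Tr := .node ⟨nat_lit 7, nat_lit 0x1000600060, nat_lit 0x2001120, nat_lit 0, nat_lit 3, nat_lit 0x47⟩ (.nil) (.nil)
def t14_1228 : Tr := .node ⟨nat_lit 6, nat_lit 0x2000100024, nat_lit 0x11330, nat_lit 0, nat_lit 4, nat_lit 0x48⟩ (.nil) (.nil)
def t14_9420 : Tr := .node ⟨nat_lit 8, nat_lit 0x40008000800060009000c0, nat_lit 0x1111012, nat_lit 3, nat_lit 4, nat_lit 0x48⟩ (.nil) (.nil)
def t14_5324 : Tr := .node ⟨nat_lit 6, nat_lit 0x800300030, nat_lit 0x110040, nat_lit 3, nat_lit 4, nat_lit 0x48⟩ (.nil) (.nil)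
def t14_13516 : Tr := .node ⟨nat_lit 6, nat_lit 0x20002000100010, nat_lit 0, nat_lit 5, nat_lit 4, nat_lit 0x46⟩ (.nil) (.nil)
def t14_3276 : Tr := .node ⟨nat_lit 9, nat_lit 0x1000100008000900140018001c0, nat_lit 0x1021010, nat_lit 1, nat_lit 4, nat_lit 0x47⟩ (.nil) (.nil)
def t14_11468 : Tr := .node ⟨nat_lit 7, nat_lit 0x400040002000500070, nat_lit 0x1001100, nat_lit 4, nat_lit 4, nat_lit 0x47⟩ (.nil) (.nil)
def t14_7372 : Tr := .node ⟨nat_lit 7, nat_lit 0x4000100060, nat_lit 0x1013201, nat_lit 1, nat_lit 4, nat_lit 0x4a⟩ (.nil) (.nil)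
def t14_15564 : Tr := .node ⟨nat_lit 7, nat_lit 0x40, nat_lit 0x111110, nat_lit 9, nat_lit 4, nat_lit 0x4d⟩ (.nil) (.nil)
def t14_716 : Tr := .node ⟨nat_lit 6, nat_lit 0x1000200030, nat_lit 0x2401, nat_lit 0, nat_lit 3, nat_lit 0x46⟩ (.nil) (.nil)
def t14_8908 : Tr := .node ⟨nat_lit 6, nat_lit 0x2000300038, nat_lit 0x1103, nat_lit 4, nat_lit 4, nat_lit 0x46⟩ (.nil) (.nil)
def t14_4812 : Tr := .node ⟨nat_lit 8, nat_lit 0x400080008800500060, nat_lit 0x21010002, nat_lit 0, nat_lit 4, nat_lit 0x48⟩ (.nil) (.nil)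
def t14_13004 : Tr := .node ⟨nat_lit 8, nat_lit 0x200080008400c0, nat_lit 0x10300, nat_lit 1, nat_lit 4, nat_lit 0x49⟩ (.nil) (.nil)
def t14_2764 : Tr := .node ⟨nat_lit 6, nat_lit 0x2000240018, nat_lit 0x110111, nat_lit 0, nat_lit 4, nat_lit 0x46⟩ (.nil) (.nil)
def t14_10956 : Tr := .node ⟨nat_lit 8, nat_lit 0x8000800040004000a000a0, nat_lit 0x13110, nat_lit 0, nat_lit 4, nat_lit 0x47⟩ (.nil) (.nil)
def t14_6860 : Tr := .node ⟨nat_lit 7, nat_lit 0x4000440064, nat_lit 0x111201, nat_lit 0, nat_lit 4, nat_lit 0x48⟩ (.nil) (.nil)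
def t14_15052 : Tr := .node ⟨nat_lit 6, nat_lit 0x1000280030, nat_lit 0x110121, nat_lit 3, nat_lit 4, nat_lit 0x47⟩ (.nil) (.nil)
def t14_1740 : Tr := .node ⟨nat_lit 8, nat_lit 0x40008000c800c800d0, nat_lit 0x10121101, nat_lit 1, nat_lit 4, nat_lit 0x47⟩ (.nil) (.nil)
def t14_9932 : Tr := .node ⟨nat_lit 5, nat_lit 0x1c001c, nat_lit 0x10033, nat_lit 4, nat_lit 4, nat_lit 0x44⟩ (.nil) (.nil)
def t14_5836 : Tr := .node ⟨nat_lit 8, nat_lit 0x40008000c0, nat_lit 0x111201, nat_lit 1, nat_lit 4, nat_lit 0x4a⟩ (.nil) (.nil)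
def t14_14028 : Tr := .node ⟨nat_lit 7, nat_lit 0x4000100060, nat_lit 0x11210, nat_lit 3, nat_lit 4, nat_lit 0x49⟩ (.nil) (.nil)
def t14_3788 : Tr := .node ⟨nat_lit 9, nat_lit 0x8000800080004001000102, nat_lit 0x101210000, nat_lit 2, nat_lit 4, nat_lit 0x4a⟩ (.nil) (.nil)
def t14_11980 : Tr := .node ⟨nat_lit 7, nat_lit 0x200020004000440060, nat_lit 0x1032000, nat_lit 1, nat_lit 4, nat_lit 0x48⟩ (.nil) (.nil)
def t14_7884 : Tr := .node ⟨nat_lit 7, nat_lit 0x10001000600060, nat_lit 0x1121, nat_lit 0, nat_lit 4, nat_lit 0x46⟩ (.nil) (.nil)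
def t9_204 : Tr := .node ⟨nat_lit 5, nat_lit 0x10, nat_lit 0x13221, nat_lit 0, nat_lit 4, nat_lit 0x4a⟩ (.node ⟨nat_lit 5, nat_lit 0x80010001a, nat_lit 0x31211, nat_lit 5, nat_lit 4, nat_lit 0x48⟩ (.node ⟨nat_lit 6, nat_lit 0x2000100030, nat_lit 0x3011, nat_lit 2, nat_lit 4, nat_lit 0x47⟩ (.node ⟨nat_lit 6, nat_lit 0x200010, nat_lit 0x12104, nat_lit 0, nat_lit 4, nat_lit 0x4a⟩ (.node ⟨nat_lit 7, nat_lit 0x10004000200062, nat_lit 0x200221, nat_lit 1, nat_lit 4, nat_lit 0x48⟩ (t14_204) (t14_8396)) (.node ⟨nat_lit 7, nat_lit 0x1000600070, nat_lit 0x11023, nat_lit 1, nat_lit 4, nat_lit 0x47⟩ (t14_4300) (t14_12492))) (.node ⟨nat_lit 7, nat_lit 0x400020, nat_lit 0x221103, nat_lit 0, nat_lit 4, nat_lit 0x4c⟩ (.node ⟨nat_lit 7, nat_lit 0x40002000500068, nat_lit 0x112113, nat_lit 1, nat_lit 4, nat_lit 0x47⟩ (t14_2252) (t14_10444)) (.node ⟨nat_lit 8, nat_lit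 0x8000a000c0, nat_lit 0x1121120, nat_lit 0, nat_lit 4, nat_lit 0x4a⟩ (t14_6348) (t14_14540)))) (.node ⟨nat_lit 5, nat_lit 0x80010, nat_lit 0x11231, nat_lit 1, nat_lit 4, nat_lit 0x48⟩ (.node ⟨nat_lit 7, nat_lit 0x10001000100060, nat_lit 0x2102101, nat_lit 1, nat_lit 4, nat_lit 0x49⟩ (.node ⟨nat_lit 4, nat_lit 0x40008, nat_lit 0x1001, nat_lit 5, nat_lit 4, nat_lit 0x45⟩ (t14_1228) (t14_9420)) (.node ⟨nat_lit 8, nat_lit 0x8000200020002000c0, nat_lit 0x10022101, nat_lit 1, nat_lit 4, nat_lit 0x49⟩ (t14_5324) (t14_13516))) (.node ⟨nat_lit 6, nat_lit 0x1800280030, nat_lit 0x110302, nat_lit 1, nat_lit 4, nat_lit 0x46⟩ (.node ⟨nat_lit 7, nat_lit 0x1000600050, nat_lit 0x1111013, nat_lit 0, nat_lit 4, nat_lit 0x49⟩ (t14_3276) (t14_11468)) (.node ⟨nat_lit 5, nat_lit 0x18001c, nat_lit 0x11012, nat_lit 3, nat_lit 4, nat_lit 0x45⟩ (t14_7372) (t14_15564)))))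 (.node ⟨nat_lit 2, nat_lit 0, nat_lit 0x41, nat_lit 0xa, nat_lit 4, nat_lit 0x47⟩ (.node ⟨nat_lit 3, nat_lit 0, nat_lit 0x211, nat_lit 5, nat_lit 4, nat_lit 0x46⟩ (.node ⟨nat_lit 6, nat_lit 0x200020, nat_lit 0x121111, nat_lit 2, nat_lit 4, nat_lit 0x4a⟩ (.node ⟨nat_lit 6, nat_lit 0x2000080030, nat_lit 0x112102, nat_lit 0, nat_lit 4, nat_lit 0x48⟩ (t14_716) (t14_8908)) (.node ⟨nat_lit 8, nat_lit 0x80008000800040004000a0, nat_lit 0x1121200, nat_lit 0, nat_lit 4, nat_lit 0x49⟩ (t14_4812) (t14_13004))) (.node ⟨nat_lit 7, nat_lit 0x20001000600050, nat_lit 0x1010112, nat_lit 0, nat_lit 4, nat_lit 0x47⟩ (.node ⟨nat_lit 6, nat_lit 0x10001000200030, nat_lit 0x112103, nat_lit 0, nat_lit 3, nat_lit 0x46⟩ (t14_2764) (t14_10956)) (.node ⟨nat_lit 7, nat_lit 0x5000180060, nat_lit 0x111220, nat_lit 2, nat_lit 4, nat_lit 0x48⟩ (t14_6860) (t14_15052)))) (.node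 ⟨nat_lit 5, nat_lit 0x100018, nat_lit 0x10131, nat_lit 1, nat_lit 3, nat_lit 0x46⟩ (.node ⟨nat_lit 5, nat_lit 0x140018, nat_lit 0x1111, nat_lit 3, nat_lit 4, nat_lit 0x45⟩ (.node ⟨nat_lit 6, nat_lit 0x800280030, nat_lit 0x11004, nat_lit 0, nat_lit 4, nat_lit 0x46⟩ (t14_1740) (t14_9932)) (.node ⟨nat_lit 7, nat_lit 0x10002000200040, nat_lit 0x2100202, nat_lit 0, nat_lit 3, nat_lit 0x48⟩ (t14_5836) (t14_14028))) (.node ⟨nat_lit 7, nat_lit 0x40002000500068, nat_lit 0x22022, nat_lit 0, nat_lit 4, nat_lit 0x47⟩ (.node ⟨nat_lit 6, nat_lit 0x30000c, nat_lit 0x100010, nat_lit 0, nat_lit 3, nat_lit 0x45⟩ (t14_3788) (t14_11980)) (.node ⟨nat_lit 8, nat_lit 0x20002000c000c0, nat_lit 0x10011021, nat_lit 3, nat_lit 4, nat_lit 0x49⟩ (t14_7884) (.nil)))))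
def t14_460 : Tr := .node ⟨nat_lit 8, nat_lit 0x8000800040008800d0, nat_lit 0x11111110, nat_lit 1, nat_lit 4, nat_lit 0x49⟩ (.nil) (.nil)
def t14_8652 : Tr := .node ⟨nat_lit 6, nat_lit 0x800080030, nat_lit 2, nat_lit 1, nat_lit 4, nat_lit 0x45⟩ (.nil) (.nil)
def t14_4556 : Tr := .node ⟨nat_lit 6, nat_lit 0x2000080030, nat_lit 0x201221, nat_lit 0, nat_lit 3, nat_lit 0x47⟩ (.nil) (.nil)
def t14_12748 : Tr := .node ⟨nat_lit 7, nat_lit 0x4000440060, nat_lit 0x111300, nat_lit 0, nat_lit 4, nat_lit 0x49⟩ (.nil) (.nil)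
def t14_2508 : Tr := .node ⟨nat_lit 7, nat_lit 0x20004000600064, nat_lit 0x1022110, nat_lit 2, nat_lit 4, nat_lit 0x48⟩ (.nil) (.nil)
def t14_10700 : Tr := .node ⟨nat_lit 7, nat_lit 0x3000500060, nat_lit 0x1011020, nat_lit 0, nat_lit 4, nat_lit 0x47⟩ (.nil) (.nil)
def t14_6604 : Tr := .node ⟨nat_lit 5, nat_lit 0x180018, nat_lit 0x10230, nat_lit 4, nat_lit 4, nat_lit 0x47⟩ (.nil) (.nil)
def t14_14796 : Tr := .node ⟨nat_lit 0xa, nat_lit 0x100020002000200008000800220, nat_lit 0x111101, nat_lit 2, nat_lit 4, nat_lit 0x4a⟩ (.nil) (.nil)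
def t14_1484 : Tr := .node ⟨nat_lit 6, nat_lit 0x800300030, nat_lit 0x101211, nat_lit 3, nat_lit 4, nat_lit 0x47⟩ (.nil) (.nil)
def t14_9676 : Tr := .node ⟨nat_lit 7, nat_lit 0x10004000180060, nat_lit 0x101001, nat_lit 1, nat_lit 4, nat_lit 0x46⟩ (.nil) (.nil)
def t14_5580 : Tr := .node ⟨nat_lit 7, nat_lit 0x4000600060, nat_lit 0x11220, nat_lit 5, nat_lit 4, nat_lit 0x49⟩ (.nil) (.nil)
def t14_13772 : Tr := .node ⟨nat_lit 7, nat_lit 0x4000500064, nat_lit 0x100200, nat_lit 0, nat_lit 4, nat_lit 0x47⟩ (.nil) (.nil)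
def t14_3532 : Tr := .node ⟨nat_lit 6, nat_lit 0x2000300030, nat_lit 0x1120, nat_lit 2, nat_lit 3, nat_lit 0x45⟩ (.nil) (.nil)
def t14_11724 : Tr := .node ⟨nat_lit 9, nat_lit 0x20014001800180, nat_lit 0x1010210, nat_lit 1, nat_lit 4, nat_lit 0x49⟩ (.nil) (.nil)
def t14_7628 : Tr := .node ⟨nat_lit 8, nat_lit 0x2000800040004000c0, nat_lit 0x2103, nat_lit 1, nat_lit 4, nat_lit 0x48⟩ (.nil) (.nil)
def t14_972 : Tr := .node ⟨nat_lit 5, nat_lit 0x1000080014, nat_lit 0x2211, nat_lit 5, nat_lit 4, nat_lit 0x47⟩ (.nil) (.nil)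
def t14_9164 : Tr := .node ⟨nat_lit 8, nat_lit 0x80008000a000c000d000e0, nat_lit 0x110203, nat_lit 1, nat_lit 4, nat_lit 0x46⟩ (.nil) (.nil)
def t14_5068 : Tr := .node ⟨nat_lit 5, nat_lit 0x1000100018, nat_lit 0x1321, nat_lit 6, nat_lit 4, nat_lit 0x48⟩ (.nil) (.nil)
def t14_13260 : Tr := .node ⟨nat_lit 7, nat_lit 0x1000400060, nat_lit 0x2101010, nat_lit 0, nat_lit 3, nat_lit 0x48⟩ (.nil) (.nil)
def t14_3020 : Tr := .node ⟨nat_lit 8, nat_lit 0x400080002000a000c8, nat_lit 0x1002011, nat_lit 0, nat_lit 4, nat_lit 0x47⟩ (.nil) (.nil)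
def t14_11212 : Tr := .node ⟨nat_lit 7, nat_lit 0x6000500050, nat_lit 0x11130, nat_lit 2, nat_lit 4, nat_lit 0x48⟩ (.nil) (.nil)
def t14_7116 : Tr := .node ⟨nat_lit 6, nat_lit 0x800300030, nat_lit 0x112111, nat_lit 1, nat_lit 4, nat_lit 0x48⟩ (.nil) (.nil)
def t14_15308 : Tr := .node ⟨nat_lit 7, nat_lit 0x40004000200060, nat_lit 0x111022, nat_lit 3, nat_lit 4, nat_lit 0x49⟩ (.nil) (.nil)
def t14_1996 : Tr := .node ⟨nat_lit 7, nat_lit 0x40001000500060, nat_lit 0x211102, nat_lit 1, nat_lit 4, nat_lit 0x48⟩ (.nil) (.nil)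
def t14_10188 : Tr := .node ⟨nat_lit 8, nat_lit 0x4000800090006000c000c0, nat_lit 0x121020, nat_lit 2, nat_lit 4, nat_lit 0x47⟩ (.nil) (.nil)
def t14_6092 : Tr := .node ⟨nat_lit 3, nat_lit 0x40004, nat_lit 0x10, nat_lit 0x17, nat_lit 4, nat_lit 0x48⟩ (.nil) (.nil)
def t14_14284 : Tr := .node ⟨nat_lit 7, nat_lit 0x400040002000200050, nat_lit 0x11211, nat_lit 2, nat_lit 4, nat_lit 0x47⟩ (.nil) (.nil)
def t14_4044 : Tr := .node ⟨nat_lit 4, nat_lit 0x8000c, nat_lit 0x2020, nat_lit 2, nat_lit 3, nat_lit 0x45⟩ (.nil) (.nil)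
def t14_12236 : Tr := .node ⟨nat_lit 7, nat_lit 0x40004000100060, nat_lit 0x112110, nat_lit 4, nat_lit 4, nat_lit 0x49⟩ (.nil) (.nil)
def t14_8140 : Tr := .node ⟨nat_lit 7, nat_lit 0x40002000500068, nat_lit 0x12001, nat_lit 0, nat_lit 4, nat_lit 0x46⟩ (.nil) (.nil)
def t9_460 : Tr := .node ⟨nat_lit 4, nat_lit 0, nat_lit 0x3310, nat_lit 0, nat_lit 4, nat_lit 0x49⟩ (.node ⟨nat_lit 6, nat_lit 0x2000240034, nat_lit 0x311022, nat_lit 1, nat_lit 4, nat_lit 0x48⟩ (.node ⟨nat_lit 6, nat_lit 0x200010, nat_lit 0x122102, nat_lit 0, nat_lit 4, nat_lit 0x4a⟩ (.node ⟨nat_lit 7, nat_lit 0x4000400020, nat_lit 0x121102, nat_lit 0, nat_lit 4, nat_lit 0x4a⟩ (.node ⟨nat_lit 6, nat_lit 0x2000080030, nat_lit 0x12210, nat_lit 2, nat_lit 4, nat_lit 0x48⟩ (t14_460) (t14_8652)) (.node ⟨nat_lit 7, nat_lit 0x40002000480064, nat_lit 0x1212210, nat_lit 0, nat_lit 4, nat_lit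 0x49⟩ (t14_4556) (t14_12748))) (.node ⟨nat_lit 6, nat_lit 0x800080030, nat_lit 0x100002, nat_lit 0, nat_lit 3, nat_lit 0x45⟩ (.node ⟨nat_lit 7, nat_lit 0x800500060, nat_lit 0x1110013, nat_lit 0, nat_lit 4, nat_lit 0x48⟩ (t14_2508) (t14_10700)) (.node ⟨nat_lit 5, nat_lit 0x100010, nat_lit 0x2132, nat_lit 4, nat_lit 4, nat_lit 0x49⟩ (t14_6604) (t14_14796)))) (.node ⟨nat_lit 6, nat_lit 0x800080030, nat_lit 0x200101, nat_lit 3, nat_lit 4, nat_lit 0x47⟩ (.node ⟨nat_lit 7, nat_lit 0x20004000440030, nat_lit 0x2102211, nat_lit 0, nat_lit 4, nat_lit 0x49⟩ (.node ⟨nat_lit 7, nat_lit 0x4000600060, nat_lit 0x11100, nat_lit 0, nat_lit 4, nat_lit 0x47⟩ (t14_1484) (t14_9676)) (.node ⟨nat_lit 6, nat_lit 0x2000100024, nat_lit 0x111202, nat_lit 5, nat_lit 4, nat_lit 0x49⟩ (t14_5580) (t14_13772))) (.node ⟨nat_lit 7, nat_lit 0x1000400060, nat_lit 0x1102002, nat_lit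 1, nat_lit 4, nat_lit 0x49⟩ (.node ⟨nat_lit 5, nat_lit 0x1000080014, nat_lit 0x1010, nat_lit 2, nat_lit 4, nat_lit 0x44⟩ (t14_3532) (t14_11724)) (.node ⟨nat_lit 6, nat_lit 0x2000200030, nat_lit 0x101301, nat_lit 0, nat_lit 3, nat_lit 0x47⟩ (t14_7628) (.nil))))) (.node ⟨nat_lit 6, nat_lit 0x2000200010, nat_lit 0x123111, nat_lit 0, nat_lit 4, nat_lit 0x4a⟩ (.node ⟨nat_lit 6, nat_lit 0x300030, nat_lit 0x112121, nat_lit 0, nat_lit 4, nat_lit 0x48⟩ (.node ⟨nat_lit 6, nat_lit 0x200030, nat_lit 0x112201, nat_lit 0, nat_lit 4, nat_lit 0x49⟩ (.node ⟨nat_lit 7, nat_lit 0x400042, nat_lit 0x2111130, nat_lit 0, nat_lit 4, nat_lit 0x4c⟩ (t14_972) (t14_9164)) (.node ⟨nat_lit 5, nat_lit 0x100010, nat_lit 0x2222, nat_lit 4, nat_lit 4, nat_lit 0x49⟩ (t14_5068) (t14_13260))) (.node ⟨nat_lit 5, nat_lit 0x100008, nat_lit 0x1113, nat_lit 1, nat_lit 4, nat_lit 0x47⟩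 (.node ⟨nat_lit 6, nat_lit 0x2000200030, nat_lit 0x1210, nat_lit 1, nat_lit 4, nat_lit 0x47⟩ (t14_3020) (t14_11212)) (.node ⟨nat_lit 8, nat_lit 0x40008000900090006000c0, nat_lit 0x1211003, nat_lit 0, nat_lit 4, nat_lit 0x47⟩ (t14_7116) (t14_15308)))) (.node ⟨nat_lit 5, nat_lit 0x100008, nat_lit 0x1222, nat_lit 1, nat_lit 4, nat_lit 0x47⟩ (.node ⟨nat_lit 5, nat_lit 0x10, nat_lit 0x22110, nat_lit 5, nat_lit 4, nat_lit 0x4a⟩ (.node ⟨nat_lit 7, nat_lit 0x6000500050, nat_lit 0x112131, nat_lit 0, nat_lit 4, nat_lit 0x48⟩ (t14_1996) (t14_10188)) (.node ⟨nat_lit 7, nat_lit 0x10002000500060, nat_lit 0x1112200, nat_lit 0, nat_lit 4, nat_lit 0x48⟩ (t14_6092) (t14_14284))) (.node ⟨nat_lit 4, nat_lit 0, nat_lit 0x4111, nat_lit 6, nat_lit 3, nat_lit 0x49⟩ (.node ⟨nat_lit 8, nat_lit 0x400080002000c000e0, nat_lit 0x101103, nat_lit 0, nat_lit 4, nat_lit 0x47⟩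 (t14_4044) (t14_12236)) (.node ⟨nat_lit 8, nat_lit 0x800040002000c0, nat_lit 0x1110102, nat_lit 1, nat_lit 3, nat_lit 0x48⟩ (t14_8140) (.nil)))))
def t14_44 : Tr := .node ⟨nat_lit 5, nat_lit 0x100008, nat_lit 0x1110, nat_lit 5, nat_lit 4, nat_lit 0x47⟩ (.nil) (.nil)
def t14_8236 : Tr := .node ⟨nat_lit 6, nat_lit 0x2000240024, nat_lit 0x11121, nat_lit 2, nat_lit 4, nat_lit 0x47⟩ (.nil) (.nil)
def t14_4140 : Tr := .node ⟨nat_lit 8, nat_lit 0x800080002000c000d0, nat_lit 0x1110120, nat_lit 1, nat_lit 4, nat_lit 0x48⟩ (.nil) (.nil)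
def t14_12332 : Tr := .node ⟨nat_lit 6, nat_lit 0x20001000300030, nat_lit 0x2140, nat_lit 4, nat_lit 4, nat_lit 0x47⟩ (.nil) (.nil)
def t14_2092 : Tr := .node ⟨nat_lit 7, nat_lit 0x200020004000440030, nat_lit 0x2013201, nat_lit 0, nat_lit 4, nat_lit 0x48⟩ (.nil) (.nil)
def t14_10284 : Tr := .node ⟨nat_lit 8, nat_lit 0x80008000a000b000e000d0, nat_lit 0x10000120, nat_lit 1, nat_lit 4, nat_lit 0x45⟩ (.nil) (.nil)
def t14_6188 : Tr := .node ⟨nat_lit 4, nat_lit 0x80004, nat_lit 0x111, nat_lit 7, nat_lit 4, nat_lit 0x46⟩ (.nil) (.nil)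
def t14_14380 : Tr := .node ⟨nat_lit 8, nat_lit 0x200040006000a000c0, nat_lit 0x12301, nat_lit 1, nat_lit 4, nat_lit 0x47⟩ (.nil) (.nil)
def t14_1068 : Tr := .node ⟨nat_lit 6, nat_lit 0x2000200034, nat_lit 0x1102, nat_lit 2, nat_lit 4, nat_lit 0x46⟩ (.nil) (.nil)
def t14_9260 : Tr := .node ⟨nat_lit 8, nat_lit 0x8000a0006000b000d0, nat_lit 0x12210, nat_lit 0, nat_lit 4, nat_lit 0x45⟩ (.nil) (.nil)
def t14_5164 : Tr := .node ⟨nat_lit 8, nat_lit 0x40004000400080008000e0, nat_lit 0x111301, nat_lit 1, nat_lit 4, nat_lit 0x48⟩ (.nil) (.nil)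
def t14_13356 : Tr := .node ⟨nat_lit 8, nat_lit 0x400080008800a000c8, nat_lit 0x2001, nat_lit 2, nat_lit 4, nat_lit 0x47⟩ (.nil) (.nil)
def t14_3116 : Tr := .node ⟨nat_lit 7, nat_lit 0x6000500050, nat_lit 0x12121, nat_lit 2, nat_lit 4, nat_lit 0x48⟩ (.nil) (.nil)
def t14_11308 : Tr := .node ⟨nat_lit 8, nat_lit 0x8000c000a000a0, nat_lit 0x12120, nat_lit 1, nat_lit 4, nat_lit 0x48⟩ (.nil) (.nil)
def t14_7212 : Tr := .node ⟨nat_lit 8, nat_lit 0x8000200020002000c0, nat_lit 0x10012111, nat_lit 0, nat_lit 4, nat_lit 0x49⟩ (.nil) (.nil)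
def t14_15404 : Tr := .node ⟨nat_lit 0xd, nat_lit 0x1000080004000200010000800080, nat_lit 0x10, nat_lit 3, nat_lit 4, nat_lit 0x4d⟩ (.nil) (.nil)
def t14_556 : Tr := .node ⟨nat_lit 5, nat_lit 0x1000180018, nat_lit 0x22, nat_lit 5, nat_lit 4, nat_lit 0x45⟩ (.nil) (.nil)
def t14_8748 : Tr := .node ⟨nat_lit 6, nat_lit 0x20002000100030, nat_lit 0x101103, nat_lit 5, nat_lit 3, nat_lit 0x46⟩ (.nil) (.nil)
def t14_4652 : Tr := .node ⟨nat_lit 7, nat_lit 0x4000180060, nat_lit 0x1011120, nat_lit 0, nat_lit 4, nat_lit 0x48⟩ (.nil) (.nil)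
def t14_12844 : Tr := .node ⟨nat_lit 6, nat_lit 0x2000080030, nat_lit 0x2010, nat_lit 2, nat_lit 4, nat_lit 0x47⟩ (.nil) (.nil)
def t14_2604 : Tr := .node ⟨nat_lit 7, nat_lit 0x400020002000500068, nat_lit 0x1011200, nat_lit 0, nat_lit 4, nat_lit 0x46⟩ (.nil) (.nil)
def t14_10796 : Tr := .node ⟨nat_lit 9, nat_lit 0x8001000100010000c001100120, nat_lit 0x10210011, nat_lit 2, nat_lit 4, nat_lit 0x49⟩ (.nil) (.nil)
def t14_6700 : Tr := .node ⟨nat_lit 7, nat_lit 0x4000400044, nat_lit 0x111000, nat_lit 7, nat_lit 4, nat_lit 0x4a⟩ (.nil) (.nil)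
def t14_14892 : Tr := .node ⟨nat_lit 7, nat_lit 0x4000640064, nat_lit 0x1011211, nat_lit 0, nat_lit 4, nat_lit 0x48⟩ (.nil) (.nil)
def t14_1580 : Tr := .node ⟨nat_lit 6, nat_lit 0x2000240018, nat_lit 0x10110, nat_lit 0, nat_lit 4, nat_lit 0x45⟩ (.nil) (.nil)
def t14_9772 : Tr := .node ⟨nat_lit 7, nat_lit 0x20004000600068, nat_lit 0x11102, nat_lit 0, nat_lit 4, nat_lit 0x46⟩ (.nil) (.nil)
def t14_5676 : Tr := .node ⟨nat_lit 5, nat_lit 0x100018001c, nat_lit 0x10122, nat_lit 7, nat_lit 4, nat_lit 0x46⟩ (.nil) (.nil)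
def t14_13868 : Tr := .node ⟨nat_lit 7, nat_lit 0x40004000200048, nat_lit 0x12020, nat_lit 2, nat_lit 4, nat_lit 0x48⟩ (.nil) (.nil)
def t14_3628 : Tr := .node ⟨nat_lit 6, nat_lit 0x1800280030, nat_lit 0x20010, nat_lit 5, nat_lit 4, nat_lit 0x46⟩ (.nil) (.nil)
def t14_11820 : Tr := .node ⟨nat_lit 5, nat_lit 0x100018, nat_lit 0x103, nat_lit 8, nat_lit 4, nat_lit 0x47⟩ (.nil) (.nil)
def t14_7724 : Tr := .node ⟨nat_lit 5, nat_lit 0x100008, nat_lit 0x103, nat_lit 4, nat_lit 4, nat_lit 0x47⟩ (.nil) (.nil)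
def t9_44 : Tr := .node ⟨nat_lit 5, nat_lit 0x80010, nat_lit 0x13320, nat_lit 1, nat_lit 4, nat_lit 0x4a⟩ (.node ⟨nat_lit 7, nat_lit 0x400060, nat_lit 0x1031120, nat_lit 1, nat_lit 4, nat_lit 0x4b⟩ (.node ⟨nat_lit 6, nat_lit 0x800300030, nat_lit 0x3020, nat_lit 3, nat_lit 4, nat_lit 0x47⟩ (.node ⟨nat_lit 6, nat_lit 0x200022, nat_lit 0x121101, nat_lit 0, nat_lit 4, nat_lit 0x48⟩ (.node ⟨nat_lit 7, nat_lit 0x20004000600070, nat_lit 0x20213, nat_lit 1, nat_lit 4, nat_lit 0x47⟩ (t14_44) (t14_8236)) (.node ⟨nat_lit 6, nat_lit 0x80030, nat_lit 0x102100, nat_lit 1, nat_lit 4, nat_lit 0x48⟩ (t14_4140) (t14_12332))) (.node ⟨nat_lit 4, nat_lit 0xe, nat_lit 0x2212, nat_lit 4, nat_lit 4, nat_lit 0x47⟩ (.node ⟨nat_lit 6, nat_lit 0x20001000280030, nat_lit 0x12213, nat_lit 2, nat_lit 4, nat_lit 0x47⟩ (t14_2092) (t14_10284)) (.node ⟨nat_lit 8, nat_lit 0x800040004000a000c8,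 nat_lit 0x1022001, nat_lit 0, nat_lit 4, nat_lit 0x48⟩ (t14_6188) (t14_14380)))) (.node ⟨nat_lit 6, nat_lit 0x800300030, nat_lit 0x2331, nat_lit 0, nat_lit 4, nat_lit 0x47⟩ (.node ⟨nat_lit 6, nat_lit 0x280030, nat_lit 0x211211, nat_lit 2, nat_lit 4, nat_lit 0x49⟩ (.node ⟨nat_lit 6, nat_lit 0x1000200030, nat_lit 0x111311, nat_lit 3, nat_lit 4, nat_lit 0x49⟩ (t14_1068) (t14_9260)) (.node ⟨nat_lit 7, nat_lit 0x40001000600060, nat_lit 0x1012121, nat_lit 1, nat_lit 4, nat_lit 0x48⟩ (t14_5164) (t14_13356))) (.node ⟨nat_lit 5, nat_lit 0x10, nat_lit 0x22110, nat_lit 4, nat_lit 4, nat_lit 0x4a⟩ (.node ⟨nat_lit 6, nat_lit 0x2000080010, nat_lit 0x111200, nat_lit 1, nat_lit 4, nat_lit 0x48⟩ (t14_3116) (t14_11308)) (.node ⟨nat_lit 9, nat_lit 0x800040002000200100, nat_lit 0x100100221, nat_lit 0, nat_lit 4, nat_lit 0x4b⟩ (t14_7212) (t14_15404))))) (.node ⟨nat_lit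 5, nat_lit 0x100008, nat_lit 0x300, nat_lit 0xf, nat_lit 4, nat_lit 0x4a⟩ (.node ⟨nat_lit 6, nat_lit 0, nat_lit 0x221111, nat_lit 1, nat_lit 4, nat_lit 0x4c⟩ (.node ⟨nat_lit 6, nat_lit 0x200030, nat_lit 0x12021, nat_lit 0, nat_lit 4, nat_lit 0x48⟩ (.node ⟨nat_lit 7, nat_lit 0x400040004800480070, nat_lit 0x200211, nat_lit 1, nat_lit 4, nat_lit 0x46⟩ (t14_556) (t14_8748)) (.node ⟨nat_lit 6, nat_lit 0x2000100030, nat_lit 0x111102, nat_lit 3, nat_lit 3, nat_lit 0x47⟩ (t14_4652) (t14_12844))) (.node ⟨nat_lit 5, nat_lit 0x40018, nat_lit 0x10011, nat_lit 0, nat_lit 3, nat_lit 0x44⟩ (.node ⟨nat_lit 6, nat_lit 0x1000200030, nat_lit 0x112310, nat_lit 1, nat_lit 4, nat_lit 0x49⟩ (t14_2604) (t14_10796)) (.node ⟨nat_lit 6, nat_lit 0x280030, nat_lit 0x112121, nat_lit 2, nat_lit 4, nat_lit 0x49⟩ (t14_6700) (t14_14892)))) (.node ⟨nat_lit 7, nat_lit 0x40004000100020,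 nat_lit 0x211011, nat_lit 1, nat_lit 4, nat_lit 0x49⟩ (.node ⟨nat_lit 7, nat_lit 0x40002000480060, nat_lit 0x220002, nat_lit 0, nat_lit 4, nat_lit 0x48⟩ (.node ⟨nat_lit 6, nat_lit 0x3000300028, nat_lit 0x1103, nat_lit 5, nat_lit 4, nat_lit 0x46⟩ (t14_1580) (t14_9772)) (.node ⟨nat_lit 7, nat_lit 0x10001000500060, nat_lit 0x1102021, nat_lit 0, nat_lit 3, nat_lit 0x46⟩ (t14_5676) (t14_13868))) (.node ⟨nat_lit 5, nat_lit 0x100018, nat_lit 0x2112, nat_lit 6, nat_lit 4, nat_lit 0x48⟩ (.node ⟨nat_lit 7, nat_lit 0x400060, nat_lit 0x11000, nat_lit 0, nat_lit 4, nat_lit 0x48⟩ (t14_3628) (t14_11820)) (.node ⟨nat_lit 5, nat_lit 0x800080010, nat_lit 0x11202, nat_lit 6, nat_lit 4, nat_lit 0x48⟩ (t14_7724) (.nil)))))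
def t14_300 : Tr := .node ⟨nat_lit 7, nat_lit 0x20004000100060, nat_lit 0x1023111, nat_lit 1, nat_lit 4, nat_lit 0x49⟩ (.nil) (.nil)
def t14_8492 : Tr := .node ⟨nat_lit 9, nat_lit 0x4001000100008001100190, nat_lit 0x11013, nat_lit 2, nat_lit 4, nat_lit 0x48⟩ (.nil) (.nil)
def t14_4396 : Tr := .node ⟨nat_lit 7, nat_lit 0x200020004000440070, nat_lit 0x2111110, nat_lit 1, nat_lit 4, nat_lit 0x48⟩ (.nil) (.nil)
def t14_12588 : Tr := .node ⟨nat_lit 7, nat_lit 0x10005000600060, nat_lit 0x110310, nat_lit 0, nat_lit 3, nat_lit 0x45⟩ (.nil) (.nil)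
def t14_2348 : Tr := .node ⟨nat_lit 7, nat_lit 0x40002000680068, nat_lit 0x2011210, nat_lit 2, nat_lit 4, nat_lit 0x48⟩ (.nil) (.nil)
def t14_10540 : Tr := .node ⟨nat_lit 8, nat_lit 0x80002000a000c0, nat_lit 0x20020, nat_lit 0, nat_lit 4, nat_lit 0x48⟩ (.nil) (.nil)
def t14_6444 : Tr := .node ⟨nat_lit 8, nat_lit 0x400080008000800088, nat_lit 0x101101, nat_lit 3, nat_lit 4, nat_lit 0x49⟩ (.nil) (.nil)
def t14_14636 : Tr := .node ⟨nat_lit 8, nat_lit 0x2000800080008800c0, nat_lit 0x1001111, nat_lit 6, nat_lit 4, nat_lit 0x49⟩ (.nil) (.nil)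
def t14_1324 : Tr := .node ⟨nat_lit 7, nat_lit 0x400040002000200050, nat_lit 0x20212, nat_lit 0, nat_lit 4, nat_lit 0x47⟩ (.nil) (.nil)
def t14_9516 : Tr := .node ⟨nat_lit 5, nat_lit 0x10001000180018, nat_lit 0x11211, nat_lit 5, nat_lit 4, nat_lit 0x47⟩ (.nil) (.nil)
def t14_5420 : Tr := .node ⟨nat_lit 4, nat_lit 8, nat_lit 0x1321, nat_lit 8, nat_lit 3, nat_lit 0x48⟩ (.nil) (.nil)
def t14_13612 : Tr := .node ⟨nat_lit 8, nat_lit 0x2000800040008800c0, nat_lit 0x1002, nat_lit 2, nat_lit 4, nat_lit 0x47⟩ (.nil) (.nil)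
def t14_3372 : Tr := .node ⟨nat_lit 5, nat_lit 0x1000180018, nat_lit 0x1210, nat_lit 5, nat_lit 4, nat_lit 0x46⟩ (.nil) (.nil)
def t14_11564 : Tr := .node ⟨nat_lit 7, nat_lit 0x5000600060, nat_lit 0x101210, nat_lit 1, nat_lit 4, nat_lit 0x47⟩ (.nil) (.nil)
def t14_7468 : Tr := .node ⟨nat_lit 8, nat_lit 0x20008000c2, nat_lit 0x11011001, nat_lit 1, nat_lit 4, nat_lit 0x4a⟩ (.nil) (.nil)
def t14_812 : Tr := .node ⟨nat_lit 6, nat_lit 0x10001000200030, nat_lit 0x203110, nat_lit 0, nat_lit 3, nat_lit 0x46⟩ (.nil) (.nil)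
def t14_9004 : Tr := .node ⟨nat_lit 8, nat_lit 0x800080004000a000a00090, nat_lit 0x1111201, nat_lit 2, nat_lit 4, nat_lit 0x48⟩ (.nil) (.nil)
def t14_4908 : Tr := .node ⟨nat_lit 7, nat_lit 0x40004000200048, nat_lit 0x1211030, nat_lit 1, nat_lit 4, nat_lit 0x4a⟩ (.nil) (.nil)
def t14_13100 : Tr := .node ⟨nat_lit 5, nat_lit 0x180018, nat_lit 0x30130, nat_lit 0, nat_lit 3, nat_lit 0x46⟩ (.nil) (.nil)
def t14_2860 : Tr := .node ⟨nat_lit 8, nat_lit 0x800040009000c000c8, nat_lit 0x130210, nat_lit 0, nat_lit 4, nat_lit 0x48⟩ (.nil) (.nil)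
def t14_11052 : Tr := .node ⟨nat_lit 7, nat_lit 0x4800300070, nat_lit 0x111102, nat_lit 1, nat_lit 4, nat_lit 0x47⟩ (.nil) (.nil)
def t14_6956 : Tr := .node ⟨nat_lit 7, nat_lit 0x40004800500068, nat_lit 0x1121010, nat_lit 1, nat_lit 4, nat_lit 0x48⟩ (.nil) (.nil)
def t14_15148 : Tr := .node ⟨nat_lit 8, nat_lit 0x8000400040004000a000d0, nat_lit 0x10211111, nat_lit 1, nat_lit 4, nat_lit 0x48⟩ (.nil) (.nil)
def t14_1836 : Tr := .node ⟨nat_lit 6, nat_lit 0x2000300028, nat_lit 0x2112, nat_lit 6, nat_lit 4, nat_lit 0x48⟩ (.nil) (.nil)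
def t14_10028 : Tr := .node ⟨nat_lit 6, nat_lit 0x10002000300030, nat_lit 0x102120, nat_lit 4, nat_lit 4, nat_lit 0x47⟩ (.nil) (.nil)
def t14_5932 : Tr := .node ⟨nat_lit 8, nat_lit 0x4000400080008000c0, nat_lit 0x122110, nat_lit 1, nat_lit 4, nat_lit 0x49⟩ (.nil) (.nil)
def t14_14124 : Tr := .node ⟨nat_lit 8, nat_lit 0x800020002000200040, nat_lit 0x1001, nat_lit 1, nat_lit 4, nat_lit 0x48⟩ (.nil) (.nil)
def t14_3884 : Tr := .node ⟨nat_lit 8, nat_lit 0x2000400040008000c8, nat_lit 0x10002001, nat_lit 1, nat_lit 4, nat_lit 0x48⟩ (.nil) (.nil)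
def t14_12076 : Tr := .node ⟨nat_lit 7, nat_lit 0x20004000500064, nat_lit 0x1003100, nat_lit 1, nat_lit 4, nat_lit 0x47⟩ (.nil) (.nil)
def t14_7980 : Tr := .node ⟨nat_lit 7, nat_lit 0x400020005000500060, nat_lit 0x111212, nat_lit 2, nat_lit 4, nat_lit 0x47⟩ (.nil) (.nil)
def t9_300 : Tr := .node ⟨nat_lit 6, nat_lit 0x200020, nat_lit 0x32121, nat_lit 0, nat_lit 4, nat_lit 0x4a⟩ (.node ⟨nat_lit 6, nat_lit 0x2000080030, nat_lit 0x23121, nat_lit 0, nat_lit 4, nat_lit 0x49⟩ (.node ⟨nat_lit 6, nat_lit 0x100020, nat_lit 0x113111, nat_lit 5, nat_lit 4, nat_lit 0x4b⟩ (.node ⟨nat_lit 7, nat_lit 0x400020002000500050, nat_lit 0x1011022, nat_lit 0, nat_lit 4, nat_lit 0x47⟩ (.node ⟨nat_lit 5, nat_lit 0x1000100014, nat_lit 0x21211, nat_lit 5, nat_lit 4, nat_lit 0x49⟩ (t14_300) (t14_8492)) (.node ⟨nat_lit 8, nat_lit 0x800040009000e0, nat_lit 0x1101013, nat_lit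 1, nat_lit 4, nat_lit 0x48⟩ (t14_4396) (t14_12588))) (.node ⟨nat_lit 6, nat_lit 0x800280030, nat_lit 0x22222, nat_lit 0, nat_lit 4, nat_lit 0x48⟩ (.node ⟨nat_lit 7, nat_lit 0x10005000600070, nat_lit 0x102133, nat_lit 0, nat_lit 4, nat_lit 0x46⟩ (t14_2348) (t14_10540)) (.node ⟨nat_lit 7, nat_lit 0x6000600060, nat_lit 0x31310, nat_lit 0, nat_lit 4, nat_lit 0x48⟩ (t14_6444) (t14_14636)))) (.node ⟨nat_lit 7, nat_lit 0x40002000580068, nat_lit 0x2011011, nat_lit 1, nat_lit 4, nat_lit 0x47⟩ (.node ⟨nat_lit 6, nat_lit 0xc0030, nat_lit 0x212121, nat_lit 1, nat_lit 4, nat_lit 0x49⟩ (.node ⟨nat_lit 5, nat_lit 0x100018001c, nat_lit 0x10230, nat_lit 5, nat_lit 4, nat_lit 0x46⟩ (t14_1324) (t14_9516)) (.node ⟨nat_lit 8, nat_lit 0x8000a000c000c8, nat_lit 0x1021022, nat_lit 0, nat_lit 4, nat_lit 0x48⟩ (t14_5420) (t14_13612))) (.node ⟨nat_lit 5, nat_lit 0x80010,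 nat_lit 0x20210, nat_lit 4, nat_lit 4, nat_lit 0x48⟩ (.node ⟨nat_lit 7, nat_lit 0x20004000400044, nat_lit 0x1020301, nat_lit 1, nat_lit 4, nat_lit 0x4a⟩ (t14_3372) (t14_11564)) (.node ⟨nat_lit 8, nat_lit 0x1000c000a0, nat_lit 0x10111012, nat_lit 1, nat_lit 4, nat_lit 0x4a⟩ (t14_7468) (.nil))))) (.node ⟨nat_lit 5, nat_lit 0x10, nat_lit 0x3110, nat_lit 7, nat_lit 4, nat_lit 0x4a⟩ (.node ⟨nat_lit 4, nat_lit 0x80004, nat_lit 0x2012, nat_lit 2, nat_lit 3, nat_lit 0x45⟩ (.node ⟨nat_lit 5, nat_lit 0x10, nat_lit 0x11111, nat_lit 2, nat_lit 4, nat_lit 0x48⟩ (.node ⟨nat_lit 6, nat_lit 0x2000080030, nat_lit 0x122202, nat_lit 0, nat_lit 4, nat_lit 0x49⟩ (t14_812) (t14_9004)) (.node ⟨nat_lit 6, nat_lit 0x200030, nat_lit 0x122212, nat_lit 0, nat_lit 4, nat_lit 0x4a⟩ (t14_4908) (t14_13100))) (.node ⟨nat_lit 6, nat_lit 0x2000080030, nat_lit 0x112102, nat_lit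 1, nat_lit 4, nat_lit 0x48⟩ (.node ⟨nat_lit 7, nat_lit 0x4000400044, nat_lit 0x1111301, nat_lit 1, nat_lit 4, nat_lit 0x4b⟩ (t14_2860) (t14_11052)) (.node ⟨nat_lit 5, nat_lit 0x180018, nat_lit 0x21100, nat_lit 0, nat_lit 3, nat_lit 0x46⟩ (t14_6956) (t14_15148)))) (.node ⟨nat_lit 6, nat_lit 0x2000080030, nat_lit 0x101211, nat_lit 0, nat_lit 3, nat_lit 0x46⟩ (.node ⟨nat_lit 7, nat_lit 0x4000500060, nat_lit 0x211211, nat_lit 0, nat_lit 4, nat_lit 0x49⟩ (.node ⟨nat_lit 3, nat_lit 4, nat_lit 0x10, nat_lit 7, nat_lit 4, nat_lit 0x44⟩ (t14_1836) (t14_10028)) (.node ⟨nat_lit 7, nat_lit 0x6000600050, nat_lit 0x22202, nat_lit 0, nat_lit 4, nat_lit 0x48⟩ (t14_5932) (t14_14124))) (.node ⟨nat_lit 7, nat_lit 0x1000080060, nat_lit 0x2001112, nat_lit 2, nat_lit 4, nat_lit 0x49⟩ (.node ⟨nat_lit 6, nat_lit 0x3000300030, nat_lit 0x3300, nat_lit 1, nat_lit 3, nat_lit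 0x45⟩ (t14_3884) (t14_12076)) (.node ⟨nat_lit 8, nat_lit 0x800020002000c0, nat_lit 0x10012101, nat_lit 3, nat_lit 4, nat_lit 0x4a⟩ (t14_7980) (.nil)))))
def t14_172 : Tr := .node ⟨nat_lit 7, nat_lit 0x20004000400060, nat_lit 0x122111, nat_lit 2, nat_lit 4, nat_lit 0x49⟩ (.nil) (.nil)
def t14_8364 : Tr := .node ⟨nat_lit 8, nat_lit 0x8000200020009000c0, nat_lit 0x21030, nat_lit 2, nat_lit 4, nat_lit 0x48⟩ (.nil) (.nil)
def t14_4268 : Tr := .node ⟨nat_lit 6, nat_lit 0x800100020, nat_lit 0x202010, nat_lit 1, nat_lit 4, nat_lit 0x48⟩ (.nil) (.nil)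
def t14_12460 : Tr := .node ⟨nat_lit 8, nat_lit 0x40008000c800e0, nat_lit 0x1110103, nat_lit 0, nat_lit 4, nat_lit 0x48⟩ (.nil) (.nil)
def t14_2220 : Tr := .node ⟨nat_lit 7, nat_lit 0x40004000400020, nat_lit 0x112220, nat_lit 1, nat_lit 4, nat_lit 0x4a⟩ (.nil) (.nil)
def t14_10412 : Tr := .node ⟨nat_lit 7, nat_lit 0x20006000500068, nat_lit 0x102202, nat_lit 2, nat_lit 4, nat_lit 0x47⟩ (.nil) (.nil)
def t14_6316 : Tr := .node ⟨nat_lit 6, nat_lit 0x2000100010, nat_lit 0x101031, nat_lit 0, nat_lit 4, nat_lit 0x48⟩ (.nil) (.nil)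
def t14_14508 : Tr := .node ⟨nat_lit 8, nat_lit 0x80004000a000c0, nat_lit 0x1012101, nat_lit 1, nat_lit 4, nat_lit 0x49⟩ (.nil) (.nil)
def t14_1196 : Tr := .node ⟨nat_lit 6, nat_lit 0x200032, nat_lit 0x210001, nat_lit 0, nat_lit 4, nat_lit 0x47⟩ (.nil) (.nil)
def t14_9388 : Tr := .node ⟨nat_lit 8, nat_lit 0x80008000800040004000a0, nat_lit 0x122101, nat_lit 3, nat_lit 4, nat_lit 0x49⟩ (.nil) (.nil)
def t14_5292 : Tr := .node ⟨nat_lit 7, nat_lit 0x4000100060, nat_lit 0x1211200, nat_lit 0, nat_lit 4, nat_lit 0x4a⟩ (.nil) (.nil)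
def t14_13484 : Tr := .node ⟨nat_lit 7, nat_lit 0x40004000100020, nat_lit 0x100030, nat_lit 2, nat_lit 4, nat_lit 0x48⟩ (.nil) (.nil)
def t14_3244 : Tr := .node ⟨nat_lit 9, nat_lit 0x1000080008000400180, nat_lit 0x1102101, nat_lit 0, nat_lit 4, nat_lit 0x4a⟩ (.nil) (.nil)
def t14_11436 : Tr := .node ⟨nat_lit 7, nat_lit 0x20004000100060, nat_lit 0x1002010, nat_lit 0, nat_lit 4, nat_lit 0x47⟩ (.nil) (.nil)
def t14_7340 : Tr := .node ⟨nat_lit 7, nat_lit 0x20004000400040, nat_lit 0x121000, nat_lit 3, nat_lit 4, nat_lit 0x49⟩ (.nil) (.nil)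
def t14_15532 : Tr := .node ⟨nat_lit 0xa, nat_lit 0x2000100, nat_lit 0x21111100, nat_lit 0, nat_lit 4, nat_lit 0x4f⟩ (.nil) (.nil)
def t14_684 : Tr := .node ⟨nat_lit 6, nat_lit 0x800300028, nat_lit 0x311, nat_lit 3, nat_lit 4, nat_lit 0x46⟩ (.nil) (.nil)
def t14_8876 : Tr := .node ⟨nat_lit 8, nat_lit 0x800080004000900090, nat_lit 0x1210121, nat_lit 1, nat_lit 4, nat_lit 0x49⟩ (.nil) (.nil)
def t14_4780 : Tr := .node ⟨nat_lit 5, nat_lit 0x1000100008, nat_lit 0x1201, nat_lit 6, nat_lit 4, nat_lit 0x47⟩ (.nil) (.nil)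
def t14_12972 : Tr := .node ⟨nat_lit 7, nat_lit 0x20001000500068, nat_lit 0x3011, nat_lit 1, nat_lit 4, nat_lit 0x46⟩ (.nil) (.nil)
def t14_2732 : Tr := .node ⟨nat_lit 6, nat_lit 0x10002000300030, nat_lit 0x2220, nat_lit 2, nat_lit 4, nat_lit 0x46⟩ (.nil) (.nil)
def t14_10924 : Tr := .node ⟨nat_lit 8, nat_lit 0x4000c000a000d000e0, nat_lit 0x12022, nat_lit 0, nat_lit 4, nat_lit 0x45⟩ (.nil) (.nil)
def t14_6828 : Tr := .node ⟨nat_lit 5, nat_lit 0x100012, nat_lit 0x1132, nat_lit 4, nat_lit 4, nat_lit 0x48⟩ (.nil) (.nil)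
def t14_15020 : Tr := .node ⟨nat_lit 9, nat_lit 0x10001000100008001200120, nat_lit 0x11110111, nat_lit 0, nat_lit 4, nat_lit 0x4a⟩ (.nil) (.nil)
def t14_1708 : Tr := .node ⟨nat_lit 6, nat_lit 0x2000100030, nat_lit 0x1224, nat_lit 0, nat_lit 4, nat_lit 0x47⟩ (.nil) (.nil)
def t14_9900 : Tr := .node ⟨nat_lit 5, nat_lit 0x1800180018, nat_lit 0x320, nat_lit 0xa, nat_lit 4, nat_lit 0x46⟩ (.nil) (.nil)
def t14_5804 : Tr := .node ⟨nat_lit 8, nat_lit 0x800020002000c0, nat_lit 0x1012101, nat_lit 1, nat_lit 4, nat_lit 0x49⟩ (.nil) (.nil)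
def t14_13996 : Tr := .node ⟨nat_lit 6, nat_lit 0x20002000100010, nat_lit 0x2121, nat_lit 3, nat_lit 4, nat_lit 0x47⟩ (.nil) (.nil)
def t14_3756 : Tr := .node ⟨nat_lit 8, nat_lit 0x40008000800060008800d0, nat_lit 0x1221000, nat_lit 0, nat_lit 4, nat_lit 0x47⟩ (.nil) (.nil)
def t14_11948 : Tr := .node ⟨nat_lit 6, nat_lit 0x2000200010, nat_lit 0x1103, nat_lit 4, nat_lit 4, nat_lit 0x48⟩ (.nil) (.nil)
def t14_7852 : Tr := .node ⟨nat_lit 9, nat_lit 0x80008001000100011000a000c0, nat_lit 0x1100001, nat_lit 1, nat_lit 4, nat_lit 0x47⟩ (.nil) (.nil)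
def t9_172 : Tr := .node ⟨nat_lit 5, nat_lit 0x10, nat_lit 0x13221, nat_lit 1, nat_lit 4, nat_lit 0x4a⟩ (.node ⟨nat_lit 3, nat_lit 0, nat_lit 0x311, nat_lit 5, nat_lit 4, nat_lit 0x47⟩ (.node ⟨nat_lit 6, nat_lit 0x1000200020, nat_lit 0x3000, nat_lit 0, nat_lit 4, nat_lit 0x47⟩ (.node ⟨nat_lit 6, nat_lit 0x1000100020, nat_lit 0x2110, nat_lit 1, nat_lit 4, nat_lit 0x47⟩ (.node ⟨nat_lit 8, nat_lit 0x800080008000400090, nat_lit 0x2111121, nat_lit 0, nat_lit 4, nat_lit 0x4a⟩ (t14_172) (t14_8364)) (.node ⟨nat_lit 7, nat_lit 0x20001000400070, nat_lit 0x12003, nat_lit 2, nat_lit 4, nat_lit 0x47⟩ (t14_4268) (t14_12460))) (.node ⟨nat_lit 6, nat_lit 0x10002000240018, nat_lit 0x222310, nat_lit 0, nat_lit 4, nat_lit 0x49⟩ (.node ⟨nat_lit 5, nat_lit 0x80010001c, nat_lit 0x123, nat_lit 3, nat_lit 4, nat_lit 0x44⟩ (t14_2220) (t14_10412)) (.node ⟨nat_lit 6, nat_lit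 0x10002000240030, nat_lit 0x103202, nat_lit 2, nat_lit 4, nat_lit 0x47⟩ (t14_6316) (t14_14508)))) (.node ⟨nat_lit 5, nat_lit 0x10, nat_lit 0x21111, nat_lit 3, nat_lit 4, nat_lit 0x49⟩ (.node ⟨nat_lit 5, nat_lit 0x100018, nat_lit 0x1130, nat_lit 0, nat_lit 3, nat_lit 0x45⟩ (.node ⟨nat_lit 5, nat_lit 0x1000080008, nat_lit 0x40120, nat_lit 0, nat_lit 3, nat_lit 0x47⟩ (t14_1196) (t14_9388)) (.node ⟨nat_lit 7, nat_lit 0x3000500060, nat_lit 0x111212, nat_lit 1, nat_lit 4, nat_lit 0x48⟩ (t14_5292) (t14_13484))) (.node ⟨nat_lit 6, nat_lit 0x1000200020, nat_lit 0x101220, nat_lit 1, nat_lit 4, nat_lit 0x48⟩ (.node ⟨nat_lit 5, nat_lit 0x40018, nat_lit 0x10001, nat_lit 4, nat_lit 3, nat_lit 0x45⟩ (t14_3244) (t14_11436)) (.node ⟨nat_lit 7, nat_lit 0x20002000500068, nat_lit 0x1101002, nat_lit 1, nat_lit 4, nat_lit 0x47⟩ (t14_7340) (t14_15532))))) (.node ⟨nat_lit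 6, nat_lit 0x2000200010, nat_lit 0x13101, nat_lit 0, nat_lit 4, nat_lit 0x48⟩ (.node ⟨nat_lit 7, nat_lit 0x4000100060, nat_lit 0x211012, nat_lit 0, nat_lit 4, nat_lit 0x49⟩ (.node ⟨nat_lit 7, nat_lit 0x40002000480068, nat_lit 0x2010001, nat_lit 1, nat_lit 4, nat_lit 0x47⟩ (.node ⟨nat_lit 6, nat_lit 0x1000080020, nat_lit 0x112300, nat_lit 0, nat_lit 4, nat_lit 0x49⟩ (t14_684) (t14_8876)) (.node ⟨nat_lit 7, nat_lit 0x40003000500068, nat_lit 0x1002200, nat_lit 1, nat_lit 4, nat_lit 0x46⟩ (t14_4780) (t14_12972))) (.node ⟨nat_lit 4, nat_lit 0x8000c, nat_lit 0x121, nat_lit 5, nat_lit 4, nat_lit 0x45⟩ (.node ⟨nat_lit 5, nat_lit 0x1000080008, nat_lit 0x21040, nat_lit 0, nat_lit 3, nat_lit 0x47⟩ (t14_2732) (t14_10924)) (.node ⟨nat_lit 6, nat_lit 0x1000280030, nat_lit 0x110122, nat_lit 2, nat_lit 4, nat_lit 0x47⟩ (t14_6828) (t14_15020)))) (.node ⟨nat_lit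 3, nat_lit 0x40004, nat_lit 0x122, nat_lit 0xb, nat_lit 4, nat_lit 0x47⟩ (.node ⟨nat_lit 6, nat_lit 0x2000200030, nat_lit 0x22211, nat_lit 0, nat_lit 3, nat_lit 0x47⟩ (.node ⟨nat_lit 5, nat_lit 0x40018, nat_lit 0x10013, nat_lit 1, nat_lit 4, nat_lit 0x45⟩ (t14_1708) (t14_9900)) (.node ⟨nat_lit 6, nat_lit 0x20, nat_lit 0x22003, nat_lit 0, nat_lit 4, nat_lit 0x4a⟩ (t14_5804) (t14_13996))) (.node ⟨nat_lit 6, nat_lit 0x2800280030, nat_lit 0x20102, nat_lit 2, nat_lit 4, nat_lit 0x46⟩ (.node ⟨nat_lit 6, nat_lit 0x1000300028, nat_lit 0x2003, nat_lit 3, nat_lit 4, nat_lit 0x47⟩ (t14_3756) (t14_11948)) (.node ⟨nat_lit 6, nat_lit 0x20003000380038, nat_lit 0x110121, nat_lit 7, nat_lit 4, nat_lit 0x46⟩ (t14_7852) (.nil)))))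
def t14_428 : Tr := .node ⟨nat_lit 7, nat_lit 0x4000400040, nat_lit 0x1111211, nat_lit 0, nat_lit 4, nat_lit 0x4b⟩ (.nil) (.nil)
def t14_8620 : Tr := .node ⟨nat_lit 7, nat_lit 0x20001000500068, nat_lit 0x1020, nat_lit 0, nat_lit 4, nat_lit 0x45⟩ (.nil) (.nil)
def t14_4524 : Tr := .node ⟨nat_lit 9, nat_lit 0x1000100008001080110, nat_lit 0x111111001, nat_lit 1, nat_lit 4, nat_lit 0x4b⟩ (.nil) (.nil)
def t14_12716 : Tr := .node ⟨nat_lit 6, nat_lit 0x2000080030, nat_lit 0x100310, nat_lit 1, nat_lit 4, nat_lit 0x47⟩ (.nil) (.nil)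
def t14_2476 : Tr := .node ⟨nat_lit 8, nat_lit 0x2000c000c000a0, nat_lit 0x121210, nat_lit 0, nat_lit 4, nat_lit 0x48⟩ (.nil) (.nil)
def t14_10668 : Tr := .node ⟨nat_lit 5, nat_lit 0x180014, nat_lit 0x10000, nat_lit 4, nat_lit 4, nat_lit 0x45⟩ (.nil) (.nil)
def t14_6572 : Tr := .node ⟨nat_lit 7, nat_lit 0x1000080060, nat_lit 0x1001111, nat_lit 1, nat_lit 4, nat_lit 0x48⟩ (.nil) (.nil)
def t14_14764 : Tr := .node ⟨nat_lit 9, nat_lit 0x180006001400110, nat_lit 0x1001121, nat_lit 0, nat_lit 4, nat_lit 0x48⟩ (.nil) (.nil)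
def t14_1452 : Tr := .node ⟨nat_lit 8, nat_lit 0x800040004000a000e000d0, nat_lit 0x10012011, nat_lit 0, nat_lit 4, nat_lit 0x46⟩ (.nil) (.nil)
def t14_9644 : Tr := .node ⟨nat_lit 7, nat_lit 0x20005000680070, nat_lit 0x11202, nat_lit 1, nat_lit 4, nat_lit 0x45⟩ (.nil) (.nil)
def t14_5548 : Tr := .node ⟨nat_lit 8, nat_lit 0x8000400040, nat_lit 0x111031, nat_lit 0, nat_lit 4, nat_lit 0x4b⟩ (.nil) (.nil)
def t14_13740 : Tr := .node ⟨nat_lit 7, nat_lit 0x40001000480060, nat_lit 0x2110, nat_lit 2, nat_lit 4, nat_lit 0x47⟩ (.nil) (.nil)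
def t14_3500 : Tr := .node ⟨nat_lit 7, nat_lit 0x6000500070, nat_lit 0x11012, nat_lit 0, nat_lit 4, nat_lit 0x46⟩ (.nil) (.nil)
def t14_11692 : Tr := .node ⟨nat_lit 7, nat_lit 0x400040007000700070, nat_lit 0x1001100, nat_lit 1, nat_lit 4, nat_lit 0x45⟩ (.nil) (.nil)
def t14_7596 : Tr := .node ⟨nat_lit 5, nat_lit 0x800100012, nat_lit 0x11, nat_lit 2, nat_lit 4, nat_lit 0x44⟩ (.nil) (.nil)
def t14_940 : Tr := .node ⟨nat_lit 8, nat_lit 0x800080008000400090, nat_lit 0x1112210, nat_lit 0, nat_lit 4, nat_lit 0x4a⟩ (.nil) (.nil)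
def t14_9132 : Tr := .node ⟨nat_lit 8, nat_lit 0x400080002000c0, nat_lit 0x1112011, nat_lit 0, nat_lit 3, nat_lit 0x48⟩ (.nil) (.nil)
def t14_5036 : Tr := .node ⟨nat_lit 7, nat_lit 0x6000500070, nat_lit 0x11113, nat_lit 2, nat_lit 4, nat_lit 0x47⟩ (.nil) (.nil)
def t14_13228 : Tr := .node ⟨nat_lit 8, nat_lit 0x8000400040002000c8, nat_lit 0x130010, nat_lit 0, nat_lit 4, nat_lit 0x48⟩ (.nil) (.nil)
def t14_2988 : Tr := .node ⟨nat_lit 8, nat_lit 0x800080002000c000d0, nat_lit 0x110022, nat_lit 0, nat_lit 4, nat_lit 0x47⟩ (.nil) (.nil)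
def t14_11180 : Tr := .node ⟨nat_lit 7, nat_lit 0x40004800300068, nat_lit 0x1011001, nat_lit 0, nat_lit 4, nat_lit 0x46⟩ (.nil) (.nil)
def t14_7084 : Tr := .node ⟨nat_lit 6, nat_lit 0x800080030, nat_lit 0x211111, nat_lit 0, nat_lit 3, nat_lit 0x47⟩ (.nil) (.nil)
def t14_15276 : Tr := .node ⟨nat_lit 8, nat_lit 0x20008000a000c0, nat_lit 0x112021, nat_lit 0, nat_lit 4, nat_lit 0x49⟩ (.nil) (.nil)
def t14_1964 : Tr := .node ⟨nat_lit 6, nat_lit 0x1000200038, nat_lit 0x200212, nat_lit 1, nat_lit 4, nat_lit 0x47⟩ (.nil) (.nil)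
def t14_10156 : Tr := .node ⟨nat_lit 7, nat_lit 0x20004000440030, nat_lit 0x1200, nat_lit 0, nat_lit 4, nat_lit 0x46⟩ (.nil) (.nil)
def t14_6060 : Tr := .node ⟨nat_lit 0xa, nat_lit 0x2000200010001000080, nat_lit 0x11110100, nat_lit 1, nat_lit 4, nat_lit 0x4c⟩ (.nil) (.nil)
def t14_14252 : Tr := .node ⟨nat_lit 7, nat_lit 0x20004000400060, nat_lit 0x11110, nat_lit 0, nat_lit 3, nat_lit 0x46⟩ (.nil) (.nil)
def t14_4012 : Tr := .node ⟨nat_lit 7, nat_lit 0x200040004000640068, nat_lit 0x1001112, nat_lit 4, nat_lit 4, nat_lit 0x47⟩ (.nil) (.nil)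
def t14_12204 : Tr := .node ⟨nat_lit 8, nat_lit 0x400040008000c000d0, nat_lit 0x111120, nat_lit 2, nat_lit 4, nat_lit 0x48⟩ (.nil) (.nil)
def t14_8108 : Tr := .node ⟨nat_lit 8, nat_lit 0x4000800080006000880090, nat_lit 0x1011030, nat_lit 0, nat_lit 4, nat_lit 0x47⟩ (.nil) (.nil)
def t9_428 : Tr := .node ⟨nat_lit 6, nat_lit 0x80030, nat_lit 0x211311, nat_lit 1, nat_lit 4, nat_lit 0x4a⟩ (.node ⟨nat_lit 6, nat_lit 0x200020, nat_lit 0x31122, nat_lit 0, nat_lit 4, nat_lit 0x4a⟩ (.node ⟨nat_lit 5, nat_lit 0x80010, nat_lit 0x12200, nat_lit 0, nat_lit 3, nat_lit 0x47⟩ (.node ⟨nat_lit 6, nat_lit 0x2000080030, nat_lit 0x101231, nat_lit 1, nat_lit 4, nat_lit 0x48⟩ (.node ⟨nat_lit 6, nat_lit 0x2000300034, nat_lit 0x2002, nat_lit 1, nat_lit 4, nat_lit 0x45⟩ (t14_428) (t14_8620)) (.node ⟨nat_lit 5, nat_lit 0x140018, nat_lit 0x11222, nat_lit 5, nat_lit 4, nat_lit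 0x48⟩ (t14_4524) (t14_12716))) (.node ⟨nat_lit 2, nat_lit 2, nat_lit 0x21, nat_lit 0xc, nat_lit 3, nat_lit 0x45⟩ (.node ⟨nat_lit 8, nat_lit 0x8000800040002000c0, nat_lit 0x1110103, nat_lit 1, nat_lit 4, nat_lit 0x49⟩ (t14_2476) (t14_10668)) (.node ⟨nat_lit 6, nat_lit 0x10002000240030, nat_lit 0x103201, nat_lit 2, nat_lit 4, nat_lit 0x47⟩ (t14_6572) (t14_14764)))) (.node ⟨nat_lit 3, nat_lit 4, nat_lit 0x21, nat_lit 7, nat_lit 4, nat_lit 0x45⟩ (.node ⟨nat_lit 8, nat_lit 0x80008000880088, nat_lit 0x22110110, nat_lit 0, nat_lit 4, nat_lit 0x4b⟩ (.node ⟨nat_lit 6, nat_lit 0x2000100010, nat_lit 0x1100, nat_lit 1, nat_lit 4, nat_lit 0x46⟩ (t14_1452) (t14_9644)) (.node ⟨nat_lit 6, nat_lit 0x200020, nat_lit 0x121121, nat_lit 5, nat_lit 4, nat_lit 0x4b⟩ (t14_5548) (t14_13740))) (.node ⟨nat_lit 7, nat_lit 0x4000400060, nat_lit 0x111211, nat_lit 0, nat_lit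 4, nat_lit 0x49⟩ (.node ⟨nat_lit 7, nat_lit 0x20003000600050, nat_lit 0x1012003, nat_lit 0, nat_lit 4, nat_lit 0x47⟩ (t14_3500) (t14_11692)) (.node ⟨nat_lit 9, nat_lit 0x40010000200180, nat_lit 0x110010201, nat_lit 1, nat_lit 4, nat_lit 0x4b⟩ (t14_7596) (.nil))))) (.node ⟨nat_lit 4, nat_lit 0xc, nat_lit 0x2031, nat_lit 3, nat_lit 4, nat_lit 0x47⟩ (.node ⟨nat_lit 6, nat_lit 0x2000200010, nat_lit 0x22201, nat_lit 2, nat_lit 4, nat_lit 0x49⟩ (.node ⟨nat_lit 5, nat_lit 0x100018001c, nat_lit 0x11121, nat_lit 5, nat_lit 4, nat_lit 0x46⟩ (.node ⟨nat_lit 3, nat_lit 4, nat_lit 0x120, nat_lit 0x13, nat_lit 4, nat_lit 0x49⟩ (t14_940) (t14_9132)) (.node ⟨nat_lit 6, nat_lit 0x200010, nat_lit 0x12202, nat_lit 3, nat_lit 4, nat_lit 0x4a⟩ (t14_5036) (t14_13228))) (.node ⟨nat_lit 6, nat_lit 0x200030, nat_lit 0x111120, nat_lit 2, nat_lit 4, nat_lit 0x49⟩ (.node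 ⟨nat_lit 7, nat_lit 0x100060, nat_lit 0x1111102, nat_lit 1, nat_lit 4, nat_lit 0x4a⟩ (t14_2988) (t14_11180)) (.node ⟨nat_lit 7, nat_lit 0x40002000500060, nat_lit 0x110121, nat_lit 0, nat_lit 4, nat_lit 0x47⟩ (t14_7084) (t14_15276)))) (.node ⟨nat_lit 6, nat_lit 0x2000080030, nat_lit 0x12002, nat_lit 1, nat_lit 4, nat_lit 0x47⟩ (.node ⟨nat_lit 7, nat_lit 0x20001000600050, nat_lit 0x122111, nat_lit 0, nat_lit 4, nat_lit 0x48⟩ (.node ⟨nat_lit 7, nat_lit 0x2000400070, nat_lit 0x1011013, nat_lit 1, nat_lit 4, nat_lit 0x48⟩ (t14_1964) (t14_10156)) (.node ⟨nat_lit 7, nat_lit 0x20005000680068, nat_lit 0x220200, nat_lit 1, nat_lit 4, nat_lit 0x47⟩ (t14_6060) (t14_14252))) (.node ⟨nat_lit 7, nat_lit 0x40002000200060, nat_lit 0x30111, nat_lit 1, nat_lit 4, nat_lit 0x48⟩ (.node ⟨nat_lit 5, nat_lit 0x180014, nat_lit 0x1102, nat_lit 2, nat_lit 4, nat_lit 0x45⟩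 (t14_4012) (t14_12204)) (.node ⟨nat_lit 8, nat_lit 0x800040004000a000a00050, nat_lit 0x11111210, nat_lit 0, nat_lit 4, nat_lit 0x48⟩ (t14_8108) (.nil)))))
def t14_108 : Tr := .node ⟨nat_lit 7, nat_lit 0x3000500060, nat_lit 0x1002111, nat_lit 1, nat_lit 4, nat_lit 0x47⟩ (.nil) (.nil)
def t14_8300 : Tr := .node ⟨nat_lit 7, nat_lit 0x40002000500068, nat_lit 0x2200, nat_lit 1, nat_lit 4, nat_lit 0x46⟩ (.nil) (.nil)
def t14_4204 : Tr := .node ⟨nat_lit 7, nat_lit 0x40004000200048, nat_lit 0x111211, nat_lit 4, nat_lit 4, nat_lit 0x49⟩ (.nil) (.nil)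
def t14_12396 : Tr := .node ⟨nat_lit 7, nat_lit 0x40001000680068, nat_lit 0x1000110, nat_lit 0, nat_lit 4, nat_lit 0x45⟩ (.nil) (.nil)
def t14_2156 : Tr := .node ⟨nat_lit 8, nat_lit 0x800020008800c0, nat_lit 0x1112020, nat_lit 0, nat_lit 4, nat_lit 0x49⟩ (.nil) (.nil)
def t14_10348 : Tr := .node ⟨nat_lit 6, nat_lit 0x20002800280030, nat_lit 0x2200, nat_lit 6, nat_lit 4, nat_lit 0x47⟩ (.nil) (.nil)
def t14_6252 : Tr := .node ⟨nat_lit 5, nat_lit 0x800080010, nat_lit 0x11110, nat_lit 5, nat_lit 3, nat_lit 0x46⟩ (.nil) (.nil)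
def t14_14444 : Tr := .node ⟨nat_lit 8, nat_lit 0x4000400080008000d0, nat_lit 0x21111, nat_lit 0, nat_lit 4, nat_lit 0x48⟩ (.nil) (.nil)
def t14_1132 : Tr := .node ⟨nat_lit 7, nat_lit 0x1000080060, nat_lit 0x1100031, nat_lit 0, nat_lit 4, nat_lit 0x48⟩ (.nil) (.nil)
def t14_9324 : Tr := .node ⟨nat_lit 8, nat_lit 0x800040009000a000c0, nat_lit 0x1110121, nat_lit 2, nat_lit 4, nat_lit 0x48⟩ (.nil) (.nil)
def t14_5228 : Tr := .node ⟨nat_lit 7, nat_lit 0x400040002000200058, nat_lit 0x20101, nat_lit 1, nat_lit 4, nat_lit 0x46⟩ (.nil) (.nil)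
def t14_13420 : Tr := .node ⟨nat_lit 8, nat_lit 0x80009000a0006000d0, nat_lit 0x20103, nat_lit 0, nat_lit 4, nat_lit 0x46⟩ (.nil) (.nil)
def t14_3180 : Tr := .node ⟨nat_lit 8, nat_lit 0x8000400090006000d0, nat_lit 0x10111012, nat_lit 0, nat_lit 4, nat_lit 0x47⟩ (.nil) (.nil)
def t14_11372 : Tr := .node ⟨nat_lit 7, nat_lit 0x40001000100060, nat_lit 0x1100, nat_lit 3, nat_lit 3, nat_lit 0x46⟩ (.nil) (.nil)
def t14_7276 : Tr := .node ⟨nat_lit 7, nat_lit 0x20002000500068, nat_lit 0x1020012, nat_lit 1, nat_lit 4, nat_lit 0x47⟩ (.nil) (.nil)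
def t14_15468 : Tr := .node ⟨nat_lit 6, nat_lit 0x2000100008, nat_lit 0, nat_lit 0x13, nat_lit 4, nat_lit 0x4a⟩ (.nil) (.nil)
def t14_620 : Tr := .node ⟨nat_lit 6, nat_lit 0x2000100010, nat_lit 0x102022, nat_lit 3, nat_lit 4, nat_lit 0x49⟩ (.nil) (.nil)
def t14_8812 : Tr := .node ⟨nat_lit 4, nat_lit 0x8000a, nat_lit 0x1323, nat_lit 6, nat_lit 4, nat_lit 0x48⟩ (.nil) (.nil)
def t14_4716 : Tr := .node ⟨nat_lit 9, nat_lit 0x40010000200180, nat_lit 0x100110201, nat_lit 0, nat_lit 4, nat_lit 0x4b⟩ (.nil) (.nil)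
def t14_12908 : Tr := .node ⟨nat_lit 8, nat_lit 0x8000400020009000c0, nat_lit 0x120100, nat_lit 2, nat_lit 4, nat_lit 0x48⟩ (.nil) (.nil)
def t14_2668 : Tr := .node ⟨nat_lit 6, nat_lit 0x20002000100030, nat_lit 0x14002, nat_lit 0, nat_lit 3, nat_lit 0x46⟩ (.nil) (.nil)
def t14_10860 : Tr := .node ⟨nat_lit 8, nat_lit 0x800080008800c0, nat_lit 0x1112002, nat_lit 2, nat_lit 4, nat_lit 0x4a⟩ (.nil) (.nil)
def t14_6764 : Tr := .node ⟨nat_lit 7, nat_lit 0x800100060, nat_lit 0x2011110, nat_lit 0, nat_lit 4, nat_lit 0x49⟩ (.nil) (.nil)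
def t14_14956 : Tr := .node ⟨nat_lit 8, nat_lit 0x800040009000a000c0, nat_lit 0x110111, nat_lit 1, nat_lit 4, nat_lit 0x47⟩ (.nil) (.nil)
def t14_1644 : Tr := .node ⟨nat_lit 8, nat_lit 0x400080008800c000c8, nat_lit 0x121020, nat_lit 0, nat_lit 4, nat_lit 0x47⟩ (.nil) (.nil)
def t14_9836 : Tr := .node ⟨nat_lit 7, nat_lit 0x30006000600050, nat_lit 0x2200, nat_lit 0, nat_lit 4, nat_lit 0x45⟩ (.nil) (.nil)
def t14_5740 : Tr := .node ⟨nat_lit 8, nat_lit 0x20008000c0, nat_lit 0x1011022, nat_lit 0, nat_lit 4, nat_lit 0x4a⟩ (.nil) (.nil)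
def t14_13932 : Tr := .node ⟨nat_lit 8, nat_lit 0x200020002800c0, nat_lit 0x10001002, nat_lit 0, nat_lit 4, nat_lit 0x48⟩ (.nil) (.nil)
def t14_3692 : Tr := .node ⟨nat_lit 7, nat_lit 0x20005000600068, nat_lit 0x121021, nat_lit 0, nat_lit 4, nat_lit 0x47⟩ (.nil) (.nil)
def t14_11884 : Tr := .node ⟨nat_lit 2, nat_lit 0, nat_lit 0x51, nat_lit 2, nat_lit 3, nat_lit 0x46⟩ (.nil) (.nil)
def t14_7788 : Tr := .node ⟨nat_lit 8, nat_lit 0x8000400020002000c0, nat_lit 0x2102, nat_lit 3, nat_lit 4, nat_lit 0x48⟩ (.nil) (.nil)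
def t9_108 : Tr := .node ⟨nat_lit 6, nat_lit 0x200030, nat_lit 0x111111, nat_lit 0, nat_lit 3, nat_lit 0x47⟩ (.node ⟨nat_lit 3, nat_lit 0x40004, nat_lit 0x232, nat_lit 5, nat_lit 3, nat_lit 0x46⟩ (.node ⟨nat_lit 6, nat_lit 0x2000300030, nat_lit 0x3210, nat_lit 5, nat_lit 4, nat_lit 0x48⟩ (.node ⟨nat_lit 6, nat_lit 0x2000300034, nat_lit 0x102111, nat_lit 3, nat_lit 4, nat_lit 0x47⟩ (.node ⟨nat_lit 5, nat_lit 0x1000100008, nat_lit 0x2222, nat_lit 4, nat_lit 4, nat_lit 0x48⟩ (t14_108) (t14_8300)) (.node ⟨nat_lit 6, nat_lit 0x1000200032, nat_lit 0x2020, nat_lit 0, nat_lit 4, nat_lit 0x46⟩ (t14_4204) (t14_12396))) (.node ⟨nat_lit 7, nat_lit 0x40002000100060, nat_lit 0x120111, nat_lit 0, nat_lit 4, nat_lit 0x48⟩ (.node ⟨nat_lit 6, nat_lit 0x20002000100030, nat_lit 0x12031, nat_lit 3, nat_lit 3, nat_lit 0x46⟩ (t14_2156) (t14_10348)) (.node ⟨nat_lit 7,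 nat_lit 0x40002000480060, nat_lit 0x21221, nat_lit 0, nat_lit 4, nat_lit 0x47⟩ (t14_6252) (t14_14444)))) (.node ⟨nat_lit 4, nat_lit 8, nat_lit 0x1222, nat_lit 4, nat_lit 3, nat_lit 0x47⟩ (.node ⟨nat_lit 4, nat_lit 0xc, nat_lit 0x2111, nat_lit 0xd, nat_lit 4, nat_lit 0x49⟩ (.node ⟨nat_lit 7, nat_lit 0x400040002000200050, nat_lit 0x110113, nat_lit 0, nat_lit 4, nat_lit 0x47⟩ (t14_1132) (t14_9324)) (.node ⟨nat_lit 5, nat_lit 0x180018, nat_lit 0x11221, nat_lit 5, nat_lit 4, nat_lit 0x48⟩ (t14_5228) (t14_13420))) (.node ⟨nat_lit 6, nat_lit 0x2000200010, nat_lit 0x12100, nat_lit 6, nat_lit 4, nat_lit 0x49⟩ (.node ⟨nat_lit 6, nat_lit 0x280030, nat_lit 0x120203, nat_lit 2, nat_lit 4, nat_lit 0x49⟩ (t14_3180) (t14_11372)) (.node ⟨nat_lit 6, nat_lit 0x2000240024, nat_lit 0x111121, nat_lit 2, nat_lit 4, nat_lit 0x48⟩ (t14_7276) (t14_15468))))) (.node ⟨nat_lit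 5, nat_lit 0x800100010, nat_lit 0x13200, nat_lit 0, nat_lit 3, nat_lit 0x47⟩ (.node ⟨nat_lit 6, nat_lit 0x800200030, nat_lit 0x2220, nat_lit 0, nat_lit 4, nat_lit 0x47⟩ (.node ⟨nat_lit 6, nat_lit 0x200030, nat_lit 0x2110, nat_lit 3, nat_lit 4, nat_lit 0x48⟩ (.node ⟨nat_lit 6, nat_lit 0x200020, nat_lit 0x211120, nat_lit 3, nat_lit 4, nat_lit 0x4b⟩ (t14_620) (t14_8812)) (.node ⟨nat_lit 7, nat_lit 0x20004000500064, nat_lit 0x1112201, nat_lit 1, nat_lit 4, nat_lit 0x48⟩ (t14_4716) (t14_12908))) (.node ⟨nat_lit 5, nat_lit 0x180014, nat_lit 0x113, nat_lit 2, nat_lit 4, nat_lit 0x45⟩ (.node ⟨nat_lit 7, nat_lit 0x20002000400070, nat_lit 0x1021113, nat_lit 0, nat_lit 4, nat_lit 0x48⟩ (t14_2668) (t14_10860)) (.node ⟨nat_lit 5, nat_lit 0x180018, nat_lit 0x11222, nat_lit 2, nat_lit 3, nat_lit 0x46⟩ (t14_6764) (t14_14956)))) (.node ⟨nat_lit 5, nat_lit 0x18,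 nat_lit 0x20112, nat_lit 0, nat_lit 4, nat_lit 0x47⟩ (.node ⟨nat_lit 6, nat_lit 0x80030, nat_lit 0x201111, nat_lit 3, nat_lit 4, nat_lit 0x49⟩ (.node ⟨nat_lit 5, nat_lit 0x1000080008, nat_lit 0x11, nat_lit 1, nat_lit 3, nat_lit 0x44⟩ (t14_1644) (t14_9836)) (.node ⟨nat_lit 7, nat_lit 0x20001000500068, nat_lit 0x1202020, nat_lit 1, nat_lit 4, nat_lit 0x48⟩ (t14_5740) (t14_13932))) (.node ⟨nat_lit 7, nat_lit 0x1000080060, nat_lit 0x2001012, nat_lit 6, nat_lit 4, nat_lit 0x4a⟩ (.node ⟨nat_lit 6, nat_lit 0x1000200034, nat_lit 0x111000, nat_lit 0, nat_lit 4, nat_lit 0x46⟩ (t14_3692) (t14_11884)) (.node ⟨nat_lit 7, nat_lit 0x1000600060, nat_lit 0x1101021, nat_lit 3, nat_lit 4, nat_lit 0x49⟩ (t14_7788) (.nil)))))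
def t14_364 : Tr := .node ⟨nat_lit 7, nat_lit 0x40001000600060, nat_lit 0x1012311, nat_lit 0, nat_lit 4, nat_lit 0x48⟩ (.nil) (.nil)
def t14_8556 : Tr := .node ⟨nat_lit 8, nat_lit 0x80004000a000b000d0, nat_lit 0x10022, nat_lit 0, nat_lit 4, nat_lit 0x45⟩ (.nil) (.nil)
def t14_4460 : Tr := .node ⟨nat_lit 9, nat_lit 0x100008000200040, nat_lit 0x1110010, nat_lit 5, nat_lit 4, nat_lit 0x4c⟩ (.nil) (.nil)
def t14_12652 : Tr := .node ⟨nat_lit 7, nat_lit 0x40004000100060, nat_lit 0x13110, nat_lit 4, nat_lit 4, nat_lit 0x49⟩ (.nil) (.nil)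
def t14_2412 : Tr := .node ⟨nat_lit 6, nat_lit 0x1000280030, nat_lit 0x11202, nat_lit 2, nat_lit 4, nat_lit 0x47⟩ (.nil) (.nil)
def t14_10604 : Tr := .node ⟨nat_lit 5, nat_lit 0x18001c, nat_lit 0x22, nat_lit 4, nat_lit 4, nat_lit 0x44⟩ (.nil) (.nil)
def t14_6508 : Tr := .node ⟨nat_lit 5, nat_lit 0x80010001c, nat_lit 0x11111, nat_lit 4, nat_lit 4, nat_lit 0x46⟩ (.nil) (.nil)
def t14_14700 : Tr := .node ⟨nat_lit 8, nat_lit 0x8000800040009000e000e0, nat_lit 0x112011, nat_lit 1, nat_lit 4, nat_lit 0x46⟩ (.nil) (.nil)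
def t14_1388 : Tr := .node ⟨nat_lit 7, nat_lit 0x10006000600060, nat_lit 0x21310, nat_lit 0, nat_lit 4, nat_lit 0x47⟩ (.nil) (.nil)
def t14_9580 : Tr := .node ⟨nat_lit 7, nat_lit 0x10004000600064, nat_lit 0x220, nat_lit 1, nat_lit 4, nat_lit 0x46⟩ (.nil) (.nil)
def t14_5484 : Tr := .node ⟨nat_lit 5, nat_lit 0x100012, nat_lit 0x1130, nat_lit 5, nat_lit 4, nat_lit 0x48⟩ (.nil) (.nil)
def t14_13676 : Tr := .node ⟨nat_lit 7, nat_lit 0x4000440030, nat_lit 0x2000100, nat_lit 0, nat_lit 4, nat_lit 0x48⟩ (.nil) (.nil)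
def t14_3436 : Tr := .node ⟨nat_lit 7, nat_lit 0x200040003000480070, nat_lit 0x211010, nat_lit 0, nat_lit 4, nat_lit 0x46⟩ (.nil) (.nil)
def t14_11628 : Tr := .node ⟨nat_lit 6, nat_lit 0x10001000200030, nat_lit 0x11002, nat_lit 0, nat_lit 3, nat_lit 0x45⟩ (.nil) (.nil)
def t14_7532 : Tr := .node ⟨nat_lit 5, nat_lit 0x100018001c, nat_lit 0x231, nat_lit 5, nat_lit 4, nat_lit 0x45⟩ (.nil) (.nil)
def t14_876 : Tr := .node ⟨nat_lit 7, nat_lit 0x4000100060, nat_lit 0x111310, nat_lit 0, nat_lit 4, nat_lit 0x49⟩ (.nil) (.nil)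
def t14_9068 : Tr := .node ⟨nat_lit 6, nat_lit 0x2800300038, nat_lit 0x1212, nat_lit 2, nat_lit 4, nat_lit 0x45⟩ (.nil) (.nil)
def t14_4972 : Tr := .node ⟨nat_lit 6, nat_lit 0x800300028, nat_lit 0x100311, nat_lit 3, nat_lit 4, nat_lit 0x47⟩ (.nil) (.nil)
def t14_13164 : Tr := .node ⟨nat_lit 6, nat_lit 0x10002000340038, nat_lit 0x1103, nat_lit 3, nat_lit 4, nat_lit 0x44⟩ (.nil) (.nil)
def t14_2924 : Tr := .node ⟨nat_lit 8, nat_lit 0x8000c000c0, nat_lit 0x211120, nat_lit 0, nat_lit 4, nat_lit 0x4a⟩ (.nil) (.nil)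
def t14_11116 : Tr := .node ⟨nat_lit 7, nat_lit 0x40004800300030, nat_lit 0x1002120, nat_lit 1, nat_lit 4, nat_lit 0x47⟩ (.nil) (.nil)
def t14_7020 : Tr := .node ⟨nat_lit 8, nat_lit 0x800020004000a000c0, nat_lit 0x10021011, nat_lit 1, nat_lit 4, nat_lit 0x48⟩ (.nil) (.nil)
def t14_15212 : Tr := .node ⟨nat_lit 8, nat_lit 0x8000200090009000d0, nat_lit 0x1010102, nat_lit 1, nat_lit 4, nat_lit 0x47⟩ (.nil) (.nil)
def t14_1900 : Tr := .node ⟨nat_lit 7, nat_lit 0x6000500048, nat_lit 0x2112, nat_lit 4, nat_lit 4, nat_lit 0x48⟩ (.nil) (.nil)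
def t14_10092 : Tr := .node ⟨nat_lit 6, nat_lit 0x10002000300030, nat_lit 0x3330, nat_lit 2, nat_lit 4, nat_lit 0x47⟩ (.nil) (.nil)
def t14_5996 : Tr := .node ⟨nat_lit 6, nat_lit 0x200030, nat_lit 0x132110, nat_lit 0, nat_lit 4, nat_lit 0x4a⟩ (.nil) (.nil)
def t14_14188 : Tr := .node ⟨nat_lit 8, nat_lit 0x10008000a000c0, nat_lit 0x1100102, nat_lit 3, nat_lit 4, nat_lit 0x49⟩ (.nil) (.nil)
def t14_3948 : Tr := .node ⟨nat_lit 7, nat_lit 0x10002000500060, nat_lit 0x103100, nat_lit 1, nat_lit 4, nat_lit 0x47⟩ (.nil) (.nil)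
def t14_12140 : Tr := .node ⟨nat_lit 8, nat_lit 0x80009000c0006000d0, nat_lit 0x10111210, nat_lit 0, nat_lit 4, nat_lit 0x47⟩ (.nil) (.nil)
def t14_8044 : Tr := .node ⟨nat_lit 6, nat_lit 0x2000240030, nat_lit 0x11130, nat_lit 3, nat_lit 4, nat_lit 0x47⟩ (.nil) (.nil)
def t9_364 : Tr := .node ⟨nat_lit 4, nat_lit 8, nat_lit 0x2331, nat_lit 3, nat_lit 4, nat_lit 0x4a⟩ (.node ⟨nat_lit 7, nat_lit 0x40004000200060, nat_lit 0x131002, nat_lit 1, nat_lit 4, nat_lit 0x49⟩ (.node ⟨nat_lit 5, nat_lit 0x100008, nat_lit 0x2201, nat_lit 1, nat_lit 4, nat_lit 0x47⟩ (.node ⟨nat_lit 6, nat_lit 0x800200032, nat_lit 0x111022, nat_lit 0, nat_lit 4, nat_lit 0x47⟩ (.node ⟨nat_lit 4, nat_lit 0x80008, nat_lit 0x222, nat_lit 5, nat_lit 4, nat_lit 0x47⟩ (t14_364) (t14_8556)) (.node ⟨nat_lit 7, nat_lit 0x10004000180060, nat_lit 0x1012211, nat_lit 0, nat_lit 4, nat_lit 0x48⟩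 (t14_4460) (t14_12652))) (.node ⟨nat_lit 3, nat_lit 6, nat_lit 0x221, nat_lit 0xa, nat_lit 4, nat_lit 0x47⟩ (.node ⟨nat_lit 5, nat_lit 0x1000080018, nat_lit 0x1123, nat_lit 6, nat_lit 4, nat_lit 0x47⟩ (t14_2412) (t14_10604)) (.node ⟨nat_lit 6, nat_lit 0x30, nat_lit 0x201103, nat_lit 0, nat_lit 4, nat_lit 0x49⟩ (t14_6508) (t14_14700)))) (.node ⟨nat_lit 6, nat_lit 0x240038, nat_lit 0x21122, nat_lit 0, nat_lit 4, nat_lit 0x47⟩ (.node ⟨nat_lit 6, nat_lit 0x30, nat_lit 0x202221, nat_lit 1, nat_lit 4, nat_lit 0x4b⟩ (.node ⟨nat_lit 6, nat_lit 0x800080030, nat_lit 0x100003, nat_lit 5, nat_lit 4, nat_lit 0x47⟩ (t14_1388) (t14_9580)) (.node ⟨nat_lit 8, nat_lit 0x800080004000400090, nat_lit 0x10211100, nat_lit 3, nat_lit 4, nat_lit 0x4a⟩ (t14_5484) (t14_13676))) (.node ⟨nat_lit 4, nat_lit 0xc, nat_lit 0x3013, nat_lit 3, nat_lit 4, nat_lit 0x47⟩ (.node ⟨nat_lit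 6, nat_lit 0x3000300028, nat_lit 0x2003, nat_lit 5, nat_lit 4, nat_lit 0x47⟩ (t14_3436) (t14_11628)) (.node ⟨nat_lit 8, nat_lit 0x800080004000a000d0, nat_lit 0x1111112, nat_lit 1, nat_lit 4, nat_lit 0x48⟩ (t14_7532) (.nil))))) (.node ⟨nat_lit 4, nat_lit 0x8000c, nat_lit 0x2131, nat_lit 7, nat_lit 4, nat_lit 0x48⟩ (.node ⟨nat_lit 6, nat_lit 0x1000200022, nat_lit 0x212000, nat_lit 1, nat_lit 4, nat_lit 0x48⟩ (.node ⟨nat_lit 5, nat_lit 0x1000080014, nat_lit 0x11211, nat_lit 4, nat_lit 4, nat_lit 0x47⟩ (.node ⟨nat_lit 6, nat_lit 0x80030, nat_lit 0x210120, nat_lit 0, nat_lit 4, nat_lit 0x48⟩ (t14_876) (t14_9068)) (.node ⟨nat_lit 7, nat_lit 0x400060, nat_lit 0x1121120, nat_lit 1, nat_lit 4, nat_lit 0x4b⟩ (t14_4972) (t14_13164))) (.node ⟨nat_lit 5, nat_lit 0x1000080008, nat_lit 0x11021, nat_lit 6, nat_lit 4, nat_lit 0x48⟩ (.node ⟨nat_lit 8, nat_lit 0x8000400084,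 nat_lit 0x10111201, nat_lit 1, nat_lit 4, nat_lit 0x4b⟩ (t14_2924) (t14_11116)) (.node ⟨nat_lit 7, nat_lit 0x200040004000480030, nat_lit 0x122010, nat_lit 0, nat_lit 4, nat_lit 0x47⟩ (t14_7020) (t14_15212)))) (.node ⟨nat_lit 4, nat_lit 8, nat_lit 0x212, nat_lit 5, nat_lit 4, nat_lit 0x47⟩ (.node ⟨nat_lit 5, nat_lit 0x18, nat_lit 0x31111, nat_lit 2, nat_lit 3, nat_lit 0x48⟩ (.node ⟨nat_lit 7, nat_lit 0x3000500060, nat_lit 0x111311, nat_lit 2, nat_lit 4, nat_lit 0x48⟩ (t14_1900) (t14_10092)) (.node ⟨nat_lit 7, nat_lit 0x20004000600060, nat_lit 0x22030, nat_lit 0, nat_lit 4, nat_lit 0x48⟩ (t14_5996) (t14_14188))) (.node ⟨nat_lit 5, nat_lit 0x140018, nat_lit 0x1020, nat_lit 2, nat_lit 4, nat_lit 0x44⟩ (.node ⟨nat_lit 7, nat_lit 0x10006000600050, nat_lit 0x12004, nat_lit 0, nat_lit 4, nat_lit 0x47⟩ (t14_3948) (t14_12140)) (.node ⟨nat_lit 8, nat_lit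 0x400080008000880060, nat_lit 0x11021111, nat_lit 1, nat_lit 4, nat_lit 0x49⟩ (t14_8044) (.nil)))))
def t14_236 : Tr := .node ⟨nat_lit 4, nat_lit 0xc, nat_lit 0x4221, nat_lit 0, nat_lit 3, nat_lit 0x48⟩ (.nil) (.nil)
def t14_8428 : Tr := .node ⟨nat_lit 5, nat_lit 0x40018, nat_lit 3, nat_lit 2, nat_lit 4, nat_lit 0x44⟩ (.nil) (.nil)
def t14_4332 : Tr := .node ⟨nat_lit 7, nat_lit 0x40002000100060, nat_lit 0x1101022, nat_lit 0, nat_lit 4, nat_lit 0x48⟩ (.nil) (.nil)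
def t14_12524 : Tr := .node ⟨nat_lit 7, nat_lit 0x40003000580068, nat_lit 0x111030, nat_lit 0, nat_lit 4, nat_lit 0x45⟩ (.nil) (.nil)
def t14_2284 : Tr := .node ⟨nat_lit 7, nat_lit 0x40004000100060, nat_lit 0x12100, nat_lit 7, nat_lit 4, nat_lit 0x49⟩ (.nil) (.nil)
def t14_10476 : Tr := .node ⟨nat_lit 7, nat_lit 0x40002000480060, nat_lit 0x11122, nat_lit 1, nat_lit 4, nat_lit 0x47⟩ (.nil) (.nil)
def t14_6380 : Tr := .node ⟨nat_lit 6, nat_lit 0x2000100008, nat_lit 2, nat_lit 2, nat_lit 4, nat_lit 0x46⟩ (.nil) (.nil)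
def t14_14572 : Tr := .node ⟨nat_lit 7, nat_lit 0x40002000100010, nat_lit 0x100031, nat_lit 2, nat_lit 3, nat_lit 0x47⟩ (.nil) (.nil)
def t14_1260 : Tr := .node ⟨nat_lit 7, nat_lit 0x200020004000300044, nat_lit 0x1002101, nat_lit 0, nat_lit 4, nat_lit 0x46⟩ (.nil) (.nil)
def t14_9452 : Tr := .node ⟨nat_lit 9, nat_lit 0x8001000120012000c0018001c0, nat_lit 0x11100021, nat_lit 1, nat_lit 4, nat_lit 0x47⟩ (.nil) (.nil)
def t14_5356 : Tr := .node ⟨nat_lit 8, nat_lit 0x800020002000c0, nat_lit 0x11013100, nat_lit 0, nat_lit 4, nat_lit 0x4a⟩ (.nil) (.nil)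
def t14_13548 : Tr := .node ⟨nat_lit 6, nat_lit 0x80030, nat_lit 0x1202, nat_lit 3, nat_lit 4, nat_lit 0x48⟩ (.nil) (.nil)
def t14_3308 : Tr := .node ⟨nat_lit 6, nat_lit 0x20002000100030, nat_lit 0x2021, nat_lit 5, nat_lit 4, nat_lit 0x47⟩ (.nil) (.nil)
def t14_11500 : Tr := .node ⟨nat_lit 5, nat_lit 0x80010001a, nat_lit 0x10100, nat_lit 3, nat_lit 4, nat_lit 0x44⟩ (.nil) (.nil)
def t14_7404 : Tr := .node ⟨nat_lit 7, nat_lit 0x40004000200020, nat_lit 0x120022, nat_lit 3, nat_lit 4, nat_lit 0x4a⟩ (.nil) (.nil)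
def t14_748 : Tr := .node ⟨nat_lit 6, nat_lit 0xc0030, nat_lit 0x2013, nat_lit 0, nat_lit 4, nat_lit 0x46⟩ (.nil) (.nil)
def t14_8940 : Tr := .node ⟨nat_lit 7, nat_lit 0x20006000500070, nat_lit 0x140, nat_lit 0, nat_lit 4, nat_lit 0x45⟩ (.nil) (.nil)
def t14_4844 : Tr := .node ⟨nat_lit 7, nat_lit 0x40001000100060, nat_lit 0x1111102, nat_lit 2, nat_lit 4, nat_lit 0x49⟩ (.nil) (.nil)
def t14_13036 : Tr := .node ⟨nat_lit 7, nat_lit 0x200040004000300048, nat_lit 0x22000, nat_lit 0, nat_lit 4, nat_lit 0x46⟩ (.nil) (.nil)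
def t14_2796 : Tr := .node ⟨nat_lit 7, nat_lit 0x10001000200040, nat_lit 0x1010020, nat_lit 1, nat_lit 4, nat_lit 0x48⟩ (.nil) (.nil)
def t14_10988 : Tr := .node ⟨nat_lit 7, nat_lit 0x1000500060, nat_lit 0x100021, nat_lit 1, nat_lit 4, nat_lit 0x47⟩ (.nil) (.nil)
def t14_6892 : Tr := .node ⟨nat_lit 6, nat_lit 0x200020, nat_lit 0x11111, nat_lit 3, nat_lit 4, nat_lit 0x49⟩ (.nil) (.nil)
def t14_15084 : Tr := .node ⟨nat_lit 8, nat_lit 0x8000800040009000c0, nat_lit 0x1111111, nat_lit 2, nat_lit 4, nat_lit 0x49⟩ (.nil) (.nil)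
def t14_1772 : Tr := .node ⟨nat_lit 5, nat_lit 0x180014, nat_lit 0x11212, nat_lit 6, nat_lit 4, nat_lit 0x48⟩ (.nil) (.nil)
def t14_9964 : Tr := .node ⟨nat_lit 4, nat_lit 0xc000c, nat_lit 0x32, nat_lit 0xa, nat_lit 4, nat_lit 0x45⟩ (.nil) (.nil)
def t14_5868 : Tr := .node ⟨nat_lit 7, nat_lit 0x400060, nat_lit 0x11101, nat_lit 2, nat_lit 4, nat_lit 0x49⟩ (.nil) (.nil)
def t14_14060 : Tr := .node ⟨nat_lit 7, nat_lit 0x4000200044, nat_lit 0x111000, nat_lit 1, nat_lit 4, nat_lit 0x48⟩ (.nil) (.nil)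
def t14_3820 : Tr := .node ⟨nat_lit 7, nat_lit 0x40001000480060, nat_lit 0x211112, nat_lit 1, nat_lit 4, nat_lit 0x48⟩ (.nil) (.nil)
def t14_12012 : Tr := .node ⟨nat_lit 7, nat_lit 0x4000600064, nat_lit 0x111201, nat_lit 0, nat_lit 4, nat_lit 0x48⟩ (.nil) (.nil)
def t14_7916 : Tr := .node ⟨nat_lit 9, nat_lit 0x100010000800110012001a0, nat_lit 0x1110013, nat_lit 0, nat_lit 4, nat_lit 0x48⟩ (.nil) (.nil)
def t9_236 : Tr := .node ⟨nat_lit 3, nat_lit 0, nat_lit 0x332, nat_lit 2, nat_lit 3, nat_lit 0x48⟩ (.node ⟨nat_lit 5, nat_lit 0x40018, nat_lit 0x10002, nat_lit 1, nat_lit 3, nat_lit 0x44⟩ (.node ⟨nat_lit 7, nat_lit 0x4000200044, nat_lit 0x3111111, nat_lit 0, nat_lit 4, nat_lit 0x4b⟩ (.node ⟨nat_lit 6, nat_lit 0x2000080030, nat_lit 0x111032, nat_lit 0, nat_lit 4, nat_lit 0x48⟩ (.node ⟨nat_lit 9, nat_lit 0x100008000400020, nat_lit 0x210002, nat_lit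 4, nat_lit 4, nat_lit 0x4c⟩ (t14_236) (t14_8428)) (.node ⟨nat_lit 8, nat_lit 0x2000800080004000c0, nat_lit 0x1002103, nat_lit 0, nat_lit 4, nat_lit 0x49⟩ (t14_4332) (t14_12524))) (.node ⟨nat_lit 7, nat_lit 0x4000400020, nat_lit 0x1211202, nat_lit 1, nat_lit 4, nat_lit 0x4b⟩ (.node ⟨nat_lit 6, nat_lit 0x280030, nat_lit 0x110213, nat_lit 2, nat_lit 3, nat_lit 0x47⟩ (t14_2284) (t14_10476)) (.node ⟨nat_lit 7, nat_lit 0x10002000400064, nat_lit 0x1200120, nat_lit 3, nat_lit 4, nat_lit 0x49⟩ (t14_6380) (t14_14572)))) (.node ⟨nat_lit 2, nat_lit 0, nat_lit 0x11, nat_lit 0x15, nat_lit 4, nat_lit 0x48⟩ (.node ⟨nat_lit 6, nat_lit 0x30, nat_lit 0x212221, nat_lit 0, nat_lit 4, nat_lit 0x4b⟩ (.node ⟨nat_lit 5, nat_lit 0x100008, nat_lit 0x1100, nat_lit 3, nat_lit 4, nat_lit 0x46⟩ (t14_1260) (t14_9452)) (.node ⟨nat_lit 5, nat_lit 0x100010, nat_lit 0x12122, nat_lit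 7, nat_lit 4, nat_lit 0x4a⟩ (t14_5356) (t14_13548))) (.node ⟨nat_lit 5, nat_lit 0x18, nat_lit 0x20213, nat_lit 0, nat_lit 4, nat_lit 0x48⟩ (.node ⟨nat_lit 7, nat_lit 0x20004000100060, nat_lit 0x1111003, nat_lit 2, nat_lit 4, nat_lit 0x49⟩ (t14_3308) (t14_11500)) (.node ⟨nat_lit 7, nat_lit 0x40002000200048, nat_lit 0x1011112, nat_lit 0, nat_lit 4, nat_lit 0x48⟩ (t14_7404) (.nil))))) (.node ⟨nat_lit 6, nat_lit 0x80030, nat_lit 0x100311, nat_lit 1, nat_lit 4, nat_lit 0x48⟩ (.node ⟨nat_lit 7, nat_lit 0x1000100060, nat_lit 0x2101102, nat_lit 0, nat_lit 4, nat_lit 0x49⟩ (.node ⟨nat_lit 5, nat_lit 0x800080010, nat_lit 0x20001, nat_lit 0, nat_lit 3, nat_lit 0x45⟩ (.node ⟨nat_lit 7, nat_lit 0x4000100060, nat_lit 0x1022111, nat_lit 0, nat_lit 4, nat_lit 0x4a⟩ (t14_748) (t14_8940)) (.node ⟨nat_lit 6, nat_lit 0x800300030, nat_lit 0x1320, nat_lit 0, nat_lit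 4, nat_lit 0x46⟩ (t14_4844) (t14_13036))) (.node ⟨nat_lit 6, nat_lit 0x300038, nat_lit 0x111121, nat_lit 0, nat_lit 4, nat_lit 0x47⟩ (.node ⟨nat_lit 5, nat_lit 0x140018, nat_lit 0x2124, nat_lit 2, nat_lit 4, nat_lit 0x47⟩ (t14_2796) (t14_10988)) (.node ⟨nat_lit 6, nat_lit 0x300028, nat_lit 0x111122, nat_lit 2, nat_lit 3, nat_lit 0x47⟩ (t14_6892) (t14_15084)))) (.node ⟨nat_lit 5, nat_lit 0x80010, nat_lit 0x11121, nat_lit 1, nat_lit 4, nat_lit 0x47⟩ (.node ⟨nat_lit 6, nat_lit 0x1000280034, nat_lit 0x111120, nat_lit 0, nat_lit 4, nat_lit 0x46⟩ (.node ⟨nat_lit 6, nat_lit 0x200030, nat_lit 0x1120, nat_lit 0, nat_lit 4, nat_lit 0x47⟩ (t14_1772) (t14_9964)) (.node ⟨nat_lit 6, nat_lit 0x200030, nat_lit 0x113202, nat_lit 0, nat_lit 4, nat_lit 0x4a⟩ (t14_5868) (t14_14060))) (.node ⟨nat_lit 6, nat_lit 0x80030, nat_lit 0x210232, nat_lit 0, nat_lit 4, nat_lit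 0x49⟩ (.node ⟨nat_lit 7, nat_lit 0x800600050, nat_lit 0x1110003, nat_lit 0, nat_lit 4, nat_lit 0x48⟩ (t14_3820) (t14_12012)) (.node ⟨nat_lit 8, nat_lit 0x800020002000400090, nat_lit 0x11020010, nat_lit 2, nat_lit 4, nat_lit 0x49⟩ (t14_7916) (.nil)))))
def t14_492 : Tr := .node ⟨nat_lit 7, nat_lit 0x4000400020, nat_lit 0x1211101, nat_lit 3, nat_lit 4, nat_lit 0x4b⟩ (.nil) (.nil)
def t14_8684 : Tr := .node ⟨nat_lit 7, nat_lit 0x20002000500068, nat_lit 2, nat_lit 1, nat_lit 4, nat_lit 0x45⟩ (.nil) (.nil)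
def t14_4588 : Tr := .node ⟨nat_lit 7, nat_lit 0x40001000480060, nat_lit 0x11301, nat_lit 0, nat_lit 4, nat_lit 0x47⟩ (.nil) (.nil)
def t14_12780 : Tr := .node ⟨nat_lit 4, nat_lit 0x8000c, nat_lit 0x140, nat_lit 9, nat_lit 4, nat_lit 0x47⟩ (.nil) (.nil)
def t14_2540 : Tr := .node ⟨nat_lit 7, nat_lit 0x40002000500060, nat_lit 0x11203, nat_lit 1, nat_lit 4, nat_lit 0x47⟩ (.nil) (.nil)
def t14_10732 : Tr := .node ⟨nat_lit 7, nat_lit 0x20002000500060, nat_lit 0x11020, nat_lit 2, nat_lit 4, nat_lit 0x47⟩ (.nil) (.nil)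
def t14_6636 : Tr := .node ⟨nat_lit 7, nat_lit 0x1000400062, nat_lit 0x101031, nat_lit 0, nat_lit 4, nat_lit 0x48⟩ (.nil) (.nil)
def t14_14828 : Tr := .node ⟨nat_lit 7, nat_lit 0x10001000600060, nat_lit 0x1002110, nat_lit 0, nat_lit 4, nat_lit 0x47⟩ (.nil) (.nil)
def t14_1516 : Tr := .node ⟨nat_lit 7, nat_lit 0x400040007000700068, nat_lit 0x12201, nat_lit 1, nat_lit 4, nat_lit 0x45⟩ (.nil) (.nil)
def t14_9708 : Tr := .node ⟨nat_lit 9, nat_lit 0x100010000400120011001a0, nat_lit 0x1111101, nat_lit 0, nat_lit 4, nat_lit 0x48⟩ (.nil) (.nil)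
def t14_5612 : Tr := .node ⟨nat_lit 8, nat_lit 0x80002000c000d000d0, nat_lit 0x10101220, nat_lit 1, nat_lit 4, nat_lit 0x47⟩ (.nil) (.nil)
def t14_13804 : Tr := .node ⟨nat_lit 7, nat_lit 0x400040004800480050, nat_lit 0x111000, nat_lit 1, nat_lit 4, nat_lit 0x47⟩ (.nil) (.nil)
def t14_3564 : Tr := .node ⟨nat_lit 8, nat_lit 0x80002000a000c000d0, nat_lit 0x20011, nat_lit 0, nat_lit 4, nat_lit 0x46⟩ (.nil) (.nil)
def t14_11756 : Tr := .node ⟨nat_lit 3, nat_lit 6, nat_lit 0x412, nat_lit 3, nat_lit 3, nat_lit 0x46⟩ (.nil) (.nil)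
def t14_7660 : Tr := .node ⟨nat_lit 6, nat_lit 0x2000080030, nat_lit 0x110, nat_lit 1, nat_lit 4, nat_lit 0x45⟩ (.nil) (.nil)
def t14_1004 : Tr := .node ⟨nat_lit 4, nat_lit 0xc000c, nat_lit 0x1011, nat_lit 5, nat_lit 4, nat_lit 0x44⟩ (.nil) (.nil)
def t14_9196 : Tr := .node ⟨nat_lit 6, nat_lit 0x10002000200030, nat_lit 0x3212, nat_lit 2, nat_lit 4, nat_lit 0x47⟩ (.nil) (.nil)
def t14_5100 : Tr := .node ⟨nat_lit 8, nat_lit 0x80008000400040009000e0, nat_lit 0x113101, nat_lit 0, nat_lit 4, nat_lit 0x47⟩ (.nil) (.nil)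
def t14_13292 : Tr := .node ⟨nat_lit 7, nat_lit 0x40001000480060, nat_lit 0x13010, nat_lit 2, nat_lit 4, nat_lit 0x48⟩ (.nil) (.nil)
def t14_3052 : Tr := .node ⟨nat_lit 5, nat_lit 0x40018, nat_lit 0x21011, nat_lit 2, nat_lit 3, nat_lit 0x46⟩ (.nil) (.nil)
def t14_11244 : Tr := .node ⟨nat_lit 4, nat_lit 0x8000c, nat_lit 0x110, nat_lit 9, nat_lit 4, nat_lit 0x46⟩ (.nil) (.nil)
def t14_7148 : Tr := .node ⟨nat_lit 4, nat_lit 0x8000c, nat_lit 0x1011, nat_lit 9, nat_lit 4, nat_lit 0x46⟩ (.nil) (.nil)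
def t14_15340 : Tr := .node ⟨nat_lit 8, nat_lit 0x80008000400040004000a0, nat_lit 0x10211101, nat_lit 0, nat_lit 4, nat_lit 0x49⟩ (.nil) (.nil)
def t14_2028 : Tr := .node ⟨nat_lit 6, nat_lit 0x10002000300038, nat_lit 0x2301, nat_lit 5, nat_lit 4, nat_lit 0x46⟩ (.nil) (.nil)
def t14_10220 : Tr := .node ⟨nat_lit 6, nat_lit 0x3000300028, nat_lit 0x103, nat_lit 4, nat_lit 4, nat_lit 0x45⟩ (.nil) (.nil)
def t14_6124 : Tr := .node ⟨nat_lit 2, nat_lit 0, nat_lit 0x11, nat_lit 0xa, nat_lit 4, nat_lit 0x45⟩ (.nil) (.nil)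
def t14_14316 : Tr := .node ⟨nat_lit 7, nat_lit 0x400020002800500070, nat_lit 0x1103, nat_lit 1, nat_lit 4, nat_lit 0x44⟩ (.nil) (.nil)
def t14_4076 : Tr := .node ⟨nat_lit 7, nat_lit 0x40001000100060, nat_lit 0x110202, nat_lit 0, nat_lit 4, nat_lit 0x48⟩ (.nil) (.nil)
def t14_12268 : Tr := .node ⟨nat_lit 8, nat_lit 0x20008000c000c000c8, nat_lit 0x1301, nat_lit 3, nat_lit 4, nat_lit 0x47⟩ (.nil) (.nil)
def t14_8172 : Tr := .node ⟨nat_lit 6, nat_lit 0x2000100010, nat_lit 0x200, nat_lit 1, nat_lit 4, nat_lit 0x46⟩ (.nil) (.nil)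
def t9_492 : Tr := .node ⟨nat_lit 3, nat_lit 4, nat_lit 0x133, nat_lit 9, nat_lit 4, nat_lit 0x48⟩ (.node ⟨nat_lit 5, nat_lit 0x1000140014, nat_lit 0x31022, nat_lit 4, nat_lit 4, nat_lit 0x48⟩ (.node ⟨nat_lit 6, nat_lit 0x100020, nat_lit 0x211112, nat_lit 1, nat_lit 4, nat_lit 0x4a⟩ (.node ⟨nat_lit 3, nat_lit 4, nat_lit 0x21, nat_lit 0xd, nat_lit 4, nat_lit 0x47⟩ (.node ⟨nat_lit 7, nat_lit 0x400040004000200050, nat_lit 0x211111, nat_lit 4, nat_lit 4, nat_lit 0x49⟩ (t14_492) (t14_8684)) (.node ⟨nat_lit 6, nat_lit 0x280030, nat_lit 0x112121, nat_lit 3, nat_lit 4, nat_lit 0x49⟩ (t14_4588) (t14_12780))) (.node ⟨nat_lit 7, nat_lit 0x400040002000500060, nat_lit 0x100202, nat_lit 2, nat_lit 4, nat_lit 0x47⟩ (.node ⟨nat_lit 7, nat_lit 0x40004000200020, nat_lit 0x1111131, nat_lit 0, nat_lit 4, nat_lit 0x4a⟩ (t14_2540) (t14_10732)) (.node ⟨nat_lit 6, nat_lit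 0x3000300028, nat_lit 0x12202, nat_lit 3, nat_lit 4, nat_lit 0x47⟩ (t14_6636) (t14_14828)))) (.node ⟨nat_lit 6, nat_lit 0x2000080030, nat_lit 0x112111, nat_lit 1, nat_lit 4, nat_lit 0x48⟩ (.node ⟨nat_lit 6, nat_lit 0x2000080030, nat_lit 0x12130, nat_lit 0, nat_lit 4, nat_lit 0x48⟩ (.node ⟨nat_lit 6, nat_lit 0x20001000280030, nat_lit 0x103121, nat_lit 3, nat_lit 4, nat_lit 0x48⟩ (t14_1516) (t14_9708)) (.node ⟨nat_lit 7, nat_lit 0x40002000100060, nat_lit 0x1110211, nat_lit 0, nat_lit 3, nat_lit 0x47⟩ (t14_5612) (t14_13804))) (.node ⟨nat_lit 8, nat_lit 0x80008000200040, nat_lit 0x1120001, nat_lit 0, nat_lit 4, nat_lit 0x4a⟩ (.node ⟨nat_lit 6, nat_lit 0x800200030, nat_lit 0x10001, nat_lit 0, nat_lit 4, nat_lit 0x45⟩ (t14_3564) (t14_11756)) (.node ⟨nat_lit 7, nat_lit 0x10004000400060, nat_lit 0x1010210, nat_lit 0, nat_lit 3, nat_lit 0x47⟩ (t14_7660)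 (.nil))))) (.node ⟨nat_lit 6, nat_lit 0x2000200034, nat_lit 0x3202, nat_lit 3, nat_lit 4, nat_lit 0x48⟩ (.node ⟨nat_lit 3, nat_lit 0, nat_lit 0x222, nat_lit 0xa, nat_lit 4, nat_lit 0x49⟩ (.node ⟨nat_lit 7, nat_lit 0x40, nat_lit 0x2111110, nat_lit 1, nat_lit 4, nat_lit 0x4c⟩ (.node ⟨nat_lit 2, nat_lit 2, nat_lit 0x13, nat_lit 0xf, nat_lit 4, nat_lit 0x46⟩ (t14_1004) (t14_9196)) (.node ⟨nat_lit 7, nat_lit 0x4000400040, nat_lit 0x222110, nat_lit 1, nat_lit 4, nat_lit 0x4b⟩ (t14_5100) (t14_13292))) (.node ⟨nat_lit 5, nat_lit 0x100018, nat_lit 0x10130, nat_lit 2, nat_lit 3, nat_lit 0x46⟩ (.node ⟨nat_lit 7, nat_lit 0x4000640064, nat_lit 0x2011211, nat_lit 1, nat_lit 4, nat_lit 0x49⟩ (t14_3052) (t14_11244)) (.node ⟨nat_lit 7, nat_lit 0x5000600060, nat_lit 0x101022, nat_lit 0, nat_lit 4, nat_lit 0x47⟩ (t14_7148) (t14_15340)))) (.node ⟨nat_lit 5, nat_lit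 0x800100010, nat_lit 0x11200, nat_lit 0, nat_lit 3, nat_lit 0x45⟩ (.node ⟨nat_lit 7, nat_lit 0x800500060, nat_lit 0x1121111, nat_lit 0, nat_lit 4, nat_lit 0x49⟩ (.node ⟨nat_lit 7, nat_lit 0x4000200020, nat_lit 0x121032, nat_lit 0, nat_lit 4, nat_lit 0x4b⟩ (t14_2028) (t14_10220)) (.node ⟨nat_lit 7, nat_lit 0x3000500060, nat_lit 0x1112002, nat_lit 0, nat_lit 4, nat_lit 0x48⟩ (t14_6124) (t14_14316))) (.node ⟨nat_lit 5, nat_lit 0x1c, nat_lit 0x22213, nat_lit 1, nat_lit 4, nat_lit 0x49⟩ (.node ⟨nat_lit 6, nat_lit 0x800300030, nat_lit 0x100011, nat_lit 0, nat_lit 4, nat_lit 0x45⟩ (t14_4076) (t14_12268)) (.node ⟨nat_lit 5, nat_lit 0x1000180018, nat_lit 0x11210, nat_lit 2, nat_lit 3, nat_lit 0x45⟩ (t14_8172) (.nil)))))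
def t14_28 : Tr := .node ⟨nat_lit 7, nat_lit 0x4000100060, nat_lit 0x112110, nat_lit 1, nat_lit 4, nat_lit 0x49⟩ (.nil) (.nil)
def t14_8220 : Tr := .node ⟨nat_lit 8, nat_lit 0x8000400040009000d0, nat_lit 0x11113, nat_lit 0, nat_lit 4, nat_lit 0x47⟩ (.nil) (.nil)
def t14_4124 : Tr := .node ⟨nat_lit 8, nat_lit 0x80004000880088, nat_lit 0x1111021, nat_lit 1, nat_lit 4, nat_lit 0x49⟩ (.nil) (.nil)
def t14_12316 : Tr := .node ⟨nat_lit 7, nat_lit 0x50003000600070, nat_lit 0x1013, nat_lit 1, nat_lit 4, nat_lit 0x44⟩ (.nil) (.nil)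
def t14_2076 : Tr := .node ⟨nat_lit 6, nat_lit 0x10002000200034, nat_lit 0x12031, nat_lit 3, nat_lit 4, nat_lit 0x47⟩ (.nil) (.nil)
def t14_10268 : Tr := .node ⟨nat_lit 7, nat_lit 0x20001000400060, nat_lit 0x101200, nat_lit 0, nat_lit 4, nat_lit 0x47⟩ (.nil) (.nil)
def t14_6172 : Tr := .node ⟨nat_lit 2, nat_lit 2, nat_lit 0x11, nat_lit 0xc, nat_lit 4, nat_lit 0x45⟩ (.nil) (.nil)
def t14_14364 : Tr := .node ⟨nat_lit 7, nat_lit 0x40001000100060, nat_lit 0x1210, nat_lit 1, nat_lit 4, nat_lit 0x47⟩ (.nil) (.nil)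
def t14_1052 : Tr := .node ⟨nat_lit 7, nat_lit 0x400060, nat_lit 0x11121, nat_lit 0, nat_lit 4, nat_lit 0x49⟩ (.nil) (.nil)
def t14_9244 : Tr := .node ⟨nat_lit 7, nat_lit 0x10004000200060, nat_lit 0x1000121, nat_lit 0, nat_lit 3, nat_lit 0x46⟩ (.nil) (.nil)
def t14_5148 : Tr := .node ⟨nat_lit 7, nat_lit 0x20003000600050, nat_lit 0x11131, nat_lit 0, nat_lit 4, nat_lit 0x46⟩ (.nil) (.nil)
def t14_13340 : Tr := .node ⟨nat_lit 7, nat_lit 0x1800680070, nat_lit 0x32, nat_lit 0, nat_lit 4, nat_lit 0x44⟩ (.nil) (.nil)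
def t14_3100 : Tr := .node ⟨nat_lit 7, nat_lit 0x400040002000200064, nat_lit 0x1010121, nat_lit 0, nat_lit 4, nat_lit 0x47⟩ (.nil) (.nil)
def t14_11292 : Tr := .node ⟨nat_lit 7, nat_lit 0x40001000600068, nat_lit 0x112102, nat_lit 0, nat_lit 4, nat_lit 0x47⟩ (.nil) (.nil)
def t14_7196 : Tr := .node ⟨nat_lit 7, nat_lit 0x20006000600050, nat_lit 0x22101, nat_lit 1, nat_lit 4, nat_lit 0x47⟩ (.nil) (.nil)
def t14_15388 : Tr := .node ⟨nat_lit 0xb, nat_lit 0x200020001000100008000800400, nat_lit 0x10001010101, nat_lit 0, nat_lit 4, nat_lit 0x4b⟩ (.nil) (.nil)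
def t14_540 : Tr := .node ⟨nat_lit 6, nat_lit 0x10002000200030, nat_lit 0x2002, nat_lit 3, nat_lit 4, nat_lit 0x46⟩ (.nil) (.nil)
def t14_8732 : Tr := .node ⟨nat_lit 8, nat_lit 0x800020008800c0, nat_lit 0x11010, nat_lit 2, nat_lit 4, nat_lit 0x48⟩ (.nil) (.nil)
def t14_4636 : Tr := .node ⟨nat_lit 6, nat_lit 0x2000100024, nat_lit 0x111020, nat_lit 0, nat_lit 4, nat_lit 0x47⟩ (.nil) (.nil)
def t14_12828 : Tr := .node ⟨nat_lit 8, nat_lit 0x800080004000a000c000e0, nat_lit 0x2002, nat_lit 1, nat_lit 4, nat_lit 0x46⟩ (.nil) (.nil)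
def t14_2588 : Tr := .node ⟨nat_lit 4, nat_lit 0x80008, nat_lit 0x1100, nat_lit 3, nat_lit 4, nat_lit 0x45⟩ (.nil) (.nil)
def t14_10780 : Tr := .node ⟨nat_lit 7, nat_lit 0x40004000200020, nat_lit 0x121011, nat_lit 4, nat_lit 3, nat_lit 0x48⟩ (.nil) (.nil)
def t14_6684 : Tr := .node ⟨nat_lit 4, nat_lit 8, nat_lit 0x1111, nat_lit 0xc, nat_lit 4, nat_lit 0x49⟩ (.nil) (.nil)
def t14_14876 : Tr := .node ⟨nat_lit 8, nat_lit 0x8000200040, nat_lit 0x2111002, nat_lit 0, nat_lit 3, nat_lit 0x4a⟩ (.nil) (.nil)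
def t14_1564 : Tr := .node ⟨nat_lit 7, nat_lit 0x40002000500060, nat_lit 0x12202, nat_lit 1, nat_lit 4, nat_lit 0x47⟩ (.nil) (.nil)
def t14_9756 : Tr := .node ⟨nat_lit 6, nat_lit 0x2000100024, nat_lit 0x1122, nat_lit 0, nat_lit 4, nat_lit 0x46⟩ (.nil) (.nil)
def t14_5660 : Tr := .node ⟨nat_lit 7, nat_lit 0x20004000400040, nat_lit 0x12100, nat_lit 1, nat_lit 4, nat_lit 0x48⟩ (.nil) (.nil)
def t14_13852 : Tr := .node ⟨nat_lit 7, nat_lit 0x40001000680068, nat_lit 0x12020, nat_lit 1, nat_lit 4, nat_lit 0x46⟩ (.nil) (.nil)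
def t14_3612 : Tr := .node ⟨nat_lit 6, nat_lit 0x2000200010, nat_lit 0x110201, nat_lit 0, nat_lit 3, nat_lit 0x47⟩ (.nil) (.nil)
def t14_11804 : Tr := .node ⟨nat_lit 7, nat_lit 0x400040002000240050, nat_lit 0x111030, nat_lit 0, nat_lit 4, nat_lit 0x46⟩ (.nil) (.nil)
def t14_7708 : Tr := .node ⟨nat_lit 6, nat_lit 0x300028, nat_lit 0x112, nat_lit 2, nat_lit 4, nat_lit 0x46⟩ (.nil) (.nil)
def t9_28 : Tr := .node ⟨nat_lit 5, nat_lit 0x18, nat_lit 0x32211, nat_lit 0, nat_lit 4, nat_lit 0x4a⟩ (.node ⟨nat_lit 5, nat_lit 0x80010, nat_lit 0x32221, nat_lit 1, nat_lit 4, nat_lit 0x4a⟩ (.node ⟨nat_lit 3, nat_lit 4, nat_lit 0x32, nat_lit 6, nat_lit 4, nat_lit 0x46⟩ (.node ⟨nat_lit 7, nat_lit 0x400060, nat_lit 0x1021111, nat_lit 0, nat_lit 4, nat_lit 0x4a⟩ (.node ⟨nat_lit 6, nat_lit 0x2000200010, nat_lit 0x20303, nat_lit 0, nat_lit 4, nat_lit 0x49⟩ (t14_28)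 (t14_8220)) (.node ⟨nat_lit 7, nat_lit 0x40001000100020, nat_lit 0x10000, nat_lit 1, nat_lit 4, nat_lit 0x47⟩ (t14_4124) (t14_12316))) (.node ⟨nat_lit 5, nat_lit 0x40018, nat_lit 0x31212, nat_lit 2, nat_lit 4, nat_lit 0x49⟩ (.node ⟨nat_lit 7, nat_lit 0x400040002000200050, nat_lit 0x100310, nat_lit 7, nat_lit 4, nat_lit 0x49⟩ (t14_2076) (t14_10268)) (.node ⟨nat_lit 8, nat_lit 0x1000a000a000c0, nat_lit 0x2010102, nat_lit 0, nat_lit 4, nat_lit 0x48⟩ (t14_6172) (t14_14364)))) (.node ⟨nat_lit 6, nat_lit 0x1000200034, nat_lit 0x21230, nat_lit 1, nat_lit 4, nat_lit 0x48⟩ (.node ⟨nat_lit 6, nat_lit 0x1000200020, nat_lit 0x221111, nat_lit 1, nat_lit 4, nat_lit 0x4a⟩ (.node ⟨nat_lit 6, nat_lit 0x280030, nat_lit 0x111111, nat_lit 0, nat_lit 4, nat_lit 0x47⟩ (t14_1052) (t14_9244)) (.node ⟨nat_lit 7, nat_lit 0x20002000400040, nat_lit 0x1110021, nat_lit 1,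 nat_lit 3, nat_lit 0x48⟩ (t14_5148) (t14_13340))) (.node ⟨nat_lit 6, nat_lit 0x200020, nat_lit 0x111120, nat_lit 3, nat_lit 4, nat_lit 0x4a⟩ (.node ⟨nat_lit 8, nat_lit 0x200040008000e0, nat_lit 0x1110103, nat_lit 0, nat_lit 4, nat_lit 0x49⟩ (t14_3100) (t14_11292)) (.node ⟨nat_lit 9, nat_lit 0x100008000400040, nat_lit 0x1110022, nat_lit 0, nat_lit 4, nat_lit 0x4c⟩ (t14_7196) (t14_15388))))) (.node ⟨nat_lit 7, nat_lit 0x100060, nat_lit 0x1113101, nat_lit 1, nat_lit 4, nat_lit 0x4b⟩ (.node ⟨nat_lit 5, nat_lit 0x10, nat_lit 0x12211, nat_lit 5, nat_lit 4, nat_lit 0x4a⟩ (.node ⟨nat_lit 4, nat_lit 0x40008, nat_lit 0x22, nat_lit 3, nat_lit 4, nat_lit 0x44⟩ (.node ⟨nat_lit 8, nat_lit 0x400040002000800082, nat_lit 0x10210100, nat_lit 5, nat_lit 4, nat_lit 0x4a⟩ (t14_540) (t14_8732)) (.node ⟨nat_lit 6, nat_lit 0x10002000200034, nat_lit 0x110112, nat_lit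 7, nat_lit 4, nat_lit 0x48⟩ (t14_4636) (t14_12828))) (.node ⟨nat_lit 5, nat_lit 0x10001a, nat_lit 0x1101, nat_lit 1, nat_lit 4, nat_lit 0x44⟩ (.node ⟨nat_lit 5, nat_lit 0x800100018, nat_lit 0x11320, nat_lit 5, nat_lit 4, nat_lit 0x48⟩ (t14_2588) (t14_10780)) (.node ⟨nat_lit 8, nat_lit 0x80008000c0, nat_lit 0x211210, nat_lit 1, nat_lit 4, nat_lit 0x4b⟩ (t14_6684) (t14_14876)))) (.node ⟨nat_lit 6, nat_lit 0x2000100024, nat_lit 0x121112, nat_lit 0, nat_lit 4, nat_lit 0x48⟩ (.node ⟨nat_lit 6, nat_lit 0x2000080034, nat_lit 0x231011, nat_lit 2, nat_lit 4, nat_lit 0x49⟩ (.node ⟨nat_lit 8, nat_lit 0x8000200020009000c0, nat_lit 0x10031011, nat_lit 1, nat_lit 4, nat_lit 0x49⟩ (t14_1564) (t14_9756)) (.node ⟨nat_lit 8, nat_lit 0x20001000c000c0, nat_lit 0x10111021, nat_lit 1, nat_lit 4, nat_lit 0x49⟩ (t14_5660) (t14_13852))) (.node ⟨nat_lit 6, nat_lit 0x1000280030,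 nat_lit 0x2031, nat_lit 0, nat_lit 4, nat_lit 0x46⟩ (.node ⟨nat_lit 5, nat_lit 0x140018, nat_lit 0x1100, nat_lit 1, nat_lit 4, nat_lit 0x44⟩ (t14_3612) (t14_11804)) (.node ⟨nat_lit 6, nat_lit 0x2000100008, nat_lit 0x101320, nat_lit 1, nat_lit 4, nat_lit 0x48⟩ (t14_7708) (.nil)))))
def t14_284 : Tr := .node ⟨nat_lit 6, nat_lit 0x1000280030, nat_lit 0x201211, nat_lit 1, nat_lit 4, nat_lit 0x47⟩ (.nil) (.nil)
def t14_8476 : Tr := .node ⟨nat_lit 7, nat_lit 0x20003000500068, nat_lit 0x2101, nat_lit 0, nat_lit 4, nat_lit 0x45⟩ (.nil) (.nil)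
def t14_4380 : Tr := .node ⟨nat_lit 8, nat_lit 0x8000400020009000c0, nat_lit 0x10100002, nat_lit 1, nat_lit 4, nat_lit 0x48⟩ (.nil) (.nil)
def t14_12572 : Tr := .node ⟨nat_lit 8, nat_lit 0x80002000a000d000e0, nat_lit 0x1001003, nat_lit 1, nat_lit 4, nat_lit 0x46⟩ (.nil) (.nil)
def t14_2332 : Tr := .node ⟨nat_lit 6, nat_lit 0x10002000340034, nat_lit 0x203110, nat_lit 4, nat_lit 4, nat_lit 0x47⟩ (.nil) (.nil)
def t14_10524 : Tr := .node ⟨nat_lit 7, nat_lit 0x20005000600060, nat_lit 0x22, nat_lit 2, nat_lit 4, nat_lit 0x46⟩ (.nil) (.nil)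
def t14_6428 : Tr := .node ⟨nat_lit 7, nat_lit 0x400040002000200050, nat_lit 0x1011101, nat_lit 4, nat_lit 4, nat_lit 0x48⟩ (.nil) (.nil)
def t14_14620 : Tr := .node ⟨nat_lit 7, nat_lit 0x40004800300060, nat_lit 0x101101, nat_lit 0, nat_lit 4, nat_lit 0x46⟩ (.nil) (.nil)
def t14_1308 : Tr := .node ⟨nat_lit 7, nat_lit 0x1000600060, nat_lit 0x1001111, nat_lit 0, nat_lit 4, nat_lit 0x47⟩ (.nil) (.nil)
def t14_9500 : Tr := .node ⟨nat_lit 0xa, nat_lit 0x8002000200010000c002200300, nat_lit 0x10120011, nat_lit 1, nat_lit 4, nat_lit 0x49⟩ (.nil) (.nil)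
def t14_5404 : Tr := .node ⟨nat_lit 5, nat_lit 0x100018, nat_lit 0x1142, nat_lit 5, nat_lit 4, nat_lit 0x48⟩ (.nil) (.nil)
def t14_13596 : Tr := .node ⟨nat_lit 4, nat_lit 0x8000c, nat_lit 2, nat_lit 0xb, nat_lit 4, nat_lit 0x46⟩ (.nil) (.nil)
def t14_3356 : Tr := .node ⟨nat_lit 6, nat_lit 0x10001000200030, nat_lit 0x102001, nat_lit 3, nat_lit 4, nat_lit 0x47⟩ (.nil) (.nil)
def t14_11548 : Tr := .node ⟨nat_lit 6, nat_lit 0x3000300030, nat_lit 0x101210, nat_lit 5, nat_lit 4, nat_lit 0x47⟩ (.nil) (.nil)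
def t14_7452 : Tr := .node ⟨nat_lit 6, nat_lit 0x800300030, nat_lit 0x111111, nat_lit 1, nat_lit 4, nat_lit 0x47⟩ (.nil) (.nil)
def t14_796 : Tr := .node ⟨nat_lit 8, nat_lit 0x8000800040004000a00090, nat_lit 0x10103110, nat_lit 0, nat_lit 4, nat_lit 0x48⟩ (.nil) (.nil)
def t14_8988 : Tr := .node ⟨nat_lit 8, nat_lit 0x800080004000a0009000c0, nat_lit 0x1110003, nat_lit 1, nat_lit 4, nat_lit 0x48⟩ (.nil) (.nil)
def t14_4892 : Tr := .node ⟨nat_lit 8, nat_lit 0x8000c0, nat_lit 0x11111101, nat_lit 1, nat_lit 4, nat_lit 0x4c⟩ (.nil) (.nil)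
def t14_13084 : Tr := .node ⟨nat_lit 7, nat_lit 0x400020002000500068, nat_lit 0x22000, nat_lit 5, nat_lit 4, nat_lit 0x47⟩ (.nil) (.nil)
def t14_2844 : Tr := .node ⟨nat_lit 7, nat_lit 0x40001000600060, nat_lit 0x12120, nat_lit 0, nat_lit 4, nat_lit 0x47⟩ (.nil) (.nil)
def t14_11036 : Tr := .node ⟨nat_lit 5, nat_lit 0x1000080008, nat_lit 0x1020, nat_lit 6, nat_lit 3, nat_lit 0x46⟩ (.nil) (.nil)
def t14_6940 : Tr := .node ⟨nat_lit 7, nat_lit 0x800500060, nat_lit 0x1020012, nat_lit 1, nat_lit 4, nat_lit 0x48⟩ (.nil) (.nil)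
def t14_15132 : Tr := .node ⟨nat_lit 9, nat_lit 0x1000100008000800120019001c0, nat_lit 0x1120001, nat_lit 1, nat_lit 4, nat_lit 0x47⟩ (.nil) (.nil)
def t14_1820 : Tr := .node ⟨nat_lit 8, nat_lit 0x1000c000a0, nat_lit 0x10201002, nat_lit 0, nat_lit 4, nat_lit 0x4a⟩ (.nil) (.nil)
def t14_10012 : Tr := .node ⟨nat_lit 4, nat_lit 0x800080008, nat_lit 0x1220, nat_lit 8, nat_lit 3, nat_lit 0x46⟩ (.nil) (.nil)
def t14_5916 : Tr := .node ⟨nat_lit 7, nat_lit 0x4000400060, nat_lit 0x111210, nat_lit 5, nat_lit 4, nat_lit 0x4a⟩ (.nil) (.nil)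
def t14_14108 : Tr := .node ⟨nat_lit 6, nat_lit 0x10001000100020, nat_lit 0x2001, nat_lit 4, nat_lit 4, nat_lit 0x47⟩ (.nil) (.nil)
def t14_3868 : Tr := .node ⟨nat_lit 8, nat_lit 0x80002000c000a0, nat_lit 0x112002, nat_lit 1, nat_lit 4, nat_lit 0x49⟩ (.nil) (.nil)
def t14_12060 : Tr := .node ⟨nat_lit 6, nat_lit 0x1000200030, nat_lit 0x12030, nat_lit 0, nat_lit 4, nat_lit 0x48⟩ (.nil) (.nil)
def t14_7964 : Tr := .node ⟨nat_lit 8, nat_lit 0x80008000880088, nat_lit 0x1111121, nat_lit 1, nat_lit 4, nat_lit 0x4a⟩ (.nil) (.nil)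
def t9_284 : Tr := .node ⟨nat_lit 5, nat_lit 0, nat_lit 0x32000, nat_lit 0, nat_lit 4, nat_lit 0x49⟩ (.node ⟨nat_lit 4, nat_lit 0x8000a, nat_lit 0x3212, nat_lit 4, nat_lit 4, nat_lit 0x48⟩ (.node ⟨nat_lit 7, nat_lit 0x10002000500064, nat_lit 0x1300112, nat_lit 0, nat_lit 4, nat_lit 0x48⟩ (.node ⟨nat_lit 4, nat_lit 8, nat_lit 0x1223, nat_lit 6, nat_lit 4, nat_lit 0x49⟩ (.node ⟨nat_lit 4, nat_lit 0x80008, nat_lit 0x2121, nat_lit 5, nat_lit 4, nat_lit 0x48⟩ (t14_284) (t14_8476)) (.node ⟨nat_lit 6, nat_lit 0x300030, nat_lit 0x102011, nat_lit 0, nat_lit 4, nat_lit 0x47⟩ (t14_4380) (t14_12572))) (.node ⟨nat_lit 6, nat_lit 0x800200030, nat_lit 0x200012, nat_lit 0, nat_lit 3, nat_lit 0x46⟩ (.node ⟨nat_lit 6, nat_lit 0x1800280030, nat_lit 0x10212, nat_lit 1, nat_lit 4, nat_lit 0x45⟩ (t14_2332) (t14_10524)) (.node ⟨nat_lit 5, nat_lit 0x80010, nat_lit 0x20120,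 nat_lit 5, nat_lit 4, nat_lit 0x48⟩ (t14_6428) (t14_14620)))) (.node ⟨nat_lit 7, nat_lit 0x10002000400064, nat_lit 0x1200121, nat_lit 0, nat_lit 4, nat_lit 0x48⟩ (.node ⟨nat_lit 6, nat_lit 0x800100020, nat_lit 0x122131, nat_lit 0, nat_lit 4, nat_lit 0x4a⟩ (.node ⟨nat_lit 7, nat_lit 0x40002000100048, nat_lit 0x1111003, nat_lit 0, nat_lit 4, nat_lit 0x48⟩ (t14_1308) (t14_9500)) (.node ⟨nat_lit 6, nat_lit 0x2000100030, nat_lit 0x12222, nat_lit 1, nat_lit 4, nat_lit 0x48⟩ (t14_5404) (t14_13596))) (.node ⟨nat_lit 5, nat_lit 0x100008, nat_lit 0x1230, nat_lit 4, nat_lit 4, nat_lit 0x48⟩ (.node ⟨nat_lit 5, nat_lit 0x100008001c, nat_lit 0x21230, nat_lit 4, nat_lit 4, nat_lit 0x48⟩ (t14_3356) (t14_11548)) (.node ⟨nat_lit 6, nat_lit 0x2000300034, nat_lit 0x111121, nat_lit 5, nat_lit 4, nat_lit 0x48⟩ (t14_7452) (.nil))))) (.node ⟨nat_lit 5, nat_lit 0x18,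 nat_lit 0x10321, nat_lit 2, nat_lit 3, nat_lit 0x48⟩ (.node ⟨nat_lit 6, nat_lit 0x280030, nat_lit 0x120102, nat_lit 1, nat_lit 4, nat_lit 0x48⟩ (.node ⟨nat_lit 5, nat_lit 0x40018, nat_lit 0x111, nat_lit 0, nat_lit 4, nat_lit 0x44⟩ (.node ⟨nat_lit 6, nat_lit 0x2000080030, nat_lit 0x32220, nat_lit 0, nat_lit 4, nat_lit 0x49⟩ (t14_796) (t14_8988)) (.node ⟨nat_lit 8, nat_lit 0x40008000800060008800d0, nat_lit 0x11121101, nat_lit 1, nat_lit 4, nat_lit 0x48⟩ (t14_4892) (t14_13084))) (.node ⟨nat_lit 5, nat_lit 0x100008001a, nat_lit 0x1110, nat_lit 4, nat_lit 4, nat_lit 0x45⟩ (.node ⟨nat_lit 7, nat_lit 0x4000500060, nat_lit 0x121130, nat_lit 1, nat_lit 4, nat_lit 0x49⟩ (t14_2844) (t14_11036)) (.node ⟨nat_lit 9, nat_lit 0x10001000080012001200180, nat_lit 0x11002102, nat_lit 0, nat_lit 4, nat_lit 0x49⟩ (t14_6940) (t14_15132)))) (.node ⟨nat_lit 6, nat_lit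 0x2000100010, nat_lit 0x111021, nat_lit 3, nat_lit 4, nat_lit 0x49⟩ (.node ⟨nat_lit 7, nat_lit 0x40004000480060, nat_lit 0x211111, nat_lit 3, nat_lit 4, nat_lit 0x49⟩ (.node ⟨nat_lit 7, nat_lit 0x20002000400070, nat_lit 0x11103, nat_lit 2, nat_lit 4, nat_lit 0x47⟩ (t14_1820) (t14_10012)) (.node ⟨nat_lit 7, nat_lit 0x20003000600050, nat_lit 0x1012112, nat_lit 0, nat_lit 4, nat_lit 0x47⟩ (t14_5916) (t14_14108))) (.node ⟨nat_lit 6, nat_lit 0x80030, nat_lit 0x200122, nat_lit 1, nat_lit 4, nat_lit 0x48⟩ (.node ⟨nat_lit 6, nat_lit 0x300038, nat_lit 0x201103, nat_lit 0, nat_lit 4, nat_lit 0x47⟩ (t14_3868) (t14_12060)) (.node ⟨nat_lit 7, nat_lit 0x40001000100060, nat_lit 0x1102100, nat_lit 1, nat_lit 4, nat_lit 0x48⟩ (t14_7964) (.nil)))))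
def t14_156 : Tr := .node ⟨nat_lit 7, nat_lit 0x4000100060, nat_lit 0x112101, nat_lit 1, nat_lit 4, nat_lit 0x49⟩ (.nil) (.nil)
def t14_8348 : Tr := .node ⟨nat_lit 6, nat_lit 0x300028, nat_lit 0x102, nat_lit 2, nat_lit 4, nat_lit 0x46⟩ (.nil) (.nil)
def t14_4252 : Tr := .node ⟨nat_lit 7, nat_lit 0x4000400020, nat_lit 0x210112, nat_lit 0, nat_lit 4, nat_lit 0x4a⟩ (.nil) (.nil)
def t14_12444 : Tr := .node ⟨nat_lit 6, nat_lit 0x1000280030, nat_lit 0x1113, nat_lit 2, nat_lit 4, nat_lit 0x46⟩ (.nil) (.nil)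
def t14_2204 : Tr := .node ⟨nat_lit 8, nat_lit 0x400040008000200084, nat_lit 0x100202, nat_lit 1, nat_lit 4, nat_lit 0x48⟩ (.nil) (.nil)
def t14_10396 : Tr := .node ⟨nat_lit 7, nat_lit 0x40002000480048, nat_lit 0x1010300, nat_lit 0, nat_lit 4, nat_lit 0x47⟩ (.nil) (.nil)
def t14_6300 : Tr := .node ⟨nat_lit 6, nat_lit 0x2000300030, nat_lit 0x1210, nat_lit 5, nat_lit 4, nat_lit 0x47⟩ (.nil) (.nil)
def t14_14492 : Tr := .node ⟨nat_lit 8, nat_lit 0x20008000a000c0, nat_lit 0x11121, nat_lit 0, nat_lit 4, nat_lit 0x48⟩ (.nil) (.nil)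
def t14_1180 : Tr := .node ⟨nat_lit 7, nat_lit 0x4000180064, nat_lit 0x1100110, nat_lit 1, nat_lit 4, nat_lit 0x47⟩ (.nil) (.nil)
def t14_9372 : Tr := .node ⟨nat_lit 8, nat_lit 0x800020009000c000a0, nat_lit 0x122012, nat_lit 0, nat_lit 4, nat_lit 0x48⟩ (.nil) (.nil)
def t14_5276 : Tr := .node ⟨nat_lit 6, nat_lit 0x200030, nat_lit 0x121120, nat_lit 2, nat_lit 4, nat_lit 0x4a⟩ (.nil) (.nil)
def t14_13468 : Tr := .node ⟨nat_lit 8, nat_lit 0x200080001000c0, nat_lit 0x10310, nat_lit 1, nat_lit 4, nat_lit 0x49⟩ (.nil) (.nil)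
def t14_3228 : Tr := .node ⟨nat_lit 7, nat_lit 0x40003000500068, nat_lit 0x2101201, nat_lit 0, nat_lit 4, nat_lit 0x47⟩ (.nil) (.nil)
def t14_11420 : Tr := .node ⟨nat_lit 7, nat_lit 0x20004000400064, nat_lit 0x1021010, nat_lit 1, nat_lit 4, nat_lit 0x48⟩ (.nil) (.nil)
def t14_7324 : Tr := .node ⟨nat_lit 8, nat_lit 0x800080008000400040, nat_lit 0x1220011, nat_lit 0, nat_lit 4, nat_lit 0x4a⟩ (.nil) (.nil)
def t14_15516 : Tr := .node ⟨nat_lit 7, nat_lit 0x20003000500068, nat_lit 0x102100, nat_lit 0, nat_lit 4, nat_lit 0x46⟩ (.nil) (.nil)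
def t14_668 : Tr := .node ⟨nat_lit 6, nat_lit 0x200020, nat_lit 0x11131, nat_lit 0, nat_lit 4, nat_lit 0x49⟩ (.nil) (.nil)
def t14_8860 : Tr := .node ⟨nat_lit 8, nat_lit 0x4000400080008800600060, nat_lit 0x10100021, nat_lit 5, nat_lit 4, nat_lit 0x48⟩ (.nil) (.nil)
def t14_4764 : Tr := .node ⟨nat_lit 8, nat_lit 0x800020002000c000d0, nat_lit 0x1020021, nat_lit 0, nat_lit 4, nat_lit 0x47⟩ (.nil) (.nil)
def t14_12956 : Tr := .node ⟨nat_lit 7, nat_lit 0x1000400060, nat_lit 0x101020, nat_lit 4, nat_lit 4, nat_lit 0x49⟩ (.nil) (.nil)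
def t14_2716 : Tr := .node ⟨nat_lit 7, nat_lit 0x3000480070, nat_lit 0x101013, nat_lit 0, nat_lit 4, nat_lit 0x46⟩ (.nil) (.nil)
def t14_10908 : Tr := .node ⟨nat_lit 7, nat_lit 0x40002000500064, nat_lit 0x102202, nat_lit 1, nat_lit 4, nat_lit 0x47⟩ (.nil) (.nil)
def t14_6812 : Tr := .node ⟨nat_lit 7, nat_lit 0x100060, nat_lit 0x2011100, nat_lit 1, nat_lit 4, nat_lit 0x4a⟩ (.nil) (.nil)
def t14_15004 : Tr := .node ⟨nat_lit 6, nat_lit 0x20001000100028, nat_lit 0x1111, nat_lit 1, nat_lit 4, nat_lit 0x45⟩ (.nil) (.nil)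
def t14_1692 : Tr := .node ⟨nat_lit 7, nat_lit 0x40003000500068, nat_lit 0x111202, nat_lit 0, nat_lit 4, nat_lit 0x46⟩ (.nil) (.nil)
def t14_9884 : Tr := .node ⟨nat_lit 7, nat_lit 0x200020002000400042, nat_lit 0x1032200, nat_lit 1, nat_lit 4, nat_lit 0x49⟩ (.nil) (.nil)
def t14_5788 : Tr := .node ⟨nat_lit 6, nat_lit 0x280030, nat_lit 0x11121, nat_lit 5, nat_lit 4, nat_lit 0x48⟩ (.nil) (.nil)
def t14_13980 : Tr := .node ⟨nat_lit 7, nat_lit 0x4000640064, nat_lit 0x11210, nat_lit 1, nat_lit 4, nat_lit 0x47⟩ (.nil) (.nil)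
def t14_3740 : Tr := .node ⟨nat_lit 0xa, nat_lit 0x20001000080008000800040, nat_lit 0x1002100, nat_lit 1, nat_lit 4, nat_lit 0x4b⟩ (.nil) (.nil)
def t14_11932 : Tr := .node ⟨nat_lit 4, nat_lit 0x8000c, nat_lit 0x2003, nat_lit 5, nat_lit 3, nat_lit 0x45⟩ (.nil) (.nil)
def t14_7836 : Tr := .node ⟨nat_lit 4, nat_lit 0x8000a, nat_lit 0x123, nat_lit 0xa, nat_lit 4, nat_lit 0x47⟩ (.nil) (.nil)
def t9_156 : Tr := .node ⟨nat_lit 2, nat_lit 0, nat_lit 0x31, nat_lit 0x11, nat_lit 4, nat_lit 0x48⟩ (.node ⟨nat_lit 5, nat_lit 0x140018, nat_lit 0x13121, nat_lit 5, nat_lit 4, nat_lit 0x48⟩ (.node ⟨nat_lit 7, nat_lit 0x4000500060, nat_lit 0x3120, nat_lit 1, nat_lit 4, nat_lit 0x48⟩ (.node ⟨nat_lit 4, nat_lit 0xe, nat_lit 0x2103, nat_lit 8, nat_lit 4, nat_lit 0x47⟩ (.node ⟨nat_lit 7, nat_lit 0x40004800300030, nat_lit 0x2002020, nat_lit 0, nat_lit 4, nat_lit 0x47⟩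 (t14_156) (t14_8348)) (.node ⟨nat_lit 7, nat_lit 0x40002000600070, nat_lit 0x110023, nat_lit 2, nat_lit 4, nat_lit 0x47⟩ (t14_4252) (t14_12444))) (.node ⟨nat_lit 7, nat_lit 0x100060, nat_lit 0x2111102, nat_lit 2, nat_lit 4, nat_lit 0x4b⟩ (.node ⟨nat_lit 7, nat_lit 0x40002000600050, nat_lit 0x22003, nat_lit 1, nat_lit 4, nat_lit 0x48⟩ (t14_2204) (t14_10396)) (.node ⟨nat_lit 6, nat_lit 0x200030, nat_lit 0x12122, nat_lit 3, nat_lit 4, nat_lit 0x49⟩ (t14_6300) (t14_14492)))) (.node ⟨nat_lit 5, nat_lit 0x10, nat_lit 0x21111, nat_lit 7, nat_lit 4, nat_lit 0x4a⟩ (.node ⟨nat_lit 5, nat_lit 0x1000140018, nat_lit 0x21221, nat_lit 4, nat_lit 4, nat_lit 0x48⟩ (.node ⟨nat_lit 6, nat_lit 0x2000100024, nat_lit 0x111310, nat_lit 2, nat_lit 4, nat_lit 0x49⟩ (t14_1180) (t14_9372)) (.node ⟨nat_lit 7, nat_lit 0x1000500060, nat_lit 0x1112112, nat_lit 0, nat_lit 4,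 nat_lit 0x49⟩ (t14_5276) (t14_13468))) (.node ⟨nat_lit 4, nat_lit 0x80004, nat_lit 0x2003, nat_lit 3, nat_lit 3, nat_lit 0x45⟩ (.node ⟨nat_lit 7, nat_lit 0x40003000580068, nat_lit 0x2110300, nat_lit 1, nat_lit 4, nat_lit 0x47⟩ (t14_3228) (t14_11420)) (.node ⟨nat_lit 6, nat_lit 0x1000200034, nat_lit 0x101110, nat_lit 1, nat_lit 4, nat_lit 0x46⟩ (t14_7324) (t14_15516))))) (.node ⟨nat_lit 6, nat_lit 0x2000100032, nat_lit 0x32120, nat_lit 0, nat_lit 4, nat_lit 0x49⟩ (.node ⟨nat_lit 6, nat_lit 0x2000100032, nat_lit 0x22120, nat_lit 0, nat_lit 4, nat_lit 0x48⟩ (.node ⟨nat_lit 6, nat_lit 0x10002000200030, nat_lit 0x1101, nat_lit 0, nat_lit 3, nat_lit 0x44⟩ (.node ⟨nat_lit 5, nat_lit 0x100018, nat_lit 0x21102, nat_lit 4, nat_lit 4, nat_lit 0x48⟩ (t14_668) (t14_8860)) (.node ⟨nat_lit 7, nat_lit 0x20005000500068, nat_lit 0x102301, nat_lit 0, nat_lit 4,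 nat_lit 0x46⟩ (t14_4764) (t14_12956))) (.node ⟨nat_lit 6, nat_lit 0x1000200020, nat_lit 0x11100, nat_lit 2, nat_lit 4, nat_lit 0x47⟩ (.node ⟨nat_lit 7, nat_lit 0x40004000200020, nat_lit 0x1111130, nat_lit 1, nat_lit 4, nat_lit 0x4a⟩ (t14_2716) (t14_10908)) (.node ⟨nat_lit 7, nat_lit 0x20002000200040, nat_lit 0x1011102, nat_lit 1, nat_lit 4, nat_lit 0x49⟩ (t14_6812) (t14_15004)))) (.node ⟨nat_lit 3, nat_lit 0x40004, nat_lit 0x131, nat_lit 0xc, nat_lit 4, nat_lit 0x47⟩ (.node ⟨nat_lit 6, nat_lit 0x200030, nat_lit 0x21121, nat_lit 2, nat_lit 4, nat_lit 0x49⟩ (.node ⟨nat_lit 6, nat_lit 0x240038, nat_lit 0x10013, nat_lit 3, nat_lit 4, nat_lit 0x46⟩ (t14_1692) (t14_9884)) (.node ⟨nat_lit 7, nat_lit 0x4000400060, nat_lit 0x22200, nat_lit 3, nat_lit 4, nat_lit 0x4a⟩ (t14_5788) (t14_13980))) (.node ⟨nat_lit 7, nat_lit 0x20006000600050, nat_lit 0x22202,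 nat_lit 0, nat_lit 4, nat_lit 0x47⟩ (.node ⟨nat_lit 5, nat_lit 0x800100010, nat_lit 0x10300, nat_lit 2, nat_lit 3, nat_lit 0x45⟩ (t14_3740) (t14_11932)) (.node ⟨nat_lit 6, nat_lit 0x2800300038, nat_lit 0x101212, nat_lit 3, nat_lit 4, nat_lit 0x46⟩ (t14_7836) (.nil)))))
def t14_412 : Tr := .node ⟨nat_lit 6, nat_lit 0x10002000300030, nat_lit 0x12210, nat_lit 3, nat_lit 4, nat_lit 0x47⟩ (.nil) (.nil)
def t14_8604 : Tr := .node ⟨nat_lit 7, nat_lit 0x400020002000500070, nat_lit 0x11102, nat_lit 0, nat_lit 4, nat_lit 0x45⟩ (.nil) (.nil)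
def t14_4508 : Tr := .node ⟨nat_lit 9, nat_lit 0x8001000100004001100110, nat_lit 0x101012011, nat_lit 0, nat_lit 4, nat_lit 0x4a⟩ (.nil) (.nil)
def t14_12700 : Tr := .node ⟨nat_lit 5, nat_lit 0x100018, nat_lit 0x10220, nat_lit 5, nat_lit 4, nat_lit 0x48⟩ (.nil) (.nil)
def t14_2460 : Tr := .node ⟨nat_lit 6, nat_lit 0x2000080030, nat_lit 0x12200, nat_lit 3, nat_lit 4, nat_lit 0x48⟩ (.nil) (.nil)
def t14_10652 : Tr := .node ⟨nat_lit 7, nat_lit 0x20003000500068, nat_lit 0x1301, nat_lit 0, nat_lit 4, nat_lit 0x45⟩ (.nil) (.nil)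
def t14_6556 : Tr := .node ⟨nat_lit 7, nat_lit 0x400020, nat_lit 0x111002, nat_lit 0, nat_lit 4, nat_lit 0x4a⟩ (.nil) (.nil)
def t14_14748 : Tr := .node ⟨nat_lit 7, nat_lit 0x20006000500068, nat_lit 0x102211, nat_lit 2, nat_lit 4, nat_lit 0x47⟩ (.nil) (.nil)
def t14_1436 : Tr := .node ⟨nat_lit 7, nat_lit 0x20004000440030, nat_lit 0x1003110, nat_lit 0, nat_lit 4, nat_lit 0x47⟩ (.nil) (.nil)
def t14_9628 : Tr := .node ⟨nat_lit 6, nat_lit 0x800280030, nat_lit 0x222, nat_lit 0, nat_lit 4, nat_lit 0x45⟩ (.nil) (.nil)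
def t14_5532 : Tr := .node ⟨nat_lit 6, nat_lit 0x2000100030, nat_lit 0x1113, nat_lit 3, nat_lit 4, nat_lit 0x47⟩ (.nil) (.nil)
def t14_13724 : Tr := .node ⟨nat_lit 8, nat_lit 0x80009000c0006000d0, nat_lit 0x102, nat_lit 1, nat_lit 4, nat_lit 0x45⟩ (.nil) (.nil)
def t14_3484 : Tr := .node ⟨nat_lit 7, nat_lit 0x200020004000600070, nat_lit 0x1210, nat_lit 2, nat_lit 4, nat_lit 0x46⟩ (.nil) (.nil)
def t14_11676 : Tr := .node ⟨nat_lit 7, nat_lit 0x400020002800500060, nat_lit 0x31002, nat_lit 0, nat_lit 4, nat_lit 0x46⟩ (.nil) (.nil)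
def t14_7580 : Tr := .node ⟨nat_lit 4, nat_lit 0x80008, nat_lit 0x242, nat_lit 4, nat_lit 3, nat_lit 0x46⟩ (.nil) (.nil)
def t14_924 : Tr := .node ⟨nat_lit 6, nat_lit 0x20001000100028, nat_lit 0x12112, nat_lit 2, nat_lit 4, nat_lit 0x47⟩ (.nil) (.nil)
def t14_9116 : Tr := .node ⟨nat_lit 6, nat_lit 0x2000300028, nat_lit 0x111202, nat_lit 1, nat_lit 3, nat_lit 0x46⟩ (.nil) (.nil)
def t14_5020 : Tr := .node ⟨nat_lit 6, nat_lit 0x10002000300034, nat_lit 0x101011, nat_lit 2, nat_lit 4, nat_lit 0x45⟩ (.nil) (.nil)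
def t14_13212 : Tr := .node ⟨nat_lit 6, nat_lit 0x20001000280034, nat_lit 0x2000, nat_lit 3, nat_lit 4, nat_lit 0x45⟩ (.nil) (.nil)
def t14_2972 : Tr := .node ⟨nat_lit 5, nat_lit 0x1000100010, nat_lit 0x12211, nat_lit 4, nat_lit 3, nat_lit 0x47⟩ (.nil) (.nil)
def t14_11164 : Tr := .node ⟨nat_lit 6, nat_lit 0x800080030, nat_lit 0x100000, nat_lit 3, nat_lit 4, nat_lit 0x46⟩ (.nil) (.nil)
def t14_7068 : Tr := .node ⟨nat_lit 6, nat_lit 0x2000300030, nat_lit 0x11211, nat_lit 5, nat_lit 4, nat_lit 0x48⟩ (.nil) (.nil)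
def t14_15260 : Tr := .node ⟨nat_lit 8, nat_lit 0x800080002000c000d0, nat_lit 0x1110021, nat_lit 1, nat_lit 4, nat_lit 0x48⟩ (.nil) (.nil)
def t14_1948 : Tr := .node ⟨nat_lit 6, nat_lit 0x2000300028, nat_lit 0x2212, nat_lit 5, nat_lit 4, nat_lit 0x48⟩ (.nil) (.nil)
def t14_10140 : Tr := .node ⟨nat_lit 9, nat_lit 0x8001000100014001900190, nat_lit 0x202020, nat_lit 0, nat_lit 4, nat_lit 0x47⟩ (.nil) (.nil)
def t14_6044 : Tr := .node ⟨nat_lit 0xa, nat_lit 0x200010001000080, nat_lit 0x11110100, nat_lit 1, nat_lit 4, nat_lit 0x4d⟩ (.nil) (.nil)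
def t14_14236 : Tr := .node ⟨nat_lit 9, nat_lit 0x1000020002001400180, nat_lit 0x1011020, nat_lit 1, nat_lit 4, nat_lit 0x49⟩ (.nil) (.nil)
def t14_3996 : Tr := .node ⟨nat_lit 7, nat_lit 0x800600050, nat_lit 0x1000210, nat_lit 1, nat_lit 4, nat_lit 0x47⟩ (.nil) (.nil)
def t14_12188 : Tr := .node ⟨nat_lit 7, nat_lit 0x200020004000400070, nat_lit 0x21220, nat_lit 0, nat_lit 4, nat_lit 0x47⟩ (.nil) (.nil)
def t14_8092 : Tr := .node ⟨nat_lit 7, nat_lit 0x10004000440060, nat_lit 0x140, nat_lit 1, nat_lit 4, nat_lit 0x47⟩ (.nil) (.nil)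
def t9_412 : Tr := .node ⟨nat_lit 5, nat_lit 0x80010, nat_lit 0x21312, nat_lit 4, nat_lit 4, nat_lit 0x4a⟩ (.node ⟨nat_lit 5, nat_lit 0x100010, nat_lit 0x13122, nat_lit 3, nat_lit 3, nat_lit 0x48⟩ (.node ⟨nat_lit 5, nat_lit 0x80010, nat_lit 0x20210, nat_lit 2, nat_lit 4, nat_lit 0x47⟩ (.node ⟨nat_lit 7, nat_lit 0x40002000500068, nat_lit 0x1100221, nat_lit 0, nat_lit 4, nat_lit 0x47⟩ (.node ⟨nat_lit 7, nat_lit 0x40006800580070, nat_lit 0x2000211, nat_lit 1, nat_lit 4, nat_lit 0x45⟩ (t14_412) (t14_8604)) (.node ⟨nat_lit 8, nat_lit 0x80008000400088, nat_lit 0x11112001, nat_lit 2, nat_lit 4, nat_lit 0x4b⟩ (t14_4508) (t14_12700))) (.node ⟨nat_lit 6, nat_lit 0x2000080010, nat_lit 0x1012, nat_lit 2, nat_lit 3, nat_lit 0x46⟩ (.node ⟨nat_lit 6, nat_lit 0x1000080020, nat_lit 0x1320, nat_lit 0, nat_lit 4, nat_lit 0x47⟩ (t14_2460) (t14_10652)) (.node ⟨nat_lit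 6, nat_lit 0x2000200034, nat_lit 0x21201, nat_lit 3, nat_lit 4, nat_lit 0x48⟩ (t14_6556) (t14_14748)))) (.node ⟨nat_lit 6, nat_lit 0x1000200034, nat_lit 0x102001, nat_lit 1, nat_lit 4, nat_lit 0x46⟩ (.node ⟨nat_lit 8, nat_lit 0x200080001000c0, nat_lit 0x10020211, nat_lit 1, nat_lit 4, nat_lit 0x4a⟩ (.node ⟨nat_lit 6, nat_lit 0x800100020, nat_lit 0x101010, nat_lit 0, nat_lit 4, nat_lit 0x46⟩ (t14_1436) (t14_9628)) (.node ⟨nat_lit 8, nat_lit 0x80008000400040009000e0, nat_lit 0x11102102, nat_lit 0, nat_lit 4, nat_lit 0x48⟩ (t14_5532) (t14_13724))) (.node ⟨nat_lit 5, nat_lit 0x10, nat_lit 0x1112, nat_lit 0, nat_lit 4, nat_lit 0x47⟩ (.node ⟨nat_lit 6, nat_lit 0x2800180030, nat_lit 0x11040, nat_lit 2, nat_lit 4, nat_lit 0x47⟩ (t14_3484) (t14_11676)) (.node ⟨nat_lit 7, nat_lit 0x5000180060, nat_lit 0x1111121, nat_lit 1, nat_lit 4, nat_lit 0x48⟩ (t14_7580)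 (.nil))))) (.node ⟨nat_lit 5, nat_lit 0x10, nat_lit 0x3211, nat_lit 1, nat_lit 3, nat_lit 0x48⟩ (.node ⟨nat_lit 6, nat_lit 0x2000200010, nat_lit 0x22101, nat_lit 3, nat_lit 4, nat_lit 0x49⟩ (.node ⟨nat_lit 3, nat_lit 0, nat_lit 0x111, nat_lit 0xd, nat_lit 4, nat_lit 0x48⟩ (.node ⟨nat_lit 6, nat_lit 0x1000200030, nat_lit 0x111331, nat_lit 0, nat_lit 4, nat_lit 0x49⟩ (t14_924) (t14_9116)) (.node ⟨nat_lit 9, nat_lit 0x100008000200040, nat_lit 0x2110002, nat_lit 1, nat_lit 4, nat_lit 0x4c⟩ (t14_5020) (t14_13212))) (.node ⟨nat_lit 4, nat_lit 0x8000c, nat_lit 0x1130, nat_lit 9, nat_lit 4, nat_lit 0x47⟩ (.node ⟨nat_lit 7, nat_lit 0x1000400020, nat_lit 0x1111021, nat_lit 0, nat_lit 3, nat_lit 0x48⟩ (t14_2972) (t14_11164)) (.node ⟨nat_lit 9, nat_lit 0x40010000200180, nat_lit 0x110010202, nat_lit 0, nat_lit 4, nat_lit 0x4b⟩ (t14_7068) (t14_15260)))) (.node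 ⟨nat_lit 2, nat_lit 2, nat_lit 0x21, nat_lit 5, nat_lit 4, nat_lit 0x43⟩ (.node ⟨nat_lit 7, nat_lit 0x3000600050, nat_lit 0x2101121, nat_lit 0, nat_lit 4, nat_lit 0x48⟩ (.node ⟨nat_lit 7, nat_lit 0x800600070, nat_lit 0x1021013, nat_lit 0, nat_lit 4, nat_lit 0x48⟩ (t14_1948) (t14_10140)) (.node ⟨nat_lit 6, nat_lit 0x10001000200020, nat_lit 0x102020, nat_lit 0, nat_lit 3, nat_lit 0x46⟩ (t14_6044) (t14_14236))) (.node ⟨nat_lit 6, nat_lit 0x2000080030, nat_lit 0x11311, nat_lit 0, nat_lit 4, nat_lit 0x47⟩ (.node ⟨nat_lit 8, nat_lit 0x2000c00030, nat_lit 0x10000010, nat_lit 0, nat_lit 4, nat_lit 0x48⟩ (t14_3996) (t14_12188)) (.node ⟨nat_lit 5, nat_lit 0x40018, nat_lit 0x11111, nat_lit 3, nat_lit 3, nat_lit 0x46⟩ (t14_8092) (.nil)))))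
def t14_92 : Tr := .node ⟨nat_lit 7, nat_lit 0x4000400060, nat_lit 0x1111211, nat_lit 0, nat_lit 4, nat_lit 0x4a⟩ (.nil) (.nil)
def t14_8284 : Tr := .node ⟨nat_lit 6, nat_lit 0x2000300034, nat_lit 0x1303, nat_lit 5, nat_lit 4, nat_lit 0x47⟩ (.nil) (.nil)
def t14_4188 : Tr := .node ⟨nat_lit 7, nat_lit 0x400020002000500050, nat_lit 0x112120, nat_lit 0, nat_lit 4, nat_lit 0x47⟩ (.nil) (.nil)
def t14_12380 : Tr := .node ⟨nat_lit 8, nat_lit 0x800080004000c0, nat_lit 0x113110, nat_lit 1, nat_lit 4, nat_lit 0x4a⟩ (.nil) (.nil)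
def t14_2140 : Tr := .node ⟨nat_lit 6, nat_lit 0x2000100030, nat_lit 0x111202, nat_lit 4, nat_lit 4, nat_lit 0x49⟩ (.nil) (.nil)
def t14_10332 : Tr := .node ⟨nat_lit 7, nat_lit 0x4000100020, nat_lit 0x2111020, nat_lit 1, nat_lit 3, nat_lit 0x49⟩ (.nil) (.nil)
def t14_6236 : Tr := .node ⟨nat_lit 7, nat_lit 0x40004000200068, nat_lit 0x11001, nat_lit 3, nat_lit 4, nat_lit 0x47⟩ (.nil) (.nil)
def t14_14428 : Tr := .node ⟨nat_lit 7, nat_lit 0x40001000100060, nat_lit 0x211, nat_lit 1, nat_lit 4, nat_lit 0x47⟩ (.nil) (.nil)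
def t14_1116 : Tr := .node ⟨nat_lit 7, nat_lit 0x10004000640058, nat_lit 0x110321, nat_lit 1, nat_lit 4, nat_lit 0x47⟩ (.nil) (.nil)
def t14_9308 : Tr := .node ⟨nat_lit 9, nat_lit 0x10000400180014001a001a0, nat_lit 0x102021, nat_lit 0, nat_lit 4, nat_lit 0x46⟩ (.nil) (.nil)
def t14_5212 : Tr := .node ⟨nat_lit 8, nat_lit 0x80008000840088, nat_lit 0x1111211, nat_lit 0, nat_lit 4, nat_lit 0x4a⟩ (.nil) (.nil)
def t14_13404 : Tr := .node ⟨nat_lit 7, nat_lit 0x40001000600070, nat_lit 0x3003, nat_lit 1, nat_lit 4, nat_lit 0x46⟩ (.nil) (.nil)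
def t14_3164 : Tr := .node ⟨nat_lit 8, nat_lit 0x80002000a000c000d0, nat_lit 0x1020112, nat_lit 0, nat_lit 4, nat_lit 0x47⟩ (.nil) (.nil)
def t14_11356 : Tr := .node ⟨nat_lit 8, nat_lit 0x200040008000c0, nat_lit 0x10010, nat_lit 1, nat_lit 3, nat_lit 0x47⟩ (.nil) (.nil)
def t14_7260 : Tr := .node ⟨nat_lit 7, nat_lit 0x1000500060, nat_lit 0x2011021, nat_lit 0, nat_lit 4, nat_lit 0x49⟩ (.nil) (.nil)
def t14_15452 : Tr := .node ⟨nat_lit 7, nat_lit 0x40002000200020, nat_lit 0x1001110, nat_lit 0, nat_lit 3, nat_lit 0x47⟩ (.nil) (.nil)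
def t14_604 : Tr := .node ⟨nat_lit 7, nat_lit 0x40004000480060, nat_lit 0x20002, nat_lit 1, nat_lit 4, nat_lit 0x47⟩ (.nil) (.nil)
def t14_8796 : Tr := .node ⟨nat_lit 7, nat_lit 0x400020002000500050, nat_lit 0x1111131, nat_lit 0, nat_lit 4, nat_lit 0x48⟩ (.nil) (.nil)
def t14_4700 : Tr := .node ⟨nat_lit 7, nat_lit 0x4000500064, nat_lit 0x1110102, nat_lit 0, nat_lit 4, nat_lit 0x48⟩ (.nil) (.nil)
def t14_12892 : Tr := .node ⟨nat_lit 7, nat_lit 0x6000500050, nat_lit 0x1040, nat_lit 1, nat_lit 4, nat_lit 0x47⟩ (.nil) (.nil)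
def t14_2652 : Tr := .node ⟨nat_lit 4, nat_lit 0xe, nat_lit 0x2001, nat_lit 3, nat_lit 4, nat_lit 0x44⟩ (.nil) (.nil)
def t14_10844 : Tr := .node ⟨nat_lit 5, nat_lit 0x1000100014, nat_lit 0x1202, nat_lit 5, nat_lit 4, nat_lit 0x47⟩ (.nil) (.nil)
def t14_6748 : Tr := .node ⟨nat_lit 6, nat_lit 0x2000080030, nat_lit 0x31120, nat_lit 1, nat_lit 4, nat_lit 0x48⟩ (.nil) (.nil)
def t14_14940 : Tr := .node ⟨nat_lit 6, nat_lit 0x200020003000280028, nat_lit 0x11111, nat_lit 9, nat_lit 4, nat_lit 0x47⟩ (.nil) (.nil)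
def t14_1628 : Tr := .node ⟨nat_lit 7, nat_lit 0x40002000680064, nat_lit 0x12100, nat_lit 1, nat_lit 4, nat_lit 0x46⟩ (.nil) (.nil)
def t14_9820 : Tr := .node ⟨nat_lit 8, nat_lit 0x400040006000a000d0, nat_lit 0x10102, nat_lit 0, nat_lit 4, nat_lit 0x46⟩ (.nil) (.nil)
def t14_5724 : Tr := .node ⟨nat_lit 7, nat_lit 0x4000400044, nat_lit 0x111002, nat_lit 0, nat_lit 4, nat_lit 0x48⟩ (.nil) (.nil)
def t14_13916 : Tr := .node ⟨nat_lit 8, nat_lit 0x2000200080008000c0, nat_lit 0x20210, nat_lit 0, nat_lit 4, nat_lit 0x48⟩ (.nil) (.nil)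
def t14_3676 : Tr := .node ⟨nat_lit 4, nat_lit 0xc, nat_lit 0x1041, nat_lit 3, nat_lit 4, nat_lit 0x47⟩ (.nil) (.nil)
def t14_11868 : Tr := .node ⟨nat_lit 4, nat_lit 0x8000c, nat_lit 0x3110, nat_lit 2, nat_lit 3, nat_lit 0x46⟩ (.nil) (.nil)
def t14_7772 : Tr := .node ⟨nat_lit 8, nat_lit 0x40008000800090006000e0, nat_lit 0x201001, nat_lit 0, nat_lit 4, nat_lit 0x46⟩ (.nil) (.nil)
def t9_92 : Tr := .node ⟨nat_lit 4, nat_lit 0x80008, nat_lit 0x1111, nat_lit 3, nat_lit 3, nat_lit 0x45⟩ (.node ⟨nat_lit 6, nat_lit 0x2000200010, nat_lit 0x113210, nat_lit 3, nat_lit 4, nat_lit 0x4a⟩ (.node ⟨nat_lit 6, nat_lit 0x2000200030, nat_lit 0x13201, nat_lit 1, nat_lit 3, nat_lit 0x47⟩ (.node ⟨nat_lit 6, nat_lit 0x1000200030, nat_lit 0x12210, nat_lit 0, nat_lit 3, nat_lit 0x46⟩ (.node ⟨nat_lit 6, nat_lit 0x2000100008, nat_lit 0x12012, nat_lit 8, nat_lit 4, nat_lit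 0x4a⟩ (t14_92) (t14_8284)) (.node ⟨nat_lit 6, nat_lit 0x2000080010, nat_lit 0x2002, nat_lit 0, nat_lit 4, nat_lit 0x47⟩ (t14_4188) (t14_12380))) (.node ⟨nat_lit 6, nat_lit 0x10002000200020, nat_lit 0x21110, nat_lit 0, nat_lit 3, nat_lit 0x46⟩ (.node ⟨nat_lit 7, nat_lit 0x400040004800600070, nat_lit 0x111031, nat_lit 3, nat_lit 4, nat_lit 0x47⟩ (t14_2140) (t14_10332)) (.node ⟨nat_lit 6, nat_lit 0x2000200010, nat_lit 0x12221, nat_lit 3, nat_lit 4, nat_lit 0x49⟩ (t14_6236) (t14_14428)))) (.node ⟨nat_lit 6, nat_lit 0x200030, nat_lit 0x12230, nat_lit 1, nat_lit 4, nat_lit 0x49⟩ (.node ⟨nat_lit 7, nat_lit 0x2000200040, nat_lit 0x1211211, nat_lit 0, nat_lit 4, nat_lit 0x4b⟩ (.node ⟨nat_lit 7, nat_lit 0x40005000300068, nat_lit 0x1111131, nat_lit 0, nat_lit 4, nat_lit 0x47⟩ (t14_1116) (t14_9308)) (.node ⟨nat_lit 6, nat_lit 0x2000300030, nat_lit 0x12221,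 nat_lit 3, nat_lit 4, nat_lit 0x48⟩ (t14_5212) (t14_13404))) (.node ⟨nat_lit 6, nat_lit 0x80030, nat_lit 0x201201, nat_lit 2, nat_lit 4, nat_lit 0x49⟩ (.node ⟨nat_lit 5, nat_lit 0x180018, nat_lit 0x10130, nat_lit 3, nat_lit 3, nat_lit 0x45⟩ (t14_3164) (t14_11356)) (.node ⟨nat_lit 7, nat_lit 0x20004000440060, nat_lit 0x1011002, nat_lit 0, nat_lit 4, nat_lit 0x47⟩ (t14_7260) (t14_15452))))) (.node ⟨nat_lit 2, nat_lit 2, nat_lit 0x21, nat_lit 7, nat_lit 3, nat_lit 0x44⟩ (.node ⟨nat_lit 4, nat_lit 8, nat_lit 0x2112, nat_lit 4, nat_lit 4, nat_lit 0x48⟩ (.node ⟨nat_lit 6, nat_lit 0x800100020, nat_lit 0x102000, nat_lit 1, nat_lit 4, nat_lit 0x47⟩ (.node ⟨nat_lit 6, nat_lit 0x200030, nat_lit 0x201120, nat_lit 1, nat_lit 4, nat_lit 0x49⟩ (t14_604) (t14_8796)) (.node ⟨nat_lit 8, nat_lit 0x80002000c0, nat_lit 0x11111012, nat_lit 0, nat_lit 4, nat_lit 0x4b⟩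 (t14_4700) (t14_12892))) (.node ⟨nat_lit 6, nat_lit 0x300030, nat_lit 0x101122, nat_lit 0, nat_lit 4, nat_lit 0x47⟩ (.node ⟨nat_lit 6, nat_lit 0x800200030, nat_lit 0x120023, nat_lit 4, nat_lit 4, nat_lit 0x49⟩ (t14_2652) (t14_10844)) (.node ⟨nat_lit 6, nat_lit 0x20001000100028, nat_lit 0x112112, nat_lit 3, nat_lit 4, nat_lit 0x48⟩ (t14_6748) (t14_14940)))) (.node ⟨nat_lit 7, nat_lit 0x10002000400062, nat_lit 0x2100110, nat_lit 1, nat_lit 4, nat_lit 0x48⟩ (.node ⟨nat_lit 7, nat_lit 0x4000100060, nat_lit 0x2021011, nat_lit 1, nat_lit 4, nat_lit 0x4a⟩ (.node ⟨nat_lit 5, nat_lit 0x40018, nat_lit 0x101, nat_lit 1, nat_lit 4, nat_lit 0x44⟩ (t14_1628) (t14_9820)) (.node ⟨nat_lit 6, nat_lit 0x1000200020, nat_lit 0x112110, nat_lit 7, nat_lit 4, nat_lit 0x4a⟩ (t14_5724) (t14_13916))) (.node ⟨nat_lit 6, nat_lit 0x80030, nat_lit 0x200122, nat_lit 2, nat_lit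 4, nat_lit 0x48⟩ (.node ⟨nat_lit 6, nat_lit 0x800080030, nat_lit 0x100100, nat_lit 0, nat_lit 3, nat_lit 0x45⟩ (t14_3676) (t14_11868)) (.node ⟨nat_lit 5, nat_lit 0x180018, nat_lit 0x10121, nat_lit 0xb, nat_lit 4, nat_lit 0x48⟩ (t14_7772) (.nil)))))
def t14_348 : Tr := .node ⟨nat_lit 7, nat_lit 0x40002000500060, nat_lit 0x122110, nat_lit 1, nat_lit 4, nat_lit 0x48⟩ (.nil) (.nil)
def t14_8540 : Tr := .node ⟨nat_lit 7, nat_lit 0x40002000480048, nat_lit 0x1011041, nat_lit 2, nat_lit 4, nat_lit 0x49⟩ (.nil) (.nil)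
def t14_4444 : Tr := .node ⟨nat_lit 7, nat_lit 0x4000440030, nat_lit 0x2111211, nat_lit 0, nat_lit 4, nat_lit 0x4a⟩ (.nil) (.nil)
def t14_12636 : Tr := .node ⟨nat_lit 9, nat_lit 0x1000080011000a001c0, nat_lit 0x100001003, nat_lit 1, nat_lit 4, nat_lit 0x48⟩ (.nil) (.nil)
def t14_2396 : Tr := .node ⟨nat_lit 7, nat_lit 0x5000500060, nat_lit 0x102102, nat_lit 3, nat_lit 4, nat_lit 0x48⟩ (.nil) (.nil)
def t14_10588 : Tr := .node ⟨nat_lit 5, nat_lit 0x1000080014, nat_lit 0x2000, nat_lit 3, nat_lit 4, nat_lit 0x45⟩ (.nil) (.nil)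
def t14_6492 : Tr := .node ⟨nat_lit 7, nat_lit 0x4000440030, nat_lit 0x1111200, nat_lit 0, nat_lit 4, nat_lit 0x49⟩ (.nil) (.nil)
def t14_14684 : Tr := .node ⟨nat_lit 8, nat_lit 0x800040004000a000c800d0, nat_lit 0x111010, nat_lit 0, nat_lit 4, nat_lit 0x45⟩ (.nil) (.nil)
def t14_1372 : Tr := .node ⟨nat_lit 6, nat_lit 0x1000280030, nat_lit 0x20031, nat_lit 0, nat_lit 4, nat_lit 0x46⟩ (.nil) (.nil)
def t14_9564 : Tr := .node ⟨nat_lit 8, nat_lit 0x8000c000a000d000d0, nat_lit 0x112020, nat_lit 1, nat_lit 4, nat_lit 0x46⟩ (.nil) (.nil)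
def t14_5468 : Tr := .node ⟨nat_lit 5, nat_lit 0x100012, nat_lit 0x1131, nat_lit 5, nat_lit 4, nat_lit 0x48⟩ (.nil) (.nil)
def t14_13660 : Tr := .node ⟨nat_lit 5, nat_lit 0x100008, nat_lit 0x10302, nat_lit 3, nat_lit 4, nat_lit 0x48⟩ (.nil) (.nil)
def t14_3420 : Tr := .node ⟨nat_lit 6, nat_lit 0x30000c, nat_lit 0x200001, nat_lit 1, nat_lit 4, nat_lit 0x46⟩ (.nil) (.nil)
def t14_11612 : Tr := .node ⟨nat_lit 7, nat_lit 0x6000680070, nat_lit 0x11103, nat_lit 1, nat_lit 4, nat_lit 0x46⟩ (.nil) (.nil)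
def t14_7516 : Tr := .node ⟨nat_lit 9, nat_lit 0x1000100008000800110, nat_lit 0x11100110, nat_lit 3, nat_lit 4, nat_lit 0x4b⟩ (.nil) (.nil)
def t14_860 : Tr := .node ⟨nat_lit 8, nat_lit 0x80008000400088, nat_lit 0x1112012, nat_lit 1, nat_lit 4, nat_lit 0x4a⟩ (.nil) (.nil)
def t14_9052 : Tr := .node ⟨nat_lit 5, nat_lit 0x1000100010, nat_lit 0x1221, nat_lit 4, nat_lit 3, nat_lit 0x46⟩ (.nil) (.nil)
def t14_4956 : Tr := .node ⟨nat_lit 9, nat_lit 0x400100002001800180, nat_lit 0x10000031, nat_lit 1, nat_lit 4, nat_lit 0x49⟩ (.nil) (.nil)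
def t14_13148 : Tr := .node ⟨nat_lit 6, nat_lit 0x800080030, nat_lit 0x213, nat_lit 0, nat_lit 4, nat_lit 0x46⟩ (.nil) (.nil)
def t14_2908 : Tr := .node ⟨nat_lit 8, nat_lit 0x20003000a000c0, nat_lit 0x2011201, nat_lit 0, nat_lit 4, nat_lit 0x48⟩ (.nil) (.nil)
def t14_11100 : Tr := .node ⟨nat_lit 5, nat_lit 0x180018, nat_lit 0x320, nat_lit 6, nat_lit 4, nat_lit 0x47⟩ (.nil) (.nil)
def t14_7004 : Tr := .node ⟨nat_lit 5, nat_lit 0x1000180018, nat_lit 0x10311, nat_lit 8, nat_lit 4, nat_lit 0x47⟩ (.nil) (.nil)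
def t14_15196 : Tr := .node ⟨nat_lit 8, nat_lit 0x800020008800c0, nat_lit 0x1011011, nat_lit 3, nat_lit 4, nat_lit 0x49⟩ (.nil) (.nil)
def t14_1884 : Tr := .node ⟨nat_lit 5, nat_lit 0x180018, nat_lit 0x20121, nat_lit 4, nat_lit 4, nat_lit 0x47⟩ (.nil) (.nil)
def t14_10076 : Tr := .node ⟨nat_lit 6, nat_lit 0x2800300030, nat_lit 0x2220, nat_lit 6, nat_lit 4, nat_lit 0x47⟩ (.nil) (.nil)
def t14_5980 : Tr := .node ⟨nat_lit 9, nat_lit 0x100008000800180, nat_lit 0x1110211, nat_lit 0, nat_lit 4, nat_lit 0x4b⟩ (.nil) (.nil)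
def t14_14172 : Tr := .node ⟨nat_lit 4, nat_lit 0x8000c, nat_lit 0x1002, nat_lit 9, nat_lit 4, nat_lit 0x46⟩ (.nil) (.nil)
def t14_3932 : Tr := .node ⟨nat_lit 6, nat_lit 0x10001000200038, nat_lit 0x11220, nat_lit 3, nat_lit 4, nat_lit 0x47⟩ (.nil) (.nil)
def t14_12124 : Tr := .node ⟨nat_lit 6, nat_lit 0x800280030, nat_lit 0x11102, nat_lit 4, nat_lit 4, nat_lit 0x47⟩ (.nil) (.nil)
def t14_8028 : Tr := .node ⟨nat_lit 7, nat_lit 0x20004000100044, nat_lit 0x103, nat_lit 3, nat_lit 4, nat_lit 0x47⟩ (.nil) (.nil)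
def t9_348 : Tr := .node ⟨nat_lit 4, nat_lit 0, nat_lit 0x3331, nat_lit 3, nat_lit 4, nat_lit 0x4b⟩ (.node ⟨nat_lit 3, nat_lit 6, nat_lit 0x323, nat_lit 6, nat_lit 4, nat_lit 0x48⟩ (.node ⟨nat_lit 5, nat_lit 0x80010, nat_lit 0x22222, nat_lit 0, nat_lit 4, nat_lit 0x49⟩ (.node ⟨nat_lit 6, nat_lit 0x2000200010, nat_lit 0x111202, nat_lit 2, nat_lit 4, nat_lit 0x49⟩ (.node ⟨nat_lit 8, nat_lit 0x8000400020, nat_lit 0x11211011, nat_lit 0, nat_lit 4, nat_lit 0x4c⟩ (t14_348) (t14_8540)) (.node ⟨nat_lit 5, nat_lit 0x1000180018, nat_lit 0x1410, nat_lit 2, nat_lit 3, nat_lit 0x45⟩ (t14_4444) (t14_12636))) (.node ⟨nat_lit 6, nat_lit 0x2000240030, nat_lit 0x212102, nat_lit 2, nat_lit 4, nat_lit 0x49⟩ (.node ⟨nat_lit 5, nat_lit 0x100018, nat_lit 0x10123, nat_lit 2, nat_lit 4, nat_lit 0x47⟩ (t14_2396) (t14_10588)) (.node ⟨nat_lit 6, nat_lit 0x300030, nat_lit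 0x2120, nat_lit 5, nat_lit 4, nat_lit 0x48⟩ (t14_6492) (t14_14684)))) (.node ⟨nat_lit 5, nat_lit 0x800080010, nat_lit 0x11001, nat_lit 1, nat_lit 3, nat_lit 0x45⟩ (.node ⟨nat_lit 5, nat_lit 0x18, nat_lit 0x21222, nat_lit 4, nat_lit 4, nat_lit 0x4a⟩ (.node ⟨nat_lit 5, nat_lit 0x140018, nat_lit 0x1303, nat_lit 4, nat_lit 4, nat_lit 0x47⟩ (t14_1372) (t14_9564)) (.node ⟨nat_lit 6, nat_lit 0x1000100020, nat_lit 0x112210, nat_lit 5, nat_lit 4, nat_lit 0x4a⟩ (t14_5468) (t14_13660))) (.node ⟨nat_lit 4, nat_lit 0xc, nat_lit 0x3112, nat_lit 5, nat_lit 4, nat_lit 0x48⟩ (.node ⟨nat_lit 7, nat_lit 0x200020004000400044, nat_lit 0x1010302, nat_lit 2, nat_lit 4, nat_lit 0x49⟩ (t14_3420) (t14_11612)) (.node ⟨nat_lit 7, nat_lit 0x40001000600070, nat_lit 0x11102, nat_lit 1, nat_lit 4, nat_lit 0x46⟩ (t14_7516) (.nil))))) (.node ⟨nat_lit 4, nat_lit 0, nat_lit 0x4000,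 nat_lit 0, nat_lit 4, nat_lit 0x46⟩ (.node ⟨nat_lit 6, nat_lit 0xc0030, nat_lit 0x212111, nat_lit 0, nat_lit 4, nat_lit 0x48⟩ (.node ⟨nat_lit 6, nat_lit 0x80030, nat_lit 0x101121, nat_lit 1, nat_lit 4, nat_lit 0x48⟩ (.node ⟨nat_lit 7, nat_lit 0x1000600060, nat_lit 0x21021, nat_lit 1, nat_lit 4, nat_lit 0x48⟩ (t14_860) (t14_9052)) (.node ⟨nat_lit 7, nat_lit 0x2000200040, nat_lit 0x2111201, nat_lit 1, nat_lit 4, nat_lit 0x4b⟩ (t14_4956) (t14_13148))) (.node ⟨nat_lit 6, nat_lit 0x2000080030, nat_lit 0x111201, nat_lit 2, nat_lit 4, nat_lit 0x48⟩ (.node ⟨nat_lit 9, nat_lit 0x800100004000200108, nat_lit 0x100002001, nat_lit 3, nat_lit 4, nat_lit 0x4a⟩ (t14_2908) (t14_11100)) (.node ⟨nat_lit 7, nat_lit 0x40001000480060, nat_lit 0x1113102, nat_lit 0, nat_lit 4, nat_lit 0x49⟩ (t14_7004) (t14_15196)))) (.node ⟨nat_lit 4, nat_lit 0x40008, nat_lit 0x1101,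 nat_lit 4, nat_lit 3, nat_lit 0x45⟩ (.node ⟨nat_lit 7, nat_lit 0x20004000500064, nat_lit 0x1211111, nat_lit 0, nat_lit 4, nat_lit 0x48⟩ (.node ⟨nat_lit 6, nat_lit 0x1000200030, nat_lit 0x112311, nat_lit 0, nat_lit 3, nat_lit 0x47⟩ (t14_1884) (t14_10076)) (.node ⟨nat_lit 7, nat_lit 0x10005000500060, nat_lit 0x200202, nat_lit 1, nat_lit 4, nat_lit 0x47⟩ (t14_5980) (t14_14172))) (.node ⟨nat_lit 6, nat_lit 0x800280030, nat_lit 0x102, nat_lit 0, nat_lit 4, nat_lit 0x44⟩ (.node ⟨nat_lit 6, nat_lit 0x800300028, nat_lit 0x11104, nat_lit 1, nat_lit 4, nat_lit 0x47⟩ (t14_3932) (t14_12124)) (.node ⟨nat_lit 7, nat_lit 0x4000500060, nat_lit 0x1101112, nat_lit 3, nat_lit 4, nat_lit 0x49⟩ (t14_8028) (.nil)))))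
def t14_220 : Tr := .node ⟨nat_lit 7, nat_lit 0x1000500060, nat_lit 0x1102211, nat_lit 2, nat_lit 4, nat_lit 0x49⟩ (.nil) (.nil)
def t14_8412 : Tr := .node ⟨nat_lit 7, nat_lit 0x400020002000500060, nat_lit 0x21042, nat_lit 0, nat_lit 4, nat_lit 0x47⟩ (.nil) (.nil)
def t14_4316 : Tr := .node ⟨nat_lit 8, nat_lit 0x800080004000a0009000e0, nat_lit 0x10012011, nat_lit 1, nat_lit 4, nat_lit 0x47⟩ (.nil) (.nil)
def t14_12508 : Tr := .node ⟨nat_lit 6, nat_lit 0x800300028, nat_lit 0x1000, nat_lit 1, nat_lit 4, nat_lit 0x45⟩ (.nil) (.nil)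
def t14_2268 : Tr := .node ⟨nat_lit 9, nat_lit 0x100010000800080008001400120, nat_lit 0x101022000, nat_lit 0, nat_lit 4, nat_lit 0x49⟩ (.nil) (.nil)
def t14_10460 : Tr := .node ⟨nat_lit 6, nat_lit 0x2800280030, nat_lit 0x20320, nat_lit 2, nat_lit 4, nat_lit 0x46⟩ (.nil) (.nil)
def t14_6364 : Tr := .node ⟨nat_lit 7, nat_lit 0x4000400060, nat_lit 0x11210, nat_lit 2, nat_lit 4, nat_lit 0x49⟩ (.nil) (.nil)
def t14_14556 : Tr := .node ⟨nat_lit 9, nat_lit 0x100010000400180, nat_lit 0x112100, nat_lit 2, nat_lit 4, nat_lit 0x4b⟩ (.nil) (.nil)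
def t14_1244 : Tr := .node ⟨nat_lit 7, nat_lit 0x40002000500068, nat_lit 0x1001212, nat_lit 2, nat_lit 4, nat_lit 0x47⟩ (.nil) (.nil)
def t14_9436 : Tr := .node ⟨nat_lit 8, nat_lit 0x8000800040009000a000c0, nat_lit 0x1112102, nat_lit 1, nat_lit 4, nat_lit 0x48⟩ (.nil) (.nil)
def t14_5340 : Tr := .node ⟨nat_lit 7, nat_lit 0x1000400060, nat_lit 0x1101030, nat_lit 3, nat_lit 4, nat_lit 0x4a⟩ (.nil) (.nil)
def t14_13532 : Tr := .node ⟨nat_lit 6, nat_lit 0x10002000200034, nat_lit 0x101002, nat_lit 4, nat_lit 4, nat_lit 0x46⟩ (.nil) (.nil)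
def t14_3292 : Tr := .node ⟨nat_lit 7, nat_lit 0x200040004800600070, nat_lit 0x122110, nat_lit 2, nat_lit 4, nat_lit 0x47⟩ (.nil) (.nil)
def t14_11484 : Tr := .node ⟨nat_lit 6, nat_lit 0x10001000200032, nat_lit 0x102010, nat_lit 2, nat_lit 4, nat_lit 0x46⟩ (.nil) (.nil)
def t14_7388 : Tr := .node ⟨nat_lit 8, nat_lit 0x80002000c0, nat_lit 0x10121101, nat_lit 0, nat_lit 4, nat_lit 0x4b⟩ (.nil) (.nil)
def t14_15580 : Tr := .node ⟨nat_lit 6, nat_lit 0, nat_lit 0x111111, nat_lit 0xa, nat_lit 4, nat_lit 0x4d⟩ (.nil) (.nil)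
def t14_732 : Tr := .node ⟨nat_lit 6, nat_lit 0x2000200030, nat_lit 0x1003, nat_lit 1, nat_lit 3, nat_lit 0x45⟩ (.nil) (.nil)
def t14_8924 : Tr := .node ⟨nat_lit 7, nat_lit 0x10002000500060, nat_lit 0x1100, nat_lit 0, nat_lit 4, nat_lit 0x45⟩ (.nil) (.nil)
def t14_4828 : Tr := .node ⟨nat_lit 7, nat_lit 0x4000100060, nat_lit 0x1121102, nat_lit 0, nat_lit 4, nat_lit 0x4a⟩ (.nil) (.nil)
def t14_13020 : Tr := .node ⟨nat_lit 7, nat_lit 0x10004000400060, nat_lit 3, nat_lit 3, nat_lit 4, nat_lit 0x47⟩ (.nil) (.nil)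
def t14_2780 : Tr := .node ⟨nat_lit 8, nat_lit 0x800080002000c0, nat_lit 0x122100, nat_lit 1, nat_lit 4, nat_lit 0x4a⟩ (.nil) (.nil)
def t14_10972 : Tr := .node ⟨nat_lit 8, nat_lit 0x800080004000a000a000c0, nat_lit 0x2102, nat_lit 3, nat_lit 4, nat_lit 0x47⟩ (.nil) (.nil)
def t14_6876 : Tr := .node ⟨nat_lit 7, nat_lit 0x400040, nat_lit 0x111130, nat_lit 2, nat_lit 4, nat_lit 0x4b⟩ (.nil) (.nil)
def t14_15068 : Tr := .node ⟨nat_lit 7, nat_lit 0x40002000480060, nat_lit 0x1112101, nat_lit 1, nat_lit 4, nat_lit 0x49⟩ (.nil) (.nil)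
def t14_1756 : Tr := .node ⟨nat_lit 6, nat_lit 0x200030, nat_lit 0x21104, nat_lit 0, nat_lit 4, nat_lit 0x49⟩ (.nil) (.nil)
def t14_9948 : Tr := .node ⟨nat_lit 7, nat_lit 0x3000480070, nat_lit 0x1003, nat_lit 0, nat_lit 4, nat_lit 0x45⟩ (.nil) (.nil)
def t14_5852 : Tr := .node ⟨nat_lit 7, nat_lit 0x4000100060, nat_lit 0x11102, nat_lit 1, nat_lit 4, nat_lit 0x48⟩ (.nil) (.nil)
def t14_14044 : Tr := .node ⟨nat_lit 7, nat_lit 0x2000500060, nat_lit 0x11320, nat_lit 1, nat_lit 4, nat_lit 0x48⟩ (.nil) (.nil)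
def t14_3804 : Tr := .node ⟨nat_lit 8, nat_lit 0x80008000400040009000a0, nat_lit 0x10112100, nat_lit 0, nat_lit 4, nat_lit 0x48⟩ (.nil) (.nil)
def t14_11996 : Tr := .node ⟨nat_lit 7, nat_lit 0x6000600050, nat_lit 0x121210, nat_lit 0, nat_lit 4, nat_lit 0x48⟩ (.nil) (.nil)
def t14_7900 : Tr := .node ⟨nat_lit 8, nat_lit 0x80002000400040, nat_lit 0x10021, nat_lit 0, nat_lit 4, nat_lit 0x49⟩ (.nil) (.nil)
def t9_220 : Tr := .node ⟨nat_lit 5, nat_lit 0x10, nat_lit 0x3212, nat_lit 1, nat_lit 4, nat_lit 0x49⟩ (.node ⟨nat_lit 5, nat_lit 0x1000140014, nat_lit 0x31131, nat_lit 3, nat_lit 4, nat_lit 0x49⟩ (.node ⟨nat_lit 6, nat_lit 0x1000200030, nat_lit 0x3310, nat_lit 1, nat_lit 4, nat_lit 0x48⟩ (.node ⟨nat_lit 5, nat_lit 0x100008, nat_lit 0x11133, nat_lit 0, nat_lit 4, nat_lit 0x48⟩ (.node ⟨nat_lit 7, nat_lit 0x4000200010, nat_lit 0x21002, nat_lit 8, nat_lit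 4, nat_lit 0x4b⟩ (t14_220) (t14_8412)) (.node ⟨nat_lit 6, nat_lit 0x20001000380038, nat_lit 0x11132, nat_lit 3, nat_lit 4, nat_lit 0x45⟩ (t14_4316) (t14_12508))) (.node ⟨nat_lit 6, nat_lit 0x2000100008, nat_lit 0x12023, nat_lit 1, nat_lit 4, nat_lit 0x49⟩ (.node ⟨nat_lit 7, nat_lit 0x40002000580068, nat_lit 0x11012, nat_lit 0, nat_lit 4, nat_lit 0x45⟩ (t14_2268) (t14_10460)) (.node ⟨nat_lit 4, nat_lit 0xc000c, nat_lit 0x1110, nat_lit 3, nat_lit 3, nat_lit 0x44⟩ (t14_6364) (t14_14556)))) (.node ⟨nat_lit 7, nat_lit 0x4000100020, nat_lit 0x112011, nat_lit 3, nat_lit 4, nat_lit 0x4a⟩ (.node ⟨nat_lit 5, nat_lit 0x100008, nat_lit 0x22111, nat_lit 3, nat_lit 3, nat_lit 0x48⟩ (.node ⟨nat_lit 4, nat_lit 0xc, nat_lit 0x1113, nat_lit 6, nat_lit 4, nat_lit 0x47⟩ (t14_1244) (t14_9436)) (.node ⟨nat_lit 8, nat_lit 0x40008000c0, nat_lit 0x1211201, nat_lit 0,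 nat_lit 4, nat_lit 0x4b⟩ (t14_5340) (t14_13532))) (.node ⟨nat_lit 5, nat_lit 0x140018, nat_lit 0x12130, nat_lit 3, nat_lit 4, nat_lit 0x47⟩ (.node ⟨nat_lit 6, nat_lit 0x800300028, nat_lit 0x101104, nat_lit 4, nat_lit 4, nat_lit 0x48⟩ (t14_3292) (t14_11484)) (.node ⟨nat_lit 7, nat_lit 0x1000100060, nat_lit 0x1101202, nat_lit 0, nat_lit 4, nat_lit 0x49⟩ (t14_7388) (t14_15580))))) (.node ⟨nat_lit 5, nat_lit 0x10, nat_lit 0x13110, nat_lit 2, nat_lit 4, nat_lit 0x49⟩ (.node ⟨nat_lit 5, nat_lit 0x40018, nat_lit 0x21022, nat_lit 3, nat_lit 4, nat_lit 0x47⟩ (.node ⟨nat_lit 6, nat_lit 0x2000100038, nat_lit 0x102202, nat_lit 0, nat_lit 4, nat_lit 0x47⟩ (.node ⟨nat_lit 6, nat_lit 0x1000100020, nat_lit 0x213110, nat_lit 1, nat_lit 4, nat_lit 0x4a⟩ (t14_732) (t14_8924)) (.node ⟨nat_lit 7, nat_lit 0x400040002000200050, nat_lit 0x121202, nat_lit 1, nat_lit 4,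 nat_lit 0x48⟩ (t14_4828) (t14_13020))) (.node ⟨nat_lit 6, nat_lit 0x1000280030, nat_lit 0x101120, nat_lit 1, nat_lit 4, nat_lit 0x46⟩ (.node ⟨nat_lit 6, nat_lit 0x1000280030, nat_lit 0x112130, nat_lit 1, nat_lit 4, nat_lit 0x48⟩ (t14_2780) (t14_10972)) (.node ⟨nat_lit 5, nat_lit 0x1000080014, nat_lit 0x10122, nat_lit 4, nat_lit 4, nat_lit 0x46⟩ (t14_6876) (t14_15068)))) (.node ⟨nat_lit 6, nat_lit 0x800300030, nat_lit 0x111122, nat_lit 0, nat_lit 4, nat_lit 0x47⟩ (.node ⟨nat_lit 6, nat_lit 0x800300028, nat_lit 0x1221, nat_lit 1, nat_lit 4, nat_lit 0x46⟩ (.node ⟨nat_lit 7, nat_lit 0x800480070, nat_lit 0x1100113, nat_lit 0, nat_lit 4, nat_lit 0x47⟩ (t14_1756) (t14_9948)) (.node ⟨nat_lit 7, nat_lit 0x4000400060, nat_lit 0x122201, nat_lit 0, nat_lit 4, nat_lit 0x4a⟩ (t14_5852) (t14_14044))) (.node ⟨nat_lit 6, nat_lit 0xc0030, nat_lit 0x202022, nat_lit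 2, nat_lit 4, nat_lit 0x48⟩ (.node ⟨nat_lit 6, nat_lit 0x800200030, nat_lit 0x100004, nat_lit 2, nat_lit 4, nat_lit 0x47⟩ (t14_3804) (t14_11996)) (.node ⟨nat_lit 5, nat_lit 0x800080010, nat_lit 0x12001, nat_lit 1, nat_lit 3, nat_lit 0x46⟩ (t14_7900) (.nil)))))
def t14_476 : Tr := .node ⟨nat_lit 7, nat_lit 0x2000400040, nat_lit 0x1111110, nat_lit 1, nat_lit 4, nat_lit 0x4a⟩ (.nil) (.nil)
def t14_8668 : Tr := .node ⟨nat_lit 6, nat_lit 0x800300030, nat_lit 0x1020, nat_lit 4, nat_lit 4, nat_lit 0x46⟩ (.nil) (.nil)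
def t14_4572 : Tr := .node ⟨nat_lit 4, nat_lit 0xc, nat_lit 0x1021, nat_lit 6, nat_lit 3, nat_lit 0x46⟩ (.nil) (.nil)
def t14_12764 : Tr := .node ⟨nat_lit 7, nat_lit 0x20002000600050, nat_lit 0x11030, nat_lit 1, nat_lit 4, nat_lit 0x47⟩ (.nil) (.nil)
def t14_2524 : Tr := .node ⟨nat_lit 8, nat_lit 0xa0009000c0, nat_lit 0x1012102, nat_lit 0, nat_lit 4, nat_lit 0x49⟩ (.nil) (.nil)
def t14_10716 : Tr := .node ⟨nat_lit 7, nat_lit 0x6000600050, nat_lit 0x110102, nat_lit 0, nat_lit 4, nat_lit 0x47⟩ (.nil) (.nil)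
def t14_6620 : Tr := .node ⟨nat_lit 4, nat_lit 0x80008, nat_lit 0x2210, nat_lit 6, nat_lit 3, nat_lit 0x47⟩ (.nil) (.nil)
def t14_14812 : Tr := .node ⟨nat_lit 8, nat_lit 0x8000800080004000a000e0, nat_lit 0x10201, nat_lit 2, nat_lit 4, nat_lit 0x47⟩ (.nil) (.nil)
def t14_1500 : Tr := .node ⟨nat_lit 7, nat_lit 0x20004000400044, nat_lit 0x101201, nat_lit 0, nat_lit 4, nat_lit 0x48⟩ (.nil) (.nil)
def t14_9692 : Tr := .node ⟨nat_lit 9, nat_lit 0x100010001000080008001200140, nat_lit 0x1111010, nat_lit 4, nat_lit 4, nat_lit 0x49⟩ (.nil) (.nil)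
def t14_5596 : Tr := .node ⟨nat_lit 7, nat_lit 0x200040004000680068, nat_lit 0x1020120, nat_lit 5, nat_lit 4, nat_lit 0x47⟩ (.nil) (.nil)
def t14_13788 : Tr := .node ⟨nat_lit 7, nat_lit 0x40002000500068, nat_lit 0x1010, nat_lit 0, nat_lit 4, nat_lit 0x45⟩ (.nil) (.nil)
def t14_3548 : Tr := .node ⟨nat_lit 6, nat_lit 0x1800300028, nat_lit 0x221, nat_lit 1, nat_lit 4, nat_lit 0x44⟩ (.nil) (.nil)
def t14_11740 : Tr := .node ⟨nat_lit 3, nat_lit 4, nat_lit 0x24, nat_lit 7, nat_lit 4, nat_lit 0x47⟩ (.nil) (.nil)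
def t14_7644 : Tr := .node ⟨nat_lit 3, nat_lit 0x40006, nat_lit 2, nat_lit 0xb, nat_lit 4, nat_lit 0x44⟩ (.nil) (.nil)
def t14_988 : Tr := .node ⟨nat_lit 6, nat_lit 0x10002000200024, nat_lit 0x121, nat_lit 1, nat_lit 4, nat_lit 0x46⟩ (.nil) (.nil)
def t14_9180 : Tr := .node ⟨nat_lit 8, nat_lit 0x40005000a000c000d0, nat_lit 0x10221, nat_lit 1, nat_lit 4, nat_lit 0x46⟩ (.nil) (.nil)
def t14_5084 : Tr := .node ⟨nat_lit 6, nat_lit 0x10002000300038, nat_lit 0x1311, nat_lit 4, nat_lit 4, nat_lit 0x46⟩ (.nil) (.nil)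
def t14_13276 : Tr := .node ⟨nat_lit 8, nat_lit 0x800088008800c0, nat_lit 0x112100, nat_lit 0, nat_lit 4, nat_lit 0x49⟩ (.nil) (.nil)
def t14_3036 : Tr := .node ⟨nat_lit 6, nat_lit 0x800300030, nat_lit 0x110210, nat_lit 0, nat_lit 4, nat_lit 0x46⟩ (.nil) (.nil)
def t14_11228 : Tr := .node ⟨nat_lit 8, nat_lit 0x4000c000a000a0, nat_lit 0x110130, nat_lit 0, nat_lit 4, nat_lit 0x48⟩ (.nil) (.nil)
def t14_7132 : Tr := .node ⟨nat_lit 8, nat_lit 0x80004000b000b000d0, nat_lit 0x20012110, nat_lit 0, nat_lit 4, nat_lit 0x47⟩ (.nil) (.nil)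
def t14_15324 : Tr := .node ⟨nat_lit 7, nat_lit 0x4000400060, nat_lit 0x121110, nat_lit 1, nat_lit 3, nat_lit 0x48⟩ (.nil) (.nil)
def t14_2012 : Tr := .node ⟨nat_lit 7, nat_lit 0x10004000400060, nat_lit 0x100302, nat_lit 1, nat_lit 4, nat_lit 0x48⟩ (.nil) (.nil)
def t14_10204 : Tr := .node ⟨nat_lit 4, nat_lit 0x8000a, nat_lit 0x132, nat_lit 8, nat_lit 4, nat_lit 0x47⟩ (.nil) (.nil)
def t14_6108 : Tr := .node ⟨nat_lit 5, nat_lit 0x100018, nat_lit 0x301, nat_lit 5, nat_lit 4, nat_lit 0x47⟩ (.nil) (.nil)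
def t14_14300 : Tr := .node ⟨nat_lit 7, nat_lit 0x40001000680070, nat_lit 0x1001003, nat_lit 2, nat_lit 4, nat_lit 0x46⟩ (.nil) (.nil)
def t14_4060 : Tr := .node ⟨nat_lit 6, nat_lit 0x2000080030, nat_lit 0x20001, nat_lit 0, nat_lit 4, nat_lit 0x46⟩ (.nil) (.nil)
def t14_12252 : Tr := .node ⟨nat_lit 7, nat_lit 0x40002000480060, nat_lit 0x112002, nat_lit 1, nat_lit 4, nat_lit 0x48⟩ (.nil) (.nil)
def t14_8156 : Tr := .node ⟨nat_lit 6, nat_lit 0x20001000100028, nat_lit 0x2003, nat_lit 5, nat_lit 4, nat_lit 0x47⟩ (.nil) (.nil)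
def t9_476 : Tr := .node ⟨nat_lit 4, nat_lit 0x40008, nat_lit 0x3303, nat_lit 1, nat_lit 3, nat_lit 0x48⟩ (.node ⟨nat_lit 5, nat_lit 0x100018, nat_lit 0x11130, nat_lit 0, nat_lit 3, nat_lit 0x46⟩ (.node ⟨nat_lit 6, nat_lit 0x2000100024, nat_lit 0x22121, nat_lit 0, nat_lit 4, nat_lit 0x48⟩ (.node ⟨nat_lit 5, nat_lit 0x180018, nat_lit 0x21110, nat_lit 0, nat_lit 3, nat_lit 0x46⟩ (.node ⟨nat_lit 6, nat_lit 0x800080030, nat_lit 0x210211, nat_lit 2, nat_lit 4, nat_lit 0x48⟩ (t14_476) (t14_8668)) (.node ⟨nat_lit 7, nat_lit 0x4000100060, nat_lit 0x1021220, nat_lit 1, nat_lit 4, nat_lit 0x4a⟩ (t14_4572) (t14_12764))) (.node ⟨nat_lit 5, nat_lit 0x1000080014, nat_lit 0x11202, nat_lit 4, nat_lit 4, nat_lit 0x47⟩ (.node ⟨nat_lit 6, nat_lit 0x2000100038, nat_lit 0x111223, nat_lit 2, nat_lit 4, nat_lit 0x48⟩ (t14_2524) (t14_10716)) (.node ⟨nat_lit 5, nat_lit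 0x100012, nat_lit 0x2122, nat_lit 6, nat_lit 4, nat_lit 0x48⟩ (t14_6620) (t14_14812)))) (.node ⟨nat_lit 6, nat_lit 0x10002000240018, nat_lit 0x120100, nat_lit 0, nat_lit 4, nat_lit 0x46⟩ (.node ⟨nat_lit 5, nat_lit 0x18, nat_lit 0x21212, nat_lit 4, nat_lit 3, nat_lit 0x48⟩ (.node ⟨nat_lit 6, nat_lit 0x1000200022, nat_lit 0x111031, nat_lit 2, nat_lit 4, nat_lit 0x49⟩ (t14_1500) (t14_9692)) (.node ⟨nat_lit 8, nat_lit 0x800080004000900090, nat_lit 0x11112010, nat_lit 1, nat_lit 4, nat_lit 0x4a⟩ (t14_5596) (t14_13788))) (.node ⟨nat_lit 3, nat_lit 4, nat_lit 0x124, nat_lit 5, nat_lit 3, nat_lit 0x46⟩ (.node ⟨nat_lit 5, nat_lit 0x40018, nat_lit 0x11000, nat_lit 2, nat_lit 4, nat_lit 0x45⟩ (t14_3548) (t14_11740)) (.node ⟨nat_lit 4, nat_lit 0x8000c, nat_lit 0x1102, nat_lit 6, nat_lit 3, nat_lit 0x45⟩ (t14_7644) (.nil))))) (.node ⟨nat_lit 4, nat_lit 0x80004,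 nat_lit 3, nat_lit 3, nat_lit 3, nat_lit 0x44⟩ (.node ⟨nat_lit 5, nat_lit 0x800080010, nat_lit 0x21202, nat_lit 3, nat_lit 4, nat_lit 0x48⟩ (.node ⟨nat_lit 6, nat_lit 0x100020, nat_lit 0x122101, nat_lit 1, nat_lit 4, nat_lit 0x4a⟩ (.node ⟨nat_lit 6, nat_lit 0x2000080034, nat_lit 0x111312, nat_lit 1, nat_lit 4, nat_lit 0x48⟩ (t14_988) (t14_9180)) (.node ⟨nat_lit 7, nat_lit 0x4000400060, nat_lit 0x122201, nat_lit 1, nat_lit 4, nat_lit 0x4a⟩ (t14_5084) (t14_13276))) (.node ⟨nat_lit 6, nat_lit 0x80030, nat_lit 0x111102, nat_lit 0, nat_lit 4, nat_lit 0x48⟩ (.node ⟨nat_lit 5, nat_lit 0x100018, nat_lit 0x21111, nat_lit 4, nat_lit 3, nat_lit 0x47⟩ (t14_3036) (t14_11228)) (.node ⟨nat_lit 7, nat_lit 0x10001800600070, nat_lit 0x1012022, nat_lit 1, nat_lit 4, nat_lit 0x47⟩ (t14_7132) (t14_15324)))) (.node ⟨nat_lit 6, nat_lit 0x200020, nat_lit 0x21120, nat_lit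 0, nat_lit 4, nat_lit 0x49⟩ (.node ⟨nat_lit 6, nat_lit 0x800080030, nat_lit 0x311111, nat_lit 1, nat_lit 4, nat_lit 0x49⟩ (.node ⟨nat_lit 6, nat_lit 0x1000280030, nat_lit 0x112141, nat_lit 0, nat_lit 4, nat_lit 0x48⟩ (t14_2012) (t14_10204)) (.node ⟨nat_lit 7, nat_lit 0x10005000600060, nat_lit 0x12200, nat_lit 0, nat_lit 4, nat_lit 0x46⟩ (t14_6108) (t14_14300))) (.node ⟨nat_lit 7, nat_lit 0x20004000100044, nat_lit 0x2000302, nat_lit 3, nat_lit 4, nat_lit 0x4a⟩ (.node ⟨nat_lit 8, nat_lit 0x80009000c0006000d0, nat_lit 0x10011300, nat_lit 0, nat_lit 4, nat_lit 0x47⟩ (t14_4060) (t14_12252)) (.node ⟨nat_lit 6, nat_lit 0x200030, nat_lit 0x101122, nat_lit 3, nat_lit 4, nat_lit 0x49⟩ (t14_8156) (.nil)))))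
def t14_60 : Tr := .node ⟨nat_lit 6, nat_lit 0x300028, nat_lit 0x102211, nat_lit 3, nat_lit 4, nat_lit 0x49⟩ (.nil) (.nil)
def t14_8252 : Tr := .node ⟨nat_lit 4, nat_lit 0xc000c, nat_lit 0x1030, nat_lit 6, nat_lit 4, nat_lit 0x45⟩ (.nil) (.nil)
def t14_4156 : Tr := .node ⟨nat_lit 9, nat_lit 0x10001000040012001200180, nat_lit 0x11100111, nat_lit 1, nat_lit 4, nat_lit 0x49⟩ (.nil) (.nil)
def t14_12348 : Tr := .node ⟨nat_lit 5, nat_lit 0x100018001c, nat_lit 0x101, nat_lit 5, nat_lit 4, nat_lit 0x44⟩ (.nil) (.nil)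
def t14_2108 : Tr := .node ⟨nat_lit 7, nat_lit 0x40001000600068, nat_lit 0x1112120, nat_lit 0, nat_lit 4, nat_lit 0x48⟩ (.nil) (.nil)
def t14_10300 : Tr := .node ⟨nat_lit 7, nat_lit 0x40002000600068, nat_lit 0x1000012, nat_lit 0, nat_lit 4, nat_lit 0x46⟩ (.nil) (.nil)
def t14_6204 : Tr := .node ⟨nat_lit 7, nat_lit 0x100060, nat_lit 0x1001101, nat_lit 2, nat_lit 4, nat_lit 0x49⟩ (.nil) (.nil)
def t14_14396 : Tr := .node ⟨nat_lit 6, nat_lit 0x2000080030, nat_lit 0x130, nat_lit 1, nat_lit 4, nat_lit 0x46⟩ (.nil) (.nil)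
def t14_1084 : Tr := .node ⟨nat_lit 6, nat_lit 0x2000100024, nat_lit 0x111012, nat_lit 1, nat_lit 4, nat_lit 0x47⟩ (.nil) (.nil)
def t14_9276 : Tr := .node ⟨nat_lit 8, nat_lit 0x800080004000a000c000e0, nat_lit 0x103021, nat_lit 1, nat_lit 4, nat_lit 0x47⟩ (.nil) (.nil)
def t14_5180 : Tr := .node ⟨nat_lit 7, nat_lit 0x10004000400060, nat_lit 0x200310, nat_lit 1, nat_lit 4, nat_lit 0x49⟩ (.nil) (.nil)
def t14_13372 : Tr := .node ⟨nat_lit 6, nat_lit 0x10002000200030, nat_lit 0x204000, nat_lit 0, nat_lit 3, nat_lit 0x46⟩ (.nil) (.nil)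
def t14_3132 : Tr := .node ⟨nat_lit 7, nat_lit 0x20004000640064, nat_lit 0x1020021, nat_lit 0, nat_lit 4, nat_lit 0x46⟩ (.nil) (.nil)
def t14_11324 : Tr := .node ⟨nat_lit 7, nat_lit 0x4000600060, nat_lit 0x21120, nat_lit 4, nat_lit 4, nat_lit 0x49⟩ (.nil) (.nil)
def t14_7228 : Tr := .node ⟨nat_lit 6, nat_lit 0x20002000200038, nat_lit 0x22001, nat_lit 5, nat_lit 4, nat_lit 0x48⟩ (.nil) (.nil)
def t14_15420 : Tr := .node ⟨nat_lit 0xa, nat_lit 0x2000100010001000120012002800340, nat_lit 0x1011001011, nat_lit 0, nat_lit 4, nat_lit 0x48⟩ (.nil) (.nil)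
def t14_572 : Tr := .node ⟨nat_lit 6, nat_lit 0x2000300028, nat_lit 0x222, nat_lit 3, nat_lit 4, nat_lit 0x46⟩ (.nil) (.nil)
def t14_8764 : Tr := .node ⟨nat_lit 8, nat_lit 0x80008000400048009000e0, nat_lit 0x10101100, nat_lit 0, nat_lit 4, nat_lit 0x46⟩ (.nil) (.nil)
def t14_4668 : Tr := .node ⟨nat_lit 8, nat_lit 0x800040004000a000c8, nat_lit 0x10120021, nat_lit 0, nat_lit 4, nat_lit 0x48⟩ (.nil) (.nil)
def t14_12860 : Tr := .node ⟨nat_lit 7, nat_lit 0x20004000100060, nat_lit 0x21000, nat_lit 0, nat_lit 4, nat_lit 0x47⟩ (.nil) (.nil)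
def t14_2620 : Tr := .node ⟨nat_lit 7, nat_lit 0x40001000600060, nat_lit 0x13010, nat_lit 3, nat_lit 4, nat_lit 0x48⟩ (.nil) (.nil)
def t14_10812 : Tr := .node ⟨nat_lit 7, nat_lit 0x40002000200020, nat_lit 0x10220, nat_lit 7, nat_lit 4, nat_lit 0x4a⟩ (.nil) (.nil)
def t14_6716 : Tr := .node ⟨nat_lit 6, nat_lit 0x2000280030, nat_lit 0x11110, nat_lit 5, nat_lit 4, nat_lit 0x47⟩ (.nil) (.nil)
def t14_14908 : Tr := .node ⟨nat_lit 5, nat_lit 0x10001800180018, nat_lit 0x11211, nat_lit 8, nat_lit 4, nat_lit 0x47⟩ (.nil) (.nil)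
def t14_1596 : Tr := .node ⟨nat_lit 7, nat_lit 0x40004000200068, nat_lit 0x11201, nat_lit 0, nat_lit 4, nat_lit 0x47⟩ (.nil) (.nil)
def t14_9788 : Tr := .node ⟨nat_lit 8, nat_lit 0x20004000a000a000c0, nat_lit 0x20202, nat_lit 0, nat_lit 4, nat_lit 0x47⟩ (.nil) (.nil)
def t14_5692 : Tr := .node ⟨nat_lit 6, nat_lit 0x2000280030, nat_lit 0x12202, nat_lit 3, nat_lit 4, nat_lit 0x48⟩ (.nil) (.nil)
def t14_13884 : Tr := .node ⟨nat_lit 7, nat_lit 0x40001000480068, nat_lit 0x320, nat_lit 1, nat_lit 4, nat_lit 0x46⟩ (.nil) (.nil)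
def t14_3644 : Tr := .node ⟨nat_lit 5, nat_lit 0x100018, nat_lit 0x203, nat_lit 3, nat_lit 4, nat_lit 0x46⟩ (.nil) (.nil)
def t14_11836 : Tr := .node ⟨nat_lit 5, nat_lit 0x100008, nat_lit 0x123, nat_lit 3, nat_lit 4, nat_lit 0x47⟩ (.nil) (.nil)
def t14_7740 : Tr := .node ⟨nat_lit 5, nat_lit 0x1000100008, nat_lit 0x302, nat_lit 3, nat_lit 4, nat_lit 0x46⟩ (.nil) (.nil)
def t9_60 : Tr := .node ⟨nat_lit 4, nat_lit 8, nat_lit 0x3211, nat_lit 5, nat_lit 4, nat_lit 0x49⟩ (.node ⟨nat_lit 5, nat_lit 0x100010, nat_lit 0x13221, nat_lit 0, nat_lit 3, nat_lit 0x48⟩ (.node ⟨nat_lit 6, nat_lit 0x2000300030, nat_lit 0x3220, nat_lit 4, nat_lit 4, nat_lit 0x48⟩ (.node ⟨nat_lit 6, nat_lit 0x80030, nat_lit 0x101201, nat_lit 1, nat_lit 4, nat_lit 0x48⟩ (.node ⟨nat_lit 5, nat_lit 0x10, nat_lit 0x22223, nat_lit 0, nat_lit 3, nat_lit 0x49⟩ (t14_60) (t14_8252)) (.node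 ⟨nat_lit 7, nat_lit 0x40001000100060, nat_lit 0x111000, nat_lit 0, nat_lit 4, nat_lit 0x47⟩ (t14_4156) (t14_12348))) (.node ⟨nat_lit 4, nat_lit 0x8000c, nat_lit 0x1232, nat_lit 9, nat_lit 4, nat_lit 0x48⟩ (.node ⟨nat_lit 6, nat_lit 0x2000100030, nat_lit 0x12213, nat_lit 1, nat_lit 4, nat_lit 0x48⟩ (t14_2108) (t14_10300)) (.node ⟨nat_lit 6, nat_lit 0x800300038, nat_lit 0x2221, nat_lit 0, nat_lit 4, nat_lit 0x46⟩ (t14_6204) (t14_14396)))) (.node ⟨nat_lit 5, nat_lit 0x40018, nat_lit 0x21022, nat_lit 2, nat_lit 4, nat_lit 0x47⟩ (.node ⟨nat_lit 5, nat_lit 0x80010, nat_lit 0x22101, nat_lit 0, nat_lit 4, nat_lit 0x48⟩ (.node ⟨nat_lit 7, nat_lit 0x10001800500060, nat_lit 0x101113, nat_lit 0, nat_lit 4, nat_lit 0x46⟩ (t14_1084) (t14_9276)) (.node ⟨nat_lit 6, nat_lit 0x800300030, nat_lit 0x100041, nat_lit 3, nat_lit 4, nat_lit 0x47⟩ (t14_5180) (t14_13372)))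 (.node ⟨nat_lit 6, nat_lit 0x1000200032, nat_lit 0x212001, nat_lit 2, nat_lit 4, nat_lit 0x48⟩ (.node ⟨nat_lit 5, nat_lit 0x100018, nat_lit 0x10200, nat_lit 5, nat_lit 4, nat_lit 0x47⟩ (t14_3132) (t14_11324)) (.node ⟨nat_lit 3, nat_lit 0x40006, nat_lit 0x112, nat_lit 9, nat_lit 4, nat_lit 0x45⟩ (t14_7228) (t14_15420))))) (.node ⟨nat_lit 5, nat_lit 0x1000080014, nat_lit 0x13230, nat_lit 2, nat_lit 4, nat_lit 0x49⟩ (.node ⟨nat_lit 3, nat_lit 4, nat_lit 0x213, nat_lit 0xa, nat_lit 4, nat_lit 0x48⟩ (.node ⟨nat_lit 7, nat_lit 0x2000100040, nat_lit 0x1102101, nat_lit 0, nat_lit 3, nat_lit 0x48⟩ (.node ⟨nat_lit 8, nat_lit 0x8000800040, nat_lit 0x2111101, nat_lit 2, nat_lit 4, nat_lit 0x4c⟩ (t14_572) (t14_8764)) (.node ⟨nat_lit 6, nat_lit 0x200030, nat_lit 0x211102, nat_lit 1, nat_lit 3, nat_lit 0x48⟩ (t14_4668) (t14_12860))) (.node ⟨nat_lit 4, nat_lit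 0x8000c, nat_lit 0x1021, nat_lit 2, nat_lit 3, nat_lit 0x44⟩ (.node ⟨nat_lit 7, nat_lit 0x4000400020, nat_lit 0x111103, nat_lit 2, nat_lit 4, nat_lit 0x4a⟩ (t14_2620) (t14_10812)) (.node ⟨nat_lit 8, nat_lit 0x80, nat_lit 0x12111110, nat_lit 1, nat_lit 4, nat_lit 0x4e⟩ (t14_6716) (t14_14908)))) (.node ⟨nat_lit 6, nat_lit 0x2000100030, nat_lit 0x13210, nat_lit 0, nat_lit 4, nat_lit 0x48⟩ (.node ⟨nat_lit 6, nat_lit 0x200030, nat_lit 0x212201, nat_lit 0, nat_lit 4, nat_lit 0x4a⟩ (.node ⟨nat_lit 5, nat_lit 0x40018, nat_lit 0x10001, nat_lit 1, nat_lit 4, nat_lit 0x44⟩ (t14_1596) (t14_9788)) (.node ⟨nat_lit 6, nat_lit 0x2000300034, nat_lit 0x11212, nat_lit 3, nat_lit 4, nat_lit 0x47⟩ (t14_5692) (t14_13884))) (.node ⟨nat_lit 6, nat_lit 0x10002000240018, nat_lit 0x202001, nat_lit 1, nat_lit 4, nat_lit 0x46⟩ (.node ⟨nat_lit 6, nat_lit 0x800300030, nat_lit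 0x1200, nat_lit 0, nat_lit 4, nat_lit 0x45⟩ (t14_3644) (t14_11836)) (.node ⟨nat_lit 5, nat_lit 0x140018, nat_lit 0x21100, nat_lit 3, nat_lit 3, nat_lit 0x46⟩ (t14_7740) (.nil)))))
def t14_316 : Tr := .node ⟨nat_lit 7, nat_lit 0x1000500060, nat_lit 0x211212, nat_lit 1, nat_lit 4, nat_lit 0x49⟩ (.nil) (.nil)
def t14_8508 : Tr := .node ⟨nat_lit 8, nat_lit 0x8000800040004000a000e0, nat_lit 0x111013, nat_lit 2, nat_lit 4, nat_lit 0x47⟩ (.nil) (.nil)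
def t14_4412 : Tr := .node ⟨nat_lit 7, nat_lit 0x4000100020, nat_lit 0x1111010, nat_lit 7, nat_lit 4, nat_lit 0x4b⟩ (.nil) (.nil)
def t14_12604 : Tr := .node ⟨nat_lit 6, nat_lit 0x2800300038, nat_lit 0x100023, nat_lit 2, nat_lit 4, nat_lit 0x45⟩ (.nil) (.nil)
def t14_2364 : Tr := .node ⟨nat_lit 7, nat_lit 0x4000100020, nat_lit 0x201020, nat_lit 0, nat_lit 4, nat_lit 0x49⟩ (.nil) (.nil)
def t14_10556 : Tr := .node ⟨nat_lit 6, nat_lit 0x2000240030, nat_lit 0x1020, nat_lit 4, nat_lit 4, nat_lit 0x46⟩ (.nil) (.nil)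
def t14_6460 : Tr := .node ⟨nat_lit 5, nat_lit 0x800100018, nat_lit 0x11110, nat_lit 7, nat_lit 4, nat_lit 0x47⟩ (.nil) (.nil)
def t14_14652 : Tr := .node ⟨nat_lit 8, nat_lit 0x80008800a000c0, nat_lit 0x1112011, nat_lit 0, nat_lit 4, nat_lit 0x49⟩ (.nil) (.nil)
def t14_1340 : Tr := .node ⟨nat_lit 7, nat_lit 0x200040004000480030, nat_lit 0x1021111, nat_lit 1, nat_lit 4, nat_lit 0x47⟩ (.nil) (.nil)
def t14_9532 : Tr := .node ⟨nat_lit 7, nat_lit 0x400040005000500048, nat_lit 0x1111110, nat_lit 6, nat_lit 4, nat_lit 0x49⟩ (.nil) (.nil)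
def t14_5436 : Tr := .node ⟨nat_lit 6, nat_lit 0x200030, nat_lit 0x1131, nat_lit 5, nat_lit 4, nat_lit 0x49⟩ (.nil) (.nil)
def t14_13628 : Tr := .node ⟨nat_lit 6, nat_lit 0x2000280034, nat_lit 0x120, nat_lit 2, nat_lit 4, nat_lit 0x45⟩ (.nil) (.nil)
def t14_3388 : Tr := .node ⟨nat_lit 7, nat_lit 0x1000600050, nat_lit 0x2001, nat_lit 1, nat_lit 4, nat_lit 0x47⟩ (.nil) (.nil)
def t14_11580 : Tr := .node ⟨nat_lit 7, nat_lit 0x6000600060, nat_lit 0x11410, nat_lit 0, nat_lit 4, nat_lit 0x48⟩ (.nil) (.nil)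
def t14_7484 : Tr := .node ⟨nat_lit 8, nat_lit 0x800080002000c0, nat_lit 0x10111111, nat_lit 1, nat_lit 4, nat_lit 0x4a⟩ (.nil) (.nil)
def t14_828 : Tr := .node ⟨nat_lit 7, nat_lit 0x200020004000400070, nat_lit 0x112311, nat_lit 1, nat_lit 4, nat_lit 0x48⟩ (.nil) (.nil)
def t14_9020 : Tr := .node ⟨nat_lit 7, nat_lit 0x40002000600070, nat_lit 0x13012, nat_lit 0, nat_lit 4, nat_lit 0x47⟩ (.nil) (.nil)
def t14_4924 : Tr := .node ⟨nat_lit 5, nat_lit 0x1000100018, nat_lit 0x1301, nat_lit 9, nat_lit 4, nat_lit 0x48⟩ (.nil) (.nil)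
def t14_13116 : Tr := .node ⟨nat_lit 5, nat_lit 0x180014, nat_lit 0x20000, nat_lit 3, nat_lit 3, nat_lit 0x45⟩ (.nil) (.nil)
def t14_2876 : Tr := .node ⟨nat_lit 8, nat_lit 0x8000800040004000c0, nat_lit 0x121210, nat_lit 0, nat_lit 4, nat_lit 0x49⟩ (.nil) (.nil)
def t14_11068 : Tr := .node ⟨nat_lit 4, nat_lit 0xc000c, nat_lit 0x20, nat_lit 0xd, nat_lit 4, nat_lit 0x46⟩ (.nil) (.nil)
def t14_6972 : Tr := .node ⟨nat_lit 7, nat_lit 0x4000180060, nat_lit 0x21011, nat_lit 1, nat_lit 4, nat_lit 0x48⟩ (.nil) (.nil)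
def t14_15164 : Tr := .node ⟨nat_lit 9, nat_lit 0x10001000080008001200188, nat_lit 0x11101111, nat_lit 0, nat_lit 4, nat_lit 0x49⟩ (.nil) (.nil)
def t14_1852 : Tr := .node ⟨nat_lit 5, nat_lit 0x40018, nat_lit 0x30103, nat_lit 0, nat_lit 4, nat_lit 0x47⟩ (.nil) (.nil)
def t14_10044 : Tr := .node ⟨nat_lit 6, nat_lit 0x20003000380038, nat_lit 0x100220, nat_lit 8, nat_lit 4, nat_lit 0x46⟩ (.nil) (.nil)
def t14_5948 : Tr := .node ⟨nat_lit 7, nat_lit 0x4000500060, nat_lit 0x111211, nat_lit 4, nat_lit 4, nat_lit 0x49⟩ (.nil) (.nil)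
def t14_14140 : Tr := .node ⟨nat_lit 7, nat_lit 0x400040004000200020, nat_lit 0x21121, nat_lit 1, nat_lit 4, nat_lit 0x48⟩ (.nil) (.nil)
def t14_3900 : Tr := .node ⟨nat_lit 9, nat_lit 0x8000800100011001c001c001a0, nat_lit 0x10100201, nat_lit 1, nat_lit 4, nat_lit 0x46⟩ (.nil) (.nil)
def t14_12092 : Tr := .node ⟨nat_lit 7, nat_lit 0x10006000600050, nat_lit 0x11210, nat_lit 5, nat_lit 4, nat_lit 0x47⟩ (.nil) (.nil)
def t14_7996 : Tr := .node ⟨nat_lit 6, nat_lit 0x10002000240018, nat_lit 0x102004, nat_lit 3, nat_lit 4, nat_lit 0x47⟩ (.nil) (.nil)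
def t9_316 : Tr := .node ⟨nat_lit 5, nat_lit 0x80010, nat_lit 0x11311, nat_lit 5, nat_lit 4, nat_lit 0x49⟩ (.node ⟨nat_lit 6, nat_lit 0x20001000100028, nat_lit 0x301202, nat_lit 0, nat_lit 4, nat_lit 0x48⟩ (.node ⟨nat_lit 2, nat_lit 0, nat_lit 0x31, nat_lit 0x14, nat_lit 4, nat_lit 0x49⟩ (.node ⟨nat_lit 6, nat_lit 0x200010, nat_lit 0x11102, nat_lit 0, nat_lit 4, nat_lit 0x48⟩ (.node ⟨nat_lit 7, nat_lit 0x40004800480030, nat_lit 0x2211101, nat_lit 0, nat_lit 4, nat_lit 0x49⟩ (t14_316) (t14_8508)) (.node ⟨nat_lit 6, nat_lit 0x800200030, nat_lit 0x110040, nat_lit 3, nat_lit 3, nat_lit 0x47⟩ (t14_4412) (t14_12604))) (.node ⟨nat_lit 7, nat_lit 0x600060, nat_lit 0x2011122, nat_lit 0, nat_lit 4, nat_lit 0x4a⟩ (.node ⟨nat_lit 8, nat_lit 0x2000800080004000c0, nat_lit 0x1002023, nat_lit 0, nat_lit 4, nat_lit 0x49⟩ (t14_2364) (t14_10556)) (.node ⟨nat_lit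 6, nat_lit 0x2000080010, nat_lit 0x2012, nat_lit 3, nat_lit 4, nat_lit 0x48⟩ (t14_6460) (t14_14652)))) (.node ⟨nat_lit 6, nat_lit 0x80030, nat_lit 0x102111, nat_lit 0, nat_lit 4, nat_lit 0x48⟩ (.node ⟨nat_lit 7, nat_lit 0x4000100060, nat_lit 0x221022, nat_lit 0, nat_lit 4, nat_lit 0x4a⟩ (.node ⟨nat_lit 4, nat_lit 0x80004, nat_lit 0x1004, nat_lit 3, nat_lit 3, nat_lit 0x45⟩ (t14_1340) (t14_9532)) (.node ⟨nat_lit 7, nat_lit 0x20005000680068, nat_lit 0x221210, nat_lit 0, nat_lit 4, nat_lit 0x47⟩ (t14_5436) (t14_13628))) (.node ⟨nat_lit 5, nat_lit 0x18, nat_lit 0x220, nat_lit 4, nat_lit 4, nat_lit 0x48⟩ (.node ⟨nat_lit 7, nat_lit 0x400040004800580070, nat_lit 0x101010, nat_lit 1, nat_lit 4, nat_lit 0x45⟩ (t14_3388) (t14_11580)) (.node ⟨nat_lit 7, nat_lit 0x40002000100060, nat_lit 0x10112, nat_lit 1, nat_lit 4, nat_lit 0x47⟩ (t14_7484) (.nil))))) (.node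 ⟨nat_lit 5, nat_lit 0x18, nat_lit 0x10312, nat_lit 2, nat_lit 4, nat_lit 0x48⟩ (.node ⟨nat_lit 5, nat_lit 0x140018, nat_lit 0x1221, nat_lit 3, nat_lit 4, nat_lit 0x46⟩ (.node ⟨nat_lit 5, nat_lit 0x10, nat_lit 0x11110, nat_lit 1, nat_lit 4, nat_lit 0x47⟩ (.node ⟨nat_lit 6, nat_lit 0x100020, nat_lit 0x222120, nat_lit 0, nat_lit 4, nat_lit 0x4b⟩ (t14_828) (t14_9020)) (.node ⟨nat_lit 7, nat_lit 0x4000200020, nat_lit 0x121020, nat_lit 5, nat_lit 4, nat_lit 0x4b⟩ (t14_4924) (t14_13116))) (.node ⟨nat_lit 7, nat_lit 0x10004000500064, nat_lit 0x1100120, nat_lit 0, nat_lit 4, nat_lit 0x47⟩ (.node ⟨nat_lit 6, nat_lit 0x200010, nat_lit 0x11102, nat_lit 3, nat_lit 4, nat_lit 0x49⟩ (t14_2876) (t14_11068)) (.node ⟨nat_lit 8, nat_lit 0x8000200090009000d0, nat_lit 0x11010220, nat_lit 0, nat_lit 4, nat_lit 0x48⟩ (t14_6972) (t14_15164)))) (.node ⟨nat_lit 5, nat_lit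 0x18, nat_lit 0x22110, nat_lit 3, nat_lit 4, nat_lit 0x49⟩ (.node ⟨nat_lit 6, nat_lit 0x2800180030, nat_lit 0x120211, nat_lit 0, nat_lit 4, nat_lit 0x46⟩ (.node ⟨nat_lit 6, nat_lit 0x20002000100010, nat_lit 0x1010, nat_lit 3, nat_lit 4, nat_lit 0x46⟩ (t14_1852) (t14_10044)) (.node ⟨nat_lit 7, nat_lit 0x20002000400040, nat_lit 0x1022000, nat_lit 1, nat_lit 4, nat_lit 0x49⟩ (t14_5948) (t14_14140))) (.node ⟨nat_lit 7, nat_lit 0x40002000500068, nat_lit 0x12012, nat_lit 0, nat_lit 4, nat_lit 0x46⟩ (.node ⟨nat_lit 8, nat_lit 0x4000800088006000e0, nat_lit 0x10002003, nat_lit 0, nat_lit 4, nat_lit 0x47⟩ (t14_3900) (t14_12092)) (.node ⟨nat_lit 8, nat_lit 0x20002000c000c0, nat_lit 0x10021021, nat_lit 0, nat_lit 4, nat_lit 0x49⟩ (t14_7996) (.nil)))))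
def t14_188 : Tr := .node ⟨nat_lit 6, nat_lit 0x800300030, nat_lit 0x102111, nat_lit 2, nat_lit 4, nat_lit 0x47⟩ (.nil) (.nil)
def t14_8380 : Tr := .node ⟨nat_lit 6, nat_lit 0x200022, nat_lit 0x11103, nat_lit 0, nat_lit 4, nat_lit 0x47⟩ (.nil) (.nil)
def t14_4284 : Tr := .node ⟨nat_lit 7, nat_lit 0x4000400020, nat_lit 0x121201, nat_lit 1, nat_lit 4, nat_lit 0x4a⟩ (.nil) (.nil)
def t14_12476 : Tr := .node ⟨nat_lit 7, nat_lit 0x4000400060, nat_lit 0x10003, nat_lit 1, nat_lit 4, nat_lit 0x48⟩ (.nil) (.nil)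
def t14_2236 : Tr := .node ⟨nat_lit 7, nat_lit 0x200020004000300044, nat_lit 0x2021120, nat_lit 1, nat_lit 4, nat_lit 0x48⟩ (.nil) (.nil)
def t14_10428 : Tr := .node ⟨nat_lit 7, nat_lit 0x20004000680070, nat_lit 0x111202, nat_lit 2, nat_lit 4, nat_lit 0x47⟩ (.nil) (.nil)
def t14_6332 : Tr := .node ⟨nat_lit 5, nat_lit 0x100018001c, nat_lit 0x10120, nat_lit 4, nat_lit 4, nat_lit 0x45⟩ (.nil) (.nil)
def t14_14524 : Tr := .node ⟨nat_lit 8, nat_lit 0x800010002000c0, nat_lit 0x102000, nat_lit 3, nat_lit 4, nat_lit 0x49⟩ (.nil) (.nil)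
def t14_1212 : Tr := .node ⟨nat_lit 6, nat_lit 0x1000200034, nat_lit 0x1131, nat_lit 0, nat_lit 4, nat_lit 0x46⟩ (.nil) (.nil)
def t14_9404 : Tr := .node ⟨nat_lit 7, nat_lit 0x10001000600050, nat_lit 0x1002102, nat_lit 2, nat_lit 4, nat_lit 0x48⟩ (.nil) (.nil)
def t14_5308 : Tr := .node ⟨nat_lit 7, nat_lit 0x2000500060, nat_lit 0x1111120, nat_lit 1, nat_lit 4, nat_lit 0x49⟩ (.nil) (.nil)
def t14_13500 : Tr := .node ⟨nat_lit 2, nat_lit 2, nat_lit 2, nat_lit 0xd, nat_lit 3, nat_lit 0x44⟩ (.nil) (.nil)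
def t14_3260 : Tr := .node ⟨nat_lit 7, nat_lit 0x100060, nat_lit 0x2102101, nat_lit 0, nat_lit 3, nat_lit 0x49⟩ (.nil) (.nil)
def t14_11452 : Tr := .node ⟨nat_lit 8, nat_lit 0x4000400080008000e000e0, nat_lit 0x1021120, nat_lit 0, nat_lit 4, nat_lit 0x47⟩ (.nil) (.nil)
def t14_7356 : Tr := .node ⟨nat_lit 6, nat_lit 0x2000080030, nat_lit 0x202121, nat_lit 1, nat_lit 4, nat_lit 0x49⟩ (.nil) (.nil)
def t14_15548 : Tr := .node ⟨nat_lit 9, nat_lit 0x1000100, nat_lit 0x11111110, nat_lit 2, nat_lit 4, nat_lit 0x4e⟩ (.nil) (.nil)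
def t14_700 : Tr := .node ⟨nat_lit 6, nat_lit 0x10002000200034, nat_lit 0x103111, nat_lit 3, nat_lit 4, nat_lit 0x47⟩ (.nil) (.nil)
def t14_8892 : Tr := .node ⟨nat_lit 7, nat_lit 0x40001000500060, nat_lit 0x1103, nat_lit 0, nat_lit 4, nat_lit 0x46⟩ (.nil) (.nil)
def t14_4796 : Tr := .node ⟨nat_lit 4, nat_lit 8, nat_lit 0x322, nat_lit 2, nat_lit 3, nat_lit 0x47⟩ (.nil) (.nil)
def t14_12988 : Tr := .node ⟨nat_lit 7, nat_lit 0x40002000480048, nat_lit 0x12020, nat_lit 2, nat_lit 4, nat_lit 0x48⟩ (.nil) (.nil)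
def t14_2748 : Tr := .node ⟨nat_lit 7, nat_lit 0x20002000400060, nat_lit 0x21120, nat_lit 0, nat_lit 4, nat_lit 0x48⟩ (.nil) (.nil)
def t14_10940 : Tr := .node ⟨nat_lit 8, nat_lit 0x800040004000a000a000d0, nat_lit 0x20101, nat_lit 2, nat_lit 4, nat_lit 0x46⟩ (.nil) (.nil)
def t14_6844 : Tr := .node ⟨nat_lit 6, nat_lit 0x20001000280028, nat_lit 0x112110, nat_lit 4, nat_lit 4, nat_lit 0x48⟩ (.nil) (.nil)
def t14_15036 : Tr := .node ⟨nat_lit 8, nat_lit 0x40008000900060006000c0, nat_lit 0x10110111, nat_lit 2, nat_lit 4, nat_lit 0x47⟩ (.nil) (.nil)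
def t14_1724 : Tr := .node ⟨nat_lit 8, nat_lit 0x800040009000d000c8, nat_lit 0x111110, nat_lit 0, nat_lit 4, nat_lit 0x46⟩ (.nil) (.nil)
def t14_9916 : Tr := .node ⟨nat_lit 6, nat_lit 0x3000300030, nat_lit 0x2420, nat_lit 3, nat_lit 4, nat_lit 0x47⟩ (.nil) (.nil)
def t14_5820 : Tr := .node ⟨nat_lit 5, nat_lit 0x80010, nat_lit 0x1103, nat_lit 6, nat_lit 4, nat_lit 0x48⟩ (.nil) (.nil)
def t14_14012 : Tr := .node ⟨nat_lit 5, nat_lit 0x100008, nat_lit 0x121, nat_lit 5, nat_lit 4, nat_lit 0x47⟩ (.nil) (.nil)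
def t14_3772 : Tr := .node ⟨nat_lit 8, nat_lit 0x8000800040004000a000a0, nat_lit 0x22100, nat_lit 1, nat_lit 4, nat_lit 0x47⟩ (.nil) (.nil)
def t14_11964 : Tr := .node ⟨nat_lit 5, nat_lit 0x1000140018, nat_lit 0x1220, nat_lit 9, nat_lit 4, nat_lit 0x47⟩ (.nil) (.nil)
def t14_7868 : Tr := .node ⟨nat_lit 7, nat_lit 0x400020002000500050, nat_lit 0x11021, nat_lit 0, nat_lit 4, nat_lit 0x46⟩ (.nil) (.nil)
def t9_188 : Tr := .node ⟨nat_lit 5, nat_lit 0x10, nat_lit 0x23112, nat_lit 0, nat_lit 4, nat_lit 0x4a⟩ (.node ⟨nat_lit 7, nat_lit 0x200040004800300070, nat_lit 0x1302102, nat_lit 0, nat_lit 4, nat_lit 0x48⟩ (.node ⟨nat_lit 6, nat_lit 0x1000100020, nat_lit 0x103210, nat_lit 2, nat_lit 4, nat_lit 0x49⟩ (.node ⟨nat_lit 5, nat_lit 0x40018, nat_lit 0x21114, nat_lit 1, nat_lit 4, nat_lit 0x48⟩ (.node ⟨nat_lit 7, nat_lit 0x20004000100060, nat_lit 0x212012,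 nat_lit 0, nat_lit 4, nat_lit 0x49⟩ (t14_188) (t14_8380)) (.node ⟨nat_lit 6, nat_lit 0x10002000180024, nat_lit 0x102100, nat_lit 0, nat_lit 4, nat_lit 0x45⟩ (t14_4284) (t14_12476))) (.node ⟨nat_lit 4, nat_lit 8, nat_lit 0x2224, nat_lit 1, nat_lit 3, nat_lit 0x48⟩ (.node ⟨nat_lit 7, nat_lit 0x1000500060, nat_lit 0x1001231, nat_lit 0, nat_lit 4, nat_lit 0x48⟩ (t14_2236) (t14_10428)) (.node ⟨nat_lit 5, nat_lit 0x100018, nat_lit 0x1232, nat_lit 5, nat_lit 4, nat_lit 0x48⟩ (t14_6332) (t14_14524)))) (.node ⟨nat_lit 6, nat_lit 0x200020, nat_lit 0x111121, nat_lit 3, nat_lit 4, nat_lit 0x4a⟩ (.node ⟨nat_lit 6, nat_lit 0x80030, nat_lit 0x211211, nat_lit 3, nat_lit 4, nat_lit 0x4a⟩ (.node ⟨nat_lit 6, nat_lit 0x1000080020, nat_lit 0x111041, nat_lit 1, nat_lit 4, nat_lit 0x49⟩ (t14_1212) (t14_9404)) (.node ⟨nat_lit 6, nat_lit 0x280030, nat_lit 0x111221, nat_lit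 4, nat_lit 4, nat_lit 0x49⟩ (t14_5308) (t14_13500))) (.node ⟨nat_lit 6, nat_lit 0x2000080030, nat_lit 0x2330, nat_lit 0, nat_lit 4, nat_lit 0x48⟩ (.node ⟨nat_lit 6, nat_lit 0x1000200030, nat_lit 0x12001, nat_lit 0, nat_lit 3, nat_lit 0x46⟩ (t14_3260) (t14_11452)) (.node ⟨nat_lit 7, nat_lit 0x40001000200020, nat_lit 0x110110, nat_lit 0, nat_lit 4, nat_lit 0x48⟩ (t14_7356) (t14_15548))))) (.node ⟨nat_lit 3, nat_lit 4, nat_lit 0x312, nat_lit 0xc, nat_lit 4, nat_lit 0x49⟩ (.node ⟨nat_lit 3, nat_lit 6, nat_lit 0x101, nat_lit 5, nat_lit 3, nat_lit 0x43⟩ (.node ⟨nat_lit 7, nat_lit 0x4000100060, nat_lit 0x112210, nat_lit 0, nat_lit 4, nat_lit 0x49⟩ (.node ⟨nat_lit 7, nat_lit 0x5000180060, nat_lit 0x210120, nat_lit 1, nat_lit 4, nat_lit 0x47⟩ (t14_700) (t14_8892)) (.node ⟨nat_lit 5, nat_lit 0x100008001a, nat_lit 0x1320, nat_lit 3, nat_lit 4, nat_lit 0x46⟩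 (t14_4796) (t14_12988))) (.node ⟨nat_lit 6, nat_lit 0x80030, nat_lit 0x100101, nat_lit 2, nat_lit 4, nat_lit 0x47⟩ (.node ⟨nat_lit 7, nat_lit 0x40002000480070, nat_lit 0x121003, nat_lit 1, nat_lit 4, nat_lit 0x47⟩ (t14_2748) (t14_10940)) (.node ⟨nat_lit 7, nat_lit 0x10001000100060, nat_lit 0x1101002, nat_lit 2, nat_lit 4, nat_lit 0x48⟩ (t14_6844) (t14_15036)))) (.node ⟨nat_lit 5, nat_lit 0x1000080008, nat_lit 0x1032, nat_lit 1, nat_lit 3, nat_lit 0x46⟩ (.node ⟨nat_lit 6, nat_lit 0x10002000180024, nat_lit 0x112101, nat_lit 0, nat_lit 4, nat_lit 0x46⟩ (.node ⟨nat_lit 5, nat_lit 0x800100018, nat_lit 0x201, nat_lit 4, nat_lit 4, nat_lit 0x45⟩ (t14_1724) (t14_9916)) (.node ⟨nat_lit 7, nat_lit 0x40004000200060, nat_lit 0x22021, nat_lit 0, nat_lit 4, nat_lit 0x48⟩ (t14_5820) (t14_14012))) (.node ⟨nat_lit 7, nat_lit 0x800600050, nat_lit 0x121102, nat_lit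 2, nat_lit 4, nat_lit 0x49⟩ (.node ⟨nat_lit 5, nat_lit 0x140018, nat_lit 0x11001, nat_lit 2, nat_lit 4, nat_lit 0x45⟩ (t14_3772) (t14_11964)) (.node ⟨nat_lit 6, nat_lit 0x300030, nat_lit 0x101121, nat_lit 3, nat_lit 4, nat_lit 0x48⟩ (t14_7868) (.nil)))))
def t14_444 : Tr := .node ⟨nat_lit 7, nat_lit 0x40004000200020, nat_lit 0x1112210, nat_lit 0, nat_lit 4, nat_lit 0x4a⟩ (.nil) (.nil)
def t14_8636 : Tr := .node ⟨nat_lit 5, nat_lit 0x40018, nat_lit 0, nat_lit 1, nat_lit 4, nat_lit 0x43⟩ (.nil) (.nil)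
def t14_4540 : Tr := .node ⟨nat_lit 6, nat_lit 0x2000080010, nat_lit 0x21030, nat_lit 2, nat_lit 4, nat_lit 0x49⟩ (.nil) (.nil)
def t14_12732 : Tr := .node ⟨nat_lit 6, nat_lit 0x200030, nat_lit 0x31120, nat_lit 0, nat_lit 4, nat_lit 0x49⟩ (.nil) (.nil)
def t14_2492 : Tr := .node ⟨nat_lit 7, nat_lit 0x40002000480060, nat_lit 0x112200, nat_lit 0, nat_lit 4, nat_lit 0x48⟩ (.nil) (.nil)
def t14_10684 : Tr := .node ⟨nat_lit 6, nat_lit 0x1000280034, nat_lit 0x1102, nat_lit 2, nat_lit 4, nat_lit 0x45⟩ (.nil) (.nil)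
def t14_6588 : Tr := .node ⟨nat_lit 6, nat_lit 0x2000080030, nat_lit 0x31210, nat_lit 1, nat_lit 4, nat_lit 0x48⟩ (.nil) (.nil)
def t14_14780 : Tr := .node ⟨nat_lit 8, nat_lit 0x400020002000c000a0, nat_lit 0x10011112, nat_lit 0, nat_lit 4, nat_lit 0x48⟩ (.nil) (.nil)
def t14_1468 : Tr := .node ⟨nat_lit 8, nat_lit 0x800080008000400090, nat_lit 0x1121011, nat_lit 2, nat_lit 4, nat_lit 0x4a⟩ (.nil) (.nil)
def t14_9660 : Tr := .node ⟨nat_lit 6, nat_lit 0x20001000300030, nat_lit 0x1022, nat_lit 4, nat_lit 4, nat_lit 0x46⟩ (.nil) (.nil)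
def t14_5564 : Tr := .node ⟨nat_lit 8, nat_lit 0x80004000400088, nat_lit 0x112002, nat_lit 1, nat_lit 4, nat_lit 0x49⟩ (.nil) (.nil)
def t14_13756 : Tr := .node ⟨nat_lit 7, nat_lit 0x40002000640058, nat_lit 0x122000, nat_lit 1, nat_lit 4, nat_lit 0x47⟩ (.nil) (.nil)
def t14_3516 : Tr := .node ⟨nat_lit 5, nat_lit 0x40018, nat_lit 1, nat_lit 1, nat_lit 4, nat_lit 0x43⟩ (.nil) (.nil)
def t14_11708 : Tr := .node ⟨nat_lit 8, nat_lit 0x80002000c000d000d0, nat_lit 0x10101210, nat_lit 1, nat_lit 4, nat_lit 0x47⟩ (.nil) (.nil)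
def t14_7612 : Tr := .node ⟨nat_lit 7, nat_lit 0x400020002000500060, nat_lit 0x21103, nat_lit 2, nat_lit 4, nat_lit 0x47⟩ (.nil) (.nil)
def t14_956 : Tr := .node ⟨nat_lit 6, nat_lit 0x2000080030, nat_lit 0x21201, nat_lit 3, nat_lit 4, nat_lit 0x48⟩ (.nil) (.nil)
def t14_9148 : Tr := .node ⟨nat_lit 6, nat_lit 0x20001000280030, nat_lit 0x103, nat_lit 2, nat_lit 4, nat_lit 0x45⟩ (.nil) (.nil)
def t14_5052 : Tr := .node ⟨nat_lit 6, nat_lit 0x10002000300034, nat_lit 0x101113, nat_lit 4, nat_lit 4, nat_lit 0x46⟩ (.nil) (.nil)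
def t14_13244 : Tr := .node ⟨nat_lit 6, nat_lit 0x20001000100028, nat_lit 0x3001, nat_lit 4, nat_lit 4, nat_lit 0x47⟩ (.nil) (.nil)
def t14_3004 : Tr := .node ⟨nat_lit 4, nat_lit 0xc000c, nat_lit 0x2121, nat_lit 2, nat_lit 3, nat_lit 0x45⟩ (.nil) (.nil)
def t14_11196 : Tr := .node ⟨nat_lit 7, nat_lit 0x6000500070, nat_lit 0x111102, nat_lit 1, nat_lit 4, nat_lit 0x47⟩ (.nil) (.nil)
def t14_7100 : Tr := .node ⟨nat_lit 5, nat_lit 0x180018, nat_lit 0x10311, nat_lit 7, nat_lit 4, nat_lit 0x48⟩ (.nil) (.nil)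
def t14_15292 : Tr := .node ⟨nat_lit 8, nat_lit 0x400020002000c000a0, nat_lit 0x10011012, nat_lit 1, nat_lit 4, nat_lit 0x48⟩ (.nil) (.nil)
def t14_1980 : Tr := .node ⟨nat_lit 7, nat_lit 0x10004000400060, nat_lit 0x200112, nat_lit 4, nat_lit 4, nat_lit 0x49⟩ (.nil) (.nil)
def t14_10172 : Tr := .node ⟨nat_lit 7, nat_lit 0x20004000600064, nat_lit 0x10020, nat_lit 2, nat_lit 4, nat_lit 0x46⟩ (.nil) (.nil)
def t14_6076 : Tr := .node ⟨nat_lit 0xa, nat_lit 0x20002000200010002200220, nat_lit 0x111011010, nat_lit 0, nat_lit 4, nat_lit 0x4b⟩ (.nil) (.nil)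
def t14_14268 : Tr := .node ⟨nat_lit 8, nat_lit 0x200080008000c0, nat_lit 0x10210, nat_lit 5, nat_lit 4, nat_lit 0x4a⟩ (.nil) (.nil)
def t14_4028 : Tr := .node ⟨nat_lit 6, nat_lit 0x2000080030, nat_lit 0x100102, nat_lit 0, nat_lit 4, nat_lit 0x46⟩ (.nil) (.nil)
def t14_12220 : Tr := .node ⟨nat_lit 7, nat_lit 0x4000500060, nat_lit 0x211120, nat_lit 1, nat_lit 4, nat_lit 0x49⟩ (.nil) (.nil)
def t14_8124 : Tr := .node ⟨nat_lit 7, nat_lit 0x40002000480048, nat_lit 0x11041, nat_lit 2, nat_lit 4, nat_lit 0x48⟩ (.nil) (.nil)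
def t9_444 : Tr := .node ⟨nat_lit 6, nat_lit 0x1000100020, nat_lit 0x301103, nat_lit 1, nat_lit 4, nat_lit 0x4a⟩ (.node ⟨nat_lit 4, nat_lit 8, nat_lit 0x113, nat_lit 1, nat_lit 3, nat_lit 0x45⟩ (.node ⟨nat_lit 7, nat_lit 0x1000400060, nat_lit 0x202012, nat_lit 0, nat_lit 4, nat_lit 0x49⟩ (.node ⟨nat_lit 5, nat_lit 0x100008, nat_lit 0x1222, nat_lit 4, nat_lit 4, nat_lit 0x48⟩ (.node ⟨nat_lit 4, nat_lit 0xc000c, nat_lit 0x10, nat_lit 3, nat_lit 3, nat_lit 0x42⟩ (t14_444) (t14_8636)) (.node ⟨nat_lit 7, nat_lit 0x2000400042, nat_lit 0x2021012, nat_lit 1, nat_lit 4, nat_lit 0x4a⟩ (t14_4540) (t14_12732))) (.node ⟨nat_lit 6, nat_lit 0x10001000200022, nat_lit 0x113100, nat_lit 3, nat_lit 4, nat_lit 0x48⟩ (.node ⟨nat_lit 6, nat_lit 0x2000100030, nat_lit 0x111113, nat_lit 4, nat_lit 4, nat_lit 0x49⟩ (t14_2492) (t14_10684)) (.node ⟨nat_lit 7, nat_lit 0x4000600060,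 nat_lit 0x21030, nat_lit 0, nat_lit 4, nat_lit 0x48⟩ (t14_6588) (t14_14780)))) (.node ⟨nat_lit 4, nat_lit 0xc, nat_lit 0x2021, nat_lit 6, nat_lit 4, nat_lit 0x47⟩ (.node ⟨nat_lit 7, nat_lit 0x400040, nat_lit 0x221020, nat_lit 0, nat_lit 4, nat_lit 0x4b⟩ (.node ⟨nat_lit 6, nat_lit 0x2000200034, nat_lit 0x11113, nat_lit 2, nat_lit 4, nat_lit 0x47⟩ (t14_1468) (t14_9660)) (.node ⟨nat_lit 5, nat_lit 0x100008001a, nat_lit 0x11211, nat_lit 3, nat_lit 4, nat_lit 0x46⟩ (t14_5564) (t14_13756))) (.node ⟨nat_lit 6, nat_lit 0x1000200020, nat_lit 0x12200, nat_lit 5, nat_lit 4, nat_lit 0x49⟩ (.node ⟨nat_lit 6, nat_lit 0x2000280034, nat_lit 0x11000, nat_lit 1, nat_lit 4, nat_lit 0x45⟩ (t14_3516) (t14_11708)) (.node ⟨nat_lit 7, nat_lit 0x400040002000500050, nat_lit 0x1111100, nat_lit 7, nat_lit 4, nat_lit 0x49⟩ (t14_7612) (.nil))))) (.node ⟨nat_lit 5, nat_lit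 0x18, nat_lit 0x31202, nat_lit 0, nat_lit 4, nat_lit 0x49⟩ (.node ⟨nat_lit 4, nat_lit 8, nat_lit 0x1220, nat_lit 9, nat_lit 4, nat_lit 0x49⟩ (.node ⟨nat_lit 6, nat_lit 0x2000200010, nat_lit 0x111111, nat_lit 5, nat_lit 4, nat_lit 0x49⟩ (.node ⟨nat_lit 6, nat_lit 0x800100020, nat_lit 0x111131, nat_lit 3, nat_lit 4, nat_lit 0x49⟩ (t14_956) (t14_9148)) (.node ⟨nat_lit 4, nat_lit 0, nat_lit 0x3221, nat_lit 6, nat_lit 3, nat_lit 0x49⟩ (t14_5052) (t14_13244))) (.node ⟨nat_lit 3, nat_lit 6, nat_lit 0x212, nat_lit 8, nat_lit 4, nat_lit 0x46⟩ (.node ⟨nat_lit 5, nat_lit 0x10, nat_lit 0x12112, nat_lit 4, nat_lit 3, nat_lit 0x48⟩ (t14_3004) (t14_11196)) (.node ⟨nat_lit 6, nat_lit 0x200030, nat_lit 0x111122, nat_lit 6, nat_lit 4, nat_lit 0x4a⟩ (t14_7100) (t14_15292)))) (.node ⟨nat_lit 6, nat_lit 0x800100020, nat_lit 0x121101, nat_lit 0, nat_lit 4, nat_lit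 0x48⟩ (.node ⟨nat_lit 7, nat_lit 0x4000440060, nat_lit 0x1120111, nat_lit 0, nat_lit 4, nat_lit 0x49⟩ (.node ⟨nat_lit 5, nat_lit 0x800080010, nat_lit 0x30310, nat_lit 0, nat_lit 3, nat_lit 0x46⟩ (t14_1980) (t14_10172)) (.node ⟨nat_lit 7, nat_lit 0x4800600070, nat_lit 0x20202, nat_lit 0, nat_lit 4, nat_lit 0x46⟩ (t14_6076) (t14_14268))) (.node ⟨nat_lit 4, nat_lit 8, nat_lit 0x3110, nat_lit 9, nat_lit 3, nat_lit 0x48⟩ (.node ⟨nat_lit 7, nat_lit 0x40002000100070, nat_lit 0x110103, nat_lit 0, nat_lit 4, nat_lit 0x47⟩ (t14_4028) (t14_12220)) (.node ⟨nat_lit 7, nat_lit 0x40002000600068, nat_lit 0x1022011, nat_lit 1, nat_lit 4, nat_lit 0x48⟩ (t14_8124) (.nil)))))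
def t14_124 : Tr := .node ⟨nat_lit 7, nat_lit 0x2000500060, nat_lit 0x1112111, nat_lit 0, nat_lit 4, nat_lit 0x49⟩ (.nil) (.nil)
def t14_8316 : Tr := .node ⟨nat_lit 5, nat_lit 0x100014001c, nat_lit 0x1213, nat_lit 6, nat_lit 4, nat_lit 0x46⟩ (.nil) (.nil)
def t14_4220 : Tr := .node ⟨nat_lit 6, nat_lit 0x280030, nat_lit 0x112201, nat_lit 1, nat_lit 4, nat_lit 0x49⟩ (.nil) (.nil)
def t14_12412 : Tr := .node ⟨nat_lit 6, nat_lit 0x200030, nat_lit 0x1130, nat_lit 2, nat_lit 3, nat_lit 0x47⟩ (.nil) (.nil)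
def t14_2172 : Tr := .node ⟨nat_lit 8, nat_lit 0x400080008000200088, nat_lit 0x102102, nat_lit 2, nat_lit 4, nat_lit 0x49⟩ (.nil) (.nil)
def t14_10364 : Tr := .node ⟨nat_lit 6, nat_lit 0x2000080030, nat_lit 0x210002, nat_lit 3, nat_lit 3, nat_lit 0x47⟩ (.nil) (.nil)
def t14_6268 : Tr := .node ⟨nat_lit 7, nat_lit 0x40001000480060, nat_lit 0x1111101, nat_lit 1, nat_lit 4, nat_lit 0x48⟩ (.nil) (.nil)
def t14_14460 : Tr := .node ⟨nat_lit 8, nat_lit 0x80002000a000c0, nat_lit 0x1021002, nat_lit 2, nat_lit 4, nat_lit 0x49⟩ (.nil) (.nil)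
def t14_1148 : Tr := .node ⟨nat_lit 7, nat_lit 0x5000480060, nat_lit 0x100211, nat_lit 1, nat_lit 4, nat_lit 0x46⟩ (.nil) (.nil)
def t14_9340 : Tr := .node ⟨nat_lit 9, nat_lit 0x1000100004001100180, nat_lit 0x10112011, nat_lit 1, nat_lit 4, nat_lit 0x4a⟩ (.nil) (.nil)
def t14_5244 : Tr := .node ⟨nat_lit 8, nat_lit 0x800080008800c0, nat_lit 0x112110, nat_lit 3, nat_lit 4, nat_lit 0x4a⟩ (.nil) (.nil)
def t14_13436 : Tr := .node ⟨nat_lit 9, nat_lit 0x1000020004001100180, nat_lit 0x1020100, nat_lit 0, nat_lit 4, nat_lit 0x49⟩ (.nil) (.nil)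
def t14_3196 : Tr := .node ⟨nat_lit 8, nat_lit 0x80008000400040004000c8, nat_lit 0x102111, nat_lit 0, nat_lit 4, nat_lit 0x48⟩ (.nil) (.nil)
def t14_11388 : Tr := .node ⟨nat_lit 8, nat_lit 0x400080008000c800c8, nat_lit 0x111120, nat_lit 0, nat_lit 4, nat_lit 0x47⟩ (.nil) (.nil)
def t14_7292 : Tr := .node ⟨nat_lit 6, nat_lit 0x1000200030, nat_lit 0x2200, nat_lit 2, nat_lit 4, nat_lit 0x47⟩ (.nil) (.nil)
def t14_15484 : Tr := .node ⟨nat_lit 8, nat_lit 0x80001000c800e0, nat_lit 0x11101012, nat_lit 0, nat_lit 4, nat_lit 0x48⟩ (.nil) (.nil)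
def t14_636 : Tr := .node ⟨nat_lit 6, nat_lit 0x200030, nat_lit 0x21132, nat_lit 0, nat_lit 4, nat_lit 0x49⟩ (.nil) (.nil)
def t14_8828 : Tr := .node ⟨nat_lit 6, nat_lit 0x2000200024, nat_lit 0x21203, nat_lit 4, nat_lit 4, nat_lit 0x49⟩ (.nil) (.nil)
def t14_4732 : Tr := .node ⟨nat_lit 7, nat_lit 0x3000500060, nat_lit 0x1101011, nat_lit 0, nat_lit 4, nat_lit 0x47⟩ (.nil) (.nil)
def t14_12924 : Tr := .node ⟨nat_lit 7, nat_lit 0x40004000200060, nat_lit 0x11120, nat_lit 2, nat_lit 4, nat_lit 0x48⟩ (.nil) (.nil)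
def t14_2684 : Tr := .node ⟨nat_lit 7, nat_lit 0x10005000500060, nat_lit 0x100103, nat_lit 1, nat_lit 4, nat_lit 0x46⟩ (.nil) (.nil)
def t14_10876 : Tr := .node ⟨nat_lit 9, nat_lit 0x1000080008001400140018001a0, nat_lit 0x1210020, nat_lit 0, nat_lit 4, nat_lit 0x47⟩ (.nil) (.nil)
def t14_6780 : Tr := .node ⟨nat_lit 6, nat_lit 0x2000080034, nat_lit 0x111100, nat_lit 2, nat_lit 4, nat_lit 0x47⟩ (.nil) (.nil)
def t14_14972 : Tr := .node ⟨nat_lit 9, nat_lit 0x100010001000080012001200140, nat_lit 0x10110110, nat_lit 3, nat_lit 4, nat_lit 0x49⟩ (.nil) (.nil)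
def t14_1660 : Tr := .node ⟨nat_lit 6, nat_lit 0x2000080034, nat_lit 0x211, nat_lit 0, nat_lit 4, nat_lit 0x45⟩ (.nil) (.nil)
def t14_9852 : Tr := .node ⟨nat_lit 8, nat_lit 0x9000c000c000a0, nat_lit 0x112102, nat_lit 0, nat_lit 4, nat_lit 0x47⟩ (.nil) (.nil)
def t14_5756 : Tr := .node ⟨nat_lit 7, nat_lit 0x40004000400048, nat_lit 0x111220, nat_lit 4, nat_lit 4, nat_lit 0x4a⟩ (.nil) (.nil)
def t14_13948 : Tr := .node ⟨nat_lit 8, nat_lit 0x4000800020002400d0, nat_lit 0x1002000, nat_lit 2, nat_lit 4, nat_lit 0x47⟩ (.nil) (.nil)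
def t14_3708 : Tr := .node ⟨nat_lit 8, nat_lit 0x400080008000a000c8, nat_lit 0x1002101, nat_lit 1, nat_lit 4, nat_lit 0x48⟩ (.nil) (.nil)
def t14_11900 : Tr := .node ⟨nat_lit 6, nat_lit 0x1000280034, nat_lit 0x1330, nat_lit 1, nat_lit 4, nat_lit 0x46⟩ (.nil) (.nil)
def t14_7804 : Tr := .node ⟨nat_lit 5, nat_lit 0x10001000100018, nat_lit 0x2111, nat_lit 0xb, nat_lit 4, nat_lit 0x48⟩ (.nil) (.nil)
def t9_124 : Tr := .node ⟨nat_lit 5, nat_lit 0x80010, nat_lit 0x31111, nat_lit 3, nat_lit 4, nat_lit 0x49⟩ (.node ⟨nat_lit 5, nat_lit 0x10001c001c, nat_lit 0x31121, nat_lit 5, nat_lit 4, nat_lit 0x47⟩ (.node ⟨nat_lit 3, nat_lit 4, nat_lit 0x322, nat_lit 6, nat_lit 3, nat_lit 0x47⟩ (.node ⟨nat_lit 7, nat_lit 0x4000500064, nat_lit 0x1002111, nat_lit 1, nat_lit 4, nat_lit 0x48⟩ (.node ⟨nat_lit 8, nat_lit 0x800040002000a000c8, nat_lit 0x2012020, nat_lit 0,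 nat_lit 4, nat_lit 0x48⟩ (t14_124) (t14_8316)) (.node ⟨nat_lit 7, nat_lit 0x20001000400062, nat_lit 0x1012000, nat_lit 0, nat_lit 4, nat_lit 0x47⟩ (t14_4220) (t14_12412))) (.node ⟨nat_lit 7, nat_lit 0x40001000100060, nat_lit 0x211110, nat_lit 0, nat_lit 4, nat_lit 0x48⟩ (.node ⟨nat_lit 6, nat_lit 0x2000080030, nat_lit 0x1310, nat_lit 2, nat_lit 4, nat_lit 0x47⟩ (t14_2172) (t14_10364)) (.node ⟨nat_lit 9, nat_lit 0x10000800040, nat_lit 0x1221001, nat_lit 0, nat_lit 4, nat_lit 0x4d⟩ (t14_6268) (t14_14460)))) (.node ⟨nat_lit 7, nat_lit 0x400040, nat_lit 0x221110, nat_lit 0, nat_lit 4, nat_lit 0x4b⟩ (.node ⟨nat_lit 5, nat_lit 0x1000140018, nat_lit 0x22111, nat_lit 5, nat_lit 4, nat_lit 0x48⟩ (.node ⟨nat_lit 2, nat_lit 0, nat_lit 0x51, nat_lit 8, nat_lit 3, nat_lit 0x47⟩ (t14_1148) (t14_9340)) (.node ⟨nat_lit 7, nat_lit 0x5000500060, nat_lit 0x112211,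 nat_lit 1, nat_lit 4, nat_lit 0x48⟩ (t14_5244) (t14_13436))) (.node ⟨nat_lit 6, nat_lit 0x200020, nat_lit 0x121010, nat_lit 0, nat_lit 4, nat_lit 0x49⟩ (.node ⟨nat_lit 5, nat_lit 0x180018, nat_lit 0x10240, nat_lit 3, nat_lit 4, nat_lit 0x47⟩ (t14_3196) (t14_11388)) (.node ⟨nat_lit 6, nat_lit 0x20001000280030, nat_lit 0x11200, nat_lit 2, nat_lit 4, nat_lit 0x46⟩ (t14_7292) (t14_15484))))) (.node ⟨nat_lit 6, nat_lit 0x20001000100028, nat_lit 0x302101, nat_lit 3, nat_lit 4, nat_lit 0x49⟩ (.node ⟨nat_lit 5, nat_lit 0x1000100008, nat_lit 0x2103, nat_lit 5, nat_lit 4, nat_lit 0x48⟩ (.node ⟨nat_lit 5, nat_lit 0x10001a, nat_lit 0x1221, nat_lit 4, nat_lit 4, nat_lit 0x47⟩ (.node ⟨nat_lit 6, nat_lit 0x20001000100028, nat_lit 0x122001, nat_lit 1, nat_lit 4, nat_lit 0x48⟩ (t14_636) (t14_8828)) (.node ⟨nat_lit 6, nat_lit 0x20002000100010, nat_lit 0x12220,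 nat_lit 3, nat_lit 4, nat_lit 0x48⟩ (t14_4732) (t14_12924))) (.node ⟨nat_lit 6, nat_lit 0x800300030, nat_lit 0x101022, nat_lit 0, nat_lit 4, nat_lit 0x46⟩ (.node ⟨nat_lit 6, nat_lit 0x1000280030, nat_lit 0x112133, nat_lit 0, nat_lit 4, nat_lit 0x48⟩ (t14_2684) (t14_10876)) (.node ⟨nat_lit 8, nat_lit 0x2000800080008000c8, nat_lit 0x1001102, nat_lit 0, nat_lit 4, nat_lit 0x48⟩ (t14_6780) (t14_14972)))) (.node ⟨nat_lit 6, nat_lit 0x200010, nat_lit 0x21111, nat_lit 1, nat_lit 4, nat_lit 0x49⟩ (.node ⟨nat_lit 6, nat_lit 0x2000080030, nat_lit 0x21311, nat_lit 1, nat_lit 4, nat_lit 0x48⟩ (.node ⟨nat_lit 7, nat_lit 0x20004000100070, nat_lit 0x1001, nat_lit 1, nat_lit 4, nat_lit 0x45⟩ (t14_1660) (t14_9852)) (.node ⟨nat_lit 7, nat_lit 0x40004000100060, nat_lit 0x120032, nat_lit 0, nat_lit 4, nat_lit 0x49⟩ (t14_5756) (t14_13948))) (.node ⟨nat_lit 6, nat_lit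 0x800300038, nat_lit 0x201122, nat_lit 2, nat_lit 4, nat_lit 0x47⟩ (.node ⟨nat_lit 6, nat_lit 0x2000080030, nat_lit 0x20100, nat_lit 0, nat_lit 4, nat_lit 0x46⟩ (t14_3708) (t14_11900)) (.node ⟨nat_lit 6, nat_lit 0x300030, nat_lit 0x201121, nat_lit 5, nat_lit 4, nat_lit 0x49⟩ (t14_7804) (.nil)))))
def t14_380 : Tr := .node ⟨nat_lit 6, nat_lit 0, nat_lit 0x211111, nat_lit 1, nat_lit 3, nat_lit 0x4a⟩ (.nil) (.nil)
def t14_8572 : Tr := .node ⟨nat_lit 6, nat_lit 0x10002000200024, nat_lit 0x103, nat_lit 2, nat_lit 4, nat_lit 0x46⟩ (.nil) (.nil)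
def t14_4476 : Tr := .node ⟨nat_lit 9, nat_lit 0x10001000080011001100120, nat_lit 0x111110110, nat_lit 0, nat_lit 4, nat_lit 0x4a⟩ (.nil) (.nil)
def t14_12668 : Tr := .node ⟨nat_lit 7, nat_lit 0x4000100020, nat_lit 0x101010, nat_lit 0, nat_lit 4, nat_lit 0x48⟩ (.nil) (.nil)
def t14_2428 : Tr := .node ⟨nat_lit 6, nat_lit 0x10002000300034, nat_lit 0x103201, nat_lit 3, nat_lit 4, nat_lit 0x47⟩ (.nil) (.nil)
def t14_10620 : Tr := .node ⟨nat_lit 6, nat_lit 0x1800280030, nat_lit 0x21, nat_lit 4, nat_lit 4, nat_lit 0x45⟩ (.nil) (.nil)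
def t14_6524 : Tr := .node ⟨nat_lit 6, nat_lit 0x2000280030, nat_lit 0x11111, nat_lit 5, nat_lit 4, nat_lit 0x47⟩ (.nil) (.nil)
def t14_14716 : Tr := .node ⟨nat_lit 7, nat_lit 0x40004000600068, nat_lit 0x111121, nat_lit 3, nat_lit 4, nat_lit 0x48⟩ (.nil) (.nil)
def t14_1404 : Tr := .node ⟨nat_lit 7, nat_lit 0x5000500060, nat_lit 0x201103, nat_lit 0, nat_lit 4, nat_lit 0x48⟩ (.nil) (.nil)
def t14_9596 : Tr := .node ⟨nat_lit 8, nat_lit 0x40002000c000a000d0, nat_lit 0x1010230, nat_lit 0, nat_lit 4, nat_lit 0x47⟩ (.nil) (.nil)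
def t14_5500 : Tr := .node ⟨nat_lit 6, nat_lit 0x800200030, nat_lit 0x10411, nat_lit 0, nat_lit 4, nat_lit 0x47⟩ (.nil) (.nil)
def t14_13692 : Tr := .node ⟨nat_lit 7, nat_lit 0x1000200040, nat_lit 0x1002200, nat_lit 0, nat_lit 4, nat_lit 0x49⟩ (.nil) (.nil)
def t14_3452 : Tr := .node ⟨nat_lit 8, nat_lit 0x4000a0006000c0, nat_lit 0x121210, nat_lit 0, nat_lit 4, nat_lit 0x48⟩ (.nil) (.nil)
def t14_11644 : Tr := .node ⟨nat_lit 7, nat_lit 0x20005000500060, nat_lit 0x2104, nat_lit 0, nat_lit 4, nat_lit 0x46⟩ (.nil) (.nil)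
def t14_7548 : Tr := .node ⟨nat_lit 6, nat_lit 0x20001000100030, nat_lit 0x3203, nat_lit 3, nat_lit 4, nat_lit 0x47⟩ (.nil) (.nil)
def t14_892 : Tr := .node ⟨nat_lit 7, nat_lit 0x200020002000400042, nat_lit 0x20022, nat_lit 1, nat_lit 4, nat_lit 0x47⟩ (.nil) (.nil)
def t14_9084 : Tr := .node ⟨nat_lit 7, nat_lit 0x200020004000440070, nat_lit 0x22001, nat_lit 1, nat_lit 4, nat_lit 0x46⟩ (.nil) (.nil)
def t14_4988 : Tr := .node ⟨nat_lit 7, nat_lit 0x5000600060, nat_lit 0x101031, nat_lit 3, nat_lit 4, nat_lit 0x48⟩ (.nil) (.nil)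
def t14_13180 : Tr := .node ⟨nat_lit 6, nat_lit 0x20001000100028, nat_lit 0x103, nat_lit 2, nat_lit 4, nat_lit 0x45⟩ (.nil) (.nil)
def t14_2940 : Tr := .node ⟨nat_lit 7, nat_lit 0x2000400060, nat_lit 0x1010122, nat_lit 0, nat_lit 4, nat_lit 0x49⟩ (.nil) (.nil)
def t14_11132 : Tr := .node ⟨nat_lit 7, nat_lit 0x400040002000200020, nat_lit 0x10210, nat_lit 1, nat_lit 3, nat_lit 0x46⟩ (.nil) (.nil)
def t14_7036 : Tr := .node ⟨nat_lit 8, nat_lit 0x80008000400040009000e0, nat_lit 0x11102101, nat_lit 0, nat_lit 4, nat_lit 0x48⟩ (.nil) (.nil)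
def t14_15228 : Tr := .node ⟨nat_lit 6, nat_lit 0x2000280030, nat_lit 0x111112, nat_lit 4, nat_lit 4, nat_lit 0x48⟩ (.nil) (.nil)
def t14_1916 : Tr := .node ⟨nat_lit 4, nat_lit 0x8000e, nat_lit 0x302, nat_lit 5, nat_lit 4, nat_lit 0x45⟩ (.nil) (.nil)
def t14_10108 : Tr := .node ⟨nat_lit 8, nat_lit 0x4000a000a000c0, nat_lit 0x20202, nat_lit 2, nat_lit 4, nat_lit 0x48⟩ (.nil) (.nil)
def t14_6012 : Tr := .node ⟨nat_lit 6, nat_lit 0x30, nat_lit 0x213110, nat_lit 0, nat_lit 4, nat_lit 0x4b⟩ (.nil) (.nil)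
def t14_14204 : Tr := .node ⟨nat_lit 6, nat_lit 0x10002000180024, nat_lit 0x10220, nat_lit 0, nat_lit 4, nat_lit 0x45⟩ (.nil) (.nil)
def t14_3964 : Tr := .node ⟨nat_lit 6, nat_lit 0x10001000200022, nat_lit 0x111000, nat_lit 1, nat_lit 4, nat_lit 0x46⟩ (.nil) (.nil)
def t14_12156 : Tr := .node ⟨nat_lit 6, nat_lit 0x1000280030, nat_lit 0x101300, nat_lit 1, nat_lit 4, nat_lit 0x47⟩ (.nil) (.nil)
def t14_8060 : Tr := .node ⟨nat_lit 7, nat_lit 0x2000400042, nat_lit 0x10013, nat_lit 1, nat_lit 4, nat_lit 0x48⟩ (.nil) (.nil)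
def t9_380 : Tr := .node ⟨nat_lit 6, nat_lit 0x2000100030, nat_lit 0x23021, nat_lit 1, nat_lit 4, nat_lit 0x49⟩ (.node ⟨nat_lit 5, nat_lit 0x100008, nat_lit 0x1320, nat_lit 1, nat_lit 4, nat_lit 0x47⟩ (.node ⟨nat_lit 4, nat_lit 8, nat_lit 0x2213, nat_lit 4, nat_lit 4, nat_lit 0x49⟩ (.node ⟨nat_lit 6, nat_lit 0x2000200010, nat_lit 0x12102, nat_lit 4, nat_lit 4, nat_lit 0x49⟩ (.node ⟨nat_lit 8, nat_lit 0x80002000c000c0, nat_lit 0x212110, nat_lit 0, nat_lit 4, nat_lit 0x49⟩ (t14_380) (t14_8572)) (.node ⟨nat_lit 8, nat_lit 0x40004000800050008800e0, nat_lit 0x11212010, nat_lit 0, nat_lit 4, nat_lit 0x48⟩ (t14_4476) (t14_12668))) (.node ⟨nat_lit 7, nat_lit 0x40001000480060, nat_lit 0x1210101, nat_lit 0, nat_lit 4, nat_lit 0x48⟩ (.node ⟨nat_lit 6, nat_lit 0x2000300034, nat_lit 0x111141, nat_lit 2, nat_lit 4, nat_lit 0x48⟩ (t14_2428) (t14_10620)) (.node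 ⟨nat_lit 6, nat_lit 0x20001000140028, nat_lit 0x22100, nat_lit 0, nat_lit 4, nat_lit 0x46⟩ (t14_6524) (t14_14716)))) (.node ⟨nat_lit 6, nat_lit 0x2000100024, nat_lit 0x211210, nat_lit 1, nat_lit 4, nat_lit 0x49⟩ (.node ⟨nat_lit 5, nat_lit 0x10, nat_lit 0x3223, nat_lit 0, nat_lit 4, nat_lit 0x4a⟩ (.node ⟨nat_lit 7, nat_lit 0x40001000100060, nat_lit 0x101003, nat_lit 1, nat_lit 4, nat_lit 0x47⟩ (t14_1404) (t14_9596)) (.node ⟨nat_lit 6, nat_lit 0x10001000200020, nat_lit 0x12122, nat_lit 2, nat_lit 4, nat_lit 0x48⟩ (t14_5500) (t14_13692))) (.node ⟨nat_lit 5, nat_lit 0x100010, nat_lit 0x2100, nat_lit 0xa, nat_lit 4, nat_lit 0x49⟩ (.node ⟨nat_lit 6, nat_lit 0x300030, nat_lit 0x3100, nat_lit 0, nat_lit 4, nat_lit 0x47⟩ (t14_3452) (t14_11644)) (.node ⟨nat_lit 8, nat_lit 0x80002000c0, nat_lit 0x11011102, nat_lit 2, nat_lit 4, nat_lit 0x4b⟩ (t14_7548) (.nil)))))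 (.node ⟨nat_lit 5, nat_lit 0x100018, nat_lit 0x12311, nat_lit 3, nat_lit 4, nat_lit 0x49⟩ (.node ⟨nat_lit 5, nat_lit 0x18, nat_lit 0x30211, nat_lit 4, nat_lit 4, nat_lit 0x49⟩ (.node ⟨nat_lit 5, nat_lit 0x18, nat_lit 0x11111, nat_lit 5, nat_lit 4, nat_lit 0x48⟩ (.node ⟨nat_lit 6, nat_lit 0x200030, nat_lit 0x13121, nat_lit 1, nat_lit 4, nat_lit 0x49⟩ (t14_892) (t14_9084)) (.node ⟨nat_lit 8, nat_lit 0x8000800084, nat_lit 0x11111200, nat_lit 2, nat_lit 4, nat_lit 0x4c⟩ (t14_4988) (t14_13180))) (.node ⟨nat_lit 6, nat_lit 0x1000200030, nat_lit 0x12100, nat_lit 0, nat_lit 3, nat_lit 0x46⟩ (.node ⟨nat_lit 5, nat_lit 0x800080010, nat_lit 0x11111, nat_lit 3, nat_lit 4, nat_lit 0x47⟩ (t14_2940) (t14_11132)) (.node ⟨nat_lit 6, nat_lit 0x1000300028, nat_lit 0x101242, nat_lit 0, nat_lit 4, nat_lit 0x47⟩ (t14_7036) (t14_15228)))) (.node ⟨nat_lit 6, nat_lit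 0x1000200020, nat_lit 0x12221, nat_lit 0, nat_lit 4, nat_lit 0x48⟩ (.node ⟨nat_lit 7, nat_lit 0x6000600018, nat_lit 0x1021211, nat_lit 0, nat_lit 4, nat_lit 0x48⟩ (.node ⟨nat_lit 7, nat_lit 0x3000500060, nat_lit 0x1011132, nat_lit 0, nat_lit 4, nat_lit 0x48⟩ (t14_1916) (t14_10108)) (.node ⟨nat_lit 7, nat_lit 0x6000600060, nat_lit 0x22200, nat_lit 1, nat_lit 4, nat_lit 0x48⟩ (t14_6012) (t14_14204))) (.node ⟨nat_lit 5, nat_lit 0x1000100010, nat_lit 0x1311, nat_lit 5, nat_lit 4, nat_lit 0x48⟩ (.node ⟨nat_lit 7, nat_lit 0x40004000100060, nat_lit 0x10010, nat_lit 2, nat_lit 4, nat_lit 0x47⟩ (t14_3964) (t14_12156)) (.node ⟨nat_lit 8, nat_lit 0x2000400040008000c8, nat_lit 0x11001211, nat_lit 1, nat_lit 4, nat_lit 0x49⟩ (t14_8060) (.nil)))))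
def t14_252 : Tr := .node ⟨nat_lit 6, nat_lit 0x1000280030, nat_lit 0x12210, nat_lit 0, nat_lit 4, nat_lit 0x47⟩ (.nil) (.nil)
def t14_8444 : Tr := .node ⟨nat_lit 5, nat_lit 0x1000080018, nat_lit 0x102, nat_lit 4, nat_lit 3, nat_lit 0x44⟩ (.nil) (.nil)
def t14_4348 : Tr := .node ⟨nat_lit 7, nat_lit 0x40001000500060, nat_lit 0x111102, nat_lit 1, nat_lit 3, nat_lit 0x46⟩ (.nil) (.nil)
def t14_12540 : Tr := .node ⟨nat_lit 7, nat_lit 0x6000600070, nat_lit 0x10203, nat_lit 0, nat_lit 4, nat_lit 0x46⟩ (.nil) (.nil)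
def t14_2300 : Tr := .node ⟨nat_lit 7, nat_lit 0x200040004800300060, nat_lit 0x1021011, nat_lit 3, nat_lit 4, nat_lit 0x47⟩ (.nil) (.nil)
def t14_10492 : Tr := .node ⟨nat_lit 6, nat_lit 0x3000300028, nat_lit 0x1212, nat_lit 4, nat_lit 4, nat_lit 0x46⟩ (.nil) (.nil)
def t14_6396 : Tr := .node ⟨nat_lit 8, nat_lit 0x8000800080004000a00090, nat_lit 0x1100110, nat_lit 3, nat_lit 4, nat_lit 0x48⟩ (.nil) (.nil)
def t14_14588 : Tr := .node ⟨nat_lit 9, nat_lit 0x8001000100004001080110, nat_lit 0x11011, nat_lit 6, nat_lit 4, nat_lit 0x49⟩ (.nil) (.nil)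
def t14_1276 : Tr := .node ⟨nat_lit 8, nat_lit 0x200080001000c0, nat_lit 0x1010212, nat_lit 0, nat_lit 4, nat_lit 0x49⟩ (.nil) (.nil)
def t14_9468 : Tr := .node ⟨nat_lit 8, nat_lit 0x800090006000d000e0, nat_lit 0x10010122, nat_lit 1, nat_lit 4, nat_lit 0x46⟩ (.nil) (.nil)
def t14_5372 : Tr := .node ⟨nat_lit 9, nat_lit 0x40010000200180, nat_lit 0x110010200, nat_lit 1, nat_lit 4, nat_lit 0x4b⟩ (.nil) (.nil)
def t14_13564 : Tr := .node ⟨nat_lit 8, nat_lit 0x800080002000200040, nat_lit 0x10002, nat_lit 1, nat_lit 4, nat_lit 0x48⟩ (.nil) (.nil)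
def t14_3324 : Tr := .node ⟨nat_lit 6, nat_lit 0x800300030, nat_lit 0x11, nat_lit 0, nat_lit 4, nat_lit 0x44⟩ (.nil) (.nil)
def t14_11516 : Tr := .node ⟨nat_lit 7, nat_lit 0x10004000640058, nat_lit 0x10111, nat_lit 0, nat_lit 4, nat_lit 0x45⟩ (.nil) (.nil)
def t14_7420 : Tr := .node ⟨nat_lit 8, nat_lit 0x80008000800040004000a0, nat_lit 0x1121110, nat_lit 0, nat_lit 4, nat_lit 0x49⟩ (.nil) (.nil)
def t14_764 : Tr := .node ⟨nat_lit 6, nat_lit 0x1000280030, nat_lit 0x131, nat_lit 1, nat_lit 4, nat_lit 0x45⟩ (.nil) (.nil)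
def t14_8956 : Tr := .node ⟨nat_lit 5, nat_lit 0x1000100014, nat_lit 0x2202, nat_lit 9, nat_lit 4, nat_lit 0x48⟩ (.nil) (.nil)
def t14_4860 : Tr := .node ⟨nat_lit 8, nat_lit 0x8000800040004000a000c8, nat_lit 0x1102100, nat_lit 2, nat_lit 4, nat_lit 0x48⟩ (.nil) (.nil)
def t14_13052 : Tr := .node ⟨nat_lit 6, nat_lit 0x800080030, nat_lit 0x102001, nat_lit 2, nat_lit 3, nat_lit 0x47⟩ (.nil) (.nil)
def t14_2812 : Tr := .node ⟨nat_lit 8, nat_lit 0x800010002000c0, nat_lit 0x112000, nat_lit 1, nat_lit 4, nat_lit 0x49⟩ (.nil) (.nil)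
def t14_11004 : Tr := .node ⟨nat_lit 8, nat_lit 0x800020004000a000c0, nat_lit 0x101022, nat_lit 0, nat_lit 3, nat_lit 0x46⟩ (.nil) (.nil)
def t14_6908 : Tr := .node ⟨nat_lit 3, nat_lit 4, nat_lit 0x111, nat_lit 0xf, nat_lit 3, nat_lit 0x46⟩ (.nil) (.nil)
def t14_15100 : Tr := .node ⟨nat_lit 8, nat_lit 0x4000800060009000e000d0, nat_lit 0x10121011, nat_lit 0, nat_lit 4, nat_lit 0x46⟩ (.nil) (.nil)
def t14_1788 : Tr := .node ⟨nat_lit 5, nat_lit 0x1000080008, nat_lit 0x22, nat_lit 4, nat_lit 3, nat_lit 0x45⟩ (.nil) (.nil)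
def t14_9980 : Tr := .node ⟨nat_lit 6, nat_lit 0x2000300030, nat_lit 0x1420, nat_lit 5, nat_lit 4, nat_lit 0x48⟩ (.nil) (.nil)
def t14_5884 : Tr := .node ⟨nat_lit 8, nat_lit 0x80008000400040, nat_lit 0x111021, nat_lit 2, nat_lit 4, nat_lit 0x4a⟩ (.nil) (.nil)
def t14_14076 : Tr := .node ⟨nat_lit 6, nat_lit 0x200030, nat_lit 0x1120, nat_lit 7, nat_lit 4, nat_lit 0x49⟩ (.nil) (.nil)
def t14_3836 : Tr := .node ⟨nat_lit 8, nat_lit 0x800040009000c000d0, nat_lit 0x10110012, nat_lit 2, nat_lit 4, nat_lit 0x48⟩ (.nil) (.nil)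
def t14_12028 : Tr := .node ⟨nat_lit 6, nat_lit 0x2000280030, nat_lit 0x11201, nat_lit 7, nat_lit 4, nat_lit 0x48⟩ (.nil) (.nil)
def t14_7932 : Tr := .node ⟨nat_lit 8, nat_lit 0x2000800088008800c0, nat_lit 0x1001211, nat_lit 3, nat_lit 4, nat_lit 0x48⟩ (.nil) (.nil)
def t9_252 : Tr := .node ⟨nat_lit 4, nat_lit 0xc, nat_lit 0x2231, nat_lit 1, nat_lit 3, nat_lit 0x47⟩ (.node ⟨nat_lit 4, nat_lit 0xc, nat_lit 0x1110, nat_lit 0, nat_lit 3, nat_lit 0x44⟩ (.node ⟨nat_lit 6, nat_lit 0x20001000100030, nat_lit 0x102101, nat_lit 0, nat_lit 3, nat_lit 0x45⟩ (.node ⟨nat_lit 6, nat_lit 0x200038, nat_lit 0x111203, nat_lit 1, nat_lit 4, nat_lit 0x48⟩ (.node ⟨nat_lit 5, nat_lit 0x100010, nat_lit 0x21131, nat_lit 4, nat_lit 4, nat_lit 0x4a⟩ (t14_252) (t14_8444)) (.node ⟨nat_lit 7, nat_lit 0x40001000500068, nat_lit 0x101020, nat_lit 0, nat_lit 4, nat_lit 0x46⟩ (t14_4348)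 (t14_12540))) (.node ⟨nat_lit 5, nat_lit 0x180018, nat_lit 0x20321, nat_lit 4, nat_lit 4, nat_lit 0x48⟩ (.node ⟨nat_lit 7, nat_lit 0x20005000300060, nat_lit 0x1000322, nat_lit 0, nat_lit 4, nat_lit 0x46⟩ (t14_2300) (t14_10492)) (.node ⟨nat_lit 7, nat_lit 0x3000500060, nat_lit 0x1012200, nat_lit 3, nat_lit 4, nat_lit 0x48⟩ (t14_6396) (t14_14588)))) (.node ⟨nat_lit 6, nat_lit 0x2000080030, nat_lit 0x121111, nat_lit 1, nat_lit 4, nat_lit 0x48⟩ (.node ⟨nat_lit 3, nat_lit 4, nat_lit 0x221, nat_lit 0xf, nat_lit 4, nat_lit 0x49⟩ (.node ⟨nat_lit 5, nat_lit 0x10, nat_lit 0x11110, nat_lit 3, nat_lit 4, nat_lit 0x48⟩ (t14_1276) (t14_9468)) (.node ⟨nat_lit 7, nat_lit 0x20003000500060, nat_lit 0x1010322, nat_lit 0, nat_lit 4, nat_lit 0x47⟩ (t14_5372) (t14_13564))) (.node ⟨nat_lit 6, nat_lit 0x2000100030, nat_lit 0x12004, nat_lit 2, nat_lit 4, nat_lit 0x48⟩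 (.node ⟨nat_lit 6, nat_lit 0x20001000280030, nat_lit 0x112301, nat_lit 2, nat_lit 4, nat_lit 0x48⟩ (t14_3324) (t14_11516)) (.node ⟨nat_lit 7, nat_lit 0x40004800600068, nat_lit 0x1110020, nat_lit 1, nat_lit 4, nat_lit 0x47⟩ (t14_7420) (.nil))))) (.node ⟨nat_lit 5, nat_lit 0x80010, nat_lit 0x13112, nat_lit 2, nat_lit 4, nat_lit 0x49⟩ (.node ⟨nat_lit 6, nat_lit 0x2000080030, nat_lit 0x121012, nat_lit 1, nat_lit 4, nat_lit 0x48⟩ (.node ⟨nat_lit 3, nat_lit 0, nat_lit 0x211, nat_lit 0xe, nat_lit 4, nat_lit 0x49⟩ (.node ⟨nat_lit 7, nat_lit 0x40004000400020, nat_lit 0x132002, nat_lit 0, nat_lit 4, nat_lit 0x4a⟩ (t14_764) (t14_8956)) (.node ⟨nat_lit 7, nat_lit 0x20005000600060, nat_lit 0x22210, nat_lit 1, nat_lit 4, nat_lit 0x47⟩ (t14_4860) (t14_13052))) (.node ⟨nat_lit 7, nat_lit 0x800600050, nat_lit 0x1011112, nat_lit 0, nat_lit 4, nat_lit 0x48⟩ (.node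 ⟨nat_lit 7, nat_lit 0x800400070, nat_lit 0x210013, nat_lit 1, nat_lit 4, nat_lit 0x48⟩ (t14_2812) (t14_11004)) (.node ⟨nat_lit 8, nat_lit 0x80002000c000a000d0, nat_lit 0x1020222, nat_lit 0, nat_lit 4, nat_lit 0x47⟩ (t14_6908) (t14_15100)))) (.node ⟨nat_lit 6, nat_lit 0x280030, nat_lit 0x110121, nat_lit 1, nat_lit 4, nat_lit 0x47⟩ (.node ⟨nat_lit 6, nat_lit 0x300030, nat_lit 0x102141, nat_lit 0, nat_lit 4, nat_lit 0x48⟩ (.node ⟨nat_lit 6, nat_lit 0x800200032, nat_lit 0x10010, nat_lit 1, nat_lit 4, nat_lit 0x45⟩ (t14_1788) (t14_9980)) (.node ⟨nat_lit 8, nat_lit 0x80008000800088, nat_lit 0x2211001, nat_lit 2, nat_lit 4, nat_lit 0x4b⟩ (t14_5884) (t14_14076))) (.node ⟨nat_lit 7, nat_lit 0x400020002000500050, nat_lit 0x2012011, nat_lit 1, nat_lit 4, nat_lit 0x48⟩ (.node ⟨nat_lit 6, nat_lit 0x1000300028, nat_lit 0x101004, nat_lit 1, nat_lit 4, nat_lit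 0x47⟩ (t14_3836) (t14_12028)) (.node ⟨nat_lit 7, nat_lit 0x1000400060, nat_lit 0x1001021, nat_lit 7, nat_lit 4, nat_lit 0x4a⟩ (t14_7932) (.nil)))))
def t14_508 : Tr := .node ⟨nat_lit 7, nat_lit 0x1000400060, nat_lit 0x1121210, nat_lit 0, nat_lit 4, nat_lit 0x4a⟩ (.nil) (.nil)
def t14_8700 : Tr := .node ⟨nat_lit 7, nat_lit 0x40001000100060, nat_lit 0x1001001, nat_lit 1, nat_lit 3, nat_lit 0x46⟩ (.nil) (.nil)
def t14_4604 : Tr := .node ⟨nat_lit 7, nat_lit 0x20004000400010, nat_lit 0x112000, nat_lit 4, nat_lit 4, nat_lit 0x49⟩ (.nil) (.nil)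
def t14_12796 : Tr := .node ⟨nat_lit 7, nat_lit 0x800500060, nat_lit 0x1110002, nat_lit 1, nat_lit 4, nat_lit 0x48⟩ (.nil) (.nil)
def t14_2556 : Tr := .node ⟨nat_lit 6, nat_lit 0x2000080030, nat_lit 0x110220, nat_lit 0, nat_lit 4, nat_lit 0x47⟩ (.nil) (.nil)
def t14_10748 : Tr := .node ⟨nat_lit 7, nat_lit 0x2000500060, nat_lit 0x1020, nat_lit 2, nat_lit 4, nat_lit 0x47⟩ (.nil) (.nil)
def t14_6652 : Tr := .node ⟨nat_lit 7, nat_lit 0x4000200010, nat_lit 0x11021, nat_lit 2, nat_lit 4, nat_lit 0x49⟩ (.nil) (.nil)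
def t14_14844 : Tr := .node ⟨nat_lit 9, nat_lit 0x8001000100004000400180, nat_lit 0x22101, nat_lit 1, nat_lit 4, nat_lit 0x49⟩ (.nil) (.nil)
def t14_1532 : Tr := .node ⟨nat_lit 8, nat_lit 0x8000800040004000e000c8, nat_lit 0x212100, nat_lit 1, nat_lit 4, nat_lit 0x47⟩ (.nil) (.nil)
def t14_9724 : Tr := .node ⟨nat_lit 8, nat_lit 0x4000800080008000c8, nat_lit 0x121002, nat_lit 0, nat_lit 4, nat_lit 0x48⟩ (.nil) (.nil)
def t14_5628 : Tr := .node ⟨nat_lit 7, nat_lit 0x5000600060, nat_lit 0x11120, nat_lit 1, nat_lit 4, nat_lit 0x47⟩ (.nil) (.nil)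
def t14_13820 : Tr := .node ⟨nat_lit 7, nat_lit 0x5000300060, nat_lit 0x1002, nat_lit 0, nat_lit 4, nat_lit 0x46⟩ (.nil) (.nil)
def t14_3580 : Tr := .node ⟨nat_lit 7, nat_lit 0x4000500060, nat_lit 0x1201, nat_lit 0, nat_lit 3, nat_lit 0x46⟩ (.nil) (.nil)
def t14_11772 : Tr := .node ⟨nat_lit 7, nat_lit 0x400040002000500048, nat_lit 0x400, nat_lit 1, nat_lit 4, nat_lit 0x46⟩ (.nil) (.nil)
def t14_7676 : Tr := .node ⟨nat_lit 6, nat_lit 0x800200030, nat_lit 0x10, nat_lit 2, nat_lit 4, nat_lit 0x45⟩ (.nil) (.nil)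
def t14_1020 : Tr := .node ⟨nat_lit 7, nat_lit 0x800100060, nat_lit 0x11112, nat_lit 0, nat_lit 4, nat_lit 0x48⟩ (.nil) (.nil)
def t14_9212 : Tr := .node ⟨nat_lit 7, nat_lit 0x400020002000500070, nat_lit 0x10001, nat_lit 1, nat_lit 4, nat_lit 0x45⟩ (.nil) (.nil)
def t14_5116 : Tr := .node ⟨nat_lit 9, nat_lit 0x80008001000100010800c0, nat_lit 0x1300001, nat_lit 1, nat_lit 4, nat_lit 0x49⟩ (.nil) (.nil)
def t14_13308 : Tr := .node ⟨nat_lit 7, nat_lit 0x4000600050, nat_lit 0x103, nat_lit 1, nat_lit 4, nat_lit 0x47⟩ (.nil) (.nil)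
def t14_3068 : Tr := .node ⟨nat_lit 5, nat_lit 0x1000080014, nat_lit 0x1112, nat_lit 2, nat_lit 4, nat_lit 0x45⟩ (.nil) (.nil)
def t14_11260 : Tr := .node ⟨nat_lit 7, nat_lit 0x40001000100060, nat_lit 0x101200, nat_lit 0, nat_lit 4, nat_lit 0x47⟩ (.nil) (.nil)
def t14_7164 : Tr := .node ⟨nat_lit 9, nat_lit 0x400080010000200188, nat_lit 0x110100111, nat_lit 1, nat_lit 4, nat_lit 0x4a⟩ (.nil) (.nil)
def t14_15356 : Tr := .node ⟨nat_lit 9, nat_lit 0x8000800100011000c0019001c0, nat_lit 0x1011111, nat_lit 0, nat_lit 4, nat_lit 0x46⟩ (.nil) (.nil)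
def t14_2044 : Tr := .node ⟨nat_lit 7, nat_lit 0x400040002000200050, nat_lit 0x11310, nat_lit 1, nat_lit 4, nat_lit 0x47⟩ (.nil) (.nil)
def t14_10236 : Tr := .node ⟨nat_lit 6, nat_lit 0x2000200030, nat_lit 0x1320, nat_lit 7, nat_lit 4, nat_lit 0x49⟩ (.nil) (.nil)
def t14_6140 : Tr := .node ⟨nat_lit 3, nat_lit 0x40004, nat_lit 0x20, nat_lit 0xa, nat_lit 4, nat_lit 0x45⟩ (.nil) (.nil)
def t14_14332 : Tr := .node ⟨nat_lit 8, nat_lit 0x40009000a000c8, nat_lit 0x1000310, nat_lit 1, nat_lit 4, nat_lit 0x47⟩ (.nil) (.nil)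
def t14_4092 : Tr := .node ⟨nat_lit 8, nat_lit 0x800080004000900090, nat_lit 0x1110021, nat_lit 3, nat_lit 4, nat_lit 0x49⟩ (.nil) (.nil)
def t14_12284 : Tr := .node ⟨nat_lit 8, nat_lit 0x40006000c000a000a0, nat_lit 0x21130, nat_lit 0, nat_lit 4, nat_lit 0x46⟩ (.nil) (.nil)
def t14_8188 : Tr := .node ⟨nat_lit 5, nat_lit 0x180018, nat_lit 0x230, nat_lit 4, nat_lit 4, nat_lit 0x46⟩ (.nil) (.nil)
def t9_508 : Tr := .node ⟨nat_lit 6, nat_lit 0x2000100024, nat_lit 0x113012, nat_lit 1, nat_lit 4, nat_lit 0x48⟩ (.node ⟨nat_lit 5, nat_lit 0x1000140014, nat_lit 0x31021, nat_lit 5, nat_lit 4, nat_lit 0x48⟩ (.node ⟨nat_lit 4, nat_lit 0, nat_lit 0x2222, nat_lit 1, nat_lit 3, nat_lit 0x48⟩ (.node ⟨nat_lit 3, nat_lit 4, nat_lit 0x23, nat_lit 8, nat_lit 4, nat_lit 0x46⟩ (.node ⟨nat_lit 9, nat_lit 0x1000080008000400020, nat_lit 0x1201011, nat_lit 1, nat_lit 4,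 nat_lit 0x4b⟩ (t14_508) (t14_8700)) (.node ⟨nat_lit 6, nat_lit 0x1000100020, nat_lit 0x211112, nat_lit 3, nat_lit 4, nat_lit 0x4a⟩ (t14_4604) (t14_12796))) (.node ⟨nat_lit 5, nat_lit 0x40018, nat_lit 0x10101, nat_lit 2, nat_lit 4, nat_lit 0x45⟩ (.node ⟨nat_lit 8, nat_lit 0x80004000c0, nat_lit 0x1111031, nat_lit 0, nat_lit 4, nat_lit 0x4b⟩ (t14_2556) (t14_10748)) (.node ⟨nat_lit 7, nat_lit 0x5000300060, nat_lit 0x11122, nat_lit 1, nat_lit 4, nat_lit 0x47⟩ (t14_6652) (t14_14844)))) (.node ⟨nat_lit 4, nat_lit 0x40008, nat_lit 0x2121, nat_lit 8, nat_lit 4, nat_lit 0x48⟩ (.node ⟨nat_lit 6, nat_lit 0x20, nat_lit 0x222111, nat_lit 2, nat_lit 4, nat_lit 0x4c⟩ (.node ⟨nat_lit 8, nat_lit 0x8000200020009000c0, nat_lit 0x10031021, nat_lit 0, nat_lit 4, nat_lit 0x49⟩ (t14_1532) (t14_9724)) (.node ⟨nat_lit 7, nat_lit 0x20005000680070, nat_lit 0x1101202, nat_lit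 1, nat_lit 4, nat_lit 0x46⟩ (t14_5628) (t14_13820))) (.node ⟨nat_lit 6, nat_lit 0x800080030, nat_lit 0x210001, nat_lit 2, nat_lit 4, nat_lit 0x47⟩ (.node ⟨nat_lit 7, nat_lit 0x2000500064, nat_lit 0x101000, nat_lit 2, nat_lit 4, nat_lit 0x47⟩ (t14_3580) (t14_11772)) (.node ⟨nat_lit 7, nat_lit 0x10001800600060, nat_lit 0x1012011, nat_lit 1, nat_lit 4, nat_lit 0x47⟩ (t14_7676) (.nil))))) (.node ⟨nat_lit 2, nat_lit 2, nat_lit 0x30, nat_lit 5, nat_lit 3, nat_lit 0x44⟩ (.node ⟨nat_lit 4, nat_lit 0x8000a, nat_lit 0x2200, nat_lit 7, nat_lit 4, nat_lit 0x47⟩ (.node ⟨nat_lit 6, nat_lit 0x10001000200022, nat_lit 0x221121, nat_lit 0, nat_lit 4, nat_lit 0x49⟩ (.node ⟨nat_lit 5, nat_lit 0x40018, nat_lit 0x11104, nat_lit 1, nat_lit 4, nat_lit 0x47⟩ (t14_1020) (t14_9212)) (.node ⟨nat_lit 4, nat_lit 0x40008, nat_lit 0x2201, nat_lit 4, nat_lit 4, nat_lit 0x47⟩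 (t14_5116) (t14_13308))) (.node ⟨nat_lit 6, nat_lit 0x30, nat_lit 0x101110, nat_lit 0, nat_lit 4, nat_lit 0x48⟩ (.node ⟨nat_lit 5, nat_lit 0x1000080018, nat_lit 0x2032, nat_lit 1, nat_lit 3, nat_lit 0x46⟩ (t14_3068) (t14_11260)) (.node ⟨nat_lit 7, nat_lit 0x40002000600064, nat_lit 0x112220, nat_lit 1, nat_lit 4, nat_lit 0x48⟩ (t14_7164) (t14_15356)))) (.node ⟨nat_lit 5, nat_lit 0x140018, nat_lit 0x12012, nat_lit 5, nat_lit 4, nat_lit 0x47⟩ (.node ⟨nat_lit 7, nat_lit 0x400060, nat_lit 0x222111, nat_lit 0, nat_lit 4, nat_lit 0x4b⟩ (.node ⟨nat_lit 6, nat_lit 0x2000100010, nat_lit 0x111031, nat_lit 5, nat_lit 4, nat_lit 0x4a⟩ (t14_2044) (t14_10236)) (.node ⟨nat_lit 7, nat_lit 0x20002000400060, nat_lit 0x1022020, nat_lit 0, nat_lit 4, nat_lit 0x49⟩ (t14_6140) (t14_14332))) (.node ⟨nat_lit 4, nat_lit 0xc, nat_lit 0x2214, nat_lit 5, nat_lit 4, nat_lit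 0x49⟩ (.node ⟨nat_lit 6, nat_lit 0x2000200030, nat_lit 0x2100, nat_lit 2, nat_lit 4, nat_lit 0x47⟩ (t14_4092) (t14_12284)) (.node ⟨nat_lit 7, nat_lit 0x10001800600060, nat_lit 0x1001121, nat_lit 0, nat_lit 4, nat_lit 0x46⟩ (t14_8188) (.nil)))))
def t4_12 : Tr := .node ⟨nat_lit 3, nat_lit 0, nat_lit 0x321, nat_lit 0, nat_lit 3, nat_lit 0x46⟩ (.node ⟨nat_lit 4, nat_lit 0x80008, nat_lit 0x220, nat_lit 4, nat_lit 3, nat_lit 0x45⟩ (.node ⟨nat_lit 0, nat_lit 0, nat_lit 0, nat_lit 0x14, nat_lit 3, nat_lit 0x43⟩ (.node ⟨nat_lit 3, nat_lit 0, nat_lit 0x431, nat_lit 0, nat_lit 3, nat_lit 0x48⟩ (.node ⟨nat_lit 6, nat_lit 0x200030, nat_lit 0x14211, nat_lit 0, nat_lit 4, nat_lit 0x4a⟩ (t9_12) (t9_268)) (.node ⟨nat_lit 4, nat_lit 0x40008, nat_lit 0x1321, nat_lit 9, nat_lit 4, nat_lit 0x49⟩ (t9_140) (t9_396))) (.node ⟨nat_lit 5, nat_lit 0x80010, nat_lit 0x11420,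 nat_lit 1, nat_lit 4, nat_lit 0x49⟩ (.node ⟨nat_lit 3, nat_lit 6, nat_lit 0x222, nat_lit 5, nat_lit 3, nat_lit 0x45⟩ (t9_76) (t9_332)) (.node ⟨nat_lit 4, nat_lit 0x80004, nat_lit 0x1311, nat_lit 1, nat_lit 3, nat_lit 0x46⟩ (t9_204) (t9_460)))) (.node ⟨nat_lit 2, nat_lit 0, nat_lit 0x44, nat_lit 0xc, nat_lit 4, nat_lit 0x49⟩ (.node ⟨nat_lit 4, nat_lit 0, nat_lit 0x4222, nat_lit 3, nat_lit 4, nat_lit 0x4b⟩ (.node ⟨nat_lit 3, nat_lit 4, nat_lit 0x312, nat_lit 0xd, nat_lit 4, nat_lit 0x49⟩ (t9_44) (t9_300)) (.node ⟨nat_lit 3, nat_lit 4, nat_lit 0x311, nat_lit 0xf, nat_lit 4, nat_lit 0x49⟩ (t9_172) (t9_428))) (.node ⟨nat_lit 5, nat_lit 0x80010, nat_lit 0x11411, nat_lit 5, nat_lit 4, nat_lit 0x4a⟩ (.node ⟨nat_lit 4, nat_lit 0xc, nat_lit 0x3222, nat_lit 3, nat_lit 4, nat_lit 0x49⟩ (t9_108) (t9_364)) (.node ⟨nat_lit 6, nat_lit 0x80030, nat_lit 0x311211,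 nat_lit 1, nat_lit 4, nat_lit 0x4a⟩ (t9_236) (t9_492))))) (.node ⟨nat_lit 3, nat_lit 4, nat_lit 0x212, nat_lit 2, nat_lit 3, nat_lit 0x45⟩ (.node ⟨nat_lit 4, nat_lit 0x40008, nat_lit 0x1111, nat_lit 4, nat_lit 3, nat_lit 0x45⟩ (.node ⟨nat_lit 4, nat_lit 0, nat_lit 0x4211, nat_lit 3, nat_lit 4, nat_lit 0x4a⟩ (.node ⟨nat_lit 5, nat_lit 0x10, nat_lit 0x32113, nat_lit 1, nat_lit 4, nat_lit 0x4b⟩ (t9_28) (t9_284)) (.node ⟨nat_lit 4, nat_lit 0x40008, nat_lit 0x1321, nat_lit 5, nat_lit 4, nat_lit 0x48⟩ (t9_156) (t9_412))) (.node ⟨nat_lit 6, nat_lit 0x200010, nat_lit 0x14101, nat_lit 1, nat_lit 4, nat_lit 0x4a⟩ (.node ⟨nat_lit 4, nat_lit 0x80004, nat_lit 0x1203, nat_lit 1, nat_lit 3, nat_lit 0x46⟩ (t9_92) (t9_348)) (.node ⟨nat_lit 5, nat_lit 0x10, nat_lit 0x31111, nat_lit 4, nat_lit 3, nat_lit 0x49⟩ (t9_220) (t9_476)))) (.node ⟨nat_lit 4, nat_lit 0, nat_lit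 0x4322, nat_lit 0, nat_lit 4, nat_lit 0x4b⟩ (.node ⟨nat_lit 5, nat_lit 0, nat_lit 0x42211, nat_lit 0, nat_lit 4, nat_lit 0x4c⟩ (.node ⟨nat_lit 4, nat_lit 8, nat_lit 0x2211, nat_lit 2, nat_lit 3, nat_lit 0x47⟩ (t9_60) (t9_316)) (.node ⟨nat_lit 3, nat_lit 6, nat_lit 0x321, nat_lit 7, nat_lit 3, nat_lit 0x46⟩ (t9_188) (t9_444))) (.node ⟨nat_lit 6, nat_lit 0x200030, nat_lit 0x14210, nat_lit 1, nat_lit 4, nat_lit 0x4a⟩ (.node ⟨nat_lit 5, nat_lit 0x10, nat_lit 0x32212, nat_lit 1, nat_lit 4, nat_lit 0x4b⟩ (t9_124) (t9_380)) (.node ⟨nat_lit 5, nat_lit 0x80010, nat_lit 0x11320, nat_lit 1, nat_lit 4, nat_lit 0x48⟩ (t9_252) (t9_508)))))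

end Pool.Agent.Sel.T31
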