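import Pool.Agent.H8.Sel.Prof
import Pool.Agent.H8.Sel.T31.P12

set_option linter.all false
set_option maxRecDepth 100000

namespace Pool.Agent.Sel.T31

open Pool.Agent.Sel

def t14_14 : Tr := .node ⟨nat_lit 5, nat_lit 0x800080010, nat_lit 0x11211, nat_lit 0xa, nat_lit 4, nat_lit 0x49⟩ (.nil) (.nil)
def t14_8206 : Tr := .node ⟨nat_lit 8, nat_lit 0x400080005000a000d0, nat_lit 0x11103, nat_lit 1, nat_lit 4, nat_lit 0x46⟩ (.nil) (.nil)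
def t14_4110 : Tr := .node ⟨nat_lit 9, nat_lit 0x1000100010000800110, nat_lit 0x11112001, nat_lit 0, nat_lit 4, nat_lit 0x4b⟩ (.nil) (.nil)
def t14_12302 : Tr := .node ⟨nat_lit 7, nat_lit 0x1000600050, nat_lit 0x1210, nat_lit 0, nat_lit 4, nat_lit 0x47⟩ (.nil) (.nil)
def t14_2062 : Tr := .node ⟨nat_lit 7, nat_lit 0x40004000400020, nat_lit 0x113110, nat_lit 2, nat_lit 4, nat_lit 0x4a⟩ (.nil) (.nil)
def t14_10254 : Tr := .node ⟨nat_lit 8, nat_lit 0x400040005000a000d0, nat_lit 0x1000022, nat_lit 2, nat_lit 4, nat_lit 0x47⟩ (.nil) (.nil)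
def t14_6158 : Tr := .node ⟨nat_lit 5, nat_lit 0x100008, nat_lit 0x100, nat_lit 7, nat_lit 4, nat_lit 0x47⟩ (.nil) (.nil)
def t14_14350 : Tr := .node ⟨nat_lit 5, nat_lit 0x100010001c, nat_lit 0x111, nat_lit 4, nat_lit 4, nat_lit 0x45⟩ (.nil) (.nil)
def t14_1038 : Tr := .node ⟨nat_lit 6, nat_lit 0x20001000280030, nat_lit 0x2121, nat_lit 2, nat_lit 4, nat_lit 0x46⟩ (.nil) (.nil)
def t14_9230 : Tr := .node ⟨nat_lit 8, nat_lit 0x8000800020009000c0, nat_lit 0x1012011, nat_lit 4, nat_lit 4, nat_lit 0x49⟩ (.nil) (.nil)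
def t14_5134 : Tr := .node ⟨nat_lit 7, nat_lit 0x400040005800680070, nat_lit 0x130, nat_lit 1, nat_lit 4, nat_lit 0x43⟩ (.nil) (.nil)
def t14_13326 : Tr := .node ⟨nat_lit 7, nat_lit 0x40001000100060, nat_lit 0x2100100, nat_lit 0, nat_lit 3, nat_lit 0x47⟩ (.nil) (.nil)
def t14_3086 : Tr := .node ⟨nat_lit 7, nat_lit 0x10002000500060, nat_lit 0x1010112, nat_lit 0, nat_lit 4, nat_lit 0x47⟩ (.nil) (.nil)
def t14_11278 : Tr := .node ⟨nat_lit 8, nat_lit 0x800020002000c000c0, nat_lit 0x1012020, nat_lit 0, nat_lit 4, nat_lit 0x48⟩ (.nil) (.nil)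
def t14_7182 : Tr := .node ⟨nat_lit 7, nat_lit 0x40004000200060, nat_lit 0x110012, nat_lit 1, nat_lit 4, nat_lit 0x48⟩ (.nil) (.nil)
def t14_15374 : Tr := .node ⟨nat_lit 7, nat_lit 0x40004000100060, nat_lit 0x12110, nat_lit 6, nat_lit 4, nat_lit 0x49⟩ (.nil) (.nil)
def t14_526 : Tr := .node ⟨nat_lit 3, nat_lit 0x40004, nat_lit 0x22, nat_lit 9, nat_lit 3, nat_lit 0x44⟩ (.nil) (.nil)
def t14_8718 : Tr := .node ⟨nat_lit 8, nat_lit 0x800040009000a000d0, nat_lit 0x10101, nat_lit 1, nat_lit 4, nat_lit 0x46⟩ (.nil) (.nil)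
def t14_4622 : Tr := .node ⟨nat_lit 7, nat_lit 0x2000500060, nat_lit 0x121211, nat_lit 1, nat_lit 4, nat_lit 0x49⟩ (.nil) (.nil)
def t14_12814 : Tr := .node ⟨nat_lit 8, nat_lit 0x800020004000a000c0, nat_lit 0x12002, nat_lit 0, nat_lit 4, nat_lit 0x47⟩ (.nil) (.nil)
def t14_2574 : Tr := .node ⟨nat_lit 6, nat_lit 0x800200030, nat_lit 0x112020, nat_lit 1, nat_lit 3, nat_lit 0x47⟩ (.nil) (.nil)
def t14_10766 : Tr := .node ⟨nat_lit 7, nat_lit 0x40002000480070, nat_lit 0x10002, nat_lit 0, nat_lit 4, nat_lit 0x45⟩ (.nil) (.nil)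
def t14_6670 : Tr := .node ⟨nat_lit 7, nat_lit 0x400040002000200050, nat_lit 0x1011201, nat_lit 3, nat_lit 4, nat_lit 0x48⟩ (.nil) (.nil)
def t14_14862 : Tr := .node ⟨nat_lit 9, nat_lit 0x100010001080180, nat_lit 0x11111111, nat_lit 0, nat_lit 4, nat_lit 0x4b⟩ (.nil) (.nil)
def t14_1550 : Tr := .node ⟨nat_lit 9, nat_lit 0x100010000800080014001c00190, nat_lit 0x1121101, nat_lit 0, nat_lit 4, nat_lit 0x47⟩ (.nil) (.nil)
def t14_9742 : Tr := .node ⟨nat_lit 9, nat_lit 0x1000040004001800180, nat_lit 0x121020, nat_lit 0, nat_lit 4, nat_lit 0x49⟩ (.nil) (.nil)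
def t14_5646 : Tr := .node ⟨nat_lit 6, nat_lit 0x30, nat_lit 0x1100, nat_lit 0, nat_lit 4, nat_lit 0x47⟩ (.nil) (.nil)
def t14_13838 : Tr := .node ⟨nat_lit 7, nat_lit 0x40002000500068, nat_lit 0x2000, nat_lit 2, nat_lit 4, nat_lit 0x46⟩ (.nil) (.nil)
def t14_3598 : Tr := .node ⟨nat_lit 7, nat_lit 0x10005000600070, nat_lit 0x1001122, nat_lit 2, nat_lit 4, nat_lit 0x46⟩ (.nil) (.nil)
def t14_11790 : Tr := .node ⟨nat_lit 6, nat_lit 0x200022, nat_lit 0x10000, nat_lit 1, nat_lit 4, nat_lit 0x46⟩ (.nil) (.nil)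
def t14_7694 : Tr := .node ⟨nat_lit 6, nat_lit 0x2000100008, nat_lit 0, nat_lit 4, nat_lit 4, nat_lit 0x46⟩ (.nil) (.nil)
def t9_14 : Tr := .node ⟨nat_lit 4, nat_lit 0xc, nat_lit 0x3111, nat_lit 0, nat_lit 3, nat_lit 0x46⟩ (.node ⟨nat_lit 5, nat_lit 0x100018, nat_lit 0x10330, nat_lit 5, nat_lit 4, nat_lit 0x49⟩ (.node ⟨nat_lit 3, nat_lit 6, nat_lit 0x100, nat_lit 2, nat_lit 3, nat_lit 0x42⟩ (.node ⟨nat_lit 7, nat_lit 0x3000500060, nat_lit 0x12121, nat_lit 0, nat_lit 4, nat_lit 0x47⟩ (.node ⟨nat_lit 7, nat_lit 0x40002000200010, nat_lit 0x120203, nat_lit 1, nat_lit 4, nat_lit 0x4a⟩ (t14_14) (t14_8206)) (.node ⟨nat_lit 6, nat_lit 0x2000080030, nat_lit 0x101000, nat_lit 1, nat_lit 4, nat_lit 0x46⟩ (t14_4110) (t14_12302))) (.node ⟨nat_lit 4, nat_lit 0xc, nat_lit 0x3124, nat_lit 3, nat_lit 4, nat_lit 0x49⟩ (.node ⟨nat_lit 7, nat_lit 0x400040004000200020,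 nat_lit 0x121131, nat_lit 0, nat_lit 4, nat_lit 0x49⟩ (t14_2062) (t14_10254)) (.node ⟨nat_lit 6, nat_lit 0x800080030, nat_lit 0x201002, nat_lit 0, nat_lit 4, nat_lit 0x47⟩ (t14_6158) (t14_14350)))) (.node ⟨nat_lit 5, nat_lit 0x80010, nat_lit 0x20132, nat_lit 2, nat_lit 4, nat_lit 0x48⟩ (.node ⟨nat_lit 6, nat_lit 0x240038, nat_lit 0x221012, nat_lit 1, nat_lit 4, nat_lit 0x48⟩ (.node ⟨nat_lit 6, nat_lit 0x800300030, nat_lit 0x111131, nat_lit 3, nat_lit 4, nat_lit 0x48⟩ (t14_1038) (t14_9230)) (.node ⟨nat_lit 5, nat_lit 0x100018, nat_lit 0x12221, nat_lit 5, nat_lit 4, nat_lit 0x49⟩ (t14_5134) (t14_13326))) (.node ⟨nat_lit 6, nat_lit 0x20002000100028, nat_lit 0x112011, nat_lit 3, nat_lit 4, nat_lit 0x48⟩ (.node ⟨nat_lit 7, nat_lit 0x10002000400070, nat_lit 0x110003, nat_lit 5, nat_lit 4, nat_lit 0x48⟩ (t14_3086) (t14_11278)) (.node ⟨nat_lit 5, nat_lit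 0x100018001c, nat_lit 0x10222, nat_lit 5, nat_lit 4, nat_lit 0x46⟩ (t14_7182) (t14_15374))))) (.node ⟨nat_lit 6, nat_lit 0x200030, nat_lit 0x131112, nat_lit 0, nat_lit 4, nat_lit 0x4a⟩ (.node ⟨nat_lit 3, nat_lit 0, nat_lit 0x221, nat_lit 9, nat_lit 4, nat_lit 0x48⟩ (.node ⟨nat_lit 6, nat_lit 0x2000100010, nat_lit 0x2010, nat_lit 9, nat_lit 4, nat_lit 0x49⟩ (.node ⟨nat_lit 7, nat_lit 0x400040002000500048, nat_lit 0x1210110, nat_lit 6, nat_lit 4, nat_lit 0x49⟩ (t14_526) (t14_8718)) (.node ⟨nat_lit 7, nat_lit 0x40002000500060, nat_lit 0x1012021, nat_lit 2, nat_lit 4, nat_lit 0x48⟩ (t14_4622) (t14_12814))) (.node ⟨nat_lit 4, nat_lit 0x8000c, nat_lit 0x1131, nat_lit 2, nat_lit 3, nat_lit 0x45⟩ (.node ⟨nat_lit 5, nat_lit 0x800080010, nat_lit 0x11311, nat_lit 8, nat_lit 4, nat_lit 0x49⟩ (t14_2574) (t14_10766)) (.node ⟨nat_lit 6, nat_lit 0x1000100020,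 nat_lit 0x102301, nat_lit 3, nat_lit 4, nat_lit 0x49⟩ (t14_6670) (t14_14862)))) (.node ⟨nat_lit 6, nat_lit 0x2000080030, nat_lit 0x112013, nat_lit 0, nat_lit 4, nat_lit 0x48⟩ (.node ⟨nat_lit 5, nat_lit 0x800080010, nat_lit 0x21002, nat_lit 5, nat_lit 4, nat_lit 0x48⟩ (.node ⟨nat_lit 5, nat_lit 0x800100018, nat_lit 0x10231, nat_lit 4, nat_lit 4, nat_lit 0x47⟩ (t14_1550) (t14_9742)) (.node ⟨nat_lit 9, nat_lit 0x4000400100006000500180, nat_lit 0x101102001, nat_lit 1, nat_lit 4, nat_lit 0x49⟩ (t14_5646) (t14_13838))) (.node ⟨nat_lit 6, nat_lit 0x800080030, nat_lit 0x200103, nat_lit 2, nat_lit 4, nat_lit 0x47⟩ (.node ⟨nat_lit 5, nat_lit 0x1000080014, nat_lit 0x1020, nat_lit 3, nat_lit 4, nat_lit 0x45⟩ (t14_3598) (t14_11790)) (.node ⟨nat_lit 5, nat_lit 0x80010001a, nat_lit 0x11201, nat_lit 0xb, nat_lit 4, nat_lit 0x48⟩ (t14_7694) (.nil)))))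
def t14_270 : Tr := .node ⟨nat_lit 8, nat_lit 0x80002000a000c000d0, nat_lit 0x1021211, nat_lit 0, nat_lit 4, nat_lit 0x47⟩ (.nil) (.nil)
def t14_8462 : Tr := .node ⟨nat_lit 7, nat_lit 0x400020002800500070, nat_lit 0x1002001, nat_lit 0, nat_lit 4, nat_lit 0x45⟩ (.nil) (.nil)
def t14_4366 : Tr := .node ⟨nat_lit 7, nat_lit 0x400040002000580070, nat_lit 0x1011120, nat_lit 1, nat_lit 4, nat_lit 0x46⟩ (.nil) (.nil)
def t14_12558 : Tr := .node ⟨nat_lit 9, nat_lit 0x100011000a0019001c0, nat_lit 0x100000013, nat_lit 1, nat_lit 4, nat_lit 0x47⟩ (.nil) (.nil)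
def t14_2318 : Tr := .node ⟨nat_lit 7, nat_lit 0x400020002000500068, nat_lit 0x1011201, nat_lit 0, nat_lit 4, nat_lit 0x46⟩ (.nil) (.nil)
def t14_10510 : Tr := .node ⟨nat_lit 4, nat_lit 0x8000c, nat_lit 0x20, nat_lit 6, nat_lit 3, nat_lit 0x44⟩ (.nil) (.nil)
def t14_6414 : Tr := .node ⟨nat_lit 7, nat_lit 0x400020, nat_lit 0x1111011, nat_lit 0, nat_lit 3, nat_lit 0x49⟩ (.nil) (.nil)
def t14_14606 : Tr := .node ⟨nat_lit 4, nat_lit 0, nat_lit 0x1111, nat_lit 0xa, nat_lit 3, nat_lit 0x48⟩ (.nil) (.nil)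
def t14_1294 : Tr := .node ⟨nat_lit 8, nat_lit 0x4000800060009000c000d0, nat_lit 0x121120, nat_lit 0, nat_lit 4, nat_lit 0x46⟩ (.nil) (.nil)
def t14_9486 : Tr := .node ⟨nat_lit 0xb, nat_lit 0x1000400020002000200021002200440, nat_lit 0x10000111010, nat_lit 0, nat_lit 4, nat_lit 0x4a⟩ (.nil) (.nil)
def t14_5390 : Tr := .node ⟨nat_lit 6, nat_lit 0x20001000100030, nat_lit 0x202100, nat_lit 0, nat_lit 3, nat_lit 0x46⟩ (.nil) (.nil)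
def t14_13582 : Tr := .node ⟨nat_lit 7, nat_lit 0x40001000200020, nat_lit 0x1200, nat_lit 1, nat_lit 4, nat_lit 0x47⟩ (.nil) (.nil)
def t14_3342 : Tr := .node ⟨nat_lit 7, nat_lit 0x40004000480060, nat_lit 0x21012, nat_lit 3, nat_lit 4, nat_lit 0x48⟩ (.nil) (.nil)
def t14_11534 : Tr := .node ⟨nat_lit 5, nat_lit 0x1000180018, nat_lit 0x310, nat_lit 0xb, nat_lit 4, nat_lit 0x47⟩ (.nil) (.nil)
def t14_7438 : Tr := .node ⟨nat_lit 5, nat_lit 0x100018, nat_lit 0x11111, nat_lit 0xb, nat_lit 4, nat_lit 0x49⟩ (.nil) (.nil)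
def t14_782 : Tr := .node ⟨nat_lit 4, nat_lit 0x8000c, nat_lit 0x232, nat_lit 6, nat_lit 4, nat_lit 0x47⟩ (.nil) (.nil)
def t14_8974 : Tr := .node ⟨nat_lit 7, nat_lit 0x400040002000500048, nat_lit 0x121110, nat_lit 4, nat_lit 4, nat_lit 0x48⟩ (.nil) (.nil)
def t14_4878 : Tr := .node ⟨nat_lit 7, nat_lit 0x40001000200060, nat_lit 0x1022001, nat_lit 0, nat_lit 3, nat_lit 0x47⟩ (.nil) (.nil)
def t14_13070 : Tr := .node ⟨nat_lit 7, nat_lit 0x6000480050, nat_lit 0x100013, nat_lit 0, nat_lit 4, nat_lit 0x46⟩ (.nil) (.nil)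
def t14_2830 : Tr := .node ⟨nat_lit 7, nat_lit 0x5000500060, nat_lit 0x101200, nat_lit 3, nat_lit 4, nat_lit 0x47⟩ (.nil) (.nil)
def t14_11022 : Tr := .node ⟨nat_lit 6, nat_lit 0x2000300030, nat_lit 0x101220, nat_lit 5, nat_lit 4, nat_lit 0x48⟩ (.nil) (.nil)
def t14_6926 : Tr := .node ⟨nat_lit 6, nat_lit 0x200038, nat_lit 0x131111, nat_lit 1, nat_lit 4, nat_lit 0x49⟩ (.nil) (.nil)
def t14_15118 : Tr := .node ⟨nat_lit 8, nat_lit 0x4000800088006000c8, nat_lit 0x1111, nat_lit 1, nat_lit 4, nat_lit 0x46⟩ (.nil) (.nil)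
def t14_1806 : Tr := .node ⟨nat_lit 7, nat_lit 0x10004000600064, nat_lit 0x2100120, nat_lit 1, nat_lit 4, nat_lit 0x48⟩ (.nil) (.nil)
def t14_9998 : Tr := .node ⟨nat_lit 6, nat_lit 0x20001000280028, nat_lit 0x310, nat_lit 2, nat_lit 4, nat_lit 0x45⟩ (.nil) (.nil)
def t14_5902 : Tr := .node ⟨nat_lit 9, nat_lit 0x40010001000180, nat_lit 0x10110201, nat_lit 1, nat_lit 4, nat_lit 0x4b⟩ (.nil) (.nil)
def t14_14094 : Tr := .node ⟨nat_lit 7, nat_lit 0x20002000400040, nat_lit 0x111021, nat_lit 2, nat_lit 4, nat_lit 0x49⟩ (.nil) (.nil)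
def t14_3854 : Tr := .node ⟨nat_lit 7, nat_lit 0x40001000500060, nat_lit 0x1102021, nat_lit 2, nat_lit 4, nat_lit 0x48⟩ (.nil) (.nil)
def t14_12046 : Tr := .node ⟨nat_lit 8, nat_lit 0x80001000a000c0, nat_lit 0x1112110, nat_lit 0, nat_lit 4, nat_lit 0x49⟩ (.nil) (.nil)
def t14_7950 : Tr := .node ⟨nat_lit 8, nat_lit 0x800088008800c0, nat_lit 0x1111211, nat_lit 1, nat_lit 4, nat_lit 0x49⟩ (.nil) (.nil)
def t9_270 : Tr := .node ⟨nat_lit 4, nat_lit 8, nat_lit 0x322, nat_lit 4, nat_lit 4, nat_lit 0x48⟩ (.node ⟨nat_lit 5, nat_lit 0x1000080008, nat_lit 0x21210, nat_lit 0, nat_lit 3, nat_lit 0x46⟩ (.node ⟨nat_lit 7, nat_lit 0x1000500060, nat_lit 0x1103021, nat_lit 0, nat_lit 4, nat_lit 0x49⟩ (.node ⟨nat_lit 3, nat_lit 6, nat_lit 0x311, nat_lit 2, nat_lit 3, nat_lit 0x45⟩ (.node ⟨nat_lit 4, nat_lit 0x80008, nat_lit 0x2121, nat_lit 9, nat_lit 4, nat_lit 0x49⟩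 (t14_270) (t14_8462)) (.node ⟨nat_lit 7, nat_lit 0x10002000500060, nat_lit 0x1002040, nat_lit 0, nat_lit 4, nat_lit 0x47⟩ (t14_4366) (t14_12558))) (.node ⟨nat_lit 4, nat_lit 8, nat_lit 0x212, nat_lit 4, nat_lit 3, nat_lit 0x46⟩ (.node ⟨nat_lit 8, nat_lit 0x40002000c000a000d0, nat_lit 0x1020302, nat_lit 0, nat_lit 4, nat_lit 0x47⟩ (t14_2318) (t14_10510)) (.node ⟨nat_lit 6, nat_lit 0x300038, nat_lit 0x110203, nat_lit 2, nat_lit 4, nat_lit 0x48⟩ (t14_6414) (t14_14606)))) (.node ⟨nat_lit 5, nat_lit 0x40018, nat_lit 0x21121, nat_lit 0, nat_lit 3, nat_lit 0x46⟩ (.node ⟨nat_lit 6, nat_lit 0x800100020, nat_lit 0x222111, nat_lit 1, nat_lit 4, nat_lit 0x4a⟩ (.node ⟨nat_lit 5, nat_lit 0x180014, nat_lit 0x1100, nat_lit 1, nat_lit 3, nat_lit 0x44⟩ (t14_1294) (t14_9486)) (.node ⟨nat_lit 7, nat_lit 0x6000500018, nat_lit 0x1111122, nat_lit 0, nat_lit 4, nat_lit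 0x48⟩ (t14_5390) (t14_13582))) (.node ⟨nat_lit 6, nat_lit 0x2000080030, nat_lit 0x110230, nat_lit 0, nat_lit 4, nat_lit 0x47⟩ (.node ⟨nat_lit 9, nat_lit 0x1000080002000400040, nat_lit 0x1100031, nat_lit 0, nat_lit 4, nat_lit 0x4b⟩ (t14_3342) (t14_11534)) (.node ⟨nat_lit 7, nat_lit 0x40004000100060, nat_lit 0x1111112, nat_lit 1, nat_lit 4, nat_lit 0x49⟩ (t14_7438) (.nil))))) (.node ⟨nat_lit 5, nat_lit 0x100018, nat_lit 0x11310, nat_lit 3, nat_lit 4, nat_lit 0x48⟩ (.node ⟨nat_lit 4, nat_lit 0xc, nat_lit 0x2210, nat_lit 0, nat_lit 3, nat_lit 0x46⟩ (.node ⟨nat_lit 5, nat_lit 0x1000080014, nat_lit 0x1121, nat_lit 2, nat_lit 4, nat_lit 0x45⟩ (.node ⟨nat_lit 5, nat_lit 0x100010, nat_lit 0x22120, nat_lit 5, nat_lit 4, nat_lit 0x4a⟩ (t14_782) (t14_8974)) (.node ⟨nat_lit 8, nat_lit 0x800080004000400090, nat_lit 0x11111201, nat_lit 0, nat_lit 4, nat_lit 0x4a⟩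 (t14_4878) (t14_13070))) (.node ⟨nat_lit 6, nat_lit 0x2000100038, nat_lit 0x11032, nat_lit 1, nat_lit 4, nat_lit 0x47⟩ (.node ⟨nat_lit 8, nat_lit 0x800040009000d000e0, nat_lit 0x10201003, nat_lit 1, nat_lit 4, nat_lit 0x47⟩ (t14_2830) (t14_11022)) (.node ⟨nat_lit 7, nat_lit 0x800600050, nat_lit 0x1010122, nat_lit 2, nat_lit 4, nat_lit 0x48⟩ (t14_6926) (t14_15118)))) (.node ⟨nat_lit 5, nat_lit 0x100010, nat_lit 0x11122, nat_lit 2, nat_lit 3, nat_lit 0x47⟩ (.node ⟨nat_lit 7, nat_lit 0x40001000500068, nat_lit 0x1012121, nat_lit 1, nat_lit 4, nat_lit 0x48⟩ (.node ⟨nat_lit 6, nat_lit 0x2000300038, nat_lit 0x1023, nat_lit 2, nat_lit 4, nat_lit 0x45⟩ (t14_1806) (t14_9998)) (.node ⟨nat_lit 9, nat_lit 0x100008000400020, nat_lit 0x1120010, nat_lit 3, nat_lit 4, nat_lit 0x4c⟩ (t14_5902) (t14_14094))) (.node ⟨nat_lit 8, nat_lit 0x40001000a000c0, nat_lit 0x210122,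 nat_lit 1, nat_lit 4, nat_lit 0x49⟩ (.node ⟨nat_lit 8, nat_lit 0x80009000a0006000c0, nat_lit 0x1100031, nat_lit 0, nat_lit 4, nat_lit 0x47⟩ (t14_3854) (t14_12046)) (.node ⟨nat_lit 4, nat_lit 0xc000c, nat_lit 0x1120, nat_lit 9, nat_lit 4, nat_lit 0x46⟩ (t14_7950) (.nil)))))
def t14_142 : Tr := .node ⟨nat_lit 6, nat_lit 0x10002000200030, nat_lit 0x121311, nat_lit 0, nat_lit 3, nat_lit 0x47⟩ (.nil) (.nil)
def t14_8334 : Tr := .node ⟨nat_lit 6, nat_lit 0x800300038, nat_lit 0x102, nat_lit 1, nat_lit 4, nat_lit 0x44⟩ (.nil) (.nil)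
def t14_4238 : Tr := .node ⟨nat_lit 6, nat_lit 0x10001000200022, nat_lit 0x201120, nat_lit 3, nat_lit 4, nat_lit 0x48⟩ (.nil) (.nil)
def t14_12430 : Tr := .node ⟨nat_lit 7, nat_lit 0x4000640064, nat_lit 0x10110, nat_lit 0, nat_lit 4, nat_lit 0x46⟩ (.nil) (.nil)
def t14_2190 : Tr := .node ⟨nat_lit 6, nat_lit 0x10001000200032, nat_lit 0x202200, nat_lit 5, nat_lit 4, nat_lit 0x48⟩ (.nil) (.nil)
def t14_10382 : Tr := .node ⟨nat_lit 7, nat_lit 0x200040003000480048, nat_lit 0x112000, nat_lit 0, nat_lit 4, nat_lit 0x46⟩ (.nil) (.nil)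
def t14_6286 : Tr := .node ⟨nat_lit 5, nat_lit 0x1000100018, nat_lit 0x220, nat_lit 7, nat_lit 4, nat_lit 0x47⟩ (.nil) (.nil)
def t14_14478 : Tr := .node ⟨nat_lit 8, nat_lit 0x80002000a000c0, nat_lit 0x10121, nat_lit 1, nat_lit 4, nat_lit 0x48⟩ (.nil) (.nil)
def t14_1166 : Tr := .node ⟨nat_lit 6, nat_lit 0x800280030, nat_lit 0x10221, nat_lit 2, nat_lit 4, nat_lit 0x46⟩ (.nil) (.nil)
def t14_9358 : Tr := .node ⟨nat_lit 7, nat_lit 0x40005000680070, nat_lit 0x1000112, nat_lit 1, nat_lit 4, nat_lit 0x45⟩ (.nil) (.nil)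
def t14_5262 : Tr := .node ⟨nat_lit 4, nat_lit 0x8000c, nat_lit 0x1230, nat_lit 7, nat_lit 4, nat_lit 0x48⟩ (.nil) (.nil)
def t14_13454 : Tr := .node ⟨nat_lit 6, nat_lit 0x2000240030, nat_lit 0x1200, nat_lit 8, nat_lit 4, nat_lit 0x48⟩ (.nil) (.nil)
def t14_3214 : Tr := .node ⟨nat_lit 6, nat_lit 0x20001000100010, nat_lit 0x100211, nat_lit 2, nat_lit 3, nat_lit 0x46⟩ (.nil) (.nil)
def t14_11406 : Tr := .node ⟨nat_lit 6, nat_lit 0x2000080030, nat_lit 0x110010, nat_lit 3, nat_lit 4, nat_lit 0x47⟩ (.nil) (.nil)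
def t14_7310 : Tr := .node ⟨nat_lit 7, nat_lit 0x20002000200040, nat_lit 0x1022000, nat_lit 0, nat_lit 4, nat_lit 0x49⟩ (.nil) (.nil)
def t14_15502 : Tr := .node ⟨nat_lit 7, nat_lit 0x10001000500060, nat_lit 0x1101013, nat_lit 0, nat_lit 3, nat_lit 0x46⟩ (.nil) (.nil)
def t14_654 : Tr := .node ⟨nat_lit 6, nat_lit 0x2000100038, nat_lit 0x11313, nat_lit 1, nat_lit 4, nat_lit 0x47⟩ (.nil) (.nil)
def t14_8846 : Tr := .node ⟨nat_lit 6, nat_lit 0x1000200022, nat_lit 0x1021, nat_lit 3, nat_lit 4, nat_lit 0x47⟩ (.nil) (.nil)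
def t14_4750 : Tr := .node ⟨nat_lit 5, nat_lit 0x1000080018, nat_lit 0x1213, nat_lit 6, nat_lit 4, nat_lit 0x47⟩ (.nil) (.nil)
def t14_12942 : Tr := .node ⟨nat_lit 7, nat_lit 0x40006000680058, nat_lit 0x1000120, nat_lit 1, nat_lit 4, nat_lit 0x45⟩ (.nil) (.nil)
def t14_2702 : Tr := .node ⟨nat_lit 7, nat_lit 0x20004000280044, nat_lit 0x1002110, nat_lit 0, nat_lit 4, nat_lit 0x47⟩ (.nil) (.nil)
def t14_10894 : Tr := .node ⟨nat_lit 7, nat_lit 0x40001000600050, nat_lit 0x2302, nat_lit 0, nat_lit 4, nat_lit 0x47⟩ (.nil) (.nil)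
def t14_6798 : Tr := .node ⟨nat_lit 7, nat_lit 0x20004000100068, nat_lit 0x1101001, nat_lit 1, nat_lit 4, nat_lit 0x47⟩ (.nil) (.nil)
def t14_14990 : Tr := .node ⟨nat_lit 7, nat_lit 0x4000400050005000500060, nat_lit 0x1111111, nat_lit 3, nat_lit 4, nat_lit 0x48⟩ (.nil) (.nil)
def t14_1678 : Tr := .node ⟨nat_lit 7, nat_lit 0x40002000640070, nat_lit 0x12202, nat_lit 0, nat_lit 4, nat_lit 0x46⟩ (.nil) (.nil)
def t14_9870 : Tr := .node ⟨nat_lit 5, nat_lit 0x1000100010, nat_lit 0x2220, nat_lit 9, nat_lit 4, nat_lit 0x49⟩ (.nil) (.nil)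
def t14_5774 : Tr := .node ⟨nat_lit 8, nat_lit 0x8000800080, nat_lit 0x1111220, nat_lit 1, nat_lit 4, nat_lit 0x4c⟩ (.nil) (.nil)
def t14_13966 : Tr := .node ⟨nat_lit 8, nat_lit 0x200080001000c0, nat_lit 0x200, nat_lit 2, nat_lit 4, nat_lit 0x48⟩ (.nil) (.nil)
def t14_3726 : Tr := .node ⟨nat_lit 7, nat_lit 0x400020002000200050, nat_lit 0x1012200, nat_lit 1, nat_lit 4, nat_lit 0x48⟩ (.nil) (.nil)
def t14_11918 : Tr := .node ⟨nat_lit 5, nat_lit 0x800080010, nat_lit 0x10403, nat_lit 0, nat_lit 3, nat_lit 0x46⟩ (.nil) (.nil)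
def t14_7822 : Tr := .node ⟨nat_lit 6, nat_lit 0x20001000100028, nat_lit 0x2103, nat_lit 5, nat_lit 4, nat_lit 0x47⟩ (.nil) (.nil)
def t9_142 : Tr := .node ⟨nat_lit 6, nat_lit 0x200032, nat_lit 0x312111, nat_lit 0, nat_lit 4, nat_lit 0x4a⟩ (.node ⟨nat_lit 5, nat_lit 0x180018, nat_lit 0x11121, nat_lit 2, nat_lit 3, nat_lit 0x45⟩ (.node ⟨nat_lit 7, nat_lit 0x20002800500068, nat_lit 0x300012, nat_lit 1, nat_lit 4, nat_lit 0x47⟩ (.node ⟨nat_lit 7, nat_lit 0x100060, nat_lit 0x1012111, nat_lit 0, nat_lit 4, nat_lit 0x4a⟩ (.node ⟨nat_lit 7, nat_lit 0x40001000600060, nat_lit 0x122210, nat_lit 0, nat_lit 4, nat_lit 0x48⟩ (t14_142) (t14_8334)) (.node ⟨nat_lit 8, nat_lit 0x400080002000c000e0, nat_lit 0x101023, nat_lit 1, nat_lit 4, nat_lit 0x47⟩ (t14_4238) (t14_12430))) (.node ⟨nat_lit 6, nat_lit 0x2000200030, nat_lit 0x12101, nat_lit 4, nat_lit 4, nat_lit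 0x48⟩ (.node ⟨nat_lit 7, nat_lit 0x20001000500068, nat_lit 0x102002, nat_lit 0, nat_lit 4, nat_lit 0x46⟩ (t14_2190) (t14_10382)) (.node ⟨nat_lit 6, nat_lit 0x2000200020, nat_lit 0x21210, nat_lit 7, nat_lit 4, nat_lit 0x4a⟩ (t14_6286) (t14_14478)))) (.node ⟨nat_lit 5, nat_lit 0, nat_lit 0x22111, nat_lit 4, nat_lit 4, nat_lit 0x4b⟩ (.node ⟨nat_lit 5, nat_lit 0x40018, nat_lit 0x21111, nat_lit 9, nat_lit 4, nat_lit 0x49⟩ (.node ⟨nat_lit 4, nat_lit 0x40008, nat_lit 0x1411, nat_lit 1, nat_lit 3, nat_lit 0x47⟩ (t14_1166) (t14_9358)) (.node ⟨nat_lit 8, nat_lit 0x200040008000c0, nat_lit 0x11010221, nat_lit 0, nat_lit 4, nat_lit 0x4a⟩ (t14_5262) (t14_13454))) (.node ⟨nat_lit 7, nat_lit 0x100060, nat_lit 0x1012101, nat_lit 1, nat_lit 4, nat_lit 0x4a⟩ (.node ⟨nat_lit 6, nat_lit 0x10002000240030, nat_lit 0x101320, nat_lit 3, nat_lit 4, nat_lit 0x48⟩ (t14_3214)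 (t14_11406)) (.node ⟨nat_lit 5, nat_lit 0x10001a, nat_lit 0x1100, nat_lit 3, nat_lit 4, nat_lit 0x45⟩ (t14_7310) (t14_15502))))) (.node ⟨nat_lit 5, nat_lit 0x100008, nat_lit 0x13102, nat_lit 5, nat_lit 4, nat_lit 0x4a⟩ (.node ⟨nat_lit 4, nat_lit 0x80004, nat_lit 0x213, nat_lit 5, nat_lit 4, nat_lit 0x47⟩ (.node ⟨nat_lit 5, nat_lit 0x100018, nat_lit 0x21121, nat_lit 2, nat_lit 3, nat_lit 0x47⟩ (.node ⟨nat_lit 6, nat_lit 0x2000200010, nat_lit 0x21210, nat_lit 1, nat_lit 3, nat_lit 0x47⟩ (t14_654) (t14_8846)) (.node ⟨nat_lit 7, nat_lit 0x40002000500068, nat_lit 0x1012201, nat_lit 0, nat_lit 4, nat_lit 0x47⟩ (t14_4750) (t14_12942))) (.node ⟨nat_lit 4, nat_lit 0x8000e, nat_lit 0x1212, nat_lit 6, nat_lit 4, nat_lit 0x46⟩ (.node ⟨nat_lit 6, nat_lit 0x800080030, nat_lit 0x101302, nat_lit 1, nat_lit 4, nat_lit 0x48⟩ (t14_2702) (t14_10894)) (.node ⟨nat_lit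 7, nat_lit 0x10001000500060, nat_lit 0x101103, nat_lit 0, nat_lit 4, nat_lit 0x47⟩ (t14_6798) (t14_14990)))) (.node ⟨nat_lit 7, nat_lit 0x4000400020, nat_lit 0x211201, nat_lit 0, nat_lit 4, nat_lit 0x4a⟩ (.node ⟨nat_lit 6, nat_lit 0x280030, nat_lit 0x210112, nat_lit 2, nat_lit 4, nat_lit 0x48⟩ (.node ⟨nat_lit 5, nat_lit 0x180014, nat_lit 0x1114, nat_lit 3, nat_lit 4, nat_lit 0x46⟩ (t14_1678) (t14_9870)) (.node ⟨nat_lit 6, nat_lit 0x2000200030, nat_lit 0x22002, nat_lit 5, nat_lit 4, nat_lit 0x49⟩ (t14_5774) (t14_13966))) (.node ⟨nat_lit 6, nat_lit 0x800280030, nat_lit 0x20212, nat_lit 2, nat_lit 4, nat_lit 0x47⟩ (.node ⟨nat_lit 5, nat_lit 0x140018, nat_lit 0x10030, nat_lit 5, nat_lit 4, nat_lit 0x46⟩ (t14_3726) (t14_11918)) (.node ⟨nat_lit 7, nat_lit 0x10004000500060, nat_lit 0x1100221, nat_lit 0, nat_lit 3, nat_lit 0x46⟩ (t14_7822) (.nil)))))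
def t14_398 : Tr := .node ⟨nat_lit 9, nat_lit 0x100008000400040, nat_lit 0x1210011, nat_lit 1, nat_lit 4, nat_lit 0x4c⟩ (.nil) (.nil)
def t14_8590 : Tr := .node ⟨nat_lit 7, nat_lit 0x20004000440030, nat_lit 0x10110, nat_lit 1, nat_lit 4, nat_lit 0x46⟩ (.nil) (.nil)
def t14_4494 : Tr := .node ⟨nat_lit 8, nat_lit 0x8000200040, nat_lit 0x1111010, nat_lit 6, nat_lit 4, nat_lit 0x4c⟩ (.nil) (.nil)
def t14_12686 : Tr := .node ⟨nat_lit 5, nat_lit 0x1000140018, nat_lit 0x10210, nat_lit 7, nat_lit 4, nat_lit 0x47⟩ (.nil) (.nil)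
def t14_2446 : Tr := .node ⟨nat_lit 7, nat_lit 0x20004000400060, nat_lit 0x112210, nat_lit 2, nat_lit 4, nat_lit 0x49⟩ (.nil) (.nil)
def t14_10638 : Tr := .node ⟨nat_lit 5, nat_lit 0x40018, nat_lit 2, nat_lit 2, nat_lit 4, nat_lit 0x44⟩ (.nil) (.nil)
def t14_6542 : Tr := .node ⟨nat_lit 6, nat_lit 0x280030, nat_lit 0x11112, nat_lit 4, nat_lit 4, nat_lit 0x48⟩ (.nil) (.nil)
def t14_14734 : Tr := .node ⟨nat_lit 7, nat_lit 0x50005000300060, nat_lit 0x101122, nat_lit 2, nat_lit 4, nat_lit 0x46⟩ (.nil) (.nil)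
def t14_1422 : Tr := .node ⟨nat_lit 8, nat_lit 0x80002000a000d000d0, nat_lit 0x1011031, nat_lit 0, nat_lit 4, nat_lit 0x46⟩ (.nil) (.nil)
def t14_9614 : Tr := .node ⟨nat_lit 6, nat_lit 0x20001000340034, nat_lit 0x2120, nat_lit 5, nat_lit 4, nat_lit 0x45⟩ (.nil) (.nil)
def t14_5518 : Tr := .node ⟨nat_lit 8, nat_lit 0x20001000a000c0, nat_lit 0x1010113, nat_lit 0, nat_lit 4, nat_lit 0x48⟩ (.nil) (.nil)
def t14_13710 : Tr := .node ⟨nat_lit 8, nat_lit 0x8000800040009000d0, nat_lit 0x100210, nat_lit 1, nat_lit 4, nat_lit 0x47⟩ (.nil) (.nil)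
def t14_3470 : Tr := .node ⟨nat_lit 7, nat_lit 0x20004000640064, nat_lit 0x1012010, nat_lit 0, nat_lit 4, nat_lit 0x46⟩ (.nil) (.nil)
def t14_11662 : Tr := .node ⟨nat_lit 8, nat_lit 0x800020009000c000c0, nat_lit 0x131010, nat_lit 0, nat_lit 4, nat_lit 0x48⟩ (.nil) (.nil)
def t14_7566 : Tr := .node ⟨nat_lit 5, nat_lit 0x100010, nat_lit 0x2232, nat_lit 1, nat_lit 3, nat_lit 0x47⟩ (.nil) (.nil)
def t14_910 : Tr := .node ⟨nat_lit 7, nat_lit 0x40004000200060, nat_lit 0x112212, nat_lit 0, nat_lit 4, nat_lit 0x49⟩ (.nil) (.nil)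
def t14_9102 : Tr := .node ⟨nat_lit 8, nat_lit 0x80008800c000e0, nat_lit 0x1111013, nat_lit 0, nat_lit 4, nat_lit 0x48⟩ (.nil) (.nil)
def t14_5006 : Tr := .node ⟨nat_lit 6, nat_lit 0x800200030, nat_lit 0x10013, nat_lit 4, nat_lit 4, nat_lit 0x47⟩ (.nil) (.nil)
def t14_13198 : Tr := .node ⟨nat_lit 7, nat_lit 0x20004000440030, nat_lit 0x113, nat_lit 1, nat_lit 4, nat_lit 0x46⟩ (.nil) (.nil)
def t14_2958 : Tr := .node ⟨nat_lit 6, nat_lit 0x1000200038, nat_lit 0x10003, nat_lit 4, nat_lit 4, nat_lit 0x46⟩ (.nil) (.nil)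
def t14_11150 : Tr := .node ⟨nat_lit 5, nat_lit 0x180018, nat_lit 0x10130, nat_lit 6, nat_lit 4, nat_lit 0x47⟩ (.nil) (.nil)
def t14_7054 : Tr := .node ⟨nat_lit 6, nat_lit 0x800280030, nat_lit 0x110111, nat_lit 5, nat_lit 4, nat_lit 0x47⟩ (.nil) (.nil)
def t14_15246 : Tr := .node ⟨nat_lit 8, nat_lit 0x4000400080008000c4, nat_lit 0x110201, nat_lit 0, nat_lit 4, nat_lit 0x48⟩ (.nil) (.nil)
def t14_1934 : Tr := .node ⟨nat_lit 7, nat_lit 0x600050, nat_lit 0x2111, nat_lit 0, nat_lit 4, nat_lit 0x48⟩ (.nil) (.nil)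
def t14_10126 : Tr := .node ⟨nat_lit 6, nat_lit 0x10002000300034, nat_lit 0x1010, nat_lit 2, nat_lit 4, nat_lit 0x44⟩ (.nil) (.nil)
def t14_6030 : Tr := .node ⟨nat_lit 6, nat_lit 0x80030, nat_lit 0x110210, nat_lit 1, nat_lit 4, nat_lit 0x48⟩ (.nil) (.nil)
def t14_14222 : Tr := .node ⟨nat_lit 8, nat_lit 0x4000a0003000c0, nat_lit 0x11021, nat_lit 0, nat_lit 4, nat_lit 0x47⟩ (.nil) (.nil)
def t14_3982 : Tr := .node ⟨nat_lit 6, nat_lit 0x800080030, nat_lit 0x100210, nat_lit 2, nat_lit 4, nat_lit 0x47⟩ (.nil) (.nil)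
def t14_12174 : Tr := .node ⟨nat_lit 8, nat_lit 0x4000400040008000e000e0, nat_lit 0x110120, nat_lit 3, nat_lit 4, nat_lit 0x47⟩ (.nil) (.nil)
def t14_8078 : Tr := .node ⟨nat_lit 7, nat_lit 0x20004000400044, nat_lit 0x10113, nat_lit 2, nat_lit 4, nat_lit 0x48⟩ (.nil) (.nil)
def t9_398 : Tr := .node ⟨nat_lit 5, nat_lit 0x10001a, nat_lit 0x30221, nat_lit 3, nat_lit 4, nat_lit 0x49⟩ (.node ⟨nat_lit 6, nat_lit 0x2000200010, nat_lit 0x113110, nat_lit 1, nat_lit 4, nat_lit 0x49⟩ (.node ⟨nat_lit 6, nat_lit 0x280030, nat_lit 0x22220, nat_lit 0, nat_lit 4, nat_lit 0x48⟩ (.node ⟨nat_lit 6, nat_lit 0x800280030, nat_lit 0x11212, nat_lit 2, nat_lit 4, nat_lit 0x47⟩ (.node ⟨nat_lit 6, nat_lit 0x2000100024, nat_lit 0x21112, nat_lit 0, nat_lit 4, nat_lit 0x47⟩ (t14_398) (t14_8590)) (.node ⟨nat_lit 7, nat_lit 0x200040004800300060, nat_lit 0x1120010, nat_lit 0, nat_lit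 4, nat_lit 0x47⟩ (t14_4494) (t14_12686))) (.node ⟨nat_lit 7, nat_lit 0x1000080060, nat_lit 0x2002011, nat_lit 0, nat_lit 4, nat_lit 0x49⟩ (.node ⟨nat_lit 6, nat_lit 0x2000200034, nat_lit 0x11111, nat_lit 2, nat_lit 4, nat_lit 0x47⟩ (t14_2446) (t14_10638)) (.node ⟨nat_lit 5, nat_lit 0x80010, nat_lit 0x230, nat_lit 2, nat_lit 4, nat_lit 0x47⟩ (t14_6542) (t14_14734)))) (.node ⟨nat_lit 5, nat_lit 0x18, nat_lit 0x10202, nat_lit 0, nat_lit 4, nat_lit 0x46⟩ (.node ⟨nat_lit 7, nat_lit 0x1000600060, nat_lit 0x1021121, nat_lit 1, nat_lit 4, nat_lit 0x49⟩ (.node ⟨nat_lit 6, nat_lit 0x1000100020, nat_lit 0x101000, nat_lit 3, nat_lit 4, nat_lit 0x47⟩ (t14_1422) (t14_9614)) (.node ⟨nat_lit 8, nat_lit 0x400080002000c0, nat_lit 0x11021102, nat_lit 0, nat_lit 4, nat_lit 0x4a⟩ (t14_5518) (t14_13710))) (.node ⟨nat_lit 6, nat_lit 0x2000100030, nat_lit 0x12031, nat_lit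 0, nat_lit 4, nat_lit 0x48⟩ (.node ⟨nat_lit 6, nat_lit 0x3000300028, nat_lit 0x12003, nat_lit 3, nat_lit 4, nat_lit 0x47⟩ (t14_3470) (t14_11662)) (.node ⟨nat_lit 6, nat_lit 0x20001000280030, nat_lit 0x112111, nat_lit 5, nat_lit 4, nat_lit 0x48⟩ (t14_7566) (.nil))))) (.node ⟨nat_lit 6, nat_lit 0x200030, nat_lit 0x103121, nat_lit 4, nat_lit 4, nat_lit 0x4a⟩ (.node ⟨nat_lit 4, nat_lit 0, nat_lit 0x2211, nat_lit 4, nat_lit 4, nat_lit 0x49⟩ (.node ⟨nat_lit 6, nat_lit 0x200022, nat_lit 0x111120, nat_lit 1, nat_lit 4, nat_lit 0x49⟩ (.node ⟨nat_lit 7, nat_lit 0x200040, nat_lit 0x1211101, nat_lit 4, nat_lit 4, nat_lit 0x4c⟩ (t14_910) (t14_9102)) (.node ⟨nat_lit 5, nat_lit 0x80010, nat_lit 0x21102, nat_lit 9, nat_lit 4, nat_lit 0x4a⟩ (t14_5006) (t14_13198))) (.node ⟨nat_lit 7, nat_lit 0x20004000500064, nat_lit 0x1010210, nat_lit 0, nat_lit 4, nat_lit 0x47⟩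 (.node ⟨nat_lit 7, nat_lit 0x400020002800500068, nat_lit 0x1112011, nat_lit 1, nat_lit 4, nat_lit 0x47⟩ (t14_2958) (t14_11150)) (.node ⟨nat_lit 8, nat_lit 0x1000a000c0, nat_lit 0x11101022, nat_lit 1, nat_lit 4, nat_lit 0x4a⟩ (t14_7054) (t14_15246)))) (.node ⟨nat_lit 6, nat_lit 0x2000100008, nat_lit 0x2001, nat_lit 5, nat_lit 4, nat_lit 0x48⟩ (.node ⟨nat_lit 7, nat_lit 0x1000100060, nat_lit 0x2111201, nat_lit 0, nat_lit 4, nat_lit 0x4a⟩ (.node ⟨nat_lit 7, nat_lit 0x10002000500060, nat_lit 0x113012, nat_lit 0, nat_lit 4, nat_lit 0x48⟩ (t14_1934) (t14_10126)) (.node ⟨nat_lit 7, nat_lit 0x4000600060, nat_lit 0x21020, nat_lit 1, nat_lit 4, nat_lit 0x48⟩ (t14_6030) (t14_14222))) (.node ⟨nat_lit 6, nat_lit 0x10002000200024, nat_lit 0x11202, nat_lit 2, nat_lit 4, nat_lit 0x47⟩ (.node ⟨nat_lit 8, nat_lit 0x20003000c000e0, nat_lit 0x10000013, nat_lit 2,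 nat_lit 4, nat_lit 0x47⟩ (t14_3982) (t14_12174)) (.node ⟨nat_lit 8, nat_lit 0x4000800060009000e000d0, nat_lit 0x1120011, nat_lit 0, nat_lit 4, nat_lit 0x46⟩ (t14_8078) (.nil)))))
def t14_78 : Tr := .node ⟨nat_lit 7, nat_lit 0x40004000200060, nat_lit 0x121111, nat_lit 3, nat_lit 4, nat_lit 0x49⟩ (.nil) (.nil)
def t14_8270 : Tr := .node ⟨nat_lit 6, nat_lit 0x20001000280030, nat_lit 0x2140, nat_lit 3, nat_lit 4, nat_lit 0x47⟩ (.nil) (.nil)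
def t14_4174 : Tr := .node ⟨nat_lit 8, nat_lit 0x800080008000400090, nat_lit 0x1111010, nat_lit 5, nat_lit 4, nat_lit 0x4a⟩ (.nil) (.nil)
def t14_12366 : Tr := .node ⟨nat_lit 7, nat_lit 0x10005000600060, nat_lit 0x3011, nat_lit 1, nat_lit 4, nat_lit 0x46⟩ (.nil) (.nil)
def t14_2126 : Tr := .node ⟨nat_lit 6, nat_lit 0x20001000280030, nat_lit 0x12022, nat_lit 4, nat_lit 4, nat_lit 0x47⟩ (.nil) (.nil)
def t14_10318 : Tr := .node ⟨nat_lit 6, nat_lit 0x2000280030, nat_lit 0x10202, nat_lit 8, nat_lit 4, nat_lit 0x48⟩ (.nil) (.nil)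
def t14_6222 : Tr := .node ⟨nat_lit 8, nat_lit 0x20008000c0, nat_lit 0x11001, nat_lit 1, nat_lit 4, nat_lit 0x49⟩ (.nil) (.nil)
def t14_14414 : Tr := .node ⟨nat_lit 7, nat_lit 0x4000100060, nat_lit 0x10211, nat_lit 0, nat_lit 4, nat_lit 0x48⟩ (.nil) (.nil)
def t14_1102 : Tr := .node ⟨nat_lit 6, nat_lit 0x800200032, nat_lit 0x110110, nat_lit 1, nat_lit 4, nat_lit 0x46⟩ (.nil) (.nil)
def t14_9294 : Tr := .node ⟨nat_lit 8, nat_lit 0x40008000900090006000d0, nat_lit 0x110011, nat_lit 0, nat_lit 4, nat_lit 0x45⟩ (.nil) (.nil)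
def t14_5198 : Tr := .node ⟨nat_lit 6, nat_lit 0x20002000280030, nat_lit 0x12111, nat_lit 7, nat_lit 4, nat_lit 0x48⟩ (.nil) (.nil)
def t14_13390 : Tr := .node ⟨nat_lit 8, nat_lit 0x200030003000a000c0, nat_lit 0x10003, nat_lit 0, nat_lit 4, nat_lit 0x46⟩ (.nil) (.nil)
def t14_3150 : Tr := .node ⟨nat_lit 7, nat_lit 0x20002000500068, nat_lit 0x111011, nat_lit 1, nat_lit 4, nat_lit 0x47⟩ (.nil) (.nil)
def t14_11342 : Tr := .node ⟨nat_lit 5, nat_lit 0x1000100018, nat_lit 0x110, nat_lit 7, nat_lit 3, nat_lit 0x45⟩ (.nil) (.nil)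
def t14_7246 : Tr := .node ⟨nat_lit 7, nat_lit 0x20002000500060, nat_lit 0x2000012, nat_lit 3, nat_lit 4, nat_lit 0x48⟩ (.nil) (.nil)
def t14_15438 : Tr := .node ⟨nat_lit 8, nat_lit 0x40004000800088006000c0, nat_lit 0x11011102, nat_lit 0, nat_lit 4, nat_lit 0x48⟩ (.nil) (.nil)
def t14_590 : Tr := .node ⟨nat_lit 7, nat_lit 0x600050, nat_lit 0x2122, nat_lit 0, nat_lit 4, nat_lit 0x48⟩ (.nil) (.nil)
def t14_8782 : Tr := .node ⟨nat_lit 8, nat_lit 0x8000800040004000a000a0, nat_lit 0x101031, nat_lit 3, nat_lit 4, nat_lit 0x48⟩ (.nil) (.nil)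
def t14_4686 : Tr := .node ⟨nat_lit 8, nat_lit 0x800080008800c0, nat_lit 0x1101002, nat_lit 0, nat_lit 4, nat_lit 0x49⟩ (.nil) (.nil)
def t14_12878 : Tr := .node ⟨nat_lit 6, nat_lit 0x1000200030, nat_lit 0x2030, nat_lit 4, nat_lit 4, nat_lit 0x48⟩ (.nil) (.nil)
def t14_2638 : Tr := .node ⟨nat_lit 6, nat_lit 0x20001000280030, nat_lit 0x2300, nat_lit 2, nat_lit 4, nat_lit 0x46⟩ (.nil) (.nil)
def t14_10830 : Tr := .node ⟨nat_lit 5, nat_lit 0x140018, nat_lit 0x21122, nat_lit 5, nat_lit 4, nat_lit 0x48⟩ (.nil) (.nil)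
def t14_6734 : Tr := .node ⟨nat_lit 7, nat_lit 0x800500060, nat_lit 0x111210, nat_lit 0, nat_lit 4, nat_lit 0x48⟩ (.nil) (.nil)
def t14_14926 : Tr := .node ⟨nat_lit 7, nat_lit 0x400020005000500070, nat_lit 0x1010112, nat_lit 4, nat_lit 4, nat_lit 0x47⟩ (.nil) (.nil)
def t14_1614 : Tr := .node ⟨nat_lit 7, nat_lit 0x40004800300060, nat_lit 0x11112, nat_lit 1, nat_lit 4, nat_lit 0x46⟩ (.nil) (.nil)
def t14_9806 : Tr := .node ⟨nat_lit 8, nat_lit 0x400080002000c000c0, nat_lit 0x11020, nat_lit 0, nat_lit 4, nat_lit 0x47⟩ (.nil) (.nil)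
def t14_5710 : Tr := .node ⟨nat_lit 7, nat_lit 0x30003000500060, nat_lit 0x1002022, nat_lit 1, nat_lit 4, nat_lit 0x46⟩ (.nil) (.nil)
def t14_13902 : Tr := .node ⟨nat_lit 6, nat_lit 0x20001000100028, nat_lit 0x3401, nat_lit 1, nat_lit 4, nat_lit 0x47⟩ (.nil) (.nil)
def t14_3662 : Tr := .node ⟨nat_lit 8, nat_lit 0x40002000c000a0, nat_lit 0x20021, nat_lit 1, nat_lit 4, nat_lit 0x48⟩ (.nil) (.nil)
def t14_11854 : Tr := .node ⟨nat_lit 7, nat_lit 0x40002000500064, nat_lit 0x100131, nat_lit 0, nat_lit 4, nat_lit 0x46⟩ (.nil) (.nil)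
def t14_7758 : Tr := .node ⟨nat_lit 6, nat_lit 0x2000080030, nat_lit 0x211021, nat_lit 1, nat_lit 3, nat_lit 0x47⟩ (.nil) (.nil)
def t9_78 : Tr := .node ⟨nat_lit 2, nat_lit 2, nat_lit 0x11, nat_lit 7, nat_lit 3, nat_lit 0x43⟩ (.node ⟨nat_lit 5, nat_lit 0x10, nat_lit 0x32221, nat_lit 1, nat_lit 4, nat_lit 0x4b⟩ (.node ⟨nat_lit 7, nat_lit 0x20004000600060, nat_lit 0x12320, nat_lit 0, nat_lit 4, nat_lit 0x48⟩ (.node ⟨nat_lit 5, nat_lit 0x100012, nat_lit 0x12100, nat_lit 3, nat_lit 4, nat_lit 0x47⟩ (.node ⟨nat_lit 7, nat_lit 0x400020, nat_lit 0x211103, nat_lit 3, nat_lit 4, nat_lit 0x4c⟩ (t14_78) (t14_8270)) (.node ⟨nat_lit 5, nat_lit 0x1000080018, nat_lit 0x1004, nat_lit 6, nat_lit 4, nat_lit 0x47⟩ (t14_4174) (t14_12366))) (.node ⟨nat_lit 7, nat_lit 0x1000400060, nat_lit 0x2101022, nat_lit 0, nat_lit 4, nat_lit 0x4a⟩ (.node ⟨nat_lit 4, nat_lit 0x8000c,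 nat_lit 0x1024, nat_lit 4, nat_lit 4, nat_lit 0x46⟩ (t14_2126) (t14_10318)) (.node ⟨nat_lit 7, nat_lit 0x400020002000500070, nat_lit 0x1022101, nat_lit 0, nat_lit 4, nat_lit 0x47⟩ (t14_6222) (t14_14414)))) (.node ⟨nat_lit 6, nat_lit 0x2000080010, nat_lit 0x2023, nat_lit 1, nat_lit 4, nat_lit 0x48⟩ (.node ⟨nat_lit 5, nat_lit 0x40018, nat_lit 0x21211, nat_lit 2, nat_lit 4, nat_lit 0x48⟩ (.node ⟨nat_lit 7, nat_lit 0x40004000100060, nat_lit 0x11130, nat_lit 1, nat_lit 4, nat_lit 0x48⟩ (t14_1102) (t14_9294)) (.node ⟨nat_lit 7, nat_lit 0x40002000500068, nat_lit 0x12110, nat_lit 0, nat_lit 4, nat_lit 0x46⟩ (t14_5198) (t14_13390))) (.node ⟨nat_lit 6, nat_lit 0x2000100024, nat_lit 0x211100, nat_lit 0, nat_lit 4, nat_lit 0x48⟩ (.node ⟨nat_lit 5, nat_lit 0x180018, nat_lit 0x10210, nat_lit 3, nat_lit 4, nat_lit 0x46⟩ (t14_3150) (t14_11342)) (.node ⟨nat_lit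 6, nat_lit 0x10002000180024, nat_lit 0x111112, nat_lit 1, nat_lit 4, nat_lit 0x46⟩ (t14_7246) (t14_15438))))) (.node ⟨nat_lit 3, nat_lit 0x40006, nat_lit 0x321, nat_lit 0xb, nat_lit 4, nat_lit 0x48⟩ (.node ⟨nat_lit 5, nat_lit 0x40018, nat_lit 0x220, nat_lit 1, nat_lit 4, nat_lit 0x46⟩ (.node ⟨nat_lit 6, nat_lit 0x2000200030, nat_lit 0x12201, nat_lit 2, nat_lit 4, nat_lit 0x48⟩ (.node ⟨nat_lit 5, nat_lit 0x100010, nat_lit 0x21120, nat_lit 7, nat_lit 4, nat_lit 0x4a⟩ (t14_590) (t14_8782)) (.node ⟨nat_lit 6, nat_lit 0x2000080030, nat_lit 0x111012, nat_lit 3, nat_lit 4, nat_lit 0x48⟩ (t14_4686) (t14_12878))) (.node ⟨nat_lit 6, nat_lit 0x2000240018, nat_lit 0x10112, nat_lit 0, nat_lit 4, nat_lit 0x45⟩ (.node ⟨nat_lit 5, nat_lit 0x18001c, nat_lit 0x21123, nat_lit 3, nat_lit 4, nat_lit 0x47⟩ (t14_2638) (t14_10830)) (.node ⟨nat_lit 7, nat_lit 0x40002000480070,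 nat_lit 0x1112112, nat_lit 0, nat_lit 4, nat_lit 0x48⟩ (t14_6734) (t14_14926)))) (.node ⟨nat_lit 6, nat_lit 0x80030, nat_lit 0x112110, nat_lit 1, nat_lit 4, nat_lit 0x49⟩ (.node ⟨nat_lit 6, nat_lit 0x80030, nat_lit 0x302111, nat_lit 2, nat_lit 4, nat_lit 0x4a⟩ (.node ⟨nat_lit 5, nat_lit 0x100018, nat_lit 0x101, nat_lit 3, nat_lit 4, nat_lit 0x45⟩ (t14_1614) (t14_9806)) (.node ⟨nat_lit 6, nat_lit 0x300030, nat_lit 0x112211, nat_lit 1, nat_lit 4, nat_lit 0x49⟩ (t14_5710) (t14_13902))) (.node ⟨nat_lit 7, nat_lit 0x1000100060, nat_lit 0x2002102, nat_lit 0, nat_lit 4, nat_lit 0x49⟩ (.node ⟨nat_lit 7, nat_lit 0x4800300070, nat_lit 0x1100103, nat_lit 0, nat_lit 4, nat_lit 0x46⟩ (t14_3662) (t14_11854)) (.node ⟨nat_lit 7, nat_lit 0x800100060, nat_lit 0x1011022, nat_lit 1, nat_lit 4, nat_lit 0x49⟩ (t14_7758) (.nil)))))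
def t14_334 : Tr := .node ⟨nat_lit 6, nat_lit 0x2000300030, nat_lit 0x102211, nat_lit 3, nat_lit 4, nat_lit 0x48⟩ (.nil) (.nil)
def t14_8526 : Tr := .node ⟨nat_lit 4, nat_lit 0x8000c000c, nat_lit 0x1141, nat_lit 9, nat_lit 4, nat_lit 0x47⟩ (.nil) (.nil)
def t14_4430 : Tr := .node ⟨nat_lit 8, nat_lit 0x8000400040005000a000d0, nat_lit 0x11210011, nat_lit 0, nat_lit 4, nat_lit 0x48⟩ (.nil) (.nil)
def t14_12622 : Tr := .node ⟨nat_lit 7, nat_lit 0x6000500048, nat_lit 0x10140, nat_lit 1, nat_lit 4, nat_lit 0x47⟩ (.nil) (.nil)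
def t14_2382 : Tr := .node ⟨nat_lit 6, nat_lit 0x20001000280030, nat_lit 0x2210, nat_lit 3, nat_lit 4, nat_lit 0x46⟩ (.nil) (.nil)
def t14_10574 : Tr := .node ⟨nat_lit 7, nat_lit 0x20003000500060, nat_lit 0x1020, nat_lit 4, nat_lit 4, nat_lit 0x46⟩ (.nil) (.nil)
def t14_6478 : Tr := .node ⟨nat_lit 4, nat_lit 0xc, nat_lit 0x1110, nat_lit 7, nat_lit 4, nat_lit 0x47⟩ (.nil) (.nil)
def t14_14670 : Tr := .node ⟨nat_lit 7, nat_lit 0x800500060, nat_lit 0x110011, nat_lit 0, nat_lit 3, nat_lit 0x46⟩ (.nil) (.nil)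
def t14_1358 : Tr := .node ⟨nat_lit 7, nat_lit 0x10005000500060, nat_lit 0x200103, nat_lit 0, nat_lit 3, nat_lit 0x45⟩ (.nil) (.nil)
def t14_9550 : Tr := .node ⟨nat_lit 8, nat_lit 0x8000800040004000a000c0, nat_lit 0x101002, nat_lit 5, nat_lit 4, nat_lit 0x48⟩ (.nil) (.nil)
def t14_5454 : Tr := .node ⟨nat_lit 7, nat_lit 0x10001000200040, nat_lit 0x102003, nat_lit 0, nat_lit 4, nat_lit 0x48⟩ (.nil) (.nil)
def t14_13646 : Tr := .node ⟨nat_lit 7, nat_lit 0x6000600018, nat_lit 0x10112, nat_lit 0, nat_lit 4, nat_lit 0x46⟩ (.nil) (.nil)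
def t14_3406 : Tr := .node ⟨nat_lit 7, nat_lit 0x1000500060, nat_lit 0x2110, nat_lit 0, nat_lit 4, nat_lit 0x47⟩ (.nil) (.nil)
def t14_11598 : Tr := .node ⟨nat_lit 8, nat_lit 0x2000c000c000e0, nat_lit 0x10103, nat_lit 1, nat_lit 4, nat_lit 0x47⟩ (.nil) (.nil)
def t14_7502 : Tr := .node ⟨nat_lit 9, nat_lit 0x100010001000080008001400140, nat_lit 0x10101110, nat_lit 3, nat_lit 4, nat_lit 0x49⟩ (.nil) (.nil)
def t14_846 : Tr := .node ⟨nat_lit 6, nat_lit 0x20001000100028, nat_lit 0x12112, nat_lit 3, nat_lit 4, nat_lit 0x47⟩ (.nil) (.nil)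
def t14_9038 : Tr := .node ⟨nat_lit 6, nat_lit 0x20001000300030, nat_lit 0x2021, nat_lit 7, nat_lit 4, nat_lit 0x47⟩ (.nil) (.nil)
def t14_4942 : Tr := .node ⟨nat_lit 8, nat_lit 0x800020002000c000e0, nat_lit 0x1001113, nat_lit 0, nat_lit 4, nat_lit 0x47⟩ (.nil) (.nil)
def t14_13134 : Tr := .node ⟨nat_lit 6, nat_lit 0x8000c0030, nat_lit 0x202, nat_lit 3, nat_lit 4, nat_lit 0x46⟩ (.nil) (.nil)
def t14_2894 : Tr := .node ⟨nat_lit 7, nat_lit 0x20004000680070, nat_lit 0x211102, nat_lit 0, nat_lit 4, nat_lit 0x47⟩ (.nil) (.nil)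
def t14_11086 : Tr := .node ⟨nat_lit 6, nat_lit 0x3000300030, nat_lit 0x1220, nat_lit 3, nat_lit 4, nat_lit 0x46⟩ (.nil) (.nil)
def t14_6990 : Tr := .node ⟨nat_lit 4, nat_lit 0x800080008, nat_lit 0x1211, nat_lit 9, nat_lit 3, nat_lit 0x46⟩ (.nil) (.nil)
def t14_15182 : Tr := .node ⟨nat_lit 8, nat_lit 0x400040008000c000d0, nat_lit 0x111021, nat_lit 2, nat_lit 4, nat_lit 0x48⟩ (.nil) (.nil)
def t14_1870 : Tr := .node ⟨nat_lit 6, nat_lit 0x2000240030, nat_lit 0x2101, nat_lit 4, nat_lit 4, nat_lit 0x47⟩ (.nil) (.nil)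
def t14_10062 : Tr := .node ⟨nat_lit 7, nat_lit 0x10002000500060, nat_lit 0x1001020, nat_lit 0, nat_lit 4, nat_lit 0x46⟩ (.nil) (.nil)
def t14_5966 : Tr := .node ⟨nat_lit 8, nat_lit 0xa000c000c0, nat_lit 0x1111211, nat_lit 0, nat_lit 4, nat_lit 0x49⟩ (.nil) (.nil)
def t14_14158 : Tr := .node ⟨nat_lit 8, nat_lit 0x200080001000c0, nat_lit 0x1010102, nat_lit 2, nat_lit 4, nat_lit 0x49⟩ (.nil) (.nil)
def t14_3918 : Tr := .node ⟨nat_lit 8, nat_lit 0x800040004000a000d000e0, nat_lit 0x10012010, nat_lit 0, nat_lit 4, nat_lit 0x46⟩ (.nil) (.nil)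
def t14_12110 : Tr := .node ⟨nat_lit 5, nat_lit 0x800100018, nat_lit 0x10210, nat_lit 7, nat_lit 4, nat_lit 0x47⟩ (.nil) (.nil)
def t14_8014 : Tr := .node ⟨nat_lit 4, nat_lit 0x8000a, nat_lit 0x114, nat_lit 6, nat_lit 4, nat_lit 0x46⟩ (.nil) (.nil)
def t9_334 : Tr := .node ⟨nat_lit 5, nat_lit 0x10, nat_lit 0x3112, nat_lit 1, nat_lit 4, nat_lit 0x48⟩ (.node ⟨nat_lit 5, nat_lit 0x18, nat_lit 0x30213, nat_lit 0, nat_lit 4, nat_lit 0x49⟩ (.node ⟨nat_lit 4, nat_lit 8, nat_lit 0x2212, nat_lit 7, nat_lit 4, nat_lit 0x49⟩ (.node ⟨nat_lit 6, nat_lit 0x2000080030, nat_lit 0x111212, nat_lit 1, nat_lit 4, nat_lit 0x48⟩ (.node ⟨nat_lit 7, nat_lit 0x20002000100040, nat_lit 0x2120011, nat_lit 1, nat_lit 4, nat_lit 0x4a⟩ (t14_334) (t14_8526)) (.node ⟨nat_lit 6, nat_lit 0x1000200020, nat_lit 0x101110, nat_lit 0, nat_lit 4, nat_lit 0x47⟩ (t14_4430) (t14_12622)))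 (.node ⟨nat_lit 4, nat_lit 0x80004, nat_lit 0x102, nat_lit 6, nat_lit 3, nat_lit 0x45⟩ (.node ⟨nat_lit 4, nat_lit 0x80008, nat_lit 0x1241, nat_lit 5, nat_lit 3, nat_lit 0x47⟩ (t14_2382) (t14_10574)) (.node ⟨nat_lit 7, nat_lit 0x4000100060, nat_lit 0x112200, nat_lit 1, nat_lit 4, nat_lit 0x49⟩ (t14_6478) (t14_14670)))) (.node ⟨nat_lit 4, nat_lit 0xe, nat_lit 0x2102, nat_lit 4, nat_lit 4, nat_lit 0x45⟩ (.node ⟨nat_lit 4, nat_lit 0x40008, nat_lit 0x2222, nat_lit 8, nat_lit 4, nat_lit 0x49⟩ (.node ⟨nat_lit 7, nat_lit 0x40001000600070, nat_lit 0x100023, nat_lit 1, nat_lit 4, nat_lit 0x46⟩ (t14_1358) (t14_9550)) (.node ⟨nat_lit 8, nat_lit 0x80004000880088, nat_lit 0x20210020, nat_lit 0, nat_lit 4, nat_lit 0x4a⟩ (t14_5454) (t14_13646))) (.node ⟨nat_lit 5, nat_lit 0x1000140018, nat_lit 0x13102, nat_lit 4, nat_lit 4, nat_lit 0x48⟩ (.node ⟨nat_lit 6, nat_lit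 0x2000300034, nat_lit 0x12130, nat_lit 2, nat_lit 4, nat_lit 0x47⟩ (t14_3406) (t14_11598)) (.node ⟨nat_lit 7, nat_lit 0x4000600060, nat_lit 0x21110, nat_lit 0, nat_lit 4, nat_lit 0x48⟩ (t14_7502) (.nil))))) (.node ⟨nat_lit 6, nat_lit 0x2000200010, nat_lit 0x3100, nat_lit 3, nat_lit 4, nat_lit 0x48⟩ (.node ⟨nat_lit 6, nat_lit 0x800100020, nat_lit 0x122110, nat_lit 1, nat_lit 4, nat_lit 0x49⟩ (.node ⟨nat_lit 6, nat_lit 0x2000080034, nat_lit 0x111201, nat_lit 1, nat_lit 4, nat_lit 0x47⟩ (.node ⟨nat_lit 6, nat_lit 0x2000080030, nat_lit 0x12201, nat_lit 3, nat_lit 4, nat_lit 0x48⟩ (t14_846) (t14_9038)) (.node ⟨nat_lit 5, nat_lit 0x80010, nat_lit 0x21232, nat_lit 0, nat_lit 4, nat_lit 0x49⟩ (t14_4942) (t14_13134))) (.node ⟨nat_lit 7, nat_lit 0x2000500060, nat_lit 0x1001021, nat_lit 0, nat_lit 4, nat_lit 0x47⟩ (.node ⟨nat_lit 7, nat_lit 0x4000440064,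 nat_lit 0x1111211, nat_lit 0, nat_lit 4, nat_lit 0x49⟩ (t14_2894) (t14_11086)) (.node ⟨nat_lit 6, nat_lit 0x200032, nat_lit 0x101112, nat_lit 0, nat_lit 4, nat_lit 0x47⟩ (t14_6990) (t14_15182)))) (.node ⟨nat_lit 5, nat_lit 0x40018, nat_lit 0x21110, nat_lit 2, nat_lit 4, nat_lit 0x47⟩ (.node ⟨nat_lit 7, nat_lit 0x20004000100060, nat_lit 0x2011211, nat_lit 0, nat_lit 4, nat_lit 0x49⟩ (.node ⟨nat_lit 6, nat_lit 0x80030, nat_lit 0x111013, nat_lit 0, nat_lit 4, nat_lit 0x48⟩ (t14_1870) (t14_10062)) (.node ⟨nat_lit 7, nat_lit 0x400020002000500068, nat_lit 0x2011200, nat_lit 0, nat_lit 4, nat_lit 0x47⟩ (t14_5966) (t14_14158))) (.node ⟨nat_lit 5, nat_lit 0x800100018, nat_lit 0x1022, nat_lit 4, nat_lit 4, nat_lit 0x46⟩ (.node ⟨nat_lit 7, nat_lit 0x1000600018, nat_lit 0x1001010, nat_lit 0, nat_lit 4, nat_lit 0x47⟩ (t14_3918) (t14_12110)) (.node ⟨nat_lit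 6, nat_lit 0x2000080034, nat_lit 0x120012, nat_lit 0, nat_lit 4, nat_lit 0x46⟩ (t14_8014) (.nil)))))
def t14_206 : Tr := .node ⟨nat_lit 6, nat_lit 0x1000200034, nat_lit 0x121002, nat_lit 0, nat_lit 4, nat_lit 0x47⟩ (.nil) (.nil)
def t14_8398 : Tr := .node ⟨nat_lit 6, nat_lit 0x200020002800300038, nat_lit 0x11013, nat_lit 8, nat_lit 4, nat_lit 0x46⟩ (.nil) (.nil)
def t14_4302 : Tr := .node ⟨nat_lit 6, nat_lit 0x2000100030, nat_lit 0x111011, nat_lit 3, nat_lit 3, nat_lit 0x47⟩ (.nil) (.nil)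
def t14_12494 : Tr := .node ⟨nat_lit 8, nat_lit 0x4000400080002000c0, nat_lit 0x100113, nat_lit 0, nat_lit 4, nat_lit 0x48⟩ (.nil) (.nil)
def t14_2254 : Tr := .node ⟨nat_lit 7, nat_lit 0x200020002000400042, nat_lit 0x1020022, nat_lit 1, nat_lit 4, nat_lit 0x48⟩ (.nil) (.nil)
def t14_10446 : Tr := .node ⟨nat_lit 8, nat_lit 0x800040004000a000c0, nat_lit 0x122020, nat_lit 0, nat_lit 4, nat_lit 0x48⟩ (.nil) (.nil)
def t14_6350 : Tr := .node ⟨nat_lit 7, nat_lit 0x40001000600068, nat_lit 0x11020, nat_lit 1, nat_lit 4, nat_lit 0x46⟩ (.nil) (.nil)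
def t14_14542 : Tr := .node ⟨nat_lit 9, nat_lit 0x100002001800140, nat_lit 0x13010, nat_lit 2, nat_lit 4, nat_lit 0x4a⟩ (.nil) (.nil)
def t14_1230 : Tr := .node ⟨nat_lit 5, nat_lit 0x100008, nat_lit 0x1143, nat_lit 1, nat_lit 4, nat_lit 0x48⟩ (.nil) (.nil)
def t14_9422 : Tr := .node ⟨nat_lit 9, nat_lit 0x8001000120012000c0018001c0, nat_lit 0x11110021, nat_lit 1, nat_lit 4, nat_lit 0x47⟩ (.nil) (.nil)
def t14_5326 : Tr := .node ⟨nat_lit 6, nat_lit 0x300030, nat_lit 0x111140, nat_lit 0, nat_lit 4, nat_lit 0x49⟩ (.nil) (.nil)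
def t14_13518 : Tr := .node ⟨nat_lit 7, nat_lit 0x400040, nat_lit 0x110000, nat_lit 0, nat_lit 4, nat_lit 0x49⟩ (.nil) (.nil)
def t14_3278 : Tr := .node ⟨nat_lit 7, nat_lit 0x200040004800300068, nat_lit 0x21010, nat_lit 1, nat_lit 4, nat_lit 0x45⟩ (.nil) (.nil)
def t14_11470 : Tr := .node ⟨nat_lit 6, nat_lit 0x20001000280038, nat_lit 0x101110, nat_lit 4, nat_lit 4, nat_lit 0x46⟩ (.nil) (.nil)
def t14_7374 : Tr := .node ⟨nat_lit 7, nat_lit 0x1000100060, nat_lit 0x1002001, nat_lit 3, nat_lit 4, nat_lit 0x49⟩ (.nil) (.nil)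
def t14_15566 : Tr := .node ⟨nat_lit 7, nat_lit 0, nat_lit 0x1111111, nat_lit 6, nat_lit 4, nat_lit 0x4e⟩ (.nil) (.nil)
def t14_718 : Tr := .node ⟨nat_lit 6, nat_lit 0x1000200030, nat_lit 0x2411, nat_lit 1, nat_lit 4, nat_lit 0x48⟩ (.nil) (.nil)
def t14_8910 : Tr := .node ⟨nat_lit 7, nat_lit 0x200040004800700070, nat_lit 0x101030, nat_lit 2, nat_lit 4, nat_lit 0x45⟩ (.nil) (.nil)
def t14_4814 : Tr := .node ⟨nat_lit 8, nat_lit 0x400080008800c000d0, nat_lit 0x1210020, nat_lit 2, nat_lit 4, nat_lit 0x48⟩ (.nil) (.nil)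
def t14_13006 : Tr := .node ⟨nat_lit 7, nat_lit 0x40002000480068, nat_lit 0x10400, nat_lit 1, nat_lit 4, nat_lit 0x47⟩ (.nil) (.nil)
def t14_2766 : Tr := .node ⟨nat_lit 7, nat_lit 0x40001000100060, nat_lit 0x1100211, nat_lit 1, nat_lit 4, nat_lit 0x48⟩ (.nil) (.nil)
def t14_10958 : Tr := .node ⟨nat_lit 8, nat_lit 0x40008000800090006000c0, nat_lit 0x210003, nat_lit 1, nat_lit 4, nat_lit 0x47⟩ (.nil) (.nil)
def t14_6862 : Tr := .node ⟨nat_lit 7, nat_lit 0x400020, nat_lit 0x11103, nat_lit 0, nat_lit 4, nat_lit 0x4a⟩ (.nil) (.nil)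
def t14_15054 : Tr := .node ⟨nat_lit 8, nat_lit 0x2000800088006000c0, nat_lit 0x11001021, nat_lit 1, nat_lit 4, nat_lit 0x48⟩ (.nil) (.nil)
def t14_1742 : Tr := .node ⟨nat_lit 8, nat_lit 0x400040008000c400d0, nat_lit 0x10121111, nat_lit 0, nat_lit 4, nat_lit 0x48⟩ (.nil) (.nil)
def t14_9934 : Tr := .node ⟨nat_lit 6, nat_lit 0x380038, nat_lit 0x100133, nat_lit 0, nat_lit 4, nat_lit 0x45⟩ (.nil) (.nil)
def t14_5838 : Tr := .node ⟨nat_lit 7, nat_lit 0x1000200040, nat_lit 0x1010021, nat_lit 1, nat_lit 4, nat_lit 0x49⟩ (.nil) (.nil)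
def t14_14030 : Tr := .node ⟨nat_lit 7, nat_lit 0x4000500064, nat_lit 0x101201, nat_lit 3, nat_lit 4, nat_lit 0x48⟩ (.nil) (.nil)
def t14_3790 : Tr := .node ⟨nat_lit 8, nat_lit 0x8000400040004000a000d0, nat_lit 0x10021001, nat_lit 2, nat_lit 4, nat_lit 0x48⟩ (.nil) (.nil)
def t14_11982 : Tr := .node ⟨nat_lit 9, nat_lit 0x80008001000100010800c0, nat_lit 0x1220000, nat_lit 1, nat_lit 4, nat_lit 0x49⟩ (.nil) (.nil)
def t14_7886 : Tr := .node ⟨nat_lit 8, nat_lit 0x200040003000a000c0, nat_lit 0x11111, nat_lit 0, nat_lit 4, nat_lit 0x46⟩ (.nil) (.nil)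
def t9_206 : Tr := .node ⟨nat_lit 5, nat_lit 0x100010, nat_lit 0x3210, nat_lit 5, nat_lit 4, nat_lit 0x49⟩ (.node ⟨nat_lit 7, nat_lit 0x1000400060, nat_lit 0x1103021, nat_lit 1, nat_lit 4, nat_lit 0x4a⟩ (.node ⟨nat_lit 5, nat_lit 0x100010, nat_lit 0x13111, nat_lit 5, nat_lit 3, nat_lit 0x48⟩ (.node ⟨nat_lit 4, nat_lit 8, nat_lit 0x1214, nat_lit 2, nat_lit 3, nat_lit 0x47⟩ (.node ⟨nat_lit 7, nat_lit 0x40002000200010, nat_lit 0x20212, nat_lit 1, nat_lit 4, nat_lit 0x49⟩ (t14_206) (t14_8398)) (.node ⟨nat_lit 7, nat_lit 0x4000200060, nat_lit 0x111203, nat_lit 0, nat_lit 4, nat_lit 0x49⟩ (t14_4302) (t14_12494))) (.node ⟨nat_lit 6, nat_lit 0x20, nat_lit 0x221113, nat_lit 1, nat_lit 4, nat_lit 0x4c⟩ (.node ⟨nat_lit 6, nat_lit 0x10002000240030, nat_lit 0x102104, nat_lit 2, nat_lit 4, nat_lit 0x47⟩ (t14_2254) (t14_10446)) (.node ⟨nat_lit 5, nat_lit 0x100018,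 nat_lit 0x11220, nat_lit 7, nat_lit 4, nat_lit 0x49⟩ (t14_6350) (t14_14542)))) (.node ⟨nat_lit 5, nat_lit 0x18, nat_lit 0x11211, nat_lit 3, nat_lit 4, nat_lit 0x48⟩ (.node ⟨nat_lit 6, nat_lit 0x800080030, nat_lit 0x210221, nat_lit 0, nat_lit 4, nat_lit 0x48⟩ (.node ⟨nat_lit 5, nat_lit 0x100018, nat_lit 0x100, nat_lit 1, nat_lit 3, nat_lit 0x44⟩ (t14_1230) (t14_9422)) (.node ⟨nat_lit 7, nat_lit 0x10005000600060, nat_lit 0x112121, nat_lit 1, nat_lit 4, nat_lit 0x47⟩ (t14_5326) (t14_13518))) (.node ⟨nat_lit 7, nat_lit 0x200020004000400044, nat_lit 0x1020201, nat_lit 1, nat_lit 4, nat_lit 0x48⟩ (.node ⟨nat_lit 8, nat_lit 0x10002000c000a0, nat_lit 0x10100013, nat_lit 2, nat_lit 4, nat_lit 0x49⟩ (t14_3278) (t14_11470)) (.node ⟨nat_lit 7, nat_lit 0x40004800500068, nat_lit 0x1010031, nat_lit 1, nat_lit 4, nat_lit 0x47⟩ (t14_7374) (t14_15566))))) (.node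 ⟨nat_lit 5, nat_lit 0x100018, nat_lit 0x10311, nat_lit 5, nat_lit 4, nat_lit 0x48⟩ (.node ⟨nat_lit 6, nat_lit 0x200020, nat_lit 0x21100, nat_lit 1, nat_lit 4, nat_lit 0x48⟩ (.node ⟨nat_lit 6, nat_lit 0x200020, nat_lit 0x21110, nat_lit 6, nat_lit 4, nat_lit 0x4a⟩ (.node ⟨nat_lit 7, nat_lit 0x200020004000440070, nat_lit 0x2112110, nat_lit 0, nat_lit 4, nat_lit 0x48⟩ (t14_718) (t14_8910)) (.node ⟨nat_lit 8, nat_lit 0x8000800040004000a000a0, nat_lit 0x1112020, nat_lit 0, nat_lit 4, nat_lit 0x48⟩ (t14_4814) (t14_13006))) (.node ⟨nat_lit 6, nat_lit 0x280030, nat_lit 0x11101, nat_lit 0, nat_lit 4, nat_lit 0x46⟩ (.node ⟨nat_lit 6, nat_lit 0x1000200020, nat_lit 0x111130, nat_lit 6, nat_lit 4, nat_lit 0x4a⟩ (t14_2766) (t14_10958)) (.node ⟨nat_lit 7, nat_lit 0x40005800680070, nat_lit 0x1110202, nat_lit 2, nat_lit 4, nat_lit 0x46⟩ (t14_6862) (t14_15054))))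 (.node ⟨nat_lit 3, nat_lit 6, nat_lit 0x113, nat_lit 7, nat_lit 4, nat_lit 0x45⟩ (.node ⟨nat_lit 6, nat_lit 0x80030, nat_lit 0x101111, nat_lit 0, nat_lit 4, nat_lit 0x47⟩ (.node ⟨nat_lit 7, nat_lit 0x40001000100060, nat_lit 0x100003, nat_lit 1, nat_lit 4, nat_lit 0x47⟩ (t14_1742) (t14_9934)) (.node ⟨nat_lit 8, nat_lit 0x8000800080009000a000a0, nat_lit 0x2110021, nat_lit 2, nat_lit 4, nat_lit 0x49⟩ (t14_5838) (t14_14030))) (.node ⟨nat_lit 6, nat_lit 0x2000200030, nat_lit 0x22202, nat_lit 0, nat_lit 3, nat_lit 0x47⟩ (.node ⟨nat_lit 6, nat_lit 0xc0030, nat_lit 0x1110, nat_lit 1, nat_lit 4, nat_lit 0x46⟩ (t14_3790) (t14_11982)) (.node ⟨nat_lit 8, nat_lit 0x80008000c800c8, nat_lit 0x11110021, nat_lit 1, nat_lit 4, nat_lit 0x49⟩ (t14_7886) (.nil)))))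
def t14_462 : Tr := .node ⟨nat_lit 6, nat_lit 0x2000100034, nat_lit 0x111110, nat_lit 1, nat_lit 4, nat_lit 0x47⟩ (.nil) (.nil)
def t14_8654 : Tr := .node ⟨nat_lit 5, nat_lit 0x40018, nat_lit 0x12, nat_lit 1, nat_lit 4, nat_lit 0x44⟩ (.nil) (.nil)
def t14_4558 : Tr := .node ⟨nat_lit 8, nat_lit 0x1000a000c000c0, nat_lit 0x1100221, nat_lit 0, nat_lit 4, nat_lit 0x48⟩ (.nil) (.nil)
def t14_12750 : Tr := .node ⟨nat_lit 7, nat_lit 0x10004000440060, nat_lit 0x100200, nat_lit 5, nat_lit 4, nat_lit 0x48⟩ (.nil) (.nil)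
def t14_2510 : Tr := .node ⟨nat_lit 5, nat_lit 0x80010001a, nat_lit 0x30210, nat_lit 4, nat_lit 4, nat_lit 0x47⟩ (.nil) (.nil)
def t14_10702 : Tr := .node ⟨nat_lit 9, nat_lit 0x40008001400180, nat_lit 0x100002, nat_lit 0, nat_lit 4, nat_lit 0x49⟩ (.nil) (.nil)
def t14_6606 : Tr := .node ⟨nat_lit 6, nat_lit 0x300038, nat_lit 0x100203, nat_lit 2, nat_lit 4, nat_lit 0x47⟩ (.nil) (.nil)
def t14_14798 : Tr := .node ⟨nat_lit 9, nat_lit 0x8000800100004000400180, nat_lit 0x210101, nat_lit 2, nat_lit 4, nat_lit 0x49⟩ (.nil) (.nil)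
def t14_1486 : Tr := .node ⟨nat_lit 6, nat_lit 0x800080030, nat_lit 0x100201, nat_lit 3, nat_lit 4, nat_lit 0x47⟩ (.nil) (.nil)
def t14_9678 : Tr := .node ⟨nat_lit 7, nat_lit 0x40004000200020, nat_lit 0x12020, nat_lit 0, nat_lit 4, nat_lit 0x48⟩ (.nil) (.nil)
def t14_5582 : Tr := .node ⟨nat_lit 5, nat_lit 0x100018, nat_lit 0x1120, nat_lit 5, nat_lit 4, nat_lit 0x47⟩ (.nil) (.nil)
def t14_13774 : Tr := .node ⟨nat_lit 5, nat_lit 0x1000080018, nat_lit 0x20300, nat_lit 1, nat_lit 3, nat_lit 0x46⟩ (.nil) (.nil)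
def t14_3534 : Tr := .node ⟨nat_lit 7, nat_lit 0x10006000600070, nat_lit 0x1201, nat_lit 2, nat_lit 4, nat_lit 0x45⟩ (.nil) (.nil)
def t14_11726 : Tr := .node ⟨nat_lit 8, nat_lit 0x4000a000a000c0, nat_lit 0x1011102, nat_lit 1, nat_lit 4, nat_lit 0x48⟩ (.nil) (.nil)
def t14_7630 : Tr := .node ⟨nat_lit 7, nat_lit 0x20001000400060, nat_lit 0x201, nat_lit 1, nat_lit 4, nat_lit 0x46⟩ (.nil) (.nil)
def t14_974 : Tr := .node ⟨nat_lit 6, nat_lit 0x2000100024, nat_lit 0x21211, nat_lit 2, nat_lit 4, nat_lit 0x48⟩ (.nil) (.nil)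
def t14_9166 : Tr := .node ⟨nat_lit 6, nat_lit 0x20002000100038, nat_lit 0x1210, nat_lit 3, nat_lit 4, nat_lit 0x46⟩ (.nil) (.nil)
def t14_5070 : Tr := .node ⟨nat_lit 4, nat_lit 0x8000c, nat_lit 0x131, nat_lit 6, nat_lit 4, nat_lit 0x46⟩ (.nil) (.nil)
def t14_13262 : Tr := .node ⟨nat_lit 5, nat_lit 0x100018, nat_lit 0x21110, nat_lit 4, nat_lit 3, nat_lit 0x47⟩ (.nil) (.nil)
def t14_3022 : Tr := .node ⟨nat_lit 8, nat_lit 0x2000400040008000c8, nat_lit 0x10002110, nat_lit 0, nat_lit 4, nat_lit 0x48⟩ (.nil) (.nil)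
def t14_11214 : Tr := .node ⟨nat_lit 7, nat_lit 0x20006000500070, nat_lit 0x11103, nat_lit 2, nat_lit 4, nat_lit 0x46⟩ (.nil) (.nil)
def t14_7118 : Tr := .node ⟨nat_lit 7, nat_lit 0x5000500060, nat_lit 0x112111, nat_lit 1, nat_lit 4, nat_lit 0x48⟩ (.nil) (.nil)
def t14_15310 : Tr := .node ⟨nat_lit 7, nat_lit 0x40004000200060, nat_lit 0x111012, nat_lit 4, nat_lit 4, nat_lit 0x49⟩ (.nil) (.nil)
def t14_1998 : Tr := .node ⟨nat_lit 6, nat_lit 0x2000080030, nat_lit 0x121102, nat_lit 4, nat_lit 4, nat_lit 0x49⟩ (.nil) (.nil)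
def t14_10190 : Tr := .node ⟨nat_lit 7, nat_lit 0x200020004000400060, nat_lit 0x1020002, nat_lit 0, nat_lit 3, nat_lit 0x46⟩ (.nil) (.nil)
def t14_6094 : Tr := .node ⟨nat_lit 2, nat_lit 0, nat_lit 0x11, nat_lit 0x13, nat_lit 4, nat_lit 0x48⟩ (.nil) (.nil)
def t14_14286 : Tr := .node ⟨nat_lit 8, nat_lit 0x8000200020009000c0, nat_lit 0x10012110, nat_lit 0, nat_lit 4, nat_lit 0x48⟩ (.nil) (.nil)
def t14_4046 : Tr := .node ⟨nat_lit 7, nat_lit 0x40001000100060, nat_lit 0x1001301, nat_lit 1, nat_lit 4, nat_lit 0x48⟩ (.nil) (.nil)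
def t14_12238 : Tr := .node ⟨nat_lit 7, nat_lit 0x10001000400060, nat_lit 0x11121, nat_lit 2, nat_lit 4, nat_lit 0x48⟩ (.nil) (.nil)
def t14_8142 : Tr := .node ⟨nat_lit 7, nat_lit 0x2000500060, nat_lit 0x11002, nat_lit 0, nat_lit 4, nat_lit 0x47⟩ (.nil) (.nil)
def t9_462 : Tr := .node ⟨nat_lit 4, nat_lit 8, nat_lit 0x3321, nat_lit 2, nat_lit 3, nat_lit 0x49⟩ (.node ⟨nat_lit 8, nat_lit 0x2000800088008800c8, nat_lit 0x31000202, nat_lit 0, nat_lit 4, nat_lit 0x49⟩ (.node ⟨nat_lit 6, nat_lit 0x2000200010, nat_lit 0x22102, nat_lit 1, nat_lit 4, nat_lit 0x49⟩ (.node ⟨nat_lit 7, nat_lit 0x40004000100060, nat_lit 0x112120, nat_lit 0, nat_lit 4, nat_lit 0x48⟩ (.node ⟨nat_lit 6, nat_lit 0x2000080030, nat_lit 0x12310, nat_lit 1, nat_lit 4, nat_lit 0x48⟩ (t14_462) (t14_8654)) (.node ⟨nat_lit 7, nat_lit 0x40001000480060, nat_lit 0x1022210, nat_lit 1, nat_lit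 4, nat_lit 0x49⟩ (t14_4558) (t14_12750))) (.node ⟨nat_lit 6, nat_lit 0x1000280030, nat_lit 0x1020, nat_lit 0, nat_lit 3, nat_lit 0x44⟩ (.node ⟨nat_lit 6, nat_lit 0x280030, nat_lit 0x111113, nat_lit 1, nat_lit 4, nat_lit 0x48⟩ (t14_2510) (t14_10702)) (.node ⟨nat_lit 7, nat_lit 0x40004000200020, nat_lit 0x21032, nat_lit 0, nat_lit 4, nat_lit 0x49⟩ (t14_6606) (t14_14798)))) (.node ⟨nat_lit 6, nat_lit 0x800080030, nat_lit 0x200201, nat_lit 1, nat_lit 4, nat_lit 0x47⟩ (.node ⟨nat_lit 6, nat_lit 0x200032, nat_lit 0x211022, nat_lit 0, nat_lit 4, nat_lit 0x49⟩ (.node ⟨nat_lit 7, nat_lit 0x5000500060, nat_lit 0x101001, nat_lit 0, nat_lit 4, nat_lit 0x46⟩ (t14_1486) (t14_9678)) (.node ⟨nat_lit 8, nat_lit 0x40008000200084, nat_lit 0x10110202, nat_lit 1, nat_lit 4, nat_lit 0x4a⟩ (t14_5582) (t14_13774))) (.node ⟨nat_lit 6, nat_lit 0x1000100020, nat_lit 0x102003,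 nat_lit 3, nat_lit 4, nat_lit 0x49⟩ (.node ⟨nat_lit 6, nat_lit 0x2000240018, nat_lit 0x100100, nat_lit 0, nat_lit 4, nat_lit 0x45⟩ (t14_3534) (t14_11726)) (.node ⟨nat_lit 6, nat_lit 0x2000200030, nat_lit 0x101310, nat_lit 0, nat_lit 3, nat_lit 0x47⟩ (t14_7630) (.nil))))) (.node ⟨nat_lit 7, nat_lit 0x400040, nat_lit 0x1311111, nat_lit 0, nat_lit 4, nat_lit 0x4c⟩ (.node ⟨nat_lit 4, nat_lit 0, nat_lit 0x2221, nat_lit 2, nat_lit 3, nat_lit 0x48⟩ (.node ⟨nat_lit 8, nat_lit 0x2000400080, nat_lit 0x11111011, nat_lit 0, nat_lit 4, nat_lit 0x4b⟩ (.node ⟨nat_lit 3, nat_lit 0x40004, nat_lit 0x131, nat_lit 0xf, nat_lit 4, nat_lit 0x48⟩ (t14_974) (t14_9166)) (.node ⟨nat_lit 6, nat_lit 0x200022, nat_lit 0x22122, nat_lit 0, nat_lit 4, nat_lit 0x49⟩ (t14_5070) (t14_13262))) (.node ⟨nat_lit 6, nat_lit 0x200030, nat_lit 0x101120, nat_lit 4, nat_lit 4, nat_lit 0x49⟩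 (.node ⟨nat_lit 7, nat_lit 0x6000600060, nat_lit 0x11210, nat_lit 1, nat_lit 4, nat_lit 0x47⟩ (t14_3022) (t14_11214)) (.node ⟨nat_lit 7, nat_lit 0x10001800600070, nat_lit 0x12022, nat_lit 0, nat_lit 4, nat_lit 0x46⟩ (t14_7118) (t14_15310)))) (.node ⟨nat_lit 6, nat_lit 0x2000100032, nat_lit 0x12120, nat_lit 1, nat_lit 4, nat_lit 0x47⟩ (.node ⟨nat_lit 7, nat_lit 0x400020, nat_lit 0x121100, nat_lit 3, nat_lit 4, nat_lit 0x4b⟩ (.node ⟨nat_lit 6, nat_lit 0x300030, nat_lit 0x102041, nat_lit 0, nat_lit 4, nat_lit 0x48⟩ (t14_1998) (t14_10190)) (.node ⟨nat_lit 7, nat_lit 0x40001000100060, nat_lit 0x1013200, nat_lit 0, nat_lit 4, nat_lit 0x49⟩ (t14_6094) (t14_14286))) (.node ⟨nat_lit 3, nat_lit 4, nat_lit 0x223, nat_lit 0xb, nat_lit 4, nat_lit 0x49⟩ (.node ⟨nat_lit 7, nat_lit 0x10003000500060, nat_lit 0x1100301, nat_lit 0, nat_lit 3, nat_lit 0x45⟩ (t14_4046)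 (t14_12238)) (.node ⟨nat_lit 7, nat_lit 0x4000600060, nat_lit 0x1021120, nat_lit 1, nat_lit 4, nat_lit 0x49⟩ (t14_8142) (.nil)))))
def t14_46 : Tr := .node ⟨nat_lit 8, nat_lit 0x80001000400020, nat_lit 0x110100, nat_lit 1, nat_lit 4, nat_lit 0x49⟩ (.nil) (.nil)
def t14_8238 : Tr := .node ⟨nat_lit 8, nat_lit 0x800020009000c000d0, nat_lit 0x111103, nat_lit 2, nat_lit 4, nat_lit 0x47⟩ (.nil) (.nil)
def t14_4142 : Tr := .node ⟨nat_lit 8, nat_lit 0x800080002000c000d0, nat_lit 0x1101120, nat_lit 1, nat_lit 4, nat_lit 0x48⟩ (.nil) (.nil)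
def t14_12334 : Tr := .node ⟨nat_lit 8, nat_lit 0x200080004000c000c0, nat_lit 0x2130, nat_lit 2, nat_lit 4, nat_lit 0x48⟩ (.nil) (.nil)
def t14_2094 : Tr := .node ⟨nat_lit 7, nat_lit 0x400020002000200050, nat_lit 0x2023100, nat_lit 1, nat_lit 4, nat_lit 0x49⟩ (.nil) (.nil)
def t14_10286 : Tr := .node ⟨nat_lit 7, nat_lit 0x400040005000580070, nat_lit 0x1000102, nat_lit 1, nat_lit 4, nat_lit 0x45⟩ (.nil) (.nil)
def t14_6190 : Tr := .node ⟨nat_lit 5, nat_lit 0x140018, nat_lit 0x10011, nat_lit 5, nat_lit 4, nat_lit 0x45⟩ (.nil) (.nil)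
def t14_14382 : Tr := .node ⟨nat_lit 7, nat_lit 0x40001000600070, nat_lit 0x1103, nat_lit 3, nat_lit 4, nat_lit 0x46⟩ (.nil) (.nil)
def t14_1070 : Tr := .node ⟨nat_lit 6, nat_lit 0x2000200010, nat_lit 0x1202, nat_lit 1, nat_lit 4, nat_lit 0x47⟩ (.nil) (.nil)
def t14_9262 : Tr := .node ⟨nat_lit 8, nat_lit 0x40002000c000a000d0, nat_lit 0x20210, nat_lit 0, nat_lit 4, nat_lit 0x46⟩ (.nil) (.nil)
def t14_5166 : Tr := .node ⟨nat_lit 7, nat_lit 0x4000400060, nat_lit 0x111301, nat_lit 3, nat_lit 4, nat_lit 0x4a⟩ (.nil) (.nil)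
def t14_13358 : Tr := .node ⟨nat_lit 6, nat_lit 0x10002000240034, nat_lit 0x2200, nat_lit 4, nat_lit 4, nat_lit 0x46⟩ (.nil) (.nil)
def t14_3118 : Tr := .node ⟨nat_lit 8, nat_lit 0x80001000c000a0, nat_lit 0x112011, nat_lit 2, nat_lit 4, nat_lit 0x49⟩ (.nil) (.nil)
def t14_11310 : Tr := .node ⟨nat_lit 8, nat_lit 0x800080009800d000d0, nat_lit 0x10200120, nat_lit 1, nat_lit 4, nat_lit 0x47⟩ (.nil) (.nil)
def t14_7214 : Tr := .node ⟨nat_lit 8, nat_lit 0x800010002000c0, nat_lit 0x10111111, nat_lit 2, nat_lit 4, nat_lit 0x4a⟩ (.nil) (.nil)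
def t14_15406 : Tr := .node ⟨nat_lit 0xb, nat_lit 0x4000400020002000410, nat_lit 0x111100100, nat_lit 0, nat_lit 4, nat_lit 0x4d⟩ (.nil) (.nil)
def t14_558 : Tr := .node ⟨nat_lit 5, nat_lit 0x1000080018, nat_lit 0x22, nat_lit 3, nat_lit 3, nat_lit 0x44⟩ (.nil) (.nil)
def t14_8750 : Tr := .node ⟨nat_lit 7, nat_lit 0x200020004000400040, nat_lit 0x20100, nat_lit 1, nat_lit 4, nat_lit 0x47⟩ (.nil) (.nil)
def t14_4654 : Tr := .node ⟨nat_lit 6, nat_lit 0x2000240030, nat_lit 0x102121, nat_lit 4, nat_lit 4, nat_lit 0x48⟩ (.nil) (.nil)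
def t14_12846 : Tr := .node ⟨nat_lit 7, nat_lit 0x20004000440030, nat_lit 0x2000100, nat_lit 0, nat_lit 4, nat_lit 0x47⟩ (.nil) (.nil)
def t14_2606 : Tr := .node ⟨nat_lit 6, nat_lit 0x300028, nat_lit 0x2112, nat_lit 3, nat_lit 4, nat_lit 0x48⟩ (.nil) (.nil)
def t14_10798 : Tr := .node ⟨nat_lit 7, nat_lit 0x400020002000280050, nat_lit 0x1002010, nat_lit 2, nat_lit 4, nat_lit 0x47⟩ (.nil) (.nil)
def t14_6702 : Tr := .node ⟨nat_lit 6, nat_lit 0x30, nat_lit 0x111111, nat_lit 3, nat_lit 4, nat_lit 0x4a⟩ (.nil) (.nil)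
def t14_14894 : Tr := .node ⟨nat_lit 7, nat_lit 0x400020005000500070, nat_lit 0x1010111, nat_lit 5, nat_lit 4, nat_lit 0x47⟩ (.nil) (.nil)
def t14_1582 : Tr := .node ⟨nat_lit 8, nat_lit 0x200020003000a000c0, nat_lit 0x11010121, nat_lit 1, nat_lit 4, nat_lit 0x48⟩ (.nil) (.nil)
def t14_9774 : Tr := .node ⟨nat_lit 8, nat_lit 0x800080002000c000d0, nat_lit 0x100120, nat_lit 0, nat_lit 4, nat_lit 0x47⟩ (.nil) (.nil)
def t14_5678 : Tr := .node ⟨nat_lit 2, nat_lit 2, nat_lit 0x12, nat_lit 8, nat_lit 4, nat_lit 0x44⟩ (.nil) (.nil)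
def t14_13870 : Tr := .node ⟨nat_lit 6, nat_lit 0x800280030, nat_lit 0x202, nat_lit 4, nat_lit 4, nat_lit 0x46⟩ (.nil) (.nil)
def t14_3630 : Tr := .node ⟨nat_lit 5, nat_lit 0x140018, nat_lit 0x11201, nat_lit 4, nat_lit 4, nat_lit 0x47⟩ (.nil) (.nil)
def t14_11822 : Tr := .node ⟨nat_lit 6, nat_lit 0x2000100008, nat_lit 0x10003, nat_lit 5, nat_lit 4, nat_lit 0x48⟩ (.nil) (.nil)
def t14_7726 : Tr := .node ⟨nat_lit 5, nat_lit 0x1000100008, nat_lit 0x203, nat_lit 3, nat_lit 4, nat_lit 0x46⟩ (.nil) (.nil)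
def t9_46 : Tr := .node ⟨nat_lit 5, nat_lit 0x80010, nat_lit 0x13321, nat_lit 0, nat_lit 4, nat_lit 0x4a⟩ (.node ⟨nat_lit 5, nat_lit 0x10, nat_lit 0x13112, nat_lit 1, nat_lit 3, nat_lit 0x48⟩ (.node ⟨nat_lit 5, nat_lit 0x180018, nat_lit 0x120, nat_lit 2, nat_lit 3, nat_lit 0x44⟩ (.node ⟨nat_lit 6, nat_lit 0x200032, nat_lit 0x201111, nat_lit 0, nat_lit 4, nat_lit 0x48⟩ (.node ⟨nat_lit 7, nat_lit 0x4000600070, nat_lit 0x22113, nat_lit 0, nat_lit 4, nat_lit 0x48⟩ (t14_46) (t14_8238)) (.node ⟨nat_lit 7, nat_lit 0x20001000400070, nat_lit 0x1010003, nat_lit 2, nat_lit 4, nat_lit 0x47⟩ (t14_4142) (t14_12334))) (.node ⟨nat_lit 5, nat_lit 0x40018, nat_lit 0x22003, nat_lit 2, nat_lit 4, nat_lit 0x48⟩ (.node ⟨nat_lit 6, nat_lit 0x2000240018, nat_lit 0x10212, nat_lit 0, nat_lit 4, nat_lit 0x46⟩ (t14_2094) (t14_10286)) (.node ⟨nat_lit 7, nat_lit 0x40001000600060,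 nat_lit 0x12210, nat_lit 0, nat_lit 4, nat_lit 0x47⟩ (t14_6190) (t14_14382)))) (.node ⟨nat_lit 6, nat_lit 0x2000080030, nat_lit 0x2331, nat_lit 0, nat_lit 4, nat_lit 0x48⟩ (.node ⟨nat_lit 7, nat_lit 0x40004000200020, nat_lit 0x221011, nat_lit 1, nat_lit 4, nat_lit 0x4a⟩ (.node ⟨nat_lit 6, nat_lit 0x1000200030, nat_lit 0x112311, nat_lit 0, nat_lit 4, nat_lit 0x49⟩ (t14_1070) (t14_9262)) (.node ⟨nat_lit 5, nat_lit 0x100018001c, nat_lit 0x1212, nat_lit 9, nat_lit 4, nat_lit 0x46⟩ (t14_5166) (t14_13358))) (.node ⟨nat_lit 6, nat_lit 0x800100020, nat_lit 0x221100, nat_lit 2, nat_lit 4, nat_lit 0x49⟩ (.node ⟨nat_lit 6, nat_lit 0x800200032, nat_lit 0x111200, nat_lit 1, nat_lit 4, nat_lit 0x47⟩ (t14_3118) (t14_11310)) (.node ⟨nat_lit 5, nat_lit 0x100010, nat_lit 0x11122, nat_lit 9, nat_lit 4, nat_lit 0x4a⟩ (t14_7214) (t14_15406))))) (.node ⟨nat_lit 2, nat_lit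 2, nat_lit 0x32, nat_lit 0xf, nat_lit 4, nat_lit 0x48⟩ (.node ⟨nat_lit 2, nat_lit 0, nat_lit 0x22, nat_lit 0xf, nat_lit 4, nat_lit 0x48⟩ (.node ⟨nat_lit 5, nat_lit 0x800080010, nat_lit 0x20210, nat_lit 0, nat_lit 3, nat_lit 0x45⟩ (.node ⟨nat_lit 9, nat_lit 0x10001000100008001200120, nat_lit 0x21011110, nat_lit 0, nat_lit 4, nat_lit 0x4a⟩ (t14_558) (t14_8750)) (.node ⟨nat_lit 7, nat_lit 0x4000200060, nat_lit 0x1111102, nat_lit 0, nat_lit 3, nat_lit 0x48⟩ (t14_4654) (t14_12846))) (.node ⟨nat_lit 6, nat_lit 0x1000280034, nat_lit 0x100121, nat_lit 2, nat_lit 4, nat_lit 0x45⟩ (.node ⟨nat_lit 6, nat_lit 0x2000080030, nat_lit 0x112320, nat_lit 0, nat_lit 4, nat_lit 0x49⟩ (t14_2606) (t14_10798)) (.node ⟨nat_lit 7, nat_lit 0x4000400060, nat_lit 0x121211, nat_lit 2, nat_lit 4, nat_lit 0x4a⟩ (t14_6702) (t14_14894)))) (.node ⟨nat_lit 7, nat_lit 0x40004000100068,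 nat_lit 0x121011, nat_lit 1, nat_lit 4, nat_lit 0x48⟩ (.node ⟨nat_lit 5, nat_lit 0x100010, nat_lit 0x22110, nat_lit 2, nat_lit 3, nat_lit 0x48⟩ (.node ⟨nat_lit 1, nat_lit 0, nat_lit 1, nat_lit 9, nat_lit 4, nat_lit 0x42⟩ (t14_1582) (t14_9774)) (.node ⟨nat_lit 8, nat_lit 0x2000400080003000c4, nat_lit 0x21102101, nat_lit 0, nat_lit 4, nat_lit 0x49⟩ (t14_5678) (t14_13870))) (.node ⟨nat_lit 6, nat_lit 0x280030, nat_lit 0x21112, nat_lit 2, nat_lit 4, nat_lit 0x48⟩ (.node ⟨nat_lit 6, nat_lit 0x200030, nat_lit 0x1100, nat_lit 0, nat_lit 3, nat_lit 0x46⟩ (t14_3630) (t14_11822)) (.node ⟨nat_lit 6, nat_lit 0x800200030, nat_lit 0x111201, nat_lit 3, nat_lit 4, nat_lit 0x48⟩ (t14_7726) (.nil)))))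
def t14_302 : Tr := .node ⟨nat_lit 7, nat_lit 0x1000500060, nat_lit 0x211113, nat_lit 1, nat_lit 4, nat_lit 0x49⟩ (.nil) (.nil)
def t14_8494 : Tr := .node ⟨nat_lit 6, nat_lit 0x20001000280030, nat_lit 0x100103, nat_lit 2, nat_lit 4, nat_lit 0x46⟩ (.nil) (.nil)
def t14_4398 : Tr := .node ⟨nat_lit 7, nat_lit 0x40001000100060, nat_lit 0x211210, nat_lit 1, nat_lit 4, nat_lit 0x49⟩ (.nil) (.nil)
def t14_12590 : Tr := .node ⟨nat_lit 7, nat_lit 0x1000600070, nat_lit 0x2000103, nat_lit 0, nat_lit 4, nat_lit 0x47⟩ (.nil) (.nil)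
def t14_2350 : Tr := .node ⟨nat_lit 7, nat_lit 0x20005000680068, nat_lit 0x211210, nat_lit 2, nat_lit 4, nat_lit 0x47⟩ (.nil) (.nil)
def t14_10542 : Tr := .node ⟨nat_lit 6, nat_lit 0x2000100008, nat_lit 0x2000, nat_lit 0, nat_lit 4, nat_lit 0x46⟩ (.nil) (.nil)
def t14_6446 : Tr := .node ⟨nat_lit 7, nat_lit 0x400020002000500060, nat_lit 0x1001002, nat_lit 3, nat_lit 4, nat_lit 0x47⟩ (.nil) (.nil)
def t14_14638 : Tr := .node ⟨nat_lit 8, nat_lit 0x2000400080008000c0, nat_lit 0x1001211, nat_lit 2, nat_lit 4, nat_lit 0x49⟩ (.nil) (.nil)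
def t14_1326 : Tr := .node ⟨nat_lit 8, nat_lit 0x80008000400040009000a0, nat_lit 0x112111, nat_lit 0, nat_lit 4, nat_lit 0x47⟩ (.nil) (.nil)
def t14_9518 : Tr := .node ⟨nat_lit 6, nat_lit 0x10002000200024, nat_lit 0x100121, nat_lit 1, nat_lit 4, nat_lit 0x47⟩ (.nil) (.nil)
def t14_5422 : Tr := .node ⟨nat_lit 6, nat_lit 0x200020, nat_lit 0x11122, nat_lit 5, nat_lit 4, nat_lit 0x4a⟩ (.nil) (.nil)
def t14_13614 : Tr := .node ⟨nat_lit 8, nat_lit 0x2000800040008800c0, nat_lit 2, nat_lit 3, nat_lit 4, nat_lit 0x47⟩ (.nil) (.nil)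
def t14_3374 : Tr := .node ⟨nat_lit 5, nat_lit 0x180018, nat_lit 0x10310, nat_lit 3, nat_lit 4, nat_lit 0x47⟩ (.nil) (.nil)
def t14_11566 : Tr := .node ⟨nat_lit 6, nat_lit 0x300030, nat_lit 0x102010, nat_lit 0, nat_lit 4, nat_lit 0x47⟩ (.nil) (.nil)
def t14_7470 : Tr := .node ⟨nat_lit 8, nat_lit 0x400080002000c4, nat_lit 0x11011101, nat_lit 0, nat_lit 4, nat_lit 0x49⟩ (.nil) (.nil)
def t14_814 : Tr := .node ⟨nat_lit 6, nat_lit 0x10001000200030, nat_lit 0x103120, nat_lit 3, nat_lit 4, nat_lit 0x48⟩ (.nil) (.nil)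
def t14_9006 : Tr := .node ⟨nat_lit 9, nat_lit 0x1000100011001080190, nat_lit 0x1111012, nat_lit 0, nat_lit 4, nat_lit 0x49⟩ (.nil) (.nil)
def t14_4910 : Tr := .node ⟨nat_lit 9, nat_lit 0x4000800100, nat_lit 0x111111000, nat_lit 1, nat_lit 4, nat_lit 0x4d⟩ (.nil) (.nil)
def t14_13102 : Tr := .node ⟨nat_lit 6, nat_lit 0x10002000240038, nat_lit 0x3300, nat_lit 2, nat_lit 4, nat_lit 0x46⟩ (.nil) (.nil)
def t14_2862 : Tr := .node ⟨nat_lit 6, nat_lit 0x2000200030, nat_lit 0x1310, nat_lit 0, nat_lit 3, nat_lit 0x46⟩ (.nil) (.nil)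
def t14_11054 : Tr := .node ⟨nat_lit 7, nat_lit 0x6000180018, nat_lit 0x1111120, nat_lit 0, nat_lit 4, nat_lit 0x48⟩ (.nil) (.nil)
def t14_6958 : Tr := .node ⟨nat_lit 7, nat_lit 0x40001000480060, nat_lit 0x1201001, nat_lit 1, nat_lit 4, nat_lit 0x48⟩ (.nil) (.nil)
def t14_15150 : Tr := .node ⟨nat_lit 8, nat_lit 0x2000800080003000c0, nat_lit 0x1111011, nat_lit 0, nat_lit 4, nat_lit 0x48⟩ (.nil) (.nil)
def t14_1838 : Tr := .node ⟨nat_lit 3, nat_lit 6, nat_lit 0x303, nat_lit 6, nat_lit 4, nat_lit 0x46⟩ (.nil) (.nil)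
def t14_10030 : Tr := .node ⟨nat_lit 6, nat_lit 0x20003000300038, nat_lit 0x101202, nat_lit 4, nat_lit 4, nat_lit 0x46⟩ (.nil) (.nil)
def t14_5934 : Tr := .node ⟨nat_lit 9, nat_lit 0x100010000800080012001400190, nat_lit 0x11111000, nat_lit 1, nat_lit 4, nat_lit 0x48⟩ (.nil) (.nil)
def t14_14126 : Tr := .node ⟨nat_lit 7, nat_lit 0x20002000200040, nat_lit 0x11001, nat_lit 2, nat_lit 4, nat_lit 0x48⟩ (.nil) (.nil)
def t14_3886 : Tr := .node ⟨nat_lit 6, nat_lit 0x10002000200034, nat_lit 0x11200, nat_lit 5, nat_lit 4, nat_lit 0x47⟩ (.nil) (.nil)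
def t14_12078 : Tr := .node ⟨nat_lit 9, nat_lit 0x4000800080010001900188, nat_lit 0x10010201, nat_lit 1, nat_lit 4, nat_lit 0x48⟩ (.nil) (.nil)
def t14_7982 : Tr := .node ⟨nat_lit 8, nat_lit 0x4000800080006000880090, nat_lit 0x1011010, nat_lit 2, nat_lit 4, nat_lit 0x47⟩ (.nil) (.nil)
def t9_302 : Tr := .node ⟨nat_lit 6, nat_lit 0x1000100020, nat_lit 0x203111, nat_lit 0, nat_lit 4, nat_lit 0x49⟩ (.node ⟨nat_lit 5, nat_lit 0x40018, nat_lit 0x32022, nat_lit 0, nat_lit 4, nat_lit 0x48⟩ (.node ⟨nat_lit 6, nat_lit 0x2000200024, nat_lit 0x131121, nat_lit 3, nat_lit 4, nat_lit 0x4a⟩ (.node ⟨nat_lit 5, nat_lit 0x1000140014, nat_lit 0x12121, nat_lit 4, nat_lit 4, nat_lit 0x47⟩ (.node ⟨nat_lit 6, nat_lit 0x2000100010, nat_lit 0x121021, nat_lit 3, nat_lit 4, nat_lit 0x4a⟩ (t14_302) (t14_8494)) (.node ⟨nat_lit 8, nat_lit 0x20008000c800b000e0, nat_lit 0x1101013,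 nat_lit 1, nat_lit 4, nat_lit 0x46⟩ (t14_4398) (t14_12590))) (.node ⟨nat_lit 6, nat_lit 0x2000080030, nat_lit 0x201212, nat_lit 4, nat_lit 4, nat_lit 0x49⟩ (.node ⟨nat_lit 4, nat_lit 0x80008, nat_lit 0x1243, nat_lit 2, nat_lit 3, nat_lit 0x47⟩ (t14_2350) (t14_10542)) (.node ⟨nat_lit 7, nat_lit 0x4000600060, nat_lit 0x22310, nat_lit 0, nat_lit 4, nat_lit 0x49⟩ (t14_6446) (t14_14638)))) (.node ⟨nat_lit 5, nat_lit 0x1000080018, nat_lit 0x10110, nat_lit 1, nat_lit 3, nat_lit 0x44⟩ (.node ⟨nat_lit 6, nat_lit 0x80030, nat_lit 0x212112, nat_lit 2, nat_lit 4, nat_lit 0x4a⟩ (.node ⟨nat_lit 5, nat_lit 0x100018, nat_lit 0x2140, nat_lit 0, nat_lit 3, nat_lit 0x46⟩ (t14_1326) (t14_9518)) (.node ⟨nat_lit 7, nat_lit 0x3000500060, nat_lit 0x1112220, nat_lit 0, nat_lit 4, nat_lit 0x48⟩ (t14_5422) (t14_13614))) (.node ⟨nat_lit 6, nat_lit 0x300030, nat_lit 0x2210,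 nat_lit 4, nat_lit 4, nat_lit 0x48⟩ (.node ⟨nat_lit 9, nat_lit 0x1000080002000200040, nat_lit 0x1100300, nat_lit 1, nat_lit 4, nat_lit 0x4b⟩ (t14_3374) (t14_11566)) (.node ⟨nat_lit 8, nat_lit 0x80002000c0, nat_lit 0x11111102, nat_lit 0, nat_lit 4, nat_lit 0x4b⟩ (t14_7470) (.nil))))) (.node ⟨nat_lit 4, nat_lit 0xc, nat_lit 0x1130, nat_lit 7, nat_lit 4, nat_lit 0x48⟩ (.node ⟨nat_lit 3, nat_lit 6, nat_lit 0x221, nat_lit 2, nat_lit 3, nat_lit 0x45⟩ (.node ⟨nat_lit 6, nat_lit 0x800100020, nat_lit 0x111110, nat_lit 0, nat_lit 4, nat_lit 0x47⟩ (.node ⟨nat_lit 6, nat_lit 0x200030, nat_lit 0x23211, nat_lit 0, nat_lit 4, nat_lit 0x4a⟩ (t14_814) (t14_9006)) (.node ⟨nat_lit 7, nat_lit 0x2000400060, nat_lit 0x1121012, nat_lit 1, nat_lit 4, nat_lit 0x4a⟩ (t14_4910) (t14_13102))) (.node ⟨nat_lit 8, nat_lit 0x40008000900090006000c0, nat_lit 0x11100002, nat_lit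 0, nat_lit 4, nat_lit 0x47⟩ (.node ⟨nat_lit 7, nat_lit 0x400040, nat_lit 0x1111130, nat_lit 3, nat_lit 4, nat_lit 0x4c⟩ (t14_2862) (t14_11054)) (.node ⟨nat_lit 9, nat_lit 0x100010000800110011001a0, nat_lit 0x11002102, nat_lit 0, nat_lit 4, nat_lit 0x48⟩ (t14_6958) (t14_15150)))) (.node ⟨nat_lit 5, nat_lit 0x1000080008, nat_lit 0x11121, nat_lit 2, nat_lit 3, nat_lit 0x46⟩ (.node ⟨nat_lit 7, nat_lit 0x40004000100060, nat_lit 0x212101, nat_lit 1, nat_lit 4, nat_lit 0x49⟩ (.node ⟨nat_lit 4, nat_lit 0x8000c, nat_lit 0x110, nat_lit 7, nat_lit 4, nat_lit 0x45⟩ (t14_1838) (t14_10030)) (.node ⟨nat_lit 7, nat_lit 0x40004000100060, nat_lit 0x212102, nat_lit 0, nat_lit 4, nat_lit 0x49⟩ (t14_5934) (t14_14126))) (.node ⟨nat_lit 7, nat_lit 0x1000100060, nat_lit 0x2001102, nat_lit 6, nat_lit 4, nat_lit 0x4a⟩ (.node ⟨nat_lit 6, nat_lit 0x2800300038, nat_lit 0x1203,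 nat_lit 2, nat_lit 4, nat_lit 0x45⟩ (t14_3886) (t14_12078)) (.node ⟨nat_lit 6, nat_lit 0x2000200030, nat_lit 0x11112, nat_lit 4, nat_lit 4, nat_lit 0x48⟩ (t14_7982) (.nil)))))
def t14_174 : Tr := .node ⟨nat_lit 6, nat_lit 0x800280030, nat_lit 0x111221, nat_lit 2, nat_lit 4, nat_lit 0x48⟩ (.nil) (.nil)
def t14_8366 : Tr := .node ⟨nat_lit 8, nat_lit 0x800040009000a000d0, nat_lit 0x20103, nat_lit 2, nat_lit 4, nat_lit 0x47⟩ (.nil) (.nil)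
def t14_4270 : Tr := .node ⟨nat_lit 7, nat_lit 0x2000500064, nat_lit 0x202011, nat_lit 1, nat_lit 4, nat_lit 0x48⟩ (.nil) (.nil)
def t14_12462 : Tr := .node ⟨nat_lit 8, nat_lit 0x40008000d000d000e0, nat_lit 0x1101103, nat_lit 0, nat_lit 4, nat_lit 0x46⟩ (.nil) (.nil)
def t14_2222 : Tr := .node ⟨nat_lit 8, nat_lit 0x8000400040002000c0, nat_lit 0x102201, nat_lit 2, nat_lit 4, nat_lit 0x49⟩ (.nil) (.nil)
def t14_10414 : Tr := .node ⟨nat_lit 7, nat_lit 0x20005000300060, nat_lit 0x1000202, nat_lit 0, nat_lit 4, nat_lit 0x46⟩ (.nil) (.nil)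
def t14_6318 : Tr := .node ⟨nat_lit 6, nat_lit 0x10001000200032, nat_lit 0x102100, nat_lit 5, nat_lit 4, nat_lit 0x47⟩ (.nil) (.nil)
def t14_14510 : Tr := .node ⟨nat_lit 8, nat_lit 0x8000a000c0, nat_lit 0x111210, nat_lit 2, nat_lit 4, nat_lit 0x4a⟩ (.nil) (.nil)
def t14_1198 : Tr := .node ⟨nat_lit 6, nat_lit 0x200010, nat_lit 0x11012, nat_lit 0, nat_lit 4, nat_lit 0x48⟩ (.nil) (.nil)
def t14_9390 : Tr := .node ⟨nat_lit 6, nat_lit 0x10001000100020, nat_lit 0x202102, nat_lit 3, nat_lit 3, nat_lit 0x47⟩ (.nil) (.nil)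
def t14_5294 : Tr := .node ⟨nat_lit 5, nat_lit 0x180018, nat_lit 0x11120, nat_lit 9, nat_lit 4, nat_lit 0x48⟩ (.nil) (.nil)
def t14_13486 : Tr := .node ⟨nat_lit 7, nat_lit 0x40004000400020, nat_lit 0x11003, nat_lit 0, nat_lit 4, nat_lit 0x48⟩ (.nil) (.nil)
def t14_3246 : Tr := .node ⟨nat_lit 8, nat_lit 0x800020002000a000c0, nat_lit 0x1022110, nat_lit 0, nat_lit 4, nat_lit 0x48⟩ (.nil) (.nil)
def t14_11438 : Tr := .node ⟨nat_lit 6, nat_lit 0x800300030, nat_lit 0x101100, nat_lit 1, nat_lit 4, nat_lit 0x46⟩ (.nil) (.nil)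
def t14_7342 : Tr := .node ⟨nat_lit 7, nat_lit 0x4000400040, nat_lit 0x221000, nat_lit 0, nat_lit 4, nat_lit 0x4a⟩ (.nil) (.nil)
def t14_15534 : Tr := .node ⟨nat_lit 0xa, nat_lit 0x1000080004000200200, nat_lit 0x1000000001, nat_lit 8, nat_lit 4, nat_lit 0x4c⟩ (.nil) (.nil)
def t14_686 : Tr := .node ⟨nat_lit 6, nat_lit 0x10002000240030, nat_lit 0x3201, nat_lit 2, nat_lit 4, nat_lit 0x46⟩ (.nil) (.nil)
def t14_8878 : Tr := .node ⟨nat_lit 9, nat_lit 0x1000100008001100110, nat_lit 0x1110021, nat_lit 2, nat_lit 4, nat_lit 0x4a⟩ (.nil) (.nil)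
def t14_4782 : Tr := .node ⟨nat_lit 8, nat_lit 0x800020004000a000c0, nat_lit 0x101022, nat_lit 2, nat_lit 4, nat_lit 0x48⟩ (.nil) (.nil)
def t14_12974 : Tr := .node ⟨nat_lit 7, nat_lit 0x40001000100068, nat_lit 0x3201, nat_lit 0, nat_lit 4, nat_lit 0x47⟩ (.nil) (.nil)
def t14_2734 : Tr := .node ⟨nat_lit 6, nat_lit 0x300030, nat_lit 0x3020, nat_lit 0, nat_lit 4, nat_lit 0x47⟩ (.nil) (.nil)
def t14_10926 : Tr := .node ⟨nat_lit 9, nat_lit 0x1000080008001400140018001a0, nat_lit 0x201021, nat_lit 2, nat_lit 4, nat_lit 0x47⟩ (.nil) (.nil)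
def t14_6830 : Tr := .node ⟨nat_lit 5, nat_lit 0x10001a, nat_lit 0x1132, nat_lit 4, nat_lit 4, nat_lit 0x47⟩ (.nil) (.nil)
def t14_15022 : Tr := .node ⟨nat_lit 9, nat_lit 0x8000800100011000c000c00180, nat_lit 0x101111110, nat_lit 0, nat_lit 4, nat_lit 0x48⟩ (.nil) (.nil)
def t14_1710 : Tr := .node ⟨nat_lit 9, nat_lit 0x100010000800080014001400180, nat_lit 0x1011112, nat_lit 0, nat_lit 4, nat_lit 0x48⟩ (.nil) (.nil)
def t14_9902 : Tr := .node ⟨nat_lit 4, nat_lit 0xc000c, nat_lit 0x33, nat_lit 0xa, nat_lit 4, nat_lit 0x45⟩ (.nil) (.nil)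
def t14_5806 : Tr := .node ⟨nat_lit 4, nat_lit 8, nat_lit 0x113, nat_lit 9, nat_lit 4, nat_lit 0x48⟩ (.nil) (.nil)
def t14_13998 : Tr := .node ⟨nat_lit 7, nat_lit 0x1000600018, nat_lit 0x1122, nat_lit 1, nat_lit 4, nat_lit 0x47⟩ (.nil) (.nil)
def t14_3758 : Tr := .node ⟨nat_lit 8, nat_lit 0x8000400040004000a000d0, nat_lit 0x121100, nat_lit 0, nat_lit 4, nat_lit 0x47⟩ (.nil) (.nil)
def t14_11950 : Tr := .node ⟨nat_lit 8, nat_lit 0x80004000200010, nat_lit 3, nat_lit 3, nat_lit 4, nat_lit 0x49⟩ (.nil) (.nil)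
def t14_7854 : Tr := .node ⟨nat_lit 8, nat_lit 0x40004000800060008800c0, nat_lit 0x11002, nat_lit 0, nat_lit 4, nat_lit 0x46⟩ (.nil) (.nil)
def t9_174 : Tr := .node ⟨nat_lit 5, nat_lit 0, nat_lit 0x32111, nat_lit 3, nat_lit 4, nat_lit 0x4b⟩ (.node ⟨nat_lit 5, nat_lit 0x10, nat_lit 0x3110, nat_lit 1, nat_lit 4, nat_lit 0x48⟩ (.node ⟨nat_lit 5, nat_lit 0x100018, nat_lit 0x300, nat_lit 2, nat_lit 4, nat_lit 0x46⟩ (.node ⟨nat_lit 4, nat_lit 0x80008, nat_lit 0x210, nat_lit 6, nat_lit 4, nat_lit 0x46⟩ (.node ⟨nat_lit 7, nat_lit 0x40004000100060, nat_lit 0x122021, nat_lit 0, nat_lit 4, nat_lit 0x49⟩ (t14_174) (t14_8366)) (.node ⟨nat_lit 5, nat_lit 0x800100010, nat_lit 0x21010, nat_lit 0, nat_lit 3, nat_lit 0x46⟩ (t14_4270) (t14_12462))) (.node ⟨nat_lit 5, nat_lit 0x10, nat_lit 0x22213, nat_lit 2, nat_lit 4, nat_lit 0x4b⟩ (.node ⟨nat_lit 7, nat_lit 0x40002000100060,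 nat_lit 0x112103, nat_lit 0, nat_lit 4, nat_lit 0x48⟩ (t14_2222) (t14_10414)) (.node ⟨nat_lit 6, nat_lit 0x10002000180024, nat_lit 0x12300, nat_lit 0, nat_lit 4, nat_lit 0x46⟩ (t14_6318) (t14_14510)))) (.node ⟨nat_lit 6, nat_lit 0x30, nat_lit 0x211111, nat_lit 0, nat_lit 4, nat_lit 0x49⟩ (.node ⟨nat_lit 5, nat_lit 0x100018, nat_lit 0x10110, nat_lit 1, nat_lit 3, nat_lit 0x45⟩ (.node ⟨nat_lit 4, nat_lit 0xc, nat_lit 0x4112, nat_lit 0, nat_lit 3, nat_lit 0x47⟩ (t14_1198) (t14_9390)) (.node ⟨nat_lit 7, nat_lit 0x40003000500060, nat_lit 0x112212, nat_lit 0, nat_lit 4, nat_lit 0x47⟩ (t14_5294) (t14_13486))) (.node ⟨nat_lit 4, nat_lit 0x80008, nat_lit 0x1120, nat_lit 3, nat_lit 4, nat_lit 0x46⟩ (.node ⟨nat_lit 6, nat_lit 0x2000080030, nat_lit 0x101001, nat_lit 4, nat_lit 4, nat_lit 0x47⟩ (t14_3246) (t14_11438)) (.node ⟨nat_lit 6, nat_lit 0x1000200030,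 nat_lit 0x11001, nat_lit 3, nat_lit 4, nat_lit 0x47⟩ (t14_7342) (t14_15534))))) (.node ⟨nat_lit 7, nat_lit 0x400020, nat_lit 0x311102, nat_lit 0, nat_lit 4, nat_lit 0x4c⟩ (.node ⟨nat_lit 7, nat_lit 0x2000500060, nat_lit 0x121120, nat_lit 0, nat_lit 4, nat_lit 0x48⟩ (.node ⟨nat_lit 7, nat_lit 0x40004000200068, nat_lit 0x21001, nat_lit 1, nat_lit 4, nat_lit 0x47⟩ (.node ⟨nat_lit 8, nat_lit 0x200080001000c0, nat_lit 0x10020201, nat_lit 1, nat_lit 4, nat_lit 0x4a⟩ (t14_686) (t14_8878)) (.node ⟨nat_lit 7, nat_lit 0x20004000500064, nat_lit 0x1003200, nat_lit 0, nat_lit 4, nat_lit 0x47⟩ (t14_4782) (t14_12974))) (.node ⟨nat_lit 5, nat_lit 0x100008, nat_lit 0x102, nat_lit 1, nat_lit 4, nat_lit 0x45⟩ (.node ⟨nat_lit 6, nat_lit 0x800300030, nat_lit 0x112030, nat_lit 0, nat_lit 3, nat_lit 0x46⟩ (t14_2734) (t14_10926)) (.node ⟨nat_lit 6, nat_lit 0x1000280030,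 nat_lit 0x101120, nat_lit 4, nat_lit 4, nat_lit 0x47⟩ (t14_6830) (t14_15022)))) (.node ⟨nat_lit 4, nat_lit 0x8000a, nat_lit 0x1122, nat_lit 7, nat_lit 4, nat_lit 0x47⟩ (.node ⟨nat_lit 6, nat_lit 0x2000280030, nat_lit 0x22211, nat_lit 0, nat_lit 3, nat_lit 0x46⟩ (.node ⟨nat_lit 6, nat_lit 0x800080030, nat_lit 0x101003, nat_lit 0, nat_lit 4, nat_lit 0x46⟩ (t14_1710) (t14_9902)) (.node ⟨nat_lit 6, nat_lit 0x800100020, nat_lit 0x2230, nat_lit 0, nat_lit 4, nat_lit 0x48⟩ (t14_5806) (t14_13998))) (.node ⟨nat_lit 6, nat_lit 0x800080030, nat_lit 0x200222, nat_lit 1, nat_lit 4, nat_lit 0x48⟩ (.node ⟨nat_lit 6, nat_lit 0x1000300028, nat_lit 0x12003, nat_lit 1, nat_lit 4, nat_lit 0x47⟩ (t14_3758) (t14_11950)) (.node ⟨nat_lit 8, nat_lit 0x8000c000c800c8, nat_lit 0x11110121, nat_lit 0, nat_lit 4, nat_lit 0x48⟩ (t14_7854) (.nil)))))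
def t14_430 : Tr := .node ⟨nat_lit 7, nat_lit 0x4000400060, nat_lit 0x1111201, nat_lit 1, nat_lit 4, nat_lit 0x4a⟩ (.nil) (.nil)
def t14_8622 : Tr := .node ⟨nat_lit 6, nat_lit 0x2000080034, nat_lit 0x100, nat_lit 0, nat_lit 4, nat_lit 0x44⟩ (.nil) (.nil)
def t14_4526 : Tr := .node ⟨nat_lit 8, nat_lit 0x800080002000400090, nat_lit 0x11111011, nat_lit 3, nat_lit 4, nat_lit 0x4a⟩ (.nil) (.nil)
def t14_12718 : Tr := .node ⟨nat_lit 7, nat_lit 0x40001000100060, nat_lit 0x1002100, nat_lit 3, nat_lit 4, nat_lit 0x48⟩ (.nil) (.nil)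
def t14_2478 : Tr := .node ⟨nat_lit 7, nat_lit 0x10006000600050, nat_lit 0x12210, nat_lit 3, nat_lit 4, nat_lit 0x47⟩ (.nil) (.nil)
def t14_10670 : Tr := .node ⟨nat_lit 4, nat_lit 0x8000e, nat_lit 0x100, nat_lit 4, nat_lit 4, nat_lit 0x43⟩ (.nil) (.nil)
def t14_6574 : Tr := .node ⟨nat_lit 7, nat_lit 0x800100060, nat_lit 0x1011111, nat_lit 2, nat_lit 4, nat_lit 0x49⟩ (.nil) (.nil)
def t14_14766 : Tr := .node ⟨nat_lit 7, nat_lit 0x40005000300068, nat_lit 0x1100121, nat_lit 0, nat_lit 4, nat_lit 0x46⟩ (.nil) (.nil)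
def t14_1454 : Tr := .node ⟨nat_lit 8, nat_lit 0x4000800060009000e000e0, nat_lit 0x1121111, nat_lit 0, nat_lit 4, nat_lit 0x46⟩ (.nil) (.nil)
def t14_9646 : Tr := .node ⟨nat_lit 5, nat_lit 0x800080010, nat_lit 0x203, nat_lit 3, nat_lit 3, nat_lit 0x45⟩ (.nil) (.nil)
def t14_5550 : Tr := .node ⟨nat_lit 7, nat_lit 0x400040, nat_lit 0x111131, nat_lit 1, nat_lit 4, nat_lit 0x4b⟩ (.nil) (.nil)
def t14_13742 : Tr := .node ⟨nat_lit 7, nat_lit 0x40001000480060, nat_lit 0x102110, nat_lit 0, nat_lit 4, nat_lit 0x47⟩ (.nil) (.nil)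
def t14_3502 : Tr := .node ⟨nat_lit 5, nat_lit 0x18001c, nat_lit 0x120, nat_lit 3, nat_lit 4, nat_lit 0x44⟩ (.nil) (.nil)
def t14_11694 : Tr := .node ⟨nat_lit 9, nat_lit 0x100008000800140019001a001a0, nat_lit 0x11010210, nat_lit 0, nat_lit 4, nat_lit 0x46⟩ (.nil) (.nil)
def t14_7598 : Tr := .node ⟨nat_lit 7, nat_lit 0x10004000400060, nat_lit 0x113, nat_lit 0, nat_lit 4, nat_lit 0x47⟩ (.nil) (.nil)
def t14_942 : Tr := .node ⟨nat_lit 8, nat_lit 0x800040004000400020, nat_lit 0x102201, nat_lit 3, nat_lit 4, nat_lit 0x4a⟩ (.nil) (.nil)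
def t14_9134 : Tr := .node ⟨nat_lit 7, nat_lit 0x400050006000600070, nat_lit 0x100220, nat_lit 3, nat_lit 4, nat_lit 0x46⟩ (.nil) (.nil)
def t14_5038 : Tr := .node ⟨nat_lit 7, nat_lit 0x20005000680070, nat_lit 0x110113, nat_lit 2, nat_lit 4, nat_lit 0x46⟩ (.nil) (.nil)
def t14_13230 : Tr := .node ⟨nat_lit 7, nat_lit 0x40002000100068, nat_lit 0x13010, nat_lit 0, nat_lit 4, nat_lit 0x47⟩ (.nil) (.nil)
def t14_2990 : Tr := .node ⟨nat_lit 7, nat_lit 0x10002000500060, nat_lit 0x100021, nat_lit 0, nat_lit 4, nat_lit 0x46⟩ (.nil) (.nil)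
def t14_11182 : Tr := .node ⟨nat_lit 7, nat_lit 0x10001000600060, nat_lit 0x1011020, nat_lit 0, nat_lit 4, nat_lit 0x47⟩ (.nil) (.nil)
def t14_7086 : Tr := .node ⟨nat_lit 8, nat_lit 0x80009000c000c000d0, nat_lit 0x10100112, nat_lit 1, nat_lit 4, nat_lit 0x47⟩ (.nil) (.nil)
def t14_15278 : Tr := .node ⟨nat_lit 7, nat_lit 0x40001000600050, nat_lit 0x10212, nat_lit 4, nat_lit 4, nat_lit 0x48⟩ (.nil) (.nil)
def t14_1966 : Tr := .node ⟨nat_lit 6, nat_lit 0x800300038, nat_lit 0x200212, nat_lit 1, nat_lit 4, nat_lit 0x46⟩ (.nil) (.nil)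
def t14_10158 : Tr := .node ⟨nat_lit 7, nat_lit 0x4000500060, nat_lit 0x100, nat_lit 0, nat_lit 4, nat_lit 0x46⟩ (.nil) (.nil)
def t14_6062 : Tr := .node ⟨nat_lit 8, nat_lit 0x800080004000c0, nat_lit 0x1111002, nat_lit 1, nat_lit 4, nat_lit 0x4a⟩ (.nil) (.nil)
def t14_14254 : Tr := .node ⟨nat_lit 8, nat_lit 0x800080006000a000d0, nat_lit 0x1011002, nat_lit 1, nat_lit 4, nat_lit 0x47⟩ (.nil) (.nil)
def t14_4014 : Tr := .node ⟨nat_lit 6, nat_lit 0x20001000280038, nat_lit 0x101011, nat_lit 4, nat_lit 4, nat_lit 0x46⟩ (.nil) (.nil)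
def t14_12206 : Tr := .node ⟨nat_lit 7, nat_lit 0x40002000500060, nat_lit 0x111120, nat_lit 3, nat_lit 4, nat_lit 0x48⟩ (.nil) (.nil)
def t14_8110 : Tr := .node ⟨nat_lit 7, nat_lit 0x200040004000300048, nat_lit 0x101104, nat_lit 0, nat_lit 4, nat_lit 0x47⟩ (.nil) (.nil)
def t9_430 : Tr := .node ⟨nat_lit 5, nat_lit 0x10, nat_lit 0x23112, nat_lit 4, nat_lit 4, nat_lit 0x4b⟩ (.node ⟨nat_lit 6, nat_lit 0x10001000200022, nat_lit 0x302211, nat_lit 0, nat_lit 4, nat_lit 0x48⟩ (.node ⟨nat_lit 6, nat_lit 0x300028, nat_lit 0x2212, nat_lit 2, nat_lit 4, nat_lit 0x48⟩ (.node ⟨nat_lit 6, nat_lit 0x1800280030, nat_lit 0x110312, nat_lit 1, nat_lit 4, nat_lit 0x46⟩ (.node ⟨nat_lit 7, nat_lit 0x6000180018, nat_lit 0x2100120, nat_lit 0, nat_lit 4, nat_lit 0x47⟩ (t14_430) (t14_8622)) (.node ⟨nat_lit 6, nat_lit 0x800280030, nat_lit 0x112122, nat_lit 1, nat_lit 4,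 nat_lit 0x48⟩ (t14_4526) (t14_12718))) (.node ⟨nat_lit 4, nat_lit 0xc, nat_lit 0x2011, nat_lit 6, nat_lit 3, nat_lit 0x46⟩ (.node ⟨nat_lit 7, nat_lit 0x40002000100060, nat_lit 0x111103, nat_lit 1, nat_lit 4, nat_lit 0x48⟩ (t14_2478) (t14_10670)) (.node ⟨nat_lit 7, nat_lit 0x10002000500060, nat_lit 0x12013, nat_lit 0, nat_lit 4, nat_lit 0x47⟩ (t14_6574) (t14_14766)))) (.node ⟨nat_lit 5, nat_lit 0x80010, nat_lit 0x10210, nat_lit 1, nat_lit 4, nat_lit 0x46⟩ (.node ⟨nat_lit 7, nat_lit 0x40004000400020, nat_lit 0x212111, nat_lit 1, nat_lit 4, nat_lit 0x4a⟩ (.node ⟨nat_lit 6, nat_lit 0x2000100010, nat_lit 0x2100, nat_lit 0, nat_lit 4, nat_lit 0x46⟩ (t14_1454) (t14_9646)) (.node ⟨nat_lit 6, nat_lit 0x2000200010, nat_lit 0x111210, nat_lit 7, nat_lit 4, nat_lit 0x4a⟩ (t14_5550) (t14_13742))) (.node ⟨nat_lit 5, nat_lit 0x100012, nat_lit 0x1122, nat_lit 3,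 nat_lit 4, nat_lit 0x47⟩ (.node ⟨nat_lit 7, nat_lit 0x40001000600070, nat_lit 0x10003, nat_lit 5, nat_lit 4, nat_lit 0x47⟩ (t14_3502) (t14_11694)) (.node ⟨nat_lit 7, nat_lit 0x4000100060, nat_lit 0x1111211, nat_lit 2, nat_lit 4, nat_lit 0x4a⟩ (t14_7598) (.nil))))) (.node ⟨nat_lit 5, nat_lit 0x100018, nat_lit 0x3210, nat_lit 3, nat_lit 4, nat_lit 0x48⟩ (.node ⟨nat_lit 5, nat_lit 0x40018, nat_lit 0x22131, nat_lit 0, nat_lit 4, nat_lit 0x48⟩ (.node ⟨nat_lit 5, nat_lit 0x1000080018, nat_lit 0x11121, nat_lit 1, nat_lit 3, nat_lit 0x45⟩ (.node ⟨nat_lit 2, nat_lit 2, nat_lit 0x13, nat_lit 0x13, nat_lit 4, nat_lit 0x47⟩ (t14_942) (t14_9134)) (.node ⟨nat_lit 7, nat_lit 0x400020, nat_lit 0x1122200, nat_lit 1, nat_lit 4, nat_lit 0x4c⟩ (t14_5038) (t14_13230))) (.node ⟨nat_lit 6, nat_lit 0x200030, nat_lit 0x112120, nat_lit 0, nat_lit 4, nat_lit 0x49⟩ (.node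 ⟨nat_lit 5, nat_lit 0x10, nat_lit 0x11112, nat_lit 7, nat_lit 4, nat_lit 0x4a⟩ (t14_2990) (t14_11182)) (.node ⟨nat_lit 7, nat_lit 0x4800500060, nat_lit 0x111021, nat_lit 0, nat_lit 4, nat_lit 0x47⟩ (t14_7086) (t14_15278)))) (.node ⟨nat_lit 5, nat_lit 0x100008, nat_lit 0x2100, nat_lit 1, nat_lit 4, nat_lit 0x46⟩ (.node ⟨nat_lit 5, nat_lit 0x1000140014, nat_lit 0x12111, nat_lit 5, nat_lit 4, nat_lit 0x47⟩ (.node ⟨nat_lit 7, nat_lit 0x800400070, nat_lit 0x1110013, nat_lit 1, nat_lit 4, nat_lit 0x48⟩ (t14_1966) (t14_10158)) (.node ⟨nat_lit 7, nat_lit 0x4000400060, nat_lit 0x21200, nat_lit 1, nat_lit 4, nat_lit 0x49⟩ (t14_6062) (t14_14254))) (.node ⟨nat_lit 7, nat_lit 0x40002000200020, nat_lit 0x20111, nat_lit 2, nat_lit 4, nat_lit 0x49⟩ (.node ⟨nat_lit 6, nat_lit 0x300028, nat_lit 0x1102, nat_lit 0, nat_lit 4, nat_lit 0x46⟩ (t14_4014) (t14_12206))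 (.node ⟨nat_lit 9, nat_lit 0x8001000100011000c001a001c0, nat_lit 0x11211010, nat_lit 0, nat_lit 4, nat_lit 0x47⟩ (t14_8110) (.nil)))))
def t14_110 : Tr := .node ⟨nat_lit 6, nat_lit 0x2000080030, nat_lit 0x112121, nat_lit 2, nat_lit 4, nat_lit 0x49⟩ (.nil) (.nil)
def t14_8302 : Tr := .node ⟨nat_lit 6, nat_lit 0x800200030, nat_lit 0x230, nat_lit 0, nat_lit 4, nat_lit 0x46⟩ (.nil) (.nil)
def t14_4206 : Tr := .node ⟨nat_lit 8, nat_lit 0x800080002000400090, nat_lit 0x1112111, nat_lit 1, nat_lit 4, nat_lit 0x49⟩ (.nil) (.nil)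
def t14_12398 : Tr := .node ⟨nat_lit 8, nat_lit 0x400080008000c800e0, nat_lit 0x111103, nat_lit 1, nat_lit 4, nat_lit 0x47⟩ (.nil) (.nil)
def t14_2158 : Tr := .node ⟨nat_lit 7, nat_lit 0x40002000480064, nat_lit 0x212020, nat_lit 1, nat_lit 4, nat_lit 0x48⟩ (.nil) (.nil)
def t14_10350 : Tr := .node ⟨nat_lit 8, nat_lit 0x200080008800c000c8, nat_lit 0x2002, nat_lit 2, nat_lit 4, nat_lit 0x47⟩ (.nil) (.nil)
def t14_6254 : Tr := .node ⟨nat_lit 5, nat_lit 0x100010, nat_lit 0x11111, nat_lit 4, nat_lit 3, nat_lit 0x47⟩ (.nil) (.nil)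
def t14_14446 : Tr := .node ⟨nat_lit 7, nat_lit 0x200040004000400068, nat_lit 0x21111, nat_lit 2, nat_lit 4, nat_lit 0x47⟩ (.nil) (.nil)
def t14_1134 : Tr := .node ⟨nat_lit 7, nat_lit 0x1000080060, nat_lit 0x1100021, nat_lit 1, nat_lit 4, nat_lit 0x48⟩ (.nil) (.nil)
def t14_9326 : Tr := .node ⟨nat_lit 9, nat_lit 0x10000400120012001400180, nat_lit 0x10101021, nat_lit 2, nat_lit 4, nat_lit 0x48⟩ (.nil) (.nil)
def t14_5230 : Tr := .node ⟨nat_lit 6, nat_lit 0x2000200010002c, nat_lit 0x2011, nat_lit 1, nat_lit 4, nat_lit 0x45⟩ (.nil) (.nil)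
def t14_13422 : Tr := .node ⟨nat_lit 5, nat_lit 0x800100010, nat_lit 0x20400, nat_lit 2, nat_lit 3, nat_lit 0x46⟩ (.nil) (.nil)
def t14_3182 : Tr := .node ⟨nat_lit 7, nat_lit 0x10004000600070, nat_lit 0x112121, nat_lit 0, nat_lit 4, nat_lit 0x47⟩ (.nil) (.nil)
def t14_11374 : Tr := .node ⟨nat_lit 7, nat_lit 0x400020, nat_lit 0x11001, nat_lit 0, nat_lit 3, nat_lit 0x48⟩ (.nil) (.nil)
def t14_7278 : Tr := .node ⟨nat_lit 7, nat_lit 0x40004000480030, nat_lit 0x210201, nat_lit 1, nat_lit 4, nat_lit 0x48⟩ (.nil) (.nil)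
def t14_15470 : Tr := .node ⟨nat_lit 0xa, nat_lit 0x2000100008000400020, nat_lit 0, nat_lit 0xb, nat_lit 4, nat_lit 0x4c⟩ (.nil) (.nil)
def t14_622 : Tr := .node ⟨nat_lit 8, nat_lit 0x800080004000400090, nat_lit 0x200220, nat_lit 1, nat_lit 4, nat_lit 0x49⟩ (.nil) (.nil)
def t14_8814 : Tr := .node ⟨nat_lit 6, nat_lit 0x2000100024, nat_lit 0x113203, nat_lit 0, nat_lit 4, nat_lit 0x49⟩ (.nil) (.nil)
def t14_4718 : Tr := .node ⟨nat_lit 8, nat_lit 0x800080002000400090, nat_lit 0x11010020, nat_lit 0, nat_lit 4, nat_lit 0x49⟩ (.nil) (.nil)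
def t14_12910 : Tr := .node ⟨nat_lit 8, nat_lit 0x8000800040004800a000e0, nat_lit 0x10112000, nat_lit 0, nat_lit 4, nat_lit 0x47⟩ (.nil) (.nil)
def t14_2670 : Tr := .node ⟨nat_lit 6, nat_lit 0x800300030, nat_lit 0x1041, nat_lit 1, nat_lit 4, nat_lit 0x46⟩ (.nil) (.nil)
def t14_10862 : Tr := .node ⟨nat_lit 9, nat_lit 0x10000800080004000400180, nat_lit 0x20102, nat_lit 3, nat_lit 4, nat_lit 0x49⟩ (.nil) (.nil)
def t14_6766 : Tr := .node ⟨nat_lit 6, nat_lit 0x200030, nat_lit 0x1100, nat_lit 5, nat_lit 4, nat_lit 0x48⟩ (.nil) (.nil)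
def t14_14958 : Tr := .node ⟨nat_lit 8, nat_lit 0x800040004000a000c000d0, nat_lit 0x111111, nat_lit 0, nat_lit 4, nat_lit 0x46⟩ (.nil) (.nil)
def t14_1646 : Tr := .node ⟨nat_lit 7, nat_lit 0x40002000480068, nat_lit 0x11200, nat_lit 0, nat_lit 4, nat_lit 0x46⟩ (.nil) (.nil)
def t14_9838 : Tr := .node ⟨nat_lit 9, nat_lit 0x10000800120018000c00190, nat_lit 0x121200, nat_lit 0, nat_lit 4, nat_lit 0x47⟩ (.nil) (.nil)
def t14_5742 : Tr := .node ⟨nat_lit 9, nat_lit 0x40010001000180, nat_lit 0x110220, nat_lit 1, nat_lit 4, nat_lit 0x4b⟩ (.nil) (.nil)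
def t14_13934 : Tr := .node ⟨nat_lit 8, nat_lit 0x80008800a000c8, nat_lit 0x11002, nat_lit 0, nat_lit 4, nat_lit 0x47⟩ (.nil) (.nil)
def t14_3694 : Tr := .node ⟨nat_lit 6, nat_lit 0x2000100030, nat_lit 0x2021, nat_lit 5, nat_lit 4, nat_lit 0x48⟩ (.nil) (.nil)
def t14_11886 : Tr := .node ⟨nat_lit 5, nat_lit 0x40018, nat_lit 0x44, nat_lit 0, nat_lit 4, nat_lit 0x46⟩ (.nil) (.nil)
def t14_7790 : Tr := .node ⟨nat_lit 5, nat_lit 0x1000100008, nat_lit 0x102, nat_lit 5, nat_lit 3, nat_lit 0x45⟩ (.nil) (.nil)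
def t9_110 : Tr := .node ⟨nat_lit 6, nat_lit 0x200020, nat_lit 0x111111, nat_lit 0, nat_lit 3, nat_lit 0x48⟩ (.node ⟨nat_lit 4, nat_lit 0x80008, nat_lit 0x2132, nat_lit 2, nat_lit 3, nat_lit 0x47⟩ (.node ⟨nat_lit 7, nat_lit 0x20004000680068, nat_lit 0x310210, nat_lit 1, nat_lit 4, nat_lit 0x48⟩ (.node ⟨nat_lit 4, nat_lit 0x80008, nat_lit 0x1121, nat_lit 5, nat_lit 4, nat_lit 0x47⟩ (.node ⟨nat_lit 7, nat_lit 0x40002000200010, nat_lit 0x20222, nat_lit 0, nat_lit 4, nat_lit 0x49⟩ (t14_110) (t14_8302)) (.node ⟨nat_lit 7, nat_lit 0x2000500060, nat_lit 0x2002, nat_lit 0, nat_lit 4, nat_lit 0x47⟩ (t14_4206) (t14_12398))) (.node ⟨nat_lit 7, nat_lit 0x4000200060, nat_lit 0x121011, nat_lit 0, nat_lit 4, nat_lit 0x49⟩ (.node ⟨nat_lit 7, nat_lit 0x10001000500060, nat_lit 0x1102013, nat_lit 0, nat_lit 3, nat_lit 0x46⟩ (t14_2158) (t14_10350)) (.node ⟨nat_lit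 6, nat_lit 0x200032, nat_lit 0x102022, nat_lit 0, nat_lit 4, nat_lit 0x48⟩ (t14_6254) (t14_14446)))) (.node ⟨nat_lit 4, nat_lit 0x40008, nat_lit 0x2122, nat_lit 4, nat_lit 3, nat_lit 0x46⟩ (.node ⟨nat_lit 4, nat_lit 0xc, nat_lit 0x2211, nat_lit 9, nat_lit 4, nat_lit 0x49⟩ (.node ⟨nat_lit 6, nat_lit 0x800080030, nat_lit 0x101113, nat_lit 0, nat_lit 4, nat_lit 0x47⟩ (t14_1134) (t14_9326)) (.node ⟨nat_lit 6, nat_lit 0x300038, nat_lit 0x112112, nat_lit 1, nat_lit 4, nat_lit 0x48⟩ (t14_5230) (t14_13422))) (.node ⟨nat_lit 5, nat_lit 0x18, nat_lit 0x21210, nat_lit 2, nat_lit 4, nat_lit 0x49⟩ (.node ⟨nat_lit 7, nat_lit 0x500060, nat_lit 0x1201103, nat_lit 0, nat_lit 4, nat_lit 0x4a⟩ (t14_3182) (t14_11374)) (.node ⟨nat_lit 5, nat_lit 0x40018, nat_lit 0x11002, nat_lit 9, nat_lit 4, nat_lit 0x48⟩ (t14_7278) (t14_15470))))) (.node ⟨nat_lit 5, nat_lit 0x1000080014,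 nat_lit 0x3020, nat_lit 3, nat_lit 4, nat_lit 0x47⟩ (.node ⟨nat_lit 6, nat_lit 0x2000080034, nat_lit 0x200211, nat_lit 1, nat_lit 4, nat_lit 0x47⟩ (.node ⟨nat_lit 5, nat_lit 0x800080010, nat_lit 0x20111, nat_lit 4, nat_lit 4, nat_lit 0x47⟩ (.node ⟨nat_lit 7, nat_lit 0x400040, nat_lit 0x2111120, nat_lit 0, nat_lit 4, nat_lit 0x4c⟩ (t14_622) (t14_8814)) (.node ⟨nat_lit 7, nat_lit 0x40002000200064, nat_lit 0x1112211, nat_lit 0, nat_lit 4, nat_lit 0x49⟩ (t14_4718) (t14_12910))) (.node ⟨nat_lit 6, nat_lit 0x1000280034, nat_lit 0x11112, nat_lit 0, nat_lit 4, nat_lit 0x45⟩ (.node ⟨nat_lit 5, nat_lit 0x40018, nat_lit 0x22103, nat_lit 3, nat_lit 4, nat_lit 0x49⟩ (t14_2670) (t14_10862)) (.node ⟨nat_lit 6, nat_lit 0x800300030, nat_lit 0x112022, nat_lit 0, nat_lit 3, nat_lit 0x46⟩ (t14_6766) (t14_14958)))) (.node ⟨nat_lit 5, nat_lit 0x18, nat_lit 0x20311,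 nat_lit 2, nat_lit 3, nat_lit 0x48⟩ (.node ⟨nat_lit 6, nat_lit 0x2000280034, nat_lit 0x12111, nat_lit 3, nat_lit 4, nat_lit 0x47⟩ (.node ⟨nat_lit 6, nat_lit 0x1000280030, nat_lit 0x11, nat_lit 1, nat_lit 4, nat_lit 0x44⟩ (t14_1646) (t14_9838)) (.node ⟨nat_lit 6, nat_lit 0x2000100032, nat_lit 0x121220, nat_lit 2, nat_lit 4, nat_lit 0x49⟩ (t14_5742) (t14_13934))) (.node ⟨nat_lit 6, nat_lit 0x2000200024, nat_lit 0x121010, nat_lit 5, nat_lit 4, nat_lit 0x49⟩ (.node ⟨nat_lit 6, nat_lit 0x200030, nat_lit 0x12100, nat_lit 0, nat_lit 4, nat_lit 0x48⟩ (t14_3694) (t14_11886)) (.node ⟨nat_lit 6, nat_lit 0x800300030, nat_lit 0x110221, nat_lit 3, nat_lit 4, nat_lit 0x47⟩ (t14_7790) (.nil)))))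
def t14_366 : Tr := .node ⟨nat_lit 7, nat_lit 0x5000600060, nat_lit 0x1012311, nat_lit 0, nat_lit 4, nat_lit 0x48⟩ (.nil) (.nil)
def t14_8558 : Tr := .node ⟨nat_lit 7, nat_lit 0x10004000440060, nat_lit 0x130, nat_lit 0, nat_lit 4, nat_lit 0x46⟩ (.nil) (.nil)
def t14_4462 : Tr := .node ⟨nat_lit 0xa, nat_lit 0x200010000400080, nat_lit 0x11110001, nat_lit 2, nat_lit 4, nat_lit 0x4d⟩ (.nil) (.nil)
def t14_12654 : Tr := .node ⟨nat_lit 7, nat_lit 0x40002000500060, nat_lit 0x103102, nat_lit 2, nat_lit 4, nat_lit 0x48⟩ (.nil) (.nil)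
def t14_2414 : Tr := .node ⟨nat_lit 7, nat_lit 0x2000500060, nat_lit 0x101202, nat_lit 0, nat_lit 4, nat_lit 0x48⟩ (.nil) (.nil)
def t14_10606 : Tr := .node ⟨nat_lit 4, nat_lit 0, nat_lit 0, nat_lit 2, nat_lit 4, nat_lit 0x44⟩ (.nil) (.nil)
def t14_6510 : Tr := .node ⟨nat_lit 8, nat_lit 0x10008000a400c4, nat_lit 0x11100111, nat_lit 0, nat_lit 4, nat_lit 0x48⟩ (.nil) (.nil)
def t14_14702 : Tr := .node ⟨nat_lit 9, nat_lit 0x8001000100012000c0019001a0, nat_lit 0x1010111, nat_lit 2, nat_lit 4, nat_lit 0x46⟩ (.nil) (.nil)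
def t14_1390 : Tr := .node ⟨nat_lit 7, nat_lit 0x30005000500060, nat_lit 0x103101, nat_lit 3, nat_lit 4, nat_lit 0x46⟩ (.nil) (.nil)
def t14_9582 : Tr := .node ⟨nat_lit 8, nat_lit 0x200080004000c000c8, nat_lit 0x2120, nat_lit 1, nat_lit 4, nat_lit 0x47⟩ (.nil) (.nil)
def t14_5486 : Tr := .node ⟨nat_lit 7, nat_lit 0x20004000100044, nat_lit 0x10310, nat_lit 1, nat_lit 4, nat_lit 0x48⟩ (.nil) (.nil)
def t14_13678 : Tr := .node ⟨nat_lit 7, nat_lit 0x20004000100060, nat_lit 0x22110, nat_lit 0, nat_lit 4, nat_lit 0x48⟩ (.nil) (.nil)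
def t14_3438 : Tr := .node ⟨nat_lit 7, nat_lit 0x20004000100060, nat_lit 0x20021, nat_lit 1, nat_lit 4, nat_lit 0x48⟩ (.nil) (.nil)
def t14_11630 : Tr := .node ⟨nat_lit 8, nat_lit 0x40004000a000a000c0, nat_lit 0x10103, nat_lit 1, nat_lit 4, nat_lit 0x47⟩ (.nil) (.nil)
def t14_7534 : Tr := .node ⟨nat_lit 8, nat_lit 0x200080004000c000c8, nat_lit 0x2031, nat_lit 1, nat_lit 4, nat_lit 0x47⟩ (.nil) (.nil)
def t14_878 : Tr := .node ⟨nat_lit 7, nat_lit 0x400020002000500068, nat_lit 0x131110, nat_lit 0, nat_lit 4, nat_lit 0x47⟩ (.nil) (.nil)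
def t14_9070 : Tr := .node ⟨nat_lit 6, nat_lit 0x800280030, nat_lit 0x10112, nat_lit 2, nat_lit 4, nat_lit 0x46⟩ (.nil) (.nil)
def t14_4974 : Tr := .node ⟨nat_lit 7, nat_lit 0x4000600050, nat_lit 0x111301, nat_lit 1, nat_lit 4, nat_lit 0x49⟩ (.nil) (.nil)
def t14_13166 : Tr := .node ⟨nat_lit 4, nat_lit 0xe, nat_lit 1, nat_lit 4, nat_lit 4, nat_lit 0x43⟩ (.nil) (.nil)
def t14_2926 : Tr := .node ⟨nat_lit 7, nat_lit 0x20004000600060, nat_lit 0x13120, nat_lit 0, nat_lit 4, nat_lit 0x48⟩ (.nil) (.nil)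
def t14_11118 : Tr := .node ⟨nat_lit 6, nat_lit 0x300030, nat_lit 0x1120, nat_lit 6, nat_lit 4, nat_lit 0x48⟩ (.nil) (.nil)
def t14_7022 : Tr := .node ⟨nat_lit 7, nat_lit 0x20006000600050, nat_lit 0x1011211, nat_lit 0, nat_lit 4, nat_lit 0x47⟩ (.nil) (.nil)
def t14_15214 : Tr := .node ⟨nat_lit 7, nat_lit 0x400020002800500068, nat_lit 0x1001002, nat_lit 1, nat_lit 4, nat_lit 0x45⟩ (.nil) (.nil)
def t14_1902 : Tr := .node ⟨nat_lit 7, nat_lit 0x2000600050, nat_lit 0x21012, nat_lit 0, nat_lit 4, nat_lit 0x48⟩ (.nil) (.nil)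
def t14_10094 : Tr := .node ⟨nat_lit 5, nat_lit 0x800100018, nat_lit 0x233, nat_lit 3, nat_lit 4, nat_lit 0x46⟩ (.nil) (.nil)
def t14_5998 : Tr := .node ⟨nat_lit 6, nat_lit 0x300028, nat_lit 0x102210, nat_lit 3, nat_lit 4, nat_lit 0x49⟩ (.nil) (.nil)
def t14_14190 : Tr := .node ⟨nat_lit 8, nat_lit 0x80001000a000c0, nat_lit 0x1112002, nat_lit 0, nat_lit 4, nat_lit 0x49⟩ (.nil) (.nil)
def t14_3950 : Tr := .node ⟨nat_lit 7, nat_lit 0x400040002000200050, nat_lit 0x121100, nat_lit 2, nat_lit 4, nat_lit 0x48⟩ (.nil) (.nil)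
def t14_12142 : Tr := .node ⟨nat_lit 7, nat_lit 0x4000600050, nat_lit 0x11310, nat_lit 3, nat_lit 4, nat_lit 0x49⟩ (.nil) (.nil)
def t14_8046 : Tr := .node ⟨nat_lit 7, nat_lit 0x40001000480060, nat_lit 0x111130, nat_lit 0, nat_lit 4, nat_lit 0x47⟩ (.nil) (.nil)
def t9_366 : Tr := .node ⟨nat_lit 5, nat_lit 0x10, nat_lit 0x13320, nat_lit 1, nat_lit 4, nat_lit 0x4b⟩ (.node ⟨nat_lit 6, nat_lit 0x200030, nat_lit 0x103120, nat_lit 1, nat_lit 3, nat_lit 0x48⟩ (.node ⟨nat_lit 5, nat_lit 0x18, nat_lit 0x20210, nat_lit 1, nat_lit 4, nat_lit 0x47⟩ (.node ⟨nat_lit 6, nat_lit 0x2000240018, nat_lit 0x111202, nat_lit 0, nat_lit 4, nat_lit 0x47⟩ (.node ⟨nat_lit 7, nat_lit 0x40002000100060, nat_lit 0x20212, nat_lit 1, nat_lit 4, nat_lit 0x48⟩ (t14_366) (t14_8558)) (.node ⟨nat_lit 8, nat_lit 0x800080004000200090, nat_lit 0x11120011, nat_lit 1, nat_lit 4, nat_lit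 0x4a⟩ (t14_4462) (t14_12654))) (.node ⟨nat_lit 4, nat_lit 0x8000c, nat_lit 0x1211, nat_lit 8, nat_lit 4, nat_lit 0x47⟩ (.node ⟨nat_lit 6, nat_lit 0x800280030, nat_lit 0x110131, nat_lit 3, nat_lit 4, nat_lit 0x47⟩ (t14_2414) (t14_10606)) (.node ⟨nat_lit 6, nat_lit 0x200030, nat_lit 0x2230, nat_lit 2, nat_lit 4, nat_lit 0x49⟩ (t14_6510) (t14_14702)))) (.node ⟨nat_lit 6, nat_lit 0x2000100024, nat_lit 0x211100, nat_lit 1, nat_lit 4, nat_lit 0x48⟩ (.node ⟨nat_lit 6, nat_lit 0x20, nat_lit 0x222211, nat_lit 0, nat_lit 4, nat_lit 0x4c⟩ (.node ⟨nat_lit 5, nat_lit 0x40018, nat_lit 0x10103, nat_lit 3, nat_lit 4, nat_lit 0x46⟩ (t14_1390) (t14_9582)) (.node ⟨nat_lit 7, nat_lit 0x200020002000400070, nat_lit 0x1021012, nat_lit 3, nat_lit 4, nat_lit 0x48⟩ (t14_5486) (t14_13678))) (.node ⟨nat_lit 6, nat_lit 0x80030, nat_lit 0x301112, nat_lit 4, nat_lit 4, nat_lit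 0x4a⟩ (.node ⟨nat_lit 5, nat_lit 0x10001c001c, nat_lit 0x20000, nat_lit 5, nat_lit 4, nat_lit 0x45⟩ (t14_3438) (t14_11630)) (.node ⟨nat_lit 6, nat_lit 0x200020, nat_lit 0x111011, nat_lit 1, nat_lit 3, nat_lit 0x48⟩ (t14_7534) (.nil))))) (.node ⟨nat_lit 6, nat_lit 0x2000080030, nat_lit 0x211301, nat_lit 1, nat_lit 4, nat_lit 0x49⟩ (.node ⟨nat_lit 5, nat_lit 0x10, nat_lit 0x12220, nat_lit 0, nat_lit 4, nat_lit 0x49⟩ (.node ⟨nat_lit 6, nat_lit 0x20001000100028, nat_lit 0x112111, nat_lit 0, nat_lit 4, nat_lit 0x47⟩ (.node ⟨nat_lit 5, nat_lit 0x100008, nat_lit 0x3120, nat_lit 2, nat_lit 4, nat_lit 0x48⟩ (t14_878) (t14_9070)) (.node ⟨nat_lit 6, nat_lit 0x280030, nat_lit 0x122102, nat_lit 1, nat_lit 4, nat_lit 0x49⟩ (t14_4974) (t14_13166))) (.node ⟨nat_lit 5, nat_lit 0x1000140018, nat_lit 0x12102, nat_lit 4, nat_lit 4, nat_lit 0x47⟩ (.node ⟨nat_lit 5,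 nat_lit 0x1000080014, nat_lit 0x11211, nat_lit 8, nat_lit 4, nat_lit 0x48⟩ (t14_2926) (t14_11118)) (.node ⟨nat_lit 7, nat_lit 0x400020002000500070, nat_lit 0x1022100, nat_lit 0, nat_lit 4, nat_lit 0x47⟩ (t14_7022) (t14_15214)))) (.node ⟨nat_lit 6, nat_lit 0x200010, nat_lit 0x2102, nat_lit 1, nat_lit 4, nat_lit 0x48⟩ (.node ⟨nat_lit 7, nat_lit 0x20004000500064, nat_lit 0x1121011, nat_lit 1, nat_lit 4, nat_lit 0x48⟩ (.node ⟨nat_lit 7, nat_lit 0x40003000500060, nat_lit 0x110411, nat_lit 0, nat_lit 4, nat_lit 0x47⟩ (t14_1902) (t14_10094)) (.node ⟨nat_lit 7, nat_lit 0x20004000600064, nat_lit 0x20203, nat_lit 0, nat_lit 4, nat_lit 0x47⟩ (t14_5998) (t14_14190))) (.node ⟨nat_lit 6, nat_lit 0x280030, nat_lit 0x120, nat_lit 0, nat_lit 4, nat_lit 0x45⟩ (.node ⟨nat_lit 7, nat_lit 0x40001000600050, nat_lit 0x10203, nat_lit 3, nat_lit 4, nat_lit 0x48⟩ (t14_3950)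 (t14_12142)) (.node ⟨nat_lit 8, nat_lit 0x80009000a0006000d0, nat_lit 0x11011112, nat_lit 1, nat_lit 4, nat_lit 0x47⟩ (t14_8046) (.nil)))))
def t14_238 : Tr := .node ⟨nat_lit 5, nat_lit 0x100018, nat_lit 0x22311, nat_lit 1, nat_lit 3, nat_lit 0x48⟩ (.nil) (.nil)
def t14_8430 : Tr := .node ⟨nat_lit 6, nat_lit 0x3000280028, nat_lit 0x21, nat_lit 4, nat_lit 4, nat_lit 0x45⟩ (.nil) (.nil)
def t14_4334 : Tr := .node ⟨nat_lit 8, nat_lit 0x2000200030002800c0, nat_lit 0x21110100, nat_lit 1, nat_lit 4, nat_lit 0x49⟩ (.nil) (.nil)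
def t14_12526 : Tr := .node ⟨nat_lit 7, nat_lit 0x20001000600050, nat_lit 0x101100, nat_lit 0, nat_lit 4, nat_lit 0x46⟩ (.nil) (.nil)
def t14_2286 : Tr := .node ⟨nat_lit 6, nat_lit 0x800200030, nat_lit 0x2021, nat_lit 5, nat_lit 4, nat_lit 0x48⟩ (.nil) (.nil)
def t14_10478 : Tr := .node ⟨nat_lit 8, nat_lit 0x800040004000a000d000c8, nat_lit 0x1100220, nat_lit 2, nat_lit 4, nat_lit 0x46⟩ (.nil) (.nil)
def t14_6382 : Tr := .node ⟨nat_lit 5, nat_lit 0x800100012, nat_lit 0x22, nat_lit 6, nat_lit 4, nat_lit 0x46⟩ (.nil) (.nil)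
def t14_14574 : Tr := .node ⟨nat_lit 6, nat_lit 0x20001000100030, nat_lit 0x1113, nat_lit 5, nat_lit 4, nat_lit 0x47⟩ (.nil) (.nil)
def t14_1262 : Tr := .node ⟨nat_lit 7, nat_lit 0x40001000480060, nat_lit 0x112102, nat_lit 2, nat_lit 4, nat_lit 0x48⟩ (.nil) (.nil)
def t14_9454 : Tr := .node ⟨nat_lit 8, nat_lit 0x800040005000a000c000e0, nat_lit 0x10110031, nat_lit 2, nat_lit 4, nat_lit 0x47⟩ (.nil) (.nil)
def t14_5358 : Tr := .node ⟨nat_lit 7, nat_lit 0x4000440060, nat_lit 0x1111310, nat_lit 0, nat_lit 4, nat_lit 0x4a⟩ (.nil) (.nil)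
def t14_13550 : Tr := .node ⟨nat_lit 8, nat_lit 0x20001000c0, nat_lit 0x11002, nat_lit 0, nat_lit 4, nat_lit 0x49⟩ (.nil) (.nil)
def t14_3310 : Tr := .node ⟨nat_lit 6, nat_lit 0x20001000380034, nat_lit 0x2210, nat_lit 5, nat_lit 4, nat_lit 0x45⟩ (.nil) (.nil)
def t14_11502 : Tr := .node ⟨nat_lit 5, nat_lit 0x180018, nat_lit 0x10110, nat_lit 4, nat_lit 4, nat_lit 0x46⟩ (.nil) (.nil)
def t14_7406 : Tr := .node ⟨nat_lit 8, nat_lit 0x800080004000c0, nat_lit 0x1210012, nat_lit 0, nat_lit 4, nat_lit 0x4a⟩ (.nil) (.nil)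
def t14_750 : Tr := .node ⟨nat_lit 6, nat_lit 0x2000080030, nat_lit 0x1113, nat_lit 0, nat_lit 4, nat_lit 0x46⟩ (.nil) (.nil)
def t14_8942 : Tr := .node ⟨nat_lit 6, nat_lit 0x2000300030, nat_lit 0x1230, nat_lit 3, nat_lit 4, nat_lit 0x47⟩ (.nil) (.nil)
def t14_4846 : Tr := .node ⟨nat_lit 8, nat_lit 0x20008000c00030, nat_lit 0x10111012, nat_lit 0, nat_lit 4, nat_lit 0x49⟩ (.nil) (.nil)
def t14_13038 : Tr := .node ⟨nat_lit 7, nat_lit 0x40004800480030, nat_lit 0x102100, nat_lit 1, nat_lit 4, nat_lit 0x47⟩ (.nil) (.nil)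
def t14_2798 : Tr := .node ⟨nat_lit 7, nat_lit 0x20002000400042, nat_lit 0x110020, nat_lit 1, nat_lit 4, nat_lit 0x48⟩ (.nil) (.nil)
def t14_10990 : Tr := .node ⟨nat_lit 8, nat_lit 0x40008000c000a000c8, nat_lit 0x101212, nat_lit 2, nat_lit 4, nat_lit 0x47⟩ (.nil) (.nil)
def t14_6894 : Tr := .node ⟨nat_lit 7, nat_lit 0x4000400040, nat_lit 0x111110, nat_lit 3, nat_lit 4, nat_lit 0x4a⟩ (.nil) (.nil)
def t14_15086 : Tr := .node ⟨nat_lit 8, nat_lit 0x8000800040002000c0, nat_lit 0x1120111, nat_lit 0, nat_lit 4, nat_lit 0x49⟩ (.nil) (.nil)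
def t14_1774 : Tr := .node ⟨nat_lit 7, nat_lit 0x20002000500068, nat_lit 0x1020021, nat_lit 3, nat_lit 4, nat_lit 0x48⟩ (.nil) (.nil)
def t14_9966 : Tr := .node ⟨nat_lit 5, nat_lit 0x180018, nat_lit 0x120, nat_lit 6, nat_lit 4, nat_lit 0x46⟩ (.nil) (.nil)
def t14_5870 : Tr := .node ⟨nat_lit 7, nat_lit 0x60, nat_lit 0x1011101, nat_lit 0, nat_lit 4, nat_lit 0x4a⟩ (.nil) (.nil)
def t14_14062 : Tr := .node ⟨nat_lit 7, nat_lit 0x40001000480068, nat_lit 0x110100, nat_lit 1, nat_lit 4, nat_lit 0x46⟩ (.nil) (.nil)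
def t14_3822 : Tr := .node ⟨nat_lit 8, nat_lit 0x80008000400040004000a0, nat_lit 0x10022110, nat_lit 1, nat_lit 4, nat_lit 0x49⟩ (.nil) (.nil)
def t14_12014 : Tr := .node ⟨nat_lit 6, nat_lit 0x2000100030, nat_lit 0x11310, nat_lit 2, nat_lit 4, nat_lit 0x48⟩ (.nil) (.nil)
def t14_7918 : Tr := .node ⟨nat_lit 8, nat_lit 0x8000200090009000d0, nat_lit 0x1010213, nat_lit 0, nat_lit 4, nat_lit 0x47⟩ (.nil) (.nil)
def t9_238 : Tr := .node ⟨nat_lit 6, nat_lit 0x200010, nat_lit 0x13202, nat_lit 0, nat_lit 4, nat_lit 0x4a⟩ (.node ⟨nat_lit 6, nat_lit 0x20001000280038, nat_lit 0x301012, nat_lit 1, nat_lit 4, nat_lit 0x47⟩ (.node ⟨nat_lit 7, nat_lit 0x200040004000480030, nat_lit 0x1311111, nat_lit 0, nat_lit 4, nat_lit 0x49⟩ (.node ⟨nat_lit 6, nat_lit 0x2000080030, nat_lit 0x111230, nat_lit 0, nat_lit 4, nat_lit 0x48⟩ (.node ⟨nat_lit 8, nat_lit 0x8000800040,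 nat_lit 0x2111102, nat_lit 0, nat_lit 4, nat_lit 0x4c⟩ (t14_238) (t14_8430)) (.node ⟨nat_lit 7, nat_lit 0x10001000500060, nat_lit 0x1102130, nat_lit 0, nat_lit 4, nat_lit 0x48⟩ (t14_4334) (t14_12526))) (.node ⟨nat_lit 7, nat_lit 0x400020, nat_lit 0x221102, nat_lit 2, nat_lit 4, nat_lit 0x4c⟩ (.node ⟨nat_lit 5, nat_lit 0x1000080018, nat_lit 0x1323, nat_lit 4, nat_lit 4, nat_lit 0x47⟩ (t14_2286) (t14_10478)) (.node ⟨nat_lit 6, nat_lit 0x1000200034, nat_lit 0x121120, nat_lit 4, nat_lit 4, nat_lit 0x49⟩ (t14_6382) (t14_14574)))) (.node ⟨nat_lit 1, nat_lit 0, nat_lit 3, nat_lit 0x13, nat_lit 4, nat_lit 0x47⟩ (.node ⟨nat_lit 6, nat_lit 0x30, nat_lit 0x211111, nat_lit 5, nat_lit 4, nat_lit 0x4b⟩ (.node ⟨nat_lit 7, nat_lit 0x40004000200048, nat_lit 0x110000, nat_lit 1, nat_lit 4, nat_lit 0x47⟩ (t14_1262) (t14_9454)) (.node ⟨nat_lit 7, nat_lit 0x20004000400044,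 nat_lit 0x1020110, nat_lit 7, nat_lit 4, nat_lit 0x4a⟩ (t14_5358) (t14_13550))) (.node ⟨nat_lit 6, nat_lit 0x2000080030, nat_lit 0x112103, nat_lit 0, nat_lit 4, nat_lit 0x48⟩ (.node ⟨nat_lit 8, nat_lit 0x4000800020002000c0, nat_lit 0x11001103, nat_lit 0, nat_lit 4, nat_lit 0x49⟩ (t14_3310) (t14_11502)) (.node ⟨nat_lit 7, nat_lit 0x400020002000500070, nat_lit 0x1011112, nat_lit 0, nat_lit 4, nat_lit 0x46⟩ (t14_7406) (.nil))))) (.node ⟨nat_lit 5, nat_lit 0x100010, nat_lit 0x3110, nat_lit 4, nat_lit 4, nat_lit 0x48⟩ (.node ⟨nat_lit 7, nat_lit 0x100060, nat_lit 0x2101102, nat_lit 0, nat_lit 4, nat_lit 0x4a⟩ (.node ⟨nat_lit 7, nat_lit 0x40, nat_lit 0x1211001, nat_lit 0, nat_lit 3, nat_lit 0x4a⟩ (.node ⟨nat_lit 7, nat_lit 0x1000500060, nat_lit 0x212111, nat_lit 0, nat_lit 4, nat_lit 0x49⟩ (t14_750) (t14_8942)) (.node ⟨nat_lit 7, nat_lit 0x40002000500068,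 nat_lit 0x112200, nat_lit 0, nat_lit 4, nat_lit 0x47⟩ (t14_4846) (t14_13038))) (.node ⟨nat_lit 7, nat_lit 0x6000500018, nat_lit 0x11112, nat_lit 1, nat_lit 4, nat_lit 0x47⟩ (.node ⟨nat_lit 6, nat_lit 0x2000080030, nat_lit 0x21203, nat_lit 2, nat_lit 4, nat_lit 0x48⟩ (t14_2798) (t14_10990)) (.node ⟨nat_lit 7, nat_lit 0x800600050, nat_lit 0x1110222, nat_lit 0, nat_lit 4, nat_lit 0x48⟩ (t14_6894) (t14_15086)))) (.node ⟨nat_lit 5, nat_lit 0x1000140018, nat_lit 0x11211, nat_lit 5, nat_lit 4, nat_lit 0x47⟩ (.node ⟨nat_lit 6, nat_lit 0x20001000100028, nat_lit 0x112101, nat_lit 0, nat_lit 4, nat_lit 0x47⟩ (.node ⟨nat_lit 5, nat_lit 0x18, nat_lit 0x110, nat_lit 0, nat_lit 4, nat_lit 0x45⟩ (t14_1774) (t14_9966)) (.node ⟨nat_lit 8, nat_lit 0x8000800040004000c0, nat_lit 0x220102, nat_lit 0, nat_lit 4, nat_lit 0x49⟩ (t14_5870) (t14_14062))) (.node ⟨nat_lit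 7, nat_lit 0x4000100060, nat_lit 0x1012010, nat_lit 0, nat_lit 4, nat_lit 0x49⟩ (.node ⟨nat_lit 6, nat_lit 0x300028, nat_lit 0x111103, nat_lit 1, nat_lit 4, nat_lit 0x48⟩ (t14_3822) (t14_12014)) (.node ⟨nat_lit 9, nat_lit 0x1000040004001100180, nat_lit 0x100121001, nat_lit 1, nat_lit 4, nat_lit 0x4a⟩ (t14_7918) (.nil)))))
def t14_494 : Tr := .node ⟨nat_lit 7, nat_lit 0x400060, nat_lit 0x1211110, nat_lit 1, nat_lit 4, nat_lit 0x4b⟩ (.nil) (.nil)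
def t14_8686 : Tr := .node ⟨nat_lit 7, nat_lit 0x400020002000500068, nat_lit 0x102, nat_lit 0, nat_lit 4, nat_lit 0x44⟩ (.nil) (.nil)
def t14_4590 : Tr := .node ⟨nat_lit 7, nat_lit 0x400040002000500048, nat_lit 0x110300, nat_lit 2, nat_lit 4, nat_lit 0x47⟩ (.nil) (.nil)
def t14_12782 : Tr := .node ⟨nat_lit 6, nat_lit 0x800280030, nat_lit 0x10002, nat_lit 7, nat_lit 4, nat_lit 0x47⟩ (.nil) (.nil)
def t14_2542 : Tr := .node ⟨nat_lit 8, nat_lit 0x80002000a000c0, nat_lit 0x1022020, nat_lit 0, nat_lit 4, nat_lit 0x49⟩ (.nil) (.nil)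
def t14_10734 : Tr := .node ⟨nat_lit 7, nat_lit 0x20006000600050, nat_lit 0x10102, nat_lit 2, nat_lit 4, nat_lit 0x46⟩ (.nil) (.nil)
def t14_6638 : Tr := .node ⟨nat_lit 7, nat_lit 0x40001000200048, nat_lit 0x112110, nat_lit 1, nat_lit 4, nat_lit 0x48⟩ (.nil) (.nil)
def t14_14830 : Tr := .node ⟨nat_lit 7, nat_lit 0x20005000500068, nat_lit 0x11102, nat_lit 0, nat_lit 4, nat_lit 0x45⟩ (.nil) (.nil)
def t14_1518 : Tr := .node ⟨nat_lit 8, nat_lit 0x80004000a000e000e000d0, nat_lit 0x121101, nat_lit 1, nat_lit 4, nat_lit 0x45⟩ (.nil) (.nil)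
def t14_9710 : Tr := .node ⟨nat_lit 9, nat_lit 0x1000100011001080190, nat_lit 0x1111101, nat_lit 0, nat_lit 4, nat_lit 0x49⟩ (.nil) (.nil)
def t14_5614 : Tr := .node ⟨nat_lit 7, nat_lit 0x10001000600060, nat_lit 0x11120, nat_lit 1, nat_lit 4, nat_lit 0x47⟩ (.nil) (.nil)
def t14_13806 : Tr := .node ⟨nat_lit 9, nat_lit 0x8001000100004001100110, nat_lit 0x10200, nat_lit 0, nat_lit 4, nat_lit 0x48⟩ (.nil) (.nil)
def t14_3566 : Tr := .node ⟨nat_lit 7, nat_lit 0x400020005000600070, nat_lit 0x2110, nat_lit 2, nat_lit 4, nat_lit 0x45⟩ (.nil) (.nil)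
def t14_11758 : Tr := .node ⟨nat_lit 4, nat_lit 0x80004, nat_lit 0x3004, nat_lit 3, nat_lit 3, nat_lit 0x46⟩ (.nil) (.nil)
def t14_7662 : Tr := .node ⟨nat_lit 3, nat_lit 6, nat_lit 0x102, nat_lit 9, nat_lit 4, nat_lit 0x45⟩ (.nil) (.nil)
def t14_1006 : Tr := .node ⟨nat_lit 7, nat_lit 0x10002000500060, nat_lit 0x1000011, nat_lit 1, nat_lit 4, nat_lit 0x46⟩ (.nil) (.nil)
def t14_9198 : Tr := .node ⟨nat_lit 7, nat_lit 0x40001000600050, nat_lit 0x2312, nat_lit 0, nat_lit 4, nat_lit 0x47⟩ (.nil) (.nil)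
def t14_5102 : Tr := .node ⟨nat_lit 8, nat_lit 0x80004000c000a000d0, nat_lit 0x110311, nat_lit 0, nat_lit 4, nat_lit 0x47⟩ (.nil) (.nil)
def t14_13294 : Tr := .node ⟨nat_lit 6, nat_lit 0x1000200030, nat_lit 0x2410, nat_lit 1, nat_lit 4, nat_lit 0x48⟩ (.nil) (.nil)
def t14_3054 : Tr := .node ⟨nat_lit 7, nat_lit 0x1000600018, nat_lit 0x1000211, nat_lit 0, nat_lit 4, nat_lit 0x47⟩ (.nil) (.nil)
def t14_11246 : Tr := .node ⟨nat_lit 4, nat_lit 0x8000c, nat_lit 0x210, nat_lit 7, nat_lit 4, nat_lit 0x46⟩ (.nil) (.nil)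
def t14_7150 : Tr := .node ⟨nat_lit 4, nat_lit 0x8000e, nat_lit 0x1101, nat_lit 9, nat_lit 4, nat_lit 0x46⟩ (.nil) (.nil)
def t14_15342 : Tr := .node ⟨nat_lit 8, nat_lit 0x8000200020002000c0, nat_lit 0x11021101, nat_lit 0, nat_lit 4, nat_lit 0x49⟩ (.nil) (.nil)
def t14_2030 : Tr := .node ⟨nat_lit 5, nat_lit 0x800100018, nat_lit 0x330, nat_lit 3, nat_lit 4, nat_lit 0x46⟩ (.nil) (.nil)
def t14_10222 : Tr := .node ⟨nat_lit 7, nat_lit 0x10004000400060, nat_lit 0x103, nat_lit 2, nat_lit 4, nat_lit 0x47⟩ (.nil) (.nil)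
def t14_6126 : Tr := .node ⟨nat_lit 6, nat_lit 0x2000100008, nat_lit 0x1000, nat_lit 5, nat_lit 4, nat_lit 0x47⟩ (.nil) (.nil)
def t14_14318 : Tr := .node ⟨nat_lit 6, nat_lit 0x10001000200022, nat_lit 0x110003, nat_lit 1, nat_lit 4, nat_lit 0x46⟩ (.nil) (.nil)
def t14_4078 : Tr := .node ⟨nat_lit 6, nat_lit 0x800200030, nat_lit 0x111201, nat_lit 2, nat_lit 4, nat_lit 0x48⟩ (.nil) (.nil)
def t14_12270 : Tr := .node ⟨nat_lit 7, nat_lit 0x200040006000680070, nat_lit 0x11031, nat_lit 3, nat_lit 4, nat_lit 0x45⟩ (.nil) (.nil)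
def t14_8174 : Tr := .node ⟨nat_lit 7, nat_lit 0x40002000200048, nat_lit 0x12003, nat_lit 2, nat_lit 4, nat_lit 0x48⟩ (.nil) (.nil)
def t9_494 : Tr := .node ⟨nat_lit 6, nat_lit 0x200010, nat_lit 0x13103, nat_lit 1, nat_lit 4, nat_lit 0x4a⟩ (.node ⟨nat_lit 5, nat_lit 0x1000140014, nat_lit 0x32022, nat_lit 3, nat_lit 4, nat_lit 0x48⟩ (.node ⟨nat_lit 5, nat_lit 0x100012, nat_lit 0x21121, nat_lit 5, nat_lit 4, nat_lit 0x49⟩ (.node ⟨nat_lit 3, nat_lit 4, nat_lit 0x130, nat_lit 0xa, nat_lit 4, nat_lit 0x47⟩ (.node ⟨nat_lit 5, nat_lit 0x1000080014, nat_lit 0x2212, nat_lit 4, nat_lit 4, nat_lit 0x47⟩ (t14_494) (t14_8686)) (.node ⟨nat_lit 7, nat_lit 0x600050, nat_lit 0x1021112, nat_lit 1, nat_lit 4, nat_lit 0x4a⟩ (t14_4590) (t14_12782))) (.node ⟨nat_lit 7, nat_lit 0x10006000600050, nat_lit 0x12102, nat_lit 0, nat_lit 4, nat_lit 0x46⟩ (.node ⟨nat_lit 8,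 nat_lit 0x400040002000200080, nat_lit 0x10110311, nat_lit 0, nat_lit 4, nat_lit 0x4a⟩ (t14_2542) (t14_10734)) (.node ⟨nat_lit 7, nat_lit 0x40004000600068, nat_lit 0x110221, nat_lit 3, nat_lit 4, nat_lit 0x48⟩ (t14_6638) (t14_14830)))) (.node ⟨nat_lit 6, nat_lit 0x2000080030, nat_lit 0x102111, nat_lit 3, nat_lit 4, nat_lit 0x48⟩ (.node ⟨nat_lit 7, nat_lit 0x4000400020, nat_lit 0x222101, nat_lit 0, nat_lit 4, nat_lit 0x4b⟩ (.node ⟨nat_lit 6, nat_lit 0x2000100030, nat_lit 0x101311, nat_lit 0, nat_lit 4, nat_lit 0x48⟩ (t14_1518) (t14_9710)) (.node ⟨nat_lit 7, nat_lit 0x400020002000500068, nat_lit 0x1112100, nat_lit 3, nat_lit 4, nat_lit 0x48⟩ (t14_5614) (t14_13806))) (.node ⟨nat_lit 7, nat_lit 0x2000100040, nat_lit 0x112100, nat_lit 0, nat_lit 3, nat_lit 0x48⟩ (.node ⟨nat_lit 6, nat_lit 0x200038, nat_lit 0x10001, nat_lit 0, nat_lit 4, nat_lit 0x45⟩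 (t14_3566) (t14_11758)) (.node ⟨nat_lit 7, nat_lit 0x4000400050006000600060, nat_lit 0x1110211, nat_lit 1, nat_lit 4, nat_lit 0x48⟩ (t14_7662) (.nil))))) (.node ⟨nat_lit 4, nat_lit 0x80008, nat_lit 0x1331, nat_lit 6, nat_lit 3, nat_lit 0x47⟩ (.node ⟨nat_lit 5, nat_lit 0x10, nat_lit 0x2210, nat_lit 7, nat_lit 4, nat_lit 0x4a⟩ (.node ⟨nat_lit 8, nat_lit 0x80, nat_lit 0x1111110, nat_lit 1, nat_lit 4, nat_lit 0x4d⟩ (.node ⟨nat_lit 4, nat_lit 0x8000c, nat_lit 0x1231, nat_lit 9, nat_lit 4, nat_lit 0x48⟩ (t14_1006) (t14_9198)) (.node ⟨nat_lit 5, nat_lit 0, nat_lit 0x22222, nat_lit 2, nat_lit 4, nat_lit 0x4c⟩ (t14_5102) (t14_13294))) (.node ⟨nat_lit 6, nat_lit 0x2000080030, nat_lit 0x101210, nat_lit 0, nat_lit 3, nat_lit 0x46⟩ (.node ⟨nat_lit 7, nat_lit 0x40001000480068, nat_lit 0x2012111, nat_lit 1, nat_lit 4, nat_lit 0x49⟩ (t14_3054) (t14_11246)) (.node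 ⟨nat_lit 7, nat_lit 0x40004000600068, nat_lit 0x111122, nat_lit 3, nat_lit 4, nat_lit 0x48⟩ (t14_7150) (t14_15342)))) (.node ⟨nat_lit 7, nat_lit 0x4000440064, nat_lit 0x2011101, nat_lit 1, nat_lit 4, nat_lit 0x49⟩ (.node ⟨nat_lit 7, nat_lit 0x4000500064, nat_lit 0x1121111, nat_lit 0, nat_lit 4, nat_lit 0x49⟩ (.node ⟨nat_lit 7, nat_lit 0x40004000200060, nat_lit 0x121023, nat_lit 0, nat_lit 4, nat_lit 0x49⟩ (t14_2030) (t14_10222)) (.node ⟨nat_lit 6, nat_lit 0x300028, nat_lit 0x101202, nat_lit 2, nat_lit 4, nat_lit 0x48⟩ (t14_6126) (t14_14318))) (.node ⟨nat_lit 6, nat_lit 0x40038, nat_lit 0x221103, nat_lit 1, nat_lit 4, nat_lit 0x49⟩ (.node ⟨nat_lit 5, nat_lit 0x100010001c, nat_lit 0x10110, nat_lit 4, nat_lit 4, nat_lit 0x46⟩ (t14_4078) (t14_12270)) (.node ⟨nat_lit 6, nat_lit 0x800300030, nat_lit 0x112010, nat_lit 0, nat_lit 3, nat_lit 0x46⟩ (t14_8174)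 (.nil)))))
def t14_30 : Tr := .node ⟨nat_lit 6, nat_lit 0x100020, nat_lit 0x111101, nat_lit 6, nat_lit 4, nat_lit 0x4a⟩ (.nil) (.nil)
def t14_8222 : Tr := .node ⟨nat_lit 8, nat_lit 0x400080005000a000d0, nat_lit 0x11113, nat_lit 0, nat_lit 4, nat_lit 0x46⟩ (.nil) (.nil)
def t14_4126 : Tr := .node ⟨nat_lit 9, nat_lit 0x1000100010000800110, nat_lit 0x11111101, nat_lit 1, nat_lit 4, nat_lit 0x4b⟩ (.nil) (.nil)
def t14_12318 : Tr := .node ⟨nat_lit 7, nat_lit 0x1800500060, nat_lit 0x100101, nat_lit 1, nat_lit 4, nat_lit 0x46⟩ (.nil) (.nil)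
def t14_2078 : Tr := .node ⟨nat_lit 6, nat_lit 0x10001000200038, nat_lit 0x100331, nat_lit 2, nat_lit 4, nat_lit 0x47⟩ (.nil) (.nil)
def t14_10270 : Tr := .node ⟨nat_lit 8, nat_lit 0x8000400090006000c8, nat_lit 0x1001202, nat_lit 0, nat_lit 4, nat_lit 0x46⟩ (.nil) (.nil)
def t14_6174 : Tr := .node ⟨nat_lit 4, nat_lit 0x80004, nat_lit 0x101, nat_lit 0xb, nat_lit 4, nat_lit 0x47⟩ (.nil) (.nil)
def t14_14366 : Tr := .node ⟨nat_lit 7, nat_lit 0x20004000440030, nat_lit 0x1110, nat_lit 2, nat_lit 4, nat_lit 0x46⟩ (.nil) (.nil)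
def t14_1054 : Tr := .node ⟨nat_lit 4, nat_lit 0x40008, nat_lit 0x1021, nat_lit 6, nat_lit 4, nat_lit 0x46⟩ (.nil) (.nil)
def t14_9246 : Tr := .node ⟨nat_lit 7, nat_lit 0x40001000680058, nat_lit 0x1011, nat_lit 2, nat_lit 4, nat_lit 0x45⟩ (.nil) (.nil)
def t14_5150 : Tr := .node ⟨nat_lit 7, nat_lit 0x40004800600030, nat_lit 0x11131, nat_lit 0, nat_lit 4, nat_lit 0x46⟩ (.nil) (.nil)
def t14_13342 : Tr := .node ⟨nat_lit 6, nat_lit 0x2800180030, nat_lit 0x204, nat_lit 1, nat_lit 4, nat_lit 0x45⟩ (.nil) (.nil)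
def t14_3102 : Tr := .node ⟨nat_lit 7, nat_lit 0x20004000680070, nat_lit 0x1011012, nat_lit 0, nat_lit 4, nat_lit 0x46⟩ (.nil) (.nil)
def t14_11294 : Tr := .node ⟨nat_lit 7, nat_lit 0x10002000400060, nat_lit 0x120, nat_lit 3, nat_lit 4, nat_lit 0x47⟩ (.nil) (.nil)
def t14_7198 : Tr := .node ⟨nat_lit 7, nat_lit 0x20002000500060, nat_lit 0x12111, nat_lit 0, nat_lit 4, nat_lit 0x47⟩ (.nil) (.nil)
def t14_15390 : Tr := .node ⟨nat_lit 8, nat_lit 0x80008000400020, nat_lit 0x1121011, nat_lit 3, nat_lit 4, nat_lit 0x4b⟩ (.nil) (.nil)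
def t14_542 : Tr := .node ⟨nat_lit 5, nat_lit 0x800100018, nat_lit 0x222, nat_lit 2, nat_lit 4, nat_lit 0x45⟩ (.nil) (.nil)
def t14_8734 : Tr := .node ⟨nat_lit 6, nat_lit 0x2000100030, nat_lit 0x1110, nat_lit 2, nat_lit 4, nat_lit 0x46⟩ (.nil) (.nil)
def t14_4638 : Tr := .node ⟨nat_lit 7, nat_lit 0x10002000500060, nat_lit 0x1101012, nat_lit 0, nat_lit 4, nat_lit 0x47⟩ (.nil) (.nil)
def t14_12830 : Tr := .node ⟨nat_lit 7, nat_lit 0x40001000600050, nat_lit 0x200, nat_lit 1, nat_lit 4, nat_lit 0x46⟩ (.nil) (.nil)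
def t14_2590 : Tr := .node ⟨nat_lit 7, nat_lit 0x200040, nat_lit 0x1100000, nat_lit 0, nat_lit 4, nat_lit 0x49⟩ (.nil) (.nil)
def t14_10782 : Tr := .node ⟨nat_lit 9, nat_lit 0x1000080008000400040, nat_lit 0x1201011, nat_lit 0, nat_lit 3, nat_lit 0x49⟩ (.nil) (.nil)
def t14_6686 : Tr := .node ⟨nat_lit 3, nat_lit 0, nat_lit 0x111, nat_lit 0xf, nat_lit 4, nat_lit 0x49⟩ (.nil) (.nil)
def t14_14878 : Tr := .node ⟨nat_lit 7, nat_lit 0x400020, nat_lit 0x122100, nat_lit 4, nat_lit 3, nat_lit 0x4a⟩ (.nil) (.nil)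
def t14_1566 : Tr := .node ⟨nat_lit 8, nat_lit 0x4000800088006000c0, nat_lit 0x10121002, nat_lit 0, nat_lit 4, nat_lit 0x48⟩ (.nil) (.nil)
def t14_9758 : Tr := .node ⟨nat_lit 7, nat_lit 0x10005000500060, nat_lit 0x101200, nat_lit 0, nat_lit 4, nat_lit 0x46⟩ (.nil) (.nil)
def t14_5662 : Tr := .node ⟨nat_lit 7, nat_lit 0x40004000100060, nat_lit 0x101021, nat_lit 0, nat_lit 4, nat_lit 0x47⟩ (.nil) (.nil)
def t14_13854 : Tr := .node ⟨nat_lit 8, nat_lit 0x200040004000a000c8, nat_lit 0x2002, nat_lit 2, nat_lit 4, nat_lit 0x47⟩ (.nil) (.nil)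
def t14_3614 : Tr := .node ⟨nat_lit 7, nat_lit 0x5000600060, nat_lit 0x1101221, nat_lit 0, nat_lit 4, nat_lit 0x48⟩ (.nil) (.nil)
def t14_11806 : Tr := .node ⟨nat_lit 6, nat_lit 0x2000200020, nat_lit 0x11000, nat_lit 0, nat_lit 3, nat_lit 0x46⟩ (.nil) (.nil)
def t14_7710 : Tr := .node ⟨nat_lit 7, nat_lit 0x1000400060, nat_lit 0x1012, nat_lit 0, nat_lit 4, nat_lit 0x47⟩ (.nil) (.nil)
def t9_30 : Tr := .node ⟨nat_lit 7, nat_lit 0x60, nat_lit 0x3111111, nat_lit 0, nat_lit 4, nat_lit 0x4c⟩ (.node ⟨nat_lit 6, nat_lit 0x2000100024, nat_lit 0x223120, nat_lit 0, nat_lit 4, nat_lit 0x4a⟩ (.node ⟨nat_lit 5, nat_lit 0x180018, nat_lit 0x11320, nat_lit 3, nat_lit 4, nat_lit 0x48⟩ (.node ⟨nat_lit 6, nat_lit 0x200030, nat_lit 0x102111, nat_lit 0, nat_lit 4, nat_lit 0x48⟩ (.node ⟨nat_lit 5, nat_lit 0x100008, nat_lit 0x22103, nat_lit 1, nat_lit 3, nat_lit 0x48⟩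 (t14_30) (t14_8222)) (.node ⟨nat_lit 6, nat_lit 0x1000100020, nat_lit 0x11000, nat_lit 2, nat_lit 4, nat_lit 0x47⟩ (t14_4126) (t14_12318))) (.node ⟨nat_lit 6, nat_lit 0x30, nat_lit 0x311112, nat_lit 2, nat_lit 4, nat_lit 0x4b⟩ (.node ⟨nat_lit 5, nat_lit 0x1000080018, nat_lit 0x1213, nat_lit 7, nat_lit 4, nat_lit 0x47⟩ (t14_2078) (t14_10270)) (.node ⟨nat_lit 8, nat_lit 0x200020004000a000c0, nat_lit 0x1021002, nat_lit 0, nat_lit 4, nat_lit 0x48⟩ (t14_6174) (t14_14366)))) (.node ⟨nat_lit 6, nat_lit 0x10002000240018, nat_lit 0x122300, nat_lit 0, nat_lit 4, nat_lit 0x48⟩ (.node ⟨nat_lit 5, nat_lit 0x100018, nat_lit 0x21211, nat_lit 5, nat_lit 4, nat_lit 0x49⟩ (.node ⟨nat_lit 6, nat_lit 0x2000080030, nat_lit 0x111111, nat_lit 0, nat_lit 4, nat_lit 0x47⟩ (t14_1054) (t14_9246)) (.node ⟨nat_lit 4, nat_lit 0x80008, nat_lit 0x1231, nat_lit 0xa, nat_lit 4,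 nat_lit 0x49⟩ (t14_5150) (t14_13342))) (.node ⟨nat_lit 7, nat_lit 0x2000400040, nat_lit 0x1111120, nat_lit 0, nat_lit 4, nat_lit 0x4a⟩ (.node ⟨nat_lit 6, nat_lit 0x80030, nat_lit 0x111101, nat_lit 0, nat_lit 4, nat_lit 0x48⟩ (t14_3102) (t14_11294)) (.node ⟨nat_lit 9, nat_lit 0x100004000800180, nat_lit 0x10110022, nat_lit 0, nat_lit 4, nat_lit 0x4b⟩ (t14_7198) (t14_15390))))) (.node ⟨nat_lit 6, nat_lit 0x200020, nat_lit 0x131111, nat_lit 0, nat_lit 4, nat_lit 0x4a⟩ (.node ⟨nat_lit 4, nat_lit 8, nat_lit 0x1221, nat_lit 5, nat_lit 3, nat_lit 0x47⟩ (.node ⟨nat_lit 5, nat_lit 0x180018, nat_lit 0x210, nat_lit 3, nat_lit 4, nat_lit 0x45⟩ (.node ⟨nat_lit 9, nat_lit 0x1000100008000800040, nat_lit 0x2110101, nat_lit 1, nat_lit 4, nat_lit 0x4b⟩ (t14_542) (t14_8734)) (.node ⟨nat_lit 7, nat_lit 0x10004000400064, nat_lit 0x1300112, nat_lit 1, nat_lit 4, nat_lit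 0x49⟩ (t14_4638) (t14_12830))) (.node ⟨nat_lit 1, nat_lit 0, nat_lit 1, nat_lit 0xa, nat_lit 4, nat_lit 0x42⟩ (.node ⟨nat_lit 6, nat_lit 0x1000200030, nat_lit 0x111330, nat_lit 0, nat_lit 4, nat_lit 0x49⟩ (t14_2590) (t14_10782)) (.node ⟨nat_lit 7, nat_lit 0x1000400060, nat_lit 0x112012, nat_lit 1, nat_lit 4, nat_lit 0x49⟩ (t14_6686) (t14_14878)))) (.node ⟨nat_lit 6, nat_lit 0x2000080010, nat_lit 0x121021, nat_lit 2, nat_lit 4, nat_lit 0x49⟩ (.node ⟨nat_lit 6, nat_lit 0x1000200030, nat_lit 0x22011, nat_lit 5, nat_lit 4, nat_lit 0x49⟩ (.node ⟨nat_lit 7, nat_lit 0x40001000480060, nat_lit 0x1013111, nat_lit 2, nat_lit 4, nat_lit 0x49⟩ (t14_1566) (t14_9758)) (.node ⟨nat_lit 8, nat_lit 0x80002000c000d000d0, nat_lit 0x10110121, nat_lit 1, nat_lit 4, nat_lit 0x47⟩ (t14_5662) (t14_13854))) (.node ⟨nat_lit 6, nat_lit 0x1000200038, nat_lit 0x2102, nat_lit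 2, nat_lit 4, nat_lit 0x46⟩ (.node ⟨nat_lit 6, nat_lit 0x200030, nat_lit 0x101100, nat_lit 0, nat_lit 4, nat_lit 0x47⟩ (t14_3614) (t14_11806)) (.node ⟨nat_lit 7, nat_lit 0x10002000400064, nat_lit 0x1100021, nat_lit 7, nat_lit 4, nat_lit 0x49⟩ (t14_7710) (.nil)))))
def t14_286 : Tr := .node ⟨nat_lit 6, nat_lit 0x1000280030, nat_lit 0x101311, nat_lit 1, nat_lit 4, nat_lit 0x47⟩ (.nil) (.nil)
def t14_8478 : Tr := .node ⟨nat_lit 7, nat_lit 0x2800480070, nat_lit 0x10102, nat_lit 0, nat_lit 4, nat_lit 0x45⟩ (.nil) (.nil)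
def t14_4382 : Tr := .node ⟨nat_lit 7, nat_lit 0x40002000100068, nat_lit 0x1011002, nat_lit 1, nat_lit 4, nat_lit 0x47⟩ (.nil) (.nil)
def t14_12574 : Tr := .node ⟨nat_lit 7, nat_lit 0x20003000500060, nat_lit 0x1010301, nat_lit 0, nat_lit 3, nat_lit 0x45⟩ (.nil) (.nil)
def t14_2334 : Tr := .node ⟨nat_lit 6, nat_lit 0x800200030, nat_lit 0x20301, nat_lit 0, nat_lit 4, nat_lit 0x47⟩ (.nil) (.nil)
def t14_10526 : Tr := .node ⟨nat_lit 6, nat_lit 0x300038, nat_lit 0x1002, nat_lit 0, nat_lit 4, nat_lit 0x45⟩ (.nil) (.nil)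
def t14_6430 : Tr := .node ⟨nat_lit 5, nat_lit 0x100008, nat_lit 0x11111, nat_lit 8, nat_lit 4, nat_lit 0x49⟩ (.nil) (.nil)
def t14_14622 : Tr := .node ⟨nat_lit 7, nat_lit 0x400050005000600070, nat_lit 0x111111, nat_lit 1, nat_lit 4, nat_lit 0x46⟩ (.nil) (.nil)
def t14_1310 : Tr := .node ⟨nat_lit 7, nat_lit 0x20004000100060, nat_lit 0x101111, nat_lit 0, nat_lit 4, nat_lit 0x47⟩ (.nil) (.nil)
def t14_9502 : Tr := .node ⟨nat_lit 8, nat_lit 0x8000400040005000a000d0, nat_lit 0x10012100, nat_lit 1, nat_lit 4, nat_lit 0x47⟩ (.nil) (.nil)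
def t14_5406 : Tr := .node ⟨nat_lit 7, nat_lit 0x20004000440030, nat_lit 0x1014002, nat_lit 1, nat_lit 4, nat_lit 0x48⟩ (.nil) (.nil)
def t14_13598 : Tr := .node ⟨nat_lit 6, nat_lit 0x800200030, nat_lit 0x10002, nat_lit 5, nat_lit 4, nat_lit 0x47⟩ (.nil) (.nil)
def t14_3358 : Tr := .node ⟨nat_lit 5, nat_lit 0x1000100018, nat_lit 0x1201, nat_lit 3, nat_lit 4, nat_lit 0x46⟩ (.nil) (.nil)
def t14_11550 : Tr := .node ⟨nat_lit 6, nat_lit 0x20003000300038, nat_lit 0x101102, nat_lit 5, nat_lit 4, nat_lit 0x46⟩ (.nil) (.nil)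
def t14_7454 : Tr := .node ⟨nat_lit 7, nat_lit 0x600060, nat_lit 0x1111111, nat_lit 1, nat_lit 4, nat_lit 0x4a⟩ (.nil) (.nil)
def t14_798 : Tr := .node ⟨nat_lit 7, nat_lit 0x40001000200060, nat_lit 0x13101, nat_lit 0, nat_lit 3, nat_lit 0x46⟩ (.nil) (.nil)
def t14_8990 : Tr := .node ⟨nat_lit 0xb, nat_lit 0x2000400040004000100044004100420, nat_lit 0x1110010, nat_lit 1, nat_lit 4, nat_lit 0x4a⟩ (.nil) (.nil)
def t14_4894 : Tr := .node ⟨nat_lit 7, nat_lit 0x60, nat_lit 0x1111111, nat_lit 1, nat_lit 4, nat_lit 0x4b⟩ (.nil) (.nil)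
def t14_13086 : Tr := .node ⟨nat_lit 4, nat_lit 0x8000c, nat_lit 0x2002, nat_lit 5, nat_lit 3, nat_lit 0x45⟩ (.nil) (.nil)
def t14_2846 : Tr := .node ⟨nat_lit 5, nat_lit 0x1000080014, nat_lit 0x11002, nat_lit 5, nat_lit 4, nat_lit 0x46⟩ (.nil) (.nil)
def t14_11038 : Tr := .node ⟨nat_lit 3, nat_lit 6, nat_lit 0x110, nat_lit 0xb, nat_lit 4, nat_lit 0x46⟩ (.nil) (.nil)
def t14_6942 : Tr := .node ⟨nat_lit 6, nat_lit 0x1000280034, nat_lit 0x102112, nat_lit 1, nat_lit 4, nat_lit 0x46⟩ (.nil) (.nil)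
def t14_15134 : Tr := .node ⟨nat_lit 8, nat_lit 0x800020002800c000c0, nat_lit 0x111110, nat_lit 1, nat_lit 4, nat_lit 0x47⟩ (.nil) (.nil)
def t14_1822 : Tr := .node ⟨nat_lit 6, nat_lit 0x1000280034, nat_lit 0x112020, nat_lit 4, nat_lit 4, nat_lit 0x48⟩ (.nil) (.nil)
def t14_10014 : Tr := .node ⟨nat_lit 5, nat_lit 0x1000100018, nat_lit 0x10220, nat_lit 6, nat_lit 3, nat_lit 0x46⟩ (.nil) (.nil)
def t14_5918 : Tr := .node ⟨nat_lit 8, nat_lit 0x80008000880088, nat_lit 0x1111020, nat_lit 3, nat_lit 4, nat_lit 0x4a⟩ (.nil) (.nil)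
def t14_14110 : Tr := .node ⟨nat_lit 7, nat_lit 0x40004000100060, nat_lit 0x1010, nat_lit 3, nat_lit 4, nat_lit 0x47⟩ (.nil) (.nil)
def t14_3870 : Tr := .node ⟨nat_lit 8, nat_lit 0x800020009000a000c0, nat_lit 0x1110021, nat_lit 2, nat_lit 4, nat_lit 0x48⟩ (.nil) (.nil)
def t14_12062 : Tr := .node ⟨nat_lit 7, nat_lit 0x1000500060, nat_lit 0x1101200, nat_lit 1, nat_lit 4, nat_lit 0x48⟩ (.nil) (.nil)
def t14_7966 : Tr := .node ⟨nat_lit 7, nat_lit 0x400040004800500050, nat_lit 0x110021, nat_lit 8, nat_lit 4, nat_lit 0x48⟩ (.nil) (.nil)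
def t9_286 : Tr := .node ⟨nat_lit 5, nat_lit 0x80010, nat_lit 0x30220, nat_lit 1, nat_lit 4, nat_lit 0x48⟩ (.node ⟨nat_lit 7, nat_lit 0x20004000440044, nat_lit 0x3020121, nat_lit 0, nat_lit 4, nat_lit 0x4a⟩ (.node ⟨nat_lit 6, nat_lit 0x200010, nat_lit 0x13101, nat_lit 8, nat_lit 4, nat_lit 0x4b⟩ (.node ⟨nat_lit 5, nat_lit 0x100008, nat_lit 0x1202, nat_lit 8, nat_lit 4, nat_lit 0x49⟩ (.node ⟨nat_lit 3, nat_lit 0x40004, nat_lit 0x221, nat_lit 5, nat_lit 4, nat_lit 0x46⟩ (t14_286) (t14_8478)) (.node ⟨nat_lit 7, nat_lit 0x200020004000400064, nat_lit 0x1011103, nat_lit 2, nat_lit 4, nat_lit 0x47⟩ (t14_4382) (t14_12574))) (.node ⟨nat_lit 6, nat_lit 0x2000080030, nat_lit 0x201202, nat_lit 0, nat_lit 4, nat_lit 0x48⟩ (.node ⟨nat_lit 7, nat_lit 0x20003000500068, nat_lit 0x1002133, nat_lit 0, nat_lit 4, nat_lit 0x46⟩ (t14_2334) (t14_10526)) (.node ⟨nat_lit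 6, nat_lit 0x200032, nat_lit 0x21120, nat_lit 1, nat_lit 4, nat_lit 0x48⟩ (t14_6430) (t14_14622)))) (.node ⟨nat_lit 7, nat_lit 0x20001000500068, nat_lit 0x1201021, nat_lit 0, nat_lit 4, nat_lit 0x47⟩ (.node ⟨nat_lit 6, nat_lit 0x2000080010, nat_lit 0x22021, nat_lit 5, nat_lit 4, nat_lit 0x4a⟩ (.node ⟨nat_lit 6, nat_lit 0x2000100024, nat_lit 0x111103, nat_lit 2, nat_lit 4, nat_lit 0x48⟩ (t14_1310) (t14_9502)) (.node ⟨nat_lit 6, nat_lit 0x2000100030, nat_lit 0x11322, nat_lit 1, nat_lit 4, nat_lit 0x48⟩ (t14_5406) (t14_13598))) (.node ⟨nat_lit 5, nat_lit 0x800080010, nat_lit 0x1213, nat_lit 3, nat_lit 4, nat_lit 0x47⟩ (.node ⟨nat_lit 7, nat_lit 0x20001000500068, nat_lit 0x1202030, nat_lit 0, nat_lit 4, nat_lit 0x48⟩ (t14_3358) (t14_11550)) (.node ⟨nat_lit 7, nat_lit 0x20004000440060, nat_lit 0x1111102, nat_lit 3, nat_lit 4, nat_lit 0x49⟩ (t14_7454)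 (.nil))))) (.node ⟨nat_lit 5, nat_lit 0x100008, nat_lit 0x1321, nat_lit 2, nat_lit 4, nat_lit 0x48⟩ (.node ⟨nat_lit 6, nat_lit 0x800280030, nat_lit 0x120103, nat_lit 0, nat_lit 4, nat_lit 0x47⟩ (.node ⟨nat_lit 5, nat_lit 0x80010, nat_lit 0x10110, nat_lit 0, nat_lit 4, nat_lit 0x45⟩ (.node ⟨nat_lit 6, nat_lit 0x2000080030, nat_lit 0x22003, nat_lit 0, nat_lit 4, nat_lit 0x48⟩ (t14_798) (t14_8990)) (.node ⟨nat_lit 7, nat_lit 0x400020002000500050, nat_lit 0x1112021, nat_lit 2, nat_lit 4, nat_lit 0x48⟩ (t14_4894) (t14_13086))) (.node ⟨nat_lit 5, nat_lit 0x100008001a, nat_lit 0x1210, nat_lit 3, nat_lit 4, nat_lit 0x45⟩ (.node ⟨nat_lit 6, nat_lit 0x200010, nat_lit 0x11120, nat_lit 1, nat_lit 4, nat_lit 0x48⟩ (t14_2846) (t14_11038)) (.node ⟨nat_lit 6, nat_lit 0x10001000100020, nat_lit 0x101102, nat_lit 2, nat_lit 3, nat_lit 0x46⟩ (t14_6942) (t14_15134))))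 (.node ⟨nat_lit 7, nat_lit 0x20001000100040, nat_lit 0x1110211, nat_lit 0, nat_lit 4, nat_lit 0x49⟩ (.node ⟨nat_lit 5, nat_lit 0x800080010, nat_lit 0x12211, nat_lit 3, nat_lit 3, nat_lit 0x47⟩ (.node ⟨nat_lit 6, nat_lit 0x20002000100010, nat_lit 0x1011, nat_lit 2, nat_lit 4, nat_lit 0x46⟩ (t14_1822) (t14_10014)) (.node ⟨nat_lit 6, nat_lit 0x800280030, nat_lit 0x121022, nat_lit 2, nat_lit 4, nat_lit 0x48⟩ (t14_5918) (t14_14110))) (.node ⟨nat_lit 7, nat_lit 0x4000180060, nat_lit 0x1120122, nat_lit 1, nat_lit 4, nat_lit 0x49⟩ (.node ⟨nat_lit 6, nat_lit 0x800300038, nat_lit 0x111103, nat_lit 2, nat_lit 4, nat_lit 0x47⟩ (t14_3870) (t14_12062)) (.node ⟨nat_lit 6, nat_lit 0x1000280030, nat_lit 0x111120, nat_lit 1, nat_lit 4, nat_lit 0x47⟩ (t14_7966) (.nil)))))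
def t14_158 : Tr := .node ⟨nat_lit 8, nat_lit 0x2000c000a0, nat_lit 0x10021111, nat_lit 1, nat_lit 4, nat_lit 0x4a⟩ (.nil) (.nil)
def t14_8350 : Tr := .node ⟨nat_lit 7, nat_lit 0x2000600050, nat_lit 0x1002, nat_lit 0, nat_lit 4, nat_lit 0x46⟩ (.nil) (.nil)
def t14_4254 : Tr := .node ⟨nat_lit 8, nat_lit 0x400040008000c0, nat_lit 0x221100, nat_lit 1, nat_lit 4, nat_lit 0x4a⟩ (.nil) (.nil)
def t14_12446 : Tr := .node ⟨nat_lit 8, nat_lit 0x80002000c000a0, nat_lit 0x10113, nat_lit 0, nat_lit 4, nat_lit 0x48⟩ (.nil) (.nil)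
def t14_2206 : Tr := .node ⟨nat_lit 7, nat_lit 0x40001000100060, nat_lit 0x1000221, nat_lit 1, nat_lit 4, nat_lit 0x48⟩ (.nil) (.nil)
def t14_10398 : Tr := .node ⟨nat_lit 6, nat_lit 0x20001000280028, nat_lit 0x101200, nat_lit 2, nat_lit 4, nat_lit 0x46⟩ (.nil) (.nil)
def t14_6302 : Tr := .node ⟨nat_lit 8, nat_lit 0x800020002000c000c0, nat_lit 0x21010, nat_lit 1, nat_lit 4, nat_lit 0x47⟩ (.nil) (.nil)
def t14_14494 : Tr := .node ⟨nat_lit 8, nat_lit 0x2000c000c000a0, nat_lit 0x11112, nat_lit 0, nat_lit 4, nat_lit 0x47⟩ (.nil) (.nil)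
def t14_1182 : Tr := .node ⟨nat_lit 6, nat_lit 0x80030, nat_lit 0x1111, nat_lit 1, nat_lit 4, nat_lit 0x47⟩ (.nil) (.nil)
def t14_9374 : Tr := .node ⟨nat_lit 6, nat_lit 0x10001000200020, nat_lit 0x202200, nat_lit 0, nat_lit 3, nat_lit 0x46⟩ (.nil) (.nil)
def t14_5278 : Tr := .node ⟨nat_lit 6, nat_lit 0x800300030, nat_lit 0x211120, nat_lit 2, nat_lit 4, nat_lit 0x48⟩ (.nil) (.nil)
def t14_13470 : Tr := .node ⟨nat_lit 7, nat_lit 0x1800500060, nat_lit 0x101301, nat_lit 1, nat_lit 4, nat_lit 0x47⟩ (.nil) (.nil)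
def t14_3230 : Tr := .node ⟨nat_lit 8, nat_lit 0x80003000a000c0, nat_lit 0x1021021, nat_lit 0, nat_lit 4, nat_lit 0x48⟩ (.nil) (.nil)
def t14_11422 : Tr := .node ⟨nat_lit 8, nat_lit 0x400040008000d000d0, nat_lit 0x1110120, nat_lit 1, nat_lit 4, nat_lit 0x48⟩ (.nil) (.nil)
def t14_7326 : Tr := .node ⟨nat_lit 7, nat_lit 0x40001000100060, nat_lit 0x1110112, nat_lit 2, nat_lit 4, nat_lit 0x49⟩ (.nil) (.nil)
def t14_15518 : Tr := .node ⟨nat_lit 8, nat_lit 0x800020009000a000c0, nat_lit 0x1112110, nat_lit 0, nat_lit 4, nat_lit 0x48⟩ (.nil) (.nil)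
def t14_670 : Tr := .node ⟨nat_lit 6, nat_lit 0x2000080030, nat_lit 0x1311, nat_lit 5, nat_lit 4, nat_lit 0x48⟩ (.nil) (.nil)
def t14_8862 : Tr := .node ⟨nat_lit 6, nat_lit 0x20001000280038, nat_lit 0x11113, nat_lit 5, nat_lit 4, nat_lit 0x46⟩ (.nil) (.nil)
def t14_4766 : Tr := .node ⟨nat_lit 6, nat_lit 0x800300028, nat_lit 0x100312, nat_lit 2, nat_lit 4, nat_lit 0x47⟩ (.nil) (.nil)
def t14_12958 : Tr := .node ⟨nat_lit 8, nat_lit 0x20008000c0, nat_lit 0x1011020, nat_lit 0, nat_lit 4, nat_lit 0x4a⟩ (.nil) (.nil)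
def t14_2718 : Tr := .node ⟨nat_lit 7, nat_lit 0x40002000500068, nat_lit 0x110013, nat_lit 0, nat_lit 4, nat_lit 0x46⟩ (.nil) (.nil)
def t14_10910 : Tr := .node ⟨nat_lit 7, nat_lit 0x10006000600050, nat_lit 0x12202, nat_lit 1, nat_lit 4, nat_lit 0x47⟩ (.nil) (.nil)
def t14_6814 : Tr := .node ⟨nat_lit 8, nat_lit 0x8000c0, nat_lit 0x111100, nat_lit 1, nat_lit 4, nat_lit 0x4b⟩ (.nil) (.nil)
def t14_15006 : Tr := .node ⟨nat_lit 8, nat_lit 0x800040004000a000a000c0, nat_lit 0x121110, nat_lit 0, nat_lit 4, nat_lit 0x47⟩ (.nil) (.nil)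
def t14_1694 : Tr := .node ⟨nat_lit 8, nat_lit 0x4000400080008400c0, nat_lit 0x121102, nat_lit 0, nat_lit 4, nat_lit 0x48⟩ (.nil) (.nil)
def t14_9886 : Tr := .node ⟨nat_lit 7, nat_lit 0x40002000200020, nat_lit 0x10321, nat_lit 3, nat_lit 4, nat_lit 0x4a⟩ (.nil) (.nil)
def t14_5790 : Tr := .node ⟨nat_lit 6, nat_lit 0x200022, nat_lit 0x111102, nat_lit 1, nat_lit 4, nat_lit 0x48⟩ (.nil) (.nil)
def t14_13982 : Tr := .node ⟨nat_lit 5, nat_lit 0x100008, nat_lit 0x122, nat_lit 5, nat_lit 4, nat_lit 0x47⟩ (.nil) (.nil)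
def t14_3742 : Tr := .node ⟨nat_lit 0xa, nat_lit 0x2000200020001000100010002800240, nat_lit 0x10021000, nat_lit 1, nat_lit 4, nat_lit 0x49⟩ (.nil) (.nil)
def t14_11934 : Tr := .node ⟨nat_lit 6, nat_lit 0x800200030, nat_lit 0x200003, nat_lit 1, nat_lit 3, nat_lit 0x46⟩ (.nil) (.nil)
def t14_7838 : Tr := .node ⟨nat_lit 4, nat_lit 0x80008000c, nat_lit 0x111, nat_lit 0xb, nat_lit 4, nat_lit 0x46⟩ (.nil) (.nil)
def t9_158 : Tr := .node ⟨nat_lit 2, nat_lit 0, nat_lit 0x33, nat_lit 0xd, nat_lit 4, nat_lit 0x48⟩ (.node ⟨nat_lit 5, nat_lit 0x100018, nat_lit 0x10312, nat_lit 5, nat_lit 4, nat_lit 0x48⟩ (.node ⟨nat_lit 6, nat_lit 0x300030, nat_lit 0x3110, nat_lit 0, nat_lit 4, nat_lit 0x47⟩ (.node ⟨nat_lit 3, nat_lit 4, nat_lit 0x210, nat_lit 8, nat_lit 4, nat_lit 0x46⟩ (.node ⟨nat_lit 6, nat_lit 0x1000280034, nat_lit 0x20202, nat_lit 2, nat_lit 4, nat_lit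 0x47⟩ (t14_158) (t14_8350)) (.node ⟨nat_lit 5, nat_lit 0x100018, nat_lit 0x130, nat_lit 1, nat_lit 3, nat_lit 0x45⟩ (t14_4254) (t14_12446))) (.node ⟨nat_lit 3, nat_lit 4, nat_lit 0x222, nat_lit 0xe, nat_lit 4, nat_lit 0x49⟩ (.node ⟨nat_lit 7, nat_lit 0x40002000600070, nat_lit 0x22003, nat_lit 1, nat_lit 4, nat_lit 0x47⟩ (t14_2206) (t14_10398)) (.node ⟨nat_lit 6, nat_lit 0x200030, nat_lit 0x12132, nat_lit 1, nat_lit 4, nat_lit 0x49⟩ (t14_6302) (t14_14494)))) (.node ⟨nat_lit 6, nat_lit 0x30, nat_lit 0x211111, nat_lit 3, nat_lit 4, nat_lit 0x4a⟩ (.node ⟨nat_lit 7, nat_lit 0x40002000500068, nat_lit 0x2012012, nat_lit 0, nat_lit 4, nat_lit 0x48⟩ (.node ⟨nat_lit 8, nat_lit 0x800080004000200090, nat_lit 0x1000400, nat_lit 1, nat_lit 4, nat_lit 0x49⟩ (t14_1182) (t14_9374)) (.node ⟨nat_lit 8, nat_lit 0x80002000c0, nat_lit 0x11021201, nat_lit 0, nat_lit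 4, nat_lit 0x4b⟩ (t14_5278) (t14_13470))) (.node ⟨nat_lit 6, nat_lit 0x800200030, nat_lit 0x1202, nat_lit 1, nat_lit 4, nat_lit 0x46⟩ (.node ⟨nat_lit 7, nat_lit 0x1000500060, nat_lit 0x1012130, nat_lit 0, nat_lit 4, nat_lit 0x49⟩ (t14_3230) (t14_11422)) (.node ⟨nat_lit 7, nat_lit 0x40001000100060, nat_lit 0x1001100, nat_lit 1, nat_lit 4, nat_lit 0x47⟩ (t14_7326) (t14_15518))))) (.node ⟨nat_lit 5, nat_lit 0x1000100008, nat_lit 0x13112, nat_lit 4, nat_lit 4, nat_lit 0x49⟩ (.node ⟨nat_lit 5, nat_lit 0x1000100008, nat_lit 0x12112, nat_lit 4, nat_lit 4, nat_lit 0x48⟩ (.node ⟨nat_lit 7, nat_lit 0x40004000200020, nat_lit 0x21011, nat_lit 0, nat_lit 4, nat_lit 0x48⟩ (.node ⟨nat_lit 6, nat_lit 0x10002000200034, nat_lit 0x212101, nat_lit 3, nat_lit 4, nat_lit 0x48⟩ (t14_670) (t14_8862)) (.node ⟨nat_lit 8, nat_lit 0x800040004000a000a000d0, nat_lit 0x11121101,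 nat_lit 0, nat_lit 4, nat_lit 0x48⟩ (t14_4766) (t14_12958))) (.node ⟨nat_lit 7, nat_lit 0x40004000200048, nat_lit 0x110010, nat_lit 0, nat_lit 4, nat_lit 0x47⟩ (.node ⟨nat_lit 8, nat_lit 0x80008000800040004000a0, nat_lit 0x1110301, nat_lit 1, nat_lit 4, nat_lit 0x49⟩ (t14_2718) (t14_10910)) (.node ⟨nat_lit 7, nat_lit 0x40002000500064, nat_lit 0x111210, nat_lit 1, nat_lit 4, nat_lit 0x47⟩ (t14_6814) (t14_15006)))) (.node ⟨nat_lit 4, nat_lit 0x80008, nat_lit 0x1131, nat_lit 8, nat_lit 4, nat_lit 0x48⟩ (.node ⟨nat_lit 6, nat_lit 0x280030, nat_lit 0x12112, nat_lit 2, nat_lit 4, nat_lit 0x48⟩ (.node ⟨nat_lit 4, nat_lit 0xc000c, nat_lit 0x11, nat_lit 5, nat_lit 4, nat_lit 0x43⟩ (t14_1694) (t14_9886)) (.node ⟨nat_lit 7, nat_lit 0x4000440060, nat_lit 0x22210, nat_lit 1, nat_lit 4, nat_lit 0x49⟩ (t14_5790) (t14_13982))) (.node ⟨nat_lit 7, nat_lit 0x40004000480030,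 nat_lit 0x202022, nat_lit 0, nat_lit 4, nat_lit 0x48⟩ (.node ⟨nat_lit 6, nat_lit 0x800280030, nat_lit 0x101103, nat_lit 0, nat_lit 4, nat_lit 0x46⟩ (t14_3742) (t14_11934)) (.node ⟨nat_lit 6, nat_lit 0x2800300030, nat_lit 0x100221, nat_lit 3, nat_lit 4, nat_lit 0x46⟩ (t14_7838) (.nil)))))
def t14_414 : Tr := .node ⟨nat_lit 6, nat_lit 0x2000280030, nat_lit 0x120102, nat_lit 3, nat_lit 4, nat_lit 0x48⟩ (.nil) (.nil)
def t14_8606 : Tr := .node ⟨nat_lit 8, nat_lit 0x800040004800a000d0, nat_lit 0x21100, nat_lit 0, nat_lit 4, nat_lit 0x46⟩ (.nil) (.nil)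
def t14_4510 : Tr := .node ⟨nat_lit 6, nat_lit 0x10002000240030, nat_lit 0x112101, nat_lit 6, nat_lit 4, nat_lit 0x48⟩ (.nil) (.nil)
def t14_12702 : Tr := .node ⟨nat_lit 6, nat_lit 0x2000080030, nat_lit 0x102210, nat_lit 1, nat_lit 4, nat_lit 0x48⟩ (.nil) (.nil)
def t14_2462 : Tr := .node ⟨nat_lit 7, nat_lit 0x4000100060, nat_lit 0x121200, nat_lit 0, nat_lit 4, nat_lit 0x49⟩ (.nil) (.nil)
def t14_10654 : Tr := .node ⟨nat_lit 8, nat_lit 0x200040004000a000c0, nat_lit 0x11002, nat_lit 0, nat_lit 4, nat_lit 0x47⟩ (.nil) (.nil)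
def t14_6558 : Tr := .node ⟨nat_lit 7, nat_lit 0x2000100040, nat_lit 0x1010021, nat_lit 0, nat_lit 4, nat_lit 0x49⟩ (.nil) (.nil)
def t14_14750 : Tr := .node ⟨nat_lit 9, nat_lit 0x200080018001400188, nat_lit 0x10001211, nat_lit 0, nat_lit 4, nat_lit 0x48⟩ (.nil) (.nil)
def t14_1438 : Tr := .node ⟨nat_lit 6, nat_lit 0x300030, nat_lit 0x101031, nat_lit 0, nat_lit 4, nat_lit 0x47⟩ (.nil) (.nil)
def t14_9630 : Tr := .node ⟨nat_lit 8, nat_lit 0x800040004000c000c8, nat_lit 0x121020, nat_lit 2, nat_lit 4, nat_lit 0x48⟩ (.nil) (.nil)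
def t14_5534 : Tr := .node ⟨nat_lit 6, nat_lit 0x2000340038, nat_lit 0x1113, nat_lit 3, nat_lit 4, nat_lit 0x45⟩ (.nil) (.nil)
def t14_13726 : Tr := .node ⟨nat_lit 7, nat_lit 0x400020002800500050, nat_lit 0x10, nat_lit 1, nat_lit 4, nat_lit 0x44⟩ (.nil) (.nil)
def t14_3486 : Tr := .node ⟨nat_lit 6, nat_lit 0x10002000200034, nat_lit 0x2010, nat_lit 2, nat_lit 4, nat_lit 0x45⟩ (.nil) (.nil)
def t14_11678 : Tr := .node ⟨nat_lit 7, nat_lit 0x200020002000400040, nat_lit 0x1031010, nat_lit 0, nat_lit 3, nat_lit 0x47⟩ (.nil) (.nil)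
def t14_7582 : Tr := .node ⟨nat_lit 7, nat_lit 0x10004000600050, nat_lit 0x2103, nat_lit 3, nat_lit 4, nat_lit 0x47⟩ (.nil) (.nil)
def t14_926 : Tr := .node ⟨nat_lit 8, nat_lit 0x800080002000400090, nat_lit 0x1121102, nat_lit 0, nat_lit 4, nat_lit 0x49⟩ (.nil) (.nil)
def t14_9118 : Tr := .node ⟨nat_lit 8, nat_lit 0x8000800040008800d0, nat_lit 0x1111002, nat_lit 1, nat_lit 4, nat_lit 0x48⟩ (.nil) (.nil)
def t14_5022 : Tr := .node ⟨nat_lit 6, nat_lit 0x800080030, nat_lit 0x100001, nat_lit 2, nat_lit 4, nat_lit 0x46⟩ (.nil) (.nil)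
def t14_13214 : Tr := .node ⟨nat_lit 7, nat_lit 0x40001000680054, nat_lit 0x2010, nat_lit 0, nat_lit 4, nat_lit 0x45⟩ (.nil) (.nil)
def t14_2974 : Tr := .node ⟨nat_lit 8, nat_lit 0x800080004000900090, nat_lit 0x1112011, nat_lit 1, nat_lit 4, nat_lit 0x49⟩ (.nil) (.nil)
def t14_11166 : Tr := .node ⟨nat_lit 6, nat_lit 0x3000280028, nat_lit 0x11120, nat_lit 5, nat_lit 4, nat_lit 0x47⟩ (.nil) (.nil)
def t14_7070 : Tr := .node ⟨nat_lit 6, nat_lit 0x2000200030, nat_lit 0x102111, nat_lit 3, nat_lit 3, nat_lit 0x47⟩ (.nil) (.nil)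
def t14_15262 : Tr := .node ⟨nat_lit 5, nat_lit 0x1000080018, nat_lit 0x11121, nat_lit 6, nat_lit 3, nat_lit 0x46⟩ (.nil) (.nil)
def t14_1950 : Tr := .node ⟨nat_lit 7, nat_lit 0x40001000100060, nat_lit 0x202002, nat_lit 1, nat_lit 4, nat_lit 0x48⟩ (.nil) (.nil)
def t14_10142 : Tr := .node ⟨nat_lit 7, nat_lit 0x40001000600060, nat_lit 0x2200, nat_lit 0, nat_lit 4, nat_lit 0x46⟩ (.nil) (.nil)
def t14_6046 : Tr := .node ⟨nat_lit 8, nat_lit 0x80008000c0, nat_lit 0x1211101, nat_lit 1, nat_lit 4, nat_lit 0x4b⟩ (.nil) (.nil)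
def t14_14238 : Tr := .node ⟨nat_lit 8, nat_lit 0x200040004000a000c0, nat_lit 0x11001, nat_lit 1, nat_lit 4, nat_lit 0x47⟩ (.nil) (.nil)
def t14_3998 : Tr := .node ⟨nat_lit 7, nat_lit 0x40001000600068, nat_lit 0x101210, nat_lit 0, nat_lit 4, nat_lit 0x46⟩ (.nil) (.nil)
def t14_12190 : Tr := .node ⟨nat_lit 7, nat_lit 0x10001000400060, nat_lit 0x2111, nat_lit 1, nat_lit 4, nat_lit 0x47⟩ (.nil) (.nil)
def t14_8094 : Tr := .node ⟨nat_lit 7, nat_lit 0x400020002000500068, nat_lit 0x110040, nat_lit 0, nat_lit 4, nat_lit 0x46⟩ (.nil) (.nil)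
def t9_414 : Tr := .node ⟨nat_lit 5, nat_lit 0x18, nat_lit 0x22312, nat_lit 0, nat_lit 4, nat_lit 0x4a⟩ (.node ⟨nat_lit 7, nat_lit 0x4000400020, nat_lit 0x131100, nat_lit 5, nat_lit 4, nat_lit 0x4b⟩ (.node ⟨nat_lit 4, nat_lit 8, nat_lit 0x222, nat_lit 3, nat_lit 4, nat_lit 0x47⟩ (.node ⟨nat_lit 7, nat_lit 0x20003000500068, nat_lit 0x1100221, nat_lit 0, nat_lit 4, nat_lit 0x46⟩ (.node ⟨nat_lit 6, nat_lit 0x800280030, nat_lit 0x2111, nat_lit 0, nat_lit 4, nat_lit 0x46⟩ (t14_414) (t14_8606)) (.node ⟨nat_lit 7, nat_lit 0x2000100040, nat_lit 0x1211101, nat_lit 1, nat_lit 3, nat_lit 0x49⟩ (t14_4510) (t14_12702))) (.node ⟨nat_lit 6, nat_lit 0x2000200010, nat_lit 0x1102, nat_lit 2, nat_lit 3, nat_lit 0x46⟩ (.node ⟨nat_lit 7, nat_lit 0x10004000400020, nat_lit 0x100102, nat_lit 2, nat_lit 4, nat_lit 0x48⟩ (t14_2462) (t14_10654)) (.node ⟨nat_lit 8, nat_lit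 0x80008000880088, nat_lit 0x2100020, nat_lit 1, nat_lit 4, nat_lit 0x49⟩ (t14_6558) (t14_14750)))) (.node ⟨nat_lit 5, nat_lit 0x100018, nat_lit 0x2103, nat_lit 2, nat_lit 4, nat_lit 0x47⟩ (.node ⟨nat_lit 6, nat_lit 0x2000080030, nat_lit 0x12012, nat_lit 3, nat_lit 4, nat_lit 0x48⟩ (.node ⟨nat_lit 5, nat_lit 0x80010, nat_lit 0x11000, nat_lit 0, nat_lit 4, nat_lit 0x45⟩ (t14_1438) (t14_9630)) (.node ⟨nat_lit 7, nat_lit 0x20004000600068, nat_lit 0x1121112, nat_lit 0, nat_lit 4, nat_lit 0x48⟩ (t14_5534) (t14_13726))) (.node ⟨nat_lit 6, nat_lit 0x200020, nat_lit 0x11121, nat_lit 2, nat_lit 4, nat_lit 0x49⟩ (.node ⟨nat_lit 8, nat_lit 0x10006000c000a0, nat_lit 0x10100003, nat_lit 1, nat_lit 4, nat_lit 0x48⟩ (t14_3486) (t14_11678)) (.node ⟨nat_lit 7, nat_lit 0x500060, nat_lit 0x1111112, nat_lit 2, nat_lit 4, nat_lit 0x4a⟩ (t14_7582) (.nil))))) (.node ⟨nat_lit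 5, nat_lit 0x18, nat_lit 0x20311, nat_lit 3, nat_lit 3, nat_lit 0x48⟩ (.node ⟨nat_lit 5, nat_lit 0x10001a, nat_lit 0x21211, nat_lit 3, nat_lit 4, nat_lit 0x48⟩ (.node ⟨nat_lit 5, nat_lit 0, nat_lit 0x11111, nat_lit 5, nat_lit 4, nat_lit 0x4a⟩ (.node ⟨nat_lit 6, nat_lit 0x300038, nat_lit 0x112113, nat_lit 1, nat_lit 4, nat_lit 0x48⟩ (t14_926) (t14_9118)) (.node ⟨nat_lit 8, nat_lit 0x800080008000400090, nat_lit 0x2111020, nat_lit 1, nat_lit 4, nat_lit 0x4a⟩ (t14_5022) (t14_13214))) (.node ⟨nat_lit 6, nat_lit 0x200030, nat_lit 0x111130, nat_lit 1, nat_lit 4, nat_lit 0x49⟩ (.node ⟨nat_lit 7, nat_lit 0x40004000200010, nat_lit 0x111021, nat_lit 1, nat_lit 3, nat_lit 0x47⟩ (t14_2974) (t14_11166)) (.node ⟨nat_lit 9, nat_lit 0x100010001000080011001a0, nat_lit 0x11100202, nat_lit 0, nat_lit 4, nat_lit 0x49⟩ (t14_7070) (t14_15262)))) (.node ⟨nat_lit 7, nat_lit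 0x40002000200010, nat_lit 0x20101, nat_lit 1, nat_lit 4, nat_lit 0x48⟩ (.node ⟨nat_lit 5, nat_lit 0x18001c, nat_lit 0x20112, nat_lit 3, nat_lit 4, nat_lit 0x46⟩ (.node ⟨nat_lit 7, nat_lit 0x40001000680068, nat_lit 0x2110031, nat_lit 0, nat_lit 4, nat_lit 0x47⟩ (t14_1950) (t14_10142)) (.node ⟨nat_lit 7, nat_lit 0x10005000600060, nat_lit 0x22120, nat_lit 0, nat_lit 4, nat_lit 0x47⟩ (t14_6046) (t14_14238))) (.node ⟨nat_lit 7, nat_lit 0x4000400060, nat_lit 0x111210, nat_lit 0, nat_lit 4, nat_lit 0x49⟩ (.node ⟨nat_lit 5, nat_lit 0x1000080008, nat_lit 0x1010, nat_lit 2, nat_lit 3, nat_lit 0x45⟩ (t14_3998) (t14_12190)) (.node ⟨nat_lit 8, nat_lit 0x800040004000a000c000d0, nat_lit 0x10111021, nat_lit 0, nat_lit 4, nat_lit 0x47⟩ (t14_8094) (.nil)))))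
def t14_94 : Tr := .node ⟨nat_lit 7, nat_lit 0x200020004000440060, nat_lit 0x1121111, nat_lit 0, nat_lit 4, nat_lit 0x48⟩ (.nil) (.nil)
def t14_8286 : Tr := .node ⟨nat_lit 7, nat_lit 0x40001000600068, nat_lit 0x13103, nat_lit 1, nat_lit 4, nat_lit 0x47⟩ (.nil) (.nil)
def t14_4190 : Tr := .node ⟨nat_lit 8, nat_lit 0x80008000400040009000a0, nat_lit 0x1112100, nat_lit 0, nat_lit 4, nat_lit 0x48⟩ (.nil) (.nil)
def t14_12382 : Tr := .node ⟨nat_lit 8, nat_lit 0x4000400080008000c4, nat_lit 0x131000, nat_lit 3, nat_lit 4, nat_lit 0x49⟩ (.nil) (.nil)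
def t14_2142 : Tr := .node ⟨nat_lit 7, nat_lit 0x40001000200020, nat_lit 0x2101020, nat_lit 0, nat_lit 3, nat_lit 0x48⟩ (.nil) (.nil)
def t14_10334 : Tr := .node ⟨nat_lit 7, nat_lit 0x40002000500060, nat_lit 0x112120, nat_lit 2, nat_lit 4, nat_lit 0x48⟩ (.nil) (.nil)
def t14_6238 : Tr := .node ⟨nat_lit 6, nat_lit 0x200020, nat_lit 0x11110, nat_lit 4, nat_lit 4, nat_lit 0x49⟩ (.nil) (.nil)
def t14_14430 : Tr := .node ⟨nat_lit 7, nat_lit 0x40001000600070, nat_lit 0x112, nat_lit 1, nat_lit 4, nat_lit 0x45⟩ (.nil) (.nil)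
def t14_1118 : Tr := .node ⟨nat_lit 5, nat_lit 0x40018, nat_lit 0x21033, nat_lit 0, nat_lit 4, nat_lit 0x47⟩ (.nil) (.nil)
def t14_9310 : Tr := .node ⟨nat_lit 6, nat_lit 0x3000300028, nat_lit 0x11221, nat_lit 4, nat_lit 4, nat_lit 0x47⟩ (.nil) (.nil)
def t14_5214 : Tr := .node ⟨nat_lit 8, nat_lit 0x400080008000800088, nat_lit 0x102111, nat_lit 3, nat_lit 4, nat_lit 0x4a⟩ (.nil) (.nil)
def t14_13406 : Tr := .node ⟨nat_lit 6, nat_lit 0x800200030, nat_lit 0x340, nat_lit 0, nat_lit 4, nat_lit 0x47⟩ (.nil) (.nil)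
def t14_3166 : Tr := .node ⟨nat_lit 7, nat_lit 0x20005000600060, nat_lit 0x10121, nat_lit 0, nat_lit 4, nat_lit 0x46⟩ (.nil) (.nil)
def t14_11358 : Tr := .node ⟨nat_lit 7, nat_lit 0x10002000400040, nat_lit 0x1010, nat_lit 1, nat_lit 3, nat_lit 0x46⟩ (.nil) (.nil)
def t14_7262 : Tr := .node ⟨nat_lit 6, nat_lit 0x240038, nat_lit 0x221012, nat_lit 0, nat_lit 4, nat_lit 0x48⟩ (.nil) (.nil)
def t14_15454 : Tr := .node ⟨nat_lit 7, nat_lit 0x20004000400060, nat_lit 0x10101, nat_lit 0, nat_lit 4, nat_lit 0x47⟩ (.nil) (.nil)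
def t14_606 : Tr := .node ⟨nat_lit 6, nat_lit 0x2000240034, nat_lit 0x103022, nat_lit 2, nat_lit 4, nat_lit 0x47⟩ (.nil) (.nil)
def t14_8798 : Tr := .node ⟨nat_lit 8, nat_lit 0x800080004000900090, nat_lit 0x110041, nat_lit 0, nat_lit 4, nat_lit 0x49⟩ (.nil) (.nil)
def t14_4702 : Tr := .node ⟨nat_lit 6, nat_lit 0x1000200038, nat_lit 0x110110, nat_lit 0, nat_lit 4, nat_lit 0x46⟩ (.nil) (.nil)
def t14_12894 : Tr := .node ⟨nat_lit 8, nat_lit 0x80002000c000e0, nat_lit 0x10003, nat_lit 1, nat_lit 4, nat_lit 0x47⟩ (.nil) (.nil)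
def t14_2654 : Tr := .node ⟨nat_lit 5, nat_lit 0x18001c, nat_lit 0x210, nat_lit 3, nat_lit 4, nat_lit 0x45⟩ (.nil) (.nil)
def t14_10846 : Tr := .node ⟨nat_lit 8, nat_lit 0x400080008000880088, nat_lit 0x102020, nat_lit 1, nat_lit 4, nat_lit 0x49⟩ (.nil) (.nil)
def t14_6750 : Tr := .node ⟨nat_lit 6, nat_lit 0x2000080030, nat_lit 0x21020, nat_lit 0, nat_lit 4, nat_lit 0x47⟩ (.nil) (.nil)
def t14_14942 : Tr := .node ⟨nat_lit 6, nat_lit 0x200020003000300028, nat_lit 0x12111, nat_lit 5, nat_lit 4, nat_lit 0x47⟩ (.nil) (.nil)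
def t14_1630 : Tr := .node ⟨nat_lit 8, nat_lit 0x80004000c000d000c8, nat_lit 0x122200, nat_lit 0, nat_lit 4, nat_lit 0x47⟩ (.nil) (.nil)
def t14_9822 : Tr := .node ⟨nat_lit 7, nat_lit 0x40001000600050, nat_lit 0x100120, nat_lit 0, nat_lit 3, nat_lit 0x45⟩ (.nil) (.nil)
def t14_5726 : Tr := .node ⟨nat_lit 6, nat_lit 0x2000100030, nat_lit 0x1302, nat_lit 1, nat_lit 4, nat_lit 0x47⟩ (.nil) (.nil)
def t14_13918 : Tr := .node ⟨nat_lit 8, nat_lit 0x4000400080008000880060, nat_lit 0x10100020, nat_lit 0, nat_lit 4, nat_lit 0x47⟩ (.nil) (.nil)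
def t14_3678 : Tr := .node ⟨nat_lit 7, nat_lit 0x40001000600050, nat_lit 0x2021, nat_lit 3, nat_lit 4, nat_lit 0x47⟩ (.nil) (.nil)
def t14_11870 : Tr := .node ⟨nat_lit 4, nat_lit 0x800080008, nat_lit 0x1100, nat_lit 6, nat_lit 3, nat_lit 0x45⟩ (.nil) (.nil)
def t14_7774 : Tr := .node ⟨nat_lit 4, nat_lit 0x8000c, nat_lit 0x132, nat_lit 0xa, nat_lit 4, nat_lit 0x47⟩ (.nil) (.nil)
def t9_94 : Tr := .node ⟨nat_lit 3, nat_lit 0, nat_lit 0x111, nat_lit 7, nat_lit 3, nat_lit 0x46⟩ (.node ⟨nat_lit 6, nat_lit 0x2000100024, nat_lit 0x113202, nat_lit 1, nat_lit 4, nat_lit 0x49⟩ (.node ⟨nat_lit 6, nat_lit 0x2000200030, nat_lit 0x13301, nat_lit 0, nat_lit 3, nat_lit 0x47⟩ (.node ⟨nat_lit 6, nat_lit 0x20, nat_lit 0x121110, nat_lit 0, nat_lit 4, nat_lit 0x4a⟩ (.node ⟨nat_lit 4, nat_lit 0x80004, nat_lit 0x2213, nat_lit 6, nat_lit 4, nat_lit 0x49⟩ (t14_94) (t14_8286))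 (.node ⟨nat_lit 6, nat_lit 0x2000080030, nat_lit 0x2002, nat_lit 0, nat_lit 4, nat_lit 0x46⟩ (t14_4190) (t14_12382))) (.node ⟨nat_lit 4, nat_lit 0xc, nat_lit 0x2212, nat_lit 6, nat_lit 3, nat_lit 0x47⟩ (.node ⟨nat_lit 5, nat_lit 0x1000180018, nat_lit 0x11231, nat_lit 3, nat_lit 3, nat_lit 0x45⟩ (t14_2142) (t14_10334)) (.node ⟨nat_lit 7, nat_lit 0x4000100060, nat_lit 0x12211, nat_lit 1, nat_lit 4, nat_lit 0x49⟩ (t14_6238) (t14_14430)))) (.node ⟨nat_lit 6, nat_lit 0x200030, nat_lit 0x12231, nat_lit 0, nat_lit 4, nat_lit 0x49⟩ (.node ⟨nat_lit 6, nat_lit 0x2000100010, nat_lit 0x121121, nat_lit 0, nat_lit 3, nat_lit 0x48⟩ (.node ⟨nat_lit 6, nat_lit 0x1800280030, nat_lit 0x111132, nat_lit 2, nat_lit 4, nat_lit 0x47⟩ (t14_1118) (t14_9310)) (.node ⟨nat_lit 7, nat_lit 0x40001000600060, nat_lit 0x112121, nat_lit 1, nat_lit 4, nat_lit 0x48⟩ (t14_5214) (t14_13406)))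 (.node ⟨nat_lit 6, nat_lit 0x100020, nat_lit 0x212101, nat_lit 0, nat_lit 4, nat_lit 0x4a⟩ (.node ⟨nat_lit 6, nat_lit 0x800300030, nat_lit 0x101030, nat_lit 1, nat_lit 3, nat_lit 0x45⟩ (t14_3166) (t14_11358)) (.node ⟨nat_lit 7, nat_lit 0x40002000480068, nat_lit 0x1010102, nat_lit 0, nat_lit 4, nat_lit 0x46⟩ (t14_7262) (t14_15454))))) (.node ⟨nat_lit 4, nat_lit 0x80004, nat_lit 0x202, nat_lit 1, nat_lit 3, nat_lit 0x45⟩ (.node ⟨nat_lit 4, nat_lit 0x40008, nat_lit 0x2122, nat_lit 3, nat_lit 4, nat_lit 0x47⟩ (.node ⟨nat_lit 6, nat_lit 0x1000200030, nat_lit 0x2011, nat_lit 3, nat_lit 4, nat_lit 0x47⟩ (.node ⟨nat_lit 6, nat_lit 0x20002000100028, nat_lit 0x212011, nat_lit 3, nat_lit 4, nat_lit 0x49⟩ (t14_606) (t14_8798)) (.node ⟨nat_lit 7, nat_lit 0x40001000100060, nat_lit 0x1110212, nat_lit 0, nat_lit 4, nat_lit 0x49⟩ (t14_4702) (t14_12894))) (.node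 ⟨nat_lit 6, nat_lit 0x2000080030, nat_lit 0x101202, nat_lit 1, nat_lit 4, nat_lit 0x47⟩ (.node ⟨nat_lit 6, nat_lit 0x2000080030, nat_lit 0x121203, nat_lit 2, nat_lit 4, nat_lit 0x49⟩ (t14_2654) (t14_10846)) (.node ⟨nat_lit 0xa, nat_lit 0x20002000100010002100220, nat_lit 0x1011111000, nat_lit 0, nat_lit 4, nat_lit 0x4b⟩ (t14_6750) (t14_14942)))) (.node ⟨nat_lit 7, nat_lit 0x1000400062, nat_lit 0x2101010, nat_lit 1, nat_lit 4, nat_lit 0x49⟩ (.node ⟨nat_lit 7, nat_lit 0x2000500064, nat_lit 0x2102110, nat_lit 1, nat_lit 4, nat_lit 0x49⟩ (.node ⟨nat_lit 5, nat_lit 0x100018, nat_lit 0x110, nat_lit 3, nat_lit 3, nat_lit 0x45⟩ (t14_1630) (t14_9822)) (.node ⟨nat_lit 7, nat_lit 0x4000400020, nat_lit 0x122001, nat_lit 5, nat_lit 4, nat_lit 0x4b⟩ (t14_5726) (t14_13918))) (.node ⟨nat_lit 7, nat_lit 0x2000500060, nat_lit 0x21220, nat_lit 0, nat_lit 4, nat_lit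 0x48⟩ (.node ⟨nat_lit 7, nat_lit 0x20004000100060, nat_lit 0x10001, nat_lit 0, nat_lit 4, nat_lit 0x46⟩ (t14_3678) (t14_11870)) (.node ⟨nat_lit 6, nat_lit 0x2000300030, nat_lit 0x101121, nat_lit 7, nat_lit 4, nat_lit 0x48⟩ (t14_7774) (.nil)))))
def t14_350 : Tr := .node ⟨nat_lit 6, nat_lit 0x2000200034, nat_lit 0x102221, nat_lit 2, nat_lit 4, nat_lit 0x49⟩ (.nil) (.nil)
def t14_8542 : Tr := .node ⟨nat_lit 6, nat_lit 0x2000240024, nat_lit 0x111141, nat_lit 3, nat_lit 4, nat_lit 0x49⟩ (.nil) (.nil)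
def t14_4446 : Tr := .node ⟨nat_lit 8, nat_lit 0x40001000200080, nat_lit 0x11110101, nat_lit 4, nat_lit 4, nat_lit 0x4b⟩ (.nil) (.nil)
def t14_12638 : Tr := .node ⟨nat_lit 7, nat_lit 0x10002000400060, nat_lit 0x12010, nat_lit 0, nat_lit 4, nat_lit 0x47⟩ (.nil) (.nil)
def t14_2398 : Tr := .node ⟨nat_lit 7, nat_lit 0x200040006000680068, nat_lit 0x1020210, nat_lit 3, nat_lit 4, nat_lit 0x46⟩ (.nil) (.nil)
def t14_10590 : Tr := .node ⟨nat_lit 5, nat_lit 0x140018, nat_lit 0x2000, nat_lit 3, nat_lit 4, nat_lit 0x45⟩ (.nil) (.nil)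
def t14_6494 : Tr := .node ⟨nat_lit 6, nat_lit 0x80030, nat_lit 0x101111, nat_lit 5, nat_lit 4, nat_lit 0x49⟩ (.nil) (.nil)
def t14_14686 : Tr := .node ⟨nat_lit 9, nat_lit 0x80008001000100010801a0, nat_lit 0x111111, nat_lit 0, nat_lit 4, nat_lit 0x48⟩ (.nil) (.nil)
def t14_1374 : Tr := .node ⟨nat_lit 6, nat_lit 0x2000080030, nat_lit 0x110031, nat_lit 0, nat_lit 4, nat_lit 0x47⟩ (.nil) (.nil)
def t14_9566 : Tr := .node ⟨nat_lit 8, nat_lit 0x8000c000c800c8, nat_lit 0x101220, nat_lit 0, nat_lit 4, nat_lit 0x47⟩ (.nil) (.nil)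
def t14_5470 : Tr := .node ⟨nat_lit 7, nat_lit 0x20004000440028, nat_lit 0x1013001, nat_lit 1, nat_lit 4, nat_lit 0x48⟩ (.nil) (.nil)
def t14_13662 : Tr := .node ⟨nat_lit 6, nat_lit 0x2000100024, nat_lit 0x13002, nat_lit 1, nat_lit 4, nat_lit 0x47⟩ (.nil) (.nil)
def t14_3422 : Tr := .node ⟨nat_lit 7, nat_lit 0x1000600018, nat_lit 0x2000001, nat_lit 1, nat_lit 4, nat_lit 0x47⟩ (.nil) (.nil)
def t14_11614 : Tr := .node ⟨nat_lit 6, nat_lit 0x3000300030, nat_lit 0x1310, nat_lit 6, nat_lit 4, nat_lit 0x47⟩ (.nil) (.nil)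
def t14_7518 : Tr := .node ⟨nat_lit 6, nat_lit 0x200020, nat_lit 0x111111, nat_lit 8, nat_lit 4, nat_lit 0x4b⟩ (.nil) (.nil)
def t14_862 : Tr := .node ⟨nat_lit 5, nat_lit 0x1000080018, nat_lit 0x1212, nat_lit 7, nat_lit 4, nat_lit 0x47⟩ (.nil) (.nil)
def t14_9054 : Tr := .node ⟨nat_lit 7, nat_lit 0x10004000600060, nat_lit 0x221, nat_lit 3, nat_lit 4, nat_lit 0x47⟩ (.nil) (.nil)
def t14_4958 : Tr := .node ⟨nat_lit 7, nat_lit 0x1000600060, nat_lit 0x1101031, nat_lit 2, nat_lit 4, nat_lit 0x49⟩ (.nil) (.nil)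
def t14_13150 : Tr := .node ⟨nat_lit 7, nat_lit 0x40001000100060, nat_lit 0x213, nat_lit 0, nat_lit 4, nat_lit 0x47⟩ (.nil) (.nil)
def t14_2910 : Tr := .node ⟨nat_lit 7, nat_lit 0x20006000500068, nat_lit 0x211120, nat_lit 0, nat_lit 4, nat_lit 0x47⟩ (.nil) (.nil)
def t14_11102 : Tr := .node ⟨nat_lit 6, nat_lit 0x300030, nat_lit 0x2120, nat_lit 4, nat_lit 4, nat_lit 0x48⟩ (.nil) (.nil)
def t14_7006 : Tr := .node ⟨nat_lit 7, nat_lit 0x4000600060, nat_lit 0x1011311, nat_lit 0, nat_lit 4, nat_lit 0x49⟩ (.nil) (.nil)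
def t14_15198 : Tr := .node ⟨nat_lit 8, nat_lit 0x20002800c000a0, nat_lit 0x10011101, nat_lit 1, nat_lit 4, nat_lit 0x48⟩ (.nil) (.nil)
def t14_1886 : Tr := .node ⟨nat_lit 7, nat_lit 0x1000600060, nat_lit 0x2001021, nat_lit 0, nat_lit 4, nat_lit 0x48⟩ (.nil) (.nil)
def t14_10078 : Tr := .node ⟨nat_lit 8, nat_lit 0x1000a000c000c0, nat_lit 0x100220, nat_lit 4, nat_lit 4, nat_lit 0x48⟩ (.nil) (.nil)
def t14_5982 : Tr := .node ⟨nat_lit 9, nat_lit 0x100010001000108, nat_lit 0x11111100, nat_lit 2, nat_lit 4, nat_lit 0x4c⟩ (.nil) (.nil)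
def t14_14174 : Tr := .node ⟨nat_lit 6, nat_lit 0x2000280030, nat_lit 0x11120, nat_lit 7, nat_lit 4, nat_lit 0x48⟩ (.nil) (.nil)
def t14_3934 : Tr := .node ⟨nat_lit 8, nat_lit 0x8000800040009000d000e0, nat_lit 0x10013010, nat_lit 1, nat_lit 4, nat_lit 0x47⟩ (.nil) (.nil)
def t14_12126 : Tr := .node ⟨nat_lit 6, nat_lit 0x1000280030, nat_lit 0x11020, nat_lit 5, nat_lit 4, nat_lit 0x47⟩ (.nil) (.nil)
def t14_8030 : Tr := .node ⟨nat_lit 7, nat_lit 0x40002000200048, nat_lit 0x11103, nat_lit 0, nat_lit 4, nat_lit 0x47⟩ (.nil) (.nil)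
def t9_350 : Tr := .node ⟨nat_lit 4, nat_lit 0, nat_lit 0x3333, nat_lit 0, nat_lit 4, nat_lit 0x4b⟩ (.node ⟨nat_lit 5, nat_lit 0x40018, nat_lit 0x32103, nat_lit 0, nat_lit 4, nat_lit 0x49⟩ (.node ⟨nat_lit 5, nat_lit 0x10, nat_lit 0x22222, nat_lit 0, nat_lit 4, nat_lit 0x4a⟩ (.node ⟨nat_lit 6, nat_lit 0x800300030, nat_lit 0x111220, nat_lit 2, nat_lit 4, nat_lit 0x47⟩ (.node ⟨nat_lit 7, nat_lit 0x40004000200010, nat_lit 0x1122101, nat_lit 0, nat_lit 4, nat_lit 0x4a⟩ (t14_350) (t14_8542)) (.node ⟨nat_lit 8, nat_lit 0x8000800040002000c0, nat_lit 0x1110013, nat_lit 0, nat_lit 4, nat_lit 0x49⟩ (t14_4446) (t14_12638))) (.node ⟨nat_lit 7, nat_lit 0x1000400060, nat_lit 0x2102012, nat_lit 0, nat_lit 4, nat_lit 0x4a⟩ (.node ⟨nat_lit 5, nat_lit 0x140018, nat_lit 0x11031, nat_lit 3, nat_lit 4, nat_lit 0x46⟩ (t14_2398) (t14_10590)) (.node ⟨nat_lit 6, nat_lit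 0x300030, nat_lit 0x2220, nat_lit 3, nat_lit 4, nat_lit 0x48⟩ (t14_6494) (t14_14686)))) (.node ⟨nat_lit 3, nat_lit 6, nat_lit 0x211, nat_lit 6, nat_lit 4, nat_lit 0x45⟩ (.node ⟨nat_lit 7, nat_lit 0x1000400060, nat_lit 0x1202022, nat_lit 0, nat_lit 4, nat_lit 0x4a⟩ (.node ⟨nat_lit 7, nat_lit 0x800500060, nat_lit 0x120003, nat_lit 1, nat_lit 4, nat_lit 0x48⟩ (t14_1374) (t14_9566)) (.node ⟨nat_lit 7, nat_lit 0x40001000100060, nat_lit 0x1012201, nat_lit 3, nat_lit 4, nat_lit 0x49⟩ (t14_5470) (t14_13662))) (.node ⟨nat_lit 5, nat_lit 0x18, nat_lit 0x30212, nat_lit 6, nat_lit 4, nat_lit 0x4a⟩ (.node ⟨nat_lit 8, nat_lit 0x800020002000c000d0, nat_lit 0x10031002, nat_lit 0, nat_lit 4, nat_lit 0x48⟩ (t14_3422) (t14_11614)) (.node ⟨nat_lit 7, nat_lit 0x20006000500068, nat_lit 0x101201, nat_lit 1, nat_lit 4, nat_lit 0x46⟩ (t14_7518) (.nil))))) (.node ⟨nat_lit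 5, nat_lit 0x10, nat_lit 0x3111, nat_lit 0, nat_lit 4, nat_lit 0x48⟩ (.node ⟨nat_lit 6, nat_lit 0x100020, nat_lit 0x212101, nat_lit 1, nat_lit 4, nat_lit 0x4a⟩ (.node ⟨nat_lit 6, nat_lit 0x800280030, nat_lit 0x11112, nat_lit 1, nat_lit 4, nat_lit 0x46⟩ (.node ⟨nat_lit 7, nat_lit 0x1000600060, nat_lit 0x22021, nat_lit 0, nat_lit 4, nat_lit 0x48⟩ (t14_862) (t14_9054)) (.node ⟨nat_lit 8, nat_lit 0x80004000c0, nat_lit 0x1211002, nat_lit 1, nat_lit 4, nat_lit 0x4b⟩ (t14_4958) (t14_13150))) (.node ⟨nat_lit 5, nat_lit 0x1000080014, nat_lit 0x11120, nat_lit 2, nat_lit 4, nat_lit 0x46⟩ (.node ⟨nat_lit 9, nat_lit 0x1000040002000800110, nat_lit 0x110020011, nat_lit 0, nat_lit 4, nat_lit 0x4a⟩ (t14_2910) (t14_11102)) (.node ⟨nat_lit 7, nat_lit 0x400020002800500070, nat_lit 0x1113012, nat_lit 0, nat_lit 4, nat_lit 0x47⟩ (t14_7006) (t14_15198)))) (.node ⟨nat_lit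 6, nat_lit 0x200010, nat_lit 0x11100, nat_lit 0, nat_lit 3, nat_lit 0x47⟩ (.node ⟨nat_lit 5, nat_lit 0x100018, nat_lit 0x21111, nat_lit 3, nat_lit 4, nat_lit 0x48⟩ (.node ⟨nat_lit 7, nat_lit 0x4000600064, nat_lit 0x1111231, nat_lit 0, nat_lit 4, nat_lit 0x49⟩ (t14_1886) (t14_10078)) (.node ⟨nat_lit 7, nat_lit 0x20006000500068, nat_lit 0x21022, nat_lit 0, nat_lit 4, nat_lit 0x46⟩ (t14_5982) (t14_14174))) (.node ⟨nat_lit 6, nat_lit 0x10001000200022, nat_lit 0x1022, nat_lit 2, nat_lit 4, nat_lit 0x46⟩ (.node ⟨nat_lit 7, nat_lit 0x400020005000500060, nat_lit 0x1010003, nat_lit 2, nat_lit 4, nat_lit 0x47⟩ (t14_3934) (t14_12126)) (.node ⟨nat_lit 9, nat_lit 0x40010000200180, nat_lit 0x100010201, nat_lit 3, nat_lit 4, nat_lit 0x4b⟩ (t14_8030) (.nil)))))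
def t14_222 : Tr := .node ⟨nat_lit 7, nat_lit 0x2000500060, nat_lit 0x1012311, nat_lit 0, nat_lit 4, nat_lit 0x49⟩ (.nil) (.nil)
def t14_8414 : Tr := .node ⟨nat_lit 7, nat_lit 0x400040002000200050, nat_lit 0x22103, nat_lit 2, nat_lit 4, nat_lit 0x48⟩ (.nil) (.nil)
def t14_4318 : Tr := .node ⟨nat_lit 9, nat_lit 0x100010000800140012001c001c0, nat_lit 0x100110120, nat_lit 1, nat_lit 4, nat_lit 0x47⟩ (.nil) (.nil)
def t14_12510 : Tr := .node ⟨nat_lit 6, nat_lit 0x300028, nat_lit 0x2000, nat_lit 0, nat_lit 4, nat_lit 0x46⟩ (.nil) (.nil)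
def t14_2270 : Tr := .node ⟨nat_lit 8, nat_lit 0x800020004000a000c0, nat_lit 0x120002, nat_lit 0, nat_lit 3, nat_lit 0x46⟩ (.nil) (.nil)
def t14_10462 : Tr := .node ⟨nat_lit 8, nat_lit 0x80002000c000a000d0, nat_lit 0x30022, nat_lit 0, nat_lit 4, nat_lit 0x47⟩ (.nil) (.nil)
def t14_6366 : Tr := .node ⟨nat_lit 3, nat_lit 0x40004, nat_lit 0x22, nat_lit 0xa, nat_lit 4, nat_lit 0x46⟩ (.nil) (.nil)
def t14_14558 : Tr := .node ⟨nat_lit 6, nat_lit 0x2000200030, nat_lit 0x1210, nat_lit 0xa, nat_lit 4, nat_lit 0x49⟩ (.nil) (.nil)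
def t14_1246 : Tr := .node ⟨nat_lit 6, nat_lit 0x800300030, nat_lit 0x100311, nat_lit 1, nat_lit 4, nat_lit 0x46⟩ (.nil) (.nil)
def t14_9438 : Tr := .node ⟨nat_lit 7, nat_lit 0x400040002000500060, nat_lit 0x112212, nat_lit 2, nat_lit 4, nat_lit 0x48⟩ (.nil) (.nil)
def t14_5342 : Tr := .node ⟨nat_lit 7, nat_lit 0x2000400060, nat_lit 0x1111130, nat_lit 0, nat_lit 4, nat_lit 0x4a⟩ (.nil) (.nil)
def t14_13534 : Tr := .node ⟨nat_lit 6, nat_lit 0x2000080030, nat_lit 0x1202, nat_lit 3, nat_lit 4, nat_lit 0x47⟩ (.nil) (.nil)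
def t14_3294 : Tr := .node ⟨nat_lit 8, nat_lit 0x8000400040005000a000c0, nat_lit 0x10220101, nat_lit 0, nat_lit 4, nat_lit 0x48⟩ (.nil) (.nil)
def t14_11486 : Tr := .node ⟨nat_lit 6, nat_lit 0x10002000240038, nat_lit 0x11110, nat_lit 2, nat_lit 4, nat_lit 0x45⟩ (.nil) (.nil)
def t14_7390 : Tr := .node ⟨nat_lit 8, nat_lit 0x4000800020002000c0, nat_lit 0x10111201, nat_lit 0, nat_lit 4, nat_lit 0x49⟩ (.nil) (.nil)
def t14_15582 : Tr := .node ⟨nat_lit 4, nat_lit 0x40008, nat_lit 0x1001, nat_lit 0x14, nat_lit 4, nat_lit 0x49⟩ (.nil) (.nil)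
def t14_734 : Tr := .node ⟨nat_lit 6, nat_lit 0x10002000300034, nat_lit 0x101013, nat_lit 2, nat_lit 4, nat_lit 0x45⟩ (.nil) (.nil)
def t14_8926 : Tr := .node ⟨nat_lit 6, nat_lit 0x800300030, nat_lit 0x110, nat_lit 0, nat_lit 4, nat_lit 0x44⟩ (.nil) (.nil)
def t14_4830 : Tr := .node ⟨nat_lit 6, nat_lit 0x2000080030, nat_lit 0x101102, nat_lit 6, nat_lit 4, nat_lit 0x48⟩ (.nil) (.nil)
def t14_13022 : Tr := .node ⟨nat_lit 5, nat_lit 0x40018, nat_lit 0x20030, nat_lit 3, nat_lit 4, nat_lit 0x47⟩ (.nil) (.nil)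
def t14_2782 : Tr := .node ⟨nat_lit 8, nat_lit 0x400080002000c0, nat_lit 0x112001, nat_lit 1, nat_lit 4, nat_lit 0x49⟩ (.nil) (.nil)
def t14_10974 : Tr := .node ⟨nat_lit 8, nat_lit 0x8000800040004000a000a0, nat_lit 0x2010, nat_lit 3, nat_lit 4, nat_lit 0x47⟩ (.nil) (.nil)
def t14_6878 : Tr := .node ⟨nat_lit 7, nat_lit 0x400020, nat_lit 0x11102, nat_lit 2, nat_lit 4, nat_lit 0x4a⟩ (.nil) (.nil)
def t14_15070 : Tr := .node ⟨nat_lit 8, nat_lit 0x4000800020002000c0, nat_lit 0x11012101, nat_lit 0, nat_lit 4, nat_lit 0x49⟩ (.nil) (.nil)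
def t14_1758 : Tr := .node ⟨nat_lit 6, nat_lit 0x280030, nat_lit 0x12140, nat_lit 0, nat_lit 4, nat_lit 0x48⟩ (.nil) (.nil)
def t14_9950 : Tr := .node ⟨nat_lit 6, nat_lit 0x3000300038, nat_lit 0x1403, nat_lit 3, nat_lit 4, nat_lit 0x46⟩ (.nil) (.nil)
def t14_5854 : Tr := .node ⟨nat_lit 7, nat_lit 0x400060, nat_lit 0x11022, nat_lit 0, nat_lit 4, nat_lit 0x49⟩ (.nil) (.nil)
def t14_14046 : Tr := .node ⟨nat_lit 7, nat_lit 0x40002000500064, nat_lit 0x101202, nat_lit 2, nat_lit 4, nat_lit 0x47⟩ (.nil) (.nil)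
def t14_3806 : Tr := .node ⟨nat_lit 8, nat_lit 0x8000400040009000c0, nat_lit 0x10201002, nat_lit 2, nat_lit 4, nat_lit 0x49⟩ (.nil) (.nil)
def t14_11998 : Tr := .node ⟨nat_lit 7, nat_lit 0x40001000500060, nat_lit 0x212010, nat_lit 1, nat_lit 4, nat_lit 0x48⟩ (.nil) (.nil)
def t14_7902 : Tr := .node ⟨nat_lit 4, nat_lit 0x8000c, nat_lit 0x112, nat_lit 8, nat_lit 4, nat_lit 0x46⟩ (.nil) (.nil)
def t9_222 : Tr := .node ⟨nat_lit 3, nat_lit 4, nat_lit 0x231, nat_lit 5, nat_lit 4, nat_lit 0x47⟩ (.node ⟨nat_lit 5, nat_lit 0x100018, nat_lit 0x11131, nat_lit 0, nat_lit 3, nat_lit 0x46⟩ (.node ⟨nat_lit 5, nat_lit 0x800100012, nat_lit 0x31111, nat_lit 7, nat_lit 4, nat_lit 0x49⟩ (.node ⟨nat_lit 5, nat_lit 0x1000100008, nat_lit 0x11303, nat_lit 3, nat_lit 4, nat_lit 0x48⟩ (.node ⟨nat_lit 8, nat_lit 0x80004000400020, nat_lit 0x210102, nat_lit 4, nat_lit 4, nat_lit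 0x4b⟩ (t14_222) (t14_8414)) (.node ⟨nat_lit 7, nat_lit 0x40002000680070, nat_lit 0x101232, nat_lit 0, nat_lit 4, nat_lit 0x46⟩ (t14_4318) (t14_12510))) (.node ⟨nat_lit 5, nat_lit 0x1000080014, nat_lit 0x12222, nat_lit 5, nat_lit 4, nat_lit 0x48⟩ (.node ⟨nat_lit 6, nat_lit 0x800280030, nat_lit 0x110211, nat_lit 0, nat_lit 4, nat_lit 0x46⟩ (t14_2270) (t14_10462)) (.node ⟨nat_lit 7, nat_lit 0x20005000500068, nat_lit 0x1201220, nat_lit 0, nat_lit 4, nat_lit 0x47⟩ (t14_6366) (t14_14558)))) (.node ⟨nat_lit 5, nat_lit 0x800080010, nat_lit 0x21112, nat_lit 3, nat_lit 4, nat_lit 0x48⟩ (.node ⟨nat_lit 5, nat_lit 0x100018, nat_lit 0x20131, nat_lit 1, nat_lit 3, nat_lit 0x47⟩ (.node ⟨nat_lit 4, nat_lit 8, nat_lit 0x1110, nat_lit 4, nat_lit 4, nat_lit 0x46⟩ (t14_1246) (t14_9438)) (.node ⟨nat_lit 6, nat_lit 0x200030, nat_lit 0x102121, nat_lit 6, nat_lit 4, nat_lit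 0x4a⟩ (t14_5342) (t14_13534))) (.node ⟨nat_lit 5, nat_lit 0x100018, nat_lit 0x10203, nat_lit 3, nat_lit 4, nat_lit 0x47⟩ (.node ⟨nat_lit 6, nat_lit 0x1800300028, nat_lit 0x101104, nat_lit 2, nat_lit 4, nat_lit 0x47⟩ (t14_3294) (t14_11486)) (.node ⟨nat_lit 7, nat_lit 0x4000180060, nat_lit 0x111022, nat_lit 0, nat_lit 4, nat_lit 0x48⟩ (t14_7390) (t14_15582))))) (.node ⟨nat_lit 7, nat_lit 0x1000100060, nat_lit 0x1003101, nat_lit 1, nat_lit 4, nat_lit 0x49⟩ (.node ⟨nat_lit 6, nat_lit 0x30000c, nat_lit 0x102112, nat_lit 1, nat_lit 4, nat_lit 0x48⟩ (.node ⟨nat_lit 7, nat_lit 0x20002000400040, nat_lit 0x122100, nat_lit 0, nat_lit 4, nat_lit 0x49⟩ (.node ⟨nat_lit 7, nat_lit 0x4000100060, nat_lit 0x1022101, nat_lit 1, nat_lit 4, nat_lit 0x4a⟩ (t14_734) (t14_8926)) (.node ⟨nat_lit 8, nat_lit 0x8000800020002000c0, nat_lit 0x121200, nat_lit 1, nat_lit 4, nat_lit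 0x49⟩ (t14_4830) (t14_13022))) (.node ⟨nat_lit 6, nat_lit 0x800080030, nat_lit 0x110202, nat_lit 0, nat_lit 4, nat_lit 0x47⟩ (.node ⟨nat_lit 6, nat_lit 0x280030, nat_lit 0x121103, nat_lit 2, nat_lit 4, nat_lit 0x49⟩ (t14_2782) (t14_10974)) (.node ⟨nat_lit 5, nat_lit 0x100008, nat_lit 0x10122, nat_lit 1, nat_lit 3, nat_lit 0x46⟩ (t14_6878) (t14_15070)))) (.node ⟨nat_lit 5, nat_lit 0x180018, nat_lit 0x11121, nat_lit 5, nat_lit 4, nat_lit 0x47⟩ (.node ⟨nat_lit 6, nat_lit 0x1000200038, nat_lit 0x100121, nat_lit 1, nat_lit 4, nat_lit 0x46⟩ (.node ⟨nat_lit 7, nat_lit 0x2800480070, nat_lit 0x110113, nat_lit 0, nat_lit 4, nat_lit 0x46⟩ (t14_1758) (t14_9950)) (.node ⟨nat_lit 7, nat_lit 0x20002000200040, nat_lit 0x2022001, nat_lit 1, nat_lit 4, nat_lit 0x4a⟩ (t14_5854) (t14_14046))) (.node ⟨nat_lit 6, nat_lit 0x800200032, nat_lit 0x230202, nat_lit 0, nat_lit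 4, nat_lit 0x48⟩ (.node ⟨nat_lit 8, nat_lit 0x10002000c000a0, nat_lit 0x100003, nat_lit 1, nat_lit 4, nat_lit 0x48⟩ (t14_3806) (t14_11998)) (.node ⟨nat_lit 8, nat_lit 0x200080008400c0, nat_lit 0x10010201, nat_lit 5, nat_lit 4, nat_lit 0x4a⟩ (t14_7902) (.nil)))))
def t14_478 : Tr := .node ⟨nat_lit 8, nat_lit 0x100080002000c0, nat_lit 0x11111011, nat_lit 1, nat_lit 4, nat_lit 0x4a⟩ (.nil) (.nil)
def t14_8670 : Tr := .node ⟨nat_lit 7, nat_lit 0x10001000600060, nat_lit 0x1020, nat_lit 1, nat_lit 4, nat_lit 0x46⟩ (.nil) (.nil)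
def t14_4574 : Tr := .node ⟨nat_lit 6, nat_lit 0x80030, nat_lit 0x100201, nat_lit 2, nat_lit 3, nat_lit 0x47⟩ (.nil) (.nil)
def t14_12766 : Tr := .node ⟨nat_lit 7, nat_lit 0x20003000600050, nat_lit 0x11130, nat_lit 0, nat_lit 4, nat_lit 0x46⟩ (.nil) (.nil)
def t14_2526 : Tr := .node ⟨nat_lit 6, nat_lit 0x2000200030, nat_lit 0x12220, nat_lit 4, nat_lit 4, nat_lit 0x49⟩ (.nil) (.nil)
def t14_10718 : Tr := .node ⟨nat_lit 7, nat_lit 0x10002000500060, nat_lit 0x10020, nat_lit 0, nat_lit 4, nat_lit 0x46⟩ (.nil) (.nil)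
def t14_6622 : Tr := .node ⟨nat_lit 7, nat_lit 0x200020004000400044, nat_lit 0x1030110, nat_lit 2, nat_lit 4, nat_lit 0x48⟩ (.nil) (.nil)
def t14_14814 : Tr := .node ⟨nat_lit 7, nat_lit 0x4000200060, nat_lit 0x11021, nat_lit 1, nat_lit 3, nat_lit 0x47⟩ (.nil) (.nil)
def t14_1502 : Tr := .node ⟨nat_lit 9, nat_lit 0x400100010000200180, nat_lit 0x10102011, nat_lit 1, nat_lit 4, nat_lit 0x4a⟩ (.nil) (.nil)
def t14_9694 : Tr := .node ⟨nat_lit 0xb, nat_lit 0x2000400040004000100010004200440, nat_lit 0x1101010, nat_lit 1, nat_lit 4, nat_lit 0x4a⟩ (.nil) (.nil)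
def t14_5598 : Tr := .node ⟨nat_lit 7, nat_lit 0x400060007000700070, nat_lit 0x1001220, nat_lit 5, nat_lit 4, nat_lit 0x45⟩ (.nil) (.nil)
def t14_13790 : Tr := .node ⟨nat_lit 8, nat_lit 0x80002000c00030, nat_lit 0x1000210, nat_lit 1, nat_lit 4, nat_lit 0x48⟩ (.nil) (.nil)
def t14_3550 : Tr := .node ⟨nat_lit 7, nat_lit 0x50005000300060, nat_lit 0x2013, nat_lit 0, nat_lit 4, nat_lit 0x45⟩ (.nil) (.nil)
def t14_11742 : Tr := .node ⟨nat_lit 6, nat_lit 0x2000200010, nat_lit 0x2004, nat_lit 1, nat_lit 4, nat_lit 0x48⟩ (.nil) (.nil)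
def t14_7646 : Tr := .node ⟨nat_lit 3, nat_lit 0x40006, nat_lit 0x13, nat_lit 7, nat_lit 4, nat_lit 0x44⟩ (.nil) (.nil)
def t14_990 : Tr := .node ⟨nat_lit 7, nat_lit 0x20004000400044, nat_lit 0x10211, nat_lit 1, nat_lit 4, nat_lit 0x48⟩ (.nil) (.nil)
def t14_9182 : Tr := .node ⟨nat_lit 7, nat_lit 0x20006000500068, nat_lit 0x1221, nat_lit 1, nat_lit 4, nat_lit 0x45⟩ (.nil) (.nil)
def t14_5086 : Tr := .node ⟨nat_lit 6, nat_lit 0x20001000280038, nat_lit 0x1301, nat_lit 2, nat_lit 4, nat_lit 0x45⟩ (.nil) (.nil)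
def t14_13278 : Tr := .node ⟨nat_lit 7, nat_lit 0x40004800480060, nat_lit 0x12100, nat_lit 4, nat_lit 4, nat_lit 0x48⟩ (.nil) (.nil)
def t14_3038 : Tr := .node ⟨nat_lit 7, nat_lit 0x200040004000680068, nat_lit 0x1021111, nat_lit 3, nat_lit 4, nat_lit 0x47⟩ (.nil) (.nil)
def t14_11230 : Tr := .node ⟨nat_lit 7, nat_lit 0x1000600060, nat_lit 0x1010030, nat_lit 0, nat_lit 4, nat_lit 0x48⟩ (.nil) (.nil)
def t14_7134 : Tr := .node ⟨nat_lit 8, nat_lit 0x4000a000a000c0, nat_lit 0x122110, nat_lit 0, nat_lit 4, nat_lit 0x48⟩ (.nil) (.nil)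
def t14_15326 : Tr := .node ⟨nat_lit 7, nat_lit 0x200020004000400040, nat_lit 0x11210, nat_lit 3, nat_lit 4, nat_lit 0x48⟩ (.nil) (.nil)
def t14_2014 : Tr := .node ⟨nat_lit 4, nat_lit 0x8000c, nat_lit 0x133, nat_lit 5, nat_lit 4, nat_lit 0x46⟩ (.nil) (.nil)
def t14_10206 : Tr := .node ⟨nat_lit 4, nat_lit 0x8000c000c, nat_lit 0x221, nat_lit 0xa, nat_lit 4, nat_lit 0x46⟩ (.nil) (.nil)
def t14_6110 : Tr := .node ⟨nat_lit 3, nat_lit 4, nat_lit 0x20, nat_lit 0xd, nat_lit 4, nat_lit 0x47⟩ (.nil) (.nil)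
def t14_14302 : Tr := .node ⟨nat_lit 6, nat_lit 0x10002000200030, nat_lit 0x101100, nat_lit 0, nat_lit 3, nat_lit 0x45⟩ (.nil) (.nil)
def t14_4062 : Tr := .node ⟨nat_lit 6, nat_lit 0x10001000200020, nat_lit 0x1020, nat_lit 0, nat_lit 3, nat_lit 0x45⟩ (.nil) (.nil)
def t14_12254 : Tr := .node ⟨nat_lit 9, nat_lit 0x10001000040011001200180, nat_lit 0x1211000, nat_lit 1, nat_lit 4, nat_lit 0x49⟩ (.nil) (.nil)
def t14_8158 : Tr := .node ⟨nat_lit 8, nat_lit 0x2000800040004000c8, nat_lit 0x2003, nat_lit 1, nat_lit 4, nat_lit 0x47⟩ (.nil) (.nil)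
def t9_478 : Tr := .node ⟨nat_lit 5, nat_lit 0x80010, nat_lit 0x30301, nat_lit 0, nat_lit 4, nat_lit 0x49⟩ (.node ⟨nat_lit 7, nat_lit 0x40002000580068, nat_lit 0x3011002, nat_lit 1, nat_lit 4, nat_lit 0x48⟩ (.node ⟨nat_lit 5, nat_lit 0x10, nat_lit 0x22112, nat_lit 2, nat_lit 4, nat_lit 0x4a⟩ (.node ⟨nat_lit 7, nat_lit 0x4000200062, nat_lit 0x121120, nat_lit 0, nat_lit 4, nat_lit 0x49⟩ (.node ⟨nat_lit 7, nat_lit 0x20004000100060, nat_lit 0x22111, nat_lit 0, nat_lit 4, nat_lit 0x48⟩ (t14_478) (t14_8670)) (.node ⟨nat_lit 7, nat_lit 0x20002000400042, nat_lit 0x2112020, nat_lit 1, nat_lit 4, nat_lit 0x4a⟩ (t14_4574) (t14_12766))) (.node ⟨nat_lit 7, nat_lit 0x20004000100044, nat_lit 0x1000202, nat_lit 2, nat_lit 4, nat_lit 0x48⟩ (.node ⟨nat_lit 6, nat_lit 0x2000300034, nat_lit 0x111232, nat_lit 2, nat_lit 4, nat_lit 0x48⟩ (t14_2526) (t14_10718)) (.node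 ⟨nat_lit 6, nat_lit 0x200020, nat_lit 0x21122, nat_lit 2, nat_lit 4, nat_lit 0x4a⟩ (t14_6622) (t14_14814)))) (.node ⟨nat_lit 5, nat_lit 0x80010, nat_lit 0x21110, nat_lit 0, nat_lit 4, nat_lit 0x47⟩ (.node ⟨nat_lit 6, nat_lit 0x2000080030, nat_lit 0x121212, nat_lit 2, nat_lit 4, nat_lit 0x49⟩ (.node ⟨nat_lit 6, nat_lit 0x100020, nat_lit 0x111130, nat_lit 3, nat_lit 4, nat_lit 0x4a⟩ (t14_1502) (t14_9694)) (.node ⟨nat_lit 7, nat_lit 0x20002000100040, nat_lit 0x1112201, nat_lit 2, nat_lit 4, nat_lit 0x4a⟩ (t14_5598) (t14_13790))) (.node ⟨nat_lit 5, nat_lit 0x40018, nat_lit 0x21103, nat_lit 3, nat_lit 4, nat_lit 0x48⟩ (.node ⟨nat_lit 5, nat_lit 0x40018, nat_lit 0x11020, nat_lit 0, nat_lit 4, nat_lit 0x45⟩ (t14_3550) (t14_11742)) (.node ⟨nat_lit 6, nat_lit 0x200020002800280030, nat_lit 0x111200, nat_lit 4, nat_lit 4, nat_lit 0x47⟩ (t14_7646) (.nil)))))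 (.node ⟨nat_lit 6, nat_lit 0x2000200010, nat_lit 0x3003, nat_lit 1, nat_lit 4, nat_lit 0x48⟩ (.node ⟨nat_lit 6, nat_lit 0x20, nat_lit 0x122210, nat_lit 0, nat_lit 4, nat_lit 0x4b⟩ (.node ⟨nat_lit 8, nat_lit 0x800040, nat_lit 0x1111101, nat_lit 1, nat_lit 4, nat_lit 0x4c⟩ (.node ⟨nat_lit 6, nat_lit 0x20001000100028, nat_lit 0x103102, nat_lit 3, nat_lit 4, nat_lit 0x48⟩ (t14_990) (t14_9182)) (.node ⟨nat_lit 7, nat_lit 0x20004000600068, nat_lit 0x122210, nat_lit 1, nat_lit 4, nat_lit 0x48⟩ (t14_5086) (t14_13278))) (.node ⟨nat_lit 5, nat_lit 0x10, nat_lit 0x11110, nat_lit 0, nat_lit 4, nat_lit 0x47⟩ (.node ⟨nat_lit 4, nat_lit 0x80008, nat_lit 0x2211, nat_lit 6, nat_lit 3, nat_lit 0x47⟩ (t14_3038) (t14_11230)) (.node ⟨nat_lit 7, nat_lit 0x2000500060, nat_lit 0x1011022, nat_lit 4, nat_lit 4, nat_lit 0x49⟩ (t14_7134) (t14_15326)))) (.node ⟨nat_lit 6,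 nat_lit 0x200030, nat_lit 0x12120, nat_lit 0, nat_lit 4, nat_lit 0x48⟩ (.node ⟨nat_lit 7, nat_lit 0x800100060, nat_lit 0x3011111, nat_lit 1, nat_lit 4, nat_lit 0x4a⟩ (.node ⟨nat_lit 6, nat_lit 0x280030, nat_lit 0x102231, nat_lit 2, nat_lit 4, nat_lit 0x49⟩ (t14_2014) (t14_10206)) (.node ⟨nat_lit 8, nat_lit 0x80004000c000a000c8, nat_lit 0x1001202, nat_lit 0, nat_lit 4, nat_lit 0x47⟩ (t14_6110) (t14_14302))) (.node ⟨nat_lit 8, nat_lit 0x40008000200084, nat_lit 0x20010302, nat_lit 0, nat_lit 4, nat_lit 0x4b⟩ (.node ⟨nat_lit 7, nat_lit 0x4000640064, nat_lit 0x1010130, nat_lit 0, nat_lit 4, nat_lit 0x47⟩ (t14_4062) (t14_12254)) (.node ⟨nat_lit 7, nat_lit 0x400060, nat_lit 0x1011112, nat_lit 1, nat_lit 4, nat_lit 0x4a⟩ (t14_8158) (.nil)))))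
def t14_62 : Tr := .node ⟨nat_lit 5, nat_lit 0x100018, nat_lit 0x12221, nat_lit 4, nat_lit 4, nat_lit 0x49⟩ (.nil) (.nil)
def t14_8254 : Tr := .node ⟨nat_lit 7, nat_lit 0x10004000600064, nat_lit 0x100203, nat_lit 2, nat_lit 4, nat_lit 0x47⟩ (.nil) (.nil)
def t14_4158 : Tr := .node ⟨nat_lit 9, nat_lit 0x1000080008000a000a001400180, nat_lit 0x101111101, nat_lit 0, nat_lit 4, nat_lit 0x48⟩ (.nil) (.nil)
def t14_12350 : Tr := .node ⟨nat_lit 6, nat_lit 0x20001000280030, nat_lit 0x1100, nat_lit 3, nat_lit 4, nat_lit 0x45⟩ (.nil) (.nil)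
def t14_2110 : Tr := .node ⟨nat_lit 4, nat_lit 0x8000c, nat_lit 0x122, nat_lit 7, nat_lit 4, nat_lit 0x46⟩ (.nil) (.nil)
def t14_10302 : Tr := .node ⟨nat_lit 6, nat_lit 0x2800180030, nat_lit 0x100100, nat_lit 0, nat_lit 4, nat_lit 0x44⟩ (.nil) (.nil)
def t14_6206 : Tr := .node ⟨nat_lit 4, nat_lit 0x40008, nat_lit 0x1111, nat_lit 8, nat_lit 4, nat_lit 0x47⟩ (.nil) (.nil)
def t14_14398 : Tr := .node ⟨nat_lit 8, nat_lit 0x800020009000a000c0, nat_lit 0x12030, nat_lit 0, nat_lit 4, nat_lit 0x47⟩ (.nil) (.nil)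
def t14_1086 : Tr := .node ⟨nat_lit 7, nat_lit 0x4000100060, nat_lit 0x111211, nat_lit 2, nat_lit 4, nat_lit 0x49⟩ (.nil) (.nil)
def t14_9278 : Tr := .node ⟨nat_lit 6, nat_lit 0x20001000300030, nat_lit 0x100331, nat_lit 1, nat_lit 3, nat_lit 0x45⟩ (.nil) (.nil)
def t14_5182 : Tr := .node ⟨nat_lit 8, nat_lit 0x200080008000c0, nat_lit 0x1010310, nat_lit 1, nat_lit 4, nat_lit 0x4a⟩ (.nil) (.nil)
def t14_13374 : Tr := .node ⟨nat_lit 7, nat_lit 0x40002000480068, nat_lit 0x12300, nat_lit 0, nat_lit 4, nat_lit 0x47⟩ (.nil) (.nil)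
def t14_3134 : Tr := .node ⟨nat_lit 6, nat_lit 0x800200030, nat_lit 0x100100, nat_lit 0, nat_lit 3, nat_lit 0x45⟩ (.nil) (.nil)
def t14_11326 : Tr := .node ⟨nat_lit 7, nat_lit 0x20004000600060, nat_lit 0x11120, nat_lit 5, nat_lit 4, nat_lit 0x48⟩ (.nil) (.nil)
def t14_7230 : Tr := .node ⟨nat_lit 7, nat_lit 0x10004000400064, nat_lit 0x200211, nat_lit 1, nat_lit 4, nat_lit 0x48⟩ (.nil) (.nil)
def t14_15422 : Tr := .node ⟨nat_lit 8, nat_lit 0x40008000800060009000c0, nat_lit 0x1100102, nat_lit 0, nat_lit 4, nat_lit 0x47⟩ (.nil) (.nil)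
def t14_574 : Tr := .node ⟨nat_lit 7, nat_lit 0x20004000680070, nat_lit 0x222, nat_lit 1, nat_lit 4, nat_lit 0x45⟩ (.nil) (.nil)
def t14_8766 : Tr := .node ⟨nat_lit 7, nat_lit 0x40004000480068, nat_lit 0x121013, nat_lit 3, nat_lit 4, nat_lit 0x48⟩ (.nil) (.nil)
def t14_4670 : Tr := .node ⟨nat_lit 6, nat_lit 0x2000300028, nat_lit 0x111221, nat_lit 1, nat_lit 3, nat_lit 0x46⟩ (.nil) (.nil)
def t14_12862 : Tr := .node ⟨nat_lit 7, nat_lit 0x1000500060, nat_lit 0x2100, nat_lit 0, nat_lit 4, nat_lit 0x47⟩ (.nil) (.nil)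
def t14_2622 : Tr := .node ⟨nat_lit 6, nat_lit 0x10002000300038, nat_lit 0x2301, nat_lit 3, nat_lit 4, nat_lit 0x46⟩ (.nil) (.nil)
def t14_10814 : Tr := .node ⟨nat_lit 6, nat_lit 0x2000280030, nat_lit 0x11022, nat_lit 7, nat_lit 4, nat_lit 0x48⟩ (.nil) (.nil)
def t14_6718 : Tr := .node ⟨nat_lit 7, nat_lit 0x500060, nat_lit 0x111110, nat_lit 1, nat_lit 4, nat_lit 0x49⟩ (.nil) (.nil)
def t14_14910 : Tr := .node ⟨nat_lit 6, nat_lit 0x20002800380038, nat_lit 0x101121, nat_lit 6, nat_lit 4, nat_lit 0x46⟩ (.nil) (.nil)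
def t14_1598 : Tr := .node ⟨nat_lit 7, nat_lit 0x20006000500068, nat_lit 0x11201, nat_lit 0, nat_lit 4, nat_lit 0x45⟩ (.nil) (.nil)
def t14_9790 : Tr := .node ⟨nat_lit 7, nat_lit 0x20005000600070, nat_lit 0x12202, nat_lit 0, nat_lit 4, nat_lit 0x46⟩ (.nil) (.nil)
def t14_5694 : Tr := .node ⟨nat_lit 7, nat_lit 0x20004000600068, nat_lit 0x211202, nat_lit 0, nat_lit 4, nat_lit 0x48⟩ (.nil) (.nil)
def t14_13886 : Tr := .node ⟨nat_lit 8, nat_lit 0x200010008000c0, nat_lit 0x220, nat_lit 0, nat_lit 4, nat_lit 0x48⟩ (.nil) (.nil)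
def t14_3646 : Tr := .node ⟨nat_lit 5, nat_lit 0x100018, nat_lit 0x204, nat_lit 2, nat_lit 4, nat_lit 0x46⟩ (.nil) (.nil)
def t14_11838 : Tr := .node ⟨nat_lit 5, nat_lit 0x100008, nat_lit 0x133, nat_lit 2, nat_lit 4, nat_lit 0x47⟩ (.nil) (.nil)
def t14_7742 : Tr := .node ⟨nat_lit 5, nat_lit 0x1000080014, nat_lit 0x121, nat_lit 4, nat_lit 4, nat_lit 0x45⟩ (.nil) (.nil)
def t9_62 : Tr := .node ⟨nat_lit 5, nat_lit 0x80010, nat_lit 0x13211, nat_lit 1, nat_lit 4, nat_lit 0x49⟩ (.node ⟨nat_lit 4, nat_lit 0xc, nat_lit 0x3220, nat_lit 0, nat_lit 3, nat_lit 0x47⟩ (.node ⟨nat_lit 3, nat_lit 6, nat_lit 0x320, nat_lit 4, nat_lit 3, nat_lit 0x46⟩ (.node ⟨nat_lit 6, nat_lit 0x800200032, nat_lit 0x201011, nat_lit 1, nat_lit 4, nat_lit 0x47⟩ (.node ⟨nat_lit 6, nat_lit 0x2000200030, nat_lit 0x22113, nat_lit 2, nat_lit 4, nat_lit 0x49⟩ (t14_62) (t14_8254)) (.node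 ⟨nat_lit 7, nat_lit 0x800500060, nat_lit 0x11001, nat_lit 0, nat_lit 4, nat_lit 0x47⟩ (t14_4158) (t14_12350))) (.node ⟨nat_lit 5, nat_lit 0x100018, nat_lit 0x12122, nat_lit 6, nat_lit 4, nat_lit 0x49⟩ (.node ⟨nat_lit 7, nat_lit 0x4000200060, nat_lit 0x111213, nat_lit 0, nat_lit 4, nat_lit 0x49⟩ (t14_2110) (t14_10302)) (.node ⟨nat_lit 8, nat_lit 0x80001000a000c0, nat_lit 0x2011002, nat_lit 0, nat_lit 4, nat_lit 0x49⟩ (t14_6206) (t14_14398)))) (.node ⟨nat_lit 5, nat_lit 0x40018, nat_lit 0x21002, nat_lit 0, nat_lit 4, nat_lit 0x46⟩ (.node ⟨nat_lit 6, nat_lit 0x200030, nat_lit 0x202111, nat_lit 0, nat_lit 4, nat_lit 0x49⟩ (.node ⟨nat_lit 6, nat_lit 0x10002000240018, nat_lit 0x113110, nat_lit 1, nat_lit 4, nat_lit 0x47⟩ (t14_1086) (t14_9278)) (.node ⟨nat_lit 6, nat_lit 0x300030, nat_lit 0x101141, nat_lit 0, nat_lit 4, nat_lit 0x48⟩ (t14_5182) (t14_13374)))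 (.node ⟨nat_lit 5, nat_lit 0x80010, nat_lit 0x21100, nat_lit 4, nat_lit 4, nat_lit 0x48⟩ (.node ⟨nat_lit 6, nat_lit 0x1000200032, nat_lit 0x211000, nat_lit 1, nat_lit 4, nat_lit 0x47⟩ (t14_3134) (t14_11326)) (.node ⟨nat_lit 5, nat_lit 0x800100012, nat_lit 0x10013, nat_lit 3, nat_lit 4, nat_lit 0x46⟩ (t14_7230) (t14_15422))))) (.node ⟨nat_lit 5, nat_lit 0x800100010, nat_lit 0x23300, nat_lit 0, nat_lit 3, nat_lit 0x48⟩ (.node ⟨nat_lit 3, nat_lit 4, nat_lit 0x223, nat_lit 6, nat_lit 4, nat_lit 0x48⟩ (.node ⟨nat_lit 7, nat_lit 0x40002000200060, nat_lit 0x20201, nat_lit 1, nat_lit 4, nat_lit 0x48⟩ (.node ⟨nat_lit 5, nat_lit 0x10, nat_lit 0x21111, nat_lit 0xa, nat_lit 4, nat_lit 0x4b⟩ (t14_574) (t14_8766)) (.node ⟨nat_lit 7, nat_lit 0x10002000200040, nat_lit 0x1110110, nat_lit 1, nat_lit 4, nat_lit 0x49⟩ (t14_4670) (t14_12862))) (.node ⟨nat_lit 6, nat_lit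 0x300038, nat_lit 0x100012, nat_lit 0, nat_lit 4, nat_lit 0x45⟩ (.node ⟨nat_lit 8, nat_lit 0x80008000400088, nat_lit 0x1110030, nat_lit 1, nat_lit 4, nat_lit 0x4a⟩ (t14_2622) (t14_10814)) (.node ⟨nat_lit 7, nat_lit 0x40, nat_lit 0x1211110, nat_lit 5, nat_lit 4, nat_lit 0x4d⟩ (t14_6718) (t14_14910)))) (.node ⟨nat_lit 6, nat_lit 0x2000080034, nat_lit 0x201112, nat_lit 0, nat_lit 4, nat_lit 0x47⟩ (.node ⟨nat_lit 7, nat_lit 0x2000400060, nat_lit 0x221021, nat_lit 0, nat_lit 4, nat_lit 0x4a⟩ (.node ⟨nat_lit 5, nat_lit 0x140018, nat_lit 0x1010, nat_lit 5, nat_lit 4, nat_lit 0x45⟩ (t14_1598) (t14_9790)) (.node ⟨nat_lit 7, nat_lit 0x4000600064, nat_lit 0x111212, nat_lit 0, nat_lit 4, nat_lit 0x48⟩ (t14_5694) (t14_13886))) (.node ⟨nat_lit 7, nat_lit 0x10004000440060, nat_lit 0x200212, nat_lit 1, nat_lit 4, nat_lit 0x48⟩ (.node ⟨nat_lit 6, nat_lit 0x300038,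 nat_lit 0x111103, nat_lit 0, nat_lit 4, nat_lit 0x47⟩ (t14_3646) (t14_11838)) (.node ⟨nat_lit 7, nat_lit 0x40001000480068, nat_lit 0x1112000, nat_lit 1, nat_lit 4, nat_lit 0x48⟩ (t14_7742) (.nil)))))
def t14_318 : Tr := .node ⟨nat_lit 7, nat_lit 0x40002000500060, nat_lit 0x1012221, nat_lit 1, nat_lit 4, nat_lit 0x48⟩ (.nil) (.nil)
def t14_8510 : Tr := .node ⟨nat_lit 7, nat_lit 0x400040002000500050, nat_lit 0x11041, nat_lit 3, nat_lit 4, nat_lit 0x48⟩ (.nil) (.nil)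
def t14_4414 : Tr := .node ⟨nat_lit 7, nat_lit 0x40004000200048, nat_lit 0x1121010, nat_lit 5, nat_lit 4, nat_lit 0x4a⟩ (.nil) (.nil)
def t14_12606 : Tr := .node ⟨nat_lit 7, nat_lit 0x5000600070, nat_lit 0x10023, nat_lit 0, nat_lit 4, nat_lit 0x46⟩ (.nil) (.nil)
def t14_2366 : Tr := .node ⟨nat_lit 6, nat_lit 0x3000300030, nat_lit 0x2210, nat_lit 7, nat_lit 4, nat_lit 0x47⟩ (.nil) (.nil)
def t14_10558 : Tr := .node ⟨nat_lit 5, nat_lit 0x100014001c, nat_lit 0x1020, nat_lit 4, nat_lit 4, nat_lit 0x44⟩ (.nil) (.nil)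
def t14_6462 : Tr := .node ⟨nat_lit 6, nat_lit 0x200030, nat_lit 0x111110, nat_lit 3, nat_lit 4, nat_lit 0x49⟩ (.nil) (.nil)
def t14_14654 : Tr := .node ⟨nat_lit 7, nat_lit 0x4800500060, nat_lit 0x111112, nat_lit 2, nat_lit 4, nat_lit 0x48⟩ (.nil) (.nil)
def t14_1342 : Tr := .node ⟨nat_lit 7, nat_lit 0x4000400020, nat_lit 0x111211, nat_lit 3, nat_lit 4, nat_lit 0x4a⟩ (.nil) (.nil)
def t14_9534 : Tr := .node ⟨nat_lit 7, nat_lit 0x4000400040005000600060, nat_lit 0x110110, nat_lit 9, nat_lit 4, nat_lit 0x48⟩ (.nil) (.nil)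
def t14_5438 : Tr := .node ⟨nat_lit 6, nat_lit 0x10002000240038, nat_lit 0x10311, nat_lit 5, nat_lit 4, nat_lit 0x47⟩ (.nil) (.nil)
def t14_13630 : Tr := .node ⟨nat_lit 7, nat_lit 0x4000600018, nat_lit 0x12, nat_lit 1, nat_lit 4, nat_lit 0x46⟩ (.nil) (.nil)
def t14_3390 : Tr := .node ⟨nat_lit 7, nat_lit 0x400040002000200060, nat_lit 0x20101, nat_lit 2, nat_lit 4, nat_lit 0x47⟩ (.nil) (.nil)
def t14_11582 : Tr := .node ⟨nat_lit 6, nat_lit 0x3000300030, nat_lit 0x1410, nat_lit 4, nat_lit 4, nat_lit 0x47⟩ (.nil) (.nil)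
def t14_7486 : Tr := .node ⟨nat_lit 8, nat_lit 0x80008000800088, nat_lit 0x1111001, nat_lit 1, nat_lit 4, nat_lit 0x4a⟩ (.nil) (.nil)
def t14_830 : Tr := .node ⟨nat_lit 6, nat_lit 0x2800280030, nat_lit 0x21113, nat_lit 1, nat_lit 3, nat_lit 0x45⟩ (.nil) (.nil)
def t14_9022 : Tr := .node ⟨nat_lit 9, nat_lit 0x8001000100010001100108, nat_lit 0x1021111, nat_lit 0, nat_lit 4, nat_lit 0x4a⟩ (.nil) (.nil)
def t14_4926 : Tr := .node ⟨nat_lit 4, nat_lit 0xc000c, nat_lit 0x1031, nat_lit 9, nat_lit 4, nat_lit 0x46⟩ (.nil) (.nil)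
def t14_13118 : Tr := .node ⟨nat_lit 6, nat_lit 0x800300028, nat_lit 0x200300, nat_lit 3, nat_lit 3, nat_lit 0x46⟩ (.nil) (.nil)
def t14_2878 : Tr := .node ⟨nat_lit 8, nat_lit 0x800020002000a000c0, nat_lit 0x1022101, nat_lit 0, nat_lit 4, nat_lit 0x48⟩ (.nil) (.nil)
def t14_11070 : Tr := .node ⟨nat_lit 5, nat_lit 0x180018, nat_lit 0x10120, nat_lit 7, nat_lit 4, nat_lit 0x47⟩ (.nil) (.nil)
def t14_6974 : Tr := .node ⟨nat_lit 6, nat_lit 0x2000240018, nat_lit 0x21011, nat_lit 1, nat_lit 4, nat_lit 0x46⟩ (.nil) (.nil)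
def t14_15166 : Tr := .node ⟨nat_lit 9, nat_lit 0x8001000100012000c001a001c0, nat_lit 0x11101111, nat_lit 0, nat_lit 4, nat_lit 0x47⟩ (.nil) (.nil)
def t14_1854 : Tr := .node ⟨nat_lit 6, nat_lit 0x3000300028, nat_lit 0x2112, nat_lit 6, nat_lit 4, nat_lit 0x47⟩ (.nil) (.nil)
def t14_10046 : Tr := .node ⟨nat_lit 7, nat_lit 0x40006000680068, nat_lit 0x1110220, nat_lit 2, nat_lit 4, nat_lit 0x47⟩ (.nil) (.nil)
def t14_5950 : Tr := .node ⟨nat_lit 6, nat_lit 0x800280030, nat_lit 0x11112, nat_lit 4, nat_lit 4, nat_lit 0x47⟩ (.nil) (.nil)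
def t14_14142 : Tr := .node ⟨nat_lit 9, nat_lit 0x1000040004000800080, nat_lit 0x102100, nat_lit 1, nat_lit 4, nat_lit 0x4a⟩ (.nil) (.nil)
def t14_3902 : Tr := .node ⟨nat_lit 7, nat_lit 0x400020002800500070, nat_lit 0x1011001, nat_lit 0, nat_lit 4, nat_lit 0x45⟩ (.nil) (.nil)
def t14_12094 : Tr := .node ⟨nat_lit 8, nat_lit 0x30003000a000c0, nat_lit 0x11002101, nat_lit 1, nat_lit 4, nat_lit 0x47⟩ (.nil) (.nil)
def t14_7998 : Tr := .node ⟨nat_lit 7, nat_lit 0x200020004000300044, nat_lit 0x101204, nat_lit 0, nat_lit 4, nat_lit 0x47⟩ (.nil) (.nil)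
def t9_318 : Tr := .node ⟨nat_lit 6, nat_lit 0x2000100010, nat_lit 0x13021, nat_lit 1, nat_lit 4, nat_lit 0x49⟩ (.node ⟨nat_lit 6, nat_lit 0x800280030, nat_lit 0x30023, nat_lit 0, nat_lit 4, nat_lit 0x47⟩ (.node ⟨nat_lit 1, nat_lit 0, nat_lit 1, nat_lit 0x19, nat_lit 4, nat_lit 0x47⟩ (.node ⟨nat_lit 5, nat_lit 0x100018, nat_lit 0x11122, nat_lit 4, nat_lit 4, nat_lit 0x48⟩ (.node ⟨nat_lit 5, nat_lit 0x40018, nat_lit 0x21221, nat_lit 4, nat_lit 4, nat_lit 0x49⟩ (t14_318) (t14_8510)) (.node ⟨nat_lit 4, nat_lit 0x80004, nat_lit 0x104, nat_lit 7, nat_lit 3, nat_lit 0x46⟩ (t14_4414) (t14_12606))) (.node ⟨nat_lit 4, nat_lit 0x8000c, nat_lit 0x2112, nat_lit 0xa, nat_lit 4, nat_lit 0x48⟩ (.node ⟨nat_lit 7, nat_lit 0x20003000500060, nat_lit 0x1010232, nat_lit 0, nat_lit 4, nat_lit 0x47⟩ (t14_2366) (t14_10558)) (.node ⟨nat_lit 6, nat_lit 0x1000200032, nat_lit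 0x201210, nat_lit 3, nat_lit 4, nat_lit 0x48⟩ (t14_6462) (t14_14654)))) (.node ⟨nat_lit 6, nat_lit 0x280030, nat_lit 0x21111, nat_lit 0, nat_lit 4, nat_lit 0x47⟩ (.node ⟨nat_lit 7, nat_lit 0x4000100020, nat_lit 0x221022, nat_lit 0, nat_lit 4, nat_lit 0x4b⟩ (.node ⟨nat_lit 6, nat_lit 0x2000100008, nat_lit 0x10003, nat_lit 1, nat_lit 3, nat_lit 0x46⟩ (t14_1342) (t14_9534)) (.node ⟨nat_lit 7, nat_lit 0x1000600018, nat_lit 0x2011112, nat_lit 1, nat_lit 4, nat_lit 0x49⟩ (t14_5438) (t14_13630))) (.node ⟨nat_lit 7, nat_lit 0x4000400060, nat_lit 0x22110, nat_lit 0, nat_lit 4, nat_lit 0x49⟩ (.node ⟨nat_lit 8, nat_lit 0x80008000400040009000a0, nat_lit 0x1113001, nat_lit 0, nat_lit 4, nat_lit 0x48⟩ (t14_3390) (t14_11582)) (.node ⟨nat_lit 8, nat_lit 0x80008000800040009000e0, nat_lit 0x1110102, nat_lit 3, nat_lit 4, nat_lit 0x48⟩ (t14_7486) (.nil))))) (.node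 ⟨nat_lit 5, nat_lit 0x18, nat_lit 0x10302, nat_lit 0, nat_lit 4, nat_lit 0x47⟩ (.node ⟨nat_lit 5, nat_lit 0x18, nat_lit 0x20113, nat_lit 0, nat_lit 4, nat_lit 0x47⟩ (.node ⟨nat_lit 7, nat_lit 0x400020, nat_lit 0x11100, nat_lit 1, nat_lit 4, nat_lit 0x49⟩ (.node ⟨nat_lit 6, nat_lit 0x100020, nat_lit 0x222101, nat_lit 2, nat_lit 4, nat_lit 0x4b⟩ (t14_830) (t14_9022)) (.node ⟨nat_lit 6, nat_lit 0x200030, nat_lit 0x112220, nat_lit 3, nat_lit 4, nat_lit 0x4a⟩ (t14_4926) (t14_13118))) (.node ⟨nat_lit 7, nat_lit 0x40001000680070, nat_lit 0x1101002, nat_lit 0, nat_lit 4, nat_lit 0x46⟩ (.node ⟨nat_lit 5, nat_lit 0x800100012, nat_lit 0x10021, nat_lit 0xb, nat_lit 4, nat_lit 0x48⟩ (t14_2878) (t14_11070)) (.node ⟨nat_lit 9, nat_lit 0x1000100008001080110, nat_lit 0x101111000, nat_lit 4, nat_lit 4, nat_lit 0x4b⟩ (t14_6974) (t14_15166)))) (.node ⟨nat_lit 5, nat_lit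 0x18, nat_lit 0x22210, nat_lit 0, nat_lit 4, nat_lit 0x49⟩ (.node ⟨nat_lit 7, nat_lit 0x40002000500064, nat_lit 0x121112, nat_lit 0, nat_lit 4, nat_lit 0x47⟩ (.node ⟨nat_lit 7, nat_lit 0x40002000500068, nat_lit 0x1001, nat_lit 1, nat_lit 4, nat_lit 0x45⟩ (t14_1854) (t14_10046)) (.node ⟨nat_lit 7, nat_lit 0x20004000400064, nat_lit 0x120020, nat_lit 1, nat_lit 4, nat_lit 0x48⟩ (t14_5950) (t14_14142))) (.node ⟨nat_lit 7, nat_lit 0x10004000400060, nat_lit 0x100211, nat_lit 2, nat_lit 4, nat_lit 0x48⟩ (.node ⟨nat_lit 8, nat_lit 0x80002000c000e0, nat_lit 0x110103, nat_lit 1, nat_lit 4, nat_lit 0x48⟩ (t14_3902) (t14_12094)) (.node ⟨nat_lit 8, nat_lit 0x800020002000c000c0, nat_lit 0x1021021, nat_lit 0, nat_lit 4, nat_lit 0x48⟩ (t14_7998) (.nil)))))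
def t14_190 : Tr := .node ⟨nat_lit 6, nat_lit 0x1000280034, nat_lit 0x120111, nat_lit 2, nat_lit 4, nat_lit 0x47⟩ (.nil) (.nil)
def t14_8382 : Tr := .node ⟨nat_lit 3, nat_lit 4, nat_lit 0x113, nat_lit 0xa, nat_lit 3, nat_lit 0x46⟩ (.nil) (.nil)
def t14_4286 : Tr := .node ⟨nat_lit 8, nat_lit 0x400040004000800080, nat_lit 0x10111121, nat_lit 0, nat_lit 4, nat_lit 0x4a⟩ (.nil) (.nil)
def t14_12478 : Tr := .node ⟨nat_lit 7, nat_lit 0x20002000400062, nat_lit 0x10003, nat_lit 1, nat_lit 4, nat_lit 0x46⟩ (.nil) (.nil)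
def t14_2238 : Tr := .node ⟨nat_lit 5, nat_lit 0x18, nat_lit 0x20220, nat_lit 3, nat_lit 3, nat_lit 0x48⟩ (.nil) (.nil)
def t14_10430 : Tr := .node ⟨nat_lit 7, nat_lit 0x40004800680068, nat_lit 0x1010020, nat_lit 2, nat_lit 4, nat_lit 0x46⟩ (.nil) (.nil)
def t14_6334 : Tr := .node ⟨nat_lit 7, nat_lit 0x20004000680070, nat_lit 0x100002, nat_lit 1, nat_lit 4, nat_lit 0x45⟩ (.nil) (.nil)
def t14_14526 : Tr := .node ⟨nat_lit 8, nat_lit 0x800088008800c0, nat_lit 0x102101, nat_lit 1, nat_lit 4, nat_lit 0x49⟩ (.nil) (.nil)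
def t14_1214 : Tr := .node ⟨nat_lit 7, nat_lit 0x2000500060, nat_lit 0x11321, nat_lit 1, nat_lit 4, nat_lit 0x48⟩ (.nil) (.nil)
def t14_9406 : Tr := .node ⟨nat_lit 5, nat_lit 0x1000100018, nat_lit 0x10320, nat_lit 2, nat_lit 3, nat_lit 0x46⟩ (.nil) (.nil)
def t14_5310 : Tr := .node ⟨nat_lit 6, nat_lit 0x1000280030, nat_lit 0x111102, nat_lit 5, nat_lit 4, nat_lit 0x48⟩ (.nil) (.nil)
def t14_13502 : Tr := .node ⟨nat_lit 6, nat_lit 0x2000100008, nat_lit 2, nat_lit 5, nat_lit 3, nat_lit 0x46⟩ (.nil) (.nil)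
def t14_3262 : Tr := .node ⟨nat_lit 6, nat_lit 0x10002000200020, nat_lit 0x10210, nat_lit 5, nat_lit 4, nat_lit 0x48⟩ (.nil) (.nil)
def t14_11454 : Tr := .node ⟨nat_lit 8, nat_lit 0x400040008000c8, nat_lit 0x1110010, nat_lit 0, nat_lit 4, nat_lit 0x49⟩ (.nil) (.nil)
def t14_7358 : Tr := .node ⟨nat_lit 6, nat_lit 0x2000080030, nat_lit 0x202221, nat_lit 0, nat_lit 4, nat_lit 0x49⟩ (.nil) (.nil)
def t14_15550 : Tr := .node ⟨nat_lit 9, nat_lit 0x100, nat_lit 0x11111110, nat_lit 2, nat_lit 4, nat_lit 0x4f⟩ (.nil) (.nil)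
def t14_702 : Tr := .node ⟨nat_lit 6, nat_lit 0x10002000240018, nat_lit 0x103110, nat_lit 1, nat_lit 4, nat_lit 0x46⟩ (.nil) (.nil)
def t14_8894 : Tr := .node ⟨nat_lit 6, nat_lit 0x20001000280028, nat_lit 0x12121, nat_lit 2, nat_lit 4, nat_lit 0x47⟩ (.nil) (.nil)
def t14_4798 : Tr := .node ⟨nat_lit 6, nat_lit 0x1000200020, nat_lit 0x13100, nat_lit 0, nat_lit 4, nat_lit 0x48⟩ (.nil) (.nil)
def t14_12990 : Tr := .node ⟨nat_lit 7, nat_lit 0x40002000480068, nat_lit 0x22002, nat_lit 1, nat_lit 4, nat_lit 0x47⟩ (.nil) (.nil)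
def t14_2750 : Tr := .node ⟨nat_lit 7, nat_lit 0x20004000440060, nat_lit 0x22110, nat_lit 0, nat_lit 4, nat_lit 0x47⟩ (.nil) (.nil)
def t14_10942 : Tr := .node ⟨nat_lit 8, nat_lit 0x800040004000a000a000c0, nat_lit 0x120202, nat_lit 0, nat_lit 4, nat_lit 0x47⟩ (.nil) (.nil)
def t14_6846 : Tr := .node ⟨nat_lit 7, nat_lit 0x40002000480048, nat_lit 0x1112110, nat_lit 0, nat_lit 4, nat_lit 0x49⟩ (.nil) (.nil)
def t14_15038 : Tr := .node ⟨nat_lit 7, nat_lit 0x400020002800280050, nat_lit 0x1011110, nat_lit 2, nat_lit 4, nat_lit 0x46⟩ (.nil) (.nil)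
def t14_1726 : Tr := .node ⟨nat_lit 8, nat_lit 0x200080003000a000c0, nat_lit 0x1011121, nat_lit 0, nat_lit 4, nat_lit 0x47⟩ (.nil) (.nil)
def t14_9918 : Tr := .node ⟨nat_lit 5, nat_lit 0x1800180018, nat_lit 0x330, nat_lit 8, nat_lit 4, nat_lit 0x46⟩ (.nil) (.nil)
def t14_5822 : Tr := .node ⟨nat_lit 7, nat_lit 0x40004000100020, nat_lit 0x101020, nat_lit 3, nat_lit 4, nat_lit 0x48⟩ (.nil) (.nil)
def t14_14014 : Tr := .node ⟨nat_lit 6, nat_lit 0x2000100024, nat_lit 0x1012, nat_lit 3, nat_lit 4, nat_lit 0x46⟩ (.nil) (.nil)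
def t14_3774 : Tr := .node ⟨nat_lit 7, nat_lit 0x40004000600060, nat_lit 0x21120, nat_lit 1, nat_lit 3, nat_lit 0x46⟩ (.nil) (.nil)
def t14_11966 : Tr := .node ⟨nat_lit 8, nat_lit 0x200080008400c0, nat_lit 0x1010220, nat_lit 1, nat_lit 4, nat_lit 0x49⟩ (.nil) (.nil)
def t14_7870 : Tr := .node ⟨nat_lit 7, nat_lit 0x10002000500060, nat_lit 0x2011, nat_lit 1, nat_lit 4, nat_lit 0x46⟩ (.nil) (.nil)
def t9_190 : Tr := .node ⟨nat_lit 4, nat_lit 8, nat_lit 0x2311, nat_lit 5, nat_lit 4, nat_lit 0x49⟩ (.node ⟨nat_lit 4, nat_lit 0xc, nat_lit 0x3210, nat_lit 0, nat_lit 3, nat_lit 0x47⟩ (.node ⟨nat_lit 5, nat_lit 0x1000100010, nat_lit 0x3211, nat_lit 6, nat_lit 4, nat_lit 0x49⟩ (.node ⟨nat_lit 5, nat_lit 0x40018, nat_lit 0x21103, nat_lit 4, nat_lit 4, nat_lit 0x48⟩ (.node ⟨nat_lit 7, nat_lit 0x40001000100060, nat_lit 0x210212, nat_lit 0, nat_lit 4, nat_lit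 0x49⟩ (t14_190) (t14_8382)) (.node ⟨nat_lit 6, nat_lit 0x2000100024, nat_lit 0x11101, nat_lit 3, nat_lit 4, nat_lit 0x47⟩ (t14_4286) (t14_12478))) (.node ⟨nat_lit 7, nat_lit 0x40002000100060, nat_lit 0x120132, nat_lit 0, nat_lit 4, nat_lit 0x49⟩ (.node ⟨nat_lit 7, nat_lit 0x5000600070, nat_lit 0x101213, nat_lit 0, nat_lit 4, nat_lit 0x46⟩ (t14_2238) (t14_10430)) (.node ⟨nat_lit 7, nat_lit 0x2000500060, nat_lit 0x12022, nat_lit 2, nat_lit 4, nat_lit 0x48⟩ (t14_6334) (t14_14526)))) (.node ⟨nat_lit 7, nat_lit 0x2000400040, nat_lit 0x1111121, nat_lit 0, nat_lit 4, nat_lit 0x4a⟩ (.node ⟨nat_lit 5, nat_lit 0x140018, nat_lit 0x12212, nat_lit 3, nat_lit 4, nat_lit 0x48⟩ (.node ⟨nat_lit 6, nat_lit 0x200010, nat_lit 0x11104, nat_lit 3, nat_lit 4, nat_lit 0x4a⟩ (t14_1214) (t14_9406)) (.node ⟨nat_lit 7, nat_lit 0x1000500060, nat_lit 0x1112121, nat_lit 0, nat_lit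 4, nat_lit 0x49⟩ (t14_5310) (t14_13502))) (.node ⟨nat_lit 6, nat_lit 0x2000080030, nat_lit 0x101220, nat_lit 3, nat_lit 4, nat_lit 0x48⟩ (.node ⟨nat_lit 6, nat_lit 0x80030, nat_lit 0x101100, nat_lit 0, nat_lit 4, nat_lit 0x47⟩ (t14_3262) (t14_11454)) (.node ⟨nat_lit 5, nat_lit 0x100018, nat_lit 0x11101, nat_lit 4, nat_lit 4, nat_lit 0x47⟩ (t14_7358) (t14_15550))))) (.node ⟨nat_lit 1, nat_lit 0, nat_lit 1, nat_lit 0xf, nat_lit 3, nat_lit 0x44⟩ (.node ⟨nat_lit 4, nat_lit 0xc, nat_lit 0x1121, nat_lit 3, nat_lit 4, nat_lit 0x46⟩ (.node ⟨nat_lit 6, nat_lit 0x1000200020, nat_lit 0x101221, nat_lit 0, nat_lit 4, nat_lit 0x48⟩ (.node ⟨nat_lit 5, nat_lit 0x40018, nat_lit 0x11302, nat_lit 2, nat_lit 4, nat_lit 0x48⟩ (t14_702) (t14_8894)) (.node ⟨nat_lit 4, nat_lit 0xc000c, nat_lit 0x2110, nat_lit 3, nat_lit 3, nat_lit 0x45⟩ (t14_4798) (t14_12990))) (.node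 ⟨nat_lit 4, nat_lit 0x8000c, nat_lit 0x1011, nat_lit 4, nat_lit 3, nat_lit 0x44⟩ (.node ⟨nat_lit 6, nat_lit 0x2000100034, nat_lit 0x12203, nat_lit 1, nat_lit 4, nat_lit 0x47⟩ (t14_2750) (t14_10942)) (.node ⟨nat_lit 6, nat_lit 0x20001000100028, nat_lit 0x112100, nat_lit 0, nat_lit 4, nat_lit 0x47⟩ (t14_6846) (t14_15038)))) (.node ⟨nat_lit 6, nat_lit 0x800280030, nat_lit 0x111221, nat_lit 0, nat_lit 4, nat_lit 0x47⟩ (.node ⟨nat_lit 6, nat_lit 0x800200030, nat_lit 0x101220, nat_lit 0, nat_lit 4, nat_lit 0x47⟩ (.node ⟨nat_lit 4, nat_lit 0x40008, nat_lit 0x10, nat_lit 5, nat_lit 4, nat_lit 0x44⟩ (t14_1726) (t14_9918)) (.node ⟨nat_lit 7, nat_lit 0x600060, nat_lit 0x22020, nat_lit 0, nat_lit 4, nat_lit 0x49⟩ (t14_5822) (t14_14014))) (.node ⟨nat_lit 6, nat_lit 0x2000200034, nat_lit 0x102110, nat_lit 2, nat_lit 4, nat_lit 0x48⟩ (.node ⟨nat_lit 7, nat_lit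 0x40005000300060, nat_lit 0x101031, nat_lit 0, nat_lit 4, nat_lit 0x46⟩ (t14_3774) (t14_11966)) (.node ⟨nat_lit 7, nat_lit 0x40001000600060, nat_lit 0x111121, nat_lit 3, nat_lit 4, nat_lit 0x48⟩ (t14_7870) (.nil)))))
def t14_446 : Tr := .node ⟨nat_lit 6, nat_lit 0x10001000200022, nat_lit 0x113210, nat_lit 0, nat_lit 4, nat_lit 0x48⟩ (.nil) (.nil)
def t14_8638 : Tr := .node ⟨nat_lit 6, nat_lit 0x1000200032, nat_lit 0x100, nat_lit 0, nat_lit 4, nat_lit 0x44⟩ (.nil) (.nil)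
def t14_4542 : Tr := .node ⟨nat_lit 6, nat_lit 0x2000080030, nat_lit 0x12002, nat_lit 4, nat_lit 4, nat_lit 0x48⟩ (.nil) (.nil)
def t14_12734 : Tr := .node ⟨nat_lit 4, nat_lit 0x8000c, nat_lit 0x230, nat_lit 7, nat_lit 4, nat_lit 0x47⟩ (.nil) (.nil)
def t14_2494 : Tr := .node ⟨nat_lit 5, nat_lit 0x180018, nat_lit 0x10220, nat_lit 5, nat_lit 4, nat_lit 0x47⟩ (.nil) (.nil)
def t14_10686 : Tr := .node ⟨nat_lit 6, nat_lit 0x800080030, nat_lit 0x200000, nat_lit 1, nat_lit 4, nat_lit 0x46⟩ (.nil) (.nil)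
def t14_6590 : Tr := .node ⟨nat_lit 5, nat_lit 0x100018, nat_lit 0x1220, nat_lit 6, nat_lit 4, nat_lit 0x48⟩ (.nil) (.nil)
def t14_14782 : Tr := .node ⟨nat_lit 8, nat_lit 0x80003000a000c0, nat_lit 0x1101121, nat_lit 0, nat_lit 4, nat_lit 0x48⟩ (.nil) (.nil)
def t14_1470 : Tr := .node ⟨nat_lit 8, nat_lit 0x8000800040004000a000c8, nat_lit 0x1201111, nat_lit 2, nat_lit 4, nat_lit 0x48⟩ (.nil) (.nil)
def t14_9662 : Tr := .node ⟨nat_lit 7, nat_lit 0x4000200020, nat_lit 0x1011020, nat_lit 1, nat_lit 3, nat_lit 0x48⟩ (.nil) (.nil)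
def t14_5566 : Tr := .node ⟨nat_lit 8, nat_lit 0x4000800082, nat_lit 0x111022, nat_lit 0, nat_lit 4, nat_lit 0x4a⟩ (.nil) (.nil)
def t14_13758 : Tr := .node ⟨nat_lit 8, nat_lit 0x800040004000a000d0, nat_lit 0x21000, nat_lit 1, nat_lit 4, nat_lit 0x47⟩ (.nil) (.nil)
def t14_3518 : Tr := .node ⟨nat_lit 6, nat_lit 0x2800180030, nat_lit 0x11, nat_lit 2, nat_lit 4, nat_lit 0x44⟩ (.nil) (.nil)
def t14_11710 : Tr := .node ⟨nat_lit 7, nat_lit 0x10001000600060, nat_lit 0x11110, nat_lit 1, nat_lit 4, nat_lit 0x47⟩ (.nil) (.nil)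
def t14_7614 : Tr := .node ⟨nat_lit 7, nat_lit 0x400020002000500060, nat_lit 0x22103, nat_lit 1, nat_lit 4, nat_lit 0x47⟩ (.nil) (.nil)
def t14_958 : Tr := .node ⟨nat_lit 7, nat_lit 0x40001000100060, nat_lit 0x202101, nat_lit 1, nat_lit 4, nat_lit 0x48⟩ (.nil) (.nil)
def t14_9150 : Tr := .node ⟨nat_lit 7, nat_lit 0x10004000400060, nat_lit 0x100220, nat_lit 0, nat_lit 3, nat_lit 0x46⟩ (.nil) (.nil)
def t14_5054 : Tr := .node ⟨nat_lit 9, nat_lit 0x400100002001800180, nat_lit 0x10001031, nat_lit 0, nat_lit 4, nat_lit 0x49⟩ (.nil) (.nil)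
def t14_13246 : Tr := .node ⟨nat_lit 6, nat_lit 0x20001000100028, nat_lit 0x3002, nat_lit 3, nat_lit 4, nat_lit 0x47⟩ (.nil) (.nil)
def t14_3006 : Tr := .node ⟨nat_lit 7, nat_lit 0x40004000100060, nat_lit 0x112101, nat_lit 4, nat_lit 4, nat_lit 0x49⟩ (.nil) (.nil)
def t14_11198 : Tr := .node ⟨nat_lit 5, nat_lit 0x1000180018, nat_lit 0x10120, nat_lit 5, nat_lit 4, nat_lit 0x46⟩ (.nil) (.nil)
def t14_7102 : Tr := .node ⟨nat_lit 5, nat_lit 0x180018, nat_lit 0x20311, nat_lit 5, nat_lit 4, nat_lit 0x48⟩ (.nil) (.nil)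
def t14_15294 : Tr := .node ⟨nat_lit 7, nat_lit 0x10001000600050, nat_lit 0x1001012, nat_lit 1, nat_lit 4, nat_lit 0x47⟩ (.nil) (.nil)
def t14_1982 : Tr := .node ⟨nat_lit 8, nat_lit 0x8000800020002000c0, nat_lit 0x2011102, nat_lit 0, nat_lit 4, nat_lit 0x49⟩ (.nil) (.nil)
def t14_10174 : Tr := .node ⟨nat_lit 7, nat_lit 0x40002000500064, nat_lit 0x100020, nat_lit 2, nat_lit 4, nat_lit 0x46⟩ (.nil) (.nil)
def t14_6078 : Tr := .node ⟨nat_lit 9, nat_lit 0x1000080011001100110, nat_lit 0x11100210, nat_lit 0, nat_lit 4, nat_lit 0x49⟩ (.nil) (.nil)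
def t14_14270 : Tr := .node ⟨nat_lit 7, nat_lit 0x20004000500068, nat_lit 0x110210, nat_lit 5, nat_lit 4, nat_lit 0x48⟩ (.nil) (.nil)
def t14_4030 : Tr := .node ⟨nat_lit 8, nat_lit 0x4000800080008800c800d0, nat_lit 0x10011112, nat_lit 1, nat_lit 4, nat_lit 0x47⟩ (.nil) (.nil)
def t14_12222 : Tr := .node ⟨nat_lit 7, nat_lit 0x4000500060, nat_lit 0x131102, nat_lit 0, nat_lit 4, nat_lit 0x49⟩ (.nil) (.nil)
def t14_8126 : Tr := .node ⟨nat_lit 6, nat_lit 0x2000240024, nat_lit 0x11141, nat_lit 3, nat_lit 4, nat_lit 0x48⟩ (.nil) (.nil)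
def t9_446 : Tr := .node ⟨nat_lit 5, nat_lit 0x40018, nat_lit 0x11330, nat_lit 1, nat_lit 4, nat_lit 0x49⟩ (.node ⟨nat_lit 5, nat_lit 0x1000100008, nat_lit 0x102, nat_lit 1, nat_lit 3, nat_lit 0x44⟩ (.node ⟨nat_lit 6, nat_lit 0x800280030, nat_lit 0x210122, nat_lit 0, nat_lit 4, nat_lit 0x47⟩ (.node ⟨nat_lit 5, nat_lit 0x100018, nat_lit 0x1202, nat_lit 4, nat_lit 4, nat_lit 0x47⟩ (.node ⟨nat_lit 6, nat_lit 0x800280030, nat_lit 0x2110, nat_lit 0, nat_lit 4, nat_lit 0x46⟩ (t14_446) (t14_8638)) (.node ⟨nat_lit 6, nat_lit 0x2000200030, nat_lit 0x22202, nat_lit 3, nat_lit 4, nat_lit 0x49⟩ (t14_4542) (t14_12734))) (.node ⟨nat_lit 6, nat_lit 0x2000100010, nat_lit 0x111031, nat_lit 1, nat_lit 4, nat_lit 0x49⟩ (.node ⟨nat_lit 6, nat_lit 0x2000340038, nat_lit 0x111113, nat_lit 4, nat_lit 4, nat_lit 0x47⟩ (t14_2494) (t14_10686)) (.node ⟨nat_lit 8, nat_lit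 0x800080008000400090, nat_lit 0x1202210, nat_lit 0, nat_lit 4, nat_lit 0x4a⟩ (t14_6590) (t14_14782)))) (.node ⟨nat_lit 6, nat_lit 0x80030, nat_lit 0x200101, nat_lit 3, nat_lit 4, nat_lit 0x48⟩ (.node ⟨nat_lit 6, nat_lit 0x2000200010, nat_lit 0x121212, nat_lit 2, nat_lit 4, nat_lit 0x4a⟩ (.node ⟨nat_lit 6, nat_lit 0x1000100020, nat_lit 0x101110, nat_lit 0, nat_lit 4, nat_lit 0x47⟩ (t14_1470) (t14_9662)) (.node ⟨nat_lit 7, nat_lit 0x40002000200048, nat_lit 0x1112101, nat_lit 0, nat_lit 4, nat_lit 0x49⟩ (t14_5566) (t14_13758))) (.node ⟨nat_lit 5, nat_lit 0x1000100008, nat_lit 0x1212, nat_lit 5, nat_lit 4, nat_lit 0x47⟩ (.node ⟨nat_lit 6, nat_lit 0x1000280034, nat_lit 0x110100, nat_lit 2, nat_lit 4, nat_lit 0x46⟩ (t14_3518) (t14_11710)) (.node ⟨nat_lit 4, nat_lit 0x800080008, nat_lit 0x1300, nat_lit 7, nat_lit 3, nat_lit 0x46⟩ (t14_7614) (.nil)))))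 (.node ⟨nat_lit 7, nat_lit 0x10001000400062, nat_lit 0x3001121, nat_lit 0, nat_lit 4, nat_lit 0x49⟩ (.node ⟨nat_lit 5, nat_lit 0x100010, nat_lit 0x12120, nat_lit 5, nat_lit 4, nat_lit 0x49⟩ (.node ⟨nat_lit 8, nat_lit 0x80001000200040, nat_lit 0x1110111, nat_lit 1, nat_lit 4, nat_lit 0x4a⟩ (.node ⟨nat_lit 7, nat_lit 0x400042, nat_lit 0x1111131, nat_lit 0, nat_lit 4, nat_lit 0x4b⟩ (t14_958) (t14_9150)) (.node ⟨nat_lit 6, nat_lit 0x2000200024, nat_lit 0x22202, nat_lit 3, nat_lit 4, nat_lit 0x49⟩ (t14_5054) (t14_13246))) (.node ⟨nat_lit 5, nat_lit 0x100012, nat_lit 0x11121, nat_lit 4, nat_lit 4, nat_lit 0x48⟩ (.node ⟨nat_lit 7, nat_lit 0x20002000400060, nat_lit 0x12110, nat_lit 1, nat_lit 4, nat_lit 0x48⟩ (t14_3006) (t14_11198)) (.node ⟨nat_lit 6, nat_lit 0x20002000100010, nat_lit 0x11022, nat_lit 8, nat_lit 4, nat_lit 0x49⟩ (t14_7102) (t14_15294))))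 (.node ⟨nat_lit 6, nat_lit 0x100020, nat_lit 0x121100, nat_lit 1, nat_lit 4, nat_lit 0x49⟩ (.node ⟨nat_lit 6, nat_lit 0x80030, nat_lit 0x301221, nat_lit 1, nat_lit 4, nat_lit 0x4a⟩ (.node ⟨nat_lit 5, nat_lit 0x800080010, nat_lit 0x21312, nat_lit 2, nat_lit 3, nat_lit 0x47⟩ (t14_1982) (t14_10174)) (.node ⟨nat_lit 7, nat_lit 0x40003000580068, nat_lit 0x2000220, nat_lit 0, nat_lit 4, nat_lit 0x45⟩ (t14_6078) (t14_14270))) (.node ⟨nat_lit 4, nat_lit 0xc, nat_lit 0x3020, nat_lit 7, nat_lit 3, nat_lit 0x47⟩ (.node ⟨nat_lit 7, nat_lit 0x40001000600068, nat_lit 0x1011030, nat_lit 0, nat_lit 4, nat_lit 0x47⟩ (t14_4030) (t14_12222)) (.node ⟨nat_lit 7, nat_lit 0x10002000500060, nat_lit 0x1111102, nat_lit 1, nat_lit 4, nat_lit 0x48⟩ (t14_8126) (.nil)))))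
def t14_126 : Tr := .node ⟨nat_lit 7, nat_lit 0x4000600064, nat_lit 0x1021111, nat_lit 3, nat_lit 4, nat_lit 0x49⟩ (.nil) (.nil)
def t14_8318 : Tr := .node ⟨nat_lit 6, nat_lit 0x2000240034, nat_lit 0x11213, nat_lit 3, nat_lit 4, nat_lit 0x47⟩ (.nil) (.nil)
def t14_4222 : Tr := .node ⟨nat_lit 6, nat_lit 0x1000100020, nat_lit 0x202110, nat_lit 3, nat_lit 4, nat_lit 0x49⟩ (.nil) (.nil)
def t14_12414 : Tr := .node ⟨nat_lit 8, nat_lit 0x400080002000c000c8, nat_lit 0x10110030, nat_lit 1, nat_lit 4, nat_lit 0x48⟩ (.nil) (.nil)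
def t14_2174 : Tr := .node ⟨nat_lit 7, nat_lit 0x400020002000500060, nat_lit 0x22021, nat_lit 2, nat_lit 4, nat_lit 0x47⟩ (.nil) (.nil)
def t14_10366 : Tr := .node ⟨nat_lit 6, nat_lit 0x10002000200020, nat_lit 0x20100, nat_lit 1, nat_lit 3, nat_lit 0x46⟩ (.nil) (.nil)
def t14_6270 : Tr := .node ⟨nat_lit 7, nat_lit 0x40004000200020, nat_lit 0x111011, nat_lit 3, nat_lit 4, nat_lit 0x49⟩ (.nil) (.nil)
def t14_14462 : Tr := .node ⟨nat_lit 6, nat_lit 0x2000240034, nat_lit 0x102020, nat_lit 4, nat_lit 4, nat_lit 0x47⟩ (.nil) (.nil)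
def t14_1150 : Tr := .node ⟨nat_lit 7, nat_lit 0x6000180018, nat_lit 0x1000111, nat_lit 1, nat_lit 4, nat_lit 0x46⟩ (.nil) (.nil)
def t14_9342 : Tr := .node ⟨nat_lit 7, nat_lit 0x40004000480060, nat_lit 0x210202, nat_lit 3, nat_lit 4, nat_lit 0x49⟩ (.nil) (.nil)
def t14_5246 : Tr := .node ⟨nat_lit 6, nat_lit 0x2000300030, nat_lit 0x11310, nat_lit 3, nat_lit 4, nat_lit 0x48⟩ (.nil) (.nil)
def t14_13438 : Tr := .node ⟨nat_lit 7, nat_lit 0x40001000200048, nat_lit 0x102000, nat_lit 4, nat_lit 4, nat_lit 0x48⟩ (.nil) (.nil)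
def t14_3198 : Tr := .node ⟨nat_lit 7, nat_lit 0x400020002000500068, nat_lit 0x12201, nat_lit 0, nat_lit 4, nat_lit 0x46⟩ (.nil) (.nil)
def t14_11390 : Tr := .node ⟨nat_lit 6, nat_lit 0x300030, nat_lit 0x111120, nat_lit 2, nat_lit 3, nat_lit 0x47⟩ (.nil) (.nil)
def t14_7294 : Tr := .node ⟨nat_lit 8, nat_lit 0x8000a000c00050, nat_lit 0x22011, nat_lit 0, nat_lit 4, nat_lit 0x48⟩ (.nil) (.nil)
def t14_15486 : Tr := .node ⟨nat_lit 9, nat_lit 0x100004001200120018001a0, nat_lit 0x110001021, nat_lit 0, nat_lit 4, nat_lit 0x48⟩ (.nil) (.nil)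
def t14_638 : Tr := .node ⟨nat_lit 6, nat_lit 0x2000100010, nat_lit 0x2032, nat_lit 3, nat_lit 4, nat_lit 0x49⟩ (.nil) (.nil)
def t14_8830 : Tr := .node ⟨nat_lit 7, nat_lit 0x4000400044, nat_lit 0x111203, nat_lit 2, nat_lit 4, nat_lit 0x4a⟩ (.nil) (.nil)
def t14_4734 : Tr := .node ⟨nat_lit 8, nat_lit 0x400080003000c0, nat_lit 0x1100011, nat_lit 0, nat_lit 4, nat_lit 0x48⟩ (.nil) (.nil)
def t14_12926 : Tr := .node ⟨nat_lit 6, nat_lit 0x1000280030, nat_lit 0x201210, nat_lit 1, nat_lit 4, nat_lit 0x47⟩ (.nil) (.nil)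
def t14_2686 : Tr := .node ⟨nat_lit 6, nat_lit 0x300030, nat_lit 0x1010, nat_lit 1, nat_lit 4, nat_lit 0x46⟩ (.nil) (.nil)
def t14_10878 : Tr := .node ⟨nat_lit 8, nat_lit 0x800040004000a000c000d0, nat_lit 0x121020, nat_lit 2, nat_lit 4, nat_lit 0x47⟩ (.nil) (.nil)
def t14_6782 : Tr := .node ⟨nat_lit 8, nat_lit 0x20008000c0, nat_lit 0x11000, nat_lit 1, nat_lit 4, nat_lit 0x49⟩ (.nil) (.nil)
def t14_14974 : Tr := .node ⟨nat_lit 0xa, nat_lit 0x2000200020001000100024002800280, nat_lit 0x10110011, nat_lit 1, nat_lit 4, nat_lit 0x49⟩ (.nil) (.nil)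
def t14_1662 : Tr := .node ⟨nat_lit 7, nat_lit 0x40002000200048, nat_lit 0x2101, nat_lit 0, nat_lit 4, nat_lit 0x47⟩ (.nil) (.nil)
def t14_9854 : Tr := .node ⟨nat_lit 7, nat_lit 0x2000500060, nat_lit 0x1000021, nat_lit 0, nat_lit 4, nat_lit 0x47⟩ (.nil) (.nil)
def t14_5758 : Tr := .node ⟨nat_lit 6, nat_lit 0x1000100020, nat_lit 0x112201, nat_lit 4, nat_lit 3, nat_lit 0x48⟩ (.nil) (.nil)
def t14_13950 : Tr := .node ⟨nat_lit 8, nat_lit 0x800020002800d000d0, nat_lit 0x10010020, nat_lit 1, nat_lit 4, nat_lit 0x46⟩ (.nil) (.nil)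
def t14_3710 : Tr := .node ⟨nat_lit 8, nat_lit 0x8000800040004000a000e0, nat_lit 0x10102001, nat_lit 3, nat_lit 4, nat_lit 0x48⟩ (.nil) (.nil)
def t14_11902 : Tr := .node ⟨nat_lit 5, nat_lit 0x1000100008, nat_lit 0x313, nat_lit 4, nat_lit 4, nat_lit 0x47⟩ (.nil) (.nil)
def t14_7806 : Tr := .node ⟨nat_lit 6, nat_lit 0x200020002000280030, nat_lit 0x11010, nat_lit 0xd, nat_lit 4, nat_lit 0x48⟩ (.nil) (.nil)
def t9_126 : Tr := .node ⟨nat_lit 4, nat_lit 0x40008, nat_lit 0x1311, nat_lit 3, nat_lit 4, nat_lit 0x47⟩ (.node ⟨nat_lit 6, nat_lit 0x10002000240038, nat_lit 0x131102, nat_lit 3, nat_lit 4, nat_lit 0x48⟩ (.node ⟨nat_lit 6, nat_lit 0x1000200022, nat_lit 0x3022, nat_lit 2, nat_lit 4, nat_lit 0x48⟩ (.node ⟨nat_lit 6, nat_lit 0x200030, nat_lit 0x102101, nat_lit 1, nat_lit 4, nat_lit 0x48⟩ (.node ⟨nat_lit 7, nat_lit 0x40002000500064, nat_lit 0x212210,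 nat_lit 0, nat_lit 4, nat_lit 0x48⟩ (t14_126) (t14_8318)) (.node ⟨nat_lit 6, nat_lit 0x800200032, nat_lit 0x11020, nat_lit 0, nat_lit 4, nat_lit 0x46⟩ (t14_4222) (t14_12414))) (.node ⟨nat_lit 7, nat_lit 0x40002000200064, nat_lit 0x121110, nat_lit 0, nat_lit 4, nat_lit 0x48⟩ (.node ⟨nat_lit 6, nat_lit 0x1000200030, nat_lit 0x210, nat_lit 1, nat_lit 4, nat_lit 0x46⟩ (t14_2174) (t14_10366)) (.node ⟨nat_lit 8, nat_lit 0x80008000400020, nat_lit 0x1121010, nat_lit 4, nat_lit 4, nat_lit 0x4b⟩ (t14_6270) (t14_14462)))) (.node ⟨nat_lit 6, nat_lit 0x200030, nat_lit 0x22201, nat_lit 0, nat_lit 4, nat_lit 0x49⟩ (.node ⟨nat_lit 7, nat_lit 0x10004000440060, nat_lit 0x2200111, nat_lit 1, nat_lit 4, nat_lit 0x49⟩ (.node ⟨nat_lit 3, nat_lit 0, nat_lit 0x521, nat_lit 2, nat_lit 3, nat_lit 0x48⟩ (t14_1150) (t14_9342)) (.node ⟨nat_lit 7, nat_lit 0x600060, nat_lit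 0x1021121, nat_lit 2, nat_lit 4, nat_lit 0x4a⟩ (t14_5246) (t14_13438))) (.node ⟨nat_lit 7, nat_lit 0x4000100060, nat_lit 0x12001, nat_lit 0, nat_lit 4, nat_lit 0x48⟩ (.node ⟨nat_lit 7, nat_lit 0x20005000500068, nat_lit 0x210301, nat_lit 1, nat_lit 4, nat_lit 0x47⟩ (t14_3198) (t14_11390)) (.node ⟨nat_lit 6, nat_lit 0x800300038, nat_lit 0x1120, nat_lit 1, nat_lit 4, nat_lit 0x45⟩ (t14_7294) (t14_15486))))) (.node ⟨nat_lit 6, nat_lit 0x2000080034, nat_lit 0x300201, nat_lit 1, nat_lit 4, nat_lit 0x48⟩ (.node ⟨nat_lit 5, nat_lit 0x100008, nat_lit 0x2123, nat_lit 1, nat_lit 4, nat_lit 0x48⟩ (.node ⟨nat_lit 5, nat_lit 0x1c, nat_lit 0x10023, nat_lit 2, nat_lit 4, nat_lit 0x46⟩ (.node ⟨nat_lit 6, nat_lit 0x20001000100028, nat_lit 0x122101, nat_lit 0, nat_lit 4, nat_lit 0x48⟩ (t14_638) (t14_8830)) (.node ⟨nat_lit 8, nat_lit 0x8000800040004000a000c8, nat_lit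 0x1102011, nat_lit 3, nat_lit 4, nat_lit 0x48⟩ (t14_4734) (t14_12926))) (.node ⟨nat_lit 7, nat_lit 0x40001000100060, nat_lit 0x1001102, nat_lit 0, nat_lit 4, nat_lit 0x47⟩ (.node ⟨nat_lit 7, nat_lit 0x40001000200020, nat_lit 0x110130, nat_lit 5, nat_lit 4, nat_lit 0x4a⟩ (t14_2686) (t14_10878)) (.node ⟨nat_lit 6, nat_lit 0x10002000340038, nat_lit 0x12220, nat_lit 4, nat_lit 4, nat_lit 0x46⟩ (t14_6782) (t14_14974)))) (.node ⟨nat_lit 6, nat_lit 0x1000080020, nat_lit 0x112111, nat_lit 2, nat_lit 4, nat_lit 0x49⟩ (.node ⟨nat_lit 7, nat_lit 0x1000600018, nat_lit 0x1102111, nat_lit 0, nat_lit 4, nat_lit 0x48⟩ (.node ⟨nat_lit 6, nat_lit 0x800080030, nat_lit 0x100101, nat_lit 1, nat_lit 4, nat_lit 0x46⟩ (t14_1662) (t14_9854)) (.node ⟨nat_lit 6, nat_lit 0x10001000200022, nat_lit 0x212031, nat_lit 0, nat_lit 4, nat_lit 0x49⟩ (t14_5758) (t14_13950))) (.node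 ⟨nat_lit 4, nat_lit 0x40008, nat_lit 0x132, nat_lit 2, nat_lit 3, nat_lit 0x45⟩ (.node ⟨nat_lit 6, nat_lit 0x1000200034, nat_lit 0x21000, nat_lit 0, nat_lit 4, nat_lit 0x46⟩ (t14_3710) (t14_11902)) (.node ⟨nat_lit 7, nat_lit 0x1000600060, nat_lit 0x2011121, nat_lit 1, nat_lit 4, nat_lit 0x49⟩ (t14_7806) (.nil)))))
def t14_382 : Tr := .node ⟨nat_lit 7, nat_lit 0x40004000200020, nat_lit 0x121021, nat_lit 4, nat_lit 4, nat_lit 0x4a⟩ (.nil) (.nil)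
def t14_8574 : Tr := .node ⟨nat_lit 7, nat_lit 0x400040002000500070, nat_lit 0x10022, nat_lit 2, nat_lit 4, nat_lit 0x46⟩ (.nil) (.nil)
def t14_4478 : Tr := .node ⟨nat_lit 6, nat_lit 0x2000200010, nat_lit 0x111210, nat_lit 2, nat_lit 4, nat_lit 0x49⟩ (.nil) (.nil)
def t14_12670 : Tr := .node ⟨nat_lit 8, nat_lit 0x200040008000c0, nat_lit 0x1010013, nat_lit 0, nat_lit 4, nat_lit 0x49⟩ (.nil) (.nil)
def t14_2430 : Tr := .node ⟨nat_lit 7, nat_lit 0x20004000600064, nat_lit 0x1012201, nat_lit 1, nat_lit 4, nat_lit 0x48⟩ (.nil) (.nil)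
def t14_10622 : Tr := .node ⟨nat_lit 5, nat_lit 0x1000080014, nat_lit 0x10, nat_lit 4, nat_lit 4, nat_lit 0x44⟩ (.nil) (.nil)
def t14_6526 : Tr := .node ⟨nat_lit 7, nat_lit 0x4000440064, nat_lit 0x1111011, nat_lit 1, nat_lit 4, nat_lit 0x48⟩ (.nil) (.nil)
def t14_14718 : Tr := .node ⟨nat_lit 7, nat_lit 0x200040006000680070, nat_lit 0x1011211, nat_lit 3, nat_lit 4, nat_lit 0x46⟩ (.nil) (.nil)
def t14_1406 : Tr := .node ⟨nat_lit 8, nat_lit 0x800080002000c0, nat_lit 0x113110, nat_lit 0, nat_lit 4, nat_lit 0x4a⟩ (.nil) (.nil)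
def t14_9598 : Tr := .node ⟨nat_lit 8, nat_lit 0x4000800080009000c000d0, nat_lit 0x210020, nat_lit 3, nat_lit 4, nat_lit 0x47⟩ (.nil) (.nil)
def t14_5502 : Tr := .node ⟨nat_lit 5, nat_lit 0x10, nat_lit 0x1114, nat_lit 2, nat_lit 4, nat_lit 0x49⟩ (.nil) (.nil)
def t14_13694 : Tr := .node ⟨nat_lit 7, nat_lit 0x4000100060, nat_lit 0x1002002, nat_lit 0, nat_lit 4, nat_lit 0x48⟩ (.nil) (.nil)
def t14_3454 : Tr := .node ⟨nat_lit 7, nat_lit 0x10001000600050, nat_lit 0x2021, nat_lit 3, nat_lit 4, nat_lit 0x47⟩ (.nil) (.nil)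
def t14_11646 : Tr := .node ⟨nat_lit 8, nat_lit 0x800060006000a000c0, nat_lit 0x11031, nat_lit 0, nat_lit 4, nat_lit 0x46⟩ (.nil) (.nil)
def t14_7550 : Tr := .node ⟨nat_lit 5, nat_lit 0x100010, nat_lit 0x2133, nat_lit 2, nat_lit 3, nat_lit 0x47⟩ (.nil) (.nil)
def t14_894 : Tr := .node ⟨nat_lit 6, nat_lit 0x20001000100028, nat_lit 0x2203, nat_lit 0, nat_lit 4, nat_lit 0x46⟩ (.nil) (.nil)
def t14_9086 : Tr := .node ⟨nat_lit 8, nat_lit 0x80008000400040004000c8, nat_lit 0x222001, nat_lit 0, nat_lit 4, nat_lit 0x48⟩ (.nil) (.nil)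
def t14_4990 : Tr := .node ⟨nat_lit 6, nat_lit 0x1000280034, nat_lit 0x11010, nat_lit 3, nat_lit 4, nat_lit 0x46⟩ (.nil) (.nil)
def t14_13182 : Tr := .node ⟨nat_lit 7, nat_lit 0x40004000480030, nat_lit 0x1003, nat_lit 0, nat_lit 4, nat_lit 0x46⟩ (.nil) (.nil)
def t14_2942 : Tr := .node ⟨nat_lit 6, nat_lit 0x2000300034, nat_lit 0x101221, nat_lit 2, nat_lit 4, nat_lit 0x47⟩ (.nil) (.nil)
def t14_11134 : Tr := .node ⟨nat_lit 4, nat_lit 0xc000c, nat_lit 0x1030, nat_lit 9, nat_lit 4, nat_lit 0x46⟩ (.nil) (.nil)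
def t14_7038 : Tr := .node ⟨nat_lit 7, nat_lit 0x20004000600050, nat_lit 0x1101121, nat_lit 1, nat_lit 4, nat_lit 0x48⟩ (.nil) (.nil)
def t14_15230 : Tr := .node ⟨nat_lit 7, nat_lit 0x4800500060, nat_lit 0x1111121, nat_lit 0, nat_lit 4, nat_lit 0x48⟩ (.nil) (.nil)
def t14_1918 : Tr := .node ⟨nat_lit 5, nat_lit 0x40018, nat_lit 0x30002, nat_lit 3, nat_lit 4, nat_lit 0x47⟩ (.nil) (.nil)
def t14_10110 : Tr := .node ⟨nat_lit 7, nat_lit 0x200040006000600068, nat_lit 0x21202, nat_lit 2, nat_lit 4, nat_lit 0x46⟩ (.nil) (.nil)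
def t14_6014 : Tr := .node ⟨nat_lit 6, nat_lit 0x2000080034, nat_lit 0x311210, nat_lit 0, nat_lit 4, nat_lit 0x49⟩ (.nil) (.nil)
def t14_14206 : Tr := .node ⟨nat_lit 7, nat_lit 0x800500060, nat_lit 0x100002, nat_lit 5, nat_lit 4, nat_lit 0x48⟩ (.nil) (.nil)
def t14_3966 : Tr := .node ⟨nat_lit 6, nat_lit 0x800280030, nat_lit 0x101110, nat_lit 0, nat_lit 4, nat_lit 0x46⟩ (.nil) (.nil)
def t14_12158 : Tr := .node ⟨nat_lit 7, nat_lit 0x10002000500060, nat_lit 0x1102100, nat_lit 0, nat_lit 4, nat_lit 0x47⟩ (.nil) (.nil)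
def t14_8062 : Tr := .node ⟨nat_lit 7, nat_lit 0x2000400064, nat_lit 0x10103, nat_lit 1, nat_lit 4, nat_lit 0x47⟩ (.nil) (.nil)
def t9_382 : Tr := .node ⟨nat_lit 5, nat_lit 0x800100012, nat_lit 0x23210, nat_lit 3, nat_lit 4, nat_lit 0x49⟩ (.node ⟨nat_lit 5, nat_lit 0x100008, nat_lit 0x13102, nat_lit 1, nat_lit 3, nat_lit 0x48⟩ (.node ⟨nat_lit 5, nat_lit 0x80010, nat_lit 0x12231, nat_lit 0, nat_lit 4, nat_lit 0x49⟩ (.node ⟨nat_lit 5, nat_lit 0x100010001c, nat_lit 0x11122, nat_lit 4, nat_lit 4, nat_lit 0x47⟩ (.node ⟨nat_lit 7, nat_lit 0x40004000100060, nat_lit 0x122110, nat_lit 1, nat_lit 4, nat_lit 0x49⟩ (t14_382) (t14_8574)) (.node ⟨nat_lit 8, nat_lit 0x800080004000200090, nat_lit 0x11121011, nat_lit 0, nat_lit 4, nat_lit 0x4a⟩ (t14_4478) (t14_12670))) (.node ⟨nat_lit 5, nat_lit 0x100018, nat_lit 0x20212, nat_lit 8, nat_lit 4, nat_lit 0x49⟩ (.node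 ⟨nat_lit 6, nat_lit 0x1000300028, nat_lit 0x102014, nat_lit 1, nat_lit 4, nat_lit 0x48⟩ (t14_2430) (t14_10622)) (.node ⟨nat_lit 5, nat_lit 0x800100012, nat_lit 0x20201, nat_lit 3, nat_lit 4, nat_lit 0x46⟩ (t14_6526) (t14_14718)))) (.node ⟨nat_lit 6, nat_lit 0x2000080030, nat_lit 0x21012, nat_lit 3, nat_lit 4, nat_lit 0x48⟩ (.node ⟨nat_lit 6, nat_lit 0x2000200010, nat_lit 0x22211, nat_lit 1, nat_lit 4, nat_lit 0x49⟩ (.node ⟨nat_lit 6, nat_lit 0x2000080030, nat_lit 0x11203, nat_lit 0, nat_lit 4, nat_lit 0x47⟩ (t14_1406) (t14_9598)) (.node ⟨nat_lit 7, nat_lit 0x10001000600060, nat_lit 0x1002121, nat_lit 1, nat_lit 4, nat_lit 0x47⟩ (t14_5502) (t14_13694))) (.node ⟨nat_lit 6, nat_lit 0x2000200020, nat_lit 0x11200, nat_lit 6, nat_lit 4, nat_lit 0x49⟩ (.node ⟨nat_lit 5, nat_lit 0x10, nat_lit 0x2000, nat_lit 1, nat_lit 4, nat_lit 0x46⟩ (t14_3454) (t14_11646))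 (.node ⟨nat_lit 8, nat_lit 0x4000800080002000c8, nat_lit 0x11011102, nat_lit 2, nat_lit 4, nat_lit 0x49⟩ (t14_7550) (.nil))))) (.node ⟨nat_lit 5, nat_lit 0x40018, nat_lit 0x21311, nat_lit 3, nat_lit 4, nat_lit 0x49⟩ (.node ⟨nat_lit 7, nat_lit 0x100060, nat_lit 0x2002101, nat_lit 1, nat_lit 4, nat_lit 0x4a⟩ (.node ⟨nat_lit 6, nat_lit 0x200022, nat_lit 0x111110, nat_lit 3, nat_lit 4, nat_lit 0x49⟩ (.node ⟨nat_lit 7, nat_lit 0x20002000200040, nat_lit 0x2031001, nat_lit 1, nat_lit 4, nat_lit 0x4a⟩ (t14_894) (t14_9086)) (.node ⟨nat_lit 8, nat_lit 0x80008000400040, nat_lit 0x1111020, nat_lit 3, nat_lit 4, nat_lit 0x4b⟩ (t14_4990) (t14_13182))) (.node ⟨nat_lit 6, nat_lit 0x100020, nat_lit 0x2100, nat_lit 0, nat_lit 3, nat_lit 0x47⟩ (.node ⟨nat_lit 6, nat_lit 0x200020, nat_lit 0x111111, nat_lit 0, nat_lit 4, nat_lit 0x49⟩ (t14_2942) (t14_11134)) (.node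 ⟨nat_lit 6, nat_lit 0x800200030, nat_lit 0x110022, nat_lit 8, nat_lit 4, nat_lit 0x49⟩ (t14_7038) (t14_15230)))) (.node ⟨nat_lit 6, nat_lit 0x80030, nat_lit 0x110222, nat_lit 0, nat_lit 4, nat_lit 0x48⟩ (.node ⟨nat_lit 7, nat_lit 0x1000100060, nat_lit 0x2111111, nat_lit 0, nat_lit 4, nat_lit 0x4a⟩ (.node ⟨nat_lit 7, nat_lit 0x5000600070, nat_lit 0x111213, nat_lit 0, nat_lit 4, nat_lit 0x47⟩ (t14_1918) (t14_10110)) (.node ⟨nat_lit 7, nat_lit 0x10006000600060, nat_lit 0x23200, nat_lit 0, nat_lit 4, nat_lit 0x47⟩ (t14_6014) (t14_14206))) (.node ⟨nat_lit 7, nat_lit 0x200020002000400042, nat_lit 0x1031100, nat_lit 1, nat_lit 4, nat_lit 0x48⟩ (.node ⟨nat_lit 6, nat_lit 0x800280030, nat_lit 0x11002, nat_lit 1, nat_lit 4, nat_lit 0x46⟩ (t14_3966) (t14_12158)) (.node ⟨nat_lit 7, nat_lit 0x40001000100060, nat_lit 0x1112111, nat_lit 1, nat_lit 4, nat_lit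 0x49⟩ (t14_8062) (.nil)))))
def t14_254 : Tr := .node ⟨nat_lit 7, nat_lit 0x2000500060, nat_lit 0x122012, nat_lit 0, nat_lit 4, nat_lit 0x49⟩ (.nil) (.nil)
def t14_8446 : Tr := .node ⟨nat_lit 8, nat_lit 0x800040002000a000d0, nat_lit 0x20013, nat_lit 2, nat_lit 4, nat_lit 0x47⟩ (.nil) (.nil)
def t14_4350 : Tr := .node ⟨nat_lit 6, nat_lit 0x2000200030, nat_lit 0x22110, nat_lit 1, nat_lit 3, nat_lit 0x47⟩ (.nil) (.nil)
def t14_12542 : Tr := .node ⟨nat_lit 7, nat_lit 0x40001000600070, nat_lit 0x10103, nat_lit 1, nat_lit 4, nat_lit 0x46⟩ (.nil) (.nil)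
def t14_2302 : Tr := .node ⟨nat_lit 7, nat_lit 0x400050005000600070, nat_lit 0x1010012, nat_lit 1, nat_lit 4, nat_lit 0x46⟩ (.nil) (.nil)
def t14_10494 : Tr := .node ⟨nat_lit 8, nat_lit 0xa0009000c000c0, nat_lit 0x12210, nat_lit 2, nat_lit 4, nat_lit 0x47⟩ (.nil) (.nil)
def t14_6398 : Tr := .node ⟨nat_lit 5, nat_lit 0x1000080018, nat_lit 0x1021, nat_lit 5, nat_lit 3, nat_lit 0x45⟩ (.nil) (.nil)
def t14_14590 : Tr := .node ⟨nat_lit 0xa, nat_lit 0x100020002000080008002100220, nat_lit 0x111011, nat_lit 2, nat_lit 4, nat_lit 0x49⟩ (.nil) (.nil)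
def t14_1278 : Tr := .node ⟨nat_lit 7, nat_lit 0x4000100060, nat_lit 0x111212, nat_lit 1, nat_lit 4, nat_lit 0x49⟩ (.nil) (.nil)
def t14_9470 : Tr := .node ⟨nat_lit 7, nat_lit 0x20005000600070, nat_lit 0x1001222, nat_lit 1, nat_lit 4, nat_lit 0x46⟩ (.nil) (.nil)
def t14_5374 : Tr := .node ⟨nat_lit 7, nat_lit 0x4000100060, nat_lit 0x1111210, nat_lit 2, nat_lit 4, nat_lit 0x4a⟩ (.nil) (.nil)
def t14_13566 : Tr := .node ⟨nat_lit 8, nat_lit 0x8000800020002000d0, nat_lit 0x10002, nat_lit 1, nat_lit 4, nat_lit 0x47⟩ (.nil) (.nil)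
def t14_3326 : Tr := .node ⟨nat_lit 7, nat_lit 0x40002000500060, nat_lit 0x1221, nat_lit 0, nat_lit 4, nat_lit 0x46⟩ (.nil) (.nil)
def t14_11518 : Tr := .node ⟨nat_lit 7, nat_lit 0x40001000100060, nat_lit 0x1000111, nat_lit 0, nat_lit 4, nat_lit 0x47⟩ (.nil) (.nil)
def t14_7422 : Tr := .node ⟨nat_lit 8, nat_lit 0x8000800040004000a000a0, nat_lit 0x1111120, nat_lit 0, nat_lit 4, nat_lit 0x48⟩ (.nil) (.nil)
def t14_766 : Tr := .node ⟨nat_lit 7, nat_lit 0x3000500060, nat_lit 0x1130, nat_lit 1, nat_lit 4, nat_lit 0x46⟩ (.nil) (.nil)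
def t14_8958 : Tr := .node ⟨nat_lit 9, nat_lit 0x800100010000400108, nat_lit 0x202002, nat_lit 1, nat_lit 4, nat_lit 0x4a⟩ (.nil) (.nil)
def t14_4862 : Tr := .node ⟨nat_lit 6, nat_lit 0x800280030, nat_lit 0x121000, nat_lit 0, nat_lit 3, nat_lit 0x46⟩ (.nil) (.nil)
def t14_13054 : Tr := .node ⟨nat_lit 6, nat_lit 0x20002000100010, nat_lit 0x21000, nat_lit 0, nat_lit 3, nat_lit 0x46⟩ (.nil) (.nil)
def t14_2814 : Tr := .node ⟨nat_lit 6, nat_lit 0x2000080030, nat_lit 0x101002, nat_lit 3, nat_lit 4, nat_lit 0x47⟩ (.nil) (.nil)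
def t14_11006 : Tr := .node ⟨nat_lit 8, nat_lit 0x80008000c0, nat_lit 0x1111202, nat_lit 1, nat_lit 4, nat_lit 0x4b⟩ (.nil) (.nil)
def t14_6910 : Tr := .node ⟨nat_lit 4, nat_lit 0x40008, nat_lit 0x1111, nat_lit 0xb, nat_lit 3, nat_lit 0x46⟩ (.nil) (.nil)
def t14_15102 : Tr := .node ⟨nat_lit 8, nat_lit 0x800040004000a000e000d0, nat_lit 0x10111101, nat_lit 3, nat_lit 4, nat_lit 0x47⟩ (.nil) (.nil)
def t14_1790 : Tr := .node ⟨nat_lit 6, nat_lit 0x800200030, nat_lit 0x20022, nat_lit 4, nat_lit 4, nat_lit 0x48⟩ (.nil) (.nil)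
def t14_9982 : Tr := .node ⟨nat_lit 5, nat_lit 0x1000180018, nat_lit 0x1320, nat_lit 6, nat_lit 4, nat_lit 0x47⟩ (.nil) (.nil)
def t14_5886 : Tr := .node ⟨nat_lit 8, nat_lit 0x8000400040, nat_lit 0x111021, nat_lit 1, nat_lit 4, nat_lit 0x4b⟩ (.nil) (.nil)
def t14_14078 : Tr := .node ⟨nat_lit 7, nat_lit 0x10004000400060, nat_lit 0x210, nat_lit 9, nat_lit 4, nat_lit 0x49⟩ (.nil) (.nil)
def t14_3838 : Tr := .node ⟨nat_lit 7, nat_lit 0x40004000400020, nat_lit 0x112100, nat_lit 6, nat_lit 4, nat_lit 0x4a⟩ (.nil) (.nil)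
def t14_12030 : Tr := .node ⟨nat_lit 5, nat_lit 0x100018001c, nat_lit 0x1211, nat_lit 7, nat_lit 4, nat_lit 0x46⟩ (.nil) (.nil)
def t14_7934 : Tr := .node ⟨nat_lit 8, nat_lit 0x8000200020009000c0, nat_lit 0x1020021, nat_lit 1, nat_lit 4, nat_lit 0x48⟩ (.nil) (.nil)
def t9_254 : Tr := .node ⟨nat_lit 4, nat_lit 8, nat_lit 0x1322, nat_lit 1, nat_lit 3, nat_lit 0x47⟩ (.node ⟨nat_lit 5, nat_lit 0x18, nat_lit 0x31101, nat_lit 0, nat_lit 4, nat_lit 0x48⟩ (.node ⟨nat_lit 7, nat_lit 0x4000400020, nat_lit 0x131101, nat_lit 4, nat_lit 4, nat_lit 0x4b⟩ (.node ⟨nat_lit 6, nat_lit 0x280030, nat_lit 0x111230, nat_lit 0, nat_lit 4, nat_lit 0x48⟩ (.node ⟨nat_lit 6, nat_lit 0x1000200020, nat_lit 0x211131, nat_lit 0, nat_lit 4, nat_lit 0x4a⟩ (t14_254) (t14_8446)) (.node ⟨nat_lit 7, nat_lit 0x40002000580068, nat_lit 0x11002, nat_lit 0, nat_lit 4, nat_lit 0x45⟩ (t14_4350)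 (t14_12542))) (.node ⟨nat_lit 6, nat_lit 0x300030, nat_lit 0x202121, nat_lit 2, nat_lit 4, nat_lit 0x49⟩ (.node ⟨nat_lit 7, nat_lit 0x40002000100064, nat_lit 0x102200, nat_lit 0, nat_lit 4, nat_lit 0x47⟩ (t14_2302) (t14_10494)) (.node ⟨nat_lit 6, nat_lit 0x280030, nat_lit 0x110220, nat_lit 3, nat_lit 4, nat_lit 0x48⟩ (t14_6398) (t14_14590)))) (.node ⟨nat_lit 4, nat_lit 0xc, nat_lit 0x2111, nat_lit 5, nat_lit 4, nat_lit 0x47⟩ (.node ⟨nat_lit 4, nat_lit 0x80008, nat_lit 0x2121, nat_lit 0xb, nat_lit 4, nat_lit 0x49⟩ (.node ⟨nat_lit 5, nat_lit 0x1c, nat_lit 0x21113, nat_lit 3, nat_lit 4, nat_lit 0x48⟩ (t14_1278) (t14_9470)) (.node ⟨nat_lit 7, nat_lit 0x10002000500060, nat_lit 0x1013022, nat_lit 0, nat_lit 4, nat_lit 0x48⟩ (t14_5374) (t14_13566))) (.node ⟨nat_lit 5, nat_lit 0x40018, nat_lit 0x11204, nat_lit 0, nat_lit 4, nat_lit 0x47⟩ (.node ⟨nat_lit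 5, nat_lit 0x18001c, nat_lit 0x11213, nat_lit 4, nat_lit 4, nat_lit 0x47⟩ (t14_3326) (t14_11518)) (.node ⟨nat_lit 7, nat_lit 0x4000080070, nat_lit 0x1110102, nat_lit 1, nat_lit 4, nat_lit 0x48⟩ (t14_7422) (.nil))))) (.node ⟨nat_lit 6, nat_lit 0x200010, nat_lit 0x13102, nat_lit 2, nat_lit 4, nat_lit 0x4a⟩ (.node ⟨nat_lit 6, nat_lit 0x1000080020, nat_lit 0x112021, nat_lit 1, nat_lit 4, nat_lit 0x49⟩ (.node ⟨nat_lit 2, nat_lit 0, nat_lit 0x21, nat_lit 0x12, nat_lit 4, nat_lit 0x48⟩ (.node ⟨nat_lit 7, nat_lit 0x1000400062, nat_lit 0x1113011, nat_lit 1, nat_lit 4, nat_lit 0x4a⟩ (t14_766) (t14_8958)) (.node ⟨nat_lit 6, nat_lit 0x2000200030, nat_lit 0x111220, nat_lit 1, nat_lit 3, nat_lit 0x47⟩ (t14_4862) (t14_13054))) (.node ⟨nat_lit 4, nat_lit 0x8000c, nat_lit 0x1132, nat_lit 6, nat_lit 4, nat_lit 0x47⟩ (.node ⟨nat_lit 6, nat_lit 0x300028, nat_lit 0x2113,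 nat_lit 3, nat_lit 4, nat_lit 0x48⟩ (t14_2814) (t14_11006)) (.node ⟨nat_lit 7, nat_lit 0x40006000300050, nat_lit 0x101022, nat_lit 1, nat_lit 4, nat_lit 0x46⟩ (t14_6910) (t14_15102)))) (.node ⟨nat_lit 6, nat_lit 0x1000280030, nat_lit 0x101112, nat_lit 1, nat_lit 4, nat_lit 0x46⟩ (.node ⟨nat_lit 7, nat_lit 0x4000600064, nat_lit 0x1011311, nat_lit 1, nat_lit 4, nat_lit 0x49⟩ (.node ⟨nat_lit 6, nat_lit 0x800200032, nat_lit 0x100011, nat_lit 0, nat_lit 4, nat_lit 0x45⟩ (t14_1790) (t14_9982)) (.node ⟨nat_lit 7, nat_lit 0x20002000100040, nat_lit 0x2010012, nat_lit 5, nat_lit 4, nat_lit 0x4a⟩ (t14_5886) (t14_14078))) (.node ⟨nat_lit 5, nat_lit 0x1000080008, nat_lit 0x10220, nat_lit 1, nat_lit 3, nat_lit 0x45⟩ (.node ⟨nat_lit 7, nat_lit 0x6000180070, nat_lit 0x1010003, nat_lit 3, nat_lit 4, nat_lit 0x47⟩ (t14_3838) (t14_12030)) (.node ⟨nat_lit 8, nat_lit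 0x80002000200040, nat_lit 0x1010002, nat_lit 3, nat_lit 4, nat_lit 0x4a⟩ (t14_7934) (.nil)))))
def t14_510 : Tr := .node ⟨nat_lit 7, nat_lit 0x40002000200048, nat_lit 0x2112101, nat_lit 0, nat_lit 4, nat_lit 0x4a⟩ (.nil) (.nil)
def t14_8702 : Tr := .node ⟨nat_lit 6, nat_lit 0x2000240030, nat_lit 0x11110, nat_lit 4, nat_lit 4, nat_lit 0x47⟩ (.nil) (.nil)
def t14_4606 : Tr := .node ⟨nat_lit 7, nat_lit 0x40004000100060, nat_lit 0x12020, nat_lit 2, nat_lit 4, nat_lit 0x48⟩ (.nil) (.nil)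
def t14_12798 : Tr := .node ⟨nat_lit 7, nat_lit 0x40001000500060, nat_lit 0x101002, nat_lit 3, nat_lit 4, nat_lit 0x47⟩ (.nil) (.nil)
def t14_2558 : Tr := .node ⟨nat_lit 7, nat_lit 0x10004000200060, nat_lit 0x1000012, nat_lit 1, nat_lit 3, nat_lit 0x46⟩ (.nil) (.nil)
def t14_10750 : Tr := .node ⟨nat_lit 7, nat_lit 0x2000500060, nat_lit 0x11002, nat_lit 3, nat_lit 4, nat_lit 0x48⟩ (.nil) (.nil)
def t14_6654 : Tr := .node ⟨nat_lit 6, nat_lit 0x200010, nat_lit 0x11121, nat_lit 3, nat_lit 4, nat_lit 0x49⟩ (.nil) (.nil)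
def t14_14846 : Tr := .node ⟨nat_lit 7, nat_lit 0x200020004000400064, nat_lit 0x10220, nat_lit 1, nat_lit 4, nat_lit 0x47⟩ (.nil) (.nil)
def t14_1534 : Tr := .node ⟨nat_lit 7, nat_lit 0x400040007000700068, nat_lit 0x12210, nat_lit 1, nat_lit 4, nat_lit 0x45⟩ (.nil) (.nil)
def t14_9726 : Tr := .node ⟨nat_lit 7, nat_lit 0x40004000100060, nat_lit 0x101020, nat_lit 0, nat_lit 4, nat_lit 0x47⟩ (.nil) (.nil)
def t14_5630 : Tr := .node ⟨nat_lit 6, nat_lit 0x2000300030, nat_lit 0x1020, nat_lit 3, nat_lit 4, nat_lit 0x46⟩ (.nil) (.nil)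
def t14_13822 : Tr := .node ⟨nat_lit 7, nat_lit 0x40004800600030, nat_lit 0x2100, nat_lit 0, nat_lit 4, nat_lit 0x46⟩ (.nil) (.nil)
def t14_3582 : Tr := .node ⟨nat_lit 7, nat_lit 0x10005000300060, nat_lit 0x3011, nat_lit 0, nat_lit 4, nat_lit 0x46⟩ (.nil) (.nil)
def t14_11774 : Tr := .node ⟨nat_lit 3, nat_lit 4, nat_lit 0x14, nat_lit 0xa, nat_lit 4, nat_lit 0x47⟩ (.nil) (.nil)
def t14_7678 : Tr := .node ⟨nat_lit 3, nat_lit 0x40004, nat_lit 0x10, nat_lit 8, nat_lit 4, nat_lit 0x44⟩ (.nil) (.nil)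
def t14_1022 : Tr := .node ⟨nat_lit 7, nat_lit 0x10004000180064, nat_lit 0x1100121, nat_lit 0, nat_lit 4, nat_lit 0x46⟩ (.nil) (.nil)
def t14_9214 : Tr := .node ⟨nat_lit 7, nat_lit 0x200040004800300068, nat_lit 0x11001, nat_lit 0, nat_lit 4, nat_lit 0x44⟩ (.nil) (.nil)
def t14_5118 : Tr := .node ⟨nat_lit 8, nat_lit 0x8000800040004000a000e0, nat_lit 0x103011, nat_lit 1, nat_lit 4, nat_lit 0x47⟩ (.nil) (.nil)
def t14_13310 : Tr := .node ⟨nat_lit 6, nat_lit 0x3000300028, nat_lit 0x103, nat_lit 3, nat_lit 4, nat_lit 0x45⟩ (.nil) (.nil)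
def t14_3070 : Tr := .node ⟨nat_lit 6, nat_lit 0x800300030, nat_lit 0x100021, nat_lit 2, nat_lit 3, nat_lit 0x45⟩ (.nil) (.nil)
def t14_11262 : Tr := .node ⟨nat_lit 7, nat_lit 0x10002000500060, nat_lit 0x1001101, nat_lit 0, nat_lit 4, nat_lit 0x46⟩ (.nil) (.nil)
def t14_7166 : Tr := .node ⟨nat_lit 8, nat_lit 0x800080008800c0, nat_lit 0x10210101, nat_lit 1, nat_lit 4, nat_lit 0x4a⟩ (.nil) (.nil)
def t14_15358 : Tr := .node ⟨nat_lit 9, nat_lit 0x100008000800080014001a001a0, nat_lit 0x1021110, nat_lit 0, nat_lit 4, nat_lit 0x47⟩ (.nil) (.nil)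
def t14_2046 : Tr := .node ⟨nat_lit 7, nat_lit 0x40004000100060, nat_lit 0x23110, nat_lit 1, nat_lit 4, nat_lit 0x49⟩ (.nil) (.nil)
def t14_10238 : Tr := .node ⟨nat_lit 6, nat_lit 0x10001000200032, nat_lit 0x102200, nat_lit 8, nat_lit 4, nat_lit 0x48⟩ (.nil) (.nil)
def t14_6142 : Tr := .node ⟨nat_lit 5, nat_lit 0x1000080008, nat_lit 0x21, nat_lit 4, nat_lit 4, nat_lit 0x46⟩ (.nil) (.nil)
def t14_14334 : Tr := .node ⟨nat_lit 7, nat_lit 0x400020002000500068, nat_lit 0x100010, nat_lit 1, nat_lit 4, nat_lit 0x45⟩ (.nil) (.nil)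
def t14_4094 : Tr := .node ⟨nat_lit 8, nat_lit 0x8000200090009000c0, nat_lit 0x1110211, nat_lit 2, nat_lit 4, nat_lit 0x48⟩ (.nil) (.nil)
def t14_12286 : Tr := .node ⟨nat_lit 7, nat_lit 0x50003000300060, nat_lit 0x1001301, nat_lit 3, nat_lit 4, nat_lit 0x46⟩ (.nil) (.nil)
def t14_8190 : Tr := .node ⟨nat_lit 5, nat_lit 0x180018, nat_lit 0x240, nat_lit 3, nat_lit 4, nat_lit 0x46⟩ (.nil) (.nil)
def t9_510 : Tr := .node ⟨nat_lit 4, nat_lit 0xc, nat_lit 0x1131, nat_lit 3, nat_lit 4, nat_lit 0x47⟩ (.node ⟨nat_lit 5, nat_lit 0x100014001c, nat_lit 0x31031, nat_lit 3, nat_lit 4, nat_lit 0x47⟩ (.node ⟨nat_lit 5, nat_lit 0x10, nat_lit 0x12221, nat_lit 0, nat_lit 3, nat_lit 0x48⟩ (.node ⟨nat_lit 5, nat_lit 0x100010, nat_lit 0x2121, nat_lit 3, nat_lit 4, nat_lit 0x48⟩ (.node ⟨nat_lit 0xa, nat_lit 0x2000100008000400020, nat_lit 0x1200011, nat_lit 1, nat_lit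 4, nat_lit 0x4c⟩ (t14_510) (t14_8702)) (.node ⟨nat_lit 7, nat_lit 0x10002000200040, nat_lit 0x1122110, nat_lit 1, nat_lit 4, nat_lit 0x4a⟩ (t14_4606) (t14_12798))) (.node ⟨nat_lit 5, nat_lit 0x1000100008, nat_lit 0x1210, nat_lit 2, nat_lit 3, nat_lit 0x45⟩ (.node ⟨nat_lit 7, nat_lit 0x40004000200060, nat_lit 0x112031, nat_lit 0, nat_lit 4, nat_lit 0x49⟩ (t14_2558) (t14_10750)) (.node ⟨nat_lit 7, nat_lit 0x40002000100060, nat_lit 0x112112, nat_lit 0, nat_lit 4, nat_lit 0x48⟩ (t14_6654) (t14_14846)))) (.node ⟨nat_lit 5, nat_lit 0x10001a, nat_lit 0x12121, nat_lit 4, nat_lit 4, nat_lit 0x48⟩ (.node ⟨nat_lit 8, nat_lit 0x8000400020, nat_lit 0x221001, nat_lit 3, nat_lit 4, nat_lit 0x4c⟩ (.node ⟨nat_lit 6, nat_lit 0x2000240030, nat_lit 0x101311, nat_lit 5, nat_lit 4, nat_lit 0x49⟩ (t14_1534) (t14_9726)) (.node ⟨nat_lit 4, nat_lit 0x8000c, nat_lit 0x1130,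 nat_lit 2, nat_lit 3, nat_lit 0x45⟩ (t14_5630) (t14_13822))) (.node ⟨nat_lit 7, nat_lit 0x400040, nat_lit 0x211100, nat_lit 3, nat_lit 4, nat_lit 0x4b⟩ (.node ⟨nat_lit 6, nat_lit 0x2000080034, nat_lit 0x101010, nat_lit 1, nat_lit 4, nat_lit 0x46⟩ (t14_3582) (t14_11774)) (.node ⟨nat_lit 8, nat_lit 0x800080002000400090, nat_lit 0x11121110, nat_lit 0, nat_lit 4, nat_lit 0x4a⟩ (t14_7678) (.nil))))) (.node ⟨nat_lit 4, nat_lit 0x80004, nat_lit 0x300, nat_lit 1, nat_lit 3, nat_lit 0x45⟩ (.node ⟨nat_lit 5, nat_lit 0x100012, nat_lit 0x22100, nat_lit 3, nat_lit 4, nat_lit 0x48⟩ (.node ⟨nat_lit 5, nat_lit 0x100012, nat_lit 0x22211, nat_lit 3, nat_lit 4, nat_lit 0x49⟩ (.node ⟨nat_lit 6, nat_lit 0x800080030, nat_lit 0x110104, nat_lit 0, nat_lit 4, nat_lit 0x47⟩ (t14_1022) (t14_9214)) (.node ⟨nat_lit 5, nat_lit 0x100010, nat_lit 0x12222, nat_lit 5, nat_lit 4,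 nat_lit 0x4a⟩ (t14_5118) (t14_13310))) (.node ⟨nat_lit 6, nat_lit 0x20002000100010, nat_lit 0x11020, nat_lit 6, nat_lit 4, nat_lit 0x48⟩ (.node ⟨nat_lit 6, nat_lit 0x20001000280028, nat_lit 0x212121, nat_lit 2, nat_lit 4, nat_lit 0x49⟩ (t14_3070) (t14_11262)) (.node ⟨nat_lit 7, nat_lit 0x40002000600064, nat_lit 0x113220, nat_lit 0, nat_lit 4, nat_lit 0x48⟩ (t14_7166) (t14_15358)))) (.node ⟨nat_lit 6, nat_lit 0x1000200020, nat_lit 0x12200, nat_lit 1, nat_lit 4, nat_lit 0x48⟩ (.node ⟨nat_lit 7, nat_lit 0x1000180060, nat_lit 0x2102112, nat_lit 0, nat_lit 4, nat_lit 0x49⟩ (.node ⟨nat_lit 6, nat_lit 0x10001000200022, nat_lit 0x213110, nat_lit 3, nat_lit 4, nat_lit 0x49⟩ (t14_2046) (t14_10238)) (.node ⟨nat_lit 7, nat_lit 0x4000600060, nat_lit 0x122200, nat_lit 0, nat_lit 4, nat_lit 0x49⟩ (t14_6142) (t14_14334))) (.node ⟨nat_lit 5, nat_lit 0x40018, nat_lit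 0x22114, nat_lit 1, nat_lit 4, nat_lit 0x49⟩ (.node ⟨nat_lit 6, nat_lit 0x2000200030, nat_lit 0x2110, nat_lit 1, nat_lit 4, nat_lit 0x47⟩ (t14_4094) (t14_12286)) (.node ⟨nat_lit 7, nat_lit 0x400020002000500068, nat_lit 0x102201, nat_lit 1, nat_lit 4, nat_lit 0x47⟩ (t14_8190) (.nil)))))
def t4_14 : Tr := .node ⟨nat_lit 2, nat_lit 2, nat_lit 0x21, nat_lit 9, nat_lit 3, nat_lit 0x44⟩ (.node ⟨nat_lit 4, nat_lit 0xc, nat_lit 0x2112, nat_lit 0, nat_lit 3, nat_lit 0x45⟩ (.node ⟨nat_lit 2, nat_lit 0, nat_lit 0x11, nat_lit 0xc, nat_lit 3, nat_lit 0x45⟩ (.node ⟨nat_lit 5, nat_lit 0x10, nat_lit 0x24112, nat_lit 1, nat_lit 4, nat_lit 0x4b⟩ (.node ⟨nat_lit 4, nat_lit 0, nat_lit 0x4111, nat_lit 9, nat_lit 4, nat_lit 0x4b⟩ (t9_14) (t9_270)) (.node ⟨nat_lit 2, nat_lit 2, nat_lit 0x33, nat_lit 9, nat_lit 3, nat_lit 0x46⟩ (t9_142) (t9_398))) (.node ⟨nat_lit 5, nat_lit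 0x80010, nat_lit 0x11421, nat_lit 0, nat_lit 4, nat_lit 0x49⟩ (.node ⟨nat_lit 4, nat_lit 0xc, nat_lit 0x2222, nat_lit 0, nat_lit 3, nat_lit 0x46⟩ (t9_78) (t9_334)) (.node ⟨nat_lit 4, nat_lit 0x40008, nat_lit 0x1311, nat_lit 7, nat_lit 3, nat_lit 0x47⟩ (t9_206) (t9_462)))) (.node ⟨nat_lit 3, nat_lit 0, nat_lit 0x441, nat_lit 8, nat_lit 4, nat_lit 0x4a⟩ (.node ⟨nat_lit 5, nat_lit 0, nat_lit 0x42211, nat_lit 1, nat_lit 4, nat_lit 0x4c⟩ (.node ⟨nat_lit 3, nat_lit 4, nat_lit 0x211, nat_lit 9, nat_lit 3, nat_lit 0x46⟩ (t9_46) (t9_302)) (.node ⟨nat_lit 2, nat_lit 0, nat_lit 0x31, nat_lit 0xf, nat_lit 4, nat_lit 0x47⟩ (t9_174) (t9_430))) (.node ⟨nat_lit 6, nat_lit 0x2000100010, nat_lit 0x14021, nat_lit 1, nat_lit 4, nat_lit 0x4a⟩ (.node ⟨nat_lit 3, nat_lit 0, nat_lit 0x322, nat_lit 3, nat_lit 4, nat_lit 0x48⟩ (t9_110) (t9_366)) (.node ⟨nat_lit 4, nat_lit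 0, nat_lit 0x3211, nat_lit 1, nat_lit 4, nat_lit 0x48⟩ (t9_238) (t9_494))))) (.node ⟨nat_lit 4, nat_lit 8, nat_lit 0x1220, nat_lit 0, nat_lit 3, nat_lit 0x46⟩ (.node ⟨nat_lit 6, nat_lit 0x200010, nat_lit 0x11101, nat_lit 0, nat_lit 3, nat_lit 0x47⟩ (.node ⟨nat_lit 3, nat_lit 0, nat_lit 0x421, nat_lit 3, nat_lit 4, nat_lit 0x48⟩ (.node ⟨nat_lit 3, nat_lit 4, nat_lit 0x323, nat_lit 3, nat_lit 3, nat_lit 0x47⟩ (t9_30) (t9_286)) (.node ⟨nat_lit 5, nat_lit 0x100008, nat_lit 0x3102, nat_lit 1, nat_lit 4, nat_lit 0x48⟩ (t9_158) (t9_414))) (.node ⟨nat_lit 5, nat_lit 0x10, nat_lit 0x14111, nat_lit 2, nat_lit 4, nat_lit 0x4a⟩ (.node ⟨nat_lit 5, nat_lit 0x1000100008, nat_lit 0x2102, nat_lit 3, nat_lit 3, nat_lit 0x46⟩ (t9_94) (t9_350)) (.node ⟨nat_lit 4, nat_lit 0xc, nat_lit 0x3121, nat_lit 9, nat_lit 4, nat_lit 0x49⟩ (t9_222) (t9_478)))) (.node ⟨nat_lit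 3, nat_lit 0, nat_lit 0x432, nat_lit 5, nat_lit 4, nat_lit 0x4a⟩ (.node ⟨nat_lit 5, nat_lit 0, nat_lit 0x42111, nat_lit 3, nat_lit 4, nat_lit 0x4c⟩ (.node ⟨nat_lit 5, nat_lit 0x80010, nat_lit 0x12210, nat_lit 0, nat_lit 3, nat_lit 0x47⟩ (t9_62) (t9_318)) (.node ⟨nat_lit 4, nat_lit 0xc, nat_lit 0x3221, nat_lit 1, nat_lit 3, nat_lit 0x47⟩ (t9_190) (t9_446))) (.node ⟨nat_lit 5, nat_lit 0, nat_lit 0x42110, nat_lit 0, nat_lit 4, nat_lit 0x4b⟩ (.node ⟨nat_lit 5, nat_lit 0x10, nat_lit 0x32112, nat_lit 3, nat_lit 4, nat_lit 0x4b⟩ (t9_126) (t9_382)) (.node ⟨nat_lit 5, nat_lit 0x80010, nat_lit 0x11321, nat_lit 0, nat_lit 4, nat_lit 0x48⟩ (t9_254) (t9_510)))))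

end Pool.Agent.Sel.T31
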