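import Pool.Agent.H8.Sel.Prof
import Pool.Agent.H8.Sel.T31.P14

set_option linter.all false
set_option maxRecDepth 100000

namespace Pool.Agent.Sel.T31

open Pool.Agent.Sel

def t14_13 : Tr := .node ⟨nat_lit 5, nat_lit 0x100010, nat_lit 0x11121, nat_lit 0xa, nat_lit 4, nat_lit 0x4a⟩ (.nil) (.nil)
def t14_8205 : Tr := .node ⟨nat_lit 7, nat_lit 0x40003000580068, nat_lit 0x1131, nat_lit 1, nat_lit 4, nat_lit 0x44⟩ (.nil) (.nil)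
def t14_4109 : Tr := .node ⟨nat_lit 8, nat_lit 0x800080004000880090, nat_lit 0x1121012, nat_lit 0, nat_lit 4, nat_lit 0x49⟩ (.nil) (.nil)
def t14_12301 : Tr := .node ⟨nat_lit 7, nat_lit 0x40004800300060, nat_lit 0x2010, nat_lit 1, nat_lit 4, nat_lit 0x46⟩ (.nil) (.nil)
def t14_2061 : Tr := .node ⟨nat_lit 6, nat_lit 0x2000200024, nat_lit 0x21131, nat_lit 3, nat_lit 4, nat_lit 0x49⟩ (.nil) (.nil)
def t14_10253 : Tr := .node ⟨nat_lit 8, nat_lit 0x80008000a000d000d000e0, nat_lit 0x10000202, nat_lit 1, nat_lit 4, nat_lit 0x45⟩ (.nil) (.nil)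
def t14_6157 : Tr := .node ⟨nat_lit 4, nat_lit 0x80008, nat_lit 0x100, nat_lit 9, nat_lit 4, nat_lit 0x46⟩ (.nil) (.nil)
def t14_14349 : Tr := .node ⟨nat_lit 7, nat_lit 0x20002000500068, nat_lit 0x1001, nat_lit 3, nat_lit 4, nat_lit 0x46⟩ (.nil) (.nil)
def t14_1037 : Tr := .node ⟨nat_lit 6, nat_lit 0x20001000280030, nat_lit 0x2111, nat_lit 3, nat_lit 4, nat_lit 0x46⟩ (.nil) (.nil)
def t14_9229 : Tr := .node ⟨nat_lit 0xa, nat_lit 0x200020002000100021002200240, nat_lit 0x10110010, nat_lit 4, nat_lit 4, nat_lit 0x4a⟩ (.nil) (.nil)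
def t14_5133 : Tr := .node ⟨nat_lit 8, nat_lit 0x80008000a000b000d000e0, nat_lit 0x103, nat_lit 1, nat_lit 4, nat_lit 0x44⟩ (.nil) (.nil)
def t14_13325 : Tr := .node ⟨nat_lit 7, nat_lit 0x1000400060, nat_lit 0x2101000, nat_lit 0, nat_lit 3, nat_lit 0x48⟩ (.nil) (.nil)
def t14_3085 : Tr := .node ⟨nat_lit 7, nat_lit 0x40001000100060, nat_lit 0x1100211, nat_lit 0, nat_lit 4, nat_lit 0x48⟩ (.nil) (.nil)
def t14_11277 : Tr := .node ⟨nat_lit 6, nat_lit 0x200020, nat_lit 0x111020, nat_lit 0, nat_lit 3, nat_lit 0x48⟩ (.nil) (.nil)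
def t14_7181 : Tr := .node ⟨nat_lit 8, nat_lit 0x800080008000400090, nat_lit 0x1110011, nat_lit 1, nat_lit 4, nat_lit 0x49⟩ (.nil) (.nil)
def t14_15373 : Tr := .node ⟨nat_lit 7, nat_lit 0x400040004000200050, nat_lit 0x111011, nat_lit 8, nat_lit 4, nat_lit 0x49⟩ (.nil) (.nil)
def t14_525 : Tr := .node ⟨nat_lit 4, nat_lit 0x8000c, nat_lit 0x222, nat_lit 9, nat_lit 4, nat_lit 0x47⟩ (.nil) (.nil)
def t14_8717 : Tr := .node ⟨nat_lit 6, nat_lit 0x1000280030, nat_lit 0x1300, nat_lit 0, nat_lit 4, nat_lit 0x46⟩ (.nil) (.nil)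
def t14_4621 : Tr := .node ⟨nat_lit 8, nat_lit 0x4000a0003000c0, nat_lit 0x10020112, nat_lit 0, nat_lit 4, nat_lit 0x48⟩ (.nil) (.nil)
def t14_12813 : Tr := .node ⟨nat_lit 8, nat_lit 0x2000800080004000c0, nat_lit 0x2120, nat_lit 0, nat_lit 4, nat_lit 0x48⟩ (.nil) (.nil)
def t14_2573 : Tr := .node ⟨nat_lit 8, nat_lit 0x40008000800090006000d0, nat_lit 0x10210001, nat_lit 1, nat_lit 4, nat_lit 0x47⟩ (.nil) (.nil)
def t14_10765 : Tr := .node ⟨nat_lit 7, nat_lit 0x20004000440060, nat_lit 0x10002, nat_lit 0, nat_lit 4, nat_lit 0x46⟩ (.nil) (.nil)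
def t14_6669 : Tr := .node ⟨nat_lit 7, nat_lit 0x20002000100040, nat_lit 0x1012011, nat_lit 3, nat_lit 4, nat_lit 0x49⟩ (.nil) (.nil)
def t14_14861 : Tr := .node ⟨nat_lit 8, nat_lit 0x8000800040008800d0, nat_lit 0x1111111, nat_lit 0, nat_lit 4, nat_lit 0x48⟩ (.nil) (.nil)
def t14_1549 : Tr := .node ⟨nat_lit 9, nat_lit 0x100010000800080008001400190, nat_lit 0x1121011, nat_lit 0, nat_lit 4, nat_lit 0x48⟩ (.nil) (.nil)
def t14_9741 : Tr := .node ⟨nat_lit 7, nat_lit 0x10006000600060, nat_lit 0x21220, nat_lit 0, nat_lit 4, nat_lit 0x47⟩ (.nil) (.nil)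
def t14_5645 : Tr := .node ⟨nat_lit 6, nat_lit 0x30000c, nat_lit 0x100010, nat_lit 0, nat_lit 4, nat_lit 0x45⟩ (.nil) (.nil)
def t14_13837 : Tr := .node ⟨nat_lit 6, nat_lit 0x2000280034, nat_lit 0x200, nat_lit 4, nat_lit 4, nat_lit 0x46⟩ (.nil) (.nil)
def t14_3597 : Tr := .node ⟨nat_lit 7, nat_lit 0x20005000600060, nat_lit 0x1001221, nat_lit 2, nat_lit 4, nat_lit 0x47⟩ (.nil) (.nil)
def t14_11789 : Tr := .node ⟨nat_lit 6, nat_lit 0x1000200034, nat_lit 0x1100, nat_lit 1, nat_lit 4, nat_lit 0x45⟩ (.nil) (.nil)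
def t14_7693 : Tr := .node ⟨nat_lit 7, nat_lit 0x1000100060, nat_lit 0x1102, nat_lit 0, nat_lit 4, nat_lit 0x47⟩ (.nil) (.nil)
def t9_13 : Tr := .node ⟨nat_lit 2, nat_lit 0, nat_lit 0x31, nat_lit 3, nat_lit 3, nat_lit 0x44⟩ (.node ⟨nat_lit 4, nat_lit 0x80008, nat_lit 0x1330, nat_lit 7, nat_lit 4, nat_lit 0x49⟩ (.node ⟨nat_lit 5, nat_lit 0x100014001c, nat_lit 0x31010, nat_lit 2, nat_lit 4, nat_lit 0x46⟩ (.node ⟨nat_lit 7, nat_lit 0x1000500060, nat_lit 0x1002121, nat_lit 0, nat_lit 4, nat_lit 0x48⟩ (.node ⟨nat_lit 4, nat_lit 0x40008, nat_lit 0x2233, nat_lit 2, nat_lit 3, nat_lit 0x47⟩ (t14_13) (t14_8205)) (.node ⟨nat_lit 6, nat_lit 0x1000200030, nat_lit 0x10010, nat_lit 1, nat_lit 4, nat_lit 0x46⟩ (t14_4109) (t14_12301))) (.node ⟨nat_lit 4, nat_lit 0xc, nat_lit 0x3133, nat_lit 3, nat_lit 4, nat_lit 0x49⟩ (.node ⟨nat_lit 6, nat_lit 0x20002000100010,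 nat_lit 0x12231, nat_lit 1, nat_lit 4, nat_lit 0x48⟩ (t14_2061) (t14_10253)) (.node ⟨nat_lit 9, nat_lit 0x10000800080012001900190, nat_lit 0x12100110, nat_lit 0, nat_lit 4, nat_lit 0x48⟩ (t14_6157) (t14_14349)))) (.node ⟨nat_lit 4, nat_lit 0x40008, nat_lit 0x223, nat_lit 6, nat_lit 4, nat_lit 0x47⟩ (.node ⟨nat_lit 5, nat_lit 0x10001c, nat_lit 0x22112, nat_lit 3, nat_lit 4, nat_lit 0x48⟩ (.node ⟨nat_lit 6, nat_lit 0x300030, nat_lit 0x111131, nat_lit 3, nat_lit 4, nat_lit 0x49⟩ (t14_1037) (t14_9229)) (.node ⟨nat_lit 5, nat_lit 0x100018, nat_lit 0x12121, nat_lit 7, nat_lit 4, nat_lit 0x49⟩ (t14_5133) (t14_13325))) (.node ⟨nat_lit 6, nat_lit 0x2000200024, nat_lit 0x111201, nat_lit 3, nat_lit 4, nat_lit 0x49⟩ (.node ⟨nat_lit 7, nat_lit 0x10002000400060, nat_lit 0x1100003, nat_lit 5, nat_lit 4, nat_lit 0x49⟩ (t14_3085) (t14_11277)) (.node ⟨nat_lit 5,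 nat_lit 0x1000080018, nat_lit 0x1222, nat_lit 5, nat_lit 4, nat_lit 0x47⟩ (t14_7181) (t14_15373))))) (.node ⟨nat_lit 6, nat_lit 0x200030, nat_lit 0x131102, nat_lit 1, nat_lit 4, nat_lit 0x4a⟩ (.node ⟨nat_lit 5, nat_lit 0x18, nat_lit 0x22221, nat_lit 0, nat_lit 4, nat_lit 0x49⟩ (.node ⟨nat_lit 6, nat_lit 0x200010, nat_lit 0x2111, nat_lit 1, nat_lit 4, nat_lit 0x48⟩ (.node ⟨nat_lit 7, nat_lit 0x20001000400042, nat_lit 0x1121100, nat_lit 6, nat_lit 4, nat_lit 0x4a⟩ (t14_525) (t14_8717)) (.node ⟨nat_lit 7, nat_lit 0x10004000400060, nat_lit 0x1100212, nat_lit 2, nat_lit 4, nat_lit 0x49⟩ (t14_4621) (t14_12813))) (.node ⟨nat_lit 6, nat_lit 0x20002800300038, nat_lit 0x10021, nat_lit 4, nat_lit 4, nat_lit 0x45⟩ (.node ⟨nat_lit 5, nat_lit 0x100010, nat_lit 0x11131, nat_lit 8, nat_lit 4, nat_lit 0x4a⟩ (t14_2573) (t14_10765)) (.node ⟨nat_lit 6, nat_lit 0x200020,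 nat_lit 0x21130, nat_lit 3, nat_lit 4, nat_lit 0x4a⟩ (t14_6669) (t14_14861)))) (.node ⟨nat_lit 6, nat_lit 0x2000080010, nat_lit 0x112013, nat_lit 0, nat_lit 4, nat_lit 0x49⟩ (.node ⟨nat_lit 5, nat_lit 0x100010, nat_lit 0x12200, nat_lit 5, nat_lit 4, nat_lit 0x49⟩ (.node ⟨nat_lit 6, nat_lit 0x800300028, nat_lit 0x1311, nat_lit 3, nat_lit 4, nat_lit 0x47⟩ (t14_1549) (t14_9741)) (.node ⟨nat_lit 8, nat_lit 0x4000400080008000600088, nat_lit 0x11112100, nat_lit 1, nat_lit 4, nat_lit 0x49⟩ (t14_5645) (t14_13837))) (.node ⟨nat_lit 6, nat_lit 0x80030, nat_lit 0x200103, nat_lit 2, nat_lit 4, nat_lit 0x48⟩ (.node ⟨nat_lit 5, nat_lit 0x40018, nat_lit 0x120, nat_lit 3, nat_lit 4, nat_lit 0x46⟩ (t14_3597) (t14_11789)) (.node ⟨nat_lit 5, nat_lit 0x100018, nat_lit 0x10121, nat_lit 0xb, nat_lit 4, nat_lit 0x49⟩ (t14_7693) (.nil)))))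
def t14_269 : Tr := .node ⟨nat_lit 7, nat_lit 0x10006000600050, nat_lit 0x11221, nat_lit 0, nat_lit 4, nat_lit 0x46⟩ (.nil) (.nil)
def t14_8461 : Tr := .node ⟨nat_lit 7, nat_lit 0x200040004800300060, nat_lit 0x1020001, nat_lit 0, nat_lit 4, nat_lit 0x46⟩ (.nil) (.nil)
def t14_4365 : Tr := .node ⟨nat_lit 8, nat_lit 0x8000800040009000b000e0, nat_lit 0x10111120, nat_lit 1, nat_lit 4, nat_lit 0x47⟩ (.nil) (.nil)
def t14_12557 : Tr := .node ⟨nat_lit 7, nat_lit 0x20001000600050, nat_lit 0x101040, nat_lit 0, nat_lit 4, nat_lit 0x47⟩ (.nil) (.nil)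
def t14_2317 : Tr := .node ⟨nat_lit 8, nat_lit 0x8000400040004800a000d0, nat_lit 0x10112101, nat_lit 0, nat_lit 4, nat_lit 0x47⟩ (.nil) (.nil)
def t14_10509 : Tr := .node ⟨nat_lit 5, nat_lit 0x1000100018, nat_lit 0x310, nat_lit 4, nat_lit 3, nat_lit 0x45⟩ (.nil) (.nil)
def t14_6413 : Tr := .node ⟨nat_lit 8, nat_lit 0x80008000400020, nat_lit 0x1111011, nat_lit 0, nat_lit 4, nat_lit 0x4a⟩ (.nil) (.nil)
def t14_14605 : Tr := .node ⟨nat_lit 7, nat_lit 0x40, nat_lit 0x211110, nat_lit 0, nat_lit 3, nat_lit 0x4a⟩ (.nil) (.nil)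
def t14_1293 : Tr := .node ⟨nat_lit 8, nat_lit 0x800040009000c000c8, nat_lit 0x112120, nat_lit 0, nat_lit 4, nat_lit 0x47⟩ (.nil) (.nil)
def t14_9485 : Tr := .node ⟨nat_lit 9, nat_lit 0x100008000800080009000a00140, nat_lit 0x100112010, nat_lit 3, nat_lit 4, nat_lit 0x49⟩ (.nil) (.nil)
def t14_5389 : Tr := .node ⟨nat_lit 6, nat_lit 0x20001000100030, nat_lit 0x201100, nat_lit 1, nat_lit 3, nat_lit 0x46⟩ (.nil) (.nil)
def t14_13581 : Tr := .node ⟨nat_lit 7, nat_lit 0x40001000600068, nat_lit 0x1102, nat_lit 0, nat_lit 4, nat_lit 0x45⟩ (.nil) (.nil)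
def t14_3341 : Tr := .node ⟨nat_lit 6, nat_lit 0x2000100030, nat_lit 0x103101, nat_lit 2, nat_lit 4, nat_lit 0x48⟩ (.nil) (.nil)
def t14_11533 : Tr := .node ⟨nat_lit 8, nat_lit 0x8000c000c0, nat_lit 0x1111210, nat_lit 0, nat_lit 4, nat_lit 0x4a⟩ (.nil) (.nil)
def t14_7437 : Tr := .node ⟨nat_lit 6, nat_lit 0x1000200020, nat_lit 0x111111, nat_lit 8, nat_lit 4, nat_lit 0x4a⟩ (.nil) (.nil)
def t14_781 : Tr := .node ⟨nat_lit 5, nat_lit 0x1000100008, nat_lit 0x1321, nat_lit 6, nat_lit 4, nat_lit 0x48⟩ (.nil) (.nil)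
def t14_8973 : Tr := .node ⟨nat_lit 7, nat_lit 0x40004000480044, nat_lit 0x112110, nat_lit 4, nat_lit 4, nat_lit 0x49⟩ (.nil) (.nil)
def t14_4877 : Tr := .node ⟨nat_lit 7, nat_lit 0x40001000200060, nat_lit 0x1021002, nat_lit 0, nat_lit 3, nat_lit 0x47⟩ (.nil) (.nil)
def t14_13069 : Tr := .node ⟨nat_lit 6, nat_lit 0x800280030, nat_lit 0x13, nat_lit 2, nat_lit 4, nat_lit 0x45⟩ (.nil) (.nil)
def t14_2829 : Tr := .node ⟨nat_lit 7, nat_lit 0x40004000680068, nat_lit 0x1010020, nat_lit 3, nat_lit 4, nat_lit 0x47⟩ (.nil) (.nil)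
def t14_11021 : Tr := .node ⟨nat_lit 5, nat_lit 0x1000180018, nat_lit 0x10220, nat_lit 9, nat_lit 4, nat_lit 0x47⟩ (.nil) (.nil)
def t14_6925 : Tr := .node ⟨nat_lit 6, nat_lit 0x2000080034, nat_lit 0x131111, nat_lit 1, nat_lit 4, nat_lit 0x48⟩ (.nil) (.nil)
def t14_15117 : Tr := .node ⟨nat_lit 7, nat_lit 0x10001800600060, nat_lit 0x1001111, nat_lit 1, nat_lit 4, nat_lit 0x46⟩ (.nil) (.nil)
def t14_1805 : Tr := .node ⟨nat_lit 5, nat_lit 0x100018001c, nat_lit 0x21120, nat_lit 5, nat_lit 4, nat_lit 0x47⟩ (.nil) (.nil)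
def t14_9997 : Tr := .node ⟨nat_lit 7, nat_lit 0x400020005000500060, nat_lit 0x3103, nat_lit 2, nat_lit 4, nat_lit 0x46⟩ (.nil) (.nil)
def t14_5901 : Tr := .node ⟨nat_lit 7, nat_lit 0x4000400060, nat_lit 0x111201, nat_lit 5, nat_lit 4, nat_lit 0x4a⟩ (.nil) (.nil)
def t14_14093 : Tr := .node ⟨nat_lit 6, nat_lit 0x10002000200034, nat_lit 0x102201, nat_lit 4, nat_lit 4, nat_lit 0x47⟩ (.nil) (.nil)
def t14_3853 : Tr := .node ⟨nat_lit 6, nat_lit 0x2000100024, nat_lit 0x21102, nat_lit 0, nat_lit 4, nat_lit 0x47⟩ (.nil) (.nil)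
def t14_12045 : Tr := .node ⟨nat_lit 8, nat_lit 0x8000a000c0, nat_lit 0x1111201, nat_lit 0, nat_lit 4, nat_lit 0x4a⟩ (.nil) (.nil)
def t14_7949 : Tr := .node ⟨nat_lit 7, nat_lit 0x40004800480060, nat_lit 0x121211, nat_lit 3, nat_lit 4, nat_lit 0x48⟩ (.nil) (.nil)
def t9_269 : Tr := .node ⟨nat_lit 5, nat_lit 0x18, nat_lit 0x21311, nat_lit 0, nat_lit 4, nat_lit 0x49⟩ (.node ⟨nat_lit 6, nat_lit 0x2000100024, nat_lit 0x311202, nat_lit 0, nat_lit 4, nat_lit 0x4a⟩ (.node ⟨nat_lit 7, nat_lit 0x10002000500064, nat_lit 0x1300121, nat_lit 0, nat_lit 4, nat_lit 0x48⟩ (.node ⟨nat_lit 6, nat_lit 0x10001000200022, nat_lit 0x102130, nat_lit 0, nat_lit 4, nat_lit 0x47⟩ (.node ⟨nat_lit 5, nat_lit 0x800080010, nat_lit 0x12221, nat_lit 4, nat_lit 4, nat_lit 0x49⟩ (t14_269) (t14_8461)) (.node ⟨nat_lit 7, nat_lit 0x40002000100060, nat_lit 0x102004, nat_lit 0, nat_lit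 4, nat_lit 0x48⟩ (t14_4365) (t14_12557))) (.node ⟨nat_lit 3, nat_lit 4, nat_lit 0x22, nat_lit 8, nat_lit 3, nat_lit 0x45⟩ (.node ⟨nat_lit 7, nat_lit 0x20005000600068, nat_lit 0x102032, nat_lit 2, nat_lit 4, nat_lit 0x47⟩ (t14_2317) (t14_10509)) (.node ⟨nat_lit 6, nat_lit 0x800300030, nat_lit 0x112030, nat_lit 2, nat_lit 4, nat_lit 0x48⟩ (t14_6413) (t14_14605)))) (.node ⟨nat_lit 6, nat_lit 0xc0030, nat_lit 0x112112, nat_lit 0, nat_lit 4, nat_lit 0x48⟩ (.node ⟨nat_lit 6, nat_lit 0x100020, nat_lit 0x222111, nat_lit 1, nat_lit 4, nat_lit 0x4b⟩ (.node ⟨nat_lit 6, nat_lit 0x2000240018, nat_lit 0x110100, nat_lit 1, nat_lit 4, nat_lit 0x46⟩ (t14_1293) (t14_9485)) (.node ⟨nat_lit 7, nat_lit 0x40005000600068, nat_lit 0x1101122, nat_lit 1, nat_lit 4, nat_lit 0x47⟩ (t14_5389) (t14_13581))) (.node ⟨nat_lit 6, nat_lit 0x800300030, nat_lit 0x100320, nat_lit 1,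 nat_lit 4, nat_lit 0x46⟩ (.node ⟨nat_lit 7, nat_lit 0x400040004000200020, nat_lit 0x130031, nat_lit 0, nat_lit 4, nat_lit 0x49⟩ (t14_3341) (t14_11533)) (.node ⟨nat_lit 7, nat_lit 0x4000400060, nat_lit 0x1111112, nat_lit 1, nat_lit 4, nat_lit 0x4a⟩ (t14_7437) (.nil))))) (.node ⟨nat_lit 6, nat_lit 0x2000300030, nat_lit 0x3210, nat_lit 1, nat_lit 4, nat_lit 0x47⟩ (.node ⟨nat_lit 3, nat_lit 6, nat_lit 0x220, nat_lit 3, nat_lit 3, nat_lit 0x45⟩ (.node ⟨nat_lit 5, nat_lit 0x1000100008, nat_lit 0x1112, nat_lit 2, nat_lit 4, nat_lit 0x46⟩ (.node ⟨nat_lit 6, nat_lit 0x100020, nat_lit 0x122101, nat_lit 5, nat_lit 4, nat_lit 0x4b⟩ (t14_781) (t14_8973)) (.node ⟨nat_lit 8, nat_lit 0x20002000400080, nat_lit 0x11112011, nat_lit 0, nat_lit 4, nat_lit 0x4b⟩ (t14_4877) (t14_13069))) (.node ⟨nat_lit 5, nat_lit 0x100018, nat_lit 0x1320, nat_lit 1, nat_lit 3, nat_lit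 0x46⟩ (.node ⟨nat_lit 8, nat_lit 0x8000400040009000e0, nat_lit 0x10201003, nat_lit 1, nat_lit 4, nat_lit 0x48⟩ (t14_2829) (t14_11021)) (.node ⟨nat_lit 6, nat_lit 0x2000240018, nat_lit 0x11302, nat_lit 0, nat_lit 4, nat_lit 0x47⟩ (t14_6925) (t14_15117)))) (.node ⟨nat_lit 5, nat_lit 0x1000080018, nat_lit 0x1032, nat_lit 1, nat_lit 3, nat_lit 0x45⟩ (.node ⟨nat_lit 8, nat_lit 0x8000800020008800d0, nat_lit 0x10121101, nat_lit 1, nat_lit 4, nat_lit 0x49⟩ (.node ⟨nat_lit 7, nat_lit 0x40002000480070, nat_lit 0x11013, nat_lit 2, nat_lit 4, nat_lit 0x46⟩ (t14_1805) (t14_9997)) (.node ⟨nat_lit 7, nat_lit 0x4000400040, nat_lit 0x222100, nat_lit 1, nat_lit 4, nat_lit 0x4b⟩ (t14_5901) (t14_14093))) (.node ⟨nat_lit 7, nat_lit 0x5000180060, nat_lit 0x220022, nat_lit 1, nat_lit 4, nat_lit 0x48⟩ (.node ⟨nat_lit 8, nat_lit 0x10006000c000a0, nat_lit 0x10100103, nat_lit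 0, nat_lit 4, nat_lit 0x48⟩ (t14_3853) (t14_12045)) (.node ⟨nat_lit 4, nat_lit 0x8000c, nat_lit 0x1120, nat_lit 9, nat_lit 4, nat_lit 0x47⟩ (t14_7949) (.nil)))))
def t14_141 : Tr := .node ⟨nat_lit 6, nat_lit 0x1000200030, nat_lit 0x213111, nat_lit 0, nat_lit 3, nat_lit 0x48⟩ (.nil) (.nil)
def t14_8333 : Tr := .node ⟨nat_lit 6, nat_lit 0x30000c, nat_lit 0, nat_lit 0, nat_lit 4, nat_lit 0x44⟩ (.nil) (.nil)
def t14_4237 : Tr := .node ⟨nat_lit 7, nat_lit 0x40004000100060, nat_lit 0x21120, nat_lit 3, nat_lit 4, nat_lit 0x49⟩ (.nil) (.nil)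
def t14_12429 : Tr := .node ⟨nat_lit 8, nat_lit 0x40008000c400e0, nat_lit 0x101103, nat_lit 0, nat_lit 4, nat_lit 0x47⟩ (.nil) (.nil)
def t14_2189 : Tr := .node ⟨nat_lit 7, nat_lit 0x40004000100060, nat_lit 0x12200, nat_lit 5, nat_lit 4, nat_lit 0x49⟩ (.nil) (.nil)
def t14_10381 : Tr := .node ⟨nat_lit 7, nat_lit 0x200040003000300048, nat_lit 0x112000, nat_lit 1, nat_lit 4, nat_lit 0x46⟩ (.nil) (.nil)
def t14_6285 : Tr := .node ⟨nat_lit 4, nat_lit 0x800080008, nat_lit 0x220, nat_lit 9, nat_lit 4, nat_lit 0x47⟩ (.nil) (.nil)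
def t14_14477 : Tr := .node ⟨nat_lit 6, nat_lit 0x800200030, nat_lit 0x110121, nat_lit 1, nat_lit 3, nat_lit 0x46⟩ (.nil) (.nil)
def t14_1165 : Tr := .node ⟨nat_lit 7, nat_lit 0x6000180018, nat_lit 0x1000122, nat_lit 0, nat_lit 4, nat_lit 0x46⟩ (.nil) (.nil)
def t14_9357 : Tr := .node ⟨nat_lit 7, nat_lit 0x40005000600068, nat_lit 0x1000121, nat_lit 1, nat_lit 4, nat_lit 0x46⟩ (.nil) (.nil)
def t14_5261 : Tr := .node ⟨nat_lit 5, nat_lit 0x800100018, nat_lit 0x11210, nat_lit 9, nat_lit 4, nat_lit 0x48⟩ (.nil) (.nil)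
def t14_13453 : Tr := .node ⟨nat_lit 8, nat_lit 0x8000200020009000c0, nat_lit 0x31010, nat_lit 1, nat_lit 4, nat_lit 0x48⟩ (.nil) (.nil)
def t14_3213 : Tr := .node ⟨nat_lit 8, nat_lit 0x8000800040004000a000b0, nat_lit 0x101101, nat_lit 0, nat_lit 4, nat_lit 0x46⟩ (.nil) (.nil)
def t14_11405 : Tr := .node ⟨nat_lit 8, nat_lit 0x400080008000c800c8, nat_lit 0x10110020, nat_lit 3, nat_lit 4, nat_lit 0x48⟩ (.nil) (.nil)
def t14_7309 : Tr := .node ⟨nat_lit 8, nat_lit 0x200020002000c0, nat_lit 0x20012001, nat_lit 0, nat_lit 4, nat_lit 0x4a⟩ (.nil) (.nil)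
def t14_15501 : Tr := .node ⟨nat_lit 7, nat_lit 0x20004000400060, nat_lit 0x113101, nat_lit 0, nat_lit 3, nat_lit 0x47⟩ (.nil) (.nil)
def t14_653 : Tr := .node ⟨nat_lit 6, nat_lit 0x2000100030, nat_lit 0x11313, nat_lit 1, nat_lit 4, nat_lit 0x48⟩ (.nil) (.nil)
def t14_8845 : Tr := .node ⟨nat_lit 4, nat_lit 0x8000a, nat_lit 0x121, nat_lit 7, nat_lit 4, nat_lit 0x46⟩ (.nil) (.nil)
def t14_4749 : Tr := .node ⟨nat_lit 6, nat_lit 0x20002000300038, nat_lit 0x10221, nat_lit 6, nat_lit 4, nat_lit 0x47⟩ (.nil) (.nil)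
def t14_12941 : Tr := .node ⟨nat_lit 7, nat_lit 0x40002000680070, nat_lit 0x1000001, nat_lit 1, nat_lit 4, nat_lit 0x45⟩ (.nil) (.nil)
def t14_2701 : Tr := .node ⟨nat_lit 7, nat_lit 0x10004000180060, nat_lit 0x1002110, nat_lit 0, nat_lit 4, nat_lit 0x47⟩ (.nil) (.nil)
def t14_10893 : Tr := .node ⟨nat_lit 7, nat_lit 0x400040002000480070, nat_lit 0x1310, nat_lit 2, nat_lit 4, nat_lit 0x46⟩ (.nil) (.nil)
def t14_6797 : Tr := .node ⟨nat_lit 8, nat_lit 0x200080003000c4, nat_lit 0x11000101, nat_lit 1, nat_lit 4, nat_lit 0x48⟩ (.nil) (.nil)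
def t14_14989 : Tr := .node ⟨nat_lit 7, nat_lit 0x400040005000500050, nat_lit 0x1111111, nat_lit 3, nat_lit 4, nat_lit 0x49⟩ (.nil) (.nil)
def t14_1677 : Tr := .node ⟨nat_lit 8, nat_lit 0x4000800060009000c000d0, nat_lit 0x120120, nat_lit 0, nat_lit 4, nat_lit 0x46⟩ (.nil) (.nil)
def t14_9869 : Tr := .node ⟨nat_lit 7, nat_lit 0x400040004000480050, nat_lit 0x111001, nat_lit 0xa, nat_lit 4, nat_lit 0x49⟩ (.nil) (.nil)
def t14_5773 : Tr := .node ⟨nat_lit 9, nat_lit 0x100008000800080, nat_lit 0x1110220, nat_lit 0, nat_lit 4, nat_lit 0x4c⟩ (.nil) (.nil)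
def t14_13965 : Tr := .node ⟨nat_lit 7, nat_lit 0x40001000100020, nat_lit 2, nat_lit 2, nat_lit 4, nat_lit 0x47⟩ (.nil) (.nil)
def t14_3725 : Tr := .node ⟨nat_lit 7, nat_lit 0x400020002000200050, nat_lit 0x1012100, nat_lit 3, nat_lit 4, nat_lit 0x48⟩ (.nil) (.nil)
def t14_11917 : Tr := .node ⟨nat_lit 6, nat_lit 0x2000080030, nat_lit 0x1034, nat_lit 0, nat_lit 4, nat_lit 0x47⟩ (.nil) (.nil)
def t14_7821 : Tr := .node ⟨nat_lit 7, nat_lit 0x20004000100044, nat_lit 0x203, nat_lit 5, nat_lit 4, nat_lit 0x48⟩ (.nil) (.nil)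
def t9_141 : Tr := .node ⟨nat_lit 5, nat_lit 0x18, nat_lit 0x32111, nat_lit 0, nat_lit 4, nat_lit 0x49⟩ (.node ⟨nat_lit 3, nat_lit 6, nat_lit 0x222, nat_lit 2, nat_lit 3, nat_lit 0x45⟩ (.node ⟨nat_lit 5, nat_lit 0x80010001c, nat_lit 0x3012, nat_lit 3, nat_lit 4, nat_lit 0x46⟩ (.node ⟨nat_lit 6, nat_lit 0x2000100024, nat_lit 0x112121, nat_lit 1, nat_lit 4, nat_lit 0x48⟩ (.node ⟨nat_lit 7, nat_lit 0x10006000600060, nat_lit 0x22210, nat_lit 2, nat_lit 4, nat_lit 0x47⟩ (t14_141) (t14_8333)) (.node ⟨nat_lit 8, nat_lit 0x4000400020008000e0, nat_lit 0x121003, nat_lit 1, nat_lit 4, nat_lit 0x48⟩ (t14_4237) (t14_12429))) (.node ⟨nat_lit 6, nat_lit 0x2000200020, nat_lit 0x21110, nat_lit 4, nat_lit 4, nat_lit 0x49⟩ (.node ⟨nat_lit 6, nat_lit 0x1000280034, nat_lit 0x10202, nat_lit 2, nat_lit 4, nat_lit 0x46⟩ (t14_2189) (t14_10381)) (.node ⟨nat_lit 8, nat_lit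 0x80008000400088, nat_lit 0x1210000, nat_lit 7, nat_lit 4, nat_lit 0x4b⟩ (t14_6285) (t14_14477)))) (.node ⟨nat_lit 7, nat_lit 0x40, nat_lit 0x221110, nat_lit 0, nat_lit 4, nat_lit 0x4c⟩ (.node ⟨nat_lit 5, nat_lit 0x18, nat_lit 0x21111, nat_lit 9, nat_lit 4, nat_lit 0x4a⟩ (.node ⟨nat_lit 4, nat_lit 8, nat_lit 0x4111, nat_lit 1, nat_lit 3, nat_lit 0x48⟩ (t14_1165) (t14_9357)) (.node ⟨nat_lit 7, nat_lit 0x20004000100060, nat_lit 0x1112201, nat_lit 1, nat_lit 4, nat_lit 0x49⟩ (t14_5261) (t14_13453))) (.node ⟨nat_lit 6, nat_lit 0x2000080030, nat_lit 0x21002, nat_lit 0, nat_lit 4, nat_lit 0x47⟩ (.node ⟨nat_lit 7, nat_lit 0x4000600060, nat_lit 0x121130, nat_lit 0, nat_lit 4, nat_lit 0x49⟩ (t14_3213) (t14_11405)) (.node ⟨nat_lit 5, nat_lit 0x100018, nat_lit 0x11110, nat_lit 2, nat_lit 3, nat_lit 0x46⟩ (t14_7309) (t14_15501))))) (.node ⟨nat_lit 4, nat_lit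 0xe, nat_lit 0x3212, nat_lit 5, nat_lit 4, nat_lit 0x48⟩ (.node ⟨nat_lit 6, nat_lit 0x2000080030, nat_lit 0x12032, nat_lit 0, nat_lit 4, nat_lit 0x48⟩ (.node ⟨nat_lit 6, nat_lit 0x200030, nat_lit 0x112101, nat_lit 2, nat_lit 3, nat_lit 0x48⟩ (.node ⟨nat_lit 6, nat_lit 0x2000100024, nat_lit 0x121102, nat_lit 1, nat_lit 4, nat_lit 0x48⟩ (t14_653) (t14_8845)) (.node ⟨nat_lit 7, nat_lit 0x20004000500064, nat_lit 0x1002201, nat_lit 1, nat_lit 4, nat_lit 0x47⟩ (t14_4749) (t14_12941))) (.node ⟨nat_lit 3, nat_lit 0, nat_lit 0x111, nat_lit 4, nat_lit 4, nat_lit 0x45⟩ (.node ⟨nat_lit 5, nat_lit 0x100018, nat_lit 0x320, nat_lit 3, nat_lit 3, nat_lit 0x46⟩ (t14_2701) (t14_10893)) (.node ⟨nat_lit 7, nat_lit 0x10005000500060, nat_lit 0x101103, nat_lit 0, nat_lit 4, nat_lit 0x46⟩ (t14_6797) (t14_14989)))) (.node ⟨nat_lit 7, nat_lit 0x40004000200062, nat_lit 0x211011,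 nat_lit 1, nat_lit 4, nat_lit 0x48⟩ (.node ⟨nat_lit 6, nat_lit 0x80030, nat_lit 0x201121, nat_lit 2, nat_lit 4, nat_lit 0x49⟩ (.node ⟨nat_lit 6, nat_lit 0x2000300028, nat_lit 0x11013, nat_lit 3, nat_lit 4, nat_lit 0x47⟩ (t14_1677) (t14_9869)) (.node ⟨nat_lit 8, nat_lit 0x800080008000400090, nat_lit 0x2110021, nat_lit 2, nat_lit 4, nat_lit 0x4a⟩ (t14_5773) (t14_13965))) (.node ⟨nat_lit 4, nat_lit 0, nat_lit 0x2000, nat_lit 0, nat_lit 4, nat_lit 0x44⟩ (.node ⟨nat_lit 6, nat_lit 0x800300028, nat_lit 0x1003, nat_lit 5, nat_lit 4, nat_lit 0x47⟩ (t14_3725) (t14_11917)) (.node ⟨nat_lit 7, nat_lit 0x40002000200060, nat_lit 0x110212, nat_lit 0, nat_lit 3, nat_lit 0x47⟩ (t14_7821) (.nil)))))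
def t14_397 : Tr := .node ⟨nat_lit 7, nat_lit 0x40004000200020, nat_lit 0x1121111, nat_lit 1, nat_lit 4, nat_lit 0x4a⟩ (.nil) (.nil)
def t14_8589 : Tr := .node ⟨nat_lit 7, nat_lit 0x10004000180060, nat_lit 0x1010, nat_lit 3, nat_lit 4, nat_lit 0x46⟩ (.nil) (.nil)
def t14_4493 : Tr := .node ⟨nat_lit 9, nat_lit 0x1000080004001100110, nat_lit 0x101110021, nat_lit 0, nat_lit 4, nat_lit 0x4a⟩ (.nil) (.nil)
def t14_12685 : Tr := .node ⟨nat_lit 7, nat_lit 0x20001000500068, nat_lit 0x1100020, nat_lit 3, nat_lit 4, nat_lit 0x47⟩ (.nil) (.nil)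
def t14_2445 : Tr := .node ⟨nat_lit 7, nat_lit 0x20005000600068, nat_lit 0x112102, nat_lit 1, nat_lit 4, nat_lit 0x47⟩ (.nil) (.nil)
def t14_10637 : Tr := .node ⟨nat_lit 6, nat_lit 0x800300038, nat_lit 0x21, nat_lit 2, nat_lit 4, nat_lit 0x44⟩ (.nil) (.nil)
def t14_6541 : Tr := .node ⟨nat_lit 6, nat_lit 0x200032, nat_lit 0x111021, nat_lit 0, nat_lit 4, nat_lit 0x48⟩ (.nil) (.nil)
def t14_14733 : Tr := .node ⟨nat_lit 7, nat_lit 0x10006000600050, nat_lit 0x12112, nat_lit 2, nat_lit 4, nat_lit 0x47⟩ (.nil) (.nil)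
def t14_1421 : Tr := .node ⟨nat_lit 8, nat_lit 0x80002000c000a000d0, nat_lit 0x1011301, nat_lit 0, nat_lit 4, nat_lit 0x47⟩ (.nil) (.nil)
def t14_9613 : Tr := .node ⟨nat_lit 6, nat_lit 0x20001000300034, nat_lit 0x2120, nat_lit 5, nat_lit 4, nat_lit 0x46⟩ (.nil) (.nil)
def t14_5517 : Tr := .node ⟨nat_lit 8, nat_lit 0x4000a000c0, nat_lit 0x111031, nat_lit 0, nat_lit 4, nat_lit 0x49⟩ (.nil) (.nil)
def t14_13709 : Tr := .node ⟨nat_lit 8, nat_lit 0x40002000c000a0, nat_lit 0x10210, nat_lit 1, nat_lit 4, nat_lit 0x48⟩ (.nil) (.nil)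
def t14_3469 : Tr := .node ⟨nat_lit 6, nat_lit 0x10002000380038, nat_lit 0x10210, nat_lit 3, nat_lit 4, nat_lit 0x45⟩ (.nil) (.nil)
def t14_11661 : Tr := .node ⟨nat_lit 8, nat_lit 0x80008800c000c0, nat_lit 0x113010, nat_lit 0, nat_lit 4, nat_lit 0x49⟩ (.nil) (.nil)
def t14_7565 : Tr := .node ⟨nat_lit 7, nat_lit 0x20002000100040, nat_lit 0x1013200, nat_lit 0, nat_lit 3, nat_lit 0x47⟩ (.nil) (.nil)
def t14_909 : Tr := .node ⟨nat_lit 8, nat_lit 0x2000c0003000a0, nat_lit 0x10012112, nat_lit 0, nat_lit 4, nat_lit 0x48⟩ (.nil) (.nil)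
def t14_9101 : Tr := .node ⟨nat_lit 8, nat_lit 0x80008800c000c0, nat_lit 0x1111031, nat_lit 0, nat_lit 4, nat_lit 0x49⟩ (.nil) (.nil)
def t14_5005 : Tr := .node ⟨nat_lit 4, nat_lit 0x8000c, nat_lit 0x113, nat_lit 8, nat_lit 4, nat_lit 0x46⟩ (.nil) (.nil)
def t14_13197 : Tr := .node ⟨nat_lit 7, nat_lit 0x400040002000200050, nat_lit 0x113, nat_lit 1, nat_lit 4, nat_lit 0x46⟩ (.nil) (.nil)
def t14_2957 : Tr := .node ⟨nat_lit 6, nat_lit 0x800200030, nat_lit 0x100003, nat_lit 4, nat_lit 4, nat_lit 0x47⟩ (.nil) (.nil)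
def t14_11149 : Tr := .node ⟨nat_lit 7, nat_lit 0x1000600060, nat_lit 0x1001030, nat_lit 2, nat_lit 4, nat_lit 0x48⟩ (.nil) (.nil)
def t14_7053 : Tr := .node ⟨nat_lit 6, nat_lit 0x1000200030, nat_lit 0x11111, nat_lit 5, nat_lit 4, nat_lit 0x48⟩ (.nil) (.nil)
def t14_15245 : Tr := .node ⟨nat_lit 8, nat_lit 0x8000800020002000c0, nat_lit 0x1010201, nat_lit 0, nat_lit 4, nat_lit 0x48⟩ (.nil) (.nil)
def t14_1933 : Tr := .node ⟨nat_lit 7, nat_lit 0x5000300060, nat_lit 0x2111, nat_lit 0, nat_lit 4, nat_lit 0x46⟩ (.nil) (.nil)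
def t14_10125 : Tr := .node ⟨nat_lit 6, nat_lit 0x2000300028, nat_lit 0x101, nat_lit 2, nat_lit 4, nat_lit 0x45⟩ (.nil) (.nil)
def t14_6029 : Tr := .node ⟨nat_lit 6, nat_lit 0x80030, nat_lit 0x110220, nat_lit 1, nat_lit 4, nat_lit 0x48⟩ (.nil) (.nil)
def t14_14221 : Tr := .node ⟨nat_lit 8, nat_lit 0x10001000a000c0, nat_lit 0x101120, nat_lit 0, nat_lit 4, nat_lit 0x48⟩ (.nil) (.nil)
def t14_3981 : Tr := .node ⟨nat_lit 7, nat_lit 0x40001000100060, nat_lit 0x100210, nat_lit 0, nat_lit 4, nat_lit 0x47⟩ (.nil) (.nil)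
def t14_12173 : Tr := .node ⟨nat_lit 8, nat_lit 0x40004000800080008000c8, nat_lit 0x211100, nat_lit 3, nat_lit 4, nat_lit 0x48⟩ (.nil) (.nil)
def t14_8077 : Tr := .node ⟨nat_lit 7, nat_lit 0x20004000400044, nat_lit 0x10114, nat_lit 0, nat_lit 4, nat_lit 0x48⟩ (.nil) (.nil)
def t9_397 : Tr := .node ⟨nat_lit 5, nat_lit 0x18, nat_lit 0x20321, nat_lit 3, nat_lit 4, nat_lit 0x4a⟩ (.node ⟨nat_lit 7, nat_lit 0x4000100020, nat_lit 0x113001, nat_lit 1, nat_lit 4, nat_lit 0x4a⟩ (.node ⟨nat_lit 6, nat_lit 0x280030, nat_lit 0x22102, nat_lit 1, nat_lit 4, nat_lit 0x48⟩ (.node ⟨nat_lit 6, nat_lit 0x800300030, nat_lit 0x101321, nat_lit 1, nat_lit 4, nat_lit 0x47⟩ (.node ⟨nat_lit 6, nat_lit 0x8000c0030, nat_lit 0x200121, nat_lit 1, nat_lit 4, nat_lit 0x46⟩ (t14_397) (t14_8589)) (.node ⟨nat_lit 8, nat_lit 0x800040009000a000d0, nat_lit 0x10120102, nat_lit 0, nat_lit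 4, nat_lit 0x48⟩ (t14_4493) (t14_12685))) (.node ⟨nat_lit 5, nat_lit 0x40018, nat_lit 0x20221, nat_lit 2, nat_lit 4, nat_lit 0x48⟩ (.node ⟨nat_lit 7, nat_lit 0x10004000400064, nat_lit 0x100101, nat_lit 3, nat_lit 4, nat_lit 0x47⟩ (t14_2445) (t14_10637)) (.node ⟨nat_lit 6, nat_lit 0x1000100020, nat_lit 0x2103, nat_lit 2, nat_lit 4, nat_lit 0x48⟩ (t14_6541) (t14_14733)))) (.node ⟨nat_lit 5, nat_lit 0x180014, nat_lit 0x1222, nat_lit 2, nat_lit 4, nat_lit 0x46⟩ (.node ⟨nat_lit 6, nat_lit 0x800300030, nat_lit 0x102121, nat_lit 5, nat_lit 4, nat_lit 0x48⟩ (.node ⟨nat_lit 4, nat_lit 0x40008, nat_lit 0x1021, nat_lit 4, nat_lit 4, nat_lit 0x45⟩ (t14_1421) (t14_9613)) (.node ⟨nat_lit 9, nat_lit 0x40002001000180, nat_lit 0x110020012, nat_lit 0, nat_lit 4, nat_lit 0x4b⟩ (t14_5517) (t14_13709))) (.node ⟨nat_lit 6, nat_lit 0x2000100010, nat_lit 0x12031, nat_lit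 0, nat_lit 4, nat_lit 0x49⟩ (.node ⟨nat_lit 6, nat_lit 0x300038, nat_lit 0x1210, nat_lit 0, nat_lit 4, nat_lit 0x46⟩ (t14_3469) (t14_11661)) (.node ⟨nat_lit 6, nat_lit 0x1000200030, nat_lit 0x111121, nat_lit 5, nat_lit 4, nat_lit 0x49⟩ (t14_7565) (.nil))))) (.node ⟨nat_lit 6, nat_lit 0x20, nat_lit 0x131001, nat_lit 0, nat_lit 4, nat_lit 0x4a⟩ (.node ⟨nat_lit 4, nat_lit 0xc, nat_lit 0x2021, nat_lit 3, nat_lit 4, nat_lit 0x46⟩ (.node ⟨nat_lit 6, nat_lit 0x100020, nat_lit 0x111120, nat_lit 1, nat_lit 4, nat_lit 0x49⟩ (.node ⟨nat_lit 7, nat_lit 0x60, nat_lit 0x2121110, nat_lit 0, nat_lit 4, nat_lit 0x4c⟩ (t14_909) (t14_9101)) (.node ⟨nat_lit 5, nat_lit 0x10, nat_lit 0x12210, nat_lit 9, nat_lit 4, nat_lit 0x4b⟩ (t14_5005) (t14_13197))) (.node ⟨nat_lit 7, nat_lit 0x40002000200064, nat_lit 0x110210, nat_lit 0, nat_lit 4, nat_lit 0x48⟩ (.node ⟨nat_lit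 8, nat_lit 0x4000800080008000900060, nat_lit 0x1211010, nat_lit 1, nat_lit 4, nat_lit 0x48⟩ (t14_2957) (t14_11149)) (.node ⟨nat_lit 9, nat_lit 0x20001001400180, nat_lit 0x111000022, nat_lit 0, nat_lit 4, nat_lit 0x4a⟩ (t14_7053) (t14_15245)))) (.node ⟨nat_lit 4, nat_lit 0x80004, nat_lit 0x1201, nat_lit 7, nat_lit 4, nat_lit 0x47⟩ (.node ⟨nat_lit 7, nat_lit 0x4000180060, nat_lit 0x1121011, nat_lit 1, nat_lit 4, nat_lit 0x49⟩ (.node ⟨nat_lit 7, nat_lit 0x40001000100060, nat_lit 0x1013201, nat_lit 0, nat_lit 4, nat_lit 0x49⟩ (t14_1933) (t14_10125)) (.node ⟨nat_lit 7, nat_lit 0x1800180060, nat_lit 0x2110200, nat_lit 1, nat_lit 4, nat_lit 0x48⟩ (t14_6029) (t14_14221))) (.node ⟨nat_lit 7, nat_lit 0x400020002000500060, nat_lit 0x1002002, nat_lit 2, nat_lit 4, nat_lit 0x47⟩ (.node ⟨nat_lit 6, nat_lit 0x2000080030, nat_lit 0x11030, nat_lit 0, nat_lit 4,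 nat_lit 0x47⟩ (t14_3981) (t14_12173)) (.node ⟨nat_lit 6, nat_lit 0x10002000200030, nat_lit 0x103001, nat_lit 0, nat_lit 3, nat_lit 0x45⟩ (t14_8077) (.nil)))))
def t14_77 : Tr := .node ⟨nat_lit 7, nat_lit 0x40002000480060, nat_lit 0x112121, nat_lit 1, nat_lit 4, nat_lit 0x48⟩ (.nil) (.nil)
def t14_8269 : Tr := .node ⟨nat_lit 7, nat_lit 0x40002000480060, nat_lit 0x12130, nat_lit 3, nat_lit 4, nat_lit 0x48⟩ (.nil) (.nil)
def t14_4173 : Tr := .node ⟨nat_lit 9, nat_lit 0x1000100010000800110, nat_lit 0x11111001, nat_lit 2, nat_lit 4, nat_lit 0x4b⟩ (.nil) (.nil)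
def t14_12365 : Tr := .node ⟨nat_lit 8, nat_lit 0x80004000a000c000d0, nat_lit 0x13101, nat_lit 1, nat_lit 4, nat_lit 0x47⟩ (.nil) (.nil)
def t14_2125 : Tr := .node ⟨nat_lit 6, nat_lit 0x20002000100030, nat_lit 0x12202, nat_lit 4, nat_lit 4, nat_lit 0x48⟩ (.nil) (.nil)
def t14_10317 : Tr := .node ⟨nat_lit 7, nat_lit 0x40001000600068, nat_lit 0x10022, nat_lit 2, nat_lit 4, nat_lit 0x46⟩ (.nil) (.nil)
def t14_6221 : Tr := .node ⟨nat_lit 5, nat_lit 0x18, nat_lit 0x111, nat_lit 5, nat_lit 4, nat_lit 0x47⟩ (.nil) (.nil)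
def t14_14413 : Tr := .node ⟨nat_lit 7, nat_lit 0x400060, nat_lit 0x11021, nat_lit 0, nat_lit 4, nat_lit 0x49⟩ (.nil) (.nil)
def t14_1101 : Tr := .node ⟨nat_lit 7, nat_lit 0x40001000200048, nat_lit 0x110102, nat_lit 1, nat_lit 4, nat_lit 0x47⟩ (.nil) (.nil)
def t14_9293 : Tr := .node ⟨nat_lit 4, nat_lit 0xc000c, nat_lit 0x2011, nat_lit 2, nat_lit 3, nat_lit 0x44⟩ (.nil) (.nil)
def t14_5197 : Tr := .node ⟨nat_lit 6, nat_lit 0x20002000200028, nat_lit 0x12111, nat_lit 7, nat_lit 4, nat_lit 0x49⟩ (.nil) (.nil)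
def t14_13389 : Tr := .node ⟨nat_lit 6, nat_lit 0x20002000200010, nat_lit 0x101003, nat_lit 0, nat_lit 3, nat_lit 0x46⟩ (.nil) (.nil)
def t14_3149 : Tr := .node ⟨nat_lit 6, nat_lit 0x1000200034, nat_lit 0x101000, nat_lit 0, nat_lit 4, nat_lit 0x45⟩ (.nil) (.nil)
def t14_11341 : Tr := .node ⟨nat_lit 5, nat_lit 0x100018, nat_lit 0x110, nat_lit 7, nat_lit 3, nat_lit 0x46⟩ (.nil) (.nil)
def t14_7245 : Tr := .node ⟨nat_lit 7, nat_lit 0x10001000100060, nat_lit 0x2002001, nat_lit 3, nat_lit 4, nat_lit 0x49⟩ (.nil) (.nil)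
def t14_15437 : Tr := .node ⟨nat_lit 8, nat_lit 0x8000800020009000c0, nat_lit 0x11101102, nat_lit 0, nat_lit 4, nat_lit 0x49⟩ (.nil) (.nil)
def t14_589 : Tr := .node ⟨nat_lit 6, nat_lit 0x2000300034, nat_lit 0x2122, nat_lit 2, nat_lit 4, nat_lit 0x46⟩ (.nil) (.nil)
def t14_8781 : Tr := .node ⟨nat_lit 9, nat_lit 0x8001000100004001100110, nat_lit 0x10031, nat_lit 3, nat_lit 4, nat_lit 0x49⟩ (.nil) (.nil)
def t14_4685 : Tr := .node ⟨nat_lit 7, nat_lit 0x1000500060, nat_lit 0x1001020, nat_lit 0, nat_lit 4, nat_lit 0x47⟩ (.nil) (.nil)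
def t14_12877 : Tr := .node ⟨nat_lit 7, nat_lit 0x500060, nat_lit 0x2100, nat_lit 0, nat_lit 4, nat_lit 0x48⟩ (.nil) (.nil)
def t14_2637 : Tr := .node ⟨nat_lit 7, nat_lit 0x400020005000600060, nat_lit 0x23010, nat_lit 2, nat_lit 4, nat_lit 0x47⟩ (.nil) (.nil)
def t14_10829 : Tr := .node ⟨nat_lit 7, nat_lit 0x20004000600064, nat_lit 0x1020122, nat_lit 3, nat_lit 4, nat_lit 0x48⟩ (.nil) (.nil)
def t14_6733 : Tr := .node ⟨nat_lit 7, nat_lit 0x800500060, nat_lit 0x111101, nat_lit 1, nat_lit 4, nat_lit 0x48⟩ (.nil) (.nil)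
def t14_14925 : Tr := .node ⟨nat_lit 7, nat_lit 0x200040004800480048, nat_lit 0x1001211, nat_lit 4, nat_lit 4, nat_lit 0x48⟩ (.nil) (.nil)
def t14_1613 : Tr := .node ⟨nat_lit 6, nat_lit 0x1000280030, nat_lit 0x1213, nat_lit 1, nat_lit 4, nat_lit 0x46⟩ (.nil) (.nil)
def t14_9805 : Tr := .node ⟨nat_lit 7, nat_lit 0x40002000500060, nat_lit 0x10021, nat_lit 0, nat_lit 3, nat_lit 0x45⟩ (.nil) (.nil)
def t14_5709 : Tr := .node ⟨nat_lit 8, nat_lit 0x20003000a000c000c0, nat_lit 0x111220, nat_lit 1, nat_lit 4, nat_lit 0x47⟩ (.nil) (.nil)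
def t14_13901 : Tr := .node ⟨nat_lit 7, nat_lit 0x200040004000300048, nat_lit 0x33010, nat_lit 0, nat_lit 4, nat_lit 0x47⟩ (.nil) (.nil)
def t14_3661 : Tr := .node ⟨nat_lit 7, nat_lit 0x20002000600050, nat_lit 0x12121, nat_lit 0, nat_lit 4, nat_lit 0x47⟩ (.nil) (.nil)
def t14_11853 : Tr := .node ⟨nat_lit 7, nat_lit 0x20004000100068, nat_lit 0x101031, nat_lit 0, nat_lit 4, nat_lit 0x47⟩ (.nil) (.nil)
def t14_7757 : Tr := .node ⟨nat_lit 6, nat_lit 0x2000200010, nat_lit 0x211102, nat_lit 1, nat_lit 3, nat_lit 0x48⟩ (.nil) (.nil)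
def t9_77 : Tr := .node ⟨nat_lit 2, nat_lit 0, nat_lit 0x11, nat_lit 7, nat_lit 3, nat_lit 0x44⟩ (.node ⟨nat_lit 6, nat_lit 0x20, nat_lit 0x32220, nat_lit 1, nat_lit 4, nat_lit 0x4c⟩ (.node ⟨nat_lit 7, nat_lit 0x4000600060, nat_lit 0x31220, nat_lit 0, nat_lit 4, nat_lit 0x49⟩ (.node ⟨nat_lit 6, nat_lit 0x1000200020, nat_lit 0x112100, nat_lit 1, nat_lit 4, nat_lit 0x48⟩ (.node ⟨nat_lit 5, nat_lit 0x10, nat_lit 0x21113, nat_lit 7, nat_lit 4, nat_lit 0x4b⟩ (t14_77) (t14_8269)) (.node ⟨nat_lit 6, nat_lit 0x20002000100030, nat_lit 0x12003, nat_lit 6, nat_lit 4, nat_lit 0x48⟩ (t14_4173) (t14_12365))) (.node ⟨nat_lit 5, nat_lit 0x140018, nat_lit 0x22122, nat_lit 2, nat_lit 4, nat_lit 0x48⟩ (.node ⟨nat_lit 4, nat_lit 0x8000c, nat_lit 0x1014, nat_lit 5, nat_lit 4, nat_lit 0x46⟩ (t14_2125) (t14_10317)) (.node ⟨nat_lit 8, nat_lit 0x8000400040004000a000d0,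 nat_lit 0x10212100, nat_lit 0, nat_lit 4, nat_lit 0x48⟩ (t14_6221) (t14_14413)))) (.node ⟨nat_lit 4, nat_lit 0x40008, nat_lit 0x2032, nat_lit 5, nat_lit 4, nat_lit 0x47⟩ (.node ⟨nat_lit 7, nat_lit 0x4000100060, nat_lit 0x2021111, nat_lit 0, nat_lit 4, nat_lit 0x4a⟩ (.node ⟨nat_lit 7, nat_lit 0x40003000500060, nat_lit 0x101311, nat_lit 0, nat_lit 4, nat_lit 0x46⟩ (t14_1101) (t14_9293)) (.node ⟨nat_lit 7, nat_lit 0x40002000500068, nat_lit 0x12011, nat_lit 0, nat_lit 4, nat_lit 0x46⟩ (t14_5197) (t14_13389))) (.node ⟨nat_lit 6, nat_lit 0x280030, nat_lit 0x21101, nat_lit 0, nat_lit 4, nat_lit 0x47⟩ (.node ⟨nat_lit 6, nat_lit 0x2000240030, nat_lit 0x102000, nat_lit 3, nat_lit 4, nat_lit 0x47⟩ (t14_3149) (t14_11341)) (.node ⟨nat_lit 6, nat_lit 0x8000c0030, nat_lit 0x111121, nat_lit 1, nat_lit 4, nat_lit 0x47⟩ (t14_7245) (t14_15437))))) (.node ⟨nat_lit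 4, nat_lit 0x80004, nat_lit 0x302, nat_lit 0xb, nat_lit 4, nat_lit 0x49⟩ (.node ⟨nat_lit 6, nat_lit 0x2000080030, nat_lit 0x2020, nat_lit 1, nat_lit 4, nat_lit 0x47⟩ (.node ⟨nat_lit 5, nat_lit 0x140018, nat_lit 0x11221, nat_lit 2, nat_lit 4, nat_lit 0x47⟩ (.node ⟨nat_lit 4, nat_lit 0x80008, nat_lit 0x2120, nat_lit 0xb, nat_lit 4, nat_lit 0x49⟩ (t14_589) (t14_8781)) (.node ⟨nat_lit 6, nat_lit 0x200030, nat_lit 0x111102, nat_lit 3, nat_lit 4, nat_lit 0x49⟩ (t14_4685) (t14_12877))) (.node ⟨nat_lit 6, nat_lit 0x800080030, nat_lit 0x100112, nat_lit 0, nat_lit 4, nat_lit 0x46⟩ (.node ⟨nat_lit 6, nat_lit 0x2000240038, nat_lit 0x121103, nat_lit 3, nat_lit 4, nat_lit 0x48⟩ (t14_2637) (t14_10829)) (.node ⟨nat_lit 7, nat_lit 0x40002000480060, nat_lit 0x1112112, nat_lit 0, nat_lit 4, nat_lit 0x49⟩ (t14_6733) (t14_14925)))) (.node ⟨nat_lit 5, nat_lit 0x40018,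 nat_lit 0x11210, nat_lit 5, nat_lit 4, nat_lit 0x48⟩ (.node ⟨nat_lit 7, nat_lit 0x1000080060, nat_lit 0x3002011, nat_lit 1, nat_lit 4, nat_lit 0x4a⟩ (.node ⟨nat_lit 6, nat_lit 0x300028, nat_lit 0x101, nat_lit 3, nat_lit 4, nat_lit 0x46⟩ (t14_1613) (t14_9805)) (.node ⟨nat_lit 7, nat_lit 0x20004000680068, nat_lit 0x1220111, nat_lit 1, nat_lit 4, nat_lit 0x48⟩ (t14_5709) (t14_13901))) (.node ⟨nat_lit 7, nat_lit 0x4000440030, nat_lit 0x2201002, nat_lit 0, nat_lit 4, nat_lit 0x49⟩ (.node ⟨nat_lit 6, nat_lit 0x800300038, nat_lit 0x101103, nat_lit 2, nat_lit 4, nat_lit 0x46⟩ (t14_3661) (t14_11853)) (.node ⟨nat_lit 6, nat_lit 0x2000080030, nat_lit 0x11112, nat_lit 2, nat_lit 4, nat_lit 0x47⟩ (t14_7757) (.nil)))))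
def t14_333 : Tr := .node ⟨nat_lit 6, nat_lit 0x2000200030, nat_lit 0x102211, nat_lit 3, nat_lit 4, nat_lit 0x49⟩ (.nil) (.nil)
def t14_8525 : Tr := .node ⟨nat_lit 7, nat_lit 0x40004000480048, nat_lit 0x111131, nat_lit 4, nat_lit 4, nat_lit 0x49⟩ (.nil) (.nil)
def t14_4429 : Tr := .node ⟨nat_lit 8, nat_lit 0x4000400080008000880060, nat_lit 0x11102110, nat_lit 0, nat_lit 4, nat_lit 0x49⟩ (.nil) (.nil)
def t14_12621 : Tr := .node ⟨nat_lit 8, nat_lit 0x2000c0009000e0, nat_lit 0x101103, nat_lit 1, nat_lit 4, nat_lit 0x47⟩ (.nil) (.nil)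
def t14_2381 : Tr := .node ⟨nat_lit 6, nat_lit 0x20001000100010, nat_lit 0x201310, nat_lit 2, nat_lit 3, nat_lit 0x47⟩ (.nil) (.nil)
def t14_10573 : Tr := .node ⟨nat_lit 8, nat_lit 0x9000a000c00030, nat_lit 0x1000210, nat_lit 0, nat_lit 4, nat_lit 0x46⟩ (.nil) (.nil)
def t14_6477 : Tr := .node ⟨nat_lit 5, nat_lit 0x40018, nat_lit 0x11110, nat_lit 7, nat_lit 4, nat_lit 0x48⟩ (.nil) (.nil)
def t14_14669 : Tr := .node ⟨nat_lit 5, nat_lit 0x140018, nat_lit 0x1111, nat_lit 4, nat_lit 3, nat_lit 0x45⟩ (.nil) (.nil)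
def t14_1357 : Tr := .node ⟨nat_lit 7, nat_lit 0x40002000600060, nat_lit 0x23010, nat_lit 0, nat_lit 3, nat_lit 0x46⟩ (.nil) (.nil)
def t14_9549 : Tr := .node ⟨nat_lit 9, nat_lit 0x100010001000080008001200140, nat_lit 0x1101001, nat_lit 5, nat_lit 4, nat_lit 0x49⟩ (.nil) (.nil)
def t14_5453 : Tr := .node ⟨nat_lit 5, nat_lit 0x80010, nat_lit 0x223, nat_lit 1, nat_lit 4, nat_lit 0x47⟩ (.nil) (.nil)
def t14_13645 : Tr := .node ⟨nat_lit 7, nat_lit 0x40001000600068, nat_lit 0x120, nat_lit 0, nat_lit 4, nat_lit 0x45⟩ (.nil) (.nil)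
def t14_3405 : Tr := .node ⟨nat_lit 7, nat_lit 0x20004000100060, nat_lit 0x21001, nat_lit 0, nat_lit 4, nat_lit 0x47⟩ (.nil) (.nil)
def t14_11597 : Tr := .node ⟨nat_lit 7, nat_lit 0x10006000600060, nat_lit 0x310, nat_lit 1, nat_lit 4, nat_lit 0x46⟩ (.nil) (.nil)
def t14_7501 : Tr := .node ⟨nat_lit 9, nat_lit 0x10001000080008000400040, nat_lit 0x1101011, nat_lit 3, nat_lit 4, nat_lit 0x4a⟩ (.nil) (.nil)
def t14_845 : Tr := .node ⟨nat_lit 7, nat_lit 0x20004000100044, nat_lit 0x10212, nat_lit 3, nat_lit 4, nat_lit 0x48⟩ (.nil) (.nil)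
def t14_9037 : Tr := .node ⟨nat_lit 8, nat_lit 0x8000800040009000a000c0, nat_lit 0x110011, nat_lit 7, nat_lit 4, nat_lit 0x48⟩ (.nil) (.nil)
def t14_4941 : Tr := .node ⟨nat_lit 8, nat_lit 0x800020002000c000e0, nat_lit 0x1001013, nat_lit 1, nat_lit 4, nat_lit 0x47⟩ (.nil) (.nil)
def t14_13133 : Tr := .node ⟨nat_lit 6, nat_lit 0x20001000280034, nat_lit 0x2200, nat_lit 5, nat_lit 4, nat_lit 0x46⟩ (.nil) (.nil)
def t14_2893 : Tr := .node ⟨nat_lit 7, nat_lit 0x20006000500068, nat_lit 0x211210, nat_lit 0, nat_lit 4, nat_lit 0x47⟩ (.nil) (.nil)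
def t14_11085 : Tr := .node ⟨nat_lit 5, nat_lit 0x1800180018, nat_lit 0x220, nat_lit 7, nat_lit 4, nat_lit 0x45⟩ (.nil) (.nil)
def t14_6989 : Tr := .node ⟨nat_lit 5, nat_lit 0x1000180018, nat_lit 0x10211, nat_lit 9, nat_lit 4, nat_lit 0x47⟩ (.nil) (.nil)
def t14_15181 : Tr := .node ⟨nat_lit 8, nat_lit 0x2000800040004000c0, nat_lit 0x10001201, nat_lit 1, nat_lit 3, nat_lit 0x47⟩ (.nil) (.nil)
def t14_1869 : Tr := .node ⟨nat_lit 5, nat_lit 0x40018, nat_lit 0x20001, nat_lit 4, nat_lit 4, nat_lit 0x46⟩ (.nil) (.nil)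
def t14_10061 : Tr := .node ⟨nat_lit 7, nat_lit 0x1000500060, nat_lit 0x1001002, nat_lit 0, nat_lit 4, nat_lit 0x47⟩ (.nil) (.nil)
def t14_5965 : Tr := .node ⟨nat_lit 8, nat_lit 0x8000c000c800c8, nat_lit 0x10111211, nat_lit 0, nat_lit 4, nat_lit 0x48⟩ (.nil) (.nil)
def t14_14157 : Tr := .node ⟨nat_lit 7, nat_lit 0x10002000500060, nat_lit 0x1001022, nat_lit 2, nat_lit 4, nat_lit 0x47⟩ (.nil) (.nil)
def t14_3917 : Tr := .node ⟨nat_lit 8, nat_lit 0x800040009000a000d0, nat_lit 0x10102010, nat_lit 0, nat_lit 4, nat_lit 0x47⟩ (.nil) (.nil)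
def t14_12109 : Tr := .node ⟨nat_lit 8, nat_lit 0xc000c000a0, nat_lit 0x211210, nat_lit 0, nat_lit 4, nat_lit 0x49⟩ (.nil) (.nil)
def t14_8013 : Tr := .node ⟨nat_lit 6, nat_lit 0x2000100024, nat_lit 0x1104, nat_lit 2, nat_lit 4, nat_lit 0x47⟩ (.nil) (.nil)
def t9_333 : Tr := .node ⟨nat_lit 6, nat_lit 0x200030, nat_lit 0x13110, nat_lit 1, nat_lit 4, nat_lit 0x48⟩ (.node ⟨nat_lit 5, nat_lit 0x1c, nat_lit 0x32112, nat_lit 0, nat_lit 4, nat_lit 0x49⟩ (.node ⟨nat_lit 3, nat_lit 4, nat_lit 0x222, nat_lit 0xb, nat_lit 4, nat_lit 0x48⟩ (.node ⟨nat_lit 6, nat_lit 0x200030, nat_lit 0x111122, nat_lit 1, nat_lit 4, nat_lit 0x49⟩ (.node ⟨nat_lit 7, nat_lit 0x4000400020, nat_lit 0x1221001, nat_lit 1, nat_lit 4, nat_lit 0x4b⟩ (t14_333) (t14_8525)) (.node ⟨nat_lit 6, nat_lit 0x1000200020, nat_lit 0x102100, nat_lit 0, nat_lit 4, nat_lit 0x47⟩ (t14_4429) (t14_12621)))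 (.node ⟨nat_lit 6, nat_lit 0x1000280030, nat_lit 0x1021, nat_lit 0, nat_lit 3, nat_lit 0x44⟩ (.node ⟨nat_lit 8, nat_lit 0x8000800040009000e0, nat_lit 0x1110203, nat_lit 1, nat_lit 4, nat_lit 0x48⟩ (t14_2381) (t14_10573)) (.node ⟨nat_lit 6, nat_lit 0x2000300034, nat_lit 0x102120, nat_lit 3, nat_lit 4, nat_lit 0x47⟩ (t14_6477) (t14_14669)))) (.node ⟨nat_lit 5, nat_lit 0x18001c, nat_lit 0x10222, nat_lit 4, nat_lit 4, nat_lit 0x46⟩ (.node ⟨nat_lit 4, nat_lit 8, nat_lit 0x2222, nat_lit 8, nat_lit 4, nat_lit 0x4a⟩ (.node ⟨nat_lit 8, nat_lit 0x4000800060009000e000d0, nat_lit 0x10010031, nat_lit 0, nat_lit 4, nat_lit 0x45⟩ (t14_1357) (t14_9549)) (.node ⟨nat_lit 8, nat_lit 0x20008000c0, nat_lit 0x2021002, nat_lit 0, nat_lit 4, nat_lit 0x4b⟩ (t14_5453) (t14_13645))) (.node ⟨nat_lit 6, nat_lit 0x800080030, nat_lit 0x310102, nat_lit 4, nat_lit 4, nat_lit 0x49⟩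 (.node ⟨nat_lit 6, nat_lit 0x300038, nat_lit 0x1213, nat_lit 0, nat_lit 4, nat_lit 0x46⟩ (t14_3405) (t14_11597)) (.node ⟨nat_lit 8, nat_lit 0x800040004000a000d000d0, nat_lit 0x1102010, nat_lit 0, nat_lit 4, nat_lit 0x46⟩ (t14_7501) (.nil))))) (.node ⟨nat_lit 7, nat_lit 0x40004000200020, nat_lit 0x31010, nat_lit 3, nat_lit 4, nat_lit 0x49⟩ (.node ⟨nat_lit 6, nat_lit 0x2000080034, nat_lit 0x221111, nat_lit 0, nat_lit 4, nat_lit 0x48⟩ (.node ⟨nat_lit 5, nat_lit 0x10001a, nat_lit 0x11121, nat_lit 3, nat_lit 4, nat_lit 0x47⟩ (.node ⟨nat_lit 6, nat_lit 0x2000100030, nat_lit 0x1012, nat_lit 1, nat_lit 3, nat_lit 0x45⟩ (t14_845) (t14_9037)) (.node ⟨nat_lit 5, nat_lit 0x10, nat_lit 0x12223, nat_lit 0, nat_lit 4, nat_lit 0x4a⟩ (t14_4941) (t14_13133))) (.node ⟨nat_lit 6, nat_lit 0x2000300030, nat_lit 0x11210, nat_lit 0, nat_lit 3, nat_lit 0x45⟩ (.node ⟨nat_lit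 7, nat_lit 0x4000440044, nat_lit 0x1111211, nat_lit 0, nat_lit 4, nat_lit 0x4a⟩ (t14_2893) (t14_11085)) (.node ⟨nat_lit 5, nat_lit 0x1000080014, nat_lit 0x11112, nat_lit 2, nat_lit 4, nat_lit 0x46⟩ (t14_6989) (t14_15181)))) (.node ⟨nat_lit 5, nat_lit 0x18, nat_lit 0x21110, nat_lit 2, nat_lit 4, nat_lit 0x48⟩ (.node ⟨nat_lit 7, nat_lit 0x2000400060, nat_lit 0x211211, nat_lit 0, nat_lit 4, nat_lit 0x4a⟩ (.node ⟨nat_lit 7, nat_lit 0x40001000600068, nat_lit 0x1110131, nat_lit 2, nat_lit 4, nat_lit 0x48⟩ (t14_1869) (t14_10061)) (.node ⟨nat_lit 7, nat_lit 0x200020004000440070, nat_lit 0x2002100, nat_lit 1, nat_lit 4, nat_lit 0x47⟩ (t14_5965) (t14_14157))) (.node ⟨nat_lit 5, nat_lit 0x800080010, nat_lit 0x10220, nat_lit 4, nat_lit 4, nat_lit 0x47⟩ (.node ⟨nat_lit 7, nat_lit 0x20002000500060, nat_lit 0x1010030, nat_lit 0, nat_lit 4, nat_lit 0x47⟩ (t14_3917)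 (t14_12109)) (.node ⟨nat_lit 6, nat_lit 0x40038, nat_lit 0x210012, nat_lit 0, nat_lit 4, nat_lit 0x47⟩ (t14_8013) (.nil)))))
def t14_205 : Tr := .node ⟨nat_lit 6, nat_lit 0x800200030, nat_lit 0x102011, nat_lit 0, nat_lit 4, nat_lit 0x47⟩ (.nil) (.nil)
def t14_8397 : Tr := .node ⟨nat_lit 6, nat_lit 0x200020002800280030, nat_lit 0x11310, nat_lit 8, nat_lit 4, nat_lit 0x47⟩ (.nil) (.nil)
def t14_4301 : Tr := .node ⟨nat_lit 0xa, nat_lit 0x1000100020002000200022001800140, nat_lit 0x110110010, nat_lit 1, nat_lit 4, nat_lit 0x49⟩ (.nil) (.nil)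
def t14_12493 : Tr := .node ⟨nat_lit 8, nat_lit 0x400080008000c0, nat_lit 0x111003, nat_lit 0, nat_lit 4, nat_lit 0x49⟩ (.nil) (.nil)
def t14_2253 : Tr := .node ⟨nat_lit 6, nat_lit 0x20001000100028, nat_lit 0x11220, nat_lit 1, nat_lit 4, nat_lit 0x47⟩ (.nil) (.nil)
def t14_10445 : Tr := .node ⟨nat_lit 7, nat_lit 0x40002000480060, nat_lit 0x21200, nat_lit 0, nat_lit 4, nat_lit 0x47⟩ (.nil) (.nil)
def t14_6349 : Tr := .node ⟨nat_lit 8, nat_lit 0x800040002000a000c8, nat_lit 0x1010020, nat_lit 1, nat_lit 4, nat_lit 0x47⟩ (.nil) (.nil)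
def t14_14541 : Tr := .node ⟨nat_lit 7, nat_lit 0x10001000600060, nat_lit 0x2001120, nat_lit 0, nat_lit 3, nat_lit 0x46⟩ (.nil) (.nil)
def t14_1229 : Tr := .node ⟨nat_lit 5, nat_lit 0x800100010, nat_lit 0x31310, nat_lit 0, nat_lit 3, nat_lit 0x47⟩ (.nil) (.nil)
def t14_9421 : Tr := .node ⟨nat_lit 8, nat_lit 0x4000800090006000c000d0, nat_lit 0x10110121, nat_lit 3, nat_lit 4, nat_lit 0x47⟩ (.nil) (.nil)
def t14_5325 : Tr := .node ⟨nat_lit 6, nat_lit 0x800300030, nat_lit 0x111040, nat_lit 1, nat_lit 4, nat_lit 0x48⟩ (.nil) (.nil)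
def t14_13517 : Tr := .node ⟨nat_lit 5, nat_lit 0x1000080008, nat_lit 0x10000, nat_lit 6, nat_lit 4, nat_lit 0x46⟩ (.nil) (.nil)
def t14_3277 : Tr := .node ⟨nat_lit 8, nat_lit 0x40004000800060008800e0, nat_lit 0x102010, nat_lit 1, nat_lit 4, nat_lit 0x46⟩ (.nil) (.nil)
def t14_11469 : Tr := .node ⟨nat_lit 6, nat_lit 0x20001000300038, nat_lit 0x101110, nat_lit 4, nat_lit 4, nat_lit 0x46⟩ (.nil) (.nil)
def t14_7373 : Tr := .node ⟨nat_lit 6, nat_lit 0x1000200020, nat_lit 0x113200, nat_lit 1, nat_lit 4, nat_lit 0x49⟩ (.nil) (.nil)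
def t14_15565 : Tr := .node ⟨nat_lit 7, nat_lit 0x400040, nat_lit 0x111110, nat_lit 9, nat_lit 4, nat_lit 0x4c⟩ (.nil) (.nil)
def t14_717 : Tr := .node ⟨nat_lit 6, nat_lit 0x200030, nat_lit 0x2141, nat_lit 1, nat_lit 4, nat_lit 0x49⟩ (.nil) (.nil)
def t14_8909 : Tr := .node ⟨nat_lit 6, nat_lit 0x10002000340034, nat_lit 0x101030, nat_lit 4, nat_lit 4, nat_lit 0x45⟩ (.nil) (.nil)
def t14_4813 : Tr := .node ⟨nat_lit 8, nat_lit 0x20008000c000c4, nat_lit 0x10020120, nat_lit 2, nat_lit 4, nat_lit 0x49⟩ (.nil) (.nil)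
def t14_13005 : Tr := .node ⟨nat_lit 7, nat_lit 0x20004000400064, nat_lit 0x14000, nat_lit 1, nat_lit 4, nat_lit 0x48⟩ (.nil) (.nil)
def t14_2765 : Tr := .node ⟨nat_lit 7, nat_lit 0x20004000440030, nat_lit 0x1012111, nat_lit 0, nat_lit 4, nat_lit 0x47⟩ (.nil) (.nil)
def t14_10957 : Tr := .node ⟨nat_lit 9, nat_lit 0x8000800100010000c001100180, nat_lit 0x1020002, nat_lit 1, nat_lit 4, nat_lit 0x48⟩ (.nil) (.nil)
def t14_6861 : Tr := .node ⟨nat_lit 7, nat_lit 0x4000440064, nat_lit 0x111210, nat_lit 0, nat_lit 4, nat_lit 0x48⟩ (.nil) (.nil)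
def t14_15053 : Tr := .node ⟨nat_lit 7, nat_lit 0x1000500060, nat_lit 0x1011112, nat_lit 0, nat_lit 4, nat_lit 0x48⟩ (.nil) (.nil)
def t14_1741 : Tr := .node ⟨nat_lit 8, nat_lit 0x80004000a000d000e000e0, nat_lit 0x10121110, nat_lit 1, nat_lit 4, nat_lit 0x46⟩ (.nil) (.nil)
def t14_9933 : Tr := .node ⟨nat_lit 7, nat_lit 0x6000700070, nat_lit 0x11033, nat_lit 0, nat_lit 4, nat_lit 0x46⟩ (.nil) (.nil)
def t14_5837 : Tr := .node ⟨nat_lit 7, nat_lit 0x200040, nat_lit 0x1011020, nat_lit 1, nat_lit 4, nat_lit 0x4a⟩ (.nil) (.nil)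
def t14_14029 : Tr := .node ⟨nat_lit 7, nat_lit 0x1000500060, nat_lit 0x101201, nat_lit 3, nat_lit 4, nat_lit 0x48⟩ (.nil) (.nil)
def t14_3789 : Tr := .node ⟨nat_lit 9, nat_lit 0x100010000800080008001400120, nat_lit 0x101021000, nat_lit 2, nat_lit 4, nat_lit 0x49⟩ (.nil) (.nil)
def t14_11981 : Tr := .node ⟨nat_lit 9, nat_lit 0x400100010000200180, nat_lit 0x10002200, nat_lit 1, nat_lit 4, nat_lit 0x4a⟩ (.nil) (.nil)
def t14_7885 : Tr := .node ⟨nat_lit 7, nat_lit 0x40004800300030, nat_lit 0x1121, nat_lit 0, nat_lit 4, nat_lit 0x45⟩ (.nil) (.nil)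
def t9_205 : Tr := .node ⟨nat_lit 5, nat_lit 0x10, nat_lit 0x3210, nat_lit 5, nat_lit 4, nat_lit 0x4a⟩ (.node ⟨nat_lit 6, nat_lit 0x1000200034, nat_lit 0x131121, nat_lit 1, nat_lit 4, nat_lit 0x49⟩ (.node ⟨nat_lit 8, nat_lit 0x400080008000800088, nat_lit 0x301101, nat_lit 3, nat_lit 4, nat_lit 0x4a⟩ (.node ⟨nat_lit 6, nat_lit 0x2000200010, nat_lit 0x12104, nat_lit 0, nat_lit 4, nat_lit 0x49⟩ (.node ⟨nat_lit 6, nat_lit 0x2000080030, nat_lit 0x2221, nat_lit 3, nat_lit 4, nat_lit 0x48⟩ (t14_205) (t14_8397)) (.node ⟨nat_lit 7, nat_lit 0x40002000480068, nat_lit 0x110023, nat_lit 1, nat_lit 4, nat_lit 0x46⟩ (t14_4301) (t14_12493))) (.node ⟨nat_lit 6, nat_lit 0x200022, nat_lit 0x221131, nat_lit 0, nat_lit 4, nat_lit 0x4b⟩ (.node ⟨nat_lit 5, nat_lit 0x1000080018, nat_lit 0x1214, nat_lit 4, nat_lit 4, nat_lit 0x47⟩ (t14_2253) (t14_10445)) (.node ⟨nat_lit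 7, nat_lit 0x4000400060, nat_lit 0x121102, nat_lit 4, nat_lit 4, nat_lit 0x4a⟩ (t14_6349) (t14_14541)))) (.node ⟨nat_lit 6, nat_lit 0x100020, nat_lit 0x112111, nat_lit 0, nat_lit 4, nat_lit 0x49⟩ (.node ⟨nat_lit 7, nat_lit 0x10001000100060, nat_lit 0x2102111, nat_lit 0, nat_lit 4, nat_lit 0x49⟩ (.node ⟨nat_lit 4, nat_lit 0xc, nat_lit 0x10, nat_lit 3, nat_lit 3, nat_lit 0x44⟩ (t14_1229) (t14_9421)) (.node ⟨nat_lit 8, nat_lit 0x200040004000a000c0, nat_lit 0x122011, nat_lit 1, nat_lit 4, nat_lit 0x48⟩ (t14_5325) (t14_13517))) (.node ⟨nat_lit 7, nat_lit 0x20002000400040, nat_lit 0x112020, nat_lit 1, nat_lit 4, nat_lit 0x49⟩ (.node ⟨nat_lit 7, nat_lit 0x20001000600050, nat_lit 0x1111013, nat_lit 0, nat_lit 4, nat_lit 0x48⟩ (t14_3277) (t14_11469)) (.node ⟨nat_lit 6, nat_lit 0x20002c0034, nat_lit 0x110112, nat_lit 3, nat_lit 4, nat_lit 0x46⟩ (t14_7373)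 (t14_15565))))) (.node ⟨nat_lit 6, nat_lit 0x80030, nat_lit 0x100301, nat_lit 5, nat_lit 4, nat_lit 0x49⟩ (.node ⟨nat_lit 4, nat_lit 0, nat_lit 0x2111, nat_lit 2, nat_lit 4, nat_lit 0x47⟩ (.node ⟨nat_lit 6, nat_lit 0x1000100020, nat_lit 0x112111, nat_lit 2, nat_lit 4, nat_lit 0x49⟩ (.node ⟨nat_lit 7, nat_lit 0x10004000400064, nat_lit 0x1211120, nat_lit 0, nat_lit 4, nat_lit 0x49⟩ (t14_717) (t14_8909)) (.node ⟨nat_lit 6, nat_lit 0x2000200020, nat_lit 0x121220, nat_lit 0, nat_lit 3, nat_lit 0x48⟩ (t14_4813) (t14_13005))) (.node ⟨nat_lit 7, nat_lit 0x5000300060, nat_lit 0x111120, nat_lit 0, nat_lit 4, nat_lit 0x47⟩ (.node ⟨nat_lit 7, nat_lit 0x4000600064, nat_lit 0x1111230, nat_lit 0, nat_lit 4, nat_lit 0x49⟩ (t14_2765) (t14_10957)) (.node ⟨nat_lit 7, nat_lit 0x40006000580068, nat_lit 0x1110202, nat_lit 2, nat_lit 4, nat_lit 0x47⟩ (t14_6861) (t14_15053))))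 (.node ⟨nat_lit 4, nat_lit 0xc000c, nat_lit 0x1122, nat_lit 7, nat_lit 4, nat_lit 0x46⟩ (.node ⟨nat_lit 6, nat_lit 0x2000240018, nat_lit 0x110101, nat_lit 1, nat_lit 4, nat_lit 0x46⟩ (.node ⟨nat_lit 8, nat_lit 0x10008000c000a0, nat_lit 0x100013, nat_lit 1, nat_lit 4, nat_lit 0x48⟩ (t14_1741) (t14_9933)) (.node ⟨nat_lit 6, nat_lit 0x20002000200010, nat_lit 0x103200, nat_lit 0, nat_lit 3, nat_lit 0x47⟩ (t14_5837) (t14_14029))) (.node ⟨nat_lit 7, nat_lit 0x20002000400068, nat_lit 0x22202, nat_lit 0, nat_lit 4, nat_lit 0x48⟩ (.node ⟨nat_lit 6, nat_lit 0x2000240018, nat_lit 0x10001, nat_lit 2, nat_lit 4, nat_lit 0x45⟩ (t14_3789) (t14_11981)) (.node ⟨nat_lit 8, nat_lit 0x2000c000c0, nat_lit 0x10111021, nat_lit 1, nat_lit 4, nat_lit 0x4a⟩ (t14_7885) (.nil)))))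
def t14_461 : Tr := .node ⟨nat_lit 7, nat_lit 0x40002000600068, nat_lit 0x1111120, nat_lit 1, nat_lit 4, nat_lit 0x48⟩ (.nil) (.nil)
def t14_8653 : Tr := .node ⟨nat_lit 6, nat_lit 0x20001000100028, nat_lit 2, nat_lit 1, nat_lit 4, nat_lit 0x44⟩ (.nil) (.nil)
def t14_4557 : Tr := .node ⟨nat_lit 6, nat_lit 0x800300030, nat_lit 0x201221, nat_lit 0, nat_lit 3, nat_lit 0x46⟩ (.nil) (.nil)
def t14_12749 : Tr := .node ⟨nat_lit 7, nat_lit 0x40001000480060, nat_lit 0x113100, nat_lit 0, nat_lit 4, nat_lit 0x48⟩ (.nil) (.nil)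
def t14_2509 : Tr := .node ⟨nat_lit 5, nat_lit 0x100018, nat_lit 0x1320, nat_lit 4, nat_lit 4, nat_lit 0x48⟩ (.nil) (.nil)
def t14_10701 : Tr := .node ⟨nat_lit 7, nat_lit 0x800600050, nat_lit 0x1011022, nat_lit 0, nat_lit 4, nat_lit 0x48⟩ (.nil) (.nil)
def t14_6605 : Tr := .node ⟨nat_lit 6, nat_lit 0x800300030, nat_lit 0x102030, nat_lit 2, nat_lit 4, nat_lit 0x47⟩ (.nil) (.nil)
def t14_14797 : Tr := .node ⟨nat_lit 8, nat_lit 0x4000400040008000800080, nat_lit 0x211110, nat_lit 2, nat_lit 4, nat_lit 0x49⟩ (.nil) (.nil)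
def t14_1485 : Tr := .node ⟨nat_lit 7, nat_lit 0x1000600060, nat_lit 0x1011211, nat_lit 0, nat_lit 4, nat_lit 0x48⟩ (.nil) (.nil)
def t14_9677 : Tr := .node ⟨nat_lit 7, nat_lit 0x40004000200068, nat_lit 0x10210, nat_lit 1, nat_lit 4, nat_lit 0x47⟩ (.nil) (.nil)
def t14_5581 : Tr := .node ⟨nat_lit 6, nat_lit 0x2000300030, nat_lit 0x11220, nat_lit 5, nat_lit 4, nat_lit 0x48⟩ (.nil) (.nil)
def t14_13773 : Tr := .node ⟨nat_lit 6, nat_lit 0x2000100030, nat_lit 0x201200, nat_lit 1, nat_lit 3, nat_lit 0x47⟩ (.nil) (.nil)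
def t14_3533 : Tr := .node ⟨nat_lit 7, nat_lit 0x50005000300060, nat_lit 0x2011, nat_lit 2, nat_lit 4, nat_lit 0x45⟩ (.nil) (.nil)
def t14_11725 : Tr := .node ⟨nat_lit 8, nat_lit 0x2000a000a000c0, nat_lit 0x1011102, nat_lit 1, nat_lit 4, nat_lit 0x48⟩ (.nil) (.nil)
def t14_7629 : Tr := .node ⟨nat_lit 7, nat_lit 0x20001000100040, nat_lit 0x2100, nat_lit 1, nat_lit 4, nat_lit 0x47⟩ (.nil) (.nil)
def t14_973 : Tr := .node ⟨nat_lit 7, nat_lit 0x20004000100044, nat_lit 0x20211, nat_lit 1, nat_lit 4, nat_lit 0x48⟩ (.nil) (.nil)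
def t14_9165 : Tr := .node ⟨nat_lit 6, nat_lit 0x20002000100038, nat_lit 0x1220, nat_lit 2, nat_lit 4, nat_lit 0x46⟩ (.nil) (.nil)
def t14_5069 : Tr := .node ⟨nat_lit 5, nat_lit 0x1000180018, nat_lit 0x1321, nat_lit 6, nat_lit 4, nat_lit 0x47⟩ (.nil) (.nil)
def t14_13261 : Tr := .node ⟨nat_lit 7, nat_lit 0x40001000100060, nat_lit 0x2101100, nat_lit 0, nat_lit 3, nat_lit 0x47⟩ (.nil) (.nil)
def t14_3021 : Tr := .node ⟨nat_lit 6, nat_lit 0x10002000200034, nat_lit 0x11210, nat_lit 4, nat_lit 4, nat_lit 0x47⟩ (.nil) (.nil)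
def t14_11213 : Tr := .node ⟨nat_lit 7, nat_lit 0x20006000500050, nat_lit 0x11130, nat_lit 2, nat_lit 4, nat_lit 0x47⟩ (.nil) (.nil)
def t14_7117 : Tr := .node ⟨nat_lit 7, nat_lit 0x5000500060, nat_lit 0x211111, nat_lit 1, nat_lit 4, nat_lit 0x48⟩ (.nil) (.nil)
def t14_15309 : Tr := .node ⟨nat_lit 8, nat_lit 0x2000800080004000c0, nat_lit 0x1001012, nat_lit 3, nat_lit 4, nat_lit 0x49⟩ (.nil) (.nil)
def t14_1997 : Tr := .node ⟨nat_lit 5, nat_lit 0x100018, nat_lit 0x12112, nat_lit 6, nat_lit 4, nat_lit 0x49⟩ (.nil) (.nil)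
def t14_10189 : Tr := .node ⟨nat_lit 9, nat_lit 0x8001000120012000c001800180, nat_lit 0x2100120, nat_lit 0, nat_lit 4, nat_lit 0x47⟩ (.nil) (.nil)
def t14_6093 : Tr := .node ⟨nat_lit 1, nat_lit 0, nat_lit 1, nat_lit 0x17, nat_lit 4, nat_lit 0x47⟩ (.nil) (.nil)
def t14_14285 : Tr := .node ⟨nat_lit 7, nat_lit 0x400040002000200050, nat_lit 0x11221, nat_lit 1, nat_lit 4, nat_lit 0x47⟩ (.nil) (.nil)
def t14_4045 : Tr := .node ⟨nat_lit 7, nat_lit 0x40001000480060, nat_lit 0x12100, nat_lit 0, nat_lit 4, nat_lit 0x47⟩ (.nil) (.nil)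
def t14_12237 : Tr := .node ⟨nat_lit 6, nat_lit 0x10001000200020, nat_lit 0x102111, nat_lit 4, nat_lit 4, nat_lit 0x48⟩ (.nil) (.nil)
def t14_8141 : Tr := .node ⟨nat_lit 7, nat_lit 0x40002000500068, nat_lit 0x12100, nat_lit 0, nat_lit 4, nat_lit 0x46⟩ (.nil) (.nil)
def t9_461 : Tr := .node ⟨nat_lit 6, nat_lit 0x200020, nat_lit 0x33120, nat_lit 0, nat_lit 4, nat_lit 0x4b⟩ (.node ⟨nat_lit 6, nat_lit 0x20002c0034, nat_lit 0x311022, nat_lit 1, nat_lit 4, nat_lit 0x47⟩ (.node ⟨nat_lit 7, nat_lit 0x4000200010, nat_lit 0x22002, nat_lit 1, nat_lit 4, nat_lit 0x4a⟩ (.node ⟨nat_lit 7, nat_lit 0x40004000400020, nat_lit 0x112102, nat_lit 0, nat_lit 4, nat_lit 0x49⟩ (.node ⟨nat_lit 6, nat_lit 0x2000100008, nat_lit 0x212001, nat_lit 0, nat_lit 3, nat_lit 0x48⟩ (t14_461) (t14_8653)) (.node ⟨nat_lit 7, nat_lit 0x200040003000480068, nat_lit 0x2122110, nat_lit 0,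 nat_lit 4, nat_lit 0x48⟩ (t14_4557) (t14_12749))) (.node ⟨nat_lit 3, nat_lit 6, nat_lit 0x110, nat_lit 2, nat_lit 3, nat_lit 0x43⟩ (.node ⟨nat_lit 7, nat_lit 0x40004800300060, nat_lit 0x1110031, nat_lit 0, nat_lit 4, nat_lit 0x47⟩ (t14_2509) (t14_10701)) (.node ⟨nat_lit 7, nat_lit 0x4000200020, nat_lit 0x21032, nat_lit 0, nat_lit 4, nat_lit 0x4a⟩ (t14_6605) (t14_14797)))) (.node ⟨nat_lit 6, nat_lit 0x1000280030, nat_lit 0x2110, nat_lit 3, nat_lit 4, nat_lit 0x46⟩ (.node ⟨nat_lit 7, nat_lit 0x10001800600060, nat_lit 0x1022121, nat_lit 0, nat_lit 4, nat_lit 0x48⟩ (.node ⟨nat_lit 7, nat_lit 0x40001000600060, nat_lit 0x11100, nat_lit 0, nat_lit 4, nat_lit 0x46⟩ (t14_1485) (t14_9677)) (.node ⟨nat_lit 7, nat_lit 0x40001000200048, nat_lit 0x1112002, nat_lit 3, nat_lit 4, nat_lit 0x49⟩ (t14_5581) (t14_13773))) (.node ⟨nat_lit 6, nat_lit 0x2000080030, nat_lit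 0x112012, nat_lit 1, nat_lit 4, nat_lit 0x48⟩ (.node ⟨nat_lit 5, nat_lit 0x140018, nat_lit 0x1001, nat_lit 2, nat_lit 4, nat_lit 0x44⟩ (t14_3533) (t14_11725)) (.node ⟨nat_lit 5, nat_lit 0x1000100018, nat_lit 0x10310, nat_lit 4, nat_lit 3, nat_lit 0x46⟩ (t14_7629) (.nil))))) (.node ⟨nat_lit 6, nat_lit 0x2000100024, nat_lit 0x123111, nat_lit 0, nat_lit 4, nat_lit 0x49⟩ (.node ⟨nat_lit 6, nat_lit 0x200030, nat_lit 0x112121, nat_lit 0, nat_lit 4, nat_lit 0x49⟩ (.node ⟨nat_lit 6, nat_lit 0x200030, nat_lit 0x112210, nat_lit 0, nat_lit 4, nat_lit 0x49⟩ (.node ⟨nat_lit 1, nat_lit 0, nat_lit 4, nat_lit 0x12, nat_lit 3, nat_lit 0x46⟩ (t14_973) (t14_9165)) (.node ⟨nat_lit 5, nat_lit 0x100012, nat_lit 0x2222, nat_lit 4, nat_lit 4, nat_lit 0x48⟩ (t14_5069) (t14_13261))) (.node ⟨nat_lit 5, nat_lit 0x10, nat_lit 0x11113, nat_lit 2, nat_lit 4, nat_lit 0x49⟩ (.node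 ⟨nat_lit 8, nat_lit 0x80008800c000c0, nat_lit 0x111210, nat_lit 1, nat_lit 4, nat_lit 0x48⟩ (t14_3021) (t14_11213)) (.node ⟨nat_lit 7, nat_lit 0x20004000440070, nat_lit 0x1002202, nat_lit 0, nat_lit 4, nat_lit 0x47⟩ (t14_7117) (t14_15309)))) (.node ⟨nat_lit 6, nat_lit 0x2000100032, nat_lit 0x12021, nat_lit 1, nat_lit 4, nat_lit 0x47⟩ (.node ⟨nat_lit 5, nat_lit 0x80010, nat_lit 0x12201, nat_lit 5, nat_lit 4, nat_lit 0x49⟩ (.node ⟨nat_lit 6, nat_lit 0x300030, nat_lit 0x103031, nat_lit 0, nat_lit 4, nat_lit 0x48⟩ (t14_1997) (t14_10189)) (.node ⟨nat_lit 7, nat_lit 0x40002000500068, nat_lit 0x1112200, nat_lit 0, nat_lit 4, nat_lit 0x48⟩ (t14_6093) (t14_14285))) (.node ⟨nat_lit 4, nat_lit 8, nat_lit 0x2113, nat_lit 0xb, nat_lit 4, nat_lit 0x4a⟩ (.node ⟨nat_lit 8, nat_lit 0x80002000c000d000e0, nat_lit 0x111003, nat_lit 0, nat_lit 4, nat_lit 0x46⟩ (t14_4045)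 (t14_12237)) (.node ⟨nat_lit 8, nat_lit 0x80004000c0, nat_lit 0x1111012, nat_lit 0, nat_lit 3, nat_lit 0x49⟩ (t14_8141) (.nil)))))
def t14_45 : Tr := .node ⟨nat_lit 6, nat_lit 0x1000080020, nat_lit 0x101001, nat_lit 5, nat_lit 4, nat_lit 0x48⟩ (.nil) (.nil)
def t14_8237 : Tr := .node ⟨nat_lit 5, nat_lit 0x100012, nat_lit 0x1112, nat_lit 2, nat_lit 4, nat_lit 0x46⟩ (.nil) (.nil)
def t14_4141 : Tr := .node ⟨nat_lit 8, nat_lit 0x800080002000c000d0, nat_lit 0x1111120, nat_lit 0, nat_lit 4, nat_lit 0x48⟩ (.nil) (.nil)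
def t14_12333 : Tr := .node ⟨nat_lit 7, nat_lit 0x40002000600060, nat_lit 0x12140, nat_lit 0, nat_lit 4, nat_lit 0x48⟩ (.nil) (.nil)
def t14_2093 : Tr := .node ⟨nat_lit 7, nat_lit 0x400020002000200050, nat_lit 0x2023110, nat_lit 0, nat_lit 4, nat_lit 0x49⟩ (.nil) (.nil)
def t14_10285 : Tr := .node ⟨nat_lit 7, nat_lit 0x400040005800700068, nat_lit 0x1000120, nat_lit 1, nat_lit 4, nat_lit 0x44⟩ (.nil) (.nil)
def t14_6189 : Tr := .node ⟨nat_lit 5, nat_lit 0x40018, nat_lit 0x10011, nat_lit 5, nat_lit 4, nat_lit 0x46⟩ (.nil) (.nil)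
def t14_14381 : Tr := .node ⟨nat_lit 7, nat_lit 0x40001000500060, nat_lit 0x1130, nat_lit 3, nat_lit 4, nat_lit 0x47⟩ (.nil) (.nil)
def t14_1069 : Tr := .node ⟨nat_lit 6, nat_lit 0x2000100032, nat_lit 0x1120, nat_lit 2, nat_lit 4, nat_lit 0x46⟩ (.nil) (.nil)
def t14_9261 : Tr := .node ⟨nat_lit 6, nat_lit 0x3000280018, nat_lit 0x222, nat_lit 0, nat_lit 4, nat_lit 0x44⟩ (.nil) (.nil)
def t14_5165 : Tr := .node ⟨nat_lit 6, nat_lit 0x2000200030, nat_lit 0x11301, nat_lit 6, nat_lit 4, nat_lit 0x49⟩ (.nil) (.nil)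
def t14_13357 : Tr := .node ⟨nat_lit 8, nat_lit 0x800020009000a000d0, nat_lit 0x1020001, nat_lit 0, nat_lit 4, nat_lit 0x47⟩ (.nil) (.nil)
def t14_3117 : Tr := .node ⟨nat_lit 6, nat_lit 0x800300030, nat_lit 0x102021, nat_lit 2, nat_lit 4, nat_lit 0x47⟩ (.nil) (.nil)
def t14_11309 : Tr := .node ⟨nat_lit 8, nat_lit 0x4000a000a000c8, nat_lit 0x1020201, nat_lit 1, nat_lit 4, nat_lit 0x48⟩ (.nil) (.nil)
def t14_7213 : Tr := .node ⟨nat_lit 8, nat_lit 0x80002000c0, nat_lit 0x10111111, nat_lit 2, nat_lit 4, nat_lit 0x4b⟩ (.nil) (.nil)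
def t14_15405 : Tr := .node ⟨nat_lit 0xb, nat_lit 0x400020001000100, nat_lit 0x11110010, nat_lit 0, nat_lit 4, nat_lit 0x4e⟩ (.nil) (.nil)
def t14_557 : Tr := .node ⟨nat_lit 6, nat_lit 0x3000280028, nat_lit 0x22, nat_lit 3, nat_lit 4, nat_lit 0x45⟩ (.nil) (.nil)
def t14_8749 : Tr := .node ⟨nat_lit 8, nat_lit 0x800080004000400090, nat_lit 0x110001, nat_lit 1, nat_lit 4, nat_lit 0x48⟩ (.nil) (.nil)
def t14_4653 : Tr := .node ⟨nat_lit 8, nat_lit 0x40001000a000c0, nat_lit 0x10010012, nat_lit 4, nat_lit 4, nat_lit 0x49⟩ (.nil) (.nil)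
def t14_12845 : Tr := .node ⟨nat_lit 6, nat_lit 0x800280030, nat_lit 0x20001, nat_lit 2, nat_lit 4, nat_lit 0x46⟩ (.nil) (.nil)
def t14_2605 : Tr := .node ⟨nat_lit 6, nat_lit 0x2000100030, nat_lit 0x11102, nat_lit 5, nat_lit 4, nat_lit 0x48⟩ (.nil) (.nil)
def t14_10797 : Tr := .node ⟨nat_lit 8, nat_lit 0x40004000800088006000c0, nat_lit 0x10200012, nat_lit 2, nat_lit 4, nat_lit 0x48⟩ (.nil) (.nil)
def t14_6701 : Tr := .node ⟨nat_lit 5, nat_lit 0x18, nat_lit 0x11111, nat_lit 7, nat_lit 4, nat_lit 0x49⟩ (.nil) (.nil)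
def t14_14893 : Tr := .node ⟨nat_lit 7, nat_lit 0x40001000680068, nat_lit 0x1012111, nat_lit 0, nat_lit 4, nat_lit 0x47⟩ (.nil) (.nil)
def t14_1581 : Tr := .node ⟨nat_lit 7, nat_lit 0x40001000100060, nat_lit 0x102100, nat_lit 1, nat_lit 4, nat_lit 0x47⟩ (.nil) (.nil)
def t14_9773 : Tr := .node ⟨nat_lit 8, nat_lit 0x80008000c000c8, nat_lit 0x110020, nat_lit 0, nat_lit 4, nat_lit 0x48⟩ (.nil) (.nil)
def t14_5677 : Tr := .node ⟨nat_lit 2, nat_lit 2, nat_lit 0x11, nat_lit 9, nat_lit 4, nat_lit 0x44⟩ (.nil) (.nil)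
def t14_13869 : Tr := .node ⟨nat_lit 8, nat_lit 0x80002000c00030, nat_lit 0x2200, nat_lit 2, nat_lit 4, nat_lit 0x48⟩ (.nil) (.nil)
def t14_3629 : Tr := .node ⟨nat_lit 7, nat_lit 0x3000500060, nat_lit 0x201010, nat_lit 1, nat_lit 4, nat_lit 0x47⟩ (.nil) (.nil)
def t14_11821 : Tr := .node ⟨nat_lit 4, nat_lit 0x80004, nat_lit 0x1003, nat_lit 9, nat_lit 4, nat_lit 0x47⟩ (.nil) (.nil)
def t14_7725 : Tr := .node ⟨nat_lit 5, nat_lit 0x1000100008, nat_lit 0x103, nat_lit 4, nat_lit 4, nat_lit 0x46⟩ (.nil) (.nil)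
def t9_45 : Tr := .node ⟨nat_lit 5, nat_lit 0x10, nat_lit 0x33112, nat_lit 0, nat_lit 4, nat_lit 0x4b⟩ (.node ⟨nat_lit 7, nat_lit 0x600060, nat_lit 0x1031120, nat_lit 1, nat_lit 4, nat_lit 0x4a⟩ (.node ⟨nat_lit 7, nat_lit 0x6000180018, nat_lit 0x3000020, nat_lit 1, nat_lit 4, nat_lit 0x47⟩ (.node ⟨nat_lit 6, nat_lit 0x2000100024, nat_lit 0x112011, nat_lit 0, nat_lit 4, nat_lit 0x47⟩ (.node ⟨nat_lit 7, nat_lit 0x20004000600070, nat_lit 0x22113, nat_lit 0, nat_lit 4, nat_lit 0x47⟩ (t14_45) (t14_8237)) (.node ⟨nat_lit 8, nat_lit 0x800040009000e0, nat_lit 0x1100003, nat_lit 2, nat_lit 4, nat_lit 0x48⟩ (t14_4141) (t14_12333))) (.node ⟨nat_lit 5, nat_lit 0x40018, nat_lit 0x22102, nat_lit 2, nat_lit 4, nat_lit 0x48⟩ (.node ⟨nat_lit 7, nat_lit 0x10001800600050, nat_lit 0x1002123, nat_lit 0, nat_lit 4, nat_lit 0x47⟩ (t14_2093) (t14_10285)) (.node ⟨nat_lit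 8, nat_lit 0x800080004000a000d0, nat_lit 0x1012200, nat_lit 0, nat_lit 4, nat_lit 0x48⟩ (t14_6189) (t14_14381)))) (.node ⟨nat_lit 6, nat_lit 0x2000080030, nat_lit 0x12321, nat_lit 0, nat_lit 4, nat_lit 0x48⟩ (.node ⟨nat_lit 8, nat_lit 0x80004000200020, nat_lit 0x220011, nat_lit 1, nat_lit 4, nat_lit 0x4b⟩ (.node ⟨nat_lit 7, nat_lit 0x2000400060, nat_lit 0x1111131, nat_lit 0, nat_lit 4, nat_lit 0x4a⟩ (t14_1069) (t14_9261)) (.node ⟨nat_lit 5, nat_lit 0x1000180018, nat_lit 0x1221, nat_lit 9, nat_lit 4, nat_lit 0x47⟩ (t14_5165) (t14_13357))) (.node ⟨nat_lit 5, nat_lit 0x80010, nat_lit 0x12201, nat_lit 4, nat_lit 4, nat_lit 0x49⟩ (.node ⟨nat_lit 6, nat_lit 0x2000080034, nat_lit 0x111200, nat_lit 1, nat_lit 4, nat_lit 0x47⟩ (t14_3117) (t14_11309)) (.node ⟨nat_lit 7, nat_lit 0x4000200020, nat_lit 0x111022, nat_lit 5, nat_lit 4, nat_lit 0x4b⟩ (t14_7213)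 (t14_15405))))) (.node ⟨nat_lit 3, nat_lit 4, nat_lit 0x131, nat_lit 0xf, nat_lit 4, nat_lit 0x49⟩ (.node ⟨nat_lit 3, nat_lit 0, nat_lit 0x211, nat_lit 0xf, nat_lit 4, nat_lit 0x49⟩ (.node ⟨nat_lit 6, nat_lit 0x1000200030, nat_lit 0x100221, nat_lit 0, nat_lit 4, nat_lit 0x47⟩ (.node ⟨nat_lit 9, nat_lit 0x100010001000110011001a0, nat_lit 0x21001101, nat_lit 1, nat_lit 4, nat_lit 0x49⟩ (t14_557) (t14_8749)) (.node ⟨nat_lit 7, nat_lit 0x40002000100060, nat_lit 0x1111002, nat_lit 1, nat_lit 3, nat_lit 0x47⟩ (t14_4653) (t14_12845))) (.node ⟨nat_lit 6, nat_lit 0x800300038, nat_lit 0x100121, nat_lit 2, nat_lit 4, nat_lit 0x45⟩ (.node ⟨nat_lit 6, nat_lit 0x2000080030, nat_lit 0x112310, nat_lit 1, nat_lit 4, nat_lit 0x49⟩ (t14_2605) (t14_10797)) (.node ⟨nat_lit 6, nat_lit 0x800280030, nat_lit 0x121112, nat_lit 2, nat_lit 4, nat_lit 0x48⟩ (t14_6701) (t14_14893))))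 (.node ⟨nat_lit 6, nat_lit 0x2000080010, nat_lit 0x12211, nat_lit 1, nat_lit 4, nat_lit 0x48⟩ (.node ⟨nat_lit 6, nat_lit 0x200030, nat_lit 0x202101, nat_lit 2, nat_lit 4, nat_lit 0x49⟩ (.node ⟨nat_lit 5, nat_lit 0x180018, nat_lit 0x110, nat_lit 5, nat_lit 4, nat_lit 0x45⟩ (t14_1581) (t14_9773)) (.node ⟨nat_lit 7, nat_lit 0x40003000500060, nat_lit 0x110122, nat_lit 0, nat_lit 3, nat_lit 0x45⟩ (t14_5677) (t14_13869))) (.node ⟨nat_lit 5, nat_lit 0x140018, nat_lit 0x1221, nat_lit 6, nat_lit 4, nat_lit 0x47⟩ (.node ⟨nat_lit 7, nat_lit 0x2000400060, nat_lit 0x10010, nat_lit 0, nat_lit 4, nat_lit 0x47⟩ (t14_3629) (t14_11821)) (.node ⟨nat_lit 6, nat_lit 0x1000100020, nat_lit 0x111102, nat_lit 3, nat_lit 4, nat_lit 0x49⟩ (t14_7725) (.nil)))))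
def t14_301 : Tr := .node ⟨nat_lit 6, nat_lit 0x1000200030, nat_lit 0x13141, nat_lit 0, nat_lit 4, nat_lit 0x49⟩ (.nil) (.nil)
def t14_8493 : Tr := .node ⟨nat_lit 8, nat_lit 0x40004000800088006000e0, nat_lit 0x10110013, nat_lit 2, nat_lit 4, nat_lit 0x47⟩ (.nil) (.nil)
def t14_4397 : Tr := .node ⟨nat_lit 6, nat_lit 0x2000080034, nat_lit 0x121210, nat_lit 1, nat_lit 4, nat_lit 0x48⟩ (.nil) (.nil)
def t14_12589 : Tr := .node ⟨nat_lit 7, nat_lit 0x40001000600070, nat_lit 0x100203, nat_lit 0, nat_lit 4, nat_lit 0x46⟩ (.nil) (.nil)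
def t14_2349 : Tr := .node ⟨nat_lit 6, nat_lit 0x20002800380038, nat_lit 0x211110, nat_lit 2, nat_lit 4, nat_lit 0x47⟩ (.nil) (.nil)
def t14_10541 : Tr := .node ⟨nat_lit 7, nat_lit 0x40002000100060, nat_lit 0x20002, nat_lit 0, nat_lit 4, nat_lit 0x47⟩ (.nil) (.nil)
def t14_6445 : Tr := .node ⟨nat_lit 8, nat_lit 0x4000400040008000840060, nat_lit 0x10110001, nat_lit 3, nat_lit 4, nat_lit 0x48⟩ (.nil) (.nil)
def t14_14637 : Tr := .node ⟨nat_lit 6, nat_lit 0x10001000200030, nat_lit 0x102111, nat_lit 6, nat_lit 4, nat_lit 0x48⟩ (.nil) (.nil)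
def t14_1325 : Tr := .node ⟨nat_lit 8, nat_lit 0x80008000800040004000a0, nat_lit 0x111211, nat_lit 0, nat_lit 4, nat_lit 0x48⟩ (.nil) (.nil)
def t14_9517 : Tr := .node ⟨nat_lit 4, nat_lit 0x80008000c, nat_lit 0x1121, nat_lit 5, nat_lit 4, nat_lit 0x46⟩ (.nil) (.nil)
def t14_5421 : Tr := .node ⟨nat_lit 5, nat_lit 0, nat_lit 0x32111, nat_lit 4, nat_lit 3, nat_lit 0x4a⟩ (.nil) (.nil)
def t14_13613 : Tr := .node ⟨nat_lit 7, nat_lit 0x10002000500060, nat_lit 0x22, nat_lit 2, nat_lit 4, nat_lit 0x46⟩ (.nil) (.nil)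
def t14_3373 : Tr := .node ⟨nat_lit 7, nat_lit 0x10004000600060, nat_lit 0x100210, nat_lit 1, nat_lit 4, nat_lit 0x47⟩ (.nil) (.nil)
def t14_11565 : Tr := .node ⟨nat_lit 7, nat_lit 0x20005000500060, nat_lit 0x11102, nat_lit 1, nat_lit 4, nat_lit 0x46⟩ (.nil) (.nil)
def t14_7469 : Tr := .node ⟨nat_lit 8, nat_lit 0x400080002000c8, nat_lit 0x11010101, nat_lit 1, nat_lit 4, nat_lit 0x49⟩ (.nil) (.nil)
def t14_813 : Tr := .node ⟨nat_lit 6, nat_lit 0x2000200030, nat_lit 0x12310, nat_lit 3, nat_lit 4, nat_lit 0x49⟩ (.nil) (.nil)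
def t14_9005 : Tr := .node ⟨nat_lit 8, nat_lit 0x800080009000900088, nat_lit 0x1111201, nat_lit 2, nat_lit 4, nat_lit 0x49⟩ (.nil) (.nil)
def t14_4909 : Tr := .node ⟨nat_lit 6, nat_lit 0x2000080030, nat_lit 0x112230, nat_lit 1, nat_lit 4, nat_lit 0x49⟩ (.nil) (.nil)
def t14_13101 : Tr := .node ⟨nat_lit 3, nat_lit 6, nat_lit 0x410, nat_lit 2, nat_lit 3, nat_lit 0x46⟩ (.nil) (.nil)
def t14_2861 : Tr := .node ⟨nat_lit 7, nat_lit 0x40002000600064, nat_lit 0x13010, nat_lit 0, nat_lit 4, nat_lit 0x47⟩ (.nil) (.nil)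
def t14_11053 : Tr := .node ⟨nat_lit 6, nat_lit 0x300030, nat_lit 0x112020, nat_lit 0, nat_lit 4, nat_lit 0x48⟩ (.nil) (.nil)
def t14_6957 : Tr := .node ⟨nat_lit 6, nat_lit 0x2000080030, nat_lit 0x120221, nat_lit 1, nat_lit 4, nat_lit 0x48⟩ (.nil) (.nil)
def t14_15149 : Tr := .node ⟨nat_lit 8, nat_lit 0x800040004000400090, nat_lit 0x10111101, nat_lit 0, nat_lit 4, nat_lit 0x49⟩ (.nil) (.nil)
def t14_1837 : Tr := .node ⟨nat_lit 4, nat_lit 0x8000c, nat_lit 0x312, nat_lit 6, nat_lit 4, nat_lit 0x47⟩ (.nil) (.nil)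
def t14_10029 : Tr := .node ⟨nat_lit 6, nat_lit 0x2800280030, nat_lit 0x11202, nat_lit 4, nat_lit 4, nat_lit 0x47⟩ (.nil) (.nil)
def t14_5933 : Tr := .node ⟨nat_lit 9, nat_lit 0x10001000040011001200180, nat_lit 0x11111000, nat_lit 1, nat_lit 4, nat_lit 0x49⟩ (.nil) (.nil)
def t14_14125 : Tr := .node ⟨nat_lit 7, nat_lit 0x400040002000200020, nat_lit 0x11100, nat_lit 1, nat_lit 4, nat_lit 0x47⟩ (.nil) (.nil)
def t14_3885 : Tr := .node ⟨nat_lit 7, nat_lit 0x20002000400068, nat_lit 0x1012001, nat_lit 2, nat_lit 4, nat_lit 0x48⟩ (.nil) (.nil)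
def t14_12077 : Tr := .node ⟨nat_lit 7, nat_lit 0x20003000500068, nat_lit 0x101030, nat_lit 1, nat_lit 4, nat_lit 0x46⟩ (.nil) (.nil)
def t14_7981 : Tr := .node ⟨nat_lit 7, nat_lit 0x400020002000280050, nat_lit 0x1001110, nat_lit 4, nat_lit 4, nat_lit 0x47⟩ (.nil) (.nil)
def t9_301 : Tr := .node ⟨nat_lit 6, nat_lit 0x200020, nat_lit 0x32111, nat_lit 0, nat_lit 4, nat_lit 0x4a⟩ (.node ⟨nat_lit 6, nat_lit 0x800080030, nat_lit 0x320112, nat_lit 0, nat_lit 4, nat_lit 0x49⟩ (.node ⟨nat_lit 6, nat_lit 0x2000200024, nat_lit 0x131111, nat_lit 5, nat_lit 4, nat_lit 0x4a⟩ (.node ⟨nat_lit 6, nat_lit 0x1000200022, nat_lit 0x102012, nat_lit 4, nat_lit 4, nat_lit 0x48⟩ (.node ⟨nat_lit 7, nat_lit 0x20004000400044, nat_lit 0x2010211, nat_lit 1, nat_lit 4, nat_lit 0x4a⟩ (t14_301) (t14_8493)) (.node ⟨nat_lit 8, nat_lit 0x400020008000c400e0, nat_lit 0x10110013, nat_lit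 1, nat_lit 4, nat_lit 0x47⟩ (t14_4397) (t14_12589))) (.node ⟨nat_lit 6, nat_lit 0x200030, nat_lit 0x201122, nat_lit 4, nat_lit 4, nat_lit 0x4a⟩ (.node ⟨nat_lit 5, nat_lit 0x100010, nat_lit 0x12233, nat_lit 1, nat_lit 3, nat_lit 0x48⟩ (t14_2349) (t14_10541)) (.node ⟨nat_lit 7, nat_lit 0x40001000600060, nat_lit 0x23110, nat_lit 1, nat_lit 4, nat_lit 0x48⟩ (t14_6445) (t14_14637)))) (.node ⟨nat_lit 6, nat_lit 0x2000100034, nat_lit 0x201110, nat_lit 1, nat_lit 4, nat_lit 0x47⟩ (.node ⟨nat_lit 6, nat_lit 0x80030, nat_lit 0x212212, nat_lit 0, nat_lit 4, nat_lit 0x4a⟩ (.node ⟨nat_lit 4, nat_lit 0x8000c, nat_lit 0x240, nat_lit 3, nat_lit 3, nat_lit 0x45⟩ (t14_1325) (t14_9517)) (.node ⟨nat_lit 7, nat_lit 0x2000500060, nat_lit 0x1112022, nat_lit 0, nat_lit 4, nat_lit 0x49⟩ (t14_5421) (t14_13613))) (.node ⟨nat_lit 6, nat_lit 0x100020, nat_lit 0x22101, nat_lit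 0, nat_lit 4, nat_lit 0x49⟩ (.node ⟨nat_lit 6, nat_lit 0x2000100010, nat_lit 0x112030, nat_lit 4, nat_lit 4, nat_lit 0x4a⟩ (t14_3373) (t14_11565)) (.node ⟨nat_lit 7, nat_lit 0x800100060, nat_lit 0x1111002, nat_lit 1, nat_lit 4, nat_lit 0x49⟩ (t14_7469) (.nil))))) (.node ⟨nat_lit 5, nat_lit 0x100010, nat_lit 0x3110, nat_lit 7, nat_lit 4, nat_lit 0x49⟩ (.node ⟨nat_lit 6, nat_lit 0x2000100032, nat_lit 0x21021, nat_lit 2, nat_lit 4, nat_lit 0x48⟩ (.node ⟨nat_lit 5, nat_lit 0x80010, nat_lit 0x11111, nat_lit 2, nat_lit 4, nat_lit 0x47⟩ (.node ⟨nat_lit 7, nat_lit 0x4000400020, nat_lit 0x222110, nat_lit 0, nat_lit 4, nat_lit 0x4b⟩ (t14_813) (t14_9005)) (.node ⟨nat_lit 8, nat_lit 0x20008000c0, nat_lit 0x11021002, nat_lit 1, nat_lit 4, nat_lit 0x4b⟩ (t14_4909) (t14_13101))) (.node ⟨nat_lit 8, nat_lit 0x8000200020009000c0, nat_lit 0x11010002, nat_lit 0, nat_lit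 4, nat_lit 0x48⟩ (.node ⟨nat_lit 6, nat_lit 0x200020, nat_lit 0x111130, nat_lit 6, nat_lit 4, nat_lit 0x4b⟩ (t14_2861) (t14_11053)) (.node ⟨nat_lit 8, nat_lit 0x800040009000d000c8, nat_lit 0x1112120, nat_lit 0, nat_lit 4, nat_lit 0x47⟩ (t14_6957) (t14_15149)))) (.node ⟨nat_lit 6, nat_lit 0x2000100010, nat_lit 0x11021, nat_lit 2, nat_lit 3, nat_lit 0x47⟩ (.node ⟨nat_lit 7, nat_lit 0x40002000500060, nat_lit 0x122111, nat_lit 0, nat_lit 4, nat_lit 0x48⟩ (.node ⟨nat_lit 6, nat_lit 0x800200030, nat_lit 0x10001, nat_lit 3, nat_lit 4, nat_lit 0x46⟩ (t14_1837) (t14_10029)) (.node ⟨nat_lit 7, nat_lit 0x10006000600050, nat_lit 0x22202, nat_lit 0, nat_lit 4, nat_lit 0x47⟩ (t14_5933) (t14_14125))) (.node ⟨nat_lit 8, nat_lit 0x20001000c0, nat_lit 0x20001002, nat_lit 6, nat_lit 4, nat_lit 0x4b⟩ (.node ⟨nat_lit 7, nat_lit 0x10005000600070, nat_lit 0x100023, nat_lit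 2, nat_lit 4, nat_lit 0x46⟩ (t14_3885) (t14_12077)) (.node ⟨nat_lit 6, nat_lit 0x2000200030, nat_lit 0x11102, nat_lit 5, nat_lit 4, nat_lit 0x48⟩ (t14_7981) (.nil)))))
def t14_173 : Tr := .node ⟨nat_lit 7, nat_lit 0x1000500060, nat_lit 0x1102112, nat_lit 2, nat_lit 4, nat_lit 0x49⟩ (.nil) (.nil)
def t14_8365 : Tr := .node ⟨nat_lit 8, nat_lit 0x80004000a000c8, nat_lit 0x12003, nat_lit 2, nat_lit 4, nat_lit 0x48⟩ (.nil) (.nil)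
def t14_4269 : Tr := .node ⟨nat_lit 6, nat_lit 0x800200032, nat_lit 0x220100, nat_lit 1, nat_lit 4, nat_lit 0x47⟩ (.nil) (.nil)
def t14_12461 : Tr := .node ⟨nat_lit 8, nat_lit 0x8000c800c800e0, nat_lit 0x10110103, nat_lit 0, nat_lit 4, nat_lit 0x47⟩ (.nil) (.nil)
def t14_2221 : Tr := .node ⟨nat_lit 8, nat_lit 0x800040004000400020, nat_lit 0x102210, nat_lit 2, nat_lit 4, nat_lit 0x4a⟩ (.nil) (.nil)
def t14_10413 : Tr := .node ⟨nat_lit 8, nat_lit 0x40002000c000a000d0, nat_lit 0x1020202, nat_lit 0, nat_lit 4, nat_lit 0x47⟩ (.nil) (.nil)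
def t14_6317 : Tr := .node ⟨nat_lit 6, nat_lit 0x2000200030, nat_lit 0x1210, nat_lit 5, nat_lit 4, nat_lit 0x48⟩ (.nil) (.nil)
def t14_14509 : Tr := .node ⟨nat_lit 9, nat_lit 0x1000020002001400180, nat_lit 0x10021001, nat_lit 1, nat_lit 4, nat_lit 0x49⟩ (.nil) (.nil)
def t14_1197 : Tr := .node ⟨nat_lit 7, nat_lit 0x100060, nat_lit 0x11022, nat_lit 0, nat_lit 4, nat_lit 0x49⟩ (.nil) (.nil)
def t14_9389 : Tr := .node ⟨nat_lit 6, nat_lit 0x2000200020, nat_lit 0x22210, nat_lit 3, nat_lit 3, nat_lit 0x48⟩ (.nil) (.nil)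
def t14_5293 : Tr := .node ⟨nat_lit 6, nat_lit 0x200010, nat_lit 0x221100, nat_lit 0, nat_lit 3, nat_lit 0x49⟩ (.nil) (.nil)
def t14_13485 : Tr := .node ⟨nat_lit 8, nat_lit 0x80002000400040, nat_lit 0x10300, nat_lit 0, nat_lit 4, nat_lit 0x49⟩ (.nil) (.nil)
def t14_3245 : Tr := .node ⟨nat_lit 8, nat_lit 0x8000800040004000c0, nat_lit 0x120211, nat_lit 0, nat_lit 4, nat_lit 0x49⟩ (.nil) (.nil)
def t14_11437 : Tr := .node ⟨nat_lit 6, nat_lit 0x300030, nat_lit 0x101100, nat_lit 1, nat_lit 4, nat_lit 0x47⟩ (.nil) (.nil)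
def t14_7341 : Tr := .node ⟨nat_lit 6, nat_lit 0x1000100020, nat_lit 0x113001, nat_lit 2, nat_lit 4, nat_lit 0x49⟩ (.nil) (.nil)
def t14_15533 : Tr := .node ⟨nat_lit 0xa, nat_lit 0x200010000800040, nat_lit 0x110000, nat_lit 8, nat_lit 4, nat_lit 0x4d⟩ (.nil) (.nil)
def t14_685 : Tr := .node ⟨nat_lit 5, nat_lit 0x800100018, nat_lit 0x231, nat_lit 4, nat_lit 4, nat_lit 0x46⟩ (.nil) (.nil)
def t14_8877 : Tr := .node ⟨nat_lit 0xb, nat_lit 0x200040004000100008004200420, nat_lit 0x100021, nat_lit 1, nat_lit 4, nat_lit 0x4a⟩ (.nil) (.nil)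
def t14_4781 : Tr := .node ⟨nat_lit 8, nat_lit 0x2000800080004000c0, nat_lit 0x1002012, nat_lit 2, nat_lit 4, nat_lit 0x49⟩ (.nil) (.nil)
def t14_12973 : Tr := .node ⟨nat_lit 7, nat_lit 0x20001000500068, nat_lit 0x3101, nat_lit 1, nat_lit 4, nat_lit 0x46⟩ (.nil) (.nil)
def t14_2733 : Tr := .node ⟨nat_lit 7, nat_lit 0x6000500050, nat_lit 0x2120, nat_lit 1, nat_lit 4, nat_lit 0x47⟩ (.nil) (.nil)
def t14_10925 : Tr := .node ⟨nat_lit 9, nat_lit 0x100010000800080014001400180, nat_lit 0x120102, nat_lit 2, nat_lit 4, nat_lit 0x48⟩ (.nil) (.nil)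
def t14_6829 : Tr := .node ⟨nat_lit 5, nat_lit 0x1000080014, nat_lit 0x1312, nat_lit 4, nat_lit 4, nat_lit 0x47⟩ (.nil) (.nil)
def t14_15021 : Tr := .node ⟨nat_lit 9, nat_lit 0x10001000040012001200180, nat_lit 0x11111110, nat_lit 0, nat_lit 4, nat_lit 0x49⟩ (.nil) (.nil)
def t14_1709 : Tr := .node ⟨nat_lit 9, nat_lit 0x10001000080008001200180, nat_lit 0x1101112, nat_lit 0, nat_lit 4, nat_lit 0x49⟩ (.nil) (.nil)
def t14_9901 : Tr := .node ⟨nat_lit 4, nat_lit 0xc000c, nat_lit 0x40, nat_lit 0xa, nat_lit 4, nat_lit 0x45⟩ (.nil) (.nil)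
def t14_5805 : Tr := .node ⟨nat_lit 7, nat_lit 0x400060, nat_lit 0x111121, nat_lit 2, nat_lit 4, nat_lit 0x4a⟩ (.nil) (.nil)
def t14_13997 : Tr := .node ⟨nat_lit 6, nat_lit 0x800200030, nat_lit 0x10212, nat_lit 3, nat_lit 4, nat_lit 0x47⟩ (.nil) (.nil)
def t14_3757 : Tr := .node ⟨nat_lit 8, nat_lit 0x8000400040004000a000d0, nat_lit 0x121000, nat_lit 1, nat_lit 4, nat_lit 0x47⟩ (.nil) (.nil)
def t14_11949 : Tr := .node ⟨nat_lit 6, nat_lit 0x10001000200022, nat_lit 0x1031, nat_lit 4, nat_lit 4, nat_lit 0x47⟩ (.nil) (.nil)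
def t14_7853 : Tr := .node ⟨nat_lit 8, nat_lit 0x8000800040004800a000c0, nat_lit 0x1002, nat_lit 1, nat_lit 4, nat_lit 0x46⟩ (.nil) (.nil)
def t9_173 : Tr := .node ⟨nat_lit 4, nat_lit 0, nat_lit 0x3211, nat_lit 7, nat_lit 4, nat_lit 0x4a⟩ (.node ⟨nat_lit 3, nat_lit 4, nat_lit 0x131, nat_lit 5, nat_lit 4, nat_lit 0x46⟩ (.node ⟨nat_lit 5, nat_lit 0x80010, nat_lit 0x310, nat_lit 0, nat_lit 4, nat_lit 0x46⟩ (.node ⟨nat_lit 6, nat_lit 0x40038, nat_lit 0x210003, nat_lit 4, nat_lit 4, nat_lit 0x48⟩ (.node ⟨nat_lit 8, nat_lit 0x800080008000400090, nat_lit 0x2111021, nat_lit 0, nat_lit 4, nat_lit 0x4a⟩ (t14_173) (t14_8365)) (.node ⟨nat_lit 7, nat_lit 0x40002000480070, nat_lit 0x112003, nat_lit 0, nat_lit 4, nat_lit 0x47⟩ (t14_4269) (t14_12461))) (.node ⟨nat_lit 5, nat_lit 0x80010, nat_lit 0x22133, nat_lit 1, nat_lit 4, nat_lit 0x4a⟩ (.node ⟨nat_lit 7, nat_lit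 0x4000200060, nat_lit 0x110213, nat_lit 0, nat_lit 4, nat_lit 0x49⟩ (t14_2221) (t14_10413)) (.node ⟨nat_lit 5, nat_lit 0x1000080014, nat_lit 0x10230, nat_lit 2, nat_lit 4, nat_lit 0x46⟩ (t14_6317) (t14_14509)))) (.node ⟨nat_lit 5, nat_lit 0x18, nat_lit 0x21111, nat_lit 3, nat_lit 4, nat_lit 0x48⟩ (.node ⟨nat_lit 6, nat_lit 0x1000200030, nat_lit 0x12120, nat_lit 0, nat_lit 3, nat_lit 0x46⟩ (.node ⟨nat_lit 5, nat_lit 0x100008, nat_lit 0x1134, nat_lit 0, nat_lit 4, nat_lit 0x48⟩ (t14_1197) (t14_9389)) (.node ⟨nat_lit 7, nat_lit 0x10003000500060, nat_lit 0x1101212, nat_lit 1, nat_lit 4, nat_lit 0x47⟩ (t14_5293) (t14_13485))) (.node ⟨nat_lit 6, nat_lit 0x2000080030, nat_lit 0x110220, nat_lit 1, nat_lit 4, nat_lit 0x47⟩ (.node ⟨nat_lit 7, nat_lit 0x1000080060, nat_lit 0x1000001, nat_lit 0, nat_lit 3, nat_lit 0x46⟩ (t14_3245) (t14_11437)) (.node ⟨nat_lit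 6, nat_lit 0x20001000280034, nat_lit 0x121102, nat_lit 2, nat_lit 4, nat_lit 0x47⟩ (t14_7341) (t14_15533))))) (.node ⟨nat_lit 8, nat_lit 0x80004000200010, nat_lit 0x30002, nat_lit 3, nat_lit 4, nat_lit 0x4b⟩ (.node ⟨nat_lit 6, nat_lit 0x800080030, nat_lit 0x211112, nat_lit 0, nat_lit 4, nat_lit 0x48⟩ (.node ⟨nat_lit 7, nat_lit 0x40004000200020, nat_lit 0x21010, nat_lit 1, nat_lit 4, nat_lit 0x48⟩ (.node ⟨nat_lit 6, nat_lit 0x2000080030, nat_lit 0x112003, nat_lit 0, nat_lit 4, nat_lit 0x48⟩ (t14_685) (t14_8877)) (.node ⟨nat_lit 7, nat_lit 0x400020002000640068, nat_lit 0x132010, nat_lit 2, nat_lit 4, nat_lit 0x47⟩ (t14_4781) (t14_12973))) (.node ⟨nat_lit 3, nat_lit 4, nat_lit 0x12, nat_lit 5, nat_lit 4, nat_lit 0x44⟩ (.node ⟨nat_lit 6, nat_lit 0x800200030, nat_lit 0x112030, nat_lit 0, nat_lit 3, nat_lit 0x47⟩ (t14_2733) (t14_10925)) (.node ⟨nat_lit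 6, nat_lit 0x800300038, nat_lit 0x101122, nat_lit 2, nat_lit 4, nat_lit 0x46⟩ (t14_6829) (t14_15021)))) (.node ⟨nat_lit 4, nat_lit 0x80008, nat_lit 0x1122, nat_lit 7, nat_lit 4, nat_lit 0x48⟩ (.node ⟨nat_lit 6, nat_lit 0x2000280030, nat_lit 0x22112, nat_lit 0, nat_lit 3, nat_lit 0x46⟩ (.node ⟨nat_lit 5, nat_lit 0x40018, nat_lit 0x10003, nat_lit 1, nat_lit 4, nat_lit 0x45⟩ (t14_1709) (t14_9901)) (.node ⟨nat_lit 6, nat_lit 0x100020, nat_lit 0x200032, nat_lit 0, nat_lit 4, nat_lit 0x49⟩ (t14_5805) (t14_13997))) (.node ⟨nat_lit 7, nat_lit 0x10001000100060, nat_lit 0x2002112, nat_lit 1, nat_lit 4, nat_lit 0x49⟩ (.node ⟨nat_lit 5, nat_lit 0x180014, nat_lit 0x203, nat_lit 3, nat_lit 4, nat_lit 0x46⟩ (t14_3757) (t14_11949)) (.node ⟨nat_lit 7, nat_lit 0x40006000680068, nat_lit 0x1110121, nat_lit 3, nat_lit 4, nat_lit 0x47⟩ (t14_7853) (.nil)))))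
def t14_429 : Tr := .node ⟨nat_lit 7, nat_lit 0x4000400040, nat_lit 0x1111210, nat_lit 1, nat_lit 4, nat_lit 0x4b⟩ (.nil) (.nil)
def t14_8621 : Tr := .node ⟨nat_lit 7, nat_lit 0x40003000580068, nat_lit 0x1200, nat_lit 0, nat_lit 4, nat_lit 0x44⟩ (.nil) (.nil)
def t14_4525 : Tr := .node ⟨nat_lit 8, nat_lit 0x80008000400088, nat_lit 0x11111101, nat_lit 3, nat_lit 4, nat_lit 0x4b⟩ (.nil) (.nil)
def t14_12717 : Tr := .node ⟨nat_lit 7, nat_lit 0x1000400060, nat_lit 0x1001020, nat_lit 3, nat_lit 4, nat_lit 0x49⟩ (.nil) (.nil)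
def t14_2477 : Tr := .node ⟨nat_lit 7, nat_lit 0x40001000600050, nat_lit 0x12210, nat_lit 3, nat_lit 4, nat_lit 0x48⟩ (.nil) (.nil)
def t14_10669 : Tr := .node ⟨nat_lit 5, nat_lit 0x100018001c, nat_lit 0x1000, nat_lit 4, nat_lit 4, nat_lit 0x44⟩ (.nil) (.nil)
def t14_6573 : Tr := .node ⟨nat_lit 7, nat_lit 0x100060, nat_lit 0x1011111, nat_lit 2, nat_lit 4, nat_lit 0x4a⟩ (.nil) (.nil)
def t14_14765 : Tr := .node ⟨nat_lit 7, nat_lit 0x6000500018, nat_lit 0x110121, nat_lit 0, nat_lit 4, nat_lit 0x47⟩ (.nil) (.nil)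
def t14_1453 : Tr := .node ⟨nat_lit 8, nat_lit 0x8000400040005000a000e0, nat_lit 0x10121111, nat_lit 0, nat_lit 4, nat_lit 0x47⟩ (.nil) (.nil)
def t14_9645 : Tr := .node ⟨nat_lit 6, nat_lit 0x800280030, nat_lit 0x100132, nat_lit 0, nat_lit 4, nat_lit 0x46⟩ (.nil) (.nil)
def t14_5549 : Tr := .node ⟨nat_lit 6, nat_lit 0x200020, nat_lit 0x11131, nat_lit 4, nat_lit 4, nat_lit 0x4a⟩ (.nil) (.nil)
def t14_13741 : Tr := .node ⟨nat_lit 7, nat_lit 0x400020002000500068, nat_lit 0x20110, nat_lit 2, nat_lit 4, nat_lit 0x46⟩ (.nil) (.nil)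
def t14_3501 : Tr := .node ⟨nat_lit 6, nat_lit 0x3000280038, nat_lit 0x1210, nat_lit 3, nat_lit 4, nat_lit 0x45⟩ (.nil) (.nil)
def t14_11693 : Tr := .node ⟨nat_lit 6, nat_lit 0x3000300030, nat_lit 0x2100, nat_lit 0, nat_lit 3, nat_lit 0x44⟩ (.nil) (.nil)
def t14_7597 : Tr := .node ⟨nat_lit 6, nat_lit 0x2000080034, nat_lit 0x101, nat_lit 0, nat_lit 4, nat_lit 0x44⟩ (.nil) (.nil)
def t14_941 : Tr := .node ⟨nat_lit 8, nat_lit 0x800080004000900090, nat_lit 0x1112120, nat_lit 0, nat_lit 4, nat_lit 0x49⟩ (.nil) (.nil)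
def t14_9133 : Tr := .node ⟨nat_lit 8, nat_lit 0x80008000a0009000c000e0, nat_lit 0x1010120, nat_lit 3, nat_lit 4, nat_lit 0x47⟩ (.nil) (.nil)
def t14_5037 : Tr := .node ⟨nat_lit 7, nat_lit 0x4800600070, nat_lit 0x110113, nat_lit 2, nat_lit 4, nat_lit 0x47⟩ (.nil) (.nil)
def t14_13229 : Tr := .node ⟨nat_lit 7, nat_lit 0x400040002000200064, nat_lit 0x32000, nat_lit 0, nat_lit 4, nat_lit 0x47⟩ (.nil) (.nil)
def t14_2989 : Tr := .node ⟨nat_lit 7, nat_lit 0x40001000100060, nat_lit 0x10102, nat_lit 0, nat_lit 4, nat_lit 0x47⟩ (.nil) (.nil)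
def t14_11181 : Tr := .node ⟨nat_lit 7, nat_lit 0x10001000600060, nat_lit 0x1010020, nat_lit 1, nat_lit 4, nat_lit 0x47⟩ (.nil) (.nil)
def t14_7085 : Tr := .node ⟨nat_lit 8, nat_lit 0x4000a000a000c0, nat_lit 0x110112, nat_lit 1, nat_lit 4, nat_lit 0x48⟩ (.nil) (.nil)
def t14_15277 : Tr := .node ⟨nat_lit 8, nat_lit 0x4000800088006000c0, nat_lit 0x10002112, nat_lit 0, nat_lit 4, nat_lit 0x48⟩ (.nil) (.nil)
def t14_1965 : Tr := .node ⟨nat_lit 6, nat_lit 0x800300038, nat_lit 0x2122, nat_lit 1, nat_lit 4, nat_lit 0x46⟩ (.nil) (.nil)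
def t14_10157 : Tr := .node ⟨nat_lit 7, nat_lit 0x4000400060, nat_lit 0x100, nat_lit 0, nat_lit 4, nat_lit 0x47⟩ (.nil) (.nil)
def t14_6061 : Tr := .node ⟨nat_lit 0xa, nat_lit 0x20002000200010002200220, nat_lit 0x111010010, nat_lit 1, nat_lit 4, nat_lit 0x4b⟩ (.nil) (.nil)
def t14_14253 : Tr := .node ⟨nat_lit 7, nat_lit 0x200020004000400060, nat_lit 0x11110, nat_lit 0, nat_lit 3, nat_lit 0x45⟩ (.nil) (.nil)
def t14_4013 : Tr := .node ⟨nat_lit 6, nat_lit 0x10002000300038, nat_lit 0x11021, nat_lit 4, nat_lit 4, nat_lit 0x46⟩ (.nil) (.nil)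
def t14_12205 : Tr := .node ⟨nat_lit 7, nat_lit 0x10004000500060, nat_lit 0x101121, nat_lit 2, nat_lit 4, nat_lit 0x47⟩ (.nil) (.nil)
def t14_8109 : Tr := .node ⟨nat_lit 7, nat_lit 0x200040004800300060, nat_lit 0x1010032, nat_lit 0, nat_lit 4, nat_lit 0x46⟩ (.nil) (.nil)
def t9_429 : Tr := .node ⟨nat_lit 6, nat_lit 0x30, nat_lit 0x203111, nat_lit 3, nat_lit 4, nat_lit 0x4b⟩ (.node ⟨nat_lit 6, nat_lit 0x1000100020, nat_lit 0x103221, nat_lit 0, nat_lit 4, nat_lit 0x49⟩ (.node ⟨nat_lit 5, nat_lit 0x1000100008, nat_lit 0x12200, nat_lit 0, nat_lit 3, nat_lit 0x46⟩ (.node ⟨nat_lit 6, nat_lit 0x800280030, nat_lit 0x11213, nat_lit 1, nat_lit 4, nat_lit 0x47⟩ (.node ⟨nat_lit 7, nat_lit 0x6000180018, nat_lit 0x3000120, nat_lit 0, nat_lit 4, nat_lit 0x47⟩ (t14_429) (t14_8621)) (.node ⟨nat_lit 7, nat_lit 0x800500060, nat_lit 0x1210022, nat_lit 1, nat_lit 4,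 nat_lit 0x49⟩ (t14_4525) (t14_12717))) (.node ⟨nat_lit 3, nat_lit 6, nat_lit 0x201, nat_lit 0xa, nat_lit 3, nat_lit 0x45⟩ (.node ⟨nat_lit 7, nat_lit 0x40004000100060, nat_lit 0x111003, nat_lit 1, nat_lit 4, nat_lit 0x48⟩ (t14_2477) (t14_10669)) (.node ⟨nat_lit 7, nat_lit 0x10002000400060, nat_lit 0x1000321, nat_lit 0, nat_lit 4, nat_lit 0x48⟩ (t14_6573) (t14_14765)))) (.node ⟨nat_lit 4, nat_lit 8, nat_lit 0x211, nat_lit 3, nat_lit 4, nat_lit 0x46⟩ (.node ⟨nat_lit 7, nat_lit 0x40004000400020, nat_lit 0x212101, nat_lit 3, nat_lit 4, nat_lit 0x4a⟩ (.node ⟨nat_lit 6, nat_lit 0x1000200022, nat_lit 0x1100, nat_lit 1, nat_lit 4, nat_lit 0x45⟩ (t14_1453) (t14_9645)) (.node ⟨nat_lit 5, nat_lit 0x1000100008, nat_lit 0x11210, nat_lit 0xb, nat_lit 4, nat_lit 0x49⟩ (t14_5549) (t14_13741))) (.node ⟨nat_lit 5, nat_lit 0x100010, nat_lit 0x1122, nat_lit 3, nat_lit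 4, nat_lit 0x48⟩ (.node ⟨nat_lit 7, nat_lit 0x3000600050, nat_lit 0x1011003, nat_lit 2, nat_lit 4, nat_lit 0x48⟩ (t14_3501) (t14_11693)) (.node ⟨nat_lit 7, nat_lit 0x400060, nat_lit 0x1111121, nat_lit 2, nat_lit 4, nat_lit 0x4b⟩ (t14_7597) (.nil))))) (.node ⟨nat_lit 7, nat_lit 0x2000500060, nat_lit 0x23110, nat_lit 1, nat_lit 4, nat_lit 0x49⟩ (.node ⟨nat_lit 5, nat_lit 0x40018, nat_lit 0x22121, nat_lit 2, nat_lit 4, nat_lit 0x48⟩ (.node ⟨nat_lit 7, nat_lit 0x10004000600064, nat_lit 0x1100121, nat_lit 1, nat_lit 4, nat_lit 0x47⟩ (.node ⟨nat_lit 3, nat_lit 0x40004, nat_lit 0x120, nat_lit 0x13, nat_lit 4, nat_lit 0x48⟩ (t14_941) (t14_9133)) (.node ⟨nat_lit 7, nat_lit 0x400020, nat_lit 0x122200, nat_lit 3, nat_lit 4, nat_lit 0x4c⟩ (t14_5037) (t14_13229))) (.node ⟨nat_lit 6, nat_lit 0x2000080030, nat_lit 0x111210, nat_lit 2, nat_lit 4, nat_lit 0x48⟩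 (.node ⟨nat_lit 7, nat_lit 0x60, nat_lit 0x1111112, nat_lit 0, nat_lit 4, nat_lit 0x4b⟩ (t14_2989) (t14_11181)) (.node ⟨nat_lit 7, nat_lit 0x4000500060, nat_lit 0x111120, nat_lit 0, nat_lit 4, nat_lit 0x48⟩ (t14_7085) (t14_15277)))) (.node ⟨nat_lit 6, nat_lit 0x1000280034, nat_lit 0x21020, nat_lit 1, nat_lit 4, nat_lit 0x46⟩ (.node ⟨nat_lit 8, nat_lit 0x800090009000c00060, nat_lit 0x10211111, nat_lit 0, nat_lit 4, nat_lit 0x48⟩ (.node ⟨nat_lit 5, nat_lit 0x10001c, nat_lit 0x11113, nat_lit 5, nat_lit 4, nat_lit 0x47⟩ (t14_1965) (t14_10157)) (.node ⟨nat_lit 7, nat_lit 0x20005000680068, nat_lit 0x221200, nat_lit 0, nat_lit 4, nat_lit 0x47⟩ (t14_6061) (t14_14253))) (.node ⟨nat_lit 6, nat_lit 0x20002000200028, nat_lit 0x21110, nat_lit 4, nat_lit 4, nat_lit 0x48⟩ (.node ⟨nat_lit 5, nat_lit 0x180014, nat_lit 0x103, nat_lit 2, nat_lit 4, nat_lit 0x45⟩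 (t14_4013) (t14_12205)) (.node ⟨nat_lit 9, nat_lit 0x8000800100010000c001100190, nat_lit 0x101211100, nat_lit 0, nat_lit 4, nat_lit 0x48⟩ (t14_8109) (.nil)))))
def t14_109 : Tr := .node ⟨nat_lit 7, nat_lit 0x2000400060, nat_lit 0x1020211, nat_lit 0, nat_lit 4, nat_lit 0x49⟩ (.nil) (.nil)
def t14_8301 : Tr := .node ⟨nat_lit 6, nat_lit 0x2000100010, nat_lit 0x230, nat_lit 0, nat_lit 4, nat_lit 0x47⟩ (.nil) (.nil)
def t14_4205 : Tr := .node ⟨nat_lit 8, nat_lit 0x80008000400088, nat_lit 0x1111211, nat_lit 1, nat_lit 4, nat_lit 0x4a⟩ (.nil) (.nil)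
def t14_12397 : Tr := .node ⟨nat_lit 7, nat_lit 0x40001000580068, nat_lit 0x1000101, nat_lit 0, nat_lit 4, nat_lit 0x45⟩ (.nil) (.nil)
def t14_2157 : Tr := .node ⟨nat_lit 8, nat_lit 0x800020008800c0, nat_lit 0x112020, nat_lit 1, nat_lit 4, nat_lit 0x49⟩ (.nil) (.nil)
def t14_10349 : Tr := .node ⟨nat_lit 6, nat_lit 0x20002800300038, nat_lit 0x2002, nat_lit 6, nat_lit 4, nat_lit 0x46⟩ (.nil) (.nil)
def t14_6253 : Tr := .node ⟨nat_lit 6, nat_lit 0x2000100010, nat_lit 0x11011, nat_lit 3, nat_lit 3, nat_lit 0x47⟩ (.nil) (.nil)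
def t14_14445 : Tr := .node ⟨nat_lit 8, nat_lit 0x800040004000a000c8, nat_lit 0x12111, nat_lit 0, nat_lit 4, nat_lit 0x47⟩ (.nil) (.nil)
def t14_1133 : Tr := .node ⟨nat_lit 6, nat_lit 0x80030, nat_lit 0x110131, nat_lit 1, nat_lit 4, nat_lit 0x48⟩ (.nil) (.nil)
def t14_9325 : Tr := .node ⟨nat_lit 7, nat_lit 0x200040004000600068, nat_lit 0x1021012, nat_lit 2, nat_lit 4, nat_lit 0x47⟩ (.nil) (.nil)
def t14_5229 : Tr := .node ⟨nat_lit 7, nat_lit 0x400040002000580070, nat_lit 0x2011, nat_lit 1, nat_lit 4, nat_lit 0x45⟩ (.nil) (.nil)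
def t14_13421 : Tr := .node ⟨nat_lit 7, nat_lit 0x40004000200048, nat_lit 0x2040, nat_lit 0, nat_lit 4, nat_lit 0x48⟩ (.nil) (.nil)
def t14_3181 : Tr := .node ⟨nat_lit 8, nat_lit 0x4000800088006000c0, nat_lit 0x10111021, nat_lit 0, nat_lit 4, nat_lit 0x48⟩ (.nil) (.nil)
def t14_11373 : Tr := .node ⟨nat_lit 7, nat_lit 0x4000200020, nat_lit 0x10110, nat_lit 0, nat_lit 3, nat_lit 0x47⟩ (.nil) (.nil)
def t14_7277 : Tr := .node ⟨nat_lit 7, nat_lit 0x10001000500060, nat_lit 0x1201021, nat_lit 0, nat_lit 4, nat_lit 0x48⟩ (.nil) (.nil)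
def t14_15469 : Tr := .node ⟨nat_lit 8, nat_lit 0x80004000200010, nat_lit 0, nat_lit 0xf, nat_lit 4, nat_lit 0x4b⟩ (.nil) (.nil)
def t14_621 : Tr := .node ⟨nat_lit 8, nat_lit 0x80004000200020, nat_lit 0x20022, nat_lit 1, nat_lit 4, nat_lit 0x4a⟩ (.nil) (.nil)
def t14_8813 : Tr := .node ⟨nat_lit 5, nat_lit 0x100012, nat_lit 0x13123, nat_lit 2, nat_lit 4, nat_lit 0x49⟩ (.nil) (.nil)
def t14_4717 : Tr := .node ⟨nat_lit 8, nat_lit 0x20004000100080, nat_lit 0x10112000, nat_lit 0, nat_lit 4, nat_lit 0x4a⟩ (.nil) (.nil)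
def t14_12909 : Tr := .node ⟨nat_lit 8, nat_lit 0x40008000800090006000d0, nat_lit 0x10201000, nat_lit 2, nat_lit 4, nat_lit 0x47⟩ (.nil) (.nil)
def t14_2669 : Tr := .node ⟨nat_lit 6, nat_lit 0x20002000100030, nat_lit 0x14200, nat_lit 0, nat_lit 3, nat_lit 0x46⟩ (.nil) (.nil)
def t14_10861 : Tr := .node ⟨nat_lit 9, nat_lit 0x400100008000800180, nat_lit 0x100202, nat_lit 3, nat_lit 4, nat_lit 0x4a⟩ (.nil) (.nil)
def t14_6765 : Tr := .node ⟨nat_lit 7, nat_lit 0x4000180064, nat_lit 0x1120101, nat_lit 0, nat_lit 4, nat_lit 0x48⟩ (.nil) (.nil)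
def t14_14957 : Tr := .node ⟨nat_lit 8, nat_lit 0x800040004000a000c000d0, nat_lit 0x110111, nat_lit 1, nat_lit 4, nat_lit 0x46⟩ (.nil) (.nil)
def t14_1645 : Tr := .node ⟨nat_lit 8, nat_lit 0x40005000c000a000d0, nat_lit 0x110220, nat_lit 0, nat_lit 4, nat_lit 0x46⟩ (.nil) (.nil)
def t14_9837 : Tr := .node ⟨nat_lit 7, nat_lit 0x50003000600070, nat_lit 0x22, nat_lit 0, nat_lit 4, nat_lit 0x44⟩ (.nil) (.nil)
def t14_5741 : Tr := .node ⟨nat_lit 8, nat_lit 0x800020002000c0, nat_lit 0x1012102, nat_lit 0, nat_lit 4, nat_lit 0x49⟩ (.nil) (.nil)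
def t14_13933 : Tr := .node ⟨nat_lit 8, nat_lit 0x800080008800c8, nat_lit 0x101002, nat_lit 0, nat_lit 4, nat_lit 0x48⟩ (.nil) (.nil)
def t14_3693 : Tr := .node ⟨nat_lit 7, nat_lit 0x20005000680068, nat_lit 0x121021, nat_lit 0, nat_lit 4, nat_lit 0x46⟩ (.nil) (.nil)
def t14_11885 : Tr := .node ⟨nat_lit 5, nat_lit 0x100008, nat_lit 0x44, nat_lit 0, nat_lit 4, nat_lit 0x47⟩ (.nil) (.nil)
def t14_7789 : Tr := .node ⟨nat_lit 7, nat_lit 0x200040004000400048, nat_lit 0x20100, nat_lit 3, nat_lit 4, nat_lit 0x47⟩ (.nil) (.nil)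
def t9_109 : Tr := .node ⟨nat_lit 6, nat_lit 0x2000080030, nat_lit 0x111111, nat_lit 0, nat_lit 3, nat_lit 0x46⟩ (.node ⟨nat_lit 5, nat_lit 0x1000080008, nat_lit 0x2032, nat_lit 1, nat_lit 3, nat_lit 0x47⟩ (.node ⟨nat_lit 6, nat_lit 0x10002000340034, nat_lit 0x302010, nat_lit 5, nat_lit 4, nat_lit 0x47⟩ (.node ⟨nat_lit 6, nat_lit 0x280030, nat_lit 0x11311, nat_lit 2, nat_lit 4, nat_lit 0x48⟩ (.node ⟨nat_lit 5, nat_lit 0x1000080014, nat_lit 0x2222, nat_lit 4, nat_lit 4, nat_lit 0x47⟩ (t14_109) (t14_8301)) (.node ⟨nat_lit 6, nat_lit 0x2000080030, nat_lit 0x2210, nat_lit 0, nat_lit 4, nat_lit 0x47⟩ (t14_4205) (t14_12397))) (.node ⟨nat_lit 6, nat_lit 0x2000100030, nat_lit 0x12011, nat_lit 4, nat_lit 4, nat_lit 0x48⟩ (.node ⟨nat_lit 7, nat_lit 0x40004000200060, nat_lit 0x112031, nat_lit 0, nat_lit 3, nat_lit 0x47⟩ (t14_2157) (t14_10349)) (.node ⟨nat_lit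 7, nat_lit 0x40002000500060, nat_lit 0x12221, nat_lit 0, nat_lit 4, nat_lit 0x47⟩ (t14_6253) (t14_14445)))) (.node ⟨nat_lit 4, nat_lit 0x80008, nat_lit 0x1222, nat_lit 4, nat_lit 3, nat_lit 0x46⟩ (.node ⟨nat_lit 3, nat_lit 6, nat_lit 0x221, nat_lit 0xd, nat_lit 4, nat_lit 0x48⟩ (.node ⟨nat_lit 7, nat_lit 0x40002000500060, nat_lit 0x110131, nat_lit 0, nat_lit 4, nat_lit 0x47⟩ (t14_1133) (t14_9325)) (.node ⟨nat_lit 5, nat_lit 0x18001c, nat_lit 0x11212, nat_lit 5, nat_lit 4, nat_lit 0x47⟩ (t14_5229) (t14_13421))) (.node ⟨nat_lit 4, nat_lit 0xc, nat_lit 0x2120, nat_lit 6, nat_lit 4, nat_lit 0x48⟩ (.node ⟨nat_lit 6, nat_lit 0x280030, nat_lit 0x120104, nat_lit 1, nat_lit 4, nat_lit 0x49⟩ (t14_3181) (t14_11373)) (.node ⟨nat_lit 4, nat_lit 0x8000a, nat_lit 0x1112, nat_lit 0xa, nat_lit 4, nat_lit 0x47⟩ (t14_7277) (t14_15469))))) (.node ⟨nat_lit 6, nat_lit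 0x10002000180024, nat_lit 0x311200, nat_lit 0, nat_lit 4, nat_lit 0x48⟩ (.node ⟨nat_lit 6, nat_lit 0x800300030, nat_lit 0x2220, nat_lit 0, nat_lit 4, nat_lit 0x46⟩ (.node ⟨nat_lit 6, nat_lit 0x2000200034, nat_lit 0x12111, nat_lit 4, nat_lit 4, nat_lit 0x48⟩ (.node ⟨nat_lit 6, nat_lit 0x2000200024, nat_lit 0x211201, nat_lit 3, nat_lit 4, nat_lit 0x4a⟩ (t14_621) (t14_8813)) (.node ⟨nat_lit 7, nat_lit 0x40002000680064, nat_lit 0x1112201, nat_lit 1, nat_lit 4, nat_lit 0x48⟩ (t14_4717) (t14_12909))) (.node ⟨nat_lit 6, nat_lit 0x800300028, nat_lit 0x11112, nat_lit 0, nat_lit 4, nat_lit 0x46⟩ (.node ⟨nat_lit 7, nat_lit 0x20004000440070, nat_lit 0x121113, nat_lit 0, nat_lit 4, nat_lit 0x47⟩ (t14_2669) (t14_10861)) (.node ⟨nat_lit 5, nat_lit 0x1000180018, nat_lit 0x11222, nat_lit 2, nat_lit 3, nat_lit 0x45⟩ (t14_6765) (t14_14957)))) (.node ⟨nat_lit 6, nat_lit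 0x2000200010, nat_lit 0x21301, nat_lit 2, nat_lit 4, nat_lit 0x49⟩ (.node ⟨nat_lit 6, nat_lit 0x2000080030, nat_lit 0x21111, nat_lit 3, nat_lit 4, nat_lit 0x48⟩ (.node ⟨nat_lit 5, nat_lit 0x1000080018, nat_lit 0x11, nat_lit 1, nat_lit 3, nat_lit 0x43⟩ (t14_1645) (t14_9837)) (.node ⟨nat_lit 7, nat_lit 0x200040003000480068, nat_lit 0x2112110, nat_lit 1, nat_lit 4, nat_lit 0x48⟩ (t14_5741) (t14_13933))) (.node ⟨nat_lit 5, nat_lit 0x1000100014, nat_lit 0x12010, nat_lit 8, nat_lit 4, nat_lit 0x48⟩ (.node ⟨nat_lit 7, nat_lit 0x40001000680068, nat_lit 0x1110000, nat_lit 0, nat_lit 4, nat_lit 0x46⟩ (t14_3693) (t14_11885)) (.node ⟨nat_lit 7, nat_lit 0x10001000600060, nat_lit 0x1101021, nat_lit 3, nat_lit 4, nat_lit 0x48⟩ (t14_7789) (.nil)))))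
def t14_365 : Tr := .node ⟨nat_lit 7, nat_lit 0x4000500060, nat_lit 0x1102113, nat_lit 0, nat_lit 4, nat_lit 0x49⟩ (.nil) (.nil)
def t14_8557 : Tr := .node ⟨nat_lit 5, nat_lit 0x1000140018, nat_lit 0x130, nat_lit 4, nat_lit 4, nat_lit 0x45⟩ (.nil) (.nil)
def t14_4461 : Tr := .node ⟨nat_lit 0xb, nat_lit 0x4000200010000400080, nat_lit 0x11100001, nat_lit 1, nat_lit 4, nat_lit 0x4d⟩ (.nil) (.nil)
def t14_12653 : Tr := .node ⟨nat_lit 7, nat_lit 0x40004000100060, nat_lit 0x13210, nat_lit 2, nat_lit 4, nat_lit 0x49⟩ (.nil) (.nil)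
def t14_2413 : Tr := .node ⟨nat_lit 6, nat_lit 0x1000280030, nat_lit 0x10302, nat_lit 2, nat_lit 4, nat_lit 0x47⟩ (.nil) (.nil)
def t14_10605 : Tr := .node ⟨nat_lit 5, nat_lit 0x1c001c, nat_lit 0x22, nat_lit 4, nat_lit 4, nat_lit 0x43⟩ (.nil) (.nil)
def t14_6509 : Tr := .node ⟨nat_lit 7, nat_lit 0x10002000400062, nat_lit 0x1100111, nat_lit 0, nat_lit 4, nat_lit 0x47⟩ (.nil) (.nil)
def t14_14701 : Tr := .node ⟨nat_lit 6, nat_lit 0x20001000300030, nat_lit 0x102211, nat_lit 1, nat_lit 3, nat_lit 0x45⟩ (.nil) (.nil)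
def t14_1389 : Tr := .node ⟨nat_lit 7, nat_lit 0x20005000500060, nat_lit 0x101103, nat_lit 3, nat_lit 4, nat_lit 0x47⟩ (.nil) (.nil)
def t14_9581 : Tr := .node ⟨nat_lit 6, nat_lit 0x2000300034, nat_lit 0x1220, nat_lit 2, nat_lit 4, nat_lit 0x46⟩ (.nil) (.nil)
def t14_5485 : Tr := .node ⟨nat_lit 5, nat_lit 0x1000080014, nat_lit 0x1310, nat_lit 5, nat_lit 4, nat_lit 0x47⟩ (.nil) (.nil)
def t14_13677 : Tr := .node ⟨nat_lit 7, nat_lit 0x4000100060, nat_lit 0x21210, nat_lit 0, nat_lit 4, nat_lit 0x49⟩ (.nil) (.nil)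
def t14_3437 : Tr := .node ⟨nat_lit 7, nat_lit 0x40001000600050, nat_lit 0x200021, nat_lit 0, nat_lit 4, nat_lit 0x47⟩ (.nil) (.nil)
def t14_11629 : Tr := .node ⟨nat_lit 8, nat_lit 0x800040005000a000a000c0, nat_lit 0x21100, nat_lit 1, nat_lit 4, nat_lit 0x46⟩ (.nil) (.nil)
def t14_7533 : Tr := .node ⟨nat_lit 7, nat_lit 0x10004000600064, nat_lit 0x231, nat_lit 1, nat_lit 4, nat_lit 0x46⟩ (.nil) (.nil)
def t14_877 : Tr := .node ⟨nat_lit 7, nat_lit 0x40001000480060, nat_lit 0x113110, nat_lit 0, nat_lit 4, nat_lit 0x48⟩ (.nil) (.nil)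
def t14_9069 : Tr := .node ⟨nat_lit 6, nat_lit 0x300038, nat_lit 0x1012, nat_lit 0, nat_lit 4, nat_lit 0x45⟩ (.nil) (.nil)
def t14_4973 : Tr := .node ⟨nat_lit 7, nat_lit 0x10002000400060, nat_lit 0x100131, nat_lit 1, nat_lit 4, nat_lit 0x48⟩ (.nil) (.nil)
def t14_13165 : Tr := .node ⟨nat_lit 5, nat_lit 0x18001c, nat_lit 0x13, nat_lit 4, nat_lit 4, nat_lit 0x44⟩ (.nil) (.nil)
def t14_2925 : Tr := .node ⟨nat_lit 8, nat_lit 0x40008000c000c0, nat_lit 0x111220, nat_lit 0, nat_lit 4, nat_lit 0x49⟩ (.nil) (.nil)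
def t14_11117 : Tr := .node ⟨nat_lit 7, nat_lit 0x400020002800280050, nat_lit 0x1020201, nat_lit 1, nat_lit 4, nat_lit 0x46⟩ (.nil) (.nil)
def t14_7021 : Tr := .node ⟨nat_lit 7, nat_lit 0x20006000600050, nat_lit 0x1010211, nat_lit 1, nat_lit 4, nat_lit 0x47⟩ (.nil) (.nil)
def t14_15213 : Tr := .node ⟨nat_lit 8, nat_lit 0x40008000900060006000e0, nat_lit 0x10100102, nat_lit 1, nat_lit 4, nat_lit 0x46⟩ (.nil) (.nil)
def t14_1901 : Tr := .node ⟨nat_lit 6, nat_lit 0x1000300028, nat_lit 0x2012, nat_lit 4, nat_lit 4, nat_lit 0x47⟩ (.nil) (.nil)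
def t14_10093 : Tr := .node ⟨nat_lit 5, nat_lit 0x800100018, nat_lit 0x333, nat_lit 2, nat_lit 4, nat_lit 0x46⟩ (.nil) (.nil)
def t14_5997 : Tr := .node ⟨nat_lit 5, nat_lit 0x100018, nat_lit 0x12310, nat_lit 3, nat_lit 4, nat_lit 0x49⟩ (.nil) (.nil)
def t14_14189 : Tr := .node ⟨nat_lit 8, nat_lit 0x80001000a000c0, nat_lit 0x1111020, nat_lit 1, nat_lit 4, nat_lit 0x49⟩ (.nil) (.nil)
def t14_3949 : Tr := .node ⟨nat_lit 7, nat_lit 0x40001000100060, nat_lit 0x113100, nat_lit 0, nat_lit 4, nat_lit 0x48⟩ (.nil) (.nil)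
def t14_12141 : Tr := .node ⟨nat_lit 8, nat_lit 0x1000a0009000c0, nat_lit 0x1011102, nat_lit 1, nat_lit 4, nat_lit 0x48⟩ (.nil) (.nil)
def t14_8045 : Tr := .node ⟨nat_lit 7, nat_lit 0x4000440060, nat_lit 0x111130, nat_lit 0, nat_lit 4, nat_lit 0x48⟩ (.nil) (.nil)
def t9_365 : Tr := .node ⟨nat_lit 4, nat_lit 0, nat_lit 0x3331, nat_lit 0, nat_lit 4, nat_lit 0x4b⟩ (.node ⟨nat_lit 4, nat_lit 0xc, nat_lit 0x2130, nat_lit 3, nat_lit 3, nat_lit 0x47⟩ (.node ⟨nat_lit 5, nat_lit 0x10, nat_lit 0x2210, nat_lit 1, nat_lit 4, nat_lit 0x48⟩ (.node ⟨nat_lit 5, nat_lit 0x40018, nat_lit 0x11122, nat_lit 2, nat_lit 4, nat_lit 0x47⟩ (.node ⟨nat_lit 7, nat_lit 0x40002000200010, nat_lit 0x20221, nat_lit 1, nat_lit 4, nat_lit 0x49⟩ (t14_365) (t14_8557)) (.node ⟨nat_lit 7, nat_lit 0x10001800600060, nat_lit 0x1012121, nat_lit 0, nat_lit 4, nat_lit 0x47⟩ (t14_4461) (t14_12653)))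 (.node ⟨nat_lit 4, nat_lit 0xc, nat_lit 0x2111, nat_lit 8, nat_lit 4, nat_lit 0x48⟩ (.node ⟨nat_lit 7, nat_lit 0x10004000200060, nat_lit 0x100113, nat_lit 3, nat_lit 4, nat_lit 0x48⟩ (t14_2413) (t14_10605)) (.node ⟨nat_lit 6, nat_lit 0x2000240030, nat_lit 0x2310, nat_lit 3, nat_lit 4, nat_lit 0x48⟩ (t14_6509) (t14_14701)))) (.node ⟨nat_lit 7, nat_lit 0x4000440030, nat_lit 0x2101102, nat_lit 1, nat_lit 4, nat_lit 0x49⟩ (.node ⟨nat_lit 6, nat_lit 0x200030, nat_lit 0x202221, nat_lit 1, nat_lit 4, nat_lit 0x4a⟩ (.node ⟨nat_lit 4, nat_lit 0xc, nat_lit 0x1013, nat_lit 5, nat_lit 4, nat_lit 0x46⟩ (t14_1389) (t14_9581)) (.node ⟨nat_lit 7, nat_lit 0x200020004000400040, nat_lit 0x121210, nat_lit 3, nat_lit 4, nat_lit 0x49⟩ (t14_5485) (t14_13677))) (.node ⟨nat_lit 5, nat_lit 0x40018, nat_lit 0x30112, nat_lit 4, nat_lit 4, nat_lit 0x48⟩ (.node ⟨nat_lit 5,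 nat_lit 0x180018, nat_lit 0x200, nat_lit 5, nat_lit 4, nat_lit 0x46⟩ (t14_3437) (t14_11629)) (.node ⟨nat_lit 8, nat_lit 0x800020002000200040, nat_lit 0x1001101, nat_lit 1, nat_lit 4, nat_lit 0x49⟩ (t14_7533) (.nil))))) (.node ⟨nat_lit 5, nat_lit 0x100018, nat_lit 0x21131, nat_lit 3, nat_lit 4, nat_lit 0x49⟩ (.node ⟨nat_lit 6, nat_lit 0x2000100024, nat_lit 0x212010, nat_lit 0, nat_lit 4, nat_lit 0x48⟩ (.node ⟨nat_lit 7, nat_lit 0x20004000100044, nat_lit 0x1010211, nat_lit 0, nat_lit 4, nat_lit 0x48⟩ (.node ⟨nat_lit 7, nat_lit 0x4000500064, nat_lit 0x201210, nat_lit 1, nat_lit 4, nat_lit 0x48⟩ (t14_877) (t14_9069)) (.node ⟨nat_lit 6, nat_lit 0x200030, nat_lit 0x122120, nat_lit 1, nat_lit 4, nat_lit 0x4a⟩ (t14_4973) (t14_13165))) (.node ⟨nat_lit 4, nat_lit 0x8000c, nat_lit 0x1212, nat_lit 6, nat_lit 4, nat_lit 0x47⟩ (.node ⟨nat_lit 5, nat_lit 0x100012,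 nat_lit 0x11121, nat_lit 8, nat_lit 4, nat_lit 0x49⟩ (t14_2925) (t14_11117)) (.node ⟨nat_lit 7, nat_lit 0x400020002800500068, nat_lit 0x122010, nat_lit 0, nat_lit 4, nat_lit 0x46⟩ (t14_7021) (t14_15213)))) (.node ⟨nat_lit 4, nat_lit 8, nat_lit 0x213, nat_lit 4, nat_lit 4, nat_lit 0x47⟩ (.node ⟨nat_lit 7, nat_lit 0x4000600018, nat_lit 0x1021111, nat_lit 1, nat_lit 4, nat_lit 0x49⟩ (.node ⟨nat_lit 6, nat_lit 0x1800280030, nat_lit 0x110114, nat_lit 2, nat_lit 4, nat_lit 0x47⟩ (t14_1901) (t14_10093)) (.node ⟨nat_lit 7, nat_lit 0x20004000600070, nat_lit 0x20203, nat_lit 0, nat_lit 4, nat_lit 0x47⟩ (t14_5997) (t14_14189))) (.node ⟨nat_lit 5, nat_lit 0x18, nat_lit 0x10000, nat_lit 0, nat_lit 4, nat_lit 0x44⟩ (.node ⟨nat_lit 7, nat_lit 0x50005000300060, nat_lit 0x100042, nat_lit 0, nat_lit 4, nat_lit 0x46⟩ (t14_3949) (t14_12141)) (.node ⟨nat_lit 8, nat_lit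 0x800020009000c00060, nat_lit 0x10112111, nat_lit 1, nat_lit 4, nat_lit 0x48⟩ (t14_8045) (.nil)))))
def t14_237 : Tr := .node ⟨nat_lit 6, nat_lit 0x2000080030, nat_lit 0x222101, nat_lit 0, nat_lit 3, nat_lit 0x48⟩ (.nil) (.nil)
def t14_8429 : Tr := .node ⟨nat_lit 6, nat_lit 0x800300030, nat_lit 0x31, nat_lit 2, nat_lit 4, nat_lit 0x45⟩ (.nil) (.nil)
def t14_4333 : Tr := .node ⟨nat_lit 8, nat_lit 0x8000200040009000c0, nat_lit 0x11111011, nat_lit 1, nat_lit 4, nat_lit 0x49⟩ (.nil) (.nil)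
def t14_12525 : Tr := .node ⟨nat_lit 7, nat_lit 0x1000600050, nat_lit 0x101100, nat_lit 0, nat_lit 4, nat_lit 0x47⟩ (.nil) (.nil)
def t14_2285 : Tr := .node ⟨nat_lit 5, nat_lit 0x800080010, nat_lit 0x20210, nat_lit 7, nat_lit 4, nat_lit 0x48⟩ (.nil) (.nil)
def t14_10477 : Tr := .node ⟨nat_lit 8, nat_lit 0x800040009000a000c8, nat_lit 0x1010220, nat_lit 2, nat_lit 4, nat_lit 0x47⟩ (.nil) (.nil)
def t14_6381 : Tr := .node ⟨nat_lit 6, nat_lit 0x20002000100028, nat_lit 0x20, nat_lit 2, nat_lit 4, nat_lit 0x45⟩ (.nil) (.nil)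
def t14_14573 : Tr := .node ⟨nat_lit 7, nat_lit 0x40001000200060, nat_lit 0x10013, nat_lit 2, nat_lit 3, nat_lit 0x46⟩ (.nil) (.nil)
def t14_1261 : Tr := .node ⟨nat_lit 7, nat_lit 0x20001000400042, nat_lit 0x1000211, nat_lit 0, nat_lit 4, nat_lit 0x47⟩ (.nil) (.nil)
def t14_9453 : Tr := .node ⟨nat_lit 9, nat_lit 0x100008000a001400140018001a0, nat_lit 0x11100031, nat_lit 0, nat_lit 4, nat_lit 0x47⟩ (.nil) (.nil)
def t14_5357 : Tr := .node ⟨nat_lit 6, nat_lit 0x2000240030, nat_lit 0x111310, nat_lit 3, nat_lit 4, nat_lit 0x49⟩ (.nil) (.nil)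
def t14_13549 : Tr := .node ⟨nat_lit 3, nat_lit 4, nat_lit 0x130, nat_lit 6, nat_lit 4, nat_lit 0x46⟩ (.nil) (.nil)
def t14_3309 : Tr := .node ⟨nat_lit 6, nat_lit 0x20001000300034, nat_lit 0x2210, nat_lit 5, nat_lit 4, nat_lit 0x46⟩ (.nil) (.nil)
def t14_11501 : Tr := .node ⟨nat_lit 7, nat_lit 0x20002000400062, nat_lit 0x1011000, nat_lit 1, nat_lit 4, nat_lit 0x47⟩ (.nil) (.nil)
def t14_7405 : Tr := .node ⟨nat_lit 8, nat_lit 0x80008000400040, nat_lit 0x1210021, nat_lit 0, nat_lit 4, nat_lit 0x4b⟩ (.nil) (.nil)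
def t14_749 : Tr := .node ⟨nat_lit 6, nat_lit 0x80030, nat_lit 0x1113, nat_lit 0, nat_lit 4, nat_lit 0x47⟩ (.nil) (.nil)
def t14_8941 : Tr := .node ⟨nat_lit 6, nat_lit 0x300038, nat_lit 0x1040, nat_lit 0, nat_lit 4, nat_lit 0x46⟩ (.nil) (.nil)
def t14_4845 : Tr := .node ⟨nat_lit 7, nat_lit 0x20002000500068, nat_lit 0x1111021, nat_lit 2, nat_lit 4, nat_lit 0x48⟩ (.nil) (.nil)
def t14_13037 : Tr := .node ⟨nat_lit 7, nat_lit 0x200040004800300068, nat_lit 0x22000, nat_lit 0, nat_lit 4, nat_lit 0x45⟩ (.nil) (.nil)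
def t14_2797 : Tr := .node ⟨nat_lit 6, nat_lit 0x1000100020, nat_lit 0x12002, nat_lit 2, nat_lit 4, nat_lit 0x48⟩ (.nil) (.nil)
def t14_10989 : Tr := .node ⟨nat_lit 8, nat_lit 0x400040008000c000d0, nat_lit 0x111022, nat_lit 2, nat_lit 4, nat_lit 0x48⟩ (.nil) (.nil)
def t14_6893 : Tr := .node ⟨nat_lit 9, nat_lit 0x80010001000104, nat_lit 0x1110000, nat_lit 3, nat_lit 4, nat_lit 0x4b⟩ (.nil) (.nil)
def t14_15085 : Tr := .node ⟨nat_lit 8, nat_lit 0x800080004000c0, nat_lit 0x1112011, nat_lit 0, nat_lit 4, nat_lit 0x4a⟩ (.nil) (.nil)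
def t14_1773 : Tr := .node ⟨nat_lit 7, nat_lit 0x800600050, nat_lit 0x1020012, nat_lit 3, nat_lit 4, nat_lit 0x49⟩ (.nil) (.nil)
def t14_9965 : Tr := .node ⟨nat_lit 6, nat_lit 0x3000300030, nat_lit 0x1320, nat_lit 6, nat_lit 4, nat_lit 0x47⟩ (.nil) (.nil)
def t14_5869 : Tr := .node ⟨nat_lit 7, nat_lit 0x4000100060, nat_lit 0x11011, nat_lit 2, nat_lit 4, nat_lit 0x48⟩ (.nil) (.nil)
def t14_14061 : Tr := .node ⟨nat_lit 7, nat_lit 0x4000440064, nat_lit 0x111000, nat_lit 1, nat_lit 4, nat_lit 0x47⟩ (.nil) (.nil)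
def t14_3821 : Tr := .node ⟨nat_lit 9, nat_lit 0x10000800080008000400120, nat_lit 0x101021100, nat_lit 1, nat_lit 4, nat_lit 0x4a⟩ (.nil) (.nil)
def t14_12013 : Tr := .node ⟨nat_lit 7, nat_lit 0x40001000600068, nat_lit 0x112101, nat_lit 0, nat_lit 4, nat_lit 0x47⟩ (.nil) (.nil)
def t14_7917 : Tr := .node ⟨nat_lit 9, nat_lit 0x100010000400110012001a0, nat_lit 0x10110013, nat_lit 0, nat_lit 4, nat_lit 0x48⟩ (.nil) (.nil)
def t9_237 : Tr := .node ⟨nat_lit 4, nat_lit 8, nat_lit 0x2330, nat_lit 0, nat_lit 3, nat_lit 0x48⟩ (.node ⟨nat_lit 7, nat_lit 0x10002000400062, nat_lit 0x3000012, nat_lit 1, nat_lit 4, nat_lit 0x48⟩ (.node ⟨nat_lit 7, nat_lit 0x40001000200048, nat_lit 0x3111111, nat_lit 0, nat_lit 4, nat_lit 0x4a⟩ (.node ⟨nat_lit 6, nat_lit 0x800280030, nat_lit 0x111023, nat_lit 0, nat_lit 4, nat_lit 0x47⟩ (.node ⟨nat_lit 9, nat_lit 0x10000800040,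 nat_lit 0x2111002, nat_lit 0, nat_lit 4, nat_lit 0x4d⟩ (t14_237) (t14_8429)) (.node ⟨nat_lit 8, nat_lit 0x800020004000a000c0, nat_lit 0x120031, nat_lit 0, nat_lit 4, nat_lit 0x48⟩ (t14_4333) (t14_12525))) (.node ⟨nat_lit 7, nat_lit 0x200040, nat_lit 0x2121102, nat_lit 1, nat_lit 4, nat_lit 0x4c⟩ (.node ⟨nat_lit 7, nat_lit 0x400040002000500060, nat_lit 0x110203, nat_lit 4, nat_lit 4, nat_lit 0x48⟩ (t14_2285) (t14_10477)) (.node ⟨nat_lit 6, nat_lit 0x800200030, nat_lit 0x21201, nat_lit 3, nat_lit 4, nat_lit 0x48⟩ (t14_6381) (t14_14573)))) (.node ⟨nat_lit 1, nat_lit 0, nat_lit 2, nat_lit 0x15, nat_lit 4, nat_lit 0x47⟩ (.node ⟨nat_lit 7, nat_lit 0x60, nat_lit 0x2121111, nat_lit 0, nat_lit 4, nat_lit 0x4c⟩ (.node ⟨nat_lit 7, nat_lit 0x4000100020, nat_lit 0x101000, nat_lit 1, nat_lit 4, nat_lit 0x48⟩ (t14_1261) (t14_9453)) (.node ⟨nat_lit 6, nat_lit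 0x200020, nat_lit 0x121122, nat_lit 4, nat_lit 4, nat_lit 0x4b⟩ (t14_5357) (t14_13549))) (.node ⟨nat_lit 6, nat_lit 0x2000080030, nat_lit 0x112003, nat_lit 1, nat_lit 4, nat_lit 0x48⟩ (.node ⟨nat_lit 9, nat_lit 0x400080010000200180, nat_lit 0x110001003, nat_lit 0, nat_lit 4, nat_lit 0x4a⟩ (t14_3309) (t14_11501)) (.node ⟨nat_lit 7, nat_lit 0x400020002000500050, nat_lit 0x1011121, nat_lit 0, nat_lit 4, nat_lit 0x47⟩ (t14_7405) (.nil))))) (.node ⟨nat_lit 5, nat_lit 0x10, nat_lit 0x3110, nat_lit 4, nat_lit 4, nat_lit 0x49⟩ (.node ⟨nat_lit 7, nat_lit 0x1000100060, nat_lit 0x2101002, nat_lit 1, nat_lit 4, nat_lit 0x49⟩ (.node ⟨nat_lit 8, nat_lit 0x8000800040, nat_lit 0x1211001, nat_lit 0, nat_lit 4, nat_lit 0x4b⟩ (.node ⟨nat_lit 7, nat_lit 0x1000600060, nat_lit 0x1022111, nat_lit 0, nat_lit 4, nat_lit 0x49⟩ (t14_749) (t14_8941)) (.node ⟨nat_lit 7, nat_lit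 0x20003000500068, nat_lit 0x1002020, nat_lit 1, nat_lit 4, nat_lit 0x46⟩ (t14_4845) (t14_13037))) (.node ⟨nat_lit 5, nat_lit 0x40018, nat_lit 0x11012, nat_lit 3, nat_lit 4, nat_lit 0x46⟩ (.node ⟨nat_lit 6, nat_lit 0x280030, nat_lit 0x21123, nat_lit 0, nat_lit 4, nat_lit 0x48⟩ (t14_2797) (t14_10989)) (.node ⟨nat_lit 8, nat_lit 0x800020002000c000d0, nat_lit 0x11011022, nat_lit 0, nat_lit 4, nat_lit 0x48⟩ (t14_6893) (t14_15085)))) (.node ⟨nat_lit 6, nat_lit 0x1000200030, nat_lit 0x111121, nat_lit 1, nat_lit 4, nat_lit 0x48⟩ (.node ⟨nat_lit 7, nat_lit 0x40001000480060, nat_lit 0x1012111, nat_lit 0, nat_lit 4, nat_lit 0x48⟩ (.node ⟨nat_lit 6, nat_lit 0x300030, nat_lit 0x1120, nat_lit 0, nat_lit 4, nat_lit 0x46⟩ (t14_1773) (t14_9965)) (.node ⟨nat_lit 8, nat_lit 0x800040004000c0, nat_lit 0x220102, nat_lit 0, nat_lit 4, nat_lit 0x4a⟩ (t14_5869) (t14_14061)))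 (.node ⟨nat_lit 8, nat_lit 0x800c00030, nat_lit 0x10201102, nat_lit 0, nat_lit 4, nat_lit 0x4a⟩ (.node ⟨nat_lit 7, nat_lit 0x40004800600030, nat_lit 0x1110003, nat_lit 0, nat_lit 4, nat_lit 0x47⟩ (t14_3821) (t14_12013)) (.node ⟨nat_lit 8, nat_lit 0x8000200020009000c0, nat_lit 0x10021001, nat_lit 5, nat_lit 4, nat_lit 0x49⟩ (t14_7917) (.nil)))))
def t14_493 : Tr := .node ⟨nat_lit 8, nat_lit 0x4000800080, nat_lit 0x11111110, nat_lit 1, nat_lit 4, nat_lit 0x4c⟩ (.nil) (.nil)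
def t14_8685 : Tr := .node ⟨nat_lit 7, nat_lit 0x400020002000500068, nat_lit 2, nat_lit 1, nat_lit 4, nat_lit 0x44⟩ (.nil) (.nil)
def t14_4589 : Tr := .node ⟨nat_lit 7, nat_lit 0x10001800500060, nat_lit 0x101013, nat_lit 0, nat_lit 4, nat_lit 0x46⟩ (.nil) (.nil)
def t14_12781 : Tr := .node ⟨nat_lit 6, nat_lit 0x1000200030, nat_lit 0x1020, nat_lit 7, nat_lit 4, nat_lit 0x48⟩ (.nil) (.nil)
def t14_2541 : Tr := .node ⟨nat_lit 7, nat_lit 0x4000500060, nat_lit 0x102120, nat_lit 1, nat_lit 4, nat_lit 0x48⟩ (.nil) (.nil)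
def t14_10733 : Tr := .node ⟨nat_lit 7, nat_lit 0x400020002000500060, nat_lit 0x11020, nat_lit 2, nat_lit 4, nat_lit 0x46⟩ (.nil) (.nil)
def t14_6637 : Tr := .node ⟨nat_lit 7, nat_lit 0x4000200044, nat_lit 0x111210, nat_lit 1, nat_lit 4, nat_lit 0x49⟩ (.nil) (.nil)
def t14_14829 : Tr := .node ⟨nat_lit 7, nat_lit 0x20005000500060, nat_lit 0x11102, nat_lit 0, nat_lit 4, nat_lit 0x46⟩ (.nil) (.nil)
def t14_1517 : Tr := .node ⟨nat_lit 8, nat_lit 0x800040004000a000e000d0, nat_lit 0x121101, nat_lit 1, nat_lit 4, nat_lit 0x46⟩ (.nil) (.nil)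
def t14_9709 : Tr := .node ⟨nat_lit 9, nat_lit 0x10001000080012001200110, nat_lit 0x11110110, nat_lit 0, nat_lit 4, nat_lit 0x49⟩ (.nil) (.nil)
def t14_5613 : Tr := .node ⟨nat_lit 8, nat_lit 0x8000a000b000b000d0, nat_lit 0x11002201, nat_lit 1, nat_lit 4, nat_lit 0x46⟩ (.nil) (.nil)
def t14_13805 : Tr := .node ⟨nat_lit 7, nat_lit 0x40004000200048, nat_lit 0x12120, nat_lit 0, nat_lit 4, nat_lit 0x48⟩ (.nil) (.nil)
def t14_3565 : Tr := .node ⟨nat_lit 7, nat_lit 0x10005000300060, nat_lit 0x2011, nat_lit 2, nat_lit 4, nat_lit 0x46⟩ (.nil) (.nil)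
def t14_11757 : Tr := .node ⟨nat_lit 3, nat_lit 6, nat_lit 0x410, nat_lit 3, nat_lit 3, nat_lit 0x46⟩ (.nil) (.nil)
def t14_7661 : Tr := .node ⟨nat_lit 4, nat_lit 0x8000a, nat_lit 0x102, nat_lit 8, nat_lit 4, nat_lit 0x45⟩ (.nil) (.nil)
def t14_1005 : Tr := .node ⟨nat_lit 7, nat_lit 0x10002000400060, nat_lit 0x1000011, nat_lit 1, nat_lit 4, nat_lit 0x47⟩ (.nil) (.nil)
def t14_9197 : Tr := .node ⟨nat_lit 6, nat_lit 0x20001000100010, nat_lit 0x300221, nat_lit 0, nat_lit 3, nat_lit 0x47⟩ (.nil) (.nil)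
def t14_5101 : Tr := .node ⟨nat_lit 8, nat_lit 0x800040004000a000c0, nat_lit 0x111013, nat_lit 0, nat_lit 4, nat_lit 0x48⟩ (.nil) (.nil)
def t14_13293 : Tr := .node ⟨nat_lit 6, nat_lit 0x200030, nat_lit 0x2140, nat_lit 1, nat_lit 4, nat_lit 0x49⟩ (.nil) (.nil)
def t14_3053 : Tr := .node ⟨nat_lit 7, nat_lit 0x40002000500064, nat_lit 0x103111, nat_lit 1, nat_lit 4, nat_lit 0x47⟩ (.nil) (.nil)
def t14_11245 : Tr := .node ⟨nat_lit 4, nat_lit 0xc000c, nat_lit 0x1010, nat_lit 9, nat_lit 4, nat_lit 0x45⟩ (.nil) (.nil)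
def t14_7149 : Tr := .node ⟨nat_lit 4, nat_lit 0xc000c, nat_lit 0x1011, nat_lit 9, nat_lit 4, nat_lit 0x45⟩ (.nil) (.nil)
def t14_15341 : Tr := .node ⟨nat_lit 8, nat_lit 0x80008000400040009000e0, nat_lit 0x10121011, nat_lit 0, nat_lit 4, nat_lit 0x48⟩ (.nil) (.nil)
def t14_2029 : Tr := .node ⟨nat_lit 6, nat_lit 0x10002000300030, nat_lit 0x3310, nat_lit 3, nat_lit 4, nat_lit 0x47⟩ (.nil) (.nil)
def t14_10221 : Tr := .node ⟨nat_lit 5, nat_lit 0x1000100018, nat_lit 0x113, nat_lit 5, nat_lit 4, nat_lit 0x46⟩ (.nil) (.nil)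
def t14_6125 : Tr := .node ⟨nat_lit 4, nat_lit 0x80004, nat_lit 0x100, nat_lit 9, nat_lit 4, nat_lit 0x46⟩ (.nil) (.nil)
def t14_14317 : Tr := .node ⟨nat_lit 8, nat_lit 0x40004000a000d000c8, nat_lit 0x1100310, nat_lit 1, nat_lit 4, nat_lit 0x47⟩ (.nil) (.nil)
def t14_4077 : Tr := .node ⟨nat_lit 8, nat_lit 0x4000400080008000d0, nat_lit 0x1110201, nat_lit 2, nat_lit 4, nat_lit 0x49⟩ (.nil) (.nil)
def t14_12269 : Tr := .node ⟨nat_lit 8, nat_lit 0x80002000c000d000e0, nat_lit 0x10013, nat_lit 3, nat_lit 4, nat_lit 0x46⟩ (.nil) (.nil)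
def t14_8173 : Tr := .node ⟨nat_lit 8, nat_lit 0x800040004000200090, nat_lit 0x120003, nat_lit 0, nat_lit 4, nat_lit 0x48⟩ (.nil) (.nil)
def t9_493 : Tr := .node ⟨nat_lit 4, nat_lit 8, nat_lit 0x1313, nat_lit 5, nat_lit 4, nat_lit 0x49⟩ (.node ⟨nat_lit 6, nat_lit 0x20001000280028, nat_lit 0x310022, nat_lit 2, nat_lit 4, nat_lit 0x48⟩ (.node ⟨nat_lit 6, nat_lit 0x800100020, nat_lit 0x112211, nat_lit 1, nat_lit 4, nat_lit 0x49⟩ (.node ⟨nat_lit 2, nat_lit 0, nat_lit 0x31, nat_lit 0xc, nat_lit 4, nat_lit 0x47⟩ (.node ⟨nat_lit 7, nat_lit 0x400040002000480050, nat_lit 0x211111, nat_lit 4, nat_lit 4, nat_lit 0x48⟩ (t14_493) (t14_8685)) (.node ⟨nat_lit 7, nat_lit 0x4000100060, nat_lit 0x1211102, nat_lit 1, nat_lit 4, nat_lit 0x4a⟩ (t14_4589) (t14_12781))) (.node ⟨nat_lit 7, nat_lit 0x40001000600050, nat_lit 0x11202, nat_lit 0, nat_lit 4, nat_lit 0x47⟩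 (.node ⟨nat_lit 8, nat_lit 0x80008000400040, nat_lit 0x1111031, nat_lit 0, nat_lit 4, nat_lit 0x4b⟩ (t14_2541) (t14_10733)) (.node ⟨nat_lit 6, nat_lit 0x2000200010, nat_lit 0x11201, nat_lit 3, nat_lit 4, nat_lit 0x48⟩ (t14_6637) (t14_14829)))) (.node ⟨nat_lit 6, nat_lit 0x80030, nat_lit 0x102111, nat_lit 3, nat_lit 4, nat_lit 0x49⟩ (.node ⟨nat_lit 8, nat_lit 0x8000800040, nat_lit 0x2211101, nat_lit 0, nat_lit 4, nat_lit 0x4c⟩ (.node ⟨nat_lit 7, nat_lit 0x40002000480060, nat_lit 0x1013121, nat_lit 0, nat_lit 4, nat_lit 0x49⟩ (t14_1517) (t14_9709)) (.node ⟨nat_lit 6, nat_lit 0x20002000100030, nat_lit 0x112021, nat_lit 0, nat_lit 3, nat_lit 0x46⟩ (t14_5613) (t14_13805))) (.node ⟨nat_lit 7, nat_lit 0x400020, nat_lit 0x1120010, nat_lit 0, nat_lit 3, nat_lit 0x49⟩ (.node ⟨nat_lit 6, nat_lit 0x200030, nat_lit 0x10001, nat_lit 0, nat_lit 4, nat_lit 0x46⟩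 (t14_3565) (t14_11757)) (.node ⟨nat_lit 7, nat_lit 0x40001000600060, nat_lit 0x1012010, nat_lit 0, nat_lit 3, nat_lit 0x46⟩ (t14_7661) (.nil))))) (.node ⟨nat_lit 5, nat_lit 0x18, nat_lit 0x20312, nat_lit 2, nat_lit 3, nat_lit 0x48⟩ (.node ⟨nat_lit 4, nat_lit 0, nat_lit 0x2221, nat_lit 6, nat_lit 4, nat_lit 0x4a⟩ (.node ⟨nat_lit 8, nat_lit 0x80, nat_lit 0x11111110, nat_lit 0, nat_lit 4, nat_lit 0x4d⟩ (.node ⟨nat_lit 4, nat_lit 0x8000c, nat_lit 0x1131, nat_lit 0xb, nat_lit 4, nat_lit 0x48⟩ (t14_1005) (t14_9197)) (.node ⟨nat_lit 7, nat_lit 0x400040, nat_lit 0x222100, nat_lit 3, nat_lit 4, nat_lit 0x4c⟩ (t14_5101) (t14_13293))) (.node ⟨nat_lit 6, nat_lit 0x200030, nat_lit 0x101120, nat_lit 0, nat_lit 3, nat_lit 0x47⟩ (.node ⟨nat_lit 7, nat_lit 0x40001000680068, nat_lit 0x2012111, nat_lit 1, nat_lit 4, nat_lit 0x48⟩ (t14_3053) (t14_11245)) (.node ⟨nat_lit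 7, nat_lit 0x4000600050, nat_lit 0x11202, nat_lit 1, nat_lit 4, nat_lit 0x48⟩ (t14_7149) (t14_15341)))) (.node ⟨nat_lit 6, nat_lit 0x10002000180024, nat_lit 0x121200, nat_lit 0, nat_lit 4, nat_lit 0x47⟩ (.node ⟨nat_lit 7, nat_lit 0x1000180060, nat_lit 0x1112111, nat_lit 0, nat_lit 4, nat_lit 0x49⟩ (.node ⟨nat_lit 7, nat_lit 0x40004000200020, nat_lit 0x121032, nat_lit 0, nat_lit 4, nat_lit 0x4a⟩ (t14_2029) (t14_10221)) (.node ⟨nat_lit 7, nat_lit 0x1000500060, nat_lit 0x1112020, nat_lit 0, nat_lit 4, nat_lit 0x49⟩ (t14_6125) (t14_14317))) (.node ⟨nat_lit 5, nat_lit 0x1c, nat_lit 0x22223, nat_lit 0, nat_lit 4, nat_lit 0x49⟩ (.node ⟨nat_lit 6, nat_lit 0x300038, nat_lit 0x100011, nat_lit 0, nat_lit 4, nat_lit 0x45⟩ (t14_4077) (t14_12269)) (.node ⟨nat_lit 4, nat_lit 0xc000c, nat_lit 0x1110, nat_lit 2, nat_lit 3, nat_lit 0x44⟩ (t14_8173) (.nil)))))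
def t14_29 : Tr := .node ⟨nat_lit 7, nat_lit 0x4000100020, nat_lit 0x111110, nat_lit 1, nat_lit 4, nat_lit 0x49⟩ (.nil) (.nil)
def t14_8221 : Tr := .node ⟨nat_lit 8, nat_lit 0x800040004000a000a000e0, nat_lit 0x111103, nat_lit 0, nat_lit 4, nat_lit 0x46⟩ (.nil) (.nil)
def t14_4125 : Tr := .node ⟨nat_lit 9, nat_lit 0x1000100008001080110, nat_lit 0x11111011, nat_lit 1, nat_lit 4, nat_lit 0x4a⟩ (.nil) (.nil)
def t14_12317 : Tr := .node ⟨nat_lit 7, nat_lit 0x20006000500070, nat_lit 0x2103, nat_lit 0, nat_lit 4, nat_lit 0x45⟩ (.nil) (.nil)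
def t14_2077 : Tr := .node ⟨nat_lit 6, nat_lit 0x800080030, nat_lit 0x100302, nat_lit 1, nat_lit 4, nat_lit 0x47⟩ (.nil) (.nil)
def t14_10269 : Tr := .node ⟨nat_lit 8, nat_lit 0x4000a0005000c8, nat_lit 0x1001202, nat_lit 0, nat_lit 4, nat_lit 0x47⟩ (.nil) (.nil)
def t14_6173 : Tr := .node ⟨nat_lit 3, nat_lit 6, nat_lit 0x101, nat_lit 0xa, nat_lit 4, nat_lit 0x45⟩ (.nil) (.nil)
def t14_14365 : Tr := .node ⟨nat_lit 7, nat_lit 0x40001000100060, nat_lit 0x1110, nat_lit 2, nat_lit 4, nat_lit 0x47⟩ (.nil) (.nil)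
def t14_1053 : Tr := .node ⟨nat_lit 4, nat_lit 8, nat_lit 0x112, nat_lit 6, nat_lit 4, nat_lit 0x47⟩ (.nil) (.nil)
def t14_9245 : Tr := .node ⟨nat_lit 6, nat_lit 0x20001000280038, nat_lit 0x1011, nat_lit 4, nat_lit 4, nat_lit 0x45⟩ (.nil) (.nil)
def t14_5149 : Tr := .node ⟨nat_lit 7, nat_lit 0x20002000600050, nat_lit 0x11131, nat_lit 0, nat_lit 4, nat_lit 0x47⟩ (.nil) (.nil)
def t14_13341 : Tr := .node ⟨nat_lit 5, nat_lit 0x18, nat_lit 2, nat_lit 0, nat_lit 4, nat_lit 0x44⟩ (.nil) (.nil)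
def t14_3101 : Tr := .node ⟨nat_lit 7, nat_lit 0x20004000600064, nat_lit 0x110121, nat_lit 0, nat_lit 4, nat_lit 0x47⟩ (.nil) (.nil)
def t14_11293 : Tr := .node ⟨nat_lit 5, nat_lit 0x800100018, nat_lit 0x210, nat_lit 7, nat_lit 4, nat_lit 0x46⟩ (.nil) (.nil)
def t14_7197 : Tr := .node ⟨nat_lit 7, nat_lit 0x10001000500060, nat_lit 0x102011, nat_lit 1, nat_lit 4, nat_lit 0x47⟩ (.nil) (.nil)
def t14_15389 : Tr := .node ⟨nat_lit 0xa, nat_lit 0x20002000100010000800080, nat_lit 0x1101010, nat_lit 4, nat_lit 4, nat_lit 0x4b⟩ (.nil) (.nil)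
def t14_541 : Tr := .node ⟨nat_lit 5, nat_lit 0x800100018, nat_lit 0x122, nat_lit 3, nat_lit 4, nat_lit 0x45⟩ (.nil) (.nil)
def t14_8733 : Tr := .node ⟨nat_lit 8, nat_lit 0x8000400020009000c0, nat_lit 0x11010, nat_lit 2, nat_lit 4, nat_lit 0x47⟩ (.nil) (.nil)
def t14_4637 : Tr := .node ⟨nat_lit 7, nat_lit 0x20004000100060, nat_lit 0x112101, nat_lit 0, nat_lit 4, nat_lit 0x48⟩ (.nil) (.nil)
def t14_12829 : Tr := .node ⟨nat_lit 7, nat_lit 0x200020004000600070, nat_lit 0x10202, nat_lit 2, nat_lit 4, nat_lit 0x46⟩ (.nil) (.nil)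
def t14_2589 : Tr := .node ⟨nat_lit 4, nat_lit 0x8000a, nat_lit 0x1100, nat_lit 3, nat_lit 4, nat_lit 0x44⟩ (.nil) (.nil)
def t14_10781 : Tr := .node ⟨nat_lit 6, nat_lit 0x20002000100010, nat_lit 0x112111, nat_lit 4, nat_lit 3, nat_lit 0x47⟩ (.nil) (.nil)
def t14_6685 : Tr := .node ⟨nat_lit 4, nat_lit 0x40008, nat_lit 0x1111, nat_lit 0xc, nat_lit 4, nat_lit 0x48⟩ (.nil) (.nil)
def t14_14877 : Tr := .node ⟨nat_lit 8, nat_lit 0x80008000200040, nat_lit 0x1211020, nat_lit 0, nat_lit 3, nat_lit 0x49⟩ (.nil) (.nil)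
def t14_1565 : Tr := .node ⟨nat_lit 7, nat_lit 0x40002000500060, nat_lit 0x12003, nat_lit 1, nat_lit 4, nat_lit 0x47⟩ (.nil) (.nil)
def t14_9757 : Tr := .node ⟨nat_lit 8, nat_lit 0x800020002000c000c0, nat_lit 0x11020, nat_lit 0, nat_lit 4, nat_lit 0x47⟩ (.nil) (.nil)
def t14_5661 : Tr := .node ⟨nat_lit 7, nat_lit 0x40004000100060, nat_lit 0x100021, nat_lit 1, nat_lit 4, nat_lit 0x47⟩ (.nil) (.nil)
def t14_13853 : Tr := .node ⟨nat_lit 8, nat_lit 0x2000200040008000c0, nat_lit 0x20200, nat_lit 2, nat_lit 4, nat_lit 0x48⟩ (.nil) (.nil)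
def t14_3613 : Tr := .node ⟨nat_lit 8, nat_lit 0x20002000c000a0, nat_lit 0x10012021, nat_lit 0, nat_lit 4, nat_lit 0x49⟩ (.nil) (.nil)
def t14_11805 : Tr := .node ⟨nat_lit 6, nat_lit 0x1000300028, nat_lit 0x100123, nat_lit 0, nat_lit 4, nat_lit 0x46⟩ (.nil) (.nil)
def t14_7709 : Tr := .node ⟨nat_lit 6, nat_lit 0x2000300034, nat_lit 0x1021, nat_lit 2, nat_lit 4, nat_lit 0x45⟩ (.nil) (.nil)
def t9_29 : Tr := .node ⟨nat_lit 6, nat_lit 0x30, nat_lit 0x321111, nat_lit 0, nat_lit 4, nat_lit 0x4b⟩ (.node ⟨nat_lit 6, nat_lit 0x1000200022, nat_lit 0x223200, nat_lit 1, nat_lit 4, nat_lit 0x4a⟩ (.node ⟨nat_lit 4, nat_lit 8, nat_lit 0x311, nat_lit 4, nat_lit 4, nat_lit 0x47⟩ (.node ⟨nat_lit 7, nat_lit 0x4000100060, nat_lit 0x1012111, nat_lit 0, nat_lit 4, nat_lit 0x49⟩ (.node ⟨nat_lit 5, nat_lit 0x1000100008, nat_lit 0x2213, nat_lit 3, nat_lit 4, nat_lit 0x48⟩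 (t14_29) (t14_8221)) (.node ⟨nat_lit 5, nat_lit 0x1000080008, nat_lit 0x1000, nat_lit 3, nat_lit 3, nat_lit 0x45⟩ (t14_4125) (t14_12317))) (.node ⟨nat_lit 5, nat_lit 0x40018, nat_lit 0x31222, nat_lit 1, nat_lit 4, nat_lit 0x49⟩ (.node ⟨nat_lit 6, nat_lit 0x20002000100030, nat_lit 0x11013, nat_lit 7, nat_lit 4, nat_lit 0x48⟩ (t14_2077) (t14_10269)) (.node ⟨nat_lit 8, nat_lit 0x8000800020002000c0, nat_lit 0x121200, nat_lit 0, nat_lit 4, nat_lit 0x49⟩ (t14_6173) (t14_14365)))) (.node ⟨nat_lit 5, nat_lit 0x800100012, nat_lit 0x21320, nat_lit 2, nat_lit 4, nat_lit 0x48⟩ (.node ⟨nat_lit 6, nat_lit 0x2000080030, nat_lit 0x212111, nat_lit 1, nat_lit 4, nat_lit 0x49⟩ (.node ⟨nat_lit 6, nat_lit 0x200030, nat_lit 0x111111, nat_lit 0, nat_lit 4, nat_lit 0x48⟩ (t14_1053) (t14_9245)) (.node ⟨nat_lit 7, nat_lit 0x400040, nat_lit 0x1211100, nat_lit 1, nat_lit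 3, nat_lit 0x4a⟩ (t14_5149) (t14_13341))) (.node ⟨nat_lit 6, nat_lit 0x1000100020, nat_lit 0x111201, nat_lit 3, nat_lit 4, nat_lit 0x49⟩ (.node ⟨nat_lit 8, nat_lit 0x8000800020004000e0, nat_lit 0x1110103, nat_lit 0, nat_lit 4, nat_lit 0x48⟩ (t14_3101) (t14_11293)) (.node ⟨nat_lit 9, nat_lit 0x1000100008000800110, nat_lit 0x11100220, nat_lit 0, nat_lit 4, nat_lit 0x4b⟩ (t14_7197) (t14_15389))))) (.node ⟨nat_lit 6, nat_lit 0x200020, nat_lit 0x131110, nat_lit 1, nat_lit 4, nat_lit 0x4a⟩ (.node ⟨nat_lit 4, nat_lit 0, nat_lit 0x2211, nat_lit 5, nat_lit 3, nat_lit 0x48⟩ (.node ⟨nat_lit 6, nat_lit 0x3000300030, nat_lit 0x2210, nat_lit 3, nat_lit 4, nat_lit 0x46⟩ (.node ⟨nat_lit 9, nat_lit 0x100008000800040, nat_lit 0x2110101, nat_lit 1, nat_lit 4, nat_lit 0x4c⟩ (t14_541) (t14_8733)) (.node ⟨nat_lit 5, nat_lit 0x100010001c, nat_lit 0x13112, nat_lit 5,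 nat_lit 4, nat_lit 0x48⟩ (t14_4637) (t14_12829))) (.node ⟨nat_lit 3, nat_lit 6, nat_lit 0x101, nat_lit 8, nat_lit 4, nat_lit 0x44⟩ (.node ⟨nat_lit 5, nat_lit 0x800100018, nat_lit 0x11330, nat_lit 3, nat_lit 4, nat_lit 0x48⟩ (t14_2589) (t14_10781)) (.node ⟨nat_lit 7, nat_lit 0x2000200040, nat_lit 0x1021210, nat_lit 1, nat_lit 4, nat_lit 0x4a⟩ (t14_6685) (t14_14877)))) (.node ⟨nat_lit 6, nat_lit 0x2000080030, nat_lit 0x112112, nat_lit 0, nat_lit 4, nat_lit 0x48⟩ (.node ⟨nat_lit 4, nat_lit 0xc, nat_lit 0x3011, nat_lit 2, nat_lit 3, nat_lit 0x46⟩ (.node ⟨nat_lit 7, nat_lit 0x4000440060, nat_lit 0x1011311, nat_lit 2, nat_lit 4, nat_lit 0x4a⟩ (t14_1565) (t14_9757)) (.node ⟨nat_lit 8, nat_lit 0x800080002000d000d0, nat_lit 0x10111021, nat_lit 1, nat_lit 4, nat_lit 0x48⟩ (t14_5661) (t14_13853))) (.node ⟨nat_lit 6, nat_lit 0x800200030, nat_lit 0x20012, nat_lit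 2, nat_lit 4, nat_lit 0x47⟩ (.node ⟨nat_lit 6, nat_lit 0x1000300028, nat_lit 0x100100, nat_lit 1, nat_lit 4, nat_lit 0x45⟩ (t14_3613) (t14_11805)) (.node ⟨nat_lit 7, nat_lit 0x40002000100048, nat_lit 0x1012000, nat_lit 1, nat_lit 4, nat_lit 0x48⟩ (t14_7709) (.nil)))))
def t14_285 : Tr := .node ⟨nat_lit 7, nat_lit 0x40004800300060, nat_lit 0x112011, nat_lit 0, nat_lit 4, nat_lit 0x47⟩ (.nil) (.nil)
def t14_8477 : Tr := .node ⟨nat_lit 7, nat_lit 0x3000500060, nat_lit 0x1012, nat_lit 0, nat_lit 4, nat_lit 0x46⟩ (.nil) (.nil)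
def t14_4381 : Tr := .node ⟨nat_lit 7, nat_lit 0x10002000500060, nat_lit 0x111020, nat_lit 1, nat_lit 4, nat_lit 0x47⟩ (.nil) (.nil)
def t14_12573 : Tr := .node ⟨nat_lit 8, nat_lit 0x80002000a000d000e0, nat_lit 0x1011003, nat_lit 0, nat_lit 4, nat_lit 0x46⟩ (.nil) (.nil)
def t14_2333 : Tr := .node ⟨nat_lit 8, nat_lit 0x200040008000c800c8, nat_lit 0x2001310, nat_lit 0, nat_lit 4, nat_lit 0x48⟩ (.nil) (.nil)
def t14_10525 : Tr := .node ⟨nat_lit 6, nat_lit 0x2800300038, nat_lit 0x1202, nat_lit 2, nat_lit 4, nat_lit 0x45⟩ (.nil) (.nil)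
def t14_6429 : Tr := .node ⟨nat_lit 8, nat_lit 0x80008000400040009000a0, nat_lit 0x10111010, nat_lit 2, nat_lit 4, nat_lit 0x48⟩ (.nil) (.nil)
def t14_14621 : Tr := .node ⟨nat_lit 9, nat_lit 0x100008000a000a00140018001c0, nat_lit 0x101111011, nat_lit 1, nat_lit 4, nat_lit 0x47⟩ (.nil) (.nil)
def t14_1309 : Tr := .node ⟨nat_lit 7, nat_lit 0x4000100060, nat_lit 0x1001111, nat_lit 0, nat_lit 4, nat_lit 0x48⟩ (.nil) (.nil)
def t14_9501 : Tr := .node ⟨nat_lit 0xa, nat_lit 0x1000100020002000220021001800320, nat_lit 0x1012000011, nat_lit 1, nat_lit 4, nat_lit 0x48⟩ (.nil) (.nil)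
def t14_5405 : Tr := .node ⟨nat_lit 7, nat_lit 0x1000400060, nat_lit 0x101042, nat_lit 1, nat_lit 4, nat_lit 0x49⟩ (.nil) (.nil)
def t14_13597 : Tr := .node ⟨nat_lit 4, nat_lit 0x8000c, nat_lit 0x102, nat_lit 9, nat_lit 4, nat_lit 0x46⟩ (.nil) (.nil)
def t14_3357 : Tr := .node ⟨nat_lit 7, nat_lit 0x10004000600050, nat_lit 0x10201, nat_lit 1, nat_lit 4, nat_lit 0x47⟩ (.nil) (.nil)
def t14_11549 : Tr := .node ⟨nat_lit 6, nat_lit 0x2800280030, nat_lit 0x11102, nat_lit 5, nat_lit 4, nat_lit 0x47⟩ (.nil) (.nil)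
def t14_7453 : Tr := .node ⟨nat_lit 7, nat_lit 0x1000600060, nat_lit 0x1111111, nat_lit 1, nat_lit 4, nat_lit 0x49⟩ (.nil) (.nil)
def t14_797 : Tr := .node ⟨nat_lit 7, nat_lit 0x40002000100060, nat_lit 0x103101, nat_lit 0, nat_lit 3, nat_lit 0x46⟩ (.nil) (.nil)
def t14_8989 : Tr := .node ⟨nat_lit 8, nat_lit 0x800080004000a0009000e0, nat_lit 0x1110003, nat_lit 1, nat_lit 4, nat_lit 0x47⟩ (.nil) (.nil)
def t14_4893 : Tr := .node ⟨nat_lit 8, nat_lit 0xc000c0, nat_lit 0x11111110, nat_lit 1, nat_lit 4, nat_lit 0x4b⟩ (.nil) (.nil)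
def t14_13085 : Tr := .node ⟨nat_lit 6, nat_lit 0x20001000280038, nat_lit 0x2002, nat_lit 5, nat_lit 4, nat_lit 0x46⟩ (.nil) (.nil)
def t14_2845 : Tr := .node ⟨nat_lit 7, nat_lit 0x800500060, nat_lit 0x101002, nat_lit 3, nat_lit 4, nat_lit 0x48⟩ (.nil) (.nil)
def t14_11037 : Tr := .node ⟨nat_lit 7, nat_lit 0x40002000100010, nat_lit 0x10020, nat_lit 2, nat_lit 3, nat_lit 0x47⟩ (.nil) (.nil)
def t14_6941 : Tr := .node ⟨nat_lit 7, nat_lit 0x40004800600030, nat_lit 0x120021, nat_lit 1, nat_lit 4, nat_lit 0x47⟩ (.nil) (.nil)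
def t14_15133 : Tr := .node ⟨nat_lit 8, nat_lit 0x2000800080003000c0, nat_lit 0x111110, nat_lit 1, nat_lit 4, nat_lit 0x48⟩ (.nil) (.nil)
def t14_1821 : Tr := .node ⟨nat_lit 6, nat_lit 0x300028, nat_lit 0x102102, nat_lit 4, nat_lit 4, nat_lit 0x49⟩ (.nil) (.nil)
def t14_10013 : Tr := .node ⟨nat_lit 3, nat_lit 0x40004, nat_lit 0x130, nat_lit 8, nat_lit 3, nat_lit 0x45⟩ (.nil) (.nil)
def t14_5917 : Tr := .node ⟨nat_lit 9, nat_lit 0x1000100010001080110, nat_lit 0x11111000, nat_lit 3, nat_lit 4, nat_lit 0x4b⟩ (.nil) (.nil)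
def t14_14109 : Tr := .node ⟨nat_lit 7, nat_lit 0x10004000400060, nat_lit 0x1200, nat_lit 2, nat_lit 4, nat_lit 0x47⟩ (.nil) (.nil)
def t14_3869 : Tr := .node ⟨nat_lit 8, nat_lit 0x8000800040009000c0, nat_lit 0x1111002, nat_lit 2, nat_lit 4, nat_lit 0x49⟩ (.nil) (.nil)
def t14_12061 : Tr := .node ⟨nat_lit 7, nat_lit 0x20004000100060, nat_lit 0x111210, nat_lit 0, nat_lit 4, nat_lit 0x48⟩ (.nil) (.nil)
def t14_7965 : Tr := .node ⟨nat_lit 8, nat_lit 0x800080004000900090, nat_lit 0x1111121, nat_lit 1, nat_lit 4, nat_lit 0x49⟩ (.nil) (.nil)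
def t9_285 : Tr := .node ⟨nat_lit 6, nat_lit 0x200030, nat_lit 0x3221, nat_lit 1, nat_lit 4, nat_lit 0x49⟩ (.node ⟨nat_lit 6, nat_lit 0x1000200022, nat_lit 0x302012, nat_lit 0, nat_lit 4, nat_lit 0x49⟩ (.node ⟨nat_lit 8, nat_lit 0x8000400020, nat_lit 0x131001, nat_lit 4, nat_lit 4, nat_lit 0x4c⟩ (.node ⟨nat_lit 5, nat_lit 0x10, nat_lit 0x12113, nat_lit 4, nat_lit 4, nat_lit 0x4a⟩ (.node ⟨nat_lit 4, nat_lit 0x80008000c, nat_lit 0x2121, nat_lit 5, nat_lit 4, nat_lit 0x47⟩ (t14_285) (t14_8477)) (.node ⟨nat_lit 8, nat_lit 0x4000400020008000e0, nat_lit 0x111003, nat_lit 2, nat_lit 4, nat_lit 0x48⟩ (t14_4381) (t14_12573))) (.node ⟨nat_lit 8, nat_lit 0x10008000a000c4, nat_lit 0x20000222, nat_lit 0, nat_lit 4, nat_lit 0x49⟩ (.node ⟨nat_lit 7, nat_lit 0x40002000500068, nat_lit 0x102313, nat_lit 0, nat_lit 4, nat_lit 0x47⟩ (t14_2333) (t14_10525)) (.node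 ⟨nat_lit 6, nat_lit 0x100020, nat_lit 0x21102, nat_lit 1, nat_lit 4, nat_lit 0x49⟩ (t14_6429) (t14_14621)))) (.node ⟨nat_lit 6, nat_lit 0x800200030, nat_lit 0x21201, nat_lit 0, nat_lit 4, nat_lit 0x47⟩ (.node ⟨nat_lit 6, nat_lit 0x2000080030, nat_lit 0x122113, nat_lit 0, nat_lit 4, nat_lit 0x49⟩ (.node ⟨nat_lit 6, nat_lit 0x20001000100028, nat_lit 0x111203, nat_lit 0, nat_lit 4, nat_lit 0x47⟩ (t14_1309) (t14_9501)) (.node ⟨nat_lit 7, nat_lit 0x40002000480060, nat_lit 0x112202, nat_lit 0, nat_lit 4, nat_lit 0x48⟩ (t14_5405) (t14_13597))) (.node ⟨nat_lit 5, nat_lit 0x800100010, nat_lit 0x10320, nat_lit 4, nat_lit 4, nat_lit 0x47⟩ (.node ⟨nat_lit 7, nat_lit 0x10004000200064, nat_lit 0x2100230, nat_lit 0, nat_lit 4, nat_lit 0x49⟩ (t14_3357) (t14_11549)) (.node ⟨nat_lit 8, nat_lit 0x20008000c000c4, nat_lit 0x11010121, nat_lit 1, nat_lit 4, nat_lit 0x49⟩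 (t14_7453) (.nil))))) (.node ⟨nat_lit 5, nat_lit 0x18, nat_lit 0x11321, nat_lit 1, nat_lit 3, nat_lit 0x48⟩ (.node ⟨nat_lit 6, nat_lit 0x1000280030, nat_lit 0x102120, nat_lit 1, nat_lit 4, nat_lit 0x47⟩ (.node ⟨nat_lit 5, nat_lit 0x40018, nat_lit 0x10011, nat_lit 0, nat_lit 4, nat_lit 0x44⟩ (.node ⟨nat_lit 7, nat_lit 0x20001000400062, nat_lit 0x2020022, nat_lit 0, nat_lit 4, nat_lit 0x49⟩ (t14_797) (t14_8989)) (.node ⟨nat_lit 8, nat_lit 0x80008000400040009000a0, nat_lit 0x11112010, nat_lit 2, nat_lit 4, nat_lit 0x49⟩ (t14_4893) (t14_13085))) (.node ⟨nat_lit 4, nat_lit 0xc000c, nat_lit 0x1010, nat_lit 4, nat_lit 3, nat_lit 0x43⟩ (.node ⟨nat_lit 7, nat_lit 0x4000400020, nat_lit 0x111100, nat_lit 1, nat_lit 4, nat_lit 0x49⟩ (t14_2845) (t14_11037)) (.node ⟨nat_lit 7, nat_lit 0x200020004000400040, nat_lit 0x122110, nat_lit 2, nat_lit 3, nat_lit 0x47⟩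 (t14_6941) (t14_15133)))) (.node ⟨nat_lit 7, nat_lit 0x4000200020, nat_lit 0x1111021, nat_lit 0, nat_lit 4, nat_lit 0x4a⟩ (.node ⟨nat_lit 5, nat_lit 0x100010, nat_lit 0x21121, nat_lit 3, nat_lit 3, nat_lit 0x48⟩ (.node ⟨nat_lit 7, nat_lit 0x4000200020, nat_lit 0x10011, nat_lit 0, nat_lit 4, nat_lit 0x48⟩ (t14_1821) (t14_10013)) (.node ⟨nat_lit 7, nat_lit 0x40004000200060, nat_lit 0x122002, nat_lit 2, nat_lit 4, nat_lit 0x49⟩ (t14_5917) (t14_14109))) (.node ⟨nat_lit 6, nat_lit 0x2000080030, nat_lit 0x20122, nat_lit 1, nat_lit 4, nat_lit 0x47⟩ (.node ⟨nat_lit 7, nat_lit 0x1000600070, nat_lit 0x2011103, nat_lit 0, nat_lit 4, nat_lit 0x48⟩ (t14_3869) (t14_12061)) (.node ⟨nat_lit 7, nat_lit 0x2000500060, nat_lit 0x1011002, nat_lit 1, nat_lit 4, nat_lit 0x48⟩ (t14_7965) (.nil)))))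
def t14_157 : Tr := .node ⟨nat_lit 7, nat_lit 0x2000400060, nat_lit 0x1022111, nat_lit 2, nat_lit 4, nat_lit 0x4a⟩ (.nil) (.nil)
def t14_8349 : Tr := .node ⟨nat_lit 6, nat_lit 0x2000300034, nat_lit 0x1020, nat_lit 2, nat_lit 4, nat_lit 0x45⟩ (.nil) (.nil)
def t14_4253 : Tr := .node ⟨nat_lit 7, nat_lit 0x4000440060, nat_lit 0x22110, nat_lit 3, nat_lit 4, nat_lit 0x49⟩ (.nil) (.nil)
def t14_12445 : Tr := .node ⟨nat_lit 8, nat_lit 0x80002000c000a0, nat_lit 0x11103, nat_lit 0, nat_lit 4, nat_lit 0x48⟩ (.nil) (.nil)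
def t14_2205 : Tr := .node ⟨nat_lit 7, nat_lit 0x20002000400040, nat_lit 0x1002210, nat_lit 1, nat_lit 4, nat_lit 0x49⟩ (.nil) (.nil)
def t14_10397 : Tr := .node ⟨nat_lit 8, nat_lit 0x80004000a000a000a000c0, nat_lit 0x10020002, nat_lit 2, nat_lit 4, nat_lit 0x47⟩ (.nil) (.nil)
def t14_6301 : Tr := .node ⟨nat_lit 8, nat_lit 0x20008000c000c0, nat_lit 0x10210, nat_lit 1, nat_lit 4, nat_lit 0x48⟩ (.nil) (.nil)
def t14_14493 : Tr := .node ⟨nat_lit 8, nat_lit 0x800020004000a000c0, nat_lit 0x11112, nat_lit 0, nat_lit 4, nat_lit 0x47⟩ (.nil) (.nil)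
def t14_1181 : Tr := .node ⟨nat_lit 6, nat_lit 0x100020, nat_lit 0x110002, nat_lit 0, nat_lit 4, nat_lit 0x48⟩ (.nil) (.nil)
def t14_9373 : Tr := .node ⟨nat_lit 8, nat_lit 0x4000800088006000c0, nat_lit 0x10022012, nat_lit 0, nat_lit 4, nat_lit 0x48⟩ (.nil) (.nil)
def t14_5277 : Tr := .node ⟨nat_lit 6, nat_lit 0x300030, nat_lit 0x211120, nat_lit 2, nat_lit 4, nat_lit 0x49⟩ (.nil) (.nil)
def t14_13469 : Tr := .node ⟨nat_lit 8, nat_lit 0x40001000a000c0, nat_lit 0x10103, nat_lit 1, nat_lit 4, nat_lit 0x48⟩ (.nil) (.nil)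
def t14_3229 : Tr := .node ⟨nat_lit 7, nat_lit 0x3000500060, nat_lit 0x1201021, nat_lit 0, nat_lit 4, nat_lit 0x48⟩ (.nil) (.nil)
def t14_11421 : Tr := .node ⟨nat_lit 6, nat_lit 0x10001000200022, nat_lit 0x211001, nat_lit 1, nat_lit 4, nat_lit 0x47⟩ (.nil) (.nil)
def t14_7325 : Tr := .node ⟨nat_lit 7, nat_lit 0x40004000200020, nat_lit 0x1112011, nat_lit 2, nat_lit 4, nat_lit 0x4a⟩ (.nil) (.nil)
def t14_15517 : Tr := .node ⟨nat_lit 7, nat_lit 0x40001000680070, nat_lit 0x1002001, nat_lit 0, nat_lit 4, nat_lit 0x46⟩ (.nil) (.nil)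
def t14_669 : Tr := .node ⟨nat_lit 5, nat_lit 0x100010, nat_lit 0x1131, nat_lit 4, nat_lit 4, nat_lit 0x48⟩ (.nil) (.nil)
def t14_8861 : Tr := .node ⟨nat_lit 6, nat_lit 0x10002000240024, nat_lit 0x11131, nat_lit 5, nat_lit 4, nat_lit 0x47⟩ (.nil) (.nil)
def t14_4765 : Tr := .node ⟨nat_lit 6, nat_lit 0x20001000280030, nat_lit 0x12102, nat_lit 4, nat_lit 4, nat_lit 0x47⟩ (.nil) (.nil)
def t14_12957 : Tr := .node ⟨nat_lit 7, nat_lit 0x40001000100060, nat_lit 0x102100, nat_lit 4, nat_lit 4, nat_lit 0x48⟩ (.nil) (.nil)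
def t14_2717 : Tr := .node ⟨nat_lit 7, nat_lit 0x2000480070, nat_lit 0x101013, nat_lit 0, nat_lit 4, nat_lit 0x47⟩ (.nil) (.nil)
def t14_10909 : Tr := .node ⟨nat_lit 8, nat_lit 0x800020002000c000a0, nat_lit 0x22002, nat_lit 1, nat_lit 4, nat_lit 0x48⟩ (.nil) (.nil)
def t14_6813 : Tr := .node ⟨nat_lit 7, nat_lit 0x60, nat_lit 0x2011110, nat_lit 0, nat_lit 4, nat_lit 0x4b⟩ (.nil) (.nil)
def t14_15005 : Tr := .node ⟨nat_lit 8, nat_lit 0x8000400090009000c0, nat_lit 0x11110, nat_lit 0, nat_lit 4, nat_lit 0x47⟩ (.nil) (.nil)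
def t14_1693 : Tr := .node ⟨nat_lit 8, nat_lit 0x800080004000c000d0, nat_lit 0x112021, nat_lit 0, nat_lit 4, nat_lit 0x48⟩ (.nil) (.nil)
def t14_9885 : Tr := .node ⟨nat_lit 5, nat_lit 0x1000100010, nat_lit 0x1321, nat_lit 7, nat_lit 4, nat_lit 0x49⟩ (.nil) (.nil)
def t14_5789 : Tr := .node ⟨nat_lit 7, nat_lit 0x500060, nat_lit 0x111112, nat_lit 1, nat_lit 4, nat_lit 0x49⟩ (.nil) (.nil)
def t14_13981 : Tr := .node ⟨nat_lit 6, nat_lit 0x200032, nat_lit 0x1120, nat_lit 1, nat_lit 4, nat_lit 0x47⟩ (.nil) (.nil)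
def t14_3741 : Tr := .node ⟨nat_lit 0xa, nat_lit 0x200020001000100010000800240, nat_lit 0x10021000, nat_lit 1, nat_lit 4, nat_lit 0x4a⟩ (.nil) (.nil)
def t14_11933 : Tr := .node ⟨nat_lit 5, nat_lit 0x180014, nat_lit 0x20003, nat_lit 3, nat_lit 3, nat_lit 0x45⟩ (.nil) (.nil)
def t14_7837 : Tr := .node ⟨nat_lit 6, nat_lit 0x200020002800280030, nat_lit 0x1210, nat_lit 0xb, nat_lit 4, nat_lit 0x47⟩ (.nil) (.nil)
def t9_157 : Tr := .node ⟨nat_lit 2, nat_lit 0, nat_lit 0x32, nat_lit 0xf, nat_lit 4, nat_lit 0x48⟩ (.node ⟨nat_lit 6, nat_lit 0x280030, nat_lit 0x113112, nat_lit 1, nat_lit 4, nat_lit 0x49⟩ (.node ⟨nat_lit 5, nat_lit 0x180018, nat_lit 0x310, nat_lit 3, nat_lit 4, nat_lit 0x46⟩ (.node ⟨nat_lit 2, nat_lit 2, nat_lit 0x21, nat_lit 0xa, nat_lit 4, nat_lit 0x45⟩ (.node ⟨nat_lit 7, nat_lit 0x20004000440030, nat_lit 0x2002201, nat_lit 0, nat_lit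 4, nat_lit 0x48⟩ (t14_157) (t14_8349)) (.node ⟨nat_lit 6, nat_lit 0x2000300034, nat_lit 0x101020, nat_lit 2, nat_lit 4, nat_lit 0x46⟩ (t14_4253) (t14_12445))) (.node ⟨nat_lit 9, nat_lit 0x4000200180, nat_lit 0x210011002, nat_lit 0, nat_lit 4, nat_lit 0x4c⟩ (.node ⟨nat_lit 7, nat_lit 0x20006000600050, nat_lit 0x20203, nat_lit 1, nat_lit 4, nat_lit 0x47⟩ (t14_2205) (t14_10397)) (.node ⟨nat_lit 6, nat_lit 0x200030, nat_lit 0x12222, nat_lit 1, nat_lit 4, nat_lit 0x49⟩ (t14_6301) (t14_14493)))) (.node ⟨nat_lit 5, nat_lit 0x18, nat_lit 0x21111, nat_lit 7, nat_lit 4, nat_lit 0x49⟩ (.node ⟨nat_lit 7, nat_lit 0x10004000440060, nat_lit 0x2100221, nat_lit 0, nat_lit 4, nat_lit 0x49⟩ (.node ⟨nat_lit 8, nat_lit 0x80002000400010, nat_lit 0x100400, nat_lit 1, nat_lit 4, nat_lit 0x4a⟩ (t14_1181) (t14_9373)) (.node ⟨nat_lit 7, nat_lit 0x3000500060, nat_lit 0x1112211,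 nat_lit 0, nat_lit 4, nat_lit 0x48⟩ (t14_5277) (t14_13469))) (.node ⟨nat_lit 7, nat_lit 0x10002000400062, nat_lit 0x100220, nat_lit 1, nat_lit 4, nat_lit 0x47⟩ (.node ⟨nat_lit 7, nat_lit 0x40003000580068, nat_lit 0x2111300, nat_lit 0, nat_lit 4, nat_lit 0x47⟩ (t14_3229) (t14_11421)) (.node ⟨nat_lit 7, nat_lit 0x20002000400068, nat_lit 0x1010110, nat_lit 0, nat_lit 4, nat_lit 0x47⟩ (t14_7325) (t14_15517))))) (.node ⟨nat_lit 5, nat_lit 0x100008, nat_lit 0x13112, nat_lit 4, nat_lit 4, nat_lit 0x4a⟩ (.node ⟨nat_lit 5, nat_lit 0x100008, nat_lit 0x12112, nat_lit 4, nat_lit 4, nat_lit 0x49⟩ (.node ⟨nat_lit 5, nat_lit 0x180018, nat_lit 0x10111, nat_lit 0, nat_lit 3, nat_lit 0x44⟩ (.node ⟨nat_lit 6, nat_lit 0x2000080030, nat_lit 0x112201, nat_lit 3, nat_lit 4, nat_lit 0x49⟩ (t14_669) (t14_8861)) (.node ⟨nat_lit 8, nat_lit 0x8000800040004000a000c8, nat_lit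 0x1102111, nat_lit 2, nat_lit 4, nat_lit 0x48⟩ (t14_4765) (t14_12957))) (.node ⟨nat_lit 7, nat_lit 0x4000100020, nat_lit 0x11010, nat_lit 0, nat_lit 4, nat_lit 0x48⟩ (.node ⟨nat_lit 8, nat_lit 0x800080002000400040, nat_lit 0x1110130, nat_lit 1, nat_lit 4, nat_lit 0x4a⟩ (t14_2717) (t14_10909)) (.node ⟨nat_lit 7, nat_lit 0x10004000400060, nat_lit 0x112101, nat_lit 1, nat_lit 4, nat_lit 0x48⟩ (t14_6813) (t14_15005)))) (.node ⟨nat_lit 2, nat_lit 0, nat_lit 0x32, nat_lit 0xa, nat_lit 3, nat_lit 0x46⟩ (.node ⟨nat_lit 5, nat_lit 0x100010, nat_lit 0x1121, nat_lit 2, nat_lit 3, nat_lit 0x46⟩ (.node ⟨nat_lit 4, nat_lit 0x8000c, nat_lit 0x11, nat_lit 5, nat_lit 4, nat_lit 0x44⟩ (t14_1693) (t14_9885)) (.node ⟨nat_lit 6, nat_lit 0x2000200024, nat_lit 0x22201, nat_lit 3, nat_lit 4, nat_lit 0x49⟩ (t14_5789) (t14_13981))) (.node ⟨nat_lit 7, nat_lit 0x40004800600030,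 nat_lit 0x22202, nat_lit 0, nat_lit 4, nat_lit 0x47⟩ (.node ⟨nat_lit 6, nat_lit 0x280030, nat_lit 0x110130, nat_lit 0, nat_lit 4, nat_lit 0x47⟩ (t14_3741) (t14_11933)) (.node ⟨nat_lit 7, nat_lit 0x5000600070, nat_lit 0x1101122, nat_lit 0, nat_lit 4, nat_lit 0x47⟩ (t14_7837) (.nil)))))
def t14_413 : Tr := .node ⟨nat_lit 6, nat_lit 0x3000300030, nat_lit 0x102210, nat_lit 3, nat_lit 4, nat_lit 0x47⟩ (.nil) (.nil)
def t14_8605 : Tr := .node ⟨nat_lit 8, nat_lit 0x40008000800060009000d0, nat_lit 0x110100, nat_lit 2, nat_lit 4, nat_lit 0x46⟩ (.nil) (.nil)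
def t14_4509 : Tr := .node ⟨nat_lit 6, nat_lit 0x2000080030, nat_lit 0x111201, nat_lit 6, nat_lit 4, nat_lit 0x49⟩ (.nil) (.nil)
def t14_12701 : Tr := .node ⟨nat_lit 7, nat_lit 0x1000400060, nat_lit 0x1002020, nat_lit 1, nat_lit 4, nat_lit 0x49⟩ (.nil) (.nil)
def t14_2461 : Tr := .node ⟨nat_lit 6, nat_lit 0x2000100008, nat_lit 0x212000, nat_lit 1, nat_lit 3, nat_lit 0x48⟩ (.nil) (.nil)
def t14_10653 : Tr := .node ⟨nat_lit 8, nat_lit 0x20002000a000c0, nat_lit 0x11020, nat_lit 0, nat_lit 4, nat_lit 0x48⟩ (.nil) (.nil)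
def t14_6557 : Tr := .node ⟨nat_lit 7, nat_lit 0x4000400020, nat_lit 0x110102, nat_lit 0, nat_lit 4, nat_lit 0x49⟩ (.nil) (.nil)
def t14_14749 : Tr := .node ⟨nat_lit 8, nat_lit 0x40002000c000a000d0, nat_lit 0x1020211, nat_lit 0, nat_lit 4, nat_lit 0x47⟩ (.nil) (.nil)
def t14_1437 : Tr := .node ⟨nat_lit 7, nat_lit 0x1000600060, nat_lit 0x1010131, nat_lit 0, nat_lit 4, nat_lit 0x48⟩ (.nil) (.nil)
def t14_9629 : Tr := .node ⟨nat_lit 9, nat_lit 0x4001000080008001800188, nat_lit 0x21020, nat_lit 1, nat_lit 4, nat_lit 0x48⟩ (.nil) (.nil)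
def t14_5533 : Tr := .node ⟨nat_lit 6, nat_lit 0x2000100038, nat_lit 0x1113, nat_lit 3, nat_lit 4, nat_lit 0x46⟩ (.nil) (.nil)
def t14_13725 : Tr := .node ⟨nat_lit 7, nat_lit 0x40004800480030, nat_lit 0x100, nat_lit 1, nat_lit 4, nat_lit 0x45⟩ (.nil) (.nil)
def t14_3485 : Tr := .node ⟨nat_lit 6, nat_lit 0x2000300030, nat_lit 0x1210, nat_lit 2, nat_lit 3, nat_lit 0x45⟩ (.nil) (.nil)
def t14_11677 : Tr := .node ⟨nat_lit 8, nat_lit 0x80004000a000a000c000c0, nat_lit 0x41010, nat_lit 1, nat_lit 4, nat_lit 0x47⟩ (.nil) (.nil)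
def t14_7581 : Tr := .node ⟨nat_lit 6, nat_lit 0x2000100010, nat_lit 0x2042, nat_lit 0, nat_lit 3, nat_lit 0x47⟩ (.nil) (.nil)
def t14_925 : Tr := .node ⟨nat_lit 7, nat_lit 0x10004000180060, nat_lit 0x1002121, nat_lit 0, nat_lit 4, nat_lit 0x47⟩ (.nil) (.nil)
def t14_9117 : Tr := .node ⟨nat_lit 8, nat_lit 0x800040009000c000e0, nat_lit 0x1101022, nat_lit 0, nat_lit 4, nat_lit 0x47⟩ (.nil) (.nil)
def t14_5021 : Tr := .node ⟨nat_lit 6, nat_lit 0x3000300028, nat_lit 0x1111, nat_lit 2, nat_lit 4, nat_lit 0x45⟩ (.nil) (.nil)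
def t14_13213 : Tr := .node ⟨nat_lit 6, nat_lit 0x20001000280034, nat_lit 0x2010, nat_lit 2, nat_lit 4, nat_lit 0x45⟩ (.nil) (.nil)
def t14_2973 : Tr := .node ⟨nat_lit 9, nat_lit 0x8001000100004001100110, nat_lit 0x1012011, nat_lit 0, nat_lit 4, nat_lit 0x49⟩ (.nil) (.nil)
def t14_11165 : Tr := .node ⟨nat_lit 6, nat_lit 0x800300028, nat_lit 0x1110, nat_lit 3, nat_lit 4, nat_lit 0x46⟩ (.nil) (.nil)
def t14_7069 : Tr := .node ⟨nat_lit 5, nat_lit 0x1000100010, nat_lit 0x12111, nat_lit 5, nat_lit 3, nat_lit 0x47⟩ (.nil) (.nil)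
def t14_15261 : Tr := .node ⟨nat_lit 7, nat_lit 0x40004000600068, nat_lit 0x111021, nat_lit 4, nat_lit 4, nat_lit 0x48⟩ (.nil) (.nil)
def t14_1949 : Tr := .node ⟨nat_lit 8, nat_lit 0x10008000c000a0, nat_lit 0x200212, nat_lit 1, nat_lit 4, nat_lit 0x49⟩ (.nil) (.nil)
def t14_10141 : Tr := .node ⟨nat_lit 7, nat_lit 0x40004000600060, nat_lit 0x22020, nat_lit 0, nat_lit 3, nat_lit 0x46⟩ (.nil) (.nil)
def t14_6045 : Tr := .node ⟨nat_lit 9, nat_lit 0x100010001000108, nat_lit 0x21110100, nat_lit 1, nat_lit 4, nat_lit 0x4c⟩ (.nil) (.nil)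
def t14_14237 : Tr := .node ⟨nat_lit 9, nat_lit 0x10000800080008001400190, nat_lit 0x111002, nat_lit 1, nat_lit 4, nat_lit 0x48⟩ (.nil) (.nil)
def t14_3997 : Tr := .node ⟨nat_lit 7, nat_lit 0x40001000600068, nat_lit 0x100210, nat_lit 1, nat_lit 4, nat_lit 0x46⟩ (.nil) (.nil)
def t14_12189 : Tr := .node ⟨nat_lit 7, nat_lit 0x200020004000400064, nat_lit 0x21210, nat_lit 2, nat_lit 4, nat_lit 0x47⟩ (.nil) (.nil)
def t14_8093 : Tr := .node ⟨nat_lit 7, nat_lit 0x400020002000500068, nat_lit 0x10040, nat_lit 1, nat_lit 4, nat_lit 0x46⟩ (.nil) (.nil)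
def t9_413 : Tr := .node ⟨nat_lit 4, nat_lit 0xc, nat_lit 0x2232, nat_lit 4, nat_lit 4, nat_lit 0x49⟩ (.node ⟨nat_lit 7, nat_lit 0x400020, nat_lit 0x131100, nat_lit 5, nat_lit 4, nat_lit 0x4c⟩ (.node ⟨nat_lit 5, nat_lit 0x18, nat_lit 0x221, nat_lit 2, nat_lit 4, nat_lit 0x47⟩ (.node ⟨nat_lit 6, nat_lit 0x800300030, nat_lit 0x101220, nat_lit 0, nat_lit 4, nat_lit 0x46⟩ (.node ⟨nat_lit 6, nat_lit 0x1000280030, nat_lit 0x20011, nat_lit 1, nat_lit 4, nat_lit 0x46⟩ (t14_413) (t14_8605)) (.node ⟨nat_lit 7, nat_lit 0x400020, nat_lit 0x2111110, nat_lit 1, nat_lit 3, nat_lit 0x4a⟩ (t14_4509) (t14_12701))) (.node ⟨nat_lit 6, nat_lit 0x200010, nat_lit 0x1102, nat_lit 2, nat_lit 3, nat_lit 0x47⟩ (.node ⟨nat_lit 6, nat_lit 0x800200010, nat_lit 0x10022, nat_lit 1, nat_lit 4, nat_lit 0x47⟩ (t14_2461) (t14_10653)) (.node ⟨nat_lit 8, nat_lit 0x40008000c0, nat_lit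 0x210002, nat_lit 1, nat_lit 4, nat_lit 0x4a⟩ (t14_6557) (t14_14749)))) (.node ⟨nat_lit 6, nat_lit 0x2000340034, nat_lit 0x12010, nat_lit 1, nat_lit 4, nat_lit 0x45⟩ (.node ⟨nat_lit 7, nat_lit 0x20004000400010, nat_lit 0x122001, nat_lit 1, nat_lit 4, nat_lit 0x49⟩ (.node ⟨nat_lit 6, nat_lit 0x200032, nat_lit 0x101000, nat_lit 0, nat_lit 4, nat_lit 0x46⟩ (t14_1437) (t14_9629)) (.node ⟨nat_lit 7, nat_lit 0x40002000500060, nat_lit 0x1012021, nat_lit 0, nat_lit 3, nat_lit 0x46⟩ (t14_5533) (t14_13725))) (.node ⟨nat_lit 6, nat_lit 0x200020, nat_lit 0x11122, nat_lit 0, nat_lit 4, nat_lit 0x49⟩ (.node ⟨nat_lit 7, nat_lit 0x20003000600050, nat_lit 0x1010004, nat_lit 0, nat_lit 4, nat_lit 0x47⟩ (t14_3485) (t14_11677)) (.node ⟨nat_lit 8, nat_lit 0x1000a000c0, nat_lit 0x11101012, nat_lit 1, nat_lit 4, nat_lit 0x4a⟩ (t14_7581) (.nil))))) (.node ⟨nat_lit 7,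 nat_lit 0x4000400064, nat_lit 0x231001, nat_lit 1, nat_lit 4, nat_lit 0x4a⟩ (.node ⟨nat_lit 5, nat_lit 0x100008, nat_lit 0x2221, nat_lit 3, nat_lit 4, nat_lit 0x48⟩ (.node ⟨nat_lit 4, nat_lit 0, nat_lit 0x1111, nat_lit 9, nat_lit 4, nat_lit 0x49⟩ (.node ⟨nat_lit 6, nat_lit 0x300030, nat_lit 0x112131, nat_lit 1, nat_lit 4, nat_lit 0x49⟩ (t14_925) (t14_9117)) (.node ⟨nat_lit 8, nat_lit 0x80008000200040, nat_lit 0x1211020, nat_lit 1, nat_lit 4, nat_lit 0x4b⟩ (t14_5021) (t14_13213))) (.node ⟨nat_lit 5, nat_lit 0x100018, nat_lit 0x11130, nat_lit 5, nat_lit 4, nat_lit 0x48⟩ (.node ⟨nat_lit 7, nat_lit 0x4000200010, nat_lit 0x111021, nat_lit 1, nat_lit 3, nat_lit 0x48⟩ (t14_2973) (t14_11165)) (.node ⟨nat_lit 9, nat_lit 0x8001000100010800c0, nat_lit 0x11120002, nat_lit 0, nat_lit 4, nat_lit 0x4a⟩ (t14_7069) (t14_15261)))) (.node ⟨nat_lit 6, nat_lit 0x2000100008,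 nat_lit 0x2011, nat_lit 1, nat_lit 4, nat_lit 0x47⟩ (.node ⟨nat_lit 6, nat_lit 0x800300038, nat_lit 0x201112, nat_lit 3, nat_lit 4, nat_lit 0x47⟩ (.node ⟨nat_lit 7, nat_lit 0x40001000680068, nat_lit 0x2011031, nat_lit 0, nat_lit 4, nat_lit 0x47⟩ (t14_1949) (t14_10141)) (.node ⟨nat_lit 7, nat_lit 0x5000500060, nat_lit 0x202201, nat_lit 0, nat_lit 4, nat_lit 0x48⟩ (t14_6045) (t14_14237))) (.node ⟨nat_lit 6, nat_lit 0x2000200030, nat_lit 0x11210, nat_lit 4, nat_lit 4, nat_lit 0x48⟩ (.node ⟨nat_lit 6, nat_lit 0x2000080030, nat_lit 0x100001, nat_lit 2, nat_lit 4, nat_lit 0x46⟩ (t14_3997) (t14_12189)) (.node ⟨nat_lit 9, nat_lit 0x8000800080010000a0010801c0, nat_lit 0x101111101, nat_lit 0, nat_lit 4, nat_lit 0x48⟩ (t14_8093) (.nil)))))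
def t14_93 : Tr := .node ⟨nat_lit 7, nat_lit 0x40004000100060, nat_lit 0x1112111, nat_lit 0, nat_lit 4, nat_lit 0x49⟩ (.nil) (.nil)
def t14_8285 : Tr := .node ⟨nat_lit 7, nat_lit 0x4000600064, nat_lit 0x11303, nat_lit 1, nat_lit 4, nat_lit 0x48⟩ (.nil) (.nil)
def t14_4189 : Tr := .node ⟨nat_lit 9, nat_lit 0x100010000800080012001400190, nat_lit 0x11121001, nat_lit 0, nat_lit 4, nat_lit 0x48⟩ (.nil) (.nil)
def t14_12381 : Tr := .node ⟨nat_lit 9, nat_lit 0x400100010001080180, nat_lit 0x102100, nat_lit 3, nat_lit 4, nat_lit 0x4a⟩ (.nil) (.nil)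
def t14_2141 : Tr := .node ⟨nat_lit 6, nat_lit 0x20001000280030, nat_lit 0x112012, nat_lit 4, nat_lit 4, nat_lit 0x48⟩ (.nil) (.nil)
def t14_10333 : Tr := .node ⟨nat_lit 8, nat_lit 0x10008000a000c0, nat_lit 0x1100202, nat_lit 2, nat_lit 4, nat_lit 0x49⟩ (.nil) (.nil)
def t14_6237 : Tr := .node ⟨nat_lit 7, nat_lit 0x400040, nat_lit 0x111110, nat_lit 0, nat_lit 4, nat_lit 0x4a⟩ (.nil) (.nil)
def t14_14429 : Tr := .node ⟨nat_lit 7, nat_lit 0x40002000500060, nat_lit 0x112, nat_lit 1, nat_lit 4, nat_lit 0x46⟩ (.nil) (.nil)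
def t14_1117 : Tr := .node ⟨nat_lit 5, nat_lit 0x100008, nat_lit 0x1233, nat_lit 0, nat_lit 4, nat_lit 0x48⟩ (.nil) (.nil)
def t14_9309 : Tr := .node ⟨nat_lit 6, nat_lit 0x10002000200020, nat_lit 0x2100, nat_lit 0, nat_lit 3, nat_lit 0x45⟩ (.nil) (.nil)
def t14_5213 : Tr := .node ⟨nat_lit 7, nat_lit 0x40004000440048, nat_lit 0x112111, nat_lit 4, nat_lit 4, nat_lit 0x49⟩ (.nil) (.nil)
def t14_13405 : Tr := .node ⟨nat_lit 8, nat_lit 0x800020009000c00060, nat_lit 0x23000, nat_lit 1, nat_lit 4, nat_lit 0x47⟩ (.nil) (.nil)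
def t14_3165 : Tr := .node ⟨nat_lit 6, nat_lit 0x20002000100030, nat_lit 0x3101, nat_lit 0, nat_lit 3, nat_lit 0x45⟩ (.nil) (.nil)
def t14_11357 : Tr := .node ⟨nat_lit 7, nat_lit 0x20004000400060, nat_lit 0x11100, nat_lit 1, nat_lit 3, nat_lit 0x46⟩ (.nil) (.nil)
def t14_7261 : Tr := .node ⟨nat_lit 6, nat_lit 0x2000080030, nat_lit 0x121002, nat_lit 0, nat_lit 4, nat_lit 0x48⟩ (.nil) (.nil)
def t14_15453 : Tr := .node ⟨nat_lit 7, nat_lit 0x10004000400060, nat_lit 0x11101, nat_lit 0, nat_lit 3, nat_lit 0x46⟩ (.nil) (.nil)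
def t14_605 : Tr := .node ⟨nat_lit 6, nat_lit 0x300028, nat_lit 0x1322, nat_lit 2, nat_lit 4, nat_lit 0x48⟩ (.nil) (.nil)
def t14_8797 : Tr := .node ⟨nat_lit 7, nat_lit 0x400020002000500070, nat_lit 0x1111113, nat_lit 0, nat_lit 4, nat_lit 0x47⟩ (.nil) (.nil)
def t14_4701 : Tr := .node ⟨nat_lit 6, nat_lit 0x1000200030, nat_lit 0x110110, nat_lit 0, nat_lit 4, nat_lit 0x47⟩ (.nil) (.nil)
def t14_12893 : Tr := .node ⟨nat_lit 8, nat_lit 0x20008000c000c0, nat_lit 0x10030, nat_lit 1, nat_lit 4, nat_lit 0x48⟩ (.nil) (.nil)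
def t14_2653 : Tr := .node ⟨nat_lit 6, nat_lit 0x3000300038, nat_lit 0x2310, nat_lit 3, nat_lit 4, nat_lit 0x46⟩ (.nil) (.nil)
def t14_10845 : Tr := .node ⟨nat_lit 7, nat_lit 0x20004000400044, nat_lit 0x10202, nat_lit 1, nat_lit 4, nat_lit 0x48⟩ (.nil) (.nil)
def t14_6749 : Tr := .node ⟨nat_lit 5, nat_lit 0x40018, nat_lit 0x20120, nat_lit 2, nat_lit 4, nat_lit 0x47⟩ (.nil) (.nil)
def t14_14941 : Tr := .node ⟨nat_lit 8, nat_lit 0x4000800080009000880088, nat_lit 0x11111, nat_lit 5, nat_lit 4, nat_lit 0x48⟩ (.nil) (.nil)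
def t14_1629 : Tr := .node ⟨nat_lit 7, nat_lit 0x40002000680064, nat_lit 0x12200, nat_lit 0, nat_lit 4, nat_lit 0x46⟩ (.nil) (.nil)
def t14_9821 : Tr := .node ⟨nat_lit 6, nat_lit 0x10002000200020, nat_lit 0x110, nat_lit 0, nat_lit 3, nat_lit 0x45⟩ (.nil) (.nil)
def t14_5725 : Tr := .node ⟨nat_lit 6, nat_lit 0x2000100030, nat_lit 0x1202, nat_lit 3, nat_lit 4, nat_lit 0x47⟩ (.nil) (.nil)
def t14_13917 : Tr := .node ⟨nat_lit 8, nat_lit 0x800080002000400090, nat_lit 0x1010200, nat_lit 0, nat_lit 4, nat_lit 0x48⟩ (.nil) (.nil)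
def t14_3677 : Tr := .node ⟨nat_lit 7, nat_lit 0x1000600050, nat_lit 0x2021, nat_lit 3, nat_lit 4, nat_lit 0x48⟩ (.nil) (.nil)
def t14_11869 : Tr := .node ⟨nat_lit 7, nat_lit 0x400040002000500050, nat_lit 0x10300, nat_lit 4, nat_lit 4, nat_lit 0x47⟩ (.nil) (.nil)
def t14_7773 : Tr := .node ⟨nat_lit 8, nat_lit 0x800040005000a000a000d0, nat_lit 0x20101, nat_lit 0, nat_lit 4, nat_lit 0x45⟩ (.nil) (.nil)
def t9_93 : Tr := .node ⟨nat_lit 5, nat_lit 0x1000100008, nat_lit 0x1101, nat_lit 3, nat_lit 3, nat_lit 0x45⟩ (.node ⟨nat_lit 6, nat_lit 0x2000200010, nat_lit 0x113220, nat_lit 1, nat_lit 4, nat_lit 0x4a⟩ (.node ⟨nat_lit 5, nat_lit 0x180018, nat_lit 0x11321, nat_lit 1, nat_lit 3, nat_lit 0x46⟩ (.node ⟨nat_lit 6, nat_lit 0x200020, nat_lit 0x21100, nat_lit 3, nat_lit 4, nat_lit 0x49⟩ (.node ⟨nat_lit 5, nat_lit 0x1000100008, nat_lit 0x12112, nat_lit 8,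 nat_lit 4, nat_lit 0x49⟩ (t14_93) (t14_8285)) (.node ⟨nat_lit 6, nat_lit 0x2000080030, nat_lit 0x20020, nat_lit 0, nat_lit 4, nat_lit 0x46⟩ (t14_4189) (t14_12381))) (.node ⟨nat_lit 6, nat_lit 0x200030, nat_lit 0x211112, nat_lit 1, nat_lit 3, nat_lit 0x48⟩ (.node ⟨nat_lit 5, nat_lit 0x180018, nat_lit 0x11231, nat_lit 3, nat_lit 3, nat_lit 0x46⟩ (t14_2141) (t14_10333)) (.node ⟨nat_lit 8, nat_lit 0x800080002000c0, nat_lit 0x122011, nat_lit 1, nat_lit 4, nat_lit 0x4a⟩ (t14_6237) (t14_14429)))) (.node ⟨nat_lit 6, nat_lit 0x200020, nat_lit 0x22131, nat_lit 0, nat_lit 4, nat_lit 0x4a⟩ (.node ⟨nat_lit 7, nat_lit 0x10002000200040, nat_lit 0x1211211, nat_lit 0, nat_lit 4, nat_lit 0x4a⟩ (.node ⟨nat_lit 6, nat_lit 0x800280030, nat_lit 0x111231, nat_lit 2, nat_lit 4, nat_lit 0x48⟩ (t14_1117) (t14_9309)) (.node ⟨nat_lit 8, nat_lit 0x20008000c000c0, nat_lit 0x1010221,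 nat_lit 1, nat_lit 4, nat_lit 0x49⟩ (t14_5213) (t14_13405))) (.node ⟨nat_lit 6, nat_lit 0x800200032, nat_lit 0x221001, nat_lit 2, nat_lit 4, nat_lit 0x48⟩ (.node ⟨nat_lit 5, nat_lit 0x1000180018, nat_lit 0x10130, nat_lit 3, nat_lit 3, nat_lit 0x44⟩ (t14_3165) (t14_11357)) (.node ⟨nat_lit 7, nat_lit 0x40002000480070, nat_lit 0x1010102, nat_lit 0, nat_lit 4, nat_lit 0x46⟩ (t14_7261) (t14_15453))))) (.node ⟨nat_lit 2, nat_lit 2, nat_lit 0x22, nat_lit 5, nat_lit 3, nat_lit 0x44⟩ (.node ⟨nat_lit 4, nat_lit 0x40008, nat_lit 0x1221, nat_lit 4, nat_lit 4, nat_lit 0x47⟩ (.node ⟨nat_lit 6, nat_lit 0x80030, nat_lit 0x200100, nat_lit 1, nat_lit 4, nat_lit 0x47⟩ (.node ⟨nat_lit 6, nat_lit 0x1000200020, nat_lit 0x211120, nat_lit 3, nat_lit 4, nat_lit 0x4a⟩ (t14_605) (t14_8797)) (.node ⟨nat_lit 8, nat_lit 0x800010002000c0, nat_lit 0x11110112, nat_lit 0, nat_lit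 4, nat_lit 0x4a⟩ (t14_4701) (t14_12893))) (.node ⟨nat_lit 6, nat_lit 0x800300030, nat_lit 0x101122, nat_lit 0, nat_lit 4, nat_lit 0x46⟩ (.node ⟨nat_lit 6, nat_lit 0x1000280030, nat_lit 0x102032, nat_lit 4, nat_lit 4, nat_lit 0x48⟩ (t14_2653) (t14_10845)) (.node ⟨nat_lit 7, nat_lit 0x40004000200020, nat_lit 0x1112211, nat_lit 0, nat_lit 4, nat_lit 0x4a⟩ (t14_6749) (t14_14941)))) (.node ⟨nat_lit 6, nat_lit 0x1000280034, nat_lit 0x121110, nat_lit 1, nat_lit 4, nat_lit 0x47⟩ (.node ⟨nat_lit 7, nat_lit 0x4000100060, nat_lit 0x2012011, nat_lit 1, nat_lit 4, nat_lit 0x4a⟩ (.node ⟨nat_lit 6, nat_lit 0x80030, nat_lit 0x1101, nat_lit 0, nat_lit 4, nat_lit 0x46⟩ (t14_1629) (t14_9821)) (.node ⟨nat_lit 8, nat_lit 0x80002000200040, nat_lit 0x1120101, nat_lit 3, nat_lit 4, nat_lit 0x4b⟩ (t14_5725) (t14_13917))) (.node ⟨nat_lit 7, nat_lit 0x1000100060, nat_lit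 0x2001202, nat_lit 0, nat_lit 4, nat_lit 0x49⟩ (.node ⟨nat_lit 7, nat_lit 0x20002000400010, nat_lit 0x11000, nat_lit 0, nat_lit 4, nat_lit 0x47⟩ (t14_3677) (t14_11869)) (.node ⟨nat_lit 5, nat_lit 0x1000180018, nat_lit 0x10121, nat_lit 0xb, nat_lit 4, nat_lit 0x47⟩ (t14_7773) (.nil)))))
def t14_349 : Tr := .node ⟨nat_lit 7, nat_lit 0x4000100060, nat_lit 0x1012121, nat_lit 2, nat_lit 4, nat_lit 0x4a⟩ (.nil) (.nil)
def t14_8541 : Tr := .node ⟨nat_lit 5, nat_lit 0x1000140014, nat_lit 0x11141, nat_lit 6, nat_lit 4, nat_lit 0x48⟩ (.nil) (.nil)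
def t14_4445 : Tr := .node ⟨nat_lit 8, nat_lit 0x8000200040, nat_lit 0x11111001, nat_lit 4, nat_lit 4, nat_lit 0x4c⟩ (.nil) (.nil)
def t14_12637 : Tr := .node ⟨nat_lit 8, nat_lit 0x800020004000900060, nat_lit 0x10001000, nat_lit 1, nat_lit 4, nat_lit 0x47⟩ (.nil) (.nil)
def t14_2397 : Tr := .node ⟨nat_lit 7, nat_lit 0x40005000600060, nat_lit 0x12210, nat_lit 3, nat_lit 4, nat_lit 0x47⟩ (.nil) (.nil)
def t14_10589 : Tr := .node ⟨nat_lit 5, nat_lit 0x1000080014, nat_lit 0x2010, nat_lit 2, nat_lit 4, nat_lit 0x45⟩ (.nil) (.nil)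
def t14_6493 : Tr := .node ⟨nat_lit 6, nat_lit 0x80030, nat_lit 0x111130, nat_lit 1, nat_lit 4, nat_lit 0x49⟩ (.nil) (.nil)
def t14_14685 : Tr := .node ⟨nat_lit 8, nat_lit 0x40004000400080008400e0, nat_lit 0x120111, nat_lit 0, nat_lit 4, nat_lit 0x47⟩ (.nil) (.nil)
def t14_1373 : Tr := .node ⟨nat_lit 6, nat_lit 0x1000280034, nat_lit 0x20031, nat_lit 0, nat_lit 4, nat_lit 0x45⟩ (.nil) (.nil)
def t14_9565 : Tr := .node ⟨nat_lit 7, nat_lit 0x400050006000700070, nat_lit 0x12220, nat_lit 1, nat_lit 4, nat_lit 0x45⟩ (.nil) (.nil)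
def t14_5469 : Tr := .node ⟨nat_lit 7, nat_lit 0x2000400042, nat_lit 0x11031, nat_lit 1, nat_lit 4, nat_lit 0x49⟩ (.nil) (.nil)
def t14_13661 : Tr := .node ⟨nat_lit 6, nat_lit 0x80030, nat_lit 0x1302, nat_lit 1, nat_lit 4, nat_lit 0x48⟩ (.nil) (.nil)
def t14_3421 : Tr := .node ⟨nat_lit 7, nat_lit 0x20004000100060, nat_lit 0x20001, nat_lit 1, nat_lit 4, nat_lit 0x47⟩ (.nil) (.nil)
def t14_11613 : Tr := .node ⟨nat_lit 7, nat_lit 0x1000600060, nat_lit 0x1030, nat_lit 1, nat_lit 4, nat_lit 0x47⟩ (.nil) (.nil)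
def t14_7517 : Tr := .node ⟨nat_lit 7, nat_lit 0x400040, nat_lit 0x1111111, nat_lit 4, nat_lit 4, nat_lit 0x4c⟩ (.nil) (.nil)
def t14_861 : Tr := .node ⟨nat_lit 7, nat_lit 0x40004000100060, nat_lit 0x12210, nat_lit 5, nat_lit 4, nat_lit 0x49⟩ (.nil) (.nil)
def t14_9053 : Tr := .node ⟨nat_lit 5, nat_lit 0x1000100018, nat_lit 0x1221, nat_lit 4, nat_lit 3, nat_lit 0x45⟩ (.nil) (.nil)
def t14_4957 : Tr := .node ⟨nat_lit 8, nat_lit 0x800020002000c000c0, nat_lit 0x1001031, nat_lit 1, nat_lit 4, nat_lit 0x48⟩ (.nil) (.nil)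
def t14_13149 : Tr := .node ⟨nat_lit 6, nat_lit 0x20001000100028, nat_lit 0x213, nat_lit 0, nat_lit 4, nat_lit 0x45⟩ (.nil) (.nil)
def t14_2909 : Tr := .node ⟨nat_lit 7, nat_lit 0x4800500060, nat_lit 0x211201, nat_lit 0, nat_lit 4, nat_lit 0x48⟩ (.nil) (.nil)
def t14_11101 : Tr := .node ⟨nat_lit 5, nat_lit 0x180018, nat_lit 0x220, nat_lit 8, nat_lit 4, nat_lit 0x47⟩ (.nil) (.nil)
def t14_7005 : Tr := .node ⟨nat_lit 6, nat_lit 0x2000300030, nat_lit 0x101311, nat_lit 4, nat_lit 4, nat_lit 0x48⟩ (.nil) (.nil)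
def t14_15197 : Tr := .node ⟨nat_lit 8, nat_lit 0x4000800088005000c0, nat_lit 0x10110011, nat_lit 3, nat_lit 4, nat_lit 0x48⟩ (.nil) (.nil)
def t14_1885 : Tr := .node ⟨nat_lit 6, nat_lit 0x300038, nat_lit 0x200112, nat_lit 2, nat_lit 4, nat_lit 0x47⟩ (.nil) (.nil)
def t14_10077 : Tr := .node ⟨nat_lit 7, nat_lit 0x5000500060, nat_lit 0x201202, nat_lit 2, nat_lit 4, nat_lit 0x48⟩ (.nil) (.nil)
def t14_5981 : Tr := .node ⟨nat_lit 9, nat_lit 0x100010001000108, nat_lit 0x11111110, nat_lit 1, nat_lit 4, nat_lit 0x4c⟩ (.nil) (.nil)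
def t14_14173 : Tr := .node ⟨nat_lit 6, nat_lit 0x800200030, nat_lit 0x100002, nat_lit 5, nat_lit 4, nat_lit 0x47⟩ (.nil) (.nil)
def t14_3933 : Tr := .node ⟨nat_lit 7, nat_lit 0x200040004000640068, nat_lit 0x1031001, nat_lit 3, nat_lit 4, nat_lit 0x47⟩ (.nil) (.nil)
def t14_12125 : Tr := .node ⟨nat_lit 7, nat_lit 0x5000480060, nat_lit 0x101102, nat_lit 5, nat_lit 4, nat_lit 0x48⟩ (.nil) (.nil)
def t14_8029 : Tr := .node ⟨nat_lit 6, nat_lit 0x20001000100028, nat_lit 0x1103, nat_lit 3, nat_lit 4, nat_lit 0x46⟩ (.nil) (.nil)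
def t9_349 : Tr := .node ⟨nat_lit 4, nat_lit 0, nat_lit 0x3332, nat_lit 1, nat_lit 4, nat_lit 0x4b⟩ (.node ⟨nat_lit 5, nat_lit 0x40018, nat_lit 0x32003, nat_lit 2, nat_lit 4, nat_lit 0x49⟩ (.node ⟨nat_lit 5, nat_lit 0x10, nat_lit 0x22212, nat_lit 1, nat_lit 4, nat_lit 0x4a⟩ (.node ⟨nat_lit 6, nat_lit 0x2000080030, nat_lit 0x111220, nat_lit 2, nat_lit 4, nat_lit 0x48⟩ (.node ⟨nat_lit 8, nat_lit 0x40002000100080, nat_lit 0x11120111, nat_lit 0, nat_lit 4, nat_lit 0x4b⟩ (t14_349) (t14_8541)) (.node ⟨nat_lit 8, nat_lit 0x800080004000c0, nat_lit 0x1111003, nat_lit 0, nat_lit 4, nat_lit 0x4a⟩ (t14_4445) (t14_12637))) (.node ⟨nat_lit 5, nat_lit 0x180018, nat_lit 0x21222, nat_lit 2, nat_lit 4, nat_lit 0x48⟩ (.node ⟨nat_lit 6, nat_lit 0x800200030, nat_lit 0x100013, nat_lit 3, nat_lit 4, nat_lit 0x47⟩ (t14_2397) (t14_10589)) (.node ⟨nat_lit 6, nat_lit 0x2000300030,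 nat_lit 0x2120, nat_lit 5, nat_lit 4, nat_lit 0x47⟩ (t14_6493) (t14_14685)))) (.node ⟨nat_lit 3, nat_lit 4, nat_lit 0x211, nat_lit 6, nat_lit 4, nat_lit 0x46⟩ (.node ⟨nat_lit 5, nat_lit 0x100018, nat_lit 0x12222, nat_lit 4, nat_lit 4, nat_lit 0x49⟩ (.node ⟨nat_lit 6, nat_lit 0x280030, nat_lit 0x31130, nat_lit 0, nat_lit 4, nat_lit 0x48⟩ (t14_1373) (t14_9565)) (.node ⟨nat_lit 7, nat_lit 0x1000400060, nat_lit 0x1012021, nat_lit 3, nat_lit 4, nat_lit 0x4a⟩ (t14_5469) (t14_13661))) (.node ⟨nat_lit 4, nat_lit 0xc, nat_lit 0x3022, nat_lit 0xa, nat_lit 4, nat_lit 0x49⟩ (.node ⟨nat_lit 8, nat_lit 0x8000200020009000c0, nat_lit 0x10031020, nat_lit 0, nat_lit 4, nat_lit 0x49⟩ (t14_3421) (t14_11613)) (.node ⟨nat_lit 7, nat_lit 0x20005000680070, nat_lit 0x101012, nat_lit 1, nat_lit 4, nat_lit 0x45⟩ (t14_7517) (.nil))))) (.node ⟨nat_lit 5, nat_lit 0x100008,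 nat_lit 0x320, nat_lit 2, nat_lit 4, nat_lit 0x47⟩ (.node ⟨nat_lit 5, nat_lit 0x80010, nat_lit 0x12210, nat_lit 5, nat_lit 4, nat_lit 0x49⟩ (.node ⟨nat_lit 6, nat_lit 0x2000080030, nat_lit 0x101121, nat_lit 1, nat_lit 4, nat_lit 0x47⟩ (.node ⟨nat_lit 7, nat_lit 0x1800180060, nat_lit 0x2100210, nat_lit 1, nat_lit 4, nat_lit 0x47⟩ (t14_861) (t14_9053)) (.node ⟨nat_lit 8, nat_lit 0x80008000400040, nat_lit 0x1211020, nat_lit 1, nat_lit 4, nat_lit 0x4b⟩ (t14_4957) (t14_13149))) (.node ⟨nat_lit 6, nat_lit 0x10002000240030, nat_lit 0x112101, nat_lit 2, nat_lit 4, nat_lit 0x47⟩ (.node ⟨nat_lit 9, nat_lit 0x80010000400104, nat_lit 0x100110201, nat_lit 0, nat_lit 4, nat_lit 0x4b⟩ (t14_2909) (t14_11101)) (.node ⟨nat_lit 7, nat_lit 0x200040004800300060, nat_lit 0x1131102, nat_lit 0, nat_lit 4, nat_lit 0x48⟩ (t14_7005) (t14_15197)))) (.node ⟨nat_lit 6, nat_lit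 0x2000080010, nat_lit 0x11010, nat_lit 0, nat_lit 3, nat_lit 0x46⟩ (.node ⟨nat_lit 6, nat_lit 0x800300030, nat_lit 0x112111, nat_lit 0, nat_lit 4, nat_lit 0x47⟩ (.node ⟨nat_lit 7, nat_lit 0x4000640070, nat_lit 0x1111113, nat_lit 1, nat_lit 4, nat_lit 0x48⟩ (t14_1885) (t14_10077)) (.node ⟨nat_lit 7, nat_lit 0x20005000600060, nat_lit 0x21220, nat_lit 0, nat_lit 4, nat_lit 0x47⟩ (t14_5981) (t14_14173))) (.node ⟨nat_lit 4, nat_lit 0x80008, nat_lit 0x132, nat_lit 2, nat_lit 3, nat_lit 0x45⟩ (.node ⟨nat_lit 8, nat_lit 0x4000800088006000c0, nat_lit 0x10001003, nat_lit 2, nat_lit 4, nat_lit 0x48⟩ (t14_3933) (t14_12125)) (.node ⟨nat_lit 7, nat_lit 0x2000500060, nat_lit 0x1101112, nat_lit 3, nat_lit 4, nat_lit 0x49⟩ (t14_8029) (.nil)))))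
def t14_221 : Tr := .node ⟨nat_lit 7, nat_lit 0x40002000500060, nat_lit 0x1012211, nat_lit 2, nat_lit 4, nat_lit 0x48⟩ (.nil) (.nil)
def t14_8413 : Tr := .node ⟨nat_lit 7, nat_lit 0x20004000400044, nat_lit 0x10223, nat_lit 2, nat_lit 4, nat_lit 0x49⟩ (.nil) (.nil)
def t14_4317 : Tr := .node ⟨nat_lit 9, nat_lit 0x80008001000100010801100190, nat_lit 0x102101100, nat_lit 1, nat_lit 4, nat_lit 0x48⟩ (.nil) (.nil)
def t14_12509 : Tr := .node ⟨nat_lit 6, nat_lit 0x2800180030, nat_lit 0x10000, nat_lit 1, nat_lit 4, nat_lit 0x44⟩ (.nil) (.nil)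
def t14_2269 : Tr := .node ⟨nat_lit 9, nat_lit 0x1000100008000800140012001c0, nat_lit 0x101022000, nat_lit 0, nat_lit 4, nat_lit 0x48⟩ (.nil) (.nil)
def t14_10461 : Tr := .node ⟨nat_lit 8, nat_lit 0x800020009000a000c0, nat_lit 0x30220, nat_lit 0, nat_lit 4, nat_lit 0x48⟩ (.nil) (.nil)
def t14_6365 : Tr := .node ⟨nat_lit 4, nat_lit 0x800080008, nat_lit 0x211, nat_lit 0xa, nat_lit 4, nat_lit 0x47⟩ (.nil) (.nil)
def t14_14557 : Tr := .node ⟨nat_lit 9, nat_lit 0x1000100002000400180, nat_lit 0x1021010, nat_lit 2, nat_lit 4, nat_lit 0x4a⟩ (.nil) (.nil)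
def t14_1245 : Tr := .node ⟨nat_lit 6, nat_lit 0x800300030, nat_lit 0x100211, nat_lit 2, nat_lit 4, nat_lit 0x46⟩ (.nil) (.nil)
def t14_9437 : Tr := .node ⟨nat_lit 6, nat_lit 0x20002000100010, nat_lit 0x112122, nat_lit 1, nat_lit 3, nat_lit 0x47⟩ (.nil) (.nil)
def t14_5341 : Tr := .node ⟨nat_lit 6, nat_lit 0x1000200030, nat_lit 0x111310, nat_lit 3, nat_lit 4, nat_lit 0x49⟩ (.nil) (.nil)
def t14_13533 : Tr := .node ⟨nat_lit 6, nat_lit 0x2000080030, nat_lit 0x100010, nat_lit 2, nat_lit 4, nat_lit 0x46⟩ (.nil) (.nil)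
def t14_3293 : Tr := .node ⟨nat_lit 6, nat_lit 0x20001000280034, nat_lit 0x12210, nat_lit 2, nat_lit 4, nat_lit 0x46⟩ (.nil) (.nil)
def t14_11485 : Tr := .node ⟨nat_lit 6, nat_lit 0x10001000200032, nat_lit 0x101110, nat_lit 2, nat_lit 4, nat_lit 0x46⟩ (.nil) (.nil)
def t14_7389 : Tr := .node ⟨nat_lit 8, nat_lit 0x400080002000c0, nat_lit 0x1121101, nat_lit 0, nat_lit 4, nat_lit 0x4a⟩ (.nil) (.nil)
def t14_15581 : Tr := .node ⟨nat_lit 4, nat_lit 8, nat_lit 0x110, nat_lit 0x14, nat_lit 4, nat_lit 0x4a⟩ (.nil) (.nil)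
def t14_733 : Tr := .node ⟨nat_lit 6, nat_lit 0x10002000300038, nat_lit 0x10013, nat_lit 3, nat_lit 4, nat_lit 0x45⟩ (.nil) (.nil)
def t14_8925 : Tr := .node ⟨nat_lit 7, nat_lit 0x40002000500068, nat_lit 0x1100, nat_lit 0, nat_lit 4, nat_lit 0x45⟩ (.nil) (.nil)
def t14_4829 : Tr := .node ⟨nat_lit 7, nat_lit 0x1000180060, nat_lit 0x2111120, nat_lit 0, nat_lit 4, nat_lit 0x49⟩ (.nil) (.nil)
def t14_13021 : Tr := .node ⟨nat_lit 6, nat_lit 0x10002000200034, nat_lit 0x103000, nat_lit 5, nat_lit 4, nat_lit 0x47⟩ (.nil) (.nil)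
def t14_2781 : Tr := .node ⟨nat_lit 9, nat_lit 0x100002001800140, nat_lit 0x112010, nat_lit 1, nat_lit 4, nat_lit 0x4a⟩ (.nil) (.nil)
def t14_10973 : Tr := .node ⟨nat_lit 8, nat_lit 0x800020009000c000a0, nat_lit 0x12102, nat_lit 1, nat_lit 4, nat_lit 0x47⟩ (.nil) (.nil)
def t14_6877 : Tr := .node ⟨nat_lit 5, nat_lit 0x10, nat_lit 0x1112, nat_lit 6, nat_lit 4, nat_lit 0x49⟩ (.nil) (.nil)
def t14_15069 : Tr := .node ⟨nat_lit 8, nat_lit 0x200040008000c0, nat_lit 0x11010211, nat_lit 0, nat_lit 4, nat_lit 0x4a⟩ (.nil) (.nil)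
def t14_1757 : Tr := .node ⟨nat_lit 6, nat_lit 0x2000080030, nat_lit 0x21014, nat_lit 0, nat_lit 4, nat_lit 0x48⟩ (.nil) (.nil)
def t14_9949 : Tr := .node ⟨nat_lit 7, nat_lit 0x6000700068, nat_lit 0x11033, nat_lit 1, nat_lit 4, nat_lit 0x46⟩ (.nil) (.nil)
def t14_5853 : Tr := .node ⟨nat_lit 7, nat_lit 0x400060, nat_lit 0x111011, nat_lit 0, nat_lit 4, nat_lit 0x49⟩ (.nil) (.nil)
def t14_14045 : Tr := .node ⟨nat_lit 7, nat_lit 0x2000500064, nat_lit 0x101202, nat_lit 2, nat_lit 4, nat_lit 0x48⟩ (.nil) (.nil)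
def t14_3805 : Tr := .node ⟨nat_lit 7, nat_lit 0x400040002000500048, nat_lit 0x1010200, nat_lit 2, nat_lit 4, nat_lit 0x47⟩ (.nil) (.nil)
def t14_11997 : Tr := .node ⟨nat_lit 6, nat_lit 0x2800300030, nat_lit 0x21120, nat_lit 3, nat_lit 4, nat_lit 0x47⟩ (.nil) (.nil)
def t14_7901 : Tr := .node ⟨nat_lit 4, nat_lit 0x80008, nat_lit 0x121, nat_lit 8, nat_lit 4, nat_lit 0x47⟩ (.nil) (.nil)
def t9_221 : Tr := .node ⟨nat_lit 5, nat_lit 0x18, nat_lit 0x10321, nat_lit 3, nat_lit 4, nat_lit 0x49⟩ (.node ⟨nat_lit 5, nat_lit 0x100014001c, nat_lit 0x31131, nat_lit 3, nat_lit 4, nat_lit 0x48⟩ (.node ⟨nat_lit 6, nat_lit 0x10002000240034, nat_lit 0x303010, nat_lit 1, nat_lit 4, nat_lit 0x47⟩ (.node ⟨nat_lit 5, nat_lit 0x40018, nat_lit 0x11133, nat_lit 0, nat_lit 4, nat_lit 0x47⟩ (.node ⟨nat_lit 6, nat_lit 0x2000200010, nat_lit 0x21102, nat_lit 8, nat_lit 4, nat_lit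 0x4a⟩ (t14_221) (t14_8413)) (.node ⟨nat_lit 6, nat_lit 0x20001000300038, nat_lit 0x11223, nat_lit 2, nat_lit 4, nat_lit 0x46⟩ (t14_4317) (t14_12509))) (.node ⟨nat_lit 5, nat_lit 0x1000100008, nat_lit 0x12222, nat_lit 5, nat_lit 4, nat_lit 0x49⟩ (.node ⟨nat_lit 6, nat_lit 0x2000100030, nat_lit 0x11211, nat_lit 0, nat_lit 4, nat_lit 0x47⟩ (t14_2269) (t14_10461)) (.node ⟨nat_lit 7, nat_lit 0x40002000500064, nat_lit 0x1202120, nat_lit 0, nat_lit 4, nat_lit 0x48⟩ (t14_6365) (t14_14557)))) (.node ⟨nat_lit 5, nat_lit 0x100010, nat_lit 0x12211, nat_lit 3, nat_lit 4, nat_lit 0x49⟩ (.node ⟨nat_lit 4, nat_lit 0x80008, nat_lit 0x2131, nat_lit 3, nat_lit 3, nat_lit 0x47⟩ (.node ⟨nat_lit 3, nat_lit 0, nat_lit 0x111, nat_lit 6, nat_lit 4, nat_lit 0x46⟩ (t14_1245) (t14_9437)) (.node ⟨nat_lit 8, nat_lit 0x800080004000c0, nat_lit 0x1112021, nat_lit 0, nat_lit 4,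 nat_lit 0x4a⟩ (t14_5341) (t14_13533))) (.node ⟨nat_lit 5, nat_lit 0x10001c, nat_lit 0x12103, nat_lit 3, nat_lit 4, nat_lit 0x47⟩ (.node ⟨nat_lit 6, nat_lit 0x2800180030, nat_lit 0x11041, nat_lit 4, nat_lit 4, nat_lit 0x47⟩ (t14_3293) (t14_11485)) (.node ⟨nat_lit 7, nat_lit 0x40001000100060, nat_lit 0x1101202, nat_lit 0, nat_lit 4, nat_lit 0x48⟩ (t14_7389) (t14_15581))))) (.node ⟨nat_lit 8, nat_lit 0x20001000c0, nat_lit 0x10003001, nat_lit 1, nat_lit 4, nat_lit 0x4a⟩ (.node ⟨nat_lit 6, nat_lit 0x80030, nat_lit 0x210122, nat_lit 0, nat_lit 4, nat_lit 0x48⟩ (.node ⟨nat_lit 6, nat_lit 0x2000080030, nat_lit 0x120202, nat_lit 1, nat_lit 4, nat_lit 0x48⟩ (.node ⟨nat_lit 6, nat_lit 0x1000200022, nat_lit 0x123011, nat_lit 1, nat_lit 4, nat_lit 0x49⟩ (t14_733) (t14_8925)) (.node ⟨nat_lit 6, nat_lit 0x200020, nat_lit 0x122220, nat_lit 0, nat_lit 3, nat_lit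 0x49⟩ (t14_4829) (t14_13021))) (.node ⟨nat_lit 6, nat_lit 0x2000240018, nat_lit 0x11102, nat_lit 1, nat_lit 4, nat_lit 0x46⟩ (.node ⟨nat_lit 7, nat_lit 0x2000480070, nat_lit 0x1021003, nat_lit 1, nat_lit 4, nat_lit 0x48⟩ (t14_2781) (t14_10973)) (.node ⟨nat_lit 7, nat_lit 0x20004000100044, nat_lit 0x1000122, nat_lit 0, nat_lit 4, nat_lit 0x47⟩ (t14_6877) (t14_15069)))) (.node ⟨nat_lit 5, nat_lit 0x180018, nat_lit 0x11122, nat_lit 4, nat_lit 4, nat_lit 0x47⟩ (.node ⟨nat_lit 5, nat_lit 0x40018, nat_lit 0x122, nat_lit 1, nat_lit 4, nat_lit 0x45⟩ (.node ⟨nat_lit 6, nat_lit 0x280030, nat_lit 0x11011, nat_lit 0, nat_lit 4, nat_lit 0x46⟩ (t14_1757) (t14_9949)) (.node ⟨nat_lit 8, nat_lit 0x80004000400040, nat_lit 0x220200, nat_lit 1, nat_lit 4, nat_lit 0x4b⟩ (t14_5853) (t14_14045))) (.node ⟨nat_lit 6, nat_lit 0x80030, nat_lit 0x300222, nat_lit 0, nat_lit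 4, nat_lit 0x49⟩ (.node ⟨nat_lit 5, nat_lit 0x100018, nat_lit 0x10104, nat_lit 3, nat_lit 4, nat_lit 0x47⟩ (t14_3805) (t14_11997)) (.node ⟨nat_lit 5, nat_lit 0x100010, nat_lit 0x21110, nat_lit 0, nat_lit 3, nat_lit 0x47⟩ (t14_7901) (.nil)))))
def t14_477 : Tr := .node ⟨nat_lit 7, nat_lit 0x10001000200040, nat_lit 0x1111011, nat_lit 1, nat_lit 4, nat_lit 0x49⟩ (.nil) (.nil)
def t14_8669 : Tr := .node ⟨nat_lit 8, nat_lit 0x20001000c000c0, nat_lit 0x20, nat_lit 1, nat_lit 4, nat_lit 0x47⟩ (.nil) (.nil)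
def t14_4573 : Tr := .node ⟨nat_lit 5, nat_lit 0x100018, nat_lit 0x1201, nat_lit 4, nat_lit 3, nat_lit 0x46⟩ (.nil) (.nil)
def t14_12765 : Tr := .node ⟨nat_lit 7, nat_lit 0x40005000300060, nat_lit 0x100301, nat_lit 1, nat_lit 4, nat_lit 0x46⟩ (.nil) (.nil)
def t14_2525 : Tr := .node ⟨nat_lit 7, nat_lit 0x1000500060, nat_lit 0x12121, nat_lit 0, nat_lit 4, nat_lit 0x48⟩ (.nil) (.nil)
def t14_10717 : Tr := .node ⟨nat_lit 8, nat_lit 0x10009000a000c0, nat_lit 0x100021, nat_lit 0, nat_lit 4, nat_lit 0x47⟩ (.nil) (.nil)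
def t14_6621 : Tr := .node ⟨nat_lit 7, nat_lit 0x20002000100040, nat_lit 0x1013010, nat_lit 2, nat_lit 4, nat_lit 0x49⟩ (.nil) (.nil)
def t14_14813 : Tr := .node ⟨nat_lit 9, nat_lit 0x100010000800120014001a0, nat_lit 0x12001, nat_lit 0, nat_lit 4, nat_lit 0x47⟩ (.nil) (.nil)
def t14_1501 : Tr := .node ⟨nat_lit 8, nat_lit 0x800020002000400040, nat_lit 0x101120, nat_lit 1, nat_lit 4, nat_lit 0x49⟩ (.nil) (.nil)
def t14_9693 : Tr := .node ⟨nat_lit 0xb, nat_lit 0x2000400040004000100010004200440, nat_lit 0x1111001, nat_lit 0, nat_lit 4, nat_lit 0x4a⟩ (.nil) (.nil)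
def t14_5597 : Tr := .node ⟨nat_lit 7, nat_lit 0x400040007000700070, nat_lit 0x1001220, nat_lit 5, nat_lit 4, nat_lit 0x46⟩ (.nil) (.nil)
def t14_13789 : Tr := .node ⟨nat_lit 7, nat_lit 0x1000600018, nat_lit 0x2000210, nat_lit 2, nat_lit 4, nat_lit 0x48⟩ (.nil) (.nil)
def t14_3549 : Tr := .node ⟨nat_lit 7, nat_lit 0x10006000600050, nat_lit 0x3201, nat_lit 0, nat_lit 4, nat_lit 0x46⟩ (.nil) (.nil)
def t14_11741 : Tr := .node ⟨nat_lit 5, nat_lit 0x100008, nat_lit 0x204, nat_lit 3, nat_lit 4, nat_lit 0x48⟩ (.nil) (.nil)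
def t14_7645 : Tr := .node ⟨nat_lit 3, nat_lit 0x40006, nat_lit 0x12, nat_lit 9, nat_lit 4, nat_lit 0x44⟩ (.nil) (.nil)
def t14_989 : Tr := .node ⟨nat_lit 7, nat_lit 0x200040004000440048, nat_lit 0x2111, nat_lit 1, nat_lit 4, nat_lit 0x47⟩ (.nil) (.nil)
def t14_9181 : Tr := .node ⟨nat_lit 7, nat_lit 0x400050005000600070, nat_lit 0x10021, nat_lit 1, nat_lit 4, nat_lit 0x45⟩ (.nil) (.nil)
def t14_5085 : Tr := .node ⟨nat_lit 7, nat_lit 0x200040004800600068, nat_lit 0x31011, nat_lit 2, nat_lit 4, nat_lit 0x46⟩ (.nil) (.nil)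
def t14_13277 : Tr := .node ⟨nat_lit 8, nat_lit 0x8000200090009000c0, nat_lit 0x121100, nat_lit 0, nat_lit 4, nat_lit 0x48⟩ (.nil) (.nil)
def t14_3037 : Tr := .node ⟨nat_lit 8, nat_lit 0x80004000a000d000d0, nat_lit 0x10013011, nat_lit 1, nat_lit 4, nat_lit 0x47⟩ (.nil) (.nil)
def t14_11229 : Tr := .node ⟨nat_lit 7, nat_lit 0x6000500050, nat_lit 0x111130, nat_lit 1, nat_lit 4, nat_lit 0x48⟩ (.nil) (.nil)
def t14_7133 : Tr := .node ⟨nat_lit 8, nat_lit 0x4000a000a000c0, nat_lit 0x10020112, nat_lit 0, nat_lit 4, nat_lit 0x48⟩ (.nil) (.nil)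
def t14_15325 : Tr := .node ⟨nat_lit 7, nat_lit 0x40004000400060, nat_lit 0x112110, nat_lit 1, nat_lit 3, nat_lit 0x47⟩ (.nil) (.nil)
def t14_2013 : Tr := .node ⟨nat_lit 5, nat_lit 0x1000080018, nat_lit 0x1303, nat_lit 5, nat_lit 4, nat_lit 0x47⟩ (.nil) (.nil)
def t14_10205 : Tr := .node ⟨nat_lit 5, nat_lit 0x800100012, nat_lit 0x22, nat_lit 0xa, nat_lit 4, nat_lit 0x47⟩ (.nil) (.nil)
def t14_6109 : Tr := .node ⟨nat_lit 7, nat_lit 0x4000200010, nat_lit 0x3000, nat_lit 3, nat_lit 4, nat_lit 0x49⟩ (.nil) (.nil)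
def t14_14301 : Tr := .node ⟨nat_lit 8, nat_lit 0x800040009000d000e0, nat_lit 0x10111003, nat_lit 0, nat_lit 4, nat_lit 0x47⟩ (.nil) (.nil)
def t14_4061 : Tr := .node ⟨nat_lit 6, nat_lit 0x1000280030, nat_lit 0x102210, nat_lit 0, nat_lit 4, nat_lit 0x47⟩ (.nil) (.nil)
def t14_12253 : Tr := .node ⟨nat_lit 7, nat_lit 0x40002000480070, nat_lit 0x112002, nat_lit 1, nat_lit 4, nat_lit 0x47⟩ (.nil) (.nil)
def t14_8157 : Tr := .node ⟨nat_lit 6, nat_lit 0x20001000100038, nat_lit 0x2003, nat_lit 5, nat_lit 4, nat_lit 0x46⟩ (.nil) (.nil)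
def t9_477 : Tr := .node ⟨nat_lit 6, nat_lit 0x200030, nat_lit 0x13302, nat_lit 0, nat_lit 4, nat_lit 0x4a⟩ (.node ⟨nat_lit 7, nat_lit 0x10004000440064, nat_lit 0x3100120, nat_lit 1, nat_lit 4, nat_lit 0x49⟩ (.node ⟨nat_lit 6, nat_lit 0x2000100032, nat_lit 0x22121, nat_lit 0, nat_lit 4, nat_lit 0x48⟩ (.node ⟨nat_lit 7, nat_lit 0x20004000440064, nat_lit 0x1020211, nat_lit 0, nat_lit 4, nat_lit 0x48⟩ (.node ⟨nat_lit 7, nat_lit 0x4000100060, nat_lit 0x21211, nat_lit 0, nat_lit 4, nat_lit 0x49⟩ (t14_477) (t14_8669)) (.node ⟨nat_lit 6, nat_lit 0x2000100024, nat_lit 0x121221, nat_lit 1, nat_lit 4, nat_lit 0x49⟩ (t14_4573) (t14_12765))) (.node ⟨nat_lit 6, nat_lit 0x2000100024, nat_lit 0x111202, nat_lit 0, nat_lit 4, nat_lit 0x48⟩ (.node ⟨nat_lit 6, nat_lit 0x2000100038, nat_lit 0x112223, nat_lit 1, nat_lit 4, nat_lit 0x48⟩ (t14_2525) (t14_10717)) (.node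 ⟨nat_lit 6, nat_lit 0x200022, nat_lit 0x21122, nat_lit 2, nat_lit 4, nat_lit 0x49⟩ (t14_6621) (t14_14813)))) (.node ⟨nat_lit 5, nat_lit 0x800100010, nat_lit 0x1100, nat_lit 0, nat_lit 3, nat_lit 0x44⟩ (.node ⟨nat_lit 7, nat_lit 0x100060, nat_lit 0x2102102, nat_lit 0, nat_lit 3, nat_lit 0x49⟩ (.node ⟨nat_lit 5, nat_lit 0x80010, nat_lit 0x11103, nat_lit 6, nat_lit 4, nat_lit 0x49⟩ (t14_1501) (t14_9693)) (.node ⟨nat_lit 7, nat_lit 0x4000400020, nat_lit 0x1111220, nat_lit 2, nat_lit 4, nat_lit 0x4b⟩ (t14_5597) (t14_13789))) (.node ⟨nat_lit 5, nat_lit 0x100008, nat_lit 0x1204, nat_lit 1, nat_lit 3, nat_lit 0x47⟩ (.node ⟨nat_lit 5, nat_lit 0x40018, nat_lit 0x11010, nat_lit 1, nat_lit 4, nat_lit 0x45⟩ (t14_3549) (t14_11741)) (.node ⟨nat_lit 4, nat_lit 0x8000c, nat_lit 0x1120, nat_lit 6, nat_lit 3, nat_lit 0x45⟩ (t14_7645) (.nil))))) (.node ⟨nat_lit 5,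 nat_lit 0x100008, nat_lit 0x303, nat_lit 3, nat_lit 4, nat_lit 0x48⟩ (.node ⟨nat_lit 5, nat_lit 0x10, nat_lit 0x22220, nat_lit 1, nat_lit 4, nat_lit 0x4a⟩ (.node ⟨nat_lit 8, nat_lit 0x400080, nat_lit 0x11111101, nat_lit 0, nat_lit 4, nat_lit 0x4c⟩ (.node ⟨nat_lit 7, nat_lit 0x20004000100044, nat_lit 0x1000302, nat_lit 3, nat_lit 4, nat_lit 0x49⟩ (t14_989) (t14_9181)) (.node ⟨nat_lit 7, nat_lit 0x20002000400060, nat_lit 0x1022021, nat_lit 1, nat_lit 4, nat_lit 0x49⟩ (t14_5085) (t14_13277))) (.node ⟨nat_lit 6, nat_lit 0xc0030, nat_lit 0x111120, nat_lit 0, nat_lit 4, nat_lit 0x47⟩ (.node ⟨nat_lit 6, nat_lit 0x200030, nat_lit 0x211111, nat_lit 1, nat_lit 3, nat_lit 0x48⟩ (t14_3037) (t14_11229)) (.node ⟨nat_lit 8, nat_lit 0x200080004000c0, nat_lit 0x1010022, nat_lit 4, nat_lit 4, nat_lit 0x4a⟩ (t14_7133) (t14_15325)))) (.node ⟨nat_lit 6, nat_lit 0x1000100020,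 nat_lit 0x102201, nat_lit 0, nat_lit 4, nat_lit 0x48⟩ (.node ⟨nat_lit 7, nat_lit 0x1000100060, nat_lit 0x3011111, nat_lit 1, nat_lit 4, nat_lit 0x4a⟩ (.node ⟨nat_lit 6, nat_lit 0x280030, nat_lit 0x112131, nat_lit 2, nat_lit 4, nat_lit 0x49⟩ (t14_2013) (t14_10205)) (.node ⟨nat_lit 7, nat_lit 0x40001000600070, nat_lit 0x10202, nat_lit 0, nat_lit 4, nat_lit 0x46⟩ (t14_6109) (t14_14301))) (.node ⟨nat_lit 6, nat_lit 0x20001000100028, nat_lit 0x203102, nat_lit 3, nat_lit 4, nat_lit 0x49⟩ (.node ⟨nat_lit 4, nat_lit 0x8000c, nat_lit 0x130, nat_lit 2, nat_lit 3, nat_lit 0x44⟩ (t14_4061) (t14_12253)) (.node ⟨nat_lit 6, nat_lit 0x200010, nat_lit 0x201102, nat_lit 1, nat_lit 3, nat_lit 0x48⟩ (t14_8157) (.nil)))))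
def t14_61 : Tr := .node ⟨nat_lit 6, nat_lit 0x300028, nat_lit 0x112211, nat_lit 1, nat_lit 4, nat_lit 0x49⟩ (.nil) (.nil)
def t14_8253 : Tr := .node ⟨nat_lit 6, nat_lit 0x800300030, nat_lit 0x100030, nat_lit 2, nat_lit 4, nat_lit 0x46⟩ (.nil) (.nil)
def t14_4157 : Tr := .node ⟨nat_lit 9, nat_lit 0x8000800100011000c000c00180, nat_lit 0x101010111, nat_lit 1, nat_lit 4, nat_lit 0x48⟩ (.nil) (.nil)
def t14_12349 : Tr := .node ⟨nat_lit 7, nat_lit 0x10004000600064, nat_lit 0x101, nat_lit 1, nat_lit 4, nat_lit 0x45⟩ (.nil) (.nil)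
def t14_2109 : Tr := .node ⟨nat_lit 5, nat_lit 0x1000100018, nat_lit 0x1202, nat_lit 7, nat_lit 4, nat_lit 0x47⟩ (.nil) (.nil)
def t14_10301 : Tr := .node ⟨nat_lit 7, nat_lit 0x20006000500068, nat_lit 0x100102, nat_lit 0, nat_lit 4, nat_lit 0x45⟩ (.nil) (.nil)
def t14_6205 : Tr := .node ⟨nat_lit 4, nat_lit 8, nat_lit 0x1111, nat_lit 8, nat_lit 4, nat_lit 0x48⟩ (.nil) (.nil)
def t14_14397 : Tr := .node ⟨nat_lit 7, nat_lit 0x20006000500068, nat_lit 0x2301, nat_lit 2, nat_lit 4, nat_lit 0x46⟩ (.nil) (.nil)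
def t14_1085 : Tr := .node ⟨nat_lit 6, nat_lit 0x2000100024, nat_lit 0x111022, nat_lit 0, nat_lit 4, nat_lit 0x47⟩ (.nil) (.nil)
def t14_9277 : Tr := .node ⟨nat_lit 6, nat_lit 0x20001000100030, nat_lit 0x100331, nat_lit 1, nat_lit 3, nat_lit 0x46⟩ (.nil) (.nil)
def t14_5181 : Tr := .node ⟨nat_lit 7, nat_lit 0x40002000500060, nat_lit 0x23001, nat_lit 1, nat_lit 4, nat_lit 0x48⟩ (.nil) (.nil)
def t14_13373 : Tr := .node ⟨nat_lit 6, nat_lit 0x20001000280038, nat_lit 0x2500, nat_lit 1, nat_lit 4, nat_lit 0x46⟩ (.nil) (.nil)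
def t14_3133 : Tr := .node ⟨nat_lit 6, nat_lit 0x2000100010, nat_lit 0x10100, nat_lit 0, nat_lit 3, nat_lit 0x46⟩ (.nil) (.nil)
def t14_11325 : Tr := .node ⟨nat_lit 8, nat_lit 0x20008000c000c0, nat_lit 0x10120, nat_lit 5, nat_lit 4, nat_lit 0x49⟩ (.nil) (.nil)
def t14_7229 : Tr := .node ⟨nat_lit 5, nat_lit 0x100010001c, nat_lit 0x2211, nat_lit 5, nat_lit 4, nat_lit 0x47⟩ (.nil) (.nil)
def t14_15421 : Tr := .node ⟨nat_lit 0xb, nat_lit 0x40002000200020002400240022005000680, nat_lit 0x10100010011, nat_lit 0, nat_lit 4, nat_lit 0x48⟩ (.nil) (.nil)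
def t14_573 : Tr := .node ⟨nat_lit 6, nat_lit 0x10002000300034, nat_lit 0x2022, nat_lit 3, nat_lit 4, nat_lit 0x45⟩ (.nil) (.nil)
def t14_8765 : Tr := .node ⟨nat_lit 8, nat_lit 0x8000800040009000d0, nat_lit 0x110013, nat_lit 4, nat_lit 4, nat_lit 0x48⟩ (.nil) (.nil)
def t14_4669 : Tr := .node ⟨nat_lit 6, nat_lit 0x2000300028, nat_lit 0x110221, nat_lit 2, nat_lit 3, nat_lit 0x46⟩ (.nil) (.nil)
def t14_12861 : Tr := .node ⟨nat_lit 6, nat_lit 0x800280030, nat_lit 0x20100, nat_lit 2, nat_lit 4, nat_lit 0x46⟩ (.nil) (.nil)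
def t14_2621 : Tr := .node ⟨nat_lit 7, nat_lit 0x200040004800600060, nat_lit 0x31010, nat_lit 3, nat_lit 4, nat_lit 0x47⟩ (.nil) (.nil)
def t14_10813 : Tr := .node ⟨nat_lit 7, nat_lit 0x40002000200060, nat_lit 0x10202, nat_lit 7, nat_lit 4, nat_lit 0x49⟩ (.nil) (.nil)
def t14_6717 : Tr := .node ⟨nat_lit 7, nat_lit 0x4000500060, nat_lit 0x111101, nat_lit 2, nat_lit 4, nat_lit 0x48⟩ (.nil) (.nil)
def t14_14909 : Tr := .node ⟨nat_lit 6, nat_lit 0x20002800280038, nat_lit 0x101211, nat_lit 6, nat_lit 4, nat_lit 0x47⟩ (.nil) (.nil)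
def t14_1597 : Tr := .node ⟨nat_lit 7, nat_lit 0x40002000600068, nat_lit 0x11021, nat_lit 0, nat_lit 4, nat_lit 0x46⟩ (.nil) (.nil)
def t14_9789 : Tr := .node ⟨nat_lit 8, nat_lit 0x40006000a000a000c0, nat_lit 0x2202, nat_lit 0, nat_lit 4, nat_lit 0x46⟩ (.nil) (.nil)
def t14_5693 : Tr := .node ⟨nat_lit 6, nat_lit 0x10002000300034, nat_lit 0x202102, nat_lit 3, nat_lit 4, nat_lit 0x47⟩ (.nil) (.nil)
def t14_13885 : Tr := .node ⟨nat_lit 5, nat_lit 0x1000080014, nat_lit 0x132, nat_lit 2, nat_lit 4, nat_lit 0x45⟩ (.nil) (.nil)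
def t14_3645 : Tr := .node ⟨nat_lit 5, nat_lit 0x100018, nat_lit 0x213, nat_lit 2, nat_lit 4, nat_lit 0x46⟩ (.nil) (.nil)
def t14_11837 : Tr := .node ⟨nat_lit 6, nat_lit 0x80030, nat_lit 0x132, nat_lit 1, nat_lit 4, nat_lit 0x47⟩ (.nil) (.nil)
def t14_7741 : Tr := .node ⟨nat_lit 5, nat_lit 0x1000100008, nat_lit 0x112, nat_lit 4, nat_lit 4, nat_lit 0x46⟩ (.nil) (.nil)
def t9_61 : Tr := .node ⟨nat_lit 5, nat_lit 0x10, nat_lit 0x32111, nat_lit 1, nat_lit 4, nat_lit 0x4a⟩ (.node ⟨nat_lit 5, nat_lit 0x100010, nat_lit 0x13220, nat_lit 0, nat_lit 3, nat_lit 0x48⟩ (.node ⟨nat_lit 6, nat_lit 0x10002000340034, nat_lit 0x302020, nat_lit 4, nat_lit 4, nat_lit 0x47⟩ (.node ⟨nat_lit 6, nat_lit 0x2000100024, nat_lit 0x112001, nat_lit 1, nat_lit 4, nat_lit 0x47⟩ (.node ⟨nat_lit 7, nat_lit 0x4000600050, nat_lit 0x22103, nat_lit 1, nat_lit 4, nat_lit 0x49⟩ (t14_61)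 (t14_8253)) (.node ⟨nat_lit 6, nat_lit 0x1000280030, nat_lit 0x11001, nat_lit 2, nat_lit 4, nat_lit 0x46⟩ (t14_4157) (t14_12349))) (.node ⟨nat_lit 5, nat_lit 0x100018, nat_lit 0x12132, nat_lit 5, nat_lit 4, nat_lit 0x49⟩ (.node ⟨nat_lit 6, nat_lit 0x2000100038, nat_lit 0x12213, nat_lit 1, nat_lit 4, nat_lit 0x47⟩ (t14_2109) (t14_10301)) (.node ⟨nat_lit 6, nat_lit 0x280030, nat_lit 0x22012, nat_lit 0, nat_lit 4, nat_lit 0x48⟩ (t14_6205) (t14_14397)))) (.node ⟨nat_lit 5, nat_lit 0x18, nat_lit 0x21002, nat_lit 0, nat_lit 4, nat_lit 0x47⟩ (.node ⟨nat_lit 6, nat_lit 0x800200032, nat_lit 0x221110, nat_lit 0, nat_lit 4, nat_lit 0x48⟩ (.node ⟨nat_lit 6, nat_lit 0x10001000200022, nat_lit 0x111130, nat_lit 1, nat_lit 4, nat_lit 0x48⟩ (t14_1085) (t14_9277)) (.node ⟨nat_lit 6, nat_lit 0x800300030, nat_lit 0x101041, nat_lit 1, nat_lit 4, nat_lit 0x47⟩ (t14_5181)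 (t14_13373))) (.node ⟨nat_lit 6, nat_lit 0x200030, nat_lit 0x102101, nat_lit 4, nat_lit 4, nat_lit 0x49⟩ (.node ⟨nat_lit 6, nat_lit 0x200030, nat_lit 0x102100, nat_lit 1, nat_lit 4, nat_lit 0x48⟩ (t14_3133) (t14_11325)) (.node ⟨nat_lit 3, nat_lit 0x40006, nat_lit 0x113, nat_lit 7, nat_lit 4, nat_lit 0x45⟩ (t14_7229) (t14_15421))))) (.node ⟨nat_lit 3, nat_lit 6, nat_lit 0x312, nat_lit 2, nat_lit 3, nat_lit 0x45⟩ (.node ⟨nat_lit 4, nat_lit 8, nat_lit 0x2113, nat_lit 6, nat_lit 4, nat_lit 0x49⟩ (.node ⟨nat_lit 7, nat_lit 0x40002000200020, nat_lit 0x20210, nat_lit 1, nat_lit 4, nat_lit 0x49⟩ (.node ⟨nat_lit 8, nat_lit 0x800040, nat_lit 0x12111101, nat_lit 0, nat_lit 4, nat_lit 0x4d⟩ (t14_573) (t14_8765)) (.node ⟨nat_lit 6, nat_lit 0x2000080030, nat_lit 0x211012, nat_lit 1, nat_lit 3, nat_lit 0x47⟩ (t14_4669) (t14_12861))) (.node ⟨nat_lit 6, nat_lit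 0x1000300028, nat_lit 0x100012, nat_lit 0, nat_lit 4, nat_lit 0x45⟩ (.node ⟨nat_lit 8, nat_lit 0x8000400020, nat_lit 0x111003, nat_lit 1, nat_lit 4, nat_lit 0x4b⟩ (t14_2621) (t14_10813)) (.node ⟨nat_lit 6, nat_lit 0x20, nat_lit 0x121110, nat_lit 8, nat_lit 4, nat_lit 0x4c⟩ (t14_6717) (t14_14909)))) (.node ⟨nat_lit 6, nat_lit 0x2000080010, nat_lit 0x21211, nat_lit 0, nat_lit 4, nat_lit 0x48⟩ (.node ⟨nat_lit 6, nat_lit 0x1000200030, nat_lit 0x122021, nat_lit 0, nat_lit 4, nat_lit 0x49⟩ (.node ⟨nat_lit 3, nat_lit 4, nat_lit 0x10, nat_lit 3, nat_lit 4, nat_lit 0x42⟩ (t14_1597) (t14_9789)) (.node ⟨nat_lit 7, nat_lit 0x40001000600068, nat_lit 0x112012, nat_lit 1, nat_lit 4, nat_lit 0x47⟩ (t14_5693) (t14_13885))) (.node ⟨nat_lit 6, nat_lit 0x20001000140028, nat_lit 0x201210, nat_lit 0, nat_lit 4, nat_lit 0x46⟩ (.node ⟨nat_lit 5, nat_lit 0x18001c, nat_lit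 0x11103, nat_lit 3, nat_lit 4, nat_lit 0x46⟩ (t14_3645) (t14_11837)) (.node ⟨nat_lit 6, nat_lit 0x280030, nat_lit 0x211100, nat_lit 0, nat_lit 3, nat_lit 0x47⟩ (t14_7741) (.nil)))))
def t14_317 : Tr := .node ⟨nat_lit 7, nat_lit 0x1000500060, nat_lit 0x1102212, nat_lit 1, nat_lit 4, nat_lit 0x49⟩ (.nil) (.nil)
def t14_8509 : Tr := .node ⟨nat_lit 8, nat_lit 0x800080004000900090, nat_lit 0x111031, nat_lit 3, nat_lit 4, nat_lit 0x49⟩ (.nil) (.nil)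
def t14_4413 : Tr := .node ⟨nat_lit 7, nat_lit 0x2000100040, nat_lit 0x1112010, nat_lit 5, nat_lit 4, nat_lit 0x4b⟩ (.nil) (.nil)
def t14_12605 : Tr := .node ⟨nat_lit 6, nat_lit 0x300038, nat_lit 0x100003, nat_lit 0, nat_lit 4, nat_lit 0x45⟩ (.nil) (.nil)
def t14_2365 : Tr := .node ⟨nat_lit 7, nat_lit 0x40004000100020, nat_lit 0x21002, nat_lit 0, nat_lit 4, nat_lit 0x48⟩ (.nil) (.nil)
def t14_10557 : Tr := .node ⟨nat_lit 6, nat_lit 0x20001000280034, nat_lit 0x10020, nat_lit 4, nat_lit 4, nat_lit 0x45⟩ (.nil) (.nil)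
def t14_6461 : Tr := .node ⟨nat_lit 6, nat_lit 0x1000200030, nat_lit 0x111110, nat_lit 3, nat_lit 4, nat_lit 0x48⟩ (.nil) (.nil)
def t14_14653 : Tr := .node ⟨nat_lit 8, nat_lit 0x10008000a000c0, nat_lit 0x1100211, nat_lit 2, nat_lit 4, nat_lit 0x49⟩ (.nil) (.nil)
def t14_1341 : Tr := .node ⟨nat_lit 6, nat_lit 0x2000200010, nat_lit 0x11211, nat_lit 6, nat_lit 4, nat_lit 0x49⟩ (.nil) (.nil)
def t14_9533 : Tr := .node ⟨nat_lit 8, nat_lit 0x800080009000900088, nat_lit 0x11111110, nat_lit 3, nat_lit 4, nat_lit 0x4a⟩ (.nil) (.nil)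
def t14_5437 : Tr := .node ⟨nat_lit 6, nat_lit 0x1000200032, nat_lit 0x101301, nat_lit 5, nat_lit 4, nat_lit 0x48⟩ (.nil) (.nil)
def t14_13629 : Tr := .node ⟨nat_lit 5, nat_lit 0x40018, nat_lit 0x10030, nat_lit 1, nat_lit 3, nat_lit 0x45⟩ (.nil) (.nil)
def t14_3389 : Tr := .node ⟨nat_lit 7, nat_lit 0x20002000400060, nat_lit 0x21001, nat_lit 2, nat_lit 4, nat_lit 0x48⟩ (.nil) (.nil)
def t14_11581 : Tr := .node ⟨nat_lit 7, nat_lit 0x10006000600060, nat_lit 0x11410, nat_lit 0, nat_lit 4, nat_lit 0x47⟩ (.nil) (.nil)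
def t14_7485 : Tr := .node ⟨nat_lit 8, nat_lit 0x4000800080, nat_lit 0x1111100, nat_lit 1, nat_lit 4, nat_lit 0x4b⟩ (.nil) (.nil)
def t14_829 : Tr := .node ⟨nat_lit 6, nat_lit 0x2000300030, nat_lit 0x12311, nat_lit 1, nat_lit 3, nat_lit 0x46⟩ (.nil) (.nil)
def t14_9021 : Tr := .node ⟨nat_lit 9, nat_lit 0x10001000080012001100180, nat_lit 0x1210111, nat_lit 0, nat_lit 4, nat_lit 0x49⟩ (.nil) (.nil)
def t14_4925 : Tr := .node ⟨nat_lit 5, nat_lit 0x1000180018, nat_lit 0x1031, nat_lit 9, nat_lit 4, nat_lit 0x47⟩ (.nil) (.nil)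
def t14_13117 : Tr := .node ⟨nat_lit 6, nat_lit 0x800200030, nat_lit 0x200000, nat_lit 1, nat_lit 3, nat_lit 0x46⟩ (.nil) (.nil)
def t14_2877 : Tr := .node ⟨nat_lit 7, nat_lit 0x10001000500060, nat_lit 0x1102102, nat_lit 0, nat_lit 4, nat_lit 0x48⟩ (.nil) (.nil)
def t14_11069 : Tr := .node ⟨nat_lit 4, nat_lit 0xc000c, nat_lit 0x1020, nat_lit 0xb, nat_lit 4, nat_lit 0x46⟩ (.nil) (.nil)
def t14_6973 : Tr := .node ⟨nat_lit 6, nat_lit 0xc0030, nat_lit 0x210011, nat_lit 1, nat_lit 4, nat_lit 0x47⟩ (.nil) (.nil)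
def t14_15165 : Tr := .node ⟨nat_lit 9, nat_lit 0x8000800100010000c001100190, nat_lit 0x101011111, nat_lit 0, nat_lit 4, nat_lit 0x48⟩ (.nil) (.nil)
def t14_1853 : Tr := .node ⟨nat_lit 5, nat_lit 0x100018, nat_lit 0x3112, nat_lit 3, nat_lit 4, nat_lit 0x48⟩ (.nil) (.nil)
def t14_10045 : Tr := .node ⟨nat_lit 6, nat_lit 0x20003000380038, nat_lit 0x110220, nat_lit 6, nat_lit 4, nat_lit 0x46⟩ (.nil) (.nil)
def t14_5949 : Tr := .node ⟨nat_lit 6, nat_lit 0x1000200030, nat_lit 0x101211, nat_lit 4, nat_lit 4, nat_lit 0x48⟩ (.nil) (.nil)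
def t14_14141 : Tr := .node ⟨nat_lit 8, nat_lit 0x800080008000400040, nat_lit 0x120021, nat_lit 0, nat_lit 4, nat_lit 0x49⟩ (.nil) (.nil)
def t14_3901 : Tr := .node ⟨nat_lit 7, nat_lit 0x200040004800300068, nat_lit 0x1001001, nat_lit 1, nat_lit 4, nat_lit 0x45⟩ (.nil) (.nil)
def t14_12093 : Tr := .node ⟨nat_lit 8, nat_lit 0x2000c000c000a0, nat_lit 0x111210, nat_lit 1, nat_lit 4, nat_lit 0x48⟩ (.nil) (.nil)
def t14_7997 : Tr := .node ⟨nat_lit 7, nat_lit 0x40002000240048, nat_lit 0x1010240, nat_lit 0, nat_lit 4, nat_lit 0x48⟩ (.nil) (.nil)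
def t9_317 : Tr := .node ⟨nat_lit 4, nat_lit 0x80008, nat_lit 0x1321, nat_lit 5, nat_lit 4, nat_lit 0x48⟩ (.node ⟨nat_lit 7, nat_lit 0x40002000500060, nat_lit 0x31022, nat_lit 0, nat_lit 4, nat_lit 0x48⟩ (.node ⟨nat_lit 2, nat_lit 0, nat_lit 0x32, nat_lit 0x13, nat_lit 4, nat_lit 0x49⟩ (.node ⟨nat_lit 6, nat_lit 0x200030, nat_lit 0x11102, nat_lit 0, nat_lit 4, nat_lit 0x47⟩ (.node ⟨nat_lit 6, nat_lit 0x1000280034, nat_lit 0x122210, nat_lit 0, nat_lit 4, nat_lit 0x48⟩ (t14_317) (t14_8509)) (.node ⟨nat_lit 5, nat_lit 0x100018, nat_lit 0x11140, nat_lit 4, nat_lit 3, nat_lit 0x47⟩ (t14_4413) (t14_12605))) (.node ⟨nat_lit 5, nat_lit 0x100018, nat_lit 0x20112, nat_lit 0xa, nat_lit 4, nat_lit 0x49⟩ (.node ⟨nat_lit 7, nat_lit 0x10002000500060, nat_lit 0x1012032, nat_lit 0, nat_lit 4, nat_lit 0x48⟩ (t14_2365) (t14_10557)) (.node ⟨nat_lit 6, nat_lit 0x200030,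 nat_lit 0x12120, nat_lit 3, nat_lit 4, nat_lit 0x49⟩ (t14_6461) (t14_14653)))) (.node ⟨nat_lit 5, nat_lit 0x80010, nat_lit 0x12110, nat_lit 0, nat_lit 4, nat_lit 0x47⟩ (.node ⟨nat_lit 7, nat_lit 0x1000400062, nat_lit 0x2201021, nat_lit 1, nat_lit 4, nat_lit 0x4a⟩ (.node ⟨nat_lit 5, nat_lit 0x100008, nat_lit 0x10104, nat_lit 0, nat_lit 3, nat_lit 0x46⟩ (t14_1341) (t14_9533)) (.node ⟨nat_lit 7, nat_lit 0x20004000100060, nat_lit 0x121012, nat_lit 3, nat_lit 4, nat_lit 0x49⟩ (t14_5437) (t14_13629))) (.node ⟨nat_lit 7, nat_lit 0x400060, nat_lit 0x22110, nat_lit 0, nat_lit 4, nat_lit 0x4a⟩ (.node ⟨nat_lit 8, nat_lit 0x80008000800040004000a0, nat_lit 0x1111300, nat_lit 0, nat_lit 4, nat_lit 0x49⟩ (t14_3389) (t14_11581)) (.node ⟨nat_lit 6, nat_lit 0x2000080030, nat_lit 0x1112, nat_lit 1, nat_lit 4, nat_lit 0x46⟩ (t14_7485) (.nil))))) (.node ⟨nat_lit 5,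 nat_lit 0x100018, nat_lit 0x1312, nat_lit 2, nat_lit 4, nat_lit 0x47⟩ (.node ⟨nat_lit 4, nat_lit 0xc, nat_lit 0x2013, nat_lit 3, nat_lit 4, nat_lit 0x46⟩ (.node ⟨nat_lit 5, nat_lit 0, nat_lit 0x11111, nat_lit 0, nat_lit 4, nat_lit 0x48⟩ (.node ⟨nat_lit 6, nat_lit 0x100020, nat_lit 0x221130, nat_lit 0, nat_lit 4, nat_lit 0x4b⟩ (t14_829) (t14_9021)) (.node ⟨nat_lit 6, nat_lit 0x200020, nat_lit 0x122120, nat_lit 3, nat_lit 4, nat_lit 0x4b⟩ (t14_4925) (t14_13117))) (.node ⟨nat_lit 6, nat_lit 0x800300028, nat_lit 0x110200, nat_lit 0, nat_lit 3, nat_lit 0x45⟩ (.node ⟨nat_lit 6, nat_lit 0x2000200010, nat_lit 0x11102, nat_lit 3, nat_lit 4, nat_lit 0x48⟩ (t14_2877) (t14_11069)) (.node ⟨nat_lit 9, nat_lit 0x100008001080108, nat_lit 0x101111020, nat_lit 0, nat_lit 4, nat_lit 0x4b⟩ (t14_6973) (t14_15165)))) (.node ⟨nat_lit 4, nat_lit 0xc, nat_lit 0x2220, nat_lit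 3, nat_lit 4, nat_lit 0x48⟩ (.node ⟨nat_lit 7, nat_lit 0x20005000680068, nat_lit 0x121121, nat_lit 0, nat_lit 4, nat_lit 0x46⟩ (.node ⟨nat_lit 6, nat_lit 0x20002000100038, nat_lit 0x1001, nat_lit 3, nat_lit 4, nat_lit 0x45⟩ (t14_1853) (t14_10045)) (.node ⟨nat_lit 7, nat_lit 0x10001000400060, nat_lit 0x210002, nat_lit 1, nat_lit 4, nat_lit 0x48⟩ (t14_5949) (t14_14141))) (.node ⟨nat_lit 7, nat_lit 0x10004000400060, nat_lit 0x100221, nat_lit 0, nat_lit 4, nat_lit 0x48⟩ (.node ⟨nat_lit 7, nat_lit 0x40001000600070, nat_lit 0x10303, nat_lit 1, nat_lit 4, nat_lit 0x47⟩ (t14_3901) (t14_12093)) (.node ⟨nat_lit 7, nat_lit 0x5000500060, nat_lit 0x1102210, nat_lit 0, nat_lit 4, nat_lit 0x48⟩ (t14_7997) (.nil)))))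
def t14_189 : Tr := .node ⟨nat_lit 6, nat_lit 0x800280030, nat_lit 0x21111, nat_lit 2, nat_lit 4, nat_lit 0x47⟩ (.nil) (.nil)
def t14_8381 : Tr := .node ⟨nat_lit 5, nat_lit 0x10001000180018, nat_lit 0x1131, nat_lit 0xa, nat_lit 4, nat_lit 0x47⟩ (.nil) (.nil)
def t14_4285 : Tr := .node ⟨nat_lit 9, nat_lit 0x1000100010000800110, nat_lit 0x12101110, nat_lit 0, nat_lit 4, nat_lit 0x4b⟩ (.nil) (.nil)
def t14_12477 : Tr := .node ⟨nat_lit 7, nat_lit 0x4000400070, nat_lit 0x1003, nat_lit 1, nat_lit 4, nat_lit 0x47⟩ (.nil) (.nil)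
def t14_2237 : Tr := .node ⟨nat_lit 7, nat_lit 0x40001000480060, nat_lit 0x22120, nat_lit 1, nat_lit 4, nat_lit 0x48⟩ (.nil) (.nil)
def t14_10429 : Tr := .node ⟨nat_lit 8, nat_lit 0x80009000c000d000d0, nat_lit 0x10100220, nat_lit 2, nat_lit 4, nat_lit 0x47⟩ (.nil) (.nil)
def t14_6333 : Tr := .node ⟨nat_lit 6, nat_lit 0x2000340038, nat_lit 0x100002, nat_lit 3, nat_lit 4, nat_lit 0x45⟩ (.nil) (.nil)
def t14_14525 : Tr := .node ⟨nat_lit 0xa, nat_lit 0x2000040021003000280, nat_lit 0x120010, nat_lit 1, nat_lit 4, nat_lit 0x4a⟩ (.nil) (.nil)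
def t14_1213 : Tr := .node ⟨nat_lit 7, nat_lit 0x40001000480060, nat_lit 0x12101, nat_lit 0, nat_lit 4, nat_lit 0x47⟩ (.nil) (.nil)
def t14_9405 : Tr := .node ⟨nat_lit 6, nat_lit 0x2000200030, nat_lit 0x101220, nat_lit 2, nat_lit 3, nat_lit 0x47⟩ (.nil) (.nil)
def t14_5309 : Tr := .node ⟨nat_lit 7, nat_lit 0x5000180060, nat_lit 0x1111021, nat_lit 1, nat_lit 4, nat_lit 0x48⟩ (.nil) (.nil)
def t14_13501 : Tr := .node ⟨nat_lit 4, nat_lit 0x80004, nat_lit 2, nat_lit 9, nat_lit 3, nat_lit 0x45⟩ (.nil) (.nil)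
def t14_3261 : Tr := .node ⟨nat_lit 7, nat_lit 0x200020004000400040, nat_lit 0x110220, nat_lit 3, nat_lit 4, nat_lit 0x49⟩ (.nil) (.nil)
def t14_11453 : Tr := .node ⟨nat_lit 8, nat_lit 0x400080008000c800c8, nat_lit 0x10110220, nat_lit 1, nat_lit 4, nat_lit 0x48⟩ (.nil) (.nil)
def t14_7357 : Tr := .node ⟨nat_lit 6, nat_lit 0x800280030, nat_lit 0x22112, nat_lit 1, nat_lit 4, nat_lit 0x48⟩ (.nil) (.nil)
def t14_15549 : Tr := .node ⟨nat_lit 0xb, nat_lit 0x40002000100, nat_lit 0x11111000, nat_lit 1, nat_lit 4, nat_lit 0x4f⟩ (.nil) (.nil)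
def t14_701 : Tr := .node ⟨nat_lit 6, nat_lit 0x10001000200022, nat_lit 0x11130, nat_lit 1, nat_lit 4, nat_lit 0x47⟩ (.nil) (.nil)
def t14_8893 : Tr := .node ⟨nat_lit 7, nat_lit 0x6000600050, nat_lit 0x1103, nat_lit 0, nat_lit 4, nat_lit 0x46⟩ (.nil) (.nil)
def t14_4797 : Tr := .node ⟨nat_lit 7, nat_lit 0x1000400060, nat_lit 0x1003012, nat_lit 0, nat_lit 4, nat_lit 0x49⟩ (.nil) (.nil)
def t14_12989 : Tr := .node ⟨nat_lit 7, nat_lit 0x40002000480068, nat_lit 0x12002, nat_lit 2, nat_lit 4, nat_lit 0x47⟩ (.nil) (.nil)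
def t14_2749 : Tr := .node ⟨nat_lit 7, nat_lit 0x10001000500060, nat_lit 0x201102, nat_lit 0, nat_lit 4, nat_lit 0x47⟩ (.nil) (.nil)
def t14_10941 : Tr := .node ⟨nat_lit 9, nat_lit 0x100010000800080012001400180, nat_lit 0x1120002, nat_lit 0, nat_lit 4, nat_lit 0x48⟩ (.nil) (.nil)
def t14_6845 : Tr := .node ⟨nat_lit 7, nat_lit 0x40001000480068, nat_lit 0x1012101, nat_lit 2, nat_lit 4, nat_lit 0x48⟩ (.nil) (.nil)
def t14_15037 : Tr := .node ⟨nat_lit 8, nat_lit 0x8000400050005000a000c0, nat_lit 0x10211101, nat_lit 1, nat_lit 4, nat_lit 0x47⟩ (.nil) (.nil)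
def t14_1725 : Tr := .node ⟨nat_lit 9, nat_lit 0x10000800080012001800190, nat_lit 0x1111120, nat_lit 0, nat_lit 4, nat_lit 0x48⟩ (.nil) (.nil)
def t14_9917 : Tr := .node ⟨nat_lit 7, nat_lit 0x6000600060, nat_lit 0x11420, nat_lit 0, nat_lit 4, nat_lit 0x48⟩ (.nil) (.nil)
def t14_5821 : Tr := .node ⟨nat_lit 7, nat_lit 0x4000100020, nat_lit 0x11002, nat_lit 3, nat_lit 4, nat_lit 0x49⟩ (.nil) (.nil)
def t14_14013 : Tr := .node ⟨nat_lit 6, nat_lit 0x80030, nat_lit 0x112, nat_lit 3, nat_lit 4, nat_lit 0x47⟩ (.nil) (.nil)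
def t14_3773 : Tr := .node ⟨nat_lit 9, nat_lit 0x100010001000080012001c001c0, nat_lit 0x21020, nat_lit 1, nat_lit 4, nat_lit 0x47⟩ (.nil) (.nil)
def t14_11965 : Tr := .node ⟨nat_lit 6, nat_lit 0x2000240030, nat_lit 0x11220, nat_lit 5, nat_lit 4, nat_lit 0x48⟩ (.nil) (.nil)
def t14_7869 : Tr := .node ⟨nat_lit 7, nat_lit 0x400020002000500070, nat_lit 0x11012, nat_lit 0, nat_lit 4, nat_lit 0x45⟩ (.nil) (.nil)
def t9_189 : Tr := .node ⟨nat_lit 5, nat_lit 0x80010, nat_lit 0x12321, nat_lit 0, nat_lit 4, nat_lit 0x49⟩ (.node ⟨nat_lit 6, nat_lit 0x10002000200030, nat_lit 0x12102, nat_lit 0, nat_lit 3, nat_lit 0x45⟩ (.node ⟨nat_lit 6, nat_lit 0x1000200030, nat_lit 0x13012, nat_lit 2, nat_lit 4, nat_lit 0x48⟩ (.node ⟨nat_lit 5, nat_lit 0x40018, nat_lit 0x21003, nat_lit 6, nat_lit 4, nat_lit 0x48⟩ (.node ⟨nat_lit 8, nat_lit 0x800010002000c0, nat_lit 0x2110112,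 nat_lit 0, nat_lit 4, nat_lit 0x4a⟩ (t14_189) (t14_8381)) (.node ⟨nat_lit 5, nat_lit 0x800100010, nat_lit 0x20020, nat_lit 0, nat_lit 3, nat_lit 0x46⟩ (t14_4285) (t14_12477))) (.node ⟨nat_lit 7, nat_lit 0x40002000200010, nat_lit 0x120213, nat_lit 0, nat_lit 4, nat_lit 0x4a⟩ (.node ⟨nat_lit 7, nat_lit 0x3000500060, nat_lit 0x11132, nat_lit 0, nat_lit 4, nat_lit 0x47⟩ (t14_2237) (t14_10429)) (.node ⟨nat_lit 7, nat_lit 0x1000400060, nat_lit 0x102022, nat_lit 2, nat_lit 4, nat_lit 0x49⟩ (t14_6333) (t14_14525)))) (.node ⟨nat_lit 6, nat_lit 0x1000100020, nat_lit 0x111211, nat_lit 3, nat_lit 4, nat_lit 0x49⟩ (.node ⟨nat_lit 6, nat_lit 0x2000080030, nat_lit 0x121211, nat_lit 3, nat_lit 4, nat_lit 0x49⟩ (.node ⟨nat_lit 7, nat_lit 0x4000200010, nat_lit 0x11004, nat_lit 2, nat_lit 4, nat_lit 0x4a⟩ (t14_1213) (t14_9405)) (.node ⟨nat_lit 8, nat_lit 0x1000a000c0,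 nat_lit 0x11102012, nat_lit 0, nat_lit 4, nat_lit 0x4a⟩ (t14_5309) (t14_13501))) (.node ⟨nat_lit 6, nat_lit 0x800280030, nat_lit 0x20303, nat_lit 0, nat_lit 4, nat_lit 0x47⟩ (.node ⟨nat_lit 6, nat_lit 0x20002000100030, nat_lit 0x12001, nat_lit 0, nat_lit 3, nat_lit 0x45⟩ (t14_3261) (t14_11453)) (.node ⟨nat_lit 6, nat_lit 0x1000200020, nat_lit 0x111110, nat_lit 1, nat_lit 4, nat_lit 0x48⟩ (t14_7357) (t14_15549))))) (.node ⟨nat_lit 2, nat_lit 0, nat_lit 0x31, nat_lit 0xf, nat_lit 4, nat_lit 0x48⟩ (.node ⟨nat_lit 5, nat_lit 0x40018, nat_lit 0x10001, nat_lit 1, nat_lit 3, nat_lit 0x44⟩ (.node ⟨nat_lit 6, nat_lit 0x1000200020, nat_lit 0x102211, nat_lit 0, nat_lit 4, nat_lit 0x48⟩ (.node ⟨nat_lit 7, nat_lit 0x800500060, nat_lit 0x1002112, nat_lit 0, nat_lit 4, nat_lit 0x48⟩ (t14_701) (t14_8893)) (.node ⟨nat_lit 5, nat_lit 0x1000080018, nat_lit 0x20030,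 nat_lit 1, nat_lit 3, nat_lit 0x45⟩ (t14_4797) (t14_12989))) (.node ⟨nat_lit 6, nat_lit 0x2000200034, nat_lit 0x11001, nat_lit 2, nat_lit 4, nat_lit 0x46⟩ (.node ⟨nat_lit 7, nat_lit 0x40002000480070, nat_lit 0x121103, nat_lit 0, nat_lit 4, nat_lit 0x47⟩ (t14_2749) (t14_10941)) (.node ⟨nat_lit 6, nat_lit 0x20001000100010, nat_lit 0x102100, nat_lit 2, nat_lit 4, nat_lit 0x47⟩ (t14_6845) (t14_15037)))) (.node ⟨nat_lit 6, nat_lit 0x2000100030, nat_lit 0x111122, nat_lit 0, nat_lit 4, nat_lit 0x48⟩ (.node ⟨nat_lit 5, nat_lit 0x800080010, nat_lit 0x11202, nat_lit 2, nat_lit 4, nat_lit 0x47⟩ (.node ⟨nat_lit 4, nat_lit 0x40008, nat_lit 2, nat_lit 4, nat_lit 4, nat_lit 0x44⟩ (t14_1725) (t14_9917)) (.node ⟨nat_lit 7, nat_lit 0x600060, nat_lit 0x22021, nat_lit 0, nat_lit 4, nat_lit 0x49⟩ (t14_5821) (t14_14013))) (.node ⟨nat_lit 6, nat_lit 0x2000200034, nat_lit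 0x112010, nat_lit 2, nat_lit 4, nat_lit 0x48⟩ (.node ⟨nat_lit 7, nat_lit 0x3000600050, nat_lit 0x11103, nat_lit 0, nat_lit 4, nat_lit 0x47⟩ (t14_3773) (t14_11965)) (.node ⟨nat_lit 8, nat_lit 0x20001000c000c0, nat_lit 0x10010121, nat_lit 3, nat_lit 4, nat_lit 0x49⟩ (t14_7869) (.nil)))))
def t14_445 : Tr := .node ⟨nat_lit 6, nat_lit 0x20002000100010, nat_lit 0x113210, nat_lit 0, nat_lit 4, nat_lit 0x49⟩ (.nil) (.nil)
def t14_8637 : Tr := .node ⟨nat_lit 5, nat_lit 0x40018, nat_lit 0x10, nat_lit 0, nat_lit 4, nat_lit 0x43⟩ (.nil) (.nil)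
def t14_4541 : Tr := .node ⟨nat_lit 6, nat_lit 0x2000080010, nat_lit 0x12002, nat_lit 4, nat_lit 4, nat_lit 0x49⟩ (.nil) (.nil)
def t14_12733 : Tr := .node ⟨nat_lit 6, nat_lit 0x2000080030, nat_lit 0x31210, nat_lit 0, nat_lit 4, nat_lit 0x48⟩ (.nil) (.nil)
def t14_2493 : Tr := .node ⟨nat_lit 7, nat_lit 0x10001800500060, nat_lit 0x1102002, nat_lit 0, nat_lit 4, nat_lit 0x47⟩ (.nil) (.nil)
def t14_10685 : Tr := .node ⟨nat_lit 7, nat_lit 0x40001000100060, nat_lit 0x100000, nat_lit 0, nat_lit 4, nat_lit 0x46⟩ (.nil) (.nil)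
def t14_6589 : Tr := .node ⟨nat_lit 6, nat_lit 0x200030, nat_lit 0x31120, nat_lit 1, nat_lit 4, nat_lit 0x49⟩ (.nil) (.nil)
def t14_14781 : Tr := .node ⟨nat_lit 8, nat_lit 0x2000800088006000c0, nat_lit 0x1011112, nat_lit 0, nat_lit 4, nat_lit 0x47⟩ (.nil) (.nil)
def t14_1469 : Tr := .node ⟨nat_lit 8, nat_lit 0x8000800020009000c0, nat_lit 0x1120111, nat_lit 2, nat_lit 4, nat_lit 0x49⟩ (.nil) (.nil)
def t14_9661 : Tr := .node ⟨nat_lit 8, nat_lit 0x80002000400040, nat_lit 0x10010020, nat_lit 0, nat_lit 3, nat_lit 0x48⟩ (.nil) (.nil)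
def t14_5565 : Tr := .node ⟨nat_lit 7, nat_lit 0x4000400060, nat_lit 0x11003, nat_lit 1, nat_lit 4, nat_lit 0x48⟩ (.nil) (.nil)
def t14_13757 : Tr := .node ⟨nat_lit 9, nat_lit 0x200100008001400188, nat_lit 0x2000, nat_lit 1, nat_lit 4, nat_lit 0x48⟩ (.nil) (.nil)
def t14_3517 : Tr := .node ⟨nat_lit 6, nat_lit 0x800300028, nat_lit 0x101, nat_lit 2, nat_lit 4, nat_lit 0x45⟩ (.nil) (.nil)
def t14_11709 : Tr := .node ⟨nat_lit 8, nat_lit 0x8000a000b000b000d0, nat_lit 0x11002101, nat_lit 1, nat_lit 4, nat_lit 0x46⟩ (.nil) (.nil)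
def t14_7613 : Tr := .node ⟨nat_lit 8, nat_lit 0x40008000800060009000c0, nat_lit 0x211003, nat_lit 0, nat_lit 4, nat_lit 0x47⟩ (.nil) (.nil)
def t14_957 : Tr := .node ⟨nat_lit 7, nat_lit 0x1000400060, nat_lit 0x201021, nat_lit 1, nat_lit 4, nat_lit 0x49⟩ (.nil) (.nil)
def t14_9149 : Tr := .node ⟨nat_lit 7, nat_lit 0x40002000200020, nat_lit 0x10220, nat_lit 0, nat_lit 3, nat_lit 0x47⟩ (.nil) (.nil)
def t14_5053 : Tr := .node ⟨nat_lit 5, nat_lit 0x180018, nat_lit 0x10111, nat_lit 4, nat_lit 4, nat_lit 0x46⟩ (.nil) (.nil)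
def t14_13245 : Tr := .node ⟨nat_lit 7, nat_lit 0x40001000100068, nat_lit 0x3001, nat_lit 2, nat_lit 4, nat_lit 0x47⟩ (.nil) (.nil)
def t14_3005 : Tr := .node ⟨nat_lit 8, nat_lit 0x40004000800060008800e0, nat_lit 0x102011, nat_lit 0, nat_lit 4, nat_lit 0x46⟩ (.nil) (.nil)
def t14_11197 : Tr := .node ⟨nat_lit 7, nat_lit 0x600050, nat_lit 0x11110, nat_lit 0, nat_lit 4, nat_lit 0x48⟩ (.nil) (.nil)
def t14_7101 : Tr := .node ⟨nat_lit 5, nat_lit 0x10001c001c, nat_lit 0x30111, nat_lit 7, nat_lit 4, nat_lit 0x47⟩ (.nil) (.nil)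
def t14_15293 : Tr := .node ⟨nat_lit 7, nat_lit 0x40005000300060, nat_lit 0x111120, nat_lit 1, nat_lit 4, nat_lit 0x47⟩ (.nil) (.nil)
def t14_1981 : Tr := .node ⟨nat_lit 8, nat_lit 0x200080008000c0, nat_lit 0x2010112, nat_lit 0, nat_lit 4, nat_lit 0x4a⟩ (.nil) (.nil)
def t14_10173 : Tr := .node ⟨nat_lit 7, nat_lit 0x20004000680070, nat_lit 0x10002, nat_lit 2, nat_lit 4, nat_lit 0x45⟩ (.nil) (.nil)
def t14_6077 : Tr := .node ⟨nat_lit 0xa, nat_lit 0x20002000100021002100220, nat_lit 0x111100101, nat_lit 0, nat_lit 4, nat_lit 0x4a⟩ (.nil) (.nil)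
def t14_14269 : Tr := .node ⟨nat_lit 8, nat_lit 0x4000400080008000c4, nat_lit 0x121000, nat_lit 5, nat_lit 4, nat_lit 0x49⟩ (.nil) (.nil)
def t14_4029 : Tr := .node ⟨nat_lit 8, nat_lit 0x400040008000c800d0, nat_lit 0x1111021, nat_lit 1, nat_lit 4, nat_lit 0x48⟩ (.nil) (.nil)
def t14_12221 : Tr := .node ⟨nat_lit 7, nat_lit 0x20004000600064, nat_lit 0x2011102, nat_lit 1, nat_lit 4, nat_lit 0x48⟩ (.nil) (.nil)
def t14_8125 : Tr := .node ⟨nat_lit 5, nat_lit 0x1000140014, nat_lit 0x1141, nat_lit 6, nat_lit 4, nat_lit 0x47⟩ (.nil) (.nil)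
def t9_445 : Tr := .node ⟨nat_lit 5, nat_lit 0x40018, nat_lit 0x11331, nat_lit 1, nat_lit 4, nat_lit 0x49⟩ (.node ⟨nat_lit 5, nat_lit 0x100008, nat_lit 0x102, nat_lit 1, nat_lit 3, nat_lit 0x45⟩ (.node ⟨nat_lit 7, nat_lit 0x40001000100060, nat_lit 0x201202, nat_lit 0, nat_lit 4, nat_lit 0x48⟩ (.node ⟨nat_lit 5, nat_lit 0x100008, nat_lit 0x1202, nat_lit 4, nat_lit 4, nat_lit 0x48⟩ (.node ⟨nat_lit 5, nat_lit 0x180018, nat_lit 0x110, nat_lit 0, nat_lit 3, nat_lit 0x43⟩ (t14_445) (t14_8637)) (.node ⟨nat_lit 7, nat_lit 0x4000100060, nat_lit 0x212002, nat_lit 3, nat_lit 4, nat_lit 0x4a⟩ (t14_4541) (t14_12733))) (.node ⟨nat_lit 6, nat_lit 0x20001000100028, nat_lit 0x110320, nat_lit 1, nat_lit 4, nat_lit 0x48⟩ (.node ⟨nat_lit 6, nat_lit 0x2000100038, nat_lit 0x111113, nat_lit 4, nat_lit 4, nat_lit 0x48⟩ (t14_2493) (t14_10685)) (.node ⟨nat_lit 9, nat_lit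 0x800100010001000108, nat_lit 0x2100220, nat_lit 0, nat_lit 4, nat_lit 0x4b⟩ (t14_6589) (t14_14781)))) (.node ⟨nat_lit 5, nat_lit 0x18, nat_lit 0x20211, nat_lit 2, nat_lit 4, nat_lit 0x48⟩ (.node ⟨nat_lit 7, nat_lit 0x4000400020, nat_lit 0x221102, nat_lit 2, nat_lit 4, nat_lit 0x4b⟩ (.node ⟨nat_lit 6, nat_lit 0x2000280034, nat_lit 0x11113, nat_lit 2, nat_lit 4, nat_lit 0x46⟩ (t14_1469) (t14_9661)) (.node ⟨nat_lit 7, nat_lit 0x40002000480064, nat_lit 0x1112111, nat_lit 0, nat_lit 4, nat_lit 0x48⟩ (t14_5565) (t14_13757))) (.node ⟨nat_lit 6, nat_lit 0x20002000200010, nat_lit 0x12002, nat_lit 5, nat_lit 4, nat_lit 0x48⟩ (.node ⟨nat_lit 5, nat_lit 0x10001a, nat_lit 0x1100, nat_lit 1, nat_lit 4, nat_lit 0x44⟩ (t14_3517) (t14_11709)) (.node ⟨nat_lit 6, nat_lit 0x200020003000300030, nat_lit 0x111200, nat_lit 7, nat_lit 4, nat_lit 0x48⟩ (t14_7613) (.nil)))))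 (.node ⟨nat_lit 7, nat_lit 0x1000100060, nat_lit 0x2003111, nat_lit 0, nat_lit 4, nat_lit 0x4a⟩ (.node ⟨nat_lit 5, nat_lit 0x10, nat_lit 0x12210, nat_lit 5, nat_lit 4, nat_lit 0x4a⟩ (.node ⟨nat_lit 6, nat_lit 0x800100020, nat_lit 0x111111, nat_lit 5, nat_lit 4, nat_lit 0x49⟩ (.node ⟨nat_lit 6, nat_lit 0x200022, nat_lit 0x111131, nat_lit 3, nat_lit 4, nat_lit 0x4a⟩ (t14_957) (t14_9149)) (.node ⟨nat_lit 6, nat_lit 0x2000200020, nat_lit 0x22220, nat_lit 3, nat_lit 4, nat_lit 0x4a⟩ (t14_5053) (t14_13245))) (.node ⟨nat_lit 4, nat_lit 0x8000a, nat_lit 0x1121, nat_lit 8, nat_lit 4, nat_lit 0x47⟩ (.node ⟨nat_lit 8, nat_lit 0x800080008800c0, nat_lit 0x111120, nat_lit 1, nat_lit 4, nat_lit 0x49⟩ (t14_3005) (t14_11197)) (.node ⟨nat_lit 6, nat_lit 0x2000100010, nat_lit 0x11022, nat_lit 8, nat_lit 4, nat_lit 0x4a⟩ (t14_7101) (t14_15293)))) (.node ⟨nat_lit 5,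 nat_lit 0x10, nat_lit 0x21110, nat_lit 3, nat_lit 4, nat_lit 0x49⟩ (.node ⟨nat_lit 6, nat_lit 0x80030, nat_lit 0x301211, nat_lit 2, nat_lit 4, nat_lit 0x4a⟩ (.node ⟨nat_lit 5, nat_lit 0x100010, nat_lit 0x12231, nat_lit 2, nat_lit 3, nat_lit 0x48⟩ (t14_1981) (t14_10173)) (.node ⟨nat_lit 7, nat_lit 0x4800280070, nat_lit 0x20202, nat_lit 0, nat_lit 4, nat_lit 0x46⟩ (t14_6077) (t14_14269))) (.node ⟨nat_lit 3, nat_lit 4, nat_lit 0x320, nat_lit 9, nat_lit 3, nat_lit 0x47⟩ (.node ⟨nat_lit 6, nat_lit 0x2000100038, nat_lit 0x110103, nat_lit 0, nat_lit 4, nat_lit 0x46⟩ (t14_4029) (t14_12221)) (.node ⟨nat_lit 7, nat_lit 0x10001000400060, nat_lit 0x1112110, nat_lit 1, nat_lit 4, nat_lit 0x49⟩ (t14_8125) (.nil)))))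
def t14_125 : Tr := .node ⟨nat_lit 7, nat_lit 0x3000500060, nat_lit 0x1112111, nat_lit 0, nat_lit 4, nat_lit 0x48⟩ (.nil) (.nil)
def t14_8317 : Tr := .node ⟨nat_lit 7, nat_lit 0x10004000440064, nat_lit 0x100213, nat_lit 2, nat_lit 4, nat_lit 0x47⟩ (.nil) (.nil)
def t14_4221 : Tr := .node ⟨nat_lit 7, nat_lit 0x4000400060, nat_lit 0x22110, nat_lit 3, nat_lit 4, nat_lit 0x4a⟩ (.nil) (.nil)
def t14_12413 : Tr := .node ⟨nat_lit 6, nat_lit 0x2000080030, nat_lit 0x1310, nat_lit 2, nat_lit 3, nat_lit 0x46⟩ (.nil) (.nil)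
def t14_2173 : Tr := .node ⟨nat_lit 8, nat_lit 0x8000400020009000c0, nat_lit 0x120021, nat_lit 2, nat_lit 4, nat_lit 0x48⟩ (.nil) (.nil)
def t14_10365 : Tr := .node ⟨nat_lit 7, nat_lit 0x40001000100060, nat_lit 0x2100002, nat_lit 1, nat_lit 3, nat_lit 0x47⟩ (.nil) (.nil)
def t14_6269 : Tr := .node ⟨nat_lit 7, nat_lit 0x4000200020, nat_lit 0x111011, nat_lit 3, nat_lit 4, nat_lit 0x4a⟩ (.nil) (.nil)
def t14_14461 : Tr := .node ⟨nat_lit 6, nat_lit 0x280030, nat_lit 0x10202, nat_lit 4, nat_lit 4, nat_lit 0x48⟩ (.nil) (.nil)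
def t14_1149 : Tr := .node ⟨nat_lit 6, nat_lit 0x800300030, nat_lit 0x1111, nat_lit 3, nat_lit 4, nat_lit 0x46⟩ (.nil) (.nil)
def t14_9341 : Tr := .node ⟨nat_lit 8, nat_lit 0x800080008000880090, nat_lit 0x2110201, nat_lit 3, nat_lit 4, nat_lit 0x4a⟩ (.nil) (.nil)
def t14_5245 : Tr := .node ⟨nat_lit 7, nat_lit 0x4000600060, nat_lit 0x11310, nat_lit 3, nat_lit 4, nat_lit 0x49⟩ (.nil) (.nil)
def t14_13437 : Tr := .node ⟨nat_lit 8, nat_lit 0x800020008800c0, nat_lit 0x12000, nat_lit 4, nat_lit 4, nat_lit 0x49⟩ (.nil) (.nil)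
def t14_3197 : Tr := .node ⟨nat_lit 8, nat_lit 0x8000400040004000a000d0, nat_lit 0x121101, nat_lit 0, nat_lit 4, nat_lit 0x47⟩ (.nil) (.nil)
def t14_11389 : Tr := .node ⟨nat_lit 8, nat_lit 0x80004000a000d000d0, nat_lit 0x111120, nat_lit 0, nat_lit 4, nat_lit 0x46⟩ (.nil) (.nil)
def t14_7293 : Tr := .node ⟨nat_lit 8, nat_lit 0x80008000c00030, nat_lit 0x202101, nat_lit 0, nat_lit 4, nat_lit 0x49⟩ (.nil) (.nil)
def t14_15485 : Tr := .node ⟨nat_lit 9, nat_lit 0x1000040011001800190, nat_lit 0x110100021, nat_lit 0, nat_lit 4, nat_lit 0x49⟩ (.nil) (.nil)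
def t14_637 : Tr := .node ⟨nat_lit 6, nat_lit 0x2000080030, nat_lit 0x21312, nat_lit 0, nat_lit 4, nat_lit 0x48⟩ (.nil) (.nil)
def t14_8829 : Tr := .node ⟨nat_lit 7, nat_lit 0x40004000480048, nat_lit 0x111031, nat_lit 5, nat_lit 4, nat_lit 0x49⟩ (.nil) (.nil)
def t14_4733 : Tr := .node ⟨nat_lit 7, nat_lit 0x5000180060, nat_lit 0x1101011, nat_lit 0, nat_lit 4, nat_lit 0x47⟩ (.nil) (.nil)
def t14_12925 : Tr := .node ⟨nat_lit 6, nat_lit 0x800280030, nat_lit 0x110201, nat_lit 2, nat_lit 4, nat_lit 0x47⟩ (.nil) (.nil)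
def t14_2685 : Tr := .node ⟨nat_lit 6, nat_lit 0x2800280030, nat_lit 0x11103, nat_lit 2, nat_lit 4, nat_lit 0x46⟩ (.nil) (.nil)
def t14_10877 : Tr := .node ⟨nat_lit 8, nat_lit 0x800040004000a000a000d0, nat_lit 0x121000, nat_lit 0, nat_lit 4, nat_lit 0x46⟩ (.nil) (.nil)
def t14_6781 : Tr := .node ⟨nat_lit 5, nat_lit 0x18, nat_lit 0x110, nat_lit 5, nat_lit 4, nat_lit 0x47⟩ (.nil) (.nil)
def t14_14973 : Tr := .node ⟨nat_lit 0xb, nat_lit 0x2000400040004000100042004200440, nat_lit 0x110110, nat_lit 1, nat_lit 4, nat_lit 0x4a⟩ (.nil) (.nil)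
def t14_1661 : Tr := .node ⟨nat_lit 5, nat_lit 0x1000080014, nat_lit 0x211, nat_lit 2, nat_lit 4, nat_lit 0x45⟩ (.nil) (.nil)
def t14_9853 : Tr := .node ⟨nat_lit 9, nat_lit 0x800020018001400190, nat_lit 0x10010202, nat_lit 0, nat_lit 4, nat_lit 0x48⟩ (.nil) (.nil)
def t14_5757 : Tr := .node ⟨nat_lit 6, nat_lit 0x200020, nat_lit 0x121120, nat_lit 4, nat_lit 3, nat_lit 0x49⟩ (.nil) (.nil)
def t14_13949 : Tr := .node ⟨nat_lit 8, nat_lit 0x4000800020002400c8, nat_lit 0x10021000, nat_lit 1, nat_lit 4, nat_lit 0x47⟩ (.nil) (.nil)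
def t14_3709 : Tr := .node ⟨nat_lit 8, nat_lit 0x80004000a000a000d0, nat_lit 0x1020101, nat_lit 1, nat_lit 4, nat_lit 0x47⟩ (.nil) (.nil)
def t14_11901 : Tr := .node ⟨nat_lit 5, nat_lit 0x1000080018, nat_lit 0x30130, nat_lit 1, nat_lit 3, nat_lit 0x46⟩ (.nil) (.nil)
def t14_7805 : Tr := .node ⟨nat_lit 5, nat_lit 0x10001000140018, nat_lit 0x1211, nat_lit 0xb, nat_lit 4, nat_lit 0x47⟩ (.nil) (.nil)
def t9_125 : Tr := .node ⟨nat_lit 4, nat_lit 8, nat_lit 0x3111, nat_lit 3, nat_lit 4, nat_lit 0x48⟩ (.node ⟨nat_lit 6, nat_lit 0x2000340034, nat_lit 0x311121, nat_lit 1, nat_lit 4, nat_lit 0x48⟩ (.node ⟨nat_lit 4, nat_lit 0x8000a, nat_lit 0x322, nat_lit 6, nat_lit 4, nat_lit 0x47⟩ (.node ⟨nat_lit 5, nat_lit 0x180018, nat_lit 0x10211, nat_lit 3, nat_lit 4, nat_lit 0x46⟩ (.node ⟨nat_lit 7, nat_lit 0x10004000500060, nat_lit 0x201022, nat_lit 0, nat_lit 4,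 nat_lit 0x47⟩ (t14_125) (t14_8317)) (.node ⟨nat_lit 6, nat_lit 0x800200030, nat_lit 0x101002, nat_lit 0, nat_lit 4, nat_lit 0x46⟩ (t14_4221) (t14_12413))) (.node ⟨nat_lit 7, nat_lit 0x40002000200064, nat_lit 0x120111, nat_lit 0, nat_lit 4, nat_lit 0x48⟩ (.node ⟨nat_lit 6, nat_lit 0x200030, nat_lit 0x1020, nat_lit 1, nat_lit 4, nat_lit 0x47⟩ (t14_2173) (t14_10365)) (.node ⟨nat_lit 8, nat_lit 0x8000400020, nat_lit 0x1121010, nat_lit 4, nat_lit 4, nat_lit 0x4c⟩ (t14_6269) (t14_14461)))) (.node ⟨nat_lit 6, nat_lit 0x200020, nat_lit 0x22210, nat_lit 0, nat_lit 4, nat_lit 0x4a⟩ (.node ⟨nat_lit 4, nat_lit 0x8000a, nat_lit 0x2211, nat_lit 5, nat_lit 4, nat_lit 0x47⟩ (.node ⟨nat_lit 2, nat_lit 0, nat_lit 0x52, nat_lit 6, nat_lit 3, nat_lit 0x47⟩ (t14_1149) (t14_9341)) (.node ⟨nat_lit 8, nat_lit 0x20002000c000c0, nat_lit 0x10021021, nat_lit 1, nat_lit 4,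 nat_lit 0x49⟩ (t14_5245) (t14_13437))) (.node ⟨nat_lit 7, nat_lit 0x4000400020, nat_lit 0x120100, nat_lit 0, nat_lit 4, nat_lit 0x49⟩ (.node ⟨nat_lit 7, nat_lit 0x6000500050, nat_lit 0x12130, nat_lit 1, nat_lit 4, nat_lit 0x48⟩ (t14_3197) (t14_11389)) (.node ⟨nat_lit 6, nat_lit 0x2000100038, nat_lit 0x10210, nat_lit 1, nat_lit 4, nat_lit 0x46⟩ (t14_7293) (t14_15485))))) (.node ⟨nat_lit 7, nat_lit 0x40001000100068, nat_lit 0x3002101, nat_lit 1, nat_lit 4, nat_lit 0x49⟩ (.node ⟨nat_lit 4, nat_lit 0x80004, nat_lit 0x223, nat_lit 5, nat_lit 4, nat_lit 0x47⟩ (.node ⟨nat_lit 4, nat_lit 0xc, nat_lit 0x1023, nat_lit 4, nat_lit 4, nat_lit 0x46⟩ (.node ⟨nat_lit 6, nat_lit 0x10002000180024, nat_lit 0x212010, nat_lit 1, nat_lit 4, nat_lit 0x47⟩ (t14_637) (t14_8829)) (.node ⟨nat_lit 7, nat_lit 0x40004000200020, nat_lit 0x112220, nat_lit 0, nat_lit 4, nat_lit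 0x49⟩ (t14_4733) (t14_12925))) (.node ⟨nat_lit 8, nat_lit 0x200080001000c0, nat_lit 0x10000102, nat_lit 0, nat_lit 4, nat_lit 0x48⟩ (.node ⟨nat_lit 5, nat_lit 0x100018, nat_lit 0x12113, nat_lit 6, nat_lit 4, nat_lit 0x49⟩ (t14_2685) (t14_10877)) (.node ⟨nat_lit 6, nat_lit 0x10001000200038, nat_lit 0x102022, nat_lit 4, nat_lit 4, nat_lit 0x47⟩ (t14_6781) (t14_14973)))) (.node ⟨nat_lit 6, nat_lit 0x200010, nat_lit 0x121111, nat_lit 2, nat_lit 4, nat_lit 0x4a⟩ (.node ⟨nat_lit 7, nat_lit 0x1000600018, nat_lit 0x1002111, nat_lit 1, nat_lit 4, nat_lit 0x48⟩ (.node ⟨nat_lit 6, nat_lit 0x1000200008, nat_lit 0x100, nat_lit 1, nat_lit 4, nat_lit 0x45⟩ (t14_1661) (t14_9853)) (.node ⟨nat_lit 5, nat_lit 0x1000080008, nat_lit 0x30100, nat_lit 0, nat_lit 3, nat_lit 0x46⟩ (t14_5757) (t14_13949))) (.node ⟨nat_lit 6, nat_lit 0x800300038, nat_lit 0x201222, nat_lit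 1, nat_lit 4, nat_lit 0x47⟩ (.node ⟨nat_lit 6, nat_lit 0x200032, nat_lit 0x201000, nat_lit 0, nat_lit 4, nat_lit 0x47⟩ (t14_3709) (t14_11901)) (.node ⟨nat_lit 6, nat_lit 0x800300030, nat_lit 0x201121, nat_lit 5, nat_lit 4, nat_lit 0x48⟩ (t14_7805) (.nil)))))
def t14_381 : Tr := .node ⟨nat_lit 7, nat_lit 0x40004000200020, nat_lit 0x121011, nat_lit 5, nat_lit 4, nat_lit 0x4a⟩ (.nil) (.nil)
def t14_8573 : Tr := .node ⟨nat_lit 7, nat_lit 0x200040004000480048, nat_lit 0x1022, nat_lit 2, nat_lit 4, nat_lit 0x47⟩ (.nil) (.nil)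
def t14_4477 : Tr := .node ⟨nat_lit 8, nat_lit 0x8000400090009000c0, nat_lit 0x11110112, nat_lit 0, nat_lit 4, nat_lit 0x49⟩ (.nil) (.nil)
def t14_12669 : Tr := .node ⟨nat_lit 7, nat_lit 0x2000400070, nat_lit 0x1011103, nat_lit 1, nat_lit 4, nat_lit 0x48⟩ (.nil) (.nil)
def t14_2429 : Tr := .node ⟨nat_lit 7, nat_lit 0x20004000600068, nat_lit 0x112301, nat_lit 0, nat_lit 4, nat_lit 0x48⟩ (.nil) (.nil)
def t14_10621 : Tr := .node ⟨nat_lit 5, nat_lit 0x40018, nat_lit 0x10, nat_lit 4, nat_lit 4, nat_lit 0x45⟩ (.nil) (.nil)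
def t14_6525 : Tr := .node ⟨nat_lit 7, nat_lit 0x500060, nat_lit 0x111111, nat_lit 1, nat_lit 4, nat_lit 0x49⟩ (.nil) (.nil)
def t14_14717 : Tr := .node ⟨nat_lit 7, nat_lit 0x40006000500068, nat_lit 0x111211, nat_lit 3, nat_lit 4, nat_lit 0x47⟩ (.nil) (.nil)
def t14_1405 : Tr := .node ⟨nat_lit 7, nat_lit 0x20005000600060, nat_lit 0x21310, nat_lit 0, nat_lit 4, nat_lit 0x47⟩ (.nil) (.nil)
def t14_9597 : Tr := .node ⟨nat_lit 8, nat_lit 0x8000a0006000b000d0, nat_lit 0x10012300, nat_lit 0, nat_lit 4, nat_lit 0x46⟩ (.nil) (.nil)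
def t14_5501 : Tr := .node ⟨nat_lit 6, nat_lit 0x1000200022, nat_lit 0x1411, nat_lit 0, nat_lit 4, nat_lit 0x47⟩ (.nil) (.nil)
def t14_13693 : Tr := .node ⟨nat_lit 7, nat_lit 0x40004000100020, nat_lit 0x1002002, nat_lit 0, nat_lit 4, nat_lit 0x48⟩ (.nil) (.nil)
def t14_3453 : Tr := .node ⟨nat_lit 8, nat_lit 0x800020002000c000a0, nat_lit 0x2021, nat_lit 3, nat_lit 4, nat_lit 0x48⟩ (.nil) (.nil)
def t14_11645 : Tr := .node ⟨nat_lit 8, nat_lit 0x20002000a000c000c0, nat_lit 0x11310, nat_lit 0, nat_lit 4, nat_lit 0x47⟩ (.nil) (.nil)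
def t14_7549 : Tr := .node ⟨nat_lit 4, nat_lit 0x80008, nat_lit 0x333, nat_lit 4, nat_lit 3, nat_lit 0x46⟩ (.nil) (.nil)
def t14_893 : Tr := .node ⟨nat_lit 6, nat_lit 0x20001000100028, nat_lit 0x2202, nat_lit 1, nat_lit 4, nat_lit 0x46⟩ (.nil) (.nil)
def t14_9085 : Tr := .node ⟨nat_lit 7, nat_lit 0x400040002000200050, nat_lit 0x12111, nat_lit 1, nat_lit 4, nat_lit 0x47⟩ (.nil) (.nil)
def t14_4989 : Tr := .node ⟨nat_lit 6, nat_lit 0x280030, nat_lit 0x1110, nat_lit 3, nat_lit 4, nat_lit 0x47⟩ (.nil) (.nil)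
def t14_13181 : Tr := .node ⟨nat_lit 5, nat_lit 0x40018, nat_lit 0x23, nat_lit 2, nat_lit 4, nat_lit 0x45⟩ (.nil) (.nil)
def t14_2941 : Tr := .node ⟨nat_lit 7, nat_lit 0x20004000100060, nat_lit 0x112102, nat_lit 0, nat_lit 4, nat_lit 0x48⟩ (.nil) (.nil)
def t14_11133 : Tr := .node ⟨nat_lit 7, nat_lit 0x10004000400060, nat_lit 0x100102, nat_lit 1, nat_lit 3, nat_lit 0x46⟩ (.nil) (.nil)
def t14_7037 : Tr := .node ⟨nat_lit 7, nat_lit 0x40002000500060, nat_lit 0x1012011, nat_lit 0, nat_lit 3, nat_lit 0x46⟩ (.nil) (.nil)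
def t14_15229 : Tr := .node ⟨nat_lit 7, nat_lit 0x4000500060, nat_lit 0x1111121, nat_lit 0, nat_lit 4, nat_lit 0x49⟩ (.nil) (.nil)
def t14_1917 : Tr := .node ⟨nat_lit 5, nat_lit 0x10001c, nat_lit 0x3002, nat_lit 3, nat_lit 4, nat_lit 0x46⟩ (.nil) (.nil)
def t14_10109 : Tr := .node ⟨nat_lit 7, nat_lit 0x40005000600060, nat_lit 0x12220, nat_lit 2, nat_lit 4, nat_lit 0x47⟩ (.nil) (.nil)
def t14_6013 : Tr := .node ⟨nat_lit 6, nat_lit 0x200032, nat_lit 0x311120, nat_lit 0, nat_lit 4, nat_lit 0x4a⟩ (.nil) (.nil)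
def t14_14205 : Tr := .node ⟨nat_lit 3, nat_lit 6, nat_lit 0x112, nat_lit 0xa, nat_lit 4, nat_lit 0x46⟩ (.nil) (.nil)
def t14_3965 : Tr := .node ⟨nat_lit 6, nat_lit 0x1000280030, nat_lit 0x110001, nat_lit 1, nat_lit 4, nat_lit 0x46⟩ (.nil) (.nil)
def t14_12157 : Tr := .node ⟨nat_lit 7, nat_lit 0x2000500060, nat_lit 0x1011200, nat_lit 0, nat_lit 4, nat_lit 0x48⟩ (.nil) (.nil)
def t14_8061 : Tr := .node ⟨nat_lit 7, nat_lit 0x40002000200048, nat_lit 0x11003, nat_lit 1, nat_lit 4, nat_lit 0x47⟩ (.nil) (.nil)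
def t9_381 : Tr := .node ⟨nat_lit 4, nat_lit 0x40008, nat_lit 0x3212, nat_lit 5, nat_lit 4, nat_lit 0x49⟩ (.node ⟨nat_lit 6, nat_lit 0x800100020, nat_lit 0x311012, nat_lit 1, nat_lit 4, nat_lit 0x4a⟩ (.node ⟨nat_lit 5, nat_lit 0x10, nat_lit 0x22113, nat_lit 0, nat_lit 4, nat_lit 0x4a⟩ (.node ⟨nat_lit 5, nat_lit 0x1000100008, nat_lit 0x11212, nat_lit 4, nat_lit 4, nat_lit 0x48⟩ (.node ⟨nat_lit 6, nat_lit 0x2000200020, nat_lit 0x32110, nat_lit 0, nat_lit 3, nat_lit 0x48⟩ (t14_381) (t14_8573)) (.node ⟨nat_lit 6, nat_lit 0x1000280030, nat_lit 0x112002, nat_lit 0, nat_lit 3, nat_lit 0x46⟩ (t14_4477) (t14_12669))) (.node ⟨nat_lit 7, nat_lit 0x800100060, nat_lit 0x2110011, nat_lit 0, nat_lit 4, nat_lit 0x49⟩ (.node ⟨nat_lit 6, nat_lit 0x800300028, nat_lit 0x101114, nat_lit 3, nat_lit 4, nat_lit 0x48⟩ (t14_2429) (t14_10621)) (.node ⟨nat_lit 5, nat_lit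 0x80010, nat_lit 0x212, nat_lit 3, nat_lit 4, nat_lit 0x47⟩ (t14_6525) (t14_14717)))) (.node ⟨nat_lit 7, nat_lit 0x20004000100044, nat_lit 0x2010110, nat_lit 3, nat_lit 4, nat_lit 0x49⟩ (.node ⟨nat_lit 6, nat_lit 0x200010, nat_lit 0x22211, nat_lit 1, nat_lit 4, nat_lit 0x4a⟩ (.node ⟨nat_lit 5, nat_lit 0x40018, nat_lit 0x10104, nat_lit 1, nat_lit 4, nat_lit 0x46⟩ (t14_1405) (t14_9597)) (.node ⟨nat_lit 7, nat_lit 0x40001000100060, nat_lit 0x1002211, nat_lit 1, nat_lit 4, nat_lit 0x48⟩ (t14_5501) (t14_13693))) (.node ⟨nat_lit 6, nat_lit 0x200020, nat_lit 0x21100, nat_lit 6, nat_lit 4, nat_lit 0x4a⟩ (.node ⟨nat_lit 4, nat_lit 0xc, nat_lit 0x20, nat_lit 5, nat_lit 4, nat_lit 0x45⟩ (t14_3453) (t14_11645)) (.node ⟨nat_lit 8, nat_lit 0x800010002000c0, nat_lit 0x11101012, nat_lit 2, nat_lit 4, nat_lit 0x4a⟩ (t14_7549) (.nil))))) (.node ⟨nat_lit 5, nat_lit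 0x18, nat_lit 0x22311, nat_lit 0, nat_lit 4, nat_lit 0x4a⟩ (.node ⟨nat_lit 3, nat_lit 0, nat_lit 0x222, nat_lit 6, nat_lit 4, nat_lit 0x48⟩ (.node ⟨nat_lit 6, nat_lit 0x30, nat_lit 0x111111, nat_lit 1, nat_lit 4, nat_lit 0x49⟩ (.node ⟨nat_lit 7, nat_lit 0x4000400040, nat_lit 0x321100, nat_lit 1, nat_lit 4, nat_lit 0x4b⟩ (t14_893) (t14_9085)) (.node ⟨nat_lit 8, nat_lit 0x8000400040, nat_lit 0x1111020, nat_lit 3, nat_lit 4, nat_lit 0x4c⟩ (t14_4989) (t14_13181))) (.node ⟨nat_lit 6, nat_lit 0x20002000100030, nat_lit 0x12010, nat_lit 0, nat_lit 3, nat_lit 0x45⟩ (.node ⟨nat_lit 6, nat_lit 0x1000200020, nat_lit 0x111111, nat_lit 0, nat_lit 4, nat_lit 0x48⟩ (t14_2941) (t14_11133)) (.node ⟨nat_lit 5, nat_lit 0x1000100008, nat_lit 0x1412, nat_lit 1, nat_lit 3, nat_lit 0x46⟩ (t14_7037) (t14_15229)))) (.node ⟨nat_lit 6, nat_lit 0x200030, nat_lit 0x12122, nat_lit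 0, nat_lit 4, nat_lit 0x48⟩ (.node ⟨nat_lit 6, nat_lit 0x300028, nat_lit 0x112021, nat_lit 0, nat_lit 4, nat_lit 0x48⟩ (.node ⟨nat_lit 7, nat_lit 0x20003000500060, nat_lit 0x1011231, nat_lit 0, nat_lit 4, nat_lit 0x47⟩ (t14_1917) (t14_10109)) (.node ⟨nat_lit 7, nat_lit 0x10006000600060, nat_lit 0x22200, nat_lit 1, nat_lit 4, nat_lit 0x47⟩ (t14_6013) (t14_14205))) (.node ⟨nat_lit 7, nat_lit 0x40002000200020, nat_lit 0x10311, nat_lit 1, nat_lit 4, nat_lit 0x49⟩ (.node ⟨nat_lit 6, nat_lit 0x2000080030, nat_lit 0x101020, nat_lit 1, nat_lit 4, nat_lit 0x47⟩ (t14_3965) (t14_12157)) (.node ⟨nat_lit 7, nat_lit 0x10001000400060, nat_lit 0x1011121, nat_lit 3, nat_lit 4, nat_lit 0x49⟩ (t14_8061) (.nil)))))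
def t14_253 : Tr := .node ⟨nat_lit 6, nat_lit 0x2000080030, nat_lit 0x21231, nat_lit 0, nat_lit 4, nat_lit 0x48⟩ (.nil) (.nil)
def t14_8445 : Tr := .node ⟨nat_lit 7, nat_lit 0x10004000200060, nat_lit 0x102, nat_lit 0, nat_lit 3, nat_lit 0x45⟩ (.nil) (.nil)
def t14_4349 : Tr := .node ⟨nat_lit 7, nat_lit 0x20002000400060, nat_lit 0x1013110, nat_lit 0, nat_lit 3, nat_lit 0x47⟩ (.nil) (.nil)
def t14_12541 : Tr := .node ⟨nat_lit 8, nat_lit 0x20009000c000e0, nat_lit 0x101103, nat_lit 1, nat_lit 4, nat_lit 0x47⟩ (.nil) (.nil)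
def t14_2301 : Tr := .node ⟨nat_lit 8, nat_lit 0x800040005000a000a000c0, nat_lit 0x10121001, nat_lit 1, nat_lit 4, nat_lit 0x47⟩ (.nil) (.nil)
def t14_10493 : Tr := .node ⟨nat_lit 6, nat_lit 0x20003000300038, nat_lit 0x1212, nat_lit 4, nat_lit 4, nat_lit 0x45⟩ (.nil) (.nil)
def t14_6397 : Tr := .node ⟨nat_lit 7, nat_lit 0x400040002000500060, nat_lit 0x100102, nat_lit 3, nat_lit 4, nat_lit 0x47⟩ (.nil) (.nil)
def t14_14589 : Tr := .node ⟨nat_lit 8, nat_lit 0x80008000400040009000a0, nat_lit 0x111011, nat_lit 6, nat_lit 4, nat_lit 0x48⟩ (.nil) (.nil)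
def t14_1277 : Tr := .node ⟨nat_lit 8, nat_lit 0x40001000a000c0, nat_lit 0x110122, nat_lit 0, nat_lit 4, nat_lit 0x48⟩ (.nil) (.nil)
def t14_9469 : Tr := .node ⟨nat_lit 8, nat_lit 0x200020003000c000e0, nat_lit 0x10011022, nat_lit 1, nat_lit 4, nat_lit 0x47⟩ (.nil) (.nil)
def t14_5373 : Tr := .node ⟨nat_lit 7, nat_lit 0x400060, nat_lit 0x1111120, nat_lit 2, nat_lit 4, nat_lit 0x4b⟩ (.nil) (.nil)
def t14_13565 : Tr := .node ⟨nat_lit 7, nat_lit 0x40001000200020, nat_lit 0x2200, nat_lit 1, nat_lit 4, nat_lit 0x47⟩ (.nil) (.nil)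
def t14_3325 : Tr := .node ⟨nat_lit 5, nat_lit 0x40018, nat_lit 2, nat_lit 0, nat_lit 4, nat_lit 0x43⟩ (.nil) (.nil)
def t14_11517 : Tr := .node ⟨nat_lit 7, nat_lit 0x40001000580068, nat_lit 0x1000111, nat_lit 0, nat_lit 4, nat_lit 0x45⟩ (.nil) (.nil)
def t14_7421 : Tr := .node ⟨nat_lit 7, nat_lit 0x400040002000200060, nat_lit 0x121112, nat_lit 0, nat_lit 4, nat_lit 0x48⟩ (.nil) (.nil)
def t14_765 : Tr := .node ⟨nat_lit 6, nat_lit 0x800280030, nat_lit 0x213, nat_lit 0, nat_lit 4, nat_lit 0x45⟩ (.nil) (.nil)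
def t14_8957 : Tr := .node ⟨nat_lit 7, nat_lit 0x20004000400044, nat_lit 0x20202, nat_lit 5, nat_lit 4, nat_lit 0x49⟩ (.nil) (.nil)
def t14_4861 : Tr := .node ⟨nat_lit 5, nat_lit 0x140018, nat_lit 0x11200, nat_lit 2, nat_lit 3, nat_lit 0x46⟩ (.nil) (.nil)
def t14_13053 : Tr := .node ⟨nat_lit 6, nat_lit 0x2000100010, nat_lit 0x21000, nat_lit 0, nat_lit 3, nat_lit 0x47⟩ (.nil) (.nil)
def t14_2813 : Tr := .node ⟨nat_lit 8, nat_lit 0x10002000c000c0, nat_lit 0x110020, nat_lit 1, nat_lit 4, nat_lit 0x48⟩ (.nil) (.nil)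
def t14_11005 : Tr := .node ⟨nat_lit 9, nat_lit 0x100010000800120019001a0, nat_lit 0x101010022, nat_lit 0, nat_lit 4, nat_lit 0x48⟩ (.nil) (.nil)
def t14_6909 : Tr := .node ⟨nat_lit 4, nat_lit 8, nat_lit 0x1111, nat_lit 0xb, nat_lit 3, nat_lit 0x47⟩ (.nil) (.nil)
def t14_15101 : Tr := .node ⟨nat_lit 7, nat_lit 0x400020005000700068, nat_lit 0x1112111, nat_lit 2, nat_lit 4, nat_lit 0x47⟩ (.nil) (.nil)
def t14_1789 : Tr := .node ⟨nat_lit 7, nat_lit 0x40002000100010, nat_lit 0x22, nat_lit 0, nat_lit 3, nat_lit 0x46⟩ (.nil) (.nil)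
def t14_9981 : Tr := .node ⟨nat_lit 6, nat_lit 0x2000300030, nat_lit 0x1320, nat_lit 6, nat_lit 4, nat_lit 0x48⟩ (.nil) (.nil)
def t14_5885 : Tr := .node ⟨nat_lit 7, nat_lit 0x4000200020, nat_lit 0x1011021, nat_lit 3, nat_lit 4, nat_lit 0x4a⟩ (.nil) (.nil)
def t14_14077 : Tr := .node ⟨nat_lit 6, nat_lit 0x2000080030, nat_lit 0x1210, nat_lit 7, nat_lit 4, nat_lit 0x48⟩ (.nil) (.nil)
def t14_3837 : Tr := .node ⟨nat_lit 7, nat_lit 0x40002000480060, nat_lit 0x1011201, nat_lit 2, nat_lit 4, nat_lit 0x48⟩ (.nil) (.nil)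
def t14_12029 : Tr := .node ⟨nat_lit 5, nat_lit 0x800100018, nat_lit 0x10211, nat_lit 7, nat_lit 4, nat_lit 0x47⟩ (.nil) (.nil)
def t14_7933 : Tr := .node ⟨nat_lit 7, nat_lit 0x400020005000500060, nat_lit 0x111211, nat_lit 3, nat_lit 4, nat_lit 0x47⟩ (.nil) (.nil)
def t9_253 : Tr := .node ⟨nat_lit 5, nat_lit 0x18, nat_lit 0x11322, nat_lit 1, nat_lit 4, nat_lit 0x49⟩ (.node ⟨nat_lit 5, nat_lit 0x18, nat_lit 0x30112, nat_lit 0, nat_lit 4, nat_lit 0x48⟩ (.node ⟨nat_lit 6, nat_lit 0x2000100030, nat_lit 0x113211, nat_lit 0, nat_lit 4, nat_lit 0x49⟩ (.node ⟨nat_lit 6, nat_lit 0x200030, nat_lit 0x112103, nat_lit 0, nat_lit 4, nat_lit 0x49⟩ (.node ⟨nat_lit 5, nat_lit 0x800080010, nat_lit 0x12311, nat_lit 4, nat_lit 4, nat_lit 0x49⟩ (t14_253) (t14_8445)) (.node ⟨nat_lit 7, nat_lit 0x40001000680070, nat_lit 0x101002, nat_lit 0, nat_lit 4, nat_lit 0x45⟩ (t14_4349)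 (t14_12541))) (.node ⟨nat_lit 6, nat_lit 0x300030, nat_lit 0x203121, nat_lit 0, nat_lit 4, nat_lit 0x49⟩ (.node ⟨nat_lit 7, nat_lit 0x20005000680070, nat_lit 0x112203, nat_lit 0, nat_lit 4, nat_lit 0x46⟩ (t14_2301) (t14_10493)) (.node ⟨nat_lit 7, nat_lit 0x5000180060, nat_lit 0x211200, nat_lit 3, nat_lit 4, nat_lit 0x48⟩ (t14_6397) (t14_14589)))) (.node ⟨nat_lit 5, nat_lit 0x40018, nat_lit 0x21111, nat_lit 5, nat_lit 4, nat_lit 0x48⟩ (.node ⟨nat_lit 4, nat_lit 8, nat_lit 0x2211, nat_lit 0xb, nat_lit 4, nat_lit 0x4a⟩ (.node ⟨nat_lit 5, nat_lit 0x18, nat_lit 0x21113, nat_lit 3, nat_lit 4, nat_lit 0x49⟩ (t14_1277) (t14_9469)) (.node ⟨nat_lit 7, nat_lit 0x40003000500068, nat_lit 0x1012320, nat_lit 0, nat_lit 4, nat_lit 0x47⟩ (t14_5373) (t14_13565))) (.node ⟨nat_lit 5, nat_lit 0x18, nat_lit 0x11204, nat_lit 0, nat_lit 4, nat_lit 0x48⟩ (.node ⟨nat_lit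 5, nat_lit 0x180018, nat_lit 0x11231, nat_lit 4, nat_lit 4, nat_lit 0x48⟩ (t14_3325) (t14_11517)) (.node ⟨nat_lit 7, nat_lit 0x4000200070, nat_lit 0x1011102, nat_lit 1, nat_lit 4, nat_lit 0x48⟩ (t14_7421) (.nil))))) (.node ⟨nat_lit 4, nat_lit 0xc, nat_lit 0x1132, nat_lit 6, nat_lit 4, nat_lit 0x48⟩ (.node ⟨nat_lit 5, nat_lit 0x1c, nat_lit 0x22112, nat_lit 1, nat_lit 4, nat_lit 0x48⟩ (.node ⟨nat_lit 3, nat_lit 4, nat_lit 0x121, nat_lit 0xe, nat_lit 4, nat_lit 0x48⟩ (.node ⟨nat_lit 8, nat_lit 0x400040008000800084, nat_lit 0x10300111, nat_lit 1, nat_lit 4, nat_lit 0x4a⟩ (t14_765) (t14_8957)) (.node ⟨nat_lit 6, nat_lit 0x200030, nat_lit 0x112120, nat_lit 1, nat_lit 3, nat_lit 0x48⟩ (t14_4861) (t14_13053))) (.node ⟨nat_lit 5, nat_lit 0x1000080018, nat_lit 0x1022, nat_lit 7, nat_lit 4, nat_lit 0x47⟩ (.node ⟨nat_lit 6, nat_lit 0x200038, nat_lit 0x21113,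 nat_lit 2, nat_lit 4, nat_lit 0x48⟩ (t14_2813) (t14_11005)) (.node ⟨nat_lit 8, nat_lit 0x400040006000a000d0, nat_lit 0x10010222, nat_lit 1, nat_lit 4, nat_lit 0x47⟩ (t14_6909) (t14_15101)))) (.node ⟨nat_lit 5, nat_lit 0x100018, nat_lit 0x10112, nat_lit 1, nat_lit 3, nat_lit 0x45⟩ (.node ⟨nat_lit 5, nat_lit 0x1000100008, nat_lit 0x2411, nat_lit 0, nat_lit 3, nat_lit 0x46⟩ (.node ⟨nat_lit 6, nat_lit 0x2000080010, nat_lit 0x10011, nat_lit 0, nat_lit 4, nat_lit 0x46⟩ (t14_1789) (t14_9981)) (.node ⟨nat_lit 7, nat_lit 0x40004000400020, nat_lit 0x122001, nat_lit 5, nat_lit 4, nat_lit 0x4a⟩ (t14_5885) (t14_14077))) (.node ⟨nat_lit 5, nat_lit 0x1000100008, nat_lit 0x10110, nat_lit 1, nat_lit 3, nat_lit 0x45⟩ (.node ⟨nat_lit 7, nat_lit 0x2000600050, nat_lit 0x1011003, nat_lit 0, nat_lit 4, nat_lit 0x48⟩ (t14_3837) (t14_12029)) (.node ⟨nat_lit 6, nat_lit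 0x1000200020, nat_lit 0x11200, nat_lit 7, nat_lit 4, nat_lit 0x49⟩ (t14_7933) (.nil)))))
def t14_509 : Tr := .node ⟨nat_lit 7, nat_lit 0x20004000440030, nat_lit 0x2111210, nat_lit 0, nat_lit 4, nat_lit 0x49⟩ (.nil) (.nil)
def t14_8701 : Tr := .node ⟨nat_lit 6, nat_lit 0x20002000100010, nat_lit 0x102100, nat_lit 2, nat_lit 3, nat_lit 0x46⟩ (.nil) (.nil)
def t14_4605 : Tr := .node ⟨nat_lit 7, nat_lit 0x400040004000200050, nat_lit 0x110020, nat_lit 4, nat_lit 4, nat_lit 0x48⟩ (.nil) (.nil)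
def t14_12797 : Tr := .node ⟨nat_lit 8, nat_lit 0x10004000a000c0, nat_lit 0x100020, nat_lit 3, nat_lit 4, nat_lit 0x48⟩ (.nil) (.nil)
def t14_2557 : Tr := .node ⟨nat_lit 5, nat_lit 0x1000080018, nat_lit 0x10012, nat_lit 5, nat_lit 3, nat_lit 0x45⟩ (.nil) (.nil)
def t14_10749 : Tr := .node ⟨nat_lit 7, nat_lit 0x40001000500060, nat_lit 0x1002, nat_lit 2, nat_lit 4, nat_lit 0x46⟩ (.nil) (.nil)
def t14_6653 : Tr := .node ⟨nat_lit 7, nat_lit 0x40004000200010, nat_lit 0x11021, nat_lit 2, nat_lit 4, nat_lit 0x48⟩ (.nil) (.nil)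
def t14_14845 : Tr := .node ⟨nat_lit 9, nat_lit 0x80008001000100010001100190, nat_lit 0x2201001, nat_lit 1, nat_lit 4, nat_lit 0x48⟩ (.nil) (.nil)
def t14_1533 : Tr := .node ⟨nat_lit 8, nat_lit 0x800080004000d000e000c8, nat_lit 0x122010, nat_lit 1, nat_lit 4, nat_lit 0x46⟩ (.nil) (.nil)
def t14_9725 : Tr := .node ⟨nat_lit 7, nat_lit 0x10001000100060, nat_lit 0x1001002, nat_lit 0, nat_lit 4, nat_lit 0x47⟩ (.nil) (.nil)
def t14_5629 : Tr := .node ⟨nat_lit 7, nat_lit 0x6000500050, nat_lit 0x1120, nat_lit 3, nat_lit 4, nat_lit 0x47⟩ (.nil) (.nil)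
def t14_13821 : Tr := .node ⟨nat_lit 7, nat_lit 0x4800280070, nat_lit 0x10002, nat_lit 0, nat_lit 4, nat_lit 0x45⟩ (.nil) (.nil)
def t14_3581 : Tr := .node ⟨nat_lit 7, nat_lit 0x40001000600050, nat_lit 0x3101, nat_lit 0, nat_lit 4, nat_lit 0x47⟩ (.nil) (.nil)
def t14_11773 : Tr := .node ⟨nat_lit 7, nat_lit 0x4000200010, nat_lit 0x1004, nat_lit 1, nat_lit 4, nat_lit 0x49⟩ (.nil) (.nil)
def t14_7677 : Tr := .node ⟨nat_lit 6, nat_lit 0x800200030, nat_lit 0, nat_lit 3, nat_lit 4, nat_lit 0x45⟩ (.nil) (.nil)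
def t14_1021 : Tr := .node ⟨nat_lit 7, nat_lit 0x40001000200048, nat_lit 0x110112, nat_lit 0, nat_lit 4, nat_lit 0x47⟩ (.nil) (.nil)
def t14_9213 : Tr := .node ⟨nat_lit 7, nat_lit 0x200040003000480070, nat_lit 0x10001, nat_lit 1, nat_lit 4, nat_lit 0x44⟩ (.nil) (.nil)
def t14_5117 : Tr := .node ⟨nat_lit 9, nat_lit 0x1000100010000800080012001c0, nat_lit 0x1003001, nat_lit 1, nat_lit 4, nat_lit 0x48⟩ (.nil) (.nil)
def t14_13309 : Tr := .node ⟨nat_lit 7, nat_lit 0x40002000600050, nat_lit 0x1003, nat_lit 1, nat_lit 4, nat_lit 0x46⟩ (.nil) (.nil)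
def t14_3069 : Tr := .node ⟨nat_lit 4, nat_lit 0xc000c, nat_lit 0x1021, nat_lit 6, nat_lit 3, nat_lit 0x44⟩ (.nil) (.nil)
def t14_11261 : Tr := .node ⟨nat_lit 7, nat_lit 0x40001000100060, nat_lit 0x101110, nat_lit 0, nat_lit 4, nat_lit 0x47⟩ (.nil) (.nil)
def t14_7165 : Tr := .node ⟨nat_lit 9, nat_lit 0x40010000200180, nat_lit 0x100110111, nat_lit 1, nat_lit 4, nat_lit 0x4b⟩ (.nil) (.nil)
def t14_15357 : Tr := .node ⟨nat_lit 9, nat_lit 0x8001000100011000c0019001a0, nat_lit 0x1111110, nat_lit 0, nat_lit 4, nat_lit 0x46⟩ (.nil) (.nil)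
def t14_2045 : Tr := .node ⟨nat_lit 7, nat_lit 0x40002000500060, nat_lit 0x113001, nat_lit 1, nat_lit 4, nat_lit 0x48⟩ (.nil) (.nil)
def t14_10237 : Tr := .node ⟨nat_lit 6, nat_lit 0x2000200030, nat_lit 0x1220, nat_lit 8, nat_lit 4, nat_lit 0x49⟩ (.nil) (.nil)
def t14_6141 : Tr := .node ⟨nat_lit 3, nat_lit 0x40004, nat_lit 0x21, nat_lit 8, nat_lit 4, nat_lit 0x45⟩ (.nil) (.nil)
def t14_14333 : Tr := .node ⟨nat_lit 7, nat_lit 0x20002000500068, nat_lit 0x100010, nat_lit 1, nat_lit 4, nat_lit 0x46⟩ (.nil) (.nil)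
def t14_4093 : Tr := .node ⟨nat_lit 8, nat_lit 0x800080004000900090, nat_lit 0x1111021, nat_lit 2, nat_lit 4, nat_lit 0x49⟩ (.nil) (.nil)
def t14_12285 : Tr := .node ⟨nat_lit 7, nat_lit 0x10006000500050, nat_lit 0x101130, nat_lit 3, nat_lit 4, nat_lit 0x47⟩ (.nil) (.nil)
def t14_8189 : Tr := .node ⟨nat_lit 6, nat_lit 0x300038, nat_lit 0x203, nat_lit 2, nat_lit 4, nat_lit 0x46⟩ (.nil) (.nil)
def t9_509 : Tr := .node ⟨nat_lit 5, nat_lit 0x100018, nat_lit 0x1321, nat_lit 1, nat_lit 3, nat_lit 0x46⟩ (.node ⟨nat_lit 5, nat_lit 0x1000140014, nat_lit 0x31031, nat_lit 3, nat_lit 4, nat_lit 0x48⟩ (.node ⟨nat_lit 5, nat_lit 0, nat_lit 0x22211, nat_lit 0, nat_lit 3, nat_lit 0x49⟩ (.node ⟨nat_lit 4, nat_lit 0x80008, nat_lit 0x221, nat_lit 7, nat_lit 4, nat_lit 0x47⟩ (.node ⟨nat_lit 8, nat_lit 0x80008000400020, nat_lit 0x1211011, nat_lit 2, nat_lit 4, nat_lit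 0x4b⟩ (t14_509) (t14_8701)) (.node ⟨nat_lit 6, nat_lit 0x1000200022, nat_lit 0x121211, nat_lit 3, nat_lit 4, nat_lit 0x49⟩ (t14_4605) (t14_12797))) (.node ⟨nat_lit 6, nat_lit 0x80030, nat_lit 0x100101, nat_lit 0, nat_lit 4, nat_lit 0x46⟩ (.node ⟨nat_lit 7, nat_lit 0x4000200060, nat_lit 0x121031, nat_lit 0, nat_lit 4, nat_lit 0x4a⟩ (t14_2557) (t14_10749)) (.node ⟨nat_lit 7, nat_lit 0x4000200060, nat_lit 0x111212, nat_lit 0, nat_lit 4, nat_lit 0x49⟩ (t14_6653) (t14_14845)))) (.node ⟨nat_lit 4, nat_lit 0x8000e, nat_lit 0x1221, nat_lit 8, nat_lit 4, nat_lit 0x47⟩ (.node ⟨nat_lit 6, nat_lit 0x100020, nat_lit 0x122211, nat_lit 2, nat_lit 4, nat_lit 0x4b⟩ (.node ⟨nat_lit 6, nat_lit 0x2000240030, nat_lit 0x101321, nat_lit 4, nat_lit 4, nat_lit 0x49⟩ (t14_1533) (t14_9725)) (.node ⟨nat_lit 4, nat_lit 0xc000c, nat_lit 0x1120, nat_lit 3, nat_lit 3, nat_lit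 0x44⟩ (t14_5629) (t14_13821))) (.node ⟨nat_lit 8, nat_lit 0x8000800040, nat_lit 0x1211000, nat_lit 0, nat_lit 4, nat_lit 0x4b⟩ (.node ⟨nat_lit 6, nat_lit 0x800200032, nat_lit 0x101000, nat_lit 2, nat_lit 4, nat_lit 0x46⟩ (t14_3581) (t14_11773)) (.node ⟨nat_lit 8, nat_lit 0x80008000400088, nat_lit 0x11112110, nat_lit 0, nat_lit 4, nat_lit 0x4b⟩ (t14_7677) (.nil))))) (.node ⟨nat_lit 3, nat_lit 6, nat_lit 0x300, nat_lit 3, nat_lit 3, nat_lit 0x44⟩ (.node ⟨nat_lit 5, nat_lit 0x1000140014, nat_lit 0x22000, nat_lit 5, nat_lit 4, nat_lit 0x47⟩ (.node ⟨nat_lit 6, nat_lit 0x2000080030, nat_lit 0x212121, nat_lit 0, nat_lit 4, nat_lit 0x49⟩ (.node ⟨nat_lit 6, nat_lit 0x80030, nat_lit 0x110104, nat_lit 0, nat_lit 4, nat_lit 0x48⟩ (t14_1021) (t14_9213)) (.node ⟨nat_lit 4, nat_lit 0xc, nat_lit 0x2210, nat_lit 4, nat_lit 4, nat_lit 0x47⟩ (t14_5117) (t14_13309)))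 (.node ⟨nat_lit 6, nat_lit 0x2000100010, nat_lit 0x11020, nat_lit 6, nat_lit 4, nat_lit 0x49⟩ (.node ⟨nat_lit 7, nat_lit 0x20004000440044, nat_lit 0x2010221, nat_lit 2, nat_lit 4, nat_lit 0x4a⟩ (t14_3069) (t14_11261)) (.node ⟨nat_lit 7, nat_lit 0x20006000500068, nat_lit 0x112220, nat_lit 1, nat_lit 4, nat_lit 0x47⟩ (t14_7165) (t14_15357)))) (.node ⟨nat_lit 7, nat_lit 0x1000400060, nat_lit 0x1002021, nat_lit 1, nat_lit 4, nat_lit 0x49⟩ (.node ⟨nat_lit 7, nat_lit 0x4000100060, nat_lit 0x221121, nat_lit 0, nat_lit 4, nat_lit 0x4a⟩ (.node ⟨nat_lit 6, nat_lit 0x1000100020, nat_lit 0x112310, nat_lit 3, nat_lit 4, nat_lit 0x4a⟩ (t14_2045) (t14_10237)) (.node ⟨nat_lit 7, nat_lit 0x20004000600068, nat_lit 0x122200, nat_lit 0, nat_lit 4, nat_lit 0x48⟩ (t14_6141) (t14_14333))) (.node ⟨nat_lit 5, nat_lit 0x18, nat_lit 0x22114, nat_lit 1, nat_lit 4, nat_lit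 0x4a⟩ (.node ⟨nat_lit 6, nat_lit 0x2000300030, nat_lit 0x2010, nat_lit 2, nat_lit 4, nat_lit 0x46⟩ (t14_4093) (t14_12285)) (.node ⟨nat_lit 8, nat_lit 0x8000800040004000a00090, nat_lit 0x1102210, nat_lit 1, nat_lit 4, nat_lit 0x48⟩ (t14_8189) (.nil)))))
def t4_13 : Tr := .node ⟨nat_lit 2, nat_lit 0, nat_lit 0x21, nat_lit 9, nat_lit 3, nat_lit 0x45⟩ (.node ⟨nat_lit 3, nat_lit 6, nat_lit 0x212, nat_lit 4, nat_lit 3, nat_lit 0x44⟩ (.node ⟨nat_lit 1, nat_lit 0, nat_lit 1, nat_lit 0x10, nat_lit 3, nat_lit 0x44⟩ (.node ⟨nat_lit 4, nat_lit 0, nat_lit 0x4221, nat_lit 0, nat_lit 3, nat_lit 0x49⟩ (.node ⟨nat_lit 6, nat_lit 0x20, nat_lit 0x141111, nat_lit 2, nat_lit 4, nat_lit 0x4c⟩ (t9_13) (t9_269)) (.node ⟨nat_lit 3, nat_lit 4, nat_lit 0x312, nat_lit 9, nat_lit 3, nat_lit 0x47⟩ (t9_141) (t9_397))) (.node ⟨nat_lit 5, nat_lit 0x10, nat_lit 0x14112, nat_lit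 0, nat_lit 4, nat_lit 0x4a⟩ (.node ⟨nat_lit 4, nat_lit 0xc, nat_lit 0x2212, nat_lit 1, nat_lit 3, nat_lit 0x46⟩ (t9_77) (t9_333)) (.node ⟨nat_lit 4, nat_lit 8, nat_lit 0x3111, nat_lit 7, nat_lit 3, nat_lit 0x48⟩ (t9_205) (t9_461)))) (.node ⟨nat_lit 3, nat_lit 0, nat_lit 0x431, nat_lit 9, nat_lit 4, nat_lit 0x4a⟩ (.node ⟨nat_lit 5, nat_lit 0, nat_lit 0x42221, nat_lit 0, nat_lit 4, nat_lit 0x4c⟩ (.node ⟨nat_lit 2, nat_lit 2, nat_lit 0x21, nat_lit 0xd, nat_lit 3, nat_lit 0x45⟩ (t9_45) (t9_301)) (.node ⟨nat_lit 3, nat_lit 6, nat_lit 0x311, nat_lit 0xf, nat_lit 4, nat_lit 0x48⟩ (t9_173) (t9_429))) (.node ⟨nat_lit 4, nat_lit 0x80008, nat_lit 0x1421, nat_lit 5, nat_lit 4, nat_lit 0x49⟩ (.node ⟨nat_lit 4, nat_lit 0x80004, nat_lit 0x2220, nat_lit 1, nat_lit 3, nat_lit 0x46⟩ (t9_109) (t9_365)) (.node ⟨nat_lit 5, nat_lit 0x18, nat_lit 0x31211, nat_lit 1,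 nat_lit 4, nat_lit 0x49⟩ (t9_237) (t9_493))))) (.node ⟨nat_lit 3, nat_lit 4, nat_lit 0x221, nat_lit 2, nat_lit 3, nat_lit 0x45⟩ (.node ⟨nat_lit 6, nat_lit 0x2000080010, nat_lit 0x11011, nat_lit 0, nat_lit 3, nat_lit 0x46⟩ (.node ⟨nat_lit 4, nat_lit 8, nat_lit 0x1421, nat_lit 3, nat_lit 4, nat_lit 0x49⟩ (.node ⟨nat_lit 5, nat_lit 0x80010, nat_lit 0x13231, nat_lit 1, nat_lit 4, nat_lit 0x4a⟩ (t9_29) (t9_285)) (.node ⟨nat_lit 3, nat_lit 4, nat_lit 0x312, nat_lit 5, nat_lit 4, nat_lit 0x47⟩ (t9_157) (t9_413))) (.node ⟨nat_lit 6, nat_lit 0x2000200010, nat_lit 0x14101, nat_lit 1, nat_lit 4, nat_lit 0x49⟩ (.node ⟨nat_lit 6, nat_lit 0x2000100008, nat_lit 0x2002, nat_lit 3, nat_lit 3, nat_lit 0x47⟩ (t9_93) (t9_349)) (.node ⟨nat_lit 6, nat_lit 0x20, nat_lit 0x311111, nat_lit 1, nat_lit 3, nat_lit 0x4a⟩ (t9_221) (t9_477)))) (.node ⟨nat_lit 4, nat_lit 0, nat_lit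 0x4311, nat_lit 5, nat_lit 4, nat_lit 0x4b⟩ (.node ⟨nat_lit 5, nat_lit 0x10, nat_lit 0x14221, nat_lit 0, nat_lit 4, nat_lit 0x4b⟩ (.node ⟨nat_lit 2, nat_lit 0, nat_lit 0x33, nat_lit 2, nat_lit 3, nat_lit 0x46⟩ (t9_61) (t9_317)) (.node ⟨nat_lit 4, nat_lit 0xc, nat_lit 0x3211, nat_lit 3, nat_lit 3, nat_lit 0x47⟩ (t9_189) (t9_445))) (.node ⟨nat_lit 5, nat_lit 0x10, nat_lit 0x4212, nat_lit 1, nat_lit 4, nat_lit 0x4a⟩ (.node ⟨nat_lit 5, nat_lit 0x10, nat_lit 0x32222, nat_lit 0, nat_lit 4, nat_lit 0x4b⟩ (t9_125) (t9_381)) (.node ⟨nat_lit 5, nat_lit 0x10, nat_lit 0x13112, nat_lit 0, nat_lit 4, nat_lit 0x49⟩ (t9_253) (t9_509)))))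

end Pool.Agent.Sel.T31
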