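import Pool.Agent.H8.Sel.Prof
import Pool.Agent.H8.Sel.T31.P13

set_option linter.all false
set_option maxRecDepth 100000

namespace Pool.Agent.Sel.T31

open Pool.Agent.Sel

def t14_15 : Tr := .node ⟨nat_lit 3, nat_lit 4, nat_lit 0x110, nat_lit 0x11, nat_lit 4, nat_lit 0x48⟩ (.nil) (.nil)
def t14_8207 : Tr := .node ⟨nat_lit 7, nat_lit 0x20004000440030, nat_lit 0x11110, nat_lit 0, nat_lit 4, nat_lit 0x46⟩ (.nil) (.nil)
def t14_4111 : Tr := .node ⟨nat_lit 9, nat_lit 0x10001000100004000800120, nat_lit 0x11120011, nat_lit 0, nat_lit 4, nat_lit 0x4a⟩ (.nil) (.nil)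
def t14_12303 : Tr := .node ⟨nat_lit 7, nat_lit 0x40001000600050, nat_lit 0x1210, nat_lit 0, nat_lit 4, nat_lit 0x46⟩ (.nil) (.nil)
def t14_2063 : Tr := .node ⟨nat_lit 7, nat_lit 0x40004000100060, nat_lit 0x113101, nat_lit 2, nat_lit 4, nat_lit 0x49⟩ (.nil) (.nil)
def t14_10255 : Tr := .node ⟨nat_lit 7, nat_lit 0x20006000500068, nat_lit 0x101022, nat_lit 2, nat_lit 4, nat_lit 0x46⟩ (.nil) (.nil)
def t14_6159 : Tr := .node ⟨nat_lit 5, nat_lit 0x1000100014, nat_lit 0x1000, nat_lit 7, nat_lit 4, nat_lit 0x46⟩ (.nil) (.nil)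
def t14_14351 : Tr := .node ⟨nat_lit 7, nat_lit 0x20002000500068, nat_lit 0x101, nat_lit 3, nat_lit 4, nat_lit 0x46⟩ (.nil) (.nil)
def t14_1039 : Tr := .node ⟨nat_lit 7, nat_lit 0x40001000500068, nat_lit 0x2112, nat_lit 0, nat_lit 4, nat_lit 0x46⟩ (.nil) (.nil)
def t14_9231 : Tr := .node ⟨nat_lit 6, nat_lit 0x10001000200030, nat_lit 0x102211, nat_lit 4, nat_lit 4, nat_lit 0x48⟩ (.nil) (.nil)
def t14_5135 : Tr := .node ⟨nat_lit 7, nat_lit 0x400040004800580070, nat_lit 0x100, nat_lit 1, nat_lit 4, nat_lit 0x44⟩ (.nil) (.nil)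
def t14_13327 : Tr := .node ⟨nat_lit 6, nat_lit 0x800200030, nat_lit 0x230, nat_lit 3, nat_lit 4, nat_lit 0x47⟩ (.nil) (.nil)
def t14_3087 : Tr := .node ⟨nat_lit 7, nat_lit 0x20002000500068, nat_lit 0x1011210, nat_lit 0, nat_lit 4, nat_lit 0x47⟩ (.nil) (.nil)
def t14_11279 : Tr := .node ⟨nat_lit 8, nat_lit 0x80004000a000a000d0, nat_lit 0x110202, nat_lit 0, nat_lit 4, nat_lit 0x47⟩ (.nil) (.nil)
def t14_7183 : Tr := .node ⟨nat_lit 7, nat_lit 0x40004000200070, nat_lit 0x110012, nat_lit 1, nat_lit 4, nat_lit 0x47⟩ (.nil) (.nil)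
def t14_15375 : Tr := .node ⟨nat_lit 8, nat_lit 0x80001000c000a0, nat_lit 0x12110, nat_lit 4, nat_lit 4, nat_lit 0x49⟩ (.nil) (.nil)
def t14_527 : Tr := .node ⟨nat_lit 4, nat_lit 0x8000c, nat_lit 0x232, nat_lit 8, nat_lit 4, nat_lit 0x47⟩ (.nil) (.nil)
def t14_8719 : Tr := .node ⟨nat_lit 8, nat_lit 0x800040009000a000d0, nat_lit 0x11100, nat_lit 1, nat_lit 4, nat_lit 0x46⟩ (.nil) (.nil)
def t14_4623 : Tr := .node ⟨nat_lit 6, nat_lit 0x2000280034, nat_lit 0x120211, nat_lit 4, nat_lit 4, nat_lit 0x48⟩ (.nil) (.nil)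
def t14_12815 : Tr := .node ⟨nat_lit 8, nat_lit 0x800020004000a000c0, nat_lit 0x22001, nat_lit 0, nat_lit 4, nat_lit 0x47⟩ (.nil) (.nil)
def t14_2575 : Tr := .node ⟨nat_lit 7, nat_lit 0x400040002000200070, nat_lit 0x1002310, nat_lit 2, nat_lit 4, nat_lit 0x48⟩ (.nil) (.nil)
def t14_10767 : Tr := .node ⟨nat_lit 7, nat_lit 0x40002000480068, nat_lit 0x10002, nat_lit 0, nat_lit 4, nat_lit 0x45⟩ (.nil) (.nil)
def t14_6671 : Tr := .node ⟨nat_lit 8, nat_lit 0x80008000400040009000a0, nat_lit 0x10112010, nat_lit 1, nat_lit 4, nat_lit 0x48⟩ (.nil) (.nil)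
def t14_14863 : Tr := .node ⟨nat_lit 9, nat_lit 0x10001000100004000800120, nat_lit 0x10111011, nat_lit 3, nat_lit 4, nat_lit 0x4a⟩ (.nil) (.nil)
def t14_1551 : Tr := .node ⟨nat_lit 8, nat_lit 0x8000400040004000a000d0, nat_lit 0x121011, nat_lit 0, nat_lit 4, nat_lit 0x47⟩ (.nil) (.nil)
def t14_9743 : Tr := .node ⟨nat_lit 8, nat_lit 0x4000800080008000c8, nat_lit 0x120100, nat_lit 0, nat_lit 4, nat_lit 0x48⟩ (.nil) (.nil)
def t14_5647 : Tr := .node ⟨nat_lit 6, nat_lit 0x2000300030, nat_lit 0x1220, nat_lit 4, nat_lit 4, nat_lit 0x47⟩ (.nil) (.nil)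
def t14_13839 : Tr := .node ⟨nat_lit 8, nat_lit 0x10008000a000c4, nat_lit 0x200, nat_lit 0, nat_lit 4, nat_lit 0x47⟩ (.nil) (.nil)
def t14_3599 : Tr := .node ⟨nat_lit 6, nat_lit 0x2000200030, nat_lit 0x102112, nat_lit 2, nat_lit 3, nat_lit 0x47⟩ (.nil) (.nil)
def t14_11791 : Tr := .node ⟨nat_lit 7, nat_lit 0x40004000480030, nat_lit 0x100003, nat_lit 3, nat_lit 4, nat_lit 0x47⟩ (.nil) (.nil)
def t14_7695 : Tr := .node ⟨nat_lit 4, nat_lit 0x80004, nat_lit 0, nat_lit 6, nat_lit 4, nat_lit 0x44⟩ (.nil) (.nil)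
def t9_15 : Tr := .node ⟨nat_lit 3, nat_lit 0, nat_lit 0x321, nat_lit 3, nat_lit 4, nat_lit 0x47⟩ (.node ⟨nat_lit 7, nat_lit 0x1000400060, nat_lit 0x1003030, nat_lit 1, nat_lit 4, nat_lit 0x4a⟩ (.node ⟨nat_lit 4, nat_lit 0xc000c, nat_lit 0x1020, nat_lit 2, nat_lit 3, nat_lit 0x43⟩ (.node ⟨nat_lit 6, nat_lit 0x280030, nat_lit 0x21021, nat_lit 0, nat_lit 4, nat_lit 0x47⟩ (.node ⟨nat_lit 6, nat_lit 0x2000080030, nat_lit 0x112032, nat_lit 1, nat_lit 4, nat_lit 0x49⟩ (t14_15) (t14_8207)) (.node ⟨nat_lit 6, nat_lit 0x800080030, nat_lit 0x101100, nat_lit 2, nat_lit 4, nat_lit 0x47⟩ (t14_4111) (t14_12303))) (.node ⟨nat_lit 5, nat_lit 0x18, nat_lit 0x31214, nat_lit 0, nat_lit 4, nat_lit 0x4a⟩ (.node ⟨nat_lit 7, nat_lit 0x400040002000200050, nat_lit 0x112311, nat_lit 0, nat_lit 4, nat_lit 0x48⟩ (t14_2063) (t14_10255)) (.node ⟨nat_lit 6, nat_lit 0x800200030,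 nat_lit 0x120200, nat_lit 0, nat_lit 4, nat_lit 0x47⟩ (t14_6159) (t14_14351)))) (.node ⟨nat_lit 4, nat_lit 0x8000e, nat_lit 0x2122, nat_lit 6, nat_lit 4, nat_lit 0x47⟩ (.node ⟨nat_lit 6, nat_lit 0x200030, nat_lit 0x221112, nat_lit 0, nat_lit 4, nat_lit 0x4a⟩ (.node ⟨nat_lit 6, nat_lit 0x800300038, nat_lit 0x111113, nat_lit 3, nat_lit 4, nat_lit 0x47⟩ (t14_1039) (t14_9231)) (.node ⟨nat_lit 5, nat_lit 0x100010, nat_lit 0x12100, nat_lit 9, nat_lit 3, nat_lit 0x48⟩ (t14_5135) (t14_13327))) (.node ⟨nat_lit 5, nat_lit 0x100008, nat_lit 0x12102, nat_lit 4, nat_lit 4, nat_lit 0x49⟩ (.node ⟨nat_lit 4, nat_lit 0x40008, nat_lit 0x1100, nat_lit 7, nat_lit 4, nat_lit 0x46⟩ (t14_3087) (t14_11279)) (.node ⟨nat_lit 6, nat_lit 0x20001000280030, nat_lit 0x12202, nat_lit 3, nat_lit 4, nat_lit 0x47⟩ (t14_7183) (t14_15375))))) (.node ⟨nat_lit 6, nat_lit 0x280030, nat_lit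 0x113121, nat_lit 0, nat_lit 4, nat_lit 0x49⟩ (.node ⟨nat_lit 3, nat_lit 0, nat_lit 0x222, nat_lit 7, nat_lit 4, nat_lit 0x48⟩ (.node ⟨nat_lit 4, nat_lit 0x80008, nat_lit 0x1211, nat_lit 9, nat_lit 4, nat_lit 0x48⟩ (.node ⟨nat_lit 7, nat_lit 0x400040002000480050, nat_lit 0x1211110, nat_lit 4, nat_lit 4, nat_lit 0x49⟩ (t14_527) (t14_8719)) (.node ⟨nat_lit 7, nat_lit 0x200040004800600068, nat_lit 0x1120021, nat_lit 2, nat_lit 4, nat_lit 0x47⟩ (t14_4623) (t14_12815))) (.node ⟨nat_lit 8, nat_lit 0x200080008800c000c8, nat_lit 0x1000021, nat_lit 0, nat_lit 4, nat_lit 0x46⟩ (.node ⟨nat_lit 5, nat_lit 0x800100018, nat_lit 0x11113, nat_lit 8, nat_lit 4, nat_lit 0x48⟩ (t14_2575) (t14_10767)) (.node ⟨nat_lit 9, nat_lit 0x1000100010001100110, nat_lit 0x21102000, nat_lit 1, nat_lit 4, nat_lit 0x4b⟩ (t14_6671) (t14_14863)))) (.node ⟨nat_lit 5, nat_lit 0x80010,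 nat_lit 0x21131, nat_lit 3, nat_lit 4, nat_lit 0x49⟩ (.node ⟨nat_lit 7, nat_lit 0x4000100020, nat_lit 0x112001, nat_lit 3, nat_lit 4, nat_lit 0x4a⟩ (.node ⟨nat_lit 6, nat_lit 0x10002000240030, nat_lit 0x13201, nat_lit 2, nat_lit 4, nat_lit 0x47⟩ (t14_1551) (t14_9743)) (.node ⟨nat_lit 8, nat_lit 0x4000800080008800900090, nat_lit 0x11201000, nat_lit 1, nat_lit 4, nat_lit 0x48⟩ (t14_5647) (t14_13839))) (.node ⟨nat_lit 3, nat_lit 6, nat_lit 0x202, nat_lit 0xa, nat_lit 4, nat_lit 0x46⟩ (.node ⟨nat_lit 5, nat_lit 0x1000080014, nat_lit 0x1120, nat_lit 2, nat_lit 4, nat_lit 0x45⟩ (t14_3599) (t14_11791)) (.node ⟨nat_lit 5, nat_lit 0x800100012, nat_lit 0x11020, nat_lit 9, nat_lit 4, nat_lit 0x48⟩ (t14_7695) (.nil)))))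
def t14_271 : Tr := .node ⟨nat_lit 6, nat_lit 0x20002000100030, nat_lit 0x3112, nat_lit 0, nat_lit 3, nat_lit 0x45⟩ (.nil) (.nil)
def t14_8463 : Tr := .node ⟨nat_lit 6, nat_lit 0x2000100030, nat_lit 0x301, nat_lit 3, nat_lit 4, nat_lit 0x47⟩ (.nil) (.nil)
def t14_4367 : Tr := .node ⟨nat_lit 7, nat_lit 0x400040004800580070, nat_lit 0x1111210, nat_lit 1, nat_lit 4, nat_lit 0x47⟩ (.nil) (.nil)
def t14_12559 : Tr := .node ⟨nat_lit 6, nat_lit 0x20001000280038, nat_lit 0x100101, nat_lit 3, nat_lit 4, nat_lit 0x45⟩ (.nil) (.nil)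
def t14_2319 : Tr := .node ⟨nat_lit 6, nat_lit 0x2000300030, nat_lit 0x2210, nat_lit 7, nat_lit 4, nat_lit 0x48⟩ (.nil) (.nil)
def t14_10511 : Tr := .node ⟨nat_lit 6, nat_lit 0x800200030, nat_lit 0x20, nat_lit 2, nat_lit 3, nat_lit 0x45⟩ (.nil) (.nil)
def t14_6415 : Tr := .node ⟨nat_lit 8, nat_lit 0x400040008000800084, nat_lit 0x10110111, nat_lit 0, nat_lit 4, nat_lit 0x49⟩ (.nil) (.nil)
def t14_14607 : Tr := .node ⟨nat_lit 5, nat_lit 0, nat_lit 0x11111, nat_lit 6, nat_lit 3, nat_lit 0x49⟩ (.nil) (.nil)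
def t14_1295 : Tr := .node ⟨nat_lit 7, nat_lit 0x40002000480064, nat_lit 0x11210, nat_lit 0, nat_lit 4, nat_lit 0x46⟩ (.nil) (.nil)
def t14_9487 : Tr := .node ⟨nat_lit 0xa, nat_lit 0x1000200020002000180024002400220, nat_lit 0x101110110, nat_lit 0, nat_lit 4, nat_lit 0x49⟩ (.nil) (.nil)
def t14_5391 : Tr := .node ⟨nat_lit 8, nat_lit 0x4000400040008000600084, nat_lit 0x11201, nat_lit 0, nat_lit 4, nat_lit 0x47⟩ (.nil) (.nil)
def t14_13583 : Tr := .node ⟨nat_lit 7, nat_lit 0x10002000400062, nat_lit 0x1020, nat_lit 1, nat_lit 4, nat_lit 0x46⟩ (.nil) (.nil)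
def t14_3343 : Tr := .node ⟨nat_lit 6, nat_lit 0x20002000100028, nat_lit 0x21001, nat_lit 3, nat_lit 4, nat_lit 0x47⟩ (.nil) (.nil)
def t14_11535 : Tr := .node ⟨nat_lit 3, nat_lit 0x40006, nat_lit 0x32, nat_lit 0xb, nat_lit 4, nat_lit 0x46⟩ (.nil) (.nil)
def t14_7439 : Tr := .node ⟨nat_lit 5, nat_lit 0x180018, nat_lit 0x11111, nat_lit 0xb, nat_lit 4, nat_lit 0x48⟩ (.nil) (.nil)
def t14_783 : Tr := .node ⟨nat_lit 3, nat_lit 4, nat_lit 0x23, nat_lit 6, nat_lit 4, nat_lit 0x46⟩ (.nil) (.nil)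
def t14_8975 : Tr := .node ⟨nat_lit 7, nat_lit 0x4000400040006000480050, nat_lit 0x111010, nat_lit 9, nat_lit 4, nat_lit 0x48⟩ (.nil) (.nil)
def t14_4879 : Tr := .node ⟨nat_lit 9, nat_lit 0x4000400100006000500180, nat_lit 0x100102001, nat_lit 0, nat_lit 4, nat_lit 0x48⟩ (.nil) (.nil)
def t14_13071 : Tr := .node ⟨nat_lit 7, nat_lit 0x20006000500068, nat_lit 0x100031, nat_lit 0, nat_lit 4, nat_lit 0x45⟩ (.nil) (.nil)
def t14_2831 : Tr := .node ⟨nat_lit 8, nat_lit 0xa000c000c0, nat_lit 0x111020, nat_lit 0, nat_lit 4, nat_lit 0x48⟩ (.nil) (.nil)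
def t14_11023 : Tr := .node ⟨nat_lit 7, nat_lit 0x4000600060, nat_lit 0x1011220, nat_lit 1, nat_lit 4, nat_lit 0x49⟩ (.nil) (.nil)
def t14_6927 : Tr := .node ⟨nat_lit 6, nat_lit 0x200032, nat_lit 0x131111, nat_lit 1, nat_lit 4, nat_lit 0x49⟩ (.nil) (.nil)
def t14_15119 : Tr := .node ⟨nat_lit 7, nat_lit 0x20004000500068, nat_lit 0x1011, nat_lit 1, nat_lit 4, nat_lit 0x45⟩ (.nil) (.nil)
def t14_1807 : Tr := .node ⟨nat_lit 7, nat_lit 0x40001000680070, nat_lit 0x2101002, nat_lit 1, nat_lit 4, nat_lit 0x47⟩ (.nil) (.nil)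
def t14_9999 : Tr := .node ⟨nat_lit 7, nat_lit 0x200020002000400040, nat_lit 0x1032010, nat_lit 0, nat_lit 3, nat_lit 0x47⟩ (.nil) (.nil)
def t14_5903 : Tr := .node ⟨nat_lit 8, nat_lit 0x8000a000c0, nat_lit 0x1111012, nat_lit 1, nat_lit 4, nat_lit 0x4a⟩ (.nil) (.nil)
def t14_14095 : Tr := .node ⟨nat_lit 7, nat_lit 0x40001000100060, nat_lit 0x101002, nat_lit 5, nat_lit 4, nat_lit 0x48⟩ (.nil) (.nil)
def t14_3855 : Tr := .node ⟨nat_lit 8, nat_lit 0x80008000800040, nat_lit 0x1112100, nat_lit 3, nat_lit 4, nat_lit 0x4b⟩ (.nil) (.nil)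
def t14_12047 : Tr := .node ⟨nat_lit 7, nat_lit 0x4000600050, nat_lit 0x11210, nat_lit 5, nat_lit 4, nat_lit 0x49⟩ (.nil) (.nil)
def t14_7951 : Tr := .node ⟨nat_lit 7, nat_lit 0x400040002000500050, nat_lit 0x111021, nat_lit 5, nat_lit 4, nat_lit 0x48⟩ (.nil) (.nil)
def t9_271 : Tr := .node ⟨nat_lit 4, nat_lit 0xc, nat_lit 0x2032, nat_lit 4, nat_lit 4, nat_lit 0x47⟩ (.node ⟨nat_lit 6, nat_lit 0x2000080034, nat_lit 0x311202, nat_lit 0, nat_lit 4, nat_lit 0x49⟩ (.node ⟨nat_lit 7, nat_lit 0x3000500060, nat_lit 0x113120, nat_lit 0, nat_lit 4, nat_lit 0x48⟩ (.node ⟨nat_lit 5, nat_lit 0x10, nat_lit 0x12113, nat_lit 1, nat_lit 3, nat_lit 0x48⟩ (.node ⟨nat_lit 4, nat_lit 0x8000c, nat_lit 0x2121, nat_lit 9, nat_lit 4, nat_lit 0x48⟩ (t14_271) (t14_8463)) (.node ⟨nat_lit 7, nat_lit 0x4000200020, nat_lit 0x1111030, nat_lit 1, nat_lit 3, nat_lit 0x49⟩ (t14_4367)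 (t14_12559))) (.node ⟨nat_lit 6, nat_lit 0x200010, nat_lit 0x2102, nat_lit 0, nat_lit 3, nat_lit 0x47⟩ (.node ⟨nat_lit 7, nat_lit 0x20005000300060, nat_lit 0x1000302, nat_lit 0, nat_lit 4, nat_lit 0x46⟩ (t14_2319) (t14_10511)) (.node ⟨nat_lit 7, nat_lit 0x1000600070, nat_lit 0x1102003, nat_lit 0, nat_lit 4, nat_lit 0x48⟩ (t14_6415) (t14_14607)))) (.node ⟨nat_lit 6, nat_lit 0x30, nat_lit 0x211111, nat_lit 1, nat_lit 4, nat_lit 0x4a⟩ (.node ⟨nat_lit 6, nat_lit 0x100020, nat_lit 0x222211, nat_lit 0, nat_lit 4, nat_lit 0x4b⟩ (.node ⟨nat_lit 5, nat_lit 0x40018, nat_lit 0x10110, nat_lit 1, nat_lit 4, nat_lit 0x45⟩ (t14_1295) (t14_9487)) (.node ⟨nat_lit 7, nat_lit 0x2000500060, nat_lit 0x1111122, nat_lit 0, nat_lit 4, nat_lit 0x49⟩ (t14_5391) (t14_13583))) (.node ⟨nat_lit 6, nat_lit 0x20001000100028, nat_lit 0x12210, nat_lit 2, nat_lit 4, nat_lit 0x47⟩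 (.node ⟨nat_lit 8, nat_lit 0x800080002000200040, nat_lit 0x1110310, nat_lit 0, nat_lit 4, nat_lit 0x4a⟩ (t14_3343) (t14_11535)) (.node ⟨nat_lit 6, nat_lit 0x20001000100010, nat_lit 0x111211, nat_lit 1, nat_lit 3, nat_lit 0x47⟩ (t14_7439) (.nil))))) (.node ⟨nat_lit 4, nat_lit 0xc, nat_lit 0x1130, nat_lit 3, nat_lit 4, nat_lit 0x47⟩ (.node ⟨nat_lit 4, nat_lit 0x8000c, nat_lit 0x2110, nat_lit 3, nat_lit 3, nat_lit 0x45⟩ (.node ⟨nat_lit 6, nat_lit 0x10001000200022, nat_lit 0x101120, nat_lit 0, nat_lit 4, nat_lit 0x46⟩ (.node ⟨nat_lit 6, nat_lit 0x2000200024, nat_lit 0x221020, nat_lit 3, nat_lit 4, nat_lit 0x4a⟩ (t14_783) (t14_8975)) (.node ⟨nat_lit 8, nat_lit 0x8000800040004000a000a0, nat_lit 0x11112011, nat_lit 0, nat_lit 4, nat_lit 0x49⟩ (t14_4879) (t14_13071))) (.node ⟨nat_lit 6, nat_lit 0x2000100030, nat_lit 0x11132, nat_lit 0, nat_lit 4, nat_lit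 0x48⟩ (.node ⟨nat_lit 7, nat_lit 0x40004800680068, nat_lit 0x1020010, nat_lit 1, nat_lit 4, nat_lit 0x46⟩ (t14_2831) (t14_11023)) (.node ⟨nat_lit 9, nat_lit 0x400100002000200180, nat_lit 0x110002102, nat_lit 0, nat_lit 4, nat_lit 0x4a⟩ (t14_6927) (t14_15119)))) (.node ⟨nat_lit 7, nat_lit 0x40004000200020, nat_lit 0x111021, nat_lit 1, nat_lit 4, nat_lit 0x49⟩ (.node ⟨nat_lit 7, nat_lit 0x40001000680070, nat_lit 0x1012112, nat_lit 1, nat_lit 4, nat_lit 0x47⟩ (.node ⟨nat_lit 6, nat_lit 0x800200030, nat_lit 0x10023, nat_lit 2, nat_lit 4, nat_lit 0x47⟩ (t14_1807) (t14_9999)) (.node ⟨nat_lit 9, nat_lit 0x1000100008000400110, nat_lit 0x11200100, nat_lit 3, nat_lit 4, nat_lit 0x4b⟩ (t14_5903) (t14_14095))) (.node ⟨nat_lit 7, nat_lit 0x40001000480060, nat_lit 0x211122, nat_lit 1, nat_lit 4, nat_lit 0x48⟩ (.node ⟨nat_lit 7, nat_lit 0x800500060, nat_lit 0x110001,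 nat_lit 0, nat_lit 4, nat_lit 0x47⟩ (t14_3855) (t14_12047)) (.node ⟨nat_lit 5, nat_lit 0x180018, nat_lit 0x11120, nat_lit 5, nat_lit 4, nat_lit 0x47⟩ (t14_7951) (.nil)))))
def t14_143 : Tr := .node ⟨nat_lit 8, nat_lit 0x400080002000c0, nat_lit 0x10121101, nat_lit 1, nat_lit 4, nat_lit 0x4a⟩ (.nil) (.nil)
def t14_8335 : Tr := .node ⟨nat_lit 6, nat_lit 0x800300038, nat_lit 0x202, nat_lit 0, nat_lit 4, nat_lit 0x44⟩ (.nil) (.nil)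
def t14_4239 : Tr := .node ⟨nat_lit 5, nat_lit 0x1000080014, nat_lit 0x20210, nat_lit 3, nat_lit 4, nat_lit 0x47⟩ (.nil) (.nil)
def t14_12431 : Tr := .node ⟨nat_lit 7, nat_lit 0x40001000680068, nat_lit 0x11010, nat_lit 0, nat_lit 4, nat_lit 0x45⟩ (.nil) (.nil)
def t14_2191 : Tr := .node ⟨nat_lit 8, nat_lit 0x2000400080008000c8, nat_lit 0x2000220, nat_lit 1, nat_lit 4, nat_lit 0x49⟩ (.nil) (.nil)
def t14_10383 : Tr := .node ⟨nat_lit 7, nat_lit 0x400020002000500050, nat_lit 0x20020, nat_lit 2, nat_lit 4, nat_lit 0x47⟩ (.nil) (.nil)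
def t14_6287 : Tr := .node ⟨nat_lit 6, nat_lit 0x2000200030, nat_lit 0x1220, nat_lit 3, nat_lit 4, nat_lit 0x48⟩ (.nil) (.nil)
def t14_14479 : Tr := .node ⟨nat_lit 8, nat_lit 0x800020004000a000c0, nat_lit 0x1112, nat_lit 1, nat_lit 4, nat_lit 0x47⟩ (.nil) (.nil)
def t14_1167 : Tr := .node ⟨nat_lit 7, nat_lit 0x40001000480060, nat_lit 0x12102, nat_lit 0, nat_lit 4, nat_lit 0x47⟩ (.nil) (.nil)
def t14_9359 : Tr := .node ⟨nat_lit 8, nat_lit 0xc000a000300030, nat_lit 0x11001221, nat_lit 0, nat_lit 4, nat_lit 0x47⟩ (.nil) (.nil)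
def t14_5263 : Tr := .node ⟨nat_lit 4, nat_lit 0xc000c, nat_lit 0x2130, nat_lit 7, nat_lit 4, nat_lit 0x47⟩ (.nil) (.nil)
def t14_13455 : Tr := .node ⟨nat_lit 5, nat_lit 0x1000080014, nat_lit 0x1200, nat_lit 8, nat_lit 4, nat_lit 0x47⟩ (.nil) (.nil)
def t14_3215 : Tr := .node ⟨nat_lit 8, nat_lit 0x800080004000400090, nat_lit 0x110110, nat_lit 0, nat_lit 4, nat_lit 0x48⟩ (.nil) (.nil)
def t14_11407 : Tr := .node ⟨nat_lit 5, nat_lit 0x40018, nat_lit 0x22010, nat_lit 2, nat_lit 4, nat_lit 0x47⟩ (.nil) (.nil)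
def t14_7311 : Tr := .node ⟨nat_lit 6, nat_lit 0x200020, nat_lit 0x120020, nat_lit 0, nat_lit 3, nat_lit 0x48⟩ (.nil) (.nil)
def t14_15503 : Tr := .node ⟨nat_lit 7, nat_lit 0x40003000500060, nat_lit 0x111310, nat_lit 0, nat_lit 3, nat_lit 0x45⟩ (.nil) (.nil)
def t14_655 : Tr := .node ⟨nat_lit 7, nat_lit 0x40004000200060, nat_lit 0x113022, nat_lit 0, nat_lit 4, nat_lit 0x49⟩ (.nil) (.nil)
def t14_8847 : Tr := .node ⟨nat_lit 5, nat_lit 0x100018, nat_lit 0x130, nat_lit 5, nat_lit 4, nat_lit 0x47⟩ (.nil) (.nil)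
def t14_4751 : Tr := .node ⟨nat_lit 5, nat_lit 0x100018001c, nat_lit 0x1231, nat_lit 6, nat_lit 4, nat_lit 0x46⟩ (.nil) (.nil)
def t14_12943 : Tr := .node ⟨nat_lit 7, nat_lit 0x40001000680058, nat_lit 0x1000020, nat_lit 1, nat_lit 4, nat_lit 0x45⟩ (.nil) (.nil)
def t14_2703 : Tr := .node ⟨nat_lit 7, nat_lit 0x1000600060, nat_lit 0x1010031, nat_lit 0, nat_lit 4, nat_lit 0x48⟩ (.nil) (.nil)
def t14_10895 : Tr := .node ⟨nat_lit 7, nat_lit 0x10005000300060, nat_lit 0x2023, nat_lit 0, nat_lit 4, nat_lit 0x46⟩ (.nil) (.nil)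
def t14_6799 : Tr := .node ⟨nat_lit 6, nat_lit 0x30, nat_lit 0x201110, nat_lit 3, nat_lit 4, nat_lit 0x4a⟩ (.nil) (.nil)
def t14_14991 : Tr := .node ⟨nat_lit 7, nat_lit 0x20004000400040, nat_lit 0x1111111, nat_lit 0, nat_lit 3, nat_lit 0x48⟩ (.nil) (.nil)
def t14_1679 : Tr := .node ⟨nat_lit 7, nat_lit 0x4000200060, nat_lit 0x10212, nat_lit 0, nat_lit 4, nat_lit 0x48⟩ (.nil) (.nil)
def t14_9871 : Tr := .node ⟨nat_lit 7, nat_lit 0x40002000200020, nat_lit 0x20220, nat_lit 5, nat_lit 4, nat_lit 0x4a⟩ (.nil) (.nil)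
def t14_5775 : Tr := .node ⟨nat_lit 6, nat_lit 0x2000200020, nat_lit 0x11220, nat_lit 8, nat_lit 4, nat_lit 0x4a⟩ (.nil) (.nil)
def t14_13967 : Tr := .node ⟨nat_lit 6, nat_lit 0x2000100010, nat_lit 0x1210, nat_lit 5, nat_lit 4, nat_lit 0x48⟩ (.nil) (.nil)
def t14_3727 : Tr := .node ⟨nat_lit 8, nat_lit 0x800040004000400090, nat_lit 0x20112100, nat_lit 0, nat_lit 4, nat_lit 0x4a⟩ (.nil) (.nil)
def t14_11919 : Tr := .node ⟨nat_lit 6, nat_lit 0x2000200010, nat_lit 0x1303, nat_lit 1, nat_lit 4, nat_lit 0x48⟩ (.nil) (.nil)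
def t14_7823 : Tr := .node ⟨nat_lit 8, nat_lit 0x400080002000200088, nat_lit 0x2103, nat_lit 1, nat_lit 4, nat_lit 0x48⟩ (.nil) (.nil)
def t9_143 : Tr := .node ⟨nat_lit 6, nat_lit 0x1000200034, nat_lit 0x132111, nat_lit 0, nat_lit 4, nat_lit 0x49⟩ (.node ⟨nat_lit 4, nat_lit 0xc, nat_lit 0x1111, nat_lit 2, nat_lit 3, nat_lit 0x45⟩ (.node ⟨nat_lit 6, nat_lit 0x1000280034, nat_lit 0x30010, nat_lit 1, nat_lit 4, nat_lit 0x46⟩ (.node ⟨nat_lit 7, nat_lit 0x60, nat_lit 0x1021111, nat_lit 0, nat_lit 4, nat_lit 0x4b⟩ (.node ⟨nat_lit 7, nat_lit 0x40002000500064, nat_lit 0x202201, nat_lit 2, nat_lit 4, nat_lit 0x48⟩ (t14_143) (t14_8335)) (.node ⟨nat_lit 7, nat_lit 0x40001000600070, nat_lit 0x11023, nat_lit 1, nat_lit 4, nat_lit 0x46⟩ (t14_4239) (t14_12431))) (.node ⟨nat_lit 7, nat_lit 0x4000400060, nat_lit 0x121101, nat_lit 0, nat_lit 4, nat_lit 0x49⟩ (.node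 ⟨nat_lit 6, nat_lit 0x1000280034, nat_lit 0x11202, nat_lit 1, nat_lit 4, nat_lit 0x46⟩ (t14_2191) (t14_10383)) (.node ⟨nat_lit 5, nat_lit 0x10, nat_lit 0x22110, nat_lit 7, nat_lit 3, nat_lit 0x49⟩ (t14_6287) (t14_14479)))) (.node ⟨nat_lit 4, nat_lit 0, nat_lit 0x2211, nat_lit 8, nat_lit 4, nat_lit 0x4a⟩ (.node ⟨nat_lit 6, nat_lit 0x80030, nat_lit 0x211111, nat_lit 5, nat_lit 4, nat_lit 0x4a⟩ (.node ⟨nat_lit 4, nat_lit 0xc, nat_lit 0x4111, nat_lit 1, nat_lit 3, nat_lit 0x47⟩ (t14_1167) (t14_9359)) (.node ⟨nat_lit 8, nat_lit 0x4000800020002000c0, nat_lit 0x11022101, nat_lit 0, nat_lit 4, nat_lit 0x49⟩ (t14_5263) (t14_13455))) (.node ⟨nat_lit 6, nat_lit 0x100020, nat_lit 0x112100, nat_lit 1, nat_lit 4, nat_lit 0x49⟩ (.node ⟨nat_lit 7, nat_lit 0x40002000480060, nat_lit 0x1013120, nat_lit 0, nat_lit 4, nat_lit 0x49⟩ (t14_3215) (t14_11407)) (.node ⟨nat_lit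 6, nat_lit 0x300028, nat_lit 0x200110, nat_lit 2, nat_lit 4, nat_lit 0x47⟩ (t14_7311) (t14_15503))))) (.node ⟨nat_lit 5, nat_lit 0x80010, nat_lit 0x13220, nat_lit 3, nat_lit 4, nat_lit 0x4a⟩ (.node ⟨nat_lit 5, nat_lit 0x100008, nat_lit 0x2113, nat_lit 1, nat_lit 4, nat_lit 0x48⟩ (.node ⟨nat_lit 4, nat_lit 0x8000c, nat_lit 0x2131, nat_lit 2, nat_lit 3, nat_lit 0x46⟩ (.node ⟨nat_lit 7, nat_lit 0x40001000600060, nat_lit 0x121021, nat_lit 1, nat_lit 4, nat_lit 0x48⟩ (t14_655) (t14_8847)) (.node ⟨nat_lit 5, nat_lit 0x140018, nat_lit 0x12101, nat_lit 2, nat_lit 3, nat_lit 0x46⟩ (t14_4751) (t14_12943))) (.node ⟨nat_lit 6, nat_lit 0x800200032, nat_lit 0x120012, nat_lit 2, nat_lit 4, nat_lit 0x47⟩ (.node ⟨nat_lit 6, nat_lit 0x20002000100010, nat_lit 0x13030, nat_lit 2, nat_lit 4, nat_lit 0x48⟩ (t14_2703) (t14_10895)) (.node ⟨nat_lit 7, nat_lit 0x400020002000500060,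 nat_lit 0x11130, nat_lit 0, nat_lit 4, nat_lit 0x46⟩ (t14_6799) (t14_14991)))) (.node ⟨nat_lit 5, nat_lit 0x18, nat_lit 0x22111, nat_lit 2, nat_lit 3, nat_lit 0x48⟩ (.node ⟨nat_lit 6, nat_lit 0xc0030, nat_lit 0x112012, nat_lit 2, nat_lit 4, nat_lit 0x48⟩ (.node ⟨nat_lit 6, nat_lit 0x300028, nat_lit 0x11114, nat_lit 0, nat_lit 4, nat_lit 0x47⟩ (t14_1679) (t14_9871)) (.node ⟨nat_lit 7, nat_lit 0x4000400060, nat_lit 0x221002, nat_lit 1, nat_lit 4, nat_lit 0x4a⟩ (t14_5775) (t14_13967))) (.node ⟨nat_lit 6, nat_lit 0x20001000280038, nat_lit 0x200221, nat_lit 2, nat_lit 4, nat_lit 0x46⟩ (.node ⟨nat_lit 4, nat_lit 0x8000c, nat_lit 0x1030, nat_lit 5, nat_lit 3, nat_lit 0x45⟩ (t14_3727) (t14_11919)) (.node ⟨nat_lit 6, nat_lit 0x20001000100030, nat_lit 0x10221, nat_lit 3, nat_lit 3, nat_lit 0x46⟩ (t14_7823) (.nil)))))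
def t14_399 : Tr := .node ⟨nat_lit 8, nat_lit 0x8000400040, nat_lit 0x1211011, nat_lit 2, nat_lit 4, nat_lit 0x4c⟩ (.nil) (.nil)
def t14_8591 : Tr := .node ⟨nat_lit 7, nat_lit 0x400020002000500068, nat_lit 0x11010, nat_lit 4, nat_lit 4, nat_lit 0x46⟩ (.nil) (.nil)
def t14_4495 : Tr := .node ⟨nat_lit 8, nat_lit 0x40001000200080, nat_lit 0x10110011, nat_lit 6, nat_lit 4, nat_lit 0x4b⟩ (.nil) (.nil)
def t14_12687 : Tr := .node ⟨nat_lit 4, nat_lit 0x8000c, nat_lit 0x1020, nat_lit 7, nat_lit 4, nat_lit 0x46⟩ (.nil) (.nil)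
def t14_2447 : Tr := .node ⟨nat_lit 5, nat_lit 0x180018, nat_lit 0x11220, nat_lit 5, nat_lit 4, nat_lit 0x48⟩ (.nil) (.nil)
def t14_10639 : Tr := .node ⟨nat_lit 7, nat_lit 0x40005000300068, nat_lit 0x1120, nat_lit 1, nat_lit 4, nat_lit 0x45⟩ (.nil) (.nil)
def t14_6543 : Tr := .node ⟨nat_lit 5, nat_lit 0x100012, nat_lit 0x11102, nat_lit 4, nat_lit 4, nat_lit 0x47⟩ (.nil) (.nil)
def t14_14735 : Tr := .node ⟨nat_lit 8, nat_lit 0x8000900060006000c0, nat_lit 0x10020112, nat_lit 0, nat_lit 4, nat_lit 0x47⟩ (.nil) (.nil)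
def t14_1423 : Tr := .node ⟨nat_lit 7, nat_lit 0x10002000500060, nat_lit 0x11140, nat_lit 0, nat_lit 4, nat_lit 0x47⟩ (.nil) (.nil)
def t14_9615 : Tr := .node ⟨nat_lit 8, nat_lit 0x200080004000c400c4, nat_lit 0x2120, nat_lit 1, nat_lit 4, nat_lit 0x46⟩ (.nil) (.nil)
def t14_5519 : Tr := .node ⟨nat_lit 7, nat_lit 0x400060, nat_lit 0x11103, nat_lit 0, nat_lit 4, nat_lit 0x49⟩ (.nil) (.nil)
def t14_13711 : Tr := .node ⟨nat_lit 8, nat_lit 0x800080004000a000a000e0, nat_lit 0x2110, nat_lit 1, nat_lit 4, nat_lit 0x46⟩ (.nil) (.nil)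
def t14_3471 : Tr := .node ⟨nat_lit 7, nat_lit 0x20005000680068, nat_lit 0x110210, nat_lit 0, nat_lit 4, nat_lit 0x45⟩ (.nil) (.nil)
def t14_11663 : Tr := .node ⟨nat_lit 8, nat_lit 0x800040004000a000d000d0, nat_lit 0x1301010, nat_lit 0, nat_lit 4, nat_lit 0x47⟩ (.nil) (.nil)
def t14_7567 : Tr := .node ⟨nat_lit 6, nat_lit 0x20001000100030, nat_lit 0x2203, nat_lit 4, nat_lit 4, nat_lit 0x47⟩ (.nil) (.nil)
def t14_911 : Tr := .node ⟨nat_lit 8, nat_lit 0x20002000c000a0, nat_lit 0x10012112, nat_lit 0, nat_lit 4, nat_lit 0x49⟩ (.nil) (.nil)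
def t14_9103 : Tr := .node ⟨nat_lit 9, nat_lit 0x100010001000080011001200140, nat_lit 0x10110010, nat_lit 5, nat_lit 4, nat_lit 0x49⟩ (.nil) (.nil)
def t14_5007 : Tr := .node ⟨nat_lit 5, nat_lit 0x80010, nat_lit 0x110, nat_lit 4, nat_lit 4, nat_lit 0x46⟩ (.nil) (.nil)
def t14_13199 : Tr := .node ⟨nat_lit 8, nat_lit 0x8000400040009000c8, nat_lit 0x221000, nat_lit 0, nat_lit 4, nat_lit 0x48⟩ (.nil) (.nil)
def t14_2959 : Tr := .node ⟨nat_lit 6, nat_lit 0x800100020, nat_lit 0x10000, nat_lit 2, nat_lit 4, nat_lit 0x46⟩ (.nil) (.nil)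
def t14_11151 : Tr := .node ⟨nat_lit 4, nat_lit 0xc, nat_lit 0x1010, nat_lit 6, nat_lit 4, nat_lit 0x46⟩ (.nil) (.nil)
def t14_7055 : Tr := .node ⟨nat_lit 6, nat_lit 0x280030, nat_lit 0x111111, nat_lit 2, nat_lit 4, nat_lit 0x48⟩ (.nil) (.nil)
def t14_15247 : Tr := .node ⟨nat_lit 8, nat_lit 0x400080008000c800d0, nat_lit 0x121001, nat_lit 0, nat_lit 4, nat_lit 0x47⟩ (.nil) (.nil)
def t14_1935 : Tr := .node ⟨nat_lit 5, nat_lit 0x40018, nat_lit 0x211, nat_lit 2, nat_lit 4, nat_lit 0x46⟩ (.nil) (.nil)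
def t14_10127 : Tr := .node ⟨nat_lit 7, nat_lit 0x10004000400060, nat_lit 0x101, nat_lit 0, nat_lit 4, nat_lit 0x46⟩ (.nil) (.nil)
def t14_6031 : Tr := .node ⟨nat_lit 6, nat_lit 0x30, nat_lit 0x112110, nat_lit 2, nat_lit 4, nat_lit 0x4a⟩ (.nil) (.nil)
def t14_14223 : Tr := .node ⟨nat_lit 7, nat_lit 0x10004000600064, nat_lit 0x1001020, nat_lit 0, nat_lit 4, nat_lit 0x46⟩ (.nil) (.nil)
def t14_3983 : Tr := .node ⟨nat_lit 7, nat_lit 0x40001000100060, nat_lit 0x1101200, nat_lit 1, nat_lit 4, nat_lit 0x48⟩ (.nil) (.nil)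
def t14_12175 : Tr := .node ⟨nat_lit 9, nat_lit 0x8001000100014001900190, nat_lit 0x111020, nat_lit 1, nat_lit 4, nat_lit 0x47⟩ (.nil) (.nil)
def t14_8079 : Tr := .node ⟨nat_lit 7, nat_lit 0x40004000200048, nat_lit 0x111103, nat_lit 0, nat_lit 4, nat_lit 0x48⟩ (.nil) (.nil)
def t9_399 : Tr := .node ⟨nat_lit 2, nat_lit 2, nat_lit 0x32, nat_lit 5, nat_lit 3, nat_lit 0x45⟩ (.node ⟨nat_lit 6, nat_lit 0x1000200020, nat_lit 0x113110, nat_lit 1, nat_lit 4, nat_lit 0x49⟩ (.node ⟨nat_lit 6, nat_lit 0x300028, nat_lit 0x2202, nat_lit 3, nat_lit 4, nat_lit 0x48⟩ (.node ⟨nat_lit 6, nat_lit 0x1800280030, nat_lit 0x110212, nat_lit 2, nat_lit 4, nat_lit 0x46⟩ (.node ⟨nat_lit 6, nat_lit 0x2800280030, nat_lit 0x20211, nat_lit 3, nat_lit 4, nat_lit 0x46⟩ (t14_399) (t14_8591)) (.node ⟨nat_lit 5, nat_lit 0x140018, nat_lit 0x21121, nat_lit 2, nat_lit 3, nat_lit 0x46⟩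 (t14_4495) (t14_12687))) (.node ⟨nat_lit 6, nat_lit 0x2000200010, nat_lit 0x22001, nat_lit 0, nat_lit 4, nat_lit 0x48⟩ (.node ⟨nat_lit 6, nat_lit 0x2000280034, nat_lit 0x11111, nat_lit 2, nat_lit 4, nat_lit 0x46⟩ (t14_2447) (t14_10639)) (.node ⟨nat_lit 6, nat_lit 0x2000100024, nat_lit 0x12310, nat_lit 0, nat_lit 4, nat_lit 0x48⟩ (t14_6543) (t14_14735)))) (.node ⟨nat_lit 4, nat_lit 0, nat_lit 0x2100, nat_lit 0, nat_lit 4, nat_lit 0x45⟩ (.node ⟨nat_lit 6, nat_lit 0x800300030, nat_lit 0x112121, nat_lit 1, nat_lit 4, nat_lit 0x48⟩ (.node ⟨nat_lit 5, nat_lit 0x18, nat_lit 0x10110, nat_lit 3, nat_lit 4, nat_lit 0x47⟩ (t14_1423) (t14_9615)) (.node ⟨nat_lit 7, nat_lit 0x2000200040, nat_lit 0x121210, nat_lit 4, nat_lit 4, nat_lit 0x4b⟩ (t14_5519) (t14_13711))) (.node ⟨nat_lit 6, nat_lit 0x10002000200020, nat_lit 0x11210, nat_lit 5, nat_lit 4, nat_lit 0x48⟩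 (.node ⟨nat_lit 7, nat_lit 0x6000600050, nat_lit 0x121003, nat_lit 0, nat_lit 4, nat_lit 0x48⟩ (t14_3471) (t14_11663)) (.node ⟨nat_lit 7, nat_lit 0x40002000480060, nat_lit 0x1112111, nat_lit 1, nat_lit 4, nat_lit 0x49⟩ (t14_7567) (.nil))))) (.node ⟨nat_lit 6, nat_lit 0x300030, nat_lit 0x103121, nat_lit 4, nat_lit 4, nat_lit 0x49⟩ (.node ⟨nat_lit 4, nat_lit 8, nat_lit 0x2211, nat_lit 4, nat_lit 4, nat_lit 0x48⟩ (.node ⟨nat_lit 6, nat_lit 0x20, nat_lit 0x111112, nat_lit 0, nat_lit 4, nat_lit 0x4a⟩ (.node ⟨nat_lit 6, nat_lit 0x20, nat_lit 0x211110, nat_lit 7, nat_lit 4, nat_lit 0x4c⟩ (t14_911) (t14_9103)) (.node ⟨nat_lit 5, nat_lit 0x40018, nat_lit 0x21102, nat_lit 9, nat_lit 4, nat_lit 0x49⟩ (t14_5007) (t14_13199))) (.node ⟨nat_lit 7, nat_lit 0x40002000200064, nat_lit 0x110120, nat_lit 0, nat_lit 4, nat_lit 0x48⟩ (.node ⟨nat_lit 8, nat_lit 0x80008000800040004400a0,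 nat_lit 0x1111201, nat_lit 0, nat_lit 4, nat_lit 0x48⟩ (t14_2959) (t14_11151)) (.node ⟨nat_lit 6, nat_lit 0x280030, nat_lit 0x111122, nat_lit 5, nat_lit 4, nat_lit 0x49⟩ (t14_7055) (t14_15247)))) (.node ⟨nat_lit 5, nat_lit 0x1000100008, nat_lit 0x2101, nat_lit 5, nat_lit 4, nat_lit 0x47⟩ (.node ⟨nat_lit 6, nat_lit 0x80030, nat_lit 0x212111, nat_lit 2, nat_lit 4, nat_lit 0x4a⟩ (.node ⟨nat_lit 6, nat_lit 0x10001000200020, nat_lit 0x112031, nat_lit 0, nat_lit 3, nat_lit 0x47⟩ (t14_1935) (t14_10127)) (.node ⟨nat_lit 6, nat_lit 0x300030, nat_lit 0x202220, nat_lit 0, nat_lit 4, nat_lit 0x49⟩ (t14_6031) (t14_14223))) (.node ⟨nat_lit 7, nat_lit 0x40001000480060, nat_lit 0x12120, nat_lit 0, nat_lit 4, nat_lit 0x47⟩ (.node ⟨nat_lit 7, nat_lit 0x40005000680070, nat_lit 0x1100103, nat_lit 2, nat_lit 4, nat_lit 0x46⟩ (t14_3983) (t14_12175)) (.node ⟨nat_lit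 7, nat_lit 0x400020005000700068, nat_lit 0x1013011, nat_lit 1, nat_lit 4, nat_lit 0x46⟩ (t14_8079) (.nil)))))
def t14_79 : Tr := .node ⟨nat_lit 7, nat_lit 0x40004000200060, nat_lit 0x122111, nat_lit 1, nat_lit 4, nat_lit 0x49⟩ (.nil) (.nil)
def t14_8271 : Tr := .node ⟨nat_lit 6, nat_lit 0x2000300034, nat_lit 0x1203, nat_lit 6, nat_lit 4, nat_lit 0x47⟩ (.nil) (.nil)
def t14_4175 : Tr := .node ⟨nat_lit 9, nat_lit 0x10001000100008001100120, nat_lit 0x11110100, nat_lit 3, nat_lit 4, nat_lit 0x4a⟩ (.nil) (.nil)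
def t14_12367 : Tr := .node ⟨nat_lit 8, nat_lit 0x80004000c000a000d0, nat_lit 0x23011, nat_lit 0, nat_lit 4, nat_lit 0x47⟩ (.nil) (.nil)
def t14_2127 : Tr := .node ⟨nat_lit 7, nat_lit 0x40002000480060, nat_lit 0x112022, nat_lit 1, nat_lit 4, nat_lit 0x48⟩ (.nil) (.nil)
def t14_10319 : Tr := .node ⟨nat_lit 4, nat_lit 0xc000c, nat_lit 0x1022, nat_lit 0xa, nat_lit 4, nat_lit 0x46⟩ (.nil) (.nil)
def t14_6223 : Tr := .node ⟨nat_lit 5, nat_lit 0x100010, nat_lit 0x1120, nat_lit 6, nat_lit 4, nat_lit 0x48⟩ (.nil) (.nil)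
def t14_14415 : Tr := .node ⟨nat_lit 9, nat_lit 0x100004000400180, nat_lit 0x102100, nat_lit 0, nat_lit 4, nat_lit 0x4a⟩ (.nil) (.nil)
def t14_1103 : Tr := .node ⟨nat_lit 7, nat_lit 0x4000180064, nat_lit 0x1100120, nat_lit 1, nat_lit 4, nat_lit 0x47⟩ (.nil) (.nil)
def t14_9295 : Tr := .node ⟨nat_lit 8, nat_lit 0x800040005000a000a000d0, nat_lit 0x110101, nat_lit 0, nat_lit 4, nat_lit 0x45⟩ (.nil) (.nil)
def t14_5199 : Tr := .node ⟨nat_lit 8, nat_lit 0x2000800080008800c0, nat_lit 0x1002111, nat_lit 3, nat_lit 4, nat_lit 0x49⟩ (.nil) (.nil)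
def t14_13391 : Tr := .node ⟨nat_lit 7, nat_lit 0x10004000400060, nat_lit 0x1000002, nat_lit 0, nat_lit 3, nat_lit 0x46⟩ (.nil) (.nil)
def t14_3151 : Tr := .node ⟨nat_lit 6, nat_lit 0x1000280030, nat_lit 0x110011, nat_lit 1, nat_lit 4, nat_lit 0x46⟩ (.nil) (.nil)
def t14_11343 : Tr := .node ⟨nat_lit 5, nat_lit 0x1000100018, nat_lit 0x1110, nat_lit 5, nat_lit 3, nat_lit 0x45⟩ (.nil) (.nil)
def t14_7247 : Tr := .node ⟨nat_lit 6, nat_lit 0x1800280030, nat_lit 0x12210, nat_lit 3, nat_lit 4, nat_lit 0x47⟩ (.nil) (.nil)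
def t14_15439 : Tr := .node ⟨nat_lit 7, nat_lit 0x400020002000500070, nat_lit 0x1111112, nat_lit 0, nat_lit 4, nat_lit 0x47⟩ (.nil) (.nil)
def t14_591 : Tr := .node ⟨nat_lit 5, nat_lit 0x1000100018, nat_lit 0x202, nat_lit 5, nat_lit 4, nat_lit 0x46⟩ (.nil) (.nil)
def t14_8783 : Tr := .node ⟨nat_lit 5, nat_lit 0x1000080018, nat_lit 0x11311, nat_lit 5, nat_lit 3, nat_lit 0x46⟩ (.nil) (.nil)
def t14_4687 : Tr := .node ⟨nat_lit 7, nat_lit 0x40004000100060, nat_lit 0x111002, nat_lit 2, nat_lit 4, nat_lit 0x48⟩ (.nil) (.nil)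
def t14_12879 : Tr := .node ⟨nat_lit 7, nat_lit 0x2000400060, nat_lit 0x21300, nat_lit 0, nat_lit 4, nat_lit 0x49⟩ (.nil) (.nil)
def t14_2639 : Tr := .node ⟨nat_lit 6, nat_lit 0x1000200030, nat_lit 0x230, nat_lit 1, nat_lit 4, nat_lit 0x47⟩ (.nil) (.nil)
def t14_10831 : Tr := .node ⟨nat_lit 7, nat_lit 0x800500060, nat_lit 0x2110022, nat_lit 1, nat_lit 4, nat_lit 0x49⟩ (.nil) (.nil)
def t14_6735 : Tr := .node ⟨nat_lit 6, nat_lit 0x80030, nat_lit 0x201110, nat_lit 3, nat_lit 4, nat_lit 0x49⟩ (.nil) (.nil)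
def t14_14927 : Tr := .node ⟨nat_lit 8, nat_lit 0x8000400090009000d0, nat_lit 0x10110112, nat_lit 0, nat_lit 4, nat_lit 0x48⟩ (.nil) (.nil)
def t14_1615 : Tr := .node ⟨nat_lit 7, nat_lit 0x20004000440030, nat_lit 0x10111, nat_lit 1, nat_lit 4, nat_lit 0x46⟩ (.nil) (.nil)
def t14_9807 : Tr := .node ⟨nat_lit 7, nat_lit 0x40004000200060, nat_lit 0x11002, nat_lit 0, nat_lit 3, nat_lit 0x46⟩ (.nil) (.nil)
def t14_5711 : Tr := .node ⟨nat_lit 7, nat_lit 0x400020005000500060, nat_lit 0x1012102, nat_lit 1, nat_lit 4, nat_lit 0x47⟩ (.nil) (.nil)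
def t14_13903 : Tr := .node ⟨nat_lit 7, nat_lit 0x40001000480060, nat_lit 0x13300, nat_lit 0, nat_lit 4, nat_lit 0x48⟩ (.nil) (.nil)
def t14_3663 : Tr := .node ⟨nat_lit 8, nat_lit 0x80002000c000a0, nat_lit 0x1020021, nat_lit 2, nat_lit 4, nat_lit 0x49⟩ (.nil) (.nil)
def t14_11855 : Tr := .node ⟨nat_lit 6, nat_lit 0x80030, nat_lit 0x130, nat_lit 1, nat_lit 4, nat_lit 0x47⟩ (.nil) (.nil)
def t14_7759 : Tr := .node ⟨nat_lit 7, nat_lit 0x40001000480060, nat_lit 0x112002, nat_lit 3, nat_lit 4, nat_lit 0x48⟩ (.nil) (.nil)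
def t9_79 : Tr := .node ⟨nat_lit 2, nat_lit 2, nat_lit 0x12, nat_lit 5, nat_lit 3, nat_lit 0x43⟩ (.node ⟨nat_lit 6, nat_lit 0x200022, nat_lit 0x232200, nat_lit 1, nat_lit 4, nat_lit 0x4b⟩ (.node ⟨nat_lit 6, nat_lit 0x2000200030, nat_lit 0x13202, nat_lit 0, nat_lit 3, nat_lit 0x47⟩ (.node ⟨nat_lit 6, nat_lit 0x2000100024, nat_lit 0x112000, nat_lit 1, nat_lit 4, nat_lit 0x47⟩ (.node ⟨nat_lit 7, nat_lit 0x4000400020, nat_lit 0x211103, nat_lit 3, nat_lit 4, nat_lit 0x4b⟩ (t14_79) (t14_8271)) (.node ⟨nat_lit 6, nat_lit 0x800300028, nat_lit 0x100004, nat_lit 4, nat_lit 4, nat_lit 0x47⟩ (t14_4175) (t14_12367))) (.node ⟨nat_lit 6, nat_lit 0x1000200030, nat_lit 0x121212, nat_lit 0, nat_lit 4, nat_lit 0x49⟩ (.node ⟨nat_lit 3, nat_lit 4, nat_lit 0x34, nat_lit 3, nat_lit 3, nat_lit 0x45⟩ (t14_2127) (t14_10319)) (.node ⟨nat_lit 7, nat_lit 0x200040003000480070,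 nat_lit 0x122011, nat_lit 0, nat_lit 4, nat_lit 0x46⟩ (t14_6223) (t14_14415)))) (.node ⟨nat_lit 4, nat_lit 0xc, nat_lit 0x2023, nat_lit 5, nat_lit 4, nat_lit 0x47⟩ (.node ⟨nat_lit 5, nat_lit 0x18, nat_lit 0x21201, nat_lit 0, nat_lit 4, nat_lit 0x48⟩ (.node ⟨nat_lit 6, nat_lit 0x10001000100020, nat_lit 0x101113, nat_lit 2, nat_lit 4, nat_lit 0x48⟩ (t14_1103) (t14_9295)) (.node ⟨nat_lit 6, nat_lit 0x2000080030, nat_lit 0x10221, nat_lit 0, nat_lit 4, nat_lit 0x46⟩ (t14_5199) (t14_13391))) (.node ⟨nat_lit 7, nat_lit 0x4000100060, nat_lit 0x1012011, nat_lit 0, nat_lit 4, nat_lit 0x49⟩ (.node ⟨nat_lit 6, nat_lit 0x2000200034, nat_lit 0x12000, nat_lit 3, nat_lit 4, nat_lit 0x47⟩ (t14_3151) (t14_11343)) (.node ⟨nat_lit 6, nat_lit 0x8000c0030, nat_lit 0x111120, nat_lit 1, nat_lit 4, nat_lit 0x47⟩ (t14_7247) (t14_15439))))) (.node ⟨nat_lit 2, nat_lit 2,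 nat_lit 0x32, nat_lit 0xb, nat_lit 4, nat_lit 0x47⟩ (.node ⟨nat_lit 5, nat_lit 0x1000080014, nat_lit 0x12120, nat_lit 2, nat_lit 4, nat_lit 0x47⟩ (.node ⟨nat_lit 6, nat_lit 0x10001000200030, nat_lit 0x102021, nat_lit 2, nat_lit 4, nat_lit 0x47⟩ (.node ⟨nat_lit 5, nat_lit 0x800080010, nat_lit 0x12201, nat_lit 7, nat_lit 4, nat_lit 0x49⟩ (t14_591) (t14_8783)) (.node ⟨nat_lit 6, nat_lit 0x2000080030, nat_lit 0x111022, nat_lit 2, nat_lit 4, nat_lit 0x48⟩ (t14_4687) (t14_12879))) (.node ⟨nat_lit 6, nat_lit 0x80030, nat_lit 0x101002, nat_lit 1, nat_lit 4, nat_lit 0x47⟩ (.node ⟨nat_lit 5, nat_lit 0x18001c, nat_lit 0x11223, nat_lit 3, nat_lit 4, nat_lit 0x47⟩ (t14_2639) (t14_10831)) (.node ⟨nat_lit 8, nat_lit 0x800080004000900088, nat_lit 0x11121110, nat_lit 0, nat_lit 4, nat_lit 0x4a⟩ (t14_6735) (t14_14927)))) (.node ⟨nat_lit 6, nat_lit 0x2000080030,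 nat_lit 0x112110, nat_lit 1, nat_lit 4, nat_lit 0x48⟩ (.node ⟨nat_lit 5, nat_lit 0x80010, nat_lit 0x12310, nat_lit 2, nat_lit 4, nat_lit 0x49⟩ (.node ⟨nat_lit 5, nat_lit 0x100018, nat_lit 0x201, nat_lit 2, nat_lit 4, nat_lit 0x45⟩ (t14_1615) (t14_9807)) (.node ⟨nat_lit 6, nat_lit 0x200030, nat_lit 0x112211, nat_lit 3, nat_lit 4, nat_lit 0x4a⟩ (t14_5711) (t14_13903))) (.node ⟨nat_lit 6, nat_lit 0x80030, nat_lit 0x200102, nat_lit 6, nat_lit 4, nat_lit 0x49⟩ (.node ⟨nat_lit 6, nat_lit 0x800300038, nat_lit 0x101203, nat_lit 1, nat_lit 4, nat_lit 0x46⟩ (t14_3663) (t14_11855)) (.node ⟨nat_lit 7, nat_lit 0x800500060, nat_lit 0x111022, nat_lit 1, nat_lit 4, nat_lit 0x48⟩ (t14_7759) (.nil)))))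
def t14_335 : Tr := .node ⟨nat_lit 6, nat_lit 0x10002000300030, nat_lit 0x12211, nat_lit 3, nat_lit 4, nat_lit 0x47⟩ (.nil) (.nil)
def t14_8527 : Tr := .node ⟨nat_lit 3, nat_lit 0x40006, nat_lit 0x114, nat_lit 9, nat_lit 4, nat_lit 0x46⟩ (.nil) (.nil)
def t14_4431 : Tr := .node ⟨nat_lit 8, nat_lit 0x8000800040009000d0, nat_lit 0x11110102, nat_lit 0, nat_lit 4, nat_lit 0x49⟩ (.nil) (.nil)
def t14_12623 : Tr := .node ⟨nat_lit 8, nat_lit 0x2000c000a00090, nat_lit 0x102130, nat_lit 0, nat_lit 4, nat_lit 0x48⟩ (.nil) (.nil)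
def t14_2383 : Tr := .node ⟨nat_lit 6, nat_lit 0x1000200030, nat_lit 0x1220, nat_lit 3, nat_lit 4, nat_lit 0x47⟩ (.nil) (.nil)
def t14_10575 : Tr := .node ⟨nat_lit 6, nat_lit 0x20001000300038, nat_lit 0x1100, nat_lit 4, nat_lit 4, nat_lit 0x45⟩ (.nil) (.nil)
def t14_6479 : Tr := .node ⟨nat_lit 4, nat_lit 0x8000c, nat_lit 0x1110, nat_lit 7, nat_lit 4, nat_lit 0x46⟩ (.nil) (.nil)
def t14_14671 : Tr := .node ⟨nat_lit 9, nat_lit 0x100010000800140019001a0, nat_lit 0x112011, nat_lit 0, nat_lit 4, nat_lit 0x47⟩ (.nil) (.nil)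
def t14_1359 : Tr := .node ⟨nat_lit 7, nat_lit 0x200020004000700070, nat_lit 0x111310, nat_lit 2, nat_lit 4, nat_lit 0x47⟩ (.nil) (.nil)
def t14_9551 : Tr := .node ⟨nat_lit 6, nat_lit 0x20002000300038, nat_lit 0x12021, nat_lit 5, nat_lit 4, nat_lit 0x47⟩ (.nil) (.nil)
def t14_5455 : Tr := .node ⟨nat_lit 6, nat_lit 0x800200030, nat_lit 0x20320, nat_lit 0, nat_lit 4, nat_lit 0x47⟩ (.nil) (.nil)
def t14_13647 : Tr := .node ⟨nat_lit 7, nat_lit 0x4000600018, nat_lit 0x112, nat_lit 0, nat_lit 4, nat_lit 0x46⟩ (.nil) (.nil)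
def t14_3407 : Tr := .node ⟨nat_lit 7, nat_lit 0x4000600064, nat_lit 0x20110, nat_lit 0, nat_lit 4, nat_lit 0x47⟩ (.nil) (.nil)
def t14_11599 : Tr := .node ⟨nat_lit 7, nat_lit 0x6000600070, nat_lit 0x11301, nat_lit 1, nat_lit 4, nat_lit 0x47⟩ (.nil) (.nil)
def t14_7503 : Tr := .node ⟨nat_lit 8, nat_lit 0x80008000800040009000e0, nat_lit 0x1110111, nat_lit 3, nat_lit 4, nat_lit 0x48⟩ (.nil) (.nil)
def t14_847 : Tr := .node ⟨nat_lit 8, nat_lit 0x40008000200084, nat_lit 0x110212, nat_lit 0, nat_lit 4, nat_lit 0x49⟩ (.nil) (.nil)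
def t14_9039 : Tr := .node ⟨nat_lit 5, nat_lit 0x1000100018, nat_lit 0x2210, nat_lit 7, nat_lit 3, nat_lit 0x46⟩ (.nil) (.nil)
def t14_4943 : Tr := .node ⟨nat_lit 7, nat_lit 0x20004000440030, nat_lit 0x10111, nat_lit 0, nat_lit 4, nat_lit 0x46⟩ (.nil) (.nil)
def t14_13135 : Tr := .node ⟨nat_lit 8, nat_lit 0x2000800040008800c4, nat_lit 0x2200, nat_lit 1, nat_lit 4, nat_lit 0x47⟩ (.nil) (.nil)
def t14_2895 : Tr := .node ⟨nat_lit 7, nat_lit 0x4800500060, nat_lit 0x112201, nat_lit 0, nat_lit 4, nat_lit 0x48⟩ (.nil) (.nil)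
def t14_11087 : Tr := .node ⟨nat_lit 6, nat_lit 0x3000300038, nat_lit 0x1202, nat_lit 3, nat_lit 4, nat_lit 0x45⟩ (.nil) (.nil)
def t14_6991 : Tr := .node ⟨nat_lit 3, nat_lit 0x40004, nat_lit 0x122, nat_lit 9, nat_lit 3, nat_lit 0x45⟩ (.nil) (.nil)
def t14_15183 : Tr := .node ⟨nat_lit 8, nat_lit 0x40008000c000a000c8, nat_lit 0x101211, nat_lit 2, nat_lit 4, nat_lit 0x47⟩ (.nil) (.nil)
def t14_1871 : Tr := .node ⟨nat_lit 5, nat_lit 0x180018, nat_lit 0x221, nat_lit 4, nat_lit 4, nat_lit 0x46⟩ (.nil) (.nil)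
def t14_10063 : Tr := .node ⟨nat_lit 7, nat_lit 0x40001000100060, nat_lit 0x1000002, nat_lit 2, nat_lit 4, nat_lit 0x47⟩ (.nil) (.nil)
def t14_5967 : Tr := .node ⟨nat_lit 8, nat_lit 0x9000a000c0, nat_lit 0x1111211, nat_lit 0, nat_lit 4, nat_lit 0x49⟩ (.nil) (.nil)
def t14_14159 : Tr := .node ⟨nat_lit 6, nat_lit 0x1000100020, nat_lit 0x102210, nat_lit 4, nat_lit 4, nat_lit 0x49⟩ (.nil) (.nil)
def t14_3919 : Tr := .node ⟨nat_lit 6, nat_lit 0x10002000200034, nat_lit 0x102110, nat_lit 4, nat_lit 4, nat_lit 0x47⟩ (.nil) (.nil)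
def t14_12111 : Tr := .node ⟨nat_lit 5, nat_lit 0x100018001c, nat_lit 0x1201, nat_lit 7, nat_lit 4, nat_lit 0x46⟩ (.nil) (.nil)
def t14_8015 : Tr := .node ⟨nat_lit 5, nat_lit 0x100012, nat_lit 0x1114, nat_lit 3, nat_lit 4, nat_lit 0x47⟩ (.nil) (.nil)
def t9_335 : Tr := .node ⟨nat_lit 4, nat_lit 0, nat_lit 0x3111, nat_lit 2, nat_lit 4, nat_lit 0x48⟩ (.node ⟨nat_lit 5, nat_lit 0x40018, nat_lit 0x30213, nat_lit 0, nat_lit 4, nat_lit 0x48⟩ (.node ⟨nat_lit 4, nat_lit 0xc, nat_lit 0x2212, nat_lit 7, nat_lit 4, nat_lit 0x48⟩ (.node ⟨nat_lit 6, nat_lit 0x80030, nat_lit 0x110202, nat_lit 4, nat_lit 4, nat_lit 0x49⟩ (.node ⟨nat_lit 6, nat_lit 0x200010, nat_lit 0x222201, nat_lit 0, nat_lit 4, nat_lit 0x4b⟩ (t14_335) (t14_8527)) (.node ⟨nat_lit 7, nat_lit 0x20002000400040, nat_lit 0x111010, nat_lit 0, nat_lit 4, nat_lit 0x48⟩ (t14_4431) (t14_12623))) (.node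 ⟨nat_lit 6, nat_lit 0x2000100008, nat_lit 0x1002, nat_lit 2, nat_lit 3, nat_lit 0x46⟩ (.node ⟨nat_lit 6, nat_lit 0x2000100010, nat_lit 0x12041, nat_lit 1, nat_lit 3, nat_lit 0x48⟩ (t14_2383) (t14_10575)) (.node ⟨nat_lit 6, nat_lit 0x200030, nat_lit 0x12130, nat_lit 1, nat_lit 4, nat_lit 0x49⟩ (t14_6479) (t14_14671)))) (.node ⟨nat_lit 6, nat_lit 0x300038, nat_lit 0x102122, nat_lit 0, nat_lit 4, nat_lit 0x47⟩ (.node ⟨nat_lit 4, nat_lit 0x8000e, nat_lit 0x2222, nat_lit 8, nat_lit 4, nat_lit 0x48⟩ (.node ⟨nat_lit 7, nat_lit 0x40001000600070, nat_lit 0x101023, nat_lit 0, nat_lit 4, nat_lit 0x46⟩ (t14_1359) (t14_9551)) (.node ⟨nat_lit 6, nat_lit 0x2000100024, nat_lit 0x221112, nat_lit 0, nat_lit 4, nat_lit 0x49⟩ (t14_5455) (t14_13647))) (.node ⟨nat_lit 7, nat_lit 0x10004000440060, nat_lit 0x1300102, nat_lit 0, nat_lit 4, nat_lit 0x49⟩ (.node ⟨nat_lit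 5, nat_lit 0x180018, nat_lit 0x11230, nat_lit 2, nat_lit 3, nat_lit 0x46⟩ (t14_3407) (t14_11599)) (.node ⟨nat_lit 6, nat_lit 0x2000200020, nat_lit 0x21110, nat_lit 0, nat_lit 3, nat_lit 0x47⟩ (t14_7503) (.nil))))) (.node ⟨nat_lit 6, nat_lit 0x2000200010, nat_lit 0x3200, nat_lit 1, nat_lit 4, nat_lit 0x48⟩ (.node ⟨nat_lit 6, nat_lit 0x1000200022, nat_lit 0x221110, nat_lit 1, nat_lit 4, nat_lit 0x49⟩ (.node ⟨nat_lit 6, nat_lit 0x200032, nat_lit 0x111121, nat_lit 0, nat_lit 4, nat_lit 0x48⟩ (.node ⟨nat_lit 7, nat_lit 0x4000100060, nat_lit 0x121201, nat_lit 0, nat_lit 4, nat_lit 0x49⟩ (t14_847) (t14_9039)) (.node ⟨nat_lit 5, nat_lit 0x40018, nat_lit 0x21223, nat_lit 0, nat_lit 4, nat_lit 0x48⟩ (t14_4943) (t14_13135))) (.node ⟨nat_lit 6, nat_lit 0x2000100030, nat_lit 0x11012, nat_lit 5, nat_lit 4, nat_lit 0x48⟩ (.node ⟨nat_lit 6, nat_lit 0x2000240024,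 nat_lit 0x111211, nat_lit 4, nat_lit 4, nat_lit 0x49⟩ (t14_2895) (t14_11087)) (.node ⟨nat_lit 4, nat_lit 0x8000c, nat_lit 0x1112, nat_lit 6, nat_lit 4, nat_lit 0x46⟩ (t14_6991) (t14_15183)))) (.node ⟨nat_lit 5, nat_lit 0x18, nat_lit 0x21100, nat_lit 0, nat_lit 4, nat_lit 0x47⟩ (.node ⟨nat_lit 7, nat_lit 0x10002000500060, nat_lit 0x2101112, nat_lit 0, nat_lit 4, nat_lit 0x48⟩ (.node ⟨nat_lit 6, nat_lit 0x40038, nat_lit 0x110113, nat_lit 0, nat_lit 4, nat_lit 0x47⟩ (t14_1871) (t14_10063)) (.node ⟨nat_lit 7, nat_lit 0x40001000500068, nat_lit 0x210020, nat_lit 1, nat_lit 4, nat_lit 0x47⟩ (t14_5967) (t14_14159))) (.node ⟨nat_lit 6, nat_lit 0x1000200020, nat_lit 0x11022, nat_lit 0, nat_lit 4, nat_lit 0x48⟩ (.node ⟨nat_lit 6, nat_lit 0x800080030, nat_lit 0x100001, nat_lit 0, nat_lit 3, nat_lit 0x45⟩ (t14_3919) (t14_12111)) (.node ⟨nat_lit 8, nat_lit 0x8000200020002000c0,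 nat_lit 0x10022101, nat_lit 0, nat_lit 4, nat_lit 0x49⟩ (t14_8015) (.nil)))))
def t14_207 : Tr := .node ⟨nat_lit 7, nat_lit 0x40001000580068, nat_lit 0x2110212, nat_lit 1, nat_lit 4, nat_lit 0x48⟩ (.nil) (.nil)
def t14_8399 : Tr := .node ⟨nat_lit 8, nat_lit 0x4000800080008800900090, nat_lit 0x11031, nat_lit 4, nat_lit 4, nat_lit 0x48⟩ (.nil) (.nil)
def t14_4303 : Tr := .node ⟨nat_lit 7, nat_lit 0x4000200060, nat_lit 0x1111011, nat_lit 0, nat_lit 3, nat_lit 0x48⟩ (.nil) (.nil)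
def t14_12495 : Tr := .node ⟨nat_lit 8, nat_lit 0x200020004000400080, nat_lit 0x10031001, nat_lit 0, nat_lit 4, nat_lit 0x49⟩ (.nil) (.nil)
def t14_2255 : Tr := .node ⟨nat_lit 7, nat_lit 0x400020002000200050, nat_lit 0x1023002, nat_lit 0, nat_lit 4, nat_lit 0x48⟩ (.nil) (.nil)
def t14_10447 : Tr := .node ⟨nat_lit 8, nat_lit 0x80008800a000c0, nat_lit 0x1112002, nat_lit 0, nat_lit 4, nat_lit 0x49⟩ (.nil) (.nil)
def t14_6351 : Tr := .node ⟨nat_lit 7, nat_lit 0x10004000500064, nat_lit 0x101020, nat_lit 1, nat_lit 4, nat_lit 0x46⟩ (.nil) (.nil)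
def t14_14543 : Tr := .node ⟨nat_lit 8, nat_lit 0x80008800c000a0, nat_lit 0x13110, nat_lit 2, nat_lit 4, nat_lit 0x49⟩ (.nil) (.nil)
def t14_1231 : Tr := .node ⟨nat_lit 7, nat_lit 0x4000100060, nat_lit 0x11231, nat_lit 0, nat_lit 4, nat_lit 0x49⟩ (.nil) (.nil)
def t14_9423 : Tr := .node ⟨nat_lit 9, nat_lit 0x100008000a001400140018001a0, nat_lit 0x11101031, nat_lit 0, nat_lit 4, nat_lit 0x47⟩ (.nil) (.nil)
def t14_5327 : Tr := .node ⟨nat_lit 6, nat_lit 0x800300030, nat_lit 0x111140, nat_lit 0, nat_lit 4, nat_lit 0x48⟩ (.nil) (.nil)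
def t14_13519 : Tr := .node ⟨nat_lit 7, nat_lit 0x2000200040, nat_lit 0x1000001, nat_lit 0, nat_lit 4, nat_lit 0x48⟩ (.nil) (.nil)
def t14_3279 : Tr := .node ⟨nat_lit 8, nat_lit 0x4000800060009000c000e0, nat_lit 0x120110, nat_lit 1, nat_lit 4, nat_lit 0x46⟩ (.nil) (.nil)
def t14_11471 : Tr := .node ⟨nat_lit 8, nat_lit 0x2000800040008800c8, nat_lit 0x10001110, nat_lit 0, nat_lit 4, nat_lit 0x47⟩ (.nil) (.nil)
def t14_7375 : Tr := .node ⟨nat_lit 5, nat_lit 0x800080010, nat_lit 0x20001, nat_lit 5, nat_lit 4, nat_lit 0x47⟩ (.nil) (.nil)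
def t14_15567 : Tr := .node ⟨nat_lit 7, nat_lit 0x40, nat_lit 0x1111111, nat_lit 6, nat_lit 4, nat_lit 0x4d⟩ (.nil) (.nil)
def t14_719 : Tr := .node ⟨nat_lit 8, nat_lit 0x200080001000c0, nat_lit 0x10311, nat_lit 1, nat_lit 4, nat_lit 0x49⟩ (.nil) (.nil)
def t14_8911 : Tr := .node ⟨nat_lit 8, nat_lit 0x4000800090006000d000d0, nat_lit 0x10100030, nat_lit 0, nat_lit 4, nat_lit 0x45⟩ (.nil) (.nil)
def t14_4815 : Tr := .node ⟨nat_lit 7, nat_lit 0x40006000680068, nat_lit 0x1021200, nat_lit 2, nat_lit 4, nat_lit 0x47⟩ (.nil) (.nil)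
def t14_13007 : Tr := .node ⟨nat_lit 7, nat_lit 0x20002000400068, nat_lit 0x20040, nat_lit 0, nat_lit 4, nat_lit 0x48⟩ (.nil) (.nil)
def t14_2767 : Tr := .node ⟨nat_lit 7, nat_lit 0x10002000500060, nat_lit 0x1010112, nat_lit 1, nat_lit 4, nat_lit 0x47⟩ (.nil) (.nil)
def t14_10959 : Tr := .node ⟨nat_lit 8, nat_lit 0x40008000800090006000c0, nat_lit 0x1220002, nat_lit 0, nat_lit 4, nat_lit 0x48⟩ (.nil) (.nil)
def t14_6863 : Tr := .node ⟨nat_lit 7, nat_lit 0x4000400020, nat_lit 0x11103, nat_lit 0, nat_lit 4, nat_lit 0x49⟩ (.nil) (.nil)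
def t14_15055 : Tr := .node ⟨nat_lit 7, nat_lit 0x40003000600050, nat_lit 0x110122, nat_lit 1, nat_lit 4, nat_lit 0x47⟩ (.nil) (.nil)
def t14_1743 : Tr := .node ⟨nat_lit 8, nat_lit 0x40008000a000c800d0, nat_lit 0x1112111, nat_lit 0, nat_lit 4, nat_lit 0x47⟩ (.nil) (.nil)
def t14_9935 : Tr := .node ⟨nat_lit 5, nat_lit 0x18001c, nat_lit 0x130, nat_lit 4, nat_lit 4, nat_lit 0x45⟩ (.nil) (.nil)
def t14_5839 : Tr := .node ⟨nat_lit 7, nat_lit 0x800100060, nat_lit 0x1010201, nat_lit 1, nat_lit 4, nat_lit 0x48⟩ (.nil) (.nil)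
def t14_14031 : Tr := .node ⟨nat_lit 8, nat_lit 0x1000c000a0, nat_lit 0x11120, nat_lit 1, nat_lit 4, nat_lit 0x49⟩ (.nil) (.nil)
def t14_3791 : Tr := .node ⟨nat_lit 8, nat_lit 0x400080008000a000c8, nat_lit 0x1012101, nat_lit 0, nat_lit 4, nat_lit 0x48⟩ (.nil) (.nil)
def t14_11983 : Tr := .node ⟨nat_lit 9, nat_lit 0x1000100010000800080012001c0, nat_lit 0x1002200, nat_lit 1, nat_lit 4, nat_lit 0x48⟩ (.nil) (.nil)
def t14_7887 : Tr := .node ⟨nat_lit 8, nat_lit 0x800040009000a000d0, nat_lit 0x11111, nat_lit 0, nat_lit 4, nat_lit 0x46⟩ (.nil) (.nil)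
def t9_207 : Tr := .node ⟨nat_lit 3, nat_lit 0, nat_lit 0x321, nat_lit 7, nat_lit 3, nat_lit 0x47⟩ (.node ⟨nat_lit 5, nat_lit 0x100010, nat_lit 0x13211, nat_lit 1, nat_lit 3, nat_lit 0x48⟩ (.node ⟨nat_lit 7, nat_lit 0x20002000400060, nat_lit 0x32001, nat_lit 3, nat_lit 4, nat_lit 0x49⟩ (.node ⟨nat_lit 5, nat_lit 0x80010, nat_lit 0x11240, nat_lit 0, nat_lit 3, nat_lit 0x47⟩ (.node ⟨nat_lit 7, nat_lit 0x40002000100060, nat_lit 0x20122, nat_lit 1, nat_lit 4, nat_lit 0x48⟩ (t14_207) (t14_8399)) (.node ⟨nat_lit 7, nat_lit 0x400040002000500060, nat_lit 0x111003, nat_lit 4, nat_lit 4, nat_lit 0x48⟩ (t14_4303) (t14_12495))) (.node ⟨nat_lit 4, nat_lit 8, nat_lit 0x2212, nat_lit 0xa, nat_lit 4, nat_lit 0x4a⟩ (.node ⟨nat_lit 5, nat_lit 0x1000080008, nat_lit 0x10043, nat_lit 1, nat_lit 3, nat_lit 0x46⟩ (t14_2255) (t14_10447)) (.node ⟨nat_lit 5, nat_lit 0x80010001a,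 nat_lit 0x21210, nat_lit 7, nat_lit 4, nat_lit 0x48⟩ (t14_6351) (t14_14543)))) (.node ⟨nat_lit 6, nat_lit 0x30, nat_lit 0x112111, nat_lit 0, nat_lit 4, nat_lit 0x49⟩ (.node ⟨nat_lit 6, nat_lit 0x1000280030, nat_lit 0x102212, nat_lit 0, nat_lit 4, nat_lit 0x47⟩ (.node ⟨nat_lit 2, nat_lit 2, nat_lit 0x11, nat_lit 7, nat_lit 4, nat_lit 0x43⟩ (t14_1231) (t14_9423)) (.node ⟨nat_lit 8, nat_lit 0x8000200020002000c0, nat_lit 0x10022111, nat_lit 0, nat_lit 4, nat_lit 0x49⟩ (t14_5327) (t14_13519))) (.node ⟨nat_lit 7, nat_lit 0x400040002000200058, nat_lit 0x1020201, nat_lit 1, nat_lit 4, nat_lit 0x47⟩ (.node ⟨nat_lit 7, nat_lit 0x40001000100060, nat_lit 0x1100003, nat_lit 2, nat_lit 4, nat_lit 0x48⟩ (t14_3279) (t14_11471)) (.node ⟨nat_lit 6, nat_lit 0x800200030, nat_lit 0x11301, nat_lit 0, nat_lit 3, nat_lit 0x46⟩ (t14_7375) (t14_15567))))) (.node ⟨nat_lit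 5, nat_lit 0x180018, nat_lit 0x10311, nat_lit 5, nat_lit 4, nat_lit 0x47⟩ (.node ⟨nat_lit 6, nat_lit 0x20, nat_lit 0x21110, nat_lit 0, nat_lit 4, nat_lit 0x49⟩ (.node ⟨nat_lit 6, nat_lit 0x1000100020, nat_lit 0x102101, nat_lit 6, nat_lit 4, nat_lit 0x49⟩ (.node ⟨nat_lit 6, nat_lit 0x800080030, nat_lit 0x211210, nat_lit 0, nat_lit 3, nat_lit 0x47⟩ (t14_719) (t14_8911)) (.node ⟨nat_lit 6, nat_lit 0x200030, nat_lit 0x112220, nat_lit 0, nat_lit 3, nat_lit 0x48⟩ (t14_4815) (t14_13007))) (.node ⟨nat_lit 7, nat_lit 0x5000180060, nat_lit 0x111120, nat_lit 0, nat_lit 4, nat_lit 0x47⟩ (.node ⟨nat_lit 7, nat_lit 0x2000200040, nat_lit 0x1111301, nat_lit 3, nat_lit 4, nat_lit 0x4b⟩ (t14_2767) (t14_10959)) (.node ⟨nat_lit 7, nat_lit 0x40003000500060, nat_lit 0x110202, nat_lit 0, nat_lit 3, nat_lit 0x45⟩ (t14_6863) (t14_15055)))) (.node ⟨nat_lit 4, nat_lit 0xc,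 nat_lit 0x1113, nat_lit 3, nat_lit 4, nat_lit 0x46⟩ (.node ⟨nat_lit 6, nat_lit 0xc0030, nat_lit 0x111011, nat_lit 0, nat_lit 4, nat_lit 0x46⟩ (.node ⟨nat_lit 7, nat_lit 0x40002000200070, nat_lit 0x10003, nat_lit 1, nat_lit 4, nat_lit 0x46⟩ (t14_1743) (t14_9935)) (.node ⟨nat_lit 7, nat_lit 0x40004000480048, nat_lit 0x221021, nat_lit 2, nat_lit 4, nat_lit 0x49⟩ (t14_5839) (t14_14031))) (.node ⟨nat_lit 6, nat_lit 0x2000280030, nat_lit 0x22022, nat_lit 0, nat_lit 3, nat_lit 0x46⟩ (.node ⟨nat_lit 7, nat_lit 0x4000180060, nat_lit 0x10010, nat_lit 0, nat_lit 4, nat_lit 0x46⟩ (t14_3791) (t14_11983)) (.node ⟨nat_lit 8, nat_lit 0x8000c000c800c8, nat_lit 0x11110021, nat_lit 1, nat_lit 4, nat_lit 0x48⟩ (t14_7887) (.nil)))))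
def t14_463 : Tr := .node ⟨nat_lit 6, nat_lit 0x2000100034, nat_lit 0x111120, nat_lit 0, nat_lit 4, nat_lit 0x47⟩ (.nil) (.nil)
def t14_8655 : Tr := .node ⟨nat_lit 6, nat_lit 0x800080030, nat_lit 0x102, nat_lit 0, nat_lit 4, nat_lit 0x45⟩ (.nil) (.nil)
def t14_4559 : Tr := .node ⟨nat_lit 7, nat_lit 0x5000600060, nat_lit 0x111221, nat_lit 1, nat_lit 4, nat_lit 0x48⟩ (.nil) (.nil)
def t14_12751 : Tr := .node ⟨nat_lit 6, nat_lit 0x20002800280030, nat_lit 0x12100, nat_lit 5, nat_lit 4, nat_lit 0x47⟩ (.nil) (.nil)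
def t14_2511 : Tr := .node ⟨nat_lit 6, nat_lit 0x1000200034, nat_lit 0x31120, nat_lit 0, nat_lit 4, nat_lit 0x48⟩ (.nil) (.nil)
def t14_10703 : Tr := .node ⟨nat_lit 9, nat_lit 0x1000100008001100190, nat_lit 0x1000020, nat_lit 0, nat_lit 4, nat_lit 0x48⟩ (.nil) (.nil)
def t14_6607 : Tr := .node ⟨nat_lit 6, nat_lit 0x80030, nat_lit 0x100200, nat_lit 0, nat_lit 4, nat_lit 0x47⟩ (.nil) (.nil)
def t14_14799 : Tr := .node ⟨nat_lit 9, nat_lit 0x80008001000100010001100190, nat_lit 0x2101001, nat_lit 2, nat_lit 4, nat_lit 0x48⟩ (.nil) (.nil)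
def t14_1487 : Tr := .node ⟨nat_lit 7, nat_lit 0x40001000100060, nat_lit 0x100201, nat_lit 1, nat_lit 4, nat_lit 0x47⟩ (.nil) (.nil)
def t14_9679 : Tr := .node ⟨nat_lit 7, nat_lit 0x40004000200068, nat_lit 0x12002, nat_lit 0, nat_lit 4, nat_lit 0x47⟩ (.nil) (.nil)
def t14_5583 : Tr := .node ⟨nat_lit 7, nat_lit 0x1000400060, nat_lit 0x101020, nat_lit 1, nat_lit 4, nat_lit 0x48⟩ (.nil) (.nil)
def t14_13775 : Tr := .node ⟨nat_lit 8, nat_lit 0x80002000c00030, nat_lit 0x210, nat_lit 3, nat_lit 4, nat_lit 0x48⟩ (.nil) (.nil)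
def t14_3535 : Tr := .node ⟨nat_lit 6, nat_lit 0x800300030, nat_lit 0x120, nat_lit 2, nat_lit 4, nat_lit 0x45⟩ (.nil) (.nil)
def t14_11727 : Tr := .node ⟨nat_lit 8, nat_lit 0xa000c000c0, nat_lit 0x111210, nat_lit 2, nat_lit 4, nat_lit 0x49⟩ (.nil) (.nil)
def t14_7631 : Tr := .node ⟨nat_lit 7, nat_lit 0x10004000200064, nat_lit 0x210, nat_lit 1, nat_lit 4, nat_lit 0x46⟩ (.nil) (.nil)
def t14_975 : Tr := .node ⟨nat_lit 5, nat_lit 0x1000140014, nat_lit 0x2211, nat_lit 5, nat_lit 4, nat_lit 0x47⟩ (.nil) (.nil)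
def t14_9167 : Tr := .node ⟨nat_lit 6, nat_lit 0x20001000300038, nat_lit 0x1120, nat_lit 3, nat_lit 4, nat_lit 0x45⟩ (.nil) (.nil)
def t14_5071 : Tr := .node ⟨nat_lit 6, nat_lit 0x800200030, nat_lit 0x10031, nat_lit 2, nat_lit 4, nat_lit 0x47⟩ (.nil) (.nil)
def t14_13263 : Tr := .node ⟨nat_lit 6, nat_lit 0x200030, nat_lit 0x211110, nat_lit 1, nat_lit 3, nat_lit 0x48⟩ (.nil) (.nil)
def t14_3023 : Tr := .node ⟨nat_lit 7, nat_lit 0x200020004000700070, nat_lit 0x110211, nat_lit 4, nat_lit 4, nat_lit 0x47⟩ (.nil) (.nil)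
def t14_11215 : Tr := .node ⟨nat_lit 7, nat_lit 0x20006000500070, nat_lit 0x12103, nat_lit 0, nat_lit 4, nat_lit 0x46⟩ (.nil) (.nil)
def t14_7119 : Tr := .node ⟨nat_lit 6, nat_lit 0x800300030, nat_lit 0x102111, nat_lit 5, nat_lit 4, nat_lit 0x48⟩ (.nil) (.nil)
def t14_15311 : Tr := .node ⟨nat_lit 8, nat_lit 0x80008000800040004000a0, nat_lit 0x120101, nat_lit 6, nat_lit 4, nat_lit 0x49⟩ (.nil) (.nil)
def t14_1999 : Tr := .node ⟨nat_lit 7, nat_lit 0x1000400060, nat_lit 0x1201012, nat_lit 2, nat_lit 4, nat_lit 0x4a⟩ (.nil) (.nil)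
def t14_10191 : Tr := .node ⟨nat_lit 8, nat_lit 0x800040005000a000a000c0, nat_lit 0x121003, nat_lit 0, nat_lit 4, nat_lit 0x46⟩ (.nil) (.nil)
def t14_6095 : Tr := .node ⟨nat_lit 2, nat_lit 2, nat_lit 0x11, nat_lit 0x13, nat_lit 4, nat_lit 0x47⟩ (.nil) (.nil)
def t14_14287 : Tr := .node ⟨nat_lit 8, nat_lit 0x200040003000a000c0, nat_lit 0x111102, nat_lit 0, nat_lit 4, nat_lit 0x47⟩ (.nil) (.nil)
def t14_4047 : Tr := .node ⟨nat_lit 6, nat_lit 0x800080030, nat_lit 0x100301, nat_lit 1, nat_lit 4, nat_lit 0x47⟩ (.nil) (.nil)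
def t14_12239 : Tr := .node ⟨nat_lit 8, nat_lit 0x80008000c0, nat_lit 0x1111210, nat_lit 1, nat_lit 4, nat_lit 0x4b⟩ (.nil) (.nil)
def t14_8143 : Tr := .node ⟨nat_lit 7, nat_lit 0x3000500060, nat_lit 0x1001200, nat_lit 0, nat_lit 4, nat_lit 0x46⟩ (.nil) (.nil)
def t9_463 : Tr := .node ⟨nat_lit 3, nat_lit 4, nat_lit 0x423, nat_lit 2, nat_lit 3, nat_lit 0x48⟩ (.node ⟨nat_lit 8, nat_lit 0x40008000900060006000e0, nat_lit 0x13000202, nat_lit 0, nat_lit 4, nat_lit 0x48⟩ (.node ⟨nat_lit 5, nat_lit 0x40018, nat_lit 0x21220, nat_lit 1, nat_lit 4, nat_lit 0x48⟩ (.node ⟨nat_lit 7, nat_lit 0x40004000400020, nat_lit 0x121102, nat_lit 0, nat_lit 4, nat_lit 0x49⟩ (.node ⟨nat_lit 6, nat_lit 0x2000080030, nat_lit 0x12220, nat_lit 1, nat_lit 4, nat_lit 0x48⟩ (t14_463) (t14_8655)) (.node ⟨nat_lit 7, nat_lit 0x10001800500060, nat_lit 0x212102, nat_lit 1, nat_lit 4,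 nat_lit 0x48⟩ (t14_4559) (t14_12751))) (.node ⟨nat_lit 6, nat_lit 0x2000080030, nat_lit 0x1120, nat_lit 0, nat_lit 4, nat_lit 0x46⟩ (.node ⟨nat_lit 6, nat_lit 0x2000300034, nat_lit 0x112131, nat_lit 3, nat_lit 4, nat_lit 0x48⟩ (t14_2511) (t14_10703)) (.node ⟨nat_lit 6, nat_lit 0x200020, nat_lit 0x21132, nat_lit 1, nat_lit 4, nat_lit 0x4a⟩ (t14_6607) (t14_14799)))) (.node ⟨nat_lit 6, nat_lit 0x1000280030, nat_lit 0x2210, nat_lit 1, nat_lit 4, nat_lit 0x46⟩ (.node ⟨nat_lit 6, nat_lit 0x2000200010, nat_lit 0x121222, nat_lit 1, nat_lit 4, nat_lit 0x4a⟩ (.node ⟨nat_lit 7, nat_lit 0x40004000100060, nat_lit 0x11010, nat_lit 0, nat_lit 4, nat_lit 0x47⟩ (t14_1487) (t14_9679)) (.node ⟨nat_lit 7, nat_lit 0x4000200044, nat_lit 0x1111202, nat_lit 2, nat_lit 4, nat_lit 0x4a⟩ (t14_5583) (t14_13775))) (.node ⟨nat_lit 6, nat_lit 0x10002000200020, nat_lit 0x13200,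 nat_lit 3, nat_lit 4, nat_lit 0x48⟩ (.node ⟨nat_lit 5, nat_lit 0x40018, nat_lit 0x120, nat_lit 1, nat_lit 4, nat_lit 0x45⟩ (t14_3535) (t14_11727)) (.node ⟨nat_lit 4, nat_lit 0x800080008, nat_lit 0x1311, nat_lit 5, nat_lit 3, nat_lit 0x46⟩ (t14_7631) (.nil))))) (.node ⟨nat_lit 6, nat_lit 0, nat_lit 0x311111, nat_lit 0, nat_lit 3, nat_lit 0x4a⟩ (.node ⟨nat_lit 7, nat_lit 0x4000400044, nat_lit 0x1211020, nat_lit 0, nat_lit 4, nat_lit 0x4a⟩ (.node ⟨nat_lit 8, nat_lit 0x8000200040, nat_lit 0x1111011, nat_lit 1, nat_lit 4, nat_lit 0x4b⟩ (.node ⟨nat_lit 4, nat_lit 0x8000c, nat_lit 0x1031, nat_lit 0xd, nat_lit 4, nat_lit 0x48⟩ (t14_975) (t14_9167)) (.node ⟨nat_lit 7, nat_lit 0x4000200020, nat_lit 0x22022, nat_lit 0, nat_lit 4, nat_lit 0x4a⟩ (t14_5071) (t14_13263))) (.node ⟨nat_lit 5, nat_lit 0x80010, nat_lit 0x11120, nat_lit 4, nat_lit 4, nat_lit 0x48⟩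 (.node ⟨nat_lit 7, nat_lit 0x10006000600060, nat_lit 0x11210, nat_lit 1, nat_lit 4, nat_lit 0x46⟩ (t14_3023) (t14_11215)) (.node ⟨nat_lit 8, nat_lit 0x40008000600060009000c0, nat_lit 0x10021003, nat_lit 1, nat_lit 4, nat_lit 0x47⟩ (t14_7119) (t14_15311)))) (.node ⟨nat_lit 6, nat_lit 0x2000200010, nat_lit 0x12202, nat_lit 0, nat_lit 4, nat_lit 0x48⟩ (.node ⟨nat_lit 7, nat_lit 0x4000400020, nat_lit 0x121100, nat_lit 3, nat_lit 4, nat_lit 0x4a⟩ (.node ⟨nat_lit 7, nat_lit 0x4000600070, nat_lit 0x102113, nat_lit 1, nat_lit 4, nat_lit 0x48⟩ (t14_1999) (t14_10191)) (.node ⟨nat_lit 7, nat_lit 0x10002000500060, nat_lit 0x113002, nat_lit 0, nat_lit 4, nat_lit 0x48⟩ (t14_6095) (t14_14287))) (.node ⟨nat_lit 3, nat_lit 0x40006, nat_lit 0x232, nat_lit 0xb, nat_lit 4, nat_lit 0x48⟩ (.node ⟨nat_lit 8, nat_lit 0x20004000a000c800e0, nat_lit 0x1011003, nat_lit 0,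 nat_lit 4, nat_lit 0x46⟩ (t14_4047) (t14_12239)) (.node ⟨nat_lit 7, nat_lit 0x5000500060, nat_lit 0x1102201, nat_lit 1, nat_lit 4, nat_lit 0x48⟩ (t14_8143) (.nil)))))
def t14_47 : Tr := .node ⟨nat_lit 8, nat_lit 0x8000400020, nat_lit 0x111000, nat_lit 1, nat_lit 4, nat_lit 0x4a⟩ (.nil) (.nil)
def t14_8239 : Tr := .node ⟨nat_lit 6, nat_lit 0x1000280030, nat_lit 0x10102, nat_lit 2, nat_lit 4, nat_lit 0x46⟩ (.nil) (.nil)
def t14_4143 : Tr := .node ⟨nat_lit 8, nat_lit 0x8000800040002000c0, nat_lit 0x1111012, nat_lit 0, nat_lit 4, nat_lit 0x49⟩ (.nil) (.nil)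
def t14_12335 : Tr := .node ⟨nat_lit 8, nat_lit 0x800040002000c000e0, nat_lit 0x21003, nat_lit 2, nat_lit 4, nat_lit 0x47⟩ (.nil) (.nil)
def t14_2095 : Tr := .node ⟨nat_lit 8, nat_lit 0x80008000800040, nat_lit 0x1113100, nat_lit 0, nat_lit 4, nat_lit 0x4b⟩ (.nil) (.nil)
def t14_10287 : Tr := .node ⟨nat_lit 7, nat_lit 0x400040005000700068, nat_lit 0x1000120, nat_lit 1, nat_lit 4, nat_lit 0x45⟩ (.nil) (.nil)
def t14_6191 : Tr := .node ⟨nat_lit 4, nat_lit 0x80004, nat_lit 0x112, nat_lit 6, nat_lit 4, nat_lit 0x46⟩ (.nil) (.nil)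
def t14_14383 : Tr := .node ⟨nat_lit 7, nat_lit 0x40005000600068, nat_lit 0x1031, nat_lit 3, nat_lit 4, nat_lit 0x46⟩ (.nil) (.nil)
def t14_1071 : Tr := .node ⟨nat_lit 6, nat_lit 0x2000200010, nat_lit 0x1212, nat_lit 0, nat_lit 4, nat_lit 0x47⟩ (.nil) (.nil)
def t14_9263 : Tr := .node ⟨nat_lit 8, nat_lit 0x800040004000a000a000c0, nat_lit 0x110102, nat_lit 2, nat_lit 4, nat_lit 0x47⟩ (.nil) (.nil)
def t14_5167 : Tr := .node ⟨nat_lit 8, nat_lit 0x80008000c0, nat_lit 0x1111301, nat_lit 0, nat_lit 4, nat_lit 0x4b⟩ (.nil) (.nil)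
def t14_13359 : Tr := .node ⟨nat_lit 4, nat_lit 0xc000c, nat_lit 0x3020, nat_lit 4, nat_lit 3, nat_lit 0x45⟩ (.nil) (.nil)
def t14_3119 : Tr := .node ⟨nat_lit 6, nat_lit 0x2000080030, nat_lit 0x21201, nat_lit 2, nat_lit 4, nat_lit 0x48⟩ (.nil) (.nil)
def t14_11311 : Tr := .node ⟨nat_lit 8, nat_lit 0x80008000d000d000c8, nat_lit 0x10200201, nat_lit 1, nat_lit 4, nat_lit 0x47⟩ (.nil) (.nil)
def t14_7215 : Tr := .node ⟨nat_lit 7, nat_lit 0x40001000100060, nat_lit 0x1011211, nat_lit 2, nat_lit 4, nat_lit 0x49⟩ (.nil) (.nil)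
def t14_15407 : Tr := .node ⟨nat_lit 0xb, nat_lit 0x40004000400042004200410, nat_lit 0x1111000100, nat_lit 0, nat_lit 4, nat_lit 0x4c⟩ (.nil) (.nil)
def t14_559 : Tr := .node ⟨nat_lit 7, nat_lit 0x6000500050, nat_lit 0x1022, nat_lit 0, nat_lit 4, nat_lit 0x46⟩ (.nil) (.nil)
def t14_8751 : Tr := .node ⟨nat_lit 7, nat_lit 0x40002000200060, nat_lit 0x10002, nat_lit 1, nat_lit 4, nat_lit 0x47⟩ (.nil) (.nil)
def t14_4655 : Tr := .node ⟨nat_lit 6, nat_lit 0x20002800280030, nat_lit 0x101221, nat_lit 4, nat_lit 4, nat_lit 0x47⟩ (.nil) (.nil)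
def t14_12847 : Tr := .node ⟨nat_lit 7, nat_lit 0x10001000600050, nat_lit 0x2020, nat_lit 3, nat_lit 4, nat_lit 0x47⟩ (.nil) (.nil)
def t14_2607 : Tr := .node ⟨nat_lit 6, nat_lit 0x1000300028, nat_lit 0x2112, nat_lit 3, nat_lit 4, nat_lit 0x47⟩ (.nil) (.nil)
def t14_10799 : Tr := .node ⟨nat_lit 6, nat_lit 0x10002000200026, nat_lit 0x11201, nat_lit 2, nat_lit 4, nat_lit 0x46⟩ (.nil) (.nil)
def t14_6703 : Tr := .node ⟨nat_lit 7, nat_lit 0x100060, nat_lit 0x1111101, nat_lit 1, nat_lit 4, nat_lit 0x4a⟩ (.nil) (.nil)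
def t14_14895 : Tr := .node ⟨nat_lit 8, nat_lit 0x8000400090009000d0, nat_lit 0x10110111, nat_lit 1, nat_lit 4, nat_lit 0x48⟩ (.nil) (.nil)
def t14_1583 : Tr := .node ⟨nat_lit 7, nat_lit 0x20002000500060, nat_lit 0x1012112, nat_lit 0, nat_lit 4, nat_lit 0x48⟩ (.nil) (.nil)
def t14_9775 : Tr := .node ⟨nat_lit 7, nat_lit 0x200020004000400064, nat_lit 0x1000012, nat_lit 0, nat_lit 4, nat_lit 0x46⟩ (.nil) (.nil)
def t14_5679 : Tr := .node ⟨nat_lit 7, nat_lit 0x10004000600064, nat_lit 0x1000122, nat_lit 3, nat_lit 4, nat_lit 0x47⟩ (.nil) (.nil)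
def t14_13871 : Tr := .node ⟨nat_lit 7, nat_lit 0x40002000480030, nat_lit 0x1200, nat_lit 4, nat_lit 4, nat_lit 0x47⟩ (.nil) (.nil)
def t14_3631 : Tr := .node ⟨nat_lit 6, nat_lit 0x280030, nat_lit 0x121110, nat_lit 0, nat_lit 4, nat_lit 0x48⟩ (.nil) (.nil)
def t14_11823 : Tr := .node ⟨nat_lit 6, nat_lit 0x2000080030, nat_lit 0x1003, nat_lit 5, nat_lit 4, nat_lit 0x47⟩ (.nil) (.nil)
def t14_7727 : Tr := .node ⟨nat_lit 5, nat_lit 0x1000100008, nat_lit 0x213, nat_lit 2, nat_lit 4, nat_lit 0x46⟩ (.nil) (.nil)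
def t9_47 : Tr := .node ⟨nat_lit 6, nat_lit 0x200010, nat_lit 0x33101, nat_lit 1, nat_lit 4, nat_lit 0x4b⟩ (.node ⟨nat_lit 5, nat_lit 0x10, nat_lit 0x31110, nat_lit 1, nat_lit 4, nat_lit 0x49⟩ (.node ⟨nat_lit 6, nat_lit 0x800300030, nat_lit 0x1020, nat_lit 0, nat_lit 3, nat_lit 0x44⟩ (.node ⟨nat_lit 6, nat_lit 0x2000080034, nat_lit 0x201111, nat_lit 0, nat_lit 4, nat_lit 0x47⟩ (.node ⟨nat_lit 7, nat_lit 0x20004000640064, nat_lit 0x2021031, nat_lit 0, nat_lit 4, nat_lit 0x47⟩ (t14_47) (t14_8239)) (.node ⟨nat_lit 7, nat_lit 0x10004000640070, nat_lit 0x1100003, nat_lit 2, nat_lit 4, nat_lit 0x46⟩ (t14_4143) (t14_12335))) (.node ⟨nat_lit 5, nat_lit 0x40018, nat_lit 0x22103, nat_lit 0, nat_lit 4, nat_lit 0x48⟩ (.node ⟨nat_lit 5, nat_lit 0x1000080008, nat_lit 0x21133, nat_lit 1, nat_lit 3, nat_lit 0x47⟩ (t14_2095) (t14_10287)) (.node ⟨nat_lit 8, nat_lit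 0x80004000a000a000d0, nat_lit 0x1012200, nat_lit 0, nat_lit 4, nat_lit 0x47⟩ (t14_6191) (t14_14383)))) (.node ⟨nat_lit 6, nat_lit 0x800280030, nat_lit 0x20313, nat_lit 0, nat_lit 4, nat_lit 0x47⟩ (.node ⟨nat_lit 5, nat_lit 0x100010, nat_lit 0x22111, nat_lit 3, nat_lit 3, nat_lit 0x48⟩ (.node ⟨nat_lit 7, nat_lit 0x40001000100060, nat_lit 0x1103101, nat_lit 3, nat_lit 4, nat_lit 0x49⟩ (t14_1071) (t14_9263)) (.node ⟨nat_lit 6, nat_lit 0x2000300034, nat_lit 0x11212, nat_lit 5, nat_lit 4, nat_lit 0x47⟩ (t14_5167) (t14_13359))) (.node ⟨nat_lit 6, nat_lit 0x80030, nat_lit 0x102201, nat_lit 2, nat_lit 4, nat_lit 0x49⟩ (.node ⟨nat_lit 7, nat_lit 0x40004000100020, nat_lit 0x111100, nat_lit 1, nat_lit 4, nat_lit 0x48⟩ (t14_3119) (t14_11311)) (.node ⟨nat_lit 6, nat_lit 0x200020, nat_lit 0x111122, nat_lit 6, nat_lit 4, nat_lit 0x4b⟩ (t14_7215) (t14_15407)))))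 (.node ⟨nat_lit 2, nat_lit 2, nat_lit 0x33, nat_lit 0xd, nat_lit 4, nat_lit 0x48⟩ (.node ⟨nat_lit 2, nat_lit 2, nat_lit 0x22, nat_lit 0xf, nat_lit 4, nat_lit 0x47⟩ (.node ⟨nat_lit 6, nat_lit 0x1000200038, nat_lit 0x10221, nat_lit 0, nat_lit 4, nat_lit 0x46⟩ (.node ⟨nat_lit 8, nat_lit 0x800080004000900090, nat_lit 0x2102110, nat_lit 0, nat_lit 4, nat_lit 0x49⟩ (t14_559) (t14_8751)) (.node ⟨nat_lit 7, nat_lit 0x40002000100060, nat_lit 0x1111012, nat_lit 0, nat_lit 3, nat_lit 0x47⟩ (t14_4655) (t14_12847))) (.node ⟨nat_lit 6, nat_lit 0x20002000100010, nat_lit 0x1120, nat_lit 0, nat_lit 3, nat_lit 0x45⟩ (.node ⟨nat_lit 6, nat_lit 0x200030, nat_lit 0x112230, nat_lit 0, nat_lit 4, nat_lit 0x4a⟩ (t14_2607) (t14_10799)) (.node ⟨nat_lit 7, nat_lit 0x20002000400060, nat_lit 0x1012121, nat_lit 2, nat_lit 4, nat_lit 0x49⟩ (t14_6703) (t14_14895)))) (.node ⟨nat_lit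 6, nat_lit 0x2000080030, nat_lit 0x12110, nat_lit 1, nat_lit 4, nat_lit 0x47⟩ (.node ⟨nat_lit 6, nat_lit 0x1000100020, nat_lit 0x122100, nat_lit 0, nat_lit 3, nat_lit 0x48⟩ (.node ⟨nat_lit 1, nat_lit 0, nat_lit 2, nat_lit 8, nat_lit 4, nat_lit 0x42⟩ (t14_1583) (t14_9775)) (.node ⟨nat_lit 7, nat_lit 0x10004000640058, nat_lit 0x1121201, nat_lit 0, nat_lit 4, nat_lit 0x48⟩ (t14_5679) (t14_13871))) (.node ⟨nat_lit 6, nat_lit 0x300028, nat_lit 0x2112, nat_lit 4, nat_lit 4, nat_lit 0x48⟩ (.node ⟨nat_lit 6, nat_lit 0x2000080030, nat_lit 0x1010, nat_lit 0, nat_lit 3, nat_lit 0x45⟩ (t14_3631) (t14_11823)) (.node ⟨nat_lit 6, nat_lit 0x800200030, nat_lit 0x111210, nat_lit 3, nat_lit 4, nat_lit 0x48⟩ (t14_7727) (.nil)))))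
def t14_303 : Tr := .node ⟨nat_lit 6, nat_lit 0x1000200030, nat_lit 0x102411, nat_lit 1, nat_lit 4, nat_lit 0x49⟩ (.nil) (.nil)
def t14_8495 : Tr := .node ⟨nat_lit 8, nat_lit 0x800080004000400090, nat_lit 0x111001, nat_lit 0, nat_lit 4, nat_lit 0x48⟩ (.nil) (.nil)
def t14_4399 : Tr := .node ⟨nat_lit 8, nat_lit 0x80004000200088, nat_lit 0x10120210, nat_lit 1, nat_lit 4, nat_lit 0x4a⟩ (.nil) (.nil)
def t14_12591 : Tr := .node ⟨nat_lit 6, nat_lit 0x300038, nat_lit 0x200003, nat_lit 0, nat_lit 4, nat_lit 0x46⟩ (.nil) (.nil)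
def t14_2351 : Tr := .node ⟨nat_lit 8, nat_lit 0x400080008800d000d0, nat_lit 0x2112010, nat_lit 0, nat_lit 4, nat_lit 0x48⟩ (.nil) (.nil)
def t14_10543 : Tr := .node ⟨nat_lit 8, nat_lit 0x20001000a000c0, nat_lit 0x1010020, nat_lit 0, nat_lit 4, nat_lit 0x48⟩ (.nil) (.nil)
def t14_6447 : Tr := .node ⟨nat_lit 7, nat_lit 0x400020005000600070, nat_lit 0x1000021, nat_lit 3, nat_lit 4, nat_lit 0x46⟩ (.nil) (.nil)
def t14_14639 : Tr := .node ⟨nat_lit 7, nat_lit 0x40001000500060, nat_lit 0x112111, nat_lit 2, nat_lit 4, nat_lit 0x48⟩ (.nil) (.nil)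
def t14_1327 : Tr := .node ⟨nat_lit 8, nat_lit 0x400080008000200088, nat_lit 0x1112110, nat_lit 0, nat_lit 4, nat_lit 0x49⟩ (.nil) (.nil)
def t14_9519 : Tr := .node ⟨nat_lit 5, nat_lit 0x10001000140018, nat_lit 0x11211, nat_lit 5, nat_lit 4, nat_lit 0x47⟩ (.nil) (.nil)
def t14_5423 : Tr := .node ⟨nat_lit 8, nat_lit 0x8000400040, nat_lit 0x111022, nat_lit 1, nat_lit 4, nat_lit 0x4b⟩ (.nil) (.nil)
def t14_13615 : Tr := .node ⟨nat_lit 8, nat_lit 0x8000400020002000c0, nat_lit 0x10002, nat_lit 1, nat_lit 4, nat_lit 0x47⟩ (.nil) (.nil)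
def t14_3375 : Tr := .node ⟨nat_lit 6, nat_lit 0x300030, nat_lit 0x103110, nat_lit 0, nat_lit 4, nat_lit 0x48⟩ (.nil) (.nil)
def t14_11567 : Tr := .node ⟨nat_lit 7, nat_lit 0x4000600060, nat_lit 0x111210, nat_lit 2, nat_lit 4, nat_lit 0x49⟩ (.nil) (.nil)
def t14_7471 : Tr := .node ⟨nat_lit 8, nat_lit 0x80002000c800c8, nat_lit 0x11011011, nat_lit 0, nat_lit 4, nat_lit 0x48⟩ (.nil) (.nil)
def t14_815 : Tr := .node ⟨nat_lit 7, nat_lit 0x400020002000500060, nat_lit 0x1023100, nat_lit 1, nat_lit 4, nat_lit 0x48⟩ (.nil) (.nil)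
def t14_9007 : Tr := .node ⟨nat_lit 9, nat_lit 0x100010000400120011001a0, nat_lit 0x1111012, nat_lit 0, nat_lit 4, nat_lit 0x48⟩ (.nil) (.nil)
def t14_4911 : Tr := .node ⟨nat_lit 9, nat_lit 0x20004000800100, nat_lit 0x111110001, nat_lit 1, nat_lit 4, nat_lit 0x4c⟩ (.nil) (.nil)
def t14_13103 : Tr := .node ⟨nat_lit 5, nat_lit 0x100008001c, nat_lit 0x340, nat_lit 3, nat_lit 4, nat_lit 0x46⟩ (.nil) (.nil)
def t14_2863 : Tr := .node ⟨nat_lit 6, nat_lit 0x800280030, nat_lit 0x10310, nat_lit 0, nat_lit 4, nat_lit 0x46⟩ (.nil) (.nil)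
def t14_11055 : Tr := .node ⟨nat_lit 6, nat_lit 0x300030, nat_lit 0x111030, nat_lit 0, nat_lit 4, nat_lit 0x48⟩ (.nil) (.nil)
def t14_6959 : Tr := .node ⟨nat_lit 6, nat_lit 0x2000100038, nat_lit 0x102201, nat_lit 1, nat_lit 4, nat_lit 0x47⟩ (.nil) (.nil)
def t14_15151 : Tr := .node ⟨nat_lit 8, nat_lit 0x4000800088006000c8, nat_lit 0x10101111, nat_lit 0, nat_lit 4, nat_lit 0x47⟩ (.nil) (.nil)
def t14_1839 : Tr := .node ⟨nat_lit 5, nat_lit 0x40018, nat_lit 0x30003, nat_lit 2, nat_lit 4, nat_lit 0x47⟩ (.nil) (.nil)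
def t14_10031 : Tr := .node ⟨nat_lit 6, nat_lit 0x2800300030, nat_lit 0x21220, nat_lit 2, nat_lit 4, nat_lit 0x47⟩ (.nil) (.nil)
def t14_5935 : Tr := .node ⟨nat_lit 8, nat_lit 0x800040004000a000a000d0, nat_lit 0x1111200, nat_lit 1, nat_lit 4, nat_lit 0x47⟩ (.nil) (.nil)
def t14_14127 : Tr := .node ⟨nat_lit 7, nat_lit 0x10001000100060, nat_lit 0x1100002, nat_lit 3, nat_lit 4, nat_lit 0x48⟩ (.nil) (.nil)
def t14_3887 : Tr := .node ⟨nat_lit 8, nat_lit 0x2000400040008000c8, nat_lit 0x10002010, nat_lit 1, nat_lit 4, nat_lit 0x48⟩ (.nil) (.nil)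
def t14_12079 : Tr := .node ⟨nat_lit 7, nat_lit 0x40002000500064, nat_lit 0x113001, nat_lit 3, nat_lit 4, nat_lit 0x48⟩ (.nil) (.nil)
def t14_7983 : Tr := .node ⟨nat_lit 7, nat_lit 0x200040004800300060, nat_lit 0x1010002, nat_lit 2, nat_lit 4, nat_lit 0x46⟩ (.nil) (.nil)
def t9_303 : Tr := .node ⟨nat_lit 5, nat_lit 0x18, nat_lit 0x21311, nat_lit 0, nat_lit 3, nat_lit 0x48⟩ (.node ⟨nat_lit 5, nat_lit 0x40018, nat_lit 0x32012, nat_lit 0, nat_lit 4, nat_lit 0x48⟩ (.node ⟨nat_lit 6, nat_lit 0x2000240024, nat_lit 0x131121, nat_lit 3, nat_lit 4, nat_lit 0x49⟩ (.node ⟨nat_lit 4, nat_lit 0x8000a, nat_lit 0x1212, nat_lit 4, nat_lit 4, nat_lit 0x46⟩ (.node ⟨nat_lit 7, nat_lit 0x4000200020, nat_lit 0x1211021, nat_lit 0, nat_lit 4, nat_lit 0x4b⟩ (t14_303) (t14_8495)) (.node ⟨nat_lit 6, nat_lit 0x2800300018, nat_lit 0x111003, nat_lit 1, nat_lit 3, nat_lit 0x45⟩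 (t14_4399) (t14_12591))) (.node ⟨nat_lit 5, nat_lit 0x800100010, nat_lit 0x12210, nat_lit 4, nat_lit 4, nat_lit 0x48⟩ (.node ⟨nat_lit 5, nat_lit 0x100010, nat_lit 0x12142, nat_lit 1, nat_lit 3, nat_lit 0x48⟩ (t14_2351) (t14_10543)) (.node ⟨nat_lit 7, nat_lit 0x40001000600060, nat_lit 0x23210, nat_lit 0, nat_lit 4, nat_lit 0x48⟩ (t14_6447) (t14_14639)))) (.node ⟨nat_lit 6, nat_lit 0x2000100034, nat_lit 0x201120, nat_lit 0, nat_lit 4, nat_lit 0x47⟩ (.node ⟨nat_lit 5, nat_lit 0x80010, nat_lit 0x22212, nat_lit 3, nat_lit 4, nat_lit 0x4a⟩ (.node ⟨nat_lit 7, nat_lit 0x10004000600064, nat_lit 0x1000230, nat_lit 1, nat_lit 4, nat_lit 0x47⟩ (t14_1327) (t14_9519)) (.node ⟨nat_lit 8, nat_lit 0x400080002000c0, nat_lit 0x10120202, nat_lit 0, nat_lit 4, nat_lit 0x4a⟩ (t14_5423) (t14_13615))) (.node ⟨nat_lit 6, nat_lit 0x2000080030, nat_lit 0x2120, nat_lit 4,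 nat_lit 4, nat_lit 0x48⟩ (.node ⟨nat_lit 9, nat_lit 0x10001000040008000800120, nat_lit 0x11000300, nat_lit 1, nat_lit 4, nat_lit 0x4a⟩ (t14_3375) (t14_11567)) (.node ⟨nat_lit 8, nat_lit 0x800010002000c0, nat_lit 0x11111012, nat_lit 0, nat_lit 4, nat_lit 0x4a⟩ (t14_7471) (.nil))))) (.node ⟨nat_lit 5, nat_lit 0x18, nat_lit 0x11310, nat_lit 3, nat_lit 4, nat_lit 0x49⟩ (.node ⟨nat_lit 6, nat_lit 0x2000100032, nat_lit 0x21220, nat_lit 2, nat_lit 4, nat_lit 0x48⟩ (.node ⟨nat_lit 6, nat_lit 0x1000200022, nat_lit 0x111110, nat_lit 0, nat_lit 4, nat_lit 0x47⟩ (.node ⟨nat_lit 6, nat_lit 0x1000200030, nat_lit 0x203121, nat_lit 0, nat_lit 4, nat_lit 0x49⟩ (t14_815) (t14_9007)) (.node ⟨nat_lit 7, nat_lit 0x4000100060, nat_lit 0x1121012, nat_lit 1, nat_lit 4, nat_lit 0x4a⟩ (t14_4911) (t14_13103))) (.node ⟨nat_lit 6, nat_lit 0x10002000200030, nat_lit 0x12001,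 nat_lit 0, nat_lit 3, nat_lit 0x45⟩ (.node ⟨nat_lit 2, nat_lit 2, nat_lit 0x12, nat_lit 0x13, nat_lit 4, nat_lit 0x47⟩ (t14_2863) (t14_11055)) (.node ⟨nat_lit 8, nat_lit 0x20002000c000c0, nat_lit 0x10011022, nat_lit 0, nat_lit 3, nat_lit 0x47⟩ (t14_6959) (t14_15151)))) (.node ⟨nat_lit 3, nat_lit 6, nat_lit 0x210, nat_lit 0xd, nat_lit 4, nat_lit 0x47⟩ (.node ⟨nat_lit 7, nat_lit 0x200020004000440060, nat_lit 0x2021101, nat_lit 1, nat_lit 4, nat_lit 0x48⟩ (.node ⟨nat_lit 3, nat_lit 4, nat_lit 0x12, nat_lit 7, nat_lit 4, nat_lit 0x45⟩ (t14_1839) (t14_10031)) (.node ⟨nat_lit 7, nat_lit 0x200020004000440060, nat_lit 0x2021102, nat_lit 0, nat_lit 4, nat_lit 0x48⟩ (t14_5935) (t14_14127))) (.node ⟨nat_lit 5, nat_lit 0x1000100010, nat_lit 0x1210, nat_lit 8, nat_lit 4, nat_lit 0x48⟩ (.node ⟨nat_lit 6, nat_lit 0x300038, nat_lit 0x1003, nat_lit 0, nat_lit 4,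 nat_lit 0x45⟩ (t14_3887) (t14_12079)) (.node ⟨nat_lit 5, nat_lit 0x100018, nat_lit 0x1122, nat_lit 4, nat_lit 4, nat_lit 0x47⟩ (t14_7983) (.nil)))))
def t14_175 : Tr := .node ⟨nat_lit 6, nat_lit 0x1800280030, nat_lit 0x111122, nat_lit 2, nat_lit 4, nat_lit 0x47⟩ (.nil) (.nil)
def t14_8367 : Tr := .node ⟨nat_lit 7, nat_lit 0x40001000100060, nat_lit 0x2101003, nat_lit 0, nat_lit 3, nat_lit 0x47⟩ (.nil) (.nil)
def t14_4271 : Tr := .node ⟨nat_lit 6, nat_lit 0x80030, nat_lit 0x200210, nat_lit 1, nat_lit 4, nat_lit 0x48⟩ (.nil) (.nil)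
def t14_12463 : Tr := .node ⟨nat_lit 8, nat_lit 0x8000c000c800c8, nat_lit 0x10110310, nat_lit 0, nat_lit 4, nat_lit 0x48⟩ (.nil) (.nil)
def t14_2223 : Tr := .node ⟨nat_lit 7, nat_lit 0x400040002000200060, nat_lit 0x20221, nat_lit 2, nat_lit 4, nat_lit 0x48⟩ (.nil) (.nil)
def t14_10415 : Tr := .node ⟨nat_lit 8, nat_lit 0x4000c000a000c8, nat_lit 0x1011202, nat_lit 1, nat_lit 4, nat_lit 0x48⟩ (.nil) (.nil)
def t14_6319 : Tr := .node ⟨nat_lit 5, nat_lit 0x800100018, nat_lit 0x1012, nat_lit 5, nat_lit 4, nat_lit 0x46⟩ (.nil) (.nil)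
def t14_14511 : Tr := .node ⟨nat_lit 8, nat_lit 0x80001000a000c0, nat_lit 0x1012101, nat_lit 2, nat_lit 4, nat_lit 0x49⟩ (.nil) (.nil)
def t14_1199 : Tr := .node ⟨nat_lit 6, nat_lit 0x200022, nat_lit 0x110020, nat_lit 0, nat_lit 4, nat_lit 0x48⟩ (.nil) (.nil)
def t14_9391 : Tr := .node ⟨nat_lit 7, nat_lit 0x10001000100060, nat_lit 0x2002102, nat_lit 1, nat_lit 3, nat_lit 0x47⟩ (.nil) (.nil)
def t14_5295 : Tr := .node ⟨nat_lit 6, nat_lit 0x300030, nat_lit 0x111120, nat_lit 5, nat_lit 4, nat_lit 0x49⟩ (.nil) (.nil)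
def t14_13487 : Tr := .node ⟨nat_lit 8, nat_lit 0x800080002000200040, nat_lit 0x10003, nat_lit 0, nat_lit 4, nat_lit 0x48⟩ (.nil) (.nil)
def t14_3247 : Tr := .node ⟨nat_lit 8, nat_lit 0x200020008000a000c0, nat_lit 0x1020112, nat_lit 0, nat_lit 4, nat_lit 0x48⟩ (.nil) (.nil)
def t14_11439 : Tr := .node ⟨nat_lit 6, nat_lit 0x300030, nat_lit 0x111100, nat_lit 0, nat_lit 4, nat_lit 0x47⟩ (.nil) (.nil)
def t14_7343 : Tr := .node ⟨nat_lit 6, nat_lit 0x2000200020, nat_lit 0x21000, nat_lit 0, nat_lit 3, nat_lit 0x47⟩ (.nil) (.nil)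
def t14_15535 : Tr := .node ⟨nat_lit 7, nat_lit 0x40, nat_lit 0x211110, nat_lit 7, nat_lit 4, nat_lit 0x4d⟩ (.nil) (.nil)
def t14_687 : Tr := .node ⟨nat_lit 5, nat_lit 0x1000080014, nat_lit 0x230, nat_lit 2, nat_lit 4, nat_lit 0x45⟩ (.nil) (.nil)
def t14_8879 : Tr := .node ⟨nat_lit 7, nat_lit 0x4000440060, nat_lit 0x111220, nat_lit 2, nat_lit 4, nat_lit 0x49⟩ (.nil) (.nil)
def t14_4783 : Tr := .node ⟨nat_lit 6, nat_lit 0x800280030, nat_lit 0x21120, nat_lit 6, nat_lit 4, nat_lit 0x48⟩ (.nil) (.nil)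
def t14_12975 : Tr := .node ⟨nat_lit 7, nat_lit 0x20001000500068, nat_lit 0x3021, nat_lit 0, nat_lit 4, nat_lit 0x46⟩ (.nil) (.nil)
def t14_2735 : Tr := .node ⟨nat_lit 6, nat_lit 0x2000300030, nat_lit 0x2220, nat_lit 2, nat_lit 4, nat_lit 0x47⟩ (.nil) (.nil)
def t14_10927 : Tr := .node ⟨nat_lit 8, nat_lit 0x80004000a000c000e000d0, nat_lit 0x121201, nat_lit 2, nat_lit 4, nat_lit 0x46⟩ (.nil) (.nil)
def t14_6831 : Tr := .node ⟨nat_lit 6, nat_lit 0x200032, nat_lit 0x11132, nat_lit 1, nat_lit 4, nat_lit 0x48⟩ (.nil) (.nil)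
def t14_15023 : Tr := .node ⟨nat_lit 9, nat_lit 0x1000100010001100110, nat_lit 0x11111011, nat_lit 0, nat_lit 4, nat_lit 0x4b⟩ (.nil) (.nil)
def t14_1711 : Tr := .node ⟨nat_lit 7, nat_lit 0x40004000200020, nat_lit 0x1001111, nat_lit 0, nat_lit 3, nat_lit 0x47⟩ (.nil) (.nil)
def t14_9903 : Tr := .node ⟨nat_lit 5, nat_lit 0x1800180018, nat_lit 0x420, nat_lit 8, nat_lit 4, nat_lit 0x46⟩ (.nil) (.nil)
def t14_5807 : Tr := .node ⟨nat_lit 4, nat_lit 0x40008, nat_lit 0x1031, nat_lit 9, nat_lit 4, nat_lit 0x47⟩ (.nil) (.nil)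
def t14_13999 : Tr := .node ⟨nat_lit 7, nat_lit 0x20001000100040, nat_lit 0x1002210, nat_lit 1, nat_lit 4, nat_lit 0x48⟩ (.nil) (.nil)
def t14_3759 : Tr := .node ⟨nat_lit 7, nat_lit 0x400020002000500068, nat_lit 0x12200, nat_lit 0, nat_lit 4, nat_lit 0x46⟩ (.nil) (.nil)
def t14_11951 : Tr := .node ⟨nat_lit 6, nat_lit 0x200010, nat_lit 0x1103, nat_lit 4, nat_lit 4, nat_lit 0x49⟩ (.nil) (.nil)
def t14_7855 : Tr := .node ⟨nat_lit 6, nat_lit 0x10002000200024, nat_lit 0x111, nat_lit 7, nat_lit 4, nat_lit 0x47⟩ (.nil) (.nil)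
def t9_175 : Tr := .node ⟨nat_lit 5, nat_lit 0, nat_lit 0x33111, nat_lit 1, nat_lit 4, nat_lit 0x4b⟩ (.node ⟨nat_lit 6, nat_lit 0x1000280034, nat_lit 0x130112, nat_lit 3, nat_lit 4, nat_lit 0x48⟩ (.node ⟨nat_lit 6, nat_lit 0x300028, nat_lit 0x300, nat_lit 0, nat_lit 4, nat_lit 0x46⟩ (.node ⟨nat_lit 5, nat_lit 0x100018, nat_lit 0x210, nat_lit 4, nat_lit 4, nat_lit 0x46⟩ (.node ⟨nat_lit 8, nat_lit 0x800080004000880090, nat_lit 0x2111210, nat_lit 0, nat_lit 4, nat_lit 0x49⟩ (t14_175) (t14_8367)) (.node ⟨nat_lit 7, nat_lit 0x10004000200070, nat_lit 0x100303, nat_lit 1, nat_lit 4, nat_lit 0x47⟩ (t14_4271) (t14_12463))) (.node ⟨nat_lit 6, nat_lit 0x100020, nat_lit 0x122230, nat_lit 0, nat_lit 4, nat_lit 0x4b⟩ (.node ⟨nat_lit 7, nat_lit 0x40002000480060, nat_lit 0x102113, nat_lit 0, nat_lit 4, nat_lit 0x48⟩ (t14_2223) (t14_10415)) (.node ⟨nat_lit 4, nat_lit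 0x40008, nat_lit 0x1032, nat_lit 4, nat_lit 4, nat_lit 0x46⟩ (t14_6319) (t14_14511)))) (.node ⟨nat_lit 6, nat_lit 0x20, nat_lit 0x211111, nat_lit 0, nat_lit 4, nat_lit 0x4a⟩ (.node ⟨nat_lit 6, nat_lit 0x280030, nat_lit 0x210121, nat_lit 1, nat_lit 4, nat_lit 0x48⟩ (.node ⟨nat_lit 4, nat_lit 0xc, nat_lit 0x4110, nat_lit 0, nat_lit 3, nat_lit 0x47⟩ (t14_1199) (t14_9391)) (.node ⟨nat_lit 7, nat_lit 0x3000500060, nat_lit 0x1102212, nat_lit 0, nat_lit 4, nat_lit 0x48⟩ (t14_5295) (t14_13487))) (.node ⟨nat_lit 5, nat_lit 0x100018, nat_lit 0x10120, nat_lit 1, nat_lit 4, nat_lit 0x46⟩ (.node ⟨nat_lit 7, nat_lit 0x4000100060, nat_lit 0x1011001, nat_lit 0, nat_lit 4, nat_lit 0x48⟩ (t14_3247) (t14_11439)) (.node ⟨nat_lit 6, nat_lit 0x1000200030, nat_lit 0x101011, nat_lit 2, nat_lit 4, nat_lit 0x47⟩ (t14_7343) (t14_15535))))) (.node ⟨nat_lit 7, nat_lit 0x400060,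 nat_lit 0x311102, nat_lit 0, nat_lit 4, nat_lit 0x4b⟩ (.node ⟨nat_lit 6, nat_lit 0x80030, nat_lit 0x201112, nat_lit 0, nat_lit 4, nat_lit 0x48⟩ (.node ⟨nat_lit 6, nat_lit 0x10001000200022, nat_lit 0x201000, nat_lit 1, nat_lit 4, nat_lit 0x46⟩ (.node ⟨nat_lit 7, nat_lit 0x20004000400010, nat_lit 0x122000, nat_lit 1, nat_lit 4, nat_lit 0x49⟩ (t14_687) (t14_8879)) (.node ⟨nat_lit 7, nat_lit 0x20003000500068, nat_lit 0x102030, nat_lit 0, nat_lit 4, nat_lit 0x46⟩ (t14_4783) (t14_12975))) (.node ⟨nat_lit 6, nat_lit 0x800200030, nat_lit 0x10021, nat_lit 1, nat_lit 4, nat_lit 0x46⟩ (.node ⟨nat_lit 6, nat_lit 0x2000100010, nat_lit 0x10230, nat_lit 0, nat_lit 4, nat_lit 0x48⟩ (t14_2735) (t14_10927)) (.node ⟨nat_lit 7, nat_lit 0x1000500060, nat_lit 0x1101102, nat_lit 0, nat_lit 4, nat_lit 0x48⟩ (t14_6831) (t14_15023)))) (.node ⟨nat_lit 5, nat_lit 0x100012,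 nat_lit 0x11122, nat_lit 3, nat_lit 4, nat_lit 0x48⟩ (.node ⟨nat_lit 5, nat_lit 0x100018, nat_lit 0x2231, nat_lit 0, nat_lit 3, nat_lit 0x46⟩ (.node ⟨nat_lit 4, nat_lit 0x80008, nat_lit 0x100, nat_lit 3, nat_lit 4, nat_lit 0x44⟩ (t14_1711) (t14_9903)) (.node ⟨nat_lit 6, nat_lit 0x2000080030, nat_lit 0x2023, nat_lit 0, nat_lit 4, nat_lit 0x47⟩ (t14_5807) (t14_13999))) (.node ⟨nat_lit 6, nat_lit 0x1000280030, nat_lit 0x200222, nat_lit 1, nat_lit 4, nat_lit 0x47⟩ (.node ⟨nat_lit 7, nat_lit 0x2000600050, nat_lit 0x21003, nat_lit 0, nat_lit 4, nat_lit 0x48⟩ (t14_3759) (t14_11951)) (.node ⟨nat_lit 8, nat_lit 0x80002000c000d000d0, nat_lit 0x11101121, nat_lit 0, nat_lit 4, nat_lit 0x47⟩ (t14_7855) (.nil)))))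
def t14_431 : Tr := .node ⟨nat_lit 7, nat_lit 0x10002000200040, nat_lit 0x1111101, nat_lit 5, nat_lit 4, nat_lit 0x4a⟩ (.nil) (.nil)
def t14_8623 : Tr := .node ⟨nat_lit 8, nat_lit 0x2000800040004000c4, nat_lit 0x2100, nat_lit 0, nat_lit 4, nat_lit 0x47⟩ (.nil) (.nil)
def t14_4527 : Tr := .node ⟨nat_lit 8, nat_lit 0x400080, nat_lit 0x11111101, nat_lit 3, nat_lit 4, nat_lit 0x4d⟩ (.nil) (.nil)
def t14_12719 : Tr := .node ⟨nat_lit 6, nat_lit 0x280030, nat_lit 0x110102, nat_lit 3, nat_lit 4, nat_lit 0x48⟩ (.nil) (.nil)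
def t14_2479 : Tr := .node ⟨nat_lit 8, nat_lit 0x2000c000c000a0, nat_lit 0x112210, nat_lit 0, nat_lit 4, nat_lit 0x48⟩ (.nil) (.nil)
def t14_10671 : Tr := .node ⟨nat_lit 6, nat_lit 0x800200032, nat_lit 0x10000, nat_lit 0, nat_lit 4, nat_lit 0x44⟩ (.nil) (.nil)
def t14_6575 : Tr := .node ⟨nat_lit 6, nat_lit 0x2000200010, nat_lit 0x11201, nat_lit 6, nat_lit 4, nat_lit 0x49⟩ (.nil) (.nil)
def t14_14767 : Tr := .node ⟨nat_lit 7, nat_lit 0x40001000600050, nat_lit 0x11212, nat_lit 3, nat_lit 4, nat_lit 0x48⟩ (.nil) (.nil)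
def t14_1455 : Tr := .node ⟨nat_lit 9, nat_lit 0x8001000100010000400110, nat_lit 0x1021011, nat_lit 1, nat_lit 4, nat_lit 0x4a⟩ (.nil) (.nil)
def t14_9647 : Tr := .node ⟨nat_lit 6, nat_lit 0x1000200020, nat_lit 0x1320, nat_lit 0, nat_lit 3, nat_lit 0x46⟩ (.nil) (.nil)
def t14_5551 : Tr := .node ⟨nat_lit 7, nat_lit 0x4000400040, nat_lit 0x111310, nat_lit 3, nat_lit 4, nat_lit 0x4b⟩ (.nil) (.nil)
def t14_13743 : Tr := .node ⟨nat_lit 7, nat_lit 0x20004000500064, nat_lit 0x200, nat_lit 5, nat_lit 4, nat_lit 0x47⟩ (.nil) (.nil)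
def t14_3503 : Tr := .node ⟨nat_lit 7, nat_lit 0x6000500070, nat_lit 0x11210, nat_lit 0, nat_lit 4, nat_lit 0x46⟩ (.nil) (.nil)
def t14_11695 : Tr := .node ⟨nat_lit 6, nat_lit 0x3000300030, nat_lit 0x1110, nat_lit 0, nat_lit 3, nat_lit 0x44⟩ (.nil) (.nil)
def t14_7599 : Tr := .node ⟨nat_lit 7, nat_lit 0x40002000500060, nat_lit 0x1031, nat_lit 0, nat_lit 4, nat_lit 0x46⟩ (.nil) (.nil)
def t14_943 : Tr := .node ⟨nat_lit 5, nat_lit 0x100010, nat_lit 0x12211, nat_lit 5, nat_lit 3, nat_lit 0x48⟩ (.nil) (.nil)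
def t14_9135 : Tr := .node ⟨nat_lit 6, nat_lit 0x10001000200030, nat_lit 0x12200, nat_lit 2, nat_lit 3, nat_lit 0x46⟩ (.nil) (.nil)
def t14_5039 : Tr := .node ⟨nat_lit 8, nat_lit 0x4000c000a000a0, nat_lit 0x110131, nat_lit 0, nat_lit 4, nat_lit 0x48⟩ (.nil) (.nil)
def t14_13231 : Tr := .node ⟨nat_lit 8, nat_lit 0x40004000a000c8, nat_lit 0x110030, nat_lit 0, nat_lit 4, nat_lit 0x48⟩ (.nil) (.nil)
def t14_2991 : Tr := .node ⟨nat_lit 7, nat_lit 0x20002000500068, nat_lit 0x100120, nat_lit 0, nat_lit 4, nat_lit 0x46⟩ (.nil) (.nil)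
def t14_11183 : Tr := .node ⟨nat_lit 6, nat_lit 0x800300030, nat_lit 0x102020, nat_lit 2, nat_lit 4, nat_lit 0x47⟩ (.nil) (.nil)
def t14_7087 : Tr := .node ⟨nat_lit 7, nat_lit 0x20005000600060, nat_lit 0x111211, nat_lit 1, nat_lit 4, nat_lit 0x47⟩ (.nil) (.nil)
def t14_15279 : Tr := .node ⟨nat_lit 6, nat_lit 0x10002000240030, nat_lit 0x100202, nat_lit 4, nat_lit 4, nat_lit 0x47⟩ (.nil) (.nil)
def t14_1967 : Tr := .node ⟨nat_lit 5, nat_lit 0x800100018, nat_lit 0x2212, nat_lit 3, nat_lit 4, nat_lit 0x47⟩ (.nil) (.nil)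
def t14_10159 : Tr := .node ⟨nat_lit 7, nat_lit 0x20004000600064, nat_lit 0x1000, nat_lit 0, nat_lit 4, nat_lit 0x45⟩ (.nil) (.nil)
def t14_6063 : Tr := .node ⟨nat_lit 8, nat_lit 0x80008000c000c8, nat_lit 0x1111020, nat_lit 1, nat_lit 4, nat_lit 0x49⟩ (.nil) (.nil)
def t14_14255 : Tr := .node ⟨nat_lit 8, nat_lit 0x4000400080008800c800e0, nat_lit 0x10110002, nat_lit 1, nat_lit 4, nat_lit 0x46⟩ (.nil) (.nil)
def t14_4015 : Tr := .node ⟨nat_lit 7, nat_lit 0x40001000680058, nat_lit 0x1001011, nat_lit 2, nat_lit 4, nat_lit 0x46⟩ (.nil) (.nil)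
def t14_12207 : Tr := .node ⟨nat_lit 7, nat_lit 0x40006000500068, nat_lit 0x111021, nat_lit 3, nat_lit 4, nat_lit 0x47⟩ (.nil) (.nil)
def t14_8111 : Tr := .node ⟨nat_lit 7, nat_lit 0x400020002000280050, nat_lit 0x1001040, nat_lit 1, nat_lit 4, nat_lit 0x47⟩ (.nil) (.nil)
def t9_431 : Tr := .node ⟨nat_lit 5, nat_lit 0x18, nat_lit 0x21312, nat_lit 4, nat_lit 4, nat_lit 0x4a⟩ (.node ⟨nat_lit 5, nat_lit 0, nat_lit 0x32211, nat_lit 2, nat_lit 3, nat_lit 0x4a⟩ (.node ⟨nat_lit 5, nat_lit 0x40018, nat_lit 0x20202, nat_lit 2, nat_lit 4, nat_lit 0x47⟩ (.node ⟨nat_lit 5, nat_lit 0x40018, nat_lit 0x10123, nat_lit 1, nat_lit 4, nat_lit 0x46⟩ (.node ⟨nat_lit 7, nat_lit 0x1000600060, nat_lit 0x21120, nat_lit 0, nat_lit 4, nat_lit 0x48⟩ (t14_431) (t14_8623)) (.node ⟨nat_lit 7, nat_lit 0x40004800300060, nat_lit 0x1120022, nat_lit 1, nat_lit 4, nat_lit 0x48⟩ (t14_4527)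 (t14_12719))) (.node ⟨nat_lit 6, nat_lit 0x80030, nat_lit 0x200101, nat_lit 2, nat_lit 3, nat_lit 0x47⟩ (.node ⟨nat_lit 7, nat_lit 0x40002000100070, nat_lit 0x111103, nat_lit 1, nat_lit 4, nat_lit 0x47⟩ (t14_2479) (t14_10671)) (.node ⟨nat_lit 5, nat_lit 0x800100018, nat_lit 0x10321, nat_lit 2, nat_lit 3, nat_lit 0x45⟩ (t14_6575) (t14_14767)))) (.node ⟨nat_lit 5, nat_lit 0x18, nat_lit 0x211, nat_lit 1, nat_lit 4, nat_lit 0x46⟩ (.node ⟨nat_lit 7, nat_lit 0x40004000100060, nat_lit 0x122111, nat_lit 1, nat_lit 4, nat_lit 0x49⟩ (.node ⟨nat_lit 6, nat_lit 0x2000100010, nat_lit 0x1110, nat_lit 0, nat_lit 4, nat_lit 0x46⟩ (t14_1455) (t14_9647)) (.node ⟨nat_lit 6, nat_lit 0x20002000100028, nat_lit 0x112101, nat_lit 7, nat_lit 4, nat_lit 0x49⟩ (t14_5551) (t14_13743))) (.node ⟨nat_lit 5, nat_lit 0x10001a, nat_lit 0x1122, nat_lit 3, nat_lit 4, nat_lit 0x46⟩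 (.node ⟨nat_lit 4, nat_lit 0xc000c, nat_lit 0x1030, nat_lit 7, nat_lit 3, nat_lit 0x44⟩ (t14_3503) (t14_11695)) (.node ⟨nat_lit 6, nat_lit 0x1000200020, nat_lit 0x111211, nat_lit 2, nat_lit 4, nat_lit 0x49⟩ (t14_7599) (.nil))))) (.node ⟨nat_lit 6, nat_lit 0x80030, nat_lit 0x200321, nat_lit 1, nat_lit 4, nat_lit 0x49⟩ (.node ⟨nat_lit 4, nat_lit 0xc, nat_lit 0x2221, nat_lit 4, nat_lit 3, nat_lit 0x47⟩ (.node ⟨nat_lit 7, nat_lit 0x40001000680070, nat_lit 0x1101012, nat_lit 1, nat_lit 4, nat_lit 0x46⟩ (.node ⟨nat_lit 2, nat_lit 2, nat_lit 0x14, nat_lit 0x11, nat_lit 4, nat_lit 0x47⟩ (t14_943) (t14_9135)) (.node ⟨nat_lit 7, nat_lit 0x4000400044, nat_lit 0x1222100, nat_lit 1, nat_lit 4, nat_lit 0x4b⟩ (t14_5039) (t14_13231))) (.node ⟨nat_lit 6, nat_lit 0x1000200030, nat_lit 0x111220, nat_lit 0, nat_lit 4, nat_lit 0x48⟩ (.node ⟨nat_lit 6, nat_lit 0x100020,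 nat_lit 0x111120, nat_lit 5, nat_lit 4, nat_lit 0x4a⟩ (t14_2991) (t14_11183)) (.node ⟨nat_lit 8, nat_lit 0x20001000a000c0, nat_lit 0x11010122, nat_lit 0, nat_lit 4, nat_lit 0x49⟩ (t14_7087) (t14_15279)))) (.node ⟨nat_lit 6, nat_lit 0x2000080030, nat_lit 0x12102, nat_lit 0, nat_lit 4, nat_lit 0x47⟩ (.node ⟨nat_lit 6, nat_lit 0x2000200010, nat_lit 0x102110, nat_lit 1, nat_lit 3, nat_lit 0x47⟩ (.node ⟨nat_lit 7, nat_lit 0x800400070, nat_lit 0x1100013, nat_lit 2, nat_lit 4, nat_lit 0x48⟩ (t14_1967) (t14_10159)) (.node ⟨nat_lit 7, nat_lit 0x20002000400060, nat_lit 0x22010, nat_lit 1, nat_lit 4, nat_lit 0x48⟩ (t14_6063) (t14_14255))) (.node ⟨nat_lit 7, nat_lit 0x40002000200060, nat_lit 0x20111, nat_lit 2, nat_lit 4, nat_lit 0x48⟩ (.node ⟨nat_lit 6, nat_lit 0x200030, nat_lit 0x1000, nat_lit 1, nat_lit 4, nat_lit 0x46⟩ (t14_4015) (t14_12207)) (.node ⟨nat_lit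 9, nat_lit 0x100010001000080008000880140, nat_lit 0x11111101, nat_lit 0, nat_lit 4, nat_lit 0x49⟩ (t14_8111) (.nil)))))
def t14_111 : Tr := .node ⟨nat_lit 7, nat_lit 0x20004000440030, nat_lit 0x2111201, nat_lit 0, nat_lit 4, nat_lit 0x49⟩ (.nil) (.nil)
def t14_8303 : Tr := .node ⟨nat_lit 7, nat_lit 0x40001000100060, nat_lit 0x2210, nat_lit 0, nat_lit 4, nat_lit 0x47⟩ (.nil) (.nil)
def t14_4207 : Tr := .node ⟨nat_lit 8, nat_lit 0x4000400080008000880060, nat_lit 0x10121111, nat_lit 1, nat_lit 4, nat_lit 0x48⟩ (.nil) (.nil)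
def t14_12399 : Tr := .node ⟨nat_lit 8, nat_lit 0x400040008000d000e0, nat_lit 0x101103, nat_lit 2, nat_lit 4, nat_lit 0x47⟩ (.nil) (.nil)
def t14_2159 : Tr := .node ⟨nat_lit 8, nat_lit 0x8000400020009000c0, nat_lit 0x121020, nat_lit 1, nat_lit 4, nat_lit 0x48⟩ (.nil) (.nil)
def t14_10351 : Tr := .node ⟨nat_lit 8, nat_lit 0x800020009000c000d0, nat_lit 0x120002, nat_lit 0, nat_lit 4, nat_lit 0x47⟩ (.nil) (.nil)
def t14_6255 : Tr := .node ⟨nat_lit 6, nat_lit 0x200030, nat_lit 0x111111, nat_lit 3, nat_lit 4, nat_lit 0x49⟩ (.nil) (.nil)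
def t14_14447 : Tr := .node ⟨nat_lit 9, nat_lit 0x1000100004000400180, nat_lit 0x121100, nat_lit 2, nat_lit 4, nat_lit 0x4a⟩ (.nil) (.nil)
def t14_1135 : Tr := .node ⟨nat_lit 6, nat_lit 0x80030, nat_lit 0x110121, nat_lit 2, nat_lit 4, nat_lit 0x48⟩ (.nil) (.nil)
def t14_9327 : Tr := .node ⟨nat_lit 7, nat_lit 0x400050005000500060, nat_lit 0x112101, nat_lit 2, nat_lit 4, nat_lit 0x47⟩ (.nil) (.nil)
def t14_5231 : Tr := .node ⟨nat_lit 7, nat_lit 0x400040002000200058, nat_lit 0x20201, nat_lit 0, nat_lit 4, nat_lit 0x46⟩ (.nil) (.nil)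
def t14_13423 : Tr := .node ⟨nat_lit 7, nat_lit 0x40001000480060, nat_lit 0x2400, nat_lit 0, nat_lit 4, nat_lit 0x47⟩ (.nil) (.nil)
def t14_3183 : Tr := .node ⟨nat_lit 7, nat_lit 0x20005000680070, nat_lit 0x112211, nat_lit 0, nat_lit 4, nat_lit 0x46⟩ (.nil) (.nil)
def t14_11375 : Tr := .node ⟨nat_lit 7, nat_lit 0x2000100040, nat_lit 0x1000011, nat_lit 0, nat_lit 3, nat_lit 0x47⟩ (.nil) (.nil)
def t14_7279 : Tr := .node ⟨nat_lit 6, nat_lit 0x2000240018, nat_lit 0x21211, nat_lit 1, nat_lit 4, nat_lit 0x47⟩ (.nil) (.nil)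
def t14_15471 : Tr := .node ⟨nat_lit 0xc, nat_lit 0x80004000200010000800040, nat_lit 0, nat_lit 7, nat_lit 4, nat_lit 0x4d⟩ (.nil) (.nil)
def t14_623 : Tr := .node ⟨nat_lit 7, nat_lit 0x400040004000200020, nat_lit 0x21022, nat_lit 1, nat_lit 4, nat_lit 0x48⟩ (.nil) (.nil)
def t14_8815 : Tr := .node ⟨nat_lit 4, nat_lit 0x8000a, nat_lit 0x1224, nat_lit 5, nat_lit 4, nat_lit 0x48⟩ (.nil) (.nil)
def t14_4719 : Tr := .node ⟨nat_lit 7, nat_lit 0x40001000200060, nat_lit 0x1010202, nat_lit 0, nat_lit 4, nat_lit 0x48⟩ (.nil) (.nil)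
def t14_12911 : Tr := .node ⟨nat_lit 8, nat_lit 0x4000800060009000e000d0, nat_lit 0x1120001, nat_lit 0, nat_lit 4, nat_lit 0x46⟩ (.nil) (.nil)
def t14_2671 : Tr := .node ⟨nat_lit 5, nat_lit 0x1000080018, nat_lit 0x1401, nat_lit 1, nat_lit 3, nat_lit 0x45⟩ (.nil) (.nil)
def t14_10863 : Tr := .node ⟨nat_lit 9, nat_lit 0x100010000800080014001400180, nat_lit 0x20102, nat_lit 3, nat_lit 4, nat_lit 0x48⟩ (.nil) (.nil)
def t14_6767 : Tr := .node ⟨nat_lit 6, nat_lit 0x1000200032, nat_lit 0x101000, nat_lit 5, nat_lit 4, nat_lit 0x47⟩ (.nil) (.nil)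
def t14_14959 : Tr := .node ⟨nat_lit 9, nat_lit 0x8001000100010000400110, nat_lit 0x11101, nat_lit 1, nat_lit 4, nat_lit 0x49⟩ (.nil) (.nil)
def t14_1647 : Tr := .node ⟨nat_lit 7, nat_lit 0x40002000600064, nat_lit 0x12220, nat_lit 1, nat_lit 4, nat_lit 0x47⟩ (.nil) (.nil)
def t14_9839 : Tr := .node ⟨nat_lit 9, nat_lit 0x20012001400180, nat_lit 0x10010202, nat_lit 0, nat_lit 4, nat_lit 0x49⟩ (.nil) (.nil)
def t14_5743 : Tr := .node ⟨nat_lit 8, nat_lit 0x40004000800080, nat_lit 0x112200, nat_lit 1, nat_lit 4, nat_lit 0x4a⟩ (.nil) (.nil)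
def t14_13935 : Tr := .node ⟨nat_lit 6, nat_lit 0x2000200030, nat_lit 0x101102, nat_lit 0, nat_lit 3, nat_lit 0x46⟩ (.nil) (.nil)
def t14_3695 : Tr := .node ⟨nat_lit 6, nat_lit 0x2000100030, nat_lit 0x2031, nat_lit 4, nat_lit 4, nat_lit 0x48⟩ (.nil) (.nil)
def t14_11887 : Tr := .node ⟨nat_lit 3, nat_lit 6, nat_lit 0x404, nat_lit 2, nat_lit 3, nat_lit 0x45⟩ (.nil) (.nil)
def t14_7791 : Tr := .node ⟨nat_lit 4, nat_lit 0x800080008, nat_lit 0x110, nat_lit 5, nat_lit 3, nat_lit 0x44⟩ (.nil) (.nil)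
def t9_111 : Tr := .node ⟨nat_lit 6, nat_lit 0x1000100020, nat_lit 0x111111, nat_lit 0, nat_lit 3, nat_lit 0x47⟩ (.node ⟨nat_lit 6, nat_lit 0x1000200022, nat_lit 0x103022, nat_lit 3, nat_lit 4, nat_lit 0x49⟩ (.node ⟨nat_lit 7, nat_lit 0x200040004800680068, nat_lit 0x3020110, nat_lit 1, nat_lit 4, nat_lit 0x47⟩ (.node ⟨nat_lit 7, nat_lit 0x4000100060, nat_lit 0x1012011, nat_lit 1, nat_lit 4, nat_lit 0x49⟩ (.node ⟨nat_lit 7, nat_lit 0x40002000100060, nat_lit 0x20222, nat_lit 0, nat_lit 4, nat_lit 0x48⟩ (t14_111) (t14_8303)) (.node ⟨nat_lit 7, nat_lit 0x3000500060, nat_lit 0x2200, nat_lit 0, nat_lit 4, nat_lit 0x46⟩ (t14_4207) (t14_12399))) (.node ⟨nat_lit 7, nat_lit 0x1000500060, nat_lit 0x1102011, nat_lit 0, nat_lit 4, nat_lit 0x48⟩ (.node ⟨nat_lit 7, nat_lit 0x40003000500060, nat_lit 0x110312, nat_lit 0, nat_lit 3, nat_lit 0x45⟩ (t14_2159) (t14_10351))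 (.node ⟨nat_lit 7, nat_lit 0x40004000400020, nat_lit 0x122201, nat_lit 2, nat_lit 4, nat_lit 0x4a⟩ (t14_6255) (t14_14447)))) (.node ⟨nat_lit 5, nat_lit 0x80010, nat_lit 0x12122, nat_lit 0, nat_lit 3, nat_lit 0x47⟩ (.node ⟨nat_lit 4, nat_lit 0xc, nat_lit 0x2221, nat_lit 7, nat_lit 4, nat_lit 0x49⟩ (.node ⟨nat_lit 6, nat_lit 0x1000280030, nat_lit 0x11131, nat_lit 0, nat_lit 4, nat_lit 0x46⟩ (t14_1135) (t14_9327)) (.node ⟨nat_lit 6, nat_lit 0x300038, nat_lit 0x110212, nat_lit 3, nat_lit 4, nat_lit 0x48⟩ (t14_5231) (t14_13423))) (.node ⟨nat_lit 5, nat_lit 0x40018, nat_lit 0x21210, nat_lit 2, nat_lit 4, nat_lit 0x48⟩ (.node ⟨nat_lit 7, nat_lit 0x800500060, nat_lit 0x1021130, nat_lit 0, nat_lit 4, nat_lit 0x49⟩ (t14_3183) (t14_11375)) (.node ⟨nat_lit 4, nat_lit 0x8000c, nat_lit 0x1112, nat_lit 9, nat_lit 4, nat_lit 0x47⟩ (t14_7279) (t14_15471))))) (.node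 ⟨nat_lit 5, nat_lit 0x1000080014, nat_lit 0x3120, nat_lit 2, nat_lit 4, nat_lit 0x47⟩ (.node ⟨nat_lit 6, nat_lit 0x20001000100028, nat_lit 0x202102, nat_lit 2, nat_lit 4, nat_lit 0x48⟩ (.node ⟨nat_lit 4, nat_lit 0x40008, nat_lit 0x212, nat_lit 4, nat_lit 4, nat_lit 0x46⟩ (.node ⟨nat_lit 6, nat_lit 0x100020, nat_lit 0x211110, nat_lit 7, nat_lit 4, nat_lit 0x4b⟩ (t14_623) (t14_8815)) (.node ⟨nat_lit 7, nat_lit 0x20004000500064, nat_lit 0x1112211, nat_lit 0, nat_lit 4, nat_lit 0x48⟩ (t14_4719) (t14_12911))) (.node ⟨nat_lit 5, nat_lit 0x40018, nat_lit 0x111, nat_lit 2, nat_lit 4, nat_lit 0x45⟩ (.node ⟨nat_lit 4, nat_lit 0xe, nat_lit 0x2223, nat_lit 3, nat_lit 4, nat_lit 0x48⟩ (t14_2671) (t14_10863)) (.node ⟨nat_lit 6, nat_lit 0x20002000200038, nat_lit 0x11102, nat_lit 4, nat_lit 4, nat_lit 0x47⟩ (t14_6767) (t14_14959)))) (.node ⟨nat_lit 6, nat_lit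 0x200010, nat_lit 0x21031, nat_lit 0, nat_lit 4, nat_lit 0x49⟩ (.node ⟨nat_lit 6, nat_lit 0x2000080030, nat_lit 0x112011, nat_lit 1, nat_lit 3, nat_lit 0x47⟩ (.node ⟨nat_lit 6, nat_lit 0x800280030, nat_lit 0x111, nat_lit 0, nat_lit 4, nat_lit 0x44⟩ (t14_1647) (t14_9839)) (.node ⟨nat_lit 7, nat_lit 0x40004000100060, nat_lit 0x22020, nat_lit 3, nat_lit 4, nat_lit 0x49⟩ (t14_5743) (t14_13935))) (.node ⟨nat_lit 9, nat_lit 0x40002000100180, nat_lit 0x200010012, nat_lit 2, nat_lit 4, nat_lit 0x4b⟩ (.node ⟨nat_lit 6, nat_lit 0x1000200030, nat_lit 0x101020, nat_lit 0, nat_lit 4, nat_lit 0x47⟩ (t14_3695) (t14_11887)) (.node ⟨nat_lit 7, nat_lit 0x6000180018, nat_lit 0x1011121, nat_lit 1, nat_lit 4, nat_lit 0x48⟩ (t14_7791) (.nil)))))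
def t14_367 : Tr := .node ⟨nat_lit 7, nat_lit 0x1000180060, nat_lit 0x2110113, nat_lit 0, nat_lit 4, nat_lit 0x49⟩ (.nil) (.nil)
def t14_8559 : Tr := .node ⟨nat_lit 7, nat_lit 0x200040004800300060, nat_lit 0x10030, nat_lit 0, nat_lit 4, nat_lit 0x45⟩ (.nil) (.nil)
def t14_4463 : Tr := .node ⟨nat_lit 0xa, nat_lit 0x1000080002000400200, nat_lit 0x1001100101, nat_lit 2, nat_lit 4, nat_lit 0x4c⟩ (.nil) (.nil)
def t14_12655 : Tr := .node ⟨nat_lit 7, nat_lit 0x4000400060, nat_lit 0x11320, nat_lit 2, nat_lit 4, nat_lit 0x4a⟩ (.nil) (.nil)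
def t14_2415 : Tr := .node ⟨nat_lit 7, nat_lit 0x20005000600060, nat_lit 0x12210, nat_lit 3, nat_lit 4, nat_lit 0x47⟩ (.nil) (.nil)
def t14_10607 : Tr := .node ⟨nat_lit 5, nat_lit 0x18001c, nat_lit 0x32, nat_lit 3, nat_lit 4, nat_lit 0x44⟩ (.nil) (.nil)
def t14_6511 : Tr := .node ⟨nat_lit 7, nat_lit 0x40001000480068, nat_lit 0x1111101, nat_lit 2, nat_lit 4, nat_lit 0x48⟩ (.nil) (.nil)
def t14_14703 : Tr := .node ⟨nat_lit 9, nat_lit 0x100010000800090012001a001c0, nat_lit 0x1021011, nat_lit 1, nat_lit 4, nat_lit 0x46⟩ (.nil) (.nil)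
def t14_1391 : Tr := .node ⟨nat_lit 8, nat_lit 0x80009000c000600060, nat_lit 0x10010310, nat_lit 1, nat_lit 4, nat_lit 0x47⟩ (.nil) (.nil)
def t14_9583 : Tr := .node ⟨nat_lit 7, nat_lit 0x40002000600068, nat_lit 0x12120, nat_lit 2, nat_lit 4, nat_lit 0x47⟩ (.nil) (.nil)
def t14_5487 : Tr := .node ⟨nat_lit 5, nat_lit 0x100008, nat_lit 0x1141, nat_lit 2, nat_lit 4, nat_lit 0x48⟩ (.nil) (.nil)
def t14_13679 : Tr := .node ⟨nat_lit 7, nat_lit 0x800500060, nat_lit 0x102102, nat_lit 0, nat_lit 4, nat_lit 0x48⟩ (.nil) (.nil)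
def t14_3439 : Tr := .node ⟨nat_lit 7, nat_lit 0x4000100060, nat_lit 0x121001, nat_lit 0, nat_lit 4, nat_lit 0x49⟩ (.nil) (.nil)
def t14_11631 : Tr := .node ⟨nat_lit 8, nat_lit 0x40006000a000a000c0, nat_lit 0x3101, nat_lit 1, nat_lit 4, nat_lit 0x46⟩ (.nil) (.nil)
def t14_7535 : Tr := .node ⟨nat_lit 7, nat_lit 0x40002000100068, nat_lit 0x2001, nat_lit 1, nat_lit 4, nat_lit 0x46⟩ (.nil) (.nil)
def t14_879 : Tr := .node ⟨nat_lit 6, nat_lit 0x200030, nat_lit 0x11130, nat_lit 0, nat_lit 4, nat_lit 0x48⟩ (.nil) (.nil)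
def t14_9071 : Tr := .node ⟨nat_lit 7, nat_lit 0x6000180050, nat_lit 0x1121, nat_lit 0, nat_lit 4, nat_lit 0x46⟩ (.nil) (.nil)
def t14_4975 : Tr := .node ⟨nat_lit 7, nat_lit 0x20004000600064, nat_lit 0x1013110, nat_lit 1, nat_lit 4, nat_lit 0x48⟩ (.nil) (.nil)
def t14_13167 : Tr := .node ⟨nat_lit 7, nat_lit 0x20004000680070, nat_lit 0x1003, nat_lit 2, nat_lit 4, nat_lit 0x45⟩ (.nil) (.nil)
def t14_2927 : Tr := .node ⟨nat_lit 6, nat_lit 0x1000200030, nat_lit 0x1130, nat_lit 0, nat_lit 4, nat_lit 0x47⟩ (.nil) (.nil)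
def t14_11119 : Tr := .node ⟨nat_lit 6, nat_lit 0x800300030, nat_lit 0x1120, nat_lit 6, nat_lit 4, nat_lit 0x47⟩ (.nil) (.nil)
def t14_7023 : Tr := .node ⟨nat_lit 7, nat_lit 0x20004000400060, nat_lit 0x1011211, nat_lit 2, nat_lit 4, nat_lit 0x49⟩ (.nil) (.nil)
def t14_15215 : Tr := .node ⟨nat_lit 7, nat_lit 0x200040003000480068, nat_lit 0x111002, nat_lit 0, nat_lit 4, nat_lit 0x45⟩ (.nil) (.nil)
def t14_1903 : Tr := .node ⟨nat_lit 7, nat_lit 0x20002000600050, nat_lit 0x21012, nat_lit 0, nat_lit 4, nat_lit 0x47⟩ (.nil) (.nil)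
def t14_10095 : Tr := .node ⟨nat_lit 5, nat_lit 0x800100018, nat_lit 0x220, nat_lit 6, nat_lit 4, nat_lit 0x46⟩ (.nil) (.nil)
def t14_5999 : Tr := .node ⟨nat_lit 5, nat_lit 0x100018, nat_lit 0x12220, nat_lit 4, nat_lit 4, nat_lit 0x49⟩ (.nil) (.nil)
def t14_14191 : Tr := .node ⟨nat_lit 7, nat_lit 0x4000500060, nat_lit 0x111102, nat_lit 4, nat_lit 4, nat_lit 0x49⟩ (.nil) (.nil)
def t14_3951 : Tr := .node ⟨nat_lit 7, nat_lit 0x40004000200048, nat_lit 0x212010, nat_lit 0, nat_lit 4, nat_lit 0x49⟩ (.nil) (.nil)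
def t14_12143 : Tr := .node ⟨nat_lit 6, nat_lit 0x1000200030, nat_lit 0x101300, nat_lit 3, nat_lit 4, nat_lit 0x48⟩ (.nil) (.nil)
def t14_8047 : Tr := .node ⟨nat_lit 5, nat_lit 0x1000100014, nat_lit 0x2103, nat_lit 6, nat_lit 4, nat_lit 0x47⟩ (.nil) (.nil)
def t9_367 : Tr := .node ⟨nat_lit 4, nat_lit 0, nat_lit 0x3322, nat_lit 2, nat_lit 4, nat_lit 0x4b⟩ (.node ⟨nat_lit 6, nat_lit 0x2000100030, nat_lit 0x13103, nat_lit 1, nat_lit 4, nat_lit 0x48⟩ (.node ⟨nat_lit 3, nat_lit 0, nat_lit 0x221, nat_lit 3, nat_lit 4, nat_lit 0x46⟩ (.node ⟨nat_lit 6, nat_lit 0x2000100024, nat_lit 0x111220, nat_lit 0, nat_lit 4, nat_lit 0x48⟩ (.node ⟨nat_lit 7, nat_lit 0x10004000500064, nat_lit 0x200221, nat_lit 1, nat_lit 4, nat_lit 0x47⟩ (t14_367) (t14_8559)) (.node ⟨nat_lit 8, nat_lit 0x4000400080008000880060, nat_lit 0x11201101, nat_lit 1, nat_lit 4, nat_lit 0x49⟩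 (t14_4463) (t14_12655))) (.node ⟨nat_lit 4, nat_lit 0xc, nat_lit 0x2121, nat_lit 6, nat_lit 4, nat_lit 0x48⟩ (.node ⟨nat_lit 5, nat_lit 0x40018, nat_lit 0x11011, nat_lit 3, nat_lit 4, nat_lit 0x46⟩ (t14_2415) (t14_10607)) (.node ⟨nat_lit 7, nat_lit 0x400060, nat_lit 0x21130, nat_lit 0, nat_lit 4, nat_lit 0x4a⟩ (t14_6511) (t14_14703)))) (.node ⟨nat_lit 5, nat_lit 0x1000080014, nat_lit 0x21130, nat_lit 5, nat_lit 4, nat_lit 0x48⟩ (.node ⟨nat_lit 7, nat_lit 0x400020, nat_lit 0x222101, nat_lit 1, nat_lit 4, nat_lit 0x4c⟩ (.node ⟨nat_lit 5, nat_lit 0x1c, nat_lit 0x10013, nat_lit 3, nat_lit 4, nat_lit 0x46⟩ (t14_1391) (t14_9583)) (.node ⟨nat_lit 7, nat_lit 0x200020004000400064, nat_lit 0x1020211, nat_lit 3, nat_lit 4, nat_lit 0x48⟩ (t14_5487) (t14_13679))) (.node ⟨nat_lit 6, nat_lit 0x2000200034, nat_lit 0x131012, nat_lit 4, nat_lit 4, nat_lit 0x49⟩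 (.node ⟨nat_lit 4, nat_lit 0xc000c, nat_lit 0x1000, nat_lit 4, nat_lit 3, nat_lit 0x43⟩ (t14_3439) (t14_11631)) (.node ⟨nat_lit 6, nat_lit 0x200030, nat_lit 0x101111, nat_lit 1, nat_lit 3, nat_lit 0x47⟩ (t14_7535) (.nil))))) (.node ⟨nat_lit 6, nat_lit 0x200030, nat_lit 0x211131, nat_lit 0, nat_lit 4, nat_lit 0x4a⟩ (.node ⟨nat_lit 4, nat_lit 0, nat_lit 0x2221, nat_lit 2, nat_lit 4, nat_lit 0x49⟩ (.node ⟨nat_lit 6, nat_lit 0x2000100024, nat_lit 0x111211, nat_lit 1, nat_lit 4, nat_lit 0x48⟩ (.node ⟨nat_lit 5, nat_lit 0x100008, nat_lit 0x3121, nat_lit 1, nat_lit 4, nat_lit 0x48⟩ (t14_879) (t14_9071)) (.node ⟨nat_lit 6, nat_lit 0x280030, nat_lit 0x112202, nat_lit 1, nat_lit 4, nat_lit 0x49⟩ (t14_4975) (t14_13167))) (.node ⟨nat_lit 4, nat_lit 0x8000c, nat_lit 0x1222, nat_lit 5, nat_lit 4, nat_lit 0x47⟩ (.node ⟨nat_lit 6, nat_lit 0x2000100024, nat_lit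 0x111211, nat_lit 5, nat_lit 4, nat_lit 0x49⟩ (t14_2927) (t14_11119)) (.node ⟨nat_lit 9, nat_lit 0x8000800080010000a0010801c0, nat_lit 0x101012002, nat_lit 1, nat_lit 4, nat_lit 0x48⟩ (t14_7023) (t14_15215)))) (.node ⟨nat_lit 6, nat_lit 0x2000200010, nat_lit 0x2102, nat_lit 1, nat_lit 4, nat_lit 0x47⟩ (.node ⟨nat_lit 7, nat_lit 0x40005000680068, nat_lit 0x1120111, nat_lit 1, nat_lit 4, nat_lit 0x47⟩ (.node ⟨nat_lit 7, nat_lit 0x3000500060, nat_lit 0x1102113, nat_lit 0, nat_lit 4, nat_lit 0x48⟩ (t14_1903) (t14_10095)) (.node ⟨nat_lit 7, nat_lit 0x40001000600060, nat_lit 0x112020, nat_lit 1, nat_lit 4, nat_lit 0x48⟩ (t14_5999) (t14_14191))) (.node ⟨nat_lit 5, nat_lit 0x18, nat_lit 0x100, nat_lit 0, nat_lit 4, nat_lit 0x44⟩ (.node ⟨nat_lit 5, nat_lit 0x1000080008, nat_lit 0x20030, nat_lit 3, nat_lit 3, nat_lit 0x46⟩ (t14_3951) (t14_12143)) (.node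 ⟨nat_lit 7, nat_lit 0x10001000400060, nat_lit 0x1012221, nat_lit 0, nat_lit 4, nat_lit 0x49⟩ (t14_8047) (.nil)))))
def t14_239 : Tr := .node ⟨nat_lit 7, nat_lit 0x4000100060, nat_lit 0x112201, nat_lit 0, nat_lit 4, nat_lit 0x49⟩ (.nil) (.nil)
def t14_8431 : Tr := .node ⟨nat_lit 5, nat_lit 0x180014, nat_lit 1, nat_lit 4, nat_lit 4, nat_lit 0x44⟩ (.nil) (.nil)
def t14_4335 : Tr := .node ⟨nat_lit 6, nat_lit 0x1000280030, nat_lit 0x211102, nat_lit 1, nat_lit 4, nat_lit 0x48⟩ (.nil) (.nil)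
def t14_12527 : Tr := .node ⟨nat_lit 8, nat_lit 0x8000400090006000e0, nat_lit 0x10001003, nat_lit 3, nat_lit 4, nat_lit 0x47⟩ (.nil) (.nil)
def t14_2287 : Tr := .node ⟨nat_lit 5, nat_lit 0x1000080014, nat_lit 0x2201, nat_lit 5, nat_lit 4, nat_lit 0x47⟩ (.nil) (.nil)
def t14_10479 : Tr := .node ⟨nat_lit 7, nat_lit 0x10004000180060, nat_lit 0x1001020, nat_lit 0, nat_lit 4, nat_lit 0x46⟩ (.nil) (.nil)
def t14_6383 : Tr := .node ⟨nat_lit 5, nat_lit 0x1000080008, nat_lit 0x22, nat_lit 6, nat_lit 4, nat_lit 0x47⟩ (.nil) (.nil)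
def t14_14575 : Tr := .node ⟨nat_lit 6, nat_lit 0x10002000240030, nat_lit 0x1113, nat_lit 5, nat_lit 4, nat_lit 0x46⟩ (.nil) (.nil)
def t14_1263 : Tr := .node ⟨nat_lit 7, nat_lit 0x200040004800300060, nat_lit 0x1021102, nat_lit 2, nat_lit 4, nat_lit 0x47⟩ (.nil) (.nil)
def t14_9455 : Tr := .node ⟨nat_lit 7, nat_lit 0x200020004000440070, nat_lit 0x1012102, nat_lit 3, nat_lit 4, nat_lit 0x47⟩ (.nil) (.nil)
def t14_5359 : Tr := .node ⟨nat_lit 7, nat_lit 0x40001000480060, nat_lit 0x1113110, nat_lit 0, nat_lit 4, nat_lit 0x49⟩ (.nil) (.nil)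
def t14_13551 : Tr := .node ⟨nat_lit 7, nat_lit 0x4000400020, nat_lit 0x100100, nat_lit 0, nat_lit 4, nat_lit 0x48⟩ (.nil) (.nil)
def t14_3311 : Tr := .node ⟨nat_lit 5, nat_lit 0x100008001a, nat_lit 0x220, nat_lit 5, nat_lit 4, nat_lit 0x45⟩ (.nil) (.nil)
def t14_11503 : Tr := .node ⟨nat_lit 6, nat_lit 0x2000280034, nat_lit 0x100010, nat_lit 4, nat_lit 4, nat_lit 0x46⟩ (.nil) (.nil)
def t14_7407 : Tr := .node ⟨nat_lit 7, nat_lit 0x4000200060, nat_lit 0x1121021, nat_lit 0, nat_lit 4, nat_lit 0x4a⟩ (.nil) (.nil)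
def t14_751 : Tr := .node ⟨nat_lit 6, nat_lit 0x80030, nat_lit 0x1023, nat_lit 0, nat_lit 4, nat_lit 0x47⟩ (.nil) (.nil)
def t14_8943 : Tr := .node ⟨nat_lit 8, nat_lit 0x20008000c000c0, nat_lit 0x10130, nat_lit 0, nat_lit 4, nat_lit 0x48⟩ (.nil) (.nil)
def t14_4847 : Tr := .node ⟨nat_lit 8, nat_lit 0x800020002000c0, nat_lit 0x11021002, nat_lit 0, nat_lit 4, nat_lit 0x4a⟩ (.nil) (.nil)
def t14_13039 : Tr := .node ⟨nat_lit 7, nat_lit 0x40004800300068, nat_lit 0x12001, nat_lit 1, nat_lit 4, nat_lit 0x46⟩ (.nil) (.nil)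
def t14_2799 : Tr := .node ⟨nat_lit 6, nat_lit 0x800200030, nat_lit 0x110300, nat_lit 1, nat_lit 4, nat_lit 0x47⟩ (.nil) (.nil)
def t14_10991 : Tr := .node ⟨nat_lit 8, nat_lit 0x800080002000c0, nat_lit 0x1112002, nat_lit 1, nat_lit 4, nat_lit 0x4a⟩ (.nil) (.nil)
def t14_6895 : Tr := .node ⟨nat_lit 8, nat_lit 0x800080, nat_lit 0x1111110, nat_lit 0, nat_lit 4, nat_lit 0x4c⟩ (.nil) (.nil)
def t14_15087 : Tr := .node ⟨nat_lit 9, nat_lit 0x10001000040004001200180, nat_lit 0x10101011, nat_lit 3, nat_lit 4, nat_lit 0x49⟩ (.nil) (.nil)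
def t14_1775 : Tr := .node ⟨nat_lit 7, nat_lit 0x1000100060, nat_lit 0x2101002, nat_lit 0, nat_lit 4, nat_lit 0x49⟩ (.nil) (.nil)
def t14_9967 : Tr := .node ⟨nat_lit 4, nat_lit 0xc, nat_lit 0x10, nat_lit 6, nat_lit 4, nat_lit 0x45⟩ (.nil) (.nil)
def t14_5871 : Tr := .node ⟨nat_lit 7, nat_lit 0x400060, nat_lit 0x1011101, nat_lit 0, nat_lit 4, nat_lit 0x49⟩ (.nil) (.nil)
def t14_14063 : Tr := .node ⟨nat_lit 6, nat_lit 0x2000280030, nat_lit 0x11001, nat_lit 1, nat_lit 3, nat_lit 0x45⟩ (.nil) (.nil)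
def t14_3823 : Tr := .node ⟨nat_lit 8, nat_lit 0x8000400040004000a000d0, nat_lit 0x10012102, nat_lit 1, nat_lit 4, nat_lit 0x48⟩ (.nil) (.nil)
def t14_12015 : Tr := .node ⟨nat_lit 6, nat_lit 0x200030, nat_lit 0x11030, nat_lit 0, nat_lit 4, nat_lit 0x48⟩ (.nil) (.nil)
def t14_7919 : Tr := .node ⟨nat_lit 8, nat_lit 0x800040009000b000d0, nat_lit 0x110132, nat_lit 0, nat_lit 4, nat_lit 0x46⟩ (.nil) (.nil)
def t9_239 : Tr := .node ⟨nat_lit 6, nat_lit 0x2000200010, nat_lit 0x13202, nat_lit 0, nat_lit 4, nat_lit 0x49⟩ (.node ⟨nat_lit 4, nat_lit 0x80004, nat_lit 0x1120, nat_lit 3, nat_lit 3, nat_lit 0x45⟩ (.node ⟨nat_lit 7, nat_lit 0x400020002800500068, nat_lit 0x1311111, nat_lit 0, nat_lit 4, nat_lit 0x48⟩ (.node ⟨nat_lit 6, nat_lit 0x800280030, nat_lit 0x111203, nat_lit 0, nat_lit 4, nat_lit 0x47⟩ (.node ⟨nat_lit 8, nat_lit 0x8000c0, nat_lit 0x2111102,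 nat_lit 0, nat_lit 4, nat_lit 0x4c⟩ (t14_239) (t14_8431)) (.node ⟨nat_lit 7, nat_lit 0x40003000500060, nat_lit 0x111032, nat_lit 0, nat_lit 4, nat_lit 0x47⟩ (t14_4335) (t14_12527))) (.node ⟨nat_lit 7, nat_lit 0x400060, nat_lit 0x221102, nat_lit 2, nat_lit 4, nat_lit 0x4b⟩ (.node ⟨nat_lit 5, nat_lit 0x1000080008, nat_lit 0x20033, nat_lit 2, nat_lit 3, nat_lit 0x46⟩ (t14_2287) (t14_10479)) (.node ⟨nat_lit 5, nat_lit 0x100018, nat_lit 0x12220, nat_lit 5, nat_lit 4, nat_lit 0x49⟩ (t14_6383) (t14_14575)))) (.node ⟨nat_lit 0, nat_lit 0, nat_lit 0, nat_lit 0x13, nat_lit 3, nat_lit 0x43⟩ (.node ⟨nat_lit 8, nat_lit 0x2000c0, nat_lit 0x21011101, nat_lit 1, nat_lit 4, nat_lit 0x4c⟩ (.node ⟨nat_lit 6, nat_lit 0x2000080030, nat_lit 0x11001, nat_lit 1, nat_lit 4, nat_lit 0x46⟩ (t14_1263) (t14_9455)) (.node ⟨nat_lit 6, nat_lit 0x1000200030, nat_lit 0x12102, nat_lit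 7, nat_lit 4, nat_lit 0x49⟩ (t14_5359) (t14_13551))) (.node ⟨nat_lit 6, nat_lit 0x2000100030, nat_lit 0x13003, nat_lit 2, nat_lit 4, nat_lit 0x48⟩ (.node ⟨nat_lit 6, nat_lit 0x1000200030, nat_lit 0x111013, nat_lit 5, nat_lit 4, nat_lit 0x49⟩ (t14_3311) (t14_11503)) (.node ⟨nat_lit 7, nat_lit 0x10004000180060, nat_lit 0x111121, nat_lit 0, nat_lit 4, nat_lit 0x47⟩ (t14_7407) (.nil))))) (.node ⟨nat_lit 6, nat_lit 0x200030, nat_lit 0x3101, nat_lit 2, nat_lit 4, nat_lit 0x48⟩ (.node ⟨nat_lit 7, nat_lit 0x800100060, nat_lit 0x2110012, nat_lit 0, nat_lit 4, nat_lit 0x49⟩ (.node ⟨nat_lit 7, nat_lit 0x200040, nat_lit 0x1120011, nat_lit 0, nat_lit 3, nat_lit 0x49⟩ (.node ⟨nat_lit 7, nat_lit 0x2000500064, nat_lit 0x1202111, nat_lit 0, nat_lit 4, nat_lit 0x49⟩ (t14_751) (t14_8943)) (.node ⟨nat_lit 7, nat_lit 0x40002000500068, nat_lit 0x102300, nat_lit 0, nat_lit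 4, nat_lit 0x47⟩ (t14_4847) (t14_13039))) (.node ⟨nat_lit 6, nat_lit 0x300028, nat_lit 0x1111, nat_lit 1, nat_lit 4, nat_lit 0x46⟩ (.node ⟨nat_lit 5, nat_lit 0x100018, nat_lit 0x2133, nat_lit 3, nat_lit 4, nat_lit 0x48⟩ (t14_2799) (t14_10991)) (.node ⟨nat_lit 8, nat_lit 0xc000300028, nat_lit 0x10101122, nat_lit 0, nat_lit 4, nat_lit 0x49⟩ (t14_6895) (t14_15087)))) (.node ⟨nat_lit 4, nat_lit 0x8000c, nat_lit 0x1121, nat_lit 5, nat_lit 4, nat_lit 0x46⟩ (.node ⟨nat_lit 7, nat_lit 0x40004800600068, nat_lit 0x1012111, nat_lit 3, nat_lit 4, nat_lit 0x48⟩ (.node ⟨nat_lit 7, nat_lit 0x4000600050, nat_lit 0x11203, nat_lit 0, nat_lit 4, nat_lit 0x48⟩ (t14_1775) (t14_9967)) (.node ⟨nat_lit 7, nat_lit 0x40002000200060, nat_lit 0x22102, nat_lit 0, nat_lit 4, nat_lit 0x48⟩ (t14_5871) (t14_14063))) (.node ⟨nat_lit 7, nat_lit 0x1000600060, nat_lit 0x1012100, nat_lit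 0, nat_lit 4, nat_lit 0x48⟩ (.node ⟨nat_lit 6, nat_lit 0x1000300028, nat_lit 0x111103, nat_lit 1, nat_lit 4, nat_lit 0x47⟩ (t14_3823) (t14_12015)) (.node ⟨nat_lit 8, nat_lit 0x40004000a000c0, nat_lit 0x10011013, nat_lit 1, nat_lit 4, nat_lit 0x49⟩ (t14_7919) (.nil)))))
def t14_495 : Tr := .node ⟨nat_lit 7, nat_lit 0x4000100060, nat_lit 0x1211110, nat_lit 1, nat_lit 4, nat_lit 0x4a⟩ (.nil) (.nil)
def t14_8687 : Tr := .node ⟨nat_lit 6, nat_lit 0x1000300028, nat_lit 0x10, nat_lit 1, nat_lit 4, nat_lit 0x44⟩ (.nil) (.nil)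
def t14_4591 : Tr := .node ⟨nat_lit 7, nat_lit 0x40001000600060, nat_lit 0x111031, nat_lit 2, nat_lit 4, nat_lit 0x48⟩ (.nil) (.nil)
def t14_12783 : Tr := .node ⟨nat_lit 5, nat_lit 0x1000140018, nat_lit 0x1120, nat_lit 7, nat_lit 4, nat_lit 0x46⟩ (.nil) (.nil)
def t14_2543 : Tr := .node ⟨nat_lit 7, nat_lit 0x4000400060, nat_lit 0x121210, nat_lit 2, nat_lit 4, nat_lit 0x4a⟩ (.nil) (.nil)
def t14_10735 : Tr := .node ⟨nat_lit 7, nat_lit 0x10001000500060, nat_lit 0x102002, nat_lit 0, nat_lit 4, nat_lit 0x47⟩ (.nil) (.nil)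
def t14_6639 : Tr := .node ⟨nat_lit 7, nat_lit 0x200040004000480030, nat_lit 0x1021110, nat_lit 1, nat_lit 4, nat_lit 0x47⟩ (.nil) (.nil)
def t14_14831 : Tr := .node ⟨nat_lit 7, nat_lit 0x20005000500060, nat_lit 0x12101, nat_lit 0, nat_lit 4, nat_lit 0x46⟩ (.nil) (.nil)
def t14_1519 : Tr := .node ⟨nat_lit 7, nat_lit 0x4000500060, nat_lit 0x21210, nat_lit 1, nat_lit 3, nat_lit 0x47⟩ (.nil) (.nil)
def t14_9711 : Tr := .node ⟨nat_lit 0xa, nat_lit 0x200020002000080010002200240, nat_lit 0x101100110, nat_lit 2, nat_lit 4, nat_lit 0x4a⟩ (.nil) (.nil)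
def t14_5615 : Tr := .node ⟨nat_lit 7, nat_lit 0x5000600060, nat_lit 0x11220, nat_lit 1, nat_lit 4, nat_lit 0x47⟩ (.nil) (.nil)
def t14_13807 : Tr := .node ⟨nat_lit 8, nat_lit 0x8000800040004000a000a0, nat_lit 0x102100, nat_lit 0, nat_lit 4, nat_lit 0x47⟩ (.nil) (.nil)
def t14_3567 : Tr := .node ⟨nat_lit 6, nat_lit 0x10002000200030, nat_lit 0x1210, nat_lit 2, nat_lit 3, nat_lit 0x45⟩ (.nil) (.nil)
def t14_11759 : Tr := .node ⟨nat_lit 4, nat_lit 8, nat_lit 0x414, nat_lit 0, nat_lit 3, nat_lit 0x47⟩ (.nil) (.nil)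
def t14_7663 : Tr := .node ⟨nat_lit 5, nat_lit 0x40018, nat_lit 0x10002, nat_lit 5, nat_lit 4, nat_lit 0x46⟩ (.nil) (.nil)
def t14_1007 : Tr := .node ⟨nat_lit 8, nat_lit 0x400080008000200088, nat_lit 0x10000102, nat_lit 1, nat_lit 4, nat_lit 0x48⟩ (.nil) (.nil)
def t14_9199 : Tr := .node ⟨nat_lit 7, nat_lit 0x10005000300060, nat_lit 0x2123, nat_lit 0, nat_lit 4, nat_lit 0x46⟩ (.nil) (.nil)
def t14_5103 : Tr := .node ⟨nat_lit 8, nat_lit 0x80004000a000d000e0, nat_lit 0x110113, nat_lit 0, nat_lit 4, nat_lit 0x46⟩ (.nil) (.nil)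
def t14_13295 : Tr := .node ⟨nat_lit 9, nat_lit 0x400100002001080180, nat_lit 0x2000, nat_lit 3, nat_lit 4, nat_lit 0x49⟩ (.nil) (.nil)
def t14_3055 : Tr := .node ⟨nat_lit 7, nat_lit 0x5000600028, nat_lit 0x10121, nat_lit 0, nat_lit 4, nat_lit 0x46⟩ (.nil) (.nil)
def t14_11247 : Tr := .node ⟨nat_lit 6, nat_lit 0x800200030, nat_lit 0x20010, nat_lit 3, nat_lit 4, nat_lit 0x47⟩ (.nil) (.nil)
def t14_7151 : Tr := .node ⟨nat_lit 6, nat_lit 0x800200032, nat_lit 0x110001, nat_lit 5, nat_lit 4, nat_lit 0x47⟩ (.nil) (.nil)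
def t14_15343 : Tr := .node ⟨nat_lit 8, nat_lit 0x4000400080008000d0, nat_lit 0x1121101, nat_lit 0, nat_lit 4, nat_lit 0x49⟩ (.nil) (.nil)
def t14_2031 : Tr := .node ⟨nat_lit 5, nat_lit 0x800100018, nat_lit 0x230, nat_lit 5, nat_lit 4, nat_lit 0x46⟩ (.nil) (.nil)
def t14_10223 : Tr := .node ⟨nat_lit 8, nat_lit 0x400080002000200088, nat_lit 0x2102, nat_lit 2, nat_lit 4, nat_lit 0x48⟩ (.nil) (.nil)
def t14_6127 : Tr := .node ⟨nat_lit 3, nat_lit 4, nat_lit 0x110, nat_lit 0xa, nat_lit 4, nat_lit 0x46⟩ (.nil) (.nil)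
def t14_14319 : Tr := .node ⟨nat_lit 7, nat_lit 0x40004800300068, nat_lit 0x1010030, nat_lit 1, nat_lit 4, nat_lit 0x46⟩ (.nil) (.nil)
def t14_4079 : Tr := .node ⟨nat_lit 7, nat_lit 0x20004000440030, nat_lit 0x1110201, nat_lit 0, nat_lit 4, nat_lit 0x48⟩ (.nil) (.nil)
def t14_12271 : Tr := .node ⟨nat_lit 6, nat_lit 0x10002000340038, nat_lit 0x1113, nat_lit 3, nat_lit 4, nat_lit 0x44⟩ (.nil) (.nil)
def t14_8175 : Tr := .node ⟨nat_lit 7, nat_lit 0x40001000100068, nat_lit 0x102003, nat_lit 2, nat_lit 4, nat_lit 0x47⟩ (.nil) (.nil)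
def t9_495 : Tr := .node ⟨nat_lit 6, nat_lit 0x2000200010, nat_lit 0x13103, nat_lit 1, nat_lit 4, nat_lit 0x49⟩ (.node ⟨nat_lit 5, nat_lit 0x1000140014, nat_lit 0x31032, nat_lit 2, nat_lit 4, nat_lit 0x48⟩ (.node ⟨nat_lit 6, nat_lit 0x200022, nat_lit 0x211121, nat_lit 1, nat_lit 4, nat_lit 0x4a⟩ (.node ⟨nat_lit 4, nat_lit 8, nat_lit 0x211, nat_lit 9, nat_lit 4, nat_lit 0x48⟩ (.node ⟨nat_lit 6, nat_lit 0x8000c0030, nat_lit 0x200221, nat_lit 2, nat_lit 4, nat_lit 0x47⟩ (t14_495) (t14_8687)) (.node ⟨nat_lit 7, nat_lit 0x2000500064, nat_lit 0x1121021, nat_lit 1, nat_lit 4, nat_lit 0x49⟩ (t14_4591) (t14_12783))) (.node ⟨nat_lit 5, nat_lit 0x1000080008, nat_lit 0x1021, nat_lit 8, nat_lit 4, nat_lit 0x48⟩ (.node ⟨nat_lit 7, nat_lit 0x400040004000200020, nat_lit 0x121031, nat_lit 0, nat_lit 4, nat_lit 0x49⟩ (t14_2543) (t14_10735)) (.node ⟨nat_lit 6, nat_lit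 0x2000280030, nat_lit 0x11220, nat_lit 3, nat_lit 4, nat_lit 0x47⟩ (t14_6639) (t14_14831)))) (.node ⟨nat_lit 6, nat_lit 0x800300030, nat_lit 0x102111, nat_lit 3, nat_lit 4, nat_lit 0x47⟩ (.node ⟨nat_lit 7, nat_lit 0x20002000100040, nat_lit 0x2021012, nat_lit 0, nat_lit 4, nat_lit 0x4a⟩ (.node ⟨nat_lit 6, nat_lit 0x800280030, nat_lit 0x11311, nat_lit 0, nat_lit 4, nat_lit 0x47⟩ (t14_1519) (t14_9711)) (.node ⟨nat_lit 8, nat_lit 0x800040004000a000a000d0, nat_lit 0x11121000, nat_lit 1, nat_lit 4, nat_lit 0x48⟩ (t14_5615) (t14_13807))) (.node ⟨nat_lit 7, nat_lit 0x2000400040, nat_lit 0x121100, nat_lit 3, nat_lit 4, nat_lit 0x4a⟩ (.node ⟨nat_lit 7, nat_lit 0x40001000480068, nat_lit 0x1001000, nat_lit 0, nat_lit 4, nat_lit 0x46⟩ (t14_3567) (t14_11759)) (.node ⟨nat_lit 7, nat_lit 0x4000400050005000600070, nat_lit 0x1111102, nat_lit 1, nat_lit 4, nat_lit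 0x47⟩ (t14_7663) (.nil))))) (.node ⟨nat_lit 3, nat_lit 4, nat_lit 0x133, nat_lit 6, nat_lit 3, nat_lit 0x46⟩ (.node ⟨nat_lit 5, nat_lit 0x100010, nat_lit 0x2210, nat_lit 7, nat_lit 4, nat_lit 0x49⟩ (.node ⟨nat_lit 8, nat_lit 0x800080, nat_lit 0x1111110, nat_lit 1, nat_lit 4, nat_lit 0x4c⟩ (.node ⟨nat_lit 5, nat_lit 0x100018, nat_lit 0x12131, nat_lit 5, nat_lit 4, nat_lit 0x49⟩ (t14_1007) (t14_9199)) (.node ⟨nat_lit 9, nat_lit 0x10000800040, nat_lit 0x1221000, nat_lit 1, nat_lit 4, nat_lit 0x4d⟩ (t14_5103) (t14_13295))) (.node ⟨nat_lit 7, nat_lit 0x4000100060, nat_lit 0x1011210, nat_lit 0, nat_lit 4, nat_lit 0x49⟩ (.node ⟨nat_lit 7, nat_lit 0x40001000480068, nat_lit 0x2012121, nat_lit 0, nat_lit 4, nat_lit 0x49⟩ (t14_3055) (t14_11247)) (.node ⟨nat_lit 7, nat_lit 0x40006000500068, nat_lit 0x111212, nat_lit 3, nat_lit 4, nat_lit 0x47⟩ (t14_7151) (t14_15343))))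 (.node ⟨nat_lit 5, nat_lit 0x100018, nat_lit 0x20111, nat_lit 1, nat_lit 3, nat_lit 0x46⟩ (.node ⟨nat_lit 7, nat_lit 0x500060, nat_lit 0x1121111, nat_lit 0, nat_lit 4, nat_lit 0x4a⟩ (.node ⟨nat_lit 6, nat_lit 0x200020, nat_lit 0x121132, nat_lit 1, nat_lit 4, nat_lit 0x4b⟩ (t14_2031) (t14_10223)) (.node ⟨nat_lit 7, nat_lit 0x1000500060, nat_lit 0x1012120, nat_lit 0, nat_lit 4, nat_lit 0x49⟩ (t14_6127) (t14_14319))) (.node ⟨nat_lit 6, nat_lit 0x38, nat_lit 0x221113, nat_lit 0, nat_lit 4, nat_lit 0x4a⟩ (.node ⟨nat_lit 6, nat_lit 0x2000100010, nat_lit 0x10011, nat_lit 0, nat_lit 4, nat_lit 0x47⟩ (t14_4079) (t14_12271)) (.node ⟨nat_lit 8, nat_lit 0x8000800040004000a000a0, nat_lit 0x1112110, nat_lit 0, nat_lit 4, nat_lit 0x48⟩ (t14_8175) (.nil)))))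
def t14_31 : Tr := .node ⟨nat_lit 6, nat_lit 0x800100020, nat_lit 0x111101, nat_lit 6, nat_lit 4, nat_lit 0x49⟩ (.nil) (.nil)
def t14_8223 : Tr := .node ⟨nat_lit 7, nat_lit 0x10001800600060, nat_lit 0x1111, nat_lit 0, nat_lit 4, nat_lit 0x45⟩ (.nil) (.nil)
def t14_4127 : Tr := .node ⟨nat_lit 9, nat_lit 0x10001000100004000800120, nat_lit 0x11111011, nat_lit 1, nat_lit 4, nat_lit 0x4a⟩ (.nil) (.nil)
def t14_12319 : Tr := .node ⟨nat_lit 7, nat_lit 0x40005000580068, nat_lit 0x1000101, nat_lit 1, nat_lit 4, nat_lit 0x45⟩ (.nil) (.nil)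
def t14_2079 : Tr := .node ⟨nat_lit 8, nat_lit 0x800040004000a000a000c0, nat_lit 0x10130001, nat_lit 1, nat_lit 4, nat_lit 0x48⟩ (.nil) (.nil)
def t14_10271 : Tr := .node ⟨nat_lit 8, nat_lit 0x80004000a000d000c8, nat_lit 0x1001202, nat_lit 0, nat_lit 4, nat_lit 0x46⟩ (.nil) (.nil)
def t14_6175 : Tr := .node ⟨nat_lit 4, nat_lit 0x80004, nat_lit 0x1101, nat_lit 9, nat_lit 4, nat_lit 0x47⟩ (.nil) (.nil)
def t14_14367 : Tr := .node ⟨nat_lit 6, nat_lit 0x800080030, nat_lit 0x110, nat_lit 2, nat_lit 4, nat_lit 0x46⟩ (.nil) (.nil)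
def t14_1055 : Tr := .node ⟨nat_lit 4, nat_lit 0x8000e, nat_lit 0x121, nat_lit 6, nat_lit 4, nat_lit 0x45⟩ (.nil) (.nil)
def t14_9247 : Tr := .node ⟨nat_lit 6, nat_lit 0x20001000280038, nat_lit 0x1021, nat_lit 3, nat_lit 4, nat_lit 0x45⟩ (.nil) (.nil)
def t14_5151 : Tr := .node ⟨nat_lit 8, nat_lit 0x800040004000c000a0, nat_lit 0x101131, nat_lit 0, nat_lit 4, nat_lit 0x48⟩ (.nil) (.nil)
def t14_13343 : Tr := .node ⟨nat_lit 6, nat_lit 0x1800300028, nat_lit 0x10420, nat_lit 1, nat_lit 4, nat_lit 0x46⟩ (.nil) (.nil)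
def t14_3103 : Tr := .node ⟨nat_lit 7, nat_lit 0x10002000400060, nat_lit 0x10201, nat_lit 0, nat_lit 4, nat_lit 0x47⟩ (.nil) (.nil)
def t14_11295 : Tr := .node ⟨nat_lit 8, nat_lit 0x200040008000c000c0, nat_lit 0x2120, nat_lit 3, nat_lit 4, nat_lit 0x48⟩ (.nil) (.nil)
def t14_7199 : Tr := .node ⟨nat_lit 8, nat_lit 0x200020004000a000c0, nat_lit 0x1021111, nat_lit 0, nat_lit 4, nat_lit 0x48⟩ (.nil) (.nil)
def t14_15391 : Tr := .node ⟨nat_lit 0xc, nat_lit 0x800040002000100010000800080, nat_lit 0x1010, nat_lit 3, nat_lit 4, nat_lit 0x4c⟩ (.nil) (.nil)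
def t14_543 : Tr := .node ⟨nat_lit 6, nat_lit 0x2000200030, nat_lit 0x2200, nat_lit 1, nat_lit 3, nat_lit 0x46⟩ (.nil) (.nil)
def t14_8735 : Tr := .node ⟨nat_lit 7, nat_lit 0x40002000100060, nat_lit 0x12100, nat_lit 0, nat_lit 4, nat_lit 0x47⟩ (.nil) (.nil)
def t14_4639 : Tr := .node ⟨nat_lit 7, nat_lit 0x40001000600068, nat_lit 0x1012011, nat_lit 0, nat_lit 4, nat_lit 0x47⟩ (.nil) (.nil)
def t14_12831 : Tr := .node ⟨nat_lit 7, nat_lit 0x200020004000600070, nat_lit 0x1202, nat_lit 2, nat_lit 4, nat_lit 0x46⟩ (.nil) (.nil)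
def t14_2591 : Tr := .node ⟨nat_lit 7, nat_lit 0x1000200040, nat_lit 0x110000, nat_lit 0, nat_lit 4, nat_lit 0x48⟩ (.nil) (.nil)
def t14_10783 : Tr := .node ⟨nat_lit 0xa, nat_lit 0x2000100008000400040, nat_lit 0x1200011, nat_lit 0, nat_lit 3, nat_lit 0x4a⟩ (.nil) (.nil)
def t14_6687 : Tr := .node ⟨nat_lit 5, nat_lit 0x10, nat_lit 0x1110, nat_lit 0xb, nat_lit 4, nat_lit 0x4a⟩ (.nil) (.nil)
def t14_14879 : Tr := .node ⟨nat_lit 6, nat_lit 0x200020, nat_lit 0x22210, nat_lit 4, nat_lit 3, nat_lit 0x49⟩ (.nil) (.nil)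
def t14_1567 : Tr := .node ⟨nat_lit 7, nat_lit 0x10004000600070, nat_lit 0x112202, nat_lit 0, nat_lit 4, nat_lit 0x47⟩ (.nil) (.nil)
def t14_9759 : Tr := .node ⟨nat_lit 7, nat_lit 0x40001000600060, nat_lit 0x1020, nat_lit 0, nat_lit 4, nat_lit 0x46⟩ (.nil) (.nil)
def t14_5663 : Tr := .node ⟨nat_lit 7, nat_lit 0x40004000100060, nat_lit 0x101020, nat_lit 1, nat_lit 4, nat_lit 0x47⟩ (.nil) (.nil)
def t14_13855 : Tr := .node ⟨nat_lit 8, nat_lit 0x400040002000a000d0, nat_lit 0x21002, nat_lit 1, nat_lit 4, nat_lit 0x47⟩ (.nil) (.nil)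
def t14_3615 : Tr := .node ⟨nat_lit 7, nat_lit 0x5000600070, nat_lit 0x1011122, nat_lit 0, nat_lit 4, nat_lit 0x47⟩ (.nil) (.nil)
def t14_11807 : Tr := .node ⟨nat_lit 7, nat_lit 0x40004000480030, nat_lit 0x101103, nat_lit 1, nat_lit 4, nat_lit 0x47⟩ (.nil) (.nil)
def t14_7711 : Tr := .node ⟨nat_lit 7, nat_lit 0x20004000440060, nat_lit 0x11002, nat_lit 0, nat_lit 4, nat_lit 0x46⟩ (.nil) (.nil)
def t9_31 : Tr := .node ⟨nat_lit 3, nat_lit 4, nat_lit 0x321, nat_lit 0xd, nat_lit 4, nat_lit 0x49⟩ (.node ⟨nat_lit 6, nat_lit 0x200020, nat_lit 0x131120, nat_lit 3, nat_lit 4, nat_lit 0x4b⟩ (.node ⟨nat_lit 6, nat_lit 0x800300030, nat_lit 0x113020, nat_lit 1, nat_lit 4, nat_lit 0x48⟩ (.node ⟨nat_lit 4, nat_lit 8, nat_lit 0x1211, nat_lit 6, nat_lit 4, nat_lit 0x48⟩ (.node ⟨nat_lit 5, nat_lit 0x1000100008, nat_lit 0x2223, nat_lit 2, nat_lit 4, nat_lit 0x48⟩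 (t14_31) (t14_8223)) (.node ⟨nat_lit 6, nat_lit 0x1000200020, nat_lit 0x102000, nat_lit 1, nat_lit 4, nat_lit 0x47⟩ (t14_4127) (t14_12319))) (.node ⟨nat_lit 6, nat_lit 0x80030, nat_lit 0x311112, nat_lit 2, nat_lit 4, nat_lit 0x4a⟩ (.node ⟨nat_lit 3, nat_lit 4, nat_lit 0x14, nat_lit 7, nat_lit 3, nat_lit 0x45⟩ (t14_2079) (t14_10271)) (.node ⟨nat_lit 8, nat_lit 0x8000800040004000a000e0, nat_lit 0x10002120, nat_lit 0, nat_lit 4, nat_lit 0x47⟩ (t14_6175) (t14_14367)))) (.node ⟨nat_lit 4, nat_lit 0x80004, nat_lit 0x2104, nat_lit 1, nat_lit 3, nat_lit 0x46⟩ (.node ⟨nat_lit 5, nat_lit 0x800100018, nat_lit 0x12121, nat_lit 5, nat_lit 4, nat_lit 0x48⟩ (.node ⟨nat_lit 5, nat_lit 0x40018, nat_lit 0x11111, nat_lit 3, nat_lit 4, nat_lit 0x47⟩ (t14_1055) (t14_9247)) (.node ⟨nat_lit 5, nat_lit 0x100010, nat_lit 0x12131, nat_lit 6, nat_lit 4, nat_lit 0x4a⟩ (t14_5151)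 (t14_13343))) (.node ⟨nat_lit 7, nat_lit 0x10001000200040, nat_lit 0x1112011, nat_lit 0, nat_lit 4, nat_lit 0x49⟩ (.node ⟨nat_lit 6, nat_lit 0x2000100024, nat_lit 0x111101, nat_lit 0, nat_lit 4, nat_lit 0x47⟩ (t14_3103) (t14_11295)) (.node ⟨nat_lit 9, nat_lit 0x1000080002000400180, nat_lit 0x11002012, nat_lit 0, nat_lit 4, nat_lit 0x4a⟩ (t14_7199) (t14_15391))))) (.node ⟨nat_lit 6, nat_lit 0x30, nat_lit 0x113110, nat_lit 1, nat_lit 4, nat_lit 0x4a⟩ (.node ⟨nat_lit 4, nat_lit 0x80008, nat_lit 0x1221, nat_lit 5, nat_lit 3, nat_lit 0x46⟩ (.node ⟨nat_lit 4, nat_lit 0xc, nat_lit 0x20, nat_lit 3, nat_lit 4, nat_lit 0x44⟩ (.node ⟨nat_lit 9, nat_lit 0x10001000100008001200120, nat_lit 0x21010110, nat_lit 1, nat_lit 4, nat_lit 0x4a⟩ (t14_543) (t14_8735)) (.node ⟨nat_lit 7, nat_lit 0x40001000500068, nat_lit 0x1301012, nat_lit 1, nat_lit 4, nat_lit 0x48⟩ (t14_4639)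 (t14_12831))) (.node ⟨nat_lit 5, nat_lit 0x180014, nat_lit 0x11012, nat_lit 4, nat_lit 4, nat_lit 0x46⟩ (.node ⟨nat_lit 5, nat_lit 0x800080010, nat_lit 0x31301, nat_lit 0, nat_lit 3, nat_lit 0x47⟩ (t14_2591) (t14_10783)) (.node ⟨nat_lit 8, nat_lit 0x8000c000c0, nat_lit 0x211120, nat_lit 1, nat_lit 4, nat_lit 0x4a⟩ (t14_6687) (t14_14879)))) (.node ⟨nat_lit 7, nat_lit 0x4000100020, nat_lit 0x211021, nat_lit 0, nat_lit 4, nat_lit 0x4a⟩ (.node ⟨nat_lit 5, nat_lit 0x100018, nat_lit 0x20201, nat_lit 5, nat_lit 4, nat_lit 0x48⟩ (.node ⟨nat_lit 8, nat_lit 0x200080001000c0, nat_lit 0x10000301, nat_lit 5, nat_lit 4, nat_lit 0x4a⟩ (t14_1567) (t14_9759)) (.node ⟨nat_lit 7, nat_lit 0x400050006000700070, nat_lit 0x1012121, nat_lit 1, nat_lit 4, nat_lit 0x46⟩ (t14_5663) (t14_13855))) (.node ⟨nat_lit 3, nat_lit 6, nat_lit 0x202, nat_lit 8, nat_lit 4, nat_lit 0x45⟩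 (.node ⟨nat_lit 6, nat_lit 0x2000080030, nat_lit 0x101010, nat_lit 0, nat_lit 4, nat_lit 0x46⟩ (t14_3615) (t14_11807)) (.node ⟨nat_lit 5, nat_lit 0x800100010, nat_lit 0x11210, nat_lit 7, nat_lit 4, nat_lit 0x48⟩ (t14_7711) (.nil)))))
def t14_287 : Tr := .node ⟨nat_lit 8, nat_lit 0x8000a000c000c8, nat_lit 0x1012211, nat_lit 0, nat_lit 4, nat_lit 0x48⟩ (.nil) (.nil)
def t14_8479 : Tr := .node ⟨nat_lit 7, nat_lit 0x40004800300060, nat_lit 0x2101, nat_lit 0, nat_lit 4, nat_lit 0x46⟩ (.nil) (.nil)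
def t14_4383 : Tr := .node ⟨nat_lit 7, nat_lit 0x40002000100068, nat_lit 0x1011012, nat_lit 0, nat_lit 4, nat_lit 0x47⟩ (.nil) (.nil)
def t14_12575 : Tr := .node ⟨nat_lit 8, nat_lit 0xa0006000c00050, nat_lit 0x100310, nat_lit 1, nat_lit 4, nat_lit 0x47⟩ (.nil) (.nil)
def t14_2335 : Tr := .node ⟨nat_lit 8, nat_lit 0x40002000a000d000d0, nat_lit 0x2010310, nat_lit 0, nat_lit 4, nat_lit 0x47⟩ (.nil) (.nil)
def t14_10527 : Tr := .node ⟨nat_lit 8, nat_lit 0xc000a000a00030, nat_lit 0x220, nat_lit 0, nat_lit 4, nat_lit 0x46⟩ (.nil) (.nil)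
def t14_6431 : Tr := .node ⟨nat_lit 5, nat_lit 0x1000100014, nat_lit 0x11111, nat_lit 8, nat_lit 4, nat_lit 0x48⟩ (.nil) (.nil)
def t14_14623 : Tr := .node ⟨nat_lit 8, nat_lit 0x40008000600090009000e0, nat_lit 0x1110111, nat_lit 1, nat_lit 4, nat_lit 0x46⟩ (.nil) (.nil)
def t14_1311 : Tr := .node ⟨nat_lit 7, nat_lit 0x10002000500060, nat_lit 0x1001111, nat_lit 0, nat_lit 4, nat_lit 0x46⟩ (.nil) (.nil)
def t14_9503 : Tr := .node ⟨nat_lit 8, nat_lit 0x8000400040004800a000d0, nat_lit 0x10021100, nat_lit 1, nat_lit 4, nat_lit 0x47⟩ (.nil) (.nil)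
def t14_5407 : Tr := .node ⟨nat_lit 7, nat_lit 0x1000400060, nat_lit 0x101032, nat_lit 2, nat_lit 4, nat_lit 0x49⟩ (.nil) (.nil)
def t14_13599 : Tr := .node ⟨nat_lit 6, nat_lit 0x800200030, nat_lit 2, nat_lit 7, nat_lit 4, nat_lit 0x47⟩ (.nil) (.nil)
def t14_3359 : Tr := .node ⟨nat_lit 6, nat_lit 0x20002000280030, nat_lit 0x12011, nat_lit 3, nat_lit 4, nat_lit 0x47⟩ (.nil) (.nil)
def t14_11551 : Tr := .node ⟨nat_lit 6, nat_lit 0x2800300030, nat_lit 0x21210, nat_lit 3, nat_lit 4, nat_lit 0x47⟩ (.nil) (.nil)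
def t14_7455 : Tr := .node ⟨nat_lit 8, nat_lit 0xc000c0, nat_lit 0x10111111, nat_lit 1, nat_lit 4, nat_lit 0x4b⟩ (.nil) (.nil)
def t14_799 : Tr := .node ⟨nat_lit 5, nat_lit 0x800100010, nat_lit 0x10311, nat_lit 0, nat_lit 3, nat_lit 0x45⟩ (.nil) (.nil)
def t14_8991 : Tr := .node ⟨nat_lit 0xa, nat_lit 0x2000200020001000100028002200240, nat_lit 0x11110001, nat_lit 1, nat_lit 4, nat_lit 0x49⟩ (.nil) (.nil)
def t14_4895 : Tr := .node ⟨nat_lit 8, nat_lit 0x8000c0, nat_lit 0x11111110, nat_lit 1, nat_lit 4, nat_lit 0x4c⟩ (.nil) (.nil)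
def t14_13087 : Tr := .node ⟨nat_lit 5, nat_lit 0x180014, nat_lit 0x20002, nat_lit 3, nat_lit 3, nat_lit 0x45⟩ (.nil) (.nil)
def t14_2847 : Tr := .node ⟨nat_lit 7, nat_lit 0x20004000100044, nat_lit 0x1010002, nat_lit 1, nat_lit 4, nat_lit 0x47⟩ (.nil) (.nil)
def t14_11039 : Tr := .node ⟨nat_lit 3, nat_lit 6, nat_lit 0x210, nat_lit 9, nat_lit 4, nat_lit 0x46⟩ (.nil) (.nil)
def t14_6943 : Tr := .node ⟨nat_lit 6, nat_lit 0x280030, nat_lit 0x102112, nat_lit 2, nat_lit 4, nat_lit 0x48⟩ (.nil) (.nil)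
def t14_15135 : Tr := .node ⟨nat_lit 8, nat_lit 0x4000800088006000c8, nat_lit 0x10011101, nat_lit 1, nat_lit 4, nat_lit 0x47⟩ (.nil) (.nil)
def t14_1823 : Tr := .node ⟨nat_lit 6, nat_lit 0x1000280034, nat_lit 0x112120, nat_lit 3, nat_lit 4, nat_lit 0x48⟩ (.nil) (.nil)
def t14_10015 : Tr := .node ⟨nat_lit 6, nat_lit 0x20001000100010, nat_lit 0x10220, nat_lit 4, nat_lit 3, nat_lit 0x47⟩ (.nil) (.nil)
def t14_5919 : Tr := .node ⟨nat_lit 8, nat_lit 0x80008400c0, nat_lit 0x111220, nat_lit 1, nat_lit 4, nat_lit 0x4a⟩ (.nil) (.nil)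
def t14_14111 : Tr := .node ⟨nat_lit 6, nat_lit 0x800300030, nat_lit 0x100110, nat_lit 3, nat_lit 4, nat_lit 0x46⟩ (.nil) (.nil)
def t14_3871 : Tr := .node ⟨nat_lit 7, nat_lit 0x40004000200060, nat_lit 0x112202, nat_lit 0, nat_lit 4, nat_lit 0x49⟩ (.nil) (.nil)
def t14_12063 : Tr := .node ⟨nat_lit 7, nat_lit 0x4000600064, nat_lit 0x111200, nat_lit 1, nat_lit 4, nat_lit 0x48⟩ (.nil) (.nil)
def t14_7967 : Tr := .node ⟨nat_lit 6, nat_lit 0x20002000280028, nat_lit 0x21121, nat_lit 7, nat_lit 4, nat_lit 0x48⟩ (.nil) (.nil)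
def t9_287 : Tr := .node ⟨nat_lit 4, nat_lit 0xc, nat_lit 0x3220, nat_lit 1, nat_lit 3, nat_lit 0x47⟩ (.node ⟨nat_lit 7, nat_lit 0x20004000440044, nat_lit 0x3020111, nat_lit 1, nat_lit 4, nat_lit 0x4a⟩ (.node ⟨nat_lit 4, nat_lit 8, nat_lit 0x1311, nat_lit 0xc, nat_lit 4, nat_lit 0x4a⟩ (.node ⟨nat_lit 4, nat_lit 0xc, nat_lit 0x1122, nat_lit 8, nat_lit 4, nat_lit 0x48⟩ (.node ⟨nat_lit 5, nat_lit 0x1000080008, nat_lit 0x2021, nat_lit 1, nat_lit 4, nat_lit 0x47⟩ (t14_287) (t14_8479)) (.node ⟨nat_lit 6, nat_lit 0x10001000200038, nat_lit 0x11023, nat_lit 2, nat_lit 4, nat_lit 0x46⟩ (t14_4383) (t14_12575))) (.node ⟨nat_lit 6, nat_lit 0x800300030, nat_lit 0x201022, nat_lit 0, nat_lit 4, nat_lit 0x47⟩ (.node ⟨nat_lit 7, nat_lit 0x20002000500068, nat_lit 0x1002123, nat_lit 1, nat_lit 4, nat_lit 0x47⟩ (t14_2335) (t14_10527)) (.node ⟨nat_lit 7, nat_lit 0x6000600060,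 nat_lit 0x21210, nat_lit 5, nat_lit 4, nat_lit 0x48⟩ (t14_6431) (t14_14623)))) (.node ⟨nat_lit 6, nat_lit 0x1000200034, nat_lit 0x121121, nat_lit 1, nat_lit 4, nat_lit 0x48⟩ (.node ⟨nat_lit 5, nat_lit 0x40018, nat_lit 0x21212, nat_lit 5, nat_lit 4, nat_lit 0x49⟩ (.node ⟨nat_lit 6, nat_lit 0x2000080034, nat_lit 0x111103, nat_lit 2, nat_lit 4, nat_lit 0x47⟩ (t14_1311) (t14_9503)) (.node ⟨nat_lit 6, nat_lit 0x2000200010, nat_lit 0x11202, nat_lit 2, nat_lit 4, nat_lit 0x48⟩ (t14_5407) (t14_13599))) (.node ⟨nat_lit 5, nat_lit 0x40018, nat_lit 0x20103, nat_lit 4, nat_lit 4, nat_lit 0x47⟩ (.node ⟨nat_lit 6, nat_lit 0x2000100034, nat_lit 0x211230, nat_lit 1, nat_lit 4, nat_lit 0x49⟩ (t14_3359) (t14_11551)) (.node ⟨nat_lit 7, nat_lit 0x40002000480060, nat_lit 0x1121102, nat_lit 2, nat_lit 4, nat_lit 0x49⟩ (t14_7455) (.nil))))) (.node ⟨nat_lit 5, nat_lit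 0x100008, nat_lit 0x1322, nat_lit 1, nat_lit 4, nat_lit 0x48⟩ (.node ⟨nat_lit 6, nat_lit 0x300038, nat_lit 0x102102, nat_lit 1, nat_lit 4, nat_lit 0x47⟩ (.node ⟨nat_lit 5, nat_lit 0x18, nat_lit 0x111, nat_lit 0, nat_lit 4, nat_lit 0x45⟩ (.node ⟨nat_lit 6, nat_lit 0x1000080020, nat_lit 0x202202, nat_lit 0, nat_lit 4, nat_lit 0x49⟩ (t14_799) (t14_8991)) (.node ⟨nat_lit 8, nat_lit 0x4000400080008000600088, nat_lit 0x11122000, nat_lit 0, nat_lit 4, nat_lit 0x49⟩ (t14_4895) (t14_13087))) (.node ⟨nat_lit 5, nat_lit 0x1000100008, nat_lit 0x1201, nat_lit 3, nat_lit 4, nat_lit 0x46⟩ (.node ⟨nat_lit 7, nat_lit 0x4000400020, nat_lit 0x111110, nat_lit 0, nat_lit 4, nat_lit 0x49⟩ (t14_2847) (t14_11039)) (.node ⟨nat_lit 8, nat_lit 0x800020009000a000c0, nat_lit 0x1112020, nat_lit 0, nat_lit 4, nat_lit 0x48⟩ (t14_6943) (t14_15135)))) (.node ⟨nat_lit 6, nat_lit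 0x2000100010, nat_lit 0x111021, nat_lit 0, nat_lit 3, nat_lit 0x47⟩ (.node ⟨nat_lit 5, nat_lit 0x800100010, nat_lit 0x21122, nat_lit 1, nat_lit 3, nat_lit 0x47⟩ (.node ⟨nat_lit 6, nat_lit 0x10001000200022, nat_lit 0x1011, nat_lit 2, nat_lit 4, nat_lit 0x45⟩ (t14_1823) (t14_10015)) (.node ⟨nat_lit 6, nat_lit 0x2000100030, nat_lit 0x12102, nat_lit 3, nat_lit 4, nat_lit 0x48⟩ (t14_5919) (t14_14111))) (.node ⟨nat_lit 7, nat_lit 0x2800600050, nat_lit 0x121212, nat_lit 1, nat_lit 4, nat_lit 0x48⟩ (.node ⟨nat_lit 7, nat_lit 0x4800300070, nat_lit 0x1110103, nat_lit 0, nat_lit 4, nat_lit 0x47⟩ (t14_3871) (t14_12063)) (.node ⟨nat_lit 6, nat_lit 0x800280030, nat_lit 0x111202, nat_lit 0, nat_lit 4, nat_lit 0x47⟩ (t14_7967) (.nil)))))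
def t14_159 : Tr := .node ⟨nat_lit 7, nat_lit 0x4000200060, nat_lit 0x1010211, nat_lit 1, nat_lit 4, nat_lit 0x49⟩ (.nil) (.nil)
def t14_8351 : Tr := .node ⟨nat_lit 7, nat_lit 0x4000500064, nat_lit 0x101203, nat_lit 3, nat_lit 4, nat_lit 0x48⟩ (.nil) (.nil)
def t14_4255 : Tr := .node ⟨nat_lit 8, nat_lit 0x4000400080008400c4, nat_lit 0x20211000, nat_lit 1, nat_lit 4, nat_lit 0x49⟩ (.nil) (.nil)
def t14_12447 : Tr := .node ⟨nat_lit 7, nat_lit 0x40002000100060, nat_lit 0x10103, nat_lit 0, nat_lit 4, nat_lit 0x47⟩ (.nil) (.nil)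
def t14_2207 : Tr := .node ⟨nat_lit 6, nat_lit 0x1000280030, nat_lit 0x200212, nat_lit 1, nat_lit 4, nat_lit 0x47⟩ (.nil) (.nil)
def t14_10399 : Tr := .node ⟨nat_lit 6, nat_lit 0x20001000280028, nat_lit 0x100200, nat_lit 4, nat_lit 4, nat_lit 0x46⟩ (.nil) (.nil)
def t14_6303 : Tr := .node ⟨nat_lit 7, nat_lit 0x4000600060, nat_lit 0x11210, nat_lit 2, nat_lit 4, nat_lit 0x48⟩ (.nil) (.nil)
def t14_14495 : Tr := .node ⟨nat_lit 7, nat_lit 0x4000200060, nat_lit 0x11102, nat_lit 4, nat_lit 4, nat_lit 0x49⟩ (.nil) (.nil)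
def t14_1183 : Tr := .node ⟨nat_lit 6, nat_lit 0x280030, nat_lit 0x10111, nat_lit 3, nat_lit 4, nat_lit 0x47⟩ (.nil) (.nil)
def t14_9375 : Tr := .node ⟨nat_lit 8, nat_lit 0x80002000c000a0, nat_lit 0x112112, nat_lit 0, nat_lit 4, nat_lit 0x49⟩ (.nil) (.nil)
def t14_5279 : Tr := .node ⟨nat_lit 6, nat_lit 0x2000080030, nat_lit 0x121210, nat_lit 2, nat_lit 4, nat_lit 0x49⟩ (.nil) (.nil)
def t14_13471 : Tr := .node ⟨nat_lit 7, nat_lit 0x4000100060, nat_lit 0x10023, nat_lit 0, nat_lit 4, nat_lit 0x48⟩ (.nil) (.nil)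
def t14_3231 : Tr := .node ⟨nat_lit 7, nat_lit 0x2000500060, nat_lit 0x21202, nat_lit 0, nat_lit 4, nat_lit 0x48⟩ (.nil) (.nil)
def t14_11423 : Tr := .node ⟨nat_lit 8, nat_lit 0x40008000a000c800c8, nat_lit 0x10111020, nat_lit 1, nat_lit 4, nat_lit 0x47⟩ (.nil) (.nil)
def t14_7327 : Tr := .node ⟨nat_lit 7, nat_lit 0x40004000200068, nat_lit 0x1112011, nat_lit 2, nat_lit 4, nat_lit 0x49⟩ (.nil) (.nil)
def t14_15519 : Tr := .node ⟨nat_lit 8, nat_lit 0x800080002000c000d0, nat_lit 0x1020012, nat_lit 0, nat_lit 4, nat_lit 0x48⟩ (.nil) (.nil)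
def t14_671 : Tr := .node ⟨nat_lit 5, nat_lit 0x800100010, nat_lit 0x10310, nat_lit 5, nat_lit 4, nat_lit 0x47⟩ (.nil) (.nil)
def t14_8863 : Tr := .node ⟨nat_lit 8, nat_lit 0x2000800040008800c8, nat_lit 0x1001113, nat_lit 1, nat_lit 4, nat_lit 0x47⟩ (.nil) (.nil)
def t14_4767 : Tr := .node ⟨nat_lit 7, nat_lit 0x20001000600050, nat_lit 0x1000312, nat_lit 0, nat_lit 4, nat_lit 0x47⟩ (.nil) (.nil)
def t14_12959 : Tr := .node ⟨nat_lit 8, nat_lit 0x800010002000c0, nat_lit 0x1102010, nat_lit 0, nat_lit 4, nat_lit 0x49⟩ (.nil) (.nil)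
def t14_2719 : Tr := .node ⟨nat_lit 6, nat_lit 0x1000200022, nat_lit 0x110001, nat_lit 0, nat_lit 4, nat_lit 0x46⟩ (.nil) (.nil)
def t14_10911 : Tr := .node ⟨nat_lit 7, nat_lit 0x10006000600050, nat_lit 0x13202, nat_lit 0, nat_lit 4, nat_lit 0x47⟩ (.nil) (.nil)
def t14_6815 : Tr := .node ⟨nat_lit 8, nat_lit 0x80008000c0, nat_lit 0x111100, nat_lit 1, nat_lit 4, nat_lit 0x4a⟩ (.nil) (.nil)
def t14_15007 : Tr := .node ⟨nat_lit 9, nat_lit 0x1000110011001800140, nat_lit 0x1211101, nat_lit 0, nat_lit 4, nat_lit 0x49⟩ (.nil) (.nil)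
def t14_1695 : Tr := .node ⟨nat_lit 8, nat_lit 0x800040009000c000d0, nat_lit 0x111022, nat_lit 0, nat_lit 4, nat_lit 0x47⟩ (.nil) (.nil)
def t14_9887 : Tr := .node ⟨nat_lit 7, nat_lit 0x200020002000400042, nat_lit 0x1032100, nat_lit 3, nat_lit 4, nat_lit 0x49⟩ (.nil) (.nil)
def t14_5791 : Tr := .node ⟨nat_lit 7, nat_lit 0x4000100060, nat_lit 0x111102, nat_lit 3, nat_lit 4, nat_lit 0x49⟩ (.nil) (.nil)
def t14_13983 : Tr := .node ⟨nat_lit 6, nat_lit 0x200010, nat_lit 0x1122, nat_lit 1, nat_lit 4, nat_lit 0x48⟩ (.nil) (.nil)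
def t14_3743 : Tr := .node ⟨nat_lit 8, nat_lit 0x8000400040004000a000a0, nat_lit 0x10121010, nat_lit 1, nat_lit 4, nat_lit 0x48⟩ (.nil) (.nil)
def t14_11935 : Tr := .node ⟨nat_lit 4, nat_lit 0x80004, nat_lit 0x3003, nat_lit 3, nat_lit 3, nat_lit 0x46⟩ (.nil) (.nil)
def t14_7839 : Tr := .node ⟨nat_lit 3, nat_lit 0x40004, nat_lit 0x111, nat_lit 0xb, nat_lit 3, nat_lit 0x45⟩ (.nil) (.nil)
def t9_159 : Tr := .node ⟨nat_lit 3, nat_lit 0, nat_lit 0x331, nat_lit 9, nat_lit 4, nat_lit 0x49⟩ (.node ⟨nat_lit 5, nat_lit 0x180018, nat_lit 0x10321, nat_lit 5, nat_lit 4, nat_lit 0x47⟩ (.node ⟨nat_lit 5, nat_lit 0x140018, nat_lit 0x3121, nat_lit 3, nat_lit 4, nat_lit 0x47⟩ (.node ⟨nat_lit 2, nat_lit 2, nat_lit 0x10, nat_lit 8, nat_lit 3, nat_lit 0x43⟩ (.node ⟨nat_lit 6, nat_lit 0x1000280034, nat_lit 0x21202, nat_lit 1, nat_lit 4, nat_lit 0x47⟩ (t14_159) (t14_8351))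 (.node ⟨nat_lit 6, nat_lit 0x2000300038, nat_lit 0x101023, nat_lit 2, nat_lit 4, nat_lit 0x46⟩ (t14_4255) (t14_12447))) (.node ⟨nat_lit 3, nat_lit 4, nat_lit 0x232, nat_lit 0xc, nat_lit 4, nat_lit 0x49⟩ (.node ⟨nat_lit 7, nat_lit 0x40002000600070, nat_lit 0x22103, nat_lit 0, nat_lit 4, nat_lit 0x47⟩ (t14_2207) (t14_10399)) (.node ⟨nat_lit 7, nat_lit 0x400060, nat_lit 0x121122, nat_lit 0, nat_lit 4, nat_lit 0x4a⟩ (t14_6303) (t14_14495)))) (.node ⟨nat_lit 7, nat_lit 0x60, nat_lit 0x2111111, nat_lit 0, nat_lit 4, nat_lit 0x4b⟩ (.node ⟨nat_lit 7, nat_lit 0x10004000440060, nat_lit 0x2100211, nat_lit 1, nat_lit 4, nat_lit 0x49⟩ (.node ⟨nat_lit 8, nat_lit 0x8000800080004000a00090, nat_lit 0x1000400, nat_lit 1, nat_lit 4, nat_lit 0x48⟩ (t14_1183) (t14_9375)) (.node ⟨nat_lit 8, nat_lit 0x800020008800c0, nat_lit 0x11022011, nat_lit 0, nat_lit 4, nat_lit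 0x4a⟩ (t14_5279) (t14_13471))) (.node ⟨nat_lit 6, nat_lit 0x1000200032, nat_lit 0x11220, nat_lit 2, nat_lit 4, nat_lit 0x47⟩ (.node ⟨nat_lit 6, nat_lit 0x200030, nat_lit 0x102230, nat_lit 2, nat_lit 4, nat_lit 0x4a⟩ (t14_3231) (t14_11423)) (.node ⟨nat_lit 6, nat_lit 0x2000080030, nat_lit 0x100110, nat_lit 1, nat_lit 4, nat_lit 0x46⟩ (t14_7327) (t14_15519))))) (.node ⟨nat_lit 6, nat_lit 0x2000200010, nat_lit 0x131112, nat_lit 0, nat_lit 4, nat_lit 0x4a⟩ (.node ⟨nat_lit 6, nat_lit 0x2000200010, nat_lit 0x121112, nat_lit 0, nat_lit 4, nat_lit 0x49⟩ (.node ⟨nat_lit 7, nat_lit 0x40001000100060, nat_lit 0x201110, nat_lit 0, nat_lit 4, nat_lit 0x47⟩ (.node ⟨nat_lit 7, nat_lit 0x40002000500068, nat_lit 0x2101201, nat_lit 1, nat_lit 4, nat_lit 0x48⟩ (t14_671) (t14_8863)) (.node ⟨nat_lit 8, nat_lit 0x8000800040004000a000c8, nat_lit 0x1202111, nat_lit 1,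 nat_lit 4, nat_lit 0x48⟩ (t14_4767) (t14_12959))) (.node ⟨nat_lit 7, nat_lit 0x40002000480064, nat_lit 0x110100, nat_lit 0, nat_lit 4, nat_lit 0x46⟩ (.node ⟨nat_lit 6, nat_lit 0x2000100030, nat_lit 0x111130, nat_lit 1, nat_lit 3, nat_lit 0x47⟩ (t14_2719) (t14_10911)) (.node ⟨nat_lit 7, nat_lit 0x20004000400044, nat_lit 0x112101, nat_lit 1, nat_lit 4, nat_lit 0x48⟩ (t14_6815) (t14_15007)))) (.node ⟨nat_lit 3, nat_lit 0x40004, nat_lit 0x132, nat_lit 8, nat_lit 4, nat_lit 0x47⟩ (.node ⟨nat_lit 6, nat_lit 0x200010, nat_lit 0x221101, nat_lit 0, nat_lit 3, nat_lit 0x49⟩ (.node ⟨nat_lit 5, nat_lit 0x18001c, nat_lit 0x11, nat_lit 3, nat_lit 4, nat_lit 0x43⟩ (t14_1695) (t14_9887)) (.node ⟨nat_lit 7, nat_lit 0x4000600060, nat_lit 0x22200, nat_lit 3, nat_lit 4, nat_lit 0x49⟩ (t14_5791) (t14_13983))) (.node ⟨nat_lit 8, nat_lit 0x80008000c00030, nat_lit 0x202102,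 nat_lit 0, nat_lit 4, nat_lit 0x49⟩ (.node ⟨nat_lit 5, nat_lit 0x18, nat_lit 0x11100, nat_lit 0, nat_lit 4, nat_lit 0x46⟩ (t14_3743) (t14_11935)) (.node ⟨nat_lit 5, nat_lit 0x140018, nat_lit 0x10022, nat_lit 3, nat_lit 4, nat_lit 0x45⟩ (t14_7839) (.nil)))))
def t14_415 : Tr := .node ⟨nat_lit 6, nat_lit 0x2000300038, nat_lit 0x102102, nat_lit 3, nat_lit 4, nat_lit 0x47⟩ (.nil) (.nil)
def t14_8607 : Tr := .node ⟨nat_lit 7, nat_lit 0x10001800600060, nat_lit 0x1120, nat_lit 0, nat_lit 4, nat_lit 0x45⟩ (.nil) (.nil)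
def t14_4511 : Tr := .node ⟨nat_lit 6, nat_lit 0x20002800300038, nat_lit 0x111012, nat_lit 6, nat_lit 4, nat_lit 0x47⟩ (.nil) (.nil)
def t14_12703 : Tr := .node ⟨nat_lit 7, nat_lit 0x2000500060, nat_lit 0x1002002, nat_lit 1, nat_lit 4, nat_lit 0x48⟩ (.nil) (.nil)
def t14_2463 : Tr := .node ⟨nat_lit 7, nat_lit 0x6000600050, nat_lit 0x12210, nat_lit 3, nat_lit 4, nat_lit 0x48⟩ (.nil) (.nil)
def t14_10655 : Tr := .node ⟨nat_lit 7, nat_lit 0x10001000500060, nat_lit 0x1020, nat_lit 0, nat_lit 4, nat_lit 0x46⟩ (.nil) (.nil)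
def t14_6559 : Tr := .node ⟨nat_lit 7, nat_lit 0x10002000400042, nat_lit 0x1011020, nat_lit 0, nat_lit 4, nat_lit 0x48⟩ (.nil) (.nil)
def t14_14751 : Tr := .node ⟨nat_lit 8, nat_lit 0x80004000c000a000c8, nat_lit 0x1011211, nat_lit 0, nat_lit 4, nat_lit 0x47⟩ (.nil) (.nil)
def t14_1439 : Tr := .node ⟨nat_lit 7, nat_lit 0x4000400060, nat_lit 0x11310, nat_lit 0, nat_lit 4, nat_lit 0x49⟩ (.nil) (.nil)
def t14_9631 : Tr := .node ⟨nat_lit 6, nat_lit 0x20002000100030, nat_lit 0x2012, nat_lit 5, nat_lit 4, nat_lit 0x47⟩ (.nil) (.nil)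
def t14_5535 : Tr := .node ⟨nat_lit 5, nat_lit 0x80010001a, nat_lit 0x10103, nat_lit 3, nat_lit 4, nat_lit 0x44⟩ (.nil) (.nil)
def t14_13727 : Tr := .node ⟨nat_lit 7, nat_lit 0x40004800300068, nat_lit 1, nat_lit 1, nat_lit 4, nat_lit 0x44⟩ (.nil) (.nil)
def t14_3487 : Tr := .node ⟨nat_lit 6, nat_lit 0x10001000200038, nat_lit 0x20, nat_lit 3, nat_lit 4, nat_lit 0x45⟩ (.nil) (.nil)
def t14_11679 : Tr := .node ⟨nat_lit 7, nat_lit 0x4000600060, nat_lit 0x11210, nat_lit 5, nat_lit 4, nat_lit 0x49⟩ (.nil) (.nil)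
def t14_7583 : Tr := .node ⟨nat_lit 6, nat_lit 0x2000080030, nat_lit 0x120, nat_lit 3, nat_lit 4, nat_lit 0x46⟩ (.nil) (.nil)
def t14_927 : Tr := .node ⟨nat_lit 8, nat_lit 0x800080004000880090, nat_lit 0x1112120, nat_lit 0, nat_lit 4, nat_lit 0x49⟩ (.nil) (.nil)
def t14_9119 : Tr := .node ⟨nat_lit 9, nat_lit 0x10001000080011001200180, nat_lit 0x11100003, nat_lit 0, nat_lit 4, nat_lit 0x49⟩ (.nil) (.nil)
def t14_5023 : Tr := .node ⟨nat_lit 6, nat_lit 0x800080030, nat_lit 0x200001, nat_lit 1, nat_lit 4, nat_lit 0x46⟩ (.nil) (.nil)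
def t14_13215 : Tr := .node ⟨nat_lit 9, nat_lit 0x4001000080008001100188, nat_lit 0x20000, nat_lit 3, nat_lit 4, nat_lit 0x48⟩ (.nil) (.nil)
def t14_2975 : Tr := .node ⟨nat_lit 7, nat_lit 0x400040002000480050, nat_lit 0x121011, nat_lit 4, nat_lit 4, nat_lit 0x48⟩ (.nil) (.nil)
def t14_11167 : Tr := .node ⟨nat_lit 8, nat_lit 0x1000c000a000a0, nat_lit 0x1100120, nat_lit 1, nat_lit 4, nat_lit 0x48⟩ (.nil) (.nil)
def t14_7071 : Tr := .node ⟨nat_lit 7, nat_lit 0x40002000200020, nat_lit 0x120111, nat_lit 1, nat_lit 3, nat_lit 0x48⟩ (.nil) (.nil)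
def t14_15263 : Tr := .node ⟨nat_lit 4, nat_lit 0x8000c, nat_lit 0x1111, nat_lit 6, nat_lit 3, nat_lit 0x45⟩ (.nil) (.nil)
def t14_1951 : Tr := .node ⟨nat_lit 8, nat_lit 0x4000a0009000c0, nat_lit 0x20122, nat_lit 1, nat_lit 4, nat_lit 0x48⟩ (.nil) (.nil)
def t14_10143 : Tr := .node ⟨nat_lit 7, nat_lit 0x40004000100060, nat_lit 0x1020, nat_lit 2, nat_lit 4, nat_lit 0x47⟩ (.nil) (.nil)
def t14_6047 : Tr := .node ⟨nat_lit 8, nat_lit 0x80008000c0, nat_lit 0x1211110, nat_lit 1, nat_lit 4, nat_lit 0x4b⟩ (.nil) (.nil)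
def t14_14239 : Tr := .node ⟨nat_lit 8, nat_lit 0x800040004000a000a000c0, nat_lit 0x10101, nat_lit 1, nat_lit 4, nat_lit 0x46⟩ (.nil) (.nil)
def t14_3999 : Tr := .node ⟨nat_lit 7, nat_lit 0x5000180060, nat_lit 0x10102, nat_lit 1, nat_lit 4, nat_lit 0x46⟩ (.nil) (.nil)
def t14_12191 : Tr := .node ⟨nat_lit 7, nat_lit 0x200020004000400064, nat_lit 0x21120, nat_lit 2, nat_lit 4, nat_lit 0x47⟩ (.nil) (.nil)
def t14_8095 : Tr := .node ⟨nat_lit 7, nat_lit 0x40001000480060, nat_lit 0x11040, nat_lit 0, nat_lit 4, nat_lit 0x47⟩ (.nil) (.nil)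
def t9_415 : Tr := .node ⟨nat_lit 6, nat_lit 0x100020, nat_lit 0x123121, nat_lit 0, nat_lit 4, nat_lit 0x4b⟩ (.node ⟨nat_lit 6, nat_lit 0x2000200020, nat_lit 0x31210, nat_lit 5, nat_lit 4, nat_lit 0x4a⟩ (.node ⟨nat_lit 4, nat_lit 0x40008, nat_lit 0x2022, nat_lit 3, nat_lit 4, nat_lit 0x46⟩ (.node ⟨nat_lit 6, nat_lit 0x1000280034, nat_lit 0x110021, nat_lit 0, nat_lit 4, nat_lit 0x45⟩ (.node ⟨nat_lit 5, nat_lit 0x140018, nat_lit 0x12011, nat_lit 2, nat_lit 4, nat_lit 0x46⟩ (t14_415) (t14_8607)) (.node ⟨nat_lit 6, nat_lit 0x2000200024, nat_lit 0x111201, nat_lit 8, nat_lit 4, nat_lit 0x4a⟩ (t14_4511) (t14_12703))) (.node ⟨nat_lit 7, nat_lit 0x4000100060, nat_lit 0x2011112, nat_lit 2, nat_lit 4, nat_lit 0x4a⟩ (.node ⟨nat_lit 6, nat_lit 0x2000100032, nat_lit 0x11021, nat_lit 2, nat_lit 4, nat_lit 0x47⟩ (t14_2463) (t14_10655)) (.node ⟨nat_lit 7, nat_lit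 0x4000440060, nat_lit 0x21120, nat_lit 1, nat_lit 4, nat_lit 0x48⟩ (t14_6559) (t14_14751)))) (.node ⟨nat_lit 5, nat_lit 0x40018, nat_lit 0x20112, nat_lit 3, nat_lit 4, nat_lit 0x47⟩ (.node ⟨nat_lit 5, nat_lit 0x140018, nat_lit 0x12121, nat_lit 3, nat_lit 4, nat_lit 0x47⟩ (.node ⟨nat_lit 6, nat_lit 0x1000200034, nat_lit 0x11000, nat_lit 0, nat_lit 4, nat_lit 0x45⟩ (t14_1439) (t14_9631)) (.node ⟨nat_lit 7, nat_lit 0x2000500060, nat_lit 0x1012021, nat_lit 0, nat_lit 3, nat_lit 0x47⟩ (t14_5535) (t14_13727))) (.node ⟨nat_lit 6, nat_lit 0x200020, nat_lit 0x11131, nat_lit 1, nat_lit 4, nat_lit 0x49⟩ (.node ⟨nat_lit 7, nat_lit 0x40005000300060, nat_lit 0x111030, nat_lit 1, nat_lit 4, nat_lit 0x47⟩ (t14_3487) (t14_11679)) (.node ⟨nat_lit 7, nat_lit 0x800500060, nat_lit 0x1111121, nat_lit 2, nat_lit 4, nat_lit 0x49⟩ (t14_7583) (.nil))))) (.node ⟨nat_lit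 6, nat_lit 0x1000100020, nat_lit 0x203001, nat_lit 1, nat_lit 4, nat_lit 0x49⟩ (.node ⟨nat_lit 4, nat_lit 0x40008, nat_lit 0x2211, nat_lit 3, nat_lit 4, nat_lit 0x47⟩ (.node ⟨nat_lit 7, nat_lit 0x40, nat_lit 0x111110, nat_lit 1, nat_lit 4, nat_lit 0x4b⟩ (.node ⟨nat_lit 6, nat_lit 0x300038, nat_lit 0x111213, nat_lit 1, nat_lit 4, nat_lit 0x48⟩ (t14_927) (t14_9119)) (.node ⟨nat_lit 8, nat_lit 0x800080008000400090, nat_lit 0x2111120, nat_lit 0, nat_lit 4, nat_lit 0x4a⟩ (t14_5023) (t14_13215))) (.node ⟨nat_lit 6, nat_lit 0x2000080030, nat_lit 0x111310, nat_lit 1, nat_lit 4, nat_lit 0x48⟩ (.node ⟨nat_lit 6, nat_lit 0x20002000200010, nat_lit 0x12102, nat_lit 1, nat_lit 3, nat_lit 0x46⟩ (t14_2975) (t14_11167)) (.node ⟨nat_lit 8, nat_lit 0x800080004000a000d0, nat_lit 0x1110212, nat_lit 0, nat_lit 4, nat_lit 0x48⟩ (t14_7071) (t14_15263)))) (.node ⟨nat_lit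 5, nat_lit 0x40018, nat_lit 0x11211, nat_lit 1, nat_lit 4, nat_lit 0x47⟩ (.node ⟨nat_lit 6, nat_lit 0x800300038, nat_lit 0x201012, nat_lit 1, nat_lit 4, nat_lit 0x46⟩ (.node ⟨nat_lit 7, nat_lit 0x400060, nat_lit 0x1021131, nat_lit 0, nat_lit 4, nat_lit 0x4b⟩ (t14_1951) (t14_10143)) (.node ⟨nat_lit 7, nat_lit 0x4000600060, nat_lit 0x21120, nat_lit 0, nat_lit 4, nat_lit 0x48⟩ (t14_6047) (t14_14239))) (.node ⟨nat_lit 7, nat_lit 0x40004000100060, nat_lit 0x112110, nat_lit 0, nat_lit 4, nat_lit 0x48⟩ (.node ⟨nat_lit 5, nat_lit 0x1000080008, nat_lit 0x1020, nat_lit 0, nat_lit 3, nat_lit 0x45⟩ (t14_3999) (t14_12191)) (.node ⟨nat_lit 9, nat_lit 0x1000100010000800088012001c0, nat_lit 0x10111011, nat_lit 1, nat_lit 4, nat_lit 0x48⟩ (t14_8095) (.nil)))))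
def t14_95 : Tr := .node ⟨nat_lit 6, nat_lit 0x2000200030, nat_lit 0x112111, nat_lit 3, nat_lit 4, nat_lit 0x49⟩ (.nil) (.nil)
def t14_8287 : Tr := .node ⟨nat_lit 8, nat_lit 0x20008000c000c4, nat_lit 0x10203, nat_lit 2, nat_lit 4, nat_lit 0x48⟩ (.nil) (.nil)
def t14_4191 : Tr := .node ⟨nat_lit 8, nat_lit 0x4000400080005000600088, nat_lit 0x10112001, nat_lit 0, nat_lit 4, nat_lit 0x47⟩ (.nil) (.nil)
def t14_12383 : Tr := .node ⟨nat_lit 7, nat_lit 0x400040002000200070, nat_lit 0x1001310, nat_lit 3, nat_lit 4, nat_lit 0x48⟩ (.nil) (.nil)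
def t14_2143 : Tr := .node ⟨nat_lit 7, nat_lit 0x10002000400060, nat_lit 0x121002, nat_lit 0, nat_lit 3, nat_lit 0x47⟩ (.nil) (.nil)
def t14_10335 : Tr := .node ⟨nat_lit 7, nat_lit 0x10005000600060, nat_lit 0x111022, nat_lit 2, nat_lit 4, nat_lit 0x47⟩ (.nil) (.nil)
def t14_6239 : Tr := .node ⟨nat_lit 6, nat_lit 0x200010, nat_lit 0x1100, nat_lit 7, nat_lit 4, nat_lit 0x49⟩ (.nil) (.nil)
def t14_14431 : Tr := .node ⟨nat_lit 7, nat_lit 0x20006000500068, nat_lit 0x1210, nat_lit 1, nat_lit 4, nat_lit 0x45⟩ (.nil) (.nil)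
def t14_1119 : Tr := .node ⟨nat_lit 6, nat_lit 0x1000200008, nat_lit 0x101203, nat_lit 0, nat_lit 4, nat_lit 0x48⟩ (.nil) (.nil)
def t14_9311 : Tr := .node ⟨nat_lit 7, nat_lit 0x10006000600050, nat_lit 0x110221, nat_lit 2, nat_lit 4, nat_lit 0x47⟩ (.nil) (.nil)
def t14_5215 : Tr := .node ⟨nat_lit 8, nat_lit 0x80008000800040004000a0, nat_lit 0x211101, nat_lit 3, nat_lit 4, nat_lit 0x49⟩ (.nil) (.nil)
def t14_13407 : Tr := .node ⟨nat_lit 7, nat_lit 0x10001000180060, nat_lit 0x2003, nat_lit 1, nat_lit 4, nat_lit 0x47⟩ (.nil) (.nil)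
def t14_3167 : Tr := .node ⟨nat_lit 7, nat_lit 0x20006000500068, nat_lit 0x10211, nat_lit 0, nat_lit 4, nat_lit 0x45⟩ (.nil) (.nil)
def t14_11359 : Tr := .node ⟨nat_lit 6, nat_lit 0x10001000200020, nat_lit 0x1011, nat_lit 1, nat_lit 3, nat_lit 0x45⟩ (.nil) (.nil)
def t14_7263 : Tr := .node ⟨nat_lit 7, nat_lit 0x20002000500060, nat_lit 0x22010, nat_lit 3, nat_lit 4, nat_lit 0x48⟩ (.nil) (.nil)
def t14_15455 : Tr := .node ⟨nat_lit 7, nat_lit 0x40001000500060, nat_lit 0x100011, nat_lit 0, nat_lit 4, nat_lit 0x46⟩ (.nil) (.nil)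
def t14_607 : Tr := .node ⟨nat_lit 6, nat_lit 0x2000300034, nat_lit 0x103022, nat_lit 2, nat_lit 4, nat_lit 0x47⟩ (.nil) (.nil)
def t14_8799 : Tr := .node ⟨nat_lit 8, nat_lit 0x4000400080008800600060, nat_lit 0x10100041, nat_lit 0, nat_lit 4, nat_lit 0x48⟩ (.nil) (.nil)
def t14_4703 : Tr := .node ⟨nat_lit 6, nat_lit 0x1000200030, nat_lit 0x111100, nat_lit 0, nat_lit 4, nat_lit 0x47⟩ (.nil) (.nil)
def t14_12895 : Tr := .node ⟨nat_lit 7, nat_lit 0x40004000200060, nat_lit 0x10003, nat_lit 1, nat_lit 3, nat_lit 0x46⟩ (.nil) (.nil)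
def t14_2655 : Tr := .node ⟨nat_lit 4, nat_lit 0xe, nat_lit 0x2000, nat_lit 3, nat_lit 4, nat_lit 0x44⟩ (.nil) (.nil)
def t14_10847 : Tr := .node ⟨nat_lit 8, nat_lit 0x4000400080008800600060, nat_lit 0x10200020, nat_lit 1, nat_lit 4, nat_lit 0x48⟩ (.nil) (.nil)
def t14_6751 : Tr := .node ⟨nat_lit 7, nat_lit 0x1000600018, nat_lit 0x1002120, nat_lit 0, nat_lit 4, nat_lit 0x48⟩ (.nil) (.nil)
def t14_14943 : Tr := .node ⟨nat_lit 5, nat_lit 0x10001000180018, nat_lit 0x1211, nat_lit 5, nat_lit 4, nat_lit 0x46⟩ (.nil) (.nil)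
def t14_1631 : Tr := .node ⟨nat_lit 8, nat_lit 0x400080008800c000c8, nat_lit 0x10121020, nat_lit 0, nat_lit 4, nat_lit 0x48⟩ (.nil) (.nil)
def t14_9823 : Tr := .node ⟨nat_lit 8, nat_lit 0x400080006000a000c8, nat_lit 0x12100, nat_lit 0, nat_lit 4, nat_lit 0x46⟩ (.nil) (.nil)
def t14_5727 : Tr := .node ⟨nat_lit 6, nat_lit 0x2000100030, nat_lit 0x1303, nat_lit 0, nat_lit 4, nat_lit 0x47⟩ (.nil) (.nil)
def t14_13919 : Tr := .node ⟨nat_lit 7, nat_lit 0x400040002000240050, nat_lit 0x1000102, nat_lit 0, nat_lit 4, nat_lit 0x46⟩ (.nil) (.nil)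
def t14_3679 : Tr := .node ⟨nat_lit 6, nat_lit 0x300028, nat_lit 0x2221, nat_lit 2, nat_lit 4, nat_lit 0x48⟩ (.nil) (.nil)
def t14_11871 : Tr := .node ⟨nat_lit 4, nat_lit 0x8000c, nat_lit 0x2010, nat_lit 4, nat_lit 3, nat_lit 0x45⟩ (.nil) (.nil)
def t14_7775 : Tr := .node ⟨nat_lit 4, nat_lit 0x8000c, nat_lit 0x142, nat_lit 9, nat_lit 4, nat_lit 0x47⟩ (.nil) (.nil)
def t9_95 : Tr := .node ⟨nat_lit 4, nat_lit 8, nat_lit 0x1110, nat_lit 5, nat_lit 3, nat_lit 0x46⟩ (.node ⟨nat_lit 6, nat_lit 0x20, nat_lit 0x132211, nat_lit 0, nat_lit 4, nat_lit 0x4c⟩ (.node ⟨nat_lit 6, nat_lit 0x2000300030, nat_lit 0x13031, nat_lit 0, nat_lit 3, nat_lit 0x46⟩ (.node ⟨nat_lit 6, nat_lit 0x30, nat_lit 0x112110, nat_lit 0, nat_lit 4, nat_lit 0x49⟩ (.node ⟨nat_lit 6, nat_lit 0x2000100008, nat_lit 0x22013, nat_lit 2, nat_lit 4, nat_lit 0x4a⟩ (t14_95) (t14_8287)) (.node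 ⟨nat_lit 5, nat_lit 0x100008, nat_lit 0x2000, nat_lit 0, nat_lit 4, nat_lit 0x45⟩ (t14_4191) (t14_12383))) (.node ⟨nat_lit 5, nat_lit 0x100010001c, nat_lit 0x12122, nat_lit 6, nat_lit 4, nat_lit 0x48⟩ (.node ⟨nat_lit 6, nat_lit 0x300030, nat_lit 0x112131, nat_lit 0, nat_lit 3, nat_lit 0x47⟩ (t14_2143) (t14_10335)) (.node ⟨nat_lit 6, nat_lit 0x1000080020, nat_lit 0x201210, nat_lit 1, nat_lit 4, nat_lit 0x48⟩ (t14_6239) (t14_14431)))) (.node ⟨nat_lit 6, nat_lit 0x300030, nat_lit 0x102231, nat_lit 0, nat_lit 4, nat_lit 0x48⟩ (.node ⟨nat_lit 7, nat_lit 0x2000400040, nat_lit 0x2111111, nat_lit 1, nat_lit 4, nat_lit 0x4b⟩ (.node ⟨nat_lit 6, nat_lit 0x800200030, nat_lit 0x112031, nat_lit 0, nat_lit 3, nat_lit 0x47⟩ (t14_1119) (t14_9311)) (.node ⟨nat_lit 7, nat_lit 0x20005000500060, nat_lit 0x111212, nat_lit 1, nat_lit 4, nat_lit 0x47⟩ (t14_5215) (t14_13407)))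 (.node ⟨nat_lit 7, nat_lit 0x4000100020, nat_lit 0x211001, nat_lit 2, nat_lit 4, nat_lit 0x4a⟩ (.node ⟨nat_lit 6, nat_lit 0x2000300038, nat_lit 0x102103, nat_lit 3, nat_lit 4, nat_lit 0x47⟩ (t14_3167) (t14_11359)) (.node ⟨nat_lit 7, nat_lit 0x40001000100060, nat_lit 0x101102, nat_lit 0, nat_lit 4, nat_lit 0x47⟩ (t14_7263) (t14_15455))))) (.node ⟨nat_lit 4, nat_lit 0x80004, nat_lit 0x201, nat_lit 3, nat_lit 3, nat_lit 0x45⟩ (.node ⟨nat_lit 3, nat_lit 4, nat_lit 0x212, nat_lit 8, nat_lit 4, nat_lit 0x47⟩ (.node ⟨nat_lit 7, nat_lit 0x1000600050, nat_lit 0x2011, nat_lit 1, nat_lit 4, nat_lit 0x47⟩ (.node ⟨nat_lit 6, nat_lit 0x20002000100028, nat_lit 0x212012, nat_lit 2, nat_lit 4, nat_lit 0x49⟩ (t14_607) (t14_8799)) (.node ⟨nat_lit 7, nat_lit 0x10002000500060, nat_lit 0x1110122, nat_lit 0, nat_lit 4, nat_lit 0x48⟩ (t14_4703) (t14_12895))) (.node ⟨nat_lit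 6, nat_lit 0x200030, nat_lit 0x101122, nat_lit 0, nat_lit 4, nat_lit 0x48⟩ (.node ⟨nat_lit 8, nat_lit 0x200080001000c0, nat_lit 0x12000203, nat_lit 0, nat_lit 4, nat_lit 0x4a⟩ (t14_2655) (t14_10847)) (.node ⟨nat_lit 9, nat_lit 0x10001000040008001100120, nat_lit 0x111111100, nat_lit 0, nat_lit 4, nat_lit 0x4a⟩ (t14_6751) (t14_14943)))) (.node ⟨nat_lit 7, nat_lit 0x20004000440068, nat_lit 0x1211000, nat_lit 1, nat_lit 4, nat_lit 0x48⟩ (.node ⟨nat_lit 7, nat_lit 0x10002000640058, nat_lit 0x2211010, nat_lit 1, nat_lit 4, nat_lit 0x48⟩ (.node ⟨nat_lit 5, nat_lit 0x1000100018, nat_lit 0x110, nat_lit 3, nat_lit 3, nat_lit 0x44⟩ (t14_1631) (t14_9823)) (.node ⟨nat_lit 7, nat_lit 0x40004000400048, nat_lit 0x221001, nat_lit 5, nat_lit 4, nat_lit 0x4a⟩ (t14_5727) (t14_13919))) (.node ⟨nat_lit 7, nat_lit 0x4000180060, nat_lit 0x120022, nat_lit 0, nat_lit 4,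 nat_lit 0x48⟩ (.node ⟨nat_lit 6, nat_lit 0x2000080030, nat_lit 0x1001, nat_lit 0, nat_lit 4, nat_lit 0x45⟩ (t14_3679) (t14_11871)) (.node ⟨nat_lit 6, nat_lit 0x2800280030, nat_lit 0x110211, nat_lit 7, nat_lit 4, nat_lit 0x47⟩ (t14_7775) (.nil)))))
def t14_351 : Tr := .node ⟨nat_lit 6, nat_lit 0x2000280034, nat_lit 0x102221, nat_lit 2, nat_lit 4, nat_lit 0x48⟩ (.nil) (.nil)
def t14_8543 : Tr := .node ⟨nat_lit 7, nat_lit 0x4000440044, nat_lit 0x1111141, nat_lit 0, nat_lit 4, nat_lit 0x4a⟩ (.nil) (.nil)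
def t14_4447 : Tr := .node ⟨nat_lit 7, nat_lit 0x40004000200010, nat_lit 0x1112100, nat_lit 4, nat_lit 4, nat_lit 0x4a⟩ (.nil) (.nil)
def t14_12639 : Tr := .node ⟨nat_lit 6, nat_lit 0x800300028, nat_lit 0x10110, nat_lit 3, nat_lit 4, nat_lit 0x46⟩ (.nil) (.nil)
def t14_2399 : Tr := .node ⟨nat_lit 7, nat_lit 0x40006000680068, nat_lit 0x1020210, nat_lit 3, nat_lit 4, nat_lit 0x47⟩ (.nil) (.nil)
def t14_10591 : Tr := .node ⟨nat_lit 6, nat_lit 0x2000080030, nat_lit 0x2000, nat_lit 1, nat_lit 4, nat_lit 0x46⟩ (.nil) (.nil)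
def t14_6495 : Tr := .node ⟨nat_lit 6, nat_lit 0x2000080030, nat_lit 0x101111, nat_lit 5, nat_lit 4, nat_lit 0x48⟩ (.nil) (.nil)
def t14_14687 : Tr := .node ⟨nat_lit 9, nat_lit 0x10000800080012001900190, nat_lit 0x111111, nat_lit 0, nat_lit 4, nat_lit 0x47⟩ (.nil) (.nil)
def t14_1375 : Tr := .node ⟨nat_lit 7, nat_lit 0x200020004000700070, nat_lit 0x102310, nat_lit 2, nat_lit 4, nat_lit 0x47⟩ (.nil) (.nil)
def t14_9567 : Tr := .node ⟨nat_lit 8, nat_lit 0x80002000c000d000d0, nat_lit 0x110220, nat_lit 0, nat_lit 4, nat_lit 0x46⟩ (.nil) (.nil)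
def t14_5471 : Tr := .node ⟨nat_lit 6, nat_lit 0x800200032, nat_lit 0x11131, nat_lit 1, nat_lit 4, nat_lit 0x47⟩ (.nil) (.nil)
def t14_13663 : Tr := .node ⟨nat_lit 7, nat_lit 0x4000200010, nat_lit 0x3002, nat_lit 1, nat_lit 4, nat_lit 0x49⟩ (.nil) (.nil)
def t14_3423 : Tr := .node ⟨nat_lit 6, nat_lit 0x2000080030, nat_lit 0x2011, nat_lit 2, nat_lit 4, nat_lit 0x47⟩ (.nil) (.nil)
def t14_11615 : Tr := .node ⟨nat_lit 8, nat_lit 0x200080008800c000c0, nat_lit 0x2110, nat_lit 5, nat_lit 4, nat_lit 0x48⟩ (.nil) (.nil)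
def t14_7519 : Tr := .node ⟨nat_lit 7, nat_lit 0x40002000100010, nat_lit 0x10, nat_lit 0xf, nat_lit 4, nat_lit 0x4a⟩ (.nil) (.nil)
def t14_863 : Tr := .node ⟨nat_lit 5, nat_lit 0x100018001c, nat_lit 0x1221, nat_lit 7, nat_lit 4, nat_lit 0x46⟩ (.nil) (.nil)
def t14_9055 : Tr := .node ⟨nat_lit 7, nat_lit 0x40001000600060, nat_lit 0x12021, nat_lit 1, nat_lit 4, nat_lit 0x47⟩ (.nil) (.nil)
def t14_4959 : Tr := .node ⟨nat_lit 7, nat_lit 0x10001000600060, nat_lit 0x1101031, nat_lit 2, nat_lit 4, nat_lit 0x48⟩ (.nil) (.nil)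
def t14_13151 : Tr := .node ⟨nat_lit 7, nat_lit 0x10002000500060, nat_lit 0x132, nat_lit 0, nat_lit 4, nat_lit 0x46⟩ (.nil) (.nil)
def t14_2911 : Tr := .node ⟨nat_lit 7, nat_lit 0x20006000500068, nat_lit 0x211102, nat_lit 0, nat_lit 4, nat_lit 0x47⟩ (.nil) (.nil)
def t14_11103 : Tr := .node ⟨nat_lit 5, nat_lit 0x100012, nat_lit 0x2112, nat_lit 4, nat_lit 4, nat_lit 0x47⟩ (.nil) (.nil)
def t14_7007 : Tr := .node ⟨nat_lit 7, nat_lit 0x40001000600060, nat_lit 0x1013111, nat_lit 0, nat_lit 4, nat_lit 0x48⟩ (.nil) (.nil)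
def t14_15199 : Tr := .node ⟨nat_lit 8, nat_lit 0x200040003000a000c8, nat_lit 0x11010110, nat_lit 1, nat_lit 4, nat_lit 0x47⟩ (.nil) (.nil)
def t14_1887 : Tr := .node ⟨nat_lit 6, nat_lit 0x20002000100010, nat_lit 0x2110, nat_lit 0, nat_lit 3, nat_lit 0x45⟩ (.nil) (.nil)
def t14_10079 : Tr := .node ⟨nat_lit 7, nat_lit 0x40005000500060, nat_lit 0x101202, nat_lit 4, nat_lit 4, nat_lit 0x47⟩ (.nil) (.nil)
def t14_5983 : Tr := .node ⟨nat_lit 7, nat_lit 0x4000400040, nat_lit 0x211110, nat_lit 5, nat_lit 4, nat_lit 0x4b⟩ (.nil) (.nil)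
def t14_14175 : Tr := .node ⟨nat_lit 6, nat_lit 0x10002000300034, nat_lit 0x101120, nat_lit 7, nat_lit 4, nat_lit 0x47⟩ (.nil) (.nil)
def t14_3935 : Tr := .node ⟨nat_lit 7, nat_lit 0x40002000500068, nat_lit 0x1001301, nat_lit 1, nat_lit 4, nat_lit 0x47⟩ (.nil) (.nil)
def t14_12127 : Tr := .node ⟨nat_lit 5, nat_lit 0x140018, nat_lit 0x2120, nat_lit 6, nat_lit 4, nat_lit 0x47⟩ (.nil) (.nil)
def t14_8031 : Tr := .node ⟨nat_lit 7, nat_lit 0x2000400042, nat_lit 0x11013, nat_lit 0, nat_lit 4, nat_lit 0x48⟩ (.nil) (.nil)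
def t9_351 : Tr := .node ⟨nat_lit 5, nat_lit 0, nat_lit 0x33311, nat_lit 0, nat_lit 4, nat_lit 0x4c⟩ (.node ⟨nat_lit 3, nat_lit 6, nat_lit 0x323, nat_lit 2, nat_lit 3, nat_lit 0x46⟩ (.node ⟨nat_lit 5, nat_lit 0x10, nat_lit 0x22112, nat_lit 3, nat_lit 4, nat_lit 0x4a⟩ (.node ⟨nat_lit 6, nat_lit 0x2000100032, nat_lit 0x111220, nat_lit 2, nat_lit 4, nat_lit 0x48⟩ (.node ⟨nat_lit 7, nat_lit 0x40002000100060, nat_lit 0x1121012, nat_lit 0, nat_lit 4, nat_lit 0x49⟩ (t14_351) (t14_8543)) (.node ⟨nat_lit 8, nat_lit 0x800080004000e0, nat_lit 0x1111003, nat_lit 0, nat_lit 4, nat_lit 0x49⟩ (t14_4447) (t14_12639))) (.node ⟨nat_lit 7, nat_lit 0x20004000440060, nat_lit 0x1221002, nat_lit 0, nat_lit 4, nat_lit 0x49⟩ (.node ⟨nat_lit 5, nat_lit 0x18001c, nat_lit 0x11013, nat_lit 3, nat_lit 4, nat_lit 0x45⟩ (t14_2399) (t14_10591)) (.node ⟨nat_lit 7, nat_lit 0x600060,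 nat_lit 0x21120, nat_lit 1, nat_lit 4, nat_lit 0x49⟩ (t14_6495) (t14_14687)))) (.node ⟨nat_lit 4, nat_lit 0xe, nat_lit 0x2101, nat_lit 4, nat_lit 4, nat_lit 0x45⟩ (.node ⟨nat_lit 7, nat_lit 0x2000500060, nat_lit 0x1022022, nat_lit 0, nat_lit 4, nat_lit 0x49⟩ (.node ⟨nat_lit 6, nat_lit 0x800280030, nat_lit 0x21130, nat_lit 1, nat_lit 4, nat_lit 0x47⟩ (t14_1375) (t14_9567)) (.node ⟨nat_lit 8, nat_lit 0x400080002000c0, nat_lit 0x1122001, nat_lit 1, nat_lit 4, nat_lit 0x4a⟩ (t14_5471) (t14_13663))) (.node ⟨nat_lit 5, nat_lit 0x18, nat_lit 0x30112, nat_lit 8, nat_lit 4, nat_lit 0x4a⟩ (.node ⟨nat_lit 6, nat_lit 0x1000200020, nat_lit 0x111030, nat_lit 6, nat_lit 4, nat_lit 0x4a⟩ (t14_3423) (t14_11615)) (.node ⟨nat_lit 8, nat_lit 0x800080002000c0, nat_lit 0x111110, nat_lit 0, nat_lit 4, nat_lit 0x49⟩ (t14_7519) (.nil))))) (.node ⟨nat_lit 6, nat_lit 0x200020,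 nat_lit 0x31110, nat_lit 4, nat_lit 4, nat_lit 0x4a⟩ (.node ⟨nat_lit 4, nat_lit 8, nat_lit 0x2221, nat_lit 6, nat_lit 4, nat_lit 0x49⟩ (.node ⟨nat_lit 6, nat_lit 0x280030, nat_lit 0x110112, nat_lit 1, nat_lit 4, nat_lit 0x47⟩ (.node ⟨nat_lit 7, nat_lit 0x1000500060, nat_lit 0x201210, nat_lit 1, nat_lit 4, nat_lit 0x48⟩ (t14_863) (t14_9055)) (.node ⟨nat_lit 6, nat_lit 0x200020, nat_lit 0x21120, nat_lit 3, nat_lit 3, nat_lit 0x48⟩ (t14_4959) (t14_13151))) (.node ⟨nat_lit 6, nat_lit 0x10002000180024, nat_lit 0x111200, nat_lit 0, nat_lit 4, nat_lit 0x46⟩ (.node ⟨nat_lit 7, nat_lit 0x4000200044, nat_lit 0x1011201, nat_lit 4, nat_lit 4, nat_lit 0x4a⟩ (t14_2911) (t14_11103)) (.node ⟨nat_lit 7, nat_lit 0x10004000440060, nat_lit 0x1100202, nat_lit 6, nat_lit 4, nat_lit 0x49⟩ (t14_7007) (t14_15199)))) (.node ⟨nat_lit 6, nat_lit 0x30, nat_lit 0x211110, nat_lit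 1, nat_lit 4, nat_lit 0x4a⟩ (.node ⟨nat_lit 5, nat_lit 0x140018, nat_lit 0x21111, nat_lit 3, nat_lit 4, nat_lit 0x47⟩ (.node ⟨nat_lit 8, nat_lit 0x4000400080002000d0, nat_lit 0x10100311, nat_lit 2, nat_lit 4, nat_lit 0x49⟩ (t14_1887) (t14_10079)) (.node ⟨nat_lit 7, nat_lit 0x20004000600070, nat_lit 0x22002, nat_lit 1, nat_lit 4, nat_lit 0x47⟩ (t14_5983) (t14_14175))) (.node ⟨nat_lit 6, nat_lit 0x1000200020, nat_lit 0x210, nat_lit 0, nat_lit 4, nat_lit 0x46⟩ (.node ⟨nat_lit 7, nat_lit 0x20004000500068, nat_lit 0x102003, nat_lit 2, nat_lit 4, nat_lit 0x47⟩ (t14_3935) (t14_12127)) (.node ⟨nat_lit 9, nat_lit 0x4001000180, nat_lit 0x100111021, nat_lit 0, nat_lit 4, nat_lit 0x4c⟩ (t14_8031) (.nil)))))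
def t14_223 : Tr := .node ⟨nat_lit 7, nat_lit 0x40001000500060, nat_lit 0x1102311, nat_lit 0, nat_lit 4, nat_lit 0x48⟩ (.nil) (.nil)
def t14_8415 : Tr := .node ⟨nat_lit 7, nat_lit 0x40004000200048, nat_lit 0x112203, nat_lit 0, nat_lit 4, nat_lit 0x49⟩ (.nil) (.nil)
def t14_4319 : Tr := .node ⟨nat_lit 9, nat_lit 0x100010001000080008000880140, nat_lit 0x11111110, nat_lit 0, nat_lit 4, nat_lit 0x49⟩ (.nil) (.nil)
def t14_12511 : Tr := .node ⟨nat_lit 6, nat_lit 0x2800300038, nat_lit 0x10003, nat_lit 3, nat_lit 4, nat_lit 0x45⟩ (.nil) (.nil)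
def t14_2271 : Tr := .node ⟨nat_lit 9, nat_lit 0x1000100008000800120014001c0, nat_lit 0x100122000, nat_lit 0, nat_lit 4, nat_lit 0x48⟩ (.nil) (.nil)
def t14_10463 : Tr := .node ⟨nat_lit 5, nat_lit 0x1000100018, nat_lit 0x320, nat_lit 2, nat_lit 3, nat_lit 0x45⟩ (.nil) (.nil)
def t14_6367 : Tr := .node ⟨nat_lit 3, nat_lit 0x40006, nat_lit 0x22, nat_lit 0xa, nat_lit 4, nat_lit 0x45⟩ (.nil) (.nil)
def t14_14559 : Tr := .node ⟨nat_lit 5, nat_lit 0x800080010, nat_lit 0x10210, nat_lit 0xa, nat_lit 4, nat_lit 0x48⟩ (.nil) (.nil)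
def t14_1247 : Tr := .node ⟨nat_lit 6, nat_lit 0x800280030, nat_lit 0x1112, nat_lit 2, nat_lit 4, nat_lit 0x46⟩ (.nil) (.nil)
def t14_9439 : Tr := .node ⟨nat_lit 8, nat_lit 0x40004000800088006000c0, nat_lit 0x10111013, nat_lit 2, nat_lit 4, nat_lit 0x48⟩ (.nil) (.nil)
def t14_5343 : Tr := .node ⟨nat_lit 7, nat_lit 0x40001000100060, nat_lit 0x1103100, nat_lit 3, nat_lit 4, nat_lit 0x49⟩ (.nil) (.nil)
def t14_13535 : Tr := .node ⟨nat_lit 8, nat_lit 0x200080001000c0, nat_lit 0x10102, nat_lit 0, nat_lit 4, nat_lit 0x48⟩ (.nil) (.nil)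
def t14_3295 : Tr := .node ⟨nat_lit 7, nat_lit 0x40002000200060, nat_lit 0x20201, nat_lit 5, nat_lit 4, nat_lit 0x49⟩ (.nil) (.nil)
def t14_11487 : Tr := .node ⟨nat_lit 7, nat_lit 0x40002000500068, nat_lit 0x1002110, nat_lit 1, nat_lit 4, nat_lit 0x47⟩ (.nil) (.nil)
def t14_7391 : Tr := .node ⟨nat_lit 6, nat_lit 0x1000280030, nat_lit 0x112210, nat_lit 0, nat_lit 4, nat_lit 0x48⟩ (.nil) (.nil)
def t14_15583 : Tr := .node ⟨nat_lit 3, nat_lit 0, nat_lit 0x211, nat_lit 0x13, nat_lit 4, nat_lit 0x4a⟩ (.nil) (.nil)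
def t14_735 : Tr := .node ⟨nat_lit 6, nat_lit 0x1000200038, nat_lit 0x10011, nat_lit 0, nat_lit 4, nat_lit 0x45⟩ (.nil) (.nil)
def t14_8927 : Tr := .node ⟨nat_lit 7, nat_lit 0x40001000600060, nat_lit 0x11030, nat_lit 2, nat_lit 4, nat_lit 0x47⟩ (.nil) (.nil)
def t14_4831 : Tr := .node ⟨nat_lit 7, nat_lit 0x4000100060, nat_lit 0x1011102, nat_lit 2, nat_lit 4, nat_lit 0x49⟩ (.nil) (.nil)
def t14_13023 : Tr := .node ⟨nat_lit 6, nat_lit 0x10001000200038, nat_lit 0x11030, nat_lit 4, nat_lit 4, nat_lit 0x47⟩ (.nil) (.nil)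
def t14_2783 : Tr := .node ⟨nat_lit 8, nat_lit 0x8000800040009000c0, nat_lit 0x110201, nat_lit 1, nat_lit 4, nat_lit 0x48⟩ (.nil) (.nil)
def t14_10975 : Tr := .node ⟨nat_lit 8, nat_lit 0x4000400080008000600088, nat_lit 0x102010, nat_lit 1, nat_lit 4, nat_lit 0x47⟩ (.nil) (.nil)
def t14_6879 : Tr := .node ⟨nat_lit 7, nat_lit 0x4000400020, nat_lit 0x11102, nat_lit 2, nat_lit 4, nat_lit 0x49⟩ (.nil) (.nil)
def t14_15071 : Tr := .node ⟨nat_lit 7, nat_lit 0x20004000400060, nat_lit 0x111201, nat_lit 4, nat_lit 4, nat_lit 0x49⟩ (.nil) (.nil)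
def t14_1759 : Tr := .node ⟨nat_lit 5, nat_lit 0x100018, nat_lit 0x2104, nat_lit 4, nat_lit 4, nat_lit 0x48⟩ (.nil) (.nil)
def t14_9951 : Tr := .node ⟨nat_lit 8, nat_lit 0x1000c000c000e0, nat_lit 0x100303, nat_lit 0, nat_lit 4, nat_lit 0x47⟩ (.nil) (.nil)
def t14_5855 : Tr := .node ⟨nat_lit 6, nat_lit 0x280030, nat_lit 0x10122, nat_lit 2, nat_lit 4, nat_lit 0x47⟩ (.nil) (.nil)
def t14_14047 : Tr := .node ⟨nat_lit 7, nat_lit 0x4000100060, nat_lit 0x111220, nat_lit 1, nat_lit 4, nat_lit 0x49⟩ (.nil) (.nil)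
def t14_3807 : Tr := .node ⟨nat_lit 7, nat_lit 0x40004000600068, nat_lit 0x121020, nat_lit 2, nat_lit 4, nat_lit 0x48⟩ (.nil) (.nil)
def t14_11999 : Tr := .node ⟨nat_lit 7, nat_lit 0x4000500060, nat_lit 0x211210, nat_lit 0, nat_lit 4, nat_lit 0x49⟩ (.nil) (.nil)
def t14_7903 : Tr := .node ⟨nat_lit 3, nat_lit 4, nat_lit 0x11, nat_lit 8, nat_lit 4, nat_lit 0x45⟩ (.nil) (.nil)
def t9_223 : Tr := .node ⟨nat_lit 4, nat_lit 8, nat_lit 0x2310, nat_lit 3, nat_lit 4, nat_lit 0x48⟩ (.node ⟨nat_lit 3, nat_lit 4, nat_lit 0x223, nat_lit 2, nat_lit 3, nat_lit 0x46⟩ (.node ⟨nat_lit 4, nat_lit 0x8000c, nat_lit 0x1312, nat_lit 7, nat_lit 4, nat_lit 0x48⟩ (.node ⟨nat_lit 4, nat_lit 0x80004, nat_lit 0x1133, nat_lit 3, nat_lit 4, nat_lit 0x47⟩ (.node ⟨nat_lit 8, nat_lit 0x400040002000800082, nat_lit 0x10210200, nat_lit 4, nat_lit 4, nat_lit 0x4a⟩ (t14_223) (t14_8415))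 (.node ⟨nat_lit 6, nat_lit 0x800300038, nat_lit 0x1212, nat_lit 0, nat_lit 4, nat_lit 0x45⟩ (t14_4319) (t14_12511))) (.node ⟨nat_lit 7, nat_lit 0x4000100020, nat_lit 0x212012, nat_lit 2, nat_lit 4, nat_lit 0x4b⟩ (.node ⟨nat_lit 7, nat_lit 0x10004000400064, nat_lit 0x100121, nat_lit 0, nat_lit 4, nat_lit 0x47⟩ (t14_2271) (t14_10463)) (.node ⟨nat_lit 7, nat_lit 0x40001000100068, nat_lit 0x2101000, nat_lit 1, nat_lit 4, nat_lit 0x48⟩ (t14_6367) (t14_14559)))) (.node ⟨nat_lit 4, nat_lit 0, nat_lit 0x2111, nat_lit 7, nat_lit 4, nat_lit 0x49⟩ (.node ⟨nat_lit 5, nat_lit 0x100010, nat_lit 0x21131, nat_lit 0, nat_lit 3, nat_lit 0x48⟩ (.node ⟨nat_lit 4, nat_lit 0x8000c, nat_lit 0x1104, nat_lit 7, nat_lit 4, nat_lit 0x47⟩ (t14_1247) (t14_9439)) (.node ⟨nat_lit 4, nat_lit 0x80008, nat_lit 0x1222, nat_lit 0xa, nat_lit 4, nat_lit 0x49⟩ (t14_5343) (t14_13535)))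 (.node ⟨nat_lit 5, nat_lit 0x10001c, nat_lit 0x12003, nat_lit 3, nat_lit 4, nat_lit 0x46⟩ (.node ⟨nat_lit 7, nat_lit 0x40005000300060, nat_lit 0x110041, nat_lit 0, nat_lit 4, nat_lit 0x47⟩ (t14_3295) (t14_11487)) (.node ⟨nat_lit 5, nat_lit 0x40018, nat_lit 0x11122, nat_lit 2, nat_lit 3, nat_lit 0x46⟩ (t14_7391) (t14_15583))))) (.node ⟨nat_lit 5, nat_lit 0x100018, nat_lit 0x1310, nat_lit 3, nat_lit 4, nat_lit 0x47⟩ (.node ⟨nat_lit 6, nat_lit 0x2000240018, nat_lit 0x121012, nat_lit 1, nat_lit 4, nat_lit 0x47⟩ (.node ⟨nat_lit 6, nat_lit 0x200020, nat_lit 0x120021, nat_lit 0, nat_lit 3, nat_lit 0x48⟩ (.node ⟨nat_lit 7, nat_lit 0x20001000400062, nat_lit 0x2121001, nat_lit 1, nat_lit 4, nat_lit 0x49⟩ (t14_735) (t14_8927)) (.node ⟨nat_lit 7, nat_lit 0x400040002000200050, nat_lit 0x121201, nat_lit 1, nat_lit 4, nat_lit 0x48⟩ (t14_4831) (t14_13023))) (.node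 ⟨nat_lit 6, nat_lit 0x20001000100028, nat_lit 0x101202, nat_lit 0, nat_lit 4, nat_lit 0x46⟩ (.node ⟨nat_lit 6, nat_lit 0x2000200038, nat_lit 0x21103, nat_lit 5, nat_lit 4, nat_lit 0x48⟩ (t14_2783) (t14_10975)) (.node ⟨nat_lit 6, nat_lit 0x30000c, nat_lit 0x1122, nat_lit 2, nat_lit 4, nat_lit 0x47⟩ (t14_6879) (t14_15071)))) (.node ⟨nat_lit 4, nat_lit 0xc, nat_lit 0x1111, nat_lit 5, nat_lit 4, nat_lit 0x46⟩ (.node ⟨nat_lit 5, nat_lit 0x80010001c, nat_lit 0x10121, nat_lit 3, nat_lit 4, nat_lit 0x45⟩ (.node ⟨nat_lit 6, nat_lit 0x1000300028, nat_lit 0x101114, nat_lit 1, nat_lit 4, nat_lit 0x47⟩ (t14_1759) (t14_9951)) (.node ⟨nat_lit 5, nat_lit 0x18, nat_lit 0x20221, nat_lit 3, nat_lit 3, nat_lit 0x48⟩ (t14_5855) (t14_14047))) (.node ⟨nat_lit 7, nat_lit 0x4000100060, nat_lit 0x202022, nat_lit 0, nat_lit 4, nat_lit 0x49⟩ (.node ⟨nat_lit 7, nat_lit 0x40001000100060,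 nat_lit 0x1000003, nat_lit 1, nat_lit 4, nat_lit 0x47⟩ (t14_3807) (t14_11999)) (.node ⟨nat_lit 7, nat_lit 0x40002000200048, nat_lit 0x1012000, nat_lit 5, nat_lit 4, nat_lit 0x49⟩ (t14_7903) (.nil)))))
def t14_479 : Tr := .node ⟨nat_lit 6, nat_lit 0x300030, nat_lit 0x112210, nat_lit 1, nat_lit 4, nat_lit 0x49⟩ (.nil) (.nil)
def t14_8671 : Tr := .node ⟨nat_lit 7, nat_lit 0x10001000600060, nat_lit 0x2020, nat_lit 0, nat_lit 4, nat_lit 0x46⟩ (.nil) (.nil)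
def t14_4575 : Tr := .node ⟨nat_lit 8, nat_lit 0x2000c000c0, nat_lit 0x10021021, nat_lit 0, nat_lit 4, nat_lit 0x4a⟩ (.nil) (.nil)
def t14_12767 : Tr := .node ⟨nat_lit 7, nat_lit 0x20002000600050, nat_lit 0x11130, nat_lit 0, nat_lit 4, nat_lit 0x47⟩ (.nil) (.nil)
def t14_2527 : Tr := .node ⟨nat_lit 6, nat_lit 0x2000300030, nat_lit 0x12220, nat_lit 4, nat_lit 4, nat_lit 0x48⟩ (.nil) (.nil)
def t14_10719 : Tr := .node ⟨nat_lit 8, nat_lit 0x60003000a000c0, nat_lit 0x11200, nat_lit 0, nat_lit 4, nat_lit 0x46⟩ (.nil) (.nil)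
def t14_6623 : Tr := .node ⟨nat_lit 7, nat_lit 0x4000100060, nat_lit 0x11310, nat_lit 2, nat_lit 4, nat_lit 0x49⟩ (.nil) (.nil)
def t14_14815 : Tr := .node ⟨nat_lit 7, nat_lit 0x40002000100060, nat_lit 0x10211, nat_lit 1, nat_lit 3, nat_lit 0x46⟩ (.nil) (.nil)
def t14_1503 : Tr := .node ⟨nat_lit 8, nat_lit 0x80001000a000c0, nat_lit 0x1110112, nat_lit 1, nat_lit 4, nat_lit 0x49⟩ (.nil) (.nil)
def t14_9695 : Tr := .node ⟨nat_lit 0xa, nat_lit 0x200020002000100010002200240, nat_lit 0x11101010, nat_lit 2, nat_lit 4, nat_lit 0x4a⟩ (.nil) (.nil)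
def t14_5599 : Tr := .node ⟨nat_lit 8, nat_lit 0x8000c000d000d000d0, nat_lit 0x10101220, nat_lit 1, nat_lit 4, nat_lit 0x46⟩ (.nil) (.nil)
def t14_13791 : Tr := .node ⟨nat_lit 8, nat_lit 0x2000c00030, nat_lit 0x10001210, nat_lit 0, nat_lit 4, nat_lit 0x49⟩ (.nil) (.nil)
def t14_3551 : Tr := .node ⟨nat_lit 8, nat_lit 0x2000c000c000a0, nat_lit 0x10201, nat_lit 0, nat_lit 4, nat_lit 0x47⟩ (.nil) (.nil)
def t14_11743 : Tr := .node ⟨nat_lit 6, nat_lit 0x2000100008, nat_lit 4, nat_lit 5, nat_lit 4, nat_lit 0x48⟩ (.nil) (.nil)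
def t14_7647 : Tr := .node ⟨nat_lit 5, nat_lit 0x800100012, nat_lit 0x13, nat_lit 3, nat_lit 4, nat_lit 0x45⟩ (.nil) (.nil)
def t14_991 : Tr := .node ⟨nat_lit 7, nat_lit 0x4000200020, nat_lit 0x11021, nat_lit 1, nat_lit 4, nat_lit 0x49⟩ (.nil) (.nil)
def t14_9183 : Tr := .node ⟨nat_lit 7, nat_lit 0x40004800300068, nat_lit 0x1021, nat_lit 1, nat_lit 4, nat_lit 0x45⟩ (.nil) (.nil)
def t14_5087 : Tr := .node ⟨nat_lit 4, nat_lit 0x40008, nat_lit 0x31, nat_lit 4, nat_lit 4, nat_lit 0x45⟩ (.nil) (.nil)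
def t14_13279 : Tr := .node ⟨nat_lit 6, nat_lit 0x20001000280028, nat_lit 0x12010, nat_lit 4, nat_lit 4, nat_lit 0x47⟩ (.nil) (.nil)
def t14_3039 : Tr := .node ⟨nat_lit 8, nat_lit 0x8000800040009000e000e0, nat_lit 0x10112011, nat_lit 1, nat_lit 4, nat_lit 0x47⟩ (.nil) (.nil)
def t14_11231 : Tr := .node ⟨nat_lit 7, nat_lit 0x10001000600060, nat_lit 0x1010030, nat_lit 0, nat_lit 4, nat_lit 0x47⟩ (.nil) (.nil)
def t14_7135 : Tr := .node ⟨nat_lit 7, nat_lit 0x1800180060, nat_lit 0x2110112, nat_lit 0, nat_lit 4, nat_lit 0x48⟩ (.nil) (.nil)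
def t14_15327 : Tr := .node ⟨nat_lit 7, nat_lit 0x200020002000400040, nat_lit 0x22011, nat_lit 1, nat_lit 4, nat_lit 0x48⟩ (.nil) (.nil)
def t14_2015 : Tr := .node ⟨nat_lit 6, nat_lit 0x20002000100030, nat_lit 0x13102, nat_lit 4, nat_lit 4, nat_lit 0x48⟩ (.nil) (.nil)
def t14_10207 : Tr := .node ⟨nat_lit 5, nat_lit 0x1000140014, nat_lit 0x1221, nat_lit 6, nat_lit 4, nat_lit 0x47⟩ (.nil) (.nil)
def t14_6111 : Tr := .node ⟨nat_lit 3, nat_lit 4, nat_lit 0x120, nat_lit 0xb, nat_lit 4, nat_lit 0x47⟩ (.nil) (.nil)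
def t14_14303 : Tr := .node ⟨nat_lit 7, nat_lit 0x40001000600068, nat_lit 0x101030, nat_lit 3, nat_lit 4, nat_lit 0x47⟩ (.nil) (.nil)
def t14_4063 : Tr := .node ⟨nat_lit 5, nat_lit 0x800080010, nat_lit 0x200, nat_lit 0, nat_lit 3, nat_lit 0x44⟩ (.nil) (.nil)
def t14_12255 : Tr := .node ⟨nat_lit 7, nat_lit 0x40004000480060, nat_lit 0x12100, nat_lit 7, nat_lit 4, nat_lit 0x49⟩ (.nil) (.nil)
def t14_8159 : Tr := .node ⟨nat_lit 6, nat_lit 0x20001000100030, nat_lit 0x201003, nat_lit 1, nat_lit 3, nat_lit 0x46⟩ (.nil) (.nil)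
def t9_479 : Tr := .node ⟨nat_lit 5, nat_lit 0x10, nat_lit 0x3312, nat_lit 0, nat_lit 4, nat_lit 0x4a⟩ (.node ⟨nat_lit 5, nat_lit 0x1000140014, nat_lit 0x31022, nat_lit 5, nat_lit 4, nat_lit 0x48⟩ (.node ⟨nat_lit 5, nat_lit 0x80010, nat_lit 0x12221, nat_lit 2, nat_lit 4, nat_lit 0x49⟩ (.node ⟨nat_lit 7, nat_lit 0x40004000200062, nat_lit 0x112120, nat_lit 0, nat_lit 4, nat_lit 0x48⟩ (.node ⟨nat_lit 6, nat_lit 0x2000080030, nat_lit 0x2211, nat_lit 0, nat_lit 4, nat_lit 0x47⟩ (t14_479) (t14_8671)) (.node ⟨nat_lit 7, nat_lit 0x4000200010, nat_lit 0x122002, nat_lit 3, nat_lit 4, nat_lit 0x4b⟩ (t14_4575) (t14_12767))) (.node ⟨nat_lit 6, nat_lit 0x20001000100028, nat_lit 0x102102, nat_lit 2, nat_lit 4, nat_lit 0x47⟩ (.node ⟨nat_lit 7, nat_lit 0x40002000100060, nat_lit 0x1112203, nat_lit 0, nat_lit 4, nat_lit 0x49⟩ (t14_2527) (t14_10719)) (.node ⟨nat_lit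 7, nat_lit 0x4000200020, nat_lit 0x21021, nat_lit 3, nat_lit 4, nat_lit 0x4a⟩ (t14_6623) (t14_14815)))) (.node ⟨nat_lit 5, nat_lit 0x10, nat_lit 0x12001, nat_lit 0, nat_lit 4, nat_lit 0x47⟩ (.node ⟨nat_lit 6, nat_lit 0x1000280030, nat_lit 0x112122, nat_lit 2, nat_lit 4, nat_lit 0x48⟩ (.node ⟨nat_lit 6, nat_lit 0x800100020, nat_lit 0x111031, nat_lit 3, nat_lit 4, nat_lit 0x49⟩ (t14_1503) (t14_9695)) (.node ⟨nat_lit 7, nat_lit 0x400040002000200050, nat_lit 0x1111220, nat_lit 2, nat_lit 4, nat_lit 0x49⟩ (t14_5599) (t14_13791))) (.node ⟨nat_lit 6, nat_lit 0x800080030, nat_lit 0x211003, nat_lit 1, nat_lit 4, nat_lit 0x48⟩ (.node ⟨nat_lit 4, nat_lit 0xc, nat_lit 0x1010, nat_lit 4, nat_lit 4, nat_lit 0x45⟩ (t14_3551) (t14_11743)) (.node ⟨nat_lit 4, nat_lit 0x80008, nat_lit 0x1130, nat_lit 4, nat_lit 3, nat_lit 0x46⟩ (t14_7647) (.nil))))) (.node ⟨nat_lit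 6, nat_lit 0x20002000200028, nat_lit 0x31201, nat_lit 5, nat_lit 4, nat_lit 0x49⟩ (.node ⟨nat_lit 7, nat_lit 0x400020, nat_lit 0x122100, nat_lit 1, nat_lit 4, nat_lit 0x4b⟩ (.node ⟨nat_lit 7, nat_lit 0x400040, nat_lit 0x1111111, nat_lit 1, nat_lit 4, nat_lit 0x4b⟩ (.node ⟨nat_lit 7, nat_lit 0x40002000200048, nat_lit 0x1013102, nat_lit 0, nat_lit 4, nat_lit 0x49⟩ (t14_991) (t14_9183)) (.node ⟨nat_lit 8, nat_lit 0x8000800040, nat_lit 0x1221100, nat_lit 1, nat_lit 4, nat_lit 0x4c⟩ (t14_5087) (t14_13279))) (.node ⟨nat_lit 5, nat_lit 0x18, nat_lit 0x11110, nat_lit 0, nat_lit 4, nat_lit 0x46⟩ (.node ⟨nat_lit 6, nat_lit 0x2000240034, nat_lit 0x201211, nat_lit 5, nat_lit 4, nat_lit 0x49⟩ (t14_3039) (t14_11231)) (.node ⟨nat_lit 7, nat_lit 0x40004000600068, nat_lit 0x111022, nat_lit 4, nat_lit 4, nat_lit 0x48⟩ (t14_7135) (t14_15327)))) (.node ⟨nat_lit 5,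 nat_lit 0x18, nat_lit 0x11211, nat_lit 2, nat_lit 4, nat_lit 0x48⟩ (.node ⟨nat_lit 6, nat_lit 0x800080030, nat_lit 0x301211, nat_lit 1, nat_lit 4, nat_lit 0x49⟩ (.node ⟨nat_lit 6, nat_lit 0x280030, nat_lit 0x102141, nat_lit 1, nat_lit 4, nat_lit 0x49⟩ (t14_2015) (t14_10207)) (.node ⟨nat_lit 7, nat_lit 0x10005000600060, nat_lit 0x11200, nat_lit 0, nat_lit 4, nat_lit 0x46⟩ (t14_6111) (t14_14303))) (.node ⟨nat_lit 6, nat_lit 0x2000100024, nat_lit 0x201302, nat_lit 4, nat_lit 4, nat_lit 0x4a⟩ (.node ⟨nat_lit 8, nat_lit 0x800040009000e0, nat_lit 0x1000003, nat_lit 3, nat_lit 4, nat_lit 0x48⟩ (t14_4063) (t14_12255)) (.node ⟨nat_lit 7, nat_lit 0x2000400060, nat_lit 0x111112, nat_lit 1, nat_lit 4, nat_lit 0x49⟩ (t14_8159) (.nil)))))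
def t14_63 : Tr := .node ⟨nat_lit 7, nat_lit 0x1000400060, nat_lit 0x1202021, nat_lit 0, nat_lit 4, nat_lit 0x4a⟩ (.nil) (.nil)
def t14_8255 : Tr := .node ⟨nat_lit 8, nat_lit 0x800020002000c000d0, nat_lit 0x1020003, nat_lit 0, nat_lit 4, nat_lit 0x47⟩ (.nil) (.nil)
def t14_4159 : Tr := .node ⟨nat_lit 9, nat_lit 0x10001000040012001200180, nat_lit 0x11110111, nat_lit 0, nat_lit 4, nat_lit 0x49⟩ (.nil) (.nil)
def t14_12351 : Tr := .node ⟨nat_lit 7, nat_lit 0x10004000200060, nat_lit 0x110, nat_lit 1, nat_lit 4, nat_lit 0x46⟩ (.nil) (.nil)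
def t14_2111 : Tr := .node ⟨nat_lit 4, nat_lit 0xc000c, nat_lit 0x1022, nat_lit 7, nat_lit 4, nat_lit 0x45⟩ (.nil) (.nil)
def t14_10303 : Tr := .node ⟨nat_lit 7, nat_lit 0x40002000680070, nat_lit 0x1000021, nat_lit 0, nat_lit 4, nat_lit 0x45⟩ (.nil) (.nil)
def t14_6207 : Tr := .node ⟨nat_lit 4, nat_lit 0x8000e, nat_lit 0x1111, nat_lit 8, nat_lit 4, nat_lit 0x46⟩ (.nil) (.nil)
def t14_14399 : Tr := .node ⟨nat_lit 7, nat_lit 0x10003000500060, nat_lit 0x2032, nat_lit 0, nat_lit 4, nat_lit 0x46⟩ (.nil) (.nil)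
def t14_1087 : Tr := .node ⟨nat_lit 7, nat_lit 0x4000100060, nat_lit 0x11211, nat_lit 3, nat_lit 4, nat_lit 0x49⟩ (.nil) (.nil)
def t14_9279 : Tr := .node ⟨nat_lit 7, nat_lit 0x40004000200060, nat_lit 0x113201, nat_lit 0, nat_lit 3, nat_lit 0x47⟩ (.nil) (.nil)
def t14_5183 : Tr := .node ⟨nat_lit 7, nat_lit 0x20002000400060, nat_lit 0x1013110, nat_lit 1, nat_lit 4, nat_lit 0x49⟩ (.nil) (.nil)
def t14_13375 : Tr := .node ⟨nat_lit 6, nat_lit 0x10002000200030, nat_lit 0x203100, nat_lit 0, nat_lit 3, nat_lit 0x46⟩ (.nil) (.nil)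
def t14_3135 : Tr := .node ⟨nat_lit 6, nat_lit 0x2000080030, nat_lit 0x102001, nat_lit 1, nat_lit 4, nat_lit 0x47⟩ (.nil) (.nil)
def t14_11327 : Tr := .node ⟨nat_lit 6, nat_lit 0x1000200030, nat_lit 0x1110, nat_lit 5, nat_lit 4, nat_lit 0x47⟩ (.nil) (.nil)
def t14_7231 : Tr := .node ⟨nat_lit 7, nat_lit 0x40004000500068, nat_lit 0x202001, nat_lit 3, nat_lit 4, nat_lit 0x48⟩ (.nil) (.nil)
def t14_15423 : Tr := .node ⟨nat_lit 8, nat_lit 0x800040005000a000a000c0, nat_lit 0x1011002, nat_lit 0, nat_lit 4, nat_lit 0x46⟩ (.nil) (.nil)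
def t14_575 : Tr := .node ⟨nat_lit 8, nat_lit 0x80002000c000a0, nat_lit 0x12022, nat_lit 0, nat_lit 4, nat_lit 0x48⟩ (.nil) (.nil)
def t14_8767 : Tr := .node ⟨nat_lit 7, nat_lit 0x400040002000500050, nat_lit 0x110031, nat_lit 5, nat_lit 4, nat_lit 0x48⟩ (.nil) (.nil)
def t14_4671 : Tr := .node ⟨nat_lit 6, nat_lit 0x20002000280030, nat_lit 0x11002, nat_lit 6, nat_lit 4, nat_lit 0x47⟩ (.nil) (.nil)
def t14_12863 : Tr := .node ⟨nat_lit 7, nat_lit 0x3000500060, nat_lit 0x2001, nat_lit 0, nat_lit 4, nat_lit 0x46⟩ (.nil) (.nil)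
def t14_2623 : Tr := .node ⟨nat_lit 5, nat_lit 0x80010001a, nat_lit 0x321, nat_lit 3, nat_lit 4, nat_lit 0x45⟩ (.nil) (.nil)
def t14_10815 : Tr := .node ⟨nat_lit 6, nat_lit 0x10002000300034, nat_lit 0x100122, nat_lit 7, nat_lit 4, nat_lit 0x47⟩ (.nil) (.nil)
def t14_6719 : Tr := .node ⟨nat_lit 7, nat_lit 0x4000440064, nat_lit 0x1111001, nat_lit 1, nat_lit 4, nat_lit 0x48⟩ (.nil) (.nil)
def t14_14911 : Tr := .node ⟨nat_lit 8, nat_lit 0x200080008800c800c8, nat_lit 0x10001121, nat_lit 2, nat_lit 4, nat_lit 0x47⟩ (.nil) (.nil)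
def t14_1599 : Tr := .node ⟨nat_lit 7, nat_lit 0x40004000200068, nat_lit 0x11210, nat_lit 0, nat_lit 4, nat_lit 0x47⟩ (.nil) (.nil)
def t14_9791 : Tr := .node ⟨nat_lit 7, nat_lit 0x20005000600060, nat_lit 0x2220, nat_lit 0, nat_lit 4, nat_lit 0x46⟩ (.nil) (.nil)
def t14_5695 : Tr := .node ⟨nat_lit 6, nat_lit 0x3000300028, nat_lit 0x12220, nat_lit 3, nat_lit 4, nat_lit 0x47⟩ (.nil) (.nil)
def t14_13887 : Tr := .node ⟨nat_lit 7, nat_lit 0x4000100060, nat_lit 0x22, nat_lit 0, nat_lit 4, nat_lit 0x47⟩ (.nil) (.nil)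
def t14_3647 : Tr := .node ⟨nat_lit 6, nat_lit 0x1000200030, nat_lit 0x3002, nat_lit 2, nat_lit 4, nat_lit 0x47⟩ (.nil) (.nil)
def t14_11839 : Tr := .node ⟨nat_lit 5, nat_lit 0x100008, nat_lit 0x233, nat_lit 0, nat_lit 4, nat_lit 0x47⟩ (.nil) (.nil)
def t14_7743 : Tr := .node ⟨nat_lit 6, nat_lit 0x2000080030, nat_lit 0x121, nat_lit 2, nat_lit 4, nat_lit 0x46⟩ (.nil) (.nil)
def t9_63 : Tr := .node ⟨nat_lit 5, nat_lit 0x80010, nat_lit 0x31221, nat_lit 0, nat_lit 4, nat_lit 0x49⟩ (.node ⟨nat_lit 5, nat_lit 0x100018, nat_lit 0x12320, nat_lit 0, nat_lit 3, nat_lit 0x47⟩ (.node ⟨nat_lit 8, nat_lit 0x200040008000c800c8, nat_lit 0x3000220, nat_lit 0, nat_lit 4, nat_lit 0x48⟩ (.node ⟨nat_lit 6, nat_lit 0x800200032, nat_lit 0x211001, nat_lit 1, nat_lit 4, nat_lit 0x47⟩ (.node ⟨nat_lit 6, nat_lit 0x2000240030, nat_lit 0x22113, nat_lit 2, nat_lit 4, nat_lit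 0x48⟩ (t14_63) (t14_8255)) (.node ⟨nat_lit 7, nat_lit 0x40001000600068, nat_lit 0x1010001, nat_lit 0, nat_lit 4, nat_lit 0x46⟩ (t14_4159) (t14_12351))) (.node ⟨nat_lit 6, nat_lit 0x200030, nat_lit 0x121122, nat_lit 2, nat_lit 4, nat_lit 0x4a⟩ (.node ⟨nat_lit 7, nat_lit 0x40002000100060, nat_lit 0x112113, nat_lit 0, nat_lit 4, nat_lit 0x48⟩ (t14_2111) (t14_10303)) (.node ⟨nat_lit 8, nat_lit 0x800088008800c0, nat_lit 0x221110, nat_lit 0, nat_lit 4, nat_lit 0x49⟩ (t14_6207) (t14_14399)))) (.node ⟨nat_lit 5, nat_lit 0x40018, nat_lit 0x21032, nat_lit 1, nat_lit 4, nat_lit 0x47⟩ (.node ⟨nat_lit 6, nat_lit 0x280030, nat_lit 0x210211, nat_lit 0, nat_lit 4, nat_lit 0x48⟩ (.node ⟨nat_lit 7, nat_lit 0x40004000100060, nat_lit 0x11031, nat_lit 1, nat_lit 4, nat_lit 0x48⟩ (t14_1087) (t14_9279)) (.node ⟨nat_lit 6, nat_lit 0x800300030, nat_lit 0x101141, nat_lit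 0, nat_lit 4, nat_lit 0x47⟩ (t14_5183) (t14_13375))) (.node ⟨nat_lit 6, nat_lit 0x800100020, nat_lit 0x112000, nat_lit 2, nat_lit 4, nat_lit 0x48⟩ (.node ⟨nat_lit 6, nat_lit 0x1000200030, nat_lit 0x12010, nat_lit 1, nat_lit 4, nat_lit 0x47⟩ (t14_3135) (t14_11327)) (.node ⟨nat_lit 5, nat_lit 0x800100012, nat_lit 0x10012, nat_lit 5, nat_lit 4, nat_lit 0x46⟩ (t14_7231) (t14_15423))))) (.node ⟨nat_lit 6, nat_lit 0x10002000180024, nat_lit 0x312300, nat_lit 0, nat_lit 4, nat_lit 0x49⟩ (.node ⟨nat_lit 5, nat_lit 0x100008, nat_lit 0x2203, nat_lit 2, nat_lit 4, nat_lit 0x49⟩ (.node ⟨nat_lit 7, nat_lit 0x400040002000200060, nat_lit 0x20201, nat_lit 1, nat_lit 4, nat_lit 0x47⟩ (.node ⟨nat_lit 6, nat_lit 0x20, nat_lit 0x211111, nat_lit 7, nat_lit 4, nat_lit 0x4c⟩ (t14_575) (t14_8767)) (.node ⟨nat_lit 7, nat_lit 0x400040002000200050, nat_lit 0x1110110, nat_lit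 1, nat_lit 4, nat_lit 0x48⟩ (t14_4671) (t14_12863))) (.node ⟨nat_lit 5, nat_lit 0x1c, nat_lit 0x10001, nat_lit 0, nat_lit 4, nat_lit 0x44⟩ (.node ⟨nat_lit 6, nat_lit 0x200010, nat_lit 0x101130, nat_lit 3, nat_lit 3, nat_lit 0x48⟩ (t14_2623) (t14_10815)) (.node ⟨nat_lit 5, nat_lit 0x10, nat_lit 0x12110, nat_lit 0xc, nat_lit 4, nat_lit 0x4b⟩ (t14_6719) (t14_14911)))) (.node ⟨nat_lit 6, nat_lit 0x800200032, nat_lit 0x210211, nat_lit 0, nat_lit 4, nat_lit 0x47⟩ (.node ⟨nat_lit 7, nat_lit 0x20004000100060, nat_lit 0x2022011, nat_lit 0, nat_lit 4, nat_lit 0x49⟩ (.node ⟨nat_lit 6, nat_lit 0x280030, nat_lit 0x1101, nat_lit 1, nat_lit 4, nat_lit 0x46⟩ (t14_1599) (t14_9791)) (.node ⟨nat_lit 7, nat_lit 0x40001000600068, nat_lit 0x112112, nat_lit 0, nat_lit 4, nat_lit 0x47⟩ (t14_5695) (t14_13887))) (.node ⟨nat_lit 5, nat_lit 0x100018, nat_lit 0x2132, nat_lit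 4, nat_lit 4, nat_lit 0x48⟩ (.node ⟨nat_lit 6, nat_lit 0x300028, nat_lit 0x100, nat_lit 3, nat_lit 4, nat_lit 0x46⟩ (t14_3647) (t14_11839)) (.node ⟨nat_lit 5, nat_lit 0x10001a, nat_lit 0x11120, nat_lit 3, nat_lit 4, nat_lit 0x47⟩ (t14_7743) (.nil)))))
def t14_319 : Tr := .node ⟨nat_lit 7, nat_lit 0x10002000500060, nat_lit 0x1012221, nat_lit 1, nat_lit 4, nat_lit 0x48⟩ (.nil) (.nil)
def t14_8511 : Tr := .node ⟨nat_lit 6, nat_lit 0x20002000100028, nat_lit 0x1104, nat_lit 3, nat_lit 4, nat_lit 0x47⟩ (.nil) (.nil)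
def t14_4415 : Tr := .node ⟨nat_lit 9, nat_lit 0x100002000800040, nat_lit 0x11120001, nat_lit 1, nat_lit 4, nat_lit 0x4c⟩ (.nil) (.nil)
def t14_12607 : Tr := .node ⟨nat_lit 7, nat_lit 0x40004800300070, nat_lit 0x102103, nat_lit 0, nat_lit 4, nat_lit 0x46⟩ (.nil) (.nil)
def t14_2367 : Tr := .node ⟨nat_lit 7, nat_lit 0x6000600060, nat_lit 0x21210, nat_lit 3, nat_lit 4, nat_lit 0x48⟩ (.nil) (.nil)
def t14_10559 : Tr := .node ⟨nat_lit 7, nat_lit 0x10004000440064, nat_lit 0x100020, nat_lit 0, nat_lit 4, nat_lit 0x45⟩ (.nil) (.nil)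
def t14_6463 : Tr := .node ⟨nat_lit 6, nat_lit 0x2000080030, nat_lit 0x111110, nat_lit 3, nat_lit 4, nat_lit 0x48⟩ (.nil) (.nil)
def t14_14655 : Tr := .node ⟨nat_lit 7, nat_lit 0x20006000500068, nat_lit 0x111211, nat_lit 2, nat_lit 4, nat_lit 0x47⟩ (.nil) (.nil)
def t14_1343 : Tr := .node ⟨nat_lit 8, nat_lit 0x800040004000400020, nat_lit 0x102101, nat_lit 5, nat_lit 4, nat_lit 0x4a⟩ (.nil) (.nil)
def t14_9535 : Tr := .node ⟨nat_lit 8, nat_lit 0x80008000800090009000a0, nat_lit 0x1110101, nat_lit 5, nat_lit 4, nat_lit 0x49⟩ (.nil) (.nil)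
def t14_5439 : Tr := .node ⟨nat_lit 6, nat_lit 0x2000080034, nat_lit 0x1301, nat_lit 3, nat_lit 4, nat_lit 0x47⟩ (.nil) (.nil)
def t14_13631 : Tr := .node ⟨nat_lit 7, nat_lit 0x40001000140060, nat_lit 0x21, nat_lit 1, nat_lit 4, nat_lit 0x45⟩ (.nil) (.nil)
def t14_3391 : Tr := .node ⟨nat_lit 7, nat_lit 0x20004000600060, nat_lit 0x20011, nat_lit 2, nat_lit 4, nat_lit 0x47⟩ (.nil) (.nil)
def t14_11583 : Tr := .node ⟨nat_lit 6, nat_lit 0x3000300030, nat_lit 0x2410, nat_lit 3, nat_lit 4, nat_lit 0x47⟩ (.nil) (.nil)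
def t14_7487 : Tr := .node ⟨nat_lit 7, nat_lit 0x4000400044, nat_lit 0x111111, nat_lit 1, nat_lit 4, nat_lit 0x49⟩ (.nil) (.nil)
def t14_831 : Tr := .node ⟨nat_lit 8, nat_lit 0x80008000800040, nat_lit 0x1113101, nat_lit 0, nat_lit 4, nat_lit 0x4b⟩ (.nil) (.nil)
def t14_9023 : Tr := .node ⟨nat_lit 9, nat_lit 0x100010001000080008001400120, nat_lit 0x2111011, nat_lit 0, nat_lit 4, nat_lit 0x49⟩ (.nil) (.nil)
def t14_4927 : Tr := .node ⟨nat_lit 3, nat_lit 6, nat_lit 0x103, nat_lit 9, nat_lit 4, nat_lit 0x45⟩ (.nil) (.nil)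
def t14_13119 : Tr := .node ⟨nat_lit 6, nat_lit 0x800300028, nat_lit 0x210300, nat_lit 1, nat_lit 3, nat_lit 0x46⟩ (.nil) (.nil)
def t14_2879 : Tr := .node ⟨nat_lit 8, nat_lit 0x800080004000c000d0, nat_lit 0x121102, nat_lit 0, nat_lit 4, nat_lit 0x48⟩ (.nil) (.nil)
def t14_11071 : Tr := .node ⟨nat_lit 6, nat_lit 0x300030, nat_lit 0x101120, nat_lit 3, nat_lit 4, nat_lit 0x48⟩ (.nil) (.nil)
def t14_6975 : Tr := .node ⟨nat_lit 6, nat_lit 0x80030, nat_lit 0x210011, nat_lit 1, nat_lit 4, nat_lit 0x48⟩ (.nil) (.nil)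
def t14_15167 : Tr := .node ⟨nat_lit 9, nat_lit 0x8000800100011000a001a001c0, nat_lit 0x11111110, nat_lit 0, nat_lit 4, nat_lit 0x47⟩ (.nil) (.nil)
def t14_1855 : Tr := .node ⟨nat_lit 6, nat_lit 0x20003000380038, nat_lit 0x200211, nat_lit 6, nat_lit 4, nat_lit 0x46⟩ (.nil) (.nil)
def t14_10047 : Tr := .node ⟨nat_lit 7, nat_lit 0x40006000680068, nat_lit 0x1120220, nat_lit 1, nat_lit 4, nat_lit 0x47⟩ (.nil) (.nil)
def t14_5951 : Tr := .node ⟨nat_lit 6, nat_lit 0x2000300034, nat_lit 0x11211, nat_lit 4, nat_lit 4, nat_lit 0x47⟩ (.nil) (.nil)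
def t14_14143 : Tr := .node ⟨nat_lit 8, nat_lit 0x800080008000400040, nat_lit 0x110021, nat_lit 1, nat_lit 4, nat_lit 0x49⟩ (.nil) (.nil)
def t14_3903 : Tr := .node ⟨nat_lit 9, nat_lit 0x10000800080014001a001a00190, nat_lit 0x11010201, nat_lit 0, nat_lit 4, nat_lit 0x46⟩ (.nil) (.nil)
def t14_12095 : Tr := .node ⟨nat_lit 8, nat_lit 0xc000c000a0, nat_lit 0x111210, nat_lit 1, nat_lit 4, nat_lit 0x49⟩ (.nil) (.nil)
def t14_7999 : Tr := .node ⟨nat_lit 7, nat_lit 0x2000400042, nat_lit 0x11024, nat_lit 0, nat_lit 4, nat_lit 0x49⟩ (.nil) (.nil)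
def t9_319 : Tr := .node ⟨nat_lit 6, nat_lit 0x2000100030, nat_lit 0x13021, nat_lit 1, nat_lit 4, nat_lit 0x48⟩ (.node ⟨nat_lit 3, nat_lit 6, nat_lit 0x313, nat_lit 2, nat_lit 3, nat_lit 0x45⟩ (.node ⟨nat_lit 1, nat_lit 0, nat_lit 2, nat_lit 0x17, nat_lit 4, nat_lit 0x47⟩ (.node ⟨nat_lit 6, nat_lit 0x2000080030, nat_lit 0x111202, nat_lit 2, nat_lit 4, nat_lit 0x48⟩ (.node ⟨nat_lit 7, nat_lit 0x1000080060, nat_lit 0x2102021, nat_lit 0, nat_lit 4, nat_lit 0x4a⟩ (t14_319) (t14_8511)) (.node ⟨nat_lit 6, nat_lit 0x2000100008, nat_lit 0x1004, nat_lit 3, nat_lit 3, nat_lit 0x47⟩ (t14_4415) (t14_12607))) (.node ⟨nat_lit 3, nat_lit 0x40004, nat_lit 0x121, nat_lit 0xa, nat_lit 3, nat_lit 0x45⟩ (.node ⟨nat_lit 7, nat_lit 0x40001000600070, nat_lit 0x110223, nat_lit 0, nat_lit 4, nat_lit 0x47⟩ (t14_2367) (t14_10559)) (.node ⟨nat_lit 5, nat_lit 0x180018, nat_lit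 0x10120, nat_lit 3, nat_lit 3, nat_lit 0x45⟩ (t14_6463) (t14_14655)))) (.node ⟨nat_lit 5, nat_lit 0x80010, nat_lit 0x21121, nat_lit 1, nat_lit 4, nat_lit 0x48⟩ (.node ⟨nat_lit 7, nat_lit 0x40004000100020, nat_lit 0x221022, nat_lit 0, nat_lit 4, nat_lit 0x4a⟩ (.node ⟨nat_lit 5, nat_lit 0x1000100008, nat_lit 0x10103, nat_lit 1, nat_lit 3, nat_lit 0x45⟩ (t14_1343) (t14_9535)) (.node ⟨nat_lit 7, nat_lit 0x1000600018, nat_lit 0x2011212, nat_lit 0, nat_lit 4, nat_lit 0x49⟩ (t14_5439) (t14_13631))) (.node ⟨nat_lit 6, nat_lit 0x100020, nat_lit 0x202011, nat_lit 0, nat_lit 4, nat_lit 0x49⟩ (.node ⟨nat_lit 8, nat_lit 0x8000800040002000c0, nat_lit 0x1110003, nat_lit 1, nat_lit 4, nat_lit 0x49⟩ (t14_3391) (t14_11583)) (.node ⟨nat_lit 5, nat_lit 0x1000100018, nat_lit 0x11212, nat_lit 5, nat_lit 3, nat_lit 0x46⟩ (t14_7487) (.nil))))) (.node ⟨nat_lit 3, nat_lit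 6, nat_lit 0x102, nat_lit 2, nat_lit 3, nat_lit 0x42⟩ (.node ⟨nat_lit 7, nat_lit 0x400020, nat_lit 0x211102, nat_lit 0, nat_lit 4, nat_lit 0x4b⟩ (.node ⟨nat_lit 5, nat_lit 0, nat_lit 0x11111, nat_lit 2, nat_lit 4, nat_lit 0x49⟩ (.node ⟨nat_lit 6, nat_lit 0x800100020, nat_lit 0x222101, nat_lit 2, nat_lit 4, nat_lit 0x4a⟩ (t14_831) (t14_9023)) (.node ⟨nat_lit 7, nat_lit 0x2000200040, nat_lit 0x1122200, nat_lit 1, nat_lit 4, nat_lit 0x4b⟩ (t14_4927) (t14_13119))) (.node ⟨nat_lit 5, nat_lit 0x40018, nat_lit 0x11030, nat_lit 0, nat_lit 3, nat_lit 0x45⟩ (.node ⟨nat_lit 4, nat_lit 0x8000c000c, nat_lit 0x1211, nat_lit 0xb, nat_lit 4, nat_lit 0x47⟩ (t14_2879) (t14_11071)) (.node ⟨nat_lit 9, nat_lit 0x10001000040008001100120, nat_lit 0x110110100, nat_lit 4, nat_lit 4, nat_lit 0x4a⟩ (t14_6975) (t14_15167)))) (.node ⟨nat_lit 6, nat_lit 0x30, nat_lit 0x221110,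 nat_lit 0, nat_lit 4, nat_lit 0x4a⟩ (.node ⟨nat_lit 7, nat_lit 0x40004000100060, nat_lit 0x211111, nat_lit 3, nat_lit 4, nat_lit 0x49⟩ (.node ⟨nat_lit 3, nat_lit 4, nat_lit 0x114, nat_lit 8, nat_lit 3, nat_lit 0x46⟩ (t14_1855) (t14_10047)) (.node ⟨nat_lit 7, nat_lit 0x200020004000400070, nat_lit 0x1002200, nat_lit 1, nat_lit 4, nat_lit 0x47⟩ (t14_5951) (t14_14143))) (.node ⟨nat_lit 7, nat_lit 0x40002000500060, nat_lit 0x12011, nat_lit 2, nat_lit 4, nat_lit 0x47⟩ (.node ⟨nat_lit 7, nat_lit 0x40001000600070, nat_lit 0x111103, nat_lit 1, nat_lit 4, nat_lit 0x47⟩ (t14_3903) (t14_12095)) (.node ⟨nat_lit 7, nat_lit 0x5000500060, nat_lit 0x112211, nat_lit 0, nat_lit 4, nat_lit 0x48⟩ (t14_7999) (.nil)))))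
def t14_191 : Tr := .node ⟨nat_lit 7, nat_lit 0x800600050, nat_lit 0x1002111, nat_lit 0, nat_lit 4, nat_lit 0x48⟩ (.nil) (.nil)
def t14_8383 : Tr := .node ⟨nat_lit 3, nat_lit 6, nat_lit 0x113, nat_lit 0xa, nat_lit 3, nat_lit 0x45⟩ (.nil) (.nil)
def t14_4287 : Tr := .node ⟨nat_lit 8, nat_lit 0x80008000400040004000a0, nat_lit 0x10211111, nat_lit 0, nat_lit 4, nat_lit 0x49⟩ (.nil) (.nil)
def t14_12479 : Tr := .node ⟨nat_lit 7, nat_lit 0x20004000400068, nat_lit 0x10103, nat_lit 0, nat_lit 4, nat_lit 0x46⟩ (.nil) (.nil)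
def t14_2239 : Tr := .node ⟨nat_lit 5, nat_lit 0x18, nat_lit 0x21220, nat_lit 1, nat_lit 3, nat_lit 0x48⟩ (.nil) (.nil)
def t14_10431 : Tr := .node ⟨nat_lit 7, nat_lit 0x20004000640068, nat_lit 0x111220, nat_lit 2, nat_lit 4, nat_lit 0x47⟩ (.nil) (.nil)
def t14_6335 : Tr := .node ⟨nat_lit 7, nat_lit 0x40001000680070, nat_lit 0x1000002, nat_lit 1, nat_lit 4, nat_lit 0x45⟩ (.nil) (.nil)
def t14_14527 : Tr := .node ⟨nat_lit 7, nat_lit 0x400020005000500060, nat_lit 0x21101, nat_lit 3, nat_lit 4, nat_lit 0x47⟩ (.nil) (.nil)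
def t14_1215 : Tr := .node ⟨nat_lit 7, nat_lit 0x2000500064, nat_lit 0x101212, nat_lit 2, nat_lit 4, nat_lit 0x48⟩ (.nil) (.nil)
def t14_9407 : Tr := .node ⟨nat_lit 6, nat_lit 0x2000200030, nat_lit 0x102220, nat_lit 1, nat_lit 3, nat_lit 0x47⟩ (.nil) (.nil)
def t14_5311 : Tr := .node ⟨nat_lit 7, nat_lit 0x1000500060, nat_lit 0x1111120, nat_lit 1, nat_lit 4, nat_lit 0x49⟩ (.nil) (.nil)
def t14_13503 : Tr := .node ⟨nat_lit 8, nat_lit 0x80004000200010, nat_lit 2, nat_lit 1, nat_lit 3, nat_lit 0x47⟩ (.nil) (.nil)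
def t14_3263 : Tr := .node ⟨nat_lit 4, nat_lit 0x80008, nat_lit 0x1120, nat_lit 7, nat_lit 3, nat_lit 0x46⟩ (.nil) (.nil)
def t14_11455 : Tr := .node ⟨nat_lit 8, nat_lit 0x4000800080002000c8, nat_lit 0x10110010, nat_lit 0, nat_lit 4, nat_lit 0x48⟩ (.nil) (.nil)
def t14_7359 : Tr := .node ⟨nat_lit 7, nat_lit 0x4000400060, nat_lit 0x1022111, nat_lit 0, nat_lit 4, nat_lit 0x4a⟩ (.nil) (.nil)
def t14_15551 : Tr := .node ⟨nat_lit 9, nat_lit 0x800100, nat_lit 0x101111101, nat_lit 2, nat_lit 4, nat_lit 0x4e⟩ (.nil) (.nil)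
def t14_703 : Tr := .node ⟨nat_lit 7, nat_lit 0x400040002000480070, nat_lit 0x1011301, nat_lit 1, nat_lit 4, nat_lit 0x47⟩ (.nil) (.nil)
def t14_8895 : Tr := .node ⟨nat_lit 7, nat_lit 0x40001000480068, nat_lit 0x12121, nat_lit 0, nat_lit 4, nat_lit 0x47⟩ (.nil) (.nil)
def t14_4799 : Tr := .node ⟨nat_lit 7, nat_lit 0x40004800600068, nat_lit 0x1021020, nat_lit 4, nat_lit 4, nat_lit 0x48⟩ (.nil) (.nil)
def t14_12991 : Tr := .node ⟨nat_lit 7, nat_lit 0x40001000480068, nat_lit 0x102002, nat_lit 2, nat_lit 4, nat_lit 0x47⟩ (.nil) (.nil)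
def t14_2751 : Tr := .node ⟨nat_lit 8, nat_lit 0x8000a000c0, nat_lit 0x121210, nat_lit 0, nat_lit 4, nat_lit 0x4a⟩ (.nil) (.nil)
def t14_10943 : Tr := .node ⟨nat_lit 7, nat_lit 0x40002000200020, nat_lit 0x1021220, nat_lit 1, nat_lit 3, nat_lit 0x48⟩ (.nil) (.nil)
def t14_6847 : Tr := .node ⟨nat_lit 7, nat_lit 0x40001000480068, nat_lit 0x1112110, nat_lit 0, nat_lit 4, nat_lit 0x48⟩ (.nil) (.nil)
def t14_15039 : Tr := .node ⟨nat_lit 8, nat_lit 0x800080004000900090, nat_lit 0x1211011, nat_lit 1, nat_lit 4, nat_lit 0x49⟩ (.nil) (.nil)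
def t14_1727 : Tr := .node ⟨nat_lit 7, nat_lit 0x10006000600050, nat_lit 0x102112, nat_lit 0, nat_lit 4, nat_lit 0x46⟩ (.nil) (.nil)
def t14_9919 : Tr := .node ⟨nat_lit 4, nat_lit 0xc000c, nat_lit 0x40, nat_lit 8, nat_lit 4, nat_lit 0x45⟩ (.nil) (.nil)
def t14_5823 : Tr := .node ⟨nat_lit 7, nat_lit 0x200040, nat_lit 0x1011120, nat_lit 0, nat_lit 4, nat_lit 0x4a⟩ (.nil) (.nil)
def t14_14015 : Tr := .node ⟨nat_lit 6, nat_lit 0x2000080030, nat_lit 0x112, nat_lit 3, nat_lit 4, nat_lit 0x46⟩ (.nil) (.nil)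
def t14_3775 : Tr := .node ⟨nat_lit 7, nat_lit 0x4000600060, nat_lit 0x21210, nat_lit 1, nat_lit 3, nat_lit 0x47⟩ (.nil) (.nil)
def t14_11967 : Tr := .node ⟨nat_lit 8, nat_lit 0x8000200020009000c0, nat_lit 0x1021020, nat_lit 1, nat_lit 4, nat_lit 0x48⟩ (.nil) (.nil)
def t14_7871 : Tr := .node ⟨nat_lit 7, nat_lit 0x10002000500060, nat_lit 0x2110, nat_lit 1, nat_lit 4, nat_lit 0x46⟩ (.nil) (.nil)
def t9_191 : Tr := .node ⟨nat_lit 4, nat_lit 0xc, nat_lit 0x2131, nat_lit 5, nat_lit 4, nat_lit 0x48⟩ (.node ⟨nat_lit 7, nat_lit 0x1000500060, nat_lit 0x1103022, nat_lit 0, nat_lit 4, nat_lit 0x49⟩ (.node ⟨nat_lit 6, nat_lit 0x20002000200028, nat_lit 0x31210, nat_lit 4, nat_lit 4, nat_lit 0x49⟩ (.node ⟨nat_lit 4, nat_lit 0xe, nat_lit 0x2213, nat_lit 4, nat_lit 4, nat_lit 0x47⟩ (.node ⟨nat_lit 6, nat_lit 0x2000080030, nat_lit 0x21032, nat_lit 0, nat_lit 4,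 nat_lit 0x48⟩ (t14_191) (t14_8383)) (.node ⟨nat_lit 6, nat_lit 0x20001000280028, nat_lit 0x11011, nat_lit 3, nat_lit 4, nat_lit 0x46⟩ (t14_4287) (t14_12479))) (.node ⟨nat_lit 7, nat_lit 0x40001000500060, nat_lit 0x210123, nat_lit 0, nat_lit 4, nat_lit 0x48⟩ (.node ⟨nat_lit 7, nat_lit 0x1000600070, nat_lit 0x1001213, nat_lit 0, nat_lit 4, nat_lit 0x47⟩ (t14_2239) (t14_10431)) (.node ⟨nat_lit 7, nat_lit 0x4000100060, nat_lit 0x112202, nat_lit 0, nat_lit 4, nat_lit 0x49⟩ (t14_6335) (t14_14527)))) (.node ⟨nat_lit 7, nat_lit 0x10001000200040, nat_lit 0x1112111, nat_lit 0, nat_lit 4, nat_lit 0x49⟩ (.node ⟨nat_lit 6, nat_lit 0x280030, nat_lit 0x122121, nat_lit 0, nat_lit 4, nat_lit 0x49⟩ (.node ⟨nat_lit 5, nat_lit 0x100008, nat_lit 0x1204, nat_lit 3, nat_lit 4, nat_lit 0x49⟩ (t14_1215) (t14_9407)) (.node ⟨nat_lit 8, nat_lit 0x1000a000c0, nat_lit 0x10102021,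 nat_lit 1, nat_lit 4, nat_lit 0x4a⟩ (t14_5311) (t14_13503))) (.node ⟨nat_lit 5, nat_lit 0x1000080014, nat_lit 0x11221, nat_lit 3, nat_lit 4, nat_lit 0x47⟩ (.node ⟨nat_lit 6, nat_lit 0x2000080030, nat_lit 0x11100, nat_lit 0, nat_lit 4, nat_lit 0x46⟩ (t14_3263) (t14_11455)) (.node ⟨nat_lit 7, nat_lit 0x4000200020, nat_lit 0x111010, nat_lit 0, nat_lit 4, nat_lit 0x49⟩ (t14_7359) (t14_15551))))) (.node ⟨nat_lit 3, nat_lit 0, nat_lit 0x311, nat_lit 0xb, nat_lit 4, nat_lit 0x49⟩ (.node ⟨nat_lit 3, nat_lit 0, nat_lit 0x211, nat_lit 3, nat_lit 4, nat_lit 0x45⟩ (.node ⟨nat_lit 6, nat_lit 0x1000200030, nat_lit 0x11122, nat_lit 0, nat_lit 4, nat_lit 0x47⟩ (.node ⟨nat_lit 5, nat_lit 0x40018, nat_lit 0x11312, nat_lit 1, nat_lit 4, nat_lit 0x48⟩ (t14_703) (t14_8895)) (.node ⟨nat_lit 7, nat_lit 0x40002000500064, nat_lit 0x102210, nat_lit 1, nat_lit 4, nat_lit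 0x47⟩ (t14_4799) (t14_12991))) (.node ⟨nat_lit 4, nat_lit 0xc000c, nat_lit 0x1011, nat_lit 4, nat_lit 3, nat_lit 0x43⟩ (.node ⟨nat_lit 7, nat_lit 0x40002000480060, nat_lit 0x121103, nat_lit 0, nat_lit 4, nat_lit 0x48⟩ (t14_2751) (t14_10943)) (.node ⟨nat_lit 7, nat_lit 0x5000180060, nat_lit 0x111221, nat_lit 2, nat_lit 4, nat_lit 0x48⟩ (t14_6847) (t14_15039)))) (.node ⟨nat_lit 6, nat_lit 0x2000100038, nat_lit 0x111122, nat_lit 0, nat_lit 4, nat_lit 0x47⟩ (.node ⟨nat_lit 6, nat_lit 0x2000080030, nat_lit 0x101120, nat_lit 1, nat_lit 4, nat_lit 0x47⟩ (.node ⟨nat_lit 6, nat_lit 0x1000200030, nat_lit 0x1101, nat_lit 2, nat_lit 4, nat_lit 0x46⟩ (t14_1727) (t14_9919)) (.node ⟨nat_lit 6, nat_lit 0x300030, nat_lit 0x102220, nat_lit 0, nat_lit 4, nat_lit 0x48⟩ (t14_5823) (t14_14015))) (.node ⟨nat_lit 7, nat_lit 0x20002000400068, nat_lit 0x121100, nat_lit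 0, nat_lit 4, nat_lit 0x48⟩ (.node ⟨nat_lit 7, nat_lit 0x5000600070, nat_lit 0x101013, nat_lit 0, nat_lit 4, nat_lit 0x46⟩ (t14_3775) (t14_11967)) (.node ⟨nat_lit 7, nat_lit 0x10001000600060, nat_lit 0x1011121, nat_lit 3, nat_lit 4, nat_lit 0x48⟩ (t14_7871) (.nil)))))
def t14_447 : Tr := .node ⟨nat_lit 6, nat_lit 0x20002000100010, nat_lit 0x112210, nat_lit 4, nat_lit 4, nat_lit 0x49⟩ (.nil) (.nil)
def t14_8639 : Tr := .node ⟨nat_lit 6, nat_lit 0x1000280034, nat_lit 0x10, nat_lit 0, nat_lit 4, nat_lit 0x43⟩ (.nil) (.nil)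
def t14_4543 : Tr := .node ⟨nat_lit 7, nat_lit 0x4000100020, nat_lit 0x211020, nat_lit 0, nat_lit 4, nat_lit 0x4a⟩ (.nil) (.nil)
def t14_12735 : Tr := .node ⟨nat_lit 6, nat_lit 0x800200030, nat_lit 0x20030, nat_lit 3, nat_lit 4, nat_lit 0x48⟩ (.nil) (.nil)
def t14_2495 : Tr := .node ⟨nat_lit 7, nat_lit 0x1000600060, nat_lit 0x1002020, nat_lit 1, nat_lit 4, nat_lit 0x48⟩ (.nil) (.nil)
def t14_10687 : Tr := .node ⟨nat_lit 7, nat_lit 0x4000600018, nat_lit 0x10000, nat_lit 0, nat_lit 4, nat_lit 0x46⟩ (.nil) (.nil)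
def t14_6591 : Tr := .node ⟨nat_lit 5, nat_lit 0x800100018, nat_lit 0x10220, nat_lit 6, nat_lit 4, nat_lit 0x47⟩ (.nil) (.nil)
def t14_14783 : Tr := .node ⟨nat_lit 8, nat_lit 0x800088006000c0, nat_lit 0x1011112, nat_lit 0, nat_lit 4, nat_lit 0x48⟩ (.nil) (.nil)
def t14_1471 : Tr := .node ⟨nat_lit 7, nat_lit 0x40004000100060, nat_lit 0x112011, nat_lit 5, nat_lit 4, nat_lit 0x49⟩ (.nil) (.nil)
def t14_9663 : Tr := .node ⟨nat_lit 7, nat_lit 0x400040002000500060, nat_lit 0x10002, nat_lit 5, nat_lit 4, nat_lit 0x47⟩ (.nil) (.nil)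
def t14_5567 : Tr := .node ⟨nat_lit 6, nat_lit 0x200022, nat_lit 0x11122, nat_lit 4, nat_lit 4, nat_lit 0x49⟩ (.nil) (.nil)
def t14_13759 : Tr := .node ⟨nat_lit 8, nat_lit 0x400080006000a000d0, nat_lit 0x20010, nat_lit 1, nat_lit 4, nat_lit 0x46⟩ (.nil) (.nil)
def t14_3519 : Tr := .node ⟨nat_lit 6, nat_lit 0x800300028, nat_lit 0x10101, nat_lit 0, nat_lit 4, nat_lit 0x45⟩ (.nil) (.nil)
def t14_11711 : Tr := .node ⟨nat_lit 7, nat_lit 0x400020002000500050, nat_lit 0x101110, nat_lit 1, nat_lit 4, nat_lit 0x46⟩ (.nil) (.nil)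
def t14_7615 : Tr := .node ⟨nat_lit 6, nat_lit 0x20001000100030, nat_lit 0x3113, nat_lit 3, nat_lit 4, nat_lit 0x47⟩ (.nil) (.nil)
def t14_959 : Tr := .node ⟨nat_lit 7, nat_lit 0x2000500060, nat_lit 0x21012, nat_lit 1, nat_lit 4, nat_lit 0x48⟩ (.nil) (.nil)
def t14_9151 : Tr := .node ⟨nat_lit 9, nat_lit 0x10001000080011001200180, nat_lit 0x1010102, nat_lit 0, nat_lit 4, nat_lit 0x48⟩ (.nil) (.nil)
def t14_5055 : Tr := .node ⟨nat_lit 8, nat_lit 0x800020002000c000c0, nat_lit 0x1011031, nat_lit 0, nat_lit 4, nat_lit 0x48⟩ (.nil) (.nil)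
def t14_13247 : Tr := .node ⟨nat_lit 7, nat_lit 0x40002000200048, nat_lit 0x13002, nat_lit 0, nat_lit 4, nat_lit 0x48⟩ (.nil) (.nil)
def t14_3007 : Tr := .node ⟨nat_lit 7, nat_lit 0x200020004000400064, nat_lit 0x1021101, nat_lit 4, nat_lit 4, nat_lit 0x48⟩ (.nil) (.nil)
def t14_11199 : Tr := .node ⟨nat_lit 6, nat_lit 0x2000300038, nat_lit 0x100102, nat_lit 3, nat_lit 4, nat_lit 0x46⟩ (.nil) (.nil)
def t14_7103 : Tr := .node ⟨nat_lit 5, nat_lit 0x180018, nat_lit 0x10411, nat_lit 5, nat_lit 4, nat_lit 0x48⟩ (.nil) (.nil)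
def t14_15295 : Tr := .node ⟨nat_lit 7, nat_lit 0x20001000600050, nat_lit 0x1001212, nat_lit 1, nat_lit 4, nat_lit 0x47⟩ (.nil) (.nil)
def t14_1983 : Tr := .node ⟨nat_lit 8, nat_lit 0x40004000800088008800c0, nat_lit 0x20110102, nat_lit 0, nat_lit 4, nat_lit 0x48⟩ (.nil) (.nil)
def t14_10175 : Tr := .node ⟨nat_lit 7, nat_lit 0x20005000680068, nat_lit 0x100200, nat_lit 2, nat_lit 4, nat_lit 0x45⟩ (.nil) (.nil)
def t14_6079 : Tr := .node ⟨nat_lit 7, nat_lit 0x40004000400040, nat_lit 0x112210, nat_lit 0, nat_lit 3, nat_lit 0x48⟩ (.nil) (.nil)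
def t14_14271 : Tr := .node ⟨nat_lit 9, nat_lit 0x200100008001400184, nat_lit 0x11002010, nat_lit 1, nat_lit 4, nat_lit 0x49⟩ (.nil) (.nil)
def t14_4031 : Tr := .node ⟨nat_lit 8, nat_lit 0x4000800080009000c800d0, nat_lit 0x10011112, nat_lit 1, nat_lit 4, nat_lit 0x47⟩ (.nil) (.nil)
def t14_12223 : Tr := .node ⟨nat_lit 7, nat_lit 0x4000500060, nat_lit 0x101120, nat_lit 3, nat_lit 4, nat_lit 0x48⟩ (.nil) (.nil)
def t14_8127 : Tr := .node ⟨nat_lit 7, nat_lit 0x4000440044, nat_lit 0x111141, nat_lit 0, nat_lit 4, nat_lit 0x49⟩ (.nil) (.nil)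
def t9_447 : Tr := .node ⟨nat_lit 4, nat_lit 0x80004, nat_lit 0x1303, nat_lit 1, nat_lit 3, nat_lit 0x47⟩ (.node ⟨nat_lit 4, nat_lit 8, nat_lit 0x112, nat_lit 2, nat_lit 3, nat_lit 0x45⟩ (.node ⟨nat_lit 6, nat_lit 0x800080030, nat_lit 0x200202, nat_lit 0, nat_lit 4, nat_lit 0x47⟩ (.node ⟨nat_lit 6, nat_lit 0x300028, nat_lit 0x1202, nat_lit 2, nat_lit 4, nat_lit 0x47⟩ (.node ⟨nat_lit 7, nat_lit 0x6000500018, nat_lit 0x1002201, nat_lit 0, nat_lit 4, nat_lit 0x47⟩ (t14_447) (t14_8639)) (.node ⟨nat_lit 8, nat_lit 0x20008000c0, nat_lit 0x2021002, nat_lit 1, nat_lit 4, nat_lit 0x4b⟩ (t14_4543) (t14_12735))) (.node ⟨nat_lit 3, nat_lit 0x40004, nat_lit 0x122, nat_lit 0xa, nat_lit 4, nat_lit 0x47⟩ (.node ⟨nat_lit 5, nat_lit 0x100018, nat_lit 0x11101, nat_lit 2, nat_lit 3, nat_lit 0x46⟩ (t14_2495) (t14_10687)) (.node ⟨nat_lit 8, nat_lit 0x400040008000c0,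 nat_lit 0x212201, nat_lit 0, nat_lit 4, nat_lit 0x4a⟩ (t14_6591) (t14_14783)))) (.node ⟨nat_lit 6, nat_lit 0x2000200034, nat_lit 0x21001, nat_lit 3, nat_lit 4, nat_lit 0x47⟩ (.node ⟨nat_lit 6, nat_lit 0x2000080030, nat_lit 0x112221, nat_lit 2, nat_lit 4, nat_lit 0x49⟩ (.node ⟨nat_lit 6, nat_lit 0x1000200022, nat_lit 0x11011, nat_lit 0, nat_lit 4, nat_lit 0x46⟩ (t14_1471) (t14_9663)) (.node ⟨nat_lit 6, nat_lit 0x20002000100010, nat_lit 0x211110, nat_lit 0, nat_lit 3, nat_lit 0x47⟩ (t14_5567) (t14_13759))) (.node ⟨nat_lit 4, nat_lit 0xc, nat_lit 0x1122, nat_lit 5, nat_lit 3, nat_lit 0x46⟩ (.node ⟨nat_lit 3, nat_lit 6, nat_lit 0, nat_lit 6, nat_lit 3, nat_lit 0x43⟩ (t14_3519) (t14_11711)) (.node ⟨nat_lit 4, nat_lit 0x8000c, nat_lit 0x2030, nat_lit 5, nat_lit 3, nat_lit 0x46⟩ (t14_7615) (.nil))))) (.node ⟨nat_lit 6, nat_lit 0x2000080034, nat_lit 0x300211,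 nat_lit 0, nat_lit 4, nat_lit 0x48⟩ (.node ⟨nat_lit 4, nat_lit 8, nat_lit 0x1220, nat_lit 5, nat_lit 3, nat_lit 0x47⟩ (.node ⟨nat_lit 7, nat_lit 0x40004000100020, nat_lit 0x1111111, nat_lit 1, nat_lit 4, nat_lit 0x49⟩ (.node ⟨nat_lit 7, nat_lit 0x40, nat_lit 0x1111113, nat_lit 0, nat_lit 4, nat_lit 0x4c⟩ (t14_959) (t14_9151)) (.node ⟨nat_lit 7, nat_lit 0x4000440060, nat_lit 0x22220, nat_lit 1, nat_lit 4, nat_lit 0x49⟩ (t14_5055) (t14_13247))) (.node ⟨nat_lit 3, nat_lit 4, nat_lit 0x113, nat_lit 9, nat_lit 4, nat_lit 0x47⟩ (.node ⟨nat_lit 6, nat_lit 0x2000200020, nat_lit 0x21110, nat_lit 1, nat_lit 3, nat_lit 0x47⟩ (t14_3007) (t14_11199)) (.node ⟨nat_lit 6, nat_lit 0x2000100030, nat_lit 0x11022, nat_lit 8, nat_lit 4, nat_lit 0x49⟩ (t14_7103) (t14_15295)))) (.node ⟨nat_lit 6, nat_lit 0x30, nat_lit 0x201110, nat_lit 1, nat_lit 4, nat_lit 0x49⟩ (.node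 ⟨nat_lit 6, nat_lit 0x800200032, nat_lit 0x231201, nat_lit 1, nat_lit 4, nat_lit 0x49⟩ (.node ⟨nat_lit 5, nat_lit 0x100010, nat_lit 0x12241, nat_lit 0, nat_lit 3, nat_lit 0x48⟩ (t14_1983) (t14_10175)) (.node ⟨nat_lit 7, nat_lit 0x10002000500060, nat_lit 0x10220, nat_lit 1, nat_lit 4, nat_lit 0x47⟩ (t14_6079) (t14_14271))) (.node ⟨nat_lit 5, nat_lit 0x18, nat_lit 0x30210, nat_lit 3, nat_lit 3, nat_lit 0x48⟩ (.node ⟨nat_lit 6, nat_lit 0x1000280030, nat_lit 0x110031, nat_lit 0, nat_lit 4, nat_lit 0x46⟩ (t14_4031) (t14_12223)) (.node ⟨nat_lit 6, nat_lit 0x1000280030, nat_lit 0x112201, nat_lit 1, nat_lit 4, nat_lit 0x48⟩ (t14_8127) (.nil)))))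
def t14_127 : Tr := .node ⟨nat_lit 7, nat_lit 0x20004000600068, nat_lit 0x121111, nat_lit 3, nat_lit 4, nat_lit 0x48⟩ (.nil) (.nil)
def t14_8319 : Tr := .node ⟨nat_lit 4, nat_lit 0x8000e, nat_lit 0x133, nat_lit 7, nat_lit 4, nat_lit 0x46⟩ (.nil) (.nil)
def t14_4223 : Tr := .node ⟨nat_lit 7, nat_lit 0x1000400060, nat_lit 0x22011, nat_lit 1, nat_lit 4, nat_lit 0x49⟩ (.nil) (.nil)
def t14_12415 : Tr := .node ⟨nat_lit 8, nat_lit 0x400080002000d000e0, nat_lit 0x1101003, nat_lit 1, nat_lit 4, nat_lit 0x47⟩ (.nil) (.nil)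
def t14_2175 : Tr := .node ⟨nat_lit 7, nat_lit 0x400020002000500060, nat_lit 0x23021, nat_lit 0, nat_lit 4, nat_lit 0x47⟩ (.nil) (.nil)
def t14_10367 : Tr := .node ⟨nat_lit 7, nat_lit 0x1000400060, nat_lit 0x2101002, nat_lit 0, nat_lit 3, nat_lit 0x48⟩ (.nil) (.nil)
def t14_6271 : Tr := .node ⟨nat_lit 6, nat_lit 0x200020, nat_lit 0x111111, nat_lit 4, nat_lit 4, nat_lit 0x4a⟩ (.nil) (.nil)
def t14_14463 : Tr := .node ⟨nat_lit 6, nat_lit 0x1000200034, nat_lit 0x12100, nat_lit 2, nat_lit 4, nat_lit 0x47⟩ (.nil) (.nil)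
def t14_1151 : Tr := .node ⟨nat_lit 6, nat_lit 0x800300030, nat_lit 0x1211, nat_lit 2, nat_lit 4, nat_lit 0x46⟩ (.nil) (.nil)
def t14_9343 : Tr := .node ⟨nat_lit 7, nat_lit 0x4000400020, nat_lit 0x221002, nat_lit 1, nat_lit 3, nat_lit 0x49⟩ (.nil) (.nil)
def t14_5247 : Tr := .node ⟨nat_lit 7, nat_lit 0x40001000600060, nat_lit 0x113010, nat_lit 1, nat_lit 4, nat_lit 0x48⟩ (.nil) (.nil)
def t14_13439 : Tr := .node ⟨nat_lit 6, nat_lit 0x20001000100028, nat_lit 0x12100, nat_lit 4, nat_lit 4, nat_lit 0x47⟩ (.nil) (.nil)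
def t14_3199 : Tr := .node ⟨nat_lit 7, nat_lit 0x400040002000200064, nat_lit 0x10221, nat_lit 0, nat_lit 4, nat_lit 0x47⟩ (.nil) (.nil)
def t14_11391 : Tr := .node ⟨nat_lit 9, nat_lit 0x8000800080010001a001a0, nat_lit 0x1011120, nat_lit 0, nat_lit 4, nat_lit 0x48⟩ (.nil) (.nil)
def t14_7295 : Tr := .node ⟨nat_lit 7, nat_lit 0x6000600050, nat_lit 0x20211, nat_lit 0, nat_lit 4, nat_lit 0x47⟩ (.nil) (.nil)
def t14_15487 : Tr := .node ⟨nat_lit 7, nat_lit 0x200040004000400060, nat_lit 0x121101, nat_lit 0, nat_lit 3, nat_lit 0x46⟩ (.nil) (.nil)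
def t14_639 : Tr := .node ⟨nat_lit 6, nat_lit 0x2000100010, nat_lit 0x102032, nat_lit 1, nat_lit 4, nat_lit 0x49⟩ (.nil) (.nil)
def t14_8831 : Tr := .node ⟨nat_lit 7, nat_lit 0x40004000200048, nat_lit 0x112013, nat_lit 2, nat_lit 4, nat_lit 0x49⟩ (.nil) (.nil)
def t14_4735 : Tr := .node ⟨nat_lit 7, nat_lit 0x4000100060, nat_lit 0x1011201, nat_lit 5, nat_lit 4, nat_lit 0x4a⟩ (.nil) (.nil)
def t14_12927 : Tr := .node ⟨nat_lit 7, nat_lit 0x40004800300060, nat_lit 0x112010, nat_lit 0, nat_lit 4, nat_lit 0x47⟩ (.nil) (.nil)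
def t14_2687 : Tr := .node ⟨nat_lit 6, nat_lit 0x800300030, nat_lit 0x1010, nat_lit 1, nat_lit 4, nat_lit 0x45⟩ (.nil) (.nil)
def t14_10879 : Tr := .node ⟨nat_lit 8, nat_lit 0x800040004000a000c000d0, nat_lit 0x221020, nat_lit 1, nat_lit 4, nat_lit 0x47⟩ (.nil) (.nil)
def t14_6783 : Tr := .node ⟨nat_lit 7, nat_lit 0x400060, nat_lit 0x11100, nat_lit 2, nat_lit 4, nat_lit 0x49⟩ (.nil) (.nil)
def t14_14975 : Tr := .node ⟨nat_lit 8, nat_lit 0x8000800040004000a000c0, nat_lit 0x211011, nat_lit 1, nat_lit 4, nat_lit 0x48⟩ (.nil) (.nil)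
def t14_1663 : Tr := .node ⟨nat_lit 7, nat_lit 0x10004000180060, nat_lit 0x2011, nat_lit 0, nat_lit 4, nat_lit 0x46⟩ (.nil) (.nil)
def t14_9855 : Tr := .node ⟨nat_lit 7, nat_lit 0x1000500060, nat_lit 0x110122, nat_lit 0, nat_lit 4, nat_lit 0x48⟩ (.nil) (.nil)
def t14_5759 : Tr := .node ⟨nat_lit 6, nat_lit 0x20002000100010, nat_lit 0x112120, nat_lit 4, nat_lit 3, nat_lit 0x47⟩ (.nil) (.nil)
def t14_13951 : Tr := .node ⟨nat_lit 6, nat_lit 0x800080030, nat_lit 0x100102, nat_lit 4, nat_lit 4, nat_lit 0x47⟩ (.nil) (.nil)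
def t14_3711 : Tr := .node ⟨nat_lit 7, nat_lit 0x400020005000700068, nat_lit 0x1112010, nat_lit 3, nat_lit 4, nat_lit 0x47⟩ (.nil) (.nil)
def t14_11903 : Tr := .node ⟨nat_lit 6, nat_lit 0x2000200010, nat_lit 0x1313, nat_lit 0, nat_lit 4, nat_lit 0x48⟩ (.nil) (.nil)
def t14_7807 : Tr := .node ⟨nat_lit 5, nat_lit 0x10001000180018, nat_lit 0x1021, nat_lit 0xd, nat_lit 4, nat_lit 0x47⟩ (.nil) (.nil)
def t9_127 : Tr := .node ⟨nat_lit 5, nat_lit 0x80010, nat_lit 0x31111, nat_lit 0, nat_lit 4, nat_lit 0x48⟩ (.node ⟨nat_lit 3, nat_lit 6, nat_lit 0x321, nat_lit 3, nat_lit 3, nat_lit 0x46⟩ (.node ⟨nat_lit 6, nat_lit 0x1000200020, nat_lit 0x3300, nat_lit 0, nat_lit 4, nat_lit 0x48⟩ (.node ⟨nat_lit 6, nat_lit 0x1000200032, nat_lit 0x211001, nat_lit 1, nat_lit 4, nat_lit 0x47⟩ (.node ⟨nat_lit 7, nat_lit 0x200020004000440064, nat_lit 0x2021210, nat_lit 0, nat_lit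 4, nat_lit 0x48⟩ (t14_127) (t14_8319)) (.node ⟨nat_lit 6, nat_lit 0x2000080034, nat_lit 0x110020, nat_lit 0, nat_lit 4, nat_lit 0x46⟩ (t14_4223) (t14_12415))) (.node ⟨nat_lit 7, nat_lit 0x1000080060, nat_lit 0x2101012, nat_lit 4, nat_lit 4, nat_lit 0x4a⟩ (.node ⟨nat_lit 6, nat_lit 0x800280030, nat_lit 0x201, nat_lit 1, nat_lit 4, nat_lit 0x45⟩ (t14_2175) (t14_10367)) (.node ⟨nat_lit 8, nat_lit 0x800040, nat_lit 0x11211110, nat_lit 1, nat_lit 4, nat_lit 0x4d⟩ (t14_6271) (t14_14463)))) (.node ⟨nat_lit 6, nat_lit 0x200030, nat_lit 0x22210, nat_lit 0, nat_lit 4, nat_lit 0x49⟩ (.node ⟨nat_lit 4, nat_lit 0xc, nat_lit 0x2211, nat_lit 5, nat_lit 4, nat_lit 0x48⟩ (.node ⟨nat_lit 3, nat_lit 0, nat_lit 0x511, nat_lit 4, nat_lit 3, nat_lit 0x48⟩ (t14_1151) (t14_9343)) (.node ⟨nat_lit 7, nat_lit 0x1000600060, nat_lit 0x1012121, nat_lit 2, nat_lit 4, nat_lit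 0x49⟩ (t14_5247) (t14_13439))) (.node ⟨nat_lit 6, nat_lit 0x1000080020, nat_lit 0x201000, nat_lit 0, nat_lit 4, nat_lit 0x47⟩ (.node ⟨nat_lit 6, nat_lit 0x1000280034, nat_lit 0x21001, nat_lit 1, nat_lit 4, nat_lit 0x46⟩ (t14_3199) (t14_11391)) (.node ⟨nat_lit 6, nat_lit 0x800300038, nat_lit 0x100210, nat_lit 1, nat_lit 4, nat_lit 0x45⟩ (t14_7295) (t14_15487))))) (.node ⟨nat_lit 6, nat_lit 0x20001000100028, nat_lit 0x302102, nat_lit 2, nat_lit 4, nat_lit 0x49⟩ (.node ⟨nat_lit 5, nat_lit 0x40018, nat_lit 0x10231, nat_lit 3, nat_lit 4, nat_lit 0x48⟩ (.node ⟨nat_lit 4, nat_lit 0xc, nat_lit 0x1024, nat_lit 3, nat_lit 4, nat_lit 0x46⟩ (.node ⟨nat_lit 6, nat_lit 0x1000200020, nat_lit 0x211210, nat_lit 0, nat_lit 4, nat_lit 0x49⟩ (t14_639) (t14_8831)) (.node ⟨nat_lit 7, nat_lit 0x400020005000700068, nat_lit 0x1112101, nat_lit 3, nat_lit 4, nat_lit 0x47⟩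 (t14_4735) (t14_12927))) (.node ⟨nat_lit 6, nat_lit 0x2000100030, nat_lit 0x1210, nat_lit 0, nat_lit 3, nat_lit 0x45⟩ (.node ⟨nat_lit 5, nat_lit 0x800100010, nat_lit 0x12311, nat_lit 5, nat_lit 4, nat_lit 0x49⟩ (t14_2687) (t14_10879)) (.node ⟨nat_lit 5, nat_lit 0x800080010, nat_lit 0x10212, nat_lit 4, nat_lit 4, nat_lit 0x47⟩ (t14_6783) (t14_14975)))) (.node ⟨nat_lit 7, nat_lit 0x10002000400042, nat_lit 0x2111110, nat_lit 0, nat_lit 4, nat_lit 0x49⟩ (.node ⟨nat_lit 6, nat_lit 0x2000080030, nat_lit 0x21121, nat_lit 2, nat_lit 4, nat_lit 0x48⟩ (.node ⟨nat_lit 6, nat_lit 0x20001000100028, nat_lit 0x100101, nat_lit 1, nat_lit 4, nat_lit 0x45⟩ (t14_1663) (t14_9855)) (.node ⟨nat_lit 8, nat_lit 0x800040004000400020, nat_lit 0x202002, nat_lit 1, nat_lit 4, nat_lit 0x4a⟩ (t14_5759) (t14_13951))) (.node ⟨nat_lit 6, nat_lit 0x280030, nat_lit 0x201022, nat_lit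 0, nat_lit 4, nat_lit 0x48⟩ (.node ⟨nat_lit 8, nat_lit 0x800020001000c0, nat_lit 0x10010, nat_lit 0, nat_lit 4, nat_lit 0x48⟩ (t14_3711) (t14_11903)) (.node ⟨nat_lit 7, nat_lit 0x10001000600060, nat_lit 0x2011121, nat_lit 1, nat_lit 4, nat_lit 0x48⟩ (t14_7807) (.nil)))))
def t14_383 : Tr := .node ⟨nat_lit 8, nat_lit 0x80008000400040, nat_lit 0x1211011, nat_lit 1, nat_lit 4, nat_lit 0x4b⟩ (.nil) (.nil)
def t14_8575 : Tr := .node ⟨nat_lit 7, nat_lit 0x200040004000480048, nat_lit 0x1021, nat_lit 3, nat_lit 4, nat_lit 0x47⟩ (.nil) (.nil)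
def t14_4479 : Tr := .node ⟨nat_lit 6, nat_lit 0x2000100030, nat_lit 0x111102, nat_lit 2, nat_lit 4, nat_lit 0x48⟩ (.nil) (.nil)
def t14_12671 : Tr := .node ⟨nat_lit 7, nat_lit 0x40001000200020, nat_lit 0x10031, nat_lit 4, nat_lit 4, nat_lit 0x49⟩ (.nil) (.nil)
def t14_2431 : Tr := .node ⟨nat_lit 7, nat_lit 0x20006000500068, nat_lit 0x112021, nat_lit 1, nat_lit 4, nat_lit 0x47⟩ (.nil) (.nil)
def t14_10623 : Tr := .node ⟨nat_lit 6, nat_lit 0x2000100008, nat_lit 0x11, nat_lit 0, nat_lit 4, nat_lit 0x45⟩ (.nil) (.nil)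
def t14_6527 : Tr := .node ⟨nat_lit 7, nat_lit 0x40001000480068, nat_lit 0x1110111, nat_lit 1, nat_lit 4, nat_lit 0x47⟩ (.nil) (.nil)
def t14_14719 : Tr := .node ⟨nat_lit 5, nat_lit 0x1000100008, nat_lit 0x1111, nat_lit 6, nat_lit 4, nat_lit 0x47⟩ (.nil) (.nil)
def t14_1407 : Tr := .node ⟨nat_lit 7, nat_lit 0x20002000400040, nat_lit 0x1013110, nat_lit 0, nat_lit 4, nat_lit 0x49⟩ (.nil) (.nil)
def t14_9599 : Tr := .node ⟨nat_lit 7, nat_lit 0x200040006000680070, nat_lit 0x22200, nat_lit 3, nat_lit 4, nat_lit 0x46⟩ (.nil) (.nil)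
def t14_5503 : Tr := .node ⟨nat_lit 6, nat_lit 0x100020, nat_lit 0x101140, nat_lit 0, nat_lit 4, nat_lit 0x49⟩ (.nil) (.nil)
def t14_13695 : Tr := .node ⟨nat_lit 7, nat_lit 0x10002000400042, nat_lit 0x2010200, nat_lit 0, nat_lit 4, nat_lit 0x48⟩ (.nil) (.nil)
def t14_3455 : Tr := .node ⟨nat_lit 7, nat_lit 0x20005000300060, nat_lit 0x2210, nat_lit 3, nat_lit 4, nat_lit 0x46⟩ (.nil) (.nil)
def t14_11647 : Tr := .node ⟨nat_lit 8, nat_lit 0x20002000c000c000e0, nat_lit 0x11103, nat_lit 0, nat_lit 4, nat_lit 0x46⟩ (.nil) (.nil)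
def t14_7551 : Tr := .node ⟨nat_lit 5, nat_lit 0x100010, nat_lit 0x2233, nat_lit 0, nat_lit 3, nat_lit 0x47⟩ (.nil) (.nil)
def t14_895 : Tr := .node ⟨nat_lit 7, nat_lit 0x400040004000200020, nat_lit 0x30022, nat_lit 0, nat_lit 4, nat_lit 0x48⟩ (.nil) (.nil)
def t14_9087 : Tr := .node ⟨nat_lit 7, nat_lit 0x400040002000200064, nat_lit 0x22211, nat_lit 0, nat_lit 4, nat_lit 0x47⟩ (.nil) (.nil)
def t14_4991 : Tr := .node ⟨nat_lit 6, nat_lit 0x1000280034, nat_lit 0x11110, nat_lit 2, nat_lit 4, nat_lit 0x46⟩ (.nil) (.nil)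
def t14_13183 : Tr := .node ⟨nat_lit 7, nat_lit 0x400040002000240050, nat_lit 0x10030, nat_lit 0, nat_lit 4, nat_lit 0x45⟩ (.nil) (.nil)
def t14_2943 : Tr := .node ⟨nat_lit 6, nat_lit 0x80030, nat_lit 0x112102, nat_lit 0, nat_lit 4, nat_lit 0x49⟩ (.nil) (.nil)
def t14_11135 : Tr := .node ⟨nat_lit 4, nat_lit 0xc000c, nat_lit 0x1040, nat_lit 7, nat_lit 4, nat_lit 0x46⟩ (.nil) (.nil)
def t14_7039 : Tr := .node ⟨nat_lit 7, nat_lit 0x40001000600070, nat_lit 0x1011112, nat_lit 1, nat_lit 4, nat_lit 0x47⟩ (.nil) (.nil)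
def t14_15231 : Tr := .node ⟨nat_lit 7, nat_lit 0x20006000500068, nat_lit 0x1111121, nat_lit 0, nat_lit 4, nat_lit 0x47⟩ (.nil) (.nil)
def t14_1919 : Tr := .node ⟨nat_lit 6, nat_lit 0x800080030, nat_lit 0x300002, nat_lit 1, nat_lit 4, nat_lit 0x47⟩ (.nil) (.nil)
def t14_10111 : Tr := .node ⟨nat_lit 8, nat_lit 0x80008000c000d000d0, nat_lit 0x200220, nat_lit 2, nat_lit 4, nat_lit 0x47⟩ (.nil) (.nil)
def t14_6015 : Tr := .node ⟨nat_lit 6, nat_lit 0x200030, nat_lit 0x213110, nat_lit 0, nat_lit 4, nat_lit 0x4a⟩ (.nil) (.nil)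
def t14_14207 : Tr := .node ⟨nat_lit 6, nat_lit 0x2000280030, nat_lit 0x1120, nat_lit 5, nat_lit 4, nat_lit 0x47⟩ (.nil) (.nil)
def t14_3967 : Tr := .node ⟨nat_lit 6, nat_lit 0x800080030, nat_lit 0x101110, nat_lit 0, nat_lit 4, nat_lit 0x47⟩ (.nil) (.nil)
def t14_12159 : Tr := .node ⟨nat_lit 8, nat_lit 0x8000a0009000c8, nat_lit 0x1012101, nat_lit 1, nat_lit 4, nat_lit 0x48⟩ (.nil) (.nil)
def t14_8063 : Tr := .node ⟨nat_lit 7, nat_lit 0x4000100064, nat_lit 0x100103, nat_lit 1, nat_lit 4, nat_lit 0x47⟩ (.nil) (.nil)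
def t9_383 : Tr := .node ⟨nat_lit 6, nat_lit 0x2000100024, nat_lit 0x231120, nat_lit 0, nat_lit 4, nat_lit 0x4a⟩ (.node ⟨nat_lit 6, nat_lit 0x800200030, nat_lit 0x131102, nat_lit 1, nat_lit 4, nat_lit 0x49⟩ (.node ⟨nat_lit 5, nat_lit 0x100008, nat_lit 0x2202, nat_lit 5, nat_lit 4, nat_lit 0x49⟩ (.node ⟨nat_lit 4, nat_lit 0x8000c, nat_lit 0x1122, nat_lit 4, nat_lit 4, nat_lit 0x46⟩ (.node ⟨nat_lit 6, nat_lit 0x2000200030, nat_lit 0x11210, nat_lit 1, nat_lit 3, nat_lit 0x46⟩ (t14_383) (t14_8575)) (.node ⟨nat_lit 9, nat_lit 0x1000100008000800110, nat_lit 0x101120101, nat_lit 0, nat_lit 4, nat_lit 0x4b⟩ (t14_4479) (t14_12671))) (.node ⟨nat_lit 3, nat_lit 4, nat_lit 0x231, nat_lit 8, nat_lit 4, nat_lit 0x48⟩ (.node ⟨nat_lit 7, nat_lit 0x6000180050, nat_lit 0x1010114, nat_lit 1, nat_lit 4, nat_lit 0x48⟩ (t14_2431) (t14_10623)) (.node ⟨nat_lit 6, nat_lit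 0x2000100024, nat_lit 0x201021, nat_lit 0, nat_lit 4, nat_lit 0x47⟩ (t14_6527) (t14_14719)))) (.node ⟨nat_lit 6, nat_lit 0x2000280034, nat_lit 0x12021, nat_lit 3, nat_lit 4, nat_lit 0x47⟩ (.node ⟨nat_lit 6, nat_lit 0x2000200010, nat_lit 0x22221, nat_lit 0, nat_lit 4, nat_lit 0x49⟩ (.node ⟨nat_lit 6, nat_lit 0x1000280030, nat_lit 0x11032, nat_lit 0, nat_lit 4, nat_lit 0x46⟩ (t14_1407) (t14_9599)) (.node ⟨nat_lit 7, nat_lit 0x10002000500060, nat_lit 0x12112, nat_lit 1, nat_lit 4, nat_lit 0x47⟩ (t14_5503) (t14_13695))) (.node ⟨nat_lit 6, nat_lit 0x10001000100020, nat_lit 0x102001, nat_lit 6, nat_lit 4, nat_lit 0x48⟩ (.node ⟨nat_lit 5, nat_lit 0x80010, nat_lit 0x200, nat_lit 1, nat_lit 4, nat_lit 0x45⟩ (t14_3455) (t14_11647)) (.node ⟨nat_lit 7, nat_lit 0x40001000200060, nat_lit 0x1011101, nat_lit 2, nat_lit 4, nat_lit 0x48⟩ (t14_7551) (.nil))))) (.node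 ⟨nat_lit 6, nat_lit 0x80030, nat_lit 0x211301, nat_lit 1, nat_lit 4, nat_lit 0x4a⟩ (.node ⟨nat_lit 6, nat_lit 0x200020, nat_lit 0x22100, nat_lit 1, nat_lit 4, nat_lit 0x49⟩ (.node ⟨nat_lit 6, nat_lit 0x2000100024, nat_lit 0x111110, nat_lit 3, nat_lit 4, nat_lit 0x48⟩ (.node ⟨nat_lit 6, nat_lit 0x1000200020, nat_lit 0x123210, nat_lit 0, nat_lit 4, nat_lit 0x4a⟩ (t14_895) (t14_9087)) (.node ⟨nat_lit 8, nat_lit 0x8000400040, nat_lit 0x11111020, nat_lit 1, nat_lit 4, nat_lit 0x4c⟩ (t14_4991) (t14_13183))) (.node ⟨nat_lit 5, nat_lit 0x1000080008, nat_lit 0x1021, nat_lit 4, nat_lit 4, nat_lit 0x47⟩ (.node ⟨nat_lit 6, nat_lit 0x1000200020, nat_lit 0x112211, nat_lit 1, nat_lit 4, nat_lit 0x49⟩ (t14_2943) (t14_11135)) (.node ⟨nat_lit 5, nat_lit 0x140018, nat_lit 0x11122, nat_lit 8, nat_lit 4, nat_lit 0x48⟩ (t14_7039) (t14_15231)))) (.node ⟨nat_lit 5, nat_lit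 0x100008, nat_lit 0x10222, nat_lit 0, nat_lit 3, nat_lit 0x46⟩ (.node ⟨nat_lit 7, nat_lit 0x40001000100060, nat_lit 0x1211111, nat_lit 0, nat_lit 4, nat_lit 0x49⟩ (.node ⟨nat_lit 7, nat_lit 0x2800480070, nat_lit 0x1110213, nat_lit 0, nat_lit 4, nat_lit 0x47⟩ (t14_1919) (t14_10111)) (.node ⟨nat_lit 7, nat_lit 0x10001000600060, nat_lit 0x1012020, nat_lit 1, nat_lit 4, nat_lit 0x48⟩ (t14_6015) (t14_14207))) (.node ⟨nat_lit 7, nat_lit 0x40002000200060, nat_lit 0x10311, nat_lit 1, nat_lit 4, nat_lit 0x48⟩ (.node ⟨nat_lit 5, nat_lit 0x100018, nat_lit 0x10100, nat_lit 1, nat_lit 4, nat_lit 0x45⟩ (t14_3967) (t14_12159)) (.node ⟨nat_lit 7, nat_lit 0x40001000100060, nat_lit 0x1013111, nat_lit 1, nat_lit 4, nat_lit 0x49⟩ (t14_8063) (.nil)))))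
def t14_255 : Tr := .node ⟨nat_lit 7, nat_lit 0x800500060, nat_lit 0x221012, nat_lit 0, nat_lit 4, nat_lit 0x49⟩ (.nil) (.nil)
def t14_8447 : Tr := .node ⟨nat_lit 7, nat_lit 0x200040004000480060, nat_lit 0x20001, nat_lit 2, nat_lit 4, nat_lit 0x46⟩ (.nil) (.nil)
def t14_4351 : Tr := .node ⟨nat_lit 9, nat_lit 0x100010000400110012001a0, nat_lit 0x111010101, nat_lit 1, nat_lit 4, nat_lit 0x49⟩ (.nil) (.nil)
def t14_12543 : Tr := .node ⟨nat_lit 8, nat_lit 0x8000400090006000e0, nat_lit 0x10002003, nat_lit 2, nat_lit 4, nat_lit 0x47⟩ (.nil) (.nil)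
def t14_2303 : Tr := .node ⟨nat_lit 7, nat_lit 0x200040003000300048, nat_lit 0x112001, nat_lit 1, nat_lit 4, nat_lit 0x46⟩ (.nil) (.nil)
def t14_10495 : Tr := .node ⟨nat_lit 8, nat_lit 0x8000c0009000a0, nat_lit 0x111220, nat_lit 0, nat_lit 4, nat_lit 0x48⟩ (.nil) (.nil)
def t14_6399 : Tr := .node ⟨nat_lit 7, nat_lit 0x400040002000500070, nat_lit 0x100102, nat_lit 3, nat_lit 4, nat_lit 0x46⟩ (.nil) (.nil)
def t14_14591 : Tr := .node ⟨nat_lit 9, nat_lit 0x10001000080008001100120, nat_lit 0x1111011, nat_lit 3, nat_lit 4, nat_lit 0x49⟩ (.nil) (.nil)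
def t14_1279 : Tr := .node ⟨nat_lit 8, nat_lit 0x80004000400020, nat_lit 0x110221, nat_lit 0, nat_lit 4, nat_lit 0x4a⟩ (.nil) (.nil)
def t14_9471 : Tr := .node ⟨nat_lit 8, nat_lit 0x40004000800088006000c0, nat_lit 0x10111003, nat_lit 2, nat_lit 4, nat_lit 0x48⟩ (.nil) (.nil)
def t14_5375 : Tr := .node ⟨nat_lit 8, nat_lit 0x800020008800c0, nat_lit 0x11112100, nat_lit 0, nat_lit 4, nat_lit 0x4a⟩ (.nil) (.nil)
def t14_13567 : Tr := .node ⟨nat_lit 6, nat_lit 0x20002000100038, nat_lit 0x1000, nat_lit 3, nat_lit 4, nat_lit 0x45⟩ (.nil) (.nil)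
def t14_3327 : Tr := .node ⟨nat_lit 8, nat_lit 0x800020004000a000c0, nat_lit 0x22011, nat_lit 0, nat_lit 4, nat_lit 0x47⟩ (.nil) (.nil)
def t14_11519 : Tr := .node ⟨nat_lit 6, nat_lit 0x10001000200038, nat_lit 0x10210, nat_lit 5, nat_lit 4, nat_lit 0x47⟩ (.nil) (.nil)
def t14_7423 : Tr := .node ⟨nat_lit 9, nat_lit 0x10001000040004001200180, nat_lit 0x1111110, nat_lit 1, nat_lit 4, nat_lit 0x49⟩ (.nil) (.nil)
def t14_767 : Tr := .node ⟨nat_lit 5, nat_lit 0x140018, nat_lit 0x1030, nat_lit 3, nat_lit 4, nat_lit 0x45⟩ (.nil) (.nil)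
def t14_8959 : Tr := .node ⟨nat_lit 9, nat_lit 0x80008001000100010800a0, nat_lit 0x2200002, nat_lit 1, nat_lit 4, nat_lit 0x49⟩ (.nil) (.nil)
def t14_4863 : Tr := .node ⟨nat_lit 8, nat_lit 0x800040004000a000a000d0, nat_lit 0x11121000, nat_lit 0, nat_lit 4, nat_lit 0x48⟩ (.nil) (.nil)
def t14_13055 : Tr := .node ⟨nat_lit 7, nat_lit 0x400020005000500068, nat_lit 0x122000, nat_lit 3, nat_lit 4, nat_lit 0x47⟩ (.nil) (.nil)
def t14_2815 : Tr := .node ⟨nat_lit 7, nat_lit 0x4000100060, nat_lit 0x12300, nat_lit 0, nat_lit 4, nat_lit 0x49⟩ (.nil) (.nil)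
def t14_11007 : Tr := .node ⟨nat_lit 9, nat_lit 0x1000080004000400040, nat_lit 0x100220, nat_lit 3, nat_lit 4, nat_lit 0x4b⟩ (.nil) (.nil)
def t14_6911 : Tr := .node ⟨nat_lit 3, nat_lit 0, nat_lit 0x211, nat_lit 0xd, nat_lit 3, nat_lit 0x47⟩ (.nil) (.nil)
def t14_15103 : Tr := .node ⟨nat_lit 7, nat_lit 0x400020005000700068, nat_lit 0x1112101, nat_lit 2, nat_lit 4, nat_lit 0x47⟩ (.nil) (.nil)
def t14_1791 : Tr := .node ⟨nat_lit 6, nat_lit 0x1000280030, nat_lit 0x2022, nat_lit 4, nat_lit 4, nat_lit 0x47⟩ (.nil) (.nil)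
def t14_9983 : Tr := .node ⟨nat_lit 4, nat_lit 0x8000c, nat_lit 0x130, nat_lit 6, nat_lit 4, nat_lit 0x46⟩ (.nil) (.nil)
def t14_5887 : Tr := .node ⟨nat_lit 8, nat_lit 0x80008000400040, nat_lit 0x111021, nat_lit 1, nat_lit 4, nat_lit 0x4a⟩ (.nil) (.nil)
def t14_14079 : Tr := .node ⟨nat_lit 6, nat_lit 0x10001000200020, nat_lit 0x2100, nat_lit 9, nat_lit 4, nat_lit 0x48⟩ (.nil) (.nil)
def t14_3839 : Tr := .node ⟨nat_lit 6, nat_lit 0x2000200030, nat_lit 0x12201, nat_lit 6, nat_lit 4, nat_lit 0x49⟩ (.nil) (.nil)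
def t14_12031 : Tr := .node ⟨nat_lit 6, nat_lit 0x800300028, nat_lit 0x100211, nat_lit 5, nat_lit 4, nat_lit 0x47⟩ (.nil) (.nil)
def t14_7935 : Tr := .node ⟨nat_lit 7, nat_lit 0x400020002000200050, nat_lit 0x21002, nat_lit 1, nat_lit 4, nat_lit 0x47⟩ (.nil) (.nil)
def t9_255 : Tr := .node ⟨nat_lit 5, nat_lit 0x18, nat_lit 0x10320, nat_lit 3, nat_lit 4, nat_lit 0x49⟩ (.node ⟨nat_lit 4, nat_lit 0x8000a, nat_lit 0x3112, nat_lit 6, nat_lit 4, nat_lit 0x48⟩ (.node ⟨nat_lit 9, nat_lit 0x100008000400020, nat_lit 0x130001, nat_lit 3, nat_lit 4, nat_lit 0x4c⟩ (.node ⟨nat_lit 6, nat_lit 0x200038, nat_lit 0x111203, nat_lit 0, nat_lit 4, nat_lit 0x48⟩ (.node ⟨nat_lit 6, nat_lit 0x200020, nat_lit 0x211131, nat_lit 0, nat_lit 4, nat_lit 0x4b⟩ (t14_255) (t14_8447)) (.node ⟨nat_lit 7, nat_lit 0x40001000600070, nat_lit 0x10033, nat_lit 0, nat_lit 4, nat_lit 0x46⟩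 (t14_4351) (t14_12543))) (.node ⟨nat_lit 6, nat_lit 0x800300030, nat_lit 0x202121, nat_lit 2, nat_lit 4, nat_lit 0x48⟩ (.node ⟨nat_lit 7, nat_lit 0x20001000500068, nat_lit 0x102020, nat_lit 0, nat_lit 4, nat_lit 0x46⟩ (t14_2303) (t14_10495)) (.node ⟨nat_lit 8, nat_lit 0x2000a000c0, nat_lit 0x11021020, nat_lit 0, nat_lit 4, nat_lit 0x4a⟩ (t14_6399) (t14_14591)))) (.node ⟨nat_lit 6, nat_lit 0x80030, nat_lit 0x210101, nat_lit 1, nat_lit 4, nat_lit 0x48⟩ (.node ⟨nat_lit 5, nat_lit 0x100010, nat_lit 0x21121, nat_lit 7, nat_lit 4, nat_lit 0x4a⟩ (.node ⟨nat_lit 7, nat_lit 0x40001000100020, nat_lit 0x100003, nat_lit 5, nat_lit 4, nat_lit 0x49⟩ (t14_1279) (t14_9471)) (.node ⟨nat_lit 4, nat_lit 0x80004, nat_lit 0x1122, nat_lit 6, nat_lit 4, nat_lit 0x47⟩ (t14_5375) (t14_13567))) (.node ⟨nat_lit 6, nat_lit 0x20001000280028, nat_lit 0x112020, nat_lit 3, nat_lit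 4, nat_lit 0x48⟩ (.node ⟨nat_lit 6, nat_lit 0x800300030, nat_lit 0x112031, nat_lit 2, nat_lit 4, nat_lit 0x48⟩ (t14_3327) (t14_11519)) (.node ⟨nat_lit 8, nat_lit 0x800020008800c0, nat_lit 0x11010003, nat_lit 0, nat_lit 4, nat_lit 0x49⟩ (t14_7423) (.nil))))) (.node ⟨nat_lit 6, nat_lit 0x2000200010, nat_lit 0x13102, nat_lit 2, nat_lit 4, nat_lit 0x49⟩ (.node ⟨nat_lit 6, nat_lit 0x800200010, nat_lit 0x121202, nat_lit 0, nat_lit 4, nat_lit 0x49⟩ (.node ⟨nat_lit 3, nat_lit 0, nat_lit 0x111, nat_lit 0x11, nat_lit 4, nat_lit 0x49⟩ (.node ⟨nat_lit 6, nat_lit 0x200032, nat_lit 0x113110, nat_lit 1, nat_lit 4, nat_lit 0x49⟩ (t14_767) (t14_8959)) (.node ⟨nat_lit 6, nat_lit 0x1000200030, nat_lit 0x112210, nat_lit 1, nat_lit 3, nat_lit 0x47⟩ (t14_4863) (t14_13055))) (.node ⟨nat_lit 5, nat_lit 0x100018, nat_lit 0x11132, nat_lit 2, nat_lit 4, nat_lit 0x48⟩ (.node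 ⟨nat_lit 5, nat_lit 0x40018, nat_lit 0x20103, nat_lit 3, nat_lit 4, nat_lit 0x47⟩ (t14_2815) (t14_11007)) (.node ⟨nat_lit 8, nat_lit 0x800080006000a000d0, nat_lit 0x1011222, nat_lit 0, nat_lit 4, nat_lit 0x47⟩ (t14_6911) (t14_15103)))) (.node ⟨nat_lit 6, nat_lit 0x800280030, nat_lit 0x110221, nat_lit 0, nat_lit 4, nat_lit 0x46⟩ (.node ⟨nat_lit 7, nat_lit 0x40001000600068, nat_lit 0x1013111, nat_lit 1, nat_lit 4, nat_lit 0x48⟩ (.node ⟨nat_lit 5, nat_lit 0x140018, nat_lit 0x1001, nat_lit 5, nat_lit 4, nat_lit 0x45⟩ (t14_1791) (t14_9983)) (.node ⟨nat_lit 7, nat_lit 0x40002000100048, nat_lit 0x2112010, nat_lit 3, nat_lit 4, nat_lit 0x4a⟩ (t14_5887) (t14_14079))) (.node ⟨nat_lit 6, nat_lit 0x20002000100010, nat_lit 0x102120, nat_lit 0, nat_lit 3, nat_lit 0x46⟩ (.node ⟨nat_lit 6, nat_lit 0x2000300038, nat_lit 0x101003, nat_lit 3, nat_lit 4, nat_lit 0x46⟩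 (t14_3839) (t14_12031)) (.node ⟨nat_lit 8, nat_lit 0x800080002000400040, nat_lit 0x110200, nat_lit 3, nat_lit 4, nat_lit 0x49⟩ (t14_7935) (.nil)))))
def t14_511 : Tr := .node ⟨nat_lit 7, nat_lit 0x2000400064, nat_lit 0x1211201, nat_lit 0, nat_lit 4, nat_lit 0x4a⟩ (.nil) (.nil)
def t14_8703 : Tr := .node ⟨nat_lit 6, nat_lit 0x2000080030, nat_lit 0x11200, nat_lit 2, nat_lit 4, nat_lit 0x47⟩ (.nil) (.nil)
def t14_4607 : Tr := .node ⟨nat_lit 8, nat_lit 0x800080008000400090, nat_lit 0x1110020, nat_lit 0, nat_lit 4, nat_lit 0x49⟩ (.nil) (.nil)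
def t14_12799 : Tr := .node ⟨nat_lit 8, nat_lit 0x2000a000c0, nat_lit 0x1011002, nat_lit 0, nat_lit 4, nat_lit 0x49⟩ (.nil) (.nil)
def t14_2559 : Tr := .node ⟨nat_lit 6, nat_lit 0x10002000200030, nat_lit 0x10112, nat_lit 1, nat_lit 3, nat_lit 0x45⟩ (.nil) (.nil)
def t14_10751 : Tr := .node ⟨nat_lit 7, nat_lit 0x40001000500060, nat_lit 0x101020, nat_lit 3, nat_lit 4, nat_lit 0x47⟩ (.nil) (.nil)
def t14_6655 : Tr := .node ⟨nat_lit 6, nat_lit 0x1000080020, nat_lit 0x101211, nat_lit 3, nat_lit 4, nat_lit 0x48⟩ (.nil) (.nil)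
def t14_14847 : Tr := .node ⟨nat_lit 9, nat_lit 0x10001000100008000800120, nat_lit 0x1111101, nat_lit 3, nat_lit 4, nat_lit 0x4a⟩ (.nil) (.nil)
def t14_1535 : Tr := .node ⟨nat_lit 8, nat_lit 0x8000800040004000e000c8, nat_lit 0x122100, nat_lit 1, nat_lit 4, nat_lit 0x47⟩ (.nil) (.nil)
def t14_9727 : Tr := .node ⟨nat_lit 8, nat_lit 0x400040008000c400d0, nat_lit 0x110202, nat_lit 0, nat_lit 4, nat_lit 0x47⟩ (.nil) (.nil)
def t14_5631 : Tr := .node ⟨nat_lit 5, nat_lit 0x1000180018, nat_lit 0x120, nat_lit 5, nat_lit 4, nat_lit 0x45⟩ (.nil) (.nil)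
def t14_13823 : Tr := .node ⟨nat_lit 7, nat_lit 0x10001000600060, nat_lit 0x2020, nat_lit 4, nat_lit 4, nat_lit 0x47⟩ (.nil) (.nil)
def t14_3583 : Tr := .node ⟨nat_lit 7, nat_lit 0x40001000600070, nat_lit 0x3101, nat_lit 0, nat_lit 4, nat_lit 0x46⟩ (.nil) (.nil)
def t14_11775 : Tr := .node ⟨nat_lit 4, nat_lit 0x80004, nat_lit 3, nat_lit 0xb, nat_lit 4, nat_lit 0x47⟩ (.nil) (.nil)
def t14_7679 : Tr := .node ⟨nat_lit 5, nat_lit 0x1000080008, nat_lit 0x10, nat_lit 4, nat_lit 4, nat_lit 0x45⟩ (.nil) (.nil)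
def t14_1023 : Tr := .node ⟨nat_lit 7, nat_lit 0x4000180064, nat_lit 0x1100121, nat_lit 0, nat_lit 4, nat_lit 0x47⟩ (.nil) (.nil)
def t14_9215 : Tr := .node ⟨nat_lit 7, nat_lit 0x400020002000500070, nat_lit 0x11001, nat_lit 0, nat_lit 4, nat_lit 0x45⟩ (.nil) (.nil)
def t14_5119 : Tr := .node ⟨nat_lit 7, nat_lit 0x400020002000500070, nat_lit 0x13011, nat_lit 1, nat_lit 4, nat_lit 0x46⟩ (.nil) (.nil)
def t14_13311 : Tr := .node ⟨nat_lit 7, nat_lit 0x4000480070, nat_lit 0x103, nat_lit 1, nat_lit 4, nat_lit 0x46⟩ (.nil) (.nil)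
def t14_3071 : Tr := .node ⟨nat_lit 8, nat_lit 0x800040004000a000c8, nat_lit 0x1121011, nat_lit 0, nat_lit 4, nat_lit 0x48⟩ (.nil) (.nil)
def t14_11263 : Tr := .node ⟨nat_lit 7, nat_lit 0x4000100060, nat_lit 0x101100, nat_lit 2, nat_lit 4, nat_lit 0x48⟩ (.nil) (.nil)
def t14_7167 : Tr := .node ⟨nat_lit 7, nat_lit 0x20002000400062, nat_lit 0x2111101, nat_lit 1, nat_lit 4, nat_lit 0x49⟩ (.nil) (.nil)
def t14_15359 : Tr := .node ⟨nat_lit 9, nat_lit 0x800100010000c0012001a001a0, nat_lit 0x1021110, nat_lit 0, nat_lit 4, nat_lit 0x46⟩ (.nil) (.nil)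
def t14_2047 : Tr := .node ⟨nat_lit 7, nat_lit 0x4000500060, nat_lit 0x201301, nat_lit 1, nat_lit 4, nat_lit 0x49⟩ (.nil) (.nil)
def t14_10239 : Tr := .node ⟨nat_lit 8, nat_lit 0x2000400080008000c8, nat_lit 0x1000220, nat_lit 4, nat_lit 4, nat_lit 0x49⟩ (.nil) (.nil)
def t14_6143 : Tr := .node ⟨nat_lit 4, nat_lit 0x8000c, nat_lit 0x10, nat_lit 9, nat_lit 4, nat_lit 0x45⟩ (.nil) (.nil)
def t14_14335 : Tr := .node ⟨nat_lit 7, nat_lit 0x400020002000500068, nat_lit 0x100110, nat_lit 0, nat_lit 4, nat_lit 0x45⟩ (.nil) (.nil)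
def t14_4095 : Tr := .node ⟨nat_lit 7, nat_lit 0x400020005000500060, nat_lit 0x112211, nat_lit 2, nat_lit 4, nat_lit 0x47⟩ (.nil) (.nil)
def t14_12287 : Tr := .node ⟨nat_lit 7, nat_lit 0x10006000500070, nat_lit 0x101103, nat_lit 3, nat_lit 4, nat_lit 0x46⟩ (.nil) (.nil)
def t14_8191 : Tr := .node ⟨nat_lit 4, nat_lit 0xc, nat_lit 0x24, nat_lit 3, nat_lit 4, nat_lit 0x45⟩ (.nil) (.nil)
def t9_511 : Tr := .node ⟨nat_lit 3, nat_lit 6, nat_lit 0x111, nat_lit 3, nat_lit 3, nat_lit 0x43⟩ (.node ⟨nat_lit 5, nat_lit 0x100018, nat_lit 0x1131, nat_lit 0, nat_lit 3, nat_lit 0x45⟩ (.node ⟨nat_lit 5, nat_lit 0x18, nat_lit 0x21221, nat_lit 3, nat_lit 4, nat_lit 0x49⟩ (.node ⟨nat_lit 5, nat_lit 0x100018, nat_lit 0x1221, nat_lit 3, nat_lit 4, nat_lit 0x47⟩ (.node ⟨nat_lit 8, nat_lit 0x8000400020, nat_lit 0x1211011, nat_lit 2, nat_lit 4, nat_lit 0x4c⟩ (t14_511)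 (t14_8703)) (.node ⟨nat_lit 7, nat_lit 0x40002000200048, nat_lit 0x2112110, nat_lit 1, nat_lit 4, nat_lit 0x4a⟩ (t14_4607) (t14_12799))) (.node ⟨nat_lit 5, nat_lit 0x1000100008, nat_lit 0x1310, nat_lit 0, nat_lit 3, nat_lit 0x45⟩ (.node ⟨nat_lit 7, nat_lit 0x40001000500060, nat_lit 0x110312, nat_lit 0, nat_lit 4, nat_lit 0x48⟩ (t14_2559) (t14_10751)) (.node ⟨nat_lit 6, nat_lit 0x200030, nat_lit 0x102112, nat_lit 3, nat_lit 4, nat_lit 0x49⟩ (t14_6655) (t14_14847)))) (.node ⟨nat_lit 4, nat_lit 0xc, nat_lit 0x2221, nat_lit 2, nat_lit 3, nat_lit 0x47⟩ (.node ⟨nat_lit 8, nat_lit 0x800040, nat_lit 0x2211101, nat_lit 0, nat_lit 4, nat_lit 0x4d⟩ (.node ⟨nat_lit 6, nat_lit 0x20001000280030, nat_lit 0x103111, nat_lit 5, nat_lit 4, nat_lit 0x48⟩ (t14_1535) (t14_9727)) (.node ⟨nat_lit 6, nat_lit 0x20001000100034, nat_lit 0x113120, nat_lit 2, nat_lit 4, nat_lit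 0x48⟩ (t14_5631) (t14_13823))) (.node ⟨nat_lit 5, nat_lit 0x40018, nat_lit 0x20112, nat_lit 0xa, nat_lit 4, nat_lit 0x49⟩ (.node ⟨nat_lit 6, nat_lit 0x80030, nat_lit 0x1200, nat_lit 1, nat_lit 4, nat_lit 0x47⟩ (t14_3583) (t14_11775)) (.node ⟨nat_lit 8, nat_lit 0x4000400080008000880060, nat_lit 0x11211110, nat_lit 0, nat_lit 4, nat_lit 0x49⟩ (t14_7679) (.nil))))) (.node ⟨nat_lit 5, nat_lit 0x10001c001c, nat_lit 0x30020, nat_lit 3, nat_lit 4, nat_lit 0x45⟩ (.node ⟨nat_lit 5, nat_lit 0x18, nat_lit 0x11221, nat_lit 3, nat_lit 4, nat_lit 0x49⟩ (.node ⟨nat_lit 6, nat_lit 0x200020, nat_lit 0x222111, nat_lit 0, nat_lit 4, nat_lit 0x4b⟩ (.node ⟨nat_lit 4, nat_lit 0xc, nat_lit 0x1114, nat_lit 4, nat_lit 4, nat_lit 0x47⟩ (t14_1023) (t14_9215)) (.node ⟨nat_lit 7, nat_lit 0x400020, nat_lit 0x122201, nat_lit 2, nat_lit 4, nat_lit 0x4c⟩ (t14_5119) (t14_13311)))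 (.node ⟨nat_lit 4, nat_lit 0x80008, nat_lit 0x1120, nat_lit 6, nat_lit 4, nat_lit 0x47⟩ (.node ⟨nat_lit 7, nat_lit 0x40002000480068, nat_lit 0x2012012, nat_lit 2, nat_lit 4, nat_lit 0x49⟩ (t14_3071) (t14_11263)) (.node ⟨nat_lit 7, nat_lit 0x40002000100060, nat_lit 0x102202, nat_lit 1, nat_lit 4, nat_lit 0x48⟩ (t14_7167) (t14_15359)))) (.node ⟨nat_lit 6, nat_lit 0x1000200032, nat_lit 0x102020, nat_lit 1, nat_lit 4, nat_lit 0x47⟩ (.node ⟨nat_lit 7, nat_lit 0x400060, nat_lit 0x221111, nat_lit 2, nat_lit 4, nat_lit 0x4b⟩ (.node ⟨nat_lit 7, nat_lit 0x200040004000480030, nat_lit 0x1211300, nat_lit 1, nat_lit 4, nat_lit 0x49⟩ (t14_2047) (t14_10239)) (.node ⟨nat_lit 7, nat_lit 0x40001000600060, nat_lit 0x122200, nat_lit 0, nat_lit 4, nat_lit 0x48⟩ (t14_6143) (t14_14335))) (.node ⟨nat_lit 5, nat_lit 0x18, nat_lit 0x22113, nat_lit 3, nat_lit 4, nat_lit 0x4a⟩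 (.node ⟨nat_lit 6, nat_lit 0x2000240030, nat_lit 0x2110, nat_lit 1, nat_lit 4, nat_lit 0x46⟩ (t14_4095) (t14_12287)) (.node ⟨nat_lit 6, nat_lit 0x10001000200022, nat_lit 0x102122, nat_lit 1, nat_lit 4, nat_lit 0x47⟩ (t14_8191) (.nil)))))
def t4_15 : Tr := .node ⟨nat_lit 3, nat_lit 4, nat_lit 0x211, nat_lit 5, nat_lit 3, nat_lit 0x45⟩ (.node ⟨nat_lit 3, nat_lit 4, nat_lit 0x123, nat_lit 2, nat_lit 3, nat_lit 0x45⟩ (.node ⟨nat_lit 2, nat_lit 2, nat_lit 0x11, nat_lit 0xc, nat_lit 3, nat_lit 0x44⟩ (.node ⟨nat_lit 5, nat_lit 0x80010, nat_lit 0x12421, nat_lit 1, nat_lit 4, nat_lit 0x4a⟩ (.node ⟨nat_lit 5, nat_lit 0, nat_lit 0x41111, nat_lit 5, nat_lit 4, nat_lit 0x4c⟩ (t9_15) (t9_271)) (.node ⟨nat_lit 3, nat_lit 4, nat_lit 0x313, nat_lit 5, nat_lit 3, nat_lit 0x47⟩ (t9_143) (t9_399))) (.node ⟨nat_lit 4, nat_lit 8, nat_lit 0x1411, nat_lit 5, nat_lit 4,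 nat_lit 0x49⟩ (.node ⟨nat_lit 5, nat_lit 0x40018, nat_lit 0x21002, nat_lit 3, nat_lit 3, nat_lit 0x46⟩ (t9_79) (t9_335)) (.node ⟨nat_lit 6, nat_lit 0x2000080010, nat_lit 0x31011, nat_lit 3, nat_lit 3, nat_lit 0x48⟩ (t9_207) (t9_463)))) (.node ⟨nat_lit 3, nat_lit 0, nat_lit 0x411, nat_lit 4, nat_lit 3, nat_lit 0x47⟩ (.node ⟨nat_lit 5, nat_lit 0x10, nat_lit 0x14221, nat_lit 1, nat_lit 4, nat_lit 0x4b⟩ (.node ⟨nat_lit 3, nat_lit 4, nat_lit 0x221, nat_lit 7, nat_lit 3, nat_lit 0x46⟩ (t9_47) (t9_303)) (.node ⟨nat_lit 3, nat_lit 0, nat_lit 0x311, nat_lit 0xb, nat_lit 4, nat_lit 0x48⟩ (t9_175) (t9_431))) (.node ⟨nat_lit 6, nat_lit 0x2000100030, nat_lit 0x14021, nat_lit 1, nat_lit 4, nat_lit 0x49⟩ (.node ⟨nat_lit 4, nat_lit 0, nat_lit 0x3221, nat_lit 0, nat_lit 4, nat_lit 0x49⟩ (t9_111) (t9_367)) (.node ⟨nat_lit 5, nat_lit 0x18, nat_lit 0x31111, nat_lit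 7, nat_lit 4, nat_lit 0x4a⟩ (t9_239) (t9_495))))) (.node ⟨nat_lit 3, nat_lit 0, nat_lit 0x211, nat_lit 6, nat_lit 3, nat_lit 0x46⟩ (.node ⟨nat_lit 5, nat_lit 0x100010, nat_lit 0x2110, nat_lit 0, nat_lit 3, nat_lit 0x46⟩ (.node ⟨nat_lit 2, nat_lit 0, nat_lit 0x41, nat_lit 3, nat_lit 3, nat_lit 0x45⟩ (.node ⟨nat_lit 3, nat_lit 4, nat_lit 0x323, nat_lit 2, nat_lit 3, nat_lit 0x47⟩ (t9_31) (t9_287)) (.node ⟨nat_lit 5, nat_lit 0x80010, nat_lit 0x31112, nat_lit 1, nat_lit 4, nat_lit 0x49⟩ (t9_159) (t9_415))) (.node ⟨nat_lit 5, nat_lit 0x80010, nat_lit 0x11411, nat_lit 2, nat_lit 4, nat_lit 0x49⟩ (.node ⟨nat_lit 6, nat_lit 0x2000200010, nat_lit 0x21102, nat_lit 0, nat_lit 3, nat_lit 0x47⟩ (t9_95) (t9_351)) (.node ⟨nat_lit 4, nat_lit 0xc, nat_lit 0x3131, nat_lit 7, nat_lit 4, nat_lit 0x49⟩ (t9_223) (t9_479)))) (.node ⟨nat_lit 2, nat_lit 0, nat_lit 0x33,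 nat_lit 3, nat_lit 3, nat_lit 0x46⟩ (.node ⟨nat_lit 6, nat_lit 0, nat_lit 0x421111, nat_lit 0, nat_lit 4, nat_lit 0x4d⟩ (.node ⟨nat_lit 5, nat_lit 0x1000100008, nat_lit 0x12201, nat_lit 0, nat_lit 3, nat_lit 0x46⟩ (t9_63) (t9_319)) (.node ⟨nat_lit 5, nat_lit 0x18, nat_lit 0x32111, nat_lit 0, nat_lit 3, nat_lit 0x48⟩ (t9_191) (t9_447))) (.node ⟨nat_lit 5, nat_lit 0x10, nat_lit 0x14201, nat_lit 0, nat_lit 4, nat_lit 0x4a⟩ (.node ⟨nat_lit 5, nat_lit 0x80010, nat_lit 0x13221, nat_lit 3, nat_lit 4, nat_lit 0x4a⟩ (t9_127) (t9_383)) (.node ⟨nat_lit 6, nat_lit 0x200030, nat_lit 0x131121, nat_lit 0, nat_lit 4, nat_lit 0x4a⟩ (t9_255) (t9_511)))))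

end Pool.Agent.Sel.T31
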