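import Pool.Agent.H8.Sel.Prof
import Pool.Agent.H8.Sel.T31.P1

set_option linter.all false
set_option maxRecDepth 100000

namespace Pool.Agent.Sel.T31

open Pool.Agent.Sel

def t14_3 : Tr := .node ⟨nat_lit 9, nat_lit 0x100010001000080008001400140, nat_lit 0x10112110, nat_lit 1, nat_lit 4, nat_lit 0x49⟩ (.nil) (.nil)
def t14_8195 : Tr := .node ⟨nat_lit 7, nat_lit 0x4000440060, nat_lit 0x21230, nat_lit 1, nat_lit 4, nat_lit 0x49⟩ (.nil) (.nil)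
def t14_4099 : Tr := .node ⟨nat_lit 0xa, nat_lit 0x20002000080021002200300, nat_lit 0x11110010, nat_lit 1, nat_lit 4, nat_lit 0x4a⟩ (.nil) (.nil)
def t14_12291 : Tr := .node ⟨nat_lit 7, nat_lit 0x10006000500050, nat_lit 0x101140, nat_lit 1, nat_lit 4, nat_lit 0x47⟩ (.nil) (.nil)
def t14_2051 : Tr := .node ⟨nat_lit 7, nat_lit 0x40002000500060, nat_lit 0x103301, nat_lit 0, nat_lit 4, nat_lit 0x48⟩ (.nil) (.nil)
def t14_10243 : Tr := .node ⟨nat_lit 9, nat_lit 0x4001000100010801900190, nat_lit 0x100000020, nat_lit 0, nat_lit 4, nat_lit 0x47⟩ (.nil) (.nil)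
def t14_6147 : Tr := .node ⟨nat_lit 3, nat_lit 0x40006, nat_lit 0x11, nat_lit 0xa, nat_lit 4, nat_lit 0x44⟩ (.nil) (.nil)
def t14_14339 : Tr := .node ⟨nat_lit 8, nat_lit 0x20004000c000c800b0, nat_lit 0x100310, nat_lit 1, nat_lit 4, nat_lit 0x46⟩ (.nil) (.nil)
def t14_1027 : Tr := .node ⟨nat_lit 6, nat_lit 0x2000080010, nat_lit 0x1002, nat_lit 3, nat_lit 4, nat_lit 0x47⟩ (.nil) (.nil)
def t14_9219 : Tr := .node ⟨nat_lit 8, nat_lit 0x8000200020009000c0, nat_lit 0x11101, nat_lit 0, nat_lit 4, nat_lit 0x47⟩ (.nil) (.nil)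
def t14_5123 : Tr := .node ⟨nat_lit 8, nat_lit 0x80008000400040009000e0, nat_lit 0x113001, nat_lit 1, nat_lit 4, nat_lit 0x47⟩ (.nil) (.nil)
def t14_13315 : Tr := .node ⟨nat_lit 6, nat_lit 0x2000300028, nat_lit 0x203, nat_lit 2, nat_lit 4, nat_lit 0x46⟩ (.nil) (.nil)
def t14_3075 : Tr := .node ⟨nat_lit 8, nat_lit 0x80004000a000d000c8, nat_lit 0x1121101, nat_lit 0, nat_lit 4, nat_lit 0x47⟩ (.nil) (.nil)
def t14_11267 : Tr := .node ⟨nat_lit 7, nat_lit 0x40001000600060, nat_lit 0x121020, nat_lit 1, nat_lit 4, nat_lit 0x48⟩ (.nil) (.nil)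
def t14_7171 : Tr := .node ⟨nat_lit 7, nat_lit 0x200020004000440064, nat_lit 0x2111111, nat_lit 0, nat_lit 4, nat_lit 0x48⟩ (.nil) (.nil)
def t14_15363 : Tr := .node ⟨nat_lit 0xb, nat_lit 0x200040004000400010000800420, nat_lit 0x110001, nat_lit 3, nat_lit 4, nat_lit 0x4b⟩ (.nil) (.nil)
def t14_515 : Tr := .node ⟨nat_lit 7, nat_lit 0x400060, nat_lit 0x1122101, nat_lit 0, nat_lit 4, nat_lit 0x4b⟩ (.nil) (.nil)
def t14_8707 : Tr := .node ⟨nat_lit 6, nat_lit 0x1000280030, nat_lit 0x10002, nat_lit 3, nat_lit 4, nat_lit 0x46⟩ (.nil) (.nil)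
def t14_4611 : Tr := .node ⟨nat_lit 8, nat_lit 0x4000800080008000900060, nat_lit 0x1210000, nat_lit 2, nat_lit 4, nat_lit 0x48⟩ (.nil) (.nil)
def t14_12803 : Tr := .node ⟨nat_lit 6, nat_lit 0x1000200030, nat_lit 0x2200, nat_lit 5, nat_lit 4, nat_lit 0x48⟩ (.nil) (.nil)
def t14_2563 : Tr := .node ⟨nat_lit 8, nat_lit 0x80008000400040009000e0, nat_lit 0x10112100, nat_lit 2, nat_lit 4, nat_lit 0x48⟩ (.nil) (.nil)
def t14_10755 : Tr := .node ⟨nat_lit 8, nat_lit 0x2000a000c0, nat_lit 0x1011020, nat_lit 0, nat_lit 4, nat_lit 0x49⟩ (.nil) (.nil)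
def t14_6659 : Tr := .node ⟨nat_lit 8, nat_lit 0x400040008000200084, nat_lit 0x10110210, nat_lit 0, nat_lit 4, nat_lit 0x49⟩ (.nil) (.nil)
def t14_14851 : Tr := .node ⟨nat_lit 8, nat_lit 0x8000800020009000c0, nat_lit 0x1111111, nat_lit 3, nat_lit 4, nat_lit 0x49⟩ (.nil) (.nil)
def t14_1539 : Tr := .node ⟨nat_lit 7, nat_lit 0x4000500060, nat_lit 0x12201, nat_lit 1, nat_lit 3, nat_lit 0x47⟩ (.nil) (.nil)
def t14_9731 : Tr := .node ⟨nat_lit 7, nat_lit 0x40002000500068, nat_lit 0x11212, nat_lit 0, nat_lit 4, nat_lit 0x46⟩ (.nil) (.nil)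
def t14_5635 : Tr := .node ⟨nat_lit 6, nat_lit 0x3000300038, nat_lit 0x102, nat_lit 3, nat_lit 4, nat_lit 0x44⟩ (.nil) (.nil)
def t14_13827 : Tr := .node ⟨nat_lit 5, nat_lit 0x1000080008, nat_lit 0x130, nat_lit 3, nat_lit 4, nat_lit 0x46⟩ (.nil) (.nil)
def t14_3587 : Tr := .node ⟨nat_lit 7, nat_lit 0x10003000500060, nat_lit 0x112, nat_lit 0, nat_lit 4, nat_lit 0x45⟩ (.nil) (.nil)
def t14_11779 : Tr := .node ⟨nat_lit 4, nat_lit 0x8000c, nat_lit 0x13, nat_lit 7, nat_lit 4, nat_lit 0x45⟩ (.nil) (.nil)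
def t14_7683 : Tr := .node ⟨nat_lit 4, nat_lit 0x80008, nat_lit 0x100, nat_lit 6, nat_lit 4, nat_lit 0x45⟩ (.nil) (.nil)
def t9_3 : Tr := .node ⟨nat_lit 5, nat_lit 0x18, nat_lit 0x32211, nat_lit 1, nat_lit 4, nat_lit 0x4a⟩ (.node ⟨nat_lit 6, nat_lit 0x280030, nat_lit 0x11321, nat_lit 1, nat_lit 4, nat_lit 0x48⟩ (.node ⟨nat_lit 3, nat_lit 6, nat_lit 0, nat_lit 2, nat_lit 3, nat_lit 0x41⟩ (.node ⟨nat_lit 6, nat_lit 0x1000200034, nat_lit 0x12201, nat_lit 0, nat_lit 4, nat_lit 0x47⟩ (.node ⟨nat_lit 6, nat_lit 0x80030, nat_lit 0x221103, nat_lit 1, nat_lit 4, nat_lit 0x4a⟩ (t14_3) (t14_8195)) (.node ⟨nat_lit 5, nat_lit 0x180014, nat_lit 0x12000, nat_lit 4, nat_lit 4, nat_lit 0x46⟩ (t14_4099) (t14_12291))) (.node ⟨nat_lit 7, nat_lit 0x400060, nat_lit 0x2011121, nat_lit 1, nat_lit 4, nat_lit 0x4b⟩ (.node ⟨nat_lit 7, nat_lit 0x400020002000500050, nat_lit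 0x2113200, nat_lit 0, nat_lit 4, nat_lit 0x49⟩ (t14_2051) (t14_10243)) (.node ⟨nat_lit 7, nat_lit 0x4000400060, nat_lit 0x32200, nat_lit 0, nat_lit 4, nat_lit 0x4a⟩ (t14_6147) (t14_14339)))) (.node ⟨nat_lit 7, nat_lit 0x400060, nat_lit 0x22101, nat_lit 1, nat_lit 4, nat_lit 0x4a⟩ (.node ⟨nat_lit 4, nat_lit 0x80008, nat_lit 0x2211, nat_lit 9, nat_lit 4, nat_lit 0x49⟩ (.node ⟨nat_lit 5, nat_lit 0x1000100008, nat_lit 0x12410, nat_lit 0, nat_lit 3, nat_lit 0x47⟩ (t14_1027) (t14_9219)) (.node ⟨nat_lit 7, nat_lit 0x400040, nat_lit 0x222210, nat_lit 1, nat_lit 4, nat_lit 0x4c⟩ (t14_5123) (t14_13315))) (.node ⟨nat_lit 6, nat_lit 0x800200030, nat_lit 0x100020, nat_lit 0, nat_lit 4, nat_lit 0x46⟩ (.node ⟨nat_lit 7, nat_lit 0x4000440044, nat_lit 0x2111211, nat_lit 0, nat_lit 4, nat_lit 0x4b⟩ (t14_3075) (t14_11267)) (.node ⟨nat_lit 7, nat_lit 0x4000200060,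 nat_lit 0x111022, nat_lit 5, nat_lit 4, nat_lit 0x4a⟩ (t14_7171) (t14_15363))))) (.node ⟨nat_lit 5, nat_lit 0x100010, nat_lit 0x1131, nat_lit 0, nat_lit 3, nat_lit 0x46⟩ (.node ⟨nat_lit 5, nat_lit 0, nat_lit 0x22211, nat_lit 0, nat_lit 4, nat_lit 0x4a⟩ (.node ⟨nat_lit 5, nat_lit 0x80010, nat_lit 0x10211, nat_lit 5, nat_lit 4, nat_lit 0x48⟩ (.node ⟨nat_lit 5, nat_lit 0x1000100010, nat_lit 0x11311, nat_lit 2, nat_lit 3, nat_lit 0x47⟩ (t14_515) (t14_8707)) (.node ⟨nat_lit 6, nat_lit 0x800300030, nat_lit 0x210022, nat_lit 3, nat_lit 4, nat_lit 0x48⟩ (t14_4611) (t14_12803))) (.node ⟨nat_lit 7, nat_lit 0x10001000600060, nat_lit 0x1001021, nat_lit 0, nat_lit 4, nat_lit 0x46⟩ (.node ⟨nat_lit 7, nat_lit 0x5000500060, nat_lit 0x112310, nat_lit 0, nat_lit 4, nat_lit 0x48⟩ (t14_2563) (t14_10755)) (.node ⟨nat_lit 8, nat_lit 0x80008000c0, nat_lit 0x1211201,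 nat_lit 0, nat_lit 4, nat_lit 0x4b⟩ (t14_6659) (t14_14851)))) (.node ⟨nat_lit 7, nat_lit 0x40001000100068, nat_lit 0x1202101, nat_lit 0, nat_lit 4, nat_lit 0x48⟩ (.node ⟨nat_lit 7, nat_lit 0x200040, nat_lit 0x2121111, nat_lit 1, nat_lit 4, nat_lit 0x4c⟩ (.node ⟨nat_lit 4, nat_lit 0x8000c, nat_lit 0x3111, nat_lit 3, nat_lit 3, nat_lit 0x46⟩ (t14_1539) (t14_9731)) (.node ⟨nat_lit 8, nat_lit 0x40008000800060009000d0, nat_lit 0x11112010, nat_lit 0, nat_lit 4, nat_lit 0x48⟩ (t14_5635) (t14_13827))) (.node ⟨nat_lit 3, nat_lit 6, nat_lit 0x203, nat_lit 0xa, nat_lit 4, nat_lit 0x46⟩ (.node ⟨nat_lit 4, nat_lit 0xc000c, nat_lit 0x2030, nat_lit 4, nat_lit 3, nat_lit 0x44⟩ (t14_3587) (t14_11779)) (.node ⟨nat_lit 6, nat_lit 0x800300030, nat_lit 0x112011, nat_lit 0, nat_lit 3, nat_lit 0x46⟩ (t14_7683) (.nil)))))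
def t14_259 : Tr := .node ⟨nat_lit 7, nat_lit 0x10004000500064, nat_lit 0x1202212, nat_lit 0, nat_lit 4, nat_lit 0x48⟩ (.nil) (.nil)
def t14_8451 : Tr := .node ⟨nat_lit 7, nat_lit 0x40001000500068, nat_lit 0x2012, nat_lit 0, nat_lit 4, nat_lit 0x46⟩ (.nil) (.nil)
def t14_4355 : Tr := .node ⟨nat_lit 7, nat_lit 0x40005800680070, nat_lit 0x1111102, nat_lit 1, nat_lit 4, nat_lit 0x46⟩ (.nil) (.nil)
def t14_12547 : Tr := .node ⟨nat_lit 7, nat_lit 0x10004000600070, nat_lit 0x11303, nat_lit 1, nat_lit 4, nat_lit 0x47⟩ (.nil) (.nil)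
def t14_2307 : Tr := .node ⟨nat_lit 6, nat_lit 0x1000200038, nat_lit 0x11231, nat_lit 0, nat_lit 4, nat_lit 0x47⟩ (.nil) (.nil)
def t14_10499 : Tr := .node ⟨nat_lit 6, nat_lit 0x280030, nat_lit 0x1022, nat_lit 0, nat_lit 4, nat_lit 0x46⟩ (.nil) (.nil)
def t14_6403 : Tr := .node ⟨nat_lit 7, nat_lit 0x200040003000480070, nat_lit 0x1102002, nat_lit 0, nat_lit 4, nat_lit 0x46⟩ (.nil) (.nil)
def t14_14595 : Tr := .node ⟨nat_lit 7, nat_lit 0x40004000440048, nat_lit 0x111111, nat_lit 7, nat_lit 4, nat_lit 0x49⟩ (.nil) (.nil)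
def t14_1283 : Tr := .node ⟨nat_lit 6, nat_lit 0x800200030, nat_lit 0x110310, nat_lit 0, nat_lit 4, nat_lit 0x47⟩ (.nil) (.nil)
def t14_9475 : Tr := .node ⟨nat_lit 8, nat_lit 0x800040009000c000d0, nat_lit 0x10111022, nat_lit 0, nat_lit 4, nat_lit 0x48⟩ (.nil) (.nil)
def t14_5379 : Tr := .node ⟨nat_lit 5, nat_lit 0x100010, nat_lit 0x1122, nat_lit 9, nat_lit 4, nat_lit 0x49⟩ (.nil) (.nil)
def t14_13571 : Tr := .node ⟨nat_lit 7, nat_lit 0x40004000200020, nat_lit 0x1100, nat_lit 0, nat_lit 4, nat_lit 0x47⟩ (.nil) (.nil)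
def t14_3331 : Tr := .node ⟨nat_lit 7, nat_lit 0x40004000200060, nat_lit 0x12021, nat_lit 2, nat_lit 4, nat_lit 0x48⟩ (.nil) (.nil)
def t14_11523 : Tr := .node ⟨nat_lit 8, nat_lit 0x2000400040008000c8, nat_lit 0x1000110, nat_lit 2, nat_lit 4, nat_lit 0x48⟩ (.nil) (.nil)
def t14_7427 : Tr := .node ⟨nat_lit 9, nat_lit 0x100010001000080008001400120, nat_lit 0x11011110, nat_lit 2, nat_lit 4, nat_lit 0x49⟩ (.nil) (.nil)
def t14_771 : Tr := .node ⟨nat_lit 6, nat_lit 0x1000280034, nat_lit 0x1003, nat_lit 1, nat_lit 4, nat_lit 0x44⟩ (.nil) (.nil)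
def t14_8963 : Tr := .node ⟨nat_lit 4, nat_lit 8, nat_lit 0x2210, nat_lit 0xa, nat_lit 3, nat_lit 0x48⟩ (.nil) (.nil)
def t14_4867 : Tr := .node ⟨nat_lit 8, nat_lit 0x80008000800040009000e0, nat_lit 0x1110201, nat_lit 2, nat_lit 4, nat_lit 0x48⟩ (.nil) (.nil)
def t14_13059 : Tr := .node ⟨nat_lit 4, nat_lit 0x80004, nat_lit 0x4104, nat_lit 1, nat_lit 3, nat_lit 0x47⟩ (.nil) (.nil)
def t14_2819 : Tr := .node ⟨nat_lit 7, nat_lit 0x1000600060, nat_lit 0x11021, nat_lit 3, nat_lit 4, nat_lit 0x48⟩ (.nil) (.nil)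
def t14_11011 : Tr := .node ⟨nat_lit 4, nat_lit 0xc000c, nat_lit 0x10, nat_lit 0xd, nat_lit 4, nat_lit 0x45⟩ (.nil) (.nil)
def t14_6915 : Tr := .node ⟨nat_lit 6, nat_lit 0, nat_lit 0x111111, nat_lit 3, nat_lit 3, nat_lit 0x4a⟩ (.nil) (.nil)
def t14_15107 : Tr := .node ⟨nat_lit 7, nat_lit 0x400020005000700068, nat_lit 0x1012101, nat_lit 2, nat_lit 4, nat_lit 0x46⟩ (.nil) (.nil)
def t14_1795 : Tr := .node ⟨nat_lit 7, nat_lit 0x40002000500068, nat_lit 0x22021, nat_lit 0, nat_lit 4, nat_lit 0x47⟩ (.nil) (.nil)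
def t14_9987 : Tr := .node ⟨nat_lit 4, nat_lit 0x80008, nat_lit 0x320, nat_lit 6, nat_lit 3, nat_lit 0x46⟩ (.nil) (.nil)
def t14_5891 : Tr := .node ⟨nat_lit 8, nat_lit 0x80004000400040, nat_lit 0x110210, nat_lit 5, nat_lit 4, nat_lit 0x4b⟩ (.nil) (.nil)
def t14_14083 : Tr := .node ⟨nat_lit 7, nat_lit 0x20002000400060, nat_lit 0x10013, nat_lit 4, nat_lit 4, nat_lit 0x48⟩ (.nil) (.nil)
def t14_3843 : Tr := .node ⟨nat_lit 6, nat_lit 0x800280030, nat_lit 0x111212, nat_lit 2, nat_lit 4, nat_lit 0x48⟩ (.nil) (.nil)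
def t14_12035 : Tr := .node ⟨nat_lit 7, nat_lit 0x10002000400060, nat_lit 0x100121, nat_lit 3, nat_lit 4, nat_lit 0x48⟩ (.nil) (.nil)
def t14_7939 : Tr := .node ⟨nat_lit 7, nat_lit 0x400020002000200050, nat_lit 0x21102, nat_lit 0, nat_lit 4, nat_lit 0x47⟩ (.nil) (.nil)
def t9_259 : Tr := .node ⟨nat_lit 5, nat_lit 0x18, nat_lit 0x11320, nat_lit 2, nat_lit 4, nat_lit 0x49⟩ (.node ⟨nat_lit 6, nat_lit 0x20001000280038, nat_lit 0x301012, nat_lit 5, nat_lit 4, nat_lit 0x48⟩ (.node ⟨nat_lit 8, nat_lit 0x800040002000c0, nat_lit 0x10031002, nat_lit 0, nat_lit 4, nat_lit 0x4a⟩ (.node ⟨nat_lit 7, nat_lit 0x4000200010, nat_lit 0x12003, nat_lit 2, nat_lit 4, nat_lit 0x4a⟩ (.node ⟨nat_lit 5, nat_lit 0x100012, nat_lit 0x21122, nat_lit 3, nat_lit 4, nat_lit 0x49⟩ (t14_259) (t14_8451)) (.node ⟨nat_lit 6, nat_lit 0x800300038, nat_lit 0x200033, nat_lit 0, nat_lit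 4, nat_lit 0x46⟩ (t14_4355) (t14_12547))) (.node ⟨nat_lit 7, nat_lit 0x600060, nat_lit 0x2011121, nat_lit 2, nat_lit 4, nat_lit 0x4a⟩ (.node ⟨nat_lit 7, nat_lit 0x400020005000500060, nat_lit 0x1112003, nat_lit 2, nat_lit 4, nat_lit 0x48⟩ (t14_2307) (t14_10499)) (.node ⟨nat_lit 8, nat_lit 0x80002000c0, nat_lit 0x11021200, nat_lit 0, nat_lit 4, nat_lit 0x4b⟩ (t14_6403) (t14_14595)))) (.node ⟨nat_lit 5, nat_lit 0x18, nat_lit 0x21111, nat_lit 2, nat_lit 4, nat_lit 0x48⟩ (.node ⟨nat_lit 5, nat_lit 0x10001a, nat_lit 0x22211, nat_lit 5, nat_lit 4, nat_lit 0x49⟩ (.node ⟨nat_lit 7, nat_lit 0x40001000100020, nat_lit 0x110103, nat_lit 1, nat_lit 4, nat_lit 0x49⟩ (t14_1283) (t14_9475)) (.node ⟨nat_lit 6, nat_lit 0x800280030, nat_lit 0x111222, nat_lit 2, nat_lit 4, nat_lit 0x48⟩ (t14_5379) (t14_13571))) (.node ⟨nat_lit 7, nat_lit 0x4000100060, nat_lit 0x12300,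 nat_lit 1, nat_lit 4, nat_lit 0x49⟩ (.node ⟨nat_lit 5, nat_lit 0x180018, nat_lit 0x11231, nat_lit 2, nat_lit 3, nat_lit 0x46⟩ (t14_3331) (t14_11523)) (.node ⟨nat_lit 6, nat_lit 0x10002000200030, nat_lit 0x1100, nat_lit 0, nat_lit 3, nat_lit 0x44⟩ (t14_7427) (.nil))))) (.node ⟨nat_lit 6, nat_lit 0x200010, nat_lit 0x113102, nat_lit 0, nat_lit 4, nat_lit 0x4a⟩ (.node ⟨nat_lit 7, nat_lit 0x40004000200048, nat_lit 0x210020, nat_lit 3, nat_lit 4, nat_lit 0x49⟩ (.node ⟨nat_lit 1, nat_lit 0, nat_lit 1, nat_lit 0x11, nat_lit 4, nat_lit 0x45⟩ (.node ⟨nat_lit 8, nat_lit 0x2000400080, nat_lit 0x11211011, nat_lit 0, nat_lit 4, nat_lit 0x4c⟩ (t14_771) (t14_8963)) (.node ⟨nat_lit 6, nat_lit 0x2000300030, nat_lit 0x1310, nat_lit 0, nat_lit 3, nat_lit 0x45⟩ (t14_4867) (t14_13059))) (.node ⟨nat_lit 7, nat_lit 0x40001000500068, nat_lit 0x1002021, nat_lit 1, nat_lit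 4, nat_lit 0x47⟩ (.node ⟨nat_lit 5, nat_lit 0x140018, nat_lit 0x1241, nat_lit 3, nat_lit 4, nat_lit 0x47⟩ (t14_2819) (t14_11011)) (.node ⟨nat_lit 7, nat_lit 0x40004800300060, nat_lit 0x1100222, nat_lit 1, nat_lit 4, nat_lit 0x47⟩ (t14_6915) (t14_15107)))) (.node ⟨nat_lit 7, nat_lit 0x1000500060, nat_lit 0x1102021, nat_lit 0, nat_lit 4, nat_lit 0x48⟩ (.node ⟨nat_lit 7, nat_lit 0x10002000500060, nat_lit 0x1101112, nat_lit 0, nat_lit 4, nat_lit 0x47⟩ (.node ⟨nat_lit 7, nat_lit 0x1000400060, nat_lit 0x1010, nat_lit 1, nat_lit 4, nat_lit 0x47⟩ (t14_1795) (t14_9987)) (.node ⟨nat_lit 9, nat_lit 0x1000020008000800040, nat_lit 0x1202001, nat_lit 1, nat_lit 4, nat_lit 0x4b⟩ (t14_5891) (t14_14083))) (.node ⟨nat_lit 8, nat_lit 0x800040009000a000d0, nat_lit 0x20010122, nat_lit 1, nat_lit 4, nat_lit 0x48⟩ (.node ⟨nat_lit 7, nat_lit 0x600018, nat_lit 0x1010100,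 nat_lit 0, nat_lit 4, nat_lit 0x48⟩ (t14_3843) (t14_12035)) (.node ⟨nat_lit 7, nat_lit 0x2000200040, nat_lit 0x1011002, nat_lit 4, nat_lit 4, nat_lit 0x4a⟩ (t14_7939) (.nil)))))
def t14_131 : Tr := .node ⟨nat_lit 7, nat_lit 0x1000500060, nat_lit 0x113111, nat_lit 1, nat_lit 4, nat_lit 0x49⟩ (.nil) (.nil)
def t14_8323 : Tr := .node ⟨nat_lit 7, nat_lit 0x10002000500060, nat_lit 0x120, nat_lit 2, nat_lit 4, nat_lit 0x46⟩ (.nil) (.nil)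
def t14_4227 : Tr := .node ⟨nat_lit 6, nat_lit 0x800300030, nat_lit 0x102210, nat_lit 3, nat_lit 4, nat_lit 0x48⟩ (.nil) (.nil)
def t14_12419 : Tr := .node ⟨nat_lit 8, nat_lit 0x80002000a800d000e0, nat_lit 0x1110003, nat_lit 1, nat_lit 4, nat_lit 0x46⟩ (.nil) (.nil)
def t14_2179 : Tr := .node ⟨nat_lit 8, nat_lit 0x80008000400088, nat_lit 0x1112102, nat_lit 0, nat_lit 4, nat_lit 0x4a⟩ (.nil) (.nil)
def t14_10371 : Tr := .node ⟨nat_lit 7, nat_lit 0x40001000480060, nat_lit 0x113002, nat_lit 0, nat_lit 4, nat_lit 0x48⟩ (.nil) (.nil)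
def t14_6275 : Tr := .node ⟨nat_lit 3, nat_lit 0x40004, nat_lit 0x22, nat_lit 0xb, nat_lit 4, nat_lit 0x46⟩ (.nil) (.nil)
def t14_14467 : Tr := .node ⟨nat_lit 6, nat_lit 0x300028, nat_lit 0x102, nat_lit 5, nat_lit 4, nat_lit 0x47⟩ (.nil) (.nil)
def t14_1155 : Tr := .node ⟨nat_lit 5, nat_lit 0x100014001c, nat_lit 0x1021, nat_lit 4, nat_lit 4, nat_lit 0x44⟩ (.nil) (.nil)
def t14_9347 : Tr := .node ⟨nat_lit 7, nat_lit 0x40004000480060, nat_lit 0x111211, nat_lit 5, nat_lit 4, nat_lit 0x49⟩ (.nil) (.nil)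
def t14_5251 : Tr := .node ⟨nat_lit 6, nat_lit 0x300030, nat_lit 0x1110, nat_lit 3, nat_lit 4, nat_lit 0x47⟩ (.nil) (.nil)
def t14_13443 : Tr := .node ⟨nat_lit 6, nat_lit 0x2000080030, nat_lit 0x1410, nat_lit 3, nat_lit 4, nat_lit 0x48⟩ (.nil) (.nil)
def t14_3203 : Tr := .node ⟨nat_lit 7, nat_lit 0x10004000500060, nat_lit 0x200121, nat_lit 0, nat_lit 4, nat_lit 0x47⟩ (.nil) (.nil)
def t14_11395 : Tr := .node ⟨nat_lit 8, nat_lit 0x40008000c800c800c8, nat_lit 0x110220, nat_lit 0, nat_lit 4, nat_lit 0x45⟩ (.nil) (.nil)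
def t14_7299 : Tr := .node ⟨nat_lit 7, nat_lit 0x20002000500060, nat_lit 0x22011, nat_lit 2, nat_lit 4, nat_lit 0x48⟩ (.nil) (.nil)
def t14_15491 : Tr := .node ⟨nat_lit 9, nat_lit 0x100008000400180, nat_lit 0x100112001, nat_lit 0, nat_lit 4, nat_lit 0x4b⟩ (.nil) (.nil)
def t14_643 : Tr := .node ⟨nat_lit 7, nat_lit 0x10004000200060, nat_lit 0x1100312, nat_lit 1, nat_lit 4, nat_lit 0x49⟩ (.nil) (.nil)
def t14_8835 : Tr := .node ⟨nat_lit 6, nat_lit 0x2000100024, nat_lit 0x111214, nat_lit 1, nat_lit 4, nat_lit 0x49⟩ (.nil) (.nil)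
def t14_4739 : Tr := .node ⟨nat_lit 6, nat_lit 0x10001000200020, nat_lit 0x112110, nat_lit 6, nat_lit 4, nat_lit 0x49⟩ (.nil) (.nil)
def t14_12931 : Tr := .node ⟨nat_lit 6, nat_lit 0x10002000200030, nat_lit 0x2100, nat_lit 3, nat_lit 4, nat_lit 0x46⟩ (.nil) (.nil)
def t14_2691 : Tr := .node ⟨nat_lit 7, nat_lit 0x10005000500060, nat_lit 0x200104, nat_lit 0, nat_lit 4, nat_lit 0x47⟩ (.nil) (.nil)
def t14_10883 : Tr := .node ⟨nat_lit 8, nat_lit 0x8000800040009000c000e0, nat_lit 0x12120, nat_lit 3, nat_lit 4, nat_lit 0x47⟩ (.nil) (.nil)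
def t14_6787 : Tr := .node ⟨nat_lit 8, nat_lit 0x400080002000c8, nat_lit 0x1111010, nat_lit 0, nat_lit 4, nat_lit 0x49⟩ (.nil) (.nil)
def t14_14979 : Tr := .node ⟨nat_lit 8, nat_lit 0x8000800040004000a000c0, nat_lit 0x211021, nat_lit 0, nat_lit 4, nat_lit 0x48⟩ (.nil) (.nil)
def t14_1667 : Tr := .node ⟨nat_lit 6, nat_lit 0x1000280030, nat_lit 0x101302, nat_lit 1, nat_lit 4, nat_lit 0x47⟩ (.nil) (.nil)
def t14_9859 : Tr := .node ⟨nat_lit 7, nat_lit 0x40004000400048, nat_lit 0x211201, nat_lit 5, nat_lit 4, nat_lit 0x4a⟩ (.nil) (.nil)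
def t14_5763 : Tr := .node ⟨nat_lit 8, nat_lit 0x80008000800088, nat_lit 0x1111220, nat_lit 0, nat_lit 4, nat_lit 0x4b⟩ (.nil) (.nil)
def t14_13955 : Tr := .node ⟨nat_lit 0xa, nat_lit 0x800200004000200300, nat_lit 0x2000, nat_lit 1, nat_lit 4, nat_lit 0x4a⟩ (.nil) (.nil)
def t14_3715 : Tr := .node ⟨nat_lit 8, nat_lit 0x40008000800090006000d0, nat_lit 0x11211001, nat_lit 0, nat_lit 4, nat_lit 0x48⟩ (.nil) (.nil)
def t14_11907 : Tr := .node ⟨nat_lit 5, nat_lit 0x40018, nat_lit 0x10033, nat_lit 1, nat_lit 4, nat_lit 0x46⟩ (.nil) (.nil)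
def t14_7811 : Tr := .node ⟨nat_lit 6, nat_lit 0x2000100024, nat_lit 0x11203, nat_lit 3, nat_lit 4, nat_lit 0x48⟩ (.nil) (.nil)
def t9_131 : Tr := .node ⟨nat_lit 5, nat_lit 0x18, nat_lit 0x31111, nat_lit 0, nat_lit 4, nat_lit 0x48⟩ (.node ⟨nat_lit 7, nat_lit 0x10002000400062, nat_lit 0x3100212, nat_lit 0, nat_lit 4, nat_lit 0x49⟩ (.node ⟨nat_lit 6, nat_lit 0x10002000240018, nat_lit 0x31220, nat_lit 0, nat_lit 4, nat_lit 0x47⟩ (.node ⟨nat_lit 5, nat_lit 0x80010, nat_lit 0x1310, nat_lit 0, nat_lit 4, nat_lit 0x47⟩ (.node ⟨nat_lit 7, nat_lit 0x40001000480060, nat_lit 0x22220, nat_lit 0, nat_lit 4, nat_lit 0x48⟩ (t14_131) (t14_8323)) (.node ⟨nat_lit 6, nat_lit 0x280030, nat_lit 0x100120, nat_lit 0, nat_lit 4, nat_lit 0x46⟩ (t14_4227) (t14_12419))) (.node ⟨nat_lit 8, nat_lit 0x200020001000c0, nat_lit 0x21011012, nat_lit 0, nat_lit 4, nat_lit 0x4a⟩ (.node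 ⟨nat_lit 6, nat_lit 0x800300030, nat_lit 0x1020, nat_lit 1, nat_lit 4, nat_lit 0x45⟩ (t14_2179) (t14_10371)) (.node ⟨nat_lit 8, nat_lit 0x4000200080, nat_lit 0x11121101, nat_lit 1, nat_lit 4, nat_lit 0x4c⟩ (t14_6275) (t14_14467)))) (.node ⟨nat_lit 6, nat_lit 0x200020, nat_lit 0x122111, nat_lit 0, nat_lit 4, nat_lit 0x4a⟩ (.node ⟨nat_lit 6, nat_lit 0x800080030, nat_lit 0x220111, nat_lit 0, nat_lit 4, nat_lit 0x48⟩ (.node ⟨nat_lit 2, nat_lit 2, nat_lit 0x13, nat_lit 0xd, nat_lit 4, nat_lit 0x46⟩ (t14_1155) (t14_9347)) (.node ⟨nat_lit 5, nat_lit 0x100018001c, nat_lit 0x11212, nat_lit 7, nat_lit 4, nat_lit 0x47⟩ (t14_5251) (t14_13443))) (.node ⟨nat_lit 6, nat_lit 0x80030, nat_lit 0x201000, nat_lit 0, nat_lit 4, nat_lit 0x47⟩ (.node ⟨nat_lit 6, nat_lit 0x2000300030, nat_lit 0x2031, nat_lit 1, nat_lit 3, nat_lit 0x45⟩ (t14_3203) (t14_11395)) (.node ⟨nat_lit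 7, nat_lit 0x10002000400060, nat_lit 0x1000110, nat_lit 1, nat_lit 4, nat_lit 0x47⟩ (t14_7299) (t14_15491))))) (.node ⟨nat_lit 7, nat_lit 0x40002000200048, nat_lit 0x3012101, nat_lit 0, nat_lit 4, nat_lit 0x4a⟩ (.node ⟨nat_lit 5, nat_lit 0x800100010, nat_lit 0x22300, nat_lit 0, nat_lit 3, nat_lit 0x47⟩ (.node ⟨nat_lit 7, nat_lit 0x1000400062, nat_lit 0x102021, nat_lit 0, nat_lit 4, nat_lit 0x48⟩ (.node ⟨nat_lit 3, nat_lit 4, nat_lit 0x210, nat_lit 7, nat_lit 4, nat_lit 0x46⟩ (t14_643) (t14_8835)) (.node ⟨nat_lit 7, nat_lit 0x400020002000640068, nat_lit 0x120210, nat_lit 3, nat_lit 4, nat_lit 0x47⟩ (t14_4739) (t14_12931))) (.node ⟨nat_lit 6, nat_lit 0x200030, nat_lit 0x101112, nat_lit 1, nat_lit 4, nat_lit 0x48⟩ (.node ⟨nat_lit 7, nat_lit 0x40004000200020, nat_lit 0x120030, nat_lit 3, nat_lit 4, nat_lit 0x4a⟩ (t14_2691) (t14_10883)) (.node ⟨nat_lit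 8, nat_lit 0x80008000800040009000e0, nat_lit 0x1110202, nat_lit 2, nat_lit 4, nat_lit 0x48⟩ (t14_6787) (t14_14979)))) (.node ⟨nat_lit 6, nat_lit 0x2000200010, nat_lit 0x111101, nat_lit 0, nat_lit 3, nat_lit 0x47⟩ (.node ⟨nat_lit 7, nat_lit 0x5000600028, nat_lit 0x1002211, nat_lit 0, nat_lit 4, nat_lit 0x47⟩ (.node ⟨nat_lit 6, nat_lit 0x1000280030, nat_lit 0x100110, nat_lit 1, nat_lit 4, nat_lit 0x45⟩ (t14_1667) (t14_9859)) (.node ⟨nat_lit 6, nat_lit 0x2000080030, nat_lit 0x122022, nat_lit 0, nat_lit 4, nat_lit 0x49⟩ (t14_5763) (t14_13955))) (.node ⟨nat_lit 6, nat_lit 0x240038, nat_lit 0x210022, nat_lit 0, nat_lit 4, nat_lit 0x47⟩ (.node ⟨nat_lit 6, nat_lit 0x1800280030, nat_lit 0x110011, nat_lit 0, nat_lit 4, nat_lit 0x45⟩ (t14_3715) (t14_11907)) (.node ⟨nat_lit 6, nat_lit 0x800300030, nat_lit 0x101121, nat_lit 7, nat_lit 4, nat_lit 0x48⟩ (t14_7811)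 (.nil)))))
def t14_387 : Tr := .node ⟨nat_lit 6, nat_lit 0x20002000100010, nat_lit 0x12111, nat_lit 1, nat_lit 4, nat_lit 0x47⟩ (.nil) (.nil)
def t14_8579 : Tr := .node ⟨nat_lit 5, nat_lit 0x100014001c, nat_lit 0x1110, nat_lit 5, nat_lit 4, nat_lit 0x45⟩ (.nil) (.nil)
def t14_4483 : Tr := .node ⟨nat_lit 7, nat_lit 0x20004000400060, nat_lit 0x122101, nat_lit 2, nat_lit 4, nat_lit 0x49⟩ (.nil) (.nil)
def t14_12675 : Tr := .node ⟨nat_lit 3, nat_lit 0x40004, nat_lit 0x21, nat_lit 0xd, nat_lit 4, nat_lit 0x46⟩ (.nil) (.nil)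
def t14_2435 : Tr := .node ⟨nat_lit 7, nat_lit 0x40002000500060, nat_lit 0x101220, nat_lit 1, nat_lit 4, nat_lit 0x47⟩ (.nil) (.nil)
def t14_10627 : Tr := .node ⟨nat_lit 6, nat_lit 0x200010, nat_lit 1, nat_lit 0, nat_lit 4, nat_lit 0x46⟩ (.nil) (.nil)
def t14_6531 : Tr := .node ⟨nat_lit 7, nat_lit 0x4800500060, nat_lit 0x111111, nat_lit 1, nat_lit 4, nat_lit 0x47⟩ (.nil) (.nil)
def t14_14723 : Tr := .node ⟨nat_lit 6, nat_lit 0x2000080030, nat_lit 0x1121, nat_lit 3, nat_lit 4, nat_lit 0x47⟩ (.nil) (.nil)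
def t14_1411 : Tr := .node ⟨nat_lit 7, nat_lit 0x400020002000500060, nat_lit 0x23110, nat_lit 0, nat_lit 4, nat_lit 0x47⟩ (.nil) (.nil)
def t14_9603 : Tr := .node ⟨nat_lit 8, nat_lit 0x80004000c000a000d0, nat_lit 0x23200, nat_lit 0, nat_lit 4, nat_lit 0x47⟩ (.nil) (.nil)
def t14_5507 : Tr := .node ⟨nat_lit 8, nat_lit 0x400080008000c4, nat_lit 0x113001, nat_lit 1, nat_lit 4, nat_lit 0x49⟩ (.nil) (.nil)
def t14_13699 : Tr := .node ⟨nat_lit 8, nat_lit 0x800020002000c0, nat_lit 0x22100, nat_lit 0, nat_lit 4, nat_lit 0x49⟩ (.nil) (.nil)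
def t14_3459 : Tr := .node ⟨nat_lit 7, nat_lit 0x10004000600050, nat_lit 0x301, nat_lit 2, nat_lit 4, nat_lit 0x47⟩ (.nil) (.nil)
def t14_11651 : Tr := .node ⟨nat_lit 8, nat_lit 0x8000900060006000d0, nat_lit 0x11103, nat_lit 0, nat_lit 4, nat_lit 0x45⟩ (.nil) (.nil)
def t14_7555 : Tr := .node ⟨nat_lit 7, nat_lit 0x40001000600050, nat_lit 0x2203, nat_lit 1, nat_lit 4, nat_lit 0x47⟩ (.nil) (.nil)
def t14_899 : Tr := .node ⟨nat_lit 7, nat_lit 0x200020002000400042, nat_lit 0x21022, nat_lit 0, nat_lit 4, nat_lit 0x47⟩ (.nil) (.nil)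
def t14_9091 : Tr := .node ⟨nat_lit 9, nat_lit 0x8000800100010000c001080190, nat_lit 0x1211101, nat_lit 0, nat_lit 4, nat_lit 0x47⟩ (.nil) (.nil)
def t14_4995 : Tr := .node ⟨nat_lit 6, nat_lit 0x280030, nat_lit 0x10201, nat_lit 2, nat_lit 4, nat_lit 0x47⟩ (.nil) (.nil)
def t14_13187 : Tr := .node ⟨nat_lit 6, nat_lit 0x2000240018, nat_lit 0x113, nat_lit 1, nat_lit 4, nat_lit 0x45⟩ (.nil) (.nil)
def t14_2947 : Tr := .node ⟨nat_lit 7, nat_lit 0x10004000500064, nat_lit 0x1001221, nat_lit 0, nat_lit 4, nat_lit 0x47⟩ (.nil) (.nil)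
def t14_11139 : Tr := .node ⟨nat_lit 5, nat_lit 0x180018, nat_lit 0x10140, nat_lit 4, nat_lit 4, nat_lit 0x47⟩ (.nil) (.nil)
def t14_7043 : Tr := .node ⟨nat_lit 7, nat_lit 0x400040002000240050, nat_lit 0x1121002, nat_lit 0, nat_lit 4, nat_lit 0x48⟩ (.nil) (.nil)
def t14_15235 : Tr := .node ⟨nat_lit 8, nat_lit 0x10001000a000c0, nat_lit 0x11101021, nat_lit 0, nat_lit 4, nat_lit 0x49⟩ (.nil) (.nil)
def t14_1923 : Tr := .node ⟨nat_lit 8, nat_lit 0x4000c000a00090, nat_lit 0x21112, nat_lit 0, nat_lit 4, nat_lit 0x48⟩ (.nil) (.nil)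
def t14_10115 : Tr := .node ⟨nat_lit 8, nat_lit 0x4000a000d000d000e0, nat_lit 0x2202, nat_lit 0, nat_lit 4, nat_lit 0x44⟩ (.nil) (.nil)
def t14_6019 : Tr := .node ⟨nat_lit 6, nat_lit 0x80030, nat_lit 0x211310, nat_lit 0, nat_lit 4, nat_lit 0x4a⟩ (.nil) (.nil)
def t14_14211 : Tr := .node ⟨nat_lit 8, nat_lit 0x10008000a000c0, nat_lit 0x1000102, nat_lit 1, nat_lit 4, nat_lit 0x48⟩ (.nil) (.nil)
def t14_3971 : Tr := .node ⟨nat_lit 7, nat_lit 0x10002000500060, nat_lit 0x1102101, nat_lit 0, nat_lit 4, nat_lit 0x47⟩ (.nil) (.nil)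
def t14_12163 : Tr := .node ⟨nat_lit 8, nat_lit 0x8000a0009000c8, nat_lit 0x1012100, nat_lit 1, nat_lit 4, nat_lit 0x48⟩ (.nil) (.nil)
def t14_8067 : Tr := .node ⟨nat_lit 7, nat_lit 0x40001000480060, nat_lit 0x11130, nat_lit 2, nat_lit 4, nat_lit 0x47⟩ (.nil) (.nil)
def t9_387 : Tr := .node ⟨nat_lit 6, nat_lit 0x2000080010, nat_lit 0x32022, nat_lit 0, nat_lit 4, nat_lit 0x4a⟩ (.node ⟨nat_lit 6, nat_lit 0x2000080030, nat_lit 0x131022, nat_lit 0, nat_lit 4, nat_lit 0x49⟩ (.node ⟨nat_lit 6, nat_lit 0x10002000180024, nat_lit 0x221201, nat_lit 0, nat_lit 4, nat_lit 0x48⟩ (.node ⟨nat_lit 7, nat_lit 0x40001000500068, nat_lit 0x1101022, nat_lit 0, nat_lit 4, nat_lit 0x47⟩ (.node ⟨nat_lit 8, nat_lit 0x80001000c000a0, nat_lit 0x22110, nat_lit 1, nat_lit 4, nat_lit 0x49⟩ (t14_387) (t14_8579)) (.node ⟨nat_lit 0xa, nat_lit 0x10002000200008000400210, nat_lit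 0x1000020001, nat_lit 3, nat_lit 4, nat_lit 0x4b⟩ (t14_4483) (t14_12675))) (.node ⟨nat_lit 6, nat_lit 0x200010, nat_lit 0x23101, nat_lit 0, nat_lit 4, nat_lit 0x4a⟩ (.node ⟨nat_lit 5, nat_lit 0x1000080018, nat_lit 0x11224, nat_lit 3, nat_lit 4, nat_lit 0x48⟩ (t14_2435) (t14_10627)) (.node ⟨nat_lit 5, nat_lit 0x40018, nat_lit 0x20010, nat_lit 1, nat_lit 4, nat_lit 0x45⟩ (t14_6531) (t14_14723)))) (.node ⟨nat_lit 6, nat_lit 0x2000280034, nat_lit 0x22021, nat_lit 2, nat_lit 4, nat_lit 0x47⟩ (.node ⟨nat_lit 6, nat_lit 0x2000200010, nat_lit 0x22101, nat_lit 7, nat_lit 4, nat_lit 0x4a⟩ (.node ⟨nat_lit 6, nat_lit 0x2000100024, nat_lit 0x112003, nat_lit 0, nat_lit 4, nat_lit 0x47⟩ (t14_1411) (t14_9603)) (.node ⟨nat_lit 7, nat_lit 0x400020002000500068, nat_lit 0x122120, nat_lit 1, nat_lit 4, nat_lit 0x47⟩ (t14_5507) (t14_13699))) (.node ⟨nat_lit 6, nat_lit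 0x800200030, nat_lit 0x11121, nat_lit 2, nat_lit 4, nat_lit 0x47⟩ (.node ⟨nat_lit 6, nat_lit 0x300038, nat_lit 0x2100, nat_lit 1, nat_lit 4, nat_lit 0x46⟩ (t14_3459) (t14_11651)) (.node ⟨nat_lit 6, nat_lit 0x2000080030, nat_lit 0x111112, nat_lit 6, nat_lit 4, nat_lit 0x49⟩ (t14_7555) (.nil))))) (.node ⟨nat_lit 6, nat_lit 0x300030, nat_lit 0x103111, nat_lit 5, nat_lit 4, nat_lit 0x49⟩ (.node ⟨nat_lit 6, nat_lit 0x1000280034, nat_lit 0x22110, nat_lit 1, nat_lit 4, nat_lit 0x47⟩ (.node ⟨nat_lit 6, nat_lit 0x1000080020, nat_lit 0x111210, nat_lit 1, nat_lit 4, nat_lit 0x48⟩ (.node ⟨nat_lit 8, nat_lit 0x8000800040, nat_lit 0x1311002, nat_lit 0, nat_lit 4, nat_lit 0x4c⟩ (t14_899) (t14_9091)) (.node ⟨nat_lit 4, nat_lit 8, nat_lit 0x2210, nat_lit 0xd, nat_lit 4, nat_lit 0x4a⟩ (t14_4995) (t14_13187))) (.node ⟨nat_lit 8, nat_lit 0x800080004000400090, nat_lit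 0x1100210, nat_lit 0, nat_lit 4, nat_lit 0x49⟩ (.node ⟨nat_lit 4, nat_lit 0xc, nat_lit 0x1112, nat_lit 7, nat_lit 4, nat_lit 0x47⟩ (t14_2947) (t14_11139)) (.node ⟨nat_lit 8, nat_lit 0x80002000c000c8, nat_lit 0x11011022, nat_lit 1, nat_lit 4, nat_lit 0x49⟩ (t14_7043) (t14_15235)))) (.node ⟨nat_lit 6, nat_lit 0x2000080030, nat_lit 0x110231, nat_lit 0, nat_lit 4, nat_lit 0x47⟩ (.node ⟨nat_lit 6, nat_lit 0x2000080030, nat_lit 0x32121, nat_lit 0, nat_lit 4, nat_lit 0x49⟩ (.node ⟨nat_lit 6, nat_lit 0x800300030, nat_lit 0x101211, nat_lit 0, nat_lit 4, nat_lit 0x46⟩ (t14_1923) (t14_10115)) (.node ⟨nat_lit 6, nat_lit 0x800300030, nat_lit 0x202220, nat_lit 0, nat_lit 4, nat_lit 0x48⟩ (t14_6019) (t14_14211))) (.node ⟨nat_lit 7, nat_lit 0x20002000400068, nat_lit 0x12102, nat_lit 0, nat_lit 4, nat_lit 0x47⟩ (.node ⟨nat_lit 6, nat_lit 0x800200030, nat_lit 0x100010,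 nat_lit 0, nat_lit 3, nat_lit 0x45⟩ (t14_3971) (t14_12163)) (.node ⟨nat_lit 0xa, nat_lit 0x10002000200008000800210, nat_lit 0x1001011100, nat_lit 1, nat_lit 4, nat_lit 0x4b⟩ (t14_8067) (.nil)))))
def t14_67 : Tr := .node ⟨nat_lit 7, nat_lit 0x2000400060, nat_lit 0x1121111, nat_lit 1, nat_lit 4, nat_lit 0x4a⟩ (.nil) (.nil)
def t14_8259 : Tr := .node ⟨nat_lit 7, nat_lit 0x400020002000500060, nat_lit 0x21140, nat_lit 0, nat_lit 4, nat_lit 0x47⟩ (.nil) (.nil)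
def t14_4163 : Tr := .node ⟨nat_lit 9, nat_lit 0x1000100004001100180, nat_lit 0x11110011, nat_lit 1, nat_lit 4, nat_lit 0x4a⟩ (.nil) (.nil)
def t14_12355 : Tr := .node ⟨nat_lit 8, nat_lit 0x80002000c000c8, nat_lit 0x11001, nat_lit 0, nat_lit 4, nat_lit 0x47⟩ (.nil) (.nil)
def t14_2115 : Tr := .node ⟨nat_lit 7, nat_lit 0x10004000400060, nat_lit 0x100202, nat_lit 3, nat_lit 4, nat_lit 0x48⟩ (.nil) (.nil)
def t14_10307 : Tr := .node ⟨nat_lit 7, nat_lit 0x40003000600050, nat_lit 0x2022, nat_lit 2, nat_lit 4, nat_lit 0x46⟩ (.nil) (.nil)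
def t14_6211 : Tr := .node ⟨nat_lit 4, nat_lit 8, nat_lit 0x1110, nat_lit 9, nat_lit 4, nat_lit 0x48⟩ (.nil) (.nil)
def t14_14403 : Tr := .node ⟨nat_lit 9, nat_lit 0x1000040004001100180, nat_lit 0x21000, nat_lit 1, nat_lit 4, nat_lit 0x49⟩ (.nil) (.nil)
def t14_1091 : Tr := .node ⟨nat_lit 6, nat_lit 0x10002000300030, nat_lit 0x2221, nat_lit 2, nat_lit 4, nat_lit 0x46⟩ (.nil) (.nil)
def t14_9283 : Tr := .node ⟨nat_lit 8, nat_lit 0x8000800040009000d0, nat_lit 0x10201, nat_lit 0, nat_lit 4, nat_lit 0x47⟩ (.nil) (.nil)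
def t14_5187 : Tr := .node ⟨nat_lit 7, nat_lit 0x400020005000700070, nat_lit 0x1013110, nat_lit 1, nat_lit 4, nat_lit 0x46⟩ (.nil) (.nil)
def t14_13379 : Tr := .node ⟨nat_lit 8, nat_lit 0x2000200080008400c0, nat_lit 0x1020200, nat_lit 0, nat_lit 4, nat_lit 0x48⟩ (.nil) (.nil)
def t14_3139 : Tr := .node ⟨nat_lit 7, nat_lit 0x200040004000600060, nat_lit 0x12021, nat_lit 0, nat_lit 3, nat_lit 0x45⟩ (.nil) (.nil)
def t14_11331 : Tr := .node ⟨nat_lit 8, nat_lit 0x40008000c000c0, nat_lit 0x111120, nat_lit 2, nat_lit 4, nat_lit 0x49⟩ (.nil) (.nil)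
def t14_7235 : Tr := .node ⟨nat_lit 6, nat_lit 0x20002000100028, nat_lit 0x112010, nat_lit 3, nat_lit 4, nat_lit 0x48⟩ (.nil) (.nil)
def t14_15427 : Tr := .node ⟨nat_lit 0xa, nat_lit 0x20002000100021002100220, nat_lit 0x111101100, nat_lit 0, nat_lit 4, nat_lit 0x4a⟩ (.nil) (.nil)
def t14_579 : Tr := .node ⟨nat_lit 5, nat_lit 0x40018, nat_lit 0x202, nat_lit 3, nat_lit 4, nat_lit 0x46⟩ (.nil) (.nil)
def t14_8771 : Tr := .node ⟨nat_lit 7, nat_lit 0x400020002000500060, nat_lit 0x22030, nat_lit 1, nat_lit 4, nat_lit 0x47⟩ (.nil) (.nil)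
def t14_4675 : Tr := .node ⟨nat_lit 6, nat_lit 0x2000300028, nat_lit 0x1202, nat_lit 4, nat_lit 4, nat_lit 0x47⟩ (.nil) (.nil)
def t14_12867 : Tr := .node ⟨nat_lit 7, nat_lit 0x40003000580068, nat_lit 0x2000010, nat_lit 0, nat_lit 4, nat_lit 0x45⟩ (.nil) (.nil)
def t14_2627 : Tr := .node ⟨nat_lit 6, nat_lit 0x800300028, nat_lit 0x322, nat_lit 1, nat_lit 4, nat_lit 0x46⟩ (.nil) (.nil)
def t14_10819 : Tr := .node ⟨nat_lit 7, nat_lit 0x400020005000600070, nat_lit 0x1010022, nat_lit 5, nat_lit 4, nat_lit 0x47⟩ (.nil) (.nil)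
def t14_6723 : Tr := .node ⟨nat_lit 7, nat_lit 0x40001000480068, nat_lit 0x1110110, nat_lit 1, nat_lit 4, nat_lit 0x47⟩ (.nil) (.nil)
def t14_14915 : Tr := .node ⟨nat_lit 7, nat_lit 0x400020005000500070, nat_lit 0x1010211, nat_lit 4, nat_lit 4, nat_lit 0x47⟩ (.nil) (.nil)
def t14_1603 : Tr := .node ⟨nat_lit 7, nat_lit 0x40002000100060, nat_lit 0x1111210, nat_lit 0, nat_lit 3, nat_lit 0x47⟩ (.nil) (.nil)
def t14_9795 : Tr := .node ⟨nat_lit 7, nat_lit 0x10002000500060, nat_lit 0x2002, nat_lit 0, nat_lit 4, nat_lit 0x46⟩ (.nil) (.nil)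
def t14_5699 : Tr := .node ⟨nat_lit 7, nat_lit 0x10001800600050, nat_lit 0x1002112, nat_lit 1, nat_lit 4, nat_lit 0x47⟩ (.nil) (.nil)
def t14_13891 : Tr := .node ⟨nat_lit 7, nat_lit 0x400040002000240050, nat_lit 0x1001102, nat_lit 0, nat_lit 4, nat_lit 0x46⟩ (.nil) (.nil)
def t14_3651 : Tr := .node ⟨nat_lit 7, nat_lit 0x4000600050, nat_lit 0x3021, nat_lit 2, nat_lit 4, nat_lit 0x48⟩ (.nil) (.nil)
def t14_11843 : Tr := .node ⟨nat_lit 5, nat_lit 0x10001a, nat_lit 0x1130, nat_lit 4, nat_lit 4, nat_lit 0x47⟩ (.nil) (.nil)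
def t14_7747 : Tr := .node ⟨nat_lit 7, nat_lit 0x20004000440030, nat_lit 0x1201, nat_lit 0, nat_lit 4, nat_lit 0x46⟩ (.nil) (.nil)
def t9_67 : Tr := .node ⟨nat_lit 6, nat_lit 0x100020, nat_lit 0x231111, nat_lit 1, nat_lit 4, nat_lit 0x4b⟩ (.node ⟨nat_lit 6, nat_lit 0x200020, nat_lit 0x132121, nat_lit 0, nat_lit 4, nat_lit 0x4b⟩ (.node ⟨nat_lit 7, nat_lit 0x20004000680068, nat_lit 0x310220, nat_lit 1, nat_lit 4, nat_lit 0x48⟩ (.node ⟨nat_lit 6, nat_lit 0x300030, nat_lit 0x2210, nat_lit 1, nat_lit 4, nat_lit 0x47⟩ (.node ⟨nat_lit 7, nat_lit 0x4000400070, nat_lit 0x202113, nat_lit 0, nat_lit 4, nat_lit 0x49⟩ (t14_67) (t14_8259)) (.node ⟨nat_lit 6, nat_lit 0x800200030, nat_lit 0x111000, nat_lit 0, nat_lit 3, nat_lit 0x46⟩ (t14_4163) (t14_12355))) (.node ⟨nat_lit 7, nat_lit 0x100060, nat_lit 0x2112102, nat_lit 0, nat_lit 4, nat_lit 0x4b⟩ (.node ⟨nat_lit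 4, nat_lit 0x8000c, nat_lit 0x1241, nat_lit 2, nat_lit 3, nat_lit 0x46⟩ (t14_2115) (t14_10307)) (.node ⟨nat_lit 7, nat_lit 0x20004000400040, nat_lit 0x1020211, nat_lit 0, nat_lit 3, nat_lit 0x48⟩ (t14_6211) (t14_14403)))) (.node ⟨nat_lit 6, nat_lit 0x100020, nat_lit 0x122200, nat_lit 0, nat_lit 3, nat_lit 0x49⟩ (.node ⟨nat_lit 7, nat_lit 0x400060, nat_lit 0x2021111, nat_lit 0, nat_lit 4, nat_lit 0x4b⟩ (.node ⟨nat_lit 5, nat_lit 0x40018, nat_lit 0x10131, nat_lit 2, nat_lit 4, nat_lit 0x47⟩ (t14_1091) (t14_9283)) (.node ⟨nat_lit 7, nat_lit 0x10004000600060, nat_lit 0x100231, nat_lit 3, nat_lit 4, nat_lit 0x48⟩ (t14_5187) (t14_13379))) (.node ⟨nat_lit 5, nat_lit 0x18, nat_lit 0x10220, nat_lit 2, nat_lit 4, nat_lit 0x48⟩ (.node ⟨nat_lit 6, nat_lit 0x280030, nat_lit 0x21100, nat_lit 1, nat_lit 4, nat_lit 0x47⟩ (t14_3139) (t14_11331)) (.node ⟨nat_lit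 6, nat_lit 0x20001000280038, nat_lit 0x101012, nat_lit 5, nat_lit 4, nat_lit 0x46⟩ (t14_7235) (t14_15427))))) (.node ⟨nat_lit 3, nat_lit 6, nat_lit 0x303, nat_lit 3, nat_lit 3, nat_lit 0x44⟩ (.node ⟨nat_lit 5, nat_lit 0x80010, nat_lit 0x12131, nat_lit 2, nat_lit 4, nat_lit 0x49⟩ (.node ⟨nat_lit 6, nat_lit 0x20002000100010, nat_lit 0x2020, nat_lit 1, nat_lit 4, nat_lit 0x46⟩ (.node ⟨nat_lit 3, nat_lit 4, nat_lit 0x210, nat_lit 0x13, nat_lit 4, nat_lit 0x49⟩ (t14_579) (t14_8771)) (.node ⟨nat_lit 7, nat_lit 0x10002000200040, nat_lit 0x1110210, nat_lit 0, nat_lit 4, nat_lit 0x49⟩ (t14_4675) (t14_12867))) (.node ⟨nat_lit 6, nat_lit 0x240038, nat_lit 0x100012, nat_lit 0, nat_lit 4, nat_lit 0x45⟩ (.node ⟨nat_lit 5, nat_lit 0x100010, nat_lit 0x11130, nat_lit 9, nat_lit 4, nat_lit 0x4a⟩ (t14_2627) (t14_10819)) (.node ⟨nat_lit 5, nat_lit 0x10001000140018,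 nat_lit 0x11100, nat_lit 0xf, nat_lit 4, nat_lit 0x48⟩ (t14_6723) (t14_14915)))) (.node ⟨nat_lit 6, nat_lit 0x200022, nat_lit 0x211120, nat_lit 1, nat_lit 4, nat_lit 0x4a⟩ (.node ⟨nat_lit 6, nat_lit 0x800280030, nat_lit 0x220310, nat_lit 0, nat_lit 4, nat_lit 0x48⟩ (.node ⟨nat_lit 5, nat_lit 0x18001c, nat_lit 0x11113, nat_lit 3, nat_lit 4, nat_lit 0x46⟩ (t14_1603) (t14_9795)) (.node ⟨nat_lit 8, nat_lit 0x400080008400c0, nat_lit 0x11112101, nat_lit 0, nat_lit 4, nat_lit 0x4a⟩ (t14_5699) (t14_13891))) (.node ⟨nat_lit 7, nat_lit 0x1000400060, nat_lit 0x201012, nat_lit 2, nat_lit 4, nat_lit 0x49⟩ (.node ⟨nat_lit 6, nat_lit 0x2000300038, nat_lit 0x1003, nat_lit 3, nat_lit 4, nat_lit 0x45⟩ (t14_3651) (t14_11843)) (.node ⟨nat_lit 7, nat_lit 0x20004000100064, nat_lit 0x1102001, nat_lit 3, nat_lit 4, nat_lit 0x48⟩ (t14_7747) (.nil)))))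
def t14_323 : Tr := .node ⟨nat_lit 7, nat_lit 0x1000500060, nat_lit 0x211213, nat_lit 0, nat_lit 4, nat_lit 0x49⟩ (.nil) (.nil)
def t14_8515 : Tr := .node ⟨nat_lit 5, nat_lit 0x10001000180018, nat_lit 0x1141, nat_lit 7, nat_lit 4, nat_lit 0x47⟩ (.nil) (.nil)
def t14_4419 : Tr := .node ⟨nat_lit 8, nat_lit 0x40008000800084, nat_lit 0x11210110, nat_lit 1, nat_lit 4, nat_lit 0x4b⟩ (.nil) (.nil)
def t14_12611 : Tr := .node ⟨nat_lit 7, nat_lit 0x1000600018, nat_lit 0x2000100, nat_lit 0, nat_lit 4, nat_lit 0x47⟩ (.nil) (.nil)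
def t14_2371 : Tr := .node ⟨nat_lit 6, nat_lit 0x2800280030, nat_lit 0x21102, nat_lit 3, nat_lit 4, nat_lit 0x47⟩ (.nil) (.nil)
def t14_10563 : Tr := .node ⟨nat_lit 7, nat_lit 0x20004000100044, nat_lit 0x10002, nat_lit 0, nat_lit 4, nat_lit 0x46⟩ (.nil) (.nil)
def t14_6467 : Tr := .node ⟨nat_lit 7, nat_lit 0x40001000480060, nat_lit 0x1111100, nat_lit 1, nat_lit 4, nat_lit 0x48⟩ (.nil) (.nil)
def t14_14659 : Tr := .node ⟨nat_lit 0xa, nat_lit 0x100010002000200021001400180, nat_lit 0x11100011, nat_lit 2, nat_lit 4, nat_lit 0x49⟩ (.nil) (.nil)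
def t14_1347 : Tr := .node ⟨nat_lit 7, nat_lit 0x200040004000680068, nat_lit 0x1030110, nat_lit 3, nat_lit 4, nat_lit 0x47⟩ (.nil) (.nil)
def t14_9539 : Tr := .node ⟨nat_lit 8, nat_lit 0x800080008000400040, nat_lit 0x1121010, nat_lit 0, nat_lit 3, nat_lit 0x48⟩ (.nil) (.nil)
def t14_5443 : Tr := .node ⟨nat_lit 7, nat_lit 0x10002000400064, nat_lit 0x100031, nat_lit 1, nat_lit 4, nat_lit 0x47⟩ (.nil) (.nil)
def t14_13635 : Tr := .node ⟨nat_lit 7, nat_lit 0x40001000100060, nat_lit 0x202, nat_lit 2, nat_lit 4, nat_lit 0x47⟩ (.nil) (.nil)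
def t14_3395 : Tr := .node ⟨nat_lit 8, nat_lit 0x40002000a000d000d0, nat_lit 0x2000110, nat_lit 0, nat_lit 4, nat_lit 0x46⟩ (.nil) (.nil)
def t14_11587 : Tr := .node ⟨nat_lit 6, nat_lit 0x20003000300038, nat_lit 0x1103, nat_lit 5, nat_lit 4, nat_lit 0x45⟩ (.nil) (.nil)
def t14_7491 : Tr := .node ⟨nat_lit 8, nat_lit 0x8000800040009000c0, nat_lit 0x10111111, nat_lit 1, nat_lit 4, nat_lit 0x49⟩ (.nil) (.nil)
def t14_835 : Tr := .node ⟨nat_lit 7, nat_lit 0x40001000500060, nat_lit 0x113101, nat_lit 0, nat_lit 3, nat_lit 0x46⟩ (.nil) (.nil)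
def t14_9027 : Tr := .node ⟨nat_lit 7, nat_lit 0x4000400040005000600060, nat_lit 0x111011, nat_lit 7, nat_lit 4, nat_lit 0x48⟩ (.nil) (.nil)
def t14_4931 : Tr := .node ⟨nat_lit 6, nat_lit 0x800300030, nat_lit 0x101031, nat_lit 3, nat_lit 4, nat_lit 0x47⟩ (.nil) (.nil)
def t14_13123 : Tr := .node ⟨nat_lit 5, nat_lit 0x1000080018, nat_lit 0x20230, nat_lit 3, nat_lit 3, nat_lit 0x46⟩ (.nil) (.nil)
def t14_2883 : Tr := .node ⟨nat_lit 7, nat_lit 0x10004000500060, nat_lit 0x211102, nat_lit 0, nat_lit 4, nat_lit 0x48⟩ (.nil) (.nil)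
def t14_11075 : Tr := .node ⟨nat_lit 7, nat_lit 0x6000180018, nat_lit 0x1010220, nat_lit 0, nat_lit 4, nat_lit 0x47⟩ (.nil) (.nil)
def t14_6979 : Tr := .node ⟨nat_lit 6, nat_lit 0x300028, nat_lit 0x102211, nat_lit 2, nat_lit 4, nat_lit 0x49⟩ (.nil) (.nil)
def t14_15171 : Tr := .node ⟨nat_lit 9, nat_lit 0x10000800080012001880190, nat_lit 0x11111110, nat_lit 0, nat_lit 4, nat_lit 0x48⟩ (.nil) (.nil)
def t14_1859 : Tr := .node ⟨nat_lit 6, nat_lit 0x3000300028, nat_lit 0x3112, nat_lit 4, nat_lit 4, nat_lit 0x47⟩ (.nil) (.nil)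
def t14_10051 : Tr := .node ⟨nat_lit 8, nat_lit 0x20008000c000c800c8, nat_lit 0x10000220, nat_lit 4, nat_lit 4, nat_lit 0x47⟩ (.nil) (.nil)
def t14_5955 : Tr := .node ⟨nat_lit 7, nat_lit 0x4000600064, nat_lit 0x111211, nat_lit 0, nat_lit 4, nat_lit 0x48⟩ (.nil) (.nil)
def t14_14147 : Tr := .node ⟨nat_lit 8, nat_lit 0x8000800040002000c0, nat_lit 0x110102, nat_lit 1, nat_lit 4, nat_lit 0x48⟩ (.nil) (.nil)
def t14_3907 : Tr := .node ⟨nat_lit 6, nat_lit 0x20001000280038, nat_lit 0x101210, nat_lit 3, nat_lit 4, nat_lit 0x46⟩ (.nil) (.nil)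
def t14_12099 : Tr := .node ⟨nat_lit 6, nat_lit 0x800280030, nat_lit 0x110101, nat_lit 1, nat_lit 3, nat_lit 0x45⟩ (.nil) (.nil)
def t14_8003 : Tr := .node ⟨nat_lit 6, nat_lit 0x200022, nat_lit 0x11124, nat_lit 1, nat_lit 4, nat_lit 0x49⟩ (.nil) (.nil)
def t9_323 : Tr := .node ⟨nat_lit 6, nat_lit 0x200010, nat_lit 0x13101, nat_lit 1, nat_lit 4, nat_lit 0x49⟩ (.node ⟨nat_lit 6, nat_lit 0x800080030, nat_lit 0x300202, nat_lit 0, nat_lit 4, nat_lit 0x48⟩ (.node ⟨nat_lit 2, nat_lit 2, nat_lit 0x23, nat_lit 0xf, nat_lit 4, nat_lit 0x47⟩ (.node ⟨nat_lit 6, nat_lit 0x1000280030, nat_lit 0x111122, nat_lit 0, nat_lit 4, nat_lit 0x47⟩ (.node ⟨nat_lit 7, nat_lit 0x40004000200048, nat_lit 0x1211110, nat_lit 3, nat_lit 4, nat_lit 0x4a⟩ (t14_323) (t14_8515)) (.node ⟨nat_lit 8, nat_lit 0x4000400020008000e0, nat_lit 0x110003, nat_lit 3, nat_lit 4, nat_lit 0x48⟩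 (t14_4419) (t14_12611))) (.node ⟨nat_lit 3, nat_lit 0x40004, nat_lit 0x10, nat_lit 6, nat_lit 3, nat_lit 0x43⟩ (.node ⟨nat_lit 6, nat_lit 0x2000080030, nat_lit 0x1022, nat_lit 0, nat_lit 4, nat_lit 0x46⟩ (t14_2371) (t14_10563)) (.node ⟨nat_lit 6, nat_lit 0x1000200034, nat_lit 0x21130, nat_lit 2, nat_lit 4, nat_lit 0x48⟩ (t14_6467) (t14_14659)))) (.node ⟨nat_lit 5, nat_lit 0x100010, nat_lit 0x11110, nat_lit 0, nat_lit 3, nat_lit 0x46⟩ (.node ⟨nat_lit 5, nat_lit 0x18, nat_lit 0x20221, nat_lit 7, nat_lit 4, nat_lit 0x4a⟩ (.node ⟨nat_lit 5, nat_lit 0x1000100008, nat_lit 0x11003, nat_lit 3, nat_lit 3, nat_lit 0x46⟩ (t14_1347) (t14_9539)) (.node ⟨nat_lit 8, nat_lit 0x800020002000c0, nat_lit 0x11021002, nat_lit 1, nat_lit 4, nat_lit 0x4a⟩ (t14_5443) (t14_13635))) (.node ⟨nat_lit 4, nat_lit 0xc, nat_lit 0x2110, nat_lit 6, nat_lit 4, nat_lit 0x47⟩ (.node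 ⟨nat_lit 6, nat_lit 0x10001000200030, nat_lit 0x112003, nat_lit 0, nat_lit 3, nat_lit 0x46⟩ (t14_3395) (t14_11587)) (.node ⟨nat_lit 6, nat_lit 0x20002000100028, nat_lit 0x12011, nat_lit 3, nat_lit 4, nat_lit 0x47⟩ (t14_7491) (.nil))))) (.node ⟨nat_lit 6, nat_lit 0x200020, nat_lit 0x31120, nat_lit 3, nat_lit 4, nat_lit 0x4a⟩ (.node ⟨nat_lit 4, nat_lit 8, nat_lit 0x2112, nat_lit 8, nat_lit 4, nat_lit 0x49⟩ (.node ⟨nat_lit 4, nat_lit 8, nat_lit 0x1111, nat_lit 9, nat_lit 4, nat_lit 0x48⟩ (.node ⟨nat_lit 8, nat_lit 0x8000200040, nat_lit 0x1211001, nat_lit 3, nat_lit 4, nat_lit 0x4c⟩ (t14_835) (t14_9027)) (.node ⟨nat_lit 7, nat_lit 0x4000640064, nat_lit 0x2121020, nat_lit 1, nat_lit 4, nat_lit 0x49⟩ (t14_4931) (t14_13123))) (.node ⟨nat_lit 7, nat_lit 0x10002000500060, nat_lit 0x111102, nat_lit 0, nat_lit 4, nat_lit 0x47⟩ (.node ⟨nat_lit 7, nat_lit 0x20004000440044,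 nat_lit 0x1010211, nat_lit 3, nat_lit 4, nat_lit 0x49⟩ (t14_2883) (t14_11075)) (.node ⟨nat_lit 9, nat_lit 0x80010001000104, nat_lit 0x101110120, nat_lit 1, nat_lit 4, nat_lit 0x4c⟩ (t14_6979) (t14_15171)))) (.node ⟨nat_lit 5, nat_lit 0x18, nat_lit 0x21110, nat_lit 1, nat_lit 3, nat_lit 0x47⟩ (.node ⟨nat_lit 6, nat_lit 0x1800280030, nat_lit 0x121112, nat_lit 0, nat_lit 4, nat_lit 0x47⟩ (.node ⟨nat_lit 7, nat_lit 0x40004000100060, nat_lit 0x111013, nat_lit 0, nat_lit 4, nat_lit 0x48⟩ (t14_1859) (t14_10051)) (.node ⟨nat_lit 7, nat_lit 0x20002000400040, nat_lit 0x120021, nat_lit 0, nat_lit 4, nat_lit 0x49⟩ (t14_5955) (t14_14147))) (.node ⟨nat_lit 7, nat_lit 0x20005000680070, nat_lit 0x1212, nat_lit 0, nat_lit 4, nat_lit 0x44⟩ (.node ⟨nat_lit 5, nat_lit 0x180014, nat_lit 0x104, nat_lit 4, nat_lit 4, nat_lit 0x46⟩ (t14_3907) (t14_12099)) (.node ⟨nat_lit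 8, nat_lit 0x20004000a000c0, nat_lit 0x122011, nat_lit 0, nat_lit 4, nat_lit 0x49⟩ (t14_8003) (.nil)))))
def t14_195 : Tr := .node ⟨nat_lit 6, nat_lit 0x2000080030, nat_lit 0x22231, nat_lit 0, nat_lit 4, nat_lit 0x49⟩ (.nil) (.nil)
def t14_8387 : Tr := .node ⟨nat_lit 3, nat_lit 4, nat_lit 0x123, nat_lit 9, nat_lit 3, nat_lit 0x46⟩ (.nil) (.nil)
def t14_4291 : Tr := .node ⟨nat_lit 8, nat_lit 0x400040004000200080, nat_lit 0x20111111, nat_lit 0, nat_lit 4, nat_lit 0x4a⟩ (.nil) (.nil)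
def t14_12483 : Tr := .node ⟨nat_lit 6, nat_lit 0x300028, nat_lit 0x104, nat_lit 1, nat_lit 4, nat_lit 0x46⟩ (.nil) (.nil)
def t14_2243 : Tr := .node ⟨nat_lit 7, nat_lit 0x400020002000200050, nat_lit 0x2012200, nat_lit 2, nat_lit 4, nat_lit 0x49⟩ (.nil) (.nil)
def t14_10435 : Tr := .node ⟨nat_lit 7, nat_lit 0x2000400064, nat_lit 0x110120, nat_lit 0, nat_lit 4, nat_lit 0x48⟩ (.nil) (.nil)
def t14_6339 : Tr := .node ⟨nat_lit 5, nat_lit 0x100018001c, nat_lit 0x10030, nat_lit 4, nat_lit 4, nat_lit 0x45⟩ (.nil) (.nil)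
def t14_14531 : Tr := .node ⟨nat_lit 6, nat_lit 0x2000300034, nat_lit 0x1211, nat_lit 3, nat_lit 4, nat_lit 0x46⟩ (.nil) (.nil)
def t14_1219 : Tr := .node ⟨nat_lit 6, nat_lit 0x200010, nat_lit 0x11123, nat_lit 0, nat_lit 4, nat_lit 0x49⟩ (.nil) (.nil)
def t14_9411 : Tr := .node ⟨nat_lit 7, nat_lit 0x50003000600060, nat_lit 0x10231, nat_lit 0, nat_lit 4, nat_lit 0x46⟩ (.nil) (.nil)
def t14_5315 : Tr := .node ⟨nat_lit 8, nat_lit 0x1000a000c0, nat_lit 0x11102020, nat_lit 0, nat_lit 4, nat_lit 0x4a⟩ (.nil) (.nil)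
def t14_13507 : Tr := .node ⟨nat_lit 5, nat_lit 0x1000080008, nat_lit 0x100, nat_lit 7, nat_lit 4, nat_lit 0x46⟩ (.nil) (.nil)
def t14_3267 : Tr := .node ⟨nat_lit 7, nat_lit 0x10004000400060, nat_lit 0x110201, nat_lit 1, nat_lit 4, nat_lit 0x48⟩ (.nil) (.nil)
def t14_11459 : Tr := .node ⟨nat_lit 8, nat_lit 0x8000c000c0, nat_lit 0x111120, nat_lit 2, nat_lit 4, nat_lit 0x4a⟩ (.nil) (.nil)
def t14_7363 : Tr := .node ⟨nat_lit 7, nat_lit 0x1000100060, nat_lit 0x1102001, nat_lit 1, nat_lit 4, nat_lit 0x49⟩ (.nil) (.nil)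
def t14_15555 : Tr := .node ⟨nat_lit 8, nat_lit 0x800088008800c0, nat_lit 0x11111111, nat_lit 2, nat_lit 4, nat_lit 0x4a⟩ (.nil) (.nil)
def t14_707 : Tr := .node ⟨nat_lit 7, nat_lit 0x200040004800300060, nat_lit 0x1031111, nat_lit 0, nat_lit 4, nat_lit 0x47⟩ (.nil) (.nil)
def t14_8899 : Tr := .node ⟨nat_lit 7, nat_lit 0x400040002000500050, nat_lit 0x110121, nat_lit 6, nat_lit 4, nat_lit 0x48⟩ (.nil) (.nil)
def t14_4803 : Tr := .node ⟨nat_lit 7, nat_lit 0x200040003000480068, nat_lit 0x1022000, nat_lit 0, nat_lit 4, nat_lit 0x46⟩ (.nil) (.nil)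
def t14_12995 : Tr := .node ⟨nat_lit 4, nat_lit 0x8000c, nat_lit 0x30, nat_lit 9, nat_lit 4, nat_lit 0x46⟩ (.nil) (.nil)
def t14_2755 : Tr := .node ⟨nat_lit 8, nat_lit 0x800080002000c0, nat_lit 0x1112100, nat_lit 1, nat_lit 4, nat_lit 0x4a⟩ (.nil) (.nil)
def t14_10947 : Tr := .node ⟨nat_lit 9, nat_lit 0x80010001000120012000c00180, nat_lit 0x2011002, nat_lit 0, nat_lit 4, nat_lit 0x47⟩ (.nil) (.nil)
def t14_6851 : Tr := .node ⟨nat_lit 7, nat_lit 0x4000440064, nat_lit 0x1111202, nat_lit 0, nat_lit 4, nat_lit 0x49⟩ (.nil) (.nil)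
def t14_15043 : Tr := .node ⟨nat_lit 6, nat_lit 0x2000300028, nat_lit 0x1201, nat_lit 9, nat_lit 4, nat_lit 0x48⟩ (.nil) (.nil)
def t14_1731 : Tr := .node ⟨nat_lit 8, nat_lit 0x800040009000d000e0, nat_lit 0x111112, nat_lit 0, nat_lit 4, nat_lit 0x46⟩ (.nil) (.nil)
def t14_9923 : Tr := .node ⟨nat_lit 5, nat_lit 0x40018, nat_lit 3, nat_lit 4, nat_lit 4, nat_lit 0x45⟩ (.nil) (.nil)
def t14_5827 : Tr := .node ⟨nat_lit 7, nat_lit 0x600060, nat_lit 0x11121, nat_lit 3, nat_lit 4, nat_lit 0x49⟩ (.nil) (.nil)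
def t14_14019 : Tr := .node ⟨nat_lit 4, nat_lit 0x8000a, nat_lit 0x1102, nat_lit 8, nat_lit 4, nat_lit 0x46⟩ (.nil) (.nil)
def t14_3779 : Tr := .node ⟨nat_lit 9, nat_lit 0x100010001000080014001a001c0, nat_lit 0x21002, nat_lit 1, nat_lit 4, nat_lit 0x47⟩ (.nil) (.nil)
def t14_11971 : Tr := .node ⟨nat_lit 8, nat_lit 0x800020004000a000c0, nat_lit 0x121002, nat_lit 1, nat_lit 4, nat_lit 0x48⟩ (.nil) (.nil)
def t14_7875 : Tr := .node ⟨nat_lit 8, nat_lit 0x8000200020009000c0, nat_lit 0x12011, nat_lit 0, nat_lit 4, nat_lit 0x47⟩ (.nil) (.nil)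
def t9_195 : Tr := .node ⟨nat_lit 5, nat_lit 0x100008, nat_lit 0x2321, nat_lit 1, nat_lit 4, nat_lit 0x48⟩ (.node ⟨nat_lit 6, nat_lit 0x20001000280038, nat_lit 0x310102, nat_lit 1, nat_lit 4, nat_lit 0x47⟩ (.node ⟨nat_lit 7, nat_lit 0x20004000400044, nat_lit 0x30212, nat_lit 1, nat_lit 4, nat_lit 0x49⟩ (.node ⟨nat_lit 6, nat_lit 0x80030, nat_lit 0x211103, nat_lit 0, nat_lit 4, nat_lit 0x49⟩ (.node ⟨nat_lit 6, nat_lit 0x20002000100032, nat_lit 0x22021, nat_lit 5, nat_lit 4, nat_lit 0x48⟩ (t14_195) (t14_8387)) (.node ⟨nat_lit 7, nat_lit 0x40001000480068, nat_lit 0x11021, nat_lit 0, nat_lit 4, nat_lit 0x46⟩ (t14_4291) (t14_12483))) (.node ⟨nat_lit 5, nat_lit 0x140018, nat_lit 0x12232, nat_lit 2, nat_lit 4, nat_lit 0x48⟩ (.node ⟨nat_lit 7, nat_lit 0x40002000480068, nat_lit 0x110123, nat_lit 0, nat_lit 4, nat_lit 0x46⟩ (t14_2243) (t14_10435)) (.node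 ⟨nat_lit 5, nat_lit 0x100018, nat_lit 0x1212, nat_lit 7, nat_lit 4, nat_lit 0x48⟩ (t14_6339) (t14_14531)))) (.node ⟨nat_lit 5, nat_lit 0x10, nat_lit 0x12111, nat_lit 3, nat_lit 4, nat_lit 0x49⟩ (.node ⟨nat_lit 6, nat_lit 0x2000080030, nat_lit 0x122211, nat_lit 0, nat_lit 4, nat_lit 0x49⟩ (.node ⟨nat_lit 4, nat_lit 0x40008, nat_lit 0x1141, nat_lit 7, nat_lit 4, nat_lit 0x48⟩ (t14_1219) (t14_9411)) (.node ⟨nat_lit 7, nat_lit 0x2000500060, nat_lit 0x1102112, nat_lit 1, nat_lit 4, nat_lit 0x49⟩ (t14_5315) (t14_13507))) (.node ⟨nat_lit 6, nat_lit 0x800280030, nat_lit 0x11302, nat_lit 1, nat_lit 4, nat_lit 0x47⟩ (.node ⟨nat_lit 6, nat_lit 0x1000100020, nat_lit 0x102000, nat_lit 0, nat_lit 4, nat_lit 0x47⟩ (t14_3267) (t14_11459)) (.node ⟨nat_lit 7, nat_lit 0x40004000480030, nat_lit 0x1111002, nat_lit 1, nat_lit 4, nat_lit 0x48⟩ (t14_7363) (t14_15555)))))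 (.node ⟨nat_lit 4, nat_lit 0xc, nat_lit 0x2031, nat_lit 7, nat_lit 4, nat_lit 0x48⟩ (.node ⟨nat_lit 5, nat_lit 0x18, nat_lit 0x10211, nat_lit 2, nat_lit 4, nat_lit 0x47⟩ (.node ⟨nat_lit 7, nat_lit 0x4000200060, nat_lit 0x121210, nat_lit 0, nat_lit 4, nat_lit 0x49⟩ (.node ⟨nat_lit 7, nat_lit 0x40001000480060, nat_lit 0x1022011, nat_lit 2, nat_lit 4, nat_lit 0x49⟩ (t14_707) (t14_8899)) (.node ⟨nat_lit 7, nat_lit 0x200020004000440064, nat_lit 0x1021200, nat_lit 1, nat_lit 4, nat_lit 0x47⟩ (t14_4803) (t14_12995))) (.node ⟨nat_lit 5, nat_lit 0x18, nat_lit 0x10111, nat_lit 1, nat_lit 3, nat_lit 0x46⟩ (.node ⟨nat_lit 6, nat_lit 0x2000080030, nat_lit 0x21114, nat_lit 0, nat_lit 4, nat_lit 0x48⟩ (t14_2755) (t14_10947)) (.node ⟨nat_lit 7, nat_lit 0x40006800680058, nat_lit 0x1110221, nat_lit 2, nat_lit 4, nat_lit 0x46⟩ (t14_6851) (t14_15043)))) (.node ⟨nat_lit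 5, nat_lit 0x800080010, nat_lit 0x11221, nat_lit 4, nat_lit 4, nat_lit 0x48⟩ (.node ⟨nat_lit 5, nat_lit 0x800100012, nat_lit 0x11211, nat_lit 2, nat_lit 4, nat_lit 0x46⟩ (.node ⟨nat_lit 6, nat_lit 0x1000280034, nat_lit 0x110113, nat_lit 2, nat_lit 4, nat_lit 0x46⟩ (t14_1731) (t14_9923)) (.node ⟨nat_lit 6, nat_lit 0x2000200030, nat_lit 0x22102, nat_lit 4, nat_lit 4, nat_lit 0x49⟩ (t14_5827) (t14_14019))) (.node ⟨nat_lit 6, nat_lit 0x2000100030, nat_lit 0x12110, nat_lit 4, nat_lit 4, nat_lit 0x48⟩ (.node ⟨nat_lit 7, nat_lit 0x20001000600050, nat_lit 0x10203, nat_lit 0, nat_lit 4, nat_lit 0x47⟩ (t14_3779) (t14_11971)) (.node ⟨nat_lit 7, nat_lit 0x6000600070, nat_lit 0x1011212, nat_lit 0, nat_lit 4, nat_lit 0x47⟩ (t14_7875) (.nil)))))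
def t14_451 : Tr := .node ⟨nat_lit 7, nat_lit 0x10001000400060, nat_lit 0x1112101, nat_lit 1, nat_lit 4, nat_lit 0x49⟩ (.nil) (.nil)
def t14_8643 : Tr := .node ⟨nat_lit 5, nat_lit 0x100018001c, nat_lit 0x30, nat_lit 4, nat_lit 4, nat_lit 0x44⟩ (.nil) (.nil)
def t14_4547 : Tr := .node ⟨nat_lit 5, nat_lit 0x100018001c, nat_lit 0x1212, nat_lit 8, nat_lit 4, nat_lit 0x46⟩ (.nil) (.nil)
def t14_12739 : Tr := .node ⟨nat_lit 8, nat_lit 0x200080001000c0, nat_lit 0x2000200, nat_lit 1, nat_lit 4, nat_lit 0x49⟩ (.nil) (.nil)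
def t14_2499 : Tr := .node ⟨nat_lit 8, nat_lit 0x80004000c000a0, nat_lit 0x122010, nat_lit 1, nat_lit 4, nat_lit 0x49⟩ (.nil) (.nil)
def t14_10691 : Tr := .node ⟨nat_lit 6, nat_lit 0x800080030, nat_lit 0x100110, nat_lit 0, nat_lit 4, nat_lit 0x46⟩ (.nil) (.nil)
def t14_6595 : Tr := .node ⟨nat_lit 5, nat_lit 0x800100018, nat_lit 0x1230, nat_lit 4, nat_lit 4, nat_lit 0x47⟩ (.nil) (.nil)
def t14_14787 : Tr := .node ⟨nat_lit 6, nat_lit 0x20001000100028, nat_lit 0x102110, nat_lit 3, nat_lit 4, nat_lit 0x47⟩ (.nil) (.nil)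
def t14_1475 : Tr := .node ⟨nat_lit 8, nat_lit 0x2000400080008000c4, nat_lit 0x1001211, nat_lit 0, nat_lit 4, nat_lit 0x48⟩ (.nil) (.nil)
def t14_9667 : Tr := .node ⟨nat_lit 7, nat_lit 0x40001000600070, nat_lit 0x101022, nat_lit 0, nat_lit 4, nat_lit 0x46⟩ (.nil) (.nil)
def t14_5571 : Tr := .node ⟨nat_lit 8, nat_lit 0x80008000c0, nat_lit 0x1111220, nat_lit 0, nat_lit 4, nat_lit 0x4b⟩ (.nil) (.nil)
def t14_13763 : Tr := .node ⟨nat_lit 8, nat_lit 0x80004000a000c8, nat_lit 0x12000, nat_lit 2, nat_lit 4, nat_lit 0x48⟩ (.nil) (.nil)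
def t14_3523 : Tr := .node ⟨nat_lit 6, nat_lit 0x800300030, nat_lit 0x20, nat_lit 3, nat_lit 4, nat_lit 0x45⟩ (.nil) (.nil)
def t14_11715 : Tr := .node ⟨nat_lit 6, nat_lit 0x300030, nat_lit 0x2110, nat_lit 0, nat_lit 3, nat_lit 0x46⟩ (.nil) (.nil)
def t14_7619 : Tr := .node ⟨nat_lit 7, nat_lit 0x10002000500060, nat_lit 0x1002031, nat_lit 0, nat_lit 4, nat_lit 0x47⟩ (.nil) (.nil)
def t14_963 : Tr := .node ⟨nat_lit 5, nat_lit 0x10001c, nat_lit 0x2003, nat_lit 5, nat_lit 4, nat_lit 0x46⟩ (.nil) (.nil)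
def t14_9155 : Tr := .node ⟨nat_lit 8, nat_lit 0x8000800040009000c000e0, nat_lit 0x111020, nat_lit 3, nat_lit 4, nat_lit 0x47⟩ (.nil) (.nil)
def t14_5059 : Tr := .node ⟨nat_lit 7, nat_lit 0x40001000100060, nat_lit 0x101101, nat_lit 1, nat_lit 4, nat_lit 0x47⟩ (.nil) (.nil)
def t14_13251 : Tr := .node ⟨nat_lit 5, nat_lit 0x100018001c, nat_lit 0x301, nat_lit 7, nat_lit 4, nat_lit 0x46⟩ (.nil) (.nil)
def t14_3011 : Tr := .node ⟨nat_lit 5, nat_lit 0x80010001a, nat_lit 0x10311, nat_lit 4, nat_lit 4, nat_lit 0x46⟩ (.nil) (.nil)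
def t14_11203 : Tr := .node ⟨nat_lit 7, nat_lit 0x4800600070, nat_lit 0x110102, nat_lit 3, nat_lit 4, nat_lit 0x47⟩ (.nil) (.nil)
def t14_7107 : Tr := .node ⟨nat_lit 7, nat_lit 0x4000600060, nat_lit 0x1031111, nat_lit 0, nat_lit 4, nat_lit 0x49⟩ (.nil) (.nil)
def t14_15299 : Tr := .node ⟨nat_lit 8, nat_lit 0x80003000a000c0, nat_lit 0x1100121, nat_lit 1, nat_lit 4, nat_lit 0x48⟩ (.nil) (.nil)
def t14_1987 : Tr := .node ⟨nat_lit 6, nat_lit 0x2000100010, nat_lit 0x2010, nat_lit 5, nat_lit 4, nat_lit 0x48⟩ (.nil) (.nil)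
def t14_10179 : Tr := .node ⟨nat_lit 7, nat_lit 0x6000180050, nat_lit 0x10102, nat_lit 0, nat_lit 4, nat_lit 0x46⟩ (.nil) (.nil)
def t14_6083 : Tr := .node ⟨nat_lit 0xb, nat_lit 0x400020001000080, nat_lit 0x11110000, nat_lit 1, nat_lit 4, nat_lit 0x4e⟩ (.nil) (.nil)
def t14_14275 : Tr := .node ⟨nat_lit 7, nat_lit 0x400040002000200050, nat_lit 0x1001002, nat_lit 2, nat_lit 4, nat_lit 0x47⟩ (.nil) (.nil)
def t14_4035 : Tr := .node ⟨nat_lit 7, nat_lit 0x10002000500060, nat_lit 0x100221, nat_lit 0, nat_lit 4, nat_lit 0x47⟩ (.nil) (.nil)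
def t14_12227 : Tr := .node ⟨nat_lit 8, nat_lit 0x8000a000c0, nat_lit 0x1111120, nat_lit 0, nat_lit 4, nat_lit 0x4a⟩ (.nil) (.nil)
def t14_8131 : Tr := .node ⟨nat_lit 6, nat_lit 0x2000300034, nat_lit 0x11203, nat_lit 3, nat_lit 4, nat_lit 0x47⟩ (.nil) (.nil)
def t9_451 : Tr := .node ⟨nat_lit 6, nat_lit 0x2000080030, nat_lit 0x13032, nat_lit 0, nat_lit 4, nat_lit 0x49⟩ (.node ⟨nat_lit 5, nat_lit 0x100014001c, nat_lit 0x31132, nat_lit 2, nat_lit 4, nat_lit 0x48⟩ (.node ⟨nat_lit 6, nat_lit 0x200030, nat_lit 0x22212, nat_lit 0, nat_lit 4, nat_lit 0x49⟩ (.node ⟨nat_lit 6, nat_lit 0x1000200038, nat_lit 0x100222, nat_lit 0, nat_lit 4, nat_lit 0x46⟩ (.node ⟨nat_lit 5, nat_lit 0x18, nat_lit 0x300, nat_lit 0, nat_lit 4, nat_lit 0x46⟩ (t14_451) (t14_8643)) (.node ⟨nat_lit 5, nat_lit 0x100010001c, nat_lit 0x12202, nat_lit 7, nat_lit 4, nat_lit 0x48⟩ (t14_4547)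 (t14_12739))) (.node ⟨nat_lit 6, nat_lit 0x800200032, nat_lit 0x110022, nat_lit 2, nat_lit 4, nat_lit 0x47⟩ (.node ⟨nat_lit 6, nat_lit 0x2000100038, nat_lit 0x111213, nat_lit 3, nat_lit 4, nat_lit 0x48⟩ (t14_2499) (t14_10691)) (.node ⟨nat_lit 5, nat_lit 0x10, nat_lit 0x12221, nat_lit 5, nat_lit 3, nat_lit 0x49⟩ (t14_6595) (t14_14787)))) (.node ⟨nat_lit 6, nat_lit 0x1000200020, nat_lit 0x12100, nat_lit 0, nat_lit 4, nat_lit 0x47⟩ (.node ⟨nat_lit 6, nat_lit 0x2000100032, nat_lit 0x122321, nat_lit 0, nat_lit 4, nat_lit 0x49⟩ (.node ⟨nat_lit 7, nat_lit 0x10004000500060, nat_lit 0x101001, nat_lit 0, nat_lit 4, nat_lit 0x46⟩ (t14_1475) (t14_9667)) (.node ⟨nat_lit 8, nat_lit 0x800080002000400090, nat_lit 0x11121001, nat_lit 1, nat_lit 4, nat_lit 0x4a⟩ (t14_5571) (t14_13763))) (.node ⟨nat_lit 6, nat_lit 0x2000080030, nat_lit 0x11221, nat_lit 1, nat_lit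 4, nat_lit 0x47⟩ (.node ⟨nat_lit 6, nat_lit 0x2000280034, nat_lit 0x10000, nat_lit 3, nat_lit 4, nat_lit 0x45⟩ (t14_3523) (t14_11715)) (.node ⟨nat_lit 4, nat_lit 0x800080008, nat_lit 0x1310, nat_lit 6, nat_lit 3, nat_lit 0x46⟩ (t14_7619) (.nil))))) (.node ⟨nat_lit 6, nat_lit 0x200030, nat_lit 0x32011, nat_lit 0, nat_lit 4, nat_lit 0x49⟩ (.node ⟨nat_lit 5, nat_lit 0x10, nat_lit 0x12220, nat_lit 0, nat_lit 3, nat_lit 0x48⟩ (.node ⟨nat_lit 6, nat_lit 0x200020, nat_lit 0x122100, nat_lit 1, nat_lit 4, nat_lit 0x4a⟩ (.node ⟨nat_lit 5, nat_lit 0x100012, nat_lit 0x21130, nat_lit 7, nat_lit 4, nat_lit 0x4a⟩ (t14_963) (t14_9155)) (.node ⟨nat_lit 5, nat_lit 0, nat_lit 0x22222, nat_lit 1, nat_lit 3, nat_lit 0x4a⟩ (t14_5059) (t14_13251))) (.node ⟨nat_lit 5, nat_lit 0x40018, nat_lit 0x11131, nat_lit 1, nat_lit 4, nat_lit 0x47⟩ (.node ⟨nat_lit 7, nat_lit 0x20004000600070,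 nat_lit 0x11102, nat_lit 1, nat_lit 4, nat_lit 0x46⟩ (t14_3011) (t14_11203)) (.node ⟨nat_lit 9, nat_lit 0x80010001000120012000c00180, nat_lit 0x12001002, nat_lit 2, nat_lit 4, nat_lit 0x48⟩ (t14_7107) (t14_15299)))) (.node ⟨nat_lit 4, nat_lit 0xc, nat_lit 0x3021, nat_lit 8, nat_lit 4, nat_lit 0x48⟩ (.node ⟨nat_lit 6, nat_lit 0x30, nat_lit 0x302111, nat_lit 2, nat_lit 4, nat_lit 0x4b⟩ (.node ⟨nat_lit 6, nat_lit 0x2000300038, nat_lit 0x12113, nat_lit 3, nat_lit 4, nat_lit 0x47⟩ (t14_1987) (t14_10179)) (.node ⟨nat_lit 8, nat_lit 0x800040004000a000c8, nat_lit 0x1002002, nat_lit 1, nat_lit 4, nat_lit 0x48⟩ (t14_6083) (t14_14275))) (.node ⟨nat_lit 6, nat_lit 0x20002000200010, nat_lit 0x32100, nat_lit 1, nat_lit 3, nat_lit 0x47⟩ (.node ⟨nat_lit 7, nat_lit 0x50005000300060, nat_lit 0x1100031, nat_lit 0, nat_lit 4, nat_lit 0x46⟩ (t14_4035) (t14_12227))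 (.node ⟨nat_lit 7, nat_lit 0x40001000680070, nat_lit 0x1111112, nat_lit 1, nat_lit 4, nat_lit 0x47⟩ (t14_8131) (.nil)))))
def t14_35 : Tr := .node ⟨nat_lit 7, nat_lit 0x4000400020, nat_lit 0x111100, nat_lit 5, nat_lit 4, nat_lit 0x4a⟩ (.nil) (.nil)
def t14_8227 : Tr := .node ⟨nat_lit 8, nat_lit 0x8000400090009000c8, nat_lit 0x1110310, nat_lit 2, nat_lit 4, nat_lit 0x48⟩ (.nil) (.nil)
def t14_4131 : Tr := .node ⟨nat_lit 0xa, nat_lit 0x10002000200020000800210, nat_lit 0x11011001, nat_lit 1, nat_lit 4, nat_lit 0x4b⟩ (.nil) (.nil)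
def t14_12323 : Tr := .node ⟨nat_lit 8, nat_lit 0x40009000c000e0, nat_lit 0x101103, nat_lit 1, nat_lit 4, nat_lit 0x47⟩ (.nil) (.nil)
def t14_2083 : Tr := .node ⟨nat_lit 7, nat_lit 0x400040004000200020, nat_lit 0x120031, nat_lit 1, nat_lit 4, nat_lit 0x49⟩ (.nil) (.nil)
def t14_10275 : Tr := .node ⟨nat_lit 8, nat_lit 0x800080004000a000e000d0, nat_lit 0x10012020, nat_lit 3, nat_lit 4, nat_lit 0x47⟩ (.nil) (.nil)
def t14_6179 : Tr := .node ⟨nat_lit 5, nat_lit 0x100010001c, nat_lit 0x1111, nat_lit 6, nat_lit 4, nat_lit 0x46⟩ (.nil) (.nil)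
def t14_14371 : Tr := .node ⟨nat_lit 6, nat_lit 0x800300028, nat_lit 0x110, nat_lit 2, nat_lit 4, nat_lit 0x45⟩ (.nil) (.nil)
def t14_1059 : Tr := .node ⟨nat_lit 7, nat_lit 0x2000400042, nat_lit 0x11020, nat_lit 0, nat_lit 4, nat_lit 0x48⟩ (.nil) (.nil)
def t14_9251 : Tr := .node ⟨nat_lit 7, nat_lit 0x400020006000700068, nat_lit 0x21201, nat_lit 4, nat_lit 4, nat_lit 0x46⟩ (.nil) (.nil)
def t14_5155 : Tr := .node ⟨nat_lit 8, nat_lit 0x800080002000c0, nat_lit 0x1013001, nat_lit 2, nat_lit 4, nat_lit 0x4a⟩ (.nil) (.nil)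
def t14_13347 : Tr := .node ⟨nat_lit 7, nat_lit 0x20001000600050, nat_lit 0x2300, nat_lit 2, nat_lit 4, nat_lit 0x47⟩ (.nil) (.nil)
def t14_3107 : Tr := .node ⟨nat_lit 8, nat_lit 0x400080002000a000c8, nat_lit 0x1001021, nat_lit 0, nat_lit 4, nat_lit 0x47⟩ (.nil) (.nil)
def t14_11299 : Tr := .node ⟨nat_lit 7, nat_lit 0x5000500060, nat_lit 0x101302, nat_lit 0, nat_lit 4, nat_lit 0x47⟩ (.nil) (.nil)
def t14_7203 : Tr := .node ⟨nat_lit 7, nat_lit 0x20005000600060, nat_lit 0x22111, nat_lit 0, nat_lit 4, nat_lit 0x47⟩ (.nil) (.nil)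
def t14_15395 : Tr := .node ⟨nat_lit 0xa, nat_lit 0x10000800080004000400200, nat_lit 0x1000010101, nat_lit 4, nat_lit 4, nat_lit 0x4b⟩ (.nil) (.nil)
def t14_547 : Tr := .node ⟨nat_lit 6, nat_lit 0x20001000280030, nat_lit 0x2022, nat_lit 2, nat_lit 4, nat_lit 0x46⟩ (.nil) (.nil)
def t14_8739 : Tr := .node ⟨nat_lit 7, nat_lit 0x40001000480060, nat_lit 0x1010, nat_lit 2, nat_lit 4, nat_lit 0x46⟩ (.nil) (.nil)
def t14_4643 : Tr := .node ⟨nat_lit 7, nat_lit 0x40001000100060, nat_lit 0x1012101, nat_lit 0, nat_lit 4, nat_lit 0x48⟩ (.nil) (.nil)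
def t14_12835 : Tr := .node ⟨nat_lit 7, nat_lit 0x10006000600050, nat_lit 0x11220, nat_lit 0, nat_lit 4, nat_lit 0x46⟩ (.nil) (.nil)
def t14_2595 : Tr := .node ⟨nat_lit 7, nat_lit 0x800500060, nat_lit 0x201013, nat_lit 0, nat_lit 4, nat_lit 0x48⟩ (.nil) (.nil)
def t14_10787 : Tr := .node ⟨nat_lit 7, nat_lit 0x40004000100020, nat_lit 0x121011, nat_lit 4, nat_lit 3, nat_lit 0x48⟩ (.nil) (.nil)
def t14_6691 : Tr := .node ⟨nat_lit 9, nat_lit 0x1000080008000400040, nat_lit 0x101010, nat_lit 3, nat_lit 4, nat_lit 0x4a⟩ (.nil) (.nil)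
def t14_14883 : Tr := .node ⟨nat_lit 8, nat_lit 0x8000800040, nat_lit 0x1221100, nat_lit 0, nat_lit 3, nat_lit 0x4a⟩ (.nil) (.nil)
def t14_1571 : Tr := .node ⟨nat_lit 7, nat_lit 0x40001000500060, nat_lit 0x102230, nat_lit 0, nat_lit 4, nat_lit 0x47⟩ (.nil) (.nil)
def t14_9763 : Tr := .node ⟨nat_lit 8, nat_lit 0x4000a000a000c0, nat_lit 0x11200, nat_lit 0, nat_lit 4, nat_lit 0x47⟩ (.nil) (.nil)
def t14_5667 : Tr := .node ⟨nat_lit 7, nat_lit 0x40004000100060, nat_lit 0x10012, nat_lit 1, nat_lit 4, nat_lit 0x47⟩ (.nil) (.nil)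
def t14_13859 : Tr := .node ⟨nat_lit 7, nat_lit 0x40001000100060, nat_lit 0x102310, nat_lit 0, nat_lit 4, nat_lit 0x48⟩ (.nil) (.nil)
def t14_3619 : Tr := .node ⟨nat_lit 7, nat_lit 0x4000600060, nat_lit 0x21010, nat_lit 1, nat_lit 4, nat_lit 0x48⟩ (.nil) (.nil)
def t14_11811 : Tr := .node ⟨nat_lit 6, nat_lit 0x1000300028, nat_lit 0x100213, nat_lit 1, nat_lit 4, nat_lit 0x46⟩ (.nil) (.nil)
def t14_7715 : Tr := .node ⟨nat_lit 4, nat_lit 0xc, nat_lit 0x12, nat_lit 8, nat_lit 4, nat_lit 0x46⟩ (.nil) (.nil)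
def t9_35 : Tr := .node ⟨nat_lit 4, nat_lit 8, nat_lit 0x3321, nat_lit 3, nat_lit 4, nat_lit 0x4a⟩ (.node ⟨nat_lit 5, nat_lit 0x18, nat_lit 0x21312, nat_lit 3, nat_lit 4, nat_lit 0x4a⟩ (.node ⟨nat_lit 6, nat_lit 0x3000300030, nat_lit 0x4220, nat_lit 1, nat_lit 4, nat_lit 0x47⟩ (.node ⟨nat_lit 5, nat_lit 0x180018, nat_lit 0x10211, nat_lit 4, nat_lit 4, nat_lit 0x46⟩ (.node ⟨nat_lit 5, nat_lit 0x100018, nat_lit 0x12313, nat_lit 2, nat_lit 4, nat_lit 0x49⟩ (t14_35) (t14_8227)) (.node ⟨nat_lit 5, nat_lit 0x40018, nat_lit 0x11200, nat_lit 2, nat_lit 4, nat_lit 0x47⟩ (t14_4131) (t14_12323))) (.node ⟨nat_lit 3, nat_lit 6, nat_lit 0x222, nat_lit 0xc, nat_lit 4, nat_lit 0x48⟩ (.node ⟨nat_lit 4, nat_lit 0x80004, nat_lit 0x2203, nat_lit 5, nat_lit 3, nat_lit 0x47⟩ (t14_2083) (t14_10275)) (.node ⟨nat_lit 8, nat_lit 0x400080006000a000d0, nat_lit 0x1022001,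 nat_lit 0, nat_lit 4, nat_lit 0x47⟩ (t14_6179) (t14_14371)))) (.node ⟨nat_lit 6, nat_lit 0x2000080030, nat_lit 0x12320, nat_lit 1, nat_lit 4, nat_lit 0x48⟩ (.node ⟨nat_lit 6, nat_lit 0x1800280030, nat_lit 0x112112, nat_lit 1, nat_lit 4, nat_lit 0x47⟩ (.node ⟨nat_lit 6, nat_lit 0x80030, nat_lit 0x111111, nat_lit 0, nat_lit 4, nat_lit 0x48⟩ (t14_1059) (t14_9251)) (.node ⟨nat_lit 5, nat_lit 0x40018, nat_lit 0x11202, nat_lit 5, nat_lit 4, nat_lit 0x48⟩ (t14_5155) (t14_13347))) (.node ⟨nat_lit 3, nat_lit 4, nat_lit 0x220, nat_lit 0xc, nat_lit 4, nat_lit 0x48⟩ (.node ⟨nat_lit 8, nat_lit 0x400080002000c0, nat_lit 0x11010003, nat_lit 2, nat_lit 4, nat_lit 0x4a⟩ (t14_3107) (t14_11299)) (.node ⟨nat_lit 7, nat_lit 0x40003000500060, nat_lit 0x100222, nat_lit 0, nat_lit 4, nat_lit 0x46⟩ (t14_7203) (t14_15395))))) (.node ⟨nat_lit 7, nat_lit 0x400020, nat_lit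 0x131100, nat_lit 1, nat_lit 4, nat_lit 0x4b⟩ (.node ⟨nat_lit 5, nat_lit 0x80010, nat_lit 0x21211, nat_lit 5, nat_lit 4, nat_lit 0x49⟩ (.node ⟨nat_lit 6, nat_lit 0x300028, nat_lit 0x210, nat_lit 1, nat_lit 4, nat_lit 0x46⟩ (.node ⟨nat_lit 8, nat_lit 0x8000800090009000b000e0, nat_lit 0x2001021, nat_lit 1, nat_lit 4, nat_lit 0x46⟩ (t14_547) (t14_8739)) (.node ⟨nat_lit 6, nat_lit 0x10001000200038, nat_lit 0x111202, nat_lit 5, nat_lit 4, nat_lit 0x48⟩ (t14_4643) (t14_12835))) (.node ⟨nat_lit 5, nat_lit 0x40018, nat_lit 0x11001, nat_lit 2, nat_lit 4, nat_lit 0x45⟩ (.node ⟨nat_lit 5, nat_lit 0x18001c, nat_lit 0x11203, nat_lit 5, nat_lit 4, nat_lit 0x47⟩ (t14_2595) (t14_10787)) (.node ⟨nat_lit 7, nat_lit 0x5000500060, nat_lit 0x211201, nat_lit 1, nat_lit 4, nat_lit 0x48⟩ (t14_6691) (t14_14883)))) (.node ⟨nat_lit 6, nat_lit 0x2000080030, nat_lit 0x12012,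 nat_lit 0, nat_lit 4, nat_lit 0x47⟩ (.node ⟨nat_lit 7, nat_lit 0x1000400060, nat_lit 0x2002001, nat_lit 1, nat_lit 4, nat_lit 0x49⟩ (.node ⟨nat_lit 4, nat_lit 0x8000c, nat_lit 0x123, nat_lit 7, nat_lit 4, nat_lit 0x46⟩ (t14_1571) (t14_9763)) (.node ⟨nat_lit 6, nat_lit 0x2000100038, nat_lit 0x110101, nat_lit 1, nat_lit 4, nat_lit 0x46⟩ (t14_5667) (t14_13859))) (.node ⟨nat_lit 6, nat_lit 0x800080030, nat_lit 0x200102, nat_lit 2, nat_lit 4, nat_lit 0x47⟩ (.node ⟨nat_lit 6, nat_lit 0x200030, nat_lit 0x11100, nat_lit 0, nat_lit 4, nat_lit 0x47⟩ (t14_3619) (t14_11811)) (.node ⟨nat_lit 7, nat_lit 0x20001000500068, nat_lit 0x1102020, nat_lit 1, nat_lit 4, nat_lit 0x47⟩ (t14_7715) (.nil)))))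
def t14_291 : Tr := .node ⟨nat_lit 6, nat_lit 0x800280030, nat_lit 0x120111, nat_lit 2, nat_lit 4, nat_lit 0x47⟩ (.nil) (.nil)
def t14_8483 : Tr := .node ⟨nat_lit 7, nat_lit 0x10004000440060, nat_lit 0x100241, nat_lit 1, nat_lit 4, nat_lit 0x48⟩ (.nil) (.nil)
def t14_4387 : Tr := .node ⟨nat_lit 6, nat_lit 0x800300030, nat_lit 0x101021, nat_lit 1, nat_lit 4, nat_lit 0x46⟩ (.nil) (.nil)
def t14_12579 : Tr := .node ⟨nat_lit 7, nat_lit 0x2800480070, nat_lit 0x110013, nat_lit 0, nat_lit 4, nat_lit 0x46⟩ (.nil) (.nil)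
def t14_2339 : Tr := .node ⟨nat_lit 4, nat_lit 0x40008, nat_lit 0x203, nat_lit 6, nat_lit 4, nat_lit 0x47⟩ (.nil) (.nil)
def t14_10531 : Tr := .node ⟨nat_lit 8, nat_lit 0x8000c0003000a0, nat_lit 0x2002, nat_lit 0, nat_lit 4, nat_lit 0x47⟩ (.nil) (.nil)
def t14_6435 : Tr := .node ⟨nat_lit 6, nat_lit 0x2000240030, nat_lit 0x111111, nat_lit 4, nat_lit 4, nat_lit 0x48⟩ (.nil) (.nil)
def t14_14627 : Tr := .node ⟨nat_lit 7, nat_lit 0x400020005000500060, nat_lit 0x111111, nat_lit 3, nat_lit 4, nat_lit 0x47⟩ (.nil) (.nil)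
def t14_1315 : Tr := .node ⟨nat_lit 6, nat_lit 0x200030, nat_lit 0x11112, nat_lit 2, nat_lit 4, nat_lit 0x48⟩ (.nil) (.nil)
def t14_9507 : Tr := .node ⟨nat_lit 6, nat_lit 0x200020003000280038, nat_lit 0x111101, nat_lit 9, nat_lit 4, nat_lit 0x47⟩ (.nil) (.nil)
def t14_5411 : Tr := .node ⟨nat_lit 7, nat_lit 0x400060, nat_lit 0x111132, nat_lit 0, nat_lit 4, nat_lit 0x4a⟩ (.nil) (.nil)
def t14_13603 : Tr := .node ⟨nat_lit 5, nat_lit 0x1000140018, nat_lit 2, nat_lit 7, nat_lit 4, nat_lit 0x45⟩ (.nil) (.nil)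
def t14_3363 : Tr := .node ⟨nat_lit 8, nat_lit 0x400080008000c000d000c8, nat_lit 0x210210, nat_lit 1, nat_lit 4, nat_lit 0x46⟩ (.nil) (.nil)
def t14_11555 : Tr := .node ⟨nat_lit 8, nat_lit 0x1000a000c000c0, nat_lit 0x1100210, nat_lit 1, nat_lit 4, nat_lit 0x48⟩ (.nil) (.nil)
def t14_7459 : Tr := .node ⟨nat_lit 5, nat_lit 0x18, nat_lit 0x10111, nat_lit 9, nat_lit 4, nat_lit 0x49⟩ (.nil) (.nil)
def t14_803 : Tr := .node ⟨nat_lit 7, nat_lit 0x40004000100060, nat_lit 0x113011, nat_lit 3, nat_lit 4, nat_lit 0x49⟩ (.nil) (.nil)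
def t14_8995 : Tr := .node ⟨nat_lit 9, nat_lit 0x100010000800080014001200180, nat_lit 0x1110002, nat_lit 1, nat_lit 4, nat_lit 0x48⟩ (.nil) (.nil)
def t14_4899 : Tr := .node ⟨nat_lit 8, nat_lit 0x8000c0, nat_lit 0x11111111, nat_lit 0, nat_lit 4, nat_lit 0x4c⟩ (.nil) (.nil)
def t14_13091 : Tr := .node ⟨nat_lit 7, nat_lit 0x400020002800500068, nat_lit 0x12002, nat_lit 1, nat_lit 4, nat_lit 0x45⟩ (.nil) (.nil)
def t14_2851 : Tr := .node ⟨nat_lit 6, nat_lit 0xc0030, nat_lit 0x101020, nat_lit 3, nat_lit 4, nat_lit 0x47⟩ (.nil) (.nil)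
def t14_11043 : Tr := .node ⟨nat_lit 5, nat_lit 0x180018, nat_lit 0x11120, nat_lit 7, nat_lit 4, nat_lit 0x48⟩ (.nil) (.nil)
def t14_6947 : Tr := .node ⟨nat_lit 7, nat_lit 0x20002000500060, nat_lit 0x1021012, nat_lit 1, nat_lit 4, nat_lit 0x48⟩ (.nil) (.nil)
def t14_15139 : Tr := .node ⟨nat_lit 8, nat_lit 0x8000900060006000d0, nat_lit 0x10011201, nat_lit 0, nat_lit 4, nat_lit 0x46⟩ (.nil) (.nil)
def t14_1827 : Tr := .node ⟨nat_lit 7, nat_lit 0x2000500064, nat_lit 0x1121020, nat_lit 1, nat_lit 4, nat_lit 0x49⟩ (.nil) (.nil)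
def t14_10019 : Tr := .node ⟨nat_lit 7, nat_lit 0x40002000200060, nat_lit 0x110202, nat_lit 0, nat_lit 3, nat_lit 0x47⟩ (.nil) (.nil)
def t14_5923 : Tr := .node ⟨nat_lit 7, nat_lit 0x40001000600060, nat_lit 0x11130, nat_lit 1, nat_lit 4, nat_lit 0x47⟩ (.nil) (.nil)
def t14_14115 : Tr := .node ⟨nat_lit 7, nat_lit 0x40001000600068, nat_lit 0x110, nat_lit 1, nat_lit 4, nat_lit 0x45⟩ (.nil) (.nil)
def t14_3875 : Tr := .node ⟨nat_lit 7, nat_lit 0x4000440060, nat_lit 0x211112, nat_lit 1, nat_lit 4, nat_lit 0x49⟩ (.nil) (.nil)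
def t14_12067 : Tr := .node ⟨nat_lit 7, nat_lit 0x200040004000680064, nat_lit 0x1021001, nat_lit 5, nat_lit 4, nat_lit 0x47⟩ (.nil) (.nil)
def t14_7971 : Tr := .node ⟨nat_lit 6, nat_lit 0x20002000280028, nat_lit 0x11221, nat_lit 7, nat_lit 4, nat_lit 0x48⟩ (.nil) (.nil)
def t9_291 : Tr := .node ⟨nat_lit 6, nat_lit 0x300030, nat_lit 0x4221, nat_lit 0, nat_lit 4, nat_lit 0x48⟩ (.node ⟨nat_lit 6, nat_lit 0x800080030, nat_lit 0x320102, nat_lit 1, nat_lit 4, nat_lit 0x49⟩ (.node ⟨nat_lit 9, nat_lit 0x1000080, nat_lit 0x3111100, nat_lit 0, nat_lit 4, nat_lit 0x4e⟩ (.node ⟨nat_lit 4, nat_lit 0x8000a, nat_lit 0x1113, nat_lit 4, nat_lit 4, nat_lit 0x46⟩ (.node ⟨nat_lit 7, nat_lit 0x400040002000200050, nat_lit 0x1201210, nat_lit 1, nat_lit 4, nat_lit 0x49⟩ (t14_291) (t14_8483)) (.node ⟨nat_lit 7, nat_lit 0x40004000100060, nat_lit 0x1110013, nat_lit 0, nat_lit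 3, nat_lit 0x47⟩ (t14_4387) (t14_12579))) (.node ⟨nat_lit 7, nat_lit 0x10004000440060, nat_lit 0x2000222, nat_lit 2, nat_lit 4, nat_lit 0x49⟩ (.node ⟨nat_lit 8, nat_lit 0x40004000800060008800c0, nat_lit 0x10112003, nat_lit 1, nat_lit 4, nat_lit 0x48⟩ (t14_2339) (t14_10531)) (.node ⟨nat_lit 7, nat_lit 0x5000500060, nat_lit 0x211102, nat_lit 1, nat_lit 4, nat_lit 0x48⟩ (t14_6435) (t14_14627)))) (.node ⟨nat_lit 5, nat_lit 0x40018, nat_lit 0x20111, nat_lit 1, nat_lit 4, nat_lit 0x46⟩ (.node ⟨nat_lit 6, nat_lit 0x800200030, nat_lit 0x122212, nat_lit 0, nat_lit 4, nat_lit 0x49⟩ (.node ⟨nat_lit 6, nat_lit 0x2000100010, nat_lit 0x1000, nat_lit 3, nat_lit 3, nat_lit 0x46⟩ (t14_1315) (t14_9507)) (.node ⟨nat_lit 7, nat_lit 0x20006000500068, nat_lit 0x110220, nat_lit 0, nat_lit 4, nat_lit 0x46⟩ (t14_5411) (t14_13603))) (.node ⟨nat_lit 6, nat_lit 0x1000080020,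 nat_lit 0x201201, nat_lit 1, nat_lit 4, nat_lit 0x48⟩ (.node ⟨nat_lit 6, nat_lit 0x10002000200030, nat_lit 0x113100, nat_lit 0, nat_lit 3, nat_lit 0x46⟩ (t14_3363) (t14_11555)) (.node ⟨nat_lit 7, nat_lit 0x20004000100060, nat_lit 0x1111112, nat_lit 2, nat_lit 4, nat_lit 0x49⟩ (t14_7459) (.nil))))) (.node ⟨nat_lit 6, nat_lit 0x200030, nat_lit 0x13201, nat_lit 0, nat_lit 4, nat_lit 0x49⟩ (.node ⟨nat_lit 5, nat_lit 0x18, nat_lit 0x11202, nat_lit 0, nat_lit 4, nat_lit 0x47⟩ (.node ⟨nat_lit 5, nat_lit 0x80010, nat_lit 0x10100, nat_lit 1, nat_lit 4, nat_lit 0x45⟩ (.node ⟨nat_lit 6, nat_lit 0x2000100024, nat_lit 0x222200, nat_lit 0, nat_lit 4, nat_lit 0x4a⟩ (t14_803) (t14_8995)) (.node ⟨nat_lit 5, nat_lit 0x100018, nat_lit 0x11202, nat_lit 9, nat_lit 4, nat_lit 0x49⟩ (t14_4899) (t14_13091))) (.node ⟨nat_lit 5, nat_lit 0x1000080014, nat_lit 0x1111, nat_lit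 3, nat_lit 4, nat_lit 0x45⟩ (.node ⟨nat_lit 7, nat_lit 0x4800500060, nat_lit 0x121131, nat_lit 0, nat_lit 4, nat_lit 0x48⟩ (t14_2851) (t14_11043)) (.node ⟨nat_lit 7, nat_lit 0x40001000600070, nat_lit 0x110222, nat_lit 0, nat_lit 4, nat_lit 0x47⟩ (t14_6947) (t14_15139)))) (.node ⟨nat_lit 6, nat_lit 0x1000200030, nat_lit 0x111112, nat_lit 2, nat_lit 4, nat_lit 0x48⟩ (.node ⟨nat_lit 5, nat_lit 0x800080010, nat_lit 0x12220, nat_lit 2, nat_lit 3, nat_lit 0x47⟩ (.node ⟨nat_lit 4, nat_lit 8, nat_lit 0x1114, nat_lit 5, nat_lit 3, nat_lit 0x47⟩ (t14_1827) (t14_10019)) (.node ⟨nat_lit 7, nat_lit 0x4000200060, nat_lit 0x121102, nat_lit 0, nat_lit 4, nat_lit 0x49⟩ (t14_5923) (t14_14115))) (.node ⟨nat_lit 7, nat_lit 0x10001000400060, nat_lit 0x12130, nat_lit 0, nat_lit 4, nat_lit 0x48⟩ (.node ⟨nat_lit 6, nat_lit 0x20001000280038, nat_lit 0x110203, nat_lit 2,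 nat_lit 4, nat_lit 0x46⟩ (t14_3875) (t14_12067)) (.node ⟨nat_lit 7, nat_lit 0x10002000500060, nat_lit 0x1011102, nat_lit 0, nat_lit 4, nat_lit 0x47⟩ (t14_7971) (.nil)))))
def t14_163 : Tr := .node ⟨nat_lit 7, nat_lit 0x40002000100060, nat_lit 0x1012201, nat_lit 0, nat_lit 4, nat_lit 0x48⟩ (.nil) (.nil)
def t14_8355 : Tr := .node ⟨nat_lit 7, nat_lit 0x400020002000500060, nat_lit 0x22040, nat_lit 0, nat_lit 4, nat_lit 0x47⟩ (.nil) (.nil)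
def t14_4259 : Tr := .node ⟨nat_lit 7, nat_lit 0x40004800680068, nat_lit 0x2020010, nat_lit 1, nat_lit 4, nat_lit 0x47⟩ (.nil) (.nil)
def t14_12451 : Tr := .node ⟨nat_lit 7, nat_lit 0x40002000480060, nat_lit 0x10104, nat_lit 1, nat_lit 4, nat_lit 0x47⟩ (.nil) (.nil)
def t14_2211 : Tr := .node ⟨nat_lit 8, nat_lit 0x800080002000c0, nat_lit 0x122200, nat_lit 0, nat_lit 4, nat_lit 0x4a⟩ (.nil) (.nil)
def t14_10403 : Tr := .node ⟨nat_lit 7, nat_lit 0x40001000100060, nat_lit 0x103002, nat_lit 3, nat_lit 4, nat_lit 0x48⟩ (.nil) (.nil)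
def t14_6307 : Tr := .node ⟨nat_lit 6, nat_lit 0x10002000300034, nat_lit 0x102110, nat_lit 3, nat_lit 4, nat_lit 0x46⟩ (.nil) (.nil)
def t14_14499 : Tr := .node ⟨nat_lit 9, nat_lit 0x40010000800180, nat_lit 0x110102, nat_lit 0, nat_lit 4, nat_lit 0x4a⟩ (.nil) (.nil)
def t14_1187 : Tr := .node ⟨nat_lit 7, nat_lit 0x500060, nat_lit 0x11111, nat_lit 0, nat_lit 4, nat_lit 0x48⟩ (.nil) (.nil)
def t14_9379 : Tr := .node ⟨nat_lit 6, nat_lit 0x20002000100030, nat_lit 0x12122, nat_lit 4, nat_lit 4, nat_lit 0x48⟩ (.nil) (.nil)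
def t14_5283 : Tr := .node ⟨nat_lit 6, nat_lit 0x2000100008, nat_lit 0x221001, nat_lit 0, nat_lit 3, nat_lit 0x48⟩ (.nil) (.nil)
def t14_13475 : Tr := .node ⟨nat_lit 8, nat_lit 0x4000a000c0, nat_lit 0x11003, nat_lit 1, nat_lit 4, nat_lit 0x49⟩ (.nil) (.nil)
def t14_3235 : Tr := .node ⟨nat_lit 7, nat_lit 0x40004000100060, nat_lit 0x21112, nat_lit 0, nat_lit 4, nat_lit 0x48⟩ (.nil) (.nil)
def t14_11427 : Tr := .node ⟨nat_lit 7, nat_lit 0x4000100060, nat_lit 0x1001010, nat_lit 1, nat_lit 4, nat_lit 0x48⟩ (.nil) (.nil)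
def t14_7331 : Tr := .node ⟨nat_lit 8, nat_lit 0x8000800040004000a000a0, nat_lit 0x11112010, nat_lit 0, nat_lit 4, nat_lit 0x49⟩ (.nil) (.nil)
def t14_15523 : Tr := .node ⟨nat_lit 8, nat_lit 0x4000800060009000c000d0, nat_lit 0x10121110, nat_lit 0, nat_lit 4, nat_lit 0x47⟩ (.nil) (.nil)
def t14_675 : Tr := .node ⟨nat_lit 6, nat_lit 0x800200030, nat_lit 0x110301, nat_lit 1, nat_lit 4, nat_lit 0x47⟩ (.nil) (.nil)
def t14_8867 : Tr := .node ⟨nat_lit 7, nat_lit 0x40002000480048, nat_lit 0x111131, nat_lit 2, nat_lit 4, nat_lit 0x48⟩ (.nil) (.nil)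
def t14_4771 : Tr := .node ⟨nat_lit 6, nat_lit 0x800300028, nat_lit 0x100212, nat_lit 4, nat_lit 4, nat_lit 0x47⟩ (.nil) (.nil)
def t14_12963 : Tr := .node ⟨nat_lit 4, nat_lit 0x8000c000c, nat_lit 0x210, nat_lit 0xb, nat_lit 4, nat_lit 0x46⟩ (.nil) (.nil)
def t14_2723 : Tr := .node ⟨nat_lit 7, nat_lit 0x40001000500060, nat_lit 0x12210, nat_lit 3, nat_lit 4, nat_lit 0x48⟩ (.nil) (.nil)
def t14_10915 : Tr := .node ⟨nat_lit 7, nat_lit 0x10001000600050, nat_lit 0x1003002, nat_lit 0, nat_lit 4, nat_lit 0x48⟩ (.nil) (.nil)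
def t14_6819 : Tr := .node ⟨nat_lit 8, nat_lit 0x80008000c0, nat_lit 0x111110, nat_lit 0, nat_lit 4, nat_lit 0x4a⟩ (.nil) (.nil)
def t14_15011 : Tr := .node ⟨nat_lit 7, nat_lit 0x40004800600050, nat_lit 0x21101, nat_lit 1, nat_lit 4, nat_lit 0x47⟩ (.nil) (.nil)
def t14_1699 : Tr := .node ⟨nat_lit 8, nat_lit 0x800080008800c0, nat_lit 0x1101012, nat_lit 0, nat_lit 4, nat_lit 0x49⟩ (.nil) (.nil)
def t14_9891 : Tr := .node ⟨nat_lit 5, nat_lit 0x1000180018, nat_lit 0x220, nat_lit 0xc, nat_lit 4, nat_lit 0x47⟩ (.nil) (.nil)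
def t14_5795 : Tr := .node ⟨nat_lit 7, nat_lit 0x400060, nat_lit 0x111112, nat_lit 2, nat_lit 4, nat_lit 0x4a⟩ (.nil) (.nil)
def t14_13987 : Tr := .node ⟨nat_lit 7, nat_lit 0x1000100060, nat_lit 0x1112, nat_lit 2, nat_lit 4, nat_lit 0x48⟩ (.nil) (.nil)
def t14_3747 : Tr := .node ⟨nat_lit 8, nat_lit 0x800040004000e000c800d0, nat_lit 0x212000, nat_lit 1, nat_lit 4, nat_lit 0x46⟩ (.nil) (.nil)
def t14_11939 : Tr := .node ⟨nat_lit 8, nat_lit 0x400080008000200088, nat_lit 0x1030, nat_lit 2, nat_lit 4, nat_lit 0x48⟩ (.nil) (.nil)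
def t14_7843 : Tr := .node ⟨nat_lit 7, nat_lit 0x20004000440044, nat_lit 0x10121, nat_lit 1, nat_lit 4, nat_lit 0x47⟩ (.nil) (.nil)
def t9_163 : Tr := .node ⟨nat_lit 3, nat_lit 0, nat_lit 0x322, nat_lit 9, nat_lit 4, nat_lit 0x49⟩ (.node ⟨nat_lit 6, nat_lit 0x200030, nat_lit 0x103112, nat_lit 1, nat_lit 4, nat_lit 0x49⟩ (.node ⟨nat_lit 6, nat_lit 0x200030, nat_lit 0x14012, nat_lit 0, nat_lit 4, nat_lit 0x49⟩ (.node ⟨nat_lit 3, nat_lit 4, nat_lit 0x120, nat_lit 6, nat_lit 4, nat_lit 0x45⟩ (.node ⟨nat_lit 8, nat_lit 0x800080004000880090, nat_lit 0x2111211, nat_lit 0, nat_lit 4, nat_lit 0x49⟩ (t14_163) (t14_8355)) (.node ⟨nat_lit 7, nat_lit 0x40002000480070, nat_lit 0x101013, nat_lit 4, nat_lit 4, nat_lit 0x47⟩ (t14_4259) (t14_12451))) (.node ⟨nat_lit 2, nat_lit 0, nat_lit 0x42, nat_lit 0xa, nat_lit 3, nat_lit 0x47⟩ (.node ⟨nat_lit 7, nat_lit 0x40002000600050,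 nat_lit 0x22004, nat_lit 0, nat_lit 4, nat_lit 0x48⟩ (t14_2211) (t14_10403)) (.node ⟨nat_lit 6, nat_lit 0x300028, nat_lit 0x1312, nat_lit 3, nat_lit 4, nat_lit 0x48⟩ (t14_6307) (t14_14499)))) (.node ⟨nat_lit 5, nat_lit 0x80010, nat_lit 0x12111, nat_lit 3, nat_lit 4, nat_lit 0x48⟩ (.node ⟨nat_lit 7, nat_lit 0x2000500060, nat_lit 0x2011012, nat_lit 1, nat_lit 4, nat_lit 0x49⟩ (.node ⟨nat_lit 7, nat_lit 0x40001000200060, nat_lit 0x10401, nat_lit 1, nat_lit 4, nat_lit 0x48⟩ (t14_1187) (t14_9379)) (.node ⟨nat_lit 6, nat_lit 0x20001000280030, nat_lit 0x112211, nat_lit 4, nat_lit 4, nat_lit 0x48⟩ (t14_5283) (t14_13475))) (.node ⟨nat_lit 7, nat_lit 0x40002000500068, nat_lit 0x112210, nat_lit 0, nat_lit 4, nat_lit 0x47⟩ (.node ⟨nat_lit 7, nat_lit 0x4000100060, nat_lit 0x1012310, nat_lit 0, nat_lit 4, nat_lit 0x4a⟩ (t14_3235) (t14_11427)) (.node ⟨nat_lit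 6, nat_lit 0x2000200034, nat_lit 0x111112, nat_lit 2, nat_lit 4, nat_lit 0x48⟩ (t14_7331) (t14_15523))))) (.node ⟨nat_lit 4, nat_lit 0x8000c, nat_lit 0x1313, nat_lit 4, nat_lit 4, nat_lit 0x48⟩ (.node ⟨nat_lit 6, nat_lit 0x280030, nat_lit 0x121112, nat_lit 0, nat_lit 4, nat_lit 0x48⟩ (.node ⟨nat_lit 6, nat_lit 0x10001000200022, nat_lit 0x201100, nat_lit 0, nat_lit 4, nat_lit 0x46⟩ (.node ⟨nat_lit 3, nat_lit 4, nat_lit 0x142, nat_lit 6, nat_lit 4, nat_lit 0x48⟩ (t14_675) (t14_8867)) (.node ⟨nat_lit 8, nat_lit 0x8000400040009000c8, nat_lit 0x11112011, nat_lit 0, nat_lit 4, nat_lit 0x49⟩ (t14_4771) (t14_12963))) (.node ⟨nat_lit 6, nat_lit 0x2000080030, nat_lit 0x11110, nat_lit 0, nat_lit 4, nat_lit 0x46⟩ (.node ⟨nat_lit 6, nat_lit 0x20001000100028, nat_lit 0x12302, nat_lit 1, nat_lit 4, nat_lit 0x47⟩ (t14_2723) (t14_10915)) (.node ⟨nat_lit 6, nat_lit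 0x800300030, nat_lit 0x111122, nat_lit 4, nat_lit 4, nat_lit 0x48⟩ (t14_6819) (t14_15011)))) (.node ⟨nat_lit 4, nat_lit 0x80008, nat_lit 0x1132, nat_lit 2, nat_lit 3, nat_lit 0x46⟩ (.node ⟨nat_lit 7, nat_lit 0x100060, nat_lit 0x2011101, nat_lit 1, nat_lit 4, nat_lit 0x4a⟩ (.node ⟨nat_lit 5, nat_lit 0x18001c, nat_lit 0x10013, nat_lit 3, nat_lit 4, nat_lit 0x44⟩ (t14_1699) (t14_9891)) (.node ⟨nat_lit 7, nat_lit 0x20004000600068, nat_lit 0x122200, nat_lit 1, nat_lit 4, nat_lit 0x48⟩ (t14_5795) (t14_13987))) (.node ⟨nat_lit 7, nat_lit 0x4000600060, nat_lit 0x20210, nat_lit 0, nat_lit 4, nat_lit 0x48⟩ (.node ⟨nat_lit 6, nat_lit 0x1000280034, nat_lit 0x100103, nat_lit 2, nat_lit 4, nat_lit 0x45⟩ (t14_3747) (t14_11939)) (.node ⟨nat_lit 4, nat_lit 0xe, nat_lit 0x1102, nat_lit 3, nat_lit 4, nat_lit 0x44⟩ (t14_7843) (.nil)))))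
def t14_419 : Tr := .node ⟨nat_lit 7, nat_lit 0x4000500060, nat_lit 0x1102201, nat_lit 0, nat_lit 4, nat_lit 0x49⟩ (.nil) (.nil)
def t14_8611 : Tr := .node ⟨nat_lit 7, nat_lit 0x400020002000500068, nat_lit 0x12010, nat_lit 3, nat_lit 4, nat_lit 0x46⟩ (.nil) (.nil)
def t14_4515 : Tr := .node ⟨nat_lit 8, nat_lit 0x200080008400c0, nat_lit 0x11020201, nat_lit 0, nat_lit 4, nat_lit 0x4a⟩ (.nil) (.nil)
def t14_12707 : Tr := .node ⟨nat_lit 6, nat_lit 0x200030, nat_lit 0x102120, nat_lit 2, nat_lit 4, nat_lit 0x49⟩ (.nil) (.nil)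
def t14_2467 : Tr := .node ⟨nat_lit 6, nat_lit 0x2000300030, nat_lit 0x2221, nat_lit 2, nat_lit 4, nat_lit 0x47⟩ (.nil) (.nil)
def t14_10659 : Tr := .node ⟨nat_lit 7, nat_lit 0x4800500060, nat_lit 0x1120, nat_lit 0, nat_lit 4, nat_lit 0x46⟩ (.nil) (.nil)
def t14_6563 : Tr := .node ⟨nat_lit 8, nat_lit 0x800020008800c0, nat_lit 0x10110101, nat_lit 1, nat_lit 4, nat_lit 0x49⟩ (.nil) (.nil)
def t14_14755 : Tr := .node ⟨nat_lit 7, nat_lit 0x20001000600050, nat_lit 0x10112, nat_lit 2, nat_lit 4, nat_lit 0x47⟩ (.nil) (.nil)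
def t14_1443 : Tr := .node ⟨nat_lit 6, nat_lit 0x20001000280030, nat_lit 0x12112, nat_lit 4, nat_lit 4, nat_lit 0x47⟩ (.nil) (.nil)
def t14_9635 : Tr := .node ⟨nat_lit 6, nat_lit 0x20002000100030, nat_lit 0x2112, nat_lit 4, nat_lit 4, nat_lit 0x47⟩ (.nil) (.nil)
def t14_5539 : Tr := .node ⟨nat_lit 6, nat_lit 0x2000100030, nat_lit 0x1213, nat_lit 2, nat_lit 4, nat_lit 0x47⟩ (.nil) (.nil)
def t14_13731 : Tr := .node ⟨nat_lit 7, nat_lit 0x40003000580068, nat_lit 0x11, nat_lit 0, nat_lit 4, nat_lit 0x43⟩ (.nil) (.nil)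
def t14_3491 : Tr := .node ⟨nat_lit 7, nat_lit 0x10006000600050, nat_lit 0x201, nat_lit 3, nat_lit 4, nat_lit 0x46⟩ (.nil) (.nil)
def t14_11683 : Tr := .node ⟨nat_lit 7, nat_lit 0x400060007000700070, nat_lit 0x1001210, nat_lit 5, nat_lit 4, nat_lit 0x45⟩ (.nil) (.nil)
def t14_7587 : Tr := .node ⟨nat_lit 5, nat_lit 0x800100012, nat_lit 0x120, nat_lit 3, nat_lit 4, nat_lit 0x45⟩ (.nil) (.nil)
def t14_931 : Tr := .node ⟨nat_lit 7, nat_lit 0x40004000400020, nat_lit 0x112211, nat_lit 2, nat_lit 4, nat_lit 0x4a⟩ (.nil) (.nil)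
def t14_9123 : Tr := .node ⟨nat_lit 0xa, nat_lit 0x200020001000080022002400300, nat_lit 0x11100011, nat_lit 1, nat_lit 4, nat_lit 0x49⟩ (.nil) (.nil)
def t14_5027 : Tr := .node ⟨nat_lit 6, nat_lit 0x3000280028, nat_lit 0x11141, nat_lit 2, nat_lit 4, nat_lit 0x47⟩ (.nil) (.nil)
def t14_13219 : Tr := .node ⟨nat_lit 7, nat_lit 0x40002000200048, nat_lit 0x2000, nat_lit 1, nat_lit 4, nat_lit 0x47⟩ (.nil) (.nil)
def t14_2979 : Tr := .node ⟨nat_lit 8, nat_lit 0x400080002000c0, nat_lit 0x112002, nat_lit 0, nat_lit 4, nat_lit 0x49⟩ (.nil) (.nil)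
def t14_11171 : Tr := .node ⟨nat_lit 6, nat_lit 0x2000300030, nat_lit 0x101020, nat_lit 3, nat_lit 4, nat_lit 0x47⟩ (.nil) (.nil)
def t14_7075 : Tr := .node ⟨nat_lit 8, nat_lit 0x20008000c000c0, nat_lit 0x1010211, nat_lit 1, nat_lit 4, nat_lit 0x49⟩ (.nil) (.nil)
def t14_15267 : Tr := .node ⟨nat_lit 7, nat_lit 0x40005000300060, nat_lit 0x111121, nat_lit 1, nat_lit 4, nat_lit 0x47⟩ (.nil) (.nil)
def t14_1955 : Tr := .node ⟨nat_lit 7, nat_lit 0x40001000100060, nat_lit 0x201002, nat_lit 2, nat_lit 4, nat_lit 0x48⟩ (.nil) (.nil)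
def t14_10147 : Tr := .node ⟨nat_lit 6, nat_lit 0x2000100008, nat_lit 0x100002, nat_lit 2, nat_lit 3, nat_lit 0x46⟩ (.nil) (.nil)
def t14_6051 : Tr := .node ⟨nat_lit 8, nat_lit 0x200080008000c0, nat_lit 0x1211111, nat_lit 0, nat_lit 4, nat_lit 0x4a⟩ (.nil) (.nil)
def t14_14243 : Tr := .node ⟨nat_lit 7, nat_lit 0x10006000600050, nat_lit 0x101110, nat_lit 1, nat_lit 4, nat_lit 0x46⟩ (.nil) (.nil)
def t14_4003 : Tr := .node ⟨nat_lit 6, nat_lit 0x2000080030, nat_lit 0x100220, nat_lit 2, nat_lit 4, nat_lit 0x47⟩ (.nil) (.nil)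
def t14_12195 : Tr := .node ⟨nat_lit 7, nat_lit 0x20006000500068, nat_lit 0x112201, nat_lit 1, nat_lit 4, nat_lit 0x47⟩ (.nil) (.nil)
def t14_8099 : Tr := .node ⟨nat_lit 5, nat_lit 0x1000080014, nat_lit 0x11114, nat_lit 2, nat_lit 4, nat_lit 0x47⟩ (.nil) (.nil)
def t9_419 : Tr := .node ⟨nat_lit 6, nat_lit 0x2000200010, nat_lit 0x123112, nat_lit 0, nat_lit 4, nat_lit 0x4a⟩ (.node ⟨nat_lit 6, nat_lit 0x2000200030, nat_lit 0x13211, nat_lit 3, nat_lit 4, nat_lit 0x49⟩ (.node ⟨nat_lit 5, nat_lit 0x18, nat_lit 0x10222, nat_lit 0, nat_lit 4, nat_lit 0x47⟩ (.node ⟨nat_lit 5, nat_lit 0x1c, nat_lit 0x11002, nat_lit 0, nat_lit 4, nat_lit 0x45⟩ (.node ⟨nat_lit 6, nat_lit 0x800280030, nat_lit 0x120211, nat_lit 0, nat_lit 4, nat_lit 0x47⟩ (t14_419) (t14_8611)) (.node ⟨nat_lit 8, nat_lit 0x8000800084, nat_lit 0x11111201, nat_lit 2, nat_lit 4, nat_lit 0x4c⟩ (t14_4515)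 (t14_12707))) (.node ⟨nat_lit 6, nat_lit 0x200030, nat_lit 0x201112, nat_lit 2, nat_lit 4, nat_lit 0x49⟩ (.node ⟨nat_lit 7, nat_lit 0x10004000200062, nat_lit 0x111110, nat_lit 0, nat_lit 4, nat_lit 0x47⟩ (t14_2467) (t14_10659)) (.node ⟨nat_lit 6, nat_lit 0x2000200020, nat_lit 0x21220, nat_lit 6, nat_lit 4, nat_lit 0x4a⟩ (t14_6563) (t14_14755)))) (.node ⟨nat_lit 2, nat_lit 0, nat_lit 0x21, nat_lit 9, nat_lit 4, nat_lit 0x45⟩ (.node ⟨nat_lit 5, nat_lit 0x100008, nat_lit 0x12221, nat_lit 3, nat_lit 4, nat_lit 0x49⟩ (.node ⟨nat_lit 6, nat_lit 0x300030, nat_lit 0x1110, nat_lit 2, nat_lit 4, nat_lit 0x46⟩ (t14_1443) (t14_9635)) (.node ⟨nat_lit 8, nat_lit 0x80004000400088, nat_lit 0x11210210, nat_lit 1, nat_lit 4, nat_lit 0x4b⟩ (t14_5539) (t14_13731))) (.node ⟨nat_lit 6, nat_lit 0x2000200020, nat_lit 0x11210, nat_lit 5, nat_lit 4, nat_lit 0x49⟩ (.node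 ⟨nat_lit 6, nat_lit 0x2000080010, nat_lit 0x11000, nat_lit 1, nat_lit 3, nat_lit 0x46⟩ (t14_3491) (t14_11683)) (.node ⟨nat_lit 5, nat_lit 0x100008, nat_lit 0x11102, nat_lit 5, nat_lit 3, nat_lit 0x47⟩ (t14_7587) (.nil))))) (.node ⟨nat_lit 6, nat_lit 0x1000100020, nat_lit 0x302100, nat_lit 1, nat_lit 4, nat_lit 0x49⟩ (.node ⟨nat_lit 6, nat_lit 0x1000200034, nat_lit 0x122111, nat_lit 0, nat_lit 4, nat_lit 0x48⟩ (.node ⟨nat_lit 6, nat_lit 0x20, nat_lit 0x11111, nat_lit 1, nat_lit 4, nat_lit 0x49⟩ (.node ⟨nat_lit 7, nat_lit 0x40, nat_lit 0x2211110, nat_lit 2, nat_lit 4, nat_lit 0x4d⟩ (t14_931) (t14_9123)) (.node ⟨nat_lit 5, nat_lit 0x100012, nat_lit 0x12220, nat_lit 5, nat_lit 4, nat_lit 0x49⟩ (t14_5027) (t14_13219))) (.node ⟨nat_lit 6, nat_lit 0x800300030, nat_lit 0x110030, nat_lit 2, nat_lit 4, nat_lit 0x47⟩ (.node ⟨nat_lit 7, nat_lit 0x1000200040,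 nat_lit 0x1111211, nat_lit 0, nat_lit 4, nat_lit 0x4a⟩ (t14_2979) (t14_11171)) (.node ⟨nat_lit 8, nat_lit 0x800040009000a000c8, nat_lit 0x1102010, nat_lit 0, nat_lit 4, nat_lit 0x47⟩ (t14_7075) (t14_15267)))) (.node ⟨nat_lit 3, nat_lit 4, nat_lit 0x211, nat_lit 0xa, nat_lit 4, nat_lit 0x47⟩ (.node ⟨nat_lit 6, nat_lit 0x800200030, nat_lit 0x201021, nat_lit 1, nat_lit 3, nat_lit 0x47⟩ (.node ⟨nat_lit 4, nat_lit 0x8000c, nat_lit 0x1113, nat_lit 8, nat_lit 4, nat_lit 0x47⟩ (t14_1955) (t14_10147)) (.node ⟨nat_lit 5, nat_lit 0x1000080018, nat_lit 0x21200, nat_lit 1, nat_lit 3, nat_lit 0x46⟩ (t14_6051) (t14_14243))) (.node ⟨nat_lit 7, nat_lit 0x20004000600064, nat_lit 0x1012110, nat_lit 0, nat_lit 4, nat_lit 0x47⟩ (.node ⟨nat_lit 7, nat_lit 0x4000100060, nat_lit 0x100001, nat_lit 0, nat_lit 4, nat_lit 0x47⟩ (t14_4003) (t14_12195)) (.node ⟨nat_lit 7, nat_lit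 0x400020005000500028, nat_lit 0x111210, nat_lit 1, nat_lit 4, nat_lit 0x46⟩ (t14_8099) (.nil)))))
def t14_99 : Tr := .node ⟨nat_lit 7, nat_lit 0x20004000100060, nat_lit 0x1021111, nat_lit 3, nat_lit 4, nat_lit 0x49⟩ (.nil) (.nil)
def t14_8291 : Tr := .node ⟨nat_lit 7, nat_lit 0x40001000100060, nat_lit 0x3100, nat_lit 1, nat_lit 4, nat_lit 0x47⟩ (.nil) (.nil)
def t14_4195 : Tr := .node ⟨nat_lit 7, nat_lit 0x40004000100068, nat_lit 0x112112, nat_lit 1, nat_lit 4, nat_lit 0x48⟩ (.nil) (.nil)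
def t14_12387 : Tr := .node ⟨nat_lit 7, nat_lit 0x40004000680068, nat_lit 0x10010, nat_lit 3, nat_lit 4, nat_lit 0x46⟩ (.nil) (.nil)
def t14_2147 : Tr := .node ⟨nat_lit 7, nat_lit 0x1000500060, nat_lit 0x1111022, nat_lit 0, nat_lit 4, nat_lit 0x49⟩ (.nil) (.nil)
def t14_10339 : Tr := .node ⟨nat_lit 7, nat_lit 0x20006000500068, nat_lit 0x111202, nat_lit 2, nat_lit 4, nat_lit 0x47⟩ (.nil) (.nil)
def t14_6243 : Tr := .node ⟨nat_lit 6, nat_lit 0x20, nat_lit 0x111110, nat_lit 2, nat_lit 4, nat_lit 0x4a⟩ (.nil) (.nil)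
def t14_14435 : Tr := .node ⟨nat_lit 8, nat_lit 0x800040004000a000c8, nat_lit 0x2121, nat_lit 0, nat_lit 4, nat_lit 0x47⟩ (.nil) (.nil)
def t14_1123 : Tr := .node ⟨nat_lit 7, nat_lit 0x4000440060, nat_lit 0x11201, nat_lit 1, nat_lit 4, nat_lit 0x48⟩ (.nil) (.nil)
def t14_9315 : Tr := .node ⟨nat_lit 6, nat_lit 0x10002000300034, nat_lit 0x102012, nat_lit 4, nat_lit 4, nat_lit 0x46⟩ (.nil) (.nil)
def t14_5219 : Tr := .node ⟨nat_lit 9, nat_lit 0x800100010001000108, nat_lit 0x1102111, nat_lit 0, nat_lit 4, nat_lit 0x4b⟩ (.nil) (.nil)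
def t14_13411 : Tr := .node ⟨nat_lit 7, nat_lit 0x40004000480030, nat_lit 0x2103, nat_lit 0, nat_lit 4, nat_lit 0x47⟩ (.nil) (.nil)
def t14_3171 : Tr := .node ⟨nat_lit 8, nat_lit 0x80001000a000c0, nat_lit 0x1111012, nat_lit 0, nat_lit 4, nat_lit 0x49⟩ (.nil) (.nil)
def t14_11363 : Tr := .node ⟨nat_lit 7, nat_lit 0x2000400060, nat_lit 0x11010, nat_lit 2, nat_lit 3, nat_lit 0x47⟩ (.nil) (.nil)
def t14_7267 : Tr := .node ⟨nat_lit 7, nat_lit 0x40004000480030, nat_lit 0x200201, nat_lit 3, nat_lit 4, nat_lit 0x48⟩ (.nil) (.nil)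
def t14_15459 : Tr := .node ⟨nat_lit 0xb, nat_lit 0x4000200010000800080, nat_lit 0x1100010, nat_lit 4, nat_lit 4, nat_lit 0x4d⟩ (.nil) (.nil)
def t14_611 : Tr := .node ⟨nat_lit 6, nat_lit 0x100020, nat_lit 0x2010, nat_lit 0, nat_lit 4, nat_lit 0x47⟩ (.nil) (.nil)
def t14_8803 : Tr := .node ⟨nat_lit 7, nat_lit 0x400040002000500050, nat_lit 0x10041, nat_lit 4, nat_lit 4, nat_lit 0x48⟩ (.nil) (.nil)
def t14_4707 : Tr := .node ⟨nat_lit 8, nat_lit 0x800040002000a000d0, nat_lit 0x10010102, nat_lit 0, nat_lit 4, nat_lit 0x47⟩ (.nil) (.nil)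
def t14_12899 : Tr := .node ⟨nat_lit 7, nat_lit 0x200040004000480060, nat_lit 0x31000, nat_lit 3, nat_lit 4, nat_lit 0x47⟩ (.nil) (.nil)
def t14_2659 : Tr := .node ⟨nat_lit 5, nat_lit 0x40018, nat_lit 0x200, nat_lit 1, nat_lit 4, nat_lit 0x45⟩ (.nil) (.nil)
def t14_10851 : Tr := .node ⟨nat_lit 9, nat_lit 0x400100010001080180, nat_lit 0x10102102, nat_lit 0, nat_lit 4, nat_lit 0x4a⟩ (.nil) (.nil)
def t14_6755 : Tr := .node ⟨nat_lit 6, nat_lit 0xc0030, nat_lit 0x112001, nat_lit 3, nat_lit 4, nat_lit 0x48⟩ (.nil) (.nil)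
def t14_14947 : Tr := .node ⟨nat_lit 9, nat_lit 0x100010000800080014001200120, nat_lit 0x1110111, nat_lit 1, nat_lit 4, nat_lit 0x48⟩ (.nil) (.nil)
def t14_1635 : Tr := .node ⟨nat_lit 7, nat_lit 0x40002000480068, nat_lit 0x1011200, nat_lit 0, nat_lit 4, nat_lit 0x47⟩ (.nil) (.nil)
def t14_9827 : Tr := .node ⟨nat_lit 7, nat_lit 0x1800180060, nat_lit 0x1010221, nat_lit 0, nat_lit 4, nat_lit 0x47⟩ (.nil) (.nil)
def t14_5731 : Tr := .node ⟨nat_lit 6, nat_lit 0x10002000300034, nat_lit 0x101002, nat_lit 3, nat_lit 4, nat_lit 0x45⟩ (.nil) (.nil)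
def t14_13923 : Tr := .node ⟨nat_lit 8, nat_lit 0x8000400090009000c0, nat_lit 0x102200, nat_lit 0, nat_lit 4, nat_lit 0x47⟩ (.nil) (.nil)
def t14_3683 : Tr := .node ⟨nat_lit 7, nat_lit 0x500060, nat_lit 0x2110, nat_lit 0, nat_lit 4, nat_lit 0x48⟩ (.nil) (.nil)
def t14_11875 : Tr := .node ⟨nat_lit 5, nat_lit 0x1000100018, nat_lit 0x10110, nat_lit 3, nat_lit 3, nat_lit 0x45⟩ (.nil) (.nil)
def t14_7779 : Tr := .node ⟨nat_lit 5, nat_lit 0x180018, nat_lit 0x132, nat_lit 5, nat_lit 4, nat_lit 0x46⟩ (.nil) (.nil)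
def t9_99 : Tr := .node ⟨nat_lit 5, nat_lit 0x80010, nat_lit 0x31111, nat_lit 7, nat_lit 4, nat_lit 0x4a⟩ (.node ⟨nat_lit 6, nat_lit 0x1000100020, nat_lit 0x213102, nat_lit 1, nat_lit 4, nat_lit 0x4a⟩ (.node ⟨nat_lit 6, nat_lit 0x1000200030, nat_lit 0x2130, nat_lit 0, nat_lit 4, nat_lit 0x47⟩ (.node ⟨nat_lit 6, nat_lit 0x1000200022, nat_lit 0x102011, nat_lit 1, nat_lit 4, nat_lit 0x47⟩ (.node ⟨nat_lit 6, nat_lit 0x2000200010, nat_lit 0x121113, nat_lit 2, nat_lit 4, nat_lit 0x4a⟩ (t14_99) (t14_8291)) (.node ⟨nat_lit 5, nat_lit 0x140018, nat_lit 0x2002, nat_lit 4, nat_lit 4, nat_lit 0x46⟩ (t14_4195) (t14_12387))) (.node ⟨nat_lit 5, nat_lit 0x800080010, nat_lit 0x21111, nat_lit 4, nat_lit 4, nat_lit 0x48⟩ (.node ⟨nat_lit 6, nat_lit 0x1000200020, nat_lit 0x10010, nat_lit 1, nat_lit 3, nat_lit 0x46⟩ (t14_2147) (t14_10339)) (.node ⟨nat_lit 6, nat_lit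 0x800200010, nat_lit 0x12022, nat_lit 0, nat_lit 4, nat_lit 0x48⟩ (t14_6243) (t14_14435)))) (.node ⟨nat_lit 3, nat_lit 4, nat_lit 0x220, nat_lit 6, nat_lit 4, nat_lit 0x46⟩ (.node ⟨nat_lit 7, nat_lit 0x4000100060, nat_lit 0x2111111, nat_lit 1, nat_lit 4, nat_lit 0x4a⟩ (.node ⟨nat_lit 8, nat_lit 0x800020002000c0, nat_lit 0x11013101, nat_lit 0, nat_lit 4, nat_lit 0x4a⟩ (t14_1123) (t14_9315)) (.node ⟨nat_lit 7, nat_lit 0x4000600060, nat_lit 0x111221, nat_lit 2, nat_lit 4, nat_lit 0x49⟩ (t14_5219) (t14_13411))) (.node ⟨nat_lit 5, nat_lit 0x40018, nat_lit 0x22011, nat_lit 2, nat_lit 4, nat_lit 0x47⟩ (.node ⟨nat_lit 6, nat_lit 0x300038, nat_lit 0x102103, nat_lit 0, nat_lit 4, nat_lit 0x47⟩ (t14_3171) (t14_11363)) (.node ⟨nat_lit 7, nat_lit 0x40001000580068, nat_lit 0x101012, nat_lit 0, nat_lit 4, nat_lit 0x45⟩ (t14_7267) (t14_15459))))) (.node ⟨nat_lit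 6, nat_lit 0x2000100008, nat_lit 0x3002, nat_lit 3, nat_lit 4, nat_lit 0x49⟩ (.node ⟨nat_lit 5, nat_lit 0x1000080014, nat_lit 0x21201, nat_lit 5, nat_lit 4, nat_lit 0x48⟩ (.node ⟨nat_lit 6, nat_lit 0x1000200030, nat_lit 0x2201, nat_lit 2, nat_lit 4, nat_lit 0x47⟩ (.node ⟨nat_lit 5, nat_lit 0x800080010, nat_lit 0x12201, nat_lit 3, nat_lit 4, nat_lit 0x48⟩ (t14_611) (t14_8803)) (.node ⟨nat_lit 5, nat_lit 0x1000100008, nat_lit 0x12312, nat_lit 4, nat_lit 4, nat_lit 0x49⟩ (t14_4707) (t14_12899))) (.node ⟨nat_lit 5, nat_lit 0x100008, nat_lit 0x1101, nat_lit 2, nat_lit 4, nat_lit 0x46⟩ (.node ⟨nat_lit 5, nat_lit 0x100018, nat_lit 0x12114, nat_lit 3, nat_lit 4, nat_lit 0x49⟩ (t14_2659) (t14_10851)) (.node ⟨nat_lit 7, nat_lit 0x40002000100060, nat_lit 0x1111001, nat_lit 0, nat_lit 3, nat_lit 0x47⟩ (t14_6755) (t14_14947)))) (.node ⟨nat_lit 7, nat_lit 0x40001000100068,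 nat_lit 0x2101100, nat_lit 1, nat_lit 4, nat_lit 0x48⟩ (.node ⟨nat_lit 6, nat_lit 0x2000080030, nat_lit 0x201220, nat_lit 0, nat_lit 4, nat_lit 0x48⟩ (.node ⟨nat_lit 1, nat_lit 0, nat_lit 1, nat_lit 8, nat_lit 4, nat_lit 0x41⟩ (t14_1635) (t14_9827)) (.node ⟨nat_lit 7, nat_lit 0x10004000400064, nat_lit 0x200212, nat_lit 1, nat_lit 4, nat_lit 0x48⟩ (t14_5731) (t14_13923))) (.node ⟨nat_lit 6, nat_lit 0x1000200038, nat_lit 0x10220, nat_lit 0, nat_lit 4, nat_lit 0x46⟩ (.node ⟨nat_lit 7, nat_lit 0x20004000400064, nat_lit 0x1010000, nat_lit 1, nat_lit 4, nat_lit 0x47⟩ (t14_3683) (t14_11875)) (.node ⟨nat_lit 7, nat_lit 0x4000600060, nat_lit 0x1021121, nat_lit 0, nat_lit 4, nat_lit 0x49⟩ (t14_7779) (.nil)))))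
def t14_355 : Tr := .node ⟨nat_lit 8, nat_lit 0x4000200080008400c4, nat_lit 0x21112001, nat_lit 0, nat_lit 4, nat_lit 0x49⟩ (.nil) (.nil)
def t14_8547 : Tr := .node ⟨nat_lit 5, nat_lit 0x1000100018001c, nat_lit 0x1021, nat_lit 7, nat_lit 4, nat_lit 0x45⟩ (.nil) (.nil)
def t14_4451 : Tr := .node ⟨nat_lit 8, nat_lit 0x400080002000a000c8, nat_lit 0x11002011, nat_lit 0, nat_lit 4, nat_lit 0x48⟩ (.nil) (.nil)
def t14_12643 : Tr := .node ⟨nat_lit 7, nat_lit 0x4000500064, nat_lit 0x100201, nat_lit 0, nat_lit 4, nat_lit 0x47⟩ (.nil) (.nil)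
def t14_2403 : Tr := .node ⟨nat_lit 6, nat_lit 0x2000300034, nat_lit 0x103020, nat_lit 2, nat_lit 4, nat_lit 0x47⟩ (.nil) (.nil)
def t14_10595 : Tr := .node ⟨nat_lit 6, nat_lit 0x2000240018, nat_lit 0x200100, nat_lit 0, nat_lit 4, nat_lit 0x46⟩ (.nil) (.nil)
def t14_6499 : Tr := .node ⟨nat_lit 7, nat_lit 0x20004000400010, nat_lit 0x111001, nat_lit 1, nat_lit 4, nat_lit 0x48⟩ (.nil) (.nil)
def t14_14691 : Tr := .node ⟨nat_lit 8, nat_lit 0x80004000a000e000d000d0, nat_lit 0x111111, nat_lit 2, nat_lit 4, nat_lit 0x45⟩ (.nil) (.nil)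
def t14_1379 : Tr := .node ⟨nat_lit 8, nat_lit 0x400040008000d000d0, nat_lit 0x1101310, nat_lit 0, nat_lit 4, nat_lit 0x48⟩ (.nil) (.nil)
def t14_9571 : Tr := .node ⟨nat_lit 7, nat_lit 0x400040006000700070, nat_lit 0x11220, nat_lit 4, nat_lit 4, nat_lit 0x46⟩ (.nil) (.nil)
def t14_5475 : Tr := .node ⟨nat_lit 6, nat_lit 0x2000240030, nat_lit 0x1311, nat_lit 5, nat_lit 4, nat_lit 0x48⟩ (.nil) (.nil)
def t14_13667 : Tr := .node ⟨nat_lit 5, nat_lit 0x100008, nat_lit 0x312, nat_lit 1, nat_lit 4, nat_lit 0x47⟩ (.nil) (.nil)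
def t14_3427 : Tr := .node ⟨nat_lit 6, nat_lit 0x2000080030, nat_lit 0x112011, nat_lit 1, nat_lit 4, nat_lit 0x48⟩ (.nil) (.nil)
def t14_11619 : Tr := .node ⟨nat_lit 7, nat_lit 0x20004000600060, nat_lit 0x11310, nat_lit 1, nat_lit 4, nat_lit 0x48⟩ (.nil) (.nil)
def t14_7523 : Tr := .node ⟨nat_lit 3, nat_lit 0x40006, nat_lit 0x22, nat_lit 0xf, nat_lit 4, nat_lit 0x46⟩ (.nil) (.nil)
def t14_867 : Tr := .node ⟨nat_lit 7, nat_lit 0x200040004800300060, nat_lit 0x1022020, nat_lit 1, nat_lit 4, nat_lit 0x47⟩ (.nil) (.nil)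
def t14_9059 : Tr := .node ⟨nat_lit 7, nat_lit 0x10005000500060, nat_lit 0x100212, nat_lit 3, nat_lit 4, nat_lit 0x47⟩ (.nil) (.nil)
def t14_4963 : Tr := .node ⟨nat_lit 5, nat_lit 0x1000180018, nat_lit 0x1310, nat_lit 9, nat_lit 4, nat_lit 0x47⟩ (.nil) (.nil)
def t14_13155 : Tr := .node ⟨nat_lit 8, nat_lit 0x800040004000a000a000d0, nat_lit 0x220100, nat_lit 2, nat_lit 4, nat_lit 0x47⟩ (.nil) (.nil)
def t14_2915 : Tr := .node ⟨nat_lit 8, nat_lit 0x4000a000c000c8, nat_lit 0x121201, nat_lit 0, nat_lit 4, nat_lit 0x48⟩ (.nil) (.nil)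
def t14_11107 : Tr := .node ⟨nat_lit 9, nat_lit 0x40002001800180, nat_lit 0x10020, nat_lit 1, nat_lit 4, nat_lit 0x49⟩ (.nil) (.nil)
def t14_7011 : Tr := .node ⟨nat_lit 7, nat_lit 0x40001000600060, nat_lit 0x1012111, nat_lit 1, nat_lit 4, nat_lit 0x48⟩ (.nil) (.nil)
def t14_15203 : Tr := .node ⟨nat_lit 8, nat_lit 0x8000400020009000c0, nat_lit 0x1012011, nat_lit 1, nat_lit 4, nat_lit 0x48⟩ (.nil) (.nil)
def t14_1891 : Tr := .node ⟨nat_lit 7, nat_lit 0x20006000500068, nat_lit 0x211211, nat_lit 0, nat_lit 4, nat_lit 0x47⟩ (.nil) (.nil)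
def t14_10083 : Tr := .node ⟨nat_lit 7, nat_lit 0x20005000500060, nat_lit 0x103202, nat_lit 1, nat_lit 4, nat_lit 0x47⟩ (.nil) (.nil)
def t14_5987 : Tr := .node ⟨nat_lit 5, nat_lit 0x100018, nat_lit 0x12210, nat_lit 5, nat_lit 4, nat_lit 0x49⟩ (.nil) (.nil)
def t14_14179 : Tr := .node ⟨nat_lit 8, nat_lit 0x200040008000c000c8, nat_lit 0x1001120, nat_lit 3, nat_lit 4, nat_lit 0x48⟩ (.nil) (.nil)
def t14_3939 : Tr := .node ⟨nat_lit 7, nat_lit 0x20001000400060, nat_lit 0x100201, nat_lit 1, nat_lit 4, nat_lit 0x47⟩ (.nil) (.nil)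
def t14_12131 : Tr := .node ⟨nat_lit 7, nat_lit 0x40005000300060, nat_lit 0x101101, nat_lit 1, nat_lit 4, nat_lit 0x46⟩ (.nil) (.nil)
def t14_8035 : Tr := .node ⟨nat_lit 5, nat_lit 0x100012, nat_lit 0x2113, nat_lit 3, nat_lit 4, nat_lit 0x47⟩ (.nil) (.nil)
def t9_355 : Tr := .node ⟨nat_lit 4, nat_lit 0, nat_lit 0x3331, nat_lit 1, nat_lit 4, nat_lit 0x4b⟩ (.node ⟨nat_lit 7, nat_lit 0x4000100020, nat_lit 0x113010, nat_lit 5, nat_lit 4, nat_lit 0x4b⟩ (.node ⟨nat_lit 4, nat_lit 8, nat_lit 0x2112, nat_lit 9, nat_lit 4, nat_lit 0x49⟩ (.node ⟨nat_lit 5, nat_lit 0x180018, nat_lit 0x21120, nat_lit 2, nat_lit 3, nat_lit 0x46⟩ (.node ⟨nat_lit 8, nat_lit 0x80004000200010, nat_lit 0x120011, nat_lit 5, nat_lit 4, nat_lit 0x4b⟩ (t14_355) (t14_8547)) (.node ⟨nat_lit 6, nat_lit 0x2000200030, nat_lit 0x11104, nat_lit 2, nat_lit 4, nat_lit 0x48⟩ (t14_4451) (t14_12643)))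 (.node ⟨nat_lit 7, nat_lit 0x1000400060, nat_lit 0x2101012, nat_lit 2, nat_lit 4, nat_lit 0x4a⟩ (.node ⟨nat_lit 7, nat_lit 0x4000100060, nat_lit 0x1001103, nat_lit 0, nat_lit 4, nat_lit 0x48⟩ (t14_2403) (t14_10595)) (.node ⟨nat_lit 6, nat_lit 0x200030, nat_lit 0x2130, nat_lit 3, nat_lit 4, nat_lit 0x49⟩ (t14_6499) (t14_14691)))) (.node ⟨nat_lit 7, nat_lit 0x1000080060, nat_lit 0x1002022, nat_lit 0, nat_lit 4, nat_lit 0x49⟩ (.node ⟨nat_lit 6, nat_lit 0x200022, nat_lit 0x222220, nat_lit 0, nat_lit 4, nat_lit 0x4b⟩ (.node ⟨nat_lit 4, nat_lit 0xc, nat_lit 0x1014, nat_lit 5, nat_lit 4, nat_lit 0x46⟩ (t14_1379) (t14_9571)) (.node ⟨nat_lit 7, nat_lit 0x40004000200060, nat_lit 0x122012, nat_lit 1, nat_lit 4, nat_lit 0x49⟩ (t14_5475) (t14_13667))) (.node ⟨nat_lit 3, nat_lit 6, nat_lit 0x313, nat_lit 6, nat_lit 4, nat_lit 0x47⟩ (.node ⟨nat_lit 5, nat_lit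 0x1000140018, nat_lit 0x2103, nat_lit 7, nat_lit 4, nat_lit 0x47⟩ (t14_3427) (t14_11619)) (.node ⟨nat_lit 7, nat_lit 0x40002000600068, nat_lit 0x111122, nat_lit 0, nat_lit 4, nat_lit 0x47⟩ (t14_7523) (.nil))))) (.node ⟨nat_lit 6, nat_lit 0x200020, nat_lit 0x31120, nat_lit 2, nat_lit 4, nat_lit 0x4a⟩ (.node ⟨nat_lit 5, nat_lit 0x10, nat_lit 0x22211, nat_lit 2, nat_lit 4, nat_lit 0x4a⟩ (.node ⟨nat_lit 6, nat_lit 0x800200032, nat_lit 0x111201, nat_lit 1, nat_lit 4, nat_lit 0x47⟩ (.node ⟨nat_lit 6, nat_lit 0x80030, nat_lit 0x102102, nat_lit 0, nat_lit 4, nat_lit 0x48⟩ (t14_867) (t14_9059)) (.node ⟨nat_lit 6, nat_lit 0x2000080030, nat_lit 0x121101, nat_lit 1, nat_lit 4, nat_lit 0x48⟩ (t14_4963) (t14_13155))) (.node ⟨nat_lit 6, nat_lit 0x800280030, nat_lit 0x111211, nat_lit 0, nat_lit 4, nat_lit 0x47⟩ (.node ⟨nat_lit 8, nat_lit 0x80008000400048009000a0,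 nat_lit 0x11112100, nat_lit 0, nat_lit 4, nat_lit 0x48⟩ (t14_2915) (t14_11107)) (.node ⟨nat_lit 7, nat_lit 0x200040004800300060, nat_lit 0x1131012, nat_lit 0, nat_lit 4, nat_lit 0x48⟩ (t14_7011) (t14_15203)))) (.node ⟨nat_lit 3, nat_lit 6, nat_lit 0x202, nat_lit 0xd, nat_lit 4, nat_lit 0x46⟩ (.node ⟨nat_lit 7, nat_lit 0x40001000480060, nat_lit 0x2111101, nat_lit 1, nat_lit 4, nat_lit 0x49⟩ (.node ⟨nat_lit 7, nat_lit 0x40001000600060, nat_lit 0x10320, nat_lit 0, nat_lit 4, nat_lit 0x47⟩ (t14_1891) (t14_10083)) (.node ⟨nat_lit 6, nat_lit 0x800280030, nat_lit 0x20200, nat_lit 1, nat_lit 4, nat_lit 0x46⟩ (t14_5987) (t14_14179))) (.node ⟨nat_lit 6, nat_lit 0x20002000100010, nat_lit 0x1032, nat_lit 1, nat_lit 4, nat_lit 0x47⟩ (.node ⟨nat_lit 8, nat_lit 0x800040009000c00060, nat_lit 0x10110030, nat_lit 0, nat_lit 4, nat_lit 0x48⟩ (t14_3939) (t14_12131))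 (.node ⟨nat_lit 6, nat_lit 0xc0030, nat_lit 0x111121, nat_lit 2, nat_lit 4, nat_lit 0x48⟩ (t14_8035) (.nil)))))
def t14_227 : Tr := .node ⟨nat_lit 7, nat_lit 0x40005000300068, nat_lit 0x113112, nat_lit 0, nat_lit 4, nat_lit 0x47⟩ (.nil) (.nil)
def t14_8419 : Tr := .node ⟨nat_lit 4, nat_lit 0x80008, nat_lit 0x1141, nat_lit 8, nat_lit 3, nat_lit 0x47⟩ (.nil) (.nil)
def t14_4323 : Tr := .node ⟨nat_lit 9, nat_lit 0x8000800100011000a001a001c0, nat_lit 0x11110111, nat_lit 0, nat_lit 4, nat_lit 0x47⟩ (.nil) (.nil)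
def t14_12515 : Tr := .node ⟨nat_lit 7, nat_lit 0x20005000600030, nat_lit 0x1002030, nat_lit 2, nat_lit 4, nat_lit 0x47⟩ (.nil) (.nil)
def t14_2275 : Tr := .node ⟨nat_lit 8, nat_lit 0x800020004000a000c0, nat_lit 0x1020002, nat_lit 0, nat_lit 3, nat_lit 0x46⟩ (.nil) (.nil)
def t14_10467 : Tr := .node ⟨nat_lit 6, nat_lit 0x20001000280030, nat_lit 0x1122, nat_lit 4, nat_lit 4, nat_lit 0x46⟩ (.nil) (.nil)
def t14_6371 : Tr := .node ⟨nat_lit 2, nat_lit 2, nat_lit 3, nat_lit 9, nat_lit 4, nat_lit 0x44⟩ (.nil) (.nil)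
def t14_14563 : Tr := .node ⟨nat_lit 4, nat_lit 0x80008000c, nat_lit 0x211, nat_lit 0xe, nat_lit 4, nat_lit 0x47⟩ (.nil) (.nil)
def t14_1251 : Tr := .node ⟨nat_lit 8, nat_lit 0x800040009000a000d0, nat_lit 0x10012012, nat_lit 0, nat_lit 4, nat_lit 0x47⟩ (.nil) (.nil)
def t14_9443 : Tr := .node ⟨nat_lit 9, nat_lit 0x100010000800090014001400180, nat_lit 0x11100112, nat_lit 0, nat_lit 4, nat_lit 0x48⟩ (.nil) (.nil)
def t14_5347 : Tr := .node ⟨nat_lit 6, nat_lit 0x800280030, nat_lit 0x110130, nat_lit 3, nat_lit 4, nat_lit 0x47⟩ (.nil) (.nil)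
def t14_13539 : Tr := .node ⟨nat_lit 7, nat_lit 0x40001000480068, nat_lit 0x10001, nat_lit 0, nat_lit 4, nat_lit 0x45⟩ (.nil) (.nil)
def t14_3299 : Tr := .node ⟨nat_lit 8, nat_lit 0x80002000c000a000d0, nat_lit 0x1020102, nat_lit 1, nat_lit 4, nat_lit 0x47⟩ (.nil) (.nil)
def t14_11491 : Tr := .node ⟨nat_lit 6, nat_lit 0x2000200034, nat_lit 0x111110, nat_lit 2, nat_lit 4, nat_lit 0x48⟩ (.nil) (.nil)
def t14_7395 : Tr := .node ⟨nat_lit 6, nat_lit 0x800200030, nat_lit 0x102111, nat_lit 2, nat_lit 3, nat_lit 0x47⟩ (.nil) (.nil)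
def t14_15587 : Tr := .node ⟨nat_lit 2, nat_lit 0, nat_lit 0x11, nat_lit 0x18, nat_lit 4, nat_lit 0x49⟩ (.nil) (.nil)
def t14_739 : Tr := .node ⟨nat_lit 5, nat_lit 0x1000080014, nat_lit 0x1023, nat_lit 2, nat_lit 4, nat_lit 0x45⟩ (.nil) (.nil)
def t14_8931 : Tr := .node ⟨nat_lit 6, nat_lit 0x80030, nat_lit 0x1001, nat_lit 0, nat_lit 4, nat_lit 0x46⟩ (.nil) (.nil)
def t14_4835 : Tr := .node ⟨nat_lit 8, nat_lit 0x800040005000a000a000c0, nat_lit 0x11120002, nat_lit 1, nat_lit 4, nat_lit 0x48⟩ (.nil) (.nil)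
def t14_13027 : Tr := .node ⟨nat_lit 7, nat_lit 0x40001000100020, nat_lit 0x10003, nat_lit 1, nat_lit 4, nat_lit 0x48⟩ (.nil) (.nil)
def t14_2787 : Tr := .node ⟨nat_lit 7, nat_lit 0x40002000600064, nat_lit 0x12210, nat_lit 1, nat_lit 4, nat_lit 0x47⟩ (.nil) (.nil)
def t14_10979 : Tr := .node ⟨nat_lit 8, nat_lit 0x80004000a000c0, nat_lit 0x110022, nat_lit 3, nat_lit 4, nat_lit 0x49⟩ (.nil) (.nil)
def t14_6883 : Tr := .node ⟨nat_lit 8, nat_lit 0x40004000800082, nat_lit 0x10111020, nat_lit 0, nat_lit 4, nat_lit 0x4a⟩ (.nil) (.nil)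
def t14_15075 : Tr := .node ⟨nat_lit 6, nat_lit 0x800200030, nat_lit 0x20003, nat_lit 0, nat_lit 4, nat_lit 0x47⟩ (.nil) (.nil)
def t14_1763 : Tr := .node ⟨nat_lit 7, nat_lit 0x40004000200048, nat_lit 0x20000, nat_lit 1, nat_lit 4, nat_lit 0x47⟩ (.nil) (.nil)
def t14_9955 : Tr := .node ⟨nat_lit 7, nat_lit 0x10006000600070, nat_lit 0x12303, nat_lit 0, nat_lit 4, nat_lit 0x46⟩ (.nil) (.nil)
def t14_5859 : Tr := .node ⟨nat_lit 7, nat_lit 0x4000200044, nat_lit 0x111001, nat_lit 1, nat_lit 4, nat_lit 0x48⟩ (.nil) (.nil)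
def t14_14051 : Tr := .node ⟨nat_lit 8, nat_lit 0x800010002000c0, nat_lit 0x112110, nat_lit 0, nat_lit 4, nat_lit 0x49⟩ (.nil) (.nil)
def t14_3811 : Tr := .node ⟨nat_lit 8, nat_lit 0x800040009000c000d0, nat_lit 0x10201020, nat_lit 2, nat_lit 4, nat_lit 0x48⟩ (.nil) (.nil)
def t14_12003 : Tr := .node ⟨nat_lit 7, nat_lit 0x40001000600068, nat_lit 0x112001, nat_lit 1, nat_lit 4, nat_lit 0x47⟩ (.nil) (.nil)
def t14_7907 : Tr := .node ⟨nat_lit 6, nat_lit 0x200020003000280028, nat_lit 0x11021, nat_lit 9, nat_lit 4, nat_lit 0x47⟩ (.nil) (.nil)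
def t9_227 : Tr := .node ⟨nat_lit 3, nat_lit 0, nat_lit 0x331, nat_lit 4, nat_lit 4, nat_lit 0x48⟩ (.node ⟨nat_lit 3, nat_lit 0x40006, nat_lit 0x312, nat_lit 9, nat_lit 4, nat_lit 0x47⟩ (.node ⟨nat_lit 4, nat_lit 0xe, nat_lit 0x3112, nat_lit 3, nat_lit 4, nat_lit 0x47⟩ (.node ⟨nat_lit 6, nat_lit 0x2000100008, nat_lit 0x11023, nat_lit 0, nat_lit 4, nat_lit 0x48⟩ (.node ⟨nat_lit 7, nat_lit 0x40004000100060, nat_lit 0x21020, nat_lit 0, nat_lit 4, nat_lit 0x48⟩ (t14_227) (t14_8419)) (.node ⟨nat_lit 7, nat_lit 0x20005000680070, nat_lit 0x1001132, nat_lit 1, nat_lit 4, nat_lit 0x45⟩ (t14_4323) (t14_12515))) (.node ⟨nat_lit 7, nat_lit 0x4000100020, nat_lit 0x1122021, nat_lit 0, nat_lit 4, nat_lit 0x4b⟩ (.node ⟨nat_lit 7, nat_lit 0x40003000500060, nat_lit 0x110132, nat_lit 0, nat_lit 3, nat_lit 0x45⟩ (t14_2275) (t14_10467)) (.node ⟨nat_lit 7, nat_lit 0x40002000580068,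 nat_lit 0x2011100, nat_lit 0, nat_lit 4, nat_lit 0x47⟩ (t14_6371) (t14_14563)))) (.node ⟨nat_lit 7, nat_lit 0x400020, nat_lit 0x121101, nat_lit 3, nat_lit 4, nat_lit 0x4b⟩ (.node ⟨nat_lit 6, nat_lit 0x280030, nat_lit 0x112212, nat_lit 1, nat_lit 4, nat_lit 0x49⟩ (.node ⟨nat_lit 6, nat_lit 0x1000280030, nat_lit 0x111140, nat_lit 0, nat_lit 4, nat_lit 0x47⟩ (t14_1251) (t14_9443)) (.node ⟨nat_lit 6, nat_lit 0x2000100010, nat_lit 0x212122, nat_lit 0, nat_lit 4, nat_lit 0x4a⟩ (t14_5347) (t14_13539))) (.node ⟨nat_lit 5, nat_lit 0x100018, nat_lit 0x10213, nat_lit 2, nat_lit 4, nat_lit 0x47⟩ (.node ⟨nat_lit 6, nat_lit 0x800300028, nat_lit 0x101014, nat_lit 4, nat_lit 4, nat_lit 0x48⟩ (t14_3299) (t14_11491)) (.node ⟨nat_lit 6, nat_lit 0x2000240038, nat_lit 0x110012, nat_lit 3, nat_lit 4, nat_lit 0x46⟩ (t14_7395) (t14_15587))))) (.node ⟨nat_lit 6, nat_lit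 0x200030, nat_lit 0x3110, nat_lit 1, nat_lit 4, nat_lit 0x48⟩ (.node ⟨nat_lit 5, nat_lit 0x40018, nat_lit 0x21103, nat_lit 0, nat_lit 4, nat_lit 0x47⟩ (.node ⟨nat_lit 6, nat_lit 0x1000200030, nat_lit 0x12002, nat_lit 0, nat_lit 3, nat_lit 0x46⟩ (.node ⟨nat_lit 7, nat_lit 0x40001000580068, nat_lit 0x2210110, nat_lit 1, nat_lit 4, nat_lit 0x48⟩ (t14_739) (t14_8931)) (.node ⟨nat_lit 6, nat_lit 0x300030, nat_lit 0x2120, nat_lit 0, nat_lit 3, nat_lit 0x46⟩ (t14_4835) (t14_13027))) (.node ⟨nat_lit 5, nat_lit 0x40018, nat_lit 0x10023, nat_lit 0, nat_lit 4, nat_lit 0x45⟩ (.node ⟨nat_lit 6, nat_lit 0x200038, nat_lit 0x21123, nat_lit 1, nat_lit 4, nat_lit 0x48⟩ (t14_2787) (t14_10979)) (.node ⟨nat_lit 5, nat_lit 0x1000080014, nat_lit 0x10132, nat_lit 3, nat_lit 4, nat_lit 0x46⟩ (t14_6883) (t14_15075)))) (.node ⟨nat_lit 5, nat_lit 0x40018, nat_lit 0x11111,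 nat_lit 1, nat_lit 4, nat_lit 0x46⟩ (.node ⟨nat_lit 5, nat_lit 0x40018, nat_lit 0x123, nat_lit 0, nat_lit 4, nat_lit 0x45⟩ (.node ⟨nat_lit 7, nat_lit 0x10004000400064, nat_lit 0x100123, nat_lit 0, nat_lit 4, nat_lit 0x47⟩ (t14_1763) (t14_9955)) (.node ⟨nat_lit 7, nat_lit 0x40004000200060, nat_lit 0x122102, nat_lit 0, nat_lit 4, nat_lit 0x49⟩ (t14_5859) (t14_14051))) (.node ⟨nat_lit 6, nat_lit 0x2000080030, nat_lit 0x200232, nat_lit 1, nat_lit 4, nat_lit 0x48⟩ (.node ⟨nat_lit 6, nat_lit 0x1000300028, nat_lit 0x102003, nat_lit 3, nat_lit 4, nat_lit 0x48⟩ (t14_3811) (t14_12003)) (.node ⟨nat_lit 7, nat_lit 0x4000400060, nat_lit 0x111003, nat_lit 1, nat_lit 4, nat_lit 0x49⟩ (t14_7907) (.nil)))))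
def t14_483 : Tr := .node ⟨nat_lit 7, nat_lit 0x800100060, nat_lit 0x1111111, nat_lit 1, nat_lit 4, nat_lit 0x49⟩ (.nil) (.nil)
def t14_8675 : Tr := .node ⟨nat_lit 6, nat_lit 0x1800280030, nat_lit 0x200, nat_lit 5, nat_lit 4, nat_lit 0x45⟩ (.nil) (.nil)
def t14_4579 : Tr := .node ⟨nat_lit 6, nat_lit 0x2000100024, nat_lit 0x112300, nat_lit 0, nat_lit 4, nat_lit 0x49⟩ (.nil) (.nil)
def t14_12771 : Tr := .node ⟨nat_lit 6, nat_lit 0x2000240030, nat_lit 0x11310, nat_lit 2, nat_lit 4, nat_lit 0x48⟩ (.nil) (.nil)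
def t14_2531 : Tr := .node ⟨nat_lit 7, nat_lit 0x20002000400060, nat_lit 0x1022210, nat_lit 0, nat_lit 4, nat_lit 0x49⟩ (.nil) (.nil)
def t14_10723 : Tr := .node ⟨nat_lit 7, nat_lit 0x6000600050, nat_lit 0x111002, nat_lit 0, nat_lit 4, nat_lit 0x47⟩ (.nil) (.nil)
def t14_6627 : Tr := .node ⟨nat_lit 5, nat_lit 0x800100010, nat_lit 0x10311, nat_lit 4, nat_lit 4, nat_lit 0x47⟩ (.nil) (.nil)
def t14_14819 : Tr := .node ⟨nat_lit 8, nat_lit 0x400050005000a000d0, nat_lit 0x1001021, nat_lit 0, nat_lit 4, nat_lit 0x46⟩ (.nil) (.nil)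
def t14_1507 : Tr := .node ⟨nat_lit 6, nat_lit 0x2800180030, nat_lit 0x111111, nat_lit 1, nat_lit 4, nat_lit 0x46⟩ (.nil) (.nil)
def t14_9699 : Tr := .node ⟨nat_lit 9, nat_lit 0x10001000100012001200110, nat_lit 0x11110110, nat_lit 2, nat_lit 4, nat_lit 0x4a⟩ (.nil) (.nil)
def t14_5603 : Tr := .node ⟨nat_lit 8, nat_lit 0x800080009000e000e000e0, nat_lit 0x10011220, nat_lit 1, nat_lit 4, nat_lit 0x46⟩ (.nil) (.nil)
def t14_13795 : Tr := .node ⟨nat_lit 7, nat_lit 0x4000600064, nat_lit 0x10201, nat_lit 0, nat_lit 4, nat_lit 0x47⟩ (.nil) (.nil)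
def t14_3555 : Tr := .node ⟨nat_lit 7, nat_lit 0x40006000680070, nat_lit 0x1000102, nat_lit 1, nat_lit 4, nat_lit 0x45⟩ (.nil) (.nil)
def t14_11747 : Tr := .node ⟨nat_lit 5, nat_lit 0x40018, nat_lit 0x10040, nat_lit 3, nat_lit 4, nat_lit 0x47⟩ (.nil) (.nil)
def t14_7651 : Tr := .node ⟨nat_lit 5, nat_lit 0x800100012, nat_lit 0x12, nat_lit 5, nat_lit 4, nat_lit 0x45⟩ (.nil) (.nil)
def t14_995 : Tr := .node ⟨nat_lit 7, nat_lit 0x4000200060, nat_lit 0x11021, nat_lit 1, nat_lit 4, nat_lit 0x48⟩ (.nil) (.nil)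
def t14_9187 : Tr := .node ⟨nat_lit 6, nat_lit 0x20002000100030, nat_lit 0x100012, nat_lit 1, nat_lit 3, nat_lit 0x45⟩ (.nil) (.nil)
def t14_5091 : Tr := .node ⟨nat_lit 8, nat_lit 0x80002000a000c0, nat_lit 0x1013011, nat_lit 0, nat_lit 4, nat_lit 0x49⟩ (.nil) (.nil)
def t14_13283 : Tr := .node ⟨nat_lit 7, nat_lit 0x20004000100060, nat_lit 0x23000, nat_lit 1, nat_lit 4, nat_lit 0x48⟩ (.nil) (.nil)
def t14_3043 : Tr := .node ⟨nat_lit 9, nat_lit 0x4000800100010001880188, nat_lit 0x100021011, nat_lit 0, nat_lit 4, nat_lit 0x48⟩ (.nil) (.nil)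
def t14_11235 : Tr := .node ⟨nat_lit 7, nat_lit 0x800600070, nat_lit 0x1001030, nat_lit 0, nat_lit 4, nat_lit 0x47⟩ (.nil) (.nil)
def t14_7139 : Tr := .node ⟨nat_lit 6, nat_lit 0x300030, nat_lit 0x102111, nat_lit 2, nat_lit 3, nat_lit 0x47⟩ (.nil) (.nil)
def t14_15331 : Tr := .node ⟨nat_lit 7, nat_lit 0x4000400060, nat_lit 0x22101, nat_lit 1, nat_lit 3, nat_lit 0x48⟩ (.nil) (.nil)
def t14_2019 : Tr := .node ⟨nat_lit 7, nat_lit 0x40002000200020, nat_lit 0x20320, nat_lit 1, nat_lit 4, nat_lit 0x4a⟩ (.nil) (.nil)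
def t14_10211 : Tr := .node ⟨nat_lit 6, nat_lit 0x2000240034, nat_lit 0x1221, nat_lit 4, nat_lit 4, nat_lit 0x47⟩ (.nil) (.nil)
def t14_6115 : Tr := .node ⟨nat_lit 8, nat_lit 0x40002000800082, nat_lit 0x20010000, nat_lit 1, nat_lit 4, nat_lit 0x49⟩ (.nil) (.nil)
def t14_14307 : Tr := .node ⟨nat_lit 7, nat_lit 0x10002000500060, nat_lit 0x1001031, nat_lit 2, nat_lit 4, nat_lit 0x47⟩ (.nil) (.nil)
def t14_4067 : Tr := .node ⟨nat_lit 8, nat_lit 0x2000400080008000c4, nat_lit 0x1001201, nat_lit 0, nat_lit 4, nat_lit 0x48⟩ (.nil) (.nil)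
def t14_12259 : Tr := .node ⟨nat_lit 6, nat_lit 0x20003000300038, nat_lit 0x2301, nat_lit 5, nat_lit 4, nat_lit 0x46⟩ (.nil) (.nil)
def t14_8163 : Tr := .node ⟨nat_lit 6, nat_lit 0x20001000100028, nat_lit 0x2004, nat_lit 3, nat_lit 4, nat_lit 0x47⟩ (.nil) (.nil)
def t9_483 : Tr := .node ⟨nat_lit 6, nat_lit 0x1000100020, nat_lit 0x303111, nat_lit 0, nat_lit 4, nat_lit 0x4a⟩ (.node ⟨nat_lit 6, nat_lit 0x2000340034, nat_lit 0x301121, nat_lit 3, nat_lit 4, nat_lit 0x48⟩ (.node ⟨nat_lit 5, nat_lit 0x800100012, nat_lit 0x21121, nat_lit 5, nat_lit 4, nat_lit 0x48⟩ (.node ⟨nat_lit 6, nat_lit 0x2000100032, nat_lit 0x11320, nat_lit 0, nat_lit 4, nat_lit 0x47⟩ (.node ⟨nat_lit 6, nat_lit 0xc0030, nat_lit 0x2112, nat_lit 0, nat_lit 4, nat_lit 0x47⟩ (t14_483) (t14_8675)) (.node ⟨nat_lit 7, nat_lit 0x4000200010, nat_lit 0x22002, nat_lit 5, nat_lit 4, nat_lit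 0x4b⟩ (t14_4579) (t14_12771))) (.node ⟨nat_lit 5, nat_lit 0x1000080008, nat_lit 0x11022, nat_lit 4, nat_lit 4, nat_lit 0x48⟩ (.node ⟨nat_lit 8, nat_lit 0x200080004000c0, nat_lit 0x11010113, nat_lit 0, nat_lit 4, nat_lit 0x4a⟩ (t14_2531) (t14_10723)) (.node ⟨nat_lit 6, nat_lit 0x200020, nat_lit 0x21121, nat_lit 4, nat_lit 4, nat_lit 0x4a⟩ (t14_6627) (t14_14819)))) (.node ⟨nat_lit 6, nat_lit 0x800200032, nat_lit 0x210001, nat_lit 0, nat_lit 4, nat_lit 0x46⟩ (.node ⟨nat_lit 6, nat_lit 0x280030, nat_lit 0x112231, nat_lit 0, nat_lit 4, nat_lit 0x49⟩ (.node ⟨nat_lit 5, nat_lit 0x1000140018, nat_lit 0x10321, nat_lit 7, nat_lit 4, nat_lit 0x48⟩ (t14_1507) (t14_9699)) (.node ⟨nat_lit 6, nat_lit 0x10002000180024, nat_lit 0x111202, nat_lit 2, nat_lit 4, nat_lit 0x47⟩ (t14_5603) (t14_13795))) (.node ⟨nat_lit 6, nat_lit 0x2000100024, nat_lit 0x112300, nat_lit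 1, nat_lit 4, nat_lit 0x49⟩ (.node ⟨nat_lit 5, nat_lit 0x140018, nat_lit 0x1001, nat_lit 4, nat_lit 4, nat_lit 0x45⟩ (t14_3555) (t14_11747)) (.node ⟨nat_lit 6, nat_lit 0x20001000280030, nat_lit 0x102021, nat_lit 2, nat_lit 4, nat_lit 0x47⟩ (t14_7651) (.nil))))) (.node ⟨nat_lit 6, nat_lit 0x1000200034, nat_lit 0x3203, nat_lit 1, nat_lit 4, nat_lit 0x47⟩ (.node ⟨nat_lit 5, nat_lit 0x10, nat_lit 0x2222, nat_lit 1, nat_lit 4, nat_lit 0x49⟩ (.node ⟨nat_lit 6, nat_lit 0x800100020, nat_lit 0x111111, nat_lit 3, nat_lit 3, nat_lit 0x47⟩ (.node ⟨nat_lit 4, nat_lit 0x8000a, nat_lit 0x1131, nat_lit 9, nat_lit 4, nat_lit 0x48⟩ (t14_995) (t14_9187)) (.node ⟨nat_lit 8, nat_lit 0x80008000800040, nat_lit 0x1212100, nat_lit 1, nat_lit 4, nat_lit 0x4b⟩ (t14_5091) (t14_13283))) (.node ⟨nat_lit 5, nat_lit 0x800100018, nat_lit 0x1210, nat_lit 4, nat_lit 4, nat_lit 0x46⟩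 (.node ⟨nat_lit 7, nat_lit 0x10001000600060, nat_lit 0x2001011, nat_lit 1, nat_lit 3, nat_lit 0x46⟩ (t14_3043) (t14_11235)) (.node ⟨nat_lit 7, nat_lit 0x4000600050, nat_lit 0x11102, nat_lit 2, nat_lit 4, nat_lit 0x48⟩ (t14_7139) (t14_15331)))) (.node ⟨nat_lit 5, nat_lit 0x18, nat_lit 0x10211, nat_lit 7, nat_lit 4, nat_lit 0x49⟩ (.node ⟨nat_lit 7, nat_lit 0x400060, nat_lit 0x2011111, nat_lit 3, nat_lit 4, nat_lit 0x4b⟩ (.node ⟨nat_lit 6, nat_lit 0x2000080030, nat_lit 0x102321, nat_lit 2, nat_lit 4, nat_lit 0x49⟩ (t14_2019) (t14_10211)) (.node ⟨nat_lit 5, nat_lit 0x1000180018, nat_lit 0x1220, nat_lit 2, nat_lit 3, nat_lit 0x44⟩ (t14_6115) (t14_14307))) (.node ⟨nat_lit 6, nat_lit 0x100020, nat_lit 0x221130, nat_lit 1, nat_lit 4, nat_lit 0x4b⟩ (.node ⟨nat_lit 5, nat_lit 0x100018001c, nat_lit 0x10100, nat_lit 5, nat_lit 4, nat_lit 0x45⟩ (t14_4067) (t14_12259))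 (.node ⟨nat_lit 0xb, nat_lit 0x20004000400010000800410, nat_lit 0x10001011000, nat_lit 1, nat_lit 4, nat_lit 0x4c⟩ (t14_8163) (.nil)))))
def t14_19 : Tr := .node ⟨nat_lit 7, nat_lit 0x4000100020, nat_lit 0x111001, nat_lit 5, nat_lit 4, nat_lit 0x4a⟩ (.nil) (.nil)
def t14_8211 : Tr := .node ⟨nat_lit 6, nat_lit 0x20001000280038, nat_lit 0x1213, nat_lit 3, nat_lit 4, nat_lit 0x45⟩ (.nil) (.nil)
def t14_4115 : Tr := .node ⟨nat_lit 5, nat_lit 0x10001c, nat_lit 0x2122, nat_lit 4, nat_lit 4, nat_lit 0x47⟩ (.nil) (.nil)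
def t14_12307 : Tr := .node ⟨nat_lit 7, nat_lit 0x10006000500050, nat_lit 0x2140, nat_lit 1, nat_lit 4, nat_lit 0x47⟩ (.nil) (.nil)
def t14_2067 : Tr := .node ⟨nat_lit 6, nat_lit 0x20001000100028, nat_lit 0x101310, nat_lit 2, nat_lit 4, nat_lit 0x47⟩ (.nil) (.nil)
def t14_10259 : Tr := .node ⟨nat_lit 8, nat_lit 0x800090006000b000d0, nat_lit 0x10000221, nat_lit 0, nat_lit 4, nat_lit 0x45⟩ (.nil) (.nil)
def t14_6163 : Tr := .node ⟨nat_lit 7, nat_lit 0x20004000440044, nat_lit 0x10010, nat_lit 2, nat_lit 4, nat_lit 0x46⟩ (.nil) (.nil)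
def t14_14355 : Tr := .node ⟨nat_lit 6, nat_lit 0x2000080030, nat_lit 0x1000, nat_lit 1, nat_lit 3, nat_lit 0x45⟩ (.nil) (.nil)
def t14_1043 : Tr := .node ⟨nat_lit 7, nat_lit 0x4000440060, nat_lit 0x11211, nat_lit 0, nat_lit 4, nat_lit 0x48⟩ (.nil) (.nil)
def t14_9235 : Tr := .node ⟨nat_lit 8, nat_lit 0x80002000a000c000d0, nat_lit 0x1020211, nat_lit 0, nat_lit 4, nat_lit 0x47⟩ (.nil) (.nil)
def t14_5139 : Tr := .node ⟨nat_lit 9, nat_lit 0x1000100010000800080012001c0, nat_lit 0x1013001, nat_lit 0, nat_lit 4, nat_lit 0x48⟩ (.nil) (.nil)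
def t14_13331 : Tr := .node ⟨nat_lit 7, nat_lit 0x20001000600050, nat_lit 0x320, nat_lit 2, nat_lit 4, nat_lit 0x47⟩ (.nil) (.nil)
def t14_3091 : Tr := .node ⟨nat_lit 8, nat_lit 0x800020002000400040, nat_lit 0x101021, nat_lit 0, nat_lit 4, nat_lit 0x49⟩ (.nil) (.nil)
def t14_11283 : Tr := .node ⟨nat_lit 7, nat_lit 0x40001000600060, nat_lit 0x101220, nat_lit 0, nat_lit 4, nat_lit 0x47⟩ (.nil) (.nil)
def t14_7187 : Tr := .node ⟨nat_lit 7, nat_lit 0x400050005000600070, nat_lit 0x1100011, nat_lit 1, nat_lit 4, nat_lit 0x46⟩ (.nil) (.nil)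
def t14_15379 : Tr := .node ⟨nat_lit 8, nat_lit 0x8000c000a0, nat_lit 0x11210, nat_lit 4, nat_lit 4, nat_lit 0x4a⟩ (.nil) (.nil)
def t14_531 : Tr := .node ⟨nat_lit 8, nat_lit 0x40008000200084, nat_lit 0x20202, nat_lit 1, nat_lit 4, nat_lit 0x49⟩ (.nil) (.nil)
def t14_8723 : Tr := .node ⟨nat_lit 7, nat_lit 0x40003000500068, nat_lit 0x2002, nat_lit 0, nat_lit 4, nat_lit 0x45⟩ (.nil) (.nil)
def t14_4627 : Tr := .node ⟨nat_lit 7, nat_lit 0x40001000500068, nat_lit 0x1202111, nat_lit 1, nat_lit 4, nat_lit 0x48⟩ (.nil) (.nil)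
def t14_12819 : Tr := .node ⟨nat_lit 7, nat_lit 0x40001000500060, nat_lit 0x100202, nat_lit 1, nat_lit 4, nat_lit 0x47⟩ (.nil) (.nil)
def t14_2579 : Tr := .node ⟨nat_lit 8, nat_lit 0x8000800040004000d0, nat_lit 0x10102210, nat_lit 0, nat_lit 4, nat_lit 0x49⟩ (.nil) (.nil)
def t14_10771 : Tr := .node ⟨nat_lit 7, nat_lit 0x4000180060, nat_lit 0x100020, nat_lit 0, nat_lit 4, nat_lit 0x46⟩ (.nil) (.nil)
def t14_6675 : Tr := .node ⟨nat_lit 6, nat_lit 0x2000200010, nat_lit 0x11111, nat_lit 3, nat_lit 4, nat_lit 0x48⟩ (.nil) (.nil)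
def t14_14867 : Tr := .node ⟨nat_lit 6, nat_lit 0x2000200020, nat_lit 0x21211, nat_lit 6, nat_lit 4, nat_lit 0x4a⟩ (.nil) (.nil)
def t14_1555 : Tr := .node ⟨nat_lit 7, nat_lit 0x400020005000500060, nat_lit 0x1012112, nat_lit 1, nat_lit 4, nat_lit 0x47⟩ (.nil) (.nil)
def t14_9747 : Tr := .node ⟨nat_lit 6, nat_lit 0x280030, nat_lit 0x10102, nat_lit 2, nat_lit 3, nat_lit 0x46⟩ (.nil) (.nil)
def t14_5651 : Tr := .node ⟨nat_lit 8, nat_lit 0x20008000c000c0, nat_lit 0x10220, nat_lit 0, nat_lit 4, nat_lit 0x48⟩ (.nil) (.nil)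
def t14_13843 : Tr := .node ⟨nat_lit 7, nat_lit 0x20001000400060, nat_lit 0x2200, nat_lit 2, nat_lit 4, nat_lit 0x47⟩ (.nil) (.nil)
def t14_3603 : Tr := .node ⟨nat_lit 7, nat_lit 0x50003000600060, nat_lit 0x12131, nat_lit 0, nat_lit 4, nat_lit 0x46⟩ (.nil) (.nil)
def t14_11795 : Tr := .node ⟨nat_lit 5, nat_lit 0x18, nat_lit 0x10003, nat_lit 1, nat_lit 4, nat_lit 0x46⟩ (.nil) (.nil)
def t14_7699 : Tr := .node ⟨nat_lit 5, nat_lit 0x18, nat_lit 0x112, nat_lit 4, nat_lit 4, nat_lit 0x47⟩ (.nil) (.nil)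
def t9_19 : Tr := .node ⟨nat_lit 6, nat_lit 0x80030, nat_lit 0x311201, nat_lit 1, nat_lit 4, nat_lit 0x4a⟩ (.node ⟨nat_lit 3, nat_lit 4, nat_lit 0x134, nat_lit 3, nat_lit 3, nat_lit 0x46⟩ (.node ⟨nat_lit 7, nat_lit 0x6000600060, nat_lit 0x31210, nat_lit 1, nat_lit 4, nat_lit 0x48⟩ (.node ⟨nat_lit 5, nat_lit 0x80010, nat_lit 0x11220, nat_lit 2, nat_lit 4, nat_lit 0x48⟩ (.node ⟨nat_lit 6, nat_lit 0x2000200010, nat_lit 0x22103, nat_lit 3, nat_lit 4, nat_lit 0x4a⟩ (t14_19) (t14_8211)) (.node ⟨nat_lit 6, nat_lit 0x10002000180024, nat_lit 0x111000, nat_lit 0, nat_lit 4, nat_lit 0x45⟩ (t14_4115) (t14_12307))) (.node ⟨nat_lit 5, nat_lit 0x40018, nat_lit 0x31003, nat_lit 1, nat_lit 4, nat_lit 0x48⟩ (.node ⟨nat_lit 6, nat_lit 0x20002000100010, nat_lit 0x112131, nat_lit 2, nat_lit 4, nat_lit 0x49⟩ (t14_2067) (t14_10259)) (.node ⟨nat_lit 5, nat_lit 0x180018,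 nat_lit 0x21200, nat_lit 0, nat_lit 3, nat_lit 0x46⟩ (t14_6163) (t14_14355)))) (.node ⟨nat_lit 3, nat_lit 6, nat_lit 0x220, nat_lit 2, nat_lit 3, nat_lit 0x45⟩ (.node ⟨nat_lit 5, nat_lit 0x800100018, nat_lit 0x12221, nat_lit 3, nat_lit 4, nat_lit 0x48⟩ (.node ⟨nat_lit 7, nat_lit 0x1000600070, nat_lit 0x1111113, nat_lit 0, nat_lit 4, nat_lit 0x48⟩ (t14_1043) (t14_9235)) (.node ⟨nat_lit 5, nat_lit 0x1000100010, nat_lit 0x12200, nat_lit 5, nat_lit 3, nat_lit 0x47⟩ (t14_5139) (t14_13331))) (.node ⟨nat_lit 6, nat_lit 0x2000080034, nat_lit 0x201201, nat_lit 2, nat_lit 4, nat_lit 0x48⟩ (.node ⟨nat_lit 7, nat_lit 0x20002000400070, nat_lit 0x1021103, nat_lit 0, nat_lit 4, nat_lit 0x48⟩ (t14_3091) (t14_11283)) (.node ⟨nat_lit 5, nat_lit 0x1000080008, nat_lit 0x20022, nat_lit 3, nat_lit 3, nat_lit 0x46⟩ (t14_7187) (t14_15379))))) (.node ⟨nat_lit 4, nat_lit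 0xc, nat_lit 0x2210, nat_lit 1, nat_lit 3, nat_lit 0x46⟩ (.node ⟨nat_lit 5, nat_lit 0x80010, nat_lit 0x12211, nat_lit 1, nat_lit 4, nat_lit 0x48⟩ (.node ⟨nat_lit 7, nat_lit 0x40004000200020, nat_lit 0x121011, nat_lit 1, nat_lit 4, nat_lit 0x49⟩ (.node ⟨nat_lit 7, nat_lit 0x4000200044, nat_lit 0x1121010, nat_lit 3, nat_lit 4, nat_lit 0x4a⟩ (t14_531) (t14_8723)) (.node ⟨nat_lit 6, nat_lit 0x20001000100010, nat_lit 0x111221, nat_lit 0, nat_lit 3, nat_lit 0x47⟩ (t14_4627) (t14_12819))) (.node ⟨nat_lit 5, nat_lit 0x100018001c, nat_lit 0x1121, nat_lit 5, nat_lit 4, nat_lit 0x45⟩ (.node ⟨nat_lit 4, nat_lit 0x80008, nat_lit 0x1130, nat_lit 0xd, nat_lit 4, nat_lit 0x49⟩ (t14_2579) (t14_10771)) (.node ⟨nat_lit 7, nat_lit 0x4000400060, nat_lit 0x121220, nat_lit 1, nat_lit 4, nat_lit 0x4a⟩ (t14_6675) (t14_14867)))) (.node ⟨nat_lit 6, nat_lit 0x2000080010,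 nat_lit 0x12012, nat_lit 4, nat_lit 4, nat_lit 0x49⟩ (.node ⟨nat_lit 5, nat_lit 0x10001a, nat_lit 0x23101, nat_lit 5, nat_lit 4, nat_lit 0x49⟩ (.node ⟨nat_lit 4, nat_lit 0x40008, nat_lit 0x1013, nat_lit 5, nat_lit 4, nat_lit 0x46⟩ (t14_1555) (t14_9747)) (.node ⟨nat_lit 7, nat_lit 0x4000100060, nat_lit 0x1211102, nat_lit 0, nat_lit 4, nat_lit 0x4a⟩ (t14_5651) (t14_13843))) (.node ⟨nat_lit 4, nat_lit 0x80004, nat_lit 0, nat_lit 3, nat_lit 3, nat_lit 0x43⟩ (.node ⟨nat_lit 6, nat_lit 0x2000280034, nat_lit 0x110000, nat_lit 3, nat_lit 4, nat_lit 0x46⟩ (t14_3603) (t14_11795)) (.node ⟨nat_lit 7, nat_lit 0x40001000480068, nat_lit 0x1112001, nat_lit 1, nat_lit 4, nat_lit 0x48⟩ (t14_7699) (.nil)))))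
def t14_275 : Tr := .node ⟨nat_lit 7, nat_lit 0x40002000480064, nat_lit 0x112111, nat_lit 0, nat_lit 4, nat_lit 0x47⟩ (.nil) (.nil)
def t14_8467 : Tr := .node ⟨nat_lit 8, nat_lit 0x200080004000c0, nat_lit 0x201, nat_lit 0, nat_lit 4, nat_lit 0x48⟩ (.nil) (.nil)
def t14_4371 : Tr := .node ⟨nat_lit 8, nat_lit 0x800080004000900088, nat_lit 0x10210210, nat_lit 1, nat_lit 4, nat_lit 0x49⟩ (.nil) (.nil)
def t14_12563 : Tr := .node ⟨nat_lit 7, nat_lit 0x4800280070, nat_lit 0x1000103, nat_lit 1, nat_lit 4, nat_lit 0x46⟩ (.nil) (.nil)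
def t14_2323 : Tr := .node ⟨nat_lit 6, nat_lit 0x200032, nat_lit 0x21120, nat_lit 0, nat_lit 4, nat_lit 0x48⟩ (.nil) (.nil)
def t14_10515 : Tr := .node ⟨nat_lit 7, nat_lit 0x3000500060, nat_lit 0x1101020, nat_lit 0, nat_lit 4, nat_lit 0x47⟩ (.nil) (.nil)
def t14_6419 : Tr := .node ⟨nat_lit 7, nat_lit 0x400060, nat_lit 0x1111110, nat_lit 0, nat_lit 4, nat_lit 0x4a⟩ (.nil) (.nil)
def t14_14611 : Tr := .node ⟨nat_lit 7, nat_lit 0x40, nat_lit 0x1111110, nat_lit 0, nat_lit 3, nat_lit 0x4a⟩ (.nil) (.nil)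
def t14_1299 : Tr := .node ⟨nat_lit 6, nat_lit 0x2000080030, nat_lit 0x11112, nat_lit 5, nat_lit 4, nat_lit 0x48⟩ (.nil) (.nil)
def t14_9491 : Tr := .node ⟨nat_lit 9, nat_lit 0x10000800080009000a0014001c0, nat_lit 0x101111011, nat_lit 0, nat_lit 4, nat_lit 0x47⟩ (.nil) (.nil)
def t14_5395 : Tr := .node ⟨nat_lit 7, nat_lit 0x4000440060, nat_lit 0x111212, nat_lit 2, nat_lit 4, nat_lit 0x49⟩ (.nil) (.nil)
def t14_13587 : Tr := .node ⟨nat_lit 7, nat_lit 0x10002000400064, nat_lit 0x1201, nat_lit 0, nat_lit 4, nat_lit 0x46⟩ (.nil) (.nil)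
def t14_3347 : Tr := .node ⟨nat_lit 4, nat_lit 0x80004, nat_lit 0x1022, nat_lit 5, nat_lit 3, nat_lit 0x45⟩ (.nil) (.nil)
def t14_11539 : Tr := .node ⟨nat_lit 6, nat_lit 0x1000200022, nat_lit 0x1032, nat_lit 3, nat_lit 4, nat_lit 0x48⟩ (.nil) (.nil)
def t14_7443 : Tr := .node ⟨nat_lit 7, nat_lit 0x2000400060, nat_lit 0x1111111, nat_lit 3, nat_lit 4, nat_lit 0x4a⟩ (.nil) (.nil)
def t14_787 : Tr := .node ⟨nat_lit 6, nat_lit 0x10001000200020, nat_lit 0x103111, nat_lit 3, nat_lit 4, nat_lit 0x48⟩ (.nil) (.nil)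
def t14_8979 : Tr := .node ⟨nat_lit 7, nat_lit 0x400020005000500060, nat_lit 0x110202, nat_lit 3, nat_lit 4, nat_lit 0x47⟩ (.nil) (.nil)
def t14_4883 : Tr := .node ⟨nat_lit 5, nat_lit 0x10, nat_lit 0x11110, nat_lit 0xd, nat_lit 4, nat_lit 0x4b⟩ (.nil) (.nil)
def t14_13075 : Tr := .node ⟨nat_lit 8, nat_lit 0x10008000a000c0, nat_lit 0x31, nat_lit 0, nat_lit 4, nat_lit 0x47⟩ (.nil) (.nil)
def t14_2835 : Tr := .node ⟨nat_lit 6, nat_lit 0x200020, nat_lit 0x120000, nat_lit 0, nat_lit 4, nat_lit 0x48⟩ (.nil) (.nil)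
def t14_11027 : Tr := .node ⟨nat_lit 7, nat_lit 0x5000600060, nat_lit 0x1011120, nat_lit 3, nat_lit 4, nat_lit 0x48⟩ (.nil) (.nil)
def t14_6931 : Tr := .node ⟨nat_lit 6, nat_lit 0x20002800300038, nat_lit 0x210012, nat_lit 5, nat_lit 4, nat_lit 0x47⟩ (.nil) (.nil)
def t14_15123 : Tr := .node ⟨nat_lit 8, nat_lit 0x4000800088006000c8, nat_lit 0x11110, nat_lit 1, nat_lit 4, nat_lit 0x46⟩ (.nil) (.nil)
def t14_1811 : Tr := .node ⟨nat_lit 7, nat_lit 0x20002000600050, nat_lit 0x1021002, nat_lit 1, nat_lit 4, nat_lit 0x48⟩ (.nil) (.nil)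
def t14_10003 : Tr := .node ⟨nat_lit 7, nat_lit 0x400020005000500060, nat_lit 0x4100, nat_lit 1, nat_lit 4, nat_lit 0x46⟩ (.nil) (.nil)
def t14_5907 : Tr := .node ⟨nat_lit 9, nat_lit 0x100008000800080, nat_lit 0x1110210, nat_lit 1, nat_lit 4, nat_lit 0x4c⟩ (.nil) (.nil)
def t14_14099 : Tr := .node ⟨nat_lit 7, nat_lit 0x40002000480060, nat_lit 0x10101, nat_lit 1, nat_lit 4, nat_lit 0x46⟩ (.nil) (.nil)
def t14_3859 : Tr := .node ⟨nat_lit 6, nat_lit 0x800280030, nat_lit 0x111021, nat_lit 5, nat_lit 4, nat_lit 0x48⟩ (.nil) (.nil)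
def t14_12051 : Tr := .node ⟨nat_lit 7, nat_lit 0x10004000440060, nat_lit 0x100210, nat_lit 1, nat_lit 4, nat_lit 0x47⟩ (.nil) (.nil)
def t14_7955 : Tr := .node ⟨nat_lit 7, nat_lit 0x400020002800500060, nat_lit 0x12201, nat_lit 1, nat_lit 4, nat_lit 0x46⟩ (.nil) (.nil)
def t9_275 : Tr := .node ⟨nat_lit 6, nat_lit 0x200030, nat_lit 0x3211, nat_lit 2, nat_lit 4, nat_lit 0x49⟩ (.node ⟨nat_lit 6, nat_lit 0x20001000280028, nat_lit 0x311121, nat_lit 2, nat_lit 4, nat_lit 0x49⟩ (.node ⟨nat_lit 7, nat_lit 0x1000500060, nat_lit 0x311120, nat_lit 0, nat_lit 4, nat_lit 0x49⟩ (.node ⟨nat_lit 7, nat_lit 0x4000600050, nat_lit 0x12103, nat_lit 0, nat_lit 4, nat_lit 0x48⟩ (.node ⟨nat_lit 5, nat_lit 0x800100018, nat_lit 0x21112, nat_lit 5, nat_lit 4, nat_lit 0x48⟩ (t14_275) (t14_8467)) (.node ⟨nat_lit 6, nat_lit 0x2000100010, nat_lit 0x111040, nat_lit 1, nat_lit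 3, nat_lit 0x48⟩ (t14_4371) (t14_12563))) (.node ⟨nat_lit 5, nat_lit 0x100018, nat_lit 0x20222, nat_lit 6, nat_lit 4, nat_lit 0x49⟩ (.node ⟨nat_lit 7, nat_lit 0x40001000600050, nat_lit 0x112203, nat_lit 1, nat_lit 4, nat_lit 0x48⟩ (t14_2323) (t14_10515)) (.node ⟨nat_lit 6, nat_lit 0x800300030, nat_lit 0x110030, nat_lit 0, nat_lit 4, nat_lit 0x47⟩ (t14_6419) (t14_14611)))) (.node ⟨nat_lit 3, nat_lit 6, nat_lit 0x212, nat_lit 9, nat_lit 4, nat_lit 0x46⟩ (.node ⟨nat_lit 7, nat_lit 0x200040, nat_lit 0x2211111, nat_lit 0, nat_lit 4, nat_lit 0x4c⟩ (.node ⟨nat_lit 5, nat_lit 0x1000080014, nat_lit 0x11104, nat_lit 3, nat_lit 4, nat_lit 0x47⟩ (t14_1299) (t14_9491)) (.node ⟨nat_lit 6, nat_lit 0x2000100030, nat_lit 0x111212, nat_lit 4, nat_lit 4, nat_lit 0x49⟩ (t14_5395) (t14_13587))) (.node ⟨nat_lit 6, nat_lit 0x20001000280028, nat_lit 0x12020, nat_lit 3,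 nat_lit 4, nat_lit 0x47⟩ (.node ⟨nat_lit 7, nat_lit 0x20005000680068, nat_lit 0x121130, nat_lit 0, nat_lit 4, nat_lit 0x46⟩ (t14_3347) (t14_11539)) (.node ⟨nat_lit 7, nat_lit 0x4800500060, nat_lit 0x1111121, nat_lit 1, nat_lit 4, nat_lit 0x48⟩ (t14_7443) (.nil))))) (.node ⟨nat_lit 5, nat_lit 0x100008, nat_lit 0x1321, nat_lit 3, nat_lit 4, nat_lit 0x48⟩ (.node ⟨nat_lit 7, nat_lit 0x4000100060, nat_lit 0x21020, nat_lit 1, nat_lit 4, nat_lit 0x49⟩ (.node ⟨nat_lit 5, nat_lit 0x40018, nat_lit 0x10102, nat_lit 1, nat_lit 4, nat_lit 0x45⟩ (.node ⟨nat_lit 5, nat_lit 0x10, nat_lit 0x13221, nat_lit 4, nat_lit 4, nat_lit 0x4b⟩ (t14_787) (t14_8979)) (.node ⟨nat_lit 7, nat_lit 0x2000200040, nat_lit 0x1111201, nat_lit 4, nat_lit 4, nat_lit 0x4b⟩ (t14_4883) (t14_13075))) (.node ⟨nat_lit 6, nat_lit 0x2000100038, nat_lit 0x11033, nat_lit 0, nat_lit 4, nat_lit 0x47⟩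 (.node ⟨nat_lit 7, nat_lit 0x40004000100060, nat_lit 0x211013, nat_lit 2, nat_lit 4, nat_lit 0x49⟩ (t14_2835) (t14_11027)) (.node ⟨nat_lit 8, nat_lit 0x800020002000c0, nat_lit 0x11012102, nat_lit 1, nat_lit 4, nat_lit 0x4a⟩ (t14_6931) (t14_15123)))) (.node ⟨nat_lit 5, nat_lit 0x18, nat_lit 0x20111, nat_lit 3, nat_lit 3, nat_lit 0x47⟩ (.node ⟨nat_lit 7, nat_lit 0x40001000500068, nat_lit 0x1012221, nat_lit 0, nat_lit 4, nat_lit 0x48⟩ (.node ⟨nat_lit 6, nat_lit 0x800300038, nat_lit 0x100023, nat_lit 2, nat_lit 4, nat_lit 0x45⟩ (t14_1811) (t14_10003)) (.node ⟨nat_lit 7, nat_lit 0x10002000500064, nat_lit 0x1210021, nat_lit 1, nat_lit 4, nat_lit 0x48⟩ (t14_5907) (t14_14099))) (.node ⟨nat_lit 7, nat_lit 0x40001000500068, nat_lit 0x202022, nat_lit 1, nat_lit 4, nat_lit 0x47⟩ (.node ⟨nat_lit 7, nat_lit 0x5000180060, nat_lit 0x1001100, nat_lit 0, nat_lit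 4, nat_lit 0x46⟩ (t14_3859) (t14_12051)) (.node ⟨nat_lit 5, nat_lit 0x100018, nat_lit 0x11130, nat_lit 4, nat_lit 4, nat_lit 0x48⟩ (t14_7955) (.nil)))))
def t14_147 : Tr := .node ⟨nat_lit 7, nat_lit 0x20002000500068, nat_lit 0x1110211, nat_lit 1, nat_lit 4, nat_lit 0x48⟩ (.nil) (.nil)
def t14_8339 : Tr := .node ⟨nat_lit 6, nat_lit 0x2000100024, nat_lit 0, nat_lit 0, nat_lit 4, nat_lit 0x44⟩ (.nil) (.nil)
def t14_4243 : Tr := .node ⟨nat_lit 6, nat_lit 0x800200032, nat_lit 0x200021, nat_lit 1, nat_lit 4, nat_lit 0x47⟩ (.nil) (.nil)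
def t14_12435 : Tr := .node ⟨nat_lit 7, nat_lit 0x40001000600068, nat_lit 0x11030, nat_lit 0, nat_lit 4, nat_lit 0x46⟩ (.nil) (.nil)
def t14_2195 : Tr := .node ⟨nat_lit 7, nat_lit 0x40001000600060, nat_lit 0x20032, nat_lit 0, nat_lit 4, nat_lit 0x47⟩ (.nil) (.nil)
def t14_10387 : Tr := .node ⟨nat_lit 7, nat_lit 0x200040004800480060, nat_lit 0x1020002, nat_lit 4, nat_lit 4, nat_lit 0x47⟩ (.nil) (.nil)
def t14_6291 : Tr := .node ⟨nat_lit 7, nat_lit 0x4000400060, nat_lit 0x11220, nat_lit 0, nat_lit 4, nat_lit 0x49⟩ (.nil) (.nil)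
def t14_14483 : Tr := .node ⟨nat_lit 7, nat_lit 0x40006000680068, nat_lit 0x11210, nat_lit 3, nat_lit 4, nat_lit 0x46⟩ (.nil) (.nil)
def t14_1171 : Tr := .node ⟨nat_lit 6, nat_lit 0x1000280030, nat_lit 0x1112, nat_lit 3, nat_lit 4, nat_lit 0x46⟩ (.nil) (.nil)
def t14_9363 : Tr := .node ⟨nat_lit 7, nat_lit 0x40005000600068, nat_lit 0x102121, nat_lit 3, nat_lit 4, nat_lit 0x47⟩ (.nil) (.nil)
def t14_5267 : Tr := .node ⟨nat_lit 7, nat_lit 0x1000400060, nat_lit 0x1201030, nat_lit 0, nat_lit 4, nat_lit 0x4a⟩ (.nil) (.nil)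
def t14_13459 : Tr := .node ⟨nat_lit 6, nat_lit 0x20002000100010, nat_lit 0x122000, nat_lit 0, nat_lit 3, nat_lit 0x47⟩ (.nil) (.nil)
def t14_3219 : Tr := .node ⟨nat_lit 8, nat_lit 0x800040009000d000c8, nat_lit 0x111010, nat_lit 0, nat_lit 4, nat_lit 0x46⟩ (.nil) (.nil)
def t14_11411 : Tr := .node ⟨nat_lit 7, nat_lit 0x20004000680068, nat_lit 0x111120, nat_lit 3, nat_lit 4, nat_lit 0x47⟩ (.nil) (.nil)
def t14_7315 : Tr := .node ⟨nat_lit 8, nat_lit 0x8000800080004000d0, nat_lit 0x1120021, nat_lit 0, nat_lit 4, nat_lit 0x49⟩ (.nil) (.nil)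
def t14_15507 : Tr := .node ⟨nat_lit 9, nat_lit 0x400080002001400180, nat_lit 0x100100121, nat_lit 0, nat_lit 4, nat_lit 0x49⟩ (.nil) (.nil)
def t14_659 : Tr := .node ⟨nat_lit 6, nat_lit 0x2000080030, nat_lit 0x21301, nat_lit 1, nat_lit 4, nat_lit 0x48⟩ (.nil) (.nil)
def t14_8851 : Tr := .node ⟨nat_lit 7, nat_lit 0x20001000500068, nat_lit 0x101030, nat_lit 0, nat_lit 4, nat_lit 0x46⟩ (.nil) (.nil)
def t14_4755 : Tr := .node ⟨nat_lit 6, nat_lit 0x20001000280030, nat_lit 0x101303, nat_lit 3, nat_lit 4, nat_lit 0x47⟩ (.nil) (.nil)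
def t14_12947 : Tr := .node ⟨nat_lit 8, nat_lit 0x800020002000c0, nat_lit 0x1012100, nat_lit 0, nat_lit 4, nat_lit 0x49⟩ (.nil) (.nil)
def t14_2707 : Tr := .node ⟨nat_lit 7, nat_lit 0x800600070, nat_lit 0x1001031, nat_lit 0, nat_lit 4, nat_lit 0x47⟩ (.nil) (.nil)
def t14_10899 : Tr := .node ⟨nat_lit 8, nat_lit 0x800040004000a000a000c0, nat_lit 0x120003, nat_lit 1, nat_lit 4, nat_lit 0x47⟩ (.nil) (.nil)
def t14_6803 : Tr := .node ⟨nat_lit 7, nat_lit 0x600050, nat_lit 0x21110, nat_lit 1, nat_lit 4, nat_lit 0x49⟩ (.nil) (.nil)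
def t14_14995 : Tr := .node ⟨nat_lit 7, nat_lit 0x400040005000500060, nat_lit 0x110111, nat_lit 7, nat_lit 4, nat_lit 0x48⟩ (.nil) (.nil)
def t14_1683 : Tr := .node ⟨nat_lit 6, nat_lit 0x2000100034, nat_lit 0x1201, nat_lit 2, nat_lit 4, nat_lit 0x46⟩ (.nil) (.nil)
def t14_9875 : Tr := .node ⟨nat_lit 4, nat_lit 0x800080008, nat_lit 0x320, nat_lit 0xd, nat_lit 4, nat_lit 0x48⟩ (.nil) (.nil)
def t14_5779 : Tr := .node ⟨nat_lit 4, nat_lit 0x8000c, nat_lit 0x112, nat_lit 9, nat_lit 4, nat_lit 0x46⟩ (.nil) (.nil)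
def t14_13971 : Tr := .node ⟨nat_lit 6, nat_lit 0x2000100034, nat_lit 0x1210, nat_lit 5, nat_lit 4, nat_lit 0x47⟩ (.nil) (.nil)
def t14_3731 : Tr := .node ⟨nat_lit 8, nat_lit 0x8000400040009000d0, nat_lit 0x20112100, nat_lit 0, nat_lit 4, nat_lit 0x49⟩ (.nil) (.nil)
def t14_11923 : Tr := .node ⟨nat_lit 5, nat_lit 0x800100012, nat_lit 0x230, nat_lit 4, nat_lit 4, nat_lit 0x46⟩ (.nil) (.nil)
def t14_7827 : Tr := .node ⟨nat_lit 7, nat_lit 0x4000200044, nat_lit 0x11203, nat_lit 2, nat_lit 4, nat_lit 0x49⟩ (.nil) (.nil)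
def t9_147 : Tr := .node ⟨nat_lit 6, nat_lit 0x30, nat_lit 0x311111, nat_lit 0, nat_lit 4, nat_lit 0x4a⟩ (.node ⟨nat_lit 6, nat_lit 0x2000080030, nat_lit 0x111102, nat_lit 0, nat_lit 3, nat_lit 0x46⟩ (.node ⟨nat_lit 6, nat_lit 0x20001000280038, nat_lit 0x300302, nat_lit 1, nat_lit 4, nat_lit 0x47⟩ (.node ⟨nat_lit 6, nat_lit 0x200030, nat_lit 0x12110, nat_lit 2, nat_lit 4, nat_lit 0x48⟩ (.node ⟨nat_lit 6, nat_lit 0x20001000280034, nat_lit 0x22201, nat_lit 2, nat_lit 4, nat_lit 0x47⟩ (t14_147) (t14_8339)) (.node ⟨nat_lit 7, nat_lit 0x200020004000400064, nat_lit 0x1020103, nat_lit 2, nat_lit 4, nat_lit 0x47⟩ (t14_4243) (t14_12435))) (.node ⟨nat_lit 7, nat_lit 0x4000600060, nat_lit 0x21110, nat_lit 2, nat_lit 4, nat_lit 0x48⟩ (.node ⟨nat_lit 7, nat_lit 0x40001000480060, nat_lit 0x12200, nat_lit 0, nat_lit 4, nat_lit 0x47⟩ (t14_2195) (t14_10387)) (.node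 ⟨nat_lit 6, nat_lit 0x300030, nat_lit 0x112120, nat_lit 3, nat_lit 4, nat_lit 0x49⟩ (t14_6291) (t14_14483)))) (.node ⟨nat_lit 5, nat_lit 0x100010, nat_lit 0x2210, nat_lit 4, nat_lit 3, nat_lit 0x47⟩ (.node ⟨nat_lit 5, nat_lit 0x180018, nat_lit 0x21121, nat_lit 5, nat_lit 4, nat_lit 0x48⟩ (.node ⟨nat_lit 6, nat_lit 0x2000100024, nat_lit 0x112310, nat_lit 0, nat_lit 4, nat_lit 0x49⟩ (t14_1171) (t14_9363)) (.node ⟨nat_lit 6, nat_lit 0x1000200030, nat_lit 0x112211, nat_lit 3, nat_lit 4, nat_lit 0x49⟩ (t14_5267) (t14_13459))) (.node ⟨nat_lit 6, nat_lit 0x10001000200020, nat_lit 0x102020, nat_lit 5, nat_lit 4, nat_lit 0x48⟩ (.node ⟨nat_lit 7, nat_lit 0x2000400060, nat_lit 0x1021130, nat_lit 0, nat_lit 4, nat_lit 0x4a⟩ (t14_3219) (t14_11411)) (.node ⟨nat_lit 7, nat_lit 0x600050, nat_lit 0x1001110, nat_lit 0, nat_lit 4, nat_lit 0x48⟩ (t14_7315) (t14_15507)))))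 (.node ⟨nat_lit 7, nat_lit 0x4000400020, nat_lit 0x311102, nat_lit 0, nat_lit 4, nat_lit 0x4b⟩ (.node ⟨nat_lit 5, nat_lit 0x1000100008, nat_lit 0x2102, nat_lit 7, nat_lit 4, nat_lit 0x48⟩ (.node ⟨nat_lit 6, nat_lit 0x2000200030, nat_lit 0x112201, nat_lit 0, nat_lit 3, nat_lit 0x47⟩ (.node ⟨nat_lit 7, nat_lit 0x40001000600060, nat_lit 0x1021121, nat_lit 0, nat_lit 4, nat_lit 0x48⟩ (t14_659) (t14_8851)) (.node ⟨nat_lit 4, nat_lit 0xc000c, nat_lit 0x2011, nat_lit 5, nat_lit 3, nat_lit 0x44⟩ (t14_4755) (t14_12947))) (.node ⟨nat_lit 7, nat_lit 0x200040003000480068, nat_lit 0x1111002, nat_lit 0, nat_lit 4, nat_lit 0x46⟩ (.node ⟨nat_lit 7, nat_lit 0x40004000200060, nat_lit 0x120003, nat_lit 3, nat_lit 4, nat_lit 0x49⟩ (t14_2707) (t14_10899)) (.node ⟨nat_lit 7, nat_lit 0x200040004000440068, nat_lit 0x121112, nat_lit 3, nat_lit 4, nat_lit 0x47⟩ (t14_6803)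 (t14_14995)))) (.node ⟨nat_lit 2, nat_lit 0, nat_lit 0x31, nat_lit 0xe, nat_lit 4, nat_lit 0x47⟩ (.node ⟨nat_lit 6, nat_lit 0x1000200034, nat_lit 0x112101, nat_lit 0, nat_lit 4, nat_lit 0x47⟩ (.node ⟨nat_lit 6, nat_lit 0x240038, nat_lit 0x10113, nat_lit 1, nat_lit 4, nat_lit 0x46⟩ (t14_1683) (t14_9875)) (.node ⟨nat_lit 6, nat_lit 0x2000200024, nat_lit 0x22111, nat_lit 5, nat_lit 4, nat_lit 0x49⟩ (t14_5779) (t14_13971))) (.node ⟨nat_lit 7, nat_lit 0x40004800600030, nat_lit 0x20212, nat_lit 0, nat_lit 4, nat_lit 0x46⟩ (.node ⟨nat_lit 5, nat_lit 0x18001c, nat_lit 0x10103, nat_lit 3, nat_lit 4, nat_lit 0x45⟩ (t14_3731) (t14_11923)) (.node ⟨nat_lit 5, nat_lit 0x1000100010, nat_lit 0x11221, nat_lit 4, nat_lit 3, nat_lit 0x47⟩ (t14_7827) (.nil)))))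
def t14_403 : Tr := .node ⟨nat_lit 7, nat_lit 0x400040, nat_lit 0x1211111, nat_lit 3, nat_lit 4, nat_lit 0x4c⟩ (.nil) (.nil)
def t14_8595 : Tr := .node ⟨nat_lit 5, nat_lit 0x1000180018, nat_lit 0x10110, nat_lit 2, nat_lit 3, nat_lit 0x44⟩ (.nil) (.nil)
def t14_4499 : Tr := .node ⟨nat_lit 4, nat_lit 0xc000c, nat_lit 0x2131, nat_lit 6, nat_lit 4, nat_lit 0x47⟩ (.nil) (.nil)
def t14_12691 : Tr := .node ⟨nat_lit 7, nat_lit 0x10004000440060, nat_lit 0x1000210, nat_lit 3, nat_lit 4, nat_lit 0x48⟩ (.nil) (.nil)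
def t14_2451 : Tr := .node ⟨nat_lit 6, nat_lit 0x300038, nat_lit 0x111202, nat_lit 1, nat_lit 4, nat_lit 0x48⟩ (.nil) (.nil)
def t14_10643 : Tr := .node ⟨nat_lit 8, nat_lit 0x10004000a000c0, nat_lit 0x102, nat_lit 0, nat_lit 4, nat_lit 0x47⟩ (.nil) (.nil)
def t14_6547 : Tr := .node ⟨nat_lit 6, nat_lit 0x8000c0030, nat_lit 0x101021, nat_lit 2, nat_lit 4, nat_lit 0x46⟩ (.nil) (.nil)
def t14_14739 : Tr := .node ⟨nat_lit 8, nat_lit 0xa000a0006000c0, nat_lit 0x1011121, nat_lit 0, nat_lit 4, nat_lit 0x47⟩ (.nil) (.nil)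
def t14_1427 : Tr := .node ⟨nat_lit 6, nat_lit 0x2000100030, nat_lit 0x11311, nat_lit 2, nat_lit 4, nat_lit 0x48⟩ (.nil) (.nil)
def t14_9619 : Tr := .node ⟨nat_lit 6, nat_lit 0x20001000280034, nat_lit 0x2200, nat_lit 2, nat_lit 4, nat_lit 0x45⟩ (.nil) (.nil)
def t14_5523 : Tr := .node ⟨nat_lit 5, nat_lit 0x100010, nat_lit 0x1132, nat_lit 6, nat_lit 4, nat_lit 0x49⟩ (.nil) (.nil)
def t14_13715 : Tr := .node ⟨nat_lit 8, nat_lit 0x400080006000a000d0, nat_lit 0x20011, nat_lit 1, nat_lit 4, nat_lit 0x46⟩ (.nil) (.nil)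
def t14_3475 : Tr := .node ⟨nat_lit 7, nat_lit 0x40004000200060, nat_lit 0x12100, nat_lit 0, nat_lit 3, nat_lit 0x46⟩ (.nil) (.nil)
def t14_11667 : Tr := .node ⟨nat_lit 8, nat_lit 0x800020002000c000c0, nat_lit 0x41010, nat_lit 1, nat_lit 4, nat_lit 0x48⟩ (.nil) (.nil)
def t14_7571 : Tr := .node ⟨nat_lit 6, nat_lit 0x20001000280030, nat_lit 0x2203, nat_lit 2, nat_lit 4, nat_lit 0x46⟩ (.nil) (.nil)
def t14_915 : Tr := .node ⟨nat_lit 8, nat_lit 0xc000c000a00060, nat_lit 0x112112, nat_lit 0, nat_lit 4, nat_lit 0x47⟩ (.nil) (.nil)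
def t14_9107 : Tr := .node ⟨nat_lit 6, nat_lit 0x1000200008, nat_lit 0x111000, nat_lit 3, nat_lit 3, nat_lit 0x47⟩ (.nil) (.nil)
def t14_5011 : Tr := .node ⟨nat_lit 5, nat_lit 0x1000140018, nat_lit 0x111, nat_lit 6, nat_lit 4, nat_lit 0x45⟩ (.nil) (.nil)
def t14_13203 : Tr := .node ⟨nat_lit 7, nat_lit 0x400020002000500070, nat_lit 0x22001, nat_lit 0, nat_lit 4, nat_lit 0x46⟩ (.nil) (.nil)
def t14_2963 : Tr := .node ⟨nat_lit 5, nat_lit 0x100018, nat_lit 0x10103, nat_lit 5, nat_lit 4, nat_lit 0x47⟩ (.nil) (.nil)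
def t14_11155 : Tr := .node ⟨nat_lit 6, nat_lit 0x2000200034, nat_lit 0x11000, nat_lit 2, nat_lit 4, nat_lit 0x46⟩ (.nil) (.nil)
def t14_7059 : Tr := .node ⟨nat_lit 7, nat_lit 0x2000400060, nat_lit 0x1011111, nat_lit 2, nat_lit 4, nat_lit 0x49⟩ (.nil) (.nil)
def t14_15251 : Tr := .node ⟨nat_lit 9, nat_lit 0x40010001000180, nat_lit 0x10110201, nat_lit 0, nat_lit 4, nat_lit 0x4b⟩ (.nil) (.nil)
def t14_1939 : Tr := .node ⟨nat_lit 6, nat_lit 0x280030, nat_lit 0x200021, nat_lit 0, nat_lit 4, nat_lit 0x47⟩ (.nil) (.nil)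
def t14_10131 : Tr := .node ⟨nat_lit 7, nat_lit 0x10004000400060, nat_lit 0x100, nat_lit 0, nat_lit 4, nat_lit 0x46⟩ (.nil) (.nil)
def t14_6035 : Tr := .node ⟨nat_lit 8, nat_lit 0x800020002000c0, nat_lit 0x11021100, nat_lit 1, nat_lit 4, nat_lit 0x4a⟩ (.nil) (.nil)
def t14_14227 : Tr := .node ⟨nat_lit 7, nat_lit 0x10004000400060, nat_lit 0x100112, nat_lit 3, nat_lit 4, nat_lit 0x48⟩ (.nil) (.nil)
def t14_3987 : Tr := .node ⟨nat_lit 7, nat_lit 0x20004000100060, nat_lit 0x111030, nat_lit 0, nat_lit 4, nat_lit 0x48⟩ (.nil) (.nil)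
def t14_12179 : Tr := .node ⟨nat_lit 7, nat_lit 0x200020004000400064, nat_lit 0x11210, nat_lit 3, nat_lit 4, nat_lit 0x47⟩ (.nil) (.nil)
def t14_8083 : Tr := .node ⟨nat_lit 5, nat_lit 0x1000100014, nat_lit 0x1104, nat_lit 5, nat_lit 4, nat_lit 0x47⟩ (.nil) (.nil)
def t9_403 : Tr := .node ⟨nat_lit 5, nat_lit 0x10, nat_lit 0x23102, nat_lit 0, nat_lit 4, nat_lit 0x4a⟩ (.node ⟨nat_lit 6, nat_lit 0x2000200010, nat_lit 0x113210, nat_lit 2, nat_lit 4, nat_lit 0x4a⟩ (.node ⟨nat_lit 5, nat_lit 0x18, nat_lit 0x20222, nat_lit 0, nat_lit 4, nat_lit 0x48⟩ (.node ⟨nat_lit 7, nat_lit 0x20004000100060, nat_lit 0x112021, nat_lit 0, nat_lit 4, nat_lit 0x48⟩ (.node ⟨nat_lit 7, nat_lit 0x6000180018, nat_lit 0x3000121, nat_lit 0, nat_lit 4, nat_lit 0x47⟩ (t14_403) (t14_8595)) (.node ⟨nat_lit 8, nat_lit 0x800020009000a000d0, nat_lit 0x11020102, nat_lit 0, nat_lit 4,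 nat_lit 0x48⟩ (t14_4499) (t14_12691))) (.node ⟨nat_lit 6, nat_lit 0x2000080030, nat_lit 0x202122, nat_lit 2, nat_lit 4, nat_lit 0x49⟩ (.node ⟨nat_lit 7, nat_lit 0x10004000200062, nat_lit 0x110110, nat_lit 1, nat_lit 4, nat_lit 0x47⟩ (t14_2451) (t14_10643)) (.node ⟨nat_lit 9, nat_lit 0x40010001000180, nat_lit 0x210201, nat_lit 1, nat_lit 4, nat_lit 0x4b⟩ (t14_6547) (t14_14739)))) (.node ⟨nat_lit 7, nat_lit 0x40004c0070, nat_lit 0x201112, nat_lit 0, nat_lit 4, nat_lit 0x47⟩ (.node ⟨nat_lit 7, nat_lit 0x1800180060, nat_lit 0x2110211, nat_lit 1, nat_lit 4, nat_lit 0x48⟩ (.node ⟨nat_lit 6, nat_lit 0x1000200034, nat_lit 0x111000, nat_lit 1, nat_lit 4, nat_lit 0x46⟩ (t14_1427) (t14_9619)) (.node ⟨nat_lit 8, nat_lit 0x2000800080004000c8, nat_lit 0x11002112, nat_lit 0, nat_lit 4, nat_lit 0x49⟩ (t14_5523) (t14_13715))) (.node ⟨nat_lit 6, nat_lit 0x800200030,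 nat_lit 0x121102, nat_lit 0, nat_lit 4, nat_lit 0x48⟩ (.node ⟨nat_lit 7, nat_lit 0x20006000600050, nat_lit 0x22003, nat_lit 0, nat_lit 4, nat_lit 0x47⟩ (t14_3475) (t14_11667)) (.node ⟨nat_lit 6, nat_lit 0x2000080030, nat_lit 0x121211, nat_lit 2, nat_lit 4, nat_lit 0x49⟩ (t14_7571) (.nil))))) (.node ⟨nat_lit 5, nat_lit 0x1000100008, nat_lit 0x1100, nat_lit 0, nat_lit 3, nat_lit 0x44⟩ (.node ⟨nat_lit 5, nat_lit 0x18, nat_lit 0x11221, nat_lit 0, nat_lit 4, nat_lit 0x48⟩ (.node ⟨nat_lit 7, nat_lit 0x4000400020, nat_lit 0x111101, nat_lit 1, nat_lit 4, nat_lit 0x49⟩ (.node ⟨nat_lit 8, nat_lit 0x8000800040, nat_lit 0x2211100, nat_lit 1, nat_lit 4, nat_lit 0x4c⟩ (t14_915) (t14_9107)) (.node ⟨nat_lit 8, nat_lit 0x200020001000c0, nat_lit 0x21011002, nat_lit 1, nat_lit 4, nat_lit 0x4a⟩ (t14_5011) (t14_13203))) (.node ⟨nat_lit 8, nat_lit 0x80004000200020,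 nat_lit 0x110021, nat_lit 0, nat_lit 4, nat_lit 0x4a⟩ (.node ⟨nat_lit 7, nat_lit 0x4000200044, nat_lit 0x1111210, nat_lit 2, nat_lit 4, nat_lit 0x4a⟩ (t14_2963) (t14_11155)) (.node ⟨nat_lit 7, nat_lit 0x20004000440060, nat_lit 0x1112102, nat_lit 2, nat_lit 4, nat_lit 0x49⟩ (t14_7059) (t14_15251)))) (.node ⟨nat_lit 6, nat_lit 0x800200030, nat_lit 0x10010, nat_lit 1, nat_lit 3, nat_lit 0x45⟩ (.node ⟨nat_lit 8, nat_lit 0x80002000c0, nat_lit 0x2111111, nat_lit 0, nat_lit 4, nat_lit 0x4b⟩ (.node ⟨nat_lit 7, nat_lit 0x3000500060, nat_lit 0x112310, nat_lit 0, nat_lit 4, nat_lit 0x48⟩ (t14_1939) (t14_10131)) (.node ⟨nat_lit 7, nat_lit 0x20004000100060, nat_lit 0x12102, nat_lit 0, nat_lit 4, nat_lit 0x47⟩ (t14_6035) (t14_14227))) (.node ⟨nat_lit 7, nat_lit 0x10004000400060, nat_lit 0x11220, nat_lit 0, nat_lit 4, nat_lit 0x48⟩ (.node ⟨nat_lit 7, nat_lit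 0x4000600070, nat_lit 0x1010013, nat_lit 0, nat_lit 4, nat_lit 0x47⟩ (t14_3987) (t14_12179)) (.node ⟨nat_lit 8, nat_lit 0x40008000800060009000d0, nat_lit 0x10111101, nat_lit 1, nat_lit 4, nat_lit 0x47⟩ (t14_8083) (.nil)))))
def t14_83 : Tr := .node ⟨nat_lit 6, nat_lit 0x300030, nat_lit 0x113111, nat_lit 0, nat_lit 4, nat_lit 0x49⟩ (.nil) (.nil)
def t14_8275 : Tr := .node ⟨nat_lit 6, nat_lit 0x80030, nat_lit 0x104, nat_lit 0, nat_lit 4, nat_lit 0x46⟩ (.nil) (.nil)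
def t14_4179 : Tr := .node ⟨nat_lit 9, nat_lit 0x10001000080011001200180, nat_lit 0x11101002, nat_lit 1, nat_lit 4, nat_lit 0x49⟩ (.nil) (.nil)
def t14_12371 : Tr := .node ⟨nat_lit 6, nat_lit 0x2000280030, nat_lit 0x1310, nat_lit 3, nat_lit 4, nat_lit 0x47⟩ (.nil) (.nil)
def t14_2131 : Tr := .node ⟨nat_lit 7, nat_lit 0x40002000500060, nat_lit 0x22021, nat_lit 2, nat_lit 4, nat_lit 0x48⟩ (.nil) (.nil)
def t14_10323 : Tr := .node ⟨nat_lit 6, nat_lit 0x800300030, nat_lit 0x100022, nat_lit 2, nat_lit 4, nat_lit 0x46⟩ (.nil) (.nil)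
def t14_6227 : Tr := .node ⟨nat_lit 6, nat_lit 0x200020, nat_lit 0x11120, nat_lit 3, nat_lit 4, nat_lit 0x49⟩ (.nil) (.nil)
def t14_14419 : Tr := .node ⟨nat_lit 8, nat_lit 0x4000400040008000800084, nat_lit 0x110210, nat_lit 1, nat_lit 4, nat_lit 0x48⟩ (.nil) (.nil)
def t14_1107 : Tr := .node ⟨nat_lit 7, nat_lit 0x40002000480064, nat_lit 0x112001, nat_lit 1, nat_lit 4, nat_lit 0x47⟩ (.nil) (.nil)
def t14_9299 : Tr := .node ⟨nat_lit 8, nat_lit 0x40004000c000a000d0, nat_lit 0x110221, nat_lit 0, nat_lit 4, nat_lit 0x47⟩ (.nil) (.nil)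
def t14_5203 : Tr := .node ⟨nat_lit 6, nat_lit 0x8000c0030, nat_lit 0x100211, nat_lit 1, nat_lit 4, nat_lit 0x46⟩ (.nil) (.nil)
def t14_13395 : Tr := .node ⟨nat_lit 8, nat_lit 0x80004000a000a0005000d0, nat_lit 0x120000, nat_lit 2, nat_lit 4, nat_lit 0x46⟩ (.nil) (.nil)
def t14_3155 : Tr := .node ⟨nat_lit 8, nat_lit 0x20002000c000c0, nat_lit 0x110021, nat_lit 0, nat_lit 4, nat_lit 0x48⟩ (.nil) (.nil)
def t14_11347 : Tr := .node ⟨nat_lit 6, nat_lit 0x2000200030, nat_lit 0x1110, nat_lit 3, nat_lit 3, nat_lit 0x46⟩ (.nil) (.nil)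
def t14_7251 : Tr := .node ⟨nat_lit 6, nat_lit 0x300038, nat_lit 0x202112, nat_lit 0, nat_lit 4, nat_lit 0x48⟩ (.nil) (.nil)
def t14_15443 : Tr := .node ⟨nat_lit 7, nat_lit 0x20005000500060, nat_lit 0x1010221, nat_lit 0, nat_lit 4, nat_lit 0x47⟩ (.nil) (.nil)
def t14_595 : Tr := .node ⟨nat_lit 6, nat_lit 0x10002000300034, nat_lit 0x2020, nat_lit 3, nat_lit 4, nat_lit 0x45⟩ (.nil) (.nil)
def t14_8787 : Tr := .node ⟨nat_lit 8, nat_lit 0x8000800040004000d0, nat_lit 0x120103, nat_lit 0, nat_lit 4, nat_lit 0x48⟩ (.nil) (.nil)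
def t14_4691 : Tr := .node ⟨nat_lit 8, nat_lit 0x400040008000a000c4, nat_lit 0x10010102, nat_lit 0, nat_lit 4, nat_lit 0x47⟩ (.nil) (.nil)
def t14_12883 : Tr := .node ⟨nat_lit 8, nat_lit 0x200040008000c0, nat_lit 0x20020, nat_lit 1, nat_lit 4, nat_lit 0x49⟩ (.nil) (.nil)
def t14_2643 : Tr := .node ⟨nat_lit 6, nat_lit 0x1000200030, nat_lit 0x330, nat_lit 0, nat_lit 4, nat_lit 0x47⟩ (.nil) (.nil)
def t14_10835 : Tr := .node ⟨nat_lit 8, nat_lit 0x400080002000c000d0, nat_lit 0x1110122, nat_lit 0, nat_lit 4, nat_lit 0x48⟩ (.nil) (.nil)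
def t14_6739 : Tr := .node ⟨nat_lit 7, nat_lit 0x4000500064, nat_lit 0x121101, nat_lit 0, nat_lit 4, nat_lit 0x48⟩ (.nil) (.nil)
def t14_14931 : Tr := .node ⟨nat_lit 7, nat_lit 0x200040004800480048, nat_lit 0x1001111, nat_lit 5, nat_lit 4, nat_lit 0x48⟩ (.nil) (.nil)
def t14_1619 : Tr := .node ⟨nat_lit 6, nat_lit 0x1000280034, nat_lit 0x1201, nat_lit 1, nat_lit 4, nat_lit 0x45⟩ (.nil) (.nil)
def t14_9811 : Tr := .node ⟨nat_lit 8, nat_lit 0x80002000c000e0, nat_lit 0x11002, nat_lit 0, nat_lit 4, nat_lit 0x47⟩ (.nil) (.nil)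
def t14_5715 : Tr := .node ⟨nat_lit 7, nat_lit 0x2000500060, nat_lit 0x11022, nat_lit 3, nat_lit 4, nat_lit 0x48⟩ (.nil) (.nil)
def t14_13907 : Tr := .node ⟨nat_lit 6, nat_lit 0x800300030, nat_lit 0x1440, nat_lit 0, nat_lit 4, nat_lit 0x47⟩ (.nil) (.nil)
def t14_3667 : Tr := .node ⟨nat_lit 5, nat_lit 0x18, nat_lit 0x21301, nat_lit 0, nat_lit 4, nat_lit 0x49⟩ (.nil) (.nil)
def t14_11859 : Tr := .node ⟨nat_lit 4, nat_lit 0xc000c, nat_lit 0x3010, nat_lit 6, nat_lit 3, nat_lit 0x45⟩ (.nil) (.nil)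
def t14_7763 : Tr := .node ⟨nat_lit 8, nat_lit 0x800080004000a0004800e0, nat_lit 0x102102, nat_lit 1, nat_lit 4, nat_lit 0x46⟩ (.nil) (.nil)
def t9_83 : Tr := .node ⟨nat_lit 4, nat_lit 0x80008, nat_lit 0x110, nat_lit 3, nat_lit 3, nat_lit 0x44⟩ (.node ⟨nat_lit 5, nat_lit 0, nat_lit 0x32222, nat_lit 1, nat_lit 4, nat_lit 0x4c⟩ (.node ⟨nat_lit 6, nat_lit 0x10001000200030, nat_lit 0x203012, nat_lit 0, nat_lit 3, nat_lit 0x46⟩ (.node ⟨nat_lit 7, nat_lit 0x40002000480064, nat_lit 0x1211001, nat_lit 1, nat_lit 4, nat_lit 0x48⟩ (.node ⟨nat_lit 6, nat_lit 0x1000200020, nat_lit 0x121311, nat_lit 0, nat_lit 3, nat_lit 0x48⟩ (t14_83) (t14_8275)) (.node ⟨nat_lit 7, nat_lit 0x10004000200060, nat_lit 0x100004, nat_lit 2, nat_lit 4, nat_lit 0x48⟩ (t14_4179) (t14_12371))) (.node ⟨nat_lit 7, nat_lit 0x2000500060, nat_lit 0x2011022, nat_lit 0, nat_lit 4, nat_lit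 0x49⟩ (.node ⟨nat_lit 5, nat_lit 0x800100010, nat_lit 0x410, nat_lit 1, nat_lit 3, nat_lit 0x45⟩ (t14_2131) (t14_10323)) (.node ⟨nat_lit 7, nat_lit 0x40004000480060, nat_lit 0x120102, nat_lit 2, nat_lit 4, nat_lit 0x48⟩ (t14_6227) (t14_14419)))) (.node ⟨nat_lit 6, nat_lit 0x1000200030, nat_lit 0x2023, nat_lit 1, nat_lit 4, nat_lit 0x47⟩ (.node ⟨nat_lit 5, nat_lit 0x40018, nat_lit 0x22121, nat_lit 1, nat_lit 4, nat_lit 0x48⟩ (.node ⟨nat_lit 6, nat_lit 0x20001000100010, nat_lit 0x301110, nat_lit 0, nat_lit 3, nat_lit 0x47⟩ (t14_1107) (t14_9299)) (.node ⟨nat_lit 6, nat_lit 0x2000300030, nat_lit 0x11231, nat_lit 4, nat_lit 4, nat_lit 0x48⟩ (t14_5203) (t14_13395))) (.node ⟨nat_lit 7, nat_lit 0x40004000200020, nat_lit 0x121010, nat_lit 2, nat_lit 4, nat_lit 0x49⟩ (.node ⟨nat_lit 5, nat_lit 0x140018, nat_lit 0x2101, nat_lit 3, nat_lit 4, nat_lit 0x46⟩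 (t14_3155) (t14_11347)) (.node ⟨nat_lit 7, nat_lit 0x10004000180060, nat_lit 0x111220, nat_lit 0, nat_lit 4, nat_lit 0x47⟩ (t14_7251) (t14_15443))))) (.node ⟨nat_lit 2, nat_lit 2, nat_lit 0x21, nat_lit 8, nat_lit 3, nat_lit 0x44⟩ (.node ⟨nat_lit 5, nat_lit 0x1000080014, nat_lit 0x2120, nat_lit 2, nat_lit 4, nat_lit 0x46⟩ (.node ⟨nat_lit 6, nat_lit 0x2000200034, nat_lit 0x12101, nat_lit 5, nat_lit 4, nat_lit 0x48⟩ (.node ⟨nat_lit 6, nat_lit 0x1000200030, nat_lit 0x211220, nat_lit 0, nat_lit 4, nat_lit 0x49⟩ (t14_595) (t14_8787)) (.node ⟨nat_lit 6, nat_lit 0x80030, nat_lit 0x221112, nat_lit 1, nat_lit 4, nat_lit 0x4a⟩ (t14_4691) (t14_12883))) (.node ⟨nat_lit 6, nat_lit 0x1000300028, nat_lit 0x100112, nat_lit 3, nat_lit 4, nat_lit 0x46⟩ (.node ⟨nat_lit 7, nat_lit 0x40004800480070, nat_lit 0x1211003, nat_lit 1, nat_lit 4, nat_lit 0x48⟩ (t14_2643) (t14_10835))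 (.node ⟨nat_lit 6, nat_lit 0x20001000280030, nat_lit 0x112112, nat_lit 4, nat_lit 4, nat_lit 0x48⟩ (t14_6739) (t14_14931)))) (.node ⟨nat_lit 5, nat_lit 0x100008, nat_lit 0x2121, nat_lit 5, nat_lit 4, nat_lit 0x48⟩ (.node ⟨nat_lit 7, nat_lit 0x400060, nat_lit 0x2021101, nat_lit 1, nat_lit 4, nat_lit 0x4b⟩ (.node ⟨nat_lit 5, nat_lit 0x80010, nat_lit 0x11, nat_lit 0, nat_lit 4, nat_lit 0x44⟩ (t14_1619) (t14_9811)) (.node ⟨nat_lit 7, nat_lit 0x400060, nat_lit 0x1022111, nat_lit 1, nat_lit 4, nat_lit 0x4b⟩ (t14_5715) (t14_13907))) (.node ⟨nat_lit 6, nat_lit 0xc0030, nat_lit 0x112021, nat_lit 2, nat_lit 4, nat_lit 0x48⟩ (.node ⟨nat_lit 7, nat_lit 0x200020004000400064, nat_lit 0x1010000, nat_lit 1, nat_lit 4, nat_lit 0x46⟩ (t14_3667) (t14_11859)) (.node ⟨nat_lit 6, nat_lit 0x800080030, nat_lit 0x101102, nat_lit 1, nat_lit 4, nat_lit 0x47⟩ (t14_7763) (.nil)))))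
def t14_339 : Tr := .node ⟨nat_lit 7, nat_lit 0x4800600070, nat_lit 0x1020112, nat_lit 1, nat_lit 4, nat_lit 0x47⟩ (.nil) (.nil)
def t14_8531 : Tr := .node ⟨nat_lit 6, nat_lit 0x2000100024, nat_lit 0x101104, nat_lit 2, nat_lit 4, nat_lit 0x48⟩ (.nil) (.nil)
def t14_4435 : Tr := .node ⟨nat_lit 7, nat_lit 0x100060, nat_lit 0x1112211, nat_lit 0, nat_lit 4, nat_lit 0x4b⟩ (.nil) (.nil)
def t14_12627 : Tr := .node ⟨nat_lit 7, nat_lit 0x40006000500068, nat_lit 0x102300, nat_lit 2, nat_lit 4, nat_lit 0x47⟩ (.nil) (.nil)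
def t14_2387 : Tr := .node ⟨nat_lit 7, nat_lit 0x40006000600068, nat_lit 0x12102, nat_lit 3, nat_lit 4, nat_lit 0x47⟩ (.nil) (.nil)
def t14_10579 : Tr := .node ⟨nat_lit 7, nat_lit 0x40002000600068, nat_lit 0x11100, nat_lit 0, nat_lit 4, nat_lit 0x46⟩ (.nil) (.nil)
def t14_6483 : Tr := .node ⟨nat_lit 6, nat_lit 0x2000240030, nat_lit 0x111000, nat_lit 3, nat_lit 4, nat_lit 0x47⟩ (.nil) (.nil)
def t14_14675 : Tr := .node ⟨nat_lit 9, nat_lit 0x1000100008000800120019001c0, nat_lit 0x1121110, nat_lit 0, nat_lit 4, nat_lit 0x47⟩ (.nil) (.nil)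
def t14_1363 : Tr := .node ⟨nat_lit 6, nat_lit 0x2000300030, nat_lit 0x12310, nat_lit 1, nat_lit 3, nat_lit 0x46⟩ (.nil) (.nil)
def t14_9555 : Tr := .node ⟨nat_lit 8, nat_lit 0x80004000a000c800b0, nat_lit 0x1120201, nat_lit 0, nat_lit 4, nat_lit 0x47⟩ (.nil) (.nil)
def t14_5459 : Tr := .node ⟨nat_lit 7, nat_lit 0x1000400060, nat_lit 0x11003, nat_lit 1, nat_lit 4, nat_lit 0x48⟩ (.nil) (.nil)
def t14_13651 : Tr := .node ⟨nat_lit 6, nat_lit 0x2000080030, nat_lit 0x1012, nat_lit 4, nat_lit 4, nat_lit 0x47⟩ (.nil) (.nil)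
def t14_3411 : Tr := .node ⟨nat_lit 6, nat_lit 0x1000200030, nat_lit 0x102100, nat_lit 0, nat_lit 3, nat_lit 0x46⟩ (.nil) (.nil)
def t14_11603 : Tr := .node ⟨nat_lit 7, nat_lit 0x10006000600070, nat_lit 0x12301, nat_lit 0, nat_lit 4, nat_lit 0x46⟩ (.nil) (.nil)
def t14_7507 : Tr := .node ⟨nat_lit 7, nat_lit 0x400040004000200020, nat_lit 0x122111, nat_lit 1, nat_lit 4, nat_lit 0x49⟩ (.nil) (.nil)
def t14_851 : Tr := .node ⟨nat_lit 7, nat_lit 0x10004000180060, nat_lit 0x1010103, nat_lit 0, nat_lit 4, nat_lit 0x47⟩ (.nil) (.nil)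
def t14_9043 : Tr := .node ⟨nat_lit 5, nat_lit 0x1000180018, nat_lit 0x231, nat_lit 7, nat_lit 4, nat_lit 0x46⟩ (.nil) (.nil)
def t14_4947 : Tr := .node ⟨nat_lit 8, nat_lit 0x400080008800c000c8, nat_lit 0x10110013, nat_lit 0, nat_lit 4, nat_lit 0x47⟩ (.nil) (.nil)
def t14_13139 : Tr := .node ⟨nat_lit 6, nat_lit 0x1000280034, nat_lit 0x230, nat_lit 1, nat_lit 4, nat_lit 0x45⟩ (.nil) (.nil)
def t14_2899 : Tr := .node ⟨nat_lit 7, nat_lit 0x20004000600064, nat_lit 0x2012110, nat_lit 0, nat_lit 4, nat_lit 0x48⟩ (.nil) (.nil)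
def t14_11091 : Tr := .node ⟨nat_lit 7, nat_lit 0x40001000600060, nat_lit 0x12020, nat_lit 1, nat_lit 4, nat_lit 0x47⟩ (.nil) (.nil)
def t14_6995 : Tr := .node ⟨nat_lit 7, nat_lit 0x10004000400060, nat_lit 0x1100211, nat_lit 1, nat_lit 3, nat_lit 0x47⟩ (.nil) (.nil)
def t14_15187 : Tr := .node ⟨nat_lit 7, nat_lit 0x4000500060, nat_lit 0x101021, nat_lit 3, nat_lit 4, nat_lit 0x48⟩ (.nil) (.nil)
def t14_1875 : Tr := .node ⟨nat_lit 5, nat_lit 0x100018, nat_lit 0x221, nat_lit 5, nat_lit 4, nat_lit 0x47⟩ (.nil) (.nil)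
def t14_10067 : Tr := .node ⟨nat_lit 8, nat_lit 0x800020009000c000d0, nat_lit 0x1000020, nat_lit 0, nat_lit 4, nat_lit 0x46⟩ (.nil) (.nil)
def t14_5971 : Tr := .node ⟨nat_lit 8, nat_lit 0x8000800084, nat_lit 0x1111121, nat_lit 1, nat_lit 4, nat_lit 0x4b⟩ (.nil) (.nil)
def t14_14163 : Tr := .node ⟨nat_lit 7, nat_lit 0x4000100060, nat_lit 0x11201, nat_lit 4, nat_lit 4, nat_lit 0x49⟩ (.nil) (.nil)
def t14_3923 : Tr := .node ⟨nat_lit 7, nat_lit 0x40005000680068, nat_lit 0x1001120, nat_lit 2, nat_lit 4, nat_lit 0x46⟩ (.nil) (.nil)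
def t14_12115 : Tr := .node ⟨nat_lit 6, nat_lit 0x800300028, nat_lit 0x100210, nat_lit 5, nat_lit 4, nat_lit 0x47⟩ (.nil) (.nil)
def t14_8019 : Tr := .node ⟨nat_lit 5, nat_lit 0x40018, nat_lit 1, nat_lit 5, nat_lit 4, nat_lit 0x45⟩ (.nil) (.nil)
def t9_339 : Tr := .node ⟨nat_lit 6, nat_lit 0x200020, nat_lit 0x131111, nat_lit 1, nat_lit 4, nat_lit 0x4a⟩ (.node ⟨nat_lit 5, nat_lit 0x80010, nat_lit 0x20301, nat_lit 0, nat_lit 4, nat_lit 0x48⟩ (.node ⟨nat_lit 4, nat_lit 0, nat_lit 0x2221, nat_lit 0, nat_lit 4, nat_lit 0x48⟩ (.node ⟨nat_lit 6, nat_lit 0x2000200034, nat_lit 0x112102, nat_lit 2, nat_lit 4, nat_lit 0x48⟩ (.node ⟨nat_lit 7, nat_lit 0x4000200010, nat_lit 0x1121012, nat_lit 2, nat_lit 4, nat_lit 0x4b⟩ (t14_339) (t14_8531)) (.node ⟨nat_lit 6, nat_lit 0x10002000200020, nat_lit 0x20110, nat_lit 0, nat_lit 3, nat_lit 0x46⟩ (t14_4435) (t14_12627)))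 (.node ⟨nat_lit 4, nat_lit 0x8000c, nat_lit 0x2121, nat_lit 6, nat_lit 3, nat_lit 0x46⟩ (.node ⟨nat_lit 8, nat_lit 0x800040002000c000e0, nat_lit 0x100123, nat_lit 1, nat_lit 4, nat_lit 0x47⟩ (t14_2387) (t14_10579)) (.node ⟨nat_lit 4, nat_lit 8, nat_lit 0x213, nat_lit 7, nat_lit 4, nat_lit 0x48⟩ (t14_6483) (t14_14675)))) (.node ⟨nat_lit 6, nat_lit 0x800080030, nat_lit 0x210002, nat_lit 0, nat_lit 4, nat_lit 0x47⟩ (.node ⟨nat_lit 5, nat_lit 0x80010, nat_lit 0x22122, nat_lit 5, nat_lit 4, nat_lit 0x4a⟩ (.node ⟨nat_lit 5, nat_lit 0x800080010, nat_lit 0x20400, nat_lit 0, nat_lit 3, nat_lit 0x46⟩ (t14_1363) (t14_9555)) (.node ⟨nat_lit 7, nat_lit 0x1000600060, nat_lit 0x2021120, nat_lit 0, nat_lit 4, nat_lit 0x49⟩ (t14_5459) (t14_13651))) (.node ⟨nat_lit 5, nat_lit 0x40018, nat_lit 0x31002, nat_lit 4, nat_lit 4, nat_lit 0x48⟩ (.node ⟨nat_lit 8, nat_lit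 0x80002000200040, nat_lit 0x1110300, nat_lit 2, nat_lit 4, nat_lit 0x4b⟩ (t14_3411) (t14_11603)) (.node ⟨nat_lit 6, nat_lit 0x2000200030, nat_lit 0x11200, nat_lit 1, nat_lit 3, nat_lit 0x46⟩ (t14_7507) (.nil))))) (.node ⟨nat_lit 5, nat_lit 0x100008, nat_lit 0x310, nat_lit 3, nat_lit 4, nat_lit 0x47⟩ (.node ⟨nat_lit 4, nat_lit 0xc, nat_lit 0x2211, nat_lit 7, nat_lit 4, nat_lit 0x48⟩ (.node ⟨nat_lit 6, nat_lit 0x1000200032, nat_lit 0x101110, nat_lit 1, nat_lit 4, nat_lit 0x46⟩ (.node ⟨nat_lit 7, nat_lit 0x4000100060, nat_lit 0x21201, nat_lit 1, nat_lit 4, nat_lit 0x49⟩ (t14_851) (t14_9043)) (.node ⟨nat_lit 7, nat_lit 0x4000600060, nat_lit 0x121221, nat_lit 0, nat_lit 4, nat_lit 0x49⟩ (t14_4947) (t14_13139))) (.node ⟨nat_lit 4, nat_lit 0xc000c, nat_lit 0x1121, nat_lit 8, nat_lit 4, nat_lit 0x46⟩ (.node ⟨nat_lit 8, nat_lit 0x800040002000200090, nat_lit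 0x11020101, nat_lit 1, nat_lit 4, nat_lit 0x49⟩ (t14_2899) (t14_11091)) (.node ⟨nat_lit 7, nat_lit 0x10001000600060, nat_lit 0x1111032, nat_lit 0, nat_lit 4, nat_lit 0x48⟩ (t14_6995) (t14_15187)))) (.node ⟨nat_lit 6, nat_lit 0x280030, nat_lit 0x121120, nat_lit 0, nat_lit 4, nat_lit 0x48⟩ (.node ⟨nat_lit 7, nat_lit 0x4000600064, nat_lit 0x2011211, nat_lit 0, nat_lit 4, nat_lit 0x49⟩ (.node ⟨nat_lit 6, nat_lit 0x280030, nat_lit 0x111130, nat_lit 2, nat_lit 4, nat_lit 0x48⟩ (t14_1875) (t14_10067)) (.node ⟨nat_lit 7, nat_lit 0x40002000100060, nat_lit 0x121002, nat_lit 0, nat_lit 4, nat_lit 0x48⟩ (t14_5971) (t14_14163))) (.node ⟨nat_lit 4, nat_lit 0x80008, nat_lit 0x132, nat_lit 5, nat_lit 4, nat_lit 0x47⟩ (.node ⟨nat_lit 7, nat_lit 0x20001000600050, nat_lit 0x1010303, nat_lit 0, nat_lit 4, nat_lit 0x48⟩ (t14_3923) (t14_12115)) (.node ⟨nat_lit 7, nat_lit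 0x1000100060, nat_lit 0x2100102, nat_lit 0, nat_lit 4, nat_lit 0x49⟩ (t14_8019) (.nil)))))
def t14_211 : Tr := .node ⟨nat_lit 7, nat_lit 0x3000500060, nat_lit 0x1102211, nat_lit 2, nat_lit 4, nat_lit 0x48⟩ (.nil) (.nil)
def t14_8403 : Tr := .node ⟨nat_lit 5, nat_lit 0x10001000180018, nat_lit 0x1231, nat_lit 9, nat_lit 4, nat_lit 0x47⟩ (.nil) (.nil)
def t14_4307 : Tr := .node ⟨nat_lit 6, nat_lit 0x2000100030, nat_lit 0x111020, nat_lit 3, nat_lit 3, nat_lit 0x47⟩ (.nil) (.nil)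
def t14_12499 : Tr := .node ⟨nat_lit 9, nat_lit 0x8000800100010800a000c0, nat_lit 0x100210000, nat_lit 3, nat_lit 4, nat_lit 0x49⟩ (.nil) (.nil)
def t14_2259 : Tr := .node ⟨nat_lit 8, nat_lit 0x80008000800040004000a0, nat_lit 0x1110220, nat_lit 0, nat_lit 4, nat_lit 0x49⟩ (.nil) (.nil)
def t14_10451 : Tr := .node ⟨nat_lit 8, nat_lit 0x400080008800c00060, nat_lit 0x10022020, nat_lit 0, nat_lit 4, nat_lit 0x48⟩ (.nil) (.nil)
def t14_6355 : Tr := .node ⟨nat_lit 7, nat_lit 0x200040004000680064, nat_lit 0x1010020, nat_lit 1, nat_lit 4, nat_lit 0x45⟩ (.nil) (.nil)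
def t14_14547 : Tr := .node ⟨nat_lit 9, nat_lit 0x10001800140, nat_lit 0x111210, nat_lit 0, nat_lit 4, nat_lit 0x4b⟩ (.nil) (.nil)
def t14_1235 : Tr := .node ⟨nat_lit 5, nat_lit 0x800100012, nat_lit 0x10231, nat_lit 2, nat_lit 4, nat_lit 0x47⟩ (.nil) (.nil)
def t14_9427 : Tr := .node ⟨nat_lit 8, nat_lit 0x800040005000a000c000e0, nat_lit 0x10111031, nat_lit 2, nat_lit 4, nat_lit 0x47⟩ (.nil) (.nil)
def t14_5331 : Tr := .node ⟨nat_lit 6, nat_lit 0x300030, nat_lit 0x111130, nat_lit 3, nat_lit 4, nat_lit 0x49⟩ (.nil) (.nil)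
def t14_13523 : Tr := .node ⟨nat_lit 6, nat_lit 0x20, nat_lit 0x11001, nat_lit 0, nat_lit 4, nat_lit 0x48⟩ (.nil) (.nil)
def t14_3283 : Tr := .node ⟨nat_lit 8, nat_lit 0x8000400040005000a000c0, nat_lit 0x120101, nat_lit 1, nat_lit 4, nat_lit 0x47⟩ (.nil) (.nil)
def t14_11475 : Tr := .node ⟨nat_lit 7, nat_lit 0x400040002000500070, nat_lit 0x1002100, nat_lit 3, nat_lit 4, nat_lit 0x47⟩ (.nil) (.nil)
def t14_7379 : Tr := .node ⟨nat_lit 7, nat_lit 0x40001000100060, nat_lit 0x200001, nat_lit 1, nat_lit 4, nat_lit 0x47⟩ (.nil) (.nil)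
def t14_15571 : Tr := .node ⟨nat_lit 8, nat_lit 0, nat_lit 0x11111111, nat_lit 3, nat_lit 4, nat_lit 0x4f⟩ (.nil) (.nil)
def t14_723 : Tr := .node ⟨nat_lit 5, nat_lit 0x40018, nat_lit 0x11030, nat_lit 1, nat_lit 4, nat_lit 0x46⟩ (.nil) (.nil)
def t14_8915 : Tr := .node ⟨nat_lit 7, nat_lit 0x40006000680070, nat_lit 0x10013, nat_lit 2, nat_lit 4, nat_lit 0x45⟩ (.nil) (.nil)
def t14_4819 : Tr := .node ⟨nat_lit 6, nat_lit 0x20001000280034, nat_lit 0x131102, nat_lit 2, nat_lit 4, nat_lit 0x48⟩ (.nil) (.nil)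
def t14_13011 : Tr := .node ⟨nat_lit 5, nat_lit 0x1000080008, nat_lit 0x40110, nat_lit 0, nat_lit 3, nat_lit 0x47⟩ (.nil) (.nil)
def t14_2771 : Tr := .node ⟨nat_lit 8, nat_lit 0x40008000a000c800c8, nat_lit 0x10121010, nat_lit 1, nat_lit 4, nat_lit 0x47⟩ (.nil) (.nil)
def t14_10963 : Tr := .node ⟨nat_lit 7, nat_lit 0x400020005000600070, nat_lit 0x1013120, nat_lit 2, nat_lit 4, nat_lit 0x47⟩ (.nil) (.nil)
def t14_6867 : Tr := .node ⟨nat_lit 7, nat_lit 0x2000400042, nat_lit 0x11031, nat_lit 0, nat_lit 4, nat_lit 0x49⟩ (.nil) (.nil)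
def t14_15059 : Tr := .node ⟨nat_lit 8, nat_lit 0x20001000c000a0, nat_lit 0x10102011, nat_lit 1, nat_lit 4, nat_lit 0x49⟩ (.nil) (.nil)
def t14_1747 : Tr := .node ⟨nat_lit 7, nat_lit 0x20002000100040, nat_lit 0x1112111, nat_lit 3, nat_lit 4, nat_lit 0x4a⟩ (.nil) (.nil)
def t14_9939 : Tr := .node ⟨nat_lit 5, nat_lit 0x18001c, nat_lit 0x140, nat_lit 3, nat_lit 4, nat_lit 0x45⟩ (.nil) (.nil)
def t14_5843 : Tr := .node ⟨nat_lit 7, nat_lit 0x2000400062, nat_lit 0x1011101, nat_lit 1, nat_lit 4, nat_lit 0x48⟩ (.nil) (.nil)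
def t14_14035 : Tr := .node ⟨nat_lit 7, nat_lit 0x40001000200048, nat_lit 0x110110, nat_lit 0, nat_lit 4, nat_lit 0x47⟩ (.nil) (.nil)
def t14_3795 : Tr := .node ⟨nat_lit 7, nat_lit 0x400020002000200068, nat_lit 0x1022100, nat_lit 2, nat_lit 4, nat_lit 0x48⟩ (.nil) (.nil)
def t14_11987 : Tr := .node ⟨nat_lit 8, nat_lit 0x8000800040004000a000a0, nat_lit 0x12210, nat_lit 0, nat_lit 4, nat_lit 0x47⟩ (.nil) (.nil)
def t14_7891 : Tr := .node ⟨nat_lit 8, nat_lit 0x40008000800084, nat_lit 0x110111, nat_lit 0, nat_lit 4, nat_lit 0x49⟩ (.nil) (.nil)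
def t9_211 : Tr := .node ⟨nat_lit 5, nat_lit 0x18, nat_lit 0x21310, nat_lit 1, nat_lit 4, nat_lit 0x49⟩ (.node ⟨nat_lit 4, nat_lit 0x8000a, nat_lit 0x3211, nat_lit 9, nat_lit 4, nat_lit 0x49⟩ (.node ⟨nat_lit 7, nat_lit 0x20002000200040, nat_lit 0x1032101, nat_lit 0, nat_lit 4, nat_lit 0x4a⟩ (.node ⟨nat_lit 4, nat_lit 0x8000a, nat_lit 0x1231, nat_lit 6, nat_lit 4, nat_lit 0x48⟩ (.node ⟨nat_lit 5, nat_lit 0x100018, nat_lit 0x12212, nat_lit 5, nat_lit 4, nat_lit 0x49⟩ (t14_211) (t14_8403)) (.node ⟨nat_lit 7, nat_lit 0x40004000200068, nat_lit 0x112103, nat_lit 1, nat_lit 4, nat_lit 0x48⟩ (t14_4307) (t14_12499))) (.node ⟨nat_lit 6, nat_lit 0x2000080030, nat_lit 0x102221, nat_lit 4, nat_lit 4, nat_lit 0x49⟩ (.node ⟨nat_lit 6, nat_lit 0x2000100030, nat_lit 0x11214, nat_lit 1, nat_lit 4, nat_lit 0x48⟩ (t14_2259) (t14_10451)) (.node ⟨nat_lit 5, nat_lit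 0x140018, nat_lit 0x2121, nat_lit 5, nat_lit 4, nat_lit 0x47⟩ (t14_6355) (t14_14547)))) (.node ⟨nat_lit 5, nat_lit 0x80010, nat_lit 0x10211, nat_lit 1, nat_lit 3, nat_lit 0x46⟩ (.node ⟨nat_lit 6, nat_lit 0x800080030, nat_lit 0x211211, nat_lit 2, nat_lit 4, nat_lit 0x49⟩ (.node ⟨nat_lit 5, nat_lit 0x18, nat_lit 0x110, nat_lit 3, nat_lit 4, nat_lit 0x46⟩ (t14_1235) (t14_9427)) (.node ⟨nat_lit 7, nat_lit 0x400060, nat_lit 0x1021121, nat_lit 2, nat_lit 4, nat_lit 0x4b⟩ (t14_5331) (t14_13523))) (.node ⟨nat_lit 7, nat_lit 0x10001000400060, nat_lit 0x1102020, nat_lit 1, nat_lit 4, nat_lit 0x48⟩ (.node ⟨nat_lit 6, nat_lit 0x1000280030, nat_lit 0x102032, nat_lit 3, nat_lit 4, nat_lit 0x48⟩ (t14_3283) (t14_11475)) (.node ⟨nat_lit 3, nat_lit 6, nat_lit 0x112, nat_lit 7, nat_lit 4, nat_lit 0x45⟩ (t14_7379) (t14_15571))))) (.node ⟨nat_lit 6, nat_lit 0x200030,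 nat_lit 0x103111, nat_lit 2, nat_lit 4, nat_lit 0x49⟩ (.node ⟨nat_lit 4, nat_lit 0xc, nat_lit 0x2112, nat_lit 5, nat_lit 4, nat_lit 0x47⟩ (.node ⟨nat_lit 7, nat_lit 0x2000100040, nat_lit 0x1012011, nat_lit 2, nat_lit 4, nat_lit 0x4a⟩ (.node ⟨nat_lit 6, nat_lit 0x2000200010, nat_lit 0x121210, nat_lit 4, nat_lit 4, nat_lit 0x4a⟩ (t14_723) (t14_8915)) (.node ⟨nat_lit 7, nat_lit 0x200040004000300048, nat_lit 0x1022020, nat_lit 0, nat_lit 4, nat_lit 0x47⟩ (t14_4819) (t14_13011))) (.node ⟨nat_lit 7, nat_lit 0x800600050, nat_lit 0x1111012, nat_lit 0, nat_lit 4, nat_lit 0x48⟩ (.node ⟨nat_lit 7, nat_lit 0x40004000200020, nat_lit 0x111030, nat_lit 5, nat_lit 4, nat_lit 0x4a⟩ (t14_2771) (t14_10963)) (.node ⟨nat_lit 7, nat_lit 0x40005000580068, nat_lit 0x1210220, nat_lit 1, nat_lit 4, nat_lit 0x47⟩ (t14_6867) (t14_15059)))) (.node ⟨nat_lit 5, nat_lit 0x18001c,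 nat_lit 0x11122, nat_lit 3, nat_lit 4, nat_lit 0x46⟩ (.node ⟨nat_lit 7, nat_lit 0x1000600060, nat_lit 0x1011121, nat_lit 0, nat_lit 4, nat_lit 0x48⟩ (.node ⟨nat_lit 7, nat_lit 0x4000600050, nat_lit 0x12013, nat_lit 0, nat_lit 4, nat_lit 0x48⟩ (t14_1747) (t14_9939)) (.node ⟨nat_lit 7, nat_lit 0x4000600050, nat_lit 0x22112, nat_lit 1, nat_lit 4, nat_lit 0x49⟩ (t14_5843) (t14_14035))) (.node ⟨nat_lit 6, nat_lit 0x2000080030, nat_lit 0x200222, nat_lit 2, nat_lit 4, nat_lit 0x48⟩ (.node ⟨nat_lit 6, nat_lit 0x1000280030, nat_lit 0x100031, nat_lit 2, nat_lit 4, nat_lit 0x46⟩ (t14_3795) (t14_11987)) (.node ⟨nat_lit 7, nat_lit 0x4000640064, nat_lit 0x1111121, nat_lit 1, nat_lit 4, nat_lit 0x48⟩ (t14_7891) (.nil)))))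
def t14_467 : Tr := .node ⟨nat_lit 8, nat_lit 0x8000200020009000c0, nat_lit 0x11111111, nat_lit 0, nat_lit 4, nat_lit 0x49⟩ (.nil) (.nil)
def t14_8659 : Tr := .node ⟨nat_lit 8, nat_lit 0x8000200040009000d0, nat_lit 0x10011, nat_lit 0, nat_lit 4, nat_lit 0x46⟩ (.nil) (.nil)
def t14_4563 : Tr := .node ⟨nat_lit 6, nat_lit 0x300030, nat_lit 0x103121, nat_lit 3, nat_lit 4, nat_lit 0x49⟩ (.nil) (.nil)
def t14_12755 : Tr := .node ⟨nat_lit 4, nat_lit 0x8000c, nat_lit 0x230, nat_lit 6, nat_lit 3, nat_lit 0x45⟩ (.nil) (.nil)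
def t14_2515 : Tr := .node ⟨nat_lit 7, nat_lit 0x2000500060, nat_lit 0x13002, nat_lit 0, nat_lit 4, nat_lit 0x48⟩ (.nil) (.nil)
def t14_10707 : Tr := .node ⟨nat_lit 7, nat_lit 0x4000200060, nat_lit 0x10002, nat_lit 0, nat_lit 4, nat_lit 0x47⟩ (.nil) (.nil)
def t14_6611 : Tr := .node ⟨nat_lit 8, nat_lit 0x200080008400c0, nat_lit 0x1020200, nat_lit 0, nat_lit 4, nat_lit 0x49⟩ (.nil) (.nil)
def t14_14803 : Tr := .node ⟨nat_lit 9, nat_lit 0x100010001000080014001c001c0, nat_lit 0x111021, nat_lit 1, nat_lit 4, nat_lit 0x47⟩ (.nil) (.nil)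
def t14_1491 : Tr := .node ⟨nat_lit 6, nat_lit 0x2000080030, nat_lit 0x100121, nat_lit 3, nat_lit 4, nat_lit 0x47⟩ (.nil) (.nil)
def t14_9683 : Tr := .node ⟨nat_lit 8, nat_lit 0x200080003000a000c0, nat_lit 0x1010021, nat_lit 1, nat_lit 4, nat_lit 0x47⟩ (.nil) (.nil)
def t14_5587 : Tr := .node ⟨nat_lit 7, nat_lit 0x5000500060, nat_lit 0x111202, nat_lit 1, nat_lit 4, nat_lit 0x48⟩ (.nil) (.nil)
def t14_13779 : Tr := .node ⟨nat_lit 8, nat_lit 0x10004000a000c0, nat_lit 0x21, nat_lit 1, nat_lit 4, nat_lit 0x47⟩ (.nil) (.nil)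
def t14_3539 : Tr := .node ⟨nat_lit 8, nat_lit 0xc00030003000a0, nat_lit 0x1201, nat_lit 0, nat_lit 4, nat_lit 0x46⟩ (.nil) (.nil)
def t14_11731 : Tr := .node ⟨nat_lit 8, nat_lit 0x8000c000c000c8, nat_lit 0x112101, nat_lit 1, nat_lit 4, nat_lit 0x48⟩ (.nil) (.nil)
def t14_7635 : Tr := .node ⟨nat_lit 9, nat_lit 0x8001000100004000400110, nat_lit 0x22100, nat_lit 1, nat_lit 4, nat_lit 0x49⟩ (.nil) (.nil)
def t14_979 : Tr := .node ⟨nat_lit 7, nat_lit 0x4000200044, nat_lit 0x21201, nat_lit 2, nat_lit 4, nat_lit 0x49⟩ (.nil) (.nil)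
def t14_9171 : Tr := .node ⟨nat_lit 7, nat_lit 0x20006000500068, nat_lit 0x1001212, nat_lit 1, nat_lit 4, nat_lit 0x46⟩ (.nil) (.nil)
def t14_5075 : Tr := .node ⟨nat_lit 7, nat_lit 0x10004000400060, nat_lit 0x100311, nat_lit 4, nat_lit 4, nat_lit 0x49⟩ (.nil) (.nil)
def t14_13267 : Tr := .node ⟨nat_lit 7, nat_lit 0x1000400060, nat_lit 0x2101001, nat_lit 0, nat_lit 3, nat_lit 0x48⟩ (.nil) (.nil)
def t14_3027 : Tr := .node ⟨nat_lit 7, nat_lit 0x20001000500068, nat_lit 0x1002010, nat_lit 0, nat_lit 4, nat_lit 0x46⟩ (.nil) (.nil)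
def t14_11219 : Tr := .node ⟨nat_lit 7, nat_lit 0x20006000500050, nat_lit 0x11140, nat_lit 0, nat_lit 4, nat_lit 0x47⟩ (.nil) (.nil)
def t14_7123 : Tr := .node ⟨nat_lit 8, nat_lit 0x2000c000c0, nat_lit 0x10021011, nat_lit 1, nat_lit 4, nat_lit 0x4a⟩ (.nil) (.nil)
def t14_15315 : Tr := .node ⟨nat_lit 7, nat_lit 0x200040004000400068, nat_lit 0x112100, nat_lit 3, nat_lit 4, nat_lit 0x48⟩ (.nil) (.nil)
def t14_2003 : Tr := .node ⟨nat_lit 6, nat_lit 0x2000200030, nat_lit 0x22201, nat_lit 3, nat_lit 4, nat_lit 0x49⟩ (.nil) (.nil)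
def t14_10195 : Tr := .node ⟨nat_lit 6, nat_lit 0x10002000240030, nat_lit 0x2100, nat_lit 2, nat_lit 4, nat_lit 0x45⟩ (.nil) (.nil)
def t14_6099 : Tr := .node ⟨nat_lit 0, nat_lit 0, nat_lit 0, nat_lit 0xe, nat_lit 3, nat_lit 0x42⟩ (.nil) (.nil)
def t14_14291 : Tr := .node ⟨nat_lit 7, nat_lit 0x10004000200060, nat_lit 0x10102, nat_lit 5, nat_lit 4, nat_lit 0x48⟩ (.nil) (.nil)
def t14_4051 : Tr := .node ⟨nat_lit 8, nat_lit 0x800040004000a000c8, nat_lit 0x1002121, nat_lit 1, nat_lit 4, nat_lit 0x48⟩ (.nil) (.nil)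
def t14_12243 : Tr := .node ⟨nat_lit 7, nat_lit 0x400040004800500060, nat_lit 0x112000, nat_lit 5, nat_lit 4, nat_lit 0x48⟩ (.nil) (.nil)
def t14_8147 : Tr := .node ⟨nat_lit 6, nat_lit 0x2000240030, nat_lit 0x11240, nat_lit 2, nat_lit 4, nat_lit 0x48⟩ (.nil) (.nil)
def t9_467 : Tr := .node ⟨nat_lit 5, nat_lit 0x80010, nat_lit 0x23310, nat_lit 0, nat_lit 3, nat_lit 0x49⟩ (.node ⟨nat_lit 7, nat_lit 0x10004000440064, nat_lit 0x3100012, nat_lit 1, nat_lit 4, nat_lit 0x48⟩ (.node ⟨nat_lit 6, nat_lit 0x2000200010, nat_lit 0x22202, nat_lit 0, nat_lit 4, nat_lit 0x49⟩ (.node ⟨nat_lit 7, nat_lit 0x40004000200062, nat_lit 0x112021, nat_lit 0, nat_lit 4, nat_lit 0x48⟩ (.node ⟨nat_lit 5, nat_lit 0x1000100008, nat_lit 0x2401, nat_lit 0, nat_lit 3, nat_lit 0x46⟩ (t14_467) (t14_8659)) (.node ⟨nat_lit 7, nat_lit 0x200040004000480030, nat_lit 0x1222001, nat_lit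 1, nat_lit 4, nat_lit 0x49⟩ (t14_4563) (t14_12755))) (.node ⟨nat_lit 6, nat_lit 0x80030, nat_lit 0x110002, nat_lit 0, nat_lit 4, nat_lit 0x47⟩ (.node ⟨nat_lit 6, nat_lit 0x2000080030, nat_lit 0x110103, nat_lit 0, nat_lit 4, nat_lit 0x47⟩ (t14_2515) (t14_10707)) (.node ⟨nat_lit 6, nat_lit 0x20002000100010, nat_lit 0x2231, nat_lit 1, nat_lit 4, nat_lit 0x47⟩ (t14_6611) (t14_14803)))) (.node ⟨nat_lit 4, nat_lit 0, nat_lit 0x2000, nat_lit 1, nat_lit 4, nat_lit 0x45⟩ (.node ⟨nat_lit 7, nat_lit 0x20002000400042, nat_lit 0x2112120, nat_lit 0, nat_lit 4, nat_lit 0x4a⟩ (.node ⟨nat_lit 6, nat_lit 0x800280030, nat_lit 0x10101, nat_lit 0, nat_lit 4, nat_lit 0x45⟩ (t14_1491) (t14_9683)) (.node ⟨nat_lit 8, nat_lit 0x80008000800040004000a0, nat_lit 0x1110220, nat_lit 1, nat_lit 4, nat_lit 0x49⟩ (t14_5587) (t14_13779))) (.node ⟨nat_lit 6, nat_lit 0x800300030,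 nat_lit 0x1321, nat_lit 1, nat_lit 4, nat_lit 0x46⟩ (.node ⟨nat_lit 5, nat_lit 0x1000080014, nat_lit 0x1000, nat_lit 3, nat_lit 4, nat_lit 0x44⟩ (t14_3539) (t14_11731)) (.node ⟨nat_lit 5, nat_lit 0x100010, nat_lit 0x21130, nat_lit 0, nat_lit 3, nat_lit 0x48⟩ (t14_7635) (.nil))))) (.node ⟨nat_lit 6, nat_lit 0x2000200010, nat_lit 0x13101, nat_lit 7, nat_lit 4, nat_lit 0x4a⟩ (.node ⟨nat_lit 6, nat_lit 0x20002000100030, nat_lit 0x12012, nat_lit 0, nat_lit 3, nat_lit 0x45⟩ (.node ⟨nat_lit 7, nat_lit 0x40004000400020, nat_lit 0x112111, nat_lit 0, nat_lit 4, nat_lit 0x49⟩ (.node ⟨nat_lit 4, nat_lit 0x8000e, nat_lit 0x1132, nat_lit 7, nat_lit 4, nat_lit 0x47⟩ (t14_979) (t14_9171)) (.node ⟨nat_lit 8, nat_lit 0x80004000400040, nat_lit 0x220211, nat_lit 0, nat_lit 4, nat_lit 0x4b⟩ (t14_5075) (t14_13267))) (.node ⟨nat_lit 5, nat_lit 0x800100012, nat_lit 0x11021,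 nat_lit 4, nat_lit 4, nat_lit 0x47⟩ (.node ⟨nat_lit 4, nat_lit 0x80008, nat_lit 0x1120, nat_lit 0xf, nat_lit 4, nat_lit 0x49⟩ (t14_3027) (t14_11219)) (.node ⟨nat_lit 6, nat_lit 0x20002000100030, nat_lit 0x23001, nat_lit 0, nat_lit 3, nat_lit 0x46⟩ (t14_7123) (t14_15315)))) (.node ⟨nat_lit 5, nat_lit 0x100018, nat_lit 0x11211, nat_lit 5, nat_lit 4, nat_lit 0x48⟩ (.node ⟨nat_lit 5, nat_lit 0x18, nat_lit 0x30111, nat_lit 5, nat_lit 4, nat_lit 0x49⟩ (.node ⟨nat_lit 7, nat_lit 0x2000400060, nat_lit 0x1021131, nat_lit 0, nat_lit 4, nat_lit 0x4a⟩ (t14_2003) (t14_10195)) (.node ⟨nat_lit 6, nat_lit 0x1000280030, nat_lit 0x11300, nat_lit 0, nat_lit 4, nat_lit 0x47⟩ (t14_6099) (t14_14291))) (.node ⟨nat_lit 4, nat_lit 0xc, nat_lit 0x4112, nat_lit 1, nat_lit 3, nat_lit 0x47⟩ (.node ⟨nat_lit 7, nat_lit 0x1000180060, nat_lit 0x1100001, nat_lit 0, nat_lit 4, nat_lit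 0x47⟩ (t14_4051) (t14_12243)) (.node ⟨nat_lit 6, nat_lit 0x2000300030, nat_lit 0x101120, nat_lit 9, nat_lit 4, nat_lit 0x48⟩ (t14_8147) (.nil)))))
def t14_51 : Tr := .node ⟨nat_lit 9, nat_lit 0x10000800040, nat_lit 0x1111000, nat_lit 1, nat_lit 4, nat_lit 0x4c⟩ (.nil) (.nil)
def t14_8243 : Tr := .node ⟨nat_lit 8, nat_lit 0x8000400020009000c0, nat_lit 0x120130, nat_lit 0, nat_lit 4, nat_lit 0x48⟩ (.nil) (.nil)
def t14_4147 : Tr := .node ⟨nat_lit 8, nat_lit 0x800080002000c000d0, nat_lit 0x1110121, nat_lit 0, nat_lit 4, nat_lit 0x48⟩ (.nil) (.nil)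
def t14_12339 : Tr := .node ⟨nat_lit 8, nat_lit 0x200080004000c000c0, nat_lit 0x1140, nat_lit 1, nat_lit 4, nat_lit 0x48⟩ (.nil) (.nil)
def t14_2099 : Tr := .node ⟨nat_lit 7, nat_lit 0x40001000500060, nat_lit 0x113001, nat_lit 0, nat_lit 3, nat_lit 0x46⟩ (.nil) (.nil)
def t14_10291 : Tr := .node ⟨nat_lit 6, nat_lit 0x20002000100028, nat_lit 0x10102, nat_lit 3, nat_lit 4, nat_lit 0x46⟩ (.nil) (.nil)
def t14_6195 : Tr := .node ⟨nat_lit 6, nat_lit 0x10001000200022, nat_lit 0x101020, nat_lit 4, nat_lit 4, nat_lit 0x47⟩ (.nil) (.nil)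
def t14_14387 : Tr := .node ⟨nat_lit 8, nat_lit 0x800040004000a000d000d0, nat_lit 0x101030, nat_lit 1, nat_lit 4, nat_lit 0x45⟩ (.nil) (.nil)
def t14_1075 : Tr := .node ⟨nat_lit 5, nat_lit 0x10, nat_lit 0x1112, nat_lit 3, nat_lit 4, nat_lit 0x48⟩ (.nil) (.nil)
def t14_9267 : Tr := .node ⟨nat_lit 7, nat_lit 0x400020002000500050, nat_lit 0x12010, nat_lit 1, nat_lit 4, nat_lit 0x46⟩ (.nil) (.nil)
def t14_5171 : Tr := .node ⟨nat_lit 5, nat_lit 0x1000180018, nat_lit 0x1330, nat_lit 5, nat_lit 4, nat_lit 0x47⟩ (.nil) (.nil)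
def t14_13363 : Tr := .node ⟨nat_lit 7, nat_lit 0x40004800300068, nat_lit 0x2120, nat_lit 1, nat_lit 4, nat_lit 0x46⟩ (.nil) (.nil)
def t14_3123 : Tr := .node ⟨nat_lit 8, nat_lit 0x80002000c000d000d0, nat_lit 0x10100121, nat_lit 2, nat_lit 4, nat_lit 0x47⟩ (.nil) (.nil)
def t14_11315 : Tr := .node ⟨nat_lit 8, nat_lit 0x6000c000a000a0, nat_lit 0x22120, nat_lit 0, nat_lit 4, nat_lit 0x47⟩ (.nil) (.nil)
def t14_7219 : Tr := .node ⟨nat_lit 7, nat_lit 0x10002000500060, nat_lit 0x113111, nat_lit 0, nat_lit 4, nat_lit 0x48⟩ (.nil) (.nil)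
def t14_15411 : Tr := .node ⟨nat_lit 9, nat_lit 0x1000100008000800090014001c0, nat_lit 0x101110010, nat_lit 0, nat_lit 4, nat_lit 0x48⟩ (.nil) (.nil)
def t14_563 : Tr := .node ⟨nat_lit 6, nat_lit 0x1000200038, nat_lit 0x102, nat_lit 0, nat_lit 4, nat_lit 0x44⟩ (.nil) (.nil)
def t14_8755 : Tr := .node ⟨nat_lit 7, nat_lit 0x10001000600060, nat_lit 0x1000020, nat_lit 1, nat_lit 4, nat_lit 0x46⟩ (.nil) (.nil)
def t14_4659 : Tr := .node ⟨nat_lit 7, nat_lit 0x10004000440060, nat_lit 0x1000131, nat_lit 0, nat_lit 4, nat_lit 0x47⟩ (.nil) (.nil)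
def t14_12851 : Tr := .node ⟨nat_lit 8, nat_lit 0x40002000c000a0, nat_lit 0x20020, nat_lit 1, nat_lit 4, nat_lit 0x48⟩ (.nil) (.nil)
def t14_2611 : Tr := .node ⟨nat_lit 7, nat_lit 0x4000200060, nat_lit 0x111202, nat_lit 1, nat_lit 4, nat_lit 0x49⟩ (.nil) (.nil)
def t14_10803 : Tr := .node ⟨nat_lit 3, nat_lit 4, nat_lit 0x221, nat_lit 0xd, nat_lit 3, nat_lit 0x47⟩ (.nil) (.nil)
def t14_6707 : Tr := .node ⟨nat_lit 7, nat_lit 0x60, nat_lit 0x1111110, nat_lit 0, nat_lit 4, nat_lit 0x4b⟩ (.nil) (.nil)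
def t14_14899 : Tr := .node ⟨nat_lit 5, nat_lit 0x100014001c, nat_lit 0x10111, nat_lit 7, nat_lit 4, nat_lit 0x46⟩ (.nil) (.nil)
def t14_1587 : Tr := .node ⟨nat_lit 8, nat_lit 0x8000800090006000c0, nat_lit 0x1111102, nat_lit 0, nat_lit 4, nat_lit 0x48⟩ (.nil) (.nil)
def t14_9779 : Tr := .node ⟨nat_lit 7, nat_lit 0x1000180060, nat_lit 0x1000201, nat_lit 0, nat_lit 3, nat_lit 0x46⟩ (.nil) (.nil)
def t14_5683 : Tr := .node ⟨nat_lit 6, nat_lit 0x2000300034, nat_lit 0x101122, nat_lit 4, nat_lit 4, nat_lit 0x47⟩ (.nil) (.nil)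
def t14_13875 : Tr := .node ⟨nat_lit 5, nat_lit 0x1000080014, nat_lit 0x22, nat_lit 2, nat_lit 4, nat_lit 0x44⟩ (.nil) (.nil)
def t14_3635 : Tr := .node ⟨nat_lit 6, nat_lit 0x1000280030, nat_lit 0x2101, nat_lit 1, nat_lit 4, nat_lit 0x46⟩ (.nil) (.nil)
def t14_11827 : Tr := .node ⟨nat_lit 8, nat_lit 0x80004000200010, nat_lit 0x100003, nat_lit 1, nat_lit 4, nat_lit 0x49⟩ (.nil) (.nil)
def t14_7731 : Tr := .node ⟨nat_lit 6, nat_lit 0x2000100008, nat_lit 2, nat_lit 5, nat_lit 4, nat_lit 0x47⟩ (.nil) (.nil)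
def t9_51 : Tr := .node ⟨nat_lit 5, nat_lit 0x10, nat_lit 0x33111, nat_lit 2, nat_lit 4, nat_lit 0x4b⟩ (.node ⟨nat_lit 6, nat_lit 0x200020, nat_lit 0x131121, nat_lit 2, nat_lit 4, nat_lit 0x4b⟩ (.node ⟨nat_lit 7, nat_lit 0x20005000680068, nat_lit 0x310120, nat_lit 1, nat_lit 4, nat_lit 0x47⟩ (.node ⟨nat_lit 6, nat_lit 0x200010, nat_lit 0x12101, nat_lit 2, nat_lit 4, nat_lit 0x49⟩ (.node ⟨nat_lit 7, nat_lit 0x20006000600050, nat_lit 0x22113, nat_lit 0, nat_lit 4, nat_lit 0x47⟩ (t14_51) (t14_8243)) (.node ⟨nat_lit 7, nat_lit 0x100060, nat_lit 0x1011000, nat_lit 0, nat_lit 4, nat_lit 0x49⟩ (t14_4147) (t14_12339))) (.node ⟨nat_lit 7, nat_lit 0x800100060, nat_lit 0x2210012, nat_lit 0, nat_lit 4, nat_lit 0x4a⟩ (.node ⟨nat_lit 6, nat_lit 0x1000080020, nat_lit 0x101210, nat_lit 1, nat_lit 4, nat_lit 0x47⟩ (t14_2099) (t14_10291)) (.node ⟨nat_lit 6, nat_lit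 0x800280030, nat_lit 0x21021, nat_lit 2, nat_lit 4, nat_lit 0x47⟩ (t14_6195) (t14_14387)))) (.node ⟨nat_lit 6, nat_lit 0x1000100020, nat_lit 0x201302, nat_lit 1, nat_lit 4, nat_lit 0x49⟩ (.node ⟨nat_lit 6, nat_lit 0x2000100010, nat_lit 0x22011, nat_lit 1, nat_lit 4, nat_lit 0x49⟩ (.node ⟨nat_lit 5, nat_lit 0x1000100008, nat_lit 0x11103, nat_lit 3, nat_lit 3, nat_lit 0x46⟩ (t14_1075) (t14_9267)) (.node ⟨nat_lit 5, nat_lit 0x100018, nat_lit 0x12121, nat_lit 5, nat_lit 3, nat_lit 0x47⟩ (t14_5171) (t14_13363))) (.node ⟨nat_lit 7, nat_lit 0x400020, nat_lit 0x221100, nat_lit 0, nat_lit 4, nat_lit 0x4b⟩ (.node ⟨nat_lit 6, nat_lit 0x800100020, nat_lit 0x111001, nat_lit 3, nat_lit 4, nat_lit 0x48⟩ (t14_3123) (t14_11315)) (.node ⟨nat_lit 4, nat_lit 0xc000c, nat_lit 0x1121, nat_lit 0xd, nat_lit 4, nat_lit 0x47⟩ (t14_7219) (t14_15411))))) (.node ⟨nat_lit 5,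 nat_lit 0x100008, nat_lit 0x3103, nat_lit 5, nat_lit 4, nat_lit 0x4a⟩ (.node ⟨nat_lit 5, nat_lit 0x1000100008, nat_lit 0x2100, nat_lit 5, nat_lit 3, nat_lit 0x46⟩ (.node ⟨nat_lit 6, nat_lit 0x20002000200028, nat_lit 0x21111, nat_lit 4, nat_lit 4, nat_lit 0x48⟩ (.node ⟨nat_lit 8, nat_lit 0x40008000800084, nat_lit 0x20110111, nat_lit 1, nat_lit 4, nat_lit 0x4b⟩ (t14_563) (t14_8755)) (.node ⟨nat_lit 6, nat_lit 0x10002000240030, nat_lit 0x111101, nat_lit 3, nat_lit 4, nat_lit 0x47⟩ (t14_4659) (t14_12851))) (.node ⟨nat_lit 7, nat_lit 0x40004800600030, nat_lit 0x101012, nat_lit 1, nat_lit 4, nat_lit 0x46⟩ (.node ⟨nat_lit 4, nat_lit 0x40008, nat_lit 0x1131, nat_lit 9, nat_lit 4, nat_lit 0x48⟩ (t14_2611) (t14_10803)) (.node ⟨nat_lit 7, nat_lit 0x400040, nat_lit 0x1221110, nat_lit 1, nat_lit 4, nat_lit 0x4c⟩ (t14_6707) (t14_14899)))) (.node ⟨nat_lit 7,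 nat_lit 0x40004000100068, nat_lit 0x121111, nat_lit 0, nat_lit 4, nat_lit 0x48⟩ (.node ⟨nat_lit 6, nat_lit 0x300028, nat_lit 0x2211, nat_lit 3, nat_lit 4, nat_lit 0x48⟩ (.node ⟨nat_lit 6, nat_lit 0x800300030, nat_lit 0x1110, nat_lit 1, nat_lit 4, nat_lit 0x45⟩ (t14_1587) (t14_9779)) (.node ⟨nat_lit 8, nat_lit 0x800020002800d000d0, nat_lit 0x21110021, nat_lit 0, nat_lit 4, nat_lit 0x48⟩ (t14_5683) (t14_13875))) (.node ⟨nat_lit 5, nat_lit 0x100018, nat_lit 0x2122, nat_lit 5, nat_lit 4, nat_lit 0x48⟩ (.node ⟨nat_lit 6, nat_lit 0x10002000340034, nat_lit 0x100030, nat_lit 5, nat_lit 4, nat_lit 0x45⟩ (t14_3635) (t14_11827)) (.node ⟨nat_lit 7, nat_lit 0x1000500060, nat_lit 0x111012, nat_lit 1, nat_lit 4, nat_lit 0x48⟩ (t14_7731) (.nil)))))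
def t14_307 : Tr := .node ⟨nat_lit 6, nat_lit 0x800280030, nat_lit 0x120412, nat_lit 0, nat_lit 4, nat_lit 0x48⟩ (.nil) (.nil)
def t14_8499 : Tr := .node ⟨nat_lit 7, nat_lit 0x40002000680070, nat_lit 0x11002, nat_lit 0, nat_lit 4, nat_lit 0x45⟩ (.nil) (.nil)
def t14_4403 : Tr := .node ⟨nat_lit 8, nat_lit 0x8000800040004000a00090, nat_lit 0x10102210, nat_lit 1, nat_lit 4, nat_lit 0x48⟩ (.nil) (.nil)
def t14_12595 : Tr := .node ⟨nat_lit 6, nat_lit 0x800300038, nat_lit 0x110203, nat_lit 1, nat_lit 4, nat_lit 0x46⟩ (.nil) (.nil)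
def t14_2355 : Tr := .node ⟨nat_lit 8, nat_lit 0x40008000c400c4, nat_lit 0x20112010, nat_lit 0, nat_lit 4, nat_lit 0x49⟩ (.nil) (.nil)
def t14_10547 : Tr := .node ⟨nat_lit 7, nat_lit 0x5000300060, nat_lit 0x1220, nat_lit 4, nat_lit 4, nat_lit 0x47⟩ (.nil) (.nil)
def t14_6451 : Tr := .node ⟨nat_lit 8, nat_lit 0x800040004000a000a000c0, nat_lit 0x10011002, nat_lit 0, nat_lit 4, nat_lit 0x47⟩ (.nil) (.nil)
def t14_14643 : Tr := .node ⟨nat_lit 7, nat_lit 0x10004000600064, nat_lit 0x100211, nat_lit 2, nat_lit 4, nat_lit 0x47⟩ (.nil) (.nil)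
def t14_1331 : Tr := .node ⟨nat_lit 8, nat_lit 0x800080004000400020, nat_lit 0x110311, nat_lit 0, nat_lit 4, nat_lit 0x49⟩ (.nil) (.nil)
def t14_9523 : Tr := .node ⟨nat_lit 6, nat_lit 0x20001000280028, nat_lit 0x111011, nat_lit 3, nat_lit 4, nat_lit 0x47⟩ (.nil) (.nil)
def t14_5427 : Tr := .node ⟨nat_lit 5, nat_lit 0x100010, nat_lit 0x1132, nat_lit 7, nat_lit 4, nat_lit 0x49⟩ (.nil) (.nil)
def t14_13619 : Tr := .node ⟨nat_lit 7, nat_lit 0x40004000100060, nat_lit 1, nat_lit 1, nat_lit 4, nat_lit 0x46⟩ (.nil) (.nil)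
def t14_3379 : Tr := .node ⟨nat_lit 7, nat_lit 0x20004000400060, nat_lit 0x20001, nat_lit 3, nat_lit 4, nat_lit 0x48⟩ (.nil) (.nil)
def t14_11571 : Tr := .node ⟨nat_lit 4, nat_lit 0xc000c, nat_lit 0x32, nat_lit 9, nat_lit 4, nat_lit 0x45⟩ (.nil) (.nil)
def t14_7475 : Tr := .node ⟨nat_lit 7, nat_lit 0x100060, nat_lit 0x1001111, nat_lit 1, nat_lit 4, nat_lit 0x49⟩ (.nil) (.nil)
def t14_819 : Tr := .node ⟨nat_lit 7, nat_lit 0x4000600060, nat_lit 0x11310, nat_lit 1, nat_lit 4, nat_lit 0x48⟩ (.nil) (.nil)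
def t14_9011 : Tr := .node ⟨nat_lit 9, nat_lit 0x1000100011001080190, nat_lit 0x1111102, nat_lit 0, nat_lit 4, nat_lit 0x49⟩ (.nil) (.nil)
def t14_4915 : Tr := .node ⟨nat_lit 8, nat_lit 0x10002000400080, nat_lit 0x11110001, nat_lit 1, nat_lit 4, nat_lit 0x4a⟩ (.nil) (.nil)
def t14_13107 : Tr := .node ⟨nat_lit 7, nat_lit 0x10004000200064, nat_lit 0x320, nat_lit 1, nat_lit 4, nat_lit 0x47⟩ (.nil) (.nil)
def t14_2867 : Tr := .node ⟨nat_lit 8, nat_lit 0x80002000a000c000d0, nat_lit 0x31102, nat_lit 0, nat_lit 4, nat_lit 0x47⟩ (.nil) (.nil)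
def t14_11059 : Tr := .node ⟨nat_lit 7, nat_lit 0x1000600060, nat_lit 0x1101020, nat_lit 0, nat_lit 4, nat_lit 0x48⟩ (.nil) (.nil)
def t14_6963 : Tr := .node ⟨nat_lit 5, nat_lit 0x40018, nat_lit 0x21101, nat_lit 5, nat_lit 4, nat_lit 0x48⟩ (.nil) (.nil)
def t14_15155 : Tr := .node ⟨nat_lit 7, nat_lit 0x20002000500060, nat_lit 0x1011012, nat_lit 3, nat_lit 4, nat_lit 0x48⟩ (.nil) (.nil)
def t14_1843 : Tr := .node ⟨nat_lit 4, nat_lit 0x8000c, nat_lit 0x322, nat_lit 5, nat_lit 4, nat_lit 0x47⟩ (.nil) (.nil)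
def t14_10035 : Tr := .node ⟨nat_lit 8, nat_lit 0x4000a000a000c0, nat_lit 0x110202, nat_lit 0, nat_lit 4, nat_lit 0x48⟩ (.nil) (.nil)
def t14_5939 : Tr := .node ⟨nat_lit 7, nat_lit 0x40001000480060, nat_lit 0x111120, nat_lit 1, nat_lit 4, nat_lit 0x47⟩ (.nil) (.nil)
def t14_14131 : Tr := .node ⟨nat_lit 7, nat_lit 0x40002000200048, nat_lit 0x1011002, nat_lit 2, nat_lit 4, nat_lit 0x48⟩ (.nil) (.nil)
def t14_3891 : Tr := .node ⟨nat_lit 8, nat_lit 0x40008000c800d000d0, nat_lit 0x1112010, nat_lit 1, nat_lit 4, nat_lit 0x47⟩ (.nil) (.nil)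
def t14_12083 : Tr := .node ⟨nat_lit 7, nat_lit 0x6000500018, nat_lit 0x1001030, nat_lit 1, nat_lit 4, nat_lit 0x47⟩ (.nil) (.nil)
def t14_7987 : Tr := .node ⟨nat_lit 9, nat_lit 0x8001000100012000c000c001a0, nat_lit 0x101010211, nat_lit 0, nat_lit 4, nat_lit 0x47⟩ (.nil) (.nil)
def t9_307 : Tr := .node ⟨nat_lit 7, nat_lit 0x400020, nat_lit 0x32100, nat_lit 1, nat_lit 4, nat_lit 0x4b⟩ (.node ⟨nat_lit 6, nat_lit 0x280030, nat_lit 0x13220, nat_lit 1, nat_lit 4, nat_lit 0x49⟩ (.node ⟨nat_lit 8, nat_lit 0x80, nat_lit 0x3111110, nat_lit 1, nat_lit 4, nat_lit 0x4e⟩ (.node ⟨nat_lit 6, nat_lit 0x280030, nat_lit 0x11220, nat_lit 0, nat_lit 4, nat_lit 0x47⟩ (.node ⟨nat_lit 5, nat_lit 0x100010, nat_lit 0x21121, nat_lit 6, nat_lit 4, nat_lit 0x4a⟩ (t14_307) (t14_8499)) (.node ⟨nat_lit 7, nat_lit 0x4000500064, nat_lit 0x101110, nat_lit 1, nat_lit 4, nat_lit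 0x47⟩ (t14_4403) (t14_12595))) (.node ⟨nat_lit 7, nat_lit 0x1000600060, nat_lit 0x2011122, nat_lit 0, nat_lit 4, nat_lit 0x49⟩ (.node ⟨nat_lit 7, nat_lit 0x40001000480060, nat_lit 0x111201, nat_lit 0, nat_lit 4, nat_lit 0x47⟩ (t14_2355) (t14_10547)) (.node ⟨nat_lit 6, nat_lit 0x2000080030, nat_lit 0x21310, nat_lit 1, nat_lit 4, nat_lit 0x48⟩ (t14_6451) (t14_14643)))) (.node ⟨nat_lit 6, nat_lit 0x2000080034, nat_lit 0x210111, nat_lit 1, nat_lit 4, nat_lit 0x47⟩ (.node ⟨nat_lit 5, nat_lit 0x80010, nat_lit 0x22222, nat_lit 2, nat_lit 4, nat_lit 0x4a⟩ (.node ⟨nat_lit 8, nat_lit 0x2000800040008800c8, nat_lit 0x10001003, nat_lit 1, nat_lit 4, nat_lit 0x47⟩ (t14_1331) (t14_9523)) (.node ⟨nat_lit 7, nat_lit 0x20004000400060, nat_lit 0x121102, nat_lit 3, nat_lit 4, nat_lit 0x49⟩ (t14_5427) (t14_13619))) (.node ⟨nat_lit 5, nat_lit 0x18, nat_lit 0x11200,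 nat_lit 0, nat_lit 4, nat_lit 0x47⟩ (.node ⟨nat_lit 6, nat_lit 0x2000100030, nat_lit 0x112030, nat_lit 0, nat_lit 3, nat_lit 0x47⟩ (t14_3379) (t14_11571)) (.node ⟨nat_lit 6, nat_lit 0x10001000200038, nat_lit 0x102012, nat_lit 5, nat_lit 4, nat_lit 0x47⟩ (t14_7475) (.nil))))) (.node ⟨nat_lit 4, nat_lit 8, nat_lit 0x312, nat_lit 7, nat_lit 4, nat_lit 0x48⟩ (.node ⟨nat_lit 5, nat_lit 0x10, nat_lit 0x21002, nat_lit 0, nat_lit 4, nat_lit 0x48⟩ (.node ⟨nat_lit 4, nat_lit 8, nat_lit 0x1111, nat_lit 6, nat_lit 4, nat_lit 0x47⟩ (.node ⟨nat_lit 5, nat_lit 0x10, nat_lit 0x32211, nat_lit 2, nat_lit 4, nat_lit 0x4b⟩ (t14_819) (t14_9011)) (.node ⟨nat_lit 7, nat_lit 0x400060, nat_lit 0x1111102, nat_lit 3, nat_lit 4, nat_lit 0x4b⟩ (t14_4915) (t14_13107))) (.node ⟨nat_lit 6, nat_lit 0x2000080030, nat_lit 0x111102, nat_lit 3, nat_lit 4, nat_lit 0x48⟩ (.node ⟨nat_lit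 2, nat_lit 2, nat_lit 0x12, nat_lit 0xf, nat_lit 4, nat_lit 0x46⟩ (t14_2867) (t14_11059)) (.node ⟨nat_lit 0xa, nat_lit 0x1000200020002040208, nat_lit 0x1011101100, nat_lit 0, nat_lit 4, nat_lit 0x4c⟩ (t14_6963) (t14_15155)))) (.node ⟨nat_lit 4, nat_lit 0x8000c, nat_lit 0x1210, nat_lit 9, nat_lit 4, nat_lit 0x47⟩ (.node ⟨nat_lit 6, nat_lit 0x2000200010, nat_lit 0x121311, nat_lit 0, nat_lit 3, nat_lit 0x48⟩ (.node ⟨nat_lit 6, nat_lit 0x20001000100038, nat_lit 0x101103, nat_lit 3, nat_lit 4, nat_lit 0x46⟩ (t14_1843) (t14_10035)) (.node ⟨nat_lit 7, nat_lit 0x40002000500064, nat_lit 0x221020, nat_lit 1, nat_lit 4, nat_lit 0x48⟩ (t14_5939) (t14_14131))) (.node ⟨nat_lit 7, nat_lit 0x10004000400060, nat_lit 0x100311, nat_lit 1, nat_lit 4, nat_lit 0x48⟩ (.node ⟨nat_lit 7, nat_lit 0x20001000500068, nat_lit 0x102000, nat_lit 0, nat_lit 4, nat_lit 0x46⟩ (t14_3891)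 (t14_12083)) (.node ⟨nat_lit 7, nat_lit 0x4000400060, nat_lit 0x111112, nat_lit 1, nat_lit 4, nat_lit 0x49⟩ (t14_7987) (.nil)))))
def t14_179 : Tr := .node ⟨nat_lit 7, nat_lit 0x20004000100060, nat_lit 0x1021221, nat_lit 1, nat_lit 4, nat_lit 0x49⟩ (.nil) (.nil)
def t14_8371 : Tr := .node ⟨nat_lit 7, nat_lit 0x400042, nat_lit 0x111023, nat_lit 0, nat_lit 4, nat_lit 0x4a⟩ (.nil) (.nil)
def t14_4275 : Tr := .node ⟨nat_lit 6, nat_lit 0x1000100020, nat_lit 0x202111, nat_lit 2, nat_lit 4, nat_lit 0x49⟩ (.nil) (.nil)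
def t14_12467 : Tr := .node ⟨nat_lit 7, nat_lit 0x200020004000400064, nat_lit 0x132, nat_lit 1, nat_lit 4, nat_lit 0x47⟩ (.nil) (.nil)
def t14_2227 : Tr := .node ⟨nat_lit 8, nat_lit 0x80008000400040004000a0, nat_lit 0x10102210, nat_lit 0, nat_lit 4, nat_lit 0x49⟩ (.nil) (.nil)
def t14_10419 : Tr := .node ⟨nat_lit 7, nat_lit 0x20002000400040, nat_lit 0x12200, nat_lit 4, nat_lit 4, nat_lit 0x49⟩ (.nil) (.nil)
def t14_6323 : Tr := .node ⟨nat_lit 6, nat_lit 0x1000200038, nat_lit 0x100102, nat_lit 3, nat_lit 4, nat_lit 0x46⟩ (.nil) (.nil)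
def t14_14515 : Tr := .node ⟨nat_lit 6, nat_lit 0x200030, nat_lit 0x3120, nat_lit 3, nat_lit 4, nat_lit 0x49⟩ (.nil) (.nil)
def t14_1203 : Tr := .node ⟨nat_lit 6, nat_lit 0x80030, nat_lit 0x1131, nat_lit 1, nat_lit 4, nat_lit 0x48⟩ (.nil) (.nil)
def t14_9395 : Tr := .node ⟨nat_lit 7, nat_lit 0x4000400060, nat_lit 0x22102, nat_lit 1, nat_lit 3, nat_lit 0x48⟩ (.nil) (.nil)
def t14_5299 : Tr := .node ⟨nat_lit 6, nat_lit 0x280030, nat_lit 0x111120, nat_lit 5, nat_lit 4, nat_lit 0x49⟩ (.nil) (.nil)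
def t14_13491 : Tr := .node ⟨nat_lit 4, nat_lit 0x8000c, nat_lit 0x30, nat_lit 8, nat_lit 4, nat_lit 0x46⟩ (.nil) (.nil)
def t14_3251 : Tr := .node ⟨nat_lit 8, nat_lit 0x40008000c000a000c8, nat_lit 0x102112, nat_lit 0, nat_lit 4, nat_lit 0x47⟩ (.nil) (.nil)
def t14_11443 : Tr := .node ⟨nat_lit 7, nat_lit 0x2000500060, nat_lit 0x1001101, nat_lit 0, nat_lit 4, nat_lit 0x47⟩ (.nil) (.nil)
def t14_7347 : Tr := .node ⟨nat_lit 6, nat_lit 0x2000080034, nat_lit 0x121100, nat_lit 3, nat_lit 4, nat_lit 0x48⟩ (.nil) (.nil)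
def t14_15539 : Tr := .node ⟨nat_lit 7, nat_lit 0, nat_lit 0x2211111, nat_lit 2, nat_lit 4, nat_lit 0x4e⟩ (.nil) (.nil)
def t14_691 : Tr := .node ⟨nat_lit 4, nat_lit 0x40008, nat_lit 0x13, nat_lit 5, nat_lit 4, nat_lit 0x45⟩ (.nil) (.nil)
def t14_8883 : Tr := .node ⟨nat_lit 8, nat_lit 0x80004000400088, nat_lit 0x112002, nat_lit 0, nat_lit 4, nat_lit 0x49⟩ (.nil) (.nil)
def t14_4787 : Tr := .node ⟨nat_lit 8, nat_lit 0x10002000a000c0, nat_lit 0x2100220, nat_lit 0, nat_lit 4, nat_lit 0x49⟩ (.nil) (.nil)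
def t14_12979 : Tr := .node ⟨nat_lit 4, nat_lit 0x8000c000c, nat_lit 0x220, nat_lit 0xa, nat_lit 4, nat_lit 0x46⟩ (.nil) (.nil)
def t14_2739 : Tr := .node ⟨nat_lit 8, nat_lit 0xa000a000c0, nat_lit 0x1021201, nat_lit 0, nat_lit 4, nat_lit 0x49⟩ (.nil) (.nil)
def t14_10931 : Tr := .node ⟨nat_lit 8, nat_lit 0x4000800060009000e000d0, nat_lit 0x10121021, nat_lit 0, nat_lit 4, nat_lit 0x46⟩ (.nil) (.nil)
def t14_6835 : Tr := .node ⟨nat_lit 7, nat_lit 0x400060, nat_lit 0x111130, nat_lit 0, nat_lit 4, nat_lit 0x4a⟩ (.nil) (.nil)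
def t14_15027 : Tr := .node ⟨nat_lit 9, nat_lit 0x10001000040012001200180, nat_lit 0x1111110, nat_lit 2, nat_lit 4, nat_lit 0x49⟩ (.nil) (.nil)
def t14_1715 : Tr := .node ⟨nat_lit 7, nat_lit 0x40001000600070, nat_lit 0x111212, nat_lit 0, nat_lit 4, nat_lit 0x47⟩ (.nil) (.nil)
def t14_9907 : Tr := .node ⟨nat_lit 6, nat_lit 0x800300030, nat_lit 0x43, nat_lit 2, nat_lit 4, nat_lit 0x46⟩ (.nil) (.nil)
def t14_5811 : Tr := .node ⟨nat_lit 7, nat_lit 0x400020, nat_lit 0x11103, nat_lit 1, nat_lit 4, nat_lit 0x4a⟩ (.nil) (.nil)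
def t14_14003 : Tr := .node ⟨nat_lit 7, nat_lit 0x20004000100060, nat_lit 0x2121, nat_lit 1, nat_lit 4, nat_lit 0x47⟩ (.nil) (.nil)
def t14_3763 : Tr := .node ⟨nat_lit 6, nat_lit 0x2000280030, nat_lit 0x22200, nat_lit 0, nat_lit 3, nat_lit 0x46⟩ (.nil) (.nil)
def t14_11955 : Tr := .node ⟨nat_lit 4, nat_lit 0x40008, nat_lit 0x1031, nat_lit 8, nat_lit 4, nat_lit 0x47⟩ (.nil) (.nil)
def t14_7859 : Tr := .node ⟨nat_lit 7, nat_lit 0x10004000440060, nat_lit 0x100111, nat_lit 3, nat_lit 4, nat_lit 0x47⟩ (.nil) (.nil)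
def t9_179 : Tr := .node ⟨nat_lit 1, nat_lit 0, nat_lit 3, nat_lit 0xb, nat_lit 3, nat_lit 0x44⟩ (.node ⟨nat_lit 5, nat_lit 0x100012, nat_lit 0x13112, nat_lit 2, nat_lit 4, nat_lit 0x48⟩ (.node ⟨nat_lit 7, nat_lit 0x40002000500064, nat_lit 0x302102, nat_lit 0, nat_lit 4, nat_lit 0x48⟩ (.node ⟨nat_lit 6, nat_lit 0x20, nat_lit 0x21100, nat_lit 0, nat_lit 4, nat_lit 0x49⟩ (.node ⟨nat_lit 8, nat_lit 0x80002000c0, nat_lit 0x2111012, nat_lit 0, nat_lit 4, nat_lit 0x4b⟩ (t14_179) (t14_8371)) (.node ⟨nat_lit 6, nat_lit 0x800300030, nat_lit 0x100210, nat_lit 0, nat_lit 4, nat_lit 0x45⟩ (t14_4275) (t14_12467))) (.node ⟨nat_lit 5, nat_lit 0x40018, nat_lit 0x22113, nat_lit 4, nat_lit 4, nat_lit 0x49⟩ (.node ⟨nat_lit 6, nat_lit 0x800280030, nat_lit 0x110231, nat_lit 2, nat_lit 4, nat_lit 0x47⟩ (t14_2227) (t14_10419)) (.node ⟨nat_lit 7, nat_lit 0x10002000500060,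 nat_lit 0x1003022, nat_lit 0, nat_lit 4, nat_lit 0x47⟩ (t14_6323) (t14_14515)))) (.node ⟨nat_lit 4, nat_lit 0x80008, nat_lit 0x1221, nat_lit 7, nat_lit 4, nat_lit 0x48⟩ (.node ⟨nat_lit 6, nat_lit 0x200030, nat_lit 0x211121, nat_lit 2, nat_lit 4, nat_lit 0x4a⟩ (.node ⟨nat_lit 7, nat_lit 0x40002000480048, nat_lit 0x110410, nat_lit 0, nat_lit 4, nat_lit 0x48⟩ (t14_1203) (t14_9395)) (.node ⟨nat_lit 7, nat_lit 0x1000500060, nat_lit 0x1012221, nat_lit 0, nat_lit 4, nat_lit 0x49⟩ (t14_5299) (t14_13491))) (.node ⟨nat_lit 7, nat_lit 0x200020004000440030, nat_lit 0x2020200, nat_lit 1, nat_lit 4, nat_lit 0x48⟩ (.node ⟨nat_lit 6, nat_lit 0x800300030, nat_lit 0x101011, nat_lit 2, nat_lit 4, nat_lit 0x46⟩ (t14_3251) (t14_11443)) (.node ⟨nat_lit 7, nat_lit 0x2000400060, nat_lit 0x1011001, nat_lit 0, nat_lit 4, nat_lit 0x48⟩ (t14_7347) (t14_15539))))) (.node ⟨nat_lit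 6, nat_lit 0x200030, nat_lit 0x13110, nat_lit 0, nat_lit 4, nat_lit 0x48⟩ (.node ⟨nat_lit 4, nat_lit 0x8000c, nat_lit 0x1212, nat_lit 7, nat_lit 4, nat_lit 0x47⟩ (.node ⟨nat_lit 8, nat_lit 0x80004000400020, nat_lit 0x120101, nat_lit 1, nat_lit 4, nat_lit 0x4a⟩ (.node ⟨nat_lit 6, nat_lit 0x10001000200022, nat_lit 0x121020, nat_lit 1, nat_lit 4, nat_lit 0x48⟩ (t14_691) (t14_8883)) (.node ⟨nat_lit 5, nat_lit 0x140018, nat_lit 0x12110, nat_lit 2, nat_lit 3, nat_lit 0x46⟩ (t14_4787) (t14_12979))) (.node ⟨nat_lit 6, nat_lit 0x800200030, nat_lit 0x10011, nat_lit 2, nat_lit 4, nat_lit 0x46⟩ (.node ⟨nat_lit 6, nat_lit 0x20002000100038, nat_lit 0x12130, nat_lit 2, nat_lit 4, nat_lit 0x47⟩ (t14_2739) (t14_10931)) (.node ⟨nat_lit 7, nat_lit 0x40002000680070, nat_lit 0x1010012, nat_lit 2, nat_lit 4, nat_lit 0x46⟩ (t14_6835) (t14_15027)))) (.node ⟨nat_lit 5,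 nat_lit 0x10001a, nat_lit 0x11122, nat_lit 3, nat_lit 4, nat_lit 0x47⟩ (.node ⟨nat_lit 7, nat_lit 0x40001000600068, nat_lit 0x1012111, nat_lit 0, nat_lit 4, nat_lit 0x47⟩ (.node ⟨nat_lit 6, nat_lit 0x300028, nat_lit 0x1113, nat_lit 2, nat_lit 4, nat_lit 0x47⟩ (t14_1715) (t14_9907)) (.node ⟨nat_lit 7, nat_lit 0x4000400060, nat_lit 0x22210, nat_lit 2, nat_lit 4, nat_lit 0x4a⟩ (t14_5811) (t14_14003))) (.node ⟨nat_lit 6, nat_lit 0x80030, nat_lit 0x202000, nat_lit 0, nat_lit 4, nat_lit 0x48⟩ (.node ⟨nat_lit 6, nat_lit 0x2000080030, nat_lit 0x2010, nat_lit 0, nat_lit 4, nat_lit 0x46⟩ (t14_3763) (t14_11955)) (.node ⟨nat_lit 6, nat_lit 0x10002000240018, nat_lit 0x110200, nat_lit 1, nat_lit 4, nat_lit 0x46⟩ (t14_7859) (.nil)))))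
def t14_435 : Tr := .node ⟨nat_lit 7, nat_lit 0x40002000500068, nat_lit 0x1112011, nat_lit 1, nat_lit 4, nat_lit 0x48⟩ (.nil) (.nil)
def t14_8627 : Tr := .node ⟨nat_lit 7, nat_lit 0x10002000400060, nat_lit 0x2100, nat_lit 0, nat_lit 4, nat_lit 0x46⟩ (.nil) (.nil)
def t14_4531 : Tr := .node ⟨nat_lit 9, nat_lit 0x800100, nat_lit 0x111111110, nat_lit 0, nat_lit 4, nat_lit 0x4e⟩ (.nil) (.nil)
def t14_12723 : Tr := .node ⟨nat_lit 7, nat_lit 0x6000500018, nat_lit 0x11102, nat_lit 1, nat_lit 4, nat_lit 0x47⟩ (.nil) (.nil)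
def t14_2483 : Tr := .node ⟨nat_lit 6, nat_lit 0x20001000280030, nat_lit 0x102300, nat_lit 2, nat_lit 4, nat_lit 0x47⟩ (.nil) (.nil)
def t14_10675 : Tr := .node ⟨nat_lit 6, nat_lit 0x800280030, nat_lit 0x1002, nat_lit 4, nat_lit 4, nat_lit 0x46⟩ (.nil) (.nil)
def t14_6579 : Tr := .node ⟨nat_lit 6, nat_lit 0x800300030, nat_lit 0x200030, nat_lit 2, nat_lit 4, nat_lit 0x47⟩ (.nil) (.nil)
def t14_14771 : Tr := .node ⟨nat_lit 7, nat_lit 0x20001000600050, nat_lit 0x1010312, nat_lit 0, nat_lit 4, nat_lit 0x48⟩ (.nil) (.nil)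
def t14_1459 : Tr := .node ⟨nat_lit 7, nat_lit 0x400040004800700070, nat_lit 0x102110, nat_lit 1, nat_lit 4, nat_lit 0x46⟩ (.nil) (.nil)
def t14_9651 : Tr := .node ⟨nat_lit 6, nat_lit 0x20002000100030, nat_lit 0x2003, nat_lit 5, nat_lit 4, nat_lit 0x47⟩ (.nil) (.nil)
def t14_5555 : Tr := .node ⟨nat_lit 7, nat_lit 0x40004000400048, nat_lit 0x111200, nat_lit 7, nat_lit 4, nat_lit 0x4a⟩ (.nil) (.nil)
def t14_13747 : Tr := .node ⟨nat_lit 7, nat_lit 0x20001000500068, nat_lit 0x1002000, nat_lit 1, nat_lit 4, nat_lit 0x46⟩ (.nil) (.nil)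
def t14_3507 : Tr := .node ⟨nat_lit 6, nat_lit 0x800300038, nat_lit 1, nat_lit 3, nat_lit 4, nat_lit 0x44⟩ (.nil) (.nil)
def t14_11699 : Tr := .node ⟨nat_lit 6, nat_lit 0x1000280030, nat_lit 0x10102, nat_lit 5, nat_lit 4, nat_lit 0x47⟩ (.nil) (.nil)
def t14_7603 : Tr := .node ⟨nat_lit 6, nat_lit 0x10002000240030, nat_lit 0x2113, nat_lit 4, nat_lit 4, nat_lit 0x46⟩ (.nil) (.nil)
def t14_947 : Tr := .node ⟨nat_lit 8, nat_lit 0x800040004000400020, nat_lit 0x10102201, nat_lit 1, nat_lit 4, nat_lit 0x4a⟩ (.nil) (.nil)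
def t14_9139 : Tr := .node ⟨nat_lit 7, nat_lit 0x4000200020, nat_lit 0x1011122, nat_lit 0, nat_lit 3, nat_lit 0x48⟩ (.nil) (.nil)
def t14_5043 : Tr := .node ⟨nat_lit 6, nat_lit 0x300038, nat_lit 0x101041, nat_lit 0, nat_lit 4, nat_lit 0x47⟩ (.nil) (.nil)
def t14_13235 : Tr := .node ⟨nat_lit 7, nat_lit 0x40001000100068, nat_lit 0x101003, nat_lit 0, nat_lit 4, nat_lit 0x46⟩ (.nil) (.nil)
def t14_2995 : Tr := .node ⟨nat_lit 8, nat_lit 0x800040004000400020, nat_lit 0x102110, nat_lit 4, nat_lit 4, nat_lit 0x4a⟩ (.nil) (.nil)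
def t14_11187 : Tr := .node ⟨nat_lit 7, nat_lit 0x20005000500068, nat_lit 0x111201, nat_lit 2, nat_lit 4, nat_lit 0x47⟩ (.nil) (.nil)
def t14_7091 : Tr := .node ⟨nat_lit 7, nat_lit 0x4000600060, nat_lit 0x111211, nat_lit 2, nat_lit 4, nat_lit 0x49⟩ (.nil) (.nil)
def t14_15283 : Tr := .node ⟨nat_lit 7, nat_lit 0x10001000600050, nat_lit 0x1001012, nat_lit 5, nat_lit 4, nat_lit 0x48⟩ (.nil) (.nil)
def t14_1971 : Tr := .node ⟨nat_lit 7, nat_lit 0x10002000400070, nat_lit 0x201102, nat_lit 0, nat_lit 4, nat_lit 0x47⟩ (.nil) (.nil)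
def t14_10163 : Tr := .node ⟨nat_lit 8, nat_lit 0x4000400040008000e000e0, nat_lit 0x11220, nat_lit 3, nat_lit 4, nat_lit 0x47⟩ (.nil) (.nil)
def t14_6067 : Tr := .node ⟨nat_lit 8, nat_lit 0x20002000a000c0, nat_lit 0x11011120, nat_lit 0, nat_lit 4, nat_lit 0x49⟩ (.nil) (.nil)
def t14_14259 : Tr := .node ⟨nat_lit 6, nat_lit 0x10002000200030, nat_lit 0x11100, nat_lit 1, nat_lit 3, nat_lit 0x45⟩ (.nil) (.nil)
def t14_4019 : Tr := .node ⟨nat_lit 8, nat_lit 0x2000800040008800c8, nat_lit 0x10001011, nat_lit 0, nat_lit 4, nat_lit 0x47⟩ (.nil) (.nil)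
def t14_12211 : Tr := .node ⟨nat_lit 8, nat_lit 0x2000c000a00030, nat_lit 0x10011102, nat_lit 1, nat_lit 4, nat_lit 0x48⟩ (.nil) (.nil)
def t14_8115 : Tr := .node ⟨nat_lit 6, nat_lit 0x2000200024, nat_lit 0x11103, nat_lit 4, nat_lit 4, nat_lit 0x48⟩ (.nil) (.nil)
def t9_435 : Tr := .node ⟨nat_lit 6, nat_lit 0x200030, nat_lit 0x211132, nat_lit 0, nat_lit 4, nat_lit 0x4a⟩ (.node ⟨nat_lit 6, nat_lit 0x2000240024, nat_lit 0x321010, nat_lit 5, nat_lit 4, nat_lit 0x4a⟩ (.node ⟨nat_lit 5, nat_lit 0x18, nat_lit 0x21212, nat_lit 0, nat_lit 4, nat_lit 0x48⟩ (.node ⟨nat_lit 7, nat_lit 0x40001000100060, nat_lit 0x110212, nat_lit 0, nat_lit 4, nat_lit 0x48⟩ (.node ⟨nat_lit 5, nat_lit 0x800100018, nat_lit 0x310, nat_lit 1, nat_lit 3, nat_lit 0x44⟩ (t14_435) (t14_8627)) (.node ⟨nat_lit 7, nat_lit 0x800500060, nat_lit 0x1121022, nat_lit 0, nat_lit 4, nat_lit 0x49⟩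 (t14_4531) (t14_12723))) (.node ⟨nat_lit 5, nat_lit 0x1000100008, nat_lit 0x2101, nat_lit 4, nat_lit 3, nat_lit 0x46⟩ (.node ⟨nat_lit 7, nat_lit 0x10002000500060, nat_lit 0x1111103, nat_lit 0, nat_lit 4, nat_lit 0x48⟩ (t14_2483) (t14_10675)) (.node ⟨nat_lit 6, nat_lit 0x1000200030, nat_lit 0x102311, nat_lit 0, nat_lit 4, nat_lit 0x48⟩ (t14_6579) (t14_14771)))) (.node ⟨nat_lit 7, nat_lit 0x1000400060, nat_lit 0x201011, nat_lit 0, nat_lit 4, nat_lit 0x48⟩ (.node ⟨nat_lit 5, nat_lit 0x100010, nat_lit 0x1122, nat_lit 1, nat_lit 3, nat_lit 0x46⟩ (.node ⟨nat_lit 7, nat_lit 0x40002000200070, nat_lit 0x1011003, nat_lit 1, nat_lit 4, nat_lit 0x47⟩ (t14_1459) (t14_9651)) (.node ⟨nat_lit 6, nat_lit 0x2000080030, nat_lit 0x102012, nat_lit 3, nat_lit 3, nat_lit 0x47⟩ (t14_5555) (t14_13747))) (.node ⟨nat_lit 7, nat_lit 0x4000400040, nat_lit 0x111200, nat_lit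 2, nat_lit 4, nat_lit 0x4a⟩ (.node ⟨nat_lit 6, nat_lit 0x800200030, nat_lit 0, nat_lit 0, nat_lit 3, nat_lit 0x44⟩ (t14_3507) (t14_11699)) (.node ⟨nat_lit 7, nat_lit 0x40004000200048, nat_lit 0x1111120, nat_lit 0, nat_lit 4, nat_lit 0x49⟩ (t14_7603) (.nil))))) (.node ⟨nat_lit 6, nat_lit 0x1000100020, nat_lit 0x300202, nat_lit 0, nat_lit 4, nat_lit 0x49⟩ (.node ⟨nat_lit 5, nat_lit 0x80010, nat_lit 0x2210, nat_lit 0, nat_lit 4, nat_lit 0x47⟩ (.node ⟨nat_lit 7, nat_lit 0x20001000400070, nat_lit 0x111102, nat_lit 1, nat_lit 4, nat_lit 0x47⟩ (.node ⟨nat_lit 6, nat_lit 0x20, nat_lit 0x111114, nat_lit 1, nat_lit 4, nat_lit 0x4b⟩ (t14_947) (t14_9139)) (.node ⟨nat_lit 6, nat_lit 0x20, nat_lit 0x122210, nat_lit 4, nat_lit 4, nat_lit 0x4c⟩ (t14_5043) (t14_13235))) (.node ⟨nat_lit 5, nat_lit 0x1000100014, nat_lit 0x12020, nat_lit 6, nat_lit 4, nat_lit 0x48⟩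 (.node ⟨nat_lit 8, nat_lit 0x4000800082, nat_lit 0x10111020, nat_lit 1, nat_lit 4, nat_lit 0x4b⟩ (t14_2995) (t14_11187)) (.node ⟨nat_lit 7, nat_lit 0x200040003000300048, nat_lit 0x1101201, nat_lit 0, nat_lit 4, nat_lit 0x46⟩ (t14_7091) (t14_15283)))) (.node ⟨nat_lit 6, nat_lit 0x200032, nat_lit 0x121110, nat_lit 0, nat_lit 4, nat_lit 0x48⟩ (.node ⟨nat_lit 7, nat_lit 0x40002000500060, nat_lit 0x120112, nat_lit 1, nat_lit 4, nat_lit 0x48⟩ (.node ⟨nat_lit 6, nat_lit 0x800200030, nat_lit 0x110013, nat_lit 4, nat_lit 4, nat_lit 0x48⟩ (t14_1971) (t14_10163)) (.node ⟨nat_lit 7, nat_lit 0x20005000600060, nat_lit 0x22200, nat_lit 1, nat_lit 4, nat_lit 0x47⟩ (t14_6067) (t14_14259))) (.node ⟨nat_lit 0xa, nat_lit 0x80004000200300, nat_lit 0x2000010002, nat_lit 2, nat_lit 4, nat_lit 0x4c⟩ (.node ⟨nat_lit 5, nat_lit 0x1000080018, nat_lit 0x30, nat_lit 1, nat_lit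 3, nat_lit 0x44⟩ (t14_4019) (t14_12211)) (.node ⟨nat_lit 9, nat_lit 0x8000800100011000a001a001c0, nat_lit 0x11111011, nat_lit 0, nat_lit 4, nat_lit 0x47⟩ (t14_8115) (.nil)))))
def t14_115 : Tr := .node ⟨nat_lit 7, nat_lit 0x1000180060, nat_lit 0x2102111, nat_lit 0, nat_lit 4, nat_lit 0x49⟩ (.nil) (.nil)
def t14_8307 : Tr := .node ⟨nat_lit 5, nat_lit 0x100018001c, nat_lit 0x202, nat_lit 6, nat_lit 4, nat_lit 0x45⟩ (.nil) (.nil)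
def t14_4211 : Tr := .node ⟨nat_lit 7, nat_lit 0x4000200060, nat_lit 0x1111011, nat_lit 1, nat_lit 3, nat_lit 0x48⟩ (.nil) (.nil)
def t14_12403 : Tr := .node ⟨nat_lit 7, nat_lit 0x40004000600068, nat_lit 0x10030, nat_lit 3, nat_lit 4, nat_lit 0x47⟩ (.nil) (.nil)
def t14_2163 : Tr := .node ⟨nat_lit 7, nat_lit 0x40002000100060, nat_lit 0x12100, nat_lit 1, nat_lit 4, nat_lit 0x47⟩ (.nil) (.nil)
def t14_10355 : Tr := .node ⟨nat_lit 8, nat_lit 0x80008800c000c8, nat_lit 0x112002, nat_lit 0, nat_lit 4, nat_lit 0x48⟩ (.nil) (.nil)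
def t14_6259 : Tr := .node ⟨nat_lit 6, nat_lit 0x10002000200024, nat_lit 0x111110, nat_lit 5, nat_lit 4, nat_lit 0x48⟩ (.nil) (.nil)
def t14_14451 : Tr := .node ⟨nat_lit 7, nat_lit 0x4000500060, nat_lit 0x1202, nat_lit 3, nat_lit 4, nat_lit 0x48⟩ (.nil) (.nil)
def t14_1139 : Tr := .node ⟨nat_lit 8, nat_lit 0x1000c000a0, nat_lit 0x11121, nat_lit 1, nat_lit 4, nat_lit 0x49⟩ (.nil) (.nil)
def t14_9331 : Tr := .node ⟨nat_lit 7, nat_lit 0x40005000600030, nat_lit 0x100211, nat_lit 0, nat_lit 4, nat_lit 0x46⟩ (.nil) (.nil)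
def t14_5235 : Tr := .node ⟨nat_lit 7, nat_lit 0x20005000600060, nat_lit 0x21210, nat_lit 0, nat_lit 3, nat_lit 0x45⟩ (.nil) (.nil)
def t14_13427 : Tr := .node ⟨nat_lit 7, nat_lit 0x40001000480060, nat_lit 0x102200, nat_lit 0, nat_lit 4, nat_lit 0x47⟩ (.nil) (.nil)
def t14_3187 : Tr := .node ⟨nat_lit 8, nat_lit 0x800040004000400020, nat_lit 0x10102110, nat_lit 2, nat_lit 4, nat_lit 0x4a⟩ (.nil) (.nil)
def t14_11379 : Tr := .node ⟨nat_lit 9, nat_lit 0x8001000100010001900190, nat_lit 0x1101020, nat_lit 1, nat_lit 4, nat_lit 0x48⟩ (.nil) (.nil)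
def t14_7283 : Tr := .node ⟨nat_lit 7, nat_lit 0x20003000500068, nat_lit 0x1200120, nat_lit 1, nat_lit 4, nat_lit 0x47⟩ (.nil) (.nil)
def t14_15475 : Tr := .node ⟨nat_lit 0xc, nat_lit 0x4004000200010000800800, nat_lit 0x100001100001, nat_lit 0, nat_lit 4, nat_lit 0x4d⟩ (.nil) (.nil)
def t14_627 : Tr := .node ⟨nat_lit 6, nat_lit 0x20002000100010, nat_lit 0x2222, nat_lit 1, nat_lit 4, nat_lit 0x47⟩ (.nil) (.nil)
def t14_8819 : Tr := .node ⟨nat_lit 5, nat_lit 0x100012, nat_lit 0x12124, nat_lit 2, nat_lit 4, nat_lit 0x49⟩ (.nil) (.nil)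
def t14_4723 : Tr := .node ⟨nat_lit 7, nat_lit 0x10004000180060, nat_lit 0x111002, nat_lit 0, nat_lit 4, nat_lit 0x47⟩ (.nil) (.nil)
def t14_12915 : Tr := .node ⟨nat_lit 8, nat_lit 0x200040008000c0, nat_lit 0x10200, nat_lit 3, nat_lit 4, nat_lit 0x49⟩ (.nil) (.nil)
def t14_2675 : Tr := .node ⟨nat_lit 7, nat_lit 0x20005000500060, nat_lit 0x100103, nat_lit 3, nat_lit 4, nat_lit 0x47⟩ (.nil) (.nil)
def t14_10867 : Tr := .node ⟨nat_lit 7, nat_lit 0x10001000500060, nat_lit 0x1101023, nat_lit 0, nat_lit 3, nat_lit 0x46⟩ (.nil) (.nil)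
def t14_6771 : Tr := .node ⟨nat_lit 5, nat_lit 0x40018, nat_lit 0x10120, nat_lit 4, nat_lit 4, nat_lit 0x47⟩ (.nil) (.nil)
def t14_14963 : Tr := .node ⟨nat_lit 9, nat_lit 0x80010001000100011001200120, nat_lit 0x101011, nat_lit 5, nat_lit 4, nat_lit 0x49⟩ (.nil) (.nil)
def t14_1651 : Tr := .node ⟨nat_lit 8, nat_lit 0x800080004000c000d0, nat_lit 0x112120, nat_lit 0, nat_lit 4, nat_lit 0x48⟩ (.nil) (.nil)
def t14_9843 : Tr := .node ⟨nat_lit 7, nat_lit 0x20004000600064, nat_lit 0x1001002, nat_lit 0, nat_lit 4, nat_lit 0x46⟩ (.nil) (.nil)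
def t14_5747 : Tr := .node ⟨nat_lit 6, nat_lit 0x2000200020, nat_lit 0x11221, nat_lit 6, nat_lit 4, nat_lit 0x4a⟩ (.nil) (.nil)
def t14_13939 : Tr := .node ⟨nat_lit 8, nat_lit 0x40004000800088005000e0, nat_lit 0x101000, nat_lit 0, nat_lit 4, nat_lit 0x45⟩ (.nil) (.nil)
def t14_3699 : Tr := .node ⟨nat_lit 7, nat_lit 0x10001000600060, nat_lit 0x1002031, nat_lit 0, nat_lit 4, nat_lit 0x47⟩ (.nil) (.nil)
def t14_11891 : Tr := .node ⟨nat_lit 6, nat_lit 0x2000200010, nat_lit 0x102003, nat_lit 1, nat_lit 3, nat_lit 0x47⟩ (.nil) (.nil)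
def t14_7795 : Tr := .node ⟨nat_lit 7, nat_lit 0x40001000480060, nat_lit 0x1210, nat_lit 1, nat_lit 4, nat_lit 0x46⟩ (.nil) (.nil)
def t9_115 : Tr := .node ⟨nat_lit 6, nat_lit 0x800100020, nat_lit 0x131111, nat_lit 3, nat_lit 4, nat_lit 0x4a⟩ (.node ⟨nat_lit 5, nat_lit 0x18, nat_lit 0x31113, nat_lit 0, nat_lit 4, nat_lit 0x49⟩ (.node ⟨nat_lit 7, nat_lit 0x20005000500068, nat_lit 0x301102, nat_lit 1, nat_lit 4, nat_lit 0x47⟩ (.node ⟨nat_lit 5, nat_lit 0x1000080008, nat_lit 0x10122, nat_lit 1, nat_lit 3, nat_lit 0x45⟩ (.node ⟨nat_lit 7, nat_lit 0x800100060, nat_lit 0x2111102, nat_lit 0, nat_lit 3, nat_lit 0x48⟩ (t14_115) (t14_8307)) (.node ⟨nat_lit 7, nat_lit 0x4000600070, nat_lit 0x21203, nat_lit 1, nat_lit 4, nat_lit 0x48⟩ (t14_4211) (t14_12403))) (.node ⟨nat_lit 6, nat_lit 0x2000100010, nat_lit 0x112011, nat_lit 2, nat_lit 4, nat_lit 0x49⟩ (.node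 ⟨nat_lit 6, nat_lit 0x800300030, nat_lit 0x1120, nat_lit 3, nat_lit 4, nat_lit 0x46⟩ (t14_2163) (t14_10355)) (.node ⟨nat_lit 6, nat_lit 0x2000200010, nat_lit 0x12321, nat_lit 1, nat_lit 4, nat_lit 0x49⟩ (t14_6259) (t14_14451)))) (.node ⟨nat_lit 6, nat_lit 0x200020, nat_lit 0x22120, nat_lit 3, nat_lit 4, nat_lit 0x4a⟩ (.node ⟨nat_lit 5, nat_lit 0x40018, nat_lit 0x22221, nat_lit 1, nat_lit 4, nat_lit 0x49⟩ (.node ⟨nat_lit 6, nat_lit 0x200030, nat_lit 0x111131, nat_lit 4, nat_lit 4, nat_lit 0x4a⟩ (t14_1139) (t14_9331)) (.node ⟨nat_lit 5, nat_lit 0x1c, nat_lit 0x11122, nat_lit 1, nat_lit 4, nat_lit 0x47⟩ (t14_5235) (t14_13427))) (.node ⟨nat_lit 4, nat_lit 0x80008, nat_lit 0x1210, nat_lit 6, nat_lit 4, nat_lit 0x47⟩ (.node ⟨nat_lit 5, nat_lit 0x1000080018, nat_lit 0x1330, nat_lit 3, nat_lit 4, nat_lit 0x47⟩ (t14_3187) (t14_11379)) (.node ⟨nat_lit 3,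 nat_lit 6, nat_lit 0x112, nat_lit 0xb, nat_lit 4, nat_lit 0x46⟩ (t14_7283) (t14_15475))))) (.node ⟨nat_lit 6, nat_lit 0x200030, nat_lit 0x31102, nat_lit 0, nat_lit 4, nat_lit 0x49⟩ (.node ⟨nat_lit 7, nat_lit 0x40002000200048, nat_lit 0x2012101, nat_lit 0, nat_lit 4, nat_lit 0x49⟩ (.node ⟨nat_lit 7, nat_lit 0x200040004800300068, nat_lit 0x2011001, nat_lit 0, nat_lit 4, nat_lit 0x46⟩ (.node ⟨nat_lit 5, nat_lit 0x100008, nat_lit 0x12130, nat_lit 3, nat_lit 4, nat_lit 0x49⟩ (t14_627) (t14_8819)) (.node ⟨nat_lit 8, nat_lit 0x80008000400088, nat_lit 0x11112010, nat_lit 2, nat_lit 4, nat_lit 0x4b⟩ (t14_4723) (t14_12915))) (.node ⟨nat_lit 6, nat_lit 0x800300038, nat_lit 0x1122, nat_lit 1, nat_lit 4, nat_lit 0x45⟩ (.node ⟨nat_lit 5, nat_lit 0x40018, nat_lit 0x22104, nat_lit 1, nat_lit 4, nat_lit 0x49⟩ (t14_2675) (t14_10867)) (.node ⟨nat_lit 6, nat_lit 0x1000200030,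 nat_lit 0x110, nat_lit 0, nat_lit 4, nat_lit 0x45⟩ (t14_6771) (t14_14963)))) (.node ⟨nat_lit 5, nat_lit 0x10, nat_lit 0x2103, nat_lit 0, nat_lit 4, nat_lit 0x48⟩ (.node ⟨nat_lit 7, nat_lit 0x800600050, nat_lit 0x21111, nat_lit 1, nat_lit 4, nat_lit 0x48⟩ (.node ⟨nat_lit 5, nat_lit 0x18, nat_lit 0x101, nat_lit 1, nat_lit 4, nat_lit 0x45⟩ (t14_1651) (t14_9843)) (.node ⟨nat_lit 7, nat_lit 0x10004000200062, nat_lit 0x200220, nat_lit 1, nat_lit 4, nat_lit 0x48⟩ (t14_5747) (t14_13939))) (.node ⟨nat_lit 5, nat_lit 0x1000100010, nat_lit 0x2200, nat_lit 4, nat_lit 3, nat_lit 0x46⟩ (.node ⟨nat_lit 6, nat_lit 0x280030, nat_lit 0x11200, nat_lit 0, nat_lit 4, nat_lit 0x47⟩ (t14_3699) (t14_11891)) (.node ⟨nat_lit 6, nat_lit 0x300038, nat_lit 0x111112, nat_lit 0, nat_lit 4, nat_lit 0x47⟩ (t14_7795) (.nil)))))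
def t14_371 : Tr := .node ⟨nat_lit 7, nat_lit 0x4000500060, nat_lit 0x121210, nat_lit 1, nat_lit 4, nat_lit 0x49⟩ (.nil) (.nil)
def t14_8563 : Tr := .node ⟨nat_lit 8, nat_lit 0x2000800088008800c0, nat_lit 0x1210, nat_lit 1, nat_lit 4, nat_lit 0x47⟩ (.nil) (.nil)
def t14_4467 : Tr := .node ⟨nat_lit 8, nat_lit 0x8000200090009000c0, nat_lit 0x11110111, nat_lit 2, nat_lit 4, nat_lit 0x49⟩ (.nil) (.nil)
def t14_12659 : Tr := .node ⟨nat_lit 6, nat_lit 0x2000200030, nat_lit 0x1320, nat_lit 6, nat_lit 4, nat_lit 0x49⟩ (.nil) (.nil)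
def t14_2419 : Tr := .node ⟨nat_lit 8, nat_lit 0xa000c000c0, nat_lit 0x121210, nat_lit 0, nat_lit 4, nat_lit 0x49⟩ (.nil) (.nil)
def t14_10611 : Tr := .node ⟨nat_lit 7, nat_lit 0x20002000500060, nat_lit 0x21002, nat_lit 1, nat_lit 4, nat_lit 0x47⟩ (.nil) (.nil)
def t14_6515 : Tr := .node ⟨nat_lit 7, nat_lit 0x4000180064, nat_lit 0x1110111, nat_lit 2, nat_lit 4, nat_lit 0x48⟩ (.nil) (.nil)
def t14_14707 : Tr := .node ⟨nat_lit 9, nat_lit 0x80008001000100010800c00190, nat_lit 0x1111011, nat_lit 1, nat_lit 4, nat_lit 0x47⟩ (.nil) (.nil)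
def t14_1395 : Tr := .node ⟨nat_lit 7, nat_lit 0x10005000600060, nat_lit 0x12310, nat_lit 2, nat_lit 4, nat_lit 0x47⟩ (.nil) (.nil)
def t14_9587 : Tr := .node ⟨nat_lit 6, nat_lit 0x20001000300030, nat_lit 0x100330, nat_lit 1, nat_lit 3, nat_lit 0x45⟩ (.nil) (.nil)
def t14_5491 : Tr := .node ⟨nat_lit 6, nat_lit 0x1000200020, nat_lit 0x1410, nat_lit 1, nat_lit 4, nat_lit 0x48⟩ (.nil) (.nil)
def t14_13683 : Tr := .node ⟨nat_lit 6, nat_lit 0x2000080010, nat_lit 0x2000, nat_lit 2, nat_lit 4, nat_lit 0x47⟩ (.nil) (.nil)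
def t14_3443 : Tr := .node ⟨nat_lit 7, nat_lit 0x20003000600050, nat_lit 0x1002021, nat_lit 3, nat_lit 4, nat_lit 0x47⟩ (.nil) (.nil)
def t14_11635 : Tr := .node ⟨nat_lit 6, nat_lit 0x10002000300030, nat_lit 0x410, nat_lit 1, nat_lit 3, nat_lit 0x45⟩ (.nil) (.nil)
def t14_7539 : Tr := .node ⟨nat_lit 6, nat_lit 0x2000080034, nat_lit 0x200, nat_lit 1, nat_lit 4, nat_lit 0x45⟩ (.nil) (.nil)
def t14_883 : Tr := .node ⟨nat_lit 8, nat_lit 0x400040008000800020, nat_lit 0x122001, nat_lit 1, nat_lit 4, nat_lit 0x49⟩ (.nil) (.nil)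
def t14_9075 : Tr := .node ⟨nat_lit 8, nat_lit 0x4000a000c000c0, nat_lit 0x110221, nat_lit 0, nat_lit 4, nat_lit 0x48⟩ (.nil) (.nil)
def t14_4979 : Tr := .node ⟨nat_lit 6, nat_lit 0x1000200030, nat_lit 0x101301, nat_lit 3, nat_lit 4, nat_lit 0x48⟩ (.nil) (.nil)
def t14_13171 : Tr := .node ⟨nat_lit 8, nat_lit 0x40008000800088006000d0, nat_lit 0x210000, nat_lit 2, nat_lit 4, nat_lit 0x46⟩ (.nil) (.nil)
def t14_2931 : Tr := .node ⟨nat_lit 7, nat_lit 0x2000400060, nat_lit 0x11210, nat_lit 0, nat_lit 4, nat_lit 0x48⟩ (.nil) (.nil)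
def t14_11123 : Tr := .node ⟨nat_lit 5, nat_lit 0x1000180018, nat_lit 0x1120, nat_lit 9, nat_lit 4, nat_lit 0x47⟩ (.nil) (.nil)
def t14_7027 : Tr := .node ⟨nat_lit 8, nat_lit 0x10008000a000c0, nat_lit 0x10100211, nat_lit 1, nat_lit 4, nat_lit 0x49⟩ (.nil) (.nil)
def t14_15219 : Tr := .node ⟨nat_lit 8, nat_lit 0x800040009000b000d0, nat_lit 0x110022, nat_lit 0, nat_lit 4, nat_lit 0x46⟩ (.nil) (.nil)
def t14_1907 : Tr := .node ⟨nat_lit 6, nat_lit 0x1000200038, nat_lit 0x20102, nat_lit 0, nat_lit 4, nat_lit 0x46⟩ (.nil) (.nil)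
def t14_10099 : Tr := .node ⟨nat_lit 6, nat_lit 0x2000300030, nat_lit 0x2320, nat_lit 4, nat_lit 4, nat_lit 0x48⟩ (.nil) (.nil)
def t14_6003 : Tr := .node ⟨nat_lit 6, nat_lit 0x1000200030, nat_lit 0x212110, nat_lit 1, nat_lit 4, nat_lit 0x49⟩ (.nil) (.nil)
def t14_14195 : Tr := .node ⟨nat_lit 5, nat_lit 0x800100012, nat_lit 0x10002, nat_lit 7, nat_lit 4, nat_lit 0x46⟩ (.nil) (.nil)
def t14_3955 : Tr := .node ⟨nat_lit 6, nat_lit 0x1000200020, nat_lit 0x11130, nat_lit 1, nat_lit 4, nat_lit 0x48⟩ (.nil) (.nil)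
def t14_12147 : Tr := .node ⟨nat_lit 9, nat_lit 0x20010001800140, nat_lit 0x1010210, nat_lit 1, nat_lit 4, nat_lit 0x4a⟩ (.nil) (.nil)
def t14_8051 : Tr := .node ⟨nat_lit 4, nat_lit 0x8000a, nat_lit 0x313, nat_lit 5, nat_lit 4, nat_lit 0x46⟩ (.nil) (.nil)
def t9_371 : Tr := .node ⟨nat_lit 6, nat_lit 0, nat_lit 0x331111, nat_lit 0, nat_lit 4, nat_lit 0x4d⟩ (.node ⟨nat_lit 7, nat_lit 0x40004000200060, nat_lit 0x131012, nat_lit 0, nat_lit 4, nat_lit 0x49⟩ (.node ⟨nat_lit 6, nat_lit 0x800080030, nat_lit 0x220102, nat_lit 1, nat_lit 4, nat_lit 0x48⟩ (.node ⟨nat_lit 6, nat_lit 0x2000200010, nat_lit 0x112102, nat_lit 2, nat_lit 4, nat_lit 0x49⟩ (.node ⟨nat_lit 5, nat_lit 0x1000100008, nat_lit 0x12211, nat_lit 5, nat_lit 3, nat_lit 0x47⟩ (t14_371) (t14_8563)) (.node ⟨nat_lit 7, nat_lit 0x400020002000500068, nat_lit 0x1110201, nat_lit 1, nat_lit 4, nat_lit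 0x47⟩ (t14_4467) (t14_12659))) (.node ⟨nat_lit 6, nat_lit 0x30000c, nat_lit 0x102111, nat_lit 2, nat_lit 4, nat_lit 0x48⟩ (.node ⟨nat_lit 6, nat_lit 0x2000080030, nat_lit 0x100111, nat_lit 1, nat_lit 4, nat_lit 0x46⟩ (t14_2419) (t14_10611)) (.node ⟨nat_lit 7, nat_lit 0x4000500064, nat_lit 0x201201, nat_lit 1, nat_lit 4, nat_lit 0x48⟩ (t14_6515) (t14_14707)))) (.node ⟨nat_lit 6, nat_lit 0x10002000180024, nat_lit 0x121301, nat_lit 1, nat_lit 4, nat_lit 0x48⟩ (.node ⟨nat_lit 5, nat_lit 0x140018, nat_lit 0x12201, nat_lit 1, nat_lit 3, nat_lit 0x46⟩ (.node ⟨nat_lit 6, nat_lit 0x80030, nat_lit 0x100104, nat_lit 0, nat_lit 4, nat_lit 0x47⟩ (t14_1395) (t14_9587)) (.node ⟨nat_lit 6, nat_lit 0x10001000200020, nat_lit 0x102121, nat_lit 3, nat_lit 4, nat_lit 0x48⟩ (t14_5491) (t14_13683))) (.node ⟨nat_lit 7, nat_lit 0x100060, nat_lit 0x3011112, nat_lit 0, nat_lit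 4, nat_lit 0x4b⟩ (.node ⟨nat_lit 5, nat_lit 0x180018, nat_lit 0x100, nat_lit 2, nat_lit 3, nat_lit 0x44⟩ (t14_3443) (t14_11635)) (.node ⟨nat_lit 7, nat_lit 0x20004000500064, nat_lit 0x1111112, nat_lit 2, nat_lit 4, nat_lit 0x48⟩ (t14_7539) (.nil))))) (.node ⟨nat_lit 5, nat_lit 0x40018, nat_lit 0x21001, nat_lit 3, nat_lit 3, nat_lit 0x46⟩ (.node ⟨nat_lit 6, nat_lit 0x280030, nat_lit 0x22211, nat_lit 0, nat_lit 4, nat_lit 0x48⟩ (.node ⟨nat_lit 6, nat_lit 0xc0030, nat_lit 0x111121, nat_lit 0, nat_lit 4, nat_lit 0x47⟩ (.node ⟨nat_lit 6, nat_lit 0x200010, nat_lit 0x21030, nat_lit 0, nat_lit 4, nat_lit 0x49⟩ (t14_883) (t14_9075)) (.node ⟨nat_lit 7, nat_lit 0x400060, nat_lit 0x1211120, nat_lit 1, nat_lit 4, nat_lit 0x4b⟩ (t14_4979) (t14_13171))) (.node ⟨nat_lit 7, nat_lit 0x40002000100010, nat_lit 0x10021, nat_lit 4, nat_lit 4, nat_lit 0x49⟩ (.node ⟨nat_lit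 4, nat_lit 0x8000a, nat_lit 0x1121, nat_lit 0xc, nat_lit 4, nat_lit 0x48⟩ (t14_2931) (t14_11123)) (.node ⟨nat_lit 8, nat_lit 0x80008000a000a000d000e0, nat_lit 0x1011022, nat_lit 1, nat_lit 4, nat_lit 0x46⟩ (t14_7027) (t14_15219)))) (.node ⟨nat_lit 6, nat_lit 0x80030, nat_lit 0x110221, nat_lit 1, nat_lit 4, nat_lit 0x48⟩ (.node ⟨nat_lit 7, nat_lit 0x40002000500068, nat_lit 0x1121111, nat_lit 0, nat_lit 4, nat_lit 0x48⟩ (.node ⟨nat_lit 6, nat_lit 0x300038, nat_lit 0x111013, nat_lit 0, nat_lit 4, nat_lit 0x47⟩ (t14_1907) (t14_10099)) (.node ⟨nat_lit 7, nat_lit 0x20005000500068, nat_lit 0x111202, nat_lit 0, nat_lit 4, nat_lit 0x46⟩ (t14_6003) (t14_14195))) (.node ⟨nat_lit 5, nat_lit 0x18, nat_lit 0x103, nat_lit 0, nat_lit 4, nat_lit 0x45⟩ (.node ⟨nat_lit 7, nat_lit 0x5000300060, nat_lit 0x111032, nat_lit 0, nat_lit 4, nat_lit 0x48⟩ (t14_3955) (t14_12147))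 (.node ⟨nat_lit 6, nat_lit 0x2000080030, nat_lit 0x101211, nat_lit 8, nat_lit 4, nat_lit 0x49⟩ (t14_8051) (.nil)))))
def t14_243 : Tr := .node ⟨nat_lit 7, nat_lit 0x4000100060, nat_lit 0x212201, nat_lit 0, nat_lit 4, nat_lit 0x4a⟩ (.nil) (.nil)
def t14_8435 : Tr := .node ⟨nat_lit 5, nat_lit 0x1000180018, nat_lit 0x31, nat_lit 4, nat_lit 4, nat_lit 0x45⟩ (.nil) (.nil)
def t14_4339 : Tr := .node ⟨nat_lit 6, nat_lit 0x2000240018, nat_lit 0x121210, nat_lit 1, nat_lit 4, nat_lit 0x48⟩ (.nil) (.nil)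
def t14_12531 : Tr := .node ⟨nat_lit 8, nat_lit 0x400090006000e0, nat_lit 0x10001103, nat_lit 1, nat_lit 4, nat_lit 0x47⟩ (.nil) (.nil)
def t14_2291 : Tr := .node ⟨nat_lit 3, nat_lit 4, nat_lit 0x42, nat_lit 6, nat_lit 4, nat_lit 0x47⟩ (.nil) (.nil)
def t14_10483 : Tr := .node ⟨nat_lit 7, nat_lit 0x20006000500068, nat_lit 0x100220, nat_lit 2, nat_lit 4, nat_lit 0x46⟩ (.nil) (.nil)
def t14_6387 : Tr := .node ⟨nat_lit 4, nat_lit 0xc000c, nat_lit 0x1121, nat_lit 7, nat_lit 4, nat_lit 0x46⟩ (.nil) (.nil)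
def t14_14579 : Tr := .node ⟨nat_lit 4, nat_lit 0x80008, nat_lit 0x141, nat_lit 6, nat_lit 3, nat_lit 0x46⟩ (.nil) (.nil)
def t14_1267 : Tr := .node ⟨nat_lit 7, nat_lit 0x400020002800500060, nat_lit 0x1022012, nat_lit 1, nat_lit 4, nat_lit 0x47⟩ (.nil) (.nil)
def t14_9459 : Tr := .node ⟨nat_lit 8, nat_lit 0x40008000600060009000c0, nat_lit 0x1120003, nat_lit 0, nat_lit 4, nat_lit 0x47⟩ (.nil) (.nil)
def t14_5363 : Tr := .node ⟨nat_lit 7, nat_lit 0x40001000100060, nat_lit 0x1113110, nat_lit 0, nat_lit 4, nat_lit 0x49⟩ (.nil) (.nil)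
def t14_13555 : Tr := .node ⟨nat_lit 6, nat_lit 0x20002000100010, nat_lit 0x2100, nat_lit 5, nat_lit 4, nat_lit 0x47⟩ (.nil) (.nil)
def t14_3315 : Tr := .node ⟨nat_lit 5, nat_lit 0x100018, nat_lit 0x1212, nat_lit 4, nat_lit 3, nat_lit 0x46⟩ (.nil) (.nil)
def t14_11507 : Tr := .node ⟨nat_lit 8, nat_lit 0x200080001000c0, nat_lit 0x10000011, nat_lit 0, nat_lit 4, nat_lit 0x48⟩ (.nil) (.nil)
def t14_7411 : Tr := .node ⟨nat_lit 8, nat_lit 0x400040002000200080, nat_lit 0x20100111, nat_lit 1, nat_lit 4, nat_lit 0x4a⟩ (.nil) (.nil)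
def t14_755 : Tr := .node ⟨nat_lit 7, nat_lit 0x4000100060, nat_lit 0x11013, nat_lit 0, nat_lit 4, nat_lit 0x48⟩ (.nil) (.nil)
def t14_8947 : Tr := .node ⟨nat_lit 7, nat_lit 0x200020004000400060, nat_lit 0x10103, nat_lit 0, nat_lit 3, nat_lit 0x45⟩ (.nil) (.nil)
def t14_4851 : Tr := .node ⟨nat_lit 8, nat_lit 0x8000800040008800d0, nat_lit 0x1210102, nat_lit 0, nat_lit 4, nat_lit 0x48⟩ (.nil) (.nil)
def t14_13043 : Tr := .node ⟨nat_lit 4, nat_lit 0xc000c, nat_lit 0x2100, nat_lit 6, nat_lit 3, nat_lit 0x45⟩ (.nil) (.nil)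
def t14_2803 : Tr := .node ⟨nat_lit 7, nat_lit 0x4000100060, nat_lit 0x1001020, nat_lit 1, nat_lit 4, nat_lit 0x48⟩ (.nil) (.nil)
def t14_10995 : Tr := .node ⟨nat_lit 7, nat_lit 0x400020002000500060, nat_lit 0x1012004, nat_lit 0, nat_lit 4, nat_lit 0x48⟩ (.nil) (.nil)
def t14_6899 : Tr := .node ⟨nat_lit 7, nat_lit 0x40, nat_lit 0x111110, nat_lit 4, nat_lit 4, nat_lit 0x4c⟩ (.nil) (.nil)
def t14_15091 : Tr := .node ⟨nat_lit 9, nat_lit 0x10000800140014001a001a0, nat_lit 0x101011, nat_lit 1, nat_lit 4, nat_lit 0x46⟩ (.nil) (.nil)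
def t14_1779 : Tr := .node ⟨nat_lit 6, nat_lit 0x300028, nat_lit 0x102112, nat_lit 4, nat_lit 4, nat_lit 0x49⟩ (.nil) (.nil)
def t14_9971 : Tr := .node ⟨nat_lit 5, nat_lit 0x1000180018, nat_lit 0x420, nat_lit 8, nat_lit 4, nat_lit 0x47⟩ (.nil) (.nil)
def t14_5875 : Tr := .node ⟨nat_lit 5, nat_lit 0x100018, nat_lit 0x1122, nat_lit 8, nat_lit 4, nat_lit 0x48⟩ (.nil) (.nil)
def t14_14067 : Tr := .node ⟨nat_lit 7, nat_lit 0x400060, nat_lit 0x1011100, nat_lit 0, nat_lit 4, nat_lit 0x49⟩ (.nil) (.nil)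
def t14_3827 : Tr := .node ⟨nat_lit 7, nat_lit 0x20004000400030004c, nat_lit 0x102102, nat_lit 0, nat_lit 4, nat_lit 0x46⟩ (.nil) (.nil)
def t14_12019 : Tr := .node ⟨nat_lit 7, nat_lit 0x200020004000440060, nat_lit 0x2021110, nat_lit 0, nat_lit 4, nat_lit 0x48⟩ (.nil) (.nil)
def t14_7923 : Tr := .node ⟨nat_lit 8, nat_lit 0x400080008000880084, nat_lit 0x101202, nat_lit 2, nat_lit 4, nat_lit 0x49⟩ (.nil) (.nil)
def t9_243 : Tr := .node ⟨nat_lit 4, nat_lit 0xc, nat_lit 0x2132, nat_lit 2, nat_lit 3, nat_lit 0x47⟩ (.node ⟨nat_lit 5, nat_lit 0x100012, nat_lit 0x31112, nat_lit 2, nat_lit 4, nat_lit 0x49⟩ (.node ⟨nat_lit 6, nat_lit 0x1000100020, nat_lit 0x203110, nat_lit 1, nat_lit 4, nat_lit 0x49⟩ (.node ⟨nat_lit 5, nat_lit 0x1c, nat_lit 0x11123, nat_lit 1, nat_lit 4, nat_lit 0x47⟩ (.node ⟨nat_lit 7, nat_lit 0x1000200040, nat_lit 0x1211121, nat_lit 2,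 nat_lit 4, nat_lit 0x4b⟩ (t14_243) (t14_8435)) (.node ⟨nat_lit 7, nat_lit 0x400020002000500068, nat_lit 0x1011203, nat_lit 0, nat_lit 4, nat_lit 0x46⟩ (t14_4339) (t14_12531))) (.node ⟨nat_lit 7, nat_lit 0x40, nat_lit 0x2211112, nat_lit 0, nat_lit 4, nat_lit 0x4d⟩ (.node ⟨nat_lit 6, nat_lit 0x2000100038, nat_lit 0x11323, nat_lit 0, nat_lit 4, nat_lit 0x47⟩ (t14_2291) (t14_10483)) (.node ⟨nat_lit 5, nat_lit 0x100018, nat_lit 0x11220, nat_lit 3, nat_lit 4, nat_lit 0x48⟩ (t14_6387) (t14_14579)))) (.node ⟨nat_lit 3, nat_lit 4, nat_lit 0x211, nat_lit 0xd, nat_lit 4, nat_lit 0x48⟩ (.node ⟨nat_lit 7, nat_lit 0x40001000480060, nat_lit 0x2111111, nat_lit 1, nat_lit 4, nat_lit 0x49⟩ (.node ⟨nat_lit 6, nat_lit 0x100020, nat_lit 0x101100, nat_lit 2, nat_lit 4, nat_lit 0x48⟩ (t14_1267) (t14_9459)) (.node ⟨nat_lit 7, nat_lit 0x4000600064, nat_lit 0x1111221, nat_lit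 0, nat_lit 4, nat_lit 0x49⟩ (t14_5363) (t14_13555))) (.node ⟨nat_lit 5, nat_lit 0x140018, nat_lit 0x12131, nat_lit 2, nat_lit 4, nat_lit 0x47⟩ (.node ⟨nat_lit 5, nat_lit 0x800100018, nat_lit 0x11032, nat_lit 6, nat_lit 4, nat_lit 0x48⟩ (t14_3315) (t14_11507)) (.node ⟨nat_lit 7, nat_lit 0x4000180060, nat_lit 0x111121, nat_lit 0, nat_lit 4, nat_lit 0x48⟩ (t14_7411) (.nil))))) (.node ⟨nat_lit 5, nat_lit 0x80010, nat_lit 0x1320, nat_lit 2, nat_lit 4, nat_lit 0x48⟩ (.node ⟨nat_lit 5, nat_lit 0x40018, nat_lit 0x22122, nat_lit 1, nat_lit 4, nat_lit 0x48⟩ (.node ⟨nat_lit 7, nat_lit 0x40, nat_lit 0x211110, nat_lit 2, nat_lit 4, nat_lit 0x4c⟩ (.node ⟨nat_lit 8, nat_lit 0x80008000200040, nat_lit 0x1130011, nat_lit 1, nat_lit 4, nat_lit 0x4b⟩ (t14_755) (t14_8947)) (.node ⟨nat_lit 4, nat_lit 0x8000c, nat_lit 0x1020, nat_lit 4, nat_lit 4, nat_lit 0x45⟩ (t14_4851)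 (t14_13043))) (.node ⟨nat_lit 6, nat_lit 0x800300038, nat_lit 0x110221, nat_lit 2, nat_lit 4, nat_lit 0x46⟩ (.node ⟨nat_lit 7, nat_lit 0x40001000100060, nat_lit 0x202103, nat_lit 0, nat_lit 4, nat_lit 0x48⟩ (t14_2803) (t14_10995)) (.node ⟨nat_lit 7, nat_lit 0x5000480060, nat_lit 0x1101222, nat_lit 1, nat_lit 4, nat_lit 0x48⟩ (t14_6899) (t14_15091)))) (.node ⟨nat_lit 7, nat_lit 0x10004000440060, nat_lit 0x1100211, nat_lit 1, nat_lit 4, nat_lit 0x48⟩ (.node ⟨nat_lit 7, nat_lit 0x4000600064, nat_lit 0x1021211, nat_lit 1, nat_lit 4, nat_lit 0x49⟩ (.node ⟨nat_lit 5, nat_lit 0x100018, nat_lit 0x110, nat_lit 5, nat_lit 4, nat_lit 0x46⟩ (t14_1779) (t14_9971)) (.node ⟨nat_lit 6, nat_lit 0x2000200030, nat_lit 0x22210, nat_lit 0, nat_lit 3, nat_lit 0x47⟩ (t14_5875) (t14_14067))) (.node ⟨nat_lit 6, nat_lit 0x800200032, nat_lit 0x201110, nat_lit 0, nat_lit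 4, nat_lit 0x47⟩ (.node ⟨nat_lit 7, nat_lit 0x20003000500068, nat_lit 0x1111030, nat_lit 0, nat_lit 4, nat_lit 0x47⟩ (t14_3827) (t14_12019)) (.node ⟨nat_lit 6, nat_lit 0x1000100020, nat_lit 0x100201, nat_lit 0, nat_lit 4, nat_lit 0x47⟩ (t14_7923) (.nil)))))
def t14_499 : Tr := .node ⟨nat_lit 8, nat_lit 0x80002000c0, nat_lit 0x11111011, nat_lit 1, nat_lit 4, nat_lit 0x4b⟩ (.nil) (.nil)
def t14_8691 : Tr := .node ⟨nat_lit 7, nat_lit 0x40004800300068, nat_lit 2, nat_lit 1, nat_lit 4, nat_lit 0x44⟩ (.nil) (.nil)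
def t14_4595 : Tr := .node ⟨nat_lit 4, nat_lit 0xc, nat_lit 0x3120, nat_lit 2, nat_lit 3, nat_lit 0x47⟩ (.nil) (.nil)
def t14_12787 : Tr := .node ⟨nat_lit 6, nat_lit 0x800300030, nat_lit 0x100020, nat_lit 3, nat_lit 4, nat_lit 0x46⟩ (.nil) (.nil)
def t14_2547 : Tr := .node ⟨nat_lit 7, nat_lit 0x400040002000700070, nat_lit 0x1002210, nat_lit 3, nat_lit 4, nat_lit 0x47⟩ (.nil) (.nil)
def t14_10739 : Tr := .node ⟨nat_lit 7, nat_lit 0x1800500060, nat_lit 0x1201, nat_lit 0, nat_lit 4, nat_lit 0x46⟩ (.nil) (.nil)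
def t14_6643 : Tr := .node ⟨nat_lit 7, nat_lit 0x40002000100060, nat_lit 0x103100, nat_lit 0, nat_lit 3, nat_lit 0x46⟩ (.nil) (.nil)
def t14_14835 : Tr := .node ⟨nat_lit 8, nat_lit 0x80004000c000a000c8, nat_lit 0x11201, nat_lit 0, nat_lit 4, nat_lit 0x46⟩ (.nil) (.nil)
def t14_1523 : Tr := .node ⟨nat_lit 7, nat_lit 0x4000400060, nat_lit 0x211201, nat_lit 0, nat_lit 3, nat_lit 0x48⟩ (.nil) (.nil)
def t14_9715 : Tr := .node ⟨nat_lit 8, nat_lit 0x80004000a000c0, nat_lit 0x1012102, nat_lit 0, nat_lit 4, nat_lit 0x49⟩ (.nil) (.nil)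
def t14_5619 : Tr := .node ⟨nat_lit 7, nat_lit 0x40006000680068, nat_lit 0x1011220, nat_lit 4, nat_lit 4, nat_lit 0x47⟩ (.nil) (.nil)
def t14_13811 : Tr := .node ⟨nat_lit 7, nat_lit 0x20001000600050, nat_lit 0x1002200, nat_lit 2, nat_lit 4, nat_lit 0x47⟩ (.nil) (.nil)
def t14_3571 : Tr := .node ⟨nat_lit 6, nat_lit 0x2000080030, nat_lit 0x210, nat_lit 2, nat_lit 4, nat_lit 0x46⟩ (.nil) (.nil)
def t14_11763 : Tr := .node ⟨nat_lit 4, nat_lit 0x80004, nat_lit 0x34, nat_lit 1, nat_lit 3, nat_lit 0x45⟩ (.nil) (.nil)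
def t14_7667 : Tr := .node ⟨nat_lit 3, nat_lit 6, nat_lit 0x102, nat_lit 7, nat_lit 4, nat_lit 0x44⟩ (.nil) (.nil)
def t14_1011 : Tr := .node ⟨nat_lit 7, nat_lit 0x5000600060, nat_lit 0x11121, nat_lit 3, nat_lit 4, nat_lit 0x47⟩ (.nil) (.nil)
def t14_9203 : Tr := .node ⟨nat_lit 7, nat_lit 0x20001000100040, nat_lit 0x1100301, nat_lit 0, nat_lit 3, nat_lit 0x47⟩ (.nil) (.nil)
def t14_5107 : Tr := .node ⟨nat_lit 7, nat_lit 0x40004000100060, nat_lit 0x103111, nat_lit 0, nat_lit 4, nat_lit 0x48⟩ (.nil) (.nil)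
def t14_13299 : Tr := .node ⟨nat_lit 6, nat_lit 0x20002000100030, nat_lit 0x1030, nat_lit 3, nat_lit 3, nat_lit 0x45⟩ (.nil) (.nil)
def t14_3059 : Tr := .node ⟨nat_lit 8, nat_lit 0x400080002000a000d0, nat_lit 0x1011021, nat_lit 0, nat_lit 4, nat_lit 0x47⟩ (.nil) (.nil)
def t14_11251 : Tr := .node ⟨nat_lit 5, nat_lit 0x100018, nat_lit 0x2110, nat_lit 4, nat_lit 4, nat_lit 0x47⟩ (.nil) (.nil)
def t14_7155 : Tr := .node ⟨nat_lit 7, nat_lit 0x20001000400062, nat_lit 0x1111101, nat_lit 5, nat_lit 4, nat_lit 0x49⟩ (.nil) (.nil)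
def t14_15347 : Tr := .node ⟨nat_lit 0xa, nat_lit 0x1000100010002000200020002100180, nat_lit 0x11011011, nat_lit 0, nat_lit 4, nat_lit 0x49⟩ (.nil) (.nil)
def t14_2035 : Tr := .node ⟨nat_lit 7, nat_lit 0x20002000400062, nat_lit 0x2013100, nat_lit 1, nat_lit 4, nat_lit 0x49⟩ (.nil) (.nil)
def t14_10227 : Tr := .node ⟨nat_lit 6, nat_lit 0x2000200030, nat_lit 0x11220, nat_lit 6, nat_lit 4, nat_lit 0x49⟩ (.nil) (.nil)
def t14_6131 : Tr := .node ⟨nat_lit 3, nat_lit 4, nat_lit 0x10, nat_lit 0xb, nat_lit 4, nat_lit 0x46⟩ (.nil) (.nil)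
def t14_14323 : Tr := .node ⟨nat_lit 6, nat_lit 0x1000280030, nat_lit 0x10030, nat_lit 3, nat_lit 4, nat_lit 0x46⟩ (.nil) (.nil)
def t14_4083 : Tr := .node ⟨nat_lit 8, nat_lit 0x400080002000c000c8, nat_lit 0x10101021, nat_lit 1, nat_lit 4, nat_lit 0x48⟩ (.nil) (.nil)
def t14_12275 : Tr := .node ⟨nat_lit 8, nat_lit 0x80002000c000c000d0, nat_lit 0x110301, nat_lit 1, nat_lit 4, nat_lit 0x47⟩ (.nil) (.nil)
def t14_8179 : Tr := .node ⟨nat_lit 7, nat_lit 0x400020005000500060, nat_lit 0x10410, nat_lit 2, nat_lit 4, nat_lit 0x47⟩ (.nil) (.nil)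
def t9_499 : Tr := .node ⟨nat_lit 4, nat_lit 0xc, nat_lit 0x1132, nat_lit 7, nat_lit 4, nat_lit 0x48⟩ (.node ⟨nat_lit 6, nat_lit 0x20001000280028, nat_lit 0x311022, nat_lit 2, nat_lit 4, nat_lit 0x49⟩ (.node ⟨nat_lit 3, nat_lit 0, nat_lit 0x222, nat_lit 0xb, nat_lit 4, nat_lit 0x49⟩ (.node ⟨nat_lit 7, nat_lit 0x20004000100044, nat_lit 0x2010011, nat_lit 1, nat_lit 4, nat_lit 0x48⟩ (.node ⟨nat_lit 8, nat_lit 0x8000800020009000c0, nat_lit 0x1211111, nat_lit 0, nat_lit 4, nat_lit 0x49⟩ (t14_499) (t14_8691)) (.node ⟨nat_lit 5, nat_lit 0x80010001a, nat_lit 0x21121, nat_lit 7, nat_lit 4, nat_lit 0x48⟩ (t14_4595) (t14_12787))) (.node ⟨nat_lit 4, nat_lit 0xc000c, nat_lit 0x1031, nat_lit 6, nat_lit 4, nat_lit 0x45⟩ (.node ⟨nat_lit 6, nat_lit 0x2000300030, nat_lit 0x13120, nat_lit 0, nat_lit 3, nat_lit 0x46⟩ (t14_2547) (t14_10739)) (.node ⟨nat_lit 6, nat_lit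 0x1800280030, nat_lit 0x110221, nat_lit 3, nat_lit 4, nat_lit 0x46⟩ (t14_6643) (t14_14835)))) (.node ⟨nat_lit 6, nat_lit 0x800300030, nat_lit 0x102121, nat_lit 1, nat_lit 4, nat_lit 0x47⟩ (.node ⟨nat_lit 6, nat_lit 0x280030, nat_lit 0x122211, nat_lit 0, nat_lit 4, nat_lit 0x49⟩ (.node ⟨nat_lit 6, nat_lit 0x1000200030, nat_lit 0x11301, nat_lit 1, nat_lit 4, nat_lit 0x48⟩ (t14_1523) (t14_9715)) (.node ⟨nat_lit 8, nat_lit 0x40008000800060008800d0, nat_lit 0x11121000, nat_lit 1, nat_lit 4, nat_lit 0x48⟩ (t14_5619) (t14_13811))) (.node ⟨nat_lit 7, nat_lit 0x2000200040, nat_lit 0x2011001, nat_lit 2, nat_lit 4, nat_lit 0x4a⟩ (.node ⟨nat_lit 7, nat_lit 0x40003000580068, nat_lit 0x1001001, nat_lit 1, nat_lit 4, nat_lit 0x45⟩ (t14_3571) (t14_11763)) (.node ⟨nat_lit 7, nat_lit 0x400040005000500070, nat_lit 0x1111002, nat_lit 3, nat_lit 4, nat_lit 0x48⟩ (t14_7667)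 (.nil))))) (.node ⟨nat_lit 6, nat_lit 0x2000200030, nat_lit 0x3210, nat_lit 5, nat_lit 4, nat_lit 0x49⟩ (.node ⟨nat_lit 5, nat_lit 0x18, nat_lit 0x21210, nat_lit 3, nat_lit 4, nat_lit 0x49⟩ (.node ⟨nat_lit 3, nat_lit 4, nat_lit 0x211, nat_lit 0x11, nat_lit 4, nat_lit 0x49⟩ (.node ⟨nat_lit 6, nat_lit 0x2000080030, nat_lit 0x121301, nat_lit 1, nat_lit 4, nat_lit 0x49⟩ (t14_1011) (t14_9203)) (.node ⟨nat_lit 7, nat_lit 0x200040, nat_lit 0x1122101, nat_lit 2, nat_lit 4, nat_lit 0x4c⟩ (t14_5107) (t14_13299))) (.node ⟨nat_lit 7, nat_lit 0x40001000480060, nat_lit 0x1012110, nat_lit 0, nat_lit 4, nat_lit 0x48⟩ (.node ⟨nat_lit 5, nat_lit 0x1000140014, nat_lit 0x21221, nat_lit 6, nat_lit 4, nat_lit 0x49⟩ (t14_3059) (t14_11251)) (.node ⟨nat_lit 8, nat_lit 0x8000800040002000c0, nat_lit 0x1020202, nat_lit 1, nat_lit 4, nat_lit 0x49⟩ (t14_7155) (t14_15347))))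 (.node ⟨nat_lit 6, nat_lit 0x300030, nat_lit 0x102111, nat_lit 3, nat_lit 4, nat_lit 0x48⟩ (.node ⟨nat_lit 6, nat_lit 0x2000300034, nat_lit 0x121111, nat_lit 3, nat_lit 4, nat_lit 0x48⟩ (.node ⟨nat_lit 5, nat_lit 0x800100018, nat_lit 0x11132, nat_lit 6, nat_lit 4, nat_lit 0x48⟩ (t14_2035) (t14_10227)) (.node ⟨nat_lit 7, nat_lit 0x20002000500068, nat_lit 0x1120020, nat_lit 1, nat_lit 4, nat_lit 0x48⟩ (t14_6131) (t14_14323))) (.node ⟨nat_lit 4, nat_lit 0xc, nat_lit 0x2224, nat_lit 3, nat_lit 4, nat_lit 0x49⟩ (.node ⟨nat_lit 5, nat_lit 0x18, nat_lit 0x10110, nat_lit 1, nat_lit 3, nat_lit 0x46⟩ (t14_4083) (t14_12275)) (.node ⟨nat_lit 6, nat_lit 0x20001000280030, nat_lit 0x10103, nat_lit 2, nat_lit 4, nat_lit 0x46⟩ (t14_8179) (.nil)))))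
def t4_3 : Tr := .node ⟨nat_lit 4, nat_lit 8, nat_lit 0x1221, nat_lit 0, nat_lit 3, nat_lit 0x46⟩ (.node ⟨nat_lit 2, nat_lit 0, nat_lit 0x31, nat_lit 7, nat_lit 3, nat_lit 0x45⟩ (.node ⟨nat_lit 4, nat_lit 0, nat_lit 0x1111, nat_lit 5, nat_lit 3, nat_lit 0x47⟩ (.node ⟨nat_lit 5, nat_lit 0, nat_lit 0x43111, nat_lit 1, nat_lit 4, nat_lit 0x4c⟩ (.node ⟨nat_lit 5, nat_lit 0x80010, nat_lit 0x2413, nat_lit 0, nat_lit 4, nat_lit 0x49⟩ (t9_3) (t9_259)) (.node ⟨nat_lit 5, nat_lit 0x18, nat_lit 0x32112, nat_lit 0, nat_lit 3, nat_lit 0x48⟩ (t9_131) (t9_387))) (.node ⟨nat_lit 2, nat_lit 0, nat_lit 0x42, nat_lit 0xb, nat_lit 4, nat_lit 0x48⟩ (.node ⟨nat_lit 2, nat_lit 2, nat_lit 0x22, nat_lit 0xb, nat_lit 3, nat_lit 0x45⟩ (t9_67) (t9_323)) (.node ⟨nat_lit 5, nat_lit 0x18, nat_lit 0x31111, nat_lit 3, nat_lit 3, nat_lit 0x48⟩ (t9_195) (t9_451)))) (.node ⟨nat_lit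 5, nat_lit 0x100018, nat_lit 0x1201, nat_lit 0, nat_lit 3, nat_lit 0x45⟩ (.node ⟨nat_lit 5, nat_lit 0, nat_lit 0x42111, nat_lit 0, nat_lit 4, nat_lit 0x4b⟩ (.node ⟨nat_lit 3, nat_lit 4, nat_lit 0x312, nat_lit 3, nat_lit 3, nat_lit 0x46⟩ (t9_35) (t9_291)) (.node ⟨nat_lit 5, nat_lit 0x10, nat_lit 0x31112, nat_lit 1, nat_lit 4, nat_lit 0x4a⟩ (t9_163) (t9_419))) (.node ⟨nat_lit 5, nat_lit 0, nat_lit 0x41111, nat_lit 2, nat_lit 4, nat_lit 0x4b⟩ (.node ⟨nat_lit 3, nat_lit 4, nat_lit 0x212, nat_lit 8, nat_lit 3, nat_lit 0x46⟩ (t9_99) (t9_355)) (.node ⟨nat_lit 5, nat_lit 0x18, nat_lit 0x31321, nat_lit 0, nat_lit 4, nat_lit 0x4a⟩ (t9_227) (t9_483))))) (.node ⟨nat_lit 4, nat_lit 8, nat_lit 0x212, nat_lit 0, nat_lit 3, nat_lit 0x45⟩ (.node ⟨nat_lit 2, nat_lit 2, nat_lit 0x12, nat_lit 6, nat_lit 3, nat_lit 0x43⟩ (.node ⟨nat_lit 3, nat_lit 0, nat_lit 0x411,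 nat_lit 3, nat_lit 3, nat_lit 0x47⟩ (.node ⟨nat_lit 3, nat_lit 4, nat_lit 0x30, nat_lit 0x13, nat_lit 4, nat_lit 0x49⟩ (t9_19) (t9_275)) (.node ⟨nat_lit 3, nat_lit 6, nat_lit 0x322, nat_lit 7, nat_lit 3, nat_lit 0x46⟩ (t9_147) (t9_403))) (.node ⟨nat_lit 3, nat_lit 0, nat_lit 0x411, nat_lit 2, nat_lit 3, nat_lit 0x47⟩ (.node ⟨nat_lit 5, nat_lit 0x100010, nat_lit 0x2100, nat_lit 1, nat_lit 3, nat_lit 0x46⟩ (t9_83) (t9_339)) (.node ⟨nat_lit 5, nat_lit 0x1000100008, nat_lit 0x3101, nat_lit 0, nat_lit 3, nat_lit 0x46⟩ (t9_211) (t9_467)))) (.node ⟨nat_lit 3, nat_lit 0, nat_lit 0x432, nat_lit 7, nat_lit 4, nat_lit 0x4a⟩ (.node ⟨nat_lit 4, nat_lit 8, nat_lit 0x2412, nat_lit 3, nat_lit 4, nat_lit 0x4a⟩ (.node ⟨nat_lit 5, nat_lit 0x10, nat_lit 0x22111, nat_lit 0, nat_lit 3, nat_lit 0x48⟩ (t9_51) (t9_307)) (.node ⟨nat_lit 4, nat_lit 0, nat_lit 0x3211, nat_lit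 3, nat_lit 4, nat_lit 0x49⟩ (t9_179) (t9_435))) (.node ⟨nat_lit 7, nat_lit 0x400020, nat_lit 0x141101, nat_lit 1, nat_lit 4, nat_lit 0x4c⟩ (.node ⟨nat_lit 5, nat_lit 0x18, nat_lit 0x32113, nat_lit 0, nat_lit 4, nat_lit 0x4a⟩ (t9_115) (t9_371)) (.node ⟨nat_lit 6, nat_lit 0x800200030, nat_lit 0x130022, nat_lit 1, nat_lit 4, nat_lit 0x49⟩ (t9_243) (t9_499)))))

end Pool.Agent.Sel.T31
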