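import Pool.Agent.H8.Sel.Prof

set_option linter.all false
set_option maxRecDepth 100000

namespace Pool.Agent.Sel.T31

open Pool.Agent.Sel

def t14_4 : Tr := .node ⟨nat_lit 9, nat_lit 0x100010000800080014001400190, nat_lit 0x10121101, nat_lit 1, nat_lit 4, nat_lit 0x48⟩ (.nil) (.nil)
def t14_8196 : Tr := .node ⟨nat_lit 7, nat_lit 0x40002000480064, nat_lit 0x122030, nat_lit 1, nat_lit 4, nat_lit 0x48⟩ (.nil) (.nil)
def t14_4100 : Tr := .node ⟨nat_lit 9, nat_lit 0x10001000040008001100120, nat_lit 0x11110010, nat_lit 1, nat_lit 4, nat_lit 0x49⟩ (.nil) (.nil)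
def t14_12292 : Tr := .node ⟨nat_lit 6, nat_lit 0x800300028, nat_lit 0x10114, nat_lit 1, nat_lit 4, nat_lit 0x46⟩ (.nil) (.nil)
def t14_2052 : Tr := .node ⟨nat_lit 7, nat_lit 0x6000600050, nat_lit 0x102310, nat_lit 1, nat_lit 4, nat_lit 0x48⟩ (.nil) (.nil)
def t14_10244 : Tr := .node ⟨nat_lit 8, nat_lit 0x80002000a000d000d0, nat_lit 0x10000120, nat_lit 0, nat_lit 4, nat_lit 0x46⟩ (.nil) (.nil)
def t14_6148 : Tr := .node ⟨nat_lit 2, nat_lit 2, nat_lit 1, nat_lit 0xa, nat_lit 4, nat_lit 0x43⟩ (.nil) (.nil)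
def t14_14340 : Tr := .node ⟨nat_lit 8, nat_lit 0x100080002000c0, nat_lit 0x10201, nat_lit 3, nat_lit 4, nat_lit 0x49⟩ (.nil) (.nil)
def t14_1028 : Tr := .node ⟨nat_lit 5, nat_lit 0x80010, nat_lit 0x1102, nat_lit 4, nat_lit 4, nat_lit 0x47⟩ (.nil) (.nil)
def t14_9220 : Tr := .node ⟨nat_lit 8, nat_lit 0x800040009000a000d0, nat_lit 0x11011, nat_lit 0, nat_lit 4, nat_lit 0x46⟩ (.nil) (.nil)
def t14_5124 : Tr := .node ⟨nat_lit 9, nat_lit 0x100010001000080014001a001c0, nat_lit 0x103010, nat_lit 1, nat_lit 4, nat_lit 0x47⟩ (.nil) (.nil)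
def t14_13316 : Tr := .node ⟨nat_lit 7, nat_lit 0x20001000600050, nat_lit 0x300, nat_lit 3, nat_lit 4, nat_lit 0x47⟩ (.nil) (.nil)
def t14_3076 : Tr := .node ⟨nat_lit 8, nat_lit 0x800040004000a000c8, nat_lit 0x1031011, nat_lit 0, nat_lit 4, nat_lit 0x48⟩ (.nil) (.nil)
def t14_11268 : Tr := .node ⟨nat_lit 9, nat_lit 0x400100002001800180, nat_lit 0x10001020, nat_lit 1, nat_lit 4, nat_lit 0x49⟩ (.nil) (.nil)
def t14_7172 : Tr := .node ⟨nat_lit 7, nat_lit 0x20002000400060, nat_lit 0x121111, nat_lit 1, nat_lit 4, nat_lit 0x49⟩ (.nil) (.nil)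
def t14_15364 : Tr := .node ⟨nat_lit 0xa, nat_lit 0x1000200020002000208, nat_lit 0x11101101, nat_lit 0, nat_lit 4, nat_lit 0x4c⟩ (.nil) (.nil)
def t14_516 : Tr := .node ⟨nat_lit 7, nat_lit 0x400060, nat_lit 0x1122110, nat_lit 0, nat_lit 4, nat_lit 0x4b⟩ (.nil) (.nil)
def t14_8708 : Tr := .node ⟨nat_lit 7, nat_lit 0x40004800480060, nat_lit 0x11100, nat_lit 3, nat_lit 4, nat_lit 0x47⟩ (.nil) (.nil)
def t14_4612 : Tr := .node ⟨nat_lit 7, nat_lit 0x40004000100060, nat_lit 0x110003, nat_lit 2, nat_lit 4, nat_lit 0x48⟩ (.nil) (.nil)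
def t14_12804 : Tr := .node ⟨nat_lit 6, nat_lit 0x20002000100030, nat_lit 0x2020, nat_lit 5, nat_lit 4, nat_lit 0x47⟩ (.nil) (.nil)
def t14_2564 : Tr := .node ⟨nat_lit 8, nat_lit 0x4000400080008000600088, nat_lit 0x1112100, nat_lit 0, nat_lit 4, nat_lit 0x48⟩ (.nil) (.nil)
def t14_10756 : Tr := .node ⟨nat_lit 8, nat_lit 0xc000a0, nat_lit 0x10022, nat_lit 0, nat_lit 4, nat_lit 0x49⟩ (.nil) (.nil)
def t14_6660 : Tr := .node ⟨nat_lit 8, nat_lit 0x4000800080008000900060, nat_lit 0x1211010, nat_lit 0, nat_lit 4, nat_lit 0x48⟩ (.nil) (.nil)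
def t14_14852 : Tr := .node ⟨nat_lit 8, nat_lit 0x8000800040004000a000c8, nat_lit 0x1111111, nat_lit 3, nat_lit 4, nat_lit 0x48⟩ (.nil) (.nil)
def t14_1540 : Tr := .node ⟨nat_lit 7, nat_lit 0x40004000500060, nat_lit 0x102210, nat_lit 1, nat_lit 3, nat_lit 0x46⟩ (.nil) (.nil)
def t14_9732 : Tr := .node ⟨nat_lit 8, nat_lit 0x10001000a000c0, nat_lit 0x1100022, nat_lit 0, nat_lit 4, nat_lit 0x48⟩ (.nil) (.nil)
def t14_5636 : Tr := .node ⟨nat_lit 5, nat_lit 0x18001c, nat_lit 1, nat_lit 3, nat_lit 4, nat_lit 0x43⟩ (.nil) (.nil)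
def t14_13828 : Tr := .node ⟨nat_lit 7, nat_lit 0x4000600018, nat_lit 0x300, nat_lit 1, nat_lit 4, nat_lit 0x47⟩ (.nil) (.nil)
def t14_3588 : Tr := .node ⟨nat_lit 8, nat_lit 0x5000c000c000a0, nat_lit 0x1210, nat_lit 0, nat_lit 4, nat_lit 0x46⟩ (.nil) (.nil)
def t14_11780 : Tr := .node ⟨nat_lit 4, nat_lit 0x8000c, nat_lit 0x23, nat_lit 6, nat_lit 4, nat_lit 0x45⟩ (.nil) (.nil)
def t14_7684 : Tr := .node ⟨nat_lit 3, nat_lit 6, nat_lit 2, nat_lit 9, nat_lit 4, nat_lit 0x44⟩ (.nil) (.nil)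
def t9_4 : Tr := .node ⟨nat_lit 5, nat_lit 0x18, nat_lit 0x32221, nat_lit 0, nat_lit 4, nat_lit 0x4a⟩ (.node ⟨nat_lit 5, nat_lit 0x40018, nat_lit 0x10312, nat_lit 1, nat_lit 4, nat_lit 0x47⟩ (.node ⟨nat_lit 5, nat_lit 0x10001c001c, nat_lit 0x31120, nat_lit 3, nat_lit 4, nat_lit 0x47⟩ (.node ⟨nat_lit 6, nat_lit 0x1000200034, nat_lit 0x12210, nat_lit 0, nat_lit 4, nat_lit 0x47⟩ (.node ⟨nat_lit 6, nat_lit 0x30, nat_lit 0x221113, nat_lit 0, nat_lit 4, nat_lit 0x4b⟩ (t14_4) (t14_8196)) (.node ⟨nat_lit 5, nat_lit 0x180014, nat_lit 0x11100, nat_lit 3, nat_lit 4, nat_lit 0x46⟩ (t14_4100) (t14_12292))) (.node ⟨nat_lit 8, nat_lit 0xc0, nat_lit 0x20111111, nat_lit 0, nat_lit 4, nat_lit 0x4d⟩ (.node ⟨nat_lit 6, nat_lit 0x20001000100030, nat_lit 0x113002, nat_lit 0, nat_lit 3, nat_lit 0x46⟩ (t14_2052) (t14_10244)) (.node ⟨nat_lit 7, nat_lit 0x4000600060, nat_lit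 0x32200, nat_lit 0, nat_lit 4, nat_lit 0x49⟩ (t14_6148) (t14_14340)))) (.node ⟨nat_lit 7, nat_lit 0x4000400060, nat_lit 0x22101, nat_lit 1, nat_lit 4, nat_lit 0x49⟩ (.node ⟨nat_lit 4, nat_lit 0x80008, nat_lit 0x2311, nat_lit 8, nat_lit 4, nat_lit 0x49⟩ (.node ⟨nat_lit 6, nat_lit 0x300030, nat_lit 0x111141, nat_lit 0, nat_lit 4, nat_lit 0x49⟩ (t14_1028) (t14_9220)) (.node ⟨nat_lit 6, nat_lit 0, nat_lit 0x222211, nat_lit 2, nat_lit 4, nat_lit 0x4d⟩ (t14_5124) (t14_13316))) (.node ⟨nat_lit 4, nat_lit 0x8000c, nat_lit 0x1020, nat_lit 2, nat_lit 3, nat_lit 0x44⟩ (.node ⟨nat_lit 6, nat_lit 0x2000240024, nat_lit 0x211211, nat_lit 4, nat_lit 4, nat_lit 0x4a⟩ (t14_3076) (t14_11268)) (.node ⟨nat_lit 7, nat_lit 0x40002000100060, nat_lit 0x110212, nat_lit 5, nat_lit 4, nat_lit 0x49⟩ (t14_7172) (t14_15364))))) (.node ⟨nat_lit 7, nat_lit 0x20004000440044, nat_lit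 0x3010021, nat_lit 1, nat_lit 4, nat_lit 0x49⟩ (.node ⟨nat_lit 5, nat_lit 0x10, nat_lit 0x12221, nat_lit 0, nat_lit 4, nat_lit 0x49⟩ (.node ⟨nat_lit 6, nat_lit 0x80030, nat_lit 0x100211, nat_lit 3, nat_lit 4, nat_lit 0x48⟩ (.node ⟨nat_lit 6, nat_lit 0x2000200030, nat_lit 0x101311, nat_lit 0, nat_lit 3, nat_lit 0x47⟩ (t14_516) (t14_8708)) (.node ⟨nat_lit 4, nat_lit 0x8000c, nat_lit 0x2132, nat_lit 6, nat_lit 4, nat_lit 0x48⟩ (t14_4612) (t14_12804))) (.node ⟨nat_lit 6, nat_lit 0x300030, nat_lit 0x101121, nat_lit 1, nat_lit 4, nat_lit 0x47⟩ (.node ⟨nat_lit 6, nat_lit 0x200030, nat_lit 0x12101, nat_lit 0, nat_lit 4, nat_lit 0x48⟩ (t14_2564) (t14_10756)) (.node ⟨nat_lit 8, nat_lit 0x80008000c0, nat_lit 0x1211210, nat_lit 0, nat_lit 4, nat_lit 0x4b⟩ (t14_6660) (t14_14852)))) (.node ⟨nat_lit 6, nat_lit 0x200032, nat_lit 0x121121, nat_lit 1, nat_lit 4,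 nat_lit 0x49⟩ (.node ⟨nat_lit 7, nat_lit 0x1000200040, nat_lit 0x1122111, nat_lit 1, nat_lit 4, nat_lit 0x4b⟩ (.node ⟨nat_lit 7, nat_lit 0x1000400062, nat_lit 0x1101031, nat_lit 0, nat_lit 4, nat_lit 0x49⟩ (t14_1540) (t14_9732)) (.node ⟨nat_lit 8, nat_lit 0x40008000800060008800d0, nat_lit 0x11112010, nat_lit 0, nat_lit 4, nat_lit 0x48⟩ (t14_5636) (t14_13828))) (.node ⟨nat_lit 3, nat_lit 6, nat_lit 0x204, nat_lit 8, nat_lit 4, nat_lit 0x46⟩ (.node ⟨nat_lit 6, nat_lit 0x800300030, nat_lit 0x100030, nat_lit 2, nat_lit 3, nat_lit 0x45⟩ (t14_3588) (t14_11780)) (.node ⟨nat_lit 8, nat_lit 0x80008000880088, nat_lit 0x11111100, nat_lit 3, nat_lit 4, nat_lit 0x4b⟩ (t14_7684) (.nil)))))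
def t14_260 : Tr := .node ⟨nat_lit 7, nat_lit 0x2000400060, nat_lit 0x1022311, nat_lit 0, nat_lit 4, nat_lit 0x4a⟩ (.nil) (.nil)
def t14_8452 : Tr := .node ⟨nat_lit 7, nat_lit 0x40001000680070, nat_lit 0x2021, nat_lit 0, nat_lit 4, nat_lit 0x45⟩ (.nil) (.nil)
def t14_4356 : Tr := .node ⟨nat_lit 8, nat_lit 0x800020009000d000e0, nat_lit 0x11101012, nat_lit 0, nat_lit 4, nat_lit 0x47⟩ (.nil) (.nil)
def t14_12548 : Tr := .node ⟨nat_lit 7, nat_lit 0x40001000600070, nat_lit 0x13203, nat_lit 0, nat_lit 4, nat_lit 0x47⟩ (.nil) (.nil)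
def t14_2308 : Tr := .node ⟨nat_lit 6, nat_lit 0x800300038, nat_lit 0x101231, nat_lit 0, nat_lit 4, nat_lit 0x46⟩ (.nil) (.nil)
def t14_10500 : Tr := .node ⟨nat_lit 6, nat_lit 0x240038, nat_lit 0x10022, nat_lit 0, nat_lit 4, nat_lit 0x45⟩ (.nil) (.nil)
def t14_6404 : Tr := .node ⟨nat_lit 7, nat_lit 0x400020005000600068, nat_lit 0x101020, nat_lit 3, nat_lit 4, nat_lit 0x46⟩ (.nil) (.nil)
def t14_14596 : Tr := .node ⟨nat_lit 7, nat_lit 0x400040002000480050, nat_lit 0x111111, nat_lit 7, nat_lit 4, nat_lit 0x48⟩ (.nil) (.nil)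
def t14_1284 : Tr := .node ⟨nat_lit 6, nat_lit 0x2000100008, nat_lit 0x1231, nat_lit 0, nat_lit 4, nat_lit 0x47⟩ (.nil) (.nil)
def t14_9476 : Tr := .node ⟨nat_lit 8, nat_lit 0x800040009000d000e0, nat_lit 0x10111022, nat_lit 0, nat_lit 4, nat_lit 0x47⟩ (.nil) (.nil)
def t14_5380 : Tr := .node ⟨nat_lit 5, nat_lit 0x100018, nat_lit 0x1122, nat_lit 9, nat_lit 4, nat_lit 0x48⟩ (.nil) (.nil)
def t14_13572 : Tr := .node ⟨nat_lit 6, nat_lit 0x20002000100010, nat_lit 0x2100, nat_lit 0, nat_lit 4, nat_lit 0x46⟩ (.nil) (.nil)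
def t14_3332 : Tr := .node ⟨nat_lit 9, nat_lit 0x4001000100008000800180, nat_lit 0x20201, nat_lit 1, nat_lit 4, nat_lit 0x49⟩ (.nil) (.nil)
def t14_11524 : Tr := .node ⟨nat_lit 8, nat_lit 0x8000800040004000a000c8, nat_lit 0x1010100, nat_lit 2, nat_lit 4, nat_lit 0x47⟩ (.nil) (.nil)
def t14_7428 : Tr := .node ⟨nat_lit 8, nat_lit 0x8000800040004000a00090, nat_lit 0x1111110, nat_lit 2, nat_lit 4, nat_lit 0x48⟩ (.nil) (.nil)
def t14_772 : Tr := .node ⟨nat_lit 5, nat_lit 0x140018, nat_lit 0x104, nat_lit 2, nat_lit 4, nat_lit 0x45⟩ (.nil) (.nil)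
def t14_8964 : Tr := .node ⟨nat_lit 5, nat_lit 0x10, nat_lit 0x22110, nat_lit 6, nat_lit 3, nat_lit 0x49⟩ (.nil) (.nil)
def t14_4868 : Tr := .node ⟨nat_lit 8, nat_lit 0x8000800040004000a000c8, nat_lit 0x1111200, nat_lit 2, nat_lit 4, nat_lit 0x48⟩ (.nil) (.nil)
def t14_13060 : Tr := .node ⟨nat_lit 7, nat_lit 0x200040003000480068, nat_lit 0x1033000, nat_lit 0, nat_lit 4, nat_lit 0x47⟩ (.nil) (.nil)
def t14_2820 : Tr := .node ⟨nat_lit 7, nat_lit 0x40004000680068, nat_lit 0x1010021, nat_lit 3, nat_lit 4, nat_lit 0x47⟩ (.nil) (.nil)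
def t14_11012 : Tr := .node ⟨nat_lit 6, nat_lit 0x3000300030, nat_lit 0x1210, nat_lit 9, nat_lit 4, nat_lit 0x47⟩ (.nil) (.nil)
def t14_6916 : Tr := .node ⟨nat_lit 5, nat_lit 0x100010, nat_lit 0x11111, nat_lit 0xb, nat_lit 4, nat_lit 0x4a⟩ (.nil) (.nil)
def t14_15108 : Tr := .node ⟨nat_lit 8, nat_lit 0x800040009000d000c8, nat_lit 0x10111101, nat_lit 0, nat_lit 4, nat_lit 0x47⟩ (.nil) (.nil)
def t14_1796 : Tr := .node ⟨nat_lit 6, nat_lit 0x2000080030, nat_lit 0x20212, nat_lit 0, nat_lit 4, nat_lit 0x47⟩ (.nil) (.nil)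
def t14_9988 : Tr := .node ⟨nat_lit 6, nat_lit 0x2000100010, nat_lit 0x301120, nat_lit 2, nat_lit 3, nat_lit 0x48⟩ (.nil) (.nil)
def t14_5892 : Tr := .node ⟨nat_lit 8, nat_lit 0x400040004000800082, nat_lit 0x10121000, nat_lit 5, nat_lit 4, nat_lit 0x4a⟩ (.nil) (.nil)
def t14_14084 : Tr := .node ⟨nat_lit 7, nat_lit 0x40001000100060, nat_lit 0x3001, nat_lit 5, nat_lit 4, nat_lit 0x48⟩ (.nil) (.nil)
def t14_3844 : Tr := .node ⟨nat_lit 7, nat_lit 0x40001000600068, nat_lit 0x1102012, nat_lit 2, nat_lit 4, nat_lit 0x48⟩ (.nil) (.nil)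
def t14_12036 : Tr := .node ⟨nat_lit 7, nat_lit 0x4000500060, nat_lit 0x111210, nat_lit 3, nat_lit 4, nat_lit 0x49⟩ (.nil) (.nil)
def t14_7940 : Tr := .node ⟨nat_lit 7, nat_lit 0x200040004000300048, nat_lit 0x21021, nat_lit 0, nat_lit 4, nat_lit 0x46⟩ (.nil) (.nil)
def t9_260 : Tr := .node ⟨nat_lit 5, nat_lit 0x100010, nat_lit 0x3211, nat_lit 4, nat_lit 4, nat_lit 0x49⟩ (.node ⟨nat_lit 7, nat_lit 0x40002000480068, nat_lit 0x3011012, nat_lit 1, nat_lit 4, nat_lit 0x49⟩ (.node ⟨nat_lit 7, nat_lit 0x40004000100060, nat_lit 0x203002, nat_lit 0, nat_lit 4, nat_lit 0x49⟩ (.node ⟨nat_lit 6, nat_lit 0x2000200010, nat_lit 0x12103, nat_lit 2, nat_lit 4, nat_lit 0x49⟩ (.node ⟨nat_lit 6, nat_lit 0x200022, nat_lit 0x211122, nat_lit 0, nat_lit 4, nat_lit 0x4a⟩ (t14_260) (t14_8452)) (.node ⟨nat_lit 4, nat_lit 0xc000c, nat_lit 0x2033, nat_lit 2, nat_lit 3, nat_lit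 0x44⟩ (t14_4356) (t14_12548))) (.node ⟨nat_lit 4, nat_lit 0x8000c, nat_lit 0x2022, nat_lit 0xc, nat_lit 4, nat_lit 0x48⟩ (.node ⟨nat_lit 8, nat_lit 0x40008000600060009000c0, nat_lit 0x11120003, nat_lit 0, nat_lit 4, nat_lit 0x48⟩ (t14_2308) (t14_10500)) (.node ⟨nat_lit 8, nat_lit 0x800020008800c0, nat_lit 0x11022010, nat_lit 0, nat_lit 4, nat_lit 0x4a⟩ (t14_6404) (t14_14596)))) (.node ⟨nat_lit 5, nat_lit 0x40018, nat_lit 0x21111, nat_lit 2, nat_lit 4, nat_lit 0x47⟩ (.node ⟨nat_lit 6, nat_lit 0x200032, nat_lit 0x222111, nat_lit 1, nat_lit 4, nat_lit 0x4a⟩ (.node ⟨nat_lit 5, nat_lit 0x1000080008, nat_lit 0x31110, nat_lit 1, nat_lit 3, nat_lit 0x47⟩ (t14_1284) (t14_9476)) (.node ⟨nat_lit 6, nat_lit 0x1800280030, nat_lit 0x111222, nat_lit 2, nat_lit 4, nat_lit 0x47⟩ (t14_5380) (t14_13572))) (.node ⟨nat_lit 5, nat_lit 0x80010, nat_lit 0x20230, nat_lit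 1, nat_lit 4, nat_lit 0x48⟩ (.node ⟨nat_lit 5, nat_lit 0x1000180018, nat_lit 0x11231, nat_lit 2, nat_lit 3, nat_lit 0x45⟩ (t14_3332) (t14_11524)) (.node ⟨nat_lit 5, nat_lit 0x18, nat_lit 0x11112, nat_lit 6, nat_lit 4, nat_lit 0x49⟩ (t14_7428) (.nil))))) (.node ⟨nat_lit 5, nat_lit 0x100008, nat_lit 0x1301, nat_lit 7, nat_lit 4, nat_lit 0x49⟩ (.node ⟨nat_lit 5, nat_lit 0x40018, nat_lit 0x11220, nat_lit 3, nat_lit 4, nat_lit 0x48⟩ (.node ⟨nat_lit 2, nat_lit 0, nat_lit 0x11, nat_lit 0xd, nat_lit 4, nat_lit 0x46⟩ (.node ⟨nat_lit 6, nat_lit 0x30, nat_lit 0x222110, nat_lit 0, nat_lit 4, nat_lit 0x4b⟩ (t14_772) (t14_8964)) (.node ⟨nat_lit 6, nat_lit 0x20002000100038, nat_lit 0x12120, nat_lit 3, nat_lit 4, nat_lit 0x47⟩ (t14_4868) (t14_13060))) (.node ⟨nat_lit 6, nat_lit 0x2000080034, nat_lit 0x100201, nat_lit 1, nat_lit 4, nat_lit 0x46⟩ (.node ⟨nat_lit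 6, nat_lit 0x300028, nat_lit 0x2114, nat_lit 1, nat_lit 4, nat_lit 0x48⟩ (t14_2820) (t14_11012)) (.node ⟨nat_lit 7, nat_lit 0x40004800300070, nat_lit 0x1100222, nat_lit 1, nat_lit 4, nat_lit 0x46⟩ (t14_6916) (t14_15108)))) (.node ⟨nat_lit 6, nat_lit 0x200030, nat_lit 0x111121, nat_lit 2, nat_lit 4, nat_lit 0x49⟩ (.node ⟨nat_lit 7, nat_lit 0x20004000440060, nat_lit 0x1011211, nat_lit 0, nat_lit 4, nat_lit 0x48⟩ (.node ⟨nat_lit 6, nat_lit 0x2000300028, nat_lit 0x11103, nat_lit 3, nat_lit 4, nat_lit 0x47⟩ (t14_1796) (t14_9988)) (.node ⟨nat_lit 7, nat_lit 0x40004000400020, nat_lit 0x221002, nat_lit 1, nat_lit 4, nat_lit 0x4a⟩ (t14_5892) (t14_14084))) (.node ⟨nat_lit 6, nat_lit 0x20001000100030, nat_lit 0x101002, nat_lit 1, nat_lit 3, nat_lit 0x45⟩ (.node ⟨nat_lit 6, nat_lit 0x200030, nat_lit 0x101010, nat_lit 0, nat_lit 4, nat_lit 0x47⟩ (t14_3844)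 (t14_12036)) (.node ⟨nat_lit 7, nat_lit 0x40001000100060, nat_lit 0x1002101, nat_lit 7, nat_lit 4, nat_lit 0x49⟩ (t14_7940) (.nil)))))
def t14_132 : Tr := .node ⟨nat_lit 7, nat_lit 0x4000600064, nat_lit 0x1031111, nat_lit 1, nat_lit 4, nat_lit 0x49⟩ (.nil) (.nil)
def t14_8324 : Tr := .node ⟨nat_lit 6, nat_lit 0x800280030, nat_lit 0x102, nat_lit 2, nat_lit 4, nat_lit 0x45⟩ (.nil) (.nil)
def t14_4228 : Tr := .node ⟨nat_lit 7, nat_lit 0x40004800300030, nat_lit 0x2102010, nat_lit 1, nat_lit 4, nat_lit 0x48⟩ (.nil) (.nil)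
def t14_12420 : Tr := .node ⟨nat_lit 8, nat_lit 0x80002000c000d000d0, nat_lit 0x10100310, nat_lit 1, nat_lit 4, nat_lit 0x47⟩ (.nil) (.nil)
def t14_2180 : Tr := .node ⟨nat_lit 8, nat_lit 0x400080008000200088, nat_lit 0x102002, nat_lit 3, nat_lit 4, nat_lit 0x49⟩ (.nil) (.nil)
def t14_10372 : Tr := .node ⟨nat_lit 7, nat_lit 0x200040004800300060, nat_lit 0x1031002, nat_lit 0, nat_lit 4, nat_lit 0x47⟩ (.nil) (.nil)
def t14_6276 : Tr := .node ⟨nat_lit 3, nat_lit 0x40004, nat_lit 0x131, nat_lit 0xa, nat_lit 4, nat_lit 0x47⟩ (.nil) (.nil)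
def t14_14468 : Tr := .node ⟨nat_lit 6, nat_lit 0x2000300028, nat_lit 0x102, nat_lit 5, nat_lit 4, nat_lit 0x46⟩ (.nil) (.nil)
def t14_1156 : Tr := .node ⟨nat_lit 7, nat_lit 0x10004000440064, nat_lit 0x100021, nat_lit 0, nat_lit 4, nat_lit 0x45⟩ (.nil) (.nil)
def t14_9348 : Tr := .node ⟨nat_lit 6, nat_lit 0x20002000200028, nat_lit 0x21211, nat_lit 7, nat_lit 4, nat_lit 0x49⟩ (.nil) (.nil)
def t14_5252 : Tr := .node ⟨nat_lit 7, nat_lit 0x600060, nat_lit 0x11110, nat_lit 0, nat_lit 4, nat_lit 0x48⟩ (.nil) (.nil)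
def t14_13444 : Tr := .node ⟨nat_lit 7, nat_lit 0x20004000100060, nat_lit 0x14010, nat_lit 1, nat_lit 4, nat_lit 0x48⟩ (.nil) (.nil)
def t14_3204 : Tr := .node ⟨nat_lit 9, nat_lit 0x1000080008000400180, nat_lit 0x1101102, nat_lit 0, nat_lit 4, nat_lit 0x4a⟩ (.nil) (.nil)
def t14_11396 : Tr := .node ⟨nat_lit 8, nat_lit 0x200020002000c000c0, nat_lit 0x10011020, nat_lit 1, nat_lit 4, nat_lit 0x48⟩ (.nil) (.nil)
def t14_7300 : Tr := .node ⟨nat_lit 6, nat_lit 0x10002000240034, nat_lit 0x212011, nat_lit 2, nat_lit 4, nat_lit 0x47⟩ (.nil) (.nil)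
def t14_15492 : Tr := .node ⟨nat_lit 8, nat_lit 0x400080008000c0, nat_lit 0x1112101, nat_lit 0, nat_lit 4, nat_lit 0x4a⟩ (.nil) (.nil)
def t14_644 : Tr := .node ⟨nat_lit 6, nat_lit 0x2000200030, nat_lit 0x2320, nat_lit 3, nat_lit 4, nat_lit 0x49⟩ (.nil) (.nil)
def t14_8836 : Tr := .node ⟨nat_lit 7, nat_lit 0x4000400064, nat_lit 0x111203, nat_lit 2, nat_lit 4, nat_lit 0x49⟩ (.nil) (.nil)
def t14_4740 : Tr := .node ⟨nat_lit 7, nat_lit 0x20002000400040, nat_lit 0x1111021, nat_lit 2, nat_lit 4, nat_lit 0x4a⟩ (.nil) (.nil)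
def t14_12932 : Tr := .node ⟨nat_lit 6, nat_lit 0x20001000280030, nat_lit 0x2020, nat_lit 3, nat_lit 4, nat_lit 0x46⟩ (.nil) (.nil)
def t14_2692 : Tr := .node ⟨nat_lit 7, nat_lit 0x40001000600060, nat_lit 0x23010, nat_lit 1, nat_lit 4, nat_lit 0x48⟩ (.nil) (.nil)
def t14_10884 : Tr := .node ⟨nat_lit 7, nat_lit 0x400020005000600068, nat_lit 0x12120, nat_lit 3, nat_lit 4, nat_lit 0x46⟩ (.nil) (.nil)
def t14_6788 : Tr := .node ⟨nat_lit 7, nat_lit 0x2000400062, nat_lit 0x1011010, nat_lit 0, nat_lit 4, nat_lit 0x48⟩ (.nil) (.nil)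
def t14_14980 : Tr := .node ⟨nat_lit 5, nat_lit 0x1000100010, nat_lit 0x1311, nat_lit 2, nat_lit 3, nat_lit 0x46⟩ (.nil) (.nil)
def t14_1668 : Tr := .node ⟨nat_lit 5, nat_lit 0x40018, nat_lit 0x11020, nat_lit 2, nat_lit 4, nat_lit 0x46⟩ (.nil) (.nil)
def t14_9860 : Tr := .node ⟨nat_lit 9, nat_lit 0x1000100010801100180, nat_lit 0x1111010, nat_lit 4, nat_lit 4, nat_lit 0x4a⟩ (.nil) (.nil)
def t14_5764 : Tr := .node ⟨nat_lit 8, nat_lit 0x80008000880088, nat_lit 0x1111220, nat_lit 0, nat_lit 4, nat_lit 0x4a⟩ (.nil) (.nil)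
def t14_13956 : Tr := .node ⟨nat_lit 9, nat_lit 0x100004000200180, nat_lit 0x12000, nat_lit 2, nat_lit 4, nat_lit 0x4a⟩ (.nil) (.nil)
def t14_3716 : Tr := .node ⟨nat_lit 8, nat_lit 0x800040005000a000d000e0, nat_lit 0x11120011, nat_lit 0, nat_lit 4, nat_lit 0x47⟩ (.nil) (.nil)
def t14_11908 : Tr := .node ⟨nat_lit 4, nat_lit 0x40008, nat_lit 0x133, nat_lit 1, nat_lit 3, nat_lit 0x45⟩ (.nil) (.nil)
def t14_7812 : Tr := .node ⟨nat_lit 7, nat_lit 0x40001000200048, nat_lit 0x112003, nat_lit 1, nat_lit 4, nat_lit 0x48⟩ (.nil) (.nil)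
def t9_132 : Tr := .node ⟨nat_lit 5, nat_lit 0x10, nat_lit 0x31111, nat_lit 0, nat_lit 4, nat_lit 0x49⟩ (.node ⟨nat_lit 7, nat_lit 0x20001000500068, nat_lit 0x1301022, nat_lit 0, nat_lit 4, nat_lit 0x48⟩ (.node ⟨nat_lit 8, nat_lit 0x200080008000c0, nat_lit 0x30210, nat_lit 1, nat_lit 4, nat_lit 0x4a⟩ (.node ⟨nat_lit 5, nat_lit 0x10, nat_lit 0x3110, nat_lit 0, nat_lit 4, nat_lit 0x48⟩ (.node ⟨nat_lit 5, nat_lit 0x1000100008, nat_lit 0x12213, nat_lit 3, nat_lit 3, nat_lit 0x47⟩ (t14_132) (t14_8324)) (.node ⟨nat_lit 6, nat_lit 0x200038, nat_lit 0x100102, nat_lit 0, nat_lit 4, nat_lit 0x46⟩ (t14_4228) (t14_12420))) (.node ⟨nat_lit 8, nat_lit 0x8000200090009000c0, nat_lit 0x21101102, nat_lit 0, nat_lit 4, nat_lit 0x49⟩ (.node ⟨nat_lit 5, nat_lit 0x40018, nat_lit 0x100, nat_lit 1, nat_lit 4, nat_lit 0x44⟩ (t14_2180) (t14_10372)) (.node ⟨nat_lit 8, nat_lit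 0x80008000400088, nat_lit 0x11211101, nat_lit 1, nat_lit 4, nat_lit 0x4b⟩ (t14_6276) (t14_14468)))) (.node ⟨nat_lit 7, nat_lit 0x400020, nat_lit 0x122101, nat_lit 0, nat_lit 4, nat_lit 0x4b⟩ (.node ⟨nat_lit 6, nat_lit 0x2000240018, nat_lit 0x22111, nat_lit 0, nat_lit 4, nat_lit 0x47⟩ (.node ⟨nat_lit 5, nat_lit 0x800100012, nat_lit 0x10030, nat_lit 9, nat_lit 4, nat_lit 0x48⟩ (t14_1156) (t14_9348)) (.node ⟨nat_lit 7, nat_lit 0x10004000600064, nat_lit 0x1100212, nat_lit 3, nat_lit 4, nat_lit 0x48⟩ (t14_5252) (t14_13444))) (.node ⟨nat_lit 6, nat_lit 0xc0030, nat_lit 0x102000, nat_lit 0, nat_lit 4, nat_lit 0x46⟩ (.node ⟨nat_lit 5, nat_lit 0x40018, nat_lit 0x10200, nat_lit 2, nat_lit 4, nat_lit 0x46⟩ (t14_3204) (t14_11396)) (.node ⟨nat_lit 6, nat_lit 0x1000200030, nat_lit 0x101110, nat_lit 2, nat_lit 4, nat_lit 0x47⟩ (t14_7300) (t14_15492))))) (.node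 ⟨nat_lit 7, nat_lit 0x2000400042, nat_lit 0x3011021, nat_lit 0, nat_lit 4, nat_lit 0x4b⟩ (.node ⟨nat_lit 4, nat_lit 0x80004, nat_lit 0x3203, nat_lit 1, nat_lit 3, nat_lit 0x47⟩ (.node ⟨nat_lit 6, nat_lit 0x1000200034, nat_lit 0x102211, nat_lit 0, nat_lit 4, nat_lit 0x47⟩ (.node ⟨nat_lit 3, nat_lit 6, nat_lit 0x210, nat_lit 7, nat_lit 4, nat_lit 0x45⟩ (t14_644) (t14_8836)) (.node ⟨nat_lit 7, nat_lit 0x400040007000700068, nat_lit 0x1002201, nat_lit 3, nat_lit 4, nat_lit 0x46⟩ (t14_4740) (t14_12932))) (.node ⟨nat_lit 6, nat_lit 0x2000080030, nat_lit 0x101112, nat_lit 1, nat_lit 4, nat_lit 0x47⟩ (.node ⟨nat_lit 7, nat_lit 0x400040004000200020, nat_lit 0x120030, nat_lit 3, nat_lit 4, nat_lit 0x49⟩ (t14_2692) (t14_10884)) (.node ⟨nat_lit 7, nat_lit 0x40004000100060, nat_lit 0x11120, nat_lit 2, nat_lit 4, nat_lit 0x48⟩ (t14_6788) (t14_14980)))) (.node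 ⟨nat_lit 6, nat_lit 0x10001000200020, nat_lit 0x111011, nat_lit 0, nat_lit 3, nat_lit 0x46⟩ (.node ⟨nat_lit 7, nat_lit 0x5000600028, nat_lit 0x12211, nat_lit 0, nat_lit 4, nat_lit 0x47⟩ (.node ⟨nat_lit 6, nat_lit 0x2000240018, nat_lit 0x10101, nat_lit 1, nat_lit 4, nat_lit 0x45⟩ (t14_1668) (t14_9860)) (.node ⟨nat_lit 7, nat_lit 0x40002000100060, nat_lit 0x20022, nat_lit 1, nat_lit 4, nat_lit 0x48⟩ (t14_5764) (t14_13956))) (.node ⟨nat_lit 6, nat_lit 0x1000280034, nat_lit 0x210022, nat_lit 0, nat_lit 4, nat_lit 0x46⟩ (.node ⟨nat_lit 7, nat_lit 0x3000500060, nat_lit 0x101100, nat_lit 0, nat_lit 4, nat_lit 0x46⟩ (t14_3716) (t14_11908)) (.node ⟨nat_lit 5, nat_lit 0x1000180018, nat_lit 0x10221, nat_lit 7, nat_lit 4, nat_lit 0x47⟩ (t14_7812) (.nil)))))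
def t14_388 : Tr := .node ⟨nat_lit 6, nat_lit 0x800200030, nat_lit 0x110211, nat_lit 1, nat_lit 4, nat_lit 0x47⟩ (.nil) (.nil)
def t14_8580 : Tr := .node ⟨nat_lit 7, nat_lit 0x10004000440064, nat_lit 0x100110, nat_lit 1, nat_lit 4, nat_lit 0x46⟩ (.nil) (.nil)
def t14_4484 : Tr := .node ⟨nat_lit 7, nat_lit 0x800500060, nat_lit 0x1111012, nat_lit 2, nat_lit 4, nat_lit 0x49⟩ (.nil) (.nil)
def t14_12676 : Tr := .node ⟨nat_lit 4, nat_lit 0x8000c, nat_lit 0x1020, nat_lit 0xb, nat_lit 4, nat_lit 0x47⟩ (.nil) (.nil)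
def t14_2436 : Tr := .node ⟨nat_lit 6, nat_lit 0x1000280030, nat_lit 0x11220, nat_lit 2, nat_lit 4, nat_lit 0x47⟩ (.nil) (.nil)
def t14_10628 : Tr := .node ⟨nat_lit 6, nat_lit 0x1000080020, nat_lit 0x10, nat_lit 0, nat_lit 4, nat_lit 0x45⟩ (.nil) (.nil)
def t14_6532 : Tr := .node ⟨nat_lit 7, nat_lit 0x4000600064, nat_lit 0x1011111, nat_lit 1, nat_lit 4, nat_lit 0x48⟩ (.nil) (.nil)
def t14_14724 : Tr := .node ⟨nat_lit 6, nat_lit 0x800080030, nat_lit 0x100111, nat_lit 4, nat_lit 4, nat_lit 0x47⟩ (.nil) (.nil)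
def t14_1412 : Tr := .node ⟨nat_lit 7, nat_lit 0x40004000200060, nat_lit 0x113011, nat_lit 0, nat_lit 3, nat_lit 0x47⟩ (.nil) (.nil)
def t14_9604 : Tr := .node ⟨nat_lit 7, nat_lit 0x400020005000600070, nat_lit 0x12020, nat_lit 3, nat_lit 4, nat_lit 0x46⟩ (.nil) (.nil)
def t14_5508 : Tr := .node ⟨nat_lit 6, nat_lit 0x200030, nat_lit 0x1131, nat_lit 3, nat_lit 3, nat_lit 0x47⟩ (.nil) (.nil)
def t14_13700 : Tr := .node ⟨nat_lit 7, nat_lit 0x500060, nat_lit 0x201102, nat_lit 0, nat_lit 4, nat_lit 0x49⟩ (.nil) (.nil)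
def t14_3460 : Tr := .node ⟨nat_lit 7, nat_lit 0x40002000600050, nat_lit 0x13001, nat_lit 0, nat_lit 4, nat_lit 0x47⟩ (.nil) (.nil)
def t14_11652 : Tr := .node ⟨nat_lit 7, nat_lit 0x20005000500060, nat_lit 0x1104, nat_lit 0, nat_lit 4, nat_lit 0x46⟩ (.nil) (.nil)
def t14_7556 : Tr := .node ⟨nat_lit 7, nat_lit 0x10005000300060, nat_lit 0x2032, nat_lit 1, nat_lit 4, nat_lit 0x46⟩ (.nil) (.nil)
def t14_900 : Tr := .node ⟨nat_lit 6, nat_lit 0x10001000200020, nat_lit 0x102211, nat_lit 3, nat_lit 4, nat_lit 0x48⟩ (.nil) (.nil)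
def t14_9092 : Tr := .node ⟨nat_lit 9, nat_lit 0x8000800100011000c001a001c0, nat_lit 0x1111012, nat_lit 0, nat_lit 4, nat_lit 0x46⟩ (.nil) (.nil)
def t14_4996 : Tr := .node ⟨nat_lit 7, nat_lit 0x500060, nat_lit 0x101101, nat_lit 0, nat_lit 4, nat_lit 0x48⟩ (.nil) (.nil)
def t14_13188 : Tr := .node ⟨nat_lit 8, nat_lit 0x20008000c00030, nat_lit 0x13, nat_lit 0, nat_lit 4, nat_lit 0x47⟩ (.nil) (.nil)
def t14_2948 : Tr := .node ⟨nat_lit 6, nat_lit 0x1000280034, nat_lit 0x21121, nat_lit 2, nat_lit 4, nat_lit 0x47⟩ (.nil) (.nil)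
def t14_11140 : Tr := .node ⟨nat_lit 6, nat_lit 0x800300030, nat_lit 0x100030, nat_lit 5, nat_lit 4, nat_lit 0x47⟩ (.nil) (.nil)
def t14_7044 : Tr := .node ⟨nat_lit 7, nat_lit 0x400040002000240058, nat_lit 0x1121002, nat_lit 0, nat_lit 4, nat_lit 0x47⟩ (.nil) (.nil)
def t14_15236 : Tr := .node ⟨nat_lit 8, nat_lit 0x800020002000c000d0, nat_lit 0x11011021, nat_lit 0, nat_lit 4, nat_lit 0x48⟩ (.nil) (.nil)
def t14_1924 : Tr := .node ⟨nat_lit 8, nat_lit 0x800090006000c000d0, nat_lit 0x20001121, nat_lit 0, nat_lit 4, nat_lit 0x47⟩ (.nil) (.nil)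
def t14_10116 : Tr := .node ⟨nat_lit 9, nat_lit 0x1000140018001900190, nat_lit 0x200220, nat_lit 0, nat_lit 4, nat_lit 0x47⟩ (.nil) (.nil)
def t14_6020 : Tr := .node ⟨nat_lit 6, nat_lit 0x200030, nat_lit 0x112210, nat_lit 3, nat_lit 4, nat_lit 0x4a⟩ (.nil) (.nil)
def t14_14212 : Tr := .node ⟨nat_lit 8, nat_lit 0x800040004000a000c8, nat_lit 0x110020, nat_lit 1, nat_lit 4, nat_lit 0x47⟩ (.nil) (.nil)
def t14_3972 : Tr := .node ⟨nat_lit 7, nat_lit 0x20004000440030, nat_lit 0x1012110, nat_lit 0, nat_lit 4, nat_lit 0x47⟩ (.nil) (.nil)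
def t14_12164 : Tr := .node ⟨nat_lit 8, nat_lit 0x80004000a000c800d0, nat_lit 0x1120010, nat_lit 1, nat_lit 4, nat_lit 0x47⟩ (.nil) (.nil)
def t14_8068 : Tr := .node ⟨nat_lit 5, nat_lit 0x1000100014, nat_lit 0x1113, nat_lit 6, nat_lit 4, nat_lit 0x47⟩ (.nil) (.nil)
def t9_388 : Tr := .node ⟨nat_lit 6, nat_lit 0x2000080030, nat_lit 0x23022, nat_lit 0, nat_lit 4, nat_lit 0x49⟩ (.node ⟨nat_lit 6, nat_lit 0x2000080030, nat_lit 0x113022, nat_lit 0, nat_lit 4, nat_lit 0x49⟩ (.node ⟨nat_lit 4, nat_lit 0x40008, nat_lit 0x2222, nat_lit 4, nat_lit 4, nat_lit 0x48⟩ (.node ⟨nat_lit 7, nat_lit 0x40001000680070, nat_lit 0x1101022, nat_lit 0, nat_lit 4, nat_lit 0x46⟩ (.node ⟨nat_lit 7, nat_lit 0x20004000100060, nat_lit 0x22011, nat_lit 1, nat_lit 4, nat_lit 0x48⟩ (t14_388) (t14_8580)) (.node ⟨nat_lit 9, nat_lit 0x80010001000104, nat_lit 0x101110201, nat_lit 0,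 nat_lit 4, nat_lit 0x4c⟩ (t14_4484) (t14_12676))) (.node ⟨nat_lit 6, nat_lit 0x200030, nat_lit 0x202112, nat_lit 4, nat_lit 4, nat_lit 0x4a⟩ (.node ⟨nat_lit 6, nat_lit 0x2000100030, nat_lit 0x111224, nat_lit 0, nat_lit 4, nat_lit 0x49⟩ (t14_2436) (t14_10628)) (.node ⟨nat_lit 3, nat_lit 0x40004, nat_lit 0x21, nat_lit 5, nat_lit 4, nat_lit 0x44⟩ (t14_6532) (t14_14724)))) (.node ⟨nat_lit 5, nat_lit 0x40018, nat_lit 0x21221, nat_lit 1, nat_lit 3, nat_lit 0x47⟩ (.node ⟨nat_lit 5, nat_lit 0x1000100008, nat_lit 0x12211, nat_lit 7, nat_lit 4, nat_lit 0x49⟩ (.node ⟨nat_lit 5, nat_lit 0x100010, nat_lit 0x1100, nat_lit 5, nat_lit 4, nat_lit 0x47⟩ (t14_1412) (t14_9604)) (.node ⟨nat_lit 6, nat_lit 0x20001000100028, nat_lit 0x12212, nat_lit 1, nat_lit 4, nat_lit 0x47⟩ (t14_5508) (t14_13700))) (.node ⟨nat_lit 6, nat_lit 0x2000080030, nat_lit 0x11311, nat_lit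 1, nat_lit 4, nat_lit 0x47⟩ (.node ⟨nat_lit 6, nat_lit 0x300038, nat_lit 0x1200, nat_lit 1, nat_lit 4, nat_lit 0x46⟩ (t14_3460) (t14_11652)) (.node ⟨nat_lit 6, nat_lit 0x10002000200034, nat_lit 0x111112, nat_lit 6, nat_lit 4, nat_lit 0x48⟩ (t14_7556) (.nil))))) (.node ⟨nat_lit 7, nat_lit 0x600060, nat_lit 0x1031111, nat_lit 1, nat_lit 4, nat_lit 0x4a⟩ (.node ⟨nat_lit 6, nat_lit 0x280030, nat_lit 0x22201, nat_lit 0, nat_lit 4, nat_lit 0x48⟩ (.node ⟨nat_lit 6, nat_lit 0x2000100024, nat_lit 0x111210, nat_lit 1, nat_lit 4, nat_lit 0x48⟩ (.node ⟨nat_lit 6, nat_lit 0x100020, nat_lit 0x311122, nat_lit 0, nat_lit 4, nat_lit 0x4b⟩ (t14_900) (t14_9092)) (.node ⟨nat_lit 3, nat_lit 0, nat_lit 0x322, nat_lit 0xc, nat_lit 4, nat_lit 0x4a⟩ (t14_4996) (t14_13188))) (.node ⟨nat_lit 7, nat_lit 0x40001000100060, nat_lit 0x110210, nat_lit 0, nat_lit 4, nat_lit 0x48⟩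 (.node ⟨nat_lit 6, nat_lit 0x80030, nat_lit 0x111112, nat_lit 3, nat_lit 4, nat_lit 0x49⟩ (t14_2948) (t14_11140)) (.node ⟨nat_lit 6, nat_lit 0x2000300034, nat_lit 0x111122, nat_lit 5, nat_lit 4, nat_lit 0x48⟩ (t14_7044) (t14_15236)))) (.node ⟨nat_lit 6, nat_lit 0x200030, nat_lit 0x102113, nat_lit 0, nat_lit 4, nat_lit 0x48⟩ (.node ⟨nat_lit 6, nat_lit 0x30, nat_lit 0x302101, nat_lit 0, nat_lit 4, nat_lit 0x4a⟩ (.node ⟨nat_lit 7, nat_lit 0x5000600070, nat_lit 0x1101123, nat_lit 0, nat_lit 4, nat_lit 0x47⟩ (t14_1924) (t14_10116)) (.node ⟨nat_lit 5, nat_lit 0x180018, nat_lit 0x10320, nat_lit 2, nat_lit 3, nat_lit 0x46⟩ (t14_6020) (t14_14212))) (.node ⟨nat_lit 7, nat_lit 0x40002000200020, nat_lit 0x10221, nat_lit 0, nat_lit 4, nat_lit 0x49⟩ (.node ⟨nat_lit 6, nat_lit 0x800300028, nat_lit 0x110010, nat_lit 2, nat_lit 4, nat_lit 0x46⟩ (t14_3972) (t14_12164))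 (.node ⟨nat_lit 8, nat_lit 0x400040008000800080, nat_lit 0x1121110, nat_lit 1, nat_lit 4, nat_lit 0x4a⟩ (t14_8068) (.nil)))))
def t14_68 : Tr := .node ⟨nat_lit 8, nat_lit 0x800020002000c0, nat_lit 0x11021101, nat_lit 1, nat_lit 4, nat_lit 0x4a⟩ (.nil) (.nil)
def t14_8260 : Tr := .node ⟨nat_lit 8, nat_lit 0x2000800040008800c0, nat_lit 0x2130, nat_lit 2, nat_lit 4, nat_lit 0x48⟩ (.nil) (.nil)
def t14_4164 : Tr := .node ⟨nat_lit 9, nat_lit 0x8000800100010800a00180, nat_lit 0x101101011, nat_lit 1, nat_lit 4, nat_lit 0x49⟩ (.nil) (.nil)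
def t14_12356 : Tr := .node ⟨nat_lit 8, nat_lit 0x800040002000c000c0, nat_lit 0x111030, nat_lit 1, nat_lit 4, nat_lit 0x48⟩ (.nil) (.nil)
def t14_2116 : Tr := .node ⟨nat_lit 5, nat_lit 0x1000080018, nat_lit 0x1203, nat_lit 7, nat_lit 4, nat_lit 0x47⟩ (.nil) (.nil)
def t14_10308 : Tr := .node ⟨nat_lit 6, nat_lit 0x80030, nat_lit 0x2002, nat_lit 0, nat_lit 4, nat_lit 0x47⟩ (.nil) (.nil)
def t14_6212 : Tr := .node ⟨nat_lit 4, nat_lit 8, nat_lit 0x110, nat_lit 0xb, nat_lit 4, nat_lit 0x48⟩ (.nil) (.nil)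
def t14_14404 : Tr := .node ⟨nat_lit 8, nat_lit 0x8000200090009000c0, nat_lit 0x121000, nat_lit 1, nat_lit 4, nat_lit 0x48⟩ (.nil) (.nil)
def t14_1092 : Tr := .node ⟨nat_lit 6, nat_lit 0x2000240030, nat_lit 0x1221, nat_lit 3, nat_lit 4, nat_lit 0x47⟩ (.nil) (.nil)
def t14_9284 : Tr := .node ⟨nat_lit 8, nat_lit 0x800040009000a000d0, nat_lit 0x12001, nat_lit 0, nat_lit 4, nat_lit 0x46⟩ (.nil) (.nil)
def t14_5188 : Tr := .node ⟨nat_lit 8, nat_lit 0x40004000400080008000e0, nat_lit 0x111310, nat_lit 0, nat_lit 4, nat_lit 0x48⟩ (.nil) (.nil)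
def t14_13380 : Tr := .node ⟨nat_lit 8, nat_lit 0x800040009000a000d0, nat_lit 0x120002, nat_lit 0, nat_lit 4, nat_lit 0x47⟩ (.nil) (.nil)
def t14_3140 : Tr := .node ⟨nat_lit 7, nat_lit 0x20002000500068, nat_lit 0x110011, nat_lit 2, nat_lit 4, nat_lit 0x47⟩ (.nil) (.nil)
def t14_11332 : Tr := .node ⟨nat_lit 7, nat_lit 0x40001000600060, nat_lit 0x111120, nat_lit 2, nat_lit 4, nat_lit 0x48⟩ (.nil) (.nil)
def t14_7236 : Tr := .node ⟨nat_lit 7, nat_lit 0x40001000480060, nat_lit 0x1012100, nat_lit 1, nat_lit 4, nat_lit 0x48⟩ (.nil) (.nil)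
def t14_15428 : Tr := .node ⟨nat_lit 0xa, nat_lit 0x2000200020802080210, nat_lit 0x111110100, nat_lit 0, nat_lit 4, nat_lit 0x4b⟩ (.nil) (.nil)
def t14_580 : Tr := .node ⟨nat_lit 6, nat_lit 0x30000c, nat_lit 0x200002, nat_lit 1, nat_lit 4, nat_lit 0x46⟩ (.nil) (.nil)
def t14_8772 : Tr := .node ⟨nat_lit 7, nat_lit 0x40002000480060, nat_lit 0x32030, nat_lit 0, nat_lit 4, nat_lit 0x48⟩ (.nil) (.nil)
def t14_4676 : Tr := .node ⟨nat_lit 7, nat_lit 0x40002000600050, nat_lit 0x12002, nat_lit 2, nat_lit 4, nat_lit 0x47⟩ (.nil) (.nil)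
def t14_12868 : Tr := .node ⟨nat_lit 7, nat_lit 0x4000600064, nat_lit 0x20100, nat_lit 0, nat_lit 4, nat_lit 0x47⟩ (.nil) (.nil)
def t14_2628 : Tr := .node ⟨nat_lit 5, nat_lit 0x40018, nat_lit 0x32, nat_lit 1, nat_lit 4, nat_lit 0x45⟩ (.nil) (.nil)
def t14_10820 : Tr := .node ⟨nat_lit 6, nat_lit 0x20001000280038, nat_lit 0x101002, nat_lit 5, nat_lit 4, nat_lit 0x46⟩ (.nil) (.nil)
def t14_6724 : Tr := .node ⟨nat_lit 7, nat_lit 0x40004800580068, nat_lit 0x1110101, nat_lit 1, nat_lit 4, nat_lit 0x46⟩ (.nil) (.nil)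
def t14_14916 : Tr := .node ⟨nat_lit 8, nat_lit 0x8000400090009000d0, nat_lit 0x10110211, nat_lit 0, nat_lit 4, nat_lit 0x48⟩ (.nil) (.nil)
def t14_1604 : Tr := .node ⟨nat_lit 9, nat_lit 0x10000800080012001800190, nat_lit 0x1110120, nat_lit 1, nat_lit 4, nat_lit 0x48⟩ (.nil) (.nil)
def t14_9796 : Tr := .node ⟨nat_lit 8, nat_lit 0x800020009000c000d0, nat_lit 0x10102, nat_lit 0, nat_lit 4, nat_lit 0x46⟩ (.nil) (.nil)
def t14_5700 : Tr := .node ⟨nat_lit 6, nat_lit 0x20001000280034, nat_lit 0x12110, nat_lit 3, nat_lit 4, nat_lit 0x46⟩ (.nil) (.nil)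
def t14_13892 : Tr := .node ⟨nat_lit 7, nat_lit 0x40001000480068, nat_lit 0x11002, nat_lit 1, nat_lit 4, nat_lit 0x46⟩ (.nil) (.nil)
def t14_3652 : Tr := .node ⟨nat_lit 6, nat_lit 0x300028, nat_lit 0x221, nat_lit 3, nat_lit 4, nat_lit 0x47⟩ (.nil) (.nil)
def t14_11844 : Tr := .node ⟨nat_lit 6, nat_lit 0x200032, nat_lit 0x11130, nat_lit 1, nat_lit 4, nat_lit 0x48⟩ (.nil) (.nil)
def t14_7748 : Tr := .node ⟨nat_lit 6, nat_lit 0x2000080030, nat_lit 0x131, nat_lit 1, nat_lit 4, nat_lit 0x46⟩ (.nil) (.nil)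
def t9_68 : Tr := .node ⟨nat_lit 4, nat_lit 8, nat_lit 0x3111, nat_lit 0xb, nat_lit 4, nat_lit 0x4a⟩ (.node ⟨nat_lit 6, nat_lit 0x200030, nat_lit 0x113221, nat_lit 0, nat_lit 4, nat_lit 0x4a⟩ (.node ⟨nat_lit 7, nat_lit 0x200040004800680068, nat_lit 0x3020120, nat_lit 1, nat_lit 4, nat_lit 0x47⟩ (.node ⟨nat_lit 5, nat_lit 0x100008, nat_lit 0x1210, nat_lit 3, nat_lit 4, nat_lit 0x47⟩ (.node ⟨nat_lit 7, nat_lit 0x20002000400070, nat_lit 0x2001123, nat_lit 0, nat_lit 4, nat_lit 0x48⟩ (t14_68) (t14_8260)) (.node ⟨nat_lit 6, nat_lit 0x800300028, nat_lit 0x101004, nat_lit 4, nat_lit 4, nat_lit 0x48⟩ (t14_4164) (t14_12356))) (.node ⟨nat_lit 5, nat_lit 0x18, nat_lit 0x21112, nat_lit 8, nat_lit 4, nat_lit 0x4a⟩ (.node ⟨nat_lit 7, nat_lit 0x40004800600068, nat_lit 0x1111031, nat_lit 1, nat_lit 4, nat_lit 0x48⟩ (t14_2116) (t14_10308)) (.node ⟨nat_lit 7, nat_lit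 0x20002000400060, nat_lit 0x121102, nat_lit 0, nat_lit 3, nat_lit 0x47⟩ (t14_6212) (t14_14404)))) (.node ⟨nat_lit 5, nat_lit 0x100010, nat_lit 0x22220, nat_lit 0, nat_lit 3, nat_lit 0x48⟩ (.node ⟨nat_lit 6, nat_lit 0x100020, nat_lit 0x221110, nat_lit 0, nat_lit 4, nat_lit 0x4a⟩ (.node ⟨nat_lit 7, nat_lit 0x40004000100060, nat_lit 0x12031, nat_lit 0, nat_lit 4, nat_lit 0x48⟩ (t14_1092) (t14_9284)) (.node ⟨nat_lit 7, nat_lit 0x20005000500060, nat_lit 0x10312, nat_lit 3, nat_lit 4, nat_lit 0x47⟩ (t14_5188) (t14_13380))) (.node ⟨nat_lit 6, nat_lit 0x1000200034, nat_lit 0x112101, nat_lit 3, nat_lit 4, nat_lit 0x48⟩ (.node ⟨nat_lit 6, nat_lit 0x280030, nat_lit 0x11200, nat_lit 1, nat_lit 4, nat_lit 0x47⟩ (t14_3140) (t14_11332)) (.node ⟨nat_lit 7, nat_lit 0x40002000480068, nat_lit 0x1011012, nat_lit 1, nat_lit 4, nat_lit 0x47⟩ (t14_7236) (t14_15428)))))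 (.node ⟨nat_lit 4, nat_lit 0x80004, nat_lit 0x323, nat_lit 4, nat_lit 4, nat_lit 0x48⟩ (.node ⟨nat_lit 3, nat_lit 4, nat_lit 0x212, nat_lit 0xb, nat_lit 4, nat_lit 0x48⟩ (.node ⟨nat_lit 7, nat_lit 0x40002000600060, nat_lit 0x20021, nat_lit 1, nat_lit 4, nat_lit 0x47⟩ (.node ⟨nat_lit 2, nat_lit 0, nat_lit 0x32, nat_lit 0x12, nat_lit 4, nat_lit 0x49⟩ (t14_580) (t14_8772)) (.node ⟨nat_lit 8, nat_lit 0x4000800080008400c8, nat_lit 0x11101102, nat_lit 1, nat_lit 4, nat_lit 0x49⟩ (t14_4676) (t14_12868))) (.node ⟨nat_lit 6, nat_lit 0x1000280034, nat_lit 0x100012, nat_lit 0, nat_lit 4, nat_lit 0x44⟩ (.node ⟨nat_lit 5, nat_lit 0x800080010, nat_lit 0x11301, nat_lit 9, nat_lit 4, nat_lit 0x49⟩ (t14_2628) (t14_10820)) (.node ⟨nat_lit 4, nat_lit 0x80008, nat_lit 0x1200, nat_lit 0xd, nat_lit 3, nat_lit 0x47⟩ (t14_6724) (t14_14916)))) (.node ⟨nat_lit 7, nat_lit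 0x2000400042, nat_lit 0x2011010, nat_lit 3, nat_lit 4, nat_lit 0x4a⟩ (.node ⟨nat_lit 6, nat_lit 0x1800280030, nat_lit 0x22013, nat_lit 0, nat_lit 4, nat_lit 0x47⟩ (.node ⟨nat_lit 6, nat_lit 0x300038, nat_lit 0x111113, nat_lit 0, nat_lit 4, nat_lit 0x47⟩ (t14_1604) (t14_9796)) (.node ⟨nat_lit 8, nat_lit 0x8000400020009000c0, nat_lit 0x11112101, nat_lit 0, nat_lit 4, nat_lit 0x49⟩ (t14_5700) (t14_13892))) (.node ⟨nat_lit 7, nat_lit 0x40001000100060, nat_lit 0x201102, nat_lit 2, nat_lit 4, nat_lit 0x48⟩ (.node ⟨nat_lit 5, nat_lit 0x18001c, nat_lit 0x203, nat_lit 4, nat_lit 4, nat_lit 0x45⟩ (t14_3652) (t14_11844)) (.node ⟨nat_lit 7, nat_lit 0x20001000500068, nat_lit 0x1100021, nat_lit 3, nat_lit 4, nat_lit 0x47⟩ (t14_7748) (.nil)))))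
def t14_324 : Tr := .node ⟨nat_lit 7, nat_lit 0x1800500060, nat_lit 0x1102312, nat_lit 0, nat_lit 4, nat_lit 0x48⟩ (.nil) (.nil)
def t14_8516 : Tr := .node ⟨nat_lit 4, nat_lit 0x80008000c, nat_lit 0x114, nat_lit 7, nat_lit 4, nat_lit 0x46⟩ (.nil) (.nil)
def t14_4420 : Tr := .node ⟨nat_lit 8, nat_lit 0x800080004000900090, nat_lit 0x11211010, nat_lit 1, nat_lit 4, nat_lit 0x4a⟩ (.nil) (.nil)
def t14_12612 : Tr := .node ⟨nat_lit 7, nat_lit 0x1000600018, nat_lit 0x1100100, nat_lit 0, nat_lit 4, nat_lit 0x47⟩ (.nil) (.nil)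
def t14_2372 : Tr := .node ⟨nat_lit 7, nat_lit 0x5000600060, nat_lit 0x121210, nat_lit 0, nat_lit 4, nat_lit 0x48⟩ (.nil) (.nil)
def t14_10564 : Tr := .node ⟨nat_lit 5, nat_lit 0x180018, nat_lit 0x110, nat_lit 4, nat_lit 4, nat_lit 0x45⟩ (.nil) (.nil)
def t14_6468 : Tr := .node ⟨nat_lit 7, nat_lit 0x40001000480060, nat_lit 0x1111200, nat_lit 0, nat_lit 4, nat_lit 0x48⟩ (.nil) (.nil)
def t14_14660 : Tr := .node ⟨nat_lit 0xa, nat_lit 0x2000200020001000100011002400380, nat_lit 0x10011101, nat_lit 2, nat_lit 4, nat_lit 0x48⟩ (.nil) (.nil)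
def t14_1348 : Tr := .node ⟨nat_lit 7, nat_lit 0x400020005000700070, nat_lit 0x1003110, nat_lit 3, nat_lit 4, nat_lit 0x46⟩ (.nil) (.nil)
def t14_9540 : Tr := .node ⟨nat_lit 9, nat_lit 0x1000100004000800080, nat_lit 0x11110110, nat_lit 0, nat_lit 3, nat_lit 0x49⟩ (.nil) (.nil)
def t14_5444 : Tr := .node ⟨nat_lit 8, nat_lit 0x2000800040008800c4, nat_lit 0x1003011, nat_lit 1, nat_lit 4, nat_lit 0x48⟩ (.nil) (.nil)
def t14_13636 : Tr := .node ⟨nat_lit 7, nat_lit 0x40001000100060, nat_lit 0x212, nat_lit 1, nat_lit 4, nat_lit 0x47⟩ (.nil) (.nil)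
def t14_3396 : Tr := .node ⟨nat_lit 7, nat_lit 0x5000300060, nat_lit 0x12110, nat_lit 0, nat_lit 4, nat_lit 0x47⟩ (.nil) (.nil)
def t14_11588 : Tr := .node ⟨nat_lit 6, nat_lit 0x3000300038, nat_lit 0x101103, nat_lit 3, nat_lit 4, nat_lit 0x46⟩ (.nil) (.nil)
def t14_7492 : Tr := .node ⟨nat_lit 7, nat_lit 0x40002000600060, nat_lit 0x1011121, nat_lit 1, nat_lit 4, nat_lit 0x48⟩ (.nil) (.nil)
def t14_836 : Tr := .node ⟨nat_lit 8, nat_lit 0x80008000400040009000e0, nat_lit 0x10113110, nat_lit 0, nat_lit 4, nat_lit 0x48⟩ (.nil) (.nil)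
def t14_9028 : Tr := .node ⟨nat_lit 9, nat_lit 0x80010001000100011001100120, nat_lit 0x111110, nat_lit 3, nat_lit 4, nat_lit 0x49⟩ (.nil) (.nil)
def t14_4932 : Tr := .node ⟨nat_lit 8, nat_lit 0x20001000c000c0, nat_lit 0x10000031, nat_lit 1, nat_lit 4, nat_lit 0x48⟩ (.nil) (.nil)
def t14_13124 : Tr := .node ⟨nat_lit 6, nat_lit 0x2000100030, nat_lit 0x201230, nat_lit 0, nat_lit 3, nat_lit 0x47⟩ (.nil) (.nil)
def t14_2884 : Tr := .node ⟨nat_lit 7, nat_lit 0x10004000500060, nat_lit 0x211201, nat_lit 0, nat_lit 4, nat_lit 0x48⟩ (.nil) (.nil)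
def t14_11076 : Tr := .node ⟨nat_lit 7, nat_lit 0x40004800300030, nat_lit 0x1100220, nat_lit 0, nat_lit 4, nat_lit 0x46⟩ (.nil) (.nil)
def t14_6980 : Tr := .node ⟨nat_lit 6, nat_lit 0x1000280034, nat_lit 0x122011, nat_lit 2, nat_lit 4, nat_lit 0x48⟩ (.nil) (.nil)
def t14_15172 : Tr := .node ⟨nat_lit 9, nat_lit 0x800100010000c00110019001a0, nat_lit 0x101111101, nat_lit 0, nat_lit 4, nat_lit 0x47⟩ (.nil) (.nil)
def t14_1860 : Tr := .node ⟨nat_lit 7, nat_lit 0x6000600050, nat_lit 0x31112, nat_lit 0, nat_lit 4, nat_lit 0x48⟩ (.nil) (.nil)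
def t14_10052 : Tr := .node ⟨nat_lit 7, nat_lit 0x200040006000700070, nat_lit 0x101220, nat_lit 4, nat_lit 4, nat_lit 0x46⟩ (.nil) (.nil)
def t14_5956 : Tr := .node ⟨nat_lit 8, nat_lit 0x8000a000c0, nat_lit 0x1111211, nat_lit 0, nat_lit 4, nat_lit 0x4a⟩ (.nil) (.nil)
def t14_14148 : Tr := .node ⟨nat_lit 9, nat_lit 0x1000040004000800180, nat_lit 0x100012, nat_lit 1, nat_lit 4, nat_lit 0x49⟩ (.nil) (.nil)
def t14_3908 : Tr := .node ⟨nat_lit 6, nat_lit 0x20001000280038, nat_lit 0x101310, nat_lit 2, nat_lit 4, nat_lit 0x46⟩ (.nil) (.nil)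
def t14_12100 : Tr := .node ⟨nat_lit 7, nat_lit 0x4000600064, nat_lit 0x11110, nat_lit 1, nat_lit 4, nat_lit 0x47⟩ (.nil) (.nil)
def t14_8004 : Tr := .node ⟨nat_lit 4, nat_lit 0x80008000c, nat_lit 0x103, nat_lit 0xb, nat_lit 4, nat_lit 0x46⟩ (.nil) (.nil)
def t9_324 : Tr := .node ⟨nat_lit 6, nat_lit 0x2000200010, nat_lit 0x13101, nat_lit 1, nat_lit 4, nat_lit 0x48⟩ (.node ⟨nat_lit 6, nat_lit 0x1000280030, nat_lit 0x3220, nat_lit 0, nat_lit 4, nat_lit 0x47⟩ (.node ⟨nat_lit 3, nat_lit 4, nat_lit 0x213, nat_lit 0xb, nat_lit 4, nat_lit 0x48⟩ (.node ⟨nat_lit 6, nat_lit 0x1000280034, nat_lit 0x111122, nat_lit 0, nat_lit 4, nat_lit 0x46⟩ (.node ⟨nat_lit 8, nat_lit 0x800080004000880090, nat_lit 0x12111100, nat_lit 1, nat_lit 4, nat_lit 0x4a⟩ (t14_324) (t14_8516)) (.node ⟨nat_lit 7, nat_lit 0x200020004000400064, nat_lit 0x1010103, nat_lit 3, nat_lit 4,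 nat_lit 0x47⟩ (t14_4420) (t14_12612))) (.node ⟨nat_lit 4, nat_lit 0x8000c, nat_lit 1, nat_lit 4, nat_lit 3, nat_lit 0x43⟩ (.node ⟨nat_lit 7, nat_lit 0x10004000400064, nat_lit 0x100202, nat_lit 0, nat_lit 4, nat_lit 0x47⟩ (t14_2372) (t14_10564)) (.node ⟨nat_lit 7, nat_lit 0x40002000480068, nat_lit 0x2011200, nat_lit 1, nat_lit 4, nat_lit 0x48⟩ (t14_6468) (t14_14660)))) (.node ⟨nat_lit 5, nat_lit 0x800100012, nat_lit 0x21110, nat_lit 7, nat_lit 4, nat_lit 0x48⟩ (.node ⟨nat_lit 5, nat_lit 0x18, nat_lit 0x21221, nat_lit 5, nat_lit 4, nat_lit 0x4a⟩ (.node ⟨nat_lit 6, nat_lit 0x2000200010, nat_lit 0x111003, nat_lit 0, nat_lit 3, nat_lit 0x47⟩ (t14_1348) (t14_9540)) (.node ⟨nat_lit 7, nat_lit 0x20004000400040, nat_lit 0x121100, nat_lit 1, nat_lit 4, nat_lit 0x49⟩ (t14_5444) (t14_13636))) (.node ⟨nat_lit 4, nat_lit 8, nat_lit 0x211, nat_lit 6, nat_lit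 4, nat_lit 0x47⟩ (.node ⟨nat_lit 6, nat_lit 0x800280030, nat_lit 0x120230, nat_lit 0, nat_lit 4, nat_lit 0x47⟩ (t14_3396) (t14_11588)) (.node ⟨nat_lit 9, nat_lit 0x1000100010000800110012001c0, nat_lit 0x11011002, nat_lit 1, nat_lit 4, nat_lit 0x48⟩ (t14_7492) (.nil))))) (.node ⟨nat_lit 4, nat_lit 8, nat_lit 0x311, nat_lit 7, nat_lit 4, nat_lit 0x48⟩ (.node ⟨nat_lit 4, nat_lit 0x40008, nat_lit 0x1221, nat_lit 8, nat_lit 4, nat_lit 0x48⟩ (.node ⟨nat_lit 4, nat_lit 0x40008, nat_lit 0x1111, nat_lit 9, nat_lit 4, nat_lit 0x47⟩ (.node ⟨nat_lit 7, nat_lit 0x4000400020, nat_lit 0x1211110, nat_lit 3, nat_lit 4, nat_lit 0x4b⟩ (t14_836) (t14_9028)) (.node ⟨nat_lit 7, nat_lit 0x20004000680068, nat_lit 0x1220120, nat_lit 1, nat_lit 4, nat_lit 0x48⟩ (t14_4932) (t14_13124))) (.node ⟨nat_lit 7, nat_lit 0x3000500060, nat_lit 0x1101021, nat_lit 0, nat_lit 4, nat_lit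 0x47⟩ (.node ⟨nat_lit 6, nat_lit 0x20001000280028, nat_lit 0x112111, nat_lit 3, nat_lit 4, nat_lit 0x48⟩ (t14_2884) (t14_11076)) (.node ⟨nat_lit 7, nat_lit 0x400040, nat_lit 0x1111122, nat_lit 2, nat_lit 4, nat_lit 0x4c⟩ (t14_6980) (t14_15172)))) (.node ⟨nat_lit 5, nat_lit 0x40018, nat_lit 0x21110, nat_lit 1, nat_lit 3, nat_lit 0x46⟩ (.node ⟨nat_lit 7, nat_lit 0x6000600050, nat_lit 0x122111, nat_lit 0, nat_lit 4, nat_lit 0x48⟩ (.node ⟨nat_lit 7, nat_lit 0x4000400070, nat_lit 0x111103, nat_lit 0, nat_lit 4, nat_lit 0x48⟩ (t14_1860) (t14_10052)) (.node ⟨nat_lit 7, nat_lit 0x40001000100060, nat_lit 0x211002, nat_lit 0, nat_lit 4, nat_lit 0x48⟩ (t14_5956) (t14_14148))) (.node ⟨nat_lit 6, nat_lit 0x800300038, nat_lit 0x212, nat_lit 0, nat_lit 4, nat_lit 0x44⟩ (.node ⟨nat_lit 7, nat_lit 0x800600050, nat_lit 0x10004, nat_lit 0, nat_lit 4, nat_lit 0x47⟩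 (t14_3908) (t14_12100)) (.node ⟨nat_lit 8, nat_lit 0x200040008000a400c4, nat_lit 0x21002011, nat_lit 0, nat_lit 4, nat_lit 0x48⟩ (t14_8004) (.nil)))))
def t14_196 : Tr := .node ⟨nat_lit 7, nat_lit 0x1000500060, nat_lit 0x211112, nat_lit 2, nat_lit 4, nat_lit 0x49⟩ (.nil) (.nil)
def t14_8388 : Tr := .node ⟨nat_lit 5, nat_lit 0x100008, nat_lit 0x1103, nat_lit 6, nat_lit 3, nat_lit 0x47⟩ (.nil) (.nil)
def t14_4292 : Tr := .node ⟨nat_lit 8, nat_lit 0x800080002000c0, nat_lit 0x1121111, nat_lit 0, nat_lit 4, nat_lit 0x4a⟩ (.nil) (.nil)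
def t14_12484 : Tr := .node ⟨nat_lit 7, nat_lit 0x4000400060, nat_lit 0x20003, nat_lit 0, nat_lit 4, nat_lit 0x48⟩ (.nil) (.nil)
def t14_2244 : Tr := .node ⟨nat_lit 7, nat_lit 0x400020002000200050, nat_lit 0x2022200, nat_lit 1, nat_lit 4, nat_lit 0x49⟩ (.nil) (.nil)
def t14_10436 : Tr := .node ⟨nat_lit 7, nat_lit 0x40002000480064, nat_lit 0x112100, nat_lit 0, nat_lit 4, nat_lit 0x47⟩ (.nil) (.nil)
def t14_6340 : Tr := .node ⟨nat_lit 7, nat_lit 0x10004000600064, nat_lit 0x1000020, nat_lit 1, nat_lit 4, nat_lit 0x46⟩ (.nil) (.nil)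
def t14_14532 : Tr := .node ⟨nat_lit 7, nat_lit 0x40004800600068, nat_lit 0x12110, nat_lit 3, nat_lit 4, nat_lit 0x47⟩ (.nil) (.nil)
def t14_1220 : Tr := .node ⟨nat_lit 7, nat_lit 0x4000100060, nat_lit 0x11321, nat_lit 1, nat_lit 4, nat_lit 0x49⟩ (.nil) (.nil)
def t14_9412 : Tr := .node ⟨nat_lit 7, nat_lit 0x30006000500070, nat_lit 0x1001023, nat_lit 0, nat_lit 4, nat_lit 0x45⟩ (.nil) (.nil)
def t14_5316 : Tr := .node ⟨nat_lit 8, nat_lit 0x1000a000c0, nat_lit 0x11101002, nat_lit 1, nat_lit 4, nat_lit 0x4a⟩ (.nil) (.nil)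
def t14_13508 : Tr := .node ⟨nat_lit 7, nat_lit 0x40002000100010, nat_lit 0x100, nat_lit 3, nat_lit 4, nat_lit 0x47⟩ (.nil) (.nil)
def t14_3268 : Tr := .node ⟨nat_lit 7, nat_lit 0x200020004000440060, nat_lit 0x1020101, nat_lit 1, nat_lit 4, nat_lit 0x47⟩ (.nil) (.nil)
def t14_11460 : Tr := .node ⟨nat_lit 8, nat_lit 0x80002000c000c0, nat_lit 0x111120, nat_lit 2, nat_lit 4, nat_lit 0x49⟩ (.nil) (.nil)
def t14_7364 : Tr := .node ⟨nat_lit 6, nat_lit 0x200020, nat_lit 0x31100, nat_lit 0, nat_lit 4, nat_lit 0x49⟩ (.nil) (.nil)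
def t14_15556 : Tr := .node ⟨nat_lit 9, nat_lit 0x20004000800100, nat_lit 0x110111011, nat_lit 2, nat_lit 4, nat_lit 0x4c⟩ (.nil) (.nil)
def t14_708 : Tr := .node ⟨nat_lit 6, nat_lit 0x2000240030, nat_lit 0x2301, nat_lit 3, nat_lit 4, nat_lit 0x48⟩ (.nil) (.nil)
def t14_8900 : Tr := .node ⟨nat_lit 7, nat_lit 0x40004000480048, nat_lit 0x211021, nat_lit 5, nat_lit 4, nat_lit 0x49⟩ (.nil) (.nil)
def t14_4804 : Tr := .node ⟨nat_lit 5, nat_lit 0x80010001a, nat_lit 0x10220, nat_lit 4, nat_lit 4, nat_lit 0x46⟩ (.nil) (.nil)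
def t14_12996 : Tr := .node ⟨nat_lit 6, nat_lit 0x2000240030, nat_lit 0x1300, nat_lit 5, nat_lit 4, nat_lit 0x48⟩ (.nil) (.nil)
def t14_2756 : Tr := .node ⟨nat_lit 8, nat_lit 0x4000400080008000c4, nat_lit 0x10121100, nat_lit 1, nat_lit 4, nat_lit 0x49⟩ (.nil) (.nil)
def t14_10948 : Tr := .node ⟨nat_lit 8, nat_lit 0x8000800040004000a000c0, nat_lit 0x113012, nat_lit 1, nat_lit 4, nat_lit 0x48⟩ (.nil) (.nil)
def t14_6852 : Tr := .node ⟨nat_lit 7, nat_lit 0x4000440044, nat_lit 0x1111210, nat_lit 0, nat_lit 4, nat_lit 0x4a⟩ (.nil) (.nil)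
def t14_15044 : Tr := .node ⟨nat_lit 8, nat_lit 0x2000800080008800c0, nat_lit 0x1001011, nat_lit 7, nat_lit 4, nat_lit 0x49⟩ (.nil) (.nil)
def t14_1732 : Tr := .node ⟨nat_lit 8, nat_lit 0x800040004000c0, nat_lit 0x110102, nat_lit 1, nat_lit 4, nat_lit 0x49⟩ (.nil) (.nil)
def t14_9924 : Tr := .node ⟨nat_lit 2, nat_lit 2, nat_lit 0, nat_lit 8, nat_lit 4, nat_lit 0x42⟩ (.nil) (.nil)
def t14_5828 : Tr := .node ⟨nat_lit 8, nat_lit 0xc000c0, nat_lit 0x111121, nat_lit 0, nat_lit 4, nat_lit 0x4a⟩ (.nil) (.nil)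
def t14_14020 : Tr := .node ⟨nat_lit 5, nat_lit 0x100018, nat_lit 0x10102, nat_lit 6, nat_lit 4, nat_lit 0x47⟩ (.nil) (.nil)
def t14_3780 : Tr := .node ⟨nat_lit 9, nat_lit 0x100010001000080008000800140, nat_lit 0x1112100, nat_lit 0, nat_lit 4, nat_lit 0x49⟩ (.nil) (.nil)
def t14_11972 : Tr := .node ⟨nat_lit 7, nat_lit 0x10006000600050, nat_lit 0x111220, nat_lit 1, nat_lit 4, nat_lit 0x47⟩ (.nil) (.nil)
def t14_7876 : Tr := .node ⟨nat_lit 7, nat_lit 0x10001000600060, nat_lit 0x2021, nat_lit 0, nat_lit 4, nat_lit 0x46⟩ (.nil) (.nil)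
def t9_196 : Tr := .node ⟨nat_lit 5, nat_lit 0x100008, nat_lit 0x2301, nat_lit 1, nat_lit 4, nat_lit 0x48⟩ (.node ⟨nat_lit 7, nat_lit 0x40004000200060, nat_lit 0x131012, nat_lit 1, nat_lit 4, nat_lit 0x49⟩ (.node ⟨nat_lit 7, nat_lit 0x40002000480060, nat_lit 0x32021, nat_lit 1, nat_lit 4, nat_lit 0x48⟩ (.node ⟨nat_lit 6, nat_lit 0x800080030, nat_lit 0x211103, nat_lit 0, nat_lit 4, nat_lit 0x48⟩ (.node ⟨nat_lit 8, nat_lit 0x2000800080004000c2, nat_lit 0x2002021, nat_lit 1, nat_lit 4, nat_lit 0x49⟩ (t14_196) (t14_8388)) (.node ⟨nat_lit 7, nat_lit 0x40001000680068, nat_lit 0x11021, nat_lit 0, nat_lit 4, nat_lit 0x45⟩ (t14_4292) (t14_12484))) (.node ⟨nat_lit 6, nat_lit 0x200022, nat_lit 0x122010, nat_lit 0, nat_lit 4, nat_lit 0x49⟩ (.node ⟨nat_lit 7, nat_lit 0x40001000600070, nat_lit 0x11123, nat_lit 0, nat_lit 4, nat_lit 0x46⟩ (t14_2244) (t14_10436))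 (.node ⟨nat_lit 7, nat_lit 0x1000400060, nat_lit 0x102012, nat_lit 3, nat_lit 4, nat_lit 0x49⟩ (t14_6340) (t14_14532)))) (.node ⟨nat_lit 5, nat_lit 0x80010, nat_lit 0x11211, nat_lit 3, nat_lit 4, nat_lit 0x48⟩ (.node ⟨nat_lit 6, nat_lit 0x2000100008, nat_lit 0x221111, nat_lit 0, nat_lit 3, nat_lit 0x48⟩ (.node ⟨nat_lit 5, nat_lit 0x10, nat_lit 0x11114, nat_lit 4, nat_lit 4, nat_lit 0x4a⟩ (t14_1220) (t14_9412)) (.node ⟨nat_lit 7, nat_lit 0x3000500060, nat_lit 0x112211, nat_lit 1, nat_lit 4, nat_lit 0x48⟩ (t14_5316) (t14_13508))) (.node ⟨nat_lit 6, nat_lit 0x2000080030, nat_lit 0x111320, nat_lit 0, nat_lit 4, nat_lit 0x48⟩ (.node ⟨nat_lit 6, nat_lit 0x1000200022, nat_lit 0x12000, nat_lit 0, nat_lit 4, nat_lit 0x46⟩ (t14_3268) (t14_11460)) (.node ⟨nat_lit 7, nat_lit 0x100060, nat_lit 0x1111102, nat_lit 0, nat_lit 4, nat_lit 0x4a⟩ (t14_7364) (t14_15556)))))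 (.node ⟨nat_lit 2, nat_lit 0, nat_lit 0x42, nat_lit 8, nat_lit 4, nat_lit 0x47⟩ (.node ⟨nat_lit 5, nat_lit 0x100008, nat_lit 0x1201, nat_lit 3, nat_lit 4, nat_lit 0x47⟩ (.node ⟨nat_lit 6, nat_lit 0x200030, nat_lit 0x22120, nat_lit 0, nat_lit 4, nat_lit 0x49⟩ (.node ⟨nat_lit 5, nat_lit 0x140018, nat_lit 0x13013, nat_lit 2, nat_lit 4, nat_lit 0x48⟩ (t14_708) (t14_8900)) (.node ⟨nat_lit 7, nat_lit 0x400020002000500070, nat_lit 0x1022200, nat_lit 0, nat_lit 4, nat_lit 0x47⟩ (t14_4804) (t14_12996))) (.node ⟨nat_lit 6, nat_lit 0x800080030, nat_lit 0x100101, nat_lit 2, nat_lit 4, nat_lit 0x46⟩ (.node ⟨nat_lit 8, nat_lit 0x2000200040008000c0, nat_lit 0x11010013, nat_lit 1, nat_lit 4, nat_lit 0x49⟩ (t14_2756) (t14_10948)) (.node ⟨nat_lit 6, nat_lit 0x2000080030, nat_lit 0x111002, nat_lit 0, nat_lit 4, nat_lit 0x47⟩ (t14_6852) (t14_15044)))) (.node ⟨nat_lit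 5, nat_lit 0x800100018, nat_lit 0x11122, nat_lit 4, nat_lit 4, nat_lit 0x47⟩ (.node ⟨nat_lit 6, nat_lit 0x1000100020, nat_lit 0x111102, nat_lit 0, nat_lit 4, nat_lit 0x48⟩ (.node ⟨nat_lit 7, nat_lit 0x400060, nat_lit 0x11001, nat_lit 0, nat_lit 4, nat_lit 0x48⟩ (t14_1732) (t14_9924)) (.node ⟨nat_lit 6, nat_lit 0x300028, nat_lit 0x102212, nat_lit 2, nat_lit 4, nat_lit 0x49⟩ (t14_5828) (t14_14020))) (.node ⟨nat_lit 6, nat_lit 0x2000100030, nat_lit 0x12120, nat_lit 2, nat_lit 4, nat_lit 0x48⟩ (.node ⟨nat_lit 7, nat_lit 0x40001000600070, nat_lit 0x10203, nat_lit 0, nat_lit 4, nat_lit 0x46⟩ (t14_3780) (t14_11972)) (.node ⟨nat_lit 8, nat_lit 0x80008000c800c8, nat_lit 0x11110121, nat_lit 0, nat_lit 4, nat_lit 0x49⟩ (t14_7876) (.nil)))))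
def t14_452 : Tr := .node ⟨nat_lit 7, nat_lit 0x10002000500060, nat_lit 0x1110112, nat_lit 1, nat_lit 4, nat_lit 0x48⟩ (.nil) (.nil)
def t14_8644 : Tr := .node ⟨nat_lit 7, nat_lit 0x10004000600064, nat_lit 0x20, nat_lit 1, nat_lit 4, nat_lit 0x45⟩ (.nil) (.nil)
def t14_4548 : Tr := .node ⟨nat_lit 5, nat_lit 0x1000180018, nat_lit 0x1321, nat_lit 7, nat_lit 4, nat_lit 0x47⟩ (.nil) (.nil)
def t14_12740 : Tr := .node ⟨nat_lit 7, nat_lit 0x40001000100060, nat_lit 0x202100, nat_lit 1, nat_lit 4, nat_lit 0x48⟩ (.nil) (.nil)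
def t14_2500 : Tr := .node ⟨nat_lit 7, nat_lit 0x20004000400060, nat_lit 0x22101, nat_lit 1, nat_lit 4, nat_lit 0x48⟩ (.nil) (.nil)
def t14_10692 : Tr := .node ⟨nat_lit 7, nat_lit 0x20002000500068, nat_lit 0x10102, nat_lit 1, nat_lit 4, nat_lit 0x46⟩ (.nil) (.nil)
def t14_6596 : Tr := .node ⟨nat_lit 7, nat_lit 0x10002000400060, nat_lit 0x1000320, nat_lit 0, nat_lit 4, nat_lit 0x48⟩ (.nil) (.nil)
def t14_14788 : Tr := .node ⟨nat_lit 7, nat_lit 0x20004000400060, nat_lit 0x113112, nat_lit 0, nat_lit 4, nat_lit 0x49⟩ (.nil) (.nil)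
def t14_1476 : Tr := .node ⟨nat_lit 8, nat_lit 0x2000400040008000c8, nat_lit 0x10002011, nat_lit 1, nat_lit 4, nat_lit 0x48⟩ (.nil) (.nil)
def t14_9668 : Tr := .node ⟨nat_lit 7, nat_lit 0x40001000600060, nat_lit 0x101022, nat_lit 0, nat_lit 4, nat_lit 0x47⟩ (.nil) (.nil)
def t14_5572 : Tr := .node ⟨nat_lit 6, nat_lit 0x2000200024, nat_lit 0x11202, nat_lit 7, nat_lit 4, nat_lit 0x49⟩ (.nil) (.nil)
def t14_13764 : Tr := .node ⟨nat_lit 7, nat_lit 0x40002000100068, nat_lit 0x12000, nat_lit 2, nat_lit 4, nat_lit 0x47⟩ (.nil) (.nil)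
def t14_3524 : Tr := .node ⟨nat_lit 6, nat_lit 0x3000300028, nat_lit 0x11201, nat_lit 2, nat_lit 4, nat_lit 0x46⟩ (.nil) (.nil)
def t14_11716 : Tr := .node ⟨nat_lit 8, nat_lit 0xa00030003000c0, nat_lit 0x11002101, nat_lit 1, nat_lit 4, nat_lit 0x47⟩ (.nil) (.nil)
def t14_7620 : Tr := .node ⟨nat_lit 7, nat_lit 0x20003000500060, nat_lit 0x10132, nat_lit 0, nat_lit 4, nat_lit 0x46⟩ (.nil) (.nil)
def t14_964 : Tr := .node ⟨nat_lit 4, nat_lit 0xe, nat_lit 0x2003, nat_lit 5, nat_lit 4, nat_lit 0x45⟩ (.nil) (.nil)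
def t14_9156 : Tr := .node ⟨nat_lit 8, nat_lit 0x8000800040009000c000e0, nat_lit 0x112020, nat_lit 2, nat_lit 4, nat_lit 0x47⟩ (.nil) (.nil)
def t14_5060 : Tr := .node ⟨nat_lit 7, nat_lit 0x40001000100060, nat_lit 0x101111, nat_lit 0, nat_lit 4, nat_lit 0x47⟩ (.nil) (.nil)
def t14_13252 : Tr := .node ⟨nat_lit 7, nat_lit 0x10004000600064, nat_lit 0x301, nat_lit 3, nat_lit 4, nat_lit 0x47⟩ (.nil) (.nil)
def t14_3012 : Tr := .node ⟨nat_lit 7, nat_lit 0x10002000400064, nat_lit 0x100131, nat_lit 0, nat_lit 4, nat_lit 0x47⟩ (.nil) (.nil)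
def t14_11204 : Tr := .node ⟨nat_lit 7, nat_lit 0x2000500060, nat_lit 0x11001, nat_lit 1, nat_lit 4, nat_lit 0x47⟩ (.nil) (.nil)
def t14_7108 : Tr := .node ⟨nat_lit 7, nat_lit 0x600060, nat_lit 0x1031111, nat_lit 0, nat_lit 4, nat_lit 0x4a⟩ (.nil) (.nil)
def t14_15300 : Tr := .node ⟨nat_lit 8, nat_lit 0x80003000a000c0, nat_lit 0x1101120, nat_lit 1, nat_lit 4, nat_lit 0x48⟩ (.nil) (.nil)
def t14_1988 : Tr := .node ⟨nat_lit 7, nat_lit 0x10004000400060, nat_lit 0x200102, nat_lit 5, nat_lit 4, nat_lit 0x49⟩ (.nil) (.nil)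
def t14_10180 : Tr := .node ⟨nat_lit 7, nat_lit 0x40005000300068, nat_lit 0x100120, nat_lit 0, nat_lit 4, nat_lit 0x45⟩ (.nil) (.nil)
def t14_6084 : Tr := .node ⟨nat_lit 0xa, nat_lit 0x20001000080, nat_lit 0x11111000, nat_lit 2, nat_lit 4, nat_lit 0x4e⟩ (.nil) (.nil)
def t14_14276 : Tr := .node ⟨nat_lit 7, nat_lit 0x40001000100068, nat_lit 0x102001, nat_lit 2, nat_lit 4, nat_lit 0x47⟩ (.nil) (.nil)
def t14_4036 : Tr := .node ⟨nat_lit 7, nat_lit 0x40003000500060, nat_lit 0x100122, nat_lit 0, nat_lit 4, nat_lit 0x46⟩ (.nil) (.nil)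
def t14_12228 : Tr := .node ⟨nat_lit 8, nat_lit 0x80001000a000c0, nat_lit 0x1111102, nat_lit 0, nat_lit 4, nat_lit 0x49⟩ (.nil) (.nil)
def t14_8132 : Tr := .node ⟨nat_lit 5, nat_lit 0x180018, nat_lit 0x10130, nat_lit 3, nat_lit 4, nat_lit 0x46⟩ (.nil) (.nil)
def t9_452 : Tr := .node ⟨nat_lit 5, nat_lit 0x80010, nat_lit 0x30123, nat_lit 0, nat_lit 4, nat_lit 0x49⟩ (.node ⟨nat_lit 5, nat_lit 0x100014001c, nat_lit 0x31022, nat_lit 4, nat_lit 4, nat_lit 0x47⟩ (.node ⟨nat_lit 7, nat_lit 0x1000400060, nat_lit 0x202002, nat_lit 1, nat_lit 4, nat_lit 0x49⟩ (.node ⟨nat_lit 6, nat_lit 0x800300038, nat_lit 0x1222, nat_lit 0, nat_lit 4, nat_lit 0x45⟩ (.node ⟨nat_lit 7, nat_lit 0x2000500060, nat_lit 0x21210, nat_lit 0, nat_lit 4, nat_lit 0x48⟩ (t14_452) (t14_8644)) (.node ⟨nat_lit 4, nat_lit 0x8000e, nat_lit 0x1222, nat_lit 7, nat_lit 4, nat_lit 0x47⟩ (t14_4548)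 (t14_12740))) (.node ⟨nat_lit 3, nat_lit 6, nat_lit 0x302, nat_lit 6, nat_lit 3, nat_lit 0x45⟩ (.node ⟨nat_lit 5, nat_lit 0x10001c, nat_lit 0x11123, nat_lit 3, nat_lit 4, nat_lit 0x47⟩ (t14_2500) (t14_10692)) (.node ⟨nat_lit 5, nat_lit 0x100010, nat_lit 0x12221, nat_lit 5, nat_lit 3, nat_lit 0x48⟩ (t14_6596) (t14_14788)))) (.node ⟨nat_lit 6, nat_lit 0x200030, nat_lit 0x2100, nat_lit 1, nat_lit 4, nat_lit 0x47⟩ (.node ⟨nat_lit 7, nat_lit 0x40002000480064, nat_lit 0x1212201, nat_lit 0, nat_lit 4, nat_lit 0x49⟩ (.node ⟨nat_lit 7, nat_lit 0x20005000600068, nat_lit 0x11100, nat_lit 0, nat_lit 4, nat_lit 0x45⟩ (t14_1476) (t14_9668)) (.node ⟨nat_lit 8, nat_lit 0x800080004000880090, nat_lit 0x11112010, nat_lit 1, nat_lit 4, nat_lit 0x4a⟩ (t14_5572) (t14_13764))) (.node ⟨nat_lit 6, nat_lit 0x2000080030, nat_lit 0x11321, nat_lit 0, nat_lit 4, nat_lit 0x47⟩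 (.node ⟨nat_lit 6, nat_lit 0x10002000340038, nat_lit 0x100000, nat_lit 3, nat_lit 4, nat_lit 0x44⟩ (t14_3524) (t14_11716)) (.node ⟨nat_lit 5, nat_lit 0x1000100018, nat_lit 0x10301, nat_lit 4, nat_lit 3, nat_lit 0x46⟩ (t14_7620) (.nil))))) (.node ⟨nat_lit 5, nat_lit 0x18, nat_lit 0x30201, nat_lit 0, nat_lit 4, nat_lit 0x48⟩ (.node ⟨nat_lit 6, nat_lit 0x2000200024, nat_lit 0x121020, nat_lit 3, nat_lit 4, nat_lit 0x49⟩ (.node ⟨nat_lit 6, nat_lit 0x1000100020, nat_lit 0x211002, nat_lit 1, nat_lit 4, nat_lit 0x49⟩ (.node ⟨nat_lit 4, nat_lit 0x8000a, nat_lit 0x2230, nat_lit 7, nat_lit 4, nat_lit 0x49⟩ (t14_964) (t14_9156)) (.node ⟨nat_lit 7, nat_lit 0x4000400060, nat_lit 0x22210, nat_lit 3, nat_lit 4, nat_lit 0x4a⟩ (t14_5060) (t14_13252))) (.node ⟨nat_lit 6, nat_lit 0x2000080010, nat_lit 0x11013, nat_lit 1, nat_lit 4, nat_lit 0x48⟩ (.node ⟨nat_lit 6,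 nat_lit 0x1000200038, nat_lit 0x1112, nat_lit 1, nat_lit 4, nat_lit 0x45⟩ (t14_3012) (t14_11204)) (.node ⟨nat_lit 9, nat_lit 0x100008000a00140014001400180, nat_lit 0x110201002, nat_lit 0, nat_lit 4, nat_lit 0x48⟩ (t14_7108) (t14_15300)))) (.node ⟨nat_lit 4, nat_lit 0xc, nat_lit 0x1121, nat_lit 9, nat_lit 4, nat_lit 0x48⟩ (.node ⟨nat_lit 8, nat_lit 0x80002000c0, nat_lit 0x2111011, nat_lit 1, nat_lit 4, nat_lit 0x4b⟩ (.node ⟨nat_lit 5, nat_lit 0x18001c, nat_lit 0x10213, nat_lit 3, nat_lit 4, nat_lit 0x46⟩ (t14_1988) (t14_10180)) (.node ⟨nat_lit 8, nat_lit 0x400080006000a000c8, nat_lit 0x10002002, nat_lit 1, nat_lit 4, nat_lit 0x47⟩ (t14_6084) (t14_14276))) (.node ⟨nat_lit 5, nat_lit 0x1000100008, nat_lit 0x3100, nat_lit 1, nat_lit 3, nat_lit 0x46⟩ (.node ⟨nat_lit 6, nat_lit 0x3000300030, nat_lit 0x101300, nat_lit 0, nat_lit 3, nat_lit 0x45⟩ (t14_4036)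 (t14_12228)) (.node ⟨nat_lit 7, nat_lit 0x40005800680070, nat_lit 0x1111112, nat_lit 1, nat_lit 4, nat_lit 0x46⟩ (t14_8132) (.nil)))))
def t14_36 : Tr := .node ⟨nat_lit 7, nat_lit 0x100060, nat_lit 0x1011101, nat_lit 3, nat_lit 4, nat_lit 0x4a⟩ (.nil) (.nil)
def t14_8228 : Tr := .node ⟨nat_lit 6, nat_lit 0x20001000100028, nat_lit 0x12103, nat_lit 2, nat_lit 4, nat_lit 0x47⟩ (.nil) (.nil)
def t14_4132 : Tr := .node ⟨nat_lit 9, nat_lit 0x10001000100008000400120, nat_lit 0x11110101, nat_lit 1, nat_lit 4, nat_lit 0x4a⟩ (.nil) (.nil)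
def t14_12324 : Tr := .node ⟨nat_lit 8, nat_lit 0x2000c000a000a0, nat_lit 0x21130, nat_lit 0, nat_lit 4, nat_lit 0x48⟩ (.nil) (.nil)
def t14_2084 : Tr := .node ⟨nat_lit 7, nat_lit 0x400040002000200064, nat_lit 0x100132, nat_lit 1, nat_lit 4, nat_lit 0x48⟩ (.nil) (.nil)
def t14_10276 : Tr := .node ⟨nat_lit 9, nat_lit 0x4001000100008001100190, nat_lit 0x100000202, nat_lit 0, nat_lit 4, nat_lit 0x48⟩ (.nil) (.nil)
def t14_6180 : Tr := .node ⟨nat_lit 5, nat_lit 0x100008001a, nat_lit 0x1110, nat_lit 7, nat_lit 4, nat_lit 0x46⟩ (.nil) (.nil)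
def t14_14372 : Tr := .node ⟨nat_lit 7, nat_lit 0x40004800300060, nat_lit 0x1010, nat_lit 0, nat_lit 4, nat_lit 0x45⟩ (.nil) (.nil)
def t14_1060 : Tr := .node ⟨nat_lit 6, nat_lit 0x200022, nat_lit 0x11120, nat_lit 1, nat_lit 4, nat_lit 0x48⟩ (.nil) (.nil)
def t14_9252 : Tr := .node ⟨nat_lit 7, nat_lit 0x400020007000680068, nat_lit 0x21021, nat_lit 4, nat_lit 4, nat_lit 0x45⟩ (.nil) (.nil)
def t14_5156 : Tr := .node ⟨nat_lit 8, nat_lit 0x8000800020002000c0, nat_lit 0x1030101, nat_lit 2, nat_lit 4, nat_lit 0x49⟩ (.nil) (.nil)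
def t14_13348 : Tr := .node ⟨nat_lit 5, nat_lit 0x800100012, nat_lit 0x231, nat_lit 2, nat_lit 4, nat_lit 0x46⟩ (.nil) (.nil)
def t14_3108 : Tr := .node ⟨nat_lit 7, nat_lit 0x20003000500068, nat_lit 0x2001201, nat_lit 0, nat_lit 4, nat_lit 0x46⟩ (.nil) (.nil)
def t14_11300 : Tr := .node ⟨nat_lit 7, nat_lit 0x20005000600060, nat_lit 0x12220, nat_lit 1, nat_lit 4, nat_lit 0x47⟩ (.nil) (.nil)
def t14_7204 : Tr := .node ⟨nat_lit 7, nat_lit 0x20002000500060, nat_lit 0x22110, nat_lit 1, nat_lit 4, nat_lit 0x48⟩ (.nil) (.nil)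
def t14_15396 : Tr := .node ⟨nat_lit 8, nat_lit 0x8000800040, nat_lit 0x1211101, nat_lit 3, nat_lit 4, nat_lit 0x4c⟩ (.nil) (.nil)
def t14_548 : Tr := .node ⟨nat_lit 7, nat_lit 0x40001000500068, nat_lit 0x2022, nat_lit 0, nat_lit 4, nat_lit 0x46⟩ (.nil) (.nil)
def t14_8740 : Tr := .node ⟨nat_lit 7, nat_lit 0x200040004800300060, nat_lit 0x10010, nat_lit 2, nat_lit 4, nat_lit 0x45⟩ (.nil) (.nil)
def t14_4644 : Tr := .node ⟨nat_lit 7, nat_lit 0x2000500060, nat_lit 0x1101012, nat_lit 0, nat_lit 4, nat_lit 0x48⟩ (.nil) (.nil)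
def t14_12836 : Tr := .node ⟨nat_lit 7, nat_lit 0x20005000600060, nat_lit 0x220, nat_lit 3, nat_lit 4, nat_lit 0x46⟩ (.nil) (.nil)
def t14_2596 : Tr := .node ⟨nat_lit 8, nat_lit 0x20008000800040, nat_lit 0x1110210, nat_lit 0, nat_lit 4, nat_lit 0x4a⟩ (.nil) (.nil)
def t14_10788 : Tr := .node ⟨nat_lit 6, nat_lit 0x20002000200010, nat_lit 0x22101, nat_lit 4, nat_lit 3, nat_lit 0x47⟩ (.nil) (.nil)
def t14_6692 : Tr := .node ⟨nat_lit 9, nat_lit 0x10001000080008000400040, nat_lit 0x101010, nat_lit 3, nat_lit 4, nat_lit 0x49⟩ (.nil) (.nil)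
def t14_14884 : Tr := .node ⟨nat_lit 8, nat_lit 0x4000200080, nat_lit 0x10122001, nat_lit 0, nat_lit 3, nat_lit 0x4a⟩ (.nil) (.nil)
def t14_1572 : Tr := .node ⟨nat_lit 6, nat_lit 0x1000280030, nat_lit 0x1204, nat_lit 0, nat_lit 4, nat_lit 0x46⟩ (.nil) (.nil)
def t14_9764 : Tr := .node ⟨nat_lit 8, nat_lit 0x800030003000c0, nat_lit 0x1000201, nat_lit 0, nat_lit 4, nat_lit 0x47⟩ (.nil) (.nil)
def t14_5668 : Tr := .node ⟨nat_lit 6, nat_lit 0x2000200030, nat_lit 0x1002, nat_lit 1, nat_lit 3, nat_lit 0x45⟩ (.nil) (.nil)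
def t14_13860 : Tr := .node ⟨nat_lit 8, nat_lit 0x4000800020002000c0, nat_lit 0x3200, nat_lit 1, nat_lit 4, nat_lit 0x48⟩ (.nil) (.nil)
def t14_3620 : Tr := .node ⟨nat_lit 6, nat_lit 0x800300030, nat_lit 0x102110, nat_lit 1, nat_lit 4, nat_lit 0x47⟩ (.nil) (.nil)
def t14_11812 : Tr := .node ⟨nat_lit 8, nat_lit 0x20001000c0, nat_lit 0x10001003, nat_lit 0, nat_lit 4, nat_lit 0x49⟩ (.nil) (.nil)
def t14_7716 : Tr := .node ⟨nat_lit 4, nat_lit 0x8000e, nat_lit 0x1002, nat_lit 8, nat_lit 4, nat_lit 0x45⟩ (.nil) (.nil)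
def t9_36 : Tr := .node ⟨nat_lit 3, nat_lit 0, nat_lit 0x332, nat_lit 3, nat_lit 4, nat_lit 0x49⟩ (.node ⟨nat_lit 5, nat_lit 0x100018, nat_lit 0x21132, nat_lit 3, nat_lit 4, nat_lit 0x49⟩ (.node ⟨nat_lit 5, nat_lit 0x180018, nat_lit 0x430, nat_lit 1, nat_lit 4, nat_lit 0x46⟩ (.node ⟨nat_lit 4, nat_lit 8, nat_lit 0x2110, nat_lit 4, nat_lit 4, nat_lit 0x47⟩ (.node ⟨nat_lit 7, nat_lit 0x4000600050, nat_lit 0x22013, nat_lit 1, nat_lit 4, nat_lit 0x49⟩ (t14_36) (t14_8228)) (.node ⟨nat_lit 5, nat_lit 0x140018, nat_lit 0x1100, nat_lit 5, nat_lit 4, nat_lit 0x46⟩ (t14_4132) (t14_12324))) (.node ⟨nat_lit 2, nat_lit 0, nat_lit 0x22, nat_lit 0xc, nat_lit 4, nat_lit 0x47⟩ (.node ⟨nat_lit 4, nat_lit 0x8000c, nat_lit 0x224, nat_lit 5, nat_lit 4, nat_lit 0x47⟩ (t14_2084) (t14_10276)) (.node ⟨nat_lit 8, nat_lit 0x800080004000a000d0, nat_lit 0x1021002, nat_lit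 0, nat_lit 4, nat_lit 0x48⟩ (t14_6180) (t14_14372)))) (.node ⟨nat_lit 5, nat_lit 0x800100012, nat_lit 0x20320, nat_lit 2, nat_lit 4, nat_lit 0x47⟩ (.node ⟨nat_lit 5, nat_lit 0x180018, nat_lit 0x21211, nat_lit 5, nat_lit 4, nat_lit 0x48⟩ (.node ⟨nat_lit 6, nat_lit 0x200030, nat_lit 0x111101, nat_lit 1, nat_lit 4, nat_lit 0x48⟩ (t14_1060) (t14_9252)) (.node ⟨nat_lit 6, nat_lit 0x80030, nat_lit 0x112102, nat_lit 1, nat_lit 4, nat_lit 0x49⟩ (t14_5156) (t14_13348))) (.node ⟨nat_lit 3, nat_lit 4, nat_lit 0x230, nat_lit 0xa, nat_lit 4, nat_lit 0x48⟩ (.node ⟨nat_lit 7, nat_lit 0x2000400070, nat_lit 0x1111003, nat_lit 2, nat_lit 4, nat_lit 0x49⟩ (t14_3108) (t14_11300)) (.node ⟨nat_lit 8, nat_lit 0x800020004000a000c0, nat_lit 0x122020, nat_lit 0, nat_lit 4, nat_lit 0x48⟩ (t14_7204) (t14_15396))))) (.node ⟨nat_lit 9, nat_lit 0x10000800040, nat_lit 0x1311000,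 nat_lit 1, nat_lit 4, nat_lit 0x4d⟩ (.node ⟨nat_lit 6, nat_lit 0x100020, nat_lit 0x122111, nat_lit 1, nat_lit 4, nat_lit 0x4a⟩ (.node ⟨nat_lit 6, nat_lit 0x2000300034, nat_lit 0x2010, nat_lit 1, nat_lit 4, nat_lit 0x45⟩ (.node ⟨nat_lit 7, nat_lit 0x400040005800580070, nat_lit 0x201211, nat_lit 1, nat_lit 4, nat_lit 0x45⟩ (t14_548) (t14_8740)) (.node ⟨nat_lit 5, nat_lit 0x100018001c, nat_lit 0x12122, nat_lit 5, nat_lit 4, nat_lit 0x47⟩ (t14_4644) (t14_12836))) (.node ⟨nat_lit 7, nat_lit 0x800600050, nat_lit 0x1100012, nat_lit 0, nat_lit 4, nat_lit 0x47⟩ (.node ⟨nat_lit 6, nat_lit 0x300038, nat_lit 0x112103, nat_lit 1, nat_lit 4, nat_lit 0x48⟩ (t14_2596) (t14_10788)) (.node ⟨nat_lit 7, nat_lit 0x5000500060, nat_lit 0x112201, nat_lit 1, nat_lit 4, nat_lit 0x48⟩ (t14_6692) (t14_14884)))) (.node ⟨nat_lit 5, nat_lit 0x80010, nat_lit 0x12112, nat_lit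 5, nat_lit 4, nat_lit 0x49⟩ (.node ⟨nat_lit 7, nat_lit 0x20004000440060, nat_lit 0x220001, nat_lit 1, nat_lit 4, nat_lit 0x48⟩ (.node ⟨nat_lit 5, nat_lit 0x100018, nat_lit 0x1123, nat_lit 3, nat_lit 4, nat_lit 0x47⟩ (t14_1572) (t14_9764)) (.node ⟨nat_lit 7, nat_lit 0x40001000680068, nat_lit 0x1012021, nat_lit 1, nat_lit 4, nat_lit 0x47⟩ (t14_5668) (t14_13860))) (.node ⟨nat_lit 6, nat_lit 0x80030, nat_lit 0x200012, nat_lit 0, nat_lit 4, nat_lit 0x47⟩ (.node ⟨nat_lit 6, nat_lit 0x30000c, nat_lit 0x201000, nat_lit 2, nat_lit 4, nat_lit 0x47⟩ (t14_3620) (t14_11812)) (.node ⟨nat_lit 7, nat_lit 0x200040003000480068, nat_lit 0x1112010, nat_lit 1, nat_lit 4, nat_lit 0x47⟩ (t14_7716) (.nil)))))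
def t14_292 : Tr := .node ⟨nat_lit 7, nat_lit 0x1000600050, nat_lit 0x12121, nat_lit 0, nat_lit 4, nat_lit 0x48⟩ (.nil) (.nil)
def t14_8484 : Tr := .node ⟨nat_lit 8, nat_lit 0x2000800040008800c0, nat_lit 0x2031, nat_lit 2, nat_lit 4, nat_lit 0x48⟩ (.nil) (.nil)
def t14_4388 : Tr := .node ⟨nat_lit 7, nat_lit 0x40001000200060, nat_lit 0x1102001, nat_lit 1, nat_lit 4, nat_lit 0x48⟩ (.nil) (.nil)
def t14_12580 : Tr := .node ⟨nat_lit 8, nat_lit 0x2000c0003000e0, nat_lit 0x10001003, nat_lit 1, nat_lit 4, nat_lit 0x47⟩ (.nil) (.nil)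
def t14_2340 : Tr := .node ⟨nat_lit 6, nat_lit 0x2000080010, nat_lit 0x20030, nat_lit 2, nat_lit 4, nat_lit 0x48⟩ (.nil) (.nil)
def t14_10532 : Tr := .node ⟨nat_lit 7, nat_lit 0x10004000500060, nat_lit 0x2020, nat_lit 0, nat_lit 4, nat_lit 0x46⟩ (.nil) (.nil)
def t14_6436 : Tr := .node ⟨nat_lit 7, nat_lit 0x4000200010, nat_lit 0x111011, nat_lit 4, nat_lit 4, nat_lit 0x4a⟩ (.nil) (.nil)
def t14_14628 : Tr := .node ⟨nat_lit 9, nat_lit 0x1000100011001100180, nat_lit 0x11111111, nat_lit 0, nat_lit 4, nat_lit 0x4a⟩ (.nil) (.nil)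
def t14_1316 : Tr := .node ⟨nat_lit 8, nat_lit 0x200080001000c0, nat_lit 0x1010112, nat_lit 1, nat_lit 4, nat_lit 0x49⟩ (.nil) (.nil)
def t14_9508 : Tr := .node ⟨nat_lit 5, nat_lit 0x10001000180014, nat_lit 0x11120, nat_lit 9, nat_lit 4, nat_lit 0x47⟩ (.nil) (.nil)
def t14_5412 : Tr := .node ⟨nat_lit 6, nat_lit 0x200030, nat_lit 0x11122, nat_lit 5, nat_lit 4, nat_lit 0x49⟩ (.nil) (.nil)
def t14_13604 : Tr := .node ⟨nat_lit 7, nat_lit 0x10004000440060, nat_lit 2, nat_lit 3, nat_lit 4, nat_lit 0x46⟩ (.nil) (.nil)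
def t14_3364 : Tr := .node ⟨nat_lit 7, nat_lit 0x40004000600050, nat_lit 0x12121, nat_lit 2, nat_lit 4, nat_lit 0x48⟩ (.nil) (.nil)
def t14_11556 : Tr := .node ⟨nat_lit 7, nat_lit 0x20005000500060, nat_lit 0x111102, nat_lit 1, nat_lit 4, nat_lit 0x47⟩ (.nil) (.nil)
def t14_7460 : Tr := .node ⟨nat_lit 7, nat_lit 0x100060, nat_lit 0x1001101, nat_lit 5, nat_lit 4, nat_lit 0x4a⟩ (.nil) (.nil)
def t14_804 : Tr := .node ⟨nat_lit 7, nat_lit 0x200020004000400064, nat_lit 0x1030111, nat_lit 3, nat_lit 4, nat_lit 0x48⟩ (.nil) (.nil)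
def t14_8996 : Tr := .node ⟨nat_lit 8, nat_lit 0x800080004000a0009000c0, nat_lit 0x112002, nat_lit 1, nat_lit 4, nat_lit 0x47⟩ (.nil) (.nil)
def t14_4900 : Tr := .node ⟨nat_lit 8, nat_lit 0xc000c0, nat_lit 0x11111111, nat_lit 0, nat_lit 4, nat_lit 0x4b⟩ (.nil) (.nil)
def t14_13092 : Tr := .node ⟨nat_lit 7, nat_lit 0x200020004000440064, nat_lit 0x20202, nat_lit 0, nat_lit 4, nat_lit 0x46⟩ (.nil) (.nil)
def t14_2852 : Tr := .node ⟨nat_lit 8, nat_lit 0x40001000a000c0, nat_lit 0x110020, nat_lit 1, nat_lit 4, nat_lit 0x48⟩ (.nil) (.nil)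
def t14_11044 : Tr := .node ⟨nat_lit 5, nat_lit 0x180018, nat_lit 0x21120, nat_lit 6, nat_lit 4, nat_lit 0x48⟩ (.nil) (.nil)
def t14_6948 : Tr := .node ⟨nat_lit 7, nat_lit 0x10001000500060, nat_lit 0x1201121, nat_lit 0, nat_lit 4, nat_lit 0x48⟩ (.nil) (.nil)
def t14_15140 : Tr := .node ⟨nat_lit 8, nat_lit 0x8000400090006000d0, nat_lit 0x10012101, nat_lit 0, nat_lit 4, nat_lit 0x47⟩ (.nil) (.nil)
def t14_1828 : Tr := .node ⟨nat_lit 6, nat_lit 0x300028, nat_lit 0x102202, nat_lit 3, nat_lit 4, nat_lit 0x49⟩ (.nil) (.nil)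
def t14_10020 : Tr := .node ⟨nat_lit 7, nat_lit 0x40002000200020, nat_lit 0x110220, nat_lit 0, nat_lit 3, nat_lit 0x48⟩ (.nil) (.nil)
def t14_5924 : Tr := .node ⟨nat_lit 7, nat_lit 0x4000600070, nat_lit 0x11103, nat_lit 1, nat_lit 4, nat_lit 0x47⟩ (.nil) (.nil)
def t14_14116 : Tr := .node ⟨nat_lit 7, nat_lit 0x40001000600068, nat_lit 0x1110, nat_lit 0, nat_lit 4, nat_lit 0x45⟩ (.nil) (.nil)
def t14_3876 : Tr := .node ⟨nat_lit 7, nat_lit 0x40004000100060, nat_lit 0x112001, nat_lit 5, nat_lit 4, nat_lit 0x49⟩ (.nil) (.nil)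
def t14_12068 : Tr := .node ⟨nat_lit 7, nat_lit 0x400040006800700070, nat_lit 0x1001021, nat_lit 5, nat_lit 4, nat_lit 0x46⟩ (.nil) (.nil)
def t14_7972 : Tr := .node ⟨nat_lit 7, nat_lit 0x40004000480048, nat_lit 0x111221, nat_lit 3, nat_lit 4, nat_lit 0x49⟩ (.nil) (.nil)
def t9_292 : Tr := .node ⟨nat_lit 6, nat_lit 0x300030, nat_lit 0x3321, nat_lit 0, nat_lit 4, nat_lit 0x48⟩ (.node ⟨nat_lit 5, nat_lit 0x100008, nat_lit 0x3222, nat_lit 1, nat_lit 4, nat_lit 0x49⟩ (.node ⟨nat_lit 8, nat_lit 0x800080, nat_lit 0x3111110, nat_lit 0, nat_lit 4, nat_lit 0x4d⟩ (.node ⟨nat_lit 6, nat_lit 0x1000200022, nat_lit 0x101013, nat_lit 0, nat_lit 4, nat_lit 0x47⟩ (.node ⟨nat_lit 7, nat_lit 0x400040002000200050, nat_lit 0x1202210, nat_lit 0, nat_lit 4, nat_lit 0x49⟩ (t14_292) (t14_8484)) (.node ⟨nat_lit 6, nat_lit 0x10001000200020, nat_lit 0x110011, nat_lit 0, nat_lit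 3, nat_lit 0x46⟩ (t14_4388) (t14_12580))) (.node ⟨nat_lit 6, nat_lit 0x20001000280030, nat_lit 0x202122, nat_lit 2, nat_lit 4, nat_lit 0x48⟩ (.node ⟨nat_lit 8, nat_lit 0x40008000800090006000c0, nat_lit 0x1212003, nat_lit 0, nat_lit 4, nat_lit 0x48⟩ (t14_2340) (t14_10532)) (.node ⟨nat_lit 7, nat_lit 0x5000500060, nat_lit 0x112102, nat_lit 1, nat_lit 4, nat_lit 0x48⟩ (t14_6436) (t14_14628)))) (.node ⟨nat_lit 5, nat_lit 0x100018, nat_lit 0x11111, nat_lit 2, nat_lit 3, nat_lit 0x46⟩ (.node ⟨nat_lit 6, nat_lit 0x1000280034, nat_lit 0x122221, nat_lit 0, nat_lit 4, nat_lit 0x48⟩ (.node ⟨nat_lit 5, nat_lit 0x1000100010, nat_lit 0x1100, nat_lit 3, nat_lit 3, nat_lit 0x45⟩ (t14_1316) (t14_9508)) (.node ⟨nat_lit 7, nat_lit 0x20005000680068, nat_lit 0x110220, nat_lit 0, nat_lit 4, nat_lit 0x45⟩ (t14_5412) (t14_13604))) (.node ⟨nat_lit 6, nat_lit 0x200010,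 nat_lit 0x12120, nat_lit 2, nat_lit 4, nat_lit 0x49⟩ (.node ⟨nat_lit 7, nat_lit 0x200040003000480070, nat_lit 0x1213010, nat_lit 0, nat_lit 4, nat_lit 0x48⟩ (t14_3364) (t14_11556)) (.node ⟨nat_lit 6, nat_lit 0x2000080030, nat_lit 0x111102, nat_lit 7, nat_lit 4, nat_lit 0x49⟩ (t14_7460) (.nil))))) (.node ⟨nat_lit 6, nat_lit 0x200030, nat_lit 0x13210, nat_lit 0, nat_lit 4, nat_lit 0x49⟩ (.node ⟨nat_lit 4, nat_lit 0, nat_lit 0x2110, nat_lit 0, nat_lit 4, nat_lit 0x46⟩ (.node ⟨nat_lit 4, nat_lit 0xc, nat_lit 0x1010, nat_lit 3, nat_lit 4, nat_lit 0x44⟩ (.node ⟨nat_lit 6, nat_lit 0x800200010, nat_lit 0x122310, nat_lit 0, nat_lit 4, nat_lit 0x4a⟩ (t14_804) (t14_8996)) (.node ⟨nat_lit 6, nat_lit 0x200030, nat_lit 0x112102, nat_lit 5, nat_lit 4, nat_lit 0x4a⟩ (t14_4900) (t14_13092))) (.node ⟨nat_lit 7, nat_lit 0x10004000200060, nat_lit 0x100012, nat_lit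 4, nat_lit 4, nat_lit 0x48⟩ (.node ⟨nat_lit 7, nat_lit 0x20006000500068, nat_lit 0x121131, nat_lit 0, nat_lit 4, nat_lit 0x47⟩ (t14_2852) (t14_11044)) (.node ⟨nat_lit 7, nat_lit 0x20005000680070, nat_lit 0x112202, nat_lit 0, nat_lit 4, nat_lit 0x46⟩ (t14_6948) (t14_15140)))) (.node ⟨nat_lit 5, nat_lit 0x100010, nat_lit 0x11121, nat_lit 6, nat_lit 4, nat_lit 0x49⟩ (.node ⟨nat_lit 5, nat_lit 0x100010, nat_lit 0x22122, nat_lit 1, nat_lit 3, nat_lit 0x48⟩ (.node ⟨nat_lit 7, nat_lit 0x10004000400060, nat_lit 0x100113, nat_lit 2, nat_lit 4, nat_lit 0x48⟩ (t14_1828) (t14_10020)) (.node ⟨nat_lit 7, nat_lit 0x40004000100060, nat_lit 0x211002, nat_lit 3, nat_lit 4, nat_lit 0x49⟩ (t14_5924) (t14_14116))) (.node ⟨nat_lit 7, nat_lit 0x10002000500060, nat_lit 0x103201, nat_lit 0, nat_lit 4, nat_lit 0x47⟩ (.node ⟨nat_lit 7, nat_lit 0x200040003000480070, nat_lit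 0x1102003, nat_lit 0, nat_lit 4, nat_lit 0x46⟩ (t14_3876) (t14_12068)) (.node ⟨nat_lit 6, nat_lit 0x1000280030, nat_lit 0x110120, nat_lit 0, nat_lit 4, nat_lit 0x46⟩ (t14_7972) (.nil)))))
def t14_164 : Tr := .node ⟨nat_lit 7, nat_lit 0x40001000600068, nat_lit 0x1012012, nat_lit 0, nat_lit 4, nat_lit 0x47⟩ (.nil) (.nil)
def t14_8356 : Tr := .node ⟨nat_lit 8, nat_lit 0x800020008800c0, nat_lit 0x112030, nat_lit 0, nat_lit 4, nat_lit 0x49⟩ (.nil) (.nil)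
def t14_4260 : Tr := .node ⟨nat_lit 8, nat_lit 0x8000400040009000d0, nat_lit 0x20202100, nat_lit 0, nat_lit 4, nat_lit 0x49⟩ (.nil) (.nil)
def t14_12452 : Tr := .node ⟨nat_lit 6, nat_lit 0x200020, nat_lit 0x20041, nat_lit 0, nat_lit 3, nat_lit 0x48⟩ (.nil) (.nil)
def t14_2212 : Tr := .node ⟨nat_lit 8, nat_lit 0x800080002000c0, nat_lit 0x112200, nat_lit 2, nat_lit 4, nat_lit 0x4a⟩ (.nil) (.nil)
def t14_10404 : Tr := .node ⟨nat_lit 7, nat_lit 0x4800500060, nat_lit 0x110022, nat_lit 4, nat_lit 4, nat_lit 0x48⟩ (.nil) (.nil)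
def t14_6308 : Tr := .node ⟨nat_lit 3, nat_lit 0x40004, nat_lit 0x31, nat_lit 0xa, nat_lit 4, nat_lit 0x46⟩ (.nil) (.nil)
def t14_14500 : Tr := .node ⟨nat_lit 9, nat_lit 0x1000080004000400180, nat_lit 0x110102, nat_lit 0, nat_lit 4, nat_lit 0x49⟩ (.nil) (.nil)
def t14_1188 : Tr := .node ⟨nat_lit 6, nat_lit 0x30, nat_lit 0x110001, nat_lit 1, nat_lit 4, nat_lit 0x48⟩ (.nil) (.nil)
def t14_9380 : Tr := .node ⟨nat_lit 8, nat_lit 0x2000800080004000c0, nat_lit 0x1002112, nat_lit 1, nat_lit 4, nat_lit 0x49⟩ (.nil) (.nil)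
def t14_5284 : Tr := .node ⟨nat_lit 6, nat_lit 0x280030, nat_lit 0x112102, nat_lit 2, nat_lit 4, nat_lit 0x49⟩ (.nil) (.nil)
def t14_13476 : Tr := .node ⟨nat_lit 7, nat_lit 0x500060, nat_lit 0x1130, nat_lit 1, nat_lit 4, nat_lit 0x48⟩ (.nil) (.nil)
def t14_3236 : Tr := .node ⟨nat_lit 7, nat_lit 0x10001000500060, nat_lit 0x201121, nat_lit 0, nat_lit 4, nat_lit 0x47⟩ (.nil) (.nil)
def t14_11428 : Tr := .node ⟨nat_lit 7, nat_lit 0x20004000400064, nat_lit 0x110010, nat_lit 1, nat_lit 4, nat_lit 0x47⟩ (.nil) (.nil)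
def t14_7332 : Tr := .node ⟨nat_lit 7, nat_lit 0x4000200060, nat_lit 0x1111002, nat_lit 0, nat_lit 3, nat_lit 0x48⟩ (.nil) (.nil)
def t14_15524 : Tr := .node ⟨nat_lit 8, nat_lit 0x8000400020002000c0, nat_lit 0x10120111, nat_lit 0, nat_lit 4, nat_lit 0x49⟩ (.nil) (.nil)
def t14_676 : Tr := .node ⟨nat_lit 6, nat_lit 0x800200030, nat_lit 0x110310, nat_lit 1, nat_lit 4, nat_lit 0x47⟩ (.nil) (.nil)
def t14_8868 : Tr := .node ⟨nat_lit 6, nat_lit 0x20001000280028, nat_lit 0x11141, nat_lit 2, nat_lit 4, nat_lit 0x47⟩ (.nil) (.nil)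
def t14_4772 : Tr := .node ⟨nat_lit 6, nat_lit 0x2800180030, nat_lit 0x1122, nat_lit 4, nat_lit 4, nat_lit 0x46⟩ (.nil) (.nil)
def t14_12964 : Tr := .node ⟨nat_lit 4, nat_lit 0x8000e, nat_lit 0x31, nat_lit 9, nat_lit 4, nat_lit 0x46⟩ (.nil) (.nil)
def t14_2724 : Tr := .node ⟨nat_lit 7, nat_lit 0x10006000600050, nat_lit 0x12201, nat_lit 3, nat_lit 4, nat_lit 0x47⟩ (.nil) (.nil)
def t14_10916 : Tr := .node ⟨nat_lit 7, nat_lit 0x20005000300060, nat_lit 0x13020, nat_lit 0, nat_lit 4, nat_lit 0x47⟩ (.nil) (.nil)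
def t14_6820 : Tr := .node ⟨nat_lit 8, nat_lit 0x8000c000c0, nat_lit 0x111110, nat_lit 0, nat_lit 4, nat_lit 0x49⟩ (.nil) (.nil)
def t14_15012 : Tr := .node ⟨nat_lit 9, nat_lit 0x1000100011001100180, nat_lit 0x11110111, nat_lit 0, nat_lit 4, nat_lit 0x4a⟩ (.nil) (.nil)
def t14_1700 : Tr := .node ⟨nat_lit 7, nat_lit 0x4000600060, nat_lit 0x110022, nat_lit 0, nat_lit 4, nat_lit 0x48⟩ (.nil) (.nil)
def t14_9892 : Tr := .node ⟨nat_lit 5, nat_lit 0x1800180018, nat_lit 0x220, nat_lit 0xc, nat_lit 4, nat_lit 0x46⟩ (.nil) (.nil)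
def t14_5796 : Tr := .node ⟨nat_lit 5, nat_lit 0x100018, nat_lit 0x1121, nat_lit 9, nat_lit 4, nat_lit 0x48⟩ (.nil) (.nil)
def t14_13988 : Tr := .node ⟨nat_lit 7, nat_lit 0x4000440030, nat_lit 0x1112, nat_lit 2, nat_lit 4, nat_lit 0x47⟩ (.nil) (.nil)
def t14_3748 : Tr := .node ⟨nat_lit 7, nat_lit 0x400040007000700068, nat_lit 0x12200, nat_lit 1, nat_lit 4, nat_lit 0x45⟩ (.nil) (.nil)
def t14_11940 : Tr := .node ⟨nat_lit 6, nat_lit 0x2000080030, nat_lit 0x10032, nat_lit 2, nat_lit 4, nat_lit 0x47⟩ (.nil) (.nil)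
def t14_7844 : Tr := .node ⟨nat_lit 7, nat_lit 0x400020002000500050, nat_lit 0x11021, nat_lit 1, nat_lit 4, nat_lit 0x46⟩ (.nil) (.nil)
def t9_164 : Tr := .node ⟨nat_lit 3, nat_lit 4, nat_lit 0x232, nat_lit 9, nat_lit 4, nat_lit 0x48⟩ (.node ⟨nat_lit 6, nat_lit 0x1000200030, nat_lit 0x13112, nat_lit 1, nat_lit 4, nat_lit 0x48⟩ (.node ⟨nat_lit 5, nat_lit 0x18, nat_lit 0x10402, nat_lit 0, nat_lit 4, nat_lit 0x48⟩ (.node ⟨nat_lit 5, nat_lit 0x100008, nat_lit 0x1200, nat_lit 2, nat_lit 4, nat_lit 0x46⟩ (.node ⟨nat_lit 6, nat_lit 0x20002000200010, nat_lit 0x22113, nat_lit 2, nat_lit 4, nat_lit 0x49⟩ (t14_164) (t14_8356)) (.node ⟨nat_lit 4, nat_lit 0x8000c, nat_lit 0x1002, nat_lit 6, nat_lit 4, nat_lit 0x45⟩ (t14_4260) (t14_12452))) (.node ⟨nat_lit 4, nat_lit 8, nat_lit 0x2213, nat_lit 8, nat_lit 4, nat_lit 0x4a⟩ (.node ⟨nat_lit 7, nat_lit 0x20006000600050,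 nat_lit 0x20204, nat_lit 0, nat_lit 4, nat_lit 0x47⟩ (t14_2212) (t14_10404)) (.node ⟨nat_lit 5, nat_lit 0x100018, nat_lit 0x1322, nat_lit 4, nat_lit 4, nat_lit 0x48⟩ (t14_6308) (t14_14500)))) (.node ⟨nat_lit 4, nat_lit 8, nat_lit 0x2111, nat_lit 3, nat_lit 4, nat_lit 0x47⟩ (.node ⟨nat_lit 6, nat_lit 0x1000280030, nat_lit 0x211121, nat_lit 1, nat_lit 4, nat_lit 0x48⟩ (.node ⟨nat_lit 6, nat_lit 0x2000080030, nat_lit 0x11140, nat_lit 1, nat_lit 4, nat_lit 0x48⟩ (t14_1188) (t14_9380)) (.node ⟨nat_lit 7, nat_lit 0x1000400060, nat_lit 0x1002021, nat_lit 5, nat_lit 4, nat_lit 0x4a⟩ (t14_5284) (t14_13476))) (.node ⟨nat_lit 6, nat_lit 0x280030, nat_lit 0x112102, nat_lit 0, nat_lit 3, nat_lit 0x47⟩ (.node ⟨nat_lit 7, nat_lit 0x40001000100060, nat_lit 0x1013210, nat_lit 0, nat_lit 4, nat_lit 0x49⟩ (t14_3236) (t14_11428)) (.node ⟨nat_lit 6, nat_lit 0x2000280034,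 nat_lit 0x111112, nat_lit 2, nat_lit 4, nat_lit 0x47⟩ (t14_7332) (t14_15524))))) (.node ⟨nat_lit 6, nat_lit 0x800200030, nat_lit 0x130013, nat_lit 0, nat_lit 4, nat_lit 0x49⟩ (.node ⟨nat_lit 5, nat_lit 0x18, nat_lit 0x11211, nat_lit 0, nat_lit 4, nat_lit 0x47⟩ (.node ⟨nat_lit 6, nat_lit 0x2000100030, nat_lit 0x102101, nat_lit 0, nat_lit 3, nat_lit 0x46⟩ (.node ⟨nat_lit 5, nat_lit 0x100008, nat_lit 0x1402, nat_lit 2, nat_lit 4, nat_lit 0x49⟩ (t14_676) (t14_8868)) (.node ⟨nat_lit 7, nat_lit 0x20004000500064, nat_lit 0x1112201, nat_lit 0, nat_lit 4, nat_lit 0x48⟩ (t14_4772) (t14_12964))) (.node ⟨nat_lit 7, nat_lit 0x40002000100064, nat_lit 0x101100, nat_lit 0, nat_lit 4, nat_lit 0x46⟩ (.node ⟨nat_lit 5, nat_lit 0x100018, nat_lit 0x12230, nat_lit 1, nat_lit 3, nat_lit 0x47⟩ (t14_2724) (t14_10916)) (.node ⟨nat_lit 7, nat_lit 0x1000600060, nat_lit 0x1111122,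 nat_lit 0, nat_lit 4, nat_lit 0x49⟩ (t14_6820) (t14_15012)))) (.node ⟨nat_lit 4, nat_lit 0x80008, nat_lit 0x1132, nat_lit 5, nat_lit 4, nat_lit 0x48⟩ (.node ⟨nat_lit 7, nat_lit 0x60, nat_lit 0x2011111, nat_lit 0, nat_lit 4, nat_lit 0x4b⟩ (.node ⟨nat_lit 6, nat_lit 0x240038, nat_lit 0x11013, nat_lit 2, nat_lit 4, nat_lit 0x46⟩ (t14_1700) (t14_9892)) (.node ⟨nat_lit 7, nat_lit 0x20004000400060, nat_lit 0x122210, nat_lit 0, nat_lit 4, nat_lit 0x49⟩ (t14_5796) (t14_13988))) (.node ⟨nat_lit 7, nat_lit 0x20004000600060, nat_lit 0x2210, nat_lit 0, nat_lit 4, nat_lit 0x47⟩ (.node ⟨nat_lit 5, nat_lit 0x140018, nat_lit 0x10004, nat_lit 4, nat_lit 4, nat_lit 0x46⟩ (t14_3748) (t14_11940)) (.node ⟨nat_lit 6, nat_lit 0x800280030, nat_lit 0x100021, nat_lit 3, nat_lit 4, nat_lit 0x46⟩ (t14_7844) (.nil)))))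
def t14_420 : Tr := .node ⟨nat_lit 6, nat_lit 0x10002000200020, nat_lit 0x111211, nat_lit 4, nat_lit 4, nat_lit 0x49⟩ (.nil) (.nil)
def t14_8612 : Tr := .node ⟨nat_lit 6, nat_lit 0x20001000380034, nat_lit 0x2200, nat_lit 3, nat_lit 4, nat_lit 0x45⟩ (.nil) (.nil)
def t14_4516 : Tr := .node ⟨nat_lit 8, nat_lit 0x800080004000880090, nat_lit 0x11111010, nat_lit 4, nat_lit 4, nat_lit 0x4a⟩ (.nil) (.nil)
def t14_12708 : Tr := .node ⟨nat_lit 5, nat_lit 0x100018, nat_lit 0x10130, nat_lit 5, nat_lit 4, nat_lit 0x48⟩ (.nil) (.nil)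
def t14_2468 : Tr := .node ⟨nat_lit 6, nat_lit 0x3000300030, nat_lit 0x2221, nat_lit 2, nat_lit 4, nat_lit 0x46⟩ (.nil) (.nil)
def t14_10660 : Tr := .node ⟨nat_lit 7, nat_lit 0x20006000500068, nat_lit 0x10210, nat_lit 0, nat_lit 4, nat_lit 0x45⟩ (.nil) (.nil)
def t14_6564 : Tr := .node ⟨nat_lit 8, nat_lit 0x8000400020009000c0, nat_lit 0x10101101, nat_lit 1, nat_lit 4, nat_lit 0x48⟩ (.nil) (.nil)
def t14_14756 : Tr := .node ⟨nat_lit 8, nat_lit 0x2000800088006000c0, nat_lit 0x10001012, nat_lit 0, nat_lit 4, nat_lit 0x47⟩ (.nil) (.nil)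
def t14_1444 : Tr := .node ⟨nat_lit 8, nat_lit 0x800080004000880090, nat_lit 0x1121111, nat_lit 0, nat_lit 4, nat_lit 0x49⟩ (.nil) (.nil)
def t14_9636 : Tr := .node ⟨nat_lit 6, nat_lit 0x20002000100030, nat_lit 0x2212, nat_lit 2, nat_lit 4, nat_lit 0x47⟩ (.nil) (.nil)
def t14_5540 : Tr := .node ⟨nat_lit 5, nat_lit 0x100018, nat_lit 0x123, nat_lit 2, nat_lit 4, nat_lit 0x46⟩ (.nil) (.nil)
def t14_13732 : Tr := .node ⟨nat_lit 6, nat_lit 0x2000240018, nat_lit 0x20, nat_lit 0, nat_lit 4, nat_lit 0x44⟩ (.nil) (.nil)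
def t14_3492 : Tr := .node ⟨nat_lit 7, nat_lit 0x400050006000600070, nat_lit 0x201, nat_lit 3, nat_lit 4, nat_lit 0x45⟩ (.nil) (.nil)
def t14_11684 : Tr := .node ⟨nat_lit 8, nat_lit 0x8000c000d000d000d0, nat_lit 0x10101210, nat_lit 1, nat_lit 4, nat_lit 0x46⟩ (.nil) (.nil)
def t14_7588 : Tr := .node ⟨nat_lit 6, nat_lit 0x20001000100030, nat_lit 0x2113, nat_lit 4, nat_lit 4, nat_lit 0x47⟩ (.nil) (.nil)
def t14_932 : Tr := .node ⟨nat_lit 7, nat_lit 0x40004000100060, nat_lit 0x112211, nat_lit 2, nat_lit 4, nat_lit 0x49⟩ (.nil) (.nil)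
def t14_9124 : Tr := .node ⟨nat_lit 9, nat_lit 0x100010000800080012001400180, nat_lit 0x1120101, nat_lit 1, nat_lit 4, nat_lit 0x48⟩ (.nil) (.nil)
def t14_5028 : Tr := .node ⟨nat_lit 8, nat_lit 0x1000c000a000a0, nat_lit 0x1100131, nat_lit 0, nat_lit 4, nat_lit 0x48⟩ (.nil) (.nil)
def t14_13220 : Tr := .node ⟨nat_lit 7, nat_lit 0x10004000180060, nat_lit 0x2000, nat_lit 1, nat_lit 4, nat_lit 0x46⟩ (.nil) (.nil)
def t14_2980 : Tr := .node ⟨nat_lit 7, nat_lit 0x4000600060, nat_lit 0x21022, nat_lit 0, nat_lit 4, nat_lit 0x48⟩ (.nil) (.nil)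
def t14_11172 : Tr := .node ⟨nat_lit 6, nat_lit 0x2000300038, nat_lit 0x101002, nat_lit 3, nat_lit 4, nat_lit 0x46⟩ (.nil) (.nil)
def t14_7076 : Tr := .node ⟨nat_lit 7, nat_lit 0x20004000600060, nat_lit 0x1012111, nat_lit 1, nat_lit 4, nat_lit 0x48⟩ (.nil) (.nil)
def t14_15268 : Tr := .node ⟨nat_lit 7, nat_lit 0x3000600050, nat_lit 0x1011112, nat_lit 2, nat_lit 4, nat_lit 0x48⟩ (.nil) (.nil)
def t14_1956 : Tr := .node ⟨nat_lit 7, nat_lit 0x1000100060, nat_lit 0x2000002, nat_lit 0, nat_lit 4, nat_lit 0x48⟩ (.nil) (.nil)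
def t14_10148 : Tr := .node ⟨nat_lit 7, nat_lit 0x40004000100060, nat_lit 0x2020, nat_lit 1, nat_lit 4, nat_lit 0x47⟩ (.nil) (.nil)
def t14_6052 : Tr := .node ⟨nat_lit 8, nat_lit 0x80008000c0, nat_lit 0x1211111, nat_lit 0, nat_lit 4, nat_lit 0x4b⟩ (.nil) (.nil)
def t14_14244 : Tr := .node ⟨nat_lit 7, nat_lit 0x40003000500060, nat_lit 0x101101, nat_lit 1, nat_lit 4, nat_lit 0x46⟩ (.nil) (.nil)
def t14_4004 : Tr := .node ⟨nat_lit 7, nat_lit 0x1000600018, nat_lit 0x10120, nat_lit 1, nat_lit 4, nat_lit 0x47⟩ (.nil) (.nil)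
def t14_12196 : Tr := .node ⟨nat_lit 6, nat_lit 0x800280030, nat_lit 0x111220, nat_lit 2, nat_lit 4, nat_lit 0x48⟩ (.nil) (.nil)
def t14_8100 : Tr := .node ⟨nat_lit 7, nat_lit 0x20004000400044, nat_lit 0x10103, nat_lit 3, nat_lit 4, nat_lit 0x48⟩ (.nil) (.nil)
def t9_420 : Tr := .node ⟨nat_lit 6, nat_lit 0x80030, nat_lit 0x211312, nat_lit 0, nat_lit 4, nat_lit 0x4a⟩ (.node ⟨nat_lit 5, nat_lit 0x180018, nat_lit 0x11321, nat_lit 3, nat_lit 4, nat_lit 0x48⟩ (.node ⟨nat_lit 5, nat_lit 0x10, nat_lit 0x2211, nat_lit 0, nat_lit 4, nat_lit 0x48⟩ (.node ⟨nat_lit 5, nat_lit 0x18, nat_lit 0x11002, nat_lit 0, nat_lit 4, nat_lit 0x46⟩ (.node ⟨nat_lit 6, nat_lit 0x800300030, nat_lit 0x2120, nat_lit 3, nat_lit 4, nat_lit 0x47⟩ (t14_420) (t14_8612)) (.node ⟨nat_lit 5, nat_lit 0x1000100014, nat_lit 0x11201, nat_lit 0xc, nat_lit 4, nat_lit 0x49⟩ (t14_4516) (t14_12708)))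 (.node ⟨nat_lit 7, nat_lit 0x800500060, nat_lit 0x2101121, nat_lit 2, nat_lit 4, nat_lit 0x49⟩ (.node ⟨nat_lit 7, nat_lit 0x10004000540064, nat_lit 0x1101101, nat_lit 0, nat_lit 4, nat_lit 0x46⟩ (t14_2468) (t14_10660)) (.node ⟨nat_lit 4, nat_lit 0, nat_lit 0x2222, nat_lit 6, nat_lit 3, nat_lit 0x49⟩ (t14_6564) (t14_14756)))) (.node ⟨nat_lit 4, nat_lit 0xc, nat_lit 0x2011, nat_lit 7, nat_lit 4, nat_lit 0x47⟩ (.node ⟨nat_lit 7, nat_lit 0x40002000200010, nat_lit 0x120211, nat_lit 3, nat_lit 4, nat_lit 0x4a⟩ (.node ⟨nat_lit 6, nat_lit 0x200030, nat_lit 0x11110, nat_lit 0, nat_lit 4, nat_lit 0x47⟩ (t14_1444) (t14_9636)) (.node ⟨nat_lit 8, nat_lit 0x200080002800c0, nat_lit 0x11120102, nat_lit 1, nat_lit 4, nat_lit 0x4a⟩ (t14_5540) (t14_13732))) (.node ⟨nat_lit 6, nat_lit 0x2000200020, nat_lit 0x11211, nat_lit 3, nat_lit 4, nat_lit 0x49⟩ (.node ⟨nat_lit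 7, nat_lit 0x40001000600068, nat_lit 0x1001000, nat_lit 1, nat_lit 4, nat_lit 0x46⟩ (t14_3492) (t14_11684)) (.node ⟨nat_lit 7, nat_lit 0x4000200010, nat_lit 0x111002, nat_lit 1, nat_lit 3, nat_lit 0x48⟩ (t14_7588) (.nil))))) (.node ⟨nat_lit 6, nat_lit 0x1000200034, nat_lit 0x32010, nat_lit 1, nat_lit 4, nat_lit 0x48⟩ (.node ⟨nat_lit 5, nat_lit 0x10001a, nat_lit 0x21210, nat_lit 3, nat_lit 4, nat_lit 0x48⟩ (.node ⟨nat_lit 6, nat_lit 0, nat_lit 0x111111, nat_lit 2, nat_lit 4, nat_lit 0x4b⟩ (.node ⟨nat_lit 8, nat_lit 0x800040, nat_lit 0x2111100, nat_lit 3, nat_lit 4, nat_lit 0x4d⟩ (t14_932) (t14_9124)) (.node ⟨nat_lit 5, nat_lit 0x1000080014, nat_lit 0x12220, nat_lit 5, nat_lit 4, nat_lit 0x48⟩ (t14_5028) (t14_13220))) (.node ⟨nat_lit 5, nat_lit 0x1000100008, nat_lit 0x11300, nat_lit 0, nat_lit 3, nat_lit 0x46⟩ (.node ⟨nat_lit 7, nat_lit 0x40004000200048,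 nat_lit 0x1111121, nat_lit 0, nat_lit 4, nat_lit 0x49⟩ (t14_2980) (t14_11172)) (.node ⟨nat_lit 7, nat_lit 0x10001800500060, nat_lit 0x1100012, nat_lit 0, nat_lit 4, nat_lit 0x46⟩ (t14_7076) (t14_15268)))) (.node ⟨nat_lit 3, nat_lit 4, nat_lit 0x210, nat_lit 0xb, nat_lit 4, nat_lit 0x47⟩ (.node ⟨nat_lit 5, nat_lit 0x100018, nat_lit 0x20221, nat_lit 2, nat_lit 3, nat_lit 0x47⟩ (.node ⟨nat_lit 5, nat_lit 0x180014, nat_lit 0x10113, nat_lit 6, nat_lit 4, nat_lit 0x47⟩ (t14_1956) (t14_10148)) (.node ⟨nat_lit 7, nat_lit 0x40002000480068, nat_lit 0x1020200, nat_lit 1, nat_lit 4, nat_lit 0x47⟩ (t14_6052) (t14_14244))) (.node ⟨nat_lit 5, nat_lit 0x1000100010, nat_lit 0x2110, nat_lit 8, nat_lit 4, nat_lit 0x48⟩ (.node ⟨nat_lit 7, nat_lit 0x4000200070, nat_lit 0x10001, nat_lit 0, nat_lit 4, nat_lit 0x46⟩ (t14_4004) (t14_12196)) (.node ⟨nat_lit 6, nat_lit 0x20001000280014,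 nat_lit 0x11120, nat_lit 1, nat_lit 4, nat_lit 0x45⟩ (t14_8100) (.nil)))))
def t14_100 : Tr := .node ⟨nat_lit 7, nat_lit 0x40001000500068, nat_lit 0x1201111, nat_lit 3, nat_lit 4, nat_lit 0x48⟩ (.nil) (.nil)
def t14_8292 : Tr := .node ⟨nat_lit 7, nat_lit 0x40001000100060, nat_lit 0x3200, nat_lit 0, nat_lit 4, nat_lit 0x47⟩ (.nil) (.nil)
def t14_4196 : Tr := .node ⟨nat_lit 7, nat_lit 0x40004000200048, nat_lit 0x111110, nat_lit 1, nat_lit 4, nat_lit 0x48⟩ (.nil) (.nil)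
def t14_12388 : Tr := .node ⟨nat_lit 6, nat_lit 0x300030, nat_lit 0x1110, nat_lit 2, nat_lit 3, nat_lit 0x46⟩ (.nil) (.nil)
def t14_2148 : Tr := .node ⟨nat_lit 7, nat_lit 0x3000500060, nat_lit 0x1111220, nat_lit 0, nat_lit 4, nat_lit 0x48⟩ (.nil) (.nil)
def t14_10340 : Tr := .node ⟨nat_lit 6, nat_lit 0x2800180030, nat_lit 0x110201, nat_lit 2, nat_lit 4, nat_lit 0x46⟩ (.nil) (.nil)
def t14_6244 : Tr := .node ⟨nat_lit 4, nat_lit 0, nat_lit 0x1111, nat_lit 8, nat_lit 4, nat_lit 0x49⟩ (.nil) (.nil)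
def t14_14436 : Tr := .node ⟨nat_lit 8, nat_lit 0x4000400080008000c4, nat_lit 0x10121, nat_lit 1, nat_lit 4, nat_lit 0x48⟩ (.nil) (.nil)
def t14_1124 : Tr := .node ⟨nat_lit 7, nat_lit 0x800500060, nat_lit 0x101112, nat_lit 3, nat_lit 4, nat_lit 0x48⟩ (.nil) (.nil)
def t14_9316 : Tr := .node ⟨nat_lit 7, nat_lit 0x10002000400060, nat_lit 0x100021, nat_lit 0, nat_lit 4, nat_lit 0x47⟩ (.nil) (.nil)
def t14_5220 : Tr := .node ⟨nat_lit 7, nat_lit 0x40004000400048, nat_lit 0x112111, nat_lit 4, nat_lit 4, nat_lit 0x4a⟩ (.nil) (.nil)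
def t14_13412 : Tr := .node ⟨nat_lit 7, nat_lit 0x20004000500064, nat_lit 0x3300, nat_lit 1, nat_lit 4, nat_lit 0x47⟩ (.nil) (.nil)
def t14_3172 : Tr := .node ⟨nat_lit 8, nat_lit 0x400080002000c000c8, nat_lit 0x10111021, nat_lit 0, nat_lit 4, nat_lit 0x48⟩ (.nil) (.nil)
def t14_11364 : Tr := .node ⟨nat_lit 7, nat_lit 0x20004000100060, nat_lit 0x11010, nat_lit 2, nat_lit 3, nat_lit 0x46⟩ (.nil) (.nil)
def t14_7268 : Tr := .node ⟨nat_lit 8, nat_lit 0x800080009000900060, nat_lit 0x2002001, nat_lit 1, nat_lit 4, nat_lit 0x48⟩ (.nil) (.nil)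
def t14_15460 : Tr := .node ⟨nat_lit 0xb, nat_lit 0x20001000080004000400400, nat_lit 0x10000000101, nat_lit 4, nat_lit 4, nat_lit 0x4c⟩ (.nil) (.nil)
def t14_612 : Tr := .node ⟨nat_lit 6, nat_lit 0x2000300034, nat_lit 0x2120, nat_lit 2, nat_lit 4, nat_lit 0x46⟩ (.nil) (.nil)
def t14_8804 : Tr := .node ⟨nat_lit 6, nat_lit 0x20002000100028, nat_lit 0x1004, nat_lit 4, nat_lit 4, nat_lit 0x47⟩ (.nil) (.nil)
def t14_4708 : Tr := .node ⟨nat_lit 8, nat_lit 0x80002000c000b000d0, nat_lit 0x10010021, nat_lit 0, nat_lit 4, nat_lit 0x46⟩ (.nil) (.nil)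
def t14_12900 : Tr := .node ⟨nat_lit 7, nat_lit 0x40001000100060, nat_lit 0x113000, nat_lit 1, nat_lit 4, nat_lit 0x48⟩ (.nil) (.nil)
def t14_2660 : Tr := .node ⟨nat_lit 7, nat_lit 0x10006000600060, nat_lit 0x10410, nat_lit 1, nat_lit 4, nat_lit 0x47⟩ (.nil) (.nil)
def t14_10852 : Tr := .node ⟨nat_lit 7, nat_lit 0x400020, nat_lit 0x2111102, nat_lit 1, nat_lit 3, nat_lit 0x4a⟩ (.nil) (.nil)
def t14_6756 : Tr := .node ⟨nat_lit 6, nat_lit 0x80030, nat_lit 0x301110, nat_lit 2, nat_lit 4, nat_lit 0x49⟩ (.nil) (.nil)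
def t14_14948 : Tr := .node ⟨nat_lit 9, nat_lit 0x100010000800080014001200120, nat_lit 0x1110121, nat_lit 0, nat_lit 4, nat_lit 0x48⟩ (.nil) (.nil)
def t14_1636 : Tr := .node ⟨nat_lit 7, nat_lit 0x20002800500068, nat_lit 0x111020, nat_lit 0, nat_lit 4, nat_lit 0x46⟩ (.nil) (.nil)
def t14_9828 : Tr := .node ⟨nat_lit 7, nat_lit 0x20002000500060, nat_lit 0x11022, nat_lit 2, nat_lit 4, nat_lit 0x47⟩ (.nil) (.nil)
def t14_5732 : Tr := .node ⟨nat_lit 7, nat_lit 0x4000600050, nat_lit 0x1102, nat_lit 1, nat_lit 4, nat_lit 0x47⟩ (.nil) (.nil)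
def t14_13924 : Tr := .node ⟨nat_lit 8, nat_lit 0x200030003000a000c0, nat_lit 0x1002002, nat_lit 0, nat_lit 4, nat_lit 0x46⟩ (.nil) (.nil)
def t14_3684 : Tr := .node ⟨nat_lit 9, nat_lit 0x100004001800140, nat_lit 0x210021, nat_lit 0, nat_lit 4, nat_lit 0x4a⟩ (.nil) (.nil)
def t14_11876 : Tr := .node ⟨nat_lit 5, nat_lit 0x1000080008, nat_lit 0x2011, nat_lit 1, nat_lit 3, nat_lit 0x46⟩ (.nil) (.nil)
def t14_7780 : Tr := .node ⟨nat_lit 7, nat_lit 0x1000600060, nat_lit 0x1032, nat_lit 1, nat_lit 4, nat_lit 0x47⟩ (.nil) (.nil)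
def t9_100 : Tr := .node ⟨nat_lit 6, nat_lit 0x100020, nat_lit 0x131111, nat_lit 3, nat_lit 4, nat_lit 0x4b⟩ (.node ⟨nat_lit 6, nat_lit 0x100020, nat_lit 0x213102, nat_lit 1, nat_lit 4, nat_lit 0x4b⟩ (.node ⟨nat_lit 6, nat_lit 0x1000200030, nat_lit 0x1230, nat_lit 0, nat_lit 4, nat_lit 0x47⟩ (.node ⟨nat_lit 6, nat_lit 0x2000100010, nat_lit 0x12011, nat_lit 1, nat_lit 4, nat_lit 0x48⟩ (.node ⟨nat_lit 7, nat_lit 0x4000400020, nat_lit 0x1211112, nat_lit 0, nat_lit 4, nat_lit 0x4b⟩ (t14_100) (t14_8292)) (.node ⟨nat_lit 5, nat_lit 0x18001c, nat_lit 0x202, nat_lit 4, nat_lit 4, nat_lit 0x45⟩ (t14_4196) (t14_12388))) (.node ⟨nat_lit 6, nat_lit 0x20001000100028, nat_lit 0x211110, nat_lit 2, nat_lit 4, nat_lit 0x48⟩ (.node ⟨nat_lit 6, nat_lit 0x2000080030, nat_lit 0x1001, nat_lit 1, nat_lit 3, nat_lit 0x45⟩ (t14_2148) (t14_10340)) (.node ⟨nat_lit 7, nat_lit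 0x1000600060, nat_lit 0x12121, nat_lit 1, nat_lit 4, nat_lit 0x48⟩ (t14_6244) (t14_14436)))) (.node ⟨nat_lit 5, nat_lit 0x100008, nat_lit 0x2200, nat_lit 2, nat_lit 4, nat_lit 0x47⟩ (.node ⟨nat_lit 6, nat_lit 0x200030, nat_lit 0x211111, nat_lit 5, nat_lit 4, nat_lit 0x4a⟩ (.node ⟨nat_lit 6, nat_lit 0x2000240030, nat_lit 0x111311, nat_lit 3, nat_lit 4, nat_lit 0x49⟩ (t14_1124) (t14_9316)) (.node ⟨nat_lit 5, nat_lit 0x180018, nat_lit 0x11221, nat_lit 7, nat_lit 4, nat_lit 0x48⟩ (t14_5220) (t14_13412))) (.node ⟨nat_lit 6, nat_lit 0x2000080010, nat_lit 0x21001, nat_lit 2, nat_lit 4, nat_lit 0x48⟩ (.node ⟨nat_lit 6, nat_lit 0x300038, nat_lit 0x103103, nat_lit 2, nat_lit 4, nat_lit 0x48⟩ (t14_3172) (t14_11364)) (.node ⟨nat_lit 7, nat_lit 0x40002000500068, nat_lit 0x11120, nat_lit 0, nat_lit 4, nat_lit 0x46⟩ (t14_7268) (t14_15460))))) (.node ⟨nat_lit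 6, nat_lit 0x20002000100028, nat_lit 0x30020, nat_lit 3, nat_lit 4, nat_lit 0x48⟩ (.node ⟨nat_lit 6, nat_lit 0x2000100024, nat_lit 0x211201, nat_lit 1, nat_lit 4, nat_lit 0x49⟩ (.node ⟨nat_lit 6, nat_lit 0x300030, nat_lit 0x2110, nat_lit 3, nat_lit 4, nat_lit 0x47⟩ (.node ⟨nat_lit 7, nat_lit 0x2000200040, nat_lit 0x1211201, nat_lit 0, nat_lit 4, nat_lit 0x4b⟩ (t14_612) (t14_8804)) (.node ⟨nat_lit 6, nat_lit 0x20002000100010, nat_lit 0x112220, nat_lit 3, nat_lit 4, nat_lit 0x49⟩ (t14_4708) (t14_12900))) (.node ⟨nat_lit 6, nat_lit 0x800200030, nat_lit 0x100012, nat_lit 4, nat_lit 4, nat_lit 0x47⟩ (.node ⟨nat_lit 6, nat_lit 0x200030, nat_lit 0x121114, nat_lit 0, nat_lit 4, nat_lit 0x4a⟩ (t14_2660) (t14_10852)) (.node ⟨nat_lit 8, nat_lit 0x800020004000900090, nat_lit 0x11111120, nat_lit 0, nat_lit 4, nat_lit 0x49⟩ (t14_6756) (t14_14948)))) (.node ⟨nat_lit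 7, nat_lit 0x40002000580068, nat_lit 0x2011001, nat_lit 1, nat_lit 4, nat_lit 0x47⟩ (.node ⟨nat_lit 6, nat_lit 0x800300030, nat_lit 0x201220, nat_lit 0, nat_lit 4, nat_lit 0x47⟩ (.node ⟨nat_lit 6, nat_lit 0x30, nat_lit 0x1101, nat_lit 0, nat_lit 4, nat_lit 0x47⟩ (t14_1636) (t14_9828)) (.node ⟨nat_lit 7, nat_lit 0x40004000500068, nat_lit 0x202002, nat_lit 3, nat_lit 4, nat_lit 0x48⟩ (t14_5732) (t14_13924))) (.node ⟨nat_lit 6, nat_lit 0x800300038, nat_lit 0x100220, nat_lit 0, nat_lit 4, nat_lit 0x45⟩ (.node ⟨nat_lit 6, nat_lit 0x2000080030, nat_lit 0x110000, nat_lit 1, nat_lit 4, nat_lit 0x46⟩ (t14_3684) (t14_11876)) (.node ⟨nat_lit 7, nat_lit 0x20004000600060, nat_lit 0x111221, nat_lit 0, nat_lit 4, nat_lit 0x48⟩ (t14_7780) (.nil)))))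
def t14_356 : Tr := .node ⟨nat_lit 7, nat_lit 0x10002000640058, nat_lit 0x1121211, nat_lit 0, nat_lit 4, nat_lit 0x48⟩ (.nil) (.nil)
def t14_8548 : Tr := .node ⟨nat_lit 7, nat_lit 0x20004000400048004c, nat_lit 0x1021, nat_lit 3, nat_lit 4, nat_lit 0x46⟩ (.nil) (.nil)
def t14_4452 : Tr := .node ⟨nat_lit 7, nat_lit 0x10004000600060, nat_lit 0x110021, nat_lit 0, nat_lit 4, nat_lit 0x47⟩ (.nil) (.nil)
def t14_12644 : Tr := .node ⟨nat_lit 7, nat_lit 0x20004000600050, nat_lit 0x101140, nat_lit 2, nat_lit 4, nat_lit 0x48⟩ (.nil) (.nil)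
def t14_2404 : Tr := .node ⟨nat_lit 8, nat_lit 0x80009000c000d000d0, nat_lit 0x10200210, nat_lit 1, nat_lit 4, nat_lit 0x47⟩ (.nil) (.nil)
def t14_10596 : Tr := .node ⟨nat_lit 7, nat_lit 0x1000500060, nat_lit 0x2002, nat_lit 1, nat_lit 4, nat_lit 0x47⟩ (.nil) (.nil)
def t14_6500 : Tr := .node ⟨nat_lit 7, nat_lit 0x20004000100064, nat_lit 0x1010110, nat_lit 1, nat_lit 4, nat_lit 0x47⟩ (.nil) (.nil)
def t14_14692 : Tr := .node ⟨nat_lit 9, nat_lit 0x80010000c0012001c001a001a0, nat_lit 0x1110111, nat_lit 0, nat_lit 4, nat_lit 0x45⟩ (.nil) (.nil)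
def t14_1380 : Tr := .node ⟨nat_lit 8, nat_lit 0x800040004000a000d000d0, nat_lit 0x1301110, nat_lit 0, nat_lit 4, nat_lit 0x47⟩ (.nil) (.nil)
def t14_9572 : Tr := .node ⟨nat_lit 9, nat_lit 0x4001000100018001900190, nat_lit 0x11220, nat_lit 0, nat_lit 4, nat_lit 0x47⟩ (.nil) (.nil)
def t14_5476 : Tr := .node ⟨nat_lit 8, nat_lit 0x200080008400c0, nat_lit 0x10311, nat_lit 1, nat_lit 4, nat_lit 0x49⟩ (.nil) (.nil)
def t14_13668 : Tr := .node ⟨nat_lit 6, nat_lit 0x2000240030, nat_lit 0x2200, nat_lit 6, nat_lit 4, nat_lit 0x48⟩ (.nil) (.nil)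
def t14_3428 : Tr := .node ⟨nat_lit 6, nat_lit 0x800080030, nat_lit 0x112001, nat_lit 1, nat_lit 4, nat_lit 0x48⟩ (.nil) (.nil)
def t14_11620 : Tr := .node ⟨nat_lit 7, nat_lit 0x10005000500060, nat_lit 0x103101, nat_lit 1, nat_lit 4, nat_lit 0x47⟩ (.nil) (.nil)
def t14_7524 : Tr := .node ⟨nat_lit 4, nat_lit 0x8000a, nat_lit 0x122, nat_lit 0xb, nat_lit 4, nat_lit 0x47⟩ (.nil) (.nil)
def t14_868 : Tr := .node ⟨nat_lit 6, nat_lit 0x20001000140028, nat_lit 0x102220, nat_lit 1, nat_lit 4, nat_lit 0x46⟩ (.nil) (.nil)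
def t14_9060 : Tr := .node ⟨nat_lit 6, nat_lit 0x2800300038, nat_lit 0x11212, nat_lit 3, nat_lit 4, nat_lit 0x46⟩ (.nil) (.nil)
def t14_4964 : Tr := .node ⟨nat_lit 4, nat_lit 0x8000c, nat_lit 0x130, nat_lit 9, nat_lit 4, nat_lit 0x46⟩ (.nil) (.nil)
def t14_13156 : Tr := .node ⟨nat_lit 7, nat_lit 0x40002000200064, nat_lit 0x23200, nat_lit 1, nat_lit 4, nat_lit 0x48⟩ (.nil) (.nil)
def t14_2916 : Tr := .node ⟨nat_lit 8, nat_lit 0x800040009000c000c8, nat_lit 0x211201, nat_lit 0, nat_lit 4, nat_lit 0x47⟩ (.nil) (.nil)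
def t14_11108 : Tr := .node ⟨nat_lit 7, nat_lit 0x600060, nat_lit 0x11120, nat_lit 2, nat_lit 4, nat_lit 0x49⟩ (.nil) (.nil)
def t14_7012 : Tr := .node ⟨nat_lit 7, nat_lit 0x20005000500060, nat_lit 0x1101112, nat_lit 1, nat_lit 4, nat_lit 0x47⟩ (.nil) (.nil)
def t14_15204 : Tr := .node ⟨nat_lit 8, nat_lit 0x200040003000a000c0, nat_lit 0x10010112, nat_lit 1, nat_lit 4, nat_lit 0x47⟩ (.nil) (.nil)
def t14_1892 : Tr := .node ⟨nat_lit 7, nat_lit 0x20004000640070, nat_lit 0x2011112, nat_lit 0, nat_lit 4, nat_lit 0x47⟩ (.nil) (.nil)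
def t14_10084 : Tr := .node ⟨nat_lit 8, nat_lit 0x1000a000a000c0, nat_lit 0x1010202, nat_lit 2, nat_lit 4, nat_lit 0x48⟩ (.nil) (.nil)
def t14_5988 : Tr := .node ⟨nat_lit 5, nat_lit 0x800100018, nat_lit 0x21120, nat_lit 5, nat_lit 4, nat_lit 0x48⟩ (.nil) (.nil)
def t14_14180 : Tr := .node ⟨nat_lit 6, nat_lit 0x1000200030, nat_lit 0x11112, nat_lit 4, nat_lit 4, nat_lit 0x48⟩ (.nil) (.nil)
def t14_3940 : Tr := .node ⟨nat_lit 7, nat_lit 0x40002000500068, nat_lit 0x1011201, nat_lit 1, nat_lit 4, nat_lit 0x47⟩ (.nil) (.nil)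
def t14_12132 : Tr := .node ⟨nat_lit 8, nat_lit 0x40002000c000a000d0, nat_lit 0x1011210, nat_lit 1, nat_lit 4, nat_lit 0x47⟩ (.nil) (.nil)
def t14_8036 : Tr := .node ⟨nat_lit 6, nat_lit 0x200022, nat_lit 0x21113, nat_lit 0, nat_lit 4, nat_lit 0x48⟩ (.nil) (.nil)
def t9_356 : Tr := .node ⟨nat_lit 4, nat_lit 0, nat_lit 0x3322, nat_lit 3, nat_lit 4, nat_lit 0x4b⟩ (.node ⟨nat_lit 5, nat_lit 0x100010, nat_lit 0x13211, nat_lit 5, nat_lit 4, nat_lit 0x4a⟩ (.node ⟨nat_lit 3, nat_lit 4, nat_lit 0x222, nat_lit 9, nat_lit 4, nat_lit 0x48⟩ (.node ⟨nat_lit 5, nat_lit 0x180018, nat_lit 0x21220, nat_lit 0, nat_lit 3, nat_lit 0x46⟩ (.node ⟨nat_lit 8, nat_lit 0x800080004000200090, nat_lit 0x1200110, nat_lit 5, nat_lit 4, nat_lit 0x4a⟩ (t14_356) (t14_8548)) (.node ⟨nat_lit 9, nat_lit 0x8000400040010001000104, nat_lit 0x100010201, nat_lit 3, nat_lit 4, nat_lit 0x4a⟩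 (t14_4452) (t14_12644))) (.node ⟨nat_lit 6, nat_lit 0x1000200030, nat_lit 0x121112, nat_lit 2, nat_lit 4, nat_lit 0x49⟩ (.node ⟨nat_lit 5, nat_lit 0x100018, nat_lit 0x10113, nat_lit 4, nat_lit 4, nat_lit 0x47⟩ (t14_2404) (t14_10596)) (.node ⟨nat_lit 5, nat_lit 0x80010, nat_lit 0x20130, nat_lit 3, nat_lit 4, nat_lit 0x48⟩ (t14_6500) (t14_14692)))) (.node ⟨nat_lit 6, nat_lit 0x2000080030, nat_lit 0x102122, nat_lit 0, nat_lit 4, nat_lit 0x48⟩ (.node ⟨nat_lit 7, nat_lit 0x400020, nat_lit 0x222102, nat_lit 0, nat_lit 4, nat_lit 0x4c⟩ (.node ⟨nat_lit 5, nat_lit 0x18, nat_lit 0x10114, nat_lit 1, nat_lit 4, nat_lit 0x47⟩ (t14_1380) (t14_9572)) (.node ⟨nat_lit 6, nat_lit 0x200030, nat_lit 0x102221, nat_lit 1, nat_lit 3, nat_lit 0x48⟩ (t14_5476) (t14_13668))) (.node ⟨nat_lit 4, nat_lit 0xc, nat_lit 0x3022, nat_lit 6, nat_lit 4, nat_lit 0x48⟩ (.node ⟨nat_lit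 3, nat_lit 6, nat_lit 0x204, nat_lit 7, nat_lit 4, nat_lit 0x46⟩ (t14_3428) (t14_11620)) (.node ⟨nat_lit 7, nat_lit 0x40002000680070, nat_lit 0x111122, nat_lit 0, nat_lit 4, nat_lit 0x46⟩ (t14_7524) (.nil))))) (.node ⟨nat_lit 7, nat_lit 0x400040, nat_lit 0x311110, nat_lit 0, nat_lit 4, nat_lit 0x4b⟩ (.node ⟨nat_lit 6, nat_lit 0x200022, nat_lit 0x222110, nat_lit 0, nat_lit 4, nat_lit 0x4a⟩ (.node ⟨nat_lit 6, nat_lit 0x2000080034, nat_lit 0x111121, nat_lit 0, nat_lit 4, nat_lit 0x47⟩ (.node ⟨nat_lit 5, nat_lit 0x40018, nat_lit 0x21020, nat_lit 3, nat_lit 4, nat_lit 0x47⟩ (t14_868) (t14_9060)) (.node ⟨nat_lit 7, nat_lit 0x40002000480068, nat_lit 0x1121012, nat_lit 1, nat_lit 4, nat_lit 0x48⟩ (t14_4964) (t14_13156))) (.node ⟨nat_lit 6, nat_lit 0x1800280030, nat_lit 0x111112, nat_lit 0, nat_lit 4, nat_lit 0x46⟩ (.node ⟨nat_lit 7, nat_lit 0x400020005000500028,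 nat_lit 0x1112201, nat_lit 0, nat_lit 4, nat_lit 0x47⟩ (t14_2916) (t14_11108)) (.node ⟨nat_lit 6, nat_lit 0x2000240030, nat_lit 0x112202, nat_lit 4, nat_lit 4, nat_lit 0x49⟩ (t14_7012) (t14_15204)))) (.node ⟨nat_lit 3, nat_lit 4, nat_lit 0x32, nat_lit 0xb, nat_lit 4, nat_lit 0x47⟩ (.node ⟨nat_lit 7, nat_lit 0x4000100060, nat_lit 0x2111111, nat_lit 0, nat_lit 4, nat_lit 0x4a⟩ (.node ⟨nat_lit 7, nat_lit 0x10005000500060, nat_lit 0x100203, nat_lit 0, nat_lit 4, nat_lit 0x46⟩ (t14_1892) (t14_10084)) (.node ⟨nat_lit 6, nat_lit 0x2000100030, nat_lit 0x3200, nat_lit 0, nat_lit 4, nat_lit 0x47⟩ (t14_5988) (t14_14180))) (.node ⟨nat_lit 6, nat_lit 0x1000200022, nat_lit 0x1022, nat_lit 2, nat_lit 4, nat_lit 0x47⟩ (.node ⟨nat_lit 6, nat_lit 0x10001000200020, nat_lit 0x103010, nat_lit 0, nat_lit 3, nat_lit 0x46⟩ (t14_3940) (t14_12132)) (.node ⟨nat_lit 7, nat_lit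 0x180060, nat_lit 0x1011121, nat_lit 0, nat_lit 4, nat_lit 0x49⟩ (t14_8036) (.nil)))))
def t14_228 : Tr := .node ⟨nat_lit 7, nat_lit 0x4000600064, nat_lit 0x121211, nat_lit 2, nat_lit 4, nat_lit 0x49⟩ (.nil) (.nil)
def t14_8420 : Tr := .node ⟨nat_lit 5, nat_lit 0x100010, nat_lit 0x11141, nat_lit 5, nat_lit 3, nat_lit 0x48⟩ (.nil) (.nil)
def t14_4324 : Tr := .node ⟨nat_lit 8, nat_lit 0x800040004000a000c800d0, nat_lit 0x1111011, nat_lit 0, nat_lit 4, nat_lit 0x46⟩ (.nil) (.nil)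
def t14_12516 : Tr := .node ⟨nat_lit 7, nat_lit 0x30005000600060, nat_lit 0x13020, nat_lit 2, nat_lit 4, nat_lit 0x46⟩ (.nil) (.nil)
def t14_2276 : Tr := .node ⟨nat_lit 9, nat_lit 0x800080010000c000a0011001c0, nat_lit 0x10120020, nat_lit 0, nat_lit 4, nat_lit 0x47⟩ (.nil) (.nil)
def t14_10468 : Tr := .node ⟨nat_lit 5, nat_lit 0x1000140018, nat_lit 0x122, nat_lit 4, nat_lit 4, nat_lit 0x45⟩ (.nil) (.nil)
def t14_6372 : Tr := .node ⟨nat_lit 4, nat_lit 0x80004, nat_lit 3, nat_lit 5, nat_lit 4, nat_lit 0x45⟩ (.nil) (.nil)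
def t14_14564 : Tr := .node ⟨nat_lit 6, nat_lit 0x10002000200024, nat_lit 0x211, nat_lit 0xa, nat_lit 4, nat_lit 0x48⟩ (.nil) (.nil)
def t14_1252 : Tr := .node ⟨nat_lit 7, nat_lit 0x4000500064, nat_lit 0x1000112, nat_lit 0, nat_lit 4, nat_lit 0x47⟩ (.nil) (.nil)
def t14_9444 : Tr := .node ⟨nat_lit 9, nat_lit 0x800100010000a001100180, nat_lit 0x11011012, nat_lit 1, nat_lit 4, nat_lit 0x49⟩ (.nil) (.nil)
def t14_5348 : Tr := .node ⟨nat_lit 7, nat_lit 0x6000180050, nat_lit 0x11103, nat_lit 1, nat_lit 4, nat_lit 0x47⟩ (.nil) (.nil)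
def t14_13540 : Tr := .node ⟨nat_lit 6, nat_lit 0xc0030, nat_lit 0x100010, nat_lit 0, nat_lit 3, nat_lit 0x45⟩ (.nil) (.nil)
def t14_3300 : Tr := .node ⟨nat_lit 8, nat_lit 0x8000c000a000c8, nat_lit 0x1012102, nat_lit 0, nat_lit 4, nat_lit 0x48⟩ (.nil) (.nil)
def t14_11492 : Tr := .node ⟨nat_lit 6, nat_lit 0x2000280034, nat_lit 0x111110, nat_lit 2, nat_lit 4, nat_lit 0x47⟩ (.nil) (.nil)
def t14_7396 : Tr := .node ⟨nat_lit 7, nat_lit 0x20004000100060, nat_lit 0x121011, nat_lit 0, nat_lit 3, nat_lit 0x47⟩ (.nil) (.nil)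
def t14_15588 : Tr := .node ⟨nat_lit 2, nat_lit 2, nat_lit 0x11, nat_lit 0x18, nat_lit 4, nat_lit 0x48⟩ (.nil) (.nil)
def t14_740 : Tr := .node ⟨nat_lit 6, nat_lit 0x2000100024, nat_lit 0x11013, nat_lit 0, nat_lit 4, nat_lit 0x46⟩ (.nil) (.nil)
def t14_8932 : Tr := .node ⟨nat_lit 6, nat_lit 0x2000100024, nat_lit 0x10001, nat_lit 0, nat_lit 4, nat_lit 0x45⟩ (.nil) (.nil)
def t14_4836 : Tr := .node ⟨nat_lit 7, nat_lit 0x400050005000600070, nat_lit 0x1110022, nat_lit 1, nat_lit 4, nat_lit 0x47⟩ (.nil) (.nil)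
def t14_13028 : Tr := .node ⟨nat_lit 7, nat_lit 0x40001000200020, nat_lit 0x100310, nat_lit 0, nat_lit 4, nat_lit 0x48⟩ (.nil) (.nil)
def t14_2788 : Tr := .node ⟨nat_lit 7, nat_lit 0x4000200060, nat_lit 0x10221, nat_lit 0, nat_lit 4, nat_lit 0x48⟩ (.nil) (.nil)
def t14_10980 : Tr := .node ⟨nat_lit 8, nat_lit 0x400080008000c000c8, nat_lit 0x101022, nat_lit 3, nat_lit 4, nat_lit 0x48⟩ (.nil) (.nil)
def t14_6884 : Tr := .node ⟨nat_lit 8, nat_lit 0x80008000400040, nat_lit 0x111030, nat_lit 1, nat_lit 4, nat_lit 0x4a⟩ (.nil) (.nil)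
def t14_15076 : Tr := .node ⟨nat_lit 6, nat_lit 0x3000280028, nat_lit 0x2031, nat_lit 2, nat_lit 4, nat_lit 0x47⟩ (.nil) (.nil)
def t14_1764 : Tr := .node ⟨nat_lit 7, nat_lit 0x2000400070, nat_lit 0x21003, nat_lit 2, nat_lit 4, nat_lit 0x48⟩ (.nil) (.nil)
def t14_9956 : Tr := .node ⟨nat_lit 7, nat_lit 0x10006000600060, nat_lit 0x10330, nat_lit 2, nat_lit 4, nat_lit 0x47⟩ (.nil) (.nil)
def t14_5860 : Tr := .node ⟨nat_lit 6, nat_lit 0x200022, nat_lit 0x11101, nat_lit 1, nat_lit 4, nat_lit 0x47⟩ (.nil) (.nil)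
def t14_14052 : Tr := .node ⟨nat_lit 8, nat_lit 0xc000a0, nat_lit 0x11120, nat_lit 1, nat_lit 4, nat_lit 0x4a⟩ (.nil) (.nil)
def t14_3812 : Tr := .node ⟨nat_lit 7, nat_lit 0x40004800600068, nat_lit 0x1020020, nat_lit 2, nat_lit 4, nat_lit 0x47⟩ (.nil) (.nil)
def t14_12004 : Tr := .node ⟨nat_lit 7, nat_lit 0x40002000480060, nat_lit 0x112110, nat_lit 1, nat_lit 4, nat_lit 0x48⟩ (.nil) (.nil)
def t14_7908 : Tr := .node ⟨nat_lit 8, nat_lit 0x4000800080009000880088, nat_lit 0x11021, nat_lit 5, nat_lit 4, nat_lit 0x48⟩ (.nil) (.nil)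
def t9_228 : Tr := .node ⟨nat_lit 5, nat_lit 0, nat_lit 0x32110, nat_lit 0, nat_lit 4, nat_lit 0x4a⟩ (.node ⟨nat_lit 3, nat_lit 0x40006, nat_lit 0x313, nat_lit 7, nat_lit 4, nat_lit 0x47⟩ (.node ⟨nat_lit 4, nat_lit 0xc, nat_lit 0x3113, nat_lit 3, nat_lit 4, nat_lit 0x48⟩ (.node ⟨nat_lit 6, nat_lit 0x2000080030, nat_lit 0x11032, nat_lit 0, nat_lit 4, nat_lit 0x47⟩ (.node ⟨nat_lit 6, nat_lit 0x800300030, nat_lit 0x102210, nat_lit 0, nat_lit 4, nat_lit 0x47⟩ (t14_228) (t14_8420)) (.node ⟨nat_lit 7, nat_lit 0x40002000680070, nat_lit 0x111132, nat_lit 0, nat_lit 4, nat_lit 0x46⟩ (t14_4324) (t14_12516))) (.node ⟨nat_lit 7, nat_lit 0x40004000200048, nat_lit 0x1221120, nat_lit 0, nat_lit 4, nat_lit 0x4a⟩ (.node ⟨nat_lit 7, nat_lit 0x40004000200060, nat_lit 0x112113, nat_lit 1, nat_lit 4, nat_lit 0x49⟩ (t14_2276) (t14_10468)) (.node ⟨nat_lit 6, nat_lit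 0x2000080034, nat_lit 0x210120, nat_lit 0, nat_lit 4, nat_lit 0x47⟩ (t14_6372) (t14_14564)))) (.node ⟨nat_lit 6, nat_lit 0x200020, nat_lit 0x121111, nat_lit 3, nat_lit 4, nat_lit 0x4a⟩ (.node ⟨nat_lit 6, nat_lit 0x200030, nat_lit 0x122221, nat_lit 0, nat_lit 4, nat_lit 0x4a⟩ (.node ⟨nat_lit 6, nat_lit 0x280030, nat_lit 0x111140, nat_lit 0, nat_lit 4, nat_lit 0x48⟩ (t14_1252) (t14_9444)) (.node ⟨nat_lit 7, nat_lit 0x4000200020, nat_lit 0x121022, nat_lit 2, nat_lit 4, nat_lit 0x4b⟩ (t14_5348) (t14_13540))) (.node ⟨nat_lit 6, nat_lit 0x300028, nat_lit 0x100213, nat_lit 0, nat_lit 4, nat_lit 0x47⟩ (.node ⟨nat_lit 7, nat_lit 0x6000180050, nat_lit 0x1010014, nat_lit 2, nat_lit 4, nat_lit 0x48⟩ (t14_3300) (t14_11492)) (.node ⟨nat_lit 4, nat_lit 0x8000c, nat_lit 0x1113, nat_lit 4, nat_lit 4, nat_lit 0x46⟩ (t14_7396) (t14_15588))))) (.node ⟨nat_lit 6, nat_lit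 0x1000200030, nat_lit 0x3110, nat_lit 1, nat_lit 4, nat_lit 0x47⟩ (.node ⟨nat_lit 5, nat_lit 0x40018, nat_lit 0x21002, nat_lit 3, nat_lit 4, nat_lit 0x47⟩ (.node ⟨nat_lit 6, nat_lit 0x20002000100030, nat_lit 0x12002, nat_lit 0, nat_lit 3, nat_lit 0x45⟩ (.node ⟨nat_lit 6, nat_lit 0x300030, nat_lit 0x103211, nat_lit 1, nat_lit 4, nat_lit 0x49⟩ (t14_740) (t14_8932)) (.node ⟨nat_lit 7, nat_lit 0x10002000500060, nat_lit 0x102200, nat_lit 1, nat_lit 4, nat_lit 0x47⟩ (t14_4836) (t14_13028))) (.node ⟨nat_lit 5, nat_lit 0x100008, nat_lit 0x102, nat_lit 0, nat_lit 4, nat_lit 0x45⟩ (.node ⟨nat_lit 6, nat_lit 0x80030, nat_lit 0x211103, nat_lit 2, nat_lit 3, nat_lit 0x48⟩ (t14_2788) (t14_10980)) (.node ⟨nat_lit 6, nat_lit 0x2000100024, nat_lit 0x101132, nat_lit 0, nat_lit 4, nat_lit 0x47⟩ (t14_6884) (t14_15076)))) (.node ⟨nat_lit 5, nat_lit 0x40018, nat_lit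 0x11121, nat_lit 0, nat_lit 4, nat_lit 0x46⟩ (.node ⟨nat_lit 6, nat_lit 0x1000280034, nat_lit 0x1221, nat_lit 0, nat_lit 4, nat_lit 0x45⟩ (.node ⟨nat_lit 7, nat_lit 0x40001000500068, nat_lit 0x101023, nat_lit 0, nat_lit 4, nat_lit 0x46⟩ (t14_1764) (t14_9956)) (.node ⟨nat_lit 7, nat_lit 0x40001000500060, nat_lit 0x211022, nat_lit 0, nat_lit 4, nat_lit 0x48⟩ (t14_5860) (t14_14052))) (.node ⟨nat_lit 6, nat_lit 0x280030, nat_lit 0x200223, nat_lit 1, nat_lit 4, nat_lit 0x48⟩ (.node ⟨nat_lit 5, nat_lit 0x180014, nat_lit 0x10203, nat_lit 3, nat_lit 4, nat_lit 0x47⟩ (t14_3812) (t14_12004)) (.node ⟨nat_lit 7, nat_lit 0x40004000100060, nat_lit 0x110013, nat_lit 1, nat_lit 4, nat_lit 0x48⟩ (t14_7908) (.nil)))))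
def t14_484 : Tr := .node ⟨nat_lit 8, nat_lit 0x100080002000c0, nat_lit 0x11111110, nat_lit 1, nat_lit 4, nat_lit 0x4a⟩ (.nil) (.nil)
def t14_8676 : Tr := .node ⟨nat_lit 6, nat_lit 0x1800280030, nat_lit 0x1002, nat_lit 3, nat_lit 4, nat_lit 0x45⟩ (.nil) (.nil)
def t14_4580 : Tr := .node ⟨nat_lit 5, nat_lit 0x100018, nat_lit 0x10241, nat_lit 5, nat_lit 4, nat_lit 0x49⟩ (.nil) (.nil)
def t14_12772 : Tr := .node ⟨nat_lit 7, nat_lit 0x4000100060, nat_lit 0x101400, nat_lit 1, nat_lit 4, nat_lit 0x49⟩ (.nil) (.nil)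
def t14_2532 : Tr := .node ⟨nat_lit 8, nat_lit 0x200080008000c0, nat_lit 0x1020210, nat_lit 1, nat_lit 4, nat_lit 0x4a⟩ (.nil) (.nil)
def t14_10724 : Tr := .node ⟨nat_lit 7, nat_lit 0x4800500060, nat_lit 0x111020, nat_lit 0, nat_lit 4, nat_lit 0x47⟩ (.nil) (.nil)
def t14_6628 : Tr := .node ⟨nat_lit 6, nat_lit 0x20001000280028, nat_lit 0x12110, nat_lit 4, nat_lit 4, nat_lit 0x47⟩ (.nil) (.nil)
def t14_14820 : Tr := .node ⟨nat_lit 8, nat_lit 0x800090006000b000d0, nat_lit 0x10000211, nat_lit 0, nat_lit 4, nat_lit 0x45⟩ (.nil) (.nil)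
def t14_1508 : Tr := .node ⟨nat_lit 7, nat_lit 0x40004800300068, nat_lit 0x1111112, nat_lit 1, nat_lit 4, nat_lit 0x47⟩ (.nil) (.nil)
def t14_9700 : Tr := .node ⟨nat_lit 9, nat_lit 0x100010001000080014001400120, nat_lit 0x11101110, nat_lit 2, nat_lit 4, nat_lit 0x49⟩ (.nil) (.nil)
def t14_5604 : Tr := .node ⟨nat_lit 9, nat_lit 0x4000800080010001900190, nat_lit 0x10001220, nat_lit 1, nat_lit 4, nat_lit 0x48⟩ (.nil) (.nil)
def t14_13796 : Tr := .node ⟨nat_lit 7, nat_lit 0x500060, nat_lit 0x101002, nat_lit 0, nat_lit 4, nat_lit 0x48⟩ (.nil) (.nil)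
def t14_3556 : Tr := .node ⟨nat_lit 6, nat_lit 0x300038, nat_lit 0x101012, nat_lit 0, nat_lit 4, nat_lit 0x46⟩ (.nil) (.nil)
def t14_11748 : Tr := .node ⟨nat_lit 6, nat_lit 0x2000080030, nat_lit 0x10040, nat_lit 1, nat_lit 4, nat_lit 0x47⟩ (.nil) (.nil)
def t14_7652 : Tr := .node ⟨nat_lit 6, nat_lit 0x1000200022, nat_lit 0x1012, nat_lit 1, nat_lit 4, nat_lit 0x46⟩ (.nil) (.nil)
def t14_996 : Tr := .node ⟨nat_lit 6, nat_lit 0x2000080030, nat_lit 0x1211, nat_lit 7, nat_lit 4, nat_lit 0x48⟩ (.nil) (.nil)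
def t14_9188 : Tr := .node ⟨nat_lit 6, nat_lit 0x20001000100028, nat_lit 0x2220, nat_lit 0, nat_lit 4, nat_lit 0x46⟩ (.nil) (.nil)
def t14_5092 : Tr := .node ⟨nat_lit 8, nat_lit 0x4000a000c000c0, nat_lit 0x110131, nat_lit 0, nat_lit 4, nat_lit 0x48⟩ (.nil) (.nil)
def t14_13284 : Tr := .node ⟨nat_lit 9, nat_lit 0x400100002001080180, nat_lit 0x102000, nat_lit 1, nat_lit 4, nat_lit 0x49⟩ (.nil) (.nil)
def t14_3044 : Tr := .node ⟨nat_lit 6, nat_lit 0x10002000200038, nat_lit 0x11211, nat_lit 4, nat_lit 4, nat_lit 0x47⟩ (.nil) (.nil)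
def t14_11236 : Tr := .node ⟨nat_lit 7, nat_lit 0x800700070, nat_lit 0x1001030, nat_lit 0, nat_lit 4, nat_lit 0x46⟩ (.nil) (.nil)
def t14_7140 : Tr := .node ⟨nat_lit 6, nat_lit 0x2000080030, nat_lit 0x111111, nat_lit 7, nat_lit 4, nat_lit 0x49⟩ (.nil) (.nil)
def t14_15332 : Tr := .node ⟨nat_lit 7, nat_lit 0x40004000400060, nat_lit 0x22101, nat_lit 1, nat_lit 3, nat_lit 0x47⟩ (.nil) (.nil)
def t14_2020 : Tr := .node ⟨nat_lit 7, nat_lit 0x40002000200020, nat_lit 0x20321, nat_lit 0, nat_lit 4, nat_lit 0x4a⟩ (.nil) (.nil)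
def t14_10212 : Tr := .node ⟨nat_lit 6, nat_lit 0x2000340034, nat_lit 0x1221, nat_lit 4, nat_lit 4, nat_lit 0x46⟩ (.nil) (.nil)
def t14_6116 : Tr := .node ⟨nat_lit 2, nat_lit 0, nat_lit 0x11, nat_lit 0xf, nat_lit 4, nat_lit 0x47⟩ (.nil) (.nil)
def t14_14308 : Tr := .node ⟨nat_lit 7, nat_lit 0x40006000680068, nat_lit 0x1011310, nat_lit 2, nat_lit 4, nat_lit 0x47⟩ (.nil) (.nil)
def t14_4068 : Tr := .node ⟨nat_lit 8, nat_lit 0x800040002000a000d0, nat_lit 0x1021001, nat_lit 0, nat_lit 4, nat_lit 0x47⟩ (.nil) (.nil)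
def t14_12260 : Tr := .node ⟨nat_lit 8, nat_lit 0x20008000c000c000c8, nat_lit 0x2301, nat_lit 1, nat_lit 4, nat_lit 0x47⟩ (.nil) (.nil)
def t14_8164 : Tr := .node ⟨nat_lit 7, nat_lit 0x40002000200048, nat_lit 0x12004, nat_lit 0, nat_lit 4, nat_lit 0x48⟩ (.nil) (.nil)
def t9_484 : Tr := .node ⟨nat_lit 5, nat_lit 0x18, nat_lit 0x31311, nat_lit 0, nat_lit 4, nat_lit 0x4a⟩ (.node ⟨nat_lit 5, nat_lit 0x10001c001c, nat_lit 0x31121, nat_lit 3, nat_lit 4, nat_lit 0x47⟩ (.node ⟨nat_lit 4, nat_lit 0x40008, nat_lit 0x1221, nat_lit 5, nat_lit 4, nat_lit 0x47⟩ (.node ⟨nat_lit 7, nat_lit 0x20004000440064, nat_lit 0x1021210, nat_lit 0, nat_lit 4, nat_lit 0x48⟩ (.node ⟨nat_lit 6, nat_lit 0x8000c0030, nat_lit 0x210021, nat_lit 0, nat_lit 4, nat_lit 0x46⟩ (t14_484) (t14_8676)) (.node ⟨nat_lit 9, nat_lit 0x100008000400020, nat_lit 0x220002, nat_lit 1, nat_lit 4,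 nat_lit 0x4c⟩ (t14_4580) (t14_12772))) (.node ⟨nat_lit 5, nat_lit 0x1000080018, nat_lit 0x11022, nat_lit 4, nat_lit 4, nat_lit 0x47⟩ (.node ⟨nat_lit 8, nat_lit 0x8000400020002000c0, nat_lit 0x11011103, nat_lit 0, nat_lit 4, nat_lit 0x49⟩ (t14_2532) (t14_10724)) (.node ⟨nat_lit 6, nat_lit 0x1000100020, nat_lit 0x102211, nat_lit 4, nat_lit 4, nat_lit 0x49⟩ (t14_6628) (t14_14820)))) (.node ⟨nat_lit 6, nat_lit 0xc0030, nat_lit 0x201010, nat_lit 0, nat_lit 4, nat_lit 0x46⟩ (.node ⟨nat_lit 6, nat_lit 0x800280030, nat_lit 0x121213, nat_lit 0, nat_lit 4, nat_lit 0x48⟩ (.node ⟨nat_lit 5, nat_lit 0x100018001c, nat_lit 0x10312, nat_lit 7, nat_lit 4, nat_lit 0x47⟩ (t14_1508) (t14_9700)) (.node ⟨nat_lit 6, nat_lit 0x2000200010, nat_lit 0x111220, nat_lit 6, nat_lit 4, nat_lit 0x4a⟩ (t14_5604) (t14_13796))) (.node ⟨nat_lit 7, nat_lit 0x2000200040, nat_lit 0x1021002,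 nat_lit 1, nat_lit 4, nat_lit 0x4a⟩ (.node ⟨nat_lit 4, nat_lit 0xc, nat_lit 0x10, nat_lit 4, nat_lit 4, nat_lit 0x44⟩ (t14_3556) (t14_11748)) (.node ⟨nat_lit 7, nat_lit 0x40001000500068, nat_lit 0x1002012, nat_lit 0, nat_lit 4, nat_lit 0x47⟩ (t14_7652) (.nil))))) (.node ⟨nat_lit 5, nat_lit 0x100018, nat_lit 0x303, nat_lit 1, nat_lit 4, nat_lit 0x46⟩ (.node ⟨nat_lit 6, nat_lit 0x200020, nat_lit 0x22220, nat_lit 0, nat_lit 4, nat_lit 0x4a⟩ (.node ⟨nat_lit 7, nat_lit 0x1000200040, nat_lit 0x1111111, nat_lit 0, nat_lit 3, nat_lit 0x48⟩ (.node ⟨nat_lit 5, nat_lit 0x100012, nat_lit 0x11131, nat_lit 5, nat_lit 4, nat_lit 0x49⟩ (t14_996) (t14_9188)) (.node ⟨nat_lit 8, nat_lit 0x80008000800040, nat_lit 0x1212110, nat_lit 0, nat_lit 4, nat_lit 0x4b⟩ (t14_5092) (t14_13284))) (.node ⟨nat_lit 5, nat_lit 0x800100018, nat_lit 0x10220, nat_lit 3, nat_lit 4, nat_lit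 0x46⟩ (.node ⟨nat_lit 6, nat_lit 0x300030, nat_lit 0x201111, nat_lit 2, nat_lit 3, nat_lit 0x47⟩ (t14_3044) (t14_11236)) (.node ⟨nat_lit 6, nat_lit 0x1000200030, nat_lit 0x101102, nat_lit 2, nat_lit 4, nat_lit 0x47⟩ (t14_7140) (t14_15332)))) (.node ⟨nat_lit 5, nat_lit 0x10001a, nat_lit 0x20111, nat_lit 7, nat_lit 4, nat_lit 0x48⟩ (.node ⟨nat_lit 7, nat_lit 0x400060, nat_lit 0x211111, nat_lit 3, nat_lit 4, nat_lit 0x4b⟩ (.node ⟨nat_lit 6, nat_lit 0x2000080030, nat_lit 0x102331, nat_lit 1, nat_lit 4, nat_lit 0x49⟩ (t14_2020) (t14_10212)) (.node ⟨nat_lit 4, nat_lit 0xc000c, nat_lit 0x1122, nat_lit 2, nat_lit 3, nat_lit 0x44⟩ (t14_6116) (t14_14308))) (.node ⟨nat_lit 6, nat_lit 0x800100020, nat_lit 0x122031, nat_lit 1, nat_lit 4, nat_lit 0x4a⟩ (.node ⟨nat_lit 7, nat_lit 0x4000500064, nat_lit 0x1000100, nat_lit 1, nat_lit 4, nat_lit 0x47⟩ (t14_4068)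 (t14_12260)) (.node ⟨nat_lit 9, nat_lit 0x80008001000040, nat_lit 0x10112100, nat_lit 2, nat_lit 4, nat_lit 0x4c⟩ (t14_8164) (.nil)))))
def t14_20 : Tr := .node ⟨nat_lit 6, nat_lit 0x1000200020, nat_lit 0x111110, nat_lit 5, nat_lit 4, nat_lit 0x49⟩ (.nil) (.nil)
def t14_8212 : Tr := .node ⟨nat_lit 8, nat_lit 0x8000400040009000d0, nat_lit 0x111013, nat_lit 0, nat_lit 4, nat_lit 0x47⟩ (.nil) (.nil)
def t14_4116 : Tr := .node ⟨nat_lit 6, nat_lit 0x200038, nat_lit 0x21122, nat_lit 1, nat_lit 4, nat_lit 0x48⟩ (.nil) (.nil)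
def t14_12308 : Tr := .node ⟨nat_lit 8, nat_lit 0x2000c000a000a0, nat_lit 0x12130, nat_lit 0, nat_lit 4, nat_lit 0x48⟩ (.nil) (.nil)
def t14_2068 : Tr := .node ⟨nat_lit 6, nat_lit 0x20001000100028, nat_lit 0x101320, nat_lit 0, nat_lit 4, nat_lit 0x47⟩ (.nil) (.nil)
def t14_10260 : Tr := .node ⟨nat_lit 7, nat_lit 0x40004800300068, nat_lit 0x1000120, nat_lit 0, nat_lit 4, nat_lit 0x45⟩ (.nil) (.nil)
def t14_6164 : Tr := .node ⟨nat_lit 7, nat_lit 0x20004000400044, nat_lit 0x10010, nat_lit 2, nat_lit 4, nat_lit 0x47⟩ (.nil) (.nil)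
def t14_14356 : Tr := .node ⟨nat_lit 6, nat_lit 0x200020, nat_lit 0x11, nat_lit 0, nat_lit 4, nat_lit 0x47⟩ (.nil) (.nil)
def t14_1044 : Tr := .node ⟨nat_lit 6, nat_lit 0x2000240030, nat_lit 0x1211, nat_lit 4, nat_lit 4, nat_lit 0x47⟩ (.nil) (.nil)
def t14_9236 : Tr := .node ⟨nat_lit 7, nat_lit 0x400040005000500060, nat_lit 0x112111, nat_lit 4, nat_lit 4, nat_lit 0x48⟩ (.nil) (.nil)
def t14_5140 : Tr := .node ⟨nat_lit 8, nat_lit 0x80008000400040009000e0, nat_lit 0x113011, nat_lit 0, nat_lit 4, nat_lit 0x47⟩ (.nil) (.nil)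
def t14_13332 : Tr := .node ⟨nat_lit 7, nat_lit 0x10005000600060, nat_lit 0x230, nat_lit 2, nat_lit 4, nat_lit 0x46⟩ (.nil) (.nil)
def t14_3092 : Tr := .node ⟨nat_lit 7, nat_lit 0x10001000400060, nat_lit 0x1102110, nat_lit 0, nat_lit 4, nat_lit 0x48⟩ (.nil) (.nil)
def t14_11284 : Tr := .node ⟨nat_lit 8, nat_lit 0x80002000c000c0, nat_lit 0x1011020, nat_lit 2, nat_lit 4, nat_lit 0x49⟩ (.nil) (.nil)
def t14_7188 : Tr := .node ⟨nat_lit 8, nat_lit 0x800020002000c0, nat_lit 0x10111111, nat_lit 1, nat_lit 4, nat_lit 0x4a⟩ (.nil) (.nil)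
def t14_15380 : Tr := .node ⟨nat_lit 7, nat_lit 0x4000100060, nat_lit 0x11200, nat_lit 4, nat_lit 4, nat_lit 0x49⟩ (.nil) (.nil)
def t14_532 : Tr := .node ⟨nat_lit 8, nat_lit 0x400080008000880050, nat_lit 0x220002, nat_lit 1, nat_lit 4, nat_lit 0x48⟩ (.nil) (.nil)
def t14_8724 : Tr := .node ⟨nat_lit 7, nat_lit 0x20002000500068, nat_lit 0x2001, nat_lit 0, nat_lit 4, nat_lit 0x46⟩ (.nil) (.nil)
def t14_4628 : Tr := .node ⟨nat_lit 7, nat_lit 0x40001000100060, nat_lit 0x1012201, nat_lit 2, nat_lit 4, nat_lit 0x49⟩ (.nil) (.nil)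
def t14_12820 : Tr := .node ⟨nat_lit 7, nat_lit 0x40002000500060, nat_lit 0x10320, nat_lit 0, nat_lit 4, nat_lit 0x47⟩ (.nil) (.nil)
def t14_2580 : Tr := .node ⟨nat_lit 7, nat_lit 0x40001000100060, nat_lit 0x1100212, nat_lit 0, nat_lit 4, nat_lit 0x48⟩ (.nil) (.nil)
def t14_10772 : Tr := .node ⟨nat_lit 6, nat_lit 0x80030, nat_lit 0x112, nat_lit 0, nat_lit 4, nat_lit 0x46⟩ (.nil) (.nil)
def t14_6676 : Tr := .node ⟨nat_lit 9, nat_lit 0x800100010000400108, nat_lit 0x1100010, nat_lit 3, nat_lit 4, nat_lit 0x4a⟩ (.nil) (.nil)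
def t14_14868 : Tr := .node ⟨nat_lit 6, nat_lit 0x20002000200028, nat_lit 0x11111, nat_lit 0xb, nat_lit 4, nat_lit 0x49⟩ (.nil) (.nil)
def t14_1556 : Tr := .node ⟨nat_lit 6, nat_lit 0x20002000100010, nat_lit 0x101120, nat_lit 1, nat_lit 3, nat_lit 0x46⟩ (.nil) (.nil)
def t14_9748 : Tr := .node ⟨nat_lit 7, nat_lit 0x500060, nat_lit 0x1102, nat_lit 0, nat_lit 3, nat_lit 0x47⟩ (.nil) (.nil)
def t14_5652 : Tr := .node ⟨nat_lit 8, nat_lit 0x20008000c000c0, nat_lit 0x10120, nat_lit 1, nat_lit 4, nat_lit 0x48⟩ (.nil) (.nil)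
def t14_13844 : Tr := .node ⟨nat_lit 9, nat_lit 0x200100008001400188, nat_lit 0x2200, nat_lit 0, nat_lit 4, nat_lit 0x48⟩ (.nil) (.nil)
def t14_3604 : Tr := .node ⟨nat_lit 7, nat_lit 0x30006000500070, nat_lit 0x1001213, nat_lit 0, nat_lit 4, nat_lit 0x45⟩ (.nil) (.nil)
def t14_11796 : Tr := .node ⟨nat_lit 7, nat_lit 0x40004000480030, nat_lit 0x101003, nat_lit 2, nat_lit 4, nat_lit 0x47⟩ (.nil) (.nil)
def t14_7700 : Tr := .node ⟨nat_lit 5, nat_lit 0x100012, nat_lit 0x1102, nat_lit 4, nat_lit 4, nat_lit 0x46⟩ (.nil) (.nil)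
def t9_20 : Tr := .node ⟨nat_lit 5, nat_lit 0x18, nat_lit 0x31221, nat_lit 2, nat_lit 4, nat_lit 0x4a⟩ (.node ⟨nat_lit 4, nat_lit 8, nat_lit 0x1314, nat_lit 0, nat_lit 3, nat_lit 0x47⟩ (.node ⟨nat_lit 6, nat_lit 0x2800280030, nat_lit 0x30201, nat_lit 5, nat_lit 4, nat_lit 0x47⟩ (.node ⟨nat_lit 5, nat_lit 0x100018, nat_lit 0x11202, nat_lit 2, nat_lit 4, nat_lit 0x47⟩ (.node ⟨nat_lit 6, nat_lit 0x20002000200010, nat_lit 0x22103, nat_lit 3, nat_lit 4, nat_lit 0x49⟩ (t14_20) (t14_8212)) (.node ⟨nat_lit 5, nat_lit 0x800100012, nat_lit 0x11100, nat_lit 2, nat_lit 4, nat_lit 0x45⟩ (t14_4116) (t14_12308))) (.node ⟨nat_lit 5, nat_lit 0x40018, nat_lit 0x31103, nat_lit 0, nat_lit 4, nat_lit 0x48⟩ (.node ⟨nat_lit 6, nat_lit 0x2000100010, nat_lit 0x211031, nat_lit 0, nat_lit 3, nat_lit 0x48⟩ (t14_2068) (t14_10260)) (.node ⟨nat_lit 7, nat_lit 0x40002000640064,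 nat_lit 0x122110, nat_lit 0, nat_lit 4, nat_lit 0x47⟩ (t14_6164) (t14_14356)))) (.node ⟨nat_lit 4, nat_lit 0x8000c, nat_lit 0x2110, nat_lit 2, nat_lit 3, nat_lit 0x45⟩ (.node ⟨nat_lit 6, nat_lit 0x1000200030, nat_lit 0x211221, nat_lit 0, nat_lit 4, nat_lit 0x49⟩ (.node ⟨nat_lit 6, nat_lit 0xc0030, nat_lit 0x111111, nat_lit 0, nat_lit 4, nat_lit 0x47⟩ (t14_1044) (t14_9236)) (.node ⟨nat_lit 6, nat_lit 0x2000200020, nat_lit 0x121200, nat_lit 1, nat_lit 3, nat_lit 0x48⟩ (t14_5140) (t14_13332))) (.node ⟨nat_lit 5, nat_lit 0x1000080014, nat_lit 0x21202, nat_lit 3, nat_lit 4, nat_lit 0x48⟩ (.node ⟨nat_lit 7, nat_lit 0x20004000440070, nat_lit 0x120113, nat_lit 0, nat_lit 4, nat_lit 0x47⟩ (t14_3092) (t14_11284)) (.node ⟨nat_lit 6, nat_lit 0x2000100010, nat_lit 0x201022, nat_lit 0, nat_lit 3, nat_lit 0x47⟩ (t14_7188) (t14_15380))))) (.node ⟨nat_lit 4, nat_lit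 0xc, nat_lit 0x2220, nat_lit 0, nat_lit 3, nat_lit 0x46⟩ (.node ⟨nat_lit 5, nat_lit 0x80010, nat_lit 0x21221, nat_lit 0, nat_lit 4, nat_lit 0x48⟩ (.node ⟨nat_lit 5, nat_lit 0x100010, nat_lit 0x12111, nat_lit 6, nat_lit 4, nat_lit 0x49⟩ (.node ⟨nat_lit 8, nat_lit 0x8000400084, nat_lit 0x11211010, nat_lit 0, nat_lit 4, nat_lit 0x4b⟩ (t14_532) (t14_8724)) (.node ⟨nat_lit 6, nat_lit 0x20001000100030, nat_lit 0x111212, nat_lit 0, nat_lit 3, nat_lit 0x46⟩ (t14_4628) (t14_12820))) (.node ⟨nat_lit 7, nat_lit 0x10004000600064, nat_lit 0x100121, nat_lit 1, nat_lit 4, nat_lit 0x46⟩ (.node ⟨nat_lit 4, nat_lit 0x8000c, nat_lit 0x1130, nat_lit 0xd, nat_lit 4, nat_lit 0x48⟩ (t14_2580) (t14_10772)) (.node ⟨nat_lit 7, nat_lit 0x20002000400062, nat_lit 0x2012210, nat_lit 1, nat_lit 4, nat_lit 0x49⟩ (t14_6676) (t14_14868)))) (.node ⟨nat_lit 5, nat_lit 0x40018, nat_lit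 0x21121, nat_lit 4, nat_lit 4, nat_lit 0x48⟩ (.node ⟨nat_lit 5, nat_lit 0x10001a, nat_lit 0x23111, nat_lit 3, nat_lit 4, nat_lit 0x49⟩ (.node ⟨nat_lit 7, nat_lit 0x1000400060, nat_lit 0x1001031, nat_lit 1, nat_lit 4, nat_lit 0x49⟩ (t14_1556) (t14_9748)) (.node ⟨nat_lit 6, nat_lit 0x800080030, nat_lit 0x221102, nat_lit 0, nat_lit 4, nat_lit 0x49⟩ (t14_5652) (t14_13844))) (.node ⟨nat_lit 5, nat_lit 0x40018, nat_lit 0x20002, nat_lit 6, nat_lit 4, nat_lit 0x47⟩ (.node ⟨nat_lit 6, nat_lit 0x10002000340038, nat_lit 0x110000, nat_lit 3, nat_lit 4, nat_lit 0x45⟩ (t14_3604) (t14_11796)) (.node ⟨nat_lit 9, nat_lit 0x800100004000200108, nat_lit 0x100102000, nat_lit 1, nat_lit 4, nat_lit 0x4a⟩ (t14_7700) (.nil)))))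
def t14_276 : Tr := .node ⟨nat_lit 8, nat_lit 0x2000a0006000c0, nat_lit 0x1012211, nat_lit 0, nat_lit 4, nat_lit 0x48⟩ (.nil) (.nil)
def t14_8468 : Tr := .node ⟨nat_lit 8, nat_lit 0x20004000a000c0, nat_lit 0x12, nat_lit 0, nat_lit 4, nat_lit 0x47⟩ (.nil) (.nil)
def t14_4372 : Tr := .node ⟨nat_lit 7, nat_lit 0x200020004000440030, nat_lit 0x2111021, nat_lit 1, nat_lit 4, nat_lit 0x48⟩ (.nil) (.nil)
def t14_12564 : Tr := .node ⟨nat_lit 7, nat_lit 0x20006000500068, nat_lit 0x101401, nat_lit 2, nat_lit 4, nat_lit 0x47⟩ (.nil) (.nil)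
def t14_2324 : Tr := .node ⟨nat_lit 6, nat_lit 0x2000080034, nat_lit 0x21210, nat_lit 0, nat_lit 4, nat_lit 0x47⟩ (.nil) (.nil)
def t14_10516 : Tr := .node ⟨nat_lit 7, nat_lit 0x1800500060, nat_lit 0x1101020, nat_lit 0, nat_lit 4, nat_lit 0x47⟩ (.nil) (.nil)
def t14_6420 : Tr := .node ⟨nat_lit 7, nat_lit 0x4000100060, nat_lit 0x1111110, nat_lit 0, nat_lit 4, nat_lit 0x49⟩ (.nil) (.nil)
def t14_14612 : Tr := .node ⟨nat_lit 7, nat_lit 0x200040004000400048, nat_lit 0x1111, nat_lit 0xa, nat_lit 4, nat_lit 0x49⟩ (.nil) (.nil)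
def t14_1300 : Tr := .node ⟨nat_lit 6, nat_lit 0x10002000200034, nat_lit 0x101112, nat_lit 5, nat_lit 4, nat_lit 0x47⟩ (.nil) (.nil)
def t14_9492 : Tr := .node ⟨nat_lit 8, nat_lit 0x800020009000c000c0, nat_lit 0x1111121, nat_lit 0, nat_lit 4, nat_lit 0x48⟩ (.nil) (.nil)
def t14_5396 : Tr := .node ⟨nat_lit 6, nat_lit 0x300030, nat_lit 0x101132, nat_lit 2, nat_lit 4, nat_lit 0x48⟩ (.nil) (.nil)
def t14_13588 : Tr := .node ⟨nat_lit 7, nat_lit 0x10002000400064, nat_lit 0x1210, nat_lit 0, nat_lit 4, nat_lit 0x46⟩ (.nil) (.nil)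
def t14_3348 : Tr := .node ⟨nat_lit 7, nat_lit 0x40002000200010, nat_lit 0x100212, nat_lit 1, nat_lit 3, nat_lit 0x47⟩ (.nil) (.nil)
def t14_11540 : Tr := .node ⟨nat_lit 6, nat_lit 0x10002000240018, nat_lit 0x103002, nat_lit 3, nat_lit 4, nat_lit 0x47⟩ (.nil) (.nil)
def t14_7444 : Tr := .node ⟨nat_lit 8, nat_lit 0x80002000c0, nat_lit 0x11111101, nat_lit 1, nat_lit 4, nat_lit 0x4b⟩ (.nil) (.nil)
def t14_788 : Tr := .node ⟨nat_lit 7, nat_lit 0x40001000100060, nat_lit 0x1001311, nat_lit 1, nat_lit 4, nat_lit 0x48⟩ (.nil) (.nil)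
def t14_8980 : Tr := .node ⟨nat_lit 0xa, nat_lit 0x100020002000080022002200210, nat_lit 0x110201, nat_lit 1, nat_lit 4, nat_lit 0x49⟩ (.nil) (.nil)
def t14_4884 : Tr := .node ⟨nat_lit 5, nat_lit 0x100010, nat_lit 0x11110, nat_lit 0xd, nat_lit 4, nat_lit 0x4a⟩ (.nil) (.nil)
def t14_13076 : Tr := .node ⟨nat_lit 7, nat_lit 0x40001000500060, nat_lit 0x113, nat_lit 0, nat_lit 4, nat_lit 0x46⟩ (.nil) (.nil)
def t14_2836 : Tr := .node ⟨nat_lit 6, nat_lit 0x1000100020, nat_lit 0x12000, nat_lit 0, nat_lit 4, nat_lit 0x47⟩ (.nil) (.nil)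
def t14_11028 : Tr := .node ⟨nat_lit 7, nat_lit 0x4000600060, nat_lit 0x1011120, nat_lit 3, nat_lit 4, nat_lit 0x49⟩ (.nil) (.nil)
def t14_6932 : Tr := .node ⟨nat_lit 6, nat_lit 0x2000340038, nat_lit 0x210121, nat_lit 3, nat_lit 4, nat_lit 0x47⟩ (.nil) (.nil)
def t14_15124 : Tr := .node ⟨nat_lit 7, nat_lit 0x40004800300068, nat_lit 0x1110, nat_lit 1, nat_lit 4, nat_lit 0x45⟩ (.nil) (.nil)
def t14_1812 : Tr := .node ⟨nat_lit 6, nat_lit 0x800300028, nat_lit 0x112102, nat_lit 1, nat_lit 4, nat_lit 0x48⟩ (.nil) (.nil)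
def t14_10004 : Tr := .node ⟨nat_lit 7, nat_lit 0x20005000500060, nat_lit 0x101203, nat_lit 2, nat_lit 4, nat_lit 0x47⟩ (.nil) (.nil)
def t14_5908 : Tr := .node ⟨nat_lit 9, nat_lit 0x1000100008000800080, nat_lit 0x1110210, nat_lit 1, nat_lit 4, nat_lit 0x4b⟩ (.nil) (.nil)
def t14_14100 : Tr := .node ⟨nat_lit 5, nat_lit 0x800080010, nat_lit 0x111, nat_lit 5, nat_lit 4, nat_lit 0x46⟩ (.nil) (.nil)
def t14_3860 : Tr := .node ⟨nat_lit 7, nat_lit 0x2000500060, nat_lit 0x1111012, nat_lit 1, nat_lit 4, nat_lit 0x49⟩ (.nil) (.nil)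
def t14_12052 : Tr := .node ⟨nat_lit 5, nat_lit 0x800100018, nat_lit 0x10200, nat_lit 5, nat_lit 4, nat_lit 0x46⟩ (.nil) (.nil)
def t14_7956 : Tr := .node ⟨nat_lit 7, nat_lit 0x200040003000480060, nat_lit 0x12031, nat_lit 0, nat_lit 4, nat_lit 0x46⟩ (.nil) (.nil)
def t9_276 : Tr := .node ⟨nat_lit 4, nat_lit 0, nat_lit 0x3211, nat_lit 2, nat_lit 3, nat_lit 0x48⟩ (.node ⟨nat_lit 6, nat_lit 0x2000240024, nat_lit 0x321121, nat_lit 1, nat_lit 4, nat_lit 0x4a⟩ (.node ⟨nat_lit 7, nat_lit 0x4000600064, nat_lit 0x1031120, nat_lit 0, nat_lit 4, nat_lit 0x49⟩ (.node ⟨nat_lit 7, nat_lit 0x6000600050, nat_lit 0x12103, nat_lit 0, nat_lit 4, nat_lit 0x47⟩ (.node ⟨nat_lit 5, nat_lit 0x100018001c, nat_lit 0x21121, nat_lit 5, nat_lit 4, nat_lit 0x47⟩ (t14_276) (t14_8468)) (.node ⟨nat_lit 6, nat_lit 0x2000100010, nat_lit 0x11040, nat_lit 4, nat_lit 3, nat_lit 0x48⟩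 (t14_4372) (t14_12564))) (.node ⟨nat_lit 5, nat_lit 0x1000140018, nat_lit 0x20222, nat_lit 6, nat_lit 4, nat_lit 0x48⟩ (.node ⟨nat_lit 7, nat_lit 0x40001000600050, nat_lit 0x13203, nat_lit 1, nat_lit 4, nat_lit 0x48⟩ (t14_2324) (t14_10516)) (.node ⟨nat_lit 6, nat_lit 0x800300038, nat_lit 0x110030, nat_lit 0, nat_lit 4, nat_lit 0x46⟩ (t14_6420) (t14_14612)))) (.node ⟨nat_lit 3, nat_lit 6, nat_lit 0x213, nat_lit 7, nat_lit 4, nat_lit 0x46⟩ (.node ⟨nat_lit 6, nat_lit 0x100020, nat_lit 0x221111, nat_lit 4, nat_lit 4, nat_lit 0x4b⟩ (.node ⟨nat_lit 6, nat_lit 0x2000100024, nat_lit 0x111104, nat_lit 0, nat_lit 4, nat_lit 0x48⟩ (t14_1300) (t14_9492)) (.node ⟨nat_lit 5, nat_lit 0x140018, nat_lit 0x12121, nat_lit 7, nat_lit 4, nat_lit 0x48⟩ (t14_5396) (t14_13588))) (.node ⟨nat_lit 6, nat_lit 0x2000080030, nat_lit 0x201200, nat_lit 1, nat_lit 3, nat_lit 0x47⟩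 (.node ⟨nat_lit 7, nat_lit 0x40004000100060, nat_lit 0x111003, nat_lit 0, nat_lit 4, nat_lit 0x48⟩ (t14_3348) (t14_11540)) (.node ⟨nat_lit 7, nat_lit 0x4000400060, nat_lit 0x1121112, nat_lit 0, nat_lit 4, nat_lit 0x4a⟩ (t14_7444) (.nil))))) (.node ⟨nat_lit 7, nat_lit 0x40004000480068, nat_lit 0x130001, nat_lit 3, nat_lit 4, nat_lit 0x48⟩ (.node ⟨nat_lit 6, nat_lit 0x2000080030, nat_lit 0x102120, nat_lit 1, nat_lit 4, nat_lit 0x48⟩ (.node ⟨nat_lit 3, nat_lit 4, nat_lit 0x110, nat_lit 3, nat_lit 4, nat_lit 0x43⟩ (.node ⟨nat_lit 8, nat_lit 0x8000200040, nat_lit 0x2121010, nat_lit 1, nat_lit 4, nat_lit 0x4c⟩ (t14_788) (t14_8980)) (.node ⟨nat_lit 7, nat_lit 0x10002000200040, nat_lit 0x1111201, nat_lit 4, nat_lit 4, nat_lit 0x4a⟩ (t14_4884) (t14_13076))) (.node ⟨nat_lit 7, nat_lit 0x4000200060, nat_lit 0x111022, nat_lit 0, nat_lit 4, nat_lit 0x49⟩ (.node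 ⟨nat_lit 8, nat_lit 0x80008000400040, nat_lit 0x1111030, nat_lit 2, nat_lit 4, nat_lit 0x4b⟩ (t14_2836) (t14_11028)) (.node ⟨nat_lit 9, nat_lit 0x1000080008000400040, nat_lit 0x10102210, nat_lit 0, nat_lit 4, nat_lit 0x4b⟩ (t14_6932) (t14_15124)))) (.node ⟨nat_lit 5, nat_lit 0x40018, nat_lit 0x20111, nat_lit 3, nat_lit 3, nat_lit 0x46⟩ (.node ⟨nat_lit 7, nat_lit 0x4000100060, nat_lit 0x2011111, nat_lit 3, nat_lit 4, nat_lit 0x4a⟩ (.node ⟨nat_lit 6, nat_lit 0x1000200038, nat_lit 0x1033, nat_lit 1, nat_lit 4, nat_lit 0x46⟩ (t14_1812) (t14_10004)) (.node ⟨nat_lit 7, nat_lit 0x40003000580068, nat_lit 0x2110210, nat_lit 1, nat_lit 4, nat_lit 0x47⟩ (t14_5908) (t14_14100))) (.node ⟨nat_lit 7, nat_lit 0x40002000480060, nat_lit 0x21012, nat_lit 1, nat_lit 4, nat_lit 0x47⟩ (.node ⟨nat_lit 6, nat_lit 0x1000280030, nat_lit 0x11110, nat_lit 0, nat_lit 4, nat_lit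 0x46⟩ (t14_3860) (t14_12052)) (.node ⟨nat_lit 6, nat_lit 0x200030, nat_lit 0x111130, nat_lit 0, nat_lit 4, nat_lit 0x49⟩ (t14_7956) (.nil)))))
def t14_148 : Tr := .node ⟨nat_lit 7, nat_lit 0x20006000500068, nat_lit 0x1110211, nat_lit 1, nat_lit 4, nat_lit 0x47⟩ (.nil) (.nil)
def t14_8340 : Tr := .node ⟨nat_lit 4, nat_lit 0x80004, nat_lit 0, nat_lit 2, nat_lit 4, nat_lit 0x42⟩ (.nil) (.nil)
def t14_4244 : Tr := .node ⟨nat_lit 7, nat_lit 0x10004000200062, nat_lit 0x200121, nat_lit 1, nat_lit 4, nat_lit 0x48⟩ (.nil) (.nil)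
def t14_12436 : Tr := .node ⟨nat_lit 8, nat_lit 0x40008000c400e0, nat_lit 0x11103, nat_lit 0, nat_lit 4, nat_lit 0x47⟩ (.nil) (.nil)
def t14_2196 : Tr := .node ⟨nat_lit 8, nat_lit 0x800040002000a000c8, nat_lit 0x2021020, nat_lit 0, nat_lit 4, nat_lit 0x48⟩ (.nil) (.nil)
def t14_10388 : Tr := .node ⟨nat_lit 7, nat_lit 0x400050005000600070, nat_lit 0x1000022, nat_lit 4, nat_lit 4, nat_lit 0x46⟩ (.nil) (.nil)
def t14_6292 : Tr := .node ⟨nat_lit 6, nat_lit 0x20001000100010, nat_lit 0x220, nat_lit 5, nat_lit 4, nat_lit 0x48⟩ (.nil) (.nil)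
def t14_14484 : Tr := .node ⟨nat_lit 8, nat_lit 0x8000c000c800c8, nat_lit 0x111210, nat_lit 0, nat_lit 4, nat_lit 0x47⟩ (.nil) (.nil)
def t14_1172 : Tr := .node ⟨nat_lit 6, nat_lit 0x1800280030, nat_lit 0x100211, nat_lit 3, nat_lit 4, nat_lit 0x45⟩ (.nil) (.nil)
def t14_9364 : Tr := .node ⟨nat_lit 8, nat_lit 0x8000c000a000c8, nat_lit 0x1012211, nat_lit 0, nat_lit 4, nat_lit 0x48⟩ (.nil) (.nil)
def t14_5268 : Tr := .node ⟨nat_lit 7, nat_lit 0x40001000100060, nat_lit 0x1203100, nat_lit 0, nat_lit 4, nat_lit 0x49⟩ (.nil) (.nil)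
def t14_13460 : Tr := .node ⟨nat_lit 5, nat_lit 0x100018, nat_lit 0x230, nat_lit 7, nat_lit 4, nat_lit 0x48⟩ (.nil) (.nil)
def t14_3220 : Tr := .node ⟨nat_lit 9, nat_lit 0x10000800080012001800190, nat_lit 0x1111020, nat_lit 0, nat_lit 4, nat_lit 0x48⟩ (.nil) (.nil)
def t14_11412 : Tr := .node ⟨nat_lit 7, nat_lit 0x10001000200040, nat_lit 0x1010010, nat_lit 1, nat_lit 4, nat_lit 0x48⟩ (.nil) (.nil)
def t14_7316 : Tr := .node ⟨nat_lit 8, nat_lit 0x800080008000400040, nat_lit 0x1120021, nat_lit 0, nat_lit 4, nat_lit 0x4a⟩ (.nil) (.nil)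
def t14_15508 : Tr := .node ⟨nat_lit 9, nat_lit 0x4001000100011000c00190, nat_lit 0x110001012, nat_lit 0, nat_lit 4, nat_lit 0x48⟩ (.nil) (.nil)
def t14_660 : Tr := .node ⟨nat_lit 7, nat_lit 0x1000400060, nat_lit 0x201031, nat_lit 0, nat_lit 4, nat_lit 0x49⟩ (.nil) (.nil)
def t14_8852 : Tr := .node ⟨nat_lit 7, nat_lit 0x40003000580068, nat_lit 0x1001300, nat_lit 0, nat_lit 4, nat_lit 0x45⟩ (.nil) (.nil)
def t14_4756 : Tr := .node ⟨nat_lit 8, nat_lit 0x2000800040008800c0, nat_lit 0x10001203, nat_lit 0, nat_lit 4, nat_lit 0x48⟩ (.nil) (.nil)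
def t14_12948 : Tr := .node ⟨nat_lit 8, nat_lit 0x40008000c0, nat_lit 0x111020, nat_lit 0, nat_lit 4, nat_lit 0x4a⟩ (.nil) (.nil)
def t14_2708 : Tr := .node ⟨nat_lit 7, nat_lit 0x800700070, nat_lit 0x1001031, nat_lit 0, nat_lit 4, nat_lit 0x46⟩ (.nil) (.nil)
def t14_10900 : Tr := .node ⟨nat_lit 8, nat_lit 0x800040004000a000a000c0, nat_lit 0x121003, nat_lit 0, nat_lit 4, nat_lit 0x47⟩ (.nil) (.nil)
def t14_6804 : Tr := .node ⟨nat_lit 7, nat_lit 0x4000600050, nat_lit 0x21110, nat_lit 1, nat_lit 4, nat_lit 0x48⟩ (.nil) (.nil)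
def t14_14996 : Tr := .node ⟨nat_lit 8, nat_lit 0x800090009000c000a0, nat_lit 0x111101, nat_lit 5, nat_lit 4, nat_lit 0x48⟩ (.nil) (.nil)
def t14_1684 : Tr := .node ⟨nat_lit 8, nat_lit 0x8000800040004000c0, nat_lit 0x121102, nat_lit 0, nat_lit 4, nat_lit 0x49⟩ (.nil) (.nil)
def t14_9876 : Tr := .node ⟨nat_lit 4, nat_lit 0x800080008, nat_lit 0x321, nat_lit 0xb, nat_lit 4, nat_lit 0x48⟩ (.nil) (.nil)
def t14_5780 : Tr := .node ⟨nat_lit 3, nat_lit 4, nat_lit 0x11, nat_lit 9, nat_lit 4, nat_lit 0x45⟩ (.nil) (.nil)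
def t14_13972 : Tr := .node ⟨nat_lit 7, nat_lit 0x4000200064, nat_lit 0x11210, nat_lit 1, nat_lit 4, nat_lit 0x48⟩ (.nil) (.nil)
def t14_3732 : Tr := .node ⟨nat_lit 8, nat_lit 0x40008000800060009000e0, nat_lit 0x2121010, nat_lit 0, nat_lit 4, nat_lit 0x48⟩ (.nil) (.nil)
def t14_11924 : Tr := .node ⟨nat_lit 6, nat_lit 0x2000100024, nat_lit 0x1320, nat_lit 0, nat_lit 4, nat_lit 0x47⟩ (.nil) (.nil)
def t14_7828 : Tr := .node ⟨nat_lit 7, nat_lit 0x40001000200048, nat_lit 0x102013, nat_lit 2, nat_lit 4, nat_lit 0x48⟩ (.nil) (.nil)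
def t9_148 : Tr := .node ⟨nat_lit 6, nat_lit 0x20, nat_lit 0x311111, nat_lit 0, nat_lit 4, nat_lit 0x4b⟩ (.node ⟨nat_lit 5, nat_lit 0x800100010, nat_lit 0x11110, nat_lit 0, nat_lit 3, nat_lit 0x45⟩ (.node ⟨nat_lit 7, nat_lit 0x400020005000500070, nat_lit 0x3001002, nat_lit 1, nat_lit 4, nat_lit 0x47⟩ (.node ⟨nat_lit 6, nat_lit 0x20, nat_lit 0x21101, nat_lit 0, nat_lit 4, nat_lit 0x49⟩ (.node ⟨nat_lit 7, nat_lit 0x40004000100060, nat_lit 0x122120, nat_lit 0, nat_lit 4, nat_lit 0x49⟩ (t14_148) (t14_8340)) (.node ⟨nat_lit 8, nat_lit 0x400080002000c000e0, nat_lit 0x100023, nat_lit 2, nat_lit 4, nat_lit 0x47⟩ (t14_4244) (t14_12436))) (.node ⟨nat_lit 6, nat_lit 0x2000200020, nat_lit 0x21111, nat_lit 3, nat_lit 4, nat_lit 0x49⟩ (.node ⟨nat_lit 6, nat_lit 0x2000080030, nat_lit 0x1320, nat_lit 1, nat_lit 4, nat_lit 0x47⟩ (t14_2196) (t14_10388)) (.node ⟨nat_lit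 7, nat_lit 0x600060, nat_lit 0x1121120, nat_lit 0, nat_lit 4, nat_lit 0x4a⟩ (t14_6292) (t14_14484)))) (.node ⟨nat_lit 5, nat_lit 0x1000100010, nat_lit 0x2210, nat_lit 4, nat_lit 3, nat_lit 0x46⟩ (.node ⟨nat_lit 6, nat_lit 0x300030, nat_lit 0x211121, nat_lit 1, nat_lit 4, nat_lit 0x49⟩ (.node ⟨nat_lit 7, nat_lit 0x20004000100044, nat_lit 0x1000300, nat_lit 5, nat_lit 4, nat_lit 0x49⟩ (t14_1172) (t14_9364)) (.node ⟨nat_lit 7, nat_lit 0x2000400060, nat_lit 0x1121121, nat_lit 0, nat_lit 4, nat_lit 0x4a⟩ (t14_5268) (t14_13460))) (.node ⟨nat_lit 6, nat_lit 0x10002000200034, nat_lit 0x12200, nat_lit 5, nat_lit 4, nat_lit 0x47⟩ (.node ⟨nat_lit 7, nat_lit 0x20004000100060, nat_lit 0x123110, nat_lit 0, nat_lit 4, nat_lit 0x49⟩ (t14_3220) (t14_11412)) (.node ⟨nat_lit 7, nat_lit 0x800600050, nat_lit 0x1001110, nat_lit 0, nat_lit 4, nat_lit 0x47⟩ (t14_7316)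 (t14_15508))))) (.node ⟨nat_lit 6, nat_lit 0x2000200010, nat_lit 0x32102, nat_lit 0, nat_lit 4, nat_lit 0x4a⟩ (.node ⟨nat_lit 7, nat_lit 0x40002000200010, nat_lit 0x20102, nat_lit 3, nat_lit 4, nat_lit 0x49⟩ (.node ⟨nat_lit 6, nat_lit 0x2000200034, nat_lit 0x12121, nat_lit 2, nat_lit 4, nat_lit 0x48⟩ (.node ⟨nat_lit 7, nat_lit 0x5000500060, nat_lit 0x1201211, nat_lit 0, nat_lit 4, nat_lit 0x48⟩ (t14_660) (t14_8852)) (.node ⟨nat_lit 7, nat_lit 0x400020005000700068, nat_lit 0x112101, nat_lit 3, nat_lit 4, nat_lit 0x46⟩ (t14_4756) (t14_12948))) (.node ⟨nat_lit 5, nat_lit 0x80010001a, nat_lit 0x11212, nat_lit 3, nat_lit 4, nat_lit 0x46⟩ (.node ⟨nat_lit 4, nat_lit 0x80008, nat_lit 0x1240, nat_lit 5, nat_lit 3, nat_lit 0x47⟩ (t14_2708) (t14_10900)) (.node ⟨nat_lit 7, nat_lit 0x20004000400040, nat_lit 0x112111, nat_lit 0, nat_lit 4, nat_lit 0x49⟩ (t14_6804)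 (t14_14996)))) (.node ⟨nat_lit 2, nat_lit 0, nat_lit 0x21, nat_lit 0xf, nat_lit 4, nat_lit 0x47⟩ (.node ⟨nat_lit 6, nat_lit 0x30, nat_lit 0x201111, nat_lit 3, nat_lit 4, nat_lit 0x4a⟩ (.node ⟨nat_lit 6, nat_lit 0x1000280034, nat_lit 0x11013, nat_lit 1, nat_lit 4, nat_lit 0x45⟩ (t14_1684) (t14_9876)) (.node ⟨nat_lit 7, nat_lit 0x40004000440048, nat_lit 0x221110, nat_lit 3, nat_lit 4, nat_lit 0x49⟩ (t14_5780) (t14_13972))) (.node ⟨nat_lit 7, nat_lit 0x4800600070, nat_lit 0x20212, nat_lit 0, nat_lit 4, nat_lit 0x46⟩ (.node ⟨nat_lit 6, nat_lit 0x300038, nat_lit 0x101103, nat_lit 0, nat_lit 4, nat_lit 0x46⟩ (t14_3732) (t14_11924)) (.node ⟨nat_lit 5, nat_lit 0x1000100018, nat_lit 0x11221, nat_lit 4, nat_lit 3, nat_lit 0x46⟩ (t14_7828) (.nil)))))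
def t14_404 : Tr := .node ⟨nat_lit 8, nat_lit 0x800080, nat_lit 0x12111111, nat_lit 0, nat_lit 4, nat_lit 0x4d⟩ (.nil) (.nil)
def t14_8596 : Tr := .node ⟨nat_lit 6, nat_lit 0x20001000280038, nat_lit 0x1110, nat_lit 4, nat_lit 4, nat_lit 0x45⟩ (.nil) (.nil)
def t14_4500 : Tr := .node ⟨nat_lit 6, nat_lit 0x800300030, nat_lit 0x210031, nat_lit 2, nat_lit 4, nat_lit 0x48⟩ (.nil) (.nil)
def t14_12692 : Tr := .node ⟨nat_lit 7, nat_lit 0x400020002000500068, nat_lit 0x1020010, nat_lit 3, nat_lit 4, nat_lit 0x47⟩ (.nil) (.nil)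
def t14_2452 : Tr := .node ⟨nat_lit 7, nat_lit 0x1000600060, nat_lit 0x1102020, nat_lit 1, nat_lit 4, nat_lit 0x49⟩ (.nil) (.nil)
def t14_10644 : Tr := .node ⟨nat_lit 7, nat_lit 0x40001000100020, nat_lit 0x210, nat_lit 0, nat_lit 3, nat_lit 0x46⟩ (.nil) (.nil)
def t14_6548 : Tr := .node ⟨nat_lit 5, nat_lit 0x1000080014, nat_lit 0x11022, nat_lit 3, nat_lit 4, nat_lit 0x46⟩ (.nil) (.nil)
def t14_14740 : Tr := .node ⟨nat_lit 8, nat_lit 0x30003000a000c0, nat_lit 0x11001121, nat_lit 0, nat_lit 4, nat_lit 0x47⟩ (.nil) (.nil)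
def t14_1428 : Tr := .node ⟨nat_lit 6, nat_lit 0x200030, nat_lit 0x11031, nat_lit 0, nat_lit 4, nat_lit 0x48⟩ (.nil) (.nil)
def t14_9620 : Tr := .node ⟨nat_lit 5, nat_lit 0x100008001a, nat_lit 0x220, nat_lit 4, nat_lit 4, nat_lit 0x45⟩ (.nil) (.nil)
def t14_5524 : Tr := .node ⟨nat_lit 6, nat_lit 0x200020, nat_lit 0x11132, nat_lit 2, nat_lit 4, nat_lit 0x4a⟩ (.nil) (.nil)
def t14_13716 : Tr := .node ⟨nat_lit 8, nat_lit 0x800020009000c00060, nat_lit 0x20201, nat_lit 0, nat_lit 4, nat_lit 0x47⟩ (.nil) (.nil)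
def t14_3476 : Tr := .node ⟨nat_lit 6, nat_lit 0x20002000100030, nat_lit 0x3100, nat_lit 0, nat_lit 3, nat_lit 0x45⟩ (.nil) (.nil)
def t14_11668 : Tr := .node ⟨nat_lit 5, nat_lit 0x100018, nat_lit 0x140, nat_lit 3, nat_lit 3, nat_lit 0x46⟩ (.nil) (.nil)
def t14_7572 : Tr := .node ⟨nat_lit 7, nat_lit 0x10001800600050, nat_lit 0x2023, nat_lit 0, nat_lit 4, nat_lit 0x46⟩ (.nil) (.nil)
def t14_916 : Tr := .node ⟨nat_lit 7, nat_lit 0x40004000200060, nat_lit 0x112122, nat_lit 1, nat_lit 4, nat_lit 0x49⟩ (.nil) (.nil)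
def t14_9108 : Tr := .node ⟨nat_lit 7, nat_lit 0x2000400010, nat_lit 0x1111000, nat_lit 0, nat_lit 3, nat_lit 0x48⟩ (.nil) (.nil)
def t14_5012 : Tr := .node ⟨nat_lit 7, nat_lit 0x10004000440060, nat_lit 0x111, nat_lit 2, nat_lit 4, nat_lit 0x46⟩ (.nil) (.nil)
def t14_13204 : Tr := .node ⟨nat_lit 7, nat_lit 0x40002000480068, nat_lit 0x22100, nat_lit 0, nat_lit 4, nat_lit 0x47⟩ (.nil) (.nil)
def t14_2964 : Tr := .node ⟨nat_lit 6, nat_lit 0x200030, nat_lit 0x101103, nat_lit 2, nat_lit 4, nat_lit 0x48⟩ (.nil) (.nil)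
def t14_11156 : Tr := .node ⟨nat_lit 4, nat_lit 0x80008, nat_lit 0x2120, nat_lit 8, nat_lit 3, nat_lit 0x47⟩ (.nil) (.nil)
def t14_7060 : Tr := .node ⟨nat_lit 7, nat_lit 0x4000440060, nat_lit 0x1011101, nat_lit 3, nat_lit 4, nat_lit 0x49⟩ (.nil) (.nil)
def t14_15252 : Tr := .node ⟨nat_lit 9, nat_lit 0x1000100002000400180, nat_lit 0x11020011, nat_lit 0, nat_lit 4, nat_lit 0x4a⟩ (.nil) (.nil)
def t14_1940 : Tr := .node ⟨nat_lit 4, nat_lit 0x8000c, nat_lit 0x2021, nat_lit 2, nat_lit 3, nat_lit 0x45⟩ (.nil) (.nil)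
def t14_10132 : Tr := .node ⟨nat_lit 7, nat_lit 0x200020004000440060, nat_lit 0x10000, nat_lit 0, nat_lit 4, nat_lit 0x45⟩ (.nil) (.nil)
def t14_6036 : Tr := .node ⟨nat_lit 7, nat_lit 0x400060, nat_lit 0x1121110, nat_lit 2, nat_lit 4, nat_lit 0x4b⟩ (.nil) (.nil)
def t14_14228 : Tr := .node ⟨nat_lit 5, nat_lit 0x800100018, nat_lit 0x10112, nat_lit 7, nat_lit 4, nat_lit 0x47⟩ (.nil) (.nil)
def t14_3988 : Tr := .node ⟨nat_lit 7, nat_lit 0x40001000500060, nat_lit 0x110103, nat_lit 0, nat_lit 4, nat_lit 0x47⟩ (.nil) (.nil)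
def t14_12180 : Tr := .node ⟨nat_lit 6, nat_lit 0x10001000200038, nat_lit 0x2110, nat_lit 3, nat_lit 4, nat_lit 0x46⟩ (.nil) (.nil)
def t14_8084 : Tr := .node ⟨nat_lit 5, nat_lit 0x1000140018, nat_lit 0x140, nat_lit 5, nat_lit 4, nat_lit 0x46⟩ (.nil) (.nil)
def t9_404 : Tr := .node ⟨nat_lit 5, nat_lit 0x80010, nat_lit 0x12320, nat_lit 0, nat_lit 4, nat_lit 0x49⟩ (.node ⟨nat_lit 6, nat_lit 0x2000100030, nat_lit 0x113102, nat_lit 2, nat_lit 4, nat_lit 0x49⟩ (.node ⟨nat_lit 5, nat_lit 0x100018, nat_lit 0x2212, nat_lit 4, nat_lit 4, nat_lit 0x48⟩ (.node ⟨nat_lit 7, nat_lit 0x40001000480060, nat_lit 0x1012201, nat_lit 0, nat_lit 4, nat_lit 0x48⟩ (.node ⟨nat_lit 7, nat_lit 0x6000180018, nat_lit 0x2100121, nat_lit 0, nat_lit 4, nat_lit 0x47⟩ (t14_404) (t14_8596)) (.node ⟨nat_lit 6, nat_lit 0x20001000100010, nat_lit 0x201100, nat_lit 0, nat_lit 3, nat_lit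 0x46⟩ (t14_4500) (t14_12692))) (.node ⟨nat_lit 6, nat_lit 0x200030, nat_lit 0x201112, nat_lit 6, nat_lit 4, nat_lit 0x4a⟩ (.node ⟨nat_lit 7, nat_lit 0x40002000200010, nat_lit 0x1010111, nat_lit 0, nat_lit 4, nat_lit 0x48⟩ (t14_2452) (t14_10644)) (.node ⟨nat_lit 7, nat_lit 0x2000200040, nat_lit 0x2010201, nat_lit 1, nat_lit 4, nat_lit 0x4a⟩ (t14_6548) (t14_14740)))) (.node ⟨nat_lit 5, nat_lit 0x80010, nat_lit 0x20110, nat_lit 0, nat_lit 4, nat_lit 0x46⟩ (.node ⟨nat_lit 7, nat_lit 0x1000600060, nat_lit 0x1021221, nat_lit 0, nat_lit 4, nat_lit 0x49⟩ (.node ⟨nat_lit 6, nat_lit 0x2000080034, nat_lit 0x111000, nat_lit 1, nat_lit 4, nat_lit 0x46⟩ (t14_1428) (t14_9620)) (.node ⟨nat_lit 8, nat_lit 0x800040004000200020, nat_lit 0x1102121, nat_lit 0, nat_lit 4, nat_lit 0x4a⟩ (t14_5524) (t14_13716))) (.node ⟨nat_lit 6, nat_lit 0x1000100020, nat_lit 0x111301,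 nat_lit 1, nat_lit 4, nat_lit 0x49⟩ (.node ⟨nat_lit 6, nat_lit 0x2800180030, nat_lit 0x11030, nat_lit 5, nat_lit 4, nat_lit 0x47⟩ (t14_3476) (t14_11668)) (.node ⟨nat_lit 6, nat_lit 0x1000280030, nat_lit 0x112112, nat_lit 2, nat_lit 4, nat_lit 0x48⟩ (t14_7572) (.nil))))) (.node ⟨nat_lit 6, nat_lit 0x300030, nat_lit 0x101121, nat_lit 0, nat_lit 3, nat_lit 0x46⟩ (.node ⟨nat_lit 5, nat_lit 0x40018, nat_lit 0x11221, nat_lit 0, nat_lit 4, nat_lit 0x47⟩ (.node ⟨nat_lit 6, nat_lit 0x200010, nat_lit 0x11121, nat_lit 1, nat_lit 4, nat_lit 0x48⟩ (.node ⟨nat_lit 7, nat_lit 0x4000400040, nat_lit 0x211310, nat_lit 1, nat_lit 4, nat_lit 0x4b⟩ (t14_916) (t14_9108)) (.node ⟨nat_lit 6, nat_lit 0x80030, nat_lit 0x211102, nat_lit 3, nat_lit 3, nat_lit 0x48⟩ (t14_5012) (t14_13204))) (.node ⟨nat_lit 8, nat_lit 0x800080004000200020, nat_lit 0x110021, nat_lit 0, nat_lit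 4, nat_lit 0x49⟩ (.node ⟨nat_lit 7, nat_lit 0x40001000200048, nat_lit 0x1112110, nat_lit 2, nat_lit 4, nat_lit 0x49⟩ (t14_2964) (t14_11156)) (.node ⟨nat_lit 7, nat_lit 0x40004800600068, nat_lit 0x1111022, nat_lit 2, nat_lit 4, nat_lit 0x48⟩ (t14_7060) (t14_15252)))) (.node ⟨nat_lit 6, nat_lit 0x20002000100028, nat_lit 0x21010, nat_lit 3, nat_lit 4, nat_lit 0x47⟩ (.node ⟨nat_lit 8, nat_lit 0x800010002000c0, nat_lit 0x2111111, nat_lit 0, nat_lit 4, nat_lit 0x4a⟩ (.node ⟨nat_lit 7, nat_lit 0x10003000500060, nat_lit 0x1102013, nat_lit 0, nat_lit 4, nat_lit 0x47⟩ (t14_1940) (t14_10132)) (.node ⟨nat_lit 7, nat_lit 0x6000600060, nat_lit 0x22210, nat_lit 0, nat_lit 4, nat_lit 0x48⟩ (t14_6036) (t14_14228))) (.node ⟨nat_lit 6, nat_lit 0x2000200030, nat_lit 0x11201, nat_lit 4, nat_lit 4, nat_lit 0x48⟩ (.node ⟨nat_lit 6, nat_lit 0x800280030, nat_lit 0x10001,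 nat_lit 4, nat_lit 4, nat_lit 0x46⟩ (t14_3988) (t14_12180)) (.node ⟨nat_lit 8, nat_lit 0x40004000800088006000e0, nat_lit 0x1112101, nat_lit 0, nat_lit 4, nat_lit 0x47⟩ (t14_8084) (.nil)))))
def t14_84 : Tr := .node ⟨nat_lit 7, nat_lit 0x600060, nat_lit 0x1121111, nat_lit 0, nat_lit 4, nat_lit 0x4a⟩ (.nil) (.nil)
def t14_8276 : Tr := .node ⟨nat_lit 6, nat_lit 0x800300030, nat_lit 0x1040, nat_lit 2, nat_lit 4, nat_lit 0x46⟩ (.nil) (.nil)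
def t14_4180 : Tr := .node ⟨nat_lit 8, nat_lit 0x800020009000a000c0, nat_lit 0x1111020, nat_lit 1, nat_lit 4, nat_lit 0x48⟩ (.nil) (.nil)
def t14_12372 : Tr := .node ⟨nat_lit 8, nat_lit 0x80004000a000c0, nat_lit 0x113110, nat_lit 0, nat_lit 4, nat_lit 0x49⟩ (.nil) (.nil)
def t14_2132 : Tr := .node ⟨nat_lit 7, nat_lit 0x200040004800600068, nat_lit 0x2020021, nat_lit 2, nat_lit 4, nat_lit 0x47⟩ (.nil) (.nil)
def t14_10324 : Tr := .node ⟨nat_lit 6, nat_lit 0x800300038, nat_lit 0x100022, nat_lit 2, nat_lit 4, nat_lit 0x45⟩ (.nil) (.nil)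
def t14_6228 : Tr := .node ⟨nat_lit 4, nat_lit 8, nat_lit 0x111, nat_lit 7, nat_lit 4, nat_lit 0x47⟩ (.nil) (.nil)
def t14_14420 : Tr := .node ⟨nat_lit 6, nat_lit 0x2000200030, nat_lit 0x13110, nat_lit 1, nat_lit 3, nat_lit 0x47⟩ (.nil) (.nil)
def t14_1108 : Tr := .node ⟨nat_lit 7, nat_lit 0x40002000480064, nat_lit 0x112101, nat_lit 0, nat_lit 4, nat_lit 0x47⟩ (.nil) (.nil)
def t14_9300 : Tr := .node ⟨nat_lit 7, nat_lit 0x40005000300060, nat_lit 0x100221, nat_lit 0, nat_lit 4, nat_lit 0x46⟩ (.nil) (.nil)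
def t14_5204 : Tr := .node ⟨nat_lit 9, nat_lit 0x1000100004001100180, nat_lit 0x10121011, nat_lit 0, nat_lit 4, nat_lit 0x4a⟩ (.nil) (.nil)
def t14_13396 : Tr := .node ⟨nat_lit 4, nat_lit 0xc000c, nat_lit 0x3010, nat_lit 2, nat_lit 3, nat_lit 0x45⟩ (.nil) (.nil)
def t14_3156 : Tr := .node ⟨nat_lit 7, nat_lit 0x40001000600060, nat_lit 0x21021, nat_lit 0, nat_lit 4, nat_lit 0x47⟩ (.nil) (.nil)
def t14_11348 : Tr := .node ⟨nat_lit 7, nat_lit 0x20002000400060, nat_lit 0x11100, nat_lit 1, nat_lit 3, nat_lit 0x46⟩ (.nil) (.nil)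
def t14_7252 : Tr := .node ⟨nat_lit 7, nat_lit 0x10001000500060, nat_lit 0x2100021, nat_lit 1, nat_lit 4, nat_lit 0x48⟩ (.nil) (.nil)
def t14_15444 : Tr := .node ⟨nat_lit 7, nat_lit 0x40001000600070, nat_lit 0x1101022, nat_lit 0, nat_lit 4, nat_lit 0x47⟩ (.nil) (.nil)
def t14_596 : Tr := .node ⟨nat_lit 6, nat_lit 0x10002000300038, nat_lit 0x1220, nat_lit 2, nat_lit 4, nat_lit 0x45⟩ (.nil) (.nil)
def t14_8788 : Tr := .node ⟨nat_lit 8, nat_lit 0x800040004000d000c8, nat_lit 0x121030, nat_lit 0, nat_lit 4, nat_lit 0x47⟩ (.nil) (.nil)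
def t14_4692 : Tr := .node ⟨nat_lit 7, nat_lit 0x20002000500068, nat_lit 0x1101012, nat_lit 0, nat_lit 4, nat_lit 0x47⟩ (.nil) (.nil)
def t14_12884 : Tr := .node ⟨nat_lit 7, nat_lit 0x20004000100060, nat_lit 0x22010, nat_lit 1, nat_lit 4, nat_lit 0x48⟩ (.nil) (.nil)
def t14_2644 : Tr := .node ⟨nat_lit 6, nat_lit 0x20001000280030, nat_lit 0x1300, nat_lit 3, nat_lit 4, nat_lit 0x46⟩ (.nil) (.nil)
def t14_10836 : Tr := .node ⟨nat_lit 8, nat_lit 0x80001000a000c0, nat_lit 0x1110122, nat_lit 0, nat_lit 4, nat_lit 0x49⟩ (.nil) (.nil)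
def t14_6740 : Tr := .node ⟨nat_lit 7, nat_lit 0x40002000500068, nat_lit 0x121101, nat_lit 0, nat_lit 4, nat_lit 0x47⟩ (.nil) (.nil)
def t14_14932 : Tr := .node ⟨nat_lit 7, nat_lit 0x400020005000500050, nat_lit 0x1110111, nat_lit 3, nat_lit 4, nat_lit 0x48⟩ (.nil) (.nil)
def t14_1620 : Tr := .node ⟨nat_lit 7, nat_lit 0x20006000500068, nat_lit 0x12201, nat_lit 1, nat_lit 4, nat_lit 0x46⟩ (.nil) (.nil)
def t14_9812 : Tr := .node ⟨nat_lit 8, nat_lit 0x1000a000a000c0, nat_lit 0x1000201, nat_lit 0, nat_lit 4, nat_lit 0x47⟩ (.nil) (.nil)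
def t14_5716 : Tr := .node ⟨nat_lit 6, nat_lit 0x2000200024, nat_lit 0x11002, nat_lit 3, nat_lit 4, nat_lit 0x47⟩ (.nil) (.nil)
def t14_13908 : Tr := .node ⟨nat_lit 6, nat_lit 0x800280030, nat_lit 0x10404, nat_lit 0, nat_lit 4, nat_lit 0x47⟩ (.nil) (.nil)
def t14_3668 : Tr := .node ⟨nat_lit 8, nat_lit 0x80002000c000a0, nat_lit 0x30021, nat_lit 2, nat_lit 4, nat_lit 0x49⟩ (.nil) (.nil)
def t14_11860 : Tr := .node ⟨nat_lit 3, nat_lit 6, nat_lit 0x301, nat_lit 6, nat_lit 3, nat_lit 0x45⟩ (.nil) (.nil)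
def t14_7764 : Tr := .node ⟨nat_lit 8, nat_lit 0x800080004000a0004800e0, nat_lit 0x112102, nat_lit 0, nat_lit 4, nat_lit 0x46⟩ (.nil) (.nil)
def t9_84 : Tr := .node ⟨nat_lit 5, nat_lit 0x100018, nat_lit 0x101, nat_lit 1, nat_lit 3, nat_lit 0x44⟩ (.node ⟨nat_lit 6, nat_lit 0x20, nat_lit 0x132110, nat_lit 3, nat_lit 4, nat_lit 0x4c⟩ (.node ⟨nat_lit 7, nat_lit 0x20004000600064, nat_lit 0x13220, nat_lit 0, nat_lit 4, nat_lit 0x47⟩ (.node ⟨nat_lit 7, nat_lit 0x40002000480060, nat_lit 0x1021101, nat_lit 1, nat_lit 4, nat_lit 0x48⟩ (.node ⟨nat_lit 6, nat_lit 0x800080030, nat_lit 0x211113, nat_lit 0, nat_lit 3, nat_lit 0x47⟩ (t14_84) (t14_8276)) (.node ⟨nat_lit 6, nat_lit 0x2000100030, nat_lit 0x11004, nat_lit 3, nat_lit 4, nat_lit 0x48⟩ (t14_4180) (t14_12372))) (.node ⟨nat_lit 6, nat_lit 0x280030, nat_lit 0x210122, nat_lit 0, nat_lit 4, nat_lit 0x48⟩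 (.node ⟨nat_lit 5, nat_lit 0x1000080018, nat_lit 0x1024, nat_lit 4, nat_lit 4, nat_lit 0x47⟩ (t14_2132) (t14_10324)) (.node ⟨nat_lit 7, nat_lit 0x40004000100060, nat_lit 0x211102, nat_lit 2, nat_lit 4, nat_lit 0x49⟩ (t14_6228) (t14_14420)))) (.node ⟨nat_lit 5, nat_lit 0x80010, nat_lit 0x220, nat_lit 1, nat_lit 4, nat_lit 0x46⟩ (.node ⟨nat_lit 5, nat_lit 0x18, nat_lit 0x21211, nat_lit 2, nat_lit 4, nat_lit 0x49⟩ (.node ⟨nat_lit 6, nat_lit 0x1000280030, nat_lit 0x111113, nat_lit 3, nat_lit 4, nat_lit 0x48⟩ (t14_1108) (t14_9300)) (.node ⟨nat_lit 6, nat_lit 0x2000300038, nat_lit 0x11213, nat_lit 4, nat_lit 4, nat_lit 0x47⟩ (t14_5204) (t14_13396))) (.node ⟨nat_lit 6, nat_lit 0x2000200034, nat_lit 0x112101, nat_lit 2, nat_lit 4, nat_lit 0x48⟩ (.node ⟨nat_lit 6, nat_lit 0x2000240018, nat_lit 0x210100, nat_lit 1, nat_lit 4, nat_lit 0x47⟩ (t14_3156) (t14_11348))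 (.node ⟨nat_lit 6, nat_lit 0x2000100024, nat_lit 0x101112, nat_lit 1, nat_lit 4, nat_lit 0x47⟩ (t14_7252) (t14_15444))))) (.node ⟨nat_lit 3, nat_lit 4, nat_lit 0x211, nat_lit 4, nat_lit 3, nat_lit 0x45⟩ (.node ⟨nat_lit 6, nat_lit 0x200010, nat_lit 0x21102, nat_lit 0, nat_lit 4, nat_lit 0x49⟩ (.node ⟨nat_lit 5, nat_lit 0x100018, nat_lit 0x1210, nat_lit 5, nat_lit 4, nat_lit 0x47⟩ (.node ⟨nat_lit 5, nat_lit 0x180018, nat_lit 0x21220, nat_lit 3, nat_lit 4, nat_lit 0x48⟩ (t14_596) (t14_8788)) (.node ⟨nat_lit 6, nat_lit 0xc0030, nat_lit 0x112221, nat_lit 1, nat_lit 4, nat_lit 0x49⟩ (t14_4692) (t14_12884))) (.node ⟨nat_lit 7, nat_lit 0x2000600050, nat_lit 0x1001112, nat_lit 0, nat_lit 4, nat_lit 0x47⟩ (.node ⟨nat_lit 7, nat_lit 0x4000440070, nat_lit 0x1211103, nat_lit 0, nat_lit 4, nat_lit 0x49⟩ (t14_2644) (t14_10836)) (.node ⟨nat_lit 5, nat_lit 0x800080010,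 nat_lit 0x11220, nat_lit 9, nat_lit 4, nat_lit 0x49⟩ (t14_6740) (t14_14932)))) (.node ⟨nat_lit 6, nat_lit 0x200010, nat_lit 0x21121, nat_lit 1, nat_lit 4, nat_lit 0x49⟩ (.node ⟨nat_lit 7, nat_lit 0x2000400062, nat_lit 0x2211001, nat_lit 1, nat_lit 4, nat_lit 0x4a⟩ (.node ⟨nat_lit 5, nat_lit 0x40018, nat_lit 0x11, nat_lit 0, nat_lit 4, nat_lit 0x43⟩ (t14_1620) (t14_9812)) (.node ⟨nat_lit 7, nat_lit 0x2000400062, nat_lit 0x1122101, nat_lit 1, nat_lit 4, nat_lit 0x4a⟩ (t14_5716) (t14_13908))) (.node ⟨nat_lit 6, nat_lit 0xc0030, nat_lit 0x112020, nat_lit 2, nat_lit 4, nat_lit 0x48⟩ (.node ⟨nat_lit 7, nat_lit 0x4000200010, nat_lit 0x1000000, nat_lit 1, nat_lit 3, nat_lit 0x47⟩ (t14_3668) (t14_11860)) (.node ⟨nat_lit 6, nat_lit 0x20001000100028, nat_lit 0x110102, nat_lit 1, nat_lit 4, nat_lit 0x46⟩ (t14_7764) (.nil)))))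
def t14_340 : Tr := .node ⟨nat_lit 7, nat_lit 0x4000500060, nat_lit 0x1021121, nat_lit 0, nat_lit 4, nat_lit 0x49⟩ (.nil) (.nil)
def t14_8532 : Tr := .node ⟨nat_lit 4, nat_lit 0x8000a, nat_lit 0x1114, nat_lit 6, nat_lit 4, nat_lit 0x47⟩ (.nil) (.nil)
def t14_4436 : Tr := .node ⟨nat_lit 7, nat_lit 0x1000100060, nat_lit 0x1112211, nat_lit 0, nat_lit 4, nat_lit 0x4a⟩ (.nil) (.nil)
def t14_12628 : Tr := .node ⟨nat_lit 7, nat_lit 0x40004800600030, nat_lit 0x1000040, nat_lit 2, nat_lit 4, nat_lit 0x47⟩ (.nil) (.nil)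
def t14_2388 : Tr := .node ⟨nat_lit 8, nat_lit 0x8000c000c000c8, nat_lit 0x112102, nat_lit 0, nat_lit 4, nat_lit 0x48⟩ (.nil) (.nil)
def t14_10580 : Tr := .node ⟨nat_lit 7, nat_lit 0x20003000500060, nat_lit 0x2020, nat_lit 2, nat_lit 4, nat_lit 0x46⟩ (.nil) (.nil)
def t14_6484 : Tr := .node ⟨nat_lit 5, nat_lit 0x18, nat_lit 0x11110, nat_lit 4, nat_lit 4, nat_lit 0x48⟩ (.nil) (.nil)
def t14_14676 : Tr := .node ⟨nat_lit 8, nat_lit 0x2000200080003000c0, nat_lit 0x11111, nat_lit 0, nat_lit 4, nat_lit 0x47⟩ (.nil) (.nil)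
def t14_1364 : Tr := .node ⟨nat_lit 6, nat_lit 0x2800280030, nat_lit 0x21103, nat_lit 1, nat_lit 3, nat_lit 0x45⟩ (.nil) (.nil)
def t14_9556 : Tr := .node ⟨nat_lit 6, nat_lit 0x20002000300038, nat_lit 0x12121, nat_lit 4, nat_lit 4, nat_lit 0x47⟩ (.nil) (.nil)
def t14_5460 : Tr := .node ⟨nat_lit 7, nat_lit 0x20004000100060, nat_lit 0x10103, nat_lit 1, nat_lit 4, nat_lit 0x47⟩ (.nil) (.nil)
def t14_13652 : Tr := .node ⟨nat_lit 7, nat_lit 0x1000600018, nat_lit 0x1000012, nat_lit 2, nat_lit 4, nat_lit 0x47⟩ (.nil) (.nil)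
def t14_3412 : Tr := .node ⟨nat_lit 7, nat_lit 0x4000400060, nat_lit 0x121001, nat_lit 0, nat_lit 4, nat_lit 0x49⟩ (.nil) (.nil)
def t14_11604 : Tr := .node ⟨nat_lit 7, nat_lit 0x6000700070, nat_lit 0x11031, nat_lit 1, nat_lit 4, nat_lit 0x46⟩ (.nil) (.nil)
def t14_7508 : Tr := .node ⟨nat_lit 7, nat_lit 0x400040002000200050, nat_lit 0x121112, nat_lit 1, nat_lit 4, nat_lit 0x48⟩ (.nil) (.nil)
def t14_852 : Tr := .node ⟨nat_lit 6, nat_lit 0x2000100024, nat_lit 0x11212, nat_lit 4, nat_lit 4, nat_lit 0x48⟩ (.nil) (.nil)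
def t14_9044 : Tr := .node ⟨nat_lit 5, nat_lit 0x1000180018, nat_lit 0x221, nat_lit 7, nat_lit 4, nat_lit 0x46⟩ (.nil) (.nil)
def t14_4948 : Tr := .node ⟨nat_lit 7, nat_lit 0x200020004000400060, nat_lit 0x11103, nat_lit 0, nat_lit 3, nat_lit 0x45⟩ (.nil) (.nil)
def t14_13140 : Tr := .node ⟨nat_lit 6, nat_lit 0x2000100032, nat_lit 0x1320, nat_lit 2, nat_lit 4, nat_lit 0x47⟩ (.nil) (.nil)
def t14_2900 : Tr := .node ⟨nat_lit 8, nat_lit 0x20008000a000c0, nat_lit 0x1021102, nat_lit 0, nat_lit 4, nat_lit 0x49⟩ (.nil) (.nil)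
def t14_11092 : Tr := .node ⟨nat_lit 6, nat_lit 0x800300030, nat_lit 0x1020, nat_lit 7, nat_lit 4, nat_lit 0x47⟩ (.nil) (.nil)
def t14_6996 : Tr := .node ⟨nat_lit 7, nat_lit 0x40002000500060, nat_lit 0x1011012, nat_lit 1, nat_lit 3, nat_lit 0x46⟩ (.nil) (.nil)
def t14_15188 : Tr := .node ⟨nat_lit 7, nat_lit 0x400060, nat_lit 0x111001, nat_lit 0, nat_lit 4, nat_lit 0x49⟩ (.nil) (.nil)
def t14_1876 : Tr := .node ⟨nat_lit 7, nat_lit 0x1000400060, nat_lit 0x2011, nat_lit 2, nat_lit 4, nat_lit 0x48⟩ (.nil) (.nil)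
def t14_10068 : Tr := .node ⟨nat_lit 8, nat_lit 0x400080008000880060, nat_lit 0x1000002, nat_lit 0, nat_lit 4, nat_lit 0x47⟩ (.nil) (.nil)
def t14_5972 : Tr := .node ⟨nat_lit 9, nat_lit 0x100008000800080, nat_lit 0x1110211, nat_lit 0, nat_lit 4, nat_lit 0x4c⟩ (.nil) (.nil)
def t14_14164 : Tr := .node ⟨nat_lit 6, nat_lit 0x1000080020, nat_lit 0x101200, nat_lit 4, nat_lit 4, nat_lit 0x48⟩ (.nil) (.nil)
def t14_3924 : Tr := .node ⟨nat_lit 5, nat_lit 0x1000180018, nat_lit 0x10120, nat_lit 2, nat_lit 3, nat_lit 0x44⟩ (.nil) (.nil)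
def t14_12116 : Tr := .node ⟨nat_lit 5, nat_lit 0x1000140018, nat_lit 0x1200, nat_lit 5, nat_lit 4, nat_lit 0x46⟩ (.nil) (.nil)
def t14_8020 : Tr := .node ⟨nat_lit 3, nat_lit 6, nat_lit 1, nat_lit 7, nat_lit 4, nat_lit 0x43⟩ (.nil) (.nil)
def t9_340 : Tr := .node ⟨nat_lit 7, nat_lit 0x40, nat_lit 0x311110, nat_lit 1, nat_lit 4, nat_lit 0x4c⟩ (.node ⟨nat_lit 6, nat_lit 0x80030, nat_lit 0x320102, nat_lit 1, nat_lit 4, nat_lit 0x4a⟩ (.node ⟨nat_lit 5, nat_lit 0x18, nat_lit 0x22212, nat_lit 0, nat_lit 4, nat_lit 0x49⟩ (.node ⟨nat_lit 6, nat_lit 0x200030, nat_lit 0x102110, nat_lit 0, nat_lit 4, nat_lit 0x48⟩ (.node ⟨nat_lit 7, nat_lit 0x4000200010, nat_lit 0x1121013, nat_lit 0, nat_lit 4, nat_lit 0x4b⟩ (t14_340) (t14_8532)) (.node ⟨nat_lit 8, nat_lit 0x8000800040002000c0, nat_lit 0x1010004, nat_lit 1, nat_lit 4, nat_lit 0x49⟩ (t14_4436) (t14_12628)))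 (.node ⟨nat_lit 4, nat_lit 0xc000c, nat_lit 0x2121, nat_lit 6, nat_lit 3, nat_lit 0x45⟩ (.node ⟨nat_lit 7, nat_lit 0x40001000600070, nat_lit 0x10123, nat_lit 1, nat_lit 4, nat_lit 0x46⟩ (t14_2388) (t14_10580)) (.node ⟨nat_lit 5, nat_lit 0x10, nat_lit 0x2113, nat_lit 3, nat_lit 4, nat_lit 0x49⟩ (t14_6484) (t14_14676)))) (.node ⟨nat_lit 6, nat_lit 0x240038, nat_lit 0x121022, nat_lit 0, nat_lit 4, nat_lit 0x47⟩ (.node ⟨nat_lit 6, nat_lit 0x100020, nat_lit 0x221122, nat_lit 2, nat_lit 4, nat_lit 0x4b⟩ (.node ⟨nat_lit 5, nat_lit 0x1000100008, nat_lit 4, nat_lit 2, nat_lit 3, nat_lit 0x45⟩ (t14_1364) (t14_9556)) (.node ⟨nat_lit 7, nat_lit 0x40001000100060, nat_lit 0x220112, nat_lit 0, nat_lit 4, nat_lit 0x49⟩ (t14_5460) (t14_13652))) (.node ⟨nat_lit 6, nat_lit 0x80030, nat_lit 0x310102, nat_lit 0, nat_lit 4, nat_lit 0x49⟩ (.node ⟨nat_lit 7, nat_lit 0x40004000200020,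 nat_lit 0x121030, nat_lit 2, nat_lit 4, nat_lit 0x4a⟩ (t14_3412) (t14_11604)) (.node ⟨nat_lit 6, nat_lit 0x2000280030, nat_lit 0x11002, nat_lit 1, nat_lit 3, nat_lit 0x45⟩ (t14_7508) (.nil))))) (.node ⟨nat_lit 3, nat_lit 4, nat_lit 0x31, nat_lit 5, nat_lit 4, nat_lit 0x45⟩ (.node ⟨nat_lit 5, nat_lit 0x18, nat_lit 0x22111, nat_lit 3, nat_lit 4, nat_lit 0x49⟩ (.node ⟨nat_lit 6, nat_lit 0x1000100020, nat_lit 0x101111, nat_lit 0, nat_lit 4, nat_lit 0x47⟩ (.node ⟨nat_lit 7, nat_lit 0x20004000100060, nat_lit 0x22101, nat_lit 1, nat_lit 4, nat_lit 0x48⟩ (t14_852) (t14_9044)) (.node ⟨nat_lit 6, nat_lit 0x300030, nat_lit 0x112221, nat_lit 0, nat_lit 4, nat_lit 0x49⟩ (t14_4948) (t14_13140))) (.node ⟨nat_lit 5, nat_lit 0x180018, nat_lit 0x11121, nat_lit 4, nat_lit 4, nat_lit 0x47⟩ (.node ⟨nat_lit 8, nat_lit 0x4000800080008000900060, nat_lit 0x1211001, nat_lit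 1, nat_lit 4, nat_lit 0x48⟩ (t14_2900) (t14_11092)) (.node ⟨nat_lit 7, nat_lit 0x1000600060, nat_lit 0x1111032, nat_lit 0, nat_lit 4, nat_lit 0x49⟩ (t14_6996) (t14_15188)))) (.node ⟨nat_lit 4, nat_lit 0xc, nat_lit 0x2220, nat_lit 2, nat_lit 3, nat_lit 0x47⟩ (.node ⟨nat_lit 6, nat_lit 0x2000080030, nat_lit 0x211111, nat_lit 3, nat_lit 4, nat_lit 0x49⟩ (.node ⟨nat_lit 6, nat_lit 0x200038, nat_lit 0x111103, nat_lit 2, nat_lit 4, nat_lit 0x48⟩ (t14_1876) (t14_10068)) (.node ⟨nat_lit 7, nat_lit 0x10004000400020, nat_lit 0x121200, nat_lit 0, nat_lit 4, nat_lit 0x49⟩ (t14_5972) (t14_14164))) (.node ⟨nat_lit 6, nat_lit 0x2000100010, nat_lit 0x1032, nat_lit 1, nat_lit 4, nat_lit 0x48⟩ (.node ⟨nat_lit 7, nat_lit 0x40005000300060, nat_lit 0x110033, nat_lit 0, nat_lit 4, nat_lit 0x47⟩ (t14_3924) (t14_12116)) (.node ⟨nat_lit 7, nat_lit 0x4000180060, nat_lit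 0x21021, nat_lit 0, nat_lit 4, nat_lit 0x48⟩ (t14_8020) (.nil)))))
def t14_212 : Tr := .node ⟨nat_lit 8, nat_lit 0x800088006000c0, nat_lit 0x10121021, nat_lit 0, nat_lit 4, nat_lit 0x49⟩ (.nil) (.nil)
def t14_8404 : Tr := .node ⟨nat_lit 7, nat_lit 0x200040004000480048, nat_lit 0x1231, nat_lit 5, nat_lit 4, nat_lit 0x48⟩ (.nil) (.nil)
def t14_4308 : Tr := .node ⟨nat_lit 7, nat_lit 0x4000200060, nat_lit 0x1111020, nat_lit 0, nat_lit 3, nat_lit 0x48⟩ (.nil) (.nil)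
def t14_12500 : Tr := .node ⟨nat_lit 8, nat_lit 0x800040009000c00060, nat_lit 0x10001030, nat_lit 3, nat_lit 4, nat_lit 0x48⟩ (.nil) (.nil)
def t14_2260 : Tr := .node ⟨nat_lit 8, nat_lit 0x80008000400040009000a0, nat_lit 0x1112200, nat_lit 0, nat_lit 4, nat_lit 0x48⟩ (.nil) (.nil)
def t14_10452 : Tr := .node ⟨nat_lit 7, nat_lit 0x40001000500060, nat_lit 0x12320, nat_lit 1, nat_lit 4, nat_lit 0x48⟩ (.nil) (.nil)
def t14_6356 : Tr := .node ⟨nat_lit 5, nat_lit 0x40018, nat_lit 0x11020, nat_lit 1, nat_lit 3, nat_lit 0x45⟩ (.nil) (.nil)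
def t14_14548 : Tr := .node ⟨nat_lit 8, nat_lit 0x80002000c0, nat_lit 0x111200, nat_lit 0, nat_lit 4, nat_lit 0x4a⟩ (.nil) (.nil)
def t14_1236 : Tr := .node ⟨nat_lit 6, nat_lit 0x2000080034, nat_lit 0x100321, nat_lit 0, nat_lit 4, nat_lit 0x47⟩ (.nil) (.nil)
def t14_9428 : Tr := .node ⟨nat_lit 9, nat_lit 0x80008001000110011000c00180, nat_lit 0x101110012, nat_lit 1, nat_lit 4, nat_lit 0x48⟩ (.nil) (.nil)
def t14_5332 : Tr := .node ⟨nat_lit 6, nat_lit 0x800300030, nat_lit 0x111130, nat_lit 3, nat_lit 4, nat_lit 0x48⟩ (.nil) (.nil)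
def t14_13524 : Tr := .node ⟨nat_lit 6, nat_lit 0x80030, nat_lit 0x1102, nat_lit 4, nat_lit 4, nat_lit 0x48⟩ (.nil) (.nil)
def t14_3284 : Tr := .node ⟨nat_lit 6, nat_lit 0x800080030, nat_lit 0x200211, nat_lit 1, nat_lit 3, nat_lit 0x46⟩ (.nil) (.nil)
def t14_11476 : Tr := .node ⟨nat_lit 9, nat_lit 0x4001000100008001100190, nat_lit 0x100001100, nat_lit 0, nat_lit 4, nat_lit 0x48⟩ (.nil) (.nil)
def t14_7380 : Tr := .node ⟨nat_lit 6, nat_lit 0x1000100020, nat_lit 0x201000, nat_lit 3, nat_lit 4, nat_lit 0x48⟩ (.nil) (.nil)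
def t14_15572 : Tr := .node ⟨nat_lit 9, nat_lit 0, nat_lit 0x111111111, nat_lit 0, nat_lit 4, nat_lit 0x50⟩ (.nil) (.nil)
def t14_724 : Tr := .node ⟨nat_lit 6, nat_lit 0x1000200020, nat_lit 0x1310, nat_lit 0, nat_lit 4, nat_lit 0x47⟩ (.nil) (.nil)
def t14_8916 : Tr := .node ⟨nat_lit 6, nat_lit 0x800300038, nat_lit 0x1003, nat_lit 2, nat_lit 4, nat_lit 0x45⟩ (.nil) (.nil)
def t14_4820 : Tr := .node ⟨nat_lit 7, nat_lit 0x200040003000480068, nat_lit 0x3111002, nat_lit 0, nat_lit 4, nat_lit 0x48⟩ (.nil) (.nil)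
def t14_13012 : Tr := .node ⟨nat_lit 8, nat_lit 0x400080008800500060, nat_lit 0x10030000, nat_lit 1, nat_lit 4, nat_lit 0x48⟩ (.nil) (.nil)
def t14_2772 : Tr := .node ⟨nat_lit 8, nat_lit 0x400080008000c800c8, nat_lit 0x10121110, nat_lit 0, nat_lit 4, nat_lit 0x48⟩ (.nil) (.nil)
def t14_10964 : Tr := .node ⟨nat_lit 6, nat_lit 0x20001000280038, nat_lit 0x111312, nat_lit 2, nat_lit 4, nat_lit 0x47⟩ (.nil) (.nil)
def t14_6868 : Tr := .node ⟨nat_lit 7, nat_lit 0x40002000200048, nat_lit 0x13101, nat_lit 0, nat_lit 4, nat_lit 0x48⟩ (.nil) (.nil)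
def t14_15060 : Tr := .node ⟨nat_lit 8, nat_lit 0x200040004000a000c8, nat_lit 0x10120011, nat_lit 1, nat_lit 4, nat_lit 0x48⟩ (.nil) (.nil)
def t14_1748 : Tr := .node ⟨nat_lit 7, nat_lit 0x400040002000200050, nat_lit 0x1111211, nat_lit 3, nat_lit 4, nat_lit 0x49⟩ (.nil) (.nil)
def t14_9940 : Tr := .node ⟨nat_lit 6, nat_lit 0x300038, nat_lit 0x1130, nat_lit 1, nat_lit 4, nat_lit 0x46⟩ (.nil) (.nil)
def t14_5844 : Tr := .node ⟨nat_lit 7, nat_lit 0x4000640064, nat_lit 0x1011011, nat_lit 1, nat_lit 4, nat_lit 0x47⟩ (.nil) (.nil)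
def t14_14036 : Tr := .node ⟨nat_lit 7, nat_lit 0x10004000180064, nat_lit 0x1100101, nat_lit 0, nat_lit 4, nat_lit 0x46⟩ (.nil) (.nil)
def t14_3796 : Tr := .node ⟨nat_lit 6, nat_lit 0x200030, nat_lit 0x121120, nat_lit 1, nat_lit 3, nat_lit 0x48⟩ (.nil) (.nil)
def t14_11988 : Tr := .node ⟨nat_lit 7, nat_lit 0x400040002000200064, nat_lit 0x11220, nat_lit 0, nat_lit 4, nat_lit 0x47⟩ (.nil) (.nil)
def t14_7892 : Tr := .node ⟨nat_lit 7, nat_lit 0x2000400060, nat_lit 0x11201, nat_lit 0, nat_lit 4, nat_lit 0x48⟩ (.nil) (.nil)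
def t9_212 : Tr := .node ⟨nat_lit 4, nat_lit 8, nat_lit 0x322, nat_lit 5, nat_lit 4, nat_lit 0x48⟩ (.node ⟨nat_lit 4, nat_lit 0x8000c000c, nat_lit 0x3121, nat_lit 9, nat_lit 4, nat_lit 0x48⟩ (.node ⟨nat_lit 6, nat_lit 0x2000200020, nat_lit 0x31210, nat_lit 4, nat_lit 4, nat_lit 0x4a⟩ (.node ⟨nat_lit 6, nat_lit 0x1000200022, nat_lit 0x102031, nat_lit 2, nat_lit 4, nat_lit 0x49⟩ (.node ⟨nat_lit 6, nat_lit 0x300028, nat_lit 0x102212, nat_lit 3, nat_lit 4, nat_lit 0x49⟩ (t14_212) (t14_8404)) (.node ⟨nat_lit 7, nat_lit 0x40002000500068, nat_lit 0x112013, nat_lit 1, nat_lit 4, nat_lit 0x47⟩ (t14_4308) (t14_12500))) (.node ⟨nat_lit 6, nat_lit 0x800300030, nat_lit 0x102221, nat_lit 4, nat_lit 4, nat_lit 0x48⟩ (.node ⟨nat_lit 5, nat_lit 0x100018, nat_lit 0x11241, nat_lit 1, nat_lit 3, nat_lit 0x47⟩ (t14_2260) (t14_10452)) (.node ⟨nat_lit 7, nat_lit 0x800500060,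 nat_lit 0x120012, nat_lit 1, nat_lit 4, nat_lit 0x48⟩ (t14_6356) (t14_14548)))) (.node ⟨nat_lit 5, nat_lit 0x10, nat_lit 0x21110, nat_lit 1, nat_lit 4, nat_lit 0x48⟩ (.node ⟨nat_lit 6, nat_lit 0x800080030, nat_lit 0x211221, nat_lit 0, nat_lit 4, nat_lit 0x49⟩ (.node ⟨nat_lit 4, nat_lit 0xe, nat_lit 0x1103, nat_lit 5, nat_lit 4, nat_lit 0x45⟩ (t14_1236) (t14_9428)) (.node ⟨nat_lit 7, nat_lit 0x4000100060, nat_lit 0x1012211, nat_lit 2, nat_lit 4, nat_lit 0x4a⟩ (t14_5332) (t14_13524))) (.node ⟨nat_lit 6, nat_lit 0x2000080030, nat_lit 0x110200, nat_lit 1, nat_lit 4, nat_lit 0x47⟩ (.node ⟨nat_lit 6, nat_lit 0x1000200038, nat_lit 0x111023, nat_lit 3, nat_lit 4, nat_lit 0x48⟩ (t14_3284) (t14_11476)) (.node ⟨nat_lit 4, nat_lit 0xe, nat_lit 0x1102, nat_lit 5, nat_lit 4, nat_lit 0x45⟩ (t14_7380) (t14_15572))))) (.node ⟨nat_lit 2, nat_lit 0, nat_lit 0x31,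 nat_lit 9, nat_lit 4, nat_lit 0x46⟩ (.node ⟨nat_lit 6, nat_lit 0x80030, nat_lit 0x210102, nat_lit 1, nat_lit 4, nat_lit 0x48⟩ (.node ⟨nat_lit 6, nat_lit 0x2000200010, nat_lit 0x102210, nat_lit 2, nat_lit 4, nat_lit 0x49⟩ (.node ⟨nat_lit 5, nat_lit 0x80010, nat_lit 0x21110, nat_lit 7, nat_lit 4, nat_lit 0x49⟩ (t14_724) (t14_8916)) (.node ⟨nat_lit 5, nat_lit 0x1000080014, nat_lit 0x1222, nat_lit 2, nat_lit 4, nat_lit 0x46⟩ (t14_4820) (t14_13012))) (.node ⟨nat_lit 6, nat_lit 0x300028, nat_lit 0x111112, nat_lit 2, nat_lit 4, nat_lit 0x48⟩ (.node ⟨nat_lit 6, nat_lit 0x2000200030, nat_lit 0x21103, nat_lit 5, nat_lit 4, nat_lit 0x49⟩ (t14_2772) (t14_10964)) (.node ⟨nat_lit 7, nat_lit 0x10004000500060, nat_lit 0x112020, nat_lit 0, nat_lit 3, nat_lit 0x46⟩ (t14_6868) (t14_15060)))) (.node ⟨nat_lit 5, nat_lit 0x1c001c, nat_lit 0x11122, nat_lit 3, nat_lit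 4, nat_lit 0x45⟩ (.node ⟨nat_lit 6, nat_lit 0x800280030, nat_lit 0x11211, nat_lit 3, nat_lit 4, nat_lit 0x47⟩ (.node ⟨nat_lit 6, nat_lit 0x2000080030, nat_lit 0x12003, nat_lit 0, nat_lit 4, nat_lit 0x47⟩ (t14_1748) (t14_9940)) (.node ⟨nat_lit 7, nat_lit 0x40002000500064, nat_lit 0x221021, nat_lit 1, nat_lit 4, nat_lit 0x48⟩ (t14_5844) (t14_14036))) (.node ⟨nat_lit 6, nat_lit 0x2000080030, nat_lit 0x200322, nat_lit 1, nat_lit 4, nat_lit 0x48⟩ (.node ⟨nat_lit 7, nat_lit 0x1000600050, nat_lit 0x11103, nat_lit 1, nat_lit 4, nat_lit 0x48⟩ (t14_3796) (t14_11988)) (.node ⟨nat_lit 8, nat_lit 0xc000c0, nat_lit 0x10111121, nat_lit 0, nat_lit 4, nat_lit 0x4b⟩ (t14_7892) (.nil)))))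
def t14_468 : Tr := .node ⟨nat_lit 8, nat_lit 0x8000800040008800d0, nat_lit 0x11111111, nat_lit 0, nat_lit 4, nat_lit 0x49⟩ (.nil) (.nil)
def t14_8660 : Tr := .node ⟨nat_lit 7, nat_lit 0x40002000580068, nat_lit 0x11011, nat_lit 0, nat_lit 4, nat_lit 0x45⟩ (.nil) (.nil)
def t14_4564 : Tr := .node ⟨nat_lit 7, nat_lit 0x1000600060, nat_lit 0x1002021, nat_lit 4, nat_lit 4, nat_lit 0x49⟩ (.nil) (.nil)
def t14_12756 : Tr := .node ⟨nat_lit 7, nat_lit 0x200020002000400070, nat_lit 0x11030, nat_lit 2, nat_lit 4, nat_lit 0x47⟩ (.nil) (.nil)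
def t14_2516 : Tr := .node ⟨nat_lit 6, nat_lit 0x200030, nat_lit 0x13120, nat_lit 1, nat_lit 4, nat_lit 0x49⟩ (.nil) (.nil)
def t14_10708 : Tr := .node ⟨nat_lit 9, nat_lit 0x1000080011001100180, nat_lit 0x1000002, nat_lit 0, nat_lit 4, nat_lit 0x48⟩ (.nil) (.nil)
def t14_6612 : Tr := .node ⟨nat_lit 7, nat_lit 0x1000400060, nat_lit 0x102020, nat_lit 2, nat_lit 4, nat_lit 0x49⟩ (.nil) (.nil)
def t14_14804 : Tr := .node ⟨nat_lit 9, nat_lit 0x100010000800140012001c001c0, nat_lit 0x110121, nat_lit 1, nat_lit 4, nat_lit 0x46⟩ (.nil) (.nil)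
def t14_1492 : Tr := .node ⟨nat_lit 7, nat_lit 0x800600050, nat_lit 0x1000211, nat_lit 1, nat_lit 4, nat_lit 0x47⟩ (.nil) (.nil)
def t14_9684 : Tr := .node ⟨nat_lit 8, nat_lit 0x800040009000c000d0, nat_lit 0x110021, nat_lit 1, nat_lit 4, nat_lit 0x47⟩ (.nil) (.nil)
def t14_5588 : Tr := .node ⟨nat_lit 7, nat_lit 0x4000600060, nat_lit 0x111220, nat_lit 2, nat_lit 4, nat_lit 0x49⟩ (.nil) (.nil)
def t14_13780 : Tr := .node ⟨nat_lit 7, nat_lit 0x40001000100060, nat_lit 1, nat_lit 1, nat_lit 4, nat_lit 0x46⟩ (.nil) (.nil)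
def t14_3540 : Tr := .node ⟨nat_lit 8, nat_lit 0x9000c0006000e0, nat_lit 0x1102, nat_lit 0, nat_lit 4, nat_lit 0x45⟩ (.nil) (.nil)
def t14_11732 : Tr := .node ⟨nat_lit 9, nat_lit 0x1000040004001800180, nat_lit 0x121010, nat_lit 1, nat_lit 4, nat_lit 0x49⟩ (.nil) (.nil)
def t14_7636 : Tr := .node ⟨nat_lit 0xa, nat_lit 0x10002000200008000400210, nat_lit 0x22000, nat_lit 1, nat_lit 4, nat_lit 0x4a⟩ (.nil) (.nil)
def t14_980 : Tr := .node ⟨nat_lit 5, nat_lit 0x100012, nat_lit 0x2121, nat_lit 6, nat_lit 4, nat_lit 0x48⟩ (.nil) (.nil)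
def t14_9172 : Tr := .node ⟨nat_lit 7, nat_lit 0x20005000680070, nat_lit 0x1001122, nat_lit 1, nat_lit 4, nat_lit 0x45⟩ (.nil) (.nil)
def t14_5076 : Tr := .node ⟨nat_lit 6, nat_lit 0x10001000200030, nat_lit 0x103111, nat_lit 4, nat_lit 4, nat_lit 0x48⟩ (.nil) (.nil)
def t14_13268 : Tr := .node ⟨nat_lit 7, nat_lit 0x40001000100060, nat_lit 0x2100101, nat_lit 0, nat_lit 3, nat_lit 0x47⟩ (.nil) (.nil)
def t14_3028 : Tr := .node ⟨nat_lit 8, nat_lit 0x40002000a000d000d0, nat_lit 0x1010211, nat_lit 0, nat_lit 4, nat_lit 0x46⟩ (.nil) (.nil)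
def t14_11220 : Tr := .node ⟨nat_lit 7, nat_lit 0x20006000500070, nat_lit 0x11140, nat_lit 0, nat_lit 4, nat_lit 0x46⟩ (.nil) (.nil)
def t14_7124 : Tr := .node ⟨nat_lit 8, nat_lit 0x20002000c000c0, nat_lit 0x10021011, nat_lit 1, nat_lit 4, nat_lit 0x49⟩ (.nil) (.nil)
def t14_15316 : Tr := .node ⟨nat_lit 8, nat_lit 0x800080004000a000d0, nat_lit 0x1021100, nat_lit 1, nat_lit 4, nat_lit 0x48⟩ (.nil) (.nil)
def t14_2004 : Tr := .node ⟨nat_lit 6, nat_lit 0x20002000200010, nat_lit 0x13100, nat_lit 7, nat_lit 4, nat_lit 0x49⟩ (.nil) (.nil)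
def t14_10196 : Tr := .node ⟨nat_lit 8, nat_lit 0x80004000a000a000c000c0, nat_lit 0x121020, nat_lit 2, nat_lit 4, nat_lit 0x47⟩ (.nil) (.nil)
def t14_6100 : Tr := .node ⟨nat_lit 2, nat_lit 2, nat_lit 0, nat_lit 0xa, nat_lit 3, nat_lit 0x43⟩ (.nil) (.nil)
def t14_14292 : Tr := .node ⟨nat_lit 6, nat_lit 0x2000080030, nat_lit 0x1002, nat_lit 5, nat_lit 4, nat_lit 0x47⟩ (.nil) (.nil)
def t14_4052 : Tr := .node ⟨nat_lit 8, nat_lit 0x800040004000a000c8, nat_lit 0x1001221, nat_lit 0, nat_lit 4, nat_lit 0x48⟩ (.nil) (.nil)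
def t14_12244 : Tr := .node ⟨nat_lit 6, nat_lit 0x200020003000300028, nat_lit 0x12200, nat_lit 5, nat_lit 4, nat_lit 0x47⟩ (.nil) (.nil)
def t14_8148 : Tr := .node ⟨nat_lit 7, nat_lit 0x40001000480060, nat_lit 0x112040, nat_lit 0, nat_lit 4, nat_lit 0x48⟩ (.nil) (.nil)
def t9_468 : Tr := .node ⟨nat_lit 5, nat_lit 0x1000100008, nat_lit 0x23301, nat_lit 0, nat_lit 3, nat_lit 0x48⟩ (.node ⟨nat_lit 8, nat_lit 0x2000800088008800c8, nat_lit 0x31000102, nat_lit 1, nat_lit 4, nat_lit 0x49⟩ (.node ⟨nat_lit 6, nat_lit 0x2000080030, nat_lit 0x22220, nat_lit 0, nat_lit 4, nat_lit 0x48⟩ (.node ⟨nat_lit 7, nat_lit 0x40002000500064, nat_lit 0x110221, nat_lit 0, nat_lit 4, nat_lit 0x47⟩ (.node ⟨nat_lit 6, nat_lit 0x200030, nat_lit 0x2030, nat_lit 0, nat_lit 4, nat_lit 0x48⟩ (t14_468) (t14_8660)) (.node ⟨nat_lit 7, nat_lit 0x400040002000240050, nat_lit 0x1221210,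 nat_lit 0, nat_lit 4, nat_lit 0x49⟩ (t14_4564) (t14_12756))) (.node ⟨nat_lit 6, nat_lit 0x800080030, nat_lit 0x110002, nat_lit 0, nat_lit 4, nat_lit 0x46⟩ (.node ⟨nat_lit 7, nat_lit 0x2000400070, nat_lit 0x111103, nat_lit 0, nat_lit 4, nat_lit 0x48⟩ (t14_2516) (t14_10708)) (.node ⟨nat_lit 7, nat_lit 0x400040004000200020, nat_lit 0x21131, nat_lit 0, nat_lit 4, nat_lit 0x48⟩ (t14_6612) (t14_14804)))) (.node ⟨nat_lit 4, nat_lit 0, nat_lit 0x3000, nat_lit 0, nat_lit 4, nat_lit 0x45⟩ (.node ⟨nat_lit 7, nat_lit 0x200040004000480030, nat_lit 0x1222110, nat_lit 0, nat_lit 4, nat_lit 0x49⟩ (.node ⟨nat_lit 4, nat_lit 0xc000c, nat_lit 0x1010, nat_lit 2, nat_lit 3, nat_lit 0x43⟩ (t14_1492) (t14_9684)) (.node ⟨nat_lit 6, nat_lit 0x20002000100010, nat_lit 0x12222, nat_lit 1, nat_lit 4, nat_lit 0x48⟩ (t14_5588) (t14_13780))) (.node ⟨nat_lit 6, nat_lit 0x2000080030,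 nat_lit 0x1331, nat_lit 0, nat_lit 4, nat_lit 0x47⟩ (.node ⟨nat_lit 5, nat_lit 0x140018, nat_lit 0x1000, nat_lit 3, nat_lit 4, nat_lit 0x44⟩ (t14_3540) (t14_11732)) (.node ⟨nat_lit 4, nat_lit 0x80008, nat_lit 0x2130, nat_lit 4, nat_lit 3, nat_lit 0x47⟩ (t14_7636) (.nil))))) (.node ⟨nat_lit 6, nat_lit 0x20002000200028, nat_lit 0x31101, nat_lit 7, nat_lit 4, nat_lit 0x49⟩ (.node ⟨nat_lit 6, nat_lit 0x2000100030, nat_lit 0x12021, nat_lit 0, nat_lit 3, nat_lit 0x46⟩ (.node ⟨nat_lit 6, nat_lit 0x2000200010, nat_lit 0x11221, nat_lit 0, nat_lit 4, nat_lit 0x48⟩ (.node ⟨nat_lit 6, nat_lit 0x800200032, nat_lit 0x110032, nat_lit 3, nat_lit 4, nat_lit 0x48⟩ (t14_980) (t14_9172)) (.node ⟨nat_lit 7, nat_lit 0x4000400060, nat_lit 0x122211, nat_lit 0, nat_lit 4, nat_lit 0x4a⟩ (t14_5076) (t14_13268))) (.node ⟨nat_lit 6, nat_lit 0x2000080034, nat_lit 0x101201,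 nat_lit 2, nat_lit 4, nat_lit 0x47⟩ (.node ⟨nat_lit 4, nat_lit 0x80008000c, nat_lit 0x1201, nat_lit 0xf, nat_lit 4, nat_lit 0x48⟩ (t14_3028) (t14_11220)) (.node ⟨nat_lit 6, nat_lit 0x20001000100030, nat_lit 0x200320, nat_lit 0, nat_lit 3, nat_lit 0x46⟩ (t14_7124) (t14_15316)))) (.node ⟨nat_lit 5, nat_lit 0x180018, nat_lit 0x11211, nat_lit 5, nat_lit 4, nat_lit 0x47⟩ (.node ⟨nat_lit 5, nat_lit 0x40018, nat_lit 0x30111, nat_lit 5, nat_lit 4, nat_lit 0x48⟩ (.node ⟨nat_lit 7, nat_lit 0x20004000100060, nat_lit 0x123111, nat_lit 0, nat_lit 4, nat_lit 0x49⟩ (t14_2004) (t14_10196)) (.node ⟨nat_lit 8, nat_lit 0x20008000c00030, nat_lit 0x10102200, nat_lit 0, nat_lit 4, nat_lit 0x49⟩ (t14_6100) (t14_14292))) (.node ⟨nat_lit 6, nat_lit 0x800200032, nat_lit 0x210032, nat_lit 3, nat_lit 4, nat_lit 0x49⟩ (.node ⟨nat_lit 8, nat_lit 0x4000a000c800e0, nat_lit 0x1011003,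 nat_lit 0, nat_lit 4, nat_lit 0x47⟩ (t14_4052) (t14_12244)) (.node ⟨nat_lit 6, nat_lit 0x200020, nat_lit 0x11120, nat_lit 5, nat_lit 3, nat_lit 0x48⟩ (t14_8148) (.nil)))))
def t14_52 : Tr := .node ⟨nat_lit 6, nat_lit 0x20, nat_lit 0x111110, nat_lit 6, nat_lit 4, nat_lit 0x4b⟩ (.nil) (.nil)
def t14_8244 : Tr := .node ⟨nat_lit 8, nat_lit 0x40008000800090006000d0, nat_lit 0x10201030, nat_lit 0, nat_lit 4, nat_lit 0x47⟩ (.nil) (.nil)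
def t14_4148 : Tr := .node ⟨nat_lit 8, nat_lit 0x800040002000c000c8, nat_lit 0x1111120, nat_lit 0, nat_lit 4, nat_lit 0x48⟩ (.nil) (.nil)
def t14_12340 : Tr := .node ⟨nat_lit 7, nat_lit 0x40002000600060, nat_lit 0x21140, nat_lit 0, nat_lit 4, nat_lit 0x48⟩ (.nil) (.nil)
def t14_2100 : Tr := .node ⟨nat_lit 7, nat_lit 0x10006000600050, nat_lit 0x110310, nat_lit 0, nat_lit 3, nat_lit 0x45⟩ (.nil) (.nil)
def t14_10292 : Tr := .node ⟨nat_lit 8, nat_lit 0x200080008000c800a8, nat_lit 0x10000022, nat_lit 2, nat_lit 4, nat_lit 0x47⟩ (.nil) (.nil)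
def t14_6196 : Tr := .node ⟨nat_lit 6, nat_lit 0x2000200010, nat_lit 0x11101, nat_lit 4, nat_lit 4, nat_lit 0x48⟩ (.nil) (.nil)
def t14_14388 : Tr := .node ⟨nat_lit 8, nat_lit 0x800040004000a000d000d0, nat_lit 0x102030, nat_lit 0, nat_lit 4, nat_lit 0x45⟩ (.nil) (.nil)
def t14_1076 : Tr := .node ⟨nat_lit 6, nat_lit 0x20, nat_lit 0x11112, nat_lit 0, nat_lit 4, nat_lit 0x49⟩ (.nil) (.nil)
def t14_9268 : Tr := .node ⟨nat_lit 6, nat_lit 0x20001000100028, nat_lit 0x1200, nat_lit 1, nat_lit 4, nat_lit 0x45⟩ (.nil) (.nil)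
def t14_5172 : Tr := .node ⟨nat_lit 7, nat_lit 0x10004000600060, nat_lit 0x100330, nat_lit 1, nat_lit 4, nat_lit 0x48⟩ (.nil) (.nil)
def t14_13364 : Tr := .node ⟨nat_lit 7, nat_lit 0x40003000580068, nat_lit 0x2201, nat_lit 1, nat_lit 4, nat_lit 0x45⟩ (.nil) (.nil)
def t14_3124 : Tr := .node ⟨nat_lit 8, nat_lit 0x400080009000c000e000e0, nat_lit 0x1010121, nat_lit 2, nat_lit 4, nat_lit 0x46⟩ (.nil) (.nil)
def t14_11316 : Tr := .node ⟨nat_lit 8, nat_lit 0x800090006000c000c0, nat_lit 0x21120, nat_lit 1, nat_lit 4, nat_lit 0x47⟩ (.nil) (.nil)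
def t14_7220 : Tr := .node ⟨nat_lit 6, nat_lit 0x800080030, nat_lit 0x101211, nat_lit 2, nat_lit 4, nat_lit 0x48⟩ (.nil) (.nil)
def t14_15412 : Tr := .node ⟨nat_lit 8, nat_lit 0x80004000a000a0005000e0, nat_lit 0x11111100, nat_lit 0, nat_lit 4, nat_lit 0x47⟩ (.nil) (.nil)
def t14_564 : Tr := .node ⟨nat_lit 6, nat_lit 0x2000080034, nat_lit 0x102, nat_lit 0, nat_lit 4, nat_lit 0x44⟩ (.nil) (.nil)
def t14_8756 : Tr := .node ⟨nat_lit 7, nat_lit 0x40004000200020, nat_lit 0x22000, nat_lit 0, nat_lit 4, nat_lit 0x48⟩ (.nil) (.nil)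
def t14_4660 : Tr := .node ⟨nat_lit 8, nat_lit 0x2000800088008800c0, nat_lit 0x10001221, nat_lit 0, nat_lit 4, nat_lit 0x48⟩ (.nil) (.nil)
def t14_12852 : Tr := .node ⟨nat_lit 7, nat_lit 0x1000600050, nat_lit 0x102020, nat_lit 2, nat_lit 4, nat_lit 0x48⟩ (.nil) (.nil)
def t14_2612 : Tr := .node ⟨nat_lit 8, nat_lit 0x200080004000c0, nat_lit 0x1010102, nat_lit 1, nat_lit 4, nat_lit 0x49⟩ (.nil) (.nil)
def t14_10804 : Tr := .node ⟨nat_lit 5, nat_lit 0x100008, nat_lit 0x2201, nat_lit 9, nat_lit 3, nat_lit 0x48⟩ (.nil) (.nil)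
def t14_6708 : Tr := .node ⟨nat_lit 5, nat_lit 0x10, nat_lit 0x1112, nat_lit 7, nat_lit 4, nat_lit 0x49⟩ (.nil) (.nil)
def t14_14900 : Tr := .node ⟨nat_lit 7, nat_lit 0x10004000440064, nat_lit 0x1000111, nat_lit 3, nat_lit 4, nat_lit 0x47⟩ (.nil) (.nil)
def t14_1588 : Tr := .node ⟨nat_lit 7, nat_lit 0x20003000600050, nat_lit 0x1012210, nat_lit 0, nat_lit 4, nat_lit 0x47⟩ (.nil) (.nil)
def t14_9780 : Tr := .node ⟨nat_lit 7, nat_lit 0x4000500060, nat_lit 0x101020, nat_lit 0, nat_lit 4, nat_lit 0x47⟩ (.nil) (.nil)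
def t14_5684 : Tr := .node ⟨nat_lit 7, nat_lit 0x800500060, nat_lit 0x110022, nat_lit 3, nat_lit 4, nat_lit 0x48⟩ (.nil) (.nil)
def t14_13876 : Tr := .node ⟨nat_lit 6, nat_lit 0x280030, nat_lit 0x22, nat_lit 0, nat_lit 4, nat_lit 0x45⟩ (.nil) (.nil)
def t14_3636 : Tr := .node ⟨nat_lit 5, nat_lit 0x18, nat_lit 0x30100, nat_lit 0, nat_lit 4, nat_lit 0x47⟩ (.nil) (.nil)
def t14_11828 : Tr := .node ⟨nat_lit 6, nat_lit 0x2000100008, nat_lit 3, nat_lit 7, nat_lit 4, nat_lit 0x48⟩ (.nil) (.nil)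
def t14_7732 : Tr := .node ⟨nat_lit 5, nat_lit 0x1000100008, nat_lit 0x102, nat_lit 5, nat_lit 4, nat_lit 0x46⟩ (.nil) (.nil)
def t9_52 : Tr := .node ⟨nat_lit 5, nat_lit 0x80010, nat_lit 0x13311, nat_lit 2, nat_lit 4, nat_lit 0x4a⟩ (.node ⟨nat_lit 6, nat_lit 0x1000100020, nat_lit 0x113211, nat_lit 2, nat_lit 4, nat_lit 0x4a⟩ (.node ⟨nat_lit 5, nat_lit 0x180018, nat_lit 0x420, nat_lit 4, nat_lit 4, nat_lit 0x47⟩ (.node ⟨nat_lit 6, nat_lit 0x2000200010, nat_lit 0x12101, nat_lit 2, nat_lit 4, nat_lit 0x48⟩ (.node ⟨nat_lit 5, nat_lit 0x140018, nat_lit 0x2231, nat_lit 2, nat_lit 4, nat_lit 0x47⟩ (t14_52) (t14_8244)) (.node ⟨nat_lit 7, nat_lit 0x4000100060, nat_lit 0x1010100, nat_lit 0, nat_lit 4, nat_lit 0x48⟩ (t14_4148) (t14_12340))) (.node ⟨nat_lit 7, nat_lit 0x40001000480060, nat_lit 0x2201012, nat_lit 0, nat_lit 4, nat_lit 0x49⟩ (.node ⟨nat_lit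 6, nat_lit 0x2000100024, nat_lit 0x11210, nat_lit 1, nat_lit 4, nat_lit 0x47⟩ (t14_2100) (t14_10292)) (.node ⟨nat_lit 5, nat_lit 0x40018, nat_lit 0x20101, nat_lit 2, nat_lit 4, nat_lit 0x46⟩ (t14_6196) (t14_14388)))) (.node ⟨nat_lit 4, nat_lit 0x40008, nat_lit 0x222, nat_lit 6, nat_lit 4, nat_lit 0x47⟩ (.node ⟨nat_lit 6, nat_lit 0x1000200022, nat_lit 0x202011, nat_lit 1, nat_lit 4, nat_lit 0x48⟩ (.node ⟨nat_lit 6, nat_lit 0x2000080030, nat_lit 0x1230, nat_lit 1, nat_lit 4, nat_lit 0x47⟩ (t14_1076) (t14_9268)) (.node ⟨nat_lit 6, nat_lit 0x200030, nat_lit 0x121121, nat_lit 1, nat_lit 3, nat_lit 0x48⟩ (t14_5172) (t14_13364))) (.node ⟨nat_lit 2, nat_lit 0, nat_lit 0x21, nat_lit 0xe, nat_lit 4, nat_lit 0x47⟩ (.node ⟨nat_lit 5, nat_lit 0x100018, nat_lit 0x10230, nat_lit 7, nat_lit 4, nat_lit 0x49⟩ (t14_3124) (t14_11316)) (.node ⟨nat_lit 5, nat_lit 0x180018,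 nat_lit 0x11121, nat_lit 9, nat_lit 4, nat_lit 0x48⟩ (t14_7220) (t14_15412))))) (.node ⟨nat_lit 5, nat_lit 0x1000100008, nat_lit 0x3103, nat_lit 5, nat_lit 4, nat_lit 0x49⟩ (.node ⟨nat_lit 7, nat_lit 0x40002000200010, nat_lit 0x20100, nat_lit 1, nat_lit 3, nat_lit 0x47⟩ (.node ⟨nat_lit 6, nat_lit 0x20002000240028, nat_lit 0x21111, nat_lit 4, nat_lit 4, nat_lit 0x47⟩ (.node ⟨nat_lit 7, nat_lit 0x4000400020, nat_lit 0x211101, nat_lit 6, nat_lit 4, nat_lit 0x4b⟩ (t14_564) (t14_8756)) (.node ⟨nat_lit 7, nat_lit 0x10001800600050, nat_lit 0x1011011, nat_lit 1, nat_lit 4, nat_lit 0x47⟩ (t14_4660) (t14_12852))) (.node ⟨nat_lit 5, nat_lit 0x40018, nat_lit 0x10012, nat_lit 2, nat_lit 4, nat_lit 0x45⟩ (.node ⟨nat_lit 6, nat_lit 0x2000080010, nat_lit 0x11013, nat_lit 5, nat_lit 4, nat_lit 0x49⟩ (t14_2612) (t14_10804)) (.node ⟨nat_lit 7, nat_lit 0x2000200040,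 nat_lit 0x2111102, nat_lit 1, nat_lit 4, nat_lit 0x4b⟩ (t14_6708) (t14_14900)))) (.node ⟨nat_lit 6, nat_lit 0x2000080030, nat_lit 0x12111, nat_lit 0, nat_lit 4, nat_lit 0x47⟩ (.node ⟨nat_lit 5, nat_lit 0x100018, nat_lit 0x2221, nat_lit 4, nat_lit 4, nat_lit 0x48⟩ (.node ⟨nat_lit 7, nat_lit 0x6000600050, nat_lit 0x11103, nat_lit 1, nat_lit 4, nat_lit 0x47⟩ (t14_1588) (t14_9780)) (.node ⟨nat_lit 8, nat_lit 0x20008000800040, nat_lit 0x11111210, nat_lit 0, nat_lit 4, nat_lit 0x4b⟩ (t14_5684) (t14_13876))) (.node ⟨nat_lit 4, nat_lit 0x80008, nat_lit 0x2221, nat_lit 5, nat_lit 3, nat_lit 0x47⟩ (.node ⟨nat_lit 8, nat_lit 0x200040008000c800c8, nat_lit 0x1000030, nat_lit 1, nat_lit 4, nat_lit 0x46⟩ (t14_3636) (t14_11828)) (.node ⟨nat_lit 6, nat_lit 0x100020, nat_lit 0x111021, nat_lit 1, nat_lit 4, nat_lit 0x49⟩ (t14_7732) (.nil)))))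
def t14_308 : Tr := .node ⟨nat_lit 5, nat_lit 0x800080010, nat_lit 0x41212, nat_lit 0, nat_lit 3, nat_lit 0x48⟩ (.nil) (.nil)
def t14_8500 : Tr := .node ⟨nat_lit 8, nat_lit 0x8000200020009000c0, nat_lit 0x1010011, nat_lit 0, nat_lit 4, nat_lit 0x47⟩ (.nil) (.nil)
def t14_4404 : Tr := .node ⟨nat_lit 9, nat_lit 0x1000080002000400110, nat_lit 0x101100100, nat_lit 1, nat_lit 4, nat_lit 0x4a⟩ (.nil) (.nil)
def t14_12596 : Tr := .node ⟨nat_lit 6, nat_lit 0x800300038, nat_lit 0x110303, nat_lit 0, nat_lit 4, nat_lit 0x46⟩ (.nil) (.nil)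
def t14_2356 : Tr := .node ⟨nat_lit 8, nat_lit 0x400080002000d000d0, nat_lit 0x2102110, nat_lit 0, nat_lit 4, nat_lit 0x48⟩ (.nil) (.nil)
def t14_10548 : Tr := .node ⟨nat_lit 7, nat_lit 0x20003000600050, nat_lit 0x1022, nat_lit 4, nat_lit 4, nat_lit 0x46⟩ (.nil) (.nil)
def t14_6452 : Tr := .node ⟨nat_lit 8, nat_lit 0x40008000600060009000c0, nat_lit 0x1010012, nat_lit 0, nat_lit 4, nat_lit 0x46⟩ (.nil) (.nil)
def t14_14644 : Tr := .node ⟨nat_lit 8, nat_lit 0x800020002000c000d0, nat_lit 0x1020011, nat_lit 0, nat_lit 4, nat_lit 0x47⟩ (.nil) (.nil)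
def t14_1332 : Tr := .node ⟨nat_lit 7, nat_lit 0x400040004000200020, nat_lit 0x21031, nat_lit 0, nat_lit 4, nat_lit 0x48⟩ (.nil) (.nil)
def t14_9524 : Tr := .node ⟨nat_lit 7, nat_lit 0x40001000480068, nat_lit 0x1011011, nat_lit 1, nat_lit 4, nat_lit 0x47⟩ (.nil) (.nil)
def t14_5428 : Tr := .node ⟨nat_lit 6, nat_lit 0x200020, nat_lit 0x11132, nat_lit 3, nat_lit 4, nat_lit 0x4a⟩ (.nil) (.nil)
def t14_13620 : Tr := .node ⟨nat_lit 6, nat_lit 0x20001000100010, nat_lit 0x100, nat_lit 1, nat_lit 3, nat_lit 0x45⟩ (.nil) (.nil)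
def t14_3380 : Tr := .node ⟨nat_lit 7, nat_lit 0x20004000400060, nat_lit 0x120001, nat_lit 1, nat_lit 4, nat_lit 0x48⟩ (.nil) (.nil)
def t14_11572 : Tr := .node ⟨nat_lit 5, nat_lit 0x1800180018, nat_lit 0x410, nat_lit 7, nat_lit 4, nat_lit 0x46⟩ (.nil) (.nil)
def t14_7476 : Tr := .node ⟨nat_lit 7, nat_lit 0x400060, nat_lit 0x1011111, nat_lit 5, nat_lit 4, nat_lit 0x4b⟩ (.nil) (.nil)
def t14_820 : Tr := .node ⟨nat_lit 8, nat_lit 0x800080002000c0, nat_lit 0x113110, nat_lit 1, nat_lit 4, nat_lit 0x4a⟩ (.nil) (.nil)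
def t14_9012 : Tr := .node ⟨nat_lit 9, nat_lit 0x100010000400120011001a0, nat_lit 0x1111102, nat_lit 0, nat_lit 4, nat_lit 0x48⟩ (.nil) (.nil)
def t14_4916 : Tr := .node ⟨nat_lit 9, nat_lit 0x10000400080, nat_lit 0x11111000, nat_lit 3, nat_lit 4, nat_lit 0x4d⟩ (.nil) (.nil)
def t14_13108 : Tr := .node ⟨nat_lit 5, nat_lit 0x1000080018, nat_lit 0x30120, nat_lit 1, nat_lit 3, nat_lit 0x46⟩ (.nil) (.nil)
def t14_2868 : Tr := .node ⟨nat_lit 8, nat_lit 0x8000c000a000c8, nat_lit 0x13102, nat_lit 0, nat_lit 4, nat_lit 0x48⟩ (.nil) (.nil)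
def t14_11060 : Tr := .node ⟨nat_lit 7, nat_lit 0x10001000600060, nat_lit 0x1101020, nat_lit 0, nat_lit 4, nat_lit 0x47⟩ (.nil) (.nil)
def t14_6964 : Tr := .node ⟨nat_lit 7, nat_lit 0x1000080060, nat_lit 0x2101001, nat_lit 1, nat_lit 4, nat_lit 0x49⟩ (.nil) (.nil)
def t14_15156 : Tr := .node ⟨nat_lit 8, nat_lit 0x800080009000c00060, nat_lit 0x1110021, nat_lit 1, nat_lit 4, nat_lit 0x48⟩ (.nil) (.nil)
def t14_1844 : Tr := .node ⟨nat_lit 6, nat_lit 0x800200030, nat_lit 0x30022, nat_lit 1, nat_lit 4, nat_lit 0x48⟩ (.nil) (.nil)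
def t14_10036 : Tr := .node ⟨nat_lit 7, nat_lit 0x5000600060, nat_lit 0x101220, nat_lit 0, nat_lit 4, nat_lit 0x47⟩ (.nil) (.nil)
def t14_5940 : Tr := .node ⟨nat_lit 8, nat_lit 0x80008000c0, nat_lit 0x111210, nat_lit 3, nat_lit 4, nat_lit 0x4b⟩ (.nil) (.nil)
def t14_14132 : Tr := .node ⟨nat_lit 7, nat_lit 0x40004000400068, nat_lit 0x111002, nat_lit 2, nat_lit 4, nat_lit 0x48⟩ (.nil) (.nil)
def t14_3892 : Tr := .node ⟨nat_lit 8, nat_lit 0x400080009000d000d000e0, nat_lit 0x10211100, nat_lit 1, nat_lit 4, nat_lit 0x46⟩ (.nil) (.nil)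
def t14_12084 : Tr := .node ⟨nat_lit 7, nat_lit 0x20006000500068, nat_lit 0x111301, nat_lit 2, nat_lit 4, nat_lit 0x47⟩ (.nil) (.nil)
def t14_7988 : Tr := .node ⟨nat_lit 0xb, nat_lit 0x200040004000100008004200420, nat_lit 0x110021, nat_lit 0, nat_lit 4, nat_lit 0x4a⟩ (.nil) (.nil)
def t9_308 : Tr := .node ⟨nat_lit 5, nat_lit 0, nat_lit 0x32111, nat_lit 2, nat_lit 4, nat_lit 0x4b⟩ (.node ⟨nat_lit 6, nat_lit 0x200038, nat_lit 0x31202, nat_lit 1, nat_lit 4, nat_lit 0x49⟩ (.node ⟨nat_lit 7, nat_lit 0, nat_lit 0x3111111, nat_lit 2, nat_lit 4, nat_lit 0x4e⟩ (.node ⟨nat_lit 4, nat_lit 0x8000c, nat_lit 0x1122, nat_lit 8, nat_lit 4, nat_lit 0x47⟩ (.node ⟨nat_lit 5, nat_lit 0x800080010, nat_lit 0x12211, nat_lit 6, nat_lit 4, nat_lit 0x49⟩ (t14_308) (t14_8500)) (.node ⟨nat_lit 7, nat_lit 0x20004000640068, nat_lit 0x1011010, nat_lit 1, nat_lit 4, nat_lit 0x46⟩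 (t14_4404) (t14_12596))) (.node ⟨nat_lit 7, nat_lit 0x10001000600060, nat_lit 0x2011122, nat_lit 0, nat_lit 4, nat_lit 0x48⟩ (.node ⟨nat_lit 6, nat_lit 0x80030, nat_lit 0x111102, nat_lit 0, nat_lit 3, nat_lit 0x47⟩ (t14_2356) (t14_10548)) (.node ⟨nat_lit 6, nat_lit 0x200030, nat_lit 0x21120, nat_lit 3, nat_lit 4, nat_lit 0x49⟩ (t14_6452) (t14_14644)))) (.node ⟨nat_lit 6, nat_lit 0x200030, nat_lit 0x21101, nat_lit 1, nat_lit 4, nat_lit 0x48⟩ (.node ⟨nat_lit 6, nat_lit 0x800100020, nat_lit 0x222220, nat_lit 0, nat_lit 4, nat_lit 0x4a⟩ (.node ⟨nat_lit 7, nat_lit 0x400020002000500070, nat_lit 0x1011003, nat_lit 1, nat_lit 4, nat_lit 0x46⟩ (t14_1332) (t14_9524)) (.node ⟨nat_lit 7, nat_lit 0x20002000400060, nat_lit 0x1022012, nat_lit 2, nat_lit 4, nat_lit 0x49⟩ (t14_5428) (t14_13620))) (.node ⟨nat_lit 6, nat_lit 0x2000080030, nat_lit 0x112020, nat_lit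 0, nat_lit 4, nat_lit 0x48⟩ (.node ⟨nat_lit 8, nat_lit 0x80008000800040009000e0, nat_lit 0x1110300, nat_lit 1, nat_lit 4, nat_lit 0x48⟩ (t14_3380) (t14_11572)) (.node ⟨nat_lit 6, nat_lit 0x10002000200034, nat_lit 0x11212, nat_lit 4, nat_lit 4, nat_lit 0x47⟩ (t14_7476) (.nil))))) (.node ⟨nat_lit 5, nat_lit 0x10, nat_lit 0x3112, nat_lit 3, nat_lit 4, nat_lit 0x49⟩ (.node ⟨nat_lit 5, nat_lit 0x80010, nat_lit 0x2120, nat_lit 0, nat_lit 4, nat_lit 0x47⟩ (.node ⟨nat_lit 4, nat_lit 0x40008, nat_lit 0x1111, nat_lit 6, nat_lit 4, nat_lit 0x46⟩ (.node ⟨nat_lit 5, nat_lit 0x80010, nat_lit 0x23112, nat_lit 2, nat_lit 4, nat_lit 0x4a⟩ (t14_820) (t14_9012)) (.node ⟨nat_lit 7, nat_lit 0x400060, nat_lit 0x2111102, nat_lit 1, nat_lit 4, nat_lit 0x4b⟩ (t14_4916) (t14_13108))) (.node ⟨nat_lit 7, nat_lit 0x4000100060, nat_lit 0x1111102, nat_lit 0, nat_lit 4, nat_lit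 0x49⟩ (.node ⟨nat_lit 3, nat_lit 4, nat_lit 0x112, nat_lit 0xb, nat_lit 4, nat_lit 0x47⟩ (t14_2868) (t14_11060)) (.node ⟨nat_lit 0xa, nat_lit 0x20002000080010002100220, nat_lit 0x1101110100, nat_lit 0, nat_lit 4, nat_lit 0x4b⟩ (t14_6964) (t14_15156)))) (.node ⟨nat_lit 5, nat_lit 0x100018, nat_lit 0x12110, nat_lit 5, nat_lit 4, nat_lit 0x48⟩ (.node ⟨nat_lit 5, nat_lit 0x1000100008, nat_lit 0x12411, nat_lit 0, nat_lit 3, nat_lit 0x47⟩ (.node ⟨nat_lit 4, nat_lit 0xc000c, nat_lit 0x1130, nat_lit 3, nat_lit 3, nat_lit 0x44⟩ (t14_1844) (t14_10036)) (.node ⟨nat_lit 7, nat_lit 0x6000600050, nat_lit 0x22102, nat_lit 1, nat_lit 4, nat_lit 0x48⟩ (t14_5940) (t14_14132))) (.node ⟨nat_lit 7, nat_lit 0x40002000500060, nat_lit 0x13011, nat_lit 1, nat_lit 4, nat_lit 0x47⟩ (.node ⟨nat_lit 6, nat_lit 0x1000280034, nat_lit 0x11200, nat_lit 1, nat_lit 4, nat_lit 0x46⟩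 (t14_3892) (t14_12084)) (.node ⟨nat_lit 7, nat_lit 0x40004000100060, nat_lit 0x111112, nat_lit 1, nat_lit 4, nat_lit 0x48⟩ (t14_7988) (.nil)))))
def t14_180 : Tr := .node ⟨nat_lit 7, nat_lit 0x400060, nat_lit 0x1021011, nat_lit 1, nat_lit 4, nat_lit 0x4a⟩ (.nil) (.nil)
def t14_8372 : Tr := .node ⟨nat_lit 7, nat_lit 0x4000200044, nat_lit 0x110213, nat_lit 0, nat_lit 4, nat_lit 0x49⟩ (.nil) (.nil)
def t14_4276 : Tr := .node ⟨nat_lit 6, nat_lit 0x2000200010, nat_lit 0x12111, nat_lit 5, nat_lit 4, nat_lit 0x49⟩ (.nil) (.nil)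
def t14_12468 : Tr := .node ⟨nat_lit 7, nat_lit 0x200020004000440070, nat_lit 0x13002, nat_lit 1, nat_lit 4, nat_lit 0x46⟩ (.nil) (.nil)
def t14_2228 : Tr := .node ⟨nat_lit 7, nat_lit 0x40004000400020, nat_lit 0x112210, nat_lit 3, nat_lit 4, nat_lit 0x4a⟩ (.nil) (.nil)
def t14_10420 : Tr := .node ⟨nat_lit 7, nat_lit 0x20002000400042, nat_lit 0x10022, nat_lit 4, nat_lit 4, nat_lit 0x48⟩ (.nil) (.nil)
def t14_6324 : Tr := .node ⟨nat_lit 7, nat_lit 0x20004000500068, nat_lit 0x100210, nat_lit 3, nat_lit 4, nat_lit 0x47⟩ (.nil) (.nil)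
def t14_14516 : Tr := .node ⟨nat_lit 7, nat_lit 0x4000400060, nat_lit 0x21220, nat_lit 3, nat_lit 4, nat_lit 0x4a⟩ (.nil) (.nil)
def t14_1204 : Tr := .node ⟨nat_lit 7, nat_lit 0x1000500060, nat_lit 0x101212, nat_lit 2, nat_lit 4, nat_lit 0x48⟩ (.nil) (.nil)
def t14_9396 : Tr := .node ⟨nat_lit 7, nat_lit 0x40004000400060, nat_lit 0x22102, nat_lit 1, nat_lit 3, nat_lit 0x47⟩ (.nil) (.nil)
def t14_5300 : Tr := .node ⟨nat_lit 6, nat_lit 0x2000300034, nat_lit 0x111120, nat_lit 5, nat_lit 4, nat_lit 0x48⟩ (.nil) (.nil)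
def t14_13492 : Tr := .node ⟨nat_lit 7, nat_lit 0x10004000440060, nat_lit 0x310, nat_lit 4, nat_lit 4, nat_lit 0x48⟩ (.nil) (.nil)
def t14_3252 : Tr := .node ⟨nat_lit 8, nat_lit 0x800080004000c000d0, nat_lit 0x120211, nat_lit 0, nat_lit 4, nat_lit 0x48⟩ (.nil) (.nil)
def t14_11444 : Tr := .node ⟨nat_lit 8, nat_lit 0x400040008000d000d0, nat_lit 0x1101120, nat_lit 2, nat_lit 4, nat_lit 0x48⟩ (.nil) (.nil)
def t14_7348 : Tr := .node ⟨nat_lit 7, nat_lit 0x800100060, nat_lit 0x1012001, nat_lit 1, nat_lit 4, nat_lit 0x49⟩ (.nil) (.nil)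
def t14_15540 : Tr := .node ⟨nat_lit 8, nat_lit 0x80, nat_lit 0x2111110, nat_lit 4, nat_lit 4, nat_lit 0x4e⟩ (.nil) (.nil)
def t14_692 : Tr := .node ⟨nat_lit 7, nat_lit 0x1000400060, nat_lit 0x1031, nat_lit 1, nat_lit 4, nat_lit 0x48⟩ (.nil) (.nil)
def t14_8884 : Tr := .node ⟨nat_lit 7, nat_lit 0x4000400060, nat_lit 0x11003, nat_lit 0, nat_lit 4, nat_lit 0x48⟩ (.nil) (.nil)
def t14_4788 : Tr := .node ⟨nat_lit 7, nat_lit 0x2000500060, nat_lit 0x1002022, nat_lit 0, nat_lit 4, nat_lit 0x48⟩ (.nil) (.nil)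
def t14_12980 : Tr := .node ⟨nat_lit 3, nat_lit 0x40004, nat_lit 0x230, nat_lit 8, nat_lit 3, nat_lit 0x46⟩ (.nil) (.nil)
def t14_2740 : Tr := .node ⟨nat_lit 8, nat_lit 0x80004000a000c0, nat_lit 0x122010, nat_lit 1, nat_lit 4, nat_lit 0x49⟩ (.nil) (.nil)
def t14_10932 : Tr := .node ⟨nat_lit 8, nat_lit 0x80004000a000a000c000d0, nat_lit 0x21031, nat_lit 2, nat_lit 4, nat_lit 0x46⟩ (.nil) (.nil)
def t14_6836 : Tr := .node ⟨nat_lit 7, nat_lit 0x4000440060, nat_lit 0x111310, nat_lit 0, nat_lit 4, nat_lit 0x49⟩ (.nil) (.nil)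
def t14_15028 : Tr := .node ⟨nat_lit 9, nat_lit 0x10000400120012001800180, nat_lit 0x1111110, nat_lit 2, nat_lit 4, nat_lit 0x48⟩ (.nil) (.nil)
def t14_1716 : Tr := .node ⟨nat_lit 7, nat_lit 0x20005000680070, nat_lit 0x112112, nat_lit 0, nat_lit 4, nat_lit 0x46⟩ (.nil) (.nil)
def t14_9908 : Tr := .node ⟨nat_lit 5, nat_lit 0x180018, nat_lit 0x143, nat_lit 3, nat_lit 4, nat_lit 0x46⟩ (.nil) (.nil)
def t14_5812 : Tr := .node ⟨nat_lit 7, nat_lit 0x4000400020, nat_lit 0x11103, nat_lit 1, nat_lit 4, nat_lit 0x49⟩ (.nil) (.nil)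
def t14_14004 : Tr := .node ⟨nat_lit 7, nat_lit 0x4000200020, nat_lit 0x11221, nat_lit 0, nat_lit 4, nat_lit 0x49⟩ (.nil) (.nil)
def t14_3764 : Tr := .node ⟨nat_lit 9, nat_lit 0x1000100010000800080014001c0, nat_lit 0x202001, nat_lit 1, nat_lit 4, nat_lit 0x48⟩ (.nil) (.nil)
def t14_11956 : Tr := .node ⟨nat_lit 4, nat_lit 0x8000a, nat_lit 0x131, nat_lit 8, nat_lit 4, nat_lit 0x47⟩ (.nil) (.nil)
def t14_7860 : Tr := .node ⟨nat_lit 7, nat_lit 0x40001000100060, nat_lit 0x102001, nat_lit 1, nat_lit 4, nat_lit 0x47⟩ (.nil) (.nil)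
def t9_180 : Tr := .node ⟨nat_lit 3, nat_lit 0, nat_lit 0x331, nat_lit 7, nat_lit 4, nat_lit 0x49⟩ (.node ⟨nat_lit 6, nat_lit 0x80030, nat_lit 0x111302, nat_lit 0, nat_lit 4, nat_lit 0x49⟩ (.node ⟨nat_lit 6, nat_lit 0x800280030, nat_lit 0x30201, nat_lit 0, nat_lit 4, nat_lit 0x47⟩ (.node ⟨nat_lit 6, nat_lit 0x200022, nat_lit 0x211000, nat_lit 0, nat_lit 4, nat_lit 0x48⟩ (.node ⟨nat_lit 7, nat_lit 0x4000400060, nat_lit 0x211202, nat_lit 0, nat_lit 4, nat_lit 0x4a⟩ (t14_180) (t14_8372)) (.node ⟨nat_lit 6, nat_lit 0x800280030, nat_lit 0x1102, nat_lit 0, nat_lit 4, nat_lit 0x45⟩ (t14_4276) (t14_12468))) (.node ⟨nat_lit 6, nat_lit 0x80030, nat_lit 0x221113, nat_lit 1, nat_lit 4, nat_lit 0x4a⟩ (.node ⟨nat_lit 6, nat_lit 0x1800280030, nat_lit 0x11132, nat_lit 2, nat_lit 4, nat_lit 0x46⟩ (t14_2228) (t14_10420)) (.node ⟨nat_lit 4, nat_lit 0x40008, nat_lit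 0x122, nat_lit 6, nat_lit 4, nat_lit 0x46⟩ (t14_6324) (t14_14516)))) (.node ⟨nat_lit 6, nat_lit 0x2000100010, nat_lit 0x12021, nat_lit 3, nat_lit 4, nat_lit 0x49⟩ (.node ⟨nat_lit 6, nat_lit 0x2000080030, nat_lit 0x211211, nat_lit 2, nat_lit 4, nat_lit 0x49⟩ (.node ⟨nat_lit 6, nat_lit 0x200022, nat_lit 0x111130, nat_lit 2, nat_lit 4, nat_lit 0x4a⟩ (t14_1204) (t14_9396)) (.node ⟨nat_lit 7, nat_lit 0x2000500060, nat_lit 0x1012021, nat_lit 3, nat_lit 4, nat_lit 0x49⟩ (t14_5300) (t14_13492))) (.node ⟨nat_lit 7, nat_lit 0x400020002000280050, nat_lit 0x2022100, nat_lit 0, nat_lit 4, nat_lit 0x48⟩ (.node ⟨nat_lit 6, nat_lit 0x2000100008, nat_lit 0x101010, nat_lit 0, nat_lit 3, nat_lit 0x46⟩ (t14_3252) (t14_11444)) (.node ⟨nat_lit 7, nat_lit 0x20004000100060, nat_lit 0x110011, nat_lit 0, nat_lit 4, nat_lit 0x47⟩ (t14_7348) (t14_15540))))) (.node ⟨nat_lit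 5, nat_lit 0x10, nat_lit 0x31112, nat_lit 4, nat_lit 4, nat_lit 0x4b⟩ (.node ⟨nat_lit 5, nat_lit 0x100018, nat_lit 0x12112, nat_lit 3, nat_lit 4, nat_lit 0x48⟩ (.node ⟨nat_lit 7, nat_lit 0x40004000400020, nat_lit 0x121101, nat_lit 1, nat_lit 4, nat_lit 0x49⟩ (.node ⟨nat_lit 6, nat_lit 0x20001000100028, nat_lit 0x122110, nat_lit 0, nat_lit 4, nat_lit 0x48⟩ (t14_692) (t14_8884)) (.node ⟨nat_lit 6, nat_lit 0x1000280030, nat_lit 0x112001, nat_lit 0, nat_lit 3, nat_lit 0x46⟩ (t14_4788) (t14_12980))) (.node ⟨nat_lit 6, nat_lit 0x1000280030, nat_lit 0x1011, nat_lit 2, nat_lit 4, nat_lit 0x45⟩ (.node ⟨nat_lit 7, nat_lit 0x40002000500068, nat_lit 0x102310, nat_lit 0, nat_lit 4, nat_lit 0x47⟩ (t14_2740) (t14_10932)) (.node ⟨nat_lit 6, nat_lit 0x2000080030, nat_lit 0x110012, nat_lit 2, nat_lit 4, nat_lit 0x47⟩ (t14_6836) (t14_15028)))) (.node ⟨nat_lit 6,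 nat_lit 0x2000080034, nat_lit 0x111202, nat_lit 1, nat_lit 4, nat_lit 0x47⟩ (.node ⟨nat_lit 8, nat_lit 0x40008000c000c4, nat_lit 0x10111211, nat_lit 0, nat_lit 4, nat_lit 0x49⟩ (.node ⟨nat_lit 6, nat_lit 0x1000300028, nat_lit 0x1113, nat_lit 2, nat_lit 4, nat_lit 0x46⟩ (t14_1716) (t14_9908)) (.node ⟨nat_lit 7, nat_lit 0x4000600060, nat_lit 0x22210, nat_lit 2, nat_lit 4, nat_lit 0x49⟩ (t14_5812) (t14_14004))) (.node ⟨nat_lit 6, nat_lit 0xc0030, nat_lit 0x202000, nat_lit 0, nat_lit 4, nat_lit 0x47⟩ (.node ⟨nat_lit 6, nat_lit 0x800300028, nat_lit 0x11003, nat_lit 4, nat_lit 4, nat_lit 0x47⟩ (t14_3764) (t14_11956)) (.node ⟨nat_lit 8, nat_lit 0x800040004000a000d000d0, nat_lit 0x11102021, nat_lit 0, nat_lit 4, nat_lit 0x47⟩ (t14_7860) (.nil)))))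
def t14_436 : Tr := .node ⟨nat_lit 6, nat_lit 0x20002000100038, nat_lit 0x111201, nat_lit 5, nat_lit 4, nat_lit 0x48⟩ (.nil) (.nil)
def t14_8628 : Tr := .node ⟨nat_lit 8, nat_lit 0x800040002000d000c8, nat_lit 0x21000, nat_lit 0, nat_lit 4, nat_lit 0x46⟩ (.nil) (.nil)
def t14_4532 : Tr := .node ⟨nat_lit 6, nat_lit 0x100020, nat_lit 0x111101, nat_lit 0xa, nat_lit 4, nat_lit 0x4b⟩ (.nil) (.nil)
def t14_12724 : Tr := .node ⟨nat_lit 7, nat_lit 0x2000500060, nat_lit 0x1011020, nat_lit 1, nat_lit 4, nat_lit 0x48⟩ (.nil) (.nil)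
def t14_2484 : Tr := .node ⟨nat_lit 7, nat_lit 0x20005000600068, nat_lit 0x102102, nat_lit 3, nat_lit 4, nat_lit 0x47⟩ (.nil) (.nil)
def t14_10676 : Tr := .node ⟨nat_lit 7, nat_lit 0x2000500060, nat_lit 0x101020, nat_lit 0, nat_lit 4, nat_lit 0x47⟩ (.nil) (.nil)
def t14_6580 : Tr := .node ⟨nat_lit 5, nat_lit 0x180018, nat_lit 0x20130, nat_lit 3, nat_lit 4, nat_lit 0x47⟩ (.nil) (.nil)
def t14_14772 : Tr := .node ⟨nat_lit 7, nat_lit 0x40005000300060, nat_lit 0x110123, nat_lit 0, nat_lit 4, nat_lit 0x47⟩ (.nil) (.nil)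
def t14_1460 : Tr := .node ⟨nat_lit 7, nat_lit 0x400040005800700070, nat_lit 0x102110, nat_lit 1, nat_lit 4, nat_lit 0x45⟩ (.nil) (.nil)
def t14_9652 : Tr := .node ⟨nat_lit 5, nat_lit 0x100010, nat_lit 0x2130, nat_lit 4, nat_lit 3, nat_lit 0x47⟩ (.nil) (.nil)
def t14_5556 : Tr := .node ⟨nat_lit 6, nat_lit 0x2000200030, nat_lit 0x11220, nat_lit 7, nat_lit 4, nat_lit 0x49⟩ (.nil) (.nil)
def t14_13748 : Tr := .node ⟨nat_lit 6, nat_lit 0x200032, nat_lit 0x11020, nat_lit 0, nat_lit 4, nat_lit 0x47⟩ (.nil) (.nil)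
def t14_3508 : Tr := .node ⟨nat_lit 5, nat_lit 0x40018, nat_lit 0, nat_lit 3, nat_lit 4, nat_lit 0x44⟩ (.nil) (.nil)
def t14_11700 : Tr := .node ⟨nat_lit 6, nat_lit 0x800280030, nat_lit 0x11120, nat_lit 3, nat_lit 4, nat_lit 0x47⟩ (.nil) (.nil)
def t14_7604 : Tr := .node ⟨nat_lit 4, nat_lit 0x8000c, nat_lit 0x24, nat_lit 4, nat_lit 4, nat_lit 0x45⟩ (.nil) (.nil)
def t14_948 : Tr := .node ⟨nat_lit 9, nat_lit 0x1000080008000800040, nat_lit 0x1102201, nat_lit 0, nat_lit 4, nat_lit 0x4b⟩ (.nil) (.nil)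
def t14_9140 : Tr := .node ⟨nat_lit 7, nat_lit 0x20001000100040, nat_lit 0x1101221, nat_lit 0, nat_lit 3, nat_lit 0x47⟩ (.nil) (.nil)
def t14_5044 : Tr := .node ⟨nat_lit 5, nat_lit 0x1000180018, nat_lit 0x1141, nat_lit 6, nat_lit 4, nat_lit 0x47⟩ (.nil) (.nil)
def t14_13236 : Tr := .node ⟨nat_lit 7, nat_lit 0x40002000580068, nat_lit 0x11030, nat_lit 0, nat_lit 4, nat_lit 0x45⟩ (.nil) (.nil)
def t14_2996 : Tr := .node ⟨nat_lit 7, nat_lit 0x200020002000400040, nat_lit 0x1021110, nat_lit 4, nat_lit 4, nat_lit 0x49⟩ (.nil) (.nil)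
def t14_11188 : Tr := .node ⟨nat_lit 7, nat_lit 0x20005000500068, nat_lit 0x121201, nat_lit 1, nat_lit 4, nat_lit 0x47⟩ (.nil) (.nil)
def t14_7092 : Tr := .node ⟨nat_lit 7, nat_lit 0x40001000600060, nat_lit 0x112111, nat_lit 2, nat_lit 4, nat_lit 0x48⟩ (.nil) (.nil)
def t14_15284 : Tr := .node ⟨nat_lit 7, nat_lit 0x10001000600050, nat_lit 0x1002012, nat_lit 3, nat_lit 4, nat_lit 0x48⟩ (.nil) (.nil)
def t14_1972 : Tr := .node ⟨nat_lit 6, nat_lit 0x1000200038, nat_lit 0x201112, nat_lit 1, nat_lit 4, nat_lit 0x47⟩ (.nil) (.nil)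
def t14_10164 : Tr := .node ⟨nat_lit 7, nat_lit 0x200040004000440068, nat_lit 0x20110, nat_lit 3, nat_lit 4, nat_lit 0x46⟩ (.nil) (.nil)
def t14_6068 : Tr := .node ⟨nat_lit 7, nat_lit 0x4000200060, nat_lit 0x111202, nat_lit 0, nat_lit 4, nat_lit 0x49⟩ (.nil) (.nil)
def t14_14260 : Tr := .node ⟨nat_lit 7, nat_lit 0x20006000600050, nat_lit 0x11100, nat_lit 1, nat_lit 4, nat_lit 0x46⟩ (.nil) (.nil)
def t14_4020 : Tr := .node ⟨nat_lit 7, nat_lit 0x400020002000500070, nat_lit 0x1011011, nat_lit 0, nat_lit 4, nat_lit 0x46⟩ (.nil) (.nil)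
def t14_12212 : Tr := .node ⟨nat_lit 6, nat_lit 0x800280030, nat_lit 0x111202, nat_lit 2, nat_lit 4, nat_lit 0x48⟩ (.nil) (.nil)
def t14_8116 : Tr := .node ⟨nat_lit 6, nat_lit 0x20002000100028, nat_lit 0x11013, nat_lit 4, nat_lit 4, nat_lit 0x47⟩ (.nil) (.nil)
def t9_436 : Tr := .node ⟨nat_lit 5, nat_lit 0x10, nat_lit 0x23212, nat_lit 2, nat_lit 4, nat_lit 0x4b⟩ (.node ⟨nat_lit 6, nat_lit 0x20002800280028, nat_lit 0x310210, nat_lit 5, nat_lit 4, nat_lit 0x49⟩ (.node ⟨nat_lit 6, nat_lit 0x300028, nat_lit 0x12212, nat_lit 0, nat_lit 4, nat_lit 0x48⟩ (.node ⟨nat_lit 5, nat_lit 0x1000100008, nat_lit 0x11213, nat_lit 3, nat_lit 4, nat_lit 0x48⟩ (.node ⟨nat_lit 6, nat_lit 0x1000280030, nat_lit 0x102210, nat_lit 1, nat_lit 4, nat_lit 0x47⟩ (t14_436) (t14_8628)) (.node ⟨nat_lit 6, nat_lit 0x280030, nat_lit 0x121122, nat_lit 2, nat_lit 4, nat_lit 0x49⟩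 (t14_4532) (t14_12724))) (.node ⟨nat_lit 7, nat_lit 0x40002000200010, nat_lit 0x20101, nat_lit 0, nat_lit 3, nat_lit 0x47⟩ (.node ⟨nat_lit 7, nat_lit 0x3000500060, nat_lit 0x1111031, nat_lit 0, nat_lit 4, nat_lit 0x48⟩ (t14_2484) (t14_10676)) (.node ⟨nat_lit 8, nat_lit 0x200080008000c0, nat_lit 0x1020221, nat_lit 0, nat_lit 4, nat_lit 0x4a⟩ (t14_6580) (t14_14772)))) (.node ⟨nat_lit 6, nat_lit 0x800080030, nat_lit 0x210101, nat_lit 0, nat_lit 4, nat_lit 0x47⟩ (.node ⟨nat_lit 6, nat_lit 0x2000100024, nat_lit 0x21212, nat_lit 1, nat_lit 4, nat_lit 0x48⟩ (.node ⟨nat_lit 6, nat_lit 0x2000080030, nat_lit 0x111104, nat_lit 0, nat_lit 4, nat_lit 0x48⟩ (t14_1460) (t14_9652)) (.node ⟨nat_lit 7, nat_lit 0x40001000100020, nat_lit 0x210201, nat_lit 1, nat_lit 3, nat_lit 0x48⟩ (t14_5556) (t14_13748))) (.node ⟨nat_lit 7, nat_lit 0x4000400040, nat_lit 0x211200,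 nat_lit 0, nat_lit 4, nat_lit 0x4a⟩ (.node ⟨nat_lit 6, nat_lit 0x280030, nat_lit 0x1100, nat_lit 1, nat_lit 4, nat_lit 0x46⟩ (t14_3508) (t14_11700)) (.node ⟨nat_lit 7, nat_lit 0x40001000480060, nat_lit 0x1111201, nat_lit 0, nat_lit 4, nat_lit 0x48⟩ (t14_7604) (.nil))))) (.node ⟨nat_lit 6, nat_lit 0x800200030, nat_lit 0x3220, nat_lit 0, nat_lit 4, nat_lit 0x48⟩ (.node ⟨nat_lit 5, nat_lit 0x100008, nat_lit 0x2231, nat_lit 1, nat_lit 4, nat_lit 0x48⟩ (.node ⟨nat_lit 7, nat_lit 0x400040002000480050, nat_lit 0x1111110, nat_lit 3, nat_lit 4, nat_lit 0x48⟩ (.node ⟨nat_lit 6, nat_lit 0x100020, nat_lit 0x111141, nat_lit 1, nat_lit 4, nat_lit 0x4a⟩ (t14_948) (t14_9140)) (.node ⟨nat_lit 5, nat_lit 0, nat_lit 0x22222, nat_lit 3, nat_lit 4, nat_lit 0x4c⟩ (t14_5044) (t14_13236))) (.node ⟨nat_lit 6, nat_lit 0x20002000280028, nat_lit 0x120200, nat_lit 4, nat_lit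 4, nat_lit 0x48⟩ (.node ⟨nat_lit 8, nat_lit 0x80004000400088, nat_lit 0x10112100, nat_lit 1, nat_lit 4, nat_lit 0x4a⟩ (t14_2996) (t14_11188)) (.node ⟨nat_lit 6, nat_lit 0x20001000100028, nat_lit 0x110110, nat_lit 0, nat_lit 4, nat_lit 0x46⟩ (t14_7092) (t14_15284)))) (.node ⟨nat_lit 6, nat_lit 0x2000080034, nat_lit 0x121110, nat_lit 0, nat_lit 4, nat_lit 0x47⟩ (.node ⟨nat_lit 6, nat_lit 0x800280030, nat_lit 0x21121, nat_lit 1, nat_lit 4, nat_lit 0x47⟩ (.node ⟨nat_lit 7, nat_lit 0x4000100060, nat_lit 0x1101103, nat_lit 1, nat_lit 4, nat_lit 0x49⟩ (t14_1972) (t14_10164)) (.node ⟨nat_lit 7, nat_lit 0x20002000500060, nat_lit 0x12020, nat_lit 1, nat_lit 4, nat_lit 0x47⟩ (t14_6068) (t14_14260))) (.node ⟨nat_lit 3, nat_lit 4, nat_lit 0x213, nat_lit 0xf, nat_lit 4, nat_lit 0x49⟩ (.node ⟨nat_lit 6, nat_lit 0x1000200030, nat_lit 0x1200, nat_lit 0, nat_lit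 3, nat_lit 0x45⟩ (t14_4020) (t14_12212)) (.node ⟨nat_lit 7, nat_lit 0x10006000600050, nat_lit 0x110111, nat_lit 0, nat_lit 3, nat_lit 0x45⟩ (t14_8116) (.nil)))))
def t14_116 : Tr := .node ⟨nat_lit 7, nat_lit 0x2000500064, nat_lit 0x221111, nat_lit 0, nat_lit 4, nat_lit 0x49⟩ (.nil) (.nil)
def t14_8308 : Tr := .node ⟨nat_lit 7, nat_lit 0x10004000600064, nat_lit 0x202, nat_lit 2, nat_lit 4, nat_lit 0x46⟩ (.nil) (.nil)
def t14_4212 : Tr := .node ⟨nat_lit 8, nat_lit 0x8000800040004000a000e0, nat_lit 0x10112111, nat_lit 1, nat_lit 4, nat_lit 0x48⟩ (.nil) (.nil)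
def t14_12404 : Tr := .node ⟨nat_lit 6, nat_lit 0x2000300034, nat_lit 0x1130, nat_lit 3, nat_lit 4, nat_lit 0x46⟩ (.nil) (.nil)
def t14_2164 : Tr := .node ⟨nat_lit 6, nat_lit 0x20001000100028, nat_lit 0x12102, nat_lit 3, nat_lit 4, nat_lit 0x47⟩ (.nil) (.nil)
def t14_10356 : Tr := .node ⟨nat_lit 8, nat_lit 0x2000800088008800c0, nat_lit 0x2200, nat_lit 2, nat_lit 4, nat_lit 0x48⟩ (.nil) (.nil)
def t14_6260 : Tr := .node ⟨nat_lit 7, nat_lit 0x40001000200020, nat_lit 0x110111, nat_lit 3, nat_lit 4, nat_lit 0x49⟩ (.nil) (.nil)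
def t14_14452 : Tr := .node ⟨nat_lit 5, nat_lit 0x180018, nat_lit 0x122, nat_lit 5, nat_lit 4, nat_lit 0x46⟩ (.nil) (.nil)
def t14_1140 : Tr := .node ⟨nat_lit 7, nat_lit 0x4000100060, nat_lit 0x11111, nat_lit 1, nat_lit 4, nat_lit 0x48⟩ (.nil) (.nil)
def t14_9332 : Tr := .node ⟨nat_lit 7, nat_lit 0x40005000300068, nat_lit 0x100211, nat_lit 0, nat_lit 4, nat_lit 0x45⟩ (.nil) (.nil)
def t14_5236 : Tr := .node ⟨nat_lit 7, nat_lit 0x400040002000200050, nat_lit 0x20111, nat_lit 1, nat_lit 4, nat_lit 0x47⟩ (.nil) (.nil)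
def t14_13428 : Tr := .node ⟨nat_lit 8, nat_lit 0x4000800050008800a0, nat_lit 0x12000, nat_lit 2, nat_lit 4, nat_lit 0x47⟩ (.nil) (.nil)
def t14_3188 : Tr := .node ⟨nat_lit 8, nat_lit 0x80008000400040004000a0, nat_lit 0x10102110, nat_lit 2, nat_lit 4, nat_lit 0x49⟩ (.nil) (.nil)
def t14_11380 : Tr := .node ⟨nat_lit 7, nat_lit 0x40004000100060, nat_lit 0x101010, nat_lit 1, nat_lit 4, nat_lit 0x47⟩ (.nil) (.nil)
def t14_7284 : Tr := .node ⟨nat_lit 7, nat_lit 0x40003000500068, nat_lit 0x2101210, nat_lit 0, nat_lit 4, nat_lit 0x47⟩ (.nil) (.nil)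
def t14_15476 : Tr := .node ⟨nat_lit 0xc, nat_lit 0x800080004000200010000800840, nat_lit 0x100001100001, nat_lit 0, nat_lit 4, nat_lit 0x4c⟩ (.nil) (.nil)
def t14_628 : Tr := .node ⟨nat_lit 7, nat_lit 0x400040004000200020, nat_lit 0x21122, nat_lit 0, nat_lit 4, nat_lit 0x48⟩ (.nil) (.nil)
def t14_8820 : Tr := .node ⟨nat_lit 7, nat_lit 0x20004000400044, nat_lit 0x20203, nat_lit 3, nat_lit 4, nat_lit 0x49⟩ (.nil) (.nil)
def t14_4724 : Tr := .node ⟨nat_lit 9, nat_lit 0x20001001400180, nat_lit 0x110010012, nat_lit 0, nat_lit 4, nat_lit 0x4a⟩ (.nil) (.nil)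
def t14_12916 : Tr := .node ⟨nat_lit 7, nat_lit 0x40004000200060, nat_lit 0x11020, nat_lit 3, nat_lit 4, nat_lit 0x48⟩ (.nil) (.nil)
def t14_2676 : Tr := .node ⟨nat_lit 7, nat_lit 0x30005000500060, nat_lit 0x103100, nat_lit 3, nat_lit 4, nat_lit 0x46⟩ (.nil) (.nil)
def t14_10868 : Tr := .node ⟨nat_lit 9, nat_lit 0x1000100014001400120018001c0, nat_lit 0x10010022, nat_lit 1, nat_lit 4, nat_lit 0x47⟩ (.nil) (.nil)
def t14_6772 : Tr := .node ⟨nat_lit 5, nat_lit 0x140018, nat_lit 0x1102, nat_lit 4, nat_lit 4, nat_lit 0x46⟩ (.nil) (.nil)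
def t14_14964 : Tr := .node ⟨nat_lit 5, nat_lit 0x100010, nat_lit 0x21111, nat_lit 5, nat_lit 3, nat_lit 0x48⟩ (.nil) (.nil)
def t14_1652 : Tr := .node ⟨nat_lit 8, nat_lit 0x800040004000c0, nat_lit 0x102102, nat_lit 0, nat_lit 4, nat_lit 0x49⟩ (.nil) (.nil)
def t14_9844 : Tr := .node ⟨nat_lit 6, nat_lit 0x1000200038, nat_lit 0x10010, nat_lit 0, nat_lit 4, nat_lit 0x45⟩ (.nil) (.nil)
def t14_5748 : Tr := .node ⟨nat_lit 6, nat_lit 0x2000200030, nat_lit 0x11221, nat_lit 6, nat_lit 4, nat_lit 0x49⟩ (.nil) (.nil)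
def t14_13940 : Tr := .node ⟨nat_lit 6, nat_lit 0x200020, nat_lit 0x100010, nat_lit 0, nat_lit 3, nat_lit 0x47⟩ (.nil) (.nil)
def t14_3700 : Tr := .node ⟨nat_lit 8, nat_lit 0x200080004000c0, nat_lit 0x20021, nat_lit 1, nat_lit 4, nat_lit 0x49⟩ (.nil) (.nil)
def t14_11892 : Tr := .node ⟨nat_lit 7, nat_lit 0x4000400020, nat_lit 0x1011003, nat_lit 0, nat_lit 3, nat_lit 0x48⟩ (.nil) (.nil)
def t14_7796 : Tr := .node ⟨nat_lit 7, nat_lit 0x40002000100010, nat_lit 0x22, nat_lit 7, nat_lit 4, nat_lit 0x49⟩ (.nil) (.nil)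
def t9_116 : Tr := .node ⟨nat_lit 5, nat_lit 0x1000100008, nat_lit 0x13211, nat_lit 3, nat_lit 4, nat_lit 0x49⟩ (.node ⟨nat_lit 5, nat_lit 0x100012, nat_lit 0x13122, nat_lit 4, nat_lit 4, nat_lit 0x49⟩ (.node ⟨nat_lit 7, nat_lit 0x20005000680068, nat_lit 0x310210, nat_lit 1, nat_lit 4, nat_lit 0x47⟩ (.node ⟨nat_lit 7, nat_lit 0x400020002000500060, nat_lit 0x1012111, nat_lit 0, nat_lit 4, nat_lit 0x47⟩ (.node ⟨nat_lit 6, nat_lit 0x20002000100032, nat_lit 0x22120, nat_lit 4, nat_lit 4, nat_lit 0x48⟩ (t14_116) (t14_8308)) (.node ⟨nat_lit 7, nat_lit 0x6000480070, nat_lit 0x21023, nat_lit 1, nat_lit 4, nat_lit 0x47⟩ (t14_4212) (t14_12404))) (.node ⟨nat_lit 7, nat_lit 0x1000400060, nat_lit 0x1012011, nat_lit 0, nat_lit 4, nat_lit 0x49⟩ (.node ⟨nat_lit 7, nat_lit 0x40004800300030, nat_lit 0x1001020, nat_lit 1, nat_lit 4, nat_lit 0x46⟩ (t14_2164) (t14_10356))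 (.node ⟨nat_lit 8, nat_lit 0x800080002000c0, nat_lit 0x122110, nat_lit 1, nat_lit 4, nat_lit 0x4a⟩ (t14_6260) (t14_14452)))) (.node ⟨nat_lit 6, nat_lit 0x20, nat_lit 0x122112, nat_lit 0, nat_lit 4, nat_lit 0x4b⟩ (.node ⟨nat_lit 5, nat_lit 0x40018, nat_lit 0x22231, nat_lit 0, nat_lit 4, nat_lit 0x49⟩ (.node ⟨nat_lit 6, nat_lit 0x2000080030, nat_lit 0x111311, nat_lit 4, nat_lit 4, nat_lit 0x49⟩ (t14_1140) (t14_9332)) (.node ⟨nat_lit 7, nat_lit 0x1000600060, nat_lit 0x1102021, nat_lit 1, nat_lit 4, nat_lit 0x49⟩ (t14_5236) (t14_13428))) (.node ⟨nat_lit 5, nat_lit 0x100018, nat_lit 0x10210, nat_lit 4, nat_lit 4, nat_lit 0x47⟩ (.node ⟨nat_lit 6, nat_lit 0x2000100030, nat_lit 0x11330, nat_lit 0, nat_lit 4, nat_lit 0x48⟩ (t14_3188) (t14_11380)) (.node ⟨nat_lit 5, nat_lit 0x40018, nat_lit 0x11102, nat_lit 7, nat_lit 4, nat_lit 0x48⟩ (t14_7284) (t14_15476)))))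 (.node ⟨nat_lit 5, nat_lit 0x1c, nat_lit 0x31112, nat_lit 0, nat_lit 4, nat_lit 0x48⟩ (.node ⟨nat_lit 7, nat_lit 0x2000400042, nat_lit 0x2011021, nat_lit 0, nat_lit 4, nat_lit 0x4a⟩ (.node ⟨nat_lit 6, nat_lit 0x20001000100028, nat_lit 0x201210, nat_lit 1, nat_lit 4, nat_lit 0x47⟩ (.node ⟨nat_lit 6, nat_lit 0x200010, nat_lit 0x121130, nat_lit 0, nat_lit 4, nat_lit 0x4a⟩ (t14_628) (t14_8820)) (.node ⟨nat_lit 8, nat_lit 0x800080002000400090, nat_lit 0x11120110, nat_lit 2, nat_lit 4, nat_lit 0x4a⟩ (t14_4724) (t14_12916))) (.node ⟨nat_lit 6, nat_lit 0x1000200038, nat_lit 0x100112, nat_lit 2, nat_lit 4, nat_lit 0x46⟩ (.node ⟨nat_lit 8, nat_lit 0x200080001000c0, nat_lit 0x12000103, nat_lit 1, nat_lit 4, nat_lit 0x4a⟩ (t14_2676) (t14_10868)) (.node ⟨nat_lit 6, nat_lit 0x300030, nat_lit 0x1010, nat_lit 0, nat_lit 4, nat_lit 0x45⟩ (t14_6772) (t14_14964))))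 (.node ⟨nat_lit 5, nat_lit 0x80010, nat_lit 0x10230, nat_lit 0, nat_lit 4, nat_lit 0x47⟩ (.node ⟨nat_lit 6, nat_lit 0x300028, nat_lit 0x2111, nat_lit 1, nat_lit 4, nat_lit 0x47⟩ (.node ⟨nat_lit 4, nat_lit 0, nat_lit 0x1000, nat_lit 1, nat_lit 4, nat_lit 0x44⟩ (t14_1652) (t14_9844)) (.node ⟨nat_lit 7, nat_lit 0x40004000100060, nat_lit 0x122020, nat_lit 1, nat_lit 4, nat_lit 0x49⟩ (t14_5748) (t14_13940))) (.node ⟨nat_lit 7, nat_lit 0x40004000100060, nat_lit 0x12110, nat_lit 2, nat_lit 4, nat_lit 0x48⟩ (.node ⟨nat_lit 7, nat_lit 0x1000080060, nat_lit 0x1011000, nat_lit 0, nat_lit 4, nat_lit 0x48⟩ (t14_3700) (t14_11892)) (.node ⟨nat_lit 6, nat_lit 0x800300030, nat_lit 0x111021, nat_lit 1, nat_lit 4, nat_lit 0x47⟩ (t14_7796) (.nil)))))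
def t14_372 : Tr := .node ⟨nat_lit 7, nat_lit 0x60, nat_lit 0x1021101, nat_lit 1, nat_lit 4, nat_lit 0x4b⟩ (.nil) (.nil)
def t14_8564 : Tr := .node ⟨nat_lit 8, nat_lit 0x800040004000a000a000d0, nat_lit 0x100210, nat_lit 1, nat_lit 4, nat_lit 0x46⟩ (.nil) (.nil)
def t14_4468 : Tr := .node ⟨nat_lit 8, nat_lit 0x40008000900060006000c0, nat_lit 0x11110111, nat_lit 2, nat_lit 4, nat_lit 0x48⟩ (.nil) (.nil)
def t14_12660 : Tr := .node ⟨nat_lit 5, nat_lit 0x1000100018, nat_lit 0x1320, nat_lit 6, nat_lit 4, nat_lit 0x48⟩ (.nil) (.nil)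
def t14_2420 : Tr := .node ⟨nat_lit 8, nat_lit 0x8000c000c0, nat_lit 0x211210, nat_lit 0, nat_lit 4, nat_lit 0x4a⟩ (.nil) (.nil)
def t14_10612 : Tr := .node ⟨nat_lit 7, nat_lit 0x2000500060, nat_lit 0x10102, nat_lit 0, nat_lit 4, nat_lit 0x47⟩ (.nil) (.nil)
def t14_6516 : Tr := .node ⟨nat_lit 6, nat_lit 0x2000080034, nat_lit 0x111121, nat_lit 3, nat_lit 4, nat_lit 0x48⟩ (.nil) (.nil)
def t14_14708 : Tr := .node ⟨nat_lit 8, nat_lit 0x400040008000c000a0, nat_lit 0x110121, nat_lit 2, nat_lit 4, nat_lit 0x48⟩ (.nil) (.nil)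
def t14_1396 : Tr := .node ⟨nat_lit 6, nat_lit 0x2000200020, nat_lit 0x32100, nat_lit 1, nat_lit 3, nat_lit 0x48⟩ (.nil) (.nil)
def t14_9588 : Tr := .node ⟨nat_lit 5, nat_lit 0x1000080018, nat_lit 0x10040, nat_lit 1, nat_lit 3, nat_lit 0x45⟩ (.nil) (.nil)
def t14_5492 : Tr := .node ⟨nat_lit 6, nat_lit 0x2000080030, nat_lit 0x10041, nat_lit 1, nat_lit 4, nat_lit 0x47⟩ (.nil) (.nil)
def t14_13684 : Tr := .node ⟨nat_lit 6, nat_lit 0x20002000100028, nat_lit 0x20000, nat_lit 2, nat_lit 4, nat_lit 0x46⟩ (.nil) (.nil)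
def t14_3444 : Tr := .node ⟨nat_lit 8, nat_lit 0x8000a0006000c0, nat_lit 0x112210, nat_lit 0, nat_lit 4, nat_lit 0x48⟩ (.nil) (.nil)
def t14_11636 : Tr := .node ⟨nat_lit 7, nat_lit 0x10005000600060, nat_lit 0x2310, nat_lit 1, nat_lit 4, nat_lit 0x46⟩ (.nil) (.nil)
def t14_7540 : Tr := .node ⟨nat_lit 7, nat_lit 0x40002000600068, nat_lit 0x12130, nat_lit 1, nat_lit 4, nat_lit 0x47⟩ (.nil) (.nil)
def t14_884 : Tr := .node ⟨nat_lit 7, nat_lit 0x400040004000200020, nat_lit 0x20022, nat_lit 1, nat_lit 4, nat_lit 0x48⟩ (.nil) (.nil)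
def t14_9076 : Tr := .node ⟨nat_lit 7, nat_lit 0x40002000600060, nat_lit 0x12021, nat_lit 4, nat_lit 4, nat_lit 0x48⟩ (.nil) (.nil)
def t14_4980 : Tr := .node ⟨nat_lit 7, nat_lit 0x2000400060, nat_lit 0x111031, nat_lit 0, nat_lit 4, nat_lit 0x49⟩ (.nil) (.nil)
def t14_13172 : Tr := .node ⟨nat_lit 6, nat_lit 0x2000100032, nat_lit 0x1310, nat_lit 3, nat_lit 4, nat_lit 0x47⟩ (.nil) (.nil)
def t14_2932 : Tr := .node ⟨nat_lit 7, nat_lit 0x20004000100060, nat_lit 0x11210, nat_lit 0, nat_lit 4, nat_lit 0x47⟩ (.nil) (.nil)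
def t14_11124 : Tr := .node ⟨nat_lit 4, nat_lit 0x800080008, nat_lit 0x210, nat_lit 9, nat_lit 3, nat_lit 0x45⟩ (.nil) (.nil)
def t14_7028 : Tr := .node ⟨nat_lit 8, nat_lit 0x400080008800c00060, nat_lit 0x1120011, nat_lit 1, nat_lit 4, nat_lit 0x48⟩ (.nil) (.nil)
def t14_15220 : Tr := .node ⟨nat_lit 8, nat_lit 0x8000200090009000d0, nat_lit 0x1010201, nat_lit 1, nat_lit 4, nat_lit 0x47⟩ (.nil) (.nil)
def t14_1908 : Tr := .node ⟨nat_lit 6, nat_lit 0x2000080034, nat_lit 0x200102, nat_lit 0, nat_lit 4, nat_lit 0x46⟩ (.nil) (.nil)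
def t14_10100 : Tr := .node ⟨nat_lit 6, nat_lit 0x3000300030, nat_lit 0x2320, nat_lit 4, nat_lit 4, nat_lit 0x47⟩ (.nil) (.nil)
def t14_6004 : Tr := .node ⟨nat_lit 6, nat_lit 0x1000200030, nat_lit 0x122120, nat_lit 0, nat_lit 4, nat_lit 0x49⟩ (.nil) (.nil)
def t14_14196 : Tr := .node ⟨nat_lit 7, nat_lit 0x20004000100044, nat_lit 0x1000002, nat_lit 3, nat_lit 4, nat_lit 0x47⟩ (.nil) (.nil)
def t14_3956 : Tr := .node ⟨nat_lit 7, nat_lit 0x20002000400040, nat_lit 0x1013010, nat_lit 0, nat_lit 4, nat_lit 0x49⟩ (.nil) (.nil)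
def t14_12148 : Tr := .node ⟨nat_lit 8, nat_lit 0x800020002000c0, nat_lit 0x1012000, nat_lit 1, nat_lit 4, nat_lit 0x49⟩ (.nil) (.nil)
def t14_8052 : Tr := .node ⟨nat_lit 6, nat_lit 0x1000200022, nat_lit 0x3013, nat_lit 1, nat_lit 4, nat_lit 0x47⟩ (.nil) (.nil)
def t9_372 : Tr := .node ⟨nat_lit 4, nat_lit 8, nat_lit 0x1310, nat_lit 0xd, nat_lit 4, nat_lit 0x4a⟩ (.node ⟨nat_lit 4, nat_lit 0xc, nat_lit 0x2131, nat_lit 2, nat_lit 3, nat_lit 0x47⟩ (.node ⟨nat_lit 5, nat_lit 0x18, nat_lit 0x22112, nat_lit 2, nat_lit 4, nat_lit 0x49⟩ (.node ⟨nat_lit 6, nat_lit 0x200010, nat_lit 0x212102, nat_lit 0, nat_lit 4, nat_lit 0x4a⟩ (.node ⟨nat_lit 6, nat_lit 0x2000080030, nat_lit 0x102112, nat_lit 3, nat_lit 3, nat_lit 0x47⟩ (t14_372) (t14_8564)) (.node ⟨nat_lit 5, nat_lit 0x1000080018, nat_lit 0x11020, nat_lit 1, nat_lit 3, nat_lit 0x45⟩ (t14_4468) (t14_12660)))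 (.node ⟨nat_lit 6, nat_lit 0x800080030, nat_lit 0x210201, nat_lit 3, nat_lit 4, nat_lit 0x48⟩ (.node ⟨nat_lit 6, nat_lit 0x280030, nat_lit 0x100111, nat_lit 1, nat_lit 4, nat_lit 0x46⟩ (t14_2420) (t14_10612)) (.node ⟨nat_lit 7, nat_lit 0x40002000640058, nat_lit 0x122001, nat_lit 1, nat_lit 4, nat_lit 0x47⟩ (t14_6516) (t14_14708)))) (.node ⟨nat_lit 5, nat_lit 0x100008, nat_lit 0x21123, nat_lit 2, nat_lit 4, nat_lit 0x49⟩ (.node ⟨nat_lit 6, nat_lit 0x200010, nat_lit 0x22221, nat_lit 1, nat_lit 4, nat_lit 0x4a⟩ (.node ⟨nat_lit 6, nat_lit 0x800080030, nat_lit 0x100104, nat_lit 0, nat_lit 4, nat_lit 0x46⟩ (t14_1396) (t14_9588)) (.node ⟨nat_lit 6, nat_lit 0x10001000200038, nat_lit 0x12112, nat_lit 3, nat_lit 4, nat_lit 0x47⟩ (t14_5492) (t14_13684))) (.node ⟨nat_lit 6, nat_lit 0x200020, nat_lit 0x131110, nat_lit 0, nat_lit 4, nat_lit 0x4a⟩ (.node ⟨nat_lit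 5, nat_lit 0x1000180018, nat_lit 0x100, nat_lit 2, nat_lit 3, nat_lit 0x43⟩ (t14_3444) (t14_11636)) (.node ⟨nat_lit 6, nat_lit 0x800300030, nat_lit 0x111111, nat_lit 2, nat_lit 4, nat_lit 0x47⟩ (t14_7540) (.nil))))) (.node ⟨nat_lit 6, nat_lit 0x80030, nat_lit 0x210101, nat_lit 0, nat_lit 3, nat_lit 0x47⟩ (.node ⟨nat_lit 5, nat_lit 0x40018, nat_lit 0x20221, nat_lit 3, nat_lit 4, nat_lit 0x48⟩ (.node ⟨nat_lit 7, nat_lit 0x4000100020, nat_lit 0x111011, nat_lit 1, nat_lit 4, nat_lit 0x49⟩ (.node ⟨nat_lit 6, nat_lit 0x1000080020, nat_lit 0x102300, nat_lit 0, nat_lit 4, nat_lit 0x48⟩ (t14_884) (t14_9076)) (.node ⟨nat_lit 8, nat_lit 0x40002000200080, nat_lit 0x10120201, nat_lit 1, nat_lit 4, nat_lit 0x4b⟩ (t14_4980) (t14_13172))) (.node ⟨nat_lit 7, nat_lit 0x400040002000200050, nat_lit 0x100210, nat_lit 4, nat_lit 4, nat_lit 0x48⟩ (.node ⟨nat_lit 4, nat_lit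 8, nat_lit 0x1112, nat_lit 0xb, nat_lit 4, nat_lit 0x49⟩ (t14_2932) (t14_11124)) (.node ⟨nat_lit 7, nat_lit 0x400020002000500070, nat_lit 0x1021100, nat_lit 1, nat_lit 4, nat_lit 0x47⟩ (t14_7028) (t14_15220)))) (.node ⟨nat_lit 6, nat_lit 0x200032, nat_lit 0x12121, nat_lit 1, nat_lit 4, nat_lit 0x48⟩ (.node ⟨nat_lit 7, nat_lit 0x6000600018, nat_lit 0x1021111, nat_lit 1, nat_lit 4, nat_lit 0x48⟩ (.node ⟨nat_lit 6, nat_lit 0x800300038, nat_lit 0x111013, nat_lit 0, nat_lit 4, nat_lit 0x46⟩ (t14_1908) (t14_10100)) (.node ⟨nat_lit 7, nat_lit 0x40001000600070, nat_lit 0x112002, nat_lit 1, nat_lit 4, nat_lit 0x47⟩ (t14_6004) (t14_14196))) (.node ⟨nat_lit 6, nat_lit 0x800100020, nat_lit 0x100020, nat_lit 0, nat_lit 4, nat_lit 0x46⟩ (.node ⟨nat_lit 7, nat_lit 0x20003000600050, nat_lit 0x1011203, nat_lit 0, nat_lit 4, nat_lit 0x47⟩ (t14_3956) (t14_12148))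 (.node ⟨nat_lit 7, nat_lit 0x20004000400044, nat_lit 0x1010110, nat_lit 9, nat_lit 4, nat_lit 0x4a⟩ (t14_8052) (.nil)))))
def t14_244 : Tr := .node ⟨nat_lit 7, nat_lit 0x20004000440060, nat_lit 0x2022101, nat_lit 0, nat_lit 4, nat_lit 0x49⟩ (.nil) (.nil)
def t14_8436 : Tr := .node ⟨nat_lit 5, nat_lit 0x100018001c, nat_lit 0x31, nat_lit 4, nat_lit 4, nat_lit 0x44⟩ (.nil) (.nil)
def t14_4340 : Tr := .node ⟨nat_lit 6, nat_lit 0x800080030, nat_lit 0x211220, nat_lit 0, nat_lit 4, nat_lit 0x49⟩ (.nil) (.nil)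
def t14_12532 : Tr := .node ⟨nat_lit 7, nat_lit 0x40002000500068, nat_lit 0x1000110, nat_lit 1, nat_lit 4, nat_lit 0x46⟩ (.nil) (.nil)
def t14_2292 : Tr := .node ⟨nat_lit 5, nat_lit 0x100008, nat_lit 0x402, nat_lit 2, nat_lit 4, nat_lit 0x48⟩ (.nil) (.nil)
def t14_10484 : Tr := .node ⟨nat_lit 6, nat_lit 0x800300038, nat_lit 0x1022, nat_lit 2, nat_lit 4, nat_lit 0x45⟩ (.nil) (.nil)
def t14_6388 : Tr := .node ⟨nat_lit 5, nat_lit 0x18001c, nat_lit 0x11012, nat_lit 5, nat_lit 4, nat_lit 0x46⟩ (.nil) (.nil)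
def t14_14580 : Tr := .node ⟨nat_lit 8, nat_lit 0x2000800040004000c0, nat_lit 0x1103, nat_lit 2, nat_lit 4, nat_lit 0x48⟩ (.nil) (.nil)
def t14_1268 : Tr := .node ⟨nat_lit 6, nat_lit 0x10002000180024, nat_lit 0x12210, nat_lit 1, nat_lit 4, nat_lit 0x46⟩ (.nil) (.nil)
def t14_9460 : Tr := .node ⟨nat_lit 9, nat_lit 0x1000080008000a0014001400180, nat_lit 0x101120002, nat_lit 0, nat_lit 4, nat_lit 0x48⟩ (.nil) (.nil)
def t14_5364 : Tr := .node ⟨nat_lit 6, nat_lit 0x200030, nat_lit 0x111130, nat_lit 4, nat_lit 4, nat_lit 0x4a⟩ (.nil) (.nil)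
def t14_13556 : Tr := .node ⟨nat_lit 6, nat_lit 0x20002000100010, nat_lit 0x2200, nat_lit 3, nat_lit 4, nat_lit 0x47⟩ (.nil) (.nil)
def t14_3316 : Tr := .node ⟨nat_lit 6, nat_lit 0x20002000100030, nat_lit 0x2131, nat_lit 3, nat_lit 4, nat_lit 0x47⟩ (.nil) (.nil)
def t14_11508 : Tr := .node ⟨nat_lit 7, nat_lit 0x20004000100060, nat_lit 0x100111, nat_lit 0, nat_lit 4, nat_lit 0x47⟩ (.nil) (.nil)
def t14_7412 : Tr := .node ⟨nat_lit 8, nat_lit 0x80008000400040, nat_lit 0x1220011, nat_lit 0, nat_lit 4, nat_lit 0x4b⟩ (.nil) (.nil)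
def t14_756 : Tr := .node ⟨nat_lit 7, nat_lit 0x20004000100060, nat_lit 0x10113, nat_lit 0, nat_lit 4, nat_lit 0x47⟩ (.nil) (.nil)
def t14_8948 : Tr := .node ⟨nat_lit 7, nat_lit 0x40001000500060, nat_lit 0x101030, nat_lit 0, nat_lit 3, nat_lit 0x45⟩ (.nil) (.nil)
def t14_4852 : Tr := .node ⟨nat_lit 8, nat_lit 0x4000800020002000c0, nat_lit 0x11012002, nat_lit 0, nat_lit 4, nat_lit 0x49⟩ (.nil) (.nil)
def t14_13044 : Tr := .node ⟨nat_lit 4, nat_lit 0x8000e, nat_lit 0x120, nat_lit 6, nat_lit 4, nat_lit 0x45⟩ (.nil) (.nil)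
def t14_2804 : Tr := .node ⟨nat_lit 6, nat_lit 0x1000100020, nat_lit 0x11102, nat_lit 2, nat_lit 4, nat_lit 0x48⟩ (.nil) (.nil)
def t14_10996 : Tr := .node ⟨nat_lit 8, nat_lit 0x800080002000c0, nat_lit 0x1112102, nat_lit 0, nat_lit 4, nat_lit 0x4a⟩ (.nil) (.nil)
def t14_6900 : Tr := .node ⟨nat_lit 7, nat_lit 0x40, nat_lit 0x1111110, nat_lit 2, nat_lit 4, nat_lit 0x4c⟩ (.nil) (.nil)
def t14_15092 : Tr := .node ⟨nat_lit 6, nat_lit 0x300030, nat_lit 0x111111, nat_lit 2, nat_lit 3, nat_lit 0x47⟩ (.nil) (.nil)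
def t14_1780 : Tr := .node ⟨nat_lit 6, nat_lit 0x1000280034, nat_lit 0x112021, nat_lit 4, nat_lit 4, nat_lit 0x48⟩ (.nil) (.nil)
def t14_9972 : Tr := .node ⟨nat_lit 7, nat_lit 0x10004000600060, nat_lit 0x420, nat_lit 4, nat_lit 4, nat_lit 0x48⟩ (.nil) (.nil)
def t14_5876 : Tr := .node ⟨nat_lit 7, nat_lit 0x4000200020, nat_lit 0x11022, nat_lit 4, nat_lit 4, nat_lit 0x4a⟩ (.nil) (.nil)
def t14_14068 : Tr := .node ⟨nat_lit 8, nat_lit 0x8000c0, nat_lit 0x111120, nat_lit 0, nat_lit 4, nat_lit 0x4b⟩ (.nil) (.nil)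
def t14_3828 : Tr := .node ⟨nat_lit 8, nat_lit 0x40008000800060009000d0, nat_lit 0x1012012, nat_lit 1, nat_lit 4, nat_lit 0x47⟩ (.nil) (.nil)
def t14_12020 : Tr := .node ⟨nat_lit 7, nat_lit 0x40002000500060, nat_lit 0x121102, nat_lit 0, nat_lit 4, nat_lit 0x48⟩ (.nil) (.nil)
def t14_7924 : Tr := .node ⟨nat_lit 8, nat_lit 0x8000800040004000a00090, nat_lit 0x121002, nat_lit 2, nat_lit 4, nat_lit 0x48⟩ (.nil) (.nil)
def t9_244 : Tr := .node ⟨nat_lit 3, nat_lit 4, nat_lit 0x312, nat_lit 2, nat_lit 3, nat_lit 0x46⟩ (.node ⟨nat_lit 5, nat_lit 0x1000080014, nat_lit 0x31112, nat_lit 2, nat_lit 4, nat_lit 0x48⟩ (.node ⟨nat_lit 7, nat_lit 0x4000600060, nat_lit 0x32110, nat_lit 1, nat_lit 4, nat_lit 0x49⟩ (.node ⟨nat_lit 4, nat_lit 0xc, nat_lit 0x1124, nat_lit 3, nat_lit 4, nat_lit 0x47⟩ (.node ⟨nat_lit 5, nat_lit 0x10, nat_lit 0x21112, nat_lit 9, nat_lit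 4, nat_lit 0x4b⟩ (t14_244) (t14_8436)) (.node ⟨nat_lit 6, nat_lit 0x1000280030, nat_lit 0x101201, nat_lit 0, nat_lit 4, nat_lit 0x46⟩ (t14_4340) (t14_12532))) (.node ⟨nat_lit 4, nat_lit 0xc, nat_lit 0x2012, nat_lit 0xe, nat_lit 4, nat_lit 0x49⟩ (.node ⟨nat_lit 5, nat_lit 0x1000080018, nat_lit 0x11032, nat_lit 6, nat_lit 3, nat_lit 0x46⟩ (t14_2292) (t14_10484)) (.node ⟨nat_lit 5, nat_lit 0x800100018, nat_lit 0x11220, nat_lit 3, nat_lit 4, nat_lit 0x47⟩ (t14_6388) (t14_14580)))) (.node ⟨nat_lit 3, nat_lit 6, nat_lit 0x211, nat_lit 0xd, nat_lit 4, nat_lit 0x47⟩ (.node ⟨nat_lit 7, nat_lit 0x400020002000500068, nat_lit 0x2111111, nat_lit 1, nat_lit 4, nat_lit 0x48⟩ (.node ⟨nat_lit 6, nat_lit 0x100020, nat_lit 0x111100, nat_lit 1, nat_lit 4, nat_lit 0x48⟩ (t14_1268) (t14_9460)) (.node ⟨nat_lit 7, nat_lit 0x40001000600068, nat_lit 0x1112121, nat_lit 0,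 nat_lit 4, nat_lit 0x48⟩ (t14_5364) (t14_13556))) (.node ⟨nat_lit 6, nat_lit 0x2000100032, nat_lit 0x12013, nat_lit 2, nat_lit 4, nat_lit 0x47⟩ (.node ⟨nat_lit 6, nat_lit 0x1000200030, nat_lit 0x111302, nat_lit 2, nat_lit 4, nat_lit 0x49⟩ (t14_3316) (t14_11508)) (.node ⟨nat_lit 7, nat_lit 0x6000600018, nat_lit 0x1011112, nat_lit 0, nat_lit 4, nat_lit 0x47⟩ (t14_7412) (.nil))))) (.node ⟨nat_lit 3, nat_lit 0, nat_lit 0x311, nat_lit 8, nat_lit 4, nat_lit 0x48⟩ (.node ⟨nat_lit 5, nat_lit 0x40018, nat_lit 0x22132, nat_lit 0, nat_lit 4, nat_lit 0x48⟩ (.node ⟨nat_lit 6, nat_lit 0x20, nat_lit 0x211111, nat_lit 2, nat_lit 4, nat_lit 0x4b⟩ (.node ⟨nat_lit 7, nat_lit 0x40004000400020, nat_lit 0x132001, nat_lit 1, nat_lit 4, nat_lit 0x4a⟩ (t14_756) (t14_8948)) (.node ⟨nat_lit 7, nat_lit 0x40001000100060, nat_lit 0x13200, nat_lit 0, nat_lit 4, nat_lit 0x48⟩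 (t14_4852) (t14_13044))) (.node ⟨nat_lit 6, nat_lit 0x1000280034, nat_lit 0x101221, nat_lit 2, nat_lit 4, nat_lit 0x46⟩ (.node ⟨nat_lit 7, nat_lit 0x2000400070, nat_lit 0x21203, nat_lit 0, nat_lit 4, nat_lit 0x48⟩ (t14_2804) (t14_10996)) (.node ⟨nat_lit 7, nat_lit 0x4800600050, nat_lit 0x1111222, nat_lit 0, nat_lit 4, nat_lit 0x48⟩ (t14_6900) (t14_15092)))) (.node ⟨nat_lit 4, nat_lit 8, nat_lit 0x1112, nat_lit 5, nat_lit 4, nat_lit 0x47⟩ (.node ⟨nat_lit 7, nat_lit 0x20004000600068, nat_lit 0x112211, nat_lit 1, nat_lit 4, nat_lit 0x48⟩ (.node ⟨nat_lit 5, nat_lit 0x80010001a, nat_lit 0x10100, nat_lit 5, nat_lit 4, nat_lit 0x45⟩ (t14_1780) (t14_9972)) (.node ⟨nat_lit 6, nat_lit 0x2000280030, nat_lit 0x22102, nat_lit 0, nat_lit 3, nat_lit 0x46⟩ (t14_5876) (t14_14068))) (.node ⟨nat_lit 6, nat_lit 0x1000280034, nat_lit 0x21110, nat_lit 0, nat_lit 4,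 nat_lit 0x46⟩ (.node ⟨nat_lit 6, nat_lit 0x80030, nat_lit 0x111100, nat_lit 0, nat_lit 4, nat_lit 0x48⟩ (t14_3828) (t14_12020)) (.node ⟨nat_lit 7, nat_lit 0x1000100060, nat_lit 0x1001111, nat_lit 0, nat_lit 4, nat_lit 0x48⟩ (t14_7924) (.nil)))))
def t14_500 : Tr := .node ⟨nat_lit 7, nat_lit 0x600060, nat_lit 0x1121110, nat_lit 1, nat_lit 4, nat_lit 0x4a⟩ (.nil) (.nil)
def t14_8692 : Tr := .node ⟨nat_lit 7, nat_lit 0x20002000500068, nat_lit 0x102, nat_lit 0, nat_lit 4, nat_lit 0x45⟩ (.nil) (.nil)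
def t14_4596 : Tr := .node ⟨nat_lit 7, nat_lit 0x40001000100060, nat_lit 0x1113001, nat_lit 0, nat_lit 4, nat_lit 0x49⟩ (.nil) (.nil)
def t14_12788 : Tr := .node ⟨nat_lit 7, nat_lit 0x10004000440060, nat_lit 0x100120, nat_lit 3, nat_lit 4, nat_lit 0x47⟩ (.nil) (.nil)
def t14_2548 : Tr := .node ⟨nat_lit 7, nat_lit 0x400040007000700070, nat_lit 0x1002210, nat_lit 3, nat_lit 4, nat_lit 0x46⟩ (.nil) (.nil)
def t14_10740 : Tr := .node ⟨nat_lit 7, nat_lit 0x10001000500060, nat_lit 0x101102, nat_lit 1, nat_lit 4, nat_lit 0x47⟩ (.nil) (.nil)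
def t14_6644 : Tr := .node ⟨nat_lit 7, nat_lit 0x40004000200048, nat_lit 0x113011, nat_lit 0, nat_lit 4, nat_lit 0x49⟩ (.nil) (.nil)
def t14_14836 : Tr := .node ⟨nat_lit 9, nat_lit 0x1000100010000800080014001c0, nat_lit 0x112101, nat_lit 1, nat_lit 4, nat_lit 0x48⟩ (.nil) (.nil)
def t14_1524 : Tr := .node ⟨nat_lit 9, nat_lit 0x1000100010000800080012001c0, nat_lit 0x1102011, nat_lit 1, nat_lit 4, nat_lit 0x48⟩ (.nil) (.nil)
def t14_9716 : Tr := .node ⟨nat_lit 8, nat_lit 0x800020004000a000c4, nat_lit 0x1121020, nat_lit 0, nat_lit 4, nat_lit 0x48⟩ (.nil) (.nil)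
def t14_5620 : Tr := .node ⟨nat_lit 9, nat_lit 0x400100018001880188, nat_lit 0x100100220, nat_lit 1, nat_lit 4, nat_lit 0x48⟩ (.nil) (.nil)
def t14_13812 : Tr := .node ⟨nat_lit 8, nat_lit 0x40002000c000a0, nat_lit 0x12200, nat_lit 0, nat_lit 4, nat_lit 0x48⟩ (.nil) (.nil)
def t14_3572 : Tr := .node ⟨nat_lit 7, nat_lit 0x40001000480060, nat_lit 0x2100, nat_lit 0, nat_lit 4, nat_lit 0x46⟩ (.nil) (.nil)
def t14_11764 : Tr := .node ⟨nat_lit 5, nat_lit 0x1000080014, nat_lit 0x340, nat_lit 2, nat_lit 4, nat_lit 0x46⟩ (.nil) (.nil)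
def t14_7668 : Tr := .node ⟨nat_lit 0, nat_lit 0, nat_lit 0, nat_lit 0xf, nat_lit 4, nat_lit 0x42⟩ (.nil) (.nil)
def t14_1012 : Tr := .node ⟨nat_lit 8, nat_lit 0xa000a000c0, nat_lit 0x1011211, nat_lit 0, nat_lit 4, nat_lit 0x48⟩ (.nil) (.nil)
def t14_9204 : Tr := .node ⟨nat_lit 8, nat_lit 0x8000800040009000a000c0, nat_lit 0x100002, nat_lit 3, nat_lit 4, nat_lit 0x47⟩ (.nil) (.nil)
def t14_5108 : Tr := .node ⟨nat_lit 8, nat_lit 0x800080002000c0, nat_lit 0x1013101, nat_lit 1, nat_lit 4, nat_lit 0x4a⟩ (.nil) (.nil)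
def t14_13300 : Tr := .node ⟨nat_lit 6, nat_lit 0x1800300028, nat_lit 0x40, nat_lit 3, nat_lit 4, nat_lit 0x45⟩ (.nil) (.nil)
def t14_3060 : Tr := .node ⟨nat_lit 7, nat_lit 0x200020004000400070, nat_lit 0x110311, nat_lit 3, nat_lit 4, nat_lit 0x48⟩ (.nil) (.nil)
def t14_11252 : Tr := .node ⟨nat_lit 6, nat_lit 0x800200030, nat_lit 0x10010, nat_lit 5, nat_lit 4, nat_lit 0x47⟩ (.nil) (.nil)
def t14_7156 : Tr := .node ⟨nat_lit 7, nat_lit 0x200040004000480070, nat_lit 0x1101111, nat_lit 5, nat_lit 4, nat_lit 0x48⟩ (.nil) (.nil)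
def t14_15348 : Tr := .node ⟨nat_lit 8, nat_lit 0x800040004000c0, nat_lit 0x10101101, nat_lit 0, nat_lit 3, nat_lit 0x48⟩ (.nil) (.nil)
def t14_2036 : Tr := .node ⟨nat_lit 7, nat_lit 0x20004000500068, nat_lit 0x210310, nat_lit 1, nat_lit 4, nat_lit 0x48⟩ (.nil) (.nil)
def t14_10228 : Tr := .node ⟨nat_lit 7, nat_lit 0x4000400060, nat_lit 0x111220, nat_lit 2, nat_lit 4, nat_lit 0x4a⟩ (.nil) (.nil)
def t14_6132 : Tr := .node ⟨nat_lit 3, nat_lit 0x40004, nat_lit 0x10, nat_lit 0xb, nat_lit 4, nat_lit 0x45⟩ (.nil) (.nil)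
def t14_14324 : Tr := .node ⟨nat_lit 8, nat_lit 0x10006000a000c0, nat_lit 0x10310, nat_lit 1, nat_lit 4, nat_lit 0x47⟩ (.nil) (.nil)
def t14_4084 : Tr := .node ⟨nat_lit 7, nat_lit 0x20004000100070, nat_lit 0x111002, nat_lit 1, nat_lit 4, nat_lit 0x47⟩ (.nil) (.nil)
def t14_12276 : Tr := .node ⟨nat_lit 8, nat_lit 0x80002000c000d000e0, nat_lit 0x110013, nat_lit 1, nat_lit 4, nat_lit 0x46⟩ (.nil) (.nil)
def t14_8180 : Tr := .node ⟨nat_lit 6, nat_lit 0x20002800280030, nat_lit 0x11410, nat_lit 4, nat_lit 4, nat_lit 0x47⟩ (.nil) (.nil)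
def t9_500 : Tr := .node ⟨nat_lit 3, nat_lit 4, nat_lit 0x132, nat_lit 7, nat_lit 4, nat_lit 0x47⟩ (.node ⟨nat_lit 6, nat_lit 0x20002800280028, nat_lit 0x320220, nat_lit 3, nat_lit 4, nat_lit 0x49⟩ (.node ⟨nat_lit 4, nat_lit 0, nat_lit 0x2221, nat_lit 7, nat_lit 4, nat_lit 0x4a⟩ (.node ⟨nat_lit 7, nat_lit 0x2000400042, nat_lit 0x2011001, nat_lit 1, nat_lit 4, nat_lit 0x49⟩ (.node ⟨nat_lit 7, nat_lit 0x40001000600060, nat_lit 0x121121, nat_lit 0, nat_lit 4, nat_lit 0x48⟩ (t14_500) (t14_8692)) (.node ⟨nat_lit 6, nat_lit 0x1000200034, nat_lit 0x121211, nat_lit 3, nat_lit 4, nat_lit 0x49⟩ (t14_4596) (t14_12788))) (.node ⟨nat_lit 3, nat_lit 6, nat_lit 0x103, nat_lit 6, nat_lit 4, nat_lit 0x44⟩ (.node ⟨nat_lit 7, nat_lit 0x400040002000200050, nat_lit 0x112310, nat_lit 0, nat_lit 4, nat_lit 0x48⟩ (t14_2548) (t14_10740)) (.node ⟨nat_lit 6, nat_lit 0x800280030,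 nat_lit 0x110221, nat_lit 3, nat_lit 4, nat_lit 0x47⟩ (t14_6644) (t14_14836)))) (.node ⟨nat_lit 5, nat_lit 0x40018, nat_lit 0x10211, nat_lit 1, nat_lit 4, nat_lit 0x46⟩ (.node ⟨nat_lit 6, nat_lit 0x80030, nat_lit 0x212210, nat_lit 0, nat_lit 4, nat_lit 0x4a⟩ (.node ⟨nat_lit 6, nat_lit 0x800280030, nat_lit 0x11310, nat_lit 1, nat_lit 4, nat_lit 0x47⟩ (t14_1524) (t14_9716)) (.node ⟨nat_lit 5, nat_lit 0x1000080018, nat_lit 0x21220, nat_lit 1, nat_lit 3, nat_lit 0x46⟩ (t14_5620) (t14_13812))) (.node ⟨nat_lit 7, nat_lit 0x4000200044, nat_lit 0x2111100, nat_lit 0, nat_lit 4, nat_lit 0x4a⟩ (.node ⟨nat_lit 7, nat_lit 0x40004800300068, nat_lit 0x1011100, nat_lit 0, nat_lit 4, nat_lit 0x46⟩ (t14_3572) (t14_11764)) (.node ⟨nat_lit 7, nat_lit 0x4000400060, nat_lit 0x1111002, nat_lit 0, nat_lit 3, nat_lit 0x48⟩ (t14_7668) (.nil))))) (.node ⟨nat_lit 6, nat_lit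 0x2000300030, nat_lit 0x3120, nat_lit 5, nat_lit 4, nat_lit 0x48⟩ (.node ⟨nat_lit 6, nat_lit 0x30, nat_lit 0x212110, nat_lit 0, nat_lit 4, nat_lit 0x4a⟩ (.node ⟨nat_lit 3, nat_lit 0x40004, nat_lit 0x211, nat_lit 0x11, nat_lit 4, nat_lit 0x48⟩ (.node ⟨nat_lit 7, nat_lit 0x1000400060, nat_lit 0x1201031, nat_lit 0, nat_lit 4, nat_lit 0x4a⟩ (t14_1012) (t14_9204)) (.node ⟨nat_lit 6, nat_lit 0x200020, nat_lit 0x122211, nat_lit 2, nat_lit 4, nat_lit 0x4b⟩ (t14_5108) (t14_13300))) (.node ⟨nat_lit 7, nat_lit 0x40001000600068, nat_lit 0x1012101, nat_lit 0, nat_lit 4, nat_lit 0x47⟩ (.node ⟨nat_lit 5, nat_lit 0x100014001c, nat_lit 0x21212, nat_lit 6, nat_lit 4, nat_lit 0x48⟩ (t14_3060) (t14_11252)) (.node ⟨nat_lit 7, nat_lit 0x10002000500060, nat_lit 0x1012022, nat_lit 1, nat_lit 4, nat_lit 0x48⟩ (t14_7156) (t14_15348)))) (.node ⟨nat_lit 7, nat_lit 0x600060,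 nat_lit 0x1021111, nat_lit 0, nat_lit 4, nat_lit 0x49⟩ (.node ⟨nat_lit 6, nat_lit 0x2000080030, nat_lit 0x211101, nat_lit 1, nat_lit 3, nat_lit 0x47⟩ (.node ⟨nat_lit 6, nat_lit 0x1000200030, nat_lit 0x111312, nat_lit 2, nat_lit 4, nat_lit 0x49⟩ (t14_2036) (t14_10228)) (.node ⟨nat_lit 6, nat_lit 0x1000280034, nat_lit 0x112120, nat_lit 1, nat_lit 4, nat_lit 0x47⟩ (t14_6132) (t14_14324))) (.node ⟨nat_lit 5, nat_lit 0x18, nat_lit 0x22214, nat_lit 0, nat_lit 4, nat_lit 0x4a⟩ (.node ⟨nat_lit 6, nat_lit 0x2000200034, nat_lit 0x101100, nat_lit 2, nat_lit 4, nat_lit 0x47⟩ (t14_4084) (t14_12276)) (.node ⟨nat_lit 6, nat_lit 0x2000100030, nat_lit 0x111121, nat_lit 2, nat_lit 3, nat_lit 0x47⟩ (t14_8180) (.nil)))))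
def t4_4 : Tr := .node ⟨nat_lit 4, nat_lit 0, nat_lit 0x2111, nat_lit 3, nat_lit 3, nat_lit 0x47⟩ (.node ⟨nat_lit 3, nat_lit 0, nat_lit 0x311, nat_lit 3, nat_lit 3, nat_lit 0x46⟩ (.node ⟨nat_lit 4, nat_lit 8, nat_lit 0x1111, nat_lit 5, nat_lit 3, nat_lit 0x46⟩ (.node ⟨nat_lit 3, nat_lit 0, nat_lit 0x421, nat_lit 0xb, nat_lit 4, nat_lit 0x4a⟩ (.node ⟨nat_lit 5, nat_lit 0x18, nat_lit 0x21412, nat_lit 0, nat_lit 4, nat_lit 0x4a⟩ (t9_4) (t9_260)) (.node ⟨nat_lit 4, nat_lit 0xc, nat_lit 0x3222, nat_lit 0, nat_lit 3, nat_lit 0x47⟩ (t9_132) (t9_388))) (.node ⟨nat_lit 1, nat_lit 0, nat_lit 2, nat_lit 0xa, nat_lit 3, nat_lit 0x43⟩ (.node ⟨nat_lit 2, nat_lit 2, nat_lit 0x23, nat_lit 9, nat_lit 3, nat_lit 0x45⟩ (t9_68) (t9_324)) (.node ⟨nat_lit 4, nat_lit 0xc, nat_lit 0x3121, nat_lit 3, nat_lit 3, nat_lit 0x47⟩ (t9_196) (t9_452)))) (.node ⟨nat_lit 5, nat_lit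 0x100018, nat_lit 0x1210, nat_lit 0, nat_lit 3, nat_lit 0x45⟩ (.node ⟨nat_lit 5, nat_lit 0x10, nat_lit 0x24111, nat_lit 3, nat_lit 4, nat_lit 0x4b⟩ (.node ⟨nat_lit 4, nat_lit 8, nat_lit 0x3213, nat_lit 3, nat_lit 4, nat_lit 0x4a⟩ (t9_36) (t9_292)) (.node ⟨nat_lit 5, nat_lit 0x1000080014, nat_lit 0x31211, nat_lit 5, nat_lit 4, nat_lit 0x49⟩ (t9_164) (t9_420))) (.node ⟨nat_lit 4, nat_lit 8, nat_lit 0x1411, nat_lit 9, nat_lit 4, nat_lit 0x4a⟩ (.node ⟨nat_lit 4, nat_lit 8, nat_lit 0x2112, nat_lit 5, nat_lit 3, nat_lit 0x47⟩ (t9_100) (t9_356)) (.node ⟨nat_lit 5, nat_lit 0x18, nat_lit 0x31211, nat_lit 5, nat_lit 4, nat_lit 0x4a⟩ (t9_228) (t9_484))))) (.node ⟨nat_lit 5, nat_lit 0x100010, nat_lit 0x2120, nat_lit 0, nat_lit 3, nat_lit 0x46⟩ (.node ⟨nat_lit 3, nat_lit 4, nat_lit 0x112, nat_lit 2, nat_lit 3, nat_lit 0x44⟩ (.node ⟨nat_lit 2, nat_lit 0, nat_lit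 0x42, nat_lit 3, nat_lit 3, nat_lit 0x46⟩ (.node ⟨nat_lit 2, nat_lit 2, nat_lit 0x31, nat_lit 0x13, nat_lit 4, nat_lit 0x48⟩ (t9_20) (t9_276)) (.node ⟨nat_lit 4, nat_lit 8, nat_lit 0x3112, nat_lit 5, nat_lit 3, nat_lit 0x48⟩ (t9_148) (t9_404))) (.node ⟨nat_lit 2, nat_lit 0, nat_lit 0x42, nat_lit 2, nat_lit 3, nat_lit 0x46⟩ (.node ⟨nat_lit 4, nat_lit 0x40008, nat_lit 0x2101, nat_lit 1, nat_lit 3, nat_lit 0x45⟩ (t9_84) (t9_340)) (.node ⟨nat_lit 4, nat_lit 8, nat_lit 0x3211, nat_lit 4, nat_lit 3, nat_lit 0x48⟩ (t9_212) (t9_468)))) (.node ⟨nat_lit 4, nat_lit 0, nat_lit 0x4321, nat_lit 3, nat_lit 4, nat_lit 0x4b⟩ (.node ⟨nat_lit 5, nat_lit 0x80010, nat_lit 0x12420, nat_lit 1, nat_lit 4, nat_lit 0x4a⟩ (.node ⟨nat_lit 5, nat_lit 0x80010, nat_lit 0x12211, nat_lit 0, nat_lit 3, nat_lit 0x47⟩ (t9_52) (t9_308)) (.node ⟨nat_lit 5, nat_lit 0, nat_lit 0x32111,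 nat_lit 0, nat_lit 4, nat_lit 0x4a⟩ (t9_180) (t9_436))) (.node ⟨nat_lit 6, nat_lit 0x200020, nat_lit 0x42110, nat_lit 1, nat_lit 4, nat_lit 0x4b⟩ (.node ⟨nat_lit 5, nat_lit 0x40018, nat_lit 0x32113, nat_lit 0, nat_lit 4, nat_lit 0x49⟩ (t9_116) (t9_372)) (.node ⟨nat_lit 6, nat_lit 0x1000200038, nat_lit 0x13202, nat_lit 1, nat_lit 4, nat_lit 0x48⟩ (t9_244) (t9_500)))))

end Pool.Agent.Sel.T31
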