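import Pool.Agent.H8.Sel.Prof
import Pool.Agent.H8.Sel.T31.P4

set_option linter.all false
set_option maxRecDepth 100000

namespace Pool.Agent.Sel.T31

open Pool.Agent.Sel

def t14_6 : Tr := .node ⟨nat_lit 7, nat_lit 0x400040007000700068, nat_lit 0x1012101, nat_lit 1, nat_lit 4, nat_lit 0x46⟩ (.nil) (.nil)
def t14_8198 : Tr := .node ⟨nat_lit 0xa, nat_lit 0x8002000040021002100300, nat_lit 0x10310, nat_lit 1, nat_lit 4, nat_lit 0x49⟩ (.nil) (.nil)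
def t14_4102 : Tr := .node ⟨nat_lit 8, nat_lit 0x8000800040009000a000e0, nat_lit 0x1110102, nat_lit 1, nat_lit 4, nat_lit 0x47⟩ (.nil) (.nil)
def t14_12294 : Tr := .node ⟨nat_lit 8, nat_lit 0x3000a000a000c0, nat_lit 0x1011301, nat_lit 0, nat_lit 4, nat_lit 0x47⟩ (.nil) (.nil)
def t14_2054 : Tr := .node ⟨nat_lit 6, nat_lit 0x1000280034, nat_lit 0x21010, nat_lit 1, nat_lit 4, nat_lit 0x46⟩ (.nil) (.nil)
def t14_10246 : Tr := .node ⟨nat_lit 7, nat_lit 0x40003000580068, nat_lit 0x1000001, nat_lit 0, nat_lit 4, nat_lit 0x44⟩ (.nil) (.nil)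
def t14_6150 : Tr := .node ⟨nat_lit 5, nat_lit 0x800100012, nat_lit 0x11, nat_lit 6, nat_lit 4, nat_lit 0x45⟩ (.nil) (.nil)
def t14_14342 : Tr := .node ⟨nat_lit 0xa, nat_lit 0x100010002000080008000880310, nat_lit 0x1002100000, nat_lit 1, nat_lit 4, nat_lit 0x49⟩ (.nil) (.nil)
def t14_1030 : Tr := .node ⟨nat_lit 4, nat_lit 0x8000c, nat_lit 0x21, nat_lit 7, nat_lit 4, nat_lit 0x45⟩ (.nil) (.nil)
def t14_9222 : Tr := .node ⟨nat_lit 0xb, nat_lit 0x4000400040002000200042004400480, nat_lit 0x101110010, nat_lit 0, nat_lit 4, nat_lit 0x4a⟩ (.nil) (.nil)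
def t14_5126 : Tr := .node ⟨nat_lit 7, nat_lit 0x4000200060, nat_lit 0x11300, nat_lit 0, nat_lit 3, nat_lit 0x47⟩ (.nil) (.nil)
def t14_13318 : Tr := .node ⟨nat_lit 5, nat_lit 0x180018, nat_lit 0x11300, nat_lit 1, nat_lit 3, nat_lit 0x46⟩ (.nil) (.nil)
def t14_3078 : Tr := .node ⟨nat_lit 7, nat_lit 0x200020004000400070, nat_lit 0x110221, nat_lit 3, nat_lit 4, nat_lit 0x48⟩ (.nil) (.nil)
def t14_11270 : Tr := .node ⟨nat_lit 8, nat_lit 0x80004000a000a000d0, nat_lit 0x110201, nat_lit 1, nat_lit 4, nat_lit 0x47⟩ (.nil) (.nil)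
def t14_7174 : Tr := .node ⟨nat_lit 7, nat_lit 0x20004000400060, nat_lit 0x1031111, nat_lit 0, nat_lit 4, nat_lit 0x49⟩ (.nil) (.nil)
def t14_15366 : Tr := .node ⟨nat_lit 9, nat_lit 0x1000100004001100180, nat_lit 0x11111110, nat_lit 0, nat_lit 4, nat_lit 0x4a⟩ (.nil) (.nil)
def t14_518 : Tr := .node ⟨nat_lit 8, nat_lit 0x80008000400040, nat_lit 0x11111111, nat_lit 0, nat_lit 4, nat_lit 0x4b⟩ (.nil) (.nil)
def t14_8710 : Tr := .node ⟨nat_lit 6, nat_lit 0x20002000100010, nat_lit 0x102010, nat_lit 2, nat_lit 3, nat_lit 0x46⟩ (.nil) (.nil)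
def t14_4614 : Tr := .node ⟨nat_lit 7, nat_lit 0x10002000400040, nat_lit 0x1112010, nat_lit 0, nat_lit 4, nat_lit 0x49⟩ (.nil) (.nil)
def t14_12806 : Tr := .node ⟨nat_lit 7, nat_lit 0x40002000600064, nat_lit 0x12200, nat_lit 1, nat_lit 4, nat_lit 0x47⟩ (.nil) (.nil)
def t14_2566 : Tr := .node ⟨nat_lit 8, nat_lit 0x40004000800088005000e0, nat_lit 0x10121001, nat_lit 0, nat_lit 4, nat_lit 0x47⟩ (.nil) (.nil)
def t14_10758 : Tr := .node ⟨nat_lit 6, nat_lit 0x10002000300034, nat_lit 0x1022, nat_lit 4, nat_lit 4, nat_lit 0x45⟩ (.nil) (.nil)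
def t14_6662 : Tr := .node ⟨nat_lit 8, nat_lit 0x800080004000400020, nat_lit 0x110301, nat_lit 1, nat_lit 4, nat_lit 0x49⟩ (.nil) (.nil)
def t14_14854 : Tr := .node ⟨nat_lit 9, nat_lit 0x10000800080012001880190, nat_lit 0x11111111, nat_lit 0, nat_lit 4, nat_lit 0x48⟩ (.nil) (.nil)
def t14_1542 : Tr := .node ⟨nat_lit 8, nat_lit 0x80008000400040004000c8, nat_lit 0x211210, nat_lit 0, nat_lit 4, nat_lit 0x48⟩ (.nil) (.nil)
def t14_9734 : Tr := .node ⟨nat_lit 7, nat_lit 0x800500060, nat_lit 0x110022, nat_lit 0, nat_lit 3, nat_lit 0x46⟩ (.nil) (.nil)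
def t14_5638 : Tr := .node ⟨nat_lit 5, nat_lit 0x1000140018, nat_lit 0x100, nat_lit 3, nat_lit 4, nat_lit 0x44⟩ (.nil) (.nil)
def t14_13830 : Tr := .node ⟨nat_lit 7, nat_lit 0x40004800300030, nat_lit 0x2020, nat_lit 2, nat_lit 4, nat_lit 0x46⟩ (.nil) (.nil)
def t14_3590 : Tr := .node ⟨nat_lit 8, nat_lit 0x50009000c000a0, nat_lit 0x1120, nat_lit 0, nat_lit 4, nat_lit 0x46⟩ (.nil) (.nil)
def t14_11782 : Tr := .node ⟨nat_lit 5, nat_lit 0x800100018, nat_lit 0x203, nat_lit 6, nat_lit 4, nat_lit 0x46⟩ (.nil) (.nil)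
def t14_7686 : Tr := .node ⟨nat_lit 7, nat_lit 0x1000080060, nat_lit 2, nat_lit 3, nat_lit 4, nat_lit 0x47⟩ (.nil) (.nil)
def t9_6 : Tr := .node ⟨nat_lit 5, nat_lit 0x100018, nat_lit 0x13211, nat_lit 3, nat_lit 4, nat_lit 0x49⟩ (.node ⟨nat_lit 5, nat_lit 0x10, nat_lit 0x13102, nat_lit 0, nat_lit 4, nat_lit 0x49⟩ (.node ⟨nat_lit 8, nat_lit 0x200040008000c800c8, nat_lit 0x3000120, nat_lit 1, nat_lit 4, nat_lit 0x48⟩ (.node ⟨nat_lit 7, nat_lit 0x3000500060, nat_lit 0x12210, nat_lit 1, nat_lit 4, nat_lit 0x47⟩ (.node ⟨nat_lit 5, nat_lit 0x100012, nat_lit 0x22131, nat_lit 3, nat_lit 4, nat_lit 0x4a⟩ (t14_6) (t14_8198)) (.node ⟨nat_lit 6, nat_lit 0x800080030, nat_lit 0x110000, nat_lit 1, nat_lit 4, nat_lit 0x46⟩ (t14_4102) (t14_12294))) (.node ⟨nat_lit 3, nat_lit 6, nat_lit 0x212, nat_lit 0x10, nat_lit 4, nat_lit 0x48⟩ (.node ⟨nat_lit 8, nat_lit 0x80004000200020,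 nat_lit 0x1110031, nat_lit 1, nat_lit 4, nat_lit 0x4b⟩ (t14_2054) (t14_10246)) (.node ⟨nat_lit 7, nat_lit 0x2000400060, nat_lit 0x22200, nat_lit 0, nat_lit 4, nat_lit 0x49⟩ (t14_6150) (t14_14342)))) (.node ⟨nat_lit 7, nat_lit 0x4000400060, nat_lit 0x22111, nat_lit 0, nat_lit 4, nat_lit 0x49⟩ (.node ⟨nat_lit 6, nat_lit 0x200020, nat_lit 0x231111, nat_lit 0, nat_lit 4, nat_lit 0x4b⟩ (.node ⟨nat_lit 6, nat_lit 0x800300038, nat_lit 0x111141, nat_lit 0, nat_lit 4, nat_lit 0x47⟩ (t14_1030) (t14_9222)) (.node ⟨nat_lit 7, nat_lit 0x400040, nat_lit 0x222110, nat_lit 2, nat_lit 4, nat_lit 0x4c⟩ (t14_5126) (t14_13318))) (.node ⟨nat_lit 5, nat_lit 0x100010, nat_lit 0x11120, nat_lit 3, nat_lit 4, nat_lit 0x48⟩ (.node ⟨nat_lit 5, nat_lit 0x800100018, nat_lit 0x11003, nat_lit 9, nat_lit 4, nat_lit 0x48⟩ (t14_3078) (t14_11270)) (.node ⟨nat_lit 6, nat_lit 0x20002000300038,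 nat_lit 0x12022, nat_lit 5, nat_lit 4, nat_lit 0x47⟩ (t14_7174) (t14_15366))))) (.node ⟨nat_lit 8, nat_lit 0x400080008800880088, nat_lit 0x30100210, nat_lit 1, nat_lit 4, nat_lit 0x4a⟩ (.node ⟨nat_lit 6, nat_lit 0, nat_lit 0x222111, nat_lit 0, nat_lit 4, nat_lit 0x4c⟩ (.node ⟨nat_lit 3, nat_lit 4, nat_lit 0x210, nat_lit 5, nat_lit 4, nat_lit 0x45⟩ (.node ⟨nat_lit 7, nat_lit 0x40002000100060, nat_lit 0x1022011, nat_lit 2, nat_lit 4, nat_lit 0x49⟩ (t14_518) (t14_8710)) (.node ⟨nat_lit 6, nat_lit 0x2000080030, nat_lit 0x211302, nat_lit 0, nat_lit 4, nat_lit 0x49⟩ (t14_4614) (t14_12806))) (.node ⟨nat_lit 4, nat_lit 0x80008, nat_lit 0x120, nat_lit 6, nat_lit 3, nat_lit 0x45⟩ (.node ⟨nat_lit 6, nat_lit 0x280030, nat_lit 0x21110, nat_lit 0, nat_lit 4, nat_lit 0x47⟩ (t14_2566) (t14_10758)) (.node ⟨nat_lit 9, nat_lit 0x100010000800108, nat_lit 0x12110000,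 nat_lit 3, nat_lit 4, nat_lit 0x4c⟩ (t14_6662) (t14_14854)))) (.node ⟨nat_lit 4, nat_lit 0x40008, nat_lit 0x1213, nat_lit 6, nat_lit 4, nat_lit 0x48⟩ (.node ⟨nat_lit 5, nat_lit 0x10, nat_lit 0x22111, nat_lit 8, nat_lit 4, nat_lit 0x4b⟩ (.node ⟨nat_lit 6, nat_lit 0x200032, nat_lit 0x111131, nat_lit 1, nat_lit 4, nat_lit 0x49⟩ (t14_1542) (t14_9734)) (.node ⟨nat_lit 7, nat_lit 0x400020002000500050, nat_lit 0x1112120, nat_lit 1, nat_lit 4, nat_lit 0x48⟩ (t14_5638) (t14_13830))) (.node ⟨nat_lit 5, nat_lit 0x40018, nat_lit 0x20104, nat_lit 2, nat_lit 4, nat_lit 0x47⟩ (.node ⟨nat_lit 6, nat_lit 0x800300038, nat_lit 0x1003, nat_lit 5, nat_lit 4, nat_lit 0x46⟩ (t14_3590) (t14_11782)) (.node ⟨nat_lit 6, nat_lit 0x20002000100028, nat_lit 0x113111, nat_lit 3, nat_lit 4, nat_lit 0x49⟩ (t14_7686) (.nil)))))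
def t14_262 : Tr := .node ⟨nat_lit 8, nat_lit 0x2000c000a0, nat_lit 0x121121, nat_lit 0, nat_lit 4, nat_lit 0x4a⟩ (.nil) (.nil)
def t14_8454 : Tr := .node ⟨nat_lit 6, nat_lit 0x2000100032, nat_lit 0x1301, nat_lit 1, nat_lit 4, nat_lit 0x46⟩ (.nil) (.nil)
def t14_4358 : Tr := .node ⟨nat_lit 8, nat_lit 0x800040009000b000d0, nat_lit 0x11100012, nat_lit 1, nat_lit 4, nat_lit 0x47⟩ (.nil) (.nil)
def t14_12550 : Tr := .node ⟨nat_lit 7, nat_lit 0x400050005000600070, nat_lit 0x1000031, nat_lit 3, nat_lit 4, nat_lit 0x46⟩ (.nil) (.nil)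
def t14_2310 : Tr := .node ⟨nat_lit 7, nat_lit 0x40001000480060, nat_lit 0x113011, nat_lit 0, nat_lit 4, nat_lit 0x48⟩ (.nil) (.nil)
def t14_10502 : Tr := .node ⟨nat_lit 8, nat_lit 0x800040002000c000a0, nat_lit 0x10022, nat_lit 2, nat_lit 4, nat_lit 0x47⟩ (.nil) (.nil)
def t14_6406 : Tr := .node ⟨nat_lit 8, nat_lit 0x40004000800060008800c0, nat_lit 0x10001002, nat_lit 1, nat_lit 4, nat_lit 0x47⟩ (.nil) (.nil)
def t14_14598 : Tr := .node ⟨nat_lit 3, nat_lit 0, nat_lit 0x111, nat_lit 0xe, nat_lit 3, nat_lit 0x47⟩ (.nil) (.nil)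
def t14_1286 : Tr := .node ⟨nat_lit 7, nat_lit 0x40002000100064, nat_lit 0x11310, nat_lit 0, nat_lit 4, nat_lit 0x47⟩ (.nil) (.nil)
def t14_9478 : Tr := .node ⟨nat_lit 8, nat_lit 0x40008000800060009000c0, nat_lit 0x1012002, nat_lit 3, nat_lit 4, nat_lit 0x48⟩ (.nil) (.nil)
def t14_5382 : Tr := .node ⟨nat_lit 7, nat_lit 0x10004000440060, nat_lit 0x100212, nat_lit 5, nat_lit 4, nat_lit 0x48⟩ (.nil) (.nil)
def t14_13574 : Tr := .node ⟨nat_lit 8, nat_lit 0x8000800020002000d0, nat_lit 0x10102, nat_lit 0, nat_lit 4, nat_lit 0x47⟩ (.nil) (.nil)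
def t14_3334 : Tr := .node ⟨nat_lit 7, nat_lit 0x40003000500060, nat_lit 0x110212, nat_lit 1, nat_lit 4, nat_lit 0x47⟩ (.nil) (.nil)
def t14_11526 : Tr := .node ⟨nat_lit 6, nat_lit 0x1000200020, nat_lit 0x101111, nat_lit 2, nat_lit 4, nat_lit 0x48⟩ (.nil) (.nil)
def t14_7430 : Tr := .node ⟨nat_lit 7, nat_lit 0x10002000200040, nat_lit 0x1111111, nat_lit 4, nat_lit 4, nat_lit 0x4a⟩ (.nil) (.nil)
def t14_774 : Tr := .node ⟨nat_lit 6, nat_lit 0x280030, nat_lit 0x113, nat_lit 2, nat_lit 4, nat_lit 0x46⟩ (.nil) (.nil)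
def t14_8966 : Tr := .node ⟨nat_lit 7, nat_lit 0x4000400040004800500060, nat_lit 0x11010, nat_lit 0xb, nat_lit 4, nat_lit 0x48⟩ (.nil) (.nil)
def t14_4870 : Tr := .node ⟨nat_lit 9, nat_lit 0x100010000800080014001400190, nat_lit 0x11112000, nat_lit 0, nat_lit 4, nat_lit 0x48⟩ (.nil) (.nil)
def t14_13062 : Tr := .node ⟨nat_lit 8, nat_lit 0x400080002000880088, nat_lit 0x102100, nat_lit 0, nat_lit 4, nat_lit 0x48⟩ (.nil) (.nil)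
def t14_2822 : Tr := .node ⟨nat_lit 6, nat_lit 0x2000200034, nat_lit 0x102001, nat_lit 2, nat_lit 4, nat_lit 0x47⟩ (.nil) (.nil)
def t14_11014 : Tr := .node ⟨nat_lit 6, nat_lit 0x3000300030, nat_lit 0x2210, nat_lit 5, nat_lit 4, nat_lit 0x47⟩ (.nil) (.nil)
def t14_6918 : Tr := .node ⟨nat_lit 4, nat_lit 0x8000c, nat_lit 0x1211, nat_lit 0xb, nat_lit 4, nat_lit 0x48⟩ (.nil) (.nil)
def t14_15110 : Tr := .node ⟨nat_lit 8, nat_lit 0x800040004000a000a000e0, nat_lit 0x10111110, nat_lit 0, nat_lit 4, nat_lit 0x47⟩ (.nil) (.nil)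
def t14_1798 : Tr := .node ⟨nat_lit 7, nat_lit 0x800500060, nat_lit 0x120022, nat_lit 0, nat_lit 4, nat_lit 0x48⟩ (.nil) (.nil)
def t14_9990 : Tr := .node ⟨nat_lit 7, nat_lit 0x4000200020, nat_lit 0x3011020, nat_lit 0, nat_lit 3, nat_lit 0x49⟩ (.nil) (.nil)
def t14_5894 : Tr := .node ⟨nat_lit 0xa, nat_lit 0x20002000080008802200300, nat_lit 0x11120000, nat_lit 1, nat_lit 4, nat_lit 0x4a⟩ (.nil) (.nil)
def t14_14086 : Tr := .node ⟨nat_lit 7, nat_lit 0x400040004000200020, nat_lit 0x10031, nat_lit 3, nat_lit 4, nat_lit 0x48⟩ (.nil) (.nil)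
def t14_3846 : Tr := .node ⟨nat_lit 7, nat_lit 0x20002000500060, nat_lit 0x1010012, nat_lit 0, nat_lit 4, nat_lit 0x47⟩ (.nil) (.nil)
def t14_12038 : Tr := .node ⟨nat_lit 6, nat_lit 0x800280030, nat_lit 0x11112, nat_lit 3, nat_lit 4, nat_lit 0x47⟩ (.nil) (.nil)
def t14_7942 : Tr := .node ⟨nat_lit 9, nat_lit 0x800100011000a000a000c0, nat_lit 0x101100211, nat_lit 0, nat_lit 4, nat_lit 0x48⟩ (.nil) (.nil)
def t9_262 : Tr := .node ⟨nat_lit 4, nat_lit 0xc, nat_lit 0x1021, nat_lit 2, nat_lit 3, nat_lit 0x45⟩ (.node ⟨nat_lit 6, nat_lit 0x2000240034, nat_lit 0x301112, nat_lit 1, nat_lit 4, nat_lit 0x48⟩ (.node ⟨nat_lit 7, nat_lit 0x20006000600050, nat_lit 0x20302, nat_lit 0, nat_lit 4, nat_lit 0x47⟩ (.node ⟨nat_lit 4, nat_lit 8, nat_lit 0x1223, nat_lit 2, nat_lit 3, nat_lit 0x47⟩ (.node ⟨nat_lit 6, nat_lit 0x10001000200022, nat_lit 0x122200, nat_lit 3,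 nat_lit 4, nat_lit 0x49⟩ (t14_262) (t14_8454)) (.node ⟨nat_lit 7, nat_lit 0x10004000400064, nat_lit 0x100120, nat_lit 0, nat_lit 4, nat_lit 0x47⟩ (t14_4358) (t14_12550))) (.node ⟨nat_lit 3, nat_lit 4, nat_lit 0x132, nat_lit 9, nat_lit 3, nat_lit 0x46⟩ (.node ⟨nat_lit 5, nat_lit 0x1000080008, nat_lit 0x21033, nat_lit 1, nat_lit 3, nat_lit 0x47⟩ (t14_2310) (t14_10502)) (.node ⟨nat_lit 7, nat_lit 0x10001800500060, nat_lit 0x1112102, nat_lit 0, nat_lit 4, nat_lit 0x48⟩ (t14_6406) (t14_14598)))) (.node ⟨nat_lit 5, nat_lit 0x40018, nat_lit 0x21121, nat_lit 1, nat_lit 4, nat_lit 0x47⟩ (.node ⟨nat_lit 6, nat_lit 0x1000200034, nat_lit 0x222111, nat_lit 1, nat_lit 4, nat_lit 0x49⟩ (.node ⟨nat_lit 7, nat_lit 0x40001000100060, nat_lit 0x100003, nat_lit 5, nat_lit 4, nat_lit 0x48⟩ (t14_1286) (t14_9478)) (.node ⟨nat_lit 8, nat_lit 0x8000400020002000c0, nat_lit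 0x11022002, nat_lit 0, nat_lit 4, nat_lit 0x49⟩ (t14_5382) (t14_13574))) (.node ⟨nat_lit 5, nat_lit 0x100018, nat_lit 0x10202, nat_lit 5, nat_lit 4, nat_lit 0x47⟩ (.node ⟨nat_lit 7, nat_lit 0x10001000600060, nat_lit 0x1102031, nat_lit 0, nat_lit 4, nat_lit 0x48⟩ (t14_3334) (t14_11526)) (.node ⟨nat_lit 7, nat_lit 0x1000080060, nat_lit 0x1101012, nat_lit 2, nat_lit 4, nat_lit 0x49⟩ (t14_7430) (.nil))))) (.node ⟨nat_lit 6, nat_lit 0x2000100010, nat_lit 0x13011, nat_lit 3, nat_lit 4, nat_lit 0x49⟩ (.node ⟨nat_lit 6, nat_lit 0x280030, nat_lit 0x112120, nat_lit 0, nat_lit 4, nat_lit 0x48⟩ (.node ⟨nat_lit 2, nat_lit 2, nat_lit 0x12, nat_lit 0xb, nat_lit 4, nat_lit 0x45⟩ (.node ⟨nat_lit 6, nat_lit 0x80030, nat_lit 0x221210, nat_lit 0, nat_lit 4, nat_lit 0x4a⟩ (t14_774) (t14_8966)) (.node ⟨nat_lit 7, nat_lit 0x40004000100060, nat_lit 0x12120, nat_lit 1,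 nat_lit 4, nat_lit 0x48⟩ (t14_4870) (t14_13062))) (.node ⟨nat_lit 7, nat_lit 0x40001000500068, nat_lit 0x1002022, nat_lit 0, nat_lit 4, nat_lit 0x47⟩ (.node ⟨nat_lit 7, nat_lit 0x1000400060, nat_lit 0x201013, nat_lit 1, nat_lit 4, nat_lit 0x49⟩ (t14_2822) (t14_11014)) (.node ⟨nat_lit 7, nat_lit 0x1000100060, nat_lit 0x1100302, nat_lit 0, nat_lit 4, nat_lit 0x49⟩ (t14_6918) (t14_15110)))) (.node ⟨nat_lit 6, nat_lit 0x2000100010, nat_lit 0x11021, nat_lit 5, nat_lit 4, nat_lit 0x49⟩ (.node ⟨nat_lit 6, nat_lit 0x30, nat_lit 0x101111, nat_lit 0, nat_lit 4, nat_lit 0x48⟩ (.node ⟨nat_lit 7, nat_lit 0x4000600050, nat_lit 0x111103, nat_lit 0, nat_lit 4, nat_lit 0x48⟩ (t14_1798) (t14_9990)) (.node ⟨nat_lit 5, nat_lit 0x1000080018, nat_lit 0x21201, nat_lit 1, nat_lit 3, nat_lit 0x46⟩ (t14_5894) (t14_14086))) (.node ⟨nat_lit 7, nat_lit 0x10001000600060, nat_lit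 0x2003022, nat_lit 0, nat_lit 4, nat_lit 0x48⟩ (.node ⟨nat_lit 6, nat_lit 0x300030, nat_lit 0x101010, nat_lit 0, nat_lit 4, nat_lit 0x46⟩ (t14_3846) (t14_12038)) (.node ⟨nat_lit 6, nat_lit 0x2000200030, nat_lit 0x101221, nat_lit 3, nat_lit 4, nat_lit 0x49⟩ (t14_7942) (.nil)))))
def t14_134 : Tr := .node ⟨nat_lit 7, nat_lit 0x2000400060, nat_lit 0x131121, nat_lit 0, nat_lit 4, nat_lit 0x4a⟩ (.nil) (.nil)
def t14_8326 : Tr := .node ⟨nat_lit 7, nat_lit 0x2000500060, nat_lit 2, nat_lit 0, nat_lit 4, nat_lit 0x46⟩ (.nil) (.nil)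
def t14_4230 : Tr := .node ⟨nat_lit 6, nat_lit 0x800300030, nat_lit 0x112210, nat_lit 0, nat_lit 4, nat_lit 0x48⟩ (.nil) (.nil)
def t14_12422 : Tr := .node ⟨nat_lit 8, nat_lit 0x20008000c000a0, nat_lit 0x11003, nat_lit 1, nat_lit 4, nat_lit 0x48⟩ (.nil) (.nil)
def t14_2182 : Tr := .node ⟨nat_lit 8, nat_lit 0x4000400080008000880060, nat_lit 0x10201002, nat_lit 1, nat_lit 4, nat_lit 0x48⟩ (.nil) (.nil)
def t14_10374 : Tr := .node ⟨nat_lit 8, nat_lit 0x8000200020009000c0, nat_lit 0x1020002, nat_lit 2, nat_lit 4, nat_lit 0x48⟩ (.nil) (.nil)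
def t14_6278 : Tr := .node ⟨nat_lit 4, nat_lit 0x8000c, nat_lit 0x1131, nat_lit 6, nat_lit 4, nat_lit 0x47⟩ (.nil) (.nil)
def t14_14470 : Tr := .node ⟨nat_lit 9, nat_lit 0x20008001400180, nat_lit 0x10002, nat_lit 1, nat_lit 4, nat_lit 0x49⟩ (.nil) (.nil)
def t14_1158 : Tr := .node ⟨nat_lit 6, nat_lit 0x80030, nat_lit 0x1112, nat_lit 1, nat_lit 4, nat_lit 0x47⟩ (.nil) (.nil)
def t14_9350 : Tr := .node ⟨nat_lit 7, nat_lit 0x40004000400048, nat_lit 0x211211, nat_lit 4, nat_lit 4, nat_lit 0x4a⟩ (.nil) (.nil)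
def t14_5254 : Tr := .node ⟨nat_lit 8, nat_lit 0x8000c000c0, nat_lit 0x111310, nat_lit 0, nat_lit 4, nat_lit 0x4a⟩ (.nil) (.nil)
def t14_13446 : Tr := .node ⟨nat_lit 6, nat_lit 0x1000200030, nat_lit 0x1300, nat_lit 2, nat_lit 4, nat_lit 0x47⟩ (.nil) (.nil)
def t14_3206 : Tr := .node ⟨nat_lit 9, nat_lit 0x100010000800080014001400180, nat_lit 0x1011102, nat_lit 0, nat_lit 4, nat_lit 0x48⟩ (.nil) (.nil)
def t14_11398 : Tr := .node ⟨nat_lit 7, nat_lit 0x10001000600060, nat_lit 0x1002120, nat_lit 0, nat_lit 4, nat_lit 0x47⟩ (.nil) (.nil)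
def t14_7302 : Tr := .node ⟨nat_lit 7, nat_lit 0x20006000600050, nat_lit 0x20211, nat_lit 2, nat_lit 4, nat_lit 0x47⟩ (.nil) (.nil)
def t14_15494 : Tr := .node ⟨nat_lit 8, nat_lit 0x40008000c000c4, nat_lit 0x10110211, nat_lit 0, nat_lit 4, nat_lit 0x49⟩ (.nil) (.nil)
def t14_646 : Tr := .node ⟨nat_lit 5, nat_lit 0x100018, nat_lit 0x230, nat_lit 3, nat_lit 4, nat_lit 0x47⟩ (.nil) (.nil)
def t14_8838 : Tr := .node ⟨nat_lit 7, nat_lit 0x4000400064, nat_lit 0x111213, nat_lit 1, nat_lit 4, nat_lit 0x49⟩ (.nil) (.nil)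
def t14_4742 : Tr := .node ⟨nat_lit 7, nat_lit 0x40002000100060, nat_lit 0x110102, nat_lit 6, nat_lit 4, nat_lit 0x49⟩ (.nil) (.nil)
def t14_12934 : Tr := .node ⟨nat_lit 7, nat_lit 0x40002000500068, nat_lit 0x12100, nat_lit 3, nat_lit 4, nat_lit 0x47⟩ (.nil) (.nil)
def t14_2694 : Tr := .node ⟨nat_lit 8, nat_lit 0x8000800040004000a000c8, nat_lit 0x1211010, nat_lit 1, nat_lit 4, nat_lit 0x48⟩ (.nil) (.nil)
def t14_10886 : Tr := .node ⟨nat_lit 9, nat_lit 0x1000100008001400120018001c0, nat_lit 0x120120, nat_lit 1, nat_lit 4, nat_lit 0x47⟩ (.nil) (.nil)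
def t14_6790 : Tr := .node ⟨nat_lit 5, nat_lit 0x180018, nat_lit 0x11100, nat_lit 0, nat_lit 3, nat_lit 0x45⟩ (.nil) (.nil)
def t14_14982 : Tr := .node ⟨nat_lit 8, nat_lit 0x8000800040004000a000c0, nat_lit 0x11002, nat_lit 0, nat_lit 4, nat_lit 0x47⟩ (.nil) (.nil)
def t14_1670 : Tr := .node ⟨nat_lit 6, nat_lit 0x2000240018, nat_lit 0x11200, nat_lit 0, nat_lit 4, nat_lit 0x46⟩ (.nil) (.nil)
def t14_9862 : Tr := .node ⟨nat_lit 7, nat_lit 0x400040005000500048, nat_lit 0x111110, nat_lit 6, nat_lit 4, nat_lit 0x48⟩ (.nil) (.nil)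
def t14_5766 : Tr := .node ⟨nat_lit 9, nat_lit 0x800100010001000108, nat_lit 0x1101200, nat_lit 3, nat_lit 4, nat_lit 0x4b⟩ (.nil) (.nil)
def t14_13958 : Tr := .node ⟨nat_lit 8, nat_lit 0x1000a000c0, nat_lit 0x1001002, nat_lit 2, nat_lit 4, nat_lit 0x49⟩ (.nil) (.nil)
def t14_3718 : Tr := .node ⟨nat_lit 6, nat_lit 0x10002000200030, nat_lit 0x113001, nat_lit 0, nat_lit 3, nat_lit 0x46⟩ (.nil) (.nil)
def t14_11910 : Tr := .node ⟨nat_lit 3, nat_lit 6, nat_lit 0x403, nat_lit 2, nat_lit 3, nat_lit 0x45⟩ (.nil) (.nil)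
def t14_7814 : Tr := .node ⟨nat_lit 6, nat_lit 0x20001000100028, nat_lit 0x12204, nat_lit 0, nat_lit 4, nat_lit 0x47⟩ (.nil) (.nil)
def t9_134 : Tr := .node ⟨nat_lit 6, nat_lit 0x800100020, nat_lit 0x131111, nat_lit 0, nat_lit 4, nat_lit 0x49⟩ (.node ⟨nat_lit 6, nat_lit 0x1000200032, nat_lit 0x311212, nat_lit 1, nat_lit 4, nat_lit 0x49⟩ (.node ⟨nat_lit 6, nat_lit 0x10001000200022, nat_lit 0x302110, nat_lit 1, nat_lit 4, nat_lit 0x48⟩ (.node ⟨nat_lit 6, nat_lit 0x280030, nat_lit 0x110212, nat_lit 2, nat_lit 4, nat_lit 0x48⟩ (.node ⟨nat_lit 6, nat_lit 0x200010, nat_lit 0x122112, nat_lit 1, nat_lit 3, nat_lit 0x49⟩ (t14_134) (t14_8326)) (.node ⟨nat_lit 7, nat_lit 0x40001000480060, nat_lit 0x12010, nat_lit 0, nat_lit 4, nat_lit 0x47⟩ (t14_4230) (t14_12422))) (.node ⟨nat_lit 7, nat_lit 0x400020002800500070, nat_lit 0x1211112, nat_lit 0, nat_lit 4, nat_lit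 0x47⟩ (.node ⟨nat_lit 4, nat_lit 0xe, nat_lit 0x1002, nat_lit 3, nat_lit 4, nat_lit 0x43⟩ (t14_2182) (t14_10374)) (.node ⟨nat_lit 8, nat_lit 0x800020008800c0, nat_lit 0x11121011, nat_lit 1, nat_lit 4, nat_lit 0x4a⟩ (t14_6278) (t14_14470)))) (.node ⟨nat_lit 7, nat_lit 0x4000400044, nat_lit 0x221000, nat_lit 3, nat_lit 4, nat_lit 0x4a⟩ (.node ⟨nat_lit 6, nat_lit 0x800080030, nat_lit 0x221111, nat_lit 1, nat_lit 4, nat_lit 0x49⟩ (.node ⟨nat_lit 2, nat_lit 2, nat_lit 0x42, nat_lit 7, nat_lit 3, nat_lit 0x46⟩ (t14_1158) (t14_9350)) (.node ⟨nat_lit 6, nat_lit 0x2000300034, nat_lit 0x111212, nat_lit 4, nat_lit 4, nat_lit 0x48⟩ (t14_5254) (t14_13446))) (.node ⟨nat_lit 6, nat_lit 0x2000100024, nat_lit 0x12001, nat_lit 0, nat_lit 4, nat_lit 0x46⟩ (.node ⟨nat_lit 7, nat_lit 0x6000500050, nat_lit 0x112130, nat_lit 0, nat_lit 4, nat_lit 0x48⟩ (t14_3206) (t14_11398))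 (.node ⟨nat_lit 6, nat_lit 0x300030, nat_lit 0x101110, nat_lit 1, nat_lit 4, nat_lit 0x47⟩ (t14_7302) (t14_15494))))) (.node ⟨nat_lit 6, nat_lit 0x20001000100028, nat_lit 0x312111, nat_lit 0, nat_lit 4, nat_lit 0x49⟩ (.node ⟨nat_lit 4, nat_lit 0x80004, nat_lit 0x2204, nat_lit 1, nat_lit 3, nat_lit 0x47⟩ (.node ⟨nat_lit 5, nat_lit 0x80010, nat_lit 0x20120, nat_lit 0, nat_lit 3, nat_lit 0x46⟩ (.node ⟨nat_lit 4, nat_lit 0xc000c, nat_lit 0x1021, nat_lit 7, nat_lit 3, nat_lit 0x44⟩ (t14_646) (t14_8838)) (.node ⟨nat_lit 7, nat_lit 0x20002000500068, nat_lit 0x102021, nat_lit 1, nat_lit 4, nat_lit 0x47⟩ (t14_4742) (t14_12934))) (.node ⟨nat_lit 5, nat_lit 0x100018, nat_lit 0x10112, nat_lit 5, nat_lit 4, nat_lit 0x47⟩ (.node ⟨nat_lit 7, nat_lit 0x40001000100060, nat_lit 0x1012300, nat_lit 1, nat_lit 4, nat_lit 0x49⟩ (t14_2694) (t14_10886)) (.node ⟨nat_lit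 8, nat_lit 0x400080008800600060, nat_lit 0x10012010, nat_lit 0, nat_lit 4, nat_lit 0x47⟩ (t14_6790) (t14_14982)))) (.node ⟨nat_lit 6, nat_lit 0x2000080030, nat_lit 0x111110, nat_lit 0, nat_lit 3, nat_lit 0x46⟩ (.node ⟨nat_lit 7, nat_lit 0x4000100060, nat_lit 0x211111, nat_lit 0, nat_lit 4, nat_lit 0x49⟩ (.node ⟨nat_lit 6, nat_lit 0x2000240018, nat_lit 0x10111, nat_lit 0, nat_lit 4, nat_lit 0x45⟩ (t14_1670) (t14_9862)) (.node ⟨nat_lit 7, nat_lit 0x40004000400020, nat_lit 0x222002, nat_lit 0, nat_lit 4, nat_lit 0x4a⟩ (t14_5766) (t14_13958))) (.node ⟨nat_lit 7, nat_lit 0x20002000500060, nat_lit 0x22021, nat_lit 2, nat_lit 4, nat_lit 0x48⟩ (.node ⟨nat_lit 7, nat_lit 0x4000180060, nat_lit 0x110001, nat_lit 0, nat_lit 4, nat_lit 0x47⟩ (t14_3718) (t14_11910)) (.node ⟨nat_lit 4, nat_lit 0x800080008, nat_lit 0x1222, nat_lit 5, nat_lit 3, nat_lit 0x46⟩ (t14_7814)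 (.nil)))))
def t14_390 : Tr := .node ⟨nat_lit 6, nat_lit 0x1000200022, nat_lit 0x101211, nat_lit 1, nat_lit 4, nat_lit 0x47⟩ (.nil) (.nil)
def t14_8582 : Tr := .node ⟨nat_lit 7, nat_lit 0x400020002800500068, nat_lit 0x1011100, nat_lit 0, nat_lit 4, nat_lit 0x45⟩ (.nil) (.nil)
def t14_4486 : Tr := .node ⟨nat_lit 8, nat_lit 0x800020001000c0, nat_lit 0x11012001, nat_lit 2, nat_lit 4, nat_lit 0x4a⟩ (.nil) (.nil)
def t14_12678 : Tr := .node ⟨nat_lit 5, nat_lit 0x100018, nat_lit 0x10130, nat_lit 6, nat_lit 4, nat_lit 0x48⟩ (.nil) (.nil)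
def t14_2438 : Tr := .node ⟨nat_lit 7, nat_lit 0x10002000500060, nat_lit 0x100220, nat_lit 1, nat_lit 4, nat_lit 0x47⟩ (.nil) (.nil)
def t14_10630 : Tr := .node ⟨nat_lit 6, nat_lit 0x200032, nat_lit 0x10, nat_lit 0, nat_lit 4, nat_lit 0x45⟩ (.nil) (.nil)
def t14_6534 : Tr := .node ⟨nat_lit 7, nat_lit 0x800500060, nat_lit 0x111111, nat_lit 1, nat_lit 4, nat_lit 0x48⟩ (.nil) (.nil)
def t14_14726 : Tr := .node ⟨nat_lit 5, nat_lit 0x1000100008, nat_lit 0x1112, nat_lit 5, nat_lit 4, nat_lit 0x47⟩ (.nil) (.nil)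
def t14_1414 : Tr := .node ⟨nat_lit 7, nat_lit 0x400040002000200070, nat_lit 0x21310, nat_lit 0, nat_lit 4, nat_lit 0x47⟩ (.nil) (.nil)
def t14_9606 : Tr := .node ⟨nat_lit 6, nat_lit 0x10002000200030, nat_lit 0x113000, nat_lit 0, nat_lit 3, nat_lit 0x46⟩ (.nil) (.nil)
def t14_5510 : Tr := .node ⟨nat_lit 8, nat_lit 0x800020002000c0, nat_lit 0x13101, nat_lit 1, nat_lit 4, nat_lit 0x49⟩ (.nil) (.nil)
def t14_13702 : Tr := .node ⟨nat_lit 7, nat_lit 0x4000400064, nat_lit 0x21000, nat_lit 0, nat_lit 4, nat_lit 0x48⟩ (.nil) (.nil)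
def t14_3462 : Tr := .node ⟨nat_lit 6, nat_lit 0x20001000100030, nat_lit 0x311, nat_lit 3, nat_lit 4, nat_lit 0x47⟩ (.nil) (.nil)
def t14_11654 : Tr := .node ⟨nat_lit 6, nat_lit 0x2000300030, nat_lit 0x1310, nat_lit 6, nat_lit 4, nat_lit 0x48⟩ (.nil) (.nil)
def t14_7558 : Tr := .node ⟨nat_lit 7, nat_lit 0x40005000680070, nat_lit 0x2023, nat_lit 1, nat_lit 4, nat_lit 0x45⟩ (.nil) (.nil)
def t14_902 : Tr := .node ⟨nat_lit 8, nat_lit 0x800080002000c0, nat_lit 0x112210, nat_lit 2, nat_lit 4, nat_lit 0x4a⟩ (.nil) (.nil)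
def t14_9094 : Tr := .node ⟨nat_lit 0xb, nat_lit 0x100040004000200041004200600, nat_lit 0x10110011, nat_lit 0, nat_lit 4, nat_lit 0x4a⟩ (.nil) (.nil)
def t14_4998 : Tr := .node ⟨nat_lit 7, nat_lit 0x10005000600060, nat_lit 0x111031, nat_lit 1, nat_lit 4, nat_lit 0x47⟩ (.nil) (.nil)
def t14_13190 : Tr := .node ⟨nat_lit 7, nat_lit 0x5000600028, nat_lit 0x1000103, nat_lit 0, nat_lit 4, nat_lit 0x46⟩ (.nil) (.nil)
def t14_2950 : Tr := .node ⟨nat_lit 6, nat_lit 0x20002000200010, nat_lit 0x12110, nat_lit 8, nat_lit 4, nat_lit 0x49⟩ (.nil) (.nil)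
def t14_11142 : Tr := .node ⟨nat_lit 8, nat_lit 0x10002000c000e0, nat_lit 0x10000003, nat_lit 1, nat_lit 4, nat_lit 0x47⟩ (.nil) (.nil)
def t14_7046 : Tr := .node ⟨nat_lit 8, nat_lit 0x80004000a000c0, nat_lit 0x10012011, nat_lit 1, nat_lit 4, nat_lit 0x49⟩ (.nil) (.nil)
def t14_15238 : Tr := .node ⟨nat_lit 7, nat_lit 0x20005000300068, nat_lit 0x1111120, nat_lit 0, nat_lit 4, nat_lit 0x47⟩ (.nil) (.nil)
def t14_1926 : Tr := .node ⟨nat_lit 7, nat_lit 0x40003000580068, nat_lit 0x2000111, nat_lit 0, nat_lit 4, nat_lit 0x45⟩ (.nil) (.nil)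
def t14_10118 : Tr := .node ⟨nat_lit 7, nat_lit 0x5000600060, nat_lit 0x2200, nat_lit 0, nat_lit 4, nat_lit 0x46⟩ (.nil) (.nil)
def t14_6022 : Tr := .node ⟨nat_lit 5, nat_lit 0x18, nat_lit 0x11220, nat_lit 3, nat_lit 4, nat_lit 0x49⟩ (.nil) (.nil)
def t14_14214 : Tr := .node ⟨nat_lit 9, nat_lit 0x20001001400180, nat_lit 0x1000020, nat_lit 1, nat_lit 4, nat_lit 0x49⟩ (.nil) (.nil)
def t14_3974 : Tr := .node ⟨nat_lit 6, nat_lit 0x10002000340038, nat_lit 0x112210, nat_lit 4, nat_lit 4, nat_lit 0x47⟩ (.nil) (.nil)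
def t14_12166 : Tr := .node ⟨nat_lit 6, nat_lit 0x2000080030, nat_lit 0x10220, nat_lit 3, nat_lit 4, nat_lit 0x47⟩ (.nil) (.nil)
def t14_8070 : Tr := .node ⟨nat_lit 7, nat_lit 0x10004000440060, nat_lit 0x100131, nat_lit 2, nat_lit 4, nat_lit 0x47⟩ (.nil) (.nil)
def t9_390 : Tr := .node ⟨nat_lit 6, nat_lit 0x2000080010, nat_lit 0x23021, nat_lit 1, nat_lit 4, nat_lit 0x4a⟩ (.node ⟨nat_lit 6, nat_lit 0x200030, nat_lit 0x113210, nat_lit 1, nat_lit 4, nat_lit 0x4a⟩ (.node ⟨nat_lit 6, nat_lit 0x2000080030, nat_lit 0x22022, nat_lit 0, nat_lit 4, nat_lit 0x48⟩ (.node ⟨nat_lit 5, nat_lit 0x1000100008, nat_lit 0x11312, nat_lit 3, nat_lit 4, nat_lit 0x48⟩ (.node ⟨nat_lit 7, nat_lit 0x10004000500064, nat_lit 0x200211, nat_lit 1, nat_lit 4, nat_lit 0x47⟩ (t14_390) (t14_8582)) (.node ⟨nat_lit 8, nat_lit 0x800020008800c0, nat_lit 0x11112110, nat_lit 0, nat_lit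 4, nat_lit 0x4a⟩ (t14_4486) (t14_12678))) (.node ⟨nat_lit 4, nat_lit 0x40008, nat_lit 0x2211, nat_lit 6, nat_lit 4, nat_lit 0x48⟩ (.node ⟨nat_lit 6, nat_lit 0x2000100030, nat_lit 0x111214, nat_lit 1, nat_lit 4, nat_lit 0x49⟩ (t14_2438) (t14_10630)) (.node ⟨nat_lit 5, nat_lit 0x10, nat_lit 0x3001, nat_lit 0, nat_lit 4, nat_lit 0x47⟩ (t14_6534) (t14_14726)))) (.node ⟨nat_lit 6, nat_lit 0x300028, nat_lit 0x2102, nat_lit 1, nat_lit 4, nat_lit 0x47⟩ (.node ⟨nat_lit 4, nat_lit 0x80008, nat_lit 0x1231, nat_lit 5, nat_lit 4, nat_lit 0x48⟩ (.node ⟨nat_lit 6, nat_lit 0x20001000100028, nat_lit 0x101000, nat_lit 3, nat_lit 4, nat_lit 0x46⟩ (t14_1414) (t14_9606)) (.node ⟨nat_lit 7, nat_lit 0x200020004000400040, nat_lit 0x121221, nat_lit 0, nat_lit 4, nat_lit 0x49⟩ (t14_5510) (t14_13702))) (.node ⟨nat_lit 5, nat_lit 0x1000100010, nat_lit 0x2300, nat_lit 5, nat_lit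 4, nat_lit 0x48⟩ (.node ⟨nat_lit 6, nat_lit 0x300030, nat_lit 0x2200, nat_lit 0, nat_lit 4, nat_lit 0x47⟩ (t14_3462) (t14_11654)) (.node ⟨nat_lit 7, nat_lit 0x10002000400062, nat_lit 0x1100122, nat_lit 2, nat_lit 4, nat_lit 0x48⟩ (t14_7558) (.nil))))) (.node ⟨nat_lit 5, nat_lit 0x100010, nat_lit 0x3211, nat_lit 1, nat_lit 3, nat_lit 0x47⟩ (.node ⟨nat_lit 6, nat_lit 0x200030, nat_lit 0x2220, nat_lit 0, nat_lit 4, nat_lit 0x48⟩ (.node ⟨nat_lit 5, nat_lit 0x100018, nat_lit 0x11102, nat_lit 2, nat_lit 3, nat_lit 0x46⟩ (.node ⟨nat_lit 6, nat_lit 0x2000240018, nat_lit 0x311212, nat_lit 0, nat_lit 4, nat_lit 0x49⟩ (t14_902) (t14_9094)) (.node ⟨nat_lit 5, nat_lit 0, nat_lit 0x32211, nat_lit 4, nat_lit 4, nat_lit 0x4c⟩ (t14_4998) (t14_13190))) (.node ⟨nat_lit 7, nat_lit 0x20006000500068, nat_lit 0x111200, nat_lit 0, nat_lit 4, nat_lit 0x46⟩ (.node ⟨nat_lit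 7, nat_lit 0x100060, nat_lit 0x1111112, nat_lit 0, nat_lit 4, nat_lit 0x4a⟩ (t14_2950) (t14_11142)) (.node ⟨nat_lit 6, nat_lit 0x2000280030, nat_lit 0x111122, nat_lit 4, nat_lit 4, nat_lit 0x48⟩ (t14_7046) (t14_15238)))) (.node ⟨nat_lit 6, nat_lit 0x20001000100028, nat_lit 0x13211, nat_lit 0, nat_lit 4, nat_lit 0x47⟩ (.node ⟨nat_lit 6, nat_lit 0x2000080030, nat_lit 0x32211, nat_lit 1, nat_lit 4, nat_lit 0x49⟩ (.node ⟨nat_lit 7, nat_lit 0x20005000680070, nat_lit 0x112113, nat_lit 0, nat_lit 4, nat_lit 0x46⟩ (t14_1926) (t14_10118)) (.node ⟨nat_lit 7, nat_lit 0x10001000600060, nat_lit 0x1012120, nat_lit 0, nat_lit 4, nat_lit 0x48⟩ (t14_6022) (t14_14214))) (.node ⟨nat_lit 7, nat_lit 0x400040002000200020, nat_lit 0x10211, nat_lit 2, nat_lit 4, nat_lit 0x48⟩ (.node ⟨nat_lit 7, nat_lit 0x800600050, nat_lit 0x1100010, nat_lit 0, nat_lit 4, nat_lit 0x47⟩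 (t14_3974) (t14_12166)) (.node ⟨nat_lit 9, nat_lit 0x800080010001000100011000c0, nat_lit 0x11111010, nat_lit 1, nat_lit 4, nat_lit 0x49⟩ (t14_8070) (.nil)))))
def t14_70 : Tr := .node ⟨nat_lit 7, nat_lit 0x4000100060, nat_lit 0x1112111, nat_lit 2, nat_lit 4, nat_lit 0x4a⟩ (.nil) (.nil)
def t14_8262 : Tr := .node ⟨nat_lit 8, nat_lit 0x800020004000a000d0, nat_lit 0x21003, nat_lit 2, nat_lit 4, nat_lit 0x47⟩ (.nil) (.nil)
def t14_4166 : Tr := .node ⟨nat_lit 8, nat_lit 0x200080003000a000c0, nat_lit 0x1112011, nat_lit 0, nat_lit 4, nat_lit 0x48⟩ (.nil) (.nil)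
def t14_12358 : Tr := .node ⟨nat_lit 7, nat_lit 0x40002000600060, nat_lit 0x11130, nat_lit 4, nat_lit 4, nat_lit 0x48⟩ (.nil) (.nil)
def t14_2118 : Tr := .node ⟨nat_lit 5, nat_lit 0x100018, nat_lit 0x220, nat_lit 5, nat_lit 4, nat_lit 0x47⟩ (.nil) (.nil)
def t14_10310 : Tr := .node ⟨nat_lit 6, nat_lit 0xc0030, nat_lit 0x200020, nat_lit 0, nat_lit 4, nat_lit 0x46⟩ (.nil) (.nil)
def t14_6214 : Tr := .node ⟨nat_lit 5, nat_lit 0x100010, nat_lit 0x1110, nat_lit 7, nat_lit 4, nat_lit 0x48⟩ (.nil) (.nil)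
def t14_14406 : Tr := .node ⟨nat_lit 7, nat_lit 0x40002000600050, nat_lit 0x2110, nat_lit 3, nat_lit 4, nat_lit 0x47⟩ (.nil) (.nil)
def t14_1094 : Tr := .node ⟨nat_lit 7, nat_lit 0x4000400060, nat_lit 0x11221, nat_lit 0, nat_lit 4, nat_lit 0x49⟩ (.nil) (.nil)
def t14_9286 : Tr := .node ⟨nat_lit 8, nat_lit 0x800040004000a000c000d0, nat_lit 0x120121, nat_lit 3, nat_lit 4, nat_lit 0x47⟩ (.nil) (.nil)
def t14_5190 : Tr := .node ⟨nat_lit 7, nat_lit 0x4000400060, nat_lit 0x111310, nat_lit 2, nat_lit 4, nat_lit 0x4a⟩ (.nil) (.nil)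
def t14_13382 : Tr := .node ⟨nat_lit 8, nat_lit 0x800040009000a000d0, nat_lit 0x122000, nat_lit 0, nat_lit 4, nat_lit 0x47⟩ (.nil) (.nil)
def t14_3142 : Tr := .node ⟨nat_lit 6, nat_lit 0x20001000100028, nat_lit 0x110101, nat_lit 1, nat_lit 4, nat_lit 0x46⟩ (.nil) (.nil)
def t14_11334 : Tr := .node ⟨nat_lit 7, nat_lit 0x4800300070, nat_lit 0x1110102, nat_lit 0, nat_lit 4, nat_lit 0x47⟩ (.nil) (.nil)
def t14_7238 : Tr := .node ⟨nat_lit 7, nat_lit 0x10002000500060, nat_lit 0x113101, nat_lit 1, nat_lit 4, nat_lit 0x48⟩ (.nil) (.nil)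
def t14_15430 : Tr := .node ⟨nat_lit 0xb, nat_lit 0x40004000100010002000420, nat_lit 0x1011001010, nat_lit 0, nat_lit 4, nat_lit 0x4c⟩ (.nil) (.nil)
def t14_582 : Tr := .node ⟨nat_lit 6, nat_lit 0x2000240018, nat_lit 0x200102, nat_lit 0, nat_lit 4, nat_lit 0x46⟩ (.nil) (.nil)
def t14_8774 : Tr := .node ⟨nat_lit 9, nat_lit 0x8001000100004001100110, nat_lit 0x1010031, nat_lit 1, nat_lit 4, nat_lit 0x49⟩ (.nil) (.nil)
def t14_4678 : Tr := .node ⟨nat_lit 8, nat_lit 0x800040004000a000c8, nat_lit 0x120020, nat_lit 0, nat_lit 4, nat_lit 0x47⟩ (.nil) (.nil)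
def t14_12870 : Tr := .node ⟨nat_lit 6, nat_lit 0x10001000200030, nat_lit 0x102000, nat_lit 0, nat_lit 3, nat_lit 0x45⟩ (.nil) (.nil)
def t14_2630 : Tr := .node ⟨nat_lit 7, nat_lit 0x10006000500050, nat_lit 0x3210, nat_lit 1, nat_lit 4, nat_lit 0x47⟩ (.nil) (.nil)
def t14_10822 : Tr := .node ⟨nat_lit 8, nat_lit 0x800040009000c000d0, nat_lit 0x10110022, nat_lit 1, nat_lit 4, nat_lit 0x48⟩ (.nil) (.nil)
def t14_6726 : Tr := .node ⟨nat_lit 7, nat_lit 0x20004000600064, nat_lit 0x1011110, nat_lit 1, nat_lit 4, nat_lit 0x47⟩ (.nil) (.nil)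
def t14_14918 : Tr := .node ⟨nat_lit 7, nat_lit 0x40004800680058, nat_lit 0x1001211, nat_lit 4, nat_lit 4, nat_lit 0x47⟩ (.nil) (.nil)
def t14_1606 : Tr := .node ⟨nat_lit 7, nat_lit 0x40005000300060, nat_lit 0x100221, nat_lit 1, nat_lit 4, nat_lit 0x46⟩ (.nil) (.nil)
def t14_9798 : Tr := .node ⟨nat_lit 8, nat_lit 0x80004000a000b000d0, nat_lit 0x10021, nat_lit 0, nat_lit 4, nat_lit 0x45⟩ (.nil) (.nil)
def t14_5702 : Tr := .node ⟨nat_lit 8, nat_lit 0x80008800a000c0, nat_lit 0x1112120, nat_lit 0, nat_lit 4, nat_lit 0x49⟩ (.nil) (.nil)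
def t14_13894 : Tr := .node ⟨nat_lit 7, nat_lit 0x40001000200048, nat_lit 0x11120, nat_lit 0, nat_lit 4, nat_lit 0x47⟩ (.nil) (.nil)
def t14_3654 : Tr := .node ⟨nat_lit 7, nat_lit 0x20004000600064, nat_lit 0x1120012, nat_lit 2, nat_lit 4, nat_lit 0x48⟩ (.nil) (.nil)
def t14_11846 : Tr := .node ⟨nat_lit 6, nat_lit 0x2000080030, nat_lit 0x31, nat_lit 5, nat_lit 4, nat_lit 0x47⟩ (.nil) (.nil)
def t14_7750 : Tr := .node ⟨nat_lit 8, nat_lit 0x80004000200010, nat_lit 2, nat_lit 1, nat_lit 4, nat_lit 0x48⟩ (.nil) (.nil)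
def t9_70 : Tr := .node ⟨nat_lit 2, nat_lit 0, nat_lit 0x11, nat_lit 0xb, nat_lit 3, nat_lit 0x45⟩ (.node ⟨nat_lit 6, nat_lit 0x200020, nat_lit 0x131120, nat_lit 0, nat_lit 3, nat_lit 0x49⟩ (.node ⟨nat_lit 5, nat_lit 0x180018, nat_lit 0x330, nat_lit 4, nat_lit 4, nat_lit 0x46⟩ (.node ⟨nat_lit 6, nat_lit 0x80030, nat_lit 0x1201, nat_lit 1, nat_lit 4, nat_lit 0x47⟩ (.node ⟨nat_lit 7, nat_lit 0x4000400070, nat_lit 0x202103, nat_lit 1, nat_lit 4, nat_lit 0x49⟩ (t14_70) (t14_8262)) (.node ⟨nat_lit 7, nat_lit 0x1000600050, nat_lit 0x1011004, nat_lit 0, nat_lit 4, nat_lit 0x49⟩ (t14_4166) (t14_12358))) (.node ⟨nat_lit 4, nat_lit 0x8000c, nat_lit 0x2122, nat_lit 8, nat_lit 4, nat_lit 0x48⟩ (.node ⟨nat_lit 6, nat_lit 0x1000200030, nat_lit 0x112301, nat_lit 0, nat_lit 3, nat_lit 0x47⟩ (t14_2118) (t14_10310)) (.node ⟨nat_lit 8, nat_lit 0x800080008000400090,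 nat_lit 0x1202100, nat_lit 2, nat_lit 4, nat_lit 0x4a⟩ (t14_6214) (t14_14406)))) (.node ⟨nat_lit 4, nat_lit 8, nat_lit 0x223, nat_lit 6, nat_lit 4, nat_lit 0x48⟩ (.node ⟨nat_lit 7, nat_lit 0x2000400060, nat_lit 0x221111, nat_lit 0, nat_lit 4, nat_lit 0x4a⟩ (.node ⟨nat_lit 6, nat_lit 0x10001000200022, nat_lit 0x102030, nat_lit 0, nat_lit 4, nat_lit 0x47⟩ (t14_1094) (t14_9286)) (.node ⟨nat_lit 6, nat_lit 0x10001000200020, nat_lit 0x102041, nat_lit 1, nat_lit 3, nat_lit 0x47⟩ (t14_5190) (t14_13382))) (.node ⟨nat_lit 6, nat_lit 0x800100020, nat_lit 0x211001, nat_lit 0, nat_lit 4, nat_lit 0x48⟩ (.node ⟨nat_lit 6, nat_lit 0x2000080030, nat_lit 0x12110, nat_lit 0, nat_lit 4, nat_lit 0x47⟩ (t14_3142) (t14_11334)) (.node ⟨nat_lit 7, nat_lit 0x400020002000500050, nat_lit 0x1011021, nat_lit 1, nat_lit 4, nat_lit 0x47⟩ (t14_7238) (t14_15430))))) (.node ⟨nat_lit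 7, nat_lit 0x4000200010, nat_lit 0x31003, nat_lit 1, nat_lit 4, nat_lit 0x4b⟩ (.node ⟨nat_lit 2, nat_lit 2, nat_lit 0x22, nat_lit 0xb, nat_lit 4, nat_lit 0x46⟩ (.node ⟨nat_lit 7, nat_lit 0x10004000400060, nat_lit 0x200102, nat_lit 1, nat_lit 4, nat_lit 0x48⟩ (.node ⟨nat_lit 3, nat_lit 0, nat_lit 0x322, nat_lit 0xd, nat_lit 4, nat_lit 0x4a⟩ (t14_582) (t14_8774)) (.node ⟨nat_lit 7, nat_lit 0x20004000640070, nat_lit 0x1110122, nat_lit 1, nat_lit 4, nat_lit 0x47⟩ (t14_4678) (t14_12870))) (.node ⟨nat_lit 6, nat_lit 0x80030, nat_lit 0x100011, nat_lit 0, nat_lit 4, nat_lit 0x46⟩ (.node ⟨nat_lit 5, nat_lit 0x1000140018, nat_lit 0x12103, nat_lit 7, nat_lit 4, nat_lit 0x48⟩ (t14_2630) (t14_10822)) (.node ⟨nat_lit 5, nat_lit 0x10001000180014, nat_lit 0x12110, nat_lit 0xb, nat_lit 4, nat_lit 0x48⟩ (t14_6726) (t14_14918)))) (.node ⟨nat_lit 7, nat_lit 0x40002000200048,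 nat_lit 0x2011200, nat_lit 2, nat_lit 4, nat_lit 0x49⟩ (.node ⟨nat_lit 6, nat_lit 0x800300038, nat_lit 0x202031, nat_lit 0, nat_lit 4, nat_lit 0x47⟩ (.node ⟨nat_lit 6, nat_lit 0x30000c, nat_lit 0x101001, nat_lit 1, nat_lit 4, nat_lit 0x46⟩ (t14_1606) (t14_9798)) (.node ⟨nat_lit 7, nat_lit 0x20002000100040, nat_lit 0x1112101, nat_lit 4, nat_lit 4, nat_lit 0x4a⟩ (t14_5702) (t14_13894))) (.node ⟨nat_lit 4, nat_lit 0x8000e, nat_lit 0x2202, nat_lit 8, nat_lit 4, nat_lit 0x47⟩ (.node ⟨nat_lit 6, nat_lit 0x300038, nat_lit 0x1103, nat_lit 2, nat_lit 4, nat_lit 0x46⟩ (t14_3654) (t14_11846)) (.node ⟨nat_lit 6, nat_lit 0x800100020, nat_lit 0x111021, nat_lit 4, nat_lit 4, nat_lit 0x49⟩ (t14_7750) (.nil)))))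
def t14_326 : Tr := .node ⟨nat_lit 8, nat_lit 0x40008000c0, nat_lit 0x10211111, nat_lit 0, nat_lit 4, nat_lit 0x4b⟩ (.nil) (.nil)
def t14_8518 : Tr := .node ⟨nat_lit 5, nat_lit 0x1000100014, nat_lit 0x2213, nat_lit 6, nat_lit 4, nat_lit 0x48⟩ (.nil) (.nil)
def t14_4422 : Tr := .node ⟨nat_lit 8, nat_lit 0x800020008800c0, nat_lit 0x11121001, nat_lit 1, nat_lit 4, nat_lit 0x4a⟩ (.nil) (.nil)
def t14_12614 : Tr := .node ⟨nat_lit 7, nat_lit 0x6000500018, nat_lit 0x1000040, nat_lit 1, nat_lit 4, nat_lit 0x47⟩ (.nil) (.nil)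
def t14_2374 : Tr := .node ⟨nat_lit 7, nat_lit 0x4000600060, nat_lit 0x21210, nat_lit 3, nat_lit 4, nat_lit 0x49⟩ (.nil) (.nil)
def t14_10566 : Tr := .node ⟨nat_lit 8, nat_lit 0x200080008400c0, nat_lit 0x10020, nat_lit 0, nat_lit 4, nat_lit 0x47⟩ (.nil) (.nil)
def t14_6470 : Tr := .node ⟨nat_lit 7, nat_lit 0x5000600028, nat_lit 0x111110, nat_lit 1, nat_lit 4, nat_lit 0x47⟩ (.nil) (.nil)
def t14_14662 : Tr := .node ⟨nat_lit 8, nat_lit 0x40008000800060009000d0, nat_lit 0x1011011, nat_lit 2, nat_lit 4, nat_lit 0x47⟩ (.nil) (.nil)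
def t14_1350 : Tr := .node ⟨nat_lit 7, nat_lit 0x200040004000600060, nat_lit 0x31110, nat_lit 0, nat_lit 3, nat_lit 0x45⟩ (.nil) (.nil)
def t14_9542 : Tr := .node ⟨nat_lit 0xa, nat_lit 0x100020002000200021002200220, nat_lit 0x10110110, nat_lit 1, nat_lit 4, nat_lit 0x4a⟩ (.nil) (.nil)
def t14_5446 : Tr := .node ⟨nat_lit 5, nat_lit 0x100012, nat_lit 0x2130, nat_lit 3, nat_lit 4, nat_lit 0x48⟩ (.nil) (.nil)
def t14_13638 : Tr := .node ⟨nat_lit 7, nat_lit 0x20004000500064, nat_lit 0x11020, nat_lit 1, nat_lit 4, nat_lit 0x46⟩ (.nil) (.nil)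
def t14_3398 : Tr := .node ⟨nat_lit 6, nat_lit 0x280030, nat_lit 0x21010, nat_lit 0, nat_lit 4, nat_lit 0x47⟩ (.nil) (.nil)
def t14_11590 : Tr := .node ⟨nat_lit 8, nat_lit 0x1000c000c000e0, nat_lit 0x100103, nat_lit 1, nat_lit 4, nat_lit 0x47⟩ (.nil) (.nil)
def t14_7494 : Tr := .node ⟨nat_lit 8, nat_lit 0x800020009000a000c0, nat_lit 0x11011111, nat_lit 1, nat_lit 4, nat_lit 0x48⟩ (.nil) (.nil)
def t14_838 : Tr := .node ⟨nat_lit 7, nat_lit 0x40002000500060, nat_lit 0x113101, nat_lit 0, nat_lit 3, nat_lit 0x46⟩ (.nil) (.nil)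
def t14_9030 : Tr := .node ⟨nat_lit 9, nat_lit 0x10001000080011001200180, nat_lit 0x1120101, nat_lit 0, nat_lit 4, nat_lit 0x49⟩ (.nil) (.nil)
def t14_4934 : Tr := .node ⟨nat_lit 6, nat_lit 0x800300030, nat_lit 0x100131, nat_lit 1, nat_lit 4, nat_lit 0x46⟩ (.nil) (.nil)
def t14_13126 : Tr := .node ⟨nat_lit 6, nat_lit 0x2000100030, nat_lit 0x201130, nat_lit 1, nat_lit 3, nat_lit 0x47⟩ (.nil) (.nil)
def t14_2886 : Tr := .node ⟨nat_lit 7, nat_lit 0x40001000600060, nat_lit 0x121120, nat_lit 0, nat_lit 4, nat_lit 0x48⟩ (.nil) (.nil)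
def t14_11078 : Tr := .node ⟨nat_lit 0, nat_lit 0, nat_lit 0, nat_lit 0x11, nat_lit 4, nat_lit 0x43⟩ (.nil) (.nil)
def t14_6982 : Tr := .node ⟨nat_lit 7, nat_lit 0x1000400060, nat_lit 0x1201011, nat_lit 3, nat_lit 4, nat_lit 0x4a⟩ (.nil) (.nil)
def t14_15174 : Tr := .node ⟨nat_lit 8, nat_lit 0x400080008000c000c8, nat_lit 0x101021, nat_lit 3, nat_lit 4, nat_lit 0x48⟩ (.nil) (.nil)
def t14_1862 : Tr := .node ⟨nat_lit 7, nat_lit 0x20006000600050, nat_lit 0x21112, nat_lit 2, nat_lit 4, nat_lit 0x47⟩ (.nil) (.nil)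
def t14_10054 : Tr := .node ⟨nat_lit 8, nat_lit 0x40008000c000c800c8, nat_lit 0x10110220, nat_lit 0, nat_lit 4, nat_lit 0x47⟩ (.nil) (.nil)
def t14_5958 : Tr := .node ⟨nat_lit 8, nat_lit 0x80008800a000c0, nat_lit 0x1112111, nat_lit 0, nat_lit 4, nat_lit 0x49⟩ (.nil) (.nil)
def t14_14150 : Tr := .node ⟨nat_lit 8, nat_lit 0x800020002000c0, nat_lit 0x1021002, nat_lit 0, nat_lit 4, nat_lit 0x49⟩ (.nil) (.nil)
def t14_3910 : Tr := .node ⟨nat_lit 7, nat_lit 0x400020002000640068, nat_lit 0x111101, nat_lit 1, nat_lit 4, nat_lit 0x46⟩ (.nil) (.nil)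
def t14_12102 : Tr := .node ⟨nat_lit 8, nat_lit 0x1000c000c000a0, nat_lit 0x111210, nat_lit 1, nat_lit 4, nat_lit 0x48⟩ (.nil) (.nil)
def t14_8006 : Tr := .node ⟨nat_lit 3, nat_lit 0x40006, nat_lit 0x14, nat_lit 9, nat_lit 4, nat_lit 0x45⟩ (.nil) (.nil)
def t9_326 : Tr := .node ⟨nat_lit 5, nat_lit 0x10, nat_lit 0x13111, nat_lit 2, nat_lit 4, nat_lit 0x49⟩ (.node ⟨nat_lit 6, nat_lit 0x2000100010, nat_lit 0x3120, nat_lit 0, nat_lit 4, nat_lit 0x48⟩ (.node ⟨nat_lit 4, nat_lit 8, nat_lit 0x2213, nat_lit 5, nat_lit 4, nat_lit 0x49⟩ (.node ⟨nat_lit 6, nat_lit 0x800280030, nat_lit 0x110202, nat_lit 0, nat_lit 3, nat_lit 0x45⟩ (.node ⟨nat_lit 6, nat_lit 0x2000100024, nat_lit 0x121222, nat_lit 0, nat_lit 4, nat_lit 0x49⟩ (t14_326) (t14_8518)) (.node ⟨nat_lit 6, nat_lit 0x800300038, nat_lit 0x211013, nat_lit 1, nat_lit 4, nat_lit 0x47⟩ (t14_4422) (t14_12614)))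 (.node ⟨nat_lit 2, nat_lit 2, nat_lit 1, nat_lit 6, nat_lit 3, nat_lit 0x42⟩ (.node ⟨nat_lit 8, nat_lit 0x800080002000c000d0, nat_lit 0x1020032, nat_lit 0, nat_lit 4, nat_lit 0x48⟩ (t14_2374) (t14_10566)) (.node ⟨nat_lit 7, nat_lit 0x200040003000480070, nat_lit 0x213010, nat_lit 0, nat_lit 4, nat_lit 0x47⟩ (t14_6470) (t14_14662)))) (.node ⟨nat_lit 7, nat_lit 0x1000080060, nat_lit 0x1002021, nat_lit 1, nat_lit 4, nat_lit 0x49⟩ (.node ⟨nat_lit 6, nat_lit 0x30, nat_lit 0x202211, nat_lit 3, nat_lit 4, nat_lit 0x4b⟩ (.node ⟨nat_lit 5, nat_lit 0x1000080008, nat_lit 0x10040, nat_lit 3, nat_lit 3, nat_lit 0x46⟩ (t14_1350) (t14_9542)) (.node ⟨nat_lit 7, nat_lit 0x40004000100060, nat_lit 0x210011, nat_lit 1, nat_lit 4, nat_lit 0x48⟩ (t14_5446) (t14_13638))) (.node ⟨nat_lit 7, nat_lit 0x4000200010, nat_lit 0x12010, nat_lit 2, nat_lit 4, nat_lit 0x49⟩ (.node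 ⟨nat_lit 7, nat_lit 0x40002000480070, nat_lit 0x121003, nat_lit 0, nat_lit 4, nat_lit 0x47⟩ (t14_3398) (t14_11590)) (.node ⟨nat_lit 7, nat_lit 0x40004000100060, nat_lit 0x11110, nat_lit 3, nat_lit 4, nat_lit 0x48⟩ (t14_7494) (.nil))))) (.node ⟨nat_lit 3, nat_lit 4, nat_lit 0x32, nat_lit 7, nat_lit 4, nat_lit 0x46⟩ (.node ⟨nat_lit 3, nat_lit 4, nat_lit 0x221, nat_lit 0xb, nat_lit 4, nat_lit 0x48⟩ (.node ⟨nat_lit 5, nat_lit 0x40018, nat_lit 0x11111, nat_lit 5, nat_lit 4, nat_lit 0x47⟩ (.node ⟨nat_lit 7, nat_lit 0x40004000400020, nat_lit 0x212100, nat_lit 3, nat_lit 4, nat_lit 0x4a⟩ (t14_838) (t14_9030)) (.node ⟨nat_lit 7, nat_lit 0x1000600060, nat_lit 0x1021220, nat_lit 1, nat_lit 4, nat_lit 0x49⟩ (t14_4934) (t14_13126))) (.node ⟨nat_lit 6, nat_lit 0x800280030, nat_lit 0x101112, nat_lit 0, nat_lit 4, nat_lit 0x46⟩ (.node ⟨nat_lit 7, nat_lit 0x40001000680068,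 nat_lit 0x1012111, nat_lit 1, nat_lit 4, nat_lit 0x47⟩ (t14_2886) (t14_11078)) (.node ⟨nat_lit 4, nat_lit 0x8000c, nat_lit 0x1122, nat_lit 0xc, nat_lit 4, nat_lit 0x48⟩ (t14_6982) (t14_15174)))) (.node ⟨nat_lit 5, nat_lit 0x18, nat_lit 0x31210, nat_lit 0, nat_lit 4, nat_lit 0x49⟩ (.node ⟨nat_lit 7, nat_lit 0x20004000100060, nat_lit 0x212101, nat_lit 1, nat_lit 4, nat_lit 0x49⟩ (.node ⟨nat_lit 6, nat_lit 0x2000200030, nat_lit 0x11103, nat_lit 4, nat_lit 4, nat_lit 0x48⟩ (t14_1862) (t14_10054)) (.node ⟨nat_lit 7, nat_lit 0x20002000400040, nat_lit 0x121020, nat_lit 0, nat_lit 4, nat_lit 0x49⟩ (t14_5958) (t14_14150))) (.node ⟨nat_lit 6, nat_lit 0x10001000200030, nat_lit 0x102101, nat_lit 0, nat_lit 3, nat_lit 0x45⟩ (.node ⟨nat_lit 6, nat_lit 0x300028, nat_lit 0x1104, nat_lit 1, nat_lit 4, nat_lit 0x47⟩ (t14_3910) (t14_12102)) (.node ⟨nat_lit 8, nat_lit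 0x80006000d000d000b0, nat_lit 0x20102101, nat_lit 0, nat_lit 4, nat_lit 0x46⟩ (t14_8006) (.nil)))))
def t14_198 : Tr := .node ⟨nat_lit 7, nat_lit 0x2000500060, nat_lit 0x1022211, nat_lit 0, nat_lit 4, nat_lit 0x49⟩ (.nil) (.nil)
def t14_8390 : Tr := .node ⟨nat_lit 5, nat_lit 0x100018, nat_lit 0x1103, nat_lit 6, nat_lit 3, nat_lit 0x46⟩ (.nil) (.nil)
def t14_4294 : Tr := .node ⟨nat_lit 9, nat_lit 0x1000100008001100110, nat_lit 0x12101110, nat_lit 0, nat_lit 4, nat_lit 0x4a⟩ (.nil) (.nil)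
def t14_12486 : Tr := .node ⟨nat_lit 8, nat_lit 0x8000200020009000c0, nat_lit 0x30011, nat_lit 1, nat_lit 4, nat_lit 0x48⟩ (.nil) (.nil)
def t14_2246 : Tr := .node ⟨nat_lit 7, nat_lit 0x400020002000200050, nat_lit 0x2012210, nat_lit 1, nat_lit 4, nat_lit 0x49⟩ (.nil) (.nil)
def t14_10438 : Tr := .node ⟨nat_lit 8, nat_lit 0x80002000a000c0, nat_lit 0x1022002, nat_lit 0, nat_lit 4, nat_lit 0x49⟩ (.nil) (.nil)
def t14_6342 : Tr := .node ⟨nat_lit 6, nat_lit 0x800300030, nat_lit 0x1021, nat_lit 3, nat_lit 4, nat_lit 0x46⟩ (.nil) (.nil)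
def t14_14534 : Tr := .node ⟨nat_lit 7, nat_lit 0x4000440060, nat_lit 0x10211, nat_lit 1, nat_lit 4, nat_lit 0x48⟩ (.nil) (.nil)
def t14_1222 : Tr := .node ⟨nat_lit 7, nat_lit 0x40001000480060, nat_lit 0x13211, nat_lit 1, nat_lit 4, nat_lit 0x48⟩ (.nil) (.nil)
def t14_9414 : Tr := .node ⟨nat_lit 8, nat_lit 0x80004000a0006000c0, nat_lit 0x101022, nat_lit 0, nat_lit 4, nat_lit 0x47⟩ (.nil) (.nil)
def t14_5318 : Tr := .node ⟨nat_lit 7, nat_lit 0x800500060, nat_lit 0x1111120, nat_lit 2, nat_lit 4, nat_lit 0x49⟩ (.nil) (.nil)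
def t14_13510 : Tr := .node ⟨nat_lit 6, nat_lit 0x800080030, nat_lit 0x100002, nat_lit 5, nat_lit 4, nat_lit 0x47⟩ (.nil) (.nil)
def t14_3270 : Tr := .node ⟨nat_lit 7, nat_lit 0x40004000100060, nat_lit 0x112101, nat_lit 0, nat_lit 4, nat_lit 0x48⟩ (.nil) (.nil)
def t14_11462 : Tr := .node ⟨nat_lit 7, nat_lit 0x4000600060, nat_lit 0x11120, nat_lit 6, nat_lit 4, nat_lit 0x49⟩ (.nil) (.nil)
def t14_7366 : Tr := .node ⟨nat_lit 7, nat_lit 0x4000180060, nat_lit 0x211011, nat_lit 0, nat_lit 4, nat_lit 0x48⟩ (.nil) (.nil)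
def t14_15558 : Tr := .node ⟨nat_lit 8, nat_lit 0x40002000100080, nat_lit 0x10000001, nat_lit 0xc, nat_lit 4, nat_lit 0x4b⟩ (.nil) (.nil)
def t14_710 : Tr := .node ⟨nat_lit 6, nat_lit 0x2000100024, nat_lit 0x12300, nat_lit 0, nat_lit 4, nat_lit 0x48⟩ (.nil) (.nil)
def t14_8902 : Tr := .node ⟨nat_lit 7, nat_lit 0x40002000480060, nat_lit 0x12120, nat_lit 4, nat_lit 4, nat_lit 0x48⟩ (.nil) (.nil)
def t14_4806 : Tr := .node ⟨nat_lit 8, nat_lit 0x4000800088005000c0, nat_lit 0x1210002, nat_lit 0, nat_lit 4, nat_lit 0x48⟩ (.nil) (.nil)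
def t14_12998 : Tr := .node ⟨nat_lit 8, nat_lit 0x2000800040008800c4, nat_lit 0x1003000, nat_lit 1, nat_lit 4, nat_lit 0x48⟩ (.nil) (.nil)
def t14_2758 : Tr := .node ⟨nat_lit 7, nat_lit 0x10002000500060, nat_lit 0x1102110, nat_lit 1, nat_lit 4, nat_lit 0x47⟩ (.nil) (.nil)
def t14_10950 : Tr := .node ⟨nat_lit 7, nat_lit 0x10004000400060, nat_lit 0x111330, nat_lit 0, nat_lit 3, nat_lit 0x47⟩ (.nil) (.nil)
def t14_6854 : Tr := .node ⟨nat_lit 7, nat_lit 0x4000440064, nat_lit 0x1111210, nat_lit 0, nat_lit 4, nat_lit 0x49⟩ (.nil) (.nil)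
def t14_15046 : Tr := .node ⟨nat_lit 7, nat_lit 0x10002000400060, nat_lit 0x1100121, nat_lit 3, nat_lit 4, nat_lit 0x49⟩ (.nil) (.nil)
def t14_1734 : Tr := .node ⟨nat_lit 9, nat_lit 0x1000080008000400180, nat_lit 0x1102011, nat_lit 1, nat_lit 4, nat_lit 0x4a⟩ (.nil) (.nil)
def t14_9926 : Tr := .node ⟨nat_lit 6, nat_lit 0x800300030, nat_lit 0x1033, nat_lit 2, nat_lit 4, nat_lit 0x46⟩ (.nil) (.nil)
def t14_5830 : Tr := .node ⟨nat_lit 7, nat_lit 0x2000400062, nat_lit 0x1011201, nat_lit 3, nat_lit 4, nat_lit 0x49⟩ (.nil) (.nil)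
def t14_14022 : Tr := .node ⟨nat_lit 7, nat_lit 0x400060, nat_lit 0x11120, nat_lit 3, nat_lit 4, nat_lit 0x4a⟩ (.nil) (.nil)
def t14_3782 : Tr := .node ⟨nat_lit 9, nat_lit 0x100010000800080014001c00190, nat_lit 0x1121001, nat_lit 0, nat_lit 4, nat_lit 0x47⟩ (.nil) (.nil)
def t14_11974 : Tr := .node ⟨nat_lit 6, nat_lit 0x1000200020, nat_lit 0x102210, nat_lit 1, nat_lit 3, nat_lit 0x47⟩ (.nil) (.nil)
def t14_7878 : Tr := .node ⟨nat_lit 7, nat_lit 0x10002000500060, nat_lit 0x2210, nat_lit 0, nat_lit 4, nat_lit 0x46⟩ (.nil) (.nil)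
def t9_198 : Tr := .node ⟨nat_lit 5, nat_lit 0x80010, nat_lit 0x12311, nat_lit 2, nat_lit 4, nat_lit 0x49⟩ (.node ⟨nat_lit 6, nat_lit 0x2000080030, nat_lit 0x113112, nat_lit 1, nat_lit 4, nat_lit 0x49⟩ (.node ⟨nat_lit 7, nat_lit 0x40002000200060, nat_lit 0x30221, nat_lit 1, nat_lit 4, nat_lit 0x49⟩ (.node ⟨nat_lit 6, nat_lit 0x40038, nat_lit 0x211103, nat_lit 0, nat_lit 4, nat_lit 0x48⟩ (.node ⟨nat_lit 5, nat_lit 0x1000100008, nat_lit 0x2212, nat_lit 5, nat_lit 4, nat_lit 0x48⟩ (t14_198) (t14_8390)) (.node ⟨nat_lit 7, nat_lit 0x10002000500060, nat_lit 0x10032, nat_lit 2, nat_lit 4, nat_lit 0x47⟩ (t14_4294) (t14_12486))) (.node ⟨nat_lit 6, nat_lit 0x200030, nat_lit 0x122123, nat_lit 0, nat_lit 4, nat_lit 0x4a⟩ (.node ⟨nat_lit 6, nat_lit 0x2000300034, nat_lit 0x11231, nat_lit 2, nat_lit 4, nat_lit 0x47⟩ (t14_2246) (t14_10438)) (.node ⟨nat_lit 8,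 nat_lit 0x200080008000c0, nat_lit 0x1020102, nat_lit 3, nat_lit 4, nat_lit 0x4a⟩ (t14_6342) (t14_14534)))) (.node ⟨nat_lit 6, nat_lit 0x200032, nat_lit 0x112111, nat_lit 0, nat_lit 4, nat_lit 0x48⟩ (.node ⟨nat_lit 7, nat_lit 0x1000100060, nat_lit 0x2111211, nat_lit 0, nat_lit 4, nat_lit 0x4a⟩ (.node ⟨nat_lit 6, nat_lit 0x800200030, nat_lit 0x100031, nat_lit 9, nat_lit 4, nat_lit 0x49⟩ (t14_1222) (t14_9414)) (.node ⟨nat_lit 7, nat_lit 0x40003000580068, nat_lit 0x2111211, nat_lit 0, nat_lit 4, nat_lit 0x47⟩ (t14_5318) (t14_13510))) (.node ⟨nat_lit 6, nat_lit 0x800300030, nat_lit 0x101330, nat_lit 0, nat_lit 4, nat_lit 0x47⟩ (.node ⟨nat_lit 6, nat_lit 0x80030, nat_lit 0x101101, nat_lit 3, nat_lit 4, nat_lit 0x48⟩ (t14_3270) (t14_11462)) (.node ⟨nat_lit 6, nat_lit 0x80030, nat_lit 0x111102, nat_lit 4, nat_lit 4, nat_lit 0x49⟩ (t14_7366) (t14_15558)))))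 (.node ⟨nat_lit 4, nat_lit 0xc, nat_lit 0x1131, nat_lit 7, nat_lit 4, nat_lit 0x48⟩ (.node ⟨nat_lit 4, nat_lit 8, nat_lit 0x1211, nat_lit 4, nat_lit 4, nat_lit 0x47⟩ (.node ⟨nat_lit 6, nat_lit 0x280030, nat_lit 0x22102, nat_lit 0, nat_lit 4, nat_lit 0x48⟩ (.node ⟨nat_lit 5, nat_lit 0x100008, nat_lit 0x22110, nat_lit 3, nat_lit 3, nat_lit 0x48⟩ (t14_710) (t14_8902)) (.node ⟨nat_lit 9, nat_lit 0x100010001000080008001200140, nat_lit 0x11102010, nat_lit 1, nat_lit 4, nat_lit 0x49⟩ (t14_4806) (t14_12998))) (.node ⟨nat_lit 6, nat_lit 0x1000100020, nat_lit 0x100001, nat_lit 0, nat_lit 4, nat_lit 0x46⟩ (.node ⟨nat_lit 8, nat_lit 0x200040008000c0, nat_lit 0x11010103, nat_lit 1, nat_lit 4, nat_lit 0x4a⟩ (t14_2758) (t14_10950)) (.node ⟨nat_lit 7, nat_lit 0x10004000500060, nat_lit 0x112021, nat_lit 0, nat_lit 3, nat_lit 0x46⟩ (t14_6854) (t14_15046)))) (.node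 ⟨nat_lit 4, nat_lit 0x8000c, nat_lit 0x1121, nat_lit 9, nat_lit 4, nat_lit 0x47⟩ (.node ⟨nat_lit 6, nat_lit 0x800300030, nat_lit 0x101121, nat_lit 3, nat_lit 4, nat_lit 0x47⟩ (.node ⟨nat_lit 7, nat_lit 0x20004000440030, nat_lit 0x1000101, nat_lit 0, nat_lit 4, nat_lit 0x46⟩ (t14_1734) (t14_9926)) (.node ⟨nat_lit 7, nat_lit 0x2000600050, nat_lit 0x1022012, nat_lit 0, nat_lit 4, nat_lit 0x49⟩ (t14_5830) (t14_14022))) (.node ⟨nat_lit 7, nat_lit 0x4000200060, nat_lit 0x121110, nat_lit 0, nat_lit 4, nat_lit 0x49⟩ (.node ⟨nat_lit 7, nat_lit 0x4000440030, nat_lit 0x1000100, nat_lit 0, nat_lit 4, nat_lit 0x47⟩ (t14_3782) (t14_11974)) (.node ⟨nat_lit 7, nat_lit 0x4000500064, nat_lit 0x1111011, nat_lit 0, nat_lit 4, nat_lit 0x48⟩ (t14_7878) (.nil)))))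
def t14_454 : Tr := .node ⟨nat_lit 7, nat_lit 0x40002000500068, nat_lit 0x1112110, nat_lit 1, nat_lit 4, nat_lit 0x48⟩ (.nil) (.nil)
def t14_8646 : Tr := .node ⟨nat_lit 8, nat_lit 0x40008000800088006000d0, nat_lit 0x100010, nat_lit 1, nat_lit 4, nat_lit 0x45⟩ (.nil) (.nil)
def t14_4550 : Tr := .node ⟨nat_lit 4, nat_lit 0x8000c, nat_lit 0x121, nat_lit 8, nat_lit 4, nat_lit 0x46⟩ (.nil) (.nil)
def t14_12742 : Tr := .node ⟨nat_lit 6, nat_lit 0x2000080030, nat_lit 0x20210, nat_lit 1, nat_lit 4, nat_lit 0x47⟩ (.nil) (.nil)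
def t14_2502 : Tr := .node ⟨nat_lit 7, nat_lit 0x20004000600068, nat_lit 0x22111, nat_lit 0, nat_lit 4, nat_lit 0x47⟩ (.nil) (.nil)
def t14_10694 : Tr := .node ⟨nat_lit 6, nat_lit 0x1000280034, nat_lit 0x1001, nat_lit 1, nat_lit 4, nat_lit 0x44⟩ (.nil) (.nil)
def t14_6598 : Tr := .node ⟨nat_lit 7, nat_lit 0x10002000500060, nat_lit 0x1003002, nat_lit 0, nat_lit 4, nat_lit 0x47⟩ (.nil) (.nil)
def t14_14790 : Tr := .node ⟨nat_lit 8, nat_lit 0x2000800080004000c0, nat_lit 0x1001122, nat_lit 1, nat_lit 4, nat_lit 0x49⟩ (.nil) (.nil)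
def t14_1478 : Tr := .node ⟨nat_lit 7, nat_lit 0x200020004000400044, nat_lit 0x111200, nat_lit 3, nat_lit 4, nat_lit 0x48⟩ (.nil) (.nil)
def t14_9670 : Tr := .node ⟨nat_lit 7, nat_lit 0x40002000600070, nat_lit 0x10022, nat_lit 2, nat_lit 4, nat_lit 0x46⟩ (.nil) (.nil)
def t14_5574 : Tr := .node ⟨nat_lit 8, nat_lit 0x400040008000840050, nat_lit 0x10120002, nat_lit 3, nat_lit 4, nat_lit 0x49⟩ (.nil) (.nil)
def t14_13766 : Tr := .node ⟨nat_lit 5, nat_lit 0x180018, nat_lit 0x20200, nat_lit 2, nat_lit 3, nat_lit 0x46⟩ (.nil) (.nil)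
def t14_3526 : Tr := .node ⟨nat_lit 7, nat_lit 0x10006000600050, nat_lit 0x11201, nat_lit 0, nat_lit 4, nat_lit 0x46⟩ (.nil) (.nil)
def t14_11718 : Tr := .node ⟨nat_lit 8, nat_lit 0x1000a000c000c0, nat_lit 0x112210, nat_lit 0, nat_lit 4, nat_lit 0x48⟩ (.nil) (.nil)
def t14_7622 : Tr := .node ⟨nat_lit 7, nat_lit 0x20005000680070, nat_lit 0x12103, nat_lit 0, nat_lit 4, nat_lit 0x45⟩ (.nil) (.nil)
def t14_966 : Tr := .node ⟨nat_lit 6, nat_lit 0x200010, nat_lit 0x2000, nat_lit 1, nat_lit 4, nat_lit 0x47⟩ (.nil) (.nil)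
def t14_9158 : Tr := .node ⟨nat_lit 8, nat_lit 0x40004000a000c000d0, nat_lit 0x12220, nat_lit 0, nat_lit 4, nat_lit 0x47⟩ (.nil) (.nil)
def t14_5062 : Tr := .node ⟨nat_lit 6, nat_lit 0x2000300038, nat_lit 0x11113, nat_lit 5, nat_lit 4, nat_lit 0x47⟩ (.nil) (.nil)
def t14_13254 : Tr := .node ⟨nat_lit 8, nat_lit 0x20008000c000c4, nat_lit 0x10301, nat_lit 0, nat_lit 4, nat_lit 0x48⟩ (.nil) (.nil)
def t14_3014 : Tr := .node ⟨nat_lit 7, nat_lit 0x40003000580068, nat_lit 0x1001310, nat_lit 0, nat_lit 4, nat_lit 0x45⟩ (.nil) (.nil)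
def t14_11206 : Tr := .node ⟨nat_lit 7, nat_lit 0x6000500050, nat_lit 0x11120, nat_lit 1, nat_lit 4, nat_lit 0x47⟩ (.nil) (.nil)
def t14_7110 : Tr := .node ⟨nat_lit 6, nat_lit 0x300030, nat_lit 0x102111, nat_lit 5, nat_lit 4, nat_lit 0x49⟩ (.nil) (.nil)
def t14_15302 : Tr := .node ⟨nat_lit 7, nat_lit 0x200020004000440060, nat_lit 0x1010202, nat_lit 4, nat_lit 4, nat_lit 0x48⟩ (.nil) (.nil)
def t14_1990 : Tr := .node ⟨nat_lit 8, nat_lit 0x8000800020002000c0, nat_lit 0x2010102, nat_lit 1, nat_lit 4, nat_lit 0x49⟩ (.nil) (.nil)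
def t14_10182 : Tr := .node ⟨nat_lit 8, nat_lit 0x80008000c000d000d0, nat_lit 0x101220, nat_lit 3, nat_lit 4, nat_lit 0x47⟩ (.nil) (.nil)
def t14_6086 : Tr := .node ⟨nat_lit 8, nat_lit 0x80, nat_lit 0x11111110, nat_lit 3, nat_lit 4, nat_lit 0x4e⟩ (.nil) (.nil)
def t14_14278 : Tr := .node ⟨nat_lit 7, nat_lit 0x10002000400040, nat_lit 0x12200, nat_lit 1, nat_lit 4, nat_lit 0x48⟩ (.nil) (.nil)
def t14_4038 : Tr := .node ⟨nat_lit 7, nat_lit 0x20003000500068, nat_lit 0x102120, nat_lit 0, nat_lit 4, nat_lit 0x46⟩ (.nil) (.nil)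
def t14_12230 : Tr := .node ⟨nat_lit 8, nat_lit 0x80009000c0006000d0, nat_lit 0x10111201, nat_lit 0, nat_lit 4, nat_lit 0x47⟩ (.nil) (.nil)
def t14_8134 : Tr := .node ⟨nat_lit 8, nat_lit 0x2000800088008800c0, nat_lit 0x1001310, nat_lit 3, nat_lit 4, nat_lit 0x48⟩ (.nil) (.nil)
def t9_454 : Tr := .node ⟨nat_lit 5, nat_lit 0x18, nat_lit 0x31310, nat_lit 1, nat_lit 4, nat_lit 0x4a⟩ (.node ⟨nat_lit 5, nat_lit 0x100014001c, nat_lit 0x31032, nat_lit 2, nat_lit 4, nat_lit 0x47⟩ (.node ⟨nat_lit 5, nat_lit 0x18, nat_lit 0x21212, nat_lit 2, nat_lit 4, nat_lit 0x49⟩ (.node ⟨nat_lit 6, nat_lit 0x1000200038, nat_lit 0x10212, nat_lit 1, nat_lit 4, nat_lit 0x46⟩ (.node ⟨nat_lit 6, nat_lit 0x2000280034, nat_lit 0x20211, nat_lit 3, nat_lit 4, nat_lit 0x47⟩ (t14_454) (t14_8646)) (.node ⟨nat_lit 6, nat_lit 0x2000200034, nat_lit 0x121202, nat_lit 3, nat_lit 4, nat_lit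 0x49⟩ (t14_4550) (t14_12742))) (.node ⟨nat_lit 5, nat_lit 0x800100010, nat_lit 0x1200, nat_lit 4, nat_lit 4, nat_lit 0x46⟩ (.node ⟨nat_lit 6, nat_lit 0x240038, nat_lit 0x111123, nat_lit 0, nat_lit 4, nat_lit 0x47⟩ (t14_2502) (t14_10694)) (.node ⟨nat_lit 5, nat_lit 0x800080010, nat_lit 0x20211, nat_lit 7, nat_lit 4, nat_lit 0x48⟩ (t14_6598) (t14_14790)))) (.node ⟨nat_lit 5, nat_lit 0x18, nat_lit 0x210, nat_lit 2, nat_lit 4, nat_lit 0x46⟩ (.node ⟨nat_lit 6, nat_lit 0x2000100032, nat_lit 0x121321, nat_lit 1, nat_lit 4, nat_lit 0x49⟩ (.node ⟨nat_lit 6, nat_lit 0x2000200030, nat_lit 0x1101, nat_lit 0, nat_lit 3, nat_lit 0x45⟩ (t14_1478) (t14_9670)) (.node ⟨nat_lit 7, nat_lit 0x40004000200048, nat_lit 0x1111200, nat_lit 5, nat_lit 4, nat_lit 0x4a⟩ (t14_5574) (t14_13766))) (.node ⟨nat_lit 5, nat_lit 0x1000100008, nat_lit 0x11302, nat_lit 4, nat_lit 4,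 nat_lit 0x48⟩ (.node ⟨nat_lit 7, nat_lit 0x40002000500068, nat_lit 0x100000, nat_lit 1, nat_lit 4, nat_lit 0x45⟩ (t14_3526) (t14_11718)) (.node ⟨nat_lit 5, nat_lit 0x1000180018, nat_lit 0x10310, nat_lit 2, nat_lit 3, nat_lit 0x45⟩ (t14_7622) (.nil))))) (.node ⟨nat_lit 7, nat_lit 0x400060, nat_lit 0x1031111, nat_lit 2, nat_lit 4, nat_lit 0x4b⟩ (.node ⟨nat_lit 5, nat_lit 0x800100018, nat_lit 0x11221, nat_lit 3, nat_lit 4, nat_lit 0x47⟩ (.node ⟨nat_lit 6, nat_lit 0x1000200020, nat_lit 0x121210, nat_lit 0, nat_lit 4, nat_lit 0x49⟩ (.node ⟨nat_lit 6, nat_lit 0x2000100024, nat_lit 0x212300, nat_lit 1, nat_lit 4, nat_lit 0x4a⟩ (t14_966) (t14_9158)) (.node ⟨nat_lit 7, nat_lit 0x6000600060, nat_lit 0x22210, nat_lit 3, nat_lit 4, nat_lit 0x48⟩ (t14_5062) (t14_13254))) (.node ⟨nat_lit 6, nat_lit 0x200010, nat_lit 0x11103, nat_lit 1, nat_lit 4, nat_lit 0x49⟩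 (.node ⟨nat_lit 7, nat_lit 0x10004000500060, nat_lit 0x101201, nat_lit 1, nat_lit 4, nat_lit 0x47⟩ (t14_3014) (t14_11206)) (.node ⟨nat_lit 8, nat_lit 0x800040005000a000a000c0, nat_lit 0x1020102, nat_lit 2, nat_lit 4, nat_lit 0x47⟩ (t14_7110) (t14_15302)))) (.node ⟨nat_lit 4, nat_lit 8, nat_lit 0x1212, nat_lit 5, nat_lit 4, nat_lit 0x48⟩ (.node ⟨nat_lit 8, nat_lit 0x10002000c0, nat_lit 0x20111101, nat_lit 1, nat_lit 4, nat_lit 0x4b⟩ (.node ⟨nat_lit 5, nat_lit 0x180018, nat_lit 0x10241, nat_lit 3, nat_lit 4, nat_lit 0x47⟩ (t14_1990) (t14_10182)) (.node ⟨nat_lit 8, nat_lit 0x800040004000a000c8, nat_lit 0x1002102, nat_lit 0, nat_lit 4, nat_lit 0x48⟩ (t14_6086) (t14_14278))) (.node ⟨nat_lit 6, nat_lit 0x30, nat_lit 0x301110, nat_lit 3, nat_lit 3, nat_lit 0x49⟩ (.node ⟨nat_lit 7, nat_lit 0x1000600060, nat_lit 0x11100, nat_lit 0, nat_lit 4, nat_lit 0x47⟩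 (t14_4038) (t14_12230)) (.node ⟨nat_lit 8, nat_lit 0x800080004000200090, nat_lit 0x10111010, nat_lit 1, nat_lit 4, nat_lit 0x49⟩ (t14_8134) (.nil)))))
def t14_38 : Tr := .node ⟨nat_lit 5, nat_lit 0x18, nat_lit 0x11110, nat_lit 5, nat_lit 4, nat_lit 0x48⟩ (.nil) (.nil)
def t14_8230 : Tr := .node ⟨nat_lit 7, nat_lit 0x400020005000500068, nat_lit 0x110410, nat_lit 2, nat_lit 4, nat_lit 0x47⟩ (.nil) (.nil)
def t14_4134 : Tr := .node ⟨nat_lit 8, nat_lit 0x800040002000c000c8, nat_lit 0x1111020, nat_lit 1, nat_lit 4, nat_lit 0x48⟩ (.nil) (.nil)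
def t14_12326 : Tr := .node ⟨nat_lit 6, nat_lit 0x20001000300030, nat_lit 0x2230, nat_lit 5, nat_lit 4, nat_lit 0x47⟩ (.nil) (.nil)
def t14_2086 : Tr := .node ⟨nat_lit 7, nat_lit 0x400040002000200050, nat_lit 0x102310, nat_lit 1, nat_lit 4, nat_lit 0x48⟩ (.nil) (.nil)
def t14_10278 : Tr := .node ⟨nat_lit 9, nat_lit 0x10000800040012001a00190, nat_lit 0x100020020, nat_lit 0, nat_lit 4, nat_lit 0x47⟩ (.nil) (.nil)
def t14_6182 : Tr := .node ⟨nat_lit 7, nat_lit 0x10004000200062, nat_lit 0x100120, nat_lit 1, nat_lit 4, nat_lit 0x47⟩ (.nil) (.nil)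
def t14_14374 : Tr := .node ⟨nat_lit 6, nat_lit 0x300030, nat_lit 0x11, nat_lit 0, nat_lit 4, nat_lit 0x45⟩ (.nil) (.nil)
def t14_1062 : Tr := .node ⟨nat_lit 6, nat_lit 0x200010, nat_lit 0x1103, nat_lit 1, nat_lit 4, nat_lit 0x48⟩ (.nil) (.nil)
def t14_9254 : Tr := .node ⟨nat_lit 7, nat_lit 0x400020005000680070, nat_lit 0x12001, nat_lit 2, nat_lit 4, nat_lit 0x45⟩ (.nil) (.nil)
def t14_5158 : Tr := .node ⟨nat_lit 7, nat_lit 0x200020002000400070, nat_lit 0x11031, nat_lit 2, nat_lit 4, nat_lit 0x47⟩ (.nil) (.nil)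
def t14_13350 : Tr := .node ⟨nat_lit 6, nat_lit 0x800300028, nat_lit 0x300, nat_lit 2, nat_lit 4, nat_lit 0x46⟩ (.nil) (.nil)
def t14_3110 : Tr := .node ⟨nat_lit 7, nat_lit 0x20004000100068, nat_lit 0x1001001, nat_lit 0, nat_lit 4, nat_lit 0x46⟩ (.nil) (.nil)
def t14_11302 : Tr := .node ⟨nat_lit 6, nat_lit 0x2800280030, nat_lit 0x20201, nat_lit 7, nat_lit 4, nat_lit 0x47⟩ (.nil) (.nil)
def t14_7206 : Tr := .node ⟨nat_lit 7, nat_lit 0x400020002000500070, nat_lit 0x2002210, nat_lit 0, nat_lit 4, nat_lit 0x47⟩ (.nil) (.nil)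
def t14_15398 : Tr := .node ⟨nat_lit 8, nat_lit 0x80008000400040, nat_lit 0x111010, nat_lit 8, nat_lit 4, nat_lit 0x4b⟩ (.nil) (.nil)
def t14_550 : Tr := .node ⟨nat_lit 7, nat_lit 0x40002000480060, nat_lit 0x12012, nat_lit 0, nat_lit 4, nat_lit 0x47⟩ (.nil) (.nil)
def t14_8742 : Tr := .node ⟨nat_lit 8, nat_lit 0x8000200090009000c0, nat_lit 0x10110, nat_lit 2, nat_lit 4, nat_lit 0x47⟩ (.nil) (.nil)
def t14_4646 : Tr := .node ⟨nat_lit 7, nat_lit 0x400020002000500068, nat_lit 0x1120011, nat_lit 0, nat_lit 4, nat_lit 0x47⟩ (.nil) (.nil)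
def t14_12838 : Tr := .node ⟨nat_lit 7, nat_lit 0x40002000100010, nat_lit 0x2000200, nat_lit 1, nat_lit 3, nat_lit 0x47⟩ (.nil) (.nil)
def t14_2598 : Tr := .node ⟨nat_lit 7, nat_lit 0x40004000200048, nat_lit 0x1011020, nat_lit 0, nat_lit 4, nat_lit 0x48⟩ (.nil) (.nil)
def t14_10790 : Tr := .node ⟨nat_lit 9, nat_lit 0x8001000100010000400110, nat_lit 0x12001, nat_lit 6, nat_lit 4, nat_lit 0x4a⟩ (.nil) (.nil)
def t14_6694 : Tr := .node ⟨nat_lit 9, nat_lit 0x100008000400040, nat_lit 0x110010, nat_lit 3, nat_lit 4, nat_lit 0x4b⟩ (.nil) (.nil)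
def t14_14886 : Tr := .node ⟨nat_lit 6, nat_lit 0x200020002000300030, nat_lit 0x11011, nat_lit 0xb, nat_lit 4, nat_lit 0x48⟩ (.nil) (.nil)
def t14_1574 : Tr := .node ⟨nat_lit 8, nat_lit 0x800040004000a000c0, nat_lit 0x121102, nat_lit 0, nat_lit 4, nat_lit 0x48⟩ (.nil) (.nil)
def t14_9766 : Tr := .node ⟨nat_lit 7, nat_lit 0x1000100060, nat_lit 0x1100, nat_lit 0, nat_lit 4, nat_lit 0x47⟩ (.nil) (.nil)
def t14_5670 : Tr := .node ⟨nat_lit 8, nat_lit 0x8000c000c0, nat_lit 0x111220, nat_lit 2, nat_lit 4, nat_lit 0x4a⟩ (.nil) (.nil)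
def t14_13862 : Tr := .node ⟨nat_lit 7, nat_lit 0x10001000400060, nat_lit 0x102020, nat_lit 3, nat_lit 4, nat_lit 0x48⟩ (.nil) (.nil)
def t14_3622 : Tr := .node ⟨nat_lit 5, nat_lit 0x140018, nat_lit 0x1301, nat_lit 4, nat_lit 4, nat_lit 0x47⟩ (.nil) (.nil)
def t14_11814 : Tr := .node ⟨nat_lit 6, nat_lit 0x2000080030, nat_lit 0x1013, nat_lit 4, nat_lit 4, nat_lit 0x47⟩ (.nil) (.nil)
def t14_7718 : Tr := .node ⟨nat_lit 3, nat_lit 6, nat_lit 0x100, nat_lit 8, nat_lit 4, nat_lit 0x44⟩ (.nil) (.nil)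
def t9_38 : Tr := .node ⟨nat_lit 4, nat_lit 8, nat_lit 0x3211, nat_lit 9, nat_lit 4, nat_lit 0x4a⟩ (.node ⟨nat_lit 5, nat_lit 0x10001a, nat_lit 0x32112, nat_lit 3, nat_lit 4, nat_lit 0x49⟩ (.node ⟨nat_lit 4, nat_lit 0xc, nat_lit 0x40, nat_lit 1, nat_lit 4, nat_lit 0x45⟩ (.node ⟨nat_lit 5, nat_lit 0x18, nat_lit 0x20110, nat_lit 2, nat_lit 4, nat_lit 0x47⟩ (.node ⟨nat_lit 6, nat_lit 0x2000080030, nat_lit 0x22103, nat_lit 0, nat_lit 4, nat_lit 0x48⟩ (t14_38) (t14_8230)) (.node ⟨nat_lit 5, nat_lit 0x140018, nat_lit 0x1200, nat_lit 4, nat_lit 4, nat_lit 0x46⟩ (t14_4134) (t14_12326))) (.node ⟨nat_lit 4, nat_lit 0xc, nat_lit 0x2222, nat_lit 6, nat_lit 4, nat_lit 0x49⟩ (.node ⟨nat_lit 6, nat_lit 0x2000080030, nat_lit 0x21204, nat_lit 0, nat_lit 4, nat_lit 0x48⟩ (t14_2086) (t14_10278)) (.node ⟨nat_lit 5, nat_lit 0x1000180018, nat_lit 0x310, nat_lit 2, nat_lit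 3, nat_lit 0x44⟩ (t14_6182) (t14_14374)))) (.node ⟨nat_lit 4, nat_lit 0x80004, nat_lit 0x2004, nat_lit 1, nat_lit 3, nat_lit 0x45⟩ (.node ⟨nat_lit 5, nat_lit 0x140018, nat_lit 0x22111, nat_lit 5, nat_lit 4, nat_lit 0x48⟩ (.node ⟨nat_lit 6, nat_lit 0x30, nat_lit 0x111111, nat_lit 0, nat_lit 4, nat_lit 0x49⟩ (t14_1062) (t14_9254)) (.node ⟨nat_lit 6, nat_lit 0x100020, nat_lit 0x211120, nat_lit 2, nat_lit 4, nat_lit 0x4a⟩ (t14_5158) (t14_13350))) (.node ⟨nat_lit 5, nat_lit 0x18, nat_lit 0x20310, nat_lit 4, nat_lit 4, nat_lit 0x49⟩ (.node ⟨nat_lit 7, nat_lit 0x10002000400070, nat_lit 0x1112003, nat_lit 1, nat_lit 4, nat_lit 0x48⟩ (t14_3110) (t14_11302)) (.node ⟨nat_lit 7, nat_lit 0x20005000600060, nat_lit 0x10220, nat_lit 0, nat_lit 4, nat_lit 0x46⟩ (t14_7206) (t14_15398))))) (.node ⟨nat_lit 5, nat_lit 0, nat_lit 0x32111, nat_lit 6, nat_lit 4, nat_lit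 0x4c⟩ (.node ⟨nat_lit 6, nat_lit 0x20, nat_lit 0x122111, nat_lit 1, nat_lit 4, nat_lit 0x4b⟩ (.node ⟨nat_lit 6, nat_lit 0x1000280034, nat_lit 0x20010, nat_lit 1, nat_lit 4, nat_lit 0x45⟩ (.node ⟨nat_lit 7, nat_lit 0x20006000600050, nat_lit 0x20221, nat_lit 0, nat_lit 3, nat_lit 0x45⟩ (t14_550) (t14_8742)) (.node ⟨nat_lit 7, nat_lit 0x40001000680070, nat_lit 0x1201022, nat_lit 1, nat_lit 4, nat_lit 0x47⟩ (t14_4646) (t14_12838))) (.node ⟨nat_lit 6, nat_lit 0x1000280034, nat_lit 0x101112, nat_lit 0, nat_lit 4, nat_lit 0x45⟩ (.node ⟨nat_lit 6, nat_lit 0x300030, nat_lit 0x112140, nat_lit 0, nat_lit 4, nat_lit 0x49⟩ (t14_2598) (t14_10790)) (.node ⟨nat_lit 8, nat_lit 0xa000c000c0, nat_lit 0x121210, nat_lit 1, nat_lit 4, nat_lit 0x49⟩ (t14_6694) (t14_14886)))) (.node ⟨nat_lit 6, nat_lit 0x2000080010, nat_lit 0x21011, nat_lit 5, nat_lit 4, nat_lit 0x49⟩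 (.node ⟨nat_lit 6, nat_lit 0x20002000100030, nat_lit 0x22010, nat_lit 1, nat_lit 3, nat_lit 0x46⟩ (.node ⟨nat_lit 6, nat_lit 0x280030, nat_lit 0x11123, nat_lit 0, nat_lit 4, nat_lit 0x47⟩ (t14_1574) (t14_9766)) (.node ⟨nat_lit 6, nat_lit 0x10001000200020, nat_lit 0x111010, nat_lit 1, nat_lit 4, nat_lit 0x47⟩ (t14_5670) (t14_13862))) (.node ⟨nat_lit 5, nat_lit 0x40018, nat_lit 0x20002, nat_lit 0, nat_lit 4, nat_lit 0x45⟩ (.node ⟨nat_lit 6, nat_lit 0x2000080030, nat_lit 0x12000, nat_lit 0, nat_lit 3, nat_lit 0x46⟩ (t14_3622) (t14_11814)) (.node ⟨nat_lit 7, nat_lit 0x200040004000480030, nat_lit 0x1121100, nat_lit 2, nat_lit 4, nat_lit 0x48⟩ (t14_7718) (.nil)))))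
def t14_294 : Tr := .node ⟨nat_lit 6, nat_lit 0x300030, nat_lit 0x102111, nat_lit 2, nat_lit 4, nat_lit 0x48⟩ (.nil) (.nil)
def t14_8486 : Tr := .node ⟨nat_lit 7, nat_lit 0x40002000200060, nat_lit 0x2101, nat_lit 0, nat_lit 4, nat_lit 0x47⟩ (.nil) (.nil)
def t14_4390 : Tr := .node ⟨nat_lit 8, nat_lit 0x400080002000c0, nat_lit 0x1121110, nat_lit 1, nat_lit 4, nat_lit 0x4a⟩ (.nil) (.nil)
def t14_12582 : Tr := .node ⟨nat_lit 8, nat_lit 0x8000a000d000d000e0, nat_lit 0x10000103, nat_lit 1, nat_lit 4, nat_lit 0x45⟩ (.nil) (.nil)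
def t14_2342 : Tr := .node ⟨nat_lit 6, nat_lit 0x20003800380038, nat_lit 0x201210, nat_lit 5, nat_lit 4, nat_lit 0x46⟩ (.nil) (.nil)
def t14_10534 : Tr := .node ⟨nat_lit 7, nat_lit 0x40001000600070, nat_lit 0x202, nat_lit 0, nat_lit 4, nat_lit 0x45⟩ (.nil) (.nil)
def t14_6438 : Tr := .node ⟨nat_lit 8, nat_lit 0x40002000100080, nat_lit 0x11110110, nat_lit 0, nat_lit 4, nat_lit 0x4a⟩ (.nil) (.nil)
def t14_14630 : Tr := .node ⟨nat_lit 9, nat_lit 0x100010001000080008001400140, nat_lit 0x1111011, nat_lit 2, nat_lit 4, nat_lit 0x49⟩ (.nil) (.nil)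
def t14_1318 : Tr := .node ⟨nat_lit 7, nat_lit 0x40002000200010, nat_lit 0x1010211, nat_lit 3, nat_lit 4, nat_lit 0x49⟩ (.nil) (.nil)
def t14_9510 : Tr := .node ⟨nat_lit 5, nat_lit 0x10001000180014, nat_lit 0x11110, nat_lit 9, nat_lit 4, nat_lit 0x47⟩ (.nil) (.nil)
def t14_5414 : Tr := .node ⟨nat_lit 7, nat_lit 0x500060, nat_lit 0x111122, nat_lit 1, nat_lit 4, nat_lit 0x49⟩ (.nil) (.nil)
def t14_13606 : Tr := .node ⟨nat_lit 8, nat_lit 0x40008000900090006000c0, nat_lit 2, nat_lit 1, nat_lit 4, nat_lit 0x45⟩ (.nil) (.nil)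
def t14_3366 : Tr := .node ⟨nat_lit 7, nat_lit 0x200040006000600068, nat_lit 0x21211, nat_lit 2, nat_lit 4, nat_lit 0x46⟩ (.nil) (.nil)
def t14_11558 : Tr := .node ⟨nat_lit 7, nat_lit 0x40001000600060, nat_lit 0x112010, nat_lit 3, nat_lit 4, nat_lit 0x48⟩ (.nil) (.nil)
def t14_7462 : Tr := .node ⟨nat_lit 6, nat_lit 0x1000100020, nat_lit 0x101001, nat_lit 5, nat_lit 4, nat_lit 0x48⟩ (.nil) (.nil)
def t14_806 : Tr := .node ⟨nat_lit 8, nat_lit 0x80008000400040009000e0, nat_lit 0x10113001, nat_lit 1, nat_lit 4, nat_lit 0x48⟩ (.nil) (.nil)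
def t14_8998 : Tr := .node ⟨nat_lit 9, nat_lit 0x10001000100012001080110, nat_lit 0x11111010, nat_lit 2, nat_lit 4, nat_lit 0x4a⟩ (.nil) (.nil)
def t14_4902 : Tr := .node ⟨nat_lit 6, nat_lit 0x100020, nat_lit 0x111100, nat_lit 0xb, nat_lit 4, nat_lit 0x4b⟩ (.nil) (.nil)
def t14_13094 : Tr := .node ⟨nat_lit 5, nat_lit 0x100008001c, nat_lit 0x320, nat_lit 5, nat_lit 4, nat_lit 0x46⟩ (.nil) (.nil)
def t14_2854 : Tr := .node ⟨nat_lit 6, nat_lit 0x280030, nat_lit 0x1120, nat_lit 3, nat_lit 4, nat_lit 0x47⟩ (.nil) (.nil)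
def t14_11046 : Tr := .node ⟨nat_lit 7, nat_lit 0x10001000600060, nat_lit 0x1101020, nat_lit 3, nat_lit 4, nat_lit 0x48⟩ (.nil) (.nil)
def t14_6950 : Tr := .node ⟨nat_lit 6, nat_lit 0x2000080030, nat_lit 0x122201, nat_lit 1, nat_lit 4, nat_lit 0x49⟩ (.nil) (.nil)
def t14_15142 : Tr := .node ⟨nat_lit 8, nat_lit 0x40008000800060008800d0, nat_lit 0x1111111, nat_lit 2, nat_lit 4, nat_lit 0x47⟩ (.nil) (.nil)
def t14_1830 : Tr := .node ⟨nat_lit 5, nat_lit 0x1000100018, nat_lit 0x2112, nat_lit 8, nat_lit 4, nat_lit 0x48⟩ (.nil) (.nil)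
def t14_10022 : Tr := .node ⟨nat_lit 6, nat_lit 0x2000300034, nat_lit 0x11202, nat_lit 4, nat_lit 4, nat_lit 0x47⟩ (.nil) (.nil)
def t14_5926 : Tr := .node ⟨nat_lit 7, nat_lit 0x20004000680068, nat_lit 0x120130, nat_lit 0, nat_lit 4, nat_lit 0x46⟩ (.nil) (.nil)
def t14_14118 : Tr := .node ⟨nat_lit 7, nat_lit 0x4000500064, nat_lit 0x101, nat_lit 1, nat_lit 4, nat_lit 0x46⟩ (.nil) (.nil)
def t14_3878 : Tr := .node ⟨nat_lit 6, nat_lit 0x10002000200034, nat_lit 0x10201, nat_lit 5, nat_lit 4, nat_lit 0x47⟩ (.nil) (.nil)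
def t14_12070 : Tr := .node ⟨nat_lit 9, nat_lit 0x8000800100011001a001c001c0, nat_lit 0x10100021, nat_lit 1, nat_lit 4, nat_lit 0x46⟩ (.nil) (.nil)
def t14_7974 : Tr := .node ⟨nat_lit 7, nat_lit 0x200040004000480048, nat_lit 0x1121, nat_lit 8, nat_lit 4, nat_lit 0x48⟩ (.nil) (.nil)
def t9_294 : Tr := .node ⟨nat_lit 4, nat_lit 0x40008, nat_lit 0x3022, nat_lit 3, nat_lit 4, nat_lit 0x47⟩ (.node ⟨nat_lit 6, nat_lit 0x2000200010, nat_lit 0x32202, nat_lit 0, nat_lit 4, nat_lit 0x4a⟩ (.node ⟨nat_lit 8, nat_lit 0x800040, nat_lit 0x311100, nat_lit 4, nat_lit 4, nat_lit 0x4d⟩ (.node ⟨nat_lit 6, nat_lit 0x10002000240024, nat_lit 0x100122, nat_lit 4, nat_lit 4, nat_lit 0x47⟩ (.node ⟨nat_lit 7, nat_lit 0x200020004000440030, nat_lit 0x1221002, nat_lit 0, nat_lit 4, nat_lit 0x49⟩ (t14_294) (t14_8486)) (.node ⟨nat_lit 6, nat_lit 0x2000080030, nat_lit 0x211013,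 nat_lit 1, nat_lit 3, nat_lit 0x47⟩ (t14_4390) (t14_12582))) (.node ⟨nat_lit 6, nat_lit 0x2000240030, nat_lit 0x201222, nat_lit 3, nat_lit 4, nat_lit 0x49⟩ (.node ⟨nat_lit 6, nat_lit 0x20002000100030, nat_lit 0x12133, nat_lit 2, nat_lit 4, nat_lit 0x48⟩ (t14_2342) (t14_10534)) (.node ⟨nat_lit 7, nat_lit 0x4000600060, nat_lit 0x21310, nat_lit 1, nat_lit 4, nat_lit 0x49⟩ (t14_6438) (t14_14630)))) (.node ⟨nat_lit 7, nat_lit 0x1000400062, nat_lit 0x2101011, nat_lit 1, nat_lit 4, nat_lit 0x49⟩ (.node ⟨nat_lit 6, nat_lit 0x1000280034, nat_lit 0x122220, nat_lit 0, nat_lit 4, nat_lit 0x48⟩ (.node ⟨nat_lit 5, nat_lit 0x1000080008, nat_lit 0, nat_lit 3, nat_lit 3, nat_lit 0x44⟩ (t14_1318) (t14_9510)) (.node ⟨nat_lit 6, nat_lit 0x2000240030, nat_lit 0x112122, nat_lit 2, nat_lit 4, nat_lit 0x48⟩ (t14_5414) (t14_13606))) (.node ⟨nat_lit 7, nat_lit 0x20002000400040,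 nat_lit 0x1022010, nat_lit 1, nat_lit 4, nat_lit 0x49⟩ (.node ⟨nat_lit 6, nat_lit 0x1000200020, nat_lit 0x121130, nat_lit 2, nat_lit 4, nat_lit 0x4a⟩ (t14_3366) (t14_11558)) (.node ⟨nat_lit 7, nat_lit 0x4000100060, nat_lit 0x1121102, nat_lit 1, nat_lit 4, nat_lit 0x4a⟩ (t14_7462) (.nil))))) (.node ⟨nat_lit 7, nat_lit 0x2000100040, nat_lit 0x1013011, nat_lit 0, nat_lit 4, nat_lit 0x4a⟩ (.node ⟨nat_lit 6, nat_lit 0x2000080030, nat_lit 0x12220, nat_lit 2, nat_lit 4, nat_lit 0x48⟩ (.node ⟨nat_lit 5, nat_lit 0x100018, nat_lit 0x1103, nat_lit 2, nat_lit 4, nat_lit 0x46⟩ (.node ⟨nat_lit 6, nat_lit 0x200030, nat_lit 0x23210, nat_lit 1, nat_lit 4, nat_lit 0x4a⟩ (t14_806) (t14_8998)) (.node ⟨nat_lit 6, nat_lit 0x1000200030, nat_lit 0x112022, nat_lit 3, nat_lit 4, nat_lit 0x49⟩ (t14_4902) (t14_13094))) (.node ⟨nat_lit 6, nat_lit 0x800300030, nat_lit 0x111021,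 nat_lit 2, nat_lit 4, nat_lit 0x47⟩ (.node ⟨nat_lit 7, nat_lit 0x20002000400062, nat_lit 0x2011113, nat_lit 0, nat_lit 4, nat_lit 0x48⟩ (t14_2854) (t14_11046)) (.node ⟨nat_lit 7, nat_lit 0x10001800600070, nat_lit 0x1101122, nat_lit 0, nat_lit 4, nat_lit 0x46⟩ (t14_6950) (t14_15142)))) (.node ⟨nat_lit 4, nat_lit 0x80008, nat_lit 0x1121, nat_lit 6, nat_lit 3, nat_lit 0x46⟩ (.node ⟨nat_lit 6, nat_lit 0x2000280030, nat_lit 0x12211, nat_lit 3, nat_lit 4, nat_lit 0x48⟩ (.node ⟨nat_lit 6, nat_lit 0x800080030, nat_lit 0x110103, nat_lit 2, nat_lit 3, nat_lit 0x46⟩ (t14_1830) (t14_10022)) (.node ⟨nat_lit 7, nat_lit 0x40002000500060, nat_lit 0x120022, nat_lit 1, nat_lit 4, nat_lit 0x48⟩ (t14_5926) (t14_14118))) (.node ⟨nat_lit 6, nat_lit 0x10001000200020, nat_lit 0x12230, nat_lit 0, nat_lit 4, nat_lit 0x48⟩ (.node ⟨nat_lit 6, nat_lit 0x300038, nat_lit 0x101003,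 nat_lit 0, nat_lit 4, nat_lit 0x46⟩ (t14_3878) (t14_12070)) (.node ⟨nat_lit 7, nat_lit 0x1800500060, nat_lit 0x111021, nat_lit 0, nat_lit 4, nat_lit 0x47⟩ (t14_7974) (.nil)))))
def t14_166 : Tr := .node ⟨nat_lit 7, nat_lit 0x4000600064, nat_lit 0x1010212, nat_lit 0, nat_lit 4, nat_lit 0x48⟩ (.nil) (.nil)
def t14_8358 : Tr := .node ⟨nat_lit 6, nat_lit 0x2000240030, nat_lit 0x1240, nat_lit 4, nat_lit 4, nat_lit 0x48⟩ (.nil) (.nil)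
def t14_4262 : Tr := .node ⟨nat_lit 7, nat_lit 0x200040004000600060, nat_lit 0x22010, nat_lit 0, nat_lit 3, nat_lit 0x45⟩ (.nil) (.nil)
def t14_12454 : Tr := .node ⟨nat_lit 6, nat_lit 0x2000200030, nat_lit 0x12400, nat_lit 0, nat_lit 3, nat_lit 0x47⟩ (.nil) (.nil)
def t14_2214 : Tr := .node ⟨nat_lit 7, nat_lit 0x400040002000200050, nat_lit 0x1010220, nat_lit 2, nat_lit 4, nat_lit 0x48⟩ (.nil) (.nil)
def t14_10406 : Tr := .node ⟨nat_lit 6, nat_lit 0x2800180030, nat_lit 0x100201, nat_lit 4, nat_lit 4, nat_lit 0x46⟩ (.nil) (.nil)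
def t14_6310 : Tr := .node ⟨nat_lit 5, nat_lit 0x1000080008, nat_lit 0x32, nat_lit 4, nat_lit 4, nat_lit 0x47⟩ (.nil) (.nil)
def t14_14502 : Tr := .node ⟨nat_lit 7, nat_lit 0x5000600060, nat_lit 0x11120, nat_lit 5, nat_lit 4, nat_lit 0x48⟩ (.nil) (.nil)
def t14_1190 : Tr := .node ⟨nat_lit 6, nat_lit 0x80030, nat_lit 0x110011, nat_lit 0, nat_lit 4, nat_lit 0x47⟩ (.nil) (.nil)
def t14_9382 : Tr := .node ⟨nat_lit 0xa, nat_lit 0x10002000200020002080210, nat_lit 0x11011110, nat_lit 1, nat_lit 4, nat_lit 0x4b⟩ (.nil) (.nil)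
def t14_5286 : Tr := .node ⟨nat_lit 6, nat_lit 0x280030, nat_lit 0x131120, nat_lit 1, nat_lit 4, nat_lit 0x49⟩ (.nil) (.nil)
def t14_13478 : Tr := .node ⟨nat_lit 6, nat_lit 0x800200030, nat_lit 0x30, nat_lit 8, nat_lit 4, nat_lit 0x48⟩ (.nil) (.nil)
def t14_3238 : Tr := .node ⟨nat_lit 7, nat_lit 0x4000500060, nat_lit 0x201121, nat_lit 0, nat_lit 4, nat_lit 0x48⟩ (.nil) (.nil)
def t14_11430 : Tr := .node ⟨nat_lit 7, nat_lit 0x40001000600068, nat_lit 0x101100, nat_lit 1, nat_lit 4, nat_lit 0x46⟩ (.nil) (.nil)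
def t14_7334 : Tr := .node ⟨nat_lit 8, nat_lit 0x8000400040009000c8, nat_lit 0x11112001, nat_lit 0, nat_lit 4, nat_lit 0x49⟩ (.nil) (.nil)
def t14_15526 : Tr := .node ⟨nat_lit 0xc, nat_lit 0x8000400020001000080, nat_lit 0x1100000, nat_lit 4, nat_lit 4, nat_lit 0x4e⟩ (.nil) (.nil)
def t14_678 : Tr := .node ⟨nat_lit 7, nat_lit 0x20004000100044, nat_lit 0x10311, nat_lit 1, nat_lit 4, nat_lit 0x48⟩ (.nil) (.nil)
def t14_8870 : Tr := .node ⟨nat_lit 8, nat_lit 0x2000800088008800c0, nat_lit 0x111210, nat_lit 3, nat_lit 4, nat_lit 0x48⟩ (.nil) (.nil)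
def t14_4774 : Tr := .node ⟨nat_lit 7, nat_lit 0x2800480070, nat_lit 0x110122, nat_lit 0, nat_lit 4, nat_lit 0x46⟩ (.nil) (.nil)
def t14_12966 : Tr := .node ⟨nat_lit 6, nat_lit 0x800200032, nat_lit 0x31, nat_lit 5, nat_lit 4, nat_lit 0x47⟩ (.nil) (.nil)
def t14_2726 : Tr := .node ⟨nat_lit 8, nat_lit 0x6000c000c000a0, nat_lit 0x112201, nat_lit 0, nat_lit 4, nat_lit 0x47⟩ (.nil) (.nil)
def t14_10918 : Tr := .node ⟨nat_lit 7, nat_lit 0x60005000300070, nat_lit 0x10023, nat_lit 0, nat_lit 4, nat_lit 0x45⟩ (.nil) (.nil)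
def t14_6822 : Tr := .node ⟨nat_lit 8, nat_lit 0x40008000c2, nat_lit 0x10111000, nat_lit 1, nat_lit 4, nat_lit 0x4a⟩ (.nil) (.nil)
def t14_15014 : Tr := .node ⟨nat_lit 9, nat_lit 0x100010000800080014001400190, nat_lit 0x11011111, nat_lit 0, nat_lit 4, nat_lit 0x48⟩ (.nil) (.nil)
def t14_1702 : Tr := .node ⟨nat_lit 5, nat_lit 0x1c, nat_lit 0x11102, nat_lit 0, nat_lit 4, nat_lit 0x46⟩ (.nil) (.nil)
def t14_9894 : Tr := .node ⟨nat_lit 7, nat_lit 0x6000600060, nat_lit 0x11220, nat_lit 4, nat_lit 4, nat_lit 0x48⟩ (.nil) (.nil)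
def t14_5798 : Tr := .node ⟨nat_lit 6, nat_lit 0x200030, nat_lit 0x11131, nat_lit 3, nat_lit 4, nat_lit 0x49⟩ (.nil) (.nil)
def t14_13990 : Tr := .node ⟨nat_lit 6, nat_lit 0x2000100010, nat_lit 0x1220, nat_lit 4, nat_lit 4, nat_lit 0x48⟩ (.nil) (.nil)
def t14_3750 : Tr := .node ⟨nat_lit 8, nat_lit 0x80004000a000e000e000d0, nat_lit 0x120100, nat_lit 1, nat_lit 4, nat_lit 0x45⟩ (.nil) (.nil)
def t14_11942 : Tr := .node ⟨nat_lit 6, nat_lit 0x2000080010, nat_lit 0x10032, nat_lit 0, nat_lit 3, nat_lit 0x46⟩ (.nil) (.nil)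
def t14_7846 : Tr := .node ⟨nat_lit 7, nat_lit 0x200040004800300070, nat_lit 0x1010012, nat_lit 1, nat_lit 4, nat_lit 0x45⟩ (.nil) (.nil)
def t9_166 : Tr := .node ⟨nat_lit 5, nat_lit 0x10, nat_lit 0x23112, nat_lit 1, nat_lit 4, nat_lit 0x4a⟩ (.node ⟨nat_lit 4, nat_lit 0xc, nat_lit 0x1142, nat_lit 3, nat_lit 4, nat_lit 0x48⟩ (.node ⟨nat_lit 4, nat_lit 0x8000c, nat_lit 2, nat_lit 4, nat_lit 3, nat_lit 0x43⟩ (.node ⟨nat_lit 5, nat_lit 0x100008, nat_lit 0x1200, nat_lit 4, nat_lit 4, nat_lit 0x47⟩ (.node ⟨nat_lit 7, nat_lit 0x40001000600060, nat_lit 0x21321, nat_lit 0, nat_lit 4, nat_lit 0x48⟩ (t14_166) (t14_8358)) (.node ⟨nat_lit 5, nat_lit 0x1000080014, nat_lit 0x1201, nat_lit 4, nat_lit 4, nat_lit 0x46⟩ (t14_4262) (t14_12454))) (.node ⟨nat_lit 4, nat_lit 8, nat_lit 0x2223, nat_lit 6, nat_lit 4, nat_lit 0x4a⟩ (.node ⟨nat_lit 6, nat_lit 0x3000300028,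 nat_lit 0x1203, nat_lit 3, nat_lit 4, nat_lit 0x46⟩ (t14_2214) (t14_10406)) (.node ⟨nat_lit 8, nat_lit 0x200080008000c0, nat_lit 0x1030102, nat_lit 1, nat_lit 4, nat_lit 0x4a⟩ (t14_6310) (t14_14502)))) (.node ⟨nat_lit 5, nat_lit 0x80010, nat_lit 0x21111, nat_lit 0, nat_lit 4, nat_lit 0x47⟩ (.node ⟨nat_lit 6, nat_lit 0x800280030, nat_lit 0x211212, nat_lit 0, nat_lit 4, nat_lit 0x48⟩ (.node ⟨nat_lit 6, nat_lit 0x2000100024, nat_lit 0x11140, nat_lit 1, nat_lit 4, nat_lit 0x48⟩ (t14_1190) (t14_9382)) (.node ⟨nat_lit 6, nat_lit 0x800280030, nat_lit 0x101221, nat_lit 5, nat_lit 4, nat_lit 0x48⟩ (t14_5286) (t14_13478))) (.node ⟨nat_lit 3, nat_lit 6, nat_lit 0x210, nat_lit 7, nat_lit 3, nat_lit 0x45⟩ (.node ⟨nat_lit 7, nat_lit 0x10002000500060, nat_lit 0x113201, nat_lit 0, nat_lit 4, nat_lit 0x48⟩ (t14_3238) (t14_11430)) (.node ⟨nat_lit 7, nat_lit 0x10004000400064,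 nat_lit 0x1100102, nat_lit 3, nat_lit 4, nat_lit 0x48⟩ (t14_7334) (t14_15526))))) (.node ⟨nat_lit 7, nat_lit 0x4000200010, nat_lit 0x131012, nat_lit 0, nat_lit 4, nat_lit 0x4b⟩ (.node ⟨nat_lit 6, nat_lit 0x200030, nat_lit 0x121112, nat_lit 0, nat_lit 4, nat_lit 0x49⟩ (.node ⟨nat_lit 6, nat_lit 0x2000100010, nat_lit 0x2111, nat_lit 0, nat_lit 4, nat_lit 0x47⟩ (.node ⟨nat_lit 6, nat_lit 0x2000080030, nat_lit 0x102301, nat_lit 3, nat_lit 4, nat_lit 0x49⟩ (t14_678) (t14_8870)) (.node ⟨nat_lit 7, nat_lit 0x400040002000200064, nat_lit 0x121200, nat_lit 3, nat_lit 4, nat_lit 0x48⟩ (t14_4774) (t14_12966))) (.node ⟨nat_lit 4, nat_lit 0xc, nat_lit 0x1011, nat_lit 6, nat_lit 4, nat_lit 0x46⟩ (.node ⟨nat_lit 7, nat_lit 0x4000100060, nat_lit 0x1111310, nat_lit 0, nat_lit 3, nat_lit 0x48⟩ (t14_2726) (t14_10918)) (.node ⟨nat_lit 7, nat_lit 0x40001000100060, nat_lit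 0x1112102, nat_lit 2, nat_lit 4, nat_lit 0x49⟩ (t14_6822) (t14_15014)))) (.node ⟨nat_lit 5, nat_lit 0x800080010, nat_lit 0x11311, nat_lit 4, nat_lit 4, nat_lit 0x48⟩ (.node ⟨nat_lit 7, nat_lit 0x4000400064, nat_lit 0x1011211, nat_lit 3, nat_lit 4, nat_lit 0x4a⟩ (.node ⟨nat_lit 7, nat_lit 0x800600050, nat_lit 0x10014, nat_lit 0, nat_lit 4, nat_lit 0x47⟩ (t14_1702) (t14_9894)) (.node ⟨nat_lit 7, nat_lit 0x4000400060, nat_lit 0x122210, nat_lit 0, nat_lit 4, nat_lit 0x4a⟩ (t14_5798) (t14_13990))) (.node ⟨nat_lit 5, nat_lit 0x80010, nat_lit 0x22, nat_lit 0, nat_lit 4, nat_lit 0x45⟩ (.node ⟨nat_lit 7, nat_lit 0x20002000500068, nat_lit 0x1000040, nat_lit 0, nat_lit 4, nat_lit 0x46⟩ (t14_3750) (t14_11942)) (.node ⟨nat_lit 8, nat_lit 0x2000a000c000c0, nat_lit 0x10010221, nat_lit 0, nat_lit 4, nat_lit 0x48⟩ (t14_7846) (.nil)))))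
def t14_422 : Tr := .node ⟨nat_lit 7, nat_lit 0x40004000100060, nat_lit 0x1112011, nat_lit 1, nat_lit 4, nat_lit 0x49⟩ (.nil) (.nil)
def t14_8614 : Tr := .node ⟨nat_lit 4, nat_lit 0xc000c, nat_lit 0x2010, nat_lit 3, nat_lit 3, nat_lit 0x44⟩ (.nil) (.nil)
def t14_4518 : Tr := .node ⟨nat_lit 7, nat_lit 0x40002000480048, nat_lit 0x1111021, nat_lit 4, nat_lit 4, nat_lit 0x49⟩ (.nil) (.nil)
def t14_12710 : Tr := .node ⟨nat_lit 6, nat_lit 0x800300028, nat_lit 0x1310, nat_lit 3, nat_lit 4, nat_lit 0x47⟩ (.nil) (.nil)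
def t14_2470 : Tr := .node ⟨nat_lit 7, nat_lit 0x50005000300060, nat_lit 0x102102, nat_lit 3, nat_lit 4, nat_lit 0x46⟩ (.nil) (.nil)
def t14_10662 : Tr := .node ⟨nat_lit 5, nat_lit 0x140018, nat_lit 0x1020, nat_lit 6, nat_lit 4, nat_lit 0x46⟩ (.nil) (.nil)
def t14_6566 : Tr := .node ⟨nat_lit 7, nat_lit 0x40002000500068, nat_lit 0x1101111, nat_lit 1, nat_lit 4, nat_lit 0x47⟩ (.nil) (.nil)
def t14_14758 : Tr := .node ⟨nat_lit 8, nat_lit 0xc000c000a00090, nat_lit 0x1002211, nat_lit 0, nat_lit 4, nat_lit 0x47⟩ (.nil) (.nil)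
def t14_1446 : Tr := .node ⟨nat_lit 9, nat_lit 0x10001000080004001200180, nat_lit 0x1210111, nat_lit 0, nat_lit 4, nat_lit 0x49⟩ (.nil) (.nil)
def t14_9638 : Tr := .node ⟨nat_lit 8, nat_lit 0x800020004000a000c0, nat_lit 0x11022, nat_lit 0, nat_lit 4, nat_lit 0x47⟩ (.nil) (.nil)
def t14_5542 : Tr := .node ⟨nat_lit 6, nat_lit 0x2000200030, nat_lit 0x1103, nat_lit 3, nat_lit 4, nat_lit 0x47⟩ (.nil) (.nil)
def t14_13734 : Tr := .node ⟨nat_lit 8, nat_lit 0x8000400090006000c8, nat_lit 0x12001, nat_lit 0, nat_lit 4, nat_lit 0x46⟩ (.nil) (.nil)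
def t14_3494 : Tr := .node ⟨nat_lit 7, nat_lit 0x10004000400060, nat_lit 0x100201, nat_lit 0, nat_lit 3, nat_lit 0x46⟩ (.nil) (.nil)
def t14_11686 : Tr := .node ⟨nat_lit 7, nat_lit 0x400040007000700070, nat_lit 0x1101210, nat_lit 1, nat_lit 4, nat_lit 0x46⟩ (.nil) (.nil)
def t14_7590 : Tr := .node ⟨nat_lit 5, nat_lit 0x1000080018, nat_lit 0x10132, nat_lit 4, nat_lit 3, nat_lit 0x45⟩ (.nil) (.nil)
def t14_934 : Tr := .node ⟨nat_lit 7, nat_lit 0x200040004800300060, nat_lit 0x112211, nat_lit 2, nat_lit 4, nat_lit 0x47⟩ (.nil) (.nil)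
def t14_9126 : Tr := .node ⟨nat_lit 8, nat_lit 0x8000800040009000a000c0, nat_lit 0x112011, nat_lit 1, nat_lit 4, nat_lit 0x47⟩ (.nil) (.nil)
def t14_5030 : Tr := .node ⟨nat_lit 7, nat_lit 0x6000500050, nat_lit 0x11131, nat_lit 2, nat_lit 4, nat_lit 0x48⟩ (.nil) (.nil)
def t14_13222 : Tr := .node ⟨nat_lit 7, nat_lit 0x40001000480068, nat_lit 0x112001, nat_lit 0, nat_lit 4, nat_lit 0x47⟩ (.nil) (.nil)
def t14_2982 : Tr := .node ⟨nat_lit 7, nat_lit 0x10001000600060, nat_lit 0x1011022, nat_lit 0, nat_lit 4, nat_lit 0x47⟩ (.nil) (.nil)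
def t14_11174 : Tr := .node ⟨nat_lit 7, nat_lit 0x20005000500068, nat_lit 0x110201, nat_lit 3, nat_lit 4, nat_lit 0x47⟩ (.nil) (.nil)
def t14_7078 : Tr := .node ⟨nat_lit 7, nat_lit 0x20006000500050, nat_lit 0x111211, nat_lit 1, nat_lit 4, nat_lit 0x47⟩ (.nil) (.nil)
def t14_15270 : Tr := .node ⟨nat_lit 8, nat_lit 0x4000800088006000c0, nat_lit 0x10001012, nat_lit 3, nat_lit 4, nat_lit 0x48⟩ (.nil) (.nil)
def t14_1958 : Tr := .node ⟨nat_lit 6, nat_lit 0x1000100020, nat_lit 0x2000, nat_lit 0, nat_lit 4, nat_lit 0x46⟩ (.nil) (.nil)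
def t14_10150 : Tr := .node ⟨nat_lit 6, nat_lit 0x2000300028, nat_lit 0x200, nat_lit 1, nat_lit 4, nat_lit 0x45⟩ (.nil) (.nil)
def t14_6054 : Tr := .node ⟨nat_lit 8, nat_lit 0x8000a000c0, nat_lit 0x1121111, nat_lit 0, nat_lit 4, nat_lit 0x4a⟩ (.nil) (.nil)
def t14_14246 : Tr := .node ⟨nat_lit 7, nat_lit 0x10002000500060, nat_lit 0x1110, nat_lit 2, nat_lit 4, nat_lit 0x46⟩ (.nil) (.nil)
def t14_4006 : Tr := .node ⟨nat_lit 7, nat_lit 0x200020004000400070, nat_lit 0x111201, nat_lit 4, nat_lit 4, nat_lit 0x48⟩ (.nil) (.nil)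
def t14_12198 : Tr := .node ⟨nat_lit 7, nat_lit 0x40004800300060, nat_lit 0x1112002, nat_lit 0, nat_lit 4, nat_lit 0x48⟩ (.nil) (.nil)
def t14_8102 : Tr := .node ⟨nat_lit 7, nat_lit 0x400020002000500068, nat_lit 0x1001003, nat_lit 3, nat_lit 4, nat_lit 0x46⟩ (.nil) (.nil)
def t9_422 : Tr := .node ⟨nat_lit 7, nat_lit 0x4000100020, nat_lit 0x213011, nat_lit 1, nat_lit 4, nat_lit 0x4b⟩ (.node ⟨nat_lit 6, nat_lit 0x300030, nat_lit 0x113121, nat_lit 0, nat_lit 4, nat_lit 0x49⟩ (.node ⟨nat_lit 5, nat_lit 0x18, nat_lit 0x10221, nat_lit 0, nat_lit 4, nat_lit 0x47⟩ (.node ⟨nat_lit 6, nat_lit 0x240038, nat_lit 0x110022, nat_lit 0, nat_lit 4, nat_lit 0x46⟩ (.node ⟨nat_lit 7, nat_lit 0x5000600060, nat_lit 0x21120, nat_lit 0, nat_lit 4, nat_lit 0x47⟩ (t14_422) (t14_8614)) (.node ⟨nat_lit 4, nat_lit 0x40008, nat_lit 0x2220, nat_lit 0xb, nat_lit 4, nat_lit 0x49⟩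 (t14_4518) (t14_12710))) (.node ⟨nat_lit 7, nat_lit 0x2000400060, nat_lit 0x211112, nat_lit 2, nat_lit 4, nat_lit 0x4a⟩ (.node ⟨nat_lit 7, nat_lit 0x4000100060, nat_lit 0x111110, nat_lit 0, nat_lit 4, nat_lit 0x48⟩ (t14_2470) (t14_10662)) (.node ⟨nat_lit 5, nat_lit 0x10, nat_lit 0x22112, nat_lit 5, nat_lit 3, nat_lit 0x49⟩ (t14_6566) (t14_14758)))) (.node ⟨nat_lit 4, nat_lit 0x8000c, nat_lit 0x221, nat_lit 5, nat_lit 4, nat_lit 0x46⟩ (.node ⟨nat_lit 7, nat_lit 0x4000400020, nat_lit 0x1211211, nat_lit 0, nat_lit 4, nat_lit 0x4b⟩ (.node ⟨nat_lit 5, nat_lit 0x100012, nat_lit 0x1111, nat_lit 3, nat_lit 4, nat_lit 0x46⟩ (t14_1446) (t14_9638)) (.node ⟨nat_lit 7, nat_lit 0x1000400060, nat_lit 0x1102012, nat_lit 4, nat_lit 4, nat_lit 0x4a⟩ (t14_5542) (t14_13734))) (.node ⟨nat_lit 5, nat_lit 0x800100010, nat_lit 0x1122, nat_lit 3, nat_lit 4, nat_lit 0x47⟩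 (.node ⟨nat_lit 6, nat_lit 0x800280030, nat_lit 0x11100, nat_lit 1, nat_lit 4, nat_lit 0x46⟩ (t14_3494) (t14_11686)) (.node ⟨nat_lit 6, nat_lit 0x200010, nat_lit 0x111102, nat_lit 2, nat_lit 3, nat_lit 0x48⟩ (t14_7590) (.nil))))) (.node ⟨nat_lit 6, nat_lit 0x1000200020, nat_lit 0x32011, nat_lit 0, nat_lit 4, nat_lit 0x49⟩ (.node ⟨nat_lit 6, nat_lit 0x200032, nat_lit 0x212110, nat_lit 0, nat_lit 4, nat_lit 0x49⟩ (.node ⟨nat_lit 4, nat_lit 0x40008, nat_lit 0x1111, nat_lit 0xd, nat_lit 4, nat_lit 0x48⟩ (.node ⟨nat_lit 8, nat_lit 0x800080, nat_lit 0x3111100, nat_lit 1, nat_lit 4, nat_lit 0x4d⟩ (t14_934) (t14_9126)) (.node ⟨nat_lit 5, nat_lit 0x1000140014, nat_lit 0x12220, nat_lit 5, nat_lit 4, nat_lit 0x48⟩ (t14_5030) (t14_13222))) (.node ⟨nat_lit 5, nat_lit 0x100010, nat_lit 0x11130, nat_lit 0, nat_lit 3, nat_lit 0x47⟩ (.node ⟨nat_lit 6, nat_lit 0x800300030,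 nat_lit 0x111221, nat_lit 0, nat_lit 4, nat_lit 0x47⟩ (t14_2982) (t14_11174)) (.node ⟨nat_lit 8, nat_lit 0x4000400080008800e000c8, nat_lit 0x10112120, nat_lit 0, nat_lit 4, nat_lit 0x47⟩ (t14_7078) (t14_15270)))) (.node ⟨nat_lit 4, nat_lit 8, nat_lit 0x2110, nat_lit 7, nat_lit 4, nat_lit 0x48⟩ (.node ⟨nat_lit 6, nat_lit 0x200038, nat_lit 0x121012, nat_lit 0, nat_lit 4, nat_lit 0x48⟩ (.node ⟨nat_lit 6, nat_lit 0x800080030, nat_lit 0x110003, nat_lit 2, nat_lit 4, nat_lit 0x47⟩ (t14_1958) (t14_10150)) (.node ⟨nat_lit 6, nat_lit 0x1000100020, nat_lit 0x12003, nat_lit 0, nat_lit 4, nat_lit 0x48⟩ (t14_6054) (t14_14246))) (.node ⟨nat_lit 5, nat_lit 0x1000100014, nat_lit 0x2111, nat_lit 6, nat_lit 4, nat_lit 0x47⟩ (.node ⟨nat_lit 6, nat_lit 0x200032, nat_lit 0x1000, nat_lit 0, nat_lit 4, nat_lit 0x45⟩ (t14_4006) (t14_12198)) (.node ⟨nat_lit 8, nat_lit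 0x4000400040008000600084, nat_lit 0x10120110, nat_lit 0, nat_lit 4, nat_lit 0x48⟩ (t14_8102) (.nil)))))
def t14_102 : Tr := .node ⟨nat_lit 6, nat_lit 0x2000080030, nat_lit 0x12111, nat_lit 3, nat_lit 4, nat_lit 0x48⟩ (.nil) (.nil)
def t14_8294 : Tr := .node ⟨nat_lit 7, nat_lit 0x10004000440060, nat_lit 0x200, nat_lit 0, nat_lit 4, nat_lit 0x46⟩ (.nil) (.nil)
def t14_4198 : Tr := .node ⟨nat_lit 9, nat_lit 0x10001000100004000800120, nat_lit 0x11120110, nat_lit 0, nat_lit 4, nat_lit 0x4a⟩ (.nil) (.nil)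
def t14_12390 : Tr := .node ⟨nat_lit 7, nat_lit 0x4000100060, nat_lit 0x1010, nat_lit 1, nat_lit 4, nat_lit 0x47⟩ (.nil) (.nil)
def t14_2150 : Tr := .node ⟨nat_lit 7, nat_lit 0x1000500060, nat_lit 0x1111220, nat_lit 0, nat_lit 4, nat_lit 0x49⟩ (.nil) (.nil)
def t14_10342 : Tr := .node ⟨nat_lit 7, nat_lit 0x4800300070, nat_lit 0x1100102, nat_lit 0, nat_lit 4, nat_lit 0x46⟩ (.nil) (.nil)
def t14_6246 : Tr := .node ⟨nat_lit 3, nat_lit 4, nat_lit 0x111, nat_lit 0xf, nat_lit 4, nat_lit 0x48⟩ (.nil) (.nil)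
def t14_14438 : Tr := .node ⟨nat_lit 8, nat_lit 0x800040004000a000c8, nat_lit 0x1221, nat_lit 0, nat_lit 4, nat_lit 0x47⟩ (.nil) (.nil)
def t14_1126 : Tr := .node ⟨nat_lit 5, nat_lit 0x40018, nat_lit 0x10122, nat_lit 4, nat_lit 4, nat_lit 0x47⟩ (.nil) (.nil)
def t14_9318 : Tr := .node ⟨nat_lit 8, nat_lit 0x1000a000a000c0, nat_lit 0x1000221, nat_lit 0, nat_lit 4, nat_lit 0x47⟩ (.nil) (.nil)
def t14_5222 : Tr := .node ⟨nat_lit 7, nat_lit 0x40004000400048, nat_lit 0x112101, nat_lit 5, nat_lit 4, nat_lit 0x4a⟩ (.nil) (.nil)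
def t14_13414 : Tr := .node ⟨nat_lit 6, nat_lit 0x800300030, nat_lit 0x430, nat_lit 0, nat_lit 4, nat_lit 0x46⟩ (.nil) (.nil)
def t14_3174 : Tr := .node ⟨nat_lit 8, nat_lit 0x80002000c000d000d0, nat_lit 0x10110211, nat_lit 0, nat_lit 4, nat_lit 0x47⟩ (.nil) (.nil)
def t14_11366 : Tr := .node ⟨nat_lit 7, nat_lit 0x1000400060, nat_lit 0x101010, nat_lit 2, nat_lit 3, nat_lit 0x47⟩ (.nil) (.nil)
def t14_7270 : Tr := .node ⟨nat_lit 8, nat_lit 0x8000900090006000d0, nat_lit 0x200012, nat_lit 1, nat_lit 4, nat_lit 0x46⟩ (.nil) (.nil)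
def t14_15462 : Tr := .node ⟨nat_lit 9, nat_lit 0x800040002000200100, nat_lit 0x100000101, nat_lit 8, nat_lit 4, nat_lit 0x4b⟩ (.nil) (.nil)
def t14_614 : Tr := .node ⟨nat_lit 6, nat_lit 0x280030, nat_lit 0x10220, nat_lit 2, nat_lit 4, nat_lit 0x47⟩ (.nil) (.nil)
def t14_8806 : Tr := .node ⟨nat_lit 6, nat_lit 0x20002000280028, nat_lit 0x11031, nat_lit 8, nat_lit 4, nat_lit 0x48⟩ (.nil) (.nil)
def t14_4710 : Tr := .node ⟨nat_lit 7, nat_lit 0x10001000600060, nat_lit 0x1001010, nat_lit 0, nat_lit 4, nat_lit 0x46⟩ (.nil) (.nil)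
def t14_12902 : Tr := .node ⟨nat_lit 7, nat_lit 0x40002000480060, nat_lit 0x112100, nat_lit 1, nat_lit 4, nat_lit 0x48⟩ (.nil) (.nil)
def t14_2662 : Tr := .node ⟨nat_lit 5, nat_lit 0x1000080018, nat_lit 0x1402, nat_lit 1, nat_lit 3, nat_lit 0x45⟩ (.nil) (.nil)
def t14_10854 : Tr := .node ⟨nat_lit 9, nat_lit 0x10001000040004001200180, nat_lit 0x10201002, nat_lit 1, nat_lit 4, nat_lit 0x49⟩ (.nil) (.nil)
def t14_6758 : Tr := .node ⟨nat_lit 7, nat_lit 0x600018, nat_lit 0x1020110, nat_lit 1, nat_lit 4, nat_lit 0x49⟩ (.nil) (.nil)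
def t14_14950 : Tr := .node ⟨nat_lit 7, nat_lit 0x200040004000400048, nat_lit 0x1111, nat_lit 5, nat_lit 4, nat_lit 0x48⟩ (.nil) (.nil)
def t14_1638 : Tr := .node ⟨nat_lit 7, nat_lit 0x40002000600064, nat_lit 0x12120, nat_lit 2, nat_lit 4, nat_lit 0x47⟩ (.nil) (.nil)
def t14_9830 : Tr := .node ⟨nat_lit 7, nat_lit 0x600060, nat_lit 0x1011022, nat_lit 0, nat_lit 4, nat_lit 0x49⟩ (.nil) (.nil)
def t14_5734 : Tr := .node ⟨nat_lit 7, nat_lit 0x20004000680070, nat_lit 0x10102, nat_lit 1, nat_lit 4, nat_lit 0x45⟩ (.nil) (.nil)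
def t14_13926 : Tr := .node ⟨nat_lit 8, nat_lit 0x80004000a000b000d0, nat_lit 0x10000202, nat_lit 0, nat_lit 4, nat_lit 0x46⟩ (.nil) (.nil)
def t14_3686 : Tr := .node ⟨nat_lit 9, nat_lit 0x100010000800120012001a0, nat_lit 0x2010201, nat_lit 0, nat_lit 4, nat_lit 0x48⟩ (.nil) (.nil)
def t14_11878 : Tr := .node ⟨nat_lit 5, nat_lit 0x1000100010, nat_lit 0x11100, nat_lit 3, nat_lit 3, nat_lit 0x46⟩ (.nil) (.nil)
def t14_7782 : Tr := .node ⟨nat_lit 6, nat_lit 0x300030, nat_lit 0x1132, nat_lit 2, nat_lit 4, nat_lit 0x47⟩ (.nil) (.nil)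
def t9_102 : Tr := .node ⟨nat_lit 5, nat_lit 0x100018, nat_lit 0x11111, nat_lit 3, nat_lit 3, nat_lit 0x46⟩ (.node ⟨nat_lit 5, nat_lit 0x10, nat_lit 0x13110, nat_lit 9, nat_lit 4, nat_lit 0x4b⟩ (.node ⟨nat_lit 7, nat_lit 0x20004000600060, nat_lit 0x31120, nat_lit 1, nat_lit 4, nat_lit 0x48⟩ (.node ⟨nat_lit 6, nat_lit 0x200030, nat_lit 0x102110, nat_lit 1, nat_lit 4, nat_lit 0x48⟩ (.node ⟨nat_lit 7, nat_lit 0x10004000200062, nat_lit 0x1211121, nat_lit 0, nat_lit 4, nat_lit 0x49⟩ (t14_102) (t14_8294)) (.node ⟨nat_lit 6, nat_lit 0x80030, nat_lit 0x200002, nat_lit 0, nat_lit 4, nat_lit 0x47⟩ (t14_4198) (t14_12390))) (.node ⟨nat_lit 7, nat_lit 0x200040004000300048, nat_lit 0x1211100, nat_lit 0, nat_lit 4, nat_lit 0x48⟩ (.node ⟨nat_lit 5, nat_lit 0x800100010, nat_lit 0x1030, nat_lit 0, nat_lit 3, nat_lit 0x45⟩ (t14_2150) (t14_10342)) (.node ⟨nat_lit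 7, nat_lit 0x1000500060, nat_lit 0x102211, nat_lit 1, nat_lit 4, nat_lit 0x48⟩ (t14_6246) (t14_14438)))) (.node ⟨nat_lit 5, nat_lit 0x10, nat_lit 0x12200, nat_lit 0, nat_lit 4, nat_lit 0x48⟩ (.node ⟨nat_lit 6, nat_lit 0x200030, nat_lit 0x211121, nat_lit 3, nat_lit 4, nat_lit 0x4a⟩ (.node ⟨nat_lit 7, nat_lit 0x40001000480060, nat_lit 0x1113111, nat_lit 0, nat_lit 4, nat_lit 0x49⟩ (t14_1126) (t14_9318)) (.node ⟨nat_lit 7, nat_lit 0x600060, nat_lit 0x1121121, nat_lit 0, nat_lit 4, nat_lit 0x4a⟩ (t14_5222) (t14_13414))) (.node ⟨nat_lit 4, nat_lit 8, nat_lit 0x1220, nat_lit 8, nat_lit 4, nat_lit 0x49⟩ (.node ⟨nat_lit 6, nat_lit 0x800200032, nat_lit 0x201010, nat_lit 1, nat_lit 4, nat_lit 0x47⟩ (t14_3174) (t14_11366)) (.node ⟨nat_lit 6, nat_lit 0x200010, nat_lit 0x1110, nat_lit 0, nat_lit 4, nat_lit 0x47⟩ (t14_7270) (t14_15462))))) (.node ⟨nat_lit 6,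 nat_lit 0x2000080030, nat_lit 0x3020, nat_lit 1, nat_lit 4, nat_lit 0x48⟩ (.node ⟨nat_lit 6, nat_lit 0x2000100024, nat_lit 0x211202, nat_lit 0, nat_lit 4, nat_lit 0x49⟩ (.node ⟨nat_lit 4, nat_lit 0xc, nat_lit 0x1020, nat_lit 5, nat_lit 4, nat_lit 0x46⟩ (.node ⟨nat_lit 5, nat_lit 0x100018, nat_lit 0x21120, nat_lit 7, nat_lit 4, nat_lit 0x49⟩ (t14_614) (t14_8806)) (.node ⟨nat_lit 7, nat_lit 0x10001000400060, nat_lit 0x1012202, nat_lit 1, nat_lit 4, nat_lit 0x49⟩ (t14_4710) (t14_12902))) (.node ⟨nat_lit 5, nat_lit 0x100018001c, nat_lit 0x10121, nat_lit 4, nat_lit 4, nat_lit 0x45⟩ (.node ⟨nat_lit 5, nat_lit 0x140018, nat_lit 0x11231, nat_lit 5, nat_lit 4, nat_lit 0x48⟩ (t14_2662) (t14_10854)) (.node ⟨nat_lit 7, nat_lit 0x40004000200020, nat_lit 0x1012210, nat_lit 4, nat_lit 4, nat_lit 0x4a⟩ (t14_6758) (t14_14950)))) (.node ⟨nat_lit 6, nat_lit 0x2000200010,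 nat_lit 0x21201, nat_lit 4, nat_lit 4, nat_lit 0x49⟩ (.node ⟨nat_lit 6, nat_lit 0x1000080020, nat_lit 0x221020, nat_lit 0, nat_lit 4, nat_lit 0x49⟩ (.node ⟨nat_lit 4, nat_lit 0xc, nat_lit 0x21, nat_lit 4, nat_lit 4, nat_lit 0x45⟩ (t14_1638) (t14_9830)) (.node ⟨nat_lit 7, nat_lit 0x40001000500068, nat_lit 0x202002, nat_lit 1, nat_lit 4, nat_lit 0x47⟩ (t14_5734) (t14_13926))) (.node ⟨nat_lit 6, nat_lit 0x300030, nat_lit 0x102020, nat_lit 0, nat_lit 4, nat_lit 0x47⟩ (.node ⟨nat_lit 7, nat_lit 0x40001000100060, nat_lit 0x10100, nat_lit 1, nat_lit 4, nat_lit 0x47⟩ (t14_3686) (t14_11878)) (.node ⟨nat_lit 8, nat_lit 0x8000c000c0, nat_lit 0x10111121, nat_lit 0, nat_lit 4, nat_lit 0x4a⟩ (t14_7782) (.nil)))))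
def t14_358 : Tr := .node ⟨nat_lit 7, nat_lit 0x4000100060, nat_lit 0x1112121, nat_lit 1, nat_lit 4, nat_lit 0x4a⟩ (.nil) (.nil)
def t14_8550 : Tr := .node ⟨nat_lit 6, nat_lit 0x20002800300038, nat_lit 0x1102, nat_lit 5, nat_lit 4, nat_lit 0x45⟩ (.nil) (.nil)
def t14_4454 : Tr := .node ⟨nat_lit 8, nat_lit 0x4000400080008000880060, nat_lit 0x11101200, nat_lit 2, nat_lit 4, nat_lit 0x49⟩ (.nil) (.nil)
def t14_12646 : Tr := .node ⟨nat_lit 9, nat_lit 0x8000800100010000a0011001c0, nat_lit 0x11021000, nat_lit 1, nat_lit 4, nat_lit 0x48⟩ (.nil) (.nil)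
def t14_2406 : Tr := .node ⟨nat_lit 8, nat_lit 0x8000c000c800c8, nat_lit 0x10210210, nat_lit 0, nat_lit 4, nat_lit 0x48⟩ (.nil) (.nil)
def t14_10598 : Tr := .node ⟨nat_lit 8, nat_lit 0x80008800c000c8, nat_lit 0x110200, nat_lit 0, nat_lit 4, nat_lit 0x47⟩ (.nil) (.nil)
def t14_6502 : Tr := .node ⟨nat_lit 7, nat_lit 0x10001000400062, nat_lit 0x1100011, nat_lit 1, nat_lit 4, nat_lit 0x47⟩ (.nil) (.nil)
def t14_14694 : Tr := .node ⟨nat_lit 9, nat_lit 0x1000080008001400140019001a0, nat_lit 0x1111011, nat_lit 0, nat_lit 4, nat_lit 0x46⟩ (.nil) (.nil)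
def t14_1382 : Tr := .node ⟨nat_lit 6, nat_lit 0x800300030, nat_lit 0x1110, nat_lit 3, nat_lit 4, nat_lit 0x46⟩ (.nil) (.nil)
def t14_9574 : Tr := .node ⟨nat_lit 7, nat_lit 0x4000600060, nat_lit 0x111220, nat_lit 1, nat_lit 3, nat_lit 0x47⟩ (.nil) (.nil)
def t14_5478 : Tr := .node ⟨nat_lit 8, nat_lit 0x400080008800500060, nat_lit 0x10030011, nat_lit 1, nat_lit 4, nat_lit 0x48⟩ (.nil) (.nil)
def t14_13670 : Tr := .node ⟨nat_lit 7, nat_lit 0x1000400060, nat_lit 0x2020, nat_lit 4, nat_lit 4, nat_lit 0x49⟩ (.nil) (.nil)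
def t14_3430 : Tr := .node ⟨nat_lit 5, nat_lit 0x40018, nat_lit 0x11311, nat_lit 1, nat_lit 4, nat_lit 0x48⟩ (.nil) (.nil)
def t14_11622 : Tr := .node ⟨nat_lit 9, nat_lit 0x10000400040012001800180, nat_lit 0x210110, nat_lit 1, nat_lit 4, nat_lit 0x48⟩ (.nil) (.nil)
def t14_7526 : Tr := .node ⟨nat_lit 4, nat_lit 0x80008000c, nat_lit 0x220, nat_lit 0xd, nat_lit 4, nat_lit 0x47⟩ (.nil) (.nil)
def t14_870 : Tr := .node ⟨nat_lit 7, nat_lit 0x10001000600050, nat_lit 0x1002220, nat_lit 1, nat_lit 4, nat_lit 0x48⟩ (.nil) (.nil)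
def t14_9062 : Tr := .node ⟨nat_lit 6, nat_lit 0x2800300030, nat_lit 0x1231, nat_lit 3, nat_lit 4, nat_lit 0x46⟩ (.nil) (.nil)
def t14_4966 : Tr := .node ⟨nat_lit 7, nat_lit 0x4000600060, nat_lit 0x111310, nat_lit 1, nat_lit 4, nat_lit 0x49⟩ (.nil) (.nil)
def t14_13158 : Tr := .node ⟨nat_lit 6, nat_lit 0x20001000280034, nat_lit 0x2100, nat_lit 6, nat_lit 4, nat_lit 0x46⟩ (.nil) (.nil)
def t14_2918 : Tr := .node ⟨nat_lit 8, nat_lit 0x40002000c000a000d0, nat_lit 0x112021, nat_lit 0, nat_lit 4, nat_lit 0x47⟩ (.nil) (.nil)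
def t14_11110 : Tr := .node ⟨nat_lit 6, nat_lit 0x2000100024, nat_lit 0x11112, nat_lit 2, nat_lit 4, nat_lit 0x47⟩ (.nil) (.nil)
def t14_7014 : Tr := .node ⟨nat_lit 5, nat_lit 0x1000100018, nat_lit 0x11211, nat_lit 7, nat_lit 4, nat_lit 0x48⟩ (.nil) (.nil)
def t14_15206 : Tr := .node ⟨nat_lit 7, nat_lit 0x40001000600068, nat_lit 0x101012, nat_lit 1, nat_lit 4, nat_lit 0x46⟩ (.nil) (.nil)
def t14_1894 : Tr := .node ⟨nat_lit 6, nat_lit 0x1000300028, nat_lit 0x12012, nat_lit 2, nat_lit 4, nat_lit 0x47⟩ (.nil) (.nil)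
def t14_10086 : Tr := .node ⟨nat_lit 6, nat_lit 0x2000300030, nat_lit 0x2220, nat_lit 6, nat_lit 4, nat_lit 0x48⟩ (.nil) (.nil)
def t14_5990 : Tr := .node ⟨nat_lit 5, nat_lit 0x180018, nat_lit 0x21210, nat_lit 5, nat_lit 4, nat_lit 0x48⟩ (.nil) (.nil)
def t14_14182 : Tr := .node ⟨nat_lit 7, nat_lit 0x10002000500064, nat_lit 0x1101021, nat_lit 2, nat_lit 4, nat_lit 0x47⟩ (.nil) (.nil)
def t14_3942 : Tr := .node ⟨nat_lit 6, nat_lit 0x20002000100028, nat_lit 0x12000, nat_lit 3, nat_lit 4, nat_lit 0x47⟩ (.nil) (.nil)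
def t14_12134 : Tr := .node ⟨nat_lit 7, nat_lit 0x20001000500068, nat_lit 0x101110, nat_lit 1, nat_lit 4, nat_lit 0x46⟩ (.nil) (.nil)
def t14_8038 : Tr := .node ⟨nat_lit 4, nat_lit 0x8000a, nat_lit 0x113, nat_lit 8, nat_lit 4, nat_lit 0x46⟩ (.nil) (.nil)
def t9_358 : Tr := .node ⟨nat_lit 5, nat_lit 0, nat_lit 0x33211, nat_lit 1, nat_lit 4, nat_lit 0x4c⟩ (.node ⟨nat_lit 6, nat_lit 0x200020, nat_lit 0x132111, nat_lit 1, nat_lit 4, nat_lit 0x4b⟩ (.node ⟨nat_lit 3, nat_lit 6, nat_lit 0x223, nat_lit 7, nat_lit 4, nat_lit 0x47⟩ (.node ⟨nat_lit 7, nat_lit 0x40002000480064, nat_lit 0x1112200, nat_lit 0, nat_lit 4, nat_lit 0x48⟩ (.node ⟨nat_lit 6, nat_lit 0x20001000280028, nat_lit 0x121111, nat_lit 5, nat_lit 4, nat_lit 0x48⟩ (t14_358) (t14_8550)) (.node ⟨nat_lit 7, nat_lit 0x40002000200048, nat_lit 0x1102111, nat_lit 1, nat_lit 4, nat_lit 0x49⟩ (t14_4454)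 (t14_12646))) (.node ⟨nat_lit 5, nat_lit 0x100018, nat_lit 0x11120, nat_lit 2, nat_lit 3, nat_lit 0x46⟩ (.node ⟨nat_lit 4, nat_lit 0x80004, nat_lit 0x2103, nat_lit 4, nat_lit 3, nat_lit 0x46⟩ (t14_2406) (t14_10598)) (.node ⟨nat_lit 6, nat_lit 0x20002000100038, nat_lit 0x100230, nat_lit 3, nat_lit 4, nat_lit 0x47⟩ (t14_6502) (t14_14694)))) (.node ⟨nat_lit 5, nat_lit 0x40018, nat_lit 0x20112, nat_lit 0, nat_lit 4, nat_lit 0x46⟩ (.node ⟨nat_lit 7, nat_lit 0x400060, nat_lit 0x222102, nat_lit 0, nat_lit 4, nat_lit 0x4b⟩ (.node ⟨nat_lit 7, nat_lit 0x1000080060, nat_lit 0x1001004, nat_lit 1, nat_lit 4, nat_lit 0x48⟩ (t14_1382) (t14_9574)) (.node ⟨nat_lit 7, nat_lit 0x40004000200060, nat_lit 0x122112, nat_lit 0, nat_lit 4, nat_lit 0x49⟩ (t14_5478) (t14_13670))) (.node ⟨nat_lit 5, nat_lit 0x18, nat_lit 0x30112, nat_lit 4, nat_lit 4, nat_lit 0x49⟩ (.node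 ⟨nat_lit 7, nat_lit 0x10004000440060, nat_lit 0x200103, nat_lit 3, nat_lit 4, nat_lit 0x48⟩ (t14_3430) (t14_11622)) (.node ⟨nat_lit 8, nat_lit 0x8000400040002000c0, nat_lit 0x101111, nat_lit 0, nat_lit 4, nat_lit 0x48⟩ (t14_7526) (.nil))))) (.node ⟨nat_lit 6, nat_lit 0x20, nat_lit 0x31110, nat_lit 4, nat_lit 4, nat_lit 0x4b⟩ (.node ⟨nat_lit 5, nat_lit 0x18, nat_lit 0x20211, nat_lit 5, nat_lit 4, nat_lit 0x49⟩ (.node ⟨nat_lit 5, nat_lit 0x100018, nat_lit 0x1121, nat_lit 1, nat_lit 3, nat_lit 0x45⟩ (.node ⟨nat_lit 6, nat_lit 0x30000c, nat_lit 0x2120, nat_lit 1, nat_lit 4, nat_lit 0x47⟩ (t14_870) (t14_9062)) (.node ⟨nat_lit 7, nat_lit 0x500060, nat_lit 0x1112120, nat_lit 1, nat_lit 4, nat_lit 0x4a⟩ (t14_4966) (t14_13158))) (.node ⟨nat_lit 7, nat_lit 0x40001000100060, nat_lit 0x1102101, nat_lit 0, nat_lit 4, nat_lit 0x48⟩ (.node ⟨nat_lit 7, nat_lit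 0x200040003000480068, nat_lit 0x1112012, nat_lit 1, nat_lit 4, nat_lit 0x47⟩ (t14_2918) (t14_11110)) (.node ⟨nat_lit 8, nat_lit 0x200080008400c0, nat_lit 0x11020202, nat_lit 0, nat_lit 4, nat_lit 0x4a⟩ (t14_7014) (t14_15206)))) (.node ⟨nat_lit 0, nat_lit 0, nat_lit 0, nat_lit 0xf, nat_lit 3, nat_lit 0x42⟩ (.node ⟨nat_lit 7, nat_lit 0x40001000600068, nat_lit 0x1211111, nat_lit 0, nat_lit 4, nat_lit 0x48⟩ (.node ⟨nat_lit 8, nat_lit 0x80008000800040009000e0, nat_lit 0x1110311, nat_lit 1, nat_lit 4, nat_lit 0x48⟩ (t14_1894) (t14_10086)) (.node ⟨nat_lit 7, nat_lit 0x40002000480060, nat_lit 0x21002, nat_lit 1, nat_lit 4, nat_lit 0x47⟩ (t14_5990) (t14_14182))) (.node ⟨nat_lit 6, nat_lit 0x2000080034, nat_lit 0x10202, nat_lit 2, nat_lit 4, nat_lit 0x46⟩ (.node ⟨nat_lit 7, nat_lit 0x10005000600060, nat_lit 0x112300, nat_lit 0, nat_lit 4, nat_lit 0x47⟩ (t14_3942)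 (t14_12134)) (.node ⟨nat_lit 9, nat_lit 0x100002000400180, nat_lit 0x101012011, nat_lit 0, nat_lit 4, nat_lit 0x4b⟩ (t14_8038) (.nil)))))
def t14_230 : Tr := .node ⟨nat_lit 5, nat_lit 0x180018, nat_lit 0x22121, nat_lit 2, nat_lit 3, nat_lit 0x47⟩ (.nil) (.nil)
def t14_8422 : Tr := .node ⟨nat_lit 6, nat_lit 0x20001000280030, nat_lit 0x2031, nat_lit 6, nat_lit 4, nat_lit 0x47⟩ (.nil) (.nil)
def t14_4326 : Tr := .node ⟨nat_lit 8, nat_lit 0x8000200020004000c0, nat_lit 0x11011002, nat_lit 1, nat_lit 4, nat_lit 0x49⟩ (.nil) (.nil)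
def t14_12518 : Tr := .node ⟨nat_lit 7, nat_lit 0x30005000600060, nat_lit 0x10420, nat_lit 0, nat_lit 4, nat_lit 0x46⟩ (.nil) (.nil)
def t14_2278 : Tr := .node ⟨nat_lit 9, nat_lit 0x8000800100010000c000a00110, nat_lit 0x11020002, nat_lit 0, nat_lit 4, nat_lit 0x48⟩ (.nil) (.nil)
def t14_10470 : Tr := .node ⟨nat_lit 7, nat_lit 0x200040004800300060, nat_lit 0x10022, nat_lit 0, nat_lit 4, nat_lit 0x45⟩ (.nil) (.nil)
def t14_6374 : Tr := .node ⟨nat_lit 4, nat_lit 0x80004, nat_lit 2, nat_lit 6, nat_lit 4, nat_lit 0x45⟩ (.nil) (.nil)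
def t14_14566 : Tr := .node ⟨nat_lit 5, nat_lit 0x100010, nat_lit 0x21111, nat_lit 6, nat_lit 3, nat_lit 0x48⟩ (.nil) (.nil)
def t14_1254 : Tr := .node ⟨nat_lit 6, nat_lit 0x800200030, nat_lit 0x100102, nat_lit 0, nat_lit 3, nat_lit 0x45⟩ (.nil) (.nil)
def t14_9446 : Tr := .node ⟨nat_lit 7, nat_lit 0x400040004800600070, nat_lit 0x111020, nat_lit 4, nat_lit 4, nat_lit 0x47⟩ (.nil) (.nil)
def t14_5350 : Tr := .node ⟨nat_lit 6, nat_lit 0x30000c, nat_lit 0x1110, nat_lit 1, nat_lit 4, nat_lit 0x46⟩ (.nil) (.nil)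
def t14_13542 : Tr := .node ⟨nat_lit 6, nat_lit 0x2000080034, nat_lit 0x10110, nat_lit 0, nat_lit 4, nat_lit 0x45⟩ (.nil) (.nil)
def t14_3302 : Tr := .node ⟨nat_lit 8, nat_lit 0x200080008000c000c8, nat_lit 0x1002012, nat_lit 1, nat_lit 4, nat_lit 0x48⟩ (.nil) (.nil)
def t14_11494 : Tr := .node ⟨nat_lit 7, nat_lit 0x40002000500068, nat_lit 0x1000110, nat_lit 4, nat_lit 4, nat_lit 0x47⟩ (.nil) (.nil)
def t14_7398 : Tr := .node ⟨nat_lit 6, nat_lit 0x2000100030, nat_lit 0x112012, nat_lit 4, nat_lit 4, nat_lit 0x49⟩ (.nil) (.nil)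
def t14_15590 : Tr := .node ⟨nat_lit 2, nat_lit 0, nat_lit 0x22, nat_lit 0x16, nat_lit 4, nat_lit 0x49⟩ (.nil) (.nil)
def t14_742 : Tr := .node ⟨nat_lit 5, nat_lit 0x40018, nat_lit 0x10031, nat_lit 1, nat_lit 3, nat_lit 0x45⟩ (.nil) (.nil)
def t14_8934 : Tr := .node ⟨nat_lit 7, nat_lit 0x10001000600060, nat_lit 0x10030, nat_lit 0, nat_lit 4, nat_lit 0x46⟩ (.nil) (.nil)
def t14_4838 : Tr := .node ⟨nat_lit 9, nat_lit 0x400100008000200180, nat_lit 0x10100202, nat_lit 1, nat_lit 4, nat_lit 0x4a⟩ (.nil) (.nil)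
def t14_13030 : Tr := .node ⟨nat_lit 6, nat_lit 0x2000080030, nat_lit 0x10030, nat_lit 3, nat_lit 4, nat_lit 0x47⟩ (.nil) (.nil)
def t14_2790 : Tr := .node ⟨nat_lit 7, nat_lit 0x4000600064, nat_lit 0x10212, nat_lit 0, nat_lit 4, nat_lit 0x47⟩ (.nil) (.nil)
def t14_10982 : Tr := .node ⟨nat_lit 7, nat_lit 0x10004000600050, nat_lit 0x11022, nat_lit 3, nat_lit 3, nat_lit 0x46⟩ (.nil) (.nil)
def t14_6886 : Tr := .node ⟨nat_lit 7, nat_lit 0x4000400044, nat_lit 0x111102, nat_lit 2, nat_lit 4, nat_lit 0x49⟩ (.nil) (.nil)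
def t14_15078 : Tr := .node ⟨nat_lit 6, nat_lit 0x800300030, nat_lit 0x210031, nat_lit 0, nat_lit 4, nat_lit 0x48⟩ (.nil) (.nil)
def t14_1766 : Tr := .node ⟨nat_lit 7, nat_lit 0x40001000100060, nat_lit 0x200103, nat_lit 1, nat_lit 4, nat_lit 0x48⟩ (.nil) (.nil)
def t14_9958 : Tr := .node ⟨nat_lit 8, nat_lit 0x2000c000c000c0, nat_lit 0x10330, nat_lit 0, nat_lit 4, nat_lit 0x48⟩ (.nil) (.nil)
def t14_5862 : Tr := .node ⟨nat_lit 7, nat_lit 0x4000200044, nat_lit 0x111011, nat_lit 0, nat_lit 4, nat_lit 0x48⟩ (.nil) (.nil)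
def t14_14054 : Tr := .node ⟨nat_lit 7, nat_lit 0x2000400062, nat_lit 0x1011100, nat_lit 1, nat_lit 4, nat_lit 0x48⟩ (.nil) (.nil)
def t14_3814 : Tr := .node ⟨nat_lit 8, nat_lit 0x4000800050008800c0, nat_lit 0x1201012, nat_lit 1, nat_lit 4, nat_lit 0x48⟩ (.nil) (.nil)
def t14_12006 : Tr := .node ⟨nat_lit 8, nat_lit 0x800020009000c000a0, nat_lit 0x121110, nat_lit 1, nat_lit 4, nat_lit 0x48⟩ (.nil) (.nil)
def t14_7910 : Tr := .node ⟨nat_lit 7, nat_lit 0x400020005000500060, nat_lit 0x110212, nat_lit 3, nat_lit 4, nat_lit 0x47⟩ (.nil) (.nil)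
def t9_230 : Tr := .node ⟨nat_lit 4, nat_lit 0, nat_lit 0x3210, nat_lit 0, nat_lit 4, nat_lit 0x48⟩ (.node ⟨nat_lit 6, nat_lit 0x1000200022, nat_lit 0x301013, nat_lit 0, nat_lit 4, nat_lit 0x49⟩ (.node ⟨nat_lit 6, nat_lit 0x20001000280028, nat_lit 0x311111, nat_lit 3, nat_lit 4, nat_lit 0x49⟩ (.node ⟨nat_lit 6, nat_lit 0x1000280034, nat_lit 0x11230, nat_lit 0, nat_lit 4, nat_lit 0x46⟩ (.node ⟨nat_lit 7, nat_lit 0x400020002000500050, nat_lit 0x2011011, nat_lit 2, nat_lit 4, nat_lit 0x48⟩ (t14_230) (t14_8422)) (.node ⟨nat_lit 7, nat_lit 0x40002000600068, nat_lit 0x111023, nat_lit 0, nat_lit 4, nat_lit 0x47⟩ (t14_4326) (t14_12518))) (.node ⟨nat_lit 6, nat_lit 0x8000c0030, nat_lit 0x221102, nat_lit 0, nat_lit 4, nat_lit 0x48⟩ (.node ⟨nat_lit 7, nat_lit 0x40004000200070, nat_lit 0x112113, nat_lit 1, nat_lit 4, nat_lit 0x48⟩ (t14_2278) (t14_10470)) (.node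 ⟨nat_lit 7, nat_lit 0x2000500064, nat_lit 0x1201120, nat_lit 2, nat_lit 4, nat_lit 0x49⟩ (t14_6374) (t14_14566)))) (.node ⟨nat_lit 7, nat_lit 0x40, nat_lit 0x211110, nat_lit 3, nat_lit 4, nat_lit 0x4c⟩ (.node ⟨nat_lit 7, nat_lit 0x400060, nat_lit 0x1211121, nat_lit 0, nat_lit 4, nat_lit 0x4b⟩ (.node ⟨nat_lit 6, nat_lit 0x800200030, nat_lit 0x110003, nat_lit 5, nat_lit 4, nat_lit 0x48⟩ (t14_1254) (t14_9446)) (.node ⟨nat_lit 7, nat_lit 0x400040004000200020, nat_lit 0x121022, nat_lit 2, nat_lit 4, nat_lit 0x49⟩ (t14_5350) (t14_13542))) (.node ⟨nat_lit 4, nat_lit 8, nat_lit 0x214, nat_lit 1, nat_lit 3, nat_lit 0x46⟩ (.node ⟨nat_lit 6, nat_lit 0x1000300028, nat_lit 0x111004, nat_lit 0, nat_lit 4, nat_lit 0x47⟩ (t14_3302) (t14_11494)) (.node ⟨nat_lit 6, nat_lit 0x1000280030, nat_lit 0x101021, nat_lit 1, nat_lit 4, nat_lit 0x46⟩ (t14_7398) (t14_15590)))))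 (.node ⟨nat_lit 5, nat_lit 0x180018, nat_lit 0x310, nat_lit 1, nat_lit 4, nat_lit 0x45⟩ (.node ⟨nat_lit 5, nat_lit 0x1c, nat_lit 0x21112, nat_lit 0, nat_lit 4, nat_lit 0x47⟩ (.node ⟨nat_lit 6, nat_lit 0x2000200010, nat_lit 0x102220, nat_lit 1, nat_lit 4, nat_lit 0x49⟩ (.node ⟨nat_lit 7, nat_lit 0x1000500060, nat_lit 0x212110, nat_lit 1, nat_lit 4, nat_lit 0x49⟩ (t14_742) (t14_8934)) (.node ⟨nat_lit 7, nat_lit 0x20003000500068, nat_lit 0x102002, nat_lit 1, nat_lit 4, nat_lit 0x46⟩ (t14_4838) (t14_13030))) (.node ⟨nat_lit 6, nat_lit 0x2000300034, nat_lit 0x111021, nat_lit 3, nat_lit 4, nat_lit 0x47⟩ (.node ⟨nat_lit 6, nat_lit 0x2000200030, nat_lit 0x21203, nat_lit 4, nat_lit 4, nat_lit 0x49⟩ (t14_2790) (t14_10982)) (.node ⟨nat_lit 4, nat_lit 0x80004, nat_lit 0x1024, nat_lit 1, nat_lit 3, nat_lit 0x45⟩ (t14_6886) (t14_15078)))) (.node ⟨nat_lit 6,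 nat_lit 0x300030, nat_lit 0x111121, nat_lit 1, nat_lit 4, nat_lit 0x48⟩ (.node ⟨nat_lit 7, nat_lit 0x4000100060, nat_lit 0x1011211, nat_lit 0, nat_lit 4, nat_lit 0x49⟩ (.node ⟨nat_lit 8, nat_lit 0x2000800080008800c0, nat_lit 0x1000203, nat_lit 0, nat_lit 4, nat_lit 0x48⟩ (t14_1766) (t14_9958)) (.node ⟨nat_lit 5, nat_lit 0x100018, nat_lit 0x2220, nat_lit 1, nat_lit 3, nat_lit 0x46⟩ (t14_5862) (t14_14054))) (.node ⟨nat_lit 5, nat_lit 0x80010, nat_lit 0x20232, nat_lit 1, nat_lit 3, nat_lit 0x47⟩ (.node ⟨nat_lit 6, nat_lit 0x1000300028, nat_lit 0x102004, nat_lit 1, nat_lit 4, nat_lit 0x48⟩ (t14_3814) (t14_12006)) (.node ⟨nat_lit 7, nat_lit 0x4000400070, nat_lit 0x111003, nat_lit 1, nat_lit 4, nat_lit 0x48⟩ (t14_7910) (.nil)))))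
def t14_486 : Tr := .node ⟨nat_lit 7, nat_lit 0x10002000200040, nat_lit 0x2111102, nat_lit 0, nat_lit 4, nat_lit 0x4a⟩ (.nil) (.nil)
def t14_8678 : Tr := .node ⟨nat_lit 7, nat_lit 0x40003000500060, nat_lit 0x1200, nat_lit 1, nat_lit 4, nat_lit 0x45⟩ (.nil) (.nil)
def t14_4582 : Tr := .node ⟨nat_lit 8, nat_lit 0x4000800020008800c0, nat_lit 0x1130001, nat_lit 2, nat_lit 4, nat_lit 0x49⟩ (.nil) (.nil)
def t14_12774 : Tr := .node ⟨nat_lit 5, nat_lit 0x1000140018, nat_lit 0x1310, nat_lit 6, nat_lit 4, nat_lit 0x47⟩ (.nil) (.nil)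
def t14_2534 : Tr := .node ⟨nat_lit 8, nat_lit 0x80004000a000c0, nat_lit 0x121002, nat_lit 1, nat_lit 4, nat_lit 0x49⟩ (.nil) (.nil)
def t14_10726 : Tr := .node ⟨nat_lit 7, nat_lit 0x4000400060, nat_lit 0x100210, nat_lit 0, nat_lit 3, nat_lit 0x47⟩ (.nil) (.nil)
def t14_6630 : Tr := .node ⟨nat_lit 7, nat_lit 0x40001000480068, nat_lit 0x112101, nat_lit 0, nat_lit 4, nat_lit 0x47⟩ (.nil) (.nil)
def t14_14822 : Tr := .node ⟨nat_lit 8, nat_lit 0x80004000a000a000e000e0, nat_lit 0x10021021, nat_lit 1, nat_lit 4, nat_lit 0x46⟩ (.nil) (.nil)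
def t14_1510 : Tr := .node ⟨nat_lit 9, nat_lit 0x1000080008000800040, nat_lit 0x1102101, nat_lit 1, nat_lit 4, nat_lit 0x4b⟩ (.nil) (.nil)
def t14_9702 : Tr := .node ⟨nat_lit 9, nat_lit 0x10001000080012001200110, nat_lit 0x10111110, nat_lit 0, nat_lit 4, nat_lit 0x49⟩ (.nil) (.nil)
def t14_5606 : Tr := .node ⟨nat_lit 8, nat_lit 0x2000a000c000c0, nat_lit 0x111220, nat_lit 1, nat_lit 4, nat_lit 0x48⟩ (.nil) (.nil)
def t14_13798 : Tr := .node ⟨nat_lit 8, nat_lit 0x800080004000900060, nat_lit 0x10200, nat_lit 4, nat_lit 4, nat_lit 0x48⟩ (.nil) (.nil)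
def t14_3558 : Tr := .node ⟨nat_lit 7, nat_lit 0x5000500060, nat_lit 0x11210, nat_lit 0, nat_lit 4, nat_lit 0x47⟩ (.nil) (.nil)
def t14_11750 : Tr := .node ⟨nat_lit 4, nat_lit 0x80004, nat_lit 0x34, nat_lit 4, nat_lit 4, nat_lit 0x46⟩ (.nil) (.nil)
def t14_7654 : Tr := .node ⟨nat_lit 4, nat_lit 0x8000a, nat_lit 0x112, nat_lit 6, nat_lit 4, nat_lit 0x45⟩ (.nil) (.nil)
def t14_998 : Tr := .node ⟨nat_lit 5, nat_lit 0x10001000140018, nat_lit 0x11020, nat_lit 7, nat_lit 4, nat_lit 0x46⟩ (.nil) (.nil)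
def t14_9190 : Tr := .node ⟨nat_lit 8, nat_lit 0x40008000800060009000c0, nat_lit 0x212002, nat_lit 0, nat_lit 4, nat_lit 0x47⟩ (.nil) (.nil)
def t14_5094 : Tr := .node ⟨nat_lit 9, nat_lit 0x400100010000200180, nat_lit 0x10003101, nat_lit 0, nat_lit 4, nat_lit 0x4a⟩ (.nil) (.nil)
def t14_13286 : Tr := .node ⟨nat_lit 8, nat_lit 0x8000200090009000c0, nat_lit 0x120100, nat_lit 1, nat_lit 4, nat_lit 0x48⟩ (.nil) (.nil)
def t14_3046 : Tr := .node ⟨nat_lit 6, nat_lit 0x10001000200032, nat_lit 0x103111, nat_lit 3, nat_lit 4, nat_lit 0x47⟩ (.nil) (.nil)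
def t14_11238 : Tr := .node ⟨nat_lit 7, nat_lit 0x6000500050, nat_lit 0x11140, nat_lit 0, nat_lit 4, nat_lit 0x48⟩ (.nil) (.nil)
def t14_7142 : Tr := .node ⟨nat_lit 7, nat_lit 0x20004000400064, nat_lit 0x1111111, nat_lit 3, nat_lit 4, nat_lit 0x49⟩ (.nil) (.nil)
def t14_15334 : Tr := .node ⟨nat_lit 8, nat_lit 0x4000400040008000800080, nat_lit 0x221110, nat_lit 0, nat_lit 4, nat_lit 0x49⟩ (.nil) (.nil)
def t14_2022 : Tr := .node ⟨nat_lit 7, nat_lit 0x40004000100060, nat_lit 0x13100, nat_lit 5, nat_lit 4, nat_lit 0x49⟩ (.nil) (.nil)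
def t14_10214 : Tr := .node ⟨nat_lit 7, nat_lit 0x20004000440044, nat_lit 0x10221, nat_lit 2, nat_lit 4, nat_lit 0x48⟩ (.nil) (.nil)
def t14_6118 : Tr := .node ⟨nat_lit 1, nat_lit 0, nat_lit 1, nat_lit 0xf, nat_lit 4, nat_lit 0x45⟩ (.nil) (.nil)
def t14_14310 : Tr := .node ⟨nat_lit 8, nat_lit 0x400080002000c000d0, nat_lit 0x1001040, nat_lit 1, nat_lit 4, nat_lit 0x48⟩ (.nil) (.nil)
def t14_4070 : Tr := .node ⟨nat_lit 9, nat_lit 0x4000800080010001000190, nat_lit 0x10010201, nat_lit 1, nat_lit 4, nat_lit 0x49⟩ (.nil) (.nil)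
def t14_12262 : Tr := .node ⟨nat_lit 5, nat_lit 0x1000180018, nat_lit 0x140, nat_lit 5, nat_lit 4, nat_lit 0x46⟩ (.nil) (.nil)
def t14_8166 : Tr := .node ⟨nat_lit 8, nat_lit 0x400080002000200088, nat_lit 0x2003, nat_lit 1, nat_lit 4, nat_lit 0x48⟩ (.nil) (.nil)
def t9_486 : Tr := .node ⟨nat_lit 6, nat_lit 0x20, nat_lit 0x231111, nat_lit 2, nat_lit 4, nat_lit 0x4c⟩ (.node ⟨nat_lit 6, nat_lit 0x2000080034, nat_lit 0x301101, nat_lit 1, nat_lit 4, nat_lit 0x48⟩ (.node ⟨nat_lit 5, nat_lit 0x80010, nat_lit 0x12122, nat_lit 0, nat_lit 4, nat_lit 0x48⟩ (.node ⟨nat_lit 8, nat_lit 0x80002000c0, nat_lit 0x1021002, nat_lit 0, nat_lit 4, nat_lit 0x4a⟩ (.node ⟨nat_lit 7, nat_lit 0x1000100060, nat_lit 0x2001211, nat_lit 0, nat_lit 4, nat_lit 0x49⟩ (t14_486) (t14_8678)) (.node ⟨nat_lit 5, nat_lit 0x800080010, nat_lit 0x11201, nat_lit 0xb, nat_lit 4, nat_lit 0x49⟩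 (t14_4582) (t14_12774))) (.node ⟨nat_lit 6, nat_lit 0x2000100030, nat_lit 0x111022, nat_lit 0, nat_lit 4, nat_lit 0x48⟩ (.node ⟨nat_lit 7, nat_lit 0x4000200060, nat_lit 0x1111113, nat_lit 1, nat_lit 4, nat_lit 0x4a⟩ (t14_2534) (t14_10726)) (.node ⟨nat_lit 7, nat_lit 0x400040, nat_lit 0x211121, nat_lit 1, nat_lit 4, nat_lit 0x4b⟩ (t14_6630) (t14_14822)))) (.node ⟨nat_lit 5, nat_lit 0x40018, nat_lit 0x20111, nat_lit 4, nat_lit 4, nat_lit 0x47⟩ (.node ⟨nat_lit 6, nat_lit 0x800280030, nat_lit 0x121203, nat_lit 0, nat_lit 4, nat_lit 0x48⟩ (.node ⟨nat_lit 8, nat_lit 0x800020002000c000d0, nat_lit 0x10030012, nat_lit 1, nat_lit 4, nat_lit 0x48⟩ (t14_1510) (t14_9702)) (.node ⟨nat_lit 7, nat_lit 0x20002000400040, nat_lit 0x1112110, nat_lit 3, nat_lit 4, nat_lit 0x4a⟩ (t14_5606) (t14_13798))) (.node ⟨nat_lit 7, nat_lit 0x4000400060, nat_lit 0x121002, nat_lit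 1, nat_lit 4, nat_lit 0x49⟩ (.node ⟨nat_lit 6, nat_lit 0x1000300028, nat_lit 0x10000, nat_lit 2, nat_lit 3, nat_lit 0x45⟩ (t14_3558) (t14_11750)) (.node ⟨nat_lit 5, nat_lit 0x100010, nat_lit 0x11120, nat_lit 3, nat_lit 3, nat_lit 0x47⟩ (t14_7654) (.nil))))) (.node ⟨nat_lit 5, nat_lit 0x100012, nat_lit 0x3123, nat_lit 2, nat_lit 4, nat_lit 0x48⟩ (.node ⟨nat_lit 5, nat_lit 0x10, nat_lit 0x2223, nat_lit 0, nat_lit 4, nat_lit 0x49⟩ (.node ⟨nat_lit 7, nat_lit 0x40, nat_lit 0x1111111, nat_lit 0, nat_lit 3, nat_lit 0x4a⟩ (.node ⟨nat_lit 7, nat_lit 0x20004000100044, nat_lit 0x1010311, nat_lit 1, nat_lit 4, nat_lit 0x49⟩ (t14_998) (t14_9190)) (.node ⟨nat_lit 7, nat_lit 0x40002000200048, nat_lit 0x2011220, nat_lit 0, nat_lit 4, nat_lit 0x49⟩ (t14_5094) (t14_13286))) (.node ⟨nat_lit 6, nat_lit 0x200030, nat_lit 0x101120, nat_lit 1, nat_lit 4, nat_lit 0x48⟩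 (.node ⟨nat_lit 6, nat_lit 0x2000240034, nat_lit 0x211211, nat_lit 3, nat_lit 4, nat_lit 0x49⟩ (t14_3046) (t14_11238)) (.node ⟨nat_lit 7, nat_lit 0x6000600050, nat_lit 0x11102, nat_lit 2, nat_lit 4, nat_lit 0x47⟩ (t14_7142) (t14_15334)))) (.node ⟨nat_lit 6, nat_lit 0x2000080034, nat_lit 0x201111, nat_lit 3, nat_lit 4, nat_lit 0x48⟩ (.node ⟨nat_lit 6, nat_lit 0x2000240024, nat_lit 0x211111, nat_lit 3, nat_lit 4, nat_lit 0x49⟩ (.node ⟨nat_lit 8, nat_lit 0x8000c0, nat_lit 0x10111131, nat_lit 0, nat_lit 4, nat_lit 0x4c⟩ (t14_2022) (t14_10214)) (.node ⟨nat_lit 7, nat_lit 0x2000500060, nat_lit 0x1102002, nat_lit 1, nat_lit 4, nat_lit 0x49⟩ (t14_6118) (t14_14310))) (.node ⟨nat_lit 4, nat_lit 0xc, nat_lit 0x2213, nat_lit 7, nat_lit 4, nat_lit 0x49⟩ (.node ⟨nat_lit 6, nat_lit 0x800300030, nat_lit 0x100010, nat_lit 1, nat_lit 4, nat_lit 0x45⟩ (t14_4070)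 (t14_12262)) (.node ⟨nat_lit 9, nat_lit 0x10001000040004000800120, nat_lit 0x11002110, nat_lit 2, nat_lit 4, nat_lit 0x4a⟩ (t14_8166) (.nil)))))
def t14_22 : Tr := .node ⟨nat_lit 9, nat_lit 0x100008000200040, nat_lit 0x1110010, nat_lit 1, nat_lit 4, nat_lit 0x4b⟩ (.nil) (.nil)
def t14_8214 : Tr := .node ⟨nat_lit 8, nat_lit 0x8000400040009000d0, nat_lit 0x12013, nat_lit 0, nat_lit 4, nat_lit 0x47⟩ (.nil) (.nil)
def t14_4118 : Tr := .node ⟨nat_lit 6, nat_lit 0x80030, nat_lit 0x211102, nat_lit 2, nat_lit 3, nat_lit 0x48⟩ (.nil) (.nil)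
def t14_12310 : Tr := .node ⟨nat_lit 8, nat_lit 0x20004000a000a000c8, nat_lit 0x1010301, nat_lit 1, nat_lit 4, nat_lit 0x47⟩ (.nil) (.nil)
def t14_2070 : Tr := .node ⟨nat_lit 6, nat_lit 0x2000100030, nat_lit 0x11302, nat_lit 2, nat_lit 4, nat_lit 0x48⟩ (.nil) (.nil)
def t14_10262 : Tr := .node ⟨nat_lit 8, nat_lit 0x80009000c0006000d0, nat_lit 0x10000122, nat_lit 1, nat_lit 4, nat_lit 0x46⟩ (.nil) (.nil)
def t14_6166 : Tr := .node ⟨nat_lit 7, nat_lit 0x4000200010, nat_lit 0x1000, nat_lit 3, nat_lit 4, nat_lit 0x48⟩ (.nil) (.nil)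
def t14_14358 : Tr := .node ⟨nat_lit 8, nat_lit 0x20008000c00030, nat_lit 0x1010, nat_lit 1, nat_lit 4, nat_lit 0x47⟩ (.nil) (.nil)
def t14_1046 : Tr := .node ⟨nat_lit 5, nat_lit 0x100008, nat_lit 0x202, nat_lit 4, nat_lit 4, nat_lit 0x47⟩ (.nil) (.nil)
def t14_9238 : Tr := .node ⟨nat_lit 8, nat_lit 0x800040004000a000c000d0, nat_lit 0x110121, nat_lit 4, nat_lit 4, nat_lit 0x47⟩ (.nil) (.nil)
def t14_5142 : Tr := .node ⟨nat_lit 7, nat_lit 0x40005000300060, nat_lit 0x110311, nat_lit 1, nat_lit 4, nat_lit 0x47⟩ (.nil) (.nil)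
def t14_13334 : Tr := .node ⟨nat_lit 6, nat_lit 0x1800300028, nat_lit 0x320, nat_lit 2, nat_lit 4, nat_lit 0x45⟩ (.nil) (.nil)
def t14_3094 : Tr := .node ⟨nat_lit 7, nat_lit 0x20006000500068, nat_lit 0x1011201, nat_lit 0, nat_lit 4, nat_lit 0x46⟩ (.nil) (.nil)
def t14_11286 : Tr := .node ⟨nat_lit 7, nat_lit 0x4000600060, nat_lit 0x111120, nat_lit 3, nat_lit 4, nat_lit 0x49⟩ (.nil) (.nil)
def t14_7190 : Tr := .node ⟨nat_lit 7, nat_lit 0x10002000500060, nat_lit 0x1111111, nat_lit 1, nat_lit 4, nat_lit 0x48⟩ (.nil) (.nil)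
def t14_15382 : Tr := .node ⟨nat_lit 6, nat_lit 0x20002000200028, nat_lit 0x11101, nat_lit 0xc, nat_lit 4, nat_lit 0x49⟩ (.nil) (.nil)
def t14_534 : Tr := .node ⟨nat_lit 4, nat_lit 0x80008, nat_lit 0x232, nat_lit 8, nat_lit 4, nat_lit 0x48⟩ (.nil) (.nil)
def t14_8726 : Tr := .node ⟨nat_lit 8, nat_lit 0x800040009000a000d0, nat_lit 0x12100, nat_lit 0, nat_lit 4, nat_lit 0x46⟩ (.nil) (.nil)
def t14_4630 : Tr := .node ⟨nat_lit 7, nat_lit 0x40002000500068, nat_lit 0x1102012, nat_lit 2, nat_lit 4, nat_lit 0x48⟩ (.nil) (.nil)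
def t14_12822 : Tr := .node ⟨nat_lit 7, nat_lit 0x1000600050, nat_lit 0x2020, nat_lit 3, nat_lit 4, nat_lit 0x48⟩ (.nil) (.nil)
def t14_2582 : Tr := .node ⟨nat_lit 8, nat_lit 0x200080008000400088, nat_lit 0x1102100, nat_lit 1, nat_lit 4, nat_lit 0x49⟩ (.nil) (.nil)
def t14_10774 : Tr := .node ⟨nat_lit 8, nat_lit 0xc0009000a0, nat_lit 0x1202, nat_lit 2, nat_lit 4, nat_lit 0x48⟩ (.nil) (.nil)
def t14_6678 : Tr := .node ⟨nat_lit 9, nat_lit 0x100008000400020, nat_lit 0x110001, nat_lit 3, nat_lit 4, nat_lit 0x4b⟩ (.nil) (.nil)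
def t14_14870 : Tr := .node ⟨nat_lit 5, nat_lit 0x10, nat_lit 0x12210, nat_lit 8, nat_lit 3, nat_lit 0x49⟩ (.nil) (.nil)
def t14_1558 : Tr := .node ⟨nat_lit 6, nat_lit 0x20001000100030, nat_lit 0x101101, nat_lit 1, nat_lit 3, nat_lit 0x45⟩ (.nil) (.nil)
def t14_9750 : Tr := .node ⟨nat_lit 8, nat_lit 0x800020002000c000c0, nat_lit 0x121120, nat_lit 0, nat_lit 4, nat_lit 0x48⟩ (.nil) (.nil)
def t14_5654 : Tr := .node ⟨nat_lit 7, nat_lit 0x4000600060, nat_lit 0x11120, nat_lit 2, nat_lit 4, nat_lit 0x48⟩ (.nil) (.nil)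
def t14_13846 : Tr := .node ⟨nat_lit 6, nat_lit 0x2000080034, nat_lit 0x10220, nat_lit 0, nat_lit 4, nat_lit 0x46⟩ (.nil) (.nil)
def t14_3606 : Tr := .node ⟨nat_lit 7, nat_lit 0x10001000600050, nat_lit 0x1003121, nat_lit 1, nat_lit 4, nat_lit 0x48⟩ (.nil) (.nil)
def t14_11798 : Tr := .node ⟨nat_lit 6, nat_lit 0xc0030, nat_lit 0x1032, nat_lit 0, nat_lit 4, nat_lit 0x46⟩ (.nil) (.nil)
def t14_7702 : Tr := .node ⟨nat_lit 5, nat_lit 0x100018, nat_lit 0x112, nat_lit 4, nat_lit 4, nat_lit 0x46⟩ (.nil) (.nil)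
def t9_22 : Tr := .node ⟨nat_lit 6, nat_lit 0x30, nat_lit 0x312111, nat_lit 0, nat_lit 4, nat_lit 0x4b⟩ (.node ⟨nat_lit 5, nat_lit 0x180018, nat_lit 0x11330, nat_lit 1, nat_lit 3, nat_lit 0x46⟩ (.node ⟨nat_lit 3, nat_lit 4, nat_lit 0x31, nat_lit 7, nat_lit 4, nat_lit 0x46⟩ (.node ⟨nat_lit 6, nat_lit 0x1000200020, nat_lit 0x12100, nat_lit 3, nat_lit 4, nat_lit 0x48⟩ (.node ⟨nat_lit 6, nat_lit 0x20002000200010, nat_lit 0x23103, nat_lit 2, nat_lit 4, nat_lit 0x49⟩ (t14_22) (t14_8214)) (.node ⟨nat_lit 5, nat_lit 0x800100010, nat_lit 0x10000, nat_lit 5, nat_lit 4, nat_lit 0x46⟩ (t14_4118) (t14_12310))) (.node ⟨nat_lit 5, nat_lit 0x18, nat_lit 0x31213, nat_lit 2, nat_lit 4, nat_lit 0x4a⟩ (.node ⟨nat_lit 7, nat_lit 0x40001000100060, nat_lit 0x1012311, nat_lit 0, nat_lit 4, nat_lit 0x49⟩ (t14_2070) (t14_10262)) (.node ⟨nat_lit 7, nat_lit 0x10005000500060,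 nat_lit 0x202102, nat_lit 0, nat_lit 4, nat_lit 0x47⟩ (t14_6166) (t14_14358)))) (.node ⟨nat_lit 6, nat_lit 0x2000080034, nat_lit 0x211200, nat_lit 0, nat_lit 4, nat_lit 0x48⟩ (.node ⟨nat_lit 6, nat_lit 0x300030, nat_lit 0x212121, nat_lit 0, nat_lit 4, nat_lit 0x49⟩ (.node ⟨nat_lit 7, nat_lit 0x10001000600060, nat_lit 0x1111131, nat_lit 0, nat_lit 4, nat_lit 0x48⟩ (t14_1046) (t14_9238)) (.node ⟨nat_lit 5, nat_lit 0x1000100008, nat_lit 0x12210, nat_lit 5, nat_lit 3, nat_lit 0x47⟩ (t14_5142) (t14_13334))) (.node ⟨nat_lit 6, nat_lit 0x1000080020, nat_lit 0x112020, nat_lit 2, nat_lit 4, nat_lit 0x49⟩ (.node ⟨nat_lit 6, nat_lit 0x800100020, nat_lit 0x111000, nat_lit 1, nat_lit 4, nat_lit 0x47⟩ (t14_3094) (t14_11286)) (.node ⟨nat_lit 7, nat_lit 0x200020004000440060, nat_lit 0x1020202, nat_lit 3, nat_lit 4, nat_lit 0x48⟩ (t14_7190) (t14_15382))))) (.node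 ⟨nat_lit 6, nat_lit 0x30, nat_lit 0x312110, nat_lit 1, nat_lit 4, nat_lit 0x4b⟩ (.node ⟨nat_lit 4, nat_lit 8, nat_lit 0x1221, nat_lit 5, nat_lit 4, nat_lit 0x48⟩ (.node ⟨nat_lit 7, nat_lit 0x40004000200020, nat_lit 0x21010, nat_lit 5, nat_lit 4, nat_lit 0x49⟩ (.node ⟨nat_lit 7, nat_lit 0x40002000200048, nat_lit 0x1120210, nat_lit 0, nat_lit 4, nat_lit 0x49⟩ (t14_534) (t14_8726)) (.node ⟨nat_lit 6, nat_lit 0x2000080030, nat_lit 0x211202, nat_lit 1, nat_lit 4, nat_lit 0x49⟩ (t14_4630) (t14_12822))) (.node ⟨nat_lit 6, nat_lit 0x800200030, nat_lit 0x10003, nat_lit 0, nat_lit 4, nat_lit 0x46⟩ (.node ⟨nat_lit 4, nat_lit 0x8000c, nat_lit 0x1230, nat_lit 9, nat_lit 4, nat_lit 0x48⟩ (t14_2582) (t14_10774)) (.node ⟨nat_lit 8, nat_lit 0x80008000880088, nat_lit 0x2111120, nat_lit 0, nat_lit 4, nat_lit 0x4a⟩ (t14_6678) (t14_14870)))) (.node ⟨nat_lit 5, nat_lit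 0x40018, nat_lit 0x20121, nat_lit 2, nat_lit 3, nat_lit 0x46⟩ (.node ⟨nat_lit 6, nat_lit 0x200032, nat_lit 0x231111, nat_lit 0, nat_lit 4, nat_lit 0x4a⟩ (.node ⟨nat_lit 6, nat_lit 0x2000080030, nat_lit 0x100321, nat_lit 1, nat_lit 4, nat_lit 0x47⟩ (t14_1558) (t14_9750)) (.node ⟨nat_lit 8, nat_lit 0x200080008000400088, nat_lit 0x11112100, nat_lit 1, nat_lit 4, nat_lit 0x4a⟩ (t14_5654) (t14_13846))) (.node ⟨nat_lit 3, nat_lit 6, nat_lit 0x203, nat_lit 6, nat_lit 4, nat_lit 0x45⟩ (.node ⟨nat_lit 5, nat_lit 0x180018, nat_lit 0x10100, nat_lit 3, nat_lit 4, nat_lit 0x45⟩ (t14_3606) (t14_11798)) (.node ⟨nat_lit 8, nat_lit 0x4000800080008000900060, nat_lit 0x1211000, nat_lit 1, nat_lit 4, nat_lit 0x48⟩ (t14_7702) (.nil)))))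
def t14_278 : Tr := .node ⟨nat_lit 7, nat_lit 0x10004000200060, nat_lit 0x121211, nat_lit 0, nat_lit 3, nat_lit 0x47⟩ (.nil) (.nil)
def t14_8470 : Tr := .node ⟨nat_lit 6, nat_lit 0x800200030, nat_lit 1, nat_lit 2, nat_lit 4, nat_lit 0x45⟩ (.nil) (.nil)
def t14_4374 : Tr := .node ⟨nat_lit 9, nat_lit 0x80008001000100011000c000a0, nat_lit 0x111111010, nat_lit 0, nat_lit 4, nat_lit 0x49⟩ (.nil) (.nil)
def t14_12566 : Tr := .node ⟨nat_lit 8, nat_lit 0x400080002000c000a0, nat_lit 0x1011030, nat_lit 1, nat_lit 4, nat_lit 0x48⟩ (.nil) (.nil)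
def t14_2326 : Tr := .node ⟨nat_lit 7, nat_lit 0x200040004800700070, nat_lit 0x202010, nat_lit 5, nat_lit 4, nat_lit 0x47⟩ (.nil) (.nil)
def t14_10518 : Tr := .node ⟨nat_lit 8, nat_lit 0x200080008000a800c8, nat_lit 0x10000020, nat_lit 2, nat_lit 4, nat_lit 0x47⟩ (.nil) (.nil)
def t14_6422 : Tr := .node ⟨nat_lit 7, nat_lit 0x4000400020, nat_lit 0x111101, nat_lit 4, nat_lit 4, nat_lit 0x4a⟩ (.nil) (.nil)
def t14_14614 : Tr := .node ⟨nat_lit 7, nat_lit 0x400040004000500050, nat_lit 0x111111, nat_lit 6, nat_lit 4, nat_lit 0x49⟩ (.nil) (.nil)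
def t14_1302 : Tr := .node ⟨nat_lit 6, nat_lit 0x10002000200038, nat_lit 0x11102, nat_lit 3, nat_lit 4, nat_lit 0x46⟩ (.nil) (.nil)
def t14_9494 : Tr := .node ⟨nat_lit 0xa, nat_lit 0x200010001000100011001200240, nat_lit 0x1010111010, nat_lit 1, nat_lit 4, nat_lit 0x4a⟩ (.nil) (.nil)
def t14_5398 : Tr := .node ⟨nat_lit 5, nat_lit 0x1000140018, nat_lit 0x1312, nat_lit 6, nat_lit 4, nat_lit 0x47⟩ (.nil) (.nil)
def t14_13590 : Tr := .node ⟨nat_lit 5, nat_lit 0x1000080008, nat_lit 0x220, nat_lit 4, nat_lit 3, nat_lit 0x45⟩ (.nil) (.nil)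
def t14_3350 : Tr := .node ⟨nat_lit 8, nat_lit 0x80008800c000a0, nat_lit 0x21102, nat_lit 1, nat_lit 4, nat_lit 0x48⟩ (.nil) (.nil)
def t14_11542 : Tr := .node ⟨nat_lit 6, nat_lit 0x2000300030, nat_lit 0x1310, nat_lit 7, nat_lit 4, nat_lit 0x48⟩ (.nil) (.nil)
def t14_7446 : Tr := .node ⟨nat_lit 6, nat_lit 0x300030, nat_lit 0x101111, nat_lit 9, nat_lit 4, nat_lit 0x49⟩ (.nil) (.nil)
def t14_790 : Tr := .node ⟨nat_lit 7, nat_lit 0x40004000200048, nat_lit 0x113111, nat_lit 0, nat_lit 4, nat_lit 0x49⟩ (.nil) (.nil)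
def t14_8982 : Tr := .node ⟨nat_lit 8, nat_lit 0x800040004000a000a000c0, nat_lit 0x110202, nat_lit 1, nat_lit 4, nat_lit 0x47⟩ (.nil) (.nil)
def t14_4886 : Tr := .node ⟨nat_lit 6, nat_lit 0x200020, nat_lit 0x121110, nat_lit 7, nat_lit 4, nat_lit 0x4b⟩ (.nil) (.nil)
def t14_13078 : Tr := .node ⟨nat_lit 6, nat_lit 0x2000080030, nat_lit 0x100031, nat_lit 2, nat_lit 4, nat_lit 0x47⟩ (.nil) (.nil)
def t14_2838 : Tr := .node ⟨nat_lit 7, nat_lit 0x1000600060, nat_lit 0x12020, nat_lit 2, nat_lit 4, nat_lit 0x48⟩ (.nil) (.nil)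
def t14_11030 : Tr := .node ⟨nat_lit 7, nat_lit 0x4000600060, nat_lit 0x1021120, nat_lit 0, nat_lit 4, nat_lit 0x49⟩ (.nil) (.nil)
def t14_6934 : Tr := .node ⟨nat_lit 6, nat_lit 0x20002800300038, nat_lit 0x210022, nat_lit 4, nat_lit 4, nat_lit 0x47⟩ (.nil) (.nil)
def t14_15126 : Tr := .node ⟨nat_lit 8, nat_lit 0x400040008000840060, nat_lit 0x20111, nat_lit 0, nat_lit 4, nat_lit 0x47⟩ (.nil) (.nil)
def t14_1814 : Tr := .node ⟨nat_lit 5, nat_lit 0x180014, nat_lit 0x11202, nat_lit 6, nat_lit 4, nat_lit 0x48⟩ (.nil) (.nil)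
def t14_10006 : Tr := .node ⟨nat_lit 8, nat_lit 0xc000a000300030, nat_lit 0x10001320, nat_lit 0, nat_lit 4, nat_lit 0x47⟩ (.nil) (.nil)
def t14_5910 : Tr := .node ⟨nat_lit 9, nat_lit 0x100008000800180, nat_lit 0x1110102, nat_lit 1, nat_lit 4, nat_lit 0x4b⟩ (.nil) (.nil)
def t14_14102 : Tr := .node ⟨nat_lit 6, nat_lit 0x800300030, nat_lit 0x111, nat_lit 3, nat_lit 4, nat_lit 0x45⟩ (.nil) (.nil)
def t14_3862 : Tr := .node ⟨nat_lit 7, nat_lit 0x5000180060, nat_lit 0x1111210, nat_lit 1, nat_lit 4, nat_lit 0x48⟩ (.nil) (.nil)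
def t14_12054 : Tr := .node ⟨nat_lit 8, nat_lit 0x2000800040008800c0, nat_lit 0x1002010, nat_lit 1, nat_lit 4, nat_lit 0x48⟩ (.nil) (.nil)
def t14_7958 : Tr := .node ⟨nat_lit 9, nat_lit 0x100010000800080012001400140, nat_lit 0x1010021, nat_lit 3, nat_lit 4, nat_lit 0x48⟩ (.nil) (.nil)
def t9_278 : Tr := .node ⟨nat_lit 1, nat_lit 0, nat_lit 3, nat_lit 6, nat_lit 3, nat_lit 0x43⟩ (.node ⟨nat_lit 5, nat_lit 0x100014001c, nat_lit 0x31112, nat_lit 6, nat_lit 4, nat_lit 0x48⟩ (.node ⟨nat_lit 6, nat_lit 0x280030, nat_lit 0x110321, nat_lit 0, nat_lit 4, nat_lit 0x48⟩ (.node ⟨nat_lit 5, nat_lit 0x10, nat_lit 0x12213, nat_lit 2, nat_lit 4, nat_lit 0x4a⟩ (.node ⟨nat_lit 7, nat_lit 0x40001000680070, nat_lit 0x2101012, nat_lit 1, nat_lit 4, nat_lit 0x47⟩ (t14_278) (t14_8470)) (.node ⟨nat_lit 7, nat_lit 0x40004000200020, nat_lit 0x111040, nat_lit 0, nat_lit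 3, nat_lit 0x48⟩ (t14_4374) (t14_12566))) (.node ⟨nat_lit 6, nat_lit 0x2000300034, nat_lit 0x201222, nat_lit 2, nat_lit 4, nat_lit 0x48⟩ (.node ⟨nat_lit 7, nat_lit 0x40001000600050, nat_lit 0x12303, nat_lit 1, nat_lit 4, nat_lit 0x48⟩ (t14_2326) (t14_10518)) (.node ⟨nat_lit 5, nat_lit 0x100012, nat_lit 0x2122, nat_lit 7, nat_lit 4, nat_lit 0x48⟩ (t14_6422) (t14_14614)))) (.node ⟨nat_lit 5, nat_lit 0x80010001c, nat_lit 0x12111, nat_lit 5, nat_lit 4, nat_lit 0x47⟩ (.node ⟨nat_lit 4, nat_lit 8, nat_lit 0x2221, nat_lit 9, nat_lit 4, nat_lit 0x4a⟩ (.node ⟨nat_lit 7, nat_lit 0x20004000100044, nat_lit 0x1010103, nat_lit 1, nat_lit 4, nat_lit 0x48⟩ (t14_1302) (t14_9494)) (.node ⟨nat_lit 6, nat_lit 0x1000200030, nat_lit 0x102022, nat_lit 6, nat_lit 4, nat_lit 0x49⟩ (t14_5398) (t14_13590))) (.node ⟨nat_lit 6, nat_lit 0x2000100024, nat_lit 0x11202, nat_lit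 0, nat_lit 4, nat_lit 0x47⟩ (.node ⟨nat_lit 7, nat_lit 0x40001000200020, nat_lit 0x110030, nat_lit 5, nat_lit 4, nat_lit 0x4a⟩ (t14_3350) (t14_11542)) (.node ⟨nat_lit 6, nat_lit 0x1000200030, nat_lit 0x111112, nat_lit 5, nat_lit 4, nat_lit 0x49⟩ (t14_7446) (.nil))))) (.node ⟨nat_lit 5, nat_lit 0x100010, nat_lit 0x3120, nat_lit 2, nat_lit 3, nat_lit 0x47⟩ (.node ⟨nat_lit 6, nat_lit 0x800280030, nat_lit 0x21102, nat_lit 1, nat_lit 4, nat_lit 0x47⟩ (.node ⟨nat_lit 5, nat_lit 0x10001a, nat_lit 0x1102, nat_lit 1, nat_lit 4, nat_lit 0x44⟩ (.node ⟨nat_lit 7, nat_lit 0x4000400020, nat_lit 0x222100, nat_lit 1, nat_lit 4, nat_lit 0x4b⟩ (t14_790) (t14_8982)) (.node ⟨nat_lit 7, nat_lit 0x400020002000500068, nat_lit 0x1112011, nat_lit 4, nat_lit 4, nat_lit 0x48⟩ (t14_4886) (t14_13078))) (.node ⟨nat_lit 4, nat_lit 0x80004, nat_lit 0x101, nat_lit 8, nat_lit 4,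 nat_lit 0x46⟩ (.node ⟨nat_lit 7, nat_lit 0x20001000100040, nat_lit 0x1110301, nat_lit 3, nat_lit 4, nat_lit 0x4a⟩ (t14_2838) (t14_11030)) (.node ⟨nat_lit 8, nat_lit 0x80008000800040004000a0, nat_lit 0x1110221, nat_lit 0, nat_lit 4, nat_lit 0x49⟩ (t14_6934) (t14_15126)))) (.node ⟨nat_lit 5, nat_lit 0x1000140018, nat_lit 0x11221, nat_lit 4, nat_lit 4, nat_lit 0x47⟩ (.node ⟨nat_lit 7, nat_lit 0x400060, nat_lit 0x1021101, nat_lit 1, nat_lit 4, nat_lit 0x4a⟩ (.node ⟨nat_lit 6, nat_lit 0x2000080030, nat_lit 0x10303, nat_lit 1, nat_lit 4, nat_lit 0x47⟩ (t14_1814) (t14_10006)) (.node ⟨nat_lit 7, nat_lit 0x5000300060, nat_lit 0x112120, nat_lit 1, nat_lit 4, nat_lit 0x48⟩ (t14_5910) (t14_14102))) (.node ⟨nat_lit 6, nat_lit 0x800300030, nat_lit 0x201121, nat_lit 1, nat_lit 4, nat_lit 0x47⟩ (.node ⟨nat_lit 7, nat_lit 0x2800480070, nat_lit 0x1110013, nat_lit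 1, nat_lit 4, nat_lit 0x47⟩ (t14_3862) (t14_12054)) (.node ⟨nat_lit 5, nat_lit 0x100018, nat_lit 0x11120, nat_lit 5, nat_lit 4, nat_lit 0x48⟩ (t14_7958) (.nil)))))
def t14_150 : Tr := .node ⟨nat_lit 7, nat_lit 0x40003000500068, nat_lit 0x1110121, nat_lit 1, nat_lit 4, nat_lit 0x47⟩ (.nil) (.nil)
def t14_8342 : Tr := .node ⟨nat_lit 2, nat_lit 2, nat_lit 0, nat_lit 6, nat_lit 4, nat_lit 0x41⟩ (.nil) (.nil)
def t14_4246 : Tr := .node ⟨nat_lit 7, nat_lit 0x40002000500064, nat_lit 0x211201, nat_lit 1, nat_lit 4, nat_lit 0x48⟩ (.nil) (.nil)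
def t14_12438 : Tr := .node ⟨nat_lit 7, nat_lit 0x40006000680068, nat_lit 0x11310, nat_lit 2, nat_lit 4, nat_lit 0x46⟩ (.nil) (.nil)
def t14_2198 : Tr := .node ⟨nat_lit 6, nat_lit 0x20002000100028, nat_lit 0x12201, nat_lit 5, nat_lit 4, nat_lit 0x48⟩ (.nil) (.nil)
def t14_10390 : Tr := .node ⟨nat_lit 6, nat_lit 0x20001000280034, nat_lit 0x101202, nat_lit 4, nat_lit 4, nat_lit 0x46⟩ (.nil) (.nil)
def t14_6294 : Tr := .node ⟨nat_lit 8, nat_lit 0x80008000400040004000a0, nat_lit 0x2200, nat_lit 1, nat_lit 4, nat_lit 0x48⟩ (.nil) (.nil)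
def t14_14486 : Tr := .node ⟨nat_lit 7, nat_lit 0x20004000600068, nat_lit 0x21120, nat_lit 2, nat_lit 4, nat_lit 0x47⟩ (.nil) (.nil)
def t14_1174 : Tr := .node ⟨nat_lit 7, nat_lit 0x500060, nat_lit 0x11112, nat_lit 0, nat_lit 4, nat_lit 0x48⟩ (.nil) (.nil)
def t14_9366 : Tr := .node ⟨nat_lit 8, nat_lit 0x800040002000c000a0, nat_lit 0x120112, nat_lit 1, nat_lit 4, nat_lit 0x48⟩ (.nil) (.nil)
def t14_5270 : Tr := .node ⟨nat_lit 5, nat_lit 0x100018, nat_lit 0x12130, nat_lit 4, nat_lit 4, nat_lit 0x49⟩ (.nil) (.nil)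
def t14_13462 : Tr := .node ⟨nat_lit 6, nat_lit 0x1000200032, nat_lit 0x101300, nat_lit 5, nat_lit 4, nat_lit 0x48⟩ (.nil) (.nil)
def t14_3222 : Tr := .node ⟨nat_lit 8, nat_lit 0x800090006000c000d0, nat_lit 0x110121, nat_lit 0, nat_lit 4, nat_lit 0x46⟩ (.nil) (.nil)
def t14_11414 : Tr := .node ⟨nat_lit 7, nat_lit 0x20002000400068, nat_lit 0x120010, nat_lit 2, nat_lit 4, nat_lit 0x48⟩ (.nil) (.nil)
def t14_7318 : Tr := .node ⟨nat_lit 8, nat_lit 0x400040008000a000c4, nat_lit 0x10100212, nat_lit 0, nat_lit 4, nat_lit 0x48⟩ (.nil) (.nil)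
def t14_15510 : Tr := .node ⟨nat_lit 9, nat_lit 0x1000080002000400180, nat_lit 0x101020011, nat_lit 0, nat_lit 4, nat_lit 0x4a⟩ (.nil) (.nil)
def t14_662 : Tr := .node ⟨nat_lit 5, nat_lit 0x100018, nat_lit 0x2131, nat_lit 4, nat_lit 4, nat_lit 0x48⟩ (.nil) (.nil)
def t14_8854 : Tr := .node ⟨nat_lit 7, nat_lit 0x1000400060, nat_lit 0x1030, nat_lit 1, nat_lit 4, nat_lit 0x48⟩ (.nil) (.nil)
def t14_4758 : Tr := .node ⟨nat_lit 7, nat_lit 0x200040004000480030, nat_lit 0x110200, nat_lit 0, nat_lit 4, nat_lit 0x46⟩ (.nil) (.nil)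
def t14_12950 : Tr := .node ⟨nat_lit 7, nat_lit 0x2000400060, nat_lit 0x11200, nat_lit 4, nat_lit 4, nat_lit 0x49⟩ (.nil) (.nil)
def t14_2710 : Tr := .node ⟨nat_lit 7, nat_lit 0x2000500060, nat_lit 0x110013, nat_lit 0, nat_lit 4, nat_lit 0x48⟩ (.nil) (.nil)
def t14_10902 : Tr := .node ⟨nat_lit 7, nat_lit 0x400020002000500060, nat_lit 0x12103, nat_lit 2, nat_lit 4, nat_lit 0x47⟩ (.nil) (.nil)
def t14_6806 : Tr := .node ⟨nat_lit 7, nat_lit 0x40002000500064, nat_lit 0x121101, nat_lit 0, nat_lit 4, nat_lit 0x47⟩ (.nil) (.nil)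
def t14_14998 : Tr := .node ⟨nat_lit 8, nat_lit 0x80008800c000a0, nat_lit 0x1112101, nat_lit 0, nat_lit 4, nat_lit 0x49⟩ (.nil) (.nil)
def t14_1686 : Tr := .node ⟨nat_lit 8, nat_lit 0x80008000400040009000e0, nat_lit 0x121012, nat_lit 0, nat_lit 4, nat_lit 0x47⟩ (.nil) (.nil)
def t14_9878 : Tr := .node ⟨nat_lit 4, nat_lit 0x80008000c, nat_lit 0x232, nat_lit 9, nat_lit 4, nat_lit 0x47⟩ (.nil) (.nil)
def t14_5782 : Tr := .node ⟨nat_lit 6, nat_lit 0x800080030, nat_lit 0x100102, nat_lit 5, nat_lit 4, nat_lit 0x47⟩ (.nil) (.nil)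
def t14_13974 : Tr := .node ⟨nat_lit 7, nat_lit 0x40001000680068, nat_lit 0x12110, nat_lit 1, nat_lit 4, nat_lit 0x46⟩ (.nil) (.nil)
def t14_3734 : Tr := .node ⟨nat_lit 9, nat_lit 0x800080008001000100010800c0, nat_lit 0x101201000, nat_lit 1, nat_lit 4, nat_lit 0x49⟩ (.nil) (.nil)
def t14_11926 : Tr := .node ⟨nat_lit 6, nat_lit 0x200010, nat_lit 0x1023, nat_lit 0, nat_lit 4, nat_lit 0x48⟩ (.nil) (.nil)
def t14_7830 : Tr := .node ⟨nat_lit 5, nat_lit 0x100012, nat_lit 0x2124, nat_lit 2, nat_lit 4, nat_lit 0x48⟩ (.nil) (.nil)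
def t9_150 : Tr := .node ⟨nat_lit 6, nat_lit 0x100020, nat_lit 0x231111, nat_lit 0, nat_lit 4, nat_lit 0x4b⟩ (.node ⟨nat_lit 5, nat_lit 0x180018, nat_lit 0x11321, nat_lit 5, nat_lit 4, nat_lit 0x48⟩ (.node ⟨nat_lit 6, nat_lit 0x10002000200030, nat_lit 0x1102, nat_lit 0, nat_lit 3, nat_lit 0x44⟩ (.node ⟨nat_lit 6, nat_lit 0x200020, nat_lit 0x21111, nat_lit 1, nat_lit 4, nat_lit 0x49⟩ (.node ⟨nat_lit 8, nat_lit 0x80001000c000a0, nat_lit 0x22210, nat_lit 0, nat_lit 4, nat_lit 0x49⟩ (t14_150) (t14_8342)) (.node ⟨nat_lit 6, nat_lit 0x800300038, nat_lit 0x1023, nat_lit 2, nat_lit 4, nat_lit 0x45⟩ (t14_4246) (t14_12438))) (.node ⟨nat_lit 5, nat_lit 0, nat_lit 0x31111, nat_lit 2, nat_lit 3, nat_lit 0x49⟩ (.node ⟨nat_lit 7, nat_lit 0x4000100060, nat_lit 0x11210, nat_lit 0, nat_lit 4, nat_lit 0x48⟩ (t14_2198) (t14_10390)) (.node ⟨nat_lit 6, nat_lit 0x280030,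 nat_lit 0x112102, nat_lit 3, nat_lit 4, nat_lit 0x49⟩ (t14_6294) (t14_14486)))) (.node ⟨nat_lit 6, nat_lit 0x2000200020, nat_lit 0x21210, nat_lit 0, nat_lit 3, nat_lit 0x47⟩ (.node ⟨nat_lit 6, nat_lit 0x800300030, nat_lit 0x211122, nat_lit 0, nat_lit 4, nat_lit 0x48⟩ (.node ⟨nat_lit 3, nat_lit 4, nat_lit 0x310, nat_lit 5, nat_lit 3, nat_lit 0x46⟩ (t14_1174) (t14_9366)) (.node ⟨nat_lit 6, nat_lit 0x2000200030, nat_lit 0x12102, nat_lit 3, nat_lit 4, nat_lit 0x48⟩ (t14_5270) (t14_13462))) (.node ⟨nat_lit 4, nat_lit 0xc000c, nat_lit 0x2020, nat_lit 5, nat_lit 3, nat_lit 0x44⟩ (.node ⟨nat_lit 6, nat_lit 0x2000240030, nat_lit 0x102310, nat_lit 3, nat_lit 4, nat_lit 0x49⟩ (t14_3222) (t14_11414)) (.node ⟨nat_lit 7, nat_lit 0x20004000400064, nat_lit 0x111000, nat_lit 1, nat_lit 4, nat_lit 0x47⟩ (t14_7318) (t14_15510))))) (.node ⟨nat_lit 6, nat_lit 0x2000080030,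 nat_lit 0x23120, nat_lit 0, nat_lit 4, nat_lit 0x49⟩ (.node ⟨nat_lit 6, nat_lit 0x2000200010, nat_lit 0x22102, nat_lit 0, nat_lit 4, nat_lit 0x49⟩ (.node ⟨nat_lit 7, nat_lit 0x4000200020, nat_lit 0x21011, nat_lit 0, nat_lit 4, nat_lit 0x49⟩ (.node ⟨nat_lit 5, nat_lit 0x180014, nat_lit 0x20102, nat_lit 5, nat_lit 4, nat_lit 0x47⟩ (t14_662) (t14_8854)) (.node ⟨nat_lit 7, nat_lit 0x400020002000500068, nat_lit 0x112111, nat_lit 2, nat_lit 4, nat_lit 0x47⟩ (t14_4758) (t14_12950))) (.node ⟨nat_lit 6, nat_lit 0x800200030, nat_lit 0x11101, nat_lit 0, nat_lit 4, nat_lit 0x46⟩ (.node ⟨nat_lit 5, nat_lit 0x100010, nat_lit 0x12240, nat_lit 0, nat_lit 3, nat_lit 0x48⟩ (t14_2710) (t14_10902)) (.node ⟨nat_lit 8, nat_lit 0x8000200040004000c0, nat_lit 0x102101, nat_lit 0, nat_lit 4, nat_lit 0x48⟩ (t14_6806) (t14_14998)))) (.node ⟨nat_lit 3, nat_lit 0, nat_lit 0x211,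 nat_lit 0xb, nat_lit 4, nat_lit 0x48⟩ (.node ⟨nat_lit 5, nat_lit 0x18, nat_lit 0x31111, nat_lit 2, nat_lit 4, nat_lit 0x49⟩ (.node ⟨nat_lit 5, nat_lit 0x180014, nat_lit 0x1114, nat_lit 2, nat_lit 4, nat_lit 0x46⟩ (t14_1686) (t14_9878)) (.node ⟨nat_lit 6, nat_lit 0x2000240024, nat_lit 0x22121, nat_lit 3, nat_lit 4, nat_lit 0x48⟩ (t14_5782) (t14_13974))) (.node ⟨nat_lit 7, nat_lit 0x40003000580068, nat_lit 0x2000221, nat_lit 0, nat_lit 4, nat_lit 0x45⟩ (.node ⟨nat_lit 6, nat_lit 0x80030, nat_lit 0x100010, nat_lit 0, nat_lit 4, nat_lit 0x46⟩ (t14_3734) (t14_11926)) (.node ⟨nat_lit 4, nat_lit 0x8000c, nat_lit 0x1021, nat_lit 7, nat_lit 4, nat_lit 0x46⟩ (t14_7830) (.nil)))))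
def t14_406 : Tr := .node ⟨nat_lit 6, nat_lit 0x1000200020, nat_lit 0x111110, nat_lit 9, nat_lit 4, nat_lit 0x4a⟩ (.nil) (.nil)
def t14_8598 : Tr := .node ⟨nat_lit 5, nat_lit 0x100008001c, nat_lit 0x120, nat_lit 3, nat_lit 4, nat_lit 0x44⟩ (.nil) (.nil)
def t14_4502 : Tr := .node ⟨nat_lit 7, nat_lit 0x40001000100060, nat_lit 0x1203001, nat_lit 0, nat_lit 4, nat_lit 0x49⟩ (.nil) (.nil)
def t14_12694 : Tr := .node ⟨nat_lit 7, nat_lit 0x40002000200064, nat_lit 0x1002100, nat_lit 0, nat_lit 4, nat_lit 0x47⟩ (.nil) (.nil)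
def t14_2454 : Tr := .node ⟨nat_lit 6, nat_lit 0x2000280030, nat_lit 0x21102, nat_lit 5, nat_lit 4, nat_lit 0x48⟩ (.nil) (.nil)
def t14_10646 : Tr := .node ⟨nat_lit 7, nat_lit 0x10001000600060, nat_lit 0x21, nat_lit 0, nat_lit 4, nat_lit 0x45⟩ (.nil) (.nil)
def t14_6550 : Tr := .node ⟨nat_lit 7, nat_lit 0x2000400042, nat_lit 0x1011002, nat_lit 0, nat_lit 4, nat_lit 0x48⟩ (.nil) (.nil)
def t14_14742 : Tr := .node ⟨nat_lit 8, nat_lit 0x80006000c000a0, nat_lit 0x111112, nat_lit 0, nat_lit 4, nat_lit 0x48⟩ (.nil) (.nil)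
def t14_1430 : Tr := .node ⟨nat_lit 8, nat_lit 0x80001000a000c0, nat_lit 0x1013101, nat_lit 0, nat_lit 4, nat_lit 0x49⟩ (.nil) (.nil)
def t14_9622 : Tr := .node ⟨nat_lit 8, nat_lit 0x200080004000c000c4, nat_lit 0x2220, nat_lit 0, nat_lit 4, nat_lit 0x47⟩ (.nil) (.nil)
def t14_5526 : Tr := .node ⟨nat_lit 7, nat_lit 0x40004000200020, nat_lit 0x11031, nat_lit 3, nat_lit 4, nat_lit 0x49⟩ (.nil) (.nil)
def t14_13718 : Tr := .node ⟨nat_lit 8, nat_lit 0x40002000c000a000d0, nat_lit 0x20012, nat_lit 0, nat_lit 4, nat_lit 0x46⟩ (.nil) (.nil)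
def t14_3478 : Tr := .node ⟨nat_lit 6, nat_lit 0x10002000200034, nat_lit 0x2100, nat_lit 2, nat_lit 4, nat_lit 0x45⟩ (.nil) (.nil)
def t14_11670 : Tr := .node ⟨nat_lit 6, nat_lit 0x1000200030, nat_lit 0x2040, nat_lit 0, nat_lit 3, nat_lit 0x46⟩ (.nil) (.nil)
def t14_7574 : Tr := .node ⟨nat_lit 4, nat_lit 0x80008, nat_lit 0x332, nat_lit 5, nat_lit 3, nat_lit 0x46⟩ (.nil) (.nil)
def t14_918 : Tr := .node ⟨nat_lit 6, nat_lit 0x20002000100028, nat_lit 0x12212, nat_lit 4, nat_lit 4, nat_lit 0x48⟩ (.nil) (.nil)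
def t14_9110 : Tr := .node ⟨nat_lit 9, nat_lit 0x10001000080011001200180, nat_lit 0x11010002, nat_lit 1, nat_lit 4, nat_lit 0x49⟩ (.nil) (.nil)
def t14_5014 : Tr := .node ⟨nat_lit 5, nat_lit 0x100018001c, nat_lit 0x10011, nat_lit 6, nat_lit 4, nat_lit 0x45⟩ (.nil) (.nil)
def t14_13206 : Tr := .node ⟨nat_lit 6, nat_lit 0x2000100032, nat_lit 0x2320, nat_lit 0, nat_lit 4, nat_lit 0x47⟩ (.nil) (.nil)
def t14_2966 : Tr := .node ⟨nat_lit 8, nat_lit 0x40008000200084, nat_lit 0x110202, nat_lit 0, nat_lit 4, nat_lit 0x49⟩ (.nil) (.nil)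
def t14_11158 : Tr := .node ⟨nat_lit 5, nat_lit 0x180014, nat_lit 0x110, nat_lit 7, nat_lit 4, nat_lit 0x46⟩ (.nil) (.nil)
def t14_7062 : Tr := .node ⟨nat_lit 8, nat_lit 0x20008000c0, nat_lit 0x10011011, nat_lit 1, nat_lit 4, nat_lit 0x4a⟩ (.nil) (.nil)
def t14_15254 : Tr := .node ⟨nat_lit 9, nat_lit 0x8001000100010000400110, nat_lit 0x11001, nat_lit 7, nat_lit 4, nat_lit 0x4a⟩ (.nil) (.nil)
def t14_1942 : Tr := .node ⟨nat_lit 6, nat_lit 0x340038, nat_lit 0x200021, nat_lit 0, nat_lit 4, nat_lit 0x45⟩ (.nil) (.nil)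
def t14_10134 : Tr := .node ⟨nat_lit 7, nat_lit 0x400020002000500068, nat_lit 0x100, nat_lit 0, nat_lit 4, nat_lit 0x44⟩ (.nil) (.nil)
def t14_6038 : Tr := .node ⟨nat_lit 6, nat_lit 0x200020, nat_lit 0x21120, nat_lit 5, nat_lit 4, nat_lit 0x4a⟩ (.nil) (.nil)
def t14_14230 : Tr := .node ⟨nat_lit 7, nat_lit 0x6000180050, nat_lit 0x10112, nat_lit 3, nat_lit 4, nat_lit 0x47⟩ (.nil) (.nil)
def t14_3990 : Tr := .node ⟨nat_lit 6, nat_lit 0x2000080030, nat_lit 0x100120, nat_lit 3, nat_lit 4, nat_lit 0x47⟩ (.nil) (.nil)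
def t14_12182 : Tr := .node ⟨nat_lit 6, nat_lit 0x280030, nat_lit 0x111110, nat_lit 2, nat_lit 3, nat_lit 0x47⟩ (.nil) (.nil)
def t14_8086 : Tr := .node ⟨nat_lit 6, nat_lit 0x20001000280030, nat_lit 0x1040, nat_lit 2, nat_lit 4, nat_lit 0x46⟩ (.nil) (.nil)
def t9_406 : Tr := .node ⟨nat_lit 6, nat_lit 0x200030, nat_lit 0x23201, nat_lit 1, nat_lit 4, nat_lit 0x4a⟩ (.node ⟨nat_lit 6, nat_lit 0x200010, nat_lit 0x113200, nat_lit 0, nat_lit 3, nat_lit 0x49⟩ (.node ⟨nat_lit 4, nat_lit 0xc, nat_lit 0x2021, nat_lit 4, nat_lit 4, nat_lit 0x46⟩ (.node ⟨nat_lit 6, nat_lit 0x800300030, nat_lit 0x101221, nat_lit 0, nat_lit 4, nat_lit 0x46⟩ (.node ⟨nat_lit 7, nat_lit 0x40001000600060, nat_lit 0x21121, nat_lit 0, nat_lit 4, nat_lit 0x47⟩ (t14_406) (t14_8598)) (.node ⟨nat_lit 8, nat_lit 0x800080004000900098, nat_lit 0x10120021, nat_lit 0, nat_lit 4, nat_lit 0x49⟩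 (t14_4502) (t14_12694))) (.node ⟨nat_lit 4, nat_lit 8, nat_lit 0x112, nat_lit 6, nat_lit 3, nat_lit 0x46⟩ (.node ⟨nat_lit 7, nat_lit 0x10004000400020, nat_lit 0x100201, nat_lit 2, nat_lit 4, nat_lit 0x48⟩ (t14_2454) (t14_10646)) (.node ⟨nat_lit 6, nat_lit 0x280030, nat_lit 0x210112, nat_lit 1, nat_lit 4, nat_lit 0x48⟩ (t14_6550) (t14_14742)))) (.node ⟨nat_lit 5, nat_lit 0x40018, nat_lit 0x211, nat_lit 0, nat_lit 4, nat_lit 0x45⟩ (.node ⟨nat_lit 6, nat_lit 0x2000080030, nat_lit 0x112211, nat_lit 3, nat_lit 4, nat_lit 0x49⟩ (.node ⟨nat_lit 6, nat_lit 0x80030, nat_lit 0x101100, nat_lit 1, nat_lit 4, nat_lit 0x47⟩ (t14_1430) (t14_9622)) (.node ⟨nat_lit 7, nat_lit 0x40002000200048, nat_lit 0x1120220, nat_lit 3, nat_lit 4, nat_lit 0x4a⟩ (t14_5526) (t14_13718))) (.node ⟨nat_lit 5, nat_lit 0x100018, nat_lit 0x1121, nat_lit 6, nat_lit 4, nat_lit 0x47⟩ (.node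 ⟨nat_lit 7, nat_lit 0x5000600070, nat_lit 0x111003, nat_lit 1, nat_lit 4, nat_lit 0x47⟩ (t14_3478) (t14_11670)) (.node ⟨nat_lit 7, nat_lit 0x800500060, nat_lit 0x1211021, nat_lit 0, nat_lit 4, nat_lit 0x49⟩ (t14_7574) (.nil))))) (.node ⟨nat_lit 5, nat_lit 0x180018, nat_lit 0x10121, nat_lit 0, nat_lit 3, nat_lit 0x44⟩ (.node ⟨nat_lit 6, nat_lit 0x200010, nat_lit 0x12201, nat_lit 0, nat_lit 4, nat_lit 0x49⟩ (.node ⟨nat_lit 6, nat_lit 0x200020, nat_lit 0x11111, nat_lit 0, nat_lit 4, nat_lit 0x48⟩ (.node ⟨nat_lit 7, nat_lit 0x400040002000200020, nat_lit 0x1021310, nat_lit 1, nat_lit 4, nat_lit 0x49⟩ (t14_918) (t14_9110)) (.node ⟨nat_lit 7, nat_lit 0x4000100020, nat_lit 0x121020, nat_lit 5, nat_lit 4, nat_lit 0x4b⟩ (t14_5014) (t14_13206))) (.node ⟨nat_lit 8, nat_lit 0x4000800020008800c0, nat_lit 0x11010002, nat_lit 0, nat_lit 4, nat_lit 0x48⟩ (.node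 ⟨nat_lit 8, nat_lit 0x80008000400048009000a0, nat_lit 0x11112010, nat_lit 0, nat_lit 4, nat_lit 0x48⟩ (t14_2966) (t14_11158)) (.node ⟨nat_lit 7, nat_lit 0x40002000480060, nat_lit 0x1121202, nat_lit 1, nat_lit 4, nat_lit 0x49⟩ (t14_7062) (t14_15254)))) (.node ⟨nat_lit 5, nat_lit 0x1000080018, nat_lit 0x10020, nat_lit 1, nat_lit 3, nat_lit 0x44⟩ (.node ⟨nat_lit 7, nat_lit 0x40004800480030, nat_lit 0x1211111, nat_lit 0, nat_lit 4, nat_lit 0x48⟩ (.node ⟨nat_lit 7, nat_lit 0x40001000600070, nat_lit 0x112013, nat_lit 0, nat_lit 4, nat_lit 0x47⟩ (t14_1942) (t14_10134)) (.node ⟨nat_lit 8, nat_lit 0x800020002000c000c0, nat_lit 0x112020, nat_lit 0, nat_lit 4, nat_lit 0x48⟩ (t14_6038) (t14_14230))) (.node ⟨nat_lit 6, nat_lit 0x10002000300034, nat_lit 0x102110, nat_lit 4, nat_lit 4, nat_lit 0x46⟩ (.node ⟨nat_lit 6, nat_lit 0x2000080030, nat_lit 0x101010, nat_lit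 3, nat_lit 4, nat_lit 0x47⟩ (t14_3990) (t14_12182)) (.node ⟨nat_lit 6, nat_lit 0x2000100030, nat_lit 0x101030, nat_lit 1, nat_lit 3, nat_lit 0x46⟩ (t14_8086) (.nil)))))
def t14_86 : Tr := .node ⟨nat_lit 6, nat_lit 0x800300030, nat_lit 0x112211, nat_lit 0, nat_lit 4, nat_lit 0x48⟩ (.nil) (.nil)
def t14_8278 : Tr := .node ⟨nat_lit 6, nat_lit 0x300038, nat_lit 0x1140, nat_lit 0, nat_lit 4, nat_lit 0x46⟩ (.nil) (.nil)
def t14_4182 : Tr := .node ⟨nat_lit 9, nat_lit 0x10001000080011001200180, nat_lit 0x11011003, nat_lit 0, nat_lit 4, nat_lit 0x49⟩ (.nil) (.nil)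
def t14_12374 : Tr := .node ⟨nat_lit 7, nat_lit 0x40004000200060, nat_lit 0x13110, nat_lit 4, nat_lit 4, nat_lit 0x49⟩ (.nil) (.nil)
def t14_2134 : Tr := .node ⟨nat_lit 5, nat_lit 0x1000100008, nat_lit 0x1200, nat_lit 7, nat_lit 4, nat_lit 0x47⟩ (.nil) (.nil)
def t14_10326 : Tr := .node ⟨nat_lit 6, nat_lit 0x2000080010, nat_lit 0x211002, nat_lit 4, nat_lit 3, nat_lit 0x48⟩ (.nil) (.nil)
def t14_6230 : Tr := .node ⟨nat_lit 6, nat_lit 0x2000200010, nat_lit 0x1101, nat_lit 3, nat_lit 4, nat_lit 0x47⟩ (.nil) (.nil)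
def t14_14422 : Tr := .node ⟨nat_lit 8, nat_lit 0x8000800020002000c0, nat_lit 0x10211, nat_lit 1, nat_lit 4, nat_lit 0x48⟩ (.nil) (.nil)
def t14_1110 : Tr := .node ⟨nat_lit 7, nat_lit 0x2000400062, nat_lit 0x1010211, nat_lit 0, nat_lit 4, nat_lit 0x48⟩ (.nil) (.nil)
def t14_9302 : Tr := .node ⟨nat_lit 8, nat_lit 0x200080004000a000c0, nat_lit 0x20021, nat_lit 0, nat_lit 4, nat_lit 0x47⟩ (.nil) (.nil)
def t14_5206 : Tr := .node ⟨nat_lit 7, nat_lit 0x40004800500060, nat_lit 0x112111, nat_lit 4, nat_lit 4, nat_lit 0x48⟩ (.nil) (.nil)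
def t14_13398 : Tr := .node ⟨nat_lit 8, nat_lit 0x80004000a000a0005000d0, nat_lit 0x220000, nat_lit 1, nat_lit 4, nat_lit 0x46⟩ (.nil) (.nil)
def t14_3158 : Tr := .node ⟨nat_lit 7, nat_lit 0x20004000400060, nat_lit 0x22101, nat_lit 0, nat_lit 4, nat_lit 0x48⟩ (.nil) (.nil)
def t14_11350 : Tr := .node ⟨nat_lit 4, nat_lit 0x40008, nat_lit 0x1010, nat_lit 7, nat_lit 3, nat_lit 0x45⟩ (.nil) (.nil)
def t14_7254 : Tr := .node ⟨nat_lit 6, nat_lit 0x800300028, nat_lit 0x210021, nat_lit 1, nat_lit 4, nat_lit 0x47⟩ (.nil) (.nil)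
def t14_15446 : Tr := .node ⟨nat_lit 8, nat_lit 0x4000800020002000c0, nat_lit 0x11011102, nat_lit 0, nat_lit 4, nat_lit 0x49⟩ (.nil) (.nil)
def t14_598 : Tr := .node ⟨nat_lit 7, nat_lit 0x20005000680070, nat_lit 0x1202, nat_lit 0, nat_lit 4, nat_lit 0x44⟩ (.nil) (.nil)
def t14_8790 : Tr := .node ⟨nat_lit 7, nat_lit 0x20004000500068, nat_lit 0x12103, nat_lit 0, nat_lit 4, nat_lit 0x46⟩ (.nil) (.nil)
def t14_4694 : Tr := .node ⟨nat_lit 7, nat_lit 0x10001000200040, nat_lit 0x1011000, nat_lit 0, nat_lit 4, nat_lit 0x48⟩ (.nil) (.nil)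
def t14_12886 : Tr := .node ⟨nat_lit 7, nat_lit 0x40002000480060, nat_lit 0x12000, nat_lit 5, nat_lit 4, nat_lit 0x48⟩ (.nil) (.nil)
def t14_2646 : Tr := .node ⟨nat_lit 6, nat_lit 0x3000300038, nat_lit 0x2103, nat_lit 3, nat_lit 4, nat_lit 0x46⟩ (.nil) (.nil)
def t14_10838 : Tr := .node ⟨nat_lit 7, nat_lit 0x4000500060, nat_lit 0x112022, nat_lit 3, nat_lit 4, nat_lit 0x49⟩ (.nil) (.nil)
def t14_6742 : Tr := .node ⟨nat_lit 6, nat_lit 0x2000080030, nat_lit 0x22110, nat_lit 1, nat_lit 4, nat_lit 0x48⟩ (.nil) (.nil)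
def t14_14934 : Tr := .node ⟨nat_lit 7, nat_lit 0x40001000480068, nat_lit 0x1112011, nat_lit 0, nat_lit 4, nat_lit 0x48⟩ (.nil) (.nil)
def t14_1622 : Tr := .node ⟨nat_lit 7, nat_lit 0x40002000200064, nat_lit 0x12200, nat_lit 0, nat_lit 4, nat_lit 0x47⟩ (.nil) (.nil)
def t14_9814 : Tr := .node ⟨nat_lit 8, nat_lit 0x80002000c000c8, nat_lit 0x11002, nat_lit 0, nat_lit 4, nat_lit 0x47⟩ (.nil) (.nil)
def t14_5718 : Tr := .node ⟨nat_lit 7, nat_lit 0x40001000480060, nat_lit 0x10120, nat_lit 1, nat_lit 4, nat_lit 0x46⟩ (.nil) (.nil)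
def t14_13910 : Tr := .node ⟨nat_lit 7, nat_lit 0x40001000480060, nat_lit 0x13200, nat_lit 1, nat_lit 4, nat_lit 0x48⟩ (.nil) (.nil)
def t14_3670 : Tr := .node ⟨nat_lit 5, nat_lit 0x18, nat_lit 0x11411, nat_lit 0, nat_lit 4, nat_lit 0x49⟩ (.nil) (.nil)
def t14_11862 : Tr := .node ⟨nat_lit 4, nat_lit 0x8000c, nat_lit 0x3111, nat_lit 2, nat_lit 3, nat_lit 0x46⟩ (.nil) (.nil)
def t14_7766 : Tr := .node ⟨nat_lit 8, nat_lit 0x4000400080008800e000c8, nat_lit 0x102020, nat_lit 1, nat_lit 4, nat_lit 0x46⟩ (.nil) (.nil)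
def t9_86 : Tr := .node ⟨nat_lit 3, nat_lit 4, nat_lit 0x11, nat_lit 3, nat_lit 3, nat_lit 0x43⟩ (.node ⟨nat_lit 6, nat_lit 0x2000200024, nat_lit 0x132110, nat_lit 3, nat_lit 4, nat_lit 0x4a⟩ (.node ⟨nat_lit 6, nat_lit 0x1000200030, nat_lit 0x1323, nat_lit 0, nat_lit 4, nat_lit 0x47⟩ (.node ⟨nat_lit 6, nat_lit 0x800280030, nat_lit 0x120212, nat_lit 0, nat_lit 4, nat_lit 0x47⟩ (.node ⟨nat_lit 7, nat_lit 0x400042, nat_lit 0x2111131, nat_lit 0, nat_lit 4, nat_lit 0x4c⟩ (t14_86) (t14_8278)) (.node ⟨nat_lit 5, nat_lit 0x1000080008, nat_lit 0x21130, nat_lit 4, nat_lit 3, nat_lit 0x47⟩ (t14_4182) (t14_12374))) (.node ⟨nat_lit 6, nat_lit 0x2000080030, nat_lit 0x211212, nat_lit 1, nat_lit 4, nat_lit 0x49⟩ (.node ⟨nat_lit 6, nat_lit 0x800280030, nat_lit 0x11240, nat_lit 0, nat_lit 4, nat_lit 0x47⟩ (t14_2134) (t14_10326)) (.node ⟨nat_lit 8, nat_lit 0x800040009000900090,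 nat_lit 0x1200210, nat_lit 2, nat_lit 4, nat_lit 0x48⟩ (t14_6230) (t14_14422)))) (.node ⟨nat_lit 3, nat_lit 4, nat_lit 0x20, nat_lit 3, nat_lit 4, nat_lit 0x43⟩ (.node ⟨nat_lit 5, nat_lit 0x100010, nat_lit 0x22111, nat_lit 6, nat_lit 4, nat_lit 0x4a⟩ (.node ⟨nat_lit 7, nat_lit 0x3000500060, nat_lit 0x1111113, nat_lit 0, nat_lit 4, nat_lit 0x48⟩ (t14_1110) (t14_9302)) (.node ⟨nat_lit 7, nat_lit 0x4000600060, nat_lit 0x111231, nat_lit 1, nat_lit 4, nat_lit 0x49⟩ (t14_5206) (t14_13398))) (.node ⟨nat_lit 6, nat_lit 0x2000100010, nat_lit 0x12010, nat_lit 2, nat_lit 4, nat_lit 0x48⟩ (.node ⟨nat_lit 5, nat_lit 0x18, nat_lit 0x10210, nat_lit 4, nat_lit 4, nat_lit 0x48⟩ (t14_3158) (t14_11350)) (.node ⟨nat_lit 7, nat_lit 0x4000100060, nat_lit 0x101002, nat_lit 1, nat_lit 4, nat_lit 0x48⟩ (t14_7254) (t14_15446))))) (.node ⟨nat_lit 3, nat_lit 4, nat_lit 0x210,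 nat_lit 5, nat_lit 3, nat_lit 0x45⟩ (.node ⟨nat_lit 6, nat_lit 0x2000080030, nat_lit 0x21012, nat_lit 0, nat_lit 4, nat_lit 0x47⟩ (.node ⟨nat_lit 5, nat_lit 0x180018, nat_lit 0x10220, nat_lit 3, nat_lit 4, nat_lit 0x46⟩ (.node ⟨nat_lit 5, nat_lit 0x140018, nat_lit 0x22102, nat_lit 3, nat_lit 4, nat_lit 0x48⟩ (t14_598) (t14_8790)) (.node ⟨nat_lit 6, nat_lit 0xc0030, nat_lit 0x112222, nat_lit 0, nat_lit 4, nat_lit 0x49⟩ (t14_4694) (t14_12886))) (.node ⟨nat_lit 6, nat_lit 0x80030, nat_lit 0x101012, nat_lit 0, nat_lit 4, nat_lit 0x47⟩ (.node ⟨nat_lit 6, nat_lit 0x1000280030, nat_lit 0x112032, nat_lit 1, nat_lit 4, nat_lit 0x48⟩ (t14_2646) (t14_10838)) (.node ⟨nat_lit 7, nat_lit 0x40001000200020, nat_lit 0x110022, nat_lit 5, nat_lit 4, nat_lit 0x4a⟩ (t14_6742) (t14_14934)))) (.node ⟨nat_lit 5, nat_lit 0x80010001c, nat_lit 0x12110, nat_lit 5, nat_lit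 4, nat_lit 0x47⟩ (.node ⟨nat_lit 7, nat_lit 0x40001000680068, nat_lit 0x2210110, nat_lit 1, nat_lit 4, nat_lit 0x48⟩ (.node ⟨nat_lit 5, nat_lit 0x40018, nat_lit 0x101, nat_lit 3, nat_lit 4, nat_lit 0x45⟩ (t14_1622) (t14_9814)) (.node ⟨nat_lit 6, nat_lit 0x200020, nat_lit 0x122111, nat_lit 3, nat_lit 4, nat_lit 0x4b⟩ (t14_5718) (t14_13910))) (.node ⟨nat_lit 5, nat_lit 0x140018, nat_lit 0x12102, nat_lit 2, nat_lit 3, nat_lit 0x46⟩ (.node ⟨nat_lit 7, nat_lit 0x40004000100068, nat_lit 0x100000, nat_lit 1, nat_lit 4, nat_lit 0x46⟩ (t14_3670) (t14_11862)) (.node ⟨nat_lit 7, nat_lit 0x1000200040, nat_lit 0x1111120, nat_lit 0, nat_lit 4, nat_lit 0x4a⟩ (t14_7766) (.nil)))))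
def t14_342 : Tr := .node ⟨nat_lit 7, nat_lit 0x4000500060, nat_lit 0x1102211, nat_lit 0, nat_lit 4, nat_lit 0x49⟩ (.nil) (.nil)
def t14_8534 : Tr := .node ⟨nat_lit 6, nat_lit 0x200022, nat_lit 0x111114, nat_lit 0, nat_lit 4, nat_lit 0x49⟩ (.nil) (.nil)
def t14_4438 : Tr := .node ⟨nat_lit 8, nat_lit 0x20008000c2, nat_lit 0x11121011, nat_lit 0, nat_lit 4, nat_lit 0x4b⟩ (.nil) (.nil)
def t14_12630 : Tr := .node ⟨nat_lit 8, nat_lit 0x800040009000c00060, nat_lit 0x10012030, nat_lit 1, nat_lit 4, nat_lit 0x48⟩ (.nil) (.nil)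
def t14_2390 : Tr := .node ⟨nat_lit 8, nat_lit 0x40008000c000c0, nat_lit 0x112210, nat_lit 0, nat_lit 4, nat_lit 0x49⟩ (.nil) (.nil)
def t14_10582 : Tr := .node ⟨nat_lit 8, nat_lit 0x40006000a000c0, nat_lit 0x11020, nat_lit 0, nat_lit 4, nat_lit 0x47⟩ (.nil) (.nil)
def t14_6486 : Tr := .node ⟨nat_lit 7, nat_lit 0x800100060, nat_lit 0x1111100, nat_lit 1, nat_lit 4, nat_lit 0x49⟩ (.nil) (.nil)
def t14_14678 : Tr := .node ⟨nat_lit 8, nat_lit 0x8000800040009000e000e0, nat_lit 0x112110, nat_lit 1, nat_lit 4, nat_lit 0x46⟩ (.nil) (.nil)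
def t14_1366 : Tr := .node ⟨nat_lit 6, nat_lit 0x800300030, nat_lit 0x100310, nat_lit 1, nat_lit 4, nat_lit 0x46⟩ (.nil) (.nil)
def t14_9558 : Tr := .node ⟨nat_lit 8, nat_lit 0x80002000c000a000d0, nat_lit 0x1020211, nat_lit 0, nat_lit 4, nat_lit 0x47⟩ (.nil) (.nil)
def t14_5462 : Tr := .node ⟨nat_lit 6, nat_lit 0x2000080030, nat_lit 0x1103, nat_lit 1, nat_lit 4, nat_lit 0x46⟩ (.nil) (.nil)
def t14_13654 : Tr := .node ⟨nat_lit 6, nat_lit 0x1000200030, nat_lit 0x1003, nat_lit 1, nat_lit 4, nat_lit 0x46⟩ (.nil) (.nil)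
def t14_3414 : Tr := .node ⟨nat_lit 7, nat_lit 0x20004000100060, nat_lit 0x20001, nat_lit 3, nat_lit 4, nat_lit 0x48⟩ (.nil) (.nil)
def t14_11606 : Tr := .node ⟨nat_lit 7, nat_lit 0x6000600070, nat_lit 0x11310, nat_lit 1, nat_lit 4, nat_lit 0x47⟩ (.nil) (.nil)
def t14_7510 : Tr := .node ⟨nat_lit 7, nat_lit 0x4000200020, nat_lit 0x1111011, nat_lit 5, nat_lit 4, nat_lit 0x4b⟩ (.nil) (.nil)
def t14_854 : Tr := .node ⟨nat_lit 7, nat_lit 0x40001000200048, nat_lit 0x112112, nat_lit 1, nat_lit 4, nat_lit 0x48⟩ (.nil) (.nil)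
def t14_9046 : Tr := .node ⟨nat_lit 4, nat_lit 0x800080008, nat_lit 0x222, nat_lit 5, nat_lit 3, nat_lit 0x45⟩ (.nil) (.nil)
def t14_4950 : Tr := .node ⟨nat_lit 8, nat_lit 0x40004000a000d000e0, nat_lit 0x110113, nat_lit 0, nat_lit 4, nat_lit 0x46⟩ (.nil) (.nil)
def t14_13142 : Tr := .node ⟨nat_lit 7, nat_lit 0x10001000400060, nat_lit 0x2003, nat_lit 1, nat_lit 4, nat_lit 0x47⟩ (.nil) (.nil)
def t14_2902 : Tr := .node ⟨nat_lit 7, nat_lit 0x40001000500060, nat_lit 0x201101, nat_lit 0, nat_lit 4, nat_lit 0x47⟩ (.nil) (.nil)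
def t14_11094 : Tr := .node ⟨nat_lit 6, nat_lit 0x800300030, nat_lit 0x20, nat_lit 5, nat_lit 3, nat_lit 0x45⟩ (.nil) (.nil)
def t14_6998 : Tr := .node ⟨nat_lit 6, nat_lit 0x2000300030, nat_lit 0x101211, nat_lit 3, nat_lit 3, nat_lit 0x46⟩ (.nil) (.nil)
def t14_15190 : Tr := .node ⟨nat_lit 8, nat_lit 0x8000a000c0, nat_lit 0x1111021, nat_lit 0, nat_lit 4, nat_lit 0x4a⟩ (.nil) (.nil)
def t14_1878 : Tr := .node ⟨nat_lit 6, nat_lit 0x2000200034, nat_lit 0x2001, nat_lit 2, nat_lit 4, nat_lit 0x46⟩ (.nil) (.nil)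
def t14_10070 : Tr := .node ⟨nat_lit 8, nat_lit 0x8000400090006000c8, nat_lit 0x1000020, nat_lit 0, nat_lit 4, nat_lit 0x46⟩ (.nil) (.nil)
def t14_5974 : Tr := .node ⟨nat_lit 8, nat_lit 0x800040004000c0, nat_lit 0x10111112, nat_lit 0, nat_lit 4, nat_lit 0x4a⟩ (.nil) (.nil)
def t14_14166 : Tr := .node ⟨nat_lit 6, nat_lit 0x800200010, nat_lit 0x11030, nat_lit 3, nat_lit 4, nat_lit 0x48⟩ (.nil) (.nil)
def t14_3926 : Tr := .node ⟨nat_lit 7, nat_lit 0x4000500064, nat_lit 0x1000110, nat_lit 0, nat_lit 4, nat_lit 0x47⟩ (.nil) (.nil)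
def t14_12118 : Tr := .node ⟨nat_lit 8, nat_lit 0x10002000c000a0, nat_lit 0x10000210, nat_lit 1, nat_lit 4, nat_lit 0x48⟩ (.nil) (.nil)
def t14_8022 : Tr := .node ⟨nat_lit 5, nat_lit 0x1000080014, nat_lit 0x1103, nat_lit 5, nat_lit 4, nat_lit 0x46⟩ (.nil) (.nil)
def t9_342 : Tr := .node ⟨nat_lit 6, nat_lit 0, nat_lit 0x311111, nat_lit 2, nat_lit 4, nat_lit 0x4c⟩ (.node ⟨nat_lit 5, nat_lit 0x10, nat_lit 0x32112, nat_lit 2, nat_lit 4, nat_lit 0x4b⟩ (.node ⟨nat_lit 5, nat_lit 0x18, nat_lit 0x22113, nat_lit 0, nat_lit 4, nat_lit 0x49⟩ (.node ⟨nat_lit 6, nat_lit 0x1000100020, nat_lit 0x112001, nat_lit 0, nat_lit 4, nat_lit 0x48⟩ (.node ⟨nat_lit 6, nat_lit 0x1000200020, nat_lit 0x121310, nat_lit 0, nat_lit 3, nat_lit 0x48⟩ (t14_342) (t14_8534)) (.node ⟨nat_lit 8, nat_lit 0x8000800040002000c0, nat_lit 0x1010104, nat_lit 0, nat_lit 4, nat_lit 0x49⟩ (t14_4438)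 (t14_12630))) (.node ⟨nat_lit 7, nat_lit 0x800500060, nat_lit 0x2111021, nat_lit 0, nat_lit 4, nat_lit 0x49⟩ (.node ⟨nat_lit 7, nat_lit 0x40004000200070, nat_lit 0x112013, nat_lit 2, nat_lit 4, nat_lit 0x48⟩ (t14_2390) (t14_10582)) (.node ⟨nat_lit 5, nat_lit 0x80010, nat_lit 0x10231, nat_lit 3, nat_lit 4, nat_lit 0x48⟩ (t14_6486) (t14_14678)))) (.node ⟨nat_lit 4, nat_lit 0xc, nat_lit 0x1110, nat_lit 2, nat_lit 3, nat_lit 0x45⟩ (.node ⟨nat_lit 5, nat_lit 0x10, nat_lit 0x22213, nat_lit 3, nat_lit 4, nat_lit 0x4b⟩ (.node ⟨nat_lit 6, nat_lit 0x300030, nat_lit 0x102130, nat_lit 1, nat_lit 4, nat_lit 0x48⟩ (t14_1366) (t14_9558)) (.node ⟨nat_lit 7, nat_lit 0x800500060, nat_lit 0x122120, nat_lit 0, nat_lit 4, nat_lit 0x49⟩ (t14_5462) (t14_13654))) (.node ⟨nat_lit 7, nat_lit 0x1000100060, nat_lit 0x3101102, nat_lit 0, nat_lit 4, nat_lit 0x4a⟩ (.node ⟨nat_lit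 7, nat_lit 0x400040004000200020, nat_lit 0x121130, nat_lit 1, nat_lit 4, nat_lit 0x49⟩ (t14_3414) (t14_11606)) (.node ⟨nat_lit 6, nat_lit 0x1000100020, nat_lit 0x201001, nat_lit 1, nat_lit 3, nat_lit 0x47⟩ (t14_7510) (.nil))))) (.node ⟨nat_lit 5, nat_lit 0x10, nat_lit 0x3000, nat_lit 1, nat_lit 4, nat_lit 0x47⟩ (.node ⟨nat_lit 5, nat_lit 0x18, nat_lit 0x22211, nat_lit 0, nat_lit 4, nat_lit 0x49⟩ (.node ⟨nat_lit 6, nat_lit 0x80030, nat_lit 0x101111, nat_lit 3, nat_lit 4, nat_lit 0x48⟩ (.node ⟨nat_lit 6, nat_lit 0x800300030, nat_lit 0x2021, nat_lit 1, nat_lit 4, nat_lit 0x46⟩ (t14_854) (t14_9046)) (.node ⟨nat_lit 6, nat_lit 0x80030, nat_lit 0x112202, nat_lit 0, nat_lit 4, nat_lit 0x49⟩ (t14_4950) (t14_13142))) (.node ⟨nat_lit 7, nat_lit 0x10001000600060, nat_lit 0x1101021, nat_lit 0, nat_lit 4, nat_lit 0x47⟩ (.node ⟨nat_lit 8, nat_lit 0x8000800040009000a00048,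 nat_lit 0x1112011, nat_lit 0, nat_lit 4, nat_lit 0x47⟩ (t14_2902) (t14_11094)) (.node ⟨nat_lit 6, nat_lit 0x300030, nat_lit 0x111122, nat_lit 4, nat_lit 4, nat_lit 0x49⟩ (t14_6998) (t14_15190)))) (.node ⟨nat_lit 5, nat_lit 0x40018, nat_lit 0x22200, nat_lit 0, nat_lit 3, nat_lit 0x47⟩ (.node ⟨nat_lit 6, nat_lit 0x20002000340038, nat_lit 0x121111, nat_lit 3, nat_lit 4, nat_lit 0x47⟩ (.node ⟨nat_lit 6, nat_lit 0x30, nat_lit 0x111103, nat_lit 0, nat_lit 4, nat_lit 0x49⟩ (t14_1878) (t14_10070)) (.node ⟨nat_lit 7, nat_lit 0x40001000680068, nat_lit 0x2011020, nat_lit 0, nat_lit 4, nat_lit 0x47⟩ (t14_5974) (t14_14166))) (.node ⟨nat_lit 5, nat_lit 0x800100010, nat_lit 0x32, nat_lit 1, nat_lit 3, nat_lit 0x45⟩ (.node ⟨nat_lit 7, nat_lit 0x40001000600050, nat_lit 0x110103, nat_lit 3, nat_lit 4, nat_lit 0x48⟩ (t14_3926) (t14_12118)) (.node ⟨nat_lit 8, nat_lit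 0x800040004000a000d0, nat_lit 0x10022011, nat_lit 0, nat_lit 4, nat_lit 0x48⟩ (t14_8022) (.nil)))))
def t14_214 : Tr := .node ⟨nat_lit 7, nat_lit 0x10004000600070, nat_lit 0x112221, nat_lit 0, nat_lit 4, nat_lit 0x47⟩ (.nil) (.nil)
def t14_8406 : Tr := .node ⟨nat_lit 8, nat_lit 0x8000800040004000a000a0, nat_lit 0x121031, nat_lit 1, nat_lit 4, nat_lit 0x48⟩ (.nil) (.nil)
def t14_4310 : Tr := .node ⟨nat_lit 6, nat_lit 0x20002000100030, nat_lit 0x112020, nat_lit 0, nat_lit 3, nat_lit 0x46⟩ (.nil) (.nil)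
def t14_12502 : Tr := .node ⟨nat_lit 7, nat_lit 0x10006000500070, nat_lit 0x101003, nat_lit 3, nat_lit 4, nat_lit 0x46⟩ (.nil) (.nil)
def t14_2262 : Tr := .node ⟨nat_lit 7, nat_lit 0x10002000500060, nat_lit 0x1110022, nat_lit 1, nat_lit 4, nat_lit 0x48⟩ (.nil) (.nil)
def t14_10454 : Tr := .node ⟨nat_lit 8, nat_lit 0x80004000a000c0, nat_lit 0x23002, nat_lit 0, nat_lit 4, nat_lit 0x49⟩ (.nil) (.nil)
def t14_6358 : Tr := .node ⟨nat_lit 7, nat_lit 0x4000500060, nat_lit 0x11210, nat_lit 1, nat_lit 4, nat_lit 0x48⟩ (.nil) (.nil)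
def t14_14550 : Tr := .node ⟨nat_lit 8, nat_lit 0x800010002000c0, nat_lit 0x112010, nat_lit 0, nat_lit 4, nat_lit 0x49⟩ (.nil) (.nil)
def t14_1238 : Tr := .node ⟨nat_lit 8, nat_lit 0x800010002000c0, nat_lit 0x112111, nat_lit 0, nat_lit 4, nat_lit 0x49⟩ (.nil) (.nil)
def t14_9430 : Tr := .node ⟨nat_lit 8, nat_lit 0x800040005000a000a000c0, nat_lit 0x10111003, nat_lit 1, nat_lit 4, nat_lit 0x47⟩ (.nil) (.nil)
def t14_5334 : Tr := .node ⟨nat_lit 7, nat_lit 0x10001000600060, nat_lit 0x1111130, nat_lit 0, nat_lit 4, nat_lit 0x48⟩ (.nil) (.nil)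
def t14_13526 : Tr := .node ⟨nat_lit 7, nat_lit 0x40001000200048, nat_lit 0x110002, nat_lit 2, nat_lit 4, nat_lit 0x47⟩ (.nil) (.nil)
def t14_3286 : Tr := .node ⟨nat_lit 8, nat_lit 0x40008000800060009000c0, nat_lit 0x121011, nat_lit 0, nat_lit 4, nat_lit 0x47⟩ (.nil) (.nil)
def t14_11478 : Tr := .node ⟨nat_lit 7, nat_lit 0x40001000500060, nat_lit 0x101001, nat_lit 0, nat_lit 3, nat_lit 0x45⟩ (.nil) (.nil)
def t14_7382 : Tr := .node ⟨nat_lit 7, nat_lit 0x4000100060, nat_lit 0x1012001, nat_lit 1, nat_lit 4, nat_lit 0x49⟩ (.nil) (.nil)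
def t14_15574 : Tr := .node ⟨nat_lit 6, nat_lit 0x1000080020, nat_lit 0x100001, nat_lit 0x10, nat_lit 4, nat_lit 0x4a⟩ (.nil) (.nil)
def t14_726 : Tr := .node ⟨nat_lit 6, nat_lit 0x2000080030, nat_lit 0x10130, nat_lit 0, nat_lit 4, nat_lit 0x46⟩ (.nil) (.nil)
def t14_8918 : Tr := .node ⟨nat_lit 6, nat_lit 0x800300038, nat_lit 0x1203, nat_lit 0, nat_lit 4, nat_lit 0x45⟩ (.nil) (.nil)
def t14_4822 : Tr := .node ⟨nat_lit 5, nat_lit 0x140018, nat_lit 0x13122, nat_lit 2, nat_lit 4, nat_lit 0x48⟩ (.nil) (.nil)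
def t14_13014 : Tr := .node ⟨nat_lit 7, nat_lit 0x40002000480030, nat_lit 0x1000300, nat_lit 1, nat_lit 4, nat_lit 0x47⟩ (.nil) (.nil)
def t14_2774 : Tr := .node ⟨nat_lit 6, nat_lit 0x800300030, nat_lit 0x110211, nat_lit 0, nat_lit 4, nat_lit 0x46⟩ (.nil) (.nil)
def t14_10966 : Tr := .node ⟨nat_lit 6, nat_lit 0x20001000280028, nat_lit 0x100310, nat_lit 2, nat_lit 4, nat_lit 0x46⟩ (.nil) (.nil)
def t14_6870 : Tr := .node ⟨nat_lit 8, nat_lit 0x40004000800082, nat_lit 0x10113000, nat_lit 0, nat_lit 4, nat_lit 0x4a⟩ (.nil) (.nil)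
def t14_15062 : Tr := .node ⟨nat_lit 6, nat_lit 0x800300028, nat_lit 0x111211, nat_lit 1, nat_lit 3, nat_lit 0x46⟩ (.nil) (.nil)
def t14_1750 : Tr := .node ⟨nat_lit 7, nat_lit 0x400040002000200050, nat_lit 0x1112221, nat_lit 1, nat_lit 4, nat_lit 0x49⟩ (.nil) (.nil)
def t14_9942 : Tr := .node ⟨nat_lit 7, nat_lit 0x6000700068, nat_lit 0x1033, nat_lit 2, nat_lit 4, nat_lit 0x46⟩ (.nil) (.nil)
def t14_5846 : Tr := .node ⟨nat_lit 7, nat_lit 0x20004000640064, nat_lit 0x1021011, nat_lit 0, nat_lit 4, nat_lit 0x46⟩ (.nil) (.nil)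
def t14_14038 : Tr := .node ⟨nat_lit 7, nat_lit 0x800100060, nat_lit 0x11110, nat_lit 0, nat_lit 4, nat_lit 0x48⟩ (.nil) (.nil)
def t14_3798 : Tr := .node ⟨nat_lit 8, nat_lit 0x8000400040004000a000d0, nat_lit 0x10112000, nat_lit 2, nat_lit 4, nat_lit 0x48⟩ (.nil) (.nil)
def t14_11990 : Tr := .node ⟨nat_lit 6, nat_lit 0x10001000200030, nat_lit 0x102110, nat_lit 7, nat_lit 4, nat_lit 0x48⟩ (.nil) (.nil)
def t14_7894 : Tr := .node ⟨nat_lit 6, nat_lit 0x20002000100010, nat_lit 0x1021, nat_lit 4, nat_lit 4, nat_lit 0x47⟩ (.nil) (.nil)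
def t9_214 : Tr := .node ⟨nat_lit 4, nat_lit 8, nat_lit 0x332, nat_lit 4, nat_lit 4, nat_lit 0x48⟩ (.node ⟨nat_lit 3, nat_lit 4, nat_lit 0x113, nat_lit 5, nat_lit 3, nat_lit 0x45⟩ (.node ⟨nat_lit 6, nat_lit 0x2000200020, nat_lit 0x32210, nat_lit 3, nat_lit 4, nat_lit 0x4a⟩ (.node ⟨nat_lit 6, nat_lit 0x20001000100028, nat_lit 0x113201, nat_lit 0, nat_lit 4, nat_lit 0x48⟩ (.node ⟨nat_lit 7, nat_lit 0x1000400060, nat_lit 0x1202012, nat_lit 1, nat_lit 4, nat_lit 0x4a⟩ (t14_214) (t14_8406)) (.node ⟨nat_lit 6, nat_lit 0x20001000300038, nat_lit 0x11023, nat_lit 4, nat_lit 4, nat_lit 0x46⟩ (t14_4310) (t14_12502))) (.node ⟨nat_lit 6, nat_lit 0x2000080030, nat_lit 0x12001, nat_lit 0, nat_lit 3, nat_lit 0x46⟩ (.node ⟨nat_lit 8, nat_lit 0x800020004000a000c0, nat_lit 0x121031, nat_lit 0, nat_lit 4, nat_lit 0x48⟩ (t14_2262) (t14_10454)) (.node ⟨nat_lit 6, nat_lit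 0x200032, nat_lit 0x221010, nat_lit 0, nat_lit 4, nat_lit 0x49⟩ (t14_6358) (t14_14550)))) (.node ⟨nat_lit 6, nat_lit 0x200032, nat_lit 0x112101, nat_lit 1, nat_lit 4, nat_lit 0x48⟩ (.node ⟨nat_lit 6, nat_lit 0x1000280030, nat_lit 0x211212, nat_lit 0, nat_lit 4, nat_lit 0x48⟩ (.node ⟨nat_lit 5, nat_lit 0x10, nat_lit 0x1110, nat_lit 2, nat_lit 4, nat_lit 0x47⟩ (t14_1238) (t14_9430)) (.node ⟨nat_lit 8, nat_lit 0x4000800080008800c8, nat_lit 0x11220101, nat_lit 0, nat_lit 4, nat_lit 0x49⟩ (t14_5334) (t14_13526))) (.node ⟨nat_lit 7, nat_lit 0x20004000400064, nat_lit 0x1010202, nat_lit 1, nat_lit 4, nat_lit 0x48⟩ (.node ⟨nat_lit 7, nat_lit 0x20004000100060, nat_lit 0x1110203, nat_lit 1, nat_lit 4, nat_lit 0x49⟩ (t14_3286) (t14_11478)) (.node ⟨nat_lit 6, nat_lit 0x800080030, nat_lit 0x110202, nat_lit 4, nat_lit 4, nat_lit 0x48⟩ (t14_7382) (t14_15574)))))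 (.node ⟨nat_lit 2, nat_lit 0, nat_lit 0x32, nat_lit 7, nat_lit 4, nat_lit 0x46⟩ (.node ⟨nat_lit 5, nat_lit 0x18, nat_lit 0x21112, nat_lit 2, nat_lit 4, nat_lit 0x48⟩ (.node ⟨nat_lit 6, nat_lit 0x2000100030, nat_lit 0x102301, nat_lit 1, nat_lit 4, nat_lit 0x48⟩ (.node ⟨nat_lit 6, nat_lit 0x800100020, nat_lit 0x121101, nat_lit 3, nat_lit 4, nat_lit 0x49⟩ (t14_726) (t14_8918)) (.node ⟨nat_lit 7, nat_lit 0x10001000400060, nat_lit 0x1002202, nat_lit 0, nat_lit 4, nat_lit 0x48⟩ (t14_4822) (t14_13014))) (.node ⟨nat_lit 7, nat_lit 0x40001000100060, nat_lit 0x100002, nat_lit 2, nat_lit 4, nat_lit 0x47⟩ (.node ⟨nat_lit 5, nat_lit 0x140018, nat_lit 0x12203, nat_lit 4, nat_lit 4, nat_lit 0x48⟩ (t14_2774) (t14_10966)) (.node ⟨nat_lit 7, nat_lit 0x40004c0070, nat_lit 0x1101002, nat_lit 0, nat_lit 4, nat_lit 0x47⟩ (t14_6870) (t14_15062)))) (.node ⟨nat_lit 3,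 nat_lit 0, nat_lit 0x111, nat_lit 3, nat_lit 4, nat_lit 0x44⟩ (.node ⟨nat_lit 6, nat_lit 0x1000280030, nat_lit 0x110112, nat_lit 3, nat_lit 4, nat_lit 0x47⟩ (.node ⟨nat_lit 5, nat_lit 0x140018, nat_lit 0x2130, nat_lit 2, nat_lit 4, nat_lit 0x46⟩ (t14_1750) (t14_9942)) (.node ⟨nat_lit 5, nat_lit 0x140018, nat_lit 0x2221, nat_lit 3, nat_lit 4, nat_lit 0x47⟩ (t14_5846) (t14_14038))) (.node ⟨nat_lit 6, nat_lit 0x800200032, nat_lit 0x220202, nat_lit 2, nat_lit 4, nat_lit 0x48⟩ (.node ⟨nat_lit 6, nat_lit 0x2000100038, nat_lit 0x10103, nat_lit 3, nat_lit 4, nat_lit 0x46⟩ (t14_3798) (t14_11990)) (.node ⟨nat_lit 6, nat_lit 0x2000240030, nat_lit 0x101201, nat_lit 9, nat_lit 4, nat_lit 0x49⟩ (t14_7894) (.nil)))))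
def t14_470 : Tr := .node ⟨nat_lit 7, nat_lit 0x2000400060, nat_lit 0x1121110, nat_lit 1, nat_lit 4, nat_lit 0x4a⟩ (.nil) (.nil)
def t14_8662 : Tr := .node ⟨nat_lit 6, nat_lit 0x800300030, nat_lit 0x20, nat_lit 5, nat_lit 4, nat_lit 0x46⟩ (.nil) (.nil)
def t14_4566 : Tr := .node ⟨nat_lit 6, nat_lit 0x2000300030, nat_lit 0x102221, nat_lit 2, nat_lit 4, nat_lit 0x48⟩ (.nil) (.nil)
def t14_12758 : Tr := .node ⟨nat_lit 9, nat_lit 0x400100002001080180, nat_lit 0x10002000, nat_lit 1, nat_lit 4, nat_lit 0x49⟩ (.nil) (.nil)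
def t14_2518 : Tr := .node ⟨nat_lit 7, nat_lit 0x4000600050, nat_lit 0x12310, nat_lit 1, nat_lit 4, nat_lit 0x49⟩ (.nil) (.nil)
def t14_10710 : Tr := .node ⟨nat_lit 8, nat_lit 0x80004000a000c0, nat_lit 0x101020, nat_lit 0, nat_lit 4, nat_lit 0x48⟩ (.nil) (.nil)
def t14_6614 : Tr := .node ⟨nat_lit 7, nat_lit 0x40002000480060, nat_lit 0x1021200, nat_lit 1, nat_lit 4, nat_lit 0x48⟩ (.nil) (.nil)
def t14_14806 : Tr := .node ⟨nat_lit 9, nat_lit 0x100008000800140014001c001a0, nat_lit 0x100210011, nat_lit 0, nat_lit 4, nat_lit 0x47⟩ (.nil) (.nil)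
def t14_1494 : Tr := .node ⟨nat_lit 6, nat_lit 0x1000280034, nat_lit 0x1210, nat_lit 1, nat_lit 4, nat_lit 0x45⟩ (.nil) (.nil)
def t14_9686 : Tr := .node ⟨nat_lit 7, nat_lit 0x40002000200060, nat_lit 0x1010301, nat_lit 0, nat_lit 3, nat_lit 0x47⟩ (.nil) (.nil)
def t14_5590 : Tr := .node ⟨nat_lit 6, nat_lit 0x3000300030, nat_lit 0x2220, nat_lit 5, nat_lit 4, nat_lit 0x47⟩ (.nil) (.nil)
def t14_13782 : Tr := .node ⟨nat_lit 7, nat_lit 0x400020002000500068, nat_lit 0x10, nat_lit 1, nat_lit 4, nat_lit 0x44⟩ (.nil) (.nil)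
def t14_3542 : Tr := .node ⟨nat_lit 7, nat_lit 0x6000500018, nat_lit 0x110, nat_lit 0, nat_lit 4, nat_lit 0x45⟩ (.nil) (.nil)
def t14_11734 : Tr := .node ⟨nat_lit 8, nat_lit 0x8000c000c0, nat_lit 0x111210, nat_lit 2, nat_lit 4, nat_lit 0x4a⟩ (.nil) (.nil)
def t14_7638 : Tr := .node ⟨nat_lit 3, nat_lit 0x40004, nat_lit 0x32, nat_lit 0xe, nat_lit 4, nat_lit 0x47⟩ (.nil) (.nil)
def t14_982 : Tr := .node ⟨nat_lit 4, nat_lit 0x8000c, nat_lit 0x121, nat_lit 9, nat_lit 4, nat_lit 0x46⟩ (.nil) (.nil)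
def t14_9174 : Tr := .node ⟨nat_lit 9, nat_lit 0x8000800100010000a0011001c0, nat_lit 0x1120002, nat_lit 0, nat_lit 4, nat_lit 0x47⟩ (.nil) (.nil)
def t14_5078 : Tr := .node ⟨nat_lit 7, nat_lit 0x40002000500060, nat_lit 0x13011, nat_lit 4, nat_lit 4, nat_lit 0x48⟩ (.nil) (.nil)
def t14_13270 : Tr := .node ⟨nat_lit 7, nat_lit 0x4000440060, nat_lit 0x11200, nat_lit 0, nat_lit 4, nat_lit 0x48⟩ (.nil) (.nil)
def t14_3030 : Tr := .node ⟨nat_lit 8, nat_lit 0x400080009000d000d000e0, nat_lit 0x10211110, nat_lit 1, nat_lit 4, nat_lit 0x46⟩ (.nil) (.nil)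
def t14_11222 : Tr := .node ⟨nat_lit 7, nat_lit 0x6000500070, nat_lit 0x1011103, nat_lit 1, nat_lit 4, nat_lit 0x47⟩ (.nil) (.nil)
def t14_7126 : Tr := .node ⟨nat_lit 6, nat_lit 0x2000200030, nat_lit 0x112110, nat_lit 1, nat_lit 3, nat_lit 0x47⟩ (.nil) (.nil)
def t14_15318 : Tr := .node ⟨nat_lit 8, nat_lit 0x40004000800080008000c8, nat_lit 0x101201, nat_lit 3, nat_lit 4, nat_lit 0x48⟩ (.nil) (.nil)
def t14_2006 : Tr := .node ⟨nat_lit 6, nat_lit 0x20002000100030, nat_lit 0x13002, nat_lit 5, nat_lit 4, nat_lit 0x48⟩ (.nil) (.nil)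
def t14_10198 : Tr := .node ⟨nat_lit 7, nat_lit 0x20004000600064, nat_lit 0x12202, nat_lit 2, nat_lit 4, nat_lit 0x47⟩ (.nil) (.nil)
def t14_6102 : Tr := .node ⟨nat_lit 6, nat_lit 0x2000100008, nat_lit 0, nat_lit 2, nat_lit 3, nat_lit 0x45⟩ (.nil) (.nil)
def t14_14294 : Tr := .node ⟨nat_lit 8, nat_lit 0x4000800080002000d0, nat_lit 0x1003100, nat_lit 3, nat_lit 4, nat_lit 0x49⟩ (.nil) (.nil)
def t14_4054 : Tr := .node ⟨nat_lit 8, nat_lit 0x80004000a000c800e0, nat_lit 0x1001212, nat_lit 0, nat_lit 4, nat_lit 0x46⟩ (.nil) (.nil)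
def t14_12246 : Tr := .node ⟨nat_lit 8, nat_lit 0x800080004000a0009000e0, nat_lit 0x120002, nat_lit 1, nat_lit 4, nat_lit 0x47⟩ (.nil) (.nil)
def t14_8150 : Tr := .node ⟨nat_lit 8, nat_lit 0x200080008400c0, nat_lit 0x1010230, nat_lit 0, nat_lit 4, nat_lit 0x49⟩ (.nil) (.nil)
def t9_470 : Tr := .node ⟨nat_lit 4, nat_lit 0x40008, nat_lit 0x3313, nat_lit 1, nat_lit 3, nat_lit 0x48⟩ (.node ⟨nat_lit 7, nat_lit 0x10004000440064, nat_lit 0x3100121, nat_lit 1, nat_lit 4, nat_lit 0x49⟩ (.node ⟨nat_lit 5, nat_lit 0x100008, nat_lit 0x2232, nat_lit 0, nat_lit 4, nat_lit 0x48⟩ (.node ⟨nat_lit 7, nat_lit 0x40002000500064, nat_lit 0x112201, nat_lit 0, nat_lit 4, nat_lit 0x47⟩ (.node ⟨nat_lit 7, nat_lit 0x20002000100040, nat_lit 0x1022110, nat_lit 0, nat_lit 4, nat_lit 0x49⟩ (t14_470) (t14_8662)) (.node ⟨nat_lit 6, nat_lit 0x8000c0030, nat_lit 0x102212, nat_lit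 1, nat_lit 4, nat_lit 0x48⟩ (t14_4566) (t14_12758))) (.node ⟨nat_lit 6, nat_lit 0x40038, nat_lit 0x110002, nat_lit 0, nat_lit 4, nat_lit 0x46⟩ (.node ⟨nat_lit 6, nat_lit 0x2000100030, nat_lit 0x112113, nat_lit 3, nat_lit 4, nat_lit 0x49⟩ (t14_2518) (t14_10710)) (.node ⟨nat_lit 7, nat_lit 0x40004000200060, nat_lit 0x21013, nat_lit 1, nat_lit 4, nat_lit 0x48⟩ (t14_6614) (t14_14806)))) (.node ⟨nat_lit 6, nat_lit 0x80030, nat_lit 0x200111, nat_lit 0, nat_lit 4, nat_lit 0x47⟩ (.node ⟨nat_lit 6, nat_lit 0x20001000100028, nat_lit 0x213211, nat_lit 0, nat_lit 4, nat_lit 0x49⟩ (.node ⟨nat_lit 5, nat_lit 0x18, nat_lit 0x11113, nat_lit 3, nat_lit 3, nat_lit 0x47⟩ (t14_1494) (t14_9686)) (.node ⟨nat_lit 6, nat_lit 0x2000200030, nat_lit 0x22210, nat_lit 1, nat_lit 3, nat_lit 0x47⟩ (t14_5590) (t14_13782))) (.node ⟨nat_lit 6, nat_lit 0x10001000200022, nat_lit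 0x112030, nat_lit 1, nat_lit 4, nat_lit 0x48⟩ (.node ⟨nat_lit 5, nat_lit 0x40018, nat_lit 0x10100, nat_lit 2, nat_lit 4, nat_lit 0x45⟩ (t14_3542) (t14_11734)) (.node ⟨nat_lit 5, nat_lit 0x100018, nat_lit 0x21120, nat_lit 3, nat_lit 3, nat_lit 0x47⟩ (t14_7638) (.nil))))) (.node ⟨nat_lit 7, nat_lit 0x20004000440044, nat_lit 0x1030111, nat_lit 3, nat_lit 4, nat_lit 0x49⟩ (.node ⟨nat_lit 7, nat_lit 0x4000200020, nat_lit 0x121021, nat_lit 0, nat_lit 4, nat_lit 0x4a⟩ (.node ⟨nat_lit 7, nat_lit 0x200040, nat_lit 0x1111111, nat_lit 2, nat_lit 4, nat_lit 0x4b⟩ (.node ⟨nat_lit 6, nat_lit 0x1000100020, nat_lit 0x101103, nat_lit 0, nat_lit 4, nat_lit 0x48⟩ (t14_982) (t14_9174)) (.node ⟨nat_lit 7, nat_lit 0x4000600060, nat_lit 0x122211, nat_lit 0, nat_lit 4, nat_lit 0x49⟩ (t14_5078) (t14_13270))) (.node ⟨nat_lit 7, nat_lit 0x20004000100044, nat_lit 0x1010201,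 nat_lit 0, nat_lit 4, nat_lit 0x48⟩ (.node ⟨nat_lit 4, nat_lit 0x8000c000c, nat_lit 0x2211, nat_lit 0xb, nat_lit 4, nat_lit 0x48⟩ (t14_3030) (t14_11222)) (.node ⟨nat_lit 7, nat_lit 0x4000440060, nat_lit 0x1111202, nat_lit 3, nat_lit 4, nat_lit 0x4a⟩ (t14_7126) (t14_15318)))) (.node ⟨nat_lit 6, nat_lit 0x200030, nat_lit 0x112111, nat_lit 1, nat_lit 4, nat_lit 0x49⟩ (.node ⟨nat_lit 5, nat_lit 0x18, nat_lit 0x30111, nat_lit 1, nat_lit 4, nat_lit 0x48⟩ (.node ⟨nat_lit 6, nat_lit 0x300038, nat_lit 0x102113, nat_lit 3, nat_lit 4, nat_lit 0x48⟩ (t14_2006) (t14_10198)) (.node ⟨nat_lit 7, nat_lit 0x40002000480030, nat_lit 0x1102210, nat_lit 0, nat_lit 4, nat_lit 0x48⟩ (t14_6102) (t14_14294))) (.node ⟨nat_lit 6, nat_lit 0x1000200020, nat_lit 0x21300, nat_lit 1, nat_lit 4, nat_lit 0x49⟩ (.node ⟨nat_lit 8, nat_lit 0x1000a0009000c0, nat_lit 0x1011030, nat_lit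 0, nat_lit 4, nat_lit 0x48⟩ (t14_4054) (t14_12246)) (.node ⟨nat_lit 7, nat_lit 0x2000200040, nat_lit 0x1011201, nat_lit 1, nat_lit 3, nat_lit 0x48⟩ (t14_8150) (.nil)))))
def t14_54 : Tr := .node ⟨nat_lit 4, nat_lit 0x80008, nat_lit 0x1211, nat_lit 0xd, nat_lit 4, nat_lit 0x49⟩ (.nil) (.nil)
def t14_8246 : Tr := .node ⟨nat_lit 7, nat_lit 0x40002000100060, nat_lit 0x12010, nat_lit 0, nat_lit 4, nat_lit 0x47⟩ (.nil) (.nil)
def t14_4150 : Tr := .node ⟨nat_lit 8, nat_lit 0x800080004000200090, nat_lit 0x1120101, nat_lit 1, nat_lit 4, nat_lit 0x49⟩ (.nil) (.nil)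
def t14_12342 : Tr := .node ⟨nat_lit 6, nat_lit 0x10001000100020, nat_lit 0x104101, nat_lit 2, nat_lit 3, nat_lit 0x47⟩ (.nil) (.nil)
def t14_2102 : Tr := .node ⟨nat_lit 7, nat_lit 0x40004000400020, nat_lit 0x113100, nat_lit 4, nat_lit 4, nat_lit 0x4a⟩ (.nil) (.nil)
def t14_10294 : Tr := .node ⟨nat_lit 6, nat_lit 0x1000280030, nat_lit 0x100000, nat_lit 2, nat_lit 4, nat_lit 0x45⟩ (.nil) (.nil)
def t14_6198 : Tr := .node ⟨nat_lit 8, nat_lit 0x8000400020, nat_lit 0x111001, nat_lit 0, nat_lit 4, nat_lit 0x4a⟩ (.nil) (.nil)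
def t14_14390 : Tr := .node ⟨nat_lit 7, nat_lit 0x10006000600070, nat_lit 0x2203, nat_lit 0, nat_lit 4, nat_lit 0x45⟩ (.nil) (.nil)
def t14_1078 : Tr := .node ⟨nat_lit 5, nat_lit 0x800100010, nat_lit 0x10211, nat_lit 5, nat_lit 4, nat_lit 0x47⟩ (.nil) (.nil)
def t14_9270 : Tr := .node ⟨nat_lit 7, nat_lit 0x400020005000500060, nat_lit 0x11102, nat_lit 2, nat_lit 4, nat_lit 0x46⟩ (.nil) (.nil)
def t14_5174 : Tr := .node ⟨nat_lit 6, nat_lit 0x2000300030, nat_lit 0x11320, nat_lit 3, nat_lit 4, nat_lit 0x48⟩ (.nil) (.nil)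
def t14_13366 : Tr := .node ⟨nat_lit 4, nat_lit 0xc000c, nat_lit 0x3030, nat_lit 3, nat_lit 3, nat_lit 0x45⟩ (.nil) (.nil)
def t14_3126 : Tr := .node ⟨nat_lit 8, nat_lit 0x4000800060009000d000d0, nat_lit 0x10100021, nat_lit 0, nat_lit 4, nat_lit 0x45⟩ (.nil) (.nil)
def t14_11318 : Tr := .node ⟨nat_lit 7, nat_lit 0x20004000600060, nat_lit 0x21120, nat_lit 3, nat_lit 4, nat_lit 0x48⟩ (.nil) (.nil)
def t14_7222 : Tr := .node ⟨nat_lit 7, nat_lit 0x20004000440030, nat_lit 0x1101221, nat_lit 0, nat_lit 4, nat_lit 0x48⟩ (.nil) (.nil)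
def t14_15414 : Tr := .node ⟨nat_lit 9, nat_lit 0x800100010000c0012001c001a0, nat_lit 0x11101001, nat_lit 0, nat_lit 4, nat_lit 0x47⟩ (.nil) (.nil)
def t14_566 : Tr := .node ⟨nat_lit 6, nat_lit 0x10001000200020, nat_lit 0x2210, nat_lit 0, nat_lit 3, nat_lit 0x45⟩ (.nil) (.nil)
def t14_8758 : Tr := .node ⟨nat_lit 5, nat_lit 0x1000080008, nat_lit 0x11110, nat_lit 4, nat_lit 3, nat_lit 0x46⟩ (.nil) (.nil)
def t14_4662 : Tr := .node ⟨nat_lit 8, nat_lit 0x800040009000a000d0, nat_lit 0x10010212, nat_lit 0, nat_lit 4, nat_lit 0x47⟩ (.nil) (.nil)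
def t14_12854 : Tr := .node ⟨nat_lit 5, nat_lit 0x100018, nat_lit 0x10300, nat_lit 3, nat_lit 4, nat_lit 0x47⟩ (.nil) (.nil)
def t14_2614 : Tr := .node ⟨nat_lit 7, nat_lit 0x40002000100060, nat_lit 0x101002, nat_lit 1, nat_lit 4, nat_lit 0x47⟩ (.nil) (.nil)
def t14_10806 : Tr := .node ⟨nat_lit 9, nat_lit 0x100008000400020, nat_lit 0x220001, nat_lit 1, nat_lit 3, nat_lit 0x4a⟩ (.nil) (.nil)
def t14_6710 : Tr := .node ⟨nat_lit 7, nat_lit 0x400042, nat_lit 0x111120, nat_lit 1, nat_lit 4, nat_lit 0x4a⟩ (.nil) (.nil)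
def t14_14902 : Tr := .node ⟨nat_lit 7, nat_lit 0x40001000480068, nat_lit 0x1011111, nat_lit 0, nat_lit 4, nat_lit 0x47⟩ (.nil) (.nil)
def t14_1590 : Tr := .node ⟨nat_lit 6, nat_lit 0x80030, nat_lit 0x111110, nat_lit 0, nat_lit 3, nat_lit 0x47⟩ (.nil) (.nil)
def t14_9782 : Tr := .node ⟨nat_lit 8, nat_lit 0x4000a000c000c0, nat_lit 0x111220, nat_lit 0, nat_lit 4, nat_lit 0x48⟩ (.nil) (.nil)
def t14_5686 : Tr := .node ⟨nat_lit 8, nat_lit 0x1000a000c0, nat_lit 0x1101022, nat_lit 0, nat_lit 4, nat_lit 0x49⟩ (.nil) (.nil)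
def t14_13878 : Tr := .node ⟨nat_lit 5, nat_lit 0x800100012, nat_lit 0x230, nat_lit 3, nat_lit 4, nat_lit 0x46⟩ (.nil) (.nil)
def t14_3638 : Tr := .node ⟨nat_lit 8, nat_lit 0x10004000a000c0, nat_lit 0x200001, nat_lit 1, nat_lit 4, nat_lit 0x48⟩ (.nil) (.nil)
def t14_11830 : Tr := .node ⟨nat_lit 5, nat_lit 0x10001000100018, nat_lit 0x103, nat_lit 7, nat_lit 4, nat_lit 0x46⟩ (.nil) (.nil)
def t14_7734 : Tr := .node ⟨nat_lit 5, nat_lit 0x100008001a, nat_lit 0x21, nat_lit 5, nat_lit 4, nat_lit 0x45⟩ (.nil) (.nil)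
def t9_54 : Tr := .node ⟨nat_lit 4, nat_lit 0xc, nat_lit 0x2111, nat_lit 5, nat_lit 3, nat_lit 0x46⟩ (.node ⟨nat_lit 5, nat_lit 0x100018, nat_lit 0x11312, nat_lit 2, nat_lit 4, nat_lit 0x48⟩ (.node ⟨nat_lit 4, nat_lit 0, nat_lit 0x4100, nat_lit 0, nat_lit 4, nat_lit 0x47⟩ (.node ⟨nat_lit 6, nat_lit 0x2000100032, nat_lit 0x12110, nat_lit 2, nat_lit 4, nat_lit 0x47⟩ (.node ⟨nat_lit 5, nat_lit 0x1c, nat_lit 0x22003, nat_lit 0, nat_lit 4, nat_lit 0x47⟩ (t14_54) (t14_8246)) (.node ⟨nat_lit 6, nat_lit 0x800300030, nat_lit 0x101110, nat_lit 1, nat_lit 4, nat_lit 0x46⟩ (t14_4150) (t14_12342))) (.node ⟨nat_lit 6, nat_lit 0x800080030, nat_lit 0x221112, nat_lit 0, nat_lit 4, nat_lit 0x49⟩ (.node ⟨nat_lit 5, nat_lit 0x100008, nat_lit 0x1131, nat_lit 2, nat_lit 4, nat_lit 0x47⟩ (t14_2102) (t14_10294)) (.node ⟨nat_lit 5, nat_lit 0x40018, nat_lit 0x21010, nat_lit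 2, nat_lit 4, nat_lit 0x46⟩ (t14_6198) (t14_14390)))) (.node ⟨nat_lit 2, nat_lit 2, nat_lit 0x22, nat_lit 8, nat_lit 4, nat_lit 0x45⟩ (.node ⟨nat_lit 6, nat_lit 0x1000100020, nat_lit 0x122111, nat_lit 2, nat_lit 4, nat_lit 0x4a⟩ (.node ⟨nat_lit 6, nat_lit 0x2000080030, nat_lit 0x1330, nat_lit 0, nat_lit 4, nat_lit 0x47⟩ (t14_1078) (t14_9270)) (.node ⟨nat_lit 4, nat_lit 0x80008, nat_lit 0x1321, nat_lit 8, nat_lit 3, nat_lit 0x47⟩ (t14_5174) (t14_13366))) (.node ⟨nat_lit 3, nat_lit 4, nat_lit 0x121, nat_lit 0xa, nat_lit 4, nat_lit 0x47⟩ (.node ⟨nat_lit 4, nat_lit 0xc, nat_lit 0x1020, nat_lit 7, nat_lit 4, nat_lit 0x47⟩ (t14_3126) (t14_11318)) (.node ⟨nat_lit 7, nat_lit 0x600060, nat_lit 0x1111121, nat_lit 1, nat_lit 4, nat_lit 0x4a⟩ (t14_7222) (t14_15414))))) (.node ⟨nat_lit 3, nat_lit 6, nat_lit 0x310, nat_lit 5, nat_lit 3, nat_lit 0x45⟩ (.node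 ⟨nat_lit 8, nat_lit 0x80004000200010, nat_lit 0x20000, nat_lit 1, nat_lit 3, nat_lit 0x48⟩ (.node ⟨nat_lit 4, nat_lit 0x8000a, nat_lit 0x212, nat_lit 4, nat_lit 4, nat_lit 0x45⟩ (.node ⟨nat_lit 7, nat_lit 0x400020, nat_lit 0x1211111, nat_lit 3, nat_lit 4, nat_lit 0x4c⟩ (t14_566) (t14_8758)) (.node ⟨nat_lit 5, nat_lit 0x180018, nat_lit 0x11211, nat_lit 3, nat_lit 4, nat_lit 0x47⟩ (t14_4662) (t14_12854))) (.node ⟨nat_lit 6, nat_lit 0x800300028, nat_lit 0x100112, nat_lit 2, nat_lit 4, nat_lit 0x46⟩ (.node ⟨nat_lit 8, nat_lit 0x800080002000400090, nat_lit 0x1100130, nat_lit 1, nat_lit 4, nat_lit 0x49⟩ (t14_2614) (t14_10806)) (.node ⟨nat_lit 7, nat_lit 0x2000200040, nat_lit 0x1122101, nat_lit 1, nat_lit 4, nat_lit 0x4b⟩ (t14_6710) (t14_14902)))) (.node ⟨nat_lit 6, nat_lit 0x2000080034, nat_lit 0x12211, nat_lit 0, nat_lit 4, nat_lit 0x47⟩ (.node ⟨nat_lit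 7, nat_lit 0x2000400060, nat_lit 0x2021101, nat_lit 1, nat_lit 4, nat_lit 0x4a⟩ (.node ⟨nat_lit 6, nat_lit 0x2000300038, nat_lit 0x1013, nat_lit 5, nat_lit 4, nat_lit 0x46⟩ (t14_1590) (t14_9782)) (.node ⟨nat_lit 7, nat_lit 0x20001000400040, nat_lit 0x1112110, nat_lit 0, nat_lit 4, nat_lit 0x49⟩ (t14_5686) (t14_13878))) (.node ⟨nat_lit 6, nat_lit 0x2000100010, nat_lit 0x22022, nat_lit 0, nat_lit 3, nat_lit 0x48⟩ (.node ⟨nat_lit 7, nat_lit 0x20004000640064, nat_lit 0x1020030, nat_lit 1, nat_lit 4, nat_lit 0x46⟩ (t14_3638) (t14_11830)) (.node ⟨nat_lit 7, nat_lit 0x2000400040, nat_lit 0x1111210, nat_lit 0, nat_lit 4, nat_lit 0x4a⟩ (t14_7734) (.nil)))))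
def t14_310 : Tr := .node ⟨nat_lit 8, nat_lit 0x2000c000a0, nat_lit 0x10021211, nat_lit 0, nat_lit 4, nat_lit 0x4a⟩ (.nil) (.nil)
def t14_8502 : Tr := .node ⟨nat_lit 8, nat_lit 0x40008000800060008800d0, nat_lit 0x110101, nat_lit 0, nat_lit 4, nat_lit 0x45⟩ (.nil) (.nil)
def t14_4406 : Tr := .node ⟨nat_lit 7, nat_lit 0x4000540064, nat_lit 0x1111100, nat_lit 1, nat_lit 4, nat_lit 0x48⟩ (.nil) (.nil)
def t14_12598 : Tr := .node ⟨nat_lit 7, nat_lit 0x20004000500064, nat_lit 0x1002000, nat_lit 0, nat_lit 4, nat_lit 0x46⟩ (.nil) (.nil)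
def t14_2358 : Tr := .node ⟨nat_lit 8, nat_lit 0x80002000a800a800d0, nat_lit 0x1220101, nat_lit 0, nat_lit 4, nat_lit 0x47⟩ (.nil) (.nil)
def t14_10550 : Tr := .node ⟨nat_lit 8, nat_lit 0x6000c000a0, nat_lit 0x11022, nat_lit 0, nat_lit 4, nat_lit 0x48⟩ (.nil) (.nil)
def t14_6454 : Tr := .node ⟨nat_lit 8, nat_lit 0x80004000400040005000a0, nat_lit 0x10011110, nat_lit 2, nat_lit 4, nat_lit 0x48⟩ (.nil) (.nil)
def t14_14646 : Tr := .node ⟨nat_lit 7, nat_lit 0x40002000480060, nat_lit 0x112101, nat_lit 0, nat_lit 4, nat_lit 0x48⟩ (.nil) (.nil)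
def t14_1334 : Tr := .node ⟨nat_lit 8, nat_lit 0x4000800080008800c8, nat_lit 0x10110102, nat_lit 1, nat_lit 4, nat_lit 0x48⟩ (.nil) (.nil)
def t14_9526 : Tr := .node ⟨nat_lit 7, nat_lit 0x40001000480068, nat_lit 0x1011021, nat_lit 0, nat_lit 4, nat_lit 0x47⟩ (.nil) (.nil)
def t14_5430 : Tr := .node ⟨nat_lit 7, nat_lit 0x4000400060, nat_lit 0x11320, nat_lit 3, nat_lit 4, nat_lit 0x4a⟩ (.nil) (.nil)
def t14_13622 : Tr := .node ⟨nat_lit 7, nat_lit 0x10002000400060, nat_lit 2, nat_lit 1, nat_lit 4, nat_lit 0x46⟩ (.nil) (.nil)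
def t14_3382 : Tr := .node ⟨nat_lit 6, nat_lit 0x2000200030, nat_lit 0x12001, nat_lit 0, nat_lit 3, nat_lit 0x46⟩ (.nil) (.nil)
def t14_11574 : Tr := .node ⟨nat_lit 3, nat_lit 6, nat_lit 4, nat_lit 7, nat_lit 4, nat_lit 0x44⟩ (.nil) (.nil)
def t14_7478 : Tr := .node ⟨nat_lit 7, nat_lit 0x1000200040, nat_lit 0x1111010, nat_lit 3, nat_lit 4, nat_lit 0x4a⟩ (.nil) (.nil)
def t14_822 : Tr := .node ⟨nat_lit 7, nat_lit 0x40004000100060, nat_lit 0x113111, nat_lit 2, nat_lit 4, nat_lit 0x49⟩ (.nil) (.nil)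
def t14_9014 : Tr := .node ⟨nat_lit 9, nat_lit 0x80010001000100010801100120, nat_lit 0x110010, nat_lit 7, nat_lit 4, nat_lit 0x49⟩ (.nil) (.nil)
def t14_4918 : Tr := .node ⟨nat_lit 9, nat_lit 0x800100, nat_lit 0x111111100, nat_lit 0, nat_lit 4, nat_lit 0x4e⟩ (.nil) (.nil)
def t14_13110 : Tr := .node ⟨nat_lit 7, nat_lit 0x20004000100044, nat_lit 0x10320, nat_lit 0, nat_lit 4, nat_lit 0x48⟩ (.nil) (.nil)
def t14_2870 : Tr := .node ⟨nat_lit 6, nat_lit 0x2000200030, nat_lit 0x1301, nat_lit 0, nat_lit 3, nat_lit 0x46⟩ (.nil) (.nil)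
def t14_11062 : Tr := .node ⟨nat_lit 7, nat_lit 0x10001000600060, nat_lit 0x1111120, nat_lit 0, nat_lit 4, nat_lit 0x48⟩ (.nil) (.nil)
def t14_6966 : Tr := .node ⟨nat_lit 7, nat_lit 0x100060, nat_lit 0x2101001, nat_lit 1, nat_lit 4, nat_lit 0x4a⟩ (.nil) (.nil)
def t14_15158 : Tr := .node ⟨nat_lit 8, nat_lit 0x8000200020009000c0, nat_lit 0x1011011, nat_lit 3, nat_lit 4, nat_lit 0x48⟩ (.nil) (.nil)
def t14_1846 : Tr := .node ⟨nat_lit 6, nat_lit 0x800200030, nat_lit 0x30013, nat_lit 0, nat_lit 4, nat_lit 0x48⟩ (.nil) (.nil)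
def t14_10038 : Tr := .node ⟨nat_lit 7, nat_lit 0x6000480070, nat_lit 0x110022, nat_lit 0, nat_lit 4, nat_lit 0x46⟩ (.nil) (.nil)
def t14_5942 : Tr := .node ⟨nat_lit 8, nat_lit 0x8000800084, nat_lit 0x1111211, nat_lit 0, nat_lit 4, nat_lit 0x4b⟩ (.nil) (.nil)
def t14_14134 : Tr := .node ⟨nat_lit 7, nat_lit 0x400040004000200020, nat_lit 0x20021, nat_lit 3, nat_lit 4, nat_lit 0x48⟩ (.nil) (.nil)
def t14_3894 : Tr := .node ⟨nat_lit 8, nat_lit 0x8000800040009000e000e0, nat_lit 0x10112010, nat_lit 1, nat_lit 4, nat_lit 0x47⟩ (.nil) (.nil)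
def t14_12086 : Tr := .node ⟨nat_lit 7, nat_lit 0x400020002000500068, nat_lit 0x131000, nat_lit 1, nat_lit 4, nat_lit 0x47⟩ (.nil) (.nil)
def t14_7990 : Tr := .node ⟨nat_lit 5, nat_lit 0x10001000180018, nat_lit 0x1031, nat_lit 0xb, nat_lit 4, nat_lit 0x47⟩ (.nil) (.nil)
def t9_310 : Tr := .node ⟨nat_lit 4, nat_lit 0, nat_lit 0x3211, nat_lit 6, nat_lit 4, nat_lit 0x4a⟩ (.node ⟨nat_lit 5, nat_lit 0x1c, nat_lit 0x32112, nat_lit 1, nat_lit 4, nat_lit 0x49⟩ (.node ⟨nat_lit 4, nat_lit 0, nat_lit 0x3211, nat_lit 0xb, nat_lit 4, nat_lit 0x4b⟩ (.node ⟨nat_lit 5, nat_lit 0x100018, nat_lit 0x11132, nat_lit 3, nat_lit 4, nat_lit 0x48⟩ (.node ⟨nat_lit 5, nat_lit 0x1000100008, nat_lit 0x12111, nat_lit 9, nat_lit 4, nat_lit 0x49⟩ (t14_310) (t14_8502)) (.node ⟨nat_lit 6, nat_lit 0x1000280034, nat_lit 0x101110, nat_lit 0, nat_lit 4, nat_lit 0x45⟩ (t14_4406) (t14_12598)))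 (.node ⟨nat_lit 7, nat_lit 0x40001000100060, nat_lit 0x2012112, nat_lit 0, nat_lit 4, nat_lit 0x49⟩ (.node ⟨nat_lit 6, nat_lit 0x20002000100030, nat_lit 0x12033, nat_lit 3, nat_lit 4, nat_lit 0x48⟩ (t14_2358) (t14_10550)) (.node ⟨nat_lit 7, nat_lit 0x400060, nat_lit 0x211120, nat_lit 0, nat_lit 4, nat_lit 0x4a⟩ (t14_6454) (t14_14646)))) (.node ⟨nat_lit 5, nat_lit 0x18, nat_lit 0x20111, nat_lit 2, nat_lit 4, nat_lit 0x47⟩ (.node ⟨nat_lit 5, nat_lit 0x80010, nat_lit 0x22223, nat_lit 1, nat_lit 4, nat_lit 0x4a⟩ (.node ⟨nat_lit 7, nat_lit 0x200040003000480070, nat_lit 0x111013, nat_lit 0, nat_lit 4, nat_lit 0x45⟩ (t14_1334) (t14_9526)) (.node ⟨nat_lit 6, nat_lit 0x1000200030, nat_lit 0x102112, nat_lit 3, nat_lit 4, nat_lit 0x48⟩ (t14_5430) (t14_13622))) (.node ⟨nat_lit 5, nat_lit 0x40018, nat_lit 0x11230, nat_lit 1, nat_lit 4, nat_lit 0x48⟩ (.node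 ⟨nat_lit 5, nat_lit 0x1000180018, nat_lit 0x11230, nat_lit 3, nat_lit 3, nat_lit 0x45⟩ (t14_3382) (t14_11574)) (.node ⟨nat_lit 7, nat_lit 0x20004000500064, nat_lit 0x111212, nat_lit 1, nat_lit 4, nat_lit 0x47⟩ (t14_7478) (.nil))))) (.node ⟨nat_lit 7, nat_lit 0x400060, nat_lit 0x31101, nat_lit 1, nat_lit 4, nat_lit 0x4a⟩ (.node ⟨nat_lit 6, nat_lit 0x2000100024, nat_lit 0x21220, nat_lit 1, nat_lit 4, nat_lit 0x48⟩ (.node ⟨nat_lit 5, nat_lit 0x10, nat_lit 0x1110, nat_lit 5, nat_lit 4, nat_lit 0x48⟩ (.node ⟨nat_lit 5, nat_lit 0x10, nat_lit 0x32221, nat_lit 0, nat_lit 4, nat_lit 0x4b⟩ (t14_822) (t14_9014)) (.node ⟨nat_lit 6, nat_lit 0x30, nat_lit 0x221112, nat_lit 1, nat_lit 4, nat_lit 0x4b⟩ (t14_4918) (t14_13110))) (.node ⟨nat_lit 8, nat_lit 0x8000400020002000c0, nat_lit 0x1001102, nat_lit 0, nat_lit 4, nat_lit 0x48⟩ (.node ⟨nat_lit 4, nat_lit 0x8000a,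 nat_lit 0x1121, nat_lit 7, nat_lit 4, nat_lit 0x47⟩ (t14_2870) (t14_11062)) (.node ⟨nat_lit 8, nat_lit 0x800040009000900090, nat_lit 0x10110220, nat_lit 0, nat_lit 4, nat_lit 0x49⟩ (t14_6966) (t14_15158)))) (.node ⟨nat_lit 6, nat_lit 0x280030, nat_lit 0x121110, nat_lit 1, nat_lit 4, nat_lit 0x48⟩ (.node ⟨nat_lit 7, nat_lit 0x4000400060, nat_lit 0x211211, nat_lit 0, nat_lit 4, nat_lit 0x4a⟩ (.node ⟨nat_lit 6, nat_lit 0x10002000240038, nat_lit 0x11113, nat_lit 2, nat_lit 4, nat_lit 0x45⟩ (t14_1846) (t14_10038)) (.node ⟨nat_lit 7, nat_lit 0x40001000100060, nat_lit 0x211002, nat_lit 1, nat_lit 4, nat_lit 0x48⟩ (t14_5942) (t14_14134))) (.node ⟨nat_lit 5, nat_lit 0x1000180018, nat_lit 0x1221, nat_lit 4, nat_lit 4, nat_lit 0x46⟩ (.node ⟨nat_lit 7, nat_lit 0x40001000600070, nat_lit 0x110203, nat_lit 0, nat_lit 4, nat_lit 0x47⟩ (t14_3894) (t14_12086)) (.node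 ⟨nat_lit 8, nat_lit 0x200080008000c0, nat_lit 0x1010102, nat_lit 1, nat_lit 4, nat_lit 0x49⟩ (t14_7990) (.nil)))))
def t14_182 : Tr := .node ⟨nat_lit 7, nat_lit 0x40004000200060, nat_lit 0x1012121, nat_lit 2, nat_lit 4, nat_lit 0x49⟩ (.nil) (.nil)
def t14_8374 : Tr := .node ⟨nat_lit 7, nat_lit 0x4000100064, nat_lit 0x110213, nat_lit 0, nat_lit 4, nat_lit 0x48⟩ (.nil) (.nil)
def t14_4278 : Tr := .node ⟨nat_lit 8, nat_lit 0x80008000800040, nat_lit 0x1211101, nat_lit 2, nat_lit 4, nat_lit 0x4b⟩ (.nil) (.nil)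
def t14_12470 : Tr := .node ⟨nat_lit 7, nat_lit 0x200020002000400040, nat_lit 0x30031, nat_lit 0, nat_lit 4, nat_lit 0x48⟩ (.nil) (.nil)
def t14_2230 : Tr := .node ⟨nat_lit 8, nat_lit 0x800040004000400020, nat_lit 0x102200, nat_lit 3, nat_lit 4, nat_lit 0x4a⟩ (.nil) (.nil)
def t14_10422 : Tr := .node ⟨nat_lit 8, nat_lit 0x8000800020002000c0, nat_lit 0x22100, nat_lit 4, nat_lit 4, nat_lit 0x49⟩ (.nil) (.nil)
def t14_6326 : Tr := .node ⟨nat_lit 5, nat_lit 0x1000080018, nat_lit 0x20, nat_lit 3, nat_lit 3, nat_lit 0x44⟩ (.nil) (.nil)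
def t14_14518 : Tr := .node ⟨nat_lit 8, nat_lit 0x800020002000c0, nat_lit 0x12000, nat_lit 3, nat_lit 4, nat_lit 0x49⟩ (.nil) (.nil)
def t14_1206 : Tr := .node ⟨nat_lit 7, nat_lit 0x3000500060, nat_lit 0x101212, nat_lit 2, nat_lit 4, nat_lit 0x47⟩ (.nil) (.nil)
def t14_9398 : Tr := .node ⟨nat_lit 7, nat_lit 0x4000400040, nat_lit 0x221210, nat_lit 0, nat_lit 3, nat_lit 0x49⟩ (.nil) (.nil)
def t14_5302 : Tr := .node ⟨nat_lit 5, nat_lit 0x80010001c, nat_lit 0x11110, nat_lit 5, nat_lit 4, nat_lit 0x46⟩ (.nil) (.nil)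
def t14_13494 : Tr := .node ⟨nat_lit 8, nat_lit 0x8000200020009000c0, nat_lit 0x31010, nat_lit 0, nat_lit 4, nat_lit 0x48⟩ (.nil) (.nil)
def t14_3254 : Tr := .node ⟨nat_lit 8, nat_lit 0x800040004000c000c8, nat_lit 0x121210, nat_lit 0, nat_lit 4, nat_lit 0x48⟩ (.nil) (.nil)
def t14_11446 : Tr := .node ⟨nat_lit 7, nat_lit 0x20004000600064, nat_lit 0x1011010, nat_lit 2, nat_lit 4, nat_lit 0x47⟩ (.nil) (.nil)
def t14_7350 : Tr := .node ⟨nat_lit 7, nat_lit 0x2000400064, nat_lit 0x1221011, nat_lit 0, nat_lit 4, nat_lit 0x4a⟩ (.nil) (.nil)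
def t14_15542 : Tr := .node ⟨nat_lit 9, nat_lit 0x1000080, nat_lit 0x1111100, nat_lit 5, nat_lit 4, nat_lit 0x4e⟩ (.nil) (.nil)
def t14_694 : Tr := .node ⟨nat_lit 6, nat_lit 0x800280030, nat_lit 0x10310, nat_lit 1, nat_lit 4, nat_lit 0x46⟩ (.nil) (.nil)
def t14_8886 : Tr := .node ⟨nat_lit 8, nat_lit 0x800020002000400090, nat_lit 0x1020012, nat_lit 0, nat_lit 4, nat_lit 0x48⟩ (.nil) (.nil)
def t14_4790 : Tr := .node ⟨nat_lit 7, nat_lit 0x2000500060, nat_lit 0x121102, nat_lit 2, nat_lit 4, nat_lit 0x49⟩ (.nil) (.nil)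
def t14_12982 : Tr := .node ⟨nat_lit 6, nat_lit 0x10002000240024, nat_lit 0x210, nat_lit 7, nat_lit 4, nat_lit 0x47⟩ (.nil) (.nil)
def t14_2742 : Tr := .node ⟨nat_lit 7, nat_lit 0x40001000500060, nat_lit 0x201200, nat_lit 1, nat_lit 4, nat_lit 0x47⟩ (.nil) (.nil)
def t14_10934 : Tr := .node ⟨nat_lit 4, nat_lit 0xc000c, nat_lit 0x2010, nat_lit 2, nat_lit 3, nat_lit 0x44⟩ (.nil) (.nil)
def t14_6838 : Tr := .node ⟨nat_lit 7, nat_lit 0x4000100060, nat_lit 0x111210, nat_lit 2, nat_lit 4, nat_lit 0x49⟩ (.nil) (.nil)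
def t14_15030 : Tr := .node ⟨nat_lit 9, nat_lit 0x100008000800140014001a001a0, nat_lit 0x11021110, nat_lit 1, nat_lit 4, nat_lit 0x47⟩ (.nil) (.nil)
def t14_1718 : Tr := .node ⟨nat_lit 8, nat_lit 0x4000800088006000c8, nat_lit 0x10111112, nat_lit 0, nat_lit 4, nat_lit 0x47⟩ (.nil) (.nil)
def t14_9910 : Tr := .node ⟨nat_lit 6, nat_lit 0x3000300030, nat_lit 0x1430, nat_lit 3, nat_lit 4, nat_lit 0x47⟩ (.nil) (.nil)
def t14_5814 : Tr := .node ⟨nat_lit 6, nat_lit 0x200030, nat_lit 0x1121, nat_lit 7, nat_lit 4, nat_lit 0x49⟩ (.nil) (.nil)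
def t14_14006 : Tr := .node ⟨nat_lit 7, nat_lit 0x400040002000200050, nat_lit 0x1001212, nat_lit 0, nat_lit 4, nat_lit 0x47⟩ (.nil) (.nil)
def t14_3766 : Tr := .node ⟨nat_lit 7, nat_lit 0x4000500060, nat_lit 0x12210, nat_lit 1, nat_lit 3, nat_lit 0x47⟩ (.nil) (.nil)
def t14_11958 : Tr := .node ⟨nat_lit 6, nat_lit 0x1000200022, nat_lit 0x2031, nat_lit 2, nat_lit 4, nat_lit 0x48⟩ (.nil) (.nil)
def t14_7862 : Tr := .node ⟨nat_lit 6, nat_lit 0x20002000100028, nat_lit 0x11101, nat_lit 5, nat_lit 4, nat_lit 0x47⟩ (.nil) (.nil)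
def t9_182 : Tr := .node ⟨nat_lit 5, nat_lit 0, nat_lit 0x33111, nat_lit 0, nat_lit 4, nat_lit 0x4b⟩ (.node ⟨nat_lit 5, nat_lit 0x180018, nat_lit 0x11322, nat_lit 4, nat_lit 4, nat_lit 0x48⟩ (.node ⟨nat_lit 5, nat_lit 0x140018, nat_lit 0x3122, nat_lit 2, nat_lit 4, nat_lit 0x47⟩ (.node ⟨nat_lit 3, nat_lit 6, nat_lit 0x214, nat_lit 9, nat_lit 4, nat_lit 0x47⟩ (.node ⟨nat_lit 7, nat_lit 0x40002000500060, nat_lit 0x120122, nat_lit 0, nat_lit 4, nat_lit 0x48⟩ (t14_182) (t14_8374)) (.node ⟨nat_lit 6, nat_lit 0x80030, nat_lit 0x1002, nat_lit 0, nat_lit 4, nat_lit 0x46⟩ (t14_4278) (t14_12470))) (.node ⟨nat_lit 5, nat_lit 0x80010, nat_lit 0x12231, nat_lit 4, nat_lit 4, nat_lit 0x4a⟩ (.node ⟨nat_lit 6, nat_lit 0x2000240018, nat_lit 0x11201, nat_lit 0, nat_lit 4, nat_lit 0x46⟩ (t14_2230) (t14_10422)) (.node ⟨nat_lit 5, nat_lit 0x180018, nat_lit 0x10232,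 nat_lit 4, nat_lit 4, nat_lit 0x47⟩ (t14_6326) (t14_14518)))) (.node ⟨nat_lit 5, nat_lit 0x180018, nat_lit 0x11121, nat_lit 7, nat_lit 4, nat_lit 0x47⟩ (.node ⟨nat_lit 6, nat_lit 0x2000200034, nat_lit 0x121121, nat_lit 3, nat_lit 4, nat_lit 0x49⟩ (.node ⟨nat_lit 3, nat_lit 4, nat_lit 0x114, nat_lit 0xa, nat_lit 4, nat_lit 0x48⟩ (t14_1206) (t14_9398)) (.node ⟨nat_lit 6, nat_lit 0x10002000300038, nat_lit 0x111212, nat_lit 3, nat_lit 4, nat_lit 0x47⟩ (t14_5302) (t14_13494))) (.node ⟨nat_lit 6, nat_lit 0x2000080030, nat_lit 0x2320, nat_lit 1, nat_lit 4, nat_lit 0x48⟩ (.node ⟨nat_lit 6, nat_lit 0x2000080030, nat_lit 0x101201, nat_lit 1, nat_lit 4, nat_lit 0x47⟩ (t14_3254) (t14_11446)) (.node ⟨nat_lit 7, nat_lit 0x40004000100068, nat_lit 0x1111012, nat_lit 0, nat_lit 4, nat_lit 0x48⟩ (t14_7350) (t14_15542))))) (.node ⟨nat_lit 4, nat_lit 0x40008, nat_lit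 0x1321, nat_lit 8, nat_lit 4, nat_lit 0x49⟩ (.node ⟨nat_lit 5, nat_lit 0x10001c, nat_lit 0x12112, nat_lit 3, nat_lit 4, nat_lit 0x47⟩ (.node ⟨nat_lit 7, nat_lit 0x20002000400040, nat_lit 0x1022011, nat_lit 0, nat_lit 4, nat_lit 0x49⟩ (.node ⟨nat_lit 6, nat_lit 0x800300030, nat_lit 0x201210, nat_lit 1, nat_lit 4, nat_lit 0x47⟩ (t14_694) (t14_8886)) (.node ⟨nat_lit 8, nat_lit 0x800040004000a000c8, nat_lit 0x1022010, nat_lit 1, nat_lit 4, nat_lit 0x48⟩ (t14_4790) (t14_12982))) (.node ⟨nat_lit 5, nat_lit 0x100018, nat_lit 0x1111, nat_lit 3, nat_lit 4, nat_lit 0x46⟩ (.node ⟨nat_lit 8, nat_lit 0x80008000800040004000a0, nat_lit 0x1111301, nat_lit 0, nat_lit 4, nat_lit 0x49⟩ (t14_2742) (t14_10934)) (.node ⟨nat_lit 6, nat_lit 0x800080030, nat_lit 0x110102, nat_lit 2, nat_lit 4, nat_lit 0x47⟩ (t14_6838) (t14_15030)))) (.node ⟨nat_lit 6, nat_lit 0x200022,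 nat_lit 0x111122, nat_lit 0, nat_lit 4, nat_lit 0x49⟩ (.node ⟨nat_lit 6, nat_lit 0x10001000200030, nat_lit 0x201121, nat_lit 0, nat_lit 3, nat_lit 0x46⟩ (.node ⟨nat_lit 6, nat_lit 0x2000080030, nat_lit 0x1001, nat_lit 3, nat_lit 4, nat_lit 0x46⟩ (t14_1718) (t14_9910)) (.node ⟨nat_lit 7, nat_lit 0x20004000680068, nat_lit 0x221210, nat_lit 1, nat_lit 4, nat_lit 0x48⟩ (t14_5814) (t14_14006))) (.node ⟨nat_lit 7, nat_lit 0x5000180060, nat_lit 0x220021, nat_lit 2, nat_lit 4, nat_lit 0x48⟩ (.node ⟨nat_lit 6, nat_lit 0x800300028, nat_lit 0x11203, nat_lit 1, nat_lit 4, nat_lit 0x47⟩ (t14_3766) (t14_11958)) (.node ⟨nat_lit 8, nat_lit 0x200080008000c800c8, nat_lit 0x11000121, nat_lit 3, nat_lit 4, nat_lit 0x48⟩ (t14_7862) (.nil)))))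
def t14_438 : Tr := .node ⟨nat_lit 7, nat_lit 0x10004000600064, nat_lit 0x1200121, nat_lit 1, nat_lit 4, nat_lit 0x48⟩ (.nil) (.nil)
def t14_8630 : Tr := .node ⟨nat_lit 5, nat_lit 0x100018001c, nat_lit 0x20, nat_lit 5, nat_lit 4, nat_lit 0x44⟩ (.nil) (.nil)
def t14_4534 : Tr := .node ⟨nat_lit 5, nat_lit 0x1000100008, nat_lit 0x11210, nat_lit 0xa, nat_lit 4, nat_lit 0x49⟩ (.nil) (.nil)
def t14_12726 : Tr := .node ⟨nat_lit 7, nat_lit 0x500060, nat_lit 0x1011120, nat_lit 0, nat_lit 4, nat_lit 0x49⟩ (.nil) (.nil)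
def t14_2486 : Tr := .node ⟨nat_lit 7, nat_lit 0x40001000600068, nat_lit 0x1012002, nat_lit 0, nat_lit 4, nat_lit 0x47⟩ (.nil) (.nil)
def t14_10678 : Tr := .node ⟨nat_lit 7, nat_lit 0x20002000500068, nat_lit 0x10002, nat_lit 2, nat_lit 4, nat_lit 0x46⟩ (.nil) (.nil)
def t14_6582 : Tr := .node ⟨nat_lit 5, nat_lit 0x100018, nat_lit 0x2220, nat_lit 4, nat_lit 4, nat_lit 0x48⟩ (.nil) (.nil)
def t14_14774 : Tr := .node ⟨nat_lit 8, nat_lit 0x8000400020002000c0, nat_lit 0x1011002, nat_lit 0, nat_lit 4, nat_lit 0x48⟩ (.nil) (.nil)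
def t14_1462 : Tr := .node ⟨nat_lit 7, nat_lit 0x400020005000700070, nat_lit 0x1002010, nat_lit 1, nat_lit 4, nat_lit 0x45⟩ (.nil) (.nil)
def t14_9654 : Tr := .node ⟨nat_lit 7, nat_lit 0x40004000200020, nat_lit 0x21030, nat_lit 0, nat_lit 3, nat_lit 0x47⟩ (.nil) (.nil)
def t14_5558 : Tr := .node ⟨nat_lit 7, nat_lit 0x4000600060, nat_lit 0x111220, nat_lit 3, nat_lit 4, nat_lit 0x49⟩ (.nil) (.nil)
def t14_13750 : Tr := .node ⟨nat_lit 7, nat_lit 0x10002000400064, nat_lit 0x200, nat_lit 1, nat_lit 4, nat_lit 0x46⟩ (.nil) (.nil)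
def t14_3510 : Tr := .node ⟨nat_lit 5, nat_lit 0x40018, nat_lit 0x10, nat_lit 2, nat_lit 4, nat_lit 0x44⟩ (.nil) (.nil)
def t14_11702 : Tr := .node ⟨nat_lit 8, nat_lit 0x10002000a000c0, nat_lit 0x100120, nat_lit 1, nat_lit 4, nat_lit 0x48⟩ (.nil) (.nil)
def t14_7606 : Tr := .node ⟨nat_lit 6, nat_lit 0x1000280030, nat_lit 0x42, nat_lit 0, nat_lit 4, nat_lit 0x45⟩ (.nil) (.nil)
def t14_950 : Tr := .node ⟨nat_lit 8, nat_lit 0x80008000800040, nat_lit 0x1112201, nat_lit 1, nat_lit 4, nat_lit 0x4b⟩ (.nil) (.nil)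
def t14_9142 : Tr := .node ⟨nat_lit 7, nat_lit 0x400020005000600060, nat_lit 0x22, nat_lit 3, nat_lit 4, nat_lit 0x46⟩ (.nil) (.nil)
def t14_5046 : Tr := .node ⟨nat_lit 7, nat_lit 0x10004000600060, nat_lit 0x100141, nat_lit 2, nat_lit 4, nat_lit 0x48⟩ (.nil) (.nil)
def t14_13238 : Tr := .node ⟨nat_lit 7, nat_lit 0x2000500064, nat_lit 0x11130, nat_lit 0, nat_lit 4, nat_lit 0x47⟩ (.nil) (.nil)
def t14_2998 : Tr := .node ⟨nat_lit 8, nat_lit 0x8000800020002000c0, nat_lit 0x1121101, nat_lit 0, nat_lit 4, nat_lit 0x49⟩ (.nil) (.nil)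
def t14_11190 : Tr := .node ⟨nat_lit 7, nat_lit 0x40004800300030, nat_lit 0x1100120, nat_lit 0, nat_lit 4, nat_lit 0x46⟩ (.nil) (.nil)
def t14_7094 : Tr := .node ⟨nat_lit 5, nat_lit 0x180018, nat_lit 0x20311, nat_lit 6, nat_lit 4, nat_lit 0x48⟩ (.nil) (.nil)
def t14_15286 : Tr := .node ⟨nat_lit 7, nat_lit 0x5000500060, nat_lit 0x1011221, nat_lit 0, nat_lit 4, nat_lit 0x48⟩ (.nil) (.nil)
def t14_1974 : Tr := .node ⟨nat_lit 6, nat_lit 0x1000200030, nat_lit 0x21112, nat_lit 1, nat_lit 4, nat_lit 0x48⟩ (.nil) (.nil)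
def t14_10166 : Tr := .node ⟨nat_lit 8, nat_lit 0x80008000c000d000d0, nat_lit 0x100220, nat_lit 4, nat_lit 4, nat_lit 0x47⟩ (.nil) (.nil)
def t14_6070 : Tr := .node ⟨nat_lit 7, nat_lit 0x4000600064, nat_lit 0x111220, nat_lit 0, nat_lit 4, nat_lit 0x48⟩ (.nil) (.nil)
def t14_14262 : Tr := .node ⟨nat_lit 7, nat_lit 0x10001000500060, nat_lit 0x102100, nat_lit 0, nat_lit 4, nat_lit 0x47⟩ (.nil) (.nil)
def t14_4022 : Tr := .node ⟨nat_lit 9, nat_lit 0x4000800080010001880190, nat_lit 0x10011021, nat_lit 0, nat_lit 4, nat_lit 0x48⟩ (.nil) (.nil)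
def t14_12214 : Tr := .node ⟨nat_lit 7, nat_lit 0x1000500060, nat_lit 0x1111102, nat_lit 0, nat_lit 4, nat_lit 0x49⟩ (.nil) (.nil)
def t14_8118 : Tr := .node ⟨nat_lit 4, nat_lit 0x8000c000c, nat_lit 0x141, nat_lit 9, nat_lit 4, nat_lit 0x46⟩ (.nil) (.nil)
def t9_438 : Tr := .node ⟨nat_lit 5, nat_lit 0x10, nat_lit 0x23222, nat_lit 1, nat_lit 4, nat_lit 0x4b⟩ (.node ⟨nat_lit 3, nat_lit 4, nat_lit 0x12, nat_lit 5, nat_lit 3, nat_lit 0x44⟩ (.node ⟨nat_lit 5, nat_lit 0x100018, nat_lit 0x2222, nat_lit 3, nat_lit 4, nat_lit 0x48⟩ (.node ⟨nat_lit 6, nat_lit 0x10001000200022, nat_lit 0x112130, nat_lit 1, nat_lit 4, nat_lit 0x48⟩ (.node ⟨nat_lit 6, nat_lit 0x800280030, nat_lit 0x20101, nat_lit 1, nat_lit 4, nat_lit 0x46⟩ (t14_438) (t14_8630)) (.node ⟨nat_lit 7, nat_lit 0x1000400060, nat_lit 0x1201022, nat_lit 1, nat_lit 4, nat_lit 0x4a⟩ (t14_4534) (t14_12726)))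 (.node ⟨nat_lit 3, nat_lit 0x40004, nat_lit 0x131, nat_lit 0xb, nat_lit 4, nat_lit 0x47⟩ (.node ⟨nat_lit 7, nat_lit 0x1000600070, nat_lit 0x1111103, nat_lit 0, nat_lit 4, nat_lit 0x48⟩ (t14_2486) (t14_10678)) (.node ⟨nat_lit 7, nat_lit 0x40004000440048, nat_lit 0x212002, nat_lit 4, nat_lit 4, nat_lit 0x49⟩ (t14_6582) (t14_14774)))) (.node ⟨nat_lit 4, nat_lit 0xc, nat_lit 0x3011, nat_lit 6, nat_lit 4, nat_lit 0x47⟩ (.node ⟨nat_lit 6, nat_lit 0x2000200010, nat_lit 0x122111, nat_lit 3, nat_lit 4, nat_lit 0x4a⟩ (.node ⟨nat_lit 6, nat_lit 0x800080030, nat_lit 0x111203, nat_lit 0, nat_lit 4, nat_lit 0x48⟩ (t14_1462) (t14_9654)) (.node ⟨nat_lit 7, nat_lit 0x200020004000440030, nat_lit 0x2122001, nat_lit 1, nat_lit 4, nat_lit 0x49⟩ (t14_5558) (t14_13750))) (.node ⟨nat_lit 5, nat_lit 0x1c, nat_lit 0x22112, nat_lit 0, nat_lit 4, nat_lit 0x48⟩ (.node ⟨nat_lit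 6, nat_lit 0x1000280034, nat_lit 0x11100, nat_lit 0, nat_lit 4, nat_lit 0x45⟩ (t14_3510) (t14_11702)) (.node ⟨nat_lit 8, nat_lit 0x80008400c0, nat_lit 0x11111201, nat_lit 0, nat_lit 4, nat_lit 0x4b⟩ (t14_7606) (.nil))))) (.node ⟨nat_lit 5, nat_lit 0x18, nat_lit 0x21302, nat_lit 0, nat_lit 4, nat_lit 0x49⟩ (.node ⟨nat_lit 5, nat_lit 0x18, nat_lit 0x20201, nat_lit 0, nat_lit 4, nat_lit 0x47⟩ (.node ⟨nat_lit 7, nat_lit 0x40001000480060, nat_lit 0x1111111, nat_lit 1, nat_lit 4, nat_lit 0x48⟩ (.node ⟨nat_lit 5, nat_lit 0x100008, nat_lit 0x11114, nat_lit 1, nat_lit 3, nat_lit 0x47⟩ (t14_950) (t14_9142)) (.node ⟨nat_lit 7, nat_lit 0x400020, nat_lit 0x122100, nat_lit 5, nat_lit 4, nat_lit 0x4c⟩ (t14_5046) (t14_13238))) (.node ⟨nat_lit 6, nat_lit 0x2000100010, nat_lit 0x12020, nat_lit 4, nat_lit 4, nat_lit 0x49⟩ (.node ⟨nat_lit 7, nat_lit 0x400042, nat_lit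 0x1111120, nat_lit 2, nat_lit 4, nat_lit 0x4b⟩ (t14_2998) (t14_11190)) (.node ⟨nat_lit 6, nat_lit 0x2000240018, nat_lit 0x110112, nat_lit 0, nat_lit 4, nat_lit 0x46⟩ (t14_7094) (t14_15286)))) (.node ⟨nat_lit 6, nat_lit 0x80030, nat_lit 0x102101, nat_lit 1, nat_lit 4, nat_lit 0x48⟩ (.node ⟨nat_lit 7, nat_lit 0x40004800480030, nat_lit 0x1201211, nat_lit 1, nat_lit 4, nat_lit 0x48⟩ (.node ⟨nat_lit 6, nat_lit 0x200030, nat_lit 0x102131, nat_lit 3, nat_lit 4, nat_lit 0x4a⟩ (t14_1974) (t14_10166)) (.node ⟨nat_lit 6, nat_lit 0x20002000200010, nat_lit 0x12002, nat_lit 1, nat_lit 3, nat_lit 0x46⟩ (t14_6070) (t14_14262))) (.node ⟨nat_lit 2, nat_lit 2, nat_lit 0x32, nat_lit 0xd, nat_lit 3, nat_lit 0x46⟩ (.node ⟨nat_lit 7, nat_lit 0x4000100060, nat_lit 0x11020, nat_lit 0, nat_lit 4, nat_lit 0x48⟩ (t14_4022) (t14_12214)) (.node ⟨nat_lit 8, nat_lit 0x8000400040002000c0,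 nat_lit 0x10111012, nat_lit 1, nat_lit 4, nat_lit 0x49⟩ (t14_8118) (.nil)))))
def t14_118 : Tr := .node ⟨nat_lit 7, nat_lit 0x20005000680068, nat_lit 0x221111, nat_lit 0, nat_lit 4, nat_lit 0x47⟩ (.nil) (.nil)
def t14_8310 : Tr := .node ⟨nat_lit 7, nat_lit 0x10004000440060, nat_lit 0x100220, nat_lit 0, nat_lit 4, nat_lit 0x47⟩ (.nil) (.nil)
def t14_4214 : Tr := .node ⟨nat_lit 9, nat_lit 0x10001000100004000800120, nat_lit 0x11110110, nat_lit 2, nat_lit 4, nat_lit 0x4a⟩ (.nil) (.nil)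
def t14_12406 : Tr := .node ⟨nat_lit 7, nat_lit 0x40004000600068, nat_lit 0x20030, nat_lit 2, nat_lit 4, nat_lit 0x47⟩ (.nil) (.nil)
def t14_2166 : Tr := .node ⟨nat_lit 7, nat_lit 0x4000440060, nat_lit 0x22220, nat_lit 0, nat_lit 4, nat_lit 0x49⟩ (.nil) (.nil)
def t14_10358 : Tr := .node ⟨nat_lit 8, nat_lit 0x800040009000a000d0, nat_lit 0x20002, nat_lit 2, nat_lit 4, nat_lit 0x47⟩ (.nil) (.nil)
def t14_6262 : Tr := .node ⟨nat_lit 6, nat_lit 0x1000100020, nat_lit 0x111110, nat_lit 5, nat_lit 4, nat_lit 0x49⟩ (.nil) (.nil)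
def t14_14454 : Tr := .node ⟨nat_lit 6, nat_lit 0x300030, nat_lit 0x1122, nat_lit 2, nat_lit 4, nat_lit 0x47⟩ (.nil) (.nil)
def t14_1142 : Tr := .node ⟨nat_lit 8, nat_lit 0x80001000c000a0, nat_lit 0x11121, nat_lit 1, nat_lit 4, nat_lit 0x48⟩ (.nil) (.nil)
def t14_9334 : Tr := .node ⟨nat_lit 9, nat_lit 0x1000100011000c0019001a0, nat_lit 0x1000122, nat_lit 0, nat_lit 4, nat_lit 0x46⟩ (.nil) (.nil)
def t14_5238 : Tr := .node ⟨nat_lit 8, nat_lit 0x80008000400040004000a0, nat_lit 0x211101, nat_lit 0, nat_lit 4, nat_lit 0x48⟩ (.nil) (.nil)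
def t14_13430 : Tr := .node ⟨nat_lit 8, nat_lit 0x2000800088008800c0, nat_lit 0x122000, nat_lit 0, nat_lit 4, nat_lit 0x48⟩ (.nil) (.nil)
def t14_3190 : Tr := .node ⟨nat_lit 7, nat_lit 0x400020002000200050, nat_lit 0x1012210, nat_lit 0, nat_lit 4, nat_lit 0x48⟩ (.nil) (.nil)
def t14_11382 : Tr := .node ⟨nat_lit 6, nat_lit 0x20001000100030, nat_lit 0x1001, nat_lit 1, nat_lit 3, nat_lit 0x44⟩ (.nil) (.nil)
def t14_7286 : Tr := .node ⟨nat_lit 7, nat_lit 0x40002000500068, nat_lit 0x2101210, nat_lit 0, nat_lit 4, nat_lit 0x48⟩ (.nil) (.nil)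
def t14_15478 : Tr := .node ⟨nat_lit 8, nat_lit 0x800080008800c0, nat_lit 0x11110102, nat_lit 0, nat_lit 4, nat_lit 0x4a⟩ (.nil) (.nil)
def t14_630 : Tr := .node ⟨nat_lit 7, nat_lit 0x200020002000400042, nat_lit 0x21122, nat_lit 0, nat_lit 4, nat_lit 0x47⟩ (.nil) (.nil)
def t14_8822 : Tr := .node ⟨nat_lit 6, nat_lit 0x1000200030, nat_lit 0x2003, nat_lit 3, nat_lit 4, nat_lit 0x47⟩ (.nil) (.nil)
def t14_4726 : Tr := .node ⟨nat_lit 8, nat_lit 0x1000c000c000a0, nat_lit 0x10110112, nat_lit 0, nat_lit 4, nat_lit 0x48⟩ (.nil) (.nil)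
def t14_12918 : Tr := .node ⟨nat_lit 7, nat_lit 0x40001000600068, nat_lit 0x112000, nat_lit 1, nat_lit 4, nat_lit 0x47⟩ (.nil) (.nil)
def t14_2678 : Tr := .node ⟨nat_lit 7, nat_lit 0x10005000600060, nat_lit 0x110310, nat_lit 1, nat_lit 4, nat_lit 0x47⟩ (.nil) (.nil)
def t14_10870 : Tr := .node ⟨nat_lit 8, nat_lit 0x800040004000a000c000d0, nat_lit 0x120020, nat_lit 3, nat_lit 4, nat_lit 0x47⟩ (.nil) (.nil)
def t14_6774 : Tr := .node ⟨nat_lit 6, nat_lit 0x80030, nat_lit 0x101120, nat_lit 1, nat_lit 4, nat_lit 0x48⟩ (.nil) (.nil)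
def t14_14966 : Tr := .node ⟨nat_lit 8, nat_lit 0x800080004000a000a000c0, nat_lit 0x110111, nat_lit 5, nat_lit 4, nat_lit 0x48⟩ (.nil) (.nil)
def t14_1654 : Tr := .node ⟨nat_lit 8, nat_lit 0x200080003000a000c0, nat_lit 0x20121, nat_lit 0, nat_lit 4, nat_lit 0x47⟩ (.nil) (.nil)
def t14_9846 : Tr := .node ⟨nat_lit 8, nat_lit 0x80002000c000a000d0, nat_lit 0x11202, nat_lit 0, nat_lit 4, nat_lit 0x46⟩ (.nil) (.nil)
def t14_5750 : Tr := .node ⟨nat_lit 7, nat_lit 0x4000440060, nat_lit 0x111221, nat_lit 2, nat_lit 4, nat_lit 0x49⟩ (.nil) (.nil)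
def t14_13942 : Tr := .node ⟨nat_lit 9, nat_lit 0x1000040002000200180, nat_lit 0x20200, nat_lit 0, nat_lit 4, nat_lit 0x49⟩ (.nil) (.nil)
def t14_3702 : Tr := .node ⟨nat_lit 9, nat_lit 0x400100008000800180, nat_lit 0x200201, nat_lit 1, nat_lit 4, nat_lit 0x4a⟩ (.nil) (.nil)
def t14_11894 : Tr := .node ⟨nat_lit 8, nat_lit 0x800080004000900090, nat_lit 0x110300, nat_lit 0, nat_lit 4, nat_lit 0x48⟩ (.nil) (.nil)
def t14_7798 : Tr := .node ⟨nat_lit 8, nat_lit 0x800040004000200020, nat_lit 0x1022, nat_lit 3, nat_lit 4, nat_lit 0x49⟩ (.nil) (.nil)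
def t9_118 : Tr := .node ⟨nat_lit 6, nat_lit 0x20001000280038, nat_lit 0x311201, nat_lit 1, nat_lit 4, nat_lit 0x48⟩ (.node ⟨nat_lit 7, nat_lit 0x4000200020, nat_lit 0x131022, nat_lit 0, nat_lit 4, nat_lit 0x4b⟩ (.node ⟨nat_lit 7, nat_lit 0x5000600060, nat_lit 0x14210, nat_lit 0, nat_lit 4, nat_lit 0x48⟩ (.node ⟨nat_lit 7, nat_lit 0x400020002000500068, nat_lit 0x1011211, nat_lit 0, nat_lit 4, nat_lit 0x46⟩ (.node ⟨nat_lit 4, nat_lit 0xc000c, nat_lit 0x2110, nat_lit 4, nat_lit 3, nat_lit 0x45⟩ (t14_118) (t14_8310)) (.node ⟨nat_lit 7, nat_lit 0x40002000100060, nat_lit 0x112003, nat_lit 0, nat_lit 4, nat_lit 0x48⟩ (t14_4214) (t14_12406))) (.node ⟨nat_lit 6, nat_lit 0x800200032, nat_lit 0x121010, nat_lit 0, nat_lit 4, nat_lit 0x47⟩ (.node ⟨nat_lit 7, nat_lit 0x1000600060, nat_lit 0x11120, nat_lit 0, nat_lit 4, nat_lit 0x47⟩ (t14_2166) (t14_10358))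 (.node ⟨nat_lit 7, nat_lit 0x200020002000400040, nat_lit 0x1021121, nat_lit 2, nat_lit 4, nat_lit 0x49⟩ (t14_6262) (t14_14454)))) (.node ⟨nat_lit 6, nat_lit 0x100020, nat_lit 0x112221, nat_lit 0, nat_lit 4, nat_lit 0x4a⟩ (.node ⟨nat_lit 6, nat_lit 0x80030, nat_lit 0x221211, nat_lit 0, nat_lit 4, nat_lit 0x4a⟩ (.node ⟨nat_lit 6, nat_lit 0x2000080030, nat_lit 0x101131, nat_lit 2, nat_lit 4, nat_lit 0x48⟩ (t14_1142) (t14_9334)) (.node ⟨nat_lit 6, nat_lit 0x300030, nat_lit 0x102221, nat_lit 3, nat_lit 4, nat_lit 0x49⟩ (t14_5238) (t14_13430))) (.node ⟨nat_lit 4, nat_lit 0x40008, nat_lit 0x2101, nat_lit 6, nat_lit 4, nat_lit 0x47⟩ (.node ⟨nat_lit 7, nat_lit 0x10006000600050, nat_lit 0x13210, nat_lit 1, nat_lit 4, nat_lit 0x47⟩ (t14_3190) (t14_11382)) (.node ⟨nat_lit 5, nat_lit 0x100018, nat_lit 0x10110, nat_lit 5, nat_lit 4, nat_lit 0x47⟩ (t14_7286)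 (t14_15478))))) (.node ⟨nat_lit 3, nat_lit 4, nat_lit 0x312, nat_lit 8, nat_lit 4, nat_lit 0x48⟩ (.node ⟨nat_lit 6, nat_lit 0x20001000100028, nat_lit 0x212111, nat_lit 0, nat_lit 4, nat_lit 0x48⟩ (.node ⟨nat_lit 7, nat_lit 0x40001000200020, nat_lit 0x20111, nat_lit 0, nat_lit 4, nat_lit 0x48⟩ (.node ⟨nat_lit 5, nat_lit 0x1000100008, nat_lit 0x12310, nat_lit 5, nat_lit 4, nat_lit 0x49⟩ (t14_630) (t14_8822)) (.node ⟨nat_lit 7, nat_lit 0x20004000400044, nat_lit 0x1102200, nat_lit 0, nat_lit 4, nat_lit 0x49⟩ (t14_4726) (t14_12918))) (.node ⟨nat_lit 7, nat_lit 0x10002000400070, nat_lit 0x11102, nat_lit 0, nat_lit 4, nat_lit 0x46⟩ (.node ⟨nat_lit 7, nat_lit 0x4000100060, nat_lit 0x1201103, nat_lit 2, nat_lit 4, nat_lit 0x4a⟩ (t14_2678) (t14_10870)) (.node ⟨nat_lit 7, nat_lit 0x10004000400060, nat_lit 0x100102, nat_lit 0, nat_lit 4, nat_lit 0x47⟩ (t14_6774)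 (t14_14966)))) (.node ⟨nat_lit 6, nat_lit 0x2000080030, nat_lit 0x12311, nat_lit 1, nat_lit 4, nat_lit 0x48⟩ (.node ⟨nat_lit 6, nat_lit 0x1000300028, nat_lit 0x2211, nat_lit 0, nat_lit 4, nat_lit 0x46⟩ (.node ⟨nat_lit 7, nat_lit 0x1000400060, nat_lit 0x1001, nat_lit 1, nat_lit 4, nat_lit 0x47⟩ (t14_1654) (t14_9846)) (.node ⟨nat_lit 7, nat_lit 0x200020002000400042, nat_lit 0x2020020, nat_lit 3, nat_lit 4, nat_lit 0x49⟩ (t14_5750) (t14_13942))) (.node ⟨nat_lit 8, nat_lit 0x800040004000400020, nat_lit 0x102101, nat_lit 0, nat_lit 4, nat_lit 0x49⟩ (.node ⟨nat_lit 6, nat_lit 0x200010, nat_lit 0x21000, nat_lit 0, nat_lit 4, nat_lit 0x48⟩ (t14_3702) (t14_11894)) (.node ⟨nat_lit 7, nat_lit 0x10001000600060, nat_lit 0x1111121, nat_lit 0, nat_lit 4, nat_lit 0x48⟩ (t14_7798) (.nil)))))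
def t14_374 : Tr := .node ⟨nat_lit 7, nat_lit 0x2000400064, nat_lit 0x1120011, nat_lit 1, nat_lit 4, nat_lit 0x49⟩ (.nil) (.nil)
def t14_8566 : Tr := .node ⟨nat_lit 7, nat_lit 0x400020002000500068, nat_lit 0x10030, nat_lit 0, nat_lit 4, nat_lit 0x45⟩ (.nil) (.nil)
def t14_4470 : Tr := .node ⟨nat_lit 7, nat_lit 0x40004800300060, nat_lit 0x1101111, nat_lit 0, nat_lit 4, nat_lit 0x47⟩ (.nil) (.nil)
def t14_12662 : Tr := .node ⟨nat_lit 6, nat_lit 0x2000200030, nat_lit 0x1310, nat_lit 8, nat_lit 4, nat_lit 0x49⟩ (.nil) (.nil)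
def t14_2422 : Tr := .node ⟨nat_lit 6, nat_lit 0x2000200030, nat_lit 0x12210, nat_lit 5, nat_lit 4, nat_lit 0x49⟩ (.nil) (.nil)
def t14_10614 : Tr := .node ⟨nat_lit 7, nat_lit 0x5000180060, nat_lit 0x1201, nat_lit 0, nat_lit 4, nat_lit 0x46⟩ (.nil) (.nil)
def t14_6518 : Tr := .node ⟨nat_lit 8, nat_lit 0x200080001000c4, nat_lit 0x11010111, nat_lit 0, nat_lit 4, nat_lit 0x49⟩ (.nil) (.nil)
def t14_14710 : Tr := .node ⟨nat_lit 8, nat_lit 0x80008000800040004000a0, nat_lit 0x111101, nat_lit 6, nat_lit 4, nat_lit 0x49⟩ (.nil) (.nil)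
def t14_1398 : Tr := .node ⟨nat_lit 7, nat_lit 0x4000600060, nat_lit 0x11310, nat_lit 0, nat_lit 4, nat_lit 0x48⟩ (.nil) (.nil)
def t14_9590 : Tr := .node ⟨nat_lit 6, nat_lit 0x20001000280038, nat_lit 0x1300, nat_lit 2, nat_lit 4, nat_lit 0x45⟩ (.nil) (.nil)
def t14_5494 : Tr := .node ⟨nat_lit 5, nat_lit 0x80010, nat_lit 0x124, nat_lit 1, nat_lit 4, nat_lit 0x47⟩ (.nil) (.nil)
def t14_13686 : Tr := .node ⟨nat_lit 5, nat_lit 0x100008, nat_lit 0x2000, nat_lit 2, nat_lit 4, nat_lit 0x46⟩ (.nil) (.nil)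
def t14_3446 : Tr := .node ⟨nat_lit 7, nat_lit 0x10003000600050, nat_lit 0x1002021, nat_lit 3, nat_lit 4, nat_lit 0x47⟩ (.nil) (.nil)
def t14_11638 : Tr := .node ⟨nat_lit 6, nat_lit 0x800300030, nat_lit 0x310, nat_lit 0, nat_lit 4, nat_lit 0x45⟩ (.nil) (.nil)
def t14_7542 : Tr := .node ⟨nat_lit 5, nat_lit 0x1000080018, nat_lit 0x223, nat_lit 5, nat_lit 4, nat_lit 0x46⟩ (.nil) (.nil)
def t14_886 : Tr := .node ⟨nat_lit 7, nat_lit 0x400020002000500068, nat_lit 0x2202, nat_lit 1, nat_lit 4, nat_lit 0x46⟩ (.nil) (.nil)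
def t14_9078 : Tr := .node ⟨nat_lit 0xa, nat_lit 0x80020002000100021002200300, nat_lit 0x110101, nat_lit 3, nat_lit 4, nat_lit 0x49⟩ (.nil) (.nil)
def t14_4982 : Tr := .node ⟨nat_lit 6, nat_lit 0x1000300028, nat_lit 0x11031, nat_lit 3, nat_lit 4, nat_lit 0x47⟩ (.nil) (.nil)
def t14_13174 : Tr := .node ⟨nat_lit 7, nat_lit 0x10001000400060, nat_lit 0x1003, nat_lit 2, nat_lit 4, nat_lit 0x47⟩ (.nil) (.nil)
def t14_2934 : Tr := .node ⟨nat_lit 7, nat_lit 0x40001000600060, nat_lit 0x1021120, nat_lit 0, nat_lit 4, nat_lit 0x48⟩ (.nil) (.nil)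
def t14_11126 : Tr := .node ⟨nat_lit 5, nat_lit 0x1000080008, nat_lit 0x20, nat_lit 5, nat_lit 3, nat_lit 0x45⟩ (.nil) (.nil)
def t14_7030 : Tr := .node ⟨nat_lit 7, nat_lit 0x4000500060, nat_lit 0x1011211, nat_lit 2, nat_lit 4, nat_lit 0x49⟩ (.nil) (.nil)
def t14_15222 : Tr := .node ⟨nat_lit 9, nat_lit 0x100010001080180, nat_lit 0x11111011, nat_lit 0, nat_lit 4, nat_lit 0x4b⟩ (.nil) (.nil)
def t14_1910 : Tr := .node ⟨nat_lit 4, nat_lit 0xc, nat_lit 0x21, nat_lit 6, nat_lit 4, nat_lit 0x46⟩ (.nil) (.nil)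
def t14_10102 : Tr := .node ⟨nat_lit 6, nat_lit 0x20002800300030, nat_lit 0x3220, nat_lit 4, nat_lit 4, nat_lit 0x47⟩ (.nil) (.nil)
def t14_6006 : Tr := .node ⟨nat_lit 6, nat_lit 0x200030, nat_lit 0x131110, nat_lit 4, nat_lit 4, nat_lit 0x4a⟩ (.nil) (.nil)
def t14_14198 : Tr := .node ⟨nat_lit 7, nat_lit 0x200040004000300048, nat_lit 0x101020, nat_lit 1, nat_lit 4, nat_lit 0x46⟩ (.nil) (.nil)
def t14_3958 : Tr := .node ⟨nat_lit 7, nat_lit 0x400020002000500068, nat_lit 0x131010, nat_lit 0, nat_lit 4, nat_lit 0x47⟩ (.nil) (.nil)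
def t14_12150 : Tr := .node ⟨nat_lit 9, nat_lit 0x1000020002001800140, nat_lit 0x1021010, nat_lit 1, nat_lit 4, nat_lit 0x49⟩ (.nil) (.nil)
def t14_8054 : Tr := .node ⟨nat_lit 6, nat_lit 0x1000200022, nat_lit 0x2013, nat_lit 2, nat_lit 4, nat_lit 0x47⟩ (.nil) (.nil)
def t9_374 : Tr := .node ⟨nat_lit 4, nat_lit 8, nat_lit 0x2311, nat_lit 9, nat_lit 4, nat_lit 0x4a⟩ (.node ⟨nat_lit 7, nat_lit 0x40002000600064, nat_lit 0x131120, nat_lit 0, nat_lit 4, nat_lit 0x48⟩ (.node ⟨nat_lit 3, nat_lit 4, nat_lit 0x220, nat_lit 7, nat_lit 3, nat_lit 0x46⟩ (.node ⟨nat_lit 6, nat_lit 0x1000200022, nat_lit 0x122021, nat_lit 0, nat_lit 4, nat_lit 0x49⟩ (.node ⟨nat_lit 7, nat_lit 0x4000200010, nat_lit 0x122011, nat_lit 1, nat_lit 3, nat_lit 0x49⟩ (t14_374) (t14_8566)) (.node ⟨nat_lit 7, nat_lit 0x200040004000300048, nat_lit 0x1122001, nat_lit 0, nat_lit 4, nat_lit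 0x48⟩ (t14_4470) (t14_12662))) (.node ⟨nat_lit 6, nat_lit 0x30000c, nat_lit 0x2121, nat_lit 1, nat_lit 4, nat_lit 0x47⟩ (.node ⟨nat_lit 6, nat_lit 0x2000100030, nat_lit 0x11113, nat_lit 4, nat_lit 4, nat_lit 0x48⟩ (t14_2422) (t14_10614)) (.node ⟨nat_lit 7, nat_lit 0x1000100060, nat_lit 0x2102, nat_lit 1, nat_lit 4, nat_lit 0x48⟩ (t14_6518) (t14_14710)))) (.node ⟨nat_lit 5, nat_lit 0x100008, nat_lit 0x21133, nat_lit 1, nat_lit 4, nat_lit 0x49⟩ (.node ⟨nat_lit 7, nat_lit 0x20002000100040, nat_lit 0x2022012, nat_lit 0, nat_lit 4, nat_lit 0x4a⟩ (.node ⟨nat_lit 5, nat_lit 0x18, nat_lit 0x10113, nat_lit 2, nat_lit 4, nat_lit 0x47⟩ (t14_1398) (t14_9590)) (.node ⟨nat_lit 6, nat_lit 0x2000280034, nat_lit 0x100212, nat_lit 1, nat_lit 4, nat_lit 0x46⟩ (t14_5494) (t14_13686))) (.node ⟨nat_lit 7, nat_lit 0x800100060, nat_lit 0x3011112, nat_lit 0, nat_lit 4,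 nat_lit 0x4a⟩ (.node ⟨nat_lit 6, nat_lit 0x800300030, nat_lit 0x1000, nat_lit 0, nat_lit 3, nat_lit 0x44⟩ (t14_3446) (t14_11638)) (.node ⟨nat_lit 7, nat_lit 0x40001000100060, nat_lit 0x1111112, nat_lit 1, nat_lit 4, nat_lit 0x49⟩ (t14_7542) (.nil))))) (.node ⟨nat_lit 4, nat_lit 0xc, nat_lit 0x2141, nat_lit 6, nat_lit 4, nat_lit 0x49⟩ (.node ⟨nat_lit 6, nat_lit 0x2000080030, nat_lit 0x22111, nat_lit 1, nat_lit 4, nat_lit 0x48⟩ (.node ⟨nat_lit 6, nat_lit 0x2000080010, nat_lit 0x11211, nat_lit 1, nat_lit 4, nat_lit 0x47⟩ (.node ⟨nat_lit 7, nat_lit 0x4000400020, nat_lit 0x211210, nat_lit 0, nat_lit 4, nat_lit 0x4a⟩ (t14_886) (t14_9078)) (.node ⟨nat_lit 7, nat_lit 0x400020, nat_lit 0x121102, nat_lit 1, nat_lit 4, nat_lit 0x4b⟩ (t14_4982) (t14_13174))) (.node ⟨nat_lit 6, nat_lit 0x80030, nat_lit 0x210100, nat_lit 0, nat_lit 3, nat_lit 0x47⟩ (.node ⟨nat_lit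 4, nat_lit 0x8000c, nat_lit 0x1112, nat_lit 0xb, nat_lit 4, nat_lit 0x47⟩ (t14_2934) (t14_11126)) (.node ⟨nat_lit 7, nat_lit 0x200020004000440044, nat_lit 0x1111200, nat_lit 0, nat_lit 4, nat_lit 0x48⟩ (t14_7030) (t14_15222)))) (.node ⟨nat_lit 5, nat_lit 0x180018, nat_lit 0x21211, nat_lit 1, nat_lit 3, nat_lit 0x46⟩ (.node ⟨nat_lit 5, nat_lit 0x180014, nat_lit 0x11211, nat_lit 3, nat_lit 4, nat_lit 0x47⟩ (.node ⟨nat_lit 5, nat_lit 0x1c, nat_lit 0x11103, nat_lit 0, nat_lit 4, nat_lit 0x46⟩ (t14_1910) (t14_10102)) (.node ⟨nat_lit 7, nat_lit 0x40001000600068, nat_lit 0x112020, nat_lit 1, nat_lit 4, nat_lit 0x47⟩ (t14_6006) (t14_14198))) (.node ⟨nat_lit 6, nat_lit 0x800080030, nat_lit 0x100002, nat_lit 0, nat_lit 4, nat_lit 0x45⟩ (.node ⟨nat_lit 7, nat_lit 0x1000600070, nat_lit 0x1011203, nat_lit 0, nat_lit 4, nat_lit 0x48⟩ (t14_3958) (t14_12150))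 (.node ⟨nat_lit 8, nat_lit 0x800080004000400090, nat_lit 0x10111100, nat_lit 5, nat_lit 4, nat_lit 0x4a⟩ (t14_8054) (.nil)))))
def t14_246 : Tr := .node ⟨nat_lit 6, nat_lit 0x1000200038, nat_lit 0x22221, nat_lit 0, nat_lit 4, nat_lit 0x48⟩ (.nil) (.nil)
def t14_8438 : Tr := .node ⟨nat_lit 6, nat_lit 0x3000280028, nat_lit 0x31, nat_lit 2, nat_lit 4, nat_lit 0x45⟩ (.nil) (.nil)
def t14_4342 : Tr := .node ⟨nat_lit 8, nat_lit 0x8000800040009000d0, nat_lit 0x10211011, nat_lit 1, nat_lit 4, nat_lit 0x49⟩ (.nil) (.nil)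
def t14_12534 : Tr := .node ⟨nat_lit 7, nat_lit 0x5000280060, nat_lit 0x10101, nat_lit 1, nat_lit 4, nat_lit 0x46⟩ (.nil) (.nil)
def t14_2294 : Tr := .node ⟨nat_lit 4, nat_lit 8, nat_lit 0x412, nat_lit 3, nat_lit 4, nat_lit 0x48⟩ (.nil) (.nil)
def t14_10486 : Tr := .node ⟨nat_lit 8, nat_lit 0x80008800c000a0, nat_lit 0x111220, nat_lit 0, nat_lit 4, nat_lit 0x48⟩ (.nil) (.nil)
def t14_6390 : Tr := .node ⟨nat_lit 8, nat_lit 0x800040002000200020, nat_lit 0x210, nat_lit 3, nat_lit 4, nat_lit 0x49⟩ (.nil) (.nil)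
def t14_14582 : Tr := .node ⟨nat_lit 8, nat_lit 0x200040008000800084, nat_lit 0x1100, nat_lit 0, nat_lit 4, nat_lit 0x47⟩ (.nil) (.nil)
def t14_1270 : Tr := .node ⟨nat_lit 7, nat_lit 0x400020005000500028, nat_lit 0x1012100, nat_lit 0, nat_lit 4, nat_lit 0x46⟩ (.nil) (.nil)
def t14_9462 : Tr := .node ⟨nat_lit 8, nat_lit 0x8000400040005000a000c0, nat_lit 0x10212002, nat_lit 1, nat_lit 4, nat_lit 0x48⟩ (.nil) (.nil)
def t14_5366 : Tr := .node ⟨nat_lit 7, nat_lit 0x1000400060, nat_lit 0x1101020, nat_lit 5, nat_lit 4, nat_lit 0x4a⟩ (.nil) (.nil)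
def t14_13558 : Tr := .node ⟨nat_lit 7, nat_lit 0x40004000100020, nat_lit 0x100020, nat_lit 3, nat_lit 4, nat_lit 0x48⟩ (.nil) (.nil)
def t14_3318 : Tr := .node ⟨nat_lit 8, nat_lit 0x2000800080004000c0, nat_lit 0x2121, nat_lit 0, nat_lit 4, nat_lit 0x48⟩ (.nil) (.nil)
def t14_11510 : Tr := .node ⟨nat_lit 7, nat_lit 0x20004000100070, nat_lit 0x1001011, nat_lit 0, nat_lit 4, nat_lit 0x46⟩ (.nil) (.nil)
def t14_7414 : Tr := .node ⟨nat_lit 9, nat_lit 0x1000080002000200040, nat_lit 0x1100111, nat_lit 3, nat_lit 4, nat_lit 0x4b⟩ (.nil) (.nil)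
def t14_758 : Tr := .node ⟨nat_lit 7, nat_lit 0x10002000500060, nat_lit 0x1013, nat_lit 1, nat_lit 4, nat_lit 0x46⟩ (.nil) (.nil)
def t14_8950 : Tr := .node ⟨nat_lit 7, nat_lit 0x40002000480060, nat_lit 0x22120, nat_lit 3, nat_lit 4, nat_lit 0x48⟩ (.nil) (.nil)
def t14_4854 : Tr := .node ⟨nat_lit 9, nat_lit 0x1000080004000400020, nat_lit 0x1100210, nat_lit 2, nat_lit 4, nat_lit 0x4b⟩ (.nil) (.nil)
def t14_13046 : Tr := .node ⟨nat_lit 7, nat_lit 0x10004000440064, nat_lit 0x100200, nat_lit 2, nat_lit 4, nat_lit 0x47⟩ (.nil) (.nil)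
def t14_2806 : Tr := .node ⟨nat_lit 6, nat_lit 0x800200030, nat_lit 0x110210, nat_lit 2, nat_lit 4, nat_lit 0x47⟩ (.nil) (.nil)
def t14_10998 : Tr := .node ⟨nat_lit 7, nat_lit 0x40004000100060, nat_lit 0x112012, nat_lit 4, nat_lit 4, nat_lit 0x49⟩ (.nil) (.nil)
def t14_6902 : Tr := .node ⟨nat_lit 5, nat_lit 0, nat_lit 0x11111, nat_lit 8, nat_lit 4, nat_lit 0x4b⟩ (.nil) (.nil)
def t14_15094 : Tr := .node ⟨nat_lit 8, nat_lit 0x80004000a000e000d000d0, nat_lit 0x1111110, nat_lit 3, nat_lit 4, nat_lit 0x46⟩ (.nil) (.nil)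
def t14_1782 : Tr := .node ⟨nat_lit 6, nat_lit 0x1000280034, nat_lit 0x112121, nat_lit 3, nat_lit 4, nat_lit 0x48⟩ (.nil) (.nil)
def t14_9974 : Tr := .node ⟨nat_lit 9, nat_lit 0x8001000100011000c000c0, nat_lit 0x400020, nat_lit 0, nat_lit 4, nat_lit 0x48⟩ (.nil) (.nil)
def t14_5878 : Tr := .node ⟨nat_lit 8, nat_lit 0x8000400040, nat_lit 0x111022, nat_lit 0, nat_lit 4, nat_lit 0x4b⟩ (.nil) (.nil)
def t14_14070 : Tr := .node ⟨nat_lit 5, nat_lit 0x80010001a, nat_lit 0x10200, nat_lit 0xa, nat_lit 4, nat_lit 0x47⟩ (.nil) (.nil)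
def t14_3830 : Tr := .node ⟨nat_lit 8, nat_lit 0x4000400080008000880060, nat_lit 0x10121201, nat_lit 0, nat_lit 4, nat_lit 0x48⟩ (.nil) (.nil)
def t14_12022 : Tr := .node ⟨nat_lit 8, nat_lit 0x2000800080008800c0, nat_lit 0x1002110, nat_lit 3, nat_lit 4, nat_lit 0x49⟩ (.nil) (.nil)
def t14_7926 : Tr := .node ⟨nat_lit 8, nat_lit 0x800080004000900088, nat_lit 0x1112002, nat_lit 0, nat_lit 4, nat_lit 0x49⟩ (.nil) (.nil)
def t9_246 : Tr := .node ⟨nat_lit 4, nat_lit 0xc, nat_lit 0x2232, nat_lit 1, nat_lit 3, nat_lit 0x47⟩ (.node ⟨nat_lit 5, nat_lit 0x40018, nat_lit 0x30112, nat_lit 0, nat_lit 4, nat_lit 0x47⟩ (.node ⟨nat_lit 7, nat_lit 0x4000400060, nat_lit 0x32210, nat_lit 0, nat_lit 4, nat_lit 0x4a⟩ (.node ⟨nat_lit 5, nat_lit 0x18, nat_lit 0x11214, nat_lit 0, nat_lit 4, nat_lit 0x48⟩ (.node ⟨nat_lit 4, nat_lit 8, nat_lit 0x2112, nat_lit 0xd, nat_lit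 4, nat_lit 0x4a⟩ (t14_246) (t14_8438)) (.node ⟨nat_lit 8, nat_lit 0x4000400020008000e0, nat_lit 0x121003, nat_lit 0, nat_lit 4, nat_lit 0x48⟩ (t14_4342) (t14_12534))) (.node ⟨nat_lit 4, nat_lit 0xc000c, nat_lit 0x2021, nat_lit 0xe, nat_lit 4, nat_lit 0x47⟩ (.node ⟨nat_lit 6, nat_lit 0x20001000300034, nat_lit 0x12230, nat_lit 4, nat_lit 4, nat_lit 0x47⟩ (t14_2294) (t14_10486)) (.node ⟨nat_lit 7, nat_lit 0x2000400060, nat_lit 0x1121120, nat_lit 0, nat_lit 4, nat_lit 0x4a⟩ (t14_6390) (t14_14582)))) (.node ⟨nat_lit 4, nat_lit 0xc, nat_lit 0x2111, nat_lit 9, nat_lit 4, nat_lit 0x48⟩ (.node ⟨nat_lit 6, nat_lit 0x30, nat_lit 0x211111, nat_lit 3, nat_lit 3, nat_lit 0x49⟩ (.node ⟨nat_lit 7, nat_lit 0x40001000100060, nat_lit 0x1100103, nat_lit 1, nat_lit 4, nat_lit 0x48⟩ (t14_1270) (t14_9462)) (.node ⟨nat_lit 5, nat_lit 0x100018001c, nat_lit 0x11222, nat_lit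 6, nat_lit 4, nat_lit 0x47⟩ (t14_5366) (t14_13558))) (.node ⟨nat_lit 6, nat_lit 0x800280030, nat_lit 0x120032, nat_lit 0, nat_lit 4, nat_lit 0x47⟩ (.node ⟨nat_lit 6, nat_lit 0x1000200020, nat_lit 0x111032, nat_lit 2, nat_lit 4, nat_lit 0x4a⟩ (t14_3318) (t14_11510)) (.node ⟨nat_lit 6, nat_lit 0x30000c, nat_lit 0x101122, nat_lit 0, nat_lit 4, nat_lit 0x47⟩ (t14_7414) (.nil))))) (.node ⟨nat_lit 3, nat_lit 4, nat_lit 0x132, nat_lit 6, nat_lit 4, nat_lit 0x47⟩ (.node ⟨nat_lit 6, nat_lit 0x80030, nat_lit 0x211112, nat_lit 1, nat_lit 4, nat_lit 0x49⟩ (.node ⟨nat_lit 6, nat_lit 0x200020, nat_lit 0x111110, nat_lit 0, nat_lit 3, nat_lit 0x48⟩ (.node ⟨nat_lit 7, nat_lit 0x40004000200060, nat_lit 0x130012, nat_lit 1, nat_lit 4, nat_lit 0x49⟩ (t14_758) (t14_8950)) (.node ⟨nat_lit 7, nat_lit 0x40001000100060, nat_lit 0x12210, nat_lit 0, nat_lit 4, nat_lit 0x48⟩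 (t14_4854) (t14_13046))) (.node ⟨nat_lit 5, nat_lit 0x800100010, nat_lit 0x21110, nat_lit 0, nat_lit 3, nat_lit 0x46⟩ (.node ⟨nat_lit 6, nat_lit 0x2000080030, nat_lit 0x21213, nat_lit 1, nat_lit 4, nat_lit 0x48⟩ (t14_2806) (t14_10998)) (.node ⟨nat_lit 8, nat_lit 0x4000a0003000c0, nat_lit 0x110222, nat_lit 1, nat_lit 4, nat_lit 0x48⟩ (t14_6902) (t14_15094)))) (.node ⟨nat_lit 7, nat_lit 0x1000400060, nat_lit 0x1101021, nat_lit 1, nat_lit 4, nat_lit 0x49⟩ (.node ⟨nat_lit 6, nat_lit 0x1000200032, nat_lit 0x101221, nat_lit 1, nat_lit 4, nat_lit 0x47⟩ (.node ⟨nat_lit 7, nat_lit 0x10004000640064, nat_lit 0x1000010, nat_lit 1, nat_lit 4, nat_lit 0x45⟩ (t14_1782) (t14_9974)) (.node ⟨nat_lit 8, nat_lit 0x8000400040002000c0, nat_lit 0x201022, nat_lit 0, nat_lit 4, nat_lit 0x49⟩ (t14_5878) (t14_14070))) (.node ⟨nat_lit 7, nat_lit 0x1000600018, nat_lit 0x1002102,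 nat_lit 0, nat_lit 4, nat_lit 0x48⟩ (.node ⟨nat_lit 6, nat_lit 0x2000080030, nat_lit 0x111100, nat_lit 0, nat_lit 4, nat_lit 0x47⟩ (t14_3830) (t14_12022)) (.node ⟨nat_lit 7, nat_lit 0x2000500060, nat_lit 0x1001111, nat_lit 0, nat_lit 4, nat_lit 0x47⟩ (t14_7926) (.nil)))))
def t14_502 : Tr := .node ⟨nat_lit 7, nat_lit 0x100060, nat_lit 0x1111111, nat_lit 1, nat_lit 4, nat_lit 0x4a⟩ (.nil) (.nil)
def t14_8694 : Tr := .node ⟨nat_lit 7, nat_lit 0x40003000500068, nat_lit 0x12, nat_lit 0, nat_lit 4, nat_lit 0x44⟩ (.nil) (.nil)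
def t14_4598 : Tr := .node ⟨nat_lit 7, nat_lit 0x40002000480060, nat_lit 0x120401, nat_lit 1, nat_lit 4, nat_lit 0x49⟩ (.nil) (.nil)
def t14_12790 : Tr := .node ⟨nat_lit 5, nat_lit 0x100018001c, nat_lit 0x10220, nat_lit 5, nat_lit 4, nat_lit 0x46⟩ (.nil) (.nil)
def t14_2550 : Tr := .node ⟨nat_lit 8, nat_lit 0x800080004000a000e000e0, nat_lit 0x10022010, nat_lit 1, nat_lit 4, nat_lit 0x47⟩ (.nil) (.nil)
def t14_10742 : Tr := .node ⟨nat_lit 7, nat_lit 0x20005000600060, nat_lit 0x11210, nat_lit 1, nat_lit 4, nat_lit 0x46⟩ (.nil) (.nil)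
def t14_6646 : Tr := .node ⟨nat_lit 8, nat_lit 0x80008000400088, nat_lit 0x1112010, nat_lit 1, nat_lit 4, nat_lit 0x4a⟩ (.nil) (.nil)
def t14_14838 : Tr := .node ⟨nat_lit 9, nat_lit 0x100010001000080012001a001c0, nat_lit 0x1011012, nat_lit 1, nat_lit 4, nat_lit 0x47⟩ (.nil) (.nil)
def t14_1526 : Tr := .node ⟨nat_lit 7, nat_lit 0x40004000400060, nat_lit 0x112201, nat_lit 0, nat_lit 3, nat_lit 0x47⟩ (.nil) (.nil)
def t14_9718 : Tr := .node ⟨nat_lit 9, nat_lit 0x100010000400180, nat_lit 0x112200, nat_lit 0, nat_lit 4, nat_lit 0x4b⟩ (.nil) (.nil)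
def t14_5622 : Tr := .node ⟨nat_lit 6, nat_lit 0x2000080030, nat_lit 0x101012, nat_lit 2, nat_lit 4, nat_lit 0x47⟩ (.nil) (.nil)
def t14_13814 : Tr := .node ⟨nat_lit 7, nat_lit 0x2000600050, nat_lit 0x1200, nat_lit 0, nat_lit 4, nat_lit 0x47⟩ (.nil) (.nil)
def t14_3574 : Tr := .node ⟨nat_lit 4, nat_lit 0x8000c, nat_lit 0x20, nat_lit 4, nat_lit 4, nat_lit 0x44⟩ (.nil) (.nil)
def t14_11766 : Tr := .node ⟨nat_lit 6, nat_lit 0x10002000240018, nat_lit 0x104300, nat_lit 0, nat_lit 4, nat_lit 0x47⟩ (.nil) (.nil)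
def t14_7670 : Tr := .node ⟨nat_lit 3, nat_lit 0x40004, nat_lit 0, nat_lit 9, nat_lit 4, nat_lit 0x44⟩ (.nil) (.nil)
def t14_1014 : Tr := .node ⟨nat_lit 1, nat_lit 0, nat_lit 1, nat_lit 0xb, nat_lit 4, nat_lit 0x43⟩ (.nil) (.nil)
def t14_9206 : Tr := .node ⟨nat_lit 7, nat_lit 0x400040004800500060, nat_lit 0x1002, nat_lit 3, nat_lit 4, nat_lit 0x46⟩ (.nil) (.nil)
def t14_5110 : Tr := .node ⟨nat_lit 7, nat_lit 0x4000400060, nat_lit 0x111311, nat_lit 2, nat_lit 4, nat_lit 0x4a⟩ (.nil) (.nil)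
def t14_13302 : Tr := .node ⟨nat_lit 7, nat_lit 0x10001000600070, nat_lit 0x1003, nat_lit 3, nat_lit 4, nat_lit 0x46⟩ (.nil) (.nil)
def t14_3062 : Tr := .node ⟨nat_lit 8, nat_lit 0x400040008000a000d0, nat_lit 0x1010211, nat_lit 2, nat_lit 4, nat_lit 0x48⟩ (.nil) (.nil)
def t14_11254 : Tr := .node ⟨nat_lit 8, nat_lit 0x200080001000c0, nat_lit 0x1000100, nat_lit 1, nat_lit 4, nat_lit 0x48⟩ (.nil) (.nil)
def t14_7158 : Tr := .node ⟨nat_lit 5, nat_lit 0x100018001c, nat_lit 0x11120, nat_lit 5, nat_lit 4, nat_lit 0x46⟩ (.nil) (.nil)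
def t14_15350 : Tr := .node ⟨nat_lit 0xa, nat_lit 0x2000200010001000100011002800320, nat_lit 0x10110111, nat_lit 0, nat_lit 4, nat_lit 0x48⟩ (.nil) (.nil)
def t14_2038 : Tr := .node ⟨nat_lit 7, nat_lit 0x20005000500068, nat_lit 0x211310, nat_lit 0, nat_lit 4, nat_lit 0x47⟩ (.nil) (.nil)
def t14_10230 : Tr := .node ⟨nat_lit 7, nat_lit 0x200020004000440060, nat_lit 0x1022110, nat_lit 2, nat_lit 4, nat_lit 0x48⟩ (.nil) (.nil)
def t14_6134 : Tr := .node ⟨nat_lit 4, nat_lit 0x80008000c, nat_lit 0x100, nat_lit 9, nat_lit 4, nat_lit 0x45⟩ (.nil) (.nil)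
def t14_14326 : Tr := .node ⟨nat_lit 6, nat_lit 0x20001000100028, nat_lit 0x10003, nat_lit 1, nat_lit 4, nat_lit 0x45⟩ (.nil) (.nil)
def t14_4086 : Tr := .node ⟨nat_lit 8, nat_lit 0x400080002000d000d0, nat_lit 0x1110021, nat_lit 1, nat_lit 4, nat_lit 0x47⟩ (.nil) (.nil)
def t14_12278 : Tr := .node ⟨nat_lit 7, nat_lit 0x50003000300060, nat_lit 0x1301, nat_lit 5, nat_lit 4, nat_lit 0x46⟩ (.nil) (.nil)
def t14_8182 : Tr := .node ⟨nat_lit 8, nat_lit 0x2000800088008800c0, nat_lit 0x1410, nat_lit 1, nat_lit 4, nat_lit 0x48⟩ (.nil) (.nil)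
def t9_502 : Tr := .node ⟨nat_lit 6, nat_lit 0x30, nat_lit 0x113112, nat_lit 0, nat_lit 4, nat_lit 0x4a⟩ (.node ⟨nat_lit 8, nat_lit 0x400080008800880088, nat_lit 0x30100220, nat_lit 0, nat_lit 4, nat_lit 0x4a⟩ (.node ⟨nat_lit 5, nat_lit 0, nat_lit 0x22221, nat_lit 1, nat_lit 4, nat_lit 0x4b⟩ (.node ⟨nat_lit 7, nat_lit 0x40002000480068, nat_lit 0x2010011, nat_lit 1, nat_lit 4, nat_lit 0x47⟩ (.node ⟨nat_lit 8, nat_lit 0x4000400080002000c0, nat_lit 0x220011, nat_lit 1, nat_lit 4, nat_lit 0x49⟩ (t14_502) (t14_8694)) (.node ⟨nat_lit 6, nat_lit 0x2000080030, nat_lit 0x112121, nat_lit 3, nat_lit 4, nat_lit 0x49⟩ (t14_4598) (t14_12790))) (.node ⟨nat_lit 6, nat_lit 0x800300030, nat_lit 0x100031, nat_lit 2, nat_lit 4, nat_lit 0x46⟩ (.node ⟨nat_lit 6, nat_lit 0x2000200030, nat_lit 0x13210, nat_lit 0, nat_lit 3, nat_lit 0x47⟩ (t14_2550) (t14_10742)) (.node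 ⟨nat_lit 7, nat_lit 0x4000600064, nat_lit 0x111221, nat_lit 0, nat_lit 4, nat_lit 0x48⟩ (t14_6646) (t14_14838)))) (.node ⟨nat_lit 5, nat_lit 0x80010, nat_lit 0x12110, nat_lit 3, nat_lit 4, nat_lit 0x48⟩ (.node ⟨nat_lit 6, nat_lit 0x280030, nat_lit 0x122201, nat_lit 0, nat_lit 4, nat_lit 0x49⟩ (.node ⟨nat_lit 6, nat_lit 0x1000200034, nat_lit 0x101031, nat_lit 1, nat_lit 4, nat_lit 0x47⟩ (t14_1526) (t14_9718)) (.node ⟨nat_lit 7, nat_lit 0x400020002000500068, nat_lit 0x1111200, nat_lit 3, nat_lit 4, nat_lit 0x48⟩ (t14_5622) (t14_13814))) (.node ⟨nat_lit 6, nat_lit 0x10001000200020, nat_lit 0x111010, nat_lit 0, nat_lit 3, nat_lit 0x46⟩ (.node ⟨nat_lit 5, nat_lit 0x1000100008, nat_lit 0x1000, nat_lit 3, nat_lit 4, nat_lit 0x45⟩ (t14_3574) (t14_11766)) (.node ⟨nat_lit 7, nat_lit 0x400040005000500058, nat_lit 0x1111002, nat_lit 3, nat_lit 4, nat_lit 0x48⟩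 (t14_7670) (.nil))))) (.node ⟨nat_lit 6, nat_lit 0x20003800380038, nat_lit 0x300210, nat_lit 5, nat_lit 4, nat_lit 0x46⟩ (.node ⟨nat_lit 4, nat_lit 8, nat_lit 0x222, nat_lit 7, nat_lit 4, nat_lit 0x48⟩ (.node ⟨nat_lit 4, nat_lit 0x80008, nat_lit 0x2211, nat_lit 0xb, nat_lit 4, nat_lit 0x49⟩ (.node ⟨nat_lit 7, nat_lit 0x20002000500060, nat_lit 0x1021013, nat_lit 0, nat_lit 4, nat_lit 0x48⟩ (t14_1014) (t14_9206)) (.node ⟨nat_lit 5, nat_lit 0x10, nat_lit 0x12221, nat_lit 6, nat_lit 4, nat_lit 0x4b⟩ (t14_5110) (t14_13302))) (.node ⟨nat_lit 6, nat_lit 0x2000240030, nat_lit 0x101210, nat_lit 4, nat_lit 4, nat_lit 0x48⟩ (.node ⟨nat_lit 7, nat_lit 0x40001000480068, nat_lit 0x2112012, nat_lit 0, nat_lit 4, nat_lit 0x49⟩ (t14_3062) (t14_11254)) (.node ⟨nat_lit 7, nat_lit 0x40001000500060, nat_lit 0x112220, nat_lit 1, nat_lit 4, nat_lit 0x48⟩ (t14_7158) (t14_15350))))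 (.node ⟨nat_lit 5, nat_lit 0x100018, nat_lit 0x10221, nat_lit 5, nat_lit 4, nat_lit 0x48⟩ (.node ⟨nat_lit 7, nat_lit 0x800500060, nat_lit 0x2111011, nat_lit 1, nat_lit 4, nat_lit 0x49⟩ (.node ⟨nat_lit 6, nat_lit 0x200020, nat_lit 0x111132, nat_lit 2, nat_lit 4, nat_lit 0x4b⟩ (t14_2038) (t14_10230)) (.node ⟨nat_lit 7, nat_lit 0x800500060, nat_lit 0x1121020, nat_lit 0, nat_lit 4, nat_lit 0x49⟩ (t14_6134) (t14_14326))) (.node ⟨nat_lit 6, nat_lit 0x80030, nat_lit 0x220203, nat_lit 1, nat_lit 4, nat_lit 0x4a⟩ (.node ⟨nat_lit 4, nat_lit 0x80008, nat_lit 0x200, nat_lit 5, nat_lit 4, nat_lit 0x45⟩ (t14_4086) (t14_12278)) (.node ⟨nat_lit 7, nat_lit 0x400020002000500068, nat_lit 0x112210, nat_lit 0, nat_lit 4, nat_lit 0x47⟩ (t14_8182) (.nil)))))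
def t4_6 : Tr := .node ⟨nat_lit 2, nat_lit 0, nat_lit 0x11, nat_lit 0xd, nat_lit 3, nat_lit 0x45⟩ (.node ⟨nat_lit 4, nat_lit 8, nat_lit 0x210, nat_lit 5, nat_lit 3, nat_lit 0x46⟩ (.node ⟨nat_lit 5, nat_lit 0x80010, nat_lit 0x11111, nat_lit 1, nat_lit 3, nat_lit 0x46⟩ (.node ⟨nat_lit 3, nat_lit 4, nat_lit 0x242, nat_lit 9, nat_lit 4, nat_lit 0x49⟩ (.node ⟨nat_lit 6, nat_lit 0x200030, nat_lit 0x14202, nat_lit 0, nat_lit 4, nat_lit 0x4a⟩ (t9_6) (t9_262)) (.node ⟨nat_lit 5, nat_lit 0x10, nat_lit 0x32112, nat_lit 0, nat_lit 3, nat_lit 0x49⟩ (t9_134) (t9_390))) (.node ⟨nat_lit 3, nat_lit 0, nat_lit 0x431, nat_lit 5, nat_lit 4, nat_lit 0x49⟩ (.node ⟨nat_lit 3, nat_lit 4, nat_lit 0x223, nat_lit 3, nat_lit 3, nat_lit 0x46⟩ (t9_70) (t9_326)) (.node ⟨nat_lit 6, nat_lit 0x30, nat_lit 0x311111, nat_lit 0, nat_lit 3, nat_lit 0x49⟩ (t9_198) (t9_454)))) (.node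 ⟨nat_lit 4, nat_lit 0, nat_lit 0x1111, nat_lit 4, nat_lit 3, nat_lit 0x47⟩ (.node ⟨nat_lit 3, nat_lit 0, nat_lit 0x422, nat_lit 3, nat_lit 4, nat_lit 0x49⟩ (.node ⟨nat_lit 3, nat_lit 0, nat_lit 0x322, nat_lit 2, nat_lit 3, nat_lit 0x47⟩ (t9_38) (t9_294)) (.node ⟨nat_lit 6, nat_lit 0x100020, nat_lit 0x131121, nat_lit 1, nat_lit 4, nat_lit 0x4b⟩ (t9_166) (t9_422))) (.node ⟨nat_lit 5, nat_lit 0x100010, nat_lit 0x14111, nat_lit 5, nat_lit 4, nat_lit 0x4a⟩ (.node ⟨nat_lit 4, nat_lit 8, nat_lit 0x3312, nat_lit 5, nat_lit 4, nat_lit 0x4a⟩ (t9_102) (t9_358)) (.node ⟨nat_lit 3, nat_lit 0, nat_lit 0x331, nat_lit 5, nat_lit 4, nat_lit 0x48⟩ (t9_230) (t9_486))))) (.node ⟨nat_lit 3, nat_lit 4, nat_lit 0x21, nat_lit 5, nat_lit 3, nat_lit 0x44⟩ (.node ⟨nat_lit 5, nat_lit 0x100008, nat_lit 0x1101, nat_lit 0, nat_lit 3, nat_lit 0x45⟩ (.node ⟨nat_lit 2, nat_lit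 0, nat_lit 0x31, nat_lit 6, nat_lit 3, nat_lit 0x45⟩ (.node ⟨nat_lit 2, nat_lit 2, nat_lit 0x33, nat_lit 0xf, nat_lit 4, nat_lit 0x48⟩ (t9_22) (t9_278)) (.node ⟨nat_lit 3, nat_lit 6, nat_lit 0x322, nat_lit 5, nat_lit 3, nat_lit 0x46⟩ (t9_150) (t9_406))) (.node ⟨nat_lit 4, nat_lit 8, nat_lit 0x110, nat_lit 0, nat_lit 3, nat_lit 0x44⟩ (.node ⟨nat_lit 6, nat_lit 0x80030, nat_lit 0x210102, nat_lit 0, nat_lit 3, nat_lit 0x47⟩ (t9_86) (t9_342)) (.node ⟨nat_lit 5, nat_lit 0x80010, nat_lit 0x13220, nat_lit 0, nat_lit 3, nat_lit 0x48⟩ (t9_214) (t9_470)))) (.node ⟨nat_lit 3, nat_lit 0, nat_lit 0x432, nat_lit 1, nat_lit 3, nat_lit 0x48⟩ (.node ⟨nat_lit 2, nat_lit 0, nat_lit 0x43, nat_lit 2, nat_lit 3, nat_lit 0x47⟩ (.node ⟨nat_lit 5, nat_lit 0x100008, nat_lit 0x2101, nat_lit 5, nat_lit 3, nat_lit 0x47⟩ (t9_54) (t9_310)) (.node ⟨nat_lit 5, nat_lit 0, nat_lit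 0x31111, nat_lit 3, nat_lit 4, nat_lit 0x4a⟩ (t9_182) (t9_438))) (.node ⟨nat_lit 5, nat_lit 0x80010, nat_lit 0x2412, nat_lit 1, nat_lit 4, nat_lit 0x49⟩ (.node ⟨nat_lit 6, nat_lit 0x30, nat_lit 0x321112, nat_lit 0, nat_lit 4, nat_lit 0x4b⟩ (t9_118) (t9_374)) (.node ⟨nat_lit 4, nat_lit 0xc, nat_lit 0x3212, nat_lit 0, nat_lit 3, nat_lit 0x47⟩ (t9_246) (t9_502)))))

end Pool.Agent.Sel.T31
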