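import Pool.Agent.H8.Sel.Prof
import Pool.Agent.H8.Sel.T31.P6

set_option linter.all false
set_option maxRecDepth 100000

namespace Pool.Agent.Sel.T31

open Pool.Agent.Sel

def t14_5 : Tr := .node ⟨nat_lit 9, nat_lit 0x1000080008001400140019001a0, nat_lit 0x10121011, nat_lit 1, nat_lit 4, nat_lit 0x47⟩ (.nil) (.nil)
def t14_8197 : Tr := .node ⟨nat_lit 7, nat_lit 0x4000500064, nat_lit 0x102203, nat_lit 1, nat_lit 4, nat_lit 0x48⟩ (.nil) (.nil)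
def t14_4101 : Tr := .node ⟨nat_lit 8, nat_lit 0x80008000400040009000a0, nat_lit 0x1112001, nat_lit 1, nat_lit 4, nat_lit 0x48⟩ (.nil) (.nil)
def t14_12293 : Tr := .node ⟨nat_lit 8, nat_lit 0x2000c000a000a0, nat_lit 0x1011130, nat_lit 0, nat_lit 4, nat_lit 0x48⟩ (.nil) (.nil)
def t14_2053 : Tr := .node ⟨nat_lit 7, nat_lit 0x20005000500068, nat_lit 0x210310, nat_lit 1, nat_lit 4, nat_lit 0x47⟩ (.nil) (.nil)
def t14_10245 : Tr := .node ⟨nat_lit 7, nat_lit 0x20003000500068, nat_lit 0x100100, nat_lit 0, nat_lit 4, nat_lit 0x45⟩ (.nil) (.nil)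
def t14_6149 : Tr := .node ⟨nat_lit 2, nat_lit 2, nat_lit 2, nat_lit 9, nat_lit 4, nat_lit 0x43⟩ (.nil) (.nil)
def t14_14341 : Tr := .node ⟨nat_lit 0xa, nat_lit 0x8001000200020000400310, nat_lit 0x100002100, nat_lit 1, nat_lit 4, nat_lit 0x4a⟩ (.nil) (.nil)
def t14_1029 : Tr := .node ⟨nat_lit 5, nat_lit 0x1000140018, nat_lit 0x211, nat_lit 7, nat_lit 4, nat_lit 0x46⟩ (.nil) (.nil)
def t14_9221 : Tr := .node ⟨nat_lit 8, nat_lit 0x400080005000880060, nat_lit 0x11011, nat_lit 0, nat_lit 4, nat_lit 0x46⟩ (.nil) (.nil)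
def t14_5125 : Tr := .node ⟨nat_lit 8, nat_lit 0x800080004000a000a000e0, nat_lit 0x3100, nat_lit 1, nat_lit 4, nat_lit 0x46⟩ (.nil) (.nil)
def t14_13317 : Tr := .node ⟨nat_lit 5, nat_lit 0x180018, nat_lit 0x10300, nat_lit 3, nat_lit 3, nat_lit 0x46⟩ (.nil) (.nil)
def t14_3077 : Tr := .node ⟨nat_lit 7, nat_lit 0x10002000500060, nat_lit 0x103110, nat_lit 0, nat_lit 4, nat_lit 0x47⟩ (.nil) (.nil)
def t14_11269 : Tr := .node ⟨nat_lit 8, nat_lit 0x800020002000c000c0, nat_lit 0x1011020, nat_lit 1, nat_lit 4, nat_lit 0x48⟩ (.nil) (.nil)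
def t14_7173 : Tr := .node ⟨nat_lit 7, nat_lit 0x400040002000200060, nat_lit 0x121111, nat_lit 1, nat_lit 4, nat_lit 0x48⟩ (.nil) (.nil)
def t14_15365 : Tr := .node ⟨nat_lit 9, nat_lit 0x100010001080180, nat_lit 0x11111110, nat_lit 0, nat_lit 4, nat_lit 0x4b⟩ (.nil) (.nil)
def t14_517 : Tr := .node ⟨nat_lit 8, nat_lit 0x4000400080, nat_lit 0x11111111, nat_lit 0, nat_lit 4, nat_lit 0x4c⟩ (.nil) (.nil)
def t14_8709 : Tr := .node ⟨nat_lit 6, nat_lit 0x20002000100010, nat_lit 0x101010, nat_lit 3, nat_lit 3, nat_lit 0x46⟩ (.nil) (.nil)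
def t14_4613 : Tr := .node ⟨nat_lit 8, nat_lit 0x40004000800020, nat_lit 0x10110020, nat_lit 0, nat_lit 4, nat_lit 0x4a⟩ (.nil) (.nil)
def t14_12805 : Tr := .node ⟨nat_lit 6, nat_lit 0x20001000300034, nat_lit 0x2200, nat_lit 5, nat_lit 4, nat_lit 0x46⟩ (.nil) (.nil)
def t14_2565 : Tr := .node ⟨nat_lit 8, nat_lit 0x40008000800090006000d0, nat_lit 0x10211001, nat_lit 0, nat_lit 4, nat_lit 0x47⟩ (.nil) (.nil)
def t14_10757 : Tr := .node ⟨nat_lit 6, nat_lit 0x2000300028, nat_lit 0x122, nat_lit 4, nat_lit 4, nat_lit 0x46⟩ (.nil) (.nil)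
def t14_6661 : Tr := .node ⟨nat_lit 7, nat_lit 0x200020004000440064, nat_lit 0x1020201, nat_lit 0, nat_lit 4, nat_lit 0x47⟩ (.nil) (.nil)
def t14_14853 : Tr := .node ⟨nat_lit 8, nat_lit 0x800040004000a000c800d0, nat_lit 0x1111111, nat_lit 3, nat_lit 4, nat_lit 0x47⟩ (.nil) (.nil)
def t14_1541 : Tr := .node ⟨nat_lit 7, nat_lit 0x200020004000400044, nat_lit 0x21201, nat_lit 1, nat_lit 4, nat_lit 0x47⟩ (.nil) (.nil)
def t14_9733 : Tr := .node ⟨nat_lit 5, nat_lit 0x140018, nat_lit 0x1122, nat_lit 4, nat_lit 3, nat_lit 0x45⟩ (.nil) (.nil)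
def t14_5637 : Tr := .node ⟨nat_lit 4, nat_lit 0xe, nat_lit 1, nat_lit 3, nat_lit 4, nat_lit 0x42⟩ (.nil) (.nil)
def t14_13829 : Tr := .node ⟨nat_lit 6, nat_lit 0x800300030, nat_lit 0x220, nat_lit 4, nat_lit 4, nat_lit 0x46⟩ (.nil) (.nil)
def t14_3589 : Tr := .node ⟨nat_lit 7, nat_lit 0x40002000500060, nat_lit 0x2010, nat_lit 0, nat_lit 4, nat_lit 0x46⟩ (.nil) (.nil)
def t14_11781 : Tr := .node ⟨nat_lit 6, nat_lit 0x800200030, nat_lit 0x13, nat_lit 3, nat_lit 4, nat_lit 0x46⟩ (.nil) (.nil)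
def t14_7685 : Tr := .node ⟨nat_lit 0, nat_lit 0, nat_lit 0, nat_lit 0xd, nat_lit 4, nat_lit 0x41⟩ (.nil) (.nil)
def t9_5 : Tr := .node ⟨nat_lit 5, nat_lit 0x18, nat_lit 0x31211, nat_lit 3, nat_lit 4, nat_lit 0x4a⟩ (.node ⟨nat_lit 5, nat_lit 0x18, nat_lit 0x10412, nat_lit 0, nat_lit 4, nat_lit 0x48⟩ (.node ⟨nat_lit 5, nat_lit 0x180018, nat_lit 0x11120, nat_lit 0, nat_lit 3, nat_lit 0x45⟩ (.node ⟨nat_lit 7, nat_lit 0x2000500060, nat_lit 0x1002012, nat_lit 1, nat_lit 4, nat_lit 0x48⟩ (.node ⟨nat_lit 4, nat_lit 0x8000a, nat_lit 0x2231, nat_lit 7, nat_lit 4, nat_lit 0x49⟩ (t14_5) (t14_8197)) (.node ⟨nat_lit 7, nat_lit 0x800600050, nat_lit 0x1100000, nat_lit 1, nat_lit 4, nat_lit 0x47⟩ (t14_4101) (t14_12293))) (.node ⟨nat_lit 3, nat_lit 4, nat_lit 0x212, nat_lit 0x10, nat_lit 4, nat_lit 0x49⟩ (.node ⟨nat_lit 5, nat_lit 0x1000080014, nat_lit 0x22230,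 nat_lit 2, nat_lit 4, nat_lit 0x49⟩ (t14_2053) (t14_10245)) (.node ⟨nat_lit 8, nat_lit 0x8000c000a0, nat_lit 0x22200, nat_lit 0, nat_lit 4, nat_lit 0x4a⟩ (t14_6149) (t14_14341)))) (.node ⟨nat_lit 6, nat_lit 0x300030, nat_lit 0x102211, nat_lit 1, nat_lit 4, nat_lit 0x48⟩ (.node ⟨nat_lit 5, nat_lit 0x100010, nat_lit 0x23111, nat_lit 4, nat_lit 4, nat_lit 0x4a⟩ (.node ⟨nat_lit 6, nat_lit 0x800300030, nat_lit 0x111141, nat_lit 0, nat_lit 4, nat_lit 0x48⟩ (t14_1029) (t14_9221)) (.node ⟨nat_lit 7, nat_lit 0x40, nat_lit 0x222110, nat_lit 2, nat_lit 4, nat_lit 0x4d⟩ (t14_5125) (t14_13317))) (.node ⟨nat_lit 5, nat_lit 0x1000080008, nat_lit 0x1021, nat_lit 1, nat_lit 4, nat_lit 0x46⟩ (.node ⟨nat_lit 5, nat_lit 0x800080010, nat_lit 0x11300, nat_lit 9, nat_lit 4, nat_lit 0x49⟩ (t14_3077) (t14_11269)) (.node ⟨nat_lit 6, nat_lit 0x20002000100030, nat_lit 0x12022,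 nat_lit 5, nat_lit 4, nat_lit 0x48⟩ (t14_7173) (t14_15365))))) (.node ⟨nat_lit 7, nat_lit 0x40002000480068, nat_lit 0x3010012, nat_lit 1, nat_lit 4, nat_lit 0x48⟩ (.node ⟨nat_lit 6, nat_lit 0x20, nat_lit 0x122211, nat_lit 0, nat_lit 4, nat_lit 0x4b⟩ (.node ⟨nat_lit 5, nat_lit 0x80010, nat_lit 0x20110, nat_lit 3, nat_lit 4, nat_lit 0x47⟩ (.node ⟨nat_lit 5, nat_lit 0x1000180018, nat_lit 0x10311, nat_lit 2, nat_lit 3, nat_lit 0x45⟩ (t14_517) (t14_8709)) (.node ⟨nat_lit 5, nat_lit 0x100018, nat_lit 0x21132, nat_lit 2, nat_lit 4, nat_lit 0x49⟩ (t14_4613) (t14_12805))) (.node ⟨nat_lit 6, nat_lit 0x800300030, nat_lit 0x101121, nat_lit 1, nat_lit 4, nat_lit 0x46⟩ (.node ⟨nat_lit 6, nat_lit 0x2000080030, nat_lit 0x12011, nat_lit 0, nat_lit 4, nat_lit 0x47⟩ (t14_2565) (t14_10757)) (.node ⟨nat_lit 7, nat_lit 0x4000400040, nat_lit 0x211210, nat_lit 4, nat_lit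 4, nat_lit 0x4b⟩ (t14_6661) (t14_14853)))) (.node ⟨nat_lit 6, nat_lit 0x2000080034, nat_lit 0x121211, nat_lit 1, nat_lit 4, nat_lit 0x48⟩ (.node ⟨nat_lit 7, nat_lit 0x40, nat_lit 0x2211111, nat_lit 1, nat_lit 4, nat_lit 0x4d⟩ (.node ⟨nat_lit 5, nat_lit 0x10001a, nat_lit 0x11131, nat_lit 4, nat_lit 4, nat_lit 0x48⟩ (t14_1541) (t14_9733)) (.node ⟨nat_lit 8, nat_lit 0x80008000400040009000a0, nat_lit 0x11112100, nat_lit 1, nat_lit 4, nat_lit 0x49⟩ (t14_5637) (t14_13829))) (.node ⟨nat_lit 4, nat_lit 0xc, nat_lit 0x2014, nat_lit 4, nat_lit 4, nat_lit 0x47⟩ (.node ⟨nat_lit 5, nat_lit 0x1000180018, nat_lit 0x10130, nat_lit 2, nat_lit 3, nat_lit 0x44⟩ (t14_3589) (t14_11781)) (.node ⟨nat_lit 6, nat_lit 0x2000200024, nat_lit 0x111311, nat_lit 3, nat_lit 4, nat_lit 0x4a⟩ (t14_7685) (.nil)))))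
def t14_261 : Tr := .node ⟨nat_lit 7, nat_lit 0x20004000100060, nat_lit 0x121321, nat_lit 0, nat_lit 4, nat_lit 0x49⟩ (.nil) (.nil)
def t14_8453 : Tr := .node ⟨nat_lit 6, nat_lit 0x2000100030, nat_lit 0x1301, nat_lit 1, nat_lit 4, nat_lit 0x47⟩ (.nil) (.nil)
def t14_4357 : Tr := .node ⟨nat_lit 7, nat_lit 0x40003000500060, nat_lit 0x110211, nat_lit 0, nat_lit 3, nat_lit 0x45⟩ (.nil) (.nil)
def t14_12549 : Tr := .node ⟨nat_lit 8, nat_lit 0x80009000c0006000d0, nat_lit 0x10000301, nat_lit 3, nat_lit 4, nat_lit 0x47⟩ (.nil) (.nil)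
def t14_2309 : Tr := .node ⟨nat_lit 7, nat_lit 0x1000600060, nat_lit 0x1011031, nat_lit 0, nat_lit 4, nat_lit 0x48⟩ (.nil) (.nil)
def t14_10501 : Tr := .node ⟨nat_lit 8, nat_lit 0x40002000c000a0, nat_lit 0x10022, nat_lit 2, nat_lit 4, nat_lit 0x48⟩ (.nil) (.nil)
def t14_6405 : Tr := .node ⟨nat_lit 6, nat_lit 0x20003000380038, nat_lit 0x101200, nat_lit 3, nat_lit 4, nat_lit 0x45⟩ (.nil) (.nil)
def t14_14597 : Tr := .node ⟨nat_lit 6, nat_lit 0x20002000240028, nat_lit 0x11111, nat_lit 0xb, nat_lit 4, nat_lit 0x48⟩ (.nil) (.nil)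
def t14_1285 : Tr := .node ⟨nat_lit 7, nat_lit 0x40002000100064, nat_lit 0x10311, nat_lit 0, nat_lit 4, nat_lit 0x47⟩ (.nil) (.nil)
def t14_9477 : Tr := .node ⟨nat_lit 8, nat_lit 0x800040009000d000c8, nat_lit 0x10111022, nat_lit 0, nat_lit 4, nat_lit 0x47⟩ (.nil) (.nil)
def t14_5381 : Tr := .node ⟨nat_lit 5, nat_lit 0x1000140018, nat_lit 0x1212, nat_lit 9, nat_lit 4, nat_lit 0x47⟩ (.nil) (.nil)
def t14_13573 : Tr := .node ⟨nat_lit 6, nat_lit 0x10001000200022, nat_lit 0x2100, nat_lit 0, nat_lit 4, nat_lit 0x45⟩ (.nil) (.nil)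
def t14_3333 : Tr := .node ⟨nat_lit 7, nat_lit 0x10001000500060, nat_lit 0x1102012, nat_lit 1, nat_lit 4, nat_lit 0x48⟩ (.nil) (.nil)
def t14_11525 : Tr := .node ⟨nat_lit 6, nat_lit 0x1000100020, nat_lit 0x11101, nat_lit 3, nat_lit 4, nat_lit 0x48⟩ (.nil) (.nil)
def t14_7429 : Tr := .node ⟨nat_lit 7, nat_lit 0x2000200040, nat_lit 0x1111111, nat_lit 4, nat_lit 4, nat_lit 0x4b⟩ (.nil) (.nil)
def t14_773 : Tr := .node ⟨nat_lit 6, nat_lit 0x280030, nat_lit 0x1103, nat_lit 0, nat_lit 4, nat_lit 0x46⟩ (.nil) (.nil)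
def t14_8965 : Tr := .node ⟨nat_lit 6, nat_lit 0x20, nat_lit 0x221110, nat_lit 2, nat_lit 3, nat_lit 0x4a⟩ (.nil) (.nil)
def t14_4869 : Tr := .node ⟨nat_lit 6, nat_lit 0x10001000200022, nat_lit 0x102121, nat_lit 2, nat_lit 4, nat_lit 0x47⟩ (.nil) (.nil)
def t14_13061 : Tr := .node ⟨nat_lit 7, nat_lit 0x40002000480064, nat_lit 0x113200, nat_lit 0, nat_lit 4, nat_lit 0x48⟩ (.nil) (.nil)
def t14_2821 : Tr := .node ⟨nat_lit 4, nat_lit 0x8000c, nat_lit 0x1100, nat_lit 5, nat_lit 4, nat_lit 0x45⟩ (.nil) (.nil)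
def t14_11013 : Tr := .node ⟨nat_lit 7, nat_lit 0x6000600060, nat_lit 0x11210, nat_lit 5, nat_lit 4, nat_lit 0x48⟩ (.nil) (.nil)
def t14_6917 : Tr := .node ⟨nat_lit 5, nat_lit 0x800080010, nat_lit 0x11111, nat_lit 0xb, nat_lit 4, nat_lit 0x49⟩ (.nil) (.nil)
def t14_15109 : Tr := .node ⟨nat_lit 8, nat_lit 0x8000400040009000d0, nat_lit 0x10111110, nat_lit 0, nat_lit 4, nat_lit 0x48⟩ (.nil) (.nil)
def t14_1797 : Tr := .node ⟨nat_lit 7, nat_lit 0x2000400070, nat_lit 0x21202, nat_lit 0, nat_lit 4, nat_lit 0x48⟩ (.nil) (.nil)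
def t14_9989 : Tr := .node ⟨nat_lit 6, nat_lit 0x2000100010, nat_lit 0x301020, nat_lit 4, nat_lit 3, nat_lit 0x48⟩ (.nil) (.nil)
def t14_5893 : Tr := .node ⟨nat_lit 9, nat_lit 0x80010001000100011000a0, nat_lit 0x11012000, nat_lit 3, nat_lit 4, nat_lit 0x4a⟩ (.nil) (.nil)
def t14_14085 : Tr := .node ⟨nat_lit 8, nat_lit 0x800020002000400040, nat_lit 0x3100, nat_lit 3, nat_lit 4, nat_lit 0x49⟩ (.nil) (.nil)
def t14_3845 : Tr := .node ⟨nat_lit 8, nat_lit 0x800020002000c000d0, nat_lit 0x11020012, nat_lit 0, nat_lit 4, nat_lit 0x48⟩ (.nil) (.nil)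
def t14_12037 : Tr := .node ⟨nat_lit 7, nat_lit 0x20004000600064, nat_lit 0x1012110, nat_lit 3, nat_lit 4, nat_lit 0x48⟩ (.nil) (.nil)
def t14_7941 : Tr := .node ⟨nat_lit 9, nat_lit 0x400100010801080180, nat_lit 0x10101211, nat_lit 0, nat_lit 4, nat_lit 0x49⟩ (.nil) (.nil)
def t9_261 : Tr := .node ⟨nat_lit 4, nat_lit 0x40008, nat_lit 0x3112, nat_lit 4, nat_lit 4, nat_lit 0x48⟩ (.node ⟨nat_lit 7, nat_lit 0x400020002000500070, nat_lit 0x3011012, nat_lit 1, nat_lit 4, nat_lit 0x48⟩ (.node ⟨nat_lit 7, nat_lit 0x40002000500060, nat_lit 0x23020, nat_lit 0, nat_lit 4, nat_lit 0x48⟩ (.node ⟨nat_lit 6, nat_lit 0x20002000200010, nat_lit 0x12103, nat_lit 2, nat_lit 4, nat_lit 0x48⟩ (.node ⟨nat_lit 6, nat_lit 0x2000100010, nat_lit 0x21022, nat_lit 3, nat_lit 4, nat_lit 0x4a⟩ (t14_261) (t14_8453)) (.node ⟨nat_lit 7, nat_lit 0x40002000600070, nat_lit 0x112013,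 nat_lit 0, nat_lit 4, nat_lit 0x47⟩ (t14_4357) (t14_12549))) (.node ⟨nat_lit 3, nat_lit 4, nat_lit 0x32, nat_lit 0xb, nat_lit 3, nat_lit 0x46⟩ (.node ⟨nat_lit 7, nat_lit 0x200040004800300070, nat_lit 0x1122003, nat_lit 0, nat_lit 4, nat_lit 0x47⟩ (t14_2309) (t14_10501)) (.node ⟨nat_lit 7, nat_lit 0x40002000480060, nat_lit 0x1112210, nat_lit 0, nat_lit 4, nat_lit 0x49⟩ (t14_6405) (t14_14597)))) (.node ⟨nat_lit 5, nat_lit 0x18, nat_lit 0x21101, nat_lit 0, nat_lit 4, nat_lit 0x47⟩ (.node ⟨nat_lit 6, nat_lit 0x1000200034, nat_lit 0x221121, nat_lit 1, nat_lit 4, nat_lit 0x49⟩ (.node ⟨nat_lit 6, nat_lit 0x1000100020, nat_lit 0x111103, nat_lit 2, nat_lit 4, nat_lit 0x49⟩ (t14_1285) (t14_9477)) (.node ⟨nat_lit 7, nat_lit 0x40004800300060, nat_lit 0x1112022, nat_lit 0, nat_lit 4, nat_lit 0x48⟩ (t14_5381) (t14_13573))) (.node ⟨nat_lit 5, nat_lit 0x100008,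 nat_lit 0x1220, nat_lit 5, nat_lit 4, nat_lit 0x48⟩ (.node ⟨nat_lit 7, nat_lit 0x1000600060, nat_lit 0x1102031, nat_lit 0, nat_lit 4, nat_lit 0x49⟩ (t14_3333) (t14_11525)) (.node ⟨nat_lit 5, nat_lit 0x40018, nat_lit 0x11112, nat_lit 6, nat_lit 4, nat_lit 0x48⟩ (t14_7429) (.nil))))) (.node ⟨nat_lit 4, nat_lit 0x80008, nat_lit 0x1311, nat_lit 7, nat_lit 4, nat_lit 0x48⟩ (.node ⟨nat_lit 5, nat_lit 0x140018, nat_lit 0x12102, nat_lit 3, nat_lit 4, nat_lit 0x47⟩ (.node ⟨nat_lit 2, nat_lit 2, nat_lit 0x11, nat_lit 0xd, nat_lit 4, nat_lit 0x45⟩ (.node ⟨nat_lit 5, nat_lit 0x18, nat_lit 0x22310, nat_lit 0, nat_lit 4, nat_lit 0x4a⟩ (t14_773) (t14_8965)) (.node ⟨nat_lit 7, nat_lit 0x20002000500068, nat_lit 0x1002120, nat_lit 1, nat_lit 4, nat_lit 0x47⟩ (t14_4869) (t14_13061))) (.node ⟨nat_lit 6, nat_lit 0x20001000280030, nat_lit 0x102022, nat_lit 2, nat_lit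 4, nat_lit 0x47⟩ (.node ⟨nat_lit 6, nat_lit 0x200030, nat_lit 0x21114, nat_lit 0, nat_lit 4, nat_lit 0x49⟩ (t14_2821) (t14_11013)) (.node ⟨nat_lit 7, nat_lit 0x40004800300068, nat_lit 0x1100222, nat_lit 1, nat_lit 4, nat_lit 0x46⟩ (t14_6917) (t14_15109)))) (.node ⟨nat_lit 6, nat_lit 0x2000080030, nat_lit 0x111211, nat_lit 2, nat_lit 4, nat_lit 0x48⟩ (.node ⟨nat_lit 7, nat_lit 0x600060, nat_lit 0x1011121, nat_lit 0, nat_lit 4, nat_lit 0x49⟩ (.node ⟨nat_lit 6, nat_lit 0x2000100008, nat_lit 0x111003, nat_lit 1, nat_lit 3, nat_lit 0x47⟩ (t14_1797) (t14_9989)) (.node ⟨nat_lit 7, nat_lit 0x40004000200062, nat_lit 0x220021, nat_lit 1, nat_lit 4, nat_lit 0x49⟩ (t14_5893) (t14_14085))) (.node ⟨nat_lit 7, nat_lit 0x40001000100060, nat_lit 0x2002302, nat_lit 0, nat_lit 4, nat_lit 0x49⟩ (.node ⟨nat_lit 6, nat_lit 0x1000200030, nat_lit 0x10110, nat_lit 0, nat_lit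 4, nat_lit 0x46⟩ (t14_3845) (t14_12037)) (.node ⟨nat_lit 5, nat_lit 0x1000100018, nat_lit 0x10221, nat_lit 7, nat_lit 4, nat_lit 0x48⟩ (t14_7941) (.nil)))))
def t14_133 : Tr := .node ⟨nat_lit 7, nat_lit 0x20004000600068, nat_lit 0x131111, nat_lit 1, nat_lit 4, nat_lit 0x48⟩ (.nil) (.nil)
def t14_8325 : Tr := .node ⟨nat_lit 7, nat_lit 0x40004800300060, nat_lit 0x1020, nat_lit 0, nat_lit 4, nat_lit 0x45⟩ (.nil) (.nil)
def t14_4229 : Tr := .node ⟨nat_lit 7, nat_lit 0x1000600060, nat_lit 0x1021210, nat_lit 0, nat_lit 4, nat_lit 0x49⟩ (.nil) (.nil)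
def t14_12421 : Tr := .node ⟨nat_lit 7, nat_lit 0x20004000400060, nat_lit 0x21003, nat_lit 2, nat_lit 4, nat_lit 0x48⟩ (.nil) (.nil)
def t14_2181 : Tr := .node ⟨nat_lit 8, nat_lit 0x800080004000200090, nat_lit 0x1120002, nat_lit 1, nat_lit 4, nat_lit 0x49⟩ (.nil) (.nil)
def t14_10373 : Tr := .node ⟨nat_lit 9, nat_lit 0x200100010801400180, nat_lit 0x10002002, nat_lit 2, nat_lit 4, nat_lit 0x49⟩ (.nil) (.nil)
def t14_6277 : Tr := .node ⟨nat_lit 5, nat_lit 0x1000080008, nat_lit 0x1031, nat_lit 6, nat_lit 4, nat_lit 0x48⟩ (.nil) (.nil)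
def t14_14469 : Tr := .node ⟨nat_lit 8, nat_lit 0x1000c000a0, nat_lit 0x1002, nat_lit 1, nat_lit 4, nat_lit 0x48⟩ (.nil) (.nil)
def t14_1157 : Tr := .node ⟨nat_lit 6, nat_lit 0x2000100024, nat_lit 0x11012, nat_lit 1, nat_lit 4, nat_lit 0x46⟩ (.nil) (.nil)
def t14_9349 : Tr := .node ⟨nat_lit 8, nat_lit 0x400080008000800088, nat_lit 0x201211, nat_lit 3, nat_lit 4, nat_lit 0x4a⟩ (.nil) (.nil)
def t14_5253 : Tr := .node ⟨nat_lit 8, nat_lit 0xc000c000c0, nat_lit 0x111310, nat_lit 0, nat_lit 4, nat_lit 0x49⟩ (.nil) (.nil)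
def t14_13445 : Tr := .node ⟨nat_lit 7, nat_lit 0x1000600018, nat_lit 0x1000310, nat_lit 2, nat_lit 4, nat_lit 0x48⟩ (.nil) (.nil)
def t14_3205 : Tr := .node ⟨nat_lit 9, nat_lit 0x10001000080008001200180, nat_lit 0x1101102, nat_lit 0, nat_lit 4, nat_lit 0x49⟩ (.nil) (.nil)
def t14_11397 : Tr := .node ⟨nat_lit 7, nat_lit 0x10001000600060, nat_lit 0x1002020, nat_lit 1, nat_lit 4, nat_lit 0x47⟩ (.nil) (.nil)
def t14_7301 : Tr := .node ⟨nat_lit 7, nat_lit 0x200040004800300070, nat_lit 0x1202011, nat_lit 0, nat_lit 4, nat_lit 0x47⟩ (.nil) (.nil)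
def t14_15493 : Tr := .node ⟨nat_lit 8, nat_lit 0x4000400080002000c0, nat_lit 0x10110211, nat_lit 0, nat_lit 4, nat_lit 0x49⟩ (.nil) (.nil)
def t14_645 : Tr := .node ⟨nat_lit 6, nat_lit 0x2000280030, nat_lit 0x20302, nat_lit 3, nat_lit 4, nat_lit 0x48⟩ (.nil) (.nil)
def t14_8837 : Tr := .node ⟨nat_lit 6, nat_lit 0x2000200024, nat_lit 0x11202, nat_lit 2, nat_lit 4, nat_lit 0x48⟩ (.nil) (.nil)
def t14_4741 : Tr := .node ⟨nat_lit 7, nat_lit 0x400040002000200050, nat_lit 0x1121101, nat_lit 2, nat_lit 4, nat_lit 0x49⟩ (.nil) (.nil)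
def t14_12933 : Tr := .node ⟨nat_lit 7, nat_lit 0x40002000480060, nat_lit 0x12020, nat_lit 0, nat_lit 4, nat_lit 0x47⟩ (.nil) (.nil)
def t14_2693 : Tr := .node ⟨nat_lit 8, nat_lit 0x8000800020009000c0, nat_lit 0x1121010, nat_lit 1, nat_lit 4, nat_lit 0x49⟩ (.nil) (.nil)
def t14_10885 : Tr := .node ⟨nat_lit 6, nat_lit 0x20001000100030, nat_lit 0x200220, nat_lit 1, nat_lit 3, nat_lit 0x46⟩ (.nil) (.nil)
def t14_6789 : Tr := .node ⟨nat_lit 7, nat_lit 0x20004000400068, nat_lit 0x111100, nat_lit 0, nat_lit 4, nat_lit 0x47⟩ (.nil) (.nil)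
def t14_14981 : Tr := .node ⟨nat_lit 0xa, nat_lit 0x20002000200010001000220028002c0, nat_lit 0x11010012, nat_lit 0, nat_lit 4, nat_lit 0x48⟩ (.nil) (.nil)
def t14_1669 : Tr := .node ⟨nat_lit 5, nat_lit 0x1000080014, nat_lit 0x10120, nat_lit 2, nat_lit 4, nat_lit 0x45⟩ (.nil) (.nil)
def t14_9861 : Tr := .node ⟨nat_lit 8, nat_lit 0x800080004000880090, nat_lit 0x1111010, nat_lit 4, nat_lit 4, nat_lit 0x49⟩ (.nil) (.nil)
def t14_5765 : Tr := .node ⟨nat_lit 7, nat_lit 0x4000400040, nat_lit 0x111221, nat_lit 2, nat_lit 4, nat_lit 0x4b⟩ (.nil) (.nil)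
def t14_13957 : Tr := .node ⟨nat_lit 9, nat_lit 0x800040002001000182, nat_lit 0x100020000, nat_lit 2, nat_lit 4, nat_lit 0x49⟩ (.nil) (.nil)
def t14_3717 : Tr := .node ⟨nat_lit 6, nat_lit 0x20001000280038, nat_lit 0x211301, nat_lit 2, nat_lit 4, nat_lit 0x48⟩ (.nil) (.nil)
def t14_11909 : Tr := .node ⟨nat_lit 5, nat_lit 0x1000080014, nat_lit 0x1340, nat_lit 2, nat_lit 4, nat_lit 0x47⟩ (.nil) (.nil)
def t14_7813 : Tr := .node ⟨nat_lit 6, nat_lit 0x20001000100028, nat_lit 0x12203, nat_lit 1, nat_lit 4, nat_lit 0x47⟩ (.nil) (.nil)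
def t9_133 : Tr := .node ⟨nat_lit 6, nat_lit 0x100020, nat_lit 0x131111, nat_lit 0, nat_lit 4, nat_lit 0x4a⟩ (.node ⟨nat_lit 6, nat_lit 0x800200030, nat_lit 0x31201, nat_lit 0, nat_lit 4, nat_lit 0x48⟩ (.node ⟨nat_lit 7, nat_lit 0x20002000400040, nat_lit 0x32100, nat_lit 1, nat_lit 4, nat_lit 0x49⟩ (.node ⟨nat_lit 6, nat_lit 0x80030, nat_lit 0x101221, nat_lit 2, nat_lit 4, nat_lit 0x49⟩ (.node ⟨nat_lit 9, nat_lit 0x10001000040011001200180, nat_lit 0x2112010, nat_lit 0, nat_lit 4, nat_lit 0x49⟩ (t14_133) (t14_8325)) (.node ⟨nat_lit 6, nat_lit 0x1000200032, nat_lit 0x11002, nat_lit 0, nat_lit 4, nat_lit 0x45⟩ (t14_4229) (t14_12421))) (.node ⟨nat_lit 8, nat_lit 0x40008000900060006000c0, nat_lit 0x12011102, nat_lit 0, nat_lit 4, nat_lit 0x48⟩ (.node ⟨nat_lit 5, nat_lit 0x18001c, nat_lit 0x102, nat_lit 3, nat_lit 4, nat_lit 0x44⟩ (t14_2181) (t14_10373))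 (.node ⟨nat_lit 8, nat_lit 0x800080004000900090, nat_lit 0x11211011, nat_lit 1, nat_lit 4, nat_lit 0x4a⟩ (t14_6277) (t14_14469)))) (.node ⟨nat_lit 7, nat_lit 0x400020, nat_lit 0x22100, nat_lit 3, nat_lit 4, nat_lit 0x4b⟩ (.node ⟨nat_lit 7, nat_lit 0x1000080060, nat_lit 0x2201011, nat_lit 1, nat_lit 4, nat_lit 0x4a⟩ (.node ⟨nat_lit 2, nat_lit 2, nat_lit 0x41, nat_lit 9, nat_lit 3, nat_lit 0x46⟩ (t14_1157) (t14_9349)) (.node ⟨nat_lit 7, nat_lit 0x40001000600068, nat_lit 0x1112012, nat_lit 1, nat_lit 4, nat_lit 0x48⟩ (t14_5253) (t14_13445))) (.node ⟨nat_lit 6, nat_lit 0x80030, nat_lit 0x1201, nat_lit 0, nat_lit 4, nat_lit 0x47⟩ (.node ⟨nat_lit 5, nat_lit 0x18, nat_lit 0x10300, nat_lit 0, nat_lit 4, nat_lit 0x47⟩ (t14_3205) (t14_11397)) (.node ⟨nat_lit 5, nat_lit 0x180018, nat_lit 0x10110, nat_lit 5, nat_lit 4, nat_lit 0x46⟩ (t14_7301) (t14_15493)))))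 (.node ⟨nat_lit 7, nat_lit 0x40001000200048, nat_lit 0x3102011, nat_lit 0, nat_lit 4, nat_lit 0x4a⟩ (.node ⟨nat_lit 6, nat_lit 0x10002000180024, nat_lit 0x212300, nat_lit 0, nat_lit 4, nat_lit 0x48⟩ (.node ⟨nat_lit 6, nat_lit 0x200030, nat_lit 0x2102, nat_lit 0, nat_lit 4, nat_lit 0x47⟩ (.node ⟨nat_lit 4, nat_lit 0x40008, nat_lit 0x1200, nat_lit 5, nat_lit 4, nat_lit 0x46⟩ (t14_645) (t14_8837)) (.node ⟨nat_lit 7, nat_lit 0x400040007000700068, nat_lit 0x1012201, nat_lit 1, nat_lit 4, nat_lit 0x46⟩ (t14_4741) (t14_12933))) (.node ⟨nat_lit 5, nat_lit 0x40018, nat_lit 0x11021, nat_lit 1, nat_lit 3, nat_lit 0x45⟩ (.node ⟨nat_lit 4, nat_lit 0x80008, nat_lit 0x1330, nat_lit 6, nat_lit 3, nat_lit 0x47⟩ (t14_2693) (t14_10885)) (.node ⟨nat_lit 7, nat_lit 0x40001000600060, nat_lit 0x11210, nat_lit 2, nat_lit 4, nat_lit 0x47⟩ (t14_6789) (t14_14981)))) (.node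 ⟨nat_lit 6, nat_lit 0x2000080030, nat_lit 0x111011, nat_lit 0, nat_lit 3, nat_lit 0x46⟩ (.node ⟨nat_lit 6, nat_lit 0x2000080030, nat_lit 0x21131, nat_lit 1, nat_lit 4, nat_lit 0x48⟩ (.node ⟨nat_lit 6, nat_lit 0x800080030, nat_lit 0x100111, nat_lit 0, nat_lit 4, nat_lit 0x46⟩ (t14_1669) (t14_9861)) (.node ⟨nat_lit 8, nat_lit 0x2000800080004000c2, nat_lit 0x2002020, nat_lit 1, nat_lit 4, nat_lit 0x49⟩ (t14_5765) (t14_13957))) (.node ⟨nat_lit 6, nat_lit 0x800280030, nat_lit 0x201222, nat_lit 1, nat_lit 4, nat_lit 0x48⟩ (.node ⟨nat_lit 7, nat_lit 0x1800500060, nat_lit 0x101100, nat_lit 0, nat_lit 4, nat_lit 0x46⟩ (t14_3717) (t14_11909)) (.node ⟨nat_lit 4, nat_lit 0x800080008, nat_lit 0x1221, nat_lit 7, nat_lit 3, nat_lit 0x46⟩ (t14_7813) (.nil)))))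
def t14_389 : Tr := .node ⟨nat_lit 6, nat_lit 0x2000080030, nat_lit 0x110131, nat_lit 0, nat_lit 4, nat_lit 0x47⟩ (.nil) (.nil)
def t14_8581 : Tr := .node ⟨nat_lit 7, nat_lit 0x200040004800300070, nat_lit 0x1010010, nat_lit 1, nat_lit 4, nat_lit 0x45⟩ (.nil) (.nil)
def t14_4485 : Tr := .node ⟨nat_lit 7, nat_lit 0x40001000600068, nat_lit 0x1111021, nat_lit 2, nat_lit 4, nat_lit 0x48⟩ (.nil) (.nil)
def t14_12677 : Tr := .node ⟨nat_lit 4, nat_lit 0x8000c, nat_lit 0x1030, nat_lit 0xa, nat_lit 4, nat_lit 0x47⟩ (.nil) (.nil)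
def t14_2437 : Tr := .node ⟨nat_lit 6, nat_lit 0x1800280030, nat_lit 0x110022, nat_lit 2, nat_lit 4, nat_lit 0x46⟩ (.nil) (.nil)
def t14_10629 : Tr := .node ⟨nat_lit 6, nat_lit 0x2000080034, nat_lit 0x10, nat_lit 0, nat_lit 4, nat_lit 0x44⟩ (.nil) (.nil)
def t14_6533 : Tr := .node ⟨nat_lit 7, nat_lit 0x40001000600068, nat_lit 0x1011111, nat_lit 1, nat_lit 4, nat_lit 0x47⟩ (.nil) (.nil)
def t14_14725 : Tr := .node ⟨nat_lit 6, nat_lit 0x800080030, nat_lit 0x110111, nat_lit 2, nat_lit 4, nat_lit 0x47⟩ (.nil) (.nil)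
def t14_1413 : Tr := .node ⟨nat_lit 6, nat_lit 0x20002000100030, nat_lit 0x14011, nat_lit 0, nat_lit 3, nat_lit 0x46⟩ (.nil) (.nil)
def t14_9605 : Tr := .node ⟨nat_lit 7, nat_lit 0x400050005000600070, nat_lit 0x110020, nat_lit 1, nat_lit 4, nat_lit 0x46⟩ (.nil) (.nil)
def t14_5509 : Tr := .node ⟨nat_lit 5, nat_lit 0x10, nat_lit 0x1113, nat_lit 2, nat_lit 3, nat_lit 0x47⟩ (.nil) (.nil)
def t14_13701 : Tr := .node ⟨nat_lit 8, nat_lit 0x1000a000c0, nat_lit 0x1002002, nat_lit 0, nat_lit 4, nat_lit 0x49⟩ (.nil) (.nil)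
def t14_3461 : Tr := .node ⟨nat_lit 7, nat_lit 0x40001000600050, nat_lit 0x103001, nat_lit 1, nat_lit 4, nat_lit 0x47⟩ (.nil) (.nil)
def t14_11653 : Tr := .node ⟨nat_lit 8, nat_lit 0x20002000a000c000c0, nat_lit 0x10410, nat_lit 0, nat_lit 4, nat_lit 0x47⟩ (.nil) (.nil)
def t14_7557 : Tr := .node ⟨nat_lit 7, nat_lit 0x40001000600070, nat_lit 0x2203, nat_lit 1, nat_lit 4, nat_lit 0x46⟩ (.nil) (.nil)
def t14_901 : Tr := .node ⟨nat_lit 7, nat_lit 0x20002000400040, nat_lit 0x111122, nat_lit 0, nat_lit 4, nat_lit 0x49⟩ (.nil) (.nil)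
def t14_9093 : Tr := .node ⟨nat_lit 8, nat_lit 0x800040004000a000c0, nat_lit 0x120012, nat_lit 1, nat_lit 4, nat_lit 0x48⟩ (.nil) (.nil)
def t14_4997 : Tr := .node ⟨nat_lit 7, nat_lit 0x5000500060, nat_lit 0x111310, nat_lit 1, nat_lit 4, nat_lit 0x48⟩ (.nil) (.nil)
def t14_13189 : Tr := .node ⟨nat_lit 7, nat_lit 0x10004000500064, nat_lit 0x131, nat_lit 0, nat_lit 4, nat_lit 0x46⟩ (.nil) (.nil)
def t14_2949 : Tr := .node ⟨nat_lit 7, nat_lit 0x40004800300068, nat_lit 0x2011021, nat_lit 0, nat_lit 4, nat_lit 0x47⟩ (.nil) (.nil)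
def t14_11141 : Tr := .node ⟨nat_lit 6, nat_lit 0x800300038, nat_lit 0x100003, nat_lit 5, nat_lit 4, nat_lit 0x46⟩ (.nil) (.nil)
def t14_7045 : Tr := .node ⟨nat_lit 7, nat_lit 0x10004000400060, nat_lit 0x1011311, nat_lit 0, nat_lit 4, nat_lit 0x49⟩ (.nil) (.nil)
def t14_15237 : Tr := .node ⟨nat_lit 7, nat_lit 0x5000180060, nat_lit 0x1111120, nat_lit 0, nat_lit 4, nat_lit 0x48⟩ (.nil) (.nil)
def t14_1925 : Tr := .node ⟨nat_lit 7, nat_lit 0x40004800300068, nat_lit 0x2000111, nat_lit 0, nat_lit 4, nat_lit 0x46⟩ (.nil) (.nil)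
def t14_10117 : Tr := .node ⟨nat_lit 8, nat_lit 0x40008000c000d000d0, nat_lit 0x200220, nat_lit 0, nat_lit 4, nat_lit 0x46⟩ (.nil) (.nil)
def t14_6021 : Tr := .node ⟨nat_lit 6, nat_lit 0x2000080030, nat_lit 0x112120, nat_lit 3, nat_lit 4, nat_lit 0x49⟩ (.nil) (.nil)
def t14_14213 : Tr := .node ⟨nat_lit 7, nat_lit 0x40002000500068, nat_lit 0x11020, nat_lit 1, nat_lit 4, nat_lit 0x46⟩ (.nil) (.nil)
def t14_3973 : Tr := .node ⟨nat_lit 7, nat_lit 0x200020004000400070, nat_lit 0x120201, nat_lit 4, nat_lit 4, nat_lit 0x48⟩ (.nil) (.nil)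
def t14_12165 : Tr := .node ⟨nat_lit 8, nat_lit 0x80004000a000d000c8, nat_lit 0x1121001, nat_lit 0, nat_lit 4, nat_lit 0x47⟩ (.nil) (.nil)
def t14_8069 : Tr := .node ⟨nat_lit 5, nat_lit 0x1000140018, nat_lit 0x1131, nat_lit 6, nat_lit 4, nat_lit 0x46⟩ (.nil) (.nil)
def t9_389 : Tr := .node ⟨nat_lit 6, nat_lit 0x2000080030, nat_lit 0x32022, nat_lit 0, nat_lit 4, nat_lit 0x49⟩ (.node ⟨nat_lit 6, nat_lit 0x80030, nat_lit 0x211310, nat_lit 1, nat_lit 4, nat_lit 0x4a⟩ (.node ⟨nat_lit 6, nat_lit 0x2000080010, nat_lit 0x22022, nat_lit 0, nat_lit 4, nat_lit 0x49⟩ (.node ⟨nat_lit 5, nat_lit 0x40018, nat_lit 0x11032, nat_lit 0, nat_lit 3, nat_lit 0x45⟩ (.node ⟨nat_lit 6, nat_lit 0x800280030, nat_lit 0x120211, nat_lit 1, nat_lit 4, nat_lit 0x47⟩ (t14_389) (t14_8581)) (.node ⟨nat_lit 8, nat_lit 0x80008400c0, nat_lit 0x11111210, nat_lit 0, nat_lit 4, nat_lit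 0x4b⟩ (t14_4485) (t14_12677))) (.node ⟨nat_lit 5, nat_lit 0x80010, nat_lit 0x22110, nat_lit 4, nat_lit 4, nat_lit 0x49⟩ (.node ⟨nat_lit 7, nat_lit 0x10004000200060, nat_lit 0x1100214, nat_lit 0, nat_lit 4, nat_lit 0x49⟩ (t14_2437) (t14_10629)) (.node ⟨nat_lit 5, nat_lit 0x1000080008, nat_lit 0x21, nat_lit 1, nat_lit 4, nat_lit 0x45⟩ (t14_6533) (t14_14725)))) (.node ⟨nat_lit 5, nat_lit 0x140018, nat_lit 0x12212, nat_lit 1, nat_lit 3, nat_lit 0x46⟩ (.node ⟨nat_lit 5, nat_lit 0x1000100008, nat_lit 0x12311, nat_lit 5, nat_lit 4, nat_lit 0x49⟩ (.node ⟨nat_lit 5, nat_lit 0x800080010, nat_lit 0x10001, nat_lit 5, nat_lit 4, nat_lit 0x46⟩ (t14_1413) (t14_9605)) (.node ⟨nat_lit 7, nat_lit 0x200020004000400070, nat_lit 0x121220, nat_lit 1, nat_lit 4, nat_lit 0x48⟩ (t14_5509) (t14_13701))) (.node ⟨nat_lit 6, nat_lit 0x1000200020, nat_lit 0x11131, nat_lit 1,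 nat_lit 4, nat_lit 0x48⟩ (.node ⟨nat_lit 7, nat_lit 0x1000600060, nat_lit 0x12000, nat_lit 0, nat_lit 4, nat_lit 0x47⟩ (t14_3461) (t14_11653)) (.node ⟨nat_lit 5, nat_lit 0x80010001c, nat_lit 0x11212, nat_lit 6, nat_lit 4, nat_lit 0x47⟩ (t14_7557) (.nil))))) (.node ⟨nat_lit 6, nat_lit 0x200020, nat_lit 0x31111, nat_lit 1, nat_lit 3, nat_lit 0x48⟩ (.node ⟨nat_lit 6, nat_lit 0x200020, nat_lit 0x22020, nat_lit 0, nat_lit 4, nat_lit 0x49⟩ (.node ⟨nat_lit 6, nat_lit 0x2000100024, nat_lit 0x111120, nat_lit 2, nat_lit 4, nat_lit 0x48⟩ (.node ⟨nat_lit 6, nat_lit 0x80030, nat_lit 0x113122, nat_lit 0, nat_lit 4, nat_lit 0x4a⟩ (t14_901) (t14_9093)) (.node ⟨nat_lit 4, nat_lit 0, nat_lit 0x3221, nat_lit 8, nat_lit 4, nat_lit 0x4b⟩ (t14_4997) (t14_13189))) (.node ⟨nat_lit 7, nat_lit 0x40002000500060, nat_lit 0x110102, nat_lit 0, nat_lit 4, nat_lit 0x47⟩ (.node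 ⟨nat_lit 7, nat_lit 0x800100060, nat_lit 0x1111102, nat_lit 1, nat_lit 4, nat_lit 0x49⟩ (t14_2949) (t14_11141)) (.node ⟨nat_lit 7, nat_lit 0x800500060, nat_lit 0x1110022, nat_lit 4, nat_lit 4, nat_lit 0x49⟩ (t14_7045) (t14_15237)))) (.node ⟨nat_lit 6, nat_lit 0x1000200022, nat_lit 0x12131, nat_lit 0, nat_lit 4, nat_lit 0x48⟩ (.node ⟨nat_lit 6, nat_lit 0x200030, nat_lit 0x32121, nat_lit 1, nat_lit 4, nat_lit 0x4a⟩ (.node ⟨nat_lit 7, nat_lit 0x40001000600070, nat_lit 0x111213, nat_lit 0, nat_lit 4, nat_lit 0x47⟩ (t14_1925) (t14_10117)) (.node ⟨nat_lit 6, nat_lit 0x2000300030, nat_lit 0x13020, nat_lit 0, nat_lit 3, nat_lit 0x46⟩ (t14_6021) (t14_14213))) (.node ⟨nat_lit 7, nat_lit 0x40002000200020, nat_lit 0x10211, nat_lit 2, nat_lit 4, nat_lit 0x49⟩ (.node ⟨nat_lit 5, nat_lit 0x180014, nat_lit 0x11110, nat_lit 3, nat_lit 4, nat_lit 0x46⟩ (t14_3973)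 (t14_12165)) (.node ⟨nat_lit 9, nat_lit 0x10001000080008000400120, nat_lit 0x101111010, nat_lit 1, nat_lit 4, nat_lit 0x4a⟩ (t14_8069) (.nil)))))
def t14_69 : Tr := .node ⟨nat_lit 7, nat_lit 0x400060, nat_lit 0x1121111, nat_lit 2, nat_lit 4, nat_lit 0x4b⟩ (.nil) (.nil)
def t14_8261 : Tr := .node ⟨nat_lit 7, nat_lit 0x400020002000500060, nat_lit 0x21130, nat_lit 2, nat_lit 4, nat_lit 0x47⟩ (.nil) (.nil)
def t14_4165 : Tr := .node ⟨nat_lit 9, nat_lit 0x10000800080009001200180, nat_lit 0x101111101, nat_lit 0, nat_lit 4, nat_lit 0x49⟩ (.nil) (.nil)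
def t14_12357 : Tr := .node ⟨nat_lit 9, nat_lit 0x400100008001800180, nat_lit 0x101130, nat_lit 0, nat_lit 4, nat_lit 0x49⟩ (.nil) (.nil)
def t14_2117 : Tr := .node ⟨nat_lit 6, nat_lit 0x2000300028, nat_lit 0x2202, nat_lit 5, nat_lit 4, nat_lit 0x48⟩ (.nil) (.nil)
def t14_10309 : Tr := .node ⟨nat_lit 6, nat_lit 0x2000100024, nat_lit 0x20002, nat_lit 0, nat_lit 4, nat_lit 0x46⟩ (.nil) (.nil)
def t14_6213 : Tr := .node ⟨nat_lit 4, nat_lit 0x80008, nat_lit 0x110, nat_lit 0xb, nat_lit 4, nat_lit 0x47⟩ (.nil) (.nil)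
def t14_14405 : Tr := .node ⟨nat_lit 8, nat_lit 0x80001000c000a0, nat_lit 0x2010, nat_lit 3, nat_lit 4, nat_lit 0x48⟩ (.nil) (.nil)
def t14_1093 : Tr := .node ⟨nat_lit 6, nat_lit 0x2000300034, nat_lit 0x1212, nat_lit 3, nat_lit 4, nat_lit 0x46⟩ (.nil) (.nil)
def t14_9285 : Tr := .node ⟨nat_lit 6, nat_lit 0x20001000100030, nat_lit 0x100321, nat_lit 3, nat_lit 3, nat_lit 0x46⟩ (.nil) (.nil)
def t14_5189 : Tr := .node ⟨nat_lit 7, nat_lit 0x40004000100060, nat_lit 0x103100, nat_lit 1, nat_lit 4, nat_lit 0x48⟩ (.nil) (.nil)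
def t14_13381 : Tr := .node ⟨nat_lit 7, nat_lit 0x200040004800300060, nat_lit 0x1020000, nat_lit 0, nat_lit 4, nat_lit 0x46⟩ (.nil) (.nil)
def t14_3141 : Tr := .node ⟨nat_lit 6, nat_lit 0x10001000200022, nat_lit 0x110001, nat_lit 2, nat_lit 4, nat_lit 0x46⟩ (.nil) (.nil)
def t14_11333 : Tr := .node ⟨nat_lit 6, nat_lit 0x800300038, nat_lit 0x111102, nat_lit 2, nat_lit 4, nat_lit 0x47⟩ (.nil) (.nil)
def t14_7237 : Tr := .node ⟨nat_lit 7, nat_lit 0x40001000100060, nat_lit 0x1013110, nat_lit 1, nat_lit 4, nat_lit 0x49⟩ (.nil) (.nil)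
def t14_15429 : Tr := .node ⟨nat_lit 9, nat_lit 0x100010801080108, nat_lit 0x11110210, nat_lit 0, nat_lit 4, nat_lit 0x4a⟩ (.nil) (.nil)
def t14_581 : Tr := .node ⟨nat_lit 5, nat_lit 0x40018, nat_lit 0x212, nat_lit 2, nat_lit 4, nat_lit 0x46⟩ (.nil) (.nil)
def t14_8773 : Tr := .node ⟨nat_lit 7, nat_lit 0x40001000480060, nat_lit 0x12040, nat_lit 1, nat_lit 4, nat_lit 0x48⟩ (.nil) (.nil)
def t14_4677 : Tr := .node ⟨nat_lit 8, nat_lit 0x10008000c000a0, nat_lit 0x100202, nat_lit 0, nat_lit 4, nat_lit 0x48⟩ (.nil) (.nil)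
def t14_12869 : Tr := .node ⟨nat_lit 7, nat_lit 0x20004000600068, nat_lit 0x1200, nat_lit 0, nat_lit 4, nat_lit 0x46⟩ (.nil) (.nil)
def t14_2629 : Tr := .node ⟨nat_lit 5, nat_lit 0x1000080014, nat_lit 0x130, nat_lit 3, nat_lit 4, nat_lit 0x45⟩ (.nil) (.nil)
def t14_10821 : Tr := .node ⟨nat_lit 8, nat_lit 0x2000800040008800c8, nat_lit 0x10001002, nat_lit 1, nat_lit 4, nat_lit 0x47⟩ (.nil) (.nil)
def t14_6725 : Tr := .node ⟨nat_lit 7, nat_lit 0x4000500060, nat_lit 0x111101, nat_lit 1, nat_lit 4, nat_lit 0x48⟩ (.nil) (.nil)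
def t14_14917 : Tr := .node ⟨nat_lit 6, nat_lit 0x20001000100030, nat_lit 0x10311, nat_lit 0, nat_lit 3, nat_lit 0x46⟩ (.nil) (.nil)
def t14_1605 : Tr := .node ⟨nat_lit 8, nat_lit 0x40004000c000a000d0, nat_lit 0x110220, nat_lit 1, nat_lit 4, nat_lit 0x47⟩ (.nil) (.nil)
def t14_9797 : Tr := .node ⟨nat_lit 8, nat_lit 0x4000800090006000c000e0, nat_lit 0x100102, nat_lit 0, nat_lit 4, nat_lit 0x45⟩ (.nil) (.nil)
def t14_5701 : Tr := .node ⟨nat_lit 7, nat_lit 0x40002000480064, nat_lit 0x112110, nat_lit 0, nat_lit 4, nat_lit 0x47⟩ (.nil) (.nil)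
def t14_13893 : Tr := .node ⟨nat_lit 7, nat_lit 0x40001000480068, nat_lit 0x11102, nat_lit 0, nat_lit 4, nat_lit 0x46⟩ (.nil) (.nil)
def t14_3653 : Tr := .node ⟨nat_lit 7, nat_lit 0x4000600050, nat_lit 0x1012021, nat_lit 2, nat_lit 4, nat_lit 0x49⟩ (.nil) (.nil)
def t14_11845 : Tr := .node ⟨nat_lit 6, nat_lit 0x2000080034, nat_lit 0x11310, nat_lit 1, nat_lit 4, nat_lit 0x47⟩ (.nil) (.nil)
def t14_7749 : Tr := .node ⟨nat_lit 5, nat_lit 0x1000100008, nat_lit 0x113, nat_lit 3, nat_lit 4, nat_lit 0x46⟩ (.nil) (.nil)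
def t9_69 : Tr := .node ⟨nat_lit 4, nat_lit 0x40008, nat_lit 0x1311, nat_lit 0xb, nat_lit 4, nat_lit 0x49⟩ (.node ⟨nat_lit 6, nat_lit 0x20, nat_lit 0x132110, nat_lit 0, nat_lit 3, nat_lit 0x4a⟩ (.node ⟨nat_lit 6, nat_lit 0x3000300030, nat_lit 0x3220, nat_lit 4, nat_lit 4, nat_lit 0x47⟩ (.node ⟨nat_lit 4, nat_lit 0x80004, nat_lit 0x110, nat_lit 3, nat_lit 3, nat_lit 0x44⟩ (.node ⟨nat_lit 5, nat_lit 0x10, nat_lit 0x22114, nat_lit 1, nat_lit 3, nat_lit 0x49⟩ (t14_69) (t14_8261)) (.node ⟨nat_lit 6, nat_lit 0x800300028, nat_lit 0x101104, nat_lit 3, nat_lit 4, nat_lit 0x48⟩ (t14_4165) (t14_12357))) (.node ⟨nat_lit 5, nat_lit 0x40018, nat_lit 0x21112, nat_lit 8, nat_lit 4, nat_lit 0x49⟩ (.node ⟨nat_lit 5, nat_lit 0x1000080018, nat_lit 0x11041, nat_lit 1, nat_lit 3, nat_lit 0x46⟩ (t14_2117) (t14_10309)) (.node ⟨nat_lit 7, nat_lit 0x400040002000200060,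 nat_lit 0x120112, nat_lit 0, nat_lit 3, nat_lit 0x46⟩ (t14_6213) (t14_14405)))) (.node ⟨nat_lit 5, nat_lit 0x10, nat_lit 0x22220, nat_lit 1, nat_lit 3, nat_lit 0x49⟩ (.node ⟨nat_lit 6, nat_lit 0x200032, nat_lit 0x221110, nat_lit 0, nat_lit 4, nat_lit 0x49⟩ (.node ⟨nat_lit 7, nat_lit 0x40001000600060, nat_lit 0x10321, nat_lit 0, nat_lit 4, nat_lit 0x47⟩ (t14_1093) (t14_9285)) (.node ⟨nat_lit 6, nat_lit 0x2800300038, nat_lit 0x11213, nat_lit 3, nat_lit 4, nat_lit 0x46⟩ (t14_5189) (t14_13381))) (.node ⟨nat_lit 7, nat_lit 0x2000400064, nat_lit 0x1121001, nat_lit 0, nat_lit 4, nat_lit 0x49⟩ (.node ⟨nat_lit 6, nat_lit 0x200030, nat_lit 0x12110, nat_lit 0, nat_lit 4, nat_lit 0x48⟩ (t14_3141) (t14_11333)) (.node ⟨nat_lit 8, nat_lit 0x400080002000880088, nat_lit 0x10001021, nat_lit 1, nat_lit 4, nat_lit 0x48⟩ (t14_7237) (t14_15429))))) (.node ⟨nat_lit 4,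 nat_lit 0x80004, nat_lit 0x313, nat_lit 5, nat_lit 4, nat_lit 0x48⟩ (.node ⟨nat_lit 3, nat_lit 0x40006, nat_lit 0x221, nat_lit 0xb, nat_lit 4, nat_lit 0x47⟩ (.node ⟨nat_lit 6, nat_lit 0x2000100030, nat_lit 0x2002, nat_lit 1, nat_lit 4, nat_lit 0x46⟩ (.node ⟨nat_lit 3, nat_lit 0, nat_lit 0x321, nat_lit 0xe, nat_lit 4, nat_lit 0x4a⟩ (t14_581) (t14_8773)) (.node ⟨nat_lit 7, nat_lit 0x20004000600068, nat_lit 0x1111022, nat_lit 1, nat_lit 4, nat_lit 0x48⟩ (t14_4677) (t14_12869))) (.node ⟨nat_lit 6, nat_lit 0x800300028, nat_lit 0x100212, nat_lit 1, nat_lit 4, nat_lit 0x46⟩ (.node ⟨nat_lit 4, nat_lit 0x8000c, nat_lit 0x1213, nat_lit 9, nat_lit 4, nat_lit 0x48⟩ (t14_2629) (t14_10821)) (.node ⟨nat_lit 7, nat_lit 0x200040004000440048, nat_lit 0x1001100, nat_lit 0xb, nat_lit 4, nat_lit 0x49⟩ (t14_6725) (t14_14917)))) (.node ⟨nat_lit 7, nat_lit 0x40002000200048,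 nat_lit 0x2011100, nat_lit 3, nat_lit 4, nat_lit 0x49⟩ (.node ⟨nat_lit 6, nat_lit 0x2000100038, nat_lit 0x22301, nat_lit 0, nat_lit 4, nat_lit 0x48⟩ (.node ⟨nat_lit 6, nat_lit 0x800300038, nat_lit 0x101013, nat_lit 3, nat_lit 4, nat_lit 0x46⟩ (t14_1605) (t14_9797)) (.node ⟨nat_lit 7, nat_lit 0x4000400020, nat_lit 0x1111210, nat_lit 4, nat_lit 4, nat_lit 0x4b⟩ (t14_5701) (t14_13893))) (.node ⟨nat_lit 4, nat_lit 0xc, nat_lit 0x2022, nat_lit 8, nat_lit 4, nat_lit 0x48⟩ (.node ⟨nat_lit 7, nat_lit 0x800600070, nat_lit 0x10003, nat_lit 1, nat_lit 4, nat_lit 0x46⟩ (t14_3653) (t14_11845)) (.node ⟨nat_lit 7, nat_lit 0x2000400062, nat_lit 0x1111201, nat_lit 4, nat_lit 4, nat_lit 0x4a⟩ (t14_7749) (.nil)))))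
def t14_325 : Tr := .node ⟨nat_lit 7, nat_lit 0x1000500060, nat_lit 0x1201312, nat_lit 0, nat_lit 4, nat_lit 0x49⟩ (.nil) (.nil)
def t14_8517 : Tr := .node ⟨nat_lit 6, nat_lit 0x20002000280028, nat_lit 0x11141, nat_lit 4, nat_lit 4, nat_lit 0x48⟩ (.nil) (.nil)
def t14_4421 : Tr := .node ⟨nat_lit 6, nat_lit 0x2000100030, nat_lit 0x112301, nat_lit 1, nat_lit 4, nat_lit 0x49⟩ (.nil) (.nil)
def t14_12613 : Tr := .node ⟨nat_lit 7, nat_lit 0x40002000500068, nat_lit 0x1010100, nat_lit 0, nat_lit 4, nat_lit 0x46⟩ (.nil) (.nil)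
def t14_2373 : Tr := .node ⟨nat_lit 6, nat_lit 0x2000300030, nat_lit 0x12210, nat_lit 5, nat_lit 4, nat_lit 0x48⟩ (.nil) (.nil)
def t14_10565 : Tr := .node ⟨nat_lit 7, nat_lit 0x40002000480060, nat_lit 0x10020, nat_lit 2, nat_lit 4, nat_lit 0x46⟩ (.nil) (.nil)
def t14_6469 : Tr := .node ⟨nat_lit 7, nat_lit 0x1000600018, nat_lit 0x1011110, nat_lit 1, nat_lit 4, nat_lit 0x48⟩ (.nil) (.nil)
def t14_14661 : Tr := .node ⟨nat_lit 8, nat_lit 0x800040004000a0005000e0, nat_lit 0x10111111, nat_lit 2, nat_lit 4, nat_lit 0x47⟩ (.nil) (.nil)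
def t14_1349 : Tr := .node ⟨nat_lit 8, nat_lit 0x800040009000d000d0, nat_lit 0x10103110, nat_lit 0, nat_lit 4, nat_lit 0x47⟩ (.nil) (.nil)
def t14_9541 : Tr := .node ⟨nat_lit 9, nat_lit 0x40008000800100, nat_lit 0x110110101, nat_lit 0, nat_lit 3, nat_lit 0x4a⟩ (.nil) (.nil)
def t14_5445 : Tr := .node ⟨nat_lit 6, nat_lit 0x2000100024, nat_lit 0x11301, nat_lit 2, nat_lit 4, nat_lit 0x48⟩ (.nil) (.nil)
def t14_13637 : Tr := .node ⟨nat_lit 7, nat_lit 0x4000600018, nat_lit 0x10102, nat_lit 1, nat_lit 4, nat_lit 0x47⟩ (.nil) (.nil)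
def t14_3397 : Tr := .node ⟨nat_lit 7, nat_lit 0x1800500060, nat_lit 0x210110, nat_lit 0, nat_lit 4, nat_lit 0x47⟩ (.nil) (.nil)
def t14_11589 : Tr := .node ⟨nat_lit 7, nat_lit 0x6000600070, nat_lit 0x1011103, nat_lit 0, nat_lit 4, nat_lit 0x47⟩ (.nil) (.nil)
def t14_7493 : Tr := .node ⟨nat_lit 7, nat_lit 0x40002000600070, nat_lit 0x1011112, nat_lit 1, nat_lit 4, nat_lit 0x47⟩ (.nil) (.nil)
def t14_837 : Tr := .node ⟨nat_lit 7, nat_lit 0x40001000600060, nat_lit 0x113110, nat_lit 0, nat_lit 3, nat_lit 0x46⟩ (.nil) (.nil)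
def t14_9029 : Tr := .node ⟨nat_lit 9, nat_lit 0x100010000800120014001400180, nat_lit 0x1100111, nat_lit 3, nat_lit 4, nat_lit 0x48⟩ (.nil) (.nil)
def t14_4933 : Tr := .node ⟨nat_lit 7, nat_lit 0x10001000600060, nat_lit 0x1001031, nat_lit 1, nat_lit 4, nat_lit 0x47⟩ (.nil) (.nil)
def t14_13125 : Tr := .node ⟨nat_lit 7, nat_lit 0x10004000200060, nat_lit 0x2000130, nat_lit 0, nat_lit 3, nat_lit 0x47⟩ (.nil) (.nil)
def t14_2885 : Tr := .node ⟨nat_lit 7, nat_lit 0x4000600060, nat_lit 0x121120, nat_lit 0, nat_lit 4, nat_lit 0x49⟩ (.nil) (.nil)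
def t14_11077 : Tr := .node ⟨nat_lit 7, nat_lit 0x1000600060, nat_lit 0x1011020, nat_lit 1, nat_lit 4, nat_lit 0x48⟩ (.nil) (.nil)
def t14_6981 : Tr := .node ⟨nat_lit 7, nat_lit 0x2000600050, nat_lit 0x1022011, nat_lit 0, nat_lit 4, nat_lit 0x49⟩ (.nil) (.nil)
def t14_15173 : Tr := .node ⟨nat_lit 8, nat_lit 0x80004000a000c0, nat_lit 0x110012, nat_lit 3, nat_lit 4, nat_lit 0x49⟩ (.nil) (.nil)
def t14_1861 : Tr := .node ⟨nat_lit 7, nat_lit 0x6000600050, nat_lit 0x21112, nat_lit 2, nat_lit 4, nat_lit 0x48⟩ (.nil) (.nil)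
def t14_10053 : Tr := .node ⟨nat_lit 7, nat_lit 0x400060007000700070, nat_lit 0x1002210, nat_lit 4, nat_lit 4, nat_lit 0x45⟩ (.nil) (.nil)
def t14_5957 : Tr := .node ⟨nat_lit 8, nat_lit 0x80001000a000c0, nat_lit 0x1112111, nat_lit 0, nat_lit 4, nat_lit 0x49⟩ (.nil) (.nil)
def t14_14149 : Tr := .node ⟨nat_lit 8, nat_lit 0x40004000800080, nat_lit 0x210021, nat_lit 0, nat_lit 4, nat_lit 0x4a⟩ (.nil) (.nil)
def t14_3909 : Tr := .node ⟨nat_lit 8, nat_lit 0x40004000a000c800d0, nat_lit 0x1011210, nat_lit 1, nat_lit 4, nat_lit 0x47⟩ (.nil) (.nil)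
def t14_12101 : Tr := .node ⟨nat_lit 8, nat_lit 0x4000c000c000a0, nat_lit 0x111210, nat_lit 1, nat_lit 4, nat_lit 0x48⟩ (.nil) (.nil)
def t14_8005 : Tr := .node ⟨nat_lit 3, nat_lit 0x40006, nat_lit 0x13, nat_lit 0xb, nat_lit 4, nat_lit 0x45⟩ (.nil) (.nil)
def t9_325 : Tr := .node ⟨nat_lit 5, nat_lit 0x100008, nat_lit 0x1311, nat_lit 1, nat_lit 4, nat_lit 0x47⟩ (.node ⟨nat_lit 6, nat_lit 0x2000080030, nat_lit 0x30132, nat_lit 0, nat_lit 4, nat_lit 0x48⟩ (.node ⟨nat_lit 3, nat_lit 4, nat_lit 0x223, nat_lit 9, nat_lit 4, nat_lit 0x48⟩ (.node ⟨nat_lit 6, nat_lit 0x1000200030, nat_lit 0x101220, nat_lit 0, nat_lit 3, nat_lit 0x46⟩ (.node ⟨nat_lit 6, nat_lit 0x2000100024, nat_lit 0x121212, nat_lit 1, nat_lit 4, nat_lit 0x49⟩ (t14_325) (t14_8517)) (.node ⟨nat_lit 5, nat_lit 0x18001c, nat_lit 0x21113, nat_lit 3, nat_lit 4, nat_lit 0x47⟩ (t14_4421) (t14_12613)))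 (.node ⟨nat_lit 6, nat_lit 0x800200030, nat_lit 1, nat_lit 0, nat_lit 3, nat_lit 0x44⟩ (.node ⟨nat_lit 6, nat_lit 0x1000200030, nat_lit 0x1200, nat_lit 0, nat_lit 4, nat_lit 0x46⟩ (t14_2373) (t14_10565)) (.node ⟨nat_lit 7, nat_lit 0x40002000480068, nat_lit 0x2011300, nat_lit 0, nat_lit 4, nat_lit 0x48⟩ (t14_6469) (t14_14661)))) (.node ⟨nat_lit 5, nat_lit 0x40018, nat_lit 0x10221, nat_lit 5, nat_lit 4, nat_lit 0x48⟩ (.node ⟨nat_lit 5, nat_lit 0x40018, nat_lit 0x21221, nat_lit 5, nat_lit 4, nat_lit 0x49⟩ (.node ⟨nat_lit 6, nat_lit 0x800080030, nat_lit 0x111003, nat_lit 0, nat_lit 3, nat_lit 0x46⟩ (t14_1349) (t14_9541)) (.node ⟨nat_lit 6, nat_lit 0x2000200020, nat_lit 0x21100, nat_lit 1, nat_lit 3, nat_lit 0x47⟩ (t14_5445) (t14_13637))) (.node ⟨nat_lit 6, nat_lit 0x200010, nat_lit 0x2101, nat_lit 2, nat_lit 4, nat_lit 0x48⟩ (.node ⟨nat_lit 6, nat_lit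 0x1000280034, nat_lit 0x102203, nat_lit 0, nat_lit 4, nat_lit 0x46⟩ (t14_3397) (t14_11589)) (.node ⟨nat_lit 5, nat_lit 0x100018, nat_lit 0x11212, nat_lit 6, nat_lit 3, nat_lit 0x47⟩ (t14_7493) (.nil))))) (.node ⟨nat_lit 4, nat_lit 0x80008, nat_lit 0x311, nat_lit 7, nat_lit 4, nat_lit 0x47⟩ (.node ⟨nat_lit 3, nat_lit 0, nat_lit 0x221, nat_lit 0xb, nat_lit 4, nat_lit 0x49⟩ (.node ⟨nat_lit 5, nat_lit 0x80010, nat_lit 0x11111, nat_lit 5, nat_lit 4, nat_lit 0x48⟩ (.node ⟨nat_lit 8, nat_lit 0x80008000200040, nat_lit 0x2111010, nat_lit 3, nat_lit 4, nat_lit 0x4b⟩ (t14_837) (t14_9029)) (.node ⟨nat_lit 6, nat_lit 0x300030, nat_lit 0x112220, nat_lit 1, nat_lit 4, nat_lit 0x49⟩ (t14_4933) (t14_13125))) (.node ⟨nat_lit 7, nat_lit 0x1800500060, nat_lit 0x1101021, nat_lit 0, nat_lit 4, nat_lit 0x47⟩ (.node ⟨nat_lit 7, nat_lit 0x40001000480068, nat_lit 0x1012111,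 nat_lit 1, nat_lit 4, nat_lit 0x48⟩ (t14_2885) (t14_11077)) (.node ⟨nat_lit 4, nat_lit 0x80008, nat_lit 0x1122, nat_lit 0xc, nat_lit 4, nat_lit 0x49⟩ (t14_6981) (t14_15173)))) (.node ⟨nat_lit 4, nat_lit 0xc, nat_lit 0x3120, nat_lit 4, nat_lit 4, nat_lit 0x48⟩ (.node ⟨nat_lit 7, nat_lit 0x20004000440060, nat_lit 0x2011111, nat_lit 3, nat_lit 4, nat_lit 0x49⟩ (.node ⟨nat_lit 6, nat_lit 0x200030, nat_lit 0x11104, nat_lit 0, nat_lit 4, nat_lit 0x48⟩ (t14_1861) (t14_10053)) (.node ⟨nat_lit 6, nat_lit 0x2000080030, nat_lit 0x22201, nat_lit 0, nat_lit 4, nat_lit 0x48⟩ (t14_5957) (t14_14149))) (.node ⟨nat_lit 7, nat_lit 0x20004000600068, nat_lit 0x1211, nat_lit 0, nat_lit 4, nat_lit 0x46⟩ (.node ⟨nat_lit 7, nat_lit 0x20002000500068, nat_lit 0x10040, nat_lit 0, nat_lit 4, nat_lit 0x46⟩ (t14_3909) (t14_12101)) (.node ⟨nat_lit 8, nat_lit 0x800040006000b000d0,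 nat_lit 0x20100211, nat_lit 0, nat_lit 4, nat_lit 0x47⟩ (t14_8005) (.nil)))))
def t14_197 : Tr := .node ⟨nat_lit 7, nat_lit 0x1000500060, nat_lit 0x1201211, nat_lit 2, nat_lit 4, nat_lit 0x49⟩ (.nil) (.nil)
def t14_8389 : Tr := .node ⟨nat_lit 5, nat_lit 0x1000100008, nat_lit 0x1103, nat_lit 6, nat_lit 3, nat_lit 0x46⟩ (.nil) (.nil)
def t14_4293 : Tr := .node ⟨nat_lit 8, nat_lit 0x4000400080002000c0, nat_lit 0x10111211, nat_lit 0, nat_lit 4, nat_lit 0x49⟩ (.nil) (.nil)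
def t14_12485 : Tr := .node ⟨nat_lit 3, nat_lit 4, nat_lit 0x14, nat_lit 6, nat_lit 3, nat_lit 0x45⟩ (.nil) (.nil)
def t14_2245 : Tr := .node ⟨nat_lit 7, nat_lit 0x400020002000200050, nat_lit 0x2022210, nat_lit 0, nat_lit 4, nat_lit 0x49⟩ (.nil) (.nil)
def t14_10437 : Tr := .node ⟨nat_lit 7, nat_lit 0x40002000480068, nat_lit 0x1010200, nat_lit 2, nat_lit 4, nat_lit 0x47⟩ (.nil) (.nil)
def t14_6341 : Tr := .node ⟨nat_lit 6, nat_lit 0x1000280030, nat_lit 0x100020, nat_lit 1, nat_lit 4, nat_lit 0x45⟩ (.nil) (.nil)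
def t14_14533 : Tr := .node ⟨nat_lit 8, nat_lit 0x80008800a000c8, nat_lit 0x12011, nat_lit 1, nat_lit 4, nat_lit 0x48⟩ (.nil) (.nil)
def t14_1221 : Tr := .node ⟨nat_lit 6, nat_lit 0x2000100024, nat_lit 0x11321, nat_lit 1, nat_lit 4, nat_lit 0x48⟩ (.nil) (.nil)
def t14_9413 : Tr := .node ⟨nat_lit 8, nat_lit 0x400020002000c000a0, nat_lit 0x10002102, nat_lit 0, nat_lit 4, nat_lit 0x48⟩ (.nil) (.nil)
def t14_5317 : Tr := .node ⟨nat_lit 7, nat_lit 0x500060, nat_lit 0x1111102, nat_lit 2, nat_lit 4, nat_lit 0x4a⟩ (.nil) (.nil)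
def t14_13509 : Tr := .node ⟨nat_lit 6, nat_lit 0x2000100010, nat_lit 0x1100, nat_lit 4, nat_lit 4, nat_lit 0x47⟩ (.nil) (.nil)
def t14_3269 : Tr := .node ⟨nat_lit 7, nat_lit 0x400020002000500060, nat_lit 0x1012101, nat_lit 0, nat_lit 4, nat_lit 0x47⟩ (.nil) (.nil)
def t14_11461 : Tr := .node ⟨nat_lit 7, nat_lit 0x10001000600060, nat_lit 0x1011120, nat_lit 2, nat_lit 4, nat_lit 0x48⟩ (.nil) (.nil)
def t14_7365 : Tr := .node ⟨nat_lit 7, nat_lit 0x1000100060, nat_lit 0x1102101, nat_lit 0, nat_lit 4, nat_lit 0x49⟩ (.nil) (.nil)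
def t14_15557 : Tr := .node ⟨nat_lit 8, nat_lit 0x8000400020, nat_lit 0x11000, nat_lit 0xc, nat_lit 4, nat_lit 0x4c⟩ (.nil) (.nil)
def t14_709 : Tr := .node ⟨nat_lit 6, nat_lit 0x200022, nat_lit 0x21030, nat_lit 0, nat_lit 4, nat_lit 0x49⟩ (.nil) (.nil)
def t14_8901 : Tr := .node ⟨nat_lit 7, nat_lit 0x4000440060, nat_lit 0x11220, nat_lit 4, nat_lit 4, nat_lit 0x49⟩ (.nil) (.nil)
def t14_4805 : Tr := .node ⟨nat_lit 8, nat_lit 0x200080008400c0, nat_lit 0x10020102, nat_lit 0, nat_lit 4, nat_lit 0x49⟩ (.nil) (.nil)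
def t14_12997 : Tr := .node ⟨nat_lit 6, nat_lit 0x20001000280034, nat_lit 0x13000, nat_lit 5, nat_lit 4, nat_lit 0x47⟩ (.nil) (.nil)
def t14_2757 : Tr := .node ⟨nat_lit 7, nat_lit 0x10001000400060, nat_lit 0x111021, nat_lit 1, nat_lit 4, nat_lit 0x48⟩ (.nil) (.nil)
def t14_10949 : Tr := .node ⟨nat_lit 7, nat_lit 0x40002000200020, nat_lit 0x1011330, nat_lit 0, nat_lit 3, nat_lit 0x48⟩ (.nil) (.nil)
def t14_6853 : Tr := .node ⟨nat_lit 7, nat_lit 0x4000440064, nat_lit 0x1111201, nat_lit 0, nat_lit 4, nat_lit 0x49⟩ (.nil) (.nil)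
def t14_15045 : Tr := .node ⟨nat_lit 6, nat_lit 0x10001000200030, nat_lit 0x102011, nat_lit 7, nat_lit 4, nat_lit 0x48⟩ (.nil) (.nil)
def t14_1733 : Tr := .node ⟨nat_lit 9, nat_lit 0x1000080008000400180, nat_lit 0x1102012, nat_lit 0, nat_lit 4, nat_lit 0x4a⟩ (.nil) (.nil)
def t14_9925 : Tr := .node ⟨nat_lit 6, nat_lit 0x80030, nat_lit 0x103, nat_lit 0, nat_lit 4, nat_lit 0x46⟩ (.nil) (.nil)
def t14_5829 : Tr := .node ⟨nat_lit 7, nat_lit 0x400060, nat_lit 0x11121, nat_lit 3, nat_lit 4, nat_lit 0x4a⟩ (.nil) (.nil)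
def t14_14021 : Tr := .node ⟨nat_lit 7, nat_lit 0x500060, nat_lit 0x11120, nat_lit 3, nat_lit 4, nat_lit 0x49⟩ (.nil) (.nil)
def t14_3781 : Tr := .node ⟨nat_lit 9, nat_lit 0x100010000800080008001400190, nat_lit 0x1121001, nat_lit 0, nat_lit 4, nat_lit 0x48⟩ (.nil) (.nil)
def t14_11973 : Tr := .node ⟨nat_lit 8, nat_lit 0x80002000a000c000d0, nat_lit 0x1020201, nat_lit 1, nat_lit 4, nat_lit 0x47⟩ (.nil) (.nil)
def t14_7877 : Tr := .node ⟨nat_lit 8, nat_lit 0x200040003000a000c0, nat_lit 0x10112, nat_lit 0, nat_lit 4, nat_lit 0x46⟩ (.nil) (.nil)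
def t9_197 : Tr := .node ⟨nat_lit 5, nat_lit 0x10, nat_lit 0x23111, nat_lit 2, nat_lit 4, nat_lit 0x4a⟩ (.node ⟨nat_lit 4, nat_lit 0xc, nat_lit 0x2131, nat_lit 3, nat_lit 3, nat_lit 0x47⟩ (.node ⟨nat_lit 7, nat_lit 0x40002000200020, nat_lit 0x30221, nat_lit 1, nat_lit 4, nat_lit 0x4a⟩ (.node ⟨nat_lit 5, nat_lit 0x1c, nat_lit 0x22113, nat_lit 0, nat_lit 4, nat_lit 0x48⟩ (.node ⟨nat_lit 7, nat_lit 0x20001000500068, nat_lit 0x1202021, nat_lit 1, nat_lit 4, nat_lit 0x48⟩ (t14_197) (t14_8389)) (.node ⟨nat_lit 7, nat_lit 0x10004000200060, nat_lit 0x100203, nat_lit 2, nat_lit 4, nat_lit 0x48⟩ (t14_4293) (t14_12485))) (.node ⟨nat_lit 5, nat_lit 0x100018, nat_lit 0x12223, nat_lit 3, nat_lit 4, nat_lit 0x49⟩ (.node ⟨nat_lit 6, nat_lit 0xc0030, nat_lit 0x110021, nat_lit 0, nat_lit 4, nat_lit 0x46⟩ (t14_2245) (t14_10437)) (.node ⟨nat_lit 6, nat_lit 0x200030,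 nat_lit 0x12112, nat_lit 4, nat_lit 4, nat_lit 0x49⟩ (t14_6341) (t14_14533)))) (.node ⟨nat_lit 5, nat_lit 0x10001a, nat_lit 0x11211, nat_lit 3, nat_lit 4, nat_lit 0x47⟩ (.node ⟨nat_lit 6, nat_lit 0x800080030, nat_lit 0x211211, nat_lit 3, nat_lit 4, nat_lit 0x49⟩ (.node ⟨nat_lit 2, nat_lit 2, nat_lit 0x14, nat_lit 0xe, nat_lit 4, nat_lit 0x47⟩ (t14_1221) (t14_9413)) (.node ⟨nat_lit 7, nat_lit 0x40003000580068, nat_lit 0x2110211, nat_lit 1, nat_lit 4, nat_lit 0x47⟩ (t14_5317) (t14_13509))) (.node ⟨nat_lit 6, nat_lit 0x2000080030, nat_lit 0x101330, nat_lit 0, nat_lit 4, nat_lit 0x48⟩ (.node ⟨nat_lit 6, nat_lit 0x200010, nat_lit 0x11010, nat_lit 0, nat_lit 4, nat_lit 0x47⟩ (t14_3269) (t14_11461)) (.node ⟨nat_lit 7, nat_lit 0x800100060, nat_lit 0x1111012, nat_lit 0, nat_lit 4, nat_lit 0x49⟩ (t14_7365) (t14_15557))))) (.node ⟨nat_lit 5, nat_lit 0x18,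 nat_lit 0x20311, nat_lit 3, nat_lit 4, nat_lit 0x49⟩ (.node ⟨nat_lit 3, nat_lit 4, nat_lit 0x121, nat_lit 5, nat_lit 4, nat_lit 0x45⟩ (.node ⟨nat_lit 6, nat_lit 0x2000080030, nat_lit 0x22210, nat_lit 0, nat_lit 4, nat_lit 0x48⟩ (.node ⟨nat_lit 7, nat_lit 0x40002000200010, nat_lit 0x120210, nat_lit 3, nat_lit 4, nat_lit 0x4a⟩ (t14_709) (t14_8901)) (.node ⟨nat_lit 8, nat_lit 0x8000800040004000c4, nat_lit 0x1121200, nat_lit 0, nat_lit 4, nat_lit 0x49⟩ (t14_4805) (t14_12997))) (.node ⟨nat_lit 6, nat_lit 0x200020, nat_lit 0x11000, nat_lit 0, nat_lit 4, nat_lit 0x47⟩ (.node ⟨nat_lit 7, nat_lit 0x20004000400044, nat_lit 0x1111301, nat_lit 1, nat_lit 4, nat_lit 0x4a⟩ (t14_2757) (t14_10949)) (.node ⟨nat_lit 7, nat_lit 0x40005000580068, nat_lit 0x1210221, nat_lit 1, nat_lit 4, nat_lit 0x47⟩ (t14_6853) (t14_15045)))) (.node ⟨nat_lit 4, nat_lit 0x80008, nat_lit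 0x1121, nat_lit 9, nat_lit 4, nat_lit 0x48⟩ (.node ⟨nat_lit 6, nat_lit 0x800200030, nat_lit 0x111201, nat_lit 0, nat_lit 4, nat_lit 0x47⟩ (.node ⟨nat_lit 6, nat_lit 0x2000080030, nat_lit 0x1011, nat_lit 2, nat_lit 4, nat_lit 0x46⟩ (t14_1733) (t14_9925)) (.node ⟨nat_lit 6, nat_lit 0x1000280034, nat_lit 0x122021, nat_lit 2, nat_lit 4, nat_lit 0x48⟩ (t14_5829) (t14_14021))) (.node ⟨nat_lit 6, nat_lit 0x2000100030, nat_lit 0x13120, nat_lit 1, nat_lit 4, nat_lit 0x48⟩ (.node ⟨nat_lit 7, nat_lit 0x40004800300060, nat_lit 0x1001003, nat_lit 2, nat_lit 4, nat_lit 0x47⟩ (t14_3781) (t14_11973)) (.node ⟨nat_lit 8, nat_lit 0x800080002000d000d0, nat_lit 0x11101121, nat_lit 0, nat_lit 4, nat_lit 0x48⟩ (t14_7877) (.nil)))))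
def t14_453 : Tr := .node ⟨nat_lit 7, nat_lit 0x40004000200068, nat_lit 0x1112110, nat_lit 1, nat_lit 4, nat_lit 0x49⟩ (.nil) (.nil)
def t14_8645 : Tr := .node ⟨nat_lit 8, nat_lit 0x2000800040008800c4, nat_lit 0x1010, nat_lit 1, nat_lit 4, nat_lit 0x46⟩ (.nil) (.nil)
def t14_4549 : Tr := .node ⟨nat_lit 6, nat_lit 0x2000300030, nat_lit 0x11321, nat_lit 3, nat_lit 4, nat_lit 0x48⟩ (.nil) (.nil)
def t14_12741 : Tr := .node ⟨nat_lit 7, nat_lit 0x40002000500068, nat_lit 0x22001, nat_lit 1, nat_lit 4, nat_lit 0x47⟩ (.nil) (.nil)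
def t14_2501 : Tr := .node ⟨nat_lit 7, nat_lit 0x20004000600064, nat_lit 0x20211, nat_lit 1, nat_lit 4, nat_lit 0x47⟩ (.nil) (.nil)
def t14_10693 : Tr := .node ⟨nat_lit 7, nat_lit 0x20006000500068, nat_lit 0x10102, nat_lit 1, nat_lit 4, nat_lit 0x45⟩ (.nil) (.nil)
def t14_6597 : Tr := .node ⟨nat_lit 7, nat_lit 0x10002000500060, nat_lit 0x12003, nat_lit 0, nat_lit 4, nat_lit 0x47⟩ (.nil) (.nil)
def t14_14789 : Tr := .node ⟨nat_lit 6, nat_lit 0x20002000100030, nat_lit 0x11132, nat_lit 4, nat_lit 4, nat_lit 0x48⟩ (.nil) (.nil)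
def t14_1477 : Tr := .node ⟨nat_lit 7, nat_lit 0x20002000400068, nat_lit 0x1012011, nat_lit 2, nat_lit 4, nat_lit 0x48⟩ (.nil) (.nil)
def t14_9669 : Tr := .node ⟨nat_lit 7, nat_lit 0x40002000600060, nat_lit 0x10022, nat_lit 2, nat_lit 4, nat_lit 0x47⟩ (.nil) (.nil)
def t14_5573 : Tr := .node ⟨nat_lit 8, nat_lit 0x40008000800084, nat_lit 0x110202, nat_lit 3, nat_lit 4, nat_lit 0x4a⟩ (.nil) (.nil)
def t14_13765 : Tr := .node ⟨nat_lit 6, nat_lit 0x2000080030, nat_lit 0x1003, nat_lit 2, nat_lit 4, nat_lit 0x46⟩ (.nil) (.nil)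
def t14_3525 : Tr := .node ⟨nat_lit 7, nat_lit 0x10006000600050, nat_lit 0x10201, nat_lit 1, nat_lit 4, nat_lit 0x46⟩ (.nil) (.nil)
def t14_11717 : Tr := .node ⟨nat_lit 8, nat_lit 0x3000a000a000c0, nat_lit 0x1012101, nat_lit 1, nat_lit 4, nat_lit 0x47⟩ (.nil) (.nil)
def t14_7621 : Tr := .node ⟨nat_lit 7, nat_lit 0x40001000600070, nat_lit 0x100213, nat_lit 0, nat_lit 4, nat_lit 0x46⟩ (.nil) (.nil)
def t14_965 : Tr := .node ⟨nat_lit 4, nat_lit 0x8000e, nat_lit 0x203, nat_lit 5, nat_lit 4, nat_lit 0x44⟩ (.nil) (.nil)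
def t14_9157 : Tr := .node ⟨nat_lit 6, nat_lit 0x20001000280030, nat_lit 0x2212, nat_lit 2, nat_lit 4, nat_lit 0x46⟩ (.nil) (.nil)
def t14_5061 : Tr := .node ⟨nat_lit 6, nat_lit 0x2000300030, nat_lit 0x11131, nat_lit 5, nat_lit 4, nat_lit 0x48⟩ (.nil) (.nil)
def t14_13253 : Tr := .node ⟨nat_lit 8, nat_lit 0x800020002000c000d0, nat_lit 0x30001, nat_lit 1, nat_lit 4, nat_lit 0x47⟩ (.nil) (.nil)
def t14_3013 : Tr := .node ⟨nat_lit 7, nat_lit 0x20001000500068, nat_lit 0x101031, nat_lit 0, nat_lit 4, nat_lit 0x46⟩ (.nil) (.nil)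
def t14_11205 : Tr := .node ⟨nat_lit 8, nat_lit 0x4000c000a000a0, nat_lit 0x110120, nat_lit 1, nat_lit 4, nat_lit 0x48⟩ (.nil) (.nil)
def t14_7109 : Tr := .node ⟨nat_lit 7, nat_lit 0x1000600060, nat_lit 0x1013111, nat_lit 0, nat_lit 4, nat_lit 0x49⟩ (.nil) (.nil)
def t14_15301 : Tr := .node ⟨nat_lit 6, nat_lit 0x20002000100030, nat_lit 0x11022, nat_lit 6, nat_lit 4, nat_lit 0x48⟩ (.nil) (.nil)
def t14_1989 : Tr := .node ⟨nat_lit 8, nat_lit 0x200080008000c0, nat_lit 0x2010102, nat_lit 1, nat_lit 4, nat_lit 0x4a⟩ (.nil) (.nil)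
def t14_10181 : Tr := .node ⟨nat_lit 6, nat_lit 0x800300028, nat_lit 0x100202, nat_lit 1, nat_lit 4, nat_lit 0x46⟩ (.nil) (.nil)
def t14_6085 : Tr := .node ⟨nat_lit 8, nat_lit 0x800040, nat_lit 0x1111100, nat_lit 6, nat_lit 4, nat_lit 0x4d⟩ (.nil) (.nil)
def t14_14277 : Tr := .node ⟨nat_lit 7, nat_lit 0x2000400040, nat_lit 0x10200, nat_lit 0, nat_lit 4, nat_lit 0x48⟩ (.nil) (.nil)
def t14_4037 : Tr := .node ⟨nat_lit 7, nat_lit 0x20003000500068, nat_lit 0x1000212, nat_lit 0, nat_lit 4, nat_lit 0x45⟩ (.nil) (.nil)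
def t14_12229 : Tr := .node ⟨nat_lit 8, nat_lit 0x400080008800c00060, nat_lit 0x10111120, nat_lit 0, nat_lit 4, nat_lit 0x48⟩ (.nil) (.nil)
def t14_8133 : Tr := .node ⟨nat_lit 7, nat_lit 0x4000600064, nat_lit 0x111203, nat_lit 0, nat_lit 4, nat_lit 0x48⟩ (.nil) (.nil)
def t9_453 : Tr := .node ⟨nat_lit 5, nat_lit 0x80010, nat_lit 0x3131, nat_lit 1, nat_lit 4, nat_lit 0x49⟩ (.node ⟨nat_lit 5, nat_lit 0x10001c001c, nat_lit 0x31022, nat_lit 4, nat_lit 4, nat_lit 0x46⟩ (.node ⟨nat_lit 6, nat_lit 0x80030, nat_lit 0x211202, nat_lit 0, nat_lit 4, nat_lit 0x49⟩ (.node ⟨nat_lit 6, nat_lit 0x800300038, nat_lit 0x100222, nat_lit 0, nat_lit 4, nat_lit 0x45⟩ (.node ⟨nat_lit 7, nat_lit 0x40001000500060, nat_lit 0x201201, nat_lit 0, nat_lit 4, nat_lit 0x47⟩ (t14_453) (t14_8645)) (.node ⟨nat_lit 6, nat_lit 0x800200032, nat_lit 0x120022, nat_lit 3, nat_lit 4, nat_lit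 0x48⟩ (t14_4549) (t14_12741))) (.node ⟨nat_lit 6, nat_lit 0x800200032, nat_lit 0x100022, nat_lit 4, nat_lit 4, nat_lit 0x47⟩ (.node ⟨nat_lit 6, nat_lit 0x200038, nat_lit 0x111123, nat_lit 0, nat_lit 4, nat_lit 0x48⟩ (t14_2501) (t14_10693)) (.node ⟨nat_lit 5, nat_lit 0x100010, nat_lit 0x2121, nat_lit 7, nat_lit 4, nat_lit 0x49⟩ (t14_6597) (t14_14789)))) (.node ⟨nat_lit 4, nat_lit 0xc, nat_lit 0x1020, nat_lit 3, nat_lit 4, nat_lit 0x45⟩ (.node ⟨nat_lit 7, nat_lit 0x200040003000480068, nat_lit 0x2122011, nat_lit 0, nat_lit 4, nat_lit 0x48⟩ (.node ⟨nat_lit 6, nat_lit 0x200030, nat_lit 0x1101, nat_lit 0, nat_lit 3, nat_lit 0x46⟩ (t14_1477) (t14_9669)) (.node ⟨nat_lit 8, nat_lit 0x80008000400088, nat_lit 0x11112101, nat_lit 0, nat_lit 4, nat_lit 0x4b⟩ (t14_5573) (t14_13765))) (.node ⟨nat_lit 6, nat_lit 0x2000200010, nat_lit 0x11312, nat_lit 0, nat_lit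 4, nat_lit 0x48⟩ (.node ⟨nat_lit 5, nat_lit 0x180018, nat_lit 0x100, nat_lit 3, nat_lit 4, nat_lit 0x44⟩ (t14_3525) (t14_11717)) (.node ⟨nat_lit 5, nat_lit 0x1000180018, nat_lit 0x10310, nat_lit 4, nat_lit 3, nat_lit 0x45⟩ (t14_7621) (.nil))))) (.node ⟨nat_lit 3, nat_lit 6, nat_lit 0x301, nat_lit 2, nat_lit 3, nat_lit 0x44⟩ (.node ⟨nat_lit 5, nat_lit 0x100018, nat_lit 0x11221, nat_lit 3, nat_lit 4, nat_lit 0x48⟩ (.node ⟨nat_lit 5, nat_lit 0x1000080008, nat_lit 0x21100, nat_lit 1, nat_lit 3, nat_lit 0x46⟩ (.node ⟨nat_lit 5, nat_lit 0x100012, nat_lit 0x22130, nat_lit 3, nat_lit 4, nat_lit 0x4a⟩ (t14_965) (t14_9157)) (.node ⟨nat_lit 7, nat_lit 0x4000600060, nat_lit 0x22210, nat_lit 3, nat_lit 4, nat_lit 0x49⟩ (t14_5061) (t14_13253))) (.node ⟨nat_lit 5, nat_lit 0x80010, nat_lit 0x11113, nat_lit 2, nat_lit 4, nat_lit 0x48⟩ (.node ⟨nat_lit 6, nat_lit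 0x1000200030, nat_lit 0x1112, nat_lit 1, nat_lit 4, nat_lit 0x46⟩ (t14_3013) (t14_11205)) (.node ⟨nat_lit 7, nat_lit 0x200040004000400060, nat_lit 0x121002, nat_lit 0, nat_lit 3, nat_lit 0x46⟩ (t14_7109) (t14_15301)))) (.node ⟨nat_lit 3, nat_lit 4, nat_lit 0x122, nat_lit 9, nat_lit 4, nat_lit 0x47⟩ (.node ⟨nat_lit 7, nat_lit 0x4000400064, nat_lit 0x1211111, nat_lit 1, nat_lit 4, nat_lit 0x4a⟩ (.node ⟨nat_lit 6, nat_lit 0x300038, nat_lit 0x102113, nat_lit 0, nat_lit 4, nat_lit 0x47⟩ (t14_1989) (t14_10181)) (.node ⟨nat_lit 7, nat_lit 0x4000500064, nat_lit 0x1100202, nat_lit 0, nat_lit 4, nat_lit 0x48⟩ (t14_6085) (t14_14277))) (.node ⟨nat_lit 5, nat_lit 0x10, nat_lit 0x31110, nat_lit 5, nat_lit 3, nat_lit 0x49⟩ (.node ⟨nat_lit 7, nat_lit 0x20005000500068, nat_lit 0x111003, nat_lit 0, nat_lit 4, nat_lit 0x46⟩ (t14_4037) (t14_12229)) (.node ⟨nat_lit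 7, nat_lit 0x40006000580068, nat_lit 0x1111211, nat_lit 1, nat_lit 4, nat_lit 0x47⟩ (t14_8133) (.nil)))))
def t14_37 : Tr := .node ⟨nat_lit 7, nat_lit 0x4000100060, nat_lit 0x1011101, nat_lit 3, nat_lit 4, nat_lit 0x49⟩ (.nil) (.nil)
def t14_8229 : Tr := .node ⟨nat_lit 7, nat_lit 0x40002000480068, nat_lit 0x111013, nat_lit 2, nat_lit 4, nat_lit 0x47⟩ (.nil) (.nil)
def t14_4133 : Tr := .node ⟨nat_lit 8, nat_lit 0x8000800040002000c0, nat_lit 0x1110102, nat_lit 1, nat_lit 4, nat_lit 0x49⟩ (.nil) (.nil)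
def t14_12325 : Tr := .node ⟨nat_lit 6, nat_lit 0x20001000300030, nat_lit 0x2130, nat_lit 6, nat_lit 4, nat_lit 0x47⟩ (.nil) (.nil)
def t14_2085 : Tr := .node ⟨nat_lit 7, nat_lit 0x400020002000500068, nat_lit 0x101302, nat_lit 1, nat_lit 4, nat_lit 0x47⟩ (.nil) (.nil)
def t14_10277 : Tr := .node ⟨nat_lit 7, nat_lit 0x20001000400060, nat_lit 0x100201, nat_lit 0, nat_lit 4, nat_lit 0x47⟩ (.nil) (.nil)
def t14_6181 : Tr := .node ⟨nat_lit 5, nat_lit 0x100008001a, nat_lit 0x1120, nat_lit 5, nat_lit 4, nat_lit 0x46⟩ (.nil) (.nil)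
def t14_14373 : Tr := .node ⟨nat_lit 7, nat_lit 0x4000500064, nat_lit 0x111, nat_lit 0, nat_lit 4, nat_lit 0x46⟩ (.nil) (.nil)
def t14_1061 : Tr := .node ⟨nat_lit 4, nat_lit 8, nat_lit 0x113, nat_lit 5, nat_lit 4, nat_lit 0x47⟩ (.nil) (.nil)
def t14_9253 : Tr := .node ⟨nat_lit 8, nat_lit 0x400080009000c000e000d0, nat_lit 0x210201, nat_lit 2, nat_lit 4, nat_lit 0x46⟩ (.nil) (.nil)
def t14_5157 : Tr := .node ⟨nat_lit 8, nat_lit 0x40004000800080008000c8, nat_lit 0x301101, nat_lit 2, nat_lit 4, nat_lit 0x48⟩ (.nil) (.nil)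
def t14_13349 : Tr := .node ⟨nat_lit 7, nat_lit 0x20001000600050, nat_lit 0x1002300, nat_lit 0, nat_lit 4, nat_lit 0x47⟩ (.nil) (.nil)
def t14_3109 : Tr := .node ⟨nat_lit 8, nat_lit 0x80002000c000b000d0, nat_lit 0x110210, nat_lit 0, nat_lit 4, nat_lit 0x46⟩ (.nil) (.nil)
def t14_11301 : Tr := .node ⟨nat_lit 6, nat_lit 0x1000280030, nat_lit 0x1120, nat_lit 3, nat_lit 4, nat_lit 0x46⟩ (.nil) (.nil)
def t14_7205 : Tr := .node ⟨nat_lit 7, nat_lit 0x200020004000440064, nat_lit 0x2021010, nat_lit 1, nat_lit 4, nat_lit 0x47⟩ (.nil) (.nil)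
def t14_15397 : Tr := .node ⟨nat_lit 8, nat_lit 0x80008000800088, nat_lit 0x2111101, nat_lit 3, nat_lit 4, nat_lit 0x4b⟩ (.nil) (.nil)
def t14_549 : Tr := .node ⟨nat_lit 7, nat_lit 0x40001000680070, nat_lit 0x2022, nat_lit 0, nat_lit 4, nat_lit 0x45⟩ (.nil) (.nil)
def t14_8741 : Tr := .node ⟨nat_lit 7, nat_lit 0x400020002800500060, nat_lit 0x11100, nat_lit 1, nat_lit 4, nat_lit 0x45⟩ (.nil) (.nil)
def t14_4645 : Tr := .node ⟨nat_lit 7, nat_lit 0x40001000480060, nat_lit 0x1012011, nat_lit 0, nat_lit 4, nat_lit 0x48⟩ (.nil) (.nil)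
def t14_12837 : Tr := .node ⟨nat_lit 6, nat_lit 0x2800280030, nat_lit 0x202, nat_lit 3, nat_lit 4, nat_lit 0x45⟩ (.nil) (.nil)
def t14_2597 : Tr := .node ⟨nat_lit 8, nat_lit 0x400040008000800084, nat_lit 0x10121100, nat_lit 0, nat_lit 4, nat_lit 0x49⟩ (.nil) (.nil)
def t14_10789 : Tr := .node ⟨nat_lit 0xa, nat_lit 0x2000100008000200040, nat_lit 0x1200011, nat_lit 0, nat_lit 3, nat_lit 0x4a⟩ (.nil) (.nil)
def t14_6693 : Tr := .node ⟨nat_lit 8, nat_lit 0x80008000800040004000a0, nat_lit 0x110101, nat_lit 3, nat_lit 4, nat_lit 0x48⟩ (.nil) (.nil)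
def t14_14885 : Tr := .node ⟨nat_lit 7, nat_lit 0x200040004000400048, nat_lit 0x1101, nat_lit 0xb, nat_lit 4, nat_lit 0x49⟩ (.nil) (.nil)
def t14_1573 : Tr := .node ⟨nat_lit 7, nat_lit 0x40002000500060, nat_lit 0x12102, nat_lit 2, nat_lit 4, nat_lit 0x47⟩ (.nil) (.nil)
def t14_9765 : Tr := .node ⟨nat_lit 8, nat_lit 0x800030003000c0, nat_lit 0x1001200, nat_lit 0, nat_lit 4, nat_lit 0x47⟩ (.nil) (.nil)
def t14_5669 : Tr := .node ⟨nat_lit 7, nat_lit 0x4000500060, nat_lit 0x101020, nat_lit 1, nat_lit 4, nat_lit 0x47⟩ (.nil) (.nil)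
def t14_13861 : Tr := .node ⟨nat_lit 8, nat_lit 0x800020004000a000d0, nat_lit 0x30002, nat_lit 1, nat_lit 4, nat_lit 0x47⟩ (.nil) (.nil)
def t14_3621 : Tr := .node ⟨nat_lit 7, nat_lit 0x1800500060, nat_lit 0x210210, nat_lit 3, nat_lit 4, nat_lit 0x48⟩ (.nil) (.nil)
def t14_11813 : Tr := .node ⟨nat_lit 6, nat_lit 0x200030, nat_lit 0x1103, nat_lit 4, nat_lit 4, nat_lit 0x48⟩ (.nil) (.nil)
def t14_7717 : Tr := .node ⟨nat_lit 5, nat_lit 0x80010001c, nat_lit 0x1002, nat_lit 6, nat_lit 4, nat_lit 0x45⟩ (.nil) (.nil)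
def t9_37 : Tr := .node ⟨nat_lit 4, nat_lit 0, nat_lit 0x3321, nat_lit 0, nat_lit 4, nat_lit 0x4a⟩ (.node ⟨nat_lit 5, nat_lit 0x100018, nat_lit 0x21312, nat_lit 3, nat_lit 4, nat_lit 0x49⟩ (.node ⟨nat_lit 5, nat_lit 0x180018, nat_lit 0x420, nat_lit 1, nat_lit 4, nat_lit 0x46⟩ (.node ⟨nat_lit 4, nat_lit 0x40008, nat_lit 0x1201, nat_lit 4, nat_lit 4, nat_lit 0x46⟩ (.node ⟨nat_lit 6, nat_lit 0x2000080030, nat_lit 0x22003, nat_lit 1, nat_lit 4, nat_lit 0x48⟩ (t14_37) (t14_8229)) (.node ⟨nat_lit 4, nat_lit 0x8000c, nat_lit 0x120, nat_lit 5, nat_lit 4, nat_lit 0x45⟩ (t14_4133) (t14_12325))) (.node ⟨nat_lit 4, nat_lit 0xc, nat_lit 0x2212, nat_lit 8, nat_lit 4, nat_lit 0x49⟩ (.node ⟨nat_lit 6, nat_lit 0x800200030, nat_lit 0x20024, nat_lit 1, nat_lit 4, nat_lit 0x48⟩ (t14_2085) (t14_10277)) (.node ⟨nat_lit 8, nat_lit 0x80004000a000a000d0, nat_lit 0x1020102,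 nat_lit 0, nat_lit 4, nat_lit 0x47⟩ (t14_6181) (t14_14373)))) (.node ⟨nat_lit 6, nat_lit 0x10002000240018, nat_lit 0x22300, nat_lit 0, nat_lit 4, nat_lit 0x47⟩ (.node ⟨nat_lit 6, nat_lit 0x300030, nat_lit 0x212111, nat_lit 1, nat_lit 4, nat_lit 0x49⟩ (.node ⟨nat_lit 6, nat_lit 0x80030, nat_lit 0x111101, nat_lit 1, nat_lit 4, nat_lit 0x48⟩ (t14_1061) (t14_9253)) (.node ⟨nat_lit 7, nat_lit 0x4000100020, nat_lit 0x211020, nat_lit 1, nat_lit 4, nat_lit 0x4a⟩ (t14_5157) (t14_13349))) (.node ⟨nat_lit 4, nat_lit 8, nat_lit 0x2310, nat_lit 6, nat_lit 4, nat_lit 0x49⟩ (.node ⟨nat_lit 7, nat_lit 0x10002000400070, nat_lit 0x1110013, nat_lit 2, nat_lit 4, nat_lit 0x48⟩ (t14_3109) (t14_11301)) (.node ⟨nat_lit 8, nat_lit 0x80002000a000c000d0, nat_lit 0x1020022, nat_lit 0, nat_lit 4, nat_lit 0x47⟩ (t14_7205) (t14_15397))))) (.node ⟨nat_lit 7, nat_lit 0x40, nat_lit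 0x1311110, nat_lit 2, nat_lit 4, nat_lit 0x4d⟩ (.node ⟨nat_lit 6, nat_lit 0x800100020, nat_lit 0x221111, nat_lit 1, nat_lit 4, nat_lit 0x49⟩ (.node ⟨nat_lit 6, nat_lit 0x1000280034, nat_lit 0x20001, nat_lit 1, nat_lit 4, nat_lit 0x45⟩ (.node ⟨nat_lit 7, nat_lit 0x20002000500060, nat_lit 0x22012, nat_lit 0, nat_lit 3, nat_lit 0x46⟩ (t14_549) (t14_8741)) (.node ⟨nat_lit 7, nat_lit 0x10004000600064, nat_lit 0x1200122, nat_lit 1, nat_lit 4, nat_lit 0x48⟩ (t14_4645) (t14_12837))) (.node ⟨nat_lit 6, nat_lit 0x800300028, nat_lit 0x110112, nat_lit 0, nat_lit 4, nat_lit 0x46⟩ (.node ⟨nat_lit 5, nat_lit 0x180018, nat_lit 0x11240, nat_lit 3, nat_lit 4, nat_lit 0x48⟩ (t14_2597) (t14_10789)) (.node ⟨nat_lit 8, nat_lit 0x8000a000c0, nat_lit 0x1021102, nat_lit 1, nat_lit 4, nat_lit 0x4a⟩ (t14_6693) (t14_14885)))) (.node ⟨nat_lit 6, nat_lit 0x100020, nat_lit 0x211121,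 nat_lit 2, nat_lit 4, nat_lit 0x4a⟩ (.node ⟨nat_lit 6, nat_lit 0x2000100030, nat_lit 0x22010, nat_lit 1, nat_lit 3, nat_lit 0x47⟩ (.node ⟨nat_lit 5, nat_lit 0x140018, nat_lit 0x1132, nat_lit 3, nat_lit 4, nat_lit 0x46⟩ (t14_1573) (t14_9765)) (.node ⟨nat_lit 7, nat_lit 0x40004000100068, nat_lit 0x1110101, nat_lit 1, nat_lit 4, nat_lit 0x48⟩ (t14_5669) (t14_13861))) (.node ⟨nat_lit 5, nat_lit 0x18, nat_lit 0x20002, nat_lit 0, nat_lit 4, nat_lit 0x46⟩ (.node ⟨nat_lit 5, nat_lit 0x40018, nat_lit 0x10200, nat_lit 2, nat_lit 3, nat_lit 0x46⟩ (t14_3621) (t14_11813)) (.node ⟨nat_lit 7, nat_lit 0x200020004000300044, nat_lit 0x1110200, nat_lit 3, nat_lit 4, nat_lit 0x48⟩ (t14_7717) (.nil)))))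
def t14_293 : Tr := .node ⟨nat_lit 7, nat_lit 0x5000300060, nat_lit 0x102211, nat_lit 0, nat_lit 4, nat_lit 0x47⟩ (.nil) (.nil)
def t14_8485 : Tr := .node ⟨nat_lit 7, nat_lit 0x400020002000500060, nat_lit 0x21031, nat_lit 2, nat_lit 4, nat_lit 0x47⟩ (.nil) (.nil)
def t14_4389 : Tr := .node ⟨nat_lit 8, nat_lit 0x8000200040009000c0, nat_lit 0x11000002, nat_lit 1, nat_lit 4, nat_lit 0x48⟩ (.nil) (.nil)
def t14_12581 : Tr := .node ⟨nat_lit 8, nat_lit 0x80004000a000d000e0, nat_lit 0x10001003, nat_lit 1, nat_lit 4, nat_lit 0x46⟩ (.nil) (.nil)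
def t14_2341 : Tr := .node ⟨nat_lit 7, nat_lit 0x400020005000700070, nat_lit 0x2002010, nat_lit 5, nat_lit 4, nat_lit 0x47⟩ (.nil) (.nil)
def t14_10533 : Tr := .node ⟨nat_lit 7, nat_lit 0x10006000600050, nat_lit 0x2002, nat_lit 0, nat_lit 4, nat_lit 0x45⟩ (.nil) (.nil)
def t14_6437 : Tr := .node ⟨nat_lit 7, nat_lit 0x4000200010, nat_lit 0x1111011, nat_lit 2, nat_lit 4, nat_lit 0x4a⟩ (.nil) (.nil)
def t14_14629 : Tr := .node ⟨nat_lit 9, nat_lit 0x8001000100010001100110, nat_lit 0x1011111, nat_lit 2, nat_lit 4, nat_lit 0x4a⟩ (.nil) (.nil)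
def t14_1317 : Tr := .node ⟨nat_lit 7, nat_lit 0x4000100060, nat_lit 0x111112, nat_lit 2, nat_lit 4, nat_lit 0x49⟩ (.nil) (.nil)
def t14_9509 : Tr := .node ⟨nat_lit 4, nat_lit 0x40008, nat_lit 0x2210, nat_lit 7, nat_lit 3, nat_lit 0x47⟩ (.nil) (.nil)
def t14_5413 : Tr := .node ⟨nat_lit 6, nat_lit 0x280030, nat_lit 0x11122, nat_lit 5, nat_lit 4, nat_lit 0x48⟩ (.nil) (.nil)
def t14_13605 : Tr := .node ⟨nat_lit 7, nat_lit 0x200040004800300060, nat_lit 2, nat_lit 3, nat_lit 4, nat_lit 0x45⟩ (.nil) (.nil)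
def t14_3365 : Tr := .node ⟨nat_lit 7, nat_lit 0x40006000600050, nat_lit 0x12211, nat_lit 2, nat_lit 4, nat_lit 0x47⟩ (.nil) (.nil)
def t14_11557 : Tr := .node ⟨nat_lit 7, nat_lit 0x5000600060, nat_lit 0x111210, nat_lit 2, nat_lit 4, nat_lit 0x48⟩ (.nil) (.nil)
def t14_7461 : Tr := .node ⟨nat_lit 6, nat_lit 0x200020, nat_lit 0x11100, nat_lit 5, nat_lit 4, nat_lit 0x49⟩ (.nil) (.nil)
def t14_805 : Tr := .node ⟨nat_lit 6, nat_lit 0x10002000200038, nat_lit 0x12301, nat_lit 3, nat_lit 4, nat_lit 0x47⟩ (.nil) (.nil)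
def t14_8997 : Tr := .node ⟨nat_lit 8, nat_lit 0x800080004000a0009000c0, nat_lit 0x110002, nat_lit 1, nat_lit 4, nat_lit 0x47⟩ (.nil) (.nil)
def t14_4901 : Tr := .node ⟨nat_lit 7, nat_lit 0x60, nat_lit 0x1111111, nat_lit 0, nat_lit 4, nat_lit 0x4b⟩ (.nil) (.nil)
def t14_13093 : Tr := .node ⟨nat_lit 5, nat_lit 0x1000080018, nat_lit 0x30102, nat_lit 1, nat_lit 3, nat_lit 0x46⟩ (.nil) (.nil)
def t14_2853 : Tr := .node ⟨nat_lit 7, nat_lit 0x800500060, nat_lit 0x111020, nat_lit 2, nat_lit 4, nat_lit 0x48⟩ (.nil) (.nil)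
def t14_11045 : Tr := .node ⟨nat_lit 7, nat_lit 0x1000600060, nat_lit 0x1101020, nat_lit 3, nat_lit 4, nat_lit 0x49⟩ (.nil) (.nil)
def t14_6949 : Tr := .node ⟨nat_lit 6, nat_lit 0x2000080030, nat_lit 0x121201, nat_lit 3, nat_lit 4, nat_lit 0x49⟩ (.nil) (.nil)
def t14_15141 : Tr := .node ⟨nat_lit 8, nat_lit 0x8000400040004000a000d0, nat_lit 0x10111111, nat_lit 2, nat_lit 4, nat_lit 0x48⟩ (.nil) (.nil)
def t14_1829 : Tr := .node ⟨nat_lit 7, nat_lit 0x600050, nat_lit 0x1021102, nat_lit 1, nat_lit 4, nat_lit 0x4a⟩ (.nil) (.nil)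
def t14_10021 : Tr := .node ⟨nat_lit 5, nat_lit 0x100018001c, nat_lit 0x1202, nat_lit 8, nat_lit 4, nat_lit 0x46⟩ (.nil) (.nil)
def t14_5925 : Tr := .node ⟨nat_lit 7, nat_lit 0x20004000640064, nat_lit 0x1011030, nat_lit 1, nat_lit 4, nat_lit 0x46⟩ (.nil) (.nil)
def t14_14117 : Tr := .node ⟨nat_lit 7, nat_lit 0x1800500060, nat_lit 0x101, nat_lit 1, nat_lit 4, nat_lit 0x45⟩ (.nil) (.nil)
def t14_3877 : Tr := .node ⟨nat_lit 7, nat_lit 0x200020004000400064, nat_lit 0x1020101, nat_lit 5, nat_lit 4, nat_lit 0x48⟩ (.nil) (.nil)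
def t14_12069 : Tr := .node ⟨nat_lit 9, nat_lit 0x4001000100018801880190, nat_lit 0x100010210, nat_lit 1, nat_lit 4, nat_lit 0x47⟩ (.nil) (.nil)
def t14_7973 : Tr := .node ⟨nat_lit 7, nat_lit 0x400040002000500050, nat_lit 0x112121, nat_lit 3, nat_lit 4, nat_lit 0x48⟩ (.nil) (.nil)
def t9_293 : Tr := .node ⟨nat_lit 2, nat_lit 0, nat_lit 0x32, nat_lit 5, nat_lit 4, nat_lit 0x45⟩ (.node ⟨nat_lit 6, nat_lit 0x2000100032, nat_lit 0x32120, nat_lit 1, nat_lit 4, nat_lit 0x49⟩ (.node ⟨nat_lit 7, nat_lit 0x400042, nat_lit 0x3111111, nat_lit 0, nat_lit 4, nat_lit 0x4c⟩ (.node ⟨nat_lit 6, nat_lit 0x20001000100028, nat_lit 0x101103, nat_lit 0, nat_lit 4, nat_lit 0x46⟩ (.node ⟨nat_lit 7, nat_lit 0x200040004000300048, nat_lit 0x2102101, nat_lit 1, nat_lit 4, nat_lit 0x49⟩ (t14_293) (t14_8485)) (.node ⟨nat_lit 6, nat_lit 0x200030, nat_lit 0x211103, nat_lit 1,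 nat_lit 3, nat_lit 0x48⟩ (t14_4389) (t14_12581))) (.node ⟨nat_lit 7, nat_lit 0x40001000480060, nat_lit 0x2012022, nat_lit 0, nat_lit 4, nat_lit 0x49⟩ (.node ⟨nat_lit 6, nat_lit 0x20001000100030, nat_lit 0x200322, nat_lit 0, nat_lit 3, nat_lit 0x46⟩ (t14_2341) (t14_10533)) (.node ⟨nat_lit 7, nat_lit 0x10005000600060, nat_lit 0x112210, nat_lit 1, nat_lit 4, nat_lit 0x47⟩ (t14_6437) (t14_14629)))) (.node ⟨nat_lit 6, nat_lit 0x2000080030, nat_lit 0x111101, nat_lit 0, nat_lit 3, nat_lit 0x46⟩ (.node ⟨nat_lit 7, nat_lit 0x40004800480030, nat_lit 0x2211102, nat_lit 0, nat_lit 4, nat_lit 0x49⟩ (.node ⟨nat_lit 6, nat_lit 0x20002000100010, nat_lit 0x1000, nat_lit 3, nat_lit 3, nat_lit 0x45⟩ (t14_1317) (t14_9509)) (.node ⟨nat_lit 7, nat_lit 0x1000500060, nat_lit 0x1102022, nat_lit 2, nat_lit 4, nat_lit 0x49⟩ (t14_5413) (t14_13605))) (.node ⟨nat_lit 8, nat_lit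 0x80004000400020, nat_lit 0x120200, nat_lit 1, nat_lit 4, nat_lit 0x4a⟩ (.node ⟨nat_lit 7, nat_lit 0x40001000200020, nat_lit 0x120130, nat_lit 1, nat_lit 4, nat_lit 0x4a⟩ (t14_3365) (t14_11557)) (.node ⟨nat_lit 6, nat_lit 0x2000080030, nat_lit 0x112102, nat_lit 5, nat_lit 4, nat_lit 0x49⟩ (t14_7461) (.nil))))) (.node ⟨nat_lit 7, nat_lit 0x400020, nat_lit 0x131101, nat_lit 0, nat_lit 4, nat_lit 0x4b⟩ (.node ⟨nat_lit 6, nat_lit 0x2000240018, nat_lit 0x211202, nat_lit 0, nat_lit 4, nat_lit 0x48⟩ (.node ⟨nat_lit 5, nat_lit 0x18, nat_lit 0x110, nat_lit 1, nat_lit 4, nat_lit 0x45⟩ (.node ⟨nat_lit 6, nat_lit 0x2000080030, nat_lit 0x122103, nat_lit 0, nat_lit 4, nat_lit 0x49⟩ (t14_805) (t14_8997)) (.node ⟨nat_lit 6, nat_lit 0x200030, nat_lit 0x112202, nat_lit 3, nat_lit 4, nat_lit 0x4a⟩ (t14_4901) (t14_13093))) (.node ⟨nat_lit 7, nat_lit 0x40001000100060,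 nat_lit 0x1101002, nat_lit 2, nat_lit 4, nat_lit 0x48⟩ (.node ⟨nat_lit 7, nat_lit 0x4000400070, nat_lit 0x211113, nat_lit 0, nat_lit 4, nat_lit 0x49⟩ (t14_2853) (t14_11045)) (.node ⟨nat_lit 8, nat_lit 0x800040009000c800e0, nat_lit 0x1112102, nat_lit 0, nat_lit 4, nat_lit 0x47⟩ (t14_6949) (t14_15141)))) (.node ⟨nat_lit 5, nat_lit 0x800080010, nat_lit 0x11211, nat_lit 6, nat_lit 4, nat_lit 0x48⟩ (.node ⟨nat_lit 6, nat_lit 0x200020, nat_lit 0x211121, nat_lit 0, nat_lit 3, nat_lit 0x49⟩ (.node ⟨nat_lit 6, nat_lit 0x1000200020, nat_lit 0x11310, nat_lit 2, nat_lit 3, nat_lit 0x47⟩ (t14_1829) (t14_10021)) (.node ⟨nat_lit 7, nat_lit 0x40004000100060, nat_lit 0x212002, nat_lit 1, nat_lit 4, nat_lit 0x49⟩ (t14_5925) (t14_14117))) (.node ⟨nat_lit 6, nat_lit 0x10001000200020, nat_lit 0x13130, nat_lit 0, nat_lit 4, nat_lit 0x48⟩ (.node ⟨nat_lit 6, nat_lit 0x2800300038,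 nat_lit 0x110023, nat_lit 2, nat_lit 4, nat_lit 0x46⟩ (t14_3877) (t14_12069)) (.node ⟨nat_lit 7, nat_lit 0x3000500060, nat_lit 0x111021, nat_lit 0, nat_lit 4, nat_lit 0x47⟩ (t14_7973) (.nil)))))
def t14_165 : Tr := .node ⟨nat_lit 7, nat_lit 0x20004000440060, nat_lit 0x112201, nat_lit 0, nat_lit 4, nat_lit 0x48⟩ (.nil) (.nil)
def t14_8357 : Tr := .node ⟨nat_lit 6, nat_lit 0x2000240030, nat_lit 0x2230, nat_lit 5, nat_lit 4, nat_lit 0x48⟩ (.nil) (.nil)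
def t14_4261 : Tr := .node ⟨nat_lit 8, nat_lit 0x800040009000d000d0, nat_lit 0x20202010, nat_lit 0, nat_lit 4, nat_lit 0x48⟩ (.nil) (.nil)
def t14_12453 : Tr := .node ⟨nat_lit 7, nat_lit 0x20002000400060, nat_lit 0x10024, nat_lit 0, nat_lit 4, nat_lit 0x48⟩ (.nil) (.nil)
def t14_2213 : Tr := .node ⟨nat_lit 7, nat_lit 0x20002000100040, nat_lit 0x1012200, nat_lit 2, nat_lit 4, nat_lit 0x49⟩ (.nil) (.nil)
def t14_10405 : Tr := .node ⟨nat_lit 7, nat_lit 0x20006000500068, nat_lit 0x101202, nat_lit 4, nat_lit 4, nat_lit 0x47⟩ (.nil) (.nil)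
def t14_6309 : Tr := .node ⟨nat_lit 3, nat_lit 0x40004, nat_lit 0x32, nat_lit 8, nat_lit 4, nat_lit 0x46⟩ (.nil) (.nil)
def t14_14501 : Tr := .node ⟨nat_lit 7, nat_lit 0x4000500060, nat_lit 0x101201, nat_lit 5, nat_lit 4, nat_lit 0x49⟩ (.nil) (.nil)
def t14_1189 : Tr := .node ⟨nat_lit 6, nat_lit 0x80030, nat_lit 0x110001, nat_lit 1, nat_lit 4, nat_lit 0x47⟩ (.nil) (.nil)
def t14_9381 : Tr := .node ⟨nat_lit 0xa, nat_lit 0x100020002000200008002100220, nat_lit 0x10111101, nat_lit 1, nat_lit 4, nat_lit 0x4a⟩ (.nil) (.nil)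
def t14_5285 : Tr := .node ⟨nat_lit 6, nat_lit 0x280030, nat_lit 0x221120, nat_lit 1, nat_lit 4, nat_lit 0x49⟩ (.nil) (.nil)
def t14_13477 : Tr := .node ⟨nat_lit 4, nat_lit 0x8000c, nat_lit 0x30, nat_lit 0xc, nat_lit 4, nat_lit 0x47⟩ (.nil) (.nil)
def t14_3237 : Tr := .node ⟨nat_lit 8, nat_lit 0x80006000a000c0, nat_lit 0x1021021, nat_lit 0, nat_lit 4, nat_lit 0x48⟩ (.nil) (.nil)
def t14_11429 : Tr := .node ⟨nat_lit 7, nat_lit 0x20004000100060, nat_lit 0x100110, nat_lit 1, nat_lit 4, nat_lit 0x47⟩ (.nil) (.nil)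
def t14_7333 : Tr := .node ⟨nat_lit 7, nat_lit 0x40002000100060, nat_lit 0x1110012, nat_lit 0, nat_lit 3, nat_lit 0x47⟩ (.nil) (.nil)
def t14_15525 : Tr := .node ⟨nat_lit 9, nat_lit 0x40002001400180, nat_lit 0x110010012, nat_lit 0, nat_lit 4, nat_lit 0x4a⟩ (.nil) (.nil)
def t14_677 : Tr := .node ⟨nat_lit 5, nat_lit 0x1000080014, nat_lit 0x1311, nat_lit 5, nat_lit 4, nat_lit 0x47⟩ (.nil) (.nil)
def t14_8869 : Tr := .node ⟨nat_lit 6, nat_lit 0x10002000200024, nat_lit 0x11102, nat_lit 5, nat_lit 4, nat_lit 0x47⟩ (.nil) (.nil)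
def t14_4773 : Tr := .node ⟨nat_lit 7, nat_lit 0x3000600050, nat_lit 0x1001212, nat_lit 0, nat_lit 4, nat_lit 0x47⟩ (.nil) (.nil)
def t14_12965 : Tr := .node ⟨nat_lit 2, nat_lit 2, nat_lit 0x30, nat_lit 9, nat_lit 3, nat_lit 0x45⟩ (.nil) (.nil)
def t14_2725 : Tr := .node ⟨nat_lit 7, nat_lit 0x50005000300060, nat_lit 0x102012, nat_lit 3, nat_lit 4, nat_lit 0x46⟩ (.nil) (.nil)
def t14_10917 : Tr := .node ⟨nat_lit 7, nat_lit 0x60006000500030, nat_lit 0x13002, nat_lit 0, nat_lit 4, nat_lit 0x46⟩ (.nil) (.nil)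
def t14_6821 : Tr := .node ⟨nat_lit 7, nat_lit 0x400060, nat_lit 0x11120, nat_lit 0, nat_lit 4, nat_lit 0x49⟩ (.nil) (.nil)
def t14_15013 : Tr := .node ⟨nat_lit 9, nat_lit 0x10001000040012001200180, nat_lit 0x11101111, nat_lit 0, nat_lit 4, nat_lit 0x49⟩ (.nil) (.nil)
def t14_1701 : Tr := .node ⟨nat_lit 6, nat_lit 0x300038, nat_lit 0x111022, nat_lit 0, nat_lit 4, nat_lit 0x47⟩ (.nil) (.nil)
def t14_9893 : Tr := .node ⟨nat_lit 6, nat_lit 0x3000300030, nat_lit 0x1220, nat_lit 8, nat_lit 4, nat_lit 0x47⟩ (.nil) (.nil)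
def t14_5797 : Tr := .node ⟨nat_lit 6, nat_lit 0x200030, nat_lit 0x11121, nat_lit 5, nat_lit 4, nat_lit 0x49⟩ (.nil) (.nil)
def t14_13989 : Tr := .node ⟨nat_lit 7, nat_lit 0x1000400060, nat_lit 0x1201, nat_lit 3, nat_lit 4, nat_lit 0x48⟩ (.nil) (.nil)
def t14_3749 : Tr := .node ⟨nat_lit 8, nat_lit 0x800040004000a000e000d0, nat_lit 0x121000, nat_lit 1, nat_lit 4, nat_lit 0x46⟩ (.nil) (.nil)
def t14_11941 : Tr := .node ⟨nat_lit 4, nat_lit 0x40008, nat_lit 0x123, nat_lit 4, nat_lit 3, nat_lit 0x45⟩ (.nil) (.nil)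
def t14_7845 : Tr := .node ⟨nat_lit 7, nat_lit 0x40001000480068, nat_lit 0x101012, nat_lit 1, nat_lit 4, nat_lit 0x46⟩ (.nil) (.nil)
def t9_165 : Tr := .node ⟨nat_lit 4, nat_lit 8, nat_lit 0x2312, nat_lit 5, nat_lit 4, nat_lit 0x49⟩ (.node ⟨nat_lit 5, nat_lit 0x100018, nat_lit 0x11412, nat_lit 3, nat_lit 4, nat_lit 0x49⟩ (.node ⟨nat_lit 7, nat_lit 0x400060, nat_lit 0x30002, nat_lit 0, nat_lit 4, nat_lit 0x49⟩ (.node ⟨nat_lit 4, nat_lit 8, nat_lit 0x210, nat_lit 4, nat_lit 4, nat_lit 0x46⟩ (.node ⟨nat_lit 7, nat_lit 0x40004000100060, nat_lit 0x22131, nat_lit 0, nat_lit 4, nat_lit 0x49⟩ (t14_165) (t14_8357)) (.node ⟨nat_lit 5, nat_lit 0x180014, nat_lit 0x10002, nat_lit 4, nat_lit 4, nat_lit 0x45⟩ (t14_4261) (t14_12453))) (.node ⟨nat_lit 3, nat_lit 4, nat_lit 0x321, nat_lit 8, nat_lit 3, nat_lit 0x47⟩ (.node ⟨nat_lit 6, nat_lit 0x2000300028, nat_lit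 0x1203, nat_lit 3, nat_lit 4, nat_lit 0x47⟩ (t14_2213) (t14_10405)) (.node ⟨nat_lit 7, nat_lit 0x1000400060, nat_lit 0x103012, nat_lit 1, nat_lit 4, nat_lit 0x49⟩ (t14_6309) (t14_14501)))) (.node ⟨nat_lit 4, nat_lit 0x40008, nat_lit 0x1211, nat_lit 3, nat_lit 4, nat_lit 0x46⟩ (.node ⟨nat_lit 6, nat_lit 0x1000280034, nat_lit 0x211121, nat_lit 1, nat_lit 4, nat_lit 0x47⟩ (.node ⟨nat_lit 5, nat_lit 0x100008, nat_lit 0x11104, nat_lit 1, nat_lit 3, nat_lit 0x47⟩ (t14_1189) (t14_9381)) (.node ⟨nat_lit 6, nat_lit 0x280030, nat_lit 0x110212, nat_lit 5, nat_lit 4, nat_lit 0x49⟩ (t14_5285) (t14_13477))) (.node ⟨nat_lit 6, nat_lit 0x800280030, nat_lit 0x121120, nat_lit 0, nat_lit 3, nat_lit 0x46⟩ (.node ⟨nat_lit 7, nat_lit 0x10002000500060, nat_lit 0x113102, nat_lit 0, nat_lit 4, nat_lit 0x48⟩ (t14_3237) (t14_11429)) (.node ⟨nat_lit 5, nat_lit 0x180018, nat_lit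 0x11111, nat_lit 2, nat_lit 4, nat_lit 0x46⟩ (t14_7333) (t14_15525))))) (.node ⟨nat_lit 6, nat_lit 0x1000280030, nat_lit 0x103031, nat_lit 0, nat_lit 4, nat_lit 0x48⟩ (.node ⟨nat_lit 4, nat_lit 0, nat_lit 0x2111, nat_lit 0, nat_lit 4, nat_lit 0x46⟩ (.node ⟨nat_lit 6, nat_lit 0x10002000200030, nat_lit 0x11201, nat_lit 0, nat_lit 3, nat_lit 0x45⟩ (.node ⟨nat_lit 5, nat_lit 0x100008, nat_lit 0x11402, nat_lit 0, nat_lit 4, nat_lit 0x49⟩ (t14_677) (t14_8869)) (.node ⟨nat_lit 6, nat_lit 0x800300030, nat_lit 0x111220, nat_lit 0, nat_lit 4, nat_lit 0x47⟩ (t14_4773) (t14_12965))) (.node ⟨nat_lit 6, nat_lit 0x800300028, nat_lit 0x100012, nat_lit 6, nat_lit 4, nat_lit 0x47⟩ (.node ⟨nat_lit 8, nat_lit 0x80008000800040009000e0, nat_lit 0x1110310, nat_lit 1, nat_lit 4, nat_lit 0x48⟩ (t14_2725) (t14_10917)) (.node ⟨nat_lit 7, nat_lit 0x10001000600060, nat_lit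 0x1111122, nat_lit 0, nat_lit 4, nat_lit 0x48⟩ (t14_6821) (t14_15013)))) (.node ⟨nat_lit 5, nat_lit 0x100010, nat_lit 0x11131, nat_lit 4, nat_lit 4, nat_lit 0x49⟩ (.node ⟨nat_lit 7, nat_lit 0x100060, nat_lit 0x2011111, nat_lit 3, nat_lit 4, nat_lit 0x4b⟩ (.node ⟨nat_lit 5, nat_lit 0x180014, nat_lit 0x114, nat_lit 4, nat_lit 4, nat_lit 0x46⟩ (t14_1701) (t14_9893)) (.node ⟨nat_lit 6, nat_lit 0x800280030, nat_lit 0x121202, nat_lit 0, nat_lit 4, nat_lit 0x48⟩ (t14_5797) (t14_13989))) (.node ⟨nat_lit 6, nat_lit 0x1000200030, nat_lit 0x220, nat_lit 0, nat_lit 4, nat_lit 0x46⟩ (.node ⟨nat_lit 7, nat_lit 0x800500060, nat_lit 0x1000040, nat_lit 0, nat_lit 4, nat_lit 0x47⟩ (t14_3749) (t14_11941)) (.node ⟨nat_lit 7, nat_lit 0x2000500060, nat_lit 0x1001012, nat_lit 0, nat_lit 4, nat_lit 0x47⟩ (t14_7845) (.nil)))))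
def t14_421 : Tr := .node ⟨nat_lit 7, nat_lit 0x20004000400040, nat_lit 0x1111210, nat_lit 1, nat_lit 4, nat_lit 0x4a⟩ (.nil) (.nil)
def t14_8613 : Tr := .node ⟨nat_lit 6, nat_lit 0x20001000280034, nat_lit 0x1210, nat_lit 3, nat_lit 4, nat_lit 0x45⟩ (.nil) (.nil)
def t14_4517 : Tr := .node ⟨nat_lit 7, nat_lit 0x400040002000500048, nat_lit 0x1121011, nat_lit 4, nat_lit 4, nat_lit 0x49⟩ (.nil) (.nil)
def t14_12709 : Tr := .node ⟨nat_lit 5, nat_lit 0x800100018, nat_lit 0x1310, nat_lit 5, nat_lit 4, nat_lit 0x47⟩ (.nil) (.nil)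
def t14_2469 : Tr := .node ⟨nat_lit 7, nat_lit 0x20006000600050, nat_lit 0x12210, nat_lit 3, nat_lit 4, nat_lit 0x47⟩ (.nil) (.nil)
def t14_10661 : Tr := .node ⟨nat_lit 7, nat_lit 0x20005000680068, nat_lit 0x10120, nat_lit 0, nat_lit 4, nat_lit 0x44⟩ (.nil) (.nil)
def t14_6565 : Tr := .node ⟨nat_lit 8, nat_lit 0x80008800a000c8, nat_lit 0x11010011, nat_lit 1, nat_lit 4, nat_lit 0x48⟩ (.nil) (.nil)
def t14_14757 : Tr := .node ⟨nat_lit 9, nat_lit 0x100011000c000a00180, nat_lit 0x100010112, nat_lit 0, nat_lit 4, nat_lit 0x48⟩ (.nil) (.nil)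
def t14_1445 : Tr := .node ⟨nat_lit 9, nat_lit 0x8001000100010000400110, nat_lit 0x1021111, nat_lit 0, nat_lit 4, nat_lit 0x4a⟩ (.nil) (.nil)
def t14_9637 : Tr := .node ⟨nat_lit 8, nat_lit 0x2000800080004000c0, nat_lit 0x2112, nat_lit 0, nat_lit 4, nat_lit 0x48⟩ (.nil) (.nil)
def t14_5541 : Tr := .node ⟨nat_lit 6, nat_lit 0x200010, nat_lit 0x1011, nat_lit 1, nat_lit 4, nat_lit 0x47⟩ (.nil) (.nil)
def t14_13733 : Tr := .node ⟨nat_lit 8, nat_lit 0x8000400090006000c8, nat_lit 0x2001, nat_lit 1, nat_lit 4, nat_lit 0x46⟩ (.nil) (.nil)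
def t14_3493 : Tr := .node ⟨nat_lit 5, nat_lit 0x1000080018, nat_lit 0x21, nat_lit 3, nat_lit 3, nat_lit 0x44⟩ (.nil) (.nil)
def t14_11685 : Tr := .node ⟨nat_lit 8, nat_lit 0x80008000d000d000d0, nat_lit 0x10101210, nat_lit 1, nat_lit 4, nat_lit 0x47⟩ (.nil) (.nil)
def t14_7589 : Tr := .node ⟨nat_lit 6, nat_lit 0x20002000300038, nat_lit 0x1132, nat_lit 4, nat_lit 4, nat_lit 0x46⟩ (.nil) (.nil)
def t14_933 : Tr := .node ⟨nat_lit 7, nat_lit 0x200020004000440060, nat_lit 0x1022111, nat_lit 2, nat_lit 4, nat_lit 0x48⟩ (.nil) (.nil)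
def t14_9125 : Tr := .node ⟨nat_lit 8, nat_lit 0x800040004000a000a000c0, nat_lit 0x120211, nat_lit 1, nat_lit 4, nat_lit 0x47⟩ (.nil) (.nil)
def t14_5029 : Tr := .node ⟨nat_lit 7, nat_lit 0x20006000500050, nat_lit 0x111131, nat_lit 0, nat_lit 4, nat_lit 0x47⟩ (.nil) (.nil)
def t14_13221 : Tr := .node ⟨nat_lit 7, nat_lit 0x40002000480048, nat_lit 0x112010, nat_lit 0, nat_lit 4, nat_lit 0x48⟩ (.nil) (.nil)
def t14_2981 : Tr := .node ⟨nat_lit 7, nat_lit 0x40001000100060, nat_lit 0x112102, nat_lit 0, nat_lit 4, nat_lit 0x48⟩ (.nil) (.nil)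
def t14_11173 : Tr := .node ⟨nat_lit 7, nat_lit 0x6000500050, nat_lit 0x1001020, nat_lit 1, nat_lit 4, nat_lit 0x47⟩ (.nil) (.nil)
def t14_7077 : Tr := .node ⟨nat_lit 8, nat_lit 0x400080008800600060, nat_lit 0x10120011, nat_lit 1, nat_lit 4, nat_lit 0x48⟩ (.nil) (.nil)
def t14_15269 : Tr := .node ⟨nat_lit 7, nat_lit 0x40001000600050, nat_lit 0x110112, nat_lit 3, nat_lit 4, nat_lit 0x48⟩ (.nil) (.nil)
def t14_1957 : Tr := .node ⟨nat_lit 6, nat_lit 0x200020, nat_lit 0x20000, nat_lit 0, nat_lit 4, nat_lit 0x47⟩ (.nil) (.nil)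
def t14_10149 : Tr := .node ⟨nat_lit 5, nat_lit 0x1000100018, nat_lit 0x200, nat_lit 3, nat_lit 4, nat_lit 0x45⟩ (.nil) (.nil)
def t14_6053 : Tr := .node ⟨nat_lit 8, nat_lit 0x400040008000c0, nat_lit 0x10111121, nat_lit 0, nat_lit 4, nat_lit 0x4a⟩ (.nil) (.nil)
def t14_14245 : Tr := .node ⟨nat_lit 8, nat_lit 0x200020004000a000c0, nat_lit 0x20110, nat_lit 0, nat_lit 4, nat_lit 0x47⟩ (.nil) (.nil)
def t14_4005 : Tr := .node ⟨nat_lit 6, nat_lit 0x2000080030, nat_lit 0x100130, nat_lit 2, nat_lit 4, nat_lit 0x47⟩ (.nil) (.nil)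
def t14_12197 : Tr := .node ⟨nat_lit 6, nat_lit 0x1800280030, nat_lit 0x111022, nat_lit 2, nat_lit 4, nat_lit 0x47⟩ (.nil) (.nil)
def t14_8101 : Tr := .node ⟨nat_lit 7, nat_lit 0x200020004000440030, nat_lit 0x1010003, nat_lit 3, nat_lit 4, nat_lit 0x47⟩ (.nil) (.nil)
def t9_421 : Tr := .node ⟨nat_lit 6, nat_lit 0x2000080030, nat_lit 0x211312, nat_lit 0, nat_lit 4, nat_lit 0x49⟩ (.node ⟨nat_lit 6, nat_lit 0x800300030, nat_lit 0x113021, nat_lit 1, nat_lit 4, nat_lit 0x48⟩ (.node ⟨nat_lit 5, nat_lit 0x80010, nat_lit 0x20211, nat_lit 0, nat_lit 4, nat_lit 0x47⟩ (.node ⟨nat_lit 5, nat_lit 0x40018, nat_lit 0x11002, nat_lit 0, nat_lit 4, nat_lit 0x45⟩ (.node ⟨nat_lit 6, nat_lit 0x2800280030, nat_lit 0x20201, nat_lit 3, nat_lit 4, nat_lit 0x46⟩ (t14_421) (t14_8613)) (.node ⟨nat_lit 3, nat_lit 4, nat_lit 0x222, nat_lit 0xd, nat_lit 4, nat_lit 0x49⟩ (t14_4517)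 (t14_12709))) (.node ⟨nat_lit 7, nat_lit 0x400060, nat_lit 0x2011112, nat_lit 2, nat_lit 4, nat_lit 0x4b⟩ (.node ⟨nat_lit 7, nat_lit 0x10001000400062, nat_lit 0x1101011, nat_lit 0, nat_lit 4, nat_lit 0x47⟩ (t14_2469) (t14_10661)) (.node ⟨nat_lit 6, nat_lit 0x2000200024, nat_lit 0x21202, nat_lit 6, nat_lit 4, nat_lit 0x49⟩ (t14_6565) (t14_14757)))) (.node ⟨nat_lit 4, nat_lit 0x8000c, nat_lit 0x211, nat_lit 7, nat_lit 4, nat_lit 0x46⟩ (.node ⟨nat_lit 7, nat_lit 0x40002000200010, nat_lit 0x1120211, nat_lit 1, nat_lit 4, nat_lit 0x4a⟩ (.node ⟨nat_lit 5, nat_lit 0x100010, nat_lit 0x1111, nat_lit 3, nat_lit 4, nat_lit 0x47⟩ (t14_1445) (t14_9637)) (.node ⟨nat_lit 8, nat_lit 0x40008000840060, nat_lit 0x11122002, nat_lit 0, nat_lit 4, nat_lit 0x4a⟩ (t14_5541) (t14_13733))) (.node ⟨nat_lit 6, nat_lit 0x10001000100020, nat_lit 0x102111, nat_lit 3, nat_lit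 4, nat_lit 0x48⟩ (.node ⟨nat_lit 5, nat_lit 0x1000080018, nat_lit 0x10100, nat_lit 1, nat_lit 3, nat_lit 0x44⟩ (t14_3493) (t14_11685)) (.node ⟨nat_lit 7, nat_lit 0x40004000200010, nat_lit 0x111002, nat_lit 1, nat_lit 3, nat_lit 0x47⟩ (t14_7589) (.nil))))) (.node ⟨nat_lit 5, nat_lit 0x80010, nat_lit 0x30220, nat_lit 0, nat_lit 4, nat_lit 0x48⟩ (.node ⟨nat_lit 5, nat_lit 0x100018, nat_lit 0x11200, nat_lit 1, nat_lit 3, nat_lit 0x46⟩ (.node ⟨nat_lit 4, nat_lit 8, nat_lit 0x1111, nat_lit 0xd, nat_lit 4, nat_lit 0x49⟩ (.node ⟨nat_lit 8, nat_lit 0x8000800040, nat_lit 0x2111100, nat_lit 3, nat_lit 4, nat_lit 0x4c⟩ (t14_933) (t14_9125)) (.node ⟨nat_lit 7, nat_lit 0x20004000100044, nat_lit 0x1020220, nat_lit 1, nat_lit 4, nat_lit 0x49⟩ (t14_5029) (t14_13221))) (.node ⟨nat_lit 5, nat_lit 0x180018, nat_lit 0x11130, nat_lit 3, nat_lit 4, nat_lit 0x47⟩ (.node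 ⟨nat_lit 7, nat_lit 0x40001000480060, nat_lit 0x1111211, nat_lit 0, nat_lit 4, nat_lit 0x48⟩ (t14_2981) (t14_11173)) (.node ⟨nat_lit 5, nat_lit 0x180018, nat_lit 0x20100, nat_lit 0, nat_lit 3, nat_lit 0x45⟩ (t14_7077) (t14_15269)))) (.node ⟨nat_lit 3, nat_lit 4, nat_lit 0x220, nat_lit 9, nat_lit 4, nat_lit 0x47⟩ (.node ⟨nat_lit 7, nat_lit 0x2000600050, nat_lit 0x2101121, nat_lit 0, nat_lit 4, nat_lit 0x49⟩ (.node ⟨nat_lit 7, nat_lit 0x800600050, nat_lit 0x1010013, nat_lit 2, nat_lit 4, nat_lit 0x48⟩ (t14_1957) (t14_10149)) (.node ⟨nat_lit 6, nat_lit 0x1000100020, nat_lit 0x13002, nat_lit 0, nat_lit 4, nat_lit 0x48⟩ (t14_6053) (t14_14245))) (.node ⟨nat_lit 5, nat_lit 0x1000100010, nat_lit 0x2111, nat_lit 6, nat_lit 4, nat_lit 0x48⟩ (.node ⟨nat_lit 6, nat_lit 0x200010, nat_lit 0x1000, nat_lit 0, nat_lit 4, nat_lit 0x46⟩ (t14_4005) (t14_12197)) (.node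 ⟨nat_lit 6, nat_lit 0x80030, nat_lit 0x101111, nat_lit 1, nat_lit 3, nat_lit 0x47⟩ (t14_8101) (.nil)))))
def t14_101 : Tr := .node ⟨nat_lit 7, nat_lit 0x40001000500068, nat_lit 0x1301111, nat_lit 1, nat_lit 4, nat_lit 0x48⟩ (.nil) (.nil)
def t14_8293 : Tr := .node ⟨nat_lit 8, nat_lit 0x20008000c00030, nat_lit 0x2010, nat_lit 0, nat_lit 4, nat_lit 0x47⟩ (.nil) (.nil)
def t14_4197 : Tr := .node ⟨nat_lit 9, nat_lit 0x1000100010000800110, nat_lit 0x11112010, nat_lit 0, nat_lit 4, nat_lit 0x4b⟩ (.nil) (.nil)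
def t14_12389 : Tr := .node ⟨nat_lit 6, nat_lit 0x2000200038, nat_lit 0x10003, nat_lit 3, nat_lit 4, nat_lit 0x46⟩ (.nil) (.nil)
def t14_2149 : Tr := .node ⟨nat_lit 7, nat_lit 0x1800500060, nat_lit 0x1111220, nat_lit 0, nat_lit 4, nat_lit 0x48⟩ (.nil) (.nil)
def t14_10341 : Tr := .node ⟨nat_lit 6, nat_lit 0x800300038, nat_lit 0x101102, nat_lit 2, nat_lit 4, nat_lit 0x46⟩ (.nil) (.nil)
def t14_6245 : Tr := .node ⟨nat_lit 3, nat_lit 0, nat_lit 0x111, nat_lit 0xc, nat_lit 4, nat_lit 0x48⟩ (.nil) (.nil)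
def t14_14437 : Tr := .node ⟨nat_lit 8, nat_lit 0x4000400080008000d0, nat_lit 0x12201, nat_lit 0, nat_lit 4, nat_lit 0x48⟩ (.nil) (.nil)
def t14_1125 : Tr := .node ⟨nat_lit 6, nat_lit 0xc0030, nat_lit 0x101021, nat_lit 3, nat_lit 4, nat_lit 0x47⟩ (.nil) (.nil)
def t14_9317 : Tr := .node ⟨nat_lit 6, nat_lit 0x2800300030, nat_lit 0x1122, nat_lit 4, nat_lit 4, nat_lit 0x46⟩ (.nil) (.nil)
def t14_5221 : Tr := .node ⟨nat_lit 7, nat_lit 0x40, nat_lit 0x2111111, nat_lit 1, nat_lit 3, nat_lit 0x4b⟩ (.nil) (.nil)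
def t14_13413 : Tr := .node ⟨nat_lit 7, nat_lit 0x40002000500068, nat_lit 0x3400, nat_lit 0, nat_lit 4, nat_lit 0x47⟩ (.nil) (.nil)
def t14_3173 : Tr := .node ⟨nat_lit 7, nat_lit 0x20004000100070, nat_lit 0x111102, nat_lit 0, nat_lit 4, nat_lit 0x47⟩ (.nil) (.nil)
def t14_11365 : Tr := .node ⟨nat_lit 5, nat_lit 0x100018, nat_lit 0x1110, nat_lit 6, nat_lit 3, nat_lit 0x46⟩ (.nil) (.nil)
def t14_7269 : Tr := .node ⟨nat_lit 8, nat_lit 0x800090009000900060, nat_lit 0x2002001, nat_lit 1, nat_lit 4, nat_lit 0x47⟩ (.nil) (.nil)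
def t14_15461 : Tr := .node ⟨nat_lit 9, nat_lit 0x100008000400040, nat_lit 0x110010, nat_lit 8, nat_lit 4, nat_lit 0x4c⟩ (.nil) (.nil)
def t14_613 : Tr := .node ⟨nat_lit 6, nat_lit 0x280030, nat_lit 0x20120, nat_lit 2, nat_lit 4, nat_lit 0x47⟩ (.nil) (.nil)
def t14_8805 : Tr := .node ⟨nat_lit 7, nat_lit 0x40004000480048, nat_lit 0x211031, nat_lit 3, nat_lit 4, nat_lit 0x49⟩ (.nil) (.nil)
def t14_4709 : Tr := .node ⟨nat_lit 7, nat_lit 0x1000600060, nat_lit 0x1001010, nat_lit 0, nat_lit 4, nat_lit 0x47⟩ (.nil) (.nil)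
def t14_12901 : Tr := .node ⟨nat_lit 9, nat_lit 0x400100008001080180, nat_lit 0x102000, nat_lit 1, nat_lit 4, nat_lit 0x49⟩ (.nil) (.nil)
def t14_2661 : Tr := .node ⟨nat_lit 6, nat_lit 0x800300030, nat_lit 0x1042, nat_lit 1, nat_lit 4, nat_lit 0x46⟩ (.nil) (.nil)
def t14_10853 : Tr := .node ⟨nat_lit 9, nat_lit 0x400100010001080180, nat_lit 0x10102002, nat_lit 1, nat_lit 4, nat_lit 0x4a⟩ (.nil) (.nil)
def t14_6757 : Tr := .node ⟨nat_lit 7, nat_lit 0x800100060, nat_lit 0x2011100, nat_lit 1, nat_lit 4, nat_lit 0x49⟩ (.nil) (.nil)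
def t14_14949 : Tr := .node ⟨nat_lit 5, nat_lit 0x10001000100018, nat_lit 0x1111, nat_lit 9, nat_lit 4, nat_lit 0x47⟩ (.nil) (.nil)
def t14_1637 : Tr := .node ⟨nat_lit 8, nat_lit 0x800040004000c000c8, nat_lit 0x122020, nat_lit 0, nat_lit 4, nat_lit 0x48⟩ (.nil) (.nil)
def t14_9829 : Tr := .node ⟨nat_lit 9, nat_lit 0x100008001400180, nat_lit 0x112002, nat_lit 0, nat_lit 4, nat_lit 0x4a⟩ (.nil) (.nil)
def t14_5733 : Tr := .node ⟨nat_lit 7, nat_lit 0x20004000600064, nat_lit 0x11020, nat_lit 1, nat_lit 4, nat_lit 0x46⟩ (.nil) (.nil)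
def t14_13925 : Tr := .node ⟨nat_lit 8, nat_lit 0x10003000a000c0, nat_lit 0x1000202, nat_lit 0, nat_lit 4, nat_lit 0x47⟩ (.nil) (.nil)
def t14_3685 : Tr := .node ⟨nat_lit 9, nat_lit 0x1000080004001800140, nat_lit 0x201021, nat_lit 0, nat_lit 4, nat_lit 0x49⟩ (.nil) (.nil)
def t14_11877 : Tr := .node ⟨nat_lit 5, nat_lit 0x1000080008, nat_lit 0x2010, nat_lit 2, nat_lit 3, nat_lit 0x46⟩ (.nil) (.nil)
def t14_7781 : Tr := .node ⟨nat_lit 7, nat_lit 0x10001000600060, nat_lit 0x1032, nat_lit 1, nat_lit 4, nat_lit 0x46⟩ (.nil) (.nil)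
def t9_101 : Tr := .node ⟨nat_lit 6, nat_lit 0x2000200010, nat_lit 0x131111, nat_lit 3, nat_lit 4, nat_lit 0x4a⟩ (.node ⟨nat_lit 6, nat_lit 0, nat_lit 0x322111, nat_lit 0, nat_lit 4, nat_lit 0x4d⟩ (.node ⟨nat_lit 6, nat_lit 0x800280030, nat_lit 0x10302, nat_lit 0, nat_lit 4, nat_lit 0x46⟩ (.node ⟨nat_lit 5, nat_lit 0x100010, nat_lit 0x12110, nat_lit 3, nat_lit 4, nat_lit 0x48⟩ (.node ⟨nat_lit 7, nat_lit 0x20002000100040, nat_lit 0x1121121, nat_lit 0, nat_lit 4, nat_lit 0x4a⟩ (t14_101) (t14_8293)) (.node ⟨nat_lit 5, nat_lit 0x140018, nat_lit 0x230, nat_lit 2, nat_lit 4, nat_lit 0x46⟩ (t14_4197) (t14_12389))) (.node ⟨nat_lit 6, nat_lit 0x20001000100028, nat_lit 0x212110, nat_lit 0, nat_lit 4, nat_lit 0x48⟩ (.node ⟨nat_lit 6, nat_lit 0x1000100020, nat_lit 0x100200, nat_lit 0, nat_lit 3, nat_lit 0x46⟩ (t14_2149) (t14_10341)) (.node ⟨nat_lit 6, nat_lit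 0x800200032, nat_lit 0x201101, nat_lit 1, nat_lit 4, nat_lit 0x47⟩ (t14_6245) (t14_14437)))) (.node ⟨nat_lit 5, nat_lit 0, nat_lit 0x22100, nat_lit 0, nat_lit 4, nat_lit 0x49⟩ (.node ⟨nat_lit 6, nat_lit 0x200020, nat_lit 0x211121, nat_lit 3, nat_lit 4, nat_lit 0x4b⟩ (.node ⟨nat_lit 7, nat_lit 0x4000440060, nat_lit 0x1111311, nat_lit 0, nat_lit 4, nat_lit 0x4a⟩ (t14_1125) (t14_9317)) (.node ⟨nat_lit 6, nat_lit 0x300030, nat_lit 0x112121, nat_lit 3, nat_lit 4, nat_lit 0x49⟩ (t14_5221) (t14_13413))) (.node ⟨nat_lit 6, nat_lit 0x2000080030, nat_lit 0x21001, nat_lit 2, nat_lit 4, nat_lit 0x47⟩ (.node ⟨nat_lit 6, nat_lit 0x80030, nat_lit 0x101200, nat_lit 1, nat_lit 4, nat_lit 0x48⟩ (t14_3173) (t14_11365)) (.node ⟨nat_lit 6, nat_lit 0x2000100034, nat_lit 0x1110, nat_lit 0, nat_lit 4, nat_lit 0x45⟩ (t14_7269) (t14_15461))))) (.node ⟨nat_lit 3, nat_lit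 6, nat_lit 0x210, nat_lit 3, nat_lit 3, nat_lit 0x44⟩ (.node ⟨nat_lit 6, nat_lit 0x2000080034, nat_lit 0x211201, nat_lit 1, nat_lit 4, nat_lit 0x48⟩ (.node ⟨nat_lit 4, nat_lit 0xc, nat_lit 0x2010, nat_lit 5, nat_lit 4, nat_lit 0x46⟩ (.node ⟨nat_lit 7, nat_lit 0x10002000200040, nat_lit 0x1211201, nat_lit 0, nat_lit 4, nat_lit 0x4a⟩ (t14_613) (t14_8805)) (.node ⟨nat_lit 6, nat_lit 0x20001000100028, nat_lit 0x112202, nat_lit 3, nat_lit 4, nat_lit 0x48⟩ (t14_4709) (t14_12901))) (.node ⟨nat_lit 5, nat_lit 0x800100018, nat_lit 0x1112, nat_lit 4, nat_lit 4, nat_lit 0x46⟩ (.node ⟨nat_lit 6, nat_lit 0x800200030, nat_lit 0x120013, nat_lit 5, nat_lit 4, nat_lit 0x49⟩ (t14_2661) (t14_10853)) (.node ⟨nat_lit 6, nat_lit 0x10002000200020, nat_lit 0x111220, nat_lit 0, nat_lit 3, nat_lit 0x47⟩ (t14_6757) (t14_14949)))) (.node ⟨nat_lit 6, nat_lit 0x2000080034, nat_lit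 0x210110, nat_lit 1, nat_lit 4, nat_lit 0x47⟩ (.node ⟨nat_lit 5, nat_lit 0x100008, nat_lit 0x31202, nat_lit 0, nat_lit 4, nat_lit 0x49⟩ (.node ⟨nat_lit 5, nat_lit 0x18001c, nat_lit 0x113, nat_lit 5, nat_lit 4, nat_lit 0x45⟩ (t14_1637) (t14_9829)) (.node ⟨nat_lit 6, nat_lit 0x2000280034, nat_lit 0x20202, nat_lit 3, nat_lit 4, nat_lit 0x47⟩ (t14_5733) (t14_13925))) (.node ⟨nat_lit 6, nat_lit 0x800300038, nat_lit 0x1220, nat_lit 0, nat_lit 4, nat_lit 0x45⟩ (.node ⟨nat_lit 7, nat_lit 0x40002000480068, nat_lit 0x1010000, nat_lit 1, nat_lit 4, nat_lit 0x46⟩ (t14_3685) (t14_11877)) (.node ⟨nat_lit 7, nat_lit 0x5000500060, nat_lit 0x1102211, nat_lit 0, nat_lit 4, nat_lit 0x48⟩ (t14_7781) (.nil)))))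
def t14_357 : Tr := .node ⟨nat_lit 7, nat_lit 0x40001000680068, nat_lit 0x2111211, nat_lit 0, nat_lit 4, nat_lit 0x48⟩ (.nil) (.nil)
def t14_8549 : Tr := .node ⟨nat_lit 6, nat_lit 0x20002800280030, nat_lit 0x1210, nat_lit 5, nat_lit 4, nat_lit 0x46⟩ (.nil) (.nil)
def t14_4453 : Tr := .node ⟨nat_lit 7, nat_lit 0x400040002000500070, nat_lit 0x1110201, nat_lit 4, nat_lit 4, nat_lit 0x48⟩ (.nil) (.nil)
def t14_12645 : Tr := .node ⟨nat_lit 9, nat_lit 0x100008000800090012000c0, nat_lit 0x101021000, nat_lit 1, nat_lit 4, nat_lit 0x49⟩ (.nil) (.nil)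
def t14_2405 : Tr := .node ⟨nat_lit 7, nat_lit 0x400050006000700070, nat_lit 0x1012210, nat_lit 1, nat_lit 4, nat_lit 0x46⟩ (.nil) (.nil)
def t14_10597 : Tr := .node ⟨nat_lit 8, nat_lit 0x6000a000c0, nat_lit 0x11020, nat_lit 0, nat_lit 4, nat_lit 0x48⟩ (.nil) (.nil)
def t14_6501 : Tr := .node ⟨nat_lit 7, nat_lit 0x40001000580068, nat_lit 0x1101001, nat_lit 1, nat_lit 4, nat_lit 0x46⟩ (.nil) (.nil)
def t14_14693 : Tr := .node ⟨nat_lit 9, nat_lit 0x10000800080012001880190, nat_lit 0x111111, nat_lit 0, nat_lit 4, nat_lit 0x47⟩ (.nil) (.nil)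
def t14_1381 : Tr := .node ⟨nat_lit 7, nat_lit 0x10006000600060, nat_lit 0x11310, nat_lit 3, nat_lit 4, nat_lit 0x47⟩ (.nil) (.nil)
def t14_9573 : Tr := .node ⟨nat_lit 9, nat_lit 0x10000400180014001a001a0, nat_lit 0x102120, nat_lit 0, nat_lit 4, nat_lit 0x46⟩ (.nil) (.nil)
def t14_5477 : Tr := .node ⟨nat_lit 7, nat_lit 0x40002000480060, nat_lit 0x13111, nat_lit 1, nat_lit 4, nat_lit 0x48⟩ (.nil) (.nil)
def t14_13669 : Tr := .node ⟨nat_lit 8, nat_lit 0x200080008400c0, nat_lit 0x20200, nat_lit 2, nat_lit 4, nat_lit 0x49⟩ (.nil) (.nil)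
def t14_3429 : Tr := .node ⟨nat_lit 5, nat_lit 0x40018, nat_lit 0x11301, nat_lit 2, nat_lit 4, nat_lit 0x48⟩ (.nil) (.nil)
def t14_11621 : Tr := .node ⟨nat_lit 9, nat_lit 0x400100010801800180, nat_lit 0x102110, nat_lit 1, nat_lit 4, nat_lit 0x49⟩ (.nil) (.nil)
def t14_7525 : Tr := .node ⟨nat_lit 3, nat_lit 0x40004, nat_lit 0x221, nat_lit 0xb, nat_lit 3, nat_lit 0x46⟩ (.nil) (.nil)
def t14_869 : Tr := .node ⟨nat_lit 7, nat_lit 0x40002000480060, nat_lit 0x112220, nat_lit 0, nat_lit 4, nat_lit 0x48⟩ (.nil) (.nil)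
def t14_9061 : Tr := .node ⟨nat_lit 7, nat_lit 0x5000600070, nat_lit 0x111122, nat_lit 0, nat_lit 4, nat_lit 0x47⟩ (.nil) (.nil)
def t14_4965 : Tr := .node ⟨nat_lit 6, nat_lit 0x2000300030, nat_lit 0x11310, nat_lit 5, nat_lit 4, nat_lit 0x48⟩ (.nil) (.nil)
def t14_13157 : Tr := .node ⟨nat_lit 5, nat_lit 0x180018, nat_lit 0x20230, nat_lit 3, nat_lit 3, nat_lit 0x46⟩ (.nil) (.nil)
def t14_2917 : Tr := .node ⟨nat_lit 8, nat_lit 0x80004000c000a000c8, nat_lit 0x121021, nat_lit 0, nat_lit 4, nat_lit 0x47⟩ (.nil) (.nil)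
def t14_11109 : Tr := .node ⟨nat_lit 6, nat_lit 0x200022, nat_lit 0x11112, nat_lit 2, nat_lit 4, nat_lit 0x48⟩ (.nil) (.nil)
def t14_7013 : Tr := .node ⟨nat_lit 7, nat_lit 0x10005000600060, nat_lit 0x1012211, nat_lit 0, nat_lit 4, nat_lit 0x47⟩ (.nil) (.nil)
def t14_15205 : Tr := .node ⟨nat_lit 8, nat_lit 0x800020009000c000d0, nat_lit 0x1010112, nat_lit 1, nat_lit 4, nat_lit 0x47⟩ (.nil) (.nil)
def t14_1893 : Tr := .node ⟨nat_lit 7, nat_lit 0x6000500048, nat_lit 0x12112, nat_lit 2, nat_lit 4, nat_lit 0x48⟩ (.nil) (.nil)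
def t14_10085 : Tr := .node ⟨nat_lit 8, nat_lit 0x80002000c000d000d0, nat_lit 0x10100220, nat_lit 2, nat_lit 4, nat_lit 0x47⟩ (.nil) (.nil)
def t14_5989 : Tr := .node ⟨nat_lit 6, nat_lit 0x1000200030, nat_lit 0x121210, nat_lit 1, nat_lit 4, nat_lit 0x49⟩ (.nil) (.nil)
def t14_14181 : Tr := .node ⟨nat_lit 7, nat_lit 0x1000600050, nat_lit 0x1001112, nat_lit 2, nat_lit 4, nat_lit 0x48⟩ (.nil) (.nil)
def t14_3941 : Tr := .node ⟨nat_lit 7, nat_lit 0x200020004000400044, nat_lit 0x110200, nat_lit 3, nat_lit 4, nat_lit 0x48⟩ (.nil) (.nil)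
def t14_12133 : Tr := .node ⟨nat_lit 7, nat_lit 0x20006000500068, nat_lit 0x101210, nat_lit 1, nat_lit 4, nat_lit 0x46⟩ (.nil) (.nil)
def t14_8037 : Tr := .node ⟨nat_lit 6, nat_lit 0x2000100024, nat_lit 0x12113, nat_lit 0, nat_lit 4, nat_lit 0x47⟩ (.nil) (.nil)
def t9_357 : Tr := .node ⟨nat_lit 5, nat_lit 0, nat_lit 0x33221, nat_lit 0, nat_lit 4, nat_lit 0x4c⟩ (.node ⟨nat_lit 5, nat_lit 0x100010, nat_lit 0x13221, nat_lit 4, nat_lit 4, nat_lit 0x4a⟩ (.node ⟨nat_lit 3, nat_lit 6, nat_lit 0x222, nat_lit 9, nat_lit 4, nat_lit 0x47⟩ (.node ⟨nat_lit 6, nat_lit 0x2000100032, nat_lit 0x112220, nat_lit 0, nat_lit 4, nat_lit 0x48⟩ (.node ⟨nat_lit 7, nat_lit 0x400040004000200050, nat_lit 0x211011, nat_lit 5, nat_lit 4, nat_lit 0x49⟩ (t14_357) (t14_8549)) (.node ⟨nat_lit 7, nat_lit 0x400040002000200050, nat_lit 0x1120111, nat_lit 3, nat_lit 4, nat_lit 0x49⟩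 (t14_4453) (t14_12645))) (.node ⟨nat_lit 7, nat_lit 0x40001000100060, nat_lit 0x2101102, nat_lit 2, nat_lit 4, nat_lit 0x49⟩ (.node ⟨nat_lit 6, nat_lit 0x10002000240030, nat_lit 0x101103, nat_lit 5, nat_lit 4, nat_lit 0x47⟩ (t14_2405) (t14_10597)) (.node ⟨nat_lit 6, nat_lit 0x1000200032, nat_lit 0x102300, nat_lit 3, nat_lit 4, nat_lit 0x48⟩ (t14_6501) (t14_14693)))) (.node ⟨nat_lit 6, nat_lit 0x800280030, nat_lit 0x21122, nat_lit 0, nat_lit 4, nat_lit 0x47⟩ (.node ⟨nat_lit 7, nat_lit 0x4000400020, nat_lit 0x222102, nat_lit 0, nat_lit 4, nat_lit 0x4b⟩ (.node ⟨nat_lit 5, nat_lit 0x40018, nat_lit 0x10114, nat_lit 1, nat_lit 4, nat_lit 0x46⟩ (t14_1381) (t14_9573)) (.node ⟨nat_lit 6, nat_lit 0x2000200030, nat_lit 0x102221, nat_lit 1, nat_lit 3, nat_lit 0x47⟩ (t14_5477) (t14_13669))) (.node ⟨nat_lit 4, nat_lit 0xc, nat_lit 0x3032, nat_lit 5, nat_lit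 4, nat_lit 0x48⟩ (.node ⟨nat_lit 5, nat_lit 0x40018, nat_lit 0x20004, nat_lit 3, nat_lit 4, nat_lit 0x47⟩ (t14_3429) (t14_11621)) (.node ⟨nat_lit 8, nat_lit 0x800020004000400040, nat_lit 0x101111, nat_lit 0, nat_lit 4, nat_lit 0x49⟩ (t14_7525) (.nil))))) (.node ⟨nat_lit 7, nat_lit 0x40, nat_lit 0x311110, nat_lit 0, nat_lit 4, nat_lit 0x4c⟩ (.node ⟨nat_lit 5, nat_lit 0x100010, nat_lit 0x12210, nat_lit 0, nat_lit 3, nat_lit 0x47⟩ (.node ⟨nat_lit 6, nat_lit 0x280030, nat_lit 0x11112, nat_lit 1, nat_lit 4, nat_lit 0x47⟩ (.node ⟨nat_lit 5, nat_lit 0x40018, nat_lit 0x31020, nat_lit 2, nat_lit 4, nat_lit 0x47⟩ (t14_869) (t14_9061)) (.node ⟨nat_lit 7, nat_lit 0x4000200060, nat_lit 0x121002, nat_lit 1, nat_lit 4, nat_lit 0x49⟩ (t14_4965) (t14_13157))) (.node ⟨nat_lit 6, nat_lit 0x1000200038, nat_lit 0x111121, nat_lit 0, nat_lit 4, nat_lit 0x47⟩ (.node ⟨nat_lit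 7, nat_lit 0x400040002000240050, nat_lit 0x1112210, nat_lit 1, nat_lit 4, nat_lit 0x48⟩ (t14_2917) (t14_11109)) (.node ⟨nat_lit 5, nat_lit 0x1000100008, nat_lit 0x21202, nat_lit 4, nat_lit 3, nat_lit 0x47⟩ (t14_7013) (t14_15205)))) (.node ⟨nat_lit 1, nat_lit 0, nat_lit 2, nat_lit 0xf, nat_lit 4, nat_lit 0x45⟩ (.node ⟨nat_lit 7, nat_lit 0x800500060, nat_lit 0x2111111, nat_lit 0, nat_lit 4, nat_lit 0x49⟩ (.node ⟨nat_lit 7, nat_lit 0x40001000600060, nat_lit 0x12300, nat_lit 0, nat_lit 4, nat_lit 0x47⟩ (t14_1893) (t14_10085)) (.node ⟨nat_lit 8, nat_lit 0x800040009000c000c8, nat_lit 0x211002, nat_lit 0, nat_lit 4, nat_lit 0x47⟩ (t14_5989) (t14_14181))) (.node ⟨nat_lit 6, nat_lit 0x1000200034, nat_lit 0x1202, nat_lit 2, nat_lit 4, nat_lit 0x46⟩ (.node ⟨nat_lit 6, nat_lit 0x10001000200030, nat_lit 0x11003, nat_lit 0, nat_lit 3, nat_lit 0x45⟩ (t14_3941)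 (t14_12133)) (.node ⟨nat_lit 7, nat_lit 0x1000180060, nat_lit 0x1110112, nat_lit 0, nat_lit 4, nat_lit 0x48⟩ (t14_8037) (.nil)))))
def t14_229 : Tr := .node ⟨nat_lit 7, nat_lit 0x20004000600068, nat_lit 0x1012211, nat_lit 2, nat_lit 4, nat_lit 0x48⟩ (.nil) (.nil)
def t14_8421 : Tr := .node ⟨nat_lit 7, nat_lit 0x200040004000480048, nat_lit 0x1131, nat_lit 6, nat_lit 4, nat_lit 0x48⟩ (.nil) (.nil)
def t14_4325 : Tr := .node ⟨nat_lit 9, nat_lit 0x8000800080010000a0010801c0, nat_lit 0x101111011, nat_lit 0, nat_lit 4, nat_lit 0x48⟩ (.nil) (.nil)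
def t14_12517 : Tr := .node ⟨nat_lit 7, nat_lit 0x10005000600030, nat_lit 0x1002400, nat_lit 0, nat_lit 4, nat_lit 0x47⟩ (.nil) (.nil)
def t14_2277 : Tr := .node ⟨nat_lit 7, nat_lit 0x40001000600060, nat_lit 0x10020, nat_lit 0, nat_lit 3, nat_lit 0x45⟩ (.nil) (.nil)
def t14_10469 : Tr := .node ⟨nat_lit 7, nat_lit 0x10004000440060, nat_lit 0x122, nat_lit 0, nat_lit 4, nat_lit 0x46⟩ (.nil) (.nil)
def t14_6373 : Tr := .node ⟨nat_lit 6, nat_lit 0x2000100008, nat_lit 3, nat_lit 1, nat_lit 4, nat_lit 0x46⟩ (.nil) (.nil)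
def t14_14565 : Tr := .node ⟨nat_lit 4, nat_lit 0x80008, nat_lit 0x2111, nat_lit 0xa, nat_lit 3, nat_lit 0x47⟩ (.nil) (.nil)
def t14_1253 : Tr := .node ⟨nat_lit 7, nat_lit 0x40002000500068, nat_lit 0x1001012, nat_lit 0, nat_lit 4, nat_lit 0x46⟩ (.nil) (.nil)
def t14_9445 : Tr := .node ⟨nat_lit 8, nat_lit 0x8000400040005000a000c0, nat_lit 0x10011002, nat_lit 4, nat_lit 4, nat_lit 0x48⟩ (.nil) (.nil)
def t14_5349 : Tr := .node ⟨nat_lit 6, nat_lit 0x1000280030, nat_lit 0x110030, nat_lit 1, nat_lit 4, nat_lit 0x46⟩ (.nil) (.nil)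
def t14_13541 : Tr := .node ⟨nat_lit 7, nat_lit 0x10001000400062, nat_lit 0x100010, nat_lit 0, nat_lit 4, nat_lit 0x46⟩ (.nil) (.nil)
def t14_3301 : Tr := .node ⟨nat_lit 7, nat_lit 0x400040002000600070, nat_lit 0x21012, nat_lit 4, nat_lit 4, nat_lit 0x47⟩ (.nil) (.nil)
def t14_11493 : Tr := .node ⟨nat_lit 6, nat_lit 0x80030, nat_lit 0x111100, nat_lit 0, nat_lit 3, nat_lit 0x47⟩ (.nil) (.nil)
def t14_7397 : Tr := .node ⟨nat_lit 7, nat_lit 0x40004000200020, nat_lit 0x120021, nat_lit 4, nat_lit 4, nat_lit 0x4a⟩ (.nil) (.nil)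
def t14_15589 : Tr := .node ⟨nat_lit 2, nat_lit 0, nat_lit 0x21, nat_lit 0x17, nat_lit 4, nat_lit 0x49⟩ (.nil) (.nil)
def t14_741 : Tr := .node ⟨nat_lit 6, nat_lit 0x2000080030, nat_lit 0x1013, nat_lit 1, nat_lit 4, nat_lit 0x46⟩ (.nil) (.nil)
def t14_8933 : Tr := .node ⟨nat_lit 7, nat_lit 0x1000600060, nat_lit 0x10030, nat_lit 0, nat_lit 4, nat_lit 0x47⟩ (.nil) (.nil)
def t14_4837 : Tr := .node ⟨nat_lit 5, nat_lit 0x1000100008, nat_lit 0x21202, nat_lit 3, nat_lit 3, nat_lit 0x47⟩ (.nil) (.nil)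
def t14_13029 : Tr := .node ⟨nat_lit 6, nat_lit 0x8000c0030, nat_lit 0x100200, nat_lit 5, nat_lit 4, nat_lit 0x47⟩ (.nil) (.nil)
def t14_2789 : Tr := .node ⟨nat_lit 7, nat_lit 0x40002000100060, nat_lit 0x12201, nat_lit 0, nat_lit 4, nat_lit 0x47⟩ (.nil) (.nil)
def t14_10981 : Tr := .node ⟨nat_lit 6, nat_lit 0x20001000100030, nat_lit 0x101202, nat_lit 5, nat_lit 3, nat_lit 0x46⟩ (.nil) (.nil)
def t14_6885 : Tr := .node ⟨nat_lit 7, nat_lit 0x400060, nat_lit 0x111102, nat_lit 2, nat_lit 4, nat_lit 0x4a⟩ (.nil) (.nil)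
def t14_15077 : Tr := .node ⟨nat_lit 6, nat_lit 0x2000300038, nat_lit 0x20031, nat_lit 2, nat_lit 4, nat_lit 0x47⟩ (.nil) (.nil)
def t14_1765 : Tr := .node ⟨nat_lit 8, nat_lit 0x200080001000c0, nat_lit 0x2000003, nat_lit 1, nat_lit 4, nat_lit 0x49⟩ (.nil) (.nil)
def t14_9957 : Tr := .node ⟨nat_lit 6, nat_lit 0x20002000200010, nat_lit 0x23300, nat_lit 0, nat_lit 3, nat_lit 0x47⟩ (.nil) (.nil)
def t14_5861 : Tr := .node ⟨nat_lit 7, nat_lit 0x100060, nat_lit 0x11111, nat_lit 0, nat_lit 4, nat_lit 0x49⟩ (.nil) (.nil)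
def t14_14053 : Tr := .node ⟨nat_lit 7, nat_lit 0x400060, nat_lit 0x11110, nat_lit 1, nat_lit 4, nat_lit 0x49⟩ (.nil) (.nil)
def t14_3813 : Tr := .node ⟨nat_lit 8, nat_lit 0x8000400040009000c0, nat_lit 0x10201102, nat_lit 1, nat_lit 4, nat_lit 0x49⟩ (.nil) (.nil)
def t14_12005 : Tr := .node ⟨nat_lit 8, nat_lit 0x2000a0006000c0, nat_lit 0x1012101, nat_lit 1, nat_lit 4, nat_lit 0x48⟩ (.nil) (.nil)
def t14_7909 : Tr := .node ⟨nat_lit 8, nat_lit 0x800080004000a000900090, nat_lit 0x1110021, nat_lit 3, nat_lit 4, nat_lit 0x48⟩ (.nil) (.nil)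
def t9_229 : Tr := .node ⟨nat_lit 5, nat_lit 0x10, nat_lit 0x13201, nat_lit 0, nat_lit 4, nat_lit 0x49⟩ (.node ⟨nat_lit 5, nat_lit 0x800100012, nat_lit 0x30013, nat_lit 3, nat_lit 4, nat_lit 0x48⟩ (.node ⟨nat_lit 6, nat_lit 0x2000100024, nat_lit 0x311111, nat_lit 3, nat_lit 4, nat_lit 0x4a⟩ (.node ⟨nat_lit 6, nat_lit 0x2000080030, nat_lit 0x11023, nat_lit 0, nat_lit 4, nat_lit 0x47⟩ (.node ⟨nat_lit 6, nat_lit 0x800300030, nat_lit 0x102200, nat_lit 0, nat_lit 4, nat_lit 0x47⟩ (t14_229) (t14_8421)) (.node ⟨nat_lit 7, nat_lit 0x40002000600068, nat_lit 0x111123, nat_lit 0, nat_lit 4, nat_lit 0x47⟩ (t14_4325) (t14_12517))) (.node ⟨nat_lit 7, nat_lit 0x40002000480064, nat_lit 0x1221201, nat_lit 0, nat_lit 4, nat_lit 0x49⟩ (.node ⟨nat_lit 7, nat_lit 0x40001000500060, nat_lit 0x112131, nat_lit 1, nat_lit 4, nat_lit 0x48⟩ (t14_2277) (t14_10469)) (.node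 ⟨nat_lit 7, nat_lit 0x4000180060, nat_lit 0x210021, nat_lit 1, nat_lit 4, nat_lit 0x48⟩ (t14_6373) (t14_14565)))) (.node ⟨nat_lit 7, nat_lit 0x4000400020, nat_lit 0x121101, nat_lit 3, nat_lit 4, nat_lit 0x4a⟩ (.node ⟨nat_lit 6, nat_lit 0x200030, nat_lit 0x121131, nat_lit 1, nat_lit 4, nat_lit 0x4a⟩ (.node ⟨nat_lit 5, nat_lit 0x100018, nat_lit 0x11104, nat_lit 4, nat_lit 4, nat_lit 0x48⟩ (t14_1253) (t14_9445)) (.node ⟨nat_lit 7, nat_lit 0x40004000200020, nat_lit 0x121022, nat_lit 2, nat_lit 4, nat_lit 0x4a⟩ (t14_5349) (t14_13541))) (.node ⟨nat_lit 6, nat_lit 0x1000280034, nat_lit 0x120031, nat_lit 0, nat_lit 4, nat_lit 0x46⟩ (.node ⟨nat_lit 5, nat_lit 0x180014, nat_lit 0x11104, nat_lit 2, nat_lit 4, nat_lit 0x47⟩ (t14_3301) (t14_11493)) (.node ⟨nat_lit 7, nat_lit 0x10004000440060, nat_lit 0x1100012, nat_lit 1, nat_lit 4, nat_lit 0x47⟩ (t14_7397)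 (t14_15589))))) (.node ⟨nat_lit 5, nat_lit 0x100018, nat_lit 0x310, nat_lit 1, nat_lit 4, nat_lit 0x46⟩ (.node ⟨nat_lit 4, nat_lit 0xe, nat_lit 0x2112, nat_lit 3, nat_lit 4, nat_lit 0x46⟩ (.node ⟨nat_lit 6, nat_lit 0x1000200030, nat_lit 0x12200, nat_lit 0, nat_lit 3, nat_lit 0x46⟩ (.node ⟨nat_lit 6, nat_lit 0x800300030, nat_lit 0x103211, nat_lit 1, nat_lit 4, nat_lit 0x48⟩ (t14_741) (t14_8933)) (.node ⟨nat_lit 7, nat_lit 0x10006000600050, nat_lit 0x102200, nat_lit 1, nat_lit 4, nat_lit 0x46⟩ (t14_4837) (t14_13029))) (.node ⟨nat_lit 6, nat_lit 0x300028, nat_lit 0x101112, nat_lit 3, nat_lit 4, nat_lit 0x48⟩ (.node ⟨nat_lit 7, nat_lit 0x800100060, nat_lit 0x2111003, nat_lit 0, nat_lit 3, nat_lit 0x48⟩ (t14_2789) (t14_10981)) (.node ⟨nat_lit 5, nat_lit 0x40018, nat_lit 0x11042, nat_lit 1, nat_lit 4, nat_lit 0x47⟩ (t14_6885) (t14_15077)))) (.node ⟨nat_lit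 4, nat_lit 0, nat_lit 0x1111, nat_lit 1, nat_lit 4, nat_lit 0x46⟩ (.node ⟨nat_lit 7, nat_lit 0x1000600018, nat_lit 0x1110211, nat_lit 0, nat_lit 4, nat_lit 0x48⟩ (.node ⟨nat_lit 7, nat_lit 0x40002000580068, nat_lit 0x11032, nat_lit 0, nat_lit 4, nat_lit 0x45⟩ (t14_1765) (t14_9957)) (.node ⟨nat_lit 6, nat_lit 0x280030, nat_lit 0x22220, nat_lit 1, nat_lit 4, nat_lit 0x49⟩ (t14_5861) (t14_14053))) (.node ⟨nat_lit 6, nat_lit 0x280030, nat_lit 0x2223, nat_lit 1, nat_lit 4, nat_lit 0x48⟩ (.node ⟨nat_lit 6, nat_lit 0x1000300028, nat_lit 0x112003, nat_lit 1, nat_lit 4, nat_lit 0x48⟩ (t14_3813) (t14_12005)) (.node ⟨nat_lit 6, nat_lit 0x2000080030, nat_lit 0x11113, nat_lit 1, nat_lit 4, nat_lit 0x47⟩ (t14_7909) (.nil)))))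
def t14_485 : Tr := .node ⟨nat_lit 7, nat_lit 0x2000200040, nat_lit 0x1122101, nat_lit 0, nat_lit 4, nat_lit 0x4b⟩ (.nil) (.nil)
def t14_8677 : Tr := .node ⟨nat_lit 7, nat_lit 0x3000500060, nat_lit 0x1002, nat_lit 1, nat_lit 4, nat_lit 0x46⟩ (.nil) (.nil)
def t14_4581 : Tr := .node ⟨nat_lit 8, nat_lit 0x200080001000c0, nat_lit 0x10010301, nat_lit 2, nat_lit 4, nat_lit 0x4a⟩ (.nil) (.nil)
def t14_12773 : Tr := .node ⟨nat_lit 5, nat_lit 0x100018, nat_lit 0x1130, nat_lit 6, nat_lit 4, nat_lit 0x48⟩ (.nil) (.nil)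
def t14_2533 : Tr := .node ⟨nat_lit 7, nat_lit 0x20002000400060, nat_lit 0x1022110, nat_lit 1, nat_lit 4, nat_lit 0x49⟩ (.nil) (.nil)
def t14_10725 : Tr := .node ⟨nat_lit 8, nat_lit 0x80008000c000c8, nat_lit 0x101020, nat_lit 0, nat_lit 4, nat_lit 0x48⟩ (.nil) (.nil)
def t14_6629 : Tr := .node ⟨nat_lit 7, nat_lit 0x40002000480048, nat_lit 0x112110, nat_lit 0, nat_lit 4, nat_lit 0x48⟩ (.nil) (.nil)
def t14_14821 : Tr := .node ⟨nat_lit 8, nat_lit 0x800040004000a000a000e0, nat_lit 0x10022101, nat_lit 1, nat_lit 4, nat_lit 0x47⟩ (.nil) (.nil)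
def t14_1509 : Tr := .node ⟨nat_lit 7, nat_lit 0x4000500060, nat_lit 0x111021, nat_lit 1, nat_lit 4, nat_lit 0x48⟩ (.nil) (.nil)
def t14_9701 : Tr := .node ⟨nat_lit 9, nat_lit 0x1000100011001100108, nat_lit 0x11011110, nat_lit 0, nat_lit 4, nat_lit 0x4a⟩ (.nil) (.nil)
def t14_5605 : Tr := .node ⟨nat_lit 7, nat_lit 0x20005000500060, nat_lit 0x101202, nat_lit 5, nat_lit 4, nat_lit 0x47⟩ (.nil) (.nil)
def t14_13797 : Tr := .node ⟨nat_lit 7, nat_lit 0x800500060, nat_lit 0x11020, nat_lit 0, nat_lit 4, nat_lit 0x47⟩ (.nil) (.nil)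
def t14_3557 : Tr := .node ⟨nat_lit 6, nat_lit 0x2800280030, nat_lit 0x1310, nat_lit 2, nat_lit 4, nat_lit 0x46⟩ (.nil) (.nil)
def t14_11749 : Tr := .node ⟨nat_lit 6, nat_lit 0x20002000100028, nat_lit 0x1040, nat_lit 4, nat_lit 4, nat_lit 0x47⟩ (.nil) (.nil)
def t14_7653 : Tr := .node ⟨nat_lit 6, nat_lit 0x20001000100028, nat_lit 0x1102, nat_lit 1, nat_lit 4, nat_lit 0x45⟩ (.nil) (.nil)
def t14_997 : Tr := .node ⟨nat_lit 4, nat_lit 0x80008000c, nat_lit 0x1012, nat_lit 9, nat_lit 4, nat_lit 0x46⟩ (.nil) (.nil)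
def t14_9189 : Tr := .node ⟨nat_lit 7, nat_lit 0x400020002000500060, nat_lit 0x23102, nat_lit 0, nat_lit 4, nat_lit 0x47⟩ (.nil) (.nil)
def t14_5093 : Tr := .node ⟨nat_lit 8, nat_lit 0xa000a0003000c0, nat_lit 0x1013110, nat_lit 0, nat_lit 4, nat_lit 0x47⟩ (.nil) (.nil)
def t14_13285 : Tr := .node ⟨nat_lit 8, nat_lit 0x800040004000200090, nat_lit 0x120000, nat_lit 1, nat_lit 4, nat_lit 0x48⟩ (.nil) (.nil)
def t14_3045 : Tr := .node ⟨nat_lit 5, nat_lit 0x100010001c, nat_lit 0x1121, nat_lit 4, nat_lit 4, nat_lit 0x46⟩ (.nil) (.nil)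
def t14_11237 : Tr := .node ⟨nat_lit 7, nat_lit 0x40001000680068, nat_lit 0x110030, nat_lit 0, nat_lit 4, nat_lit 0x45⟩ (.nil) (.nil)
def t14_7141 : Tr := .node ⟨nat_lit 7, nat_lit 0x4000100060, nat_lit 0x1111111, nat_lit 3, nat_lit 4, nat_lit 0x4a⟩ (.nil) (.nil)
def t14_15333 : Tr := .node ⟨nat_lit 7, nat_lit 0x40004000600060, nat_lit 0x21021, nat_lit 1, nat_lit 3, nat_lit 0x46⟩ (.nil) (.nil)
def t14_2021 : Tr := .node ⟨nat_lit 7, nat_lit 0x40002000200060, nat_lit 0x20321, nat_lit 0, nat_lit 4, nat_lit 0x49⟩ (.nil) (.nil)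
def t14_10213 : Tr := .node ⟨nat_lit 7, nat_lit 0x4000640064, nat_lit 0x11221, nat_lit 1, nat_lit 4, nat_lit 0x47⟩ (.nil) (.nil)
def t14_6117 : Tr := .node ⟨nat_lit 2, nat_lit 2, nat_lit 0x11, nat_lit 0xf, nat_lit 4, nat_lit 0x46⟩ (.nil) (.nil)
def t14_14309 : Tr := .node ⟨nat_lit 7, nat_lit 0x40001000600068, nat_lit 0x1001030, nat_lit 2, nat_lit 4, nat_lit 0x47⟩ (.nil) (.nil)
def t14_4069 : Tr := .node ⟨nat_lit 7, nat_lit 0x40004000100068, nat_lit 0x102001, nat_lit 0, nat_lit 4, nat_lit 0x47⟩ (.nil) (.nil)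
def t14_12261 : Tr := .node ⟨nat_lit 8, nat_lit 0x80002000c000d000e0, nat_lit 0x20013, nat_lit 1, nat_lit 4, nat_lit 0x46⟩ (.nil) (.nil)
def t14_8165 : Tr := .node ⟨nat_lit 7, nat_lit 0x400020002000200050, nat_lit 0x21004, nat_lit 0, nat_lit 4, nat_lit 0x47⟩ (.nil) (.nil)
def t9_485 : Tr := .node ⟨nat_lit 6, nat_lit 0x200030, nat_lit 0x13311, nat_lit 0, nat_lit 4, nat_lit 0x4a⟩ (.node ⟨nat_lit 5, nat_lit 0x180018, nat_lit 0x11121, nat_lit 0, nat_lit 3, nat_lit 0x45⟩ (.node ⟨nat_lit 5, nat_lit 0x80010, nat_lit 0x21112, nat_lit 1, nat_lit 4, nat_lit 0x48⟩ (.node ⟨nat_lit 8, nat_lit 0x8000400020, nat_lit 0x121002, nat_lit 0, nat_lit 4, nat_lit 0x4b⟩ (.node ⟨nat_lit 5, nat_lit 0x18, nat_lit 0x212, nat_lit 0, nat_lit 4, nat_lit 0x46⟩ (t14_485) (t14_8677)) (.node ⟨nat_lit 5, nat_lit 0x100010, nat_lit 0x11120, nat_lit 0xb, nat_lit 4, nat_lit 0x4a⟩ (t14_4581)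 (t14_12773))) (.node ⟨nat_lit 6, nat_lit 0x2000100010, nat_lit 0x111022, nat_lit 0, nat_lit 4, nat_lit 0x49⟩ (.node ⟨nat_lit 8, nat_lit 0x400020008000e0, nat_lit 0x1111103, nat_lit 0, nat_lit 4, nat_lit 0x49⟩ (t14_2533) (t14_10725)) (.node ⟨nat_lit 7, nat_lit 0x2000400040, nat_lit 0x121121, nat_lit 1, nat_lit 4, nat_lit 0x4a⟩ (t14_6629) (t14_14821)))) (.node ⟨nat_lit 5, nat_lit 0x18, nat_lit 0x20111, nat_lit 4, nat_lit 4, nat_lit 0x48⟩ (.node ⟨nat_lit 6, nat_lit 0x280030, nat_lit 0x112230, nat_lit 0, nat_lit 4, nat_lit 0x49⟩ (.node ⟨nat_lit 7, nat_lit 0x10004000600064, nat_lit 0x1000312, nat_lit 3, nat_lit 4, nat_lit 0x48⟩ (t14_1509) (t14_9701)) (.node ⟨nat_lit 8, nat_lit 0x80004000400020, nat_lit 0x1110210, nat_lit 3, nat_lit 4, nat_lit 0x4b⟩ (t14_5605) (t14_13797))) (.node ⟨nat_lit 7, nat_lit 0x20004000400040, nat_lit 0x122100, nat_lit 1, nat_lit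 4, nat_lit 0x49⟩ (.node ⟨nat_lit 7, nat_lit 0x800500060, nat_lit 0x10010, nat_lit 0, nat_lit 4, nat_lit 0x46⟩ (t14_3557) (t14_11749)) (.node ⟨nat_lit 7, nat_lit 0x40001000680070, nat_lit 0x1002021, nat_lit 0, nat_lit 4, nat_lit 0x46⟩ (t14_7653) (.nil))))) (.node ⟨nat_lit 6, nat_lit 0x2000100024, nat_lit 0x13203, nat_lit 0, nat_lit 4, nat_lit 0x48⟩ (.node ⟨nat_lit 6, nat_lit 0x200030, nat_lit 0x22220, nat_lit 0, nat_lit 4, nat_lit 0x49⟩ (.node ⟨nat_lit 7, nat_lit 0x200040, nat_lit 0x1111111, nat_lit 0, nat_lit 3, nat_lit 0x49⟩ (.node ⟨nat_lit 5, nat_lit 0x1000080014, nat_lit 0x11311, nat_lit 5, nat_lit 4, nat_lit 0x48⟩ (t14_997) (t14_9189)) (.node ⟨nat_lit 8, nat_lit 0x400040004000800082, nat_lit 0x20121110, nat_lit 0, nat_lit 4, nat_lit 0x4a⟩ (t14_5093) (t14_13285))) (.node ⟨nat_lit 4, nat_lit 0x40008, nat_lit 0x122, nat_lit 3, nat_lit 4, nat_lit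 0x45⟩ (.node ⟨nat_lit 5, nat_lit 0x180018, nat_lit 0x20211, nat_lit 2, nat_lit 3, nat_lit 0x46⟩ (t14_3045) (t14_11237)) (.node ⟨nat_lit 7, nat_lit 0x40002000500064, nat_lit 0x111020, nat_lit 2, nat_lit 4, nat_lit 0x47⟩ (t14_7141) (t14_15333)))) (.node ⟨nat_lit 6, nat_lit 0x200032, nat_lit 0x201111, nat_lit 3, nat_lit 4, nat_lit 0x49⟩ (.node ⟨nat_lit 6, nat_lit 0x200022, nat_lit 0x211111, nat_lit 3, nat_lit 4, nat_lit 0x4a⟩ (.node ⟨nat_lit 7, nat_lit 0x400060, nat_lit 0x1011131, nat_lit 3, nat_lit 4, nat_lit 0x4b⟩ (t14_2021) (t14_10213)) (.node ⟨nat_lit 7, nat_lit 0x20004000440030, nat_lit 0x1000210, nat_lit 0, nat_lit 4, nat_lit 0x47⟩ (t14_6117) (t14_14309))) (.node ⟨nat_lit 4, nat_lit 8, nat_lit 0x2213, nat_lit 7, nat_lit 4, nat_lit 0x4a⟩ (.node ⟨nat_lit 6, nat_lit 0x300030, nat_lit 0x100010, nat_lit 1, nat_lit 4, nat_lit 0x46⟩ (t14_4069) (t14_12261))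 (.node ⟨nat_lit 9, nat_lit 0x1000100008000800110, nat_lit 0x11100210, nat_lit 2, nat_lit 4, nat_lit 0x4b⟩ (t14_8165) (.nil)))))
def t14_21 : Tr := .node ⟨nat_lit 7, nat_lit 0x40004000100020, nat_lit 0x111010, nat_lit 5, nat_lit 4, nat_lit 0x49⟩ (.nil) (.nil)
def t14_8213 : Tr := .node ⟨nat_lit 7, nat_lit 0x400040002000200060, nat_lit 0x1011103, nat_lit 0, nat_lit 3, nat_lit 0x46⟩ (.nil) (.nil)
def t14_4117 : Tr := .node ⟨nat_lit 6, nat_lit 0x1000200038, nat_lit 0x102212, nat_lit 1, nat_lit 4, nat_lit 0x47⟩ (.nil) (.nil)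
def t14_12309 : Tr := .node ⟨nat_lit 8, nat_lit 0x2000c000a000a0, nat_lit 0x11130, nat_lit 1, nat_lit 4, nat_lit 0x48⟩ (.nil) (.nil)
def t14_2069 : Tr := .node ⟨nat_lit 6, nat_lit 0x2000200010, nat_lit 0x11320, nat_lit 2, nat_lit 4, nat_lit 0x49⟩ (.nil) (.nil)
def t14_10261 : Tr := .node ⟨nat_lit 8, nat_lit 0x8000800090006000d0, nat_lit 0x10001022, nat_lit 1, nat_lit 4, nat_lit 0x47⟩ (.nil) (.nil)
def t14_6165 : Tr := .node ⟨nat_lit 7, nat_lit 0x20004000400044, nat_lit 0x10000, nat_lit 3, nat_lit 4, nat_lit 0x47⟩ (.nil) (.nil)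
def t14_14357 : Tr := .node ⟨nat_lit 6, nat_lit 0x200022, nat_lit 0x11, nat_lit 0, nat_lit 4, nat_lit 0x46⟩ (.nil) (.nil)
def t14_1045 : Tr := .node ⟨nat_lit 3, nat_lit 4, nat_lit 0x22, nat_lit 8, nat_lit 4, nat_lit 0x46⟩ (.nil) (.nil)
def t14_9237 : Tr := .node ⟨nat_lit 8, nat_lit 0x800040009000a000c0, nat_lit 0x110112, nat_lit 4, nat_lit 4, nat_lit 0x48⟩ (.nil) (.nil)
def t14_5141 : Tr := .node ⟨nat_lit 8, nat_lit 0x400040008000c000a0, nat_lit 0x110031, nat_lit 1, nat_lit 4, nat_lit 0x48⟩ (.nil) (.nil)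
def t14_13333 : Tr := .node ⟨nat_lit 7, nat_lit 0x40005000300060, nat_lit 0x203, nat_lit 2, nat_lit 4, nat_lit 0x46⟩ (.nil) (.nil)
def t14_3093 : Tr := .node ⟨nat_lit 7, nat_lit 0x20002000500068, nat_lit 0x1011201, nat_lit 0, nat_lit 4, nat_lit 0x47⟩ (.nil) (.nil)
def t14_11285 : Tr := .node ⟨nat_lit 6, nat_lit 0x2000300030, nat_lit 0x11120, nat_lit 6, nat_lit 4, nat_lit 0x48⟩ (.nil) (.nil)
def t14_7189 : Tr := .node ⟨nat_lit 8, nat_lit 0x20004000a000c0, nat_lit 0x1111111, nat_lit 1, nat_lit 4, nat_lit 0x49⟩ (.nil) (.nil)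
def t14_15381 : Tr := .node ⟨nat_lit 9, nat_lit 0x100010801800140, nat_lit 0x112010, nat_lit 2, nat_lit 4, nat_lit 0x4a⟩ (.nil) (.nil)
def t14_533 : Tr := .node ⟨nat_lit 5, nat_lit 0x80010, nat_lit 0x203, nat_lit 3, nat_lit 3, nat_lit 0x46⟩ (.nil) (.nil)
def t14_8725 : Tr := .node ⟨nat_lit 7, nat_lit 0x40003000500068, nat_lit 0x2001, nat_lit 0, nat_lit 4, nat_lit 0x45⟩ (.nil) (.nil)
def t14_4629 : Tr := .node ⟨nat_lit 7, nat_lit 0x10002000500060, nat_lit 0x112012, nat_lit 2, nat_lit 4, nat_lit 0x48⟩ (.nil) (.nil)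
def t14_12821 : Tr := .node ⟨nat_lit 7, nat_lit 0x40004000200060, nat_lit 0x12020, nat_lit 2, nat_lit 4, nat_lit 0x48⟩ (.nil) (.nil)
def t14_2581 : Tr := .node ⟨nat_lit 7, nat_lit 0x10001000400060, nat_lit 0x112012, nat_lit 0, nat_lit 4, nat_lit 0x48⟩ (.nil) (.nil)
def t14_10773 : Tr := .node ⟨nat_lit 8, nat_lit 0x10001000c000a0, nat_lit 0x1022, nat_lit 0, nat_lit 4, nat_lit 0x47⟩ (.nil) (.nil)
def t14_6677 : Tr := .node ⟨nat_lit 7, nat_lit 0x40004000400020, nat_lit 0x111101, nat_lit 3, nat_lit 4, nat_lit 0x49⟩ (.nil) (.nil)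
def t14_14869 : Tr := .node ⟨nat_lit 5, nat_lit 0x1000100010, nat_lit 0x2211, nat_lit 0xa, nat_lit 4, nat_lit 0x49⟩ (.nil) (.nil)
def t14_1557 : Tr := .node ⟨nat_lit 7, nat_lit 0x400020002000500050, nat_lit 0x1011011, nat_lit 1, nat_lit 4, nat_lit 0x47⟩ (.nil) (.nil)
def t14_9749 : Tr := .node ⟨nat_lit 8, nat_lit 0x8000800040009000d0, nat_lit 0x101200, nat_lit 0, nat_lit 4, nat_lit 0x47⟩ (.nil) (.nil)
def t14_5653 : Tr := .node ⟨nat_lit 8, nat_lit 0x800020002000c000c0, nat_lit 0x11020, nat_lit 1, nat_lit 4, nat_lit 0x47⟩ (.nil) (.nil)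
def t14_13845 : Tr := .node ⟨nat_lit 7, nat_lit 0x20001000400040, nat_lit 0x2200, nat_lit 0, nat_lit 4, nat_lit 0x47⟩ (.nil) (.nil)
def t14_3605 : Tr := .node ⟨nat_lit 6, nat_lit 0x800200030, nat_lit 0x102112, nat_lit 2, nat_lit 3, nat_lit 0x47⟩ (.nil) (.nil)
def t14_11797 : Tr := .node ⟨nat_lit 6, nat_lit 0x80030, nat_lit 0x100023, nat_lit 0, nat_lit 4, nat_lit 0x47⟩ (.nil) (.nil)
def t14_7701 : Tr := .node ⟨nat_lit 6, nat_lit 0x2000100024, nat_lit 0x11002, nat_lit 2, nat_lit 4, nat_lit 0x46⟩ (.nil) (.nil)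
def t9_21 : Tr := .node ⟨nat_lit 4, nat_lit 0xc, nat_lit 0x3121, nat_lit 2, nat_lit 3, nat_lit 0x47⟩ (.node ⟨nat_lit 5, nat_lit 0x100018, nat_lit 0x11330, nat_lit 1, nat_lit 3, nat_lit 0x47⟩ (.node ⟨nat_lit 7, nat_lit 0x5000600060, nat_lit 0x31120, nat_lit 1, nat_lit 4, nat_lit 0x48⟩ (.node ⟨nat_lit 7, nat_lit 0x1000400060, nat_lit 0x1002011, nat_lit 3, nat_lit 4, nat_lit 0x49⟩ (.node ⟨nat_lit 5, nat_lit 0x1000100008, nat_lit 0x2223, nat_lit 3, nat_lit 4, nat_lit 0x48⟩ (t14_21) (t14_8213)) (.node ⟨nat_lit 6, nat_lit 0x200022, nat_lit 0x111000, nat_lit 0, nat_lit 4, nat_lit 0x47⟩ (t14_4117) (t14_12309))) (.node ⟨nat_lit 6, nat_lit 0x800080030, nat_lit 0x310204, nat_lit 0, nat_lit 4, nat_lit 0x49⟩ (.node ⟨nat_lit 6, nat_lit 0x20002000100010, nat_lit 0x113131, nat_lit 1, nat_lit 4, nat_lit 0x49⟩ (t14_2069) (t14_10261)) (.node ⟨nat_lit 8, nat_lit 0x400080002000c000c0,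 nat_lit 0x122010, nat_lit 0, nat_lit 4, nat_lit 0x48⟩ (t14_6165) (t14_14357)))) (.node ⟨nat_lit 3, nat_lit 6, nat_lit 0x210, nat_lit 2, nat_lit 3, nat_lit 0x44⟩ (.node ⟨nat_lit 5, nat_lit 0x180018, nat_lit 0x21221, nat_lit 3, nat_lit 4, nat_lit 0x48⟩ (.node ⟨nat_lit 7, nat_lit 0x1000600060, nat_lit 0x1111131, nat_lit 0, nat_lit 4, nat_lit 0x49⟩ (t14_1045) (t14_9237)) (.node ⟨nat_lit 6, nat_lit 0x2000200030, nat_lit 0x112002, nat_lit 1, nat_lit 3, nat_lit 0x47⟩ (t14_5141) (t14_13333))) (.node ⟨nat_lit 7, nat_lit 0x20004000100044, nat_lit 0x2010201, nat_lit 0, nat_lit 4, nat_lit 0x49⟩ (.node ⟨nat_lit 6, nat_lit 0x100020, nat_lit 0x111000, nat_lit 1, nat_lit 4, nat_lit 0x48⟩ (t14_3093) (t14_11285)) (.node ⟨nat_lit 4, nat_lit 0x80004, nat_lit 0x122, nat_lit 5, nat_lit 4, nat_lit 0x46⟩ (t14_7189) (t14_15381))))) (.node ⟨nat_lit 5, nat_lit 0x18, nat_lit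 0x22320, nat_lit 0, nat_lit 4, nat_lit 0x4a⟩ (.node ⟨nat_lit 5, nat_lit 0x18, nat_lit 0x21211, nat_lit 1, nat_lit 4, nat_lit 0x48⟩ (.node ⟨nat_lit 8, nat_lit 0x80004000200020, nat_lit 0x20010, nat_lit 5, nat_lit 4, nat_lit 0x4a⟩ (.node ⟨nat_lit 8, nat_lit 0x80002000400088, nat_lit 0x11120110, nat_lit 0, nat_lit 4, nat_lit 0x4a⟩ (t14_533) (t14_8725)) (.node ⟨nat_lit 7, nat_lit 0x10004000400060, nat_lit 0x1100202, nat_lit 3, nat_lit 4, nat_lit 0x49⟩ (t14_4629) (t14_12821))) (.node ⟨nat_lit 5, nat_lit 0x100018001c, nat_lit 0x1031, nat_lit 4, nat_lit 4, nat_lit 0x45⟩ (.node ⟨nat_lit 5, nat_lit 0x100018, nat_lit 0x11130, nat_lit 9, nat_lit 4, nat_lit 0x49⟩ (t14_2581) (t14_10773)) (.node ⟨nat_lit 9, nat_lit 0x1000100011001100110, nat_lit 0x21100200, nat_lit 1, nat_lit 4, nat_lit 0x4a⟩ (t14_6677) (t14_14869)))) (.node ⟨nat_lit 4, nat_lit 0x40008, nat_lit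 0x1212, nat_lit 4, nat_lit 3, nat_lit 0x46⟩ (.node ⟨nat_lit 6, nat_lit 0x2000080034, nat_lit 0x231101, nat_lit 1, nat_lit 4, nat_lit 0x49⟩ (.node ⟨nat_lit 7, nat_lit 0x40001000100060, nat_lit 0x1003101, nat_lit 1, nat_lit 4, nat_lit 0x48⟩ (t14_1557) (t14_9749)) (.node ⟨nat_lit 7, nat_lit 0x800500060, nat_lit 0x1121021, nat_lit 0, nat_lit 4, nat_lit 0x49⟩ (t14_5653) (t14_13845))) (.node ⟨nat_lit 4, nat_lit 0x8000c, nat_lit 0x212, nat_lit 6, nat_lit 4, nat_lit 0x46⟩ (.node ⟨nat_lit 7, nat_lit 0x20004000640068, nat_lit 0x1110000, nat_lit 0, nat_lit 4, nat_lit 0x46⟩ (t14_3605) (t14_11797)) (.node ⟨nat_lit 8, nat_lit 0x800040004000200090, nat_lit 0x10121000, nat_lit 1, nat_lit 4, nat_lit 0x49⟩ (t14_7701) (.nil)))))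
def t14_277 : Tr := .node ⟨nat_lit 8, nat_lit 0x6000c000c000a0, nat_lit 0x111221, nat_lit 0, nat_lit 4, nat_lit 0x47⟩ (.nil) (.nil)
def t14_8469 : Tr := .node ⟨nat_lit 7, nat_lit 0x2000500060, nat_lit 0x21, nat_lit 0, nat_lit 4, nat_lit 0x46⟩ (.nil) (.nil)
def t14_4373 : Tr := .node ⟨nat_lit 9, nat_lit 0x10001000080004001200110, nat_lit 0x111111010, nat_lit 0, nat_lit 4, nat_lit 0x4a⟩ (.nil) (.nil)
def t14_12565 : Tr := .node ⟨nat_lit 6, nat_lit 0x2000300028, nat_lit 0x10140, nat_lit 3, nat_lit 4, nat_lit 0x47⟩ (.nil) (.nil)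
def t14_2325 : Tr := .node ⟨nat_lit 5, nat_lit 0x10001a, nat_lit 0x2120, nat_lit 4, nat_lit 4, nat_lit 0x47⟩ (.nil) (.nil)
def t14_10517 : Tr := .node ⟨nat_lit 8, nat_lit 0x40001000a000c0, nat_lit 0x10002, nat_lit 2, nat_lit 4, nat_lit 0x48⟩ (.nil) (.nil)
def t14_6421 : Tr := .node ⟨nat_lit 7, nat_lit 0x100060, nat_lit 0x1111110, nat_lit 0, nat_lit 4, nat_lit 0x4a⟩ (.nil) (.nil)
def t14_14613 : Tr := .node ⟨nat_lit 6, nat_lit 0x200020002000300030, nat_lit 0x11111, nat_lit 0xa, nat_lit 4, nat_lit 0x48⟩ (.nil) (.nil)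
def t14_1301 : Tr := .node ⟨nat_lit 7, nat_lit 0x40002000500068, nat_lit 0x1001112, nat_lit 3, nat_lit 4, nat_lit 0x47⟩ (.nil) (.nil)
def t14_9493 : Tr := .node ⟨nat_lit 8, nat_lit 0x800020009000c000c0, nat_lit 0x1111021, nat_lit 0, nat_lit 4, nat_lit 0x48⟩ (.nil) (.nil)
def t14_5397 : Tr := .node ⟨nat_lit 5, nat_lit 0x100018, nat_lit 0x1132, nat_lit 6, nat_lit 4, nat_lit 0x48⟩ (.nil) (.nil)
def t14_13589 : Tr := .node ⟨nat_lit 8, nat_lit 0x800080002000400040, nat_lit 0x20200, nat_lit 0, nat_lit 4, nat_lit 0x48⟩ (.nil) (.nil)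
def t14_3349 : Tr := .node ⟨nat_lit 7, nat_lit 0x40002000100060, nat_lit 0x100122, nat_lit 1, nat_lit 3, nat_lit 0x46⟩ (.nil) (.nil)
def t14_11541 : Tr := .node ⟨nat_lit 6, nat_lit 0x1000200034, nat_lit 0x1302, nat_lit 3, nat_lit 4, nat_lit 0x47⟩ (.nil) (.nil)
def t14_7445 : Tr := .node ⟨nat_lit 6, nat_lit 0x200030, nat_lit 0x101111, nat_lit 9, nat_lit 4, nat_lit 0x4a⟩ (.nil) (.nil)
def t14_789 : Tr := .node ⟨nat_lit 6, nat_lit 0x20002000100028, nat_lit 0x13111, nat_lit 3, nat_lit 4, nat_lit 0x48⟩ (.nil) (.nil)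
def t14_8981 : Tr := .node ⟨nat_lit 9, nat_lit 0x100010000800080014001400120, nat_lit 0x1110201, nat_lit 1, nat_lit 4, nat_lit 0x48⟩ (.nil) (.nil)
def t14_4885 : Tr := .node ⟨nat_lit 6, nat_lit 0x200020, nat_lit 0x111110, nat_lit 9, nat_lit 4, nat_lit 0x4b⟩ (.nil) (.nil)
def t14_13077 : Tr := .node ⟨nat_lit 5, nat_lit 0x1000100008, nat_lit 0x20000, nat_lit 4, nat_lit 3, nat_lit 0x46⟩ (.nil) (.nil)
def t14_2837 : Tr := .node ⟨nat_lit 7, nat_lit 0x1000100060, nat_lit 0x11100, nat_lit 0, nat_lit 4, nat_lit 0x48⟩ (.nil) (.nil)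
def t14_11029 : Tr := .node ⟨nat_lit 7, nat_lit 0x40001000600060, nat_lit 0x1011120, nat_lit 3, nat_lit 4, nat_lit 0x48⟩ (.nil) (.nil)
def t14_6933 : Tr := .node ⟨nat_lit 7, nat_lit 0x40001000680070, nat_lit 0x2101021, nat_lit 1, nat_lit 4, nat_lit 0x47⟩ (.nil) (.nil)
def t14_15125 : Tr := .node ⟨nat_lit 7, nat_lit 0x40003000580068, nat_lit 0x1101, nat_lit 1, nat_lit 4, nat_lit 0x44⟩ (.nil) (.nil)
def t14_1813 : Tr := .node ⟨nat_lit 6, nat_lit 0x800300028, nat_lit 0x112202, nat_lit 0, nat_lit 4, nat_lit 0x48⟩ (.nil) (.nil)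
def t14_10005 : Tr := .node ⟨nat_lit 7, nat_lit 0x30005000500060, nat_lit 0x103201, nat_lit 2, nat_lit 4, nat_lit 0x46⟩ (.nil) (.nil)
def t14_5909 : Tr := .node ⟨nat_lit 8, nat_lit 0x800080004000c0, nat_lit 0x1111012, nat_lit 1, nat_lit 4, nat_lit 0x4a⟩ (.nil) (.nil)
def t14_14101 : Tr := .node ⟨nat_lit 6, nat_lit 0x800200030, nat_lit 0x111, nat_lit 3, nat_lit 4, nat_lit 0x46⟩ (.nil) (.nil)
def t14_3861 : Tr := .node ⟨nat_lit 7, nat_lit 0x3000500060, nat_lit 0x1111210, nat_lit 1, nat_lit 4, nat_lit 0x48⟩ (.nil) (.nil)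
def t14_12053 : Tr := .node ⟨nat_lit 6, nat_lit 0x1000200030, nat_lit 0x11020, nat_lit 1, nat_lit 4, nat_lit 0x47⟩ (.nil) (.nil)
def t14_7957 : Tr := .node ⟨nat_lit 0xa, nat_lit 0x100020002000080021002100220, nat_lit 0x10210, nat_lit 3, nat_lit 4, nat_lit 0x49⟩ (.nil) (.nil)
def t9_277 : Tr := .node ⟨nat_lit 5, nat_lit 0x80010, nat_lit 0x20310, nat_lit 2, nat_lit 4, nat_lit 0x48⟩ (.node ⟨nat_lit 5, nat_lit 0x1000140014, nat_lit 0x31121, nat_lit 6, nat_lit 4, nat_lit 0x49⟩ (.node ⟨nat_lit 5, nat_lit 0x80010, nat_lit 0x31110, nat_lit 0, nat_lit 4, nat_lit 0x48⟩ (.node ⟨nat_lit 6, nat_lit 0x200010, nat_lit 0x12103, nat_lit 3, nat_lit 4, nat_lit 0x4a⟩ (.node ⟨nat_lit 7, nat_lit 0x10004000600064, nat_lit 0x2100121, nat_lit 1, nat_lit 4, nat_lit 0x48⟩ (t14_277) (t14_8469)) (.node ⟨nat_lit 6, nat_lit 0x20002000100010, nat_lit 0x11040, nat_lit 4, nat_lit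 3, nat_lit 0x47⟩ (t14_4373) (t14_12565))) (.node ⟨nat_lit 5, nat_lit 0x100018001c, nat_lit 0x20222, nat_lit 6, nat_lit 4, nat_lit 0x47⟩ (.node ⟨nat_lit 7, nat_lit 0x40001000600050, nat_lit 0x13303, nat_lit 0, nat_lit 4, nat_lit 0x48⟩ (t14_2325) (t14_10517)) (.node ⟨nat_lit 5, nat_lit 0x100010, nat_lit 0x2122, nat_lit 7, nat_lit 4, nat_lit 0x49⟩ (t14_6421) (t14_14613)))) (.node ⟨nat_lit 5, nat_lit 0x10001a, nat_lit 0x21111, nat_lit 5, nat_lit 4, nat_lit 0x48⟩ (.node ⟨nat_lit 6, nat_lit 0x800100020, nat_lit 0x122111, nat_lit 4, nat_lit 4, nat_lit 0x4a⟩ (.node ⟨nat_lit 6, nat_lit 0x20001000100028, nat_lit 0x111104, nat_lit 0, nat_lit 4, nat_lit 0x47⟩ (t14_1301) (t14_9493)) (.node ⟨nat_lit 6, nat_lit 0x280030, nat_lit 0x112112, nat_lit 3, nat_lit 4, nat_lit 0x49⟩ (t14_5397) (t14_13589))) (.node ⟨nat_lit 5, nat_lit 0x1000080014, nat_lit 0x1202, nat_lit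 3, nat_lit 4, nat_lit 0x46⟩ (.node ⟨nat_lit 7, nat_lit 0x40002000500060, nat_lit 0x110031, nat_lit 0, nat_lit 4, nat_lit 0x47⟩ (t14_3349) (t14_11541)) (.node ⟨nat_lit 5, nat_lit 0x800100018, nat_lit 0x11112, nat_lit 9, nat_lit 4, nat_lit 0x48⟩ (t14_7445) (.nil))))) (.node ⟨nat_lit 6, nat_lit 0x200030, nat_lit 0x13101, nat_lit 2, nat_lit 3, nat_lit 0x48⟩ (.node ⟨nat_lit 6, nat_lit 0x800300030, nat_lit 0x102210, nat_lit 1, nat_lit 4, nat_lit 0x47⟩ (.node ⟨nat_lit 5, nat_lit 0x1c, nat_lit 0x10012, nat_lit 1, nat_lit 4, nat_lit 0x45⟩ (.node ⟨nat_lit 7, nat_lit 0x1000200040, nat_lit 0x2121011, nat_lit 1, nat_lit 4, nat_lit 0x4b⟩ (t14_789) (t14_8981)) (.node ⟨nat_lit 7, nat_lit 0x400040002000200050, nat_lit 0x1111201, nat_lit 4, nat_lit 4, nat_lit 0x49⟩ (t14_4885) (t14_13077))) (.node ⟨nat_lit 7, nat_lit 0x40002000100060, nat_lit 0x110212, nat_lit 0,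 nat_lit 4, nat_lit 0x48⟩ (.node ⟨nat_lit 7, nat_lit 0x4000200020, nat_lit 0x1111030, nat_lit 3, nat_lit 4, nat_lit 0x4b⟩ (t14_2837) (t14_11029)) (.node ⟨nat_lit 8, nat_lit 0x800080004000400020, nat_lit 0x1110221, nat_lit 0, nat_lit 4, nat_lit 0x4a⟩ (t14_6933) (t14_15125)))) (.node ⟨nat_lit 5, nat_lit 0x1000100014, nat_lit 0x11212, nat_lit 4, nat_lit 4, nat_lit 0x48⟩ (.node ⟨nat_lit 6, nat_lit 0x200020, nat_lit 0x121110, nat_lit 3, nat_lit 4, nat_lit 0x4a⟩ (.node ⟨nat_lit 6, nat_lit 0x2000100008, nat_lit 0x210030, nat_lit 0, nat_lit 3, nat_lit 0x47⟩ (t14_1813) (t14_10005)) (.node ⟨nat_lit 7, nat_lit 0x20001000500068, nat_lit 0x1211021, nat_lit 0, nat_lit 4, nat_lit 0x48⟩ (t14_5909) (t14_14101))) (.node ⟨nat_lit 6, nat_lit 0x2000080030, nat_lit 0x201112, nat_lit 1, nat_lit 4, nat_lit 0x48⟩ (.node ⟨nat_lit 7, nat_lit 0x3000600050, nat_lit 0x1011103,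 nat_lit 1, nat_lit 4, nat_lit 0x48⟩ (t14_3861) (t14_12053)) (.node ⟨nat_lit 6, nat_lit 0x2000080030, nat_lit 0x111310, nat_lit 0, nat_lit 4, nat_lit 0x48⟩ (t14_7957) (.nil)))))
def t14_149 : Tr := .node ⟨nat_lit 7, nat_lit 0x20006000500068, nat_lit 0x1111211, nat_lit 0, nat_lit 4, nat_lit 0x47⟩ (.nil) (.nil)
def t14_8341 : Tr := .node ⟨nat_lit 6, nat_lit 0x2000080030, nat_lit 0, nat_lit 0, nat_lit 4, nat_lit 0x44⟩ (.nil) (.nil)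
def t14_4245 : Tr := .node ⟨nat_lit 7, nat_lit 0x40004000100060, nat_lit 0x121120, nat_lit 1, nat_lit 4, nat_lit 0x49⟩ (.nil) (.nil)
def t14_12437 : Tr := .node ⟨nat_lit 7, nat_lit 0x20004000100068, nat_lit 0x11100, nat_lit 0, nat_lit 4, nat_lit 0x46⟩ (.nil) (.nil)
def t14_2197 : Tr := .node ⟨nat_lit 8, nat_lit 0x40002000a000d000d0, nat_lit 0x2010220, nat_lit 0, nat_lit 4, nat_lit 0x47⟩ (.nil) (.nil)
def t14_10389 : Tr := .node ⟨nat_lit 8, nat_lit 0x800090009000c000d0, nat_lit 0x10100022, nat_lit 1, nat_lit 4, nat_lit 0x47⟩ (.nil) (.nil)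
def t14_6293 : Tr := .node ⟨nat_lit 8, nat_lit 0x800040002000200020, nat_lit 0x220, nat_lit 1, nat_lit 4, nat_lit 0x49⟩ (.nil) (.nil)
def t14_14485 : Tr := .node ⟨nat_lit 8, nat_lit 0x80002000c000d000d0, nat_lit 0x111210, nat_lit 0, nat_lit 4, nat_lit 0x46⟩ (.nil) (.nil)
def t14_1173 : Tr := .node ⟨nat_lit 7, nat_lit 0x6000500018, nat_lit 0x1121, nat_lit 1, nat_lit 4, nat_lit 0x46⟩ (.nil) (.nil)
def t14_9365 : Tr := .node ⟨nat_lit 8, nat_lit 0x80002000c000a000d0, nat_lit 0x1021211, nat_lit 0, nat_lit 4, nat_lit 0x47⟩ (.nil) (.nil)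
def t14_5269 : Tr := .node ⟨nat_lit 7, nat_lit 0x20002000500060, nat_lit 0x1021003, nat_lit 0, nat_lit 4, nat_lit 0x48⟩ (.nil) (.nil)
def t14_13461 : Tr := .node ⟨nat_lit 6, nat_lit 0x200030, nat_lit 0x1130, nat_lit 5, nat_lit 4, nat_lit 0x49⟩ (.nil) (.nil)
def t14_3221 : Tr := .node ⟨nat_lit 8, nat_lit 0x200080003000a000c0, nat_lit 0x1011021, nat_lit 0, nat_lit 4, nat_lit 0x47⟩ (.nil) (.nil)
def t14_11413 : Tr := .node ⟨nat_lit 7, nat_lit 0x10002000400042, nat_lit 0x1010100, nat_lit 1, nat_lit 4, nat_lit 0x47⟩ (.nil) (.nil)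
def t14_7317 : Tr := .node ⟨nat_lit 8, nat_lit 0x8000800040004000c4, nat_lit 0x1100212, nat_lit 0, nat_lit 4, nat_lit 0x49⟩ (.nil) (.nil)
def t14_15509 : Tr := .node ⟨nat_lit 7, nat_lit 0x20004000600050, nat_lit 0x111011, nat_lit 0, nat_lit 4, nat_lit 0x47⟩ (.nil) (.nil)
def t14_661 : Tr := .node ⟨nat_lit 7, nat_lit 0x40001000100060, nat_lit 0x203101, nat_lit 0, nat_lit 4, nat_lit 0x48⟩ (.nil) (.nil)
def t14_8853 : Tr := .node ⟨nat_lit 7, nat_lit 0x10002000400064, nat_lit 0x100030, nat_lit 1, nat_lit 4, nat_lit 0x47⟩ (.nil) (.nil)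
def t14_4757 : Tr := .node ⟨nat_lit 7, nat_lit 0x40001000200048, nat_lit 0x1001200, nat_lit 0, nat_lit 4, nat_lit 0x47⟩ (.nil) (.nil)
def t14_12949 : Tr := .node ⟨nat_lit 8, nat_lit 0x400080002000c0, nat_lit 0x112010, nat_lit 0, nat_lit 4, nat_lit 0x49⟩ (.nil) (.nil)
def t14_2709 : Tr := .node ⟨nat_lit 7, nat_lit 0x40001000680068, nat_lit 0x110031, nat_lit 0, nat_lit 4, nat_lit 0x45⟩ (.nil) (.nil)
def t14_10901 : Tr := .node ⟨nat_lit 6, nat_lit 0x20001000100030, nat_lit 0x2303, nat_lit 2, nat_lit 4, nat_lit 0x47⟩ (.nil) (.nil)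
def t14_6805 : Tr := .node ⟨nat_lit 7, nat_lit 0x40002000500064, nat_lit 0x121001, nat_lit 1, nat_lit 4, nat_lit 0x47⟩ (.nil) (.nil)
def t14_14997 : Tr := .node ⟨nat_lit 8, nat_lit 0x800090009000c000a0, nat_lit 0x1111101, nat_lit 3, nat_lit 4, nat_lit 0x48⟩ (.nil) (.nil)
def t14_1685 : Tr := .node ⟨nat_lit 8, nat_lit 0x8000800040004000a000c0, nat_lit 0x211012, nat_lit 0, nat_lit 4, nat_lit 0x48⟩ (.nil) (.nil)
def t14_9877 : Tr := .node ⟨nat_lit 4, nat_lit 0x800080008, nat_lit 0x322, nat_lit 9, nat_lit 4, nat_lit 0x48⟩ (.nil) (.nil)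
def t14_5781 : Tr := .node ⟨nat_lit 6, nat_lit 0x80030, nat_lit 0x100102, nat_lit 5, nat_lit 4, nat_lit 0x48⟩ (.nil) (.nil)
def t14_13973 : Tr := .node ⟨nat_lit 7, nat_lit 0x40002000100068, nat_lit 0x12110, nat_lit 1, nat_lit 4, nat_lit 0x47⟩ (.nil) (.nil)
def t14_3733 : Tr := .node ⟨nat_lit 9, nat_lit 0x8001000100010000400110, nat_lit 0x11012000, nat_lit 1, nat_lit 4, nat_lit 0x4a⟩ (.nil) (.nil)
def t14_11925 : Tr := .node ⟨nat_lit 6, nat_lit 0x2000080030, nat_lit 0x10230, nat_lit 2, nat_lit 4, nat_lit 0x47⟩ (.nil) (.nil)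
def t14_7829 : Tr := .node ⟨nat_lit 6, nat_lit 0x200022, nat_lit 0x21123, nat_lit 1, nat_lit 4, nat_lit 0x49⟩ (.nil) (.nil)
def t9_149 : Tr := .node ⟨nat_lit 6, nat_lit 0x20, nat_lit 0x321111, nat_lit 0, nat_lit 4, nat_lit 0x4c⟩ (.node ⟨nat_lit 5, nat_lit 0x100018, nat_lit 0x11212, nat_lit 1, nat_lit 3, nat_lit 0x46⟩ (.node ⟨nat_lit 7, nat_lit 0x40002000480068, nat_lit 0x3010102, nat_lit 0, nat_lit 4, nat_lit 0x48⟩ (.node ⟨nat_lit 5, nat_lit 0, nat_lit 0x21100, nat_lit 0, nat_lit 4, nat_lit 0x48⟩ (.node ⟨nat_lit 6, nat_lit 0x800300030, nat_lit 0x112220, nat_lit 0, nat_lit 4, nat_lit 0x48⟩ (t14_149) (t14_8341)) (.node ⟨nat_lit 7, nat_lit 0x40001000600070, nat_lit 0x10023, nat_lit 2, nat_lit 4, nat_lit 0x46⟩ (t14_4245) (t14_12437))) (.node ⟨nat_lit 6, nat_lit 0x2000200030, nat_lit 0x12111, nat_lit 3, nat_lit 4, nat_lit 0x48⟩ (.node ⟨nat_lit 7, nat_lit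 0x20004000440030, nat_lit 0x1002200, nat_lit 0, nat_lit 4, nat_lit 0x47⟩ (t14_2197) (t14_10389)) (.node ⟨nat_lit 5, nat_lit 0x140018, nat_lit 0x12120, nat_lit 7, nat_lit 4, nat_lit 0x48⟩ (t14_6293) (t14_14485)))) (.node ⟨nat_lit 6, nat_lit 0x200020, nat_lit 0x22110, nat_lit 0, nat_lit 3, nat_lit 0x48⟩ (.node ⟨nat_lit 6, nat_lit 0x800300030, nat_lit 0x211121, nat_lit 1, nat_lit 4, nat_lit 0x48⟩ (.node ⟨nat_lit 5, nat_lit 0x1000080014, nat_lit 0x11310, nat_lit 5, nat_lit 4, nat_lit 0x48⟩ (t14_1173) (t14_9365)) (.node ⟨nat_lit 7, nat_lit 0x2000500060, nat_lit 0x1012012, nat_lit 3, nat_lit 4, nat_lit 0x49⟩ (t14_5269) (t14_13461))) (.node ⟨nat_lit 6, nat_lit 0x10002000340038, nat_lit 0x102200, nat_lit 5, nat_lit 4, nat_lit 0x46⟩ (.node ⟨nat_lit 6, nat_lit 0x2000080030, nat_lit 0x102310, nat_lit 3, nat_lit 4, nat_lit 0x49⟩ (t14_3221) (t14_11413)) (.node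 ⟨nat_lit 7, nat_lit 0x1000400060, nat_lit 0x1001010, nat_lit 1, nat_lit 4, nat_lit 0x48⟩ (t14_7317) (t14_15509))))) (.node ⟨nat_lit 6, nat_lit 0x2000080030, nat_lit 0x23021, nat_lit 0, nat_lit 4, nat_lit 0x49⟩ (.node ⟨nat_lit 7, nat_lit 0x4000400020, nat_lit 0x211102, nat_lit 0, nat_lit 4, nat_lit 0x4a⟩ (.node ⟨nat_lit 5, nat_lit 0x18, nat_lit 0x21221, nat_lit 1, nat_lit 3, nat_lit 0x48⟩ (.node ⟨nat_lit 4, nat_lit 0x8000c, nat_lit 0x2102, nat_lit 7, nat_lit 4, nat_lit 0x47⟩ (t14_661) (t14_8853)) (.node ⟨nat_lit 8, nat_lit 0x800040009000d000c8, nat_lit 0x1112101, nat_lit 0, nat_lit 4, nat_lit 0x47⟩ (t14_4757) (t14_12949))) (.node ⟨nat_lit 7, nat_lit 0x10002000400062, nat_lit 0x1100112, nat_lit 0, nat_lit 4, nat_lit 0x47⟩ (.node ⟨nat_lit 6, nat_lit 0x2000100010, nat_lit 0x12040, nat_lit 1, nat_lit 3, nat_lit 0x48⟩ (t14_2709) (t14_10901)) (.node ⟨nat_lit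 8, nat_lit 0x800020002000200040, nat_lit 0x1001102, nat_lit 0, nat_lit 4, nat_lit 0x49⟩ (t14_6805) (t14_14997)))) (.node ⟨nat_lit 2, nat_lit 0, nat_lit 0x22, nat_lit 0xd, nat_lit 4, nat_lit 0x47⟩ (.node ⟨nat_lit 6, nat_lit 0x200030, nat_lit 0x21111, nat_lit 3, nat_lit 4, nat_lit 0x49⟩ (.node ⟨nat_lit 6, nat_lit 0x240038, nat_lit 0x11113, nat_lit 0, nat_lit 4, nat_lit 0x46⟩ (t14_1685) (t14_9877)) (.node ⟨nat_lit 7, nat_lit 0x400040002000480050, nat_lit 0x211201, nat_lit 3, nat_lit 4, nat_lit 0x48⟩ (t14_5781) (t14_13973))) (.node ⟨nat_lit 7, nat_lit 0x4800280070, nat_lit 0x20212, nat_lit 0, nat_lit 4, nat_lit 0x46⟩ (.node ⟨nat_lit 6, nat_lit 0x80030, nat_lit 0x100000, nat_lit 1, nat_lit 4, nat_lit 0x46⟩ (t14_3733) (t14_11925)) (.node ⟨nat_lit 4, nat_lit 0x80008, nat_lit 0x321, nat_lit 6, nat_lit 3, nat_lit 0x46⟩ (t14_7829) (.nil)))))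
def t14_405 : Tr := .node ⟨nat_lit 7, nat_lit 0x4000100020, nat_lit 0x111001, nat_lit 9, nat_lit 4, nat_lit 0x4b⟩ (.nil) (.nil)
def t14_8597 : Tr := .node ⟨nat_lit 5, nat_lit 0x100008001c, nat_lit 0x110, nat_lit 4, nat_lit 4, nat_lit 0x44⟩ (.nil) (.nil)
def t14_4501 : Tr := .node ⟨nat_lit 6, nat_lit 0x800200030, nat_lit 0x120031, nat_lit 2, nat_lit 4, nat_lit 0x49⟩ (.nil) (.nil)
def t14_12693 : Tr := .node ⟨nat_lit 7, nat_lit 0x40002000200064, nat_lit 0x1002000, nat_lit 1, nat_lit 4, nat_lit 0x47⟩ (.nil) (.nil)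
def t14_2453 : Tr := .node ⟨nat_lit 6, nat_lit 0x300030, nat_lit 0x112120, nat_lit 2, nat_lit 4, nat_lit 0x49⟩ (.nil) (.nil)
def t14_10645 : Tr := .node ⟨nat_lit 7, nat_lit 0x40001000100060, nat_lit 0x1002, nat_lit 0, nat_lit 4, nat_lit 0x46⟩ (.nil) (.nil)
def t14_6549 : Tr := .node ⟨nat_lit 7, nat_lit 0x20004000100044, nat_lit 0x1010012, nat_lit 0, nat_lit 4, nat_lit 0x47⟩ (.nil) (.nil)
def t14_14741 : Tr := .node ⟨nat_lit 7, nat_lit 0x10005000300060, nat_lit 0x101121, nat_lit 4, nat_lit 4, nat_lit 0x47⟩ (.nil) (.nil)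
def t14_1429 : Tr := .node ⟨nat_lit 6, nat_lit 0x2000080030, nat_lit 0x11301, nat_lit 0, nat_lit 4, nat_lit 0x47⟩ (.nil) (.nil)
def t14_9621 : Tr := .node ⟨nat_lit 7, nat_lit 0x10004000200062, nat_lit 0x220, nat_lit 0, nat_lit 4, nat_lit 0x46⟩ (.nil) (.nil)
def t14_5525 : Tr := .node ⟨nat_lit 7, nat_lit 0x4000200020, nat_lit 0x11031, nat_lit 3, nat_lit 4, nat_lit 0x4a⟩ (.nil) (.nil)
def t14_13717 : Tr := .node ⟨nat_lit 8, nat_lit 0x40008000900090006000c0, nat_lit 0x201020, nat_lit 0, nat_lit 4, nat_lit 0x46⟩ (.nil) (.nil)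
def t14_3477 : Tr := .node ⟨nat_lit 7, nat_lit 0x200020004000600070, nat_lit 0x10210, nat_lit 2, nat_lit 4, nat_lit 0x46⟩ (.nil) (.nil)
def t14_11669 : Tr := .node ⟨nat_lit 6, nat_lit 0x1000200030, nat_lit 0x1400, nat_lit 1, nat_lit 3, nat_lit 0x46⟩ (.nil) (.nil)
def t14_7573 : Tr := .node ⟨nat_lit 6, nat_lit 0x2000240018, nat_lit 0x202, nat_lit 0, nat_lit 4, nat_lit 0x45⟩ (.nil) (.nil)
def t14_917 : Tr := .node ⟨nat_lit 6, nat_lit 0x20002000100028, nat_lit 0x12112, nat_lit 6, nat_lit 4, nat_lit 0x48⟩ (.nil) (.nil)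
def t14_9109 : Tr := .node ⟨nat_lit 8, nat_lit 0x400080008000200088, nat_lit 0x101100, nat_lit 1, nat_lit 4, nat_lit 0x48⟩ (.nil) (.nil)
def t14_5013 : Tr := .node ⟨nat_lit 6, nat_lit 0x20001000280030, nat_lit 0x1111, nat_lit 2, nat_lit 4, nat_lit 0x45⟩ (.nil) (.nil)
def t14_13205 : Tr := .node ⟨nat_lit 7, nat_lit 0x400020002000500070, nat_lit 0x22100, nat_lit 0, nat_lit 4, nat_lit 0x46⟩ (.nil) (.nil)
def t14_2965 : Tr := .node ⟨nat_lit 7, nat_lit 0x20004000100044, nat_lit 0x10202, nat_lit 4, nat_lit 4, nat_lit 0x48⟩ (.nil) (.nil)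
def t14_11157 : Tr := .node ⟨nat_lit 6, nat_lit 0x3000280028, nat_lit 0x1120, nat_lit 7, nat_lit 4, nat_lit 0x47⟩ (.nil) (.nil)
def t14_7061 : Tr := .node ⟨nat_lit 7, nat_lit 0x4000440060, nat_lit 0x1011201, nat_lit 1, nat_lit 4, nat_lit 0x49⟩ (.nil) (.nil)
def t14_15253 : Tr := .node ⟨nat_lit 8, nat_lit 0x8000800020002000c0, nat_lit 0x1120111, nat_lit 0, nat_lit 4, nat_lit 0x49⟩ (.nil) (.nil)
def t14_1941 : Tr := .node ⟨nat_lit 6, nat_lit 0x300038, nat_lit 0x200012, nat_lit 0, nat_lit 4, nat_lit 0x46⟩ (.nil) (.nil)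
def t14_10133 : Tr := .node ⟨nat_lit 6, nat_lit 0x20002000100030, nat_lit 0x1000, nat_lit 0, nat_lit 3, nat_lit 0x44⟩ (.nil) (.nil)
def t14_6037 : Tr := .node ⟨nat_lit 7, nat_lit 0x4000100060, nat_lit 0x1112110, nat_lit 2, nat_lit 4, nat_lit 0x4a⟩ (.nil) (.nil)
def t14_14229 : Tr := .node ⟨nat_lit 6, nat_lit 0x800300028, nat_lit 0x100112, nat_lit 5, nat_lit 4, nat_lit 0x47⟩ (.nil) (.nil)
def t14_3989 : Tr := .node ⟨nat_lit 6, nat_lit 0x2000080030, nat_lit 0x111130, nat_lit 1, nat_lit 4, nat_lit 0x48⟩ (.nil) (.nil)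
def t14_12181 : Tr := .node ⟨nat_lit 8, nat_lit 0x4000400040008000d000e0, nat_lit 0x110201, nat_lit 3, nat_lit 4, nat_lit 0x47⟩ (.nil) (.nil)
def t14_8085 : Tr := .node ⟨nat_lit 6, nat_lit 0x20001000280030, nat_lit 0x1040, nat_lit 3, nat_lit 4, nat_lit 0x46⟩ (.nil) (.nil)
def t9_405 : Tr := .node ⟨nat_lit 5, nat_lit 0x40018, nat_lit 0x20321, nat_lit 3, nat_lit 4, nat_lit 0x49⟩ (.node ⟨nat_lit 5, nat_lit 0x100008, nat_lit 0x11310, nat_lit 2, nat_lit 4, nat_lit 0x48⟩ (.node ⟨nat_lit 5, nat_lit 0x140018, nat_lit 0x2221, nat_lit 4, nat_lit 4, nat_lit 0x47⟩ (.node ⟨nat_lit 6, nat_lit 0x2000080030, nat_lit 0x101221, nat_lit 0, nat_lit 4, nat_lit 0x47⟩ (.node ⟨nat_lit 7, nat_lit 0x1000600060, nat_lit 0x21121, nat_lit 0, nat_lit 4, nat_lit 0x48⟩ (t14_405) (t14_8597)) (.node ⟨nat_lit 7, nat_lit 0x40004000100068, nat_lit 0x1102002, nat_lit 0, nat_lit 4,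 nat_lit 0x48⟩ (t14_4501) (t14_12693))) (.node ⟨nat_lit 6, nat_lit 0x2000080030, nat_lit 0x201112, nat_lit 6, nat_lit 4, nat_lit 0x49⟩ (.node ⟨nat_lit 8, nat_lit 0x100080002000c0, nat_lit 0x100011, nat_lit 1, nat_lit 4, nat_lit 0x48⟩ (t14_2453) (t14_10645)) (.node ⟨nat_lit 7, nat_lit 0x1000100060, nat_lit 0x2001201, nat_lit 1, nat_lit 4, nat_lit 0x49⟩ (t14_6549) (t14_14741)))) (.node ⟨nat_lit 5, nat_lit 0x80010, nat_lit 0x20011, nat_lit 0, nat_lit 4, nat_lit 0x46⟩ (.node ⟨nat_lit 7, nat_lit 0x5000500060, nat_lit 0x211212, nat_lit 0, nat_lit 4, nat_lit 0x48⟩ (.node ⟨nat_lit 5, nat_lit 0x18, nat_lit 0x10110, nat_lit 1, nat_lit 4, nat_lit 0x46⟩ (t14_1429) (t14_9621)) (.node ⟨nat_lit 6, nat_lit 0x1000200030, nat_lit 0x112112, nat_lit 4, nat_lit 4, nat_lit 0x49⟩ (t14_5525) (t14_13717))) (.node ⟨nat_lit 5, nat_lit 0x100010, nat_lit 0x1121, nat_lit 6,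 nat_lit 4, nat_lit 0x48⟩ (.node ⟨nat_lit 6, nat_lit 0x2800300038, nat_lit 0x11003, nat_lit 5, nat_lit 4, nat_lit 0x46⟩ (t14_3477) (t14_11669)) (.node ⟨nat_lit 6, nat_lit 0x280030, nat_lit 0x112112, nat_lit 2, nat_lit 4, nat_lit 0x49⟩ (t14_7573) (.nil))))) (.node ⟨nat_lit 6, nat_lit 0x800300030, nat_lit 0x101121, nat_lit 0, nat_lit 3, nat_lit 0x45⟩ (.node ⟨nat_lit 4, nat_lit 8, nat_lit 0x1222, nat_lit 3, nat_lit 4, nat_lit 0x48⟩ (.node ⟨nat_lit 6, nat_lit 0x200020, nat_lit 0x11110, nat_lit 1, nat_lit 4, nat_lit 0x48⟩ (.node ⟨nat_lit 7, nat_lit 0x20002000200040, nat_lit 0x1023101, nat_lit 1, nat_lit 4, nat_lit 0x4a⟩ (t14_917) (t14_9109)) (.node ⟨nat_lit 7, nat_lit 0x100060, nat_lit 0x2111102, nat_lit 0, nat_lit 3, nat_lit 0x49⟩ (t14_5013) (t14_13205))) (.node ⟨nat_lit 8, nat_lit 0x200010008000c0, nat_lit 0x11000012, nat_lit 0, nat_lit 4, nat_lit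 0x49⟩ (.node ⟨nat_lit 7, nat_lit 0x200040004000480030, nat_lit 0x1121110, nat_lit 2, nat_lit 4, nat_lit 0x48⟩ (t14_2965) (t14_11157)) (.node ⟨nat_lit 8, nat_lit 0x8000400020009000c0, nat_lit 0x11112002, nat_lit 0, nat_lit 4, nat_lit 0x49⟩ (t14_7061) (t14_15253)))) (.node ⟨nat_lit 5, nat_lit 0x100008001a, nat_lit 0x2210, nat_lit 3, nat_lit 4, nat_lit 0x46⟩ (.node ⟨nat_lit 8, nat_lit 0x400080008000880060, nat_lit 0x10211111, nat_lit 0, nat_lit 4, nat_lit 0x49⟩ (.node ⟨nat_lit 7, nat_lit 0x1000600070, nat_lit 0x1012013, nat_lit 0, nat_lit 4, nat_lit 0x48⟩ (t14_1941) (t14_10133)) (.node ⟨nat_lit 7, nat_lit 0x10006000600060, nat_lit 0x22210, nat_lit 0, nat_lit 4, nat_lit 0x47⟩ (t14_6037) (t14_14229))) (.node ⟨nat_lit 6, nat_lit 0x2000280030, nat_lit 0x11210, nat_lit 4, nat_lit 4, nat_lit 0x47⟩ (.node ⟨nat_lit 6, nat_lit 0x1000280030, nat_lit 0x11010,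 nat_lit 3, nat_lit 4, nat_lit 0x46⟩ (t14_3989) (t14_12181)) (.node ⟨nat_lit 9, nat_lit 0x100010000800080009001400190, nat_lit 0x11111010, nat_lit 1, nat_lit 4, nat_lit 0x48⟩ (t14_8085) (.nil)))))
def t14_85 : Tr := .node ⟨nat_lit 6, nat_lit 0x300030, nat_lit 0x112211, nat_lit 0, nat_lit 4, nat_lit 0x49⟩ (.nil) (.nil)
def t14_8277 : Tr := .node ⟨nat_lit 6, nat_lit 0x300030, nat_lit 0x1140, nat_lit 0, nat_lit 4, nat_lit 0x47⟩ (.nil) (.nil)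
def t14_4181 : Tr := .node ⟨nat_lit 8, nat_lit 0x800040009000a000c0, nat_lit 0x1111003, nat_lit 0, nat_lit 4, nat_lit 0x48⟩ (.nil) (.nil)
def t14_12373 : Tr := .node ⟨nat_lit 9, nat_lit 0x1000100008001100180, nat_lit 0x1121100, nat_lit 0, nat_lit 4, nat_lit 0x4a⟩ (.nil) (.nil)
def t14_2133 : Tr := .node ⟨nat_lit 7, nat_lit 0x40004000200060, nat_lit 0x112102, nat_lit 3, nat_lit 4, nat_lit 0x49⟩ (.nil) (.nil)
def t14_10325 : Tr := .node ⟨nat_lit 6, nat_lit 0x2000280030, nat_lit 0x11220, nat_lit 6, nat_lit 4, nat_lit 0x48⟩ (.nil) (.nil)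
def t14_6229 : Tr := .node ⟨nat_lit 6, nat_lit 0x200010, nat_lit 0x1101, nat_lit 3, nat_lit 4, nat_lit 0x48⟩ (.nil) (.nil)
def t14_14421 : Tr := .node ⟨nat_lit 7, nat_lit 0x400040002000200050, nat_lit 0x21110, nat_lit 1, nat_lit 4, nat_lit 0x47⟩ (.nil) (.nil)
def t14_1109 : Tr := .node ⟨nat_lit 5, nat_lit 0x10001a, nat_lit 0x1120, nat_lit 3, nat_lit 4, nat_lit 0x46⟩ (.nil) (.nil)
def t14_9301 : Tr := .node ⟨nat_lit 7, nat_lit 0x40005000300060, nat_lit 0x101220, nat_lit 0, nat_lit 4, nat_lit 0x46⟩ (.nil) (.nil)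
def t14_5205 : Tr := .node ⟨nat_lit 7, nat_lit 0x40004000480060, nat_lit 0x112111, nat_lit 4, nat_lit 4, nat_lit 0x49⟩ (.nil) (.nil)
def t14_13397 : Tr := .node ⟨nat_lit 9, nat_lit 0x100008001400140014000a001a0, nat_lit 0x1200000, nat_lit 0, nat_lit 4, nat_lit 0x46⟩ (.nil) (.nil)
def t14_3157 : Tr := .node ⟨nat_lit 8, nat_lit 0x80004000c000a0, nat_lit 0x122011, nat_lit 0, nat_lit 4, nat_lit 0x49⟩ (.nil) (.nil)
def t14_11349 : Tr := .node ⟨nat_lit 6, nat_lit 0x200020, nat_lit 0x11011, nat_lit 0, nat_lit 3, nat_lit 0x47⟩ (.nil) (.nil)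
def t14_7253 : Tr := .node ⟨nat_lit 7, nat_lit 0x6000500018, nat_lit 0x1020021, nat_lit 1, nat_lit 4, nat_lit 0x48⟩ (.nil) (.nil)
def t14_15445 : Tr := .node ⟨nat_lit 9, nat_lit 0x10000800120012001400180, nat_lit 0x101001021, nat_lit 0, nat_lit 4, nat_lit 0x48⟩ (.nil) (.nil)
def t14_597 : Tr := .node ⟨nat_lit 7, nat_lit 0x20004000640070, nat_lit 0x2102, nat_lit 0, nat_lit 4, nat_lit 0x45⟩ (.nil) (.nil)
def t14_8789 : Tr := .node ⟨nat_lit 7, nat_lit 0x20004000500068, nat_lit 0x12013, nat_lit 0, nat_lit 4, nat_lit 0x46⟩ (.nil) (.nil)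
def t14_4693 : Tr := .node ⟨nat_lit 8, nat_lit 0x400040008000c400d0, nat_lit 0x10010120, nat_lit 0, nat_lit 4, nat_lit 0x47⟩ (.nil) (.nil)
def t14_12885 : Tr := .node ⟨nat_lit 7, nat_lit 0x2000400060, nat_lit 0x21020, nat_lit 2, nat_lit 4, nat_lit 0x49⟩ (.nil) (.nil)
def t14_2645 : Tr := .node ⟨nat_lit 7, nat_lit 0x10006000600060, nat_lit 0x10310, nat_lit 3, nat_lit 4, nat_lit 0x47⟩ (.nil) (.nil)
def t14_10837 : Tr := .node ⟨nat_lit 7, nat_lit 0x4000500060, nat_lit 0x111022, nat_lit 4, nat_lit 4, nat_lit 0x49⟩ (.nil) (.nil)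
def t14_6741 : Tr := .node ⟨nat_lit 6, nat_lit 0x2000080030, nat_lit 0x31110, nat_lit 2, nat_lit 4, nat_lit 0x48⟩ (.nil) (.nil)
def t14_14933 : Tr := .node ⟨nat_lit 7, nat_lit 0x40002000480048, nat_lit 0x1112011, nat_lit 0, nat_lit 4, nat_lit 0x49⟩ (.nil) (.nil)
def t14_1621 : Tr := .node ⟨nat_lit 8, nat_lit 0x8000400040009000c8, nat_lit 0x111010, nat_lit 1, nat_lit 4, nat_lit 0x47⟩ (.nil) (.nil)
def t14_9813 : Tr := .node ⟨nat_lit 8, nat_lit 0x80001000c000e0, nat_lit 0x101002, nat_lit 0, nat_lit 4, nat_lit 0x47⟩ (.nil) (.nil)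
def t14_5717 : Tr := .node ⟨nat_lit 6, nat_lit 0x20002000100028, nat_lit 0x10012, nat_lit 3, nat_lit 4, nat_lit 0x46⟩ (.nil) (.nil)
def t14_13909 : Tr := .node ⟨nat_lit 5, nat_lit 0x1000080008, nat_lit 0x340, nat_lit 3, nat_lit 4, nat_lit 0x47⟩ (.nil) (.nil)
def t14_3669 : Tr := .node ⟨nat_lit 4, nat_lit 0xc, nat_lit 0x1141, nat_lit 3, nat_lit 4, nat_lit 0x48⟩ (.nil) (.nil)
def t14_11861 : Tr := .node ⟨nat_lit 7, nat_lit 0x10004000200062, nat_lit 0x31, nat_lit 2, nat_lit 4, nat_lit 0x47⟩ (.nil) (.nil)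
def t14_7765 : Tr := .node ⟨nat_lit 8, nat_lit 0x80004000a0005000e000d0, nat_lit 0x121021, nat_lit 0, nat_lit 4, nat_lit 0x45⟩ (.nil) (.nil)
def t9_85 : Tr := .node ⟨nat_lit 4, nat_lit 0xc, nat_lit 0x11, nat_lit 1, nat_lit 3, nat_lit 0x43⟩ (.node ⟨nat_lit 6, nat_lit 0x100020, nat_lit 0x113201, nat_lit 3, nat_lit 4, nat_lit 0x4b⟩ (.node ⟨nat_lit 6, nat_lit 0x10001000200030, nat_lit 0x203210, nat_lit 0, nat_lit 3, nat_lit 0x46⟩ (.node ⟨nat_lit 7, nat_lit 0x40002000480060, nat_lit 0x1021201, nat_lit 0, nat_lit 4, nat_lit 0x48⟩ (.node ⟨nat_lit 6, nat_lit 0x200022, nat_lit 0x211131, nat_lit 3, nat_lit 4, nat_lit 0x4b⟩ (t14_85) (t14_8277)) (.node ⟨nat_lit 7, nat_lit 0x40001000600050, nat_lit 0x12003, nat_lit 4, nat_lit 4, nat_lit 0x48⟩ (t14_4181) (t14_12373))) (.node ⟨nat_lit 6, nat_lit 0x200030, nat_lit 0x211122, nat_lit 1, nat_lit 4, nat_lit 0x4a⟩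 (.node ⟨nat_lit 6, nat_lit 0x2000100030, nat_lit 0x11024, nat_lit 0, nat_lit 4, nat_lit 0x48⟩ (t14_2133) (t14_10325)) (.node ⟨nat_lit 8, nat_lit 0x800080004000900090, nat_lit 0x1202010, nat_lit 2, nat_lit 4, nat_lit 0x49⟩ (t14_6229) (t14_14421)))) (.node ⟨nat_lit 5, nat_lit 0x100018, nat_lit 0x202, nat_lit 1, nat_lit 4, nat_lit 0x45⟩ (.node ⟨nat_lit 6, nat_lit 0x80030, nat_lit 0x211201, nat_lit 0, nat_lit 4, nat_lit 0x49⟩ (.node ⟨nat_lit 6, nat_lit 0x1800280030, nat_lit 0x111311, nat_lit 3, nat_lit 4, nat_lit 0x47⟩ (t14_1109) (t14_9301)) (.node ⟨nat_lit 7, nat_lit 0x4000600070, nat_lit 0x111213, nat_lit 1, nat_lit 4, nat_lit 0x48⟩ (t14_5205) (t14_13397))) (.node ⟨nat_lit 6, nat_lit 0x2000200034, nat_lit 0x112100, nat_lit 2, nat_lit 4, nat_lit 0x48⟩ (.node ⟨nat_lit 6, nat_lit 0x200020, nat_lit 0x21000, nat_lit 1, nat_lit 4, nat_lit 0x48⟩ (t14_3157)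 (t14_11349)) (.node ⟨nat_lit 8, nat_lit 0x40008000200084, nat_lit 0x10010102, nat_lit 1, nat_lit 4, nat_lit 0x49⟩ (t14_7253) (t14_15445))))) (.node ⟨nat_lit 5, nat_lit 0x100008, nat_lit 0x2101, nat_lit 0, nat_lit 3, nat_lit 0x46⟩ (.node ⟨nat_lit 6, nat_lit 0x200030, nat_lit 0x21102, nat_lit 0, nat_lit 4, nat_lit 0x48⟩ (.node ⟨nat_lit 5, nat_lit 0x100018, nat_lit 0x1220, nat_lit 3, nat_lit 4, nat_lit 0x47⟩ (.node ⟨nat_lit 6, nat_lit 0x300030, nat_lit 0x212120, nat_lit 0, nat_lit 4, nat_lit 0x49⟩ (t14_597) (t14_8789)) (.node ⟨nat_lit 6, nat_lit 0x80030, nat_lit 0x221122, nat_lit 0, nat_lit 4, nat_lit 0x4a⟩ (t14_4693) (t14_12885))) (.node ⟨nat_lit 7, nat_lit 0x600050, nat_lit 0x1001112, nat_lit 0, nat_lit 4, nat_lit 0x48⟩ (.node ⟨nat_lit 7, nat_lit 0x40001000480060, nat_lit 0x1211003, nat_lit 1, nat_lit 4, nat_lit 0x49⟩ (t14_2645) (t14_10837)) (.node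 ⟨nat_lit 5, nat_lit 0x800100012, nat_lit 0x11022, nat_lit 9, nat_lit 4, nat_lit 0x48⟩ (t14_6741) (t14_14933)))) (.node ⟨nat_lit 5, nat_lit 0x10001a, nat_lit 0x21110, nat_lit 5, nat_lit 4, nat_lit 0x48⟩ (.node ⟨nat_lit 7, nat_lit 0x20004000100068, nat_lit 0x2210011, nat_lit 1, nat_lit 4, nat_lit 0x49⟩ (.node ⟨nat_lit 5, nat_lit 0x180018, nat_lit 0x111, nat_lit 2, nat_lit 4, nat_lit 0x44⟩ (t14_1621) (t14_9813)) (.node ⟨nat_lit 7, nat_lit 0x40004000200068, nat_lit 0x1120211, nat_lit 1, nat_lit 4, nat_lit 0x49⟩ (t14_5717) (t14_13909))) (.node ⟨nat_lit 6, nat_lit 0x2000280034, nat_lit 0x12120, nat_lit 2, nat_lit 4, nat_lit 0x47⟩ (.node ⟨nat_lit 7, nat_lit 0x20004000400010, nat_lit 0x10000, nat_lit 1, nat_lit 4, nat_lit 0x47⟩ (t14_3669) (t14_11861)) (.node ⟨nat_lit 6, nat_lit 0x1000280030, nat_lit 0x110120, nat_lit 1, nat_lit 4, nat_lit 0x46⟩ (t14_7765)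 (.nil)))))
def t14_341 : Tr := .node ⟨nat_lit 7, nat_lit 0x4000400060, nat_lit 0x1021211, nat_lit 0, nat_lit 4, nat_lit 0x4a⟩ (.nil) (.nil)
def t14_8533 : Tr := .node ⟨nat_lit 5, nat_lit 0x100012, nat_lit 0x11114, nat_lit 3, nat_lit 4, nat_lit 0x48⟩ (.nil) (.nil)
def t14_4437 : Tr := .node ⟨nat_lit 7, nat_lit 0x800100060, nat_lit 0x1121121, nat_lit 0, nat_lit 4, nat_lit 0x4a⟩ (.nil) (.nil)
def t14_12629 : Tr := .node ⟨nat_lit 8, nat_lit 0x400080002000c000a0, nat_lit 0x1012030, nat_lit 0, nat_lit 4, nat_lit 0x48⟩ (.nil) (.nil)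
def t14_2389 : Tr := .node ⟨nat_lit 7, nat_lit 0x20004000600060, nat_lit 0x22210, nat_lit 2, nat_lit 4, nat_lit 0x48⟩ (.nil) (.nil)
def t14_10581 : Tr := .node ⟨nat_lit 7, nat_lit 0x400020005000600070, nat_lit 0x2200, nat_lit 2, nat_lit 4, nat_lit 0x45⟩ (.nil) (.nil)
def t14_6485 : Tr := .node ⟨nat_lit 6, nat_lit 0x80030, nat_lit 0x111110, nat_lit 3, nat_lit 4, nat_lit 0x49⟩ (.nil) (.nil)
def t14_14677 : Tr := .node ⟨nat_lit 9, nat_lit 0x1000100008000800120019001c0, nat_lit 0x1112110, nat_lit 1, nat_lit 4, nat_lit 0x47⟩ (.nil) (.nil)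
def t14_1365 : Tr := .node ⟨nat_lit 8, nat_lit 0x80004000a000d000d0, nat_lit 0x10003110, nat_lit 1, nat_lit 4, nat_lit 0x47⟩ (.nil) (.nil)
def t14_9557 : Tr := .node ⟨nat_lit 8, nat_lit 0x200080008000c000c8, nat_lit 0x1002121, nat_lit 0, nat_lit 4, nat_lit 0x48⟩ (.nil) (.nil)
def t14_5461 : Tr := .node ⟨nat_lit 6, nat_lit 0x2000080030, nat_lit 0x11300, nat_lit 1, nat_lit 3, nat_lit 0x46⟩ (.nil) (.nil)
def t14_13653 : Tr := .node ⟨nat_lit 7, nat_lit 0x10004000500064, nat_lit 0x100021, nat_lit 2, nat_lit 4, nat_lit 0x46⟩ (.nil) (.nil)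
def t14_3413 : Tr := .node ⟨nat_lit 7, nat_lit 0x40004000100060, nat_lit 0x120011, nat_lit 0, nat_lit 4, nat_lit 0x48⟩ (.nil) (.nil)
def t14_11605 : Tr := .node ⟨nat_lit 7, nat_lit 0x6000680070, nat_lit 0x11013, nat_lit 1, nat_lit 4, nat_lit 0x46⟩ (.nil) (.nil)
def t14_7509 : Tr := .node ⟨nat_lit 9, nat_lit 0x100010001000080008001400140, nat_lit 0x10111110, nat_lit 2, nat_lit 4, nat_lit 0x49⟩ (.nil) (.nil)
def t14_853 : Tr := .node ⟨nat_lit 7, nat_lit 0x4000200044, nat_lit 0x111212, nat_lit 1, nat_lit 4, nat_lit 0x49⟩ (.nil) (.nil)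
def t14_9045 : Tr := .node ⟨nat_lit 4, nat_lit 0x800080008, nat_lit 0x221, nat_lit 7, nat_lit 3, nat_lit 0x45⟩ (.nil) (.nil)
def t14_4949 : Tr := .node ⟨nat_lit 8, nat_lit 0x800020002000c000e0, nat_lit 0x1011013, nat_lit 0, nat_lit 4, nat_lit 0x47⟩ (.nil) (.nil)
def t14_13141 : Tr := .node ⟨nat_lit 9, nat_lit 0x4001000080008001100188, nat_lit 0x22000, nat_lit 1, nat_lit 4, nat_lit 0x48⟩ (.nil) (.nil)
def t14_2901 : Tr := .node ⟨nat_lit 8, nat_lit 0x400080008000c000c8, nat_lit 0x211102, nat_lit 0, nat_lit 4, nat_lit 0x48⟩ (.nil) (.nil)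
def t14_11093 : Tr := .node ⟨nat_lit 4, nat_lit 0xc000c, nat_lit 0x20, nat_lit 9, nat_lit 3, nat_lit 0x44⟩ (.nil) (.nil)
def t14_6997 : Tr := .node ⟨nat_lit 6, nat_lit 0x2000200030, nat_lit 0x101211, nat_lit 3, nat_lit 3, nat_lit 0x47⟩ (.nil) (.nil)
def t14_15189 : Tr := .node ⟨nat_lit 7, nat_lit 0x4000100060, nat_lit 0x110011, nat_lit 0, nat_lit 4, nat_lit 0x48⟩ (.nil) (.nil)
def t14_1877 : Tr := .node ⟨nat_lit 6, nat_lit 0x1000200020, nat_lit 0x2100, nat_lit 2, nat_lit 4, nat_lit 0x47⟩ (.nil) (.nil)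
def t14_10069 : Tr := .node ⟨nat_lit 7, nat_lit 0x20002000500068, nat_lit 0x1001020, nat_lit 0, nat_lit 4, nat_lit 0x46⟩ (.nil) (.nil)
def t14_5973 : Tr := .node ⟨nat_lit 9, nat_lit 0x1000100008000800080, nat_lit 0x1110211, nat_lit 0, nat_lit 4, nat_lit 0x4b⟩ (.nil) (.nil)
def t14_14165 : Tr := .node ⟨nat_lit 6, nat_lit 0x20002000100028, nat_lit 0x101020, nat_lit 4, nat_lit 4, nat_lit 0x47⟩ (.nil) (.nil)
def t14_3925 : Tr := .node ⟨nat_lit 8, nat_lit 0x800040009000a000d0, nat_lit 0x10012010, nat_lit 0, nat_lit 4, nat_lit 0x47⟩ (.nil) (.nil)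
def t14_12117 : Tr := .node ⟨nat_lit 7, nat_lit 0x10004000440060, nat_lit 0x100200, nat_lit 1, nat_lit 4, nat_lit 0x47⟩ (.nil) (.nil)
def t14_8021 : Tr := .node ⟨nat_lit 0, nat_lit 0, nat_lit 0, nat_lit 0xb, nat_lit 4, nat_lit 0x40⟩ (.nil) (.nil)
def t9_341 : Tr := .node ⟨nat_lit 7, nat_lit 0x400040, nat_lit 0x311110, nat_lit 1, nat_lit 4, nat_lit 0x4b⟩ (.node ⟨nat_lit 6, nat_lit 0x200010, nat_lit 0x132102, nat_lit 0, nat_lit 4, nat_lit 0x4b⟩ (.node ⟨nat_lit 4, nat_lit 0xc, nat_lit 0x2213, nat_lit 3, nat_lit 4, nat_lit 0x48⟩ (.node ⟨nat_lit 6, nat_lit 0x200020, nat_lit 0x121100, nat_lit 0, nat_lit 4, nat_lit 0x49⟩ (.node ⟨nat_lit 7, nat_lit 0x40004000200048, nat_lit 0x1211130, nat_lit 0, nat_lit 4, nat_lit 0x4a⟩ (t14_341) (t14_8533)) (.node ⟨nat_lit 7, nat_lit 0x4000100060, nat_lit 0x1001400, nat_lit 1, nat_lit 3, nat_lit 0x48⟩ (t14_4437) (t14_12629)))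 (.node ⟨nat_lit 6, nat_lit 0x280030, nat_lit 0x211112, nat_lit 2, nat_lit 4, nat_lit 0x49⟩ (.node ⟨nat_lit 7, nat_lit 0x40004000200060, nat_lit 0x112013, nat_lit 2, nat_lit 4, nat_lit 0x49⟩ (t14_2389) (t14_10581)) (.node ⟨nat_lit 5, nat_lit 0x80010, nat_lit 0x20131, nat_lit 3, nat_lit 4, nat_lit 0x48⟩ (t14_6485) (t14_14677)))) (.node ⟨nat_lit 3, nat_lit 6, nat_lit 0x110, nat_lit 6, nat_lit 3, nat_lit 0x44⟩ (.node ⟨nat_lit 4, nat_lit 8, nat_lit 0x2223, nat_lit 7, nat_lit 4, nat_lit 0x4a⟩ (.node ⟨nat_lit 5, nat_lit 0x180018, nat_lit 0x10230, nat_lit 5, nat_lit 4, nat_lit 0x47⟩ (t14_1365) (t14_9557)) (.node ⟨nat_lit 7, nat_lit 0x2000500060, nat_lit 0x221120, nat_lit 0, nat_lit 4, nat_lit 0x49⟩ (t14_5461) (t14_13653))) (.node ⟨nat_lit 6, nat_lit 0x800080030, nat_lit 0x310102, nat_lit 0, nat_lit 4, nat_lit 0x48⟩ (.node ⟨nat_lit 7, nat_lit 0x400040004000200020,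 nat_lit 0x121030, nat_lit 2, nat_lit 4, nat_lit 0x49⟩ (t14_3413) (t14_11605)) (.node ⟨nat_lit 7, nat_lit 0x200020004000440060, nat_lit 0x20110, nat_lit 1, nat_lit 4, nat_lit 0x46⟩ (t14_7509) (.nil))))) (.node ⟨nat_lit 6, nat_lit 0x1000200020, nat_lit 0x3100, nat_lit 1, nat_lit 4, nat_lit 0x47⟩ (.node ⟨nat_lit 4, nat_lit 0xc, nat_lit 0x2221, nat_lit 3, nat_lit 4, nat_lit 0x48⟩ (.node ⟨nat_lit 6, nat_lit 0x800200030, nat_lit 0x11111, nat_lit 0, nat_lit 4, nat_lit 0x46⟩ (.node ⟨nat_lit 6, nat_lit 0x2000080030, nat_lit 0x2201, nat_lit 1, nat_lit 4, nat_lit 0x47⟩ (t14_853) (t14_9045)) (.node ⟨nat_lit 7, nat_lit 0x500060, nat_lit 0x1102212, nat_lit 0, nat_lit 4, nat_lit 0x4a⟩ (t14_4949) (t14_13141))) (.node ⟨nat_lit 7, nat_lit 0x1000600060, nat_lit 0x1101021, nat_lit 0, nat_lit 4, nat_lit 0x48⟩ (.node ⟨nat_lit 8, nat_lit 0x80008000800040004400a0, nat_lit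 0x1111210, nat_lit 0, nat_lit 4, nat_lit 0x48⟩ (t14_2901) (t14_11093)) (.node ⟨nat_lit 5, nat_lit 0x180018, nat_lit 0x11122, nat_lit 8, nat_lit 4, nat_lit 0x48⟩ (t14_6997) (t14_15189)))) (.node ⟨nat_lit 4, nat_lit 0x8000c, nat_lit 0x2220, nat_lit 2, nat_lit 3, nat_lit 0x46⟩ (.node ⟨nat_lit 6, nat_lit 0x10002000200034, nat_lit 0x121111, nat_lit 3, nat_lit 4, nat_lit 0x48⟩ (.node ⟨nat_lit 5, nat_lit 0x1c, nat_lit 0x11113, nat_lit 2, nat_lit 4, nat_lit 0x47⟩ (t14_1877) (t14_10069)) (.node ⟨nat_lit 7, nat_lit 0x20001000400062, nat_lit 0x2012010, nat_lit 0, nat_lit 4, nat_lit 0x48⟩ (t14_5973) (t14_14165))) (.node ⟨nat_lit 6, nat_lit 0x10001000200022, nat_lit 0x103200, nat_lit 1, nat_lit 4, nat_lit 0x47⟩ (.node ⟨nat_lit 7, nat_lit 0x20001000600050, nat_lit 0x1010104, nat_lit 0, nat_lit 4, nat_lit 0x48⟩ (t14_3925) (t14_12117)) (.node ⟨nat_lit 8, nat_lit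 0x80004000a000c8, nat_lit 0x10022011, nat_lit 0, nat_lit 4, nat_lit 0x49⟩ (t14_8021) (.nil)))))
def t14_213 : Tr := .node ⟨nat_lit 8, nat_lit 0x800040009000c00060, nat_lit 0x10112012, nat_lit 0, nat_lit 4, nat_lit 0x48⟩ (.nil) (.nil)
def t14_8405 : Tr := .node ⟨nat_lit 9, nat_lit 0x8001000100004001100110, nat_lit 0x12031, nat_lit 1, nat_lit 4, nat_lit 0x49⟩ (.nil) (.nil)
def t14_4309 : Tr := .node ⟨nat_lit 7, nat_lit 0x40002000100060, nat_lit 0x1110210, nat_lit 0, nat_lit 3, nat_lit 0x47⟩ (.nil) (.nil)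
def t14_12501 : Tr := .node ⟨nat_lit 7, nat_lit 0x10005000600030, nat_lit 0x1001300, nat_lit 3, nat_lit 4, nat_lit 0x47⟩ (.nil) (.nil)
def t14_2261 : Tr := .node ⟨nat_lit 7, nat_lit 0x40002000100060, nat_lit 0x1110202, nat_lit 1, nat_lit 4, nat_lit 0x49⟩ (.nil) (.nil)
def t14_10453 : Tr := .node ⟨nat_lit 6, nat_lit 0x2000300030, nat_lit 0x2022, nat_lit 4, nat_lit 4, nat_lit 0x47⟩ (.nil) (.nil)
def t14_6357 : Tr := .node ⟨nat_lit 6, nat_lit 0x2000280030, nat_lit 0x10201, nat_lit 5, nat_lit 4, nat_lit 0x47⟩ (.nil) (.nil)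
def t14_14549 : Tr := .node ⟨nat_lit 7, nat_lit 0x2000100040, nat_lit 0x1011200, nat_lit 0, nat_lit 4, nat_lit 0x49⟩ (.nil) (.nil)
def t14_1237 : Tr := .node ⟨nat_lit 8, nat_lit 0x80002000c0, nat_lit 0x111211, nat_lit 0, nat_lit 4, nat_lit 0x4a⟩ (.nil) (.nil)
def t14_9429 : Tr := .node ⟨nat_lit 7, nat_lit 0x400050005000600070, nat_lit 0x1110021, nat_lit 1, nat_lit 4, nat_lit 0x47⟩ (.nil) (.nil)
def t14_5333 : Tr := .node ⟨nat_lit 7, nat_lit 0x1000600060, nat_lit 0x1111130, nat_lit 0, nat_lit 4, nat_lit 0x49⟩ (.nil) (.nil)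
def t14_13525 : Tr := .node ⟨nat_lit 6, nat_lit 0x2000100024, nat_lit 0x11002, nat_lit 4, nat_lit 4, nat_lit 0x47⟩ (.nil) (.nil)
def t14_3285 : Tr := .node ⟨nat_lit 6, nat_lit 0x1000280030, nat_lit 0x2112, nat_lit 1, nat_lit 3, nat_lit 0x45⟩ (.nil) (.nil)
def t14_11477 : Tr := .node ⟨nat_lit 8, nat_lit 0x8000800040004000a000e0, nat_lit 0x10011100, nat_lit 0, nat_lit 4, nat_lit 0x47⟩ (.nil) (.nil)
def t14_7381 : Tr := .node ⟨nat_lit 7, nat_lit 0x10002000200040, nat_lit 0x1020000, nat_lit 1, nat_lit 4, nat_lit 0x48⟩ (.nil) (.nil)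
def t14_15573 : Tr := .node ⟨nat_lit 6, nat_lit 0x200010, nat_lit 0x1100, nat_lit 0x10, nat_lit 4, nat_lit 0x4b⟩ (.nil) (.nil)
def t14_725 : Tr := .node ⟨nat_lit 6, nat_lit 0x2000080030, nat_lit 0x10031, nat_lit 0, nat_lit 4, nat_lit 0x46⟩ (.nil) (.nil)
def t14_8917 : Tr := .node ⟨nat_lit 6, nat_lit 0x800300038, nat_lit 0x1103, nat_lit 1, nat_lit 4, nat_lit 0x45⟩ (.nil) (.nil)
def t14_4821 : Tr := .node ⟨nat_lit 6, nat_lit 0x800300030, nat_lit 0x112022, nat_lit 2, nat_lit 4, nat_lit 0x48⟩ (.nil) (.nil)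
def t14_13013 : Tr := .node ⟨nat_lit 7, nat_lit 0x10004000600064, nat_lit 0x11300, nat_lit 1, nat_lit 4, nat_lit 0x47⟩ (.nil) (.nil)
def t14_2773 : Tr := .node ⟨nat_lit 8, nat_lit 0x80004000a000d000d0, nat_lit 0x10112110, nat_lit 0, nat_lit 4, nat_lit 0x47⟩ (.nil) (.nil)
def t14_10965 : Tr := .node ⟨nat_lit 7, nat_lit 0x400020005000500060, nat_lit 0x1003103, nat_lit 2, nat_lit 4, nat_lit 0x47⟩ (.nil) (.nil)
def t14_6869 : Tr := .node ⟨nat_lit 8, nat_lit 0x8000400040, nat_lit 0x111030, nat_lit 0, nat_lit 4, nat_lit 0x4b⟩ (.nil) (.nil)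
def t14_15061 : Tr := .node ⟨nat_lit 8, nat_lit 0x8000800080004000b000e0, nat_lit 0x1100211, nat_lit 1, nat_lit 4, nat_lit 0x47⟩ (.nil) (.nil)
def t14_1749 : Tr := .node ⟨nat_lit 7, nat_lit 0x400040002000200050, nat_lit 0x1112211, nat_lit 2, nat_lit 4, nat_lit 0x49⟩ (.nil) (.nil)
def t14_9941 : Tr := .node ⟨nat_lit 7, nat_lit 0x10006000600070, nat_lit 0x10303, nat_lit 2, nat_lit 4, nat_lit 0x46⟩ (.nil) (.nil)
def t14_5845 : Tr := .node ⟨nat_lit 7, nat_lit 0x20004000680068, nat_lit 0x110111, nat_lit 1, nat_lit 4, nat_lit 0x46⟩ (.nil) (.nil)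
def t14_14037 : Tr := .node ⟨nat_lit 7, nat_lit 0x4000180064, nat_lit 0x1100100, nat_lit 1, nat_lit 4, nat_lit 0x47⟩ (.nil) (.nil)
def t14_3797 : Tr := .node ⟨nat_lit 6, nat_lit 0x2000080030, nat_lit 0x121210, nat_lit 1, nat_lit 3, nat_lit 0x47⟩ (.nil) (.nil)
def t14_11989 : Tr := .node ⟨nat_lit 6, nat_lit 0x2000200030, nat_lit 0x11210, nat_lit 7, nat_lit 4, nat_lit 0x49⟩ (.nil) (.nil)
def t14_7893 : Tr := .node ⟨nat_lit 6, nat_lit 0x1000100020, nat_lit 0x1210, nat_lit 4, nat_lit 4, nat_lit 0x48⟩ (.nil) (.nil)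
def t9_213 : Tr := .node ⟨nat_lit 4, nat_lit 0xc, nat_lit 0x2032, nat_lit 5, nat_lit 4, nat_lit 0x47⟩ (.node ⟨nat_lit 2, nat_lit 2, nat_lit 0x13, nat_lit 9, nat_lit 3, nat_lit 0x44⟩ (.node ⟨nat_lit 6, nat_lit 0x2000200030, nat_lit 0x13201, nat_lit 4, nat_lit 4, nat_lit 0x49⟩ (.node ⟨nat_lit 6, nat_lit 0x2000100024, nat_lit 0x112301, nat_lit 0, nat_lit 4, nat_lit 0x49⟩ (.node ⟨nat_lit 6, nat_lit 0x300028, nat_lit 0x112212, nat_lit 1, nat_lit 4, nat_lit 0x49⟩ (t14_213) (t14_8405)) (.node ⟨nat_lit 7, nat_lit 0x400040002000480070, nat_lit 0x111003, nat_lit 4, nat_lit 4, nat_lit 0x47⟩ (t14_4309) (t14_12501))) (.node ⟨nat_lit 5, nat_lit 0x40018, nat_lit 0x10201, nat_lit 2, nat_lit 3, nat_lit 0x46⟩ (.node ⟨nat_lit 8, nat_lit 0x2000800080004000c0, nat_lit 0x1002113, nat_lit 0, nat_lit 4, nat_lit 0x49⟩ (t14_2261) (t14_10453)) (.node ⟨nat_lit 6, nat_lit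 0x1000280034, nat_lit 0x220120, nat_lit 3, nat_lit 4, nat_lit 0x48⟩ (t14_6357) (t14_14549)))) (.node ⟨nat_lit 5, nat_lit 0x80010, nat_lit 0x12101, nat_lit 1, nat_lit 4, nat_lit 0x47⟩ (.node ⟨nat_lit 6, nat_lit 0x20001000100028, nat_lit 0x211221, nat_lit 0, nat_lit 4, nat_lit 0x48⟩ (.node ⟨nat_lit 6, nat_lit 0x200010, nat_lit 0x1100, nat_lit 1, nat_lit 4, nat_lit 0x47⟩ (t14_1237) (t14_9429)) (.node ⟨nat_lit 8, nat_lit 0x400080002000c0, nat_lit 0x1122011, nat_lit 0, nat_lit 4, nat_lit 0x4a⟩ (t14_5333) (t14_13525))) (.node ⟨nat_lit 7, nat_lit 0x40001000100060, nat_lit 0x110202, nat_lit 1, nat_lit 4, nat_lit 0x48⟩ (.node ⟨nat_lit 7, nat_lit 0x40002000480070, nat_lit 0x1112003, nat_lit 1, nat_lit 4, nat_lit 0x48⟩ (t14_3285) (t14_11477)) (.node ⟨nat_lit 5, nat_lit 0x40018, nat_lit 0x11002, nat_lit 3, nat_lit 4, nat_lit 0x46⟩ (t14_7381) (t14_15573)))))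 (.node ⟨nat_lit 1, nat_lit 0, nat_lit 1, nat_lit 8, nat_lit 3, nat_lit 0x42⟩ (.node ⟨nat_lit 6, nat_lit 0x800080030, nat_lit 0x210102, nat_lit 1, nat_lit 4, nat_lit 0x47⟩ (.node ⟨nat_lit 6, nat_lit 0x2000100030, nat_lit 0x102201, nat_lit 2, nat_lit 4, nat_lit 0x48⟩ (.node ⟨nat_lit 6, nat_lit 0x100020, nat_lit 0x121101, nat_lit 3, nat_lit 4, nat_lit 0x4a⟩ (t14_725) (t14_8917)) (.node ⟨nat_lit 7, nat_lit 0x40004000200020, nat_lit 0x102220, nat_lit 0, nat_lit 4, nat_lit 0x49⟩ (t14_4821) (t14_13013))) (.node ⟨nat_lit 8, nat_lit 0x10002000c000a0, nat_lit 0x10000012, nat_lit 2, nat_lit 4, nat_lit 0x48⟩ (.node ⟨nat_lit 5, nat_lit 0x140018, nat_lit 0x11230, nat_lit 5, nat_lit 4, nat_lit 0x48⟩ (t14_2773) (t14_10965)) (.node ⟨nat_lit 7, nat_lit 0x40005000580068, nat_lit 0x1111220, nat_lit 1, nat_lit 4, nat_lit 0x47⟩ (t14_6869) (t14_15061)))) (.node ⟨nat_lit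 4, nat_lit 0xe, nat_lit 0x1112, nat_lit 3, nat_lit 4, nat_lit 0x45⟩ (.node ⟨nat_lit 7, nat_lit 0x2000500060, nat_lit 0x111211, nat_lit 0, nat_lit 4, nat_lit 0x48⟩ (.node ⟨nat_lit 6, nat_lit 0x200030, nat_lit 0x2101, nat_lit 0, nat_lit 4, nat_lit 0x47⟩ (t14_1749) (t14_9941)) (.node ⟨nat_lit 7, nat_lit 0x6000600050, nat_lit 0x22112, nat_lit 1, nat_lit 4, nat_lit 0x48⟩ (t14_5845) (t14_14037))) (.node ⟨nat_lit 6, nat_lit 0x2000200034, nat_lit 0x22022, nat_lit 2, nat_lit 4, nat_lit 0x48⟩ (.node ⟨nat_lit 7, nat_lit 0x2000480070, nat_lit 0x100003, nat_lit 3, nat_lit 4, nat_lit 0x47⟩ (t14_3797) (t14_11989)) (.node ⟨nat_lit 7, nat_lit 0x600060, nat_lit 0x1011121, nat_lit 4, nat_lit 4, nat_lit 0x4a⟩ (t14_7893) (.nil)))))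
def t14_469 : Tr := .node ⟨nat_lit 8, nat_lit 0x20004000400080, nat_lit 0x11111101, nat_lit 1, nat_lit 4, nat_lit 0x4b⟩ (.nil) (.nil)
def t14_8661 : Tr := .node ⟨nat_lit 8, nat_lit 0x8000400040009000c8, nat_lit 0x110010, nat_lit 2, nat_lit 4, nat_lit 0x47⟩ (.nil) (.nil)
def t14_4565 : Tr := .node ⟨nat_lit 6, nat_lit 0x2000300030, nat_lit 0x102121, nat_lit 4, nat_lit 4, nat_lit 0x48⟩ (.nil) (.nil)
def t14_12757 : Tr := .node ⟨nat_lit 7, nat_lit 0x20002000500060, nat_lit 0x10003, nat_lit 3, nat_lit 4, nat_lit 0x47⟩ (.nil) (.nil)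
def t14_2517 : Tr := .node ⟨nat_lit 6, nat_lit 0x280030, nat_lit 0x11302, nat_lit 1, nat_lit 4, nat_lit 0x48⟩ (.nil) (.nil)
def t14_10709 : Tr := .node ⟨nat_lit 8, nat_lit 0x80004000a000a000a000c0, nat_lit 0x1002, nat_lit 2, nat_lit 4, nat_lit 0x46⟩ (.nil) (.nil)
def t14_6613 : Tr := .node ⟨nat_lit 7, nat_lit 0x20004000440060, nat_lit 0x1022000, nat_lit 2, nat_lit 4, nat_lit 0x48⟩ (.nil) (.nil)
def t14_14805 : Tr := .node ⟨nat_lit 9, nat_lit 0x1000100008000800140019001c0, nat_lit 0x21011, nat_lit 2, nat_lit 4, nat_lit 0x47⟩ (.nil) (.nil)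
def t14_1493 : Tr := .node ⟨nat_lit 7, nat_lit 0x40001000600068, nat_lit 0x100211, nat_lit 1, nat_lit 4, nat_lit 0x46⟩ (.nil) (.nil)
def t14_9685 : Tr := .node ⟨nat_lit 8, nat_lit 0x800040009000d000e0, nat_lit 0x110012, nat_lit 1, nat_lit 4, nat_lit 0x46⟩ (.nil) (.nil)
def t14_5589 : Tr := .node ⟨nat_lit 7, nat_lit 0x6000600060, nat_lit 0x11220, nat_lit 5, nat_lit 4, nat_lit 0x48⟩ (.nil) (.nil)
def t14_13781 : Tr := .node ⟨nat_lit 7, nat_lit 0x20002000500068, nat_lit 0x10, nat_lit 1, nat_lit 4, nat_lit 0x45⟩ (.nil) (.nil)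
def t14_3541 : Tr := .node ⟨nat_lit 8, nat_lit 0x9000c0006000e0, nat_lit 0x1120, nat_lit 0, nat_lit 4, nat_lit 0x45⟩ (.nil) (.nil)
def t14_11733 : Tr := .node ⟨nat_lit 9, nat_lit 0x80014001400180, nat_lit 0x110102, nat_lit 1, nat_lit 4, nat_lit 0x49⟩ (.nil) (.nil)
def t14_7637 : Tr := .node ⟨nat_lit 4, nat_lit 0x80008, nat_lit 0x132, nat_lit 0xa, nat_lit 4, nat_lit 0x48⟩ (.nil) (.nil)
def t14_981 : Tr := .node ⟨nat_lit 4, nat_lit 0x80008, nat_lit 0x121, nat_lit 9, nat_lit 4, nat_lit 0x47⟩ (.nil) (.nil)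
def t14_9173 : Tr := .node ⟨nat_lit 8, nat_lit 0x80008000400040009000e0, nat_lit 0x112002, nat_lit 2, nat_lit 4, nat_lit 0x47⟩ (.nil) (.nil)
def t14_5077 : Tr := .node ⟨nat_lit 7, nat_lit 0x20004000400060, nat_lit 0x111311, nat_lit 0, nat_lit 4, nat_lit 0x49⟩ (.nil) (.nil)
def t14_13269 : Tr := .node ⟨nat_lit 8, nat_lit 0x200080008400c0, nat_lit 0x200, nat_lit 1, nat_lit 4, nat_lit 0x48⟩ (.nil) (.nil)
def t14_3029 : Tr := .node ⟨nat_lit 8, nat_lit 0x40008000c800d000d0, nat_lit 0x1112011, nat_lit 1, nat_lit 4, nat_lit 0x47⟩ (.nil) (.nil)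
def t14_11221 : Tr := .node ⟨nat_lit 7, nat_lit 0x6000500070, nat_lit 0x11103, nat_lit 2, nat_lit 4, nat_lit 0x47⟩ (.nil) (.nil)
def t14_7125 : Tr := .node ⟨nat_lit 7, nat_lit 0x5000500060, nat_lit 0x1102110, nat_lit 1, nat_lit 4, nat_lit 0x48⟩ (.nil) (.nil)
def t14_15317 : Tr := .node ⟨nat_lit 8, nat_lit 0x80004000a000a000d0, nat_lit 0x1021100, nat_lit 1, nat_lit 4, nat_lit 0x47⟩ (.nil) (.nil)
def t14_2005 : Tr := .node ⟨nat_lit 6, nat_lit 0x20002000200010, nat_lit 0x13200, nat_lit 5, nat_lit 4, nat_lit 0x49⟩ (.nil) (.nil)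
def t14_10197 : Tr := .node ⟨nat_lit 7, nat_lit 0x20004000600070, nat_lit 0x12202, nat_lit 2, nat_lit 4, nat_lit 0x47⟩ (.nil) (.nil)
def t14_6101 : Tr := .node ⟨nat_lit 4, nat_lit 0x80004, nat_lit 0, nat_lit 6, nat_lit 3, nat_lit 0x44⟩ (.nil) (.nil)
def t14_14293 : Tr := .node ⟨nat_lit 9, nat_lit 0x400100008000200180, nat_lit 0x101002, nat_lit 1, nat_lit 4, nat_lit 0x49⟩ (.nil) (.nil)
def t14_4053 : Tr := .node ⟨nat_lit 8, nat_lit 0x80004000c000a000c8, nat_lit 0x1001221, nat_lit 0, nat_lit 4, nat_lit 0x47⟩ (.nil) (.nil)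
def t14_12245 : Tr := .node ⟨nat_lit 7, nat_lit 0x400040005000480070, nat_lit 0x12002, nat_lit 3, nat_lit 4, nat_lit 0x47⟩ (.nil) (.nil)
def t14_8149 : Tr := .node ⟨nat_lit 7, nat_lit 0x200040004800300060, nat_lit 0x1021040, nat_lit 0, nat_lit 4, nat_lit 0x47⟩ (.nil) (.nil)
def t9_469 : Tr := .node ⟨nat_lit 4, nat_lit 8, nat_lit 0x3331, nat_lit 1, nat_lit 3, nat_lit 0x49⟩ (.node ⟨nat_lit 5, nat_lit 0x100014001c, nat_lit 0x31121, nat_lit 5, nat_lit 4, nat_lit 0x48⟩ (.node ⟨nat_lit 6, nat_lit 0x800080030, nat_lit 0x220202, nat_lit 0, nat_lit 4, nat_lit 0x48⟩ (.node ⟨nat_lit 5, nat_lit 0x180018, nat_lit 0x20110, nat_lit 0, nat_lit 3, nat_lit 0x45⟩ (.node ⟨nat_lit 7, nat_lit 0x4000400020, nat_lit 0x210211, nat_lit 0, nat_lit 4, nat_lit 0x4a⟩ (t14_469) (t14_8661)) (.node ⟨nat_lit 5, nat_lit 0x1000080014, nat_lit 0x21221, nat_lit 3, nat_lit 4, nat_lit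 0x48⟩ (t14_4565) (t14_12757))) (.node ⟨nat_lit 6, nat_lit 0x200038, nat_lit 0x11002, nat_lit 0, nat_lit 4, nat_lit 0x46⟩ (.node ⟨nat_lit 7, nat_lit 0x40002000100060, nat_lit 0x1111103, nat_lit 2, nat_lit 4, nat_lit 0x49⟩ (t14_2517) (t14_10709)) (.node ⟨nat_lit 6, nat_lit 0x20002000100010, nat_lit 0x2231, nat_lit 0, nat_lit 4, nat_lit 0x47⟩ (t14_6613) (t14_14805)))) (.node ⟨nat_lit 5, nat_lit 0x40018, nat_lit 0x20021, nat_lit 2, nat_lit 4, nat_lit 0x46⟩ (.node ⟨nat_lit 7, nat_lit 0x400020002800500068, nat_lit 0x1222011, nat_lit 0, nat_lit 4, nat_lit 0x48⟩ (.node ⟨nat_lit 7, nat_lit 0x4000500060, nat_lit 0x101001, nat_lit 0, nat_lit 4, nat_lit 0x47⟩ (t14_1493) (t14_9685)) (.node ⟨nat_lit 6, nat_lit 0x10001000200022, nat_lit 0x102222, nat_lit 1, nat_lit 4, nat_lit 0x47⟩ (t14_5589) (t14_13781))) (.node ⟨nat_lit 6, nat_lit 0x800300030, nat_lit 0x1331,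 nat_lit 0, nat_lit 4, nat_lit 0x46⟩ (.node ⟨nat_lit 6, nat_lit 0x2000080030, nat_lit 0x1000, nat_lit 1, nat_lit 4, nat_lit 0x45⟩ (t14_3541) (t14_11733)) (.node ⟨nat_lit 4, nat_lit 0x8000c, nat_lit 0x2120, nat_lit 7, nat_lit 3, nat_lit 0x46⟩ (t14_7637) (.nil))))) (.node ⟨nat_lit 5, nat_lit 0x1000140014, nat_lit 0x13111, nat_lit 7, nat_lit 4, nat_lit 0x48⟩ (.node ⟨nat_lit 5, nat_lit 0x100010, nat_lit 0x12121, nat_lit 4, nat_lit 4, nat_lit 0x49⟩ (.node ⟨nat_lit 6, nat_lit 0x2000100024, nat_lit 0x11212, nat_lit 0, nat_lit 4, nat_lit 0x47⟩ (.node ⟨nat_lit 6, nat_lit 0x1000200020, nat_lit 0x11300, nat_lit 1, nat_lit 4, nat_lit 0x48⟩ (t14_981) (t14_9173)) (.node ⟨nat_lit 7, nat_lit 0x20002000400060, nat_lit 0x1022121, nat_lit 0, nat_lit 4, nat_lit 0x49⟩ (t14_5077) (t14_13269))) (.node ⟨nat_lit 5, nat_lit 0x1000080014, nat_lit 0x11202, nat_lit 3, nat_lit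 4, nat_lit 0x47⟩ (.node ⟨nat_lit 6, nat_lit 0x10002000200024, nat_lit 0x100201, nat_lit 0xb, nat_lit 4, nat_lit 0x49⟩ (t14_3029) (t14_11221)) (.node ⟨nat_lit 7, nat_lit 0x200020004000440064, nat_lit 0x1020203, nat_lit 0, nat_lit 4, nat_lit 0x47⟩ (t14_7125) (t14_15317)))) (.node ⟨nat_lit 6, nat_lit 0x300030, nat_lit 0x112111, nat_lit 1, nat_lit 4, nat_lit 0x48⟩ (.node ⟨nat_lit 4, nat_lit 0xc, nat_lit 0x3011, nat_lit 5, nat_lit 4, nat_lit 0x47⟩ (.node ⟨nat_lit 6, nat_lit 0x280030, nat_lit 0x120113, nat_lit 3, nat_lit 4, nat_lit 0x49⟩ (t14_2005) (t14_10197)) (.node ⟨nat_lit 7, nat_lit 0x20004000100060, nat_lit 0x112020, nat_lit 0, nat_lit 4, nat_lit 0x48⟩ (t14_6101) (t14_14293))) (.node ⟨nat_lit 4, nat_lit 0x8000c, nat_lit 0x3112, nat_lit 3, nat_lit 3, nat_lit 0x46⟩ (.node ⟨nat_lit 8, nat_lit 0x800090006000d000e0, nat_lit 0x10011003, nat_lit 0, nat_lit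 4, nat_lit 0x46⟩ (t14_4053) (t14_12245)) (.node ⟨nat_lit 7, nat_lit 0x400040, nat_lit 0x111120, nat_lit 1, nat_lit 3, nat_lit 0x49⟩ (t14_8149) (.nil)))))
def t14_53 : Tr := .node ⟨nat_lit 5, nat_lit 0x80010, nat_lit 0x11110, nat_lit 0xd, nat_lit 4, nat_lit 0x4a⟩ (.nil) (.nil)
def t14_8245 : Tr := .node ⟨nat_lit 7, nat_lit 0x4000200060, nat_lit 0x11200, nat_lit 0, nat_lit 4, nat_lit 0x48⟩ (.nil) (.nil)
def t14_4149 : Tr := .node ⟨nat_lit 8, nat_lit 0x80002000c000d000d0, nat_lit 0x10111210, nat_lit 0, nat_lit 4, nat_lit 0x47⟩ (.nil) (.nil)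
def t14_12341 : Tr := .node ⟨nat_lit 6, nat_lit 0x2000200020, nat_lit 0x11410, nat_lit 2, nat_lit 3, nat_lit 0x48⟩ (.nil) (.nil)
def t14_2101 : Tr := .node ⟨nat_lit 7, nat_lit 0x400020002000200050, nat_lit 0x1013100, nat_lit 0, nat_lit 4, nat_lit 0x48⟩ (.nil) (.nil)
def t14_10293 : Tr := .node ⟨nat_lit 7, nat_lit 0x40001000600068, nat_lit 0x1000002, nat_lit 2, nat_lit 4, nat_lit 0x46⟩ (.nil) (.nil)
def t14_6197 : Tr := .node ⟨nat_lit 8, nat_lit 0x80004000200010, nat_lit 0x10001, nat_lit 3, nat_lit 4, nat_lit 0x49⟩ (.nil) (.nil)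
def t14_14389 : Tr := .node ⟨nat_lit 7, nat_lit 0x10006000600070, nat_lit 0x1203, nat_lit 1, nat_lit 4, nat_lit 0x45⟩ (.nil) (.nil)
def t14_1077 : Tr := .node ⟨nat_lit 6, nat_lit 0x2000080030, nat_lit 0x11211, nat_lit 5, nat_lit 4, nat_lit 0x48⟩ (.nil) (.nil)
def t14_9269 : Tr := .node ⟨nat_lit 7, nat_lit 0x400020002000500050, nat_lit 0x12110, nat_lit 0, nat_lit 4, nat_lit 0x46⟩ (.nil) (.nil)
def t14_5173 : Tr := .node ⟨nat_lit 7, nat_lit 0x40001000600070, nat_lit 0x103003, nat_lit 1, nat_lit 4, nat_lit 0x47⟩ (.nil) (.nil)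
def t14_13365 : Tr := .node ⟨nat_lit 6, nat_lit 0x20001000280038, nat_lit 0x2300, nat_lit 3, nat_lit 4, nat_lit 0x46⟩ (.nil) (.nil)
def t14_3125 : Tr := .node ⟨nat_lit 7, nat_lit 0x400020005000680068, nat_lit 0x110021, nat_lit 2, nat_lit 4, nat_lit 0x45⟩ (.nil) (.nil)
def t14_11317 : Tr := .node ⟨nat_lit 8, nat_lit 0x20008000c000c0, nat_lit 0x20120, nat_lit 3, nat_lit 4, nat_lit 0x49⟩ (.nil) (.nil)
def t14_7221 : Tr := .node ⟨nat_lit 7, nat_lit 0x40001000100060, nat_lit 0x1011221, nat_lit 0, nat_lit 4, nat_lit 0x49⟩ (.nil) (.nil)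
def t14_15413 : Tr := .node ⟨nat_lit 7, nat_lit 0x400020005000280070, nat_lit 0x1111100, nat_lit 0, nat_lit 4, nat_lit 0x46⟩ (.nil) (.nil)
def t14_565 : Tr := .node ⟨nat_lit 7, nat_lit 0x10004000600060, nat_lit 0x122, nat_lit 0, nat_lit 4, nat_lit 0x46⟩ (.nil) (.nil)
def t14_8757 : Tr := .node ⟨nat_lit 8, nat_lit 0x800080002000400090, nat_lit 0x1010001, nat_lit 2, nat_lit 4, nat_lit 0x48⟩ (.nil) (.nil)
def t14_4661 : Tr := .node ⟨nat_lit 8, nat_lit 0x40008000900060006000c0, nat_lit 0x1100221, nat_lit 0, nat_lit 4, nat_lit 0x47⟩ (.nil) (.nil)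
def t14_12853 : Tr := .node ⟨nat_lit 7, nat_lit 0x1000600050, nat_lit 0x12020, nat_lit 2, nat_lit 4, nat_lit 0x48⟩ (.nil) (.nil)
def t14_2613 : Tr := .node ⟨nat_lit 8, nat_lit 0x8000400020002000c0, nat_lit 0x1010102, nat_lit 1, nat_lit 4, nat_lit 0x48⟩ (.nil) (.nil)
def t14_10805 : Tr := .node ⟨nat_lit 7, nat_lit 0x4000200010, nat_lit 0x22001, nat_lit 5, nat_lit 3, nat_lit 0x49⟩ (.nil) (.nil)
def t14_6709 : Tr := .node ⟨nat_lit 6, nat_lit 0x20, nat_lit 0x11112, nat_lit 3, nat_lit 4, nat_lit 0x4a⟩ (.nil) (.nil)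
def t14_14901 : Tr := .node ⟨nat_lit 7, nat_lit 0x4000440064, nat_lit 0x1011111, nat_lit 0, nat_lit 4, nat_lit 0x48⟩ (.nil) (.nil)
def t14_1589 : Tr := .node ⟨nat_lit 5, nat_lit 0x40018, nat_lit 0x11110, nat_lit 3, nat_lit 3, nat_lit 0x46⟩ (.nil) (.nil)
def t14_9781 : Tr := .node ⟨nat_lit 8, nat_lit 0x80008800c000c8, nat_lit 0x110020, nat_lit 0, nat_lit 4, nat_lit 0x47⟩ (.nil) (.nil)
def t14_5685 : Tr := .node ⟨nat_lit 7, nat_lit 0x40004800500060, nat_lit 0x110022, nat_lit 3, nat_lit 4, nat_lit 0x47⟩ (.nil) (.nil)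
def t14_13877 : Tr := .node ⟨nat_lit 6, nat_lit 0x800200030, nat_lit 0x320, nat_lit 3, nat_lit 4, nat_lit 0x47⟩ (.nil) (.nil)
def t14_3637 : Tr := .node ⟨nat_lit 3, nat_lit 6, nat_lit 0x300, nat_lit 2, nat_lit 3, nat_lit 0x44⟩ (.nil) (.nil)
def t14_11829 : Tr := .node ⟨nat_lit 6, nat_lit 0x20002000100028, nat_lit 0x30, nat_lit 7, nat_lit 4, nat_lit 0x47⟩ (.nil) (.nil)
def t14_7733 : Tr := .node ⟨nat_lit 4, nat_lit 0x80004, nat_lit 0x22, nat_lit 5, nat_lit 4, nat_lit 0x45⟩ (.nil) (.nil)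
def t9_53 : Tr := .node ⟨nat_lit 5, nat_lit 0x80010, nat_lit 0x13211, nat_lit 5, nat_lit 4, nat_lit 0x4a⟩ (.node ⟨nat_lit 6, nat_lit 0x1000200030, nat_lit 0x113112, nat_lit 2, nat_lit 4, nat_lit 0x49⟩ (.node ⟨nat_lit 6, nat_lit 0x300030, nat_lit 0x4120, nat_lit 0, nat_lit 4, nat_lit 0x48⟩ (.node ⟨nat_lit 6, nat_lit 0x2000200034, nat_lit 0x12101, nat_lit 2, nat_lit 4, nat_lit 0x47⟩ (.node ⟨nat_lit 6, nat_lit 0x200038, nat_lit 0x22013, nat_lit 0, nat_lit 4, nat_lit 0x48⟩ (t14_53) (t14_8245)) (.node ⟨nat_lit 6, nat_lit 0x800300030, nat_lit 0x101010, nat_lit 2, nat_lit 4, nat_lit 0x46⟩ (t14_4149) (t14_12341))) (.node ⟨nat_lit 6, nat_lit 0x2000100038, nat_lit 0x202202, nat_lit 0, nat_lit 4, nat_lit 0x48⟩ (.node ⟨nat_lit 6, nat_lit 0x2000100024, nat_lit 0x11220, nat_lit 0, nat_lit 4, nat_lit 0x47⟩ (t14_2101) (t14_10293)) (.node ⟨nat_lit 6, nat_lit 0x800280030,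 nat_lit 0x120120, nat_lit 2, nat_lit 4, nat_lit 0x47⟩ (t14_6197) (t14_14389)))) (.node ⟨nat_lit 3, nat_lit 6, nat_lit 0x202, nat_lit 6, nat_lit 3, nat_lit 0x44⟩ (.node ⟨nat_lit 6, nat_lit 0x200020, nat_lit 0x221111, nat_lit 2, nat_lit 4, nat_lit 0x4b⟩ (.node ⟨nat_lit 6, nat_lit 0x800300030, nat_lit 0x1320, nat_lit 1, nat_lit 4, nat_lit 0x46⟩ (t14_1077) (t14_9269)) (.node ⟨nat_lit 6, nat_lit 0x2000080030, nat_lit 0x121211, nat_lit 1, nat_lit 3, nat_lit 0x47⟩ (t14_5173) (t14_13365))) (.node ⟨nat_lit 3, nat_lit 0, nat_lit 0x211, nat_lit 0xa, nat_lit 4, nat_lit 0x48⟩ (.node ⟨nat_lit 5, nat_lit 0x140018, nat_lit 0x12003, nat_lit 7, nat_lit 4, nat_lit 0x48⟩ (t14_3125) (t14_11317)) (.node ⟨nat_lit 6, nat_lit 0x300030, nat_lit 0x111121, nat_lit 5, nat_lit 4, nat_lit 0x49⟩ (t14_7221) (t14_15413))))) (.node ⟨nat_lit 4, nat_lit 0x80004, nat_lit 0x323, nat_lit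 5, nat_lit 4, nat_lit 0x48⟩ (.node ⟨nat_lit 5, nat_lit 0x1000100008, nat_lit 0x12110, nat_lit 1, nat_lit 3, nat_lit 0x46⟩ (.node ⟨nat_lit 5, nat_lit 0x1000140014, nat_lit 0x2121, nat_lit 4, nat_lit 4, nat_lit 0x46⟩ (.node ⟨nat_lit 7, nat_lit 0x20002000100040, nat_lit 0x1021011, nat_lit 6, nat_lit 4, nat_lit 0x4a⟩ (t14_565) (t14_8757)) (.node ⟨nat_lit 5, nat_lit 0x1000080014, nat_lit 0x11110, nat_lit 3, nat_lit 4, nat_lit 0x46⟩ (t14_4661) (t14_12853))) (.node ⟨nat_lit 5, nat_lit 0x40018, nat_lit 0x10022, nat_lit 1, nat_lit 4, nat_lit 0x45⟩ (.node ⟨nat_lit 8, nat_lit 0x80004000100020, nat_lit 0x110031, nat_lit 1, nat_lit 4, nat_lit 0x4a⟩ (t14_2613) (t14_10805)) (.node ⟨nat_lit 7, nat_lit 0x10002000200040, nat_lit 0x1122101, nat_lit 1, nat_lit 4, nat_lit 0x4a⟩ (t14_6709) (t14_14901)))) (.node ⟨nat_lit 6, nat_lit 0x1000280034, nat_lit 0x21111, nat_lit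 0, nat_lit 4, nat_lit 0x46⟩ (.node ⟨nat_lit 6, nat_lit 0x200030, nat_lit 0x22111, nat_lit 1, nat_lit 4, nat_lit 0x49⟩ (.node ⟨nat_lit 6, nat_lit 0x20002000200010, nat_lit 0x11103, nat_lit 1, nat_lit 3, nat_lit 0x46⟩ (t14_1589) (t14_9781)) (.node ⟨nat_lit 8, nat_lit 0x800010002000c0, nat_lit 0x11112011, nat_lit 0, nat_lit 4, nat_lit 0x4a⟩ (t14_5685) (t14_13877))) (.node ⟨nat_lit 4, nat_lit 0x80008, nat_lit 0x2222, nat_lit 4, nat_lit 3, nat_lit 0x47⟩ (.node ⟨nat_lit 7, nat_lit 0x20004000680068, nat_lit 0x110030, nat_lit 2, nat_lit 4, nat_lit 0x46⟩ (t14_3637) (t14_11829)) (.node ⟨nat_lit 7, nat_lit 0x40002000200048, nat_lit 0x1112100, nat_lit 1, nat_lit 4, nat_lit 0x49⟩ (t14_7733) (.nil)))))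
def t14_309 : Tr := .node ⟨nat_lit 5, nat_lit 0x80010, nat_lit 0x10242, nat_lit 0, nat_lit 4, nat_lit 0x48⟩ (.nil) (.nil)
def t14_8501 : Tr := .node ⟨nat_lit 8, nat_lit 0x8000400040004000a000d0, nat_lit 0x110011, nat_lit 0, nat_lit 4, nat_lit 0x46⟩ (.nil) (.nil)
def t14_4405 : Tr := .node ⟨nat_lit 8, nat_lit 0x200010008000c2, nat_lit 0x11010010, nat_lit 1, nat_lit 4, nat_lit 0x49⟩ (.nil) (.nil)
def t14_12597 : Tr := .node ⟨nat_lit 8, nat_lit 0x80008800600090, nat_lit 0x1001000, nat_lit 0, nat_lit 4, nat_lit 0x47⟩ (.nil) (.nil)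
def t14_2357 : Tr := .node ⟨nat_lit 8, nat_lit 0x20008000a800a800c8, nat_lit 0x21020101, nat_lit 0, nat_lit 4, nat_lit 0x47⟩ (.nil) (.nil)
def t14_10549 : Tr := .node ⟨nat_lit 8, nat_lit 0x8000a0006000c0, nat_lit 0x11220, nat_lit 0, nat_lit 4, nat_lit 0x47⟩ (.nil) (.nil)
def t14_6453 : Tr := .node ⟨nat_lit 7, nat_lit 0x400020002000500060, nat_lit 0x1001102, nat_lit 2, nat_lit 4, nat_lit 0x47⟩ (.nil) (.nil)
def t14_14645 : Tr := .node ⟨nat_lit 7, nat_lit 0x200040004800600070, nat_lit 0x112011, nat_lit 4, nat_lit 4, nat_lit 0x47⟩ (.nil) (.nil)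
def t14_1333 : Tr := .node ⟨nat_lit 8, nat_lit 0x800040002000c0, nat_lit 0x110112, nat_lit 1, nat_lit 4, nat_lit 0x49⟩ (.nil) (.nil)
def t14_9525 : Tr := .node ⟨nat_lit 6, nat_lit 0x20001000280028, nat_lit 0x111021, nat_lit 2, nat_lit 4, nat_lit 0x47⟩ (.nil) (.nil)
def t14_5429 : Tr := .node ⟨nat_lit 6, nat_lit 0x2000200020, nat_lit 0x11320, nat_lit 5, nat_lit 4, nat_lit 0x4a⟩ (.nil) (.nil)
def t14_13621 : Tr := .node ⟨nat_lit 6, nat_lit 0x20001000100030, nat_lit 1, nat_lit 1, nat_lit 3, nat_lit 0x44⟩ (.nil) (.nil)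
def t14_3381 : Tr := .node ⟨nat_lit 6, nat_lit 0x2000200020, nat_lit 0x21100, nat_lit 0, nat_lit 3, nat_lit 0x47⟩ (.nil) (.nil)
def t14_11573 : Tr := .node ⟨nat_lit 4, nat_lit 0xc000c, nat_lit 0x42, nat_lit 7, nat_lit 4, nat_lit 0x45⟩ (.nil) (.nil)
def t14_7477 : Tr := .node ⟨nat_lit 7, nat_lit 0x2000400062, nat_lit 0x1111101, nat_lit 5, nat_lit 4, nat_lit 0x4a⟩ (.nil) (.nil)
def t14_821 : Tr := .node ⟨nat_lit 7, nat_lit 0x40004000400020, nat_lit 0x113111, nat_lit 2, nat_lit 4, nat_lit 0x4a⟩ (.nil) (.nil)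
def t14_9013 : Tr := .node ⟨nat_lit 8, nat_lit 0x800080008000a000880090, nat_lit 0x1111001, nat_lit 6, nat_lit 4, nat_lit 0x49⟩ (.nil) (.nil)
def t14_4917 : Tr := .node ⟨nat_lit 9, nat_lit 0x100010000400080, nat_lit 0x11111000, nat_lit 3, nat_lit 4, nat_lit 0x4c⟩ (.nil) (.nil)
def t14_13109 : Tr := .node ⟨nat_lit 5, nat_lit 0x1000080014, nat_lit 0x1320, nat_lit 4, nat_lit 4, nat_lit 0x47⟩ (.nil) (.nil)
def t14_2869 : Tr := .node ⟨nat_lit 8, nat_lit 0x80002000c000a000d0, nat_lit 0x31102, nat_lit 0, nat_lit 4, nat_lit 0x47⟩ (.nil) (.nil)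
def t14_11061 : Tr := .node ⟨nat_lit 7, nat_lit 0x1000600060, nat_lit 0x1111120, nat_lit 0, nat_lit 4, nat_lit 0x49⟩ (.nil) (.nil)
def t14_6965 : Tr := .node ⟨nat_lit 4, nat_lit 0xc, nat_lit 0x3111, nat_lit 6, nat_lit 4, nat_lit 0x48⟩ (.nil) (.nil)
def t14_15157 : Tr := .node ⟨nat_lit 7, nat_lit 0x40004000480030, nat_lit 0x111001, nat_lit 1, nat_lit 4, nat_lit 0x47⟩ (.nil) (.nil)
def t14_1845 : Tr := .node ⟨nat_lit 4, nat_lit 0x8000c, nat_lit 0x313, nat_lit 4, nat_lit 4, nat_lit 0x47⟩ (.nil) (.nil)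
def t14_10037 : Tr := .node ⟨nat_lit 7, nat_lit 0x5000600070, nat_lit 0x11022, nat_lit 0, nat_lit 4, nat_lit 0x46⟩ (.nil) (.nil)
def t14_5941 : Tr := .node ⟨nat_lit 7, nat_lit 0x4000400044, nat_lit 0x111211, nat_lit 3, nat_lit 4, nat_lit 0x4a⟩ (.nil) (.nil)
def t14_14133 : Tr := .node ⟨nat_lit 8, nat_lit 0x800080002000200040, nat_lit 0x1000210, nat_lit 3, nat_lit 4, nat_lit 0x49⟩ (.nil) (.nil)
def t14_3893 : Tr := .node ⟨nat_lit 7, nat_lit 0x200040004000680068, nat_lit 0x1021110, nat_lit 3, nat_lit 4, nat_lit 0x47⟩ (.nil) (.nil)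
def t14_12085 : Tr := .node ⟨nat_lit 7, nat_lit 0x40001000480060, nat_lit 0x113000, nat_lit 1, nat_lit 4, nat_lit 0x48⟩ (.nil) (.nil)
def t14_7989 : Tr := .node ⟨nat_lit 6, nat_lit 0x20002000280028, nat_lit 0x11121, nat_lit 9, nat_lit 4, nat_lit 0x48⟩ (.nil) (.nil)
def t9_309 : Tr := .node ⟨nat_lit 5, nat_lit 0x10, nat_lit 0x13211, nat_lit 2, nat_lit 4, nat_lit 0x4a⟩ (.node ⟨nat_lit 6, nat_lit 0x280030, nat_lit 0x23120, nat_lit 1, nat_lit 4, nat_lit 0x49⟩ (.node ⟨nat_lit 4, nat_lit 0, nat_lit 0x3111, nat_lit 0xc, nat_lit 4, nat_lit 0x4b⟩ (.node ⟨nat_lit 4, nat_lit 0x8000c, nat_lit 0x1132, nat_lit 7, nat_lit 4, nat_lit 0x47⟩ (.node ⟨nat_lit 6, nat_lit 0x2000100008, nat_lit 0x12011, nat_lit 9, nat_lit 4, nat_lit 0x4a⟩ (t14_309) (t14_8501)) (.node ⟨nat_lit 7, nat_lit 0x20004000640068, nat_lit 0x111101, nat_lit 0, nat_lit 4, nat_lit 0x46⟩ (t14_4405)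 (t14_12597))) (.node ⟨nat_lit 6, nat_lit 0x300030, nat_lit 0x201122, nat_lit 0, nat_lit 4, nat_lit 0x48⟩ (.node ⟨nat_lit 7, nat_lit 0x200040003000480060, nat_lit 0x1112003, nat_lit 2, nat_lit 4, nat_lit 0x48⟩ (t14_2357) (t14_10549)) (.node ⟨nat_lit 6, nat_lit 0x2000080030, nat_lit 0x21210, nat_lit 3, nat_lit 4, nat_lit 0x48⟩ (t14_6453) (t14_14645)))) (.node ⟨nat_lit 6, nat_lit 0x280030, nat_lit 0x12110, nat_lit 1, nat_lit 4, nat_lit 0x47⟩ (.node ⟨nat_lit 6, nat_lit 0x1000200022, nat_lit 0x222220, nat_lit 0, nat_lit 4, nat_lit 0x4a⟩ (.node ⟨nat_lit 7, nat_lit 0x400020002000500070, nat_lit 0x1011103, nat_lit 0, nat_lit 4, nat_lit 0x46⟩ (t14_1333) (t14_9525)) (.node ⟨nat_lit 6, nat_lit 0x1000200030, nat_lit 0x12122, nat_lit 2, nat_lit 4, nat_lit 0x48⟩ (t14_5429) (t14_13621))) (.node ⟨nat_lit 6, nat_lit 0x2000240018, nat_lit 0x211200, nat_lit 0, nat_lit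 4, nat_lit 0x48⟩ (.node ⟨nat_lit 5, nat_lit 0x180018, nat_lit 0x11230, nat_lit 3, nat_lit 3, nat_lit 0x46⟩ (t14_3381) (t14_11573)) (.node ⟨nat_lit 7, nat_lit 0x20002000400068, nat_lit 0x1012112, nat_lit 1, nat_lit 4, nat_lit 0x48⟩ (t14_7477) (.nil))))) (.node ⟨nat_lit 6, nat_lit 0x200030, nat_lit 0x3101, nat_lit 5, nat_lit 4, nat_lit 0x49⟩ (.node ⟨nat_lit 6, nat_lit 0x2000100024, nat_lit 0x21120, nat_lit 2, nat_lit 4, nat_lit 0x48⟩ (.node ⟨nat_lit 3, nat_lit 0, nat_lit 0x111, nat_lit 9, nat_lit 4, nat_lit 0x47⟩ (.node ⟨nat_lit 5, nat_lit 0x80010, nat_lit 0x32221, nat_lit 0, nat_lit 4, nat_lit 0x4a⟩ (t14_821) (t14_9013)) (.node ⟨nat_lit 7, nat_lit 0x4000100060, nat_lit 0x2111012, nat_lit 1, nat_lit 4, nat_lit 0x4a⟩ (t14_4917) (t14_13109))) (.node ⟨nat_lit 8, nat_lit 0x200080004000c0, nat_lit 0x1010012, nat_lit 0, nat_lit 4, nat_lit 0x49⟩ (.node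 ⟨nat_lit 3, nat_lit 0x40006, nat_lit 0x121, nat_lit 0xb, nat_lit 4, nat_lit 0x46⟩ (t14_2869) (t14_11061)) (.node ⟨nat_lit 9, nat_lit 0x1000040008001100110, nat_lit 0x101111020, nat_lit 0, nat_lit 4, nat_lit 0x4a⟩ (t14_6965) (t14_15157)))) (.node ⟨nat_lit 5, nat_lit 0x140018, nat_lit 0x11201, nat_lit 5, nat_lit 4, nat_lit 0x47⟩ (.node ⟨nat_lit 6, nat_lit 0x2000080030, nat_lit 0x112311, nat_lit 0, nat_lit 3, nat_lit 0x47⟩ (.node ⟨nat_lit 6, nat_lit 0x20001000100038, nat_lit 0x101113, nat_lit 2, nat_lit 4, nat_lit 0x46⟩ (t14_1845) (t14_10037)) (.node ⟨nat_lit 6, nat_lit 0x2000080030, nat_lit 0x21102, nat_lit 3, nat_lit 4, nat_lit 0x48⟩ (t14_5941) (t14_14133))) (.node ⟨nat_lit 5, nat_lit 0x1000100018, nat_lit 0x1221, nat_lit 4, nat_lit 4, nat_lit 0x47⟩ (.node ⟨nat_lit 7, nat_lit 0x40001000600070, nat_lit 0x1010203, nat_lit 0, nat_lit 4, nat_lit 0x47⟩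 (t14_3893) (t14_12085)) (.node ⟨nat_lit 6, nat_lit 0x20001000100010, nat_lit 0x101211, nat_lit 1, nat_lit 3, nat_lit 0x46⟩ (t14_7989) (.nil)))))
def t14_181 : Tr := .node ⟨nat_lit 7, nat_lit 0x2000400060, nat_lit 0x1021211, nat_lit 2, nat_lit 4, nat_lit 0x4a⟩ (.nil) (.nil)
def t14_8373 : Tr := .node ⟨nat_lit 7, nat_lit 0x4000200064, nat_lit 0x110213, nat_lit 0, nat_lit 4, nat_lit 0x48⟩ (.nil) (.nil)
def t14_4277 : Tr := .node ⟨nat_lit 9, nat_lit 0x1000080008000800040, nat_lit 0x1201101, nat_lit 1, nat_lit 4, nat_lit 0x4b⟩ (.nil) (.nil)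
def t14_12469 : Tr := .node ⟨nat_lit 7, nat_lit 0x400040002000200050, nat_lit 0x2310, nat_lit 1, nat_lit 4, nat_lit 0x47⟩ (.nil) (.nil)
def t14_2229 : Tr := .node ⟨nat_lit 8, nat_lit 0x80008000800040, nat_lit 0x1112210, nat_lit 0, nat_lit 4, nat_lit 0x4b⟩ (.nil) (.nil)
def t14_10421 : Tr := .node ⟨nat_lit 6, nat_lit 0x2000200030, nat_lit 0x1003, nat_lit 4, nat_lit 4, nat_lit 0x47⟩ (.nil) (.nil)
def t14_6325 : Tr := .node ⟨nat_lit 6, nat_lit 0x10002000200034, nat_lit 0x102000, nat_lit 3, nat_lit 4, nat_lit 0x46⟩ (.nil) (.nil)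
def t14_14517 : Tr := .node ⟨nat_lit 9, nat_lit 0x100002001800140, nat_lit 0x12010, nat_lit 3, nat_lit 4, nat_lit 0x4a⟩ (.nil) (.nil)
def t14_1205 : Tr := .node ⟨nat_lit 7, nat_lit 0x40002000480060, nat_lit 0x11221, nat_lit 2, nat_lit 4, nat_lit 0x47⟩ (.nil) (.nil)
def t14_9397 : Tr := .node ⟨nat_lit 7, nat_lit 0x40004000600060, nat_lit 0x21022, nat_lit 1, nat_lit 3, nat_lit 0x46⟩ (.nil) (.nil)
def t14_5301 : Tr := .node ⟨nat_lit 5, nat_lit 0x10001a, nat_lit 0x11110, nat_lit 5, nat_lit 4, nat_lit 0x47⟩ (.nil) (.nil)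
def t14_13493 : Tr := .node ⟨nat_lit 9, nat_lit 0x400100002001080180, nat_lit 0x3010, nat_lit 0, nat_lit 4, nat_lit 0x49⟩ (.nil) (.nil)
def t14_3253 : Tr := .node ⟨nat_lit 8, nat_lit 0x80004000c000d000c8, nat_lit 0x122110, nat_lit 0, nat_lit 4, nat_lit 0x47⟩ (.nil) (.nil)
def t14_11445 : Tr := .node ⟨nat_lit 8, nat_lit 0x8000800040004000c800c8, nat_lit 0x1110120, nat_lit 2, nat_lit 4, nat_lit 0x47⟩ (.nil) (.nil)
def t14_7349 : Tr := .node ⟨nat_lit 7, nat_lit 0x20004000100068, nat_lit 0x1211101, nat_lit 2, nat_lit 4, nat_lit 0x49⟩ (.nil) (.nil)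
def t14_15541 : Tr := .node ⟨nat_lit 8, nat_lit 0, nat_lit 0x21111111, nat_lit 1, nat_lit 4, nat_lit 0x4f⟩ (.nil) (.nil)
def t14_693 : Tr := .node ⟨nat_lit 7, nat_lit 0x40001000100060, nat_lit 0x3101, nat_lit 1, nat_lit 4, nat_lit 0x47⟩ (.nil) (.nil)
def t14_8885 : Tr := .node ⟨nat_lit 7, nat_lit 0x40004000100060, nat_lit 0x10013, nat_lit 0, nat_lit 4, nat_lit 0x47⟩ (.nil) (.nil)
def t14_4789 : Tr := .node ⟨nat_lit 7, nat_lit 0x1000500060, nat_lit 0x211220, nat_lit 1, nat_lit 4, nat_lit 0x49⟩ (.nil) (.nil)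
def t14_12981 : Tr := .node ⟨nat_lit 3, nat_lit 0x40006, nat_lit 0x21, nat_lit 0xb, nat_lit 4, nat_lit 0x45⟩ (.nil) (.nil)
def t14_2741 : Tr := .node ⟨nat_lit 7, nat_lit 0x20004000400060, nat_lit 0x22100, nat_lit 1, nat_lit 4, nat_lit 0x48⟩ (.nil) (.nil)
def t14_10933 : Tr := .node ⟨nat_lit 5, nat_lit 0x1000180018, nat_lit 0x2310, nat_lit 2, nat_lit 3, nat_lit 0x45⟩ (.nil) (.nil)
def t14_6837 : Tr := .node ⟨nat_lit 7, nat_lit 0x400060, nat_lit 0x111120, nat_lit 2, nat_lit 4, nat_lit 0x4a⟩ (.nil) (.nil)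
def t14_15029 : Tr := .node ⟨nat_lit 9, nat_lit 0x100008000800140014001a001a0, nat_lit 0x11011110, nat_lit 2, nat_lit 4, nat_lit 0x47⟩ (.nil) (.nil)
def t14_1717 : Tr := .node ⟨nat_lit 8, nat_lit 0x800090006000c000d0, nat_lit 0x10111121, nat_lit 0, nat_lit 4, nat_lit 0x47⟩ (.nil) (.nil)
def t14_9909 : Tr := .node ⟨nat_lit 7, nat_lit 0x10006000600060, nat_lit 0x430, nat_lit 2, nat_lit 4, nat_lit 0x47⟩ (.nil) (.nil)
def t14_5813 : Tr := .node ⟨nat_lit 6, nat_lit 0x20, nat_lit 0x11113, nat_lit 2, nat_lit 4, nat_lit 0x4a⟩ (.nil) (.nil)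
def t14_14005 : Tr := .node ⟨nat_lit 7, nat_lit 0x20001000100040, nat_lit 0x1002211, nat_lit 0, nat_lit 4, nat_lit 0x48⟩ (.nil) (.nil)
def t14_3765 : Tr := .node ⟨nat_lit 9, nat_lit 0x100010001000080012001a001c0, nat_lit 0x20012, nat_lit 1, nat_lit 4, nat_lit 0x47⟩ (.nil) (.nil)
def t14_11957 : Tr := .node ⟨nat_lit 4, nat_lit 0x8000a, nat_lit 0x231, nat_lit 6, nat_lit 4, nat_lit 0x47⟩ (.nil) (.nil)
def t14_7861 : Tr := .node ⟨nat_lit 6, nat_lit 0x2000240030, nat_lit 0x11111, nat_lit 4, nat_lit 4, nat_lit 0x47⟩ (.nil) (.nil)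
def t9_181 : Tr := .node ⟨nat_lit 4, nat_lit 0, nat_lit 0x3311, nat_lit 3, nat_lit 4, nat_lit 0x4a⟩ (.node ⟨nat_lit 6, nat_lit 0x2000100030, nat_lit 0x13022, nat_lit 4, nat_lit 4, nat_lit 0x49⟩ (.node ⟨nat_lit 6, nat_lit 0x300030, nat_lit 0x103022, nat_lit 0, nat_lit 4, nat_lit 0x48⟩ (.node ⟨nat_lit 5, nat_lit 0x100010, nat_lit 0x1100, nat_lit 0, nat_lit 3, nat_lit 0x45⟩ (.node ⟨nat_lit 7, nat_lit 0x40004000100060, nat_lit 0x212012, nat_lit 0, nat_lit 4, nat_lit 0x49⟩ (t14_181) (t14_8373)) (.node ⟨nat_lit 7, nat_lit 0x4000100060, nat_lit 0x10002, nat_lit 0, nat_lit 4, nat_lit 0x47⟩ (t14_4277) (t14_12469))) (.node ⟨nat_lit 6, nat_lit 0x30, nat_lit 0x221113, nat_lit 1, nat_lit 4, nat_lit 0x4b⟩ (.node ⟨nat_lit 5, nat_lit 0x40018, nat_lit 0x11021, nat_lit 2, nat_lit 4, nat_lit 0x46⟩ (t14_2229) (t14_10421)) (.node ⟨nat_lit 6, nat_lit 0x2000240030, nat_lit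 0x12202, nat_lit 4, nat_lit 4, nat_lit 0x48⟩ (t14_6325) (t14_14517)))) (.node ⟨nat_lit 5, nat_lit 0x100018, nat_lit 0x11121, nat_lit 7, nat_lit 4, nat_lit 0x48⟩ (.node ⟨nat_lit 6, nat_lit 0x2000200034, nat_lit 0x121111, nat_lit 5, nat_lit 4, nat_lit 0x49⟩ (.node ⟨nat_lit 5, nat_lit 0x100012, nat_lit 0x11130, nat_lit 6, nat_lit 4, nat_lit 0x49⟩ (t14_1205) (t14_9397)) (.node ⟨nat_lit 7, nat_lit 0x40004000600068, nat_lit 0x121012, nat_lit 3, nat_lit 4, nat_lit 0x48⟩ (t14_5301) (t14_13493))) (.node ⟨nat_lit 7, nat_lit 0x200040003000480070, nat_lit 0x222001, nat_lit 0, nat_lit 4, nat_lit 0x47⟩ (.node ⟨nat_lit 5, nat_lit 0x1000100008, nat_lit 0x10201, nat_lit 0, nat_lit 3, nat_lit 0x45⟩ (t14_3253) (t14_11445)) (.node ⟨nat_lit 7, nat_lit 0x4000400064, nat_lit 0x1111102, nat_lit 0, nat_lit 4, nat_lit 0x49⟩ (t14_7349) (t14_15541))))) (.node ⟨nat_lit 4,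 nat_lit 8, nat_lit 0x3112, nat_lit 8, nat_lit 4, nat_lit 0x4a⟩ (.node ⟨nat_lit 5, nat_lit 0x140018, nat_lit 0x11221, nat_lit 3, nat_lit 4, nat_lit 0x47⟩ (.node ⟨nat_lit 8, nat_lit 0x80004000400020, nat_lit 0x120201, nat_lit 0, nat_lit 4, nat_lit 0x4a⟩ (.node ⟨nat_lit 6, nat_lit 0x2000080030, nat_lit 0x201120, nat_lit 1, nat_lit 4, nat_lit 0x48⟩ (t14_693) (t14_8885)) (.node ⟨nat_lit 7, nat_lit 0x40002000200064, nat_lit 0x112200, nat_lit 0, nat_lit 4, nat_lit 0x48⟩ (t14_4789) (t14_12981))) (.node ⟨nat_lit 6, nat_lit 0x2000080030, nat_lit 0x11101, nat_lit 0, nat_lit 4, nat_lit 0x46⟩ (.node ⟨nat_lit 7, nat_lit 0x20003000500068, nat_lit 0x1002130, nat_lit 0, nat_lit 4, nat_lit 0x46⟩ (t14_2741) (t14_10933)) (.node ⟨nat_lit 6, nat_lit 0x2000080030, nat_lit 0x110112, nat_lit 1, nat_lit 4, nat_lit 0x47⟩ (t14_6837) (t14_15029)))) (.node ⟨nat_lit 6, nat_lit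 0x200032, nat_lit 0x111122, nat_lit 0, nat_lit 4, nat_lit 0x48⟩ (.node ⟨nat_lit 7, nat_lit 0x20004000600068, nat_lit 0x122111, nat_lit 0, nat_lit 4, nat_lit 0x48⟩ (.node ⟨nat_lit 7, nat_lit 0x4000480070, nat_lit 0x100013, nat_lit 3, nat_lit 4, nat_lit 0x47⟩ (t14_1717) (t14_9909)) (.node ⟨nat_lit 7, nat_lit 0x20004000640064, nat_lit 0x2022010, nat_lit 2, nat_lit 4, nat_lit 0x48⟩ (t14_5813) (t14_14005))) (.node ⟨nat_lit 6, nat_lit 0x2000080030, nat_lit 0x22200, nat_lit 1, nat_lit 4, nat_lit 0x48⟩ (.node ⟨nat_lit 6, nat_lit 0x800300028, nat_lit 0x11103, nat_lit 3, nat_lit 4, nat_lit 0x47⟩ (t14_3765) (t14_11957)) (.node ⟨nat_lit 6, nat_lit 0x300030, nat_lit 0x102121, nat_lit 2, nat_lit 3, nat_lit 0x47⟩ (t14_7861) (.nil)))))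
def t14_437 : Tr := .node ⟨nat_lit 5, nat_lit 0x100018001c, nat_lit 0x12121, nat_lit 5, nat_lit 4, nat_lit 0x47⟩ (.nil) (.nil)
def t14_8629 : Tr := .node ⟨nat_lit 6, nat_lit 0x20001000280034, nat_lit 0x1010, nat_lit 5, nat_lit 4, nat_lit 0x45⟩ (.nil) (.nil)
def t14_4533 : Tr := .node ⟨nat_lit 6, nat_lit 0x800100020, nat_lit 0x111101, nat_lit 0xa, nat_lit 4, nat_lit 0x4a⟩ (.nil) (.nil)
def t14_12725 : Tr := .node ⟨nat_lit 7, nat_lit 0x800500060, nat_lit 0x1011020, nat_lit 1, nat_lit 4, nat_lit 0x48⟩ (.nil) (.nil)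
def t14_2485 : Tr := .node ⟨nat_lit 7, nat_lit 0x4000600064, nat_lit 0x1010202, nat_lit 0, nat_lit 4, nat_lit 0x48⟩ (.nil) (.nil)
def t14_10677 : Tr := .node ⟨nat_lit 7, nat_lit 0x800500060, nat_lit 0x10002, nat_lit 2, nat_lit 4, nat_lit 0x47⟩ (.nil) (.nil)
def t14_6581 : Tr := .node ⟨nat_lit 7, nat_lit 0x10004000440060, nat_lit 0x200210, nat_lit 2, nat_lit 4, nat_lit 0x48⟩ (.nil) (.nil)
def t14_14773 : Tr := .node ⟨nat_lit 9, nat_lit 0x200100004001800140, nat_lit 0x1001112, nat_lit 0, nat_lit 4, nat_lit 0x49⟩ (.nil) (.nil)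
def t14_1461 : Tr := .node ⟨nat_lit 8, nat_lit 0x800040004000a000e000d0, nat_lit 0x10002011, nat_lit 1, nat_lit 4, nat_lit 0x46⟩ (.nil) (.nil)
def t14_9653 : Tr := .node ⟨nat_lit 7, nat_lit 0x4000200020, nat_lit 0x21030, nat_lit 0, nat_lit 3, nat_lit 0x48⟩ (.nil) (.nil)
def t14_5557 : Tr := .node ⟨nat_lit 6, nat_lit 0x2000300030, nat_lit 0x11220, nat_lit 7, nat_lit 4, nat_lit 0x48⟩ (.nil) (.nil)
def t14_13749 : Tr := .node ⟨nat_lit 5, nat_lit 0x80010001a, nat_lit 0x20, nat_lit 5, nat_lit 4, nat_lit 0x45⟩ (.nil) (.nil)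
def t14_3509 : Tr := .node ⟨nat_lit 6, nat_lit 0x30000c, nat_lit 0, nat_lit 1, nat_lit 4, nat_lit 0x44⟩ (.nil) (.nil)
def t14_11701 : Tr := .node ⟨nat_lit 7, nat_lit 0x6000180050, nat_lit 0x1001102, nat_lit 1, nat_lit 4, nat_lit 0x47⟩ (.nil) (.nil)
def t14_7605 : Tr := .node ⟨nat_lit 6, nat_lit 0x800200030, nat_lit 0x24, nat_lit 0, nat_lit 4, nat_lit 0x46⟩ (.nil) (.nil)
def t14_949 : Tr := .node ⟨nat_lit 7, nat_lit 0x40004000400020, nat_lit 0x112201, nat_lit 4, nat_lit 4, nat_lit 0x4a⟩ (.nil) (.nil)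
def t14_9141 : Tr := .node ⟨nat_lit 8, nat_lit 0x8000800040009000a000c0, nat_lit 0x100012, nat_lit 3, nat_lit 4, nat_lit 0x47⟩ (.nil) (.nil)
def t14_5045 : Tr := .node ⟨nat_lit 6, nat_lit 0x3000280028, nat_lit 0x1141, nat_lit 4, nat_lit 4, nat_lit 0x47⟩ (.nil) (.nil)
def t14_13237 : Tr := .node ⟨nat_lit 6, nat_lit 0x2000080034, nat_lit 0x10113, nat_lit 0, nat_lit 4, nat_lit 0x45⟩ (.nil) (.nil)
def t14_2997 : Tr := .node ⟨nat_lit 8, nat_lit 0x400040008000800080, nat_lit 0x1110211, nat_lit 0, nat_lit 4, nat_lit 0x4a⟩ (.nil) (.nil)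
def t14_11189 : Tr := .node ⟨nat_lit 7, nat_lit 0x6000180018, nat_lit 0x1010120, nat_lit 0, nat_lit 4, nat_lit 0x47⟩ (.nil) (.nil)
def t14_7093 : Tr := .node ⟨nat_lit 5, nat_lit 0x180018, nat_lit 0x20211, nat_lit 7, nat_lit 4, nat_lit 0x48⟩ (.nil) (.nil)
def t14_15285 : Tr := .node ⟨nat_lit 6, nat_lit 0x2800300030, nat_lit 0x110122, nat_lit 3, nat_lit 4, nat_lit 0x47⟩ (.nil) (.nil)
def t14_1973 : Tr := .node ⟨nat_lit 7, nat_lit 0x10002000400060, nat_lit 0x200112, nat_lit 0, nat_lit 4, nat_lit 0x48⟩ (.nil) (.nil)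
def t14_10165 : Tr := .node ⟨nat_lit 8, nat_lit 0x4000a000a000c0, nat_lit 0x10202, nat_lit 4, nat_lit 4, nat_lit 0x48⟩ (.nil) (.nil)
def t14_6069 : Tr := .node ⟨nat_lit 7, nat_lit 0x1000500060, nat_lit 0x111022, nat_lit 0, nat_lit 4, nat_lit 0x48⟩ (.nil) (.nil)
def t14_14261 : Tr := .node ⟨nat_lit 8, nat_lit 0x80009000a0006000d0, nat_lit 0x1011002, nat_lit 1, nat_lit 4, nat_lit 0x46⟩ (.nil) (.nil)
def t14_4021 : Tr := .node ⟨nat_lit 7, nat_lit 0x40002000480068, nat_lit 0x1011011, nat_lit 1, nat_lit 4, nat_lit 0x47⟩ (.nil) (.nil)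
def t14_12213 : Tr := .node ⟨nat_lit 6, nat_lit 0x1000280030, nat_lit 0x211220, nat_lit 1, nat_lit 4, nat_lit 0x48⟩ (.nil) (.nil)
def t14_8117 : Tr := .node ⟨nat_lit 6, nat_lit 0x20002800280030, nat_lit 0x1310, nat_lit 9, nat_lit 4, nat_lit 0x47⟩ (.nil) (.nil)
def t9_437 : Tr := .node ⟨nat_lit 6, nat_lit 0x100020, nat_lit 0x123220, nat_lit 0, nat_lit 4, nat_lit 0x4b⟩ (.node ⟨nat_lit 6, nat_lit 0x20002800280038, nat_lit 0x310102, nat_lit 5, nat_lit 4, nat_lit 0x48⟩ (.node ⟨nat_lit 6, nat_lit 0x1000300028, nat_lit 0x12212, nat_lit 0, nat_lit 4, nat_lit 0x47⟩ (.node ⟨nat_lit 5, nat_lit 0x100008, nat_lit 0x21103, nat_lit 1, nat_lit 3, nat_lit 0x47⟩ (.node ⟨nat_lit 7, nat_lit 0x6000180050, nat_lit 0x2210, nat_lit 1, nat_lit 4, nat_lit 0x47⟩ (t14_437) (t14_8629)) (.node ⟨nat_lit 6, nat_lit 0x2000080030, nat_lit 0x121202, nat_lit 3, nat_lit 4, nat_lit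 0x49⟩ (t14_4533) (t14_12725))) (.node ⟨nat_lit 8, nat_lit 0x80004000200010, nat_lit 0x20001, nat_lit 0, nat_lit 3, nat_lit 0x48⟩ (.node ⟨nat_lit 6, nat_lit 0x280030, nat_lit 0x111110, nat_lit 0, nat_lit 4, nat_lit 0x47⟩ (t14_2485) (t14_10677)) (.node ⟨nat_lit 7, nat_lit 0x20002000400060, nat_lit 0x1022211, nat_lit 0, nat_lit 4, nat_lit 0x49⟩ (t14_6581) (t14_14773)))) (.node ⟨nat_lit 5, nat_lit 0x100018, nat_lit 0x2111, nat_lit 4, nat_lit 4, nat_lit 0x47⟩ (.node ⟨nat_lit 6, nat_lit 0x2000100024, nat_lit 0x21222, nat_lit 0, nat_lit 4, nat_lit 0x48⟩ (.node ⟨nat_lit 7, nat_lit 0x10001000100060, nat_lit 0x1101003, nat_lit 1, nat_lit 4, nat_lit 0x48⟩ (t14_1461) (t14_9653)) (.node ⟨nat_lit 8, nat_lit 0x400080008000200088, nat_lit 0x10102201, nat_lit 1, nat_lit 4, nat_lit 0x4a⟩ (t14_5557) (t14_13749))) (.node ⟨nat_lit 6, nat_lit 0x200030, nat_lit 0x121102,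 nat_lit 0, nat_lit 4, nat_lit 0x49⟩ (.node ⟨nat_lit 6, nat_lit 0x1000280034, nat_lit 0x11000, nat_lit 1, nat_lit 4, nat_lit 0x45⟩ (t14_3509) (t14_11701)) (.node ⟨nat_lit 8, nat_lit 0x800020008800c0, nat_lit 0x11112101, nat_lit 0, nat_lit 4, nat_lit 0x4a⟩ (t14_7605) (.nil))))) (.node ⟨nat_lit 6, nat_lit 0x800300030, nat_lit 0x3220, nat_lit 0, nat_lit 4, nat_lit 0x47⟩ (.node ⟨nat_lit 6, nat_lit 0x80030, nat_lit 0x200221, nat_lit 0, nat_lit 4, nat_lit 0x48⟩ (.node ⟨nat_lit 8, nat_lit 0x400080008000200088, nat_lit 0x10101111, nat_lit 1, nat_lit 4, nat_lit 0x49⟩ (.node ⟨nat_lit 6, nat_lit 0x800100020, nat_lit 0x111141, nat_lit 1, nat_lit 4, nat_lit 0x49⟩ (t14_949) (t14_9141)) (.node ⟨nat_lit 6, nat_lit 0, nat_lit 0x222221, nat_lit 0, nat_lit 4, nat_lit 0x4d⟩ (t14_5045) (t14_13237))) (.node ⟨nat_lit 6, nat_lit 0x200020003000300030, nat_lit 0x102200,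 nat_lit 4, nat_lit 4, nat_lit 0x47⟩ (.node ⟨nat_lit 7, nat_lit 0x4000440044, nat_lit 0x1111210, nat_lit 1, nat_lit 4, nat_lit 0x4a⟩ (t14_2997) (t14_11189)) (.node ⟨nat_lit 6, nat_lit 0x800080030, nat_lit 0x101112, nat_lit 0, nat_lit 4, nat_lit 0x47⟩ (t14_7093) (t14_15285)))) (.node ⟨nat_lit 6, nat_lit 0x800100020, nat_lit 0x112010, nat_lit 1, nat_lit 4, nat_lit 0x48⟩ (.node ⟨nat_lit 8, nat_lit 0x800080008800900060, nat_lit 0x12011101, nat_lit 1, nat_lit 4, nat_lit 0x49⟩ (.node ⟨nat_lit 5, nat_lit 0x100018, nat_lit 0x11113, nat_lit 5, nat_lit 4, nat_lit 0x48⟩ (t14_1973) (t14_10165)) (.node ⟨nat_lit 7, nat_lit 0x400020002000500060, nat_lit 0x12020, nat_lit 1, nat_lit 4, nat_lit 0x46⟩ (t14_6069) (t14_14261))) (.node ⟨nat_lit 2, nat_lit 2, nat_lit 0x31, nat_lit 0xf, nat_lit 3, nat_lit 0x46⟩ (.node ⟨nat_lit 7, nat_lit 0x20004000440030, nat_lit 0x1000200,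 nat_lit 1, nat_lit 4, nat_lit 0x47⟩ (t14_4021) (t14_12213)) (.node ⟨nat_lit 8, nat_lit 0x800040004000a000c800d0, nat_lit 0x1111111, nat_lit 0, nat_lit 4, nat_lit 0x46⟩ (t14_8117) (.nil)))))
def t14_117 : Tr := .node ⟨nat_lit 7, nat_lit 0x40002000500064, nat_lit 0x221111, nat_lit 0, nat_lit 4, nat_lit 0x48⟩ (.nil) (.nil)
def t14_8309 : Tr := .node ⟨nat_lit 5, nat_lit 0x1000140018, nat_lit 0x1220, nat_lit 4, nat_lit 4, nat_lit 0x46⟩ (.nil) (.nil)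
def t14_4213 : Tr := .node ⟨nat_lit 9, nat_lit 0x1000100010000800110, nat_lit 0x11111010, nat_lit 2, nat_lit 4, nat_lit 0x4b⟩ (.nil) (.nil)
def t14_12405 : Tr := .node ⟨nat_lit 6, nat_lit 0x2000340038, nat_lit 0x1103, nat_lit 3, nat_lit 4, nat_lit 0x45⟩ (.nil) (.nil)
def t14_2165 : Tr := .node ⟨nat_lit 7, nat_lit 0x40002000200048, nat_lit 0x112102, nat_lit 0, nat_lit 4, nat_lit 0x48⟩ (.nil) (.nil)
def t14_10357 : Tr := .node ⟨nat_lit 7, nat_lit 0x400020005000500060, nat_lit 0x21200, nat_lit 2, nat_lit 4, nat_lit 0x47⟩ (.nil) (.nil)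
def t14_6261 : Tr := .node ⟨nat_lit 6, nat_lit 0x1000200020, nat_lit 0x111111, nat_lit 4, nat_lit 4, nat_lit 0x49⟩ (.nil) (.nil)
def t14_14453 : Tr := .node ⟨nat_lit 7, nat_lit 0x1000600060, nat_lit 0x1022, nat_lit 1, nat_lit 4, nat_lit 0x47⟩ (.nil) (.nil)
def t14_1141 : Tr := .node ⟨nat_lit 7, nat_lit 0x20001000400062, nat_lit 0x1011101, nat_lit 1, nat_lit 4, nat_lit 0x47⟩ (.nil) (.nil)
def t14_9333 : Tr := .node ⟨nat_lit 8, nat_lit 0x40004000a000d000d0, nat_lit 0x110122, nat_lit 0, nat_lit 4, nat_lit 0x46⟩ (.nil) (.nil)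
def t14_5237 : Tr := .node ⟨nat_lit 7, nat_lit 0x400040002000200050, nat_lit 0x21111, nat_lit 0, nat_lit 4, nat_lit 0x47⟩ (.nil) (.nil)
def t14_13429 : Tr := .node ⟨nat_lit 7, nat_lit 0x200040004000440068, nat_lit 0x30100, nat_lit 2, nat_lit 4, nat_lit 0x46⟩ (.nil) (.nil)
def t14_3189 : Tr := .node ⟨nat_lit 7, nat_lit 0x400020002000200050, nat_lit 0x1012110, nat_lit 2, nat_lit 4, nat_lit 0x48⟩ (.nil) (.nil)
def t14_11381 : Tr := .node ⟨nat_lit 6, nat_lit 0x20001000100010, nat_lit 0x1100, nat_lit 1, nat_lit 3, nat_lit 0x45⟩ (.nil) (.nil)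
def t14_7285 : Tr := .node ⟨nat_lit 6, nat_lit 0x1000280034, nat_lit 0x120020, nat_lit 1, nat_lit 4, nat_lit 0x46⟩ (.nil) (.nil)
def t14_15477 : Tr := .node ⟨nat_lit 0xa, nat_lit 0x2000080004000200300, nat_lit 0x1100010002, nat_lit 0, nat_lit 4, nat_lit 0x4b⟩ (.nil) (.nil)
def t14_629 : Tr := .node ⟨nat_lit 7, nat_lit 0x400040002000200050, nat_lit 0x12221, nat_lit 0, nat_lit 4, nat_lit 0x47⟩ (.nil) (.nil)
def t14_8821 : Tr := .node ⟨nat_lit 7, nat_lit 0x20002000400068, nat_lit 0x22003, nat_lit 3, nat_lit 4, nat_lit 0x48⟩ (.nil) (.nil)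
def t14_4725 : Tr := .node ⟨nat_lit 8, nat_lit 0x80001000a000c0, nat_lit 0x10111021, nat_lit 0, nat_lit 4, nat_lit 0x49⟩ (.nil) (.nil)
def t14_12917 : Tr := .node ⟨nat_lit 6, nat_lit 0x2000300034, nat_lit 0x11200, nat_lit 3, nat_lit 4, nat_lit 0x47⟩ (.nil) (.nil)
def t14_2677 : Tr := .node ⟨nat_lit 8, nat_lit 0x6000a000a000c0, nat_lit 0x1010103, nat_lit 0, nat_lit 4, nat_lit 0x47⟩ (.nil) (.nil)
def t14_10869 : Tr := .node ⟨nat_lit 8, nat_lit 0x80008000a000a000c000e0, nat_lit 0x1001032, nat_lit 1, nat_lit 4, nat_lit 0x47⟩ (.nil) (.nil)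
def t14_6773 : Tr := .node ⟨nat_lit 7, nat_lit 0x1000080060, nat_lit 0x1001020, nat_lit 0, nat_lit 4, nat_lit 0x48⟩ (.nil) (.nil)
def t14_14965 : Tr := .node ⟨nat_lit 6, nat_lit 0x200020, nat_lit 0x211111, nat_lit 1, nat_lit 3, nat_lit 0x49⟩ (.nil) (.nil)
def t14_1653 : Tr := .node ⟨nat_lit 8, nat_lit 0x8000400040009000c0, nat_lit 0x21012, nat_lit 0, nat_lit 4, nat_lit 0x48⟩ (.nil) (.nil)
def t14_9845 : Tr := .node ⟨nat_lit 8, nat_lit 0x8000c000a000c8, nat_lit 0x11202, nat_lit 0, nat_lit 4, nat_lit 0x47⟩ (.nil) (.nil)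
def t14_5749 : Tr := .node ⟨nat_lit 6, nat_lit 0x2000240030, nat_lit 0x11221, nat_lit 6, nat_lit 4, nat_lit 0x48⟩ (.nil) (.nil)
def t14_13941 : Tr := .node ⟨nat_lit 9, nat_lit 0x400020002001000180, nat_lit 0x1020, nat_lit 1, nat_lit 4, nat_lit 0x49⟩ (.nil) (.nil)
def t14_3701 : Tr := .node ⟨nat_lit 7, nat_lit 0x4000200060, nat_lit 0x21021, nat_lit 2, nat_lit 4, nat_lit 0x49⟩ (.nil) (.nil)
def t14_11893 : Tr := .node ⟨nat_lit 7, nat_lit 0x20002000100040, nat_lit 0x1100031, nat_lit 0, nat_lit 3, nat_lit 0x47⟩ (.nil) (.nil)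
def t14_7797 : Tr := .node ⟨nat_lit 6, nat_lit 0x20002000100010, nat_lit 0x1022, nat_lit 7, nat_lit 4, nat_lit 0x48⟩ (.nil) (.nil)
def t9_117 : Tr := .node ⟨nat_lit 6, nat_lit 0x10001000200022, nat_lit 0x312110, nat_lit 1, nat_lit 4, nat_lit 0x49⟩ (.node ⟨nat_lit 6, nat_lit 0x2000100010, nat_lit 0x13022, nat_lit 3, nat_lit 4, nat_lit 0x4a⟩ (.node ⟨nat_lit 7, nat_lit 0x5000600060, nat_lit 0x113210, nat_lit 0, nat_lit 4, nat_lit 0x48⟩ (.node ⟨nat_lit 6, nat_lit 0x20002000100030, nat_lit 0x12111, nat_lit 0, nat_lit 3, nat_lit 0x45⟩ (.node ⟨nat_lit 4, nat_lit 0xc000c, nat_lit 0x2120, nat_lit 4, nat_lit 3, nat_lit 0x45⟩ (t14_117) (t14_8309)) (.node ⟨nat_lit 8, nat_lit 0x80002000c000a0, nat_lit 0x112003, nat_lit 0, nat_lit 4, nat_lit 0x49⟩ (t14_4213) (t14_12405))) (.node ⟨nat_lit 6, nat_lit 0x800100020, nat_lit 0x211100, nat_lit 0, nat_lit 4, nat_lit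 0x48⟩ (.node ⟨nat_lit 6, nat_lit 0x800300030, nat_lit 0x1220, nat_lit 2, nat_lit 4, nat_lit 0x46⟩ (t14_2165) (t14_10357)) (.node ⟨nat_lit 7, nat_lit 0x40004000400020, nat_lit 0x122111, nat_lit 2, nat_lit 4, nat_lit 0x4a⟩ (t14_6261) (t14_14453)))) (.node ⟨nat_lit 6, nat_lit 0x100020, nat_lit 0x211122, nat_lit 0, nat_lit 4, nat_lit 0x4a⟩ (.node ⟨nat_lit 6, nat_lit 0x30, nat_lit 0x222111, nat_lit 0, nat_lit 4, nat_lit 0x4b⟩ (.node ⟨nat_lit 5, nat_lit 0x800100010, nat_lit 0x11311, nat_lit 4, nat_lit 4, nat_lit 0x48⟩ (t14_1141) (t14_9333)) (.node ⟨nat_lit 6, nat_lit 0x300030, nat_lit 0x112121, nat_lit 2, nat_lit 4, nat_lit 0x49⟩ (t14_5237) (t14_13429))) (.node ⟨nat_lit 5, nat_lit 0x180018, nat_lit 0x10210, nat_lit 4, nat_lit 4, nat_lit 0x46⟩ (.node ⟨nat_lit 7, nat_lit 0x40001000600050, nat_lit 0x12310, nat_lit 1, nat_lit 4, nat_lit 0x48⟩ (t14_3189)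 (t14_11381)) (.node ⟨nat_lit 5, nat_lit 0x100010001c, nat_lit 0x11102, nat_lit 7, nat_lit 4, nat_lit 0x47⟩ (t14_7285) (t14_15477))))) (.node ⟨nat_lit 4, nat_lit 8, nat_lit 0x3112, nat_lit 4, nat_lit 4, nat_lit 0x49⟩ (.node ⟨nat_lit 7, nat_lit 0x40001000200048, nat_lit 0x2102011, nat_lit 0, nat_lit 4, nat_lit 0x49⟩ (.node ⟨nat_lit 6, nat_lit 0x20001000100028, nat_lit 0x201220, nat_lit 0, nat_lit 4, nat_lit 0x47⟩ (.node ⟨nat_lit 6, nat_lit 0x1000080020, nat_lit 0x112301, nat_lit 0, nat_lit 4, nat_lit 0x49⟩ (t14_629) (t14_8821)) (.node ⟨nat_lit 8, nat_lit 0x4000400080008000880060, nat_lit 0x11201110, nat_lit 2, nat_lit 4, nat_lit 0x49⟩ (t14_4725) (t14_12917))) (.node ⟨nat_lit 5, nat_lit 0x180014, nat_lit 0x1012, nat_lit 2, nat_lit 3, nat_lit 0x44⟩ (.node ⟨nat_lit 8, nat_lit 0x400080008000880060, nat_lit 0x1210003, nat_lit 1, nat_lit 4, nat_lit 0x49⟩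 (t14_2677) (t14_10869)) (.node ⟨nat_lit 6, nat_lit 0x2000200038, nat_lit 0x10102, nat_lit 2, nat_lit 4, nat_lit 0x46⟩ (t14_6773) (t14_14965)))) (.node ⟨nat_lit 6, nat_lit 0x2000200010, nat_lit 0x21311, nat_lit 1, nat_lit 4, nat_lit 0x49⟩ (.node ⟨nat_lit 6, nat_lit 0x1000300028, nat_lit 0x2111, nat_lit 1, nat_lit 4, nat_lit 0x46⟩ (.node ⟨nat_lit 6, nat_lit 0x300038, nat_lit 0x1113, nat_lit 2, nat_lit 4, nat_lit 0x46⟩ (t14_1653) (t14_9845)) (.node ⟨nat_lit 6, nat_lit 0x2000080030, nat_lit 0x2220, nat_lit 3, nat_lit 4, nat_lit 0x48⟩ (t14_5749) (t14_13941))) (.node ⟨nat_lit 7, nat_lit 0x40001000600060, nat_lit 0x12110, nat_lit 2, nat_lit 4, nat_lit 0x47⟩ (.node ⟨nat_lit 5, nat_lit 0x100018, nat_lit 0x100, nat_lit 4, nat_lit 3, nat_lit 0x45⟩ (t14_3701) (t14_11893)) (.node ⟨nat_lit 7, nat_lit 0x1000600060, nat_lit 0x1111121, nat_lit 0, nat_lit 4, nat_lit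 0x49⟩ (t14_7797) (.nil)))))
def t14_373 : Tr := .node ⟨nat_lit 7, nat_lit 0x400062, nat_lit 0x1121001, nat_lit 1, nat_lit 4, nat_lit 0x4a⟩ (.nil) (.nil)
def t14_8565 : Tr := .node ⟨nat_lit 8, nat_lit 0x800040004000a000a000d0, nat_lit 0x100220, nat_lit 0, nat_lit 4, nat_lit 0x46⟩ (.nil) (.nil)
def t14_4469 : Tr := .node ⟨nat_lit 8, nat_lit 0x200030003000c000a0, nat_lit 0x10111111, nat_lit 0, nat_lit 4, nat_lit 0x48⟩ (.nil) (.nil)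
def t14_12661 : Tr := .node ⟨nat_lit 7, nat_lit 0x10004000400060, nat_lit 0x100320, nat_lit 2, nat_lit 4, nat_lit 0x49⟩ (.nil) (.nil)
def t14_2421 : Tr := .node ⟨nat_lit 8, nat_lit 0x80002000c000c0, nat_lit 0x122110, nat_lit 0, nat_lit 4, nat_lit 0x49⟩ (.nil) (.nil)
def t14_10613 : Tr := .node ⟨nat_lit 7, nat_lit 0x10002000500060, nat_lit 0x101020, nat_lit 0, nat_lit 4, nat_lit 0x46⟩ (.nil) (.nil)
def t14_6517 : Tr := .node ⟨nat_lit 6, nat_lit 0x2000080034, nat_lit 0x111221, nat_lit 2, nat_lit 4, nat_lit 0x48⟩ (.nil) (.nil)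
def t14_14709 : Tr := .node ⟨nat_lit 9, nat_lit 0x8001000100010000400110, nat_lit 0x11101, nat_lit 6, nat_lit 4, nat_lit 0x4a⟩ (.nil) (.nil)
def t14_1397 : Tr := .node ⟨nat_lit 6, nat_lit 0x2000300030, nat_lit 0x1310, nat_lit 3, nat_lit 4, nat_lit 0x47⟩ (.nil) (.nil)
def t14_9589 : Tr := .node ⟨nat_lit 7, nat_lit 0x400020005000600070, nat_lit 0x13020, nat_lit 2, nat_lit 4, nat_lit 0x46⟩ (.nil) (.nil)
def t14_5493 : Tr := .node ⟨nat_lit 6, nat_lit 0x2000080030, nat_lit 0x10140, nat_lit 1, nat_lit 4, nat_lit 0x47⟩ (.nil) (.nil)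
def t14_13685 : Tr := .node ⟨nat_lit 6, nat_lit 0x2000080030, nat_lit 0x20000, nat_lit 2, nat_lit 4, nat_lit 0x46⟩ (.nil) (.nil)
def t14_3445 : Tr := .node ⟨nat_lit 7, nat_lit 0x20003000600050, nat_lit 0x1012021, nat_lit 0, nat_lit 4, nat_lit 0x47⟩ (.nil) (.nil)
def t14_11637 : Tr := .node ⟨nat_lit 6, nat_lit 0x800300030, nat_lit 0x210, nat_lit 1, nat_lit 4, nat_lit 0x45⟩ (.nil) (.nil)
def t14_7541 : Tr := .node ⟨nat_lit 7, nat_lit 0x40002000680070, nat_lit 0x12103, nat_lit 1, nat_lit 4, nat_lit 0x46⟩ (.nil) (.nil)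
def t14_885 : Tr := .node ⟨nat_lit 7, nat_lit 0x400040002000200064, nat_lit 0x222, nat_lit 1, nat_lit 4, nat_lit 0x47⟩ (.nil) (.nil)
def t14_9077 : Tr := .node ⟨nat_lit 8, nat_lit 0x80004000c000c0, nat_lit 0x112021, nat_lit 1, nat_lit 4, nat_lit 0x49⟩ (.nil) (.nil)
def t14_4981 : Tr := .node ⟨nat_lit 7, nat_lit 0x40002000500064, nat_lit 0x113010, nat_lit 3, nat_lit 4, nat_lit 0x48⟩ (.nil) (.nil)
def t14_13173 : Tr := .node ⟨nat_lit 9, nat_lit 0x4001000080008001100188, nat_lit 0x21000, nat_lit 2, nat_lit 4, nat_lit 0x48⟩ (.nil) (.nil)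
def t14_2933 : Tr := .node ⟨nat_lit 7, nat_lit 0x1000600060, nat_lit 0x1021120, nat_lit 0, nat_lit 4, nat_lit 0x49⟩ (.nil) (.nil)
def t14_11125 : Tr := .node ⟨nat_lit 3, nat_lit 0x40004, nat_lit 0x20, nat_lit 9, nat_lit 3, nat_lit 0x44⟩ (.nil) (.nil)
def t14_7029 : Tr := .node ⟨nat_lit 7, nat_lit 0x10005000600060, nat_lit 0x1101121, nat_lit 1, nat_lit 4, nat_lit 0x47⟩ (.nil) (.nil)
def t14_15221 : Tr := .node ⟨nat_lit 7, nat_lit 0x40002000480048, nat_lit 0x22021, nat_lit 0, nat_lit 4, nat_lit 0x48⟩ (.nil) (.nil)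
def t14_1909 : Tr := .node ⟨nat_lit 6, nat_lit 0x800200030, nat_lit 0x200002, nat_lit 2, nat_lit 4, nat_lit 0x47⟩ (.nil) (.nil)
def t14_10101 : Tr := .node ⟨nat_lit 7, nat_lit 0x6000600070, nat_lit 0x2203, nat_lit 2, nat_lit 4, nat_lit 0x47⟩ (.nil) (.nil)
def t14_6005 : Tr := .node ⟨nat_lit 6, nat_lit 0x200030, nat_lit 0x122110, nat_lit 2, nat_lit 4, nat_lit 0x4a⟩ (.nil) (.nil)
def t14_14197 : Tr := .node ⟨nat_lit 6, nat_lit 0x20001000100028, nat_lit 0x100102, nat_lit 3, nat_lit 4, nat_lit 0x46⟩ (.nil) (.nil)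
def t14_3957 : Tr := .node ⟨nat_lit 7, nat_lit 0x20002000400068, nat_lit 0x111030, nat_lit 0, nat_lit 4, nat_lit 0x48⟩ (.nil) (.nil)
def t14_12149 : Tr := .node ⟨nat_lit 8, nat_lit 0x10001000a000c0, nat_lit 0x1100002, nat_lit 1, nat_lit 4, nat_lit 0x48⟩ (.nil) (.nil)
def t14_8053 : Tr := .node ⟨nat_lit 5, nat_lit 0x10001a, nat_lit 0x213, nat_lit 4, nat_lit 4, nat_lit 0x46⟩ (.nil) (.nil)
def t9_373 : Tr := .node ⟨nat_lit 3, nat_lit 4, nat_lit 0x231, nat_lit 0xd, nat_lit 4, nat_lit 0x49⟩ (.node ⟨nat_lit 5, nat_lit 0x100018, nat_lit 0x12301, nat_lit 0, nat_lit 3, nat_lit 0x47⟩ (.node ⟨nat_lit 5, nat_lit 0x40018, nat_lit 0x22112, nat_lit 2, nat_lit 4, nat_lit 0x48⟩ (.node ⟨nat_lit 6, nat_lit 0x1000080020, nat_lit 0x221021, nat_lit 0, nat_lit 4, nat_lit 0x49⟩ (.node ⟨nat_lit 5, nat_lit 0x1000100008, nat_lit 0x12311, nat_lit 4, nat_lit 3, nat_lit 0x47⟩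 (t14_373) (t14_8565)) (.node ⟨nat_lit 7, nat_lit 0x400020002000500068, nat_lit 0x1111201, nat_lit 0, nat_lit 4, nat_lit 0x47⟩ (t14_4469) (t14_12661))) (.node ⟨nat_lit 5, nat_lit 0x40018, nat_lit 0x21021, nat_lit 3, nat_lit 4, nat_lit 0x47⟩ (.node ⟨nat_lit 6, nat_lit 0x800200010, nat_lit 0x10012, nat_lit 2, nat_lit 4, nat_lit 0x47⟩ (t14_2421) (t14_10613)) (.node ⟨nat_lit 7, nat_lit 0x2000400040, nat_lit 0x20210, nat_lit 1, nat_lit 4, nat_lit 0x49⟩ (t14_6517) (t14_14709)))) (.node ⟨nat_lit 5, nat_lit 0x100008, nat_lit 0x21223, nat_lit 1, nat_lit 4, nat_lit 0x49⟩ (.node ⟨nat_lit 7, nat_lit 0x4000400020, nat_lit 0x222201, nat_lit 0, nat_lit 4, nat_lit 0x4b⟩ (.node ⟨nat_lit 6, nat_lit 0x80030, nat_lit 0x100103, nat_lit 1, nat_lit 4, nat_lit 0x47⟩ (t14_1397) (t14_9589)) (.node ⟨nat_lit 7, nat_lit 0x20004000500064, nat_lit 0x1001212, nat_lit 1, nat_lit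 4, nat_lit 0x47⟩ (t14_5493) (t14_13685))) (.node ⟨nat_lit 6, nat_lit 0x1000100020, nat_lit 0x113101, nat_lit 0, nat_lit 4, nat_lit 0x49⟩ (.node ⟨nat_lit 4, nat_lit 0xc000c, nat_lit 0, nat_lit 2, nat_lit 3, nat_lit 0x42⟩ (t14_3445) (t14_11637)) (.node ⟨nat_lit 9, nat_lit 0x400100002000200180, nat_lit 0x110001102, nat_lit 1, nat_lit 4, nat_lit 0x4a⟩ (t14_7541) (.nil))))) (.node ⟨nat_lit 4, nat_lit 0xc, nat_lit 0x2111, nat_lit 4, nat_lit 3, nat_lit 0x46⟩ (.node ⟨nat_lit 6, nat_lit 0x80030, nat_lit 0x202111, nat_lit 1, nat_lit 4, nat_lit 0x49⟩ (.node ⟨nat_lit 7, nat_lit 0x40004000100020, nat_lit 0x111011, nat_lit 1, nat_lit 4, nat_lit 0x48⟩ (.node ⟨nat_lit 6, nat_lit 0x2000080030, nat_lit 0x102003, nat_lit 0, nat_lit 4, nat_lit 0x47⟩ (t14_885) (t14_9077)) (.node ⟨nat_lit 7, nat_lit 0x40004000200020, nat_lit 0x1121120, nat_lit 1, nat_lit 4, nat_lit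 0x4a⟩ (t14_4981) (t14_13173))) (.node ⟨nat_lit 4, nat_lit 0xc, nat_lit 0x2110, nat_lit 4, nat_lit 3, nat_lit 0x46⟩ (.node ⟨nat_lit 4, nat_lit 0x40008, nat_lit 0x1121, nat_lit 0xb, nat_lit 4, nat_lit 0x48⟩ (t14_2933) (t14_11125)) (.node ⟨nat_lit 7, nat_lit 0x200040003000480070, nat_lit 0x121010, nat_lit 1, nat_lit 4, nat_lit 0x46⟩ (t14_7029) (t14_15221)))) (.node ⟨nat_lit 6, nat_lit 0x1000200034, nat_lit 0x102211, nat_lit 1, nat_lit 4, nat_lit 0x47⟩ (.node ⟨nat_lit 7, nat_lit 0x6000600018, nat_lit 0x1121111, nat_lit 0, nat_lit 4, nat_lit 0x48⟩ (.node ⟨nat_lit 4, nat_lit 0xc000c, nat_lit 0x1131, nat_lit 2, nat_lit 3, nat_lit 0x44⟩ (t14_1909) (t14_10101)) (.node ⟨nat_lit 7, nat_lit 0x40001000600068, nat_lit 0x112002, nat_lit 1, nat_lit 4, nat_lit 0x47⟩ (t14_6005) (t14_14197))) (.node ⟨nat_lit 6, nat_lit 0x80030, nat_lit 0x100002, nat_lit 0, nat_lit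 4, nat_lit 0x46⟩ (.node ⟨nat_lit 7, nat_lit 0x2800480070, nat_lit 0x1110203, nat_lit 0, nat_lit 4, nat_lit 0x47⟩ (t14_3957) (t14_12149)) (.node ⟨nat_lit 7, nat_lit 0x400040002000200050, nat_lit 0x1011100, nat_lit 9, nat_lit 4, nat_lit 0x49⟩ (t14_8053) (.nil)))))
def t14_245 : Tr := .node ⟨nat_lit 6, nat_lit 0x800280030, nat_lit 0x22212, nat_lit 0, nat_lit 4, nat_lit 0x48⟩ (.nil) (.nil)
def t14_8437 : Tr := .node ⟨nat_lit 6, nat_lit 0x800200030, nat_lit 3, nat_lit 0, nat_lit 4, nat_lit 0x45⟩ (.nil) (.nil)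
def t14_4341 : Tr := .node ⟨nat_lit 6, nat_lit 0x2000240018, nat_lit 0x121220, nat_lit 0, nat_lit 4, nat_lit 0x48⟩ (.nil) (.nil)
def t14_12533 : Tr := .node ⟨nat_lit 8, nat_lit 0x20008000a000c800e0, nat_lit 0x1010013, nat_lit 1, nat_lit 4, nat_lit 0x46⟩ (.nil) (.nil)
def t14_2293 : Tr := .node ⟨nat_lit 5, nat_lit 0x100008, nat_lit 0x10402, nat_lit 0, nat_lit 4, nat_lit 0x48⟩ (.nil) (.nil)
def t14_10485 : Tr := .node ⟨nat_lit 7, nat_lit 0x20006000500068, nat_lit 0x100320, nat_lit 1, nat_lit 4, nat_lit 0x46⟩ (.nil) (.nil)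
def t14_6389 : Tr := .node ⟨nat_lit 7, nat_lit 0x10004000400060, nat_lit 0x100201, nat_lit 3, nat_lit 4, nat_lit 0x48⟩ (.nil) (.nil)
def t14_14581 : Tr := .node ⟨nat_lit 7, nat_lit 0x20001000100040, nat_lit 0x1100, nat_lit 2, nat_lit 4, nat_lit 0x47⟩ (.nil) (.nil)
def t14_1269 : Tr := .node ⟨nat_lit 6, nat_lit 0x20001000140028, nat_lit 0x101201, nat_lit 2, nat_lit 4, nat_lit 0x46⟩ (.nil) (.nil)
def t14_9461 : Tr := .node ⟨nat_lit 8, nat_lit 0x40004000800088006000c0, nat_lit 0x10112002, nat_lit 2, nat_lit 4, nat_lit 0x48⟩ (.nil) (.nil)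
def t14_5365 : Tr := .node ⟨nat_lit 6, nat_lit 0x2000080030, nat_lit 0x111310, nat_lit 4, nat_lit 4, nat_lit 0x49⟩ (.nil) (.nil)
def t14_13557 : Tr := .node ⟨nat_lit 7, nat_lit 0x40004000200020, nat_lit 0x12100, nat_lit 1, nat_lit 4, nat_lit 0x48⟩ (.nil) (.nil)
def t14_3317 : Tr := .node ⟨nat_lit 5, nat_lit 0x1000100008, nat_lit 0x213, nat_lit 3, nat_lit 4, nat_lit 0x46⟩ (.nil) (.nil)
def t14_11509 : Tr := .node ⟨nat_lit 7, nat_lit 0x10002000500060, nat_lit 0x10111, nat_lit 0, nat_lit 4, nat_lit 0x46⟩ (.nil) (.nil)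
def t14_7413 : Tr := .node ⟨nat_lit 8, nat_lit 0x80008000400040, nat_lit 0x1210011, nat_lit 2, nat_lit 4, nat_lit 0x4b⟩ (.nil) (.nil)
def t14_757 : Tr := .node ⟨nat_lit 7, nat_lit 0x1000500060, nat_lit 0x1031, nat_lit 1, nat_lit 4, nat_lit 0x47⟩ (.nil) (.nil)
def t14_8949 : Tr := .node ⟨nat_lit 6, nat_lit 0x2000100030, nat_lit 0x1210, nat_lit 4, nat_lit 4, nat_lit 0x47⟩ (.nil) (.nil)
def t14_4853 : Tr := .node ⟨nat_lit 8, nat_lit 0x8000200020002000c0, nat_lit 0x11012002, nat_lit 0, nat_lit 4, nat_lit 0x49⟩ (.nil) (.nil)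
def t14_13045 : Tr := .node ⟨nat_lit 6, nat_lit 0x800200032, nat_lit 0x10020, nat_lit 2, nat_lit 4, nat_lit 0x46⟩ (.nil) (.nil)
def t14_2805 : Tr := .node ⟨nat_lit 6, nat_lit 0x800200030, nat_lit 0x110201, nat_lit 2, nat_lit 4, nat_lit 0x47⟩ (.nil) (.nil)
def t14_10997 : Tr := .node ⟨nat_lit 7, nat_lit 0x4000400060, nat_lit 0x111202, nat_lit 4, nat_lit 4, nat_lit 0x4a⟩ (.nil) (.nil)
def t14_6901 : Tr := .node ⟨nat_lit 8, nat_lit 0x400080, nat_lit 0x11111100, nat_lit 0, nat_lit 4, nat_lit 0x4c⟩ (.nil) (.nil)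
def t14_15093 : Tr := .node ⟨nat_lit 8, nat_lit 0x800080004000a000e000c8, nat_lit 0x1101111, nat_lit 3, nat_lit 4, nat_lit 0x47⟩ (.nil) (.nil)
def t14_1781 : Tr := .node ⟨nat_lit 6, nat_lit 0x30000c, nat_lit 0x102102, nat_lit 2, nat_lit 4, nat_lit 0x48⟩ (.nil) (.nil)
def t14_9973 : Tr := .node ⟨nat_lit 9, nat_lit 0x400100002001800180, nat_lit 0x4020, nat_lit 0, nat_lit 4, nat_lit 0x49⟩ (.nil) (.nil)
def t14_5877 : Tr := .node ⟨nat_lit 7, nat_lit 0x20002000400042, nat_lit 0x1012200, nat_lit 4, nat_lit 4, nat_lit 0x49⟩ (.nil) (.nil)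
def t14_14069 : Tr := .node ⟨nat_lit 5, nat_lit 0x100018, nat_lit 0x120, nat_lit 0xa, nat_lit 4, nat_lit 0x48⟩ (.nil) (.nil)
def t14_3829 : Tr := .node ⟨nat_lit 8, nat_lit 0x4000400080008000600088, nat_lit 0x1021201, nat_lit 1, nat_lit 4, nat_lit 0x48⟩ (.nil) (.nil)
def t14_12021 : Tr := .node ⟨nat_lit 6, nat_lit 0x20002000280030, nat_lit 0x12110, nat_lit 7, nat_lit 4, nat_lit 0x48⟩ (.nil) (.nil)
def t14_7925 : Tr := .node ⟨nat_lit 7, nat_lit 0x400020002000500060, nat_lit 0x21022, nat_lit 2, nat_lit 4, nat_lit 0x47⟩ (.nil) (.nil)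
def t9_245 : Tr := .node ⟨nat_lit 5, nat_lit 0x100018, nat_lit 0x12302, nat_lit 0, nat_lit 3, nat_lit 0x47⟩ (.node ⟨nat_lit 6, nat_lit 0x2000080034, nat_lit 0x301112, nat_lit 0, nat_lit 4, nat_lit 0x48⟩ (.node ⟨nat_lit 6, nat_lit 0x200030, nat_lit 0x3220, nat_lit 1, nat_lit 4, nat_lit 0x49⟩ (.node ⟨nat_lit 3, nat_lit 4, nat_lit 0x134, nat_lit 2, nat_lit 3, nat_lit 0x46⟩ (.node ⟨nat_lit 6, nat_lit 0x20, nat_lit 0x211112, nat_lit 6, nat_lit 4, nat_lit 0x4c⟩ (t14_245) (t14_8437)) (.node ⟨nat_lit 6, nat_lit 0x2000240018, nat_lit 0x11210, nat_lit 0, nat_lit 4, nat_lit 0x46⟩ (t14_4341) (t14_12533))) (.node ⟨nat_lit 4, nat_lit 0x8000c, nat_lit 0x2012, nat_lit 0xe, nat_lit 4, nat_lit 0x48⟩ (.node ⟨nat_lit 6, nat_lit 0x2000100030, nat_lit 0x111032, nat_lit 2, nat_lit 3, nat_lit 0x47⟩ (t14_2293) (t14_10485)) (.node ⟨nat_lit 5, nat_lit 0x180018, nat_lit 0x11220,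 nat_lit 3, nat_lit 4, nat_lit 0x47⟩ (t14_6389) (t14_14581)))) (.node ⟨nat_lit 2, nat_lit 0, nat_lit 0x21, nat_lit 0xd, nat_lit 4, nat_lit 0x46⟩ (.node ⟨nat_lit 6, nat_lit 0x1000280030, nat_lit 0x211112, nat_lit 1, nat_lit 4, nat_lit 0x48⟩ (.node ⟨nat_lit 8, nat_lit 0x200080001000c0, nat_lit 0x11000003, nat_lit 1, nat_lit 4, nat_lit 0x49⟩ (t14_1269) (t14_9461)) (.node ⟨nat_lit 5, nat_lit 0x1000080018, nat_lit 0x11222, nat_lit 6, nat_lit 4, nat_lit 0x48⟩ (t14_5365) (t14_13557))) (.node ⟨nat_lit 6, nat_lit 0x2000100030, nat_lit 0x12023, nat_lit 0, nat_lit 4, nat_lit 0x48⟩ (.node ⟨nat_lit 5, nat_lit 0x80010, nat_lit 0x11103, nat_lit 2, nat_lit 4, nat_lit 0x48⟩ (t14_3317) (t14_11509)) (.node ⟨nat_lit 7, nat_lit 0x4000440030, nat_lit 0x111112, nat_lit 0, nat_lit 4, nat_lit 0x48⟩ (t14_7413) (.nil))))) (.node ⟨nat_lit 3, nat_lit 4, nat_lit 0x131, nat_lit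 8, nat_lit 4, nat_lit 0x47⟩ (.node ⟨nat_lit 6, nat_lit 0x80030, nat_lit 0x211122, nat_lit 0, nat_lit 4, nat_lit 0x49⟩ (.node ⟨nat_lit 7, nat_lit 0x400042, nat_lit 0x2111110, nat_lit 0, nat_lit 4, nat_lit 0x4b⟩ (.node ⟨nat_lit 7, nat_lit 0x200020002000400042, nat_lit 0x3020011, nat_lit 1, nat_lit 4, nat_lit 0x49⟩ (t14_757) (t14_8949)) (.node ⟨nat_lit 7, nat_lit 0x10002000500060, nat_lit 0x103002, nat_lit 0, nat_lit 4, nat_lit 0x47⟩ (t14_4853) (t14_13045))) (.node ⟨nat_lit 7, nat_lit 0x40004800600030, nat_lit 0x112012, nat_lit 0, nat_lit 4, nat_lit 0x47⟩ (.node ⟨nat_lit 6, nat_lit 0x200030, nat_lit 0x21123, nat_lit 1, nat_lit 4, nat_lit 0x49⟩ (t14_2805) (t14_10997)) (.node ⟨nat_lit 6, nat_lit 0x1000280030, nat_lit 0x101220, nat_lit 3, nat_lit 4, nat_lit 0x47⟩ (t14_6901) (t14_15093)))) (.node ⟨nat_lit 5, nat_lit 0x10, nat_lit 0x11112, nat_lit 1, nat_lit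 4, nat_lit 0x48⟩ (.node ⟨nat_lit 7, nat_lit 0x20006000500068, nat_lit 0x112121, nat_lit 1, nat_lit 4, nat_lit 0x47⟩ (.node ⟨nat_lit 5, nat_lit 0x10001c001c, nat_lit 0x10010, nat_lit 5, nat_lit 4, nat_lit 0x44⟩ (t14_1781) (t14_9973)) (.node ⟨nat_lit 7, nat_lit 0x20004000440060, nat_lit 0x22102, nat_lit 0, nat_lit 4, nat_lit 0x47⟩ (t14_5877) (t14_14069))) (.node ⟨nat_lit 8, nat_lit 0xa000c00018, nat_lit 0x1120012, nat_lit 0, nat_lit 4, nat_lit 0x49⟩ (.node ⟨nat_lit 6, nat_lit 0x2000100024, nat_lit 0x111100, nat_lit 0, nat_lit 4, nat_lit 0x47⟩ (t14_3829) (t14_12021)) (.node ⟨nat_lit 7, nat_lit 0x40001000100060, nat_lit 0x1001111, nat_lit 0, nat_lit 4, nat_lit 0x47⟩ (t14_7925) (.nil)))))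
def t14_501 : Tr := .node ⟨nat_lit 7, nat_lit 0x500060, nat_lit 0x1112110, nat_lit 1, nat_lit 4, nat_lit 0x4a⟩ (.nil) (.nil)
def t14_8693 : Tr := .node ⟨nat_lit 7, nat_lit 0x20006000500068, nat_lit 0x102, nat_lit 0, nat_lit 4, nat_lit 0x44⟩ (.nil) (.nil)
def t14_4597 : Tr := .node ⟨nat_lit 7, nat_lit 0x20004000440060, nat_lit 0x1021301, nat_lit 0, nat_lit 4, nat_lit 0x49⟩ (.nil) (.nil)
def t14_12789 : Tr := .node ⟨nat_lit 5, nat_lit 0x100018001c, nat_lit 0x10120, nat_lit 7, nat_lit 4, nat_lit 0x46⟩ (.nil) (.nil)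
def t14_2549 : Tr := .node ⟨nat_lit 7, nat_lit 0x400040006800680070, nat_lit 0x1020102, nat_lit 3, nat_lit 4, nat_lit 0x46⟩ (.nil) (.nil)
def t14_10741 : Tr := .node ⟨nat_lit 7, nat_lit 0x400020002000500060, nat_lit 0x11120, nat_lit 1, nat_lit 4, nat_lit 0x46⟩ (.nil) (.nil)
def t14_6645 : Tr := .node ⟨nat_lit 6, nat_lit 0x200020, nat_lit 0x11130, nat_lit 0, nat_lit 4, nat_lit 0x49⟩ (.nil) (.nil)
def t14_14837 : Tr := .node ⟨nat_lit 9, nat_lit 0x1000100008000800140012001c0, nat_lit 0x121011, nat_lit 1, nat_lit 4, nat_lit 0x47⟩ (.nil) (.nil)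
def t14_1525 : Tr := .node ⟨nat_lit 8, nat_lit 0x80008000800040004000e0, nat_lit 0x121201, nat_lit 0, nat_lit 4, nat_lit 0x48⟩ (.nil) (.nil)
def t14_9717 : Tr := .node ⟨nat_lit 8, nat_lit 0x80008000800088, nat_lit 0x2111201, nat_lit 1, nat_lit 4, nat_lit 0x4b⟩ (.nil) (.nil)
def t14_5621 : Tr := .node ⟨nat_lit 6, nat_lit 0x200030, nat_lit 0x101102, nat_lit 2, nat_lit 4, nat_lit 0x48⟩ (.nil) (.nil)
def t14_13813 : Tr := .node ⟨nat_lit 8, nat_lit 0x800040002000c000a0, nat_lit 0x12200, nat_lit 0, nat_lit 4, nat_lit 0x47⟩ (.nil) (.nil)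
def t14_3573 : Tr := .node ⟨nat_lit 6, nat_lit 0x2000080030, nat_lit 0x310, nat_lit 1, nat_lit 4, nat_lit 0x46⟩ (.nil) (.nil)
def t14_11765 : Tr := .node ⟨nat_lit 6, nat_lit 0x10002000180024, nat_lit 0x12400, nat_lit 1, nat_lit 4, nat_lit 0x47⟩ (.nil) (.nil)
def t14_7669 : Tr := .node ⟨nat_lit 5, nat_lit 0x40018, nat_lit 2, nat_lit 7, nat_lit 4, nat_lit 0x46⟩ (.nil) (.nil)
def t14_1013 : Tr := .node ⟨nat_lit 5, nat_lit 0x180018, nat_lit 0x121, nat_lit 7, nat_lit 4, nat_lit 0x46⟩ (.nil) (.nil)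
def t14_9205 : Tr := .node ⟨nat_lit 6, nat_lit 0x2000100030, nat_lit 0x2020, nat_lit 3, nat_lit 3, nat_lit 0x46⟩ (.nil) (.nil)
def t14_5109 : Tr := .node ⟨nat_lit 6, nat_lit 0x2000200030, nat_lit 0x11311, nat_lit 5, nat_lit 4, nat_lit 0x49⟩ (.nil) (.nil)
def t14_13301 : Tr := .node ⟨nat_lit 7, nat_lit 0x5000300060, nat_lit 0x1400, nat_lit 0, nat_lit 4, nat_lit 0x46⟩ (.nil) (.nil)
def t14_3061 : Tr := .node ⟨nat_lit 8, nat_lit 0x40004000800080008800c8, nat_lit 0x10311001, nat_lit 1, nat_lit 4, nat_lit 0x48⟩ (.nil) (.nil)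
def t14_11253 : Tr := .node ⟨nat_lit 6, nat_lit 0x2000080030, nat_lit 0x11100, nat_lit 3, nat_lit 4, nat_lit 0x47⟩ (.nil) (.nil)
def t14_7157 : Tr := .node ⟨nat_lit 6, nat_lit 0x10002000300034, nat_lit 0x111021, nat_lit 5, nat_lit 4, nat_lit 0x47⟩ (.nil) (.nil)
def t14_15349 : Tr := .node ⟨nat_lit 6, nat_lit 0x2000200020, nat_lit 0x10310, nat_lit 0, nat_lit 3, nat_lit 0x47⟩ (.nil) (.nil)
def t14_2037 : Tr := .node ⟨nat_lit 7, nat_lit 0x40002000500064, nat_lit 0x213110, nat_lit 0, nat_lit 4, nat_lit 0x48⟩ (.nil) (.nil)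
def t14_10229 : Tr := .node ⟨nat_lit 7, nat_lit 0x40004000100060, nat_lit 0x112210, nat_lit 2, nat_lit 4, nat_lit 0x49⟩ (.nil) (.nil)
def t14_6133 : Tr := .node ⟨nat_lit 2, nat_lit 2, nat_lit 2, nat_lit 0xb, nat_lit 4, nat_lit 0x44⟩ (.nil) (.nil)
def t14_14325 : Tr := .node ⟨nat_lit 6, nat_lit 0x800080030, nat_lit 0x1003, nat_lit 1, nat_lit 4, nat_lit 0x46⟩ (.nil) (.nil)
def t14_4085 : Tr := .node ⟨nat_lit 8, nat_lit 0x80002000c000d000d0, nat_lit 0x10110210, nat_lit 1, nat_lit 4, nat_lit 0x47⟩ (.nil) (.nil)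
def t14_12277 : Tr := .node ⟨nat_lit 7, nat_lit 0x10006000500050, nat_lit 0x1130, nat_lit 5, nat_lit 4, nat_lit 0x47⟩ (.nil) (.nil)
def t14_8181 : Tr := .node ⟨nat_lit 8, nat_lit 0x2000800088008800c0, nat_lit 0x1001410, nat_lit 0, nat_lit 4, nat_lit 0x48⟩ (.nil) (.nil)
def t9_501 : Tr := .node ⟨nat_lit 5, nat_lit 0x18, nat_lit 0x11312, nat_lit 3, nat_lit 4, nat_lit 0x49⟩ (.node ⟨nat_lit 6, nat_lit 0x2000200020, nat_lit 0x21220, nat_lit 0, nat_lit 3, nat_lit 0x47⟩ (.node ⟨nat_lit 4, nat_lit 0, nat_lit 0x2222, nat_lit 5, nat_lit 4, nat_lit 0x4a⟩ (.node ⟨nat_lit 7, nat_lit 0x40002000200048, nat_lit 0x2010101, nat_lit 1, nat_lit 4, nat_lit 0x48⟩ (.node ⟨nat_lit 9, nat_lit 0x8001000100010000400110, nat_lit 0x2011011, nat_lit 1, nat_lit 4, nat_lit 0x4a⟩ (t14_501) (t14_8693)) (.node ⟨nat_lit 6, nat_lit 0x2000080030, nat_lit 0x102121, nat_lit 5, nat_lit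 4, nat_lit 0x49⟩ (t14_4597) (t14_12789))) (.node ⟨nat_lit 5, nat_lit 0x40018, nat_lit 0x10003, nat_lit 2, nat_lit 4, nat_lit 0x45⟩ (.node ⟨nat_lit 6, nat_lit 0x2000200030, nat_lit 0x13201, nat_lit 0, nat_lit 3, nat_lit 0x47⟩ (t14_2549) (t14_10741)) (.node ⟨nat_lit 6, nat_lit 0x2000300034, nat_lit 0x11221, nat_lit 3, nat_lit 4, nat_lit 0x47⟩ (t14_6645) (t14_14837)))) (.node ⟨nat_lit 6, nat_lit 0x800280030, nat_lit 0x21211, nat_lit 1, nat_lit 4, nat_lit 0x47⟩ (.node ⟨nat_lit 6, nat_lit 0x2000080030, nat_lit 0x122210, nat_lit 0, nat_lit 4, nat_lit 0x49⟩ (.node ⟨nat_lit 6, nat_lit 0x1000200038, nat_lit 0x101031, nat_lit 1, nat_lit 4, nat_lit 0x47⟩ (t14_1525) (t14_9717)) (.node ⟨nat_lit 7, nat_lit 0x40002000200064, nat_lit 0x1112210, nat_lit 0, nat_lit 4, nat_lit 0x49⟩ (t14_5621) (t14_13813))) (.node ⟨nat_lit 6, nat_lit 0x2000200010, nat_lit 0x111100,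 nat_lit 0, nat_lit 3, nat_lit 0x47⟩ (.node ⟨nat_lit 7, nat_lit 0x1000080060, nat_lit 0x1000, nat_lit 1, nat_lit 4, nat_lit 0x47⟩ (t14_3573) (t14_11765)) (.node ⟨nat_lit 7, nat_lit 0x40004000100060, nat_lit 0x1110012, nat_lit 0, nat_lit 3, nat_lit 0x47⟩ (t14_7669) (.nil))))) (.node ⟨nat_lit 6, nat_lit 0x10002000340034, nat_lit 0x301020, nat_lit 5, nat_lit 4, nat_lit 0x47⟩ (.node ⟨nat_lit 6, nat_lit 0x80030, nat_lit 0x211210, nat_lit 0, nat_lit 4, nat_lit 0x49⟩ (.node ⟨nat_lit 4, nat_lit 0x80008, nat_lit 0x2111, nat_lit 0xd, nat_lit 4, nat_lit 0x49⟩ (.node ⟨nat_lit 7, nat_lit 0x40001000100060, nat_lit 0x1203101, nat_lit 0, nat_lit 4, nat_lit 0x49⟩ (t14_1013) (t14_9205)) (.node ⟨nat_lit 5, nat_lit 0, nat_lit 0x22211, nat_lit 6, nat_lit 4, nat_lit 0x4c⟩ (t14_5109) (t14_13301))) (.node ⟨nat_lit 7, nat_lit 0x1000180060, nat_lit 0x1110201, nat_lit 0,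 nat_lit 4, nat_lit 0x48⟩ (.node ⟨nat_lit 7, nat_lit 0x10004000440064, nat_lit 0x2100212, nat_lit 2, nat_lit 4, nat_lit 0x49⟩ (t14_3061) (t14_11253)) (.node ⟨nat_lit 7, nat_lit 0x10002000500064, nat_lit 0x1100222, nat_lit 1, nat_lit 4, nat_lit 0x47⟩ (t14_7157) (t14_15349)))) (.node ⟨nat_lit 7, nat_lit 0x1000600060, nat_lit 0x1012111, nat_lit 0, nat_lit 4, nat_lit 0x48⟩ (.node ⟨nat_lit 7, nat_lit 0x4000600064, nat_lit 0x1211111, nat_lit 0, nat_lit 4, nat_lit 0x49⟩ (.node ⟨nat_lit 6, nat_lit 0x1000200020, nat_lit 0x111132, nat_lit 2, nat_lit 4, nat_lit 0x4a⟩ (t14_2037) (t14_10229)) (.node ⟨nat_lit 7, nat_lit 0x2000500060, nat_lit 0x1022020, nat_lit 0, nat_lit 4, nat_lit 0x49⟩ (t14_6133) (t14_14325))) (.node ⟨nat_lit 5, nat_lit 0x40018, nat_lit 0x22214, nat_lit 0, nat_lit 4, nat_lit 0x49⟩ (.node ⟨nat_lit 6, nat_lit 0x2000200030, nat_lit 0x2000, nat_lit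 3, nat_lit 4, nat_lit 0x47⟩ (t14_4085) (t14_12277)) (.node ⟨nat_lit 7, nat_lit 0x400020002000500068, nat_lit 0x112110, nat_lit 2, nat_lit 4, nat_lit 0x47⟩ (t14_8181) (.nil)))))
def t4_5 : Tr := .node ⟨nat_lit 5, nat_lit 0, nat_lit 0x21111, nat_lit 0, nat_lit 3, nat_lit 0x48⟩ (.node ⟨nat_lit 2, nat_lit 0, nat_lit 0x32, nat_lit 3, nat_lit 3, nat_lit 0x45⟩ (.node ⟨nat_lit 4, nat_lit 0x40008, nat_lit 0x1111, nat_lit 5, nat_lit 3, nat_lit 0x45⟩ (.node ⟨nat_lit 3, nat_lit 4, nat_lit 0x241, nat_lit 0xb, nat_lit 4, nat_lit 0x49⟩ (.node ⟨nat_lit 6, nat_lit 0x200030, nat_lit 0x24120, nat_lit 0, nat_lit 4, nat_lit 0x4a⟩ (t9_5) (t9_261)) (.node ⟨nat_lit 4, nat_lit 8, nat_lit 0x3222, nat_lit 1, nat_lit 3, nat_lit 0x48⟩ (t9_133) (t9_389))) (.node ⟨nat_lit 2, nat_lit 0, nat_lit 0x43, nat_lit 9, nat_lit 4, nat_lit 0x48⟩ (.node ⟨nat_lit 3, nat_lit 4, nat_lit 0x213,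 nat_lit 5, nat_lit 3, nat_lit 0x46⟩ (t9_69) (t9_325)) (.node ⟨nat_lit 5, nat_lit 0x18, nat_lit 0x31211, nat_lit 0, nat_lit 3, nat_lit 0x48⟩ (t9_197) (t9_453)))) (.node ⟨nat_lit 3, nat_lit 0, nat_lit 0x111, nat_lit 8, nat_lit 3, nat_lit 0x46⟩ (.node ⟨nat_lit 4, nat_lit 8, nat_lit 0x2421, nat_lit 3, nat_lit 4, nat_lit 0x4a⟩ (.node ⟨nat_lit 5, nat_lit 0x80010, nat_lit 0x13230, nat_lit 1, nat_lit 4, nat_lit 0x4a⟩ (t9_37) (t9_293)) (.node ⟨nat_lit 6, nat_lit 0x2000100024, nat_lit 0x311211, nat_lit 1, nat_lit 4, nat_lit 0x4a⟩ (t9_165) (t9_421))) (.node ⟨nat_lit 4, nat_lit 0x80008, nat_lit 0x1411, nat_lit 9, nat_lit 4, nat_lit 0x49⟩ (.node ⟨nat_lit 3, nat_lit 4, nat_lit 0x332, nat_lit 9, nat_lit 4, nat_lit 0x49⟩ (t9_101) (t9_357)) (.node ⟨nat_lit 4, nat_lit 0xc, nat_lit 0x3131, nat_lit 5, nat_lit 4, nat_lit 0x49⟩ (t9_229) (t9_485))))) (.node ⟨nat_lit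 5, nat_lit 0x100018, nat_lit 0x1202, nat_lit 0, nat_lit 3, nat_lit 0x45⟩ (.node ⟨nat_lit 3, nat_lit 4, nat_lit 0x111, nat_lit 4, nat_lit 3, nat_lit 0x44⟩ (.node ⟨nat_lit 2, nat_lit 0, nat_lit 0x21, nat_lit 6, nat_lit 3, nat_lit 0x44⟩ (.node ⟨nat_lit 2, nat_lit 2, nat_lit 0x32, nat_lit 0x11, nat_lit 4, nat_lit 0x48⟩ (t9_21) (t9_277)) (.node ⟨nat_lit 4, nat_lit 0x40008, nat_lit 0x1321, nat_lit 5, nat_lit 3, nat_lit 0x47⟩ (t9_149) (t9_405))) (.node ⟨nat_lit 2, nat_lit 0, nat_lit 0x11, nat_lit 4, nat_lit 3, nat_lit 0x43⟩ (.node ⟨nat_lit 4, nat_lit 0xc, nat_lit 0x1120, nat_lit 1, nat_lit 3, nat_lit 0x45⟩ (t9_85) (t9_341)) (.node ⟨nat_lit 4, nat_lit 8, nat_lit 0x3212, nat_lit 2, nat_lit 3, nat_lit 0x48⟩ (t9_213) (t9_469)))) (.node ⟨nat_lit 3, nat_lit 0, nat_lit 0x431, nat_lit 3, nat_lit 3, nat_lit 0x48⟩ (.node ⟨nat_lit 3, nat_lit 0, nat_lit 0x422, nat_lit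 2, nat_lit 3, nat_lit 0x48⟩ (.node ⟨nat_lit 5, nat_lit 0x1000100008, nat_lit 0x12211, nat_lit 0, nat_lit 3, nat_lit 0x46⟩ (t9_53) (t9_309)) (.node ⟨nat_lit 4, nat_lit 0, nat_lit 0x3111, nat_lit 7, nat_lit 4, nat_lit 0x49⟩ (t9_181) (t9_437))) (.node ⟨nat_lit 6, nat_lit 0x1000100020, nat_lit 0x204101, nat_lit 1, nat_lit 4, nat_lit 0x4a⟩ (.node ⟨nat_lit 4, nat_lit 0xc, nat_lit 0x3213, nat_lit 0, nat_lit 3, nat_lit 0x47⟩ (t9_117) (t9_373)) (.node ⟨nat_lit 3, nat_lit 6, nat_lit 0x322, nat_lit 3, nat_lit 3, nat_lit 0x46⟩ (t9_245) (t9_501)))))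

end Pool.Agent.Sel.T31
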