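import Pool.Agent.H8.Sel.Prof
import Pool.Agent.H8.Sel.T31.P5

set_option linter.all false
set_option maxRecDepth 100000

namespace Pool.Agent.Sel.T31

open Pool.Agent.Sel

def t14_7 : Tr := .node ⟨nat_lit 8, nat_lit 0x800040004000a000a000d0, nat_lit 0x1121101, nat_lit 0, nat_lit 4, nat_lit 0x47⟩ (.nil) (.nil)
def t14_8199 : Tr := .node ⟨nat_lit 9, nat_lit 0x10000400040012001200180, nat_lit 0x110310, nat_lit 1, nat_lit 4, nat_lit 0x48⟩ (.nil) (.nil)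
def t14_4103 : Tr := .node ⟨nat_lit 8, nat_lit 0x80008000400040009000a0, nat_lit 0x1112110, nat_lit 0, nat_lit 4, nat_lit 0x48⟩ (.nil) (.nil)
def t14_12295 : Tr := .node ⟨nat_lit 7, nat_lit 0x10006000500050, nat_lit 0x2130, nat_lit 3, nat_lit 4, nat_lit 0x47⟩ (.nil) (.nil)
def t14_2055 : Tr := .node ⟨nat_lit 7, nat_lit 0x6000500070, nat_lit 0x102103, nat_lit 1, nat_lit 4, nat_lit 0x47⟩ (.nil) (.nil)
def t14_10247 : Tr := .node ⟨nat_lit 8, nat_lit 0x80002000d000d000e0, nat_lit 0x10000201, nat_lit 0, nat_lit 4, nat_lit 0x45⟩ (.nil) (.nil)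
def t14_6151 : Tr := .node ⟨nat_lit 7, nat_lit 0x20004000100044, nat_lit 0x101, nat_lit 2, nat_lit 4, nat_lit 0x46⟩ (.nil) (.nil)
def t14_14343 : Tr := .node ⟨nat_lit 9, nat_lit 0x80008001000100010001100108, nat_lit 0x2110000, nat_lit 1, nat_lit 4, nat_lit 0x48⟩ (.nil) (.nil)
def t14_1031 : Tr := .node ⟨nat_lit 6, nat_lit 0x800200030, nat_lit 0x21, nat_lit 3, nat_lit 4, nat_lit 0x46⟩ (.nil) (.nil)
def t14_9223 : Tr := .node ⟨nat_lit 0xc, nat_lit 0x4000800080008000200081008200840, nat_lit 0x101100010, nat_lit 0, nat_lit 4, nat_lit 0x4b⟩ (.nil) (.nil)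
def t14_5127 : Tr := .node ⟨nat_lit 7, nat_lit 0x40002000100060, nat_lit 0x13010, nat_lit 0, nat_lit 3, nat_lit 0x46⟩ (.nil) (.nil)
def t14_13319 : Tr := .node ⟨nat_lit 7, nat_lit 0x20001000600050, nat_lit 0x100300, nat_lit 1, nat_lit 4, nat_lit 0x47⟩ (.nil) (.nil)
def t14_3079 : Tr := .node ⟨nat_lit 7, nat_lit 0x40001000100060, nat_lit 0x1000211, nat_lit 2, nat_lit 4, nat_lit 0x48⟩ (.nil) (.nil)
def t14_11271 : Tr := .node ⟨nat_lit 8, nat_lit 0x80004000a000d000e0, nat_lit 0x110012, nat_lit 1, nat_lit 4, nat_lit 0x46⟩ (.nil) (.nil)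
def t14_7175 : Tr := .node ⟨nat_lit 7, nat_lit 0x4000500060, nat_lit 0x1102111, nat_lit 1, nat_lit 4, nat_lit 0x49⟩ (.nil) (.nil)
def t14_15367 : Tr := .node ⟨nat_lit 0xa, nat_lit 0x20002000200008001000220, nat_lit 0x101110011, nat_lit 0, nat_lit 4, nat_lit 0x4b⟩ (.nil) (.nil)
def t14_519 : Tr := .node ⟨nat_lit 8, nat_lit 0x20008000c0, nat_lit 0x11111111, nat_lit 0, nat_lit 4, nat_lit 0x4b⟩ (.nil) (.nil)
def t14_8711 : Tr := .node ⟨nat_lit 7, nat_lit 0x40004800480060, nat_lit 0x11200, nat_lit 2, nat_lit 4, nat_lit 0x47⟩ (.nil) (.nil)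
def t14_4615 : Tr := .node ⟨nat_lit 7, nat_lit 0x20001000400062, nat_lit 0x1110021, nat_lit 0, nat_lit 4, nat_lit 0x48⟩ (.nil) (.nil)
def t14_12807 : Tr := .node ⟨nat_lit 7, nat_lit 0x40001000600050, nat_lit 0x2200, nat_lit 3, nat_lit 4, nat_lit 0x47⟩ (.nil) (.nil)
def t14_2567 : Tr := .node ⟨nat_lit 8, nat_lit 0x80008000400040009000e0, nat_lit 0x10112200, nat_lit 1, nat_lit 4, nat_lit 0x48⟩ (.nil) (.nil)
def t14_10759 : Tr := .node ⟨nat_lit 7, nat_lit 0x20004000680070, nat_lit 0x122, nat_lit 2, nat_lit 4, nat_lit 0x45⟩ (.nil) (.nil)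
def t14_6663 : Tr := .node ⟨nat_lit 7, nat_lit 0x400040004000200020, nat_lit 0x21030, nat_lit 1, nat_lit 4, nat_lit 0x48⟩ (.nil) (.nil)
def t14_14855 : Tr := .node ⟨nat_lit 8, nat_lit 0x8000800040004000a000c8, nat_lit 0x1121111, nat_lit 2, nat_lit 4, nat_lit 0x48⟩ (.nil) (.nil)
def t14_1543 : Tr := .node ⟨nat_lit 7, nat_lit 0x4000500060, nat_lit 0x112102, nat_lit 0, nat_lit 3, nat_lit 0x47⟩ (.nil) (.nil)
def t14_9735 : Tr := .node ⟨nat_lit 7, nat_lit 0x40001000100060, nat_lit 0x1001002, nat_lit 0, nat_lit 4, nat_lit 0x47⟩ (.nil) (.nil)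
def t14_5639 : Tr := .node ⟨nat_lit 7, nat_lit 0x40001000600070, nat_lit 0x1002, nat_lit 1, nat_lit 4, nat_lit 0x45⟩ (.nil) (.nil)
def t14_13831 : Tr := .node ⟨nat_lit 6, nat_lit 0x800300030, nat_lit 0x320, nat_lit 3, nat_lit 4, nat_lit 0x46⟩ (.nil) (.nil)
def t14_3591 : Tr := .node ⟨nat_lit 7, nat_lit 0x20003000500060, nat_lit 0x211, nat_lit 0, nat_lit 4, nat_lit 0x45⟩ (.nil) (.nil)
def t14_11783 : Tr := .node ⟨nat_lit 7, nat_lit 0x10002000400060, nat_lit 0x103, nat_lit 3, nat_lit 4, nat_lit 0x47⟩ (.nil) (.nil)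
def t14_7687 : Tr := .node ⟨nat_lit 6, nat_lit 0x800080030, nat_lit 0x102, nat_lit 3, nat_lit 4, nat_lit 0x46⟩ (.nil) (.nil)
def t9_7 : Tr := .node ⟨nat_lit 6, nat_lit 0x200030, nat_lit 0x132111, nat_lit 0, nat_lit 4, nat_lit 0x4a⟩ (.node ⟨nat_lit 5, nat_lit 0x80010, nat_lit 0x11320, nat_lit 0, nat_lit 4, nat_lit 0x48⟩ (.node ⟨nat_lit 6, nat_lit 0x800200030, nat_lit 0x30100, nat_lit 1, nat_lit 4, nat_lit 0x47⟩ (.node ⟨nat_lit 5, nat_lit 0x140018, nat_lit 0x2120, nat_lit 3, nat_lit 4, nat_lit 0x46⟩ (.node ⟨nat_lit 5, nat_lit 0x80010, nat_lit 0x12230, nat_lit 5, nat_lit 4, nat_lit 0x4a⟩ (t14_7) (t14_8199)) (.node ⟨nat_lit 5, nat_lit 0x180014, nat_lit 0x11000, nat_lit 3, nat_lit 4, nat_lit 0x45⟩ (t14_4103) (t14_12295))) (.node ⟨nat_lit 3, nat_lit 6, nat_lit 0x312, nat_lit 0xe, nat_lit 4, nat_lit 0x48⟩ (.node ⟨nat_lit 8, nat_lit 0x800080004000200020,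 nat_lit 0x1110031, nat_lit 1, nat_lit 4, nat_lit 0x4a⟩ (t14_2055) (t14_10247)) (.node ⟨nat_lit 7, nat_lit 0x40004000200060, nat_lit 0x22020, nat_lit 0, nat_lit 4, nat_lit 0x48⟩ (t14_6151) (t14_14343)))) (.node ⟨nat_lit 6, nat_lit 0x200020, nat_lit 0x22111, nat_lit 0, nat_lit 3, nat_lit 0x48⟩ (.node ⟨nat_lit 6, nat_lit 0x1000100020, nat_lit 0x123111, nat_lit 0, nat_lit 4, nat_lit 0x4a⟩ (.node ⟨nat_lit 6, nat_lit 0x300038, nat_lit 0x111141, nat_lit 0, nat_lit 4, nat_lit 0x48⟩ (t14_1031) (t14_9223)) (.node ⟨nat_lit 6, nat_lit 0, nat_lit 0x222111, nat_lit 3, nat_lit 4, nat_lit 0x4d⟩ (t14_5127) (t14_13319))) (.node ⟨nat_lit 5, nat_lit 0x800080010, nat_lit 0x11201, nat_lit 3, nat_lit 4, nat_lit 0x47⟩ (.node ⟨nat_lit 5, nat_lit 0x800100018, nat_lit 0x11004, nat_lit 7, nat_lit 4, nat_lit 0x48⟩ (t14_3079) (t14_11271)) (.node ⟨nat_lit 7, nat_lit 0x40005000600068,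 nat_lit 0x102022, nat_lit 3, nat_lit 4, nat_lit 0x47⟩ (t14_7175) (t14_15367))))) (.node ⟨nat_lit 8, nat_lit 0x40008000840084, nat_lit 0x30210010, nat_lit 1, nat_lit 4, nat_lit 0x4b⟩ (.node ⟨nat_lit 4, nat_lit 0, nat_lit 0x2211, nat_lit 9, nat_lit 4, nat_lit 0x4a⟩ (.node ⟨nat_lit 7, nat_lit 0x4000100020, nat_lit 0x12011, nat_lit 1, nat_lit 4, nat_lit 0x49⟩ (.node ⟨nat_lit 9, nat_lit 0x10001000080004001100120, nat_lit 0x102110110, nat_lit 0, nat_lit 4, nat_lit 0x4a⟩ (t14_519) (t14_8711)) (.node ⟨nat_lit 6, nat_lit 0x2000300028, nat_lit 0x101202, nat_lit 5, nat_lit 4, nat_lit 0x48⟩ (t14_4615) (t14_12807))) (.node ⟨nat_lit 4, nat_lit 0x80008, nat_lit 0x130, nat_lit 4, nat_lit 3, nat_lit 0x45⟩ (.node ⟨nat_lit 7, nat_lit 0x40002000100060, nat_lit 0x120311, nat_lit 0, nat_lit 4, nat_lit 0x49⟩ (t14_2567) (t14_10759)) (.node ⟨nat_lit 8, nat_lit 0x80008000800088,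 nat_lit 0x2110200, nat_lit 3, nat_lit 4, nat_lit 0x4b⟩ (t14_6663) (t14_14855)))) (.node ⟨nat_lit 3, nat_lit 4, nat_lit 0x123, nat_lit 6, nat_lit 4, nat_lit 0x47⟩ (.node ⟨nat_lit 5, nat_lit 0x80010, nat_lit 0x12211, nat_lit 8, nat_lit 4, nat_lit 0x4a⟩ (.node ⟨nat_lit 6, nat_lit 0x2000080034, nat_lit 0x111311, nat_lit 1, nat_lit 4, nat_lit 0x48⟩ (t14_1543) (t14_9735)) (.node ⟨nat_lit 7, nat_lit 0x400020002000500050, nat_lit 0x1112220, nat_lit 0, nat_lit 4, nat_lit 0x48⟩ (t14_5639) (t14_13831))) (.node ⟨nat_lit 4, nat_lit 0xc, nat_lit 0x2024, nat_lit 3, nat_lit 4, nat_lit 0x47⟩ (.node ⟨nat_lit 5, nat_lit 0x100008001c, nat_lit 0x1103, nat_lit 5, nat_lit 4, nat_lit 0x45⟩ (t14_3591) (t14_11783)) (.node ⟨nat_lit 7, nat_lit 0x4000440060, nat_lit 0x1111201, nat_lit 3, nat_lit 4, nat_lit 0x4a⟩ (t14_7687) (.nil)))))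
def t14_263 : Tr := .node ⟨nat_lit 8, nat_lit 0x80002000c000a0, nat_lit 0x112121, nat_lit 0, nat_lit 4, nat_lit 0x49⟩ (.nil) (.nil)
def t14_8455 : Tr := .node ⟨nat_lit 6, nat_lit 0x2000100030, nat_lit 0x1302, nat_lit 0, nat_lit 4, nat_lit 0x47⟩ (.nil) (.nil)
def t14_4359 : Tr := .node ⟨nat_lit 8, nat_lit 0x800020009000a000d0, nat_lit 0x11101021, nat_lit 0, nat_lit 4, nat_lit 0x48⟩ (.nil) (.nil)
def t14_12551 : Tr := .node ⟨nat_lit 8, nat_lit 0x200080008800c000c8, nat_lit 0x10001031, nat_lit 0, nat_lit 4, nat_lit 0x47⟩ (.nil) (.nil)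
def t14_2311 : Tr := .node ⟨nat_lit 8, nat_lit 0x800080002000400090, nat_lit 0x1121001, nat_lit 1, nat_lit 4, nat_lit 0x49⟩ (.nil) (.nil)
def t14_10503 : Tr := .node ⟨nat_lit 8, nat_lit 0x800080009000c000d0, nat_lit 0x100022, nat_lit 2, nat_lit 4, nat_lit 0x47⟩ (.nil) (.nil)
def t14_6407 : Tr := .node ⟨nat_lit 7, nat_lit 0x400020002000500070, nat_lit 0x1011002, nat_lit 1, nat_lit 4, nat_lit 0x46⟩ (.nil) (.nil)
def t14_14599 : Tr := .node ⟨nat_lit 3, nat_lit 4, nat_lit 0x111, nat_lit 0xe, nat_lit 3, nat_lit 0x46⟩ (.nil) (.nil)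
def t14_1287 : Tr := .node ⟨nat_lit 8, nat_lit 0x800040002000c0, nat_lit 0x110212, nat_lit 0, nat_lit 4, nat_lit 0x49⟩ (.nil) (.nil)
def t14_9479 : Tr := .node ⟨nat_lit 7, nat_lit 0x200040004000300048, nat_lit 0x101100, nat_lit 4, nat_lit 4, nat_lit 0x47⟩ (.nil) (.nil)
def t14_5383 : Tr := .node ⟨nat_lit 9, nat_lit 0x400100002001080180, nat_lit 0x10002012, nat_lit 1, nat_lit 4, nat_lit 0x49⟩ (.nil) (.nil)
def t14_13575 : Tr := .node ⟨nat_lit 7, nat_lit 0x10001000400060, nat_lit 0x1001, nat_lit 0, nat_lit 4, nat_lit 0x46⟩ (.nil) (.nil)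
def t14_3335 : Tr := .node ⟨nat_lit 8, nat_lit 0x8000800040004000c0, nat_lit 0x120201, nat_lit 2, nat_lit 4, nat_lit 0x49⟩ (.nil) (.nil)
def t14_11527 : Tr := .node ⟨nat_lit 6, nat_lit 0x10001000200020, nat_lit 0x11111, nat_lit 2, nat_lit 4, nat_lit 0x47⟩ (.nil) (.nil)
def t14_7431 : Tr := .node ⟨nat_lit 7, nat_lit 0x400040002000200050, nat_lit 0x1111111, nat_lit 4, nat_lit 4, nat_lit 0x49⟩ (.nil) (.nil)
def t14_775 : Tr := .node ⟨nat_lit 6, nat_lit 0x280030, nat_lit 0x113, nat_lit 1, nat_lit 4, nat_lit 0x46⟩ (.nil) (.nil)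
def t14_8967 : Tr := .node ⟨nat_lit 5, nat_lit 0x10001000180014, nat_lit 0x2110, nat_lit 0xb, nat_lit 4, nat_lit 0x47⟩ (.nil) (.nil)
def t14_4871 : Tr := .node ⟨nat_lit 9, nat_lit 0x100008000800140014001a001a0, nat_lit 0x11120010, nat_lit 0, nat_lit 4, nat_lit 0x47⟩ (.nil) (.nil)
def t14_13063 : Tr := .node ⟨nat_lit 7, nat_lit 0x400020002000500050, nat_lit 0x121100, nat_lit 0, nat_lit 4, nat_lit 0x47⟩ (.nil) (.nil)
def t14_2823 : Tr := .node ⟨nat_lit 7, nat_lit 0x1000600060, nat_lit 0x12021, nat_lit 2, nat_lit 4, nat_lit 0x48⟩ (.nil) (.nil)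
def t14_11015 : Tr := .node ⟨nat_lit 6, nat_lit 0x3000300030, nat_lit 0x3210, nat_lit 3, nat_lit 4, nat_lit 0x47⟩ (.nil) (.nil)
def t14_6919 : Tr := .node ⟨nat_lit 4, nat_lit 0x8000c, nat_lit 0x1311, nat_lit 9, nat_lit 4, nat_lit 0x48⟩ (.nil) (.nil)
def t14_15111 : Tr := .node ⟨nat_lit 8, nat_lit 0x400080005000a000d0, nat_lit 0x1111110, nat_lit 0, nat_lit 4, nat_lit 0x47⟩ (.nil) (.nil)
def t14_1799 : Tr := .node ⟨nat_lit 7, nat_lit 0x40001000600068, nat_lit 0x2001022, nat_lit 0, nat_lit 4, nat_lit 0x47⟩ (.nil) (.nil)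
def t14_9991 : Tr := .node ⟨nat_lit 6, nat_lit 0x2000100010, nat_lit 0x302020, nat_lit 0, nat_lit 3, nat_lit 0x48⟩ (.nil) (.nil)
def t14_5895 : Tr := .node ⟨nat_lit 9, nat_lit 0x8000800100004000a00108, nat_lit 0x101120000, nat_lit 1, nat_lit 4, nat_lit 0x49⟩ (.nil) (.nil)
def t14_14087 : Tr := .node ⟨nat_lit 6, nat_lit 0x10002000200024, nat_lit 0x10311, nat_lit 3, nat_lit 4, nat_lit 0x48⟩ (.nil) (.nil)
def t14_3847 : Tr := .node ⟨nat_lit 8, nat_lit 0x4000800020002000c0, nat_lit 0x11022001, nat_lit 0, nat_lit 4, nat_lit 0x49⟩ (.nil) (.nil)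
def t14_12039 : Tr := .node ⟨nat_lit 7, nat_lit 0x6000180050, nat_lit 0x1001121, nat_lit 1, nat_lit 4, nat_lit 0x47⟩ (.nil) (.nil)
def t14_7943 : Tr := .node ⟨nat_lit 9, nat_lit 0x1000100008000900090012001c0, nat_lit 0x101012101, nat_lit 0, nat_lit 4, nat_lit 0x47⟩ (.nil) (.nil)
def t9_263 : Tr := .node ⟨nat_lit 4, nat_lit 0x40008, nat_lit 0x1322, nat_lit 3, nat_lit 4, nat_lit 0x48⟩ (.node ⟨nat_lit 7, nat_lit 0x40001000580068, nat_lit 0x3101021, nat_lit 1, nat_lit 4, nat_lit 0x48⟩ (.node ⟨nat_lit 6, nat_lit 0x20002000100030, nat_lit 0x20023, nat_lit 0, nat_lit 3, nat_lit 0x46⟩ (.node ⟨nat_lit 4, nat_lit 0x40008, nat_lit 0x2132, nat_lit 2, nat_lit 3, nat_lit 0x46⟩ (.node ⟨nat_lit 6, nat_lit 0x20001000280030, nat_lit 0x120202, nat_lit 3, nat_lit 4, nat_lit 0x48⟩ (t14_263) (t14_8455)) (.node ⟨nat_lit 7, nat_lit 0x4000100060, nat_lit 0x1201300, nat_lit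 0, nat_lit 3, nat_lit 0x48⟩ (t14_4359) (t14_12551))) (.node ⟨nat_lit 4, nat_lit 8, nat_lit 0x312, nat_lit 7, nat_lit 3, nat_lit 0x47⟩ (.node ⟨nat_lit 7, nat_lit 0x40001000600050, nat_lit 0x12203, nat_lit 2, nat_lit 4, nat_lit 0x48⟩ (t14_2311) (t14_10503)) (.node ⟨nat_lit 7, nat_lit 0x40002000480048, nat_lit 0x1022021, nat_lit 0, nat_lit 4, nat_lit 0x49⟩ (t14_6407) (t14_14599)))) (.node ⟨nat_lit 6, nat_lit 0x80030, nat_lit 0x211111, nat_lit 1, nat_lit 4, nat_lit 0x49⟩ (.node ⟨nat_lit 6, nat_lit 0x2000080034, nat_lit 0x222111, nat_lit 1, nat_lit 4, nat_lit 0x49⟩ (.node ⟨nat_lit 5, nat_lit 0x1000080014, nat_lit 0x11103, nat_lit 5, nat_lit 4, nat_lit 0x47⟩ (t14_1287) (t14_9479)) (.node ⟨nat_lit 6, nat_lit 0x2000100030, nat_lit 0x111222, nat_lit 3, nat_lit 4, nat_lit 0x49⟩ (t14_5383) (t14_13575))) (.node ⟨nat_lit 5, nat_lit 0x80010, nat_lit 0x20220,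 nat_lit 3, nat_lit 4, nat_lit 0x48⟩ (.node ⟨nat_lit 6, nat_lit 0x800300030, nat_lit 0x110031, nat_lit 0, nat_lit 4, nat_lit 0x47⟩ (t14_3335) (t14_11527)) (.node ⟨nat_lit 6, nat_lit 0x800080030, nat_lit 0x111112, nat_lit 2, nat_lit 4, nat_lit 0x48⟩ (t14_7431) (.nil))))) (.node ⟨nat_lit 5, nat_lit 0x100010, nat_lit 0x13111, nat_lit 4, nat_lit 4, nat_lit 0x49⟩ (.node ⟨nat_lit 5, nat_lit 0x40018, nat_lit 0x11200, nat_lit 1, nat_lit 3, nat_lit 0x46⟩ (.node ⟨nat_lit 3, nat_lit 4, nat_lit 0x112, nat_lit 7, nat_lit 4, nat_lit 0x46⟩ (.node ⟨nat_lit 8, nat_lit 0x10002000400080, nat_lit 0x12111101, nat_lit 0, nat_lit 4, nat_lit 0x4b⟩ (t14_775) (t14_8967)) (.node ⟨nat_lit 7, nat_lit 0x40001000600060, nat_lit 0x12210, nat_lit 1, nat_lit 4, nat_lit 0x47⟩ (t14_4871) (t14_13063))) (.node ⟨nat_lit 7, nat_lit 0x40001000680070, nat_lit 0x1002022, nat_lit 0, nat_lit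 4, nat_lit 0x46⟩ (.node ⟨nat_lit 7, nat_lit 0x40001000100060, nat_lit 0x201103, nat_lit 1, nat_lit 4, nat_lit 0x48⟩ (t14_2823) (t14_11015)) (.node ⟨nat_lit 6, nat_lit 0x20001000100028, nat_lit 0x101302, nat_lit 2, nat_lit 4, nat_lit 0x47⟩ (t14_6919) (t14_15111)))) (.node ⟨nat_lit 6, nat_lit 0x20002000100010, nat_lit 0x11021, nat_lit 5, nat_lit 4, nat_lit 0x48⟩ (.node ⟨nat_lit 7, nat_lit 0x4000440060, nat_lit 0x1011211, nat_lit 0, nat_lit 4, nat_lit 0x49⟩ (.node ⟨nat_lit 8, nat_lit 0x10008000c000a0, nat_lit 0x100103, nat_lit 1, nat_lit 4, nat_lit 0x48⟩ (t14_1799) (t14_9991)) (.node ⟨nat_lit 6, nat_lit 0x2000200010, nat_lit 0x122103, nat_lit 0, nat_lit 4, nat_lit 0x4a⟩ (t14_5895) (t14_14087))) (.node ⟨nat_lit 7, nat_lit 0x10002000500060, nat_lit 0x22320, nat_lit 0, nat_lit 4, nat_lit 0x48⟩ (.node ⟨nat_lit 7, nat_lit 0x40001000600050, nat_lit 0x10103,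 nat_lit 4, nat_lit 4, nat_lit 0x48⟩ (t14_3847) (t14_12039)) (.node ⟨nat_lit 6, nat_lit 0x10001000200030, nat_lit 0x12211, nat_lit 3, nat_lit 4, nat_lit 0x48⟩ (t14_7943) (.nil)))))
def t14_135 : Tr := .node ⟨nat_lit 7, nat_lit 0x20004000100060, nat_lit 0x1032111, nat_lit 0, nat_lit 4, nat_lit 0x49⟩ (.nil) (.nil)
def t14_8327 : Tr := .node ⟨nat_lit 7, nat_lit 0x10002000500060, nat_lit 0x20, nat_lit 0, nat_lit 4, nat_lit 0x45⟩ (.nil) (.nil)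
def t14_4231 : Tr := .node ⟨nat_lit 7, nat_lit 0x40004800300030, nat_lit 0x2102110, nat_lit 0, nat_lit 4, nat_lit 0x48⟩ (.nil) (.nil)
def t14_12423 : Tr := .node ⟨nat_lit 8, nat_lit 0x400080008000c000c8, nat_lit 0x111030, nat_lit 2, nat_lit 4, nat_lit 0x48⟩ (.nil) (.nil)
def t14_2183 : Tr := .node ⟨nat_lit 8, nat_lit 0x8000800040004800a000e0, nat_lit 0x10102200, nat_lit 1, nat_lit 4, nat_lit 0x47⟩ (.nil) (.nil)
def t14_10375 : Tr := .node ⟨nat_lit 8, nat_lit 0x40008000900090006000c0, nat_lit 0x10200002, nat_lit 2, nat_lit 4, nat_lit 0x47⟩ (.nil) (.nil)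
def t14_6279 : Tr := .node ⟨nat_lit 6, nat_lit 0x800200030, nat_lit 0x110031, nat_lit 2, nat_lit 4, nat_lit 0x48⟩ (.nil) (.nil)
def t14_14471 : Tr := .node ⟨nat_lit 8, nat_lit 0x40004000a000c8, nat_lit 0x110020, nat_lit 1, nat_lit 4, nat_lit 0x48⟩ (.nil) (.nil)
def t14_1159 : Tr := .node ⟨nat_lit 7, nat_lit 0x4000100060, nat_lit 0x10212, nat_lit 0, nat_lit 4, nat_lit 0x48⟩ (.nil) (.nil)
def t14_9351 : Tr := .node ⟨nat_lit 8, nat_lit 0x800080008000880090, nat_lit 0x1111101, nat_lit 5, nat_lit 4, nat_lit 0x4a⟩ (.nil) (.nil)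
def t14_5255 : Tr := .node ⟨nat_lit 9, nat_lit 0x100010001080180, nat_lit 0x1112110, nat_lit 0, nat_lit 4, nat_lit 0x4b⟩ (.nil) (.nil)
def t14_13447 : Tr := .node ⟨nat_lit 7, nat_lit 0x1000600018, nat_lit 0x1100310, nat_lit 1, nat_lit 4, nat_lit 0x48⟩ (.nil) (.nil)
def t14_3207 : Tr := .node ⟨nat_lit 9, nat_lit 0x1000080008001400140018001a0, nat_lit 0x1111020, nat_lit 0, nat_lit 4, nat_lit 0x47⟩ (.nil) (.nil)
def t14_11399 : Tr := .node ⟨nat_lit 7, nat_lit 0x10001000600060, nat_lit 0x2011120, nat_lit 0, nat_lit 4, nat_lit 0x48⟩ (.nil) (.nil)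
def t14_7303 : Tr := .node ⟨nat_lit 7, nat_lit 0x10001000100060, nat_lit 0x2002201, nat_lit 0, nat_lit 4, nat_lit 0x49⟩ (.nil) (.nil)
def t14_15495 : Tr := .node ⟨nat_lit 9, nat_lit 0x1000080004000400180, nat_lit 0x100120101, nat_lit 0, nat_lit 4, nat_lit 0x4a⟩ (.nil) (.nil)
def t14_647 : Tr := .node ⟨nat_lit 7, nat_lit 0x4000500060, nat_lit 0x21320, nat_lit 0, nat_lit 4, nat_lit 0x49⟩ (.nil) (.nil)
def t14_8839 : Tr := .node ⟨nat_lit 7, nat_lit 0x4000400044, nat_lit 0x111213, nat_lit 1, nat_lit 4, nat_lit 0x4a⟩ (.nil) (.nil)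
def t14_4743 : Tr := .node ⟨nat_lit 6, nat_lit 0x20002000100030, nat_lit 0x12012, nat_lit 6, nat_lit 4, nat_lit 0x48⟩ (.nil) (.nil)
def t14_12935 : Tr := .node ⟨nat_lit 6, nat_lit 0x10002000240030, nat_lit 0x102010, nat_lit 3, nat_lit 4, nat_lit 0x46⟩ (.nil) (.nil)
def t14_2695 : Tr := .node ⟨nat_lit 9, nat_lit 0x1000100004001100180, nat_lit 0x1121010, nat_lit 0, nat_lit 4, nat_lit 0x4a⟩ (.nil) (.nil)
def t14_10887 : Tr := .node ⟨nat_lit 8, nat_lit 0x80008000a0009000c000e0, nat_lit 0x10120, nat_lit 1, nat_lit 4, nat_lit 0x46⟩ (.nil) (.nil)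
def t14_6791 : Tr := .node ⟨nat_lit 7, nat_lit 0x20004000100068, nat_lit 0x111010, nat_lit 0, nat_lit 4, nat_lit 0x47⟩ (.nil) (.nil)
def t14_14983 : Tr := .node ⟨nat_lit 7, nat_lit 0x400040002000200020, nat_lit 0x10210, nat_lit 0, nat_lit 3, nat_lit 0x46⟩ (.nil) (.nil)
def t14_1671 : Tr := .node ⟨nat_lit 7, nat_lit 0x40002000480060, nat_lit 0x112102, nat_lit 0, nat_lit 4, nat_lit 0x48⟩ (.nil) (.nil)
def t14_9863 : Tr := .node ⟨nat_lit 6, nat_lit 0x200020002800280030, nat_lit 0x21111, nat_lit 6, nat_lit 4, nat_lit 0x47⟩ (.nil) (.nil)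
def t14_5767 : Tr := .node ⟨nat_lit 8, nat_lit 0x400040004000800080, nat_lit 0x122010, nat_lit 3, nat_lit 4, nat_lit 0x4a⟩ (.nil) (.nil)
def t14_13959 : Tr := .node ⟨nat_lit 7, nat_lit 0x4000100060, nat_lit 0x1200, nat_lit 6, nat_lit 4, nat_lit 0x49⟩ (.nil) (.nil)
def t14_3719 : Tr := .node ⟨nat_lit 7, nat_lit 0x200040003000480070, nat_lit 0x1213001, nat_lit 0, nat_lit 4, nat_lit 0x48⟩ (.nil) (.nil)
def t14_11911 : Tr := .node ⟨nat_lit 5, nat_lit 0x800100010, nat_lit 0x31400, nat_lit 0, nat_lit 3, nat_lit 0x47⟩ (.nil) (.nil)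
def t14_7815 : Tr := .node ⟨nat_lit 6, nat_lit 0x2000100024, nat_lit 0x12203, nat_lit 2, nat_lit 4, nat_lit 0x48⟩ (.nil) (.nil)
def t9_135 : Tr := .node ⟨nat_lit 6, nat_lit 0x100020, nat_lit 0x132111, nat_lit 0, nat_lit 4, nat_lit 0x4b⟩ (.node ⟨nat_lit 7, nat_lit 0x10002000400064, nat_lit 0x1300112, nat_lit 1, nat_lit 4, nat_lit 0x49⟩ (.node ⟨nat_lit 6, nat_lit 0x20001000280038, nat_lit 0x301201, nat_lit 1, nat_lit 4, nat_lit 0x47⟩ (.node ⟨nat_lit 5, nat_lit 0x40018, nat_lit 0x11202, nat_lit 2, nat_lit 4, nat_lit 0x47⟩ (.node ⟨nat_lit 8, nat_lit 0x80008000800040009000a0, nat_lit 0x2110301, nat_lit 1, nat_lit 4, nat_lit 0x49⟩ (t14_135) (t14_8327)) (.node ⟨nat_lit 7, nat_lit 0x400020002000500068, nat_lit 0x120010, nat_lit 0, nat_lit 4, nat_lit 0x46⟩ (t14_4231) (t14_12423))) (.node ⟨nat_lit 7, nat_lit 0x40004000400020, nat_lit 0x121101, nat_lit 0,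 nat_lit 4, nat_lit 0x49⟩ (.node ⟨nat_lit 5, nat_lit 0x18, nat_lit 0x100, nat_lit 1, nat_lit 4, nat_lit 0x45⟩ (t14_2183) (t14_10375)) (.node ⟨nat_lit 8, nat_lit 0x8000400040009000c8, nat_lit 0x11211011, nat_lit 1, nat_lit 4, nat_lit 0x49⟩ (t14_6279) (t14_14471)))) (.node ⟨nat_lit 7, nat_lit 0x4000400044, nat_lit 0x221100, nat_lit 2, nat_lit 4, nat_lit 0x4a⟩ (.node ⟨nat_lit 5, nat_lit 0x18, nat_lit 0x22211, nat_lit 2, nat_lit 4, nat_lit 0x4a⟩ (.node ⟨nat_lit 3, nat_lit 4, nat_lit 0x412, nat_lit 3, nat_lit 3, nat_lit 0x47⟩ (t14_1159) (t14_9351)) (.node ⟨nat_lit 7, nat_lit 0x10002000400060, nat_lit 0x1100221, nat_lit 3, nat_lit 4, nat_lit 0x49⟩ (t14_5255) (t14_13447))) (.node ⟨nat_lit 5, nat_lit 0x18, nat_lit 0x21000, nat_lit 0, nat_lit 4, nat_lit 0x46⟩ (.node ⟨nat_lit 6, nat_lit 0x300030, nat_lit 0x103030, nat_lit 0, nat_lit 4, nat_lit 0x48⟩ (t14_3207)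 (t14_11399)) (.node ⟨nat_lit 6, nat_lit 0x1000200030, nat_lit 0x11100, nat_lit 3, nat_lit 4, nat_lit 0x47⟩ (t14_7303) (t14_15495))))) (.node ⟨nat_lit 5, nat_lit 0x100012, nat_lit 0x31121, nat_lit 4, nat_lit 4, nat_lit 0x4a⟩ (.node ⟨nat_lit 5, nat_lit 0x1000100008, nat_lit 0x2303, nat_lit 3, nat_lit 4, nat_lit 0x48⟩ (.node ⟨nat_lit 6, nat_lit 0x1000100020, nat_lit 0x102110, nat_lit 2, nat_lit 4, nat_lit 0x48⟩ (.node ⟨nat_lit 5, nat_lit 0x180018, nat_lit 0x10421, nat_lit 4, nat_lit 4, nat_lit 0x48⟩ (t14_647) (t14_8839)) (.node ⟨nat_lit 7, nat_lit 0x40003000500068, nat_lit 0x1002201, nat_lit 1, nat_lit 4, nat_lit 0x46⟩ (t14_4743) (t14_12935))) (.node ⟨nat_lit 4, nat_lit 0x8000e, nat_lit 0x1112, nat_lit 8, nat_lit 4, nat_lit 0x46⟩ (.node ⟨nat_lit 5, nat_lit 0x180018, nat_lit 0x10320, nat_lit 3, nat_lit 3, nat_lit 0x46⟩ (t14_2695) (t14_10887)) (.node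 ⟨nat_lit 7, nat_lit 0x10001000500060, nat_lit 0x101102, nat_lit 2, nat_lit 4, nat_lit 0x47⟩ (t14_6791) (t14_14983)))) (.node ⟨nat_lit 6, nat_lit 0x200010, nat_lit 0x121101, nat_lit 3, nat_lit 4, nat_lit 0x4a⟩ (.node ⟨nat_lit 7, nat_lit 0x40001000100060, nat_lit 0x211111, nat_lit 0, nat_lit 4, nat_lit 0x48⟩ (.node ⟨nat_lit 6, nat_lit 0x300038, nat_lit 0x101113, nat_lit 2, nat_lit 4, nat_lit 0x47⟩ (t14_1671) (t14_9863)) (.node ⟨nat_lit 7, nat_lit 0x40004000400020, nat_lit 0x213002, nat_lit 0, nat_lit 4, nat_lit 0x4a⟩ (t14_5767) (t14_13959))) (.node ⟨nat_lit 6, nat_lit 0x10002000240034, nat_lit 0x212021, nat_lit 2, nat_lit 4, nat_lit 0x47⟩ (.node ⟨nat_lit 7, nat_lit 0x2800600050, nat_lit 0x1001100, nat_lit 0, nat_lit 4, nat_lit 0x46⟩ (t14_3719) (t14_11911)) (.node ⟨nat_lit 6, nat_lit 0x20001000100010, nat_lit 0x10222, nat_lit 1, nat_lit 3, nat_lit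 0x47⟩ (t14_7815) (.nil)))))
def t14_391 : Tr := .node ⟨nat_lit 6, nat_lit 0x2000100024, nat_lit 0x101131, nat_lit 0, nat_lit 4, nat_lit 0x47⟩ (.nil) (.nil)
def t14_8583 : Tr := .node ⟨nat_lit 5, nat_lit 0x1000080014, nat_lit 0x111, nat_lit 5, nat_lit 4, nat_lit 0x45⟩ (.nil) (.nil)
def t14_4487 : Tr := .node ⟨nat_lit 7, nat_lit 0x20004000100060, nat_lit 0x1112101, nat_lit 2, nat_lit 4, nat_lit 0x49⟩ (.nil) (.nil)
def t14_12679 : Tr := .node ⟨nat_lit 6, nat_lit 0x200030, nat_lit 0x101130, nat_lit 2, nat_lit 4, nat_lit 0x49⟩ (.nil) (.nil)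
def t14_2439 : Tr := .node ⟨nat_lit 6, nat_lit 0x800280030, nat_lit 0x1202, nat_lit 1, nat_lit 4, nat_lit 0x46⟩ (.nil) (.nil)
def t14_10631 : Tr := .node ⟨nat_lit 6, nat_lit 0x80030, nat_lit 0x110, nat_lit 1, nat_lit 4, nat_lit 0x46⟩ (.nil) (.nil)
def t14_6535 : Tr := .node ⟨nat_lit 7, nat_lit 0x800500060, nat_lit 0x111211, nat_lit 0, nat_lit 4, nat_lit 0x48⟩ (.nil) (.nil)
def t14_14727 : Tr := .node ⟨nat_lit 5, nat_lit 0x1000100008, nat_lit 0x1113, nat_lit 4, nat_lit 4, nat_lit 0x47⟩ (.nil) (.nil)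
def t14_1415 : Tr := .node ⟨nat_lit 8, nat_lit 0x80008000400040009000e0, nat_lit 0x113110, nat_lit 0, nat_lit 4, nat_lit 0x47⟩ (.nil) (.nil)
def t14_9607 : Tr := .node ⟨nat_lit 8, nat_lit 0x40005000a000c000d0, nat_lit 0x10220, nat_lit 1, nat_lit 4, nat_lit 0x46⟩ (.nil) (.nil)
def t14_5511 : Tr := .node ⟨nat_lit 8, nat_lit 0x8000200020009000c0, nat_lit 0x31011, nat_lit 1, nat_lit 4, nat_lit 0x48⟩ (.nil) (.nil)
def t14_13703 : Tr := .node ⟨nat_lit 6, nat_lit 0x1000100020, nat_lit 0x200001, nat_lit 0, nat_lit 4, nat_lit 0x47⟩ (.nil) (.nil)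
def t14_3463 : Tr := .node ⟨nat_lit 6, nat_lit 0x20001000100030, nat_lit 0x321, nat_lit 1, nat_lit 4, nat_lit 0x47⟩ (.nil) (.nil)
def t14_11655 : Tr := .node ⟨nat_lit 6, nat_lit 0x20002800300030, nat_lit 0x3110, nat_lit 6, nat_lit 4, nat_lit 0x47⟩ (.nil) (.nil)
def t14_7559 : Tr := .node ⟨nat_lit 7, nat_lit 0x40005000600068, nat_lit 0x2032, nat_lit 1, nat_lit 4, nat_lit 0x46⟩ (.nil) (.nil)
def t14_903 : Tr := .node ⟨nat_lit 6, nat_lit 0x20002000200010, nat_lit 0x12211, nat_lit 6, nat_lit 4, nat_lit 0x49⟩ (.nil) (.nil)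
def t14_9095 : Tr := .node ⟨nat_lit 9, nat_lit 0x10001000040004001200180, nat_lit 0x10121011, nat_lit 0, nat_lit 4, nat_lit 0x49⟩ (.nil) (.nil)
def t14_4999 : Tr := .node ⟨nat_lit 7, nat_lit 0x4800600070, nat_lit 0x111013, nat_lit 1, nat_lit 4, nat_lit 0x47⟩ (.nil) (.nil)
def t14_13191 : Tr := .node ⟨nat_lit 7, nat_lit 0x5000600028, nat_lit 0x10103, nat_lit 0, nat_lit 4, nat_lit 0x46⟩ (.nil) (.nil)
def t14_2951 : Tr := .node ⟨nat_lit 5, nat_lit 0x1000100018, nat_lit 0x2211, nat_lit 8, nat_lit 4, nat_lit 0x48⟩ (.nil) (.nil)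
def t14_11143 : Tr := .node ⟨nat_lit 6, nat_lit 0x800300030, nat_lit 0x101030, nat_lit 3, nat_lit 4, nat_lit 0x47⟩ (.nil) (.nil)
def t14_7047 : Tr := .node ⟨nat_lit 7, nat_lit 0x4000400060, nat_lit 0x1011211, nat_lit 2, nat_lit 4, nat_lit 0x4a⟩ (.nil) (.nil)
def t14_15239 : Tr := .node ⟨nat_lit 7, nat_lit 0x40003000580068, nat_lit 0x1111102, nat_lit 0, nat_lit 4, nat_lit 0x46⟩ (.nil) (.nil)
def t14_1927 : Tr := .node ⟨nat_lit 7, nat_lit 0x4000600070, nat_lit 0x20112, nat_lit 0, nat_lit 4, nat_lit 0x47⟩ (.nil) (.nil)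
def t14_10119 : Tr := .node ⟨nat_lit 8, nat_lit 0x20008000c000c0, nat_lit 0x10220, nat_lit 4, nat_lit 4, nat_lit 0x49⟩ (.nil) (.nil)
def t14_6023 : Tr := .node ⟨nat_lit 6, nat_lit 0x80030, nat_lit 0x112200, nat_lit 1, nat_lit 4, nat_lit 0x49⟩ (.nil) (.nil)
def t14_14215 : Tr := .node ⟨nat_lit 8, nat_lit 0x10001000a000c0, nat_lit 0x1001002, nat_lit 1, nat_lit 4, nat_lit 0x48⟩ (.nil) (.nil)
def t14_3975 : Tr := .node ⟨nat_lit 8, nat_lit 0x200040008000c400c8, nat_lit 0x11002201, nat_lit 0, nat_lit 4, nat_lit 0x48⟩ (.nil) (.nil)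
def t14_12167 : Tr := .node ⟨nat_lit 8, nat_lit 0x80001000c000a0, nat_lit 0x102010, nat_lit 1, nat_lit 4, nat_lit 0x48⟩ (.nil) (.nil)
def t14_8071 : Tr := .node ⟨nat_lit 6, nat_lit 0x20001000280030, nat_lit 0x11131, nat_lit 2, nat_lit 4, nat_lit 0x46⟩ (.nil) (.nil)
def t9_391 : Tr := .node ⟨nat_lit 6, nat_lit 0x2000080030, nat_lit 0x32012, nat_lit 1, nat_lit 4, nat_lit 0x49⟩ (.node ⟨nat_lit 6, nat_lit 0x1000200030, nat_lit 0x113120, nat_lit 1, nat_lit 4, nat_lit 0x49⟩ (.node ⟨nat_lit 6, nat_lit 0x2000080010, nat_lit 0x22012, nat_lit 1, nat_lit 4, nat_lit 0x49⟩ (.node ⟨nat_lit 6, nat_lit 0x2000080030, nat_lit 0x101221, nat_lit 2, nat_lit 4, nat_lit 0x48⟩ (.node ⟨nat_lit 7, nat_lit 0x200040004800680070, nat_lit 0x2020011, nat_lit 1, nat_lit 4, nat_lit 0x46⟩ (t14_391) (t14_8583)) (.node ⟨nat_lit 9, nat_lit 0x1000100004000800110, nat_lit 0x110120011,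 nat_lit 0, nat_lit 4, nat_lit 0x4b⟩ (t14_4487) (t14_12679))) (.node ⟨nat_lit 4, nat_lit 0x8000e, nat_lit 0x2211, nat_lit 6, nat_lit 4, nat_lit 0x47⟩ (.node ⟨nat_lit 7, nat_lit 0x10004000200060, nat_lit 0x1100114, nat_lit 1, nat_lit 4, nat_lit 0x49⟩ (t14_2439) (t14_10631)) (.node ⟨nat_lit 5, nat_lit 0x80010, nat_lit 0x231, nat_lit 2, nat_lit 4, nat_lit 0x47⟩ (t14_6535) (t14_14727)))) (.node ⟨nat_lit 6, nat_lit 0x1000300028, nat_lit 0x2102, nat_lit 1, nat_lit 4, nat_lit 0x46⟩ (.node ⟨nat_lit 6, nat_lit 0x2000200010, nat_lit 0x121311, nat_lit 1, nat_lit 4, nat_lit 0x4a⟩ (.node ⟨nat_lit 5, nat_lit 0x1000100008, nat_lit 0x11000, nat_lit 1, nat_lit 3, nat_lit 0x45⟩ (t14_1415) (t14_9607)) (.node ⟨nat_lit 7, nat_lit 0x400040002000200050, nat_lit 0x121212, nat_lit 0, nat_lit 4, nat_lit 0x48⟩ (t14_5511) (t14_13703))) (.node ⟨nat_lit 4, nat_lit 0x80008, nat_lit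 0x231, nat_lit 5, nat_lit 4, nat_lit 0x47⟩ (.node ⟨nat_lit 6, nat_lit 0x300030, nat_lit 0x2110, nat_lit 0, nat_lit 4, nat_lit 0x47⟩ (t14_3463) (t14_11655)) (.node ⟨nat_lit 6, nat_lit 0x1000200032, nat_lit 0x111122, nat_lit 3, nat_lit 4, nat_lit 0x48⟩ (t14_7559) (.nil))))) (.node ⟨nat_lit 6, nat_lit 0x300030, nat_lit 0x113111, nat_lit 1, nat_lit 4, nat_lit 0x49⟩ (.node ⟨nat_lit 5, nat_lit 0x80010, nat_lit 0x20220, nat_lit 0, nat_lit 4, nat_lit 0x47⟩ (.node ⟨nat_lit 6, nat_lit 0x2000080030, nat_lit 0x111002, nat_lit 0, nat_lit 3, nat_lit 0x46⟩ (.node ⟨nat_lit 6, nat_lit 0x2000100024, nat_lit 0x311221, nat_lit 0, nat_lit 4, nat_lit 0x4a⟩ (t14_903) (t14_9095)) (.node ⟨nat_lit 5, nat_lit 0x10, nat_lit 0x22110, nat_lit 9, nat_lit 4, nat_lit 0x4b⟩ (t14_4999) (t14_13191))) (.node ⟨nat_lit 8, nat_lit 0x2000200080003000c0, nat_lit 0x11000102, nat_lit 0, nat_lit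 4, nat_lit 0x48⟩ (.node ⟨nat_lit 7, nat_lit 0x800100060, nat_lit 0x1111112, nat_lit 0, nat_lit 4, nat_lit 0x49⟩ (t14_2951) (t14_11143)) (.node ⟨nat_lit 7, nat_lit 0x40004800500060, nat_lit 0x1111022, nat_lit 2, nat_lit 4, nat_lit 0x48⟩ (t14_7047) (t14_15239)))) (.node ⟨nat_lit 6, nat_lit 0x20, nat_lit 0x21112, nat_lit 1, nat_lit 4, nat_lit 0x4a⟩ (.node ⟨nat_lit 5, nat_lit 0x40018, nat_lit 0x22311, nat_lit 1, nat_lit 3, nat_lit 0x48⟩ (.node ⟨nat_lit 7, nat_lit 0x40004800300070, nat_lit 0x1102113, nat_lit 0, nat_lit 4, nat_lit 0x47⟩ (t14_1927) (t14_10119)) (.node ⟨nat_lit 7, nat_lit 0x20005000500060, nat_lit 0x112201, nat_lit 0, nat_lit 4, nat_lit 0x47⟩ (t14_6023) (t14_14215))) (.node ⟨nat_lit 6, nat_lit 0x2000200020, nat_lit 0x11210, nat_lit 2, nat_lit 3, nat_lit 0x47⟩ (.node ⟨nat_lit 6, nat_lit 0x300028, nat_lit 0x110110, nat_lit 1, nat_lit 4, nat_lit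 0x47⟩ (t14_3975) (t14_12167)) (.node ⟨nat_lit 6, nat_lit 0x2000100030, nat_lit 0x111111, nat_lit 3, nat_lit 3, nat_lit 0x47⟩ (t14_8071) (.nil)))))
def t14_71 : Tr := .node ⟨nat_lit 6, nat_lit 0x200030, nat_lit 0x102111, nat_lit 7, nat_lit 4, nat_lit 0x4a⟩ (.nil) (.nil)
def t14_8263 : Tr := .node ⟨nat_lit 6, nat_lit 0x20001000280030, nat_lit 0x2120, nat_lit 2, nat_lit 4, nat_lit 0x46⟩ (.nil) (.nil)
def t14_4167 : Tr := .node ⟨nat_lit 7, nat_lit 0x40001000600070, nat_lit 0x112211, nat_lit 0, nat_lit 4, nat_lit 0x47⟩ (.nil) (.nil)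
def t14_12359 : Tr := .node ⟨nat_lit 7, nat_lit 0x40002000600070, nat_lit 0x11103, nat_lit 4, nat_lit 4, nat_lit 0x47⟩ (.nil) (.nil)
def t14_2119 : Tr := .node ⟨nat_lit 8, nat_lit 0x10008000c000a0, nat_lit 0x200202, nat_lit 1, nat_lit 4, nat_lit 0x49⟩ (.nil) (.nil)
def t14_10311 : Tr := .node ⟨nat_lit 5, nat_lit 0x10, nat_lit 0x20000, nat_lit 0, nat_lit 4, nat_lit 0x46⟩ (.nil) (.nil)
def t14_6215 : Tr := .node ⟨nat_lit 5, nat_lit 0x100018, nat_lit 0x1110, nat_lit 7, nat_lit 4, nat_lit 0x47⟩ (.nil) (.nil)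
def t14_14407 : Tr := .node ⟨nat_lit 7, nat_lit 0x40002000600050, nat_lit 0x2210, nat_lit 2, nat_lit 4, nat_lit 0x47⟩ (.nil) (.nil)
def t14_1095 : Tr := .node ⟨nat_lit 6, nat_lit 0x1000200020, nat_lit 0x101210, nat_lit 3, nat_lit 4, nat_lit 0x48⟩ (.nil) (.nil)
def t14_9287 : Tr := .node ⟨nat_lit 7, nat_lit 0x400020005000600068, nat_lit 0x12121, nat_lit 3, nat_lit 4, nat_lit 0x46⟩ (.nil) (.nil)
def t14_5191 : Tr := .node ⟨nat_lit 7, nat_lit 0x40004000100060, nat_lit 0x113110, nat_lit 2, nat_lit 4, nat_lit 0x49⟩ (.nil) (.nil)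
def t14_13383 : Tr := .node ⟨nat_lit 9, nat_lit 0x10001000080012001200088, nat_lit 0x102000, nat_lit 0, nat_lit 4, nat_lit 0x48⟩ (.nil) (.nil)
def t14_3143 : Tr := .node ⟨nat_lit 6, nat_lit 0x1000300028, nat_lit 0x11001, nat_lit 2, nat_lit 4, nat_lit 0x46⟩ (.nil) (.nil)
def t14_11335 : Tr := .node ⟨nat_lit 6, nat_lit 0x800300038, nat_lit 0x111202, nat_lit 1, nat_lit 4, nat_lit 0x47⟩ (.nil) (.nil)
def t14_7239 : Tr := .node ⟨nat_lit 6, nat_lit 0x20002000100010, nat_lit 0x113011, nat_lit 4, nat_lit 4, nat_lit 0x49⟩ (.nil) (.nil)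
def t14_15431 : Tr := .node ⟨nat_lit 0xb, nat_lit 0x400040000800100010002000440, nat_lit 0x1010011010, nat_lit 0, nat_lit 4, nat_lit 0x4b⟩ (.nil) (.nil)
def t14_583 : Tr := .node ⟨nat_lit 7, nat_lit 0x1000600018, nat_lit 0x2000002, nat_lit 1, nat_lit 4, nat_lit 0x47⟩ (.nil) (.nil)
def t14_8775 : Tr := .node ⟨nat_lit 9, nat_lit 0x100010000800040012001a0, nat_lit 0x1100013, nat_lit 1, nat_lit 4, nat_lit 0x48⟩ (.nil) (.nil)
def t14_4679 : Tr := .node ⟨nat_lit 7, nat_lit 0x10004000400060, nat_lit 0x100202, nat_lit 2, nat_lit 4, nat_lit 0x48⟩ (.nil) (.nil)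
def t14_12871 : Tr := .node ⟨nat_lit 7, nat_lit 0x20004000640070, nat_lit 0x2100, nat_lit 0, nat_lit 4, nat_lit 0x45⟩ (.nil) (.nil)
def t14_2631 : Tr := .node ⟨nat_lit 6, nat_lit 0x20001000100010, nat_lit 0x2310, nat_lit 1, nat_lit 3, nat_lit 0x46⟩ (.nil) (.nil)
def t14_10823 : Tr := .node ⟨nat_lit 8, nat_lit 0x800040009000d000e0, nat_lit 0x10110022, nat_lit 1, nat_lit 4, nat_lit 0x47⟩ (.nil) (.nil)
def t14_6727 : Tr := .node ⟨nat_lit 7, nat_lit 0x4800500060, nat_lit 0x111101, nat_lit 1, nat_lit 4, nat_lit 0x47⟩ (.nil) (.nil)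
def t14_14919 : Tr := .node ⟨nat_lit 8, nat_lit 0x80008800c800a8, nat_lit 0x10011211, nat_lit 0, nat_lit 4, nat_lit 0x48⟩ (.nil) (.nil)
def t14_1607 : Tr := .node ⟨nat_lit 8, nat_lit 0x40004000c000a000d0, nat_lit 0x111220, nat_lit 0, nat_lit 4, nat_lit 0x47⟩ (.nil) (.nil)
def t14_9799 : Tr := .node ⟨nat_lit 9, nat_lit 0x100004001200180018001a0, nat_lit 0x101202, nat_lit 0, nat_lit 4, nat_lit 0x47⟩ (.nil) (.nil)
def t14_5703 : Tr := .node ⟨nat_lit 8, nat_lit 0x8000a000c0, nat_lit 0x1111202, nat_lit 0, nat_lit 4, nat_lit 0x4a⟩ (.nil) (.nil)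
def t14_13895 : Tr := .node ⟨nat_lit 5, nat_lit 0x40018, nat_lit 0x10022, nat_lit 3, nat_lit 4, nat_lit 0x46⟩ (.nil) (.nil)
def t14_3655 : Tr := .node ⟨nat_lit 6, nat_lit 0x800300028, nat_lit 0x201221, nat_lit 2, nat_lit 4, nat_lit 0x48⟩ (.nil) (.nil)
def t14_11847 : Tr := .node ⟨nat_lit 5, nat_lit 0x40018, nat_lit 0x20031, nat_lit 3, nat_lit 4, nat_lit 0x47⟩ (.nil) (.nil)
def t14_7751 : Tr := .node ⟨nat_lit 3, nat_lit 4, nat_lit 0x12, nat_lit 0xa, nat_lit 4, nat_lit 0x46⟩ (.nil) (.nil)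
def t9_71 : Tr := .node ⟨nat_lit 2, nat_lit 2, nat_lit 0x11, nat_lit 0xb, nat_lit 3, nat_lit 0x44⟩ (.node ⟨nat_lit 5, nat_lit 0x18, nat_lit 0x21310, nat_lit 0, nat_lit 3, nat_lit 0x48⟩ (.node ⟨nat_lit 6, nat_lit 0x300030, nat_lit 0x3130, nat_lit 0, nat_lit 4, nat_lit 0x47⟩ (.node ⟨nat_lit 5, nat_lit 0x100008, nat_lit 0x1220, nat_lit 2, nat_lit 4, nat_lit 0x47⟩ (.node ⟨nat_lit 7, nat_lit 0x20002000400070, nat_lit 0x2001023, nat_lit 1, nat_lit 4, nat_lit 0x48⟩ (t14_71) (t14_8263)) (.node ⟨nat_lit 9, nat_lit 0x200100004001800140, nat_lit 0x1000003, nat_lit 1, nat_lit 4, nat_lit 0x49⟩ (t14_4167) (t14_12359))) (.node ⟨nat_lit 4, nat_lit 0xc000c, nat_lit 0x2122, nat_lit 8, nat_lit 4, nat_lit 0x47⟩ (.node ⟨nat_lit 5, nat_lit 0x1000080018, nat_lit 0x1014, nat_lit 5, nat_lit 4, nat_lit 0x47⟩ (t14_2119) (t14_10311)) (.node ⟨nat_lit 8, nat_lit 0x80008000800040004000a0,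 nat_lit 0x1021200, nat_lit 2, nat_lit 4, nat_lit 0x49⟩ (t14_6215) (t14_14407)))) (.node ⟨nat_lit 5, nat_lit 0x10, nat_lit 0x2213, nat_lit 2, nat_lit 4, nat_lit 0x49⟩ (.node ⟨nat_lit 7, nat_lit 0x20004000100060, nat_lit 0x2021111, nat_lit 0, nat_lit 4, nat_lit 0x49⟩ (.node ⟨nat_lit 3, nat_lit 6, nat_lit 0x310, nat_lit 2, nat_lit 3, nat_lit 0x45⟩ (t14_1095) (t14_9287)) (.node ⟨nat_lit 8, nat_lit 0x2000a000c000c0, nat_lit 0x1010231, nat_lit 0, nat_lit 4, nat_lit 0x48⟩ (t14_5191) (t14_13383))) (.node ⟨nat_lit 7, nat_lit 0x4000640064, nat_lit 0x1121010, nat_lit 0, nat_lit 4, nat_lit 0x48⟩ (.node ⟨nat_lit 6, nat_lit 0x1000280034, nat_lit 0x21101, nat_lit 0, nat_lit 4, nat_lit 0x46⟩ (t14_3143) (t14_11335)) (.node ⟨nat_lit 5, nat_lit 0x1000080014, nat_lit 0x11102, nat_lit 7, nat_lit 4, nat_lit 0x47⟩ (t14_7239) (t14_15431))))) (.node ⟨nat_lit 5, nat_lit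 0x10, nat_lit 0x31113, nat_lit 2, nat_lit 4, nat_lit 0x4b⟩ (.node ⟨nat_lit 4, nat_lit 0x80004, nat_lit 0x202, nat_lit 7, nat_lit 4, nat_lit 0x47⟩ (.node ⟨nat_lit 7, nat_lit 0x20002000400070, nat_lit 0x21002, nat_lit 1, nat_lit 4, nat_lit 0x47⟩ (.node ⟨nat_lit 4, nat_lit 0, nat_lit 0x3221, nat_lit 9, nat_lit 4, nat_lit 0x4b⟩ (t14_583) (t14_8775)) (.node ⟨nat_lit 7, nat_lit 0x20004000680070, nat_lit 0x1111122, nat_lit 0, nat_lit 4, nat_lit 0x47⟩ (t14_4679) (t14_12871))) (.node ⟨nat_lit 6, nat_lit 0x800080030, nat_lit 0x100002, nat_lit 2, nat_lit 4, nat_lit 0x46⟩ (.node ⟨nat_lit 4, nat_lit 0x8000e, nat_lit 0x1223, nat_lit 7, nat_lit 4, nat_lit 0x47⟩ (t14_2631) (t14_10823)) (.node ⟨nat_lit 6, nat_lit 0x20002000280024, nat_lit 0x112110, nat_lit 7, nat_lit 4, nat_lit 0x49⟩ (t14_6727) (t14_14919)))) (.node ⟨nat_lit 6, nat_lit 0x2000100024, nat_lit 0x201120,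 nat_lit 2, nat_lit 4, nat_lit 0x48⟩ (.node ⟨nat_lit 4, nat_lit 0xc, nat_lit 0x3320, nat_lit 0, nat_lit 3, nat_lit 0x48⟩ (.node ⟨nat_lit 6, nat_lit 0x30000c, nat_lit 0x111001, nat_lit 0, nat_lit 4, nat_lit 0x46⟩ (t14_1607) (t14_9799)) (.node ⟨nat_lit 7, nat_lit 0x4000200010, nat_lit 0x112010, nat_lit 7, nat_lit 4, nat_lit 0x4b⟩ (t14_5703) (t14_13895))) (.node ⟨nat_lit 6, nat_lit 0x800200032, nat_lit 0x220002, nat_lit 4, nat_lit 4, nat_lit 0x48⟩ (.node ⟨nat_lit 8, nat_lit 0x10008000c000e0, nat_lit 0x100003, nat_lit 1, nat_lit 4, nat_lit 0x47⟩ (t14_3655) (t14_11847)) (.node ⟨nat_lit 7, nat_lit 0x800100060, nat_lit 0x1011102, nat_lit 2, nat_lit 4, nat_lit 0x49⟩ (t14_7751) (.nil)))))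
def t14_327 : Tr := .node ⟨nat_lit 8, nat_lit 0x400080002000c0, nat_lit 0x1121111, nat_lit 0, nat_lit 4, nat_lit 0x4a⟩ (.nil) (.nil)
def t14_8519 : Tr := .node ⟨nat_lit 5, nat_lit 0x1000100014, nat_lit 0x2214, nat_lit 4, nat_lit 4, nat_lit 0x48⟩ (.nil) (.nil)
def t14_4423 : Tr := .node ⟨nat_lit 8, nat_lit 0x8000400040009000c8, nat_lit 0x11211001, nat_lit 1, nat_lit 4, nat_lit 0x49⟩ (.nil) (.nil)
def t14_12615 : Tr := .node ⟨nat_lit 8, nat_lit 0x2000c000a00030, nat_lit 0x11001030, nat_lit 0, nat_lit 4, nat_lit 0x48⟩ (.nil) (.nil)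
def t14_2375 : Tr := .node ⟨nat_lit 7, nat_lit 0x20004000600060, nat_lit 0x12210, nat_lit 3, nat_lit 4, nat_lit 0x48⟩ (.nil) (.nil)
def t14_10567 : Tr := .node ⟨nat_lit 7, nat_lit 0x40002000200048, nat_lit 0x10002, nat_lit 0, nat_lit 4, nat_lit 0x46⟩ (.nil) (.nil)
def t14_6471 : Tr := .node ⟨nat_lit 6, nat_lit 0x2000080030, nat_lit 0x111120, nat_lit 2, nat_lit 4, nat_lit 0x48⟩ (.nil) (.nil)
def t14_14663 : Tr := .node ⟨nat_lit 8, nat_lit 0x8000800080004000e000e0, nat_lit 0x110211, nat_lit 2, nat_lit 4, nat_lit 0x47⟩ (.nil) (.nil)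
def t14_1351 : Tr := .node ⟨nat_lit 7, nat_lit 0x200020004000440070, nat_lit 0x101300, nat_lit 1, nat_lit 4, nat_lit 0x47⟩ (.nil) (.nil)
def t14_9543 : Tr := .node ⟨nat_lit 0xa, nat_lit 0x2000200020001000100024002400280, nat_lit 0x11010101, nat_lit 1, nat_lit 4, nat_lit 0x49⟩ (.nil) (.nil)
def t14_5447 : Tr := .node ⟨nat_lit 4, nat_lit 8, nat_lit 0x214, nat_lit 4, nat_lit 4, nat_lit 0x48⟩ (.nil) (.nil)
def t14_13639 : Tr := .node ⟨nat_lit 7, nat_lit 0x4000600018, nat_lit 0x10202, nat_lit 0, nat_lit 4, nat_lit 0x47⟩ (.nil) (.nil)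
def t14_3399 : Tr := .node ⟨nat_lit 7, nat_lit 0x1000600050, nat_lit 0x2011, nat_lit 0, nat_lit 4, nat_lit 0x47⟩ (.nil) (.nil)
def t14_11591 : Tr := .node ⟨nat_lit 7, nat_lit 0x10006000600070, nat_lit 0x11103, nat_lit 1, nat_lit 4, nat_lit 0x46⟩ (.nil) (.nil)
def t14_7495 : Tr := .node ⟨nat_lit 8, nat_lit 0x80008800a000c0, nat_lit 0x11011111, nat_lit 1, nat_lit 4, nat_lit 0x49⟩ (.nil) (.nil)
def t14_839 : Tr := .node ⟨nat_lit 6, nat_lit 0x20002000200010, nat_lit 0x12201, nat_lit 7, nat_lit 4, nat_lit 0x49⟩ (.nil) (.nil)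
def t14_9031 : Tr := .node ⟨nat_lit 8, nat_lit 0x80008000400040, nat_lit 0x10211100, nat_lit 1, nat_lit 3, nat_lit 0x49⟩ (.nil) (.nil)
def t14_4935 : Tr := .node ⟨nat_lit 7, nat_lit 0x1000600060, nat_lit 0x1001031, nat_lit 2, nat_lit 4, nat_lit 0x48⟩ (.nil) (.nil)
def t14_13127 : Tr := .node ⟨nat_lit 6, nat_lit 0x2000100030, nat_lit 0x202130, nat_lit 0, nat_lit 3, nat_lit 0x47⟩ (.nil) (.nil)
def t14_2887 : Tr := .node ⟨nat_lit 7, nat_lit 0x5000500060, nat_lit 0x211201, nat_lit 0, nat_lit 4, nat_lit 0x48⟩ (.nil) (.nil)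
def t14_11079 : Tr := .node ⟨nat_lit 5, nat_lit 0x180018, nat_lit 0x120, nat_lit 9, nat_lit 4, nat_lit 0x47⟩ (.nil) (.nil)
def t14_6983 : Tr := .node ⟨nat_lit 7, nat_lit 0x40001000100060, nat_lit 0x1201101, nat_lit 3, nat_lit 4, nat_lit 0x49⟩ (.nil) (.nil)
def t14_15175 : Tr := .node ⟨nat_lit 6, nat_lit 0x20001000100030, nat_lit 0x101201, nat_lit 5, nat_lit 3, nat_lit 0x46⟩ (.nil) (.nil)
def t14_1863 : Tr := .node ⟨nat_lit 6, nat_lit 0x2000300030, nat_lit 0x1211, nat_lit 2, nat_lit 3, nat_lit 0x45⟩ (.nil) (.nil)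
def t14_10055 : Tr := .node ⟨nat_lit 8, nat_lit 0x4000c000a000d000d0, nat_lit 0x1102120, nat_lit 0, nat_lit 4, nat_lit 0x46⟩ (.nil) (.nil)
def t14_5959 : Tr := .node ⟨nat_lit 9, nat_lit 0x40010001000180, nat_lit 0x10110211, nat_lit 0, nat_lit 4, nat_lit 0x4b⟩ (.nil) (.nil)
def t14_14151 : Tr := .node ⟨nat_lit 6, nat_lit 0x1000200020, nat_lit 0x11021, nat_lit 6, nat_lit 4, nat_lit 0x49⟩ (.nil) (.nil)
def t14_3911 : Tr := .node ⟨nat_lit 7, nat_lit 0x20006000500068, nat_lit 0x101220, nat_lit 1, nat_lit 4, nat_lit 0x46⟩ (.nil) (.nil)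
def t14_12103 : Tr := .node ⟨nat_lit 7, nat_lit 0x20002000500068, nat_lit 0x110101, nat_lit 1, nat_lit 4, nat_lit 0x47⟩ (.nil) (.nil)
def t14_8007 : Tr := .node ⟨nat_lit 5, nat_lit 0x800100012, nat_lit 0x14, nat_lit 5, nat_lit 4, nat_lit 0x46⟩ (.nil) (.nil)
def t9_327 : Tr := .node ⟨nat_lit 5, nat_lit 0x80010, nat_lit 0x11311, nat_lit 2, nat_lit 4, nat_lit 0x48⟩ (.node ⟨nat_lit 6, nat_lit 0x2000100030, nat_lit 0x3120, nat_lit 0, nat_lit 4, nat_lit 0x47⟩ (.node ⟨nat_lit 5, nat_lit 0x10, nat_lit 0x22113, nat_lit 1, nat_lit 4, nat_lit 0x4a⟩ (.node ⟨nat_lit 6, nat_lit 0x280030, nat_lit 0x110122, nat_lit 0, nat_lit 4, nat_lit 0x47⟩ (.node ⟨nat_lit 7, nat_lit 0x4000400020, nat_lit 0x1211111, nat_lit 1, nat_lit 4, nat_lit 0x4b⟩ (t14_327) (t14_8519)) (.node ⟨nat_lit 6, nat_lit 0x300038, nat_lit 0x211113, nat_lit 0, nat_lit 4, nat_lit 0x48⟩ (t14_4423) (t14_12615)))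 (.node ⟨nat_lit 2, nat_lit 2, nat_lit 2, nat_lit 5, nat_lit 3, nat_lit 0x42⟩ (.node ⟨nat_lit 7, nat_lit 0x40002000500060, nat_lit 0x12030, nat_lit 0, nat_lit 4, nat_lit 0x47⟩ (t14_2375) (t14_10567)) (.node ⟨nat_lit 6, nat_lit 0x1000200030, nat_lit 0x102210, nat_lit 3, nat_lit 4, nat_lit 0x48⟩ (t14_6471) (t14_14663)))) (.node ⟨nat_lit 5, nat_lit 0x1000080014, nat_lit 0x21120, nat_lit 6, nat_lit 4, nat_lit 0x48⟩ (.node ⟨nat_lit 6, nat_lit 0x200030, nat_lit 0x202121, nat_lit 3, nat_lit 4, nat_lit 0x4a⟩ (.node ⟨nat_lit 6, nat_lit 0x2000100010, nat_lit 0x101040, nat_lit 0, nat_lit 3, nat_lit 0x47⟩ (t14_1351) (t14_9543)) (.node ⟨nat_lit 7, nat_lit 0x20002000200040, nat_lit 0x1021002, nat_lit 0, nat_lit 4, nat_lit 0x49⟩ (t14_5447) (t14_13639))) (.node ⟨nat_lit 8, nat_lit 0x80004000400020, nat_lit 0x120100, nat_lit 2, nat_lit 4, nat_lit 0x4a⟩ (.node ⟨nat_lit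 7, nat_lit 0x40002000480068, nat_lit 0x121003, nat_lit 0, nat_lit 4, nat_lit 0x47⟩ (t14_3399) (t14_11591)) (.node ⟨nat_lit 6, nat_lit 0x10001000200020, nat_lit 0x101110, nat_lit 3, nat_lit 4, nat_lit 0x47⟩ (t14_7495) (.nil))))) (.node ⟨nat_lit 4, nat_lit 0x80008, nat_lit 0x321, nat_lit 5, nat_lit 4, nat_lit 0x47⟩ (.node ⟨nat_lit 4, nat_lit 8, nat_lit 0x2211, nat_lit 7, nat_lit 4, nat_lit 0x49⟩ (.node ⟨nat_lit 6, nat_lit 0x80030, nat_lit 0x111111, nat_lit 1, nat_lit 4, nat_lit 0x48⟩ (.node ⟨nat_lit 6, nat_lit 0x2000200010, nat_lit 0x21210, nat_lit 3, nat_lit 4, nat_lit 0x49⟩ (t14_839) (t14_9031)) (.node ⟨nat_lit 6, nat_lit 0x200020, nat_lit 0x122121, nat_lit 2, nat_lit 4, nat_lit 0x4b⟩ (t14_4935) (t14_13127))) (.node ⟨nat_lit 6, nat_lit 0x80030, nat_lit 0x101110, nat_lit 0, nat_lit 4, nat_lit 0x47⟩ (.node ⟨nat_lit 7, nat_lit 0x40001000480068, nat_lit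 0x1112111, nat_lit 0, nat_lit 4, nat_lit 0x48⟩ (t14_2887) (t14_11079)) (.node ⟨nat_lit 4, nat_lit 0xc000c, nat_lit 0x1122, nat_lit 0xc, nat_lit 4, nat_lit 0x47⟩ (t14_6983) (t14_15175)))) (.node ⟨nat_lit 6, nat_lit 0x30000c, nat_lit 0x102110, nat_lit 3, nat_lit 4, nat_lit 0x48⟩ (.node ⟨nat_lit 6, nat_lit 0x800280030, nat_lit 0x220112, nat_lit 1, nat_lit 4, nat_lit 0x48⟩ (.node ⟨nat_lit 0xa, nat_lit 0x4002000200010002100180, nat_lit 0x100000301, nat_lit 1, nat_lit 4, nat_lit 0x4a⟩ (t14_1863) (t14_10055)) (.node ⟨nat_lit 6, nat_lit 0x1000200020, nat_lit 0x102210, nat_lit 0, nat_lit 4, nat_lit 0x48⟩ (t14_5959) (t14_14151))) (.node ⟨nat_lit 7, nat_lit 0x20004000640070, nat_lit 0x2111, nat_lit 0, nat_lit 4, nat_lit 0x45⟩ (.node ⟨nat_lit 7, nat_lit 0x4000600050, nat_lit 0x11004, nat_lit 0, nat_lit 4, nat_lit 0x48⟩ (t14_3911) (t14_12103)) (.node ⟨nat_lit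 7, nat_lit 0x1800500060, nat_lit 0x1201112, nat_lit 0, nat_lit 4, nat_lit 0x48⟩ (t14_8007) (.nil)))))
def t14_199 : Tr := .node ⟨nat_lit 7, nat_lit 0x1000500060, nat_lit 0x112112, nat_lit 2, nat_lit 4, nat_lit 0x49⟩ (.nil) (.nil)
def t14_8391 : Tr := .node ⟨nat_lit 7, nat_lit 0x1000400060, nat_lit 0x101003, nat_lit 2, nat_lit 3, nat_lit 0x47⟩ (.nil) (.nil)
def t14_4295 : Tr := .node ⟨nat_lit 9, nat_lit 0x10001000080012001200120, nat_lit 0x12011110, nat_lit 0, nat_lit 4, nat_lit 0x49⟩ (.nil) (.nil)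
def t14_12487 : Tr := .node ⟨nat_lit 8, nat_lit 0x800020002000c000d0, nat_lit 0x30011, nat_lit 1, nat_lit 4, nat_lit 0x47⟩ (.nil) (.nil)
def t14_2247 : Tr := .node ⟨nat_lit 7, nat_lit 0x400020002000200050, nat_lit 0x2012220, nat_lit 0, nat_lit 4, nat_lit 0x49⟩ (.nil) (.nil)
def t14_10439 : Tr := .node ⟨nat_lit 7, nat_lit 0x20004000400060, nat_lit 0x22100, nat_lit 0, nat_lit 4, nat_lit 0x48⟩ (.nil) (.nil)
def t14_6343 : Tr := .node ⟨nat_lit 7, nat_lit 0x40002000500064, nat_lit 0x102110, nat_lit 2, nat_lit 4, nat_lit 0x47⟩ (.nil) (.nil)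
def t14_14535 : Tr := .node ⟨nat_lit 8, nat_lit 0x800088008800c0, nat_lit 0x102201, nat_lit 0, nat_lit 4, nat_lit 0x49⟩ (.nil) (.nil)
def t14_1223 : Tr := .node ⟨nat_lit 7, nat_lit 0x4000500064, nat_lit 0x101312, nat_lit 1, nat_lit 4, nat_lit 0x48⟩ (.nil) (.nil)
def t14_9415 : Tr := .node ⟨nat_lit 8, nat_lit 0x8000800090006000c0, nat_lit 0x1012002, nat_lit 0, nat_lit 4, nat_lit 0x48⟩ (.nil) (.nil)
def t14_5319 : Tr := .node ⟨nat_lit 6, nat_lit 0x280030, nat_lit 0x111102, nat_lit 2, nat_lit 4, nat_lit 0x48⟩ (.nil) (.nil)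
def t14_13511 : Tr := .node ⟨nat_lit 8, nat_lit 0x200010001000c0, nat_lit 0x10000002, nat_lit 1, nat_lit 4, nat_lit 0x48⟩ (.nil) (.nil)
def t14_3271 : Tr := .node ⟨nat_lit 7, nat_lit 0x20004000400040, nat_lit 0x110211, nat_lit 0, nat_lit 4, nat_lit 0x49⟩ (.nil) (.nil)
def t14_11463 : Tr := .node ⟨nat_lit 7, nat_lit 0x40001000600060, nat_lit 0x11120, nat_lit 6, nat_lit 4, nat_lit 0x48⟩ (.nil) (.nil)
def t14_7367 : Tr := .node ⟨nat_lit 6, nat_lit 0x80030, nat_lit 0x110221, nat_lit 0, nat_lit 4, nat_lit 0x48⟩ (.nil) (.nil)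
def t14_15559 : Tr := .node ⟨nat_lit 5, nat_lit 0, nat_lit 0x21111, nat_lit 0xb, nat_lit 4, nat_lit 0x4c⟩ (.nil) (.nil)
def t14_711 : Tr := .node ⟨nat_lit 6, nat_lit 0x20001000100028, nat_lit 0x13200, nat_lit 0, nat_lit 4, nat_lit 0x47⟩ (.nil) (.nil)
def t14_8903 : Tr := .node ⟨nat_lit 6, nat_lit 0x20001000280030, nat_lit 0x12120, nat_lit 4, nat_lit 4, nat_lit 0x47⟩ (.nil) (.nil)
def t14_4807 : Tr := .node ⟨nat_lit 7, nat_lit 0x40002000480068, nat_lit 0x120202, nat_lit 0, nat_lit 4, nat_lit 0x47⟩ (.nil) (.nil)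
def t14_12999 : Tr := .node ⟨nat_lit 6, nat_lit 0x2000100024, nat_lit 0x11300, nat_lit 2, nat_lit 4, nat_lit 0x48⟩ (.nil) (.nil)
def t14_2759 : Tr := .node ⟨nat_lit 7, nat_lit 0x40002000500068, nat_lit 0x112011, nat_lit 1, nat_lit 4, nat_lit 0x47⟩ (.nil) (.nil)
def t14_10951 : Tr := .node ⟨nat_lit 8, nat_lit 0x800080004000a000a000c0, nat_lit 0x12102, nat_lit 2, nat_lit 4, nat_lit 0x47⟩ (.nil) (.nil)
def t14_6855 : Tr := .node ⟨nat_lit 7, nat_lit 0x400060, nat_lit 0x11130, nat_lit 2, nat_lit 4, nat_lit 0x4a⟩ (.nil) (.nil)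
def t14_15047 : Tr := .node ⟨nat_lit 6, nat_lit 0x800280030, nat_lit 0x111211, nat_lit 3, nat_lit 4, nat_lit 0x48⟩ (.nil) (.nil)
def t14_1735 : Tr := .node ⟨nat_lit 8, nat_lit 0x4000400080008000c4, nat_lit 0x10120111, nat_lit 1, nat_lit 4, nat_lit 0x49⟩ (.nil) (.nil)
def t14_9927 : Tr := .node ⟨nat_lit 7, nat_lit 0x1000600060, nat_lit 0x1033, nat_lit 0, nat_lit 4, nat_lit 0x47⟩ (.nil) (.nil)
def t14_5831 : Tr := .node ⟨nat_lit 7, nat_lit 0x1000200040, nat_lit 0x1011020, nat_lit 1, nat_lit 4, nat_lit 0x49⟩ (.nil) (.nil)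
def t14_14023 : Tr := .node ⟨nat_lit 7, nat_lit 0x2000400062, nat_lit 0x1011200, nat_lit 3, nat_lit 4, nat_lit 0x49⟩ (.nil) (.nil)
def t14_3783 : Tr := .node ⟨nat_lit 8, nat_lit 0x8000400040004000a000d0, nat_lit 0x121001, nat_lit 0, nat_lit 4, nat_lit 0x47⟩ (.nil) (.nil)
def t14_11975 : Tr := .node ⟨nat_lit 7, nat_lit 0x40002000500060, nat_lit 0x113120, nat_lit 0, nat_lit 4, nat_lit 0x48⟩ (.nil) (.nil)
def t14_7879 : Tr := .node ⟨nat_lit 7, nat_lit 0x40003000500068, nat_lit 0x2012, nat_lit 0, nat_lit 4, nat_lit 0x45⟩ (.nil) (.nil)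
def t9_199 : Tr := .node ⟨nat_lit 3, nat_lit 0, nat_lit 0x322, nat_lit 7, nat_lit 4, nat_lit 0x49⟩ (.node ⟨nat_lit 6, nat_lit 0x1000280034, nat_lit 0x131121, nat_lit 1, nat_lit 4, nat_lit 0x48⟩ (.node ⟨nat_lit 7, nat_lit 0x40002000200020, nat_lit 0x30211, nat_lit 2, nat_lit 4, nat_lit 0x4a⟩ (.node ⟨nat_lit 6, nat_lit 0x2000080034, nat_lit 0x121103, nat_lit 0, nat_lit 4, nat_lit 0x47⟩ (.node ⟨nat_lit 5, nat_lit 0x100008001a, nat_lit 0x2122, nat_lit 5, nat_lit 4, nat_lit 0x47⟩ (t14_199) (t14_8391)) (.node ⟨nat_lit 7, nat_lit 0x40002000100060, nat_lit 0x103003, nat_lit 1, nat_lit 4, nat_lit 0x48⟩ (t14_4295) (t14_12487))) (.node ⟨nat_lit 7, nat_lit 0x1000400060, nat_lit 0x1202013, nat_lit 0, nat_lit 4, nat_lit 0x4a⟩ (.node ⟨nat_lit 7, nat_lit 0x400040002000500060, nat_lit 0x111103, nat_lit 4, nat_lit 4, nat_lit 0x48⟩ (t14_2247) (t14_10439)) (.node ⟨nat_lit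 7, nat_lit 0x40004000100060, nat_lit 0x121012, nat_lit 3, nat_lit 4, nat_lit 0x49⟩ (t14_6343) (t14_14535)))) (.node ⟨nat_lit 6, nat_lit 0x1000200034, nat_lit 0x112111, nat_lit 0, nat_lit 4, nat_lit 0x47⟩ (.node ⟨nat_lit 7, nat_lit 0x100060, nat_lit 0x2112111, nat_lit 0, nat_lit 4, nat_lit 0x4b⟩ (.node ⟨nat_lit 5, nat_lit 0x800100010, nat_lit 0x1300, nat_lit 9, nat_lit 4, nat_lit 0x48⟩ (t14_1223) (t14_9415)) (.node ⟨nat_lit 7, nat_lit 0x800500060, nat_lit 0x1102112, nat_lit 1, nat_lit 4, nat_lit 0x49⟩ (t14_5319) (t14_13511))) (.node ⟨nat_lit 6, nat_lit 0x800280030, nat_lit 0x11303, nat_lit 0, nat_lit 4, nat_lit 0x47⟩ (.node ⟨nat_lit 6, nat_lit 0x800200032, nat_lit 0x111001, nat_lit 3, nat_lit 4, nat_lit 0x47⟩ (t14_3271) (t14_11463)) (.node ⟨nat_lit 7, nat_lit 0x1000080060, nat_lit 0x1100002, nat_lit 5, nat_lit 4, nat_lit 0x49⟩ (t14_7367) (t14_15559)))))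 (.node ⟨nat_lit 5, nat_lit 0x18, nat_lit 0x11311, nat_lit 3, nat_lit 4, nat_lit 0x49⟩ (.node ⟨nat_lit 5, nat_lit 0x10, nat_lit 0x12111, nat_lit 1, nat_lit 4, nat_lit 0x48⟩ (.node ⟨nat_lit 6, nat_lit 0x280030, nat_lit 0x12202, nat_lit 0, nat_lit 4, nat_lit 0x48⟩ (.node ⟨nat_lit 7, nat_lit 0x40002000200010, nat_lit 0x1120210, nat_lit 1, nat_lit 4, nat_lit 0x4a⟩ (t14_711) (t14_8903)) (.node ⟨nat_lit 8, nat_lit 0x8000800040004000a000a0, nat_lit 0x1102021, nat_lit 1, nat_lit 4, nat_lit 0x48⟩ (t14_4807) (t14_12999))) (.node ⟨nat_lit 6, nat_lit 0x20001000100028, nat_lit 0x101000, nat_lit 0, nat_lit 4, nat_lit 0x45⟩ (.node ⟨nat_lit 8, nat_lit 0x200040008000e0, nat_lit 0x1110103, nat_lit 1, nat_lit 4, nat_lit 0x49⟩ (t14_2759) (t14_10951)) (.node ⟨nat_lit 7, nat_lit 0x40005000580068, nat_lit 0x1111221, nat_lit 1, nat_lit 4, nat_lit 0x47⟩ (t14_6855) (t14_15047))))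 (.node ⟨nat_lit 4, nat_lit 0xc000c, nat_lit 0x1121, nat_lit 9, nat_lit 4, nat_lit 0x46⟩ (.node ⟨nat_lit 5, nat_lit 0x180018, nat_lit 0x10121, nat_lit 3, nat_lit 3, nat_lit 0x45⟩ (.node ⟨nat_lit 6, nat_lit 0x2000080030, nat_lit 0x1021, nat_lit 1, nat_lit 4, nat_lit 0x46⟩ (t14_1735) (t14_9927)) (.node ⟨nat_lit 8, nat_lit 0x800080008000880090, nat_lit 0x2211010, nat_lit 2, nat_lit 4, nat_lit 0x4a⟩ (t14_5831) (t14_14023))) (.node ⟨nat_lit 7, nat_lit 0x40002000100060, nat_lit 0x121110, nat_lit 0, nat_lit 4, nat_lit 0x48⟩ (.node ⟨nat_lit 6, nat_lit 0x2000100024, nat_lit 0x100110, nat_lit 0, nat_lit 4, nat_lit 0x46⟩ (t14_3783) (t14_11975)) (.node ⟨nat_lit 7, nat_lit 0x40002000500068, nat_lit 0x1110111, nat_lit 0, nat_lit 4, nat_lit 0x47⟩ (t14_7879) (.nil)))))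
def t14_455 : Tr := .node ⟨nat_lit 8, nat_lit 0x8000800040008800d0, nat_lit 0x11111011, nat_lit 1, nat_lit 4, nat_lit 0x49⟩ (.nil) (.nil)
def t14_8647 : Tr := .node ⟨nat_lit 7, nat_lit 0x40002000480064, nat_lit 0x11010, nat_lit 2, nat_lit 4, nat_lit 0x46⟩ (.nil) (.nil)
def t14_4551 : Tr := .node ⟨nat_lit 6, nat_lit 0x800200030, nat_lit 0x10021, nat_lit 4, nat_lit 4, nat_lit 0x47⟩ (.nil) (.nil)
def t14_12743 : Tr := .node ⟨nat_lit 7, nat_lit 0x40001000100060, nat_lit 0x202200, nat_lit 0, nat_lit 4, nat_lit 0x48⟩ (.nil) (.nil)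
def t14_2503 : Tr := .node ⟨nat_lit 7, nat_lit 0x20004000600064, nat_lit 0x21210, nat_lit 1, nat_lit 4, nat_lit 0x47⟩ (.nil) (.nil)
def t14_10695 : Tr := .node ⟨nat_lit 6, nat_lit 0x2000240018, nat_lit 0x10100, nat_lit 1, nat_lit 4, nat_lit 0x45⟩ (.nil) (.nil)
def t14_6599 : Tr := .node ⟨nat_lit 5, nat_lit 0x800100018, nat_lit 0x1320, nat_lit 5, nat_lit 4, nat_lit 0x47⟩ (.nil) (.nil)
def t14_14791 : Tr := .node ⟨nat_lit 8, nat_lit 0x200020004000a000c0, nat_lit 0x10011022, nat_lit 1, nat_lit 4, nat_lit 0x48⟩ (.nil) (.nil)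
def t14_1479 : Tr := .node ⟨nat_lit 6, nat_lit 0x10002000200034, nat_lit 0x103110, nat_lit 3, nat_lit 4, nat_lit 0x47⟩ (.nil) (.nil)
def t14_9671 : Tr := .node ⟨nat_lit 9, nat_lit 0x4001000100008001100180, nat_lit 0x10002, nat_lit 1, nat_lit 4, nat_lit 0x48⟩ (.nil) (.nil)
def t14_5575 : Tr := .node ⟨nat_lit 9, nat_lit 0x1000080008000880110, nat_lit 0x101102020, nat_lit 0, nat_lit 4, nat_lit 0x4a⟩ (.nil) (.nil)
def t14_13767 : Tr := .node ⟨nat_lit 7, nat_lit 0x40002000100068, nat_lit 0x13000, nat_lit 1, nat_lit 4, nat_lit 0x47⟩ (.nil) (.nil)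
def t14_3527 : Tr := .node ⟨nat_lit 8, nat_lit 0xc00030003000a0, nat_lit 0x201, nat_lit 1, nat_lit 4, nat_lit 0x46⟩ (.nil) (.nil)
def t14_11719 : Tr := .node ⟨nat_lit 8, nat_lit 0xa000a0003000c0, nat_lit 0x1011022, nat_lit 0, nat_lit 4, nat_lit 0x47⟩ (.nil) (.nil)
def t14_7623 : Tr := .node ⟨nat_lit 7, nat_lit 0x20001000100040, nat_lit 0x2110, nat_lit 0, nat_lit 4, nat_lit 0x47⟩ (.nil) (.nil)
def t14_967 : Tr := .node ⟨nat_lit 7, nat_lit 0x1000080060, nat_lit 0x2000003, nat_lit 1, nat_lit 4, nat_lit 0x48⟩ (.nil) (.nil)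
def t14_9159 : Tr := .node ⟨nat_lit 8, nat_lit 0x4000c000c000a000d0, nat_lit 0x12220, nat_lit 0, nat_lit 4, nat_lit 0x46⟩ (.nil) (.nil)
def t14_5063 : Tr := .node ⟨nat_lit 7, nat_lit 0x4000600060, nat_lit 0x111131, nat_lit 2, nat_lit 4, nat_lit 0x49⟩ (.nil) (.nil)
def t14_13255 : Tr := .node ⟨nat_lit 8, nat_lit 0x800020002000c000d0, nat_lit 0x31001, nat_lit 0, nat_lit 4, nat_lit 0x47⟩ (.nil) (.nil)
def t14_3015 : Tr := .node ⟨nat_lit 6, nat_lit 0x1000200034, nat_lit 0x11131, nat_lit 1, nat_lit 4, nat_lit 0x47⟩ (.nil) (.nil)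
def t14_11207 : Tr := .node ⟨nat_lit 7, nat_lit 0x6000500050, nat_lit 0x21120, nat_lit 2, nat_lit 4, nat_lit 0x48⟩ (.nil) (.nil)
def t14_7111 : Tr := .node ⟨nat_lit 6, nat_lit 0x2000300030, nat_lit 0x102111, nat_lit 5, nat_lit 4, nat_lit 0x48⟩ (.nil) (.nil)
def t14_15303 : Tr := .node ⟨nat_lit 7, nat_lit 0x40002000480060, nat_lit 0x1112102, nat_lit 0, nat_lit 4, nat_lit 0x49⟩ (.nil) (.nil)
def t14_1991 : Tr := .node ⟨nat_lit 8, nat_lit 0x40004000800088008800c0, nat_lit 0x20100102, nat_lit 1, nat_lit 4, nat_lit 0x48⟩ (.nil) (.nil)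
def t14_10183 : Tr := .node ⟨nat_lit 6, nat_lit 0x2000280030, nat_lit 0x10021, nat_lit 3, nat_lit 4, nat_lit 0x46⟩ (.nil) (.nil)
def t14_6087 : Tr := .node ⟨nat_lit 9, nat_lit 0x100, nat_lit 0x111111110, nat_lit 0, nat_lit 4, nat_lit 0x4f⟩ (.nil) (.nil)
def t14_14279 : Tr := .node ⟨nat_lit 7, nat_lit 0x10001000200040, nat_lit 0x1000032, nat_lit 0, nat_lit 4, nat_lit 0x48⟩ (.nil) (.nil)
def t14_4039 : Tr := .node ⟨nat_lit 7, nat_lit 0x10001000600060, nat_lit 0x1002011, nat_lit 2, nat_lit 4, nat_lit 0x47⟩ (.nil) (.nil)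
def t14_12231 : Tr := .node ⟨nat_lit 7, nat_lit 0x40004800600030, nat_lit 0x1011130, nat_lit 0, nat_lit 4, nat_lit 0x47⟩ (.nil) (.nil)
def t14_8135 : Tr := .node ⟨nat_lit 8, nat_lit 0x800040009000a000d0, nat_lit 0x110103, nat_lit 3, nat_lit 4, nat_lit 0x47⟩ (.nil) (.nil)
def t9_455 : Tr := .node ⟨nat_lit 6, nat_lit 0x200030, nat_lit 0x13301, nat_lit 1, nat_lit 4, nat_lit 0x4a⟩ (.node ⟨nat_lit 5, nat_lit 0x100018, nat_lit 0x1132, nat_lit 0, nat_lit 3, nat_lit 0x45⟩ (.node ⟨nat_lit 5, nat_lit 0x40018, nat_lit 0x21212, nat_lit 2, nat_lit 4, nat_lit 0x48⟩ (.node ⟨nat_lit 6, nat_lit 0x300028, nat_lit 0x1212, nat_lit 1, nat_lit 4, nat_lit 0x47⟩ (.node ⟨nat_lit 5, nat_lit 0x180014, nat_lit 0x2031, nat_lit 3, nat_lit 4, nat_lit 0x46⟩ (t14_455) (t14_8647)) (.node ⟨nat_lit 7, nat_lit 0x4000500064, nat_lit 0x1201202, nat_lit 1, nat_lit 4, nat_lit 0x49⟩ (t14_4551)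 (t14_12743))) (.node ⟨nat_lit 4, nat_lit 0x40008, nat_lit 0x1012, nat_lit 4, nat_lit 4, nat_lit 0x45⟩ (.node ⟨nat_lit 8, nat_lit 0x100080004000e0, nat_lit 0x11100113, nat_lit 0, nat_lit 4, nat_lit 0x49⟩ (t14_2503) (t14_10695)) (.node ⟨nat_lit 5, nat_lit 0x100010, nat_lit 0x2131, nat_lit 5, nat_lit 4, nat_lit 0x49⟩ (t14_6599) (t14_14791)))) (.node ⟨nat_lit 6, nat_lit 0x200030, nat_lit 0x2110, nat_lit 0, nat_lit 4, nat_lit 0x47⟩ (.node ⟨nat_lit 5, nat_lit 0x1000080018, nat_lit 0x21131, nat_lit 1, nat_lit 3, nat_lit 0x46⟩ (.node ⟨nat_lit 6, nat_lit 0x2000080030, nat_lit 0x1011, nat_lit 0, nat_lit 3, nat_lit 0x45⟩ (t14_1479) (t14_9671)) (.node ⟨nat_lit 6, nat_lit 0x10001000200020, nat_lit 0x112210, nat_lit 5, nat_lit 4, nat_lit 0x49⟩ (t14_5575) (t14_13767))) (.node ⟨nat_lit 6, nat_lit 0x2000200010, nat_lit 0x111302, nat_lit 0, nat_lit 4, nat_lit 0x49⟩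 (.node ⟨nat_lit 6, nat_lit 0x2000080030, nat_lit 0x1010, nat_lit 2, nat_lit 4, nat_lit 0x46⟩ (t14_3527) (t14_11719)) (.node ⟨nat_lit 6, nat_lit 0x2000300028, nat_lit 0x100301, nat_lit 2, nat_lit 3, nat_lit 0x46⟩ (t14_7623) (.nil))))) (.node ⟨nat_lit 7, nat_lit 0x4000100060, nat_lit 0x1013111, nat_lit 2, nat_lit 4, nat_lit 0x4a⟩ (.node ⟨nat_lit 4, nat_lit 0x40008, nat_lit 0x1122, nat_lit 3, nat_lit 4, nat_lit 0x46⟩ (.node ⟨nat_lit 6, nat_lit 0x10001000200022, nat_lit 0x211021, nat_lit 0, nat_lit 4, nat_lit 0x48⟩ (.node ⟨nat_lit 6, nat_lit 0x10002000240018, nat_lit 0x223100, nat_lit 1, nat_lit 4, nat_lit 0x49⟩ (t14_967) (t14_9159)) (.node ⟨nat_lit 7, nat_lit 0x4000400060, nat_lit 0x122210, nat_lit 1, nat_lit 4, nat_lit 0x4a⟩ (t14_5063) (t14_13255))) (.node ⟨nat_lit 6, nat_lit 0x2000200010, nat_lit 0x11103, nat_lit 1, nat_lit 4, nat_lit 0x48⟩ (.node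 ⟨nat_lit 7, nat_lit 0x10006000600050, nat_lit 0x101210, nat_lit 1, nat_lit 4, nat_lit 0x46⟩ (t14_3015) (t14_11207)) (.node ⟨nat_lit 6, nat_lit 0x10002000240038, nat_lit 0x102202, nat_lit 2, nat_lit 4, nat_lit 0x46⟩ (t14_7111) (t14_15303)))) (.node ⟨nat_lit 4, nat_lit 0xc, nat_lit 0x1122, nat_lit 5, nat_lit 4, nat_lit 0x47⟩ (.node ⟨nat_lit 7, nat_lit 0x4000100060, nat_lit 0x2011211, nat_lit 1, nat_lit 4, nat_lit 0x4a⟩ (.node ⟨nat_lit 7, nat_lit 0x6000500050, nat_lit 0x12131, nat_lit 1, nat_lit 4, nat_lit 0x48⟩ (t14_1991) (t14_10183)) (.node ⟨nat_lit 8, nat_lit 0x400080006000a000c8, nat_lit 0x10002012, nat_lit 0, nat_lit 4, nat_lit 0x47⟩ (t14_6087) (t14_14279))) (.node ⟨nat_lit 7, nat_lit 0x400020, nat_lit 0x311100, nat_lit 1, nat_lit 3, nat_lit 0x4a⟩ (.node ⟨nat_lit 7, nat_lit 0x1800180060, nat_lit 0x1100001, nat_lit 0, nat_lit 4, nat_lit 0x46⟩ (t14_4039)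 (t14_12231)) (.node ⟨nat_lit 9, nat_lit 0x800100004000400180, nat_lit 0x10110102, nat_lit 1, nat_lit 4, nat_lit 0x4a⟩ (t14_8135) (.nil)))))
def t14_39 : Tr := .node ⟨nat_lit 6, nat_lit 0x30, nat_lit 0x111110, nat_lit 1, nat_lit 4, nat_lit 0x49⟩ (.nil) (.nil)
def t14_8231 : Tr := .node ⟨nat_lit 6, nat_lit 0x20001000280034, nat_lit 0x11040, nat_lit 2, nat_lit 4, nat_lit 0x46⟩ (.nil) (.nil)
def t14_4135 : Tr := .node ⟨nat_lit 7, nat_lit 0x40001000600068, nat_lit 0x1011020, nat_lit 1, nat_lit 4, nat_lit 0x47⟩ (.nil) (.nil)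
def t14_12327 : Tr := .node ⟨nat_lit 6, nat_lit 0x20001000300030, nat_lit 0x2240, nat_lit 3, nat_lit 4, nat_lit 0x47⟩ (.nil) (.nil)
def t14_2087 : Tr := .node ⟨nat_lit 7, nat_lit 0x40002000200020, nat_lit 0x1020310, nat_lit 2, nat_lit 4, nat_lit 0x4a⟩ (.nil) (.nil)
def t14_10279 : Tr := .node ⟨nat_lit 8, nat_lit 0x400020005000a000d0, nat_lit 0x1000022, nat_lit 0, nat_lit 4, nat_lit 0x46⟩ (.nil) (.nil)
def t14_6183 : Tr := .node ⟨nat_lit 6, nat_lit 0x2000100032, nat_lit 0x11120, nat_lit 2, nat_lit 4, nat_lit 0x47⟩ (.nil) (.nil)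
def t14_14375 : Tr := .node ⟨nat_lit 6, nat_lit 0x300038, nat_lit 0x11, nat_lit 0, nat_lit 4, nat_lit 0x44⟩ (.nil) (.nil)
def t14_1063 : Tr := .node ⟨nat_lit 5, nat_lit 0x10, nat_lit 0x1113, nat_lit 2, nat_lit 4, nat_lit 0x48⟩ (.nil) (.nil)
def t14_9255 : Tr := .node ⟨nat_lit 8, nat_lit 0x4000800060009000e000d0, nat_lit 0x120010, nat_lit 0, nat_lit 4, nat_lit 0x45⟩ (.nil) (.nil)
def t14_5159 : Tr := .node ⟨nat_lit 7, nat_lit 0x10004000400060, nat_lit 0x3110, nat_lit 0, nat_lit 4, nat_lit 0x47⟩ (.nil) (.nil)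
def t14_13351 : Tr := .node ⟨nat_lit 7, nat_lit 0x40004800300060, nat_lit 0x13000, nat_lit 0, nat_lit 4, nat_lit 0x47⟩ (.nil) (.nil)
def t14_3111 : Tr := .node ⟨nat_lit 8, nat_lit 0x2000400040008000c8, nat_lit 0x10001210, nat_lit 0, nat_lit 4, nat_lit 0x48⟩ (.nil) (.nil)
def t14_11303 : Tr := .node ⟨nat_lit 7, nat_lit 0x5000600060, nat_lit 0x21120, nat_lit 3, nat_lit 4, nat_lit 0x48⟩ (.nil) (.nil)
def t14_7207 : Tr := .node ⟨nat_lit 7, nat_lit 0x20006000600050, nat_lit 0x21201, nat_lit 1, nat_lit 4, nat_lit 0x47⟩ (.nil) (.nil)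
def t14_15399 : Tr := .node ⟨nat_lit 8, nat_lit 0x400040002000200080, nat_lit 0x10010101, nat_lit 8, nat_lit 4, nat_lit 0x4a⟩ (.nil) (.nil)
def t14_551 : Tr := .node ⟨nat_lit 6, nat_lit 0x2000100030, nat_lit 0x2220, nat_lit 3, nat_lit 3, nat_lit 0x46⟩ (.nil) (.nil)
def t14_8743 : Tr := .node ⟨nat_lit 7, nat_lit 0x400020002000500050, nat_lit 0x10011, nat_lit 2, nat_lit 4, nat_lit 0x46⟩ (.nil) (.nil)
def t14_4647 : Tr := .node ⟨nat_lit 7, nat_lit 0x1000100060, nat_lit 0x1110102, nat_lit 0, nat_lit 4, nat_lit 0x49⟩ (.nil) (.nil)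
def t14_12839 : Tr := .node ⟨nat_lit 8, nat_lit 0x80002000c000a0, nat_lit 0x12020, nat_lit 0, nat_lit 4, nat_lit 0x48⟩ (.nil) (.nil)
def t14_2599 : Tr := .node ⟨nat_lit 8, nat_lit 0x800080002000400090, nat_lit 0x1121001, nat_lit 0, nat_lit 4, nat_lit 0x49⟩ (.nil) (.nil)
def t14_10791 : Tr := .node ⟨nat_lit 8, nat_lit 0x4000400040008000840060, nat_lit 0x10120001, nat_lit 6, nat_lit 4, nat_lit 0x49⟩ (.nil) (.nil)
def t14_6695 : Tr := .node ⟨nat_lit 9, nat_lit 0x1000100008000800110, nat_lit 0x1100100, nat_lit 3, nat_lit 4, nat_lit 0x4a⟩ (.nil) (.nil)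
def t14_14887 : Tr := .node ⟨nat_lit 7, nat_lit 0x4000400040005000500060, nat_lit 0x11110, nat_lit 9, nat_lit 4, nat_lit 0x48⟩ (.nil) (.nil)
def t14_1575 : Tr := .node ⟨nat_lit 7, nat_lit 0x40001000100060, nat_lit 0x102110, nat_lit 0, nat_lit 4, nat_lit 0x47⟩ (.nil) (.nil)
def t14_9767 : Tr := .node ⟨nat_lit 7, nat_lit 0x1000600060, nat_lit 0x1220, nat_lit 0, nat_lit 4, nat_lit 0x47⟩ (.nil) (.nil)
def t14_5671 : Tr := .node ⟨nat_lit 7, nat_lit 0x4000500060, nat_lit 0x101202, nat_lit 5, nat_lit 4, nat_lit 0x49⟩ (.nil) (.nil)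
def t14_13863 : Tr := .node ⟨nat_lit 6, nat_lit 0x20002000100028, nat_lit 0x2020, nat_lit 5, nat_lit 4, nat_lit 0x47⟩ (.nil) (.nil)
def t14_3623 : Tr := .node ⟨nat_lit 6, nat_lit 0x280030, nat_lit 0x31110, nat_lit 0, nat_lit 4, nat_lit 0x48⟩ (.nil) (.nil)
def t14_11815 : Tr := .node ⟨nat_lit 6, nat_lit 0x30000c, nat_lit 0x101013, nat_lit 2, nat_lit 4, nat_lit 0x47⟩ (.nil) (.nil)
def t14_7719 : Tr := .node ⟨nat_lit 6, nat_lit 0x800200032, nat_lit 0x100002, nat_lit 4, nat_lit 4, nat_lit 0x46⟩ (.nil) (.nil)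
def t9_39 : Tr := .node ⟨nat_lit 5, nat_lit 0x10, nat_lit 0x32111, nat_lit 5, nat_lit 4, nat_lit 0x4b⟩ (.node ⟨nat_lit 6, nat_lit 0x2000080034, nat_lit 0x321102, nat_lit 1, nat_lit 4, nat_lit 0x49⟩ (.node ⟨nat_lit 7, nat_lit 0x4000600060, nat_lit 0x41120, nat_lit 0, nat_lit 4, nat_lit 0x49⟩ (.node ⟨nat_lit 5, nat_lit 0x10, nat_lit 0x21110, nat_lit 0, nat_lit 4, nat_lit 0x48⟩ (.node ⟨nat_lit 5, nat_lit 0x40018, nat_lit 0x20204, nat_lit 0, nat_lit 4, nat_lit 0x47⟩ (t14_39) (t14_8231)) (.node ⟨nat_lit 6, nat_lit 0x280030, nat_lit 0x11100, nat_lit 2, nat_lit 4, nat_lit 0x47⟩ (t14_4135) (t14_12327))) (.node ⟨nat_lit 6, nat_lit 0x80030, nat_lit 0x220102, nat_lit 4, nat_lit 4, nat_lit 0x4a⟩ (.node ⟨nat_lit 6, nat_lit 0x1000280030, nat_lit 0x12042, nat_lit 0, nat_lit 4, nat_lit 0x47⟩ (t14_2087) (t14_10279)) (.node ⟨nat_lit 7, nat_lit 0x10006000600060, nat_lit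 0x10210, nat_lit 0, nat_lit 4, nat_lit 0x46⟩ (t14_6183) (t14_14375)))) (.node ⟨nat_lit 5, nat_lit 0x800080010, nat_lit 0x20312, nat_lit 3, nat_lit 4, nat_lit 0x48⟩ (.node ⟨nat_lit 6, nat_lit 0x280030, nat_lit 0x212111, nat_lit 1, nat_lit 4, nat_lit 0x49⟩ (.node ⟨nat_lit 7, nat_lit 0x600060, nat_lit 0x1111131, nat_lit 0, nat_lit 4, nat_lit 0x4a⟩ (t14_1063) (t14_9255)) (.node ⟨nat_lit 5, nat_lit 0x180018, nat_lit 0x10221, nat_lit 9, nat_lit 4, nat_lit 0x48⟩ (t14_5159) (t14_13351))) (.node ⟨nat_lit 6, nat_lit 0x200010, nat_lit 0x23100, nat_lit 2, nat_lit 4, nat_lit 0x4a⟩ (.node ⟨nat_lit 6, nat_lit 0x1000200030, nat_lit 0x111003, nat_lit 6, nat_lit 4, nat_lit 0x49⟩ (t14_3111) (t14_11303)) (.node ⟨nat_lit 8, nat_lit 0x800080002000c000d0, nat_lit 0x1020022, nat_lit 0, nat_lit 4, nat_lit 0x48⟩ (t14_7207) (t14_15399))))) (.node ⟨nat_lit 5, nat_lit 0, nat_lit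 0x32211, nat_lit 5, nat_lit 4, nat_lit 0x4c⟩ (.node ⟨nat_lit 6, nat_lit 0x100020, nat_lit 0x112211, nat_lit 1, nat_lit 4, nat_lit 0x4a⟩ (.node ⟨nat_lit 6, nat_lit 0x300028, nat_lit 0x1210, nat_lit 0, nat_lit 4, nat_lit 0x46⟩ (.node ⟨nat_lit 7, nat_lit 0x400040004800580070, nat_lit 0x200121, nat_lit 1, nat_lit 4, nat_lit 0x45⟩ (t14_551) (t14_8743)) (.node ⟨nat_lit 8, nat_lit 0x2000400080008000c4, nat_lit 0x11000122, nat_lit 1, nat_lit 4, nat_lit 0x49⟩ (t14_4647) (t14_12839))) (.node ⟨nat_lit 5, nat_lit 0x180014, nat_lit 0x10112, nat_lit 4, nat_lit 4, nat_lit 0x46⟩ (.node ⟨nat_lit 5, nat_lit 0x1000100008, nat_lit 0x12401, nat_lit 0, nat_lit 3, nat_lit 0x47⟩ (t14_2599) (t14_10791)) (.node ⟨nat_lit 7, nat_lit 0x500060, nat_lit 0x12120, nat_lit 1, nat_lit 4, nat_lit 0x49⟩ (t14_6695) (t14_14887)))) (.node ⟨nat_lit 6, nat_lit 0x2000080010, nat_lit 0x112011,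 nat_lit 3, nat_lit 4, nat_lit 0x49⟩ (.node ⟨nat_lit 5, nat_lit 0x1000080018, nat_lit 0x2010, nat_lit 1, nat_lit 3, nat_lit 0x45⟩ (.node ⟨nat_lit 5, nat_lit 0x10001c, nat_lit 0x1123, nat_lit 3, nat_lit 4, nat_lit 0x46⟩ (t14_1575) (t14_9767)) (.node ⟨nat_lit 7, nat_lit 0x10001000600060, nat_lit 0x1012121, nat_lit 1, nat_lit 4, nat_lit 0x48⟩ (t14_5671) (t14_13863))) (.node ⟨nat_lit 5, nat_lit 0x10, nat_lit 0x2001, nat_lit 0, nat_lit 4, nat_lit 0x46⟩ (.node ⟨nat_lit 7, nat_lit 0x4000600018, nat_lit 0x110000, nat_lit 1, nat_lit 4, nat_lit 0x47⟩ (t14_3623) (t14_11815)) (.node ⟨nat_lit 8, nat_lit 0x80008000400048009000a0, nat_lit 0x11112000, nat_lit 0, nat_lit 4, nat_lit 0x48⟩ (t14_7719) (.nil)))))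
def t14_295 : Tr := .node ⟨nat_lit 6, nat_lit 0x300030, nat_lit 0x103111, nat_lit 0, nat_lit 4, nat_lit 0x48⟩ (.nil) (.nil)
def t14_8487 : Tr := .node ⟨nat_lit 8, nat_lit 0x8000400020009000c0, nat_lit 0x120031, nat_lit 0, nat_lit 4, nat_lit 0x48⟩ (.nil) (.nil)
def t14_4391 : Tr := .node ⟨nat_lit 0xa, nat_lit 0x100020002000200008002200140, nat_lit 0x110110100, nat_lit 1, nat_lit 4, nat_lit 0x4a⟩ (.nil) (.nil)
def t14_12583 : Tr := .node ⟨nat_lit 7, nat_lit 0x40001000600070, nat_lit 0x1000203, nat_lit 0, nat_lit 4, nat_lit 0x46⟩ (.nil) (.nil)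
def t14_2343 : Tr := .node ⟨nat_lit 7, nat_lit 0x40006800680068, nat_lit 0x2011210, nat_lit 1, nat_lit 4, nat_lit 0x47⟩ (.nil) (.nil)
def t14_10535 : Tr := .node ⟨nat_lit 7, nat_lit 0x20002000500060, nat_lit 0x2102, nat_lit 1, nat_lit 4, nat_lit 0x47⟩ (.nil) (.nil)
def t14_6439 : Tr := .node ⟨nat_lit 9, nat_lit 0x100008000400020, nat_lit 0x1110011, nat_lit 0, nat_lit 4, nat_lit 0x4b⟩ (.nil) (.nil)
def t14_14631 : Tr := .node ⟨nat_lit 9, nat_lit 0x10001000080012001200180, nat_lit 0x1110111, nat_lit 2, nat_lit 4, nat_lit 0x49⟩ (.nil) (.nil)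
def t14_1319 : Tr := .node ⟨nat_lit 8, nat_lit 0x80004000400020, nat_lit 0x110211, nat_lit 1, nat_lit 4, nat_lit 0x4a⟩ (.nil) (.nil)
def t14_9511 : Tr := .node ⟨nat_lit 7, nat_lit 0x200040004000480044, nat_lit 0x1001110, nat_lit 5, nat_lit 4, nat_lit 0x48⟩ (.nil) (.nil)
def t14_5415 : Tr := .node ⟨nat_lit 7, nat_lit 0x400060, nat_lit 0x111122, nat_lit 1, nat_lit 4, nat_lit 0x4a⟩ (.nil) (.nil)
def t14_13607 : Tr := .node ⟨nat_lit 8, nat_lit 0x800040005000a000a000c0, nat_lit 0x10002, nat_lit 0, nat_lit 4, nat_lit 0x45⟩ (.nil) (.nil)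
def t14_3367 : Tr := .node ⟨nat_lit 8, nat_lit 0x80008000c000a0, nat_lit 0x112021, nat_lit 0, nat_lit 4, nat_lit 0x49⟩ (.nil) (.nil)
def t14_11559 : Tr := .node ⟨nat_lit 7, nat_lit 0x40001000600060, nat_lit 0x122010, nat_lit 1, nat_lit 4, nat_lit 0x48⟩ (.nil) (.nil)
def t14_7463 : Tr := .node ⟨nat_lit 7, nat_lit 0x400040, nat_lit 0x111100, nat_lit 1, nat_lit 4, nat_lit 0x4a⟩ (.nil) (.nil)
def t14_807 : Tr := .node ⟨nat_lit 7, nat_lit 0x20002000400040, nat_lit 0x111130, nat_lit 0, nat_lit 4, nat_lit 0x49⟩ (.nil) (.nil)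
def t14_8999 : Tr := .node ⟨nat_lit 9, nat_lit 0x100010001000080014001100120, nat_lit 0x11111001, nat_lit 2, nat_lit 4, nat_lit 0x49⟩ (.nil) (.nil)
def t14_4903 : Tr := .node ⟨nat_lit 7, nat_lit 0x200040, nat_lit 0x1111100, nat_lit 7, nat_lit 4, nat_lit 0x4c⟩ (.nil) (.nil)
def t14_13095 : Tr := .node ⟨nat_lit 4, nat_lit 0xc000c, nat_lit 0x3020, nat_lit 5, nat_lit 3, nat_lit 0x45⟩ (.nil) (.nil)
def t14_2855 : Tr := .node ⟨nat_lit 6, nat_lit 0x1000280034, nat_lit 0x11020, nat_lit 3, nat_lit 4, nat_lit 0x46⟩ (.nil) (.nil)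
def t14_11047 : Tr := .node ⟨nat_lit 6, nat_lit 0x800300030, nat_lit 0x110220, nat_lit 3, nat_lit 4, nat_lit 0x47⟩ (.nil) (.nil)
def t14_6951 : Tr := .node ⟨nat_lit 9, nat_lit 0x400100002001080180, nat_lit 0x120001001, nat_lit 1, nat_lit 4, nat_lit 0x4a⟩ (.nil) (.nil)
def t14_15143 : Tr := .node ⟨nat_lit 8, nat_lit 0x40004000800088008800e0, nat_lit 0x10121101, nat_lit 0, nat_lit 4, nat_lit 0x47⟩ (.nil) (.nil)
def t14_1831 : Tr := .node ⟨nat_lit 4, nat_lit 0x80008, nat_lit 0x211, nat_lit 8, nat_lit 4, nat_lit 0x47⟩ (.nil) (.nil)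
def t14_10023 : Tr := .node ⟨nat_lit 7, nat_lit 0x4000600064, nat_lit 0x111202, nat_lit 1, nat_lit 4, nat_lit 0x48⟩ (.nil) (.nil)
def t14_5927 : Tr := .node ⟨nat_lit 6, nat_lit 0x300030, nat_lit 0x1140, nat_lit 1, nat_lit 4, nat_lit 0x47⟩ (.nil) (.nil)
def t14_14119 : Tr := .node ⟨nat_lit 7, nat_lit 0x40004000100060, nat_lit 0x1110, nat_lit 2, nat_lit 4, nat_lit 0x47⟩ (.nil) (.nil)
def t14_3879 : Tr := .node ⟨nat_lit 4, nat_lit 0x8000c, nat_lit 0x1103, nat_lit 5, nat_lit 4, nat_lit 0x46⟩ (.nil) (.nil)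
def t14_12071 : Tr := .node ⟨nat_lit 7, nat_lit 0x200040004800300068, nat_lit 0x1001000, nat_lit 1, nat_lit 4, nat_lit 0x45⟩ (.nil) (.nil)
def t14_7975 : Tr := .node ⟨nat_lit 9, nat_lit 0x8001000100004001100110, nat_lit 0x11021, nat_lit 4, nat_lit 4, nat_lit 0x49⟩ (.nil) (.nil)
def t9_295 : Tr := .node ⟨nat_lit 4, nat_lit 0xc, nat_lit 0x3022, nat_lit 3, nat_lit 4, nat_lit 0x47⟩ (.node ⟨nat_lit 6, nat_lit 0x2000080030, nat_lit 0x23220, nat_lit 0, nat_lit 4, nat_lit 0x49⟩ (.node ⟨nat_lit 7, nat_lit 0x400040, nat_lit 0x311110, nat_lit 4, nat_lit 4, nat_lit 0x4c⟩ (.node ⟨nat_lit 6, nat_lit 0x20001000280038, nat_lit 0x101022, nat_lit 4, nat_lit 4, nat_lit 0x46⟩ (.node ⟨nat_lit 7, nat_lit 0x20004000400030004c, nat_lit 0x2102102, nat_lit 0, nat_lit 4, nat_lit 0x48⟩ (t14_295) (t14_8487)) (.node ⟨nat_lit 8, nat_lit 0x8000800040002000c0, nat_lit 0x1011004,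 nat_lit 0, nat_lit 4, nat_lit 0x49⟩ (t14_4391) (t14_12583))) (.node ⟨nat_lit 7, nat_lit 0x4000440060, nat_lit 0x2011222, nat_lit 0, nat_lit 4, nat_lit 0x4a⟩ (.node ⟨nat_lit 5, nat_lit 0x100010, nat_lit 0x13133, nat_lit 1, nat_lit 3, nat_lit 0x48⟩ (t14_2343) (t14_10535)) (.node ⟨nat_lit 7, nat_lit 0x20004000600060, nat_lit 0x13210, nat_lit 1, nat_lit 4, nat_lit 0x48⟩ (t14_6439) (t14_14631)))) (.node ⟨nat_lit 7, nat_lit 0x20004000440068, nat_lit 0x1211001, nat_lit 1, nat_lit 4, nat_lit 0x48⟩ (.node ⟨nat_lit 5, nat_lit 0x40018, nat_lit 0x21222, nat_lit 4, nat_lit 4, nat_lit 0x49⟩ (.node ⟨nat_lit 6, nat_lit 0x2000200010, nat_lit 0x12003, nat_lit 1, nat_lit 3, nat_lit 0x47⟩ (t14_1319) (t14_9511)) (.node ⟨nat_lit 5, nat_lit 0x180018, nat_lit 0x11222, nat_lit 2, nat_lit 4, nat_lit 0x47⟩ (t14_5415) (t14_13607))) (.node ⟨nat_lit 7, nat_lit 0x20002000100040,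 nat_lit 0x2012001, nat_lit 1, nat_lit 4, nat_lit 0x49⟩ (.node ⟨nat_lit 6, nat_lit 0x1000100020, nat_lit 0x211302, nat_lit 1, nat_lit 4, nat_lit 0x4a⟩ (t14_3367) (t14_11559)) (.node ⟨nat_lit 7, nat_lit 0x4000100060, nat_lit 0x1111102, nat_lit 3, nat_lit 4, nat_lit 0x4a⟩ (t14_7463) (.nil))))) (.node ⟨nat_lit 6, nat_lit 0x2000200010, nat_lit 0x103210, nat_lit 0, nat_lit 4, nat_lit 0x49⟩ (.node ⟨nat_lit 4, nat_lit 0xc, nat_lit 0x1020, nat_lit 2, nat_lit 3, nat_lit 0x45⟩ (.node ⟨nat_lit 3, nat_lit 4, nat_lit 0x111, nat_lit 9, nat_lit 4, nat_lit 0x46⟩ (.node ⟨nat_lit 6, nat_lit 0x1000200030, nat_lit 0x203120, nat_lit 1, nat_lit 4, nat_lit 0x49⟩ (t14_807) (t14_8999)) (.node ⟨nat_lit 7, nat_lit 0x2000400060, nat_lit 0x1121202, nat_lit 0, nat_lit 4, nat_lit 0x4a⟩ (t14_4903) (t14_13095))) (.node ⟨nat_lit 5, nat_lit 0x100018, nat_lit 0x11112, nat_lit 2, nat_lit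 4, nat_lit 0x47⟩ (.node ⟨nat_lit 7, nat_lit 0x20002000400070, nat_lit 0x2011113, nat_lit 0, nat_lit 4, nat_lit 0x48⟩ (t14_2855) (t14_11047)) (.node ⟨nat_lit 6, nat_lit 0x1000200030, nat_lit 0x111212, nat_lit 2, nat_lit 3, nat_lit 0x47⟩ (t14_6951) (t14_15143)))) (.node ⟨nat_lit 4, nat_lit 0x8000c, nat_lit 0x1112, nat_lit 6, nat_lit 3, nat_lit 0x45⟩ (.node ⟨nat_lit 6, nat_lit 0x10002000300034, nat_lit 0x202111, nat_lit 3, nat_lit 4, nat_lit 0x47⟩ (.node ⟨nat_lit 7, nat_lit 0x40004000100060, nat_lit 0x111103, nat_lit 0, nat_lit 4, nat_lit 0x48⟩ (t14_1831) (t14_10023)) (.node ⟨nat_lit 7, nat_lit 0x40001000500060, nat_lit 0x210023, nat_lit 0, nat_lit 4, nat_lit 0x48⟩ (t14_5927) (t14_14119))) (.node ⟨nat_lit 6, nat_lit 0x10001000200022, nat_lit 0x103022, nat_lit 0, nat_lit 4, nat_lit 0x47⟩ (.node ⟨nat_lit 6, nat_lit 0x3000300030, nat_lit 0x2300, nat_lit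 2, nat_lit 3, nat_lit 0x45⟩ (t14_3879) (t14_12071)) (.node ⟨nat_lit 5, nat_lit 0x100018, nat_lit 0x10121, nat_lit 7, nat_lit 4, nat_lit 0x48⟩ (t14_7975) (.nil)))))
def t14_167 : Tr := .node ⟨nat_lit 7, nat_lit 0x4000100060, nat_lit 0x121101, nat_lit 1, nat_lit 4, nat_lit 0x49⟩ (.nil) (.nil)
def t14_8359 : Tr := .node ⟨nat_lit 8, nat_lit 0x200080008400c0, nat_lit 0x10240, nat_lit 0, nat_lit 4, nat_lit 0x49⟩ (.nil) (.nil)
def t14_4263 : Tr := .node ⟨nat_lit 7, nat_lit 0x4000400060, nat_lit 0x122110, nat_lit 2, nat_lit 4, nat_lit 0x4a⟩ (.nil) (.nil)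
def t14_12455 : Tr := .node ⟨nat_lit 6, nat_lit 0x2000300030, nat_lit 0x12400, nat_lit 0, nat_lit 3, nat_lit 0x46⟩ (.nil) (.nil)
def t14_2215 : Tr := .node ⟨nat_lit 7, nat_lit 0x10004000200044, nat_lit 0x110202, nat_lit 2, nat_lit 4, nat_lit 0x48⟩ (.nil) (.nil)
def t14_10407 : Tr := .node ⟨nat_lit 6, nat_lit 0x1800300028, nat_lit 0x110120, nat_lit 2, nat_lit 4, nat_lit 0x46⟩ (.nil) (.nil)
def t14_6311 : Tr := .node ⟨nat_lit 6, nat_lit 0x2000100010, nat_lit 0x1032, nat_lit 0, nat_lit 4, nat_lit 0x48⟩ (.nil) (.nil)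
def t14_14503 : Tr := .node ⟨nat_lit 7, nat_lit 0x20005000500060, nat_lit 0x101201, nat_lit 5, nat_lit 4, nat_lit 0x47⟩ (.nil) (.nil)
def t14_1191 : Tr := .node ⟨nat_lit 6, nat_lit 0xc0030, nat_lit 0x1111, nat_lit 0, nat_lit 4, nat_lit 0x46⟩ (.nil) (.nil)
def t14_9383 : Tr := .node ⟨nat_lit 9, nat_lit 0x10001000100008000800120, nat_lit 0x1121101, nat_lit 1, nat_lit 4, nat_lit 0x4a⟩ (.nil) (.nil)
def t14_5287 : Tr := .node ⟨nat_lit 7, nat_lit 0x800500060, nat_lit 0x1211020, nat_lit 0, nat_lit 4, nat_lit 0x49⟩ (.nil) (.nil)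
def t14_13479 : Tr := .node ⟨nat_lit 5, nat_lit 0x800100010, nat_lit 0x300, nat_lit 8, nat_lit 4, nat_lit 0x47⟩ (.nil) (.nil)
def t14_3239 : Tr := .node ⟨nat_lit 8, nat_lit 0x800088006000c0, nat_lit 0x121102, nat_lit 0, nat_lit 4, nat_lit 0x48⟩ (.nil) (.nil)
def t14_11431 : Tr := .node ⟨nat_lit 7, nat_lit 0x20004000100060, nat_lit 0x1001110, nat_lit 0, nat_lit 4, nat_lit 0x47⟩ (.nil) (.nil)
def t14_7335 : Tr := .node ⟨nat_lit 8, nat_lit 0x800040009000d000c8, nat_lit 0x11112001, nat_lit 0, nat_lit 4, nat_lit 0x48⟩ (.nil) (.nil)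
def t14_15527 : Tr := .node ⟨nat_lit 0xc, nat_lit 0x40002000100008000400800, nat_lit 0x100000000001, nat_lit 4, nat_lit 4, nat_lit 0x4d⟩ (.nil) (.nil)
def t14_679 : Tr := .node ⟨nat_lit 6, nat_lit 0x2000100024, nat_lit 0x11311, nat_lit 2, nat_lit 4, nat_lit 0x48⟩ (.nil) (.nil)
def t14_8871 : Tr := .node ⟨nat_lit 9, nat_lit 0x1000040011001100180, nat_lit 0x1111210, nat_lit 0, nat_lit 4, nat_lit 0x49⟩ (.nil) (.nil)
def t14_4775 : Tr := .node ⟨nat_lit 8, nat_lit 0x10002000c000a0, nat_lit 0x10000212, nat_lit 0, nat_lit 4, nat_lit 0x48⟩ (.nil) (.nil)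
def t14_12967 : Tr := .node ⟨nat_lit 5, nat_lit 0x800100010, nat_lit 0x300, nat_lit 5, nat_lit 4, nat_lit 0x46⟩ (.nil) (.nil)
def t14_2727 : Tr := .node ⟨nat_lit 8, nat_lit 0x2000c000c000a0, nat_lit 0x112201, nat_lit 0, nat_lit 4, nat_lit 0x48⟩ (.nil) (.nil)
def t14_10919 : Tr := .node ⟨nat_lit 6, nat_lit 0x800080030, nat_lit 0x100300, nat_lit 0, nat_lit 4, nat_lit 0x47⟩ (.nil) (.nil)
def t14_6823 : Tr := .node ⟨nat_lit 8, nat_lit 0x40008000c4, nat_lit 0x1111100, nat_lit 0, nat_lit 4, nat_lit 0x4a⟩ (.nil) (.nil)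
def t14_15015 : Tr := .node ⟨nat_lit 9, nat_lit 0x100008000800140014001a001a0, nat_lit 0x11111110, nat_lit 0, nat_lit 4, nat_lit 0x47⟩ (.nil) (.nil)
def t14_1703 : Tr := .node ⟨nat_lit 9, nat_lit 0x10001000080008001200180, nat_lit 0x1102012, nat_lit 0, nat_lit 4, nat_lit 0x49⟩ (.nil) (.nil)
def t14_9895 : Tr := .node ⟨nat_lit 7, nat_lit 0x10006000600060, nat_lit 0x11220, nat_lit 4, nat_lit 4, nat_lit 0x47⟩ (.nil) (.nil)
def t14_5799 : Tr := .node ⟨nat_lit 7, nat_lit 0x4000440060, nat_lit 0x111301, nat_lit 1, nat_lit 4, nat_lit 0x49⟩ (.nil) (.nil)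
def t14_13991 : Tr := .node ⟨nat_lit 7, nat_lit 0x20001000100040, nat_lit 0x1002200, nat_lit 2, nat_lit 4, nat_lit 0x48⟩ (.nil) (.nil)
def t14_3751 : Tr := .node ⟨nat_lit 5, nat_lit 0x140018, nat_lit 0x11200, nat_lit 3, nat_lit 3, nat_lit 0x46⟩ (.nil) (.nil)
def t14_11943 : Tr := .node ⟨nat_lit 6, nat_lit 0x2000200010, nat_lit 0x1203, nat_lit 3, nat_lit 4, nat_lit 0x48⟩ (.nil) (.nil)
def t14_7847 : Tr := .node ⟨nat_lit 7, nat_lit 0x400020002800500068, nat_lit 0x1011102, nat_lit 0, nat_lit 4, nat_lit 0x45⟩ (.nil) (.nil)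
def t9_167 : Tr := .node ⟨nat_lit 5, nat_lit 0x80010, nat_lit 0x12321, nat_lit 1, nat_lit 4, nat_lit 0x49⟩ (.node ⟨nat_lit 5, nat_lit 0x18, nat_lit 0x11412, nat_lit 0, nat_lit 4, nat_lit 0x49⟩ (.node ⟨nat_lit 3, nat_lit 6, nat_lit 0, nat_lit 4, nat_lit 3, nat_lit 0x42⟩ (.node ⟨nat_lit 5, nat_lit 0x10001c, nat_lit 0x2103, nat_lit 6, nat_lit 4, nat_lit 0x47⟩ (.node ⟨nat_lit 7, nat_lit 0x10006000600060, nat_lit 0x23211, nat_lit 0, nat_lit 4, nat_lit 0x47⟩ (t14_167) (t14_8359)) (.node ⟨nat_lit 6, nat_lit 0x2000080034, nat_lit 0x1201, nat_lit 2, nat_lit 4, nat_lit 0x46⟩ (t14_4263) (t14_12455))) (.node ⟨nat_lit 4, nat_lit 0x40008, nat_lit 0x2232, nat_lit 6, nat_lit 4, nat_lit 0x49⟩ (.node ⟨nat_lit 6, nat_lit 0x20003000380038, nat_lit 0x100320, nat_lit 3, nat_lit 4, nat_lit 0x45⟩ (t14_2215) (t14_10407)) (.node ⟨nat_lit 6, nat_lit 0x2000200030, nat_lit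 0x12202, nat_lit 6, nat_lit 4, nat_lit 0x49⟩ (t14_6311) (t14_14503)))) (.node ⟨nat_lit 4, nat_lit 0xc, nat_lit 0x2111, nat_lit 3, nat_lit 4, nat_lit 0x46⟩ (.node ⟨nat_lit 6, nat_lit 0x1800280030, nat_lit 0x112212, nat_lit 0, nat_lit 4, nat_lit 0x47⟩ (.node ⟨nat_lit 4, nat_lit 0xc, nat_lit 0x4110, nat_lit 1, nat_lit 3, nat_lit 0x47⟩ (t14_1191) (t14_9383)) (.node ⟨nat_lit 6, nat_lit 0x1000280030, nat_lit 0x111212, nat_lit 3, nat_lit 4, nat_lit 0x48⟩ (t14_5287) (t14_13479))) (.node ⟨nat_lit 5, nat_lit 0x40018, nat_lit 0x21000, nat_lit 3, nat_lit 3, nat_lit 0x46⟩ (.node ⟨nat_lit 5, nat_lit 0x800100010, nat_lit 0x11031, nat_lit 8, nat_lit 4, nat_lit 0x49⟩ (t14_3239) (t14_11431)) (.node ⟨nat_lit 7, nat_lit 0x200020004000440070, nat_lit 0x1110002, nat_lit 3, nat_lit 4, nat_lit 0x47⟩ (t14_7335) (t14_15527))))) (.node ⟨nat_lit 7, nat_lit 0x4000100060, nat_lit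 0x311012, nat_lit 0, nat_lit 4, nat_lit 0x4a⟩ (.node ⟨nat_lit 6, nat_lit 0x2000080030, nat_lit 0x121112, nat_lit 0, nat_lit 4, nat_lit 0x48⟩ (.node ⟨nat_lit 5, nat_lit 0x100008, nat_lit 0x212, nat_lit 0, nat_lit 4, nat_lit 0x46⟩ (.node ⟨nat_lit 4, nat_lit 0x8000c, nat_lit 0x2103, nat_lit 5, nat_lit 4, nat_lit 0x47⟩ (t14_679) (t14_8871)) (.node ⟨nat_lit 7, nat_lit 0x400040002000700064, nat_lit 0x121200, nat_lit 3, nat_lit 4, nat_lit 0x47⟩ (t14_4775) (t14_12967))) (.node ⟨nat_lit 4, nat_lit 0x8000c, nat_lit 0x1011, nat_lit 6, nat_lit 4, nat_lit 0x45⟩ (.node ⟨nat_lit 8, nat_lit 0x80008000800040009000e0, nat_lit 0x1011310, nat_lit 1, nat_lit 4, nat_lit 0x48⟩ (t14_2727) (t14_10919)) (.node ⟨nat_lit 8, nat_lit 0x10001000c000a0, nat_lit 0x10101022, nat_lit 2, nat_lit 4, nat_lit 0x49⟩ (t14_6823) (t14_15015)))) (.node ⟨nat_lit 6, nat_lit 0x1000200020, nat_lit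 0x111131, nat_lit 0, nat_lit 4, nat_lit 0x49⟩ (.node ⟨nat_lit 7, nat_lit 0x4000600064, nat_lit 0x1011211, nat_lit 3, nat_lit 4, nat_lit 0x49⟩ (.node ⟨nat_lit 7, nat_lit 0x20002000500068, nat_lit 0x10041, nat_lit 0, nat_lit 4, nat_lit 0x46⟩ (t14_1703) (t14_9895)) (.node ⟨nat_lit 6, nat_lit 0x300030, nat_lit 0x112220, nat_lit 0, nat_lit 4, nat_lit 0x49⟩ (t14_5799) (t14_13991))) (.node ⟨nat_lit 5, nat_lit 0x40018, nat_lit 0x22, nat_lit 0, nat_lit 4, nat_lit 0x44⟩ (.node ⟨nat_lit 6, nat_lit 0x280030, nat_lit 0x100140, nat_lit 1, nat_lit 4, nat_lit 0x47⟩ (t14_3751) (t14_11943)) (.node ⟨nat_lit 7, nat_lit 0x40001000600060, nat_lit 0x1012021, nat_lit 1, nat_lit 4, nat_lit 0x48⟩ (t14_7847) (.nil)))))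
def t14_423 : Tr := .node ⟨nat_lit 7, nat_lit 0x200020004000440060, nat_lit 0x1120111, nat_lit 1, nat_lit 4, nat_lit 0x48⟩ (.nil) (.nil)
def t14_8615 : Tr := .node ⟨nat_lit 7, nat_lit 0x200040003000480068, nat_lit 0x12100, nat_lit 1, nat_lit 4, nat_lit 0x45⟩ (.nil) (.nil)
def t14_4519 : Tr := .node ⟨nat_lit 6, nat_lit 0x2000240024, nat_lit 0x122121, nat_lit 3, nat_lit 4, nat_lit 0x49⟩ (.nil) (.nil)
def t14_12711 : Tr := .node ⟨nat_lit 5, nat_lit 0x800100018, nat_lit 0x10230, nat_lit 4, nat_lit 4, nat_lit 0x47⟩ (.nil) (.nil)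
def t14_2471 : Tr := .node ⟨nat_lit 8, nat_lit 0x6000c000c000a0, nat_lit 0x112210, nat_lit 0, nat_lit 4, nat_lit 0x47⟩ (.nil) (.nil)
def t14_10663 : Tr := .node ⟨nat_lit 4, nat_lit 0x8000c, nat_lit 0x110, nat_lit 6, nat_lit 4, nat_lit 0x45⟩ (.nil) (.nil)
def t14_6567 : Tr := .node ⟨nat_lit 7, nat_lit 0x4000400020, nat_lit 0x111001, nat_lit 1, nat_lit 4, nat_lit 0x49⟩ (.nil) (.nil)
def t14_14759 : Tr := .node ⟨nat_lit 8, nat_lit 0x2000c0003000a0, nat_lit 0x10001112, nat_lit 2, nat_lit 4, nat_lit 0x48⟩ (.nil) (.nil)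
def t14_1447 : Tr := .node ⟨nat_lit 9, nat_lit 0x80008001000100011000c00190, nat_lit 0x102101011, nat_lit 0, nat_lit 4, nat_lit 0x48⟩ (.nil) (.nil)
def t14_9639 : Tr := .node ⟨nat_lit 8, nat_lit 0x2000800080004000c0, nat_lit 0x2012, nat_lit 1, nat_lit 4, nat_lit 0x48⟩ (.nil) (.nil)
def t14_5543 : Tr := .node ⟨nat_lit 7, nat_lit 0x4000600050, nat_lit 0x1103, nat_lit 1, nat_lit 4, nat_lit 0x47⟩ (.nil) (.nil)
def t14_13735 : Tr := .node ⟨nat_lit 7, nat_lit 0x10001800600060, nat_lit 0x1020, nat_lit 0, nat_lit 4, nat_lit 0x45⟩ (.nil) (.nil)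
def t14_3495 : Tr := .node ⟨nat_lit 7, nat_lit 0x40002000500060, nat_lit 0x10012, nat_lit 0, nat_lit 3, nat_lit 0x45⟩ (.nil) (.nil)
def t14_11687 : Tr := .node ⟨nat_lit 7, nat_lit 0x400040007000700070, nat_lit 0x1011210, nat_lit 1, nat_lit 4, nat_lit 0x46⟩ (.nil) (.nil)
def t14_7591 : Tr := .node ⟨nat_lit 5, nat_lit 0x100010001c, nat_lit 0x112, nat_lit 4, nat_lit 4, nat_lit 0x45⟩ (.nil) (.nil)
def t14_935 : Tr := .node ⟨nat_lit 8, nat_lit 0x800040004000a000a000c0, nat_lit 0x10122101, nat_lit 0, nat_lit 4, nat_lit 0x48⟩ (.nil) (.nil)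
def t14_9127 : Tr := .node ⟨nat_lit 0xb, nat_lit 0x2000400040004000100041004200440, nat_lit 0x110010, nat_lit 3, nat_lit 4, nat_lit 0x4a⟩ (.nil) (.nil)
def t14_5031 : Tr := .node ⟨nat_lit 7, nat_lit 0x20006000500050, nat_lit 0x11131, nat_lit 2, nat_lit 4, nat_lit 0x47⟩ (.nil) (.nil)
def t14_13223 : Tr := .node ⟨nat_lit 7, nat_lit 0x40001000480068, nat_lit 0x112010, nat_lit 0, nat_lit 4, nat_lit 0x47⟩ (.nil) (.nil)
def t14_2983 : Tr := .node ⟨nat_lit 7, nat_lit 0x40002000500068, nat_lit 0x112021, nat_lit 0, nat_lit 4, nat_lit 0x47⟩ (.nil) (.nil)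
def t14_11175 : Tr := .node ⟨nat_lit 6, nat_lit 0x800300038, nat_lit 0x101002, nat_lit 3, nat_lit 4, nat_lit 0x46⟩ (.nil) (.nil)
def t14_7079 : Tr := .node ⟨nat_lit 7, nat_lit 0x10004000600070, nat_lit 0x111211, nat_lit 1, nat_lit 4, nat_lit 0x47⟩ (.nil) (.nil)
def t14_15271 : Tr := .node ⟨nat_lit 7, nat_lit 0x400020005000500060, nat_lit 0x1010002, nat_lit 3, nat_lit 4, nat_lit 0x47⟩ (.nil) (.nil)
def t14_1959 : Tr := .node ⟨nat_lit 5, nat_lit 0x800100018, nat_lit 0x20112, nat_lit 4, nat_lit 4, nat_lit 0x47⟩ (.nil) (.nil)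
def t14_10151 : Tr := .node ⟨nat_lit 7, nat_lit 0x4000100060, nat_lit 0x120, nat_lit 0, nat_lit 4, nat_lit 0x47⟩ (.nil) (.nil)
def t14_6055 : Tr := .node ⟨nat_lit 9, nat_lit 0x100010001080108, nat_lit 0x21110110, nat_lit 0, nat_lit 4, nat_lit 0x4b⟩ (.nil) (.nil)
def t14_14247 : Tr := .node ⟨nat_lit 8, nat_lit 0x200020004000a000c0, nat_lit 0x11110, nat_lit 0, nat_lit 4, nat_lit 0x47⟩ (.nil) (.nil)
def t14_4007 : Tr := .node ⟨nat_lit 6, nat_lit 0x10001000200032, nat_lit 0x102021, nat_lit 4, nat_lit 4, nat_lit 0x47⟩ (.nil) (.nil)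
def t14_12199 : Tr := .node ⟨nat_lit 6, nat_lit 0x1000280030, nat_lit 0x111302, nat_lit 1, nat_lit 4, nat_lit 0x48⟩ (.nil) (.nil)
def t14_8103 : Tr := .node ⟨nat_lit 8, nat_lit 0x2000800088003000c0, nat_lit 0x101300, nat_lit 1, nat_lit 4, nat_lit 0x47⟩ (.nil) (.nil)
def t9_423 : Tr := .node ⟨nat_lit 6, nat_lit 0x2000200010, nat_lit 0x213111, nat_lit 1, nat_lit 4, nat_lit 0x4a⟩ (.node ⟨nat_lit 5, nat_lit 0x100010, nat_lit 0x3122, nat_lit 3, nat_lit 4, nat_lit 0x49⟩ (.node ⟨nat_lit 5, nat_lit 0x100008, nat_lit 0x22120, nat_lit 2, nat_lit 3, nat_lit 0x48⟩ (.node ⟨nat_lit 7, nat_lit 0x5000600028, nat_lit 0x110221, nat_lit 0, nat_lit 4, nat_lit 0x47⟩ (.node ⟨nat_lit 6, nat_lit 0x800300030, nat_lit 0x102120, nat_lit 1, nat_lit 4, nat_lit 0x47⟩ (t14_423) (t14_8615)) (.node ⟨nat_lit 5, nat_lit 0x80010, nat_lit 0x22102, nat_lit 7, nat_lit 4, nat_lit 0x4a⟩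 (t14_4519) (t14_12711))) (.node ⟨nat_lit 7, nat_lit 0x500060, nat_lit 0x2101121, nat_lit 2, nat_lit 4, nat_lit 0x4a⟩ (.node ⟨nat_lit 7, nat_lit 0x4000400064, nat_lit 0x111101, nat_lit 0, nat_lit 4, nat_lit 0x48⟩ (t14_2471) (t14_10663)) (.node ⟨nat_lit 7, nat_lit 0x40004000400048, nat_lit 0x210220, nat_lit 4, nat_lit 4, nat_lit 0x4a⟩ (t14_6567) (t14_14759)))) (.node ⟨nat_lit 3, nat_lit 4, nat_lit 0x22, nat_lit 5, nat_lit 4, nat_lit 0x45⟩ (.node ⟨nat_lit 7, nat_lit 0x20002000100040, nat_lit 0x1122111, nat_lit 0, nat_lit 4, nat_lit 0x4a⟩ (.node ⟨nat_lit 7, nat_lit 0x4000200020, nat_lit 0x11010, nat_lit 0, nat_lit 4, nat_lit 0x48⟩ (t14_1447) (t14_9639)) (.node ⟨nat_lit 6, nat_lit 0x2000080030, nat_lit 0x112112, nat_lit 4, nat_lit 4, nat_lit 0x49⟩ (t14_5543) (t14_13735))) (.node ⟨nat_lit 6, nat_lit 0x2000200030, nat_lit 0x11211, nat_lit 3, nat_lit 4,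 nat_lit 0x48⟩ (.node ⟨nat_lit 7, nat_lit 0x5000180060, nat_lit 0x1001000, nat_lit 1, nat_lit 4, nat_lit 0x46⟩ (t14_3495) (t14_11687)) (.node ⟨nat_lit 6, nat_lit 0x10001000100020, nat_lit 0x101112, nat_lit 4, nat_lit 4, nat_lit 0x48⟩ (t14_7591) (.nil))))) (.node ⟨nat_lit 7, nat_lit 0x2000500060, nat_lit 0x23011, nat_lit 1, nat_lit 4, nat_lit 0x49⟩ (.node ⟨nat_lit 6, nat_lit 0x1000200034, nat_lit 0x122110, nat_lit 0, nat_lit 4, nat_lit 0x48⟩ (.node ⟨nat_lit 5, nat_lit 0x80010, nat_lit 0x11111, nat_lit 9, nat_lit 4, nat_lit 0x49⟩ (.node ⟨nat_lit 7, nat_lit 0x400040, nat_lit 0x1311110, nat_lit 1, nat_lit 4, nat_lit 0x4c⟩ (t14_935) (t14_9127)) (.node ⟨nat_lit 4, nat_lit 0x8000a, nat_lit 0x1222, nat_lit 5, nat_lit 4, nat_lit 0x47⟩ (t14_5031) (t14_13223))) (.node ⟨nat_lit 5, nat_lit 0x180018, nat_lit 0x11220, nat_lit 4, nat_lit 4, nat_lit 0x47⟩ (.node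 ⟨nat_lit 6, nat_lit 0x100020, nat_lit 0x111121, nat_lit 4, nat_lit 4, nat_lit 0x4a⟩ (t14_2983) (t14_11175)) (.node ⟨nat_lit 8, nat_lit 0x4000a000c0, nat_lit 0x10111022, nat_lit 0, nat_lit 4, nat_lit 0x4a⟩ (t14_7079) (t14_15271)))) (.node ⟨nat_lit 4, nat_lit 0x40008, nat_lit 0x1201, nat_lit 7, nat_lit 4, nat_lit 0x47⟩ (.node ⟨nat_lit 6, nat_lit 0x240038, nat_lit 0x121012, nat_lit 0, nat_lit 4, nat_lit 0x47⟩ (.node ⟨nat_lit 4, nat_lit 0x8000c, nat_lit 0x1123, nat_lit 7, nat_lit 4, nat_lit 0x47⟩ (t14_1959) (t14_10151)) (.node ⟨nat_lit 8, nat_lit 0x400020008000c400c4, nat_lit 0x20120000, nat_lit 1, nat_lit 4, nat_lit 0x48⟩ (t14_6055) (t14_14247))) (.node ⟨nat_lit 6, nat_lit 0x20002000240028, nat_lit 0x21110, nat_lit 4, nat_lit 4, nat_lit 0x47⟩ (.node ⟨nat_lit 6, nat_lit 0x1000200034, nat_lit 0x1000, nat_lit 0, nat_lit 4, nat_lit 0x44⟩ (t14_4007) (t14_12199))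 (.node ⟨nat_lit 8, nat_lit 0x8000800040004000a000a0, nat_lit 0x1102111, nat_lit 1, nat_lit 4, nat_lit 0x48⟩ (t14_8103) (.nil)))))
def t14_103 : Tr := .node ⟨nat_lit 7, nat_lit 0x20004000440030, nat_lit 0x2011101, nat_lit 1, nat_lit 4, nat_lit 0x48⟩ (.nil) (.nil)
def t14_8295 : Tr := .node ⟨nat_lit 7, nat_lit 0x200040004800300060, nat_lit 0x20000, nat_lit 0, nat_lit 4, nat_lit 0x45⟩ (.nil) (.nil)
def t14_4199 : Tr := .node ⟨nat_lit 9, nat_lit 0x800080008001000100010800c0, nat_lit 0x101201110, nat_lit 0, nat_lit 4, nat_lit 0x49⟩ (.nil) (.nil)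
def t14_12391 : Tr := .node ⟨nat_lit 8, nat_lit 0x400040008000d000e0, nat_lit 0x110103, nat_lit 2, nat_lit 4, nat_lit 0x47⟩ (.nil) (.nil)
def t14_2151 : Tr := .node ⟨nat_lit 6, nat_lit 0x20002000100028, nat_lit 0x12002, nat_lit 7, nat_lit 4, nat_lit 0x48⟩ (.nil) (.nil)
def t14_10343 : Tr := .node ⟨nat_lit 6, nat_lit 0x800300038, nat_lit 0x101202, nat_lit 1, nat_lit 4, nat_lit 0x46⟩ (.nil) (.nil)
def t14_6247 : Tr := .node ⟨nat_lit 3, nat_lit 0x40004, nat_lit 0x111, nat_lit 0xf, nat_lit 4, nat_lit 0x47⟩ (.nil) (.nil)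
def t14_14439 : Tr := .node ⟨nat_lit 8, nat_lit 0x80004000c000a000c8, nat_lit 0x1221, nat_lit 0, nat_lit 4, nat_lit 0x46⟩ (.nil) (.nil)
def t14_1127 : Tr := .node ⟨nat_lit 7, nat_lit 0x1000080060, nat_lit 0x1001022, nat_lit 0, nat_lit 4, nat_lit 0x48⟩ (.nil) (.nil)
def t14_9319 : Tr := .node ⟨nat_lit 8, nat_lit 0x10008000a000c0, nat_lit 0x100212, nat_lit 0, nat_lit 4, nat_lit 0x48⟩ (.nil) (.nil)
def t14_5223 : Tr := .node ⟨nat_lit 7, nat_lit 0x40004000480060, nat_lit 0x112011, nat_lit 5, nat_lit 4, nat_lit 0x49⟩ (.nil) (.nil)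
def t14_13415 : Tr := .node ⟨nat_lit 7, nat_lit 0x20003000500068, nat_lit 0x3040, nat_lit 0, nat_lit 4, nat_lit 0x46⟩ (.nil) (.nil)
def t14_3175 : Tr := .node ⟨nat_lit 6, nat_lit 0x1000280030, nat_lit 0x110021, nat_lit 0, nat_lit 4, nat_lit 0x46⟩ (.nil) (.nil)
def t14_11367 : Tr := .node ⟨nat_lit 6, nat_lit 0x800080030, nat_lit 0x110100, nat_lit 2, nat_lit 3, nat_lit 0x46⟩ (.nil) (.nil)
def t14_7271 : Tr := .node ⟨nat_lit 6, nat_lit 0x800080030, nat_lit 0x200221, nat_lit 2, nat_lit 4, nat_lit 0x48⟩ (.nil) (.nil)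
def t14_15463 : Tr := .node ⟨nat_lit 7, nat_lit 0x4000200020, nat_lit 0x11010, nat_lit 0xc, nat_lit 4, nat_lit 0x4b⟩ (.nil) (.nil)
def t14_615 : Tr := .node ⟨nat_lit 7, nat_lit 0x500060, nat_lit 0x2120, nat_lit 0, nat_lit 4, nat_lit 0x48⟩ (.nil) (.nil)
def t14_8807 : Tr := .node ⟨nat_lit 5, nat_lit 0x10001000180018, nat_lit 0x1041, nat_lit 8, nat_lit 4, nat_lit 0x47⟩ (.nil) (.nil)
def t14_4711 : Tr := .node ⟨nat_lit 7, nat_lit 0x20004000100060, nat_lit 0x1010102, nat_lit 2, nat_lit 4, nat_lit 0x48⟩ (.nil) (.nil)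
def t14_12903 : Tr := .node ⟨nat_lit 9, nat_lit 0x10000800040004001200180, nat_lit 0x201000, nat_lit 1, nat_lit 4, nat_lit 0x48⟩ (.nil) (.nil)
def t14_2663 : Tr := .node ⟨nat_lit 6, nat_lit 0x800300030, nat_lit 0x1043, nat_lit 0, nat_lit 4, nat_lit 0x46⟩ (.nil) (.nil)
def t14_10855 : Tr := .node ⟨nat_lit 9, nat_lit 0x100010000800080008001400190, nat_lit 0x2011002, nat_lit 1, nat_lit 4, nat_lit 0x48⟩ (.nil) (.nil)
def t14_6759 : Tr := .node ⟨nat_lit 7, nat_lit 0x4000600018, nat_lit 0x1020110, nat_lit 1, nat_lit 4, nat_lit 0x48⟩ (.nil) (.nil)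
def t14_14951 : Tr := .node ⟨nat_lit 7, nat_lit 0x400040002000500060, nat_lit 0x11011, nat_lit 5, nat_lit 4, nat_lit 0x47⟩ (.nil) (.nil)
def t14_1639 : Tr := .node ⟨nat_lit 7, nat_lit 0x400020005000600068, nat_lit 0x21120, nat_lit 2, nat_lit 4, nat_lit 0x46⟩ (.nil) (.nil)
def t14_9831 : Tr := .node ⟨nat_lit 9, nat_lit 0x1000040002001400180, nat_lit 0x120120, nat_lit 0, nat_lit 4, nat_lit 0x49⟩ (.nil) (.nil)
def t14_5735 : Tr := .node ⟨nat_lit 7, nat_lit 0x40002000600050, nat_lit 0x1102, nat_lit 1, nat_lit 4, nat_lit 0x46⟩ (.nil) (.nil)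
def t14_13927 : Tr := .node ⟨nat_lit 8, nat_lit 0x80002000c00030, nat_lit 0x1000220, nat_lit 0, nat_lit 4, nat_lit 0x48⟩ (.nil) (.nil)
def t14_3687 : Tr := .node ⟨nat_lit 7, nat_lit 0x200020004000440030, nat_lit 0x2011002, nat_lit 0, nat_lit 4, nat_lit 0x47⟩ (.nil) (.nil)
def t14_11879 : Tr := .node ⟨nat_lit 3, nat_lit 0x40004, nat_lit 0x100, nat_lit 8, nat_lit 3, nat_lit 0x44⟩ (.nil) (.nil)
def t14_7783 : Tr := .node ⟨nat_lit 8, nat_lit 0x20008000c000c0, nat_lit 0x10032, nat_lit 1, nat_lit 4, nat_lit 0x48⟩ (.nil) (.nil)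
def t9_103 : Tr := .node ⟨nat_lit 3, nat_lit 6, nat_lit 0x221, nat_lit 3, nat_lit 3, nat_lit 0x45⟩ (.node ⟨nat_lit 5, nat_lit 0x80010, nat_lit 0x11301, nat_lit 9, nat_lit 4, nat_lit 0x4a⟩ (.node ⟨nat_lit 6, nat_lit 0x800300030, nat_lit 0x103120, nat_lit 1, nat_lit 4, nat_lit 0x48⟩ (.node ⟨nat_lit 6, nat_lit 0x280030, nat_lit 0x11211, nat_lit 3, nat_lit 4, nat_lit 0x48⟩ (.node ⟨nat_lit 7, nat_lit 0x4000100060, nat_lit 0x1121121, nat_lit 0, nat_lit 4, nat_lit 0x4a⟩ (t14_103) (t14_8295)) (.node ⟨nat_lit 6, nat_lit 0x800080030, nat_lit 0x200002, nat_lit 0, nat_lit 4, nat_lit 0x46⟩ (t14_4199) (t14_12391))) (.node ⟨nat_lit 7, nat_lit 0x200040004800300068, nat_lit 0x2111001, nat_lit 0, nat_lit 4, nat_lit 0x47⟩ (.node ⟨nat_lit 6, nat_lit 0x800200030, nat_lit 0x1020, nat_lit 0, nat_lit 3, nat_lit 0x45⟩ (t14_2151) (t14_10343)) (.node ⟨nat_lit 7, nat_lit 0x4000500064,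 nat_lit 0x102211, nat_lit 1, nat_lit 4, nat_lit 0x48⟩ (t14_6247) (t14_14439)))) (.node ⟨nat_lit 5, nat_lit 0x10, nat_lit 0x2210, nat_lit 0, nat_lit 4, nat_lit 0x48⟩ (.node ⟨nat_lit 7, nat_lit 0x400060, nat_lit 0x2111121, nat_lit 0, nat_lit 4, nat_lit 0x4b⟩ (.node ⟨nat_lit 7, nat_lit 0x200040004800300060, nat_lit 0x1131111, nat_lit 0, nat_lit 4, nat_lit 0x48⟩ (t14_1127) (t14_9319)) (.node ⟨nat_lit 5, nat_lit 0x180018, nat_lit 0x10321, nat_lit 8, nat_lit 4, nat_lit 0x48⟩ (t14_5223) (t14_13415))) (.node ⟨nat_lit 6, nat_lit 0x200010, nat_lit 0x12200, nat_lit 4, nat_lit 4, nat_lit 0x4a⟩ (.node ⟨nat_lit 6, nat_lit 0x800200032, nat_lit 0x211000, nat_lit 1, nat_lit 4, nat_lit 0x47⟩ (t14_3175) (t14_11367)) (.node ⟨nat_lit 5, nat_lit 0x100012, nat_lit 0x11112, nat_lit 6, nat_lit 4, nat_lit 0x48⟩ (t14_7271) (t14_15463))))) (.node ⟨nat_lit 5, nat_lit 0x180018,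 nat_lit 0x200, nat_lit 1, nat_lit 3, nat_lit 0x44⟩ (.node ⟨nat_lit 6, nat_lit 0x2000080034, nat_lit 0x211202, nat_lit 0, nat_lit 4, nat_lit 0x48⟩ (.node ⟨nat_lit 6, nat_lit 0x80030, nat_lit 0x100200, nat_lit 1, nat_lit 4, nat_lit 0x47⟩ (.node ⟨nat_lit 6, nat_lit 0x200030, nat_lit 0x211120, nat_lit 3, nat_lit 4, nat_lit 0x4a⟩ (t14_615) (t14_8807)) (.node ⟨nat_lit 7, nat_lit 0x40004000200020, nat_lit 0x1112220, nat_lit 0, nat_lit 4, nat_lit 0x4a⟩ (t14_4711) (t14_12903))) (.node ⟨nat_lit 4, nat_lit 0x8000c, nat_lit 0x131, nat_lit 2, nat_lit 3, nat_lit 0x44⟩ (.node ⟨nat_lit 7, nat_lit 0x800500060, nat_lit 0x1210013, nat_lit 1, nat_lit 4, nat_lit 0x49⟩ (t14_2663) (t14_10855)) (.node ⟨nat_lit 6, nat_lit 0x10001000200020, nat_lit 0x112211, nat_lit 4, nat_lit 4, nat_lit 0x49⟩ (t14_6759) (t14_14951)))) (.node ⟨nat_lit 5, nat_lit 0x100008, nat_lit 0x2121,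 nat_lit 4, nat_lit 4, nat_lit 0x48⟩ (.node ⟨nat_lit 6, nat_lit 0x80030, nat_lit 0x201220, nat_lit 0, nat_lit 4, nat_lit 0x49⟩ (.node ⟨nat_lit 4, nat_lit 0x8000a, nat_lit 0x201, nat_lit 4, nat_lit 4, nat_lit 0x44⟩ (t14_1639) (t14_9831)) (.node ⟨nat_lit 7, nat_lit 0x4000500064, nat_lit 0x201202, nat_lit 0, nat_lit 4, nat_lit 0x48⟩ (t14_5735) (t14_13927))) (.node ⟨nat_lit 5, nat_lit 0x18, nat_lit 0x10200, nat_lit 0, nat_lit 4, nat_lit 0x46⟩ (.node ⟨nat_lit 7, nat_lit 0x10002000500060, nat_lit 0x100001, nat_lit 1, nat_lit 4, nat_lit 0x46⟩ (t14_3687) (t14_11879)) (.node ⟨nat_lit 4, nat_lit 0xc000c, nat_lit 0x1121, nat_lit 0xb, nat_lit 4, nat_lit 0x47⟩ (t14_7783) (.nil)))))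
def t14_359 : Tr := .node ⟨nat_lit 7, nat_lit 0x4000100060, nat_lit 0x1012131, nat_lit 0, nat_lit 4, nat_lit 0x4a⟩ (.nil) (.nil)
def t14_8551 : Tr := .node ⟨nat_lit 8, nat_lit 0x200080008800c000c8, nat_lit 0x1102, nat_lit 1, nat_lit 4, nat_lit 0x46⟩ (.nil) (.nil)
def t14_4455 : Tr := .node ⟨nat_lit 7, nat_lit 0x400020002000500050, nat_lit 0x1112020, nat_lit 2, nat_lit 4, nat_lit 0x48⟩ (.nil) (.nil)
def t14_12647 : Tr := .node ⟨nat_lit 9, nat_lit 0x8001000100011000c001a001a0, nat_lit 0x102100010, nat_lit 1, nat_lit 4, nat_lit 0x47⟩ (.nil) (.nil)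
def t14_2407 : Tr := .node ⟨nat_lit 8, nat_lit 0x40008000c000d000d0, nat_lit 0x1201210, nat_lit 0, nat_lit 4, nat_lit 0x47⟩ (.nil) (.nil)
def t14_10599 : Tr := .node ⟨nat_lit 8, nat_lit 0x800020009000c000d0, nat_lit 0x101200, nat_lit 0, nat_lit 4, nat_lit 0x46⟩ (.nil) (.nil)
def t14_6503 : Tr := .node ⟨nat_lit 7, nat_lit 0x4000100060, nat_lit 0x1011111, nat_lit 2, nat_lit 4, nat_lit 0x49⟩ (.nil) (.nil)
def t14_14695 : Tr := .node ⟨nat_lit 9, nat_lit 0x800100010000c00110019001a0, nat_lit 0x1111011, nat_lit 0, nat_lit 4, nat_lit 0x46⟩ (.nil) (.nil)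
def t14_1383 : Tr := .node ⟨nat_lit 7, nat_lit 0x6000180018, nat_lit 0x1000110, nat_lit 1, nat_lit 4, nat_lit 0x46⟩ (.nil) (.nil)
def t14_9575 : Tr := .node ⟨nat_lit 7, nat_lit 0x40001000600060, nat_lit 0x112120, nat_lit 1, nat_lit 3, nat_lit 0x46⟩ (.nil) (.nil)
def t14_5479 : Tr := .node ⟨nat_lit 7, nat_lit 0x10004000600064, nat_lit 0x11311, nat_lit 1, nat_lit 4, nat_lit 0x47⟩ (.nil) (.nil)
def t14_13671 : Tr := .node ⟨nat_lit 6, nat_lit 0x1000200020, nat_lit 0x2200, nat_lit 4, nat_lit 4, nat_lit 0x48⟩ (.nil) (.nil)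
def t14_3431 : Tr := .node ⟨nat_lit 5, nat_lit 0x40018, nat_lit 0x11321, nat_lit 0, nat_lit 4, nat_lit 0x48⟩ (.nil) (.nil)
def t14_11623 : Tr := .node ⟨nat_lit 9, nat_lit 0x8001000120012000c001800180, nat_lit 0x2010110, nat_lit 1, nat_lit 4, nat_lit 0x47⟩ (.nil) (.nil)
def t14_7527 : Tr := .node ⟨nat_lit 6, nat_lit 0x10002000200024, nat_lit 0x220, nat_lit 9, nat_lit 4, nat_lit 0x48⟩ (.nil) (.nil)
def t14_871 : Tr := .node ⟨nat_lit 7, nat_lit 0x20005000600060, nat_lit 0x1002220, nat_lit 1, nat_lit 4, nat_lit 0x47⟩ (.nil) (.nil)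
def t14_9063 : Tr := .node ⟨nat_lit 7, nat_lit 0x5000500060, nat_lit 0x101312, nat_lit 0, nat_lit 4, nat_lit 0x47⟩ (.nil) (.nil)
def t14_4967 : Tr := .node ⟨nat_lit 7, nat_lit 0x40001000600060, nat_lit 0x113110, nat_lit 1, nat_lit 4, nat_lit 0x48⟩ (.nil) (.nil)
def t14_13159 : Tr := .node ⟨nat_lit 5, nat_lit 0x100018001c, nat_lit 0x130, nat_lit 6, nat_lit 4, nat_lit 0x45⟩ (.nil) (.nil)
def t14_2919 : Tr := .node ⟨nat_lit 8, nat_lit 0x20008000a000c0, nat_lit 0x1021201, nat_lit 0, nat_lit 4, nat_lit 0x49⟩ (.nil) (.nil)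
def t14_11111 : Tr := .node ⟨nat_lit 7, nat_lit 0x1000600060, nat_lit 0x11120, nat_lit 2, nat_lit 4, nat_lit 0x48⟩ (.nil) (.nil)
def t14_7015 : Tr := .node ⟨nat_lit 6, nat_lit 0x2000200030, nat_lit 0x101211, nat_lit 5, nat_lit 4, nat_lit 0x49⟩ (.nil) (.nil)
def t14_15207 : Tr := .node ⟨nat_lit 9, nat_lit 0x1000040011001100180, nat_lit 0x10110101, nat_lit 1, nat_lit 4, nat_lit 0x49⟩ (.nil) (.nil)
def t14_1895 : Tr := .node ⟨nat_lit 5, nat_lit 0x100018001c, nat_lit 0x20121, nat_lit 4, nat_lit 4, nat_lit 0x46⟩ (.nil) (.nil)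
def t14_10087 : Tr := .node ⟨nat_lit 6, nat_lit 0x10002000300030, nat_lit 0x2220, nat_lit 6, nat_lit 4, nat_lit 0x47⟩ (.nil) (.nil)
def t14_5991 : Tr := .node ⟨nat_lit 6, nat_lit 0x300030, nat_lit 0x212110, nat_lit 1, nat_lit 4, nat_lit 0x49⟩ (.nil) (.nil)
def t14_14183 : Tr := .node ⟨nat_lit 6, nat_lit 0x2000080034, nat_lit 0x110011, nat_lit 2, nat_lit 4, nat_lit 0x46⟩ (.nil) (.nil)
def t14_3943 : Tr := .node ⟨nat_lit 7, nat_lit 0x40001000480060, nat_lit 0x12000, nat_lit 1, nat_lit 4, nat_lit 0x47⟩ (.nil) (.nil)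
def t14_12135 : Tr := .node ⟨nat_lit 8, nat_lit 0x40002000c000a000d0, nat_lit 0x1021210, nat_lit 0, nat_lit 4, nat_lit 0x47⟩ (.nil) (.nil)
def t14_8039 : Tr := .node ⟨nat_lit 4, nat_lit 0x8000a, nat_lit 0x213, nat_lit 7, nat_lit 4, nat_lit 0x46⟩ (.nil) (.nil)
def t9_359 : Tr := .node ⟨nat_lit 5, nat_lit 0x10, nat_lit 0x13321, nat_lit 1, nat_lit 4, nat_lit 0x4b⟩ (.node ⟨nat_lit 6, nat_lit 0x200030, nat_lit 0x113211, nat_lit 1, nat_lit 4, nat_lit 0x4a⟩ (.node ⟨nat_lit 4, nat_lit 0xc, nat_lit 0x2212, nat_lit 5, nat_lit 4, nat_lit 0x48⟩ (.node ⟨nat_lit 7, nat_lit 0x200040003000480068, nat_lit 0x1122010, nat_lit 0, nat_lit 4, nat_lit 0x47⟩ (.node ⟨nat_lit 7, nat_lit 0x40002000480048, nat_lit 0x1211111, nat_lit 1, nat_lit 4, nat_lit 0x49⟩ (t14_359) (t14_8551)) (.node ⟨nat_lit 7, nat_lit 0x10004000180060, nat_lit 0x1012111, nat_lit 1, nat_lit 4, nat_lit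 0x48⟩ (t14_4455) (t14_12647))) (.node ⟨nat_lit 5, nat_lit 0x100018, nat_lit 0x21112, nat_lit 2, nat_lit 4, nat_lit 0x48⟩ (.node ⟨nat_lit 6, nat_lit 0x1000200030, nat_lit 0x11213, nat_lit 2, nat_lit 4, nat_lit 0x48⟩ (t14_2407) (t14_10599)) (.node ⟨nat_lit 6, nat_lit 0x10001000200022, nat_lit 0x12030, nat_lit 1, nat_lit 4, nat_lit 0x47⟩ (t14_6503) (t14_14695)))) (.node ⟨nat_lit 6, nat_lit 0x2000200010, nat_lit 0x21002, nat_lit 0, nat_lit 4, nat_lit 0x48⟩ (.node ⟨nat_lit 5, nat_lit 0x10, nat_lit 0x22212, nat_lit 5, nat_lit 4, nat_lit 0x4b⟩ (.node ⟨nat_lit 6, nat_lit 0x800080030, nat_lit 0x101104, nat_lit 1, nat_lit 4, nat_lit 0x47⟩ (t14_1383) (t14_9575)) (.node ⟨nat_lit 7, nat_lit 0x40001000100060, nat_lit 0x1111202, nat_lit 1, nat_lit 4, nat_lit 0x49⟩ (t14_5479) (t14_13671))) (.node ⟨nat_lit 5, nat_lit 0x100018, nat_lit 0x3112, nat_lit 4, nat_lit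 4, nat_lit 0x48⟩ (.node ⟨nat_lit 6, nat_lit 0x2000240038, nat_lit 0x21103, nat_lit 3, nat_lit 4, nat_lit 0x47⟩ (t14_3431) (t14_11623)) (.node ⟨nat_lit 8, nat_lit 0x40004000800080008800c8, nat_lit 0x10110101, nat_lit 0, nat_lit 4, nat_lit 0x47⟩ (t14_7527) (.nil))))) (.node ⟨nat_lit 4, nat_lit 0, nat_lit 0x3111, nat_lit 8, nat_lit 4, nat_lit 0x4a⟩ (.node ⟨nat_lit 4, nat_lit 8, nat_lit 0x2210, nat_lit 5, nat_lit 4, nat_lit 0x48⟩ (.node ⟨nat_lit 6, nat_lit 0x2000240018, nat_lit 0x110211, nat_lit 1, nat_lit 4, nat_lit 0x47⟩ (.node ⟨nat_lit 6, nat_lit 0x2000240018, nat_lit 0x21020, nat_lit 1, nat_lit 4, nat_lit 0x46⟩ (t14_871) (t14_9063)) (.node ⟨nat_lit 6, nat_lit 0x200030, nat_lit 0x112110, nat_lit 1, nat_lit 4, nat_lit 0x49⟩ (t14_4967) (t14_13159))) (.node ⟨nat_lit 6, nat_lit 0x800280030, nat_lit 0x111210, nat_lit 0, nat_lit 4, nat_lit 0x47⟩ (.node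 ⟨nat_lit 8, nat_lit 0x80002000400088, nat_lit 0x10112101, nat_lit 1, nat_lit 4, nat_lit 0x4a⟩ (t14_2919) (t14_11111)) (.node ⟨nat_lit 9, nat_lit 0x400100002001080180, nat_lit 0x110002002, nat_lit 2, nat_lit 4, nat_lit 0x4a⟩ (t14_7015) (t14_15207)))) (.node ⟨nat_lit 1, nat_lit 0, nat_lit 3, nat_lit 0xe, nat_lit 4, nat_lit 0x45⟩ (.node ⟨nat_lit 6, nat_lit 0x800080030, nat_lit 0x211111, nat_lit 3, nat_lit 4, nat_lit 0x49⟩ (.node ⟨nat_lit 7, nat_lit 0x4000100060, nat_lit 0x1111311, nat_lit 0, nat_lit 3, nat_lit 0x48⟩ (t14_1895) (t14_10087)) (.node ⟨nat_lit 7, nat_lit 0x40002000480060, nat_lit 0x21102, nat_lit 0, nat_lit 4, nat_lit 0x47⟩ (t14_5991) (t14_14183))) (.node ⟨nat_lit 6, nat_lit 0x100020, nat_lit 0x1020, nat_lit 0, nat_lit 4, nat_lit 0x47⟩ (.node ⟨nat_lit 6, nat_lit 0x800300030, nat_lit 0x101200, nat_lit 0, nat_lit 4, nat_lit 0x46⟩ (t14_3943)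 (t14_12135)) (.node ⟨nat_lit 7, nat_lit 0x400060, nat_lit 0x1011121, nat_lit 4, nat_lit 4, nat_lit 0x4b⟩ (t14_8039) (.nil)))))
def t14_231 : Tr := .node ⟨nat_lit 5, nat_lit 0x180018, nat_lit 0x22221, nat_lit 0, nat_lit 3, nat_lit 0x47⟩ (.nil) (.nil)
def t14_8423 : Tr := .node ⟨nat_lit 7, nat_lit 0x40001000500068, nat_lit 0x2013, nat_lit 4, nat_lit 4, nat_lit 0x47⟩ (.nil) (.nil)
def t14_4327 : Tr := .node ⟨nat_lit 8, nat_lit 0x800020004000a000d0, nat_lit 0x10110021, nat_lit 1, nat_lit 4, nat_lit 0x48⟩ (.nil) (.nil)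
def t14_12519 : Tr := .node ⟨nat_lit 7, nat_lit 0x20005000600030, nat_lit 0x1001040, nat_lit 1, nat_lit 4, nat_lit 0x47⟩ (.nil) (.nil)
def t14_2279 : Tr := .node ⟨nat_lit 8, nat_lit 0x4000800080002000c0, nat_lit 0x1112002, nat_lit 0, nat_lit 4, nat_lit 0x49⟩ (.nil) (.nil)
def t14_10471 : Tr := .node ⟨nat_lit 5, nat_lit 0x1000080014, nat_lit 0x112, nat_lit 4, nat_lit 4, nat_lit 0x45⟩ (.nil) (.nil)
def t14_6375 : Tr := .node ⟨nat_lit 4, nat_lit 0x8000c, nat_lit 2, nat_lit 6, nat_lit 4, nat_lit 0x44⟩ (.nil) (.nil)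
def t14_14567 : Tr := .node ⟨nat_lit 6, nat_lit 0x200020, nat_lit 0x211111, nat_lit 2, nat_lit 3, nat_lit 0x49⟩ (.nil) (.nil)
def t14_1255 : Tr := .node ⟨nat_lit 7, nat_lit 0x40002000500068, nat_lit 0x1001312, nat_lit 1, nat_lit 4, nat_lit 0x47⟩ (.nil) (.nil)
def t14_9447 : Tr := .node ⟨nat_lit 9, nat_lit 0x4001000100010801800190, nat_lit 0x10011020, nat_lit 0, nat_lit 4, nat_lit 0x48⟩ (.nil) (.nil)
def t14_5351 : Tr := .node ⟨nat_lit 5, nat_lit 0x40018, nat_lit 0x11010, nat_lit 3, nat_lit 4, nat_lit 0x46⟩ (.nil) (.nil)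
def t14_13543 : Tr := .node ⟨nat_lit 7, nat_lit 0x40002000580068, nat_lit 0x11000, nat_lit 0, nat_lit 4, nat_lit 0x45⟩ (.nil) (.nil)
def t14_3303 : Tr := .node ⟨nat_lit 8, nat_lit 0x800080002000c000d0, nat_lit 0x1021012, nat_lit 0, nat_lit 4, nat_lit 0x48⟩ (.nil) (.nil)
def t14_11495 : Tr := .node ⟨nat_lit 6, nat_lit 0x10002000200038, nat_lit 0x10100, nat_lit 4, nat_lit 4, nat_lit 0x46⟩ (.nil) (.nil)
def t14_7399 : Tr := .node ⟨nat_lit 8, nat_lit 0x200080004000c0, nat_lit 0x11020012, nat_lit 0, nat_lit 4, nat_lit 0x4a⟩ (.nil) (.nil)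
def t14_15591 : Tr := .node ⟨nat_lit 3, nat_lit 0, nat_lit 0x111, nat_lit 0x15, nat_lit 4, nat_lit 0x4a⟩ (.nil) (.nil)
def t14_743 : Tr := .node ⟨nat_lit 5, nat_lit 0x40018, nat_lit 0x113, nat_lit 1, nat_lit 4, nat_lit 0x45⟩ (.nil) (.nil)
def t14_8935 : Tr := .node ⟨nat_lit 6, nat_lit 0x300030, nat_lit 0x1030, nat_lit 0, nat_lit 4, nat_lit 0x46⟩ (.nil) (.nil)
def t14_4839 : Tr := .node ⟨nat_lit 7, nat_lit 0x40001000100060, nat_lit 0x1112102, nat_lit 1, nat_lit 4, nat_lit 0x49⟩ (.nil) (.nil)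
def t14_13031 : Tr := .node ⟨nat_lit 7, nat_lit 0x4000100060, nat_lit 0x101030, nat_lit 0, nat_lit 4, nat_lit 0x48⟩ (.nil) (.nil)
def t14_2791 : Tr := .node ⟨nat_lit 8, nat_lit 0x8000800040009000c0, nat_lit 0x111201, nat_lit 0, nat_lit 4, nat_lit 0x48⟩ (.nil) (.nil)
def t14_10983 : Tr := .node ⟨nat_lit 7, nat_lit 0x40001000600050, nat_lit 0x110122, nat_lit 1, nat_lit 3, nat_lit 0x46⟩ (.nil) (.nil)
def t14_6887 : Tr := .node ⟨nat_lit 7, nat_lit 0x4000400044, nat_lit 0x111112, nat_lit 1, nat_lit 4, nat_lit 0x49⟩ (.nil) (.nil)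
def t14_15079 : Tr := .node ⟨nat_lit 6, nat_lit 0x800300038, nat_lit 0x210031, nat_lit 0, nat_lit 4, nat_lit 0x47⟩ (.nil) (.nil)
def t14_1767 : Tr := .node ⟨nat_lit 7, nat_lit 0x4000100060, nat_lit 0x201003, nat_lit 2, nat_lit 4, nat_lit 0x49⟩ (.nil) (.nil)
def t14_9959 : Tr := .node ⟨nat_lit 8, nat_lit 0x20002000c000c000c0, nat_lit 0x10330, nat_lit 0, nat_lit 4, nat_lit 0x47⟩ (.nil) (.nil)
def t14_5863 : Tr := .node ⟨nat_lit 7, nat_lit 0x40001000200048, nat_lit 0x110111, nat_lit 0, nat_lit 4, nat_lit 0x47⟩ (.nil) (.nil)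
def t14_14055 : Tr := .node ⟨nat_lit 7, nat_lit 0x4000640064, nat_lit 0x1011010, nat_lit 1, nat_lit 4, nat_lit 0x47⟩ (.nil) (.nil)
def t14_3815 : Tr := .node ⟨nat_lit 8, nat_lit 0x8000400040009000c0, nat_lit 0x10211102, nat_lit 0, nat_lit 4, nat_lit 0x49⟩ (.nil) (.nil)
def t14_12007 : Tr := .node ⟨nat_lit 6, nat_lit 0x2000100010, nat_lit 0x12110, nat_lit 1, nat_lit 3, nat_lit 0x47⟩ (.nil) (.nil)
def t14_7911 : Tr := .node ⟨nat_lit 9, nat_lit 0x8001000100011001080108, nat_lit 0x1011021, nat_lit 1, nat_lit 4, nat_lit 0x49⟩ (.nil) (.nil)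
def t9_231 : Tr := .node ⟨nat_lit 2, nat_lit 0, nat_lit 0x31, nat_lit 2, nat_lit 3, nat_lit 0x44⟩ (.node ⟨nat_lit 6, nat_lit 0x20001000100028, nat_lit 0x301103, nat_lit 0, nat_lit 4, nat_lit 0x48⟩ (.node ⟨nat_lit 5, nat_lit 0x1000080014, nat_lit 0x31111, nat_lit 3, nat_lit 4, nat_lit 0x48⟩ (.node ⟨nat_lit 5, nat_lit 0x40018, nat_lit 0x10124, nat_lit 0, nat_lit 4, nat_lit 0x46⟩ (.node ⟨nat_lit 7, nat_lit 0x400020002000500050, nat_lit 0x2011021, nat_lit 0, nat_lit 4, nat_lit 0x48⟩ (t14_231) (t14_8423)) (.node ⟨nat_lit 7, nat_lit 0x20006000500068, nat_lit 0x1011203, nat_lit 0, nat_lit 4, nat_lit 0x46⟩ (t14_4327) (t14_12519))) (.node ⟨nat_lit 7, nat_lit 0x40004000100020, nat_lit 0x1212012, nat_lit 0, nat_lit 4, nat_lit 0x4a⟩ (.node ⟨nat_lit 7, nat_lit 0x40001000600070, nat_lit 0x111123, nat_lit 1, nat_lit 4, nat_lit 0x47⟩ (t14_2279) (t14_10471)) (.node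 ⟨nat_lit 6, nat_lit 0x2000080034, nat_lit 0x211100, nat_lit 2, nat_lit 4, nat_lit 0x48⟩ (t14_6375) (t14_14567)))) (.node ⟨nat_lit 7, nat_lit 0x400040, nat_lit 0x211110, nat_lit 3, nat_lit 4, nat_lit 0x4b⟩ (.node ⟨nat_lit 6, nat_lit 0x30, nat_lit 0x212211, nat_lit 1, nat_lit 4, nat_lit 0x4b⟩ (.node ⟨nat_lit 6, nat_lit 0x1000200038, nat_lit 0x11003, nat_lit 5, nat_lit 4, nat_lit 0x47⟩ (t14_1255) (t14_9447)) (.node ⟨nat_lit 7, nat_lit 0x400040004000200020, nat_lit 0x122022, nat_lit 0, nat_lit 4, nat_lit 0x49⟩ (t14_5351) (t14_13543))) (.node ⟨nat_lit 4, nat_lit 8, nat_lit 0x224, nat_lit 0, nat_lit 3, nat_lit 0x46⟩ (.node ⟨nat_lit 7, nat_lit 0x1000600050, nat_lit 0x1011014, nat_lit 0, nat_lit 4, nat_lit 0x49⟩ (t14_3303) (t14_11495)) (.node ⟨nat_lit 7, nat_lit 0x1000080060, nat_lit 0x1100012, nat_lit 1, nat_lit 4, nat_lit 0x48⟩ (t14_7399) (t14_15591)))))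 (.node ⟨nat_lit 4, nat_lit 0xc, nat_lit 0x30, nat_lit 1, nat_lit 4, nat_lit 0x44⟩ (.node ⟨nat_lit 6, nat_lit 0x800080030, nat_lit 0x210002, nat_lit 1, nat_lit 4, nat_lit 0x47⟩ (.node ⟨nat_lit 6, nat_lit 0x2000100024, nat_lit 0x102202, nat_lit 1, nat_lit 4, nat_lit 0x48⟩ (.node ⟨nat_lit 7, nat_lit 0x4000500064, nat_lit 0x1202110, nat_lit 1, nat_lit 4, nat_lit 0x49⟩ (t14_743) (t14_8935)) (.node ⟨nat_lit 6, nat_lit 0x2000100030, nat_lit 0x102020, nat_lit 0, nat_lit 3, nat_lit 0x46⟩ (t14_4839) (t14_13031))) (.node ⟨nat_lit 6, nat_lit 0x1000300028, nat_lit 0x101112, nat_lit 3, nat_lit 4, nat_lit 0x47⟩ (.node ⟨nat_lit 5, nat_lit 0x80010, nat_lit 0x12230, nat_lit 4, nat_lit 3, nat_lit 0x48⟩ (t14_2791) (t14_10983)) (.node ⟨nat_lit 6, nat_lit 0x80030, nat_lit 0x110132, nat_lit 0, nat_lit 4, nat_lit 0x48⟩ (t14_6887) (t14_15079)))) (.node ⟨nat_lit 6, nat_lit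 0x800300030, nat_lit 0x111121, nat_lit 1, nat_lit 4, nat_lit 0x47⟩ (.node ⟨nat_lit 6, nat_lit 0x1000080020, nat_lit 0x111210, nat_lit 0, nat_lit 4, nat_lit 0x48⟩ (.node ⟨nat_lit 7, nat_lit 0x40002000500060, nat_lit 0x12031, nat_lit 0, nat_lit 4, nat_lit 0x47⟩ (t14_1767) (t14_9959)) (.node ⟨nat_lit 6, nat_lit 0x800280030, nat_lit 0x22202, nat_lit 1, nat_lit 4, nat_lit 0x48⟩ (t14_5863) (t14_14055))) (.node ⟨nat_lit 6, nat_lit 0x800280030, nat_lit 0x20232, nat_lit 1, nat_lit 4, nat_lit 0x47⟩ (.node ⟨nat_lit 7, nat_lit 0x2000600050, nat_lit 0x1021003, nat_lit 0, nat_lit 4, nat_lit 0x49⟩ (t14_3815) (t14_12007)) (.node ⟨nat_lit 7, nat_lit 0x20002000400062, nat_lit 0x1010013, nat_lit 1, nat_lit 4, nat_lit 0x47⟩ (t14_7911) (.nil)))))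
def t14_487 : Tr := .node ⟨nat_lit 7, nat_lit 0x20004000100068, nat_lit 0x1212011, nat_lit 0, nat_lit 4, nat_lit 0x49⟩ (.nil) (.nil)
def t14_8679 : Tr := .node ⟨nat_lit 7, nat_lit 0x10002000500060, nat_lit 0x20, nat_lit 3, nat_lit 4, nat_lit 0x46⟩ (.nil) (.nil)
def t14_4583 : Tr := .node ⟨nat_lit 8, nat_lit 0x800080004000a0009000c0, nat_lit 0x1103001, nat_lit 2, nat_lit 4, nat_lit 0x48⟩ (.nil) (.nil)
def t14_12775 : Tr := .node ⟨nat_lit 6, nat_lit 0x2000080030, nat_lit 0x11300, nat_lit 4, nat_lit 4, nat_lit 0x48⟩ (.nil) (.nil)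
def t14_2535 : Tr := .node ⟨nat_lit 8, nat_lit 0x400080008000c000c8, nat_lit 0x211020, nat_lit 1, nat_lit 4, nat_lit 0x48⟩ (.nil) (.nil)
def t14_10727 : Tr := .node ⟨nat_lit 7, nat_lit 0x40004000100060, nat_lit 0x102100, nat_lit 0, nat_lit 3, nat_lit 0x46⟩ (.nil) (.nil)
def t14_6631 : Tr := .node ⟨nat_lit 7, nat_lit 0x40001000480068, nat_lit 0x112110, nat_lit 0, nat_lit 4, nat_lit 0x47⟩ (.nil) (.nil)
def t14_14823 : Tr := .node ⟨nat_lit 9, nat_lit 0x100010001000080008001200140, nat_lit 0x1002100, nat_lit 0, nat_lit 4, nat_lit 0x48⟩ (.nil) (.nil)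
def t14_1511 : Tr := .node ⟨nat_lit 9, nat_lit 0x10001000080008000800040, nat_lit 0x1102101, nat_lit 1, nat_lit 4, nat_lit 0x4a⟩ (.nil) (.nil)
def t14_9703 : Tr := .node ⟨nat_lit 6, nat_lit 0x20002000200010, nat_lit 0x112110, nat_lit 2, nat_lit 3, nat_lit 0x47⟩ (.nil) (.nil)
def t14_5607 : Tr := .node ⟨nat_lit 8, nat_lit 0x30003000a000c0, nat_lit 0x11002021, nat_lit 1, nat_lit 4, nat_lit 0x47⟩ (.nil) (.nil)
def t14_13799 : Tr := .node ⟨nat_lit 7, nat_lit 0x400040002000500050, nat_lit 0x10200, nat_lit 4, nat_lit 4, nat_lit 0x47⟩ (.nil) (.nil)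
def t14_3559 : Tr := .node ⟨nat_lit 8, nat_lit 0x20003000a000c0, nat_lit 0x2010, nat_lit 1, nat_lit 4, nat_lit 0x47⟩ (.nil) (.nil)
def t14_11751 : Tr := .node ⟨nat_lit 3, nat_lit 6, nat_lit 0x411, nat_lit 4, nat_lit 3, nat_lit 0x46⟩ (.nil) (.nil)
def t14_7655 : Tr := .node ⟨nat_lit 5, nat_lit 0x800100012, nat_lit 2, nat_lit 7, nat_lit 4, nat_lit 0x45⟩ (.nil) (.nil)
def t14_999 : Tr := .node ⟨nat_lit 7, nat_lit 0x200040004000440048, nat_lit 0x1000102, nat_lit 3, nat_lit 4, nat_lit 0x47⟩ (.nil) (.nil)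
def t14_9191 : Tr := .node ⟨nat_lit 8, nat_lit 0x4000800090006000c000d0, nat_lit 0x120022, nat_lit 0, nat_lit 4, nat_lit 0x46⟩ (.nil) (.nil)
def t14_5095 : Tr := .node ⟨nat_lit 8, nat_lit 0x8000800020002000c0, nat_lit 0x1031101, nat_lit 0, nat_lit 4, nat_lit 0x49⟩ (.nil) (.nil)
def t14_13287 : Tr := .node ⟨nat_lit 7, nat_lit 0x4000100060, nat_lit 0x11300, nat_lit 2, nat_lit 4, nat_lit 0x49⟩ (.nil) (.nil)
def t14_3047 : Tr := .node ⟨nat_lit 7, nat_lit 0x40002000500064, nat_lit 0x102111, nat_lit 2, nat_lit 4, nat_lit 0x47⟩ (.nil) (.nil)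
def t14_11239 : Tr := .node ⟨nat_lit 6, nat_lit 0x3000280038, nat_lit 0x1140, nat_lit 2, nat_lit 4, nat_lit 0x46⟩ (.nil) (.nil)
def t14_7143 : Tr := .node ⟨nat_lit 8, nat_lit 0x8000800040008800d0, nat_lit 0x11111101, nat_lit 1, nat_lit 4, nat_lit 0x49⟩ (.nil) (.nil)
def t14_15335 : Tr := .node ⟨nat_lit 8, nat_lit 0x4000400040008000800080, nat_lit 0x210210, nat_lit 2, nat_lit 4, nat_lit 0x49⟩ (.nil) (.nil)
def t14_2023 : Tr := .node ⟨nat_lit 5, nat_lit 0x800080010, nat_lit 0x20310, nat_lit 5, nat_lit 4, nat_lit 0x48⟩ (.nil) (.nil)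
def t14_10215 : Tr := .node ⟨nat_lit 7, nat_lit 0x40002000480068, nat_lit 0x12012, nat_lit 2, nat_lit 4, nat_lit 0x47⟩ (.nil) (.nil)
def t14_6119 : Tr := .node ⟨nat_lit 2, nat_lit 2, nat_lit 0x10, nat_lit 0xd, nat_lit 4, nat_lit 0x45⟩ (.nil) (.nil)
def t14_14311 : Tr := .node ⟨nat_lit 9, nat_lit 0x1000080002001400188, nat_lit 0x10030010, nat_lit 1, nat_lit 4, nat_lit 0x49⟩ (.nil) (.nil)
def t14_4071 : Tr := .node ⟨nat_lit 7, nat_lit 0x10001000400060, nat_lit 0x111002, nat_lit 1, nat_lit 4, nat_lit 0x48⟩ (.nil) (.nil)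
def t14_12263 : Tr := .node ⟨nat_lit 5, nat_lit 0x1000180018, nat_lit 0x240, nat_lit 4, nat_lit 4, nat_lit 0x46⟩ (.nil) (.nil)
def t14_8167 : Tr := .node ⟨nat_lit 8, nat_lit 0x4000800020002000d0, nat_lit 0x20003, nat_lit 1, nat_lit 4, nat_lit 0x47⟩ (.nil) (.nil)
def t9_487 : Tr := .node ⟨nat_lit 4, nat_lit 8, nat_lit 0x1320, nat_lit 0xb, nat_lit 4, nat_lit 0x4a⟩ (.node ⟨nat_lit 5, nat_lit 0x180014, nat_lit 0x1110, nat_lit 1, nat_lit 3, nat_lit 0x44⟩ (.node ⟨nat_lit 5, nat_lit 0x40018, nat_lit 0x21122, nat_lit 0, nat_lit 4, nat_lit 0x47⟩ (.node ⟨nat_lit 7, nat_lit 0x2000400060, nat_lit 0x1021012, nat_lit 0, nat_lit 4, nat_lit 0x49⟩ (.node ⟨nat_lit 7, nat_lit 0x2000500060, nat_lit 0x2001112, nat_lit 0, nat_lit 4, nat_lit 0x48⟩ (t14_487) (t14_8679)) (.node ⟨nat_lit 4, nat_lit 0x8000c, nat_lit 0x1212, nat_lit 0xb, nat_lit 4, nat_lit 0x48⟩ (t14_4583)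 (t14_12775))) (.node ⟨nat_lit 6, nat_lit 0x800280030, nat_lit 0x111220, nat_lit 0, nat_lit 4, nat_lit 0x47⟩ (.node ⟨nat_lit 7, nat_lit 0x40002000100060, nat_lit 0x1111113, nat_lit 1, nat_lit 4, nat_lit 0x49⟩ (t14_2535) (t14_10727)) (.node ⟨nat_lit 8, nat_lit 0x80004000400040, nat_lit 0x210210, nat_lit 3, nat_lit 4, nat_lit 0x4b⟩ (t14_6631) (t14_14823)))) (.node ⟨nat_lit 5, nat_lit 0x40018, nat_lit 0x20121, nat_lit 2, nat_lit 4, nat_lit 0x47⟩ (.node ⟨nat_lit 5, nat_lit 0x18, nat_lit 0x11220, nat_lit 0, nat_lit 4, nat_lit 0x48⟩ (.node ⟨nat_lit 4, nat_lit 0x8000c, nat_lit 0x1031, nat_lit 5, nat_lit 3, nat_lit 0x45⟩ (t14_1511) (t14_9703)) (.node ⟨nat_lit 8, nat_lit 0x400040002000800082, nat_lit 0x11121000, nat_lit 3, nat_lit 4, nat_lit 0x4a⟩ (t14_5607) (t14_13799))) (.node ⟨nat_lit 7, nat_lit 0x1000100060, nat_lit 0x1102002, nat_lit 1, nat_lit 4, nat_lit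 0x49⟩ (.node ⟨nat_lit 7, nat_lit 0x20001000600050, nat_lit 0x100000, nat_lit 0, nat_lit 3, nat_lit 0x45⟩ (t14_3559) (t14_11751)) (.node ⟨nat_lit 5, nat_lit 0x800080010, nat_lit 0x11201, nat_lit 3, nat_lit 3, nat_lit 0x46⟩ (t14_7655) (.nil))))) (.node ⟨nat_lit 4, nat_lit 8, nat_lit 0x2323, nat_lit 1, nat_lit 3, nat_lit 0x48⟩ (.node ⟨nat_lit 6, nat_lit 0x200020, nat_lit 0x22211, nat_lit 0, nat_lit 4, nat_lit 0x4a⟩ (.node ⟨nat_lit 7, nat_lit 0x40, nat_lit 0x1111111, nat_lit 2, nat_lit 4, nat_lit 0x4c⟩ (.node ⟨nat_lit 5, nat_lit 0x1000080008, nat_lit 0x31111, nat_lit 1, nat_lit 3, nat_lit 0x47⟩ (t14_999) (t14_9191)) (.node ⟨nat_lit 7, nat_lit 0x200040004000300048, nat_lit 0x212201, nat_lit 0, nat_lit 4, nat_lit 0x48⟩ (t14_5095) (t14_13287))) (.node ⟨nat_lit 6, nat_lit 0x2000080030, nat_lit 0x101210, nat_lit 1, nat_lit 4, nat_lit 0x47⟩ (.node ⟨nat_lit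 7, nat_lit 0x4000440064, nat_lit 0x2111211, nat_lit 0, nat_lit 4, nat_lit 0x4a⟩ (t14_3047) (t14_11239)) (.node ⟨nat_lit 5, nat_lit 0x140018, nat_lit 0x1121, nat_lit 4, nat_lit 4, nat_lit 0x46⟩ (t14_7143) (t14_15335)))) (.node ⟨nat_lit 5, nat_lit 0x40018, nat_lit 0x10211, nat_lit 3, nat_lit 4, nat_lit 0x47⟩ (.node ⟨nat_lit 7, nat_lit 0x4000400060, nat_lit 0x211111, nat_lit 3, nat_lit 4, nat_lit 0x4a⟩ (.node ⟨nat_lit 5, nat_lit 0x100018, nat_lit 0x10131, nat_lit 0xa, nat_lit 4, nat_lit 0x49⟩ (t14_2023) (t14_10215)) (.node ⟨nat_lit 7, nat_lit 0x10002000500064, nat_lit 0x1210020, nat_lit 1, nat_lit 4, nat_lit 0x48⟩ (t14_6119) (t14_14311))) (.node ⟨nat_lit 4, nat_lit 0xe, nat_lit 0x2213, nat_lit 7, nat_lit 4, nat_lit 0x48⟩ (.node ⟨nat_lit 5, nat_lit 0x18001c, nat_lit 0x10001, nat_lit 3, nat_lit 4, nat_lit 0x44⟩ (t14_4071) (t14_12263)) (.node ⟨nat_lit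 9, nat_lit 0x100010001000080008001400120, nat_lit 0x11002110, nat_lit 2, nat_lit 4, nat_lit 0x49⟩ (t14_8167) (.nil)))))
def t14_23 : Tr := .node ⟨nat_lit 8, nat_lit 0x80008000200040, nat_lit 0x1111001, nat_lit 1, nat_lit 4, nat_lit 0x4a⟩ (.nil) (.nil)
def t14_8215 : Tr := .node ⟨nat_lit 7, nat_lit 0x400020002000500070, nat_lit 0x22013, nat_lit 0, nat_lit 4, nat_lit 0x46⟩ (.nil) (.nil)
def t14_4119 : Tr := .node ⟨nat_lit 7, nat_lit 0x800100060, nat_lit 0x2111002, nat_lit 0, nat_lit 3, nat_lit 0x48⟩ (.nil) (.nil)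
def t14_12311 : Tr := .node ⟨nat_lit 8, nat_lit 0x40002000a000d000e0, nat_lit 0x1001013, nat_lit 1, nat_lit 4, nat_lit 0x46⟩ (.nil) (.nil)
def t14_2071 : Tr := .node ⟨nat_lit 8, nat_lit 0x800040004000400020, nat_lit 0x103100, nat_lit 3, nat_lit 4, nat_lit 0x4a⟩ (.nil) (.nil)
def t14_10263 : Tr := .node ⟨nat_lit 7, nat_lit 0x400050005000600070, nat_lit 0x1000012, nat_lit 1, nat_lit 4, nat_lit 0x45⟩ (.nil) (.nil)
def t14_6167 : Tr := .node ⟨nat_lit 7, nat_lit 0x400020, nat_lit 0x11100, nat_lit 0, nat_lit 4, nat_lit 0x49⟩ (.nil) (.nil)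
def t14_14359 : Tr := .node ⟨nat_lit 7, nat_lit 0x20004000100060, nat_lit 0x11, nat_lit 1, nat_lit 4, nat_lit 0x46⟩ (.nil) (.nil)
def t14_1047 : Tr := .node ⟨nat_lit 7, nat_lit 0x1000400060, nat_lit 0x1021, nat_lit 3, nat_lit 4, nat_lit 0x48⟩ (.nil) (.nil)
def t14_9239 : Tr := .node ⟨nat_lit 7, nat_lit 0x400020005000600070, nat_lit 0x10121, nat_lit 4, nat_lit 4, nat_lit 0x46⟩ (.nil) (.nil)
def t14_5143 : Tr := .node ⟨nat_lit 7, nat_lit 0x20003000600050, nat_lit 0x1011131, nat_lit 0, nat_lit 4, nat_lit 0x47⟩ (.nil) (.nil)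
def t14_13335 : Tr := .node ⟨nat_lit 6, nat_lit 0x3000280038, nat_lit 0x203, nat_lit 2, nat_lit 4, nat_lit 0x44⟩ (.nil) (.nil)
def t14_3095 : Tr := .node ⟨nat_lit 7, nat_lit 0x40003000500068, nat_lit 0x111021, nat_lit 0, nat_lit 4, nat_lit 0x46⟩ (.nil) (.nil)
def t14_11287 : Tr := .node ⟨nat_lit 6, nat_lit 0x2000300030, nat_lit 0x2120, nat_lit 7, nat_lit 4, nat_lit 0x48⟩ (.nil) (.nil)
def t14_7191 : Tr := .node ⟨nat_lit 9, nat_lit 0x1000040004000200180, nat_lit 0x100111011, nat_lit 1, nat_lit 4, nat_lit 0x4a⟩ (.nil) (.nil)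
def t14_15383 : Tr := .node ⟨nat_lit 8, nat_lit 0x800040004000200020, nat_lit 0x1010, nat_lit 0xb, nat_lit 4, nat_lit 0x4a⟩ (.nil) (.nil)
def t14_535 : Tr := .node ⟨nat_lit 6, nat_lit 0x2000100010, nat_lit 0x2022, nat_lit 5, nat_lit 4, nat_lit 0x49⟩ (.nil) (.nil)
def t14_8727 : Tr := .node ⟨nat_lit 8, nat_lit 0x8000200020009000c0, nat_lit 0x11110, nat_lit 0, nat_lit 4, nat_lit 0x47⟩ (.nil) (.nil)
def t14_4631 : Tr := .node ⟨nat_lit 8, nat_lit 0x800020002000c0, nat_lit 0x10112101, nat_lit 0, nat_lit 4, nat_lit 0x4a⟩ (.nil) (.nil)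
def t14_12823 : Tr := .node ⟨nat_lit 6, nat_lit 0x2000100030, nat_lit 0x2100, nat_lit 3, nat_lit 4, nat_lit 0x47⟩ (.nil) (.nil)
def t14_2583 : Tr := .node ⟨nat_lit 7, nat_lit 0x20004000400068, nat_lit 0x120310, nat_lit 2, nat_lit 4, nat_lit 0x49⟩ (.nil) (.nil)
def t14_10775 : Tr := .node ⟨nat_lit 5, nat_lit 0x10001000100018, nat_lit 0x1211, nat_lit 0xd, nat_lit 4, nat_lit 0x48⟩ (.nil) (.nil)
def t14_6679 : Tr := .node ⟨nat_lit 9, nat_lit 0x10000800040, nat_lit 0x1111001, nat_lit 0, nat_lit 4, nat_lit 0x4c⟩ (.nil) (.nil)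
def t14_14871 : Tr := .node ⟨nat_lit 5, nat_lit 0x100010, nat_lit 0x12120, nat_lit 8, nat_lit 3, nat_lit 0x48⟩ (.nil) (.nil)
def t14_1559 : Tr := .node ⟨nat_lit 7, nat_lit 0x400020002000500050, nat_lit 0x1011021, nat_lit 0, nat_lit 4, nat_lit 0x47⟩ (.nil) (.nil)
def t14_9751 : Tr := .node ⟨nat_lit 8, nat_lit 0x4000a000a000c0, nat_lit 0x1011202, nat_lit 0, nat_lit 4, nat_lit 0x48⟩ (.nil) (.nil)
def t14_5655 : Tr := .node ⟨nat_lit 7, nat_lit 0x40001000600060, nat_lit 0x11120, nat_lit 2, nat_lit 4, nat_lit 0x47⟩ (.nil) (.nil)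
def t14_13847 : Tr := .node ⟨nat_lit 8, nat_lit 0x800040009000a000d0, nat_lit 0x22100, nat_lit 0, nat_lit 4, nat_lit 0x47⟩ (.nil) (.nil)
def t14_3607 : Tr := .node ⟨nat_lit 8, nat_lit 0x8000800090006000c0, nat_lit 0x1012021, nat_lit 0, nat_lit 4, nat_lit 0x48⟩ (.nil) (.nil)
def t14_11799 : Tr := .node ⟨nat_lit 6, nat_lit 0x2000240018, nat_lit 0x10103, nat_lit 2, nat_lit 4, nat_lit 0x46⟩ (.nil) (.nil)
def t14_7703 : Tr := .node ⟨nat_lit 5, nat_lit 0x800100018, nat_lit 0x112, nat_lit 4, nat_lit 4, nat_lit 0x45⟩ (.nil) (.nil)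
def t9_23 : Tr := .node ⟨nat_lit 6, nat_lit 0x80030, nat_lit 0x311211, nat_lit 0, nat_lit 4, nat_lit 0x4a⟩ (.node ⟨nat_lit 4, nat_lit 8, nat_lit 0x1313, nat_lit 2, nat_lit 3, nat_lit 0x47⟩ (.node ⟨nat_lit 2, nat_lit 0, nat_lit 0x41, nat_lit 6, nat_lit 3, nat_lit 0x46⟩ (.node ⟨nat_lit 6, nat_lit 0x100020, nat_lit 0x112101, nat_lit 0, nat_lit 4, nat_lit 0x49⟩ (.node ⟨nat_lit 7, nat_lit 0x40004000100060, nat_lit 0x22031, nat_lit 1, nat_lit 4, nat_lit 0x49⟩ (t14_23) (t14_8215)) (.node ⟨nat_lit 3, nat_lit 0x40004, nat_lit 0, nat_lit 7, nat_lit 3, nat_lit 0x43⟩ (t14_4119) (t14_12311))) (.node ⟨nat_lit 5, nat_lit 0x40018, nat_lit 0x31213, nat_lit 2, nat_lit 4, nat_lit 0x49⟩ (.node ⟨nat_lit 6, nat_lit 0x20002000100010, nat_lit 0x112231, nat_lit 1, nat_lit 4, nat_lit 0x49⟩ (t14_2071) (t14_10263)) (.node ⟨nat_lit 8, nat_lit 0x80002000c000c000d0, nat_lit 0x120102,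 nat_lit 0, nat_lit 4, nat_lit 0x47⟩ (t14_6167) (t14_14359)))) (.node ⟨nat_lit 5, nat_lit 0x800100010, nat_lit 0x2230, nat_lit 4, nat_lit 4, nat_lit 0x48⟩ (.node ⟨nat_lit 6, nat_lit 0x200030, nat_lit 0x212121, nat_lit 0, nat_lit 4, nat_lit 0x4a⟩ (.node ⟨nat_lit 5, nat_lit 0x18, nat_lit 0x11111, nat_lit 3, nat_lit 4, nat_lit 0x48⟩ (t14_1047) (t14_9239)) (.node ⟨nat_lit 6, nat_lit 0x2000080030, nat_lit 0x102102, nat_lit 3, nat_lit 3, nat_lit 0x47⟩ (t14_5143) (t14_13335))) (.node ⟨nat_lit 7, nat_lit 0x4000200010, nat_lit 0x121002, nat_lit 0, nat_lit 4, nat_lit 0x4a⟩ (.node ⟨nat_lit 6, nat_lit 0x800100020, nat_lit 0x111001, nat_lit 0, nat_lit 4, nat_lit 0x47⟩ (t14_3095) (t14_11287)) (.node ⟨nat_lit 5, nat_lit 0x1000080008, nat_lit 0x21032, nat_lit 3, nat_lit 3, nat_lit 0x47⟩ (t14_7191) (t14_15383))))) (.node ⟨nat_lit 6, nat_lit 0x200032, nat_lit 0x231110,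 nat_lit 1, nat_lit 4, nat_lit 0x4a⟩ (.node ⟨nat_lit 5, nat_lit 0x10, nat_lit 0x12211, nat_lit 1, nat_lit 4, nat_lit 0x49⟩ (.node ⟨nat_lit 6, nat_lit 0x20002000200028, nat_lit 0x21101, nat_lit 5, nat_lit 4, nat_lit 0x48⟩ (.node ⟨nat_lit 5, nat_lit 0x100008, nat_lit 0x12111, nat_lit 0xa, nat_lit 4, nat_lit 0x4a⟩ (t14_535) (t14_8727)) (.node ⟨nat_lit 6, nat_lit 0x1000280030, nat_lit 0x211022, nat_lit 1, nat_lit 4, nat_lit 0x48⟩ (t14_4631) (t14_12823))) (.node ⟨nat_lit 6, nat_lit 0x1000280030, nat_lit 0x1030, nat_lit 0, nat_lit 4, nat_lit 0x45⟩ (.node ⟨nat_lit 5, nat_lit 0x100018, nat_lit 0x12130, nat_lit 5, nat_lit 4, nat_lit 0x49⟩ (t14_2583) (t14_10775)) (.node ⟨nat_lit 8, nat_lit 0x800088008800c0, nat_lit 0x1211201, nat_lit 0, nat_lit 4, nat_lit 0x49⟩ (t14_6679) (t14_14871)))) (.node ⟨nat_lit 4, nat_lit 0x40008, nat_lit 0x2122, nat_lit 3, nat_lit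 3, nat_lit 0x46⟩ (.node ⟨nat_lit 6, nat_lit 0x2000080034, nat_lit 0x231111, nat_lit 0, nat_lit 4, nat_lit 0x49⟩ (.node ⟨nat_lit 7, nat_lit 0x40001000100060, nat_lit 0x1003201, nat_lit 0, nat_lit 4, nat_lit 0x48⟩ (t14_1559) (t14_9751)) (.node ⟨nat_lit 9, nat_lit 0x400100002000500180, nat_lit 0x101102001, nat_lit 1, nat_lit 4, nat_lit 0x4a⟩ (t14_5655) (t14_13847))) (.node ⟨nat_lit 5, nat_lit 0x40018, nat_lit 0x20003, nat_lit 2, nat_lit 4, nat_lit 0x46⟩ (.node ⟨nat_lit 6, nat_lit 0x2000080030, nat_lit 0x100000, nat_lit 1, nat_lit 3, nat_lit 0x45⟩ (t14_3607) (t14_11799)) (.node ⟨nat_lit 7, nat_lit 0x400020002800500068, nat_lit 0x1112001, nat_lit 1, nat_lit 4, nat_lit 0x47⟩ (t14_7703) (.nil)))))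
def t14_279 : Tr := .node ⟨nat_lit 8, nat_lit 0x800020009000c000a0, nat_lit 0x121121, nat_lit 0, nat_lit 4, nat_lit 0x48⟩ (.nil) (.nil)
def t14_8471 : Tr := .node ⟨nat_lit 4, nat_lit 0x40008, nat_lit 0, nat_lit 4, nat_lit 4, nat_lit 0x43⟩ (.nil) (.nil)
def t14_4375 : Tr := .node ⟨nat_lit 8, nat_lit 0x8000400020009000c0, nat_lit 0x11111002, nat_lit 0, nat_lit 4, nat_lit 0x49⟩ (.nil) (.nil)
def t14_12567 : Tr := .node ⟨nat_lit 8, nat_lit 0x800040002000c000a0, nat_lit 0x1012030, nat_lit 0, nat_lit 4, nat_lit 0x48⟩ (.nil) (.nil)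
def t14_2327 : Tr := .node ⟨nat_lit 7, nat_lit 0x200040004800680068, nat_lit 0x2030010, nat_lit 3, nat_lit 4, nat_lit 0x47⟩ (.nil) (.nil)
def t14_10519 : Tr := .node ⟨nat_lit 7, nat_lit 0x40001000600068, nat_lit 0x1000000, nat_lit 2, nat_lit 4, nat_lit 0x46⟩ (.nil) (.nil)
def t14_6423 : Tr := .node ⟨nat_lit 5, nat_lit 0x10, nat_lit 0x11111, nat_lit 6, nat_lit 3, nat_lit 0x48⟩ (.nil) (.nil)
def t14_14615 : Tr := .node ⟨nat_lit 7, nat_lit 0x400040005000500060, nat_lit 0x111111, nat_lit 6, nat_lit 4, nat_lit 0x48⟩ (.nil) (.nil)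
def t14_1303 : Tr := .node ⟨nat_lit 6, nat_lit 0x10001000200032, nat_lit 0x102012, nat_lit 2, nat_lit 4, nat_lit 0x46⟩ (.nil) (.nil)
def t14_9495 : Tr := .node ⟨nat_lit 0xc, nat_lit 0x4000800080008000200010008200840, nat_lit 0x1110010, nat_lit 0, nat_lit 4, nat_lit 0x4b⟩ (.nil) (.nil)
def t14_5399 : Tr := .node ⟨nat_lit 6, nat_lit 0x2000240030, nat_lit 0x11312, nat_lit 2, nat_lit 4, nat_lit 0x48⟩ (.nil) (.nil)
def t14_13591 : Tr := .node ⟨nat_lit 4, nat_lit 0x80004, nat_lit 0x22, nat_lit 4, nat_lit 3, nat_lit 0x44⟩ (.nil) (.nil)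
def t14_3351 : Tr := .node ⟨nat_lit 7, nat_lit 0x40004000480060, nat_lit 0x21112, nat_lit 2, nat_lit 4, nat_lit 0x48⟩ (.nil) (.nil)
def t14_11543 : Tr := .node ⟨nat_lit 5, nat_lit 0x1000180018, nat_lit 0x1310, nat_lit 7, nat_lit 4, nat_lit 0x47⟩ (.nil) (.nil)
def t14_7447 : Tr := .node ⟨nat_lit 7, nat_lit 0x600060, nat_lit 0x1011111, nat_lit 5, nat_lit 4, nat_lit 0x4a⟩ (.nil) (.nil)
def t14_791 : Tr := .node ⟨nat_lit 7, nat_lit 0x40002000200010, nat_lit 0x1010311, nat_lit 1, nat_lit 4, nat_lit 0x49⟩ (.nil) (.nil)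
def t14_8983 : Tr := .node ⟨nat_lit 7, nat_lit 0x40004000200010, nat_lit 0x1113010, nat_lit 0, nat_lit 3, nat_lit 0x48⟩ (.nil) (.nil)
def t14_4887 : Tr := .node ⟨nat_lit 8, nat_lit 0x8000400040, nat_lit 0x1211010, nat_lit 3, nat_lit 4, nat_lit 0x4c⟩ (.nil) (.nil)
def t14_13079 : Tr := .node ⟨nat_lit 7, nat_lit 0x20004000100060, nat_lit 0x31, nat_lit 2, nat_lit 4, nat_lit 0x47⟩ (.nil) (.nil)
def t14_2839 : Tr := .node ⟨nat_lit 6, nat_lit 0x300030, nat_lit 0x1120, nat_lit 3, nat_lit 4, nat_lit 0x47⟩ (.nil) (.nil)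
def t14_11031 : Tr := .node ⟨nat_lit 7, nat_lit 0x20004000600060, nat_lit 0x111220, nat_lit 0, nat_lit 4, nat_lit 0x48⟩ (.nil) (.nil)
def t14_6935 : Tr := .node ⟨nat_lit 8, nat_lit 0x200080008800c000c8, nat_lit 0x21000022, nat_lit 0, nat_lit 4, nat_lit 0x48⟩ (.nil) (.nil)
def t14_15127 : Tr := .node ⟨nat_lit 8, nat_lit 0x8000400090006000d0, nat_lit 0x12110, nat_lit 0, nat_lit 4, nat_lit 0x46⟩ (.nil) (.nil)
def t14_1815 : Tr := .node ⟨nat_lit 6, nat_lit 0x300028, nat_lit 0x112102, nat_lit 2, nat_lit 4, nat_lit 0x49⟩ (.nil) (.nil)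
def t14_10007 : Tr := .node ⟨nat_lit 7, nat_lit 0x10005000600060, nat_lit 0x12320, nat_lit 1, nat_lit 4, nat_lit 0x47⟩ (.nil) (.nil)
def t14_5911 : Tr := .node ⟨nat_lit 9, nat_lit 0x100008000800180, nat_lit 0x1110202, nat_lit 0, nat_lit 4, nat_lit 0x4b⟩ (.nil) (.nil)
def t14_14103 : Tr := .node ⟨nat_lit 7, nat_lit 0x800600050, nat_lit 0x111, nat_lit 1, nat_lit 4, nat_lit 0x46⟩ (.nil) (.nil)
def t14_3863 : Tr := .node ⟨nat_lit 7, nat_lit 0x1000500060, nat_lit 0x1111121, nat_lit 0, nat_lit 4, nat_lit 0x49⟩ (.nil) (.nil)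
def t14_12055 : Tr := .node ⟨nat_lit 7, nat_lit 0x40002000480060, nat_lit 0x112010, nat_lit 2, nat_lit 4, nat_lit 0x48⟩ (.nil) (.nil)
def t14_7959 : Tr := .node ⟨nat_lit 0xa, nat_lit 0x200020001000100022002200240, nat_lit 0x10110210, nat_lit 0, nat_lit 4, nat_lit 0x49⟩ (.nil) (.nil)
def t9_279 : Tr := .node ⟨nat_lit 6, nat_lit 0x300030, nat_lit 0x3211, nat_lit 2, nat_lit 4, nat_lit 0x48⟩ (.node ⟨nat_lit 4, nat_lit 0x8000a, nat_lit 0x3222, nat_lit 5, nat_lit 4, nat_lit 0x49⟩ (.node ⟨nat_lit 7, nat_lit 0x4000200060, nat_lit 0x1031201, nat_lit 0, nat_lit 4, nat_lit 0x4a⟩ (.node ⟨nat_lit 5, nat_lit 0x10, nat_lit 0x12223, nat_lit 1, nat_lit 4, nat_lit 0x4a⟩ (.node ⟨nat_lit 5, nat_lit 0x1000080008, nat_lit 0x12021, nat_lit 3, nat_lit 3, nat_lit 0x47⟩ (t14_279) (t14_8471)) (.node ⟨nat_lit 8, nat_lit 0x80004000200020, nat_lit 0x110040, nat_lit 0, nat_lit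 3, nat_lit 0x49⟩ (t14_4375) (t14_12567))) (.node ⟨nat_lit 7, nat_lit 0x40001000600068, nat_lit 0x2012022, nat_lit 0, nat_lit 4, nat_lit 0x48⟩ (.node ⟨nat_lit 7, nat_lit 0x400040002000500060, nat_lit 0x111203, nat_lit 3, nat_lit 4, nat_lit 0x48⟩ (t14_2327) (t14_10519)) (.node ⟨nat_lit 6, nat_lit 0x200022, nat_lit 0x21122, nat_lit 3, nat_lit 4, nat_lit 0x49⟩ (t14_6423) (t14_14615)))) (.node ⟨nat_lit 4, nat_lit 0xc000c, nat_lit 0x1111, nat_lit 5, nat_lit 3, nat_lit 0x44⟩ (.node ⟨nat_lit 4, nat_lit 0x40008, nat_lit 0x2212, nat_lit 9, nat_lit 4, nat_lit 0x49⟩ (.node ⟨nat_lit 6, nat_lit 0x20001000100028, nat_lit 0x111103, nat_lit 1, nat_lit 4, nat_lit 0x47⟩ (t14_1303) (t14_9495)) (.node ⟨nat_lit 7, nat_lit 0x2000400060, nat_lit 0x121202, nat_lit 2, nat_lit 4, nat_lit 0x4a⟩ (t14_5399) (t14_13591))) (.node ⟨nat_lit 6, nat_lit 0x2000080034, nat_lit 0x11202,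 nat_lit 0, nat_lit 4, nat_lit 0x46⟩ (.node ⟨nat_lit 6, nat_lit 0x10001000200022, nat_lit 0x213000, nat_lit 5, nat_lit 4, nat_lit 0x49⟩ (t14_3351) (t14_11543)) (.node ⟨nat_lit 6, nat_lit 0x800280030, nat_lit 0x111121, nat_lit 5, nat_lit 4, nat_lit 0x48⟩ (t14_7447) (.nil))))) (.node ⟨nat_lit 6, nat_lit 0x200030, nat_lit 0x13201, nat_lit 0, nat_lit 3, nat_lit 0x48⟩ (.node ⟨nat_lit 5, nat_lit 0x100018, nat_lit 0x10210, nat_lit 1, nat_lit 4, nat_lit 0x46⟩ (.node ⟨nat_lit 5, nat_lit 0x18, nat_lit 0x10103, nat_lit 0, nat_lit 4, nat_lit 0x46⟩ (.node ⟨nat_lit 7, nat_lit 0x20002000100040, nat_lit 0x2021002, nat_lit 1, nat_lit 4, nat_lit 0x4a⟩ (t14_791) (t14_8983)) (.node ⟨nat_lit 6, nat_lit 0x20001000280034, nat_lit 0x122211, nat_lit 2, nat_lit 4, nat_lit 0x48⟩ (t14_4887) (t14_13079))) (.node ⟨nat_lit 3, nat_lit 6, nat_lit 0x111, nat_lit 8, nat_lit 4, nat_lit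 0x45⟩ (.node ⟨nat_lit 7, nat_lit 0x400040, nat_lit 0x1211130, nat_lit 0, nat_lit 4, nat_lit 0x4c⟩ (t14_2839) (t14_11031)) (.node ⟨nat_lit 7, nat_lit 0x400040002000200064, nat_lit 0x110221, nat_lit 0, nat_lit 4, nat_lit 0x48⟩ (t14_6935) (t14_15127)))) (.node ⟨nat_lit 7, nat_lit 0x10004000440060, nat_lit 0x1100221, nat_lit 0, nat_lit 4, nat_lit 0x48⟩ (.node ⟨nat_lit 7, nat_lit 0x4000100060, nat_lit 0x211111, nat_lit 3, nat_lit 4, nat_lit 0x4a⟩ (.node ⟨nat_lit 4, nat_lit 0x8000c, nat_lit 0x114, nat_lit 6, nat_lit 4, nat_lit 0x46⟩ (t14_1815) (t14_10007)) (.node ⟨nat_lit 7, nat_lit 0x3000600050, nat_lit 0x1112012, nat_lit 0, nat_lit 4, nat_lit 0x48⟩ (t14_5911) (t14_14103))) (.node ⟨nat_lit 6, nat_lit 0x2000080030, nat_lit 0x201122, nat_lit 0, nat_lit 4, nat_lit 0x48⟩ (.node ⟨nat_lit 7, nat_lit 0x40006000580068, nat_lit 0x1011130, nat_lit 1, nat_lit 4,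 nat_lit 0x46⟩ (t14_3863) (t14_12055)) (.node ⟨nat_lit 5, nat_lit 0x800100018, nat_lit 0x11210, nat_lit 5, nat_lit 4, nat_lit 0x47⟩ (t14_7959) (.nil)))))
def t14_151 : Tr := .node ⟨nat_lit 7, nat_lit 0x20003000500068, nat_lit 0x1111211, nat_lit 0, nat_lit 4, nat_lit 0x47⟩ (.nil) (.nil)
def t14_8343 : Tr := .node ⟨nat_lit 7, nat_lit 0x3000500060, nat_lit 0x1200, nat_lit 2, nat_lit 4, nat_lit 0x46⟩ (.nil) (.nil)
def t14_4247 : Tr := .node ⟨nat_lit 6, nat_lit 0x2000080030, nat_lit 0x2120, nat_lit 3, nat_lit 4, nat_lit 0x48⟩ (.nil) (.nil)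
def t14_12439 : Tr := .node ⟨nat_lit 8, nat_lit 0x400040008000c000d0, nat_lit 0x111130, nat_lit 1, nat_lit 4, nat_lit 0x48⟩ (.nil) (.nil)
def t14_2199 : Tr := .node ⟨nat_lit 8, nat_lit 0x400080008000200088, nat_lit 0x102201, nat_lit 1, nat_lit 4, nat_lit 0x49⟩ (.nil) (.nil)
def t14_10391 : Tr := .node ⟨nat_lit 7, nat_lit 0x40002000480064, nat_lit 0x1011202, nat_lit 1, nat_lit 4, nat_lit 0x47⟩ (.nil) (.nil)
def t14_6295 : Tr := .node ⟨nat_lit 8, nat_lit 0x8000800040004000a000c0, nat_lit 0x2002, nat_lit 1, nat_lit 4, nat_lit 0x47⟩ (.nil) (.nil)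
def t14_14487 : Tr := .node ⟨nat_lit 8, nat_lit 0x40008000c000c8, nat_lit 0x111120, nat_lit 0, nat_lit 4, nat_lit 0x48⟩ (.nil) (.nil)
def t14_1175 : Tr := .node ⟨nat_lit 7, nat_lit 0x4000100060, nat_lit 0x11012, nat_lit 1, nat_lit 4, nat_lit 0x48⟩ (.nil) (.nil)
def t14_9367 : Tr := .node ⟨nat_lit 7, nat_lit 0x40001000600050, nat_lit 0x13112, nat_lit 2, nat_lit 4, nat_lit 0x48⟩ (.nil) (.nil)
def t14_5271 : Tr := .node ⟨nat_lit 6, nat_lit 0x1000200030, nat_lit 0x111120, nat_lit 5, nat_lit 4, nat_lit 0x49⟩ (.nil) (.nil)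
def t14_13463 : Tr := .node ⟨nat_lit 8, nat_lit 0x200040008000c4, nat_lit 0x1010030, nat_lit 1, nat_lit 4, nat_lit 0x49⟩ (.nil) (.nil)
def t14_3223 : Tr := .node ⟨nat_lit 8, nat_lit 0x800040009000c000d0, nat_lit 0x111021, nat_lit 0, nat_lit 4, nat_lit 0x47⟩ (.nil) (.nil)
def t14_11415 : Tr := .node ⟨nat_lit 6, nat_lit 0x1000200020, nat_lit 0x103100, nat_lit 1, nat_lit 4, nat_lit 0x48⟩ (.nil) (.nil)
def t14_7319 : Tr := .node ⟨nat_lit 6, nat_lit 0x20001000100030, nat_lit 0x202002, nat_lit 0, nat_lit 3, nat_lit 0x46⟩ (.nil) (.nil)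
def t14_15511 : Tr := .node ⟨nat_lit 9, nat_lit 0x8001000100004001100180, nat_lit 0x10210011, nat_lit 0, nat_lit 4, nat_lit 0x49⟩ (.nil) (.nil)
def t14_663 : Tr := .node ⟨nat_lit 4, nat_lit 0x80008, nat_lit 0x131, nat_lit 7, nat_lit 4, nat_lit 0x47⟩ (.nil) (.nil)
def t14_8855 : Tr := .node ⟨nat_lit 7, nat_lit 0x1000400060, nat_lit 0x1020, nat_lit 3, nat_lit 4, nat_lit 0x48⟩ (.nil) (.nil)
def t14_4759 : Tr := .node ⟨nat_lit 7, nat_lit 0x40002000480060, nat_lit 0x1011203, nat_lit 1, nat_lit 4, nat_lit 0x48⟩ (.nil) (.nil)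
def t14_12951 : Tr := .node ⟨nat_lit 7, nat_lit 0x20004000100060, nat_lit 0x10210, nat_lit 4, nat_lit 4, nat_lit 0x48⟩ (.nil) (.nil)
def t14_2711 : Tr := .node ⟨nat_lit 7, nat_lit 0x10002000500060, nat_lit 0x110031, nat_lit 0, nat_lit 4, nat_lit 0x47⟩ (.nil) (.nil)
def t14_10903 : Tr := .node ⟨nat_lit 7, nat_lit 0x400020002000500060, nat_lit 0x12203, nat_lit 0, nat_lit 4, nat_lit 0x47⟩ (.nil) (.nil)
def t14_6807 : Tr := .node ⟨nat_lit 7, nat_lit 0x20005000680068, nat_lit 0x121011, nat_lit 0, nat_lit 4, nat_lit 0x46⟩ (.nil) (.nil)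
def t14_14999 : Tr := .node ⟨nat_lit 9, nat_lit 0x1000110011001800140, nat_lit 0x1111101, nat_lit 1, nat_lit 4, nat_lit 0x49⟩ (.nil) (.nil)
def t14_1687 : Tr := .node ⟨nat_lit 8, nat_lit 0x800020002000a000c0, nat_lit 0x1021021, nat_lit 0, nat_lit 4, nat_lit 0x48⟩ (.nil) (.nil)
def t14_9879 : Tr := .node ⟨nat_lit 5, nat_lit 0x1000100014, nat_lit 0x1232, nat_lit 5, nat_lit 4, nat_lit 0x48⟩ (.nil) (.nil)
def t14_5783 : Tr := .node ⟨nat_lit 5, nat_lit 0x40018, nat_lit 0x10012, nat_lit 5, nat_lit 4, nat_lit 0x46⟩ (.nil) (.nil)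
def t14_13975 : Tr := .node ⟨nat_lit 7, nat_lit 0x40001000580068, nat_lit 0x102101, nat_lit 1, nat_lit 4, nat_lit 0x46⟩ (.nil) (.nil)
def t14_3735 : Tr := .node ⟨nat_lit 9, nat_lit 0x1000100008000800090014001c0, nat_lit 0x101012000, nat_lit 1, nat_lit 4, nat_lit 0x48⟩ (.nil) (.nil)
def t14_11927 : Tr := .node ⟨nat_lit 6, nat_lit 0x1000080020, nat_lit 0x100230, nat_lit 0, nat_lit 4, nat_lit 0x47⟩ (.nil) (.nil)
def t14_7831 : Tr := .node ⟨nat_lit 5, nat_lit 0x100012, nat_lit 0x1123, nat_lit 6, nat_lit 4, nat_lit 0x48⟩ (.nil) (.nil)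
def t9_151 : Tr := .node ⟨nat_lit 6, nat_lit 0x200032, nat_lit 0x321111, nat_lit 0, nat_lit 4, nat_lit 0x4a⟩ (.node ⟨nat_lit 4, nat_lit 8, nat_lit 0x1312, nat_lit 5, nat_lit 3, nat_lit 0x47⟩ (.node ⟨nat_lit 6, nat_lit 0x2000080030, nat_lit 0x13102, nat_lit 1, nat_lit 4, nat_lit 0x48⟩ (.node ⟨nat_lit 6, nat_lit 0x200022, nat_lit 0x21111, nat_lit 1, nat_lit 4, nat_lit 0x48⟩ (.node ⟨nat_lit 7, nat_lit 0x20004000100060, nat_lit 0x22020, nat_lit 0, nat_lit 4, nat_lit 0x48⟩ (t14_151) (t14_8343)) (.node ⟨nat_lit 7, nat_lit 0x20004000600070, nat_lit 0x10023, nat_lit 2, nat_lit 4, nat_lit 0x46⟩ (t14_4247) (t14_12439))) (.node ⟨nat_lit 7, nat_lit 0x4000400040, nat_lit 0x211111, nat_lit 0, nat_lit 4, nat_lit 0x4a⟩ (.node ⟨nat_lit 6, nat_lit 0x1000080020, nat_lit 0x101210, nat_lit 0, nat_lit 4, nat_lit 0x47⟩ (t14_2199) (t14_10391)) (.node ⟨nat_lit 5, nat_lit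 0x140018, nat_lit 0x12220, nat_lit 3, nat_lit 4, nat_lit 0x48⟩ (t14_6295) (t14_14487)))) (.node ⟨nat_lit 7, nat_lit 0x400020, nat_lit 0x22100, nat_lit 0, nat_lit 3, nat_lit 0x49⟩ (.node ⟨nat_lit 6, nat_lit 0x300038, nat_lit 0x211112, nat_lit 1, nat_lit 4, nat_lit 0x48⟩ (.node ⟨nat_lit 4, nat_lit 0xc, nat_lit 0x3010, nat_lit 3, nat_lit 3, nat_lit 0x46⟩ (t14_1175) (t14_9367)) (.node ⟨nat_lit 7, nat_lit 0x4000600050, nat_lit 0x12012, nat_lit 1, nat_lit 4, nat_lit 0x48⟩ (t14_5271) (t14_13463))) (.node ⟨nat_lit 7, nat_lit 0x20004000640068, nat_lit 0x112200, nat_lit 1, nat_lit 4, nat_lit 0x47⟩ (.node ⟨nat_lit 7, nat_lit 0x4000100060, nat_lit 0x1012300, nat_lit 1, nat_lit 4, nat_lit 0x4a⟩ (t14_3223) (t14_11415)) (.node ⟨nat_lit 5, nat_lit 0x180018, nat_lit 0x10110, nat_lit 3, nat_lit 3, nat_lit 0x45⟩ (t14_7319) (t14_15511))))) (.node ⟨nat_lit 6, nat_lit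 0x800080030, nat_lit 0x320102, nat_lit 0, nat_lit 4, nat_lit 0x49⟩ (.node ⟨nat_lit 6, nat_lit 0x2000080030, nat_lit 0x22021, nat_lit 0, nat_lit 4, nat_lit 0x48⟩ (.node ⟨nat_lit 7, nat_lit 0x20002000400042, nat_lit 0x2011100, nat_lit 0, nat_lit 4, nat_lit 0x48⟩ (.node ⟨nat_lit 6, nat_lit 0x300028, nat_lit 0x201102, nat_lit 2, nat_lit 4, nat_lit 0x48⟩ (t14_663) (t14_8855)) (.node ⟨nat_lit 7, nat_lit 0x400020002000500068, nat_lit 0x112211, nat_lit 0, nat_lit 4, nat_lit 0x47⟩ (t14_4759) (t14_12951))) (.node ⟨nat_lit 6, nat_lit 0x1000280034, nat_lit 0x11110, nat_lit 0, nat_lit 4, nat_lit 0x45⟩ (.node ⟨nat_lit 5, nat_lit 0x100010, nat_lit 0x12140, nat_lit 2, nat_lit 3, nat_lit 0x48⟩ (t14_2711) (t14_10903)) (.node ⟨nat_lit 6, nat_lit 0x800300030, nat_lit 0x111211, nat_lit 0, nat_lit 4, nat_lit 0x47⟩ (t14_6807) (t14_14999)))) (.node ⟨nat_lit 3, nat_lit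 4, nat_lit 0x121, nat_lit 0xb, nat_lit 4, nat_lit 0x47⟩ (.node ⟨nat_lit 5, nat_lit 0x40018, nat_lit 0x31111, nat_lit 2, nat_lit 4, nat_lit 0x48⟩ (.node ⟨nat_lit 6, nat_lit 0x300028, nat_lit 0x11113, nat_lit 0, nat_lit 4, nat_lit 0x47⟩ (t14_1687) (t14_9879)) (.node ⟨nat_lit 5, nat_lit 0x1000100010, nat_lit 0x12221, nat_lit 3, nat_lit 3, nat_lit 0x47⟩ (t14_5783) (t14_13975))) (.node ⟨nat_lit 6, nat_lit 0x800080030, nat_lit 0x200222, nat_lit 2, nat_lit 4, nat_lit 0x48⟩ (.node ⟨nat_lit 6, nat_lit 0x2000080030, nat_lit 0x10010, nat_lit 0, nat_lit 4, nat_lit 0x45⟩ (t14_3735) (t14_11927)) (.node ⟨nat_lit 6, nat_lit 0x800200030, nat_lit 0x100021, nat_lit 3, nat_lit 4, nat_lit 0x47⟩ (t14_7831) (.nil)))))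
def t14_407 : Tr := .node ⟨nat_lit 7, nat_lit 0x2000200040, nat_lit 0x1111101, nat_lit 5, nat_lit 4, nat_lit 0x4b⟩ (.nil) (.nil)
def t14_8599 : Tr := .node ⟨nat_lit 8, nat_lit 0x2000800040008800c8, nat_lit 0x1110, nat_lit 0, nat_lit 4, nat_lit 0x46⟩ (.nil) (.nil)
def t14_4503 : Tr := .node ⟨nat_lit 7, nat_lit 0x20002000500060, nat_lit 0x1020013, nat_lit 0, nat_lit 4, nat_lit 0x48⟩ (.nil) (.nil)
def t14_12695 : Tr := .node ⟨nat_lit 7, nat_lit 0x40002000200064, nat_lit 0x1002010, nat_lit 0, nat_lit 4, nat_lit 0x47⟩ (.nil) (.nil)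
def t14_2455 : Tr := .node ⟨nat_lit 5, nat_lit 0x100018, nat_lit 0x1230, nat_lit 5, nat_lit 4, nat_lit 0x48⟩ (.nil) (.nil)
def t14_10647 : Tr := .node ⟨nat_lit 7, nat_lit 0x2000500060, nat_lit 0x1102, nat_lit 1, nat_lit 4, nat_lit 0x47⟩ (.nil) (.nil)
def t14_6551 : Tr := .node ⟨nat_lit 6, nat_lit 0x2000300034, nat_lit 0x101121, nat_lit 4, nat_lit 4, nat_lit 0x47⟩ (.nil) (.nil)
def t14_14743 : Tr := .node ⟨nat_lit 7, nat_lit 0x10005000300060, nat_lit 0x1101121, nat_lit 0, nat_lit 4, nat_lit 0x47⟩ (.nil) (.nil)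
def t14_1431 : Tr := .node ⟨nat_lit 6, nat_lit 0x1000200030, nat_lit 0x102301, nat_lit 0, nat_lit 4, nat_lit 0x48⟩ (.nil) (.nil)
def t14_9623 : Tr := .node ⟨nat_lit 5, nat_lit 0x100008001a, nat_lit 0x210, nat_lit 5, nat_lit 4, nat_lit 0x45⟩ (.nil) (.nil)
def t14_5527 : Tr := .node ⟨nat_lit 7, nat_lit 0x40004000200060, nat_lit 0x11013, nat_lit 3, nat_lit 4, nat_lit 0x48⟩ (.nil) (.nil)
def t14_13719 : Tr := .node ⟨nat_lit 8, nat_lit 0x80004000a0006000d0, nat_lit 0x20012, nat_lit 0, nat_lit 4, nat_lit 0x46⟩ (.nil) (.nil)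
def t14_3479 : Tr := .node ⟨nat_lit 7, nat_lit 0x40001000600050, nat_lit 0x201, nat_lit 1, nat_lit 4, nat_lit 0x46⟩ (.nil) (.nil)
def t14_11671 : Tr := .node ⟨nat_lit 5, nat_lit 0x100018, nat_lit 0x240, nat_lit 2, nat_lit 3, nat_lit 0x46⟩ (.nil) (.nil)
def t14_7575 : Tr := .node ⟨nat_lit 5, nat_lit 0x100010, nat_lit 0x3132, nat_lit 1, nat_lit 3, nat_lit 0x47⟩ (.nil) (.nil)
def t14_919 : Tr := .node ⟨nat_lit 8, nat_lit 0x400080008000200088, nat_lit 0x102212, nat_lit 0, nat_lit 4, nat_lit 0x49⟩ (.nil) (.nil)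
def t14_9111 : Tr := .node ⟨nat_lit 8, nat_lit 0x800020009000a000c0, nat_lit 0x1110021, nat_lit 1, nat_lit 4, nat_lit 0x48⟩ (.nil) (.nil)
def t14_5015 : Tr := .node ⟨nat_lit 6, nat_lit 0x20002800300038, nat_lit 0x100011, nat_lit 4, nat_lit 4, nat_lit 0x45⟩ (.nil) (.nil)
def t14_13207 : Tr := .node ⟨nat_lit 5, nat_lit 0x40018, nat_lit 0x20023, nat_lit 0, nat_lit 4, nat_lit 0x46⟩ (.nil) (.nil)
def t14_2967 : Tr := .node ⟨nat_lit 8, nat_lit 0x800040004000200090, nat_lit 0x121002, nat_lit 0, nat_lit 4, nat_lit 0x48⟩ (.nil) (.nil)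
def t14_11159 : Tr := .node ⟨nat_lit 4, nat_lit 0x8000c, nat_lit 0x1000, nat_lit 7, nat_lit 4, nat_lit 0x45⟩ (.nil) (.nil)
def t14_7063 : Tr := .node ⟨nat_lit 8, nat_lit 0x800020002000c0, nat_lit 0x10011101, nat_lit 1, nat_lit 4, nat_lit 0x49⟩ (.nil) (.nil)
def t14_15255 : Tr := .node ⟨nat_lit 8, nat_lit 0x80008000800040004000a0, nat_lit 0x110101, nat_lit 7, nat_lit 4, nat_lit 0x49⟩ (.nil) (.nil)
def t14_1943 : Tr := .node ⟨nat_lit 6, nat_lit 0x240038, nat_lit 0x200012, nat_lit 0, nat_lit 4, nat_lit 0x46⟩ (.nil) (.nil)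
def t14_10135 : Tr := .node ⟨nat_lit 8, nat_lit 0x4000400040008000e000e0, nat_lit 0x110220, nat_lit 2, nat_lit 4, nat_lit 0x47⟩ (.nil) (.nil)
def t14_6039 : Tr := .node ⟨nat_lit 6, nat_lit 0x200020, nat_lit 0x21111, nat_lit 5, nat_lit 4, nat_lit 0x4a⟩ (.nil) (.nil)
def t14_14231 : Tr := .node ⟨nat_lit 8, nat_lit 0x10002000c000a0, nat_lit 0x10000112, nat_lit 1, nat_lit 4, nat_lit 0x48⟩ (.nil) (.nil)
def t14_3991 : Tr := .node ⟨nat_lit 6, nat_lit 0x800300030, nat_lit 0x100210, nat_lit 3, nat_lit 4, nat_lit 0x46⟩ (.nil) (.nil)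
def t14_12183 : Tr := .node ⟨nat_lit 8, nat_lit 0x4000400040008000d000e0, nat_lit 0x11201, nat_lit 3, nat_lit 4, nat_lit 0x47⟩ (.nil) (.nil)
def t14_8087 : Tr := .node ⟨nat_lit 7, nat_lit 0x400020002000500060, nat_lit 0x10040, nat_lit 0, nat_lit 4, nat_lit 0x46⟩ (.nil) (.nil)
def t9_407 : Tr := .node ⟨nat_lit 5, nat_lit 0x18, nat_lit 0x21321, nat_lit 2, nat_lit 4, nat_lit 0x4a⟩ (.node ⟨nat_lit 5, nat_lit 0x10, nat_lit 0x13211, nat_lit 6, nat_lit 4, nat_lit 0x4b⟩ (.node ⟨nat_lit 5, nat_lit 0x18, nat_lit 0x20211, nat_lit 0, nat_lit 4, nat_lit 0x47⟩ (.node ⟨nat_lit 6, nat_lit 0x2000080030, nat_lit 0x101321, nat_lit 1, nat_lit 4, nat_lit 0x48⟩ (.node ⟨nat_lit 6, nat_lit 0x800280030, nat_lit 0x20211, nat_lit 3, nat_lit 4, nat_lit 0x47⟩ (t14_407) (t14_8599)) (.node ⟨nat_lit 7, nat_lit 0x40002000480060, nat_lit 0x1012020, nat_lit 0, nat_lit 4, nat_lit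 0x48⟩ (t14_4503) (t14_12695))) (.node ⟨nat_lit 4, nat_lit 0x80008, nat_lit 0x121, nat_lit 6, nat_lit 3, nat_lit 0x45⟩ (.node ⟨nat_lit 7, nat_lit 0x20001000400060, nat_lit 0x10102, nat_lit 2, nat_lit 4, nat_lit 0x47⟩ (t14_2455) (t14_10647)) (.node ⟨nat_lit 6, nat_lit 0x1000280030, nat_lit 0x201121, nat_lit 1, nat_lit 4, nat_lit 0x47⟩ (t14_6551) (t14_14743)))) (.node ⟨nat_lit 5, nat_lit 0x40018, nat_lit 0x20011, nat_lit 0, nat_lit 4, nat_lit 0x45⟩ (.node ⟨nat_lit 7, nat_lit 0x4000100060, nat_lit 0x1121211, nat_lit 0, nat_lit 4, nat_lit 0x4a⟩ (.node ⟨nat_lit 5, nat_lit 0x100010, nat_lit 0x1110, nat_lit 4, nat_lit 4, nat_lit 0x47⟩ (t14_1431) (t14_9623)) (.node ⟨nat_lit 7, nat_lit 0x20004000280044, nat_lit 0x1120202, nat_lit 3, nat_lit 4, nat_lit 0x49⟩ (t14_5527) (t14_13719))) (.node ⟨nat_lit 6, nat_lit 0x200030, nat_lit 0x11121, nat_lit 2, nat_lit 4,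 nat_lit 0x48⟩ (.node ⟨nat_lit 7, nat_lit 0x5000600070, nat_lit 0x112003, nat_lit 0, nat_lit 4, nat_lit 0x47⟩ (t14_3479) (t14_11671)) (.node ⟨nat_lit 7, nat_lit 0x4000100060, nat_lit 0x1211201, nat_lit 0, nat_lit 4, nat_lit 0x4a⟩ (t14_7575) (.nil))))) (.node ⟨nat_lit 6, nat_lit 0x300030, nat_lit 0x103221, nat_lit 2, nat_lit 4, nat_lit 0x49⟩ (.node ⟨nat_lit 6, nat_lit 0x20, nat_lit 0x22110, nat_lit 0, nat_lit 4, nat_lit 0x4a⟩ (.node ⟨nat_lit 6, nat_lit 0x200030, nat_lit 0x11111, nat_lit 0, nat_lit 4, nat_lit 0x47⟩ (.node ⟨nat_lit 7, nat_lit 0x400040002000200070, nat_lit 0x1021310, nat_lit 1, nat_lit 4, nat_lit 0x48⟩ (t14_919) (t14_9111)) (.node ⟨nat_lit 6, nat_lit 0x2000200010, nat_lit 0x121102, nat_lit 5, nat_lit 4, nat_lit 0x4a⟩ (t14_5015) (t14_13207))) (.node ⟨nat_lit 7, nat_lit 0x20004000100070, nat_lit 0x1101102, nat_lit 0, nat_lit 4, nat_lit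 0x47⟩ (.node ⟨nat_lit 7, nat_lit 0x400020005000500028, nat_lit 0x1112210, nat_lit 0, nat_lit 4, nat_lit 0x47⟩ (t14_2967) (t14_11159)) (.node ⟨nat_lit 7, nat_lit 0x20004000440060, nat_lit 0x1112202, nat_lit 0, nat_lit 4, nat_lit 0x49⟩ (t14_7063) (t14_15255)))) (.node ⟨nat_lit 6, nat_lit 0x2000080030, nat_lit 0x2210, nat_lit 1, nat_lit 4, nat_lit 0x47⟩ (.node ⟨nat_lit 7, nat_lit 0x1000100060, nat_lit 0x2011111, nat_lit 3, nat_lit 4, nat_lit 0x4a⟩ (.node ⟨nat_lit 5, nat_lit 0x140018, nat_lit 0x12130, nat_lit 2, nat_lit 4, nat_lit 0x47⟩ (t14_1943) (t14_10135)) (.node ⟨nat_lit 7, nat_lit 0x20005000500060, nat_lit 0x112200, nat_lit 0, nat_lit 4, nat_lit 0x47⟩ (t14_6039) (t14_14231))) (.node ⟨nat_lit 7, nat_lit 0x4000600050, nat_lit 0x11201, nat_lit 2, nat_lit 4, nat_lit 0x48⟩ (.node ⟨nat_lit 8, nat_lit 0x800040009000e0, nat_lit 0x1100103, nat_lit 1, nat_lit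 4, nat_lit 0x48⟩ (t14_3991) (t14_12183)) (.node ⟨nat_lit 8, nat_lit 0x4000800080008800c800d0, nat_lit 0x10211001, nat_lit 1, nat_lit 4, nat_lit 0x47⟩ (t14_8087) (.nil)))))
def t14_87 : Tr := .node ⟨nat_lit 6, nat_lit 0x2000200030, nat_lit 0x111211, nat_lit 3, nat_lit 4, nat_lit 0x49⟩ (.nil) (.nil)
def t14_8279 : Tr := .node ⟨nat_lit 6, nat_lit 0x300030, nat_lit 0x1130, nat_lit 2, nat_lit 4, nat_lit 0x47⟩ (.nil) (.nil)
def t14_4183 : Tr := .node ⟨nat_lit 9, nat_lit 0x100010000800110012001c0, nat_lit 0x11101003, nat_lit 0, nat_lit 4, nat_lit 0x48⟩ (.nil) (.nil)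
def t14_12375 : Tr := .node ⟨nat_lit 6, nat_lit 0x10001000200030, nat_lit 0x103110, nat_lit 4, nat_lit 4, nat_lit 0x48⟩ (.nil) (.nil)
def t14_2135 : Tr := .node ⟨nat_lit 6, nat_lit 0x2000200010, nat_lit 0x11200, nat_lit 3, nat_lit 4, nat_lit 0x48⟩ (.nil) (.nil)
def t14_10327 : Tr := .node ⟨nat_lit 5, nat_lit 0x800100010, nat_lit 0x12022, nat_lit 4, nat_lit 3, nat_lit 0x47⟩ (.nil) (.nil)
def t14_6231 : Tr := .node ⟨nat_lit 6, nat_lit 0x2000200010, nat_lit 0x1111, nat_lit 2, nat_lit 4, nat_lit 0x47⟩ (.nil) (.nil)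
def t14_14423 : Tr := .node ⟨nat_lit 7, nat_lit 0x10001000600060, nat_lit 0x1002111, nat_lit 1, nat_lit 4, nat_lit 0x47⟩ (.nil) (.nil)
def t14_1111 : Tr := .node ⟨nat_lit 7, nat_lit 0x40002000480068, nat_lit 0x1011201, nat_lit 0, nat_lit 4, nat_lit 0x47⟩ (.nil) (.nil)
def t14_9303 : Tr := .node ⟨nat_lit 7, nat_lit 0x10006000600050, nat_lit 0x102102, nat_lit 0, nat_lit 4, nat_lit 0x46⟩ (.nil) (.nil)
def t14_5207 : Tr := .node ⟨nat_lit 7, nat_lit 0x400020005000600068, nat_lit 0x121111, nat_lit 4, nat_lit 4, nat_lit 0x47⟩ (.nil) (.nil)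
def t14_13399 : Tr := .node ⟨nat_lit 8, nat_lit 0x40008000600090009000d0, nat_lit 0x220000, nat_lit 0, nat_lit 4, nat_lit 0x46⟩ (.nil) (.nil)
def t14_3159 : Tr := .node ⟨nat_lit 7, nat_lit 0x40001000500060, nat_lit 0x201210, nat_lit 0, nat_lit 4, nat_lit 0x47⟩ (.nil) (.nil)
def t14_11351 : Tr := .node ⟨nat_lit 6, nat_lit 0x2000080010, nat_lit 0x1001, nat_lit 3, nat_lit 3, nat_lit 0x46⟩ (.nil) (.nil)
def t14_7255 : Tr := .node ⟨nat_lit 7, nat_lit 0x6000180070, nat_lit 0x1020012, nat_lit 1, nat_lit 4, nat_lit 0x47⟩ (.nil) (.nil)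
def t14_15447 : Tr := .node ⟨nat_lit 8, nat_lit 0x200080004000a000c8, nat_lit 0x10111021, nat_lit 0, nat_lit 4, nat_lit 0x48⟩ (.nil) (.nil)
def t14_599 : Tr := .node ⟨nat_lit 7, nat_lit 0x20004000680070, nat_lit 0x202, nat_lit 1, nat_lit 4, nat_lit 0x45⟩ (.nil) (.nil)
def t14_8791 : Tr := .node ⟨nat_lit 7, nat_lit 0x40004000200068, nat_lit 0x12013, nat_lit 0, nat_lit 4, nat_lit 0x47⟩ (.nil) (.nil)
def t14_4695 : Tr := .node ⟨nat_lit 7, nat_lit 0x10002000400060, nat_lit 0x1010001, nat_lit 0, nat_lit 4, nat_lit 0x47⟩ (.nil) (.nil)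
def t14_12887 : Tr := .node ⟨nat_lit 6, nat_lit 0x2000300030, nat_lit 0x1030, nat_lit 5, nat_lit 4, nat_lit 0x47⟩ (.nil) (.nil)
def t14_2647 : Tr := .node ⟨nat_lit 5, nat_lit 0x18001c, nat_lit 0x223, nat_lit 3, nat_lit 4, nat_lit 0x45⟩ (.nil) (.nil)
def t14_10839 : Tr := .node ⟨nat_lit 7, nat_lit 0x40004000480060, nat_lit 0x112002, nat_lit 5, nat_lit 4, nat_lit 0x49⟩ (.nil) (.nil)
def t14_6743 : Tr := .node ⟨nat_lit 6, nat_lit 0x1000280034, nat_lit 0x22101, nat_lit 1, nat_lit 4, nat_lit 0x47⟩ (.nil) (.nil)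
def t14_14935 : Tr := .node ⟨nat_lit 9, nat_lit 0x8001000040011001100110, nat_lit 0x100010111, nat_lit 1, nat_lit 4, nat_lit 0x49⟩ (.nil) (.nil)
def t14_1623 : Tr := .node ⟨nat_lit 7, nat_lit 0x40002000480064, nat_lit 0x11110, nat_lit 1, nat_lit 4, nat_lit 0x46⟩ (.nil) (.nil)
def t14_9815 : Tr := .node ⟨nat_lit 9, nat_lit 0x1000100004000400180, nat_lit 0x122100, nat_lit 0, nat_lit 4, nat_lit 0x4a⟩ (.nil) (.nil)
def t14_5719 : Tr := .node ⟨nat_lit 6, nat_lit 0x20002000100028, nat_lit 0x10112, nat_lit 2, nat_lit 4, nat_lit 0x46⟩ (.nil) (.nil)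
def t14_13911 : Tr := .node ⟨nat_lit 6, nat_lit 0x2000080030, nat_lit 0x1420, nat_lit 2, nat_lit 4, nat_lit 0x48⟩ (.nil) (.nil)
def t14_3671 : Tr := .node ⟨nat_lit 7, nat_lit 0x400060, nat_lit 0x30001, nat_lit 0, nat_lit 4, nat_lit 0x49⟩ (.nil) (.nil)
def t14_11863 : Tr := .node ⟨nat_lit 6, nat_lit 0x2000100032, nat_lit 0x1031, nat_lit 3, nat_lit 4, nat_lit 0x47⟩ (.nil) (.nil)
def t14_7767 : Tr := .node ⟨nat_lit 8, nat_lit 0x800040004000a000d000e0, nat_lit 0x211020, nat_lit 0, nat_lit 4, nat_lit 0x46⟩ (.nil) (.nil)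
def t9_87 : Tr := .node ⟨nat_lit 3, nat_lit 4, nat_lit 0x12, nat_lit 2, nat_lit 3, nat_lit 0x43⟩ (.node ⟨nat_lit 7, nat_lit 0x40004000440048, nat_lit 0x1321100, nat_lit 1, nat_lit 4, nat_lit 0x4a⟩ (.node ⟨nat_lit 5, nat_lit 0x80010, nat_lit 0x123, nat_lit 0, nat_lit 4, nat_lit 0x46⟩ (.node ⟨nat_lit 6, nat_lit 0x1000200030, nat_lit 0x102102, nat_lit 0, nat_lit 3, nat_lit 0x46⟩ (.node ⟨nat_lit 7, nat_lit 0x40, nat_lit 0x2111113, nat_lit 0, nat_lit 4, nat_lit 0x4d⟩ (t14_87) (t14_8279)) (.node ⟨nat_lit 6, nat_lit 0x2000300038, nat_lit 0x2203, nat_lit 4, nat_lit 4, nat_lit 0x47⟩ (t14_4183) (t14_12375))) (.node ⟨nat_lit 5, nat_lit 0x100010001c, nat_lit 0x12112, nat_lit 8, nat_lit 4, nat_lit 0x48⟩ (.node ⟨nat_lit 7, nat_lit 0x10004000200060, nat_lit 0x100014, nat_lit 1, nat_lit 4, nat_lit 0x48⟩ (t14_2135) (t14_10327)) (.node ⟨nat_lit 8, nat_lit 0x800080008000400090,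 nat_lit 0x1212100, nat_lit 0, nat_lit 4, nat_lit 0x4a⟩ (t14_6231) (t14_14423)))) (.node ⟨nat_lit 4, nat_lit 0xc, nat_lit 0x20, nat_lit 1, nat_lit 4, nat_lit 0x43⟩ (.node ⟨nat_lit 6, nat_lit 0x200020, nat_lit 0x211111, nat_lit 5, nat_lit 4, nat_lit 0x4b⟩ (.node ⟨nat_lit 6, nat_lit 0x800280030, nat_lit 0x121131, nat_lit 1, nat_lit 4, nat_lit 0x48⟩ (t14_1111) (t14_9303)) (.node ⟨nat_lit 4, nat_lit 0x8000c, nat_lit 0x122, nat_lit 9, nat_lit 4, nat_lit 0x46⟩ (t14_5207) (t14_13399))) (.node ⟨nat_lit 6, nat_lit 0x2000100030, nat_lit 0x12001, nat_lit 2, nat_lit 4, nat_lit 0x47⟩ (.node ⟨nat_lit 5, nat_lit 0x10001a, nat_lit 0x11200, nat_lit 4, nat_lit 4, nat_lit 0x47⟩ (t14_3159) (t14_11351)) (.node ⟨nat_lit 7, nat_lit 0x20004000440060, nat_lit 0x1010002, nat_lit 1, nat_lit 4, nat_lit 0x47⟩ (t14_7255) (t14_15447))))) (.node ⟨nat_lit 5, nat_lit 0x100008, nat_lit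 0x2100, nat_lit 1, nat_lit 3, nat_lit 0x46⟩ (.node ⟨nat_lit 6, nat_lit 0x280030, nat_lit 0x12120, nat_lit 0, nat_lit 4, nat_lit 0x47⟩ (.node ⟨nat_lit 5, nat_lit 0x140018, nat_lit 0x2102, nat_lit 3, nat_lit 4, nat_lit 0x46⟩ (.node ⟨nat_lit 6, nat_lit 0x280030, nat_lit 0x212120, nat_lit 0, nat_lit 4, nat_lit 0x49⟩ (t14_599) (t14_8791)) (.node ⟨nat_lit 8, nat_lit 0x800010002000c0, nat_lit 0x11110102, nat_lit 1, nat_lit 4, nat_lit 0x4a⟩ (t14_4695) (t14_12887))) (.node ⟨nat_lit 4, nat_lit 0x8000c, nat_lit 0x1022, nat_lit 7, nat_lit 4, nat_lit 0x46⟩ (.node ⟨nat_lit 8, nat_lit 0x200080008400c0, nat_lit 0x12010103, nat_lit 0, nat_lit 4, nat_lit 0x4a⟩ (t14_2647) (t14_10839)) (.node ⟨nat_lit 9, nat_lit 0x1000080002000200040, nat_lit 0x1100220, nat_lit 1, nat_lit 4, nat_lit 0x4b⟩ (t14_6743) (t14_14935)))) (.node ⟨nat_lit 4, nat_lit 0xc000c, nat_lit 0x1110,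 nat_lit 5, nat_lit 3, nat_lit 0x44⟩ (.node ⟨nat_lit 6, nat_lit 0x1000200032, nat_lit 0x221001, nat_lit 1, nat_lit 4, nat_lit 0x48⟩ (.node ⟨nat_lit 6, nat_lit 0x30000c, nat_lit 0x100001, nat_lit 1, nat_lit 4, nat_lit 0x45⟩ (t14_1623) (t14_9815)) (.node ⟨nat_lit 6, nat_lit 0x200022, nat_lit 0x122111, nat_lit 3, nat_lit 4, nat_lit 0x4a⟩ (t14_5719) (t14_13911))) (.node ⟨nat_lit 6, nat_lit 0x1000280030, nat_lit 0x112020, nat_lit 0, nat_lit 3, nat_lit 0x46⟩ (.node ⟨nat_lit 7, nat_lit 0x200020004000440070, nat_lit 0x1000000, nat_lit 1, nat_lit 4, nat_lit 0x45⟩ (t14_3671) (t14_11863)) (.node ⟨nat_lit 8, nat_lit 0x400080008400c8, nat_lit 0x11110201, nat_lit 2, nat_lit 4, nat_lit 0x4a⟩ (t14_7767) (.nil)))))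
def t14_343 : Tr := .node ⟨nat_lit 8, nat_lit 0x400080002000c0, nat_lit 0x1121011, nat_lit 1, nat_lit 4, nat_lit 0x4a⟩ (.nil) (.nil)
def t14_8535 : Tr := .node ⟨nat_lit 6, nat_lit 0x10002000240024, nat_lit 0x100141, nat_lit 5, nat_lit 4, nat_lit 0x48⟩ (.nil) (.nil)
def t14_4439 : Tr := .node ⟨nat_lit 7, nat_lit 0x4000400064, nat_lit 0x1121121, nat_lit 0, nat_lit 4, nat_lit 0x4a⟩ (.nil) (.nil)
def t14_12631 : Tr := .node ⟨nat_lit 7, nat_lit 0x10005000600030, nat_lit 0x1002320, nat_lit 1, nat_lit 4, nat_lit 0x47⟩ (.nil) (.nil)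
def t14_2391 : Tr := .node ⟨nat_lit 7, nat_lit 0x20004000600060, nat_lit 0x22110, nat_lit 3, nat_lit 4, nat_lit 0x48⟩ (.nil) (.nil)
def t14_10583 : Tr := .node ⟨nat_lit 8, nat_lit 0x90003000a000c0, nat_lit 0x1000201, nat_lit 0, nat_lit 4, nat_lit 0x46⟩ (.nil) (.nil)
def t14_6487 : Tr := .node ⟨nat_lit 7, nat_lit 0x600018, nat_lit 0x1011110, nat_lit 1, nat_lit 4, nat_lit 0x49⟩ (.nil) (.nil)
def t14_14679 : Tr := .node ⟨nat_lit 0xa, nat_lit 0x2000200020001000100024001100380, nat_lit 0x11011011, nat_lit 0, nat_lit 4, nat_lit 0x48⟩ (.nil) (.nil)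
def t14_1367 : Tr := .node ⟨nat_lit 8, nat_lit 0x40006000a000d000d0, nat_lit 0x1001310, nat_lit 1, nat_lit 4, nat_lit 0x46⟩ (.nil) (.nil)
def t14_9559 : Tr := .node ⟨nat_lit 8, nat_lit 0x200080008000c000c8, nat_lit 0x1002021, nat_lit 1, nat_lit 4, nat_lit 0x48⟩ (.nil) (.nil)
def t14_5463 : Tr := .node ⟨nat_lit 6, nat_lit 0x200030, nat_lit 0x1103, nat_lit 1, nat_lit 4, nat_lit 0x47⟩ (.nil) (.nil)
def t14_13655 : Tr := .node ⟨nat_lit 6, nat_lit 0x2000080030, nat_lit 0x1022, nat_lit 3, nat_lit 4, nat_lit 0x47⟩ (.nil) (.nil)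
def t14_3415 : Tr := .node ⟨nat_lit 6, nat_lit 0x1000280030, nat_lit 0x21010, nat_lit 3, nat_lit 4, nat_lit 0x47⟩ (.nil) (.nil)
def t14_11607 : Tr := .node ⟨nat_lit 7, nat_lit 0x10006000600070, nat_lit 0x11310, nat_lit 1, nat_lit 4, nat_lit 0x46⟩ (.nil) (.nil)
def t14_7511 : Tr := .node ⟨nat_lit 7, nat_lit 0x20001000100040, nat_lit 0x1110111, nat_lit 5, nat_lit 4, nat_lit 0x4a⟩ (.nil) (.nil)
def t14_855 : Tr := .node ⟨nat_lit 8, nat_lit 0x400080008000200088, nat_lit 0x102012, nat_lit 3, nat_lit 4, nat_lit 0x49⟩ (.nil) (.nil)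
def t14_9047 : Tr := .node ⟨nat_lit 6, nat_lit 0x20001000100010, nat_lit 0x222, nat_lit 1, nat_lit 3, nat_lit 0x46⟩ (.nil) (.nil)
def t14_4951 : Tr := .node ⟨nat_lit 8, nat_lit 0x80004000a000d000e0, nat_lit 0x111103, nat_lit 0, nat_lit 4, nat_lit 0x46⟩ (.nil) (.nil)
def t14_13143 : Tr := .node ⟨nat_lit 7, nat_lit 0x10002000500060, nat_lit 0x32, nat_lit 1, nat_lit 4, nat_lit 0x46⟩ (.nil) (.nil)
def t14_2903 : Tr := .node ⟨nat_lit 8, nat_lit 0x800020004000a000c0, nat_lit 0x112120, nat_lit 0, nat_lit 4, nat_lit 0x48⟩ (.nil) (.nil)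
def t14_11095 : Tr := .node ⟨nat_lit 8, nat_lit 0x20001000c000c0, nat_lit 0x20, nat_lit 1, nat_lit 3, nat_lit 0x46⟩ (.nil) (.nil)
def t14_6999 : Tr := .node ⟨nat_lit 7, nat_lit 0x4000600050, nat_lit 0x1001211, nat_lit 1, nat_lit 3, nat_lit 0x47⟩ (.nil) (.nil)
def t14_15191 : Tr := .node ⟨nat_lit 8, nat_lit 0x40008000c000c4, nat_lit 0x10110121, nat_lit 0, nat_lit 4, nat_lit 0x49⟩ (.nil) (.nil)
def t14_1879 : Tr := .node ⟨nat_lit 5, nat_lit 0x80010, nat_lit 0x211, nat_lit 2, nat_lit 4, nat_lit 0x46⟩ (.nil) (.nil)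
def t14_10071 : Tr := .node ⟨nat_lit 6, nat_lit 0x800300030, nat_lit 0x200, nat_lit 0, nat_lit 3, nat_lit 0x44⟩ (.nil) (.nil)
def t14_5975 : Tr := .node ⟨nat_lit 9, nat_lit 0x400040010001000180, nat_lit 0x10110211, nat_lit 0, nat_lit 4, nat_lit 0x4a⟩ (.nil) (.nil)
def t14_14167 : Tr := .node ⟨nat_lit 8, nat_lit 0x80002000200040, nat_lit 0x1010210, nat_lit 2, nat_lit 4, nat_lit 0x4a⟩ (.nil) (.nil)
def t14_3927 : Tr := .node ⟨nat_lit 7, nat_lit 0x40002000500068, nat_lit 0x1001010, nat_lit 0, nat_lit 4, nat_lit 0x46⟩ (.nil) (.nil)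
def t14_12119 : Tr := .node ⟨nat_lit 7, nat_lit 0x2000500060, nat_lit 0x10002, nat_lit 1, nat_lit 4, nat_lit 0x47⟩ (.nil) (.nil)
def t14_8023 : Tr := .node ⟨nat_lit 7, nat_lit 0x20004000100044, nat_lit 0x10103, nat_lit 1, nat_lit 4, nat_lit 0x47⟩ (.nil) (.nil)
def t9_343 : Tr := .node ⟨nat_lit 3, nat_lit 4, nat_lit 0x130, nat_lit 0x11, nat_lit 4, nat_lit 0x49⟩ (.node ⟨nat_lit 5, nat_lit 0x18, nat_lit 0x32112, nat_lit 2, nat_lit 4, nat_lit 0x4a⟩ (.node ⟨nat_lit 5, nat_lit 0x40018, nat_lit 0x22113, nat_lit 0, nat_lit 4, nat_lit 0x48⟩ (.node ⟨nat_lit 8, nat_lit 0x20001000c0, nat_lit 0x11002002, nat_lit 0, nat_lit 4, nat_lit 0x4a⟩ (.node ⟨nat_lit 6, nat_lit 0x800080030, nat_lit 0x211103, nat_lit 0, nat_lit 3, nat_lit 0x47⟩ (t14_343) (t14_8535)) (.node ⟨nat_lit 8, nat_lit 0x800080002000c000d0, nat_lit 0x1010041, nat_lit 0, nat_lit 4, nat_lit 0x48⟩ (t14_4439)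 (t14_12631))) (.node ⟨nat_lit 6, nat_lit 0x280030, nat_lit 0x211221, nat_lit 1, nat_lit 4, nat_lit 0x49⟩ (.node ⟨nat_lit 6, nat_lit 0x20002000100030, nat_lit 0x12013, nat_lit 6, nat_lit 4, nat_lit 0x48⟩ (t14_2391) (t14_10583)) (.node ⟨nat_lit 5, nat_lit 0x80010, nat_lit 0x1214, nat_lit 1, nat_lit 4, nat_lit 0x48⟩ (t14_6487) (t14_14679)))) (.node ⟨nat_lit 5, nat_lit 0x40018, nat_lit 0x11100, nat_lit 0, nat_lit 3, nat_lit 0x45⟩ (.node ⟨nat_lit 5, nat_lit 0x10, nat_lit 0x22223, nat_lit 1, nat_lit 4, nat_lit 0x4b⟩ (.node ⟨nat_lit 6, nat_lit 0x300038, nat_lit 0x101203, nat_lit 1, nat_lit 4, nat_lit 0x47⟩ (t14_1367) (t14_9559)) (.node ⟨nat_lit 7, nat_lit 0x2000500064, nat_lit 0x221120, nat_lit 0, nat_lit 4, nat_lit 0x49⟩ (t14_5463) (t14_13655))) (.node ⟨nat_lit 6, nat_lit 0x80030, nat_lit 0x311102, nat_lit 2, nat_lit 4, nat_lit 0x4a⟩ (.node ⟨nat_lit 7,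 nat_lit 0x40004000200060, nat_lit 0x121003, nat_lit 2, nat_lit 4, nat_lit 0x49⟩ (t14_3415) (t14_11607)) (.node ⟨nat_lit 7, nat_lit 0x20004000440060, nat_lit 0x20110, nat_lit 1, nat_lit 4, nat_lit 0x47⟩ (t14_7511) (.nil))))) (.node ⟨nat_lit 5, nat_lit 0x80010, nat_lit 0x300, nat_lit 1, nat_lit 4, nat_lit 0x46⟩ (.node ⟨nat_lit 6, nat_lit 0x30, nat_lit 0x221111, nat_lit 0, nat_lit 4, nat_lit 0x4a⟩ (.node ⟨nat_lit 5, nat_lit 0x80010, nat_lit 0x11110, nat_lit 3, nat_lit 4, nat_lit 0x47⟩ (.node ⟨nat_lit 6, nat_lit 0x800280030, nat_lit 0x20210, nat_lit 1, nat_lit 4, nat_lit 0x46⟩ (t14_855) (t14_9047)) (.node ⟨nat_lit 6, nat_lit 0x200020, nat_lit 0x122122, nat_lit 1, nat_lit 4, nat_lit 0x4b⟩ (t14_4951) (t14_13143))) (.node ⟨nat_lit 6, nat_lit 0x800200030, nat_lit 0x110021, nat_lit 4, nat_lit 4, nat_lit 0x48⟩ (.node ⟨nat_lit 8, nat_lit 0x80004000400088,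 nat_lit 0x10112101, nat_lit 0, nat_lit 4, nat_lit 0x4a⟩ (t14_2903) (t14_11095)) (.node ⟨nat_lit 7, nat_lit 0x600060, nat_lit 0x1111122, nat_lit 0, nat_lit 4, nat_lit 0x4a⟩ (t14_6999) (t14_15191)))) (.node ⟨nat_lit 6, nat_lit 0x80030, nat_lit 0x211120, nat_lit 0, nat_lit 4, nat_lit 0x49⟩ (.node ⟨nat_lit 6, nat_lit 0x280030, nat_lit 0x211111, nat_lit 0, nat_lit 3, nat_lit 0x47⟩ (.node ⟨nat_lit 6, nat_lit 0x38, nat_lit 0x110113, nat_lit 0, nat_lit 4, nat_lit 0x48⟩ (t14_1879) (t14_10071)) (.node ⟨nat_lit 8, nat_lit 0x80002000c000c0, nat_lit 0x120020, nat_lit 1, nat_lit 4, nat_lit 0x49⟩ (t14_5975) (t14_14167))) (.node ⟨nat_lit 6, nat_lit 0x2000100010, nat_lit 0x1022, nat_lit 2, nat_lit 4, nat_lit 0x48⟩ (.node ⟨nat_lit 7, nat_lit 0x40001000600050, nat_lit 0x110203, nat_lit 1, nat_lit 4, nat_lit 0x48⟩ (t14_3927) (t14_12119)) (.node ⟨nat_lit 8, nat_lit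 0x400080006000a000d0, nat_lit 0x1020121, nat_lit 0, nat_lit 4, nat_lit 0x47⟩ (t14_8023) (.nil)))))
def t14_215 : Tr := .node ⟨nat_lit 8, nat_lit 0x80009000c0006000d0, nat_lit 0x10110122, nat_lit 0, nat_lit 4, nat_lit 0x47⟩ (.nil) (.nil)
def t14_8407 : Tr := .node ⟨nat_lit 5, nat_lit 0x1000100014, nat_lit 0x1223, nat_lit 6, nat_lit 4, nat_lit 0x48⟩ (.nil) (.nil)
def t14_4311 : Tr := .node ⟨nat_lit 9, nat_lit 0x80008001000100010801100190, nat_lit 0x102001101, nat_lit 1, nat_lit 4, nat_lit 0x48⟩ (.nil) (.nil)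
def t14_12503 : Tr := .node ⟨nat_lit 7, nat_lit 0x10006000500070, nat_lit 0x102003, nat_lit 1, nat_lit 4, nat_lit 0x46⟩ (.nil) (.nil)
def t14_2263 : Tr := .node ⟨nat_lit 8, nat_lit 0x400040008000200084, nat_lit 0x10100202, nat_lit 1, nat_lit 4, nat_lit 0x49⟩ (.nil) (.nil)
def t14_10455 : Tr := .node ⟨nat_lit 8, nat_lit 0x800020002000a000c0, nat_lit 0x32020, nat_lit 0, nat_lit 4, nat_lit 0x48⟩ (.nil) (.nil)
def t14_6359 : Tr := .node ⟨nat_lit 6, nat_lit 0x1000200030, nat_lit 0x101201, nat_lit 1, nat_lit 4, nat_lit 0x47⟩ (.nil) (.nil)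
def t14_14551 : Tr := .node ⟨nat_lit 9, nat_lit 0x100002001800140, nat_lit 0x112110, nat_lit 0, nat_lit 4, nat_lit 0x4a⟩ (.nil) (.nil)
def t14_1239 : Tr := .node ⟨nat_lit 5, nat_lit 0x1000100008, nat_lit 0x1221, nat_lit 8, nat_lit 4, nat_lit 0x48⟩ (.nil) (.nil)
def t14_9431 : Tr := .node ⟨nat_lit 8, nat_lit 0x40008000600060009000c0, nat_lit 0x1120013, nat_lit 0, nat_lit 4, nat_lit 0x47⟩ (.nil) (.nil)
def t14_5335 : Tr := .node ⟨nat_lit 6, nat_lit 0x300038, nat_lit 0x111103, nat_lit 3, nat_lit 4, nat_lit 0x48⟩ (.nil) (.nil)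
def t14_13527 : Tr := .node ⟨nat_lit 6, nat_lit 0x80030, nat_lit 0x1101, nat_lit 2, nat_lit 4, nat_lit 0x47⟩ (.nil) (.nil)
def t14_3287 : Tr := .node ⟨nat_lit 7, nat_lit 0x400020002000500060, nat_lit 0x12001, nat_lit 1, nat_lit 4, nat_lit 0x46⟩ (.nil) (.nil)
def t14_11479 : Tr := .node ⟨nat_lit 8, nat_lit 0x8000800040009000d0, nat_lit 0x10101100, nat_lit 1, nat_lit 4, nat_lit 0x48⟩ (.nil) (.nil)
def t14_7383 : Tr := .node ⟨nat_lit 7, nat_lit 0x20001000400062, nat_lit 0x2110001, nat_lit 1, nat_lit 4, nat_lit 0x48⟩ (.nil) (.nil)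
def t14_15575 : Tr := .node ⟨nat_lit 4, nat_lit 0, nat_lit 0x2111, nat_lit 0xf, nat_lit 4, nat_lit 0x4b⟩ (.nil) (.nil)
def t14_727 : Tr := .node ⟨nat_lit 6, nat_lit 0x1000200008, nat_lit 0x11041, nat_lit 0, nat_lit 4, nat_lit 0x48⟩ (.nil) (.nil)
def t14_8919 : Tr := .node ⟨nat_lit 8, nat_lit 0x10008000c000e0, nat_lit 0x100103, nat_lit 0, nat_lit 4, nat_lit 0x47⟩ (.nil) (.nil)
def t14_4823 : Tr := .node ⟨nat_lit 5, nat_lit 0x100008, nat_lit 0x13220, nat_lit 1, nat_lit 3, nat_lit 0x48⟩ (.nil) (.nil)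
def t14_13015 : Tr := .node ⟨nat_lit 7, nat_lit 0x4000440060, nat_lit 0x11300, nat_lit 2, nat_lit 4, nat_lit 0x49⟩ (.nil) (.nil)
def t14_2775 : Tr := .node ⟨nat_lit 7, nat_lit 0x20004000400068, nat_lit 0x111210, nat_lit 1, nat_lit 4, nat_lit 0x48⟩ (.nil) (.nil)
def t14_10967 : Tr := .node ⟨nat_lit 7, nat_lit 0x200040003000300048, nat_lit 0x103100, nat_lit 0, nat_lit 4, nat_lit 0x46⟩ (.nil) (.nil)
def t14_6871 : Tr := .node ⟨nat_lit 7, nat_lit 0x2000400060, nat_lit 0x111103, nat_lit 0, nat_lit 4, nat_lit 0x49⟩ (.nil) (.nil)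
def t14_15063 : Tr := .node ⟨nat_lit 6, nat_lit 0x2800180030, nat_lit 0x111112, nat_lit 1, nat_lit 3, nat_lit 0x45⟩ (.nil) (.nil)
def t14_1751 : Tr := .node ⟨nat_lit 6, nat_lit 0x20002000200010, nat_lit 0x12100, nat_lit 9, nat_lit 4, nat_lit 0x49⟩ (.nil) (.nil)
def t14_9943 : Tr := .node ⟨nat_lit 7, nat_lit 0x40004800680058, nat_lit 0x10033, nat_lit 2, nat_lit 4, nat_lit 0x45⟩ (.nil) (.nil)
def t14_5847 : Tr := .node ⟨nat_lit 8, nat_lit 0x8000c000a0, nat_lit 0x11121, nat_lit 1, nat_lit 4, nat_lit 0x49⟩ (.nil) (.nil)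
def t14_14039 : Tr := .node ⟨nat_lit 7, nat_lit 0x4000180064, nat_lit 0x1100101, nat_lit 0, nat_lit 4, nat_lit 0x47⟩ (.nil) (.nil)
def t14_3799 : Tr := .node ⟨nat_lit 7, nat_lit 0x400020002000700068, nat_lit 0x1021200, nat_lit 2, nat_lit 4, nat_lit 0x47⟩ (.nil) (.nil)
def t14_11991 : Tr := .node ⟨nat_lit 7, nat_lit 0x20004000400060, nat_lit 0x111210, nat_lit 3, nat_lit 4, nat_lit 0x49⟩ (.nil) (.nil)
def t14_7895 : Tr := .node ⟨nat_lit 6, nat_lit 0x1000200030, nat_lit 0x1012, nat_lit 4, nat_lit 4, nat_lit 0x47⟩ (.nil) (.nil)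
def t9_215 : Tr := .node ⟨nat_lit 5, nat_lit 0x10, nat_lit 0x3312, nat_lit 0, nat_lit 4, nat_lit 0x49⟩ (.node ⟨nat_lit 4, nat_lit 8, nat_lit 0x1113, nat_lit 1, nat_lit 3, nat_lit 0x46⟩ (.node ⟨nat_lit 7, nat_lit 0x40004000400048, nat_lit 0x311200, nat_lit 2, nat_lit 4, nat_lit 0x4a⟩ (.node ⟨nat_lit 5, nat_lit 0x100012, nat_lit 0x12131, nat_lit 3, nat_lit 4, nat_lit 0x49⟩ (.node ⟨nat_lit 6, nat_lit 0x2000200010, nat_lit 0x23102, nat_lit 3, nat_lit 4, nat_lit 0x4a⟩ (t14_215) (t14_8407)) (.node ⟨nat_lit 6, nat_lit 0x2000300028, nat_lit 0x110230, nat_lit 2, nat_lit 3, nat_lit 0x46⟩ (t14_4311) (t14_12503))) (.node ⟨nat_lit 5, nat_lit 0x1000100008, nat_lit 0x2200, nat_lit 0, nat_lit 3, nat_lit 0x45⟩ (.node ⟨nat_lit 8, nat_lit 0x4000400020008000e0, nat_lit 0x121103, nat_lit 0, nat_lit 4, nat_lit 0x48⟩ (t14_2263) (t14_10455)) (.node ⟨nat_lit 6, nat_lit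 0x2000080034, nat_lit 0x221100, nat_lit 0, nat_lit 4, nat_lit 0x48⟩ (t14_6359) (t14_14551)))) (.node ⟨nat_lit 6, nat_lit 0x1000200034, nat_lit 0x112011, nat_lit 1, nat_lit 4, nat_lit 0x47⟩ (.node ⟨nat_lit 6, nat_lit 0x1000280030, nat_lit 0x112212, nat_lit 0, nat_lit 4, nat_lit 0x48⟩ (.node ⟨nat_lit 5, nat_lit 0x40018, nat_lit 0x11103, nat_lit 3, nat_lit 4, nat_lit 0x47⟩ (t14_1239) (t14_9431)) (.node ⟨nat_lit 6, nat_lit 0x300030, nat_lit 0x112121, nat_lit 0, nat_lit 3, nat_lit 0x47⟩ (t14_5335) (t14_13527))) (.node ⟨nat_lit 7, nat_lit 0x20002000400040, nat_lit 0x1012021, nat_lit 0, nat_lit 4, nat_lit 0x49⟩ (.node ⟨nat_lit 6, nat_lit 0x1000200030, nat_lit 0x111203, nat_lit 4, nat_lit 4, nat_lit 0x49⟩ (t14_3287) (t14_11479)) (.node ⟨nat_lit 6, nat_lit 0x20001000100028, nat_lit 0x101202, nat_lit 4, nat_lit 4, nat_lit 0x47⟩ (t14_7383) (t14_15575)))))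 (.node ⟨nat_lit 4, nat_lit 8, nat_lit 0x1310, nat_lit 5, nat_lit 4, nat_lit 0x48⟩ (.node ⟨nat_lit 5, nat_lit 0x40018, nat_lit 0x21112, nat_lit 2, nat_lit 4, nat_lit 0x47⟩ (.node ⟨nat_lit 6, nat_lit 0x2000080030, nat_lit 0x120102, nat_lit 2, nat_lit 4, nat_lit 0x48⟩ (.node ⟨nat_lit 7, nat_lit 0x1000200040, nat_lit 0x1211101, nat_lit 0, nat_lit 4, nat_lit 0x4a⟩ (t14_727) (t14_8919)) (.node ⟨nat_lit 7, nat_lit 0x40002000500060, nat_lit 0x1000222, nat_lit 0, nat_lit 4, nat_lit 0x47⟩ (t14_4823) (t14_13015))) (.node ⟨nat_lit 6, nat_lit 0x2000080030, nat_lit 0x10012, nat_lit 2, nat_lit 4, nat_lit 0x46⟩ (.node ⟨nat_lit 6, nat_lit 0x280030, nat_lit 0x122130, nat_lit 0, nat_lit 4, nat_lit 0x49⟩ (t14_2775) (t14_10967)) (.node ⟨nat_lit 7, nat_lit 0x2800600050, nat_lit 0x1111022, nat_lit 1, nat_lit 4, nat_lit 0x48⟩ (t14_6871) (t14_15063)))) (.node ⟨nat_lit 4,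 nat_lit 0, nat_lit 0x1111, nat_lit 0, nat_lit 4, nat_lit 0x45⟩ (.node ⟨nat_lit 7, nat_lit 0x20004000100060, nat_lit 0x112011, nat_lit 1, nat_lit 4, nat_lit 0x48⟩ (.node ⟨nat_lit 5, nat_lit 0x18, nat_lit 0x20100, nat_lit 0, nat_lit 4, nat_lit 0x46⟩ (t14_1751) (t14_9943)) (.node ⟨nat_lit 7, nat_lit 0x4000600050, nat_lit 0x22212, nat_lit 0, nat_lit 4, nat_lit 0x49⟩ (t14_5847) (t14_14039))) (.node ⟨nat_lit 6, nat_lit 0x200032, nat_lit 0x220002, nat_lit 0, nat_lit 4, nat_lit 0x48⟩ (.node ⟨nat_lit 4, nat_lit 0x8000e, nat_lit 0x110, nat_lit 5, nat_lit 4, nat_lit 0x44⟩ (t14_3799) (t14_11991)) (.node ⟨nat_lit 5, nat_lit 0x1000140014, nat_lit 0x11200, nat_lit 9, nat_lit 4, nat_lit 0x48⟩ (t14_7895) (.nil)))))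
def t14_471 : Tr := .node ⟨nat_lit 6, nat_lit 0x2000080030, nat_lit 0x122110, nat_lit 1, nat_lit 4, nat_lit 0x49⟩ (.nil) (.nil)
def t14_8663 : Tr := .node ⟨nat_lit 4, nat_lit 0xc000c, nat_lit 0x20, nat_lit 7, nat_lit 4, nat_lit 0x44⟩ (.nil) (.nil)
def t14_4567 : Tr := .node ⟨nat_lit 6, nat_lit 0x3000300030, nat_lit 0x102221, nat_lit 2, nat_lit 4, nat_lit 0x47⟩ (.nil) (.nil)
def t14_12759 : Tr := .node ⟨nat_lit 9, nat_lit 0x8001000100011000a000c0, nat_lit 0x1200000, nat_lit 1, nat_lit 4, nat_lit 0x48⟩ (.nil) (.nil)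
def t14_2519 : Tr := .node ⟨nat_lit 7, nat_lit 0x40002000500064, nat_lit 0x213001, nat_lit 1, nat_lit 4, nat_lit 0x48⟩ (.nil) (.nil)
def t14_10711 : Tr := .node ⟨nat_lit 8, nat_lit 0x400080008000c000c8, nat_lit 0x11002, nat_lit 0, nat_lit 4, nat_lit 0x47⟩ (.nil) (.nil)
def t14_6615 : Tr := .node ⟨nat_lit 7, nat_lit 0x2000500060, nat_lit 0x12002, nat_lit 2, nat_lit 4, nat_lit 0x48⟩ (.nil) (.nil)
def t14_14807 : Tr := .node ⟨nat_lit 7, nat_lit 0x400020002000600060, nat_lit 0x30011, nat_lit 0, nat_lit 3, nat_lit 0x45⟩ (.nil) (.nil)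
def t14_1495 : Tr := .node ⟨nat_lit 7, nat_lit 0x40001000600068, nat_lit 0x101211, nat_lit 0, nat_lit 4, nat_lit 0x46⟩ (.nil) (.nil)
def t14_9687 : Tr := .node ⟨nat_lit 6, nat_lit 0x20001000100030, nat_lit 0x100401, nat_lit 0, nat_lit 3, nat_lit 0x46⟩ (.nil) (.nil)
def t14_5591 : Tr := .node ⟨nat_lit 6, nat_lit 0x3000300030, nat_lit 0x3220, nat_lit 3, nat_lit 4, nat_lit 0x47⟩ (.nil) (.nil)
def t14_13783 : Tr := .node ⟨nat_lit 7, nat_lit 0x40004800300068, nat_lit 0x10, nat_lit 1, nat_lit 4, nat_lit 0x44⟩ (.nil) (.nil)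
def t14_3543 : Tr := .node ⟨nat_lit 6, nat_lit 0x1000300028, nat_lit 0x11, nat_lit 0, nat_lit 4, nat_lit 0x44⟩ (.nil) (.nil)
def t14_11735 : Tr := .node ⟨nat_lit 2, nat_lit 2, nat_lit 3, nat_lit 0xf, nat_lit 4, nat_lit 0x46⟩ (.nil) (.nil)
def t14_7639 : Tr := .node ⟨nat_lit 5, nat_lit 0x1000080008, nat_lit 0x22, nat_lit 0xb, nat_lit 4, nat_lit 0x48⟩ (.nil) (.nil)
def t14_983 : Tr := .node ⟨nat_lit 4, nat_lit 0x80008, nat_lit 0x122, nat_lit 7, nat_lit 4, nat_lit 0x47⟩ (.nil) (.nil)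
def t14_9175 : Tr := .node ⟨nat_lit 9, nat_lit 0x8001000100011000c001a001a0, nat_lit 0x2110020, nat_lit 0, nat_lit 4, nat_lit 0x46⟩ (.nil) (.nil)
def t14_5079 : Tr := .node ⟨nat_lit 7, nat_lit 0x200040004000600068, nat_lit 0x31011, nat_lit 4, nat_lit 4, nat_lit 0x47⟩ (.nil) (.nil)
def t14_13271 : Tr := .node ⟨nat_lit 6, nat_lit 0x2000240030, nat_lit 0x1200, nat_lit 4, nat_lit 4, nat_lit 0x47⟩ (.nil) (.nil)
def t14_3031 : Tr := .node ⟨nat_lit 8, nat_lit 0x40008000a000c800c8, nat_lit 0x10021011, nat_lit 2, nat_lit 4, nat_lit 0x47⟩ (.nil) (.nil)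
def t14_11223 : Tr := .node ⟨nat_lit 7, nat_lit 0x4800600070, nat_lit 0x110103, nat_lit 2, nat_lit 4, nat_lit 0x47⟩ (.nil) (.nil)
def t14_7127 : Tr := .node ⟨nat_lit 8, nat_lit 0x800020002000c000c0, nat_lit 0x1021011, nat_lit 1, nat_lit 4, nat_lit 0x48⟩ (.nil) (.nil)
def t14_15319 : Tr := .node ⟨nat_lit 6, nat_lit 0x2000200030, nat_lit 0x12110, nat_lit 5, nat_lit 3, nat_lit 0x47⟩ (.nil) (.nil)
def t14_2007 : Tr := .node ⟨nat_lit 5, nat_lit 0x1000100018, nat_lit 0x1302, nat_lit 5, nat_lit 4, nat_lit 0x47⟩ (.nil) (.nil)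
def t14_10199 : Tr := .node ⟨nat_lit 7, nat_lit 0x2000400060, nat_lit 0x10220, nat_lit 0, nat_lit 4, nat_lit 0x48⟩ (.nil) (.nil)
def t14_6103 : Tr := .node ⟨nat_lit 3, nat_lit 4, nat_lit 0x30, nat_lit 0xb, nat_lit 4, nat_lit 0x47⟩ (.nil) (.nil)
def t14_14295 : Tr := .node ⟨nat_lit 8, nat_lit 0x400080002000c000c8, nat_lit 0x10010030, nat_lit 3, nat_lit 4, nat_lit 0x48⟩ (.nil) (.nil)
def t14_4055 : Tr := .node ⟨nat_lit 8, nat_lit 0x800020002000400040, nat_lit 0x1002011, nat_lit 0, nat_lit 4, nat_lit 0x49⟩ (.nil) (.nil)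
def t14_12247 : Tr := .node ⟨nat_lit 6, nat_lit 0x200020003000300028, nat_lit 0x12300, nat_lit 4, nat_lit 4, nat_lit 0x47⟩ (.nil) (.nil)
def t14_8151 : Tr := .node ⟨nat_lit 8, nat_lit 0x8000200020009000c0, nat_lit 0x1021030, nat_lit 0, nat_lit 4, nat_lit 0x48⟩ (.nil) (.nil)
def t9_471 : Tr := .node ⟨nat_lit 5, nat_lit 0x18, nat_lit 0x31312, nat_lit 0, nat_lit 4, nat_lit 0x4a⟩ (.node ⟨nat_lit 5, nat_lit 0x100014001c, nat_lit 0x31120, nat_lit 5, nat_lit 4, nat_lit 0x48⟩ (.node ⟨nat_lit 6, nat_lit 0x2000100032, nat_lit 0x22022, nat_lit 0, nat_lit 4, nat_lit 0x48⟩ (.node ⟨nat_lit 6, nat_lit 0x800280030, nat_lit 0x110202, nat_lit 0, nat_lit 4, nat_lit 0x46⟩ (.node ⟨nat_lit 7, nat_lit 0x20004000100060, nat_lit 0x120112, nat_lit 0, nat_lit 4, nat_lit 0x48⟩ (t14_471) (t14_8663)) (.node ⟨nat_lit 6, nat_lit 0x1000280034, nat_lit 0x21221, nat_lit 1, nat_lit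 4, nat_lit 0x47⟩ (t14_4567) (t14_12759))) (.node ⟨nat_lit 6, nat_lit 0x2000080034, nat_lit 0x100102, nat_lit 0, nat_lit 4, nat_lit 0x45⟩ (.node ⟨nat_lit 7, nat_lit 0x4000200060, nat_lit 0x1121113, nat_lit 0, nat_lit 4, nat_lit 0x4a⟩ (t14_2519) (t14_10711)) (.node ⟨nat_lit 6, nat_lit 0x200030, nat_lit 0x2131, nat_lit 1, nat_lit 3, nat_lit 0x47⟩ (t14_6615) (t14_14807)))) (.node ⟨nat_lit 6, nat_lit 0x200020, nat_lit 0x21010, nat_lit 0, nat_lit 4, nat_lit 0x48⟩ (.node ⟨nat_lit 6, nat_lit 0x2000200010, nat_lit 0x121213, nat_lit 1, nat_lit 4, nat_lit 0x4a⟩ (.node ⟨nat_lit 5, nat_lit 0x40018, nat_lit 0x11113, nat_lit 3, nat_lit 3, nat_lit 0x46⟩ (t14_1495) (t14_9687)) (.node ⟨nat_lit 6, nat_lit 0x2000200030, nat_lit 0x22310, nat_lit 0, nat_lit 3, nat_lit 0x47⟩ (t14_5591) (t14_13783))) (.node ⟨nat_lit 6, nat_lit 0x20001000100028, nat_lit 0x113210, nat_lit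 0, nat_lit 4, nat_lit 0x48⟩ (.node ⟨nat_lit 6, nat_lit 0x80030, nat_lit 0x1100, nat_lit 0, nat_lit 4, nat_lit 0x46⟩ (t14_3543) (t14_11735)) (.node ⟨nat_lit 6, nat_lit 0x200030, nat_lit 0x211120, nat_lit 0, nat_lit 3, nat_lit 0x48⟩ (t14_7639) (.nil))))) (.node ⟨nat_lit 6, nat_lit 0x2000240024, nat_lit 0x131111, nat_lit 4, nat_lit 4, nat_lit 0x49⟩ (.node ⟨nat_lit 7, nat_lit 0x4000200020, nat_lit 0x121020, nat_lit 1, nat_lit 4, nat_lit 0x4a⟩ (.node ⟨nat_lit 5, nat_lit 0x10, nat_lit 0x11111, nat_lit 9, nat_lit 4, nat_lit 0x4a⟩ (.node ⟨nat_lit 6, nat_lit 0x800200030, nat_lit 0x11301, nat_lit 0, nat_lit 4, nat_lit 0x47⟩ (t14_983) (t14_9175)) (.node ⟨nat_lit 6, nat_lit 0, nat_lit 0x222111, nat_lit 1, nat_lit 3, nat_lit 0x4b⟩ (t14_5079) (t14_13271))) (.node ⟨nat_lit 6, nat_lit 0x2000100024, nat_lit 0x111201, nat_lit 1, nat_lit 4, nat_lit 0x48⟩ (.node ⟨nat_lit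 5, nat_lit 0x1000140014, nat_lit 0x21211, nat_lit 7, nat_lit 4, nat_lit 0x49⟩ (t14_3031) (t14_11223)) (.node ⟨nat_lit 7, nat_lit 0x40001000480060, nat_lit 0x1112102, nat_lit 3, nat_lit 4, nat_lit 0x49⟩ (t14_7127) (t14_15319)))) (.node ⟨nat_lit 6, nat_lit 0x1000200030, nat_lit 0x112111, nat_lit 1, nat_lit 4, nat_lit 0x48⟩ (.node ⟨nat_lit 6, nat_lit 0x80030, nat_lit 0x301111, nat_lit 1, nat_lit 4, nat_lit 0x49⟩ (.node ⟨nat_lit 6, nat_lit 0x2000300038, nat_lit 0x102113, nat_lit 3, nat_lit 4, nat_lit 0x47⟩ (t14_2007) (t14_10199)) (.node ⟨nat_lit 8, nat_lit 0x8000800020002000c0, nat_lit 0x120210, nat_lit 0, nat_lit 4, nat_lit 0x49⟩ (t14_6103) (t14_14295))) (.node ⟨nat_lit 7, nat_lit 0x1000400062, nat_lit 0x2101032, nat_lit 0, nat_lit 4, nat_lit 0x4a⟩ (.node ⟨nat_lit 8, nat_lit 0x20003000a000c0, nat_lit 0x11000031, nat_lit 0, nat_lit 4, nat_lit 0x48⟩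 (t14_4055) (t14_12247)) (.node ⟨nat_lit 6, nat_lit 0x2000200020, nat_lit 0x11220, nat_lit 1, nat_lit 3, nat_lit 0x47⟩ (t14_8151) (.nil)))))
def t14_55 : Tr := .node ⟨nat_lit 4, nat_lit 0x80008, nat_lit 0x1221, nat_lit 0xc, nat_lit 4, nat_lit 0x49⟩ (.nil) (.nil)
def t14_8247 : Tr := .node ⟨nat_lit 8, nat_lit 0x80004000880088, nat_lit 0x1101031, nat_lit 0, nat_lit 4, nat_lit 0x49⟩ (.nil) (.nil)
def t14_4151 : Tr := .node ⟨nat_lit 8, nat_lit 0x4000400080008000880060, nat_lit 0x10201101, nat_lit 1, nat_lit 4, nat_lit 0x48⟩ (.nil) (.nil)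
def t14_12343 : Tr := .node ⟨nat_lit 7, nat_lit 0x20002000200040, nat_lit 0x1014100, nat_lit 0, nat_lit 3, nat_lit 0x48⟩ (.nil) (.nil)
def t14_2103 : Tr := .node ⟨nat_lit 6, nat_lit 0x20002000200010, nat_lit 0x12200, nat_lit 7, nat_lit 4, nat_lit 0x49⟩ (.nil) (.nil)
def t14_10295 : Tr := .node ⟨nat_lit 8, nat_lit 0x800020009000c000d0, nat_lit 0x10000002, nat_lit 0, nat_lit 4, nat_lit 0x46⟩ (.nil) (.nil)
def t14_6199 : Tr := .node ⟨nat_lit 8, nat_lit 0x40002000100080, nat_lit 0x10010011, nat_lit 0, nat_lit 4, nat_lit 0x49⟩ (.nil) (.nil)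
def t14_14391 : Tr := .node ⟨nat_lit 7, nat_lit 0x40002000500060, nat_lit 0x2103, nat_lit 2, nat_lit 4, nat_lit 0x47⟩ (.nil) (.nil)
def t14_1079 : Tr := .node ⟨nat_lit 6, nat_lit 0x20002000100028, nat_lit 0x101120, nat_lit 3, nat_lit 4, nat_lit 0x47⟩ (.nil) (.nil)
def t14_9271 : Tr := .node ⟨nat_lit 8, nat_lit 0x4000800080009000c000d0, nat_lit 0x210021, nat_lit 2, nat_lit 4, nat_lit 0x47⟩ (.nil) (.nil)
def t14_5175 : Tr := .node ⟨nat_lit 5, nat_lit 0x100018, nat_lit 0x1130, nat_lit 3, nat_lit 4, nat_lit 0x47⟩ (.nil) (.nil)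
def t14_13367 : Tr := .node ⟨nat_lit 6, nat_lit 0x20002000100030, nat_lit 0x200030, nat_lit 1, nat_lit 3, nat_lit 0x46⟩ (.nil) (.nil)
def t14_3127 : Tr := .node ⟨nat_lit 6, nat_lit 0x1000280030, nat_lit 0x110010, nat_lit 2, nat_lit 4, nat_lit 0x46⟩ (.nil) (.nil)
def t14_11319 : Tr := .node ⟨nat_lit 6, nat_lit 0x2000300038, nat_lit 0x12102, nat_lit 3, nat_lit 4, nat_lit 0x47⟩ (.nil) (.nil)
def t14_7223 : Tr := .node ⟨nat_lit 7, nat_lit 0x40001000200020, nat_lit 0x110111, nat_lit 7, nat_lit 4, nat_lit 0x4a⟩ (.nil) (.nil)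
def t14_15415 : Tr := .node ⟨nat_lit 9, nat_lit 0x800100012000c001a001a001c0, nat_lit 0x101110001, nat_lit 0, nat_lit 4, nat_lit 0x46⟩ (.nil) (.nil)
def t14_567 : Tr := .node ⟨nat_lit 7, nat_lit 0x10004000600060, nat_lit 0x22, nat_lit 1, nat_lit 4, nat_lit 0x46⟩ (.nil) (.nil)
def t14_8759 : Tr := .node ⟨nat_lit 7, nat_lit 0x40002000100060, nat_lit 0x100002, nat_lit 2, nat_lit 4, nat_lit 0x47⟩ (.nil) (.nil)
def t14_4663 : Tr := .node ⟨nat_lit 8, nat_lit 0x200080008400c0, nat_lit 0x10020121, nat_lit 0, nat_lit 4, nat_lit 0x49⟩ (.nil) (.nil)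
def t14_12855 : Tr := .node ⟨nat_lit 7, nat_lit 0x1000600050, nat_lit 0x3020, nat_lit 2, nat_lit 4, nat_lit 0x48⟩ (.nil) (.nil)
def t14_2615 : Tr := .node ⟨nat_lit 6, nat_lit 0x800280030, nat_lit 0x110120, nat_lit 1, nat_lit 4, nat_lit 0x46⟩ (.nil) (.nil)
def t14_10807 : Tr := .node ⟨nat_lit 5, nat_lit 0x1000100014, nat_lit 0x1202, nat_lit 0xb, nat_lit 4, nat_lit 0x48⟩ (.nil) (.nil)
def t14_6711 : Tr := .node ⟨nat_lit 7, nat_lit 0x4000440044, nat_lit 0x111210, nat_lit 1, nat_lit 4, nat_lit 0x49⟩ (.nil) (.nil)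
def t14_14903 : Tr := .node ⟨nat_lit 6, nat_lit 0x2000240034, nat_lit 0x101111, nat_lit 4, nat_lit 4, nat_lit 0x47⟩ (.nil) (.nil)
def t14_1591 : Tr := .node ⟨nat_lit 8, nat_lit 0x800080004000400090, nat_lit 0x110101, nat_lit 1, nat_lit 4, nat_lit 0x48⟩ (.nil) (.nil)
def t14_9783 : Tr := .node ⟨nat_lit 8, nat_lit 0xa000a0003000c0, nat_lit 0x1012021, nat_lit 0, nat_lit 4, nat_lit 0x47⟩ (.nil) (.nil)
def t14_5687 : Tr := .node ⟨nat_lit 7, nat_lit 0x1000100060, nat_lit 0x1001102, nat_lit 0, nat_lit 4, nat_lit 0x48⟩ (.nil) (.nil)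
def t14_13879 : Tr := .node ⟨nat_lit 6, nat_lit 0x1000280034, nat_lit 0x302, nat_lit 3, nat_lit 4, nat_lit 0x46⟩ (.nil) (.nil)
def t14_3639 : Tr := .node ⟨nat_lit 6, nat_lit 0x1000280030, nat_lit 0x21110, nat_lit 1, nat_lit 4, nat_lit 0x47⟩ (.nil) (.nil)
def t14_11831 : Tr := .node ⟨nat_lit 6, nat_lit 0x20002000280030, nat_lit 0x130, nat_lit 5, nat_lit 4, nat_lit 0x46⟩ (.nil) (.nil)
def t14_7735 : Tr := .node ⟨nat_lit 5, nat_lit 0x100008001a, nat_lit 0x120, nat_lit 5, nat_lit 4, nat_lit 0x45⟩ (.nil) (.nil)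
def t9_55 : Tr := .node ⟨nat_lit 3, nat_lit 6, nat_lit 0x221, nat_lit 5, nat_lit 3, nat_lit 0x45⟩ (.node ⟨nat_lit 5, nat_lit 0x18, nat_lit 0x11302, nat_lit 0, nat_lit 4, nat_lit 0x48⟩ (.node ⟨nat_lit 6, nat_lit 0x300030, nat_lit 0x3120, nat_lit 2, nat_lit 4, nat_lit 0x48⟩ (.node ⟨nat_lit 6, nat_lit 0x2000200010, nat_lit 0x12111, nat_lit 1, nat_lit 4, nat_lit 0x48⟩ (.node ⟨nat_lit 5, nat_lit 0x18, nat_lit 0x20204, nat_lit 0, nat_lit 4, nat_lit 0x48⟩ (t14_55) (t14_8247)) (.node ⟨nat_lit 6, nat_lit 0x2000100008, nat_lit 0x101000, nat_lit 0, nat_lit 3, nat_lit 0x46⟩ (t14_4151) (t14_12343))) (.node ⟨nat_lit 6, nat_lit 0x2000240018, nat_lit 0x122112, nat_lit 0, nat_lit 4, nat_lit 0x48⟩ (.node ⟨nat_lit 6, nat_lit 0x80030, nat_lit 0x100121, nat_lit 1, nat_lit 4, nat_lit 0x47⟩ (t14_2103) (t14_10295)) (.node ⟨nat_lit 8, nat_lit 0x8000c000a000c8, nat_lit 0x1021200,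 nat_lit 0, nat_lit 4, nat_lit 0x48⟩ (t14_6199) (t14_14391)))) (.node ⟨nat_lit 4, nat_lit 0x80004, nat_lit 0x202, nat_lit 4, nat_lit 4, nat_lit 0x46⟩ (.node ⟨nat_lit 5, nat_lit 0x100010, nat_lit 0x22111, nat_lit 2, nat_lit 3, nat_lit 0x48⟩ (.node ⟨nat_lit 6, nat_lit 0x800300030, nat_lit 0x1330, nat_lit 0, nat_lit 4, nat_lit 0x46⟩ (t14_1079) (t14_9271)) (.node ⟨nat_lit 4, nat_lit 0xc, nat_lit 0x2031, nat_lit 6, nat_lit 3, nat_lit 0x47⟩ (t14_5175) (t14_13367))) (.node ⟨nat_lit 5, nat_lit 0x100008, nat_lit 0x1200, nat_lit 0xa, nat_lit 4, nat_lit 0x49⟩ (.node ⟨nat_lit 2, nat_lit 2, nat_lit 0x21, nat_lit 9, nat_lit 4, nat_lit 0x45⟩ (t14_3127) (t14_11319)) (.node ⟨nat_lit 7, nat_lit 0x1000600060, nat_lit 0x1111121, nat_lit 1, nat_lit 4, nat_lit 0x49⟩ (t14_7223) (t14_15415))))) (.node ⟨nat_lit 5, nat_lit 0x40018, nat_lit 0x10331, nat_lit 3, nat_lit 4, nat_lit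 0x49⟩ (.node ⟨nat_lit 5, nat_lit 0x10, nat_lit 0x21110, nat_lit 2, nat_lit 3, nat_lit 0x48⟩ (.node ⟨nat_lit 6, nat_lit 0x1000200022, nat_lit 0x2012, nat_lit 0, nat_lit 4, nat_lit 0x46⟩ (.node ⟨nat_lit 8, nat_lit 0x800040, nat_lit 0x12111111, nat_lit 0, nat_lit 4, nat_lit 0x4d⟩ (t14_567) (t14_8759)) (.node ⟨nat_lit 6, nat_lit 0x300030, nat_lit 0x112111, nat_lit 0, nat_lit 4, nat_lit 0x48⟩ (t14_4663) (t14_12855))) (.node ⟨nat_lit 6, nat_lit 0x800300038, nat_lit 0x100112, nat_lit 2, nat_lit 4, nat_lit 0x45⟩ (.node ⟨nat_lit 6, nat_lit 0x2000100008, nat_lit 0x101301, nat_lit 3, nat_lit 3, nat_lit 0x47⟩ (t14_2615) (t14_10807)) (.node ⟨nat_lit 8, nat_lit 0x800080, nat_lit 0x2211110, nat_lit 0, nat_lit 4, nat_lit 0x4d⟩ (t14_6711) (t14_14903)))) (.node ⟨nat_lit 5, nat_lit 0x40018, nat_lit 0x10213, nat_lit 0, nat_lit 4, nat_lit 0x46⟩ (.node ⟨nat_lit 7, nat_lit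 0x20004000100060, nat_lit 0x220111, nat_lit 1, nat_lit 4, nat_lit 0x49⟩ (.node ⟨nat_lit 5, nat_lit 0x100018001c, nat_lit 0x1113, nat_lit 5, nat_lit 4, nat_lit 0x45⟩ (t14_1591) (t14_9783)) (.node ⟨nat_lit 7, nat_lit 0x4000200060, nat_lit 0x121021, nat_lit 3, nat_lit 4, nat_lit 0x4a⟩ (t14_5687) (t14_13879))) (.node ⟨nat_lit 6, nat_lit 0x2000100010, nat_lit 0x22021, nat_lit 1, nat_lit 3, nat_lit 0x48⟩ (.node ⟨nat_lit 5, nat_lit 0x180018, nat_lit 0x100, nat_lit 5, nat_lit 4, nat_lit 0x45⟩ (t14_3639) (t14_11831)) (.node ⟨nat_lit 9, nat_lit 0x400080010000200184, nat_lit 0x110002001, nat_lit 3, nat_lit 4, nat_lit 0x4a⟩ (t14_7735) (.nil)))))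
def t14_311 : Tr := .node ⟨nat_lit 8, nat_lit 0x3000a000c0, nat_lit 0x1102112, nat_lit 0, nat_lit 4, nat_lit 0x49⟩ (.nil) (.nil)
def t14_8503 : Tr := .node ⟨nat_lit 7, nat_lit 0x400040002000500050, nat_lit 0x111031, nat_lit 4, nat_lit 4, nat_lit 0x48⟩ (.nil) (.nil)
def t14_4407 : Tr := .node ⟨nat_lit 7, nat_lit 0x4000100064, nat_lit 0x1101100, nat_lit 1, nat_lit 4, nat_lit 0x48⟩ (.nil) (.nil)
def t14_12599 : Tr := .node ⟨nat_lit 7, nat_lit 0x20003000500068, nat_lit 0x100020, nat_lit 0, nat_lit 4, nat_lit 0x45⟩ (.nil) (.nil)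
def t14_2359 : Tr := .node ⟨nat_lit 7, nat_lit 0x20005000680068, nat_lit 0x210310, nat_lit 0, nat_lit 4, nat_lit 0x46⟩ (.nil) (.nil)
def t14_10551 : Tr := .node ⟨nat_lit 8, nat_lit 0x2000a0006000c0, nat_lit 0x11220, nat_lit 0, nat_lit 4, nat_lit 0x47⟩ (.nil) (.nil)
def t14_6455 : Tr := .node ⟨nat_lit 7, nat_lit 0x40004000480060, nat_lit 0x111011, nat_lit 3, nat_lit 4, nat_lit 0x48⟩ (.nil) (.nil)
def t14_14647 : Tr := .node ⟨nat_lit 7, nat_lit 0x40002000480070, nat_lit 0x112101, nat_lit 0, nat_lit 4, nat_lit 0x47⟩ (.nil) (.nil)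
def t14_1335 : Tr := .node ⟨nat_lit 7, nat_lit 0x20004000600068, nat_lit 0x111112, nat_lit 1, nat_lit 4, nat_lit 0x47⟩ (.nil) (.nil)
def t14_9527 : Tr := .node ⟨nat_lit 7, nat_lit 0x40001000680068, nat_lit 0x1011021, nat_lit 0, nat_lit 4, nat_lit 0x46⟩ (.nil) (.nil)
def t14_5431 : Tr := .node ⟨nat_lit 7, nat_lit 0x4000400040, nat_lit 0x111320, nat_lit 1, nat_lit 4, nat_lit 0x4b⟩ (.nil) (.nil)
def t14_13623 : Tr := .node ⟨nat_lit 7, nat_lit 0x10002000400070, nat_lit 2, nat_lit 1, nat_lit 4, nat_lit 0x45⟩ (.nil) (.nil)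
def t14_3383 : Tr := .node ⟨nat_lit 7, nat_lit 0x20002000400060, nat_lit 0x30001, nat_lit 2, nat_lit 4, nat_lit 0x48⟩ (.nil) (.nil)
def t14_11575 : Tr := .node ⟨nat_lit 5, nat_lit 0x40018, nat_lit 4, nat_lit 3, nat_lit 4, nat_lit 0x45⟩ (.nil) (.nil)
def t14_7479 : Tr := .node ⟨nat_lit 9, nat_lit 0x40008001000184, nat_lit 0x110110011, nat_lit 1, nat_lit 4, nat_lit 0x4b⟩ (.nil) (.nil)
def t14_823 : Tr := .node ⟨nat_lit 7, nat_lit 0x200020004000400064, nat_lit 0x1031111, nat_lit 2, nat_lit 4, nat_lit 0x48⟩ (.nil) (.nil)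
def t14_9015 : Tr := .node ⟨nat_lit 7, nat_lit 0x4000400040006000600050, nat_lit 0x111101, nat_lit 7, nat_lit 4, nat_lit 0x48⟩ (.nil) (.nil)
def t14_4919 : Tr := .node ⟨nat_lit 8, nat_lit 0x400080, nat_lit 0x11111100, nat_lit 4, nat_lit 4, nat_lit 0x4d⟩ (.nil) (.nil)
def t14_13111 : Tr := .node ⟨nat_lit 5, nat_lit 0x800100010, nat_lit 0x31210, nat_lit 0, nat_lit 3, nat_lit 0x47⟩ (.nil) (.nil)
def t14_2871 : Tr := .node ⟨nat_lit 8, nat_lit 0x800020009000c000a0, nat_lit 0x31210, nat_lit 0, nat_lit 4, nat_lit 0x48⟩ (.nil) (.nil)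
def t14_11063 : Tr := .node ⟨nat_lit 7, nat_lit 0x1000600060, nat_lit 0x1111020, nat_lit 1, nat_lit 4, nat_lit 0x49⟩ (.nil) (.nil)
def t14_6967 : Tr := .node ⟨nat_lit 6, nat_lit 0x2000240030, nat_lit 0x121001, nat_lit 3, nat_lit 4, nat_lit 0x48⟩ (.nil) (.nil)
def t14_15159 : Tr := .node ⟨nat_lit 9, nat_lit 0x10000400040012001200180, nat_lit 0x10110101, nat_lit 1, nat_lit 4, nat_lit 0x48⟩ (.nil) (.nil)
def t14_1847 : Tr := .node ⟨nat_lit 6, nat_lit 0x1000280030, nat_lit 0x3031, nat_lit 0, nat_lit 4, nat_lit 0x47⟩ (.nil) (.nil)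
def t14_10039 : Tr := .node ⟨nat_lit 6, nat_lit 0x2800280030, nat_lit 0x10202, nat_lit 8, nat_lit 4, nat_lit 0x47⟩ (.nil) (.nil)
def t14_5943 : Tr := .node ⟨nat_lit 9, nat_lit 0x10001000180, nat_lit 0x1111210, nat_lit 0, nat_lit 4, nat_lit 0x4c⟩ (.nil) (.nil)
def t14_14135 : Tr := .node ⟨nat_lit 6, nat_lit 0x20002000200010, nat_lit 0x2002, nat_lit 3, nat_lit 4, nat_lit 0x47⟩ (.nil) (.nil)
def t14_3895 : Tr := .node ⟨nat_lit 7, nat_lit 0x200040004000680068, nat_lit 0x1031010, nat_lit 3, nat_lit 4, nat_lit 0x47⟩ (.nil) (.nil)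
def t14_12087 : Tr := .node ⟨nat_lit 7, nat_lit 0x4000100060, nat_lit 0x111300, nat_lit 0, nat_lit 4, nat_lit 0x49⟩ (.nil) (.nil)
def t14_7991 : Tr := .node ⟨nat_lit 3, nat_lit 0x40006, nat_lit 0x24, nat_lit 0xb, nat_lit 4, nat_lit 0x46⟩ (.nil) (.nil)
def t9_311 : Tr := .node ⟨nat_lit 4, nat_lit 8, nat_lit 0x1321, nat_lit 6, nat_lit 4, nat_lit 0x49⟩ (.node ⟨nat_lit 5, nat_lit 0x18, nat_lit 0x30213, nat_lit 1, nat_lit 4, nat_lit 0x49⟩ (.node ⟨nat_lit 4, nat_lit 0, nat_lit 0x3221, nat_lit 0xa, nat_lit 4, nat_lit 0x4b⟩ (.node ⟨nat_lit 3, nat_lit 4, nat_lit 0x112, nat_lit 8, nat_lit 4, nat_lit 0x46⟩ (.node ⟨nat_lit 6, nat_lit 0x2000200010, nat_lit 0x121111, nat_lit 5, nat_lit 4, nat_lit 0x4a⟩ (t14_311) (t14_8503)) (.node ⟨nat_lit 7, nat_lit 0x40002000500068, nat_lit 0x101110, nat_lit 1, nat_lit 4, nat_lit 0x46⟩ (t14_4407) (t14_12599))) (.node ⟨nat_lit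 7, nat_lit 0x40001000480060, nat_lit 0x2012112, nat_lit 0, nat_lit 4, nat_lit 0x49⟩ (.node ⟨nat_lit 6, nat_lit 0x20002000100030, nat_lit 0x13033, nat_lit 2, nat_lit 4, nat_lit 0x48⟩ (t14_2359) (t14_10551)) (.node ⟨nat_lit 5, nat_lit 0x100018, nat_lit 0x1220, nat_lit 7, nat_lit 4, nat_lit 0x48⟩ (t14_6455) (t14_14647)))) (.node ⟨nat_lit 5, nat_lit 0x18, nat_lit 0x20111, nat_lit 1, nat_lit 4, nat_lit 0x47⟩ (.node ⟨nat_lit 5, nat_lit 0x80010, nat_lit 0x22233, nat_lit 0, nat_lit 4, nat_lit 0x4a⟩ (.node ⟨nat_lit 4, nat_lit 0x80004, nat_lit 0x1003, nat_lit 5, nat_lit 3, nat_lit 0x45⟩ (t14_1335) (t14_9527)) (.node ⟨nat_lit 7, nat_lit 0x1000600050, nat_lit 0x12112, nat_lit 1, nat_lit 4, nat_lit 0x48⟩ (t14_5431) (t14_13623))) (.node ⟨nat_lit 7, nat_lit 0x4000100060, nat_lit 0x21120, nat_lit 0, nat_lit 4, nat_lit 0x49⟩ (.node ⟨nat_lit 6, nat_lit 0x300030,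 nat_lit 0x112130, nat_lit 0, nat_lit 3, nat_lit 0x47⟩ (t14_3383) (t14_11575)) (.node ⟨nat_lit 8, nat_lit 0x2000400080008000c4, nat_lit 0x1001202, nat_lit 1, nat_lit 4, nat_lit 0x48⟩ (t14_7479) (.nil))))) (.node ⟨nat_lit 7, nat_lit 0x4000400060, nat_lit 0x31101, nat_lit 1, nat_lit 4, nat_lit 0x49⟩ (.node ⟨nat_lit 5, nat_lit 0x1000100008, nat_lit 0x22102, nat_lit 1, nat_lit 3, nat_lit 0x47⟩ (.node ⟨nat_lit 3, nat_lit 0, nat_lit 0x111, nat_lit 7, nat_lit 4, nat_lit 0x46⟩ (.node ⟨nat_lit 6, nat_lit 0x100020, nat_lit 0x221102, nat_lit 2, nat_lit 4, nat_lit 0x4b⟩ (t14_823) (t14_9015)) (.node ⟨nat_lit 8, nat_lit 0x80002000c0, nat_lit 0x11111002, nat_lit 1, nat_lit 4, nat_lit 0x4b⟩ (t14_4919) (t14_13111))) (.node ⟨nat_lit 7, nat_lit 0x10004000500064, nat_lit 0x1100121, nat_lit 0, nat_lit 4, nat_lit 0x47⟩ (.node ⟨nat_lit 6, nat_lit 0x1000200022, nat_lit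 0x101021, nat_lit 3, nat_lit 4, nat_lit 0x48⟩ (t14_2871) (t14_11063)) (.node ⟨nat_lit 8, nat_lit 0x8000400090009000d0, nat_lit 0x10110202, nat_lit 0, nat_lit 4, nat_lit 0x48⟩ (t14_6967) (t14_15159)))) (.node ⟨nat_lit 6, nat_lit 0x200030, nat_lit 0x121110, nat_lit 1, nat_lit 4, nat_lit 0x49⟩ (.node ⟨nat_lit 7, nat_lit 0x40004000100060, nat_lit 0x212111, nat_lit 0, nat_lit 4, nat_lit 0x49⟩ (.node ⟨nat_lit 7, nat_lit 0x40002000200068, nat_lit 0x1011103, nat_lit 0, nat_lit 4, nat_lit 0x47⟩ (t14_1847) (t14_10039)) (.node ⟨nat_lit 7, nat_lit 0x800600050, nat_lit 0x21012, nat_lit 1, nat_lit 4, nat_lit 0x48⟩ (t14_5943) (t14_14135))) (.node ⟨nat_lit 4, nat_lit 0x8000c, nat_lit 0x122, nat_lit 4, nat_lit 4, nat_lit 0x45⟩ (.node ⟨nat_lit 7, nat_lit 0x20005000680070, nat_lit 0x112003, nat_lit 0, nat_lit 4, nat_lit 0x46⟩ (t14_3895) (t14_12087)) (.node ⟨nat_lit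 9, nat_lit 0x100004000400180, nat_lit 0x100112101, nat_lit 0, nat_lit 4, nat_lit 0x4b⟩ (t14_7991) (.nil)))))
def t14_183 : Tr := .node ⟨nat_lit 6, nat_lit 0x20002000100030, nat_lit 0x102221, nat_lit 2, nat_lit 4, nat_lit 0x48⟩ (.nil) (.nil)
def t14_8375 : Tr := .node ⟨nat_lit 7, nat_lit 0x4000100064, nat_lit 0x11213, nat_lit 0, nat_lit 4, nat_lit 0x48⟩ (.nil) (.nil)
def t14_4279 : Tr := .node ⟨nat_lit 9, nat_lit 0x800080002000400100, nat_lit 0x101110100, nat_lit 3, nat_lit 4, nat_lit 0x4b⟩ (.nil) (.nil)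
def t14_12471 : Tr := .node ⟨nat_lit 8, nat_lit 0x200020008000c0, nat_lit 0x10031, nat_lit 1, nat_lit 4, nat_lit 0x49⟩ (.nil) (.nil)
def t14_2231 : Tr := .node ⟨nat_lit 7, nat_lit 0x200020002000400042, nat_lit 0x2022000, nat_lit 3, nat_lit 4, nat_lit 0x49⟩ (.nil) (.nil)
def t14_10423 : Tr := .node ⟨nat_lit 8, nat_lit 0x80004000a000c0, nat_lit 0x12002, nat_lit 4, nat_lit 4, nat_lit 0x49⟩ (.nil) (.nil)
def t14_6327 : Tr := .node ⟨nat_lit 6, nat_lit 0x10001000200038, nat_lit 0x11020, nat_lit 2, nat_lit 4, nat_lit 0x46⟩ (.nil) (.nil)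
def t14_14519 : Tr := .node ⟨nat_lit 8, nat_lit 0x800020002000c0, nat_lit 0x13000, nat_lit 1, nat_lit 4, nat_lit 0x49⟩ (.nil) (.nil)
def t14_1207 : Tr := .node ⟨nat_lit 7, nat_lit 0x1800500060, nat_lit 0x101212, nat_lit 2, nat_lit 4, nat_lit 0x47⟩ (.nil) (.nil)
def t14_9399 : Tr := .node ⟨nat_lit 8, nat_lit 0x4000800080008000880090, nat_lit 0x11110, nat_lit 8, nat_lit 4, nat_lit 0x49⟩ (.nil) (.nil)
def t14_5303 : Tr := .node ⟨nat_lit 8, nat_lit 0x20008000c000c4, nat_lit 0x11010120, nat_lit 1, nat_lit 4, nat_lit 0x49⟩ (.nil) (.nil)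
def t14_13495 : Tr := .node ⟨nat_lit 8, nat_lit 0x200080001000c0, nat_lit 0x300, nat_lit 4, nat_lit 4, nat_lit 0x49⟩ (.nil) (.nil)
def t14_3255 : Tr := .node ⟨nat_lit 7, nat_lit 0x40004000400020, nat_lit 0x112110, nat_lit 5, nat_lit 4, nat_lit 0x4a⟩ (.nil) (.nil)
def t14_11447 : Tr := .node ⟨nat_lit 6, nat_lit 0x800200030, nat_lit 0x110110, nat_lit 2, nat_lit 4, nat_lit 0x47⟩ (.nil) (.nil)
def t14_7351 : Tr := .node ⟨nat_lit 6, nat_lit 0x80030, nat_lit 0x112201, nat_lit 0, nat_lit 4, nat_lit 0x49⟩ (.nil) (.nil)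
def t14_15543 : Tr := .node ⟨nat_lit 8, nat_lit 0x800080, nat_lit 0x1111110, nat_lit 5, nat_lit 4, nat_lit 0x4d⟩ (.nil) (.nil)
def t14_695 : Tr := .node ⟨nat_lit 7, nat_lit 0x40001000100060, nat_lit 0x3201, nat_lit 0, nat_lit 4, nat_lit 0x47⟩ (.nil) (.nil)
def t14_8887 : Tr := .node ⟨nat_lit 8, nat_lit 0x80004000400088, nat_lit 0x102102, nat_lit 0, nat_lit 4, nat_lit 0x49⟩ (.nil) (.nil)
def t14_4791 : Tr := .node ⟨nat_lit 5, nat_lit 0x140018, nat_lit 0x12121, nat_lit 6, nat_lit 4, nat_lit 0x48⟩ (.nil) (.nil)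
def t14_12983 : Tr := .node ⟨nat_lit 7, nat_lit 0x20004000440044, nat_lit 0x10210, nat_lit 3, nat_lit 4, nat_lit 0x48⟩ (.nil) (.nil)
def t14_2743 : Tr := .node ⟨nat_lit 7, nat_lit 0x20004000600064, nat_lit 0x20201, nat_lit 1, nat_lit 4, nat_lit 0x47⟩ (.nil) (.nil)
def t14_10935 : Tr := .node ⟨nat_lit 7, nat_lit 0x400020005000500068, nat_lit 0x2101, nat_lit 2, nat_lit 4, nat_lit 0x45⟩ (.nil) (.nil)
def t14_6839 : Tr := .node ⟨nat_lit 7, nat_lit 0x2000200040, nat_lit 0x1011200, nat_lit 4, nat_lit 4, nat_lit 0x4a⟩ (.nil) (.nil)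
def t14_15031 : Tr := .node ⟨nat_lit 7, nat_lit 0x200040003000300048, nat_lit 0x1012110, nat_lit 1, nat_lit 4, nat_lit 0x46⟩ (.nil) (.nil)
def t14_1719 : Tr := .node ⟨nat_lit 7, nat_lit 0x40004800300060, nat_lit 0x1011113, nat_lit 0, nat_lit 4, nat_lit 0x47⟩ (.nil) (.nil)
def t14_9911 : Tr := .node ⟨nat_lit 6, nat_lit 0x2000200020, nat_lit 0x11430, nat_lit 0, nat_lit 3, nat_lit 0x48⟩ (.nil) (.nil)
def t14_5815 : Tr := .node ⟨nat_lit 5, nat_lit 0x80010, nat_lit 0x10120, nat_lit 7, nat_lit 4, nat_lit 0x48⟩ (.nil) (.nil)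
def t14_14007 : Tr := .node ⟨nat_lit 7, nat_lit 0x4000200020, nat_lit 0x11220, nat_lit 0, nat_lit 4, nat_lit 0x49⟩ (.nil) (.nil)
def t14_3767 : Tr := .node ⟨nat_lit 7, nat_lit 0x40004000500060, nat_lit 0x102201, nat_lit 1, nat_lit 3, nat_lit 0x46⟩ (.nil) (.nil)
def t14_11959 : Tr := .node ⟨nat_lit 3, nat_lit 4, nat_lit 0x13, nat_lit 0xc, nat_lit 4, nat_lit 0x47⟩ (.nil) (.nil)
def t14_7863 : Tr := .node ⟨nat_lit 8, nat_lit 0x400080008000200088, nat_lit 0x101101, nat_lit 1, nat_lit 4, nat_lit 0x48⟩ (.nil) (.nil)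
def t9_183 : Tr := .node ⟨nat_lit 3, nat_lit 0, nat_lit 0x321, nat_lit 9, nat_lit 4, nat_lit 0x49⟩ (.node ⟨nat_lit 6, nat_lit 0x300030, nat_lit 0x113122, nat_lit 0, nat_lit 4, nat_lit 0x49⟩ (.node ⟨nat_lit 7, nat_lit 0x4000500060, nat_lit 0x103201, nat_lit 1, nat_lit 4, nat_lit 0x49⟩ (.node ⟨nat_lit 4, nat_lit 0xc, nat_lit 0x2114, nat_lit 5, nat_lit 4, nat_lit 0x48⟩ (.node ⟨nat_lit 7, nat_lit 0x40002000500060, nat_lit 0x122120, nat_lit 0, nat_lit 4, nat_lit 0x48⟩ (t14_183) (t14_8375)) (.node ⟨nat_lit 5, nat_lit 0x1000080014, nat_lit 0x1002, nat_lit 2, nat_lit 4, nat_lit 0x44⟩ (t14_4279) (t14_12471))) (.node ⟨nat_lit 5, nat_lit 0x1000100008, nat_lit 0x12213, nat_lit 4, nat_lit 4, nat_lit 0x49⟩ (.node ⟨nat_lit 5, nat_lit 0x40018, nat_lit 0x11031, nat_lit 1, nat_lit 4, nat_lit 0x46⟩ (t14_2231) (t14_10423)) (.node ⟨nat_lit 6, nat_lit 0x800300030, nat_lit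 0x102032, nat_lit 2, nat_lit 4, nat_lit 0x47⟩ (t14_6327) (t14_14519)))) (.node ⟨nat_lit 5, nat_lit 0x100010, nat_lit 0x11121, nat_lit 3, nat_lit 3, nat_lit 0x47⟩ (.node ⟨nat_lit 7, nat_lit 0x4000400064, nat_lit 0x1211121, nat_lit 0, nat_lit 4, nat_lit 0x4a⟩ (.node ⟨nat_lit 5, nat_lit 0x100008, nat_lit 0x1104, nat_lit 6, nat_lit 4, nat_lit 0x49⟩ (t14_1207) (t14_9399)) (.node ⟨nat_lit 7, nat_lit 0x20004000600064, nat_lit 0x1112112, nat_lit 0, nat_lit 4, nat_lit 0x48⟩ (t14_5303) (t14_13495))) (.node ⟨nat_lit 6, nat_lit 0x800300030, nat_lit 0x2230, nat_lit 1, nat_lit 4, nat_lit 0x47⟩ (.node ⟨nat_lit 7, nat_lit 0x40004000100068, nat_lit 0x110001, nat_lit 2, nat_lit 4, nat_lit 0x47⟩ (t14_3255) (t14_11447)) (.node ⟨nat_lit 5, nat_lit 0x100010, nat_lit 0x11110, nat_lit 4, nat_lit 4, nat_lit 0x48⟩ (t14_7351) (t14_15543))))) (.node ⟨nat_lit 3, nat_lit 6,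 nat_lit 0x322, nat_lit 8, nat_lit 4, nat_lit 0x48⟩ (.node ⟨nat_lit 6, nat_lit 0x240038, nat_lit 0x121012, nat_lit 1, nat_lit 4, nat_lit 0x47⟩ (.node ⟨nat_lit 7, nat_lit 0x10001000400060, nat_lit 0x211120, nat_lit 0, nat_lit 4, nat_lit 0x48⟩ (.node ⟨nat_lit 6, nat_lit 0x800280030, nat_lit 0x12102, nat_lit 1, nat_lit 4, nat_lit 0x47⟩ (t14_695) (t14_8887)) (.node ⟨nat_lit 7, nat_lit 0x20002000500068, nat_lit 0x102010, nat_lit 1, nat_lit 4, nat_lit 0x47⟩ (t14_4791) (t14_12983))) (.node ⟨nat_lit 2, nat_lit 0, nat_lit 0x11, nat_lit 8, nat_lit 4, nat_lit 0x44⟩ (.node ⟨nat_lit 8, nat_lit 0x80008000400040009000a0, nat_lit 0x1113011, nat_lit 0, nat_lit 4, nat_lit 0x48⟩ (t14_2743) (t14_10935)) (.node ⟨nat_lit 6, nat_lit 0x800080030, nat_lit 0x110112, nat_lit 1, nat_lit 4, nat_lit 0x47⟩ (t14_6839) (t14_15031)))) (.node ⟨nat_lit 6, nat_lit 0x2000100010, nat_lit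 0x11022, nat_lit 3, nat_lit 4, nat_lit 0x49⟩ (.node ⟨nat_lit 7, nat_lit 0x20006000500068, nat_lit 0x122111, nat_lit 0, nat_lit 4, nat_lit 0x47⟩ (.node ⟨nat_lit 5, nat_lit 0x800100018, nat_lit 0x11, nat_lit 5, nat_lit 4, nat_lit 0x45⟩ (t14_1719) (t14_9911)) (.node ⟨nat_lit 7, nat_lit 0x6000600060, nat_lit 0x22210, nat_lit 2, nat_lit 4, nat_lit 0x48⟩ (t14_5815) (t14_14007))) (.node ⟨nat_lit 7, nat_lit 0x2000600050, nat_lit 0x2012102, nat_lit 0, nat_lit 4, nat_lit 0x49⟩ (.node ⟨nat_lit 7, nat_lit 0x1000600050, nat_lit 0x111003, nat_lit 0, nat_lit 4, nat_lit 0x48⟩ (t14_3767) (t14_11959)) (.node ⟨nat_lit 6, nat_lit 0x2000300030, nat_lit 0x101121, nat_lit 3, nat_lit 3, nat_lit 0x46⟩ (t14_7863) (.nil)))))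
def t14_439 : Tr := .node ⟨nat_lit 7, nat_lit 0x40001000680070, nat_lit 0x1201012, nat_lit 1, nat_lit 4, nat_lit 0x47⟩ (.nil) (.nil)
def t14_8631 : Tr := .node ⟨nat_lit 5, nat_lit 0x10001c001c, nat_lit 0x20, nat_lit 5, nat_lit 4, nat_lit 0x43⟩ (.nil) (.nil)
def t14_4535 : Tr := .node ⟨nat_lit 4, nat_lit 0x8000c, nat_lit 0x1212, nat_lit 0xa, nat_lit 4, nat_lit 0x48⟩ (.nil) (.nil)
def t14_12727 : Tr := .node ⟨nat_lit 7, nat_lit 0x800500060, nat_lit 0x1101102, nat_lit 0, nat_lit 4, nat_lit 0x48⟩ (.nil) (.nil)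
def t14_2487 : Tr := .node ⟨nat_lit 7, nat_lit 0x40001000600050, nat_lit 0x13210, nat_lit 1, nat_lit 4, nat_lit 0x48⟩ (.nil) (.nil)
def t14_10679 : Tr := .node ⟨nat_lit 6, nat_lit 0x10001000200022, nat_lit 0x100000, nat_lit 2, nat_lit 4, nat_lit 0x45⟩ (.nil) (.nil)
def t14_6583 : Tr := .node ⟨nat_lit 5, nat_lit 0x100018, nat_lit 0x2130, nat_lit 4, nat_lit 4, nat_lit 0x48⟩ (.nil) (.nil)
def t14_14775 : Tr := .node ⟨nat_lit 8, nat_lit 0x80002000c000a0, nat_lit 0x111112, nat_lit 1, nat_lit 4, nat_lit 0x49⟩ (.nil) (.nil)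
def t14_1463 : Tr := .node ⟨nat_lit 8, nat_lit 0x40008000800060009000e0, nat_lit 0x1120011, nat_lit 0, nat_lit 4, nat_lit 0x47⟩ (.nil) (.nil)
def t14_9655 : Tr := .node ⟨nat_lit 8, nat_lit 0x2000800080004000c0, nat_lit 0x2003, nat_lit 1, nat_lit 4, nat_lit 0x48⟩ (.nil) (.nil)
def t14_5559 : Tr := .node ⟨nat_lit 8, nat_lit 0x8000c000c0, nat_lit 0x1111220, nat_lit 0, nat_lit 4, nat_lit 0x4a⟩ (.nil) (.nil)
def t14_13751 : Tr := .node ⟨nat_lit 6, nat_lit 0x1000200034, nat_lit 0x1200, nat_lit 2, nat_lit 4, nat_lit 0x46⟩ (.nil) (.nil)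
def t14_3511 : Tr := .node ⟨nat_lit 6, nat_lit 0x2000240018, nat_lit 0x100, nat_lit 0, nat_lit 4, nat_lit 0x44⟩ (.nil) (.nil)
def t14_11703 : Tr := .node ⟨nat_lit 7, nat_lit 0x1000500060, nat_lit 0x11120, nat_lit 2, nat_lit 4, nat_lit 0x48⟩ (.nil) (.nil)
def t14_7607 : Tr := .node ⟨nat_lit 8, nat_lit 0x2000800040008800c0, nat_lit 0x1213, nat_lit 0, nat_lit 4, nat_lit 0x47⟩ (.nil) (.nil)
def t14_951 : Tr := .node ⟨nat_lit 5, nat_lit 0x1000100008, nat_lit 0x1211, nat_lit 9, nat_lit 4, nat_lit 0x48⟩ (.nil) (.nil)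
def t14_9143 : Tr := .node ⟨nat_lit 7, nat_lit 0x10006000500050, nat_lit 0x1022, nat_lit 1, nat_lit 4, nat_lit 0x46⟩ (.nil) (.nil)
def t14_5047 : Tr := .node ⟨nat_lit 6, nat_lit 0x800300030, nat_lit 0x111041, nat_lit 0, nat_lit 4, nat_lit 0x48⟩ (.nil) (.nil)
def t14_13239 : Tr := .node ⟨nat_lit 7, nat_lit 0x4000200064, nat_lit 0x11300, nat_lit 0, nat_lit 4, nat_lit 0x48⟩ (.nil) (.nil)
def t14_2999 : Tr := .node ⟨nat_lit 7, nat_lit 0x400040004000200050, nat_lit 0x121101, nat_lit 4, nat_lit 4, nat_lit 0x49⟩ (.nil) (.nil)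
def t14_11191 : Tr := .node ⟨nat_lit 7, nat_lit 0x4800300070, nat_lit 0x101102, nat_lit 0, nat_lit 4, nat_lit 0x46⟩ (.nil) (.nil)
def t14_7095 : Tr := .node ⟨nat_lit 6, nat_lit 0x300030, nat_lit 0x203111, nat_lit 2, nat_lit 4, nat_lit 0x49⟩ (.nil) (.nil)
def t14_15287 : Tr := .node ⟨nat_lit 8, nat_lit 0x400020002000c000a0, nat_lit 0x10002012, nat_lit 1, nat_lit 4, nat_lit 0x48⟩ (.nil) (.nil)
def t14_1975 : Tr := .node ⟨nat_lit 7, nat_lit 0x4000600050, nat_lit 0x21112, nat_lit 3, nat_lit 4, nat_lit 0x49⟩ (.nil) (.nil)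
def t14_10167 : Tr := .node ⟨nat_lit 6, nat_lit 0x2000280030, nat_lit 0x10020, nat_lit 4, nat_lit 4, nat_lit 0x46⟩ (.nil) (.nil)
def t14_6071 : Tr := .node ⟨nat_lit 8, nat_lit 0x800080004000c0, nat_lit 0x1111012, nat_lit 0, nat_lit 4, nat_lit 0x4a⟩ (.nil) (.nil)
def t14_14263 : Tr := .node ⟨nat_lit 9, nat_lit 0x10000800080008001400190, nat_lit 0x111102, nat_lit 0, nat_lit 4, nat_lit 0x48⟩ (.nil) (.nil)
def t14_4023 : Tr := .node ⟨nat_lit 8, nat_lit 0x8000800040004000c400c8, nat_lit 0x1101112, nat_lit 0, nat_lit 4, nat_lit 0x47⟩ (.nil) (.nil)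
def t14_12215 : Tr := .node ⟨nat_lit 7, nat_lit 0x10002000500060, nat_lit 0x1111120, nat_lit 0, nat_lit 4, nat_lit 0x48⟩ (.nil) (.nil)
def t14_8119 : Tr := .node ⟨nat_lit 6, nat_lit 0x10002000240024, nat_lit 0x141, nat_lit 5, nat_lit 4, nat_lit 0x47⟩ (.nil) (.nil)
def t9_439 : Tr := .node ⟨nat_lit 5, nat_lit 0x80010, nat_lit 0x22322, nat_lit 1, nat_lit 4, nat_lit 0x4a⟩ (.node ⟨nat_lit 4, nat_lit 0x40008, nat_lit 0x1020, nat_lit 3, nat_lit 3, nat_lit 0x44⟩ (.node ⟨nat_lit 4, nat_lit 0x80008, nat_lit 0x222, nat_lit 3, nat_lit 3, nat_lit 0x45⟩ (.node ⟨nat_lit 6, nat_lit 0x20001000100028, nat_lit 0x113220, nat_lit 0, nat_lit 4, nat_lit 0x48⟩ (.node ⟨nat_lit 6, nat_lit 0x1000280030, nat_lit 0x2210, nat_lit 0, nat_lit 4, nat_lit 0x46⟩ (t14_439) (t14_8631)) (.node ⟨nat_lit 7, nat_lit 0x40001000100060, nat_lit 0x1202102, nat_lit 1, nat_lit 4, nat_lit 0x49⟩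 (t14_4535) (t14_12727))) (.node ⟨nat_lit 4, nat_lit 0x80008, nat_lit 0x1131, nat_lit 7, nat_lit 4, nat_lit 0x48⟩ (.node ⟨nat_lit 6, nat_lit 0xc0030, nat_lit 0x111101, nat_lit 0, nat_lit 4, nat_lit 0x47⟩ (t14_2487) (t14_10679)) (.node ⟨nat_lit 9, nat_lit 0x800100010001040108, nat_lit 0x2100220, nat_lit 0, nat_lit 4, nat_lit 0x4a⟩ (t14_6583) (t14_14775)))) (.node ⟨nat_lit 5, nat_lit 0x18, nat_lit 0x30111, nat_lit 2, nat_lit 4, nat_lit 0x48⟩ (.node ⟨nat_lit 7, nat_lit 0x40004000200048, nat_lit 0x1221110, nat_lit 1, nat_lit 4, nat_lit 0x4a⟩ (.node ⟨nat_lit 7, nat_lit 0x1000080060, nat_lit 0x1111003, nat_lit 0, nat_lit 4, nat_lit 0x49⟩ (t14_1463) (t14_9655)) (.node ⟨nat_lit 7, nat_lit 0x40004000200048, nat_lit 0x1112101, nat_lit 3, nat_lit 4, nat_lit 0x4a⟩ (t14_5559) (t14_13751))) (.node ⟨nat_lit 6, nat_lit 0x1000100020, nat_lit 0x102001, nat_lit 6,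 nat_lit 4, nat_lit 0x49⟩ (.node ⟨nat_lit 6, nat_lit 0x1000280034, nat_lit 0x110000, nat_lit 3, nat_lit 4, nat_lit 0x46⟩ (t14_3511) (t14_11703)) (.node ⟨nat_lit 6, nat_lit 0x200030, nat_lit 0x111121, nat_lit 6, nat_lit 4, nat_lit 0x4a⟩ (t14_7607) (.nil))))) (.node ⟨nat_lit 6, nat_lit 0x80030, nat_lit 0x200321, nat_lit 0, nat_lit 4, nat_lit 0x49⟩ (.node ⟨nat_lit 5, nat_lit 0x100008, nat_lit 0x2211, nat_lit 3, nat_lit 4, nat_lit 0x48⟩ (.node ⟨nat_lit 7, nat_lit 0x400020002000500068, nat_lit 0x1111111, nat_lit 1, nat_lit 4, nat_lit 0x47⟩ (.node ⟨nat_lit 3, nat_lit 4, nat_lit 0x113, nat_lit 0xf, nat_lit 4, nat_lit 0x48⟩ (t14_951) (t14_9143)) (.node ⟨nat_lit 6, nat_lit 0x200020, nat_lit 0x122110, nat_lit 5, nat_lit 4, nat_lit 0x4b⟩ (t14_5047) (t14_13239))) (.node ⟨nat_lit 6, nat_lit 0x2000100010, nat_lit 0x112020, nat_lit 2, nat_lit 4, nat_lit 0x49⟩ (.node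 ⟨nat_lit 7, nat_lit 0x400020, nat_lit 0x111102, nat_lit 3, nat_lit 4, nat_lit 0x4b⟩ (t14_2999) (t14_11191)) (.node ⟨nat_lit 7, nat_lit 0x20004000440030, nat_lit 0x1010112, nat_lit 0, nat_lit 4, nat_lit 0x47⟩ (t14_7095) (t14_15287)))) (.node ⟨nat_lit 6, nat_lit 0x2000080030, nat_lit 0x12101, nat_lit 1, nat_lit 4, nat_lit 0x47⟩ (.node ⟨nat_lit 7, nat_lit 0x40004800300068, nat_lit 0x1021112, nat_lit 1, nat_lit 4, nat_lit 0x47⟩ (.node ⟨nat_lit 6, nat_lit 0x1000200030, nat_lit 0x12311, nat_lit 3, nat_lit 4, nat_lit 0x49⟩ (t14_1975) (t14_10167)) (.node ⟨nat_lit 7, nat_lit 0x10001000500060, nat_lit 0x102102, nat_lit 0, nat_lit 4, nat_lit 0x47⟩ (t14_6071) (t14_14263))) (.node ⟨nat_lit 3, nat_lit 4, nat_lit 0x310, nat_lit 0xd, nat_lit 3, nat_lit 0x47⟩ (.node ⟨nat_lit 6, nat_lit 0x1000080020, nat_lit 0x101020, nat_lit 0, nat_lit 4, nat_lit 0x47⟩ (t14_4023)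 (t14_12215)) (.node ⟨nat_lit 8, nat_lit 0x800080002000c000d0, nat_lit 0x1110121, nat_lit 1, nat_lit 4, nat_lit 0x48⟩ (t14_8119) (.nil)))))
def t14_119 : Tr := .node ⟨nat_lit 6, nat_lit 0x280030, nat_lit 0x121111, nat_lit 3, nat_lit 4, nat_lit 0x49⟩ (.nil) (.nil)
def t14_8311 : Tr := .node ⟨nat_lit 6, nat_lit 0x2000280034, nat_lit 0x202, nat_lit 4, nat_lit 4, nat_lit 0x46⟩ (.nil) (.nil)
def t14_4215 : Tr := .node ⟨nat_lit 9, nat_lit 0x800080008001000100010800c0, nat_lit 0x101101110, nat_lit 2, nat_lit 4, nat_lit 0x49⟩ (.nil) (.nil)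
def t14_12407 : Tr := .node ⟨nat_lit 7, nat_lit 0x4000600050, nat_lit 0x1003, nat_lit 1, nat_lit 4, nat_lit 0x47⟩ (.nil) (.nil)
def t14_2167 : Tr := .node ⟨nat_lit 6, nat_lit 0x20002000100028, nat_lit 0x12102, nat_lit 6, nat_lit 4, nat_lit 0x48⟩ (.nil) (.nil)
def t14_10359 : Tr := .node ⟨nat_lit 8, nat_lit 0x800020009000a000d0, nat_lit 0x1020002, nat_lit 0, nat_lit 4, nat_lit 0x47⟩ (.nil) (.nil)
def t14_6263 : Tr := .node ⟨nat_lit 6, nat_lit 0x2000200024, nat_lit 0x111110, nat_lit 5, nat_lit 4, nat_lit 0x49⟩ (.nil) (.nil)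
def t14_14455 : Tr := .node ⟨nat_lit 5, nat_lit 0x10, nat_lit 0x3112, nat_lit 2, nat_lit 3, nat_lit 0x48⟩ (.nil) (.nil)
def t14_1143 : Tr := .node ⟨nat_lit 7, nat_lit 0x4000600050, nat_lit 0x1121, nat_lit 1, nat_lit 4, nat_lit 0x47⟩ (.nil) (.nil)
def t14_9335 : Tr := .node ⟨nat_lit 7, nat_lit 0x400040002000240050, nat_lit 0x100010, nat_lit 0, nat_lit 4, nat_lit 0x45⟩ (.nil) (.nil)
def t14_5239 : Tr := .node ⟨nat_lit 8, nat_lit 0x80008000400040004000a0, nat_lit 0x202101, nat_lit 0, nat_lit 4, nat_lit 0x48⟩ (.nil) (.nil)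
def t14_13431 : Tr := .node ⟨nat_lit 7, nat_lit 0x10004000440060, nat_lit 0x1200, nat_lit 3, nat_lit 4, nat_lit 0x47⟩ (.nil) (.nil)
def t14_3191 : Tr := .node ⟨nat_lit 9, nat_lit 0x1000080008000800040, nat_lit 0x1102110, nat_lit 0, nat_lit 4, nat_lit 0x4b⟩ (.nil) (.nil)
def t14_11383 : Tr := .node ⟨nat_lit 7, nat_lit 0x40004000100060, nat_lit 0x100011, nat_lit 1, nat_lit 4, nat_lit 0x47⟩ (.nil) (.nil)
def t14_7287 : Tr := .node ⟨nat_lit 6, nat_lit 0x800300030, nat_lit 0x201211, nat_lit 0, nat_lit 4, nat_lit 0x47⟩ (.nil) (.nil)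
def t14_15479 : Tr := .node ⟨nat_lit 8, nat_lit 0x800088008800c0, nat_lit 0x11110102, nat_lit 0, nat_lit 4, nat_lit 0x49⟩ (.nil) (.nil)
def t14_631 : Tr := .node ⟨nat_lit 6, nat_lit 0x20002000200010, nat_lit 0x13101, nat_lit 7, nat_lit 4, nat_lit 0x49⟩ (.nil) (.nil)
def t14_8823 : Tr := .node ⟨nat_lit 6, nat_lit 0x1000200030, nat_lit 0x2004, nat_lit 2, nat_lit 4, nat_lit 0x47⟩ (.nil) (.nil)
def t14_4727 : Tr := .node ⟨nat_lit 9, nat_lit 0x200080008001400188, nat_lit 0x110001012, nat_lit 0, nat_lit 4, nat_lit 0x49⟩ (.nil) (.nil)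
def t14_12919 : Tr := .node ⟨nat_lit 7, nat_lit 0x4000600064, nat_lit 0x111200, nat_lit 0, nat_lit 4, nat_lit 0x48⟩ (.nil) (.nil)
def t14_2679 : Tr := .node ⟨nat_lit 7, nat_lit 0x10006000600070, nat_lit 0x1010103, nat_lit 1, nat_lit 4, nat_lit 0x46⟩ (.nil) (.nil)
def t14_10871 : Tr := .node ⟨nat_lit 6, nat_lit 0x20002000300038, nat_lit 0x2030, nat_lit 3, nat_lit 4, nat_lit 0x46⟩ (.nil) (.nil)
def t14_6775 : Tr := .node ⟨nat_lit 7, nat_lit 0x4000100060, nat_lit 0x11010, nat_lit 2, nat_lit 4, nat_lit 0x48⟩ (.nil) (.nil)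
def t14_14967 : Tr := .node ⟨nat_lit 9, nat_lit 0x4001000100011001100180, nat_lit 0x10011111, nat_lit 1, nat_lit 4, nat_lit 0x49⟩ (.nil) (.nil)
def t14_1655 : Tr := .node ⟨nat_lit 7, nat_lit 0x40002000500060, nat_lit 0x212, nat_lit 0, nat_lit 4, nat_lit 0x46⟩ (.nil) (.nil)
def t14_9847 : Tr := .node ⟨nat_lit 7, nat_lit 0x5000600060, nat_lit 0x1210, nat_lit 0, nat_lit 4, nat_lit 0x46⟩ (.nil) (.nil)
def t14_5751 : Tr := .node ⟨nat_lit 7, nat_lit 0x4000400060, nat_lit 0x111221, nat_lit 2, nat_lit 4, nat_lit 0x4a⟩ (.nil) (.nil)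
def t14_13943 : Tr := .node ⟨nat_lit 8, nat_lit 0x40004000a000c8, nat_lit 0x12002, nat_lit 0, nat_lit 4, nat_lit 0x48⟩ (.nil) (.nil)
def t14_3703 : Tr := .node ⟨nat_lit 8, nat_lit 0x8000800040004000c0, nat_lit 0x210201, nat_lit 1, nat_lit 4, nat_lit 0x49⟩ (.nil) (.nil)
def t14_11895 : Tr := .node ⟨nat_lit 5, nat_lit 0x1000100008, nat_lit 0x303, nat_lit 5, nat_lit 4, nat_lit 0x47⟩ (.nil) (.nil)
def t14_7799 : Tr := .node ⟨nat_lit 9, nat_lit 0x1000080004000200020, nat_lit 0x22, nat_lit 3, nat_lit 4, nat_lit 0x4a⟩ (.nil) (.nil)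
def t9_119 : Tr := .node ⟨nat_lit 6, nat_lit 0x20001000100028, nat_lit 0x311220, nat_lit 0, nat_lit 4, nat_lit 0x49⟩ (.node ⟨nat_lit 7, nat_lit 0x40004000200020, nat_lit 0x131022, nat_lit 0, nat_lit 4, nat_lit 0x4a⟩ (.node ⟨nat_lit 7, nat_lit 0x4000600060, nat_lit 0x32210, nat_lit 0, nat_lit 4, nat_lit 0x49⟩ (.node ⟨nat_lit 6, nat_lit 0x20001000100010, nat_lit 0x101220, nat_lit 0, nat_lit 3, nat_lit 0x46⟩ (.node ⟨nat_lit 6, nat_lit 0x20002000100032, nat_lit 0x22220, nat_lit 2, nat_lit 4, nat_lit 0x48⟩ (t14_119) (t14_8311)) (.node ⟨nat_lit 6, nat_lit 0x2000080030, nat_lit 0x101004, nat_lit 0, nat_lit 4, nat_lit 0x47⟩ (t14_4215) (t14_12407))) (.node ⟨nat_lit 6, nat_lit 0x300030, nat_lit 0x102211, nat_lit 0, nat_lit 4, nat_lit 0x48⟩ (.node ⟨nat_lit 6, nat_lit 0x800280030, nat_lit 0x10201, nat_lit 3, nat_lit 4, nat_lit 0x46⟩ (t14_2167) (t14_10359))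 (.node ⟨nat_lit 7, nat_lit 0x200020004000400040, nat_lit 0x122211, nat_lit 1, nat_lit 4, nat_lit 0x49⟩ (t14_6263) (t14_14455)))) (.node ⟨nat_lit 6, nat_lit 0x2000200010, nat_lit 0x112212, nat_lit 0, nat_lit 4, nat_lit 0x49⟩ (.node ⟨nat_lit 5, nat_lit 0x18, nat_lit 0x22111, nat_lit 5, nat_lit 4, nat_lit 0x4a⟩ (.node ⟨nat_lit 6, nat_lit 0x2000080030, nat_lit 0x111131, nat_lit 1, nat_lit 4, nat_lit 0x48⟩ (t14_1143) (t14_9335)) (.node ⟨nat_lit 6, nat_lit 0x800300030, nat_lit 0x102221, nat_lit 3, nat_lit 4, nat_lit 0x48⟩ (t14_5239) (t14_13431))) (.node ⟨nat_lit 5, nat_lit 0x1000080014, nat_lit 0x21100, nat_lit 4, nat_lit 4, nat_lit 0x47⟩ (.node ⟨nat_lit 7, nat_lit 0x40001000600050, nat_lit 0x13310, nat_lit 0, nat_lit 4, nat_lit 0x48⟩ (t14_3191) (t14_11383)) (.node ⟨nat_lit 5, nat_lit 0x800100018, nat_lit 0x1110, nat_lit 5, nat_lit 4, nat_lit 0x46⟩ (t14_7287)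 (t14_15479))))) (.node ⟨nat_lit 5, nat_lit 0x800100012, nat_lit 0x30021, nat_lit 7, nat_lit 4, nat_lit 0x49⟩ (.node ⟨nat_lit 5, nat_lit 0x100012, nat_lit 0x21121, nat_lit 4, nat_lit 4, nat_lit 0x49⟩ (.node ⟨nat_lit 5, nat_lit 0x100018, nat_lit 0x1211, nat_lit 4, nat_lit 4, nat_lit 0x47⟩ (.node ⟨nat_lit 7, nat_lit 0x40002000200010, nat_lit 0x120310, nat_lit 1, nat_lit 4, nat_lit 0x4a⟩ (t14_631) (t14_8823)) (.node ⟨nat_lit 7, nat_lit 0x40001000480060, nat_lit 0x1012200, nat_lit 0, nat_lit 4, nat_lit 0x48⟩ (t14_4727) (t14_12919))) (.node ⟨nat_lit 6, nat_lit 0x1000200038, nat_lit 0x11112, nat_lit 1, nat_lit 4, nat_lit 0x46⟩ (.node ⟨nat_lit 7, nat_lit 0x20004000440030, nat_lit 0x1121003, nat_lit 2, nat_lit 4, nat_lit 0x49⟩ (t14_2679) (t14_10871)) (.node ⟨nat_lit 7, nat_lit 0x40004000500068, nat_lit 0x101102, nat_lit 2, nat_lit 4, nat_lit 0x47⟩ (t14_6775)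 (t14_14967)))) (.node ⟨nat_lit 6, nat_lit 0x200010, nat_lit 0x121121, nat_lit 1, nat_lit 4, nat_lit 0x4a⟩ (.node ⟨nat_lit 5, nat_lit 0x18, nat_lit 0x30101, nat_lit 0, nat_lit 4, nat_lit 0x47⟩ (.node ⟨nat_lit 7, nat_lit 0x20004000400064, nat_lit 0x10001, nat_lit 1, nat_lit 4, nat_lit 0x46⟩ (t14_1655) (t14_9847)) (.node ⟨nat_lit 7, nat_lit 0x40002000200048, nat_lit 0x2112200, nat_lit 0, nat_lit 4, nat_lit 0x4a⟩ (t14_5751) (t14_13943))) (.node ⟨nat_lit 7, nat_lit 0x40002000100060, nat_lit 0x110211, nat_lit 0, nat_lit 4, nat_lit 0x48⟩ (.node ⟨nat_lit 6, nat_lit 0x2000200010, nat_lit 0x20100, nat_lit 0, nat_lit 4, nat_lit 0x47⟩ (t14_3703) (t14_11895)) (.node ⟨nat_lit 7, nat_lit 0x1000600060, nat_lit 0x1111021, nat_lit 1, nat_lit 4, nat_lit 0x49⟩ (t14_7799) (.nil)))))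
def t14_375 : Tr := .node ⟨nat_lit 7, nat_lit 0x2000400062, nat_lit 0x1120111, nat_lit 0, nat_lit 4, nat_lit 0x49⟩ (.nil) (.nil)
def t14_8567 : Tr := .node ⟨nat_lit 8, nat_lit 0x800040009000a000d0, nat_lit 0x10102, nat_lit 1, nat_lit 4, nat_lit 0x46⟩ (.nil) (.nil)
def t14_4471 : Tr := .node ⟨nat_lit 8, nat_lit 0x8000400050005000a000c0, nat_lit 0x11211101, nat_lit 1, nat_lit 4, nat_lit 0x48⟩ (.nil) (.nil)
def t14_12663 : Tr := .node ⟨nat_lit 5, nat_lit 0x800080010, nat_lit 0x10310, nat_lit 8, nat_lit 4, nat_lit 0x48⟩ (.nil) (.nil)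
def t14_2423 : Tr := .node ⟨nat_lit 6, nat_lit 0x10001000200030, nat_lit 0x102120, nat_lit 5, nat_lit 4, nat_lit 0x48⟩ (.nil) (.nil)
def t14_10615 : Tr := .node ⟨nat_lit 7, nat_lit 0x20005000300068, nat_lit 0x100201, nat_lit 0, nat_lit 4, nat_lit 0x45⟩ (.nil) (.nil)
def t14_6519 : Tr := .node ⟨nat_lit 7, nat_lit 0x4000100064, nat_lit 0x1111111, nat_lit 1, nat_lit 4, nat_lit 0x49⟩ (.nil) (.nil)
def t14_14711 : Tr := .node ⟨nat_lit 6, nat_lit 0x20002000100030, nat_lit 0x11112, nat_lit 6, nat_lit 4, nat_lit 0x48⟩ (.nil) (.nil)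
def t14_1399 : Tr := .node ⟨nat_lit 7, nat_lit 0x40001000600060, nat_lit 0x13110, nat_lit 0, nat_lit 4, nat_lit 0x47⟩ (.nil) (.nil)
def t14_9591 : Tr := .node ⟨nat_lit 6, nat_lit 0x10002000200030, nat_lit 0x103000, nat_lit 0, nat_lit 3, nat_lit 0x45⟩ (.nil) (.nil)
def t14_5495 : Tr := .node ⟨nat_lit 6, nat_lit 0x1000100020, nat_lit 0x1204, nat_lit 0, nat_lit 4, nat_lit 0x48⟩ (.nil) (.nil)
def t14_13687 : Tr := .node ⟨nat_lit 5, nat_lit 0x40018, nat_lit 0x20000, nat_lit 2, nat_lit 4, nat_lit 0x45⟩ (.nil) (.nil)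
def t14_3447 : Tr := .node ⟨nat_lit 8, nat_lit 0x4000a0006000c0, nat_lit 0x112210, nat_lit 0, nat_lit 4, nat_lit 0x48⟩ (.nil) (.nil)
def t14_11639 : Tr := .node ⟨nat_lit 7, nat_lit 0x20005000500060, nat_lit 0x3103, nat_lit 0, nat_lit 4, nat_lit 0x46⟩ (.nil) (.nil)
def t14_7543 : Tr := .node ⟨nat_lit 5, nat_lit 0x1000080018, nat_lit 0x224, nat_lit 3, nat_lit 4, nat_lit 0x46⟩ (.nil) (.nil)
def t14_887 : Tr := .node ⟨nat_lit 7, nat_lit 0x400040002000200064, nat_lit 0x10222, nat_lit 0, nat_lit 4, nat_lit 0x47⟩ (.nil) (.nil)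
def t14_9079 : Tr := .node ⟨nat_lit 8, nat_lit 0x8000800040009000a000c0, nat_lit 0x1111011, nat_lit 3, nat_lit 4, nat_lit 0x48⟩ (.nil) (.nil)
def t14_4983 : Tr := .node ⟨nat_lit 5, nat_lit 0x180014, nat_lit 0x2141, nat_lit 2, nat_lit 4, nat_lit 0x47⟩ (.nil) (.nil)
def t14_13175 : Tr := .node ⟨nat_lit 6, nat_lit 0x20001000100028, nat_lit 0x100103, nat_lit 2, nat_lit 4, nat_lit 0x46⟩ (.nil) (.nil)
def t14_2935 : Tr := .node ⟨nat_lit 7, nat_lit 0x5000500060, nat_lit 0x1201201, nat_lit 0, nat_lit 4, nat_lit 0x48⟩ (.nil) (.nil)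
def t14_11127 : Tr := .node ⟨nat_lit 5, nat_lit 0x1000080018, nat_lit 2, nat_lit 5, nat_lit 3, nat_lit 0x44⟩ (.nil) (.nil)
def t14_7031 : Tr := .node ⟨nat_lit 6, nat_lit 0x2000200030, nat_lit 0x101311, nat_lit 4, nat_lit 4, nat_lit 0x49⟩ (.nil) (.nil)
def t14_15223 : Tr := .node ⟨nat_lit 6, nat_lit 0x2000200030, nat_lit 0x11201, nat_lit 8, nat_lit 4, nat_lit 0x49⟩ (.nil) (.nil)
def t14_1911 : Tr := .node ⟨nat_lit 4, nat_lit 0x8000a, nat_lit 0x201, nat_lit 6, nat_lit 4, nat_lit 0x45⟩ (.nil) (.nil)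
def t14_10103 : Tr := .node ⟨nat_lit 8, nat_lit 0x200080008800c000c0, nat_lit 0x3220, nat_lit 0, nat_lit 4, nat_lit 0x48⟩ (.nil) (.nil)
def t14_6007 : Tr := .node ⟨nat_lit 6, nat_lit 0x200030, nat_lit 0x112110, nat_lit 5, nat_lit 4, nat_lit 0x4a⟩ (.nil) (.nil)
def t14_14199 : Tr := .node ⟨nat_lit 7, nat_lit 0x200040004800300068, nat_lit 0x1010200, nat_lit 1, nat_lit 4, nat_lit 0x45⟩ (.nil) (.nil)
def t14_3959 : Tr := .node ⟨nat_lit 6, nat_lit 0x1000200020, nat_lit 0x11130, nat_lit 0, nat_lit 4, nat_lit 0x48⟩ (.nil) (.nil)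
def t14_12151 : Tr := .node ⟨nat_lit 8, nat_lit 0x2000a0003000c0, nat_lit 0x1012101, nat_lit 1, nat_lit 4, nat_lit 0x48⟩ (.nil) (.nil)
def t14_8055 : Tr := .node ⟨nat_lit 5, nat_lit 0x1000080014, nat_lit 0x2113, nat_lit 2, nat_lit 4, nat_lit 0x46⟩ (.nil) (.nil)
def t9_375 : Tr := .node ⟨nat_lit 4, nat_lit 0x80008, nat_lit 0x2311, nat_lit 9, nat_lit 4, nat_lit 0x49⟩ (.node ⟨nat_lit 6, nat_lit 0x2000300030, nat_lit 0x13210, nat_lit 0, nat_lit 3, nat_lit 0x46⟩ (.node ⟨nat_lit 4, nat_lit 8, nat_lit 0x2210, nat_lit 3, nat_lit 3, nat_lit 0x47⟩ (.node ⟨nat_lit 5, nat_lit 0x800100010, nat_lit 0x22021, nat_lit 0, nat_lit 3, nat_lit 0x47⟩ (.node ⟨nat_lit 7, nat_lit 0x40004000100060, nat_lit 0x22110, nat_lit 3, nat_lit 4, nat_lit 0x49⟩ (t14_375) (t14_8567)) (.node ⟨nat_lit 8, nat_lit 0x40008000800060008800d0, nat_lit 0x11112011, nat_lit 0, nat_lit 4, nat_lit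 0x48⟩ (t14_4471) (t14_12663))) (.node ⟨nat_lit 6, nat_lit 0x2000240018, nat_lit 0x21021, nat_lit 1, nat_lit 4, nat_lit 0x46⟩ (.node ⟨nat_lit 7, nat_lit 0x4000200060, nat_lit 0x111113, nat_lit 1, nat_lit 4, nat_lit 0x49⟩ (t14_2423) (t14_10615)) (.node ⟨nat_lit 7, nat_lit 0x1000100060, nat_lit 0x2112, nat_lit 0, nat_lit 4, nat_lit 0x48⟩ (t14_6519) (t14_14711)))) (.node ⟨nat_lit 7, nat_lit 0x20004000100044, nat_lit 0x2010120, nat_lit 2, nat_lit 4, nat_lit 0x49⟩ (.node ⟨nat_lit 5, nat_lit 0x80010, nat_lit 0x2323, nat_lit 0, nat_lit 4, nat_lit 0x49⟩ (.node ⟨nat_lit 5, nat_lit 0x40018, nat_lit 0x10113, nat_lit 2, nat_lit 4, nat_lit 0x46⟩ (t14_1399) (t14_9591)) (.node ⟨nat_lit 6, nat_lit 0x10001000200038, nat_lit 0x11221, nat_lit 3, nat_lit 4, nat_lit 0x47⟩ (t14_5495) (t14_13687))) (.node ⟨nat_lit 6, nat_lit 0x800080030, nat_lit 0x301212, nat_lit 0, nat_lit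 4, nat_lit 0x49⟩ (.node ⟨nat_lit 5, nat_lit 0x180018, nat_lit 0x10200, nat_lit 3, nat_lit 4, nat_lit 0x46⟩ (t14_3447) (t14_11639)) (.node ⟨nat_lit 7, nat_lit 0x20002000500068, nat_lit 0x1111121, nat_lit 1, nat_lit 4, nat_lit 0x48⟩ (t14_7543) (.nil))))) (.node ⟨nat_lit 5, nat_lit 0x18, nat_lit 0x21311, nat_lit 3, nat_lit 4, nat_lit 0x4a⟩ (.node ⟨nat_lit 6, nat_lit 0x1000280034, nat_lit 0x22111, nat_lit 1, nat_lit 4, nat_lit 0x47⟩ (.node ⟨nat_lit 6, nat_lit 0x2000080010, nat_lit 0x11111, nat_lit 1, nat_lit 4, nat_lit 0x47⟩ (.node ⟨nat_lit 7, nat_lit 0x20002000100040, nat_lit 0x1022101, nat_lit 0, nat_lit 4, nat_lit 0x49⟩ (t14_887) (t14_9079)) (.node ⟨nat_lit 6, nat_lit 0x200020, nat_lit 0x111120, nat_lit 7, nat_lit 4, nat_lit 0x4b⟩ (t14_4983) (t14_13175))) (.node ⟨nat_lit 5, nat_lit 0x100010001c, nat_lit 0x11120, nat_lit 4, nat_lit 4, nat_lit 0x47⟩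 (.node ⟨nat_lit 5, nat_lit 0x80010, nat_lit 0x11112, nat_lit 7, nat_lit 4, nat_lit 0x49⟩ (t14_2935) (t14_11127)) (.node ⟨nat_lit 7, nat_lit 0x200040004800300030, nat_lit 0x1121100, nat_lit 0, nat_lit 4, nat_lit 0x47⟩ (t14_7031) (t14_15223)))) (.node ⟨nat_lit 6, nat_lit 0x1000200032, nat_lit 0x12221, nat_lit 0, nat_lit 4, nat_lit 0x47⟩ (.node ⟨nat_lit 6, nat_lit 0x300028, nat_lit 0x112111, nat_lit 0, nat_lit 4, nat_lit 0x48⟩ (.node ⟨nat_lit 7, nat_lit 0x2000480070, nat_lit 0x1110113, nat_lit 2, nat_lit 4, nat_lit 0x48⟩ (t14_1911) (t14_10103)) (.node ⟨nat_lit 7, nat_lit 0x40001000600060, nat_lit 0x112030, nat_lit 0, nat_lit 4, nat_lit 0x48⟩ (t14_6007) (t14_14199))) (.node ⟨nat_lit 6, nat_lit 0x40038, nat_lit 0x100002, nat_lit 0, nat_lit 4, nat_lit 0x45⟩ (.node ⟨nat_lit 7, nat_lit 0x40004800300070, nat_lit 0x1102103, nat_lit 0, nat_lit 4, nat_lit 0x47⟩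 (t14_3959) (t14_12151)) (.node ⟨nat_lit 6, nat_lit 0x10001000200020, nat_lit 0x112111, nat_lit 5, nat_lit 4, nat_lit 0x49⟩ (t14_8055) (.nil)))))
def t14_247 : Tr := .node ⟨nat_lit 6, nat_lit 0x1000200032, nat_lit 0x22221, nat_lit 0, nat_lit 4, nat_lit 0x48⟩ (.nil) (.nil)
def t14_8439 : Tr := .node ⟨nat_lit 5, nat_lit 0x180014, nat_lit 3, nat_lit 2, nat_lit 4, nat_lit 0x44⟩ (.nil) (.nil)
def t14_4343 : Tr := .node ⟨nat_lit 6, nat_lit 0x2000100030, nat_lit 0x201201, nat_lit 1, nat_lit 3, nat_lit 0x47⟩ (.nil) (.nil)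
def t14_12535 : Tr := .node ⟨nat_lit 7, nat_lit 0x4000600070, nat_lit 0x10203, nat_lit 0, nat_lit 4, nat_lit 0x47⟩ (.nil) (.nil)
def t14_2295 : Tr := .node ⟨nat_lit 5, nat_lit 0x10, nat_lit 0x4112, nat_lit 0, nat_lit 4, nat_lit 0x49⟩ (.nil) (.nil)
def t14_10487 : Tr := .node ⟨nat_lit 8, nat_lit 0x800020008800c0, nat_lit 0x101022, nat_lit 0, nat_lit 4, nat_lit 0x48⟩ (.nil) (.nil)
def t14_6391 : Tr := .node ⟨nat_lit 8, nat_lit 0x80008000400040004000a0, nat_lit 0x2100, nat_lit 3, nat_lit 4, nat_lit 0x48⟩ (.nil) (.nil)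
def t14_14583 : Tr := .node ⟨nat_lit 9, nat_lit 0x8001000100004000400110, nat_lit 0x21101, nat_lit 2, nat_lit 4, nat_lit 0x49⟩ (.nil) (.nil)
def t14_1271 : Tr := .node ⟨nat_lit 7, nat_lit 0x200040003000480048, nat_lit 0x112100, nat_lit 0, nat_lit 4, nat_lit 0x46⟩ (.nil) (.nil)
def t14_9463 : Tr := .node ⟨nat_lit 8, nat_lit 0x8000800040009000a000c0, nat_lit 0x1112002, nat_lit 1, nat_lit 4, nat_lit 0x48⟩ (.nil) (.nil)
def t14_5367 : Tr := .node ⟨nat_lit 7, nat_lit 0x40001000100060, nat_lit 0x1102100, nat_lit 5, nat_lit 4, nat_lit 0x49⟩ (.nil) (.nil)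
def t14_13559 : Tr := .node ⟨nat_lit 7, nat_lit 0x4000400020, nat_lit 0x21002, nat_lit 0, nat_lit 4, nat_lit 0x49⟩ (.nil) (.nil)
def t14_3319 : Tr := .node ⟨nat_lit 8, nat_lit 0x800020004000a000c0, nat_lit 0x12012, nat_lit 0, nat_lit 4, nat_lit 0x47⟩ (.nil) (.nil)
def t14_11511 : Tr := .node ⟨nat_lit 7, nat_lit 0x40001000600068, nat_lit 0x101110, nat_lit 0, nat_lit 4, nat_lit 0x46⟩ (.nil) (.nil)
def t14_7415 : Tr := .node ⟨nat_lit 9, nat_lit 0x10001000040008000800120, nat_lit 0x11001110, nat_lit 3, nat_lit 4, nat_lit 0x4a⟩ (.nil) (.nil)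
def t14_759 : Tr := .node ⟨nat_lit 7, nat_lit 0x20003000500068, nat_lit 0x311, nat_lit 1, nat_lit 4, nat_lit 0x45⟩ (.nil) (.nil)
def t14_8951 : Tr := .node ⟨nat_lit 9, nat_lit 0x400100008001080180, nat_lit 0x102120, nat_lit 0, nat_lit 4, nat_lit 0x49⟩ (.nil) (.nil)
def t14_4855 : Tr := .node ⟨nat_lit 9, nat_lit 0x10001000080008000400120, nat_lit 0x11002100, nat_lit 2, nat_lit 4, nat_lit 0x4a⟩ (.nil) (.nil)
def t14_13047 : Tr := .node ⟨nat_lit 7, nat_lit 0x40001000480068, nat_lit 0x112000, nat_lit 1, nat_lit 4, nat_lit 0x47⟩ (.nil) (.nil)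
def t14_2807 : Tr := .node ⟨nat_lit 6, nat_lit 0x2000200034, nat_lit 0x101012, nat_lit 2, nat_lit 4, nat_lit 0x47⟩ (.nil) (.nil)
def t14_10999 : Tr := .node ⟨nat_lit 9, nat_lit 0x400100010000200180, nat_lit 0x10102012, nat_lit 0, nat_lit 4, nat_lit 0x4a⟩ (.nil) (.nil)
def t14_6903 : Tr := .node ⟨nat_lit 4, nat_lit 0, nat_lit 0x1111, nat_lit 0xc, nat_lit 4, nat_lit 0x4a⟩ (.nil) (.nil)
def t14_15095 : Tr := .node ⟨nat_lit 9, nat_lit 0x1000080012001a001900190, nat_lit 0x11111110, nat_lit 0, nat_lit 4, nat_lit 0x47⟩ (.nil) (.nil)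
def t14_1783 : Tr := .node ⟨nat_lit 6, nat_lit 0x1000280034, nat_lit 0x112221, nat_lit 2, nat_lit 4, nat_lit 0x48⟩ (.nil) (.nil)
def t14_9975 : Tr := .node ⟨nat_lit 7, nat_lit 0x40001000600060, nat_lit 0x4020, nat_lit 2, nat_lit 3, nat_lit 0x46⟩ (.nil) (.nil)
def t14_5879 : Tr := .node ⟨nat_lit 8, nat_lit 0x80008000400040, nat_lit 0x111022, nat_lit 0, nat_lit 4, nat_lit 0x4a⟩ (.nil) (.nil)
def t14_14071 : Tr := .node ⟨nat_lit 3, nat_lit 6, nat_lit 0x102, nat_lit 0xc, nat_lit 4, nat_lit 0x46⟩ (.nil) (.nil)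
def t14_3831 : Tr := .node ⟨nat_lit 8, nat_lit 0x8000400040005000a000d0, nat_lit 0x10112102, nat_lit 0, nat_lit 4, nat_lit 0x47⟩ (.nil) (.nil)
def t14_12023 : Tr := .node ⟨nat_lit 8, nat_lit 0x800040009000a000c0, nat_lit 0x120101, nat_lit 3, nat_lit 4, nat_lit 0x48⟩ (.nil) (.nil)
def t14_7927 : Tr := .node ⟨nat_lit 7, nat_lit 0x40004000480044, nat_lit 0x111202, nat_lit 3, nat_lit 4, nat_lit 0x49⟩ (.nil) (.nil)
def t9_247 : Tr := .node ⟨nat_lit 6, nat_lit 0x2000100032, nat_lit 0x13220, nat_lit 0, nat_lit 4, nat_lit 0x48⟩ (.node ⟨nat_lit 6, nat_lit 0x1000280034, nat_lit 0x31112, nat_lit 0, nat_lit 4, nat_lit 0x47⟩ (.node ⟨nat_lit 6, nat_lit 0x2000200010, nat_lit 0x13111, nat_lit 3, nat_lit 4, nat_lit 0x49⟩ (.node ⟨nat_lit 5, nat_lit 0x40018, nat_lit 0x11214, nat_lit 0, nat_lit 4, nat_lit 0x47⟩ (.node ⟨nat_lit 5, nat_lit 0x100008, nat_lit 0x2101, nat_lit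 0xd, nat_lit 4, nat_lit 0x4a⟩ (t14_247) (t14_8439)) (.node ⟨nat_lit 8, nat_lit 0x40004000800080008800c8, nat_lit 0x10210003, nat_lit 0, nat_lit 4, nat_lit 0x47⟩ (t14_4343) (t14_12535))) (.node ⟨nat_lit 5, nat_lit 0x180018, nat_lit 0x20121, nat_lit 0xa, nat_lit 4, nat_lit 0x48⟩ (.node ⟨nat_lit 5, nat_lit 0x1000080008, nat_lit 0x21033, nat_lit 2, nat_lit 3, nat_lit 0x47⟩ (t14_2295) (t14_10487)) (.node ⟨nat_lit 6, nat_lit 0x1000200030, nat_lit 0x112310, nat_lit 0, nat_lit 4, nat_lit 0x49⟩ (t14_6391) (t14_14583)))) (.node ⟨nat_lit 5, nat_lit 0x18, nat_lit 0x21111, nat_lit 5, nat_lit 4, nat_lit 0x49⟩ (.node ⟨nat_lit 6, nat_lit 0x80030, nat_lit 0x211111, nat_lit 3, nat_lit 3, nat_lit 0x48⟩ (.node ⟨nat_lit 7, nat_lit 0x4000100060, nat_lit 0x1101003, nat_lit 2, nat_lit 4, nat_lit 0x49⟩ (t14_1271) (t14_9463)) (.node ⟨nat_lit 7, nat_lit 0x10004000600064,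 nat_lit 0x1100222, nat_lit 2, nat_lit 4, nat_lit 0x48⟩ (t14_5367) (t14_13559))) (.node ⟨nat_lit 5, nat_lit 0x100018, nat_lit 0x2230, nat_lit 0, nat_lit 3, nat_lit 0x46⟩ (.node ⟨nat_lit 7, nat_lit 0x40001000100020, nat_lit 0x110310, nat_lit 4, nat_lit 4, nat_lit 0x4a⟩ (t14_3319) (t14_11511)) (.node ⟨nat_lit 6, nat_lit 0x2000240018, nat_lit 0x111022, nat_lit 0, nat_lit 4, nat_lit 0x46⟩ (t14_7415) (.nil))))) (.node ⟨nat_lit 3, nat_lit 4, nat_lit 0x132, nat_lit 0xa, nat_lit 4, nat_lit 0x48⟩ (.node ⟨nat_lit 6, nat_lit 0x30, nat_lit 0x211112, nat_lit 1, nat_lit 4, nat_lit 0x4a⟩ (.node ⟨nat_lit 6, nat_lit 0x200030, nat_lit 0x111101, nat_lit 0, nat_lit 3, nat_lit 0x47⟩ (.node ⟨nat_lit 6, nat_lit 0x2000200030, nat_lit 0x13200, nat_lit 1, nat_lit 3, nat_lit 0x47⟩ (t14_759) (t14_8951)) (.node ⟨nat_lit 7, nat_lit 0x10002000500060, nat_lit 0x102201, nat_lit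 0, nat_lit 4, nat_lit 0x47⟩ (t14_4855) (t14_13047))) (.node ⟨nat_lit 6, nat_lit 0x1000300028, nat_lit 0x101312, nat_lit 1, nat_lit 4, nat_lit 0x47⟩ (.node ⟨nat_lit 5, nat_lit 0x100018, nat_lit 0x2113, nat_lit 5, nat_lit 4, nat_lit 0x48⟩ (t14_2807) (t14_10999)) (.node ⟨nat_lit 8, nat_lit 0x800090009000c00060, nat_lit 0x1102022, nat_lit 1, nat_lit 4, nat_lit 0x47⟩ (t14_6903) (t14_15095)))) (.node ⟨nat_lit 7, nat_lit 0x40001000100060, nat_lit 0x1102101, nat_lit 1, nat_lit 4, nat_lit 0x48⟩ (.node ⟨nat_lit 7, nat_lit 0x20004000600064, nat_lit 0x1013211, nat_lit 0, nat_lit 4, nat_lit 0x48⟩ (.node ⟨nat_lit 5, nat_lit 0x180018, nat_lit 0x110, nat_lit 2, nat_lit 3, nat_lit 0x44⟩ (t14_1783) (t14_9975)) (.node ⟨nat_lit 7, nat_lit 0x4000500060, nat_lit 0x212021, nat_lit 0, nat_lit 4, nat_lit 0x49⟩ (t14_5879) (t14_14071))) (.node ⟨nat_lit 6, nat_lit 0x200038,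 nat_lit 0x21012, nat_lit 0, nat_lit 4, nat_lit 0x47⟩ (.node ⟨nat_lit 6, nat_lit 0xc0030, nat_lit 0x111100, nat_lit 0, nat_lit 4, nat_lit 0x47⟩ (t14_3831) (t14_12023)) (.node ⟨nat_lit 7, nat_lit 0x4000440030, nat_lit 0x101111, nat_lit 0, nat_lit 4, nat_lit 0x47⟩ (t14_7927) (.nil)))))
def t14_503 : Tr := .node ⟨nat_lit 8, nat_lit 0x80002000c0, nat_lit 0x11111110, nat_lit 1, nat_lit 4, nat_lit 0x4b⟩ (.nil) (.nil)
def t14_8695 : Tr := .node ⟨nat_lit 7, nat_lit 0x40003000580068, nat_lit 0x21, nat_lit 0, nat_lit 4, nat_lit 0x43⟩ (.nil) (.nil)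
def t14_4599 : Tr := .node ⟨nat_lit 6, nat_lit 0x200030, nat_lit 0x102031, nat_lit 0, nat_lit 4, nat_lit 0x49⟩ (.nil) (.nil)
def t14_12791 : Tr := .node ⟨nat_lit 7, nat_lit 0x10004000600064, nat_lit 0x1000220, nat_lit 1, nat_lit 4, nat_lit 0x47⟩ (.nil) (.nil)
def t14_2551 : Tr := .node ⟨nat_lit 5, nat_lit 0x180018, nat_lit 0x10310, nat_lit 2, nat_lit 3, nat_lit 0x46⟩ (.nil) (.nil)
def t14_10743 : Tr := .node ⟨nat_lit 7, nat_lit 0x2000500060, nat_lit 0x111020, nat_lit 0, nat_lit 4, nat_lit 0x48⟩ (.nil) (.nil)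
def t14_6647 : Tr := .node ⟨nat_lit 8, nat_lit 0x800080002000400090, nat_lit 0x1120110, nat_lit 1, nat_lit 4, nat_lit 0x49⟩ (.nil) (.nil)
def t14_14839 : Tr := .node ⟨nat_lit 9, nat_lit 0x10001000040004001200180, nat_lit 0x10121001, nat_lit 0, nat_lit 4, nat_lit 0x49⟩ (.nil) (.nil)
def t14_1527 : Tr := .node ⟨nat_lit 7, nat_lit 0x400040002000200050, nat_lit 0x21201, nat_lit 0, nat_lit 4, nat_lit 0x47⟩ (.nil) (.nil)
def t14_9719 : Tr := .node ⟨nat_lit 8, nat_lit 0x40004000800080, nat_lit 0x112200, nat_lit 0, nat_lit 4, nat_lit 0x4a⟩ (.nil) (.nil)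
def t14_5623 : Tr := .node ⟨nat_lit 6, nat_lit 0x2000300030, nat_lit 0x1120, nat_lit 5, nat_lit 4, nat_lit 0x47⟩ (.nil) (.nil)
def t14_13815 : Tr := .node ⟨nat_lit 7, nat_lit 0x40002000600050, nat_lit 0x1200, nat_lit 0, nat_lit 4, nat_lit 0x46⟩ (.nil) (.nil)
def t14_3575 : Tr := .node ⟨nat_lit 6, nat_lit 0x800200030, nat_lit 0x20, nat_lit 0, nat_lit 4, nat_lit 0x45⟩ (.nil) (.nil)
def t14_11767 : Tr := .node ⟨nat_lit 2, nat_lit 0, nat_lit 0x52, nat_lit 2, nat_lit 3, nat_lit 0x47⟩ (.nil) (.nil)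
def t14_7671 : Tr := .node ⟨nat_lit 2, nat_lit 2, nat_lit 1, nat_lit 9, nat_lit 4, nat_lit 0x43⟩ (.nil) (.nil)
def t14_1015 : Tr := .node ⟨nat_lit 1, nat_lit 0, nat_lit 2, nat_lit 0xa, nat_lit 4, nat_lit 0x43⟩ (.nil) (.nil)
def t14_9207 : Tr := .node ⟨nat_lit 9, nat_lit 0x10001000080011001200180, nat_lit 0x1010002, nat_lit 0, nat_lit 4, nat_lit 0x48⟩ (.nil) (.nil)
def t14_5111 : Tr := .node ⟨nat_lit 7, nat_lit 0x10004000400060, nat_lit 0x100301, nat_lit 5, nat_lit 4, nat_lit 0x49⟩ (.nil) (.nil)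
def t14_13303 : Tr := .node ⟨nat_lit 7, nat_lit 0x4000600018, nat_lit 0x100, nat_lit 1, nat_lit 4, nat_lit 0x46⟩ (.nil) (.nil)
def t14_3063 : Tr := .node ⟨nat_lit 7, nat_lit 0x10002000500060, nat_lit 0x102011, nat_lit 2, nat_lit 4, nat_lit 0x47⟩ (.nil) (.nil)
def t14_11255 : Tr := .node ⟨nat_lit 7, nat_lit 0x40001000100060, nat_lit 0x101100, nat_lit 1, nat_lit 4, nat_lit 0x47⟩ (.nil) (.nil)
def t14_7159 : Tr := .node ⟨nat_lit 7, nat_lit 0x10004000600064, nat_lit 0x1100120, nat_lit 1, nat_lit 4, nat_lit 0x47⟩ (.nil) (.nil)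
def t14_15351 : Tr := .node ⟨nat_lit 9, nat_lit 0x80008001000100010801c00190, nat_lit 0x2011101, nat_lit 0, nat_lit 4, nat_lit 0x47⟩ (.nil) (.nil)
def t14_2039 : Tr := .node ⟨nat_lit 7, nat_lit 0x20004000400068, nat_lit 0x211310, nat_lit 0, nat_lit 4, nat_lit 0x49⟩ (.nil) (.nil)
def t14_10231 : Tr := .node ⟨nat_lit 7, nat_lit 0x200040004800300060, nat_lit 0x112210, nat_lit 2, nat_lit 4, nat_lit 0x47⟩ (.nil) (.nil)
def t14_6135 : Tr := .node ⟨nat_lit 5, nat_lit 0x10001000140018, nat_lit 0x100, nat_lit 7, nat_lit 4, nat_lit 0x45⟩ (.nil) (.nil)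
def t14_14327 : Tr := .node ⟨nat_lit 6, nat_lit 0x800080030, nat_lit 0x1103, nat_lit 0, nat_lit 4, nat_lit 0x46⟩ (.nil) (.nil)
def t14_4087 : Tr := .node ⟨nat_lit 8, nat_lit 0x400080008800c00060, nat_lit 0x10101021, nat_lit 1, nat_lit 4, nat_lit 0x48⟩ (.nil) (.nil)
def t14_12279 : Tr := .node ⟨nat_lit 6, nat_lit 0x1800300028, nat_lit 0x110, nat_lit 5, nat_lit 4, nat_lit 0x45⟩ (.nil) (.nil)
def t14_8183 : Tr := .node ⟨nat_lit 8, nat_lit 0x800040004000a000a000d0, nat_lit 0x100410, nat_lit 1, nat_lit 4, nat_lit 0x47⟩ (.nil) (.nil)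
def t9_503 : Tr := .node ⟨nat_lit 6, nat_lit 0x80030, nat_lit 0x111312, nat_lit 0, nat_lit 4, nat_lit 0x49⟩ (.node ⟨nat_lit 8, nat_lit 0x4000800090006000600060, nat_lit 0x13000220, nat_lit 0, nat_lit 4, nat_lit 0x49⟩ (.node ⟨nat_lit 5, nat_lit 0x10, nat_lit 0x22221, nat_lit 1, nat_lit 4, nat_lit 0x4a⟩ (.node ⟨nat_lit 6, nat_lit 0x2000100024, nat_lit 0x201011, nat_lit 1, nat_lit 4, nat_lit 0x47⟩ (.node ⟨nat_lit 7, nat_lit 0x40004000400020, nat_lit 0x212101, nat_lit 2, nat_lit 4, nat_lit 0x4a⟩ (t14_503) (t14_8695)) (.node ⟨nat_lit 7, nat_lit 0x4000100060, nat_lit 0x1021121, nat_lit 1, nat_lit 4, nat_lit 0x4a⟩ (t14_4599) (t14_12791))) (.node ⟨nat_lit 3, nat_lit 6, nat_lit 0x102, nat_lit 8, nat_lit 4, nat_lit 0x44⟩ (.node ⟨nat_lit 7, nat_lit 0x40004000200020, nat_lit 0x111031, nat_lit 4, nat_lit 4, nat_lit 0x4a⟩ (t14_2551) (t14_10743)) (.node ⟨nat_lit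 7, nat_lit 0x40001000600068, nat_lit 0x112121, nat_lit 0, nat_lit 4, nat_lit 0x47⟩ (t14_6647) (t14_14839)))) (.node ⟨nat_lit 6, nat_lit 0x800100020, nat_lit 0x121010, nat_lit 1, nat_lit 4, nat_lit 0x48⟩ (.node ⟨nat_lit 6, nat_lit 0x200010, nat_lit 0x22221, nat_lit 0, nat_lit 4, nat_lit 0x4a⟩ (.node ⟨nat_lit 6, nat_lit 0x1000200030, nat_lit 0x101032, nat_lit 0, nat_lit 4, nat_lit 0x48⟩ (t14_1527) (t14_9719)) (.node ⟨nat_lit 5, nat_lit 0x180018, nat_lit 0x11210, nat_lit 3, nat_lit 3, nat_lit 0x46⟩ (t14_5623) (t14_13815))) (.node ⟨nat_lit 6, nat_lit 0x2000080030, nat_lit 0x111001, nat_lit 0, nat_lit 3, nat_lit 0x46⟩ (.node ⟨nat_lit 6, nat_lit 0x200010, nat_lit 0x110000, nat_lit 0, nat_lit 4, nat_lit 0x47⟩ (t14_3575) (t14_11767)) (.node ⟨nat_lit 6, nat_lit 0x200020, nat_lit 0x211120, nat_lit 0, nat_lit 3, nat_lit 0x49⟩ (t14_7671) (.nil))))) (.node ⟨nat_lit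 5, nat_lit 0x10001c001c, nat_lit 0x30020, nat_lit 5, nat_lit 4, nat_lit 0x46⟩ (.node ⟨nat_lit 3, nat_lit 0, nat_lit 0x222, nat_lit 7, nat_lit 3, nat_lit 0x47⟩ (.node ⟨nat_lit 5, nat_lit 0x100010, nat_lit 0x22111, nat_lit 7, nat_lit 4, nat_lit 0x4a⟩ (.node ⟨nat_lit 5, nat_lit 0x100018, nat_lit 0x12131, nat_lit 4, nat_lit 4, nat_lit 0x49⟩ (t14_1015) (t14_9207)) (.node ⟨nat_lit 5, nat_lit 0x100010, nat_lit 0x12221, nat_lit 6, nat_lit 4, nat_lit 0x4a⟩ (t14_5111) (t14_13303))) (.node ⟨nat_lit 7, nat_lit 0x4000440060, nat_lit 0x1011210, nat_lit 0, nat_lit 4, nat_lit 0x49⟩ (.node ⟨nat_lit 6, nat_lit 0x2000240034, nat_lit 0x201221, nat_lit 4, nat_lit 4, nat_lit 0x49⟩ (t14_3063) (t14_11255)) (.node ⟨nat_lit 7, nat_lit 0x20005000600068, nat_lit 0x112022, nat_lit 1, nat_lit 4, nat_lit 0x47⟩ (t14_7159) (t14_15351)))) (.node ⟨nat_lit 5, nat_lit 0x180018, nat_lit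 0x10221, nat_lit 5, nat_lit 4, nat_lit 0x47⟩ (.node ⟨nat_lit 7, nat_lit 0x500060, nat_lit 0x2111111, nat_lit 0, nat_lit 4, nat_lit 0x4a⟩ (.node ⟨nat_lit 5, nat_lit 0x1000080008, nat_lit 0x1031, nat_lit 0xb, nat_lit 4, nat_lit 0x49⟩ (t14_2039) (t14_10231)) (.node ⟨nat_lit 7, nat_lit 0x4000500060, nat_lit 0x202200, nat_lit 1, nat_lit 4, nat_lit 0x49⟩ (t14_6135) (t14_14327))) (.node ⟨nat_lit 6, nat_lit 0x800080030, nat_lit 0x220203, nat_lit 1, nat_lit 4, nat_lit 0x49⟩ (.node ⟨nat_lit 6, nat_lit 0x200020, nat_lit 0x20000, nat_lit 1, nat_lit 3, nat_lit 0x47⟩ (t14_4087) (t14_12279)) (.node ⟨nat_lit 7, nat_lit 0x400040002000200050, nat_lit 0x111311, nat_lit 1, nat_lit 4, nat_lit 0x48⟩ (t14_8183) (.nil)))))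
def t4_7 : Tr := .node ⟨nat_lit 1, nat_lit 0, nat_lit 2, nat_lit 0xd, nat_lit 3, nat_lit 0x44⟩ (.node ⟨nat_lit 4, nat_lit 0x80008, nat_lit 0x210, nat_lit 5, nat_lit 3, nat_lit 0x45⟩ (.node ⟨nat_lit 4, nat_lit 8, nat_lit 0x1111, nat_lit 1, nat_lit 3, nat_lit 0x45⟩ (.node ⟨nat_lit 2, nat_lit 0, nat_lit 0x43, nat_lit 7, nat_lit 3, nat_lit 0x47⟩ (.node ⟨nat_lit 5, nat_lit 0x80010, nat_lit 0x20401, nat_lit 0, nat_lit 4, nat_lit 0x49⟩ (t9_7) (t9_263)) (.node ⟨nat_lit 5, nat_lit 0x80010, nat_lit 0x13221, nat_lit 0, nat_lit 3, nat_lit 0x48⟩ (t9_135) (t9_391))) (.node ⟨nat_lit 4, nat_lit 0, nat_lit 0x4311, nat_lit 1, nat_lit 4, nat_lit 0x4a⟩ (.node ⟨nat_lit 4, nat_lit 8, nat_lit 0x2213, nat_lit 0, nat_lit 3, nat_lit 0x47⟩ (t9_71) (t9_327)) (.node ⟨nat_lit 3, nat_lit 4, nat_lit 0x321, nat_lit 9, nat_lit 3, nat_lit 0x47⟩ (t9_199) (t9_455)))) (.node ⟨nat_lit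 6, nat_lit 0x20, nat_lit 0x11110, nat_lit 0, nat_lit 3, nat_lit 0x48⟩ (.node ⟨nat_lit 5, nat_lit 0x10, nat_lit 0x24211, nat_lit 0, nat_lit 4, nat_lit 0x4b⟩ (.node ⟨nat_lit 3, nat_lit 4, nat_lit 0x232, nat_lit 2, nat_lit 3, nat_lit 0x46⟩ (t9_39) (t9_295)) (.node ⟨nat_lit 6, nat_lit 0x800100020, nat_lit 0x131121, nat_lit 1, nat_lit 4, nat_lit 0x4a⟩ (t9_167) (t9_423))) (.node ⟨nat_lit 6, nat_lit 0x200020, nat_lit 0x141111, nat_lit 1, nat_lit 4, nat_lit 0x4b⟩ (.node ⟨nat_lit 5, nat_lit 0x10, nat_lit 0x33112, nat_lit 1, nat_lit 4, nat_lit 0x4b⟩ (t9_103) (t9_359)) (.node ⟨nat_lit 4, nat_lit 0, nat_lit 0x3311, nat_lit 1, nat_lit 4, nat_lit 0x49⟩ (t9_231) (t9_487))))) (.node ⟨nat_lit 4, nat_lit 8, nat_lit 0x211, nat_lit 1, nat_lit 3, nat_lit 0x45⟩ (.node ⟨nat_lit 3, nat_lit 0, nat_lit 0x111, nat_lit 4, nat_lit 3, nat_lit 0x45⟩ (.node ⟨nat_lit 3, nat_lit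 0, nat_lit 0x311, nat_lit 2, nat_lit 3, nat_lit 0x46⟩ (.node ⟨nat_lit 3, nat_lit 4, nat_lit 0x313, nat_lit 0xb, nat_lit 4, nat_lit 0x49⟩ (t9_23) (t9_279)) (.node ⟨nat_lit 4, nat_lit 0xc, nat_lit 0x3212, nat_lit 1, nat_lit 3, nat_lit 0x47⟩ (t9_151) (t9_407))) (.node ⟨nat_lit 3, nat_lit 0, nat_lit 0x111, nat_lit 1, nat_lit 3, nat_lit 0x44⟩ (.node ⟨nat_lit 4, nat_lit 0xc, nat_lit 0x2112, nat_lit 4, nat_lit 3, nat_lit 0x46⟩ (t9_87) (t9_343)) (.node ⟨nat_lit 5, nat_lit 0x1000100008, nat_lit 0x13202, nat_lit 0, nat_lit 3, nat_lit 0x47⟩ (t9_215) (t9_471)))) (.node ⟨nat_lit 4, nat_lit 0, nat_lit 0x4311, nat_lit 0, nat_lit 3, nat_lit 0x49⟩ (.node ⟨nat_lit 5, nat_lit 0x10, nat_lit 0x24112, nat_lit 0, nat_lit 4, nat_lit 0x4b⟩ (.node ⟨nat_lit 5, nat_lit 0x1000100008, nat_lit 0x2101, nat_lit 5, nat_lit 3, nat_lit 0x46⟩ (t9_55) (t9_311)) (.node ⟨nat_lit 6, nat_lit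 0, nat_lit 0x311111, nat_lit 0, nat_lit 4, nat_lit 0x4b⟩ (t9_183) (t9_439))) (.node ⟨nat_lit 5, nat_lit 0x80010, nat_lit 0x2410, nat_lit 1, nat_lit 4, nat_lit 0x49⟩ (.node ⟨nat_lit 4, nat_lit 8, nat_lit 0x3222, nat_lit 5, nat_lit 4, nat_lit 0x4a⟩ (t9_119) (t9_375)) (.node ⟨nat_lit 5, nat_lit 0x100018, nat_lit 0x13121, nat_lit 3, nat_lit 4, nat_lit 0x49⟩ (t9_247) (t9_503)))))

end Pool.Agent.Sel.T31
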