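import Pool.Agent.H8.Sel.T31.P0
import Pool.Agent.H8.Sel.T31.P8
import Pool.Agent.H8.Sel.T31.P4
import Pool.Agent.H8.Sel.T31.P12
import Pool.Agent.H8.Sel.T31.P2
import Pool.Agent.H8.Sel.T31.P10
import Pool.Agent.H8.Sel.T31.P6
import Pool.Agent.H8.Sel.T31.P14
import Pool.Agent.H8.Sel.T31.P1
import Pool.Agent.H8.Sel.T31.P9
import Pool.Agent.H8.Sel.T31.P5
import Pool.Agent.H8.Sel.T31.P13
import Pool.Agent.H8.Sel.T31.P3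
import Pool.Agent.H8.Sel.T31.P11
import Pool.Agent.H8.Sel.T31.P7
import Pool.Agent.H8.Sel.T31.P15

set_option linter.all false
set_option maxRecDepth 100000

namespace Pool.Agent.Sel.T31

open Pool.Agent.Sel

def tab : Tr := .node ⟨nat_lit 0, nat_lit 0, nat_lit 0, nat_lit 0x1f, nat_lit 4, nat_lit 0x47⟩ (.node ⟨nat_lit 2, nat_lit 2, nat_lit 0, nat_lit 0x1b, nat_lit 4, nat_lit 0x48⟩ (.node ⟨nat_lit 1, nat_lit 0, nat_lit 3, nat_lit 0x17, nat_lit 4, nat_lit 0x48⟩ (.node ⟨nat_lit 1, nat_lit 0, nat_lit 2, nat_lit 0xf, nat_lit 3, nat_lit 0x44⟩ (t4_0) (t4_8)) (.node ⟨nat_lit 4, nat_lit 0, nat_lit 0x2211, nat_lit 1, nat_lit 3, nat_lit 0x47⟩ (t4_4) (t4_12))) (.node ⟨nat_lit 0, nat_lit 0, nat_lit 0, nat_lit 0x15, nat_lit 3, nat_lit 0x43⟩ (.node ⟨nat_lit 2, nat_lit 0, nat_lit 0x22, nat_lit 9, nat_lit 3, nat_lit 0x45⟩ (t4_2)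 (t4_10)) (.node ⟨nat_lit 3, nat_lit 0, nat_lit 0x211, nat_lit 7, nat_lit 3, nat_lit 0x46⟩ (t4_6) (t4_14)))) (.node ⟨nat_lit 2, nat_lit 2, nat_lit 0x10, nat_lit 0x19, nat_lit 4, nat_lit 0x48⟩ (.node ⟨nat_lit 1, nat_lit 0, nat_lit 4, nat_lit 0x15, nat_lit 4, nat_lit 0x48⟩ (.node ⟨nat_lit 2, nat_lit 0, nat_lit 0x21, nat_lit 0xb, nat_lit 3, nat_lit 0x45⟩ (t4_1) (t4_9)) (.node ⟨nat_lit 3, nat_lit 0, nat_lit 0x222, nat_lit 1, nat_lit 3, nat_lit 0x46⟩ (t4_5) (t4_13))) (.node ⟨nat_lit 1, nat_lit 0, nat_lit 1, nat_lit 0x11, nat_lit 3, nat_lit 0x44⟩ (.node ⟨nat_lit 3, nat_lit 0, nat_lit 0x221, nat_lit 5, nat_lit 3, nat_lit 0x46⟩ (t4_3) (t4_11)) (.node ⟨nat_lit 2, nat_lit 0, nat_lit 0x22, nat_lit 7, nat_lit 3, nat_lit 0x45⟩ (t4_7) (t4_15))))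

end Pool.Agent.Sel.T31
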